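import Pool.Agent.Lib_MP_33f7bb_d.A0Basic

/-!
# A0-01: simplicial identities, `d d = 0`, factorisations of monotone maps

All statements are the classical simplicial identities; they can be obtained from
`SimplexCategory.δ_comp_δ`, `δ_comp_σ_of_le`, ... (the underlying order homs) or by
`ext` and `Fin` case distinctions (`Fin.succAbove`, `Fin.predAbove`, `omega`).
`SV.d_d`: pair the terms `(i, j)`, `i ≤ j`, with `(j+1, i)` (signs do not matter); it also follows
from `AlgebraicTopology.AlternatingFaceMapComplex.d_squared` type computations.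
-/

namespace MM

theorem dlt_comp_dlt {n : ℕ} (i j : Fin (n + 2)) (h : i ≤ j) :
    (dlt j.succ).comp (dlt i : Mo n (n + 1)) = (dlt i.castSucc).comp (dlt j) := by
  exact congrArg SimplexCategory.Hom.toOrderHom (SimplexCategory.δ_comp_δ h)

theorem sgm_comp_dlt_castSucc {n : ℕ} (i : Fin (n + 1)) :
    (sgm i).comp (dlt i.castSucc) = (OrderHom.id : Mo n n) := by
  exact congrArg SimplexCategory.Hom.toOrderHom (SimplexCategory.δ_comp_σ_self (i := i))

theorem sgm_comp_dlt_succ {n : ℕ} (i : Fin (n + 1)) :
    (sgm i).comp (dlt i.succ) = (OrderHom.id : Mo n n) := by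
  exact congrArg SimplexCategory.Hom.toOrderHom (SimplexCategory.δ_comp_σ_succ (i := i))

theorem sgm_comp_dlt_of_le {n : ℕ} (i : Fin (n + 2)) (j : Fin (n + 1)) (h : i ≤ j.castSucc) :
    (sgm j.succ).comp (dlt i.castSucc) = (dlt i).comp (sgm j) := by
  exact congrArg SimplexCategory.Hom.toOrderHom (SimplexCategory.δ_comp_σ_of_le h)

theorem sgm_comp_dlt_of_gt {n : ℕ} (i : Fin (n + 2)) (j : Fin (n + 1)) (h : j.castSucc < i) :
    (sgm j.castSucc).comp (dlt i.succ) = (dlt i).comp (sgm j) := by
  exact congrArg SimplexCategory.Hom.toOrderHom (SimplexCategory.δ_comp_σ_of_gt h)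

theorem sgm_comp_sgm {n : ℕ} (i j : Fin (n + 1)) (h : i ≤ j) :
    (sgm j).comp (sgm i.castSucc) = (sgm i).comp (sgm j.succ) := by
  exact congrArg SimplexCategory.Hom.toOrderHom (SimplexCategory.σ_comp_σ h)

theorem SV.d_d (W : SV) {n : ℕ} (z : W.V (n + 2)) : W.d n (W.d (n + 1) z) = 0 := by
  have h0 : W.d n (W.d (n + 1) z) =
      ∑ p : Fin (n + 2) × Fin (n + 3), W.act ((dlt p.2).comp (dlt p.1 : Mo n (n + 1))) z := by
    rw [Fintype.sum_prod_type]
    simp only [SV.d, LinearMap.sum_apply, map_sum, W.act_comp]
    exact Finset.sum_comm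
  rw [h0]
  refine Finset.sum_involution
    (fun p _ => if h : p.1.castSucc < p.2 then
        (p.2.pred (Fin.ne_zero_of_lt h), p.1.castSucc)
      else (p.2.castPred (fun he => h (he ▸ Fin.castSucc_lt_last _)), p.1.succ)) ?_ ?_
    (fun _ _ => Finset.mem_univ _) ?_
  · rintro ⟨i, j⟩ -
    by_cases h : i.castSucc < j
    · simp only [dif_pos h]
      have h1 : i ≤ j.pred (Fin.ne_zero_of_lt h) := by
        rw [Fin.le_def]
        rw [Fin.lt_def] at h
        simp only [Fin.val_castSucc, Fin.val_pred] at *
        omega
      have := dlt_comp_dlt _ _ h1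
      rw [Fin.succ_pred] at this
      rw [this]
      exact two_eq_zero' _
    · simp only [dif_neg h]
      have h2 : j ≠ Fin.last (n + 2) := by
        rintro rfl
        exact h (Fin.castSucc_lt_last _)
      have h1 : j.castPred h2 ≤ i := by
        rw [Fin.le_def]
        rw [Fin.lt_def] at h
        simp only [Fin.val_castSucc, Fin.coe_castPred] at *
        omega
      have := dlt_comp_dlt _ _ h1
      rw [Fin.castSucc_castPred] at this
      rw [← this]
      exact two_eq_zero' _
  · rintro ⟨i, j⟩ - -
    by_cases h : i.castSucc < j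
    · simp only [dif_pos h]
      intro he
      have := congrArg Prod.snd he
      simp only at this
      exact absurd this (ne_of_lt h)
    · simp only [dif_neg h]
      intro he
      have := congrArg Prod.snd he
      simp only at this
      apply h
      rw [← this, Fin.lt_def]
      simp
  · rintro ⟨i, j⟩ -
    by_cases h : i.castSucc < j
    · have h' : ¬ (j.pred (Fin.ne_zero_of_lt h)).castSucc < i.castSucc := by
        rw [Fin.lt_def] at h ⊢
        simp only [Fin.val_castSucc, Fin.val_pred] at *
        omega
      simp only [dif_pos h, dif_neg h']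
      ext <;> simp
    · have h2 : j ≠ Fin.last (n + 2) := by
        rintro rfl
        exact h (Fin.castSucc_lt_last _)
      have h' : (j.castPred h2).castSucc < i.succ := by
        rw [Fin.lt_def] at h ⊢
        simp only [Fin.val_castSucc, Fin.coe_castPred, Fin.val_succ] at *
        omega
      simp only [dif_neg h, dif_pos h']
      ext <;> simp

theorem dif_dif {P : SS} {n : ℕ} (z : Ch P (n + 2)) : dif (dif z) = 0 := by
  rw [← lin_d, ← lin_d]
  exact (lin P).d_d z

/-- every non surjective monotone map factors through a coface -/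
theorem exists_dlt {m n : ℕ} (f : Mo m (n + 1)) (hf : ¬ Function.Surjective f) :
    ∃ (i : Fin (n + 2)) (g : Mo m n), f = (dlt i).comp g := by
  obtain ⟨i, g, h⟩ := SimplexCategory.eq_comp_δ_of_not_surjective
    (SimplexCategory.Hom.mk f : SimplexCategory.mk m ⟶ SimplexCategory.mk (n + 1)) hf
  exact ⟨i, g.toOrderHom, congrArg SimplexCategory.Hom.toOrderHom h⟩

/-- every non injective monotone map factors through a codegeneracy -/
theorem exists_sgm {m n : ℕ} (f : Mo (m + 1) n) (hf : ¬ Function.Injective f) :
    ∃ (i : Fin (m + 1)) (g : Mo m n), f = g.comp (sgm i) := by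
  obtain ⟨i, g, h⟩ := SimplexCategory.eq_σ_comp_of_not_injective
    (SimplexCategory.Hom.mk f : SimplexCategory.mk (m + 1) ⟶ SimplexCategory.mk n) hf
  exact ⟨i, g.toOrderHom, congrArg SimplexCategory.Hom.toOrderHom h⟩

private theorem A001_sgm_surj {m : ℕ} (i : Fin (m + 1)) : Function.Surjective (sgm i) := by
  intro y
  refine ⟨dlt i.castSucc y, ?_⟩
  exact congrArg (fun f : Mo m m => f y) (sgm_comp_dlt_castSucc i)

/-- epi-mono factorisation -/
theorem exists_factor {m n : ℕ} (f : Mo m n) :
    ∃ (k : ℕ) (s : Mo m k) (i : Mo k n), Function.Surjective s ∧ Function.Injective i ∧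
      f = i.comp s := by
  induction m with
  | zero =>
    refine ⟨0, OrderHom.id, f, Function.surjective_id, ?_, rfl⟩
    intro x y _
    exact Subsingleton.elim (α := Fin 1) x y
  | succ m ih =>
    by_cases hf : Function.Injective f
    · exact ⟨m + 1, OrderHom.id, f, Function.surjective_id, hf, rfl⟩
    · obtain ⟨j, g, rfl⟩ := exists_sgm f hf
      obtain ⟨k, s, i, hs, hi, rfl⟩ := ih g
      exact ⟨k, s.comp (sgm j), i, hs.comp (A001_sgm_surj j), hi, rfl⟩

private theorem A001_mono {m n : ℕ} (s : Mo m n) (t : Fin (n + 1) → Fin (m + 1))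
    (h : ∀ j, s (t j) = j) : Monotone t := by
  intro j j' hj
  by_contra hlt
  have h1 : s (t j') ≤ s (t j) := s.monotone (le_of_lt (not_le.1 hlt))
  rw [h, h] at h1
  have : j = j' := le_antisymm hj h1
  subst this
  exact hlt le_rfl

/-- surjections have monotone sections -/
theorem exists_section {m n : ℕ} (s : Mo m n) (hs : Function.Surjective s) :
    ∃ t : Mo n m, s.comp t = OrderHom.id := by
  choose t ht using hs
  exact ⟨⟨t, A001_mono s t ht⟩, OrderHom.ext _ _ (funext ht)⟩

/-- two surjections with the same sections are equal -/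
theorem eq_of_sections {m n : ℕ} (s s' : Mo m n) (hs : Function.Surjective s)
    (hs' : Function.Surjective s')
    (h : ∀ t : Mo n m, s.comp t = OrderHom.id → s'.comp t = OrderHom.id) : s = s' := by
  classical
  choose t ht using hs
  refine OrderHom.ext _ _ (funext fun x => ?_)
  have h1 : ∀ j, s (Function.update t (s x) x j) = j := by
    intro j
    by_cases hj : j = s x
    · subst hj
      rw [Function.update_self]
    · rw [Function.update_of_ne hj, ht]
  have h2 := h ⟨Function.update t (s x) x, A001_mono s _ h1⟩ (OrderHom.ext _ _ (funext h1))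
  have h3 : s' (Function.update t (s x) x (s x)) = s x := congrArg (fun f : Mo n n => f (s x)) h2
  rw [Function.update_self] at h3
  exact h3.symm

end MM
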