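import Pool.Agent.Lib_MP_33f7bb_d.A001

/-!
# A0-02: the Eilenberg-Zilber lemma: nondegenerate simplices

`NonDeg x`: `x` is not in the image of the structure map of a monotone map to a smaller `[m]`.
Existence: choose `k` minimal.  Uniqueness: if `act s y = act s' y'` with `s, s'` surjective and
`y, y'` nondegenerate; a section `t` of `s` gives `y = act t (act s' y') = act (s'.comp t) y'`, so
(`y` nondegenerate) `k ≤ k'`, by symmetry `k = k'`, and `s'.comp t : [k] → [k]` must be
surjective (factor it), hence the identity; so `y = y'` and every section of `s` is a section of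
`s'`, whence `s = s'` (`eq_of_sections`).
-/

namespace MM

/-- nondegenerate simplices -/
def NonDeg {P : SS} {n : ℕ} (x : P.S n) : Prop :=
  ∀ (m : ℕ) (f : Mo n m) (y : P.S m), x = P.act f y → n ≤ m

private theorem A002_inj_le {m n : ℕ} (f : Mo m n) (hf : Function.Injective f) : m ≤ n := by
  have := Fintype.card_le_of_injective _ hf
  simpa using this

private theorem A002_surj_inj {m : ℕ} (f : Mo m m) (hf : Function.Injective f) :
    Function.Surjective f := Finite.surjective_of_injective hf

private theorem A002_eq_id {m : ℕ} (f : Mo m m) (hf : Function.Surjective f) :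
    f = OrderHom.id := by
  have hi : Function.Injective f := Finite.injective_iff_surjective.2 hf
  have hs : StrictMono f := f.monotone.strictMono_of_injective hi
  let e : Fin (m + 1) ≃o Fin (m + 1) := StrictMono.orderIsoOfSurjective f hs hf
  have he : e = OrderIso.refl _ := Subsingleton.elim _ _
  refine OrderHom.ext _ _ (funext fun x => ?_)
  have h1 : e x = x := by rw [he]; rfl
  exact h1

theorem ez_exists {P : SS} {n : ℕ} (x : P.S n) :
    ∃ (k : ℕ) (s : Mo n k) (y : P.S k), Function.Surjective s ∧ NonDeg y ∧ x = P.act s y := by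
  classical
  have hex : ∃ k : ℕ, ∃ (f : Mo n k) (y : P.S k), x = P.act f y :=
    ⟨n, OrderHom.id, x, (P.act_id x).symm⟩
  obtain ⟨f, y, hfy⟩ := Nat.find_spec hex
  have hmin : ∀ m : ℕ, (∃ (f : Mo n m) (y : P.S m), x = P.act f y) → Nat.find hex ≤ m :=
    fun m hm => Nat.find_min' hex hm
  obtain ⟨k', s, i, hs, hi, he⟩ := exists_factor f
  have hx : x = P.act s (P.act i y) := by rw [P.act_comp, ← he]; exact hfy
  refine ⟨k', s, P.act i y, hs, ?_, hx⟩
  intro m g z hz
  have h1 : Nat.find hex ≤ m := hmin m ⟨g.comp s, z, by rw [← P.act_comp, ← hz]; exact hx⟩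
  exact (A002_inj_le i hi).trans h1

theorem ez_dim {P : SS} {n k k' : ℕ} (s : Mo n k) (s' : Mo n k') (y : P.S k) (y' : P.S k')
    (hs : Function.Surjective s) (hs' : Function.Surjective s') (hy : NonDeg y) (hy' : NonDeg y')
    (h : P.act s y = P.act s' y') : k = k' := by
  obtain ⟨t, ht⟩ := exists_section s hs
  obtain ⟨t', ht'⟩ := exists_section s' hs'
  have h1 : y = P.act (s'.comp t) y' := by
    rw [← P.act_comp, ← h, P.act_comp, ht, P.act_id]
  have h2 : y' = P.act (s.comp t') y := by
    rw [← P.act_comp, h, P.act_comp, ht', P.act_id]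
  exact le_antisymm (hy _ _ _ h1) (hy' _ _ _ h2)

theorem ez_unique {P : SS} {n k : ℕ} (s s' : Mo n k) (y y' : P.S k)
    (hs : Function.Surjective s) (hs' : Function.Surjective s') (hy : NonDeg y) (hy' : NonDeg y')
    (h : P.act s y = P.act s' y') : s = s' ∧ y = y' := by
  have key : ∀ t : Mo k n, s.comp t = OrderHom.id → s'.comp t = OrderHom.id := by
    intro t ht
    have h1 : y = P.act (s'.comp t) y' := by
      rw [← P.act_comp, ← h, P.act_comp, ht, P.act_id]
    apply A002_eq_id
    obtain ⟨j, r, i, hr, hi, he⟩ := exists_factor (s'.comp t)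
    have h2 : y = P.act r (P.act i y') := by rw [P.act_comp, ← he]; exact h1
    have h3 : j = k := le_antisymm (A002_inj_le i hi) (hy _ _ _ h2)
    subst h3
    rw [he]
    exact (A002_surj_inj i hi).comp hr
  refine ⟨eq_of_sections s s' hs hs' key, ?_⟩
  obtain ⟨t, ht⟩ := exists_section s hs
  have h1 : y = P.act (s'.comp t) y' := by
    rw [← P.act_comp, ← h, P.act_comp, ht, P.act_id]
  rw [key t ht, P.act_id] at h1
  exact h1

/-- a simplex is nondegenerate iff it is not in the image of a degeneracy -/
theorem nonDeg_iff {P : SS} {n : ℕ} (x : P.S (n + 1)) :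
    NonDeg x ↔ ∀ (i : Fin (n + 1)) (y : P.S n), x ≠ P.act (sgm i) y := by
  constructor
  · intro h i y he
    exact absurd (h _ _ _ he) (by omega)
  · intro h m f y he
    by_contra hlt
    have hf : ¬ Function.Injective f := fun hi => hlt (A002_inj_le f hi)
    obtain ⟨i, g, hg⟩ := exists_sgm f hf
    apply h i (P.act g y)
    rw [P.act_comp, ← hg]
    exact he

/-- surjective structure maps preserve and reflect membership in subcomplexes -/
theorem act_mem_iff {P : SS} (A : Sub P) {m n : ℕ} (s : Mo m n) (hs : Function.Surjective s)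
    (x : P.S n) : P.act s x ∈ A.car m ↔ x ∈ A.car n := by
  refine ⟨fun h => ?_, fun h => A.closed s h⟩
  obtain ⟨t, ht⟩ := exists_section s hs
  have h1 := A.closed t h
  rwa [P.act_comp, ht, P.act_id] at h1

/-- a subcomplex containing all nondegenerate simplices of `C` contains `C` -/
theorem le_of_nonDeg {P : SS} {A C : Sub P}
    (h : ∀ n, ∀ x ∈ C.car n, NonDeg x → x ∈ A.car n) : C ≤ A := by
  intro n x hx
  obtain ⟨k, s, y, hs, hy, rfl⟩ := ez_exists x
  exact A.closed s (h k y ((act_mem_iff C s hs y).1 hx) hy)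

/-- if `A ≤ C` and `A ≠ C` there is a nondegenerate simplex `x` of `C`, not in `A`, all of whose
proper faces are in `A` (choose the dimension minimal) -/
theorem exists_next {P : SS} {A C : Sub P} (hAC : A ≤ C) (hne : ¬ C ≤ A) :
    ∃ (n : ℕ) (x : P.S n), x ∈ C.car n ∧ x ∉ A.car n ∧ NonDeg x ∧
      ∀ (m : ℕ) (f : Mo m n), ¬ Function.Surjective f → P.act f x ∈ A.car m := by
  classical
  have _ := hAC
  have hex : ∃ n : ℕ, ∃ x : P.S n, x ∈ C.car n ∧ x ∉ A.car n := by
    by_contra hcon
    push Not at hcon
    exact hne fun n x hx => hcon n x hx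
  obtain ⟨x, hxC, hxA⟩ := Nat.find_spec hex
  have hmin : ∀ m : ℕ, (∃ x : P.S m, x ∈ C.car m ∧ x ∉ A.car m) → Nat.find hex ≤ m :=
    fun m hm => Nat.find_min' hex hm
  refine ⟨Nat.find hex, x, hxC, hxA, ?_, ?_⟩
  · intro m f z hz
    obtain ⟨k, s, y, hs, hy, he⟩ := ez_exists x
    have hyC : y ∈ C.car k := (act_mem_iff C s hs y).1 (he ▸ hxC)
    have hyA : y ∉ A.car k := fun h => hxA (he ▸ A.closed s h)
    have h1 : Nat.find hex ≤ k := hmin k ⟨y, hyC, hyA⟩
    obtain ⟨t, ht⟩ := exists_section s hs
    have h2 : y = P.act (f.comp t) z := by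
      rw [← P.act_comp, ← hz, he, P.act_comp, ht, P.act_id]
    exact h1.trans (hy _ _ _ h2)
  · intro m f hf
    obtain ⟨j, r, i, hr, hi, he⟩ := exists_factor f
    have hj : j < Nat.find hex := by
      refine lt_of_le_of_ne (A002_inj_le i hi) ?_
      intro hjn
      apply hf
      rw [he]
      have hi' : Function.Surjective i := by
        have hb : Function.Bijective i := by
          rw [Fintype.bijective_iff_injective_and_card]
          exact ⟨hi, by simp [hjn]⟩
        exact hb.2
      exact hi'.comp hr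
    have h1 : P.act i x ∈ A.car j := by
      by_contra hcon
      exact absurd (hmin j ⟨P.act i x, C.closed i hxC, hcon⟩) (not_le.2 hj)
    have h2 := A.closed r h1
    rwa [P.act_comp, ← he] at h2

end MM
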