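import Pool.Agent.Lib_MP_33f7bb_d.A001

/-!
# A0-03: normalised part of a simplicial vector space, generation, uniqueness (Dold-Kan, part 1)

`nm_face`: the face `δ_0` maps `NM (n+1)` to `NM n`: `δ_i δ_0 x = δ_0 δ_(i+1) x = 0` for `i ≥ 1`.

Generation.  Let `x ∈ V (n+1)`.  Going down from `i = n` to `i = 0` replace `x` by
`x + σ_i δ_(i+1) x` (`σ_i` = `act (sgm i)`).  Then `δ_(i+1) x' = 0`, and for `j > i + 1` with
`δ_j x = 0` also `δ_j x' = σ_i δ_(i+1) δ_j x = 0`.  At the end `x' ∈ NM (n+1)`, and `x + x'` is a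
sum of degenerate elements `σ_i y`, `y ∈ V n`.  By induction on `n`, every element of `V n` is a
sum of elements `act s y` with `s` surjective and `y ∈ NM k`.
-/

namespace MM

private theorem A003_mem {W : SV} {n : ℕ} {x : W.V (n + 1)} :
    x ∈ W.NM (n + 1) ↔ ∀ i : Fin (n + 1), W.act (dlt i.succ) x = 0 := by
  show x ∈ (⨅ i : Fin (n + 1), LinearMap.ker (W.act (dlt i.succ))) ↔ _
  simp only [Submodule.mem_iInf, LinearMap.mem_ker]

theorem nm_face {W : SV} {n : ℕ} {x : W.V (n + 1)} (hx : x ∈ W.NM (n + 1)) :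
    W.act (dlt 0) x ∈ W.NM n := by
  cases n with
  | zero => exact Submodule.mem_top
  | succ m =>
    rw [A003_mem] at hx ⊢
    intro i
    rw [W.act_comp]
    have h := dlt_comp_dlt (n := m) 0 i.succ (Fin.zero_le _)
    rw [Fin.castSucc_zero] at h
    rw [← h, ← W.act_comp, hx, map_zero]

theorem mem_nm_succ {W : SV} {n : ℕ} {x : W.V (n + 1)} :
    x ∈ W.NM (n + 1) ↔ ∀ i : Fin (n + 1), W.act (dlt i.succ) x = 0 := A003_mem

theorem d_nm {W : SV} {n : ℕ} {x : W.V (n + 1)} (hx : x ∈ W.NM (n + 1)) :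
    W.d n x = W.act (dlt 0) x := by
  rw [A003_mem] at hx
  rw [SV.d, LinearMap.sum_apply, Fin.sum_univ_succ]
  rw [Finset.sum_eq_zero fun i _ => hx i, add_zero]

private theorem A003_step (W : SV) {n : ℕ} (x : W.V (n + 1)) (i : Fin (n + 1))
    (hx : ∀ j : Fin (n + 1), i < j → W.act (dlt j.succ) x = 0) (j : Fin (n + 1)) (hj : i ≤ j) :
    W.act (dlt j.succ) (x + W.act (sgm i) (W.act (dlt i.succ) x)) = 0 := by
  rw [map_add, W.act_comp]
  rcases eq_or_lt_of_le hj with h | h
  · subst h
    rw [sgm_comp_dlt_succ, W.act_id]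
    exact two_eq_zero' _
  · rw [hx j h, zero_add]
    cases n with
    | zero =>
      exact absurd h (by omega)
    | succ m =>
      have hi : i ≠ Fin.last (m + 1) := ne_of_lt (lt_of_lt_of_le h (Fin.le_last j))
      obtain ⟨k, rfl⟩ : ∃ k : Fin (m + 1), k.castSucc = i := ⟨i.castPred hi, by simp⟩
      rw [sgm_comp_dlt_of_gt j k h, ← W.act_comp, W.act_comp (dlt j)]
      have h1 : k.succ ≤ j := by
        rw [Fin.le_def]
        rw [Fin.lt_def] at h
        simp only [Fin.val_castSucc, Fin.val_succ] at *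
        omega
      have h2 := dlt_comp_dlt k.succ j h1
      rw [← Fin.succ_castSucc] at h2
      rw [← h2, ← W.act_comp, hx j h, map_zero, map_zero]

private theorem A003_sum (W : SV) {n : ℕ} (y : Fin (n + 1) → W.V n) (i : Fin (n + 1)) (a : W.V n) :
    ∑ l, W.act (sgm l) (y l + (Pi.single i a : Fin (n + 1) → W.V n) l) =
      ∑ l, W.act (sgm l) (y l) + W.act (sgm i) a := by
  simp only [map_add, Finset.sum_add_distrib]
  congr 1
  rw [Finset.sum_eq_single i]
  · rw [Pi.single_eq_same]
  · intro b _ hb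
    rw [Pi.single_eq_of_ne hb, map_zero]
  · intro h
    exact absurd (Finset.mem_univ _) h

/-- normalisation: `x` differs from an element of `NM` by degenerate elements -/
theorem exists_nm (W : SV) {n : ℕ} (x : W.V (n + 1)) :
    ∃ y : Fin (n + 1) → W.V n, x + ∑ i, W.act (sgm i) (y i) ∈ W.NM (n + 1) := by
  have key : ∀ k : ℕ, k ≤ n + 1 → ∃ y : Fin (n + 1) → W.V n,
      ∀ j : Fin (n + 1), n + 1 - k ≤ (j : ℕ) →
        W.act (dlt j.succ) (x + ∑ i, W.act (sgm i) (y i)) = 0 := by
    intro k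
    induction k with
    | zero =>
      intro _
      refine ⟨0, fun j hj => ?_⟩
      exact absurd j.isLt (by omega)
    | succ k ih =>
      intro hk
      obtain ⟨y, hy⟩ := ih (by omega)
      let i : Fin (n + 1) := ⟨n - k, by omega⟩
      refine ⟨fun l => y l + (Pi.single i (W.act (dlt i.succ) (x + ∑ i, W.act (sgm i) (y i))) :
        Fin (n + 1) → W.V n) l, ?_⟩
      intro j hj
      rw [A003_sum, ← add_assoc]
      refine A003_step W _ i ?_ j ?_
      · intro l hl
        refine hy l ?_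
        rw [Fin.lt_def] at hl
        show n + 1 - k ≤ (l : ℕ)
        have : (i : ℕ) = n - k := rfl
        omega
      · rw [Fin.le_def]
        show n - k ≤ (j : ℕ)
        omega
  obtain ⟨y, hy⟩ := key (n + 1) le_rfl
  refine ⟨y, A003_mem.2 fun j => hy j (by omega)⟩

private theorem A003_sgm_surj {m : ℕ} (i : Fin (m + 1)) : Function.Surjective (sgm i) := by
  intro y
  refine ⟨dlt i.castSucc y, ?_⟩
  exact congrArg (fun f : Mo m m => f y) (sgm_comp_dlt_castSucc i)

/-- every element is a sum of surjective pull backs of elements of `NM` -/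
theorem span_nm (W : SV) (n : ℕ) :
    Submodule.span (ZMod 2) {x : W.V n | ∃ (k : ℕ) (s : Mo n k) (y : W.V k),
      Function.Surjective s ∧ y ∈ W.NM k ∧ x = W.act s y} = ⊤ := by
  induction n with
  | zero =>
    rw [eq_top_iff]
    intro x _
    refine Submodule.subset_span ⟨0, OrderHom.id, x, Function.surjective_id, Submodule.mem_top, ?_⟩
    rw [W.act_id]
  | succ n ih =>
    rw [eq_top_iff]
    intro x _
    obtain ⟨y, hy⟩ := exists_nm W x
    have hx : x = (x + ∑ i, W.act (sgm i) (y i)) + ∑ i, W.act (sgm i) (y i) := by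
      rw [add_assoc, two_eq_zero', add_zero]
    rw [hx]
    refine Submodule.add_mem _ ?_ (Submodule.sum_mem _ fun i _ => ?_)
    · refine Submodule.subset_span ⟨n + 1, OrderHom.id, _, Function.surjective_id, hy, ?_⟩
      rw [W.act_id]
    · have h1 : y i ∈ Submodule.span (ZMod 2) {x : W.V n | ∃ (k : ℕ) (s : Mo n k) (y : W.V k),
          Function.Surjective s ∧ y ∈ W.NM k ∧ x = W.act s y} := by
        rw [ih]
        exact Submodule.mem_top
      have h2 := Submodule.mem_map_of_mem (f := W.act (sgm i)) h1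
      rw [Submodule.map_span] at h2
      refine Submodule.span_mono ?_ h2
      rintro _ ⟨_, ⟨k, s, z, hs, hz, rfl⟩, rfl⟩
      exact ⟨k, s.comp (sgm i), z, hs.comp (A003_sgm_surj i), hz, W.act_comp _ _ _⟩

theorem dk_unique {D P : SV} (f g : SVHom D P)
    (h : ∀ n, ∀ x ∈ D.NM n, f.app n x = g.app n x) : f = g := by
  apply SVHom.ext
  funext n
  refine LinearMap.ext_on (span_nm D n) ?_
  rintro _ ⟨k, s, y, _, hy, rfl⟩
  rw [f.nat, g.nat, h k y hy]

end MM
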