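import Pool.Agent.Lib_MP_33f7bb_d.A003

/-!
# A0-04: Dold-Kan, part 2: chain maps of the normalised complexes extend to simplicial maps

Proof: the sub simplicial vector space `G ≤ D × P` generated by the graph of `φ` on `NM D` is the graph of the map:
its normalised part is the graph of `φ` (a normalised element which is a sum of degenerate elements is `0`), so the kernel
`{p | (0, p) ∈ G}` of `G → D` has no normalised elements and is `0` (`span_nm`).
-/

namespace MM

/-- the operator `1 + σ_i δ_(i+1)` -/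
private noncomputable def eA004 (W : SV) {n : ℕ} (i : Fin (n + 1)) : W.V (n + 1) →ₗ[ZMod 2] W.V (n + 1) :=
  LinearMap.id + (W.act (sgm i)).comp (W.act (dlt i.succ))

private theorem eA004_apply (W : SV) {n : ℕ} (i : Fin (n + 1)) (x : W.V (n + 1)) :
    eA004 W i x = x + W.act (sgm i) (W.act (dlt i.succ) x) := rfl

private theorem eA004_nm (W : SV) {n : ℕ} (i : Fin (n + 1)) {x : W.V (n + 1)}
    (hx : x ∈ W.NM (n + 1)) : eA004 W i x = x := by
  rw [eA004_apply, mem_nm_succ.1 hx i, map_zero, add_zero]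

private theorem eA004_self (W : SV) {n : ℕ} (i : Fin (n + 1)) (y : W.V n) :
    eA004 W i (W.act (sgm i) y) = 0 := by
  rw [eA004_apply, W.act_comp (dlt i.succ) (sgm i), sgm_comp_dlt_succ, W.act_id]
  exact two_eq_zero' _

/-- `(1 + σ_i δ_(i+1)) σ_j = σ_j (1 + σ_(i-1) δ_i)` for `j < i` -/
private theorem eA004_lt (W : SV) {n : ℕ} (i j : Fin (n + 1)) (h : j < i) (y : W.V n) :
    ∃ y' : W.V n, eA004 W i (W.act (sgm j) y) = W.act (sgm j) y' := by
  cases n with
  | zero => exact absurd h (by omega)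
  | succ m =>
    have hi : i ≠ 0 := ne_of_gt (lt_of_le_of_lt (Fin.zero_le _) h)
    obtain ⟨k, rfl⟩ : ∃ k : Fin (m + 1), k.succ = i := ⟨i.pred hi, by simp⟩
    have hj : j ≠ Fin.last (m + 1) := ne_of_lt (lt_of_lt_of_le h (Fin.le_last _))
    obtain ⟨l, rfl⟩ : ∃ l : Fin (m + 1), l.castSucc = j := ⟨j.castPred hj, by simp⟩
    have hlk : l ≤ k := by
      rw [Fin.lt_def] at h
      rw [Fin.le_def]
      simp only [Fin.val_castSucc, Fin.val_succ] at h
      omega
    refine ⟨y + W.act (sgm k) (W.act (dlt k.succ) y), ?_⟩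
    rw [eA004_apply, map_add, W.act_comp (dlt k.succ.succ)]
    have h1 : (sgm l.castSucc).comp (dlt k.succ.succ) = (dlt k.succ).comp (sgm l) :=
      sgm_comp_dlt_of_gt k.succ l (by
        rw [Fin.lt_def, Fin.val_castSucc, Fin.val_succ]
        rw [Fin.le_def] at hlk
        omega)
    rw [h1, ← W.act_comp, W.act_comp (sgm k.succ), W.act_comp (sgm l.castSucc),
      sgm_comp_sgm l k hlk]

/-- the composite of the operators `1 + σ_i δ_(i+1)`, `i = n, n - 1, …`, `k` factors -/
private noncomputable def pA004 (W : SV) {n : ℕ} : ℕ → (W.V (n + 1) →ₗ[ZMod 2] W.V (n + 1))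
  | 0 => LinearMap.id
  | k + 1 => if h : k < n + 1 then (eA004 W ⟨n - k, by omega⟩).comp (pA004 W k) else pA004 W k

private theorem pA004_nm (W : SV) {n : ℕ} {x : W.V (n + 1)} (hx : x ∈ W.NM (n + 1)) (k : ℕ) :
    pA004 W k x = x := by
  induction k with
  | zero => rfl
  | succ k ih =>
    rw [pA004]
    split_ifs
    · rw [LinearMap.comp_apply, ih, eA004_nm W _ hx]
    · exact ih

private theorem pA004_low (W : SV) {n : ℕ} (j : Fin (n + 1)) (y : W.V n) (k : ℕ)
    (hk : k + j ≤ n) : ∃ y' : W.V n, pA004 W k (W.act (sgm j) y) = W.act (sgm j) y' := by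
  induction k with
  | zero => exact ⟨y, rfl⟩
  | succ k ih =>
    obtain ⟨y', hy'⟩ := ih (by omega)
    rw [pA004, dif_pos (by omega), LinearMap.comp_apply, hy']
    refine eA004_lt W _ j ?_ y'
    rw [Fin.lt_def]
    show (j : ℕ) < n - k
    omega

private theorem pA004_zero (W : SV) {n : ℕ} (j : Fin (n + 1)) (y : W.V n) (k : ℕ)
    (hk : n < k + j) : pA004 W k (W.act (sgm j) y) = 0 := by
  induction k with
  | zero => omega
  | succ k ih =>
    rw [pA004]
    by_cases h : n < k + j
    · split_ifs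
      · rw [LinearMap.comp_apply, ih h, map_zero]
      · exact ih h
    · have hj : k + (j : ℕ) = n := by omega
      obtain ⟨y', hy'⟩ := pA004_low W j y k (by omega)
      rw [dif_pos (by omega), LinearMap.comp_apply, hy']
      have : (⟨n - k, by omega⟩ : Fin (n + 1)) = j := Fin.ext (by show n - k = j; omega)
      rw [this]
      exact eA004_self W j y'

/-- a normalised element which is a sum of degenerate elements is zero -/
private theorem nm_degA004 (W : SV) {n : ℕ} {x : W.V (n + 1)} (hx : x ∈ W.NM (n + 1))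
    (y : Fin (n + 1) → W.V n) (h : x = ∑ i, W.act (sgm i) (y i)) : x = 0 := by
  rw [← pA004_nm W hx (n + 1), h, map_sum]
  exact Finset.sum_eq_zero fun j _ => pA004_zero W j (y j) (n + 1) (by omega)

section

variable {D P : SV} (φ : ∀ n, D.NM n →ₗ[ZMod 2] P.NM n)

/-- the sub simplicial vector space generated by the graph -/
private def gA004 : SubV (D.prd P) where
  car n := Submodule.span (ZMod 2) {x | ∃ (k : ℕ) (s : Mo n k) (y : D.NM k),
    x = (D.act s y.1, P.act s (φ k y).1)}
  closed {m n} f x hx := by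
    have h2 := Submodule.mem_map_of_mem (f := (D.prd P).act f) hx
    rw [Submodule.map_span] at h2
    refine Submodule.span_mono ?_ h2
    rintro _ ⟨_, ⟨k, s, y, rfl⟩, rfl⟩
    refine ⟨k, s.comp f, y, ?_⟩
    show ((D.act f (D.act s y.1), P.act f (P.act s (φ k y).1)) : D.V m × P.V m) = _
    rw [D.act_comp, P.act_comp]

private theorem genA004 (n k : ℕ) (s : Mo n k) (y : D.NM k) :
    ((D.act s y.1, P.act s (φ k y).1) : D.V n × P.V n) ∈ (gA004 φ).car n :=
  Submodule.subset_span ⟨k, s, y, rfl⟩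

private theorem degA004 (n k : ℕ) (g : Mo n k) (i : Fin (n + 1)) (y : D.NM k) :
    ∃ (x : D.NM (n + 1)) (z : Fin (n + 1) → (D.prd P).V n), (∀ i, z i ∈ (gA004 φ).car n) ∧
      ((D.act (g.comp (sgm i)) y.1, P.act (g.comp (sgm i)) (φ k y).1) : (D.prd P).V (n + 1)) =
        (x.1, (φ (n + 1) x).1) + ∑ i, (D.prd P).act (sgm i) (z i) := by
  refine ⟨0, Pi.single i (D.act g y.1, P.act g (φ k y).1), fun l => ?_, ?_⟩
  · by_cases hl : l = i
    · subst hl; rw [Pi.single_eq_same]; exact genA004 φ n k g y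
    · rw [Pi.single_eq_of_ne hl]; exact Submodule.zero_mem _
  · rw [Finset.sum_eq_single i]
    · rw [Pi.single_eq_same, map_zero]
      show ((_, _) : D.V (n + 1) × P.V (n + 1)) =
        (0, 0) + (D.act (sgm i) (D.act g y.1), P.act (sgm i) (P.act g (φ k y).1))
      rw [Prod.mk_add_mk, zero_add, zero_add, D.act_comp, P.act_comp]
    · intro b _ hb
      rw [Pi.single_eq_of_ne hb, map_zero]
    · intro h; exact absurd (Finset.mem_univ _) h

private theorem idA004 {n : ℕ} (s : Mo n n) (h : Function.Injective s)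
    (h' : Function.Surjective s) : s = OrderHom.id := by
  have h1 : (s : Fin (n + 1) → Fin (n + 1)) = id :=
    (s.monotone.strictMono_of_injective h).range_inj strictMono_id |>.1 (by
      rw [h'.range_eq, Set.range_id])
  exact OrderHom.ext _ _ h1

variable (hφ : ∀ n (x : D.NM (n + 1)),
      ((φ n ⟨D.act (dlt 0) x.1, nm_face x.2⟩ : P.NM n) : P.V n) = P.act (dlt 0) (φ (n + 1) x).1)

include hφ

private theorem stepA004 (n k : ℕ) (s : Mo (n + 1) k) (y : D.NM k) :
    ∃ (x : D.NM (n + 1)) (z : Fin (n + 1) → (D.prd P).V n), (∀ i, z i ∈ (gA004 φ).car n) ∧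
      ((D.act s y.1, P.act s (φ k y).1) : (D.prd P).V (n + 1)) =
        (x.1, (φ (n + 1) x).1) + ∑ i, (D.prd P).act (sgm i) (z i) := by
  induction k with
  | zero =>
    obtain ⟨i, g, rfl⟩ := exists_sgm s (fun h => by
      have := h (show s 0 = s 1 from Subsingleton.elim (α := Fin 1) _ _)
      exact absurd this (by simp))
    exact degA004 φ n 0 g i y
  | succ k ih =>
    by_cases hinj : Function.Injective s
    · by_cases hsurj : Function.Surjective s
      · have hk : n + 1 = k + 1 := by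
          have := Fintype.card_of_bijective (f := s) ⟨hinj, hsurj⟩
          simpa using this
        obtain rfl : n = k := by omega
        obtain rfl := idA004 s hinj hsurj
        refine ⟨y, 0, fun i => Submodule.zero_mem _, ?_⟩
        rw [D.act_id, P.act_id]
        simp
      · obtain ⟨j, g, rfl⟩ := exists_dlt s hsurj
        by_cases hj : j = 0
        · subst hj
          obtain ⟨x, z, hz, hx⟩ := ih g ⟨D.act (dlt 0) y.1, nm_face y.2⟩
          refine ⟨x, z, hz, ?_⟩
          rw [← hx, hφ, D.act_comp, P.act_comp]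
        · obtain ⟨i, rfl⟩ : ∃ i : Fin (k + 1), i.succ = j := ⟨j.pred hj, by simp⟩
          refine ⟨0, 0, fun i => Submodule.zero_mem _, ?_⟩
          rw [← D.act_comp, ← P.act_comp, mem_nm_succ.1 y.2 i, mem_nm_succ.1 (φ (k + 1) y).2 i]
          simp
    · obtain ⟨i, g, rfl⟩ := exists_sgm s hinj
      exact degA004 φ n (k + 1) g i y

/-- every element of `G` is the sum of an element of the graph and degenerate elements of `G` -/
private theorem decA004 (n : ℕ) (x : (D.prd P).V (n + 1)) (hx : x ∈ (gA004 φ).car (n + 1)) :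
    ∃ (y : D.NM (n + 1)) (z : Fin (n + 1) → (D.prd P).V n),
      x = (y.1, (φ (n + 1) y).1) + ∑ i, (D.prd P).act (sgm i) (z i) := by
  induction hx using Submodule.span_induction with
  | mem x hx =>
    obtain ⟨k, s, y, rfl⟩ := hx
    obtain ⟨x, z, -, h⟩ := stepA004 φ hφ n k s y
    exact ⟨x, z, h⟩
  | zero =>
    refine ⟨0, 0, ?_⟩
    simp only [Pi.zero_apply, map_zero, Finset.sum_const_zero, add_zero, Submodule.coe_zero]
    rfl
  | add a b _ _ ha hb =>
    obtain ⟨y, z, rfl⟩ := ha
    obtain ⟨y', z', rfl⟩ := hb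
    refine ⟨y + y', z + z', ?_⟩
    simp only [Pi.add_apply, map_add, Finset.sum_add_distrib, Submodule.coe_add]
    rw [← Prod.mk_add_mk]
    abel
  | smul r a _ ha =>
    obtain ⟨y, z, rfl⟩ := ha
    refine ⟨r • y, r • z, ?_⟩
    simp only [Pi.smul_apply, map_smul, ← Finset.smul_sum, Submodule.coe_smul]
    rw [smul_add]
    rfl

private theorem zeroA004 (x : (D.prd P).V 0) (hx : x ∈ (gA004 φ).car 0) :
    ∃ y : D.NM 0, x = (y.1, (φ 0 y).1) := by
  have step : ∀ (k : ℕ) (s : Mo 0 k) (y : D.NM k), ∃ x : D.NM 0,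
      ((D.act s y.1, P.act s (φ k y).1) : (D.prd P).V 0) = (x.1, (φ 0 x).1) := by
    intro k
    induction k with
    | zero =>
      intro s y
      have hs : s = OrderHom.id := by
        apply OrderHom.ext; funext i; exact Subsingleton.elim (α := Fin 1) _ _
      subst hs
      exact ⟨y, by rw [D.act_id, P.act_id]⟩
    | succ k ih =>
      intro s y
      obtain ⟨j, g, rfl⟩ := exists_dlt s (fun h => by
        have := Fintype.card_le_of_surjective s h
        simp at this)
      by_cases hj : j = 0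
      · subst hj
        obtain ⟨x, hx⟩ := ih g ⟨D.act (dlt 0) y.1, nm_face y.2⟩
        refine ⟨x, ?_⟩
        rw [← hx, hφ, D.act_comp, P.act_comp]
      · obtain ⟨i, rfl⟩ : ∃ i : Fin (k + 1), i.succ = j := ⟨j.pred hj, by simp⟩
        refine ⟨0, ?_⟩
        rw [← D.act_comp, ← P.act_comp, mem_nm_succ.1 y.2 i, mem_nm_succ.1 (φ (k + 1) y).2 i]
        simp
  induction hx using Submodule.span_induction with
  | mem x hx =>
    obtain ⟨k, s, y, rfl⟩ := hx
    exact step k s y
  | zero => exact ⟨0, by simp only [map_zero, Submodule.coe_zero]; rfl⟩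
  | add a b _ _ ha hb =>
    obtain ⟨y, rfl⟩ := ha
    obtain ⟨y', rfl⟩ := hb
    exact ⟨y + y', by simp only [map_add, Submodule.coe_add]; rfl⟩
  | smul r a _ ha =>
    obtain ⟨y, rfl⟩ := ha
    exact ⟨r • y, by simp only [map_smul, Submodule.coe_smul]; rfl⟩

omit hφ in
private theorem nm_prdA004 {n : ℕ} {x : (D.prd P).V n} (h1 : x.1 ∈ D.NM n) (h2 : x.2 ∈ P.NM n) :
    x ∈ (D.prd P).NM n := by
  cases n with
  | zero => exact Submodule.mem_top
  | succ n =>
    rw [mem_nm_succ] at h1 h2 ⊢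
    intro i
    show ((D.act (dlt i.succ) x.1, P.act (dlt i.succ) x.2) : D.V n × P.V n) = 0
    rw [h1, h2]
    rfl

private theorem kzA004 (n : ℕ) (p : P.V n) (hp : ((0, p) : D.V n × P.V n) ∈ (gA004 φ).car n)
    (hn : p ∈ P.NM n) : p = 0 := by
  cases n with
  | zero =>
    obtain ⟨y, hy⟩ := zeroA004 φ hφ _ hp
    have h1 : y = 0 := Subtype.ext (congrArg Prod.fst hy).symm
    have h2 := congrArg Prod.snd hy
    rw [h1, map_zero] at h2
    exact h2
  | succ n =>
    obtain ⟨y, z, h⟩ := decA004 φ hφ n _ hp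
    have h1 : (((0, p) : D.V (n + 1) × P.V (n + 1)) + (y.1, (φ (n + 1) y).1)) =
        ∑ i, (D.prd P).act (sgm i) (z i) := by
      rw [h]
      have h0 : ∀ A B : (D.prd P).V (n + 1), A + B + A = B := fun A B => by
        rw [add_comm A B, add_assoc, two_eq_zero', add_zero]
      exact h0 _ _
    have h2 := nm_degA004 (D.prd P) (x := ((0, p) : D.V (n + 1) × P.V (n + 1)) +
      (y.1, (φ (n + 1) y).1)) (Submodule.add_mem _
        (nm_prdA004 (x := (0, p)) (Submodule.zero_mem _) hn)
        (nm_prdA004 (x := (y.1, (φ (n + 1) y).1)) y.2 (φ (n + 1) y).2)) z h1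
    have h3 : (y : D.V (n + 1)) = 0 := by
      have := congrArg Prod.fst h2
      simpa using this
    have h4 : y = 0 := Subtype.ext h3
    rw [h4, map_zero] at h2
    have := congrArg Prod.snd h2
    simpa using this

/-- the kernel of `G → D` -/
private def kA004 (φ : ∀ n, D.NM n →ₗ[ZMod 2] P.NM n) : SubV P where
  car n := Submodule.comap (LinearMap.inr (ZMod 2) (D.V n) (P.V n)) ((gA004 φ).car n)
  closed {m n} f x hx := by
    have h := (gA004 φ).closed f hx
    show ((0, P.act f x) : D.V m × P.V m) ∈ (gA004 φ).car m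
    have h2 : (D.prd P).act f (LinearMap.inr (ZMod 2) (D.V n) (P.V n) x) = (0, P.act f x) := by
      show ((D.act f 0, P.act f x) : D.V m × P.V m) = _
      rw [map_zero]
    rwa [h2] at h

private theorem kerA004 (n : ℕ) (p : P.V n) (hp : ((0, p) : D.V n × P.V n) ∈ (gA004 φ).car n) :
    p = 0 := by
  have h0 : ∀ (k : ℕ) (q : (kA004 φ).sv.V k), q ∈ (kA004 φ).sv.NM k → q = 0 := by
    intro k q hq
    apply Subtype.ext
    refine kzA004 φ hφ k q.1 q.2 ?_
    cases k with
    | zero => exact Submodule.mem_top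
    | succ k =>
      rw [mem_nm_succ] at hq ⊢
      intro i
      exact congrArg Subtype.val (hq i)
  have h1 : (⟨p, hp⟩ : (kA004 φ).sv.V n) ∈ Submodule.span (ZMod 2)
      {x : (kA004 φ).sv.V n | ∃ (k : ℕ) (s : Mo n k) (y : (kA004 φ).sv.V k),
        Function.Surjective s ∧ y ∈ (kA004 φ).sv.NM k ∧ x = (kA004 φ).sv.act s y} := by
    rw [span_nm]; trivial
  have h2 : {x : (kA004 φ).sv.V n | ∃ (k : ℕ) (s : Mo n k) (y : (kA004 φ).sv.V k),
        Function.Surjective s ∧ y ∈ (kA004 φ).sv.NM k ∧ x = (kA004 φ).sv.act s y} ⊆ {0} := by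
    rintro _ ⟨k, s, y, -, hy, rfl⟩
    rw [h0 k y hy, map_zero]
    exact Set.mem_singleton _
  have h3 := Submodule.span_mono (R := ZMod 2) h2 h1
  rw [Submodule.span_singleton_eq_bot.2 rfl, Submodule.mem_bot] at h3
  exact congrArg Subtype.val h3

omit hφ in
private theorem surjA004 (n : ℕ) (x : D.V n) : ∃ p : P.V n,
    ((x, p) : D.V n × P.V n) ∈ (gA004 φ).car n := by
  have hx : x ∈ Submodule.span (ZMod 2) {x : D.V n | ∃ (k : ℕ) (s : Mo n k) (y : D.V k),
      Function.Surjective s ∧ y ∈ D.NM k ∧ x = D.act s y} := by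
    rw [span_nm]; trivial
  induction hx using Submodule.span_induction with
  | mem x hx =>
    obtain ⟨k, s, y, -, hy, rfl⟩ := hx
    exact ⟨P.act s (φ k ⟨y, hy⟩).1, genA004 φ n k s ⟨y, hy⟩⟩
  | zero => exact ⟨0, Submodule.zero_mem _⟩
  | add a b _ _ ha hb =>
    obtain ⟨p, hp⟩ := ha
    obtain ⟨q, hq⟩ := hb
    exact ⟨p + q, Submodule.add_mem _ hp hq⟩
  | smul r a _ ha =>
    obtain ⟨p, hp⟩ := ha
    exact ⟨r • p, Submodule.smul_mem _ r hp⟩

private theorem uniqA004 (n : ℕ) (x : D.V n) (p q : P.V n)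
    (hp : ((x, p) : D.V n × P.V n) ∈ (gA004 φ).car n)
    (hq : ((x, q) : D.V n × P.V n) ∈ (gA004 φ).car n) : p = q := by
  have h := Submodule.sub_mem _ hp hq
  rw [Prod.mk_sub_mk, sub_self] at h
  exact sub_eq_zero.1 (kerA004 φ hφ n _ h)

end

theorem dk_exists {D P : SV} (φ : ∀ n, D.NM n →ₗ[ZMod 2] P.NM n)
    (hφ : ∀ n (x : D.NM (n + 1)),
      ((φ n ⟨D.act (dlt 0) x.1, nm_face x.2⟩ : P.NM n) : P.V n) = P.act (dlt 0) (φ (n + 1) x).1) :
    ∃ f : SVHom D P, ∀ n (x : D.NM n), f.app n x.1 = (φ n x).1 := by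
  choose F hF using surjA004 φ
  refine ⟨⟨fun n => ⟨⟨F n, fun x y => ?_⟩, fun r x => ?_⟩, fun {m n} f x => ?_⟩, fun n x => ?_⟩
  · exact uniqA004 φ hφ n _ _ _ (hF n _) (Submodule.add_mem _ (hF n x) (hF n y))
  · exact uniqA004 φ hφ n _ _ _ (hF n _) (Submodule.smul_mem _ r (hF n x))
  · exact uniqA004 φ hφ m _ _ _ (hF m _) ((gA004 φ).closed f (hF n x))
  · refine uniqA004 φ hφ n _ _ _ (hF n _) ?_
    have h := genA004 φ n n OrderHom.id x
    rwa [D.act_id, P.act_id] at h

end MM
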