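import Pool.Agent.Lib_MP_33f7bb_d.A003

/-!
# A0-05: Moore representatives

(a) Every cycle is homologous to a Moore cycle (all proper faces zero).  (b) A Moore cycle which is
a boundary `d w` is the face `δ_0` of an element all of whose other faces vanish.

Proof.  This is the comparison of the (unnormalised) complex `(V, d)` with the normalised subcomplex
`(NM, δ_0)`: the inclusion is a homotopy equivalence (Mathlib:
`AlgebraicTopology.DoldKan.homotopyEquivNormalizedMooreComplexAlternatingFaceMapComplex`), or by hand: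
filter `V` by `F_j = {x : δ_i x = 0 for all i ≥ max(1, n - j + 1)}` (top faces first) and use at each
step the chain map `x ↦ x + σ_i δ_(i+1) x` on `F_j`, which is chain homotopic to the identity.
For (a): an element of `NM n` with `d z = δ_0 z = 0` has all faces `δ_i` zero, hence `Moore z` (every
non surjective monotone map factors through a coface, `exists_dlt`).
-/

namespace MM

theorem moore_iff {W : SV} {n : ℕ} (z : W.V (n + 1)) :
    W.Moore z ↔ ∀ i : Fin (n + 2), W.act (dlt i) z = 0 := by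
  constructor
  · intro h i
    refine h n (dlt i) fun hs => ?_
    obtain ⟨y, hy⟩ := hs i
    exact Fin.succAbove_ne i y hy
  · intro h m f hf
    obtain ⟨i, g, rfl⟩ := exists_dlt f hf
    rw [← W.act_comp, h i, map_zero]

theorem moore_zero_dim {W : SV} (z : W.V 0) : W.Moore z := by
  intro m f hf
  exact absurd (fun y => ⟨0, Subsingleton.elim (α := Fin 1) _ _⟩) hf

theorem Moore.mem_Z {W : SV} {n : ℕ} {z : W.V n} (hz : W.Moore z) : z ∈ W.Z n := by
  cases n with
  | zero => exact Submodule.mem_top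
  | succ n =>
    show W.d n z = 0
    rw [SV.d, LinearMap.sum_apply]
    exact Finset.sum_eq_zero fun i _ => (moore_iff z).1 hz i

/-- faces indexed by natural numbers (zero out of range) -/
private noncomputable def fcA005 (W : SV) (n j : ℕ) : W.V (n + 1) →ₗ[ZMod 2] W.V n :=
  if h : j < n + 2 then W.act (dlt ⟨j, h⟩) else 0

/-- degeneracies indexed by natural numbers (zero out of range) -/
private noncomputable def dgA005 (W : SV) (n k : ℕ) : W.V n →ₗ[ZMod 2] W.V (n + 1) :=
  if h : k < n + 1 then W.act (sgm ⟨k, h⟩) else 0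

private theorem fcA005_lt (W : SV) {n j : ℕ} (h : j < n + 2) :
    fcA005 W n j = W.act (dlt ⟨j, h⟩) := dif_pos h

private theorem fcA005_ge (W : SV) {n j : ℕ} (h : n + 2 ≤ j) : fcA005 W n j = 0 :=
  dif_neg (by omega)

private theorem dgA005_lt (W : SV) {n k : ℕ} (h : k < n + 1) :
    dgA005 W n k = W.act (sgm ⟨k, h⟩) := dif_pos h

private theorem dgA005_ge (W : SV) {n k : ℕ} (h : n + 1 ≤ k) : dgA005 W n k = 0 :=
  dif_neg (by omega)

private theorem fc_fcA005 (W : SV) {n j l : ℕ} (h : j ≤ l) (x : W.V (n + 2)) :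
    fcA005 W n j (fcA005 W (n + 1) (l + 1) x) = fcA005 W n l (fcA005 W (n + 1) j x) := by
  by_cases hl : l < n + 2
  · rw [fcA005_lt W hl, fcA005_lt W (show j < n + 2 by omega),
      fcA005_lt W (show l + 1 < n + 1 + 2 by omega), fcA005_lt W (show j < n + 1 + 2 by omega),
      W.act_comp, W.act_comp]
    exact congrArg (fun f => W.act f x)
      (dlt_comp_dlt (⟨j, by omega⟩ : Fin (n + 2)) ⟨l, hl⟩ h)
  · rw [fcA005_ge W (show n + 2 ≤ l by omega), fcA005_ge W (show n + 1 + 2 ≤ l + 1 by omega)]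
    simp

private theorem fc_dgA005_le (W : SV) {n j k : ℕ} (h : j ≤ k) (x : W.V (n + 1)) :
    fcA005 W (n + 1) j (dgA005 W (n + 1) (k + 1) x) = dgA005 W n k (fcA005 W n j x) := by
  by_cases hk : k < n + 1
  · rw [dgA005_lt W hk, fcA005_lt W (show j < n + 2 by omega),
      dgA005_lt W (show k + 1 < n + 1 + 1 by omega), fcA005_lt W (show j < n + 1 + 2 by omega),
      W.act_comp, W.act_comp]
    exact congrArg (fun f => W.act f x)
      (sgm_comp_dlt_of_le (⟨j, by omega⟩ : Fin (n + 2)) ⟨k, hk⟩ h)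
  · rw [dgA005_ge W (show n + 1 ≤ k by omega), dgA005_ge W (show n + 1 + 1 ≤ k + 1 by omega)]
    simp

private theorem fc_dgA005_gt (W : SV) {n j k : ℕ} (h : k < j) (x : W.V (n + 1)) :
    fcA005 W (n + 1) (j + 1) (dgA005 W (n + 1) k x) = dgA005 W n k (fcA005 W n j x) := by
  by_cases hj : j < n + 2
  · rw [fcA005_lt W hj, dgA005_lt W (show k < n + 1 by omega),
      dgA005_lt W (show k < n + 1 + 1 by omega), fcA005_lt W (show j + 1 < n + 1 + 2 by omega),
      W.act_comp, W.act_comp]
    exact congrArg (fun f => W.act f x)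
      (sgm_comp_dlt_of_gt (⟨j, hj⟩ : Fin (n + 2)) ⟨k, by omega⟩ h)
  · rw [fcA005_ge W (show n + 2 ≤ j by omega), fcA005_ge W (show n + 1 + 2 ≤ j + 1 by omega)]
    simp

private theorem fc_dgA005_eq (W : SV) {n k : ℕ} (h : k ≤ n) (x : W.V n) :
    fcA005 W n k (dgA005 W n k x) = x := by
  rw [fcA005_lt W (show k < n + 2 by omega), dgA005_lt W (show k < n + 1 by omega), W.act_comp]
  exact (congrArg (fun f => W.act f x)
    (sgm_comp_dlt_castSucc (⟨k, by omega⟩ : Fin (n + 1)))).trans (W.act_id x)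

private theorem fc_dgA005_eq' (W : SV) {n k : ℕ} (h : k ≤ n) (x : W.V n) :
    fcA005 W n (k + 1) (dgA005 W n k x) = x := by
  rw [fcA005_lt W (show k + 1 < n + 2 by omega), dgA005_lt W (show k < n + 1 by omega),
    W.act_comp]
  exact (congrArg (fun f => W.act f x)
    (sgm_comp_dlt_succ (⟨k, by omega⟩ : Fin (n + 1)))).trans (W.act_id x)

private theorem d_eqA005 (W : SV) (n : ℕ) (x : W.V (n + 1)) :
    W.d n x = ∑ j ∈ Finset.range (n + 2), fcA005 W n j x := by
  rw [SV.d, LinearMap.sum_apply, Finset.sum_range]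
  exact Finset.sum_congr rfl fun i _ => by rw [fcA005_lt W i.2]

private theorem d_cutA005 (W : SV) {n a : ℕ} (ha : a ≤ n + 2) (x : W.V (n + 1))
    (hx : ∀ j, a ≤ j → fcA005 W n j x = 0) :
    W.d n x = ∑ j ∈ Finset.range a, fcA005 W n j x := by
  rw [d_eqA005]
  exact Finset.eventually_constant_sum (fun j hj => hx j hj) ha

/-- the new faces after one normalisation step -/
private theorem step_facesA005 (W : SV) {n i : ℕ} (hi : i ≤ n) (x : W.V (n + 1))
    (hx : ∀ j, i + 2 ≤ j → fcA005 W n j x = 0) :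
    ∀ j, i + 1 ≤ j → fcA005 W n j (x + dgA005 W n i (fcA005 W n (i + 1) x)) = 0 := by
  intro j hj
  rw [map_add]
  rcases Nat.eq_or_lt_of_le hj with rfl | hj
  · rw [fc_dgA005_eq' W hi]
    exact two_eq_zero' _
  · rw [hx j hj, zero_add]
    cases n with
    | zero => rw [fcA005_ge W (show 0 + 2 ≤ j by omega)]; simp
    | succ n =>
      obtain ⟨j, rfl⟩ : ∃ j', j = j' + 1 := ⟨j - 1, by omega⟩
      rw [fc_dgA005_gt W (show i < j by omega), ← fc_fcA005 W (show i + 1 ≤ j by omega),
        hx (j + 1) (by omega), map_zero, map_zero]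

/-- one normalisation step does not change the class of a cycle -/
private theorem step_cycleA005 (W : SV) {n i : ℕ} (hi : i ≤ n) (x : W.V (n + 1))
    (hx : ∀ j, i + 2 ≤ j → fcA005 W n j x = 0) (hd : W.d n x = 0) :
    W.d (n + 1) (dgA005 W (n + 1) (i + 1) x) = dgA005 W n i (fcA005 W n (i + 1) x) := by
  rw [d_cutA005 W (show i + 3 ≤ n + 1 + 2 by omega), Finset.sum_range_succ,
    Finset.sum_range_succ, fc_dgA005_eq W (show i + 1 ≤ n + 1 by omega),
    fc_dgA005_eq' W (show i + 1 ≤ n + 1 by omega), add_assoc, two_eq_zero', add_zero]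
  · rw [Finset.sum_congr rfl fun j hj =>
      fc_dgA005_le W (show j ≤ i by have := Finset.mem_range.1 hj; omega) x, ← map_sum]
    congr 1
    rw [d_cutA005 W (show i + 2 ≤ n + 2 by omega) x hx, Finset.sum_range_succ] at hd
    rw [← sub_eq_zero, sub_eq']
    exact hd
  · intro j hj
    obtain ⟨j, rfl⟩ : ∃ j', j = j' + 1 := ⟨j - 1, by omega⟩
    rw [fc_dgA005_gt W (show i + 1 < j by omega), hx j (by omega), map_zero]

/-- one normalisation step does not change the boundary if the boundary is a Moore cycle -/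
private theorem step_boundaryA005 (W : SV) {n i : ℕ} (hi : i ≤ n) (x : W.V (n + 1))
    (hx : ∀ j, i + 2 ≤ j → fcA005 W n j x = 0) (hz : W.Moore (W.d n x)) :
    W.d n (dgA005 W n i (fcA005 W n (i + 1) x)) = 0 := by
  cases n with
  | zero =>
    obtain rfl : i = 0 := by omega
    rw [d_eqA005, Finset.sum_range_succ, Finset.sum_range_succ, Finset.sum_range_zero, zero_add,
      fc_dgA005_eq W le_rfl, fc_dgA005_eq' W le_rfl, two_eq_zero']
  | succ n =>
    have hzf : ∀ j, fcA005 W n j (W.d (n + 1) x) = 0 := by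
      intro j
      by_cases hj : j < n + 2
      · rw [fcA005_lt W hj]; exact (moore_iff _).1 hz _
      · rw [fcA005_ge W (by omega)]; rfl
    rw [d_cutA005 W (show i + 2 ≤ n + 1 + 2 by omega), Finset.sum_range_succ,
      Finset.sum_range_succ, fc_dgA005_eq W hi, fc_dgA005_eq' W hi, add_assoc, two_eq_zero',
      add_zero]
    · cases i with
      | zero => rfl
      | succ i =>
        have h1 : ∀ j ∈ Finset.range (i + 1), fcA005 W (n + 1) j
            (dgA005 W (n + 1) (i + 1) (fcA005 W (n + 1) (i + 1 + 1) x)) =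
            dgA005 W n i (fcA005 W n (i + 1) (fcA005 W (n + 1) j x)) := by
          intro j hj
          have hj' := Finset.mem_range.1 hj
          rw [fc_dgA005_le W (show j ≤ i by omega), fc_fcA005 W (show j ≤ i + 1 by omega)]
        rw [Finset.sum_congr rfl h1, ← map_sum, ← map_sum]
        have h2 := hzf (i + 1)
        rw [d_cutA005 W (show i + 3 ≤ n + 1 + 2 by omega) x hx, Finset.sum_range_succ,
          Finset.sum_range_succ, map_add, map_add, fc_fcA005 W (le_refl (i + 1)), add_assoc,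
          two_eq_zero', add_zero] at h2
        rw [h2, map_zero]
    · intro j hj
      obtain ⟨j, rfl⟩ : ∃ j', j = j' + 1 := ⟨j - 1, by omega⟩
      rw [fc_dgA005_gt W (show i < j by omega), ← fc_fcA005 W (show i + 1 ≤ j by omega),
        hx (j + 1) (by omega), map_zero, map_zero]

private theorem normA005_cycle (W : SV) (n : ℕ) : ∀ (c : ℕ) (z : W.V (n + 1)), c ≤ n + 1 →
    (∀ j, c + 1 ≤ j → fcA005 W n j z = 0) → W.d n z = 0 →
    ∃ w : W.V (n + 2), ∀ j, 1 ≤ j → fcA005 W n j (z + W.d (n + 1) w) = 0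
  | 0, z, _, hz, _ => ⟨0, fun j hj => by rw [map_zero, add_zero]; exact hz j (by omega)⟩
  | c + 1, z, hc, hz, hd => by
    have e := step_cycleA005 W (show c ≤ n by omega) z hz hd
    have hf := step_facesA005 W (show c ≤ n by omega) z hz
    rw [← e] at hf
    obtain ⟨w, hw⟩ := normA005_cycle W n c _ (by omega) hf (by
      rw [map_add, hd, SV.d_d, add_zero])
    refine ⟨dgA005 W (n + 1) (c + 1) z + w, fun j hj => ?_⟩
    rw [(W.d (n + 1)).map_add, ← add_assoc]
    exact hw j hj

private theorem normA005_boundary (W : SV) (n : ℕ) : ∀ (c : ℕ) (x : W.V (n + 1)), c ≤ n + 1 →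
    (∀ j, c + 1 ≤ j → fcA005 W n j x = 0) → W.Moore (W.d n x) →
    ∃ w : W.V (n + 1), W.d n w = W.d n x ∧ ∀ j, 1 ≤ j → fcA005 W n j w = 0
  | 0, x, _, hx, _ => ⟨x, rfl, fun j hj => hx j (by omega)⟩
  | c + 1, x, hc, hx, hd => by
    have e := step_boundaryA005 W (show c ≤ n by omega) x hx hd
    have hf := step_facesA005 W (show c ≤ n by omega) x hx
    have e' : W.d n (x + dgA005 W n c (fcA005 W n (c + 1) x)) = W.d n x := by
      rw [map_add, e, add_zero]
    obtain ⟨w, hw, hw'⟩ := normA005_boundary W n c _ (by omega) hf (by rw [e']; exact hd)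
    exact ⟨w, hw.trans e', hw'⟩

theorem exists_moore (W : SV) {n : ℕ} (z : W.V n) (hz : z ∈ W.Z n) :
    ∃ w : W.V (n + 1), W.Moore (z + W.d n w) := by
  cases n with
  | zero => exact ⟨0, moore_zero_dim _⟩
  | succ n =>
    have hd : W.d n z = 0 := hz
    obtain ⟨w, hw⟩ := normA005_cycle W n (n + 1) z le_rfl
      (fun j hj => by rw [fcA005_ge W (by omega)]; rfl) hd
    refine ⟨w, (moore_iff _).2 fun i => ?_⟩
    have key : ∀ j, fcA005 W n j (z + W.d (n + 1) w) = 0 := by
      intro j
      rcases Nat.eq_zero_or_pos j with rfl | hj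
      · have h0 : W.d n (z + W.d (n + 1) w) = 0 := by rw [map_add, hd, SV.d_d, add_zero]
        rw [d_cutA005 W (show 1 ≤ n + 2 by omega) _ hw, Finset.sum_range_one] at h0
        exact h0
      · exact hw j hj
    have := key i
    rwa [fcA005_lt W i.2] at this

theorem moore_boundary (W : SV) {n : ℕ} (z : W.V n) (hz : W.Moore z) (w : W.V (n + 1))
    (hw : W.d n w = z) :
    ∃ w' : W.V (n + 1), W.act (dlt 0) w' = z ∧ ∀ i : Fin (n + 1), W.act (dlt i.succ) w' = 0 := by
  obtain ⟨w', hw', hf⟩ := normA005_boundary W n (n + 1) w le_rfl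
    (fun j hj => by rw [fcA005_ge W (by omega)]; rfl) (by rw [hw]; exact hz)
  refine ⟨w', ?_, fun i => ?_⟩
  · rw [hw, d_cutA005 W (show 1 ≤ n + 2 by omega) _ hf, Finset.sum_range_one,
      fcA005_lt W (show 0 < n + 2 by omega)] at hw'
    exact hw'
  · have := hf (i + 1) (by omega)
    rw [fcA005_lt W (show (i : ℕ) + 1 < n + 2 by omega)] at this
    exact this

end MM
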