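import Pool.Agent.Lib_MP_33f7bb_d.A004
import Pool.Agent.Lib_MP_33f7bb_d.A005

/-!
# A0-06: the master extension lemma EXTL

Let `C ≤ D` be simplicial vector spaces and `f : C → P` linear simplicial.  If for every `z ∈ D (n+1)`
with `d z ∈ C n` the element `f (d z)` is a boundary of `P`, then `f` extends to `D`.

Proof.  Pass to normalised complexes: `N D n := D.NM n` with differential `δ_0` (`d_nm`), subcomplex
`N C n = {x ∈ N D n : x ∈ C n}`.  The hypothesis holds there: `z ∈ N D (n+1)`, `δ_0 z ∈ C`; then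
`f (δ_0 z)` is a boundary by hypothesis (`d z = δ_0 z`) and it is a Moore cycle, so
it is `δ_0 p` with `p ∈ N P (n+1)` (`moore_boundary`).
Linear algebra over the field `ZMod 2`: choose in `Q = N D / N C` (or directly in `N D`) for each `n`
subspaces:  relative cycles `Z'_n = {x ∈ N D n : δ_0 x ∈ C}` (everything for `n = 0`),
`B'_n = N C n + δ_0 (N D (n+1))`, `B'_n ≤ Z'_n`.  Choose `H_n` with `Z'_n = B'_n ⊕ H_n` and `T_n` with
`N D n = Z'_n ⊕ T_n`.  Then `N D n = N C n ⊕ δ_0 T_(n+1) ⊕ H_n ⊕ T_n` and `δ_0` is injective on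
`T_(n+1)` with `δ_0 T_(n+1) ∩ N C n = 0`.  (`B'_n = N C n + δ_0 T_(n+1) + δ_0 H_(n+1) + ...` and
`δ_0 H_(n+1) ≤ C`.)  Choose `p : H_(n+1) → N P (n+1)` linear with `δ_0 (p h) = f (δ_0 h)`.
Define `g = f` on `N C`, `0` on `T_n` and on `δ_0 T_(n+1)`, `p` on `H_n` (`n ≥ 1`; arbitrary, e.g. 0,
for `n = 0`).  `g` is a chain map.  By `dk_exists` it comes from a simplicial map `D → P`, which
agrees with `f` on `N C`, hence on `C` (`dk_unique`).
-/

namespace MM

private theorem A006_fac {K M N Q : Type*} [Field K] [AddCommGroup M] [Module K M]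
    [AddCommGroup N] [Module K N] [AddCommGroup Q] [Module K Q] (f : M →ₗ[K] N) (g : M →ₗ[K] Q)
    (h : LinearMap.ker f ≤ LinearMap.ker g) : ∃ k : N →ₗ[K] Q, ∀ x, k (f x) = g x := by
  obtain ⟨k, hk⟩ := LinearMap.exists_extend
    (((LinearMap.ker f).liftQ g h).comp f.quotKerEquivRange.symm.toLinearMap)
  refine ⟨k, fun x => ?_⟩
  have h1 := LinearMap.congr_fun hk ⟨f x, LinearMap.mem_range_self f x⟩
  have h2 : f.quotKerEquivRange.symm ⟨f x, LinearMap.mem_range_self f x⟩ =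
      Submodule.Quotient.mk x := by
    rw [LinearEquiv.symm_apply_eq]
    exact Subtype.ext (f.quotKerEquivRange_apply_mk x).symm
  simp only [LinearMap.comp_apply, Submodule.subtype_apply, LinearEquiv.coe_coe] at h1
  rw [h1, h2]
  exact Submodule.liftQ_apply _ _ _

private theorem A006_step {K A P Q : Type*} [Field K] [AddCommGroup A] [Module K A]
    [AddCommGroup P] [Module K P] [AddCommGroup Q] [Module K Q] (S B : Submodule K A)
    (φ : S →ₗ[K] P) (dP : P →ₗ[K] Q) (ψ : A →ₗ[K] Q) (h1 : ∀ x, ψ x ∈ LinearMap.range dP)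
    (h2 : ∀ s : S, dP (φ s) = ψ s.1) (h3 : ∀ b ∈ B, ψ b = 0) (R : Submodule K P)
    (hR : ∀ s : S, s.1 ∈ B → φ s ∈ R) :
    ∃ g : A →ₗ[K] P, (∀ s : S, g s.1 = φ s) ∧ (∀ x, dP (g x) = ψ x) ∧ ∀ b ∈ B, g b ∈ R := by
  -- a projection of `B` onto `S ⊓ B`
  obtain ⟨r, hr⟩ := LinearMap.exists_leftInverse_of_injective
    (Submodule.inclusion (inf_le_right : S ⊓ B ≤ B))
    (LinearMap.ker_eq_bot.2 (Submodule.inclusion_injective _))
  have hr' : ∀ (x : A) (hx : x ∈ S ⊓ B), r ⟨x, hx.2⟩ = ⟨x, hx⟩ := fun x hx =>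
    LinearMap.congr_fun hr ⟨x, hx⟩
  let ι : (S ⊓ B : Submodule K A) →ₗ[K] S := Submodule.inclusion inf_le_left
  obtain ⟨g0, hg0⟩ := A006_fac (LinearMap.coprod S.subtype B.subtype)
    (LinearMap.coprod φ (φ.comp (ι.comp r))) (by
      rintro ⟨s, b⟩ hx
      rw [LinearMap.mem_ker, LinearMap.coprod_apply] at hx ⊢
      simp only [Submodule.subtype_apply, LinearMap.comp_apply] at hx ⊢
      have hb : (b : A) = -(s : A) := by
        rw [eq_neg_iff_add_eq_zero, add_comm]
        exact hx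
      have hbS : (b : A) ∈ S ⊓ B := ⟨by rw [hb]; exact S.neg_mem s.2, b.2⟩
      have e1 : r b = ⟨b, hbS⟩ := hr' b hbS
      have e2 : s + ι (r b) = 0 := by
        rw [e1]
        exact Subtype.ext hx
      rw [← map_add, e2, map_zero])
  have g0S : ∀ s : S, g0 s.1 = φ s := by
    intro s
    have := hg0 (s, 0)
    simpa using this
  have g0B : ∀ (b : A) (hb : b ∈ B), g0 b = φ (ι (r ⟨b, hb⟩)) := by
    intro b hb
    have := hg0 (0, ⟨b, hb⟩)
    simpa using this
  have hιB : ∀ y : (S ⊓ B : Submodule K A), ((ι y : S) : A) ∈ B := fun y => y.2.2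
  -- the correction
  have he : ∀ x, (ψ - dP.comp g0) x ∈ LinearMap.range dP := by
    intro x
    rw [LinearMap.sub_apply, LinearMap.comp_apply]
    exact Submodule.sub_mem _ (h1 x) (LinearMap.mem_range_self _ _)
  obtain ⟨l, hl⟩ := LinearMap.exists_rightInverse_of_surjective dP.rangeRestrict
    (LinearMap.range_rangeRestrict dP)
  let e : A →ₗ[K] LinearMap.range dP := (ψ - dP.comp g0).codRestrict _ he
  have hle : ∀ y : LinearMap.range dP, dP (l y) = y.1 := fun y =>
    congrArg Subtype.val (LinearMap.congr_fun hl y)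
  have eS : ∀ s : S, e s.1 = 0 := by
    intro s
    apply Subtype.ext
    show (ψ - dP.comp g0) s.1 = 0
    rw [LinearMap.sub_apply, LinearMap.comp_apply, g0S, h2, sub_self]
  have eB : ∀ b ∈ B, e b = 0 := by
    intro b hb
    apply Subtype.ext
    show (ψ - dP.comp g0) b = 0
    rw [LinearMap.sub_apply, LinearMap.comp_apply, g0B b hb, h2, h3 b hb, h3 _ (hιB _), sub_self]
  refine ⟨g0 + l.comp e, fun s => ?_, fun x => ?_, fun b hb => ?_⟩
  · rw [LinearMap.add_apply, LinearMap.comp_apply, eS, map_zero, add_zero, g0S]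
  · rw [LinearMap.add_apply, LinearMap.comp_apply, map_add, hle]
    show dP (g0 x) + (ψ - dP.comp g0) x = ψ x
    rw [LinearMap.sub_apply, LinearMap.comp_apply]
    abel
  · rw [LinearMap.add_apply, LinearMap.comp_apply, eB b hb, map_zero, add_zero, g0B b hb]
    exact hR _ (hιB _)

/-- extension of chain maps over a field -/
private theorem A006_chain {K : Type} [Field K] {A P : ℕ → Type} [∀ n, AddCommGroup (A n)]
    [∀ n, Module K (A n)] [∀ n, AddCommGroup (P n)] [∀ n, Module K (P n)]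
    (dA : ∀ n, A (n + 1) →ₗ[K] A n) (dP : ∀ n, P (n + 1) →ₗ[K] P n)
    (dd : ∀ n z, dA n (dA (n + 1) z) = 0) (S : ∀ n, Submodule K (A n))
    (hS : ∀ n, ∀ s ∈ S (n + 1), dA n s ∈ S n) (φ : ∀ n, S n →ₗ[K] P n)
    (hφ : ∀ n (s : S (n + 1)), dP n (φ (n + 1) s) = φ n ⟨dA n s.1, hS n s.1 s.2⟩)
    (hB : ∀ n (z : A (n + 1)) (hz : dA n z ∈ S n),
      φ n ⟨dA n z, hz⟩ ∈ LinearMap.range (dP n)) :
    ∃ g : ∀ n, A n →ₗ[K] P n, (∀ n (s : S n), g n s.1 = φ n s) ∧
      ∀ n x, dP n (g (n + 1) x) = g n (dA n x) := by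
  have h0 : ∃ g : A 0 →ₗ[K] P 0, (∀ s : S 0, g s.1 = φ 0 s) ∧
      ∀ z, g (dA 0 z) ∈ LinearMap.range (dP 0) := by
    obtain ⟨g, g1, -, g3⟩ := A006_step (S 0) (LinearMap.range (dA 0)) (φ 0)
      (0 : P 0 →ₗ[K] P 0) 0 (fun x => Submodule.zero_mem _) (fun s => rfl) (fun b _ => rfl)
      (LinearMap.range (dP 0)) (by
        rintro ⟨s, hs⟩ ⟨z, hz⟩
        subst hz
        exact hB 0 z hs)
    exact ⟨g, g1, fun z => g3 _ (LinearMap.mem_range_self _ z)⟩
  have step : ∀ n (g : {g : A n →ₗ[K] P n // (∀ s : S n, g s.1 = φ n s) ∧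
      ∀ z, g (dA n z) ∈ LinearMap.range (dP n)}),
      ∃ g' : {g' : A (n + 1) →ₗ[K] P (n + 1) // (∀ s : S (n + 1), g' s.1 = φ (n + 1) s) ∧
        ∀ z, g' (dA (n + 1) z) ∈ LinearMap.range (dP (n + 1))},
        ∀ x, dP n (g'.1 x) = g.1 (dA n x) := by
    intro n g
    obtain ⟨g', g1, g2, g3⟩ := A006_step (S (n + 1)) (LinearMap.range (dA (n + 1)))
      (φ (n + 1)) (dP n) (g.1.comp (dA n)) (fun x => g.2.2 x) (fun s => by
        rw [hφ, LinearMap.comp_apply]
        exact (g.2.1 ⟨dA n s.1, hS n s.1 s.2⟩).symm) (by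
        rintro _ ⟨z, rfl⟩
        rw [LinearMap.comp_apply, dd, map_zero]) (LinearMap.range (dP (n + 1))) (by
        rintro ⟨s, hs⟩ ⟨z, hz⟩
        subst hz
        exact hB (n + 1) z hs)
    exact ⟨⟨g', g1, fun z => g3 _ (LinearMap.mem_range_self _ z)⟩, g2⟩
  obtain ⟨g0, hg0⟩ := h0
  choose nx hnx using step
  let sq : ∀ n, {g : A n →ₗ[K] P n // (∀ s : S n, g s.1 = φ n s) ∧
      ∀ z, g (dA n z) ∈ LinearMap.range (dP n)} := fun n => Nat.rec ⟨g0, hg0⟩ (fun n g => nx n g) n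
  exact ⟨fun n => (sq n).1, fun n => (sq n).2.1, fun n x => hnx n (sq n) x⟩

private theorem A006_dd {W : SV} {n : ℕ} {x : W.V (n + 2)} (hx : x ∈ W.NM (n + 2)) :
    W.act (dlt 0) (W.act (dlt 0) x) = 0 := by
  rw [← d_nm (nm_face hx), ← d_nm hx]
  exact W.d_d x

/-- the differential of the normalised complex -/
private def A006_d (W : SV) (n : ℕ) : W.NM (n + 1) →ₗ[ZMod 2] W.NM n :=
  (W.act (dlt 0)).restrict fun _ hx => nm_face hx

private theorem A006_mem {D P : SV} {C : SubV D} (f : SVHom C.sv P) {n : ℕ} {x : D.V n}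
    (hx : x ∈ D.NM n) (hC : x ∈ C.car n) : f.app n ⟨x, hC⟩ ∈ P.NM n := by
  cases n with
  | zero => exact Submodule.mem_top
  | succ n =>
    rw [mem_nm_succ] at hx ⊢
    intro i
    rw [← f.nat]
    have e : C.sv.act (dlt i.succ) (⟨x, hC⟩ : C.car (n + 1)) = 0 := Subtype.ext (hx i)
    rw [e, map_zero]

/-- restriction of `f` to the normalised complexes -/
private def A006_phi {D P : SV} {C : SubV D} (f : SVHom C.sv P) (n : ℕ) :
    (Submodule.comap (D.NM n).subtype (C.car n)) →ₗ[ZMod 2] P.NM n where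
  toFun s := ⟨f.app n ⟨s.1.1, s.2⟩, A006_mem f s.1.2 s.2⟩
  map_add' x y := Subtype.ext (by
    show f.app n ⟨(x.1 + y.1 : D.NM n).1, _⟩ = f.app n ⟨x.1.1, _⟩ + f.app n ⟨y.1.1, _⟩
    rw [← map_add]
    rfl)
  map_smul' c x := Subtype.ext (by
    show f.app n ⟨(c • x.1 : D.NM n).1, _⟩ = c • f.app n ⟨x.1.1, _⟩
    rw [← map_smul]
    rfl)

theorem extL {D P : SV} (C : SubV D) (f : SVHom C.sv P)
    (h : ∀ (n : ℕ) (z : D.V (n + 1)) (hz : D.d n z ∈ C.car n),
      f.app n ⟨D.d n z, hz⟩ ∈ P.B n) :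
    ∃ g : SVHom D P, ∀ n (x : C.car n), g.app n x.1 = f.app n x := by
  obtain ⟨g, hg1, hg2⟩ := A006_chain (K := ZMod 2) (A := fun n => D.NM n)
    (P := fun n => P.NM n) (A006_d D) (A006_d P)
    (fun n z => Subtype.ext (A006_dd z.2))
    (fun n => Submodule.comap (D.NM n).subtype (C.car n))
    (fun n s hs => C.closed (dlt 0) hs) (A006_phi f)
    (fun n s => Subtype.ext (by
      show P.act (dlt 0) (f.app (n + 1) ⟨s.1.1, s.2⟩) = f.app n ⟨D.act (dlt 0) s.1.1, _⟩
      rw [← f.nat]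
      rfl))
    (by
      rintro n ⟨z, hz⟩ hzC
      have hd : D.d n z = D.act (dlt 0) z := d_nm hz
      have hzC' : D.d n z ∈ C.car n := by
        rw [hd]
        exact hzC
      obtain ⟨w, hw⟩ := h n z hzC'
      have hw' : P.d n w = f.app n ⟨D.act (dlt 0) z, hzC⟩ := by
        rw [hw]
        congr 1
        exact Subtype.ext hd
      have hM : P.Moore (f.app n ⟨D.act (dlt 0) z, hzC⟩) := by
        cases n with
        | zero => exact moore_zero_dim _
        | succ n =>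
          rw [moore_iff]
          intro i
          rw [← f.nat]
          have e : C.sv.act (dlt i) (⟨D.act (dlt 0) z, hzC⟩ : C.car (n + 1)) = 0 := by
            apply Subtype.ext
            show D.act (dlt i) (D.act (dlt 0) z) = 0
            rcases Fin.eq_zero_or_eq_succ i with rfl | ⟨j, rfl⟩
            · exact A006_dd hz
            · exact mem_nm_succ.1 (nm_face hz) j
          rw [e, map_zero]
      obtain ⟨w', h1, h2⟩ := moore_boundary P _ hM w hw'
      exact ⟨⟨w', mem_nm_succ.2 h2⟩, Subtype.ext h1⟩)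
  obtain ⟨F, hF⟩ := dk_exists (D := D) (P := P) g (fun n x => congrArg Subtype.val (hg2 n x).symm)
  have hEq : F.comp C.incl = f := by
    apply dk_unique
    intro n x hx
    have hx' : x.1 ∈ D.NM n := by
      cases n with
      | zero => exact Submodule.mem_top
      | succ n =>
        rw [mem_nm_succ] at hx ⊢
        intro i
        exact congrArg Subtype.val (hx i)
    show F.app n x.1 = f.app n x
    rw [hF n ⟨x.1, hx'⟩]
    exact congrArg Subtype.val (hg1 n ⟨⟨x.1, hx'⟩, x.2⟩)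
  refine ⟨F, fun n x => ?_⟩
  rw [← hEq]
  rfl

end MM
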