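import Pool.Agent.Lib_MP_33f7bb_d.A006

/-!
# A0-07: extension of simplicial maps into simplicial vector spaces

`extP_sv_gen` is `extL` for the free simplicial vector spaces on `A ≤ C`: take
`D = (linSub C).sv`, the subobject of chains supported in `A`, and the linear extension
of `f` (a linear simplicial map on chains supported in `A` by `linExt_act`).  The extension `g n x` is
the value on the chain `single x 1` for `x ∈ C`, and `0` for `x ∉ C`.
`extP_sv`: for an acyclic pair, `z` relative cycle of degree `n + 1`: `z = a + dif w`, `a` supported in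
`A`, so `dif z = dif a` and `linExt f (dif z) = d (linExt f a)`.
`extP_sv_one`: `z = a + dif w + ε e`, so `dif z = dif a + ε dif e`.  Converse: if `g` extends `f` then
`linExt f (dif e) = linExt g (dif e) = d (linExt g e)`.
-/

namespace MM

private theorem A007_d_val {P : SS} (C : Sub P) {n : ℕ} (z : (linSub C).sv.V (n + 1)) :
    (((linSub C).sv.d n z : (linSub C).sv.V n) : Ch P n) = dif z.1 := by
  have h : (((linSub C).sv.d n z : (linSub C).sv.V n) : Ch P n) = (lin P).d n z.1 := by
    simp only [SV.d, LinearMap.sum_apply]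
    rw [← Submodule.subtype_apply, map_sum]
    rfl
  rw [h]
  exact lin_d z.1

private noncomputable def A007_sub {P : SS} (A C : Sub P) : SubV (linSub C).sv where
  car n := Submodule.comap ((linSub C).car n).subtype ((linSub A).car n)
  closed f _ hx := (linSub A).closed f hx

private noncomputable def A007_hom (W : SV) {P : SS} {A : Sub P} (C : Sub P) (f : Fn P W.ss)
    (hf : NatOn A f) : SVHom (A007_sub A C).sv W where
  app n := (linExt f n).comp (((linSub C).car n).subtype.comp ((A007_sub A C).car n).subtype)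
  nat g x := linExt_act hf g x.2

theorem extP_sv_gen (W : SV) {P : SS} {A C : Sub P} (hAC : A ≤ C) (f : Fn P W.ss)
    (hf : NatOn A f)
    (h : ∀ (n : ℕ) (z : Ch P (n + 1)), SuppIn C z → SuppIn A (dif z) →
      linExt f n (dif z) ∈ W.B n) :
    ∃ g : Fn P W.ss, NatOn C g ∧ ∀ n, ∀ x ∈ A.car n, g n x = f n x := by
  obtain ⟨g, hg⟩ := extL (A007_sub A C) (A007_hom W C f hf) (fun n z hz => by
    have h1 : SuppIn A (dif z.1) := by
      rw [suppIn_iff, ← A007_d_val C z]
      exact hz
    have h2 := h n z.1 z.2 h1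
    rw [← A007_d_val C z] at h2
    exact h2)
  classical
  have hs : ∀ (n : ℕ) (x : P.S n), x ∈ C.car n →
      (Finsupp.single x 1 : Ch P n) ∈ (linSub C).car n := fun n x hx => SuppIn.single hx 1
  refine ⟨fun n x => if hx : x ∈ C.car n then g.app n ⟨Finsupp.single x 1, hs n x hx⟩ else 0,
    ?_, ?_⟩
  · intro m n φ x hx
    have hx' : P.act φ x ∈ C.car m := C.closed φ hx
    show (if hx : P.act φ x ∈ C.car m then g.app m ⟨Finsupp.single (P.act φ x) 1, hs m _ hx⟩
      else 0) = W.act φ (if hx : x ∈ C.car n then g.app n ⟨Finsupp.single x 1, hs n x hx⟩ else 0)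
    rw [dif_pos hx, dif_pos hx', ← g.nat]
    congr 1
    apply Subtype.ext
    show Finsupp.single (P.act φ x) 1 = Finsupp.mapDomain (P.act φ) (Finsupp.single x 1)
    rw [Finsupp.mapDomain_single]
  · intro n x hx
    have hx' : x ∈ C.car n := hAC n hx
    show (if hx : x ∈ C.car n then g.app n ⟨Finsupp.single x 1, hs n x hx⟩ else 0) = f n x
    rw [dif_pos hx']
    have h1 := hg n ⟨⟨Finsupp.single x 1, hs n x hx'⟩, SuppIn.single hx 1⟩
    refine h1.trans ?_
    show linExt f n (Finsupp.single x 1) = f n x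
    rw [linExt_single, one_smul]

private theorem A007_mem (W : SV) {P : SS} {A : Sub P} (f : Fn P W.ss) (hf : NatOn A f) {n : ℕ}
    {z : Ch P (n + 1)} {w : Ch P (n + 2)} (h : SuppIn A (z + dif w)) :
    linExt f n (dif z) ∈ W.B n := by
  have h1 : dif z = dif (z + dif w) := by rw [dif_add, dif_dif, add_zero]
  rw [h1, linExt_dif hf h]
  exact LinearMap.mem_range_self _ _

theorem extP_sv (W : SV) {P : SS} {A C : Sub P} (hAC : A ≤ C) (h : Acyc A C) :
    ExtP W.ss A C := by
  intro f hf
  refine extP_sv_gen W hAC f hf fun n z hz hz' => ?_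
  obtain ⟨w, -, hw⟩ := h (n + 1) z hz hz'
  exact A007_mem W f hf hw

theorem extP_sv_one (W : SV) {P : SS} {A C : Sub P} (hAC : A ≤ C) {n : ℕ} {e : Ch P (n + 1)}
    (he : GenBy A C e) (f : Fn P W.ss) (hf : NatOn A f) (hb : linExt f n (dif e) ∈ W.B n) :
    ∃ g : Fn P W.ss, NatOn C g ∧ ∀ n, ∀ x ∈ A.car n, g n x = f n x := by
  refine extP_sv_gen W hAC f hf fun m z hz hz' => ?_
  by_cases hmn : m = n
  · subst hmn
    obtain ⟨w, -, hw⟩ := he.2.2.1 z hz hz'
    rcases hw with hw | hw
    · exact A007_mem W f hf hw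
    · have h1 : dif z = dif (z + dif w + e) + dif e := by
        rw [dif_add, dif_add, dif_dif, add_zero, add_assoc, two_eq_zero' (dif e), add_zero]
      rw [h1, map_add, linExt_dif hf hw]
      exact (W.B m).add_mem (LinearMap.mem_range_self _ _) hb
  · obtain ⟨w, -, hw⟩ := he.2.2.2 (m + 1) (fun h => hmn (Nat.succ_injective h)) z hz hz'
    exact A007_mem W f hf hw

theorem linExt_dif_mem_B (W : SV) {P : SS} {A C : Sub P} {n : ℕ} {e : Ch P (n + 1)}
    (heC : SuppIn C e) (heA : SuppIn A (dif e)) (f g : Fn P W.ss) (hg : NatOn C g)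
    (h : ∀ n, ∀ x ∈ A.car n, g n x = f n x) : linExt f n (dif e) ∈ W.B n := by
  have h1 : linExt f n (dif e) = linExt g n (dif e) :=
    (linExt_congr (W := W) (h n) heA).symm
  rw [h1, linExt_dif hg heC]
  exact LinearMap.mem_range_self _ _

end MM
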