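import Pool.Agent.Lib_MP_33f7bb_d.A010
import Pool.Agent.Lib_MP_33f7bb_d.A007

/-!
# A0-08: homotopy classes of maps into a simplicial vector space are determined by homology

`htp_rel`: extend the map on `∂Δ^1 × Z ∪ Δ^1 × A` (given by `f`, `g` at the two ends, by `f ∘ pr` on
`Δ^1 × A`) with `extP_sv_gen`.  Condition: let `z` be a chain of `Δ^1 × Z` of degree `n + 1` with `dif z`
supported in the subcomplex.  Write `dif z = c_0 + c_1 + c_A`, `c_ε` supported on `{ε} × Z`, i.e.
`c_ε = (cst ε) × b_ε`, and `c_A` supported in `Δ^1 × A`.  Projecting to `Z`: `dif (pr z) = b_0 + b_1 +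
pr c_A`.  Then `b_0` and `b_1` are relative cycles mod `A` and the value to be shown to be a boundary is
`f(b_0) + g(b_1) + f(pr c_A) = f(b_0) + f(b_1) + f (pr c_A) + (f(b_1) + g(b_1)) = f(dif (pr z)) +
(f(b_1) + g(b_1))`, a boundary by hypothesis for the relative cycle `b_1`.
(`b_1` is a relative cycle: `dif c_1` is supported in the part of `Δ^1 × A` because `dif dif z = 0`.
Careful with simplices in several parts: decompose the support of `dif z` as: first coordinate `cst 0`,
first coordinate `cst 1`, rest; the rest lies in `Δ^1 × A`.)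
`htp_iff`: `←` is the case `A = ⊥` (relative cycles mod `⊥` of degree `n ≥ 1` are cycles), `→` is the
prism formula (`A010`).
-/

namespace MM

/-- the map on `∂Δ^1 × Z ∪ Δ^1 × A` -/
private noncomputable def A008_F (W : SV) {Z : SS} (f g : Hom Z W.ss) :
    Fn ((Del 1).prod Z) W.ss := by
  classical
  exact fun n x => if x.1 = (cst 1 : Mo n 1) then g.app n x.2 else f.app n x.2

private theorem A008_F_one (W : SV) {Z : SS} (f g : Hom Z W.ss) {n : ℕ}
    {x : ((Del 1).prod Z).S n} (h : x.1 = (cst 1 : Mo n 1)) : A008_F W f g n x = g.app n x.2 := by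
  unfold A008_F
  exact if_pos h

private theorem A008_F_ne (W : SV) {Z : SS} (f g : Hom Z W.ss) {n : ℕ}
    {x : ((Del 1).prod Z).S n} (h : x.1 ≠ (cst 1 : Mo n 1)) : A008_F W f g n x = f.app n x.2 := by
  unfold A008_F
  exact if_neg h

private theorem A008_cst_ne {n : ℕ} : (cst 0 : Mo n 1) ≠ cst 1 := by
  intro h
  have h1 := DFunLike.congr_fun h (0 : Fin (n + 1))
  have h2 : (0 : Fin 2) = 1 := h1
  exact absurd h2 (by decide)

/-- non surjective maps to `[1]` are constant -/
private theorem A008_bd {n : ℕ} {a : Mo n 1} (h : a ∈ (bd 1).car n) (h1 : a ≠ cst 1) :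
    a = cst 0 := by
  have h2 : ¬ Function.Surjective a := h
  by_contra h0
  apply h2
  have e0 : ∃ i, a i ≠ 1 := by
    by_contra hh
    push Not at hh
    exact h1 (OrderHom.ext _ _ (funext fun i => hh i))
  have e1 : ∃ i, a i ≠ 0 := by
    by_contra hh
    push Not at hh
    exact h0 (OrderHom.ext _ _ (funext fun i => hh i))
  obtain ⟨i, hi⟩ := e0
  obtain ⟨j, hj⟩ := e1
  intro y
  have hy : y = 0 ∨ y = 1 := by
    have : ∀ y : Fin 2, y = 0 ∨ y = 1 := by decide
    exact this y
  rcases hy with rfl | rfl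
  · refine ⟨i, ?_⟩
    have : ∀ y : Fin 2, y ≠ 1 → y = 0 := by decide
    exact this _ hi
  · refine ⟨j, ?_⟩
    have : ∀ y : Fin 2, y ≠ 0 → y = 1 := by decide
    exact this _ hj

private theorem A008_cst_bd {n : ℕ} (i : Fin 2) : (cst i : Mo n 1) ∈ (bd 1).car n := by
  intro h
  obtain ⟨a, ha⟩ := h 0
  obtain ⟨b, hb⟩ := h 1
  have h1 : i = 0 := ha
  have h2 : i = 1 := hb
  rw [h1] at h2
  exact absurd h2 (by decide)

/-- simplicial maps commute with the boundary -/
private theorem A008_dif_map {P Q : SS} (φ : Hom P Q) {n : ℕ} (z : Ch P (n + 1)) :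
    dif (z.mapDomain (φ.app (n + 1))) = (dif z).mapDomain (φ.app n) := by
  unfold dif
  rw [Finsupp.mapDomain_finsetSum]
  refine Finset.sum_congr rfl fun i _ => ?_
  rw [← Finsupp.mapDomain_comp, ← Finsupp.mapDomain_comp]
  congr 1
  funext x
  exact (φ.nat (dlt i) x).symm

/-- the part with first coordinate `cst 1`, projected -/
private noncomputable def A008_b {Z : SS} {n : ℕ} (c : Ch ((Del 1).prod Z) n) :
    Ch ((Del 1).prod Z) n := by
  classical
  exact c.filter (fun x => x.1 = (cst 1 : Mo n 1))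

private theorem A008_b_add {Z : SS} {n : ℕ} (c c' : Ch ((Del 1).prod Z) n) :
    A008_b (c + c') = A008_b c + A008_b c' := by
  unfold A008_b
  exact Finsupp.filter_add

private theorem A008_b_zero {Z : SS} {n : ℕ} :
    A008_b (0 : Ch ((Del 1).prod Z) n) = 0 := by
  unfold A008_b
  exact Finsupp.filter_zero _

private theorem A008_b_single {Z : SS} {n : ℕ} (x : ((Del 1).prod Z).S n) (r : ZMod 2) :
    (x.1 = (cst 1 : Mo n 1) → A008_b (Finsupp.single x r) = Finsupp.single x r) ∧
    (x.1 ≠ (cst 1 : Mo n 1) → A008_b (Finsupp.single x r) = 0) := by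
  unfold A008_b
  constructor
  · intro h
    exact Finsupp.filter_single_of_pos _ h
  · intro h
    exact Finsupp.filter_single_of_neg _ h

private theorem A008_b_supp {Z : SS} {n : ℕ} (c : Ch ((Del 1).prod Z) n)
    {x : ((Del 1).prod Z).S n} (hx : x ∈ (A008_b c).support) :
    x ∈ c.support ∧ x.1 = (cst 1 : Mo n 1) := by
  unfold A008_b at hx
  rw [Finsupp.support_filter, Finset.mem_filter] at hx
  exact hx

private theorem A008_b_supp' {Z : SS} {n : ℕ} (c : Ch ((Del 1).prod Z) n)
    {x : ((Del 1).prod Z).S n} (hx : x ∈ (c + A008_b c).support) :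
    x ∈ c.support ∧ x.1 ≠ (cst 1 : Mo n 1) := by
  classical
  have h1 : x.1 ≠ (cst 1 : Mo n 1) := by
    intro h
    rw [Finsupp.mem_support_iff, Finsupp.add_apply] at hx
    apply hx
    have e : (A008_b c) x = c x := by
      unfold A008_b
      exact Finsupp.filter_apply_pos (fun x : ((Del 1).prod Z).S n => x.1 = (cst 1 : Mo n 1)) c h
    rw [e]
    exact two_eq_zero' (c x)
  refine ⟨?_, h1⟩
  rw [Finsupp.mem_support_iff, Finsupp.add_apply] at hx
  rw [Finsupp.mem_support_iff]
  intro h0
  apply hx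
  have e : (A008_b c) x = 0 := by
    unfold A008_b
    exact Finsupp.filter_apply_neg (fun x : ((Del 1).prod Z).S n => x.1 = (cst 1 : Mo n 1)) c h1
  rw [e, h0, add_zero]

private theorem A008_key (W : SV) {Z : SS} (f g : Hom Z W.ss) {n : ℕ}
    (c : Ch ((Del 1).prod Z) n) :
    linExt (A008_F W f g) n c = linExt f.app n (c.mapDomain Prod.snd) +
      (linExt f.app n ((A008_b c).mapDomain Prod.snd) +
        linExt g.app n ((A008_b c).mapDomain Prod.snd)) := by
  induction c using Finsupp.induction_linear with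
  | zero => simp only [A008_b_zero, Finsupp.mapDomain_zero, map_zero, add_zero]
  | add c c' h h' =>
    rw [A008_b_add, map_add, h, h', Finsupp.mapDomain_add, Finsupp.mapDomain_add, map_add, map_add,
      map_add]
    abel
  | single x r =>
    rw [linExt_single]
    by_cases hx : x.1 = (cst 1 : Mo n 1)
    · rw [(A008_b_single x r).1 hx, Finsupp.mapDomain_single, linExt_single, linExt_single,
        A008_F_one W f g hx, ← add_assoc, two_eq_zero', zero_add]
    · rw [(A008_b_single x r).2 hx, Finsupp.mapDomain_single, linExt_single,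
        A008_F_ne W f g hx, Finsupp.mapDomain_zero, map_zero, map_zero, add_zero, add_zero]

/-- the part over the vertex `1` -/
private def A008_S1 (Z : SS) : Sub ((Del 1).prod Z) :=
  ⟨fun n => {x | x.1 = (cst 1 : Mo n 1)}, fun {m n} u x h => by
    show (x.1 : Mo n 1).comp u = cst 1
    have h' : x.1 = (cst 1 : Mo n 1) := h
    rw [h']
    rfl⟩

private def A008_S0 {Z : SS} (A : Sub Z) : Sub ((Del 1).prod Z) :=
  ⟨fun n => {x | x.1 = (cst 0 : Mo n 1) ∨ x.2 ∈ A.car n}, fun {m n} u x h => by
    rcases h with h | h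
    · left
      show (x.1 : Mo n 1).comp u = cst 0
      rw [h]
      rfl
    · right
      exact A.closed u h⟩

private theorem A008_rel {Z : SS} (A : Sub Z) {n : ℕ} (z : Ch ((Del 1).prod Z) (n + 1))
    (hz : SuppIn (Sub.box (bd 1) ⊤ A ⊤) (dif z)) :
    RelCyc A ((A008_b (dif z)).mapDomain Prod.snd) := by
  classical
  cases n with
  | zero => trivial
  | succ n =>
    show SuppIn A (dif _)
    have h1 : SuppIn (A008_S1 Z) (A008_b (dif z)) := fun x hx => (A008_b_supp _ hx).2
    have h0 : SuppIn (A008_S0 A) (dif z + A008_b (dif z)) := by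
      intro x hx
      obtain ⟨h2, h3⟩ := A008_b_supp' _ hx
      rcases (hz x h2).2 with h4 | h4
      · exact Or.inl (A008_bd h4 h3)
      · exact Or.inr h4
    have h2 := h0.dif
    rw [dif_add, dif_dif, zero_add] at h2
    have h3 := h1.dif
    have e : dif ((A008_b (dif z)).mapDomain ((Hom.snd (Del 1) Z).app (n + 1))) =
        (dif (A008_b (dif z))).mapDomain ((Hom.snd (Del 1) Z).app n) :=
      A008_dif_map (Hom.snd (Del 1) Z) _
    have e' : dif ((A008_b (dif z)).mapDomain Prod.snd) =
        (dif (A008_b (dif z))).mapDomain Prod.snd := e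
    rw [e']
    intro y hy
    obtain ⟨x, hx, rfl⟩ := Finset.mem_image.1 (Finsupp.mapDomain_support hy)
    rcases h2 x hx with h4 | h4
    · exact absurd (h4.symm.trans (h3 x hx)) A008_cst_ne
    · exact h4

private theorem A008_nat_top {P : SS} {W : SV} (f : Hom P W.ss) :
    NatOn (⊤ : Sub P) f.app := fun u x _ => f.nat u x

theorem htp_rel (W : SV) {Z : SS} (A : Sub Z) (f g : Hom Z W.ss)
    (hA : ∀ n, ∀ x ∈ A.car n, f.app n x = g.app n x)
    (h : ∀ (n : ℕ) (z : Ch Z n), RelCyc A z → linExt f.app n z + linExt g.app n z ∈ W.B n) :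
    ∃ H : Hom ((Del 1).prod Z) W.ss, (∀ n x, H.app n (cst 0, x) = f.app n x) ∧
      (∀ n x, H.app n (cst 1, x) = g.app n x) ∧
      ∀ n a, ∀ x ∈ A.car n, H.app n (a, x) = f.app n x := by
  have hnat : NatOn (Sub.box (bd 1) ⊤ A ⊤) (A008_F W f g) := by
    intro m n u x hx
    by_cases h1 : x.1 = (cst 1 : Mo n 1)
    · have h1' : (((Del 1).prod Z).act u x).1 = (cst 1 : Mo m 1) := by
        show (x.1 : Mo n 1).comp u = cst 1
        rw [h1]
        rfl
      rw [A008_F_one W f g h1, A008_F_one W f g h1']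
      exact g.nat u x.2
    · rw [A008_F_ne W f g h1]
      by_cases h2 : x.2 ∈ A.car n
      · by_cases h3 : (((Del 1).prod Z).act u x).1 = (cst 1 : Mo m 1)
        · rw [A008_F_one W f g h3]
          show g.app m (Z.act u x.2) = _
          rw [← hA m _ (A.closed u h2)]
          exact f.nat u x.2
        · rw [A008_F_ne W f g h3]
          exact f.nat u x.2
      · have h4 : x.1 = (cst 0 : Mo n 1) := by
          rcases hx.2 with h5 | h5
          · exact A008_bd h5 h1
          · exact absurd h5 h2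
        have h3 : (((Del 1).prod Z).act u x).1 ≠ (cst 1 : Mo m 1) := by
          have h6 : (((Del 1).prod Z).act u x).1 = (cst 0 : Mo m 1) := by
            show (x.1 : Mo n 1).comp u = cst 0
            rw [h4]
            rfl
          rw [h6]
          exact A008_cst_ne
        rw [A008_F_ne W f g h3]
        exact f.nat u x.2
  obtain ⟨G, hG, hG'⟩ := extP_sv_gen W (A := Sub.box (bd 1) ⊤ A ⊤) (C := ⊤) (Sub.le_top' _)
    (A008_F W f g) hnat (by
      intro n z _ hz
      rw [A008_key]
      refine Submodule.add_mem _ ?_ (h n _ (A008_rel A z hz))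
      have e : (dif z).mapDomain Prod.snd = dif (z.mapDomain ((Hom.snd (Del 1) Z).app (n + 1))) :=
        (A008_dif_map (Hom.snd (Del 1) Z) z).symm
      rw [e, linExt_dif (A008_nat_top f) (SuppIn.top _)]
      exact ⟨_, rfl⟩)
  refine ⟨⟨G, fun u x => hG u x trivial⟩, ?_, ?_, ?_⟩
  · intro n x
    show G n (cst 0, x) = _
    rw [hG' n _ ⟨⟨trivial, trivial⟩, Or.inl (A008_cst_bd 0)⟩]
    exact A008_F_ne W f g A008_cst_ne
  · intro n x
    show G n (cst 1, x) = _
    rw [hG' n _ ⟨⟨trivial, trivial⟩, Or.inl (A008_cst_bd 1)⟩]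
    exact A008_F_one W f g rfl
  · intro n a x hx
    show G n (a, x) = _
    rw [hG' n _ ⟨⟨trivial, trivial⟩, Or.inr hx⟩]
    by_cases ha : a = (cst 1 : Mo n 1)
    · rw [A008_F_one W f g ha]
      exact (hA n x hx).symm
    · exact A008_F_ne W f g ha

/-- evaluation of chains in the underlying simplicial set -/
private theorem A008_ev (W : SV) {Z : SS} (f : Fn Z W.ss) (n : ℕ) (z : Ch Z n) :
    linExt (P := W.ss) (W := W) (fun _ x => x) n (z.mapDomain (f n)) = linExt f n z := by
  unfold linExt
  exact Finsupp.linearCombination_mapDomain (ZMod 2) (f n) z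

theorem htp_iff (W : SV) {Z : SS} (f g : Hom Z W.ss) :
    Htp f g ↔ ∀ (n : ℕ) (z : Ch Z n), z ∈ (lin Z).Z n →
      linExt f.app n z + linExt g.app n z ∈ W.B n := by
  constructor
  · rintro ⟨H, h0, h1⟩ n z hz
    obtain ⟨T, hT0, hT, -⟩ := prism H
    have e0 : ∀ n, (fun x => H.app n (cst 0, x)) = f.app n := fun n => funext fun x => h0 n x
    have e1 : ∀ n, (fun x => H.app n (cst 1, x)) = g.app n := fun n => funext fun x => h1 n x
    have hnat : NatOn (⊤ : Sub W.ss) (fun _ x => x : Fn W.ss W.ss) := fun _ _ _ => rfl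
    have key : ∀ y : Ch W.ss (n + 1), dif y = z.mapDomain (f.app n) + z.mapDomain (g.app n) →
        linExt f.app n z + linExt g.app n z ∈ W.B n := by
      intro y hy
      rw [← A008_ev W f.app n z, ← A008_ev W g.app n z, ← map_add, ← hy,
        linExt_dif hnat (SuppIn.top y)]
      exact ⟨_, rfl⟩
    cases n with
    | zero =>
      refine key (T 0 z) ?_
      rw [hT0 z, e0, e1]
    | succ n =>
      refine key (T (n + 1) z) ?_
      have hz' : dif z = 0 := by
        rw [← lin_d]
        exact hz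
      rw [hT n z, e0, e1, hz', map_zero, add_zero]
  · intro h
    obtain ⟨H, h0, h1, -⟩ := htp_rel W (⊥ : Sub Z) f g (fun n x hx => hx.elim) (by
      intro n z hz
      apply h
      cases n with
      | zero => trivial
      | succ n =>
        show z ∈ LinearMap.ker ((lin Z).d n)
        rw [LinearMap.mem_ker, lin_d]
        have hz' : SuppIn (⊥ : Sub Z) (dif z) := hz
        ext x
        by_contra hx
        exact hz' x (Finsupp.mem_support_iff.2 hx))
    exact ⟨H, h0, h1⟩

end MM
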