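import Pool.Agent.Lib_MP_33f7bb_d.A001

/-!
# A0-10: the prism operator

`T n z = ∑_(i ≤ n) H (a_i) (act (sgm i) z)` where `a_i : [n+1] → [1]` is `0` on `j ≤ i` and `1` on `j > i`.
Faces: `δ_j T_i` for `j < i` is `T_(i-1) δ_j`, for `j > i + 1` it is `T_i δ_(j-1)`; `δ_(i+1) T_i =
δ_(i+1) T_(i+1)` cancel, `δ_0 T_0` = value at `cst 1`, `δ_(n+1) T_n` = value at `cst 0`.
The set version is the linear version for `lin P → lin Y`, `H_a = mapDomain (H (a, ·))`.
-/

namespace MM

/-- the map `[n] → [1]` which is `0` exactly below `c` -/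
private def A010_cut (n c : ℕ) : Mo n 1 :=
  ⟨fun j => if (j : ℕ) < c then 0 else 1, by
    intro j k hjk
    have h : (j : ℕ) ≤ (k : ℕ) := hjk
    show (if (j : ℕ) < c then (0 : Fin 2) else 1) ≤ (if (k : ℕ) < c then (0 : Fin 2) else 1)
    split_ifs with h1 h2
    · exact le_rfl
    · exact Fin.zero_le _
    · omega
    · exact le_rfl⟩

private theorem A010_cut_zero (n : ℕ) : A010_cut n 0 = cst 1 := by
  apply OrderHom.ext
  funext j
  show (if (j : ℕ) < 0 then (0 : Fin 2) else 1) = 1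
  rw [if_neg (Nat.not_lt_zero _)]

private theorem A010_cut_last (n : ℕ) : A010_cut n (n + 1) = cst 0 := by
  apply OrderHom.ext
  funext j
  show (if (j : ℕ) < n + 1 then (0 : Fin 2) else 1) = 0
  rw [if_pos j.isLt]

private theorem A010_cut_le (n c : ℕ) (j : Fin (n + 2)) (h : c ≤ (j : ℕ)) :
    (A010_cut (n + 1) c).comp (dlt j) = A010_cut n c := by
  apply OrderHom.ext
  funext k
  show (if ((j.succAbove k : Fin (n + 2)) : ℕ) < c then (0 : Fin 2) else 1) =
    (if (k : ℕ) < c then (0 : Fin 2) else 1)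
  by_cases hk : k.castSucc < j
  · rw [Fin.succAbove_of_castSucc_lt _ _ hk]
    rfl
  · rw [Fin.succAbove_of_le_castSucc _ _ (not_lt.1 hk)]
    have h1 : (j : ℕ) ≤ (k : ℕ) := not_lt.1 hk
    rw [if_neg (by simp; omega), if_neg (by omega)]

private theorem A010_cut_gt (n c : ℕ) (j : Fin (n + 2)) (h : (j : ℕ) ≤ c) :
    (A010_cut (n + 1) (c + 1)).comp (dlt j) = A010_cut n c := by
  apply OrderHom.ext
  funext k
  show (if ((j.succAbove k : Fin (n + 2)) : ℕ) < c + 1 then (0 : Fin 2) else 1) =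
    (if (k : ℕ) < c then (0 : Fin 2) else 1)
  by_cases hk : k.castSucc < j
  · rw [Fin.succAbove_of_castSucc_lt _ _ hk]
    have h1 : (k : ℕ) < (j : ℕ) := hk
    rw [if_pos (by simp; omega), if_pos (by omega)]
  · rw [Fin.succAbove_of_le_castSucc _ _ (not_lt.1 hk)]
    simp only [Fin.val_succ, Nat.add_lt_add_iff_right]

/-- the prism operator -/
private noncomputable def A010_T {P Q : SV} (H : LHpy P Q) (n : ℕ) : P.V n →ₗ[ZMod 2] Q.V (n + 1) :=
  ∑ i : Fin (n + 1), (H.app (n + 1) (A010_cut (n + 1) ((i : ℕ) + 1))).comp (P.act (sgm i))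

private theorem A010_T_apply {P Q : SV} (H : LHpy P Q) (n : ℕ) (z : P.V n) :
    A010_T H n z = ∑ i : Fin (n + 1), H.app (n + 1) (A010_cut (n + 1) ((i : ℕ) + 1)) (P.act (sgm i) z) := by
  simp [A010_T, LinearMap.sum_apply]

private theorem A010_face {P Q : SV} (H : LHpy P Q) (n : ℕ) (z : P.V n) (i : Fin (n + 1))
    (j : Fin (n + 2)) :
    Q.act (dlt j) (H.app (n + 1) (A010_cut (n + 1) ((i : ℕ) + 1)) (P.act (sgm i) z)) =
      H.app n ((A010_cut (n + 1) ((i : ℕ) + 1)).comp (dlt j)) (P.act ((sgm i).comp (dlt j)) z) := by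
  rw [← P.act_comp, H.nat]

private theorem A010_dT {P Q : SV} (H : LHpy P Q) (n : ℕ) (z : P.V n) :
    Q.d n (A010_T H n z) = ∑ i : Fin (n + 1), ∑ j : Fin (n + 2),
      H.app n ((A010_cut (n + 1) ((i : ℕ) + 1)).comp (dlt j)) (P.act ((sgm i).comp (dlt j)) z) := by
  rw [A010_T_apply, map_sum]
  refine Finset.sum_congr rfl fun i _ => ?_
  rw [SV.d, LinearMap.sum_apply]
  exact Finset.sum_congr rfl fun j _ => A010_face H n z i j

private theorem A010_diag {P Q : SV} (H : LHpy P Q) (n : ℕ) (z : P.V n) :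
    (∑ i : Fin (n + 1),
      H.app n ((A010_cut (n + 1) ((i : ℕ) + 1)).comp (dlt i.castSucc))
        (P.act ((sgm i).comp (dlt i.castSucc)) z)) +
    (∑ i : Fin (n + 1),
      H.app n ((A010_cut (n + 1) ((i : ℕ) + 1)).comp (dlt i.succ))
        (P.act ((sgm i).comp (dlt i.succ)) z)) = H.app n (cst 0) z + H.app n (cst 1) z := by
  have h1 : ∀ i : Fin (n + 1), H.app n ((A010_cut (n + 1) ((i : ℕ) + 1)).comp (dlt i.castSucc))
        (P.act ((sgm i).comp (dlt i.castSucc)) z) = H.app n (A010_cut n i) z := by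
    intro i
    rw [A010_cut_gt n i i.castSucc le_rfl, sgm_comp_dlt_castSucc, P.act_id]
  have h2 : ∀ i : Fin (n + 1), H.app n ((A010_cut (n + 1) ((i : ℕ) + 1)).comp (dlt i.succ))
        (P.act ((sgm i).comp (dlt i.succ)) z) = H.app n (A010_cut n (i + 1)) z := by
    intro i
    rw [A010_cut_le n (i + 1) i.succ (by simp), sgm_comp_dlt_succ, P.act_id]
  rw [Finset.sum_congr rfl fun i _ => h1 i, Finset.sum_congr rfl fun i _ => h2 i,
    Fin.sum_univ_eq_sum_range (fun i => H.app n (A010_cut n i) z) (n + 1),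
    Fin.sum_univ_eq_sum_range (fun i => H.app n (A010_cut n (i + 1)) z) (n + 1),
    Finset.sum_range_succ', Finset.sum_range_succ (fun i => H.app n (A010_cut n (i + 1)) z),
    A010_cut_zero, A010_cut_last]
  have h3 := two_eq_zero' (∑ i ∈ Finset.range n, H.app n (A010_cut n (i + 1)) z)
  rw [show ∀ a b c : Q.V n, (a + b) + (a + c) = (a + a) + (c + b) from fun a b c => by abel, h3,
    zero_add]

private theorem A010_case1 {n : ℕ} (i : Fin (n + 2)) (k : Fin (n + 1)) (h : k.castSucc < i) :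
    ∃ a : Fin (n + 1), i = a.succ ∧ k ≤ a ∧ k.predAbove i = a ∧ i.succAbove k = k.castSucc := by
  refine ⟨i.pred (Fin.ne_zero_of_lt h), (Fin.succ_pred _ _).symm, ?_,
    Fin.predAbove_of_castSucc_lt _ _ h, Fin.succAbove_of_castSucc_lt _ _ h⟩
  have h1 : (k : ℕ) < (i : ℕ) := h
  show (k : ℕ) ≤ ((i.pred (Fin.ne_zero_of_lt h) : Fin (n + 1)) : ℕ)
  rw [Fin.val_pred]
  omega

private theorem A010_case2 {n : ℕ} (i : Fin (n + 2)) (k : Fin (n + 1)) (h : i ≤ k.castSucc) :
    ∃ a : Fin (n + 1), i = a.castSucc ∧ a ≤ k ∧ k.predAbove i = a ∧ i.succAbove k = k.succ := by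
  have h1 : (i : ℕ) ≤ (k : ℕ) := h
  have hne : i ≠ Fin.last (n + 1) := by
    intro he
    have h2 : (i : ℕ) = n + 1 := by rw [he]; rfl
    have := k.isLt
    omega
  exact ⟨i.castPred hne, (Fin.castSucc_castPred _ _).symm, h1,
    Fin.predAbove_of_le_castSucc _ _ h, Fin.succAbove_of_le_castSucc _ _ h⟩

private theorem A010_split {M : Type*} [AddCommMonoid M] (n : ℕ)
    (f : Fin (n + 2) → Fin (n + 3) → M) :
    ∑ i, ∑ j, f i j = (∑ i : Fin (n + 2), f i i.castSucc + ∑ i : Fin (n + 2), f i i.succ) +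
      ∑ i' : Fin (n + 1), ∑ j' : Fin (n + 2),
        (if j' ≤ i'.castSucc then f i'.succ j'.castSucc else f i'.castSucc j'.succ) := by
  have h1 : ∀ i : Fin (n + 2), ∑ j, f i j = (f i i.castSucc + f i i.succ) +
      ∑ k : Fin (n + 1), f i (i.castSucc.succAbove (i.succAbove k)) := by
    intro i
    rw [Fin.sum_univ_succAbove _ i.castSucc, Fin.sum_univ_succAbove _ i, add_assoc]
    congr 2
    rw [Fin.succAbove_of_le_castSucc _ _ le_rfl]
  rw [Finset.sum_congr rfl fun i _ => h1 i, Finset.sum_add_distrib, Finset.sum_add_distrib]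
  congr 1
  rw [← Fintype.sum_prod_type', ← Fintype.sum_prod_type']
  refine Finset.sum_nbij' (fun p => (p.2.predAbove p.1, p.1.succAbove p.2))
    (fun q => if q.2 ≤ q.1.castSucc then (q.1.succ, q.1.predAbove q.2) else
      (q.1.castSucc, q.1.predAbove q.2)) (fun _ _ => Finset.mem_univ _)
    (fun _ _ => Finset.mem_univ _) ?_ ?_ ?_
  · rintro ⟨i, k⟩ -
    by_cases h : k.castSucc < i
    · obtain ⟨a, rfl, hka, h2, h3⟩ := A010_case1 i k h
      have h4 : k.castSucc ≤ a.castSucc := hka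
      simp only [h2, h3, if_pos h4]
      rw [Fin.predAbove_of_le_castSucc _ _ h4, Fin.castPred_castSucc]
    · obtain ⟨a, rfl, hak, h2, h3⟩ := A010_case2 i k (not_lt.1 h)
      have h4 : a.castSucc < k.succ := by
        show (a : ℕ) < (k.succ : ℕ)
        rw [Fin.val_succ]
        exact Nat.lt_succ_of_le hak
      simp only [h2, h3, if_neg (not_le.2 h4)]
      rw [Fin.predAbove_of_castSucc_lt _ _ h4, Fin.pred_succ]
  · rintro ⟨i, j⟩ -
    by_cases h : j ≤ i.castSucc
    · obtain ⟨a, rfl, hai, h2, -⟩ := A010_case2 j i h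
      have h4 : a.castSucc < i.succ := by
        show (a : ℕ) < (i.succ : ℕ)
        rw [Fin.val_succ]
        exact Nat.lt_succ_of_le hai
      simp only [if_pos h, h2]
      rw [Fin.predAbove_of_castSucc_lt _ _ h4, Fin.pred_succ, Fin.succAbove_of_castSucc_lt _ _ h4]
    · obtain ⟨a, rfl, hia, h2, -⟩ := A010_case1 j i (not_le.1 h)
      have h4 : i.castSucc ≤ a.castSucc := hia
      simp only [if_neg h, h2]
      rw [Fin.predAbove_of_le_castSucc _ _ h4, Fin.castPred_castSucc,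
        Fin.succAbove_of_le_castSucc _ _ h4]
  · rintro ⟨i, k⟩ -
    by_cases h : k.castSucc < i
    · obtain ⟨a, rfl, hka, h2, h3⟩ := A010_case1 i k h
      have h4 : k.castSucc ≤ a.castSucc := hka
      simp only [h2, h3, if_pos h4]
      rw [Fin.succAbove_of_castSucc_lt _ _ (by exact h)]
    · obtain ⟨a, rfl, hak, h2, h3⟩ := A010_case2 i k (not_lt.1 h)
      have h4 : a.castSucc < k.succ := by
        show (a : ℕ) < (k.succ : ℕ)
        rw [Fin.val_succ]
        exact Nat.lt_succ_of_le hak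
      simp only [h2, h3, if_neg (not_le.2 h4)]
      rw [Fin.succAbove_of_le_castSucc _ _ (le_of_lt (by exact h4))]

private theorem A010_dT_zero {P Q : SV} (H : LHpy P Q) (z : P.V 0) :
    Q.d 0 (A010_T H 0 z) = H.app 0 (cst 0) z + H.app 0 (cst 1) z := by
  rw [A010_dT, ← A010_diag H 0 z]
  simp only [Fin.sum_univ_succ (n := 1), Fin.sum_univ_succ (n := 0), Fin.sum_univ_zero, add_zero]
  rfl

private theorem A010_dT_succ {P Q : SV} (H : LHpy P Q) (n : ℕ) (z : P.V (n + 1)) :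
    Q.d (n + 1) (A010_T H (n + 1) z) =
      H.app (n + 1) (cst 0) z + H.app (n + 1) (cst 1) z + A010_T H n (P.d n z) := by
  rw [A010_dT, A010_split, A010_diag H (n + 1) z]
  congr 1
  rw [A010_T_apply]
  refine Finset.sum_congr rfl fun i _ => ?_
  rw [SV.d, LinearMap.sum_apply, map_sum, map_sum]
  refine Finset.sum_congr rfl fun j _ => ?_
  rw [P.act_comp]
  by_cases h : j ≤ i.castSucc
  · rw [if_pos h, sgm_comp_dlt_of_le j i h, A010_cut_gt (n + 1) _ j.castSucc]
    · rw [Fin.val_succ]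
    · have h1 : (j : ℕ) ≤ (i : ℕ) := h
      show (j : ℕ) ≤ _
      rw [Fin.val_succ]
      omega
  · rw [if_neg h, sgm_comp_dlt_of_gt j i (not_le.1 h), A010_cut_le (n + 1) _ j.succ]
    · rfl
    · have h1 : (i : ℕ) < (j : ℕ) := not_le.1 h
      rw [Fin.val_succ]
      show (i : ℕ) + 1 ≤ _
      omega

theorem lprism {P Q : SV} (H : LHpy P Q) :
    ∃ T : ∀ n, P.V n →ₗ[ZMod 2] Q.V (n + 1),
      (∀ z : P.V 0, Q.d 0 (T 0 z) = H.app 0 (cst 0) z + H.app 0 (cst 1) z) ∧
      ∀ (n : ℕ) (z : P.V (n + 1)), Q.d (n + 1) (T (n + 1) z) =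
        H.app (n + 1) (cst 0) z + H.app (n + 1) (cst 1) z + T n (P.d n z) :=
  ⟨A010_T H, A010_dT_zero H, A010_dT_succ H⟩

/-- the linear homotopy of a homotopy -/
private noncomputable def A010_lin {P Y : SS} (H : Hom ((Del 1).prod P) Y) : LHpy (lin P) (lin Y) where
  app n a := Finsupp.lmapDomain (ZMod 2) (ZMod 2) (fun x => H.app n (a, x))
  nat {m n} f a x := by
    simp only [Finsupp.lmapDomain_apply]
    rw [← Finsupp.mapDomain_comp, ← Finsupp.mapDomain_comp]
    congr 1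
    funext y
    exact H.nat f (a, y)

private theorem A010_mapDomain_supp {P Q : SS} {m n : ℕ} (f : P.S m → Q.S n) (A : Sub P) (B : Sub Q)
    (hf : ∀ x ∈ A.car m, f x ∈ B.car n) (z : Ch P m) (hz : SuppIn A z) :
    SuppIn B (z.mapDomain f : Ch Q n) := by
  classical
  intro y hy
  obtain ⟨x, hx, rfl⟩ := Finset.mem_image.1 (Finsupp.mapDomain_support hy)
  exact hf x (hz x hx)

theorem prism {P Y : SS} (H : Hom ((Del 1).prod P) Y) :
    ∃ T : ∀ n, Ch P n →ₗ[ZMod 2] Ch Y (n + 1),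
      (∀ z : Ch P 0, dif (T 0 z) = z.mapDomain (fun x => H.app 0 (cst 0, x)) +
        z.mapDomain (fun x => H.app 0 (cst 1, x))) ∧
      (∀ (n : ℕ) (z : Ch P (n + 1)), dif (T (n + 1) z) =
        z.mapDomain (fun x => H.app (n + 1) (cst 0, x)) +
        z.mapDomain (fun x => H.app (n + 1) (cst 1, x)) + T n (dif z)) ∧
      ∀ (A : Sub P) (B : Sub Y), (∀ n a, ∀ x ∈ A.car n, H.app n (a, x) ∈ B.car n) →
        ∀ (n : ℕ) (z : Ch P n), SuppIn A z → SuppIn B (T n z) := by
  refine ⟨A010_T (A010_lin H), ?_, ?_, ?_⟩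
  · intro z
    rw [← lin_d]
    exact A010_dT_zero (A010_lin H) z
  · intro n z
    rw [← lin_d, ← lin_d]
    exact A010_dT_succ (A010_lin H) n z
  · intro A B hAB n z hz
    rw [A010_T_apply, suppIn_iff]
    refine Submodule.sum_mem _ fun i _ => ?_
    rw [← suppIn_iff]
    refine A010_mapDomain_supp _ A B (fun x hx => hAB _ _ x hx) _ ?_
    exact A010_mapDomain_supp _ A A (fun x hx => A.closed _ hx) _ hz

end MM
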