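import Pool.Agent.Lib_MP_33f7bb_d.A006
import Pool.Agent.Lib_MP_33f7bb_d.A010

/-!
# A0-09: linear homotopies and homology; maps realising given maps in homology

`lhtp_iff`: `→` prism formula (`lprism`).  `←`: `extL` for `D n = (Mo n 1 →₀ P n)` (the free vector
space on the simplices of `Δ^1` tensor `P`), `C` = chains supported on the two constant simplices.
For `z ∈ D (n+1)` with `d z = (c_0, c_1) ∈ C` the image of `z` under `D → P` (sum over all simplices of
`Δ^1`) has boundary `c_0 + c_1`; `f c_0 + g c_1 = f (c_0 + c_1) + (f c_1 + g c_1)`; here `c_1` is a cycle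
of `P`: for `n ≥ 1` because `d d z = 0`, component at the constant simplex `1`.

`exists_hom`: choose cycles `z_i ∈ NM` representing a basis of `H n P` (`exists_moore`), a complement of
the cycles in the normalised complex, and define a chain map on normalised complexes: `N P n =
B_n ⊕ H_n ⊕ T_n` with `δ_0 : T_(n+1) ≅ B_n`; send `z_i` to a Moore cycle representing `φ [z_i]`, and `T`
and `B` to 0.  Apply `dk_exists`.
-/

namespace MM

private theorem A009_d {P Q : SV} (f : SVHom P Q) (n : ℕ) (z : P.V (n + 1)) :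
    f.app n (P.d n z) = Q.d n (f.app (n + 1) z) := by
  unfold SV.d
  rw [LinearMap.sum_apply, LinearMap.sum_apply, map_sum]
  exact Finset.sum_congr rfl fun i _ => f.nat _ _

private theorem A009_ne (n : ℕ) : (cst 0 : Mo n 1) ≠ cst 1 := by
  intro h
  have h1 := congrArg (fun a : Mo n 1 => a 0) h
  have h2 : (0 : Fin 2) = 1 := h1
  exact absurd h2 (by decide)

private noncomputable def A009_act (P : SV) {m n : ℕ} (f : Mo m n) :
    (Mo n 1 →₀ P.V n) →ₗ[ZMod 2] (Mo m 1 →₀ P.V m) :=
  (Finsupp.lmapDomain (P.V m) (ZMod 2) (fun a : Mo n 1 => a.comp f)) ∘ₗ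
    (Finsupp.mapRange.linearMap (P.act f))

private theorem A009_act_single (P : SV) {m n : ℕ} (f : Mo m n) (a : Mo n 1) (x : P.V n) :
    A009_act P f (Finsupp.single a x) = Finsupp.single (a.comp f) (P.act f x) := by
  unfold A009_act
  rw [LinearMap.comp_apply, Finsupp.mapRange.linearMap_apply, Finsupp.mapRange_single,
    Finsupp.lmapDomain_apply, Finsupp.mapDomain_single]

/-- chains of `Δ^1` tensor `P` -/
private noncomputable def A009_D (P : SV) : SV where
  V n := Mo n 1 →₀ P.V n
  act f := A009_act P f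
  act_id {n} x := by
    induction x using Finsupp.induction_linear with
    | zero => rw [map_zero]
    | add x y hx hy => rw [map_add, hx, hy]
    | single a x =>
      rw [A009_act_single, P.act_id]
      rfl
  act_comp f g x := by
    induction x using Finsupp.induction_linear with
    | zero => rw [map_zero, map_zero, map_zero]
    | add x y hx hy => rw [map_add, map_add, map_add, hx, hy]
    | single a x =>
      rw [A009_act_single, A009_act_single, A009_act_single, P.act_comp]
      rfl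

private noncomputable def A009_sg (P : SV) (n : ℕ) (a : Mo n 1) : P.V n →ₗ[ZMod 2] (A009_D P).V n :=
  Finsupp.lsingle a

private noncomputable def A009_ev (P : SV) (n : ℕ) (a : Mo n 1) : (A009_D P).V n →ₗ[ZMod 2] P.V n :=
  Finsupp.lapply a

private theorem A009_ev_same (P : SV) (n : ℕ) (a : Mo n 1) (x : P.V n) :
    A009_ev P n a (A009_sg P n a x) = x := by
  show (Finsupp.single a x) a = x
  exact Finsupp.single_eq_same

private theorem A009_ev_ne (P : SV) (n : ℕ) (a b : Mo n 1) (hab : a ≠ b) (x : P.V n) :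
    A009_ev P n b (A009_sg P n a x) = 0 := by
  show (Finsupp.single a x) b = 0
  exact Finsupp.single_eq_of_ne hab.symm

private theorem A009_ev1 (P : SV) (n : ℕ) (x : P.V n) :
    A009_ev P n (cst 1) (A009_sg P n (cst 0) x) = 0 := A009_ev_ne P n _ _ (A009_ne n) x

private theorem A009_ev0 (P : SV) (n : ℕ) (x : P.V n) :
    A009_ev P n (cst 0) (A009_sg P n (cst 1) x) = 0 := A009_ev_ne P n _ _ (A009_ne n).symm x

private theorem A009_act_sg (P : SV) {m n : ℕ} (f : Mo m n) (a : Mo n 1) (x : P.V n) :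
    (A009_D P).act f (A009_sg P n a x) = A009_sg P m (a.comp f) (P.act f x) :=
  A009_act_single P f a x

private theorem A009_d_sg (P : SV) (n : ℕ) (i : Fin 2) (x : P.V (n + 1)) :
    (A009_D P).d n (A009_sg P (n + 1) (cst i) x) = A009_sg P n (cst i) (P.d n x) := by
  unfold SV.d
  rw [LinearMap.sum_apply, LinearMap.sum_apply, map_sum]
  refine Finset.sum_congr rfl fun j _ => ?_
  rw [A009_act_sg]
  rfl

/-- the subobject of the two ends -/
private noncomputable def A009_C (P : SV) : SubV (A009_D P) where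
  car n := LinearMap.range (A009_sg P n (cst 0)) ⊔ LinearMap.range (A009_sg P n (cst 1))
  closed {m n} f x hx := by
    rw [Submodule.mem_sup] at hx ⊢
    obtain ⟨y, ⟨u, rfl⟩, z, ⟨v, rfl⟩, rfl⟩ := hx
    refine ⟨A009_sg P m (cst 0) (P.act f u), ⟨_, rfl⟩, A009_sg P m (cst 1) (P.act f v), ⟨_, rfl⟩, ?_⟩
    rw [map_add, A009_act_sg, A009_act_sg]
    rfl

private theorem A009_C_eq (P : SV) (n : ℕ) {x : (A009_D P).V n} (hx : x ∈ (A009_C P).car n) :
    x = A009_sg P n (cst 0) (A009_ev P n (cst 0) x) + A009_sg P n (cst 1) (A009_ev P n (cst 1) x) := by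
  have hx' : x ∈ LinearMap.range (A009_sg P n (cst 0)) ⊔ LinearMap.range (A009_sg P n (cst 1)) := hx
  rw [Submodule.mem_sup] at hx'
  obtain ⟨y, ⟨u, rfl⟩, z, ⟨v, rfl⟩, rfl⟩ := hx'
  simp only [map_add, A009_ev_same, A009_ev1, A009_ev0, add_zero, zero_add]

private theorem A009_sg_mem (P : SV) (n : ℕ) (u v : P.V n) :
    A009_sg P n (cst 0) u + A009_sg P n (cst 1) v ∈ (A009_C P).car n :=
  Submodule.mem_sup.2 ⟨_, ⟨u, rfl⟩, _, ⟨v, rfl⟩, rfl⟩

/-- the map on the two ends -/
private noncomputable def A009_f {P Q : SV} (f g : SVHom P Q) : SVHom (A009_C P).sv Q where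
  app n := (f.app n ∘ₗ A009_ev P n (cst 0) + g.app n ∘ₗ A009_ev P n (cst 1)) ∘ₗ
    ((A009_C P).car n).subtype
  nat {m n} φ x := by
    show f.app m (A009_ev P m (cst 0) ((A009_D P).act φ x.1)) +
      g.app m (A009_ev P m (cst 1) ((A009_D P).act φ x.1)) =
      Q.act φ (f.app n (A009_ev P n (cst 0) x.1) + g.app n (A009_ev P n (cst 1) x.1))
    have h1 := A009_C_eq P n x.2
    set u := A009_ev P n (cst 0) x.1
    set v := A009_ev P n (cst 1) x.1
    rw [h1]
    have h2 : (cst 0 : Mo n 1).comp φ = cst 0 := rfl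
    have h3 : (cst 1 : Mo n 1).comp φ = cst 1 := rfl
    simp only [map_add, A009_act_sg, h2, h3, A009_ev_same, A009_ev1, A009_ev0, add_zero, zero_add,
      f.nat, g.nat]

/-- sum over all simplices of `Δ^1` -/
private noncomputable def A009_S (P : SV) : SVHom (A009_D P) P where
  app n := Finsupp.lsum ℕ (fun _ : Mo n 1 => (LinearMap.id : P.V n →ₗ[ZMod 2] P.V n))
  nat {m n} φ x := by
    have key : ∀ x : Mo n 1 →₀ P.V n,
        Finsupp.lsum ℕ (fun _ : Mo m 1 => (LinearMap.id : P.V m →ₗ[ZMod 2] P.V m))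
          (A009_act P φ x) =
        P.act φ (Finsupp.lsum ℕ (fun _ : Mo n 1 => (LinearMap.id : P.V n →ₗ[ZMod 2] P.V n)) x) := by
      intro x
      induction x using Finsupp.induction_linear with
      | zero => simp only [map_zero]
      | add x y hx hy => simp only [map_add, hx, hy]
      | single a x =>
        rw [A009_act_single, Finsupp.lsum_single, Finsupp.lsum_single]
        rfl
    exact key x

private theorem A009_S_sg (P : SV) (n : ℕ) (a : Mo n 1) (x : P.V n) :
    (A009_S P).app n (A009_sg P n a x) = x := by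
  show Finsupp.lsum ℕ (fun _ : Mo n 1 => (LinearMap.id : P.V n →ₗ[ZMod 2] P.V n))
    (Finsupp.single a x) = x
  rw [Finsupp.lsum_single]
  rfl

theorem lhtp_iff {P Q : SV} (f g : SVHom P Q) :
    LHtp f g ↔ ∀ (n : ℕ), ∀ z ∈ P.Z n, f.app n z + g.app n z ∈ Q.B n := by
  constructor
  · rintro ⟨H, hf, hg⟩ n z hz
    obtain ⟨T, hT0, hT⟩ := lprism H
    cases n with
    | zero =>
      refine ⟨T 0 z, ?_⟩
      rw [hT0, hf, hg]
    | succ n =>
      refine ⟨T (n + 1) z, ?_⟩
      have hz' : P.d n z = 0 := hz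
      rw [hT, hf, hg, hz', map_zero, add_zero]
  · intro h
    obtain ⟨G, hG⟩ := extL (A009_C P) (A009_f f g) (by
      intro n z hz
      set c0 := A009_ev P n (cst 0) ((A009_D P).d n z) with hc0
      set c1 := A009_ev P n (cst 1) ((A009_D P).d n z) with hc1
      have h1 : (A009_D P).d n z = A009_sg P n (cst 0) c0 + A009_sg P n (cst 1) c1 :=
        A009_C_eq P n hz
      have h2 : P.d n ((A009_S P).app (n + 1) z) = c0 + c1 := by
        rw [← A009_d, h1, map_add, A009_S_sg, A009_S_sg]
      have h3 : c1 ∈ P.Z n := by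
        cases n with
        | zero => trivial
        | succ n =>
          have h4 := SV.d_d (A009_D P) z
          rw [h1, map_add, A009_d_sg, A009_d_sg] at h4
          have h5 := congrArg (A009_ev P n (cst 1)) h4
          rw [map_add, A009_ev_same, A009_ev_ne P n _ _ (A009_ne n), map_zero, zero_add] at h5
          exact h5
      have h6 : (A009_f f g).app n ⟨(A009_D P).d n z, hz⟩ = f.app n c0 + g.app n c1 := rfl
      rw [h6]
      have h7 : f.app n c0 + g.app n c1 = f.app n (c0 + c1) + (f.app n c1 + g.app n c1) := by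
        rw [map_add]
        have h8 := two_eq_zero' (f.app n c1)
        calc f.app n c0 + g.app n c1 = f.app n c0 + (f.app n c1 + f.app n c1) + g.app n c1 := by
              rw [h8, add_zero]
          _ = _ := by abel
      rw [h7]
      refine Submodule.add_mem _ ?_ (h n c1 h3)
      rw [← h2, A009_d]
      exact ⟨_, rfl⟩)
    have h0 : ∀ n (x : P.V n), A009_sg P n (cst 0) x ∈ (A009_C P).car n := fun n x => by
      have := A009_sg_mem P n x 0
      rwa [map_zero, add_zero] at this
    have h1 : ∀ n (x : P.V n), A009_sg P n (cst 1) x ∈ (A009_C P).car n := fun n x => by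
      have := A009_sg_mem P n 0 x
      rwa [map_zero, zero_add] at this
    refine ⟨⟨fun n a => G.app n ∘ₗ A009_sg P n a, ?_⟩, ?_, ?_⟩
    · intro m n φ a x
      show G.app m (A009_sg P m (a.comp φ) (P.act φ x)) = Q.act φ (G.app n (A009_sg P n a x))
      rw [← A009_act_sg, G.nat]
    · intro n x
      show G.app n (A009_sg P n (cst 0) x) = f.app n x
      rw [hG n ⟨_, h0 n x⟩]
      show f.app n (A009_ev P n (cst 0) (A009_sg P n (cst 0) x)) +
        g.app n (A009_ev P n (cst 1) (A009_sg P n (cst 0) x)) = f.app n x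
      rw [A009_ev_same, A009_ev_ne P n _ _ (A009_ne n), map_zero, add_zero]
    · intro n x
      show G.app n (A009_sg P n (cst 1) x) = g.app n x
      rw [hG n ⟨_, h1 n x⟩]
      show f.app n (A009_ev P n (cst 0) (A009_sg P n (cst 1) x)) +
        g.app n (A009_ev P n (cst 1) (A009_sg P n (cst 1) x)) = g.app n x
      rw [A009_ev_same, A009_ev_ne P n _ _ (A009_ne n).symm, map_zero, zero_add]

theorem LHtp.trans {P Q : SV} {f g h : SVHom P Q} (h1 : LHtp f g) (h2 : LHtp g h) :
    LHtp f h := by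
  rw [lhtp_iff] at h1 h2 ⊢
  intro n z hz
  have h3 := Submodule.add_mem _ (h1 n z hz) (h2 n z hz)
  have h4 := two_eq_zero' (g.app n z)
  have h5 : f.app n z + g.app n z + (g.app n z + h.app n z) = f.app n z + h.app n z := by
    calc f.app n z + g.app n z + (g.app n z + h.app n z)
        = f.app n z + h.app n z + (g.app n z + g.app n z) := by abel
      _ = _ := by rw [h4, add_zero]
  rwa [h5] at h3

private theorem A009_mz {Q : SV} {n : ℕ} {z : Q.V n} (hz : Q.Moore z) : z ∈ Q.NM n := by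
  cases n with
  | zero => trivial
  | succ n =>
    rw [mem_nm_succ]
    intro i
    exact (moore_iff z).1 hz i.succ

/-- Moore cycles -/
private def A009_M (Q : SV) (n : ℕ) : Submodule (ZMod 2) (Q.V n) where
  carrier := {z | Q.Moore z}
  add_mem' {a b} ha hb := by
    intro m f hf
    rw [map_add, ha m f hf, hb m f hf, add_zero]
  zero_mem' := by
    intro m f hf
    rw [map_zero]
  smul_mem' c x hx := by
    intro m f hf
    rw [map_smul, hx m f hf, smul_zero]

private theorem A009_f_mem {P Q : SV} (f : SVHom P Q) {n : ℕ} {z : P.V n} (hz : z ∈ P.Z n) :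
    f.app n z ∈ Q.Z n := by
  cases n with
  | zero => trivial
  | succ n =>
    have h1 : P.d n z = 0 := hz
    show Q.d n (f.app (n + 1) z) = 0
    rw [← A009_d, h1, map_zero]

private theorem A009_cls_eq {P : SV} {n : ℕ} {z z' : P.V n} (hz : z ∈ P.Z n) (hz' : z' ∈ P.Z n)
    (w : P.V (n + 1)) (h : z' = z + P.d n w) : P.cls z' hz' = P.cls z hz := by
  unfold SV.cls
  rw [Submodule.Quotient.eq]
  show z' - z ∈ P.B n
  rw [h, add_sub_cancel_left]
  exact ⟨w, rfl⟩

theorem exists_hom {P Q : SV} (φ : ∀ n, P.H n →ₗ[ZMod 2] Q.H n) :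
    ∃ f : SVHom P Q, ∀ n (z : P.V n) (hz : z ∈ P.Z n),
      ∃ hfz : f.app n z ∈ Q.Z n, Q.cls (f.app n z) hfz = φ n (P.cls z hz) := by
  classical
  -- the class map on normalised cycles, extended to all normalised elements
  have hr : ∀ n, ∃ r : P.NM n →ₗ[ZMod 2] P.H n, ∀ (z : P.V n) (hn : z ∈ P.NM n) (hz : z ∈ P.Z n),
      r ⟨z, hn⟩ = P.cls z hz := by
    intro n
    set ZN : Submodule (ZMod 2) (P.NM n) := Submodule.comap (P.NM n).subtype (P.Z n) with hZN
    obtain ⟨r, hr⟩ := LinearMap.exists_extend (p := ZN)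
      ((Submodule.mkQ (Submodule.comap (P.Z n).subtype (P.B n))) ∘ₗ
        (LinearMap.codRestrict (P.Z n) ((P.NM n).subtype ∘ₗ ZN.subtype) (fun x => x.2)))
    refine ⟨r, fun z hn hz => ?_⟩
    have h1 := LinearMap.congr_fun hr ⟨⟨z, hn⟩, hz⟩
    exact h1
  choose r hr using hr
  -- Moore representatives
  have hs : ∀ n, ∃ s : Q.H n →ₗ[ZMod 2] A009_M Q n, ∀ (c : Q.H n) (hz : (s c).1 ∈ Q.Z n),
      Q.cls (s c).1 hz = c := by
    intro n
    set q : A009_M Q n →ₗ[ZMod 2] Q.H n :=
      (Submodule.mkQ (Submodule.comap (Q.Z n).subtype (Q.B n))) ∘ₗ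
        (LinearMap.codRestrict (Q.Z n) (A009_M Q n).subtype (fun x => Moore.mem_Z x.2)) with hq
    have hq1 : LinearMap.range q = ⊤ := by
      rw [LinearMap.range_eq_top]
      intro c
      obtain ⟨⟨z, hz⟩, rfl⟩ := Submodule.Quotient.mk_surjective _ c
      obtain ⟨w, hw⟩ := exists_moore Q z hz
      refine ⟨⟨z + Q.d n w, hw⟩, ?_⟩
      exact A009_cls_eq hz (Moore.mem_Z hw) w rfl
    obtain ⟨s, hs⟩ := LinearMap.exists_rightInverse_of_surjective q hq1
    refine ⟨s, fun c hz => ?_⟩
    have h1 := LinearMap.congr_fun hs c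
    exact h1
  choose s hs using hs
  set ψ : ∀ n, P.NM n →ₗ[ZMod 2] Q.NM n := fun n =>
    (Submodule.inclusion (fun z (hz : z ∈ A009_M Q n) => A009_mz hz)) ∘ₗ
      (s n ∘ₗ (φ n ∘ₗ r n)) with hψ
  have hψv : ∀ n (x : P.NM n), ((ψ n x : Q.NM n) : Q.V n) = (s n (φ n (r n x))).1 := fun n x => rfl
  obtain ⟨f, hf⟩ := dk_exists ψ (by
    intro n x
    rw [hψv, hψv]
    have h1 : r n ⟨P.act (dlt 0) x.1, nm_face x.2⟩ = 0 := by
      have h2 : P.act (dlt 0) x.1 ∈ P.Z n := by
        rw [← d_nm x.2]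
        cases n with
        | zero => trivial
        | succ n => exact SV.d_d P x.1
      rw [hr n _ (nm_face x.2) h2]
      have h3 : P.cls (P.act (dlt 0) x.1) h2 = P.cls (0 : P.V n) (Submodule.zero_mem _) :=
        A009_cls_eq _ h2 x.1 (by rw [zero_add, d_nm x.2])
      rw [h3]
      rfl
    rw [h1, map_zero, map_zero]
    have h4 : Q.Moore (s (n + 1) (φ (n + 1) (r (n + 1) x))).1 :=
      (s (n + 1) (φ (n + 1) (r (n + 1) x))).2
    rw [(moore_iff _).1 h4 0]
    rfl)
  refine ⟨f, fun n z hz => ⟨A009_f_mem f hz, ?_⟩⟩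
  obtain ⟨w, hw⟩ := exists_moore P z hz
  have hwZ : z + P.d n w ∈ P.Z n := Moore.mem_Z hw
  have hwN : z + P.d n w ∈ P.NM n := A009_mz hw
  have h1 : P.cls (z + P.d n w) hwZ = P.cls z hz := A009_cls_eq hz hwZ w rfl
  have h2 : f.app n (z + P.d n w) = (s n (φ n (r n ⟨z + P.d n w, hwN⟩))).1 := by
    rw [← hψv]
    exact hf n ⟨z + P.d n w, hwN⟩
  have h3 : Q.cls (f.app n (z + P.d n w)) (A009_f_mem f hwZ) = Q.cls (f.app n z) (A009_f_mem f hz) :=
    A009_cls_eq _ _ (f.app (n + 1) w) (by rw [map_add, A009_d])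
  rw [← h3, ← h1, ← hr n _ hwN hwZ]
  have h4 : (s n (φ n (r n ⟨z + P.d n w, hwN⟩))).1 ∈ Q.Z n := by
    rw [← h2]
    exact A009_f_mem f hwZ
  have h5 := hs n (φ n (r n ⟨z + P.d n w, hwN⟩)) h4
  rw [← h5]
  congr 1

end MM
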