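import Pool.Agent.Lib_MP_33f7bb_d.A006

/-!
# A0-11: highly connected simplicial vector spaces are homotopy equivalent to ones which vanish in
low levels

`extL` for `D n = (Mo n 1 →₀ Q n)` and `C = {0} ⊗ Q + {1} ⊗ S`, `S = sk_m Q` = the sub simplicial vector
space generated by the levels `≤ m` (`S n` = span of all `act s y`, `s : Mo n k`, `k ≤ m`), with `f` =
identity on `{0} ⊗ Q` and `0` on `{1} ⊗ S`.  Let `z ∈ D (n+1)`, `d z = (c_0, c_1)`, `c_0 ∈ Q n`, `c_1 ∈ S n`.
The sum over all simplices of `Δ^1` of the components of `z` has boundary `c_0 + c_1`, so it suffices that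
`c_1` is a boundary of `Q`; `c_1` is a cycle (`d d z = 0`, component at the constant simplex `1`; for
`n = 0` nothing to show).  If `n ≤ m` use the hypothesis.  If `n > m`: `c_1 ∈ S n` is a cycle of the
simplicial vector space `S`, all of whose elements of level `n` are degenerate; by `exists_moore` (in `S`)
it is homologous to a Moore cycle in `S n`, which is a sum of degenerate elements with all faces zero,
hence 0 (a sum of degenerate elements all of whose faces vanish is 0: `NM n ∩ degenerate = 0`, Dold-Kan).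
-/

namespace MM

/-- faces indexed by natural numbers (zero out of range) -/
private noncomputable def fcA011 (W : SV) (n j : ℕ) : W.V (n + 1) →ₗ[ZMod 2] W.V n :=
  if h : j < n + 2 then W.act (dlt ⟨j, h⟩) else 0

/-- degeneracies indexed by natural numbers (zero out of range) -/
private noncomputable def dgA011 (W : SV) (n k : ℕ) : W.V n →ₗ[ZMod 2] W.V (n + 1) :=
  if h : k < n + 1 then W.act (sgm ⟨k, h⟩) else 0

private theorem fcA011_lt (W : SV) {n j : ℕ} (h : j < n + 2) :
    fcA011 W n j = W.act (dlt ⟨j, h⟩) := dif_pos h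

private theorem dgA011_lt (W : SV) {n k : ℕ} (h : k < n + 1) :
    dgA011 W n k = W.act (sgm ⟨k, h⟩) := dif_pos h

private theorem dgA011_ge (W : SV) {n k : ℕ} (h : n + 1 ≤ k) : dgA011 W n k = 0 :=
  dif_neg (by omega)

private theorem fc_dgA011_le (W : SV) {n j k : ℕ} (h : j ≤ k) (x : W.V (n + 1)) :
    fcA011 W (n + 1) j (dgA011 W (n + 1) (k + 1) x) = dgA011 W n k (fcA011 W n j x) := by
  by_cases hk : k < n + 1
  · rw [dgA011_lt W hk, fcA011_lt W (show j < n + 2 by omega),
      dgA011_lt W (show k + 1 < n + 1 + 1 by omega), fcA011_lt W (show j < n + 1 + 2 by omega),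
      W.act_comp, W.act_comp]
    exact congrArg (fun f => W.act f x)
      (sgm_comp_dlt_of_le (⟨j, by omega⟩ : Fin (n + 2)) ⟨k, hk⟩ h)
  · rw [dgA011_ge W (show n + 1 ≤ k by omega), dgA011_ge W (show n + 1 + 1 ≤ k + 1 by omega)]
    simp

private theorem fc_dgA011_eq (W : SV) {n k : ℕ} (h : k ≤ n) (x : W.V n) :
    fcA011 W n k (dgA011 W n k x) = x := by
  rw [fcA011_lt W (show k < n + 2 by omega), dgA011_lt W (show k < n + 1 by omega), W.act_comp]
  exact (congrArg (fun f => W.act f x)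
    (sgm_comp_dlt_castSucc (⟨k, by omega⟩ : Fin (n + 1)))).trans (W.act_id x)

private theorem dg_dgA011 (W : SV) {n i j : ℕ} (h : i ≤ j) (hj : j ≤ n) (x : W.V n) :
    dgA011 W (n + 1) i (dgA011 W n j x) = dgA011 W (n + 1) (j + 1) (dgA011 W n i x) := by
  rw [dgA011_lt W (show i < n + 1 + 1 by omega), dgA011_lt W (show j < n + 1 by omega),
    dgA011_lt W (show j + 1 < n + 1 + 1 by omega), dgA011_lt W (show i < n + 1 by omega),
    W.act_comp, W.act_comp]
  exact congrArg (fun f => W.act f x)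
    (sgm_comp_sgm (⟨i, by omega⟩ : Fin (n + 1)) ⟨j, by omega⟩ h)

private theorem md_stepA011 (W : SV) {n : ℕ} (x : W.V (n + 1))
    (hx : ∀ j, j ≤ n → fcA011 W n j x = 0) :
    ∀ (c k : ℕ) (y : ℕ → W.V n), k + c = n + 1 →
      x = ∑ i ∈ Finset.Ico k (n + 1), dgA011 W n i (y i) → x = 0 := by
  intro c
  induction c with
  | zero =>
    intro k y hk he
    rw [he, Finset.Ico_eq_empty_of_le (by omega), Finset.sum_empty]
  | succ c ih =>
    intro k y hk he
    rw [Finset.sum_eq_sum_Ico_succ_bot (by omega)] at he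
    have hf := hx k (by omega)
    rw [he, map_add, fc_dgA011_eq W (by omega), map_sum] at hf
    cases n with
    | zero =>
      obtain rfl : k = 0 := by omega
      rw [Finset.Ico_eq_empty_of_le (by omega), Finset.sum_empty, add_zero] at hf he
      rw [he, hf, map_zero]
    | succ n =>
      have h1 : ∀ i ∈ Finset.Ico (k + 1) (n + 1 + 1),
          fcA011 W (n + 1) k (dgA011 W (n + 1) i (y i)) =
            dgA011 W n (i - 1) (fcA011 W n k (y i)) := by
        intro i hi
        rw [Finset.mem_Ico] at hi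
        obtain ⟨i', rfl⟩ : ∃ i', i = i' + 1 := ⟨i - 1, by omega⟩
        rw [Nat.add_sub_cancel]
        exact fc_dgA011_le W (by omega) _
      rw [Finset.sum_congr rfl h1] at hf
      have h2 : y k = ∑ i ∈ Finset.Ico (k + 1) (n + 1 + 1),
          dgA011 W n (i - 1) (fcA011 W n k (y i)) := by
        rw [← sub_eq_zero, sub_eq']
        exact hf
      refine ih (k + 1) (fun i => dgA011 W n k (fcA011 W n k (y i)) + y i) (by omega) ?_
      have h3 : dgA011 W (n + 1) k (y k) = ∑ i ∈ Finset.Ico (k + 1) (n + 1 + 1),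
          dgA011 W (n + 1) i (dgA011 W n k (fcA011 W n k (y i))) := by
        rw [h2, map_sum]
        refine Finset.sum_congr rfl fun i hi => ?_
        rw [Finset.mem_Ico] at hi
        obtain ⟨i', rfl⟩ : ∃ i', i = i' + 1 := ⟨i - 1, by omega⟩
        rw [Nat.add_sub_cancel]
        exact dg_dgA011 W (by omega) (by omega) _
      rw [he, h3, ← Finset.sum_add_distrib]
      exact Finset.sum_congr rfl fun i _ => (map_add _ _ _).symm

/-- a sum of degenerate elements all of whose faces vanish is zero -/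
theorem moore_degenerate (W : SV) {n : ℕ} (y : Fin (n + 1) → W.V n)
    (h : W.Moore (∑ i, W.act (sgm i) (y i))) : ∑ i, W.act (sgm i) (y i) = 0 := by
  refine md_stepA011 W _ (fun j hj => ?_) (n + 1) 0
    (fun i => if hi : i < n + 1 then y ⟨i, hi⟩ else 0) (by omega) ?_
  · rw [fcA011_lt W (show j < n + 2 by omega)]
    exact (moore_iff _).1 h _
  · rw [← Finset.range_eq_Ico, Finset.sum_range]
    refine Finset.sum_congr rfl fun i _ => ?_
    rw [dgA011_lt W i.2, dif_pos i.2]

/-- `D n = (Mo n 1 →₀ Q n)` -/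
private noncomputable abbrev DA011 (Q : SV) : SV where
  V n := Mo n 1 →₀ Q.V n
  act {m n} f := Finsupp.lsum (ZMod 2)
    (fun a : Mo n 1 => (Finsupp.lsingle (a.comp f)).comp (Q.act f))
  act_id {n} x := by
    induction x using Finsupp.induction_linear with
    | zero => exact map_zero _
    | add x y hx hy => rw [map_add, hx, hy]
    | single a x =>
      rw [Finsupp.lsum_single, LinearMap.comp_apply, Q.act_id]
      rfl
  act_comp {l m n} f g x := by
    induction x using Finsupp.induction_linear with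
    | zero => simp only [map_zero]
    | add x y hx hy => simp only [map_add, hx, hy]
    | single a x =>
      rw [Finsupp.lsum_single, Finsupp.lsum_single, LinearMap.comp_apply, LinearMap.comp_apply,
        Finsupp.lsingle_apply, Finsupp.lsum_single, LinearMap.comp_apply, Q.act_comp]
      rfl

private theorem DA011_single (Q : SV) {m n : ℕ} (f : Mo m n) (a : Mo n 1) (x : Q.V n) :
    (DA011 Q).act f (Finsupp.single a x : Mo n 1 →₀ Q.V n) =
      (Finsupp.single (a.comp f) (Q.act f x) : Mo m 1 →₀ Q.V m) := by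
  show Finsupp.lsum (ZMod 2) (fun a : Mo n 1 => (Finsupp.lsingle (a.comp f)).comp (Q.act f))
    (Finsupp.single a x) = _
  rw [Finsupp.lsum_single]
  rfl

/-- `sk_m Q` -/
private noncomputable def SA011 (Q : SV) (m : ℕ) : SubV Q where
  car n := Submodule.span (ZMod 2) {x : Q.V n | ∃ (k : ℕ) (s : Mo n k) (y : Q.V k),
    k ≤ m ∧ x = Q.act s y}
  closed {l n} f x hx := by
    induction hx using Submodule.span_induction with
    | mem x hx =>
      obtain ⟨k, s, y, hk, rfl⟩ := hx
      exact Submodule.subset_span ⟨k, s.comp f, y, hk, Q.act_comp f s y⟩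
    | zero => rw [map_zero]; exact Submodule.zero_mem _
    | add x y _ _ hx hy => rw [map_add]; exact Submodule.add_mem _ hx hy
    | smul c x _ hx => rw [map_smul]; exact Submodule.smul_mem _ c hx

private theorem SA011_low (Q : SV) {m n : ℕ} (h : n ≤ m) (x : Q.V n) :
    x ∈ (SA011 Q m).car n :=
  Submodule.subset_span ⟨n, OrderHom.id, x, h, (Q.act_id x).symm⟩

private theorem SA011_high (Q : SV) {m n : ℕ} (h : m ≤ n) {x : Q.V (n + 1)}
    (hx : x ∈ (SA011 Q m).car (n + 1)) :
    ∃ y : Fin (n + 1) → Q.V n, x = ∑ i, Q.act (sgm i) (y i) := by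
  have h0 : (SA011 Q m).car (n + 1) ≤
      LinearMap.range (∑ i : Fin (n + 1), (Q.act (sgm i)).comp (LinearMap.proj i) :
        (Fin (n + 1) → Q.V n) →ₗ[ZMod 2] Q.V (n + 1)) := by
    refine Submodule.span_le.2 ?_
    rintro _ ⟨k, s, y, hk, rfl⟩
    have hs : ¬ Function.Injective s := by
      intro hs
      have := Fintype.card_le_of_injective s hs
      simp only [Fintype.card_fin] at this
      omega
    obtain ⟨i, g, rfl⟩ := exists_sgm s hs
    refine ⟨Pi.single i (Q.act g y), ?_⟩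
    rw [LinearMap.sum_apply, Finset.sum_eq_single i]
    · rw [LinearMap.comp_apply, LinearMap.proj_apply, Pi.single_eq_same, Q.act_comp]
    · intro j _ hj
      rw [LinearMap.comp_apply, LinearMap.proj_apply, Pi.single_eq_of_ne hj, map_zero]
    · intro hi
      exact absurd (Finset.mem_univ i) hi
  obtain ⟨y, hy⟩ := h0 hx
  refine ⟨y, ?_⟩
  rw [← hy, LinearMap.sum_apply]
  rfl

private theorem cst_neA011 {n : ℕ} : (cst 1 : Mo n 1) ≠ cst 0 := by
  intro h
  have h1 : (1 : Fin 2) = 0 := congrArg (fun f : Mo n 1 => f 0) h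
  exact absurd h1 (by decide)

/-- `C = {0} ⊗ Q + {1} ⊗ S` -/
private noncomputable def CA011 (Q : SV) (m : ℕ) : SubV (DA011 Q) where
  car n := LinearMap.range (Finsupp.lsingle (cst 0 : Mo n 1) : Q.V n →ₗ[ZMod 2] Mo n 1 →₀ Q.V n) ⊔
    ((SA011 Q m).car n).map
      (Finsupp.lsingle (cst 1 : Mo n 1) : Q.V n →ₗ[ZMod 2] Mo n 1 →₀ Q.V n)
  closed {l n} f x hx := by
    obtain ⟨_, ⟨x, rfl⟩, _, ⟨y, hy, rfl⟩, rfl⟩ := Submodule.mem_sup.1 hx
    rw [map_add]
    refine Submodule.add_mem _ (Submodule.mem_sup_left ?_) (Submodule.mem_sup_right ?_)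
    · refine ⟨Q.act f x, ?_⟩
      exact (DA011_single Q f (cst 0) x).symm
    · refine ⟨Q.act f y, (SA011 Q m).closed f hy, ?_⟩
      exact (DA011_single Q f (cst 1) y).symm

private theorem CA011_mem {Q : SV} {m n : ℕ} {z : Mo n 1 →₀ Q.V n} (hz : z ∈ (CA011 Q m).car n) :
    z (cst 1) ∈ (SA011 Q m).car n ∧
      z = Finsupp.single (cst 0) (z (cst 0)) + Finsupp.single (cst 1) (z (cst 1)) := by
  obtain ⟨_, ⟨x, rfl⟩, _, ⟨y, hy, rfl⟩, rfl⟩ := Submodule.mem_sup.1 hz
  have e0 : ((Finsupp.lsingle (cst 0 : Mo n 1) : Q.V n →ₗ[ZMod 2] Mo n 1 →₀ Q.V n) x +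
      (Finsupp.lsingle (cst 1 : Mo n 1) : Q.V n →ₗ[ZMod 2] Mo n 1 →₀ Q.V n) y : Mo n 1 →₀ Q.V n)
        (cst 0) = x := by
    rw [Finsupp.add_apply, Finsupp.lsingle_apply, Finsupp.lsingle_apply, Finsupp.single_eq_same,
      Finsupp.single_eq_of_ne (Ne.symm cst_neA011), add_zero]
  have e1 : ((Finsupp.lsingle (cst 0 : Mo n 1) : Q.V n →ₗ[ZMod 2] Mo n 1 →₀ Q.V n) x +
      (Finsupp.lsingle (cst 1 : Mo n 1) : Q.V n →ₗ[ZMod 2] Mo n 1 →₀ Q.V n) y : Mo n 1 →₀ Q.V n)
        (cst 1) = y := by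
    rw [Finsupp.add_apply, Finsupp.lsingle_apply, Finsupp.lsingle_apply, Finsupp.single_eq_same,
      Finsupp.single_eq_of_ne cst_neA011, zero_add]
  rw [e0, e1]
  exact ⟨hy, rfl⟩

/-- the map `f`: the component at `cst 0` -/
private noncomputable def fA011 (Q : SV) (m : ℕ) : SVHom (CA011 Q m).sv Q where
  app n := (Finsupp.lapply (cst 0 : Mo n 1) : (Mo n 1 →₀ Q.V n) →ₗ[ZMod 2] Q.V n).comp
    ((CA011 Q m).car n).subtype
  nat {l n} f x := by
    obtain ⟨x, hx⟩ := x
    show ((DA011 Q).act f x : Mo l 1 →₀ Q.V l) (cst 0) = Q.act f (x (cst 0))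
    obtain ⟨-, h2⟩ := CA011_mem hx
    have h3 : (DA011 Q).act f x =
        ((Finsupp.single (cst 0) (Q.act f (x (cst 0))) +
          Finsupp.single (cst 1) (Q.act f (x (cst 1))) : Mo l 1 →₀ Q.V l)) := by
      conv_lhs => rw [h2]
      rw [map_add, DA011_single, DA011_single]
      rfl
    rw [h3, Finsupp.add_apply, Finsupp.single_eq_same,
      Finsupp.single_eq_of_ne (Ne.symm cst_neA011), add_zero]

/-- the sum of all components -/
private noncomputable def TA011 (Q : SV) : SVHom (DA011 Q) Q where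
  app n := Finsupp.lsum (ZMod 2) (fun _ : Mo n 1 => (LinearMap.id : Q.V n →ₗ[ZMod 2] Q.V n))
  nat {l n} f x := by
    induction x using Finsupp.induction_linear with
    | zero => simp only [map_zero]
    | add x y hx hy => simp only [map_add, hx, hy]
    | single a x =>
      rw [DA011_single, Finsupp.lsum_single, Finsupp.lsum_single]
      rfl

private theorem svhom_dA011 {A B : SV} (f : SVHom A B) {n : ℕ} (x : A.V (n + 1)) :
    f.app n (A.d n x) = B.d n (f.app (n + 1) x) := by
  rw [SV.d, SV.d, LinearMap.sum_apply, LinearMap.sum_apply, map_sum]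
  exact Finset.sum_congr rfl fun i _ => f.nat _ _

private theorem DA011_d (Q : SV) {n : ℕ} (a : Fin 2) (x : Q.V (n + 1)) :
    (DA011 Q).d n (Finsupp.single (cst a : Mo (n + 1) 1) x : Mo (n + 1) 1 →₀ Q.V (n + 1)) =
      (Finsupp.single (cst a : Mo n 1) (Q.d n x) : Mo n 1 →₀ Q.V n) := by
  rw [SV.d, LinearMap.sum_apply, SV.d, LinearMap.sum_apply]
  have h := map_sum (Finsupp.lsingle (cst a : Mo n 1) : Q.V n →ₗ[ZMod 2] Mo n 1 →₀ Q.V n)
    (fun i : Fin (n + 2) => Q.act (dlt i) x) Finset.univ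
  rw [Finsupp.lsingle_apply] at h
  rw [h]
  exact Finset.sum_congr rfl fun i _ => DA011_single Q (dlt i) (cst a) x

private theorem skA011 (Q : SV) (m : ℕ) (h : ∀ j ≤ m, ∀ z ∈ Q.Z j, z ∈ Q.B j) {n : ℕ}
    {c : Q.V n} (hc : c ∈ (SA011 Q m).car n) (hz : c ∈ Q.Z n) : c ∈ Q.B n := by
  by_cases hn : n ≤ m
  · exact h n hn c hz
  · cases n with
    | zero => exact absurd (Nat.zero_le m) hn
    | succ n =>
      have hd : ∀ {k : ℕ} (x : (SA011 Q m).sv.V (k + 1)),
          ((SA011 Q m).sv.d k x).1 = Q.d k x.1 := fun x => svhom_dA011 (SA011 Q m).incl x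
      have hz' : (SA011 Q m).sv.d n ⟨c, hc⟩ = 0 := Subtype.ext ((hd _).trans hz)
      obtain ⟨w, hw⟩ := exists_moore (SA011 Q m).sv (n := n + 1) ⟨c, hc⟩ hz'
      have he : (⟨c, hc⟩ + (SA011 Q m).sv.d (n + 1) w : (SA011 Q m).car (n + 1)).1 =
          c + Q.d (n + 1) w.1 := by
        rw [Submodule.coe_add, hd]
      obtain ⟨y, hy⟩ := SA011_high Q (show m ≤ n by omega)
        (⟨c, hc⟩ + (SA011 Q m).sv.d (n + 1) w : (SA011 Q m).car (n + 1)).2
      have h0 : Q.Moore (∑ i, Q.act (sgm i) (y i)) := by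
        rw [← hy]
        intro k f hf
        exact congrArg Subtype.val (hw k f hf)
      have h1 := moore_degenerate Q y h0
      rw [← hy, he] at h1
      refine ⟨w.1, ?_⟩
      rw [← sub_eq_zero, sub_eq']
      exact (add_comm _ _).trans h1

theorem lowcon (Q : SV) (m : ℕ) (h : ∀ j ≤ m, ∀ z ∈ Q.Z j, z ∈ Q.B j) :
    ∃ H : LHpy Q Q, (∀ n x, H.app n (cst 0) x = x) ∧
      ∀ j ≤ m, ∀ x, H.app j (cst 1) x = 0 := by
  have hext : ∀ (n : ℕ) (z : (DA011 Q).V (n + 1)) (hz : (DA011 Q).d n z ∈ (CA011 Q m).car n),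
      (fA011 Q m).app n ⟨(DA011 Q).d n z, hz⟩ ∈ Q.B n := by
    intro n z hz
    obtain ⟨h1, h2⟩ := CA011_mem hz
    -- the sum of the two components is a boundary
    have h3 : (TA011 Q).app n ((DA011 Q).d n z) =
        ((DA011 Q).d n z) (cst 0) + ((DA011 Q).d n z) (cst 1) := by
      conv_lhs => rw [h2]
      rw [map_add]
      show Finsupp.lsum (ZMod 2) (fun _ : Mo n 1 => (LinearMap.id : Q.V n →ₗ[ZMod 2] Q.V n))
          (Finsupp.single (cst 0) (((DA011 Q).d n z) (cst 0))) +
        Finsupp.lsum (ZMod 2) (fun _ : Mo n 1 => (LinearMap.id : Q.V n →ₗ[ZMod 2] Q.V n))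
          (Finsupp.single (cst 1) (((DA011 Q).d n z) (cst 1))) = _
      rw [Finsupp.lsum_single, Finsupp.lsum_single]
      rfl
    have h4 : ((DA011 Q).d n z) (cst 0) + ((DA011 Q).d n z) (cst 1) ∈ Q.B n := by
      rw [← h3, svhom_dA011]
      exact LinearMap.mem_range_self _ _
    -- the second component is a cycle
    have h5 : ((DA011 Q).d n z) (cst 1) ∈ Q.Z n := by
      cases n with
      | zero => exact Submodule.mem_top
      | succ n =>
        show Q.d n (((DA011 Q).d (n + 1) z) (cst 1)) = 0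
        have h6 := (DA011 Q).d_d z
        rw [h2, map_add, DA011_d, DA011_d] at h6
        have h7 := congrArg (fun u : Mo n 1 →₀ Q.V n => u (cst 1)) h6
        simp only [Finsupp.add_apply, Finsupp.single_eq_same] at h7
        rw [Finsupp.single_eq_of_ne cst_neA011, zero_add] at h7
        exact h7
    have h8 := skA011 Q m h h1 h5
    have h9 := Submodule.add_mem _ h4 h8
    rw [add_assoc, two_eq_zero', add_zero] at h9
    exact h9
  obtain ⟨g, hg⟩ := extL (CA011 Q m) (fA011 Q m) hext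
  have g0 : ∀ n (x : Q.V n),
      g.app n (Finsupp.single (cst 0 : Mo n 1) x : Mo n 1 →₀ Q.V n) = x := by
    intro n x
    have hx : (Finsupp.single (cst 0 : Mo n 1) x : Mo n 1 →₀ Q.V n) ∈ (CA011 Q m).car n :=
      Submodule.mem_sup_left ⟨x, rfl⟩
    rw [hg n ⟨_, hx⟩]
    show (Finsupp.single (cst 0 : Mo n 1) x : Mo n 1 →₀ Q.V n) (cst 0) = x
    rw [Finsupp.single_eq_same]
  have g1 : ∀ n, n ≤ m → ∀ (x : Q.V n),
      g.app n (Finsupp.single (cst 1 : Mo n 1) x : Mo n 1 →₀ Q.V n) = 0 := by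
    intro n hn x
    have hx : (Finsupp.single (cst 1 : Mo n 1) x : Mo n 1 →₀ Q.V n) ∈ (CA011 Q m).car n :=
      Submodule.mem_sup_right ⟨x, SA011_low Q hn x, rfl⟩
    rw [hg n ⟨_, hx⟩]
    show (Finsupp.single (cst 1 : Mo n 1) x : Mo n 1 →₀ Q.V n) (cst 0) = 0
    rw [Finsupp.single_eq_of_ne (Ne.symm cst_neA011)]
  refine ⟨⟨fun n a => (g.app n).comp (Finsupp.lsingle a), fun {l n} f a x => ?_⟩,
    fun n x => g0 n x, fun j hj x => g1 j hj x⟩
  show g.app l (Finsupp.single (a.comp f) (Q.act f x) : Mo l 1 →₀ Q.V l) =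
    Q.act f (g.app n (Finsupp.single a x : Mo n 1 →₀ Q.V n))
  rw [← g.nat, DA011_single]

end MM
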