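import Pool.Agent.Lib_MP_33f7bb_d.A001

/-!
# A0-12: the Leibniz rule for the shuffle cross product

`crs n x y = ∑ act a x ⊗ act b y` over all pairs of monotone maps `a : [n] → [p]`, `b : [n] → [q]` with
`a i + b i = i` for all `i` (and `p + q = n`), i.e. over the maximal chains of `[p] × [q]`.

`d (crs x y) = ∑_j ∑_(a,b) act (a ∘ δ_j) x ⊗ act (b ∘ δ_j) y`.  Fix `(a,b,j)`.
* `0 < j < n+1` and the steps `j-1 → j`, `j → j+1` of the chain go in different directions: there is
  exactly one other maximal chain `(a',b')` which differs from `(a,b)` only at `j`; the two terms are equal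
  (`a ∘ δ_j = a' ∘ δ_j`) and cancel.
* both steps increase `a` (or `j` is an end point of the chain and the adjacent step increases `a`):
  with `i = a j` the map `a ∘ δ_j` misses the value `i`: `a ∘ δ_j = δ_i ∘ a''`, `b ∘ δ_j = b''`, and
  `(a'', b'')` is a maximal chain of `[p-1] × [q]`; this is a bijection onto pairs (maximal chain, `i`): term of
  `crs n (d x) y`.
* symmetric case: terms of `crs n x (d y)`.
The same proof works for the three statements (for `p = 0` the second case does not occur).
-/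

open scoped TensorProduct

namespace MM

/-- extension of a monotone map to all natural numbers -/
private def A012ex {n p : ℕ} (a : Mo n p) (k : ℕ) : ℕ := (a ⟨min k n, by omega⟩ : ℕ)

private theorem A012ex_mono {n p : ℕ} (a : Mo n p) : Monotone (A012ex a) := by
  intro k l h
  have : (⟨min k n, by omega⟩ : Fin (n + 1)) ≤ ⟨min l n, by omega⟩ := by
    show min k n ≤ min l n
    omega
  exact a.monotone this

private theorem A012ex_le {n p : ℕ} (a : Mo n p) (k : ℕ) : A012ex a k ≤ p :=
  Nat.lt_succ_iff.1 (a ⟨min k n, by omega⟩).2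

private theorem A012ex_coe {n p : ℕ} (a : Mo n p) (k : Fin (n + 1)) : A012ex a k = (a k : ℕ) := by
  have : (⟨min (k : ℕ) n, by omega⟩ : Fin (n + 1)) = k := Fin.ext (by
    show min (k : ℕ) n = k
    omega)
  rw [A012ex, this]

private theorem A012ext {n p : ℕ} {a b : Mo n p} (h : ∀ k ≤ n, A012ex a k = A012ex b k) : a = b := by
  apply OrderHom.ext; funext k
  apply Fin.ext
  rw [← A012ex_coe, ← A012ex_coe]
  exact h k (by omega)

/-- construction of a monotone map -/
private def A012mk (n p : ℕ) (f : ℕ → ℕ) (hf : Monotone f) (hp : ∀ k ≤ n, f k ≤ p) : Mo n p :=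
  ⟨fun k => ⟨f k, Nat.lt_succ_of_le (hp k (by omega))⟩, fun k l h => hf (show (k : ℕ) ≤ l from h)⟩

private theorem A012ex_mk {n p : ℕ} (f : ℕ → ℕ) (hf : Monotone f) (hp : ∀ k ≤ n, f k ≤ p) {k : ℕ}
    (hk : k ≤ n) : A012ex (A012mk n p f hf hp) k = f k := by
  show f (min k n) = f k
  rw [min_eq_left hk]

private theorem A012ex_comp_dlt {n p : ℕ} (a : Mo (n + 1) p) (j : Fin (n + 2)) {k : ℕ} (hk : k ≤ n) :
    A012ex (a.comp (dlt j)) k = A012ex a (if k < (j : ℕ) then k else k + 1) := by
  have h1 : A012ex (a.comp (dlt j)) k = A012ex (a.comp (dlt j)) ((⟨k, by omega⟩ : Fin (n + 1)) : ℕ) := rfl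
  rw [h1, A012ex_coe]
  show ((a (j.succAbove ⟨k, by omega⟩) : Fin (p + 1)) : ℕ) = _
  rw [← A012ex_coe]
  congr 1
  by_cases h : k < (j : ℕ)
  · rw [if_pos h, Fin.succAbove_of_castSucc_lt]
    · rfl
    · exact h
  · rw [if_neg h, Fin.succAbove_of_le_castSucc]
    · rfl
    · show (j : ℕ) ≤ k
      omega

private theorem A012ex_dlt_comp {n p : ℕ} (i : Fin (p + 2)) (a : Mo n p) (k : ℕ) :
    A012ex ((dlt i).comp a) k = if A012ex a k < (i : ℕ) then A012ex a k else A012ex a k + 1 := by
  show ((i.succAbove (a ⟨min k n, by omega⟩) : Fin (p + 2)) : ℕ) = _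
  by_cases h : A012ex a k < (i : ℕ)
  · rw [if_pos h, Fin.succAbove_of_castSucc_lt]
    · rfl
    · exact h
  · rw [if_neg h, Fin.succAbove_of_le_castSucc]
    · rfl
    · show (i : ℕ) ≤ A012ex a k
      omega

/-- maximal chains -/
private def A012ch {n p q : ℕ} (a : Mo n p) (b : Mo n q) : Prop :=
  ∀ k ≤ n, A012ex a k + A012ex b k = k

private theorem A012ch_iff {n p q : ℕ} (a : Mo n p) (b : Mo n q) :
    A012ch a b ↔ ∀ i, ((a i : ℕ) + (b i : ℕ) = (i : ℕ)) := by
  constructor
  · intro h i
    rw [← A012ex_coe, ← A012ex_coe]; exact h i (by omega)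
  · intro h k hk
    have := h ⟨k, by omega⟩
    rw [← A012ex_coe, ← A012ex_coe] at this
    exact this

private theorem A012ch_symm {n p q : ℕ} {a : Mo n p} {b : Mo n q} (h : A012ch a b) : A012ch b a :=
  fun k hk => by rw [add_comm]; exact h k hk

/-- the value at `j` is taken only once -/
private def A012one {n p : ℕ} (a : Mo n p) (j : ℕ) : Prop := ∀ k ≤ n, k ≠ j → A012ex a k ≠ A012ex a j

private theorem A012crs {P Q : SV} {p q n : ℕ} (h : p + q = n) (x : P.V p) (y : Q.V q) :
    (crs n x y : (P.tens Q).V n) = by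
      classical
      exact ∑ u ∈ (Finset.univ : Finset (Mo n p × Mo n q)).filter (fun u => A012ch u.1 u.2),
        (P.act u.1 x) ⊗ₜ[ZMod 2] (Q.act u.2 y) := by
  classical
  rw [Finset.sum_filter, Fintype.sum_prod_type]
  unfold crs
  refine Finset.sum_congr rfl fun a _ => Finset.sum_congr rfl fun b _ => ?_
  by_cases h' : A012ch a b
  · rw [if_pos h', if_pos ⟨h, (A012ch_iff a b).1 h'⟩]
  · rw [if_neg h', if_neg]
    rintro ⟨-, h2⟩
    exact h' ((A012ch_iff a b).2 h2)

private theorem A012crs_zero {P Q : SV} {p q n : ℕ} (h : p + q ≠ n) (x : P.V p) (y : Q.V q) :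
    (crs n x y : (P.tens Q).V n) = 0 := by
  classical
  unfold crs
  refine Finset.sum_eq_zero fun a _ => Finset.sum_eq_zero fun b _ => ?_
  rw [if_neg]
  rintro ⟨h1, -⟩
  exact h h1

/-- the mixed terms cancel -/
private theorem A012mixed {M : Type*} [AddCommGroup M] (h2 : ∀ x : M, x + x = 0) {n p q : ℕ}
    (F : Mo n p → Mo n q → M) : by
      classical
      exact ∑ t ∈ (Finset.univ : Finset (Fin (n + 2) × Mo (n + 1) p × Mo (n + 1) q)).filter
        (fun t => A012ch t.2.1 t.2.2 ∧ ¬ A012one t.2.1 t.1 ∧ ¬ A012one t.2.2 t.1),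
        F (t.2.1.comp (dlt t.1)) (t.2.2.comp (dlt t.1)) = 0 := by
  classical
  -- the structure of the mixed terms
  have key : ∀ (j : Fin (n + 2)) (a : Mo (n + 1) p) (b : Mo (n + 1) q), A012ch a b →
      ¬ A012one a j → ¬ A012one b j → 0 < (j : ℕ) ∧ (j : ℕ) ≤ n ∧
      ((A012ex a ((j : ℕ) - 1) = A012ex a j ∧ A012ex a ((j : ℕ) + 1) = A012ex a j + 1 ∧
        A012ex b ((j : ℕ) - 1) + 1 = A012ex b j ∧ A012ex b ((j : ℕ) + 1) = A012ex b j) ∨
      (A012ex b ((j : ℕ) - 1) = A012ex b j ∧ A012ex b ((j : ℕ) + 1) = A012ex b j + 1 ∧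
        A012ex a ((j : ℕ) - 1) + 1 = A012ex a j ∧ A012ex a ((j : ℕ) + 1) = A012ex a j)) := by
    intro j a b hc ha hb
    have hf := A012ex_mono a
    have hg := A012ex_mono b
    have hjn : (j : ℕ) ≤ n + 1 := by omega
    have one : ∀ {r : ℕ} (c : Mo (n + 1) r), ¬ A012one c j →
        (0 < (j : ℕ) ∧ A012ex c ((j : ℕ) - 1) = A012ex c j) ∨
        ((j : ℕ) ≤ n ∧ A012ex c ((j : ℕ) + 1) = A012ex c j) := by
      intro r c hc
      have hm := A012ex_mono c
      unfold A012one at hc
      push Not at hc
      obtain ⟨k, hk, hkj, hkk⟩ := hc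
      rcases Nat.lt_or_gt_of_ne hkj with h | h
      · left
        have h1 := hm (show k ≤ (j : ℕ) - 1 by omega)
        have h2 := hm (show (j : ℕ) - 1 ≤ j by omega)
        exact ⟨by omega, by omega⟩
      · right
        have h1 := hm (show (j : ℕ) + 1 ≤ k by omega)
        have h2 := hm (show (j : ℕ) ≤ (j : ℕ) + 1 by omega)
        exact ⟨by omega, by omega⟩
    have hcj := hc j hjn
    have h1 := one a ha
    have h2 := one b hb
    by_cases h3 : (j : ℕ) = 0
    · have h4 := hc (j + 1) (by omega)
      omega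
    · by_cases h5 : (j : ℕ) = n + 1
      · have h6 := hc (j - 1) (by omega)
        omega
      · have h7 := hc (j + 1) (by omega)
        have h6 := hc (j - 1) (by omega)
        have g1 := hf (show (j : ℕ) - 1 ≤ j by omega)
        have g2 := hf (show (j : ℕ) ≤ j + 1 by omega)
        have g3 := hg (show (j : ℕ) - 1 ≤ j by omega)
        have g4 := hg (show (j : ℕ) ≤ j + 1 by omega)
        refine ⟨by omega, by omega, ?_⟩
        omega
  -- the flip of a monotone map
  have hfm : ∀ {r : ℕ} (c : Mo (n + 1) r) (j : ℕ), 0 < j → A012ex c (j + 1) ≤ A012ex c j + 1 →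
      A012ex c j ≤ A012ex c (j - 1) + 1 →
      Monotone (fun k => if k = j then A012ex c (j - 1) + A012ex c (j + 1) - A012ex c j
        else A012ex c k) := by
    intro r c j hj h1 h2
    have hm := A012ex_mono c
    apply monotone_nat_of_le_succ
    intro k
    have g1 := hm (show (j : ℕ) - 1 ≤ j by omega)
    have g2 := hm (show (j : ℕ) ≤ j + 1 by omega)
    try dsimp only
    by_cases h3 : k = j
    · rw [if_pos h3, if_neg (by omega), h3]; omega
    · rw [if_neg h3]
      by_cases h4 : k + 1 = j
      · rw [if_pos h4]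
        have : k = j - 1 := by omega
        rw [this]; omega
      · rw [if_neg h4]; exact hm (by omega)
  have hex : ∀ t ∈ (Finset.univ : Finset (Fin (n + 2) × Mo (n + 1) p × Mo (n + 1) q)).filter
        (fun t => A012ch t.2.1 t.2.2 ∧ ¬ A012one t.2.1 t.1 ∧ ¬ A012one t.2.2 t.1),
      ∃ a' : Mo (n + 1) p, ∃ b' : Mo (n + 1) q,
        (∀ k ≤ n + 1, A012ex a' k = if k = (t.1 : ℕ) then A012ex t.2.1 (t.1 - 1) +
          A012ex t.2.1 (t.1 + 1) - A012ex t.2.1 t.1 else A012ex t.2.1 k) ∧
        (∀ k ≤ n + 1, A012ex b' k = if k = (t.1 : ℕ) then A012ex t.2.2 (t.1 - 1) +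
          A012ex t.2.2 (t.1 + 1) - A012ex t.2.2 t.1 else A012ex t.2.2 k) := by
    rintro ⟨j, a, b⟩ ht
    simp only [Finset.mem_filter, Finset.mem_univ, true_and] at ht
    obtain ⟨hc, h1, h2⟩ := ht
    obtain ⟨h3, h4, h5⟩ := key j a b hc h1 h2
    have hap := A012ex_le a
    have hbq := A012ex_le b
    refine ⟨A012mk (n + 1) p _ (hfm a j h3 (by omega) (by omega)) ?_,
      A012mk (n + 1) q _ (hfm b j h3 (by omega) (by omega)) ?_, ?_, ?_⟩
    · intro k _
      have g1 := hap k
      have g2 := hap (j - 1)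
      have g3 := hap (j + 1)
      have g4 := hap j
      try dsimp only
      split_ifs <;> omega
    · intro k _
      have g1 := hbq k
      have g2 := hbq (j - 1)
      have g3 := hbq (j + 1)
      have g4 := hbq j
      try dsimp only
      split_ifs <;> omega
    · intro k hk
      exact A012ex_mk _ _ _ hk
    · intro k hk
      exact A012ex_mk _ _ _ hk
  choose! φ ψ hφ hψ using hex
  have hcomp : ∀ {r : ℕ} (c c' : Mo (n + 1) r) (j : Fin (n + 2)) (v : ℕ),
      (∀ k ≤ n + 1, A012ex c' k = if k = (j : ℕ) then v else A012ex c k) →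
      c'.comp (dlt j) = c.comp (dlt j) := by
    intro r c c' j v h
    apply A012ext
    intro k hk
    rw [A012ex_comp_dlt _ _ hk, A012ex_comp_dlt _ _ hk, h _ (by split_ifs <;> omega), if_neg]
    split_ifs <;> omega
  have hmem : ∀ t ∈ (Finset.univ : Finset (Fin (n + 2) × Mo (n + 1) p × Mo (n + 1) q)).filter
        (fun t => A012ch t.2.1 t.2.2 ∧ ¬ A012one t.2.1 t.1 ∧ ¬ A012one t.2.2 t.1),
      (t.1, φ t, ψ t) ∈ (Finset.univ : Finset (Fin (n + 2) × Mo (n + 1) p × Mo (n + 1) q)).filter
        (fun t => A012ch t.2.1 t.2.2 ∧ ¬ A012one t.2.1 t.1 ∧ ¬ A012one t.2.2 t.1) := by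
    intro t ht
    have ha := hφ t ht
    have hb := hψ t ht
    generalize φ t = a' at ha ⊢
    generalize ψ t = b' at hb ⊢
    obtain ⟨j, a, b⟩ := t
    simp only [Finset.mem_filter, Finset.mem_univ, true_and] at ht ⊢
    obtain ⟨hc, h1, h2⟩ := ht
    obtain ⟨h3, h4, h5⟩ := key j a b hc h1 h2
    have ha1 := ha (j - 1) (by omega)
    have ha2 := ha (j + 1) (by omega)
    have ha3 := ha j (by omega)
    have hb1 := hb (j - 1) (by omega)
    have hb2 := hb (j + 1) (by omega)
    have hb3 := hb j (by omega)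
    rw [if_neg (show ¬ ((j : ℕ) - 1 = j) by omega)] at ha1 hb1
    rw [if_neg (show ¬ ((j : ℕ) + 1 = j) by omega)] at ha2 hb2
    rw [if_pos rfl] at ha3 hb3
    refine ⟨?_, ?_, ?_⟩
    · intro k hk
      have e1 := ha k hk
      have e2 := hb k hk
      have e3 := hc k hk
      by_cases h : k = (j : ℕ)
      · rw [if_pos h] at e1 e2
        rw [h] at e3 ⊢ e1 e2
        have e4 := hc j (by omega)
        try dsimp only at e1 e2 e3 e4
        omega
      · rw [if_neg h] at e1 e2
        rw [e1, e2]; exact e3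
    · intro h
      have g1 := h (j - 1) (by omega) (by omega)
      have g2 := h (j + 1) (by omega) (by omega)
      try dsimp only at ha1 ha2 ha3
      omega
    · intro h
      have g1 := h (j - 1) (by omega) (by omega)
      have g2 := h (j + 1) (by omega) (by omega)
      try dsimp only at hb1 hb2 hb3
      omega
  refine Finset.sum_involution (fun t _ => (t.1, φ t, ψ t)) ?_ ?_ hmem ?_
  · intro t ht
    have e1 := hcomp t.2.1 (φ t) t.1 _ (hφ t ht)
    have e2 := hcomp t.2.2 (ψ t) t.1 _ (hψ t ht)
    show F (t.2.1.comp (dlt t.1)) (t.2.2.comp (dlt t.1)) + F ((φ t).comp (dlt t.1)) ((ψ t).comp (dlt t.1)) = 0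
    rw [e1, e2]; exact h2 _
  · intro t ht _ h
    have e1 := hφ t ht t.1 (by omega)
    rw [if_pos rfl] at e1
    have e2 : φ t = t.2.1 := congrArg (fun u => u.2.1) h
    obtain ⟨hc, g1, g2⟩ := (Finset.mem_filter.1 ht).2
    obtain ⟨h3, h4, h5⟩ := key t.1 t.2.1 t.2.2 hc g1 g2
    rw [e2] at e1
    omega
  · intro t ht
    have m := hmem t ht
    have e1 := hφ t ht
    have e2 := hψ t ht
    have e3 := hφ _ m
    have e4 := hψ _ m
    obtain ⟨hc, g1, g2⟩ := (Finset.mem_filter.1 ht).2
    obtain ⟨h3, h4, h5⟩ := key t.1 t.2.1 t.2.2 hc g1 g2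
    have e11 := e1 (t.1 - 1) (by omega)
    have e12 := e1 (t.1 + 1) (by omega)
    have e13 := e1 t.1 (by omega)
    have e21 := e2 (t.1 - 1) (by omega)
    have e22 := e2 (t.1 + 1) (by omega)
    have e23 := e2 t.1 (by omega)
    rw [if_neg (show ¬ ((t.1 : ℕ) - 1 = t.1) by omega)] at e11 e21
    rw [if_neg (show ¬ ((t.1 : ℕ) + 1 = t.1) by omega)] at e12 e22
    rw [if_pos rfl] at e13 e23
    refine Prod.ext rfl (Prod.ext ?_ ?_)
    · apply A012ext
      intro k hk
      rw [e3 k hk]
      show (if k = (t.1 : ℕ) then A012ex (φ t) (t.1 - 1) + A012ex (φ t) (t.1 + 1) - A012ex (φ t) t.1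
        else A012ex (φ t) k) = A012ex t.2.1 k
      by_cases h : k = (t.1 : ℕ)
      · rw [if_pos h, h]; omega
      · rw [if_neg h, e1 k hk, if_neg h]
    · apply A012ext
      intro k hk
      rw [e4 k hk]
      show (if k = (t.1 : ℕ) then A012ex (ψ t) (t.1 - 1) + A012ex (ψ t) (t.1 + 1) - A012ex (ψ t) t.1
        else A012ex (ψ t) k) = A012ex t.2.2 k
      by_cases h : k = (t.1 : ℕ)
      · rw [if_pos h, h]; omega
      · rw [if_neg h, e2 k hk, if_neg h]

/-- the terms of the first kind -/
private theorem A012first {M : Type*} [AddCommGroup M] {n p q : ℕ} (hn : p + q = n)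
    (F : Mo n (p + 1) → Mo n q → M) : by
      classical
      exact ∑ t ∈ (Finset.univ : Finset (Fin (n + 2) × Mo (n + 1) (p + 1) × Mo (n + 1) q)).filter
        (fun t => A012ch t.2.1 t.2.2 ∧ A012one t.2.1 t.1),
        F (t.2.1.comp (dlt t.1)) (t.2.2.comp (dlt t.1)) =
      ∑ u ∈ (Finset.univ : Finset (Fin (p + 2) × Mo n p × Mo n q)).filter
        (fun u => A012ch u.2.1 u.2.2), F ((dlt u.1).comp u.2.1) u.2.2 := by
  classical
  -- for every term of the right side there is one of the left side
  have hR : ∀ u ∈ (Finset.univ : Finset (Fin (p + 2) × Mo n p × Mo n q)).filter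
        (fun u => A012ch u.2.1 u.2.2),
      ∃ t ∈ (Finset.univ : Finset (Fin (n + 2) × Mo (n + 1) (p + 1) × Mo (n + 1) q)).filter
        (fun t => A012ch t.2.1 t.2.2 ∧ A012one t.2.1 t.1),
        A012ex t.2.1 t.1 = u.1 ∧ t.2.1.comp (dlt t.1) = (dlt u.1).comp u.2.1 ∧
          t.2.2.comp (dlt t.1) = u.2.2 := by
    rintro ⟨i, a', b'⟩ hu
    simp only [Finset.mem_filter, Finset.mem_univ, true_and] at hu
    have hf := A012ex_mono a'
    have hg := A012ex_mono b'
    have hfp := A012ex_le a'
    have hgq := A012ex_le b'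
    have hi : (i : ℕ) ≤ p + 1 := by omega
    set f := A012ex a' with hfd
    set g := A012ex b' with hgd
    have hch : ∀ k ≤ n, f k + g k = k := hu
    have hex : ∃ m, m = n + 1 ∨ (i : ℕ) ≤ f m := ⟨n + 1, Or.inl rfl⟩
    set j := Nat.find hex with hj
    have hj1 : j ≤ n + 1 := Nat.find_min' hex (Or.inl rfl)
    have hjs : j = n + 1 ∨ (i : ℕ) ≤ f j := Nat.find_spec hex
    have hlt : ∀ k < j, f k < i := by
      intro k hk
      have := Nat.find_min hex hk
      omega
    have h0 : f 0 = 0 := by have := hch 0 (by omega); omega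
    have hfn : f n = p := by have := hch n le_rfl; have := hfp n; have := hgq n; omega
    have hprev : 0 < j → f (j - 1) + 1 = i := by
      intro hj0
      have h3 := hlt (j - 1) (by omega)
      rcases Nat.lt_or_ge n j with h4 | h4
      · have h5 : j - 1 = n := by omega
        rw [h5] at h3 ⊢
        omega
      · have h5 : (i : ℕ) ≤ f j := by omega
        have h6 := hch j h4
        have h7 := hch (j - 1) (by omega)
        have h8 := hg (show j - 1 ≤ j by omega)
        omega
    have hat : j ≤ n → f j = i := by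
      intro h4
      have h5 : (i : ℕ) ≤ f j := by omega
      rcases Nat.eq_zero_or_pos j with h6 | h6
      · rw [h6] at h5 ⊢; omega
      · have h7 := hprev h6
        have h8 := hch j h4
        have h9 := hch (j - 1) (by omega)
        have h10 := hg (show j - 1 ≤ j by omega)
        omega
    have hij : (i : ℕ) ≤ j := by
      rcases Nat.eq_zero_or_pos j with h6 | h6
      · have := hat (by omega); rw [h6] at this; omega
      · have h7 := hprev h6
        have h9 := hch (j - 1) (by omega)
        omega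
    have hbj1 : 0 < j → g (j - 1) = j - i := by
      intro h6
      have h7 := hprev h6
      have h9 := hch (j - 1) (by omega)
      omega
    have hbj2 : j ≤ n → g j = j - i := by
      intro h6
      have h7 := hat h6
      have h9 := hch j h6
      omega
    have ha : Monotone (fun k => if k < j then f k else if k = j then (i : ℕ) else f (k - 1) + 1) := by
      apply monotone_nat_of_le_succ
      intro k
      try dsimp only
      by_cases h1 : k + 1 < j
      · rw [if_pos h1, if_pos (by omega)]; exact hf (by omega)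
      · rw [if_neg h1]
        by_cases h2 : k + 1 = j
        · rw [if_pos h2, if_pos (by omega)]
          exact (hlt k (by omega)).le
        · rw [if_neg h2, if_neg (by omega)]
          by_cases h3 : k = j
          · rw [if_pos h3]
            have h4 : k + 1 - 1 = j := by omega
            rw [h4]
            rcases Nat.lt_or_ge n j with h5 | h5
            · have := hprev (by omega)
              have := hf (show j - 1 ≤ j by omega)
              omega
            · have := hat h5
              omega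
          · rw [if_neg h3]
            have := hf (show k - 1 ≤ k + 1 - 1 by omega)
            omega
    have hb : Monotone (fun k => if k < j then g k else if k = j then (j - i : ℕ) else g (k - 1)) := by
      apply monotone_nat_of_le_succ
      intro k
      try dsimp only
      by_cases h1 : k + 1 < j
      · rw [if_pos h1, if_pos (by omega)]; exact hg (by omega)
      · rw [if_neg h1]
        by_cases h2 : k + 1 = j
        · rw [if_pos h2, if_pos (by omega)]
          have h3 := hbj1 (by omega)
          rw [← h3]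
          exact hg (by omega)
        · rw [if_neg h2, if_neg (by omega)]
          by_cases h3 : k = j
          · rw [if_pos h3]
            have h4 : k + 1 - 1 = j := by omega
            rw [h4]
            rcases Nat.lt_or_ge n j with h5 | h5
            · have := hbj1 (by omega)
              have := hg (show j - 1 ≤ j by omega)
              omega
            · have := hbj2 h5
              omega
          · rw [if_neg h3]
            exact hg (by omega)
    have hap : ∀ k ≤ n + 1, (fun k => if k < j then f k else if k = j then (i : ℕ) else f (k - 1) + 1) k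
        ≤ p + 1 := by
      intro k _
      try dsimp only
      have := hfp k
      have := hfp (k - 1)
      split_ifs <;> omega
    have hbq : ∀ k ≤ n + 1, (fun k => if k < j then g k else if k = j then (j - i : ℕ) else g (k - 1)) k
        ≤ q := by
      intro k _
      try dsimp only
      have h1 := hgq k
      have h2 := hgq (k - 1)
      have h3 : j - i ≤ q := by
        rcases Nat.eq_zero_or_pos j with h6 | h6
        · omega
        · have h7 := hbj1 h6
          have := hgq (j - 1)
          omega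
      split_ifs <;> omega
    refine ⟨(⟨j, by omega⟩, A012mk (n + 1) (p + 1) _ ha hap, A012mk (n + 1) q _ hb hbq), ?_, ?_, ?_, ?_⟩
    · simp only [Finset.mem_filter, Finset.mem_univ, true_and]
      constructor
      · intro k hk
        rw [A012ex_mk _ _ _ hk, A012ex_mk _ _ _ hk]
        try dsimp only
        by_cases h1 : k < j
        · rw [if_pos h1, if_pos h1]; exact hch k (by omega)
        · rw [if_neg h1, if_neg h1]
          by_cases h2 : k = j
          · rw [if_pos h2, if_pos h2]; omega
          · rw [if_neg h2, if_neg h2]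
            have := hch (k - 1) (by omega)
            omega
      · intro k hk hkj
        have hkj' : k ≠ j := hkj
        rw [A012ex_mk _ _ _ hk, A012ex_mk _ _ _ hj1]
        try dsimp only
        rw [if_neg (lt_irrefl j), if_pos rfl]
        by_cases h1 : k < j
        · rw [if_pos h1]; exact (hlt k h1).ne
        · rw [if_neg h1, if_neg hkj']
          have h2 := hat (by omega)
          have := hf (show j ≤ k - 1 by omega)
          omega
    · show A012ex _ j = i
      rw [A012ex_mk _ _ _ hj1]
      try dsimp only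
      rw [if_neg (lt_irrefl j), if_pos rfl]
    · apply A012ext
      intro k hk
      rw [A012ex_comp_dlt _ _ hk, A012ex_dlt_comp]
      show A012ex _ (if k < j then k else k + 1) = if f k < (i : ℕ) then f k else f k + 1
      by_cases h1 : k < j
      · rw [if_pos h1, A012ex_mk _ _ _ (by omega)]
        try dsimp only
        rw [if_pos h1, if_pos (hlt k h1)]
      · rw [if_neg h1, A012ex_mk _ _ _ (by omega)]
        try dsimp only
        rw [if_neg (by omega), if_neg (by omega), if_neg]
        · rfl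
        · have h2 := hat (by omega)
          have := hf (show j ≤ k by omega)
          omega
    · apply A012ext
      intro k hk
      rw [A012ex_comp_dlt _ _ hk]
      show A012ex _ (if k < j then k else k + 1) = g k
      by_cases h1 : k < j
      · rw [if_pos h1, A012ex_mk _ _ _ (by omega)]
        try dsimp only
        rw [if_pos h1]
      · rw [if_neg h1, A012ex_mk _ _ _ (by omega)]
        try dsimp only
        rw [if_neg (by omega), if_neg (by omega)]
        rfl
  -- uniqueness
  have huniq : ∀ t ∈ (Finset.univ : Finset (Fin (n + 2) × Mo (n + 1) (p + 1) × Mo (n + 1) q)).filter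
        (fun t => A012ch t.2.1 t.2.2 ∧ A012one t.2.1 t.1),
      ∀ t' ∈ (Finset.univ : Finset (Fin (n + 2) × Mo (n + 1) (p + 1) × Mo (n + 1) q)).filter
        (fun t => A012ch t.2.1 t.2.2 ∧ A012one t.2.1 t.1),
      A012ex t.2.1 t.1 = A012ex t'.2.1 t'.1 → t.2.1.comp (dlt t.1) = t'.2.1.comp (dlt t'.1) →
      t.2.2.comp (dlt t.1) = t'.2.2.comp (dlt t'.1) → t = t' := by
    rintro ⟨j, a, b⟩ ht ⟨j', a', b'⟩ ht' h1 h2 h3
    simp only [Finset.mem_filter, Finset.mem_univ, true_and] at ht ht' h1 h2 h3
    have hjj : (j : ℕ) = j' := by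
      by_contra hne
      have hk : ∀ k ≤ n, (if k < (j : ℕ) then k else k + 1) = if k < (j' : ℕ) then k else k + 1 := by
        intro k hk
        have e1 := congrArg (fun c => A012ex c k) h2
        have e2 := congrArg (fun c => A012ex c k) h3
        rw [A012ex_comp_dlt _ _ hk, A012ex_comp_dlt _ _ hk] at e1 e2
        have e3 := ht.1 (if k < (j : ℕ) then k else k + 1) (by split_ifs <;> omega)
        have e4 := ht'.1 (if k < (j' : ℕ) then k else k + 1) (by split_ifs <;> omega)
        omega
      rcases Nat.lt_or_gt_of_ne hne with h4 | h4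
      · have := hk j (by omega)
        rw [if_neg (lt_irrefl _), if_pos h4] at this
        omega
      · have := hk j' (by omega)
        rw [if_neg (lt_irrefl _), if_pos h4] at this
        omega
    have hjj' : j = j' := Fin.ext hjj
    subst hjj'
    have haj : ∀ k ≤ n + 1, A012ex a k = A012ex a' k ∧ A012ex b k = A012ex b' k := by
      intro k hk
      by_cases h5 : k = (j : ℕ)
      · rw [h5]
        have e3 := ht.1 j (by omega)
        have e4 := ht'.1 j (by omega)
        constructor <;> omega
      · have hkk : ∃ l ≤ n, (if l < (j : ℕ) then l else l + 1) = k := by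
          rcases Nat.lt_or_gt_of_ne h5 with h6 | h6
          · exact ⟨k, by omega, by rw [if_pos h6]⟩
          · exact ⟨k - 1, by omega, by rw [if_neg (by omega)]; omega⟩
        obtain ⟨l, hl, hlk⟩ := hkk
        have e1 := congrArg (fun c => A012ex c l) h2
        have e2 := congrArg (fun c => A012ex c l) h3
        rw [A012ex_comp_dlt _ _ hl, A012ex_comp_dlt _ _ hl, hlk] at e1 e2
        exact ⟨e1, e2⟩
    have e1 : a = a' := A012ext fun k hk => (haj k hk).1
    have e2 : b = b' := A012ext fun k hk => (haj k hk).2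
    rw [e1, e2]
  -- every term of the left side gives one of the right side
  have hL : ∀ t ∈ (Finset.univ : Finset (Fin (n + 2) × Mo (n + 1) (p + 1) × Mo (n + 1) q)).filter
        (fun t => A012ch t.2.1 t.2.2 ∧ A012one t.2.1 t.1),
      ∃ u ∈ (Finset.univ : Finset (Fin (p + 2) × Mo n p × Mo n q)).filter
        (fun u => A012ch u.2.1 u.2.2),
        A012ex t.2.1 t.1 = u.1 ∧ t.2.1.comp (dlt t.1) = (dlt u.1).comp u.2.1 ∧
          t.2.2.comp (dlt t.1) = u.2.2 := by
    rintro ⟨j, a, b⟩ ht
    simp only [Finset.mem_filter, Finset.mem_univ, true_and] at ht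
    obtain ⟨hc', ho'⟩ := ht
    have hc : A012ch a b := hc'
    have ho : A012one a j := ho'
    have hf := A012ex_mono a
    have hjn : (j : ℕ) ≤ n + 1 := by omega
    have hlo : ∀ k < (j : ℕ), A012ex a k < A012ex a j := fun k hk =>
      lt_of_le_of_ne (hf hk.le) (ho k (by omega) hk.ne)
    have hhi : ∀ k ≤ n + 1, (j : ℕ) < k → A012ex a j < A012ex a k := fun k hk hk' =>
      lt_of_le_of_ne (hf hk'.le) (ho k hk hk'.ne').symm
    have hmono : Monotone (fun k => if k < (j : ℕ) then A012ex a k else A012ex a (k + 1) - 1) := by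
      apply monotone_nat_of_le_succ
      intro k
      try dsimp only
      by_cases h1 : k + 1 < (j : ℕ)
      · rw [if_pos h1, if_pos (by omega)]; exact hf (by omega)
      · rw [if_neg h1]
        by_cases h2 : k < (j : ℕ)
        · rw [if_pos h2]
          have h3 := hlo k h2
          have h4 := hf (show (j : ℕ) ≤ k + 1 + 1 by omega)
          omega
        · rw [if_neg h2]
          have := hf (show k + 1 ≤ k + 1 + 1 by omega)
          omega
    have hle : ∀ k ≤ n, (fun k => if k < (j : ℕ) then A012ex a k else A012ex a (k + 1) - 1) k ≤ p := by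
      intro k hk
      try dsimp only
      have h1 := A012ex_le a (k + 1)
      have h2 := A012ex_le a j
      by_cases h3 : k < (j : ℕ)
      · rw [if_pos h3]
        have := hlo k h3
        omega
      · rw [if_neg h3]; omega
    refine ⟨(⟨A012ex a j, Nat.lt_succ_of_le (A012ex_le a j)⟩, A012mk n p _ hmono hle,
      b.comp (dlt j)), ?_, rfl, ?_, rfl⟩
    · simp only [Finset.mem_filter, Finset.mem_univ, true_and]
      intro k hk
      rw [A012ex_mk _ _ _ hk, A012ex_comp_dlt _ _ hk]
      try dsimp only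
      by_cases h1 : k < (j : ℕ)
      · rw [if_pos h1, if_pos h1]
        exact hc k (by omega)
      · rw [if_neg h1, if_neg h1]
        have h2 := hc (k + 1) (by omega)
        have h3 := hhi (k + 1) (by omega) (by omega)
        omega
    · apply A012ext
      intro k hk
      rw [A012ex_comp_dlt _ _ hk, A012ex_dlt_comp, A012ex_mk _ _ _ hk]
      show A012ex a (if k < (j : ℕ) then k else k + 1) =
        if (if k < (j : ℕ) then A012ex a k else A012ex a (k + 1) - 1) < A012ex a j then
        (if k < (j : ℕ) then A012ex a k else A012ex a (k + 1) - 1)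
        else (if k < (j : ℕ) then A012ex a k else A012ex a (k + 1) - 1) + 1
      by_cases h1 : k < (j : ℕ)
      · rw [if_pos h1, if_pos h1, if_pos (hlo k h1)]
      · rw [if_neg h1, if_neg h1]
        have h3 := hhi (k + 1) (by omega) (by omega)
        rw [if_neg (by omega)]
        omega
  choose! φ hφ hφ1 hφ2 hφ3 using hL
  refine Finset.sum_bij (fun t _ => φ t) hφ ?_ ?_ ?_
  · intro t ht t' ht' h
    exact huniq t ht t' ht' (by rw [hφ1 t ht, hφ1 t' ht', h]) (by rw [hφ2 t ht, hφ2 t' ht', h])
      (by rw [hφ3 t ht, hφ3 t' ht', h])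
  · intro u hu
    obtain ⟨t, ht, h1, h2, h3⟩ := hR u hu
    refine ⟨t, ht, ?_⟩
    have e1 := hφ1 t ht
    have e2 := hφ2 t ht
    have e3 := hφ3 t ht
    have f1 : (φ t).1 = u.1 := Fin.ext (by rw [← e1, h1])
    have f3 : (φ t).2.2 = u.2.2 := by rw [← e3, h3]
    have f2 : (φ t).2.1 = u.2.1 := by
      apply A012ext
      intro k hk
      have g1 := (Finset.mem_filter.1 (hφ t ht)).2 k hk
      have g2 := (Finset.mem_filter.1 hu).2 k hk
      rw [f3] at g1
      omega
    exact Prod.ext f1 (Prod.ext f2 f3)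
  · intro t ht
    rw [hφ2 t ht, hφ3 t ht]

/-- a maximal chain has no repetition in both coordinates -/
private theorem A012excl {n p q : ℕ} {a : Mo (n + 1) p} {b : Mo (n + 1) q} (hc : A012ch a b)
    (j : Fin (n + 2)) : ¬ (A012one a j ∧ A012one b j) := by
  rintro ⟨ha, hb⟩
  have hf := A012ex_mono a
  have hg := A012ex_mono b
  have hjn : (j : ℕ) ≤ n + 1 := by omega
  have h1 := hc j hjn
  by_cases h : (j : ℕ) ≤ n
  · have h2 := hc (j + 1) (by omega)
    have h3 := ha (j + 1) (by omega) (by omega)
    have h4 := hb (j + 1) (by omega) (by omega)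
    have h5 := hf (show (j : ℕ) ≤ j + 1 by omega)
    have h6 := hg (show (j : ℕ) ≤ j + 1 by omega)
    omega
  · have h2 := hc (j - 1) (by omega)
    have h3 := ha (j - 1) (by omega) (by omega)
    have h4 := hb (j - 1) (by omega) (by omega)
    have h5 := hf (show (j : ℕ) - 1 ≤ j by omega)
    have h6 := hg (show (j : ℕ) - 1 ≤ j by omega)
    omega

private theorem A012total {P Q : SV} {p q n : ℕ} (h : p + q = n + 1) (x : P.V p) (y : Q.V q) :
    (P.tens Q).d n (crs (n + 1) x y) = by
      classical
      exact (∑ t ∈ (Finset.univ : Finset (Fin (n + 2) × Mo (n + 1) p × Mo (n + 1) q)).filter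
        (fun t => A012ch t.2.1 t.2.2 ∧ A012one t.2.1 t.1),
        (P.act (t.2.1.comp (dlt t.1)) x) ⊗ₜ[ZMod 2] (Q.act (t.2.2.comp (dlt t.1)) y)) +
      (∑ t ∈ (Finset.univ : Finset (Fin (n + 2) × Mo (n + 1) p × Mo (n + 1) q)).filter
        (fun t => A012ch t.2.1 t.2.2 ∧ A012one t.2.2 t.1),
        (P.act (t.2.1.comp (dlt t.1)) x) ⊗ₜ[ZMod 2] (Q.act (t.2.2.comp (dlt t.1)) y)) := by
  classical
  have e0 : (P.tens Q).d n (crs (n + 1) x y) =
      ∑ t ∈ (Finset.univ : Finset (Fin (n + 2) × Mo (n + 1) p × Mo (n + 1) q)).filter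
        (fun t => A012ch t.2.1 t.2.2),
        (P.act (t.2.1.comp (dlt t.1)) x) ⊗ₜ[ZMod 2] (Q.act (t.2.2.comp (dlt t.1)) y) := by
    have e00 : (∑ t ∈ (Finset.univ : Finset (Fin (n + 2) × Mo (n + 1) p × Mo (n + 1) q)).filter
        (fun t => A012ch t.2.1 t.2.2),
        ((P.act (t.2.1.comp (dlt t.1)) x) ⊗ₜ[ZMod 2] (Q.act (t.2.2.comp (dlt t.1)) y) :
          (P.tens Q).V n)) =
        ∑ j : Fin (n + 2), ∑ u : Mo (n + 1) p × Mo (n + 1) q, if A012ch u.1 u.2 then
        (P.act (u.1.comp (dlt j)) x) ⊗ₜ[ZMod 2] (Q.act (u.2.comp (dlt j)) y) else 0 := by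
      rw [Finset.sum_filter, Fintype.sum_prod_type]
    rw [e00, A012crs h, SV.d, LinearMap.sum_apply]
    refine Finset.sum_congr rfl fun j _ => ?_
    rw [map_sum, Finset.sum_filter]
    refine Finset.sum_congr rfl fun u _ => ?_
    by_cases hu : A012ch u.1 u.2
    · rw [if_pos hu, if_pos hu]
      show TensorProduct.map (P.act (dlt j)) (Q.act (dlt j)) (P.act u.1 x ⊗ₜ[ZMod 2] Q.act u.2 y) = _
      rw [TensorProduct.map_tmul, P.act_comp, Q.act_comp]
    · rw [if_neg hu, if_neg hu]
  have e1 := A012mixed (M := (P.tens Q).V n) (fun z => two_eq_zero' z) (p := p) (q := q)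
    (fun a b => (P.act a x) ⊗ₜ[ZMod 2] (Q.act b y))
  rw [e0, ← Finset.sum_filter_add_sum_filter_not _ (fun t => A012one t.2.1 t.1), Finset.filter_filter,
    Finset.filter_filter]
  congr 1
  rw [← Finset.sum_filter_add_sum_filter_not _ (fun t => A012one t.2.2 t.1), Finset.filter_filter,
    Finset.filter_filter]
  have e2 : ∑ t ∈ (Finset.univ : Finset (Fin (n + 2) × Mo (n + 1) p × Mo (n + 1) q)).filter
        (fun t => (A012ch t.2.1 t.2.2 ∧ ¬ A012one t.2.1 t.1) ∧ ¬ A012one t.2.2 t.1),
        (P.act (t.2.1.comp (dlt t.1)) x) ⊗ₜ[ZMod 2] (Q.act (t.2.2.comp (dlt t.1)) y) = 0 := by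
    rw [← e1]
    refine Finset.sum_congr (Finset.filter_congr fun t _ => ?_) fun _ _ => rfl
    rw [and_assoc]
  rw [e2, add_zero]
  refine Finset.sum_congr (Finset.filter_congr fun t _ => ?_) fun _ _ => rfl
  constructor
  · rintro ⟨⟨h1, -⟩, h2⟩; exact ⟨h1, h2⟩
  · rintro ⟨h1, h2⟩; exact ⟨⟨h1, fun h3 => A012excl h1 t.1 ⟨h3, h2⟩⟩, h2⟩

private theorem A012left {P Q : SV} {p q n : ℕ} (h : p + q = n) (x : P.V (p + 1)) (y : Q.V q) : by
      classical
      exact (∑ t ∈ (Finset.univ : Finset (Fin (n + 2) × Mo (n + 1) (p + 1) × Mo (n + 1) q)).filter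
        (fun t => A012ch t.2.1 t.2.2 ∧ A012one t.2.1 t.1),
        (P.act (t.2.1.comp (dlt t.1)) x) ⊗ₜ[ZMod 2] (Q.act (t.2.2.comp (dlt t.1)) y)) =
      (crs n (P.d p x) y : (P.tens Q).V n) := by
  classical
  have e1 := A012first h (fun a b => ((P.act a x) ⊗ₜ[ZMod 2] (Q.act b y) : (P.tens Q).V n))
  refine e1.trans ?_
  rw [A012crs h, Finset.sum_filter, Finset.sum_filter, Fintype.sum_prod_type, Finset.sum_comm]
  refine Finset.sum_congr rfl fun u _ => ?_
  by_cases hu : A012ch u.1 u.2
  · rw [if_pos hu, SV.d, LinearMap.sum_apply, map_sum, TensorProduct.sum_tmul]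
    refine Finset.sum_congr rfl fun i _ => ?_
    rw [if_pos hu, P.act_comp]
  · rw [if_neg hu]
    exact Finset.sum_eq_zero fun i _ => if_neg hu

private theorem A012right {P Q : SV} {p q n : ℕ} (h : p + q = n) (x : P.V p) (y : Q.V (q + 1)) : by
      classical
      exact (∑ t ∈ (Finset.univ : Finset (Fin (n + 2) × Mo (n + 1) p × Mo (n + 1) (q + 1))).filter
        (fun t => A012ch t.2.1 t.2.2 ∧ A012one t.2.2 t.1),
        (P.act (t.2.1.comp (dlt t.1)) x) ⊗ₜ[ZMod 2] (Q.act (t.2.2.comp (dlt t.1)) y)) =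
      (crs n x (Q.d q y) : (P.tens Q).V n) := by
  classical
  have e1 := A012first (show q + p = n by omega)
    (fun b a => ((P.act a x) ⊗ₜ[ZMod 2] (Q.act b y) : (P.tens Q).V n))
  have e2 : (∑ t ∈ (Finset.univ : Finset (Fin (n + 2) × Mo (n + 1) p × Mo (n + 1) (q + 1))).filter
        (fun t => A012ch t.2.1 t.2.2 ∧ A012one t.2.2 t.1),
        (P.act (t.2.1.comp (dlt t.1)) x) ⊗ₜ[ZMod 2] (Q.act (t.2.2.comp (dlt t.1)) y)) =
      ∑ t ∈ (Finset.univ : Finset (Fin (n + 2) × Mo (n + 1) (q + 1) × Mo (n + 1) p)).filter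
        (fun t => A012ch t.2.1 t.2.2 ∧ A012one t.2.1 t.1),
        (P.act (t.2.2.comp (dlt t.1)) x) ⊗ₜ[ZMod 2] (Q.act (t.2.1.comp (dlt t.1)) y) := by
    refine Finset.sum_nbij' (fun t => (t.1, t.2.2, t.2.1)) (fun t => (t.1, t.2.2, t.2.1)) ?_ ?_
      (fun _ _ => rfl) (fun _ _ => rfl) (fun _ _ => rfl)
    · intro t ht
      obtain ⟨-, h1, h2⟩ := Finset.mem_filter.1 ht
      exact Finset.mem_filter.2 ⟨Finset.mem_univ _, A012ch_symm h1, h2⟩
    · intro t ht
      obtain ⟨-, h1, h2⟩ := Finset.mem_filter.1 ht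
      exact Finset.mem_filter.2 ⟨Finset.mem_univ _, A012ch_symm h1, h2⟩
  rw [e2]
  refine e1.trans ?_
  rw [A012crs h, Finset.sum_filter, Finset.sum_filter, Fintype.sum_prod_type, Finset.sum_comm,
    ← Equiv.sum_comp (Equiv.prodComm (Mo n p) (Mo n q))]
  refine Finset.sum_congr rfl fun u _ => ?_
  show (∑ i, if A012ch u.2 u.1 then (P.act u.1 x) ⊗ₜ[ZMod 2] (Q.act ((dlt i).comp u.2) y) else 0) = _
  by_cases hu : A012ch u.1 u.2
  · rw [if_pos hu, SV.d, LinearMap.sum_apply, map_sum, TensorProduct.tmul_sum]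
    refine Finset.sum_congr rfl fun i _ => ?_
    rw [if_pos (A012ch_symm hu), Q.act_comp]
  · rw [if_neg hu]
    exact Finset.sum_eq_zero fun i _ => if_neg fun h' => hu (A012ch_symm h')

private theorem A012none {n : ℕ} (a : Mo (n + 1) 0) (j : Fin (n + 2)) : ¬ A012one a j := by
  intro h
  have h0 : ∀ k, A012ex a k = 0 := fun k => Nat.le_zero.1 (A012ex_le a k)
  by_cases hj : (j : ℕ) = 0
  · exact h 1 (by omega) (by omega) (by rw [h0, h0])
  · exact h 0 (by omega) (by omega) (by rw [h0, h0])

theorem d_crs {P Q : SV} {p q n : ℕ} (x : P.V (p + 1)) (y : Q.V (q + 1)) :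
    (P.tens Q).d n (crs (n + 1) x y) = crs n (P.d p x) y + crs n x (Q.d q y) := by
  classical
  by_cases h : p + q + 1 = n
  · rw [A012total (by omega), ← A012left (show p + (q + 1) = n by omega),
      ← A012right (show p + 1 + q = n by omega)]
  · rw [A012crs_zero (by omega), A012crs_zero (by omega), A012crs_zero (by omega), map_zero, add_zero]

theorem d_crs_zero_left {P Q : SV} {q n : ℕ} (x : P.V 0) (y : Q.V (q + 1)) :
    (P.tens Q).d n (crs (n + 1) x y) = crs n x (Q.d q y) := by
  classical
  by_cases h : q = n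
  · rw [A012total (by omega), ← A012right (show 0 + q = n by omega), Finset.sum_eq_zero, zero_add]
    intro t ht
    exact absurd (Finset.mem_filter.1 ht).2.2 (A012none t.2.1 t.1)
  · rw [A012crs_zero (by omega), A012crs_zero (by omega), map_zero]

theorem d_crs_zero_right {P Q : SV} {p n : ℕ} (x : P.V (p + 1)) (y : Q.V 0) :
    (P.tens Q).d n (crs (n + 1) x y) = crs n (P.d p x) y := by
  classical
  by_cases h : p = n
  · rw [A012total (by omega), ← A012left (show p + 0 = n by omega), add_comm, Finset.sum_eq_zero, zero_add]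
    intro t ht
    exact absurd (Finset.mem_filter.1 ht).2.2 (A012none t.2.2 t.1)
  · rw [A012crs_zero (by omega), A012crs_zero (by omega), map_zero]

end MM
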