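import Pool.Agent.Lib_MP_33f7bb_d.A012

/-!
# A0-13: formal properties of the cross product

Bilinearity and naturality are immediate from the definition.  `crs_mem_Z`, `crs_mem_B`: from the Leibniz
rule.  Swap: exchange the two summations.  Associativity: both sides are the sum over triples
`(a,b,c) : [n] → [p] × [q] × [r]` with `a i + b i + c i = i` (a maximal chain of `[p] × [q] × [r]` gives, by
forgetting the third coordinate, a maximal chain of `[p] × [q]` reparametrised by a surjection).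
-/

open scoped TensorProduct

namespace MM

private theorem A013_map_ite {M M' : Type*} [AddCommMonoid M] [AddCommMonoid M'] (f : M →+ M')
    (c : Prop) [Decidable c] (x : M) : f (if c then x else 0) = if c then f x else 0 := by
  split_ifs <;> simp

/-- a maximal chain projects onto its factor -/
private theorem A013_surj {N u v : ℕ} (hN : u + v = N) (a : Mo N u) (c : Mo N v)
    (h : ∀ i, (a i : ℕ) + (c i : ℕ) = (i : ℕ)) : Function.Surjective a := by
  have key : ∀ i : ℕ, ∀ hi : i < N + 1, ∀ j : ℕ, j ≤ (a ⟨i, hi⟩ : ℕ) → ∃ i', (a i' : ℕ) = j := by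
    intro i
    induction i with
    | zero =>
      intro hi j hj
      have h0 := h ⟨0, hi⟩
      simp only at h0
      exact ⟨⟨0, hi⟩, by omega⟩
    | succ i ih =>
      intro hi j hj
      have hi' : i < N + 1 := by omega
      have h1 := h ⟨i, hi'⟩
      have h2 := h ⟨i + 1, hi⟩
      have hle : (⟨i, hi'⟩ : Fin (N + 1)) ≤ ⟨i + 1, hi⟩ := by
        rw [Fin.le_def]; exact Nat.le_succ i
      have h3 : (c ⟨i, hi'⟩ : ℕ) ≤ (c ⟨i + 1, hi⟩ : ℕ) := Fin.le_def.1 (c.monotone hle)
      simp only at h1 h2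
      by_cases hj' : j ≤ (a ⟨i, hi'⟩ : ℕ)
      · exact ih hi' j hj'
      · exact ⟨⟨i + 1, hi⟩, by omega⟩
  intro j
  have hl := h (Fin.last N)
  have h1 : (c (Fin.last N) : ℕ) ≤ v := by have := (c (Fin.last N)).2; omega
  have h2 : (j : ℕ) ≤ (a ⟨N, Nat.lt_succ_self N⟩ : ℕ) := by
    have h3 : (Fin.last N) = ⟨N, Nat.lt_succ_self N⟩ := rfl
    rw [h3] at hl h1
    have := j.2
    simp only at hl
    omega
  obtain ⟨i', hi'⟩ := key N (Nat.lt_succ_self N) j h2
  exact ⟨i', Fin.ext hi'⟩

private theorem A013_fac {N u s t : ℕ} (a : Mo N u) (ha : Function.Surjective a) (α : Mo N s)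
    (β : Mo N t) (h : ∀ i, (α i : ℕ) + (β i : ℕ) = (a i : ℕ)) :
    ∃ (α1 : Mo u s) (β1 : Mo u t), (∀ j, (α1 j : ℕ) + (β1 j : ℕ) = (j : ℕ)) ∧ α1.comp a = α ∧
      β1.comp a = β := by
  choose σ hσ using ha
  have hmono : Monotone σ := by
    intro j j' hjj
    rcases eq_or_lt_of_le hjj with h1 | h1
    · rw [h1]
    · by_contra hcon
      push Not at hcon
      have h2 := a.monotone hcon.le
      rw [hσ, hσ] at h2
      exact absurd h1 (not_lt.2 h2)
  have hkey : ∀ i, (α (σ (a i)) : ℕ) = (α i : ℕ) ∧ (β (σ (a i)) : ℕ) = (β i : ℕ) := by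
    intro i
    have h1 := h (σ (a i))
    have h2 := h i
    rw [hσ] at h1
    rcases le_total i (σ (a i)) with h3 | h3
    · have h4 : (α i : ℕ) ≤ (α (σ (a i)) : ℕ) := Fin.le_def.1 (α.monotone h3)
      have h5 : (β i : ℕ) ≤ (β (σ (a i)) : ℕ) := Fin.le_def.1 (β.monotone h3)
      omega
    · have h4 : (α (σ (a i)) : ℕ) ≤ (α i : ℕ) := Fin.le_def.1 (α.monotone h3)
      have h5 : (β (σ (a i)) : ℕ) ≤ (β i : ℕ) := Fin.le_def.1 (β.monotone h3)
      omega
  refine ⟨α.comp ⟨σ, hmono⟩, β.comp ⟨σ, hmono⟩, ?_, ?_, ?_⟩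
  · intro j
    have h1 := h (σ j)
    rw [hσ] at h1
    exact h1
  · ext i
    exact (hkey i).1
  · ext i
    exact (hkey i).2

open Classical in
/-- reindexing of a sum over pairs along a surjection -/
private theorem A013_reindex {M : Type*} [AddCommMonoid M] {N u s t : ℕ} (a : Mo N u)
    (ha : Function.Surjective a) (G : Mo N s → Mo N t → M) :
    (∑ α1 : Mo u s, ∑ β1 : Mo u t,
      if ∀ j, (α1 j : ℕ) + (β1 j : ℕ) = (j : ℕ) then G (α1.comp a) (β1.comp a) else 0) =
    ∑ α : Mo N s, ∑ β : Mo N t,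
      if ∀ i, (α i : ℕ) + (β i : ℕ) = (a i : ℕ) then G α β else 0 := by
  rw [← Finset.sum_product', ← Finset.sum_product', ← Finset.sum_filter, ← Finset.sum_filter]
  refine Finset.sum_nbij (fun x => (x.1.comp a, x.2.comp a)) ?_ ?_ ?_ ?_
  · intro x hx
    simp only [Finset.mem_filter, Finset.mem_product, Finset.mem_univ, and_self, true_and] at hx ⊢
    intro i
    exact hx (a i)
  · intro x _ y _ hxy
    simp only [Prod.mk.injEq] at hxy
    refine Prod.ext ?_ ?_
    · refine OrderHom.ext _ _ (funext fun j => ?_)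
      obtain ⟨i, rfl⟩ := ha j
      exact congrArg (fun f : Mo N s => f i) hxy.1
    · refine OrderHom.ext _ _ (funext fun j => ?_)
      obtain ⟨i, rfl⟩ := ha j
      exact congrArg (fun f : Mo N t => f i) hxy.2
  · rintro ⟨α, β⟩ hx
    have hx' : ∀ i, (α i : ℕ) + (β i : ℕ) = (a i : ℕ) := by simpa using hx
    obtain ⟨α1, β1, h1, h2, h3⟩ := A013_fac a ha α β hx'
    exact ⟨(α1, β1), by simpa using h1, by rw [← h2, ← h3]⟩
  · intro x _
    rfl

open Classical in
private theorem A013_unique {M : Type*} [AddCommMonoid M] {N u s t v : ℕ} (hu : s + t = u)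
    (α : Mo N s) (β : Mo N t) (γ : Mo N v) (X : M) :
    (∑ a : Mo N u, if (∀ i, (a i : ℕ) + (γ i : ℕ) = (i : ℕ)) ∧
        (∀ i, (α i : ℕ) + (β i : ℕ) = (a i : ℕ)) then X else 0) =
      if ∀ i, (α i : ℕ) + (β i : ℕ) + (γ i : ℕ) = (i : ℕ) then X else 0 := by
  by_cases h : ∀ i, (α i : ℕ) + (β i : ℕ) + (γ i : ℕ) = (i : ℕ)
  · rw [if_pos h]
    let a0 : Mo N u := ⟨fun i => ⟨(α i : ℕ) + (β i : ℕ), by
      have h1 := (α i).2
      have h2 := (β i).2
      omega⟩, by
      intro i j hij
      rw [Fin.le_def]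
      exact Nat.add_le_add (Fin.le_def.1 (α.monotone hij)) (Fin.le_def.1 (β.monotone hij))⟩
    rw [Finset.sum_eq_single a0]
    · rw [if_pos]
      exact ⟨fun i => h i, fun i => rfl⟩
    · intro b _ hb
      rw [if_neg]
      rintro ⟨-, h2⟩
      apply hb
      refine OrderHom.ext _ _ (funext fun i => Fin.ext ?_)
      exact (h2 i).symm
    · intro hcon
      exact absurd (Finset.mem_univ _) hcon
  · rw [if_neg h]
    refine Finset.sum_eq_zero fun a _ => ?_
    rw [if_neg]
    rintro ⟨h1, h2⟩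
    apply h
    intro i
    rw [h2 i]
    exact h1 i

theorem crs_eq_zero {P Q : SV} {p q n : ℕ} (h : p + q ≠ n) (x : P.V p) (y : Q.V q) :
    crs n x y = 0 := by
  unfold crs
  simp [h]

/-- the cross product as a bilinear map -/
theorem crs_bilin (P Q : SV) (p q n : ℕ) :
    ∃ f : P.V p →ₗ[ZMod 2] Q.V q →ₗ[ZMod 2] (P.tens Q).V n, ∀ x y, f x y = crs n x y := by
  classical
  refine ⟨∑ a : Mo n p, ∑ b : Mo n q,
    if (p + q = n ∧ ∀ i, ((a i : ℕ) + (b i : ℕ) = (i : ℕ))) then
      (TensorProduct.mk (ZMod 2) (P.V n) (Q.V n)).compl₁₂ (P.act a) (Q.act b) else 0, ?_⟩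
  intro x y
  unfold crs
  simp only [LinearMap.sum_apply]
  refine Finset.sum_congr rfl fun a _ => Finset.sum_congr rfl fun b _ => ?_
  split_ifs <;> simp

theorem crs_add_left {P Q : SV} {p q n : ℕ} (x x' : P.V p) (y : Q.V q) :
    crs n (x + x') y = crs n x y + crs n x' y := by
  obtain ⟨f, hf⟩ := crs_bilin P Q p q n
  rw [← hf, ← hf, ← hf, map_add, LinearMap.add_apply]

theorem crs_add_right {P Q : SV} {p q n : ℕ} (x : P.V p) (y y' : Q.V q) :
    crs n x (y + y') = crs n x y + crs n x y' := by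
  obtain ⟨f, hf⟩ := crs_bilin P Q p q n
  rw [← hf, ← hf, ← hf, map_add]

/-- tensor product of two linear simplicial maps -/
noncomputable def SVHom.tens {P P' Q Q' : SV} (f : SVHom P P') (g : SVHom Q Q') :
    SVHom (P.tens Q) (P'.tens Q') :=
  ⟨fun n => TensorProduct.map (f.app n) (g.app n), by
    intro m n h x
    induction x using TensorProduct.induction_on with
    | zero => simp
    | tmul x y => simp [f.nat, g.nat]
    | add x y hx hy => simp only [map_add, hx, hy]⟩

theorem crs_map {P P' Q Q' : SV} (f : SVHom P P') (g : SVHom Q Q') {p q n : ℕ} (x : P.V p)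
    (y : Q.V q) : (f.tens g).app n (crs n x y) = crs n (f.app p x) (g.app q y) := by
  unfold crs
  simp only [map_sum]
  refine Finset.sum_congr rfl fun a _ => Finset.sum_congr rfl fun b _ => ?_
  split_ifs
  · show TensorProduct.map (f.app n) (g.app n) _ = _
    rw [TensorProduct.map_tmul, f.nat, g.nat]
  · exact map_zero _

theorem crs_mem_Z {P Q : SV} {p q n : ℕ} {x : P.V p} {y : Q.V q} (hx : x ∈ P.Z p)
    (hy : y ∈ Q.Z q) : crs n x y ∈ (P.tens Q).Z n := by
  have hz1 : ∀ {p q n : ℕ} (y : Q.V q), crs n (0 : P.V p) y = 0 := fun {p q n} y => by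
    obtain ⟨f, hf⟩ := crs_bilin P Q p q n
    rw [← hf, map_zero, LinearMap.zero_apply]
  have hz2 : ∀ {p q n : ℕ} (x : P.V p), crs n x (0 : Q.V q) = 0 := fun {p q n} x => by
    obtain ⟨f, hf⟩ := crs_bilin P Q p q n
    rw [← hf, map_zero]
  cases n with
  | zero => trivial
  | succ n =>
    show (P.tens Q).d n (crs (n + 1) x y) = 0
    cases p with
    | zero =>
      cases q with
      | zero => rw [crs_eq_zero (by omega), map_zero]
      | succ q =>
        have hy' : Q.d q y = 0 := hy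
        rw [d_crs_zero_left, hy', hz2]
    | succ p =>
      have hx' : P.d p x = 0 := hx
      cases q with
      | zero => rw [d_crs_zero_right, hx', hz1]
      | succ q =>
        have hy' : Q.d q y = 0 := hy
        rw [d_crs, hx', hy', hz1, hz2, add_zero]

theorem crs_mem_B_left {P Q : SV} {p q n : ℕ} {x : P.V p} {y : Q.V q} (hx : x ∈ P.B p)
    (hy : y ∈ Q.Z q) : crs n x y ∈ (P.tens Q).B n := by
  obtain ⟨x', rfl⟩ := hx
  refine ⟨crs (n + 1) x' y, ?_⟩
  cases q with
  | zero => exact d_crs_zero_right x' y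
  | succ q =>
    have hy' : Q.d q y = 0 := hy
    obtain ⟨f, hf⟩ := crs_bilin P Q (p + 1) q n
    rw [d_crs, hy', ← hf _ 0, map_zero, add_zero]

theorem crs_mem_B_right {P Q : SV} {p q n : ℕ} {x : P.V p} {y : Q.V q} (hx : x ∈ P.Z p)
    (hy : y ∈ Q.B q) : crs n x y ∈ (P.tens Q).B n := by
  obtain ⟨y', rfl⟩ := hy
  refine ⟨crs (n + 1) x y', ?_⟩
  cases p with
  | zero => exact d_crs_zero_left x y'
  | succ p =>
    have hx' : P.d p x = 0 := hx
    obtain ⟨f, hf⟩ := crs_bilin P Q p (q + 1) n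
    rw [d_crs, hx', ← hf 0, map_zero, LinearMap.zero_apply, zero_add]

/-- the swap -/
noncomputable def SV.swap (P Q : SV) : SVHom (P.tens Q) (Q.tens P) :=
  ⟨fun n => (TensorProduct.comm (ZMod 2) (P.V n) (Q.V n)).toLinearMap, by
    intro m n h x
    induction x using TensorProduct.induction_on with
    | zero => simp
    | tmul x y => simp
    | add x y hx hy => simp only [map_add, hx, hy]⟩

theorem swap_crs {P Q : SV} {p q n : ℕ} (x : P.V p) (y : Q.V q) :
    (SV.swap P Q).app n (crs n x y) = crs n y x := by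
  unfold crs
  simp only [map_sum]
  rw [Finset.sum_comm]
  refine Finset.sum_congr rfl fun a _ => Finset.sum_congr rfl fun b _ => ?_
  by_cases h : p + q = n ∧ ∀ i, ((b i : ℕ) + (a i : ℕ) = (i : ℕ))
  · rw [if_pos h, if_pos ⟨by rw [add_comm]; exact h.1, fun i => by rw [add_comm]; exact h.2 i⟩]
    show TensorProduct.comm (ZMod 2) (P.V n) (Q.V n) _ = _
    rw [TensorProduct.comm_tmul]
  · rw [if_neg h, if_neg, map_zero]
    rintro ⟨h1, h2⟩
    exact h ⟨by rw [add_comm]; exact h1, fun i => by rw [add_comm]; exact h2 i⟩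

/-- the associator -/
noncomputable def SV.assoc (P Q S : SV) : SVHom ((P.tens Q).tens S) (P.tens (Q.tens S)) :=
  ⟨fun n => (TensorProduct.assoc (ZMod 2) (P.V n) (Q.V n) (S.V n)).toLinearMap, by
    intro m n h x
    induction x using TensorProduct.induction_on with
    | zero => simp
    | tmul x z =>
      induction x using TensorProduct.induction_on with
      | zero => simp
      | tmul x y => simp
      | add x y hx hy => simp only [map_add, TensorProduct.add_tmul, hx, hy]
    | add x y hx hy => simp only [map_add, hx, hy]⟩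

theorem assoc_crs {P Q S : SV} {p q r : ℕ} (x : P.V p) (y : Q.V q) (z : S.V r) :
    (SV.assoc P Q S).app (p + q + r) (crs (p + q + r) (crs (p + q) x y) z) =
      crs (p + q + r) x (crs (q + r) y z) := by
  classical
  set N := p + q + r with hN
  set F : Mo N p → Mo N q → Mo N r → (P.tens (Q.tens S)).V N := fun α β γ =>
    P.act α x ⊗ₜ[ZMod 2] (Q.act β y ⊗ₜ[ZMod 2] S.act γ z) with hF
  have hl : (SV.assoc P Q S).app N (crs N (crs (p + q) x y) z) =
      ∑ a : Mo N (p + q), ∑ c : Mo N r, if (∀ i, (a i : ℕ) + (c i : ℕ) = (i : ℕ)) then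
        (∑ α : Mo N p, ∑ β : Mo N q, if ∀ i, (α i : ℕ) + (β i : ℕ) = (a i : ℕ) then
          F α β c else 0) else 0 := by
    unfold crs
    simp only [map_sum]
    refine Finset.sum_congr rfl fun a _ => Finset.sum_congr rfl fun c _ => ?_
    by_cases h : ∀ i, (a i : ℕ) + (c i : ℕ) = (i : ℕ)
    · rw [if_pos h, if_pos ⟨rfl, h⟩, ← A013_reindex a (A013_surj rfl a c h) (fun α β => F α β c)]
      show TensorProduct.assoc (ZMod 2) (P.V N) (Q.V N) (S.V N) _ = _
      rw [TensorProduct.sum_tmul, map_sum]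
      refine Finset.sum_congr rfl fun a1 _ => ?_
      rw [TensorProduct.sum_tmul, map_sum]
      refine Finset.sum_congr rfl fun b1 _ => ?_
      by_cases h1 : ∀ j, (a1 j : ℕ) + (b1 j : ℕ) = (j : ℕ)
      · rw [if_pos h1, if_pos ⟨trivial, h1⟩]
        show TensorProduct.assoc (ZMod 2) (P.V N) (Q.V N) (S.V N)
          ((TensorProduct.map (P.act a) (Q.act a)) _ ⊗ₜ _) = _
        rw [TensorProduct.map_tmul, TensorProduct.assoc_tmul, P.act_comp, Q.act_comp]
      · rw [if_neg h1, if_neg (fun h2 => h1 h2.2), map_zero, TensorProduct.zero_tmul, map_zero]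
    · rw [if_neg h, if_neg (fun h2 => h h2.2), map_zero]
  have hr : crs N x (crs (q + r) y z) =
      ∑ a : Mo N p, ∑ b : Mo N (q + r), if (∀ i, (a i : ℕ) + (b i : ℕ) = (i : ℕ)) then
        (∑ β : Mo N q, ∑ γ : Mo N r, if ∀ i, (β i : ℕ) + (γ i : ℕ) = (b i : ℕ) then
          F a β γ else 0) else 0 := by
    unfold crs
    refine Finset.sum_congr rfl fun a _ => Finset.sum_congr rfl fun b _ => ?_
    by_cases h : ∀ i, (a i : ℕ) + (b i : ℕ) = (i : ℕ)
    · rw [if_pos h, if_pos ⟨by omega, h⟩, ← A013_reindex b (A013_surj (by omega) b a (fun i => by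
        rw [add_comm]; exact h i)) (fun β γ => F a β γ)]
      rw [map_sum, TensorProduct.tmul_sum]
      refine Finset.sum_congr rfl fun b1 _ => ?_
      rw [map_sum, TensorProduct.tmul_sum]
      refine Finset.sum_congr rfl fun c1 _ => ?_
      by_cases h1 : ∀ j, (b1 j : ℕ) + (c1 j : ℕ) = (j : ℕ)
      · rw [if_pos h1, if_pos ⟨rfl, h1⟩]
        show _ ⊗ₜ ((TensorProduct.map (Q.act b) (S.act b)) _) = _
        rw [TensorProduct.map_tmul, Q.act_comp, S.act_comp]
      · rw [if_neg h1, if_neg (fun h2 => h1 h2.2), map_zero, TensorProduct.tmul_zero]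
    · rw [if_neg h, if_neg (fun h2 => h h2.2)]
  have hif : ∀ {c d : Prop} [Decidable c] [Decidable d] {M : Type} [AddCommMonoid M] (X : M),
      (if c then (if d then X else 0) else 0) = if c ∧ d then X else 0 := by
    intro c d _ _ M _ X
    by_cases hc : c <;> by_cases hd : d <;> simp [hc, hd]
  have hpush : ∀ {c : Prop} [Decidable c] {ι : Type} {M : Type} [AddCommMonoid M] (s : Finset ι)
      (X : ι → M),
      (if c then ∑ i ∈ s, X i else 0) = ∑ i ∈ s, if c then X i else 0 := by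
    intro c _ ι M _ s X
    by_cases hc : c <;> simp [hc]
  rw [hl, hr]
  trans ∑ α : Mo N p, ∑ β : Mo N q, ∑ γ : Mo N r,
    if ∀ i, (α i : ℕ) + (β i : ℕ) + (γ i : ℕ) = (i : ℕ) then F α β γ else 0
  · simp only [hpush, hif]
    rw [Finset.sum_comm]
    -- now: sum over c, a, α, β
    calc (∑ c : Mo N r, ∑ a : Mo N (p + q), ∑ α : Mo N p, ∑ β : Mo N q,
          if (∀ i, (a i : ℕ) + (c i : ℕ) = (i : ℕ)) ∧
            (∀ i, (α i : ℕ) + (β i : ℕ) = (a i : ℕ)) then F α β c else 0)
        = ∑ c : Mo N r, ∑ α : Mo N p, ∑ β : Mo N q, ∑ a : Mo N (p + q),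
          if (∀ i, (a i : ℕ) + (c i : ℕ) = (i : ℕ)) ∧
            (∀ i, (α i : ℕ) + (β i : ℕ) = (a i : ℕ)) then F α β c else 0 := by
          refine Finset.sum_congr rfl fun c _ => ?_
          rw [Finset.sum_comm]
          refine Finset.sum_congr rfl fun α _ => ?_
          rw [Finset.sum_comm]
      _ = ∑ c : Mo N r, ∑ α : Mo N p, ∑ β : Mo N q,
          if ∀ i, (α i : ℕ) + (β i : ℕ) + (c i : ℕ) = (i : ℕ) then F α β c else 0 := by
          refine Finset.sum_congr rfl fun c _ => Finset.sum_congr rfl fun α _ =>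
            Finset.sum_congr rfl fun β _ => ?_
          exact A013_unique rfl α β c (F α β c)
      _ = _ := by
          rw [Finset.sum_comm]
          refine Finset.sum_congr rfl fun α _ => ?_
          rw [Finset.sum_comm]
  · symm
    simp only [hpush, hif]
    refine Finset.sum_congr rfl fun α _ => ?_
    rw [Finset.sum_comm]
    refine Finset.sum_congr rfl fun β _ => ?_
    rw [Finset.sum_comm]
    refine Finset.sum_congr rfl fun γ _ => ?_
    rw [show (if ∀ i, (α i : ℕ) + (β i : ℕ) + (γ i : ℕ) = (i : ℕ) then F α β γ else 0) =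
      (if ∀ i, (β i : ℕ) + (γ i : ℕ) + (α i : ℕ) = (i : ℕ) then F α β γ else 0) from
        if_congr (forall_congr' fun i => by rw [add_comm ((β i : ℕ) + (γ i : ℕ)), add_assoc])
          rfl rfl]
    rw [← A013_unique (u := q + r) rfl β γ α (F α β γ)]
    refine Finset.sum_congr rfl fun b _ => if_congr (and_congr_left fun _ =>
      forall_congr' fun i => by rw [add_comm]) rfl rfl

end MM
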