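import Pool.Agent.Lib_MP_33f7bb_d.A009
import Pool.Agent.Lib_MP_33f7bb_d.A013

/-!
# A0-14: tensor products with acyclic simplicial vector spaces are acyclic; exactness tools

`tens_acyclic`: if `Q` is acyclic, `id_Q` is linearly homotopic to `0` (`lhtp_iff`); tensor the homotopy with
`P`: `H_a = id ⊗ H^Q_a`; so `id` of `P ⊗ Q` induces zero in homology (`lprism`).
Tensoring with linear homotopic maps preserves homotopies.
`les_*`: elementary diagram chases for a subobject `C ≤ D` with quotient `D/C` (long exact sequence).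
-/

open scoped TensorProduct

namespace MM

private theorem A014_d {P Q : SV} (f : SVHom P Q) (n : ℕ) (x : P.V (n + 1)) :
    f.app n (P.d n x) = Q.d n (f.app (n + 1) x) := by
  simp only [SV.d, LinearMap.sum_apply, map_sum, f.nat]

private theorem A014_Z {P Q : SV} (f : SVHom P Q) {n : ℕ} {x : P.V n} (hx : x ∈ P.Z n) :
    f.app n x ∈ Q.Z n := by
  cases n with
  | zero => exact Submodule.mem_top
  | succ n =>
    have hx' : P.d n x = 0 := hx
    show Q.d n (f.app (n + 1) x) = 0
    rw [← A014_d, hx', map_zero]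

private theorem A014_B {P Q : SV} (f : SVHom P Q) {n : ℕ} {x : P.V n} (hx : x ∈ P.B n) :
    f.app n x ∈ Q.B n := by
  obtain ⟨w, rfl⟩ := hx
  exact ⟨f.app (n + 1) w, (A014_d f n w).symm⟩

private theorem A014_dZ (P : SV) (n : ℕ) (x : P.V (n + 1)) : P.d n x ∈ P.Z n := by
  cases n with
  | zero => exact Submodule.mem_top
  | succ n => exact P.d_d x

private theorem A014_refl {P Q : SV} (f : SVHom P Q) : LHtp f f :=
  ⟨⟨fun n _ => f.app n, fun g _ x => f.nat g x⟩, fun _ _ => rfl, fun _ _ => rfl⟩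

private def A014_zero (P Q : SV) : SVHom P Q := ⟨fun _ => 0, fun g x => by simp⟩

theorem LHtp.tens {P P' Q Q' : SV} {f f' : SVHom P P'} {g g' : SVHom Q Q'} (hf : LHtp f f')
    (hg : LHtp g g') : LHtp (f.tens g) (f'.tens g') := by
  obtain ⟨H, H0, H1⟩ := hf
  obtain ⟨G, G0, G1⟩ := hg
  refine ⟨⟨fun n a => TensorProduct.map (H.app n a) (G.app n a), ?_⟩, ?_, ?_⟩
  · intro m n h a x
    induction x using TensorProduct.induction_on with
    | zero => simp
    | tmul x y => simp [H.nat, G.nat]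
    | add x y hx hy => simp only [map_add, hx, hy]
  · intro n x
    have e1 : H.app n (cst 0) = f.app n := LinearMap.ext (H0 n)
    have e2 : G.app n (cst 0) = g.app n := LinearMap.ext (G0 n)
    show TensorProduct.map (H.app n (cst 0)) (G.app n (cst 0)) x =
      TensorProduct.map (f.app n) (g.app n) x
    rw [e1, e2]
  · intro n x
    have e1 : H.app n (cst 1) = f'.app n := LinearMap.ext (H1 n)
    have e2 : G.app n (cst 1) = g'.app n := LinearMap.ext (G1 n)
    show TensorProduct.map (H.app n (cst 1)) (G.app n (cst 1)) x =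
      TensorProduct.map (f'.app n) (g'.app n) x
    rw [e1, e2]

private theorem A014_null {Q : SV} (h : Q.Acyclic) : LHtp (SVHom.id Q) (A014_zero Q Q) := by
  rw [lhtp_iff]
  intro n z hz
  show z + 0 ∈ Q.B n
  rw [add_zero]
  exact h n z hz

theorem tens_acyclic_right (P Q : SV) (h : Q.Acyclic) : (P.tens Q).Acyclic := by
  intro n z hz
  have h1 := (lhtp_iff _ _).1 ((A014_refl (SVHom.id P)).tens (A014_null h)) n z hz
  have e1 : ((SVHom.id P).tens (SVHom.id Q)).app n z = z := by
    show TensorProduct.map LinearMap.id LinearMap.id z = z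
    rw [TensorProduct.map_id]
    rfl
  have e2 : ((SVHom.id P).tens (A014_zero Q Q)).app n z = 0 := by
    show TensorProduct.map LinearMap.id (0 : Q.V n →ₗ[ZMod 2] Q.V n) z = 0
    rw [TensorProduct.map_zero_right]
    rfl
  rw [e1, e2, add_zero] at h1
  exact h1

theorem tens_acyclic_left (P Q : SV) (h : P.Acyclic) : (P.tens Q).Acyclic := by
  intro n z hz
  have h1 := (lhtp_iff _ _).1 ((A014_null h).tens (A014_refl (SVHom.id Q))) n z hz
  have e1 : ((SVHom.id P).tens (SVHom.id Q)).app n z = z := by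
    show TensorProduct.map LinearMap.id LinearMap.id z = z
    rw [TensorProduct.map_id]
    rfl
  have e2 : ((A014_zero P P).tens (SVHom.id Q)).app n z = 0 := by
    show TensorProduct.map (0 : P.V n →ₗ[ZMod 2] P.V n) LinearMap.id z = 0
    rw [TensorProduct.map_zero_left]
    rfl
  rw [e1, e2, add_zero] at h1
  exact h1

private theorem A014_quo_mk {D : SV} (C : SubV D) {n : ℕ} (x y : D.V n)
    (h : C.proj.app n x = C.proj.app n y) : x + y ∈ C.car n := by
  have h1 : x - y ∈ C.car n := (Submodule.Quotient.eq _).1 h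
  rw [sub_eq'] at h1
  exact h1

private theorem A014_quo_zero {D : SV} (C : SubV D) {n : ℕ} (x : D.V n) (h : x ∈ C.car n) :
    C.proj.app n x = 0 := (Submodule.Quotient.mk_eq_zero _).2 h

private theorem A014_quo_zero' {D : SV} (C : SubV D) {n : ℕ} (x : D.V n)
    (h : C.proj.app n x = 0) : x ∈ C.car n := (Submodule.Quotient.mk_eq_zero _).1 h

private theorem A014_subd {D : SV} (C : SubV D) {n : ℕ} (x : C.car (n + 1)) :
    ((C.sv.d n x : C.sv.V n) : D.V n) = D.d n x.1 := A014_d C.incl n x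

private theorem A014_subZ {D : SV} (C : SubV D) {n : ℕ} (x : C.car n) (h : x.1 ∈ D.Z n) :
    (x : C.sv.V n) ∈ C.sv.Z n := by
  cases n with
  | zero => exact Submodule.mem_top
  | succ n =>
    show C.sv.d n x = 0
    apply Subtype.ext
    rw [A014_subd]
    exact h

/-- if `C` and the quotient are acyclic, so is `D` -/
theorem acyclic_of_sub_quo {D : SV} (C : SubV D) (h1 : C.sv.Acyclic) (h2 : C.quo.Acyclic) :
    D.Acyclic := by
  intro n z hz
  obtain ⟨w', hw'⟩ := h2 n _ (A014_Z C.proj hz)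
  obtain ⟨w, hw⟩ := Submodule.Quotient.mk_surjective _ w'
  have e : C.proj.app (n + 1) w = w' := hw
  rw [← e, ← A014_d] at hw'
  have hc : z + D.d n w ∈ C.car n := A014_quo_mk C _ _ hw'.symm
  have hcZ : z + D.d n w ∈ D.Z n := add_mem hz (A014_dZ D n w)
  obtain ⟨c, hc'⟩ := h1 n _ (A014_subZ C ⟨_, hc⟩ hcZ)
  have e2 : D.d n c.1 = z + D.d n w := by
    rw [← A014_subd, hc']
  refine ⟨w + c.1, ?_⟩
  rw [map_add, e2, add_comm z, ← add_assoc, two_eq_zero', zero_add]

theorem quo_acyclic {D : SV} (C : SubV D) (h1 : C.sv.Acyclic) (h2 : D.Acyclic) :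
    C.quo.Acyclic := by
  intro n z' hz'
  obtain ⟨z, hz⟩ := Submodule.Quotient.mk_surjective _ z'
  have e : C.proj.app n z = z' := hz
  cases n with
  | zero =>
    obtain ⟨w, hw⟩ := h2 0 z Submodule.mem_top
    refine ⟨C.proj.app 1 w, ?_⟩
    rw [← e, ← hw, A014_d]
  | succ n =>
    have hz0 : C.quo.d n z' = 0 := hz'
    rw [← e, ← A014_d] at hz0
    have hc : D.d n z ∈ C.car n := A014_quo_zero' C _ hz0
    obtain ⟨c, hc'⟩ := h1 n _ (A014_subZ C ⟨_, hc⟩ (A014_dZ D n z))
    have e2 : D.d n c.1 = D.d n z := by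
      rw [← A014_subd, hc']
    have hZ : z + c.1 ∈ D.Z (n + 1) := by
      show D.d n (z + c.1) = 0
      rw [map_add, e2, two_eq_zero']
    obtain ⟨w, hw⟩ := h2 (n + 1) _ hZ
    refine ⟨C.proj.app (n + 2) w, ?_⟩
    rw [← A014_d, hw, map_add, A014_quo_zero C c.1 c.2, add_zero, e]

theorem sub_acyclic {D : SV} (C : SubV D) (h1 : C.quo.Acyclic) (h2 : D.Acyclic) :
    C.sv.Acyclic := by
  intro n c hc
  obtain ⟨w, hw⟩ := h2 n c.1 (A014_Z C.incl hc)
  have hZ : C.proj.app (n + 1) w ∈ C.quo.Z (n + 1) := by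
    show C.quo.d n (C.proj.app (n + 1) w) = 0
    rw [← A014_d, hw]
    exact A014_quo_zero C c.1 c.2
  obtain ⟨v', hv'⟩ := h1 (n + 1) _ hZ
  obtain ⟨v, hv⟩ := Submodule.Quotient.mk_surjective _ v'
  have e : C.proj.app (n + 2) v = v' := hv
  rw [← e, ← A014_d] at hv'
  have hm : w + D.d (n + 1) v ∈ C.car (n + 1) := A014_quo_mk C _ _ hv'.symm
  refine ⟨⟨_, hm⟩, ?_⟩
  apply Subtype.ext
  rw [A014_subd]
  show D.d n (w + D.d (n + 1) v) = c.1
  rw [map_add, D.d_d, add_zero, hw]

/-- acyclicity is invariant under homotopy equivalence: enough: `id ~ g ∘ f` and `Q` acyclic -/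
theorem acyclic_of_retract {P Q : SV} (f : SVHom P Q) (g : SVHom Q P)
    (h : LHtp (g.comp f) (SVHom.id P)) (hQ : Q.Acyclic) : P.Acyclic := by
  intro n z hz
  have h1 : g.app n (f.app n z) + z ∈ P.B n := (lhtp_iff _ _).1 h n z hz
  have h2 : g.app n (f.app n z) ∈ P.B n := A014_B g (hQ n _ (A014_Z f hz))
  have h3 := add_mem h2 h1
  rw [← add_assoc, two_eq_zero', zero_add] at h3
  exact h3

end MM
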