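import Pool.Agent.Lib_MP_33f7bb_d.A007
import Pool.Agent.Lib_MP_33f7bb_d.A010

/-!
# A0-20: calculus of acyclic pairs

All statements are elementary diagram chases with chains.  `acyc_iff_quo`: the quotient of the chains
on `C` by the chains on `A` is acyclic (`(linSub A)` inside `(linSub C).sv`; stated through an auxiliary
subobject).  `acyc_relIso`: chains on `C` mod chains on `A` are isomorphic under a relative isomorphism.
`acyc_of_contraction`: prism formula: `z + (constant part) = dif T z + T dif z`.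
`acyc_horn`: contraction of a horn (and of `Δ^k`) to the vertex `i`: for `i = 0` the homotopy
`(ε, β) ↦ (t ↦ if ε t = 0 then 0 else β t)`; for general `i` use the two homotopies through
`max`/`min`: `β ↦ max(β, i)` and then contract `{i,...,k}` to `i` (both keep the faces containing `i`... the
set of values grows at most by `i`, so the horn at `i` is preserved).
-/

namespace MM

private theorem A020_relCyc_mono {P : SS} {A B : Sub P} (h : A ≤ B) {n : ℕ} {z : Ch P n}
    (hz : RelCyc A z) : RelCyc B z := by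
  cases n with
  | zero => trivial
  | succ n => exact SuppIn.mono h hz

private theorem A020_relCyc_add_dif {P : SS} {A : Sub P} {n : ℕ} {z : Ch P n}
    (hz : RelCyc A z) (w : Ch P (n + 1)) : RelCyc A (z + dif w) := by
  cases n with
  | zero => trivial
  | succ n =>
    show SuppIn A (dif (z + dif w))
    rw [dif_add, dif_dif, add_zero]
    exact hz

private theorem A020_relCyc_dif {P : SS} (A : Sub P) {n : ℕ} (z : Ch P (n + 1)) :
    RelCyc A (dif z) := by
  cases n with
  | zero => trivial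
  | succ n =>
    show SuppIn A (dif (dif z))
    rw [dif_dif]
    exact SuppIn.zero _

/-- splitting a chain along a subcomplex -/
private theorem A020_split {P : SS} {A B : Sub P} {n : ℕ} {z : Ch P n}
    (hz : SuppIn (A ⊔ B) z) : ∃ a b : Ch P n, SuppIn A a ∧ SuppIn B b ∧ z = a + b := by
  classical
  refine ⟨z.filter (fun x => x ∈ A.car n), z.filter (fun x => ¬ x ∈ A.car n), ?_, ?_, ?_⟩
  · intro x hx
    rw [Finsupp.support_filter, Finset.mem_filter] at hx
    exact hx.2
  · intro x hx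
    rw [Finsupp.support_filter, Finset.mem_filter] at hx
    exact (hz x hx.1).resolve_left hx.2
  · exact (Finsupp.filter_add_filter_not z _).symm

private theorem A020_cancel {M : Type*} [AddCommGroup M] [Module (ZMod 2) M] (a b : M) :
    a + b + b = a := by
  rw [add_assoc, two_eq_zero', add_zero]

theorem Acyc.trans {P : SS} {A B C : Sub P} (hAB : A ≤ B) (hBC : B ≤ C) (h : Acyc A B)
    (h' : Acyc B C) : Acyc A C := by
  intro n z hz hc
  obtain ⟨w, hw, hw'⟩ := h' n z hz (A020_relCyc_mono hAB hc)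
  obtain ⟨v, hv, hv'⟩ := h n (z + dif w) hw' (A020_relCyc_add_dif hc w)
  refine ⟨w + v, hw.add (hv.mono hBC), ?_⟩
  rw [dif_add, ← add_assoc]
  exact hv'

theorem Acyc.of_left {P : SS} {A B C : Sub P} (hAB : A ≤ B) (hBC : B ≤ C) (h : Acyc A B)
    (h' : Acyc A C) : Acyc B C := by
  intro n z hz hc
  have hb : ∃ b : Ch P n, SuppIn B b ∧ RelCyc A (z + b) := by
    cases n with
    | zero => exact ⟨0, SuppIn.zero _, trivial⟩
    | succ n =>
      obtain ⟨b, hb, hb'⟩ := h n (dif z) hc (A020_relCyc_dif A z)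
      exact ⟨b, hb, by show SuppIn A (dif (z + b)); rw [dif_add]; exact hb'⟩
  obtain ⟨b, hb, hb'⟩ := hb
  obtain ⟨w, hw, hw'⟩ := h' n (z + b) (hz.add (hb.mono hBC)) hb'
  refine ⟨w, hw, ?_⟩
  have h2 : z + dif w = (z + b + dif w) + b := by
    rw [add_right_comm z b, A020_cancel]
  rw [h2]
  exact (hw'.mono hAB).add hb

theorem Acyc.of_right {P : SS} {A B C : Sub P} (hAB : A ≤ B) (hBC : B ≤ C) (h : Acyc A C)
    (h' : Acyc B C) : Acyc A B := by
  intro n z hz hc
  obtain ⟨w, hw, hw'⟩ := h n z (hz.mono hBC) hc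
  have h1 : SuppIn B (dif w) := by
    have h2 : dif w = (z + dif w) + z := by rw [add_comm z, A020_cancel]
    rw [h2]
    exact (hw'.mono hAB).add hz
  obtain ⟨v, _, hv'⟩ := h' (n + 1) w hw h1
  refine ⟨w + dif v, hv', ?_⟩
  rw [dif_add, dif_dif, add_zero]
  exact hw'

theorem Acyc.refl {P : SS} (A : Sub P) : Acyc A A := by
  intro n z hz _
  refine ⟨0, SuppIn.zero _, ?_⟩
  rw [dif_zero, add_zero]
  exact hz

theorem Acyc.sup {P : SS} {A B : Sub P} (h : Acyc (A ⊓ B) B) : Acyc A (A ⊔ B) := by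
  intro n z hz hc
  obtain ⟨a, b, ha, hb, rfl⟩ := A020_split hz
  have h1 : RelCyc (A ⊓ B) b := by
    cases n with
    | zero => trivial
    | succ n =>
      have hc' : SuppIn A (dif (a + b)) := hc
      have h2 : dif b = dif (a + b) + dif a := by
        rw [dif_add, add_comm (dif a), A020_cancel]
      have h3 : SuppIn A (dif b) := by
        rw [h2]
        exact hc'.add ha.dif
      exact fun x hx => ⟨h3 x hx, hb.dif x hx⟩
  obtain ⟨w, hw, hw'⟩ := h n b hb h1
  refine ⟨w, hw.mono (Sub.le_sup_right' A B), ?_⟩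
  rw [add_assoc]
  exact ha.add fun x hx => (hw' x hx).1

theorem Acyc.of_sup {P : SS} {A B : Sub P} (h : Acyc A (A ⊔ B)) : Acyc (A ⊓ B) B := by
  intro n z hz hc
  obtain ⟨w, hw, hw'⟩ := h n z (hz.mono (Sub.le_sup_right' A B))
    (A020_relCyc_mono (A := A ⊓ B) (B := A) (fun _ _ hx => hx.1) hc)
  obtain ⟨a, b, ha, hb, rfl⟩ := A020_split hw
  refine ⟨b, hb, ?_⟩
  have h1 : z + dif b = (z + dif (a + b)) + dif a := by
    rw [dif_add, add_comm (dif a), ← add_assoc, A020_cancel]
  have h2 : SuppIn A (z + dif b) := by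
    rw [h1]
    exact hw'.add ha.dif
  have h3 : SuppIn B (z + dif b) := hz.add hb.dif
  exact fun x hx => ⟨h2 x hx, h3 x hx⟩

private theorem A020_fin {P : SS} {ι : Type} [Nonempty ι] (C : ι → Sub P)
    (hdir : ∀ i j, ∃ k, C i ≤ C k ∧ C j ≤ C k) {n : ℕ} (z : Ch P n)
    (hz : SuppIn (Sub.iUn C) z) : ∃ i, SuppIn (C i) z := by
  classical
  have key : ∀ s : Finset (P.S n), (∀ x ∈ s, x ∈ (Sub.iUn C).car n) →
      ∃ i, ∀ x ∈ s, x ∈ (C i).car n := by
    intro s
    induction s using Finset.induction_on with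
    | empty => exact fun _ => ⟨Classical.arbitrary ι, fun x hx => by simp at hx⟩
    | insert a s _ ih =>
      intro h
      obtain ⟨i, hi⟩ := ih fun x hx => h x (Finset.mem_insert_of_mem hx)
      obtain ⟨j, hj⟩ := Set.mem_iUnion.1 (h a (Finset.mem_insert_self a s))
      obtain ⟨k, hk, hk'⟩ := hdir i j
      refine ⟨k, fun x hx => ?_⟩
      rcases Finset.mem_insert.1 hx with rfl | hx
      · exact hk' n hj
      · exact hk n (hi x hx)
  exact key z.support hz

/-- directed unions -/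
theorem Acyc.iUn {P : SS} {ι : Type} [Nonempty ι] (A C : ι → Sub P)
    (hdir : ∀ i j, ∃ k, A i ≤ A k ∧ A j ≤ A k ∧ C i ≤ C k ∧ C j ≤ C k)
    (h : ∀ i, ∃ j, A i ≤ A j ∧ C i ≤ C j ∧ Acyc (A j) (C j)) (hAC : ∀ i, A i ≤ C i) :
    Acyc (Sub.iUn A) (Sub.iUn C) := by
  intro n z hz hc
  obtain ⟨i, hi⟩ := A020_fin C (fun i j => by
    obtain ⟨k, _, _, h3, h4⟩ := hdir i j
    exact ⟨k, h3, h4⟩) z hz
  have hk : ∃ k, SuppIn (C k) z ∧ RelCyc (A k) z := by
    cases n with
    | zero => exact ⟨i, hi, trivial⟩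
    | succ n =>
      obtain ⟨j, hj⟩ := A020_fin A (fun i j => by
        obtain ⟨k, h1, h2, _, _⟩ := hdir i j
        exact ⟨k, h1, h2⟩) (dif z) hc
      obtain ⟨k, _, h2, h3, _⟩ := hdir i j
      exact ⟨k, hi.mono h3, hj.mono h2⟩
  obtain ⟨k, hk, hk'⟩ := hk
  obtain ⟨j, h1, h2, h3⟩ := h k
  obtain ⟨w, hw, hw'⟩ := h3 n z (hk.mono h2) (A020_relCyc_mono h1 hk')
  exact ⟨w, hw.mono fun m x hx => Set.mem_iUnion.2 ⟨j, hx⟩,
    hw'.mono fun m x hx => Set.mem_iUnion.2 ⟨j, hx⟩⟩

private theorem A020_suppIn_map {P P' : SS} {n : ℕ} (g : P.S n → P'.S n) {C : Sub P}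
    {C' : Sub P'} (h : ∀ x ∈ C.car n, g x ∈ C'.car n) {z : Ch P n} (hz : SuppIn C z) :
    SuppIn C' (z.mapDomain g : Ch P' n) := by
  classical
  intro y hy
  obtain ⟨x, hx, rfl⟩ := Finset.mem_image.1 (Finsupp.mapDomain_support hy)
  exact h x (hz x hx)

private theorem A020_dif_map {P P' : SS} (φ : Hom P P') {n : ℕ} (z : Ch P (n + 1)) :
    dif (z.mapDomain (φ.app (n + 1)) : Ch P' (n + 1)) = (dif z).mapDomain (φ.app n) := by
  rw [dif, dif, Finsupp.mapDomain_finsetSum]
  refine Finset.sum_congr rfl fun i _ => ?_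
  rw [← Finsupp.mapDomain_comp, ← Finsupp.mapDomain_comp]
  congr 1
  funext x
  exact (φ.nat (dlt i) x).symm

private theorem A020_reflect {P P' : SS} (φ : Hom P P') {A C : Sub P} {A' : Sub P'}
    (hpre : ∀ n, ∀ x ∈ C.car n, (φ.app n x ∈ A'.car n ↔ x ∈ A.car n))
    (hinj : ∀ n, ∀ x ∈ C.car n, ∀ y ∈ C.car n, x ∉ A.car n → y ∉ A.car n →
      φ.app n x = φ.app n y → x = y) {n : ℕ} {z : Ch P n} (hz : SuppIn C z)
    (h : SuppIn A' (z.mapDomain (φ.app n) : Ch P' n)) : SuppIn A z := by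
  classical
  intro x hx
  by_contra hxA
  have hxC := hz x hx
  have hx' : φ.app n x ∉ A'.car n := fun h => hxA ((hpre n x hxC).1 h)
  apply hx'
  apply h
  rw [Finsupp.mem_support_iff]
  have h1 : (z.mapDomain (φ.app n) : Ch P' n) (φ.app n x) = z x := by
    rw [Finsupp.mapDomain, Finsupp.sum_apply, Finsupp.sum]
    rw [Finset.sum_eq_single x]
    · simp
    · intro y hy hyx
      rw [Finsupp.single_apply, if_neg]
      intro hxy
      apply hyx
      refine hinj n y (hz y hy) x hxC (fun hyA => hx' ?_) hxA hxy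
      rw [← hxy]
      exact (hpre n y (hz y hy)).2 hyA
    · intro hx0
      exact absurd hx hx0
  rw [h1]
  exact Finsupp.mem_support_iff.1 hx

private theorem A020_lift {P P' : SS} (φ : Hom P P') {C : Sub P} {A' C' : Sub P'}
    (hsurj : ∀ n, ∀ y ∈ C'.car n, y ∉ A'.car n → ∃ x ∈ C.car n, φ.app n x = y) {n : ℕ}
    (z : Ch P' n) (hz : SuppIn C' z) :
    ∃ w : Ch P n, SuppIn C w ∧ SuppIn A' (w.mapDomain (φ.app n) + z) := by
  classical
  induction z using Finsupp.induction with
  | zero =>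
    refine ⟨0, SuppIn.zero _, ?_⟩
    rw [Finsupp.mapDomain_zero, add_zero]
    exact SuppIn.zero _
  | single_add a b f ha hb ih =>
    have hs : (Finsupp.single a b + f : Ch P' n).support = insert a f.support := by
      rw [Finsupp.support_single_add ha hb, Finset.cons_eq_insert]
    have haC : a ∈ C'.car n := hz a (by rw [hs]; exact Finset.mem_insert_self _ _)
    obtain ⟨w, hw, hw'⟩ := ih fun x hx => hz x (by rw [hs]; exact Finset.mem_insert_of_mem hx)
    by_cases haA : a ∈ A'.car n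
    · refine ⟨w, hw, ?_⟩
      rw [add_left_comm]
      exact (SuppIn.single haA b).add hw'
    · obtain ⟨x, hx, rfl⟩ := hsurj n a haC haA
      refine ⟨Finsupp.single x b + w, (SuppIn.single hx b).add hw, ?_⟩
      rw [Finsupp.mapDomain_add, Finsupp.mapDomain_single]
      have h1 : Finsupp.single (φ.app n x) b + Finsupp.mapDomain (φ.app n) w +
          (Finsupp.single (φ.app n x) b + f) = (Finsupp.mapDomain (φ.app n) w + f) := by
        rw [add_add_add_comm, two_eq_zero', zero_add]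
      rw [h1]
      exact hw'

/-- relative isomorphisms -/
theorem acyc_relIso {P P' : SS} (φ : Hom P P') {A C : Sub P} {A' C' : Sub P'} (hA : A ≤ C)
    (hA' : A' ≤ C') (hmap : ∀ n, ∀ x ∈ C.car n, φ.app n x ∈ C'.car n)
    (hpre : ∀ n, ∀ x ∈ C.car n, (φ.app n x ∈ A'.car n ↔ x ∈ A.car n))
    (hinj : ∀ n, ∀ x ∈ C.car n, ∀ y ∈ C.car n, x ∉ A.car n → y ∉ A.car n →
      φ.app n x = φ.app n y → x = y)
    (hsurj : ∀ n, ∀ y ∈ C'.car n, y ∉ A'.car n → ∃ x ∈ C.car n, φ.app n x = y) :
    Acyc A C ↔ Acyc A' C' := by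
  constructor
  · intro h n z hz hc
    obtain ⟨y, hy, hy'⟩ := A020_lift φ hsurj z hz
    have h1 : RelCyc A y := by
      cases n with
      | zero => trivial
      | succ n =>
        have hc' : SuppIn A' (dif z) := hc
        show SuppIn A (dif y)
        refine A020_reflect φ hpre hinj hy.dif ?_
        rw [← A020_dif_map]
        have h2 : dif (Finsupp.mapDomain (φ.app (n + 1)) y : Ch P' (n + 1)) =
            dif (Finsupp.mapDomain (φ.app (n + 1)) y + z) + dif z := by
          rw [dif_add, A020_cancel]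
        rw [h2]
        exact hy'.dif.add hc'
    obtain ⟨w, hw, hw'⟩ := h n y hy h1
    refine ⟨w.mapDomain (φ.app (n + 1)), A020_suppIn_map _ (hmap (n + 1)) hw, ?_⟩
    have h3 : SuppIn A' ((y + dif w).mapDomain (φ.app n) : Ch P' n) :=
      A020_suppIn_map _ (fun x hx => (hpre n x (hA n hx)).2 hx) hw'
    have h4 : z + dif (Finsupp.mapDomain (φ.app (n + 1)) w : Ch P' (n + 1)) =
        (y + dif w).mapDomain (φ.app n) + (Finsupp.mapDomain (φ.app n) y + z) := by
      rw [A020_dif_map, Finsupp.mapDomain_add, add_comm (Finsupp.mapDomain (φ.app n) y),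
        add_assoc, ← add_assoc (Finsupp.mapDomain (φ.app n) y), two_eq_zero', zero_add, add_comm]
    rw [h4]
    exact h3.add hy'
  · intro h n z hz hc
    have h1 : RelCyc A' (z.mapDomain (φ.app n) : Ch P' n) := by
      cases n with
      | zero => trivial
      | succ n =>
        have hc' : SuppIn A (dif z) := hc
        show SuppIn A' (dif _)
        rw [A020_dif_map]
        exact A020_suppIn_map _ (fun x hx => (hpre n x (hA n hx)).2 hx) hc'
    obtain ⟨w, hw, hw'⟩ := h n _ (A020_suppIn_map _ (hmap n) hz) h1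
    obtain ⟨y, hy, hy'⟩ := A020_lift φ hsurj w hw
    refine ⟨y, hy, ?_⟩
    refine A020_reflect φ hpre hinj (hz.add hy.dif) ?_
    have h2 : Finsupp.mapDomain (φ.app n) (z + dif y) =
        (Finsupp.mapDomain (φ.app n) z + dif w) +
          dif (Finsupp.mapDomain (φ.app (n + 1)) y + w) := by
      rw [dif_add, A020_dif_map, Finsupp.mapDomain_add, add_comm (Finsupp.mapDomain _ (dif y)),
        ← add_assoc, A020_cancel]
    rw [h2]
    exact hw'.add hy'.dif

/-- chains on `A` inside the chains on `C` -/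
noncomputable def linSub2 {P : SS} (A C : Sub P) : SubV (linSub C).sv where
  car n := Submodule.comap ((linSub C).car n).subtype ((linSub A).car n)
  closed f _ hx := (linSub A).closed f hx

private theorem A020_d_val {P : SS} (C : Sub P) {n : ℕ} (z : (linSub C).sv.V (n + 1)) :
    (((linSub C).sv.d n z : (linSub C).sv.V n) : Ch P n) = dif z.1 := by
  have h : (((linSub C).sv.d n z : (linSub C).sv.V n) : Ch P n) = (lin P).d n z.1 := by
    simp only [SV.d, LinearMap.sum_apply]
    rw [← Submodule.subtype_apply, map_sum]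
    rfl
  rw [h]
  exact lin_d z.1

private theorem A020_d_mk {W : SV} (D : SubV W) {n : ℕ} (z : W.V (n + 1)) :
    D.quo.d n ((D.car (n + 1)).mkQ z) = (D.car n).mkQ (W.d n z) := by
  simp only [SV.d, LinearMap.sum_apply, map_sum]
  exact Finset.sum_congr rfl fun i _ => (D.proj.nat (dlt i) z).symm

private theorem A020_mk_mem_B {P : SS} (A C : Sub P) {n : ℕ} (z : (linSub C).sv.V n) :
    ((linSub2 A C).car n).mkQ z ∈ (linSub2 A C).quo.B n ↔
      ∃ w : Ch P (n + 1), SuppIn C w ∧ SuppIn A (z.1 + dif w) := by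
  constructor
  · rintro ⟨w', hw'⟩
    obtain ⟨w, rfl⟩ := Submodule.mkQ_surjective _ w'
    refine ⟨w.1, w.2, ?_⟩
    rw [A020_d_mk, Submodule.mkQ_apply, Submodule.mkQ_apply, Submodule.Quotient.eq, sub_eq'] at hw'
    have h1 : ((linSub C).sv.d n w + z : (linSub C).sv.V n).1 ∈ (linSub A).car n := hw'
    have h2 : ((linSub C).sv.d n w + z : (linSub C).sv.V n).1 = z.1 + dif w.1 := by
      rw [← A020_d_val C w, add_comm]
      rfl
    rw [suppIn_iff, ← h2]
    exact h1
  · rintro ⟨w, hw, hw'⟩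
    refine ⟨((linSub2 A C).car (n + 1)).mkQ ⟨w, hw⟩, ?_⟩
    rw [A020_d_mk, Submodule.mkQ_apply, Submodule.mkQ_apply, Submodule.Quotient.eq, sub_eq']
    show ((linSub C).sv.d n ⟨w, hw⟩ + z : (linSub C).sv.V n).1 ∈ (linSub A).car n
    have h2 : ((linSub C).sv.d n ⟨w, hw⟩ + z : (linSub C).sv.V n).1 = z.1 + dif w := by
      rw [← A020_d_val C ⟨w, hw⟩, add_comm]
      rfl
    rw [h2, ← suppIn_iff]
    exact hw'

private theorem A020_mk_mem_Z {P : SS} (A C : Sub P) {n : ℕ} (z : (linSub C).sv.V n) :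
    ((linSub2 A C).car n).mkQ z ∈ (linSub2 A C).quo.Z n ↔ RelCyc A z.1 := by
  cases n with
  | zero => exact ⟨fun _ => trivial, fun _ => trivial⟩
  | succ n =>
    show _ = _ ↔ SuppIn A (dif z.1)
    rw [A020_d_mk, Submodule.mkQ_apply, Submodule.Quotient.mk_eq_zero, suppIn_iff,
      ← A020_d_val C z]
    exact Iff.rfl

theorem acyc_iff_quo {P : SS} {A C : Sub P} (hA : A ≤ C) :
    Acyc A C ↔ (linSub2 A C).quo.Acyclic := by
  constructor
  · intro h n z' hz'
    obtain ⟨z, rfl⟩ := Submodule.mkQ_surjective _ z'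
    exact (A020_mk_mem_B A C z).2 (h n z.1 z.2 ((A020_mk_mem_Z A C z).1 hz'))
  · intro h n z hz hc
    exact (A020_mk_mem_B A C ⟨z, hz⟩).1 (h n _ ((A020_mk_mem_Z A C ⟨z, hz⟩).2 hc))

private theorem A020_map_id {P : SS} {C : Sub P} {n : ℕ} (g : P.S n → P.S n)
    (h : ∀ x ∈ C.car n, g x = x) {z : Ch P n} (hz : SuppIn C z) : z.mapDomain g = z := by
  calc z.mapDomain g = z.mapDomain _root_.id :=
        Finsupp.mapDomain_congr fun x hx => h x (hz x hx)
    _ = z := Finsupp.mapDomain_id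

/-- a homotopy from the identity of `C` to a map into `A`, constant (or staying in `A`) on `A` -/
theorem acyc_of_deformation {P : SS} {A C : Sub P} (hA : A ≤ C) (H : Hom ((Del 1).prod P) P)
    (h0 : ∀ n, ∀ x ∈ C.car n, H.app n (cst 0, x) = x)
    (h1 : ∀ n, ∀ x ∈ C.car n, H.app n (cst 1, x) ∈ A.car n)
    (hC : ∀ n a, ∀ x ∈ C.car n, H.app n (a, x) ∈ C.car n)
    (hA' : ∀ n a, ∀ x ∈ A.car n, H.app n (a, x) ∈ A.car n) : Acyc A C := by
  obtain ⟨T, hT0, hT, hTs⟩ := prism H
  intro n z hz hc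
  refine ⟨T n z, hTs C C hC n z hz, ?_⟩
  cases n with
  | zero =>
    rw [hT0, A020_map_id _ (h0 0) hz, ← add_assoc, two_eq_zero', zero_add]
    exact A020_suppIn_map _ (h1 0) hz
  | succ n =>
    rw [hT, A020_map_id _ (h0 (n + 1)) hz, ← add_assoc, ← add_assoc, two_eq_zero', zero_add]
    exact (A020_suppIn_map _ (h1 (n + 1)) hz).add (hTs A A hA' n _ hc)

/-- the same with the ends exchanged -/
theorem acyc_of_deformation' {P : SS} {A C : Sub P} (hA : A ≤ C) (H : Hom ((Del 1).prod P) P)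
    (h0 : ∀ n, ∀ x ∈ C.car n, H.app n (cst 1, x) = x)
    (h1 : ∀ n, ∀ x ∈ C.car n, H.app n (cst 0, x) ∈ A.car n)
    (hC : ∀ n a, ∀ x ∈ C.car n, H.app n (a, x) ∈ C.car n)
    (hA' : ∀ n a, ∀ x ∈ A.car n, H.app n (a, x) ∈ A.car n) : Acyc A C := by
  obtain ⟨T, hT0, hT, hTs⟩ := prism H
  intro n z hz hc
  refine ⟨T n z, hTs C C hC n z hz, ?_⟩
  cases n with
  | zero =>
    rw [hT0, A020_map_id _ (h0 0) hz, add_left_comm, two_eq_zero', add_zero]
    exact A020_suppIn_map _ (h1 0) hz
  | succ n =>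
    rw [hT, A020_map_id _ (h0 (n + 1)) hz, add_right_comm, add_left_comm, two_eq_zero', add_zero]
    exact (A020_suppIn_map _ (h1 (n + 1)) hz).add (hTs A A hA' n _ hc)

/-- the augmentation -/
private noncomputable def A020_eps {P : SS} (n : ℕ) : Ch P n →ₗ[ZMod 2] ZMod 2 :=
  Finsupp.linearCombination (ZMod 2) (fun _ => (1 : ZMod 2))

private theorem A020_eps_single {P : SS} {n : ℕ} (x : P.S n) (c : ZMod 2) :
    A020_eps n (Finsupp.single x c : Ch P n) = c := by
  simp [A020_eps]

private theorem A020_eps_map {P P' : SS} {m n : ℕ} (g : P.S n → P'.S m) (z : Ch P n) :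
    A020_eps m (z.mapDomain g : Ch P' m) = A020_eps n z := by
  rw [A020_eps, Finsupp.linearCombination_mapDomain]
  rfl

private theorem A020_map_const {P P' : SS} {m n : ℕ} (y : P'.S m) (z : Ch P n) :
    (z.mapDomain (fun _ => y) : Ch P' m) = Finsupp.single y (A020_eps n z) := by
  induction z using Finsupp.induction_linear with
  | zero => simp
  | add f g hf hg => rw [Finsupp.mapDomain_add, hf, hg, map_add, Finsupp.single_add]
  | single a b => rw [Finsupp.mapDomain_single, A020_eps_single]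

private theorem A020_eps_dif {P : SS} {n : ℕ} (z : Ch P (n + 1)) :
    A020_eps n (dif z) = (n + 2) • A020_eps (n + 1) z := by
  rw [dif, map_sum]
  simp only [A020_eps_map, Finset.sum_const, Finset.card_univ, Fintype.card_fin]

private theorem A020_pt {P : SS} {p : P.S 0} {n : ℕ} {z : Ch P n} (hz : SuppIn (Sub.pt p) z) :
    z = Finsupp.single (P.deg p n) (A020_eps n z) := by
  rw [← A020_map_const]
  exact (A020_map_id (C := Sub.pt p) _ (fun x hx => hx.symm) hz).symm

private theorem A020_null {P : SS} {C : Sub P} (H : Hom ((Del 1).prod C.ss) P) (q : P.S 0)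
    (h0 : ∀ n x, H.app n (cst 0, x) = x.1) (h1 : ∀ n x, H.app n (cst 1, x) = P.deg q n) {n : ℕ}
    (z : Ch P n) (hz : SuppIn C z) (hc : z ∈ (lin P).Z n) :
    ∃ w : Ch P (n + 1), dif w = z + Finsupp.single (P.deg q n) (A020_eps n z) := by
  obtain ⟨T, hT0, hT, -⟩ := prism H
  obtain ⟨y, -, hy⟩ := A020_lift C.incl (C := ⊤) (A' := ⊥) (C' := C)
    (fun n x hx _ => ⟨⟨x, hx⟩, trivial, rfl⟩) z hz
  have hy0 : (y.mapDomain (C.incl.app n) : Ch P n) = z := by
    have h2 : (y.mapDomain (C.incl.app n) : Ch P n) + z = 0 := by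
      rw [← Finsupp.support_eq_empty, Finset.eq_empty_iff_forall_notMem]
      exact fun x hx => hy x hx
    rw [← sub_eq'] at h2
    exact sub_eq_zero.1 h2
  have e0 : (y.mapDomain (fun x => H.app n (cst 0, x)) : Ch P n) = z := by
    rw [← hy0]
    congr 1
    funext x
    exact h0 n x
  have e1 : (y.mapDomain (fun x => H.app n (cst 1, x)) : Ch P n) =
      Finsupp.single (P.deg q n) (A020_eps n z) := by
    have h3 : (fun x => H.app n (cst 1, x)) = fun _ => P.deg q n := funext fun x => h1 n x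
    rw [h3, A020_map_const, ← hy0, A020_eps_map]
  refine ⟨T n y, ?_⟩
  cases n with
  | zero => rw [hT0, e0, e1]
  | succ n =>
    have h4 : dif y = 0 := by
      have h5 : ((dif y).mapDomain (C.incl.app n) : Ch P n) = 0 := by
        rw [← A020_dif_map, hy0, ← lin_d]
        exact hc
      exact Finsupp.mapDomain_injective (f := C.incl.app n)
        (fun a b hab => Subtype.ext hab) (by rw [h5, Finsupp.mapDomain_zero])
    rw [hT, e0, e1, h4, map_zero, add_zero]

/-- every cycle of `P` becomes a boundary in `P` modulo the point: null-homotopic inclusions -/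
theorem acyc_of_null_incl {P : SS} (p : P.S 0) (C : ℕ → Sub P) (hmono : ∀ i, C i ≤ C (i + 1))
    (hp : ∀ i, Sub.pt p ≤ C i) (hall : ∀ n (x : P.S n), ∃ i, x ∈ (C i).car n)
    (h : ∀ i, ∃ (H : Hom ((Del 1).prod (C i).ss) P) (q : P.S 0), q ∈ (C (i + 1)).car 0 ∧
      (∀ n a x, H.app n (a, x) ∈ (C (i + 1)).car n) ∧
      (∀ n x, H.app n (cst 0, x) = x.1) ∧ (∀ n x, H.app n (cst 1, x) = P.deg q n)) :
    Acyc (Sub.pt p) ⊤ := by
  intro n z _ hc
  have hm : Monotone C := monotone_nat_of_le_succ hmono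
  obtain ⟨i, hi⟩ := A020_fin C (fun i j => ⟨max i j, hm (le_max_left i j), hm (le_max_right i j)⟩)
    z fun x _ => by
      obtain ⟨i, hi⟩ := hall n x
      exact Set.mem_iUnion.2 ⟨i, hi⟩
  obtain ⟨H, q, -, -, h0, h1⟩ := h i
  have ha : SuppIn (Sub.pt p) (Finsupp.single (P.deg p n) (A020_eps n z) : Ch P n) :=
    SuppIn.single rfl _
  have h2 : z + Finsupp.single (P.deg p n) (A020_eps n z) ∈ (lin P).Z n := by
    cases n with
    | zero => trivial
    | succ n =>
      have hc' : SuppIn (Sub.pt p) (dif z) := hc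
      show (lin P).d n _ = 0
      rw [lin_d, dif_add, A020_pt hc', A020_pt ha.dif, A020_eps_dif, A020_eps_dif,
        A020_eps_single, two_eq_zero']
  obtain ⟨w, hw⟩ := A020_null H q h0 h1 _ (hi.add (ha.mono (hp i))) h2
  refine ⟨w, SuppIn.top w, ?_⟩
  rw [map_add, A020_eps_single, two_eq_zero', Finsupp.single_zero, add_zero] at hw
  rw [hw, ← add_assoc, two_eq_zero', zero_add]
  exact ha

/-- the homotopy from the identity to `max (·, i)` -/
private def A020_H1 (k : ℕ) (i : Fin (k + 1)) : Hom ((Del 1).prod (Del k)) (Del k) where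
  app n x := ⟨fun t => if x.1 t = 0 then x.2 t else max (x.2 t) i, fun s t hst => by
    have h1 : x.1 s ≤ x.1 t := x.1.monotone hst
    have h2 : x.2 s ≤ x.2 t := x.2.monotone hst
    show (if x.1 s = 0 then x.2 s else max (x.2 s) i) ≤
      (if x.1 t = 0 then x.2 t else max (x.2 t) i)
    by_cases ht : x.1 t = 0
    · have hs : x.1 s = 0 := le_antisymm (ht ▸ h1) (Fin.zero_le _)
      rw [if_pos ht, if_pos hs]
      exact h2
    · rw [if_neg ht]
      split_ifs
      · exact h2.trans (le_max_left _ _)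
      · exact max_le_max h2 le_rfl⟩
  nat _ _ := rfl

/-- the homotopy from `min (·, i)` to the identity -/
private def A020_H2 (k : ℕ) (i : Fin (k + 1)) : Hom ((Del 1).prod (Del k)) (Del k) where
  app n x := ⟨fun t => if x.1 t = 0 then min (x.2 t) i else x.2 t, fun s t hst => by
    have h1 : x.1 s ≤ x.1 t := x.1.monotone hst
    have h2 : x.2 s ≤ x.2 t := x.2.monotone hst
    show (if x.1 s = 0 then min (x.2 s) i else x.2 s) ≤
      (if x.1 t = 0 then min (x.2 t) i else x.2 t)
    by_cases ht : x.1 t = 0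
    · have hs : x.1 s = 0 := le_antisymm (ht ▸ h1) (Fin.zero_le _)
      rw [if_pos ht, if_pos hs]
      exact min_le_min h2 le_rfl
    · rw [if_neg ht]
      split_ifs
      · exact (min_le_left _ _).trans h2
      · exact h2⟩
  nat _ _ := rfl

/-- the simplices with all vertices at least `i` -/
private def A020_up (k : ℕ) (i : Fin (k + 1)) : Sub (Del k) :=
  ⟨fun n => {x | ∀ t, i ≤ (x : Mo n k) t}, fun f _ h t => h (f t)⟩

private theorem A020_H1_val (k : ℕ) (i : Fin (k + 1)) {n : ℕ} (a : Mo n 1) (x : Mo n k)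
    (t : Fin (n + 1)) : ((A020_H1 k i).app n (a, x) : Mo n k) t =
      if a t = 0 then x t else max (x t) i := rfl

private theorem A020_H2_val (k : ℕ) (i : Fin (k + 1)) {n : ℕ} (a : Mo n 1) (x : Mo n k)
    (t : Fin (n + 1)) : ((A020_H2 k i).app n (a, x) : Mo n k) t =
      if a t = 0 then min (x t) i else x t := rfl

private theorem A020_H1_cst0 (k : ℕ) (i : Fin (k + 1)) {n : ℕ} (x : Mo n k) :
    (A020_H1 k i).app n (cst 0, x) = x := by
  apply OrderHom.ext
  funext t
  show (if (0 : Fin 2) = 0 then x t else max (x t) i) = x t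
  exact if_pos rfl

private theorem A020_H2_cst1 (k : ℕ) (i : Fin (k + 1)) {n : ℕ} (x : Mo n k) :
    (A020_H2 k i).app n (cst 1, x) = x := by
  apply OrderHom.ext
  funext t
  show (if (1 : Fin 2) = 0 then min (x t) i else x t) = x t
  exact if_neg one_ne_zero

private theorem A020_H1_cst1 (k : ℕ) (i : Fin (k + 1)) {n : ℕ} (x : Mo n k) :
    (A020_H1 k i).app n (cst 1, x) ∈ (A020_up k i).car n := by
  intro t
  rw [A020_H1_val]
  show i ≤ if (1 : Fin 2) = 0 then x t else max (x t) i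
  rw [if_neg one_ne_zero]
  exact le_max_right _ _

private theorem A020_H2_cst0 (k : ℕ) (i : Fin (k + 1)) {n : ℕ} (x : Mo n k)
    (hx : x ∈ (A020_up k i).car n) : (A020_H2 k i).app n (cst 0, x) = (cst i : Mo n k) := by
  apply OrderHom.ext
  funext t
  show (if (0 : Fin 2) = 0 then min (x t) i else x t) = i
  rw [if_pos rfl]
  exact min_eq_right (hx t)

private theorem A020_H1_up (k : ℕ) (i : Fin (k + 1)) {n : ℕ} (a : Mo n 1) (x : Mo n k)
    (hx : x ∈ (A020_up k i).car n) : (A020_H1 k i).app n (a, x) ∈ (A020_up k i).car n := by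
  intro t
  rw [A020_H1_val]
  split_ifs
  · exact hx t
  · exact le_max_right _ _

private theorem A020_H2_up (k : ℕ) (i : Fin (k + 1)) {n : ℕ} (a : Mo n 1) (x : Mo n k)
    (hx : x ∈ (A020_up k i).car n) : (A020_H2 k i).app n (a, x) ∈ (A020_up k i).car n := by
  intro t
  rw [A020_H2_val]
  split_ifs
  · exact le_min (hx t) le_rfl
  · exact hx t

private theorem A020_H1_horn (k : ℕ) (i : Fin (k + 1)) {n : ℕ} (a : Mo n 1) (x : Mo n k)
    (hx : x ∈ (horn k i).car n) : (A020_H1 k i).app n (a, x) ∈ (horn k i).car n := by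
  obtain ⟨j, hj, h⟩ := hx
  refine ⟨j, hj, fun t => ?_⟩
  rw [A020_H1_val]
  split_ifs
  · exact h t
  · rcases max_choice (x t) i with h1 | h1
    · rw [h1]
      exact h t
    · rw [h1]
      exact hj.symm

private theorem A020_H2_horn (k : ℕ) (i : Fin (k + 1)) {n : ℕ} (a : Mo n 1) (x : Mo n k)
    (hx : x ∈ (horn k i).car n) : (A020_H2 k i).app n (a, x) ∈ (horn k i).car n := by
  obtain ⟨j, hj, h⟩ := hx
  refine ⟨j, hj, fun t => ?_⟩
  rw [A020_H2_val]
  split_ifs
  · rcases min_choice (x t) i with h1 | h1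
    · rw [h1]
      exact h t
    · rw [h1]
      exact hj.symm
  · exact h t

private theorem A020_mem_pt (k : ℕ) (i : Fin (k + 1)) {n : ℕ} (x : Mo n k) :
    x ∈ (Sub.pt (P := Del k) (cst i : Mo 0 k)).car n ↔ x = cst i := Iff.rfl

private theorem A020_H2_pt (k : ℕ) (i : Fin (k + 1)) {n : ℕ} (a : Mo n 1) (x : Mo n k)
    (hx : x ∈ (Sub.pt (P := Del k) (cst i : Mo 0 k)).car n) :
    (A020_H2 k i).app n (a, x) ∈ (Sub.pt (P := Del k) (cst i : Mo 0 k)).car n := by
  rw [A020_mem_pt] at hx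
  subst hx
  rw [A020_mem_pt]
  apply OrderHom.ext
  funext t
  show (if a t = 0 then min i i else i) = i
  rw [min_self, ite_self]

private theorem A020_pt_up (k : ℕ) (i : Fin (k + 1)) :
    Sub.pt (P := Del k) (cst i : Mo 0 k) ≤ A020_up k i := by
  intro n x hx
  rw [A020_mem_pt] at hx
  subst hx
  exact fun _ => le_rfl

private theorem A020_pt_horn (k : ℕ) (i : Fin (k + 1)) (hk : 1 ≤ k) :
    Sub.pt (P := Del k) (cst i : Mo 0 k) ≤ horn k i := by
  intro n x hx
  rw [A020_mem_pt] at hx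
  subst hx
  have : Nontrivial (Fin (k + 1)) := Fin.nontrivial_iff_two_le.2 (by omega)
  obtain ⟨j, hj⟩ := exists_ne i
  exact ⟨j, hj, fun _ => hj.symm⟩

theorem acyc_Del_pt (k : ℕ) (i : Fin (k + 1)) :
    Acyc (Sub.pt (P := Del k) (cst i : Mo 0 k)) ⊤ := by
  refine Acyc.trans (A020_pt_up k i) (Sub.le_top' _) ?_ ?_
  · exact acyc_of_deformation' (A020_pt_up k i) (A020_H2 k i)
      (fun n x _ => A020_H2_cst1 k i x) (fun n x hx => A020_H2_cst0 k i x hx)
      (fun n a x hx => A020_H2_up k i a x hx) (fun n a x hx => A020_H2_pt k i a x hx)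
  · exact acyc_of_deformation (Sub.le_top' _) (A020_H1 k i)
      (fun n x _ => A020_H1_cst0 k i x) (fun n x _ => A020_H1_cst1 k i x)
      (fun n a x _ => trivial) (fun n a x hx => A020_H1_up k i a x hx)

theorem acyc_horn_pt (k : ℕ) (i : Fin (k + 1)) (hk : 1 ≤ k) :
    Acyc (Sub.pt (P := Del k) (cst i : Mo 0 k)) (horn k i) := by
  have h1 : Sub.pt (P := Del k) (cst i : Mo 0 k) ≤ A020_up k i ⊓ horn k i := fun n x hx =>
    ⟨A020_pt_up k i n hx, A020_pt_horn k i hk n hx⟩
  have h2 : A020_up k i ⊓ horn k i ≤ horn k i := fun n x hx => hx.2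
  refine Acyc.trans h1 h2 ?_ ?_
  · exact acyc_of_deformation' h1 (A020_H2 k i)
      (fun n x _ => A020_H2_cst1 k i x) (fun n x hx => A020_H2_cst0 k i x hx.1)
      (fun n a x hx => ⟨A020_H2_up k i a x hx.1, A020_H2_horn k i a x hx.2⟩)
      (fun n a x hx => A020_H2_pt k i a x hx)
  · exact acyc_of_deformation h2 (A020_H1 k i)
      (fun n x _ => A020_H1_cst0 k i x)
      (fun n x hx => ⟨A020_H1_cst1 k i x, A020_H1_horn k i (cst 1) x hx⟩)
      (fun n a x hx => A020_H1_horn k i a x hx)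
      (fun n a x hx => ⟨A020_H1_up k i a x hx.1, A020_H1_horn k i a x hx.2⟩)

theorem acyc_horn (k : ℕ) (i : Fin (k + 1)) (hk : 1 ≤ k) : Acyc (horn k i) ⊤ := by
  exact Acyc.of_left (A020_pt_horn k i hk) (Sub.le_top' _) (acyc_horn_pt k i hk) (acyc_Del_pt k i)

end MM
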