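import Pool.Agent.Lib_MP_33f7bb_d.A014
import Pool.Agent.Lib_MP_33f7bb_d.A020

/-!
# A0-15: the suspension isomorphism for `K'(n) = F[Δ^n]/F[∂Δ^n]`

`H_m (K'(n) ⊗ Q) = H_(m-n) Q`, by `q ↦ iota_n × q`.  Induction on `n`.
`n = 0`: `bd 0 = ⊥`, `K'(0) = F[Δ^0]` = constant `F`, `K'(0) ⊗ Q = Q`, `iota_0 × q = 1 ⊗ q`.
Step `n → n+1`: let `Λ = horn (n+1) 0` (faces containing the vertex `0`; the only missing face is `δ_0`).
Exact sequence `0 → F[∂Δ]/F[Λ] → F[Δ]/F[Λ] → K'(n+1) → 0`; the middle is acyclic (`acyc_horn`, `acyc_Del_pt`),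
and `δ_0 : Δ^n → ∂Δ^(n+1)` induces `K'(n) ≅ F[∂Δ]/F[Λ]` (simplices of `∂Δ` outside `Λ` are exactly `δ_0 ∘ s`, `s` onto).
Tensor with `Q` (exact over a field, level by level).  A cycle `z` of `K'(n+1) ⊗ Q` of degree `m` lifts to
`z' ` in the middle; `d z'` is a cycle of `K'(n) ⊗ Q` of degree `m - 1`, so `d z' = iota_n × y + d w`;
now `iota'_(n+1) × y` (`iota'` the class of the identity in the middle) has boundary `(d iota') × y =
iota_n × y`; so `z' + iota' × y + w` is a cycle of the middle, a boundary.  Injectivity similarly.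
-/

open scoped TensorProduct

namespace MM

/-! ### Auxiliary lemmas -/

private theorem d_app15 {P Q : SV} (f : SVHom P Q) (n : ℕ) (z : P.V (n + 1)) :
    f.app n (P.d n z) = Q.d n (f.app (n + 1) z) := by
  rw [SV.d, SV.d, LinearMap.sum_apply, LinearMap.sum_apply, map_sum]
  exact Finset.sum_congr rfl fun i _ => f.nat (dlt i) z

private theorem app_mem_Z15 {P Q : SV} (f : SVHom P Q) {n : ℕ} {z : P.V n} (hz : z ∈ P.Z n) :
    f.app n z ∈ Q.Z n := by
  cases n with
  | zero => exact Submodule.mem_top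
  | succ n =>
    have h : P.d n z = 0 := hz
    show Q.d n (f.app (n + 1) z) = 0
    rw [← d_app15, h, map_zero]

private theorem app_mem_B15 {P Q : SV} (f : SVHom P Q) {n : ℕ} {z : P.V n} (hz : z ∈ P.B n) :
    f.app n z ∈ Q.B n := by
  obtain ⟨w, rfl⟩ := hz
  exact ⟨f.app (n + 1) w, (d_app15 f n w).symm⟩

private theorem d_mem_Z15 (P : SV) {n : ℕ} (z : P.V (n + 1)) : P.d n z ∈ P.Z n := by
  cases n with
  | zero => exact Submodule.mem_top
  | succ n => exact SV.d_d P z

/-- chains modulo a subcomplex over which everything is acyclic -/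
private theorem quo_acyclic15 {P : SS} (A : Sub P) (h : Acyc A ⊤) : (linSub A).quo.Acyclic := by
  intro k z hz
  obtain ⟨x, rfl⟩ := Submodule.Quotient.mk_surjective _ z
  have hx : RelCyc A x := by
    cases k with
    | zero => trivial
    | succ k =>
      have h1 : (linSub A).quo.d k ((linSub A).proj.app (k + 1) x) = 0 := hz
      rw [← d_app15, lin_d] at h1
      have h2 : dif x ∈ (linSub A).car k := (Submodule.Quotient.mk_eq_zero _).1 h1
      exact h2
  obtain ⟨w, -, hw⟩ := h k x (SuppIn.top x) hx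
  refine ⟨(linSub A).proj.app (k + 1) w, ?_⟩
  rw [← d_app15, lin_d]
  have h3 : (Submodule.Quotient.mk (x + dif w) : Ch P k ⧸ (linSub A).car k) = 0 :=
    (Submodule.Quotient.mk_eq_zero _).2 hw
  rw [Submodule.Quotient.mk_add] at h3
  have h4 := add_eq_zero_iff_eq_neg.1 h3
  rw [h4, neg_eq']
  rfl

section snake

variable {A M C : SV} (f : SVHom A M) (g : SVHom M C)

private theorem snake_surj15 (hf : ∀ n, Function.Injective (f.app n))
    (hg : ∀ n, Function.Surjective (g.app n))
    (hfg : ∀ n, Function.Exact (f.app n) (g.app n)) (hM : M.Acyclic) {k : ℕ}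
    (z : C.V (k + 1)) (hz : z ∈ C.Z (k + 1)) :
    ∃ a ∈ A.Z k, ∀ (e : M.V (k + 1)) (s : A.V k), M.d k e = f.app k s → a + s ∈ A.B k →
      z + g.app (k + 1) e ∈ C.B (k + 1) := by
  obtain ⟨z', rfl⟩ := hg (k + 1) z
  have hz0 : C.d k (g.app (k + 1) z') = 0 := hz
  rw [← d_app15] at hz0
  obtain ⟨a, ha⟩ := (hfg k _).1 hz0
  refine ⟨a, ?_, ?_⟩
  · cases k with
    | zero => exact Submodule.mem_top
    | succ k =>
      show A.d k a = 0
      apply hf k
      rw [d_app15, ha, SV.d_d, map_zero]
  · rintro e s hes ⟨w, hw⟩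
    have h1 : M.d k (z' + f.app (k + 1) w + e) = 0 := by
      rw [map_add, map_add, ← ha, ← d_app15, hw, hes, map_add]
      have h2 := two_eq_zero' (f.app k a)
      have h3 := two_eq_zero' (f.app k s)
      calc f.app k a + (f.app k a + f.app k s) + f.app k s
          = (f.app k a + f.app k a) + (f.app k s + f.app k s) := by abel
        _ = 0 := by rw [h2, h3, add_zero]
    obtain ⟨u, hu⟩ := hM (k + 1) _ (show _ ∈ M.Z (k + 1) from h1)
    refine ⟨g.app (k + 2) u, ?_⟩
    rw [← d_app15, hu, map_add, map_add, (hfg (k + 1) _).2 ⟨w, rfl⟩, add_zero]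

private theorem snake_inj15 (hf : ∀ n, Function.Injective (f.app n))
    (hg : ∀ n, Function.Surjective (g.app n))
    (hfg : ∀ n, Function.Exact (f.app n) (g.app n)) {k : ℕ}
    (e : M.V (k + 1)) (s : A.V k) (hes : M.d k e = f.app k s)
    (h : g.app (k + 1) e ∈ C.B (k + 1)) : s ∈ A.B k := by
  obtain ⟨c, hc⟩ := h
  obtain ⟨c', rfl⟩ := hg (k + 2) c
  rw [← d_app15] at hc
  have h1 : g.app (k + 1) (e + M.d (k + 1) c') = 0 := by
    rw [map_add, hc, two_eq_zero']
  obtain ⟨b, hb⟩ := (hfg (k + 1) _).1 h1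
  refine ⟨b, hf k ?_⟩
  rw [d_app15, hb, map_add, SV.d_d, add_zero, hes]

end snake

/-! ### The exact sequence -/

private theorem horn_le_bd15 (n : ℕ) (k : ℕ) :
    (linSub (horn (n + 1) 0)).car k ≤ (linSub (bd (n + 1))).car k := by
  apply Finsupp.supported_mono
  rintro x ⟨j, -, hj⟩ hs
  obtain ⟨t, ht⟩ := hs j
  exact hj t ht

private theorem dlt_zero_not_mem15 {n m : ℕ} {x : Mo m n}
    (h : (dlt (0 : Fin (n + 2))).comp x ∈ (horn (n + 1) 0).car m) : x ∈ (bd n).car m := by
  obtain ⟨j, hj, h⟩ := h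
  intro hs
  obtain ⟨i, rfl⟩ := Fin.exists_succ_eq.2 hj
  obtain ⟨t, ht⟩ := hs i
  apply h t
  show Fin.succAbove 0 (x t) = i.succ
  rw [ht, Fin.succAbove_zero]

private theorem dlt_zero_mem15 {n m : ℕ} {x : Mo m n} (hx : x ∈ (bd n).car m) :
    (dlt (0 : Fin (n + 2))).comp x ∈ (horn (n + 1) 0).car m := by
  have hx' : ¬ ∀ i, ∃ t, x t = i := hx
  simp only [not_forall, not_exists] at hx'
  obtain ⟨i, hi⟩ := hx'
  refine ⟨i.succ, Fin.succ_ne_zero i, fun t ht => hi t ?_⟩
  have h2 : Fin.succAbove 0 (x t) = i.succ := ht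
  rw [Fin.succAbove_zero] at h2
  exact Fin.succ_injective _ h2

private theorem dlt_zero_inj15 {n m : ℕ} :
    Function.Injective fun x : Mo m n => (dlt (0 : Fin (n + 2))).comp x := by
  intro x y h
  apply OrderHom.ext
  funext t
  have h1 : Fin.succAbove 0 (x t) = Fin.succAbove 0 (y t) := congrArg (fun u : Mo m (n + 1) => u t) h
  exact Fin.succAbove_right_injective h1

/-- `δ_0` on chains -/
private noncomputable def fm15 (n : ℕ) : SVHom (KK n) (linSub (horn (n + 1) 0)).quo where
  app k := Submodule.mapQ _ _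
    (Finsupp.lmapDomain (ZMod 2) (ZMod 2) (fun x : Mo k n => (dlt (0 : Fin (n + 2))).comp x)) (by
      classical
      intro x hx
      rw [Submodule.mem_comap]
      show Finsupp.mapDomain _ x ∈ Finsupp.supported (ZMod 2) (ZMod 2) _
      rw [Finsupp.mem_supported]
      intro y hy
      obtain ⟨z, hz, rfl⟩ := Finset.mem_image.1 (Finsupp.mapDomain_support hy)
      exact dlt_zero_mem15 (hx hz))
  nat {m k} θ x := by
    obtain ⟨x, rfl⟩ := Submodule.Quotient.mk_surjective _ x
    simp only [Submodule.mapQ_apply, Finsupp.lmapDomain_apply, ← Finsupp.mapDomain_comp]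
    rfl

private noncomputable def gm15 (n : ℕ) : SVHom (linSub (horn (n + 1) 0)).quo (KK (n + 1)) where
  app k := Submodule.mapQ _ _ LinearMap.id (horn_le_bd15 n k)
  nat {m k} θ x := by
    obtain ⟨x, rfl⟩ := Submodule.Quotient.mk_surjective _ x
    simp only [Submodule.mapQ_apply]
    rfl

private theorem fm_inj15 (n k : ℕ) : Function.Injective ((fm15 n).app k) := by
  classical
  rw [injective_iff_map_eq_zero]
  intro x hx
  obtain ⟨x, rfl⟩ := Submodule.Quotient.mk_surjective _ x
  have h1 : Finsupp.mapDomain (fun x : Mo k n => (dlt (0 : Fin (n + 2))).comp x) x ∈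
      (linSub (horn (n + 1) 0)).car k := (Submodule.Quotient.mk_eq_zero _).1 hx
  apply (Submodule.Quotient.mk_eq_zero _).2
  show x ∈ Finsupp.supported (ZMod 2) (ZMod 2) ((bd n).car k)
  rw [Finsupp.mem_supported]
  intro y hy
  apply dlt_zero_not_mem15
  apply h1
  rw [Finset.mem_coe, Finsupp.mapDomain_support_of_injective dlt_zero_inj15]
  exact Finset.mem_image.2 ⟨y, hy, rfl⟩

private theorem gm_surj15 (n k : ℕ) : Function.Surjective ((gm15 n).app k) := by
  intro x
  obtain ⟨x, rfl⟩ := Submodule.Quotient.mk_surjective _ x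
  exact ⟨Submodule.Quotient.mk x, rfl⟩

private theorem mem_range15 {n k : ℕ} (x : Mo k (n + 1)) (h : ¬ x ∈ (horn (n + 1) 0).car k)
    (h' : x ∈ (bd (n + 1)).car k) : ∃ y : Mo k n, (dlt (0 : Fin (n + 2))).comp y = x := by
  obtain ⟨i, y, hy⟩ := exists_dlt x h'
  by_cases hi : i = 0
  · subst hi
    exact ⟨y, hy.symm⟩
  · exfalso
    apply h
    refine ⟨i, hi, fun t ht => ?_⟩
    rw [hy] at ht
    exact Fin.succAbove_ne i (y t) ht

private theorem fg_exact15 (n k : ℕ) : Function.Exact ((fm15 n).app k) ((gm15 n).app k) := by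
  classical
  intro x
  obtain ⟨x, rfl⟩ := Submodule.Quotient.mk_surjective _ x
  constructor
  · intro hx
    have hx' : x ∈ (linSub (bd (n + 1))).car k := (Submodule.Quotient.mk_eq_zero _).1 hx
    have hx2 : ∀ y ∈ x.support, y ∈ (bd (n + 1)).car k := hx'
    -- write the chain as a sum over its support
    have key : ∀ (c : Ch (Del (n + 1)) k), (∀ y ∈ c.support, y ∈ (bd (n + 1)).car k) →
        (Submodule.Quotient.mk c : Ch (Del (n + 1)) k ⧸ (linSub (horn (n + 1) 0)).car k) ∈
          LinearMap.range ((fm15 n).app k) := by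
      intro c
      induction c using Finsupp.induction with
      | zero => intro _; rw [Submodule.Quotient.mk_zero]; exact Submodule.zero_mem _
      | single_add y a c hy ha ih =>
        intro hc
        have hsupp : (Finsupp.single y a + c).support = insert y c.support := by
          have hs : (Finsupp.single y a).support = {y} := by
            rw [Finsupp.support_single]
            exact ha
          rw [Finsupp.support_add_eq, hs]
          · rfl
          · rw [hs, Finset.disjoint_singleton_left]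
            exact hy
        rw [Submodule.Quotient.mk_add]
        refine Submodule.add_mem _ ?_ (ih fun z hz => hc z (by
          rw [hsupp]; exact Finset.mem_insert_of_mem hz))
        by_cases hh : y ∈ (horn (n + 1) 0).car k
        · rw [(Submodule.Quotient.mk_eq_zero _).2]
          · exact Submodule.zero_mem _
          · exact SuppIn.single hh a
        · obtain ⟨u, hu⟩ := mem_range15 y hh (hc y (by rw [hsupp]; exact Finset.mem_insert_self _ _))
          refine ⟨Submodule.Quotient.mk (Finsupp.single u a), ?_⟩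
          show Submodule.Quotient.mk (Finsupp.mapDomain _ (Finsupp.single u a)) = _
          rw [Finsupp.mapDomain_single, hu]
    exact key x hx2
  · rintro ⟨a, ha⟩
    obtain ⟨a, rfl⟩ := Submodule.Quotient.mk_surjective _ a
    rw [← ha]
    show (Submodule.Quotient.mk _ : Ch (Del (n + 1)) k ⧸ (linSub (bd (n + 1))).car k) = 0
    apply (Submodule.Quotient.mk_eq_zero _).2
    show Finsupp.mapDomain _ a ∈ Finsupp.supported (ZMod 2) (ZMod 2) _
    rw [Finsupp.mem_supported]
    intro y hy
    obtain ⟨z, hz, rfl⟩ := Finset.mem_image.1 (Finsupp.mapDomain_support hy)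
    intro hs
    obtain ⟨t, ht⟩ := hs 0
    exact Fin.succAbove_ne 0 (z t) ht

/-- the class of the identity in the middle -/
private noncomputable def io15 (n : ℕ) : ((linSub (horn (n + 1) 0)).quo).V (n + 1) :=
  (linSub (horn (n + 1) 0)).proj.app (n + 1) (Finsupp.single (OrderHom.id : Mo (n + 1) (n + 1)) 1)

private theorem gm_io15 (n : ℕ) : (gm15 n).app (n + 1) (io15 n) = KK.iota (n + 1) := rfl

private theorem act_proj_single15 {P : SS} (A : Sub P) {m k : ℕ} (θ : Mo m k) (x : P.S k) :
    (linSub A).quo.act θ ((linSub A).proj.app k (Finsupp.single x 1)) =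
      (linSub A).proj.app m (Finsupp.single (P.act θ x) 1) := by
  rw [← (linSub A).proj.nat]
  congr 1
  show Finsupp.mapDomain (P.act θ) _ = _
  rw [Finsupp.mapDomain_single]

private theorem proj_single_eq_zero15 {P : SS} (A : Sub P) {k : ℕ} {x : P.S k}
    (hx : x ∈ A.car k) : (linSub A).proj.app k (Finsupp.single x 1) = 0 :=
  (Submodule.Quotient.mk_eq_zero _).2 (SuppIn.single hx 1)

private theorem d_io15 (n : ℕ) :
    ((linSub (horn (n + 1) 0)).quo).d n (io15 n) = (fm15 n).app n (KK.iota n) := by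
  rw [SV.d, LinearMap.sum_apply, Fin.sum_univ_succ]
  have h1 : (fm15 n).app n (KK.iota n) =
      ((linSub (horn (n + 1) 0)).quo).act (dlt 0) (io15 n) := by
    rw [io15, act_proj_single15]
    show Submodule.Quotient.mk (Finsupp.mapDomain _ (Finsupp.single _ 1)) = _
    rw [Finsupp.mapDomain_single]
    rfl
  rw [h1]
  convert add_zero _ using 2
  apply Finset.sum_eq_zero
  intro i _
  rw [io15, act_proj_single15]
  apply proj_single_eq_zero15
  refine ⟨i.succ, Fin.succ_ne_zero i, fun t ht => ?_⟩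
  exact Fin.succAbove_ne i.succ t ht

/-! ### The base case -/

private theorem KK_V_zero15 (n k : ℕ) (hk : k < n) (z : (KK n).V k) : z = 0 := by
  obtain ⟨x, rfl⟩ := Submodule.Quotient.mk_surjective _ z
  apply (Submodule.Quotient.mk_eq_zero _).2
  intro y _ hs
  have h1 := Fintype.card_le_of_surjective _ hs
  simp only [Fintype.card_fin] at h1
  omega

/-- augmentation -/
private noncomputable def aug15 (m : ℕ) : (KK 0).V m →ₗ[ZMod 2] ZMod 2 :=
  Submodule.liftQ _ (Finsupp.linearCombination (ZMod 2) (fun _ : Mo m 0 => (1 : ZMod 2))) (by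
    intro x hx
    have h1 : x = 0 := by
      apply Finsupp.support_eq_empty.1
      apply Finset.eq_empty_of_forall_notMem
      intro y hy
      exact hx hy fun i => ⟨0, Subsingleton.elim (α := Fin 1) _ _⟩
    rw [h1]
    exact Submodule.zero_mem _)

private noncomputable def e15 (m : ℕ) : (KK 0).V m :=
  (linSub (bd 0)).proj.app m (Finsupp.single (cst 0 : Mo m 0) 1)

private theorem aug_e15 (m : ℕ) : aug15 m (e15 m) = 1 := by
  show Finsupp.linearCombination (ZMod 2) (fun _ : Mo m 0 => (1 : ZMod 2))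
    (Finsupp.single (cst 0 : Mo m 0) 1) = 1
  simp

private theorem mo_eq15 {m : ℕ} (f g : Mo m 0) : f = g :=
  OrderHom.ext _ _ (funext fun _ => Subsingleton.elim (α := Fin 1) _ _)

private theorem eq_smul15 (m : ℕ) (x : (KK 0).V m) : x = aug15 m x • e15 m := by
  obtain ⟨x, rfl⟩ := Submodule.Quotient.mk_surjective _ x
  induction x using Finsupp.induction_linear with
  | zero => rw [Submodule.Quotient.mk_zero, map_zero, zero_smul]
  | add x y hx hy => rw [Submodule.Quotient.mk_add, map_add, add_smul, ← hx, ← hy]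
  | single a b =>
    have h1 : aug15 m (Submodule.Quotient.mk (Finsupp.single a b)) = b := by
      show Finsupp.linearCombination (ZMod 2) (fun _ : Mo m 0 => (1 : ZMod 2))
        (Finsupp.single a b) = b
      simp
    rw [h1]
    have h2 : a = cst 0 := mo_eq15 _ _
    rw [h2]
    show _ = b • (Submodule.Quotient.mk (Finsupp.single (cst 0 : Mo m 0) 1) :
      Ch (Del 0) m ⧸ (linSub (bd 0)).car m)
    rw [← Submodule.Quotient.mk_smul, Finsupp.smul_single, smul_eq_mul, mul_one]

private theorem act_e15 {m k : ℕ} (θ : Mo m k) : (KK 0).act θ (e15 k) = e15 m := by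
  rw [e15, act_proj_single15]
  rfl

private theorem aug_act15 {m k : ℕ} (θ : Mo m k) (x : (KK 0).V k) :
    aug15 m ((KK 0).act θ x) = aug15 k x := by
  conv_lhs => rw [eq_smul15 k x, map_smul, act_e15, map_smul, aug_e15]
  simp

private theorem iota_zero15 : KK.iota 0 = e15 0 := by
  rw [KK.iota, e15]
  congr 2
  exact mo_eq15 _ _

private noncomputable def fw15 (Q : SV) : SVHom Q ((KK 0).tens Q) where
  app m := TensorProduct.mk (ZMod 2) ((KK 0).V m) (Q.V m) (e15 m)
  nat {m k} θ x := by
    show e15 m ⊗ₜ[ZMod 2] Q.act θ x = TensorProduct.map _ _ (e15 k ⊗ₜ[ZMod 2] x)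
    rw [TensorProduct.map_tmul, act_e15]

private noncomputable def bk15 (Q : SV) : SVHom ((KK 0).tens Q) Q where
  app m := TensorProduct.lift ((LinearMap.lsmul (ZMod 2) (Q.V m)).comp (aug15 m))
  nat {m k} θ x := by
    induction x using TensorProduct.induction_on with
    | zero => simp
    | add x y hx hy => simp only [map_add, hx, hy]
    | tmul x y =>
      show TensorProduct.lift _ (TensorProduct.map _ _ (x ⊗ₜ[ZMod 2] y)) = _
      rw [TensorProduct.map_tmul, TensorProduct.lift.tmul, TensorProduct.lift.tmul]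
      show aug15 m ((KK 0).act θ x) • Q.act θ y = Q.act θ (aug15 k x • y)
      rw [aug_act15, map_smul]

private theorem bk_fw15 (Q : SV) (m : ℕ) (y : Q.V m) : (bk15 Q).app m ((fw15 Q).app m y) = y := by
  show TensorProduct.lift _ (e15 m ⊗ₜ[ZMod 2] y) = y
  rw [TensorProduct.lift.tmul]
  show aug15 m (e15 m) • y = y
  rw [aug_e15, one_smul]

private theorem fw_bk15 (Q : SV) (m : ℕ) (z : ((KK 0).tens Q).V m) :
    (fw15 Q).app m ((bk15 Q).app m z) = z := by
  induction z using TensorProduct.induction_on with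
  | zero => simp
  | add x y hx hy => rw [map_add, map_add, hx, hy]
  | tmul x y =>
    show e15 m ⊗ₜ[ZMod 2] TensorProduct.lift _ (x ⊗ₜ[ZMod 2] y) = x ⊗ₜ[ZMod 2] y
    rw [TensorProduct.lift.tmul]
    show e15 m ⊗ₜ[ZMod 2] (aug15 m x • y) = x ⊗ₜ[ZMod 2] y
    rw [← TensorProduct.smul_tmul, ← eq_smul15]

private theorem crs_iota_zero15 (Q : SV) (m : ℕ) (y : Q.V m) :
    crs m (KK.iota 0) y = (fw15 Q).app m y := by
  classical
  rw [crs, Fintype.sum_eq_single (cst 0 : Mo m 0)]
  · rw [Fintype.sum_eq_single (OrderHom.id : Mo m m)]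
    · rw [if_pos]
      · show (KK 0).act (cst 0) (KK.iota 0) ⊗ₜ[ZMod 2] Q.act OrderHom.id y = e15 m ⊗ₜ[ZMod 2] y
        rw [Q.act_id, iota_zero15, act_e15]
      · refine ⟨by omega, fun i => ?_⟩
        show 0 + (i : ℕ) = i
        omega
    · intro b hb
      rw [if_neg]
      rintro ⟨-, h⟩
      apply hb
      apply OrderHom.ext
      funext i
      have h1 := h i
      have h2 : (((cst 0 : Mo m 0) i : Fin 1) : ℕ) = 0 := rfl
      rw [h2, zero_add] at h1
      exact Fin.ext h1
  · intro a ha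
    exact absurd (mo_eq15 _ _) ha

/-- the differential of `K'(0)` -/
private theorem d_KK_zero15 (k : ℕ) (x : (KK 0).V (k + 1)) :
    (KK 0).d k x = ((k : ZMod 2) * aug15 (k + 1) x) • e15 k := by
  rw [SV.d, LinearMap.sum_apply]
  have h1 : ∀ i : Fin (k + 2), (KK 0).act (dlt i) x = aug15 (k + 1) x • e15 k := by
    intro i
    conv_lhs => rw [eq_smul15 (k + 1) x, map_smul, act_e15]
  rw [Finset.sum_congr rfl fun i _ => h1 i, Finset.sum_const, Finset.card_univ, Fintype.card_fin,
    ← Nat.cast_smul_eq_nsmul (ZMod 2), smul_smul]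
  congr 2
  push_cast
  have : (2 : ZMod 2) = 0 := rfl
  rw [this, add_zero]

private theorem KK_zero_homology15 (k : ℕ) (z : (KK 0).V k) (hz : z ∈ (KK 0).Z k) :
    z ∈ (KK 0).B k ∨ ∃ h : k = 0, z + h ▸ KK.iota 0 ∈ (KK 0).B k := by
  have h01 : ∀ c : ZMod 2, c = 0 ∨ c = 1 := by decide
  cases k with
  | zero =>
    rcases h01 (aug15 0 z) with h | h
    · left
      rw [eq_smul15 0 z, h, zero_smul]
      exact Submodule.zero_mem _
    · right
      refine ⟨rfl, ?_⟩
      show z + KK.iota 0 ∈ (KK 0).B 0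
      rw [eq_smul15 0 z, h, one_smul, iota_zero15, two_eq_zero']
      exact Submodule.zero_mem _
  | succ k =>
    left
    have hz' : (KK 0).d k z = 0 := hz
    rw [d_KK_zero15] at hz'
    have h1 := congrArg (aug15 k) hz'
    rw [map_smul, aug_e15, map_zero, smul_eq_mul, mul_one] at h1
    rcases h01 (k : ZMod 2) with hk | hk
    · -- `k` even: `z` is a boundary
      refine ⟨aug15 (k + 1) z • e15 (k + 2), ?_⟩
      rw [d_KK_zero15, map_smul, aug_e15, smul_eq_mul, mul_one]
      push_cast
      rw [hk, zero_add, one_mul, ← eq_smul15]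
    · rw [hk, one_mul] at h1
      rw [eq_smul15 (k + 1) z, h1, zero_smul]
      exact Submodule.zero_mem _

private theorem iota_zero_not_mem_B15 : KK.iota 0 ∉ (KK 0).B 0 := by
  rintro ⟨c, hc⟩
  rw [d_KK_zero15, Nat.cast_zero, zero_mul, zero_smul, iota_zero15] at hc
  have h1 := congrArg (aug15 0) hc
  rw [map_zero, aug_e15] at h1
  exact absurd h1 (by decide)

/-! ### The tensored sequence -/

section tens

variable (n : ℕ) (Q : SV)

private theorem tf_inj15 (k : ℕ) :
    Function.Injective (((fm15 n).tens (SVHom.id Q)).app k) :=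
  Module.Flat.rTensor_preserves_injective_linearMap (M := Q.V k) ((fm15 n).app k) (fm_inj15 n k)

private theorem tg_surj15 (k : ℕ) :
    Function.Surjective (((gm15 n).tens (SVHom.id Q)).app k) :=
  LinearMap.rTensor_surjective (Q.V k) (gm_surj15 n k)

private theorem tfg_exact15 (k : ℕ) :
    Function.Exact (((fm15 n).tens (SVHom.id Q)).app k) (((gm15 n).tens (SVHom.id Q)).app k) :=
  rTensor_exact (Q.V k) (fg_exact15 n k) (gm_surj15 n k)

private theorem mid_acyclic15 : (linSub (horn (n + 1) 0)).quo.Acyclic :=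
  quo_acyclic15 _ (acyc_horn (n + 1) 0 (by omega))

private theorem d_io_crs15 {m k : ℕ} (y : Q.V m) (hy : y ∈ Q.Z m) :
    ((linSub (horn (n + 1) 0)).quo.tens Q).d k (crs (k + 1) (io15 n) y) =
      ((fm15 n).tens (SVHom.id Q)).app k (crs k (KK.iota n) y) := by
  rw [crs_map]
  show _ = crs k ((fm15 n).app n (KK.iota n)) y
  rw [← d_io15]
  cases m with
  | zero => rw [d_crs_zero_right]
  | succ m =>
    have h1 : Q.d m y = 0 := hy
    rw [d_crs, h1]
    have h2 : crs k (io15 n) (0 : Q.V m) = 0 := by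
      have h3 := crs_add_right (n := k) (io15 n) (0 : Q.V m) 0
      rw [add_zero] at h3
      exact (left_eq_add.1 h3)
    rw [h2, add_zero]

end tens

/-- no homology below `n` -/
theorem KK_tens_low (n : ℕ) (Q : SV) (k : ℕ) (hk : k < n) (z : ((KK n).tens Q).V k)
    (hz : z ∈ ((KK n).tens Q).Z k) : z ∈ ((KK n).tens Q).B k := by
  clear hz
  have h : ∀ u : ((KK n).tens Q).V k, u = 0 := by
    intro u
    induction u using TensorProduct.induction_on with
    | zero => rfl
    | tmul x y => rw [KK_V_zero15 n k hk x, TensorProduct.zero_tmul]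
    | add x y hx hy => rw [hx, hy, add_zero]
  rw [h z]
  exact Submodule.zero_mem _

theorem KK_tens_surj (n : ℕ) (Q : SV) (m k : ℕ) (hk : n + m = k) (z : ((KK n).tens Q).V k)
    (hz : z ∈ ((KK n).tens Q).Z k) :
    ∃ y ∈ Q.Z m, z + crs k (KK.iota n) y ∈ ((KK n).tens Q).B k := by
  induction n generalizing k with
  | zero =>
    obtain rfl : m = k := by omega
    refine ⟨(bk15 Q).app m z, app_mem_Z15 _ hz, ?_⟩
    rw [crs_iota_zero15, fw_bk15, two_eq_zero']
    exact Submodule.zero_mem _
  | succ n ih =>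
    obtain ⟨k, rfl⟩ : ∃ k', k = k' + 1 := ⟨k - 1, by omega⟩
    obtain ⟨a, ha, h⟩ := snake_surj15 ((fm15 n).tens (SVHom.id Q)) ((gm15 n).tens (SVHom.id Q))
      (tf_inj15 n Q) (tg_surj15 n Q) (tfg_exact15 n Q)
      (tens_acyclic_left _ Q (mid_acyclic15 n)) z hz
    obtain ⟨y, hy, hay⟩ := ih k (by omega) a ha
    refine ⟨y, hy, ?_⟩
    have h2 := h (crs (k + 1) (io15 n) y) _ (d_io_crs15 n Q y hy) hay
    rw [crs_map] at h2
    exact h2

theorem KK_tens_inj (n : ℕ) (Q : SV) (m k : ℕ) (hk : n + m = k) (y : Q.V m) (hy : y ∈ Q.Z m)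
    (h : crs k (KK.iota n) y ∈ ((KK n).tens Q).B k) : y ∈ Q.B m := by
  induction n generalizing k with
  | zero =>
    obtain rfl : m = k := by omega
    rw [crs_iota_zero15] at h
    have h1 := app_mem_B15 (bk15 Q) h
    rwa [bk_fw15] at h1
  | succ n ih =>
    obtain ⟨k, rfl⟩ : ∃ k', k = k' + 1 := ⟨k - 1, by omega⟩
    apply ih k (by omega)
    refine snake_inj15 ((fm15 n).tens (SVHom.id Q)) ((gm15 n).tens (SVHom.id Q))
      (tf_inj15 n Q) (tg_surj15 n Q) (tfg_exact15 n Q) (crs (k + 1) (io15 n) y) _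
      (d_io_crs15 n Q y hy) ?_
    rw [crs_map]
    exact h

theorem KK_iota_mem_Z (n : ℕ) : KK.iota n ∈ (KK n).Z n := by
  cases n with
  | zero => exact Submodule.mem_top
  | succ n =>
    show (KK (n + 1)).d n (KK.iota (n + 1)) = 0
    rw [SV.d, LinearMap.sum_apply]
    apply Finset.sum_eq_zero
    intro i _
    rw [KK.iota, act_proj_single15]
    apply proj_single_eq_zero15
    intro hs
    obtain ⟨t, ht⟩ := hs i
    exact Fin.succAbove_ne i t ht

/-- homology of `K'(n)` itself -/
theorem KK_homology (n k : ℕ) (z : (KK n).V k) (hz : z ∈ (KK n).Z k) :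
    z ∈ (KK n).B k ∨ ∃ h : k = n, z + h ▸ KK.iota n ∈ (KK n).B k := by
  induction n generalizing k with
  | zero => exact KK_zero_homology15 k z hz
  | succ n ih =>
    cases k with
    | zero =>
      left
      rw [KK_V_zero15 (n + 1) 0 (by omega) z]
      exact Submodule.zero_mem _
    | succ k =>
      obtain ⟨a, ha, h⟩ := snake_surj15 (fm15 n) (gm15 n)
        (fm_inj15 n) (gm_surj15 n) (fg_exact15 n) (mid_acyclic15 n) z hz
      rcases ih k a ha with h1 | ⟨rfl, h1⟩
      · left
        have h2 := h 0 0 (by rw [map_zero, map_zero]) (by rwa [add_zero])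
        rwa [map_zero, add_zero] at h2
      · right
        refine ⟨rfl, ?_⟩
        exact h (io15 k) (KK.iota k) (d_io15 k) h1

theorem KK_iota_not_mem_B (n : ℕ) : KK.iota n ∉ (KK n).B n := by
  induction n with
  | zero => exact iota_zero_not_mem_B15
  | succ n ih =>
    intro h
    apply ih
    exact snake_inj15 (fm15 n) (gm15 n) (fm_inj15 n) (gm_surj15 n) (fg_exact15 n) (io15 n)
      (KK.iota n) (d_io15 n) h

theorem KK_V_eq_zero (n k : ℕ) (hk : k < n) (z : (KK n).V k) : z = 0 :=
  KK_V_zero15 n k hk z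

end MM
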