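import Pool.Agent.Lib_MP_33f7bb_d.A009
import Pool.Agent.Lib_MP_33f7bb_d.A015

/-!
# A0-16: every simplicial vector space is homotopy equivalent to a direct sum of `K'(n)`'s

Given bases `b n` of `H n P`.  For every basis element choose a Moore cycle `z_(n,i)` representing it
(`exists_moore`); it defines a linear simplicial map `K'(n) → P`, `[θ] ↦ act θ z` (well defined because the
proper faces of `z` vanish); together they give `f : dsum K'(n) → P`, an isomorphism on homology
(homology of a direct sum is the direct sum, homology of `K'(n)`: `KK_homology`).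
`g`: by `exists_hom` for the inverse maps in homology; the two composites induce the identity in homology,
so they are homotopic to the identity by `lhtp_iff`.
-/

open scoped TensorProduct

namespace MM

private theorem A016_d {P Q : SV} (f : SVHom P Q) (n : ℕ) (x : P.V (n + 1)) :
    f.app n (P.d n x) = Q.d n (f.app (n + 1) x) := by
  simp only [SV.d, LinearMap.sum_apply, map_sum, f.nat]

private theorem A016_Z {P Q : SV} (f : SVHom P Q) {n : ℕ} {x : P.V n} (hx : x ∈ P.Z n) :
    f.app n x ∈ Q.Z n := by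
  cases n with
  | zero => exact Submodule.mem_top
  | succ n =>
    have hx' : P.d n x = 0 := hx
    show Q.d n (f.app (n + 1) x) = 0
    rw [← A016_d, hx', map_zero]

private theorem A016_B {P Q : SV} (f : SVHom P Q) {n : ℕ} {x : P.V n} (hx : x ∈ P.B n) :
    f.app n x ∈ Q.B n := by
  obtain ⟨w, rfl⟩ := hx
  exact ⟨f.app (n + 1) w, (A016_d f n w).symm⟩

private theorem A016_dZ (P : SV) (n : ℕ) (x : P.V (n + 1)) : P.d n x ∈ P.Z n := by
  cases n with
  | zero => exact Submodule.mem_top
  | succ n => exact P.d_d x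

private theorem A016_cls_eq {P : SV} {n : ℕ} {z z' : P.V n} (hz : z ∈ P.Z n) (hz' : z' ∈ P.Z n) :
    P.cls z hz = P.cls z' hz' ↔ z + z' ∈ P.B n := by
  rw [SV.cls, SV.cls, Submodule.Quotient.eq, Submodule.mem_comap]
  show (z - z') ∈ _ ↔ _
  rw [sub_eq']

private theorem A016_lhtp {P Q : SV} (u v : SVHom P Q) (κ : ℕ → Type)
    (b : ∀ n, Module.Basis (κ n) (ZMod 2) (P.H n)) (z : ∀ n, κ n → P.V n)
    (hz : ∀ n k, z n k ∈ P.Z n) (hb : ∀ n k, P.cls (z n k) (hz n k) = b n k)
    (h : ∀ n k, u.app n (z n k) + v.app n (z n k) ∈ Q.B n) : LHtp u v := by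
  rw [lhtp_iff]
  intro n x hx
  let L : P.Z n →ₗ[ZMod 2] (Q.V n ⧸ Q.B n) :=
    (Q.B n).mkQ.comp ((u.app n + v.app n).comp (P.Z n).subtype)
  have hL : Submodule.comap (P.Z n).subtype (P.B n) ≤ LinearMap.ker L := by
    rintro ⟨y, hy⟩ hy'
    have hyB : y ∈ P.B n := hy'
    rw [LinearMap.mem_ker]
    exact (Submodule.Quotient.mk_eq_zero _).2 (add_mem (A016_B u hyB) (A016_B v hyB))
  let M : P.H n →ₗ[ZMod 2] (Q.V n ⧸ Q.B n) := Submodule.liftQ _ L hL
  have hM : M = 0 := by
    refine (b n).ext fun k => ?_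
    rw [← hb n k]
    exact (Submodule.Quotient.mk_eq_zero _).2 (h n k)
  have h1 : M (P.cls x hx) = 0 := by rw [hM]; rfl
  exact (Submodule.Quotient.mk_eq_zero _).1 h1

private theorem A016_rep (P : SV) {n : ℕ} (h : P.H n) :
    ∃ (z : P.V n) (hz : z ∈ P.Z n), P.Moore z ∧ P.cls z hz = h := by
  obtain ⟨⟨z0, hz0⟩, hh⟩ := Submodule.Quotient.mk_surjective _ h
  obtain ⟨w, hw⟩ := exists_moore P z0 hz0
  refine ⟨z0 + P.d n w, Moore.mem_Z hw, hw, ?_⟩
  have e : P.cls z0 hz0 = h := hh
  rw [← e, A016_cls_eq]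
  refine ⟨w, ?_⟩
  rw [add_comm z0, add_assoc, two_eq_zero', add_zero]

/-- the map `K'(n) → P` given by a Moore cycle -/
theorem exists_KK_hom {P : SV} {n : ℕ} (z : P.V n) (hz : P.Moore z) :
    ∃ f : SVHom (KK n) P, f.app n (KK.iota n) = z ∧
      ∀ (m : ℕ) (θ : Mo m n), f.app m ((KK n).act θ (KK.iota n)) = P.act θ z := by
  let F : Fn (Del n) P.ss := fun m θ => P.act θ z
  have hF : NatOn (⊤ : Sub (Del n)) F := by
    intro m k g x _
    exact (P.act_comp g x z).symm
  have hker : ∀ m, ((linSub (bd n)).car m) ≤ LinearMap.ker (linExt F m) := by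
    intro m x hx
    rw [LinearMap.mem_ker, linExt_apply]
    refine Finset.sum_eq_zero fun θ hθ => ?_
    have h1 : θ ∈ (bd n).car m := hx hθ
    have h2 : P.act θ z = 0 := hz m θ h1
    show x θ • P.act θ z = 0
    rw [h2, smul_zero]
  let f : SVHom (KK n) P := ⟨fun m => Submodule.liftQ _ (linExt F m) (hker m), by
    intro m k g x
    obtain ⟨x, rfl⟩ := Submodule.Quotient.mk_surjective _ x
    exact linExt_act hF g (SuppIn.top x)⟩
  have hf : f.app n (KK.iota n) = z := by
    show linExt F n (Finsupp.single (OrderHom.id : Mo n n) 1) = z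
    rw [linExt_single, one_smul]
    exact P.act_id z
  exact ⟨f, hf, fun m θ => by rw [f.nat, hf]⟩

private theorem A016_sum {ι : Type} {κ : ι → SV} (P : SV) (F : ∀ i, SVHom (κ i) P) :
    ∃ f : SVHom (dsum κ) P, ∀ (m : ℕ) (i : ι) (v : (κ i).V m) (w : (dsum κ).V m),
      (∀ j, (h : j = i) → w j = h ▸ v) → (∀ j, j ≠ i → w j = 0) → f.app m w = (F i).app m v := by
  classical
  let f : SVHom (dsum κ) P := ⟨fun m => DFinsupp.lsum ℕ (fun i => (F i).app m), by
    intro m n g x
    have : (DFinsupp.lsum ℕ (fun i => (F i).app m)).comp ((dsum κ).act g) =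
        (P.act g).comp (DFinsupp.lsum ℕ (fun i => (F i).app n)) := by
      refine DFinsupp.lhom_ext fun i v => ?_
      simp only [LinearMap.comp_apply, DFinsupp.lsum_single]
      have e : (dsum κ).act g (DFinsupp.single i v) = DFinsupp.single i ((κ i).act g v) := by
        show DFinsupp.mapRange (fun i => (κ i).act g) (fun i => map_zero ((κ i).act g)) _ = _
        rw [DFinsupp.mapRange_single]
      rw [e, DFinsupp.lsum_single]
      exact (F i).nat g v
    exact LinearMap.congr_fun this x⟩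
  refine ⟨f, fun m i v w h1 h2 => ?_⟩
  have e : w = DFinsupp.single i v := by
    refine DFinsupp.ext fun j => ?_
    by_cases hj : j = i
    · subst hj
      rw [h1 j rfl, DFinsupp.single_eq_same]
    · rw [h2 j hj, DFinsupp.single_eq_of_ne hj]
  rw [e]
  show (DFinsupp.lsum ℕ (fun i => (F i).app m)) (DFinsupp.single i v) = _
  rw [DFinsupp.lsum_single]

private theorem A016_inc {ι : Type} (κ : ι → SV) [DecidableEq ι] (i : ι) :
    ∃ J : SVHom (κ i) (dsum κ), ∀ m v, J.app m v = DFinsupp.single i v := by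
  let J : SVHom (κ i) (dsum κ) := ⟨fun m => DFinsupp.lsingle (R := ZMod 2) (M := fun i => (κ i).V m) i, by
    intro m n g x
    show DFinsupp.single i ((κ i).act g x) =
      DFinsupp.mapRange (fun i => (κ i).act g) (fun i => map_zero ((κ i).act g))
        (DFinsupp.single i x)
    rw [DFinsupp.mapRange_single]⟩
  exact ⟨J, fun m v => rfl⟩

private theorem A016_comp {ι : Type} (κ : ι → SV) (i : ι) :
    ∃ J : SVHom (dsum κ) (κ i), ∀ m v, J.app m v = v i :=
  ⟨(⟨fun m => DFinsupp.lapply (R := ZMod 2) (M := fun i => (κ i).V m) i, fun g x => by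
    simp⟩ : SVHom (dsum κ) (κ i)), fun m v => rfl⟩

theorem exists_split (P : SV) (κ : ℕ → Type)
    (b : ∀ n, Module.Basis (κ n) (ZMod 2) (P.H n)) :
    ∃ (f : SVHom (dsum fun i : (Σ n, κ n) => KK i.1) P)
      (g : SVHom P (dsum fun i : (Σ n, κ n) => KK i.1)),
      LHtp (f.comp g) (SVHom.id _) ∧ LHtp (g.comp f) (SVHom.id _) ∧
      ∀ (i : Σ n, κ n), ∃ (z : P.V i.1) (hz : z ∈ P.Z i.1), P.cls z hz = b i.1 i.2 ∧
        ∃ F : SVHom (KK i.1) P, F.app i.1 (KK.iota i.1) = z ∧
          ∀ (m : ℕ) (v : (KK i.1).V m), ∀ w : (dsum fun i : (Σ n, κ n) => KK i.1).V m,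
            (∀ j, (h : j = i) → w j = h ▸ v) → (∀ j, j ≠ i → w j = 0) → f.app m w = F.app m v := by
  classical
  choose z hz hM hcls using fun (n : ℕ) (k : κ n) => A016_rep P (b n k)
  choose F hF _ using fun (i : Σ n, κ n) => exists_KK_hom (z i.1 i.2) (hM i.1 i.2)
  obtain ⟨f, hf⟩ := A016_sum P F
  choose J hJ using fun (i : Σ n, κ n) => A016_inc (fun i : (Σ n, κ n) => KK i.1) i
  have hfJ : ∀ (i : Σ n, κ n) (m : ℕ) (v : (KK i.1).V m),
      f.app m ((J i).app m v) = (F i).app m v := by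
    intro i m v
    refine hf m i v _ ?_ ?_
    · rintro j rfl
      rw [hJ, DFinsupp.single_eq_same]
    · intro j hj
      rw [hJ, DFinsupp.single_eq_of_ne hj]
  -- the map in homology
  have hJZ : ∀ (n : ℕ) (k : κ n), (J ⟨n, k⟩).app n (KK.iota n) ∈
      (dsum fun i : (Σ n, κ n) => KK i.1).Z n := fun n k =>
    A016_Z (J ⟨n, k⟩) (KK_iota_mem_Z n)
  obtain ⟨g, hg⟩ := exists_hom (P := P) (Q := dsum fun i : (Σ n, κ n) => KK i.1)
    (fun n => (b n).constr (ZMod 2) fun k =>
      (dsum fun i : (Σ n, κ n) => KK i.1).cls ((J ⟨n, k⟩).app n (KK.iota n)) (hJZ n k))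
  have hgz : ∀ (n : ℕ) (k : κ n), g.app n (z n k) + (J ⟨n, k⟩).app n (KK.iota n) ∈
      (dsum fun i : (Σ n, κ n) => KK i.1).B n := by
    intro n k
    obtain ⟨h1, h2⟩ := hg n (z n k) (hz n k)
    rw [hcls, Module.Basis.constr_basis] at h2
    exact (A016_cls_eq h1 (hJZ n k)).1 h2
  refine ⟨f, g, ?_, ?_, ?_⟩
  · refine A016_lhtp _ _ κ b z hz hcls ?_
    intro n k
    have h1 := A016_B f (hgz n k)
    rw [map_add, hfJ, hF] at h1
    exact h1
  · rw [lhtp_iff]
    intro n w hw
    show g.app n (f.app n w) + w ∈ (dsum fun i : (Σ n, κ n) => KK i.1).B n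
    have hdec : w = ∑ i ∈ DFinsupp.support w, (J i).app n (w i) := by
      conv_lhs => rw [← DFinsupp.sum_single (f := w)]
      refine Finset.sum_congr rfl fun i _ => ?_
      rw [hJ]
    have hterm : ∀ i : (Σ n, κ n), g.app n (f.app n ((J i).app n (w i))) + (J i).app n (w i) ∈
        (dsum fun i : (Σ n, κ n) => KK i.1).B n := by
      intro i
      obtain ⟨C, hC⟩ := A016_comp (fun i : (Σ n, κ n) => KK i.1) i
      have hwi : w i ∈ (KK i.1).Z n := by
        rw [← hC n w]
        exact A016_Z C hw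
      have hB : ∀ y : (KK i.1).V n, y ∈ (KK i.1).B n →
          g.app n (f.app n ((J i).app n y)) + (J i).app n y ∈
            (dsum fun i : (Σ n, κ n) => KK i.1).B n := fun y hy =>
        add_mem (A016_B g (A016_B f (A016_B (J i) hy))) (A016_B (J i) hy)
      rcases KK_homology i.1 n (w i) hwi with h1 | ⟨h1, h2⟩
      · exact hB _ h1
      · subst h1
        obtain ⟨k, hk⟩ : ∃ k : κ i.1, i = ⟨i.1, k⟩ := ⟨i.2, rfl⟩
        have h3 := hB _ h2
        have h4 : g.app i.1 (f.app i.1 ((J i).app i.1 (KK.iota i.1))) +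
            (J i).app i.1 (KK.iota i.1) ∈ (dsum fun i : (Σ n, κ n) => KK i.1).B i.1 := by
          rw [hfJ, hF]
          exact hgz i.1 i.2
        have h5 := add_mem h3 h4
        simp only [map_add] at h5
        have e : ∀ (a a' c c' : (dsum fun i : (Σ n, κ n) => KK i.1).V i.1),
            a + a' + (c + c') + (a' + c') = a + c := by
          intro a a' c c'
          have e1 : a + a' + (c + c') + (a' + c') = (a + c) + ((a' + a') + (c' + c')) := by abel
          rw [e1, two_eq_zero', two_eq_zero', add_zero, add_zero]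
        rw [e] at h5
        exact h5
    have hsum : g.app n (f.app n w) + w = ∑ i ∈ DFinsupp.support w,
        (g.app n (f.app n ((J i).app n (w i))) + (J i).app n (w i)) := by
      rw [Finset.sum_add_distrib, ← map_sum, ← map_sum, ← hdec]
    rw [hsum]
    exact Submodule.sum_mem _ fun i _ => hterm i
  · intro i
    exact ⟨z i.1 i.2, hz i.1 i.2, hcls i.1 i.2, F i, hF i, fun m v w h1 h2 => hf m i v w h1 h2⟩

end MM
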