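import Pool.Agent.Lib_MP_33f7bb_d.A016

/-!
# A0-17: the Kuenneth theorem

`kun_surj`: every cycle of `P ⊗ Q` is homologous to a finite sum of cross products of cycles.
`kun`: the cross product induces an isomorphism `⊕_(p ≤ n) H_p P ⊗ H_(n-p) Q ≅ H_n (P ⊗ Q)`.

Proof.  Well defined by `crs_mem_Z`, `crs_mem_B_*`.  Both sides are invariant under linear homotopy
equivalences in `P` (`LHtp.tens`, `crs_map`), so by `exists_split` we may take `P` = direct sum of `K'(n_i)`'s;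
`(dsum K'(n_i)) ⊗ Q = dsum (K'(n_i) ⊗ Q)`, homology commutes with direct sums; for `P = K'(n)` it is A0-15:
`H_p K'(n) = F iota_n` for `p = n`, zero else.
-/

open scoped TensorProduct

namespace MM

private theorem A017_d {P Q : SV} (f : SVHom P Q) (n : ℕ) (w : P.V (n + 1)) :
    f.app n (P.d n w) = Q.d n (f.app (n + 1) w) := by
  simp only [SV.d, LinearMap.sum_apply, map_sum]
  exact Finset.sum_congr rfl fun i _ => f.nat (dlt i) w

private theorem A017_B {P Q : SV} (f : SVHom P Q) {n : ℕ} {z : P.V n} (hz : z ∈ P.B n) :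
    f.app n z ∈ Q.B n := by
  obtain ⟨w, rfl⟩ := hz
  exact ⟨f.app (n + 1) w, (A017_d f n w).symm⟩

private theorem A017_Z {P Q : SV} (f : SVHom P Q) {n : ℕ} {z : P.V n} (hz : z ∈ P.Z n) :
    f.app n z ∈ Q.Z n := by
  cases n with
  | zero => trivial
  | succ n =>
    have hz' : P.d n z = 0 := hz
    show Q.d n _ = 0
    rw [← A017_d, hz', map_zero]

private theorem A017_cls_eq {P : SV} {n : ℕ} {x y : P.V n} {hx : x ∈ P.Z n} {hy : y ∈ P.Z n} :
    P.cls x hx = P.cls y hy ↔ x + y ∈ P.B n := by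
  rw [SV.cls, SV.cls, Submodule.Quotient.eq, Submodule.mem_comap, ← sub_eq' x y]
  rfl

private theorem A017_cls_zero {P : SV} {n : ℕ} {x : P.V n} {hx : x ∈ P.Z n} :
    P.cls x hx = 0 ↔ x ∈ P.B n := by
  rw [SV.cls, Submodule.Quotient.mk_eq_zero, Submodule.mem_comap]
  rfl

private theorem A017_cls_add {P : SV} {n : ℕ} {x y : P.V n} {hx : x ∈ P.Z n} {hy : y ∈ P.Z n} :
    P.cls x hx + P.cls y hy = P.cls (x + y) ((P.Z n).add_mem hx hy) := rfl

private theorem A017_cls_smul {P : SV} {n : ℕ} {x : P.V n} {hx : x ∈ P.Z n} (c : ZMod 2) :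
    c • P.cls x hx = P.cls (c • x) ((P.Z n).smul_mem c hx) := rfl

private theorem A017_cls_sum {P : SV} {n : ℕ} {ι : Type} (S : Finset ι) (x : ι → P.V n)
    (hx : ∀ i, x i ∈ P.Z n) :
    ∑ i ∈ S, P.cls (x i) (hx i) =
      P.cls (∑ i ∈ S, x i) ((P.Z n).sum_mem fun i _ => hx i) := by
  classical
  induction S using Finset.induction_on with
  | empty =>
    rw [Finset.sum_empty]
    exact (A017_cls_zero.2 (by rw [Finset.sum_empty]; exact (P.B n).zero_mem)).symm
  | insert a s ha ih =>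
    rw [Finset.sum_insert ha, ih, A017_cls_add]
    congr 1
    rw [Finset.sum_insert ha]

private theorem A017_cls_surj {P : SV} {n : ℕ} (c : P.H n) :
    ∃ (x : P.V n) (hx : x ∈ P.Z n), P.cls x hx = c := by
  obtain ⟨⟨x, hx⟩, rfl⟩ := Submodule.Quotient.mk_surjective _ c
  exact ⟨x, hx, rfl⟩

/-! ### direct sums -/

section dsum

variable {ι : Type} [DecidableEq ι] (P : ι → SV)

private noncomputable def A017_inc (i : ι) : SVHom (P i) (dsum P) :=
  ⟨fun k => (DFinsupp.lsingle (M := fun j => (P j).V k) i : (P i).V k →ₗ[ZMod 2] Π₀ j, (P j).V k),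
    fun {m n} f x => by
      show DFinsupp.single (β := fun j => (P j).V m) i ((P i).act f x) =
        DFinsupp.mapRange (fun j => (P j).act f) (fun j => map_zero _) (DFinsupp.single (β := fun j => (P j).V n) i x)
      rw [DFinsupp.mapRange_single]⟩

private noncomputable def A017_prj (i : ι) : SVHom (dsum P) (P i) :=
  ⟨fun k => (DFinsupp.lapply (M := fun j => (P j).V k) i : (Π₀ j, (P j).V k) →ₗ[ZMod 2] (P i).V k),
    fun _ _ => rfl⟩

private theorem A017_prj_inc (i : ι) (n : ℕ) (x : (P i).V n) :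
    (A017_prj P i).app n ((A017_inc P i).app n x) = x := by
  show (DFinsupp.single (β := fun j => (P j).V n) i x) i = x
  rw [DFinsupp.single_eq_same]

private theorem A017_prj_inc_ne {i j : ι} (h : i ≠ j) (n : ℕ) (x : (P i).V n) :
    (A017_prj P j).app n ((A017_inc P i).app n x) = 0 := by
  show (DFinsupp.single (β := fun j => (P j).V n) i x) j = 0
  exact DFinsupp.single_eq_of_ne h.symm

private theorem A017_decomp (Q : SV) (n : ℕ) (z : ((dsum P).tens Q).V n) :
    ∃ S : Finset ι, ∀ T, S ⊆ T → z = ∑ i ∈ T, ((A017_inc P i).tens (SVHom.id Q)).app n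
      (((A017_prj P i).tens (SVHom.id Q)).app n z) := by
  classical
  induction z using TensorProduct.induction_on with
  | zero => exact ⟨∅, fun T _ => by simp⟩
  | tmul w q =>
    refine ⟨DFinsupp.support w, fun T hT => ?_⟩
    have h1 : ∀ i, ((A017_inc P i).tens (SVHom.id Q)).app n
        (((A017_prj P i).tens (SVHom.id Q)).app n (w ⊗ₜ[ZMod 2] q)) =
        (DFinsupp.single (β := fun j => (P j).V n) i (w i)) ⊗ₜ[ZMod 2] q := fun i => rfl
    simp only [h1]
    rw [← TensorProduct.sum_tmul]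
    congr 1
    apply DFinsupp.ext
    intro j
    rw [DFinsupp.finsetSum_apply]
    by_cases hj : j ∈ T
    · rw [Finset.sum_eq_single j (fun i _ hi => DFinsupp.single_eq_of_ne hi.symm)
        (fun h => absurd hj h), DFinsupp.single_eq_same]
    · rw [Finset.sum_eq_zero]
      · by_contra h
        exact hj (hT (DFinsupp.mem_support_iff.2 h))
      · intro i hi
        exact DFinsupp.single_eq_of_ne (fun h => hj (h ▸ hi))
  | add x y hx hy =>
    obtain ⟨S, hS⟩ := hx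
    obtain ⟨S', hS'⟩ := hy
    refine ⟨S ∪ S', fun T hT => ?_⟩
    have h1 := hS T (Finset.subset_union_left.trans hT)
    have h2 := hS' T (Finset.subset_union_right.trans hT)
    simp only [map_add, Finset.sum_add_distrib]
    rw [← h1, ← h2]

end dsum

/-! ### the sum of the `K'(n)`'s -/

section KD

variable (κ : ℕ → Type)

private noncomputable abbrev A017_D : SV := dsum fun i : (Σ n, κ n) => KK i.1

private theorem A017_crs_inc [DecidableEq (Σ n, κ n)] (Q : SV) (n : ℕ) (i : Σ n, κ n) {q : ℕ}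
    (y : Q.V q) :
    ((A017_inc (fun i : (Σ n, κ n) => KK i.1) i).tens (SVHom.id Q)).app n
      (crs n (KK.iota i.1) y) =
      crs n ((A017_inc (fun i : (Σ n, κ n) => KK i.1) i).app i.1 (KK.iota i.1)) y :=
  crs_map _ _ _ _

private theorem A017_surjD [DecidableEq (Σ n, κ n)] (Q : SV) (n : ℕ)
    (z : ((A017_D κ).tens Q).V n) (hz : z ∈ ((A017_D κ).tens Q).Z n) :
    ∃ (S : Finset (Σ n, κ n)) (y : ∀ i : (Σ n, κ n), Q.V (n - i.1)),
      (∀ i ∈ S, i.1 ≤ n) ∧ (∀ i, y i ∈ Q.Z (n - i.1)) ∧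
      z + ∑ i ∈ S, crs n ((A017_inc (fun i : (Σ n, κ n) => KK i.1) i).app i.1 (KK.iota i.1))
        (y i) ∈ ((A017_D κ).tens Q).B n := by
  classical
  have hpr : ∀ i : (Σ n, κ n),
      ((A017_prj (fun i : (Σ n, κ n) => KK i.1) i).tens (SVHom.id Q)).app n z ∈
        ((KK i.1).tens Q).Z n := fun i => A017_Z _ hz
  have hy : ∀ i : (Σ n, κ n), ∃ y ∈ Q.Z (n - i.1), i.1 ≤ n →
      ((A017_prj (fun i : (Σ n, κ n) => KK i.1) i).tens (SVHom.id Q)).app n z +
        crs n (KK.iota i.1) y ∈ ((KK i.1).tens Q).B n := by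
    intro i
    by_cases h : i.1 ≤ n
    · obtain ⟨y, h1, h2⟩ := KK_tens_surj i.1 Q (n - i.1) n (by omega) _ (hpr i)
      exact ⟨y, h1, fun _ => h2⟩
    · exact ⟨0, (Q.Z _).zero_mem, fun h' => absurd h' h⟩
  choose y hyZ hyB using hy
  obtain ⟨T, hT⟩ := A017_decomp (fun i : (Σ n, κ n) => KK i.1) Q n z
  have hT := hT T (Finset.Subset.refl T)
  refine ⟨T.filter fun i => i.1 ≤ n, y, fun i hi => (Finset.mem_filter.1 hi).2, hyZ, ?_⟩
  have h1 : z + ∑ i ∈ T.filter fun i => i.1 ≤ n,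
      crs n ((A017_inc (fun i : (Σ n, κ n) => KK i.1) i).app i.1 (KK.iota i.1)) (y i) =
      ∑ i ∈ T, ((A017_inc (fun i : (Σ n, κ n) => KK i.1) i).tens (SVHom.id Q)).app n
        (((A017_prj (fun i : (Σ n, κ n) => KK i.1) i).tens (SVHom.id Q)).app n z +
          if i.1 ≤ n then crs n (KK.iota i.1) (y i) else 0) := by
    conv_lhs => rw [hT]
    rw [Finset.sum_filter, ← Finset.sum_add_distrib]
    refine Finset.sum_congr rfl fun i _ => ?_
    rw [map_add]
    congr 1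
    split_ifs
    · rw [A017_crs_inc]
    · rw [map_zero]
  rw [h1]
  refine Submodule.sum_mem _ fun i _ => A017_B _ ?_
  by_cases h : i.1 ≤ n
  · rw [if_pos h]
    exact hyB i h
  · rw [if_neg h, add_zero]
    exact KK_tens_low i.1 Q n (by omega) _ (hpr i)

private theorem A017_injD [DecidableEq (Σ n, κ n)] (Q : SV) (n : ℕ) {ι' : Type}
    (S : Finset ι') (j : ι' → (Σ n, κ n)) (hj : Function.Injective j) (hjn : ∀ a, (j a).1 ≤ n)
    (y : ∀ a, Q.V (n - (j a).1)) (hy : ∀ a, y a ∈ Q.Z (n - (j a).1))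
    (h : ∑ a ∈ S, crs n ((A017_inc (fun i : (Σ n, κ n) => KK i.1) (j a)).app (j a).1
      (KK.iota (j a).1)) (y a) ∈ ((A017_D κ).tens Q).B n) (a : ι') (ha : a ∈ S) :
    y a ∈ Q.B (n - (j a).1) := by
  classical
  have h1 := A017_B ((A017_prj (fun i : (Σ n, κ n) => KK i.1) (j a)).tens (SVHom.id Q)) h
  rw [map_sum, Finset.sum_eq_single a] at h1
  · have h2 := crs_map (A017_prj (fun i : (Σ n, κ n) => KK i.1) (j a)) (SVHom.id Q) (n := n)
      ((A017_inc (fun i : (Σ n, κ n) => KK i.1) (j a)).app (j a).1 (KK.iota (j a).1)) (y a)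
    rw [h2, A017_prj_inc] at h1
    exact KK_tens_inj (j a).1 Q (n - (j a).1) n (by have := hjn a; omega) (y a) (hy a) h1
  · intro b _ hb
    have h2 := crs_map (A017_prj (fun i : (Σ n, κ n) => KK i.1) (j a)) (SVHom.id Q) (n := n)
      ((A017_inc (fun i : (Σ n, κ n) => KK i.1) (j b)).app (j b).1 (KK.iota (j b).1)) (y b)
    rw [h2, A017_prj_inc_ne _ (fun h => hb (hj h))]
    obtain ⟨f, hf⟩ := crs_bilin (KK (j a).1) Q (j b).1 (n - (j b).1) n
    rw [← hf, map_zero, LinearMap.zero_apply]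
  · exact fun h => absurd ha h

end KD

/-- the data of `exists_split` in the form used here -/
private theorem A017_split (P : SV) :
    ∃ (κ : ℕ → Type) (_ : DecidableEq (Σ n, κ n)) (b : ∀ n, Module.Basis (κ n) (ZMod 2) (P.H n))
      (f : SVHom (A017_D κ) P) (g : SVHom P (A017_D κ)),
      LHtp (f.comp g) (SVHom.id _) ∧ LHtp (g.comp f) (SVHom.id _) ∧
      ∀ i : (Σ n, κ n),
        ∃ hz : f.app i.1 ((A017_inc (fun i : (Σ n, κ n) => KK i.1) i).app i.1 (KK.iota i.1)) ∈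
          P.Z i.1, P.cls _ hz = b i.1 i.2 := by
  classical
  let b : ∀ n, Module.Basis (Module.Basis.ofVectorSpaceIndex (ZMod 2) (P.H n)) (ZMod 2) (P.H n) :=
    fun n => Module.Basis.ofVectorSpace (ZMod 2) (P.H n)
  obtain ⟨f, g, h1, h2, h3⟩ := exists_split P
    (fun n => Module.Basis.ofVectorSpaceIndex (ZMod 2) (P.H n)) b
  refine ⟨_, Classical.decEq _, b, f, g, h1, h2, fun i => ?_⟩
  obtain ⟨z, hz, hzb, F, hF, hw⟩ := h3 i
  have e := hw i.1 (KK.iota i.1) ((@A017_inc _ (Classical.decEq _) (fun i : (Σ n, (fun n =>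
      ((Module.Basis.ofVectorSpaceIndex (ZMod 2) (P.H n) : Set (P.H n)) : Type)) n) => KK i.1) i).app
        i.1 (KK.iota i.1)) ?_ ?_
  · rw [hF] at e
    rw [e]
    exact ⟨hz, hzb⟩
  · rintro j rfl
    exact @DFinsupp.single_eq_same _ _ _ (Classical.decEq _) _ _
  · intro j hj
    exact @DFinsupp.single_eq_of_ne _ _ _ (Classical.decEq _) _ _ _ hj

private theorem A017_refl {P Q : SV} (f : SVHom P Q) : LHtp f f := by
  rw [lhtp_iff]
  intro n z _
  rw [two_eq_zero']
  exact (Q.B n).zero_mem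

private theorem A017_comp_tens {P P' P'' : SV} (f : SVHom P' P'') (g : SVHom P P') (Q : SV) (n : ℕ)
    (z : (P.tens Q).V n) :
    (f.tens (SVHom.id Q)).app n ((g.tens (SVHom.id Q)).app n z) =
      ((f.comp g).tens (SVHom.id Q)).app n z := by
  induction z using TensorProduct.induction_on with
  | zero => simp only [map_zero]
  | tmul x y => rfl
  | add x y hx hy => simp only [map_add, hx, hy]

private theorem A017_id_tens (P Q : SV) (n : ℕ) (z : (P.tens Q).V n) :
    ((SVHom.id P).tens (SVHom.id Q)).app n z = z := by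
  induction z using TensorProduct.induction_on with
  | zero => simp only [map_zero]
  | tmul x y => rfl
  | add x y hx hy => simp only [map_add, hx, hy]

private theorem A017_retr {P P' : SV} (f : SVHom P' P) (g : SVHom P P')
    (h : LHtp (f.comp g) (SVHom.id _)) (Q : SV) (n : ℕ) (z : (P.tens Q).V n)
    (hz : z ∈ (P.tens Q).Z n) :
    (f.tens (SVHom.id Q)).app n ((g.tens (SVHom.id Q)).app n z) + z ∈ (P.tens Q).B n := by
  have h1 := (lhtp_iff _ _).1 (h.tens (A017_refl (SVHom.id Q))) n z hz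
  rwa [← A017_comp_tens, A017_id_tens] at h1

theorem kun_surj (P Q : SV) (n : ℕ) (z : (P.tens Q).V n) (hz : z ∈ (P.tens Q).Z n) :
    ∃ (N : ℕ) (p q : Fin N → ℕ) (x : ∀ i, P.V (p i)) (y : ∀ i, Q.V (q i)),
      (∀ i, p i + q i = n) ∧ (∀ i, x i ∈ P.Z (p i)) ∧ (∀ i, y i ∈ Q.Z (q i)) ∧
      z + ∑ i, crs n (x i) (y i) ∈ (P.tens Q).B n := by
  obtain ⟨κ, _, b, f, g, h1, h2, h3⟩ := A017_split P
  obtain ⟨S, y, hS, hy, hB⟩ := A017_surjD κ Q n ((g.tens (SVHom.id Q)).app n z) (A017_Z _ hz)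
  have hB1 := A017_B (f.tens (SVHom.id Q)) hB
  rw [map_add, map_sum] at hB1
  have hB2 := A017_retr f g h1 Q n z hz
  have hB3 := (Submodule.add_mem _ hB1 hB2)
  refine ⟨S.card, fun i => (S.equivFin.symm i).1.1, fun i => n - (S.equivFin.symm i).1.1,
    fun i => f.app _ ((A017_inc (fun i : (Σ n, κ n) => KK i.1) (S.equivFin.symm i).1).app _
      (KK.iota _)), fun i => y (S.equivFin.symm i).1, ?_, ?_, ?_, ?_⟩
  · intro i
    exact Nat.add_sub_of_le (hS _ (S.equivFin.symm i).2)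
  · intro i
    exact (h3 _).choose
  · intro i
    exact hy _
  · have e : z + ∑ i : Fin S.card, crs n (f.app _ ((A017_inc (fun i : (Σ n, κ n) => KK i.1)
        (S.equivFin.symm i).1).app _ (KK.iota _))) (y (S.equivFin.symm i).1) =
        (f.tens (SVHom.id Q)).app n ((g.tens (SVHom.id Q)).app n z) +
          ∑ x ∈ S, (f.tens (SVHom.id Q)).app n (crs n ((A017_inc (fun i : (Σ n, κ n) => KK i.1) x).app
            x.1 (KK.iota x.1)) (y x)) +
        ((f.tens (SVHom.id Q)).app n ((g.tens (SVHom.id Q)).app n z) + z) := by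
      have e1 : ∑ i : Fin S.card, crs n (f.app _ ((A017_inc (fun i : (Σ n, κ n) => KK i.1)
        (S.equivFin.symm i).1).app _ (KK.iota _))) (y (S.equivFin.symm i).1) =
          ∑ x ∈ S, (f.tens (SVHom.id Q)).app n (crs n ((A017_inc (fun i : (Σ n, κ n) => KK i.1) x).app
            x.1 (KK.iota x.1)) (y x)) := by
        rw [← Finset.sum_coe_sort S]
        refine Fintype.sum_equiv S.equivFin.symm _ _ fun i => ?_
        exact (crs_map f (SVHom.id Q) _ _).symm
      rw [e1]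
      have e2 := two_eq_zero' ((f.tens (SVHom.id Q)).app n ((g.tens (SVHom.id Q)).app n z))
      generalize (f.tens (SVHom.id Q)).app n ((g.tens (SVHom.id Q)).app n z) = a at e2 ⊢
      calc _ = (a + a) + (z + _) := by rw [e2, zero_add]
        _ = _ := by abel
    rw [e]
    exact hB3

private theorem A017_bil (P Q : SV) (p q n : ℕ) :
    ∃ F : P.H p →ₗ[ZMod 2] Q.H q →ₗ[ZMod 2] (P.tens Q).H n,
      ∀ (x : P.V p) (hx : x ∈ P.Z p) (y : Q.V q) (hy : y ∈ Q.Z q),
        F (P.cls x hx) (Q.cls y hy) = (P.tens Q).cls (crs n x y) (crs_mem_Z hx hy) := by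
  classical
  choose rP hrP hrP' using fun c : P.H p => A017_cls_surj c
  choose rQ hrQ hrQ' using fun c : Q.H q => A017_cls_surj c
  obtain ⟨f, hf⟩ := crs_bilin P Q p q n
  have key : ∀ (x x' : P.V p) (hx : x ∈ P.Z p) (hx' : x' ∈ P.Z p) (y y' : Q.V q)
      (hy : y ∈ Q.Z q) (hy' : y' ∈ Q.Z q), P.cls x hx = P.cls x' hx' → Q.cls y hy = Q.cls y' hy' →
      (P.tens Q).cls (crs n x y) (crs_mem_Z hx hy) =
        (P.tens Q).cls (crs n x' y') (crs_mem_Z hx' hy') := by
    intro x x' hx hx' y y' hy hy' h1 h2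
    rw [A017_cls_eq] at h1 h2 ⊢
    have e : crs n x y + crs n x' y' = crs n (x + x') y + crs n x' (y + y') := by
      rw [crs_add_left, crs_add_right]
      have e2 := two_eq_zero' (crs n x' y)
      calc _ = crs n x y + (crs n x' y + crs n x' y) + crs n x' y' := by rw [e2, add_zero]
        _ = _ := by abel
    rw [e]
    exact Submodule.add_mem _ (crs_mem_B_left h1 hy) (crs_mem_B_right hx' h2)
  have addL : ∀ (x x' : P.V p) (hx : x ∈ P.Z p) (hx' : x' ∈ P.Z p) (y : Q.V q) (hy : y ∈ Q.Z q),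
      (P.tens Q).cls (crs n (x + x') y) (crs_mem_Z ((P.Z p).add_mem hx hx') hy) =
        (P.tens Q).cls (crs n x y) (crs_mem_Z hx hy) +
          (P.tens Q).cls (crs n x' y) (crs_mem_Z hx' hy) := by
    intro x x' hx hx' y hy
    rw [A017_cls_add, A017_cls_eq, crs_add_left, two_eq_zero']
    exact Submodule.zero_mem _
  have addR : ∀ (x : P.V p) (hx : x ∈ P.Z p) (y y' : Q.V q) (hy : y ∈ Q.Z q) (hy' : y' ∈ Q.Z q),
      (P.tens Q).cls (crs n x (y + y')) (crs_mem_Z hx ((Q.Z q).add_mem hy hy')) =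
        (P.tens Q).cls (crs n x y) (crs_mem_Z hx hy) +
          (P.tens Q).cls (crs n x y') (crs_mem_Z hx hy') := by
    intro x hx y y' hy hy'
    rw [A017_cls_add, A017_cls_eq, crs_add_right, two_eq_zero']
    exact Submodule.zero_mem _
  have smulL : ∀ (c : ZMod 2) (x : P.V p) (hx : x ∈ P.Z p) (y : Q.V q) (hy : y ∈ Q.Z q),
      (P.tens Q).cls (crs n (c • x) y) (crs_mem_Z ((P.Z p).smul_mem c hx) hy) =
        c • (P.tens Q).cls (crs n x y) (crs_mem_Z hx hy) := by
    intro c x hx y hy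
    rw [A017_cls_smul, A017_cls_eq, ← hf, ← hf, map_smul, LinearMap.smul_apply, two_eq_zero']
    exact Submodule.zero_mem _
  have smulR : ∀ (c : ZMod 2) (x : P.V p) (hx : x ∈ P.Z p) (y : Q.V q) (hy : y ∈ Q.Z q),
      (P.tens Q).cls (crs n x (c • y)) (crs_mem_Z hx ((Q.Z q).smul_mem c hy)) =
        c • (P.tens Q).cls (crs n x y) (crs_mem_Z hx hy) := by
    intro c x hx y hy
    rw [A017_cls_smul, A017_cls_eq, ← hf, ← hf, map_smul, two_eq_zero']
    exact Submodule.zero_mem _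
  refine ⟨LinearMap.mk₂ (ZMod 2) (fun c c' =>
    (P.tens Q).cls (crs n (rP c) (rQ c')) (crs_mem_Z (hrP c) (hrQ c'))) ?_ ?_ ?_ ?_, ?_⟩
  · intro m m' k
    rw [← addL _ _ (hrP m) (hrP m') _ (hrQ k)]
    refine key _ _ (hrP _) ((P.Z p).add_mem (hrP _) (hrP _)) _ _ (hrQ _) (hrQ _) ?_ rfl
    rw [hrP', ← A017_cls_add (hx := hrP m) (hy := hrP m'), hrP', hrP']
  · intro c m k
    rw [← smulL _ _ (hrP m) _ (hrQ k)]
    refine key _ _ (hrP _) ((P.Z p).smul_mem c (hrP _)) _ _ (hrQ _) (hrQ _) ?_ rfl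
    rw [hrP', ← A017_cls_smul (hx := hrP m), hrP']
  · intro m k k'
    rw [← addR _ (hrP m) _ _ (hrQ k) (hrQ k')]
    refine key _ _ (hrP _) (hrP _) _ _ (hrQ _) ((Q.Z q).add_mem (hrQ _) (hrQ _)) rfl ?_
    rw [hrQ', ← A017_cls_add (hx := hrQ k) (hy := hrQ k'), hrQ', hrQ']
  · intro c m k
    rw [← smulR _ _ (hrP m) _ (hrQ k)]
    refine key _ _ (hrP _) (hrP _) _ _ (hrQ _) ((Q.Z q).smul_mem c (hrQ _)) rfl ?_
    rw [hrQ', ← A017_cls_smul (hx := hrQ k), hrQ']
  · intro x hx y hy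
    exact key _ _ _ _ _ _ _ _ (hrP' _) (hrQ' _)

theorem kun (P Q : SV) (n : ℕ) :
    ∃ e : (Π₀ p : Fin (n + 1), (P.H p ⊗[ZMod 2] Q.H (n - p))) ≃ₗ[ZMod 2] (P.tens Q).H n,
      ∀ (p : Fin (n + 1)) (x : P.V p) (hx : x ∈ P.Z p) (y : Q.V (n - p))
        (hy : y ∈ Q.Z (n - p)),
        e (DFinsupp.single p (P.cls x hx ⊗ₜ[ZMod 2] Q.cls y hy)) =
          (P.tens Q).cls (crs n x y) (crs_mem_Z hx hy) := by
  choose F hF using fun p : Fin (n + 1) => A017_bil P Q p (n - p) n
  let E : (Π₀ p : Fin (n + 1), (P.H p ⊗[ZMod 2] Q.H (n - p))) →ₗ[ZMod 2] (P.tens Q).H n :=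
    DFinsupp.lsum ℕ fun p : Fin (n + 1) => TensorProduct.lift (F p)
  have hE : ∀ (p : Fin (n + 1)) (x : P.V p) (hx : x ∈ P.Z p) (y : Q.V (n - p))
        (hy : y ∈ Q.Z (n - p)),
        E (DFinsupp.single p (P.cls x hx ⊗ₜ[ZMod 2] Q.cls y hy)) =
          (P.tens Q).cls (crs n x y) (crs_mem_Z hx hy) := by
    intro p x hx y hy
    show DFinsupp.lsum ℕ (fun p : Fin (n + 1) => TensorProduct.lift (F p)) _ = _
    rw [DFinsupp.lsum_single, TensorProduct.lift.tmul, hF]
  have hsurj : Function.Surjective E := by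
    intro c
    obtain ⟨z, hz, rfl⟩ := A017_cls_surj c
    obtain ⟨N, p, q, x, y, hpq, hx, hy, hB⟩ := kun_surj P Q n z hz
    obtain rfl : q = fun i => n - p i := funext fun i => by have := hpq i; omega
    have hp : ∀ i, p i < n + 1 := fun i => by have := hpq i; omega
    refine ⟨∑ i, DFinsupp.single (⟨p i, hp i⟩ : Fin (n + 1))
      (P.cls (x i) (hx i) ⊗ₜ[ZMod 2] Q.cls (y i) (hy i)), ?_⟩
    rw [map_sum]
    have e1 : ∀ i, E (DFinsupp.single (⟨p i, hp i⟩ : Fin (n + 1))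
      (P.cls (x i) (hx i) ⊗ₜ[ZMod 2] Q.cls (y i) (hy i))) =
        (P.tens Q).cls (crs n (x i) (y i)) (crs_mem_Z (hx i) (hy i)) :=
      fun i => hE ⟨p i, hp i⟩ (x i) (hx i) (y i) (hy i)
    rw [Finset.sum_congr rfl fun i _ => e1 i,
      A017_cls_sum _ _ fun i => crs_mem_Z (hx i) (hy i), A017_cls_eq, add_comm]
    exact hB
  have hker : ∀ t, E t = 0 → ∀ p, t p = 0 := by
    intro t ht
    obtain ⟨κ, _, b, f, g, h1, h2, h3⟩ := A017_split P
    choose hzZ hzb using h3
    choose c hc using fun p : Fin (n + 1) => TensorProduct.eq_repr_basis_left (b p) (t p)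
    choose Y hY hY' using fun (j : Σ p : Fin (n + 1), κ p) => A017_cls_surj (c j.1 j.2)
    let S : Finset (Σ p : Fin (n + 1), κ p) := Finset.univ.sigma fun p => (c p).support
    let J : (Σ p : Fin (n + 1), κ p) → (Σ n, κ n) := fun j => ⟨j.1, j.2⟩
    have hJ : Function.Injective J := by
      rintro ⟨⟨p, hp⟩, k⟩ ⟨⟨p', hp'⟩, k'⟩ h
      simp only [J, Sigma.mk.injEq] at h
      obtain ⟨rfl, h⟩ := h
      rw [heq_iff_eq] at h
      rw [h]
    have et : t = ∑ j ∈ S, DFinsupp.single j.1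
        (b j.1 j.2 ⊗ₜ[ZMod 2] c j.1 j.2 : P.H j.1 ⊗[ZMod 2] Q.H (n - j.1)) := by
      rw [Finset.sum_sigma]
      apply DFinsupp.ext
      intro p
      rw [DFinsupp.finsetSum_apply, Finset.sum_eq_single p]
      · rw [DFinsupp.finsetSum_apply]
        simp only [DFinsupp.single_eq_same]
        exact (hc p).symm
      · intro p' _ hp'
        rw [DFinsupp.finsetSum_apply]
        exact Finset.sum_eq_zero fun k _ => DFinsupp.single_eq_of_ne hp'.symm
      · exact fun h => absurd (Finset.mem_univ p) h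
    have e2 : ∀ j : (Σ p : Fin (n + 1), κ p), E (DFinsupp.single j.1
        (b j.1 j.2 ⊗ₜ[ZMod 2] c j.1 j.2 : P.H j.1 ⊗[ZMod 2] Q.H (n - j.1))) =
        (P.tens Q).cls (crs n (f.app _ ((A017_inc (fun i : (Σ n, κ n) => KK i.1) (J j)).app _
          (KK.iota _))) (Y j)) (crs_mem_Z (hzZ (J j)) (hY j)) := by
      intro j
      rw [← hE j.1 _ (hzZ (J j)) _ (hY j), hzb, hY']
    rw [et, map_sum, Finset.sum_congr rfl fun j _ => e2 j,
      A017_cls_sum _ _ fun j => crs_mem_Z (hzZ (J j)) (hY j), A017_cls_zero] at ht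
    have h4 := A017_B (g.tens (SVHom.id Q)) ht
    rw [map_sum] at h4
    have h5 : ∑ j ∈ S, crs n ((A017_inc (fun i : (Σ n, κ n) => KK i.1) (J j)).app _
          (KK.iota _)) (Y j) ∈ ((A017_D κ).tens Q).B n := by
      have h8 : ∀ j ∈ S, crs n ((g.comp f).app _ ((A017_inc (fun i : (Σ n, κ n) => KK i.1) (J j)).app
          _ (KK.iota _)) + (SVHom.id _).app _ ((A017_inc (fun i : (Σ n, κ n) => KK i.1) (J j)).app
          _ (KK.iota _))) (Y j) ∈ ((A017_D κ).tens Q).B n := fun j _ =>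
        crs_mem_B_left ((lhtp_iff _ _).1 h2 _ _ (A017_Z _ (KK_iota_mem_Z _))) (hY j)
      have h9 := Submodule.add_mem _ h4 (Submodule.sum_mem _ h8)
      rw [← Finset.sum_add_distrib] at h9
      convert h9 using 1
      refine Finset.sum_congr rfl fun j _ => ?_
      rw [crs_map, crs_add_left, ← add_assoc]
      show crs n _ (Y j) = crs n (g.app _ (f.app _ _)) (Y j) + crs n (g.app _ (f.app _ _)) (Y j) +
        crs n _ (Y j)
      rw [two_eq_zero', zero_add]
      rfl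
    have h6 : ∀ j ∈ S, Y j ∈ Q.B (n - j.1) := fun j hj =>
      A017_injD κ Q n S J hJ (fun j => Nat.lt_succ_iff.1 j.1.2) Y hY h5 j hj
    intro p
    rw [← hc p]
    refine Finset.sum_eq_zero fun k hk => ?_
    have hj : (⟨p, k⟩ : Σ p : Fin (n + 1), κ p) ∈ S :=
      Finset.mem_sigma.2 ⟨Finset.mem_univ _, hk⟩
    have h7 := (A017_cls_zero (hx := hY ⟨p, k⟩)).2 (h6 _ hj)
    rw [hY' ⟨p, k⟩] at h7
    show b p k ⊗ₜ[ZMod 2] c p k = 0
    have h8 : c p k = 0 := h7
    rw [h8, TensorProduct.tmul_zero]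
  have hinj : Function.Injective E := by
    intro t t' h
    have h1 : E (t + t') = 0 := by rw [map_add, h, two_eq_zero']
    apply DFinsupp.ext
    intro p
    have h2 := hker _ h1 p
    rw [DFinsupp.add_apply] at h2
    rw [eq_neg_of_add_eq_zero_left h2, neg_eq']
  exact ⟨LinearEquiv.ofBijective E ⟨hinj, hsurj⟩, hE⟩

end MM
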