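import Pool.Agent.Lib_MP_33f7bb_d.A014
import Pool.Agent.Lib_MP_33f7bb_d.A020

/-!
# A0-18: product lemma for acyclic pairs

`(bx K C, box K' K A C)` is acyclic if `(C, A)` is, or if `(K, K')` is.
`F[K × C] / F[K' × C ∪ K × A]` is isomorphic, level by level and naturally, to
`(F[K]/F[K']) ⊗ (F[C]/F[A])` (basis: pairs `(x,y)`, `x ∈ K \ K'`, `y ∈ C \ A`); use `tens_acyclic_*` and
`acyc_iff_quo` (A0-20).
-/

open scoped TensorProduct

namespace MM

private theorem a018_ext {P : SS} {A : Sub P} {n : ℕ} {M : Type} [AddCommGroup M]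
    [Module (ZMod 2) M] (F G : (linSub A).sv.V n →ₗ[ZMod 2] M)
    (h : ∀ (x : P.S n) (hx : x ∈ A.car n), F ⟨Finsupp.single x 1, SuppIn.single hx 1⟩ =
      G ⟨Finsupp.single x 1, SuppIn.single hx 1⟩) : F = G := by
  classical
  have key : ∀ (z : Ch P n) (hz : z ∈ (linSub A).car n), F ⟨z, hz⟩ = G ⟨z, hz⟩ := by
    intro z
    induction z using Finsupp.induction with
    | zero =>
      intro hz
      have : (⟨0, hz⟩ : (linSub A).sv.V n) = 0 := rfl
      rw [this, map_zero, map_zero]
    | single_add a b f ha hb ih =>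
      intro hz
      have hs : SuppIn A (Finsupp.single a b + f) := hz
      have hsup : (Finsupp.single a b + f).support = Finset.cons a f.support ha :=
        Finsupp.support_single_add ha hb
      have haA : a ∈ A.car n := hs a (by rw [hsup]; simp)
      have hfA : SuppIn A f := fun x hx => hs x (by rw [hsup]; simp [hx])
      have hb1 : b = 1 := by
        have : ∀ c : ZMod 2, c ≠ 0 → c = 1 := by decide
        exact this b hb
      subst hb1
      have : (⟨Finsupp.single a 1 + f, hz⟩ : (linSub A).sv.V n) =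
        ⟨Finsupp.single a 1, SuppIn.single haA 1⟩ + ⟨f, hfA⟩ := rfl
      rw [this, map_add, map_add, h a haA, ih hfA]
  exact LinearMap.ext fun z => key z.1 z.2

/-- class of a simplex in the relative chains -/
private noncomputable def a018_q {P : SS} (A C : Sub P) {n : ℕ} (x : P.S n) :
    (linSub2 A C).quo.V n := by
  classical
  exact if h : x ∈ C.car n then
    (linSub2 A C).proj.app n ⟨Finsupp.single x 1, SuppIn.single h 1⟩ else 0

private theorem a018_q_mem {P : SS} (A C : Sub P) {n : ℕ} {x : P.S n} (h : x ∈ C.car n) :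
    a018_q A C x = (linSub2 A C).proj.app n ⟨Finsupp.single x 1, SuppIn.single h 1⟩ := by
  rw [a018_q, dif_pos h]

private theorem a018_q_zero {P : SS} {A C : Sub P} (hA : A ≤ C) {n : ℕ} {x : P.S n}
    (h : x ∈ A.car n) : a018_q A C x = 0 := by
  rw [a018_q_mem A C (hA n h)]
  exact (Submodule.Quotient.mk_eq_zero _).2 (SuppIn.single h 1 : SuppIn A _)

private theorem a018_q_act {P : SS} {A C : Sub P} {m n : ℕ} (g : Mo m n) {x : P.S n}
    (h : x ∈ C.car n) : a018_q A C (P.act g x) = (linSub2 A C).quo.act g (a018_q A C x) := by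
  rw [a018_q_mem A C (C.closed g h), a018_q_mem A C h, ← (linSub2 A C).proj.nat]
  congr 1
  apply Subtype.ext
  show Finsupp.single (P.act g x) 1 = Finsupp.mapDomain (P.act g) (Finsupp.single x 1)
  rw [Finsupp.mapDomain_single]

/-- from chains to the tensor product -/
private noncomputable def a018_F {Q P : SS} (K' K : Sub Q) (A C : Sub P) (n : ℕ) :
    (linSub (Sub.bx K C)).sv.V n →ₗ[ZMod 2]
      ((linSub2 K' K).quo.tens (linSub2 A C).quo).V n :=
  (Finsupp.linearCombination (ZMod 2) (fun x : (Q.prod P).S n =>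
    (a018_q K' K x.1 ⊗ₜ[ZMod 2] a018_q A C x.2 :
      ((linSub2 K' K).quo.tens (linSub2 A C).quo).V n))).comp (Submodule.subtype _)

private theorem a018_F_single {Q P : SS} (K' K : Sub Q) (A C : Sub P) (n : ℕ)
    (x : (Q.prod P).S n) (hx : x ∈ (Sub.bx K C).car n) :
    a018_F K' K A C n ⟨Finsupp.single x 1, SuppIn.single hx 1⟩ =
      a018_q K' K x.1 ⊗ₜ[ZMod 2] a018_q A C x.2 := by
  rw [a018_F, LinearMap.comp_apply]
  show Finsupp.linearCombination (ZMod 2) _ (Finsupp.single x 1) = _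
  rw [Finsupp.linearCombination_single, one_smul]

private theorem a018_F_zero {Q P : SS} {K' K : Sub Q} {A C : Sub P} (hK : K' ≤ K) (hA : A ≤ C)
    (n : ℕ) (z : (linSub (Sub.bx K C)).sv.V n) (hz : SuppIn (Sub.box K' K A C) z.1) :
    a018_F K' K A C n z = 0 := by
  rw [a018_F, LinearMap.comp_apply]
  show Finsupp.linearCombination (ZMod 2) _ z.1 = 0
  rw [Finsupp.linearCombination_apply]
  refine Finset.sum_eq_zero fun x hx => ?_
  have hx' := (hz x hx).2
  show z.1 x • (a018_q K' K x.1 ⊗ₜ[ZMod 2] a018_q A C x.2) = 0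
  rcases hx' with h | h
  · rw [a018_q_zero hK h, TensorProduct.zero_tmul, smul_zero]
  · rw [a018_q_zero hA h, TensorProduct.tmul_zero, smul_zero]

private noncomputable def a018_f {Q P : SS} {K' K : Sub Q} {A C : Sub P} (hK : K' ≤ K)
    (hA : A ≤ C) : SVHom (linSub2 (Sub.box K' K A C) (Sub.bx K C)).quo
      ((linSub2 K' K).quo.tens (linSub2 A C).quo) where
  app n := Submodule.liftQ _ (a018_F K' K A C n) (fun z hz => a018_F_zero hK hA n z hz)
  nat {m n} g x := by
    obtain ⟨x, rfl⟩ := Submodule.Quotient.mk_surjective _ x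
    have key : (a018_F K' K A C m).comp ((linSub (Sub.bx K C)).sv.act g) =
        (((linSub2 K' K).quo.tens (linSub2 A C).quo).act g).comp (a018_F K' K A C n) := by
      refine a018_ext _ _ fun x hx => ?_
      rw [LinearMap.comp_apply, LinearMap.comp_apply, a018_F_single K' K A C n x hx]
      have e : (linSub (Sub.bx K C)).sv.act g ⟨Finsupp.single x 1, SuppIn.single hx 1⟩ =
          ⟨Finsupp.single ((Q.prod P).act g x) 1,
            SuppIn.single ((Sub.bx K C).closed g hx) 1⟩ := by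
        apply Subtype.ext
        show Finsupp.mapDomain ((Q.prod P).act g) (Finsupp.single x 1) = _
        rw [Finsupp.mapDomain_single]
      rw [e, a018_F_single K' K A C m _ ((Sub.bx K C).closed g hx)]
      show a018_q K' K (Q.act g x.1) ⊗ₜ[ZMod 2] a018_q A C (P.act g x.2) =
        ((linSub2 K' K).quo.act g (a018_q K' K x.1)) ⊗ₜ[ZMod 2]
          ((linSub2 A C).quo.act g (a018_q A C x.2))
      rw [a018_q_act g hx.1, a018_q_act g hx.2]
    exact LinearMap.congr_fun key x

/-- product of chains -/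
private noncomputable def a018_b {Q P : SS} (K : Sub Q) (C : Sub P) (n : ℕ) :
    (linSub K).sv.V n →ₗ[ZMod 2] (linSub C).sv.V n →ₗ[ZMod 2] (linSub (Sub.bx K C)).sv.V n :=
  LinearMap.mk₂ (ZMod 2) (fun u v => ⟨finsuppTensorFinsupp' (ZMod 2) _ _ (u.1 ⊗ₜ[ZMod 2] v.1), by
      intro x hx
      have hx' : finsuppTensorFinsupp' (ZMod 2) _ _ (u.1 ⊗ₜ[ZMod 2] v.1) x ≠ 0 :=
        Finsupp.mem_support_iff.1 hx
      obtain ⟨a, b⟩ := x
      rw [finsuppTensorFinsupp'_apply_apply] at hx'
      exact ⟨u.2 (Finsupp.mem_support_iff.2 (left_ne_zero_of_mul hx')),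
        v.2 (Finsupp.mem_support_iff.2 (right_ne_zero_of_mul hx'))⟩⟩)
    (fun u u' v => Subtype.ext (by
      show finsuppTensorFinsupp' (ZMod 2) _ _ ((u.1 + u'.1) ⊗ₜ[ZMod 2] v.1) = _
      rw [TensorProduct.add_tmul, map_add]; rfl))
    (fun c u v => Subtype.ext (by
      show finsuppTensorFinsupp' (ZMod 2) _ _ ((c • u.1) ⊗ₜ[ZMod 2] v.1) = _
      rw [← TensorProduct.smul_tmul', map_smul]; rfl))
    (fun u v v' => Subtype.ext (by
      show finsuppTensorFinsupp' (ZMod 2) _ _ (u.1 ⊗ₜ[ZMod 2] (v.1 + v'.1)) = _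
      rw [TensorProduct.tmul_add, map_add]; rfl))
    (fun c u v => Subtype.ext (by
      show finsuppTensorFinsupp' (ZMod 2) _ _ (u.1 ⊗ₜ[ZMod 2] (c • v.1)) = _
      rw [TensorProduct.tmul_smul, map_smul]; rfl))

private theorem a018_b_apply {Q P : SS} (K : Sub Q) (C : Sub P) (n : ℕ)
    (u : (linSub K).sv.V n) (v : (linSub C).sv.V n) (a : Q.S n) (b : P.S n) :
    (a018_b K C n u v).1 (a, b) = u.1 a * v.1 b := by
  show finsuppTensorFinsupp' (ZMod 2) _ _ (u.1 ⊗ₜ[ZMod 2] v.1) (a, b) = _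
  rw [finsuppTensorFinsupp'_apply_apply]

private noncomputable def a018_B {Q P : SS} (K' K : Sub Q) (A C : Sub P) (n : ℕ) :
    (linSub K).sv.V n →ₗ[ZMod 2] (linSub C).sv.V n →ₗ[ZMod 2]
      (linSub2 (Sub.box K' K A C) (Sub.bx K C)).quo.V n :=
  (a018_b K C n).compr₂ ((linSub2 (Sub.box K' K A C) (Sub.bx K C)).proj.app n)

private theorem a018_B_zero_right {Q P : SS} {K' K : Sub Q} {A C : Sub P} (n : ℕ)
    (u : (linSub K).sv.V n) (v : (linSub C).sv.V n) (hv : v ∈ (linSub2 A C).car n) :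
    a018_B K' K A C n u v = 0 := by
  refine (Submodule.Quotient.mk_eq_zero _).2 ?_
  show SuppIn (Sub.box K' K A C) (a018_b K C n u v).1
  intro x hx
  obtain ⟨a, b⟩ := x
  have hx' := Finsupp.mem_support_iff.1 hx
  rw [a018_b_apply] at hx'
  have h1 := Finsupp.mem_support_iff.2 (left_ne_zero_of_mul hx')
  have h2 := Finsupp.mem_support_iff.2 (right_ne_zero_of_mul hx')
  exact ⟨⟨u.2 h1, v.2 h2⟩, Or.inr (hv h2)⟩

private theorem a018_B_zero_left {Q P : SS} {K' K : Sub Q} {A C : Sub P} (n : ℕ)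
    (u : (linSub K).sv.V n) (v : (linSub C).sv.V n) (hu : u ∈ (linSub2 K' K).car n) :
    a018_B K' K A C n u v = 0 := by
  refine (Submodule.Quotient.mk_eq_zero _).2 ?_
  show SuppIn (Sub.box K' K A C) (a018_b K C n u v).1
  intro x hx
  obtain ⟨a, b⟩ := x
  have hx' := Finsupp.mem_support_iff.1 hx
  rw [a018_b_apply] at hx'
  have h1 := Finsupp.mem_support_iff.2 (left_ne_zero_of_mul hx')
  have h2 := Finsupp.mem_support_iff.2 (right_ne_zero_of_mul hx')
  exact ⟨⟨u.2 h1, v.2 h2⟩, Or.inl (hu h1)⟩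

/-- the induced map on the tensor product of the quotients -/
private noncomputable def a018_G {Q P : SS} (K' K : Sub Q) (A C : Sub P) (n : ℕ) :
    ((linSub2 K' K).quo.tens (linSub2 A C).quo).V n →ₗ[ZMod 2]
      (linSub2 (Sub.box K' K A C) (Sub.bx K C)).quo.V n :=
  TensorProduct.lift (Submodule.liftQ ((linSub2 K' K).car n)
    (LinearMap.flip (Submodule.liftQ ((linSub2 A C).car n)
      (LinearMap.flip (a018_B K' K A C n)) (fun v hv => by
        rw [LinearMap.mem_ker]
        ext1 u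
        exact a018_B_zero_right n u v hv))) (fun u hu => by
      rw [LinearMap.mem_ker]
      refine LinearMap.ext fun v => ?_
      obtain ⟨v, rfl⟩ := Submodule.Quotient.mk_surjective _ v
      exact a018_B_zero_left n u v hu))

private theorem a018_G_mk {Q P : SS} (K' K : Sub Q) (A C : Sub P) (n : ℕ)
    (u : (linSub K).sv.V n) (v : (linSub C).sv.V n) :
    a018_G K' K A C n (((linSub2 K' K).proj.app n u) ⊗ₜ[ZMod 2] ((linSub2 A C).proj.app n v)) =
      a018_B K' K A C n u v := by
  rw [a018_G, TensorProduct.lift.tmul]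
  rfl

private theorem a018_b_single {Q P : SS} (K : Sub Q) (C : Sub P) (n : ℕ) (x : Q.S n)
    (y : P.S n) (hx : x ∈ K.car n) (hy : y ∈ C.car n) :
    a018_b K C n ⟨Finsupp.single x 1, SuppIn.single hx 1⟩ ⟨Finsupp.single y 1, SuppIn.single hy 1⟩
      = ⟨Finsupp.single (x, y) 1, SuppIn.single (P := Q.prod P) (A := Sub.bx K C)
        (show (x, y) ∈ (Sub.bx K C).car n from ⟨hx, hy⟩) 1⟩ := by
  apply Subtype.ext
  show finsuppTensorFinsupp' (ZMod 2) _ _ (Finsupp.single x 1 ⊗ₜ[ZMod 2] Finsupp.single y 1) = _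
  rw [finsuppTensorFinsupp'_single_tmul_single, mul_one]

private theorem a018_B_act {Q P : SS} {K' K : Sub Q} {A C : Sub P} {m n : ℕ} (g : Mo m n)
    (u : (linSub K).sv.V n) (v : (linSub C).sv.V n) :
    a018_B K' K A C m ((linSub K).sv.act g u) ((linSub C).sv.act g v) =
      (linSub2 (Sub.box K' K A C) (Sub.bx K C)).quo.act g (a018_B K' K A C n u v) := by
  have key : ∀ u v, a018_b K C m ((linSub K).sv.act g u) ((linSub C).sv.act g v) =
      (linSub (Sub.bx K C)).sv.act g (a018_b K C n u v) := by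
    have e : ((a018_b K C m).comp ((linSub K).sv.act g)).compl₂ ((linSub C).sv.act g) =
        (a018_b K C n).compr₂ ((linSub (Sub.bx K C)).sv.act g) := by
      refine a018_ext _ _ fun x hx => ?_
      refine a018_ext _ _ fun y hy => ?_
      have e1 : (linSub K).sv.act g ⟨Finsupp.single x 1, SuppIn.single hx 1⟩ =
          ⟨Finsupp.single (Q.act g x) 1, SuppIn.single (K.closed g hx) 1⟩ := by
        apply Subtype.ext
        show Finsupp.mapDomain (Q.act g) (Finsupp.single x 1) = _
        rw [Finsupp.mapDomain_single]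
      have e2 : (linSub C).sv.act g ⟨Finsupp.single y 1, SuppIn.single hy 1⟩ =
          ⟨Finsupp.single (P.act g y) 1, SuppIn.single (C.closed g hy) 1⟩ := by
        apply Subtype.ext
        show Finsupp.mapDomain (P.act g) (Finsupp.single y 1) = _
        rw [Finsupp.mapDomain_single]
      show a018_b K C m ((linSub K).sv.act g ⟨Finsupp.single x 1, SuppIn.single hx 1⟩)
          ((linSub C).sv.act g ⟨Finsupp.single y 1, SuppIn.single hy 1⟩) =
        (linSub (Sub.bx K C)).sv.act g (a018_b K C n ⟨Finsupp.single x 1, SuppIn.single hx 1⟩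
          ⟨Finsupp.single y 1, SuppIn.single hy 1⟩)
      rw [e1, e2, a018_b_single K C m _ _ (K.closed g hx) (C.closed g hy),
        a018_b_single K C n _ _ hx hy]
      apply Subtype.ext
      show _ = Finsupp.mapDomain ((Q.prod P).act g) (Finsupp.single (x, y) 1)
      rw [Finsupp.mapDomain_single]
    intro u v
    exact LinearMap.congr_fun (LinearMap.congr_fun e u) v
  show (linSub2 (Sub.box K' K A C) (Sub.bx K C)).proj.app m
    (a018_b K C m ((linSub K).sv.act g u) ((linSub C).sv.act g v)) = _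
  rw [key, (linSub2 (Sub.box K' K A C) (Sub.bx K C)).proj.nat]
  rfl

private noncomputable def a018_g {Q P : SS} (K' K : Sub Q) (A C : Sub P) :
    SVHom ((linSub2 K' K).quo.tens (linSub2 A C).quo)
      (linSub2 (Sub.box K' K A C) (Sub.bx K C)).quo where
  app n := a018_G K' K A C n
  nat {m n} g x := by
    have key : (a018_G K' K A C m).comp
        (((linSub2 K' K).quo.tens (linSub2 A C).quo).act g) =
        ((linSub2 (Sub.box K' K A C) (Sub.bx K C)).quo.act g).comp (a018_G K' K A C n) := by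
      refine TensorProduct.ext' fun u v => ?_
      obtain ⟨u, rfl⟩ := Submodule.Quotient.mk_surjective _ u
      obtain ⟨v, rfl⟩ := Submodule.Quotient.mk_surjective _ v
      show a018_G K' K A C m
          (((linSub2 K' K).proj.app m ((linSub K).sv.act g u)) ⊗ₜ[ZMod 2]
            ((linSub2 A C).proj.app m ((linSub C).sv.act g v))) =
        (linSub2 (Sub.box K' K A C) (Sub.bx K C)).quo.act g
          (a018_G K' K A C n (((linSub2 K' K).proj.app n u) ⊗ₜ[ZMod 2]
            ((linSub2 A C).proj.app n v)))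
      rw [a018_G_mk, a018_G_mk, a018_B_act]
    exact LinearMap.congr_fun key x

private theorem a018_gf {Q P : SS} {K' K : Sub Q} {A C : Sub P} (hK : K' ≤ K) (hA : A ≤ C)
    (n : ℕ) (x : (linSub2 (Sub.box K' K A C) (Sub.bx K C)).quo.V n) :
    (a018_g K' K A C).app n ((a018_f hK hA).app n x) = x := by
  obtain ⟨x, rfl⟩ := Submodule.Quotient.mk_surjective _ x
  have key : (a018_G K' K A C n).comp (a018_F K' K A C n) =
      (linSub2 (Sub.box K' K A C) (Sub.bx K C)).proj.app n := by
    refine a018_ext _ _ fun x hx => ?_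
    rw [LinearMap.comp_apply, a018_F_single K' K A C n x hx, a018_q_mem K' K hx.1,
      a018_q_mem A C hx.2, a018_G_mk]
    show (linSub2 (Sub.box K' K A C) (Sub.bx K C)).proj.app n (a018_b K C n _ _) = _
    rw [a018_b_single K C n _ _ hx.1 hx.2]
  exact LinearMap.congr_fun key x

private theorem a018_retract {P Q : SV} (f : SVHom P Q) (g : SVHom Q P)
    (h : ∀ n x, g.app n (f.app n x) = x) (hQ : Q.Acyclic) : P.Acyclic :=
  acyclic_of_retract f g ⟨⟨fun _ _ => LinearMap.id, fun _ _ _ => rfl⟩, fun n x => (h n x).symm,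
    fun _ _ => rfl⟩ hQ

theorem acyc_box_right {Q P : SS} {K' K : Sub Q} {A C : Sub P} (hK : K' ≤ K) (hA : A ≤ C)
    (h : Acyc A C) : Acyc (Sub.box K' K A C) (Sub.bx K C) := by
  have hle : Sub.box K' K A C ≤ Sub.bx K C := fun n x hx => (Sub.mem_box.1 hx).1
  rw [acyc_iff_quo hle]
  exact a018_retract (a018_f hK hA) (a018_g K' K A C) (a018_gf hK hA)
    (tens_acyclic_right _ _ ((acyc_iff_quo hA).1 h))

theorem acyc_box_left {Q P : SS} {K' K : Sub Q} {A C : Sub P} (hK : K' ≤ K) (hA : A ≤ C)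
    (h : Acyc K' K) : Acyc (Sub.box K' K A C) (Sub.bx K C) := by
  have hle : Sub.box K' K A C ≤ Sub.bx K C := fun n x hx => (Sub.mem_box.1 hx).1
  rw [acyc_iff_quo hle]
  exact a018_retract (a018_f hK hA) (a018_g K' K A C) (a018_gf hK hA)
    (tens_acyclic_left _ _ ((acyc_iff_quo hK).1 h))

/-- homotopy extension: the pair `(Δ^1 × C, {i} × C ∪ Δ^1 × A)` -/
theorem acyc_hep {P : SS} {A C : Sub P} (hA : A ≤ C) (i : Fin 2) :
    Acyc (Sub.box (Sub.pt (P := Del 1) (cst i : Mo 0 1)) ⊤ A C) (Sub.bx (⊤ : Sub (Del 1)) C) :=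
  acyc_box_left (Sub.le_top' _) hA (acyc_Del_pt 1 i)

end MM
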