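import Pool.Agent.Lib_MP_33f7bb_d.A013

/-!
# A0-23: chains on products

`linProd P Q : lin (P × Q) ≅ lin P ⊗ lin Q`, `(x,y) ↦ x ⊗ y` (Mathlib: `finsuppTensorFinsupp'`); under it `crsCh`
corresponds to `crs` and `prismCh s k` is the cross product of the two identity simplices.
-/

open scoped TensorProduct

namespace MM

/-- external product of chains -/
private noncomputable def A023_ten {P Q : SS} {n : ℕ} (X : Ch P n) (Y : Ch Q n) : Ch (P.prod Q) n :=
  X.sum fun u c => Y.sum fun v c' => Finsupp.single (u, v) (c * c')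

private theorem A023_ten_apply {P Q : SS} {n : ℕ} (X : Ch P n) (Y : Ch Q n) (u : P.S n) (v : Q.S n) :
    A023_ten X Y (u, v) = X u * Y v := by
  classical
  unfold A023_ten
  rw [Finsupp.sum_apply]
  rw [Finsupp.sum, Finset.sum_eq_single u]
  · rw [Finsupp.sum_apply, Finsupp.sum, Finset.sum_eq_single v]
    · rw [Finsupp.single_eq_same]
    · intro v' _ hv'
      rw [Finsupp.single_apply, if_neg]
      intro h; exact hv' (congrArg Prod.snd h)
    · intro hv
      rw [Finsupp.notMem_support_iff.1 hv]; simp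
  · intro u' _ hu'
    rw [Finsupp.sum_apply, Finsupp.sum]
    apply Finset.sum_eq_zero
    intro v' _
    rw [Finsupp.single_apply, if_neg]
    intro h; exact hu' (congrArg Prod.fst h)
  · intro hu
    rw [Finsupp.notMem_support_iff.1 hu, Finsupp.sum_apply, Finsupp.sum]
    apply Finset.sum_eq_zero
    intro v' _
    simp

private theorem A023_ten_eq {P Q : SS} {n : ℕ} (X : Ch P n) (Y : Ch Q n) :
    A023_ten X Y = finsuppTensorFinsupp' (ZMod 2) (P.S n) (Q.S n) (X ⊗ₜ[ZMod 2] Y) := by
  ext ⟨u, v⟩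
  rw [A023_ten_apply, finsuppTensorFinsupp'_apply_apply]

private theorem A023_ten_single {P Q : SS} {n : ℕ} (x : P.S n) (y : Q.S n) :
    A023_ten (Finsupp.single x 1 : Ch P n) (Finsupp.single y 1 : Ch Q n) =
      (Finsupp.single (x, y) 1 : Ch (P.prod Q) n) := by
  rw [A023_ten_eq, finsuppTensorFinsupp'_single_tmul_single]; simp

private theorem A023_ten_mapDomain {P Q P' Q' : SS} {m n : ℕ} (f : P.S n → P'.S m) (g : Q.S n → Q'.S m)
    (X : Ch P n) (Y : Ch Q n) :
    (A023_ten X Y).mapDomain (fun z : (P.prod Q).S n => ((f z.1, g z.2) : (P'.prod Q').S m)) =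
      A023_ten (X.mapDomain f : Ch P' m) (Y.mapDomain g : Ch Q' m) := by
  have h : ∀ z : Ch P n ⊗[ZMod 2] Ch Q n,
      (finsuppTensorFinsupp' (ZMod 2) (P.S n) (Q.S n) z).mapDomain
        (fun z : (P.prod Q).S n => ((f z.1, g z.2) : (P'.prod Q').S m)) =
      finsuppTensorFinsupp' (ZMod 2) (P'.S m) (Q'.S m)
        (TensorProduct.map (Finsupp.lmapDomain (ZMod 2) (ZMod 2) f)
          (Finsupp.lmapDomain (ZMod 2) (ZMod 2) g) z) := by
    have h2 : (Finsupp.lmapDomain (ZMod 2) (ZMod 2)
          (fun z : (P.prod Q).S n => ((f z.1, g z.2) : (P'.prod Q').S m))).comp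
          (finsuppTensorFinsupp' (ZMod 2) (P.S n) (Q.S n)).toLinearMap =
        (finsuppTensorFinsupp' (ZMod 2) (P'.S m) (Q'.S m)).toLinearMap.comp
        (TensorProduct.map (Finsupp.lmapDomain (ZMod 2) (ZMod 2) f)
          (Finsupp.lmapDomain (ZMod 2) (ZMod 2) g)) := by
      apply TensorProduct.ext'
      intro X Y
      induction X using Finsupp.induction_linear with
      | zero => simp
      | add X X' hX hX' => simp only [TensorProduct.add_tmul, map_add, hX, hX']
      | single x c =>
        induction Y using Finsupp.induction_linear with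
        | zero => simp
        | add Y Y' hY hY' => simp only [TensorProduct.tmul_add, map_add, hY, hY']
        | single y c' =>
          simp only [LinearMap.comp_apply, LinearEquiv.coe_coe, TensorProduct.map_tmul,
            finsuppTensorFinsupp'_single_tmul_single, Finsupp.lmapDomain_apply,
            Finsupp.mapDomain_single]
    intro z
    exact LinearMap.congr_fun h2 z
  rw [A023_ten_eq, A023_ten_eq, h, TensorProduct.map_tmul]
  rfl

private theorem A023_lmap {P Q : SS} {m n : ℕ} (h : Mo m n) (z : Ch P n ⊗[ZMod 2] Ch Q n) :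
    (finsuppTensorFinsupp' (ZMod 2) (P.S n) (Q.S n) z).mapDomain ((P.prod Q).act h) =
      finsuppTensorFinsupp' (ZMod 2) (P.S m) (Q.S m) (((lin P).tens (lin Q)).act h z) := by
  induction z using TensorProduct.induction_on with
  | zero => simp
  | tmul X Y =>
    have := A023_ten_mapDomain (P' := P) (Q' := Q) (P.act h) (Q.act h) X Y
    rw [A023_ten_eq, A023_ten_eq] at this
    exact this
  | add x y hx hy => simp only [map_add, Finsupp.mapDomain_add, hx, hy]

/-- the isomorphism `F[P × Q] = F[P] ⊗ F[Q]` -/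
theorem exists_linProd (P Q : SS) :
    ∃ (f : SVHom (lin (P.prod Q)) ((lin P).tens (lin Q)))
      (g : SVHom ((lin P).tens (lin Q)) (lin (P.prod Q))),
      (∀ n x, g.app n (f.app n x) = x) ∧ (∀ n x, f.app n (g.app n x) = x) ∧
      (∀ n (x : P.S n) (y : Q.S n), f.app n (Finsupp.single (x, y) 1 : Ch (P.prod Q) n) =
        (Finsupp.single x 1 : Ch P n) ⊗ₜ[ZMod 2] (Finsupp.single y 1 : Ch Q n)) ∧
      ∀ (p q n : ℕ) (x : Ch P p) (y : Ch Q q),
        f.app n (crsCh n x y) = crs (P := lin P) (Q := lin Q) n x y := by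
  classical
  refine ⟨⟨fun n => (finsuppTensorFinsupp' (ZMod 2) (P.S n) (Q.S n)).symm.toLinearMap, ?_⟩,
    ⟨fun n => (finsuppTensorFinsupp' (ZMod 2) (P.S n) (Q.S n)).toLinearMap, ?_⟩, ?_, ?_, ?_, ?_⟩
  · intro m n h x
    show (finsuppTensorFinsupp' (ZMod 2) (P.S m) (Q.S m)).symm
      (x.mapDomain ((P.prod Q).act h)) = ((lin P).tens (lin Q)).act h
        ((finsuppTensorFinsupp' (ZMod 2) (P.S n) (Q.S n)).symm x)
    rw [LinearEquiv.symm_apply_eq, ← A023_lmap, LinearEquiv.apply_symm_apply]
  · intro m n h x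
    exact (A023_lmap h x).symm
  · intro n x
    exact LinearEquiv.apply_symm_apply _ _
  · intro n x
    exact LinearEquiv.symm_apply_apply _ _
  · intro n x y
    show (finsuppTensorFinsupp' (ZMod 2) (P.S n) (Q.S n)).symm (Finsupp.single (x, y) 1) = _
    rw [LinearEquiv.symm_apply_eq, finsuppTensorFinsupp'_single_tmul_single, mul_one]
  · intro p q n x y
    show (finsuppTensorFinsupp' (ZMod 2) (P.S n) (Q.S n)).symm (crsCh n x y) = _
    rw [LinearEquiv.symm_apply_eq]
    unfold crsCh crs
    rw [map_sum]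
    refine Finset.sum_congr rfl fun a _ => ?_
    rw [map_sum]
    refine Finset.sum_congr rfl fun b _ => ?_
    split_ifs with h
    · exact A023_ten_eq _ _
    · rw [map_zero]

private theorem A023_nat_d {A B : SV} (f : SVHom A B) (n : ℕ) (x : A.V (n + 1)) :
    f.app n (A.d n x) = B.d n (f.app (n + 1) x) := by
  simp only [SV.d, LinearMap.sum_apply, map_sum, f.nat]

theorem dif_crsCh {P Q : SS} {p q n : ℕ} (x : Ch P (p + 1)) (y : Ch Q (q + 1)) :
    dif (crsCh (n + 1) x y) = crsCh n (dif x) y + crsCh n x (dif y) := by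
  obtain ⟨f, g, hgf, -, -, h⟩ := exists_linProd P Q
  apply Function.LeftInverse.injective (hgf n)
  have e1 : (lin P).d p x = dif x := lin_d x
  have e2 : (lin Q).d q y = dif y := lin_d y
  rw [← e1, ← e2, ← lin_d, A023_nat_d, h, d_crs, map_add, h, h]

theorem dif_crsCh_zero_left {P Q : SS} {q n : ℕ} (x : Ch P 0) (y : Ch Q (q + 1)) :
    dif (crsCh (n + 1) x y) = crsCh n x (dif y) := by
  obtain ⟨f, g, hgf, -, -, h⟩ := exists_linProd P Q
  apply Function.LeftInverse.injective (hgf n)
  have e2 : (lin Q).d q y = dif y := lin_d y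
  rw [← e2, ← lin_d, A023_nat_d, h, d_crs_zero_left, h]

theorem dif_crsCh_zero_right {P Q : SS} {p n : ℕ} (x : Ch P (p + 1)) (y : Ch Q 0) :
    dif (crsCh (n + 1) x y) = crsCh n (dif x) y := by
  obtain ⟨f, g, hgf, -, -, h⟩ := exists_linProd P Q
  apply Function.LeftInverse.injective (hgf n)
  have e1 : (lin P).d p x = dif x := lin_d x
  rw [← e1, ← lin_d, A023_nat_d, h, d_crs_zero_right, h]

theorem prismCh_eq (s k n : ℕ) :
    prismCh s k n = crsCh (P := Del s) (Q := Del k) n
      (Finsupp.single (OrderHom.id : Mo s s) 1) (Finsupp.single (OrderHom.id : Mo k k) 1) := by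
  classical
  unfold prismCh crsCh
  refine Finset.sum_congr rfl fun a _ => Finset.sum_congr rfl fun b _ => ?_
  congr 1
  rw [Finsupp.mapDomain_single, Finsupp.mapDomain_single]
  exact (A023_ten_single (P := Del s) (Q := Del k) (n := n) a b).symm

theorem crsCh_mapDomain {P P' Q Q' : SS} (f : Hom P P') (g : Hom Q Q') {p q n : ℕ} (x : Ch P p)
    (y : Ch Q q) : (crsCh n x y).mapDomain ((Hom.prodMap f g).app n) =
      crsCh n (x.mapDomain (f.app p)) (y.mapDomain (g.app q)) := by
  classical
  unfold crsCh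
  rw [Finsupp.mapDomain_finsetSum]
  refine Finset.sum_congr rfl fun a _ => ?_
  rw [Finsupp.mapDomain_finsetSum]
  refine Finset.sum_congr rfl fun b _ => ?_
  split_ifs with h
  · have h1 : ((x.mapDomain (f.app p)).mapDomain (P'.act a) : Ch P' n) =
        (x.mapDomain (P.act a)).mapDomain (f.app n) := by
      rw [← Finsupp.mapDomain_comp, ← Finsupp.mapDomain_comp]
      congr 1
      funext u
      exact (f.nat a u).symm
    have h2 : ((y.mapDomain (g.app q)).mapDomain (Q'.act b) : Ch Q' n) =
        (y.mapDomain (Q.act b)).mapDomain (g.app n) := by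
      rw [← Finsupp.mapDomain_comp, ← Finsupp.mapDomain_comp]
      congr 1
      funext u
      exact (g.nat b u).symm
    rw [h1, h2]
    exact A023_ten_mapDomain (f.app n) (g.app n) (x.mapDomain (P.act a)) (y.mapDomain (Q.act b))
  · exact Finsupp.mapDomain_zero

private theorem A023_ten_supp {P Q : SS} {A : Sub P} {B : Sub Q} {n : ℕ} {x : Ch P n} {y : Ch Q n}
    (hx : SuppIn A x) (hy : SuppIn B y) : SuppIn (Sub.bx A B) (A023_ten x y) := by
  rintro ⟨u, v⟩ h
  rw [Finsupp.mem_support_iff, A023_ten_apply] at h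
  exact ⟨hx u (Finsupp.mem_support_iff.2 (left_ne_zero_of_mul h)),
    hy v (Finsupp.mem_support_iff.2 (right_ne_zero_of_mul h))⟩

theorem SuppIn.crsCh {P Q : SS} {A : Sub P} {B : Sub Q} {p q n : ℕ} {x : Ch P p} {y : Ch Q q}
    (hx : SuppIn A x) (hy : SuppIn B y) : SuppIn (Sub.bx A B) (crsCh n x y) := by
  classical
  rw [suppIn_iff]
  unfold MM.crsCh
  refine Submodule.sum_mem _ fun a _ => Submodule.sum_mem _ fun b _ => ?_
  split_ifs with h
  · have hx' : SuppIn A (x.mapDomain (P.act a)) := (linSub A).closed a hx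
    have hy' : SuppIn B (y.mapDomain (Q.act b)) := (linSub B).closed b hy
    exact A023_ten_supp hx' hy'
  · exact Submodule.zero_mem _

end MM
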