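import Pool.Agent.Lib_MP_33f7bb_d.A015
import Pool.Agent.Lib_MP_33f7bb_d.A018
import Pool.Agent.Lib_MP_33f7bb_d.A023

/-!
# A0-19: the prism `Δ^s × Δ^k` relative to its boundary

The relative homology is generated by the chain `prismCh s k (s+k)` (sum of all maximal chains):
`F[Δ^s × Δ^k]/F[boundary] = K'(s) ⊗ K'(k)` and the class of the prism chain is `iota_s × iota_k`; apply
A0-15 with `Q = K'(k)` and `KK_homology`.
`dif_prismCh`: `dif [s × k] = ∑_i (δ_i × id) [(s-1) × k] + ∑_i (id × δ_i) [s × (k-1)]` (Leibniz, A0-23).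
`prismCh_support`: the support consists of nondegenerate simplices, each with coefficient one, and
`(0,0)` is the first vertex of each of them.
-/

open scoped TensorProduct

namespace MM

private theorem A019_nat_d {A B : SV} (f : SVHom A B) (n : ℕ) (x : A.V (n + 1)) :
    f.app n (A.d n x) = B.d n (f.app (n + 1) x) := by
  simp only [SV.d, LinearMap.sum_apply, map_sum, f.nat]

/-- coordinate functional on `K'(s)` -/
private noncomputable def A019_co (s m : ℕ) (a : Mo m s) (ha : a ∉ (bd s).car m) :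
    (KK s).V m →ₗ[ZMod 2] ZMod 2 :=
  Submodule.liftQ _ (Finsupp.lapply a) (by
    intro x hx
    rw [LinearMap.mem_ker]
    show x a = 0
    by_contra h
    exact ha (hx (Finsupp.mem_support_iff.2 h)))

private theorem A019_co_single (s m : ℕ) (a : Mo m s) (ha : a ∉ (bd s).car m) (b : Mo m s) :
    A019_co s m a ha ((linSub (bd s)).proj.app m (Finsupp.single b 1)) =
      (Finsupp.single b 1 : Ch (Del s) m) a := rfl

private theorem A019_main (s k : ℕ) :
    ∃ F : SVHom (lin ((Del s).prod (Del k))) ((KK s).tens (KK k)),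
      (∀ n, Function.Surjective (F.app n)) ∧
      (∀ n (z : Ch ((Del s).prod (Del k)) n), F.app n z = 0 ↔
        SuppIn (Sub.box (bd s) ⊤ (bd k) ⊤) z) ∧
      ∀ n, F.app n (prismCh s k n) = crs n (KK.iota s) (KK.iota k) := by
  classical
  obtain ⟨f, g, hgf, hfg, hs, hc⟩ := exists_linProd (Del s) (Del k)
  let T := (linSub (bd s)).proj.tens (linSub (bd k)).proj
  have hsur : ∀ n, Function.Surjective (T.app n) := fun n =>
    TensorProduct.map_surjective (Submodule.mkQ_surjective _) (Submodule.mkQ_surjective _)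
  have hsingle : ∀ n (a : Mo n s) (b : Mo n k), (T.comp f).app n
      (Finsupp.single (a, b) 1 : Ch ((Del s).prod (Del k)) n) =
      (linSub (bd s)).proj.app n (Finsupp.single a 1) ⊗ₜ[ZMod 2]
        (linSub (bd k)).proj.app n (Finsupp.single b 1) := by
    intro n a b
    show T.app n (f.app n _) = _
    rw [hs n a b]
    rfl
  have hzero : ∀ (t n : ℕ) (a : Mo n t), a ∈ (bd t).car n →
      (linSub (bd t)).proj.app n (Finsupp.single a 1) = 0 := by
    intro t n a ha
    exact (Submodule.Quotient.mk_eq_zero _).2 (SuppIn.single ha 1 : SuppIn (bd t) _)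
  refine ⟨T.comp f, ?_, ?_, ?_⟩
  · intro n y
    obtain ⟨x, hx⟩ := hsur n y
    refine ⟨g.app n x, ?_⟩
    show T.app n (f.app n (g.app n x)) = y
    rw [hfg, hx]
  · intro n z
    constructor
    · rintro hz ⟨a, b⟩ hab
      by_contra hnot
      have ha : a ∉ (bd s).car n := fun h => hnot ⟨⟨trivial, trivial⟩, Or.inl h⟩
      have hb : b ∉ (bd k).car n := fun h => hnot ⟨⟨trivial, trivial⟩, Or.inr h⟩
      let φ : ((KK s).tens (KK k)).V n →ₗ[ZMod 2] ZMod 2 :=
        (TensorProduct.lid (ZMod 2) (ZMod 2)).toLinearMap ∘ₗ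
          TensorProduct.map (A019_co s n a ha) (A019_co k n b hb)
      have h1 : φ ∘ₗ ((T.comp f).app n) = Finsupp.lapply (a, b) := by
        refine Finsupp.lhom_ext' fun q => LinearMap.ext_ring ?_
        obtain ⟨a', b'⟩ := q
        show φ ((T.comp f).app n (Finsupp.single (a', b') 1)) =
          (Finsupp.single (a', b') 1 : Ch ((Del s).prod (Del k)) n) (a, b)
        rw [hsingle]
        show TensorProduct.lid (ZMod 2) (ZMod 2) (TensorProduct.map (A019_co s n a ha)
          (A019_co k n b hb) (_ ⊗ₜ[ZMod 2] _)) = _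
        rw [TensorProduct.map_tmul, TensorProduct.lid_tmul, A019_co_single, A019_co_single,
          Finsupp.single_apply, Finsupp.single_apply, Finsupp.single_apply]
        by_cases e1 : a' = a
        · by_cases e2 : b' = b
          · rw [if_pos e1, if_pos e2, if_pos (by rw [e1, e2])]; rfl
          · rw [if_pos e1, if_neg e2, if_neg (fun h => e2 (congrArg Prod.snd h))]; rfl
        · rw [if_neg e1, if_neg (fun h => e1 (congrArg Prod.fst h))]
          exact zero_smul _ _
      have h2 := LinearMap.congr_fun h1 z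
      have h3 : φ ((T.comp f).app n z) = z (a, b) := h2
      rw [hz, map_zero] at h3
      exact (Finsupp.mem_support_iff.1 hab) h3.symm
    · intro hz
      rw [← Finsupp.sum_single z, Finsupp.sum, map_sum]
      refine Finset.sum_eq_zero fun q hq => ?_
      obtain ⟨a, b⟩ := q
      have h1 : (Finsupp.single (a, b) (z (a, b)) : Ch ((Del s).prod (Del k)) n) =
          z (a, b) • Finsupp.single (a, b) 1 := by
        rw [Finsupp.smul_single, smul_eq_mul, mul_one]
      rw [h1, map_smul, hsingle]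
      rcases (hz _ hq).2 with h2 | h2
      · rw [hzero s n a h2, TensorProduct.zero_tmul, smul_zero]
      · rw [hzero k n b h2, TensorProduct.tmul_zero, smul_zero]
  · intro n
    show T.app n (f.app n (prismCh s k n)) = _
    rw [prismCh_eq, hc, crs_map]
    rfl

theorem genBy_prism (s k n : ℕ) (h : s + k = n + 1) :
    GenBy (Sub.box (bd s) ⊤ (bd k) ⊤) (⊤ : Sub ((Del s).prod (Del k))) (prismCh s k (n + 1)) := by
  obtain ⟨F, hsur, hker, hpr⟩ := A019_main s k
  -- an element of `F`-image a boundary is a relative boundary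
  have hB : ∀ (m : ℕ) (z : Ch ((Del s).prod (Del k)) m), F.app m z ∈ ((KK s).tens (KK k)).B m →
      ∃ w : Ch ((Del s).prod (Del k)) (m + 1), SuppIn (Sub.box (bd s) ⊤ (bd k) ⊤) (z + dif w) := by
    rintro m z ⟨t, ht⟩
    obtain ⟨w, rfl⟩ := hsur (m + 1) t
    refine ⟨w, ?_⟩
    rw [← hker, ← lin_d]
    have h1 := map_add (F.app m) z ((lin ((Del s).prod (Del k))).d m w)
    refine h1.trans ?_
    rw [A019_nat_d, ht, two_eq_zero']
  have hcyc : ∀ (m : ℕ) (z : Ch ((Del s).prod (Del k)) m),
      RelCyc (Sub.box (bd s) ⊤ (bd k) ⊤) z → F.app m z ∈ ((KK s).tens (KK k)).Z m := by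
    intro m z hz
    cases m with
    | zero => exact trivial
    | succ m =>
      show F.app (m + 1) z ∈ LinearMap.ker (((KK s).tens (KK k)).d m)
      rw [LinearMap.mem_ker, ← A019_nat_d]
      refine (hker m _).2 ?_
      have h1 : SuppIn (Sub.box (bd s) ⊤ (bd k) ⊤) (dif z) := hz
      rw [← lin_d] at h1
      exact h1
  -- homology of the tensor product
  have hhom : ∀ (m : ℕ) (z : Ch ((Del s).prod (Del k)) m),
      RelCyc (Sub.box (bd s) ⊤ (bd k) ⊤) z → F.app m z ∈ ((KK s).tens (KK k)).B m ∨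
        (m = s + k ∧ F.app m (z + prismCh s k m) ∈ ((KK s).tens (KK k)).B m) := by
    intro m z hz
    have h1 := hcyc m z hz
    rcases lt_or_ge m s with hm | hm
    · exact Or.inl (KK_tens_low s (KK k) m hm _ h1)
    · obtain ⟨m', rfl⟩ := Nat.exists_eq_add_of_le hm
      obtain ⟨y, hy, hzy⟩ := KK_tens_surj s (KK k) m' (s + m') rfl _ h1
      rcases KK_homology k m' y hy with h2 | ⟨rfl, h2⟩
      · left
        have h3 : crs (s + m') (KK.iota s) y ∈ ((KK s).tens (KK k)).B (s + m') :=
          crs_mem_B_right (KK_iota_mem_Z s) h2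
        have h4 := Submodule.add_mem _ hzy h3
        rwa [add_assoc, two_eq_zero', add_zero] at h4
      · right
        refine ⟨rfl, ?_⟩
        have h2' : y + KK.iota m' ∈ (KK m').B m' := h2
        have h3 : crs (s + m') (KK.iota s) (y + KK.iota m') ∈ ((KK s).tens (KK m')).B (s + m') :=
          crs_mem_B_right (KK_iota_mem_Z s) h2'
        rw [crs_add_right] at h3
        have h4 := Submodule.add_mem _ hzy h3
        have h5 : F.app (s + m') (z + prismCh s m' (s + m')) =
            F.app (s + m') z + crs (s + m') (KK.iota s) (KK.iota m') := by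
          rw [← hpr]; exact map_add (F.app (s + m')) z (prismCh s m' (s + m'))
        rw [h5]
        have h6 : F.app (s + m') z + crs (s + m') (KK.iota s) y +
            (crs (s + m') (KK.iota s) y + crs (s + m') (KK.iota s) (KK.iota m')) =
            F.app (s + m') z + crs (s + m') (KK.iota s) (KK.iota m') := by
          rw [add_assoc, ← add_assoc (crs (s + m') (KK.iota s) y), two_eq_zero', zero_add]
        rwa [h6] at h4
  refine ⟨SuppIn.top _, ?_, ?_, ?_⟩
  · rw [← hker, ← lin_d, A019_nat_d, hpr]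
    have h1 : crs (n + 1) (KK.iota s) (KK.iota k) ∈ ((KK s).tens (KK k)).Z (n + 1) :=
      crs_mem_Z (KK_iota_mem_Z s) (KK_iota_mem_Z k)
    exact LinearMap.mem_ker.1 h1
  · intro z _ hz
    rcases hhom (n + 1) z hz with h1 | ⟨-, h1⟩
    · obtain ⟨w, hw⟩ := hB _ z h1
      exact ⟨w, SuppIn.top w, Or.inl hw⟩
    · obtain ⟨w, hw⟩ := hB _ _ h1
      refine ⟨w, SuppIn.top w, Or.inr ?_⟩
      rwa [add_right_comm] at hw
  · intro m hm z _ hz
    rcases hhom m z hz with h1 | ⟨h2, -⟩
    · obtain ⟨w, hw⟩ := hB _ z h1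
      exact ⟨w, SuppIn.top w, hw⟩
    · exact absurd (h2.trans h) hm

private theorem A019_dif_id (s : ℕ) : (dif (Finsupp.single (OrderHom.id : Mo (s + 1) (s + 1)) 1 :
    Ch (Del (s + 1)) (s + 1))) = ∑ i : Fin (s + 2), Finsupp.single (dlt i : Mo s (s + 1)) 1 := by
  unfold dif
  refine Finset.sum_congr rfl fun i _ => ?_
  rw [Finsupp.mapDomain_single]
  rfl

private theorem A019_crsCh_sum_left {P Q : SS} {p q n : ℕ} {ι : Type} (S : Finset ι)
    (x : ι → Ch P p) (y : Ch Q q) : crsCh n (∑ i ∈ S, x i) y = ∑ i ∈ S, crsCh n (x i) y := by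
  obtain ⟨f, g, hgf, -, -, h⟩ := exists_linProd P Q
  apply Function.LeftInverse.injective (hgf n)
  obtain ⟨b, hb⟩ := crs_bilin (lin P) (lin Q) p q n
  rw [h, ← hb, map_sum, LinearMap.sum_apply]
  refine Eq.trans ?_ (map_sum (f.app n) _ _).symm
  exact Finset.sum_congr rfl fun i _ => by rw [hb, h]

private theorem A019_crsCh_sum_right {P Q : SS} {p q n : ℕ} {ι : Type} (S : Finset ι)
    (x : Ch P p) (y : ι → Ch Q q) : crsCh n x (∑ i ∈ S, y i) = ∑ i ∈ S, crsCh n x (y i) := by
  obtain ⟨f, g, hgf, -, -, h⟩ := exists_linProd P Q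
  apply Function.LeftInverse.injective (hgf n)
  obtain ⟨b, hb⟩ := crs_bilin (lin P) (lin Q) p q n
  rw [h, ← hb, map_sum]
  refine Eq.trans ?_ (map_sum (f.app n) _ _).symm
  exact Finset.sum_congr rfl fun i _ => by rw [hb, h]

private theorem A019_left (s k n : ℕ) (i : Fin (s + 2)) :
    crsCh (P := Del (s + 1)) (Q := Del k) n (Finsupp.single (dlt i : Mo s (s + 1)) 1)
      (Finsupp.single (OrderHom.id : Mo k k) 1) =
    (prismCh s k n).mapDomain (fun x : ((Del s).prod (Del k)).S n => (((dlt i).comp x.1, x.2) :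
          ((Del (s + 1)).prod (Del k)).S n)) := by
  rw [prismCh_eq]
  have h := crsCh_mapDomain (SS.yo (P := Del (s + 1)) (dlt i : Mo s (s + 1))) (Hom.id (Del k))
    (n := n) (Finsupp.single (OrderHom.id : Mo s s) 1 : Ch (Del s) s)
    (Finsupp.single (OrderHom.id : Mo k k) 1 : Ch (Del k) k)
  rw [Finsupp.mapDomain_single, Finsupp.mapDomain_single] at h
  exact h.symm

private theorem A019_right (s k n : ℕ) (i : Fin (k + 2)) :
    crsCh (P := Del s) (Q := Del (k + 1)) n (Finsupp.single (OrderHom.id : Mo s s) 1)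
      (Finsupp.single (dlt i : Mo k (k + 1)) 1) =
    (prismCh s k n).mapDomain (fun x : ((Del s).prod (Del k)).S n => ((x.1, (dlt i).comp x.2) :
          ((Del s).prod (Del (k + 1))).S n)) := by
  rw [prismCh_eq]
  have h := crsCh_mapDomain (Hom.id (Del s)) (SS.yo (P := Del (k + 1)) (dlt i : Mo k (k + 1)))
    (n := n) (Finsupp.single (OrderHom.id : Mo s s) 1 : Ch (Del s) s)
    (Finsupp.single (OrderHom.id : Mo k k) 1 : Ch (Del k) k)
  rw [Finsupp.mapDomain_single, Finsupp.mapDomain_single] at h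
  exact h.symm

theorem dif_prismCh (s k n : ℕ) :
    dif (prismCh (s + 1) (k + 1) (n + 1)) =
      (∑ i : Fin (s + 2), (prismCh s (k + 1) n).mapDomain
        (fun x : ((Del s).prod (Del (k + 1))).S n => (((dlt i).comp x.1, x.2) :
          ((Del (s + 1)).prod (Del (k + 1))).S n))) +
      ∑ i : Fin (k + 2), (prismCh (s + 1) k n).mapDomain
        (fun x : ((Del (s + 1)).prod (Del k)).S n => ((x.1, (dlt i).comp x.2) :
          ((Del (s + 1)).prod (Del (k + 1))).S n)) := by
  rw [prismCh_eq (s + 1) (k + 1) (n + 1), dif_crsCh, A019_dif_id, A019_dif_id,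
    A019_crsCh_sum_left, A019_crsCh_sum_right]
  congr 1
  · exact Finset.sum_congr rfl fun i _ => A019_left s (k + 1) n i
  · exact Finset.sum_congr rfl fun i _ => A019_right (s + 1) k n i

theorem dif_prismCh_zero_left (k n : ℕ) :
    dif (prismCh 0 (k + 1) (n + 1)) =
      ∑ i : Fin (k + 2), (prismCh 0 k n).mapDomain
        (fun x : ((Del 0).prod (Del k)).S n => ((x.1, (dlt i).comp x.2) :
          ((Del 0).prod (Del (k + 1))).S n)) := by
  rw [prismCh_eq 0 (k + 1) (n + 1), dif_crsCh_zero_left, A019_dif_id, A019_crsCh_sum_right]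
  exact Finset.sum_congr rfl fun i _ => A019_right 0 k n i

theorem prismCh_apply (s k n : ℕ) (x : ((Del s).prod (Del k)).S n) :
    prismCh s k n x = if (s + k = n ∧ ∀ i, ((x.1 i : ℕ) + (x.2 i : ℕ) = (i : ℕ))) then 1 else 0 := by
  classical
  obtain ⟨a, b⟩ := x
  unfold prismCh
  rw [Finsupp.finsetSum_apply, Finset.sum_eq_single a]
  · rw [Finsupp.finsetSum_apply, Finset.sum_eq_single b]
    · by_cases h1 : (s + k = n ∧ ∀ i, ((a i : ℕ) + (b i : ℕ) = (i : ℕ)))
      · rw [if_pos h1, if_pos h1, Finsupp.single_eq_same]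
      · rw [if_neg h1, if_neg h1]; rfl
    · intro b' _ hb'
      split_ifs with h1
      · rw [Finsupp.single_apply, if_neg (fun h => hb' (congrArg Prod.snd h))]
      · rfl
    · intro h
      exact absurd (Finset.mem_univ b) h
  · intro a' _ ha'
    rw [Finsupp.finsetSum_apply]
    refine Finset.sum_eq_zero fun b' _ => ?_
    split_ifs with h1
    · rw [Finsupp.single_apply, if_neg (fun h => ha' (congrArg Prod.fst h))]
    · rfl
  · intro h
    exact absurd (Finset.mem_univ a) h

/-- a maximal chain -/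
theorem prismCh_ne_zero (s k : ℕ) : ∃ x, prismCh s k (s + k) x = 1 := by
  let a : Mo (s + k) s := ⟨fun i => ⟨min i s, by omega⟩, fun i j h => by
    have : (i : ℕ) ≤ j := h
    show min (i : ℕ) s ≤ min (j : ℕ) s
    omega⟩
  let b : Mo (s + k) k := ⟨fun i => ⟨i - s, by omega⟩, fun i j h => by
    have : (i : ℕ) ≤ j := h
    show (i : ℕ) - s ≤ (j : ℕ) - s
    omega⟩
  refine ⟨(a, b), ?_⟩
  rw [prismCh_apply, if_pos]
  refine ⟨rfl, fun i => ?_⟩
  show min (i : ℕ) s + ((i : ℕ) - s) = i
  omega

end MM
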