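import Pool.Agent.Lib_MP_33f7bb_d.Defs

/-!
# A0 Basic: shared notions of the toolkit (definitions and trivial lemmas, complete)
-/

open scoped TensorProduct

namespace MM

noncomputable instance instFintypeMo (m n : ℕ) : Fintype (Mo m n) :=
  Fintype.ofInjective (fun f => (f : Fin (m + 1) → Fin (n + 1))) DFunLike.coe_injective

noncomputable instance instDecEqMo (m n : ℕ) : DecidableEq (Mo m n) := Classical.decEq _

/-- the relative homology of `(C, A)` is generated by the relative cycle `e` of degree `n + 1`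
(and vanishes in all other degrees) -/
def GenBy {P : SS} (A C : Sub P) {n : ℕ} (e : Ch P (n + 1)) : Prop :=
  SuppIn C e ∧ SuppIn A (dif e) ∧
  (∀ z : Ch P (n + 1), SuppIn C z → SuppIn A (dif z) →
    ∃ w : Ch P (n + 2), SuppIn C w ∧ (SuppIn A (z + dif w) ∨ SuppIn A (z + dif w + e))) ∧
  ∀ m, m ≠ n + 1 → ∀ z : Ch P m, SuppIn C z → RelCyc A z →
    ∃ w : Ch P (m + 1), SuppIn C w ∧ SuppIn A (z + dif w)

/-- linear homotopies: families of linear maps indexed by the simplices of `Δ^1` -/
structure LHpy (P Q : SV) where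
  app : ∀ n, Mo n 1 → (P.V n →ₗ[ZMod 2] Q.V n)
  nat : ∀ {m n : ℕ} (f : Mo m n) (a : Mo n 1) (x : P.V n),
    app m (a.comp f) (P.act f x) = Q.act f (app n a x)

/-- linear homotopy between two maps -/
def LHtp {P Q : SV} (f g : SVHom P Q) : Prop :=
  ∃ H : LHpy P Q, (∀ n x, H.app n (cst 0) x = f.app n x) ∧ ∀ n x, H.app n (cst 1) x = g.app n x

/-- homotopy between two simplicial maps -/
def Htp {P Y : SS} (f g : Hom P Y) : Prop :=
  ∃ H : Hom ((Del 1).prod P) Y, (∀ n x, H.app n (cst 0, x) = f.app n x) ∧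
    ∀ n x, H.app n (cst 1, x) = g.app n x

/-- the normalised part: faces `δ_i`, `i ≥ 1`, vanish -/
def SV.NM (W : SV) : ∀ n, Submodule (ZMod 2) (W.V n)
  | 0 => ⊤
  | n + 1 => ⨅ i : Fin (n + 1), LinearMap.ker (W.act (dlt i.succ))

/-- cross product (shuffle product): `n` is the target degree, zero unless `p + q = n` -/
noncomputable def crs {P Q : SV} {p q : ℕ} (n : ℕ) (x : P.V p) (y : Q.V q) : (P.tens Q).V n :=
  by
    classical
    exact ∑ a : Mo n p, ∑ b : Mo n q,
      if (p + q = n ∧ ∀ i, ((a i : ℕ) + (b i : ℕ) = (i : ℕ))) then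
        (P.act a x) ⊗ₜ[ZMod 2] (Q.act b y) else 0

/-- the chain of all maximal chains of `[s] × [k]`, zero unless `s + k = n` -/
noncomputable def prismCh (s k n : ℕ) : Ch ((Del s).prod (Del k)) n := by
  classical
  exact ∑ a : Mo n s, ∑ b : Mo n k,
    if (s + k = n ∧ ∀ i, ((a i : ℕ) + (b i : ℕ) = (i : ℕ))) then Finsupp.single (a, b) 1 else 0

/-- cross product of chains of simplicial sets -/
noncomputable def crsCh {P Q : SS} {p q : ℕ} (n : ℕ) (x : Ch P p) (y : Ch Q q) :
    Ch (P.prod Q) n := by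
  classical
  exact ∑ a : Mo n p, ∑ b : Mo n q,
    if (p + q = n ∧ ∀ i, ((a i : ℕ) + (b i : ℕ) = (i : ℕ))) then
      (x.mapDomain (P.act a)).sum fun u c => (y.mapDomain (Q.act b)).sum fun v c' =>
        Finsupp.single (u, v) (c * c') else 0

/-- direct sums of simplicial vector spaces -/
noncomputable abbrev dsum {ι : Type} (P : ι → SV) : SV where
  V n := Π₀ i, (P i).V n
  act f := DFinsupp.mapRange.linearMap (fun i => (P i).act f)
  act_id x := by
    ext i; simp [(P i).act_id]
  act_comp f g x := by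
    ext i; simp [(P i).act_comp]

/-- the constant (discrete) simplicial vector space -/
abbrev cstV (M : Type) [AddCommGroup M] [Module (ZMod 2) M] : SV where
  V _ := M
  act _ := LinearMap.id
  act_id _ := rfl
  act_comp _ _ _ := rfl

/-- `K'(n) = F[Δ^n] / F[∂Δ^n]` -/
noncomputable abbrev KK (n : ℕ) : SV := (linSub (bd n)).quo

/-- its fundamental class -/
noncomputable def KK.iota (n : ℕ) : (KK n).V n :=
  (linSub (bd n)).proj.app n (Finsupp.single (OrderHom.id : Mo n n) 1)

@[simp] theorem cst_comp {l m n : ℕ} (i : Fin (n + 1)) (f : Mo l m) :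
    (cst i : Mo m n).comp f = cst i := rfl

theorem comp_cst {l m n : ℕ} (f : Mo m n) (i : Fin (m + 1)) :
    f.comp (cst i : Mo l m) = cst (f i) := rfl

theorem two_eq_zero' {M : Type*} [AddCommGroup M] [Module (ZMod 2) M] (x : M) : x + x = 0 := by
  have : (2 : ZMod 2) • x = 0 := by
    have h : (2 : ZMod 2) = 0 := rfl
    rw [h, zero_smul]
  rwa [two_smul] at this

theorem neg_eq' {M : Type*} [AddCommGroup M] [Module (ZMod 2) M] (x : M) : -x = x :=
  neg_eq_of_add_eq_zero_left (two_eq_zero' x)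

theorem sub_eq' {M : Type*} [AddCommGroup M] [Module (ZMod 2) M] (x y : M) : x - y = x + y := by
  rw [sub_eq_add_neg, neg_eq']

theorem SuppIn.zero {P : SS} (A : Sub P) {n : ℕ} : SuppIn A (0 : Ch P n) := by
  intro x hx; simp at hx

theorem suppIn_iff {P : SS} (A : Sub P) {n : ℕ} (z : Ch P n) :
    SuppIn A z ↔ z ∈ (linSub A).car n := Iff.rfl

theorem SuppIn.add {P : SS} {A : Sub P} {n : ℕ} {z w : Ch P n} (hz : SuppIn A z)
    (hw : SuppIn A w) : SuppIn A (z + w) :=
  ((linSub A).car n).add_mem (x := z) hz hw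

theorem SuppIn.single {P : SS} {A : Sub P} {n : ℕ} {x : P.S n} (hx : x ∈ A.car n) (c : ZMod 2) :
    SuppIn A (Finsupp.single x c : Ch P n) := by
  intro y hy
  have := Finsupp.support_single_subset hy
  rw [Finset.mem_singleton] at this
  exact this ▸ hx

theorem SuppIn.mono {P : SS} {A B : Sub P} (h : A ≤ B) {n : ℕ} {z : Ch P n} (hz : SuppIn A z) :
    SuppIn B z := fun x hx => h n (hz x hx)

theorem SuppIn.top {P : SS} {n : ℕ} (z : Ch P n) : SuppIn (⊤ : Sub P) z := fun _ _ => trivial

theorem lin_d {P : SS} {n : ℕ} (z : Ch P (n + 1)) : (lin P).d n z = dif z := by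
  simp [SV.d, dif, LinearMap.sum_apply]

@[simp] theorem dif_add {P : SS} {n : ℕ} (z w : Ch P (n + 1)) : dif (z + w) = dif z + dif w := by
  rw [← lin_d, ← lin_d, ← lin_d]; exact map_add _ z w

@[simp] theorem dif_zero {P : SS} {n : ℕ} : dif (0 : Ch P (n + 1)) = 0 := by
  rw [← lin_d]; exact map_zero _

theorem SuppIn.dif {P : SS} {A : Sub P} {n : ℕ} {z : Ch P (n + 1)} (hz : SuppIn A z) :
    SuppIn A (dif z) := by
  rw [suppIn_iff] at hz ⊢
  rw [MM.dif]
  exact Submodule.sum_mem _ fun i _ => (linSub A).closed (dlt i) hz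

theorem linExt_apply {P : SS} {W : SV} (f : Fn P W.ss) (n : ℕ) (z : Ch P n) :
    linExt f n z = z.sum fun x c => c • f n x := rfl

@[simp] theorem linExt_single {P : SS} {W : SV} (f : Fn P W.ss) (n : ℕ) (x : P.S n) (c : ZMod 2) :
    linExt f n (Finsupp.single x c) = c • (f n x : W.V n) := by
  simp [linExt]

theorem linExt_congr {P : SS} {W : SV} {f g : Fn P W.ss} {A : Sub P} {n : ℕ}
    (h : ∀ x ∈ A.car n, f n x = g n x) {z : Ch P n} (hz : SuppIn A z) :
    linExt f n z = linExt g n z := by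
  rw [linExt_apply, linExt_apply]
  exact Finset.sum_congr rfl fun x hx => by
    show z x • f n x = z x • g n x
    rw [h x (hz x hx)]

/-- composition of cycles with simplicial maps: `linExt` commutes with the structure maps -/
theorem linExt_act {P : SS} {W : SV} {f : Fn P W.ss} {A : Sub P} (hf : NatOn A f) {m n : ℕ}
    (g : Mo m n) {z : Ch P n} (hz : SuppIn A z) :
    linExt f m (z.mapDomain (P.act g)) = W.act g (linExt f n z) := by
  rw [linExt_apply, linExt_apply, Finsupp.sum_mapDomain_index (by simp)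
    (by intros; rw [add_smul]), map_finsuppSum]
  exact Finset.sum_congr rfl fun x hx => by
    show z x • f m (P.act g x) = W.act g (z x • f n x)
    rw [map_smul]; congr 1; exact hf g x (hz x hx)

theorem linExt_dif {P : SS} {W : SV} {f : Fn P W.ss} {A : Sub P} (hf : NatOn A f) {n : ℕ}
    {z : Ch P (n + 1)} (hz : SuppIn A z) :
    linExt f n (dif z) = W.d n (linExt f (n + 1) z) := by
  rw [dif, map_sum, SV.d, LinearMap.sum_apply]
  exact Finset.sum_congr rfl fun i _ => linExt_act hf (dlt i) hz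

end MM
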