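import Pool.Agent.Lib_MP_33f7bb_d.A1Defs

/-!
# A1-01: cosimplicial vector spaces: section, projector, normalisation (T1, T2, T3)

Everything is about one `CoV` (levels `C s`, cofaces `d s i` additive for `1 ≤ i ≤ s + 1`, natural
number indices).  Over `ZMod 2`: `x + x = 0` (`two_eq_zero'`).

`sec_σ` (T1).  Let `x_0 = d^1 m_0`, `x_j = x_(j-1) + d^(j+1) (m_j + σ^j x_(j-1))` (`sec`).  Claim:
`σ^i x_j = m_i` for `i ≤ j ≤ s`.  `i = j`: `σ^j x_j = σ^j x_(j-1) + m_j + σ^j x_(j-1)`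
(`σd_eq'`); `i < j` (then `s = s' + 1`): `σ^i d^(j+1) y = d^j σ^i y` (`σd_gt`) and
`σ^i (m_j + σ^j x_(j-1)) = σ^i m_j + σ^(j-1) σ^i x_(j-1) = σ^i m_j + σ^(j-1) m_i = 0` (`σσ`, `Compat`).

`prj` (T2).  `P_j x = x + d^(j+1) σ^j x`, `prj s j = P_(j-1) ... P_0`.
`σ^j P_j = 0`; for `i < j`, if `σ^i y = 0` then `σ^i P_j y = d^j σ^i σ^j y = d^j σ^(j-1) σ^i y = 0`.
`P_j (d^(j+1) y) = 0`; for `j + 1 < i`: `P_j (d^i y) = d^i (P_j y)` (for `y ∈ C s`, `s ≥ 1`):
`d^(j+1) σ^j d^i y = d^(j+1) d^(i-1) σ^j y = d^i d^(j+1) σ^j y`.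

`pi_del` (T3).  If `d s 0` is additive for all `s`, then `pi (s+1) (del s x) = del s (pi s x)`.
Proof: `del (pi x)` is normalised: `σ^j d^i a = 0` for `a` normalised and `i ≠ j, j + 1`, and the two
terms `i = j, j + 1` give `a + a = 0`.  So `pi (del (pi x)) = del (pi x)`.  And `x + pi x` is a sum of
elements `d^i y`, `i ≥ 1`; `del (d^i y) = ∑_k d^k d^i y` is a sum of elements `d^(i') y'` with
`i' ≥ 1` (`d^0 d^i y = d^(i+1) d^0 y`), so `pi (del (x + pi x)) = 0` by `pi_d`.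
-/

namespace MM

namespace CoV

variable (T : CoV)

private theorem A101_sec_aux (s : ℕ) (m : ℕ → T.C s) (h : T.Compat s m) (j : ℕ) (hj : j ≤ s) :
    ∀ i, i ≤ j → T.σ s i (T.sec s m j) = m i := by
  induction j with
  | zero =>
    intro i hi
    obtain rfl : i = 0 := by omega
    show T.σ s 0 (T.d s 1 (m 0)) = m 0
    exact T.σd_eq' s 0 (m 0) (Nat.zero_le _)
  | succ j ih =>
    intro i hi
    have ih' := ih (by omega)
    show T.σ s i (T.sec s m j + T.d s (j + 2) (m (j + 1) + T.σ s (j + 1) (T.sec s m j))) = m i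
    rw [map_add]
    rcases Nat.lt_or_ge i (j + 1) with hij | hij
    · obtain ⟨s', rfl⟩ : ∃ s', s = s' + 1 := ⟨s - 1, by omega⟩
      have hij' : i ≤ j := by omega
      have hjs : j ≤ s' := by omega
      have hc : T.σ s' i (m (j + 1)) = T.σ s' j (m i) := h i j hij' hjs
      rw [T.σd_gt s' i j _ hij' hjs, map_add, ← T.σσ s' i j _ hij' hjs, ih' i hij', hc,
        two_eq_zero', T.d_zero, add_zero]
    · obtain rfl : i = j + 1 := by omega
      rw [T.σd_eq' s (j + 1) _ (by omega), add_comm (m (j + 1)), ← add_assoc, two_eq_zero',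
        zero_add]

theorem sec_σ (s : ℕ) (m : ℕ → T.C s) (h : T.Compat s m) (j : ℕ) (hj : j ≤ s) :
    T.σ s j (T.sec s m s) = m j :=
  A101_sec_aux T s m h s le_rfl j hj

theorem prj_add (s j : ℕ) (hj : j ≤ s + 1) (x y : T.C (s + 1)) :
    T.prj s j (x + y) = T.prj s j x + T.prj s j y := by
  induction j with
  | zero => rfl
  | succ j ih =>
    show T.prj s j (x + y) + T.d s (j + 1) (T.σ s j (T.prj s j (x + y))) =
      (T.prj s j x + T.d s (j + 1) (T.σ s j (T.prj s j x))) +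
        (T.prj s j y + T.d s (j + 1) (T.σ s j (T.prj s j y)))
    rw [ih (by omega), map_add, T.d_add s (j + 1) _ _ (by omega) hj]
    abel

theorem σ_prj (s i j : ℕ) (hi : i < j) (hj : j ≤ s + 1) (x : T.C (s + 1)) :
    T.σ s i (T.prj s j x) = 0 := by
  induction j with
  | zero => omega
  | succ j ih =>
    show T.σ s i (T.prj s j x + T.d s (j + 1) (T.σ s j (T.prj s j x))) = 0
    rw [map_add]
    rcases Nat.lt_or_ge i j with hij | hij
    · have ih' := ih hij (by omega)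
      obtain ⟨j', rfl⟩ : ∃ j', j = j' + 1 := ⟨j - 1, by omega⟩
      obtain ⟨s', rfl⟩ : ∃ s', s = s' + 1 := ⟨s - 1, by omega⟩
      rw [ih', zero_add]
      rw [T.σd_gt s' i j' _ (by omega) (by omega), ← T.σσ s' i j' _ (by omega) (by omega), ih',
        map_zero, T.d_zero]
    · obtain rfl : i = j := by omega
      rw [T.σd_eq' s i _ (by omega), two_eq_zero']

theorem prj_of_nrm (s j : ℕ) (hj : j ≤ s + 1) (x : T.C (s + 1)) (hx : T.Nrm (s + 1) x) :
    T.prj s j x = x := by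
  induction j with
  | zero => rfl
  | succ j ih =>
    show T.prj s j x + T.d s (j + 1) (T.σ s j (T.prj s j x)) = x
    have hx' : T.σ s j x = 0 := hx j (by omega)
    rw [ih (by omega), hx', T.d_zero, add_zero]

theorem nrm_pi (s : ℕ) (x : T.C s) : T.Nrm s (T.pi s x) := by
  cases s with
  | zero => trivial
  | succ s =>
    intro j hj
    exact σ_prj T s j (s + 1) (by omega) le_rfl x

theorem pi_of_nrm (s : ℕ) (x : T.C s) (hx : T.Nrm s x) : T.pi s x = x := by
  cases s with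
  | zero => rfl
  | succ s => exact prj_of_nrm T s (s + 1) le_rfl x hx

theorem pi_add (s : ℕ) (x y : T.C s) : T.pi s (x + y) = T.pi s x + T.pi s y := by
  cases s with
  | zero => rfl
  | succ s => exact prj_add T s (s + 1) le_rfl x y

private theorem A101_prj_zero (s j : ℕ) : T.prj s j (0 : T.C (s + 1)) = 0 := by
  induction j with
  | zero => rfl
  | succ j ih =>
    show T.prj s j 0 + T.d s (j + 1) (T.σ s j (T.prj s j 0)) = 0
    rw [ih, map_zero, T.d_zero, add_zero]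

private theorem A101_prj_d (s i j : ℕ) (x : T.C s) (hi : i ≤ s + 1) (hj : j < i) :
    ∃ y, T.prj s j (T.d s i x) = T.d s i y := by
  induction j with
  | zero => exact ⟨x, rfl⟩
  | succ j ih =>
    obtain ⟨y, hy⟩ := ih (by omega)
    obtain ⟨s', rfl⟩ : ∃ s', s = s' + 1 := ⟨s - 1, by omega⟩
    obtain ⟨k, rfl⟩ : ∃ k, i = k + 2 := ⟨i - 2, by omega⟩
    refine ⟨y + T.d s' (j + 1) (T.σ s' j y), ?_⟩
    show T.prj (s' + 1) j (T.d (s' + 1) (k + 2) x) +
      T.d (s' + 1) (j + 1) (T.σ (s' + 1) j (T.prj (s' + 1) j (T.d (s' + 1) (k + 2) x))) = _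
    rw [hy, T.σd_gt s' j k _ (by omega) (by omega), T.d_add _ _ _ _ (by omega) hi,
      ← T.dd s' (j + 1) (k + 1) _ (by omega) (by omega)]

private theorem A101_prj_d0 (s i j : ℕ) (x : T.C s) (h : 1 ≤ i) (hi : i ≤ s + 1) (hj : i ≤ j) :
    T.prj s j (T.d s i x) = 0 := by
  induction j, hj using Nat.le_induction with
  | base =>
    obtain ⟨k, rfl⟩ : ∃ k, i = k + 1 := ⟨i - 1, by omega⟩
    obtain ⟨y, hy⟩ := A101_prj_d T s (k + 1) k x hi (by omega)
    show T.prj s k (T.d s (k + 1) x) +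
      T.d s (k + 1) (T.σ s k (T.prj s k (T.d s (k + 1) x))) = 0
    rw [hy, T.σd_eq' s k _ (by omega), two_eq_zero']
  | succ j _ ih =>
    show T.prj s j (T.d s i x) + T.d s (j + 1) (T.σ s j (T.prj s j (T.d s i x))) = 0
    rw [ih, map_zero, T.d_zero, add_zero]

theorem pi_d (s i : ℕ) (x : T.C s) (h : 1 ≤ i) (hi : i ≤ s + 1) :
    T.pi (s + 1) (T.d s i x) = 0 :=
  A101_prj_d0 T s i (s + 1) x h hi hi

private def A101_D (s : ℕ) : AddSubgroup (T.C (s + 1)) :=
  AddSubgroup.closure {z | ∃ i y, 1 ≤ i ∧ i ≤ s + 1 ∧ z = T.d s i y}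

private theorem A101_D_mem (s i : ℕ) (y : T.C s) (h : 1 ≤ i) (hi : i ≤ s + 1) :
    T.d s i y ∈ A101_D T s :=
  AddSubgroup.subset_closure ⟨i, y, h, hi, rfl⟩

private theorem A101_pi_zero (s : ℕ) : T.pi s (0 : T.C s) = 0 := by
  cases s with
  | zero => rfl
  | succ s => exact A101_prj_zero T s (s + 1)

private theorem A101_pi_D (s : ℕ) (z : T.C (s + 1)) (hz : z ∈ A101_D T s) :
    T.pi (s + 1) z = 0 := by
  unfold A101_D at hz
  induction hz using AddSubgroup.closure_induction with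
  | mem z hz =>
    obtain ⟨i, y, h, hi, rfl⟩ := hz
    exact pi_d T s i y h hi
  | zero => exact A101_pi_zero T (s + 1)
  | add x y _ _ hx hy => rw [pi_add, hx, hy, add_zero]
  | neg x _ hx => rw [neg_eq', hx]

private theorem A101_del_add (h0 : ∀ s (x y : T.C s), T.d s 0 (x + y) = T.d s 0 x + T.d s 0 y)
    (s : ℕ) (x y : T.C s) : T.del s (x + y) = T.del s x + T.del s y := by
  unfold del
  rw [← Finset.sum_add_distrib]
  refine Finset.sum_congr rfl fun i hi => ?_
  have hi' := Finset.mem_range.1 hi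
  rcases Nat.eq_zero_or_pos i with rfl | hp
  · exact h0 s x y
  · exact T.d_add s i x y hp (by omega)

private theorem A101_del_zero (s : ℕ) : T.del s (0 : T.C s) = 0 := by
  unfold del
  exact Finset.sum_eq_zero fun i _ => T.d_zero s i

private theorem A101_del_D (h0 : ∀ s (x y : T.C s), T.d s 0 (x + y) = T.d s 0 x + T.d s 0 y)
    (s : ℕ) (z : T.C (s + 1)) (hz : z ∈ A101_D T s) : T.del (s + 1) z ∈ A101_D T (s + 1) := by
  unfold A101_D at hz
  induction hz using AddSubgroup.closure_induction with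
  | mem z hz =>
    obtain ⟨i, y, h, hi, rfl⟩ := hz
    unfold del
    refine AddSubgroup.sum_mem _ fun k hk => ?_
    have hk' := Finset.mem_range.1 hk
    rcases Nat.eq_zero_or_pos k with rfl | hp
    · rw [← T.dd s 0 i y (Nat.zero_le _) hi]
      exact A101_D_mem T (s + 1) (i + 1) _ (by omega) (by omega)
    · exact A101_D_mem T (s + 1) k _ hp (by omega)
  | zero =>
    rw [A101_del_zero]
    exact AddSubgroup.zero_mem _
  | add x y _ _ hx hy =>
    rw [A101_del_add T h0]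
    exact AddSubgroup.add_mem _ hx hy
  | neg x _ hx =>
    rw [neg_eq']
    exact hx

private theorem A101_add_prj (s j : ℕ) (hj : j ≤ s + 1) (x : T.C (s + 1)) :
    x + T.prj s j x ∈ A101_D T s := by
  induction j with
  | zero =>
    show x + x ∈ _
    rw [two_eq_zero']
    exact AddSubgroup.zero_mem _
  | succ j ih =>
    show x + (T.prj s j x + T.d s (j + 1) (T.σ s j (T.prj s j x))) ∈ _
    rw [← add_assoc]
    exact AddSubgroup.add_mem _ (ih (by omega)) (A101_D_mem T s (j + 1) _ (by omega) hj)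

private theorem A101_nrm_del (s : ℕ) (a : T.C s) (ha : T.Nrm s a) :
    T.Nrm (s + 1) (T.del s a) := by
  intro j hj
  unfold del
  rw [map_sum]
  have hz : ∀ i ∈ Finset.range (s + 2), i ∉ ({j, j + 1} : Finset ℕ) →
      T.σ s j (T.d s i a) = 0 := by
    intro i hi hni
    have hi' := Finset.mem_range.1 hi
    simp only [Finset.mem_insert, Finset.mem_singleton, not_or] at hni
    rcases Nat.lt_or_ge i j with hij | hij
    · obtain ⟨j', rfl⟩ : ∃ j', j = j' + 1 := ⟨j - 1, by omega⟩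
      obtain ⟨s', rfl⟩ : ∃ s', s = s' + 1 := ⟨s - 1, by omega⟩
      have ha' : T.σ s' j' a = 0 := ha j' (by omega)
      rw [T.σd_lt s' i j' a (by omega) (by omega), ha', T.d_zero]
    · obtain ⟨k, rfl⟩ : ∃ k, i = k + 2 := ⟨i - 2, by omega⟩
      obtain ⟨s', rfl⟩ : ∃ s', s = s' + 1 := ⟨s - 1, by omega⟩
      have ha' : T.σ s' j a = 0 := ha j (by omega)
      rw [T.σd_gt s' j k a (by omega) (by omega), ha', T.d_zero]
  have hsub : ({j, j + 1} : Finset ℕ) ⊆ Finset.range (s + 2) := by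
    intro i hi
    simp only [Finset.mem_insert, Finset.mem_singleton] at hi
    exact Finset.mem_range.2 (by omega)
  rw [← Finset.sum_subset hsub hz, Finset.sum_pair (by omega), T.σd_eq s j a hj,
    T.σd_eq' s j a hj, two_eq_zero']

theorem pi_del (h0 : ∀ s (x y : T.C s), T.d s 0 (x + y) = T.d s 0 x + T.d s 0 y) (s : ℕ)
    (x : T.C s) : T.pi (s + 1) (T.del s x) = T.del s (T.pi s x) := by
  have h1 : T.pi (s + 1) (T.del s (T.pi s x)) = T.del s (T.pi s x) :=
    pi_of_nrm T (s + 1) _ (A101_nrm_del T s _ (nrm_pi T s x))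
  cases s with
  | zero => exact h1
  | succ s =>
    have h2 : T.pi (s + 1 + 1) (T.del (s + 1) (x + T.pi (s + 1) x)) = 0 :=
      A101_pi_D T (s + 1) _ (A101_del_D T h0 s _ (A101_add_prj T s (s + 1) le_rfl x))
    have h3 : x = (x + T.pi (s + 1) x) + T.pi (s + 1) x := by
      rw [add_assoc, two_eq_zero', add_zero]
    calc T.pi (s + 1 + 1) (T.del (s + 1) x)
        = T.pi (s + 1 + 1) (T.del (s + 1) ((x + T.pi (s + 1) x) + T.pi (s + 1) x)) := by
          rw [← h3]
      _ = T.pi (s + 1 + 1) (T.del (s + 1) (x + T.pi (s + 1) x)) +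
            T.pi (s + 1 + 1) (T.del (s + 1) (T.pi (s + 1) x)) := by
          rw [A101_del_add T h0, pi_add]
      _ = T.del (s + 1) (T.pi (s + 1) x) := by rw [h2, h1, zero_add]

/-- (T3) normalised coboundaries are coboundaries of normalised elements -/
theorem del_pi_of_nrm (h0 : ∀ s (x y : T.C s), T.d s 0 (x + y) = T.d s 0 x + T.d s 0 y) (s : ℕ)
    (o : T.C (s + 1)) (ho : T.Nrm (s + 1) o) (a : T.C s) (h : o = T.del s a) :
    o = T.del s (T.pi s a) := by
  rw [← pi_del T h0 s a, ← h]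
  exact (pi_of_nrm T (s + 1) o ho).symm

/-- maps commuting with the operators commute with `sec` -/
theorem sec_map {T T' : CoV} (φ : ∀ s, T.C s →ₗ[ZMod 2] T'.C s)
    (hd : ∀ s i x, φ (s + 1) (T.d s i x) = T'.d s i (φ s x))
    (hσ : ∀ s j x, φ s (T.σ s j x) = T'.σ s j (φ (s + 1) x)) (s : ℕ) (m : ℕ → T.C s) (j : ℕ) :
    φ (s + 1) (T.sec s m j) = T'.sec s (fun i => φ s (m i)) j := by
  induction j with
  | zero => exact hd s 1 (m 0)
  | succ j ih =>
    show φ (s + 1) (T.sec s m j + T.d s (j + 2) (m (j + 1) + T.σ s (j + 1) (T.sec s m j))) =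
      T'.sec s (fun i => φ s (m i)) j + T'.d s (j + 2) (φ s (m (j + 1)) +
        T'.σ s (j + 1) (T'.sec s (fun i => φ s (m i)) j))
    rw [map_add, hd, map_add, hσ, ih]

private theorem A101_prj_map {T T' : CoV} (φ : ∀ s, T.C s →ₗ[ZMod 2] T'.C s)
    (hd : ∀ s i x, φ (s + 1) (T.d s i x) = T'.d s i (φ s x))
    (hσ : ∀ s j x, φ s (T.σ s j x) = T'.σ s j (φ (s + 1) x)) (s : ℕ) (x : T.C (s + 1)) (j : ℕ) :
    φ (s + 1) (T.prj s j x) = T'.prj s j (φ (s + 1) x) := by
  induction j with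
  | zero => rfl
  | succ j ih =>
    show φ (s + 1) (T.prj s j x + T.d s (j + 1) (T.σ s j (T.prj s j x))) =
      T'.prj s j (φ (s + 1) x) + T'.d s (j + 1) (T'.σ s j (T'.prj s j (φ (s + 1) x)))
    rw [map_add, hd, hσ, ih]

/-- maps commuting with the operators commute with `pi` -/
theorem pi_map {T T' : CoV} (φ : ∀ s, T.C s →ₗ[ZMod 2] T'.C s)
    (hd : ∀ s i x, φ (s + 1) (T.d s i x) = T'.d s i (φ s x))
    (hσ : ∀ s j x, φ s (T.σ s j x) = T'.σ s j (φ (s + 1) x)) (s : ℕ) (x : T.C s) :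
    φ s (T.pi s x) = T'.pi s (φ s x) := by
  cases s with
  | zero => rfl
  | succ s => exact A101_prj_map φ hd hσ s x (s + 1)

end CoV

end MM
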