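import Pool.Agent.Lib_MP_33f7bb_d.A0Basic

/-!
# Part A1, definitions: tower objects and Tot

A tower object is a cosimplicial object in pointed simplicial sets whose levels are simplicial
vector spaces and whose operators are linear, except for the coface `d 0`, which is only pointed.
All indices of cofaces and codegeneracies are natural numbers (values out of range are never used).
-/

namespace MM

/-! ## Monotone maps with natural number indices -/

/-- the coface `[s] → [s+1]` which skips `i` (the last coface for `i > s`) -/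
def dl (s i : ℕ) : Mo s (s + 1) :=
  ⟨fun k => ⟨if k.1 < i then k.1 else k.1 + 1, by have := k.2; split <;> omega⟩, by
    intro a b h
    have h' : a.1 ≤ b.1 := h
    show (if a.1 < i then a.1 else a.1 + 1) ≤ (if b.1 < i then b.1 else b.1 + 1)
    split <;> split <;> omega⟩

/-- the codegeneracy `[s+1] → [s]` which takes the value `j` twice -/
def sg (s j : ℕ) : Mo (s + 1) s :=
  ⟨fun k => ⟨if k.1 ≤ j then min k.1 s else k.1 - 1, by have := k.2; split <;> omega⟩, by
    intro a b h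
    have h' : a.1 ≤ b.1 := h
    have := b.2
    show (if a.1 ≤ j then min a.1 s else a.1 - 1) ≤ (if b.1 ≤ j then min b.1 s else b.1 - 1)
    split <;> split <;> omega⟩

theorem dl_val {s i : ℕ} (k : Fin (s + 1)) :
    ((dl s i) k).1 = if k.1 < i then k.1 else k.1 + 1 := rfl

theorem sg_val {s j : ℕ} (k : Fin (s + 2)) :
    ((sg s j) k).1 = if k.1 ≤ j then min k.1 s else k.1 - 1 := rfl

theorem dl_eq {s i : ℕ} (h : i < s + 2) : dl s i = dlt ⟨i, h⟩ := by
  ext k
  rw [dl_val]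
  show _ = ((Fin.succAbove ⟨i, h⟩ k : Fin (s + 2)) : ℕ)
  simp only [Fin.succAbove, Fin.lt_def, Fin.val_castSucc]
  split_ifs <;> simp

theorem sg_eq {s j : ℕ} (h : j < s + 1) : sg s j = sgm ⟨j, h⟩ := by
  ext k
  rw [sg_val]
  show _ = ((Fin.predAbove ⟨j, h⟩ k : Fin (s + 1)) : ℕ)
  simp only [Fin.predAbove, Fin.lt_def, Fin.val_castSucc]
  have := k.2
  split_ifs with h1 h2 h2 <;> simp <;> omega

theorem sum_dl {M : Type*} [AddCommMonoid M] {s : ℕ} (f : Mo s (s + 1) → M) :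
    ∑ i : Fin (s + 2), f (dlt i) = ∑ i ∈ Finset.range (s + 2), f (dl s i) := by
  rw [Finset.sum_range]
  exact Finset.sum_congr rfl fun i _ => by rw [dl_eq i.2]

/-! ## Cosimplicial vector spaces (the coface `d 0` only pointed) -/

/-- cosimplicial vector spaces, `d s 0` only pointed -/
structure CoV where
  C : ℕ → Type
  [grp : ∀ s, AddCommGroup (C s)]
  [mod : ∀ s, Module (ZMod 2) (C s)]
  /-- cofaces, used for `i ≤ s + 1` -/
  d : ∀ s : ℕ, ℕ → C s → C (s + 1)
  /-- codegeneracies, used for `j ≤ s` -/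
  σ : ∀ s : ℕ, ℕ → (C (s + 1) →ₗ[ZMod 2] C s)
  d_zero : ∀ s i, d s i 0 = 0
  d_add : ∀ s i (x y : C s), 1 ≤ i → i ≤ s + 1 → d s i (x + y) = d s i x + d s i y
  dd : ∀ s i j (x : C s), i ≤ j → j ≤ s + 1 →
    d (s + 1) (j + 1) (d s i x) = d (s + 1) i (d s j x)
  σσ : ∀ s i j (x : C (s + 2)), i ≤ j → j ≤ s → σ s j (σ (s + 1) i x) = σ s i (σ (s + 1) (j + 1) x)
  σd_lt : ∀ s i j (x : C (s + 1)), i ≤ j → j ≤ s →
    σ (s + 1) (j + 1) (d (s + 1) i x) = d s i (σ s j x)
  σd_eq : ∀ s j (x : C s), j ≤ s → σ s j (d s j x) = x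
  σd_eq' : ∀ s j (x : C s), j ≤ s → σ s j (d s (j + 1) x) = x
  σd_gt : ∀ s i j (x : C (s + 1)), i ≤ j → j ≤ s →
    σ (s + 1) i (d (s + 1) (j + 2) x) = d s (j + 1) (σ s i x)

attribute [instance] CoV.grp CoV.mod

namespace CoV

/-- compatible families of elements of `C s` (the codegeneracies of an element of `C (s+1)`) -/
def Compat (T : CoV) : ∀ (s : ℕ) (_ : ℕ → T.C s), Prop
  | 0, _ => True
  | s + 1, m => ∀ i j, i ≤ j → j ≤ s → T.σ s i (m (j + 1)) = T.σ s j (m i)

/-- the section `(m_0, ..., m_s) ↦ x` with `σ j x = m_j` (steps; the result is the value at `s`) -/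
def sec (T : CoV) (s : ℕ) (m : ℕ → T.C s) : ℕ → T.C (s + 1)
  | 0 => T.d s 1 (m 0)
  | j + 1 => T.sec s m j + T.d s (j + 2) (m (j + 1) + T.σ s (j + 1) (T.sec s m j))

/-- the projector `(1 + d^j σ^(j-1)) ... (1 + d^1 σ^0)` on `C (s+1)` (the complete projector is
the value at `s + 1`) -/
def prj (T : CoV) (s : ℕ) : ℕ → T.C (s + 1) → T.C (s + 1)
  | 0, x => x
  | j + 1, x => T.prj s j x + T.d s (j + 1) (T.σ s j (T.prj s j x))

/-- the complete projector in degree `s` (identity for `s = 0`) -/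
def pi (T : CoV) : ∀ s, T.C s → T.C s
  | 0, x => x
  | s + 1, x => T.prj s (s + 1) x

/-- `x` is killed by all codegeneracies -/
def Nrm (T : CoV) : ∀ (s : ℕ) (_ : T.C s), Prop
  | 0, _ => True
  | s + 1, x => ∀ j ≤ s, T.σ s j x = 0

/-- the sum of all cofaces of `x` -/
def del (T : CoV) (s : ℕ) (x : T.C s) : T.C (s + 1) := ∑ i ∈ Finset.range (s + 2), T.d s i x

end CoV

/-! ## Tower objects -/

/-- Tower objects. -/
structure Tower where
  W : ℕ → SV
  /-- cofaces `W s → W (s+1)`, used for `i ≤ s + 1` -/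
  d : ∀ s : ℕ, ℕ → Hom (W s).ss (W (s + 1)).ss
  /-- codegeneracies `W (s+1) → W s`, used for `j ≤ s` -/
  σ : ∀ s : ℕ, ℕ → SVHom (W (s + 1)) (W s)
  d_zero : ∀ s i n, (d s i).app n 0 = 0
  d_add : ∀ s i n (x y : (W s).V n), 1 ≤ i → i ≤ s + 1 →
    (d s i).app n (x + y : (W s).V n) = ((d s i).app n x + (d s i).app n y : (W (s + 1)).V n)
  dd : ∀ s i j n (x : (W s).V n), i ≤ j → j ≤ s + 1 →
    (d (s + 1) (j + 1)).app n ((d s i).app n x) = (d (s + 1) i).app n ((d s j).app n x)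
  σσ : ∀ s i j n (x : (W (s + 2)).V n), i ≤ j → j ≤ s →
    (σ s j).app n ((σ (s + 1) i).app n x) = (σ s i).app n ((σ (s + 1) (j + 1)).app n x)
  σd_lt : ∀ s i j n (x : (W (s + 1)).V n), i ≤ j → j ≤ s →
    (σ (s + 1) (j + 1)).app n ((d (s + 1) i).app n x) = (d s i).app n ((σ s j).app n x)
  σd_eq : ∀ s j n (x : (W s).V n), j ≤ s → (σ s j).app n ((d s j).app n x) = x
  σd_eq' : ∀ s j n (x : (W s).V n), j ≤ s → (σ s j).app n ((d s (j + 1)).app n x) = x
  σd_gt : ∀ s i j n (x : (W (s + 1)).V n), i ≤ j → j ≤ s →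
    (σ (s + 1) i).app n ((d (s + 1) (j + 2)).app n x) = (d s (j + 1)).app n ((σ s i).app n x)

namespace Tower

/-- the cosimplicial vector space of the elements of dimension `n` -/
abbrev cov (T : Tower) (n : ℕ) : CoV where
  C s := (T.W s).V n
  d s i x := (T.d s i).app n x
  σ s j := (T.σ s j).app n
  d_zero s i := T.d_zero s i n
  d_add s i x y h h' := T.d_add s i n x y h h'
  dd s i j x h h' := T.dd s i j n x h h'
  σσ s i j x h h' := T.σσ s i j n x h h'
  σd_lt s i j x h h' := T.σd_lt s i j n x h h'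
  σd_eq s j x h := T.σd_eq s j n x h
  σd_eq' s j x h := T.σd_eq' s j n x h
  σd_gt s i j x h h' := T.σd_gt s i j n x h h'

/-- the conditions on the families that are the simplices of `Tot` -/
structure IsTot (T : Tower) {m : ℕ} (f : ∀ s, Hom ((Del s).prod (Del m)) (T.W s).ss) :
    Prop where
  d : ∀ s i n (θ : Mo n s) (τ : Mo n m), i ≤ s + 1 →
    (f (s + 1)).app n ((dl s i).comp θ, τ) = (T.d s i).app n ((f s).app n (θ, τ))
  σ : ∀ s j n (θ : Mo n (s + 1)) (τ : Mo n m), j ≤ s →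
    (f s).app n ((sg s j).comp θ, τ) = (T.σ s j).app n ((f (s + 1)).app n (θ, τ))

/-- `Tot T` -/
abbrev Tot (T : Tower) : SS where
  S m := {f : ∀ s, Hom ((Del s).prod (Del m)) (T.W s).ss // T.IsTot f}
  act {m m'} g f := ⟨fun s => (f.1 s).comp (Hom.prodMap (Hom.id (Del s)) (SS.yo (P := Del m') g)),
    ⟨fun s i n θ τ hi => f.2.d s i n θ (g.comp τ) hi,
      fun s j n θ τ hj => f.2.σ s j n θ (g.comp τ) hj⟩⟩
  act_id _ := rfl
  act_comp _ _ _ := rfl

/-- the base point of `Tot` (in all dimensions) -/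
def tot0 (T : Tower) (m : ℕ) : T.Tot.S m :=
  ⟨fun s => ⟨fun _ _ => 0, fun f _ => ((T.W s).act f).map_zero.symm⟩,
    ⟨fun s i n _ _ _ => (T.d_zero s i n).symm,
      fun s j n _ _ _ => ((T.σ s j).app n).map_zero.symm⟩⟩

/-- families of functions on `Del s × P` which define a map `A → Tot T`, for a subcomplex `A` of
`P` -/
structure Fam (T : Tower) {P : SS} (A : Sub P)
    (F : ∀ s, Fn ((Del s).prod P) (T.W s).ss) : Prop where
  nat : ∀ s, NatOn (Sub.bx ⊤ A) (F s)
  d : ∀ s i n (θ : Mo n s) (x : P.S n), x ∈ A.car n → i ≤ s + 1 →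
    F (s + 1) n ((dl s i).comp θ, x) = (T.d s i).app n (F s n (θ, x))
  σ : ∀ s j n (θ : Mo n (s + 1)) (x : P.S n), x ∈ A.car n → j ≤ s →
    F s n ((sg s j).comp θ, x) = (T.σ s j).app n (F (s + 1) n (θ, x))

/-- the stage `n` of the construction of a family on `C` extending a given family `f` on `A`:
all conditions which involve only the functions `F 0, ..., F n` -/
structure Stage (T : Tower) {P : SS} (A C : Sub P)
    (f : ∀ s, Fn ((Del s).prod P) (T.W s).ss) (n : ℕ)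
    (F : ∀ s, Fn ((Del s).prod P) (T.W s).ss) : Prop where
  nat : ∀ s ≤ n, NatOn (Sub.bx ⊤ C) (F s)
  d : ∀ s < n, ∀ i m (θ : Mo m s) (x : P.S m), x ∈ C.car m → i ≤ s + 1 →
    F (s + 1) m ((dl s i).comp θ, x) = (T.d s i).app m (F s m (θ, x))
  σ : ∀ s < n, ∀ j m (θ : Mo m (s + 1)) (x : P.S m), x ∈ C.car m → j ≤ s →
    F s m ((sg s j).comp θ, x) = (T.σ s j).app m (F (s + 1) m (θ, x))
  ext : ∀ s ≤ n, ∀ m (θ : Mo m s) (x : P.S m), x ∈ A.car m → F s m (θ, x) = f s m (θ, x)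

/-- the function on `∂Δ^(n+1) × C ∪ Δ^(n+1) × A` which the next function `F (n+1)` has to
extend -/
structure Glue (T : Tower) {P : SS} (A C : Sub P)
    (f : ∀ s, Fn ((Del s).prod P) (T.W s).ss) (n : ℕ)
    (F : ∀ s, Fn ((Del s).prod P) (T.W s).ss)
    (b : Fn ((Del (n + 1)).prod P) (T.W (n + 1)).ss) : Prop where
  nat : NatOn (Sub.box (bd (n + 1)) ⊤ A C) b
  d : ∀ i m (θ : Mo m n) (x : P.S m), i ≤ n + 1 → x ∈ C.car m →
    b m ((dl n i).comp θ, x) = (T.d n i).app m (F n m (θ, x))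
  ext : ∀ m (θ : Mo m (n + 1)) (x : P.S m), x ∈ A.car m → b m (θ, x) = f (n + 1) m (θ, x)
  σ : ∀ j m (θ : Mo m (n + 1)) (x : P.S m), j ≤ n →
    (θ, x) ∈ (Sub.box (bd (n + 1)) ⊤ A C).car m →
    (T.σ n j).app m (b m (θ, x)) = F n m ((sg n j).comp θ, x)

/-- a function on `Δ^(n+1) × C` with the prescribed codegeneracies -/
structure Secn (T : Tower) {P : SS} (C : Sub P) (n : ℕ)
    (F : ∀ s, Fn ((Del s).prod P) (T.W s).ss)
    (G : Fn ((Del (n + 1)).prod P) (T.W (n + 1)).ss) : Prop where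
  nat : NatOn (Sub.bx ⊤ C) G
  σ : ∀ j m (θ : Mo m (n + 1)) (x : P.S m), j ≤ n → x ∈ C.car m →
    (T.σ n j).app m (G m (θ, x)) = F n m ((sg n j).comp θ, x)

/-- the normalised part: intersection of the kernels of the codegeneracies -/
def N (T : Tower) : ∀ s, SubV (T.W s)
  | 0 => ⟨fun _ => ⊤, fun _ _ _ => trivial⟩
  | s + 1 =>
    { car := fun n => ⨅ j : Fin (s + 1), LinearMap.ker ((T.σ s j).app n)
      closed := fun {m n} f x hx => by
        simp only [Submodule.mem_iInf, LinearMap.mem_ker] at hx ⊢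
        intro j
        rw [(T.σ s j).nat, hx j, map_zero] }

theorem mem_N (T : Tower) (s n : ℕ) (x : (T.W s).V n) :
    x ∈ (T.N s).car n ↔ (T.cov n).Nrm s x := by
  cases s with
  | zero => exact ⟨fun _ => trivial, fun _ => trivial⟩
  | succ s =>
    constructor
    · intro h j hj
      have h' := (Submodule.mem_iInf _).1 h ⟨j, by omega⟩
      exact h'
    · intro h
      exact (Submodule.mem_iInf _).2 fun j => h j.1 (by omega)

/-- the sum of all cofaces of `x` -/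
def del (T : Tower) (s n : ℕ) (x : (T.W s).V n) : (T.W (s + 1)).V n :=
  ∑ i ∈ Finset.range (s + 2), ((T.d s i).app n x : (T.W (s + 1)).V n)

/-- (H1): the complexes `s ↦ H_t (W s)` are exact for `t ≥ 1`, formulated with Moore cycles -/
def H1 (T : Tower) : Prop :=
  ∀ t, 1 ≤ t →
    (∀ u : (T.W 0).V t, (T.W 0).Moore u → T.del 0 t u ∈ (T.W 1).B t → u ∈ (T.W 0).B t) ∧
    ∀ s (u : (T.W (s + 1)).V t), (T.W (s + 1)).Moore u → T.del (s + 1) t u ∈ (T.W (s + 2)).B t →
      ∃ a : (T.W s).V t, (T.W s).Moore a ∧ u + T.del s t a ∈ (T.W (s + 1)).B t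

/-- (H0) -/
def H0 (T : Tower) : Prop :=
  ∀ u : (T.W 0).V 0, T.del 0 0 u ∈ (T.W 1).B 0 → u ∈ (T.W 0).B 0

end Tower

end MM
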