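import Pool.Agent.Lib_MP_33f7bb_d.A005
import Pool.Agent.Lib_MP_33f7bb_d.A1Defs

/-!
# A1-02: cross effects of pointed simplicial maps between simplicial vector spaces (T5)

`g : W → W'` a simplicial map (not linear) with `g 0 = 0`, `cr(x,y) = g (x+y) + g x + g y`.

`cr_moore`: `z, z'` Moore cycles in `W_t`, `t ≥ 1`.  With `y = cr(s_0 z, s_1 z')` (`s_i = act (sgm i)`):
`δ_0 y = cr(z, 0) = 0` (`δ_0 s_1 z' = s_0 δ_0 z' = 0`), `δ_1 y = cr(z, z')`, `δ_2 y = cr(0, z') = 0`
(`δ_2 s_0 z = s_0 δ_1 z = 0`), `δ_i y = cr(0, 0) = 0` for `i ≥ 3`.  So `d y = cr(z, z')`.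
(For a Moore cycle all `act f z`, `f` not surjective, vanish: `δ_k s_i z` vanishes unless
`k = i, i + 1`, because `(sgm i).comp (dlt k)` is not surjective; it is the identity for `k = i, i+1`.)

`cr_vertex`: `x ∈ W_n` with vertex `0` equal to `0`, `a ∈ W_n` a Moore cycle.  Let
`θ_i : [n+1] → [n]`, `j ↦ 0` for `j ≤ i`, `j ↦ j - 1` for `j > i` (`i = 0, ..., n`) and
`y_i = cr(θ_i^* x, s_i a)`.  `δ_k y_i = 0` unless `k = i, i + 1` (then `δ_k s_i a = 0`, and
`cr(x, 0) = 0`), `δ_i y_i = cr(ρ_i^* x, a)`, `δ_(i+1) y_i = cr(ρ_(i+1)^* x, a)`, where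
`ρ_i : [n] → [n]`, `j ↦ 0` for `j < i`, `j ↦ j` for `j ≥ i`.  `ρ_0 = id`, `ρ_(n+1)` is constant `0`, so
`ρ_(n+1)^* x = 0`.  Telescoping: `d (∑ y_i) = cr(x, a) + cr(0, a) = cr(x, a)`.

`map_moore_B`: if the Moore cycle `z` is a boundary, `z = δ_0 w`, all other faces of `w` zero
(`moore_boundary`, `A005`); then `g z = δ_0 (g w)`, all other faces of `g w` are `g 0 = 0`; so
`g z = d (g w)`.
`map_moore_congr`: `g z' = g (z + (z + z'))` and `cr_moore` for `z`, `z + z'`, and `map_moore_B` for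
`z + z'`.
-/

namespace MM

/-- the cross effect -/
private def crA102 {W W' : SV} (g : Hom W.ss W'.ss) {n : ℕ} (x y : W.V n) : W'.V n :=
  (g.app n (x + y : W.V n) : W'.V n) + g.app n x + g.app n y

private theorem actA102 {W W' : SV} (g : Hom W.ss W'.ss) {m n : ℕ} (f : Mo m n) (x : W.V n) :
    W'.act f (g.app n x : W'.V n) = (g.app m (W.act f x) : W'.V m) := (g.nat f x).symm

private theorem cr_actA102 {W W' : SV} (g : Hom W.ss W'.ss) {m n : ℕ} (f : Mo m n)
    (x y : W.V n) : W'.act f (crA102 g x y) = crA102 g (W.act f x) (W.act f y) := by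
  unfold crA102
  rw [map_add, map_add, actA102, actA102, actA102, map_add]

private theorem cr_zero_rightA102 {W W' : SV} (g : Hom W.ss W'.ss) (g0 : ∀ n, g.app n 0 = 0)
    {n : ℕ} (x : W.V n) : crA102 g x (0 : W.V n) = 0 := by
  unfold crA102
  have h : (g.app n (0 : W.V n) : W'.V n) = 0 := g0 n
  rw [add_zero, h, add_zero]
  exact two_eq_zero' _

private theorem cr_zero_leftA102 {W W' : SV} (g : Hom W.ss W'.ss) (g0 : ∀ n, g.app n 0 = 0)
    {n : ℕ} (x : W.V n) : crA102 g (0 : W.V n) x = 0 := by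
  unfold crA102
  have h : (g.app n (0 : W.V n) : W'.V n) = 0 := g0 n
  rw [zero_add, h, add_zero]
  exact two_eq_zero' _

private theorem sgm_valA102 {n : ℕ} (i : Fin (n + 1)) (j : Fin (n + 2)) :
    ((sgm i) j : ℕ) = if (j : ℕ) ≤ i then (j : ℕ) else (j : ℕ) - 1 := by
  show ((Fin.predAbove i j : Fin (n + 1)) : ℕ) = _
  by_cases h : i.castSucc < j
  · rw [Fin.predAbove_of_castSucc_lt _ _ h]
    have h' : (i : ℕ) < j := h
    rw [if_neg (by omega)]
    rfl
  · rw [Fin.predAbove_of_le_castSucc _ _ (not_lt.1 h)]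
    have h' : (j : ℕ) ≤ i := not_lt.1 h
    rw [if_pos h']
    rfl

private theorem dlt_valA102 {n : ℕ} (i : Fin (n + 2)) (j : Fin (n + 1)) :
    ((dlt i) j : ℕ) = if (j : ℕ) < i then (j : ℕ) else (j : ℕ) + 1 := by
  show ((Fin.succAbove i j : Fin (n + 2)) : ℕ) = _
  by_cases h : j.castSucc < i
  · rw [Fin.succAbove_of_castSucc_lt _ _ h]
    have h' : (j : ℕ) < i := h
    rw [if_pos h']
    rfl
  · rw [Fin.succAbove_of_le_castSucc _ _ (not_lt.1 h)]
    have h' : (i : ℕ) ≤ j := not_lt.1 h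
    rw [if_neg (by omega)]
    rfl

/-- `δ_k s_i` is not surjective unless `k = i, i + 1` -/
private theorem nsA102 {n : ℕ} (i : Fin (n + 1)) (k : Fin (n + 2)) (h1 : (k : ℕ) ≠ i)
    (h2 : (k : ℕ) ≠ i + 1) : ¬ Function.Surjective ((sgm i).comp (dlt k)) := by
  intro hs
  by_cases hk : (k : ℕ) < i
  · obtain ⟨j, hj⟩ := hs ⟨k, by omega⟩
    have h3 : ((sgm i) ((dlt k) j) : ℕ) = k := congrArg Fin.val hj
    rw [sgm_valA102, dlt_valA102] at h3
    split_ifs at h3 <;> omega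
  · have hkn := k.2
    obtain ⟨j, hj⟩ := hs ⟨(k : ℕ) - 1, by omega⟩
    have h3 : ((sgm i) ((dlt k) j) : ℕ) = (k : ℕ) - 1 := congrArg Fin.val hj
    rw [sgm_valA102, dlt_valA102] at h3
    split_ifs at h3 <;> omega

private theorem face_neA102 {W : SV} {n : ℕ} {z : W.V n} (hz : W.Moore z) (i : Fin (n + 1))
    (k : Fin (n + 2)) (h1 : (k : ℕ) ≠ i) (h2 : (k : ℕ) ≠ i + 1) :
    W.act (dlt k) (W.act (sgm i) z) = 0 := by
  rw [W.act_comp]
  exact hz _ _ (nsA102 i k h1 h2)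

private theorem face_eqA102 {W : SV} {n : ℕ} (z : W.V n) (i : Fin (n + 1))
    (k : Fin (n + 2)) (h : (k : ℕ) = i ∨ (k : ℕ) = i + 1) :
    W.act (dlt k) (W.act (sgm i) z) = z := by
  rw [W.act_comp]
  rcases h with h | h
  · have hk : k = i.castSucc := Fin.ext h
    rw [hk, sgm_comp_dlt_castSucc, W.act_id]
  · have hk : k = i.succ := Fin.ext (by rw [h]; rfl)
    rw [hk, sgm_comp_dlt_succ, W.act_id]

private theorem d_applyA102 (W : SV) (n : ℕ) (x : W.V (n + 1)) :
    W.d n x = ∑ k : Fin (n + 2), W.act (dlt k) x := by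
  rw [SV.d, LinearMap.sum_apply]

/-- `j ↦ 0` for `j ≤ i`, `j ↦ j - 1` for `j > i` -/
private def thA102 (n i : ℕ) : Mo (n + 1) n :=
  ⟨fun j => ⟨if j.1 ≤ i then 0 else j.1 - 1, by have := j.2; split <;> omega⟩, by
    intro a b h
    have h' : a.1 ≤ b.1 := h
    show (if a.1 ≤ i then 0 else a.1 - 1) ≤ (if b.1 ≤ i then 0 else b.1 - 1)
    split <;> split <;> omega⟩

/-- `j ↦ 0` for `j < i`, `j ↦ j` for `j ≥ i` -/
private def rhA102 (n i : ℕ) : Mo n n :=
  ⟨fun j => ⟨if j.1 < i then 0 else j.1, by have := j.2; split <;> omega⟩, by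
    intro a b h
    have h' : a.1 ≤ b.1 := h
    show (if a.1 < i then 0 else a.1) ≤ (if b.1 < i then 0 else b.1)
    split <;> split <;> omega⟩

private theorem th_dltA102 (n i : ℕ) (k : Fin (n + 2)) (h : (k : ℕ) = i ∨ (k : ℕ) = i + 1) :
    (thA102 n i).comp (dlt k) = rhA102 n k := by
  apply OrderHom.ext
  funext j
  apply Fin.ext
  show (if ((dlt k) j : ℕ) ≤ i then 0 else ((dlt k) j : ℕ) - 1) = if j.1 < (k : ℕ) then 0 else j.1
  rw [dlt_valA102]
  split_ifs <;> omega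

private theorem telA102 {M : Type*} [AddCommGroup M] [Module (ZMod 2) M] (c : ℕ → M) (m : ℕ) :
    ∑ i ∈ Finset.range m, (c i + c (i + 1)) = c 0 + c m := by
  induction m with
  | zero =>
    rw [Finset.sum_range_zero]
    exact (two_eq_zero' _).symm
  | succ m ih =>
    rw [Finset.sum_range_succ, ih]
    have h := two_eq_zero' (c m)
    calc c 0 + c m + (c m + c (m + 1)) = c 0 + (c m + c m) + c (m + 1) := by abel
      _ = c 0 + c (m + 1) := by rw [h, add_zero]

theorem map_moore {W W' : SV} (g : Hom W.ss W'.ss) (g0 : ∀ n, g.app n 0 = 0) {t : ℕ}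
    {z : W.V t} (hz : W.Moore z) : W'.Moore (g.app t z : W'.V t) := by
  intro m f hf
  rw [actA102, hz m f hf]
  exact g0 m

theorem cr_moore {W W' : SV} (g : Hom W.ss W'.ss) (g0 : ∀ n, g.app n 0 = 0) {t : ℕ} (ht : 1 ≤ t)
    {z z' : W.V t} (hz : W.Moore z) (hz' : W.Moore z') :
    (g.app t (z + z' : W.V t) + g.app t z + g.app t z' : W'.V t) ∈ W'.B t := by
  obtain ⟨n, rfl⟩ : ∃ n, t = n + 1 := ⟨t - 1, by omega⟩
  refine ⟨crA102 g (W.act (sgm (0 : Fin (n + 1 + 1))) z)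
    (W.act (sgm (1 : Fin (n + 1 + 1))) z'), ?_⟩
  have h1 : ((1 : Fin (n + 1 + 1)) : ℕ) = 1 := rfl
  rw [d_applyA102, Finset.sum_eq_single (⟨1, by omega⟩ : Fin (n + 1 + 2))]
  · rw [cr_actA102, face_eqA102 z _ _ (Or.inr rfl), face_eqA102 z' _ _ (Or.inl rfl)]
    rfl
  · intro k _ hk
    have hk1 : (k : ℕ) ≠ 1 := fun h => hk (Fin.ext h)
    rw [cr_actA102]
    by_cases hk0 : (k : ℕ) = 0
    · rw [face_neA102 hz' (1 : Fin (n + 1 + 1)) k (by rw [h1]; omega) (by rw [h1]; omega)]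
      exact cr_zero_rightA102 g g0 _
    · rw [face_neA102 hz (0 : Fin (n + 1 + 1)) k (fun h => hk0 h) (fun h => hk1 h)]
      exact cr_zero_leftA102 g g0 _
  · intro h
    exact absurd (Finset.mem_univ _) h

theorem cr_vertex {W W' : SV} (g : Hom W.ss W'.ss) (g0 : ∀ n, g.app n 0 = 0) {n : ℕ}
    {x a : W.V n} (hx : W.act (cst 0 : Mo 0 n) x = 0) (ha : W.Moore a) :
    (g.app n (x + a : W.V n) + g.app n x + g.app n a : W'.V n) ∈ W'.B n := by
  have hx0 : ∀ {l : ℕ}, W.act (cst 0 : Mo l n) x = 0 := by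
    intro l
    have h := W.act_comp (cst 0 : Mo l 0) (cst 0 : Mo 0 n) x
    rw [hx, map_zero] at h
    exact h.symm
  refine ⟨∑ i : Fin (n + 1), crA102 g (W.act (thA102 n i) x) (W.act (sgm i) a), ?_⟩
  rw [map_sum]
  have key : ∀ i : Fin (n + 1), W'.d n (crA102 g (W.act (thA102 n i) x) (W.act (sgm i) a)) =
      crA102 g (W.act (rhA102 n i) x) a + crA102 g (W.act (rhA102 n (i + 1)) x) a := by
    intro i
    rw [d_applyA102]
    have hne : i.castSucc ≠ i.succ := by
      intro h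
      have := congrArg Fin.val h
      simp at this
    rw [← Finset.sum_subset (Finset.subset_univ {i.castSucc, i.succ}), Finset.sum_pair hne]
    · rw [cr_actA102, cr_actA102, face_eqA102 a i _ (Or.inl rfl), face_eqA102 a i _ (Or.inr rfl),
        W.act_comp, W.act_comp, th_dltA102 n i _ (Or.inl rfl), th_dltA102 n i _ (Or.inr rfl)]
      rfl
    · intro k _ hk
      rw [Finset.mem_insert, Finset.mem_singleton, not_or] at hk
      rw [cr_actA102, face_neA102 ha i k (fun h => hk.1 (Fin.ext h)) (fun h => hk.2 (Fin.ext h))]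
      exact cr_zero_rightA102 g g0 _
  rw [Finset.sum_congr rfl fun i _ => key i]
  rw [← Finset.sum_range (fun i => crA102 g (W.act (rhA102 n i) x) a +
    crA102 g (W.act (rhA102 n (i + 1)) x) a),
    telA102 (fun i => crA102 g (W.act (rhA102 n i) x) a)]
  have e0 : rhA102 n 0 = OrderHom.id := by
    apply OrderHom.ext
    funext j
    apply Fin.ext
    show (if j.1 < 0 then 0 else j.1) = j.1
    rw [if_neg (by omega)]
  have e1 : rhA102 n (n + 1) = cst 0 := by
    apply OrderHom.ext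
    funext j
    apply Fin.ext
    show (if j.1 < n + 1 then 0 else j.1) = ((0 : Fin (n + 1)) : ℕ)
    rw [if_pos j.2]
    rfl
  show crA102 g (W.act (rhA102 n 0) x) a + crA102 g (W.act (rhA102 n (n + 1)) x) a = _
  rw [e0, e1, hx0, W.act_id, cr_zero_leftA102 g g0, add_zero]
  rfl

theorem map_moore_B {W W' : SV} (g : Hom W.ss W'.ss) (g0 : ∀ n, g.app n 0 = 0) {t : ℕ}
    {z : W.V t} (hz : W.Moore z) (hb : z ∈ W.B t) : (g.app t z : W'.V t) ∈ W'.B t := by
  obtain ⟨w, hw⟩ := hb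
  obtain ⟨w', h0, h1⟩ := moore_boundary W z hz w hw
  refine ⟨(g.app (t + 1) w' : W'.V (t + 1)), ?_⟩
  rw [d_applyA102, Fin.sum_univ_succ, actA102, h0, Finset.sum_eq_zero, add_zero]
  intro i _
  rw [actA102, h1 i]
  exact g0 t

theorem map_moore_congr {W W' : SV} (g : Hom W.ss W'.ss) (g0 : ∀ n, g.app n 0 = 0) {t : ℕ}
    (ht : 1 ≤ t) {z z' : W.V t} (hz : W.Moore z) (hz' : W.Moore z') (hb : z + z' ∈ W.B t) :
    (g.app t z + g.app t z' : W'.V t) ∈ W'.B t := by
  have hs : W.Moore (z + z') := by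
    intro m f hf
    rw [map_add, hz m f hf, hz' m f hf, add_zero]
  have h1 := cr_moore g g0 ht hz hs
  have h2 := map_moore_B g g0 hs hb
  have h3 : z + (z + z') = z' := by
    rw [← add_assoc, two_eq_zero', zero_add]
  rw [h3] at h1
  have h4 := (W'.B t).add_mem h1 h2
  have h5 : (g.app t z' : W'.V t) + g.app t z + g.app t (z + z' : W.V t) +
      g.app t (z + z' : W.V t) = (g.app t z : W'.V t) + g.app t z' := by
    have h6 := two_eq_zero' (g.app t (z + z' : W.V t) : W'.V t)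
    calc (g.app t z' : W'.V t) + g.app t z + g.app t (z + z' : W.V t) +
        g.app t (z + z' : W.V t) = (g.app t z : W'.V t) + g.app t z' +
          ((g.app t (z + z' : W.V t) : W'.V t) + g.app t (z + z' : W.V t)) := by abel
      _ = (g.app t z : W'.V t) + g.app t z' := by rw [h6, add_zero]
  rw [← h5]
  exact h4

/-- linear simplicial maps preserve boundaries -/
theorem map_B {W W' : SV} (g : SVHom W W') {t : ℕ} {z : W.V t} (hb : z ∈ W.B t) :
    g.app t z ∈ W'.B t := by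
  obtain ⟨w, rfl⟩ := hb
  refine ⟨g.app (t + 1) w, ?_⟩
  rw [d_applyA102, d_applyA102, map_sum]
  exact Finset.sum_congr rfl fun i _ => (g.nat (dlt i) w).symm

/-- additive simplicial maps preserve boundaries -/
theorem map_B_of_add {W W' : SV} (g : Hom W.ss W'.ss)
    (hg : ∀ n (x y : W.V n), g.app n (x + y : W.V n) = (g.app n x + g.app n y : W'.V n)) {t : ℕ}
    {z : W.V t} (hb : z ∈ W.B t) : (g.app t z : W'.V t) ∈ W'.B t := by
  obtain ⟨w, rfl⟩ := hb
  have h0 : (g.app t (0 : W.V t) : W'.V t) = 0 := by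
    have h := hg t 0 0
    rw [add_zero] at h
    have h2 := two_eq_zero' (g.app t (0 : W.V t) : W'.V t)
    exact h.trans h2
  let G : W.V t →+ W'.V t :=
    { toFun := fun x => g.app t x
      map_zero' := h0
      map_add' := fun x y => hg t x y }
  refine ⟨(g.app (t + 1) w : W'.V (t + 1)), ?_⟩
  rw [d_applyA102, d_applyA102]
  show _ = G (∑ k : Fin (t + 2), W.act (dlt k) w)
  rw [map_sum]
  exact Finset.sum_congr rfl fun i _ => actA102 g (dlt i) w

end MM
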