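import Pool.Agent.Lib_MP_33f7bb_d.A002

/-!
# A1-03: bump maps

`τ` a nondegenerate `n`-simplex of the subcomplex `L`, all nondegenerate simplices of `L` have
dimension `≤ n`, `a ∈ W_n` a Moore cycle.  The bump map `e`: `e (act s τ) = act s a` for `s`
surjective, `e x = 0` for all other `x`.
Well defined: `ez_unique`.  Natural on `L`: let `x ∈ L_m`, `g : [m'] → [m]`.  By `ez_exists` for `x`:
`x = act s y`, `s : [m] → [k]` surjective, `y` nondegenerate, `k ≤ n`.  `act g x = act (s.comp g) y`;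
factor `s.comp g = i.comp s'` (`exists_factor`).
If `i` is not surjective then `act i y` is the pull back of a simplex of dimension `< k ≤ n`, so the
nondegenerate simplex belonging to `act g x` has dimension `< n` and is not `τ`: `e (act g x) = 0`
(`ez_dim`); and `act g (e x)` is `0` if `y ≠ τ`, and `act (s.comp g) a = 0` if `y = τ`, since `s.comp g` is
not surjective and `a` is a Moore cycle.
If `s.comp g` is surjective, both sides are `act (s.comp g) a` (if `y = τ`) or `0`.
-/

namespace MM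

private theorem A103_inj_le {m n : ℕ} (f : Mo m n) (hf : Function.Injective f) : m ≤ n := by
  have := Fintype.card_le_of_injective _ hf
  simpa using this

private theorem A103_surj_inj {m : ℕ} (f : Mo m m) (hf : Function.Injective f) :
    Function.Surjective f := Finite.surjective_of_injective hf

private theorem A103_eq_id {m : ℕ} (f : Mo m m) (hf : Function.Surjective f) :
    f = OrderHom.id := by
  have hi : Function.Injective f := Finite.injective_iff_surjective.2 hf
  have hs : StrictMono f := f.monotone.strictMono_of_injective hi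
  let e : Fin (m + 1) ≃o Fin (m + 1) := StrictMono.orderIsoOfSurjective f hs hf
  have he : e = OrderIso.refl _ := Subsingleton.elim _ _
  refine OrderHom.ext _ _ (funext fun x => ?_)
  have h1 : e x = x := by rw [he]; rfl
  exact h1

/-- a nondegenerate simplex is the pull back of a simplex of the same dimension only along the
identity -/
private theorem A103_id {P : SS} {n : ℕ} {τ : P.S n} (hτ : NonDeg τ) (f : Mo n n) (y : P.S n)
    (h : τ = P.act f y) : f = OrderHom.id := by
  apply A103_eq_id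
  obtain ⟨j, r, i, hr, hi, he⟩ := exists_factor f
  have h2 : τ = P.act r (P.act i y) := by rw [P.act_comp, ← he]; exact h
  have h3 : j = n := le_antisymm (A103_inj_le i hi) (hτ _ _ _ h2)
  subst h3
  rw [he]
  exact (A103_surj_inj i hi).comp hr

open scoped Classical in
/-- the bump map -/
private noncomputable def A103_e {P : SS} {n : ℕ} (τ : P.S n) {W : SV} (a : W.V n) : Fn P W.ss :=
  fun m x => if h : ∃ s : Mo m n, Function.Surjective s ∧ x = P.act s τ then
    W.act (Classical.choose h) a else (0 : W.V m)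

private theorem A103_e_act {P : SS} {n : ℕ} {τ : P.S n} (hτ : NonDeg τ) {W : SV} (a : W.V n)
    {m : ℕ} (s : Mo m n) (hs : Function.Surjective s) :
    A103_e τ a m (P.act s τ) = W.act s a := by
  have h : ∃ r : Mo m n, Function.Surjective r ∧ P.act s τ = P.act r τ := ⟨s, hs, rfl⟩
  have h1 := Classical.choose_spec h
  have h2 : Classical.choose h = s := (ez_unique _ _ _ _ h1.1 hs hτ hτ h1.2.symm).1
  unfold A103_e
  rw [dif_pos h, h2]

private theorem A103_e_zero {P : SS} {n : ℕ} {τ : P.S n} {W : SV} (a : W.V n)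
    {m : ℕ} (x : P.S m) (hx : ¬ ∃ s : Mo m n, Function.Surjective s ∧ x = P.act s τ) :
    A103_e τ a m x = (0 : W.V m) := by
  unfold A103_e
  rw [dif_neg hx]

/-- the sum of the two coordinates of a simplex of `Δ^s × Δ^k` -/
private def A103_sum {s k n : ℕ} (x : Mo n s × Mo n k) : Mo n (s + k) :=
  ⟨fun i => ⟨(x.1 i : ℕ) + (x.2 i : ℕ), by
    have h1 := (x.1 i).isLt
    have h2 := (x.2 i).isLt
    omega⟩, fun i j hij => by
    have h1 : (x.1 i : ℕ) ≤ (x.1 j : ℕ) := x.1.monotone hij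
    have h2 : (x.2 i : ℕ) ≤ (x.2 j : ℕ) := x.2.monotone hij
    show (x.1 i : ℕ) + (x.2 i : ℕ) ≤ (x.1 j : ℕ) + (x.2 j : ℕ)
    omega⟩

private theorem A103_sum_val {s k n : ℕ} (x : Mo n s × Mo n k) (i : Fin (n + 1)) :
    (A103_sum x i : ℕ) = (x.1 i : ℕ) + (x.2 i : ℕ) := rfl

private theorem A103_sum_eq {s k n : ℕ} (x : Mo n s × Mo n k) {i j : Fin (n + 1)}
    (h : A103_sum x i = A103_sum x j) : x.1 i = x.1 j ∧ x.2 i = x.2 j := by
  have h0 : (x.1 i : ℕ) + (x.2 i : ℕ) = (x.1 j : ℕ) + (x.2 j : ℕ) := by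
    rw [← A103_sum_val, ← A103_sum_val, h]
  rcases le_total i j with hij | hij
  · have h1 : (x.1 i : ℕ) ≤ (x.1 j : ℕ) := x.1.monotone hij
    have h2 : (x.2 i : ℕ) ≤ (x.2 j : ℕ) := x.2.monotone hij
    exact ⟨Fin.ext (by omega), Fin.ext (by omega)⟩
  · have h1 : (x.1 j : ℕ) ≤ (x.1 i : ℕ) := x.1.monotone hij
    have h2 : (x.2 j : ℕ) ≤ (x.2 i : ℕ) := x.2.monotone hij
    exact ⟨Fin.ext (by omega), Fin.ext (by omega)⟩

/-- nondegenerate simplices have an injective sum -/
private theorem A103_inj {s k n : ℕ} (x : Mo n s × Mo n k)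
    (hx : NonDeg (P := (Del s).prod (Del k)) x) : Function.Injective (A103_sum x) := by
  obtain ⟨j, r, i, hr, hi, he⟩ := exists_factor (A103_sum x)
  obtain ⟨t, ht⟩ := exists_section r hr
  have key : ∀ a : Fin (n + 1), x.1 (t (r a)) = x.1 a ∧ x.2 (t (r a)) = x.2 a := by
    intro a
    apply A103_sum_eq
    have h1 : r (t (r a)) = r a := by
      have h2 := congrArg (fun f : Mo j j => f (r a)) ht
      exact h2
    rw [he]
    show i (r (t (r a))) = i (r a)
    rw [h1]
  have h3 : x = ((Del s).prod (Del k)).act r ((x.1.comp t, x.2.comp t) : Mo j s × Mo j k) := by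
    refine Prod.ext ?_ ?_
    · exact OrderHom.ext _ _ (funext fun a => (key a).1.symm)
    · exact OrderHom.ext _ _ (funext fun a => (key a).2.symm)
  have h4 : n ≤ j := hx _ _ _ h3
  have h5 : j ≤ n := by
    have := Fintype.card_le_of_surjective _ hr
    simpa using this
  have h6 : j = n := le_antisymm h5 h4
  subst h6
  have h7 : Function.Injective r := Finite.injective_iff_surjective.2 hr
  rw [he]
  exact hi.comp h7

/-- both coordinates of a maximal chain are surjective -/
private theorem A103_surj {s k n : ℕ} (h : s + k = n) (x : Mo n s × Mo n k)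
    (hx : ∀ i, ((x.1 i : ℕ) + (x.2 i : ℕ) = (i : ℕ))) :
    Function.Surjective x.1 ∧ Function.Surjective x.2 := by
  have step : ∀ i : ℕ, ∀ hi : i < n + 1,
      (∀ v : ℕ, v ≤ (x.1 ⟨i, hi⟩ : ℕ) → ∃ j, (x.1 j : ℕ) = v) ∧
      (∀ v : ℕ, v ≤ (x.2 ⟨i, hi⟩ : ℕ) → ∃ j, (x.2 j : ℕ) = v) := by
    intro i
    induction i with
    | zero =>
      intro hi
      have h0 : (x.1 ⟨0, hi⟩ : ℕ) + (x.2 ⟨0, hi⟩ : ℕ) = 0 := hx ⟨0, hi⟩
      exact ⟨fun v hv => ⟨⟨0, hi⟩, by omega⟩, fun v hv => ⟨⟨0, hi⟩, by omega⟩⟩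
    | succ i ih =>
      intro hi
      have hi' : i < n + 1 := by omega
      obtain ⟨ih1, ih2⟩ := ih hi'
      have h0 : (x.1 ⟨i, hi'⟩ : ℕ) + (x.2 ⟨i, hi'⟩ : ℕ) = i := hx ⟨i, hi'⟩
      have h1 : (x.1 ⟨i + 1, hi⟩ : ℕ) + (x.2 ⟨i + 1, hi⟩ : ℕ) = i + 1 := hx ⟨i + 1, hi⟩
      have hle : (⟨i, hi'⟩ : Fin (n + 1)) ≤ ⟨i + 1, hi⟩ := Fin.mk_le_mk.2 (by omega)
      have h2 : (x.1 ⟨i, hi'⟩ : ℕ) ≤ (x.1 ⟨i + 1, hi⟩ : ℕ) := x.1.monotone hle
      have h3 : (x.2 ⟨i, hi'⟩ : ℕ) ≤ (x.2 ⟨i + 1, hi⟩ : ℕ) := x.2.monotone hle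
      constructor
      · intro v hv
        by_cases h4 : v ≤ (x.1 ⟨i, hi'⟩ : ℕ)
        · exact ih1 v h4
        · exact ⟨⟨i + 1, hi⟩, by omega⟩
      · intro v hv
        by_cases h4 : v ≤ (x.2 ⟨i, hi'⟩ : ℕ)
        · exact ih2 v h4
        · exact ⟨⟨i + 1, hi⟩, by omega⟩
  obtain ⟨s1, s2⟩ := step n (by omega)
  have hn : (x.1 ⟨n, by omega⟩ : ℕ) + (x.2 ⟨n, by omega⟩ : ℕ) = n := hx ⟨n, by omega⟩
  have b1 := (x.1 ⟨n, by omega⟩).isLt
  have b2 := (x.2 ⟨n, by omega⟩).isLt
  constructor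
  · intro v
    obtain ⟨j, hj⟩ := s1 v.1 (by have := v.isLt; omega)
    exact ⟨j, Fin.ext hj⟩
  · intro v
    obtain ⟨j, hj⟩ := s2 v.1 (by have := v.isLt; omega)
    exact ⟨j, Fin.ext hj⟩

theorem exists_bump {P : SS} (L : Sub P) {n : ℕ} (τ : P.S n) (hτ : NonDeg τ)
    (hdim : ∀ m, ∀ x ∈ L.car m, NonDeg x → m ≤ n) {W : SV} (a : W.V n) (ha : W.Moore a) :
    ∃ e : Fn P W.ss, NatOn L e ∧ e n τ = a ∧
      (∀ x ∈ L.car n, x ≠ τ → e n x = 0) ∧
      (∀ m, m < n → ∀ x : P.S m, e m x = 0) ∧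
      (∀ C : Sub P, τ ∉ C.car n → ∀ m, ∀ x ∈ C.car m, e m x = 0) ∧
      ∀ S : SubV W, a ∈ S.car n → ∀ m x, e m x ∈ S.car m := by
  refine ⟨A103_e τ a, ?_, ?_, ?_, ?_, ?_, ?_⟩
  · intro m' m g x hx
    by_cases h : ∃ s : Mo m n, Function.Surjective s ∧ x = P.act s τ
    · obtain ⟨s, hs, rfl⟩ := h
      rw [A103_e_act hτ a s hs, P.act_comp]
      show _ = W.act g (W.act s a)
      rw [W.act_comp]
      by_cases hsg : Function.Surjective (s.comp g)
      · exact A103_e_act hτ a _ hsg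
      · rw [ha _ _ hsg]
        apply A103_e_zero
        rintro ⟨r, hr, hre⟩
        obtain ⟨t, ht⟩ := exists_section r hr
        have h1 : τ = P.act ((s.comp g).comp t) τ := by
          rw [← P.act_comp, hre, P.act_comp, ht, P.act_id]
        have h2 := A103_id hτ _ _ h1
        apply hsg
        intro v
        refine ⟨t v, ?_⟩
        exact congrArg (fun f : Mo n n => f v) h2
    · have h0 : A103_e τ a m x = (0 : W.V m) := A103_e_zero a x h
      rw [h0]
      show _ = W.act g (0 : W.V m)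
      rw [map_zero]
      apply A103_e_zero
      rintro ⟨r, hr, hre⟩
      obtain ⟨k, s, y, hs, hy, rfl⟩ := ez_exists x
      have hyL : y ∈ L.car k := (act_mem_iff L s hs y).1 hx
      have hk : k ≤ n := hdim k y hyL hy
      obtain ⟨t, ht⟩ := exists_section r hr
      have h1 : τ = P.act ((s.comp g).comp t) y := by
        rw [← P.act_comp, ← P.act_comp, hre, P.act_comp, ht, P.act_id]
      have hn : n ≤ k := hτ _ _ _ h1
      have hkn : k = n := le_antisymm hk hn
      subst hkn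
      have h2 := A103_id hτ _ _ h1
      rw [h2, P.act_id] at h1
      exact h ⟨s, hs, by rw [h1]⟩
  · have h1 := A103_e_act hτ a (OrderHom.id : Mo n n) Function.surjective_id
    rw [P.act_id, W.act_id] at h1
    exact h1
  · intro x _ hne
    apply A103_e_zero
    rintro ⟨s, hs, rfl⟩
    rw [A103_eq_id s hs, P.act_id] at hne
    exact hne rfl
  · intro m hm x
    apply A103_e_zero
    rintro ⟨s, hs, -⟩
    have h1 := Fintype.card_le_of_surjective _ hs
    simp only [Fintype.card_fin] at h1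
    omega
  · intro C hC m x hx
    apply A103_e_zero
    rintro ⟨s, hs, rfl⟩
    exact hC ((act_mem_iff C s hs τ).1 hx)
  · intro S hS m x
    by_cases h : ∃ s : Mo m n, Function.Surjective s ∧ x = P.act s τ
    · obtain ⟨s, hs, rfl⟩ := h
      rw [A103_e_act hτ a s hs]
      exact S.closed s hS
    · rw [A103_e_zero a x h]
      exact (S.car m).zero_mem

/-- the simplices of `Δ^s × Δ^k`: nondegenerate iff jointly injective -/
theorem nonDeg_prod_iff {s k n : ℕ} (x : ((Del s).prod (Del k)).S n) :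
    NonDeg (P := (Del s).prod (Del k)) x ↔
      Function.Injective fun i : Fin (n + 1) => (x.1 i, x.2 i) := by
  constructor
  · intro hx i j hij
    apply A103_inj x hx
    have h1 : x.1 i = x.1 j := congrArg Prod.fst hij
    have h2 : x.2 i = x.2 j := congrArg Prod.snd hij
    apply Fin.ext
    rw [A103_sum_val, A103_sum_val, h1, h2]
  · intro hinj m f y hy
    apply A103_inj_le f
    intro i j hij
    apply hinj
    have h1 : ∀ t, x.1 t = y.1 (f t) := fun t =>
      congrArg (fun z : Mo n s × Mo n k => z.1 t) hy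
    have h2 : ∀ t, x.2 t = y.2 (f t) := fun t =>
      congrArg (fun z : Mo n s × Mo n k => z.2 t) hy
    show (x.1 i, x.2 i) = (x.1 j, x.2 j)
    rw [h1, h1, h2, h2, hij]

/-- dimension bound for `Δ^s × Δ^k` -/
theorem nonDeg_prod_le {s k n : ℕ} (x : ((Del s).prod (Del k)).S n)
    (hx : NonDeg (P := (Del s).prod (Del k)) x) : n ≤ s + k := by
  exact A103_inj_le _ (A103_inj x hx)

/-- the nondegenerate simplices of dimension `s + k` of `Δ^s × Δ^k` are the maximal chains -/
theorem nonDeg_prod_top {s k n : ℕ} (h : s + k = n) (x : ((Del s).prod (Del k)).S n) :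
    NonDeg (P := (Del s).prod (Del k)) x ↔ ∀ i, ((x.1 i : ℕ) + (x.2 i : ℕ) = (i : ℕ)) := by
  constructor
  · intro hx i
    subst h
    have h1 := A103_eq_id _ (A103_surj_inj _ (A103_inj x hx))
    have h2 : A103_sum x i = i := by rw [h1]; rfl
    rw [← A103_sum_val, h2]
  · intro hi
    rw [nonDeg_prod_iff]
    intro i j hij
    have h1 : x.1 i = x.1 j := congrArg Prod.fst hij
    have h2 : x.2 i = x.2 j := congrArg Prod.snd hij
    apply Fin.ext
    rw [← hi i, ← hi j, h1, h2]

/-- the nondegenerate simplices of the boundary of `Δ^s × Δ^k` have dimension `< s + k` -/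
theorem nonDeg_box_lt {s k m : ℕ} (x : ((Del s).prod (Del k)).S m)
    (hx : x ∈ (Sub.box (bd s) ⊤ (bd k) ⊤).car m)
    (hx' : NonDeg (P := (Del s).prod (Del k)) x) : m < s + k := by
  refine lt_of_le_of_ne (nonDeg_prod_le x hx') ?_
  intro hm
  obtain ⟨h1, h2⟩ := A103_surj hm.symm x ((nonDeg_prod_top hm.symm x).1 hx')
  rcases hx.2 with h3 | h3
  · exact h3 h1
  · exact h3 h2

/-- the maximal chains are not in the boundary -/
theorem maxChain_notMem {s k n : ℕ} (h : s + k = n) (x : ((Del s).prod (Del k)).S n)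
    (hx : ∀ i, ((x.1 i : ℕ) + (x.2 i : ℕ) = (i : ℕ))) :
    x ∉ (Sub.box (bd s) ⊤ (bd k) ⊤).car n := by
  obtain ⟨h1, h2⟩ := A103_surj h x hx
  intro hb
  rcases hb.2 with h3 | h3
  · exact h3 h1
  · exact h3 h2

end MM
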