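import Pool.Agent.Lib_MP_33f7bb_d.A1Defs

/-!
# A1-04: maps to Tot are compatible families

`exists_toTot`: given `F` with `T.Fam A F` put, for `x ∈ A_m`,
`(g m x) s (θ, τ) = F s (θ, act τ x)` (for `θ : [n] → [s]`, `τ : [n] → [m]`), and `g m x = T.tot0 m` for
`x ∉ A`.  Naturality in `(θ, τ)` and the two conditions of `IsTot` follow from `Fam`; naturality of `g`
on `A`: `act τ (act g x) = act (g.comp τ) x`.
`fam_ofTot`: for `g` natural on `A`, `F s n (θ, x) = (g n x) s (θ, id)`.  Naturality: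
`(g m (act h x)) s (θ.comp h, id) = (act h (g n x)) s (θ.comp h, id) = (g n x) s (θ.comp h, h) =
act h ((g n x) s (θ, id))`.
`tot_ext`: two functions natural on `A` with the same families agree on `A`:
`(g m x) s (θ, τ) = (act τ (g m x)) s (θ, id) = (g n (act τ x)) s (θ, id)`.
`limit`: `G s := F (s+1) s`; for `n ≥ s + 1` one has `F n s = G s` (induction).
-/

namespace MM

namespace Tower

variable (T : Tower) {P : SS}

/-- the simplex of `Tot` given by a family -/
private def A104_pt (A : Sub P) (F : ∀ s, Fn ((Del s).prod P) (T.W s).ss) (hF : T.Fam A F)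
    (m : ℕ) (x : P.S m) (hx : x ∈ A.car m) : T.Tot.S m :=
  ⟨fun s => ⟨fun n p => F s n (p.1, P.act p.2 x), by
      intro k n h p
      show F s k (p.1.comp h, P.act (p.2.comp h) x) = (T.W s).act h (F s n (p.1, P.act p.2 x))
      rw [← P.act_comp]
      exact hF.nat s h (p.1, P.act p.2 x) ⟨trivial, A.closed p.2 hx⟩⟩,
    ⟨fun s i n θ τ hi => hF.d s i n θ (P.act τ x) (A.closed τ hx) hi,
      fun s j n θ τ hj => hF.σ s j n θ (P.act τ x) (A.closed τ hx) hj⟩⟩

private theorem A104_ext {m : ℕ} (f f' : T.Tot.S m)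
    (h : ∀ s n (θ : Mo n s) (τ : Mo n m), (f.1 s).app n (θ, τ) = (f'.1 s).app n (θ, τ)) :
    f = f' := by
  apply Subtype.ext
  funext s
  apply Hom.ext
  funext n p
  exact h s n p.1 p.2

theorem exists_toTot (A : Sub P) (F : ∀ s, Fn ((Del s).prod P) (T.W s).ss) (hF : T.Fam A F) :
    ∃ g : Fn P T.Tot, NatOn A g ∧ ∀ m, ∀ x ∈ A.car m, ∀ s n (θ : Mo n s) (τ : Mo n m),
      ((g m x).1 s).app n (θ, τ) = F s n (θ, P.act τ x) := by
  classical
  refine ⟨fun m x => if hx : x ∈ A.car m then A104_pt T A F hF m x hx else T.tot0 m, ?_, ?_⟩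
  · intro m n h x hx
    have hx' : P.act h x ∈ A.car m := A.closed h hx
    show (if hx : P.act h x ∈ A.car m then A104_pt T A F hF m _ hx else T.tot0 m) =
      T.Tot.act h (if hx : x ∈ A.car n then A104_pt T A F hF n x hx else T.tot0 n)
    rw [dif_pos hx', dif_pos hx]
    apply A104_ext
    intro s k θ τ
    show F s k (θ, P.act τ (P.act h x)) = F s k (θ, P.act (h.comp τ) x)
    rw [P.act_comp]
  · intro m x hx s n θ τ
    show ((if hx : x ∈ A.car m then A104_pt T A F hF m x hx else T.tot0 m).1 s).app n (θ, τ) = _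
    rw [dif_pos hx]
    rfl

theorem fam_ofTot (A : Sub P) (g : Fn P T.Tot) (hg : NatOn A g) :
    T.Fam A (fun s n p => ((g n p.2).1 s).app n (p.1, OrderHom.id)) := by
  refine ⟨?_, ?_, ?_⟩
  · intro s k n h p hp
    show ((g k (P.act h p.2)).1 s).app k (p.1.comp h, OrderHom.id) =
      (T.W s).act h (((g n p.2).1 s).app n (p.1, OrderHom.id))
    rw [hg h p.2 hp.2]
    exact ((g n p.2).1 s).nat h (p.1, OrderHom.id)
  · intro s i n θ x _ hi
    exact (g n x).2.d s i n θ OrderHom.id hi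
  · intro s j n θ x _ hj
    exact (g n x).2.σ s j n θ OrderHom.id hj

theorem tot_ext_iff {m : ℕ} (f f' : T.Tot.S m) :
    f = f' ↔ ∀ s n (θ : Mo n s) (τ : Mo n m), (f.1 s).app n (θ, τ) = (f'.1 s).app n (θ, τ) :=
  ⟨fun h s n θ τ => by rw [h], A104_ext T f f'⟩

/-- functions natural on `A` are determined on `A` by their families -/
theorem eq_of_fam (A : Sub P) (g g' : Fn P T.Tot) (hg : NatOn A g) (hg' : NatOn A g')
    (h : ∀ s m, ∀ x ∈ A.car m, ∀ θ : Mo m s,
      ((g m x).1 s).app m (θ, OrderHom.id) = ((g' m x).1 s).app m (θ, OrderHom.id)) :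
    ∀ m, ∀ x ∈ A.car m, g m x = g' m x := by
  intro m x hx
  rw [tot_ext_iff]
  intro s n θ τ
  have h1 := h s n (P.act τ x) (A.closed τ hx) θ
  rw [hg τ x hx, hg' τ x hx] at h1
  exact h1

/-- it suffices to extend families -/
theorem extP_of_fam {A C : Sub P} (hAC : A ≤ C)
    (h : ∀ f : ∀ s, Fn ((Del s).prod P) (T.W s).ss, T.Fam A f →
      ∃ F : ∀ s, Fn ((Del s).prod P) (T.W s).ss, T.Fam C F ∧
        ∀ s m (θ : Mo m s), ∀ x ∈ A.car m, F s m (θ, x) = f s m (θ, x)) :
    ExtP T.Tot A C := by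
  intro g hg
  obtain ⟨F, hF, hFf⟩ := h _ (fam_ofTot T A g hg)
  obtain ⟨g', hg', hgF⟩ := exists_toTot T C F hF
  refine ⟨g', hg', ?_⟩
  refine eq_of_fam T A g' g (fun h x hx => hg' h x (hAC _ hx)) hg ?_
  intro s m x hx θ
  rw [hgF m x (hAC m hx), P.act_id, hFf s m θ x hx]

/-- the limit of a sequence of stages in which the function `F s` is constant after step `s + 1` -/
theorem limit {A C : Sub P} (f : ∀ s, Fn ((Del s).prod P) (T.W s).ss)
    (F : ℕ → ∀ s, Fn ((Del s).prod P) (T.W s).ss) (hF : ∀ n, T.Stage A C f n (F n))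
    (hc : ∀ n s, s < n → F (n + 1) s = F n s) :
    ∃ G : ∀ s, Fn ((Del s).prod P) (T.W s).ss, T.Fam C G ∧
      ∀ s m (θ : Mo m s), ∀ x ∈ A.car m, G s m (θ, x) = f s m (θ, x) := by
  have h2 : ∀ s, F (s + 2) s = F (s + 1) s := fun s => hc (s + 1) s (by omega)
  refine ⟨fun s => F (s + 1) s, ⟨?_, ?_, ?_⟩, ?_⟩
  · intro s
    exact (hF (s + 1)).nat s (by omega)
  · intro s i n θ x hx hi
    have h3 := (hF (s + 2)).d s (by omega) i n θ x hx hi
    rw [h2 s] at h3
    exact h3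
  · intro s j n θ x hx hj
    have h3 := (hF (s + 2)).σ s (by omega) j n θ x hx hj
    rw [h2 s] at h3
    exact h3
  · intro s m θ x hx
    exact (hF (s + 1)).ext s (by omega) m θ x hx

/-- dependent choice version: if stage `0` exists and every stage `n` can be continued, changing only
`F n`, there is a complete family -/
theorem exists_of_steps {A C : Sub P} (f : ∀ s, Fn ((Del s).prod P) (T.W s).ss)
    (h0 : ∃ F, T.Stage A C f 0 F)
    (hs : ∀ n F, T.Stage A C f n F → ∃ F', T.Stage A C f (n + 1) F' ∧ ∀ s, s < n → F' s = F s) :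
    ∃ G : ∀ s, Fn ((Del s).prod P) (T.W s).ss, T.Fam C G ∧
      ∀ s m (θ : Mo m s), ∀ x ∈ A.car m, G s m (θ, x) = f s m (θ, x) := by
  obtain ⟨F0, hF0⟩ := h0
  choose nx hnx hnx' using hs
  let sq : ∀ n, {F // T.Stage A C f n F} := fun n =>
    Nat.rec ⟨F0, hF0⟩ (fun n F => ⟨nx n F.1 F.2, hnx n F.1 F.2⟩) n
  exact limit T f (fun n => (sq n).1) (fun n => (sq n).2)
    (fun n s hsn => hnx' n (sq n).1 (sq n).2 s hsn)

end Tower

end MM
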