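import Pool.Agent.Lib_MP_33f7bb_d.A1Defs

/-!
# A1-05: the gluing lemma

Given stage `n` of a family on `C` extending `f` on `A`, the next function `F (n+1)` is prescribed on
`∂Δ^(n+1) × C ∪ Δ^(n+1) × A`: for `x ∈ A` it is `f (n+1) (θ, x)`, for `x ∈ C` and
`θ = (dl n i).comp θ'` it is `d^i (F n (θ', x))`.

Definition: `b (θ, x) = f (n+1) (θ, x)` if `x ∈ A`; otherwise, if some `i ≤ n + 1` is not a value of
`θ`, take such an `i` and `θ'` with `θ = (dl n i).comp θ'` and put `b (θ, x) = d^i (F n (θ', x))`;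
otherwise `0`.
Independence of `i`: if `i < j` are both missing, then `n ≥ 1` (`dl_zero_ne`), `n = n' + 1`, and
`θ = (dl n i).comp θ_1 = (dl n j).comp θ_2` with `θ_1 = (dl n' (j-1)).comp θ''`,
`θ_2 = (dl n' i).comp θ''` (`exists_dl_dl`), so `d^i (F n (θ_1, x)) = d^i d^(j-1) (F n' (θ'', x)) =
d^j d^i (F n' (θ'', x)) = d^j (F n (θ_2, x))` (`dd`, `Stage.d`).
If `x ∈ A` and `θ = (dl n i).comp θ'` both prescriptions agree: `Stage.ext`, `Fam.d`.
Naturality: `b (θ.comp g, act g x)` with the same `i`.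
`σ`: for `x ∈ A`: `Fam.σ` and `Stage.ext`.  For `θ = (dl n i).comp θ'`, `x ∈ C`, `j ≤ n`:
`i < j` (`n = n' + 1`): `σ^j d^i = d^i σ^(j-1)` (`σd_lt`), `σ^(j-1) F n (θ', x) = F n' (σ^(j-1) θ', x)`
(`Stage.σ`) and `(sg n j).comp (dl n i) = (dl n' i).comp (sg n' (j-1))`, then `Stage.d`;
`i = j, j + 1`: both sides are `F n (θ', x)`; `i > j + 1`: `σd_gt`,
`(sg n j).comp (dl n i) = (dl n' (i-1)).comp (sg n' j)`.
The identities between `dl` and `sg` are proved by `ext` and `omega` (`dl_val`, `sg_val`).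
-/

namespace MM

theorem dl_dl {s i j : ℕ} (h : i ≤ j) (hj : j ≤ s + 1) :
    (dl (s + 1) (j + 1)).comp (dl s i) = (dl (s + 1) i).comp (dl s j) := by
  ext k
  have := k.2
  simp only [OrderHom.comp_coe, Function.comp_apply, dl_val]
  split_ifs <;> omega

theorem sg_dl_lt {s i j : ℕ} (h : i ≤ j) (hj : j ≤ s) :
    (sg (s + 1) (j + 1)).comp (dl (s + 1) i) = (dl s i).comp (sg s j) := by
  ext k
  have := k.2
  simp only [OrderHom.comp_coe, Function.comp_apply, dl_val, sg_val]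
  split_ifs <;> omega

theorem sg_dl_eq {s j : ℕ} (hj : j ≤ s) : (sg s j).comp (dl s j) = OrderHom.id := by
  ext k
  have := k.2
  simp only [OrderHom.comp_coe, Function.comp_apply, dl_val, sg_val, OrderHom.id_coe, id_eq]
  split_ifs <;> omega

theorem sg_dl_eq' {s j : ℕ} (hj : j ≤ s) : (sg s j).comp (dl s (j + 1)) = OrderHom.id := by
  ext k
  have := k.2
  simp only [OrderHom.comp_coe, Function.comp_apply, dl_val, sg_val, OrderHom.id_coe, id_eq]
  split_ifs <;> omega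

theorem sg_dl_gt {s i j : ℕ} (h : i ≤ j) (hj : j ≤ s) :
    (sg (s + 1) i).comp (dl (s + 1) (j + 2)) = (dl s (j + 1)).comp (sg s i) := by
  ext k
  have := k.2
  simp only [OrderHom.comp_coe, Function.comp_apply, dl_val, sg_val]
  split_ifs <;> omega

theorem sg_sg {s i j : ℕ} (h : i ≤ j) (hj : j ≤ s) :
    (sg s j).comp (sg (s + 1) i) = (sg s i).comp (sg (s + 1) (j + 1)) := by
  ext k
  have := k.2
  simp only [OrderHom.comp_coe, Function.comp_apply, sg_val]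
  split_ifs <;> omega

/-- a non surjective map factors through the coface which skips a missing value -/
theorem exists_dl {m n : ℕ} (θ : Mo m (n + 1)) (i : ℕ) (hi : i ≤ n + 1) (h : ∀ t, (θ t).1 ≠ i) :
    ∃ θ' : Mo m n, θ = (dl n i).comp θ' := by
  refine ⟨⟨fun t => ⟨if (θ t).1 < i then (θ t).1 else (θ t).1 - 1, ?_⟩, ?_⟩, ?_⟩
  · have h1 := (θ t).2
    have h2 := h t
    split_ifs <;> omega
  · intro a b hab
    have h1 : (θ a).1 ≤ (θ b).1 := θ.monotone hab
    have h2 := h a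
    have h3 := h b
    show (if (θ a).1 < i then (θ a).1 else (θ a).1 - 1) ≤
      (if (θ b).1 < i then (θ b).1 else (θ b).1 - 1)
    split_ifs <;> omega
  · ext t
    have h1 := (θ t).2
    have h2 := h t
    simp only [OrderHom.comp_coe, Function.comp_apply, dl_val, OrderHom.coe_mk]
    split_ifs <;> omega

theorem dl_injective {m n i : ℕ} {θ θ' : Mo m n} (h : (dl n i).comp θ = (dl n i).comp θ') :
    θ = θ' := by
  ext t
  have h1 := congrArg Fin.val (DFunLike.congr_fun h t)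
  simp only [OrderHom.comp_coe, Function.comp_apply, dl_val] at h1
  split_ifs at h1 <;> omega

/-- two missing values -/
theorem exists_dl_dl {m n : ℕ} (θ₁ θ₂ : Mo m (n + 1)) (i j : ℕ) (hij : i ≤ j) (hj : j ≤ n + 1)
    (h : (dl (n + 1) i).comp θ₁ = (dl (n + 1) (j + 1)).comp θ₂) :
    ∃ θ : Mo m n, θ₁ = (dl n j).comp θ ∧ θ₂ = (dl n i).comp θ := by
  have key : ∀ t, (if (θ₁ t).1 < i then (θ₁ t).1 else (θ₁ t).1 + 1) =
      (if (θ₂ t).1 < j + 1 then (θ₂ t).1 else (θ₂ t).1 + 1) := by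
    intro t
    have h1 := congrArg Fin.val (DFunLike.congr_fun h t)
    simpa only [OrderHom.comp_coe, Function.comp_apply, dl_val] using h1
  obtain ⟨θ, hθ⟩ := exists_dl θ₁ j hj (fun t => by
    have := key t
    split_ifs at this <;> omega)
  refine ⟨θ, hθ, ?_⟩
  have h2 : (dl (n + 1) (j + 1)).comp θ₂ = (dl (n + 1) (j + 1)).comp ((dl n i).comp θ) := by
    rw [← h, hθ, ← OrderHom.comp_assoc, ← OrderHom.comp_assoc, dl_dl hij hj]
  exact dl_injective h2

/-- a map to `[1]` cannot miss both values -/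
theorem dl_zero_ne {m : ℕ} (θ₁ θ₂ : Mo m 0) : (dl 0 0).comp θ₁ ≠ (dl 0 1).comp θ₂ := by
  intro h
  have h1 := congrArg Fin.val (DFunLike.congr_fun h 0)
  have h2 := (θ₁ 0).2
  have h3 := (θ₂ 0).2
  simp only [OrderHom.comp_coe, Function.comp_apply, dl_val] at h1
  split_ifs at h1 <;> omega

namespace Tower

/-- the prescribed values over the boundary -/
private def A105_pre (T : Tower) {P : SS} (n : ℕ) (F : ∀ s, Fn ((Del s).prod P) (T.W s).ss)
    {m : ℕ} (θ : Mo m (n + 1)) (x : P.S m) (v : (T.W (n + 1)).V m) : Prop :=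
  ∃ (i : ℕ) (θ' : Mo m n), i ≤ n + 1 ∧ θ = (dl n i).comp θ' ∧
    v = (T.d n i).app m (F n m (θ', x))

private theorem A105_uniq_lt (T : Tower) {P : SS} {A C : Sub P}
    {f : ∀ s, Fn ((Del s).prod P) (T.W s).ss} {n : ℕ}
    {F : ∀ s, Fn ((Del s).prod P) (T.W s).ss} (hF : T.Stage A C f n F)
    {m : ℕ} (θ₁ θ₂ : Mo m n) (x : P.S m) (hx : x ∈ C.car m) (i j : ℕ) (hij : i < j)
    (hj : j ≤ n + 1) (h : (dl n i).comp θ₁ = (dl n j).comp θ₂) :
    (T.d n i).app m (F n m (θ₁, x)) = (T.d n j).app m (F n m (θ₂, x)) := by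
  obtain ⟨j, rfl⟩ : ∃ j', j = j' + 1 := ⟨j - 1, by omega⟩
  cases n with
  | zero =>
    obtain rfl : i = 0 := by omega
    obtain rfl : j = 0 := by omega
    exact absurd h (dl_zero_ne θ₁ θ₂)
  | succ n =>
    obtain ⟨θ, h1, h2⟩ := exists_dl_dl θ₁ θ₂ i j (by omega) (by omega) h
    rw [h1, h2, hF.d n (Nat.lt_succ_self n) j m θ x hx (by omega),
      hF.d n (Nat.lt_succ_self n) i m θ x hx (by omega)]
    exact (T.dd n i j m _ (by omega) (by omega)).symm

private theorem A105_uniq (T : Tower) {P : SS} {A C : Sub P}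
    {f : ∀ s, Fn ((Del s).prod P) (T.W s).ss} {n : ℕ}
    {F : ∀ s, Fn ((Del s).prod P) (T.W s).ss} (hF : T.Stage A C f n F)
    {m : ℕ} (θ : Mo m (n + 1)) (x : P.S m) (hx : x ∈ C.car m) (v w : (T.W (n + 1)).V m)
    (hv : T.A105_pre n F θ x v) (hw : T.A105_pre n F θ x w) : v = w := by
  obtain ⟨i, θ₁, hi, h1, rfl⟩ := hv
  obtain ⟨j, θ₂, hj, h2, rfl⟩ := hw
  rcases lt_trichotomy i j with hij | hij | hij
  · exact T.A105_uniq_lt hF θ₁ θ₂ x hx i j hij hj (h1.symm.trans h2)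
  · subst hij
    rw [dl_injective (h1.symm.trans h2)]
  · exact (T.A105_uniq_lt hF θ₂ θ₁ x hx j i hij hi (h2.symm.trans h1)).symm

open Classical in
/-- the glued function -/
private noncomputable def A105_b (T : Tower) {P : SS} (A : Sub P)
    (f : ∀ s, Fn ((Del s).prod P) (T.W s).ss) (n : ℕ)
    (F : ∀ s, Fn ((Del s).prod P) (T.W s).ss) :
    Fn ((Del (n + 1)).prod P) (T.W (n + 1)).ss :=
  fun m y => if y.2 ∈ A.car m then f (n + 1) m y else
    if h : ∃ v, T.A105_pre n F y.1 y.2 v then h.choose else (0 : (T.W (n + 1)).V m)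

private theorem A105_b_ext (T : Tower) {P : SS} (A : Sub P)
    (f : ∀ s, Fn ((Del s).prod P) (T.W s).ss) (n : ℕ)
    (F : ∀ s, Fn ((Del s).prod P) (T.W s).ss) (m : ℕ) (θ : Mo m (n + 1)) (x : P.S m)
    (hx : x ∈ A.car m) : T.A105_b A f n F m (θ, x) = f (n + 1) m (θ, x) := by
  unfold A105_b
  exact if_pos hx

private theorem A105_b_d (T : Tower) {P : SS} {A C : Sub P}
    {f : ∀ s, Fn ((Del s).prod P) (T.W s).ss} (hf : T.Fam A f) {n : ℕ}
    {F : ∀ s, Fn ((Del s).prod P) (T.W s).ss} (hF : T.Stage A C f n F)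
    (i m : ℕ) (θ : Mo m n) (x : P.S m) (hi : i ≤ n + 1) (hx : x ∈ C.car m) :
    T.A105_b A f n F m ((dl n i).comp θ, x) = (T.d n i).app m (F n m (θ, x)) := by
  by_cases hA : x ∈ A.car m
  · rw [T.A105_b_ext A f n F m _ x hA, hF.ext n le_rfl m θ x hA]
    exact hf.d n i m θ x hA hi
  · have hex : ∃ v, T.A105_pre n F ((dl n i).comp θ) x v := ⟨_, i, θ, hi, rfl, rfl⟩
    have h1 : T.A105_b A f n F m ((dl n i).comp θ, x) = hex.choose := by
      unfold A105_b
      exact (if_neg hA).trans (dif_pos hex)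
    rw [h1]
    exact T.A105_uniq hF _ x hx _ _ hex.choose_spec ⟨i, θ, hi, rfl, rfl⟩

private theorem A105_bd {m n : ℕ} (θ : Mo m (n + 1)) (h : ¬ Function.Surjective θ) :
    ∃ (i : ℕ) (θ' : Mo m n), i ≤ n + 1 ∧ θ = (dl n i).comp θ' := by
  unfold Function.Surjective at h
  push Not at h
  obtain ⟨y, hy⟩ := h
  have hi : y.1 ≤ n + 1 := by have := y.2; omega
  obtain ⟨θ', h'⟩ := exists_dl θ y.1 hi (fun t ht => hy t (Fin.ext ht))
  exact ⟨y.1, θ', hi, h'⟩

private theorem A105_σ (T : Tower) {P : SS} {A C : Sub P}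
    {f : ∀ s, Fn ((Del s).prod P) (T.W s).ss} {n : ℕ}
    {F : ∀ s, Fn ((Del s).prod P) (T.W s).ss} (hF : T.Stage A C f n F)
    (i j m : ℕ) (θ : Mo m n) (x : P.S m) (hi : i ≤ n + 1) (hj : j ≤ n) (hx : x ∈ C.car m) :
    (T.σ n j).app m ((T.d n i).app m (F n m (θ, x))) =
      F n m ((sg n j).comp ((dl n i).comp θ), x) := by
  rw [← OrderHom.comp_assoc]
  rcases lt_trichotomy i j with hij | hij | hij
  · obtain ⟨j, rfl⟩ : ∃ j', j = j' + 1 := ⟨j - 1, by omega⟩
    obtain ⟨n, rfl⟩ : ∃ n', n = n' + 1 := ⟨n - 1, by omega⟩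
    rw [T.σd_lt n i j m _ (by omega) (by omega), sg_dl_lt (by omega) (by omega),
      OrderHom.comp_assoc, hF.d n (Nat.lt_succ_self n) i m _ x hx (by omega),
      hF.σ n (Nat.lt_succ_self n) j m θ x hx (by omega)]
  · subst hij
    rw [T.σd_eq n i m _ hj, sg_dl_eq hj]
    rfl
  · by_cases hij' : i = j + 1
    · subst hij'
      rw [T.σd_eq' n j m _ hj, sg_dl_eq' hj]
      rfl
    · obtain ⟨i, rfl⟩ : ∃ i', i = i' + 2 := ⟨i - 2, by omega⟩
      obtain ⟨n, rfl⟩ : ∃ n', n = n' + 1 := ⟨n - 1, by omega⟩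
      rw [T.σd_gt n j i m _ (by omega) (by omega), sg_dl_gt (by omega) (by omega),
        OrderHom.comp_assoc, hF.d n (Nat.lt_succ_self n) (i + 1) m _ x hx (by omega),
        hF.σ n (Nat.lt_succ_self n) j m θ x hx (by omega)]

theorem exists_glue (T : Tower) {P : SS} {A C : Sub P} (hAC : A ≤ C)
    {f : ∀ s, Fn ((Del s).prod P) (T.W s).ss} (hf : T.Fam A f) {n : ℕ}
    {F : ∀ s, Fn ((Del s).prod P) (T.W s).ss} (hF : T.Stage A C f n F) :
    ∃ b : Fn ((Del (n + 1)).prod P) (T.W (n + 1)).ss, T.Glue A C f n F b := by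
  refine ⟨T.A105_b A f n F, ⟨?_, ?_, ?_, ?_⟩⟩
  · rintro m k g ⟨θ, x⟩ hx
    obtain ⟨⟨-, hxC⟩, hx'⟩ := hx
    by_cases hA : x ∈ A.car k
    · show T.A105_b A f n F m (θ.comp g, P.act g x) = _
      rw [T.A105_b_ext A f n F m _ _ (A.closed g hA), T.A105_b_ext A f n F k _ _ hA]
      exact hf.nat (n + 1) g (θ, x) ⟨trivial, hA⟩
    · obtain ⟨i, θ', hi, rfl⟩ := A105_bd θ (hx'.resolve_right hA)
      show T.A105_b A f n F m (((dl n i).comp θ').comp g, P.act g x) = _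
      rw [OrderHom.comp_assoc, T.A105_b_d hf hF i m _ _ hi (C.closed g hxC),
        T.A105_b_d hf hF i k _ _ hi hxC, ← (T.d n i).nat]
      congr 1
      exact hF.nat n le_rfl g (θ', x) ⟨trivial, hxC⟩
  · intro i m θ x hi hx
    exact T.A105_b_d hf hF i m θ x hi hx
  · intro m θ x hx
    exact T.A105_b_ext A f n F m θ x hx
  · rintro j m θ x hj hx
    obtain ⟨⟨-, hxC⟩, hx'⟩ := hx
    by_cases hA : x ∈ A.car m
    · rw [T.A105_b_ext A f n F m θ x hA, hF.ext n le_rfl m _ x hA]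
      exact (hf.σ n j m θ x hA hj).symm
    · obtain ⟨i, θ', hi, rfl⟩ := A105_bd θ (hx'.resolve_right hA)
      rw [T.A105_b_d hf hF i m θ' x hi hxC]
      exact T.A105_σ hF i j m θ' x hi hj hxC

end Tower

end MM
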