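import Pool.Agent.Lib_MP_33f7bb_d.A101
import Pool.Agent.Lib_MP_33f7bb_d.A105

/-!
# A1-06: the next stage

`exists_secn`: `G (θ, x) := (T.cov m).sec n (fun j => F n ((sg n j).comp θ, x)) n`.  The family is compatible
(`CoV.Compat`): for `n = n' + 1`, `i ≤ j ≤ n'`: `σ^i F n (sg (j+1) θ, x) = F n' (sg n' i (sg n (j+1) θ), x)
= F n' (sg n' j (sg n i θ), x) = σ^j F n (sg n i θ, x)` (`Stage.σ`, `sg_sg`); apply `CoV.sec_σ`.
Naturality: `CoV.sec_map` for the linear maps `(T.W s).act g`.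

`exists_nrm`: on `∂Δ^(n+1) × C ∪ Δ^(n+1) × A` the function `b + G` has values in `T.N (n+1)`
(`Glue.σ`, `Secn.σ`), so it defines a natural function with values in `(T.N (n+1)).sv.ss`
(zero outside).

`stage_succ`: given an extension `r'` of that function to `Δ^(n+1) × C`, put
`F' (n+1) := G + r'` and `F' s := F s` for `s ≤ n` (`Function.update`).  All conditions are immediate.
-/

namespace MM

namespace Tower

variable (T : Tower) {P : SS} {A C : Sub P}

theorem exists_secn {f : ∀ s, Fn ((Del s).prod P) (T.W s).ss} {n : ℕ}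
    {F : ∀ s, Fn ((Del s).prod P) (T.W s).ss} (hF : T.Stage A C f n F) :
    ∃ G : Fn ((Del (n + 1)).prod P) (T.W (n + 1)).ss, T.Secn C n F G := by
  refine ⟨fun m p => (T.cov m).sec n (fun j => F n m ((sg n j).comp p.1, p.2)) n, ?_, ?_⟩
  · intro m' m g p hp
    obtain ⟨θ, x⟩ := p
    have hx : x ∈ C.car m := hp.2
    have h1 := CoV.sec_map (T := T.cov m) (T' := T.cov m') (fun s => (T.W s).act g)
      (fun s i x => ((T.d s i).nat g x).symm) (fun s j x => ((T.σ s j).nat g x).symm) n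
      (fun j => F n m ((sg n j).comp θ, x)) n
    have h2 : (fun j => F n m' ((sg n j).comp (θ.comp g), P.act g x)) =
        fun j => (T.W n).act g (F n m ((sg n j).comp θ, x)) := by
      funext j
      exact hF.nat n le_rfl g ((sg n j).comp θ, x) ⟨trivial, hx⟩
    show (T.cov m').sec n (fun j => F n m' ((sg n j).comp (θ.comp g), P.act g x)) n = _
    rw [h2]
    exact h1.symm
  · intro j m θ x hj hx
    refine CoV.sec_σ (T.cov m) n (fun j => F n m ((sg n j).comp θ, x)) ?_ j hj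
    cases n with
    | zero => trivial
    | succ n =>
      intro i j' hij hj'
      have h1 := hF.σ n (Nat.lt_succ_self n) i m ((sg (n + 1) (j' + 1)).comp θ) x hx (by omega)
      have h2 := hF.σ n (Nat.lt_succ_self n) j' m ((sg (n + 1) i).comp θ) x hx hj'
      have h3 := sg_sg hij hj'
      show (T.σ n i).app m (F (n + 1) m ((sg (n + 1) (j' + 1)).comp θ, x)) =
        (T.σ n j').app m (F (n + 1) m ((sg (n + 1) i).comp θ, x))
      rw [← h1, ← h2]
      have h4 : (sg n i).comp ((sg (n + 1) (j' + 1)).comp θ) =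
          (sg n j').comp ((sg (n + 1) i).comp θ) := by
        show ((sg n i).comp (sg (n + 1) (j' + 1))).comp θ = ((sg n j').comp (sg (n + 1) i)).comp θ
        rw [h3]
      rw [h4]

theorem exists_nrm (hAC : A ≤ C) {f : ∀ s, Fn ((Del s).prod P) (T.W s).ss} {n : ℕ}
    {F : ∀ s, Fn ((Del s).prod P) (T.W s).ss}
    {b : Fn ((Del (n + 1)).prod P) (T.W (n + 1)).ss} (hb : T.Glue A C f n F b)
    {G : Fn ((Del (n + 1)).prod P) (T.W (n + 1)).ss} (hG : T.Secn C n F G) :
    ∃ r : Fn ((Del (n + 1)).prod P) (T.N (n + 1)).sv.ss,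
      NatOn (Sub.box (bd (n + 1)) ⊤ A C) r ∧
      ∀ m, ∀ p ∈ (Sub.box (bd (n + 1)) ⊤ A C).car m,
        (((r m p : (T.N (n + 1)).sv.V m)).1 : (T.W (n + 1)).V m) = b m p + G m p := by
  have h0 : ∀ m (p : ((Del (n + 1)).prod P).S m), ∃ v : (T.N (n + 1)).sv.V m,
      p ∈ (Sub.box (bd (n + 1)) ⊤ A C).car m → (v.1 : (T.W (n + 1)).V m) = b m p + G m p := by
    intro m p
    by_cases hp : p ∈ (Sub.box (bd (n + 1)) ⊤ A C).car m
    · refine ⟨⟨(b m p + G m p : (T.W (n + 1)).V m), ?_⟩, fun _ => rfl⟩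
      obtain ⟨θ, x⟩ := p
      rw [T.mem_N]
      intro j hj
      have h1 := hb.σ j m θ x hj hp
      have h2 := hG.σ j m θ x hj hp.1.2
      show (T.σ n j).app m (b m (θ, x) + G m (θ, x) : (T.W (n + 1)).V m) = 0
      rw [map_add]
      have h3 := two_eq_zero' (F n m ((sg n j).comp θ, x) : (T.W n).V m)
      have h4 : ((T.σ n j).app m (b m (θ, x)) : (T.W n).V m) = F n m ((sg n j).comp θ, x) := h1
      have h5 : ((T.σ n j).app m (G m (θ, x)) : (T.W n).V m) = F n m ((sg n j).comp θ, x) := h2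
      rw [h4, h5]
      exact h3
    · exact ⟨0, fun h => absurd h hp⟩
  choose r hr using h0
  refine ⟨r, ?_, hr⟩
  intro m' m g p hp
  have hp' := (Sub.box (bd (n + 1)) ⊤ A C).closed g hp
  refine Subtype.ext ?_
  rw [hr m' _ hp']
  show _ = (T.W (n + 1)).act g (r m p).1
  rw [hr m p hp, map_add]
  have h1 := hb.nat g p hp
  have h2 := hG.nat g p hp.1
  rw [h1, h2]

private theorem A106_bd {m n i : ℕ} (hi : i ≤ n + 1) (θ : Mo m n) :
    ¬ Function.Surjective ((dl n i).comp θ : Mo m (n + 1)) := by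
  intro h
  obtain ⟨t, ht⟩ := h ⟨i, by omega⟩
  have h1 : ((dl n i) (θ t)).1 = i := congrArg Fin.val ht
  rw [dl_val] at h1
  split_ifs at h1 <;> omega

theorem stage_succ (hAC : A ≤ C) {f : ∀ s, Fn ((Del s).prod P) (T.W s).ss} {n : ℕ}
    {F : ∀ s, Fn ((Del s).prod P) (T.W s).ss} (hF : T.Stage A C f n F)
    {b : Fn ((Del (n + 1)).prod P) (T.W (n + 1)).ss} (hb : T.Glue A C f n F b)
    {G : Fn ((Del (n + 1)).prod P) (T.W (n + 1)).ss} (hG : T.Secn C n F G)
    (r : Fn ((Del (n + 1)).prod P) (T.N (n + 1)).sv.ss) (hr : NatOn (Sub.bx ⊤ C) r)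
    (hrb : ∀ m, ∀ p ∈ (Sub.box (bd (n + 1)) ⊤ A C).car m,
      (((r m p : (T.N (n + 1)).sv.V m)).1 : (T.W (n + 1)).V m) = b m p + G m p) :
    ∃ F' : ∀ s, Fn ((Del s).prod P) (T.W s).ss, T.Stage A C f (n + 1) F' ∧
      ∀ s, s ≤ n → F' s = F s := by
  classical
  set K : Fn ((Del (n + 1)).prod P) (T.W (n + 1)).ss :=
    fun m p => (G m p + (r m p).1 : (T.W (n + 1)).V m) with hK
  set F' : ∀ s, Fn ((Del s).prod P) (T.W s).ss := Function.update F (n + 1) K with hF'
  have e1 : F' (n + 1) = K := Function.update_self _ _ _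
  have e2 : ∀ s, s ≤ n → F' s = F s := fun s hs => Function.update_of_ne (by omega) _ _
  -- on the boundary `K = b`
  have hKb : ∀ m, ∀ p ∈ (Sub.box (bd (n + 1)) ⊤ A C).car m, K m p = b m p := by
    intro m p hp
    show (G m p + (r m p).1 : (T.W (n + 1)).V m) = b m p
    rw [hrb m p hp]
    have h1 := two_eq_zero' (G m p : (T.W (n + 1)).V m)
    calc (G m p + (b m p + G m p) : (T.W (n + 1)).V m) = b m p + (G m p + G m p) := by abel
      _ = b m p := by rw [h1, add_zero]
  have hKn : NatOn (Sub.bx ⊤ C) K := by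
    intro m' m g p hp
    show (G m' _ + (r m' _).1 : (T.W (n + 1)).V m') =
      (T.W (n + 1)).act g (G m p + (r m p).1 : (T.W (n + 1)).V m)
    rw [map_add, hG.nat g p hp, hr g p hp]
    rfl
  refine ⟨F', ⟨?_, ?_, ?_, ?_⟩, e2⟩
  · intro s hs
    rcases Nat.lt_or_eq_of_le hs with h | h
    · rw [e2 s (by omega)]
      exact hF.nat s (by omega)
    · subst h
      rw [e1]
      exact hKn
  · intro s hs i m θ x hx hi
    rcases Nat.lt_or_eq_of_le (Nat.le_of_lt_succ hs) with h | h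
    · rw [e2 s (by omega), e2 (s + 1) (by omega)]
      exact hF.d s h i m θ x hx hi
    · subst h
      have hmem : (((dl s i).comp θ, x) : ((Del (s + 1)).prod P).S m) ∈
          (Sub.box (bd (s + 1)) ⊤ A C).car m := ⟨⟨trivial, hx⟩, Or.inl (A106_bd hi θ)⟩
      rw [e1, e2 s le_rfl, hKb m _ hmem]
      exact hb.d i m θ x hi hx
  · intro s hs j m θ x hx hj
    rcases Nat.lt_or_eq_of_le (Nat.le_of_lt_succ hs) with h | h
    · rw [e2 s (by omega), e2 (s + 1) (by omega)]
      exact hF.σ s h j m θ x hx hj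
    · subst h
      rw [e1, e2 s le_rfl]
      show _ = (T.σ s j).app m (G m (θ, x) + (r m (θ, x)).1 : (T.W (s + 1)).V m)
      rw [map_add]
      have h1 := hG.σ j m θ x hj hx
      have h2 : (T.σ s j).app m (r m (θ, x)).1 = 0 :=
        (T.mem_N (s + 1) m _).1 (r m (θ, x)).2 j hj
      have h3 : ((T.σ s j).app m (G m (θ, x)) : (T.W s).V m) = F s m ((sg s j).comp θ, x) := h1
      rw [h2, h3, add_zero]
  · intro s hs m θ x hx
    rcases Nat.lt_or_eq_of_le hs with h | h
    · rw [e2 s (by omega)]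
      exact hF.ext s (by omega) m θ x hx
    · subst h
      rw [e1, hKb m _ ⟨⟨trivial, hAC m hx⟩, Or.inr hx⟩]
      exact hb.ext m θ x hx

end Tower

end MM
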