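import Pool.Agent.Lib_MP_33f7bb_d.A007
import Pool.Agent.Lib_MP_33f7bb_d.A018
import Pool.Agent.Lib_MP_33f7bb_d.A104
import Pool.Agent.Lib_MP_33f7bb_d.A106

/-!
# A1-07: Tot has the extension property for acyclic pairs (T4)

`Tower.extP_of_fam` and `Tower.exists_of_steps`.
Stage `0`: extend `f 0` from `Δ^0 × A` to `Δ^0 × C`: the pair `(bx ⊤ C, box (bd 0) ⊤ A C)` is acyclic
(`acyc_box_right`), `box (bd 0) ⊤ A C` is `bx ⊤ A` (`bd 0` is empty: every map to `[0]` is surjective);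
`extP_sv`.
Step: `exists_glue`, `exists_secn`, `exists_nrm`; extend `r` by `extP_sv` for the simplicial vector
space `(T.N (n+1)).sv` and the acyclic pair `(bx ⊤ C, box (bd (n+1)) ⊤ A C)`; `stage_succ`.
-/

namespace MM

namespace Tower

private theorem A107_bd_zero {m : ℕ} (θ : Mo m 0) : θ ∉ (bd 0).car m := by
  intro h
  refine h fun y => ⟨0, ?_⟩
  exact Subsingleton.elim (α := Fin 1) _ _

private theorem A107_box_le {P : SS} {k : ℕ} {A C : Sub P} :
    Sub.box (bd k) ⊤ A C ≤ Sub.bx ⊤ C := fun _ _ hx => (Sub.mem_box.1 hx).1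

theorem exists_stage_zero (T : Tower) {P : SS} {A C : Sub P} (hAC : A ≤ C) (h : Acyc A C)
    {f : ∀ s, Fn ((Del s).prod P) (T.W s).ss} (hf : T.Fam A f) :
    ∃ F : ∀ s, Fn ((Del s).prod P) (T.W s).ss, T.Stage A C f 0 F := by
  have hn : NatOn (Sub.box (bd 0) ⊤ A C) (f 0) := by
    intro m n g x hx
    refine hf.nat 0 g x ?_
    obtain ⟨_, h2⟩ := Sub.mem_box.1 hx
    rcases h2 with h2 | h2
    · exact absurd h2 (A107_bd_zero x.1)
    · exact ⟨trivial, h2⟩
  obtain ⟨g, hg, hgf⟩ := extP_sv (T.W 0) A107_box_le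
    (acyc_box_right (Sub.le_top' (bd 0)) hAC h) (f 0) hn
  refine ⟨Function.update f 0 g, ?_, ?_, ?_, ?_⟩
  · intro s hs
    obtain rfl : s = 0 := by omega
    rw [Function.update_self]
    exact hg
  · intro s hs
    omega
  · intro s hs
    omega
  · intro s hs m θ x hx
    obtain rfl : s = 0 := by omega
    rw [Function.update_self]
    exact hgf m (θ, x) ⟨⟨trivial, hAC m hx⟩, Or.inr hx⟩

/-- (T4) -/
theorem tot_ext (T : Tower) {P : SS} {A C : Sub P} (hAC : A ≤ C) (h : Acyc A C) :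
    ExtP T.Tot A C := by
  refine T.extP_of_fam hAC fun f hf => ?_
  refine T.exists_of_steps f (T.exists_stage_zero hAC h hf) ?_
  intro n F hF
  obtain ⟨b, hb⟩ := T.exists_glue hAC hf hF
  obtain ⟨G, hG⟩ := T.exists_secn hF
  obtain ⟨r, hr, hrb⟩ := T.exists_nrm hAC hb hG
  obtain ⟨r', hr', hrr⟩ := extP_sv (T.N (n + 1)).sv A107_box_le
    (acyc_box_right (Sub.le_top' (bd (n + 1))) hAC h) r hr
  obtain ⟨F', hF', hs⟩ := T.stage_succ hAC hF hb hG r' hr' (fun m p hp => by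
    rw [hrr m p hp]
    exact hrb m p hp)
  exact ⟨F', hF', fun s hs' => hs s (le_of_lt hs')⟩

end Tower

end MM
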