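import Pool.Agent.Lib_MP_33f7bb_d.A101
import Pool.Agent.Lib_MP_33f7bb_d.A102

/-!
# A1-08: normalisation of Moore cycles in a tower object

Fix `t ≥ 1`.  Let `C s` be the vector space of the Moore cycles of `(T.W s).V t` modulo those which are
boundaries (a quotient of a submodule).  All operators induce maps: a simplicial pointed map sends Moore
cycles to Moore cycles (`map_moore`) and respects the congruence (`map_moore_congr`), it is additive on
classes also for `d 0` (`cr_moore`), linear maps induce linear maps.  So `C` is a `CoV` whose `d s 0` is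
additive; apply `CoV.del_pi_of_nrm`: the class of `u` is normalised and is `del [a]`, so it is
`del (pi [a]) = del [pi a]`, where `pi a = (T.cov t).pi s a` is a Moore cycle (`pi` is built from the
simplicial additive operators) and is normalised by `nrm_pi`.
(The class of `(T.cov t).pi s a` is `pi` of the class of `a`: same recursion.)
-/

namespace MM

private theorem A108_moore_add {W : SV} {t : ℕ} {z z' : W.V t} (hz : W.Moore z)
    (hz' : W.Moore z') : W.Moore (z + z') := fun m f hf => by
  rw [map_add, hz m f hf, hz' m f hf, add_zero]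

private theorem A108_moore_lin {W W' : SV} (g : SVHom W W') {t : ℕ} {z : W.V t}
    (hz : W.Moore z) : W'.Moore (g.app t z) := fun m f hf => by
  rw [← g.nat, hz m f hf, map_zero]

/-- the Moore cycles -/
private def A108_MC (W : SV) (t : ℕ) : Submodule (ZMod 2) (W.V t) where
  carrier := {z | W.Moore z}
  add_mem' := fun hz hz' => A108_moore_add hz hz'
  zero_mem' := fun _ f _ => map_zero (W.act f)
  smul_mem' := fun c z hz m f hf => by
    have h : W.act f z = 0 := hz m f hf
    rw [map_smul, h, smul_zero]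

/-- Moore cycles modulo boundaries -/
private abbrev A108_CC (W : SV) (t : ℕ) : Type :=
  (A108_MC W t) ⧸ (Submodule.comap (A108_MC W t).subtype (W.B t))

private noncomputable def A108_cl {W : SV} {t : ℕ} (z : W.V t) (hz : W.Moore z) : A108_CC W t :=
  Submodule.Quotient.mk ⟨z, hz⟩

private theorem A108_cl_eq {W : SV} {t : ℕ} {z z' : W.V t} {hz : W.Moore z} {hz' : W.Moore z'} :
    A108_cl z hz = A108_cl z' hz' ↔ z + z' ∈ W.B t := by
  unfold A108_cl
  rw [Submodule.Quotient.eq]
  show z - z' ∈ W.B t ↔ _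
  rw [sub_eq']

private theorem A108_cl_congr {W : SV} {t : ℕ} {z z' : W.V t} (h : z = z') (hz : W.Moore z)
    (hz' : W.Moore z') : A108_cl z hz = A108_cl z' hz' := by
  subst h
  rfl

private theorem A108_exists {W : SV} {t : ℕ} (c : A108_CC W t) :
    ∃ (z : W.V t) (hz : W.Moore z), c = A108_cl z hz := by
  obtain ⟨⟨z, hz⟩, rfl⟩ := Submodule.Quotient.mk_surjective _ c
  exact ⟨z, hz, rfl⟩

private theorem A108_cl_add {W : SV} {t : ℕ} {z z' : W.V t} (hz : W.Moore z) (hz' : W.Moore z') :
    A108_cl z hz + A108_cl z' hz' = A108_cl (z + z') (A108_moore_add hz hz') := rfl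

private theorem A108_cl_zero {W : SV} {t : ℕ} (h : W.Moore (0 : W.V t)) : A108_cl 0 h = 0 := rfl

/-- the map induced by a pointed simplicial map -/
private noncomputable def A108_map {W W' : SV} (g : Hom W.ss W'.ss) (g0 : ∀ n, g.app n 0 = 0)
    (t : ℕ) (c : A108_CC W t) : A108_CC W' t :=
  A108_cl (g.app t (A108_exists c).choose : W'.V t)
    (map_moore g g0 (A108_exists c).choose_spec.choose)

private theorem A108_map_cl {W W' : SV} (g : Hom W.ss W'.ss) (g0 : ∀ n, g.app n 0 = 0)
    {t : ℕ} (ht : 1 ≤ t) {z : W.V t} (hz : W.Moore z) :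
    A108_map g g0 t (A108_cl z hz) = A108_cl (g.app t z : W'.V t) (map_moore g g0 hz) := by
  unfold A108_map
  rw [A108_cl_eq]
  have h1 := (A108_exists (A108_cl z hz)).choose_spec.choose_spec
  have h2 := A108_cl_eq.1 h1
  rw [add_comm] at h2
  exact map_moore_congr g g0 ht (A108_exists (A108_cl z hz)).choose_spec.choose hz h2

/-- the map induced by a linear simplicial map -/
private noncomputable def A108_lin {W W' : SV} (g : SVHom W W') (t : ℕ) :
    A108_CC W t →ₗ[ZMod 2] A108_CC W' t :=
  Submodule.mapQ _ _ ((g.app t).restrict (p := A108_MC W t) (q := A108_MC W' t)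
    (fun _ hz => A108_moore_lin g hz)) (by
      intro z hz
      exact map_B g (z := z.1) hz)

private theorem A108_lin_cl {W W' : SV} (g : SVHom W W') {t : ℕ} {z : W.V t} (hz : W.Moore z) :
    A108_lin g t (A108_cl z hz) = A108_cl (g.app t z) (A108_moore_lin g hz) := rfl

namespace Tower

/-- the sum of the cofaces of Moore cycles, up to boundaries, depends only on the class -/
theorem del_congr (T : Tower) {s t : ℕ} (ht : 1 ≤ t) {a a' : (T.W s).V t}
    (ha : (T.W s).Moore a) (ha' : (T.W s).Moore a') (h : a + a' ∈ (T.W s).B t) :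
    T.del s t a + T.del s t a' ∈ (T.W (s + 1)).B t := by
  unfold del
  rw [← Finset.sum_add_distrib]
  exact Submodule.sum_mem _ fun i _ => map_moore_congr (T.d s i) (T.d_zero s i) ht ha ha' h

private theorem A108_moore_prj (T : Tower) {s t : ℕ} {a : (T.W (s + 1)).V t}
    (ha : (T.W (s + 1)).Moore a) (j : ℕ) :
    (T.W (s + 1)).Moore ((T.cov t).prj s j a : (T.W (s + 1)).V t) := by
  induction j with
  | zero => exact ha
  | succ j ih =>
    exact A108_moore_add ih (map_moore (T.d s (j + 1)) (T.d_zero s (j + 1))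
      (A108_moore_lin (T.σ s j) ih))

theorem moore_pi (T : Tower) {s t : ℕ} {a : (T.W s).V t} (ha : (T.W s).Moore a) :
    (T.W s).Moore ((T.cov t).pi s a : (T.W s).V t) := by
  cases s with
  | zero => exact ha
  | succ s => exact A108_moore_prj T ha (s + 1)

/-- the cosimplicial vector space of the classes of Moore cycles -/
private noncomputable def A108_cov (T : Tower) (t : ℕ) (ht : 1 ≤ t) : CoV where
  C s := A108_CC (T.W s) t
  d s i := A108_map (T.d s i) (T.d_zero s i) t
  σ s j := A108_lin (T.σ s j) t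
  d_zero s i := by
    have h0 : (T.W s).Moore (0 : (T.W s).V t) := (A108_MC (T.W s) t).zero_mem
    have h1 : (T.W (s + 1)).Moore (0 : (T.W (s + 1)).V t) := (A108_MC (T.W (s + 1)) t).zero_mem
    rw [← A108_cl_zero h0, A108_map_cl _ _ ht h0, ← A108_cl_zero h1]
    exact A108_cl_congr (T.d_zero s i t) _ _
  d_add s i x y h1 h2 := by
    obtain ⟨x, hx, rfl⟩ := A108_exists x
    obtain ⟨y, hy, rfl⟩ := A108_exists y
    rw [A108_cl_add, A108_map_cl _ _ ht, A108_map_cl _ _ ht, A108_map_cl _ _ ht, A108_cl_add]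
    exact A108_cl_congr (T.d_add s i t x y h1 h2) _ _
  dd s i j x h1 h2 := by
    obtain ⟨x, hx, rfl⟩ := A108_exists x
    rw [A108_map_cl _ _ ht, A108_map_cl _ _ ht, A108_map_cl _ _ ht, A108_map_cl _ _ ht]
    exact A108_cl_congr (T.dd s i j t x h1 h2) _ _
  σσ s i j x h1 h2 := by
    obtain ⟨x, hx, rfl⟩ := A108_exists x
    rw [A108_lin_cl, A108_lin_cl, A108_lin_cl, A108_lin_cl]
    exact A108_cl_congr (T.σσ s i j t x h1 h2) _ _
  σd_lt s i j x h1 h2 := by
    obtain ⟨x, hx, rfl⟩ := A108_exists x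
    rw [A108_map_cl _ _ ht, A108_lin_cl, A108_lin_cl, A108_map_cl _ _ ht]
    exact A108_cl_congr (T.σd_lt s i j t x h1 h2) _ _
  σd_eq s j x h1 := by
    obtain ⟨x, hx, rfl⟩ := A108_exists x
    rw [A108_map_cl _ _ ht, A108_lin_cl]
    exact A108_cl_congr (T.σd_eq s j t x h1) _ _
  σd_eq' s j x h1 := by
    obtain ⟨x, hx, rfl⟩ := A108_exists x
    rw [A108_map_cl _ _ ht, A108_lin_cl]
    exact A108_cl_congr (T.σd_eq' s j t x h1) _ _
  σd_gt s i j x h1 h2 := by
    obtain ⟨x, hx, rfl⟩ := A108_exists x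
    rw [A108_map_cl _ _ ht, A108_lin_cl, A108_lin_cl, A108_map_cl _ _ ht]
    exact A108_cl_congr (T.σd_gt s i j t x h1 h2) _ _

private theorem A108_sum {W : SV} {t : ℕ} {ι : Type} (I : Finset ι) (f : ι → W.V t)
    (hf : ∀ i, W.Moore (f i)) (hs : W.Moore (∑ i ∈ I, f i)) :
    ∑ i ∈ I, A108_cl (f i) (hf i) = A108_cl (∑ i ∈ I, f i) hs := by
  classical
  induction I using Finset.induction_on with
  | empty => rfl
  | insert a I ha ih =>
    have hI : W.Moore (∑ i ∈ I, f i) := (A108_MC W t).sum_mem fun i _ => hf i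
    rw [Finset.sum_insert ha, ih hI, A108_cl_add]
    exact A108_cl_congr (Finset.sum_insert ha).symm _ _

private theorem A108_moore_del (T : Tower) {s t : ℕ} {a : (T.W s).V t} (ha : (T.W s).Moore a) :
    (T.W (s + 1)).Moore (T.del s t a) :=
  (A108_MC (T.W (s + 1)) t).sum_mem fun i _ => map_moore (T.d s i) (T.d_zero s i) ha

private theorem A108_del_cl (T : Tower) {s t : ℕ} (ht : 1 ≤ t) {a : (T.W s).V t}
    (ha : (T.W s).Moore a) : (A108_cov T t ht).del s (A108_cl a ha) =
      A108_cl (T.del s t a) (A108_moore_del T ha) := by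
  have h1 : (A108_cov T t ht).del s (A108_cl a ha) =
      ∑ i ∈ Finset.range (s + 2), A108_cl ((T.d s i).app t a : (T.W (s + 1)).V t)
        (map_moore (T.d s i) (T.d_zero s i) ha) := by
    unfold CoV.del
    exact Finset.sum_congr rfl fun i _ => A108_map_cl (T.d s i) (T.d_zero s i) ht ha
  rw [h1]
  exact A108_sum (W := T.W (s + 1)) (Finset.range (s + 2)) (fun i => (T.d s i).app t a) _ _

private theorem A108_prj_cl (T : Tower) {s t : ℕ} (ht : 1 ≤ t) {a : (T.W (s + 1)).V t}
    (ha : (T.W (s + 1)).Moore a) (j : ℕ) : (A108_cov T t ht).prj s j (A108_cl a ha) =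
      A108_cl ((T.cov t).prj s j a : (T.W (s + 1)).V t) (A108_moore_prj T ha j) := by
  induction j with
  | zero => rfl
  | succ j ih =>
    have h1 : (A108_cov T t ht).prj s (j + 1) (A108_cl a ha) =
        (A108_cov T t ht).prj s j (A108_cl a ha) + (A108_cov T t ht).d s (j + 1)
          ((A108_cov T t ht).σ s j ((A108_cov T t ht).prj s j (A108_cl a ha))) := rfl
    rw [h1, ih]
    have hp := A108_moore_prj T ha j
    have h2 : (A108_cov T t ht).d s (j + 1) ((A108_cov T t ht).σ s j
        (A108_cl ((T.cov t).prj s j a : (T.W (s + 1)).V t) hp)) =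
        A108_cl ((T.d s (j + 1)).app t ((T.σ s j).app t ((T.cov t).prj s j a)) : (T.W (s + 1)).V t)
          (map_moore (T.d s (j + 1)) (T.d_zero s (j + 1)) (A108_moore_lin (T.σ s j) hp)) := by
      show A108_map (T.d s (j + 1)) (T.d_zero s (j + 1)) t (A108_lin (T.σ s j) t
        (A108_cl ((T.cov t).prj s j a : (T.W (s + 1)).V t) hp)) = _
      rw [A108_lin_cl, A108_map_cl _ _ ht]
    rw [h2]
    exact A108_cl_add (W := T.W (s + 1)) hp _

private theorem A108_pi_cl (T : Tower) {s t : ℕ} (ht : 1 ≤ t) {a : (T.W s).V t}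
    (ha : (T.W s).Moore a) : (A108_cov T t ht).pi s (A108_cl a ha) =
      A108_cl ((T.cov t).pi s a : (T.W s).V t) (moore_pi T ha) := by
  cases s with
  | zero => rfl
  | succ s => exact A108_prj_cl T ht ha (s + 1)

/-- if the normalised class of `u` is a coboundary, it is the coboundary of a normalised class -/
theorem exists_normalised (T : Tower) {s t : ℕ} (ht : 1 ≤ t) (u : (T.W (s + 1)).V t)
    (hu : (T.W (s + 1)).Moore u) (hσ : ∀ j ≤ s, (T.σ s j).app t u ∈ (T.W s).B t)
    (a : (T.W s).V t) (ha : (T.W s).Moore a) (h : u + T.del s t a ∈ (T.W (s + 1)).B t) :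
    ∃ a' : (T.W s).V t, (T.W s).Moore a' ∧ (T.cov t).Nrm s a' ∧
      u + T.del s t a' ∈ (T.W (s + 1)).B t := by
  refine ⟨(T.cov t).pi s a, moore_pi T ha, (T.cov t).nrm_pi s a, ?_⟩
  have h0 : ∀ s (x y : (A108_cov T t ht).C s),
      (A108_cov T t ht).d s 0 (x + y) = (A108_cov T t ht).d s 0 x + (A108_cov T t ht).d s 0 y := by
    intro s x y
    obtain ⟨x, hx, rfl⟩ := A108_exists x
    obtain ⟨y, hy, rfl⟩ := A108_exists y
    show A108_map (T.d s 0) (T.d_zero s 0) t (A108_cl x hx + A108_cl y hy) =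
      A108_map (T.d s 0) (T.d_zero s 0) t (A108_cl x hx) +
        A108_map (T.d s 0) (T.d_zero s 0) t (A108_cl y hy)
    rw [A108_cl_add, A108_map_cl _ _ ht, A108_map_cl _ _ ht, A108_map_cl _ _ ht, A108_cl_add,
      A108_cl_eq, ← add_assoc]
    exact cr_moore (T.d s 0) (T.d_zero s 0) ht hx hy
  have hn : (A108_cov T t ht).Nrm (s + 1) (A108_cl u hu) := by
    intro j hj
    show A108_lin (T.σ s j) t (A108_cl u hu) = 0
    have hz : (T.W s).Moore (0 : (T.W s).V t) := (A108_MC (T.W s) t).zero_mem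
    rw [A108_lin_cl, ← A108_cl_zero hz, A108_cl_eq, add_zero]
    exact hσ j hj
  have hd : (A108_cl u hu : (A108_cov T t ht).C (s + 1)) =
      (A108_cov T t ht).del s (A108_cl a ha) := by
    rw [A108_del_cl T ht ha]
    exact A108_cl_eq.2 h
  have h1 := (A108_cov T t ht).del_pi_of_nrm h0 s (A108_cl u hu) hn (A108_cl a ha) hd
  rw [A108_pi_cl T ht ha, A108_del_cl T ht (moore_pi T ha)] at h1
  exact A108_cl_eq.1 h1

end Tower

end MM
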