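import Pool.Agent.Lib_MP_33f7bb_d.A008
import Pool.Agent.Lib_MP_33f7bb_d.A019
import Pool.Agent.Lib_MP_33f7bb_d.A102
import Pool.Agent.Lib_MP_33f7bb_d.A103

/-!
# A1-09: pointed maps and the class of the boundary of a prism (T6)

`Q = Δ^s × Δ^k`, `s + k = n + 1`, `n ≥ 1`, `L` its boundary (`Sub.box (bd s) ⊤ (bd k) ⊤`),
`e = prismCh s k (n+1)`, `z = dif e` (supported in `L`), `v = (cst 0, cst 0)`.

Homology of `L`.  `Q` is contractible: `Acyc (Sub.pt v) ⊤` by `acyc_of_deformation'` with the homotopy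
`(ε, (α, β)) ↦ (α', β')`, `α' t = 0` if `ε t = 0`, else `α t` (same for `β`).  Let `c` be a cycle of degree
`m` supported in `L`.
`m = 0`: `c + l [v] = dif w`, `w` of degree `1 < n + 1` is a relative cycle of `(Q, L)`, so
(`genBy_prism`) `w + dif w'` is supported in `L` and `c + l [v] = dif (w + dif w')`.
`m ≥ 1`: `c` is homologous in `Q` to a cycle supported on the degeneracies of `v`, which is itself a
boundary of such (`m ≥ 1`) or use `Acyc (Sub.pt v) ⊤` and the homology of a point; so `c = dif w`, `w` a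
relative cycle of degree `m + 1`; for `m + 1 = n + 1`, `w + dif w'` or `w + dif w' + e` is supported in
`L`, else `w + dif w'` is.  Apply `dif`.

`linExt_comp_pointed` (T6).  Choose a maximal chain `x` and `τ = act (dlt 0) x` (first vertex removed).  `τ` is
nondegenerate and `z τ = 1`: a simplex `y` in the support of `e` starts at `(0,0)`, so for `i ≥ 1` the
face `δ_i y` starts at `(0,0)` and is not `τ`, and `δ_0 y = τ` determines `y`.  Let `e_u` be the bump map
of `exists_bump` for `L`, `τ`, `a = u` (dimension bound: `nonDeg_box_lt`).  Restrict `b` and `e_u` to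
simplicial maps `L.ss → W.ss`.  They are homotopic by `htp_iff`: for a cycle `c` of `L` of degree
`m`: `m = 0`: `c = l [v] + dif w`, both maps vanish at `v`; `m = n`: `c = l z + dif w` and
`linExt e_u z = u` (all other simplices in the support of `z` have `e_u = 0`), and
`u + linExt b z` is a boundary by hypothesis; other `m`: `c = dif w` (`linExt_dif`).
Compose the homotopy with `g` and apply `htp_iff` to `g b`, `g e_u : L.ss → W'.ss` and the cycle `z`:
`linExt (g b) z + linExt (g e_u) z` is a boundary, and `linExt (g e_u) z = g u` since `g 0 = 0`.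
-/

namespace MM

/-! ### auxiliary lemmas -/

private theorem a109_nsmul_even {M : Type*} [AddCommGroup M] [Module (ZMod 2) M] (j : ℕ)
    (x : M) : (j + j) • x = 0 := by
  rw [add_nsmul, two_eq_zero']

private theorem a109_dif_deg {P : SS} (p : P.S 0) (n : ℕ) (l : ZMod 2) :
    dif (Finsupp.single (P.deg p (n + 1)) l : Ch P (n + 1)) =
      (n + 2) • (Finsupp.single (P.deg p n) l : Ch P n) := by
  rw [dif]
  have h : ∀ i : Fin (n + 2), Finsupp.mapDomain (P.act (dlt i))
      (Finsupp.single (P.deg p (n + 1)) l : Ch P (n + 1)) = Finsupp.single (P.deg p n) l := by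
    intro i
    rw [Finsupp.mapDomain_single]
    congr 1
    show P.act (dlt i) (P.act (cst 0) p) = P.act (cst 0) p
    rw [P.act_comp]
    rfl
  rw [Finset.sum_congr rfl fun i _ => h i, Finset.sum_const, Finset.card_univ, Fintype.card_fin]

private theorem a109_single {P : SS} (p : P.S 0) {n : ℕ} (c : Ch P n)
    (hc : SuppIn (Sub.pt p) c) : c = Finsupp.single (P.deg p n) (c (P.deg p n)) := by
  ext x
  by_cases hx : x = P.deg p n
  · rw [hx, Finsupp.single_eq_same]
  · rw [Finsupp.single_eq_of_ne hx]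
    by_contra h
    exact hx (hc x (Finsupp.mem_support_iff.2 h))

private theorem a109_exact {P : SS} {p : P.S 0} (hP : Acyc (Sub.pt p) (⊤ : Sub P)) {m : ℕ}
    (c : Ch P (m + 1)) (hc : dif c = 0) : ∃ w : Ch P (m + 2), c = dif w := by
  obtain ⟨w, -, hw⟩ := hP (m + 1) c (SuppIn.top c) (by
    show SuppIn _ (dif c)
    rw [hc]
    exact SuppIn.zero _)
  have h1 := a109_single p _ hw
  set l := (c + dif w) (P.deg p (m + 1)) with hl
  have h2 : c = dif w + Finsupp.single (P.deg p (m + 1)) l := by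
    rw [← h1, ← add_assoc, add_comm (dif w) c, add_assoc, two_eq_zero', add_zero]
  rcases Nat.even_or_odd' m with ⟨j, hj | hj⟩
  · refine ⟨w + Finsupp.single (P.deg p (m + 2)) l, ?_⟩
    rw [dif_add, a109_dif_deg, h2]
    have h3 : m + 1 + 2 = (j + 1) + (j + 1) + 1 := by omega
    rw [h3, add_nsmul, a109_nsmul_even, zero_add, one_nsmul]
  · have h3 : dif (Finsupp.single (P.deg p (m + 1)) l : Ch P (m + 1)) = 0 := by
      rw [← h1, dif_add, hc, dif_dif, add_zero]
    rw [a109_dif_deg] at h3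
    have h4 : m + 2 = (j + 1) + (j + 1) + 1 := by omega
    rw [h4, add_nsmul, a109_nsmul_even, zero_add, one_nsmul, Finsupp.single_eq_zero] at h3
    refine ⟨w, ?_⟩
    rw [h2, h3, Finsupp.single_zero, add_zero]

/-- cut a simplex -/
private noncomputable def a109_c {s n : ℕ} (ε : Mo n 1) (α : Mo n s) : Mo n s :=
  ⟨fun t => if ε t = 0 then 0 else α t, by
    intro t t' h
    show (if ε t = 0 then (0 : Fin (s + 1)) else α t) ≤ (if ε t' = 0 then 0 else α t')
    have h1 : ε t ≤ ε t' := ε.monotone h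
    split_ifs with h2 h3 h3
    · exact le_rfl
    · exact Fin.zero_le _
    · exfalso
      rw [h3] at h1
      exact h2 (le_antisymm h1 (Fin.zero_le _))
    · exact α.monotone h⟩

private noncomputable def a109_H (s k : ℕ) :
    Hom ((Del 1).prod ((Del s).prod (Del k))) ((Del s).prod (Del k)) :=
  ⟨fun _ x => (a109_c x.1 x.2.1, a109_c x.1 x.2.2), fun _ _ => rfl⟩

theorem acyc_prod_pt (s k : ℕ) :
    Acyc (Sub.pt (P := (Del s).prod (Del k)) ((cst 0, cst 0) : Mo 0 s × Mo 0 k)) ⊤ := by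
  have hc : ∀ {r n : ℕ} (a : Mo n 1), a109_c a (cst 0 : Mo n r) = cst 0 := by
    intro r n a
    refine OrderHom.ext _ _ (funext fun t => ?_)
    show (if a t = 0 then (0 : Fin (r + 1)) else 0) = 0
    split_ifs <;> rfl
  refine acyc_of_deformation' (Sub.le_top' _) (a109_H s k) ?_ ?_ ?_ ?_
  · rintro n ⟨α, β⟩ -
    have h : ∀ {r : ℕ} (α : Mo n r), a109_c (cst 1) α = α := by
      intro r α
      refine OrderHom.ext _ _ (funext fun t => ?_)
      show (if (1 : Fin 2) = 0 then (0 : Fin (r + 1)) else α t) = α t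
      rw [if_neg (by decide)]
    exact Prod.ext (h α) (h β)
  · rintro n ⟨α, β⟩ -
    have h : ∀ {r : ℕ} (α : Mo n r), a109_c (cst 0) α = cst 0 := by
      intro r α
      refine OrderHom.ext _ _ (funext fun t => ?_)
      show (if (0 : Fin 2) = 0 then (0 : Fin (r + 1)) else α t) = 0
      rw [if_pos rfl]
    exact Prod.ext (h α) (h β)
  · intro n a x _
    trivial
  · rintro n a x hx
    have hx' : x = ((cst 0, cst 0) : Mo n s × Mo n k) := hx
    subst hx'
    exact Prod.ext (hc a) (hc a)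

private theorem a109_v_mem {s k n : ℕ} (h : s + k = n + 1) :
    ((cst 0, cst 0) : Mo 0 s × Mo 0 k) ∈ (Sub.box (bd s) ⊤ (bd k) ⊤).car 0 := by
  refine ⟨⟨trivial, trivial⟩, ?_⟩
  by_cases hs : 1 ≤ s
  · left
    intro h1
    have h2 := Fintype.card_le_of_surjective _ h1
    simp only [Fintype.card_fin] at h2
    omega
  · right
    intro h1
    have h2 := Fintype.card_le_of_surjective _ h1
    simp only [Fintype.card_fin] at h2
    omega

theorem bdry_cycle_zero {s k n : ℕ} (h : s + k = n + 1) (hn : 1 ≤ n)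
    (c : Ch ((Del s).prod (Del k)) 0) (hc : SuppIn (Sub.box (bd s) ⊤ (bd k) ⊤) c) :
    ∃ (l : ZMod 2) (w : Ch ((Del s).prod (Del k)) 1), SuppIn (Sub.box (bd s) ⊤ (bd k) ⊤) w ∧
      c = Finsupp.single ((cst 0, cst 0) : Mo 0 s × Mo 0 k) l + dif w := by
  obtain ⟨w, -, hw⟩ := acyc_prod_pt s k 0 c (SuppIn.top c) trivial
  have h1 := a109_single _ _ hw
  set l := (c + dif w) (((Del s).prod (Del k)).deg ((cst 0, cst 0) : Mo 0 s × Mo 0 k) 0) with hl
  have h2 : c = Finsupp.single ((cst 0, cst 0) : Mo 0 s × Mo 0 k) l + dif w := by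
    have h3 : (Finsupp.single ((cst 0, cst 0) : Mo 0 s × Mo 0 k) l :
        Ch ((Del s).prod (Del k)) 0) = c + dif w := h1.symm
    rw [h3, add_assoc, two_eq_zero', add_zero]
  have h4 : SuppIn (Sub.box (bd s) ⊤ (bd k) ⊤) (dif w) := by
    have h5 : dif w = c + (Finsupp.single ((cst 0, cst 0) : Mo 0 s × Mo 0 k) l :
        Ch ((Del s).prod (Del k)) 0) := by
      conv_rhs => rw [h2]
      rw [add_comm (Finsupp.single _ l) (dif w), add_assoc, two_eq_zero', add_zero]
    rw [h5]
    exact SuppIn.add hc (SuppIn.single (a109_v_mem h) l)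
  obtain ⟨w', -, hw'⟩ := (genBy_prism s k n h).2.2.2 1 (by omega) w (SuppIn.top w) h4
  refine ⟨l, w + dif w', hw', ?_⟩
  rw [dif_add, dif_dif, add_zero]
  exact h2

private theorem a109_fill {s k m : ℕ} (hm : m ≠ 0) (c : Ch ((Del s).prod (Del k)) m)
    (hz : c ∈ (lin ((Del s).prod (Del k))).Z m) :
    ∃ w : Ch ((Del s).prod (Del k)) (m + 1), c = dif w := by
  cases m with
  | zero => exact absurd rfl hm
  | succ m =>
    refine a109_exact (acyc_prod_pt s k) c ?_
    rw [← lin_d]
    exact hz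

theorem bdry_cycle_top {s k n : ℕ} (h : s + k = n + 1) (hn : 1 ≤ n)
    (c : Ch ((Del s).prod (Del k)) n) (hc : SuppIn (Sub.box (bd s) ⊤ (bd k) ⊤) c)
    (hz : c ∈ (lin ((Del s).prod (Del k))).Z n) :
    ∃ (l : ZMod 2) (w : Ch ((Del s).prod (Del k)) (n + 1)),
      SuppIn (Sub.box (bd s) ⊤ (bd k) ⊤) w ∧ c = l • dif (prismCh s k (n + 1)) + dif w := by
  obtain ⟨w, rfl⟩ := a109_fill (by omega) c hz
  obtain ⟨w', -, hw' | hw'⟩ := (genBy_prism s k n h).2.2.1 w (SuppIn.top w) hc
  · refine ⟨0, w + dif w', hw', ?_⟩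
    rw [zero_smul, zero_add, dif_add, dif_dif, add_zero]
  · refine ⟨1, w + dif w' + prismCh s k (n + 1), hw', ?_⟩
    rw [one_smul, dif_add, dif_add, dif_dif, add_zero, add_comm (dif w), ← add_assoc,
      two_eq_zero', zero_add]

theorem bdry_cycle_other {s k n m : ℕ} (h : s + k = n + 1) (hn : 1 ≤ n) (hm : m ≠ 0) (hmn : m ≠ n)
    (c : Ch ((Del s).prod (Del k)) m) (hc : SuppIn (Sub.box (bd s) ⊤ (bd k) ⊤) c)
    (hz : c ∈ (lin ((Del s).prod (Del k))).Z m) :
    ∃ w : Ch ((Del s).prod (Del k)) (m + 1),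
      SuppIn (Sub.box (bd s) ⊤ (bd k) ⊤) w ∧ c = dif w := by
  have _ := hn
  obtain ⟨w, rfl⟩ := a109_fill hm c hz
  obtain ⟨w', -, hw'⟩ := (genBy_prism s k n h).2.2.2 (m + 1) (by omega) w (SuppIn.top w) hc
  refine ⟨w + dif w', hw', ?_⟩
  rw [dif_add, dif_dif, add_zero]

private theorem a109_eval {P : SS} {W : SV} {L : Sub P} {F : Fn P W.ss} {n : ℕ} {τ : P.S n}
    {z : Ch P n} (hz : SuppIn L z) (hτ : z τ = 1) (h : ∀ x ∈ L.car n, x ≠ τ → F n x = (0 : W.V n)) :
    linExt F n z = F n τ := by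
  rw [linExt_apply, Finsupp.sum, Finset.sum_eq_single τ]
  · show z τ • (F n τ : W.V n) = F n τ
    rw [hτ, one_smul]
  · intro x hx hne
    show z x • (F n x : W.V n) = 0
    rw [h x (hz x hx) hne, smul_zero]
  · intro hne
    exfalso
    apply hne
    rw [Finsupp.mem_support_iff, hτ]
    exact one_ne_zero

private theorem a109_zero {s k n : ℕ} {x : Mo n s × Mo n k}
    (hx : ∀ i, ((x.1 i : ℕ) + (x.2 i : ℕ) = (i : ℕ))) :
    x.1 0 = 0 ∧ x.2 0 = 0 := by
  have h := hx 0
  have h0 : ((0 : Fin (n + 1)) : ℕ) = 0 := rfl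
  rw [h0] at h
  exact ⟨Fin.ext (by show (x.1 0 : ℕ) = 0; omega), Fin.ext (by show (x.2 0 : ℕ) = 0; omega)⟩

private theorem a109_inj {s k n : ℕ} {x y : Mo (n + 1) s × Mo (n + 1) k}
    (hx : ∀ i, ((x.1 i : ℕ) + (x.2 i : ℕ) = (i : ℕ)))
    (hy : ∀ i, ((y.1 i : ℕ) + (y.2 i : ℕ) = (i : ℕ)))
    (h : ((Del s).prod (Del k)).act (dlt 0) x = ((Del s).prod (Del k)).act (dlt 0) y) :
    x = y := by
  have hd : ∀ t : Fin (n + 1), (dlt 0 : Mo n (n + 1)) t = t.succ := fun t => by
    show Fin.succAbove 0 t = t.succ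
    exact Fin.succAbove_zero_apply t
  have h1 : x.1.comp (dlt 0) = y.1.comp (dlt 0) := congrArg Prod.fst h
  have h2 : x.2.comp (dlt 0) = y.2.comp (dlt 0) := congrArg Prod.snd h
  refine Prod.ext (OrderHom.ext _ _ (funext fun t => ?_)) (OrderHom.ext _ _ (funext fun t => ?_))
  · refine Fin.cases ?_ (fun t => ?_) t
    · rw [(a109_zero hx).1, (a109_zero hy).1]
    · have h3 := congrArg (fun f : Mo n s => f t) h1
      have h4 : x.1 ((dlt 0 : Mo n (n + 1)) t) = y.1 ((dlt 0 : Mo n (n + 1)) t) := h3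
      rwa [hd] at h4
  · refine Fin.cases ?_ (fun t => ?_) t
    · rw [(a109_zero hx).2, (a109_zero hy).2]
    · have h3 := congrArg (fun f : Mo n k => f t) h2
      have h4 : x.2 ((dlt 0 : Mo n (n + 1)) t) = y.2 ((dlt 0 : Mo n (n + 1)) t) := h3
      rwa [hd] at h4

private theorem a109_supp {s k n : ℕ} {y : ((Del s).prod (Del k)).S (n + 1)}
    (hy : y ∈ (prismCh s k (n + 1)).support) :
    ∀ i, ((y.1 i : ℕ) + (y.2 i : ℕ) = (i : ℕ)) := by
  rw [Finsupp.mem_support_iff, prismCh_apply] at hy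
  by_contra hcon
  exact hy (if_neg fun h => hcon h.2)

private theorem a109_tau {s k n : ℕ} (x : ((Del s).prod (Del k)).S (n + 1))
    (hx : prismCh s k (n + 1) x = 1) :
    dif (prismCh s k (n + 1)) (((Del s).prod (Del k)).act (dlt 0) x) = 1 := by
  classical
  have hxs : x ∈ (prismCh s k (n + 1)).support := by
    rw [Finsupp.mem_support_iff, hx]
    exact one_ne_zero
  rw [dif, Finsupp.finsetSum_apply, Fin.sum_univ_succ, Finset.sum_eq_zero, add_zero]
  · rw [Finsupp.mapDomain_apply' (S := ↑(prismCh s k (n + 1)).support)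
      (prismCh s k (n + 1)) subset_rfl ?_ hxs, hx]
    intro y hy y' hy' h
    exact a109_inj (a109_supp hy) (a109_supp hy') h
  · intro i _
    by_contra hne
    have h1 := Finsupp.mapDomain_support (Finsupp.mem_support_iff.2 hne)
    obtain ⟨y, hy, he⟩ := Finset.mem_image.1 h1
    have h2 : y.1 ((dlt i.succ : Mo n (n + 1)) 0) = x.1 ((dlt 0 : Mo n (n + 1)) 0) :=
      congrArg (fun f : Mo n s => f 0) (congrArg Prod.fst he)
    have h3 : y.2 ((dlt i.succ : Mo n (n + 1)) 0) = x.2 ((dlt 0 : Mo n (n + 1)) 0) :=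
      congrArg (fun f : Mo n k => f 0) (congrArg Prod.snd he)
    have h4 : (dlt i.succ : Mo n (n + 1)) 0 = 0 := by
      show Fin.succAbove i.succ 0 = 0
      exact Fin.succAbove_of_castSucc_lt _ _ (Fin.succ_pos i)
    have h5 : (dlt 0 : Mo n (n + 1)) 0 = 1 := by
      show Fin.succAbove 0 (0 : Fin (n + 1)) = 1
      exact Fin.succAbove_zero_apply 0
    rw [h4] at h2 h3
    rw [h5] at h2 h3
    have h6 := a109_supp hxs 1
    rw [← h2, ← h3, (a109_zero (a109_supp hy)).1, (a109_zero (a109_supp hy)).2] at h6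
    have h7 : ((1 : Fin (n + 1 + 1)) : ℕ) = 1 := rfl
    rw [h7] at h6
    exact absurd h6 (by simp)

private theorem a109_nonDeg {s k n : ℕ} (x : ((Del s).prod (Del k)).S (n + 1))
    (hx : prismCh s k (n + 1) x = 1) :
    NonDeg (P := (Del s).prod (Del k)) (((Del s).prod (Del k)).act (dlt 0) x) := by
  have hxs : x ∈ (prismCh s k (n + 1)).support := by
    rw [Finsupp.mem_support_iff, hx]
    exact one_ne_zero
  have hs := a109_supp hxs
  rw [nonDeg_prod_iff]
  intro i j hij
  have h1 : x.1 ((dlt 0 : Mo n (n + 1)) i) = x.1 ((dlt 0 : Mo n (n + 1)) j) :=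
    congrArg Prod.fst hij
  have h2 : x.2 ((dlt 0 : Mo n (n + 1)) i) = x.2 ((dlt 0 : Mo n (n + 1)) j) :=
    congrArg Prod.snd hij
  have h3 := hs ((dlt 0 : Mo n (n + 1)) i)
  have h4 := hs ((dlt 0 : Mo n (n + 1)) j)
  rw [h1, h2, h4] at h3
  exact (Fin.succAbove_right_injective (p := (0 : Fin (n + 2)))) (Fin.ext h3).symm

/-- chains supported in a subcomplex come from the subcomplex -/
private theorem a109_lift {P : SS} (L : Sub P) {n : ℕ} (c : Ch P n) (hc : SuppIn L c) :
    ∃ z : Ch L.ss n, z.mapDomain (fun x : L.ss.S n => x.1) = c := by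
  have hinj : Function.Injective (fun x : L.ss.S n => x.1) := Subtype.val_injective
  refine ⟨Finsupp.comapDomain _ c hinj.injOn, ?_⟩
  refine Finsupp.mapDomain_comapDomain _ hinj c ?_
  intro x hx
  exact ⟨⟨x, hc x hx⟩, rfl⟩

private theorem a109_dif {P : SS} (L : Sub P) {n : ℕ} (z : Ch L.ss (n + 1)) :
    (dif z).mapDomain (fun x : L.ss.S n => x.1) =
      dif (z.mapDomain (fun x : L.ss.S (n + 1) => x.1)) := by
  rw [dif, dif, Finsupp.mapDomain_finsetSum]
  refine Finset.sum_congr rfl fun i _ => ?_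
  rw [← Finsupp.mapDomain_comp, ← Finsupp.mapDomain_comp]
  rfl

private theorem a109_cycle {P : SS} (L : Sub P) {n : ℕ} (z : Ch L.ss n) :
    z ∈ (lin L.ss).Z n ↔ z.mapDomain (fun x : L.ss.S n => x.1) ∈ (lin P).Z n := by
  cases n with
  | zero => exact ⟨fun _ => trivial, fun _ => trivial⟩
  | succ n =>
    have e1 : z ∈ (lin L.ss).Z (n + 1) ↔ dif z = 0 := by
      rw [← lin_d]; exact Iff.rfl
    have e2 : z.mapDomain (fun x : L.ss.S (n + 1) => x.1) ∈ (lin P).Z (n + 1) ↔
        dif (z.mapDomain (fun x : L.ss.S (n + 1) => x.1)) = 0 := by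
      rw [← lin_d]; exact Iff.rfl
    rw [e1, e2, ← a109_dif]
    constructor
    · intro h
      rw [h, Finsupp.mapDomain_zero]
    · intro h
      refine Finsupp.mapDomain_injective (f := fun x : L.ss.S n => x.1) Subtype.val_injective ?_
      rw [h, Finsupp.mapDomain_zero]

private theorem a109_suppIn {P : SS} (L : Sub P) {n : ℕ} (z : Ch L.ss n) :
    SuppIn L (z.mapDomain (fun x : L.ss.S n => x.1)) := by
  classical
  intro x hx
  obtain ⟨y, -, rfl⟩ := Finset.mem_image.1 (Finsupp.mapDomain_support hx)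
  exact y.2

/-- restriction of a function which is simplicial on `L` -/
private def a109_res {P : SS} {L : Sub P} {Y : SS} (f : Fn P Y) (hf : NatOn L f) :
    Hom L.ss Y := ⟨fun n x => f n x.1, fun g x => hf g x.1 x.2⟩

private theorem a109_linExt {P : SS} (L : Sub P) {W : SV} (f : Fn P W.ss) (n : ℕ)
    (z : Ch L.ss n) : linExt (fun n (x : L.ss.S n) => f n x.1) n z =
      linExt f n (z.mapDomain (fun x : L.ss.S n => x.1)) := by
  unfold linExt
  exact (Finsupp.linearCombination_mapDomain (ZMod 2) (fun x : L.ss.S n => x.1) z).symm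

/-- (T6) -/
theorem linExt_comp_pointed {s k n : ℕ} (h : s + k = n + 1) (hn : 1 ≤ n) {W W' : SV}
    (g : Hom W.ss W'.ss) (g0 : ∀ n, g.app n 0 = 0) (b : Fn ((Del s).prod (Del k)) W.ss)
    (hb : NatOn (Sub.box (bd s) ⊤ (bd k) ⊤) b)
    (b0 : b 0 ((cst 0, cst 0) : Mo 0 s × Mo 0 k) = 0)
    (u : W.V n) (hu : W.Moore u) (hub : u + linExt b n (dif (prismCh s k (n + 1))) ∈ W.B n) :
    (g.app n u + linExt (fun m p => g.app m (b m p)) n (dif (prismCh s k (n + 1))) : W'.V n) ∈
      W'.B n := by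
  obtain ⟨x, hx⟩ : ∃ x, prismCh s k (n + 1) x = 1 := by
    rw [← h]
    exact prismCh_ne_zero s k
  set L : Sub ((Del s).prod (Del k)) := Sub.box (bd s) ⊤ (bd k) ⊤ with hL
  set e := prismCh s k (n + 1) with he
  have hzL : SuppIn L (dif e) := (genBy_prism s k n h).2.1
  have hτ1 : dif e (((Del s).prod (Del k)).act (dlt 0) x) = 1 := a109_tau x hx
  obtain ⟨eu, heu, heuτ, heu0, heum, -⟩ := exists_bump L
    (((Del s).prod (Del k)).act (dlt 0) x) (a109_nonDeg x hx) (fun m y hy hy' => by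
      have := nonDeg_box_lt y hy hy'
      omega) u hu
  have hev : linExt eu n (dif e) = u := by
    rw [a109_eval hzL hτ1 heu0, heuτ]
  -- the homotopy
  have hH : Htp (a109_res eu heu) (a109_res b hb) := by
    rw [htp_iff]
    intro m z hz
    have hc := (a109_cycle L z).1 hz
    have hs := a109_suppIn L z
    have q1 : linExt (a109_res eu heu).app m z =
        linExt eu m (z.mapDomain (fun x : L.ss.S m => x.1)) := a109_linExt L eu m z
    have q2 : linExt (a109_res b hb).app m z =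
        linExt b m (z.mapDomain (fun x : L.ss.S m => x.1)) := a109_linExt L b m z
    rw [q1, q2]
    generalize z.mapDomain (fun x : L.ss.S m => x.1) = c at hc hs
    by_cases hm : m = 0
    · subst hm
      obtain ⟨l, w, hw, rfl⟩ := bdry_cycle_zero h hn c hs
      have q3 : (eu 0 ((cst 0, cst 0) : Mo 0 s × Mo 0 k) : W.V 0) = 0 := heum 0 (by omega) _
      have q4 : (b 0 ((cst 0, cst 0) : Mo 0 s × Mo 0 k) : W.V 0) = 0 := b0
      rw [map_add, map_add, linExt_single, linExt_single, q3, q4, smul_zero, zero_add, zero_add,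
        linExt_dif heu hw, linExt_dif hb hw]
      exact Submodule.add_mem _ ⟨_, rfl⟩ ⟨_, rfl⟩
    · by_cases hmn : m = n
      · subst hmn
        obtain ⟨l, w, hw, rfl⟩ := bdry_cycle_top h hn c hs hc
        rw [map_add, map_add, map_smul, map_smul, hev, linExt_dif heu hw, linExt_dif hb hw]
        have q5 : l • u + W.d m (linExt eu (m + 1) w) +
            (l • linExt b m (dif e) + W.d m (linExt b (m + 1) w)) =
            l • (u + linExt b m (dif e)) + (W.d m (linExt eu (m + 1) w) +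
              W.d m (linExt b (m + 1) w)) := by
          rw [smul_add]; abel
        rw [q5]
        exact Submodule.add_mem _ (Submodule.smul_mem _ _ hub)
          (Submodule.add_mem _ ⟨_, rfl⟩ ⟨_, rfl⟩)
      · obtain ⟨w, hw, rfl⟩ := bdry_cycle_other h hn hm hmn c hs hc
        rw [linExt_dif heu hw, linExt_dif hb hw]
        exact Submodule.add_mem _ ⟨_, rfl⟩ ⟨_, rfl⟩
  have hH' : Htp (g.comp (a109_res eu heu)) (g.comp (a109_res b hb)) := by
    obtain ⟨H, h0, h1⟩ := hH
    exact ⟨g.comp H, fun n x => congrArg (g.app n) (h0 n x), fun n x => congrArg (g.app n) (h1 n x)⟩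
  rw [htp_iff] at hH'
  obtain ⟨z0, hz0⟩ := a109_lift L (dif e) hzL
  have hcyc : z0 ∈ (lin L.ss).Z n := by
    rw [a109_cycle, hz0]
    cases n with
    | zero => trivial
    | succ n =>
      show (lin _).d n (dif e) = 0
      rw [lin_d, dif_dif]
  have h5 := hH' n z0 hcyc
  have q6 : linExt (g.comp (a109_res eu heu)).app n z0 =
      linExt (fun m p => g.app m (eu m p)) n (dif e) := by
    rw [← hz0]
    exact a109_linExt L (fun m p => g.app m (eu m p)) n z0
  have q7 : linExt (g.comp (a109_res b hb)).app n z0 =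
      linExt (fun m p => g.app m (b m p)) n (dif e) := by
    rw [← hz0]
    exact a109_linExt L (fun m p => g.app m (b m p)) n z0
  have q8 : linExt (fun m p => g.app m (eu m p)) n (dif e) = (g.app n u : W'.V n) := by
    rw [a109_eval (W := W') hzL hτ1 (fun y hy hne => by
      show (g.app n (eu n y) : W'.V n) = 0
      rw [heu0 y hy hne]
      exact g0 n)]
    rw [heuτ]
  rw [q6, q7, q8] at h5
  exact h5

/-- all cofaces together: T6 for `d 0` (only pointed), linearity for the other cofaces -/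
theorem Tower.del_class (T : Tower) {s k n : ℕ} (h : s + k = n + 1) (hn : 1 ≤ n)
    (b : Fn ((Del s).prod (Del k)) (T.W s).ss)
    (hb : NatOn (Sub.box (bd s) ⊤ (bd k) ⊤) b)
    (b0 : b 0 ((cst 0, cst 0) : Mo 0 s × Mo 0 k) = 0)
    (u : (T.W s).V n) (hu : (T.W s).Moore u)
    (hub : u + linExt b n (dif (prismCh s k (n + 1))) ∈ (T.W s).B n) :
    (T.del s n u + ∑ i ∈ Finset.range (s + 2),
      linExt (fun m p => (T.d s i).app m (b m p)) n (dif (prismCh s k (n + 1))) :
        (T.W (s + 1)).V n) ∈ (T.W (s + 1)).B n := by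
  rw [Tower.del, ← Finset.sum_add_distrib]
  exact Submodule.sum_mem _ fun i _ =>
    linExt_comp_pointed h hn (T.d s i) (T.d_zero s i) b hb b0 u hu hub

end MM
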