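import Pool.Agent.Lib_MP_33f7bb_d.A019
import Pool.Agent.Lib_MP_33f7bb_d.A105

/-!
# A1-10: the obstruction chain

Situation of T7: `P = Del (k+1)`, `A = bd (k+1)`, `C = ⊤`, `f` a family on `A`, `F` a stage `n`.
`prho k s N` = `[Δ^s] × dif [Δ^(k+1)]` (zero unless `s + k = N`).
`T.ob k n f F` in `(W (n+1))_(n+k+1)` = sum over the cofaces `i ≤ n + 1` of `d^i F n` on the prism
`[Δ^n] × [Δ^(k+1)]` plus `f (n+1)` on `[Δ^(n+1)] × dif [Δ^(k+1)]`.

`sum_cancel`: the pairs `(i, j)`, `i ≤ j` and `(j+1, i)` cancel (mod 2); `Finset.sum_involution` on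
`range (s+2) ×ˢ range (s+1)` or induction.

`dif_rho`: apply `dif` to `dif (prismCh (s+1) (k+1) (N+2)) =
∑_i (δ_i × 1) prismCh s (k+1) (N+1) + prho k (s+1) (N+1)` (`dif_prismCh`) and insert the formula for
`dif (prismCh s (k+1) (N+1))` (`dif_prismCh` or `dif_prismCh_zero_left`); the terms
`(δ_i δ_j × 1)` cancel (`sum_cancel`, `dlt_comp_dlt`).

`ob_eq`: `dif_prismCh n k (n+k+1)`; on the simplices `((dlt i).comp a, c)` the function `b` is
`d^i (F n (a, c))` (`Glue.d`, `dl_eq`), on `(a, (dlt i).comp c)` it is `f (n+1)` (`Glue.ext`; the second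
component is not surjective).  `linExt b (mapDomain φ c) = linExt (b ∘ φ) c`.

`ob_σ`: with `b` from `exists_glue`: `σ^j (linExt b z) = linExt (σ^j ∘ b) z`, `z = dif e` is supported in the
boundary (`genBy_prism`), there `σ^j ∘ b` is the restriction of the function
`(θ, x) ↦ F n ((sg n j).comp θ, x)`, which is natural on all of `Δ^(n+1) × Δ^(k+1)`; `linExt_dif`.
-/

namespace MM

theorem sum_cancel {M : Type*} [AddCommGroup M] [Module (ZMod 2) M] (s : ℕ) (a : ℕ → ℕ → M)
    (h : ∀ i j, i ≤ j → j ≤ s → a (j + 1) i = a i j) :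
    ∑ i ∈ Finset.range (s + 2), ∑ j ∈ Finset.range (s + 1), a i j = 0 := by
  rw [← Finset.sum_product']
  refine Finset.sum_involution
    (fun p _ => if p.1 ≤ p.2 then (p.2 + 1, p.1) else (p.2, p.1 - 1)) ?_ ?_ ?_ ?_
  · rintro ⟨i, j⟩ hp
    rw [Finset.mem_product, Finset.mem_range, Finset.mem_range] at hp
    obtain ⟨hi, hj⟩ := hp
    dsimp only at hi hj ⊢
    by_cases hij : i ≤ j
    · simp only [if_pos hij]
      rw [h i j hij (by omega)]
      exact two_eq_zero' _
    · simp only [if_neg hij]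
      obtain ⟨i', rfl⟩ : ∃ i', i = i' + 1 := ⟨i - 1, by omega⟩
      rw [Nat.add_sub_cancel, h j i' (by omega) (by omega)]
      exact two_eq_zero' _
  · rintro ⟨i, j⟩ _ _ he
    dsimp only at he
    by_cases hij : i ≤ j
    · simp only [if_pos hij, Prod.mk.injEq] at he
      omega
    · simp only [if_neg hij, Prod.mk.injEq] at he
      omega
  · rintro ⟨i, j⟩ hp
    rw [Finset.mem_product, Finset.mem_range, Finset.mem_range] at hp
    obtain ⟨hi, hj⟩ := hp
    dsimp only at hi hj ⊢
    by_cases hij : i ≤ j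
    · simp only [if_pos hij]
      rw [Finset.mem_product, Finset.mem_range, Finset.mem_range]
      exact ⟨by dsimp only; omega, by dsimp only; omega⟩
    · simp only [if_neg hij]
      rw [Finset.mem_product, Finset.mem_range, Finset.mem_range]
      exact ⟨by dsimp only; omega, by dsimp only; omega⟩
  · rintro ⟨i, j⟩ hp
    dsimp only
    by_cases hij : i ≤ j
    · simp only [if_pos hij]
      rw [if_neg (by omega)]
      simp
    · simp only [if_neg hij]
      rw [if_pos (by omega)]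
      rw [Prod.mk.injEq]
      omega

/-- `[Δ^s] × dif [Δ^(k+1)]` -/
noncomputable def prho (k s N : ℕ) : Ch ((Del s).prod (Del (k + 1))) N :=
  ∑ i : Fin (k + 2), (prismCh s k N).mapDomain
    (fun x : ((Del s).prod (Del k)).S N => ((x.1, (dlt i).comp x.2) :
      ((Del s).prod (Del (k + 1))).S N))

private theorem A110_dlt_mem {m n : ℕ} (i : Fin (n + 2)) (x : Mo m n) :
    (dlt i).comp x ∈ (bd (n + 1)).car m := by
  intro hs
  obtain ⟨t, ht⟩ := hs i
  exact Fin.succAbove_ne i (x t) ht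

theorem rho_supp (k s N : ℕ) : SuppIn (Sub.bx ⊤ (bd (k + 1))) (prho k s N) := by
  classical
  rw [suppIn_iff]
  refine Submodule.sum_mem _ fun i _ => ?_
  rw [← suppIn_iff]
  intro x hx
  have h' := Finsupp.mapDomain_support hx
  obtain ⟨y, _, rfl⟩ := Finset.mem_image.1 h'
  exact ⟨trivial, A110_dlt_mem i y.2⟩

theorem rho_zero (k N : ℕ) : dif (prismCh 0 (k + 1) (N + 1)) = prho k 0 N :=
  dif_prismCh_zero_left k N

/-- push forward along a coface in the first factor -/
private noncomputable def A110_D (k s N : ℕ) (θ : Mo s (s + 1)) :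
    Ch ((Del s).prod (Del (k + 1))) N →+ Ch ((Del (s + 1)).prod (Del (k + 1))) N :=
  Finsupp.mapDomain.addMonoidHom (fun x : ((Del s).prod (Del (k + 1))).S N => ((θ.comp x.1, x.2) :
        ((Del (s + 1)).prod (Del (k + 1))).S N))

private theorem A110_dif_D (k s N : ℕ) (θ : Mo s (s + 1))
    (c : Ch ((Del s).prod (Del (k + 1))) (N + 1)) :
    dif (A110_D k s (N + 1) θ c) = A110_D k s N θ (dif c) := by
  rw [dif, dif, map_sum]
  refine Finset.sum_congr rfl fun i _ => ?_
  show Finsupp.mapDomain _ (Finsupp.mapDomain _ c) = Finsupp.mapDomain _ (Finsupp.mapDomain _ c)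
  rw [← Finsupp.mapDomain_comp, ← Finsupp.mapDomain_comp]
  rfl

private theorem A110_DD (k s N : ℕ) (c : Ch ((Del s).prod (Del (k + 1))) N) :
    ∑ i : Fin (s + 3), A110_D k (s + 1) N (dlt i) (∑ j : Fin (s + 2), A110_D k s N (dlt j) c) =
      0 := by
  have h1 : ∀ i : Fin (s + 3), A110_D k (s + 1) N (dlt i)
      (∑ j : Fin (s + 2), A110_D k s N (dlt j) c) =
      ∑ j ∈ Finset.range (s + 2), A110_D k (s + 1) N (dlt i) (A110_D k s N (dl s j) c) := by
    intro i
    rw [map_sum]
    exact sum_dl (fun θ => A110_D k (s + 1) N (dlt i) (A110_D k s N θ c))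
  rw [Finset.sum_congr rfl fun i _ => h1 i]
  rw [sum_dl (s := s + 1) (fun η => ∑ j ∈ Finset.range (s + 2),
    A110_D k (s + 1) N η (A110_D k s N (dl s j) c))]
  refine sum_cancel (s + 1) (fun i j => A110_D k (s + 1) N (dl (s + 1) i) (A110_D k s N (dl s j) c))
    fun i j hij hj => ?_
  have h2 : ∀ (η : Mo (s + 1) (s + 2)) (θ : Mo s (s + 1)),
      A110_D k (s + 1) N η (A110_D k s N θ c) = Finsupp.mapDomain
        (fun x : ((Del s).prod (Del (k + 1))).S N => (((η.comp θ).comp x.1, x.2) :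
        ((Del (s + 2)).prod (Del (k + 1))).S N)) c := by
    intro η θ
    show Finsupp.mapDomain _ (Finsupp.mapDomain _ c) = _
    rw [← Finsupp.mapDomain_comp]
    rfl
  show A110_D k (s + 1) N (dl (s + 1) (j + 1)) (A110_D k s N (dl s i) c) =
    A110_D k (s + 1) N (dl (s + 1) i) (A110_D k s N (dl s j) c)
  rw [h2, h2, dl_dl hij hj]

theorem dif_rho (k s N : ℕ) :
    dif (prho k (s + 1) (N + 1)) = ∑ i : Fin (s + 2), (prho k s N).mapDomain
      (fun x : ((Del s).prod (Del (k + 1))).S N => (((dlt i).comp x.1, x.2) :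
        ((Del (s + 1)).prod (Del (k + 1))).S N)) := by
  show dif (prho k (s + 1) (N + 1)) = ∑ i : Fin (s + 2), A110_D k s N (dlt i) (prho k s N)
  have h1 : dif (prismCh (s + 1) (k + 1) (N + 2)) =
      ∑ i : Fin (s + 2), A110_D k s (N + 1) (dlt i) (prismCh s (k + 1) (N + 1)) +
        prho k (s + 1) (N + 1) := dif_prismCh s k (N + 1)
  have h2 := dif_dif (prismCh (s + 1) (k + 1) (N + 2))
  rw [h1, dif_add] at h2
  have h3 : dif (∑ i : Fin (s + 2), A110_D k s (N + 1) (dlt i) (prismCh s (k + 1) (N + 1))) =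
      ∑ i : Fin (s + 2), A110_D k s N (dlt i) (dif (prismCh s (k + 1) (N + 1))) := by
    rw [← lin_d, map_sum]
    refine Finset.sum_congr rfl fun i _ => ?_
    rw [lin_d, A110_dif_D]
  rw [h3] at h2
  have h4 : ∑ i : Fin (s + 2), A110_D k s N (dlt i) (dif (prismCh s (k + 1) (N + 1))) =
      ∑ i : Fin (s + 2), A110_D k s N (dlt i) (prho k s N) := by
    cases s with
    | zero => rw [rho_zero]
    | succ s =>
      have h5 : dif (prismCh (s + 1) (k + 1) (N + 1)) =
          ∑ i : Fin (s + 2), A110_D k s N (dlt i) (prismCh s (k + 1) N) + prho k (s + 1) N :=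
        dif_prismCh s k N
      rw [h5]
      simp only [map_add, Finset.sum_add_distrib]
      rw [A110_DD, zero_add]
  rw [h4] at h2
  have h6 := two_eq_zero' (∑ i : Fin (s + 2), A110_D k s N (dlt i) (prho k s N))
  exact (add_left_cancel (h6.trans h2.symm)).symm

namespace Tower

/-- the obstruction chain -/
noncomputable def ob (T : Tower) (k n : ℕ) (f F : ∀ s, Fn ((Del s).prod (Del (k + 1))) (T.W s).ss) :
    (T.W (n + 1)).V (n + k + 1) :=
  ∑ i ∈ Finset.range (n + 2), linExt (fun m p => (T.d n i).app m (F n m p)) (n + k + 1)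
      (prismCh n (k + 1) (n + k + 1)) +
    linExt (f (n + 1)) (n + k + 1) (prho k (n + 1) (n + k + 1))

variable (T : Tower) {k n : ℕ} {f F : ∀ s, Fn ((Del s).prod (Del (k + 1))) (T.W s).ss}

theorem ob_eq {b : Fn ((Del (n + 1)).prod (Del (k + 1))) (T.W (n + 1)).ss}
    (hb : T.Glue (bd (k + 1)) ⊤ f n F b) :
    linExt b (n + k + 1) (dif (prismCh (n + 1) (k + 1) (n + k + 2))) = T.ob k n f F := by
  have h1 : dif (prismCh (n + 1) (k + 1) (n + k + 2)) =
      ∑ i : Fin (n + 2), (prismCh n (k + 1) (n + k + 1)).mapDomain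
        (fun x : ((Del n).prod (Del (k + 1))).S (n + k + 1) => (((dlt i).comp x.1, x.2) :
          ((Del (n + 1)).prod (Del (k + 1))).S (n + k + 1))) + prho k (n + 1) (n + k + 1) :=
    dif_prismCh n k (n + k + 1)
  rw [h1, map_add, map_sum, ob]
  congr 1
  · rw [sum_dl (s := n) (fun θ => linExt b (n + k + 1) ((prismCh n (k + 1) (n + k + 1)).mapDomain
        (fun x : ((Del n).prod (Del (k + 1))).S (n + k + 1) => ((θ.comp x.1, x.2) :
          ((Del (n + 1)).prod (Del (k + 1))).S (n + k + 1)))))]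
    refine Finset.sum_congr rfl fun i hi => ?_
    show Finsupp.linearCombination _ _ (Finsupp.mapDomain _ _) = Finsupp.linearCombination _ _ _
    rw [Finsupp.linearCombination_mapDomain]
    congr 2
    funext x
    exact hb.d i (n + k + 1) x.1 x.2 (by have := Finset.mem_range.1 hi; omega) trivial
  · refine linExt_congr (A := Sub.bx ⊤ (bd (k + 1))) (fun x hx => ?_) (rho_supp k (n + 1) _)
    exact hb.ext (n + k + 1) x.1 x.2 hx.2

theorem ob_σ (hf : T.Fam (bd (k + 1)) f) (hF : T.Stage (bd (k + 1)) ⊤ f n F) (j : ℕ) (hj : j ≤ n) :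
    (T.σ n j).app (n + k + 1) (T.ob k n f F) ∈ (T.W n).B (n + k + 1) := by
  obtain ⟨b, hb⟩ := T.exists_glue (Sub.le_top' _) hf hF
  rw [← T.ob_eq hb]
  have hG : NatOn (⊤ : Sub ((Del (n + 1)).prod (Del (k + 1))))
      (fun m p => F n m ((sg n j).comp p.1, p.2) :
        Fn ((Del (n + 1)).prod (Del (k + 1))) (T.W n).ss) := by
    intro m m' g x _
    exact hF.nat n le_rfl g ((sg n j).comp x.1, x.2) ⟨trivial, trivial⟩
  have h1 := genBy_prism (n + 1) (k + 1) (n + k + 1) (by omega)
  have h2 : (T.σ n j).app (n + k + 1)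
      (linExt b (n + k + 1) (dif (prismCh (n + 1) (k + 1) (n + k + 2)))) =
      linExt (fun m p => F n m ((sg n j).comp p.1, p.2) :
        Fn ((Del (n + 1)).prod (Del (k + 1))) (T.W n).ss) (n + k + 1)
        (dif (prismCh (n + 1) (k + 1) (n + k + 2))) := by
    rw [linExt_apply, linExt_apply, map_finsuppSum]
    refine Finset.sum_congr rfl fun x hx => ?_
    show (T.σ n j).app (n + k + 1) (_ • b (n + k + 1) x) = _ • _
    rw [map_smul]
    congr 1
    exact hb.σ j (n + k + 1) x.1 x.2 hj (h1.2.1 x hx)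
  rw [h2, linExt_dif hG (SuppIn.top _)]
  exact ⟨_, rfl⟩

end Tower

end MM
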