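import Pool.Agent.Lib_MP_33f7bb_d.A109
import Pool.Agent.Lib_MP_33f7bb_d.A110

/-!
# A1-11: the obstruction class is a cocycle

`ob_cocycle`.  Let `b` be from `exists_glue`, `z = dif (prismCh (n+1) (k+1) (n+k+2))`, so
`linExt b z = T.ob k n f F` (`ob_eq`).  `b` vanishes at the vertex `(0,0)`: `Glue.ext`, `hbase` (the
vertex `cst 0` of `Δ^(k+1)` is in the boundary).  By `Tower.del_class`,
`del u + ∑_(i ≤ n+2) linExt (d^i ∘ b) z` is a boundary.  It remains to see that
`S = ∑_i linExt (d^i ∘ b) z` is a boundary.  `dif_prismCh` (as in the proof of `ob_eq`, now for the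
functions `d^i ∘ b`): `S = ∑_i ∑_(j ≤ n+1) linExt (d^i ∘ d^j ∘ F n) (prismCh n (k+1) (n+k+1)) +
∑_i linExt (d^i ∘ f (n+1)) (prho k (n+1) (n+k+1))`.  The double sum is `0` by `sum_cancel` and `dd`.
The second sum is `linExt (f (n+2)) (∑_i (prho k (n+1) _).mapDomain ((dl i) × 1))` (`Fam.d`) =
`linExt (f (n+2)) (dif (prho k (n+2) (n+k+2)))` (`dif_rho`), a boundary by `linExt_dif` and `rho_supp`.

`ob0_cocycle`: the same with `s = 0`, `b = f 0` restricted to the boundary of `Δ^0 × Δ^(k+1)` (which is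
`bx ⊤ (bd (k+1))`, `bd 0` is empty), `dif (prismCh 0 (k+1) (k+1)) = prho k 0 k` (`rho_zero`),
`∑_(i ≤ 1) linExt (d^i ∘ f 0) (prho k 0 k) = linExt (f 1) (dif (prho k 1 (k+1)))`.
`ob0_cocycle_zero`: `k = 0`: no Moore representative is needed, `u = linExt (f 0) 0 (prho 0 0 0)` and
`prho 0 0 0` is the sum of the two vertices `(0, cst 0)`, `(0, cst 1)`; `f 0` vanishes at the first, so
`u = f 0 0 (id, cst 1)` and `del u = d^0 u + d^1 u` is the boundary of the edge `f 1 1 (id, cst 1)`.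
-/

namespace MM

private theorem A111_cancel {M : Type*} [AddCommGroup M] [Module (ZMod 2) M]
    (B : Submodule (ZMod 2) M) {x y : M} (h1 : x + y ∈ B) (h2 : y ∈ B) : x ∈ B := by
  have := B.sub_mem h1 h2
  rwa [add_sub_cancel_right] at this

private theorem A111_map {P P' : SS} {W : SV} (f : Fn P W.ss) (g : Fn P' W.ss) {n : ℕ}
    (φ : P'.S n → P.S n) (c : Ch P' n) (h : ∀ x ∈ c.support, f n (φ x) = g n x) :
    linExt f n (c.mapDomain φ) = linExt g n c := by
  rw [linExt_apply, linExt_apply, Finsupp.sum_mapDomain_index (by simp)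
    (by intros; rw [add_smul])]
  exact Finset.sum_congr rfl fun x hx => by
    show c x • f n (φ x) = c x • g n x
    rw [h x hx]

private theorem A111_cst_mem (k : ℕ) (m : ℕ) (i : Fin (k + 2)) :
    (cst i : Mo m (k + 1)) ∈ (bd (k + 1)).car m := by
  intro hs
  have h0 : ∀ y : Fin (k + 2), y = i := fun y => by
    obtain ⟨z, hz⟩ := hs y
    exact hz.symm
  have h1 := h0 0
  have h2 := h0 1
  rw [← h2] at h1
  exact absurd h1 (by
    intro h
    have := congrArg Fin.val h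
    simp at this)

private theorem A111_prism0 :
    prismCh 0 0 0 = Finsupp.single ((cst 0, cst 0) : Mo 0 0 × Mo 0 0) 1 := by
  have hsub : Subsingleton (Mo 0 0) := ⟨fun a b => by
    ext x
    have h1 := (a x).2
    have h2 := (b x).2
    omega⟩
  refine Finsupp.ext fun x => ?_
  rw [prismCh_apply]
  have hx : x = ((cst 0, cst 0) : Mo 0 0 × Mo 0 0) :=
    Prod.ext (Subsingleton.elim _ _) (Subsingleton.elim _ _)
  rw [hx, Finsupp.single_eq_same, if_pos]
  refine ⟨rfl, fun i => ?_⟩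
  have := i.2
  show (0 : ℕ) + 0 = (i : ℕ)
  omega

private theorem A111_rho0 {W : SV} (g : Fn ((Del 0).prod (Del 1)) W.ss) :
    linExt g 0 (prho 0 0 0) = (g 0 ((cst 0, cst 1) : Mo 0 0 × Mo 0 1) +
      g 0 ((cst 0, cst 0) : Mo 0 0 × Mo 0 1) : W.V 0) := by
  have h0 : (dlt (0 : Fin 2)).comp (cst 0 : Mo 0 0) = (cst 1 : Mo 0 1) := by
    ext x
    show ((Fin.succAbove (0 : Fin 2) (0 : Fin 1) : Fin 2) : ℕ) = ((1 : Fin 2) : ℕ)
    simp
  have h1 : (dlt (1 : Fin 2)).comp (cst 0 : Mo 0 0) = (cst 0 : Mo 0 1) := by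
    ext x
    show ((Fin.succAbove (1 : Fin 2) (0 : Fin 1) : Fin 2) : ℕ) = ((0 : Fin 2) : ℕ)
    simp
  unfold prho
  rw [Fin.sum_univ_two, map_add, A111_prism0, Finsupp.mapDomain_single, Finsupp.mapDomain_single,
    linExt_single, linExt_single, one_smul, one_smul]
  show (g 0 ((cst 0, (dlt (0 : Fin 2)).comp (cst 0 : Mo 0 0)) : Mo 0 0 × Mo 0 1) +
    g 0 ((cst 0, (dlt (1 : Fin 2)).comp (cst 0 : Mo 0 0)) : Mo 0 0 × Mo 0 1) : W.V 0) = _
  rw [h0, h1]

namespace Tower

variable (T : Tower) {k n : ℕ} {f F : ∀ s, Fn ((Del s).prod (Del (k + 1))) (T.W s).ss}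

private theorem A111_rhoB (hf : T.Fam (bd (k + 1)) f) (s N : ℕ) :
    (∑ i ∈ Finset.range (s + 2), linExt (fun m p => (T.d s i).app m (f s m p)) N (prho k s N) :
      (T.W (s + 1)).V N) ∈ (T.W (s + 1)).B N := by
  have h1 : (∑ i ∈ Finset.range (s + 2), linExt (fun m p => (T.d s i).app m (f s m p)) N
      (prho k s N) : (T.W (s + 1)).V N) = linExt (f (s + 1)) N (dif (prho k (s + 1) (N + 1))) := by
    rw [dif_rho, map_sum, Finset.sum_range]
    refine Finset.sum_congr rfl fun i _ => ?_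
    symm
    refine A111_map (f (s + 1)) (fun m p => (T.d s i).app m (f s m p)) _ _ fun x hx => ?_
    have h2 := hf.d s i.1 N x.1 x.2 (rho_supp k s N x hx).2 (by have := i.2; omega)
    rw [dl_eq i.2] at h2
    exact h2
  rw [h1, linExt_dif (hf.nat (s + 1)) (rho_supp k (s + 1) (N + 1))]
  exact LinearMap.mem_range_self _ _

theorem ob_cocycle (hf : T.Fam (bd (k + 1)) f) (hF : T.Stage (bd (k + 1)) ⊤ f n F)
    (hbase : ∀ s, f s 0 ((cst 0, cst 0) : Mo 0 s × Mo 0 (k + 1)) = 0)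
    (u : (T.W (n + 1)).V (n + k + 1)) (hu : (T.W (n + 1)).Moore u)
    (hou : u + T.ob k n f F ∈ (T.W (n + 1)).B (n + k + 1)) :
    T.del (n + 1) (n + k + 1) u ∈ (T.W (n + 2)).B (n + k + 1) := by
  obtain ⟨b, hb⟩ := T.exists_glue (Sub.le_top' (bd (k + 1))) hf hF
  have b0 : b 0 ((cst 0, cst 0) : Mo 0 (n + 1) × Mo 0 (k + 1)) = 0 := by
    rw [hb.ext 0 (cst 0) (cst 0) (A111_cst_mem k 0 0)]
    exact hbase (n + 1)
  have hob := T.ob_eq hb
  have h1 := T.del_class (s := n + 1) (k := k + 1) (n := n + k + 1) (by omega) (by omega) b hb.nat b0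
    u hu (by rw [← hob] at hou; exact hou)
  have key : (∑ i ∈ Finset.range (n + 1 + 2),
      linExt (fun m p => (T.d (n + 1) i).app m (b m p)) (n + k + 1)
        (dif (prismCh (n + 1) (k + 1) (n + k + 1 + 1))) : (T.W (n + 2)).V (n + k + 1)) ∈
      (T.W (n + 2)).B (n + k + 1) := by
    have e1 : ∀ i ∈ Finset.range (n + 1 + 2),
        (linExt (fun m p => (T.d (n + 1) i).app m (b m p)) (n + k + 1)
          (dif (prismCh (n + 1) (k + 1) (n + k + 1 + 1))) : (T.W (n + 2)).V (n + k + 1)) =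
        ∑ j ∈ Finset.range (n + 1 + 1),
          linExt (fun m p => (T.d (n + 1) i).app m ((T.d n j).app m (F n m p))) (n + k + 1)
            (prismCh n (k + 1) (n + k + 1)) +
        linExt (fun m p => (T.d (n + 1) i).app m (f (n + 1) m p)) (n + k + 1)
          (prho k (n + 1) (n + k + 1)) := by
      intro i _
      rw [dif_prismCh, map_add, map_sum]
      congr 1
      · rw [Finset.sum_range]
        refine Finset.sum_congr rfl fun j _ => ?_
        refine A111_map (fun m p => (T.d (n + 1) i).app m (b m p))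
          (fun m p => (T.d (n + 1) i).app m ((T.d n j).app m (F n m p))) _ _ fun x _ => ?_
        have h2 := hb.d j.1 (n + k + 1) x.1 x.2 (by have := j.2; omega) trivial
        rw [dl_eq j.2] at h2
        show (T.d (n + 1) i).app _ (b _ _) = _
        rw [← h2]
      · exact linExt_congr (A := Sub.bx ⊤ (bd (k + 1))) (fun x hx => by
          show (T.d (n + 1) i).app _ (b _ x) = (T.d (n + 1) i).app _ (f (n + 1) _ x)
          have h3 := hb.ext (n + k + 1) x.1 x.2 hx.2
          rw [show x = (x.1, x.2) from rfl, h3]) (rho_supp k (n + 1) (n + k + 1))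
    rw [Finset.sum_congr rfl e1, Finset.sum_add_distrib, sum_cancel (n + 1) (fun i j =>
      (linExt (fun m p => (T.d (n + 1) i).app m ((T.d n j).app m (F n m p))) (n + k + 1)
        (prismCh n (k + 1) (n + k + 1)) : (T.W (n + 2)).V (n + k + 1))) ?_, zero_add]
    · exact T.A111_rhoB hf (n + 1) (n + k + 1)
    · intro i j hij hj
      have e2 : (fun (m : ℕ) (p : ((Del n).prod (Del (k + 1))).S m) =>
          (T.d (n + 1) (j + 1)).app m ((T.d n i).app m (F n m p))) =
          fun m p => (T.d (n + 1) i).app m ((T.d n j).app m (F n m p)) := by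
        funext m p
        exact T.dd n i j m _ hij hj
      show linExt (fun m p => (T.d (n + 1) (j + 1)).app m ((T.d n i).app m (F n m p))) _ _ = _
      rw [e2]
  exact A111_cancel _ h1 key

theorem ob0_cocycle (hf : T.Fam (bd (k + 1)) f)
    (hbase : ∀ s, f s 0 ((cst 0, cst 0) : Mo 0 s × Mo 0 (k + 1)) = 0) (hk : 1 ≤ k)
    (u : (T.W 0).V k) (hu : (T.W 0).Moore u)
    (hou : u + linExt (f 0) k (prho k 0 k) ∈ (T.W 0).B k) :
    T.del 0 k u ∈ (T.W 1).B k := by
  have hb : NatOn (Sub.box (bd 0) ⊤ (bd (k + 1)) ⊤) (f 0) := by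
    intro m n g x hx
    refine hf.nat 0 g x ⟨trivial, ?_⟩
    rcases hx.2 with h | h
    · refine absurd (fun y => ?_) h
      refine ⟨0, ?_⟩
      apply Fin.ext
      have h1 := y.2
      have h2 := (x.1 0).2
      omega
    · exact h
  have h1 := T.del_class (s := 0) (k := k + 1) (n := k) (by omega) hk (f 0) hb (hbase 0) u hu
    (by rw [rho_zero]; exact hou)
  rw [rho_zero] at h1
  exact A111_cancel _ h1 (T.A111_rhoB hf 0 k)

theorem ob0_cocycle_zero {f : ∀ s, Fn ((Del s).prod (Del 1)) (T.W s).ss} (hf : T.Fam (bd 1) f)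
    (hbase : ∀ s, f s 0 ((cst 0, cst 0) : Mo 0 s × Mo 0 1) = 0) :
    T.del 0 0 (linExt (f 0) 0 (prho 0 0 0)) ∈ (T.W 1).B 0 := by
  have h1 := T.A111_rhoB hf 0 0
  have h2 : T.del 0 0 (linExt (f 0) 0 (prho 0 0 0)) =
      (∑ i ∈ Finset.range (0 + 2), linExt (fun m p => (T.d 0 i).app m (f 0 m p)) 0 (prho 0 0 0) :
      (T.W (0 + 1)).V 0) := by
    unfold Tower.del
    refine Finset.sum_congr rfl fun i _ => ?_
    rw [A111_rho0, A111_rho0, hbase 0]
    show (T.d 0 i).app 0 ((f 0 0 ((cst 0, cst 1) : Mo 0 0 × Mo 0 1) : (T.W 0).V 0) + 0 :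
      (T.W 0).V 0) = ((T.d 0 i).app 0 (f 0 0 ((cst 0, cst 1) : Mo 0 0 × Mo 0 1)) +
        (T.d 0 i).app 0 (0 : (T.W 0).V 0) : (T.W 1).V 0)
    rw [T.d_zero]
    show _ = ((T.d 0 i).app 0 (f 0 0 ((cst 0, cst 1) : Mo 0 0 × Mo 0 1)) + 0 : (T.W 1).V 0)
    rw [add_zero, add_zero]
  rw [h2]
  exact h1

end Tower

end MM
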