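import Pool.Agent.Lib_MP_33f7bb_d.A102
import Pool.Agent.Lib_MP_33f7bb_d.A103
import Pool.Agent.Lib_MP_33f7bb_d.A110

/-!
# A1-12: changing the last function of a stage

`a` a normalised Moore cycle of `(W n)_(n+k+1)`.  Let `τ` be a maximal chain of `Δ^n × Δ^(k+1)`
(`prismCh_ne_zero`, `prismCh_apply`), `α = ` the bump map (`exists_bump` for `L = ⊤`, `nonDeg_prod_le`,
`nonDeg_prod_top`): `α τ = a`, `α = 0` on all other maximal chains, on the boundary
`Sub.box (bd n) ⊤ (bd (k+1)) ⊤` (`maxChain_notMem`), and all values are in the subobject `T.N n`.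
`F' := Function.update F n (F n + α)`.

`Stage`: naturality clear; `d` (between `n - 1` and `n`): `α ((dl (n-1) i).comp θ, x) = 0` since the
simplex is in the boundary; `σ` (between `n - 1` and `n`): `σ^j (α _) = 0` (`mem_N`); `ext`: `α = 0` on
`Δ^n × ∂Δ^(k+1)`.

Change of the obstruction: only the terms `linExt (d^i ∘ F n) (prismCh ..)` change, by
`∑_(x maximal chain) (d^i (F n x + α x) + d^i (F n x)) = d^i (F n τ + a) + d^i (F n τ)`
(write `linExt` as sum over the support).  For `i ≥ 1` this is `d^i a` (`d_add`).  For `i = 0` it is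
`d^0 a + cr(F n τ, a)`, and the cross effect is a boundary by `cr_vertex`: the vertex `0` of `F n τ` is
`F n (act (cst 0) τ) = F n (cst 0, cst 0) = f n (cst 0, cst 0) = 0` (`Stage.ext`, `hbase`; a maximal
chain starts at `(0,0)`).
-/

namespace MM

/-- two functions which differ only at `τ` -/
private theorem A112_lin {P : SS} {W : SV} {n : ℕ} (g₁ g₂ : Fn P W.ss) (z : Ch P n) (τ : P.S n)
    (hτ : z τ = 1) (h : ∀ x, x ≠ τ → g₁ n x = g₂ n x) :
    linExt g₁ n z + linExt g₂ n z = (g₁ n τ + g₂ n τ : W.V n) := by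
  classical
  rw [linExt_apply, linExt_apply, Finsupp.sum, Finsupp.sum, ← Finset.sum_add_distrib,
    Finset.sum_eq_single τ]
  · rw [hτ, one_smul, one_smul]
  · intro x _ hx
    have h1 : (g₁ n x : W.V n) = g₂ n x := h x hx
    rw [h1]
    exact two_eq_zero' _
  · intro hn
    exfalso
    apply hn
    rw [Finsupp.mem_support_iff, hτ]
    exact one_ne_zero

namespace Tower

theorem ob_change (T : Tower) {k n : ℕ} {f F : ∀ s, Fn ((Del s).prod (Del (k + 1))) (T.W s).ss}
    (hf : T.Fam (bd (k + 1)) f) (hF : T.Stage (bd (k + 1)) ⊤ f n F)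
    (hbase : ∀ s, f s 0 ((cst 0, cst 0) : Mo 0 s × Mo 0 (k + 1)) = 0)
    (a : (T.W n).V (n + k + 1)) (ha : (T.W n).Moore a) (haN : (T.cov (n + k + 1)).Nrm n a) :
    ∃ F' : ∀ s, Fn ((Del s).prod (Del (k + 1))) (T.W s).ss, T.Stage (bd (k + 1)) ⊤ f n F' ∧
      (∀ s, s < n → F' s = F s) ∧
      (T.ob k n f F' + T.ob k n f F + T.del n (n + k + 1) a : (T.W (n + 1)).V (n + k + 1)) ∈
        (T.W (n + 1)).B (n + k + 1) := by
  classical
  obtain ⟨τ, hτ1⟩ := prismCh_ne_zero n (k + 1)
  change ((Del n).prod (Del (k + 1))).S (n + k + 1) at τ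
  change prismCh n (k + 1) (n + k + 1) τ = 1 at hτ1
  have hτ2 : ∀ i, ((τ.1 i : ℕ) + (τ.2 i : ℕ) = (i : ℕ)) := by
    have h1 := prismCh_apply n (k + 1) (n + k + 1) τ
    rw [hτ1] at h1
    by_contra hcon
    rw [if_neg (fun h => hcon h.2)] at h1
    exact one_ne_zero h1
  have hND : NonDeg (P := (Del n).prod (Del (k + 1))) τ :=
    (nonDeg_prod_top (by omega) τ).2 hτ2
  have hbox : τ ∉ (Sub.box (bd n) ⊤ (bd (k + 1)) ⊤).car (n + k + 1) :=
    maxChain_notMem (by omega) τ hτ2
  obtain ⟨α, hα1, hα2, hα3, -, hα5, hα6⟩ := exists_bump (P := (Del n).prod (Del (k + 1))) ⊤ τ hND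
    (fun m x _ hx => by
      have := nonDeg_prod_le x hx
      omega) a ha
  have hα0 : ∀ (m : ℕ) (θ : Mo m n) (x : Mo m (k + 1)),
      (¬ Function.Surjective θ ∨ ¬ Function.Surjective x) → (α m (θ, x) : (T.W n).V m) = 0 := by
    intro m θ x h
    exact hα5 _ hbox m (θ, x) ⟨⟨trivial, trivial⟩, h⟩
  have hαN : ∀ (m : ℕ) (p : ((Del n).prod (Del (k + 1))).S m), (T.cov m).Nrm n (α m p) := by
    intro m p
    rw [← T.mem_N]
    exact hα6 (T.N n) ((T.mem_N n _ a).2 haN) m p
  let G : Fn ((Del n).prod (Del (k + 1))) (T.W n).ss := fun m p => (F n m p + α m p : (T.W n).V m)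
  have hG0 : ∀ (m : ℕ) (θ : Mo m n) (x : Mo m (k + 1)),
      (¬ Function.Surjective θ ∨ ¬ Function.Surjective x) → G m (θ, x) = F n m (θ, x) := by
    intro m θ x h
    show (F n m (θ, x) + α m (θ, x) : (T.W n).V m) = F n m (θ, x)
    rw [hα0 m θ x h, add_zero]
  have hFn : (Function.update F n G : ∀ s, Fn ((Del s).prod (Del (k + 1))) (T.W s).ss) n = G :=
    Function.update_self _ _ _
  have hFs : ∀ s, s ≠ n →
      (Function.update F n G : ∀ s, Fn ((Del s).prod (Del (k + 1))) (T.W s).ss) s = F s :=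
    fun s hs => Function.update_of_ne hs _ _
  refine ⟨Function.update F n G, ⟨?_, ?_, ?_, ?_⟩, fun s hs => hFs s (by omega), ?_⟩
  · intro s hs
    rcases eq_or_ne s n with h | h
    · subst h
      rw [hFn]
      intro m m' g x hx
      show (F s m _ + α m _ : (T.W s).V m) = (T.W s).act g (F s m' x + α m' x : (T.W s).V m')
      rw [map_add]
      have h1 := hF.nat s le_rfl g x hx
      have h2 := hα1 g x trivial
      exact congrArg₂ (fun u v : (T.W s).V m => u + v) h1 h2
    · rw [hFs s h]
      exact hF.nat s hs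
  · intro s hs i m θ x hx hi
    rw [hFs s (by omega)]
    rcases eq_or_ne (s + 1) n with h | h
    · subst h
      rw [hFn, hG0 m _ x (Or.inl ?_)]
      · exact hF.d s hs i m θ x hx hi
      · intro hsur
        obtain ⟨t, ht⟩ := hsur ⟨i, by omega⟩
        have h1 := congrArg Fin.val ht
        have h2 : ((dl s i) (θ t)).1 = i := h1
        rw [dl_val] at h2
        split_ifs at h2 <;> omega
    · rw [hFs (s + 1) h]
      exact hF.d s hs i m θ x hx hi
  · intro s hs j m θ x hx hj
    rw [hFs s (by omega)]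
    rcases eq_or_ne (s + 1) n with h | h
    · subst h
      rw [hFn]
      show _ = (T.σ s j).app m (F (s + 1) m (θ, x) + α m (θ, x) : (T.W (s + 1)).V m)
      rw [map_add]
      have h1 : (T.σ s j).app m (α m (θ, x)) = 0 := hαN m (θ, x) j hj
      rw [h1, add_zero]
      exact hF.σ s hs j m θ x hx hj
    · rw [hFs (s + 1) h]
      exact hF.σ s hs j m θ x hx hj
  · intro s hs m θ x hx
    rcases eq_or_ne s n with h | h
    · subst h
      rw [hFn, hG0 m θ x (Or.inr hx)]
      exact hF.ext s le_rfl m θ x hx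
    · rw [hFs s h]
      exact hF.ext s hs m θ x hx
  · -- the change of the obstruction
    have hv : (T.W n).act (cst 0 : Mo 0 (n + k + 1)) (F n (n + k + 1) τ) = 0 := by
      have h1 := hF.nat n le_rfl (cst 0 : Mo 0 (n + k + 1)) τ ⟨trivial, trivial⟩
      have h2 : ((Del n).prod (Del (k + 1))).act (cst 0 : Mo 0 (n + k + 1)) τ =
          ((cst 0, cst 0) : Mo 0 n × Mo 0 (k + 1)) := by
        have h3 := hτ2 0
        have h4 : τ.1 0 = 0 := Fin.ext (by
          have : (((0 : Fin (n + k + 1 + 1)) : ℕ)) = 0 := rfl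
          rw [this] at h3
          show (τ.1 0 : ℕ) = 0
          omega)
        have h5 : τ.2 0 = 0 := Fin.ext (by
          have : (((0 : Fin (n + k + 1 + 1)) : ℕ)) = 0 := rfl
          rw [this] at h3
          show (τ.2 0 : ℕ) = 0
          omega)
        show ((τ.1.comp (cst 0), τ.2.comp (cst 0)) : Mo 0 n × Mo 0 (k + 1)) = _
        rw [comp_cst, comp_cst, h4, h5]
      rw [h2] at h1
      have h6 : (cst 0 : Mo 0 (k + 1)) ∈ (bd (k + 1)).car 0 := by
        intro hsur
        obtain ⟨t, ht⟩ := hsur (Fin.last _)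
        have h7 : (0 : Fin (k + 1 + 1)) = Fin.last (k + 1) := ht
        exact absurd (congrArg Fin.val h7) (by simp)
      have h8 := hF.ext n le_rfl 0 (cst 0) (cst 0) h6
      rw [h8, hbase n] at h1
      exact h1.symm
    have hterm : ∀ i ∈ Finset.range (n + 2),
        (linExt (fun m p => (T.d n i).app m (G m p)) (n + k + 1) (prismCh n (k + 1) (n + k + 1)) +
          linExt (fun m p => (T.d n i).app m (F n m p)) (n + k + 1)
            (prismCh n (k + 1) (n + k + 1)) +
          (T.d n i).app (n + k + 1) a : (T.W (n + 1)).V (n + k + 1)) ∈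
          (T.W (n + 1)).B (n + k + 1) := by
      intro i hi
      rw [Finset.mem_range] at hi
      have h1 := A112_lin (W := T.W (n + 1)) (fun m p => (T.d n i).app m (G m p))
        (fun m p => (T.d n i).app m (F n m p)) (prismCh n (k + 1) (n + k + 1)) τ hτ1 (by
          intro x hx
          show (T.d n i).app _ (F n _ x + α _ x : (T.W n).V (n + k + 1)) = _
          have h2 : (α (n + k + 1) x : (T.W n).V (n + k + 1)) = 0 := hα3 x trivial hx
          rw [h2, add_zero])
      rw [h1]
      have h3 : G (n + k + 1) τ = (F n (n + k + 1) τ + a : (T.W n).V (n + k + 1)) := by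
        show (F n (n + k + 1) τ + α (n + k + 1) τ : (T.W n).V (n + k + 1)) = _
        rw [hα2]
      show ((T.d n i).app (n + k + 1) (G (n + k + 1) τ) +
        (T.d n i).app (n + k + 1) (F n (n + k + 1) τ) +
        (T.d n i).app (n + k + 1) a : (T.W (n + 1)).V (n + k + 1)) ∈ _
      rw [h3]
      rcases Nat.eq_zero_or_pos i with h0 | h0
      · subst h0
        exact cr_vertex (T.d n 0) (fun m => T.d_zero n 0 m) hv ha
      · rw [T.d_add n i _ _ _ h0 (by omega)]
        have h4 : ∀ u v : (T.W (n + 1)).V (n + k + 1), u + v + u + v = 0 := by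
          intro u v
          have : u + v + u + v = (u + u) + (v + v) := by abel
          rw [this, two_eq_zero', two_eq_zero', add_zero]
        rw [h4]
        exact Submodule.zero_mem _
    have hsum := Submodule.sum_mem _ hterm
    rw [Finset.sum_add_distrib, Finset.sum_add_distrib] at hsum
    have hob : (T.ob k n f (Function.update F n G) + T.ob k n f F + T.del n (n + k + 1) a :
        (T.W (n + 1)).V (n + k + 1)) =
        ∑ i ∈ Finset.range (n + 2), linExt (fun m p => (T.d n i).app m (G m p)) (n + k + 1)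
            (prismCh n (k + 1) (n + k + 1)) +
          ∑ i ∈ Finset.range (n + 2), linExt (fun m p => (T.d n i).app m (F n m p)) (n + k + 1)
            (prismCh n (k + 1) (n + k + 1)) +
          ∑ i ∈ Finset.range (n + 2), ((T.d n i).app (n + k + 1) a : (T.W (n + 1)).V (n + k + 1)) := by
      unfold ob
      rw [hFn]
      unfold del
      have h4 : ∀ u v w r : (T.W (n + 1)).V (n + k + 1), u + r + (v + r) + w = u + v + w := by
        intro u v w r
        have : u + r + (v + r) + w = u + v + w + (r + r) := by abel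
        rw [this, two_eq_zero', add_zero]
      exact h4 _ _ _ _
    rw [hob]
    exact hsum

end Tower

end MM
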