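import Pool.Agent.Lib_MP_33f7bb_d.A007
import Pool.Agent.Lib_MP_33f7bb_d.A106
import Pool.Agent.Lib_MP_33f7bb_d.A110

/-!
# A1-13: vanishing obstruction implies extension

`proj_N`: the projector `pi (n+1)` is a linear simplicial map `W (n+1) → (T.N (n+1)).sv`, the identity on
`N`; so an element of `N` which is a boundary in `W (n+1)` is a boundary in `(T.N (n+1)).sv`
(`x = d w`, `x = pi x = d (pi w)`).

`ob_ext`: `b` from `exists_glue`, `G` from `exists_secn`, `r` from `exists_nrm`.  By `extP_sv_one`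
(`genBy_prism (n+1) (k+1) (n+k+1)`, the complex `⊤ = bx ⊤ ⊤`) `r` extends to all of
`Δ^(n+1) × Δ^(k+1)` if `linExt r (dif e)` is a boundary of `(T.N (n+1)).sv`, i.e. (`proj_N`) if its image
in `W (n+1)`, `linExt b (dif e) + linExt G (dif e) = T.ob k n f F + d (linExt G e)`, is a boundary.
Then `stage_succ`.

`exists_stage_zero'`: `bx ⊤ (bd (k+1)) = box (bd 0) ⊤ (bd (k+1)) ⊤` in `Δ^0 × Δ^(k+1)`; `extP_sv_one`
with `genBy_prism 0 (k+1) k`, `dif (prismCh 0 (k+1) (k+1)) = prho k 0 k` (`rho_zero`).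
-/

namespace MM

namespace Tower

private theorem A113_pi_act (T : Tower) (s : ℕ) {m n : ℕ} (g : Mo m n) (x : (T.W s).V n) :
    (T.W s).act g ((T.cov n).pi s x) = (T.cov m).pi s ((T.W s).act g x) :=
  CoV.pi_map (T := T.cov n) (T' := T.cov m) (fun s => (T.W s).act g)
    (fun s i x => ((T.d s i).nat g x).symm) (fun s j x => ((T.σ s j).nat g x).symm) s x

private noncomputable def A113_pi (T : Tower) (s n : ℕ) : (T.W s).V n →+ (T.W s).V n :=
  AddMonoidHom.mk' ((T.cov n).pi s) (fun x y => CoV.pi_add (T.cov n) s x y)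

private theorem A113_d_val {W : SV} (C : SubV W) {n : ℕ} (z : C.sv.V (n + 1)) :
    ((C.sv.d n z : C.sv.V n) : W.V n) = W.d n z.1 := by
  simp only [SV.d, LinearMap.sum_apply]
  rw [← Submodule.subtype_apply, map_sum]
  rfl

private theorem A113_d_pi (T : Tower) (s n : ℕ) (w : (T.W s).V (n + 1)) :
    (T.W s).d n ((T.cov (n + 1)).pi s w) = (T.cov n).pi s ((T.W s).d n w) := by
  have h : (T.cov n).pi s ((T.W s).d n w) = A113_pi T s n ((T.W s).d n w) := rfl
  rw [h]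
  simp only [SV.d, LinearMap.sum_apply, map_sum]
  exact Finset.sum_congr rfl fun i _ => A113_pi_act T s (dlt i) w

theorem mem_B_N (T : Tower) (s n : ℕ) (x : (T.N s).sv.V n) (hx : (x.1 : (T.W s).V n) ∈ (T.W s).B n) :
    x ∈ (T.N s).sv.B n := by
  obtain ⟨w, hw⟩ := hx
  refine ⟨⟨(T.cov (n + 1)).pi s w, (T.mem_N s (n + 1) _).2 (CoV.nrm_pi (T.cov (n + 1)) s w)⟩, ?_⟩
  apply Subtype.ext
  rw [A113_d_val]
  show (T.W s).d n ((T.cov (n + 1)).pi s w) = x.1
  rw [A113_d_pi, hw]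
  exact CoV.pi_of_nrm (T.cov n) s x.1 ((T.mem_N s n _).1 x.2)

private theorem A113_linExt {P : SS} {W : SV} (C : SubV W) {A : Sub P} (r : Fn P C.sv.ss)
    (b G : Fn P W.ss)
    (h : ∀ m, ∀ p ∈ A.car m, (((r m p : C.sv.V m)).1 : W.V m) = b m p + G m p) {n : ℕ}
    {z : Ch P n} (hz : SuppIn A z) :
    ((linExt r n z : C.sv.V n).1 : W.V n) = linExt b n z + linExt G n z := by
  rw [linExt_apply, linExt_apply, linExt_apply]
  simp only [Finsupp.sum]
  rw [← Finset.sum_add_distrib, ← Submodule.subtype_apply, map_sum]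
  refine Finset.sum_congr rfl fun x hx => ?_
  have h1 := h n x (hz x hx)
  show z x • ((r n x : C.sv.V n).1 : W.V n) = z x • (b n x : W.V n) + z x • (G n x : W.V n)
  rw [h1, smul_add]

theorem ob_ext (T : Tower) {k n : ℕ} {f F : ∀ s, Fn ((Del s).prod (Del (k + 1))) (T.W s).ss}
    (hf : T.Fam (bd (k + 1)) f) (hF : T.Stage (bd (k + 1)) ⊤ f n F)
    (hob : T.ob k n f F ∈ (T.W (n + 1)).B (n + k + 1)) :
    ∃ F' : ∀ s, Fn ((Del s).prod (Del (k + 1))) (T.W s).ss,
      T.Stage (bd (k + 1)) ⊤ f (n + 1) F' ∧ ∀ s, s ≤ n → F' s = F s := by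
  have hAC : (bd (k + 1) : Sub (Del (k + 1))) ≤ ⊤ := Sub.le_top' _
  obtain ⟨b, hb⟩ := T.exists_glue hAC hf hF
  obtain ⟨G, hG⟩ := T.exists_secn hF
  obtain ⟨r, hr, hrb⟩ := T.exists_nrm hAC hb hG
  have he := genBy_prism (n + 1) (k + 1) (n + k + 1) (by omega)
  have hbG : linExt r (n + k + 1) (dif (prismCh (n + 1) (k + 1) (n + k + 1 + 1))) ∈
      (T.N (n + 1)).sv.B (n + k + 1) := by
    apply mem_B_N
    rw [A113_linExt (T.N (n + 1)) r b G hrb he.2.1]
    refine Submodule.add_mem _ ?_ ?_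
    · have h1 := T.ob_eq hb
      have h2 : linExt b (n + k + 1) (dif (prismCh (n + 1) (k + 1) (n + k + 1 + 1))) =
          T.ob k n f F := h1
      rw [h2]
      exact hob
    · rw [linExt_dif hG.nat (fun x _ => ⟨trivial, trivial⟩)]
      exact LinearMap.mem_range_self _ _
  obtain ⟨g, hg, hgr⟩ := extP_sv_one (T.N (n + 1)).sv (Sub.le_top' _) he r hr hbG
  exact T.stage_succ hAC hF hb hG g (fun h x _ => hg h x trivial) (fun m p hp => by
    rw [hgr m p hp]
    exact hrb m p hp)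

theorem exists_stage_zero' (T : Tower) {k : ℕ}
    {f : ∀ s, Fn ((Del s).prod (Del (k + 1))) (T.W s).ss} (hf : T.Fam (bd (k + 1)) f)
    (hob : linExt (f 0) k (prho k 0 k) ∈ (T.W 0).B k) :
    ∃ F : ∀ s, Fn ((Del s).prod (Del (k + 1))) (T.W s).ss, T.Stage (bd (k + 1)) ⊤ f 0 F := by
  have he := genBy_prism 0 (k + 1) k (by omega)
  have hA : ∀ n, ∀ x ∈ (Sub.box (bd 0) ⊤ (bd (k + 1)) ⊤).car n, x.2 ∈ (bd (k + 1)).car n := by
    intro n x hx
    rcases hx.2 with h | h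
    · exact absurd (fun y => ⟨0, @Subsingleton.elim (Fin 1) _ _ _⟩) h
    · exact h
  obtain ⟨g, hg, hgr⟩ := extP_sv_one (T.W 0) (Sub.le_top' _) he (f 0)
    (fun h x hx => hf.nat 0 h x ⟨trivial, hA _ x hx⟩) (by rw [rho_zero k k]; exact hob)
  refine ⟨fun s => match s with
    | 0 => g
    | _ + 1 => fun _ _ => 0, ?_, ?_, ?_, ?_⟩
  · intro s hs
    obtain rfl : s = 0 := by omega
    exact fun h x _ => hg h x trivial
  · intro s hs; omega
  · intro s hs; omega
  · intro s hs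
    obtain rfl : s = 0 := by omega
    intro m θ x hx
    exact hgr m (θ, x) ⟨⟨trivial, trivial⟩, Or.inr hx⟩

end Tower

end MM
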