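import Pool.Agent.Lib_MP_33f7bb_d.A107
import Pool.Agent.Lib_MP_33f7bb_d.A108
import Pool.Agent.Lib_MP_33f7bb_d.A111
import Pool.Agent.Lib_MP_33f7bb_d.A112
import Pool.Agent.Lib_MP_33f7bb_d.A113

/-!
# A1-14: the obstruction theorem (T7) and the right lifting property (T8)

`ob_step`.  Let `F` be a stage `n`, `N = n + k + 1 ≥ 1`, `o = T.ob k n f F`.  `o` is a cycle (it is
`linExt b (dif e)`, `ob_eq`, so a cycle since `dif e` is a cycle supported in the domain of `b`); let `u`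
be a Moore cycle with `u + o` a boundary (`exists_moore`).  `σ^j u` is a boundary for `j ≤ n` (`ob_σ`,
`map_B`).  `del u` is a boundary (`ob_cocycle`), so by (H1) `u + del a` is a boundary for a Moore cycle
`a ∈ (W n)_N`, which can be chosen normalised (`exists_normalised`).  `ob_change` gives `F'` with
`ob F' + o + del a` a boundary, hence `ob F'` is a boundary; `ob_ext`.

`exists_stage_zero''`: `o = linExt (f 0) k (prho k 0 k)`; `k ≥ 1`: Moore representative, `ob0_cocycle`, first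
half of (H1); `k = 0`: (H0) and `ob0_cocycle_zero`.

`tot_ext_based` (T7): `Tower.exists_of_steps` and translation between `Tot` and families
(`fam_ofTot`, `exists_toTot`, `eq_of_fam`); the base condition `f 0 (cst 0) = T.tot0 0` gives `hbase`.

`tot_rlp` (T8).  `k = 0`: extend by `T.tot0`.  `k + 1`: let `y = f 0 (cst 0)`, a vertex of `Tot`.  By T7
for `k + 1 = 1` (vertices `0` and `y`) there is an edge `c ∈ Tot_1` from `T.tot0 0` to `y`.  Extend the
function on `{1} × ∂Δ^(k+1) ∪ Δ^1 × {vertex 0}` given by `f` and `c` over `Δ^1 × ∂Δ^(k+1)`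
(`acyc_hep` with `i = 1`, `tot_ext`): `H`.  `H` at `0` is a map on `∂Δ^(k+1)` with value `T.tot0 0` at
the vertex `0`; extend it to `Δ^(k+1)` by T7.  Extend the function on
`{0} × Δ^(k+1) ∪ Δ^1 × ∂Δ^(k+1)` over `Δ^1 × Δ^(k+1)` (`acyc_hep` with `i = 0`, `tot_ext`) and take
the value at `1`.
-/

namespace MM

private theorem A114_sum {M : Type*} [AddCommGroup M] [Module (ZMod 2) M]
    (B : Submodule (ZMod 2) M) {a b c u : M} (h1 : a + b + c ∈ B) (h2 : u + c ∈ B)
    (h3 : u + b ∈ B) : a ∈ B := by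
  have h := B.add_mem (B.add_mem h1 h2) h3
  have e : a + b + c + (u + c) + (u + b) = a + (b + b) + (c + c) + (u + u) := by abel
  rw [e, two_eq_zero' b, two_eq_zero' c, two_eq_zero' u, add_zero, add_zero, add_zero] at h
  exact h

private theorem A114_two {M : Type*} [AddCommGroup M] [Module (ZMod 2) M]
    (B : Submodule (ZMod 2) M) {o w : M} (hw : w ∈ B) : o + w + o ∈ B := by
  have e : o + w + o = w + (o + o) := by abel
  rw [e, two_eq_zero', add_zero]
  exact hw

private theorem A114_back {M : Type*} [AddCommGroup M] [Module (ZMod 2) M]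
    (B : Submodule (ZMod 2) M) {o w : M} (hw : w ∈ B) (h : o + w ∈ B) : o ∈ B := by
  have := B.sub_mem h hw
  rwa [add_sub_cancel_right] at this

private theorem A114_cst_mem (k m : ℕ) (i : Fin (k + 2)) :
    (cst i : Mo m (k + 1)) ∈ (bd (k + 1)).car m := by
  intro hs
  have h0 : ∀ y : Fin (k + 2), y = i := fun y => by
    obtain ⟨z, hz⟩ := hs y
    exact hz.symm
  have h1 := h0 0
  have h2 := h0 1
  rw [← h2] at h1
  exact absurd h1 (by
    intro h
    have := congrArg Fin.val h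
    simp at this)

private theorem A114_bd_zero {m : ℕ} (θ : Mo m 0) : θ ∉ (bd 0).car m := by
  intro h
  refine h fun y => ⟨0, ?_⟩
  exact Subsingleton.elim (α := Fin 1) _ _

/-- a non surjective map to `[1]` is constant -/
private theorem A114_const {m : ℕ} {x : Mo m 1} (hx : x ∈ (bd 1).car m) (t : Fin (m + 1)) :
    x t = x 0 := by
  by_contra hne
  apply hx
  intro y
  have h : ∀ a b y : Fin 2, a ≠ b → y = a ∨ y = b := by decide
  rcases h (x t) (x 0) y hne with rfl | rfl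
  · exact ⟨t, rfl⟩
  · exact ⟨0, rfl⟩

private theorem A114_box_le {Q P : SS} {K' : Sub Q} {A C : Sub P} :
    Sub.box K' ⊤ A C ≤ Sub.bx ⊤ C := fun _ _ hx => (Sub.mem_box.1 hx).1

private theorem A114_cst_ne {m : ℕ} : (cst 0 : Mo m 1) ≠ cst 1 := by
  intro h
  have h1 := congrArg (fun x : Mo m 1 => x 0) h
  exact absurd h1 (by
    show ¬ ((0 : Fin 2) = 1)
    decide)

namespace Tower

theorem ob_step (T : Tower) (h1 : T.H1) {k n : ℕ}
    {f F : ∀ s, Fn ((Del s).prod (Del (k + 1))) (T.W s).ss}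
    (hf : T.Fam (bd (k + 1)) f) (hF : T.Stage (bd (k + 1)) ⊤ f n F)
    (hbase : ∀ s, f s 0 ((cst 0, cst 0) : Mo 0 s × Mo 0 (k + 1)) = 0) :
    ∃ F' : ∀ s, Fn ((Del s).prod (Del (k + 1))) (T.W s).ss,
      T.Stage (bd (k + 1)) ⊤ f (n + 1) F' ∧ ∀ s, s < n → F' s = F s := by
  have hN : 1 ≤ n + k + 1 := by omega
  obtain ⟨b, hb⟩ := T.exists_glue (Sub.le_top' (bd (k + 1))) hf hF
  have he := genBy_prism (n + 1) (k + 1) (n + k + 1) (by omega)
  have hob := T.ob_eq hb
  have hz : T.ob k n f F ∈ (T.W (n + 1)).Z (n + k + 1) := by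
    show (T.W (n + 1)).d (n + k) (T.ob k n f F) = 0
    rw [← hob, ← linExt_dif hb.nat he.2.1, dif_dif, map_zero]
  obtain ⟨w, hw⟩ := exists_moore (T.W (n + 1)) (T.ob k n f F) hz
  have hwB : (T.W (n + 1)).d (n + k + 1) w ∈ (T.W (n + 1)).B (n + k + 1) :=
    LinearMap.mem_range_self _ _
  have hou : T.ob k n f F + (T.W (n + 1)).d (n + k + 1) w + T.ob k n f F ∈
      (T.W (n + 1)).B (n + k + 1) := A114_two _ hwB
  have hσ : ∀ j ≤ n, (T.σ n j).app (n + k + 1) (T.ob k n f F + (T.W (n + 1)).d (n + k + 1) w) ∈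
      (T.W n).B (n + k + 1) := by
    intro j hj
    rw [map_add]
    exact Submodule.add_mem _ (T.ob_σ hf hF j hj) (map_B (T.σ n j) hwB)
  have hdel := T.ob_cocycle hf hF hbase _ hw hou
  obtain ⟨a, ha, hua⟩ := (h1 (n + k + 1) hN).2 n _ hw hdel
  obtain ⟨a', ha', haN, hua'⟩ := T.exists_normalised hN _ hw hσ a ha hua
  obtain ⟨F', hF', hs, hB⟩ := T.ob_change hf hF hbase a' ha' haN
  obtain ⟨F'', hF'', hs'⟩ := T.ob_ext hf hF' (A114_sum _ hB hua' hou)
  exact ⟨F'', hF'', fun s h => (hs' s (le_of_lt h)).trans (hs s h)⟩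

theorem exists_stage_zero'' (T : Tower) (h1 : T.H1) (h0 : T.H0) {k : ℕ}
    {f : ∀ s, Fn ((Del s).prod (Del (k + 1))) (T.W s).ss}
    (hf : T.Fam (bd (k + 1)) f)
    (hbase : ∀ s, f s 0 ((cst 0, cst 0) : Mo 0 s × Mo 0 (k + 1)) = 0) :
    ∃ F : ∀ s, Fn ((Del s).prod (Del (k + 1))) (T.W s).ss, T.Stage (bd (k + 1)) ⊤ f 0 F := by
  refine T.exists_stage_zero' hf ?_
  cases k with
  | zero => exact h0 _ (T.ob0_cocycle_zero hf hbase)
  | succ k =>
    have hz : linExt (f 0) (k + 1) (prho (k + 1) 0 (k + 1)) ∈ (T.W 0).Z (k + 1) := by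
      show (T.W 0).d k (linExt (f 0) (k + 1) (prho (k + 1) 0 (k + 1))) = 0
      rw [← linExt_dif (hf.nat 0) (rho_supp (k + 1) 0 (k + 1)), ← rho_zero, dif_dif, map_zero]
    obtain ⟨w, hw⟩ := exists_moore (T.W 0) _ hz
    have hwB : (T.W 0).d (k + 1) w ∈ (T.W 0).B (k + 1) := LinearMap.mem_range_self _ _
    have hdel := T.ob0_cocycle hf hbase (by omega) _ hw (A114_two _ hwB)
    exact A114_back _ hwB ((h1 (k + 1) (by omega)).1 _ hw hdel)

/-- (T7) -/
theorem tot_ext_based (T : Tower) (h1 : T.H1) (h0 : T.H0) {k : ℕ} (f : Fn (Del (k + 1)) T.Tot)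
    (hf : NatOn (bd (k + 1)) f) (hbase : f 0 (cst 0 : Mo 0 (k + 1)) = T.tot0 0) :
    ∃ g : Fn (Del (k + 1)) T.Tot, NatOn ⊤ g ∧
      ∀ n, ∀ x ∈ (bd (k + 1)).car n, g n x = f n x := by
  have hfam := T.fam_ofTot (bd (k + 1)) f hf
  have hb : ∀ s, (fun s n (p : ((Del s).prod (Del (k + 1))).S n) =>
      ((f n p.2).1 s).app n (p.1, OrderHom.id)) s 0 ((cst 0, cst 0) : Mo 0 s × Mo 0 (k + 1)) =
      (0 : (T.W s).V 0) := by
    intro s
    show ((f 0 (cst 0 : Mo 0 (k + 1))).1 s).app 0 (cst 0, OrderHom.id) = (0 : (T.W s).V 0)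
    rw [hbase]
    rfl
  obtain ⟨G, hG, hGf⟩ := T.exists_of_steps _ (T.exists_stage_zero'' h1 h0 hfam hb)
    (fun n F hF => T.ob_step h1 hfam hF hb)
  obtain ⟨g, hg, hgG⟩ := T.exists_toTot ⊤ G hG
  refine ⟨g, hg, ?_⟩
  refine T.eq_of_fam (bd (k + 1)) g f (fun h x _ => hg h x trivial) hf ?_
  intro s m x hx θ
  rw [hgG m x trivial s m θ OrderHom.id]
  exact hGf s m θ x hx

private theorem A114_tot0 (T : Tower) {m n : ℕ} (g : Mo m n) :
    T.Tot.act g (T.tot0 n) = T.tot0 m := rfl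

/-- every vertex of `Tot` is joined to the base vertex -/
theorem exists_edge (T : Tower) (h1 : T.H1) (h0 : T.H0) (y : T.Tot.S 0) :
    ∃ c : T.Tot.S 1, T.Tot.act (cst 0 : Mo 0 1) c = T.tot0 0 ∧
      T.Tot.act (cst 1 : Mo 0 1) c = y := by
  classical
  let f : Fn (Del 1) T.Tot := fun n x =>
    if (x : Mo n 1) 0 = 0 then T.tot0 n else T.Tot.act (cst 0 : Mo n 0) y
  have hf : NatOn (bd 1) f := by
    intro m n g x hx
    have hx0 : ((Del 1).act g x : Mo m 1) 0 = (x : Mo n 1) 0 := A114_const hx (g 0)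
    by_cases hc : (x : Mo n 1) 0 = 0
    · have e1 : f n x = T.tot0 n := if_pos hc
      have e2 : f m ((Del 1).act g x) = T.tot0 m := if_pos (hx0.trans hc)
      rw [e1, e2]
      rfl
    · have e1 : f n x = T.Tot.act (cst 0 : Mo n 0) y := if_neg hc
      have e2 : f m ((Del 1).act g x) = T.Tot.act (cst 0 : Mo m 0) y :=
        if_neg (fun h => hc (hx0.symm.trans h))
      rw [e1, e2]
      rfl
  obtain ⟨g, hg, hgf⟩ := T.tot_ext_based h1 h0 (k := 0) f hf (if_pos rfl)
  refine ⟨g 1 (OrderHom.id : Mo 1 1), ?_, ?_⟩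
  · have e := hg (cst 0 : Mo 0 1) (OrderHom.id : Mo 1 1) trivial
    rw [← e]
    have e2 : g 0 ((Del 1).act (cst 0 : Mo 0 1) (OrderHom.id : Mo 1 1)) =
        f 0 (cst 0 : Mo 0 1) := hgf 0 (cst 0) (A114_cst_mem 0 0 0)
    rw [e2]
    exact if_pos rfl
  · have e := hg (cst 1 : Mo 0 1) (OrderHom.id : Mo 1 1) trivial
    rw [← e]
    have e2 : g 0 ((Del 1).act (cst 1 : Mo 0 1) (OrderHom.id : Mo 1 1)) =
        f 0 (cst 1 : Mo 0 1) := hgf 0 (cst 1) (A114_cst_mem 0 0 1)
    rw [e2]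
    have e3 : f 0 (cst 1 : Mo 0 1) = T.Tot.act (cst 0 : Mo 0 0) y :=
      if_neg (by show ¬ ((1 : Fin 2) = 0); decide)
    rw [e3]
    have e4 : (cst 0 : Mo 0 0) = OrderHom.id := by
      ext t
      have h1 := ((cst 0 : Mo 0 0) t).2
      have h2 := ((OrderHom.id : Mo 0 0) t).2
      omega
    rw [e4]
    exact T.Tot.act_id y

/-- (T8) -/
theorem tot_rlp (T : Tower) (h1 : T.H1) (h0 : T.H0) (k : ℕ) :
    ExtP T.Tot (bd k) (⊤ : Sub (Del k)) := by
  classical
  cases k with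
  | zero =>
    intro f _
    exact ⟨fun n _ => T.tot0 n, fun g x _ => rfl, fun n x hx => absurd hx (A114_bd_zero x)⟩
  | succ k =>
    intro f hf
    obtain ⟨c, hc0, hc1⟩ := T.exists_edge h1 h0 (f 0 (cst 0 : Mo 0 (k + 1)))
    -- step A
    have hA : Sub.pt (P := Del (k + 1)) (cst 0 : Mo 0 (k + 1)) ≤ bd (k + 1) := by
      intro n x hx
      have hx' : x = (cst 0 : Mo n (k + 1)) := hx
      rw [hx']
      exact A114_cst_mem k n 0
    let f1 : Fn ((Del 1).prod (Del (k + 1))) T.Tot := fun n p =>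
      if (p.1 : Mo n 1) = cst 1 then f n p.2 else T.Tot.act (p.1 : Mo n 1) c
    have hfc : ∀ m, f m (cst 0 : Mo m (k + 1)) = T.Tot.act (cst 1 : Mo m 1) c := by
      intro m
      have e1 : f m (cst 0 : Mo m (k + 1)) =
          T.Tot.act (cst 0 : Mo m 0) (f 0 (cst 0 : Mo 0 (k + 1))) :=
        hf (cst 0 : Mo m 0) (cst 0 : Mo 0 (k + 1)) (A114_cst_mem k 0 0)
      rw [e1, ← hc1, T.Tot.act_comp]
      rfl
    have hf1 : NatOn (Sub.box (Sub.pt (P := Del 1) (cst 1 : Mo 0 1)) ⊤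
        (Sub.pt (P := Del (k + 1)) (cst 0 : Mo 0 (k + 1))) (bd (k + 1))) f1 := by
      rintro m n g ⟨a, x⟩ hx
      obtain ⟨⟨-, hxC⟩, hx2⟩ := Sub.mem_box.1 hx
      by_cases ha : (a : Mo n 1) = cst 1
      · have e1 : f1 n (a, x) = f n x := if_pos ha
        have e2 : f1 m (((Del 1).prod (Del (k + 1))).act g (a, x)) =
            f m ((Del (k + 1)).act g x) := if_pos (by
          show (a : Mo n 1).comp g = cst 1
          rw [ha]
          rfl)
        rw [e1, e2]
        exact hf g x hxC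
      · have hx0 : x = (cst 0 : Mo n (k + 1)) := by
          rcases hx2 with h | h
          · exact absurd h ha
          · exact h
        have e1 : f1 n (a, x) = T.Tot.act (a : Mo n 1) c := if_neg ha
        rw [e1, T.Tot.act_comp]
        by_cases ha' : (a : Mo n 1).comp g = cst 1
        · have e2 : f1 m (((Del 1).prod (Del (k + 1))).act g (a, x)) =
              f m ((Del (k + 1)).act g x) := if_pos ha'
          rw [e2, hx0, ha']
          exact hfc m
        · exact if_neg ha'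
    obtain ⟨H, hH, hHf⟩ := T.tot_ext A114_box_le
      (acyc_hep hA 1) f1 hf1
    -- step B
    have hb0 : NatOn (bd (k + 1)) (fun n x => H n ((cst 0 : Mo n 1), x) :
        Fn (Del (k + 1)) T.Tot) := by
      intro m n g x hx
      exact hH g ((cst 0 : Mo n 1), x) ⟨trivial, hx⟩
    obtain ⟨G, hG, hGf⟩ := T.tot_ext_based h1 h0 (k := k)
      (fun n x => H n ((cst 0 : Mo n 1), x)) hb0 (by
        have e1 : H 0 ((cst 0 : Mo 0 1), (cst 0 : Mo 0 (k + 1))) =
            f1 0 ((cst 0 : Mo 0 1), (cst 0 : Mo 0 (k + 1))) :=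
          hHf 0 ((cst 0 : Mo 0 1), (cst 0 : Mo 0 (k + 1)))
            ⟨⟨trivial, A114_cst_mem k 0 0⟩, Or.inr rfl⟩
        have e2 : f1 0 ((cst 0 : Mo 0 1), (cst 0 : Mo 0 (k + 1))) =
            T.Tot.act (cst 0 : Mo 0 1) c := if_neg A114_cst_ne
        exact e1.trans (e2.trans hc0))
    -- step C
    let f2 : Fn ((Del 1).prod (Del (k + 1))) T.Tot := fun n p =>
      if (p.1 : Mo n 1) = cst 0 then G n p.2 else H n p
    have hf2 : NatOn (Sub.box (Sub.pt (P := Del 1) (cst 0 : Mo 0 1)) ⊤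
        (bd (k + 1)) (⊤ : Sub (Del (k + 1)))) f2 := by
      rintro m n g ⟨a, x⟩ hx
      obtain ⟨-, hx2⟩ := Sub.mem_box.1 hx
      by_cases ha : (a : Mo n 1) = cst 0
      · have e1 : f2 n (a, x) = G n x := if_pos ha
        have e2 : f2 m (((Del 1).prod (Del (k + 1))).act g (a, x)) =
            G m ((Del (k + 1)).act g x) := if_pos (by
          show (a : Mo n 1).comp g = cst 0
          rw [ha]
          rfl)
        rw [e1, e2]
        exact hG g x trivial
      · have hxb : x ∈ (bd (k + 1)).car n := by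
          rcases hx2 with h | h
          · exact absurd h ha
          · exact h
        have e1 : f2 n (a, x) = H n (a, x) := if_neg ha
        have e3 := hH g (a, x) ⟨trivial, hxb⟩
        rw [e1, ← e3]
        by_cases ha' : (a : Mo n 1).comp g = cst 0
        · have e2 : f2 m (((Del 1).prod (Del (k + 1))).act g (a, x)) =
              G m ((Del (k + 1)).act g x) := if_pos ha'
          rw [e2, hGf m _ ((bd (k + 1)).closed g hxb), ← ha']
        · exact if_neg ha'
    obtain ⟨K, hK, hKf⟩ := T.tot_ext A114_box_le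
      (acyc_hep (Sub.le_top' (bd (k + 1))) 0) f2 hf2
    refine ⟨fun n x => K n ((cst 1 : Mo n 1), x), ?_, ?_⟩
    · intro m n g x _
      exact hK g ((cst 1 : Mo n 1), x) ⟨trivial, trivial⟩
    · intro n x hx
      have e1 : K n ((cst 1 : Mo n 1), x) = f2 n ((cst 1 : Mo n 1), x) :=
        hKf n ((cst 1 : Mo n 1), x) ⟨⟨trivial, trivial⟩, Or.inr hx⟩
      have e2 : f2 n ((cst 1 : Mo n 1), x) = H n ((cst 1 : Mo n 1), x) :=
        if_neg (fun h => A114_cst_ne h.symm)
      have e3 : H n ((cst 1 : Mo n 1), x) = f1 n ((cst 1 : Mo n 1), x) :=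
        hHf n ((cst 1 : Mo n 1), x) ⟨⟨trivial, hx⟩, Or.inl rfl⟩
      have e4 : f1 n ((cst 1 : Mo n 1), x) = f n x := if_pos rfl
      exact e1.trans (e2.trans (e3.trans e4))

end Tower

end MM
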