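import Pool.Agent.Lib_MP_33f7bb_d.A2Res

/-!
# A2, more definitions: the base component, extension for all acyclic pairs, the coaugmentation,
the projection of Tot to the level 0, the collapse `∂Δ^(N+1) → Δ^N/∂Δ^N`.
-/

namespace MM

/-- extension property for all acyclic pairs -/
def ExtAll (Y : SS) : Prop := ∀ (P : SS) (A C : Sub P), A ≤ C → Acyc A C → ExtP Y A C

/-- the vertex `y` is joined to `p` by an edge from `p` to `y` -/
def Joined {P : SS} (p y : P.S 0) : Prop :=
  ∃ e : P.S 1, P.act (cst 0 : Mo 0 1) e = p ∧ P.act (cst 1 : Mo 0 1) e = y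

/-- the base component: simplices all of whose vertices are joined to `p` -/
def Sub.comp {P : SS} (p : P.S 0) : Sub P :=
  ⟨fun n => {x | ∀ i : Fin (n + 1), Joined p (P.act (cst i : Mo 0 n) x)}, by
    intro m n f x hx i
    have h := hx (f i)
    rw [P.act_comp]
    exact h⟩

theorem joined_self {P : SS} (p : P.S 0) : Joined p p :=
  ⟨P.act (cst 0) p, by rw [P.act_comp]; exact (by
      have h1 : ((cst 0 : Mo 1 0).comp (cst 0 : Mo 0 1)) = OrderHom.id := by ext i; simp [cst]
      rw [h1, P.act_id]), by rw [P.act_comp]; exact (by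
      have h1 : ((cst 0 : Mo 1 0).comp (cst 1 : Mo 0 1)) = OrderHom.id := by ext i; simp [cst]
      rw [h1, P.act_id])⟩

theorem act_cst_zero {P : SS} (y : P.S 0) (i : Fin 1) : P.act (cst i : Mo 0 0) y = y := by
  have h1 : (cst i : Mo 0 0) = OrderHom.id := by
    ext j; simp [cst]
  rw [h1, P.act_id]

theorem mem_comp_zero {P : SS} (p y : P.S 0) : y ∈ (Sub.comp p).car 0 ↔ Joined p y := by
  constructor
  · intro h
    have := h 0
    rwa [act_cst_zero] at this
  · intro h i
    rwa [act_cst_zero]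

/-- a simplex is in the base component iff all its vertices are -/
theorem mem_comp {P : SS} (p : P.S 0) {n : ℕ} (x : P.S n) :
    x ∈ (Sub.comp p).car n ↔ ∀ i : Fin (n + 1), P.act (cst i : Mo 0 n) x ∈ (Sub.comp p).car 0 := by
  constructor
  · intro h i
    exact (mem_comp_zero p _).2 (h i)
  · intro h i
    exact (mem_comp_zero p _).1 (h i)

theorem deg_mem_comp {P : SS} (p : P.S 0) (n : ℕ) : P.deg p n ∈ (Sub.comp p).car n := by
  intro i
  show Joined p (P.act (cst i) (P.act (cst 0) p))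
  rw [P.act_comp]
  have h1 : ((cst 0 : Mo n 0).comp (cst i : Mo 0 n)) = OrderHom.id := by ext i; simp [cst]
  rw [h1, P.act_id]
  exact joined_self p

/-- the base component of `Tot` -/
abbrev Tower.Y (T : Tower) : SS := (Sub.comp (P := T.Tot) (T.tot0 0)).ss

theorem Tower.deg_tot0 (T : Tower) (n : ℕ) : T.Tot.deg (T.tot0 0) n = T.tot0 n := rfl

/-- the coaugmentation `X → resV s`: iterated `d^0` -/
noncomputable def coaug (X : SS) (x₀ : X.S 0) : ∀ s, Hom X (resV X x₀ s).ss
  | 0 => (resD X x₀ 0 0).f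
  | s + 1 => (resD X x₀ (s + 1) 0).f.comp (coaug X x₀ s)

/-- the projection of `Tot` to the level `0` -/
def Tower.pr0 (T : Tower) : Hom T.Tot (T.W 0).ss :=
  ⟨fun n f => (f.1 0).app n ((cst 0 : Mo n 0), OrderHom.id), fun {m n} g f => by
    show (f.1 0).app m ((cst 0 : Mo m 0), g.comp OrderHom.id) = _
    exact (f.1 0).nat g ((cst 0 : Mo n 0), OrderHom.id)⟩

theorem SpS_act_some {N m n : ℕ} (g : Mo m n) (θ : Mo n N) (hθ : Function.Surjective θ)
    (h : Function.Surjective (θ.comp g)) :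
    (SpS N).act g (some ⟨θ, hθ⟩) = some ⟨θ.comp g, h⟩ := by
  exact dif_pos h

theorem SpS_act_some_none {N m n : ℕ} (g : Mo m n) (θ : Mo n N) (hθ : Function.Surjective θ)
    (h : ¬ Function.Surjective (θ.comp g)) :
    (SpS N).act g (some ⟨θ, hθ⟩) = none := by
  exact dif_neg h

theorem SpS_act_none {N m n : ℕ} (g : Mo m n) : (SpS N).act g none = none := rfl

/-- the map `∂Δ^(N+1) → Δ^N/∂Δ^N` which collapses all faces except `δ_0` -/
noncomputable def collapse (N : ℕ) : Hom (bd (N + 1)).ss (SpS N) where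
  app n x := open Classical in
    if h : (∀ t, (x.1 : Mo n (N + 1)) t ≠ 0) ∧
      Function.Surjective ((sgm (0 : Fin (N + 1))).comp (x.1 : Mo n (N + 1))) then
      some ⟨(sgm (0 : Fin (N + 1))).comp (x.1 : Mo n (N + 1)), h.2⟩ else none
  nat {m n} g x := by
    classical
    obtain ⟨x, hx⟩ := x
    by_cases h : (∀ t, (x : Mo n (N + 1)) t ≠ 0) ∧
      Function.Surjective ((sgm (0 : Fin (N + 1))).comp (x : Mo n (N + 1)))
    · show (if h : (∀ t, ((x : Mo n (N + 1)).comp g) t ≠ 0) ∧
        Function.Surjective ((sgm (0 : Fin (N + 1))).comp ((x : Mo n (N + 1)).comp g)) then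
        (some ⟨(sgm (0 : Fin (N + 1))).comp ((x : Mo n (N + 1)).comp g), h.2⟩ : (SpS N).S m)
        else none) = (SpS N).act g (if h : (∀ t, (x : Mo n (N + 1)) t ≠ 0) ∧
        Function.Surjective ((sgm (0 : Fin (N + 1))).comp (x : Mo n (N + 1))) then
        (some ⟨(sgm (0 : Fin (N + 1))).comp (x : Mo n (N + 1)), h.2⟩ : (SpS N).S n) else none)
      rw [dif_pos h]
      by_cases h2 : Function.Surjective (((sgm (0 : Fin (N + 1))).comp (x : Mo n (N + 1))).comp g)
      · rw [SpS_act_some _ _ _ h2]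
        exact dif_pos ⟨fun t => h.1 (g t), h2⟩
      · rw [SpS_act_some_none _ _ _ h2]
        exact dif_neg fun h3 => h2 h3.2
    · show (if h : (∀ t, ((x : Mo n (N + 1)).comp g) t ≠ 0) ∧
        Function.Surjective ((sgm (0 : Fin (N + 1))).comp ((x : Mo n (N + 1)).comp g)) then
        (some ⟨(sgm (0 : Fin (N + 1))).comp ((x : Mo n (N + 1)).comp g), h.2⟩ : (SpS N).S m)
        else none) = (SpS N).act g (if h : (∀ t, (x : Mo n (N + 1)) t ≠ 0) ∧
        Function.Surjective ((sgm (0 : Fin (N + 1))).comp (x : Mo n (N + 1))) then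
        (some ⟨(sgm (0 : Fin (N + 1))).comp (x : Mo n (N + 1)), h.2⟩ : (SpS N).S n) else none)
      rw [dif_neg h, SpS_act_none]
      refine dif_neg fun h3 => h ?_
      have key : ∀ y : Fin (N + 2), y ≠ 0 → ∃ t, (x : Mo n (N + 1)) (g t) = y := by
        intro y hy
        obtain ⟨t, ht⟩ := h3.2 (y.pred hy)
        refine ⟨t, ?_⟩
        have h5 : (x : Mo n (N + 1)) (g t) ≠ 0 := h3.1 t
        have h4 : Fin.predAbove (0 : Fin (N + 1)) ((x : Mo n (N + 1)) (g t)) = y.pred hy := ht
        rw [Fin.predAbove_zero_of_ne_zero h5] at h4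
        exact Fin.pred_inj.1 h4
      refine ⟨fun t ht => hx fun y => ?_, fun y => ?_⟩
      · by_cases hy : y = 0
        · exact ⟨t, by rw [ht, hy]⟩
        · obtain ⟨t', ht'⟩ := key y hy
          exact ⟨g t', ht'⟩
      · obtain ⟨t, ht⟩ := h3.2 y
        exact ⟨g t, ht⟩

end MM
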