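import Pool.Agent.Lib_MP_33f7bb_d.A020
import Pool.Agent.Lib_MP_33f7bb_d.A2Defs

/-!
# A2-01: the base component inherits the extension property

`joined_of_edge`: `e` an edge from `y` to `y'`.  If `p` is joined to `y` (edge from `p` to `y`), fill the
horn `Λ^2_1` (`acyc_horn`) with the edges `p → y`, `y → y'`; the third face is an edge `p → y'`.
If `p` is joined to `y'`: fill `Λ^2_2` with the edges `p → y'` (vertices 0, 2) and `y → y'` (vertices
1, 2); the face `{0,1}` is an edge `p → y`.
(A map from the horn `horn 2 i` to `P` given by two edges with a common vertex: define the function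
`Fn (Del 2) P` on `x : [n] → [2]` by cases: if `x` misses the vertex `a` opposite to the first edge, use
`act x' e` where `x' : [n] → [1]` is `x` composed with the identification of the complement of `a`
with `[1]`.)

`extAll_comp`.  Let `f` be natural on `A` with values in the component, `g` an extension to `C` with
values in `P`.  Claim: `g 0 c` is joined to `p` for every vertex `c` of `C`.  Let `χ : C_0 → ZMod 2` be the
indicator function of the vertices `c` with `g 0 c` joined to `p`.  By `joined_of_edge` the two ends of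
every edge of `C` have the same `χ`, so the linear extension of `χ` vanishes on `dif w`, `w` a
1-chain supported in `C`.  Acyclicity for the 0-chain `[c]` gives `w` with `[c] + dif w` supported in
`A`.  There `χ = 1`, so `χ(c) = χ([c] + dif w) = ε([c] + dif w) = ε([c]) = 1` (`ε` the augmentation,
`ε (dif w) = 0`).
Then `g` has values in the component on `C` (`mem_comp`); define the extension to be `g` on `C` and the
base simplex elsewhere.
-/

namespace MM

/-- filling a horn in dimension two given by two edges: the face opposite to `a` is `ea`, the face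
opposite to `b` is `eb` -/
private theorem A201_fill {P : SS} (hP : ExtAll P) (i a b : Fin 3) (ha : a ≠ i) (hb : b ≠ i)
    (hab : ∀ j : Fin 3, j ≠ i → j = a ∨ j = b) (hab' : ∀ j : Fin 3, j ≠ a → j ≠ b → j = i)
    (sa sb : Mo 2 1) (ea eb : P.S 1)
    (h : P.act (cst (sa i) : Mo 0 1) ea = P.act (cst (sb i) : Mo 0 1) eb) :
    ∃ σ : P.S 2, (∀ (n : ℕ) (x : Mo n 2), (∀ t, x t ≠ a) → P.act x σ = P.act (sa.comp x) ea) ∧
      ∀ (n : ℕ) (x : Mo n 2), (∀ t, x t ≠ b) → P.act x σ = P.act (sb.comp x) eb := by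
  classical
  have h' : ∀ (m : ℕ), P.act (cst (sa i) : Mo m 1) ea = P.act (cst (sb i) : Mo m 1) eb := by
    intro m
    have h1 := congrArg (P.act (cst 0 : Mo m 0)) h
    rwa [P.act_comp, P.act_comp] at h1
  let f : Fn (Del 2) P := fun n x =>
    if (∀ t, (x : Mo n 2) t ≠ a) then P.act (sa.comp x) ea else P.act (sb.comp x) eb
  have fa : ∀ (n : ℕ) (x : Mo n 2), (∀ t, x t ≠ a) → f n x = P.act (sa.comp x) ea :=
    fun n x hx => if_pos hx
  have fb : ∀ (n : ℕ) (x : Mo n 2), (∀ t, x t ≠ b) → f n x = P.act (sb.comp x) eb := by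
    intro n x hx
    by_cases hxa : ∀ t, x t ≠ a
    · have hc : x = cst i := by
        apply OrderHom.ext
        funext t
        exact hab' _ (hxa t) (hx t)
      rw [fa n x hxa, hc]
      exact h' n
    · exact if_neg hxa
  have hf : NatOn (horn 2 i) f := by
    intro m n g x hx
    obtain ⟨j, hj, hxj⟩ := hx
    rcases hab j hj with rfl | rfl
    · have h1 := fa n x hxj
      have h2 := fa m (OrderHom.comp x g) fun t => hxj (g t)
      show f m (OrderHom.comp x g) = P.act g (f n x)
      rw [h1, h2, P.act_comp]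
      rfl
    · have h1 := fb n x hxj
      have h2 := fb m (OrderHom.comp x g) fun t => hxj (g t)
      show f m (OrderHom.comp x g) = P.act g (f n x)
      rw [h1, h2, P.act_comp]
      rfl
  obtain ⟨g, hg, hgf⟩ := hP (Del 2) (horn 2 i) ⊤ (Sub.le_top' _) (acyc_horn 2 i (by omega)) f hf
  refine ⟨g 2 OrderHom.id, fun n x hx => ?_, fun n x hx => ?_⟩
  · have h1 : g n ((OrderHom.id : Mo 2 2).comp x) = P.act x (g 2 OrderHom.id) :=
      hg x (OrderHom.id : Mo 2 2) trivial
    have h2 : g n x = f n x := hgf n x ⟨a, ha, hx⟩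
    rw [← h1, ← fa n x hx]
    exact h2
  · have h1 : g n ((OrderHom.id : Mo 2 2).comp x) = P.act x (g 2 OrderHom.id) :=
      hg x (OrderHom.id : Mo 2 2) trivial
    have h2 : g n x = f n x := hgf n x ⟨b, hb, hx⟩
    rw [← h1, ← fb n x hx]
    exact h2

theorem joined_of_edge {P : SS} (hP : ExtAll P) (p : P.S 0) (e : P.S 1) :
    Joined p (P.act (cst 0 : Mo 0 1) e) ↔ Joined p (P.act (cst 1 : Mo 0 1) e) := by
  constructor
  · rintro ⟨e₁, h0, h1⟩
    obtain ⟨σ, ha, hb⟩ := A201_fill hP 1 2 0 (by decide) (by decide) (by decide) (by decide)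
      (sgm 1) (sgm 0) e₁ e h1
    refine ⟨P.act (dlt 1) σ, ?_, ?_⟩
    · rw [P.act_comp]
      have h2 := ha 0 ((dlt 1).comp (cst 0)) (by decide)
      rw [h2]
      exact h0
    · rw [P.act_comp]
      have h2 := hb 0 ((dlt 1).comp (cst 1)) (by decide)
      rw [h2]
      rfl
  · rintro ⟨e₁, h0, h1⟩
    obtain ⟨σ, ha, hb⟩ := A201_fill hP 2 1 0 (by decide) (by decide) (by decide) (by decide)
      (sgm 1) (sgm 0) e₁ e h1
    refine ⟨P.act (dlt 2) σ, ?_, ?_⟩
    · rw [P.act_comp]
      have h2 := ha 0 ((dlt 2).comp (cst 0)) (by decide)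
      rw [h2]
      exact h0
    · rw [P.act_comp]
      have h2 := hb 0 ((dlt 2).comp (cst 1)) (by decide)
      rw [h2]
      rfl

/-- the linear extension of a function on the vertices with the same value at the two ends of every edge
vanishes on boundaries -/
private theorem A201_dif {Q : SS} {C : Sub Q} (χ : Q.S 0 → ZMod 2)
    (h : ∀ x ∈ C.car 1, χ (Q.act (dlt 0) x) = χ (Q.act (dlt 1) x)) (w : Ch Q 1)
    (hw : SuppIn C w) : Finsupp.linearCombination (ZMod 2) χ (dif w) = 0 := by
  rw [dif, map_sum, Fin.sum_univ_two]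
  have h1 : Finsupp.linearCombination (ZMod 2) χ (Finsupp.mapDomain (Q.act (dlt 0)) w) =
      Finsupp.linearCombination (ZMod 2) χ (Finsupp.mapDomain (Q.act (dlt 1)) w) := by
    rw [Finsupp.linearCombination_mapDomain, Finsupp.linearCombination_mapDomain,
      Finsupp.linearCombination_apply, Finsupp.linearCombination_apply]
    refine Finset.sum_congr rfl fun x hx => ?_
    show w x • χ (Q.act (dlt 0) x) = w x • χ (Q.act (dlt 1) x)
    rw [h x (hw x hx)]
  have h2 : (Finsupp.linearCombination (ZMod 2) χ (Finsupp.mapDomain (Q.act (dlt 1)) w)) +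
      (Finsupp.linearCombination (ZMod 2) χ (Finsupp.mapDomain (Q.act (dlt 1)) w)) = 0 :=
    two_eq_zero' _
  exact (congrArg (· + _) h1).trans h2

theorem joined_of_acyc {P : SS} (hP : ExtAll P) (p : P.S 0) {Q : SS} {A C : Sub Q} (hAC : A ≤ C)
    (h : Acyc A C) (g : Fn Q P) (hg : NatOn C g) (hA : ∀ x ∈ A.car 0, Joined p (g 0 x)) :
    ∀ x ∈ C.car 0, Joined p (g 0 x) := by
  classical
  intro x hx
  let χ : Q.S 0 → ZMod 2 := fun c => if Joined p (g 0 c) then 1 else 0
  have hd0 : (dlt 0 : Mo 0 1) = cst 1 := by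
    apply OrderHom.ext
    funext t
    fin_cases t
    rfl
  have hd1 : (dlt 1 : Mo 0 1) = cst 0 := by
    apply OrderHom.ext
    funext t
    fin_cases t
    rfl
  have hχ : ∀ y ∈ C.car 1, χ (Q.act (dlt 0) y) = χ (Q.act (dlt 1) y) := by
    intro y hy
    have h1 : Joined p (g 0 (Q.act (dlt 0) y)) ↔ Joined p (g 0 (Q.act (dlt 1) y)) := by
      rw [hg (dlt 0) y hy, hg (dlt 1) y hy, hd0, hd1]
      exact (joined_of_edge hP p (g 1 y)).symm
    show (if _ then _ else _) = (if _ then _ else _)
    exact if_congr h1 rfl rfl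
  obtain ⟨w, hw, hu⟩ := h 0 (Finsupp.single x 1) (SuppIn.single hx 1) trivial
  have h1 := A201_dif (C := C) χ hχ w hw
  have h2 := A201_dif (C := C) (fun _ : Q.S 0 => (1 : ZMod 2)) (fun _ _ => rfl) w hw
  have h3 : Finsupp.linearCombination (ZMod 2) χ (Finsupp.single x 1 + dif w) =
      Finsupp.linearCombination (ZMod 2) (fun _ : Q.S 0 => (1 : ZMod 2))
        (Finsupp.single x 1 + dif w) := by
    rw [Finsupp.linearCombination_apply, Finsupp.linearCombination_apply]
    refine Finset.sum_congr rfl fun y hy => ?_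
    show _ • χ y = _ • (1 : ZMod 2)
    have h4 : χ y = 1 := if_pos (hA y (hu y hy))
    rw [h4]
  rw [map_add, map_add, h1, h2, add_zero, add_zero, Finsupp.linearCombination_single,
    Finsupp.linearCombination_single, one_smul, one_smul] at h3
  by_contra hcon
  have h5 : χ x = 0 := if_neg hcon
  rw [h5] at h3
  exact zero_ne_one h3

theorem extAll_comp {P : SS} (hP : ExtAll P) (p : P.S 0) : ExtAll (Sub.comp p).ss := by
  classical
  intro Q A C hAC h f hf
  obtain ⟨g, hg, hgf⟩ := hP Q A C hAC h (fun n x => (f n x).1) (fun {m n} u x hx =>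
    congrArg Subtype.val (hf u x hx))
  have h0 : ∀ x ∈ C.car 0, Joined p (g 0 x) := by
    refine joined_of_acyc hP p hAC h g hg fun x hx => ?_
    rw [hgf 0 x hx]
    exact (mem_comp_zero p _).1 (f 0 x).2
  have hmem : ∀ n, ∀ x ∈ C.car n, g n x ∈ (Sub.comp p).car n := by
    intro n x hx i
    rw [← hg (cst i) x hx]
    exact h0 _ (C.closed (cst i) hx)
  refine ⟨fun n x => if h : g n x ∈ (Sub.comp p).car n then ⟨g n x, h⟩ else
    ⟨P.deg p n, deg_mem_comp p n⟩, ?_, ?_⟩
  · intro m n u x hx
    have h1 := hmem n x hx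
    have h2 := hmem m (Q.act u x) (C.closed u hx)
    show (if h : g m (Q.act u x) ∈ (Sub.comp p).car m then
      (⟨g m (Q.act u x), h⟩ : (Sub.comp p).ss.S m) else ⟨P.deg p m, deg_mem_comp p m⟩) =
      (Sub.comp p).ss.act u (if h : g n x ∈ (Sub.comp p).car n then
        (⟨g n x, h⟩ : (Sub.comp p).ss.S n) else ⟨P.deg p n, deg_mem_comp p n⟩)
    rw [dif_pos h1, dif_pos h2]
    exact Subtype.ext (hg u x hx)
  · intro n x hx
    have h1 := hmem n x (hAC n hx)
    show (if h : g n x ∈ (Sub.comp p).car n then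
        (⟨g n x, h⟩ : (Sub.comp p).ss.S n) else ⟨P.deg p n, deg_mem_comp p n⟩) = f n x
    rw [dif_pos h1]
    exact Subtype.ext (hgf n x hx)

end MM
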