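import Pool.Agent.Lib_MP_33f7bb_d.A2Res

/-!
# A2: finiteness and connectivity of the resolution
-/

namespace MM

theorem finite_Ch {P : SS} (n : ℕ) (h : Finite (P.S n)) : Finite (Ch P n) :=
  Finite.of_injective (fun c : Ch P n => (c : P.S n → ZMod 2)) DFunLike.coe_injective

theorem finite_R {Z : SS} (z₀ : Z.S 0) (n : ℕ) (h : Finite (Z.S n)) : Finite ((R Z z₀).V n) := by
  have := finite_Ch n h
  exact Quotient.finite _

theorem R_eq_zero {Z : SS} (z₀ : Z.S 0) (n : ℕ) (h : ∀ x : Z.S n, x = Z.deg z₀ n)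
    (y : (R Z z₀).V n) : y = 0 := by
  have hy : y ∈ Submodule.span (ZMod 2) (Set.range ((R.of z₀).app n)) := by
    rw [R.span]; trivial
  induction hy using Submodule.span_induction with
  | mem x hx =>
    obtain ⟨u, rfl⟩ := hx
    rw [h u]
    exact R.of_base z₀ n
  | zero => rfl
  | add a b _ _ ha hb => rw [ha, hb, add_zero]
  | smul r a _ ha => rw [ha, smul_zero]

theorem deg_zv (V : SV) (n : ℕ) : V.ss.deg V.zv n = (0 : V.V n) := map_zero (V.act _)

theorem resU_finite (X : SS) (x₀ : X.S 0) (hX : ∀ n, Finite (X.S n)) :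
    ∀ s n, Finite ((resU X x₀ s).Z.S n)
  | 0, n => hX n
  | s + 1, n => finite_R _ n (resU_finite X x₀ hX s n)

theorem resV_finite (X : SS) (x₀ : X.S 0) (hX : ∀ n, Finite (X.S n)) (s n : ℕ) :
    Finite ((resV X x₀ s).V n) := finite_R _ n (resU_finite X x₀ hX s n)

theorem resU_eq_base (X : SS) (x₀ : X.S 0) (n : ℕ) (h : ∀ x : X.S n, x = X.deg x₀ n) :
    ∀ s, ∀ x : (resU X x₀ s).Z.S n, x = (resU X x₀ s).Z.deg (resU X x₀ s).pt n
  | 0, x => h x
  | s + 1, x => (R_eq_zero (resU X x₀ s).pt n (resU_eq_base X x₀ n h s) x).trans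
      (deg_zv _ n).symm

theorem resV_eq_zero (X : SS) (x₀ : X.S 0) (n : ℕ) (h : ∀ x : X.S n, x = X.deg x₀ n) (s : ℕ)
    (x : (resV X x₀ s).V n) : x = 0 :=
  R_eq_zero (resU X x₀ s).pt n (resU_eq_base X x₀ n h s) x

theorem SpS_finite (N n : ℕ) : Finite ((SpS N).S n) := by
  have : Finite {θ : Mo n N // Function.Surjective θ} := inferInstance
  exact inferInstanceAs (Finite (Option {θ : Mo n N // Function.Surjective θ}))

/-- below dimension `N` the sphere has only base simplices -/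
theorem SpS_eq_base (N n : ℕ) (h : n < N) (x : (SpS N).S n) :
    x = (SpS N).deg (none : (SpS N).S 0) n := by
  cases x with
  | none => rfl
  | some θ =>
    exfalso
    have h1 := Fintype.card_le_of_surjective _ θ.2
    simp at h1
    omega

theorem resV_SpS_finite (N s n : ℕ) : Finite ((resV (SpS N) none s).V n) :=
  resV_finite _ _ (SpS_finite N) s n

theorem resV_SpS_eq_zero (N s n : ℕ) (h : n < N) (x : (resV (SpS N) none s).V n) : x = 0 :=
  resV_eq_zero _ _ n (SpS_eq_base N n h) s x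

theorem resV_SpS_H (N s n : ℕ) (h : n < N) (x : (resV (SpS N) none s).H n) : x = 0 := by
  obtain ⟨⟨z, hz⟩, rfl⟩ := Submodule.Quotient.mk_surjective _ x
  rw [Submodule.Quotient.mk_eq_zero]
  show z ∈ (resV (SpS N) none s).B n
  rw [resV_SpS_eq_zero N s n h z]
  exact Submodule.zero_mem _

end MM
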