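import Pool.Agent.Lib_MP_33f7bb_d.A2Defs
import Pool.Agent.Lib_MP_33f7bb_d.A2Fin

/-!
# A2-02: compact topologies on `Tot` and on the base component

`exists_tot_topology`: give every finite set `(T.W s).V n` the discrete topology and `T.Tot.S m` the
topology induced by the injection `f ↦ (s, n, p) ↦ (f.1 s).app n p` into the product over all `s`, `n`,
`p : Mo n s × Mo n m`.  The product is compact Hausdorff (Tychonoff) and the image is closed: naturality
and the conditions `IsTot` are closed conditions (each involves only two coordinates, and any function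
between discrete spaces is continuous).  `act g` is continuous: its coordinate `(s, n, (θ, τ))` is the
coordinate `(s, n, (θ, g.comp τ))`.
Practical hint: work with `let X := ∀ s n, Mo n s × Mo n m → (T.W s).V n` with instances
`(inferInstance : TopologicalSpace)` built from `⊥`, and `Topology.IsClosedEmbedding`.

`exists_comp_topology`: the subspace topology.  The set of `y ∈ P_0` joined to `p` is the image of the
compact set `{e | act (cst 0) e = p}` (closed in the compact `P_1`, `P_0` is Hausdorff) under the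
continuous map `act (cst 1)`, so it is compact, so closed; `(Sub.comp p).car n` is the intersection of the
preimages of this set under the continuous maps `act (cst i)`.
-/

namespace MM

/-- the ambient product of finite sets -/
private abbrev a202X (T : Tower) (m : ℕ) : Type :=
  ∀ (s n : ℕ), Mo n s × Mo n m → (T.W s).V n

private def a202ev (T : Tower) (m : ℕ) (f : T.Tot.S m) : a202X T m :=
  fun s n p => (f.1 s).app n p

private theorem a202ev_inj (T : Tower) (m : ℕ) : Function.Injective (a202ev T m) := by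
  intro f g h
  apply Subtype.ext
  funext s
  apply Hom.ext
  funext n p
  exact congrFun (congrFun (congrFun h s) n) p

/-- the closed conditions -/
private structure A202C (T : Tower) (m : ℕ) (x : a202X T m) : Prop where
  nat : ∀ (s k l : ℕ) (g : Mo k l) (p : Mo l s × Mo l m),
    x s k (p.1.comp g, p.2.comp g) = (T.W s).act g (x s l p)
  d : ∀ (s i n : ℕ) (θ : Mo n s) (τ : Mo n m), i ≤ s + 1 →
    x (s + 1) n ((dl s i).comp θ, τ) = (T.d s i).app n (x s n (θ, τ))
  σ : ∀ (s j n : ℕ) (θ : Mo n (s + 1)) (τ : Mo n m), j ≤ s →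
    x s n ((sg s j).comp θ, τ) = (T.σ s j).app n (x (s + 1) n (θ, τ))

private theorem a202range (T : Tower) (m : ℕ) :
    Set.range (a202ev T m) = {x | A202C T m x} := by
  ext x
  constructor
  · rintro ⟨f, rfl⟩
    exact ⟨fun s k l g p => (f.1 s).nat g p, fun s i n θ τ hi => f.2.d s i n θ τ hi,
      fun s j n θ τ hj => f.2.σ s j n θ τ hj⟩
  · intro hx
    exact ⟨⟨fun s => ⟨fun n p => x s n p, fun {k l} g p => hx.nat s k l g p⟩,
      ⟨fun s i n θ τ hi => hx.d s i n θ τ hi, fun s j n θ τ hj => hx.σ s j n θ τ hj⟩⟩, rfl⟩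

private theorem a202closed (T : Tower) (m : ℕ) [∀ s n, TopologicalSpace ((T.W s).V n)]
    [∀ s n, DiscreteTopology ((T.W s).V n)] : IsClosed {x : a202X T m | A202C T m x} := by
  have hev : ∀ (s n : ℕ) (p : Mo n s × Mo n m), Continuous fun x : a202X T m => x s n p := by
    intro s n p
    exact (continuous_apply p).comp ((continuous_apply n).comp (continuous_apply s))
  have e1 : {x : a202X T m | A202C T m x} =
      (⋂ (s : ℕ) (k : ℕ) (l : ℕ) (g : Mo k l) (p : Mo l s × Mo l m),
        {x : a202X T m | x s k (p.1.comp g, p.2.comp g) = (T.W s).act g (x s l p)}) ∩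
      ((⋂ (s : ℕ) (i : ℕ) (n : ℕ) (θ : Mo n s) (τ : Mo n m) (_ : i ≤ s + 1),
        {x : a202X T m | x (s + 1) n ((dl s i).comp θ, τ) = (T.d s i).app n (x s n (θ, τ))}) ∩
      ⋂ (s : ℕ) (j : ℕ) (n : ℕ) (θ : Mo n (s + 1)) (τ : Mo n m) (_ : j ≤ s),
        {x : a202X T m | x s n ((sg s j).comp θ, τ) = (T.σ s j).app n (x (s + 1) n (θ, τ))}) := by
    ext x
    simp only [Set.mem_ofPred_eq, Set.mem_inter_iff, Set.mem_iInter]
    exact ⟨fun h => ⟨h.nat, h.d, h.σ⟩, fun h => ⟨h.1, h.2.1, h.2.2⟩⟩
  rw [e1]
  refine IsClosed.inter ?_ (IsClosed.inter ?_ ?_)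
  · refine isClosed_iInter fun s => isClosed_iInter fun k => isClosed_iInter fun l =>
      isClosed_iInter fun g => isClosed_iInter fun p => ?_
    exact isClosed_eq (hev s k _) ((continuous_of_discreteTopology
      (f := fun y : (T.W s).V l => (T.W s).act g y)).comp (hev s l p))
  · refine isClosed_iInter fun s => isClosed_iInter fun i => isClosed_iInter fun n =>
      isClosed_iInter fun θ => isClosed_iInter fun τ => isClosed_iInter fun _ => ?_
    exact isClosed_eq (hev (s + 1) n _) ((continuous_of_discreteTopology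
      (f := fun y : (T.W s).V n => ((T.d s i).app n y : (T.W (s + 1)).V n))).comp (hev s n (θ, τ)))
  · refine isClosed_iInter fun s => isClosed_iInter fun j => isClosed_iInter fun n =>
      isClosed_iInter fun θ => isClosed_iInter fun τ => isClosed_iInter fun _ => ?_
    exact isClosed_eq (hev s n _) ((continuous_of_discreteTopology
      (f := fun y : (T.W (s + 1)).V n => (T.σ s j).app n y)).comp (hev (s + 1) n (θ, τ)))

theorem exists_tot_topology (T : Tower) (hfin : ∀ s n, Finite ((T.W s).V n)) :
    ∃ τ : ∀ m, TopologicalSpace (T.Tot.S m),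
      (∀ m, @CompactSpace _ (τ m)) ∧ (∀ m, @T2Space _ (τ m)) ∧
      ∀ {m n : ℕ} (f : Mo m n), @Continuous _ _ (τ n) (τ m) (T.Tot.act f) := by
  let τV : ∀ s n, TopologicalSpace ((T.W s).V n) := fun _ _ => ⊥
  have hdV : ∀ s n, DiscreteTopology ((T.W s).V n) := fun _ _ => ⟨rfl⟩
  have hcV : ∀ s n, CompactSpace ((T.W s).V n) := fun s n => inferInstance
  let τ : ∀ m, TopologicalSpace (T.Tot.S m) := fun m =>
    TopologicalSpace.induced (a202ev T m) inferInstance
  have hemb : ∀ m, Topology.IsClosedEmbedding (a202ev T m) := by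
    intro m
    refine ⟨⟨⟨rfl⟩, a202ev_inj T m⟩, ?_⟩
    rw [a202range]
    exact a202closed T m
  refine ⟨τ, fun m => (hemb m).compactSpace, fun m => (hemb m).isEmbedding.t2Space, ?_⟩
  intro m n g
  refine continuous_induced_rng.2 ?_
  refine continuous_pi fun s => continuous_pi fun k => continuous_pi fun p => ?_
  have h1 : Continuous (a202ev T n) := (hemb n).continuous
  exact (continuous_apply (p.1, g.comp p.2)).comp
    ((continuous_apply k).comp ((continuous_apply s).comp h1))

theorem exists_comp_topology {P : SS} (p : P.S 0) (τ : ∀ m, TopologicalSpace (P.S m))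
    (hc : ∀ m, @CompactSpace _ (τ m)) (h2 : ∀ m, @T2Space _ (τ m))
    (hf : ∀ {m n : ℕ} (f : Mo m n), @Continuous _ _ (τ n) (τ m) (P.act f)) :
    ∃ τ' : ∀ m, TopologicalSpace ((Sub.comp p).ss.S m),
      (∀ m, @CompactSpace _ (τ' m)) ∧ (∀ m, @T2Space _ (τ' m)) ∧
      ∀ {m n : ℕ} (f : Mo m n), @Continuous _ _ (τ' n) (τ' m) ((Sub.comp p).ss.act f) := by
  have hJ : IsClosed {y : P.S 0 | Joined p y} := by
    have e1 : {y : P.S 0 | Joined p y} =
        (P.act (cst 1 : Mo 0 1)) '' {e : P.S 1 | P.act (cst 0 : Mo 0 1) e = p} := by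
      ext y
      constructor
      · rintro ⟨e, h0, h1⟩
        exact ⟨e, h0, h1⟩
      · rintro ⟨e, h0, h1⟩
        exact ⟨e, h0, h1⟩
    rw [e1]
    have h3 : IsClosed {e : P.S 1 | P.act (cst 0 : Mo 0 1) e = p} :=
      isClosed_eq (hf _) continuous_const
    exact (h3.isCompact.image (hf _)).isClosed
  have hcl : ∀ m, IsClosed ((Sub.comp p).car m) := by
    intro m
    have e1 : (Sub.comp p).car m =
        ⋂ i : Fin (m + 1), (P.act (cst i : Mo 0 m)) ⁻¹' {y : P.S 0 | Joined p y} := by
      ext x
      simp only [Set.mem_iInter]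
      rfl
    rw [e1]
    exact isClosed_iInter fun i => hJ.preimage (hf _)
  refine ⟨fun m => instTopologicalSpaceSubtype, fun m => ?_, fun m => ?_, ?_⟩
  · exact isCompact_iff_compactSpace.1 (hcl m).isCompact
  · exact inferInstanceAs (T2Space {x : P.S m // x ∈ (Sub.comp p).car m})
  · intro m n f
    exact Continuous.subtype_mk ((hf f).comp continuous_subtype_val) _

end MM
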