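import Pool.Agent.Lib_MP_33f7bb_d.A104
import Pool.Agent.Lib_MP_33f7bb_d.A2Defs

/-!
# A2-03: maps `K × Z → Tot T` vanishing on `K × pt` are maps `K → Tot (mapT T Z)`

`K ≤ Del k` a subcomplex.
`toMap`: given `f : Fn ((Del k).prod Z) T.Tot` natural on `bx K ⊤` and equal to `T.tot0` at all
`(θ, deg z₀)`, `θ ∈ K`.  Define the family on `Del k` (see `Tower.Fam`, `Tower.exists_toTot`)
`F s n (θ, x) ∈ (MapSV Z z₀ (T.W s)).V n`, for `θ : [n] → [s]`, `x ∈ K_n`: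
`(F s n (θ, x)).val l (ζ, z) = ((f l (x.comp ζ, z)).1 s).app l (θ.comp ζ, id)` (for `ζ : [l] → [n]`, `z ∈ Z_l`)
(zero for `x ∉ K`).  It is a family for `mapT T Z z₀` on `K`; get `g : Fn (Del k) (mapT ..).Tot`
natural on `K`.
`ofMap`: given `g : Fn (Del k) (mapT T Z z₀).Tot` natural on `K`, define the family on `(Del k).prod Z`:
`F s n (θ, (x, z)) = (((g n x).1 s).app n (θ, id)).val n (id, z)`; get `f`.
The two constructions are inverse to each other on `K` (only needed: the restriction to a smaller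
complex is compatible).
`ext_of_mapT`: `f` on `∂Δ^k × Z` gives `g` on `∂Δ^k`, extend `g` to `Δ^k` (hypothesis), go back, compare with
`f` on `∂Δ^k × Z` (`Tower.eq_of_fam`, or directly by `Subtype.ext`).
-/

namespace MM

/-- the element of the mapping space given by `f`, `θ`, `x` -/
private def A203_el (T : Tower) (Z : SS) (z₀ : Z.S 0) {k : ℕ} (K : Sub (Del k))
    (f : Fn ((Del k).prod Z) T.Tot) (hf : NatOn (Sub.bx K ⊤) f)
    (h0 : ∀ n, ∀ θ ∈ K.car n, f n (θ, Z.deg z₀ n) = T.tot0 n)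
    (s n : ℕ) (θ : Mo n s) (x : Mo n k) (hx : x ∈ K.car n) : (MapSV Z z₀ (T.W s)).V n :=
  ⟨fun l p => ((f l (x.comp p.1, p.2)).1 s).app l (θ.comp p.1, OrderHom.id), by
    intro m l h ζ z
    have hK : (x.comp ζ, z) ∈ (Sub.bx K (⊤ : Sub Z)).car l := ⟨K.closed ζ hx, trivial⟩
    have h1 : f m (x.comp (ζ.comp h), Z.act h z) = T.Tot.act h (f l (x.comp ζ, z)) :=
      hf h (x.comp ζ, z) hK
    show ((f m (x.comp (ζ.comp h), Z.act h z)).1 s).app m (θ.comp (ζ.comp h), OrderHom.id) =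
      (T.W s).act h (((f l (x.comp ζ, z)).1 s).app l (θ.comp ζ, OrderHom.id))
    rw [h1]
    exact ((f l (x.comp ζ, z)).1 s).nat h (θ.comp ζ, OrderHom.id), by
    intro l ζ
    show ((f l (x.comp ζ, Z.deg z₀ l)).1 s).app l (θ.comp ζ, OrderHom.id) = 0
    rw [h0 l (x.comp ζ) (K.closed ζ hx)]
    rfl⟩

private theorem A203_el_val (T : Tower) (Z : SS) (z₀ : Z.S 0) {k : ℕ} (K : Sub (Del k))
    (f : Fn ((Del k).prod Z) T.Tot) (hf : NatOn (Sub.bx K ⊤) f)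
    (h0 : ∀ n, ∀ θ ∈ K.car n, f n (θ, Z.deg z₀ n) = T.tot0 n)
    (s n : ℕ) (θ : Mo n s) (x : Mo n k) (hx : x ∈ K.car n) (l : ℕ) (ζ : Mo l n) (z : Z.S l) :
    MapSV.val (A203_el T Z z₀ K f hf h0 s n θ x hx) l (ζ, z) =
      ((f l (x.comp ζ, z)).1 s).app l (θ.comp ζ, OrderHom.id) := rfl

theorem exists_toMap (T : Tower) (Z : SS) (z₀ : Z.S 0) {k : ℕ} (K : Sub (Del k))
    (f : Fn ((Del k).prod Z) T.Tot) (hf : NatOn (Sub.bx K ⊤) f)
    (h0 : ∀ n, ∀ θ ∈ K.car n, f n (θ, Z.deg z₀ n) = T.tot0 n) :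
    ∃ g : Fn (Del k) (mapT T Z z₀).Tot, NatOn K g ∧
      ∀ n, ∀ x ∈ K.car n, ∀ s m (θ : Mo m s) (τ : Mo m n) l (ζ : Mo l m) (z : Z.S l),
        MapSV.val (((g n x).1 s).app m (θ, τ)) l (ζ, z) =
          ((f l ((x : Mo n k).comp (τ.comp ζ), z)).1 s).app l (θ.comp ζ, OrderHom.id) := by
  classical
  let F : ∀ s, Fn ((Del s).prod (Del k)) ((mapT T Z z₀).W s).ss := fun s n p =>
    if hx : p.2 ∈ K.car n then A203_el T Z z₀ K f hf h0 s n p.1 p.2 hx else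
      (0 : (MapSV Z z₀ (T.W s)).V n)
  have hFp : ∀ s n (θ : Mo n s) (x : Mo n k) (hx : x ∈ K.car n),
      F s n (θ, x) = A203_el T Z z₀ K f hf h0 s n θ x hx := fun s n θ x hx => dif_pos hx
  have hF : (mapT T Z z₀).Fam K F := by
    refine ⟨?_, ?_, ?_⟩
    · rintro s m n h ⟨θ, x⟩ hx
      have hx2 : x ∈ K.car n := hx.2
      show F s m (θ.comp h, x.comp h) = ((mapT T Z z₀).W s).act h (F s n (θ, x))
      rw [hFp s n θ x hx2, hFp s m (θ.comp h) (x.comp h) (K.closed h hx2)]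
      rfl
    · intro s i n θ x hx hi
      rw [hFp (s + 1) n ((dl s i).comp θ) x hx, hFp s n θ x hx]
      apply Subtype.ext
      funext l p
      exact (f l (x.comp p.1, p.2)).2.d s i l (θ.comp p.1) OrderHom.id hi
    · intro s j n θ x hx hj
      rw [hFp s n ((sg s j).comp θ) x hx, hFp (s + 1) n θ x hx]
      apply Subtype.ext
      funext l p
      exact (f l (x.comp p.1, p.2)).2.σ s j l (θ.comp p.1) OrderHom.id hj
  obtain ⟨g, hg, hgF⟩ := (mapT T Z z₀).exists_toTot K F hF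
  refine ⟨g, hg, ?_⟩
  intro n x hx s m θ τ l ζ z
  rw [hgF n x hx s m θ τ]
  have h1 : F s m (θ, (Del k).act τ x) =
      A203_el T Z z₀ K f hf h0 s m θ ((Del k).act τ x) (K.closed τ hx) :=
    hFp s m θ _ (K.closed τ hx)
  rw [h1]
  rfl

theorem exists_ofMap (T : Tower) (Z : SS) (z₀ : Z.S 0) {k : ℕ} (K : Sub (Del k))
    (g : Fn (Del k) (mapT T Z z₀).Tot) (hg : NatOn K g) :
    ∃ f : Fn ((Del k).prod Z) T.Tot, NatOn (Sub.bx K ⊤) f ∧
      (∀ n, ∀ θ ∈ K.car n, f n (θ, Z.deg z₀ n) = T.tot0 n) ∧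
      ∀ n, ∀ x ∈ K.car n, ∀ (z : Z.S n) s (θ : Mo n s),
        ((f n (x, z)).1 s).app n (θ, OrderHom.id) =
          MapSV.val (((g n x).1 s).app n (θ, OrderHom.id)) n (OrderHom.id, z) := by
  let F : ∀ s, Fn ((Del s).prod ((Del k).prod Z)) (T.W s).ss := fun s n p =>
    MapSV.val (((g n p.2.1).1 s).app n (p.1, OrderHom.id)) n (OrderHom.id, p.2.2)
  have hF : T.Fam (Sub.bx K (⊤ : Sub Z)) F := by
    refine ⟨?_, ?_, ?_⟩
    · rintro s m n h ⟨θ, x, z⟩ hx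
      have hx2 : x ∈ K.car n := hx.2.1
      have h1 : g m (x.comp h) = (mapT T Z z₀).Tot.act h (g n x) := hg h x hx2
      have h2 : ((g n x).1 s).app m (θ.comp h, h) =
          ((mapT T Z z₀).W s).act h (((g n x).1 s).app n (θ, OrderHom.id)) :=
        ((g n x).1 s).nat h (θ, OrderHom.id)
      show MapSV.val (((g m (x.comp h)).1 s).app m (θ.comp h, OrderHom.id)) m
        (OrderHom.id, Z.act h z) = (T.W s).act h
          (MapSV.val (((g n x).1 s).app n (θ, OrderHom.id)) n (OrderHom.id, z))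
      rw [h1]
      show MapSV.val (((g n x).1 s).app m (θ.comp h, h)) m (OrderHom.id, Z.act h z) = _
      rw [h2]
      exact MapSV.val_nat (((g n x).1 s).app n (θ, OrderHom.id)) h OrderHom.id z
    · rintro s i n θ ⟨x, z⟩ hx hi
      have h1 := (g n x).2.d s i n θ OrderHom.id hi
      exact congrArg (fun u => MapSV.val (z₀ := z₀) u n (OrderHom.id, z)) h1
    · rintro s j n θ ⟨x, z⟩ hx hj
      have h1 := (g n x).2.σ s j n θ OrderHom.id hj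
      exact congrArg (fun u => MapSV.val (z₀ := z₀) u n (OrderHom.id, z)) h1
  obtain ⟨f, hf, hfF⟩ := T.exists_toTot (Sub.bx K (⊤ : Sub Z)) F hF
  refine ⟨f, hf, ?_, ?_⟩
  · intro n θ hθ
    rw [T.tot_ext_iff]
    intro s m ϑ τ
    rw [hfF n (θ, Z.deg z₀ n) ⟨hθ, trivial⟩ s m ϑ τ]
    have h1 : Z.act τ (Z.deg z₀ n) = Z.deg z₀ m := by
      show Z.act τ (Z.act (cst 0) z₀) = Z.act (cst 0) z₀
      rw [Z.act_comp]
      rfl
    show MapSV.val (((g m (θ.comp τ)).1 s).app m (ϑ, OrderHom.id)) m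
      (OrderHom.id, Z.act τ (Z.deg z₀ n)) = 0
    rw [h1]
    exact MapSV.val_base _ m OrderHom.id
  · intro n x hx z s θ
    rw [hfF n (x, z) ⟨hx, trivial⟩ s n θ OrderHom.id]
    have h1 : Z.act (OrderHom.id : Mo n n) z = z := Z.act_id z
    show MapSV.val (((g n x).1 s).app n (θ, OrderHom.id)) n
      (OrderHom.id, Z.act (OrderHom.id : Mo n n) z) = _
    rw [h1]

theorem ext_of_mapT (T : Tower) (Z : SS) (z₀ : Z.S 0) (k : ℕ)
    (hr : ExtP (mapT T Z z₀).Tot (bd k) (⊤ : Sub (Del k)))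
    (f : Fn ((Del k).prod Z) T.Tot) (hf : NatOn (Sub.bx (bd k) ⊤) f)
    (h0 : ∀ n, ∀ θ ∈ (bd k).car n, f n (θ, Z.deg z₀ n) = T.tot0 n) :
    ∃ g : Fn ((Del k).prod Z) T.Tot, NatOn (Sub.bx ⊤ ⊤) g ∧
      (∀ n (θ : Mo n k), g n (θ, Z.deg z₀ n) = T.tot0 n) ∧
      ∀ n, ∀ θ ∈ (bd k).car n, ∀ z : Z.S n, g n (θ, z) = f n (θ, z) := by
  obtain ⟨g₀, hg₀, hgv⟩ := exists_toMap T Z z₀ (bd k) f hf h0
  obtain ⟨g₁, hg₁, hg₀₁⟩ := hr g₀ hg₀
  obtain ⟨f₁, hf₁, hf0, hfv⟩ := exists_ofMap T Z z₀ ⊤ g₁ hg₁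
  refine ⟨f₁, hf₁, fun n θ => hf0 n θ trivial, ?_⟩
  intro n θ hθ z
  refine T.eq_of_fam (Sub.bx (bd k) (⊤ : Sub Z)) f₁ f
    (fun {m n} h x hx => hf₁ h x ⟨trivial, trivial⟩) hf ?_ n (θ, z) ⟨hθ, trivial⟩
  rintro s m ⟨x, z⟩ hx ϑ
  have hx1 : x ∈ (bd k).car m := hx.1
  have h1 := hfv m x trivial z s ϑ
  rw [hg₀₁ m x hx1] at h1
  exact h1.trans (hgv m x hx1 s m ϑ OrderHom.id m OrderHom.id z)

end MM
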