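import Pool.Agent.Lib_MP_33f7bb_d.A018
import Pool.Agent.Lib_MP_33f7bb_d.A201
import Pool.Agent.Lib_MP_33f7bb_d.A203

/-!
# A2-04: the base component of `Tot` is null for `B(ZMod 2)` (X4)

`Y = T.Y`, `B = BZ2`, `pt` = the subcomplex of the base point; `B` has only one vertex (`K1.V 0` is a
point).  Let `f` be natural on `box = ∂Δ^k × B ∪ Δ^k × pt` with values in `Y`.

Step 1.  A homotopy `h` on `Δ^1 × Δ^k`, `h(0, θ) = ` base, `h(1, θ) = f(θ, pt)`: on
`Sub.box (bd 1) ⊤ (Sub.pt (cst 0)) ⊤` in `Δ^1 × Δ^k` prescribe: base at the end `0`, `f(θ, pt)` at the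
end `1`, and on `Δ^1 × {vertex 0}` an edge of `Y` from the base vertex to `f(v_0, pt)` (the vertex is in
the base component; the edge itself lies in the base component since its two vertices do).  Extend by
`extAll_comp`; the pair is acyclic by `acyc_box_right` and `acyc_Del_pt`.
Step 2.  On `Δ^1 × box` in `Δ^1 × (Δ^k × B)`: given `f` at the end `1` and `h` on `Δ^1 × (Δ^k × pt)`,
extend to `H` on `Δ^1 × box` (`acyc_hep` with `i = 1`, `A = bx ⊤ pt ≤ C = box`).  `f' = H(0, ·)` is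
natural on `box` and is the base on `Δ^k × pt`.
Step 3.  `ext_of_mapT` for `f'` (composed with the inclusion `Y ⊂ Tot`): `g'` on `Δ^k × B`, equal to
`f'` on `∂Δ^k × B` and to the base on `Δ^k × pt`.  It has values in `Y`: every vertex of `Δ^k × B` is of the
form `(v, pt)`, where `g'` is the base vertex (`mem_comp`).
Step 4.  On `Δ^1 × (Δ^k × B)`: given `g'` at the end `0` and `H` on `Δ^1 × box`, extend (`acyc_hep` with
`i = 0`); the value at the end `1` is the required extension of `f`.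
-/

namespace MM

private theorem A204_deg_act {P : SS} (p : P.S 0) {m n : ℕ} (g : Mo m n) :
    P.act g (P.deg p n) = P.deg p m := by
  show P.act g (P.act (cst 0) p) = P.act (cst 0) p
  rw [P.act_comp]
  rfl

private theorem A204_vertex (x : BZ2.S 0) : x = BZ2.deg K1.zv 0 := by
  apply Subtype.ext
  funext i
  have h1 : ∀ y : BZ2.S 0, y.1 i = 0 := by
    intro y
    have hy := y.2
    simp only [LinearMap.mem_ker, LinearMap.proj_apply] at hy
    have hi : i = 0 := Fin.ext (by have := i.2; simp)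
    rw [hi]
    exact hy
  rw [h1, h1]

private theorem A204_cst_ne {n : ℕ} : (cst 0 : Mo n 1) ≠ cst 1 := by
  intro h
  have h1 : (0 : Fin 2) = 1 := congrArg (fun f : Mo n 1 => (f : Fin (n + 1) → Fin 2) 0) h
  exact absurd h1 (by decide)

private theorem A204_bd1 {n : ℕ} (s : Mo n 1) (h : s ∈ (bd 1).car n) : s = cst 0 ∨ s = cst 1 := by
  have h1 : ¬ Function.Surjective (s : Fin (n + 1) → Fin 2) := h
  by_cases h0 : ∃ i, s i = 0
  · left
    obtain ⟨i, hi⟩ := h0
    ext j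
    show ((s j : Fin 2) : ℕ) = 0
    by_contra hj
    apply h1
    intro y
    have hj' : s j = 1 := by
      have : ∀ a : Fin 2, (a : ℕ) ≠ 0 → a = 1 := by decide
      exact this _ hj
    have hy : ∀ a : Fin 2, a = 0 ∨ a = 1 := by decide
    rcases hy y with rfl | rfl
    · exact ⟨i, hi⟩
    · exact ⟨j, hj'⟩
  · right
    ext j
    show ((s j : Fin 2) : ℕ) = 1
    have : ∀ a : Fin 2, a ≠ 0 → (a : ℕ) = 1 := by decide
    exact this _ fun h => h0 ⟨j, h⟩

/-- Step 1: deformation of a map on a simplex to a point which is joined to it -/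
private theorem A204_step1 {Y : SS} (hY : ExtAll Y) {k : ℕ} (b : Y.S 0) (u : Fn (Del k) Y)
    (hu : NatOn (⊤ : Sub (Del k)) u) (hj : Joined b (u 0 (cst 0))) :
    ∃ h : Fn ((Del 1).prod (Del k)) Y, NatOn (Sub.bx ⊤ ⊤) h ∧
      (∀ n (θ : Mo n k), h n (cst 0, θ) = Y.deg b n) ∧
      ∀ n (θ : Mo n k), h n (cst 1, θ) = u n θ := by
  classical
  obtain ⟨e, he0, he1⟩ := hj
  let h0 : Fn ((Del 1).prod (Del k)) Y := fun n x =>
    if x.1 = cst 0 then Y.deg b n else if x.1 = cst 1 then u n x.2 else Y.act x.1 e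
  have ha : ∀ n (θ : Mo n k), h0 n (cst 0, θ) = Y.deg b n := fun n θ => if_pos rfl
  have hb : ∀ n (θ : Mo n k), h0 n (cst 1, θ) = u n θ := fun n θ => by
    show (if _ then _ else _) = _
    rw [if_neg (fun h => A204_cst_ne h.symm)]
    exact if_pos rfl
  have hc : ∀ n (s : Mo n 1), h0 n (s, cst 0) = Y.act s e := by
    intro n s
    by_cases h1 : s = cst 0
    · subst h1
      rw [ha]
      have h2 : (cst 0 : Mo n 1) = (cst 0 : Mo 0 1).comp (cst 0 : Mo n 0) := rfl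
      rw [h2, ← Y.act_comp, he0]
      rfl
    · by_cases h2 : s = cst 1
      · subst h2
        rw [hb]
        have h3 : (cst 1 : Mo n 1) = (cst 1 : Mo 0 1).comp (cst 0 : Mo n 0) := rfl
        rw [h3, ← Y.act_comp, he1]
        exact hu (cst 0 : Mo n 0) (cst 0 : Mo 0 k) trivial
      · show (if _ then _ else _) = _
        rw [if_neg h1]
        exact if_neg h2
  have hnat : NatOn (Sub.box (bd 1) ⊤ (Sub.pt (P := Del k) (cst 0 : Mo 0 k)) ⊤) h0 := by
    rintro m n g ⟨s, θ⟩ ⟨-, hs | hs⟩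
    · show h0 m (s.comp g, θ.comp g) = Y.act g (h0 n (s, θ))
      rcases A204_bd1 s hs with rfl | rfl
      · rw [ha, cst_comp, ha, A204_deg_act]
      · rw [hb, cst_comp, hb]
        exact hu g θ trivial
    · have hθ : θ = cst 0 := hs
      subst hθ
      show h0 m (s.comp g, (cst 0 : Mo n k).comp g) = Y.act g (h0 n (s, cst 0))
      rw [cst_comp, hc, hc, Y.act_comp]
  have hac : Acyc (Sub.box (bd 1) ⊤ (Sub.pt (P := Del k) (cst 0 : Mo 0 k)) ⊤)
      (Sub.bx (⊤ : Sub (Del 1)) (⊤ : Sub (Del k))) :=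
    acyc_box_right (Sub.le_top' _) (Sub.le_top' _) (acyc_Del_pt k 0)
  have hle : Sub.box (bd 1) ⊤ (Sub.pt (P := Del k) (cst 0 : Mo 0 k)) ⊤ ≤
      Sub.bx (⊤ : Sub (Del 1)) (⊤ : Sub (Del k)) := fun n x hx => (Sub.mem_box.1 hx).1
  obtain ⟨h, hh, hhf⟩ := hY _ _ _ hle hac h0 hnat
  refine ⟨h, hh, fun n θ => ?_, fun n θ => ?_⟩
  · rw [hhf n (cst 0, θ) ⟨⟨trivial, trivial⟩, Or.inl ?_⟩, ha]
    intro hs
    obtain ⟨i, hi⟩ := hs 1
    exact absurd (show (0 : Fin 2) = 1 from hi) (by decide)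
  · rw [hhf n (cst 1, θ) ⟨⟨trivial, trivial⟩, Or.inl ?_⟩, hb]
    intro hs
    obtain ⟨i, hi⟩ := hs 0
    exact absurd (show (1 : Fin 2) = 0 from hi) (by decide)

/-- homotopy extension: a homotopy on `A`, given at the end `i` on `C` -/
private theorem A204_hep {Y P : SS} (hY : ExtAll Y) {A C : Sub P} (hA : A ≤ C) (i : Fin 2)
    (u : Fn P Y) (hu : NatOn C u) (h : Fn ((Del 1).prod P) Y) (hh : NatOn (Sub.bx ⊤ A) h)
    (hi : ∀ n, ∀ x ∈ A.car n, h n (cst i, x) = u n x) :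
    ∃ H : Fn ((Del 1).prod P) Y, NatOn (Sub.bx ⊤ C) H ∧
      (∀ n, ∀ x ∈ C.car n, H n (cst i, x) = u n x) ∧
      ∀ n s, ∀ x ∈ A.car n, H n (s, x) = h n (s, x) := by
  classical
  let H0 : Fn ((Del 1).prod P) Y := fun n x => if x.2 ∈ A.car n then h n x else u n x.2
  have ha : ∀ n s, ∀ x ∈ A.car n, H0 n (s, x) = h n (s, x) := fun n s x hx => if_pos hx
  have hb : ∀ n (x : P.S n), H0 n (cst i, x) = u n x := by
    intro n x
    by_cases hx : x ∈ A.car n
    · rw [ha n _ x hx, hi n x hx]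
    · exact if_neg hx
  have hnat : NatOn (Sub.box (Sub.pt (P := Del 1) (cst i : Mo 0 1)) ⊤ A C) H0 := by
    rintro m n g ⟨s, x⟩ ⟨⟨-, hxC⟩, hs | hx⟩
    · have hs' : s = cst i := hs
      subst hs'
      show H0 m ((cst i : Mo n 1).comp g, P.act g x) = Y.act g (H0 n (cst i, x))
      rw [cst_comp, hb, hb]
      exact hu g x hxC
    · show H0 m (s.comp g, P.act g x) = Y.act g (H0 n (s, x))
      rw [ha m _ _ (A.closed g hx), ha n s x hx]
      exact hh g (s, x) ⟨trivial, hx⟩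
  have hle : Sub.box (Sub.pt (P := Del 1) (cst i : Mo 0 1)) ⊤ A C ≤
      Sub.bx (⊤ : Sub (Del 1)) C := fun n x hx => (Sub.mem_box.1 hx).1
  obtain ⟨H, hH, hHf⟩ := hY _ _ _ hle (acyc_hep hA i) H0 hnat
  refine ⟨H, hH, fun n x hx => ?_, fun n s x hx => ?_⟩
  · rw [hHf n (cst i, x) ⟨⟨trivial, hx⟩, Or.inl rfl⟩, hb]
  · rw [hHf n (s, x) ⟨⟨trivial, hA n hx⟩, Or.inr hx⟩, ha n s x hx]

theorem good_Y (T : Tower) (hE : ExtAll T.Tot)
    (hr : ∀ k, ExtP (mapT T BZ2 K1.zv).Tot (bd k) (⊤ : Sub (Del k))) :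
    Good T.Y (Sub.pt (P := BZ2) (0 : K1.V 0)) ⊤ := by
  classical
  intro k f hf
  have hEY : ExtAll T.Y := extAll_comp hE _
  -- the base vertex of `Y`
  let b : T.Y.S 0 := ⟨T.tot0 0, (mem_comp_zero _ _).2 (joined_self _)⟩
  have hbd : ∀ n, (T.Y.deg b n).1 = T.tot0 n := fun n => rfl
  have hjoin : ∀ y : T.Y.S 0, Joined b y := by
    rintro ⟨y, hy⟩
    obtain ⟨e, he0, he1⟩ := (mem_comp_zero _ _).1 hy
    refine ⟨⟨e, ?_⟩, Subtype.ext he0, Subtype.ext he1⟩
    intro i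
    have hi : ∀ j : Fin 2, j = 0 ∨ j = 1 := by decide
    rcases hi i with rfl | rfl
    · show Joined _ (T.Tot.act (cst 0) e)
      rw [he0]
      exact joined_self _
    · show Joined _ (T.Tot.act (cst 1) e)
      rw [he1]
      exact (mem_comp_zero _ _).1 hy
  -- the subcomplexes
  let A : Sub ((Del k).prod BZ2) := Sub.bx ⊤ (Sub.pt (P := BZ2) K1.zv)
  let C : Sub ((Del k).prod BZ2) := Sub.box (bd k) ⊤ (Sub.pt (P := BZ2) K1.zv) ⊤
  have hAC : A ≤ C := fun n x hx => ⟨⟨trivial, trivial⟩, Or.inr hx.2⟩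
  have hf' : NatOn C f := hf
  have hdegA : ∀ n (θ : Mo n k), ((θ, BZ2.deg K1.zv n) : ((Del k).prod BZ2).S n) ∈ A.car n :=
    fun n θ => ⟨trivial, rfl⟩
  -- Step 1
  obtain ⟨h, hh, hh0, hh1⟩ := A204_step1 hEY b (fun n (θ : Mo n k) => f n (θ, BZ2.deg K1.zv n))
    (by
      intro m n g θ _
      show f m (θ.comp g, BZ2.deg K1.zv m) = T.Y.act g (f n (θ, BZ2.deg K1.zv n))
      rw [← hf' g (θ, BZ2.deg K1.zv n) (hAC n (hdegA n θ))]
      show _ = f m (θ.comp g, BZ2.act g (BZ2.deg K1.zv n))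
      rw [A204_deg_act]) (hjoin _)
  -- Step 2
  obtain ⟨H, hH, hH1, hHA⟩ := A204_hep hEY hAC 1 f hf' (fun n x => h n (x.1, x.2.1))
    (by
      rintro m n g ⟨s, θ, x⟩ _
      exact hh g (s, θ) ⟨trivial, trivial⟩)
    (by
      rintro n ⟨θ, x⟩ ⟨-, hx⟩
      have hx' : x = BZ2.deg K1.zv n := hx
      subst hx'
      exact hh1 n θ)
  have hH0 : ∀ n (θ : Mo n k), H n (cst 0, (θ, BZ2.deg K1.zv n)) = T.Y.deg b n := by
    intro n θ
    rw [hHA n (cst 0) _ (hdegA n θ)]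
    exact hh0 n θ
  have hH0nat : NatOn C (fun n x => H n (cst 0, x)) := by
    intro m n g x hx
    have := hH g (cst 0, x) ⟨trivial, hx⟩
    exact this
  -- Step 3
  obtain ⟨g', hg', hg'0, hg'f⟩ := ext_of_mapT T BZ2 K1.zv k (hr k)
    (fun n x => (H n (cst 0, x)).1)
    (by
      intro m n g x hx
      have := hH0nat g x ⟨⟨trivial, trivial⟩, Or.inl hx.1⟩
      exact congrArg Subtype.val this)
    (by
      intro n θ _
      show (H n (cst 0, (θ, BZ2.deg K1.zv n))).1 = _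
      rw [hH0]
      exact hbd n)
  have hmem : ∀ n (x : ((Del k).prod BZ2).S n), g' n x ∈ (Sub.comp (P := T.Tot) (T.tot0 0)).car n := by
    rintro n ⟨θ, x⟩
    rw [mem_comp]
    intro i
    have h1 := hg' (cst i : Mo 0 n) (θ, x) ⟨trivial, trivial⟩
    have h2 : g' 0 (((Del k).prod BZ2).act (cst i : Mo 0 n) (θ, x)) = T.tot0 0 := by
      show g' 0 (θ.comp (cst i), BZ2.act (cst i) x) = _
      rw [A204_vertex (BZ2.act (cst i) x)]
      exact hg'0 0 _
    rw [← h1, h2]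
    exact (mem_comp_zero _ _).2 (joined_self _)
  -- Step 4
  obtain ⟨K, hK, hK0, hKC⟩ := A204_hep hEY (Sub.le_top' C) 0
    (fun n x => (⟨g' n x, hmem n x⟩ : T.Y.S n))
    (by
      intro m n g x _
      exact Subtype.ext (hg' g x ⟨trivial, trivial⟩))
    H hH
    (by
      rintro n ⟨θ, x⟩ ⟨-, hx | hx⟩
      · apply Subtype.ext
        exact (hg'f n θ hx x).symm
      · have hx' : x = BZ2.deg K1.zv n := hx
        subst hx'
        apply Subtype.ext
        show (H n (cst 0, (θ, BZ2.deg K1.zv n))).1 = g' n (θ, BZ2.deg K1.zv n)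
        rw [hH0, hg'0]
        exact hbd n)
  refine ⟨fun n x => K n (cst 1, x), ?_, ?_⟩
  · intro m n g x _
    have := hK g (cst 1, x) ⟨trivial, trivial⟩
    exact this
  · intro n x hx
    show K n (cst 1, x) = f n x
    rw [hKC n (cst 1) x hx, hH1 n x hx]

end MM
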