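import Pool.Agent.Lib_MP_33f7bb_d.A008
import Pool.Agent.Lib_MP_33f7bb_d.A2Defs
import Pool.Agent.Lib_MP_33f7bb_d.A2Fin

/-!
# A2-05: the coaugmentation and an essential map `∂Δ^(N+1) → Y` (X2)

`coaug_d`: `d^i ∘ coaug s = coaug (s+1)` for all `i ≤ s + 1`: induction on `s`; `i = 0` is the
definition; `i = i' + 1`: `d^(i'+1) d^0 = d^0 d^(i')` (`res_dd`).
`coaug_σ`: `σ^j ∘ coaug (s+1) = σ^j d^j coaug s = coaug s` (`res_sd_eq`).
`exists_xi`: the map `ξ : X → Tot`, `(ξ x) s (θ, τ) = coaug s (act τ x)`; `pr0 ∘ ξ = R.of`.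
For `X = SpS N`, `N ≥ 1`, `X` has only one vertex, which goes to the base vertex, so `ξ` has values in the
base component.
`d_top`: the boundary of every element of `(R (SpS N) none).V (N+1)` is zero: it is spanned by the
classes of `some θ`, `θ : [N+1] → [N]` surjective, i.e. `θ = sgm i`; the faces `k = i, i + 1` of `sgm i`
are both the identity and cancel, the other faces are not surjective, i.e. base simplices.
`top_ne_zero`: the class of `SpS.top N` is not zero: `Finsupp.single _ 1` is not supported on the base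
simplex.
`not_null`.  Suppose `m = ξ ∘ collapse : (bd (N+1)).ss → Y` is null.  Compose the homotopy with `pr0`:
a homotopy of maps `(bd (N+1)).ss → (R (SpS N) none).ss` from `R.of ∘ collapse` to a constant map, whose
value is `0` (`(resV ..).V 0 = 0`, `resV_SpS_eq_zero`).  By `htp_iff`, for the cycle
`z = ∑_i [δ_i] ∈ Ch (bd (N+1)).ss N` (it is a cycle: `dif_dif` for the identity simplex of `Del (N+1)`),
`linExt (R.of ∘ collapse) z = [SpS.top N]` is a boundary.  Contradiction.  (`collapse` of `δ_i`,
`i ≥ 1`, is `none`: `δ_i` takes the value `0`; of `δ_0` it is `some id = SpS.top N`.)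
-/

namespace MM

theorem coaug_d (X : SS) (x₀ : X.S 0) (s i n : ℕ) (x : X.S n) (hi : i ≤ s + 1) :
    (resD X x₀ (s + 1) i).f.app n ((coaug X x₀ s).app n x) = (coaug X x₀ (s + 1)).app n x := by
  induction s generalizing i with
  | zero =>
    cases i with
    | zero => rfl
    | succ i =>
      obtain rfl : i = 0 := by omega
      exact res_dd X x₀ 0 0 0 n x le_rfl le_rfl
  | succ s ih =>
    cases i with
    | zero => rfl
    | succ i =>
      have h1 := res_dd X x₀ (s + 1) 0 i n ((coaug X x₀ s).app n x) (Nat.zero_le _) (by omega)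
      refine Eq.trans h1 ?_
      rw [ih i (by omega)]
      rfl

theorem coaug_σ (X : SS) (x₀ : X.S 0) (s j n : ℕ) (x : X.S n) (hj : j ≤ s) :
    (resS X x₀ s j).app n ((coaug X x₀ (s + 1)).app n x) = (coaug X x₀ s).app n x := by
  rw [← coaug_d X x₀ s j n x (by omega)]
  exact res_sd_eq X x₀ s j n _ hj

private theorem A205_coaug_base (X : SS) (x₀ : X.S 0) (s n : ℕ) :
    (coaug X x₀ s).app n (X.deg x₀ n) = (0 : (resV X x₀ s).V n) := by
  induction s with
  | zero => exact R.of_base x₀ n
  | succ s ih =>
    show (resD X x₀ (s + 1) 0).f.app n ((coaug X x₀ s).app n (X.deg x₀ n)) = _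
    rw [ih]
    exact (resT X x₀).d_zero s 0 n

theorem exists_xi (X : SS) (x₀ : X.S 0) :
    ∃ ξ : Hom X (resT X x₀).Tot, (∀ n x, (resT X x₀).pr0.app n (ξ.app n x) = (R.of x₀).app n x) ∧
      ξ.app 0 x₀ = (resT X x₀).tot0 0 := by
  let ξ : Hom X (resT X x₀).Tot :=
    { app := fun n x => ⟨fun s => ⟨fun m p => (coaug X x₀ s).app m (X.act p.2 x), fun g p => by
          show (coaug X x₀ s).app _ (X.act (p.2.comp g) x) = _
          rw [← X.act_comp]
          exact (coaug X x₀ s).nat g _⟩,
        ⟨fun s i m θ τ hi => (coaug_d X x₀ s i m (X.act τ x) hi).symm,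
          fun s j m θ τ hj => (coaug_σ X x₀ s j m (X.act τ x) hj).symm⟩⟩
      nat := by
        intro m n f x
        apply Subtype.ext
        funext s
        apply Hom.ext
        funext k p
        show (coaug X x₀ s).app k (X.act p.2 (X.act f x)) = (coaug X x₀ s).app k (X.act (f.comp p.2) x)
        rw [X.act_comp] }
  refine ⟨ξ, ?_, ?_⟩
  · intro n x
    show (coaug X x₀ 0).app n (X.act (OrderHom.id) x) = _
    rw [X.act_id]
    rfl
  · apply Subtype.ext
    funext s
    apply Hom.ext
    funext k p
    have h1 : (p.2 : Mo k 0) = cst 0 := by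
      ext i
      have := (p.2 i).2
      show ((p.2 i : Fin 1) : ℕ) = 0
      omega
    show (coaug X x₀ s).app k (X.act p.2 x₀) = (0 : (resV X x₀ s).V k)
    rw [h1]
    exact A205_coaug_base X x₀ s k

private theorem A205_surj_id {N : ℕ} (g : Mo N N) (hg : Function.Surjective g) :
    g = OrderHom.id := by
  have hi : Function.Injective g := Finite.injective_iff_surjective.2 hg
  apply OrderHom.ext
  refine ((g.monotone.strictMono_of_injective hi).range_inj
    (g := ((OrderHom.id : Mo N N) : Fin (N + 1) → Fin (N + 1))) strictMono_id).1 ?_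
  rw [hg.range_eq]
  exact (Set.range_id).symm

private theorem A205_of_none (N n : ℕ) :
    (R.of (Z := SpS N) none).app n none = (0 : (R (SpS N) none).V n) := R.of_base (Z := SpS N) none n

theorem d_top (N : ℕ) (w : (R (SpS N) none).V (N + 1)) : (R (SpS N) none).d N w = 0 := by
  classical
  have hw : w ∈ Submodule.span (ZMod 2) (Set.range ((R.of (Z := SpS N) none).app (N + 1))) := by
    rw [R.span]; trivial
  induction hw using Submodule.span_induction with
  | zero => exact map_zero _
  | add a b _ _ ha hb => rw [map_add, ha, hb, add_zero]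
  | smul r a _ ha => rw [map_smul, ha, smul_zero]
  | mem a ha =>
    obtain ⟨x, rfl⟩ := ha
    cases x with
    | none =>
      rw [show (R.of (Z := SpS N) none).app (N + 1) none = (0 : (R (SpS N) none).V (N + 1)) from
        A205_of_none N (N + 1)]
      exact map_zero _
    | some θ =>
      obtain ⟨θ, hθ⟩ := θ
      -- `θ` is a codegeneracy
      have hni : ¬ Function.Injective θ := by
        intro hi
        have h1 := Fintype.card_le_of_injective _ hi
        simp at h1
      obtain ⟨i, g, rfl⟩ := exists_sgm θ hni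
      have hg : g = OrderHom.id := by
        apply A205_surj_id
        intro y
        obtain ⟨t, ht⟩ := hθ y
        exact ⟨sgm i t, ht⟩
      subst hg
      have e1 : ∀ k : Fin (N + 2), (R (SpS N) none).act (dlt k)
          ((R.of (Z := SpS N) none).app (N + 1) (some ⟨OrderHom.id.comp (sgm i), hθ⟩)) =
          (R.of (Z := SpS N) none).app N ((SpS N).act (dlt k)
            (some ⟨OrderHom.id.comp (sgm i), hθ⟩)) := fun k =>
        ((R.of (Z := SpS N) none).nat (dlt k) _).symm
      have e2 : ∀ k : Fin (N + 2), (k = i.castSucc ∨ k = i.succ) →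
          (SpS N).act (dlt k) (some ⟨OrderHom.id.comp (sgm i), hθ⟩) = SpS.top N := by
        intro k hk
        have h2 : ((OrderHom.id.comp (sgm i)).comp (dlt k) : Mo N N) = OrderHom.id := by
          rcases hk with rfl | rfl
          · exact sgm_comp_dlt_castSucc i
          · exact sgm_comp_dlt_succ i
        have h3 : Function.Surjective ((OrderHom.id.comp (sgm i)).comp (dlt k) : Mo N N) := by
          rw [h2]; exact fun y => ⟨y, rfl⟩
        rw [SpS_act_some _ _ hθ h3]
        unfold SpS.top
        congr 1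
        exact Subtype.ext h2
      have e3 : ∀ k : Fin (N + 2), ¬ (k = i.castSucc ∨ k = i.succ) →
          (SpS N).act (dlt k) (some ⟨OrderHom.id.comp (sgm i), hθ⟩) = none := by
        intro k hk
        rw [not_or] at hk
        refine SpS_act_some_none _ _ hθ ?_
        intro h3
        have h4 := A205_surj_id _ h3
        obtain ⟨u, hu⟩ := Fin.exists_succAbove_eq (Ne.symm hk.1)
        obtain ⟨v, hv⟩ := Fin.exists_succAbove_eq (Ne.symm hk.2)
        have h5 : ∀ z : Fin (N + 1), sgm i (k.succAbove z) = z := fun z =>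
          congrArg (fun f : Mo N N => f z) h4
        have h6 : sgm i i.castSucc = i := congrArg (fun f : Mo N N => f i) (sgm_comp_dlt_castSucc i)
          |> fun h => by
            have h7 : (dlt i.castSucc : Mo N (N + 1)) i = i.succ := by
              show i.castSucc.succAbove i = i.succ
              exact Fin.succAbove_castSucc_self i
            exact Fin.predAbove_castSucc_self i
        have h8 : sgm i i.succ = i := Fin.predAbove_succ_self i
        have h9 : u = i := by rw [← h5 u, hu, h6]
        have h10 : v = i := by rw [← h5 v, hv, h8]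
        rw [h9] at hu
        rw [h10] at hv
        have h11 := hu.symm.trans hv
        exact (Fin.castSucc_lt_succ (i := i)).ne h11
      rw [SV.d, LinearMap.sum_apply]
      rw [← Finset.sum_subset (Finset.subset_univ ({i.castSucc, i.succ} : Finset (Fin (N + 2))))]
      · rw [Finset.sum_pair (Fin.castSucc_lt_succ (i := i)).ne, e1, e1, e2 _ (Or.inl rfl),
          e2 _ (Or.inr rfl)]
        exact two_eq_zero' _
      · intro k _ hk
        rw [Finset.mem_insert, Finset.mem_singleton] at hk
        rw [e1, e3 k hk]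
        exact A205_of_none N N

theorem top_ne_zero (N : ℕ) : ((R.of (Z := SpS N) none).app N (SpS.top N) :
    (R (SpS N) none).V N) ≠ 0 := by
  intro h
  have h1 : SuppIn (Sub.pt (P := SpS N) none) (Finsupp.single (SpS.top N) 1) :=
    (Submodule.Quotient.mk_eq_zero _).1 h
  have h2 := h1 (SpS.top N) (by
    rw [Finsupp.mem_support_iff, Finsupp.single_eq_same]
    exact one_ne_zero)
  have h3 : SpS.top N = none := h2
  exact Option.some_ne_none _ h3

theorem exists_essential (N : ℕ) (hN : 1 ≤ N) :
    ∃ m : Hom (bd (N + 1)).ss (resT (SpS N) none).Y, ¬ Null m := by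
  classical
  obtain ⟨ξ, hξ, hξ0⟩ := exists_xi (SpS N) none
  have hmem : ∀ n (x : (SpS N).S n), ξ.app n x ∈ (Sub.comp (P := (resT (SpS N) none).Tot)
      ((resT (SpS N) none).tot0 0)).car n := by
    intro n x i
    rw [← ξ.nat, SpS_eq_base N 0 (by omega) ((SpS N).act (cst i) x)]
    show Joined _ (ξ.app 0 none)
    rw [hξ0]
    exact joined_self _
  refine ⟨⟨fun n x => ⟨ξ.app n ((collapse N).app n x), hmem n _⟩, fun {m n} g x => by
    apply Subtype.ext
    show ξ.app m ((collapse N).app m ((bd (N + 1)).ss.act g x)) = _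
    rw [(collapse N).nat, ξ.nat]⟩, ?_⟩
  rintro ⟨H, y, hH, h0, h1⟩
  let W := R (SpS N) none
  let f : Hom (bd (N + 1)).ss W.ss := (R.of (Z := SpS N) none).comp (collapse N)
  let g : Hom (bd (N + 1)).ss W.ss := ⟨fun n _ => (0 : W.V n), fun {m n} k _ =>
    (map_zero (W.act k)).symm⟩
  have hfg : Htp f g := by
    refine ⟨⟨fun n q => (resT (SpS N) none).pr0.app n (H n q).1, fun {m n} k q => ?_⟩, ?_, ?_⟩
    · rw [hH k q ⟨trivial, trivial⟩]
      exact (resT (SpS N) none).pr0.nat k _
    · intro n x
      show (resT (SpS N) none).pr0.app n (H n (cst 0, x)).1 = _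
      rw [h0 n x trivial]
      exact hξ n _
    · intro n x
      show (resT (SpS N) none).pr0.app n (H n (cst 1, x)).1 = _
      rw [h1 n x trivial]
      show (resT (SpS N) none).pr0.app n ((resT (SpS N) none).Tot.act (cst 0) y.1) = (0 : W.V n)
      rw [(resT (SpS N) none).pr0.nat]
      have h2 : (resT (SpS N) none).pr0.app 0 y.1 = (0 : (resV (SpS N) none 0).V 0) :=
        resV_SpS_eq_zero N 0 0 (by omega) _
      rw [h2]
      exact map_zero _
  -- the boundary cycle
  have hd : ∀ i : Fin (N + 2), (dlt i : Mo N (N + 1)) ∈ (bd (N + 1)).car N := by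
    intro i hs
    obtain ⟨t, ht⟩ := hs i
    exact Fin.succAbove_ne i t ht
  let z : Ch (bd (N + 1)).ss N := ∑ i : Fin (N + 2), Finsupp.single ⟨dlt i, hd i⟩ 1
  have hz : z ∈ (lin (bd (N + 1)).ss).Z N := by
    obtain ⟨M, rfl⟩ : ∃ M, N = M + 1 := ⟨N - 1, by omega⟩
    show z ∈ LinearMap.ker ((lin (bd (M + 1 + 1)).ss).d M)
    rw [LinearMap.mem_ker, lin_d]
    have hinj : Function.Injective (Finsupp.mapDomain (M := ZMod 2)
        ((bd (M + 1 + 1)).incl.app M)) := Finsupp.mapDomain_injective Subtype.val_injective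
    apply hinj
    rw [Finsupp.mapDomain_zero]
    have e1 : Finsupp.mapDomain ((bd (M + 1 + 1)).incl.app M) (dif z) =
        dif (Finsupp.mapDomain ((bd (M + 1 + 1)).incl.app (M + 1)) z) := by
      unfold dif
      rw [Finsupp.mapDomain_finsetSum]
      refine Finset.sum_congr rfl fun i _ => ?_
      rw [← Finsupp.mapDomain_comp, ← Finsupp.mapDomain_comp]
      rfl
    have e2 : Finsupp.mapDomain ((bd (M + 1 + 1)).incl.app (M + 1)) z =
        dif (Finsupp.single (OrderHom.id : Mo (M + 2) (M + 2)) 1 : Ch (Del (M + 2)) (M + 2)) := by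
      unfold dif
      rw [Finsupp.mapDomain_finsetSum]
      refine Finset.sum_congr rfl fun i _ => ?_
      rw [Finsupp.mapDomain_single, Finsupp.mapDomain_single]
      rfl
    rw [e1, e2, dif_dif]
  have h3 := (htp_iff W f g).1 hfg N z hz
  have h4 : linExt g.app N z = (0 : W.V N) := by
    rw [linExt_apply]
    exact Finset.sum_eq_zero fun x _ => smul_zero _
  have h5 : linExt f.app N z = ((R.of (Z := SpS N) none).app N (SpS.top N) : W.V N) := by
    show linExt f.app N (∑ i : Fin (N + 2), Finsupp.single ⟨dlt i, hd i⟩ 1) = _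
    rw [map_sum, Fin.sum_univ_succ, linExt_single, one_smul]
    have e1 : (collapse N).app N ⟨dlt 0, hd 0⟩ = SpS.top N := by
      have h6 : (sgm (0 : Fin (N + 1))).comp (dlt (0 : Fin (N + 2)) : Mo N (N + 1)) =
          OrderHom.id := sgm_comp_dlt_castSucc (0 : Fin (N + 1))
      have h7 : (∀ t, (dlt (0 : Fin (N + 2)) : Mo N (N + 1)) t ≠ 0) ∧ Function.Surjective
          ((sgm (0 : Fin (N + 1))).comp (dlt (0 : Fin (N + 2)) : Mo N (N + 1))) := by
        refine ⟨fun t => Fin.succAbove_ne 0 t, ?_⟩
        rw [h6]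
        exact fun y => ⟨y, rfl⟩
      refine (dif_pos h7).trans ?_
      exact congrArg some (Subtype.ext h6)
    have e2 : ∀ i : Fin (N + 1), linExt f.app N (Finsupp.single ⟨dlt i.succ, hd i.succ⟩ 1) =
        (0 : W.V N) := by
      intro i
      rw [linExt_single, one_smul]
      have h8 : (collapse N).app N ⟨dlt i.succ, hd i.succ⟩ = none := by
        refine dif_neg fun h9 => h9.1 0 ?_
        show i.succ.succAbove 0 = 0
        exact Fin.succ_succAbove_zero i
      show (R.of (Z := SpS N) none).app N ((collapse N).app N ⟨dlt i.succ, hd i.succ⟩) = _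
      rw [h8]
      exact A205_of_none N N
    rw [Finset.sum_congr rfl fun i _ => e2 i, Finset.sum_const_zero, add_zero]
    show (R.of (Z := SpS N) none).app N ((collapse N).app N ⟨dlt 0, hd 0⟩) = _
    rw [e1]
  rw [h4, add_zero, h5] at h3
  obtain ⟨w, hw⟩ := h3
  rw [d_top] at hw
  exact top_ne_zero N hw.symm

end MM
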