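import Pool.Agent.Lib_MP_33f7bb_d.Defs
import Pool.Agent.Lib_MP_33f7bb_an.MAIN

/-!
# Interfaces between the parts A, B, C, D

`ExistsTarget` is proved by part A, `WWGood` by part B; part C proves
`existsCompactum : ExistsTarget → WWGood → ExistsCompactum`; part D proves
`final : ExistsCompactum → FinalGoal`.
-/

namespace MM

/-- part A -/
def ExistsTarget : Prop :=
  ∀ N : ℕ, 1 ≤ N → ∃ (Y : SS) (τ : ∀ n, TopologicalSpace (Y.S n)), @IsTarget Y τ ∧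
    ∃ κ : Hom (Sing (Sph N)) Y, ¬ Null κ

/-- part B -/
def WWGood : Prop :=
  ∀ (Y : SS) (τ : ∀ n, TopologicalSpace (Y.S n)), @IsTarget Y τ → ∀ (j : ℕ) (hj : 3 ≤ j),
    Good Y (Sub.pt (WW0 j (by omega))) ⊤

/-- part C -/
def ExistsCompactum : Prop :=
  ∀ N : ℕ, 1 ≤ N → ∃ (K : Type) (_ : MetricSpace K) (_ : CompactSpace K) (q : C(K, Sph N)),
    ¬ q.Nullhomotopic ∧
    ∀ (j k : ℕ) (A : Set K) (φ : K × (Fin k → ℝ) → (Fin j → ℝ) × (Fin k → ℝ)), 3 ≤ j →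
      IsTask j k A φ → Solved (id : K → K) A φ

/-- part D -/
def FinalGoal : Prop :=
  ∃ (X : Type) (_ : MetricSpace X) (_ : CompactSpace X), SMD.StableDimLE X 2 ∧
    ∀ n, ¬ SMD.CovDimLE X n

theorem not_Q1_of_finalGoal (h : FinalGoal) : ¬ SMD.Q1 := by
  obtain ⟨X, _, _, h1, h2⟩ := h
  exact SMD.not_Q1 h1 h2

end MM
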