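import Pool.Agent.Lib_MP_33f7bb_d.A114
import Pool.Agent.Lib_MP_33f7bb_d.A202
import Pool.Agent.Lib_MP_33f7bb_d.A204
import Pool.Agent.Lib_MP_33f7bb_d.A205
import Pool.Agent.Lib_MP_33f7bb_d.TopIF

/-!
# A2-06: the target theorem, from (H1), (H0) for the mapping tower and the singular section
-/

namespace MM

/-- what is needed from section S -/
def SingOfBd : Prop :=
  ∀ (N : ℕ) (Y : SS), ExtAll Y → ∀ m : Hom (bd (N + 1)).ss Y, ¬ Null m →
    ∃ κ : Hom (Sing (Sph N)) Y, ¬ Null κ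

/-- what is needed from A7 -/
def HProp : Prop :=
  ∀ N : ℕ, 1 ≤ N → (mapT (resT (SpS N) none) BZ2 K1.zv).H1 ∧
    (mapT (resT (SpS N) none) BZ2 K1.zv).H0

theorem existsTarget_of (hS : SingOfBd) (hH : HProp) : ExistsTarget := by
  intro N hN
  set T := resT (SpS N) none with hT
  have hE : ExtAll T.Tot := fun P A C hAC h => T.tot_ext hAC h
  obtain ⟨τ, hc, h2, hf⟩ := exists_tot_topology T (fun s n => resV_SpS_finite N s n)
  obtain ⟨τ', hc', h2', hf'⟩ := exists_comp_topology (T.tot0 0) τ hc h2 hf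
  have hEY : ExtAll T.Y := extAll_comp hE _
  obtain ⟨m, hm⟩ := exists_essential N hN
  obtain ⟨κ, hκ⟩ := hS N T.Y hEY m hm
  refine ⟨T.Y, τ', ?_, κ, hκ⟩
  exact
    { compact := hc'
      t2 := h2'
      nonempty := ⟨⟨T.tot0 0, (mem_comp_zero _ _).2 (joined_self _)⟩⟩
      cont := hf'
      ext := hEY
      null := good_Y T hE fun k => (mapT T BZ2 K1.zv).tot_rlp (hH N hN).1 (hH N hN).2 k }

end MM
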