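import Pool.Agent.Lib_MP_33f7bb_d.A7IF

/-!
# A7-10: (H1) for the mapping spaces into a tower of simplicial vector spaces
-/

open scoped TensorProduct

namespace MM

theorem moore_zero (W : SV) (t : ℕ) : W.Moore (0 : W.V t) := fun _ f _ => map_zero (W.act f)

theorem moore_sum {W : SV} {t : ℕ} {ι : Type} (s : Finset ι) (f : ι → W.V t)
    (hf : ∀ i, W.Moore (f i)) : W.Moore (∑ i ∈ s, f i) := fun m g hg => by
  rw [map_sum]
  exact Finset.sum_eq_zero fun i _ => hf i m g hg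

/-- the coboundary: sum of the maps induced by the cofaces -/
noncomputable def dCo {Z : SS} {z₀ : Z.S 0} {V V' : SV} {k : ℕ} (d : Fin k → Hom V.ss V'.ss)
    (hd : ∀ i, (d i).app 0 V.zv = V'.zv) {t : ℕ} (a : (MapSV Z z₀ V).V t) :
    (MapSV Z z₀ V').V t :=
  ∑ i, (MapSV.comp (d i) (hd i)).app t a

theorem dCo_moore {Z : SS} {z₀ : Z.S 0} {V V' : SV} {k : ℕ} (d : Fin k → Hom V.ss V'.ss)
    (hd : ∀ i, (d i).app 0 V.zv = V'.zv) {t : ℕ} {a : (MapSV Z z₀ V).V t}
    (ha : (MapSV Z z₀ V).Moore a) : (MapSV Z z₀ V').Moore (dCo d hd a) :=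
  moore_sum _ _ fun i => moore_comp (d i) (hd i) a ha

section

variable {S : SqFam}

theorem PsiH_zero {V : SV} (D : QHData S V) {t : ℕ} (ht : 1 ≤ t) :
    PsiH D ht (0 : (MapSV BZ2 K1.zv V).V t) (moore_zero _ _) = 0 := by
  have h1 := PsiH_add D ht (0 : (MapSV BZ2 K1.zv V).V t) 0 (moore_zero _ _) (moore_zero _ _)
  have h2 : ∀ (f : (MapSV BZ2 K1.zv V).V t) (hf : (MapSV BZ2 K1.zv V).Moore f), f = 0 →
      PsiH D ht f hf = PsiH D ht (0 : (MapSV BZ2 K1.zv V).V t) (moore_zero _ _) := by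
    rintro f hf rfl
    rfl
  rw [h2 _ _ (add_zero 0)] at h1
  exact left_eq_add.mp h1

theorem PsiH_sum {V : SV} (D : QHData S V) {t : ℕ} (ht : 1 ≤ t) {ι : Type} (s : Finset ι)
    (f : ι → (MapSV BZ2 K1.zv V).V t) (hf : ∀ i, (MapSV BZ2 K1.zv V).Moore (f i)) :
    PsiH D ht (∑ i ∈ s, f i) (moore_sum s f hf) = ∑ i ∈ s, PsiH D ht (f i) (hf i) := by
  classical
  induction s using Finset.induction_on with
  | empty => exact PsiH_zero D ht
  | insert a s has ih =>
    rw [show (∑ i ∈ insert a s, PsiH D ht (f i) (hf i)) = _ from Finset.sum_insert has, ← ih]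
    have h2 : ∀ (f g : (MapSV BZ2 K1.zv V).V t) (hf : (MapSV BZ2 K1.zv V).Moore f)
        (hg : (MapSV BZ2 K1.zv V).Moore g), f = g → PsiH D ht f hf = PsiH D ht g hg := by
      rintro f g hf hg rfl
      rfl
    rw [h2 _ _ _ (moore_add (hf a) (moore_sum s f hf)) (Finset.sum_insert has)]
    exact PsiH_add D ht _ _ _ _

/-- the map `∑ (d^i)^*` on the modules of indecomposables -/
noncomputable def QHsum {V V' : SV} (D : QHData S V) (D' : QHData S V') {k : ℕ}
    (d : Fin k → Hom V.ss V'.ss) (hd : ∀ i, (d i).app 0 V.zv = V'.zv) : AMHom D'.am D.am :=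
  ⟨fun n => ∑ i, (QHmap D D' (d i) (hd i)).app n, fun n m x => by
    simp only [LinearMap.sum_apply, map_sum]
    exact Finset.sum_congr rfl fun i _ => (QHmap D D' (d i) (hd i)).comm n m x⟩

theorem QHsum_app {V V' : SV} (D : QHData S V) (D' : QHData S V') {k : ℕ}
    (d : Fin k → Hom V.ss V'.ss) (hd : ∀ i, (d i).app 0 V.zv = V'.zv) (n : ℕ) (x : D'.am.M n) :
    (QHsum D D' d hd).app n x = (D.e n).symm (QHd d hd n (D'.e n x)) := by
  show (∑ i, (QHmap D D' (d i) (hd i)).app n) x = _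
  simp only [QHd, LinearMap.sum_apply, map_sum]
  rfl

theorem PsiH_dCo {V V' : SV} (D : QHData S V) (D' : QHData S V') {k : ℕ}
    (d : Fin k → Hom V.ss V'.ss) (hd : ∀ i, (d i).app 0 V.zv = V'.zv) {t : ℕ} (ht : 1 ≤ t)
    (a : (MapSV BZ2 K1.zv V).V t) (ha : (MapSV BZ2 K1.zv V).Moore a) (n : ℕ)
    (x : D'.am.M n) :
    PsiH D' ht (dCo d hd a) (dCo_moore d hd ha) n x =
      PsiH D ht a ha n ((QHsum D D' d hd).app n x) := by
  have h1 : PsiH D' ht (dCo d hd a) (dCo_moore d hd ha) =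
      ∑ i, PsiH D' ht ((MapSV.comp (d i) (hd i)).app t a) (moore_comp (d i) (hd i) a ha) :=
    PsiH_sum D' ht Finset.univ _ _
  rw [h1]
  simp only [Finset.sum_apply, LinearMap.sum_apply]
  show _ = PsiH D ht a ha n ((∑ i, (QHmap D D' (d i) (hd i)).app n) x)
  rw [LinearMap.sum_apply, map_sum]
  exact Finset.sum_congr rfl fun i _ => PsiH_comp D D' (d i) (hd i) ht a ha n x

end

/-- functoriality of `QHmapL` -/
theorem QHmapL_comp {V V' V'' : SV} (g : Hom V.ss V'.ss) (hg : g.app 0 V.zv = V'.zv)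
    (g' : Hom V'.ss V''.ss) (hg' : g'.app 0 V'.zv = V''.zv) (n : ℕ)
    (h : (g'.comp g).app 0 V.zv = V''.zv) (x : QH V'' n) :
    QHmapL g hg n (QHmapL g' hg' n x) = QHmapL (g'.comp g) h n x := by
  apply LinearMap.ext
  intro y
  show x _ = x _
  congr 1
  apply Subtype.ext
  show SV.Hmap (RVmap g' hg') n (SV.Hmap (RVmap g hg) n y.1) =
    SV.Hmap (RVmap (g'.comp g) h) n y.1
  rw [← SV.Hmap_comp]
  congr 1
  congr 1
  apply R.ext
  intro m z
  show (RVmap g' hg').app m ((RVmap g hg).app m _) = _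
  rw [R.map_of, R.map_of, R.map_of]
  rfl

theorem QHmapL_congr {V V' : SV} (g g' : Hom V.ss V'.ss) (hg : g.app 0 V.zv = V'.zv)
    (hg' : g'.app 0 V.zv = V'.zv) (h : g = g') (n : ℕ) : QHmapL g hg n = QHmapL g' hg' n := by
  subst h
  rfl

/-- the sum over all pairs of cofaces cancels -/
theorem cosimp_sum_zero {k : ℕ} {A : Type} [AddCommGroup A] (h2 : ∀ a : A, a + a = 0)
    (F : Fin (k + 1) → Fin k → A)
    (hF : ∀ i j : Fin k, i ≤ j → F j.succ i = F i.castSucc j) :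
    ∑ j, ∑ i, F j i = 0 := by
  classical
  rw [← Finset.sum_product' (s := Finset.univ) (t := Finset.univ)]
  refine Finset.sum_involution
    (fun p _ => if h : (p.2 : ℕ) < p.1 then (p.2.castSucc, ⟨(p.1 : ℕ) - 1, by omega⟩)
      else (p.2.succ, ⟨(p.1 : ℕ), by omega⟩)) ?_ ?_ ?_ ?_
  · rintro ⟨j, i⟩ -
    by_cases h : (i : ℕ) < j
    · simp only [dif_pos h]
      have h1 := hF i ⟨(j : ℕ) - 1, by omega⟩ (by rw [Fin.le_def]; simp; omega)
      have h3 : (⟨(j : ℕ) - 1, by omega⟩ : Fin k).succ = j := by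
        apply Fin.ext; simp; omega
      rw [h3] at h1
      rw [h1]
      exact h2 _
    · simp only [dif_neg h]
      have h1 := hF ⟨(j : ℕ), by omega⟩ i (by rw [Fin.le_def]; simp; omega)
      have h3 : (⟨(j : ℕ), by omega⟩ : Fin k).castSucc = j := by
        apply Fin.ext; simp
      rw [h3] at h1
      rw [h1]
      exact h2 _
  · rintro ⟨j, i⟩ - -
    by_cases h : (i : ℕ) < j
    · simp only [dif_pos h]
      intro h1
      have := congrArg (fun p => (p.1 : ℕ)) h1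
      simp at this
      omega
    · simp only [dif_neg h]
      intro h1
      have := congrArg (fun p => (p.1 : ℕ)) h1
      simp at this
      omega
  · rintro ⟨j, i⟩ -
    exact Finset.mem_product.2 ⟨Finset.mem_univ _, Finset.mem_univ _⟩
  · rintro ⟨j, i⟩ -
    by_cases h : (i : ℕ) < j
    · simp only [dif_pos h]
      have h' : ¬ ((⟨(j : ℕ) - 1, by omega⟩ : Fin k) : ℕ) < (i.castSucc : ℕ) := by simp; omega
      rw [dif_neg h']
      ext <;> simp; omega
    · simp only [dif_neg h]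
      have h' : ((⟨(j : ℕ), by omega⟩ : Fin k) : ℕ) < (i.succ : ℕ) := by simp; omega
      rw [dif_pos h']
      ext <;> simp

theorem finite_QH (V : SV) (hV : ∀ n, Finite (V.V n)) (n : ℕ) :
    Module.Finite (ZMod 2) (QH V n) := by
  have := hV n
  have : Module.Finite (ZMod 2) ((RV V).V n) :=
    inferInstanceAs (Module.Finite (ZMod 2) ((V.V n →₀ ZMod 2) ⧸ _))
  have : Module.Finite (ZMod 2) ((RV V).H n) := inferInstance
  infer_instance

theorem finite_H (V : SV) (hV : ∀ n, Finite (V.V n)) (n : ℕ) :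
    Module.Finite (ZMod 2) (V.H n) := by
  have := hV n
  have : Module.Finite (ZMod 2) (V.V n) := Module.Finite.of_finite
  infer_instance

/-- **(H1)** for the tower of mapping spaces -/
theorem tower_H1 (S : SqFam) (h2 : S2Prop S) (h6 : HomExactProp) (V : ℕ → SV)
    (dV : ∀ s, Fin (s + 2) → Hom (V s).ss (V (s + 1)).ss)
    (hd : ∀ s i, (dV s i).app 0 (V s).zv = (V (s + 1)).zv)
    (hcos : ∀ s (i j : Fin (s + 2)), i ≤ j →
      (dV (s + 1) j.succ).comp (dV s i) = (dV (s + 1) i.castSucc).comp (dV s j))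
    (hfin : ∀ s n, Finite ((V s).V n)) (hH0 : ∀ s, ∀ x : (V s).H 0, x = 0)
    (hb : BndProp V dV hd) (t : ℕ) (ht : 1 ≤ t) :
    (∀ z : (MapSV BZ2 K1.zv (V 0)).V t, (MapSV BZ2 K1.zv (V 0)).Moore z →
      dCo (dV 0) (hd 0) z ∈ (MapSV BZ2 K1.zv (V 1)).B t → z ∈ (MapSV BZ2 K1.zv (V 0)).B t) ∧
    ∀ s, ∀ z : (MapSV BZ2 K1.zv (V (s + 1))).V t, (MapSV BZ2 K1.zv (V (s + 1))).Moore z →
      dCo (dV (s + 1)) (hd (s + 1)) z ∈ (MapSV BZ2 K1.zv (V (s + 2))).B t →
      ∃ a : (MapSV BZ2 K1.zv (V s)).V t, (MapSV BZ2 K1.zv (V s)).Moore a ∧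
        z + dCo (dV s) (hd s) a ∈ (MapSV BZ2 K1.zv (V (s + 1))).B t := by
  choose D hgen ι a hsus using fun s => h2 (V s) (hfin s) (hH0 s)
  have hex := h6 (fun s => (D s).am) (fun s => QHsum (D s) (D (s + 1)) (dV s) (hd s)) ?_
    (fun s => ⟨ι s, a s, hsus s⟩) ?_ ?_ ?_ t ht
  · obtain ⟨hex0, hex1⟩ := hex
    constructor
    · intro z hz hdz
      refine PsiH_inj (D 0) ht z hz ?_
      refine hex0 _ (PsiH_mem (D 0) ht z hz) fun n x => ?_
      rw [← PsiH_dCo (D 0) (D 1) (dV 0) (hd 0) ht z hz n x]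
      have h1 := PsiH_congr (D 1) ht (dCo (dV 0) (hd 0) z) 0 (dCo_moore _ _ hz)
        (moore_zero _ _) (by rw [add_zero]; exact hdz)
      rw [h1, PsiH_zero]
      rfl
    · intro s z hz hdz
      obtain ⟨g, hg, hgz⟩ := hex1 s _ (PsiH_mem (D (s + 1)) ht z hz) fun n x => by
        rw [← PsiH_dCo (D (s + 1)) (D (s + 2)) (dV (s + 1)) (hd (s + 1)) ht z hz n x]
        have h1 := PsiH_congr (D (s + 2)) ht (dCo (dV (s + 1)) (hd (s + 1)) z) 0
          (dCo_moore _ _ hz) (moore_zero _ _) (by rw [add_zero]; exact hdz)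
        rw [h1, PsiH_zero]
        rfl
      obtain ⟨b, hb, hbg⟩ := PsiH_surj (D s) (hgen s) (finite_H (V s) (hfin s)) ht g hg
      refine ⟨b, hb, ?_⟩
      have hm : (MapSV BZ2 K1.zv (V (s + 1))).Moore (dCo (dV s) (hd s) b) := dCo_moore _ _ hb
      refine PsiH_inj (D (s + 1)) ht _ (moore_add hz hm) ?_
      rw [PsiH_add]
      funext n
      apply LinearMap.ext
      intro x
      show PsiH (D (s + 1)) ht z hz n x + PsiH (D (s + 1)) ht _ hm n x = 0
      rw [PsiH_dCo (D s) (D (s + 1)) (dV s) (hd s) ht b hb n x, hgz, hbg]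
      exact CharTwo.add_self_eq_zero _
  · -- `δ δ = 0`
    intro s n x
    rw [QHsum_app, QHsum_app, LinearEquiv.apply_symm_apply]
    have h0 : QHd (dV s) (hd s) n (QHd (dV (s + 1)) (hd (s + 1)) n ((D (s + 1 + 1)).e n x)) = 0 := by
      simp only [QHd, LinearMap.sum_apply, map_sum]
      refine cosimp_sum_zero (fun a => ?_)
        (fun j i => QHmapL (dV s i) (hd s i) n (QHmapL (dV (s + 1) j) (hd (s + 1) j) n
          ((D (s + 1 + 1)).e n x))) ?_
      · rw [← two_smul (ZMod 2), show (2 : ZMod 2) = 0 from rfl, zero_smul]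
      · intro i j hij
        have hp : ∀ (j : Fin (s + 3)) (i : Fin (s + 2)),
            ((dV (s + 1) j).comp (dV s i)).app 0 (V s).zv = (V (s + 1 + 1)).zv := fun j i => by
          show (dV (s + 1) j).app 0 ((dV s i).app 0 (V s).zv) = _
          rw [hd, hd]
        rw [QHmapL_comp _ _ _ _ n (hp _ _), QHmapL_comp _ _ _ _ n (hp _ _),
          QHmapL_congr _ _ _ (hp _ _) (hcos s i j hij) n]
    rw [h0, map_zero]
  · intro s n
    have := finite_QH (V s) (hfin s) n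
    exact Module.Finite.equiv ((D s).e n).symm
  · obtain ⟨d, hd0⟩ := hb.1
    refine ⟨d, fun n hn x => ?_⟩
    obtain ⟨y, hy⟩ := hd0 n hn ((D 0).e n x)
    refine ⟨((D 1).e n).symm y, ?_⟩
    rw [QHsum_app, LinearEquiv.apply_symm_apply, hy, LinearEquiv.symm_apply_apply]
  · intro s
    obtain ⟨d, hd0⟩ := hb.2 s
    refine ⟨d, fun n hn x hx => ?_⟩
    rw [QHsum_app] at hx
    obtain ⟨y, hy⟩ := hd0 n hn ((D (s + 1)).e n x) (by
      have := congrArg ((D s).e n) hx
      rwa [LinearEquiv.apply_symm_apply, map_zero] at this)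
    refine ⟨((D (s + 2)).e n).symm y, ?_⟩
    rw [QHsum_app, LinearEquiv.apply_symm_apply, hy, LinearEquiv.symm_apply_apply]

end MM
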