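import Pool.Agent.Lib_MP_33f7bb_d.A700

/-!
# A7 definitions: pointed mapping spaces into simplicial vector spaces, the maps `psiHom`, the
interface `SqFam` of Steenrod operations, `QHData`.
-/

open scoped TensorProduct

namespace MM

/-- the simplicial vector space `Map_*(Z, V)` -/
def MapSV (Z : SS) (z₀ : Z.S 0) (V : SV) : SV where
  V t := ({ carrier := {f | (∀ {k n : ℕ} (g : Mo k n) (θ : Mo n t) (x : Z.S n),
              f k (θ.comp g, Z.act g x) = V.act g (f n (θ, x))) ∧
              ∀ (n : ℕ) (θ : Mo n t), f n (θ, Z.deg z₀ n) = 0}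
            add_mem' := fun {a b} ha hb => ⟨fun g θ x => by
              simp only [Pi.add_apply, ha.1 g θ x, hb.1 g θ x, map_add], fun n θ => by
              simp only [Pi.add_apply, ha.2 n θ, hb.2 n θ, add_zero]⟩
            zero_mem' := ⟨fun g θ x => by simp, fun n θ => rfl⟩
            smul_mem' := fun c a ha => ⟨fun g θ x => by
              simp only [Pi.smul_apply, ha.1 g θ x, map_smul], fun n θ => by
              simp only [Pi.smul_apply, ha.2 n θ, smul_zero]⟩ } :
          Submodule (ZMod 2) (∀ n, Mo n t × Z.S n → V.V n))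
  act {s t} h :=
    { toFun := fun f => ⟨fun n x => f.1 n (h.comp x.1, x.2),
        fun g θ x => f.2.1 g (h.comp θ) x, fun n θ => f.2.2 n (h.comp θ)⟩
      map_add' := fun _ _ => rfl
      map_smul' := fun _ _ => rfl }
  act_id _ := rfl
  act_comp _ _ _ := rfl

namespace MapSV

variable {Z : SS} {z₀ : Z.S 0} {V : SV} {t : ℕ}

/-- values of an element of the mapping space -/
def val (f : (MapSV Z z₀ V).V t) (n : ℕ) (x : Mo n t × Z.S n) : V.V n := f.1 n x

theorem val_nat (f : (MapSV Z z₀ V).V t) {k n : ℕ} (g : Mo k n) (θ : Mo n t) (x : Z.S n) :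
    val f k (θ.comp g, Z.act g x) = V.act g (val f n (θ, x)) := f.2.1 g θ x

theorem val_base (f : (MapSV Z z₀ V).V t) (n : ℕ) (θ : Mo n t) :
    val f n (θ, Z.deg z₀ n) = 0 := f.2.2 n θ

theorem val_moore {f : (MapSV Z z₀ V).V t} (hf : (MapSV Z z₀ V).Moore f) (n : ℕ) (θ : Mo n t)
    (hθ : ¬ Function.Surjective θ) (x : Z.S n) : val f n (θ, x) = 0 := by
  have h1 := hf n θ hθ
  have h2 := congrArg (fun g : (MapSV Z z₀ V).V n => val g n (OrderHom.id, x)) h1
  exact h2

/-- auxiliary: for fixed `θ` the map `[x] ↦ [f (θ, x)]` -/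
noncomputable def psi1 (f : (MapSV Z z₀ V).V t) (n : ℕ) (θ : Mo n t) :
    (R Z z₀).V n →ₗ[ZMod 2] (RV V).V n :=
  Submodule.liftQ _ (Finsupp.linearCombination (ZMod 2)
    (fun x : Z.S n => ((R.of V.zv).app n (val f n (θ, x)) : (RV V).V n))) (by
    intro c hc
    rw [LinearMap.mem_ker, Finsupp.linearCombination_apply]
    refine Finset.sum_eq_zero fun x hx => ?_
    have hx' : x = Z.deg z₀ n := hc hx
    have h1 : (R.of V.zv).app n (val f n (θ, x)) = (0 : (RV V).V n) := by
      rw [hx', val_base]
      have := R.of_base V.zv n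
      have h2 : V.ss.deg V.zv n = (0 : V.V n) := map_zero (V.act _)
      rw [h2] at this
      exact this
    show c x • _ = (0 : (RV V).V n)
    rw [h1, smul_zero])

theorem psi1_of (f : (MapSV Z z₀ V).V t) (n : ℕ) (θ : Mo n t) (x : Z.S n) :
    psi1 f n θ ((R.of z₀).app n x) = (R.of V.zv).app n (val f n (θ, x)) := by
  show Finsupp.linearCombination (ZMod 2) _ (Finsupp.single x 1) = _
  rw [Finsupp.linearCombination_single, one_smul]

/-- auxiliary bilinear map -/
noncomputable def psi2 (f : (MapSV Z z₀ V).V t) (hf : (MapSV Z z₀ V).Moore f) (n : ℕ) :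
    (KK t).V n →ₗ[ZMod 2] (R Z z₀).V n →ₗ[ZMod 2] (RV V).V n :=
  Submodule.liftQ _ (Finsupp.linearCombination (ZMod 2) (fun θ : Mo n t => psi1 f n θ)) (by
    intro c hc
    rw [LinearMap.mem_ker, Finsupp.linearCombination_apply]
    refine Finset.sum_eq_zero fun θ hθ => ?_
    have hθ' : ¬ Function.Surjective (θ : Mo n t) := hc hθ
    have h1 : psi1 f n θ = 0 := by
      apply LinearMap.ext
      intro x
      have hx : x ∈ Submodule.span (ZMod 2) (Set.range ((R.of z₀).app n)) := by
        rw [R.span]; trivial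
      induction hx using Submodule.span_induction with
      | mem x hx =>
        obtain ⟨y, rfl⟩ := hx
        rw [psi1_of, val_moore hf n θ hθ']
        have := R.of_base V.zv n
        have h2 : V.ss.deg V.zv n = (0 : V.V n) := map_zero (V.act _)
        rw [h2] at this
        exact this
      | zero => simp
      | add a b _ _ ha hb => rw [map_add, ha, hb, map_add]
      | smul r a _ ha => rw [map_smul, ha, map_smul]
    show c θ • psi1 f n θ = 0
    rw [h1, smul_zero])

theorem psi2_of (f : (MapSV Z z₀ V).V t) (hf : (MapSV Z z₀ V).Moore f) (n : ℕ) (θ : Mo n t)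
    (x : Z.S n) : psi2 f hf n ((linSub (bd t)).proj.app n (Finsupp.single θ 1))
      ((R.of z₀).app n x) = (R.of V.zv).app n (val f n (θ, x)) := by
  have h1 : psi2 f hf n ((linSub (bd t)).proj.app n (Finsupp.single θ 1)) = psi1 f n θ := by
    show Finsupp.linearCombination (ZMod 2) _ (Finsupp.single θ 1) = _
    rw [Finsupp.linearCombination_single, one_smul]
  rw [h1, psi1_of]

theorem KK_span (t n : ℕ) : Submodule.span (ZMod 2)
    (Set.range (fun θ : Mo n t => (linSub (bd t)).proj.app n (Finsupp.single θ 1))) =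
      (⊤ : Submodule (ZMod 2) ((KK t).V n)) := by
  rw [eq_top_iff]
  rintro x -
  obtain ⟨c, rfl⟩ := Submodule.Quotient.mk_surjective _ x
  induction c using Finsupp.induction_linear with
  | zero => exact Submodule.zero_mem _
  | add a b ha hb => exact Submodule.add_mem _ ha hb
  | single u r =>
    have : (Submodule.Quotient.mk (Finsupp.single u r) : (KK t).V n) =
        r • (linSub (bd t)).proj.app n (Finsupp.single u 1) := by
      show _ = r • (Submodule.Quotient.mk (Finsupp.single u 1) : (KK t).V n)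
      rw [← Submodule.Quotient.mk_smul, Finsupp.smul_single, smul_eq_mul, mul_one]
    rw [this]
    exact Submodule.smul_mem _ _ (Submodule.subset_span ⟨u, rfl⟩)

end MapSV

/-- the linear simplicial map `K'(t) ⊗ R Z → R V`, `[θ] ⊗ [x] ↦ [f (θ, x)]` -/
noncomputable def psiHom {Z : SS} {z₀ : Z.S 0} {V : SV} {t : ℕ} (f : (MapSV Z z₀ V).V t)
    (hf : (MapSV Z z₀ V).Moore f) : SVHom ((KK t).tens (R Z z₀)) (RV V) :=
  ⟨fun n => TensorProduct.lift (MapSV.psi2 f hf n), by
    intro m n g u
    induction u using TensorProduct.induction_on with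
    | zero => simp
    | add a b ha hb => rw [map_add, map_add, ha, hb, map_add, map_add]
    | tmul a b =>
      have ha : a ∈ Submodule.span (ZMod 2) (Set.range
          (fun θ : Mo n t => (linSub (bd t)).proj.app n (Finsupp.single θ 1))) := by
        rw [MapSV.KK_span]; trivial
      induction ha using Submodule.span_induction with
      | zero => simp
      | add a a' _ _ ha ha' => rw [TensorProduct.add_tmul, map_add, map_add, ha, ha', map_add, map_add]
      | smul r a _ ha =>
        rw [← TensorProduct.smul_tmul', map_smul, map_smul, ha, map_smul, map_smul]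
      | mem a ha =>
        obtain ⟨θ, rfl⟩ := ha
        have hb : b ∈ Submodule.span (ZMod 2) (Set.range ((R.of z₀).app n)) := by
          rw [R.span]; trivial
        induction hb using Submodule.span_induction with
        | zero => simp
        | add a a' _ _ ha ha' =>
          rw [TensorProduct.tmul_add, map_add, map_add, ha, ha', map_add, map_add]
        | smul r a _ ha =>
          rw [TensorProduct.tmul_smul, map_smul, map_smul, ha, map_smul, map_smul]
        | mem b hb =>
          obtain ⟨x, rfl⟩ := hb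
          show TensorProduct.lift (MapSV.psi2 f hf m) (TensorProduct.map _ _ (_ ⊗ₜ _)) = _
          rw [TensorProduct.map_tmul, TensorProduct.lift.tmul, TensorProduct.lift.tmul,
            MapSV.psi2_of]
          have h1 : (KK t).act g ((linSub (bd t)).proj.app n (Finsupp.single θ 1)) =
              (linSub (bd t)).proj.app m (Finsupp.single (θ.comp g) 1) := by
            rw [← (linSub (bd t)).proj.nat]
            congr 1
            exact Finsupp.mapDomain_single
          have h2 : (R Z z₀).act g ((R.of z₀).app n x) = (R.of z₀).app m (Z.act g x) :=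
            ((R.of z₀).nat g x).symm
          rw [h1, h2, MapSV.psi2_of, MapSV.val_nat]
          exact (R.of V.zv).nat g _⟩

theorem psiHom_of {Z : SS} {z₀ : Z.S 0} {V : SV} {t : ℕ} (f : (MapSV Z z₀ V).V t)
    (hf : (MapSV Z z₀ V).Moore f) (n : ℕ) (θ : Mo n t) (x : Z.S n) :
    (psiHom f hf).app n (((linSub (bd t)).proj.app n (Finsupp.single θ 1) : (KK t).V n) ⊗ₜ[ZMod 2]
      ((R.of z₀).app n x : (R Z z₀).V n)) = (R.of V.zv).app n (MapSV.val f n (θ, x)) :=
  MapSV.psi2_of f hf n θ x

/-- the simplicial sphere `Δ^N/∂Δ^N` (base simplices = `none`) -/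
noncomputable abbrev SpS (N : ℕ) : SS where
  S n := Option {θ : Mo n N // Function.Surjective θ}
  act f x := x.bind fun θ => open Classical in
    if h : Function.Surjective (θ.1.comp f) then some ⟨θ.1.comp f, h⟩ else none
  act_id x := by
    cases x with
    | none => rfl
    | some θ =>
      have h : Function.Surjective (θ.1.comp OrderHom.id) := θ.2
      simp only [Option.bind_some, dif_pos h]
      rfl
  act_comp f g x := by
    cases x with
    | none => rfl
    | some θ =>
      by_cases h : Function.Surjective (θ.1.comp g)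
      · simp only [Option.bind_some, dif_pos h]
        rfl
      · have h2 : ¬ Function.Surjective (θ.1.comp (g.comp f)) := fun h3 => h fun y => by
          obtain ⟨z, hz⟩ := h3 y
          exact ⟨f z, hz⟩
        simp only [Option.bind_some, dif_neg h, dif_neg h2, Option.bind_none]

/-- the fundamental simplex of the sphere -/
def SpS.top (N : ℕ) : (SpS N).S N := some ⟨OrderHom.id, fun x => ⟨x, rfl⟩⟩

/-- composition with a pointed simplicial map -/
def MapSV.comp {Z : SS} {z₀ : Z.S 0} {V V' : SV} (g : Hom V.ss V'.ss)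
    (hg : g.app 0 V.zv = V'.zv) : Hom (MapSV Z z₀ V).ss (MapSV Z z₀ V').ss :=
  ⟨fun t f => ⟨fun n x => g.app n (f.1 n x), fun {k n} h θ x => by
      show g.app k (f.1 k (θ.comp h, Z.act h x)) = V'.act h (g.app n (f.1 n (θ, x)))
      rw [f.2.1 h θ x]; exact g.nat h _, fun n θ => by
      show g.app n (f.1 n (θ, Z.deg z₀ n)) = 0
      rw [f.2.2 n θ]
      have h1 : (0 : V.V n) = V.ss.deg V.zv n := (map_zero (V.act _)).symm
      rw [h1]
      show g.app n (V.ss.act _ V.zv) = 0
      rw [g.nat, hg]
      exact map_zero (V'.act _)⟩, fun _ _ => rfl⟩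

/-! ## the interface of Steenrod operations on reduced cohomology -/

/-- Families of Steenrod operations `op n m : H~^n → H~^m` (meaning `Sq^(m-n)`). -/
structure SqFam where
  op : ∀ (Z : SS) (z₀ : Z.S 0) (n m : ℕ),
    Module.Dual (ZMod 2) ((R Z z₀).H n) →ₗ[ZMod 2] Module.Dual (ZMod 2) ((R Z z₀).H m)
  nat : ∀ {Z Z' : SS} (z₀ : Z.S 0) (z₀' : Z'.S 0) (f : Hom Z Z') (hf : f.app 0 z₀ = z₀')
    (n m : ℕ) (y : Module.Dual (ZMod 2) ((R Z' z₀').H n)),
    (op Z' z₀' n m y).comp (SV.Hmap (R.map z₀ z₀' f hf) m) =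
      op Z z₀ n m (y.comp (SV.Hmap (R.map z₀ z₀' f hf) n))
  lt : ∀ (Z : SS) (z₀ : Z.S 0) (n m : ℕ), m < n → op Z z₀ n m = 0
  id : ∀ (Z : SS) (z₀ : Z.S 0) (n : ℕ), op Z z₀ n n = LinearMap.id
  unst : ∀ (Z : SS) (z₀ : Z.S 0) (n m : ℕ), 2 * n < m → op Z z₀ n m = 0
  top : ∀ (Z : SS) (z₀ : Z.S 0) (n : ℕ) (y : Module.Dual (ZMod 2) ((R Z z₀).H n)),
    op Z z₀ n (2 * n) y = cupR (2 * n) y y
  cartan : ∀ (Z : SS) (z₀ : Z.S 0) (p q n m : ℕ) (_ : p + q = n)
    (a : Module.Dual (ZMod 2) ((R Z z₀).H p)) (b : Module.Dual (ZMod 2) ((R Z z₀).H q)),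
    op Z z₀ n m (cupR n a b) =
      ∑ k ∈ Finset.range (m + 1), cupR m (op Z z₀ p k a) (op Z z₀ q (m - k) b)

/-- the operations on the reduced cohomology of a simplicial vector space -/
noncomputable abbrev SqFam.on (S : SqFam) (V : SV) (n m : ℕ) : RHc V n →ₗ[ZMod 2] RHc V m :=
  S.op V.ss V.zv n m

/-- restriction of a cohomology class to the primitives -/
noncomputable def toQ {V : SV} {n : ℕ} : RHc V n →ₗ[ZMod 2] QH V n := (PH V n).subtype.dualMap

/-- the module of indecomposables with its operations -/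
structure QHData (S : SqFam) (V : SV) where
  am : AM
  e : ∀ n, am.M n ≃ₗ[ZMod 2] QH V n
  comm : ∀ (n m : ℕ) (y : RHc V n),
    e m (am.Sq n m ((e n).symm (toQ y))) = toQ (S.on V n m y)

/-- the generator of the reduced homology of `B(ZMod 2)` in degree `j ≥ 1` (and `0` for `j = 0`) -/
noncomputable def eB (j : ℕ) : (RV K1).H j :=
  if h : 1 ≤ j then Classical.choose (exists_eB j h) else 0

/-- the class `[iota_t]` -/
noncomputable def iotaH (t : ℕ) : (KK t).H t := (KK t).cls (KK.iota t) (KK_iota_mem_Z t)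

/-- the classes `Psi_n(f) ∈ H_n(R V)`, `n = t + j`: images of `[Δ^t] × e_j` -/
noncomputable def PsiC {V : SV} {t : ℕ} (f : (MapSV BZ2 K1.zv V).V t)
    (hf : (MapSV BZ2 K1.zv V).Moore f) (n : ℕ) : (RV V).H n :=
  SV.Hmap (psiHom f hf) n (crsH n (iotaH t) (eB (n - t)))

/-- the class in `H^n(V)` given by a functional on the homotopy of `V` -/
noncomputable def fundC {V : SV} {n : ℕ} (lam : Module.Dual (ZMod 2) (V.H n)) : RHc V n :=
  lam.comp (SV.Hmap (muV V) n)

end MM
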