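import Pool.Agent.Lib_MP_33f7bb_d.A1Defs
import Pool.Agent.Lib_MP_33f7bb_d.A7Def

/-!
# A2: the resolution of a pointed simplicial set, as a tower object; mapping towers

`resU X x₀ 0 = X`, `resU X x₀ (s+1) = R (resU X x₀ s)`; `resV X x₀ s = R (resU X x₀ s)`, so
`resV 0 = R X`, `resV (s+1) = RV (resV s)`.  `d^0 = R.of`, `d^(i+1) = R (d^i)`, `σ^0 = muV`,
`σ^(j+1) = R (σ^j)`.
`mapT T Z z₀`: the tower of the mapping spaces `MapSV Z z₀ (T.W s)`.
-/

namespace MM

/-- pointed simplicial sets -/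
structure PS where
  Z : SS
  pt : Z.S 0

/-- pointed simplicial maps -/
structure PHom (A B : PS) where
  f : Hom A.Z B.Z
  hf : f.app 0 A.pt = B.pt

/-- reduced linearisation of a pointed simplicial set -/
noncomputable abbrev PS.R (A : PS) : SV := MM.R A.Z A.pt

/-- reduced linearisation of a pointed map -/
noncomputable def PHom.R {A B : PS} (f : PHom A B) : SVHom A.R B.R := MM.R.map A.pt B.pt f.f f.hf

/-- the canonical map -/
noncomputable def PS.of (A : PS) : Hom A.Z A.R.ss := MM.R.of A.pt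

theorem PHom.R_of {A B : PS} (f : PHom A B) (n : ℕ) (x : A.Z.S n) :
    f.R.app n (A.of.app n x) = B.of.app n (f.f.app n x) := MM.R.map_of _ _ _ _ _ _

/-- a linear simplicial map as a simplicial map -/
def SVHom.hom {P Q : SV} (f : SVHom P Q) : Hom P.ss Q.ss := ⟨fun n x => f.app n x, fun g x => f.nat g x⟩

theorem R.of_pt {Z : SS} (z₀ : Z.S 0) : (R.of z₀).app 0 z₀ = (0 : (R Z z₀).V 0) := by
  have := R.of_base z₀ 0
  rwa [show Z.deg z₀ 0 = z₀ from by
    show Z.act _ z₀ = z₀
    have h1 : (cst 0 : Mo 0 0) = OrderHom.id := by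
      ext i; simp [cst]
    rw [h1, Z.act_id]] at this

/-- the pointed simplicial set underlying a simplicial vector space -/
abbrev SV.ps (V : SV) : PS := ⟨V.ss, V.zv⟩

/-- linear maps are pointed -/
def SVHom.ph {P Q : SV} (f : SVHom P Q) : PHom P.ps Q.ps := ⟨f.hom, map_zero (f.app 0)⟩

/-- two linear maps out of `R Z` which agree on the classes of simplices agree -/
theorem PS.ext_app {A : PS} {W : SV} (f g : SVHom A.R W)
    (h : ∀ n x, f.app n (A.of.app n x) = g.app n (A.of.app n x)) (n : ℕ)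
    (x : A.R.V n) : f.app n x = g.app n x := by rw [MM.R.ext h]

theorem PHom.R_R {A B B' C : PS} (f : PHom A B) (g : PHom B C) (f' : PHom A B') (g' : PHom B' C)
    (h : ∀ n x, g.f.app n (f.f.app n x) = g'.f.app n (f'.f.app n x)) (n : ℕ) (x : A.R.V n) :
    g.R.app n (f.R.app n x) = g'.R.app n (f'.R.app n x) :=
  PS.ext_app (g.R.comp f.R) (g'.R.comp f'.R) (fun m y => by
    show g.R.app m (f.R.app m _) = g'.R.app m (f'.R.app m _)
    rw [PHom.R_of, PHom.R_of, PHom.R_of, PHom.R_of, h]) n x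

theorem PHom.R_R_id {A B : PS} (f : PHom A B) (g : PHom B A)
    (h : ∀ n x, g.f.app n (f.f.app n x) = x) (n : ℕ) (x : A.R.V n) :
    g.R.app n (f.R.app n x) = x :=
  PS.ext_app (g.R.comp f.R) (SVHom.id _) (fun m y => by
    show g.R.app m (f.R.app m _) = _
    rw [PHom.R_of, PHom.R_of, h]; rfl) n x

/-- the canonical map as a pointed map -/
noncomputable def PS.eta (A : PS) : PHom A A.R.ps := ⟨A.of, MM.R.of_pt _⟩

section res

variable (X : SS) (x₀ : X.S 0)

/-- iterated reduced linearisations, starting with `X` -/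
noncomputable def resU : ℕ → PS
  | 0 => ⟨X, x₀⟩
  | s + 1 => (resU s).R.ps

/-- the levels of the resolution -/
noncomputable def resV (s : ℕ) : SV := (resU X x₀ s).R

theorem resV_zero : resV X x₀ 0 = MM.R X x₀ := rfl
theorem resV_succ (s : ℕ) : resV X x₀ (s + 1) = RV (resV X x₀ s) := rfl
theorem resU_succ (s : ℕ) : resU X x₀ (s + 1) = (resV X x₀ s).ps := rfl

/-- the cofaces (used for `i ≤ s`; `resD (s+1)` is the coface `resV s → resV (s+1)`) -/
noncomputable def resD : ∀ s : ℕ, ℕ → PHom (resU X x₀ s) (resU X x₀ (s + 1))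
  | s, 0 => (resU X x₀ s).eta
  | 0, _ + 1 => (resU X x₀ 0).eta
  | s + 1, i + 1 => (resD s i).R.ph

/-- the codegeneracies `resV (s+1) → resV s` (used for `j ≤ s`) -/
noncomputable def resS : ∀ s : ℕ, ℕ → SVHom (resV X x₀ (s + 1)) (resV X x₀ s)
  | s, 0 => muV (resV X x₀ s)
  | 0, _ + 1 => muV (resV X x₀ 0)
  | s + 1, j + 1 => (resS s j).ph.R

theorem resD_zero (s : ℕ) : resD X x₀ s 0 = (resU X x₀ s).eta := by
  cases s <;> rfl

theorem resS_zero (s : ℕ) : resS X x₀ s 0 = muV (resV X x₀ s) := by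
  cases s <;> rfl

theorem resS_succ (s j : ℕ) : resS X x₀ (s + 1) (j + 1) = (resS X x₀ s j).ph.R := rfl

theorem muV_of' (V : SV) (n : ℕ) (x : V.V n) :
    (muV V).app n (V.ps.of.app n x) = x := muV_of V n x

/-- naturality of the multiplication for linear maps -/
theorem muV_nat {V V' : SV} (f : SVHom V V') (n : ℕ) (x : (RV V).V n) :
    (muV V').app n (f.ph.R.app n x) = f.app n ((muV V).app n x) :=
  PS.ext_app (A := V.ps) ((muV V').comp f.ph.R) (f.comp (muV V)) (fun m y =>
    ((congrArg ((muV V').app m) (PHom.R_of f.ph m y)).trans (muV_of' V' m _)).trans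
      (congrArg (f.app m) (muV_of' V m y)).symm) n x

/-- `μ ∘ R(η) = id` -/
theorem muV_R_of (A : PS) (n : ℕ) (x : A.R.V n) :
    (muV A.R).app n (A.eta.R.app n x) = x :=
  PS.ext_app ((muV A.R).comp A.eta.R) (SVHom.id _)
    (fun m y => (congrArg ((muV A.R).app m) (PHom.R_of A.eta m y)).trans (muV_of' A.R m _)) n x

theorem res_dd : ∀ (s i j n : ℕ) (x : (resU X x₀ s).Z.S n), i ≤ j → j ≤ s →
    (resD X x₀ (s + 1) (j + 1)).f.app n ((resD X x₀ s i).f.app n x) =
      (resD X x₀ (s + 1) i).f.app n ((resD X x₀ s j).f.app n x)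
  | s, 0, j, n, x, _, _ => by
    rw [resD_zero, resD_zero]
    exact PHom.R_of _ n x
  | s, i + 1, 0, n, x, h, _ => by omega
  | 0, i + 1, j + 1, n, x, _, h => by omega
  | s + 1, i + 1, j + 1, n, x, h, h' =>
    PHom.R_R (resD X x₀ s i) (resD X x₀ (s + 1) (j + 1)) (resD X x₀ s j) (resD X x₀ (s + 1) i)
      (fun m y => res_dd s i j m y (by omega) (by omega)) n x

theorem res_ss : ∀ (s i j n : ℕ) (x : (resV X x₀ (s + 2)).V n), i ≤ j → j ≤ s →
    (resS X x₀ s j).app n ((resS X x₀ (s + 1) i).app n x) =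
      (resS X x₀ s i).app n ((resS X x₀ (s + 1) (j + 1)).app n x)
  | s, 0, j, n, x, _, _ => by
    rw [resS_zero, resS_zero]
    exact (muV_nat (resS X x₀ s j) n x).symm
  | s, i + 1, 0, n, x, h, _ => by omega
  | 0, i + 1, j + 1, n, x, _, h => by omega
  | s + 1, i + 1, j + 1, n, x, h, h' =>
    PHom.R_R (resS X x₀ (s + 1) i).ph (resS X x₀ s j).ph (resS X x₀ (s + 1) (j + 1)).ph
      (resS X x₀ s i).ph (fun m y => res_ss s i j m y (by omega) (by omega)) n x

theorem res_sd_lt : ∀ (s i j n : ℕ) (x : (resV X x₀ (s + 1)).V n), i ≤ j → j ≤ s →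
    (resS X x₀ (s + 1) (j + 1)).app n ((resD X x₀ (s + 2) i).f.app n x) =
      (resD X x₀ (s + 1) i).f.app n ((resS X x₀ s j).app n x)
  | s, 0, j, n, x, _, _ => by
    rw [resD_zero, resD_zero]
    exact PHom.R_of (resS X x₀ s j).ph n x
  | s, i + 1, 0, n, x, h, _ => by omega
  | 0, i + 1, j + 1, n, x, _, h => by omega
  | s + 1, i + 1, j + 1, n, x, h, h' =>
    PHom.R_R (resD X x₀ (s + 2) i) (resS X x₀ (s + 1) (j + 1)).ph (resS X x₀ s j).ph
      (resD X x₀ (s + 1) i) (fun m y => res_sd_lt s i j m y (by omega) (by omega)) n x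

theorem res_sd_eq : ∀ (s j n : ℕ) (x : (resV X x₀ s).V n), j ≤ s →
    (resS X x₀ s j).app n ((resD X x₀ (s + 1) j).f.app n x) = x
  | s, 0, n, x, _ => by
    rw [resD_zero, resS_zero]
    exact muV_of _ n x
  | 0, j + 1, n, x, h => by omega
  | s + 1, j + 1, n, x, h =>
    PHom.R_R_id (resD X x₀ (s + 1) j) (resS X x₀ s j).ph
      (fun m y => res_sd_eq s j m y (by omega)) n x

theorem res_sd_eq' : ∀ (s j n : ℕ) (x : (resV X x₀ s).V n), j ≤ s →
    (resS X x₀ s j).app n ((resD X x₀ (s + 1) (j + 1)).f.app n x) = x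
  | s, 0, n, x, _ => by
    have h := muV_R_of (resU X x₀ s) n x
    rw [resS_zero]
    have h2 : (resD X x₀ (s + 1) (0 + 1)) = (resD X x₀ s 0).R.ph := rfl
    rw [h2, resD_zero]
    exact h
  | 0, j + 1, n, x, h => by omega
  | s + 1, j + 1, n, x, h =>
    PHom.R_R_id (resD X x₀ (s + 1) (j + 1)) (resS X x₀ s j).ph
      (fun m y => res_sd_eq' s j m y (by omega)) n x

theorem res_sd_gt : ∀ (s i j n : ℕ) (x : (resV X x₀ (s + 1)).V n), i ≤ j → j ≤ s →
    (resS X x₀ (s + 1) i).app n ((resD X x₀ (s + 2) (j + 2)).f.app n x) =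
      (resD X x₀ (s + 1) (j + 1)).f.app n ((resS X x₀ s i).app n x)
  | s, 0, j, n, x, _, _ => by
    rw [resS_zero, resS_zero]
    exact muV_nat (resD X x₀ s j).R n x
  | s, i + 1, 0, n, x, h, _ => by omega
  | 0, i + 1, j + 1, n, x, _, h => by omega
  | s + 1, i + 1, j + 1, n, x, h, h' =>
    PHom.R_R (resD X x₀ (s + 2) (j + 2)) (resS X x₀ (s + 1) i).ph (resS X x₀ s i).ph
      (resD X x₀ (s + 1) (j + 1)) (fun m y => res_sd_gt s i j m y (by omega) (by omega)) n x

/-- the resolution of `X` as a tower object -/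
noncomputable def resT : Tower where
  W s := resV X x₀ s
  d s i := (resD X x₀ (s + 1) i).f
  σ s j := resS X x₀ s j
  d_zero s i n := by
    have h := (resD X x₀ (s + 1) i).hf
    have h2 : (0 : (resV X x₀ s).V n) = (resV X x₀ s).act (cst 0 : Mo n 0) 0 := (map_zero _).symm
    rw [h2]
    have h3 := (resD X x₀ (s + 1) i).f.nat (cst 0 : Mo n 0) (resU X x₀ (s + 1)).pt
    refine Eq.trans h3 ?_
    rw [h]
    exact map_zero ((resV X x₀ (s + 1)).act (cst 0 : Mo n 0))
  d_add s i n x y h _ := by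
    cases i with
    | zero => omega
    | succ i => exact map_add ((resD X x₀ s i).R.app n) x y
  dd s i j n x h h' := res_dd X x₀ (s + 1) i j n x h h'
  σσ s i j n x h h' := res_ss X x₀ s i j n x h h'
  σd_lt s i j n x h h' := res_sd_lt X x₀ s i j n x h h'
  σd_eq s j n x h := res_sd_eq X x₀ s j n x h
  σd_eq' s j n x h := res_sd_eq' X x₀ s j n x h
  σd_gt s i j n x h h' := res_sd_gt X x₀ s i j n x h h'

end res

/-! ## mapping towers -/

theorem Tower.d_zv (T : Tower) (s i : ℕ) : (T.d s i).app 0 (T.W s).zv = (T.W (s + 1)).zv :=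
  T.d_zero s i 0

/-- composition with a linear map -/
def MapSV.lcomp {Z : SS} {z₀ : Z.S 0} {V V' : SV} (g : SVHom V V') :
    SVHom (MapSV Z z₀ V) (MapSV Z z₀ V') :=
  ⟨fun t =>
    { toFun := (MapSV.comp (Z := Z) (z₀ := z₀) g.hom (map_zero (g.app 0))).app t
      map_add' := fun a b => Subtype.ext (funext fun n => funext fun x =>
        map_add (g.app n) (a.1 n x) (b.1 n x))
      map_smul' := fun c a => Subtype.ext (funext fun n => funext fun x =>
        map_smul (g.app n) c (a.1 n x)) },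
    fun f x => (MapSV.comp (Z := Z) (z₀ := z₀) g.hom (map_zero (g.app 0))).nat f x⟩

/-- the mapping tower `s ↦ Map_*(Z, W s)` -/
def mapT (T : Tower) (Z : SS) (z₀ : Z.S 0) : Tower where
  W s := MapSV Z z₀ (T.W s)
  d s i := MapSV.comp (T.d s i) (T.d_zv s i)
  σ s j := MapSV.lcomp (T.σ s j)
  d_zero s i _ := Subtype.ext (funext fun m => funext fun _ => T.d_zero s i m)
  d_add s i _ x y h h' := Subtype.ext (funext fun m => funext fun p =>
    T.d_add s i m (x.1 m p) (y.1 m p) h h')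
  dd s i j _ x h h' := Subtype.ext (funext fun m => funext fun p =>
    T.dd s i j m (x.1 m p) h h')
  σσ s i j _ x h h' := Subtype.ext (funext fun m => funext fun p =>
    T.σσ s i j m (x.1 m p) h h')
  σd_lt s i j _ x h h' := Subtype.ext (funext fun m => funext fun p =>
    T.σd_lt s i j m (x.1 m p) h h')
  σd_eq s j _ x h := Subtype.ext (funext fun m => funext fun p => T.σd_eq s j m (x.1 m p) h)
  σd_eq' s j _ x h := Subtype.ext (funext fun m => funext fun p => T.σd_eq' s j m (x.1 m p) h)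
  σd_gt s i j _ x h h' := Subtype.ext (funext fun m => funext fun p =>
    T.σd_gt s i j m (x.1 m p) h h')

end MM
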