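import Pool.Agent.Lib_MP_33f7bb_d.A3KL
import Pool.Agent.Lib_MP_33f7bb_d.A020

/-!
# A3-12: homology of `B = B(ZMod 2)`: `H_n (lin B) = F`, detected by the coefficient of the alternating simplex

`bAlt n = (0,1,0,1,…)`: the only `n`-simplex of `B` all of whose consecutive differences are `1`.
For a chain `z` of degree `n` the number `z (bAlt n)` is its coefficient.

Proof.  `E`: `E_n = (Fin (n+1) → ZMod 2)`, structure maps by composition.
* `E` is contractible: `(u, f) ↦ (i ↦ if u i = 0 then f i else 0)` is a homotopy from `id` to the constant `0`; so cycles of `lin E` in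
  degrees `≥ 1` are boundaries and a cycle of degree `0` with even coefficient sum is a boundary (`prism`).
* `lin B → lin E` (transfer) `tr : [b] ↦ [b] + [b + 1]` and projection `pr : [f] ↦ [i ↦ f i - f 0]` are linear simplicial maps,
  `tr` injective, `pr` surjective, `im tr = ker pr`.
* For `z ∈ Ch B (n+1)` let `z~ ∈ Ch E (n+1)` be the lift with `f 0 = 0` (`mapDomain` of `b ↦ b`), `pr z~ = z`.  The faces `δ_i`, `i ≥ 1`,
  keep `f 0 = 0`; `δ_0 f` has first value `f 1`.  Let `∂z := ∑_(b : b 1 = 1) z b [δ_0^* b] ∈ Ch B n` (the connecting map,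
  linear in `z`; `δ_0^* b = (i ↦ b (i+1) - b 1)`).  If `dif z = 0` then `pr (dif z~) = 0`, so `dif z~ = tr w`; comparing the simplices
  with first value `1`:  `w = ∂z`.
* coefficients: `(∂z) (bAlt n) = z (bAlt (n+1))` (`δ_0^* b = bAlt n` and `b 1 = 1` iff `b = bAlt (n+1)`).
* `∂` maps cycles to cycles (`tr` injective), and `H(∂) : H_(n+1) (lin B) → H_n (lin B)` is bijective: standard diagram chase,
  using that `tr : H_n (lin B) → H_n (lin E)` is zero: for `n ≥ 1` the target is `0`, for `n = 0` the coefficient sum of `tr w` is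
  even.  In detail: (inj) `∂z = dif w`: `z~ + tr w` is a cycle of degree `≥ 1` of `lin E`, so `= dif r`, and `z = pr (z~ + tr w) =
  dif (pr r)`.  (surj) `w` a cycle of degree `n`: `tr w = dif r`, `z := pr r` is a cycle; `r + z~ = tr s`, so `tr (∂z) = dif z~ =
  tr w + tr (dif s)`.  (∂ of a boundary is a boundary) `z = dif y`: `y~` the lift of `y`: `z~ + dif y~ = tr s`, so `tr (∂z) = tr (dif s)`.
* `n = 0`: `B_0` is a point, `Ch B 0 = F`, `dif` of a `1`-chain is `0` (two equal faces); `bAlt 0` is this point.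
* By induction on `n`: a cycle `z` of degree `n` is a boundary iff `z (bAlt n) = 0`, and there is a cycle with `z (bAlt n) = 1`.
-/

open scoped TensorProduct

namespace MM

/-- the alternating simplex `(0,1,0,1,…)` -/
def bAlt (n : ℕ) : K1.V n := ⟨fun i => ((i : ℕ) : ZMod 2), by
  rw [LinearMap.mem_ker, LinearMap.proj_apply]; simp⟩

theorem bAlt_apply (n : ℕ) (i : Fin (n + 1)) : (bAlt n).1 i = ((i : ℕ) : ZMod 2) := rfl

/-- characterisation of the alternating simplex -/
theorem eq_bAlt_iff (n : ℕ) (b : K1.V n) :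
    b = bAlt n ↔ ∀ i : Fin n, b.1 i.castSucc + b.1 i.succ = 1 := by
  constructor
  · rintro rfl i
    rw [bAlt_apply, bAlt_apply, Fin.val_castSucc, Fin.val_succ]
    push_cast
    rw [← add_assoc, CharTwo.add_self_eq_zero, zero_add]
  · intro h
    apply Subtype.ext
    funext i
    induction i using Fin.induction with
    | zero =>
      rw [bAlt_apply]
      have h1 := b.2
      rw [LinearMap.mem_ker, LinearMap.proj_apply] at h1
      rw [h1]
      simp
    | succ i ih =>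
      have h1 := h i
      rw [ih] at h1
      rw [bAlt_apply] at h1 ⊢
      rw [Fin.val_castSucc] at h1
      rw [Fin.val_succ]
      push_cast
      have h2 : b.1 i.succ = ((i : ℕ) : ZMod 2) + (((i : ℕ) : ZMod 2) + b.1 i.succ) := by
        rw [← add_assoc, CharTwo.add_self_eq_zero, zero_add]
      rw [h2, h1]

/-! ### the transfer sequence -/

/-- the contractible simplicial set `E` -/
private abbrev A3B1_E : SS where
  S n := Fin (n + 1) → ZMod 2
  act f x := fun i => x (f i)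
  act_id _ := rfl
  act_comp _ _ _ := rfl

private def A3B1_pr : Hom A3B1_E BZ2 where
  app n f := ⟨fun i => f i - f 0, by
    rw [LinearMap.mem_ker, LinearMap.proj_apply, sub_self]⟩
  nat {m n} g f := Subtype.ext (funext fun i => by
    show f (g i) - f (g 0) = (f (g i) - f 0) - (f (g 0) - f 0)
    ring)

private def A3B1_L (c : ZMod 2) (n : ℕ) (b : BZ2.S n) : A3B1_E.S n := fun i => b.1 i + c

private theorem A3B1_b0 {n : ℕ} (b : BZ2.S n) : b.1 0 = 0 := by
  have h1 := b.2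
  rw [LinearMap.mem_ker, LinearMap.proj_apply] at h1
  exact h1

private theorem A3B1_pr_L (c : ZMod 2) {n : ℕ} (b : BZ2.S n) :
    A3B1_pr.app n (A3B1_L c n b) = b := by
  apply Subtype.ext
  funext i
  show (b.1 i + c) - (b.1 0 + c) = b.1 i
  rw [A3B1_b0]
  ring

private theorem A3B1_zmod (c : ZMod 2) : c = 0 ∨ c = 1 := by
  revert c
  decide

private theorem A3B1_L_pr {n : ℕ} (f : A3B1_E.S n) : A3B1_L (f 0) n (A3B1_pr.app n f) = f := by
  funext i
  show (f i - f 0) + f 0 = f i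
  ring

private noncomputable def A3B1_li (c : ZMod 2) (n : ℕ) : Ch BZ2 n →ₗ[ZMod 2] Ch A3B1_E n :=
  Finsupp.lmapDomain _ _ (A3B1_L c n)

private noncomputable def A3B1_tr (n : ℕ) : Ch BZ2 n →ₗ[ZMod 2] Ch A3B1_E n :=
  A3B1_li 0 n + A3B1_li 1 n

private noncomputable def A3B1_prl (n : ℕ) : Ch A3B1_E n →ₗ[ZMod 2] Ch BZ2 n :=
  Finsupp.lmapDomain _ _ (A3B1_pr.app n)

private noncomputable def A3B1_sg (n : ℕ) : Ch A3B1_E n →ₗ[ZMod 2] Ch BZ2 n :=
  Finsupp.linearCombination (ZMod 2)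
    (fun f : A3B1_E.S n => if f 0 = 0 then (0 : Ch BZ2 n) else Finsupp.single (A3B1_pr.app n f) 1)

private theorem A3B1_li_single (c : ZMod 2) (n : ℕ) (b : BZ2.S n) (r : ZMod 2) :
    A3B1_li c n (Finsupp.single b r) = Finsupp.single (A3B1_L c n b) r := by
  rw [A3B1_li, Finsupp.lmapDomain_apply, Finsupp.mapDomain_single]

private theorem A3B1_prl_single (n : ℕ) (f : A3B1_E.S n) (r : ZMod 2) :
    A3B1_prl n (Finsupp.single f r) = Finsupp.single (A3B1_pr.app n f) r := by
  rw [A3B1_prl, Finsupp.lmapDomain_apply, Finsupp.mapDomain_single]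

private theorem A3B1_tr_single (n : ℕ) (b : BZ2.S n) (r : ZMod 2) :
    A3B1_tr n (Finsupp.single b r) =
      Finsupp.single (A3B1_L 0 n b) r + Finsupp.single (A3B1_L 1 n b) r := by
  rw [A3B1_tr, LinearMap.add_apply, A3B1_li_single, A3B1_li_single]

private theorem A3B1_sg_single (n : ℕ) (f : A3B1_E.S n) (r : ZMod 2) :
    A3B1_sg n (Finsupp.single f r) =
      if f 0 = 0 then (0 : Ch BZ2 n) else Finsupp.single (A3B1_pr.app n f) r := by
  rw [A3B1_sg, Finsupp.linearCombination_single]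
  split_ifs
  · rw [smul_zero]
  · rw [Finsupp.smul_single, smul_eq_mul, mul_one]

private theorem A3B1_F1 {n : ℕ} (z : Ch BZ2 n) : A3B1_prl n (A3B1_li 0 n z) = z := by
  have h : (A3B1_prl n).comp (A3B1_li 0 n) = LinearMap.id := by
    refine Finsupp.lhom_ext fun b r => ?_
    rw [LinearMap.comp_apply, A3B1_li_single, A3B1_prl_single, A3B1_pr_L, LinearMap.id_apply]
  exact LinearMap.congr_fun h z

private theorem A3B1_F2 {n : ℕ} (z : Ch BZ2 n) : A3B1_prl n (A3B1_tr n z) = 0 := by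
  have h : (A3B1_prl n).comp (A3B1_tr n) = 0 := by
    refine Finsupp.lhom_ext fun b r => ?_
    rw [LinearMap.comp_apply, A3B1_tr_single, map_add, A3B1_prl_single, A3B1_prl_single,
      A3B1_pr_L, A3B1_pr_L, two_eq_zero', LinearMap.zero_apply]
  exact LinearMap.congr_fun h z

private theorem A3B1_F3 {n : ℕ} (r : Ch A3B1_E n) :
    r + A3B1_li 0 n (A3B1_prl n r) = A3B1_tr n (A3B1_sg n r) := by
  have h : LinearMap.id + (A3B1_li 0 n).comp (A3B1_prl n) = (A3B1_tr n).comp (A3B1_sg n) := by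
    refine Finsupp.lhom_ext fun f c => ?_
    rw [LinearMap.add_apply, LinearMap.comp_apply, LinearMap.comp_apply, LinearMap.id_apply,
      A3B1_prl_single, A3B1_li_single, A3B1_sg_single]
    rcases A3B1_zmod (f 0) with h0 | h0
    · rw [if_pos h0, map_zero]
      have h1 : A3B1_L 0 n (A3B1_pr.app n f) = f := by
        rw [← h0]
        exact A3B1_L_pr f
      rw [h1, two_eq_zero']
    · rw [if_neg (by rw [h0]; exact one_ne_zero), A3B1_tr_single]
      have h1 : A3B1_L 1 n (A3B1_pr.app n f) = f := by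
        rw [← h0]
        exact A3B1_L_pr f
      rw [h1, add_comm]
  exact LinearMap.congr_fun h r

private theorem A3B1_F4 {n : ℕ} (z : Ch BZ2 n) : A3B1_sg n (A3B1_tr n z) = z := by
  have h : (A3B1_sg n).comp (A3B1_tr n) = LinearMap.id := by
    refine Finsupp.lhom_ext fun b r => ?_
    rw [LinearMap.comp_apply, A3B1_tr_single, map_add, A3B1_sg_single, A3B1_sg_single,
      A3B1_pr_L, A3B1_pr_L, LinearMap.id_apply]
    have h0 : A3B1_L 0 n b 0 = 0 := by
      show b.1 0 + 0 = 0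
      rw [A3B1_b0, add_zero]
    have h1 : ¬ A3B1_L 1 n b 0 = 0 := by
      show ¬ b.1 0 + 1 = 0
      rw [A3B1_b0, zero_add]
      exact one_ne_zero
    rw [if_pos h0, if_neg h1, zero_add]
  exact LinearMap.congr_fun h z

private theorem A3B1_tr_inj {n : ℕ} {z z' : Ch BZ2 n} (h : A3B1_tr n z = A3B1_tr n z') :
    z = z' := by
  rw [← A3B1_F4 z, h, A3B1_F4]

private theorem A3B1_act_L (c : ZMod 2) {m n : ℕ} (g : Mo m n) (b : BZ2.S n) :
    A3B1_E.act g (A3B1_L c n b) = A3B1_L (c + b.1 (g 0)) m (BZ2.act g b) := by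
  funext i
  show b.1 (g i) + c = (b.1 (g i) - b.1 (g 0)) + (c + b.1 (g 0))
  ring

private theorem A3B1_tr_act {m n : ℕ} (g : Mo m n) (z : Ch BZ2 n) :
    (A3B1_tr n z).mapDomain (A3B1_E.act g) = A3B1_tr m (z.mapDomain (BZ2.act g)) := by
  have h : (Finsupp.lmapDomain (ZMod 2) (ZMod 2) (A3B1_E.act g)).comp (A3B1_tr n) =
      (A3B1_tr m).comp (Finsupp.lmapDomain (ZMod 2) (ZMod 2) (BZ2.act g)) := by
    refine Finsupp.lhom_ext fun b r => ?_
    rw [LinearMap.comp_apply, LinearMap.comp_apply, A3B1_tr_single, map_add,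
      Finsupp.lmapDomain_apply, Finsupp.lmapDomain_apply, Finsupp.lmapDomain_apply,
      Finsupp.mapDomain_single, Finsupp.mapDomain_single, Finsupp.mapDomain_single,
      A3B1_tr_single, A3B1_act_L, A3B1_act_L]
    rcases A3B1_zmod (b.1 (g 0)) with h0 | h0
    · rw [h0, add_zero, add_zero]
    · rw [h0, zero_add, CharTwo.add_self_eq_zero, add_comm]
  exact LinearMap.congr_fun h z

private theorem A3B1_F5 {n : ℕ} (z : Ch BZ2 (n + 1)) :
    dif (A3B1_tr (n + 1) z) = A3B1_tr n (dif z) := by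
  rw [dif, dif, map_sum]
  exact Finset.sum_congr rfl fun i _ => A3B1_tr_act _ _

private theorem A3B1_F6 {n : ℕ} (r : Ch A3B1_E (n + 1)) :
    A3B1_prl n (dif r) = dif (A3B1_prl (n + 1) r) := by
  have h := (linMap A3B1_pr).map_d r
  rw [lin_d] at h
  refine Eq.trans h ?_
  exact lin_d _

/-- the connecting map -/
private noncomputable def A3B1_del (n : ℕ) (z : Ch BZ2 (n + 1)) : Ch BZ2 n :=
  A3B1_sg n (dif (A3B1_li 0 (n + 1) z))

private theorem A3B1_star {n : ℕ} (z : Ch BZ2 (n + 1)) :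
    dif (A3B1_li 0 (n + 1) z) + A3B1_li 0 n (dif z) = A3B1_tr n (A3B1_del n z) := by
  rw [A3B1_del, ← A3B1_F3, A3B1_F6, A3B1_F1]

private theorem A3B1_del_dif {n : ℕ} (z : Ch BZ2 (n + 2)) :
    A3B1_del n (dif z) = dif (A3B1_del (n + 1) z) := by
  apply A3B1_tr_inj
  rw [← A3B1_F5, ← A3B1_star, ← A3B1_star, dif_add, dif_dif, dif_dif, map_zero, add_zero,
    zero_add]

/-! ### contractibility of `E` -/

private def A3B1_H : Hom ((Del 1).prod A3B1_E) A3B1_E where
  app n x := fun i => if x.1 i = 0 then x.2 i else 0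
  nat _ _ := rfl

private noncomputable def A3B1_eps {P : SS} (n : ℕ) : Ch P n →ₗ[ZMod 2] ZMod 2 :=
  Finsupp.linearCombination (ZMod 2) (fun _ => (1 : ZMod 2))

private theorem A3B1_eps_single {P : SS} {n : ℕ} (x : P.S n) (c : ZMod 2) :
    A3B1_eps n (Finsupp.single x c : Ch P n) = c := by
  simp [A3B1_eps]

private theorem A3B1_map_const {P P' : SS} {m n : ℕ} (y : P'.S m) (z : Ch P n) :
    (z.mapDomain (fun _ => y) : Ch P' m) = Finsupp.single y (A3B1_eps n z) := by
  induction z using Finsupp.induction_linear with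
  | zero => simp
  | add f g hf hg => rw [Finsupp.mapDomain_add, hf, hg, map_add, Finsupp.single_add]
  | single a b => rw [Finsupp.mapDomain_single, A3B1_eps_single]

private def A3B1_z (n : ℕ) : A3B1_E.S n := fun _ => 0

private theorem A3B1_dif_z (n : ℕ) (c : ZMod 2) :
    dif (Finsupp.single (A3B1_z (n + 1)) c : Ch A3B1_E (n + 1)) =
      Finsupp.single (A3B1_z n) (((n : ℕ) : ZMod 2) * c) := by
  rw [dif]
  have h : ∀ i : Fin (n + 2), (Finsupp.single (A3B1_z (n + 1)) c : Ch A3B1_E (n + 1)).mapDomain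
      (A3B1_E.act (dlt i)) = Finsupp.single (A3B1_z n) c := by
    intro i
    rw [Finsupp.mapDomain_single]
    rfl
  rw [Finset.sum_congr rfl fun i _ => h i, Finset.sum_const, Finset.card_univ, Fintype.card_fin,
    Finsupp.smul_single, nsmul_eq_mul]
  congr 2
  push_cast
  have h2 : (2 : ZMod 2) = 0 := rfl
  rw [h2, add_zero]

private theorem A3B1_H0 {n : ℕ} (z : Ch A3B1_E n) :
    z.mapDomain (fun x => A3B1_H.app n (cst 0, x)) = z := by
  have h : (fun x => A3B1_H.app n (cst 0, x)) = _root_.id := by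
    funext x
    funext i
    show (if (0 : Fin 2) = 0 then x i else 0) = x i
    exact if_pos rfl
  rw [h, Finsupp.mapDomain_id]

private theorem A3B1_H1 {n : ℕ} (z : Ch A3B1_E n) :
    z.mapDomain (fun x => A3B1_H.app n (cst 1, x)) =
      Finsupp.single (A3B1_z n) (A3B1_eps n z) := by
  have h : (fun x => A3B1_H.app n (cst 1, x)) = fun _ => A3B1_z n := by
    funext x
    funext i
    show (if (1 : Fin 2) = 0 then x i else 0) = (0 : ZMod 2)
    exact if_neg (by decide)
  rw [h, A3B1_map_const]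

private theorem A3B1_E_succ {n : ℕ} (z : Ch A3B1_E (n + 1)) (hz : dif z = 0) :
    ∃ w : Ch A3B1_E (n + 2), dif w = z := by
  obtain ⟨T, hT0, hT, -⟩ := prism A3B1_H
  have h1 := hT n z
  rw [hz, map_zero, add_zero, A3B1_H0, A3B1_H1] at h1
  set c := A3B1_eps (n + 1) z with hc
  have h2 : ∃ w : Ch A3B1_E (n + 2), dif w = Finsupp.single (A3B1_z (n + 1)) c := by
    rcases A3B1_zmod (n : ZMod 2) with hn | hn
    · refine ⟨Finsupp.single (A3B1_z (n + 2)) c, ?_⟩
      rw [A3B1_dif_z]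
      push_cast
      rw [hn, zero_add, one_mul]
    · have h3 : dif (z + Finsupp.single (A3B1_z (n + 1)) c) = 0 := by
        rw [← h1, dif_dif]
      rw [dif_add, hz, zero_add, A3B1_dif_z, hn, one_mul, Finsupp.single_eq_zero] at h3
      refine ⟨0, ?_⟩
      rw [h3, dif_zero, Finsupp.single_zero]
  obtain ⟨w, hw⟩ := h2
  refine ⟨T (n + 1) z + w, ?_⟩
  rw [dif_add, h1, hw, add_assoc, two_eq_zero', add_zero]

private theorem A3B1_E_zero (z : Ch A3B1_E 0) (hz : A3B1_eps 0 z = 0) :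
    ∃ w : Ch A3B1_E 1, dif w = z := by
  obtain ⟨T, hT0, hT, -⟩ := prism A3B1_H
  have h1 := hT0 z
  rw [A3B1_H0, A3B1_H1, hz, Finsupp.single_zero, add_zero] at h1
  exact ⟨_, h1⟩

private theorem A3B1_eps_tr {n : ℕ} (z : Ch BZ2 n) : A3B1_eps n (A3B1_tr n z) = 0 := by
  have h : (A3B1_eps n).comp (A3B1_tr n) = 0 := by
    refine Finsupp.lhom_ext fun b r => ?_
    rw [LinearMap.comp_apply, A3B1_tr_single, map_add, A3B1_eps_single, A3B1_eps_single,
      CharTwo.add_self_eq_zero, LinearMap.zero_apply]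
  exact LinearMap.congr_fun h z

/-! ### degree `0` -/

private theorem A3B1_S0 (b : BZ2.S 0) : b = bAlt 0 := by
  rw [eq_bAlt_iff]
  intro i
  exact i.elim0

private theorem A3B1_dif0 (y : Ch BZ2 1) : dif y = 0 := by
  rw [dif, Fin.sum_univ_two]
  have h : (BZ2.act (dlt 0) : BZ2.S 1 → BZ2.S 0) = BZ2.act (dlt 1) := by
    funext b
    rw [A3B1_S0 (BZ2.act (dlt 0) b), A3B1_S0 (BZ2.act (dlt 1) b)]
  rw [h, two_eq_zero']

private theorem A3B1_z0 (z : Ch BZ2 0) : z = Finsupp.single (bAlt 0) (z (bAlt 0)) := by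
  ext b
  rw [A3B1_S0 b, Finsupp.single_eq_same]

/-! ### the induction -/

private theorem A3B1_coeff {n : ℕ} (z : Ch BZ2 (n + 1)) :
    (A3B1_del n z) (bAlt n) = z (bAlt (n + 1)) := by
  have h1 : ∀ r : Ch A3B1_E n, (A3B1_sg n r) (bAlt n) = r (A3B1_L 1 n (bAlt n)) := by
    intro r
    have h : (Finsupp.lapply (bAlt n) : Ch BZ2 n →ₗ[ZMod 2] ZMod 2).comp (A3B1_sg n) =
        (Finsupp.lapply (A3B1_L 1 n (bAlt n)) : Ch A3B1_E n →ₗ[ZMod 2] ZMod 2) := by
      refine Finsupp.lhom_ext fun f c => ?_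
      rw [LinearMap.comp_apply, A3B1_sg_single, Finsupp.lapply_apply, Finsupp.lapply_apply]
      rcases A3B1_zmod (f 0) with h0 | h0
      · rw [if_pos h0, Finsupp.single_apply, if_neg]
        · rfl
        · intro h2
          have h3 : f 0 = (bAlt n).1 0 + 1 := congrFun h2 0
          rw [h0, A3B1_b0, zero_add] at h3
          exact zero_ne_one h3
      · rw [if_neg (by rw [h0]; exact one_ne_zero), Finsupp.single_apply, Finsupp.single_apply]
        congr 1
        apply propext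
        constructor
        · intro h2
          rw [← h2, ← h0]
          exact (A3B1_L_pr f).symm
        · intro h2
          rw [h2, A3B1_pr_L]
    exact LinearMap.congr_fun h r
  rw [A3B1_del, h1, dif, Finsupp.finsetSum_apply, Fin.sum_univ_succ, Finset.sum_eq_zero, add_zero]
  · have h2 : (A3B1_li 0 (n + 1) z).mapDomain (A3B1_E.act (dlt 0)) =
        z.mapDomain (fun b => A3B1_E.act (dlt 0) (A3B1_L 0 (n + 1) b)) := by
      rw [A3B1_li, Finsupp.lmapDomain_apply, ← Finsupp.mapDomain_comp]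
      rfl
    have h3 : Function.Injective
        (fun b : BZ2.S (n + 1) => A3B1_E.act (dlt 0) (A3B1_L 0 (n + 1) b)) := by
      intro b b' hb
      apply Subtype.ext
      funext i
      refine Fin.cases ?_ (fun i => ?_) i
      · rw [A3B1_b0, A3B1_b0]
      · have h4 := congrFun hb i
        have h5 : b.1 ((0 : Fin (n + 2)).succAbove i) + 0 =
          b'.1 ((0 : Fin (n + 2)).succAbove i) + 0 := h4
        rw [Fin.succAbove_zero, add_zero, add_zero] at h5
        exact h5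
    have h4 : A3B1_L 1 n (bAlt n) = A3B1_E.act (dlt 0) (A3B1_L 0 (n + 1) (bAlt (n + 1))) := by
      funext i
      show (bAlt n).1 i + 1 = (bAlt (n + 1)).1 ((0 : Fin (n + 2)).succAbove i) + 0
      rw [Fin.succAbove_zero, bAlt_apply, bAlt_apply, Fin.val_succ, add_zero]
      push_cast
      rfl
    rw [h2, h4]
    exact Finsupp.mapDomain_apply h3 z (bAlt (n + 1))
  · intro i _
    have h2 : (A3B1_li 0 (n + 1) z).mapDomain (A3B1_E.act (dlt i.succ)) =
        z.mapDomain (fun b => A3B1_E.act (dlt i.succ) (A3B1_L 0 (n + 1) b)) := by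
      rw [A3B1_li, Finsupp.lmapDomain_apply, ← Finsupp.mapDomain_comp]
      rfl
    rw [h2]
    apply Finsupp.mapDomain_of_notMem_range
    rintro ⟨b, hb⟩
    have h3 : b.1 ((i.succ : Fin (n + 2)).succAbove 0) + 0 = (bAlt n).1 0 + 1 := congrFun hb 0
    rw [Fin.succAbove_of_castSucc_lt _ _ (by simp [Fin.lt_def])] at h3
    have h4 : b.1 (Fin.castSucc (0 : Fin (n + 1))) = 0 := A3B1_b0 b
    rw [h4, A3B1_b0, zero_add, zero_add] at h3
    exact zero_ne_one h3

private theorem A3B1_memZ {n : ℕ} {z : Ch BZ2 (n + 1)} :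
    z ∈ (lin BZ2).Z (n + 1) ↔ dif z = 0 := by
  rw [← lin_d]
  rfl

private theorem A3B1_memB {n : ℕ} {z : Ch BZ2 n} :
    z ∈ (lin BZ2).B n ↔ ∃ w : Ch BZ2 (n + 1), dif w = z := by
  constructor
  · rintro ⟨w, hw⟩
    exact ⟨w, by rw [← lin_d]; exact hw⟩
  · rintro ⟨w, hw⟩
    exact ⟨w, by rw [lin_d]; exact hw⟩

private theorem A3B1_delZ {n : ℕ} {z : Ch BZ2 (n + 1)} (hz : dif z = 0) :
    A3B1_del n z ∈ (lin BZ2).Z n := by
  cases n with
  | zero => trivial
  | succ n =>
    rw [A3B1_memZ, ← A3B1_del_dif, hz]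
    show A3B1_sg n (dif (A3B1_li 0 (n + 1) 0)) = 0
    rw [map_zero, dif_zero, map_zero]

/-- Claim A -/
private theorem A3B1_A {n : ℕ} {z : Ch BZ2 (n + 1)} (hz : dif z = 0)
    (h : A3B1_del n z ∈ (lin BZ2).B n) : z ∈ (lin BZ2).B (n + 1) := by
  obtain ⟨w, hw⟩ := A3B1_memB.1 h
  have h1 : dif (A3B1_li 0 (n + 1) z + A3B1_tr (n + 1) w) = 0 := by
    have h2 := A3B1_star z
    rw [hz, map_zero, add_zero] at h2
    rw [dif_add, h2, A3B1_F5, hw, two_eq_zero']
  obtain ⟨r, hr⟩ := A3B1_E_succ _ h1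
  refine A3B1_memB.2 ⟨A3B1_prl _ r, ?_⟩
  rw [← A3B1_F6, hr, map_add, A3B1_F1, A3B1_F2, add_zero]

/-- Claim B -/
private theorem A3B1_B {n : ℕ} {w : Ch BZ2 n} (hw : w ∈ (lin BZ2).Z n) :
    ∃ z : Ch BZ2 (n + 1), dif z = 0 ∧ A3B1_del n z + w ∈ (lin BZ2).B n := by
  obtain ⟨r, hr⟩ : ∃ r : Ch A3B1_E (n + 1), dif r = A3B1_tr n w := by
    cases n with
    | zero => exact A3B1_E_zero _ (A3B1_eps_tr w)
    | succ n =>
      refine A3B1_E_succ _ ?_
      rw [A3B1_F5, A3B1_memZ.1 hw, map_zero]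
  have hz : dif (A3B1_prl (n + 1) r) = 0 := by
    rw [← A3B1_F6, hr, A3B1_F2]
  refine ⟨A3B1_prl (n + 1) r, hz, A3B1_memB.2 ⟨A3B1_sg (n + 1) r, ?_⟩⟩
  apply A3B1_tr_inj
  have h1 := A3B1_star (A3B1_prl (n + 1) r)
  rw [hz, map_zero, add_zero] at h1
  have h2 : A3B1_li 0 (n + 1) (A3B1_prl (n + 1) r) = r + A3B1_tr (n + 1) (A3B1_sg (n + 1) r) := by
    rw [← A3B1_F3, ← add_assoc, two_eq_zero', zero_add]
  rw [map_add, ← h1, h2, dif_add, hr, A3B1_F5, add_right_comm, two_eq_zero', zero_add]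

theorem linB_coeff_B {n : ℕ} {z : Ch BZ2 n} (hz : z ∈ (lin BZ2).B n) : z (bAlt n) = 0 := by
  induction n with
  | zero =>
    obtain ⟨w, hw⟩ := A3B1_memB.1 hz
    rw [← hw, A3B1_dif0]
    rfl
  | succ n ih =>
    obtain ⟨w, hw⟩ := A3B1_memB.1 hz
    rw [← A3B1_coeff, ← hw]
    exact ih (A3B1_memB.2 ⟨A3B1_del (n + 1) w, (A3B1_del_dif w).symm⟩)

theorem linB_mem_B {n : ℕ} {z : Ch BZ2 n} (hz : z ∈ (lin BZ2).Z n) (h : z (bAlt n) = 0) :
    z ∈ (lin BZ2).B n := by
  induction n with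
  | zero =>
    rw [A3B1_z0 z, h, Finsupp.single_zero]
    exact Submodule.zero_mem _
  | succ n ih =>
    have hz' := A3B1_memZ.1 hz
    refine A3B1_A hz' (ih (A3B1_delZ hz') ?_)
    rw [A3B1_coeff]
    exact h

theorem linB_exists (n : ℕ) : ∃ z ∈ (lin BZ2).Z n, (z : Ch BZ2 n) (bAlt n) = 1 := by
  induction n with
  | zero => exact ⟨Finsupp.single (bAlt 0) 1, trivial, Finsupp.single_eq_same⟩
  | succ n ih =>
    obtain ⟨w, hw, hw1⟩ := ih
    obtain ⟨z, hz, hz1⟩ := A3B1_B hw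
    refine ⟨z, A3B1_memZ.2 hz, ?_⟩
    have h1 := linB_coeff_B hz1
    rw [Finsupp.add_apply, hw1, A3B1_coeff] at h1
    rw [← add_zero (z (bAlt (n + 1)))]
    have h2 : (1 : ZMod 2) + 1 = 0 := rfl
    rw [← h2, ← add_assoc, h1, zero_add]

/-- the class `x^n`: the coefficient of the alternating simplex -/
noncomputable def xP (n : ℕ) : Hc BZ2 n :=
  Submodule.liftQ _ ((Finsupp.lapply (bAlt n) : Ch BZ2 n →ₗ[ZMod 2] ZMod 2).comp
    ((lin BZ2).Z n).subtype) (by
    rintro ⟨z, hz⟩ hz'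
    exact linB_coeff_B hz')

theorem xP_cls (n : ℕ) (z : Ch BZ2 n) (hz : z ∈ (lin BZ2).Z n) :
    xP n ((lin BZ2).cls z hz) = z (bAlt n) := rfl

theorem xP_bijective (n : ℕ) : Function.Bijective (xP n) := by
  constructor
  · rw [injective_iff_map_eq_zero]
    intro c hc
    obtain ⟨⟨z, hz⟩, rfl⟩ := Submodule.Quotient.mk_surjective _ c
    have h1 : z (bAlt n) = 0 := hc
    rw [Submodule.Quotient.mk_eq_zero]
    exact linB_mem_B hz h1
  · intro r
    obtain ⟨z, hz, hz1⟩ := linB_exists n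
    refine ⟨r • (lin BZ2).cls z hz, ?_⟩
    rw [map_smul, xP_cls, hz1, smul_eq_mul, mul_one]

/-- the generator of `H_n (lin B)` -/
noncomputable def eU (n : ℕ) : (lin BZ2).H n := Classical.choose ((xP_bijective n).2 1)

theorem xP_eU (n : ℕ) : xP n (eU n) = 1 := Classical.choose_spec ((xP_bijective n).2 1)

theorem eq_smul_eU (n : ℕ) (c : (lin BZ2).H n) : c = xP n c • eU n := by
  apply (xP_bijective n).1
  rw [map_smul, xP_eU, smul_eq_mul, mul_one]

theorem Hc_B_eq (n : ℕ) (y : Hc BZ2 n) : y = y (eU n) • xP n := by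
  apply LinearMap.ext
  intro c
  rw [eq_smul_eU n c, map_smul, LinearMap.smul_apply, map_smul, xP_eU, smul_eq_mul, smul_eq_mul,
    smul_eq_mul, mul_comm, mul_one]

theorem xP_zero : xP 0 = Hc.unit BZ2 := by
  apply LinearMap.ext
  intro c
  obtain ⟨⟨z, hz⟩, rfl⟩ := Submodule.Quotient.mk_surjective _ c
  show xP 0 ((lin BZ2).cls z hz) = Hc.unit BZ2 ((lin BZ2).cls z hz)
  rw [xP_cls, Hc.unit_cls]
  have h1 : (Finsupp.single (bAlt 0) (z (bAlt 0)) : Ch BZ2 0).sum (fun _ r => r) =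
      z (bAlt 0) := Finsupp.sum_single_index rfl
  have h2 : (z : Ch BZ2 0) = Finsupp.single (bAlt 0) (z (bAlt 0)) := A3B1_z0 z
  conv_rhs => rw [h2]
  exact h1.symm

end MM
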