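import Pool.Agent.Lib_MP_33f7bb_d.A013

/-!
# Shared definitions for A3 - A7

Induced maps in homology, functoriality of the reduced linearisation `R`, reduced diagonal, primitives
`PH`, cohomology groups, the format `AM` of unstable modules (no Adem relations).
-/

open scoped TensorProduct

namespace MM

/-! ## induced maps in homology -/

theorem SVHom.map_d {P Q : SV} (f : SVHom P Q) {n : ℕ} (z : P.V (n + 1)) :
    f.app n (P.d n z) = Q.d n (f.app (n + 1) z) := by
  simp only [SV.d, LinearMap.sum_apply, map_sum]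
  exact Finset.sum_congr rfl fun i _ => f.nat _ _

theorem SVHom.map_Z {P Q : SV} (f : SVHom P Q) {n : ℕ} {z : P.V n} (hz : z ∈ P.Z n) :
    f.app n z ∈ Q.Z n := by
  cases n with
  | zero => exact Submodule.mem_top
  | succ n =>
    have h1 : P.d n z = 0 := hz
    show Q.d n (f.app (n + 1) z) = 0
    rw [← f.map_d, h1, map_zero]

theorem SVHom.map_B {P Q : SV} (f : SVHom P Q) {n : ℕ} {z : P.V n} (hz : z ∈ P.B n) :
    f.app n z ∈ Q.B n := by
  obtain ⟨w, rfl⟩ := hz
  exact ⟨f.app (n + 1) w, (f.map_d w).symm⟩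

/-- the map induced in homology -/
noncomputable def SV.Hmap {P Q : SV} (f : SVHom P Q) (n : ℕ) : P.H n →ₗ[ZMod 2] Q.H n :=
  Submodule.mapQ _ _ ((f.app n).restrict (fun _ hz => f.map_Z hz)) (by
    rintro ⟨z, hz⟩ hz'
    exact f.map_B hz')

@[simp] theorem SV.Hmap_cls {P Q : SV} (f : SVHom P Q) (n : ℕ) (z : P.V n) (hz : z ∈ P.Z n) :
    SV.Hmap f n (P.cls z hz) = Q.cls (f.app n z) (f.map_Z hz) := rfl

theorem SV.Hmap_id (P : SV) (n : ℕ) (x : P.H n) : SV.Hmap (SVHom.id P) n x = x := by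
  obtain ⟨⟨z, hz⟩, rfl⟩ := Submodule.Quotient.mk_surjective _ x
  rfl

theorem SV.Hmap_comp {P Q S : SV} (g : SVHom Q S) (f : SVHom P Q) (n : ℕ) (x : P.H n) :
    SV.Hmap (g.comp f) n x = SV.Hmap g n (SV.Hmap f n x) := by
  obtain ⟨⟨z, hz⟩, rfl⟩ := Submodule.Quotient.mk_surjective _ x
  rfl

/-! ## the functor `lin` and the functor `R` -/

/-- functoriality of the free simplicial vector space -/
noncomputable def linMap {P Q : SS} (f : Hom P Q) : SVHom (lin P) (lin Q) :=
  ⟨fun n => Finsupp.lmapDomain (ZMod 2) (ZMod 2) (f.app n), fun {m n} g x => by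
    show Finsupp.mapDomain _ (Finsupp.mapDomain _ x) = Finsupp.mapDomain _ (Finsupp.mapDomain _ x)
    rw [← Finsupp.mapDomain_comp, ← Finsupp.mapDomain_comp]
    congr 1
    funext y
    exact f.nat g y⟩

/-- linear extension of a simplicial map into a simplicial vector space -/
noncomputable def linHom {P : SS} {W : SV} (f : Hom P W.ss) : SVHom (lin P) W :=
  ⟨fun n => linExt f.app n, fun {_ n} g x =>
    linExt_act (A := (⊤ : Sub P)) (fun g x _ => f.nat g x) g (SuppIn.top (P := P) (n := n) x)⟩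

/-- the class of a simplex in the reduced linearisation -/
theorem R.of_base {Z : SS} (z₀ : Z.S 0) (n : ℕ) : (R.of z₀).app n (Z.deg z₀ n) = 0 := by
  show (linSub (Sub.pt z₀)).proj.app n _ = 0
  show Submodule.Quotient.mk _ = 0
  rw [Submodule.Quotient.mk_eq_zero]
  exact SuppIn.single (A := Sub.pt z₀) (x := Z.deg z₀ n) rfl 1

theorem R.span {Z : SS} (z₀ : Z.S 0) (n : ℕ) :
    Submodule.span (ZMod 2) (Set.range ((R.of z₀).app n)) = (⊤ : Submodule (ZMod 2) ((R Z z₀).V n)) := by
  rw [eq_top_iff]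
  rintro x -
  obtain ⟨c, rfl⟩ := Submodule.Quotient.mk_surjective _ x
  induction c using Finsupp.induction_linear with
  | zero => exact Submodule.zero_mem _
  | add a b ha hb => exact Submodule.add_mem _ ha hb
  | single u r =>
    have : (Submodule.Quotient.mk (Finsupp.single u r) : (R Z z₀).V n) =
        r • (R.of z₀).app n u := by
      show _ = r • (Submodule.Quotient.mk (Finsupp.single u 1) : (R Z z₀).V n)
      rw [← Submodule.Quotient.mk_smul, Finsupp.smul_single, smul_eq_mul, mul_one]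
    rw [this]
    exact Submodule.smul_mem _ _ (Submodule.subset_span ⟨u, rfl⟩)

/-- two linear maps out of `R Z` agreeing on the simplices are equal -/
theorem R.ext {Z : SS} {z₀ : Z.S 0} {W : SV} {f g : SVHom (R Z z₀) W}
    (h : ∀ n x, f.app n ((R.of z₀).app n x) = g.app n ((R.of z₀).app n x)) : f = g := by
  apply SVHom.ext
  funext n
  apply LinearMap.ext
  intro x
  have hx : x ∈ Submodule.span (ZMod 2) (Set.range ((R.of z₀).app n)) := by
    rw [R.span]; trivial
  induction hx using Submodule.span_induction with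
  | mem x hx => obtain ⟨y, rfl⟩ := hx; exact h n y
  | zero => simp
  | add a b _ _ ha hb => rw [map_add, map_add, ha, hb]
  | smul r a _ ha => rw [map_smul, map_smul, ha]

/-- universal property of `R` -/
noncomputable def R.lift {Z : SS} (z₀ : Z.S 0) {W : SV} (f : Hom Z W.ss)
    (hf : f.app 0 z₀ = (0 : W.V 0)) : SVHom (R Z z₀) W :=
  ⟨fun n => Submodule.liftQ _ (linExt f.app n) (by
      intro c hc
      rw [LinearMap.mem_ker, linExt_apply]
      refine Finset.sum_eq_zero fun x hx => ?_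
      have hx' : x = Z.deg z₀ n := hc hx
      show c x • (f.app n x : W.V n) = 0
      have h2 : (f.app n x : W.V n) = 0 := by
        rw [hx']
        show f.app n (Z.act (cst 0) z₀) = (0 : W.V n)
        rw [f.nat]
        show W.act _ (f.app 0 z₀) = 0
        rw [hf, map_zero]
      rw [h2, smul_zero]), fun {m n} g x => by
    obtain ⟨c, rfl⟩ := Submodule.Quotient.mk_surjective _ x
    exact (linHom f).nat g c⟩

@[simp] theorem R.lift_of {Z : SS} (z₀ : Z.S 0) {W : SV} (f : Hom Z W.ss)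
    (hf : f.app 0 z₀ = (0 : W.V 0)) (n : ℕ) (x : Z.S n) :
    (R.lift z₀ f hf).app n ((R.of z₀).app n x) = f.app n x := by
  show linExt f.app n (Finsupp.single x 1) = f.app n x
  rw [linExt_single, one_smul]

/-- functoriality of `R` -/
noncomputable def R.map {Z Z' : SS} (z₀ : Z.S 0) (z₀' : Z'.S 0) (f : Hom Z Z')
    (hf : f.app 0 z₀ = z₀') : SVHom (R Z z₀) (R Z' z₀') :=
  R.lift z₀ ((R.of z₀').comp f) (by
    show (R.of z₀').app 0 (f.app 0 z₀) = 0
    rw [hf]
    have := R.of_base z₀' 0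
    rwa [show Z'.deg z₀' 0 = z₀' from by
      show Z'.act _ z₀' = z₀'
      have h1 : (cst 0 : Mo 0 0) = OrderHom.id := by
        ext i; simp [cst]
      rw [h1, Z'.act_id]] at this)

@[simp] theorem R.map_of {Z Z' : SS} (z₀ : Z.S 0) (z₀' : Z'.S 0) (f : Hom Z Z')
    (hf : f.app 0 z₀ = z₀') (n : ℕ) (x : Z.S n) :
    (R.map z₀ z₀' f hf).app n ((R.of z₀).app n x) = (R.of z₀').app n (f.app n x) :=
  R.lift_of _ _ _ _ _

/-- the zero vertex of a simplicial vector space -/
abbrev SV.zv (V : SV) : V.ss.S 0 := (0 : V.V 0)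

/-- reduced chains of (the simplicial set underlying) a simplicial vector space -/
noncomputable abbrev RV (V : SV) : SV := R V.ss V.zv

/-- linearisation `[v] ↦ v` -/
noncomputable def muV (V : SV) : SVHom (RV V) V := R.lift V.zv (Hom.id V.ss) rfl

@[simp] theorem muV_of (V : SV) (n : ℕ) (v : V.V n) :
    (muV V).app n ((R.of V.zv).app n v) = v := R.lift_of _ _ _ _ _

/-- pointed simplicial maps of simplicial vector spaces -/
noncomputable abbrev RVmap {V V' : SV} (g : Hom V.ss V'.ss) (hg : g.app 0 V.zv = V'.zv) :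
    SVHom (RV V) (RV V') := R.map V.zv V'.zv g hg

/-- `x ↦ [x] ⊗ [x]` as a simplicial map -/
noncomputable def R.diagFn {Z : SS} (z₀ : Z.S 0) : Hom Z ((R Z z₀).tens (R Z z₀)).ss :=
  ⟨fun n x => ((R.of z₀).app n x : (R Z z₀).V n) ⊗ₜ[ZMod 2] ((R.of z₀).app n x : (R Z z₀).V n),
    fun {m n} f x => by
    show _ = TensorProduct.map _ _ (_ ⊗ₜ[ZMod 2] _)
    rw [TensorProduct.map_tmul, (R.of z₀).nat f x]⟩

/-- reduced diagonal `[x] ↦ [x] ⊗ [x]` -/
noncomputable def R.diag {Z : SS} (z₀ : Z.S 0) : SVHom (R Z z₀) ((R Z z₀).tens (R Z z₀)) :=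
  R.lift z₀ (R.diagFn z₀) (by
    show ((R.of z₀).app 0 z₀ : (R Z z₀).V 0) ⊗ₜ[ZMod 2] ((R.of z₀).app 0 z₀ : (R Z z₀).V 0) = 0
    have h1 : Z.deg z₀ 0 = z₀ := by
      show Z.act _ z₀ = z₀
      have h1 : (cst 0 : Mo 0 0) = OrderHom.id := by
        ext i; simp [cst]
      rw [h1, Z.act_id]
    have := R.of_base z₀ 0
    rw [h1] at this
    rw [this, TensorProduct.zero_tmul])

/-- primitive classes in the reduced homology of `V` -/
noncomputable def PH (V : SV) (n : ℕ) : Submodule (ZMod 2) ((RV V).H n) :=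
  LinearMap.ker (SV.Hmap (R.diag V.zv) n)

/-- indecomposables of cohomology: the dual of the primitives -/
abbrev QH (V : SV) (n : ℕ) := Module.Dual (ZMod 2) (PH V n)

/-- cohomology of a simplicial set -/
abbrev Hc (Z : SS) (n : ℕ) := Module.Dual (ZMod 2) ((lin Z).H n)

/-- reduced cohomology of a simplicial vector space -/
abbrev RHc (V : SV) (n : ℕ) := Module.Dual (ZMod 2) ((RV V).H n)

/-! ## unstable modules without relations -/

/-- Graded vector spaces with operations `Sq n m : M^n → M^m` (meaning `Sq^(m-n)`), unstable. -/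
structure AM where
  M : ℕ → Type
  [grp : ∀ n, AddCommGroup (M n)]
  [mod : ∀ n, Module (ZMod 2) (M n)]
  Sq : ∀ n m, M n →ₗ[ZMod 2] M m
  Sq_lt : ∀ n m, m < n → Sq n m = 0
  Sq_id : ∀ n, Sq n n = LinearMap.id
  unst : ∀ n m, 2 * n < m → Sq n m = 0

attribute [instance] AM.grp AM.mod

/-- maps of degree `0` commuting with the operations -/
@[ext] structure AMHom (M N : AM) where
  app : ∀ n, M.M n →ₗ[ZMod 2] N.M n
  comm : ∀ n m x, app m (M.Sq n m x) = N.Sq n m (app n x)

/-- `Sq0 : M^n → M^(2n)`, top operation -/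
abbrev AM.Sq0 (M : AM) (n : ℕ) : M.M n →ₗ[ZMod 2] M.M (2 * n) := M.Sq n (2 * n)

/-- the inverse total square: `cSq n m = ∑_(n < k ≤ m) (cSq k m) ∘ Sq n k` for `m > n` -/
noncomputable def AM.cSq (M : AM) : ∀ n m, M.M n →ₗ[ZMod 2] M.M m
  | n, m => if _h : m < n then 0 else if _h2 : n = m then M.Sq n m else
      ∑ k : Fin (m - n), (M.cSq (n + 1 + k) m).comp (M.Sq n (n + 1 + k))
  termination_by n m => m - n
  decreasing_by omega

/-- the module `Hom_A(M, Σ^t H~)`, `H~ = x F[x]`: families of functionals `f n` (`f n m` = coefficient of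
`σ^t x^(n-t)` in the image of `m ∈ M^n`), zero for `n ≤ t`, with
`f m (Sq n m x) = binom(n-t, m-n) f n x`. -/
def AM.HomH (M : AM) (t : ℕ) : Submodule (ZMod 2) (∀ n, Module.Dual (ZMod 2) (M.M n)) where
  carrier := {f | (∀ n, n ≤ t → f n = 0) ∧
    ∀ n m x, n ≤ m → f m (M.Sq n m x) = ((Nat.choose (n - t) (m - n) : ℕ) : ZMod 2) * f n x}
  add_mem' := by
    rintro f g ⟨hf, hf'⟩ ⟨hg, hg'⟩
    refine ⟨fun n hn => by simp [hf n hn, hg n hn], fun n m x h => ?_⟩
    simp only [Pi.add_apply, LinearMap.add_apply, hf' n m x h, hg' n m x h, mul_add]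
  zero_mem' := ⟨fun _ _ => rfl, fun _ _ _ _ => by simp⟩
  smul_mem' := by
    rintro c f ⟨hf, hf'⟩
    refine ⟨fun n hn => by simp [hf n hn], fun n m x h => ?_⟩
    simp only [Pi.smul_apply, LinearMap.smul_apply, hf' n m x h, smul_eq_mul]
    ring

/-- desuspension data: `N` is the suspension of `M`: `N^(n+1) = M^n`, `N^0 = 0`, same operations -/
structure IsSusp (M N : AM) where
  e : ∀ n, M.M n ≃ₗ[ZMod 2] N.M (n + 1)
  zero : ∀ x : N.M 0, x = 0
  comm : ∀ n m x, e m (M.Sq n m x) = N.Sq (n + 1) (m + 1) (e n x)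

/-- isomorphism of `AM`s -/
structure AMIso (M N : AM) where
  e : ∀ n, M.M n ≃ₗ[ZMod 2] N.M n
  comm : ∀ n m x, e m (M.Sq n m x) = N.Sq n m (e n x)

/-- direct sums -/
noncomputable def AM.dsum {ι : Type} (M : ι → AM) : AM where
  M n := Π₀ i, (M i).M n
  Sq n m := DFinsupp.mapRange.linearMap (fun i => (M i).Sq n m)
  Sq_lt n m h := by
    ext x i
    simp [(M i).Sq_lt n m h]
  Sq_id n := by
    ext x i
    simp [(M i).Sq_id n]
  unst n m h := by
    ext x i
    simp [(M i).unst n m h]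

end MM
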