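import Pool.Agent.Lib_MP_33f7bb_d.A017
import Pool.Agent.Lib_MP_33f7bb_d.A3Def

/-!
# A3-00: external products of functionals on homology

For `a : H_p P → F`, `b : H_q Q → F`, `p + q = n`, there is exactly one functional `boxF n a b` on
`H_n (P ⊗ Q)` with `[x × y] ↦ a[x] b[y]` for cycles `x`, `y` of degrees `p`, `q`, and `0` on cross products
of cycles of other bidegrees.  Existence and uniqueness from `kun` (compose the inverse isomorphism with
the projection to the summand `p` and `a ⊗ b`).  All further statements follow from uniqueness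
(`kun_surj`: the classes of cross products of cycles span).
-/

open scoped TensorProduct

namespace MM

theorem A3Box_cls_congr {W : SV} {n : ℕ} {z z' : W.V n} (h : z = z') (hz : z ∈ W.Z n)
    (hz' : z' ∈ W.Z n) : W.cls z hz = W.cls z' hz' := by
  subst h
  rfl

theorem A3Box_cls_eq {W : SV} {n : ℕ} {z z' : W.V n} (hz : z ∈ W.Z n) (hz' : z' ∈ W.Z n)
    (h : z + z' ∈ W.B n) : W.cls z hz = W.cls z' hz' := by
  unfold SV.cls
  rw [Submodule.Quotient.eq]
  show z - z' ∈ W.B n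
  rw [sub_eq']
  exact h

theorem A3Box_cls_rel {W : SV} {n : ℕ} {z z' : W.V n} {hz : z ∈ W.Z n} {hz' : z' ∈ W.Z n}
    (h : W.cls z hz = W.cls z' hz') : z + z' ∈ W.B n := by
  unfold SV.cls at h
  rw [Submodule.Quotient.eq] at h
  have h1 : z - z' ∈ W.B n := h
  rwa [sub_eq'] at h1

theorem A3Box_cls_add {W : SV} {n : ℕ} {z z' : W.V n} (hz : z ∈ W.Z n) (hz' : z' ∈ W.Z n) :
    W.cls (z + z') ((W.Z n).add_mem hz hz') = W.cls z hz + W.cls z' hz' := rfl

theorem A3Box_cls_smul {W : SV} {n : ℕ} {z : W.V n} (c : ZMod 2) (hz : z ∈ W.Z n) :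
    W.cls (c • z) ((W.Z n).smul_mem c hz) = c • W.cls z hz := rfl

theorem A3Box_cls_zero {W : SV} {n : ℕ} {z : W.V n} (h : z = 0) (hz : z ∈ W.Z n) :
    W.cls z hz = 0 := by
  subst h
  rfl

theorem A3Box_cls_sum {W : SV} {n : ℕ} {ι : Type*} (s : Finset ι) (z : ι → W.V n)
    (hz : ∀ i, z i ∈ W.Z n) (h : ∑ i ∈ s, z i ∈ W.Z n) :
    W.cls (∑ i ∈ s, z i) h = ∑ i ∈ s, W.cls (z i) (hz i) := by
  classical
  induction s using Finset.induction_on with
  | empty => exact A3Box_cls_zero (by simp) h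
  | insert a s ha ih =>
    have e1 : ∑ i ∈ insert a s, z i = z a + ∑ i ∈ s, z i := Finset.sum_insert ha
    have e2 : ∑ i ∈ s, z i ∈ W.Z n := (W.Z n).sum_mem fun i _ => hz i
    rw [A3Box_cls_congr e1 h ((W.Z n).add_mem (hz a) e2), A3Box_cls_add (hz a) e2, ih e2,
      Finset.sum_insert ha]

theorem A3Box_exists_cls {W : SV} {n : ℕ} (x : W.H n) : ∃ (z : W.V n) (hz : z ∈ W.Z n),
    W.cls z hz = x := by
  obtain ⟨⟨z, hz⟩, rfl⟩ := Submodule.Quotient.mk_surjective _ x
  exact ⟨z, hz, rfl⟩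

theorem A3Box_symm {P Q : SV} {n : ℕ}
    (e : (Π₀ p : Fin (n + 1), (P.H p ⊗[ZMod 2] Q.H (n - p))) ≃ₗ[ZMod 2] (P.tens Q).H n)
    (he : ∀ (p : Fin (n + 1)) (x : P.V p) (hx : x ∈ P.Z p) (y : Q.V (n - p))
        (hy : y ∈ Q.Z (n - p)),
        e (DFinsupp.single p (P.cls x hx ⊗ₜ[ZMod 2] Q.cls y hy)) =
          (P.tens Q).cls (crs n x y) (crs_mem_Z hx hy))
    (r : Fin (n + 1)) (x : P.V r) (hx : x ∈ P.Z r) (y : Q.V (n - r)) (hy : y ∈ Q.Z (n - r)) :
    e.symm ((P.tens Q).cls (crs n x y) (crs_mem_Z hx hy)) =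
      DFinsupp.single r (P.cls x hx ⊗ₜ[ZMod 2] Q.cls y hy) := by
  rw [← he r x hx y hy, LinearEquiv.symm_apply_apply]

theorem exists_boxF (P Q : SV) {p q n : ℕ} (h : p + q = n) (a : Module.Dual (ZMod 2) (P.H p))
    (b : Module.Dual (ZMod 2) (Q.H q)) :
    ∃ F : Module.Dual (ZMod 2) ((P.tens Q).H n),
      (∀ (x : P.V p) (hx : x ∈ P.Z p) (y : Q.V q) (hy : y ∈ Q.Z q),
        F ((P.tens Q).cls (crs n x y) (crs_mem_Z hx hy)) = a (P.cls x hx) * b (Q.cls y hy)) ∧
      ∀ (p' q' : ℕ), p' ≠ p → ∀ (x : P.V p') (hx : x ∈ P.Z p') (y : Q.V q') (hy : y ∈ Q.Z q'),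
        F ((P.tens Q).cls (crs n x y) (crs_mem_Z hx hy)) = 0 := by
  classical
  obtain ⟨e, he⟩ := kun P Q n
  obtain rfl : q = n - p := by omega
  have hp : p < n + 1 := by omega
  let r : Fin (n + 1) := ⟨p, hp⟩
  let φ : P.H r ⊗[ZMod 2] Q.H (n - r) →ₗ[ZMod 2] ZMod 2 :=
    (TensorProduct.lid (ZMod 2) (ZMod 2)).toLinearMap ∘ₗ TensorProduct.map a b
  refine ⟨φ ∘ₗ (DFinsupp.lapply r) ∘ₗ e.symm.toLinearMap, ?_, ?_⟩
  · intro x hx y hy
    have h1 := A3Box_symm e he r x hx y hy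
    show φ ((e.symm ((P.tens Q).cls (crs n x y) (crs_mem_Z hx hy))) r) = _
    rw [h1, DFinsupp.single_eq_same]
    show (TensorProduct.lid (ZMod 2) (ZMod 2)) (TensorProduct.map a b (_ ⊗ₜ[ZMod 2] _)) = _
    rw [TensorProduct.map_tmul, TensorProduct.lid_tmul, smul_eq_mul]
  · intro p' q' hne x hx y hy
    by_cases h' : p' + q' = n
    · obtain rfl : q' = n - p' := by omega
      have hp' : p' < n + 1 := by omega
      have h1 := A3Box_symm e he ⟨p', hp'⟩ x hx y hy
      show φ ((e.symm ((P.tens Q).cls (crs n x y) (crs_mem_Z hx hy))) r) = _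
      rw [h1, DFinsupp.single_eq_of_ne, map_zero]
      intro h2
      apply hne
      have h3 := congrArg Fin.val h2
      simp only [r] at h3
      omega
    · have h1 : crs n x y = 0 := crs_eq_zero h' x y
      rw [A3Box_cls_zero h1, map_zero]

/-- external product of functionals, zero unless `p + q = n` -/
noncomputable def boxF {P Q : SV} {p q : ℕ} (n : ℕ) (a : Module.Dual (ZMod 2) (P.H p))
    (b : Module.Dual (ZMod 2) (Q.H q)) : Module.Dual (ZMod 2) ((P.tens Q).H n) :=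
  open Classical in if h : p + q = n then Classical.choose (exists_boxF P Q h a b) else 0

theorem boxF_crs {P Q : SV} {p q n : ℕ} (h : p + q = n) (a : Module.Dual (ZMod 2) (P.H p))
    (b : Module.Dual (ZMod 2) (Q.H q)) (x : P.V p) (hx : x ∈ P.Z p) (y : Q.V q)
    (hy : y ∈ Q.Z q) :
    boxF n a b ((P.tens Q).cls (crs n x y) (crs_mem_Z hx hy)) =
      a (P.cls x hx) * b (Q.cls y hy) := by
  unfold boxF
  rw [dif_pos h]
  exact (Classical.choose_spec (exists_boxF P Q h a b)).1 x hx y hy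

theorem boxF_crs_ne {P Q : SV} {p q n p' q' : ℕ} (a : Module.Dual (ZMod 2) (P.H p))
    (b : Module.Dual (ZMod 2) (Q.H q)) (hp : p' ≠ p) (x : P.V p') (hx : x ∈ P.Z p') (y : Q.V q')
    (hy : y ∈ Q.Z q') :
    boxF n a b ((P.tens Q).cls (crs n x y) (crs_mem_Z hx hy)) = 0 := by
  unfold boxF
  by_cases h : p + q = n
  · rw [dif_pos h]
    exact (Classical.choose_spec (exists_boxF P Q h a b)).2 p' q' hp x hx y hy
  · rw [dif_neg h, LinearMap.zero_apply]

/-- functionals on `H_n (P ⊗ Q)` are determined by their values on cross products -/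
theorem boxF_ext {P Q : SV} {n : ℕ} {F G : Module.Dual (ZMod 2) ((P.tens Q).H n)}
    (h : ∀ (p q : ℕ), p + q = n → ∀ (x : P.V p) (hx : x ∈ P.Z p) (y : Q.V q) (hy : y ∈ Q.Z q),
      F ((P.tens Q).cls (crs n x y) (crs_mem_Z hx hy)) =
        G ((P.tens Q).cls (crs n x y) (crs_mem_Z hx hy))) : F = G := by
  apply LinearMap.ext
  intro c
  obtain ⟨z, hz, rfl⟩ := A3Box_exists_cls c
  obtain ⟨N, p, q, x, y, hpq, hx, hy, hB⟩ := kun_surj P Q n z hz
  have hZ : ∀ i, crs n (x i) (y i) ∈ (P.tens Q).Z n := fun i => crs_mem_Z (hx i) (hy i)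
  have hs : ∑ i, crs n (x i) (y i) ∈ (P.tens Q).Z n := Submodule.sum_mem _ fun i _ => hZ i
  rw [A3Box_cls_eq hz hs hB, A3Box_cls_sum Finset.univ _ hZ hs, map_sum, map_sum]
  exact Finset.sum_congr rfl fun i _ => h (p i) (q i) (hpq i) (x i) (hx i) (y i) (hy i)

theorem A3Box_ne {P Q : SV} {p q n : ℕ} (h : p + q ≠ n) (a : Module.Dual (ZMod 2) (P.H p))
    (b : Module.Dual (ZMod 2) (Q.H q)) : boxF n a b = 0 := by
  unfold boxF
  rw [dif_neg h]

theorem boxF_add_left {P Q : SV} {p q n : ℕ} (a a' : Module.Dual (ZMod 2) (P.H p))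
    (b : Module.Dual (ZMod 2) (Q.H q)) : boxF n (a + a') b = boxF n a b + boxF n a' b := by
  by_cases h : p + q = n
  · apply boxF_ext
    intro p' q' h' x hx y hy
    rw [LinearMap.add_apply]
    by_cases hp : p' = p
    · subst hp
      obtain rfl : q = q' := by omega
      rw [boxF_crs h _ _ x hx y hy, boxF_crs h _ _ x hx y hy, boxF_crs h _ _ x hx y hy,
        LinearMap.add_apply, add_mul]
    · rw [boxF_crs_ne _ _ hp x hx y hy, boxF_crs_ne _ _ hp x hx y hy,
        boxF_crs_ne _ _ hp x hx y hy, add_zero]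
  · rw [A3Box_ne h, A3Box_ne h, A3Box_ne h, add_zero]

theorem boxF_add_right {P Q : SV} {p q n : ℕ} (a : Module.Dual (ZMod 2) (P.H p))
    (b b' : Module.Dual (ZMod 2) (Q.H q)) : boxF n a (b + b') = boxF n a b + boxF n a b' := by
  by_cases h : p + q = n
  · apply boxF_ext
    intro p' q' h' x hx y hy
    rw [LinearMap.add_apply]
    by_cases hp : p' = p
    · subst hp
      obtain rfl : q = q' := by omega
      rw [boxF_crs h _ _ x hx y hy, boxF_crs h _ _ x hx y hy, boxF_crs h _ _ x hx y hy,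
        LinearMap.add_apply, mul_add]
    · rw [boxF_crs_ne _ _ hp x hx y hy, boxF_crs_ne _ _ hp x hx y hy,
        boxF_crs_ne _ _ hp x hx y hy, add_zero]
  · rw [A3Box_ne h, A3Box_ne h, A3Box_ne h, add_zero]

/-- naturality -/
theorem boxF_map {P P' Q Q' : SV} (f : SVHom P P') (g : SVHom Q Q') {p q n : ℕ}
    (a : Module.Dual (ZMod 2) (P'.H p)) (b : Module.Dual (ZMod 2) (Q'.H q)) :
    (boxF n a b).comp (SV.Hmap (f.tens g) n) =
      boxF n (a.comp (SV.Hmap f p)) (b.comp (SV.Hmap g q)) := by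
  apply boxF_ext
  intro p' q' h' x hx y hy
  rw [LinearMap.comp_apply, SV.Hmap_cls,
    A3Box_cls_congr (crs_map f g x y) _ (crs_mem_Z (f.map_Z hx) (g.map_Z hy))]
  by_cases h : p + q = n
  · by_cases hp : p' = p
    · subst hp
      obtain rfl : q = q' := by omega
      rw [boxF_crs h _ _ _ (f.map_Z hx) _ (g.map_Z hy), boxF_crs h _ _ x hx y hy,
        LinearMap.comp_apply, LinearMap.comp_apply, SV.Hmap_cls, SV.Hmap_cls]
    · rw [boxF_crs_ne _ _ hp _ (f.map_Z hx) _ (g.map_Z hy), boxF_crs_ne _ _ hp x hx y hy]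
  · rw [A3Box_ne h, A3Box_ne h, LinearMap.zero_apply, LinearMap.zero_apply]

/-- symmetry -/
theorem boxF_swap {P Q : SV} {p q n : ℕ} (a : Module.Dual (ZMod 2) (P.H p))
    (b : Module.Dual (ZMod 2) (Q.H q)) :
    (boxF n a b).comp (SV.Hmap (SV.swap Q P) n) = boxF n b a := by
  apply boxF_ext
  intro q' p' h' y hy x hx
  rw [LinearMap.comp_apply, SV.Hmap_cls,
    A3Box_cls_congr (swap_crs y x) _ (crs_mem_Z hx hy)]
  by_cases h : p + q = n
  · by_cases hp : p' = p
    · subst hp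
      obtain rfl : q = q' := by omega
      rw [boxF_crs h _ _ x hx y hy, boxF_crs (by omega) _ _ y hy x hx, mul_comm]
    · rw [boxF_crs_ne _ _ hp x hx y hy, boxF_crs_ne _ _ (by omega) y hy x hx]
  · rw [A3Box_ne h, A3Box_ne (by omega), LinearMap.zero_apply, LinearMap.zero_apply]

/-- if all homology groups of `P` and `Q` are finite dimensional, the products of functionals span the
dual of `H_n (P ⊗ Q)` -/
theorem boxF_span {P Q : SV} (hP : ∀ p, Module.Finite (ZMod 2) (P.H p))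
    (hQ : ∀ q, Module.Finite (ZMod 2) (Q.H q)) (n : ℕ)
    (F : Module.Dual (ZMod 2) ((P.tens Q).H n)) :
    F ∈ Submodule.span (ZMod 2) {G | ∃ (p q : ℕ) (_ : p + q = n) (a : Module.Dual (ZMod 2) (P.H p))
      (b : Module.Dual (ZMod 2) (Q.H q)), G = boxF n a b} := by
  classical
  obtain ⟨e, he⟩ := kun P Q n
  have hfin : ∀ r : Fin (n + 1), Module.Finite (ZMod 2) (P.H r) := fun r => hP r
  have hfin' : ∀ r : Fin (n + 1), Module.Finite (ZMod 2) (Q.H (n - r)) := fun r => hQ _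
  -- components of `F`
  have ht : ∀ r : Fin (n + 1), ∃ t : (Module.Dual (ZMod 2) (P.H r)) ⊗[ZMod 2]
      (Module.Dual (ZMod 2) (Q.H (n - r))), TensorProduct.dualDistrib (ZMod 2) (P.H r)
        (Q.H (n - r)) t = F ∘ₗ e.toLinearMap ∘ₗ (DFinsupp.lsingle (R := ZMod 2)
          (M := fun p : Fin (n + 1) => P.H p ⊗[ZMod 2] Q.H (n - p)) r) := by
    intro r
    have := hfin r
    have := hfin' r
    refine ⟨(TensorProduct.dualDistribEquiv (ZMod 2) (P.H r) (Q.H (n - r))).symm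
      (F ∘ₗ e.toLinearMap ∘ₗ (DFinsupp.lsingle (R := ZMod 2)
          (M := fun p : Fin (n + 1) => P.H p ⊗[ZMod 2] Q.H (n - p)) r)), ?_⟩
    exact (TensorProduct.dualDistribEquiv (ZMod 2) (P.H r) (Q.H (n - r))).apply_symm_apply _
  choose t ht using ht
  let G : ∀ r : Fin (n + 1), (Module.Dual (ZMod 2) (P.H r)) ⊗[ZMod 2]
      (Module.Dual (ZMod 2) (Q.H (n - r))) → Module.Dual (ZMod 2) ((P.tens Q).H n) :=
    fun r u => (TensorProduct.dualDistrib (ZMod 2) (P.H r) (Q.H (n - r)) u) ∘ₗ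
      (DFinsupp.lapply r) ∘ₗ e.symm.toLinearMap
  have hG : ∀ r u, G r u ∈ Submodule.span (ZMod 2) {G | ∃ (p q : ℕ) (_ : p + q = n)
      (a : Module.Dual (ZMod 2) (P.H p)) (b : Module.Dual (ZMod 2) (Q.H q)),
      G = boxF n a b} := by
    intro r u
    induction u using TensorProduct.induction_on with
    | zero =>
      have : G r 0 = 0 := by
        simp only [G, map_zero, LinearMap.zero_comp]
      rw [this]
      exact Submodule.zero_mem _
    | tmul a b =>
      apply Submodule.subset_span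
      have hrn : (r : ℕ) + (n - (r : ℕ)) = n := by have := r.2; omega
      refine ⟨r, n - r, hrn, a, b, ?_⟩
      apply boxF_ext
      intro p' q' h' x hx y hy
      obtain rfl : q' = n - p' := by omega
      have hp' : p' < n + 1 := by omega
      have h1 := A3Box_symm e he ⟨p', hp'⟩ x hx y hy
      show (TensorProduct.dualDistrib (ZMod 2) (P.H r) (Q.H (n - r)) (a ⊗ₜ[ZMod 2] b))
        ((e.symm ((P.tens Q).cls (crs n x y) (crs_mem_Z hx hy))) r) = _
      rw [h1]
      by_cases hp : p' = r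
      · subst hp
        rw [boxF_crs hrn _ _ x hx y hy]
        have h2 : (⟨(r : ℕ), hp'⟩ : Fin (n + 1)) = r := rfl
        show (TensorProduct.dualDistrib (ZMod 2) (P.H r) (Q.H (n - r)) (a ⊗ₜ[ZMod 2] b))
          ((DFinsupp.single r (P.cls x hx ⊗ₜ[ZMod 2] Q.cls y hy) :
            Π₀ p : Fin (n + 1), (P.H p ⊗[ZMod 2] Q.H (n - p))) r) = _
        rw [DFinsupp.single_eq_same, TensorProduct.dualDistrib_apply]
      · rw [boxF_crs_ne _ _ hp x hx y hy, DFinsupp.single_eq_of_ne, map_zero]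
        intro h2
        apply hp
        have h3 := congrArg Fin.val h2
        simp only at h3
        omega
    | add u v hu hv =>
      have : G r (u + v) = G r u + G r v := by
        simp only [G, map_add, LinearMap.add_comp]
      rw [this]
      exact Submodule.add_mem _ hu hv
  have hF : F = ∑ r, G r (t r) := by
    apply boxF_ext
    intro p' q' h' x hx y hy
    obtain rfl : q' = n - p' := by omega
    have hp' : p' < n + 1 := by omega
    have h1 := A3Box_symm e he ⟨p', hp'⟩ x hx y hy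
    rw [LinearMap.sum_apply, Finset.sum_eq_single (⟨p', hp'⟩ : Fin (n + 1))]
    · show _ = (TensorProduct.dualDistrib (ZMod 2) _ _ (t ⟨p', hp'⟩))
        ((e.symm ((P.tens Q).cls (crs n x y) (crs_mem_Z hx hy))) ⟨p', hp'⟩)
      rw [h1, ht, DFinsupp.single_eq_same]
      show _ = F (e (DFinsupp.single _ _))
      rw [he ⟨p', hp'⟩ x hx y hy]
    · intro r _ hr
      show (TensorProduct.dualDistrib (ZMod 2) (P.H r) (Q.H (n - r)) (t r))
        ((e.symm ((P.tens Q).cls (crs n x y) (crs_mem_Z hx hy))) r) = 0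
      rw [h1, DFinsupp.single_eq_of_ne (by exact hr), map_zero]
    · intro h2
      exact absurd (Finset.mem_univ _) h2
  rw [hF]
  exact Submodule.sum_mem _ fun r _ => hG r (t r)

/-- the external product of classes, as a bilinear map into `H_n (P ⊗ Q)` -/
noncomputable def crsH {P Q : SV} {p q : ℕ} (n : ℕ) (x : P.H p) (y : Q.H q) : (P.tens Q).H n :=
  (P.tens Q).cls (crs n (Quotient.out x).1 (Quotient.out y).1)
    (crs_mem_Z (Quotient.out x).2 (Quotient.out y).2)

theorem crsH_cls {P Q : SV} {p q n : ℕ} (x : P.V p) (hx : x ∈ P.Z p) (y : Q.V q)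
    (hy : y ∈ Q.Z q) :
    crsH n (P.cls x hx) (Q.cls y hy) = (P.tens Q).cls (crs n x y) (crs_mem_Z hx hy) := by
  unfold crsH
  have h1 : P.cls (Quotient.out (P.cls x hx)).1 (Quotient.out (P.cls x hx)).2 = P.cls x hx :=
    Quotient.out_eq (P.cls x hx)
  have h2 : Q.cls (Quotient.out (Q.cls y hy)).1 (Quotient.out (Q.cls y hy)).2 = Q.cls y hy :=
    Quotient.out_eq (Q.cls y hy)
  have h3 := A3Box_cls_rel h1
  have h4 := A3Box_cls_rel h2
  apply A3Box_cls_eq
  have h5 := crs_mem_B_left (n := n) h3 (Quotient.out (Q.cls y hy)).2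
  have h6 := crs_mem_B_right (n := n) hx h4
  rw [crs_add_left] at h5
  rw [crs_add_right] at h6
  have h7 := ((P.tens Q).B n).add_mem h5 h6
  have h8 : ∀ u v w : (P.tens Q).V n, u + v + (v + w) = u + w := by
    intro u v w
    have := two_eq_zero' v
    calc u + v + (v + w) = u + (v + v) + w := by abel
      _ = u + w := by rw [this, add_zero]
  rwa [h8] at h7

theorem crsH_bilin (P Q : SV) (p q n : ℕ) :
    ∃ f : P.H p →ₗ[ZMod 2] Q.H q →ₗ[ZMod 2] (P.tens Q).H n, ∀ x y, f x y = crsH n x y := by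
  refine ⟨LinearMap.mk₂ (ZMod 2) (fun x y => crsH n x y) ?_ ?_ ?_ ?_, fun x y => rfl⟩
  · intro x x' y
    obtain ⟨x, hx, rfl⟩ := A3Box_exists_cls x
    obtain ⟨x', hx', rfl⟩ := A3Box_exists_cls x'
    obtain ⟨y, hy, rfl⟩ := A3Box_exists_cls y
    show crsH n (P.cls x hx + P.cls x' hx') (Q.cls y hy) = _
    rw [← A3Box_cls_add hx hx', crsH_cls, crsH_cls, crsH_cls,
      A3Box_cls_congr (crs_add_left x x' y) _ (((P.tens Q).Z n).add_mem (crs_mem_Z hx hy)
        (crs_mem_Z hx' hy)), A3Box_cls_add]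
  · intro c x y
    obtain ⟨x, hx, rfl⟩ := A3Box_exists_cls x
    obtain ⟨y, hy, rfl⟩ := A3Box_exists_cls y
    have h1 : crs n (c • x) y = c • crs n x y := by
      obtain ⟨f, hf⟩ := crs_bilin P Q p q n
      rw [← hf, ← hf, map_smul, LinearMap.smul_apply]
    rw [← A3Box_cls_smul c hx, crsH_cls, crsH_cls,
      A3Box_cls_congr h1 _ (((P.tens Q).Z n).smul_mem c (crs_mem_Z hx hy)), A3Box_cls_smul]
  · intro x y y'
    obtain ⟨x, hx, rfl⟩ := A3Box_exists_cls x
    obtain ⟨y, hy, rfl⟩ := A3Box_exists_cls y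
    obtain ⟨y', hy', rfl⟩ := A3Box_exists_cls y'
    rw [← A3Box_cls_add hy hy', crsH_cls, crsH_cls, crsH_cls,
      A3Box_cls_congr (crs_add_right x y y') _ (((P.tens Q).Z n).add_mem (crs_mem_Z hx hy)
        (crs_mem_Z hx hy')), A3Box_cls_add]
  · intro c x y
    obtain ⟨x, hx, rfl⟩ := A3Box_exists_cls x
    obtain ⟨y, hy, rfl⟩ := A3Box_exists_cls y
    have h1 : crs n x (c • y) = c • crs n x y := by
      obtain ⟨f, hf⟩ := crs_bilin P Q p q n
      rw [← hf, ← hf, map_smul]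
    rw [← A3Box_cls_smul c hy, crsH_cls, crsH_cls,
      A3Box_cls_congr h1 _ (((P.tens Q).Z n).smul_mem c (crs_mem_Z hx hy)), A3Box_cls_smul]

/-- the product of two cohomology classes of a pointed simplicial set: pull back of `boxF` along the
reduced diagonal -/
noncomputable def cupR {Z : SS} {z₀ : Z.S 0} {p q : ℕ} (n : ℕ)
    (a : Module.Dual (ZMod 2) ((R Z z₀).H p)) (b : Module.Dual (ZMod 2) ((R Z z₀).H q)) :
    Module.Dual (ZMod 2) ((R Z z₀).H n) :=
  (boxF n a b).comp (SV.Hmap (R.diag z₀) n)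

end MM
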