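import Pool.Agent.Lib_MP_33f7bb_d.A3KL
import Pool.Agent.Lib_MP_33f7bb_d.A010
import Pool.Agent.Lib_MP_33f7bb_d.A014

/-!
# A3-05: homology of the bar construction: `H_(j+1) (barV V) = H_j V`, `H_0 (barV V) = 0`

`barDel : (barV V)_(j+1) → V_j`, `v ↦ δ_0^* (v (0, 1))`, is an isomorphism in homology.

Auxiliary simplicial vector space `PV`: `(PV)_m` = all functions `p : Fin (m+1) → V_m`,
`(θ^* p) a = V.act θ (p (θ a))`.
* `PV` is acyclic: the family `H_u p a = if u a = 0 then p a else 0` (`u : Mo m 1`) is a linear homotopy (`LHpy`) from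
  `id` (`u = cst 0`) to `0` (`u = cst 1`), natural; apply `lprism`: every cycle is a boundary.
* `c : V → PV`, `c(x) = ` constant function; injective; `q : PV → barV V`, `q(p)(a,b) = p a + p b`; `q ∘ c = 0`
  (`two_eq_zero'`); if `q p = 0` then `p = c (p 0)`; for `v ∈ (barV V)_m` put `p_v a = v (0, a)`: `q (p_v) = v` by additivity
  (`v (0,b) + v (0,a) = v (a,b)` since `v (0,b) = v (0,a) + v (a,b)`).  All maps commute with the structure maps,
  hence with `d`.
* For `v ∈ (barV V)_(j+1)`:  `(d p_v) 0 = ∑_i act δ_i (v (0, δ_i 0)) = act δ_0 (v (0,1)) = barDel v` (the other terms are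
  `v (0,0) = 0`).  If `d v = 0` then `q (d p_v) = 0`, so `d p_v = c (barDel v)`.
* `barDel_Z`: `c (d (barDel v)) = d (d p_v) = 0` (`SV.d_d`).
* `barDel_B`: `v = d w`: `p_v + d p_w = c x` for some `x ∈ V_(j+1)` (apply `q`), so `c (barDel v) = d p_v = d (c x) + d d p_w
  = c (d x)`.
* `barDel_inj`: `barDel v = d x`: `p_v + c x` is a cycle of `PV`, so `= d r`, and `v = q (p_v + c x) = d (q r)`.
* `barDel_surj`: `z ∈ V.Z j`: `c z` is a cycle, so `c z = d p`; `v := q p` is a cycle; `p + p_v = c x`, so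
  `c (barDel v) = d p_v = c z + c (d x)`.
* `barV_zero`: additive functions on the single pair `(0,0)` vanish.
(For `j = 0` the cycle conditions on level `0` are vacuous.)
-/

open scoped TensorProduct

namespace MM

/-- the auxiliary acyclic object: all functions on the vertices -/
private abbrev A3Bar_P (V : SV) : SV where
  V m := Fin (m + 1) → V.V m
  act {m n} θ :=
    { toFun := fun p a => V.act θ (p (θ a))
      map_add' := fun p p' => funext fun a => map_add (V.act θ) _ _
      map_smul' := fun r p => funext fun a => map_smul (V.act θ) r _ }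
  act_id p := funext fun a => V.act_id _
  act_comp θ η p := funext fun a => V.act_comp θ η _

private noncomputable def A3Bar_h (V : SV) : LHpy (A3Bar_P V) (A3Bar_P V) where
  app n u :=
    { toFun := fun p a => if u a = 0 then p a else 0
      map_add' := fun p p' => funext fun a => by
        show (if u a = 0 then p a + p' a else 0) =
          (if u a = 0 then p a else 0) + (if u a = 0 then p' a else 0)
        split_ifs
        · rfl
        · rw [add_zero]
      map_smul' := fun r p => funext fun a => by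
        show (if u a = 0 then r • p a else 0) = r • (if u a = 0 then p a else 0)
        split_ifs
        · rfl
        · rw [smul_zero] }
  nat {m n} f u p := funext fun a => by
    show (if u (f a) = 0 then V.act f (p (f a)) else 0) =
      V.act f (if u (f a) = 0 then p (f a) else 0)
    split_ifs
    · rfl
    · rw [map_zero]

private theorem A3Bar_acyc (V : SV) {n : ℕ} {z : (A3Bar_P V).V n} (hz : z ∈ (A3Bar_P V).Z n) :
    ∃ r, (A3Bar_P V).d n r = z := by
  obtain ⟨T, h0, h1⟩ := lprism (A3Bar_h V)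
  have e0 : (A3Bar_h V).app n (cst 0) z = z := funext fun a => by
    show (if (0 : Fin 2) = 0 then z a else 0) = z a
    rw [if_pos rfl]
  have e1 : (A3Bar_h V).app n (cst 1) z = 0 := funext fun a => by
    show (if (1 : Fin 2) = 0 then z a else 0) = 0
    rw [if_neg (by decide)]
  refine ⟨T n z, ?_⟩
  cases n with
  | zero => rw [h0, e0, e1, add_zero]
  | succ n =>
    have hz' : (A3Bar_P V).d n z = 0 := hz
    rw [h1, e0, e1, hz', map_zero, add_zero, add_zero]

/-- constant functions -/
private def A3Bar_c (V : SV) : SVHom V (A3Bar_P V) :=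
  ⟨fun n => { toFun := fun x _ => x, map_add' := fun _ _ => rfl, map_smul' := fun _ _ => rfl },
    fun _ _ => rfl⟩

private theorem A3Bar_c_inj (V : SV) {n : ℕ} {x y : V.V n}
    (h : (A3Bar_c V).app n x = (A3Bar_c V).app n y) : x = y := congrFun h 0

/-- the projection -/
private def A3Bar_q (V : SV) : SVHom (A3Bar_P V) (barV V) :=
  ⟨fun n =>
    { toFun := fun p => ⟨fun x => p x.1 + p x.2, fun a b c => by
        show p a + p c = (p a + p b) + (p b + p c)
        have h := two_eq_zero' (p b)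
        calc p a + p c = p a + (p b + p b) + p c := by rw [h, add_zero]
          _ = _ := by abel⟩
      map_add' := fun p p' => by
        apply Subtype.ext; funext x
        show (p x.1 + p' x.1) + (p x.2 + p' x.2) = (p x.1 + p x.2) + (p' x.1 + p' x.2)
        abel
      map_smul' := fun r p => by
        apply Subtype.ext; funext x
        show r • p x.1 + r • p x.2 = r • (p x.1 + p x.2)
        rw [smul_add] }, fun {m n} θ p => by
    apply Subtype.ext; funext x
    show V.act θ (p (θ x.1)) + V.act θ (p (θ x.2)) = V.act θ (p (θ x.1) + p (θ x.2))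
    rw [map_add]⟩

private theorem A3Bar_qc (V : SV) {n : ℕ} (x : V.V n) :
    (A3Bar_q V).app n ((A3Bar_c V).app n x) = 0 := by
  apply Subtype.ext; funext y
  exact two_eq_zero' x

private theorem A3Bar_ker (V : SV) {n : ℕ} {p : (A3Bar_P V).V n}
    (h : (A3Bar_q V).app n p = 0) : p = (A3Bar_c V).app n (p 0) := by
  funext a
  have h1 : ((A3Bar_q V).app n p).1 (0, a) = 0 := by rw [h]; rfl
  have h2 : p 0 + p a = 0 := h1
  show p a = p 0
  have h3 : p a = - p 0 := eq_neg_of_add_eq_zero_right h2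
  rw [h3, neg_eq']

/-- the section (not simplicial) -/
private def A3Bar_s (V : SV) {m : ℕ} (v : (barV V).V m) : (A3Bar_P V).V m := fun a => v.1 (0, a)

private theorem A3Bar_v00 (V : SV) {m : ℕ} (v : (barV V).V m) (a : Fin (m + 1)) :
    v.1 (a, a) = 0 := left_eq_add.1 (v.2 a a a)

private theorem A3Bar_qs (V : SV) {m : ℕ} (v : (barV V).V m) :
    (A3Bar_q V).app m (A3Bar_s V v) = v := by
  apply Subtype.ext; funext x
  show v.1 (0, x.1) + v.1 (0, x.2) = v.1 (x.1, x.2)
  rw [v.2 0 x.1 x.2, ← add_assoc, two_eq_zero', zero_add]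

private theorem A3Bar_ds0 (V : SV) {j : ℕ} (v : (barV V).V (j + 1)) :
    (A3Bar_P V).d j (A3Bar_s V v) 0 = barDel V j v := by
  rw [SV.d, LinearMap.sum_apply, Finset.sum_apply, Fin.sum_univ_succ]
  have h1 : ∀ i : Fin (j + 1), (A3Bar_P V).act (dlt i.succ) (A3Bar_s V v) 0 = 0 := by
    intro i
    show V.act (dlt i.succ) (v.1 (0, (dlt i.succ : Mo j (j + 1)) 0)) = 0
    have : (dlt i.succ : Mo j (j + 1)) 0 = 0 := by
      show (i.succ).succAbove 0 = 0
      exact Fin.succAbove_ne_zero_zero (Fin.succ_ne_zero i)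
    rw [this, A3Bar_v00, map_zero]
  rw [Finset.sum_congr rfl fun i _ => h1 i, Finset.sum_const_zero, add_zero]
  rfl

private theorem A3Bar_ds (V : SV) {j : ℕ} {v : (barV V).V (j + 1)}
    (hv : v ∈ (barV V).Z (j + 1)) :
    (A3Bar_P V).d j (A3Bar_s V v) = (A3Bar_c V).app j (barDel V j v) := by
  have hv' : (barV V).d j v = 0 := hv
  have h : (A3Bar_q V).app j ((A3Bar_P V).d j (A3Bar_s V v)) = 0 := by
    rw [SVHom.map_d, A3Bar_qs, hv']
  rw [A3Bar_ker V h, A3Bar_ds0]

theorem barV_zero (V : SV) (v : (barV V).V 0) : v = 0 := by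
  apply Subtype.ext; funext x
  have hx : x = (0, 0) := Prod.ext (Fin.ext (by omega)) (Fin.ext (by omega))
  rw [hx]
  exact A3Bar_v00 V v 0

theorem barDel_Z (V : SV) {j : ℕ} {v : (barV V).V (j + 1)} (hv : v ∈ (barV V).Z (j + 1)) :
    barDel V j v ∈ V.Z j := by
  cases j with
  | zero => exact Submodule.mem_top
  | succ j =>
    show V.d j (barDel V (j + 1) v) = 0
    apply A3Bar_c_inj V
    rw [SVHom.map_d, ← A3Bar_ds V hv, SV.d_d, map_zero]

theorem barDel_B (V : SV) {j : ℕ} {v : (barV V).V (j + 1)} (hv : v ∈ (barV V).B (j + 1)) :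
    barDel V j v ∈ V.B j := by
  have hZ : v ∈ (barV V).Z (j + 1) := by
    obtain ⟨w, hw⟩ := hv
    show (barV V).d j v = 0
    rw [← hw]
    exact (barV V).d_d w
  obtain ⟨w, hw⟩ := hv
  have hw' : (barV V).d (j + 1) w = v := hw
  have h : (A3Bar_q V).app (j + 1) (A3Bar_s V v + (A3Bar_P V).d (j + 1) (A3Bar_s V w)) = 0 := by
    rw [map_add, SVHom.map_d, A3Bar_qs, A3Bar_qs, hw', two_eq_zero']
  have h2 := A3Bar_ker V h
  refine ⟨(A3Bar_s V v + (A3Bar_P V).d (j + 1) (A3Bar_s V w)) 0, ?_⟩
  apply A3Bar_c_inj V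
  rw [SVHom.map_d, ← h2, map_add, SV.d_d, add_zero, A3Bar_ds V hZ]

theorem barDel_inj (V : SV) {j : ℕ} {v : (barV V).V (j + 1)} (hv : v ∈ (barV V).Z (j + 1))
    (h : barDel V j v ∈ V.B j) : v ∈ (barV V).B (j + 1) := by
  obtain ⟨x, hx⟩ := h
  have hx' : V.d j x = barDel V j v := hx
  have h1 : A3Bar_s V v + (A3Bar_c V).app (j + 1) x ∈ (A3Bar_P V).Z (j + 1) := by
    show (A3Bar_P V).d j (A3Bar_s V v + (A3Bar_c V).app (j + 1) x) = 0
    rw [map_add, A3Bar_ds V hv, ← SVHom.map_d, hx', two_eq_zero']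
  obtain ⟨r, hr⟩ := A3Bar_acyc V h1
  refine ⟨(A3Bar_q V).app (j + 2) r, ?_⟩
  rw [← SVHom.map_d, hr, map_add, A3Bar_qs, A3Bar_qc, add_zero]

theorem barDel_surj (V : SV) {j : ℕ} {z : V.V j} (hz : z ∈ V.Z j) :
    ∃ v ∈ (barV V).Z (j + 1), barDel V j v + z ∈ V.B j := by
  obtain ⟨p, hp⟩ := A3Bar_acyc V ((A3Bar_c V).map_Z hz)
  have hZ : (A3Bar_q V).app (j + 1) p ∈ (barV V).Z (j + 1) := by
    show (barV V).d j ((A3Bar_q V).app (j + 1) p) = 0
    rw [← SVHom.map_d, hp, A3Bar_qc]
  refine ⟨(A3Bar_q V).app (j + 1) p, hZ, ?_⟩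
  have h : (A3Bar_q V).app (j + 1) (p + A3Bar_s V ((A3Bar_q V).app (j + 1) p)) = 0 := by
    rw [map_add, A3Bar_qs, two_eq_zero']
  have h2 := A3Bar_ker V h
  refine ⟨(p + A3Bar_s V ((A3Bar_q V).app (j + 1) p)) 0, ?_⟩
  apply A3Bar_c_inj V
  rw [SVHom.map_d, ← h2, map_add, hp, A3Bar_ds V hZ, map_add, add_comm]

/-- the isomorphism `H_(j+1) (barV V) → H_j V` -/
noncomputable def barH (V : SV) (j : ℕ) : (barV V).H (j + 1) →ₗ[ZMod 2] V.H j :=
  Submodule.mapQ _ _ ((barDel V j).restrict (fun _ hz => barDel_Z V hz)) (by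
    rintro ⟨z, hz⟩ hz'
    exact barDel_B V hz')

theorem barH_cls (V : SV) (j : ℕ) (v : (barV V).V (j + 1)) (hv : v ∈ (barV V).Z (j + 1)) :
    barH V j ((barV V).cls v hv) = V.cls (barDel V j v) (barDel_Z V hv) := rfl

theorem barH_bijective (V : SV) (j : ℕ) : Function.Bijective (barH V j) := by
  constructor
  · rw [injective_iff_map_eq_zero]
    intro x hx
    obtain ⟨⟨v, hv⟩, rfl⟩ := Submodule.Quotient.mk_surjective _ x
    have h1 : V.cls (barDel V j v) (barDel_Z V hv) = 0 := hx
    have h2 := (Submodule.Quotient.mk_eq_zero _).1 h1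
    exact (Submodule.Quotient.mk_eq_zero _).2 (barDel_inj V hv h2)
  · intro y
    obtain ⟨⟨z, hz⟩, rfl⟩ := Submodule.Quotient.mk_surjective _ y
    obtain ⟨v, hv, h⟩ := barDel_surj V hz
    refine ⟨(barV V).cls v hv, ?_⟩
    rw [barH_cls]
    refine (Submodule.Quotient.eq _).2 ?_
    show barDel V j v - z ∈ V.B j
    rw [sub_eq']
    exact h

/-- the fundamental functional of `cstV (ZMod 2)` -/
noncomputable def KLev0 : Module.Dual (ZMod 2) ((cstV (ZMod 2)).H 0) :=
  Submodule.liftQ _ ((LinearMap.id : ZMod 2 →ₗ[ZMod 2] ZMod 2) ∘ₗ ((cstV (ZMod 2)).Z 0).subtype) (by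
    rintro ⟨z, hz⟩ ⟨w, hw⟩
    have hw' : (cstV (ZMod 2)).d 0 w = z := hw
    show z = 0
    rw [← hw', SV.d, LinearMap.sum_apply, Fin.sum_univ_two]
    exact CharTwo.add_self_eq_zero w)

/-- the fundamental functional of `KL n` -/
noncomputable def KLev : ∀ n, Module.Dual (ZMod 2) ((KL n).H n)
  | 0 => KLev0
  | n + 1 => (KLev n).comp (barH (KL n) n)

/-- homology of a constant simplicial vector space: `d` is alternately `0` and the identity -/
theorem cstV_homology (M : Type) [AddCommGroup M] [Module (ZMod 2) M] (j : ℕ)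
    (z : (cstV M).V (j + 1)) (hz : z ∈ (cstV M).Z (j + 1)) : z ∈ (cstV M).B (j + 1) := by
  have hd : ∀ (n : ℕ) (x : M), (cstV M).d n x = (n + 2) • x := by
    intro n x
    rw [SV.d, LinearMap.sum_apply]
    show ∑ i : Fin (n + 2), x = _
    rw [Finset.sum_const, Finset.card_univ, Fintype.card_fin]
  have h2 : ∀ (k : ℕ) (x : M), (2 * k) • x = 0 := by
    intro k x
    rw [mul_comm, mul_smul, two_smul, two_eq_zero', smul_zero]
  have hz' : (cstV M).d j z = 0 := hz
  rw [hd] at hz'
  rcases Nat.even_or_odd' j with ⟨k, hk | hk⟩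
  · refine ⟨z, ?_⟩
    rw [hd, show j + 1 + 2 = 2 * (k + 1) + 1 by omega, add_smul, h2, one_smul, zero_add]
  · rw [show j + 2 = 2 * (k + 1) + 1 by omega, add_smul, h2, one_smul, zero_add] at hz'
    rw [hz']
    exact Submodule.zero_mem _

theorem KL_isEM (n : ℕ) : IsEM n (KL n) (KLev n) := by
  induction n with
  | zero =>
    refine ⟨?_, ?_⟩
    · intro j hj z hz
      obtain ⟨i, rfl⟩ := Nat.exists_eq_succ_of_ne_zero hj
      exact cstV_homology (ZMod 2) i z hz
    · constructor
      · rw [injective_iff_map_eq_zero]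
        intro x hx
        obtain ⟨⟨z, hz⟩, rfl⟩ := Submodule.Quotient.mk_surjective _ x
        have h1 : z = 0 := hx
        subst h1
        rfl
      · intro y
        exact ⟨(cstV (ZMod 2)).cls (n := 0) y Submodule.mem_top, rfl⟩
  | succ n ih =>
    refine ⟨?_, ?_⟩
    · intro j hj z hz
      cases j with
      | zero =>
        have : z = 0 := barV_zero (KL n) z
        rw [this]
        exact Submodule.zero_mem _
      | succ j =>
        exact barDel_inj (KL n) hz (ih.low j (by omega) _ (barDel_Z (KL n) hz))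
    · show Function.Bijective ((KLev n).comp (barH (KL n) n))
      exact ih.bij.comp (barH_bijective (KL n) n)

theorem KL_finite (n m : ℕ) : Finite ((KL n).V m) := by
  induction n generalizing m with
  | zero => exact inferInstanceAs (Finite (ZMod 2))
  | succ n ih =>
    have := ih m
    exact inferInstanceAs (Finite (barS (KL n) m))

end MM
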