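import Pool.Agent.Lib_MP_33f7bb_d.A3T1
import Pool.Agent.Lib_MP_33f7bb_d.A3Bar

/-!
# A3-04: homology of `TT`: `H_n (TT) = F`, detected by `evT n`

`pathL_succ`: `pathL (n+1) = (0,1) :: (pathL n).map (prMap (dlt 0))` (`List.finRange_succ`; `dlt 0 = Fin.succ`).

`evT_B`: `evT n (TT.d n w) = ∑_(i ≤ n+1) w ((pathL n).map (prMap (dlt i)))`.  Let `A i = w (pathL (n+1) with the i-th entry removed)`,
`i ≤ n`.  The term `i = 0` is `A 0`, the term `i = n+1` is `A n`, and for `1 ≤ i ≤ n` the list contains `(i-1, i+1)` instead of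
`(i-1,i), (i,i+1)`, so by additivity the term is `A (i-1) + A i`.  The sum telescopes to `0`.
Alternative by induction on `n` with the map `iT` below:  for `z = d w`, `w ∈ TT_(n+2)`: `evT (n+1) z = evT n (barDel TT n (iT z))`
(`pathL_succ`) and `barDel` of a boundary is a boundary (`barDel_B`); for `n = 0`: `evT 0 (d w) = w [] + w [] = 0`.

`iT : SVHom TT (barV TT)`, `f ↦ (x ↦ hd f x)`.  Section `sT : SVHom (barV TT) TT`, `v ↦ ([] ↦ 0, x :: l ↦ (v x) l)`:
`iT ∘ sT = id`; `f = sT (iT f) + f [] • 1` where `1 =` indicator of `[]` (the constant part).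
`TT_mem_B` by induction on `n`:  `n = 0`: every `z ∈ TT_0` vanishes on nonempty lists (`IsAdd.self`; all vertices are `0`), so
`evT 0 z = z [] = 0` gives `z = 0`.  `n + 1`: `iT z` is a cycle, `evT n (barDel TT n (iT z)) = evT (n+1) z = 0` and `barDel ..` is a
cycle (`barDel_Z`), so it is a boundary by induction; hence `iT z = d v` (`barDel_inj`); `z + d (sT v)` is a cycle `r • 1` and a
cycle `r • 1` in degree `n + 1` is a boundary (`d (r • 1) = (n+2) r • 1`; if `n + 2` is odd then `r = 0`, if it is even then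
`r • 1 = d (r • 1)`, as `n + 3` is odd).
`TT_exists` by induction on `n`: `n = 0`: indicator of `[]`.  `n + 1`: `z` for `n`, `barDel_surj` gives a cycle `v` of `barV TT` with
`barDel v + z ∈ B`; take `sT v` (`evT_B`).
-/

open scoped TensorProduct

namespace MM

theorem pathL_succ (n : ℕ) :
    pathL (n + 1) = (0, 1) :: (pathL n).map (prMap (dlt 0)) := by
  have h : ∀ m : ℕ, pathL m = (List.finRange m).map fun i => (i.castSucc, i.succ) := by
    intro m
    show ((List.finRange m).filter fun _ => true).map _ = _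
    rw [List.filter_true]
  rw [h, h, List.finRange_succ, List.map_cons, List.map_map, List.map_map]
  rfl

theorem pathL_length (n : ℕ) : (pathL n).length = n := by
  induction n with
  | zero => rfl
  | succ n ih => rw [pathL_succ, List.length_cons, List.length_map, ih]

/-- currying the first slot -/
def iT : SVHom TT (barV TT) :=
  ⟨fun m =>
    { toFun := fun f => ⟨fun x => ⟨hd f.1 x, f.2.hd x⟩, fun a b c =>
        Subtype.ext (f.2.first a b c)⟩
      map_add' := fun _ _ => rfl
      map_smul' := fun _ _ => rfl }, fun _ _ => rfl⟩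

/-- the section of `iT` -/
def sT : SVHom (barV TT) TT :=
  ⟨fun m =>
    { toFun := fun v => ⟨fun l => match l with
        | [] => 0
        | x :: l => (v.1 x).1 l, by
          intro l₁ l₂ a b c
          rcases l₁ with _ | ⟨x, l₁⟩
          · show (v.1 (a, c)).1 l₂ = (v.1 (a, b)).1 l₂ + (v.1 (b, c)).1 l₂
            rw [v.2 a b c]; rfl
          · exact (v.1 x).2 l₁ l₂ a b c⟩
      map_add' := fun v w => by
        apply Subtype.ext; funext l
        rcases l with _ | ⟨x, l⟩
        · exact (add_zero (0 : ZMod 2)).symm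
        · rfl
      map_smul' := fun r v => by
        apply Subtype.ext; funext l
        rcases l with _ | ⟨x, l⟩
        · exact (mul_zero r).symm
        · rfl }, fun {m n} θ v => by
    apply Subtype.ext; funext l
    rcases l with _ | ⟨x, l⟩
    · rfl
    · rfl⟩

theorem iT_sT (m : ℕ) (v : (barV TT).V m) : iT.app m (sT.app m v) = v := rfl

theorem evT_barDel (n : ℕ) (z : TT.V (n + 1)) :
    evT (n + 1) z = evT n (barDel TT n (iT.app (n + 1) z)) := by
  rw [evT_apply, pathL_succ]
  rfl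

theorem evT_B {n : ℕ} {z : TT.V n} (hz : z ∈ TT.B n) : evT n z = 0 := by
  induction n with
  | zero =>
    obtain ⟨w, rfl⟩ := hz
    have h : ∀ i : Fin 2, evT 0 (TT.act (dlt i) w) = w.1 [] := fun i => rfl
    rw [SV.d, LinearMap.sum_apply, map_sum, Fin.sum_univ_two, h, h]
    exact CharTwo.add_self_eq_zero _
  | succ n ih =>
    rw [evT_barDel]
    exact ih (barDel_B TT (iT.map_B hz))

/-- the indicator function of the empty list -/
private def A3H_one (m : ℕ) : TT.V m :=
  ⟨fun l => match l with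
    | [] => 1
    | _ :: _ => 0, by
    intro l₁ l₂ a b c
    rcases l₁ with _ | ⟨x, l₁⟩
    · exact (add_zero (0 : ZMod 2)).symm
    · exact (add_zero (0 : ZMod 2)).symm⟩

private theorem A3H_one_act {m n : ℕ} (θ : Mo m n) : TT.act θ (A3H_one n) = A3H_one m := by
  apply Subtype.ext; funext l
  rcases l with _ | ⟨x, l⟩
  · rfl
  · rfl

private theorem A3H_one_d (m : ℕ) : TT.d m (A3H_one (m + 1)) = ((m + 2 : ℕ) : ZMod 2) • A3H_one m := by
  rw [SV.d, LinearMap.sum_apply, Finset.sum_congr rfl fun i _ => A3H_one_act (dlt i),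
    Finset.sum_const, Finset.card_univ, Fintype.card_fin, Nat.cast_smul_eq_nsmul]

private theorem A3H_split {m : ℕ} (z : TT.V m) :
    z = sT.app m (iT.app m z) + z.1 [] • A3H_one m := by
  apply Subtype.ext; funext l
  rcases l with _ | ⟨x, l⟩
  · show z.1 [] = 0 + z.1 [] * 1
    rw [zero_add, mul_one]
  · show z.1 (x :: l) = z.1 (x :: l) + z.1 [] * 0
    rw [mul_zero, add_zero]

private theorem A3H_cast (n : ℕ) : ((n + 2 : ℕ) : ZMod 2) = 1 ∨
    (((n + 2 : ℕ) : ZMod 2) = 0 ∧ ((n + 1 + 2 : ℕ) : ZMod 2) = 1) := by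
  have h : ∀ a : ZMod 2, a = 1 ∨ (a = 0 ∧ a + 1 = 1) := by decide
  rcases h ((n + 2 : ℕ) : ZMod 2) with h | ⟨h, h'⟩
  · exact Or.inl h
  · refine Or.inr ⟨h, ?_⟩
    rw [← h']
    push_cast
    ring

theorem TT_mem_B {n : ℕ} {z : TT.V n} (hz : z ∈ TT.Z n) (h : evT n z = 0) : z ∈ TT.B n := by
  induction n with
  | zero =>
    have h0 : z = 0 := by
      apply Subtype.ext; funext l
      rcases l with _ | ⟨⟨a, b⟩, l⟩
      · exact h
      · have hab : b = a := Subsingleton.elim (α := Fin 1) b a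
        rw [hab]
        exact z.2.self [] l a
    rw [h0]
    exact Submodule.zero_mem _
  | succ n ih =>
    rw [evT_barDel] at h
    obtain ⟨v, hv⟩ := barDel_inj TT (iT.map_Z hz) (ih (barDel_Z TT (iT.map_Z hz)) h)
    have h1 : sT.app (n + 1) (iT.app (n + 1) z) = TT.d (n + 1) (sT.app (n + 2) v) := by
      rw [← hv]
      exact sT.map_d v
    have hs := A3H_split z
    rw [h1] at hs
    have hz' : TT.d n z = 0 := hz
    have h2 : (z.1 [] * ((n + 2 : ℕ) : ZMod 2)) • A3H_one n = 0 := by
      rw [← hz']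
      conv_rhs => rw [hs]
      rw [map_add, SV.d_d, zero_add, map_smul, A3H_one_d, smul_smul]
    have h3 : z.1 [] * ((n + 2 : ℕ) : ZMod 2) = 0 := by
      have h4 : z.1 [] * ((n + 2 : ℕ) : ZMod 2) * 1 = 0 :=
        congrArg (fun f : TT.V n => f.1 []) h2
      rwa [mul_one] at h4
    rcases A3H_cast n with hc | ⟨-, hc⟩
    · rw [hc, mul_one] at h3
      rw [h3, zero_smul, add_zero] at hs
      exact ⟨_, hs.symm⟩
    · refine ⟨sT.app (n + 2) v + z.1 [] • A3H_one (n + 2), ?_⟩
      rw [map_add, map_smul, A3H_one_d, hc, one_smul]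
      exact hs.symm

theorem TT_exists (n : ℕ) : ∃ z ∈ TT.Z n, evT n z = 1 := by
  induction n with
  | zero => exact ⟨A3H_one 0, Submodule.mem_top, rfl⟩
  | succ n ih =>
    obtain ⟨z, hz, hz1⟩ := ih
    obtain ⟨v, hv, hvz⟩ := barDel_surj TT hz
    refine ⟨sT.app (n + 1) v, sT.map_Z hv, ?_⟩
    rw [evT_barDel, iT_sT]
    have h1 := evT_B hvz
    rw [map_add] at h1
    rw [CharTwo.add_eq_zero.1 h1]
    exact hz1

/-- evaluation on homology -/
noncomputable def evH (n : ℕ) : Module.Dual (ZMod 2) (TT.H n) :=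
  Submodule.liftQ _ ((evT n).comp (TT.Z n).subtype) (by
    rintro ⟨z, hz⟩ hz'
    exact evT_B hz')

theorem evH_cls (n : ℕ) (z : TT.V n) (hz : z ∈ TT.Z n) : evH n (TT.cls z hz) = evT n z := rfl

theorem evH_bijective (n : ℕ) : Function.Bijective (evH n) := by
  constructor
  · rw [injective_iff_map_eq_zero]
    intro x hx
    obtain ⟨⟨z, hz⟩, rfl⟩ := Submodule.Quotient.mk_surjective _ x
    have h1 : evT n z = 0 := hx
    rw [Submodule.Quotient.mk_eq_zero]
    exact TT_mem_B hz h1
  · intro c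
    obtain ⟨z, hz, hz1⟩ := TT_exists n
    refine ⟨c • TT.cls z hz, ?_⟩
    rw [map_smul, evH_cls, hz1, smul_eq_mul, mul_one]

end MM
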