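import Pool.Agent.Lib_MP_33f7bb_d.A3K3
import Pool.Agent.Lib_MP_33f7bb_d.A3H
import Pool.Agent.Lib_MP_33f7bb_d.A3Box

/-!
# A3-08: the shuffle cross product of additive functions, evaluated at the path

`shuffle_ev`.  `(a, b)` runs over the pairs of monotone maps `a : [n] → [p]`, `b : [n] → [q]` with `a i + b i = i`; so every step
`i → i+1` increases exactly one of `a`, `b` by one (`a i ≤ a (i+1)`, `b i ≤ b (i+1)`, sum increases by one).
`(TT.act a f).1 (stepL n w) = f.1 ((stepL n w).map (prMap a))` vanishes if `a i = a (i+1)` for some `i` with `w i` (the list then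
contains a pair `(c, c)`; `IsAdd.self`), and `(TT.act b g).1 (stepL n (!w))` vanishes if `b i = b (i+1)` for some `i` with `¬ w i`.
So only `(a, b)` with: `w i ↔` step `i` increases `a`, can contribute; then `a i = #{j < i : w j}`, `b i = #{j < i : ¬ w j}`, and
`#{j : w j} = a n = p` (as `a n ≤ p`, `b n ≤ q`, `a n + b n = n = p + q`).  If `#{j : w j} = p` this pair exists, and
`(stepL n w).map (prMap a) = pathL p` (the `k`-th step with `w` is mapped to `(k, k+1)`), same for `b`.
(Possible formal proof: induction on `n`, splitting off the last step; or: bijectivity/injectivity arguments for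
`List.filter`; `a` restricted to the increasing steps enumerates `0, …, p-1`.)

`ev_mulTT_crs`: `ncmul F G (pathL n) = ∑_(k ≤ n) F ((pathL n).take k) * G ((pathL n).drop k)` (`ncmul_eq_sum`,
`pathL_length`), `(pathL n).take k = stepL n (· < k)`, `(pathL n).drop k = stepL n (k ≤ ·)`; `shuffle_ev` for each `k`; only
`k = p` contributes.  (`crs n f g` is a sum over `(a, b)`; `mulTT.app n (x ⊗ y) = tmul x y`.)
`ev_kap0_crs`: `kap_zero` and `evens (pathL (2 n)) = stepL (2 n) (even)`, `odds (pathL (2 n)) = stepL (2 n) (odd)`; the number of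
even `i < 2 n` is `n`.
`evH_mulTT`, `evH_kap0`: `boxF_ext`: both sides have the same value on `crs n x y`, `x`, `y` cycles of degrees `p`, `q`,
`p + q = n` (`boxF_crs`, `boxF_crs_ne`).
-/

open scoped TensorProduct

namespace MM

/-! ### counting -/

/-- extension of `w` to the natural numbers -/
private def A3C2_ext {n : ℕ} (w : Fin n → Bool) (j : ℕ) : Bool :=
  if h : j < n then w ⟨j, h⟩ else false

private theorem A3C2_ext_val {n : ℕ} (w : Fin n → Bool) (i : Fin n) : A3C2_ext w i = w i :=
  dif_pos i.2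

private theorem A3C2_ext_lt {n : ℕ} (w : Fin n → Bool) {i : ℕ} (h : i < n) :
    A3C2_ext w i = w ⟨i, h⟩ := dif_pos h

/-- the number of `j < i` with `W j` -/
private def A3C2_cnt (W : ℕ → Bool) (i : ℕ) : ℕ :=
  ∑ j ∈ Finset.range i, if W j = true then 1 else 0

private theorem A3C2_cnt_zero (W : ℕ → Bool) : A3C2_cnt W 0 = 0 := rfl

private theorem A3C2_cnt_succ (W : ℕ → Bool) (i : ℕ) :
    A3C2_cnt W (i + 1) = A3C2_cnt W i + if W i = true then 1 else 0 := Finset.sum_range_succ _ _

private theorem A3C2_cnt_mono (W : ℕ → Bool) : Monotone (A3C2_cnt W) :=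
  monotone_nat_of_le_succ fun i => by
    rw [A3C2_cnt_succ]
    exact Nat.le_add_right _ _

private theorem A3C2_cnt_compl {n : ℕ} (w : Fin n → Bool) {i : ℕ} (hi : i ≤ n) :
    A3C2_cnt (A3C2_ext w) i + A3C2_cnt (A3C2_ext fun i => !w i) i = i := by
  induction i with
  | zero => rfl
  | succ i ih =>
    have h := ih (by omega)
    have hn : i < n := by omega
    rw [A3C2_cnt_succ, A3C2_cnt_succ, A3C2_ext_lt w hn, A3C2_ext_lt (fun i => !w i) hn]
    cases w ⟨i, hn⟩
    · simp only [Bool.not_false, if_true, if_neg (Bool.false_ne_true)]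
      omega
    · simp only [Bool.not_true, if_true, if_neg (Bool.false_ne_true)]
      omega

private theorem A3C2_card {n : ℕ} (w : Fin n → Bool) :
    (Finset.univ.filter (fun i => w i = true)).card = A3C2_cnt (A3C2_ext w) n := by
  rw [Finset.card_filter, A3C2_cnt, Finset.sum_range]
  refine Finset.sum_congr rfl fun i _ => ?_
  rw [A3C2_ext_val]

private theorem A3C2_list (W : ℕ → Bool) (n : ℕ) :
    ((List.range n).filter W).map (fun i => (A3C2_cnt W i, A3C2_cnt W (i + 1))) =
      (List.range (A3C2_cnt W n)).map (fun k => (k, k + 1)) := by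
  induction n with
  | zero => rfl
  | succ n ih =>
    rw [List.range_succ, List.filter_append, List.map_append, ih, A3C2_cnt_succ]
    cases h : W n
    · simp [h]
    · simp [h, List.range_succ, A3C2_cnt_succ]

/-- the values of a pair -/
private def A3C2_v {p : ℕ} (x : PR p) : ℕ × ℕ := (x.1, x.2)

private theorem A3C2_v_inj {p : ℕ} : Function.Injective (A3C2_v (p := p)) := by
  rintro ⟨a, b⟩ ⟨c, d⟩ h
  have h1 : (a : ℕ) = c := congrArg Prod.fst h
  have h2 : (b : ℕ) = d := congrArg Prod.snd h
  exact Prod.ext (Fin.ext h1) (Fin.ext h2)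

private theorem A3C2_step_map {n : ℕ} (w : Fin n → Bool) (G : ℕ → ℕ × ℕ) (φ : PR n → ℕ × ℕ)
    (h : ∀ i : Fin n, φ (i.castSucc, i.succ) = G i) :
    (stepL n w).map φ = ((List.range n).filter (A3C2_ext w)).map G := by
  rw [stepL, List.map_map, ← List.map_coe_finRange_eq_range, List.filter_map, List.map_map]
  have h1 : (A3C2_ext w) ∘ (fun i : Fin n => (i : ℕ)) = w := funext fun i => dif_pos i.2
  rw [h1]
  exact List.map_congr_left fun i _ => h i

/-- the steps counted by `w` are mapped to the path -/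
private theorem A3C2_path {n p : ℕ} (w : Fin n → Bool) (a : Mo n p)
    (ha : ∀ i : Fin (n + 1), (a i : ℕ) = A3C2_cnt (A3C2_ext w) i)
    (hp : A3C2_cnt (A3C2_ext w) n = p) : (stepL n w).map (prMap a) = pathL p := by
  apply List.map_injective_iff.2 (A3C2_v_inj (p := p))
  rw [List.map_map, A3C2_step_map w (fun i => (A3C2_cnt (A3C2_ext w) i,
    A3C2_cnt (A3C2_ext w) (i + 1))) (A3C2_v ∘ prMap a), A3C2_list, hp, pathL,
    A3C2_step_map _ (fun k => (k, k + 1)) A3C2_v (fun i => rfl)]
  · congr 1
    symm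
    rw [List.filter_eq_self]
    intro j hj
    exact A3C2_ext_lt _ (List.mem_range.1 hj)
  · intro i
    show ((a i.castSucc : ℕ), (a i.succ : ℕ)) = _
    rw [ha, ha]
    rfl

private theorem A3C2_van {n p : ℕ} (f : TT.V p) (a : Mo n p) (w : Fin n → Bool) (i : Fin n)
    (hw : w i = true) (h : a i.castSucc = a i.succ) : (TT.act a f).1 (stepL n w) = 0 := by
  rw [TT_act_apply]
  have hm : (i.castSucc, i.succ) ∈ stepL n w :=
    List.mem_map.2 ⟨i, List.mem_filter.2 ⟨List.mem_finRange i, hw⟩, rfl⟩
  obtain ⟨s, t, hst⟩ := List.append_of_mem hm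
  rw [hst, List.map_append, List.map_cons]
  show f.1 (s.map (prMap a) ++ (a i.castSucc, a i.succ) :: t.map (prMap a)) = 0
  rw [h]
  exact IsAdd.self f.2 _ _ _

private theorem A3C2_forced {n p q : ℕ} (a : Mo n p) (b : Mo n q) (w : Fin n → Bool)
    (hab : ∀ i, ((a i : ℕ) + (b i : ℕ) = (i : ℕ)))
    (ha : ∀ i : Fin n, w i = true → a i.castSucc ≠ a i.succ)
    (hb : ∀ i : Fin n, w i = false → b i.castSucc ≠ b i.succ) (i : Fin (n + 1)) :
    (a i : ℕ) = A3C2_cnt (A3C2_ext w) i := by
  induction i using Fin.induction with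
  | zero =>
    have h1 := hab 0
    have h2 : ((0 : Fin (n + 1)) : ℕ) = 0 := rfl
    rw [h2] at h1 ⊢
    rw [A3C2_cnt_zero]
    omega
  | succ i ih =>
    have h1 := hab i.castSucc
    have h2 := hab i.succ
    have h3 : (a i.castSucc : ℕ) ≤ a i.succ := a.monotone (Fin.castSucc_le_succ i)
    have h4 : (b i.castSucc : ℕ) ≤ b i.succ := b.monotone (Fin.castSucc_le_succ i)
    rw [Fin.val_castSucc] at h1 ih
    rw [Fin.val_succ] at h2 ⊢
    rw [A3C2_cnt_succ, A3C2_ext_val, ← ih]
    cases hw : w i
    · have h5 : (b i.castSucc : ℕ) ≠ b i.succ := fun h => hb i hw (Fin.ext h)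
      rw [if_neg Bool.false_ne_true]
      omega
    · have h5 : (a i.castSucc : ℕ) ≠ a i.succ := fun h => ha i hw (Fin.ext h)
      rw [if_pos rfl]
      omega

theorem shuffle_ev {p q n : ℕ} (h : p + q = n) (w : Fin n → Bool) (f : TT.V p) (g : TT.V q) :
    (∑ a : Mo n p, ∑ b : Mo n q, open Classical in
      if (p + q = n ∧ ∀ i, ((a i : ℕ) + (b i : ℕ) = (i : ℕ))) then
        (TT.act a f).1 (stepL n w) * (TT.act b g).1 (stepL n (fun i => !w i)) else 0) =
      if (Finset.univ.filter (fun i => w i = true)).card = p then evT p f * evT q g else 0 := by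
  classical
  rw [A3C2_card]
  have key : ∀ (a : Mo n p) (b : Mo n q), (∀ i, ((a i : ℕ) + (b i : ℕ) = (i : ℕ))) →
      (TT.act a f).1 (stepL n w) * (TT.act b g).1 (stepL n (fun i => !w i)) ≠ 0 →
      ∀ i : Fin (n + 1), (a i : ℕ) = A3C2_cnt (A3C2_ext w) i := by
    intro a b hab hne
    refine A3C2_forced a b w hab (fun i hi h1 => hne ?_) (fun i hi h1 => hne ?_)
    · rw [A3C2_van f a w i hi h1, zero_mul]
    · rw [A3C2_van g b (fun i => !w i) i (by
        show (!w i) = true
        rw [hi]
        rfl) h1, mul_zero]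
  by_cases hc : A3C2_cnt (A3C2_ext w) n = p
  · have hq : A3C2_cnt (A3C2_ext fun i => !w i) n = q := by
      have := A3C2_cnt_compl w (le_refl n)
      omega
    rw [if_pos hc]
    let a₀ : Mo n p := ⟨fun i => ⟨A3C2_cnt (A3C2_ext w) i, by
      have := A3C2_cnt_mono (A3C2_ext w) (Nat.lt_succ_iff.1 i.2)
      omega⟩, fun i j hij => A3C2_cnt_mono _ hij⟩
    let b₀ : Mo n q := ⟨fun i => ⟨A3C2_cnt (A3C2_ext fun i => !w i) i, by
      have := A3C2_cnt_mono (A3C2_ext fun i => !w i) (Nat.lt_succ_iff.1 i.2)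
      omega⟩, fun i j hij => A3C2_cnt_mono _ hij⟩
    have hab : ∀ i, ((a₀ i : ℕ) + (b₀ i : ℕ) = (i : ℕ)) :=
      fun i => A3C2_cnt_compl w (Nat.lt_succ_iff.1 i.2)
    rw [Finset.sum_eq_single a₀, Finset.sum_eq_single b₀, if_pos ⟨h, hab⟩, TT_act_apply,
      TT_act_apply, A3C2_path w a₀ (fun _ => rfl) hc, A3C2_path _ b₀ (fun _ => rfl) hq]
    · rfl
    · intro b _ hb
      by_cases h1 : p + q = n ∧ ∀ i, ((a₀ i : ℕ) + (b i : ℕ) = (i : ℕ))
      · exfalso
        apply hb
        ext i
        have h2 := h1.2 i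
        have h3 := hab i
        omega
      · rw [if_neg h1]
    · intro h1
      exact absurd (Finset.mem_univ _) h1
    · intro a _ ha
      refine Finset.sum_eq_zero fun b _ => ?_
      by_cases h1 : p + q = n ∧ ∀ i, ((a i : ℕ) + (b i : ℕ) = (i : ℕ))
      · rw [if_pos h1]
        by_contra hne
        apply ha
        ext i
        exact key a b h1.2 hne i
      · rw [if_neg h1]
    · intro h1
      exact absurd (Finset.mem_univ _) h1
  · rw [if_neg hc]
    refine Finset.sum_eq_zero fun a _ => Finset.sum_eq_zero fun b _ => ?_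
    by_cases h1 : p + q = n ∧ ∀ i, ((a i : ℕ) + (b i : ℕ) = (i : ℕ))
    · rw [if_pos h1]
      by_contra hne
      have h2 := key a b h1.2 hne (Fin.last n)
      have h3 := h1.2 (Fin.last n)
      have h4 := (a (Fin.last n)).2
      have h5 := (b (Fin.last n)).2
      rw [Fin.val_last] at h2 h3
      omega
    · rw [if_neg h1]

/-! ### the three lists -/

private theorem A3C2_split {X : Type} (P : X → Bool) {l l₁ l₂ : List X} (h : l = l₁ ++ l₂)
    (h₁ : ∀ x ∈ l₁, P x = true) (h₂ : ∀ x ∈ l₂, P x = false) :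
    l.filter P = l₁ ∧ l.filter (fun x => !P x) = l₂ := by
  subst h
  have e1 : l₁.filter P = l₁ := List.filter_eq_self.2 h₁
  have e2 : l₂.filter P = [] := List.filter_eq_nil_iff.2 fun x hx => by
    rw [h₂ x hx]
    exact Bool.false_ne_true
  have e3 : l₁.filter (fun x => !P x) = [] := List.filter_eq_nil_iff.2 fun x hx => by
    rw [h₁ x hx]
    exact Bool.false_ne_true
  have e4 : l₂.filter (fun x => !P x) = l₂ := List.filter_eq_self.2 fun x hx => by
    rw [h₂ x hx]
    rfl
  rw [List.filter_append, List.filter_append, e1, e2, e3, e4]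
  exact ⟨List.append_nil _, List.nil_append _⟩

private theorem A3C2_split_path (n k : ℕ) :
    (pathL n).take k = stepL n (fun i => decide ((i : ℕ) < k)) ∧
      (pathL n).drop k = stepL n (fun i => !decide ((i : ℕ) < k)) := by
  have h := A3C2_split (fun i : Fin n => decide ((i : ℕ) < k)) (l := List.finRange n)
    (List.take_append_drop k _).symm (fun x hx => by
      obtain ⟨i, hi, rfl⟩ := List.mem_take_iff_getElem.1 hx
      rw [List.getElem_finRange, decide_eq_true_iff]
      show i < k
      omega) (fun x hx => by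
      obtain ⟨i, hi, rfl⟩ := List.mem_drop_iff_getElem.1 hx
      rw [List.getElem_finRange, decide_eq_false_iff_not]
      show ¬ (k + i < k)
      omega)
  have h1 : (List.finRange n).filter (fun _ => true) = List.finRange n :=
    List.filter_eq_self.2 fun _ _ => rfl
  rw [pathL, stepL, h1, ← List.map_take, ← List.map_drop, stepL, stepL, h.1, h.2]
  exact ⟨rfl, rfl⟩

private theorem A3C2_evens_map {X Y : Type} (φ : X → Y) (l : List X) :
    evens (l.map φ) = (evens l).map φ := by
  induction l using list_ind2 with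
  | h0 => rfl
  | h1 x => rfl
  | h2 x y l ih =>
    show φ x :: evens (l.map φ) = φ x :: (evens l).map φ
    rw [ih]

private theorem A3C2_odds_map {X Y : Type} (φ : X → Y) (l : List X) :
    odds (l.map φ) = (odds l).map φ := by
  induction l using list_ind2 with
  | h0 => rfl
  | h1 x => rfl
  | h2 x y l ih =>
    show φ y :: odds (l.map φ) = φ y :: (odds l).map φ
    rw [ih]

private theorem A3C2_eo (n s : ℕ) (hs : s % 2 = 0) :
    evens (List.range' s (2 * n)) = (List.range' s (2 * n)).filter (fun j => decide (j % 2 = 0)) ∧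
      odds (List.range' s (2 * n)) =
        (List.range' s (2 * n)).filter (fun j => !decide (j % 2 = 0)) := by
  induction n generalizing s with
  | zero => exact ⟨rfl, rfl⟩
  | succ n ih =>
    have h := ih (s + 2) (by omega)
    have h1 : (decide (s % 2 = 0)) = true := decide_eq_true hs
    have h2 : (decide ((s + 1) % 2 = 0)) = false := decide_eq_false (by omega)
    have h3 : List.range' s (2 * (n + 1)) = s :: (s + 1) :: List.range' (s + 2) (2 * n) := by
      rw [show 2 * (n + 1) = 2 * n + 1 + 1 by ring, List.range'_succ, List.range'_succ]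
    rw [h3]
    constructor
    · show s :: evens (List.range' (s + 2) (2 * n)) = _
      rw [List.filter_cons, List.filter_cons, h1, h2, h.1]
      rfl
    · show (s + 1) :: odds (List.range' (s + 2) (2 * n)) = _
      rw [List.filter_cons, List.filter_cons, h1, h2, h.2]
      rfl

private theorem A3C2_eo_path (n : ℕ) :
    evens (pathL (2 * n)) = stepL (2 * n) (fun i => decide ((i : ℕ) % 2 = 0)) ∧
      odds (pathL (2 * n)) = stepL (2 * n) (fun i => !decide ((i : ℕ) % 2 = 0)) := by
  have h0 := A3C2_eo n 0 rfl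
  rw [← List.range_eq_range', ← List.map_coe_finRange_eq_range, A3C2_evens_map, A3C2_odds_map,
    List.filter_map, List.filter_map] at h0
  have hi : Function.Injective (fun i : Fin (2 * n) => (i : ℕ)) := fun _ _ h => Fin.ext h
  have h1 := List.map_injective_iff.2 hi h0.1
  have h2 := List.map_injective_iff.2 hi h0.2
  have h3 : (List.finRange (2 * n)).filter (fun _ => true) = List.finRange (2 * n) :=
    List.filter_eq_self.2 fun _ _ => rfl
  rw [pathL, stepL, h3, A3C2_evens_map, A3C2_odds_map, h1, h2]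
  exact ⟨rfl, rfl⟩

private theorem A3C2_card_lt {n k : ℕ} (hk : k ≤ n) :
    (Finset.univ.filter (fun i : Fin n => decide ((i : ℕ) < k) = true)).card = k := by
  rw [A3C2_card, A3C2_cnt]
  have h1 : ∀ j ∈ Finset.range n, (if A3C2_ext (fun i : Fin n => decide ((i : ℕ) < k)) j = true
      then 1 else 0) = if j < k then 1 else 0 := by
    intro j hj
    rw [A3C2_ext_lt _ (Finset.mem_range.1 hj)]
    exact if_congr decide_eq_true_iff rfl rfl
  rw [Finset.sum_congr rfl h1, ← Finset.card_filter]
  have h2 : (Finset.range n).filter (fun j => j < k) = Finset.range k := by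
    ext j
    rw [Finset.mem_filter, Finset.mem_range, Finset.mem_range]
    omega
  rw [h2, Finset.card_range]

private theorem A3C2_card_even (n : ℕ) :
    (Finset.univ.filter (fun i : Fin (2 * n) => decide ((i : ℕ) % 2 = 0) = true)).card = n := by
  rw [A3C2_card, A3C2_cnt]
  have h1 : ∀ j ∈ Finset.range (2 * n),
      (if A3C2_ext (fun i : Fin (2 * n) => decide ((i : ℕ) % 2 = 0)) j = true
      then 1 else 0) = if j % 2 = 0 then 1 else 0 := by
    intro j hj
    rw [A3C2_ext_lt _ (Finset.mem_range.1 hj)]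
    exact if_congr decide_eq_true_iff rfl rfl
  rw [Finset.sum_congr rfl h1]
  induction n with
  | zero => rfl
  | succ n ih =>
    rw [show 2 * (n + 1) = 2 * n + 1 + 1 by ring, Finset.sum_range_succ, Finset.sum_range_succ,
      ih (fun j hj => by
        rw [A3C2_ext_lt _ (Finset.mem_range.1 hj)]
        exact if_congr decide_eq_true_iff rfl rfl),
      if_pos (by omega), if_neg (by omega)]

/-! ### evaluation of cross products -/

theorem ev_mulTT_crs {p q n : ℕ} (h : p + q = n) (f : TT.V p) (g : TT.V q) :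
    evT n (mulTT.app n (crs n f g)) = evT p f * evT q g := by
  classical
  have e1 : evT n (mulTT.app n (crs n f g)) = ∑ a : Mo n p, ∑ b : Mo n q,
      ∑ k ∈ Finset.range (n + 1),
      if (p + q = n ∧ ∀ i, ((a i : ℕ) + (b i : ℕ) = (i : ℕ))) then
        (TT.act a f).1 (stepL n (fun i => decide ((i : ℕ) < k))) *
          (TT.act b g).1 (stepL n (fun i => !decide ((i : ℕ) < k))) else 0 := by
    rw [crs, map_sum, map_sum]
    refine Finset.sum_congr rfl fun a _ => ?_
    rw [map_sum, map_sum]
    refine Finset.sum_congr rfl fun b _ => ?_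
    by_cases hc : p + q = n ∧ ∀ i, ((a i : ℕ) + (b i : ℕ) = (i : ℕ))
    · rw [if_pos hc, mulTT_tmul, evT_apply, tmul_apply, ncmul_eq_sum, pathL_length]
      refine Finset.sum_congr rfl fun k _ => ?_
      rw [if_pos hc, (A3C2_split_path n k).1, (A3C2_split_path n k).2]
    · rw [if_neg hc, map_zero, map_zero]
      symm
      exact Finset.sum_eq_zero fun k _ => if_neg hc
  rw [e1]
  have e2 : ∀ a : Mo n p, (∑ b : Mo n q, ∑ k ∈ Finset.range (n + 1),
      if (p + q = n ∧ ∀ i, ((a i : ℕ) + (b i : ℕ) = (i : ℕ))) then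
        (TT.act a f).1 (stepL n (fun i => decide ((i : ℕ) < k))) *
          (TT.act b g).1 (stepL n (fun i => !decide ((i : ℕ) < k))) else 0) =
      ∑ k ∈ Finset.range (n + 1), ∑ b : Mo n q,
      if (p + q = n ∧ ∀ i, ((a i : ℕ) + (b i : ℕ) = (i : ℕ))) then
        (TT.act a f).1 (stepL n (fun i => decide ((i : ℕ) < k))) *
          (TT.act b g).1 (stepL n (fun i => !decide ((i : ℕ) < k))) else 0 :=
    fun a => Finset.sum_comm
  rw [Finset.sum_congr rfl fun a _ => e2 a, Finset.sum_comm]
  have e3 : ∀ k ∈ Finset.range (n + 1), (∑ a : Mo n p, ∑ b : Mo n q,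
      if (p + q = n ∧ ∀ i, ((a i : ℕ) + (b i : ℕ) = (i : ℕ))) then
        (TT.act a f).1 (stepL n (fun i => decide ((i : ℕ) < k))) *
          (TT.act b g).1 (stepL n (fun i => !decide ((i : ℕ) < k))) else 0) =
      if k = p then evT p f * evT q g else 0 := by
    intro k hk
    have h1 := shuffle_ev h (fun i => decide ((i : ℕ) < k)) f g
    rw [A3C2_card_lt (Nat.lt_succ_iff.1 (Finset.mem_range.1 hk))] at h1
    rw [← h1]
  rw [Finset.sum_congr rfl e3, Finset.sum_ite_eq', if_pos (Finset.mem_range.2 (by omega))]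

theorem ev_kap0_crs {p q n : ℕ} (h : p + q = 2 * n) (f : TT.V p) (g : TT.V q) :
    evT (2 * n) (kap0.app (2 * n) (crs (2 * n) f g)) = if p = n then evT p f * evT q g else 0 := by
  classical
  have e1 : evT (2 * n) (kap0.app (2 * n) (crs (2 * n) f g)) =
      ∑ a : Mo (2 * n) p, ∑ b : Mo (2 * n) q,
      if (p + q = 2 * n ∧ ∀ i, ((a i : ℕ) + (b i : ℕ) = (i : ℕ))) then
        (TT.act a f).1 (stepL (2 * n) (fun i => decide ((i : ℕ) % 2 = 0))) *
          (TT.act b g).1 (stepL (2 * n) (fun i => !decide ((i : ℕ) % 2 = 0))) else 0 := by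
    rw [crs, map_sum, map_sum]
    refine Finset.sum_congr rfl fun a _ => ?_
    rw [map_sum, map_sum]
    refine Finset.sum_congr rfl fun b _ => ?_
    by_cases hc : p + q = 2 * n ∧ ∀ i, ((a i : ℕ) + (b i : ℕ) = (i : ℕ))
    · rw [if_pos hc, if_pos hc, kap0_tmul, evT_apply, kapT_apply, kap_zero _ _ _ (by
        rw [pathL_length]
        exact even_two_mul n), (A3C2_eo_path n).1, (A3C2_eo_path n).2]
    · rw [if_neg hc, if_neg hc, map_zero, map_zero]
  rw [e1]
  have h1 := shuffle_ev h (fun i => decide ((i : ℕ) % 2 = 0)) f g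
  rw [A3C2_card_even] at h1
  exact h1.trans (if_congr eq_comm rfl rfl)

theorem evH_mulTT (n : ℕ) : (evH n).comp (SV.Hmap mulTT n) =
    ∑ k ∈ Finset.range (n + 1), boxF n (evH k) (evH (n - k)) := by
  apply boxF_ext
  intro p q h x hx y hy
  rw [LinearMap.comp_apply, SV.Hmap_cls, evH_cls, ev_mulTT_crs h, LinearMap.sum_apply,
    Finset.sum_eq_single p]
  · obtain rfl : q = n - p := by omega
    rw [boxF_crs (by omega) _ _ x hx y hy, evH_cls, evH_cls]
  · intro k _ hk
    exact boxF_crs_ne _ _ (Ne.symm hk) x hx y hy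
  · intro h1
    exact absurd (Finset.mem_range.2 (by omega)) h1

theorem evH_kap0 (n : ℕ) : (evH (2 * n)).comp (SV.Hmap kap0 (2 * n)) =
    boxF (2 * n) (evH n) (evH n) := by
  apply boxF_ext
  intro p q h x hx y hy
  rw [LinearMap.comp_apply, SV.Hmap_cls, evH_cls, ev_kap0_crs h]
  by_cases hp : p = n
  · subst hp
    obtain rfl : q = p := by omega
    rw [if_pos rfl, boxF_crs h _ _ x hx y hy, evH_cls, evH_cls]
  · rw [if_neg hp, boxF_crs_ne _ _ hp x hx y hy]

end MM
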