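import Pool.Agent.Lib_MP_33f7bb_d.A4R1

/-!
# A4-02: the commutative ring `CR Z` and the ring homomorphisms `CR.map`

Everything follows from the homogeneous statements of `A4R1` by the usual manipulations of double
sums (`Finset.sum_sigma'`, `Finset.Nat.sum_antidiagonal_eq_sum_range_succ_mk`; the proof of associativity for power series
`PowerSeries`/`Finset.Nat.sum_antidiagonal_triple_comm`-like reindexing; all terms with wrong degrees vanish by `cup_ne`).
Suggestion: rewrite `(a * b) n = ∑ ij ∈ antidiagonal n, cup n (a ij.1) (b ij.2)`.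
-/

namespace MM

variable {Z Z' Z'' : SS}

private theorem A4R2_mul (a b : CR Z) (n : ℕ) :
    (a * b) n = ∑ ij ∈ Finset.HasAntidiagonal.antidiagonal n, cup n (a ij.1) (b ij.2) := by
  rw [CR.mul_apply]
  exact (Finset.Nat.sum_antidiagonal_eq_sum_range_succ_mk
    (fun ij : ℕ × ℕ => cup n (a ij.1) (b ij.2)) n).symm

private theorem A4R2_sum_left {ι : Type} (s : Finset ι) {p q : ℕ} (n : ℕ) (f : ι → Hc Z p)
    (b : Hc Z q) : cup n (∑ i ∈ s, f i) b = ∑ i ∈ s, cup n (f i) b :=
  map_sum (AddMonoidHom.mk' (fun a : Hc Z p => cup n a b) (fun a a' => cup_add_left a a' b)) f s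

private theorem A4R2_sum_right {ι : Type} (s : Finset ι) {p q : ℕ} (n : ℕ) (a : Hc Z p)
    (f : ι → Hc Z q) : cup n a (∑ i ∈ s, f i) = ∑ i ∈ s, cup n a (f i) :=
  map_sum (AddMonoidHom.mk' (fun b : Hc Z q => cup n a b) (fun b b' => cup_add_right a b b')) f s

theorem CR.mul_comm' (a b : CR Z) : a * b = b * a := by
  funext n
  rw [A4R2_mul, A4R2_mul, ← Finset.Nat.sum_antidiagonal_swap]
  refine Finset.sum_congr rfl fun ij _ => ?_
  exact cup_comm _ _

theorem CR.mul_assoc' (a b c : CR Z) : a * b * c = a * (b * c) := by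
  funext n
  rw [A4R2_mul, A4R2_mul]
  have h1 : ∀ ij ∈ Finset.HasAntidiagonal.antidiagonal n, cup n ((a * b) ij.1) (c ij.2) =
      ∑ kl ∈ Finset.HasAntidiagonal.antidiagonal ij.1, cup n (cup ij.1 (a kl.1) (b kl.2)) (c ij.2) := by
    intro ij _
    rw [A4R2_mul, A4R2_sum_left]
  have h2 : ∀ ij ∈ Finset.HasAntidiagonal.antidiagonal n, cup n (a ij.1) ((b * c) ij.2) =
      ∑ kl ∈ Finset.HasAntidiagonal.antidiagonal ij.2, cup n (a ij.1) (cup ij.2 (b kl.1) (c kl.2)) := by
    intro ij _
    rw [A4R2_mul, A4R2_sum_right]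
  rw [Finset.sum_congr rfl h1, Finset.sum_congr rfl h2, Finset.sum_sigma', Finset.sum_sigma']
  refine Finset.sum_nbij' (fun x => ⟨(x.2.1, x.2.2 + x.1.2), (x.2.2, x.1.2)⟩)
    (fun x => ⟨(x.1.1 + x.2.1, x.2.2), (x.1.1, x.2.1)⟩) ?_ ?_ ?_ ?_ ?_
  · rintro ⟨⟨i, j⟩, ⟨k, l⟩⟩ h
    simp only [Finset.mem_sigma, Finset.HasAntidiagonal.mem_antidiagonal] at h ⊢
    have h1 : i + j = n := h.1
    have h2 : k + l = i := h.2
    refine ⟨?_, trivial⟩
    show k + (l + j) = n
    omega
  · rintro ⟨⟨i, j⟩, ⟨k, l⟩⟩ h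
    simp only [Finset.mem_sigma, Finset.HasAntidiagonal.mem_antidiagonal] at h ⊢
    have h1 : i + j = n := h.1
    have h2 : k + l = j := h.2
    refine ⟨?_, trivial⟩
    show i + k + l = n
    omega
  · rintro ⟨⟨i, j⟩, ⟨k, l⟩⟩ h
    simp only [Finset.mem_sigma, Finset.HasAntidiagonal.mem_antidiagonal] at h
    obtain ⟨h, rfl⟩ := h
    rfl
  · rintro ⟨⟨i, j⟩, ⟨k, l⟩⟩ h
    simp only [Finset.mem_sigma, Finset.HasAntidiagonal.mem_antidiagonal] at h
    obtain ⟨h, rfl⟩ := h
    rfl
  · rintro ⟨⟨i, j⟩, ⟨k, l⟩⟩ h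
    simp only [Finset.mem_sigma, Finset.HasAntidiagonal.mem_antidiagonal] at h
    have h1 : i + j = n := h.1
    have h2 : k + l = i := h.2
    exact cup_assoc h2 rfl (by omega) (a k) (b l) (c j)

theorem CR.one_mul' (a : CR Z) : 1 * a = a := by
  funext n
  rw [CR.mul_apply, Finset.sum_range_succ', Finset.sum_eq_zero, zero_add]
  · exact cup_unit (a n)
  · intro k _
    rw [CR.one_succ, cup_zero_left]

theorem CR.mul_add' (a b c : CR Z) : a * (b + c) = a * b + a * c := by
  funext n
  show (a * (b + c)) n = (a * b) n + (a * c) n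
  rw [CR.mul_apply, CR.mul_apply, CR.mul_apply, ← Finset.sum_add_distrib]
  refine Finset.sum_congr rfl fun k _ => ?_
  exact cup_add_right (a k) (b (n - k)) (c (n - k))

theorem CR.zero_mul' (a : CR Z) : 0 * a = 0 := by
  funext n
  rw [CR.mul_apply]
  refine Finset.sum_eq_zero fun k _ => ?_
  exact cup_zero_left (a (n - k))

noncomputable instance : CommRing (CR Z) :=
  { (inferInstance : AddCommGroup (CR Z)) with
    mul := (· * ·)
    one := 1
    mul_comm := CR.mul_comm'
    mul_assoc := CR.mul_assoc'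
    one_mul := CR.one_mul'
    mul_one := fun a => by rw [CR.mul_comm', CR.one_mul']
    left_distrib := CR.mul_add'
    right_distrib := fun a b c => by
      rw [CR.mul_comm', CR.mul_add', CR.mul_comm' c a, CR.mul_comm' c b]
    zero_mul := CR.zero_mul'
    mul_zero := fun a => by rw [CR.mul_comm', CR.zero_mul']
    nsmul := fun n a => n • a
    nsmul_zero := fun a => zero_smul ℕ a
    nsmul_succ := fun n a => succ_nsmul a n
    zsmul := fun n a => n • a
    zsmul_zero' := fun a => zero_smul ℤ a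
    zsmul_succ' := fun n a => SubNegMonoid.zsmul_succ' n a
    zsmul_neg' := fun n a => SubNegMonoid.zsmul_neg' n a }

private theorem A4R2_zmod (r : ZMod 2) : r = 0 ∨ r = 1 := by
  revert r
  decide

theorem CR.smul_mul' (r : ZMod 2) (a b : CR Z) : (r • a) * b = r • (a * b) := by
  rcases A4R2_zmod r with rfl | rfl
  · rw [zero_smul, zero_smul, zero_mul]
  · rw [one_smul, one_smul]

noncomputable instance : Algebra (ZMod 2) (CR Z) :=
  Algebra.ofModule CR.smul_mul' (fun r a b => by
    rw [mul_comm, CR.smul_mul', mul_comm])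

/-- pull back as a ring homomorphism -/
noncomputable def CR.map (f : Hom Z Z') : CR Z' →+* CR Z where
  toFun a n := Hc.map f n (a n)
  map_zero' := funext fun n => map_zero (Hc.map f n)
  map_add' a b := funext fun n => map_add (Hc.map f n) (a n) (b n)
  map_one' := by
    funext n
    cases n with
    | zero => exact Hc.map_unit f
    | succ n =>
      show Hc.map f (n + 1) ((1 : CR Z') (n + 1)) = (1 : CR Z) (n + 1)
      rw [CR.one_succ, CR.one_succ, map_zero]
  map_mul' a b := by
    funext n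
    show Hc.map f n ((a * b) n) =
      ∑ k ∈ Finset.range (n + 1), cup n (Hc.map f k (a k)) (Hc.map f (n - k) (b (n - k)))
    rw [CR.mul_apply, map_sum]
    exact Finset.sum_congr rfl fun k _ => Hc.map_cup f n _ _

@[simp] theorem CR.map_apply (f : Hom Z Z') (a : CR Z') (n : ℕ) :
    CR.map f a n = Hc.map f n (a n) := rfl

theorem CR.map_comp (g : Hom Z' Z'') (f : Hom Z Z') (a : CR Z'') :
    CR.map (g.comp f) a = CR.map f (CR.map g a) := by
  funext n
  refine LinearMap.ext fun x => ?_
  show a n (SV.Hmap (linMap (g.comp f)) n x) = a n (SV.Hmap (linMap g) n (SV.Hmap (linMap f) n x))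
  rw [← SV.Hmap_comp]
  have h : linMap (g.comp f) = (linMap g).comp (linMap f) := by
    apply SVHom.ext
    funext m
    apply LinearMap.ext
    intro z
    show Finsupp.mapDomain _ z = Finsupp.mapDomain _ (Finsupp.mapDomain _ z)
    rw [← Finsupp.mapDomain_comp]
    rfl
  rw [h]

theorem CR.map_id (a : CR Z) : CR.map (Hom.id Z) a = a := by
  funext n
  refine LinearMap.ext fun x => ?_
  show a n (SV.Hmap (linMap (Hom.id Z)) n x) = a n x
  have h : linMap (Hom.id Z) = SVHom.id (lin Z) := by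
    apply SVHom.ext
    funext m
    apply LinearMap.ext
    intro z
    show Finsupp.mapDomain (fun y => y) z = z
    exact Finsupp.mapDomain_id
  rw [h, SV.Hmap_id]

theorem CR.map_smul (f : Hom Z Z') (r : ZMod 2) (a : CR Z') :
    CR.map f (r • a) = r • CR.map f a :=
  funext fun n => LinearMap.map_smul (Hc.map f n) r (a n)

private theorem A4R2_hom_same (n : ℕ) (a : Hc Z n) : CR.hom n a n = a := by
  show (Pi.single n a : ∀ n, Hc Z n) n = a
  exact Pi.single_eq_same n a

private theorem A4R2_hom_ne {n m : ℕ} (h : m ≠ n) (a : Hc Z n) : CR.hom n a m = 0 := by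
  show (Pi.single n a : ∀ n, Hc Z n) m = 0
  exact Pi.single_eq_of_ne h a

/-- products of homogeneous elements -/
theorem CR.hom_mul_hom {p q : ℕ} (a : Hc Z p) (b : Hc Z q) :
    CR.hom p a * CR.hom q b = CR.hom (p + q) (cup (p + q) a b) := by
  funext n
  rw [A4R2_mul]
  by_cases hn : n = p + q
  · subst hn
    rw [A4R2_hom_same, Finset.sum_eq_single (p, q)]
    · rw [A4R2_hom_same, A4R2_hom_same]
    · rintro ⟨i, j⟩ hij hne
      rw [Finset.HasAntidiagonal.mem_antidiagonal] at hij
      have hi : i ≠ p := by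
        rintro rfl
        refine hne ?_
        have hij' : i + j = i + q := hij
        rw [show j = q by omega]
      show cup (p + q) (CR.hom p a i) (CR.hom q b j) = 0
      rw [A4R2_hom_ne hi, cup_zero_left]
    · intro h
      exact absurd ((Finset.HasAntidiagonal.mem_antidiagonal (a := (p, q))).2 rfl) h
  · rw [A4R2_hom_ne hn]
    refine Finset.sum_eq_zero ?_
    rintro ⟨i, j⟩ hij
    rw [Finset.HasAntidiagonal.mem_antidiagonal] at hij
    have hij' : i + j = n := hij
    show cup n (CR.hom p a i) (CR.hom q b j) = 0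
    by_cases hi : i = p
    · have hj : j ≠ q := by
        rintro rfl
        exact hn (by omega)
      rw [A4R2_hom_ne hj, cup_zero_right]
    · rw [A4R2_hom_ne hi, cup_zero_left]

theorem CR.map_hom (f : Hom Z Z') (n : ℕ) (a : Hc Z' n) :
    CR.map f (CR.hom n a) = CR.hom n (Hc.map f n a) := by
  funext m
  rw [CR.map_apply]
  by_cases h : m = n
  · subst h
    rw [A4R2_hom_same, A4R2_hom_same]
  · rw [A4R2_hom_ne h, A4R2_hom_ne h, map_zero]

/-- `a` is homogeneous of degree `n` -/
def CR.IsHom (n : ℕ) (a : CR Z) : Prop := ∀ m, m ≠ n → a m = 0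

theorem CR.isHom_hom (n : ℕ) (a : Hc Z n) : CR.IsHom n (CR.hom n a) :=
  fun _ hm => A4R2_hom_ne hm a

theorem CR.IsHom.eq {n : ℕ} {a : CR Z} (h : CR.IsHom n a) : a = CR.hom n (a n) := by
  funext m
  by_cases hm : m = n
  · subst hm
    rw [A4R2_hom_same]
  · rw [A4R2_hom_ne hm, h m hm]

theorem CR.IsHom.mul {n m : ℕ} {a b : CR Z} (ha : CR.IsHom n a) (hb : CR.IsHom m b) :
    CR.IsHom (n + m) (a * b) := by
  rw [ha.eq, hb.eq, CR.hom_mul_hom]
  exact CR.isHom_hom _ _

theorem CR.isHom_one : CR.IsHom 0 (1 : CR Z) := by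
  intro m hm
  obtain ⟨k, rfl⟩ : ∃ k, m = k + 1 := ⟨m - 1, by omega⟩
  exact CR.one_succ Z k

theorem CR.IsHom.map {n : ℕ} {a : CR Z'} (ha : CR.IsHom n a) (f : Hom Z Z') :
    CR.IsHom n (CR.map f a) := by
  intro m hm
  rw [CR.map_apply, ha m hm, map_zero]

theorem CR.IsHom.prod {I : Type} (s : Finset I) (n : I → ℕ) (a : I → CR Z)
    (h : ∀ i ∈ s, CR.IsHom (n i) (a i)) : CR.IsHom (∑ i ∈ s, n i) (∏ i ∈ s, a i) := by
  classical
  induction s using Finset.induction_on with
  | empty =>
    rw [Finset.sum_empty, Finset.prod_empty]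
    exact CR.isHom_one
  | insert j s hj ih =>
    rw [Finset.sum_insert hj, Finset.prod_insert hj]
    exact (h j (Finset.mem_insert_self j s)).mul
      (ih fun i hi => h i (Finset.mem_insert_of_mem hi))

end MM
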