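import Pool.Agent.Lib_MP_33f7bb_d.A3C1
import Pool.Agent.Lib_MP_33f7bb_d.A3C2
import Pool.Agent.Lib_MP_33f7bb_d.A4R2

/-!
# A3-09: the class map is multiplicative; the class of `kap_0 (a, b)`

`clW_bil`: for a linear simplicial map `β : V ⊗ W → T`, `a : Z → V`, `b : Z → W`, the map `x ↦ β (a x ⊗ b x)` is
`β ∘ (linHom a ⊗ linHom b) ∘ linDiag Z` on `lin Z` (check on `single x 1`), so its class is
`(u ∘ H(β)) ∘ H(linHom a ⊗ linHom b) ∘ H(linDiag)`.
`clT_mul`: `evH_mulTT`, `boxF_map` (with `f = linHom a`, `g = linHom b`) and the definition of `cup`.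
`clT_kap0`: `evH_kap0`, same argument.
`clA_mul`: `clT_mul` in every degree.
-/

open scoped TensorProduct

namespace MM

/-- `x ↦ β (a x ⊗ b x)` -/
noncomputable def homBil {Z : SS} {V W T : SV} (β : SVHom (V.tens W) T) (a : Hom Z V.ss) (b : Hom Z W.ss) :
    Hom Z T.ss :=
  ⟨fun n x => β.app n ((a.app n x : V.V n) ⊗ₜ[ZMod 2] (b.app n x : W.V n)), fun {m n} f x => by
    show β.app m ((a.app m (Z.act f x) : V.V m) ⊗ₜ[ZMod 2] (b.app m (Z.act f x) : W.V m)) =
      T.act f (β.app n ((a.app n x : V.V n) ⊗ₜ[ZMod 2] (b.app n x : W.V n)))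
    rw [a.nat, b.nat, ← β.nat]
    rfl⟩

private theorem A3C3_linHom_single {Z : SS} {W : SV} (c : Hom Z W.ss) (n : ℕ) (x : Z.S n)
    (r : ZMod 2) : (linHom c).app n (Finsupp.single x r) = r • (c.app n x : W.V n) :=
  linExt_single c.app n x r

private theorem A3C3_fac {Z : SS} {V W T : SV} (β : SVHom (V.tens W) T) (a : Hom Z V.ss)
    (b : Hom Z W.ss) : linHom (homBil β a b) =
      β.comp (((linHom a).tens (linHom b)).comp (linDiag Z)) := by
  apply SVHom.ext
  funext n
  refine Finsupp.lhom_ext fun x r => ?_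
  have h1 : (Finsupp.single x r : Ch Z n) = r • Finsupp.single x 1 := by
    rw [Finsupp.smul_single, smul_eq_mul, mul_one]
  have h2 : (linHom (homBil β a b)).app n (Finsupp.single x 1) =
      (β.comp (((linHom a).tens (linHom b)).comp (linDiag Z))).app n (Finsupp.single x 1) := by
    show _ = β.app n (TensorProduct.map ((linHom a).app n) ((linHom b).app n)
      ((linDiag Z).app n (Finsupp.single x 1)))
    rw [linDiag_single, TensorProduct.map_tmul, A3C3_linHom_single, A3C3_linHom_single,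
      A3C3_linHom_single, one_smul, one_smul, one_smul]
    rfl
  rw [h1, map_smul, map_smul, h2]

theorem clW_bil {Z : SS} {V W T : SV} {n : ℕ} (u : Module.Dual (ZMod 2) (T.H n))
    (β : SVHom (V.tens W) T) (a : Hom Z V.ss) (b : Hom Z W.ss) :
    clW u (homBil β a b) = ((u.comp (SV.Hmap β n)).comp
      (SV.Hmap ((linHom a).tens (linHom b)) n)).comp (SV.Hmap (linDiag Z) n) := by
  apply LinearMap.ext
  intro z
  show u (SV.Hmap (linHom (homBil β a b)) n z) = u (SV.Hmap β n
    (SV.Hmap ((linHom a).tens (linHom b)) n (SV.Hmap (linDiag Z) n z)))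
  rw [A3C3_fac, SV.Hmap_comp, SV.Hmap_comp]

theorem homMul_eq {Z : SS} (a b : Hom Z TT.ss) : homMul a b = homBil mulTT a b := rfl

theorem clT_mul {Z : SS} (n : ℕ) (a b : Hom Z TT.ss) :
    clW (evH n) (homMul a b) =
      ∑ k ∈ Finset.range (n + 1), cup n (clW (evH k) a) (clW (evH (n - k)) b) := by
  rw [homMul_eq, clW_bil, evH_mulTT]
  apply LinearMap.ext
  intro z
  rw [LinearMap.comp_apply, LinearMap.comp_apply, LinearMap.sum_apply, LinearMap.sum_apply]
  refine Finset.sum_congr rfl fun k _ => ?_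
  rw [← LinearMap.comp_apply (boxF n (evH k) (evH (n - k))), boxF_map]
  rfl

theorem clT_kap0 {Z : SS} (n : ℕ) (a b : Hom Z TT.ss) :
    clW (evH (2 * n)) (homBil kap0 a b) = cup (2 * n) (clW (evH n) a) (clW (evH n) b) := by
  rw [clW_bil, evH_kap0, boxF_map]
  rfl

theorem clA_mul {Z : SS} (a b : Hom Z TT.ss) : clA (homMul a b) = clA a * clA b :=
  funext fun n => clT_mul n a b

theorem clA_add {Z : SS} (a b : Hom Z TT.ss) : clA (homAdd a b) = clA a + clA b :=
  funext fun n => clW_add (evH n) a b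

theorem clA_comp {Z Z' : SS} (f : Hom Z Z') (a : Hom Z' TT.ss) :
    clA (a.comp f) = CR.map f (clA a) :=
  funext fun n => clW_comp (evH n) a f

theorem clA_eq_iff {Z : SS} (a b : Hom Z TT.ss) : clA a = clA b ↔ Htp a b := by
  rw [htp_TT_iff]
  exact ⟨fun h n => congrFun h n, fun h => funext h⟩

end MM
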