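import Pool.Agent.Lib_MP_33f7bb_d.A3B1
import Pool.Agent.Lib_MP_33f7bb_d.A3C3

/-!
# A3-13: the cohomology ring of `B = B(ZMod 2)` is `F[x]`

`xT : B → TT` is the map `b ↦ ([z] ↦ b z.1 + b z.2)`, homogeneous of degree one.
* `clT_xT`: on a `1`-chain: `evT 1 (xT b) = b 0 + b 1 = b 1` (`pathL 1 = [(0,1)]`), both classes are `[z] ↦ ∑_b z b * b 1`
  (for `xB`: `clW_cls`, `K1ev`).
* `clT_xTpow`: let `xTp n` be the `n`-fold product (`xTp 0 =` indicator of `[]`, `xTp (n+1) = homMul xT (xTp n)`).
  `(xTp n b) l = ∏_(z ∈ l) (b z.1 + b z.2)` if `length l = n`, else `0`; so `evT n (xTp n b) = ∏_(i < n) (b i + b (i+1))`, which is `1` if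
  `b = bAlt n` and `0` otherwise (`eq_bAlt_iff`), i.e. the class of `xTp n` is `xP n`.
* `xP_mul`: `clT_mul` (or `clA_mul`) and induction: `cup (n+1) (xP 1) (xP n) = xP (n+1)`, then associativity; or directly:
  `homMul (xTp p) (xTp q) = xTp (p+q)`.
* `xB_pow`: in `CR BZ2`: `(CR.hom 1 xB) ^ n = CR.hom n (xP n)`.
-/

open scoped TensorProduct

namespace MM

private theorem A3B2_ext {n : ℕ} {f g : Hc BZ2 n}
    (h : ∀ (z : Ch BZ2 n) (hz : z ∈ (lin BZ2).Z n),
      f ((lin BZ2).cls z hz) = g ((lin BZ2).cls z hz)) : f = g := by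
  refine LinearMap.ext fun x => ?_
  obtain ⟨⟨z, hz⟩, rfl⟩ := Submodule.Quotient.mk_surjective _ x
  exact h z hz

private theorem A3B2_lin {n : ℕ} (f g : Ch BZ2 n →ₗ[ZMod 2] ZMod 2)
    (h : ∀ b : K1.V n, f (Finsupp.single b 1) = g (Finsupp.single b 1)) (z : Ch BZ2 n) :
    f z = g z := by
  have h1 : f = g := by
    refine Finsupp.lhom_ext fun b c => ?_
    have e : (Finsupp.single b c : Ch BZ2 n) = c • Finsupp.single b 1 := by
      rw [Finsupp.smul_single, smul_eq_mul, mul_one]
    rw [e, map_smul, map_smul, h b]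
  rw [h1]

private theorem A3B2_zero {n : ℕ} (b : K1.V n) : b.1 0 = 0 := by
  have h := b.2
  rwa [LinearMap.mem_ker, LinearMap.proj_apply] at h

private theorem A3B2_path (n : ℕ) :
    pathL n = (List.finRange n).map fun i => (i.castSucc, i.succ) := by
  show ((List.finRange n).filter fun _ => true).map _ = _
  rw [List.filter_true]

/-- the functional `v ↦ v 1` on the chains `K1.V 1` -/
private def A3B2_ev : K1.V 1 →ₗ[ZMod 2] ZMod 2 :=
  { toFun := fun v : K1.V 1 => v.1 1, map_add' := fun _ _ => rfl, map_smul' := fun _ _ => rfl }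

private theorem A3B2_xB (z : Ch BZ2 1) (hz : z ∈ (lin BZ2).Z 1) :
    xB ((lin BZ2).cls z hz) = A3B2_ev (linExt (W := K1) (Hom.id BZ2).app 1 z) := rfl

theorem clT_xT : clW (evH 1) xT = xB := by
  refine A3B2_ext fun z hz => ?_
  rw [clT_cls, A3B2_xB]
  have h := A3B2_lin ((evT 1).comp (linExt (W := TT) xT.app 1))
    (A3B2_ev.comp (linExt (W := K1) (Hom.id BZ2).app 1)) ?_ z
  · exact h
  · intro b
    rw [LinearMap.comp_apply, LinearMap.comp_apply, linExt_single, linExt_single, one_smul,
      one_smul]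
    have h1 : pathL 1 = [(0, 1)] := by rw [A3B2_path]; rfl
    show (xT.app 1 b).1 (pathL 1) = b.1 1
    rw [h1, xT_one]
    show b.1 0 + b.1 1 = b.1 1
    rw [A3B2_zero, zero_add]

theorem xP_one : xP 1 = xB := by
  classical
  refine A3B2_ext fun z hz => ?_
  rw [xP_cls, A3B2_xB]
  have h := A3B2_lin (Finsupp.lapply (bAlt 1))
    (A3B2_ev.comp (linExt (W := K1) (Hom.id BZ2).app 1)) ?_ z
  · exact h
  · intro b
    rw [LinearMap.comp_apply, linExt_single, one_smul, Finsupp.lapply_apply,
      Finsupp.single_apply]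
    show _ = b.1 1
    have h1 : b = bAlt 1 ↔ b.1 1 = 1 := by
      rw [eq_bAlt_iff]
      constructor
      · intro h
        have h2 := h 0
        have h3 : b.1 (Fin.castSucc 0) = 0 := A3B2_zero b
        rw [h3, zero_add] at h2
        exact h2
      · intro h i
        have hi : i = 0 := Subsingleton.elim _ _
        subst hi
        have h3 : b.1 (Fin.castSucc 0) = 0 := A3B2_zero b
        rw [h3, zero_add]
        exact h
    by_cases hb : b = bAlt 1
    · rw [if_pos hb, h1.1 hb]
    · rw [if_neg hb]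
      have h2 : b.1 1 ≠ 1 := fun h => hb (h1.2 h)
      generalize b.1 1 = c at h2
      revert c
      decide

/-- the unit of `TT` as a map -/
private def A3B2_one : Hom BZ2 TT.ss :=
  ⟨fun n _ => ⟨fun l => match l with
      | [] => 1
      | _ :: _ => 0, by
      intro l₁ l₂ a c d
      rcases l₁ with _ | ⟨y, l₁⟩
      · exact (add_zero 0).symm
      · exact (add_zero 0).symm⟩, fun {m n} θ b => by
    apply Subtype.ext; funext l
    rcases l with _ | ⟨x, l⟩
    · rfl
    · rfl⟩

/-- the powers of `xT` -/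
private noncomputable def A3B2_pow : ℕ → Hom BZ2 TT.ss
  | 0 => A3B2_one
  | n + 1 => homMul xT (A3B2_pow n)

private theorem A3B2_isHom (n : ℕ) (k : ℕ) (b : K1.V k) :
    IsHom n ((A3B2_pow n).app k b).1 := by
  induction n with
  | zero =>
    intro l hl
    rcases l with _ | ⟨x, l⟩
    · exact absurd rfl hl
    · rfl
  | succ n ih =>
    have h := (xT_isHom k b).ncmul ih
    rw [add_comm 1 n] at h
    exact h

private theorem A3B2_val (n : ℕ) (k : ℕ) (b : K1.V k) (l : List (PR k)) (hl : l.length = n) :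
    ((A3B2_pow n).app k b).1 l = (l.map fun x => b.1 x.1 + b.1 x.2).prod := by
  induction n generalizing l with
  | zero =>
    rcases l with _ | ⟨x, l⟩
    · rfl
    · exact absurd hl (by simp)
  | succ n ih =>
    rcases l with _ | ⟨x, l⟩
    · exact absurd hl (by simp)
    · have h := ncmul_of_hom (xT_isHom k b) ((A3B2_pow n).app k b).1 (l₁ := [x]) (l₂ := l) rfl
      have h2 : ((A3B2_pow (n + 1)).app k b).1 (x :: l) =
          ncmul (xT.app k b).1 ((A3B2_pow n).app k b).1 ([x] ++ l) := rfl
      rw [h2, h, xT_one, ih l (by simpa using hl), List.map_cons, List.prod_cons]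

private theorem A3B2_mul (p q : ℕ) :
    homMul (A3B2_pow p) (A3B2_pow q) = A3B2_pow (p + q) := by
  refine Hom.ext (funext fun k => funext fun b => Subtype.ext (funext fun l => ?_))
  show ncmul ((A3B2_pow p).app k b).1 ((A3B2_pow q).app k b).1 l =
    ((A3B2_pow (p + q)).app k b).1 l
  by_cases hl : l.length = p + q
  · have h1 : (l.take p).length = p := by rw [List.length_take]; omega
    have h2 : (l.drop p).length = q := by rw [List.length_drop]; omega
    have h3 := ncmul_of_hom (A3B2_isHom p k b) ((A3B2_pow q).app k b).1 (l₂ := l.drop p) h1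
    rw [List.take_append_drop] at h3
    rw [h3, A3B2_val p k b _ h1, A3B2_val q k b _ h2, A3B2_val (p + q) k b _ hl,
      ← List.prod_append, ← List.map_append, List.take_append_drop]
  · rw [(A3B2_isHom p k b).ncmul (A3B2_isHom q k b) l hl, A3B2_isHom (p + q) k b l hl]

private theorem A3B2_cls (n : ℕ) : clW (evH n) (A3B2_pow n) = xP n := by
  classical
  refine A3B2_ext fun z hz => ?_
  rw [clT_cls, xP_cls]
  have h := A3B2_lin ((evT n).comp (linExt (W := TT) (A3B2_pow n).app n))
    (Finsupp.lapply (bAlt n)) ?_ z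
  · exact h
  · intro b
    rw [LinearMap.comp_apply, linExt_single, one_smul, Finsupp.lapply_apply,
      Finsupp.single_apply]
    show ((A3B2_pow n).app n b).1 (pathL n) = _
    rw [A3B2_val n n b _ (pathL_length n), A3B2_path, List.map_map]
    have h1 : (List.map ((fun x : PR n => b.1 x.1 + b.1 x.2) ∘
        fun i : Fin n => (i.castSucc, i.succ)) (List.finRange n)).prod =
        ∏ i : Fin n, (b.1 i.castSucc + b.1 i.succ) := (Fin.prod_univ_def _).symm
    rw [h1]
    by_cases hb : b = bAlt n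
    · rw [if_pos hb]
      exact Finset.prod_eq_one fun i _ => (eq_bAlt_iff n b).1 hb i
    · rw [if_neg hb]
      have h2 : ∃ i : Fin n, b.1 i.castSucc + b.1 i.succ ≠ 1 := by
        by_contra hcon
        push Not at hcon
        exact hb ((eq_bAlt_iff n b).2 hcon)
      obtain ⟨i, hi⟩ := h2
      refine Finset.prod_eq_zero (Finset.mem_univ i) ?_
      generalize b.1 i.castSucc + b.1 i.succ = c at hi
      revert c
      decide

theorem xP_mul {p q n : ℕ} (h : p + q = n) : cup n (xP p) (xP q) = xP n := by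
  subst h
  have h1 := clT_mul (p + q) (A3B2_pow p) (A3B2_pow q)
  rw [A3B2_mul, A3B2_cls, Finset.sum_eq_single p] at h1
  · have e : p + q - p = q := by omega
    rw [e, A3B2_cls, A3B2_cls] at h1
    exact h1.symm
  · intro k _ hk
    rw [clT_of_isHom hk (A3B2_isHom p), cup_zero_left]
  · intro hp
    exact absurd (Finset.mem_range.2 (by omega)) hp

theorem xB_pow (n : ℕ) : (CR.hom 1 xB : CR BZ2) ^ n = CR.hom n (xP n) := by
  induction n with
  | zero =>
    rw [pow_zero, xP_zero, (CR.isHom_one (Z := BZ2)).eq, CR.one_zero]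
  | succ n ih =>
    rw [pow_succ, ih, CR.hom_mul_hom, ← xP_one, xP_mul rfl]

end MM
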