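import Pool.Agent.Lib_MP_33f7bb_d.A3EM
import Pool.Agent.Lib_MP_33f7bb_d.A3H

/-!
# A3-07: cohomology classes as homotopy classes of maps into `TT`

The class of degree `n` of `a : Z → TT` is `clW (evH n) a`, its value on a cycle `z` is `evT n (linExt a z)`.
* `htp_TT_iff`: `htp_iff` (A008) and `TT_mem_B`, `evT_B`: a cycle `w ∈ TT.Z n` is a boundary iff `evT n w = 0`.
* `TT_surj`: `exists_hom` (A009) for `lin Z → TT` with `φ_n = (evH n)⁻¹ ∘ y n` (`evH_bijective`); the linear map `f` is
  `linHom` of `x ↦ f (single x 1)`.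
* `clT_homPr`: `evT n` only sees lists of length `n` (`pathL_length`), and `linExt (homPr n a) = prT n (linExt a)`.
* `exists_homog`: `TT_surj` for the element concentrated in degree `n`, then `homPr n`.
* `htp_homPr`: `htp_TT_iff` and the previous facts.
-/

open scoped TensorProduct

namespace MM

theorem clT_cls {Z : SS} (n : ℕ) (a : Hom Z TT.ss) (z : Ch Z n) (hz : z ∈ (lin Z).Z n) :
    clW (evH n) a ((lin Z).cls z hz) = evT n (linExt a.app n z) := rfl

private theorem A3C1_ext {Z : SS} {n : ℕ} {f g : Hc Z n}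
    (h : ∀ (z : Ch Z n) (hz : z ∈ (lin Z).Z n), f ((lin Z).cls z hz) = g ((lin Z).cls z hz)) :
    f = g := by
  refine LinearMap.ext fun x => ?_
  obtain ⟨⟨z, hz⟩, rfl⟩ := Submodule.Quotient.mk_surjective _ x
  exact h z hz

private theorem A3C1_Z {Z : SS} (a : Hom Z TT.ss) {n : ℕ} {z : Ch Z n} (hz : z ∈ (lin Z).Z n) :
    linExt (W := TT) a.app n z ∈ TT.Z n := (linHom a).map_Z hz

theorem htp_TT_iff {Z : SS} (a b : Hom Z TT.ss) :
    Htp a b ↔ ∀ n, clW (evH n) a = clW (evH n) b := by
  rw [htp_iff TT a b]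
  constructor
  · intro h n
    refine A3C1_ext fun z hz => ?_
    rw [clT_cls, clT_cls]
    have h1 := evT_B (h n z hz)
    rw [map_add] at h1
    exact CharTwo.add_eq_zero.1 h1
  · intro h n z hz
    refine TT_mem_B (Submodule.add_mem _ (A3C1_Z a hz) (A3C1_Z b hz)) ?_
    have h1 := congrArg (fun f : Hc Z n => f ((lin Z).cls z hz)) (h n)
    rw [clT_cls, clT_cls] at h1
    rw [map_add, h1]
    exact CharTwo.add_self_eq_zero _

theorem TT_surj {Z : SS} (y : CR Z) : ∃ a : Hom Z TT.ss, ∀ n, clW (evH n) a = y n := by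
  obtain ⟨f, hf⟩ := exists_hom (P := lin Z) (Q := TT) (fun n =>
    ((LinearEquiv.ofBijective (evH n) (evH_bijective n)).symm.toLinearMap).comp (y n))
  let a : Hom Z TT.ss := ⟨fun n x => f.app n (Finsupp.single x 1), fun {m n} g x => by
    show f.app m (Finsupp.single (Z.act g x) 1) = TT.act g (f.app n (Finsupp.single x 1))
    rw [← f.nat]
    congr 1
    show _ = Finsupp.mapDomain (Z.act g) (Finsupp.single x 1)
    rw [Finsupp.mapDomain_single]⟩
  have ha : ∀ n, linExt (W := TT) a.app n = f.app n := by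
    intro n
    refine Finsupp.lhom_ext fun x c => ?_
    rw [linExt_single]
    show c • f.app n (Finsupp.single x 1) = f.app n (Finsupp.single x c)
    rw [← map_smul, Finsupp.smul_single, smul_eq_mul, mul_one]
  refine ⟨a, fun n => A3C1_ext fun z hz => ?_⟩
  rw [clT_cls, ha]
  obtain ⟨hfz, h⟩ := hf n z hz
  rw [← evH_cls n _ hfz, h]
  exact (LinearEquiv.ofBijective (evH n) (evH_bijective n)).apply_symm_apply _

/-- homogeneous component of a map into `TT` -/
def homPr (n : ℕ) {Z : SS} (a : Hom Z TT.ss) : Hom Z TT.ss :=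
  ⟨fun m x => (prT n).app m (a.app m x), fun {m k} f x => by
    show (prT n).app m (a.app m (Z.act f x)) = TT.act f ((prT n).app k (a.app k x))
    rw [a.nat]; exact (prT n).nat f _⟩

theorem homPr_isHom (n : ℕ) {Z : SS} (a : Hom Z TT.ss) (k : ℕ) (x : Z.S k) :
    IsHom n ((homPr n a).app k x).1 := prT_isHom n _

theorem homPr_of_isHom {n : ℕ} {Z : SS} {a : Hom Z TT.ss}
    (ha : ∀ k x, IsHom n (a.app k x).1) : homPr n a = a := by
  refine Hom.ext (funext fun k => funext fun x => Subtype.ext (funext fun l => ?_))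
  show (if l.length = n then (a.app k x).1 l else 0) = (a.app k x).1 l
  split_ifs with h
  · rfl
  · exact (ha k x l h).symm

private theorem A3C1_linExt (n : ℕ) {Z : SS} (a : Hom Z TT.ss) (k : ℕ) (z : Ch Z k) :
    linExt (W := TT) (homPr n a).app k z = (prT n).app k (linExt (W := TT) a.app k z) := by
  have h : linExt (W := TT) (homPr n a).app k =
      ((prT n).app k).comp (linExt (W := TT) a.app k) := by
    refine Finsupp.lhom_ext fun x c => ?_
    rw [linExt_single]
    show c • (prT n).app k (a.app k x) = (prT n).app k (linExt a.app k (Finsupp.single x c))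
    rw [linExt_single, map_smul]
  rw [h]
  rfl

theorem clT_homPr (n : ℕ) {Z : SS} (a : Hom Z TT.ss) :
    clW (evH n) (homPr n a) = clW (evH n) a := by
  refine A3C1_ext fun z hz => ?_
  rw [clT_cls, clT_cls, A3C1_linExt, evT_apply, prT_apply, if_pos (pathL_length n)]
  rfl

theorem clT_of_isHom {n m : ℕ} (hm : m ≠ n) {Z : SS} {a : Hom Z TT.ss}
    (ha : ∀ k x, IsHom n (a.app k x).1) : clW (evH m) a = 0 := by
  refine A3C1_ext fun z hz => ?_
  rw [clT_cls, ← homPr_of_isHom ha, A3C1_linExt, evT_apply, prT_apply,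
    if_neg (by rw [pathL_length]; exact hm)]
  rfl

theorem exists_homog {Z : SS} (n : ℕ) (y : Hc Z n) :
    ∃ a : Hom Z TT.ss, (∀ k x, IsHom n (a.app k x).1) ∧ clW (evH n) a = y := by
  obtain ⟨a, ha⟩ := TT_surj (CR.hom n y)
  refine ⟨homPr n a, homPr_isHom n a, ?_⟩
  rw [clT_homPr, ha n]
  exact Pi.single_eq_same (M := fun n => Hc Z n) n y

theorem htp_homPr {Z : SS} (n : ℕ) {a b : Hom Z TT.ss}
    (h : clW (evH n) a = clW (evH n) b) : Htp (homPr n a) (homPr n b) := by
  rw [htp_TT_iff]
  intro m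
  by_cases hm : m = n
  · subst hm
    rw [clT_homPr, clT_homPr, h]
  · rw [clT_of_isHom hm (homPr_isHom n a), clT_of_isHom hm (homPr_isHom n b)]

/-- the total class of a map into `TT` -/
noncomputable def clA {Z : SS} (a : Hom Z TT.ss) : CR Z := fun n => clW (evH n) a

theorem clA_isHom {Z : SS} {n : ℕ} {a : Hom Z TT.ss} (ha : ∀ k x, IsHom n (a.app k x).1) :
    clA a = CR.hom n (clW (evH n) a) := by
  funext m
  by_cases hm : m = n
  · subst hm
    exact (Pi.single_eq_same (M := fun n => Hc Z n) m _).symm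
  · exact (clT_of_isHom hm ha).trans
      (Pi.single_eq_of_ne (M := fun n => Hc Z n) hm _).symm

end MM
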