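import Pool.Agent.Lib_MP_33f7bb_d.A3KL
import Pool.Agent.Lib_MP_33f7bb_d.A008
import Pool.Agent.Lib_MP_33f7bb_d.A009
import Pool.Agent.Lib_MP_33f7bb_d.A015

/-!
# A3-06: representability of cohomology by Eilenberg-MacLane objects

`IsEM n W u`: `H_j W = 0` for `j ≠ n` and `u : H_n W ≅ F`.
* `clW_cls`: value of `clW u a` on a cycle (`linExt`).
* `em_surj`: `exists_hom` (A009) for `lin Z → W` with `φ_n = u⁻¹ ∘ y` (linear, `u` bijective: `LinearEquiv.ofBijective`), `φ_j = 0`
  for `j ≠ n`; the linear map `f : lin Z → W` is `linHom` of `x ↦ f (single x 1)`.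
* `em_htp`: `htp_iff` (A008) and: a cycle `w ∈ W.Z n` is a boundary iff `u [w] = 0`; cycles of other degrees are boundaries.
* `em_surj_pt`: the same with `R Z z₀` in place of `lin Z` (`exists_hom`); the linear map `f : R Z z₀ → W` is `R.lift` of
  `x ↦ f (R.of x)` (`R.ext`).
* `red_clR`: `linHom a = (R.lift z₀ a ha) ∘ R.pr` (check on `single x 1`).
* `clW_lin`, `clW_id`: naturality for linear maps `W → W'`.
-/

open scoped TensorProduct

namespace MM

private theorem A3EM_ext {P : SV} {n : ℕ} {x y : Module.Dual (ZMod 2) (P.H n)}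
    (h : ∀ (z : P.V n) (hz : z ∈ P.Z n), x (P.cls z hz) = y (P.cls z hz)) : x = y := by
  apply LinearMap.ext
  intro w
  obtain ⟨⟨z, hz⟩, rfl⟩ := Submodule.Quotient.mk_surjective _ w
  exact h z hz

private theorem A3EM_cls_congr {P : SV} {n : ℕ} {z w : P.V n} (hz : z ∈ P.Z n) (hw : w ∈ P.Z n)
    (h : z = w) : P.cls z hz = P.cls w hw := by
  subst h
  rfl

private theorem A3EM_cls_eq {P : SV} {n : ℕ} {z w : P.V n} (hz : z ∈ P.Z n) (hw : w ∈ P.Z n) :
    P.cls z hz = P.cls w hw ↔ z + w ∈ P.B n := by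
  unfold SV.cls
  rw [Submodule.Quotient.eq, Submodule.mem_comap]
  have h : ((P.Z n).subtype (⟨z, hz⟩ - ⟨w, hw⟩ : P.Z n)) = z - w := rfl
  rw [h, sub_eq']

private theorem A3EM_linExt_single' {Z : SS} {W : SV} (f : SVHom (lin Z) W) (n : ℕ) (z : Ch Z n) :
    linExt (W := W) (fun m (x : Z.S m) => (f.app m (Finsupp.single x 1) : W.V m)) n z =
      f.app n z := by
  induction z using Finsupp.induction_linear with
  | zero => rw [map_zero, map_zero]
  | add x y hx hy => rw [map_add, hx, hy]; exact (map_add (f.app n) x y).symm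
  | single x c =>
    rw [linExt_single, ← map_smul, Finsupp.smul_single, smul_eq_mul, mul_one]

private theorem A3EM_linExt_add {Z : SS} {W : SV} (a b : Hom Z W.ss) (n : ℕ) (z : Ch Z n) :
    linExt (homAdd a b).app n z = linExt a.app n z + linExt b.app n z := by
  induction z using Finsupp.induction_linear with
  | zero => rw [map_zero, map_zero, map_zero, add_zero]
  | add x y hx hy => rw [map_add, map_add, map_add, hx, hy]; abel
  | single x c =>
    rw [linExt_single, linExt_single, linExt_single, ← smul_add]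
    rfl

private theorem A3EM_linExt_lin {Z : SS} {W W' : SV} (g : SVHom W W') (a : Hom Z W.ss)
    (b : Hom Z W'.ss) (h : ∀ n x, b.app n x = g.app n (a.app n x)) (n : ℕ) (z : Ch Z n) :
    linExt b.app n z = g.app n (linExt a.app n z) := by
  induction z using Finsupp.induction_linear with
  | zero => rw [map_zero, map_zero, map_zero]
  | add x y hx hy => rw [map_add, map_add, map_add, hx, hy]
  | single x c =>
    rw [linExt_single, linExt_single, map_smul, h]

theorem clW_cls {Z : SS} {W : SV} {n : ℕ} (u : Module.Dual (ZMod 2) (W.H n)) (a : Hom Z W.ss)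
    (z : Ch Z n) (hz : z ∈ (lin Z).Z n) :
    clW u a ((lin Z).cls z hz) = u (W.cls (linExt a.app n z) ((linHom a).map_Z hz)) := rfl

theorem clW_comp {Z Z' : SS} {W : SV} {n : ℕ} (u : Module.Dual (ZMod 2) (W.H n))
    (a : Hom Z' W.ss) (f : Hom Z Z') : clW u (a.comp f) = Hc.map f n (clW u a) := by
  apply A3EM_ext
  intro z hz
  show u (W.cls (linExt (a.comp f).app n z) _) = u (W.cls (linExt a.app n (z.mapDomain (f.app n))) _)
  congr 1
  apply A3EM_cls_congr
  show Finsupp.linearCombination (ZMod 2) ((a.comp f).app n) z =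
    Finsupp.linearCombination (ZMod 2) (a.app n) (z.mapDomain (f.app n))
  rw [Finsupp.linearCombination_mapDomain]
  rfl

theorem clW_add {Z : SS} {W : SV} {n : ℕ} (u : Module.Dual (ZMod 2) (W.H n))
    (a b : Hom Z W.ss) : clW u (homAdd a b) = clW u a + clW u b := by
  apply A3EM_ext
  intro z hz
  have h1 := A3EM_linExt_add a b n z
  have h2 : clW u (homAdd a b) ((lin Z).cls z hz) =
      u (W.cls (linExt a.app n z + linExt b.app n z)
        (Submodule.add_mem _ ((linHom a).map_Z hz) ((linHom b).map_Z hz))) := by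
    show u (W.cls (linExt (homAdd a b).app n z) _) = _
    congr 1
    exact A3EM_cls_congr _ _ h1
  rw [h2]
  show _ = u (W.cls (linExt a.app n z) ((linHom a).map_Z hz)) +
    u (W.cls (linExt b.app n z) ((linHom b).map_Z hz))
  rw [← map_add]
  rfl

/-- every map is the pull back of the class of the identity -/
theorem clW_id {Z : SS} {W : SV} {n : ℕ} (u : Module.Dual (ZMod 2) (W.H n)) (a : Hom Z W.ss) :
    clW u a = Hc.map a n (clW u (Hom.id W.ss)) :=
  clW_comp u (Hom.id W.ss) a

theorem clW_lin {Z : SS} {W W' : SV} {n : ℕ} (u : Module.Dual (ZMod 2) (W'.H n))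
    (g : SVHom W W') (a : Hom Z W.ss) :
    clW u (⟨fun m x => g.app m (a.app m x), fun {m k} f x => by
      show g.app m (a.app m (Z.act f x)) = W'.act f (g.app k (a.app k x))
      rw [a.nat]; exact g.nat f _⟩ : Hom Z W'.ss) = clW (u.comp (SV.Hmap g n)) a := by
  apply A3EM_ext
  intro z hz
  show u (W'.cls _ _) = u (W'.cls (g.app n (linExt a.app n z)) _)
  congr 1
  apply A3EM_cls_congr
  exact A3EM_linExt_lin g a _ (fun _ _ => rfl) n z

theorem clW_htp {Z : SS} {W : SV} {n : ℕ} (u : Module.Dual (ZMod 2) (W.H n))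
    {a b : Hom Z W.ss} (h : Htp a b) : clW u a = clW u b := by
  rw [htp_iff] at h
  apply A3EM_ext
  intro z hz
  rw [clW_cls, clW_cls]
  congr 1
  rw [A3EM_cls_eq]
  exact h n z hz

theorem em_htp {n : ℕ} {W : SV} {u : Module.Dual (ZMod 2) (W.H n)} (h : IsEM n W u) {Z : SS}
    (a b : Hom Z W.ss) : Htp a b ↔ clW u a = clW u b := by
  refine ⟨clW_htp u, fun hab => ?_⟩
  rw [htp_iff]
  intro m z hz
  by_cases hm : m = n
  · subst hm
    refine (A3EM_cls_eq ((linHom a).map_Z hz) ((linHom b).map_Z hz)).1 ?_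
    apply h.bij.1
    exact LinearMap.congr_fun hab ((lin Z).cls z hz)
  · exact h.low m hm _ (Submodule.add_mem _ ((linHom a).map_Z hz) ((linHom b).map_Z hz))

theorem em_surj {n : ℕ} {W : SV} {u : Module.Dual (ZMod 2) (W.H n)} (h : IsEM n W u) {Z : SS}
    (y : Hc Z n) : ∃ a : Hom Z W.ss, clW u a = y := by
  classical
  obtain ⟨f, hf⟩ := exists_hom (P := lin Z) (Q := W)
    (Function.update (fun _ => 0) n ((LinearEquiv.ofBijective u h.bij).symm.toLinearMap ∘ₗ y))
  refine ⟨⟨fun m x => f.app m (Finsupp.single x 1), fun {m k} g x => ?_⟩, ?_⟩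
  · show f.app m (Finsupp.single (Z.act g x) 1) = W.act g (f.app k (Finsupp.single x 1))
    rw [← f.nat]
    congr 1
    exact (Finsupp.mapDomain_single).symm
  · apply A3EM_ext
    intro z hz
    obtain ⟨hfz, h1⟩ := hf n z hz
    rw [Function.update_self] at h1
    refine Eq.trans (congrArg u (A3EM_cls_congr _ hfz (A3EM_linExt_single' f n z))) ?_
    rw [h1]
    exact (LinearEquiv.ofBijective u h.bij).apply_symm_apply _

theorem em_surj_pt {n : ℕ} {W : SV} {u : Module.Dual (ZMod 2) (W.H n)} (h : IsEM n W u) {Z : SS}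
    (z₀ : Z.S 0) (y : Module.Dual (ZMod 2) ((R Z z₀).H n)) :
    ∃ (a : Hom Z W.ss) (ha : a.app 0 z₀ = W.zv), clR u a ha = y := by
  classical
  obtain ⟨f, hf⟩ := exists_hom (P := R Z z₀) (Q := W)
    (Function.update (fun _ => 0) n ((LinearEquiv.ofBijective u h.bij).symm.toLinearMap ∘ₗ y))
  have h0 : (R.of z₀).app 0 z₀ = (0 : (R Z z₀).V 0) := by
    have h1 : Z.deg z₀ 0 = z₀ := by
      show Z.act _ z₀ = z₀
      have h1 : (cst 0 : Mo 0 0) = OrderHom.id := by
        ext i; simp [cst]
      rw [h1, Z.act_id]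
    have h2 := R.of_base z₀ 0
    rwa [h1] at h2
  have ha : (⟨fun m x => f.app m ((R.of z₀).app m x), fun {m k} g x => by
      show f.app m ((R.of z₀).app m (Z.act g x)) = W.act g (f.app k ((R.of z₀).app k x))
      rw [(R.of z₀).nat]
      exact f.nat g _⟩ : Hom Z W.ss).app 0 z₀ = W.zv := by
    show f.app 0 ((R.of z₀).app 0 z₀) = (0 : W.V 0)
    rw [h0, map_zero]
  refine ⟨_, ha, ?_⟩
  have h3 : R.lift z₀ _ ha = f := by
    apply R.ext
    intro m x
    rw [R.lift_of]
  show u.comp (SV.Hmap (R.lift z₀ _ ha) n) = y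
  rw [h3]
  apply A3EM_ext
  intro z hz
  obtain ⟨hfz, h1⟩ := hf n z hz
  rw [Function.update_self] at h1
  show u (W.cls (f.app n z) hfz) = _
  rw [h1]
  exact (LinearEquiv.ofBijective u h.bij).apply_symm_apply _

theorem red_clR {Z : SS} {z₀ : Z.S 0} {W : SV} {n : ℕ} (u : Module.Dual (ZMod 2) (W.H n))
    (a : Hom Z W.ss) (ha : a.app 0 z₀ = W.zv) : red z₀ n (clR u a ha) = clW u a := by
  apply A3EM_ext
  intro z hz
  rfl

/-- `K'(n)` is an Eilenberg-MacLane object (A0-15) -/
theorem exists_KKev (n : ℕ) : ∃ u : Module.Dual (ZMod 2) ((KK n).H n), IsEM n (KK n) u := by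
  have hc : ∀ c : ZMod 2, c = 0 ∨ c = 1 := by decide
  have hio : (KK n).cls (KK.iota n) (KK_iota_mem_Z n) ≠ 0 := by
    intro h
    apply KK_iota_not_mem_B n
    have h1 : (⟨KK.iota n, KK_iota_mem_Z n⟩ : (KK n).Z n) ∈
        Submodule.comap ((KK n).Z n).subtype ((KK n).B n) := (Submodule.Quotient.mk_eq_zero _).1 h
    exact h1
  have hb : Function.Bijective (LinearMap.toSpanSingleton (ZMod 2) ((KK n).H n)
      ((KK n).cls (KK.iota n) (KK_iota_mem_Z n))) := by
    constructor
    · rw [injective_iff_map_eq_zero]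
      intro c h
      rcases hc c with rfl | rfl
      · rfl
      · rw [LinearMap.toSpanSingleton_apply, one_smul] at h
        exact absurd h hio
    · intro w
      obtain ⟨⟨z, hz⟩, rfl⟩ := Submodule.Quotient.mk_surjective _ w
      rcases KK_homology n n z hz with h | ⟨_, h⟩
      · refine ⟨0, ?_⟩
        rw [map_zero]
        exact ((Submodule.Quotient.mk_eq_zero _).2 (show (⟨z, hz⟩ : (KK n).Z n) ∈
          Submodule.comap ((KK n).Z n).subtype ((KK n).B n) from h)).symm
      · refine ⟨1, ?_⟩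
        rw [LinearMap.toSpanSingleton_apply, one_smul]
        exact ((A3EM_cls_eq hz (KK_iota_mem_Z n)).2 h).symm
  refine ⟨(LinearEquiv.ofBijective _ hb).symm.toLinearMap, ?_, ?_⟩
  · intro j hj z hz
    rcases KK_homology n j z hz with h | ⟨h, -⟩
    · exact h
    · exact absurd h hj
  · exact (LinearEquiv.ofBijective _ hb).symm.bijective

end MM
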