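import Pool.Agent.Lib_MP_33f7bb_d.A3T1

/-!
# A3-K0: the power operation `kap_e(f, g)` on additive functions (definitions)

`kap e f g` is defined by recursion on the list (two slots at a time):
`kap e f g [] = f [] * g []`, `kap e f g [x] = 0`,
`kap e f g (x :: y :: l) = kap e (f_x) (g_y) l + ∑_(a ∈ {x.1,x.2}) ∑_(b ∈ {y.1,y.2}) e (min a b) * kap e (f_(a,b)) (g_(a,b)) l`.
-/

open scoped TensorProduct

namespace MM

/-- the power operation (list recursion) -/
def kapL {m : ℕ} (e : Fin (m + 1) → ZMod 2) :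
    List (PR m) → NC (PR m) → NC (PR m) → ZMod 2
  | [], f, g => f [] * g []
  | [_], _, _ => 0
  | x :: y :: l, f, g => kapL e l (hd f x) (hd g y) +
      ((e (min x.1 y.1) * kapL e l (hd f (x.1, y.1)) (hd g (x.1, y.1)) +
        e (min x.1 y.2) * kapL e l (hd f (x.1, y.2)) (hd g (x.1, y.2))) +
       (e (min x.2 y.1) * kapL e l (hd f (x.2, y.1)) (hd g (x.2, y.1)) +
        e (min x.2 y.2) * kapL e l (hd f (x.2, y.2)) (hd g (x.2, y.2))))

/-- the power operation -/
def kap {m : ℕ} (e : Fin (m + 1) → ZMod 2) (f g : NC (PR m)) : NC (PR m) := fun l => kapL e l f g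

theorem kap_nil {m : ℕ} (e : Fin (m + 1) → ZMod 2) (f g : NC (PR m)) :
    kap e f g [] = f [] * g [] := rfl

theorem kap_one {m : ℕ} (e : Fin (m + 1) → ZMod 2) (f g : NC (PR m)) (x : PR m) :
    kap e f g [x] = 0 := rfl

theorem kap_cons {m : ℕ} (e : Fin (m + 1) → ZMod 2) (f g : NC (PR m)) (x y : PR m)
    (l : List (PR m)) :
    kap e f g (x :: y :: l) = kap e (hd f x) (hd g y) l +
      ((e (min x.1 y.1) * kap e (hd f (x.1, y.1)) (hd g (x.1, y.1)) l +
        e (min x.1 y.2) * kap e (hd f (x.1, y.2)) (hd g (x.1, y.2)) l) +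
       (e (min x.2 y.1) * kap e (hd f (x.2, y.1)) (hd g (x.2, y.1)) l +
        e (min x.2 y.2) * kap e (hd f (x.2, y.2)) (hd g (x.2, y.2)) l)) := rfl

/-- induction on lists, two elements at a time -/
theorem list_ind2 {X : Type} {C : List X → Prop} (h0 : C []) (h1 : ∀ x, C [x])
    (h2 : ∀ x y l, C l → C (x :: y :: l)) : ∀ l, C l
  | [] => h0
  | [x] => h1 x
  | x :: y :: l => h2 x y l (list_ind2 h0 h1 h2 l)

end MM
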