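import Pool.Agent.Lib_MP_33f7bb_d.A3K0

/-!
# A3-02: the power operation: bilinear, additive, natural, equivariant

All statements by induction on the list (two slots at a time, `list_ind2`), with `f` and `g` generalised, from `kap_cons`.

* bilinearity, smul: immediate (`hd (f + f') x = hd f x + hd f' x`).
* `kap_isAdd`: induction on the list `l₁` in front of the slot.  `l₁ = []`: for `l₂ = []` all three values are `0`; for
  `l₂ = y :: l`: the first term is additive in `x` because `hd f (a,c) = hd f (a,b) + hd f (b,c)` (`IsAdd.first`); the other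
  terms are `S a + S c` where `S a = ∑_(b' ∈ {y.1,y.2}) e (min a b') * kap e (hd f (a,b')) (hd g (a,b')) l`, and
  `S a + S c = (S a + S b) + (S b + S c)`.  `l₁ = [x]`: the same for the slot `y`.
  `l₁ = x :: y :: l`: induction hypothesis for the five pairs of functions (`IsAdd.hd`).
* `kap_map`: `θ` monotone: `θ (min a b) = min (θ a) (θ b)` (`OrderHom`: `map_min`/`Monotone.map_min`).
* `kap_equiv`: induction on `l`.  At `x :: y :: l`, with `B u v := kap e (hd f u) (hd g v) l` (additive in `u` and in `v`, as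
  `f, g` are additive and `kap` is bilinear), the induction hypothesis gives that the two sides differ by
  `B y x + B x y + ∑_(a ∈ {x.1,x.2}) ∑_(b ∈ {y.1,y.2}) B (a,b) (a,b)`.
  With `(a,b) = (a,0) + (0,b)`: `B (a,b) (a,b) = B (a,0) (a,0) + B (a,0) (0,b) + B (0,b) (a,0) + B (0,b) (0,b)`.  In the sum over
  `a, b` the first and the last term appear twice each (cancel), and `∑_a B(a,0) · = B x ·` (`(x.1,0) + (0,x.2) = x` and
  symmetry `IsAdd.symm`), so the two middle terms give `B x y + B y x`.  Everything cancels in characteristic 2.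
* `kap_congr`: the value on a list of length `2 n` depends only on the values of `f`, `g` on lists of length `n`.
* `kap_odd`: `0` on lists of odd length.
-/

open scoped TensorProduct

namespace MM

private theorem A3K1_addL {m : ℕ} (e : Fin (m + 1) → ZMod 2) (l : List (PR m)) :
    ∀ f f' g : NC (PR m), kap e (f + f') g l = kap e f g l + kap e f' g l := by
  induction l using list_ind2 with
  | h0 =>
    intro f f' g
    simp only [kap_nil, Pi.add_apply]
    ring
  | h1 x =>
    intro f f' g
    simp only [kap_one, add_zero]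
  | h2 x y l ih =>
    intro f f' g
    simp only [kap_cons, hd_add, ih]
    ring

private theorem A3K1_addR {m : ℕ} (e : Fin (m + 1) → ZMod 2) (l : List (PR m)) :
    ∀ f g g' : NC (PR m), kap e f (g + g') l = kap e f g l + kap e f g' l := by
  induction l using list_ind2 with
  | h0 =>
    intro f g g'
    simp only [kap_nil, Pi.add_apply]
    ring
  | h1 x =>
    intro f g g'
    simp only [kap_one, add_zero]
  | h2 x y l ih =>
    intro f g g'
    simp only [kap_cons, hd_add, ih]
    ring

private theorem A3K1_hd_smul {X : Type} (r : ZMod 2) (f : NC X) (x : X) :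
    hd (r • f) x = r • hd f x := rfl

private theorem A3K1_smulL {m : ℕ} (e : Fin (m + 1) → ZMod 2) (r : ZMod 2) (l : List (PR m)) :
    ∀ f g : NC (PR m), kap e (r • f) g l = r * kap e f g l := by
  induction l using list_ind2 with
  | h0 =>
    intro f g
    simp only [kap_nil, Pi.smul_apply, smul_eq_mul]
    ring
  | h1 x =>
    intro f g
    simp only [kap_one, mul_zero]
  | h2 x y l ih =>
    intro f g
    simp only [kap_cons, A3K1_hd_smul, ih]
    ring

private theorem A3K1_smulR {m : ℕ} (e : Fin (m + 1) → ZMod 2) (r : ZMod 2) (l : List (PR m)) :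
    ∀ f g : NC (PR m), kap e f (r • g) l = r * kap e f g l := by
  induction l using list_ind2 with
  | h0 =>
    intro f g
    simp only [kap_nil, Pi.smul_apply, smul_eq_mul]
    ring
  | h1 x =>
    intro f g
    simp only [kap_one, mul_zero]
  | h2 x y l ih =>
    intro f g
    simp only [kap_cons, A3K1_hd_smul, ih]
    ring

theorem kap_add_left {m : ℕ} (e : Fin (m + 1) → ZMod 2) (f f' g : NC (PR m)) :
    kap e (f + f') g = kap e f g + kap e f' g := by
  funext l
  exact A3K1_addL e l f f' g

theorem kap_add_right {m : ℕ} (e : Fin (m + 1) → ZMod 2) (f g g' : NC (PR m)) :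
    kap e f (g + g') = kap e f g + kap e f g' := by
  funext l
  exact A3K1_addR e l f g g'

theorem kap_smul_left {m : ℕ} (e : Fin (m + 1) → ZMod 2) (r : ZMod 2) (f g : NC (PR m)) :
    kap e (r • f) g = r • kap e f g := by
  funext l
  exact A3K1_smulL e r l f g

theorem kap_smul_right {m : ℕ} (e : Fin (m + 1) → ZMod 2) (r : ZMod 2) (f g : NC (PR m)) :
    kap e f (r • g) = r • kap e f g := by
  funext l
  exact A3K1_smulR e r l f g

theorem kap_isAdd {m : ℕ} (e : Fin (m + 1) → ZMod 2) {f g : NC (PR m)} (hf : IsAdd f)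
    (hg : IsAdd g) : IsAdd (kap e f g) := by
  have h2 : ∀ t : ZMod 2, t + t = 0 := CharTwo.add_self_eq_zero
  intro l₁
  induction l₁ using list_ind2 generalizing f g with
  | h0 =>
    intro l₂ a b c
    rcases l₂ with _ | ⟨y, l⟩
    · show kap e f g [(a, c)] = kap e f g [(a, b)] + kap e f g [(b, c)]
      rw [kap_one, kap_one, kap_one, add_zero]
    · show kap e f g ((a, c) :: y :: l) = kap e f g ((a, b) :: y :: l) +
        kap e f g ((b, c) :: y :: l)
      rw [kap_cons, kap_cons, kap_cons, hf.first a b c, A3K1_addL]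
      linear_combination -(h2 (e (min b y.1) * kap e (MM.hd f (b, y.1)) (MM.hd g (b, y.1)) l +
        e (min b y.2) * kap e (MM.hd f (b, y.2)) (MM.hd g (b, y.2)) l))
  | h1 x =>
    intro l₂ a b c
    show kap e f g (x :: (a, c) :: l₂) = kap e f g (x :: (a, b) :: l₂) +
      kap e f g (x :: (b, c) :: l₂)
    rw [kap_cons, kap_cons, kap_cons, hg.first a b c, A3K1_addR]
    linear_combination -(h2 (e (min x.1 b) * kap e (MM.hd f (x.1, b)) (MM.hd g (x.1, b)) l₂ +
      e (min x.2 b) * kap e (MM.hd f (x.2, b)) (MM.hd g (x.2, b)) l₂))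
  | h2 x y l ih =>
    intro l₂ a b c
    show kap e f g (x :: y :: (l ++ (a, c) :: l₂)) = kap e f g (x :: y :: (l ++ (a, b) :: l₂)) +
      kap e f g (x :: y :: (l ++ (b, c) :: l₂))
    have ih' : ∀ u v : PR m, kap e (MM.hd f u) (MM.hd g v) (l ++ (a, c) :: l₂) =
        kap e (MM.hd f u) (MM.hd g v) (l ++ (a, b) :: l₂) +
          kap e (MM.hd f u) (MM.hd g v) (l ++ (b, c) :: l₂) :=
      fun u v => ih (hf.hd u) (hg.hd v) l₂ a b c
    rw [kap_cons, kap_cons, kap_cons, ih', ih', ih', ih', ih']
    ring

theorem kap_map {m n : ℕ} (θ : Mo m n) (e : Fin (n + 1) → ZMod 2) (f g : NC (PR n))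
    (l : List (PR m)) :
    kap (fun i => e (θ i)) (fun l => f (l.map (prMap θ))) (fun l => g (l.map (prMap θ))) l =
      kap e f g (l.map (prMap θ)) := by
  induction l using list_ind2 generalizing f g with
  | h0 => rfl
  | h1 x => rfl
  | h2 x y l ih =>
    have ih' : ∀ u v : PR m, kap (fun i => e (θ i)) (hd (fun l => f (l.map (prMap θ))) u)
        (hd (fun l => g (l.map (prMap θ))) v) l =
        kap e (hd f (prMap θ u)) (hd g (prMap θ v)) (l.map (prMap θ)) :=
      fun u v => ih (hd f (prMap θ u)) (hd g (prMap θ v))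
    have hmin : ∀ a b : Fin (m + 1), e (θ (min a b)) = e (min (θ a) (θ b)) := fun a b => by
      rw [θ.monotone.map_min]
    rw [List.map_cons, List.map_cons, kap_cons, kap_cons, ih', ih', ih', ih', ih',
      hmin, hmin, hmin, hmin]
    rfl

theorem kap_equiv {m : ℕ} (e : Fin (m + 1) → ZMod 2) {f g : NC (PR m)} (hf : IsAdd f)
    (hg : IsAdd g) : kap (fun i => e i + 1) g f = kap e f g := by
  have h2 : (2 : ZMod 2) = 0 := rfl
  funext l
  induction l using list_ind2 generalizing f g with
  | h0 =>
    rw [kap_nil, kap_nil, mul_comm]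
  | h1 x => rfl
  | h2 x y l ih =>
    have ih' : ∀ u v : PR m, kap (fun i => e i + 1) (MM.hd g v) (MM.hd f u) l =
        kap e (MM.hd f u) (MM.hd g v) l := fun u v => ih (hf.hd u) (hg.hd v)
    have hB : ∀ u v : PR m, kap e (MM.hd f u) (MM.hd g v) l =
        kap e (MM.hd f (u.1, 0)) (MM.hd g (v.1, 0)) l +
        kap e (MM.hd f (u.1, 0)) (MM.hd g (v.2, 0)) l +
        kap e (MM.hd f (u.2, 0)) (MM.hd g (v.1, 0)) l +
        kap e (MM.hd f (u.2, 0)) (MM.hd g (v.2, 0)) l := by
      intro u v
      have hf1 : MM.hd f u = MM.hd f (u.1, 0) + MM.hd f (u.2, 0) := by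
        have e1 : MM.hd f (u.1, u.2) = MM.hd f (u.1, 0) + MM.hd f (0, u.2) := hf.first _ _ _
        have e2 : MM.hd f (0, u.2) = MM.hd f (u.2, 0) := funext fun l => hf.symm [] l 0 u.2
        rw [e2] at e1
        exact e1
      have hg1 : MM.hd g v = MM.hd g (v.1, 0) + MM.hd g (v.2, 0) := by
        have e1 : MM.hd g (v.1, v.2) = MM.hd g (v.1, 0) + MM.hd g (0, v.2) := hg.first _ _ _
        have e2 : MM.hd g (0, v.2) = MM.hd g (v.2, 0) := funext fun l => hg.symm [] l 0 v.2
        rw [e2] at e1
        exact e1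
      rw [hf1, hg1, A3K1_addL, A3K1_addR, A3K1_addR]
      ring
    obtain ⟨β, hβ⟩ : ∃ β : Fin (m + 1) → Fin (m + 1) → ZMod 2,
        ∀ a b, kap e (MM.hd f (a, 0)) (MM.hd g (b, 0)) l = β a b := ⟨_, fun _ _ => rfl⟩
    have hB' : ∀ u v : PR m, kap e (MM.hd f u) (MM.hd g v) l =
        β u.1 v.1 + β u.1 v.2 + β u.2 v.1 + β u.2 v.2 := by
      intro u v
      rw [hB u v, hβ, hβ, hβ, hβ]
    rw [kap_cons, kap_cons, ih', ih', ih', ih', ih']
    simp only [hB']
    linear_combination (β y.1 x.1 + β y.1 x.2 + β y.2 x.1 + β y.2 x.2 + β x.1 x.1 + β x.2 x.2 +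
      β y.1 y.1 + β y.2 y.2) * h2

theorem kap_congr {m n : ℕ} (e : Fin (m + 1) → ZMod 2) {f f' g g' : NC (PR m)}
    (hf : ∀ l, l.length = n → f l = f' l) (hg : ∀ l, l.length = n → g l = g' l)
    (l : List (PR m)) (hl : l.length = 2 * n) : kap e f g l = kap e f' g' l := by
  induction l using list_ind2 generalizing n f f' g g' with
  | h0 =>
    have hn : n = 0 := by
      simp only [List.length_nil] at hl
      omega
    rw [kap_nil, kap_nil, hf [] (by rw [hn]; rfl), hg [] (by rw [hn]; rfl)]
  | h1 x => rfl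
  | h2 x y l ih =>
    obtain ⟨k, rfl⟩ : ∃ k, n = k + 1 := ⟨n - 1, by
      simp only [List.length_cons] at hl
      omega⟩
    have hl' : l.length = 2 * k := by
      simp only [List.length_cons] at hl
      omega
    have ih' : ∀ u v : PR m, kap e (hd f u) (hd g v) l = kap e (hd f' u) (hd g' v) l :=
      fun u v => ih (n := k) (fun l hl => hf (u :: l) (by rw [List.length_cons, hl]))
        (fun l hl => hg (v :: l) (by rw [List.length_cons, hl])) hl'
    rw [kap_cons, kap_cons, ih', ih', ih', ih', ih']

theorem kap_odd {m : ℕ} (e : Fin (m + 1) → ZMod 2) (f g : NC (PR m)) (l : List (PR m))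
    (hl : ¬ Even l.length) : kap e f g l = 0 := by
  induction l using list_ind2 generalizing f g with
  | h0 => exact absurd (by simp) hl
  | h1 x => rfl
  | h2 x y l ih =>
    have hl' : ¬ Even l.length := by
      intro h
      apply hl
      simp only [List.length_cons]
      obtain ⟨r, hr⟩ := h
      exact ⟨r + 1, by omega⟩
    rw [kap_cons, ih _ _ hl', ih _ _ hl', ih _ _ hl', ih _ _ hl', ih _ _ hl']
    simp

end MM
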