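import Pool.Agent.Lib_MP_33f7bb_d.A3K1

/-!
# A3-03: the power operation is strictly multiplicative; the case `e = 0`

* `kap_mul`: `f, f'` homogeneous of the same degree `p`, `g, g'` arbitrary: `kap e (f g) (f' g') = kap e f f' · kap e g g'`
  (concatenation products).  Induction on `p`, `f, f'` generalised.
  `p = 0`: `f = f [] • 1`, `f' = f' [] • 1` (`1 =` indicator of `[]`), `ncmul f g = f [] • g`, `ncmul f' g' = f' [] • g'`, and
  `kap e f f'` is `(f [] * f' []) • 1`.
  `p + 1`: compare values on a list by cases.  `[]`: both sides are `0` (`f [] = 0`).  `[x]`: left side `0`; right side: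
  `kap e f f' [] * _ + kap e f f' [x] * _ = 0`.  `x :: y :: l`: `hd (ncmul f g) x = ncmul (hd f x) g` (as `f [] = 0`), so by
  `kap_cons` and the induction hypothesis (`hd f u`, `hd f' v` homogeneous of degree `p`) the left side is
  `ncmul (kap e (hd f x) (hd f' y)) G l + ∑ e (min a b) * ncmul (kap e (hd f (a,b)) (hd f' (a,b))) G l`, `G = kap e g g'`.  The right
  side is `ncmul (hd (hd K x) y) G l`, `K = kap e f f'` (use `ncmul_cons` twice, `K [] = 0`, `K [x] = 0`), and
  `hd (hd K x) y = kap e (hd f x) (hd f' y) + ∑ e (min a b) • kap e (hd f (a,b)) (hd f' (a,b))`; bilinearity of `ncmul`.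
* `kap_zero`: for `e = 0` only the first term of `kap_cons` survives.
* `evens`/`odds`: entries at even / odd positions.
-/

open scoped TensorProduct

namespace MM

/-- the value on a list depends only on the values of `f` on lists of half the length -/
private theorem A3K2_van {m : ℕ} (e : Fin (m + 1) → ZMod 2) (l : List (PR m)) :
    ∀ f g : NC (PR m), (∀ l', 2 * l'.length = l.length → f l' = 0) → kap e f g l = 0 := by
  induction l using list_ind2 with
  | h0 =>
    intro f g h
    rw [kap_nil, h [] rfl, zero_mul]
  | h1 x =>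
    intro f g _
    exact kap_one e f g x
  | h2 x y l ih =>
    intro f g h
    have k : ∀ u v : PR m, kap e (hd f u) (hd g v) l = 0 := by
      intro u v
      refine ih (hd f u) (hd g v) fun l' hl' => ?_
      show f (u :: l') = 0
      refine h (u :: l') ?_
      rw [List.length_cons, List.length_cons, List.length_cons]
      omega
    rw [kap_cons, k, k, k, k, k]
    simp only [mul_zero, add_zero]

private theorem A3K2_isHom {m : ℕ} (e : Fin (m + 1) → ZMod 2) {p : ℕ} {f f' : NC (PR m)}
    (hf : IsHom p f) : IsHom (2 * p) (kap e f f') := by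
  intro l hl
  refine A3K2_van e l f f' fun l' hl' => hf l' ?_
  intro h
  apply hl
  rw [← hl', h]

private theorem A3K2_hd {X : Type} {f : NC X} (g : NC X) (h : f [] = 0) (u : X) :
    hd (ncmul f g) u = ncmul (hd f u) g := by
  funext l
  show ncmul f g (u :: l) = ncmul (hd f u) g l
  rw [ncmul_cons, h, zero_mul, zero_add]

private theorem A3K2_hom0 {X : Type} {f : NC X} (hf : IsHom 0 f) (g : NC X) :
    ncmul f g = f [] • g := by
  funext l
  exact ncmul_of_hom hf g (l₁ := []) (l₂ := l) rfl

theorem kap_mul {m : ℕ} (e : Fin (m + 1) → ZMod 2) {p : ℕ} {f f' : NC (PR m)} (hf : IsHom p f)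
    (hf' : IsHom p f') (g g' : NC (PR m)) :
    kap e (ncmul f g) (ncmul f' g') = ncmul (kap e f f') (kap e g g') := by
  induction p generalizing f f' with
  | zero =>
    have hK : IsHom 0 (kap e f f') := A3K2_isHom e hf
    rw [A3K2_hom0 hf, A3K2_hom0 hf', A3K2_hom0 hK, kap_smul_left, kap_smul_right, kap_nil,
      smul_smul]
  | succ p ih =>
    have h0 : f [] = 0 := hf.nil
    have h0' : f' [] = 0 := hf'.nil
    have hu : ∀ u v : PR m, kap e (hd (ncmul f g) u) (hd (ncmul f' g') v) =
        ncmul (kap e (hd f u) (hd f' v)) (kap e g g') := by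
      intro u v
      rw [A3K2_hd g h0, A3K2_hd g' h0', ih (hf.hd u) (hf'.hd v)]
    funext l
    rcases l with _ | ⟨x, _ | ⟨y, l⟩⟩
    · rw [kap_nil, ncmul_nil, ncmul_nil, ncmul_nil, kap_nil, h0]
      simp only [zero_mul]
    · rw [kap_one, ncmul_cons, ncmul_nil, kap_nil, h0, zero_mul, zero_mul, zero_add]
      show 0 = kap e f f' [x] * _
      rw [kap_one, zero_mul]
    · rw [kap_cons, hu, hu, hu, hu, hu, ncmul_cons, kap_nil, h0, zero_mul, zero_mul, zero_add,
        ncmul_cons]
      have h1 : hd (kap e f f') x [] = 0 := kap_one e f f' x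
      rw [h1, zero_mul, zero_add]
      have h2 : hd (hd (kap e f f') x) y = kap e (hd f x) (hd f' y) +
          ((e (min x.1 y.1) • kap e (hd f (x.1, y.1)) (hd f' (x.1, y.1)) +
            e (min x.1 y.2) • kap e (hd f (x.1, y.2)) (hd f' (x.1, y.2))) +
           (e (min x.2 y.1) • kap e (hd f (x.2, y.1)) (hd f' (x.2, y.1)) +
            e (min x.2 y.2) • kap e (hd f (x.2, y.2)) (hd f' (x.2, y.2)))) := by
        funext l'
        exact kap_cons e f f' x y l'
      rw [h2]
      simp only [ncmul_add_left, ncmul_smul_left, Pi.add_apply, Pi.smul_apply, smul_eq_mul]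

theorem kap_isHom {m : ℕ} (e : Fin (m + 1) → ZMod 2) {p : ℕ} {f f' : NC (PR m)}
    (hf : IsHom p f) (hf' : IsHom p f') : IsHom (2 * p) (kap e f f') :=
  A3K2_isHom e hf

/-- entries at even positions -/
def evens {X : Type} : List X → List X
  | [] => []
  | [x] => [x]
  | x :: _ :: l => x :: evens l

/-- entries at odd positions -/
def odds {X : Type} : List X → List X
  | [] => []
  | [_] => []
  | _ :: y :: l => y :: odds l

theorem kap_zero {m : ℕ} (f g : NC (PR m)) (l : List (PR m)) (hl : Even l.length) :
    kap (fun _ => 0) f g l = f (evens l) * g (odds l) := by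
  induction l using list_ind2 generalizing f g with
  | h0 => exact kap_nil _ f g
  | h1 x => exact absurd hl (by simp)
  | h2 x y l ih =>
    have h : Even l.length := by
      rw [List.length_cons, List.length_cons] at hl
      rw [Nat.even_iff] at hl ⊢
      omega
    rw [kap_cons, ih _ _ h]
    simp only [zero_mul, add_zero]
    rfl

end MM
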