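import Pool.Agent.Lib_MP_33f7bb_d.A3K2

/-!
# A3-K3: the power operation on maps into `TT` (definitions, complete given `A3K1`)

`PP a : B × Z → TT`, `(b, σ) ↦ kap_b (a σ, a σ)`; `GG a a' : E-version for the cross terms`.
-/

open scoped TensorProduct

namespace MM

/-- the power operation on `TT` -/
def kapT {m : ℕ} (e : Fin (m + 1) → ZMod 2) (f g : TT.V m) : TT.V m :=
  ⟨kap e f.1 g.1, kap_isAdd e f.2 g.2⟩

theorem kapT_apply {m : ℕ} (e : Fin (m + 1) → ZMod 2) (f g : TT.V m) (l : List (PR m)) :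
    (kapT e f g).1 l = kap e f.1 g.1 l := rfl

theorem kapT_act {m n : ℕ} (θ : Mo m n) (e : Fin (n + 1) → ZMod 2) (f g : TT.V n) :
    kapT (fun i => e (θ i)) (TT.act θ f) (TT.act θ g) = TT.act θ (kapT e f g) :=
  Subtype.ext (funext fun l => kap_map θ e f.1 g.1 l)

theorem kapT_equiv {m : ℕ} (e : Fin (m + 1) → ZMod 2) (f g : TT.V m) :
    kapT (fun i => e i + 1) g f = kapT e f g :=
  Subtype.ext (kap_equiv e f.2 g.2)

theorem kapT_shift {m : ℕ} (e : Fin (m + 1) → ZMod 2) (c : ZMod 2) (f : TT.V m) :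
    kapT (fun i => e i - c) f f = kapT e f f := by
  have hc : c = 0 ∨ c = 1 := by
    revert c; decide
  rcases hc with rfl | rfl
  · simp only [sub_zero]
  · have : (fun i => e i - 1) = fun i => e i + 1 := funext fun i => CharTwo.sub_eq_add _ _
    rw [this]
    exact kapT_equiv e f f

theorem kapT_add_left {m : ℕ} (e : Fin (m + 1) → ZMod 2) (f f' g : TT.V m) :
    kapT e (f + f') g = kapT e f g + kapT e f' g :=
  Subtype.ext (kap_add_left e f.1 f'.1 g.1)

theorem kapT_add_right {m : ℕ} (e : Fin (m + 1) → ZMod 2) (f g g' : TT.V m) :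
    kapT e f (g + g') = kapT e f g + kapT e f g' :=
  Subtype.ext (kap_add_right e f.1 g.1 g'.1)

/-- `kapT e` as a bilinear map -/
noncomputable def kapTL {m : ℕ} (e : Fin (m + 1) → ZMod 2) :
    TT.V m →ₗ[ZMod 2] TT.V m →ₗ[ZMod 2] TT.V m :=
  LinearMap.mk₂ (ZMod 2) (kapT e) (kapT_add_left e)
    (fun r f g => Subtype.ext (kap_smul_left e r f.1 g.1)) (kapT_add_right e)
    (fun r f g => Subtype.ext (kap_smul_right e r f.1 g.1))

/-- `kap_0` as a map `TT ⊗ TT → TT` -/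
noncomputable def kap0 : SVHom (TT.tens TT) TT :=
  tensLift (fun _ => kapTL (fun _ => 0)) fun θ f g => kapT_act θ (fun _ => 0) f g

@[simp] theorem kap0_tmul (m : ℕ) (f g : TT.V m) :
    kap0.app m (f ⊗ₜ[ZMod 2] g) = kapT (fun _ => 0) f g := rfl

/-- the power operation `P(a) : B × Z → TT` -/
def PP {Z : SS} (a : Hom Z TT.ss) : Hom (BZ2.prod Z) TT.ss :=
  ⟨fun n x => kapT x.1.1 (a.app n x.2) (a.app n x.2), fun {m n} θ x => by
    show kapT (fun i => x.1.1 (θ i) - x.1.1 (θ 0)) (a.app m (Z.act θ x.2)) (a.app m (Z.act θ x.2)) =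
      TT.act θ (kapT x.1.1 (a.app n x.2) (a.app n x.2))
    rw [kapT_shift, a.nat]
    exact kapT_act θ x.1.1 (a.app n x.2) (a.app n x.2)⟩

theorem PP_app {Z : SS} (a : Hom Z TT.ss) (n : ℕ) (b : K1.V n) (x : Z.S n) :
    (PP a).app n (b, x) = kapT b.1 (a.app n x) (a.app n x) := rfl

/-- naturality of the power operation -/
theorem PP_comp {Z Z' : SS} (f : Hom Z Z') (a : Hom Z' TT.ss) :
    PP (a.comp f) = (PP a).comp (Hom.prodMap (Hom.id BZ2) f) := rfl

/-- the inclusion of `Z` at the base point of `B` -/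
def inclB (Z : SS) : Hom Z (BZ2.prod Z) :=
  ⟨fun n x => ((0 : K1.V n), x), fun {m n} f x => by
    show ((0 : K1.V m), Z.act f x) = (K1.act f 0, Z.act f x)
    rw [map_zero]⟩

/-- the identity class of `B` as a map into `TT`: `b ↦ ([x] ↦ b(x.1) + b(x.2))` -/
def xT : Hom BZ2 TT.ss :=
  ⟨fun n b => ⟨fun l => match l with
      | [x] => b.1 x.1 + b.1 x.2
      | _ => 0, by
      intro l₁ l₂ a c d
      rcases l₁ with _ | ⟨y, _ | ⟨z, l₁⟩⟩
      · rcases l₂ with _ | ⟨y, l₂⟩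
        · show b.1 a + b.1 d = (b.1 a + b.1 c) + (b.1 c + b.1 d)
          have := CharTwo.add_self_eq_zero (b.1 c)
          linear_combination -this
        · rfl
      · rcases l₂ with _ | ⟨z, l₂⟩ <;> rfl
      · rfl⟩, fun {m n} θ b => by
    apply Subtype.ext; funext l
    rcases l with _ | ⟨x, _ | ⟨y, l⟩⟩
    · rfl
    · show (b.1 (θ x.1) - b.1 (θ 0)) + (b.1 (θ x.2) - b.1 (θ 0)) = b.1 (θ x.1) + b.1 (θ x.2)
      have := CharTwo.add_self_eq_zero (b.1 (θ 0))
      linear_combination -this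
    · rfl⟩

theorem xT_one (n : ℕ) (b : K1.V n) (x : PR n) : (xT.app n b).1 [x] = b.1 x.1 + b.1 x.2 := rfl

theorem xT_isHom (n : ℕ) (b : K1.V n) : IsHom 1 (xT.app n b).1 := by
  intro l hl
  rcases l with _ | ⟨x, _ | ⟨y, l⟩⟩
  · rfl
  · exact absurd rfl hl
  · rfl

end MM
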