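import Pool.Agent.Lib_MP_33f7bb_d.A3Def

/-!
# A3-T0: the ring of additive functions on lists of pairs of vertices (definitions, complete)

`NC X` = functions `List X → ZMod 2`, concatenation product `ncmul`; `IsAdd` = additive in every slot;
`TT` = simplicial vector space of additive functions on lists of pairs of vertices; `evT n` = evaluation at
`[(0,1),(1,2),…,(n-1,n)]`.
-/

open scoped TensorProduct

namespace MM

/-- functions on lists with values in `ZMod 2` -/
abbrev NC (X : Type) := List X → ZMod 2

/-- fixing the first slot -/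
def hd {X : Type} (f : NC X) (x : X) : NC X := fun l => f (x :: l)

/-- auxiliary recursion for the concatenation product -/
def ncmulL {X : Type} (g : NC X) : List X → NC X → ZMod 2
  | [], f => f [] * g []
  | x :: l, f => f [] * g (x :: l) + ncmulL g l (hd f x)

/-- concatenation product `(f g)(l) = ∑_(l = l₁ ++ l₂) f l₁ * g l₂` -/
def ncmul {X : Type} (f g : NC X) : NC X := fun l => ncmulL g l f

theorem ncmul_nil {X : Type} (f g : NC X) : ncmul f g [] = f [] * g [] := rfl

theorem ncmul_cons {X : Type} (f g : NC X) (x : X) (l : List X) :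
    ncmul f g (x :: l) = f [] * g (x :: l) + ncmul (hd f x) g l := rfl

@[simp] theorem hd_apply {X : Type} (f : NC X) (x : X) (l : List X) : hd f x l = f (x :: l) := rfl

theorem hd_add {X : Type} (f g : NC X) (x : X) : hd (f + g) x = hd f x + hd g x := rfl

/-- pairs of vertices of the `m`-simplex -/
abbrev PR (m : ℕ) := Fin (m + 1) × Fin (m + 1)

/-- the map of pairs induced by a monotone map -/
def prMap {m n : ℕ} (θ : Mo m n) : PR m → PR n := fun x => (θ x.1, θ x.2)

/-- additive in every slot -/
def IsAdd {m : ℕ} (f : NC (PR m)) : Prop :=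
  ∀ (l₁ l₂ : List (PR m)) (a b c : Fin (m + 1)),
    f (l₁ ++ (a, c) :: l₂) = f (l₁ ++ (a, b) :: l₂) + f (l₁ ++ (b, c) :: l₂)

theorem IsAdd.hd {m : ℕ} {f : NC (PR m)} (hf : IsAdd f) (x : PR m) : IsAdd (hd f x) :=
  fun l₁ l₂ a b c => hf (x :: l₁) l₂ a b c

theorem IsAdd.first {m : ℕ} {f : NC (PR m)} (hf : IsAdd f) (a b c : Fin (m + 1)) :
    MM.hd f (a, c) = MM.hd f (a, b) + MM.hd f (b, c) :=
  funext fun l => hf [] l a b c

theorem IsAdd.self {m : ℕ} {f : NC (PR m)} (hf : IsAdd f) (l₁ l₂ : List (PR m))
    (a : Fin (m + 1)) : f (l₁ ++ (a, a) :: l₂) = 0 := by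
  have := hf l₁ l₂ a a a
  exact left_eq_add.1 this

theorem IsAdd.symm {m : ℕ} {f : NC (PR m)} (hf : IsAdd f) (l₁ l₂ : List (PR m))
    (a b : Fin (m + 1)) : f (l₁ ++ (a, b) :: l₂) = f (l₁ ++ (b, a) :: l₂) := by
  have := hf l₁ l₂ a b a
  rw [hf.self] at this
  exact (CharTwo.add_eq_zero.1 this.symm)

/-- additive functions as a subspace -/
def TS (m : ℕ) : Submodule (ZMod 2) (NC (PR m)) where
  carrier := {f | IsAdd f}
  add_mem' := by
    intro f g hf hg l₁ l₂ a b c
    show f _ + g _ = (f _ + g _) + (f _ + g _)
    rw [hf l₁ l₂ a b c, hg l₁ l₂ a b c]; ring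
  zero_mem' := by intro l₁ l₂ a b c; show (0 : ZMod 2) = 0 + 0; rw [add_zero]
  smul_mem' := by
    intro r f hf l₁ l₂ a b c
    show r * f _ = r * f _ + r * f _
    rw [hf l₁ l₂ a b c]; ring

/-- the simplicial vector space of additive functions on lists of pairs of vertices -/
abbrev TT : SV where
  V m := TS m
  act {m n} θ :=
    { toFun := fun f => ⟨fun l => f.1 (l.map (prMap θ)), by
        intro l₁ l₂ a b c
        simp only [List.map_append, List.map_cons]
        exact f.2 _ _ _ _ _⟩
      map_add' := fun _ _ => rfl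
      map_smul' := fun _ _ => rfl }
  act_id f := by
    apply Subtype.ext; funext l
    show f.1 (l.map id) = f.1 l
    rw [List.map_id]
  act_comp θ η f := by
    apply Subtype.ext; funext l
    show f.1 ((l.map (prMap θ)).map (prMap η)) = f.1 (l.map (prMap (η.comp θ)))
    rw [List.map_map]; rfl

theorem TT_act_apply {m n : ℕ} (θ : Mo m n) (f : TT.V n) (l : List (PR m)) :
    (TT.act θ f).1 l = f.1 (l.map (prMap θ)) := rfl

/-- the list of those steps `(i, i+1)`, `i < n`, for which `w i` -/
def stepL (n : ℕ) (w : Fin n → Bool) : List (PR n) :=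
  ((List.finRange n).filter w).map fun i => (i.castSucc, i.succ)

/-- the list `[(0,1),(1,2),…,(n-1,n)]` -/
def pathL (n : ℕ) : List (PR n) := stepL n fun _ => true

/-- evaluation at the path -/
def evT (n : ℕ) : TT.V n →ₗ[ZMod 2] ZMod 2 where
  toFun f := f.1 (pathL n)
  map_add' _ _ := rfl
  map_smul' _ _ := rfl

theorem evT_apply (n : ℕ) (f : TT.V n) : evT n f = f.1 (pathL n) := rfl

/-- `f` is concentrated on lists of length `n` -/
def IsHom (n : ℕ) {X : Type} (f : NC X) : Prop := ∀ l, l.length ≠ n → f l = 0

/-- sum of two maps into a simplicial vector space -/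
def homAdd {Z : SS} {W : SV} (a b : Hom Z W.ss) : Hom Z W.ss :=
  ⟨fun n x => (a.app n x + b.app n x : W.V n), fun {m n} f x => by
    show (a.app m _ + b.app m _ : W.V m) = W.act f (a.app n x + b.app n x)
    rw [a.nat, b.nat, map_add]⟩

/-- the homogeneous component of degree `n` of an element of `TT` -/
def prT (n : ℕ) : SVHom TT TT :=
  ⟨fun m =>
    { toFun := fun f => ⟨fun l => if l.length = n then f.1 l else 0, by
        intro l₁ l₂ a b c
        have h : ∀ z : PR m, (l₁ ++ z :: l₂).length = (l₁.length + l₂.length + 1) := by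
          intro z; simp; omega
        simp only [h]
        split_ifs
        · exact f.2 _ _ _ _ _
        · rw [add_zero]⟩
      map_add' := fun f g => by
        apply Subtype.ext; funext l
        show (if l.length = n then f.1 l + g.1 l else 0) =
          (if l.length = n then f.1 l else 0) + (if l.length = n then g.1 l else 0)
        split_ifs <;> simp
      map_smul' := fun r f => by
        apply Subtype.ext; funext l
        show (if l.length = n then r * f.1 l else 0) =
          r * (if l.length = n then f.1 l else 0)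
        split_ifs <;> simp }, fun {m k} θ f => by
    apply Subtype.ext; funext l
    show (if l.length = n then f.1 (l.map (prMap θ)) else 0) =
      (if (l.map (prMap θ)).length = n then f.1 (l.map (prMap θ)) else 0)
    rw [List.length_map]⟩

theorem prT_apply (n : ℕ) {m : ℕ} (f : TT.V m) (l : List (PR m)) :
    ((prT n).app m f).1 l = if l.length = n then f.1 l else 0 := rfl

theorem prT_isHom (n : ℕ) {m : ℕ} (f : TT.V m) : IsHom n ((prT n).app m f).1 := by
  intro l hl
  rw [prT_apply, if_neg hl]

end MM
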