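import Pool.Agent.Lib_MP_33f7bb_d.A4Ring
import Pool.Agent.Lib_MP_33f7bb_d.A3T0

/-!
# A3-KL: bar construction, Eilenberg-MacLane objects `KL n`, powers of `B(ZMod 2)` (definitions, complete)

`(barV V)_m` = additive functions `v : PR m → V_m`, `v (a, c) = v (a, b) + v (b, c)`.
`barDel : (barV V)_(j+1) → V_j`, `v ↦ δ_0 (v (0, 1))`, is the connecting map `H_(j+1) (barV V) ≅ H_j V` on cycles.
`KL 0 = cstV (ZMod 2)`, `KL (n+1) = barV (KL n)`.
-/

open scoped TensorProduct

namespace MM

/-- additive functions from pairs of vertices to `V` -/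
def barS (V : SV) (m : ℕ) : Submodule (ZMod 2) (PR m → V.V m) where
  carrier := {v | ∀ a b c : Fin (m + 1), v (a, c) = v (a, b) + v (b, c)}
  add_mem' := by
    intro v w hv hw a b c
    show v _ + w _ = (v _ + w _) + (v _ + w _)
    rw [hv a b c, hw a b c]; abel
  zero_mem' := by intro a b c; show (0 : V.V m) = 0 + 0; rw [add_zero]
  smul_mem' := by
    intro r v hv a b c
    show r • v _ = r • v _ + r • v _
    rw [hv a b c, smul_add]

/-- the bar construction of a simplicial vector space -/
abbrev barV (V : SV) : SV where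
  V m := barS V m
  act {m n} θ :=
    { toFun := fun v => ⟨fun x => V.act θ (v.1 (prMap θ x)), by
        intro a b c
        show V.act θ (v.1 (θ a, θ c)) = V.act θ (v.1 (θ a, θ b)) + V.act θ (v.1 (θ b, θ c))
        rw [v.2 (θ a) (θ b) (θ c), map_add]⟩
      map_add' := fun v w => by
        apply Subtype.ext; funext x
        exact map_add (V.act θ) _ _
      map_smul' := fun r v => by
        apply Subtype.ext; funext x
        exact map_smul (V.act θ) r _ }
  act_id v := by
    apply Subtype.ext; funext x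
    exact V.act_id _
  act_comp θ η v := by
    apply Subtype.ext; funext x
    exact V.act_comp θ η _

theorem barV_act_apply (V : SV) {m n : ℕ} (θ : Mo m n) (v : (barV V).V n) (x : PR m) :
    ((barV V).act θ v).1 x = V.act θ (v.1 (prMap θ x)) := rfl

/-- the connecting map on chains -/
noncomputable def barDel (V : SV) (j : ℕ) : (barV V).V (j + 1) →ₗ[ZMod 2] V.V j where
  toFun v := V.act (dlt 0) (v.1 (0, 1))
  map_add' v w := map_add (V.act (dlt 0)) _ _
  map_smul' r v := map_smul (V.act (dlt 0)) r _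

theorem barDel_apply (V : SV) (j : ℕ) (v : (barV V).V (j + 1)) :
    barDel V j v = V.act (dlt 0) (v.1 (0, 1)) := rfl

/-- functoriality of the bar construction -/
def barMap {V W : SV} (f : SVHom V W) : SVHom (barV V) (barV W) :=
  ⟨fun m =>
    { toFun := fun v => ⟨fun x => f.app m (v.1 x), by
        intro a b c
        show f.app m _ = f.app m _ + f.app m _
        rw [v.2 a b c, map_add]⟩
      map_add' := fun v w => by
        apply Subtype.ext; funext x
        exact map_add (f.app m) _ _
      map_smul' := fun r v => by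
        apply Subtype.ext; funext x
        exact map_smul (f.app m) r _ }, fun {m n} θ v => by
    apply Subtype.ext; funext x
    exact f.nat θ _⟩

/-- the Eilenberg-MacLane objects -/
noncomputable def KL : ℕ → SV
  | 0 => cstV (ZMod 2)
  | n + 1 => barV (KL n)

/-- `W` has homology only in degree `n`, and `u` is an isomorphism `H_n W ≅ F` -/
structure IsEM (n : ℕ) (W : SV) (u : Module.Dual (ZMod 2) (W.H n)) : Prop where
  low : ∀ j, j ≠ n → ∀ z ∈ W.Z j, z ∈ W.B j
  bij : Function.Bijective u

/-- the class of degree `n` given by a map into `W` and a functional on `H_n W` -/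
noncomputable def clW {Z : SS} {W : SV} {n : ℕ} (u : Module.Dual (ZMod 2) (W.H n))
    (a : Hom Z W.ss) : Hc Z n := u.comp (SV.Hmap (linHom a) n)

/-- reduced version: the class of a pointed map -/
noncomputable def clR {Z : SS} {z₀ : Z.S 0} {W : SV} {n : ℕ} (u : Module.Dual (ZMod 2) (W.H n))
    (a : Hom Z W.ss) (ha : a.app 0 z₀ = W.zv) : Module.Dual (ZMod 2) ((R Z z₀).H n) :=
  u.comp (SV.Hmap (R.lift z₀ a ha) n)

/-- powers of `K1` -/
abbrev K1pow (I : Type) : SV where
  V n := I → K1.V n
  act f := LinearMap.pi fun i => (K1.act f).comp (LinearMap.proj i)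
  act_id x := funext fun i => K1.act_id (x i)
  act_comp f g x := funext fun i => K1.act_comp f g (x i)

/-- powers of `B(ZMod 2)` -/
abbrev Bpow (I : Type) : SS := (K1pow I).ss

/-- projections -/
def Bproj {I : Type} (i : I) : Hom (Bpow I) BZ2 := ⟨fun _ x => x i, fun _ _ => rfl⟩

/-- the functional `v ↦ v 1` on `H_1 (K1)` -/
noncomputable def K1ev : Module.Dual (ZMod 2) (K1.H 1) :=
  Submodule.liftQ _
    ({ toFun := fun v : K1.V 1 => v.1 1, map_add' := fun _ _ => rfl, map_smul' := fun _ _ => rfl } ∘ₗ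
      (K1.Z 1).subtype) (by
    rintro ⟨z, hz⟩ ⟨w, hw⟩
    have hw' : K1.d 1 w = z := hw
    show z.1 1 = 0
    rw [← hw', SV.d, LinearMap.sum_apply]
    have h0 : w.1 0 = 0 := by
      have := w.2
      simpa only [LinearMap.mem_ker, LinearMap.proj_apply] using this
    have h1 : ∀ i : Fin 3, (K1.act (dlt i) w).1 1 = w.1 (dlt i 1) - w.1 (dlt i 0) := fun _ => rfl
    rw [AddSubmonoidClass.coe_finsetSum, Finset.sum_apply, Fin.sum_univ_three, h1, h1, h1]
    have e1 : (dlt (0 : Fin 3) : Mo 1 2) 1 = 2 := rfl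
    have e2 : (dlt (0 : Fin 3) : Mo 1 2) 0 = 1 := rfl
    have e3 : (dlt (1 : Fin 3) : Mo 1 2) 1 = 2 := rfl
    have e4 : (dlt (1 : Fin 3) : Mo 1 2) 0 = 0 := rfl
    have e5 : (dlt (2 : Fin 3) : Mo 1 2) 1 = 1 := rfl
    have e6 : (dlt (2 : Fin 3) : Mo 1 2) 0 = 0 := rfl
    rw [e1, e2, e3, e4, e5, e6, h0]
    have h2 : w.1 2 - w.1 1 + (w.1 2 - 0) + (w.1 1 - 0) = w.1 2 + w.1 2 := by ring
    rw [h2]
    exact CharTwo.add_self_eq_zero _)

/-- the generator of `H^1 (B(ZMod 2))` -/
noncomputable def xB : Hc BZ2 1 := clW K1ev (Hom.id BZ2)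

/-- the class of the `i`-th projection -/
noncomputable def xI {I : Type} (i : I) : Hc (Bpow I) 1 := Hc.map (Bproj i) 1 xB

end MM
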