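import Pool.Agent.Lib_MP_33f7bb_d.A3C3

/-!
# A3-10: properties of the power operation on maps into `TT`

`B = BZ2`, `PP a : B × Z → TT`, `(b, σ) ↦ kap_b (a σ, a σ)`.

* `PP_htp`: a homotopy `H : Δ^1 × Z → TT` gives `PP H : B × (Δ^1 × Z) → TT`; `(u, (b, σ)) ↦ PP H (b, (u, σ))` is a homotopy.
* `PP_homPr`: on lists of length `2 n` the value of `kap` only depends on the homogeneous components of degree `n` (`kap_congr`);
  `evT (2n)` only sees lists of length `2 n` (`pathL_length`).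
* `PP_cl`: `htp_homPr`, `PP_htp`, `clW_htp`, `PP_homPr`.
* `PP_mul`: `kap_mul` (equality of maps).
* `PP_incl`: restriction to the base point of `B` (`b = 0`): by definition (`kap0_tmul`).
* `PP_zero`: `a` homogeneous of degree `0`: `kap e f f = f` for `f` supported on `[]` (`f [] * f [] = f []` in `ZMod 2`).
-/

open scoped TensorProduct

namespace MM

theorem PP_htp {Z : SS} {a a' : Hom Z TT.ss} (h : Htp a a') : Htp (PP a) (PP a') := by
  obtain ⟨H, h0, h1⟩ := h
  refine ⟨⟨fun n p => (PP H).app n (p.2.1, (p.1, p.2.2)), fun {m n} f p =>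
    (PP H).nat f (p.2.1, (p.1, p.2.2))⟩, ?_, ?_⟩
  · rintro n ⟨b, x⟩
    show kapT b.1 (H.app n (cst 0, x)) (H.app n (cst 0, x)) = kapT b.1 (a.app n x) (a.app n x)
    rw [h0]
  · rintro n ⟨b, x⟩
    show kapT b.1 (H.app n (cst 1, x)) (H.app n (cst 1, x)) = kapT b.1 (a'.app n x) (a'.app n x)
    rw [h1]

private theorem A3P1_ext {Z : SS} {n : ℕ} {a b : Hom Z TT.ss}
    (h : ∀ x, evT n (a.app n x) = evT n (b.app n x)) : clW (evH n) a = clW (evH n) b := by
  have h1 : (evT n).comp (linExt a.app n) = (evT n).comp (linExt b.app n) := by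
    refine Finsupp.lhom_ext fun x c => ?_
    rw [LinearMap.comp_apply, LinearMap.comp_apply, linExt_single, linExt_single, map_smul,
      map_smul]
    exact congrArg (fun t => c • t) (h x)
  refine LinearMap.ext fun x => ?_
  obtain ⟨⟨z, hz⟩, rfl⟩ := Submodule.Quotient.mk_surjective _ x
  exact LinearMap.congr_fun h1 z

theorem PP_homPr {Z : SS} (n : ℕ) (a : Hom Z TT.ss) :
    clW (evH (2 * n)) (PP (homPr n a)) = clW (evH (2 * n)) (PP a) := by
  apply A3P1_ext
  rintro ⟨b, x⟩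
  show kap b.1 ((prT n).app (2 * n) (a.app (2 * n) x)).1
      ((prT n).app (2 * n) (a.app (2 * n) x)).1 (pathL (2 * n)) =
    kap b.1 (a.app (2 * n) x).1 (a.app (2 * n) x).1 (pathL (2 * n))
  have h1 : ∀ l : List (PR (2 * n)), l.length = n →
      ((prT n).app (2 * n) (a.app (2 * n) x)).1 l = (a.app (2 * n) x).1 l := by
    intro l hl
    rw [prT_apply, if_pos hl]
  exact kap_congr (n := n) b.1 h1 h1 _ (pathL_length _)

theorem PP_cl {Z : SS} (n : ℕ) {a a' : Hom Z TT.ss} (h : clW (evH n) a = clW (evH n) a') :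
    clW (evH (2 * n)) (PP a) = clW (evH (2 * n)) (PP a') := by
  rw [← PP_homPr n a, ← PP_homPr n a']
  exact clW_htp _ (PP_htp (htp_homPr n h))

theorem PP_mul {Z : SS} {p : ℕ} {a : Hom Z TT.ss} (ha : ∀ k x, IsHom p (a.app k x).1)
    (a' : Hom Z TT.ss) : PP (homMul a a') = homMul (PP a) (PP a') := by
  apply Hom.ext
  funext n x
  exact Subtype.ext (kap_mul x.1.1 (ha n x.2) (ha n x.2) (a'.app n x.2).1 (a'.app n x.2).1)

theorem PP_isHom {Z : SS} {p : ℕ} {a : Hom Z TT.ss} (ha : ∀ k x, IsHom p (a.app k x).1) (k : ℕ)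
    (x : (BZ2.prod Z).S k) : IsHom (2 * p) ((PP a).app k x).1 :=
  kap_isHom x.1.1 (ha k x.2) (ha k x.2)

theorem PP_incl {Z : SS} (a : Hom Z TT.ss) : (PP a).comp (inclB Z) = homBil kap0 a a := by
  apply Hom.ext
  funext n x
  rfl

theorem PP_zero {Z : SS} {a : Hom Z TT.ss} (ha : ∀ k x, IsHom 0 (a.app k x).1) :
    PP a = a.comp (Hom.snd BZ2 Z) := by
  apply Hom.ext
  funext n x
  apply Subtype.ext
  funext l
  show kap x.1.1 (a.app n x.2).1 (a.app n x.2).1 l = (a.app n x.2).1 l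
  by_cases hl : l.length = 0
  · obtain rfl : l = [] := List.length_eq_zero_iff.1 hl
    rw [kap_nil]
    have h1 : ∀ c : ZMod 2, c * c = c := by decide
    exact h1 _
  · rw [kap_isHom x.1.1 (ha n x.2) (ha n x.2) l (by simpa using hl), ha n x.2 l hl]

end MM
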