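import Pool.Agent.Lib_MP_33f7bb_d.A3C3

/-!
# A3-11: additivity of the power operation and its value in degree one

`B = BZ2`, `PP a : B × Z → TT`, `(b, σ) ↦ kap_b (a σ, a σ)`.

* `PP_add`: let `G_e σ = kapT e (a σ) (a' σ)` for an arbitrary function `e` on the vertices.  Then
  `kap_b (a + a', a + a') = kap_b (a,a) + kap_b (a',a') + kap_b (a,a') + kap_b (a',a)`, `kap_b (a',a) = G_(b+1)` (`kapT_equiv`
  with `e = b + 1`).  Homotopy from `PP (a + a')` to `PP a + PP a'`: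
  `(u, (b, σ)) ↦ PP a + PP a' + G_(b·u) σ + G_((b+1)·u) σ` where `(e·u) i = e i` if `u i = 0` and `0` if `u i = 1` (`u : Mo m 1`).
  At `u = cst 0`: `+ G_b + G_(b+1)`; at `u = cst 1`: `+ G_0 + G_0 = 0`.  Natural: `(e·u) ∘ θ = (e ∘ θ)·(u ∘ θ)`, `kapT_act`, and for
  `θ^* b = b ∘ θ + b (θ 0)` the two terms are exchanged or not.
* `PP_one`: `a` homogeneous of degree one, `f = a σ`: `kap_e (f, f) [x, y] = f [x] f [y] + ∑_(c ∈ x, d ∈ y) e (min c d) f [(c,d)]`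
  (`f [z] * f [z] = f [z]`).  Define for any function `C : Fin (m+1) → Fin (m+1) → ZMod 2` the additive function
  `Q_C : [x, y] ↦ ∑_(c ∈ {x.1,x.2}) ∑_(d ∈ {y.1,y.2}) C c d * f [(c,d)]` (`0` on other lists; additive for every `C`; the sum
  has four terms, also if `x.1 = x.2`).  Homotopy from `a·a + x·a` to `PP a`:
  `(u, (b, σ)) ↦ a·a + Q_C`, `C c d = b c` if `u c = 0`, `C c d = b (min c d)` if `u c = 1`.
  At `u = cst 0`: `∑_(c,d) b c f [(c,d)] = ∑_c b c (f [(c, y.1)] + f [(c, y.2)]) = ∑_c b c f [y] = (b x.1 + b x.2) f [y]`.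
  Natural: replacing `b` by `b + 1` changes `Q_C` by `∑_(c,d) f [(c,d)] = ∑_c f [y] = 0`.
-/

open scoped TensorProduct

namespace MM

/-! ### additivity -/

/-- `e · u` -/
private def A3P2_cut {m : ℕ} (u : Mo m 1) (e : Fin (m + 1) → ZMod 2) : Fin (m + 1) → ZMod 2 :=
  fun i => if u i = 0 then e i else 0

private theorem A3P2_cut_zero {m : ℕ} (e : Fin (m + 1) → ZMod 2) : A3P2_cut (cst 0) e = e :=
  funext fun _ => if_pos rfl

private theorem A3P2_cut_one {m : ℕ} (e : Fin (m + 1) → ZMod 2) :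
    A3P2_cut (cst 1) e = fun _ => 0 := by
  funext i
  have h : ¬ ((1 : Fin 2) = 0) := by decide
  exact if_neg h

/-- the cross terms -/
private def A3P2_G {m : ℕ} (u : Mo m 1) (b : Fin (m + 1) → ZMod 2) (f g : TT.V m) : TT.V m :=
  kapT (A3P2_cut u b) f g + kapT (A3P2_cut u fun i => b i + 1) f g

private theorem A3P2_G_act {m n : ℕ} (θ : Mo m n) (u : Mo n 1) (b : Fin (n + 1) → ZMod 2)
    (f g : TT.V n) :
    A3P2_G (u.comp θ) (fun i => b (θ i) - b (θ 0)) (TT.act θ f) (TT.act θ g) =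
      TT.act θ (A3P2_G u b f g) := by
  have h1 : TT.act θ (A3P2_G u b f g) =
      kapT (A3P2_cut (u.comp θ) fun i => b (θ i)) (TT.act θ f) (TT.act θ g) +
        kapT (A3P2_cut (u.comp θ) fun i => b (θ i) + 1) (TT.act θ f) (TT.act θ g) := by
    unfold A3P2_G
    rw [map_add, ← kapT_act, ← kapT_act]
    rfl
  have hc : ∀ c : ZMod 2, c = 0 ∨ c = 1 := by decide
  rw [h1]
  unfold A3P2_G
  rcases hc (b (θ 0)) with h | h
  · rw [h]
    simp only [sub_zero]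
  · rw [h]
    have e1 : (fun i => b (θ i) - 1) = fun i => b (θ i) + 1 :=
      funext fun i => CharTwo.sub_eq_add _ _
    have e2 : (fun i => b (θ i) + 1 + 1) = fun i => b (θ i) :=
      funext fun i => by rw [add_assoc, CharTwo.add_self_eq_zero, add_zero]
    rw [e1]
    show kapT (A3P2_cut (u.comp θ) fun i => b (θ i) + 1) (TT.act θ f) (TT.act θ g) +
        kapT (A3P2_cut (u.comp θ) fun i => b (θ i) + 1 + 1) (TT.act θ f) (TT.act θ g) = _
    rw [e2, add_comm]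

/-! ### degree one -/

/-- the correction terms -/
private def A3P2_Q {m : ℕ} (C : Fin (m + 1) → Fin (m + 1) → ZMod 2) (f : NC (PR m)) : NC (PR m)
  | [x, y] => (C x.1 y.1 * f [(x.1, y.1)] + C x.1 y.2 * f [(x.1, y.2)]) +
      (C x.2 y.1 * f [(x.2, y.1)] + C x.2 y.2 * f [(x.2, y.2)])
  | _ => 0

private theorem A3P2_Q_two {m : ℕ} (C : Fin (m + 1) → Fin (m + 1) → ZMod 2) (f : NC (PR m))
    (x y : PR m) : A3P2_Q C f [x, y] =
      (C x.1 y.1 * f [(x.1, y.1)] + C x.1 y.2 * f [(x.1, y.2)]) +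
        (C x.2 y.1 * f [(x.2, y.1)] + C x.2 y.2 * f [(x.2, y.2)]) := rfl

private theorem A3P2_Q_isHom {m : ℕ} (C : Fin (m + 1) → Fin (m + 1) → ZMod 2) (f : NC (PR m)) :
    IsHom 2 (A3P2_Q C f) := by
  intro l hl
  rcases l with _ | ⟨x, _ | ⟨y, _ | ⟨z, l⟩⟩⟩
  · rfl
  · rfl
  · exact absurd rfl hl
  · rfl

private theorem A3P2_Q_isAdd {m : ℕ} (C : Fin (m + 1) → Fin (m + 1) → ZMod 2) (f : NC (PR m)) :
    IsAdd (A3P2_Q C f) := by
  intro l₁ l₂ a b c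
  rcases l₁ with _ | ⟨y, _ | ⟨z, l₁⟩⟩
  · rcases l₂ with _ | ⟨y, _ | ⟨z, l₂⟩⟩
    · rfl
    · show (C a y.1 * f [(a, y.1)] + C a y.2 * f [(a, y.2)]) +
          (C c y.1 * f [(c, y.1)] + C c y.2 * f [(c, y.2)]) =
        ((C a y.1 * f [(a, y.1)] + C a y.2 * f [(a, y.2)]) +
          (C b y.1 * f [(b, y.1)] + C b y.2 * f [(b, y.2)])) +
        ((C b y.1 * f [(b, y.1)] + C b y.2 * f [(b, y.2)]) +
          (C c y.1 * f [(c, y.1)] + C c y.2 * f [(c, y.2)]))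
      have h := CharTwo.add_self_eq_zero (C b y.1 * f [(b, y.1)] + C b y.2 * f [(b, y.2)])
      linear_combination -h
    · rfl
  · rcases l₂ with _ | ⟨z, l₂⟩
    · show (C y.1 a * f [(y.1, a)] + C y.1 c * f [(y.1, c)]) +
          (C y.2 a * f [(y.2, a)] + C y.2 c * f [(y.2, c)]) =
        ((C y.1 a * f [(y.1, a)] + C y.1 b * f [(y.1, b)]) +
          (C y.2 a * f [(y.2, a)] + C y.2 b * f [(y.2, b)])) +
        ((C y.1 b * f [(y.1, b)] + C y.1 c * f [(y.1, c)]) +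
          (C y.2 b * f [(y.2, b)] + C y.2 c * f [(y.2, c)]))
      have h := CharTwo.add_self_eq_zero (C y.1 b * f [(y.1, b)] + C y.2 b * f [(y.2, b)])
      linear_combination -h
    · rfl
  · rcases l₁ with _ | ⟨w, l₁⟩ <;> rfl

private def A3P2_QT {m : ℕ} (C : Fin (m + 1) → Fin (m + 1) → ZMod 2) (f : TT.V m) : TT.V m :=
  ⟨A3P2_Q C f.1, A3P2_Q_isAdd C f.1⟩

/-- the coefficients -/
private def A3P2_C {m : ℕ} (u : Mo m 1) (b : Fin (m + 1) → ZMod 2) (c d : Fin (m + 1)) : ZMod 2 :=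
  if u c = 0 then b c else b (min c d)

private theorem A3P2_C_zero {m : ℕ} (b : Fin (m + 1) → ZMod 2) (c d : Fin (m + 1)) :
    A3P2_C (cst 0) b c d = b c := if_pos rfl

private theorem A3P2_C_one {m : ℕ} (b : Fin (m + 1) → ZMod 2) (c d : Fin (m + 1)) :
    A3P2_C (cst 1) b c d = b (min c d) := by
  have h : ¬ ((1 : Fin 2) = 0) := by decide
  exact if_neg h

private theorem A3P2_C_act {m n : ℕ} (θ : Mo m n) (u : Mo n 1) (b : Fin (n + 1) → ZMod 2)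
    (c d : Fin (m + 1)) :
    A3P2_C (u.comp θ) (fun i => b (θ i) - b (θ 0)) c d = A3P2_C u b (θ c) (θ d) - b (θ 0) := by
  unfold A3P2_C
  show (if u (θ c) = 0 then b (θ c) - b (θ 0) else b (θ (min c d)) - b (θ 0)) =
    (if u (θ c) = 0 then b (θ c) else b (min (θ c) (θ d))) - b (θ 0)
  by_cases h : u (θ c) = 0
  · rw [if_pos h, if_pos h]
  · rw [if_neg h, if_neg h, θ.monotone.map_min]

private theorem A3P2_sum {m : ℕ} {f : NC (PR m)} (hf : IsAdd f) (c d : Fin (m + 1)) (y : PR m) :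
    f [(c, y.1)] + f [(c, y.2)] = f [y] := by
  have h1 : f [(c, y.2)] = f [(c, y.1)] + f [(y.1, y.2)] := hf [] [] c y.1 y.2
  have h2 := CharTwo.add_self_eq_zero (f [(c, y.1)])
  have _ := d
  rw [h1, ← add_assoc, h2, zero_add]

private theorem A3P2_QT_act {m n : ℕ} (θ : Mo m n) (u : Mo n 1) (b : Fin (n + 1) → ZMod 2)
    (f : TT.V n) :
    A3P2_QT (A3P2_C (u.comp θ) fun i => b (θ i) - b (θ 0)) (TT.act θ f) =
      TT.act θ (A3P2_QT (A3P2_C u b) f) := by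
  apply Subtype.ext
  funext l
  by_cases hl : l.length = 2
  · obtain ⟨x, y, rfl⟩ := List.length_eq_two.1 hl
    show A3P2_Q _ _ [x, y] = A3P2_Q _ f.1 [prMap θ x, prMap θ y]
    rw [A3P2_Q_two, A3P2_Q_two, A3P2_C_act, A3P2_C_act, A3P2_C_act, A3P2_C_act]
    show ((A3P2_C u b (θ x.1) (θ y.1) - b (θ 0)) * f.1 [(θ x.1, θ y.1)] +
        (A3P2_C u b (θ x.1) (θ y.2) - b (θ 0)) * f.1 [(θ x.1, θ y.2)]) +
        ((A3P2_C u b (θ x.2) (θ y.1) - b (θ 0)) * f.1 [(θ x.2, θ y.1)] +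
        (A3P2_C u b (θ x.2) (θ y.2) - b (θ 0)) * f.1 [(θ x.2, θ y.2)]) =
      (A3P2_C u b (θ x.1) (θ y.1) * f.1 [(θ x.1, θ y.1)] +
        A3P2_C u b (θ x.1) (θ y.2) * f.1 [(θ x.1, θ y.2)]) +
        (A3P2_C u b (θ x.2) (θ y.1) * f.1 [(θ x.2, θ y.1)] +
        A3P2_C u b (θ x.2) (θ y.2) * f.1 [(θ x.2, θ y.2)])
    have h1 : f.1 [(θ x.1, θ y.1)] + f.1 [(θ x.1, θ y.2)] = f.1 [(θ y.1, θ y.2)] :=
      A3P2_sum f.2 (θ x.1) (θ x.1) (θ y.1, θ y.2)
    have h2 : f.1 [(θ x.2, θ y.1)] + f.1 [(θ x.2, θ y.2)] = f.1 [(θ y.1, θ y.2)] :=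
      A3P2_sum f.2 (θ x.2) (θ x.2) (θ y.1, θ y.2)
    have h3 := CharTwo.add_self_eq_zero (f.1 [(θ y.1, θ y.2)])
    linear_combination (-(b (θ 0))) * h1 + (-(b (θ 0))) * h2 + (-(b (θ 0))) * h3
  · have e1 : (A3P2_QT (A3P2_C (u.comp θ) fun i => b (θ i) - b (θ 0)) (TT.act θ f)).1 l = 0 :=
      A3P2_Q_isHom _ _ l hl
    have e2 : (TT.act θ (A3P2_QT (A3P2_C u b) f)).1 l = 0 := by
      rw [TT_act_apply]
      exact A3P2_Q_isHom _ _ _ (by rw [List.length_map]; exact hl)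
    rw [e1, e2]

private theorem A3P2_hom2 {m : ℕ} {f g : NC (PR m)} (hf : IsHom 2 f) (hg : IsHom 2 g)
    (h : ∀ x y, f [x, y] = g [x, y]) : f = g := by
  funext l
  by_cases hl : l.length = 2
  · obtain ⟨x, y, rfl⟩ := List.length_eq_two.1 hl
    exact h x y
  · rw [hf l hl, hg l hl]

private theorem A3P2_isHom_add {m p : ℕ} {f g : NC (PR m)} (hf : IsHom p f) (hg : IsHom p g) :
    IsHom p (f + g) := by
  intro l hl
  show f l + g l = 0
  rw [hf l hl, hg l hl, add_zero]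

private theorem A3P2_two {m : ℕ} {f g : NC (PR m)} (hf : IsHom 1 f) (x y : PR m) :
    ncmul f g [x, y] = f [x] * g [y] := ncmul_of_hom hf g (l₁ := [x]) (l₂ := [y]) rfl

theorem PP_add {Z : SS} (a a' : Hom Z TT.ss) :
    Htp (PP (homAdd a a')) (homAdd (PP a) (PP a')) := by
  refine ⟨⟨fun n x => (((PP a).app n x.2 + (PP a').app n x.2) +
    A3P2_G x.1 x.2.1.1 (a.app n x.2.2) (a'.app n x.2.2) : TT.V n), ?_⟩, ?_, ?_⟩
  · intro m n θ x
    obtain ⟨u, b, σ⟩ := x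
    show (((PP a).app m ((BZ2.prod Z).act θ (b, σ)) + (PP a').app m ((BZ2.prod Z).act θ (b, σ))) +
        A3P2_G (u.comp θ) (fun i => b.1 (θ i) - b.1 (θ 0)) (a.app m (Z.act θ σ))
          (a'.app m (Z.act θ σ)) : TT.V m) =
      TT.act θ (((PP a).app n (b, σ) + (PP a').app n (b, σ)) +
        A3P2_G u b.1 (a.app n σ) (a'.app n σ))
    rw [(PP a).nat, (PP a').nat, a.nat, a'.nat]
    show ((TT.act θ ((PP a).app n (b, σ)) + TT.act θ ((PP a').app n (b, σ))) +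
        A3P2_G (u.comp θ) (fun i => b.1 (θ i) - b.1 (θ 0)) (TT.act θ (a.app n σ))
          (TT.act θ (a'.app n σ)) : TT.V m) = _
    rw [A3P2_G_act, map_add, map_add]
  · rintro n ⟨b, σ⟩
    show ((kapT b.1 (a.app n σ) (a.app n σ) + kapT b.1 (a'.app n σ) (a'.app n σ)) +
        (kapT (A3P2_cut (cst 0) b.1) (a.app n σ) (a'.app n σ) +
          kapT (A3P2_cut (cst 0) fun i => b.1 i + 1) (a.app n σ) (a'.app n σ)) : TT.V n) =
      kapT b.1 ((a.app n σ + a'.app n σ : TT.V n)) ((a.app n σ + a'.app n σ : TT.V n))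
    rw [A3P2_cut_zero, A3P2_cut_zero, kapT_equiv, kapT_add_left, kapT_add_right,
      kapT_add_right]
    abel
  · rintro n ⟨b, σ⟩
    show ((kapT b.1 (a.app n σ) (a.app n σ) + kapT b.1 (a'.app n σ) (a'.app n σ)) +
        (kapT (A3P2_cut (cst 1) b.1) (a.app n σ) (a'.app n σ) +
          kapT (A3P2_cut (cst 1) fun i => b.1 i + 1) (a.app n σ) (a'.app n σ)) : TT.V n) =
      (kapT b.1 (a.app n σ) (a.app n σ) + kapT b.1 (a'.app n σ) (a'.app n σ) : TT.V n)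
    rw [A3P2_cut_one, A3P2_cut_one, two_eq_zero', add_zero]

theorem PP_one {Z : SS} {a : Hom Z TT.ss} (ha : ∀ k x, IsHom 1 (a.app k x).1) :
    Htp (homAdd (homMul (a.comp (Hom.snd BZ2 Z)) (a.comp (Hom.snd BZ2 Z)))
      (homMul (xT.comp (Hom.fst BZ2 Z)) (a.comp (Hom.snd BZ2 Z)))) (PP a) := by
  have hsq : ∀ z : ZMod 2, z * z = z := by decide
  refine ⟨⟨fun n x => (tmul (a.app n x.2.2) (a.app n x.2.2) +
    A3P2_QT (A3P2_C x.1 x.2.1.1) (a.app n x.2.2) : TT.V n), ?_⟩, ?_, ?_⟩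
  · intro m n θ x
    obtain ⟨u, b, σ⟩ := x
    show (tmul (a.app m (Z.act θ σ)) (a.app m (Z.act θ σ)) +
        A3P2_QT (A3P2_C (u.comp θ) fun i => b.1 (θ i) - b.1 (θ 0)) (a.app m (Z.act θ σ)) :
          TT.V m) =
      TT.act θ (tmul (a.app n σ) (a.app n σ) + A3P2_QT (A3P2_C u b.1) (a.app n σ))
    rw [a.nat]
    show (tmul (TT.act θ (a.app n σ)) (TT.act θ (a.app n σ)) +
        A3P2_QT (A3P2_C (u.comp θ) fun i => b.1 (θ i) - b.1 (θ 0)) (TT.act θ (a.app n σ)) :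
          TT.V m) = _
    rw [A3P2_QT_act, tmul_act, map_add]
  · rintro n ⟨b, σ⟩
    show (tmul (a.app n σ) (a.app n σ) + A3P2_QT (A3P2_C (cst 0) b.1) (a.app n σ) : TT.V n) =
      (tmul (a.app n σ) (a.app n σ) + tmul (xT.app n b) (a.app n σ) : TT.V n)
    congr 1
    apply Subtype.ext
    refine A3P2_hom2 (A3P2_Q_isHom _ _) ((xT_isHom n b).ncmul (ha n σ)) ?_
    intro x y
    show A3P2_Q (A3P2_C (cst 0) b.1) (a.app n σ).1 [x, y] =
      ncmul (xT.app n b).1 (a.app n σ).1 [x, y]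
    rw [A3P2_two (xT_isHom n b), xT_one, A3P2_Q_two, A3P2_C_zero, A3P2_C_zero, A3P2_C_zero,
      A3P2_C_zero, ← mul_add, ← mul_add, A3P2_sum (a.app n σ).2 x.1 x.1 y,
      A3P2_sum (a.app n σ).2 x.2 x.2 y, add_mul]
  · rintro n ⟨b, σ⟩
    show (tmul (a.app n σ) (a.app n σ) + A3P2_QT (A3P2_C (cst 1) b.1) (a.app n σ) : TT.V n) =
      kapT b.1 (a.app n σ) (a.app n σ)
    apply Subtype.ext
    refine A3P2_hom2 (A3P2_isHom_add ((ha n σ).ncmul (ha n σ)) (A3P2_Q_isHom _ _))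
      (kap_isHom b.1 (ha n σ) (ha n σ)) ?_
    intro x y
    show ncmul (a.app n σ).1 (a.app n σ).1 [x, y] +
        A3P2_Q (A3P2_C (cst 1) b.1) (a.app n σ).1 [x, y] =
      kap b.1 (a.app n σ).1 (a.app n σ).1 [x, y]
    rw [A3P2_two (ha n σ), A3P2_Q_two, A3P2_C_one, A3P2_C_one, A3P2_C_one, A3P2_C_one, kap_cons]
    simp only [kap_nil, hd_apply, hsq]

end MM
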