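import Pool.Agent.Lib_MP_33f7bb_d.A4R3

/-!
# A3-14: external products of homology classes of simplicial sets

`crsP n c d ∈ H_n (lin (P × Q))` = the class corresponding to the cross product `crsH n c d` under the isomorphism
`H(linProd P Q)` (`Hmap_linProd_bijective`).
* `linProd_crsP`: `LinearEquiv.ofBijective`, `crsHL_apply`.
* `crsP_map`: naturality: `linProd ∘ linMap (f × g) = (linMap f ⊗ linMap g) ∘ linProd` (check on `single (x,y) 1`), `crs_map`
  (on representing cycles, `crsH_cls`) and injectivity of `H(linProd)`.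
* `crsP_ne`: `crs_eq_zero`.
* `cup_crsP`, `cup_crsP_ne`: `cup_fst_snd` and `boxF_crs`, `boxF_crs_ne` (choose representing cycles; `crsH_cls`).
* `hc_prod_ext`: functionals on `H_n (lin (P × Q))` which agree on all `crsP n c d`, `p + q = n`, are equal: `boxF_ext` applied to
  `y ∘ H(linProd)⁻¹`.
-/

open scoped TensorProduct

namespace MM

/-- external product of homology classes, as a bilinear map -/
noncomputable def crsHL (P Q : SV) (p q n : ℕ) : P.H p →ₗ[ZMod 2] Q.H q →ₗ[ZMod 2] (P.tens Q).H n :=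
  Classical.choose (crsH_bilin P Q p q n)

theorem crsHL_apply {P Q : SV} {p q : ℕ} (n : ℕ) (x : P.H p) (y : Q.H q) :
    crsHL P Q p q n x y = crsH n x y := Classical.choose_spec (crsH_bilin P Q p q n) x y

/-- external product of homology classes of simplicial sets, as a bilinear map -/
noncomputable def crsPL (P Q : SS) (p q n : ℕ) :
    (lin P).H p →ₗ[ZMod 2] (lin Q).H q →ₗ[ZMod 2] (lin (P.prod Q)).H n :=
  (crsHL (lin P) (lin Q) p q n).compr₂
    (LinearEquiv.ofBijective _ (Hmap_linProd_bijective P Q n)).symm.toLinearMap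

/-- external product of homology classes of simplicial sets -/
noncomputable def crsP {P Q : SS} {p q : ℕ} (n : ℕ) (c : (lin P).H p) (d : (lin Q).H q) :
    (lin (P.prod Q)).H n := crsPL P Q p q n c d

theorem linProd_crsP {P Q : SS} {p q : ℕ} (n : ℕ) (c : (lin P).H p) (d : (lin Q).H q) :
    SV.Hmap (linProd P Q) n (crsP n c d) = crsH n c d := by
  rw [← crsHL_apply]
  exact (LinearEquiv.ofBijective _ (Hmap_linProd_bijective P Q n)).apply_symm_apply
    (crsHL (lin P) (lin Q) p q n c d)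

private theorem A3X_ext {Z : SS} {W : SV} {f g : SVHom (lin Z) W}
    (h : ∀ n (x : Z.S n), f.app n (Finsupp.single x 1) = g.app n (Finsupp.single x 1)) : f = g := by
  apply SVHom.ext
  funext n
  exact Finsupp.lhom_ext' fun x => LinearMap.ext_ring (h n x)

private theorem A3X_linProd_single (Z Z' : SS) (n : ℕ) (x : (Z.prod Z').S n) :
    (linProd Z Z').app n (Finsupp.single x 1) =
      (Finsupp.single x.1 1 : Ch Z n) ⊗ₜ[ZMod 2] (Finsupp.single x.2 1 : Ch Z' n) := by
  show linExt _ n (Finsupp.single x 1) = _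
  rw [linExt_single, one_smul]

private theorem A3X_nat {P P' Q Q' : SS} (f : Hom P P') (g : Hom Q Q') :
    (linProd P' Q').comp (linMap (Hom.prodMap f g)) =
      ((linMap f).tens (linMap g)).comp (linProd P Q) := by
  apply A3X_ext
  intro n x
  show (linProd P' Q').app n (Finsupp.mapDomain ((Hom.prodMap f g).app n) (Finsupp.single x 1)) =
    ((linMap f).tens (linMap g)).app n ((linProd P Q).app n (Finsupp.single x 1))
  rw [Finsupp.mapDomain_single, A3X_linProd_single, A3X_linProd_single]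
  show _ = TensorProduct.map _ _ (_ ⊗ₜ[ZMod 2] _)
  rw [TensorProduct.map_tmul]
  show _ = Finsupp.mapDomain (f.app n) (Finsupp.single x.1 1) ⊗ₜ[ZMod 2]
    Finsupp.mapDomain (g.app n) (Finsupp.single x.2 1)
  rw [Finsupp.mapDomain_single, Finsupp.mapDomain_single]
  rfl

private theorem A3X_crsH_map {P P' Q Q' : SV} (f : SVHom P P') (g : SVHom Q Q') {p q : ℕ} (n : ℕ)
    (c : P.H p) (d : Q.H q) :
    SV.Hmap (f.tens g) n (crsH n c d) = crsH n (SV.Hmap f p c) (SV.Hmap g q d) := by
  obtain ⟨x, hx, rfl⟩ := A3Box_exists_cls c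
  obtain ⟨y, hy, rfl⟩ := A3Box_exists_cls d
  rw [crsH_cls, SV.Hmap_cls, SV.Hmap_cls, SV.Hmap_cls, crsH_cls]
  exact A3Box_cls_congr (crs_map f g x y) _ _

theorem crsP_map {P P' Q Q' : SS} (f : Hom P P') (g : Hom Q Q') {p q : ℕ} (n : ℕ)
    (c : (lin P).H p) (d : (lin Q).H q) :
    SV.Hmap (linMap (Hom.prodMap f g)) n (crsP n c d) =
      crsP n (SV.Hmap (linMap f) p c) (SV.Hmap (linMap g) q d) := by
  apply (Hmap_linProd_bijective P' Q' n).1
  rw [linProd_crsP, ← SV.Hmap_comp, A3X_nat, SV.Hmap_comp, linProd_crsP, A3X_crsH_map]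

theorem crsP_ne {P Q : SS} {p q n : ℕ} (h : p + q ≠ n) (c : (lin P).H p) (d : (lin Q).H q) :
    crsP n c d = 0 := by
  apply (Hmap_linProd_bijective P Q n).1
  rw [linProd_crsP, map_zero]
  obtain ⟨x, hx, rfl⟩ := A3Box_exists_cls c
  obtain ⟨y, hy, rfl⟩ := A3Box_exists_cls d
  rw [crsH_cls]
  exact A3Box_cls_zero (crs_eq_zero h x y) _

theorem cup_crsP {P Q : SS} {p q n : ℕ} (h : p + q = n) (a : Hc P p) (b : Hc Q q)
    (c : (lin P).H p) (d : (lin Q).H q) :
    cup n (Hc.map (Hom.fst P Q) p a) (Hc.map (Hom.snd P Q) q b) (crsP n c d) = a c * b d := by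
  rw [cup_fst_snd, LinearMap.comp_apply, linProd_crsP]
  obtain ⟨x, hx, rfl⟩ := A3Box_exists_cls c
  obtain ⟨y, hy, rfl⟩ := A3Box_exists_cls d
  rw [crsH_cls, boxF_crs h]

theorem cup_crsP_ne {P Q : SS} {p q n p' q' : ℕ} (h : p' ≠ p) (a : Hc P p) (b : Hc Q q)
    (c : (lin P).H p') (d : (lin Q).H q') :
    cup n (Hc.map (Hom.fst P Q) p a) (Hc.map (Hom.snd P Q) q b) (crsP n c d) = 0 := by
  rw [cup_fst_snd, LinearMap.comp_apply, linProd_crsP]
  obtain ⟨x, hx, rfl⟩ := A3Box_exists_cls c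
  obtain ⟨y, hy, rfl⟩ := A3Box_exists_cls d
  rw [crsH_cls, boxF_crs_ne _ _ h x hx y hy]

theorem hc_prod_ext {P Q : SS} {n : ℕ} {y y' : Hc (P.prod Q) n}
    (h : ∀ p q, p + q = n → ∀ (c : (lin P).H p) (d : (lin Q).H q),
      y (crsP n c d) = y' (crsP n c d)) : y = y' := by
  have h1 : y.comp (LinearEquiv.ofBijective _ (Hmap_linProd_bijective P Q n)).symm.toLinearMap =
      y'.comp (LinearEquiv.ofBijective _ (Hmap_linProd_bijective P Q n)).symm.toLinearMap := by
    apply boxF_ext
    intro p q hpq u hu v hv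
    have h2 := h p q hpq ((lin P).cls u hu) ((lin Q).cls v hv)
    have h3 : crsP n ((lin P).cls u hu) ((lin Q).cls v hv) =
        (LinearEquiv.ofBijective _ (Hmap_linProd_bijective P Q n)).symm
          (((lin P).tens (lin Q)).cls (crs n u v) (crs_mem_Z hu hv)) := by
      rw [← crsH_cls u hu v hv, ← crsHL_apply]
      rfl
    rw [h3] at h2
    exact h2
  apply LinearMap.ext
  intro x
  have h4 := LinearMap.congr_fun h1 (SV.Hmap (linProd P Q) n x)
  have h5 : (LinearEquiv.ofBijective _ (Hmap_linProd_bijective P Q n)).symm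
      (SV.Hmap (linProd P Q) n x) = x :=
    (LinearEquiv.ofBijective _ (Hmap_linProd_bijective P Q n)).symm_apply_apply x
  rw [LinearMap.comp_apply, LinearMap.comp_apply, LinearEquiv.coe_coe, h5] at h4
  exact h4

end MM
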