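import Pool.Agent.Lib_MP_33f7bb_d.A3B2
import Pool.Agent.Lib_MP_33f7bb_d.A3K3
import Pool.Agent.Lib_MP_33f7bb_d.A3X

/-!
# A3-15: cohomology of `B × Z`: coefficients of the powers of `x`

`cf i m n y = (d ↦ y (crsP n (eU i) d))`: the coefficient of `x^i` of `y ∈ H^n (B × Z)`.

* `cf_ne`: `crsP_ne`.
* `cf_ext`: `hc_prod_ext` and `eq_smul_eU` (`crsP` is bilinear: `crsPL`).
* `cf_box`, `cf_box_ne`: `cup_crsP`, `cup_crsP_ne`, `xP_eU`.
* `cf_sum`: both sides have the same coefficients (`cf_ext`, `cf_box`, `cf_box_ne`).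
* `cf_cup`: write `y`, `y'` by `cf_sum`; with `X i := fst^* (xP i)`: `cup n (cup p (X i) (snd^* a)) (cup q (X j) (snd^* b)) =
  cup n (X (i+j)) (snd^* (cup (p-i+(q-j)) a b))` by commutativity and associativity (best in the commutative ring `CR (B × Z)`:
  `CR.hom_mul_hom`, `CR.map`), `xP_mul`, `Hc.map_cup`; then `cf_box`, `cf_box_ne`.
* `cf_map`: `crsP_map`.
* `cf_zero`: `eU 0` is the class of the vertex `0` of `B`; `crsP n (eU 0) d` is the image of `d` under `inclB Z`: on chains: in
  `crs n x y` with `x` of degree `0` only `a = cst 0`, `b = id` contribute, so `linProd (linMap inclB y) = crs n (single 0 1) y`.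
* `cf_snd_zero`, `cf_snd_ne`: `cf_box` with `xP 0 = Hc.unit` (`xP_zero`, `Hc.map_unit`, `cup_unit`).
-/

open scoped TensorProduct

namespace MM

variable {Z Z' : SS}

/-- the coefficient of `x^i` -/
noncomputable def cf (i m n : ℕ) : Hc (BZ2.prod Z) n →ₗ[ZMod 2] Hc Z m :=
  (crsPL BZ2 Z i m n (eU i)).dualMap

theorem cf_apply (i m n : ℕ) (y : Hc (BZ2.prod Z) n) (d : (lin Z).H m) :
    cf i m n y d = y (crsP n (eU i) d) := rfl

private theorem A3Phi_map_id (P : SS) (n : ℕ) (x : (lin P).H n) :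
    SV.Hmap (linMap (Hom.id P)) n x = x := by
  have h : linMap (Hom.id P) = SVHom.id (lin P) := by
    apply SVHom.ext
    funext k
    apply LinearMap.ext
    intro z
    exact Finsupp.mapDomain_id
  rw [h, SV.Hmap_id]

private theorem A3Phi_sum_left {Y : SS} {p q : ℕ} (n : ℕ) {ι : Type*} (s : Finset ι)
    (f : ι → Hc Y p) (b : Hc Y q) : cup n (∑ i ∈ s, f i) b = ∑ i ∈ s, cup n (f i) b := by
  classical
  induction s using Finset.induction_on with
  | empty => rw [Finset.sum_empty, Finset.sum_empty, cup_zero_left]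
  | insert i s hi ih => rw [Finset.sum_insert hi, Finset.sum_insert hi, cup_add_left, ih]

private theorem A3Phi_sum_right {Y : SS} {p q : ℕ} (n : ℕ) {ι : Type*} (s : Finset ι)
    (a : Hc Y p) (f : ι → Hc Y q) : cup n a (∑ i ∈ s, f i) = ∑ i ∈ s, cup n a (f i) := by
  classical
  induction s using Finset.induction_on with
  | empty => rw [Finset.sum_empty, Finset.sum_empty, cup_zero_right]
  | insert i s hi ih => rw [Finset.sum_insert hi, Finset.sum_insert hi, cup_add_right, ih]

/-- product of two boxes -/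
private theorem A3Phi_mul {i a' j b' p q n u v : ℕ} (h1 : i + a' = p) (h2 : j + b' = q)
    (h3 : p + q = n) (hu : i + j = u) (hv : a' + b' = v) (s : Hc Z a') (t : Hc Z b') :
    cup n (cup p (Hc.map (Hom.fst BZ2 Z) i (xP i)) (Hc.map (Hom.snd BZ2 Z) a' s))
      (cup q (Hc.map (Hom.fst BZ2 Z) j (xP j)) (Hc.map (Hom.snd BZ2 Z) b' t)) =
    cup n (Hc.map (Hom.fst BZ2 Z) u (xP u)) (Hc.map (Hom.snd BZ2 Z) v (cup v s t)) := by
  rw [cup_assoc (m' := a' + q) h1 rfl (by omega),
    ← cup_assoc (m := a' + j) rfl h2 (by omega),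
    cup_comm (n := a' + j) (Hc.map (Hom.snd BZ2 Z) a' s),
    cup_assoc (m' := v) (by omega) hv (by omega),
    ← cup_assoc (m := u) hu (by omega) (by omega),
    ← Hc.map_cup, ← Hc.map_cup, xP_mul hu]

private theorem A3Phi_crs_zero {P Q : SV} {n : ℕ} (x : P.V 0) (y : Q.V n) :
    crs n x y = P.act (cst 0) x ⊗ₜ[ZMod 2] y := by
  classical
  unfold crs
  have hu : ∀ a : Mo n 0, a = cst 0 := fun a => OrderHom.ext _ _ (funext fun i =>
    Fin.ext (by have := (a i).2; have h2 := ((cst 0 : Mo n 0) i).2; omega))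
  rw [Finset.sum_eq_single (cst 0 : Mo n 0) (fun a _ ha => absurd (hu a) ha)
    (fun h => absurd (Finset.mem_univ _) h),
    Finset.sum_eq_single (OrderHom.id : Mo n n)]
  · rw [if_pos, Q.act_id]
    exact ⟨by omega, fun i => by
      have h2 : (((cst 0 : Mo n 0) i : Fin 1) : ℕ) = 0 := by
        have := ((cst 0 : Mo n 0) i).2
        omega
      rw [h2, zero_add]
      rfl⟩
  · intro b _ hb
    rw [if_neg]
    rintro ⟨-, h⟩
    apply hb
    refine OrderHom.ext _ _ (funext fun i => Fin.ext ?_)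
    have h1 := h i
    have h2 : (((cst 0 : Mo n 0) i : Fin 1) : ℕ) = 0 := by
      have := ((cst 0 : Mo n 0) i).2
      omega
    rw [h2, zero_add] at h1
    exact h1
  · intro h
    exact absurd (Finset.mem_univ _) h

private theorem A3Phi_eU_zero : eU 0 = vcls (Z := BZ2) (0 : K1.V 0) := by
  apply (xP_bijective 0).1
  rw [xP_eU]
  show (1 : ZMod 2) = xP 0 ((lin BZ2).cls (Finsupp.single (0 : K1.V 0) 1) Submodule.mem_top)
  rw [xP_cls]
  have h : bAlt 0 = (0 : K1.V 0) := by
    apply Subtype.ext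
    funext i
    rw [bAlt_apply]
    have : (i : ℕ) = 0 := by have := i.2; omega
    rw [this]
    rfl
  rw [h]
  exact (Finsupp.single_eq_same).symm

private theorem A3Phi_linProd (n : ℕ) (z : Ch Z n) :
    (linProd BZ2 Z).app n ((linMap (inclB Z)).app n z) =
      (Finsupp.single (0 : K1.V n) 1 : Ch BZ2 n) ⊗ₜ[ZMod 2] z := by
  have h : ((linProd BZ2 Z).app n).comp ((linMap (inclB Z)).app n) =
      TensorProduct.mk (ZMod 2) (Ch BZ2 n) (Ch Z n) (Finsupp.single (0 : K1.V n) 1) := by
    refine Finsupp.lhom_ext fun x r => ?_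
    have h1 : (Finsupp.single x r : Ch Z n) = r • Finsupp.single x 1 := by
      rw [Finsupp.smul_single, smul_eq_mul, mul_one]
    rw [h1, map_smul, map_smul]
    congr 1
    show (linProd BZ2 Z).app n (Finsupp.mapDomain ((inclB Z).app n) (Finsupp.single x 1)) = _
    rw [Finsupp.mapDomain_single]
    show linExt _ n (Finsupp.single _ 1) = _
    rw [linExt_single, one_smul]
    rfl
  exact LinearMap.congr_fun h z

private theorem A3Phi_crsP_zero (n : ℕ) (d : (lin Z).H n) :
    crsP n (eU 0) d = SV.Hmap (linMap (inclB Z)) n d := by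
  obtain ⟨z, hz, rfl⟩ := A3Box_exists_cls d
  apply (Hmap_linProd_bijective BZ2 Z n).1
  rw [linProd_crsP, A3Phi_eU_zero, SV.Hmap_cls, SV.Hmap_cls]
  show crsH n ((lin BZ2).cls (Finsupp.single (0 : K1.V 0) 1) Submodule.mem_top) _ = _
  rw [crsH_cls]
  apply A3Box_cls_congr
  rw [A3Phi_crs_zero, A3Phi_linProd]
  congr 1
  show Finsupp.mapDomain _ (Finsupp.single _ 1) = _
  rw [Finsupp.mapDomain_single]
  congr 1

private theorem A3Phi_snd {n : ℕ} (a : Hc Z n) :
    cup n (Hc.map (Hom.fst BZ2 Z) 0 (xP 0)) (Hc.map (Hom.snd BZ2 Z) n a) =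
      Hc.map (Hom.snd BZ2 Z) n a := by
  rw [xP_zero, Hc.map_unit, cup_unit]

theorem cf_ne {i m n : ℕ} (h : i + m ≠ n) (y : Hc (BZ2.prod Z) n) : cf i m n y = 0 := by
  apply LinearMap.ext
  intro d
  rw [cf_apply, crsP_ne h, map_zero, LinearMap.zero_apply]

theorem cf_ext {n : ℕ} {y y' : Hc (BZ2.prod Z) n}
    (h : ∀ i m, i + m = n → cf i m n y = cf i m n y') : y = y' := by
  apply hc_prod_ext
  intro p q hpq c d
  have h1 : crsP n c d = xP p c • crsP n (eU p) d := by
    conv_lhs => rw [eq_smul_eU p c]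
    show crsPL BZ2 Z p q n (xP p c • eU p) d = _
    rw [map_smul, LinearMap.smul_apply]
    rfl
  rw [h1, map_smul, map_smul, ← cf_apply, ← cf_apply, h p q hpq]

theorem cf_box {j q n : ℕ} (h : j + q = n) (a : Hc Z q) :
    cf j q n (cup n (Hc.map (Hom.fst BZ2 Z) j (xP j)) (Hc.map (Hom.snd BZ2 Z) q a)) = a := by
  apply LinearMap.ext
  intro d
  rw [cf_apply, cup_crsP h, xP_eU, one_mul]

theorem cf_box_ne {i m j q n : ℕ} (h : i ≠ j) (a : Hc Z q) :
    cf i m n (cup n (Hc.map (Hom.fst BZ2 Z) j (xP j)) (Hc.map (Hom.snd BZ2 Z) q a)) = 0 := by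
  apply LinearMap.ext
  intro d
  rw [cf_apply, cup_crsP_ne h, LinearMap.zero_apply]

theorem cf_sum {n : ℕ} (y : Hc (BZ2.prod Z) n) :
    y = ∑ i ∈ Finset.range (n + 1), cup n (Hc.map (Hom.fst BZ2 Z) i (xP i))
      (Hc.map (Hom.snd BZ2 Z) (n - i) (cf i (n - i) n y)) := by
  apply cf_ext
  intro i m him
  rw [map_sum, Finset.sum_eq_single i]
  · obtain rfl : m = n - i := by omega
    rw [cf_box him]
  · intro j _ hne
    exact cf_box_ne hne.symm _
  · intro h
    exact absurd (Finset.mem_range.2 (by omega)) h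

theorem cf_cup {p q n k m : ℕ} (h : p + q = n) (hk : k + m = n) (y : Hc (BZ2.prod Z) p)
    (y' : Hc (BZ2.prod Z) q) :
    cf k m n (cup n y y') = ∑ i ∈ Finset.range (k + 1),
      cup m (cf i (p - i) p y) (cf (k - i) (q - (k - i)) q y') := by
  classical
  have h0 : ∀ i ∈ Finset.range (p + 1), ∀ j ∈ Finset.range (q + 1),
      cf k m n (cup n (cup p (Hc.map (Hom.fst BZ2 Z) i (xP i))
        (Hc.map (Hom.snd BZ2 Z) (p - i) (cf i (p - i) p y)))
        (cup q (Hc.map (Hom.fst BZ2 Z) j (xP j))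
        (Hc.map (Hom.snd BZ2 Z) (q - j) (cf j (q - j) q y')))) =
      if i + j = k then cup m (cf i (p - i) p y) (cf j (q - j) q y') else 0 := by
    intro i hi j hj
    rw [Finset.mem_range] at hi hj
    rw [A3Phi_mul (u := i + j) (v := p - i + (q - j)) (by omega) (by omega) h rfl rfl]
    by_cases hij : i + j = k
    · rw [if_pos hij]
      subst hij
      obtain rfl : m = p - i + (q - j) := by omega
      rw [cf_box hk]
    · rw [if_neg hij, cf_box_ne (fun h => hij h.symm)]
  have h1 : cf k m n (cup n y y') = ∑ i ∈ Finset.range (p + 1), ∑ j ∈ Finset.range (q + 1),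
      if i + j = k then cup m (cf i (p - i) p y) (cf j (q - j) q y') else 0 := by
    conv_lhs => rw [cf_sum y, cf_sum y']
    rw [A3Phi_sum_left, map_sum]
    refine Finset.sum_congr rfl fun i hi => ?_
    rw [A3Phi_sum_right, map_sum]
    exact Finset.sum_congr rfl fun j hj => h0 i hi j hj
  have h2 : ∀ i ∈ Finset.range (p + 1), (∑ j ∈ Finset.range (q + 1),
      if i + j = k then cup m (cf i (p - i) p y) (cf j (q - j) q y') else 0) =
      if i ∈ Finset.range (k + 1) then
        cup m (cf i (p - i) p y) (cf (k - i) (q - (k - i)) q y') else 0 := by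
    intro i hi
    by_cases hik : i ≤ k
    · rw [if_pos (Finset.mem_range.2 (by omega))]
      by_cases hq : k - i ≤ q
      · rw [Finset.sum_eq_single (k - i)]
        · rw [if_pos (by omega)]
        · intro j _ hj
          exact if_neg (by omega)
        · intro h
          exact absurd (Finset.mem_range.2 (by omega)) h
      · rw [cf_ne (i := k - i) (by omega), cup_zero_right]
        refine Finset.sum_eq_zero fun j hj => ?_
        rw [Finset.mem_range] at hj
        exact if_neg (by omega)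
    · rw [if_neg (fun h => hik (by rw [Finset.mem_range] at h; omega))]
      exact Finset.sum_eq_zero fun j _ => if_neg (by omega)
  rw [h1, Finset.sum_congr rfl h2, Finset.sum_ite_mem]
  refine Finset.sum_subset Finset.inter_subset_right fun i hi hi' => ?_
  have hip : p < i := by
    by_contra hc
    exact hi' (Finset.mem_inter.2 ⟨Finset.mem_range.2 (by omega), hi⟩)
  rw [cf_ne (i := i) (n := p) (by omega), cup_zero_left]

theorem cf_map (f : Hom Z Z') (i m n : ℕ) (y : Hc (BZ2.prod Z') n) :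
    cf i m n (Hc.map (Hom.prodMap (Hom.id BZ2) f) n y) = Hc.map f m (cf i m n y) := by
  apply LinearMap.ext
  intro d
  rw [cf_apply]
  show y (SV.Hmap (linMap (Hom.prodMap (Hom.id BZ2) f)) n (crsP n (eU i) d)) =
    y (crsP n (eU i) (SV.Hmap (linMap f) m d))
  rw [crsP_map, A3Phi_map_id]

theorem cf_zero (n : ℕ) (y : Hc (BZ2.prod Z) n) : cf 0 n n y = Hc.map (inclB Z) n y := by
  apply LinearMap.ext
  intro d
  rw [cf_apply, A3Phi_crsP_zero]
  rfl

theorem cf_snd_zero (n : ℕ) (a : Hc Z n) : cf 0 n n (Hc.map (Hom.snd BZ2 Z) n a) = a := by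
  rw [← A3Phi_snd, cf_box (zero_add n)]

theorem cf_snd_ne {i m n : ℕ} (h : i ≠ 0) (a : Hc Z n) :
    cf i m n (Hc.map (Hom.snd BZ2 Z) n a) = 0 := by
  rw [← A3Phi_snd, cf_box_ne h]

end MM
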