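import Pool.Agent.Lib_MP_33f7bb_d.A4R4

/-!
# A4-05: Kuenneth for bases of the cohomology ring

`CBasis.prod`: by `cup_fst_snd` the element `fst^* (a i) * snd^* (b j)` is the functional
`boxF n (a i) (b j)` on `H_n (lin Z ⊗ lin Z')` (iso `Hmap_linProd_bijective`).
Spanning: `boxF_span` (finite dimensionality: `CBasis.finite_H`) and bilinearity of `boxF`.
Independence: let `y_i`, `y'_j` be the dual bases in homology (`CBasis.dual`), of degrees `dg i`, `dg' j`; the class of the cross
product of representing cycles, `crsH n (y_i) (y'_j)`, pairs with `boxF n (a k) (b l)` to `δ_(ik) δ_(jl)` (`boxF_crs`,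
`boxF_crs_ne`), so a vanishing combination has vanishing coefficients.
`CSimple.prod`, `CPoly.prod`: reindex by `Finset (I ⊕ I') ≃ Finset I × Finset I'` (`Finset.disjSum`, `Finset.toLeft`, `toRight`),
resp. `(I ⊕ I' →₀ ℕ) ≃ (I →₀ ℕ) × (I' →₀ ℕ)` (`Finsupp.sumFinsuppEquivProdFinsupp`), and multiplicativity of `CR.map`.
-/

open scoped TensorProduct

namespace MM

variable {Z Z' : SS} {I I' : Type} {dg : I → ℕ} {a : I → CR Z} {dg' : I' → ℕ} {a' : I' → CR Z'}

/-- the value of `boxF` on products of homology classes -/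
private theorem A4R5_box {P Q : SV} {p q n : ℕ} (h : p + q = n) (a : Module.Dual (ZMod 2) (P.H p))
    (b : Module.Dual (ZMod 2) (Q.H q)) (x : P.H p) (y : Q.H q) :
    boxF n a b (crsH n x y) = a x * b y := by
  obtain ⟨x, hx, rfl⟩ := A3Box_exists_cls x
  obtain ⟨y, hy, rfl⟩ := A3Box_exists_cls y
  rw [crsH_cls, boxF_crs h]

private theorem A4R5_box_ne {P Q : SV} {p q n p' q' : ℕ} (a : Module.Dual (ZMod 2) (P.H p))
    (b : Module.Dual (ZMod 2) (Q.H q)) (hp : p' ≠ p) (x : P.H p') (y : Q.H q') :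
    boxF n a b (crsH n x y) = 0 := by
  obtain ⟨x, hx, rfl⟩ := A3Box_exists_cls x
  obtain ⟨y, hy, rfl⟩ := A3Box_exists_cls y
  rw [crsH_cls]
  exact boxF_crs_ne a b hp x hx y hy

/-- span form of the second part of `CBasisAt` -/
private theorem A4R5_span {d : ℕ} (h : CBasisAt Z dg a d) (y : Hc Z d) :
    y ∈ Submodule.span (ZMod 2) ((fun i => a i d) '' {i | dg i = d}) := by
  obtain ⟨c, hc, rfl⟩ := h.2 y
  rw [Finsupp.mem_span_image_iff_linearCombination]
  exact ⟨c, fun i hi => hc i (Finsupp.mem_support_iff.1 hi), rfl⟩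

/-- a component of a product of homogeneous elements -/
private theorem A4R5_mul {p q d : ℕ} (hd : p + q = d) {b : CR Z} (b' : CR Z')
    (hb : CR.IsHom p b) :
    (CR.map (Hom.fst Z Z') b * CR.map (Hom.snd Z Z') b') d =
      (boxF d (b p) (b' q)).comp (SV.Hmap (linProd Z Z') d) := by
  rw [CR.mul_apply, Finset.sum_eq_single p]
  · obtain rfl : q = d - p := by omega
    rw [CR.map_apply, CR.map_apply, cup_fst_snd]
  · intro k _ hk
    rw [CR.map_apply, hb k hk, map_zero, cup_zero_left]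
  · intro h
    exact absurd (Finset.mem_range.2 (by omega)) h

private theorem A4R5_fin (h : ∀ d, {i | dg i = d}.Finite) (d : ℕ) : {i | dg i ≤ d}.Finite := by
  refine Set.Finite.subset (Set.Finite.biUnion (Finset.finite_toSet (Finset.range (d + 1)))
    (fun k _ => h k)) ?_
  intro i hi
  rw [Set.mem_iUnion₂]
  exact ⟨dg i, by simpa [Nat.lt_succ_iff] using hi, rfl⟩

/-- independence of the products -/
private theorem A4R5_li (h : CBasis Z dg a) (h' : CBasis Z' dg' a') (d : ℕ)
    (c : I × I' →₀ ZMod 2) (hc : ∀ x, c x ≠ 0 → dg x.1 + dg' x.2 = d)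
    (hs : (c.sum fun x r => r • (CR.map (Hom.fst Z Z') (a x.1) *
      CR.map (Hom.snd Z Z') (a' x.2)) d) = 0) : c = 0 := by
  classical
  obtain ⟨y, -, hy, -⟩ := h.dual
  obtain ⟨y', -, hy', -⟩ := h'.dual
  ext x0
  by_contra hx0
  have hx0' : c x0 ≠ 0 := hx0
  have hd0 := hc x0 hx0'
  obtain ⟨w, hw⟩ := (Hmap_linProd_bijective Z Z' d).2 (crsH d (y x0.1 (dg x0.1)) (y' x0.2 (dg' x0.2)))
  have h1 := LinearMap.congr_fun hs w
  rw [Finsupp.sum, LinearMap.sum_apply, LinearMap.zero_apply, Finset.sum_eq_single x0] at h1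
  · rw [LinearMap.smul_apply, A4R5_mul hd0 _ (h.hom x0.1), LinearMap.comp_apply, hw,
      A4R5_box hd0, hy x0.1 x0.1 _ rfl, hy' x0.2 x0.2 _ rfl, if_pos rfl, if_pos rfl, mul_one,
      smul_eq_mul, mul_one] at h1
    exact hx0' h1
  · intro x hx hne
    have hdx := hc x (Finsupp.mem_support_iff.1 hx)
    rw [LinearMap.smul_apply]
    by_cases h2 : dg x.1 = dg x0.1
    · have h3 : dg' x.2 = dg' x0.2 := by omega
      have h4 : CR.IsHom (dg x0.1) (a x.1) := h2 ▸ h.hom x.1
      rw [A4R5_mul hd0 _ h4, LinearMap.comp_apply, hw, A4R5_box hd0,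
        hy x0.1 x.1 _ h2, hy' x0.2 x.2 _ h3]
      by_cases h5 : x0.1 = x.1
      · by_cases h6 : x0.2 = x.2
        · exact absurd (Prod.ext h5 h6).symm hne
        · rw [if_neg h6, mul_zero, smul_zero]
      · rw [if_neg h5, zero_mul, smul_zero]
    · rw [A4R5_mul hdx _ (h.hom x.1), LinearMap.comp_apply, hw,
        A4R5_box_ne _ _ (fun h7 => h2 h7.symm), smul_zero]
  · intro h2
    rw [Finsupp.notMem_support_iff.1 h2, zero_smul, LinearMap.zero_apply]

/-- the products of two classes -/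
private theorem A4R5_gen (h : CBasis Z dg a) (h' : CBasis Z' dg' a') {p q d : ℕ} (hd : p + q = d)
    (α : Hc Z p) (β : Hc Z' q) :
    (boxF d α β).comp (SV.Hmap (linProd Z Z') d) ∈ Submodule.span (ZMod 2)
      ((fun x : I × I' => (CR.map (Hom.fst Z Z') (a x.1) * CR.map (Hom.snd Z Z') (a' x.2)) d) ''
        {x | dg x.1 + dg' x.2 = d}) := by
  have h01 : ∀ r : ZMod 2, r = 0 ∨ r = 1 := by decide
  have hzl : ∀ β : Hc Z' q, boxF (P := lin Z) d (0 : Hc Z p) β = 0 := by
    intro β
    have h1 := boxF_add_left (n := d) (0 : Hc Z p) 0 β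
    rw [add_zero] at h1
    exact left_eq_add.1 h1
  have hzr : ∀ α : Hc Z p, boxF (Q := lin Z') d α (0 : Hc Z' q) = 0 := by
    intro α
    have h1 := boxF_add_right (n := d) α (0 : Hc Z' q) 0
    rw [add_zero] at h1
    exact left_eq_add.1 h1
  have hα := A4R5_span (h.bas p) α
  have hβ := A4R5_span (h'.bas q) β
  induction hα using Submodule.span_induction with
  | mem α hα =>
    obtain ⟨i, hi, rfl⟩ := hα
    induction hβ using Submodule.span_induction with
    | mem β hβ =>
      obtain ⟨j, hj, rfl⟩ := hβ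
      have hi' : dg i = p := hi
      have hj' : dg' j = q := hj
      apply Submodule.subset_span
      refine ⟨(i, j), ?_, ?_⟩
      · show dg i + dg' j = d
        rw [hi', hj', hd]
      · have h4 : CR.IsHom p (a i) := hi' ▸ h.hom i
        exact A4R5_mul hd (a' j) h4
    | zero =>
      rw [hzr, LinearMap.zero_comp]
      exact Submodule.zero_mem _
    | add β β' _ _ h1 h2 =>
      rw [boxF_add_right, LinearMap.add_comp]
      exact Submodule.add_mem _ h1 h2
    | smul r β _ h1 =>
      rcases h01 r with rfl | rfl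
      · rw [zero_smul, hzr, LinearMap.zero_comp]
        exact Submodule.zero_mem _
      · rw [one_smul]
        exact h1
  | zero =>
    rw [hzl, LinearMap.zero_comp]
    exact Submodule.zero_mem _
  | add α α' _ _ h1 h2 =>
    rw [boxF_add_left, LinearMap.add_comp]
    exact Submodule.add_mem _ h1 h2
  | smul r α _ h1 =>
    rcases h01 r with rfl | rfl
    · rw [zero_smul, hzl, LinearMap.zero_comp]
      exact Submodule.zero_mem _
    · rw [one_smul]
      exact h1

/-- the products span -/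
private theorem A4R5_sp (h : CBasis Z dg a) (h' : CBasis Z' dg' a') (d : ℕ)
    (F : Hc (Z.prod Z') d) : F ∈ Submodule.span (ZMod 2)
      ((fun x : I × I' => (CR.map (Hom.fst Z Z') (a x.1) * CR.map (Hom.snd Z Z') (a' x.2)) d) ''
        {x | dg x.1 + dg' x.2 = d}) := by
  let L : (lin (Z.prod Z')).H d ≃ₗ[ZMod 2] ((lin Z).tens (lin Z')).H d :=
    LinearEquiv.ofBijective (SV.Hmap (linProd Z Z') d) (Hmap_linProd_bijective Z Z' d)
  have hF : F = (F.comp L.symm.toLinearMap).comp (SV.Hmap (linProd Z Z') d) := by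
    apply LinearMap.ext
    intro w
    show F w = F (L.symm (L w))
    rw [LinearEquiv.symm_apply_apply]
  have h1 := boxF_span (P := lin Z) (Q := lin Z') (fun p => h.finite_H p) (fun q => h'.finite_H q)
    d (F.comp L.symm.toLinearMap)
  rw [hF]
  generalize F.comp L.symm.toLinearMap = F' at h1
  induction h1 using Submodule.span_induction with
  | mem G hG =>
    obtain ⟨p, q, hpq, α, β, rfl⟩ := hG
    exact A4R5_gen h h' hpq α β
  | zero =>
    rw [LinearMap.zero_comp]
    exact Submodule.zero_mem _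
  | add G G' _ _ h1 h2 =>
    rw [LinearMap.add_comp]
    exact Submodule.add_mem _ h1 h2
  | smul r G _ h1 =>
    rw [LinearMap.smul_comp]
    exact Submodule.smul_mem _ _ h1

theorem CBasis.prod (h : CBasis Z dg a) (h' : CBasis Z' dg' a') :
    CBasis (Z.prod Z') (fun x : I × I' => dg x.1 + dg' x.2)
      (fun x => CR.map (Hom.fst Z Z') (a x.1) * CR.map (Hom.snd Z Z') (a' x.2)) := by
  refine ⟨fun x => ((h.hom x.1).map _).mul ((h'.hom x.2).map _), fun d => ?_, fun d => ⟨?_, ?_⟩⟩
  · refine Set.Finite.subset ((A4R5_fin h.fin d).prod (A4R5_fin h'.fin d)) ?_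
    intro x hx
    have hx' : dg x.1 + dg' x.2 = d := hx
    exact ⟨show dg x.1 ≤ d by omega, show dg' x.2 ≤ d by omega⟩
  · intro c hc hs
    exact A4R5_li h h' d c hc hs
  · intro F
    have h1 := A4R5_sp h h' d F
    rw [Finsupp.mem_span_image_iff_linearCombination] at h1
    obtain ⟨c, hc, hc'⟩ := h1
    exact ⟨c, fun x hx => hc (Finsupp.mem_support_iff.2 hx), hc'⟩

theorem CSimple.prod (h : CSimple Z dg a) (h' : CSimple Z' dg' a') :
    CSimple (Z.prod Z') (Sum.elim dg dg')
      (Sum.elim (fun i => CR.map (Hom.fst Z Z') (a i)) (fun i => CR.map (Hom.snd Z Z') (a' i))) := by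
  refine ((CBasis.prod h h').reindex (Finset.sumEquiv (α := I) (β := I')).toEquiv).congr ?_ ?_
  · intro D
    show ∑ i ∈ D, Sum.elim dg dg' i = ∑ i ∈ D.toLeft, dg i + ∑ i ∈ D.toRight, dg' i
    exact Finset.sum_sum_eq_sum_toLeft_add_sum_toRight D _
  · intro D
    show _ = CR.map (Hom.fst Z Z') (∏ i ∈ D.toLeft, a i) *
      CR.map (Hom.snd Z Z') (∏ i ∈ D.toRight, a' i)
    rw [Finset.prod_sum_eq_prod_toLeft_mul_prod_toRight, map_prod, map_prod]
    rfl

theorem CPoly.prod (h : CPoly Z dg a) (h' : CPoly Z' dg' a') :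
    CPoly (Z.prod Z') (Sum.elim dg dg')
      (Sum.elim (fun i => CR.map (Hom.fst Z Z') (a i)) (fun i => CR.map (Hom.snd Z Z') (a' i))) := by
  refine ((CBasis.prod h h').reindex
    (Finsupp.sumFinsuppEquivProdFinsupp (α := I) (β := I') (γ := ℕ))).congr ?_ ?_
  · intro e
    obtain ⟨⟨u, v⟩, rfl⟩ := (Finsupp.sumFinsuppEquivProdFinsupp
      (α := I) (β := I') (γ := ℕ)).symm.surjective e
    rw [Equiv.apply_symm_apply]
    exact Finsupp.sum_sumElim u v _
  · intro e
    obtain ⟨⟨u, v⟩, rfl⟩ := (Finsupp.sumFinsuppEquivProdFinsupp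
      (α := I) (β := I') (γ := ℕ)).symm.surjective e
    rw [Equiv.apply_symm_apply]
    show (u.sumElim v).prod _ = _
    rw [Finsupp.prod_sumElim, Finsupp.prod, Finsupp.prod, Finsupp.prod, Finsupp.prod, map_prod,
      map_prod]
    congr 1
    · exact Finset.prod_congr rfl fun i _ => (map_pow _ _ _).symm
    · exact Finset.prod_congr rfl fun i _ => (map_pow _ _ _).symm

/-- the value of an external product on a cross product (unreduced) -/
theorem cup_ext_crs {p q n : ℕ} (hn : p + q = n) (b : Hc Z p) (c : Hc Z' q) (w : (lin (Z.prod Z')).H n)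
    (x : (lin Z).H p) (y : (lin Z').H q) (hw : SV.Hmap (linProd Z Z') n w = crsH n x y) :
    cup n (Hc.map (Hom.fst Z Z') p b) (Hc.map (Hom.snd Z Z') q c) w = b x * c y := by
  rw [cup_fst_snd, LinearMap.comp_apply, hw, A4R5_box hn]

end MM
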