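import Pool.Agent.Lib_MP_33f7bb_d.A3B2
import Pool.Agent.Lib_MP_33f7bb_d.A4R5

/-!
# A3-20: the cohomology ring of `B(ZMod 2)^I`, `I` finite, is a polynomial ring

* `CPoly_B`: `(xB)^n = CR.hom n (xP n)` (`xB_pow`) and `xP n` is a basis of `Hc BZ2 n` (`Hc_B_eq`, `xP_eU`); index set
  `Unit →₀ ℕ`.
* `CPoly_Bpow`: induction on the finite type `I` (`Finite.induction_empty_option`): invariance under `I ≃ J` (the isomorphism of
  simplicial sets `Bpow I ≅ Bpow J` and `CBasis.of_iso`, `CBasis.reindex`); `I = PEmpty`: `Bpow I` has one simplex in each dimension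
  (as `PT`: cycles of positive degree are boundaries, `H_0 = F`), the only monomial is `1`; `Option I`: the isomorphism
  `Bpow (Option I) → BZ2 × Bpow I` (bijective in every degree, `Hmap_bijective`), `CPoly.prod` for `Unit ⊕ I`, reindexing along
  `Unit ⊕ I ≃ Option I`, and `CR.map (fst) (CR.hom 1 xB)` etc. pull back to the classes `xI`.
* `pol_injective`, `exists_pol`: linear independence / spanning of the monomials `e ↦ ∏ (xI i)^(e i)`: `pol (monomial e r) =
  r • ∏ ..`; a polynomial `f` with `pol f = 0` has all homogeneous components `f_d` with `(pol f_d) d = (pol f) d = 0`.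
* `pol_isHom`: monomials of degree `n` go to homogeneous elements of degree `n` (`CR.IsHom.prod`, `CR.IsHom.mul`).
-/

open scoped TensorProduct

namespace MM

private theorem A3Pol1_hom_self {Z : SS} (n : ℕ) (a : Hc Z n) : (CR.hom n a : CR Z) n = a :=
  Pi.single_eq_same n a

private theorem A3Pol1_ssum {Z : SS} {I : Type} (a : I → CR Z) (d : ℕ) (i : I) (r : ZMod 2) :
    ((Finsupp.single i r).sum fun i r => r • (a i d : Hc Z d)) = r • (a i d : Hc Z d) :=
  Finsupp.sum_single_index (zero_smul _ _)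

private theorem A3Pol1_eq_single {I : Type} (c : I →₀ ZMod 2) (d : I)
    (h : ∀ i, c i ≠ 0 → i = d) : c = Finsupp.single d (c d) := by
  refine Finsupp.ext fun i => ?_
  by_cases hi : i = d
  · subst hi
    rw [Finsupp.single_eq_same]
  · rw [Finsupp.single_eq_of_ne hi]
    by_contra hne
    exact hi (h i hne)

private theorem A3Pol1_lin {Z Z' : SS} (f : Hom Z Z') (hf : ∀ n, Function.Bijective (f.app n))
    (n : ℕ) : Function.Bijective ((linMap f).app n) :=
  ⟨Finsupp.mapDomain_injective (hf n).1, Finsupp.mapDomain_surjective (hf n).2⟩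

/-- transport of polynomial generators along an isomorphism and a bijection of the index sets -/
private theorem A3Pol1_re {Z Z' : SS} {I J : Type} {dg : I → ℕ} {z : I → CR Z} {dg' : J → ℕ}
    {z' : J → CR Z'} (h : CPoly Z' dg' z') (f : Hom Z Z')
    (hf : ∀ n, Function.Bijective (f.app n)) (e : I ≃ J) (hd : ∀ i, dg i = dg' (e i))
    (hz : ∀ i, z i = CR.map f (z' (e i))) : CPoly Z dg z := by
  refine ((CBasis.of_iso f (Hmap_bijective _ (A3Pol1_lin f hf)) h).reindex
    (Finsupp.equivCongrLeft e)).congr ?_ ?_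
  · intro m
    rw [Finsupp.equivCongrLeft_apply, Finsupp.sum_equivMapDomain]
    exact Finsupp.sum_congr fun i _ => by rw [hd]
  · intro m
    rw [Finsupp.equivCongrLeft_apply, Finsupp.prod_equivMapDomain, Finsupp.prod, Finsupp.prod,
      map_prod]
    exact Finset.prod_congr rfl fun i _ => by rw [hz, map_pow]

private theorem A3Pol1_basB : CBasis BZ2 (fun n : ℕ => n) (fun n => CR.hom n (xP n)) := by
  refine ⟨fun n => CR.isHom_hom n _, fun d => ?_, fun d => ⟨fun c hc h0 => ?_, fun y => ?_⟩⟩
  · refine (Set.finite_singleton d).subset ?_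
    intro i hi
    exact hi
  · have hc1 : c = Finsupp.single d (c d) := A3Pol1_eq_single c d hc
    rw [hc1] at h0
    have h1 : c d • xP d = 0 := by
      rw [← (A3Pol1_ssum (fun n => CR.hom n (xP n)) d d (c d)).symm.trans h0]
      exact congrArg (fun w : Hc BZ2 d => c d • w) (A3Pol1_hom_self d (xP d)).symm
    have h2 := LinearMap.congr_fun h1 (eU d)
    rw [LinearMap.smul_apply, xP_eU, smul_eq_mul, mul_one] at h2
    rw [hc1, h2]
    exact Finsupp.single_zero _
  · refine ⟨Finsupp.single d (y (eU d)), fun i hi => ?_, ?_⟩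
    · by_contra hne
      exact hi (Finsupp.single_eq_of_ne hne)
    · refine (A3Pol1_ssum (fun n => CR.hom n (xP n)) d d (y (eU d))).trans ?_
      refine Eq.trans ?_ (Hc_B_eq d y).symm
      exact congrArg (fun w : Hc BZ2 d => y (eU d) • w) (A3Pol1_hom_self d (xP d))

theorem CPoly_B : CPoly BZ2 (fun _ : Unit => 1) (fun _ => CR.hom 1 xB) := by
  have hs : ∀ e : Unit →₀ ℕ, e = Finsupp.single () (e ()) := by
    intro e
    refine Finsupp.ext fun i => ?_
    rw [Finsupp.single_eq_same]
  refine (A3Pol1_basB.reindex (Finsupp.uniqueEquiv (M := ℕ) ())).congr ?_ ?_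
  · intro e
    rw [hs e, Finsupp.sum_single_index (by ring)]
    rw [mul_one]
    simp
  · intro e
    have h1 : (Finsupp.single () (e ())).prod (fun (_ : Unit) (k : ℕ) =>
        (CR.hom 1 xB : CR BZ2) ^ k) = (CR.hom 1 xB : CR BZ2) ^ (e ()) :=
      Finsupp.prod_single_index (pow_zero _)
    rw [← hs e] at h1
    exact h1.trans (xB_pow _)

private theorem A3Pol1_pt_d (k : ℕ) (z : Ch PT (k + 1)) :
    (lin PT).d k z = ((k + 2 : ℕ) : ZMod 2) • (z : Ch PT k) := by
  rw [SV.d, LinearMap.sum_apply]
  have h : ∀ i : Fin (k + 2), (lin PT).act (dlt i) z = (z : Ch PT k) := by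
    intro i
    show Finsupp.mapDomain (PT.act (dlt i)) z = z
    exact Finsupp.mapDomain_id
  rw [Finset.sum_congr rfl (fun i _ => h i), Finset.sum_const, Finset.card_univ,
    Fintype.card_fin, Nat.cast_smul_eq_nsmul]

private theorem A3Pol1_pt_B {p : ℕ} (hp : p ≠ 0) {z : Ch PT p} (hz : z ∈ (lin PT).Z p) :
    z ∈ (lin PT).B p := by
  obtain ⟨k, rfl⟩ := Nat.exists_eq_succ_of_ne_zero hp
  have h1 : (lin PT).d k z = 0 := hz
  rw [A3Pol1_pt_d] at h1
  have hc : ∀ a : ZMod 2, a = 1 ∨ (a = 0 ∧ a + 1 = 1) := by decide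
  rcases hc ((k + 2 : ℕ) : ZMod 2) with h3 | ⟨h3, h4⟩
  · rw [h3, one_smul] at h1
    have h4 : z = 0 := h1
    rw [h4]
    exact Submodule.zero_mem _
  · refine ⟨(z : Ch PT (k + 2)), ?_⟩
    have h2 := A3Pol1_pt_d (k + 1) z
    refine h2.trans ?_
    have h5 : ((k + 1 + 2 : ℕ) : ZMod 2) = 1 := by
      rw [← h4]
      push_cast
      ring
    rw [h5, one_smul]

private theorem A3Pol1_pt_bas : CBasis PT (fun _ : PEmpty →₀ ℕ => 0) (fun _ => (1 : CR PT)) := by
  have hv : Hc.unit PT ((lin PT).cls (Finsupp.single () 1) Submodule.mem_top) = 1 := by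
    rw [Hc.unit_cls, Finsupp.sum_single_index rfl]
  refine ⟨fun _ => CR.isHom_one, fun d => Set.toFinite _, fun d => ?_⟩
  rcases Nat.eq_zero_or_pos d with rfl | hd
  · refine ⟨fun c _ h0 => ?_, fun y => ?_⟩
    · have hc1 : c = Finsupp.single 0 (c 0) :=
        A3Pol1_eq_single c 0 fun i _ => Subsingleton.elim _ _
      rw [hc1] at h0
      have h1 : c 0 • Hc.unit PT = 0 :=
        (A3Pol1_ssum (fun _ : PEmpty →₀ ℕ => (1 : CR PT)) 0 0 (c 0)).symm.trans h0
      have h2 := LinearMap.congr_fun h1 ((lin PT).cls (Finsupp.single () 1) Submodule.mem_top)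
      rw [LinearMap.smul_apply, hv, smul_eq_mul, mul_one] at h2
      rw [hc1, h2]
      exact Finsupp.single_zero _
    · refine ⟨Finsupp.single 0 (y ((lin PT).cls (Finsupp.single () 1) Submodule.mem_top)),
        fun _ _ => rfl, ?_⟩
      refine (A3Pol1_ssum (fun _ : PEmpty →₀ ℕ => (1 : CR PT)) 0 0 _).trans ?_
      show y _ • Hc.unit PT = y
      apply LinearMap.ext
      intro w
      obtain ⟨z, hz, rfl⟩ := A3Box_exists_cls w
      rw [LinearMap.smul_apply]
      have hz1 : z = (z ()) • (Finsupp.single () 1 : Ch PT 0) := by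
        ext
        simp
      have hz2 : (lin PT).cls z hz = (z ()) • (lin PT).cls (Finsupp.single () 1) Submodule.mem_top := by
        rw [← A3Box_cls_smul]
        exact A3Box_cls_congr hz1 _ _
      rw [hz2, (Hc.unit PT).map_smul, y.map_smul, hv, smul_eq_mul, smul_eq_mul, smul_eq_mul,
        mul_one, mul_comm]
  · have h0 : ∀ w : (lin PT).H d, w = 0 := by
      intro w
      obtain ⟨z, hz, rfl⟩ := A3Box_exists_cls w
      exact (Submodule.Quotient.mk_eq_zero _).2 (A3Pol1_pt_B (by omega) hz)
    refine ⟨fun c hc _ => ?_, fun y => ⟨0, fun i hi => absurd rfl hi, ?_⟩⟩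
    · refine Finsupp.ext fun i => ?_
      by_contra hi
      have h1 : 0 = d := hc i hi
      omega
    · rw [Finsupp.sum_zero_index]
      apply LinearMap.ext
      intro w
      rw [h0 w, map_zero, map_zero]

private def A3Pol1_fE : Hom (Bpow PEmpty) PT := ⟨fun _ _ => (), fun _ _ => rfl⟩

private theorem A3Pol1_empty : CPoly (Bpow PEmpty) (fun _ : PEmpty => 1)
    (fun i => CR.hom 1 (xI i)) := by
  have hf : ∀ n, Function.Bijective (A3Pol1_fE.app n) := by
    intro n
    constructor
    · intro x y _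
      funext i
      exact i.elim
    · intro _
      exact ⟨fun i => i.elim, rfl⟩
  refine (CBasis.of_iso A3Pol1_fE (Hmap_bijective _ (A3Pol1_lin _ hf)) A3Pol1_pt_bas).congr ?_ ?_
  · intro e
    have he : e = 0 := Subsingleton.elim _ _
    rw [he, Finsupp.sum_zero_index]
  · intro e
    have he : e = 0 := Subsingleton.elim _ _
    rw [he, Finsupp.prod_zero_index, map_one]

private theorem A3Pol1_hc_comp {Z Z' Z'' : SS} (g : Hom Z' Z'') (f : Hom Z Z') (n : ℕ)
    (a : Hc Z'' n) : CR.map f (CR.hom n (Hc.map g n a)) = CR.hom n (Hc.map (g.comp f) n a) := by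
  rw [← CR.map_hom, ← CR.map_hom, CR.map_comp]

private theorem A3Pol1_equiv {I J : Type} (e : I ≃ J)
    (h : CPoly (Bpow I) (fun _ : I => 1) (fun i => CR.hom 1 (xI i))) :
    CPoly (Bpow J) (fun _ : J => 1) (fun i => CR.hom 1 (xI i)) := by
  refine A3Pol1_re h ⟨fun _ x j => x (e j), fun _ _ => rfl⟩ ?_ e.symm (fun _ => rfl) ?_
  · intro n
    constructor
    · intro x y hxy
      funext j
      have h1 := congrFun hxy (e.symm j)
      have h2 : x (e (e.symm j)) = y (e (e.symm j)) := h1
      rwa [e.apply_symm_apply] at h2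
    · intro y
      refine ⟨fun j => y (e.symm j), ?_⟩
      funext i
      show y (e.symm (e i)) = y i
      rw [e.symm_apply_apply]
  · intro j
    unfold xI
    rw [A3Pol1_hc_comp]
    have h1 : (Bproj (e.symm j)).comp (⟨fun _ x j => x (e j), fun _ _ => rfl⟩ :
        Hom (Bpow J) (Bpow I)) = Bproj j := by
      apply Hom.ext
      funext n x
      show x (e (e.symm j)) = x j
      rw [e.apply_symm_apply]
    rw [h1]

private theorem A3Pol1_option {I : Type}
    (h : CPoly (Bpow I) (fun _ : I => 1) (fun i => CR.hom 1 (xI i))) :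
    CPoly (Bpow (Option I)) (fun _ : Option I => 1) (fun i => CR.hom 1 (xI i)) := by
  refine A3Pol1_re (CPoly.prod CPoly_B h) ⟨fun _ x => (x none, fun i => x (some i)),
    fun _ _ => rfl⟩ ?_ ((Equiv.optionEquivSumPUnit I).trans (Equiv.sumComm _ _)) ?_ ?_
  · intro n
    constructor
    · intro x y hxy
      funext j
      rcases j with _ | j
      · exact congrArg Prod.fst hxy
      · exact congrFun (congrArg Prod.snd hxy) j
    · rintro ⟨a, y⟩
      exact ⟨fun j => match j with
        | none => a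
        | some i => y i, rfl⟩
  · rintro (_ | i)
    · rfl
    · rfl
  · rintro (_ | i)
    · show CR.hom 1 (Hc.map _ 1 xB) = CR.map _ (CR.map _ (CR.hom 1 xB))
      rw [CR.map_hom, A3Pol1_hc_comp]
      rfl
    · show CR.hom 1 (Hc.map _ 1 xB) = CR.map _ (CR.map _ (CR.hom 1 (Hc.map _ 1 xB)))
      rw [A3Pol1_hc_comp, A3Pol1_hc_comp]
      rfl

theorem CPoly_Bpow (I : Type) [Finite I] :
    CPoly (Bpow I) (fun _ : I => 1) (fun i => CR.hom 1 (xI i)) := by
  exact Finite.induction_empty_option
    (P := fun I => CPoly (Bpow I) (fun _ : I => 1) (fun i => CR.hom 1 (xI i)))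
    (fun e h => A3Pol1_equiv e h) A3Pol1_empty (fun h => A3Pol1_option h) I

private theorem A3Pol1_pow {Z : SS} {n : ℕ} {a : CR Z} (h : CR.IsHom n a) (k : ℕ) :
    CR.IsHom (k * n) (a ^ k) := by
  induction k with
  | zero => rw [pow_zero, zero_mul]; exact CR.isHom_one
  | succ k ih => rw [pow_succ, Nat.succ_mul]; exact ih.mul h

private theorem A3Pol1_sum_apply {Z : SS} {I : Type} (s : Finset I) (a : I → CR Z) (m : ℕ) :
    (∑ i ∈ s, a i) m = ∑ i ∈ s, a i m := map_sum (CR.cmp (Z := Z) m) a s

private theorem A3Pol1_isHom_sum {Z : SS} {I : Type} {n : ℕ} (s : Finset I) (a : I → CR Z)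
    (h : ∀ i ∈ s, CR.IsHom n (a i)) : CR.IsHom n (∑ i ∈ s, a i) := by
  intro m hm
  rw [A3Pol1_sum_apply]
  exact Finset.sum_eq_zero fun i hi => h i hi m hm

private theorem A3Pol1_isHom_smul {Z : SS} {n : ℕ} (r : ZMod 2) {a : CR Z}
    (h : CR.IsHom n a) : CR.IsHom n (r • a) := by
  intro m hm
  show r • a m = 0
  rw [h m hm, smul_zero]

/-- polynomials as cohomology classes of `B(ZMod 2)^I` -/
noncomputable def pol (I : Type) : MvPolynomial I (ZMod 2) →ₐ[ZMod 2] CR (Bpow I) :=
  MvPolynomial.aeval fun i => CR.hom 1 (xI i)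

theorem pol_X {I : Type} (i : I) : pol I (MvPolynomial.X i) = CR.hom 1 (xI i) :=
  MvPolynomial.aeval_X _ _

private theorem A3Pol1_mon {I : Type} (e : I →₀ ℕ) (r : ZMod 2) :
    pol I (MvPolynomial.monomial e r) = r • (e.prod fun i k => (CR.hom 1 (xI i) : CR (Bpow I)) ^ k) := by
  unfold pol
  rw [MvPolynomial.aeval_monomial, Algebra.smul_def]

private theorem A3Pol1_monHom {I : Type} (e : I →₀ ℕ) :
    CR.IsHom (Finsupp.degree e) (e.prod fun i k => (CR.hom 1 (xI i) : CR (Bpow I)) ^ k) := by
  rw [Finsupp.degree_apply]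
  refine CR.IsHom.prod e.support (fun i => e i) _ fun i _ => ?_
  have h := A3Pol1_pow (CR.isHom_hom (Z := Bpow I) 1 (xI i)) (e i)
  rwa [mul_one] at h

private theorem A3Pol1_deg {I : Type} (e : I →₀ ℕ) :
    (e.sum fun _ k => k * 1) = Finsupp.degree e := by
  rw [Finsupp.degree_apply]
  exact Finset.sum_congr rfl fun i _ => mul_one _

theorem pol_isHom {I : Type} {n : ℕ} {f : MvPolynomial I (ZMod 2)} (hf : f.IsHomogeneous n) :
    CR.IsHom n (pol I f) := by
  rw [f.as_sum, map_sum]
  refine A3Pol1_isHom_sum _ _ fun e he => ?_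
  rw [A3Pol1_mon]
  refine A3Pol1_isHom_smul _ ?_
  have h1 : Finsupp.degree e = n := by
    by_contra hne
    exact (MvPolynomial.mem_support_iff.1 he) (hf.coeff_eq_zero hne)
  rw [← h1]
  exact A3Pol1_monHom e

theorem pol_injective (I : Type) [Finite I] : Function.Injective (pol I) := by
  classical
  rw [injective_iff_map_eq_zero]
  intro f hf
  have h := CPoly_Bpow I
  have key : ∀ d, f.support.filter (fun e => Finsupp.degree e = d) = ∅ := by
    intro d
    set c : (I →₀ ℕ) →₀ ZMod 2 := Finsupp.onFinset f.support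
      (fun e => if Finsupp.degree e = d then MvPolynomial.coeff e f else 0) (by
        intro e he
        rw [MvPolynomial.mem_support_iff]
        intro h0
        apply he
        rw [h0, ite_self]) with hc
    have hca : ∀ e, c e = if Finsupp.degree e = d then MvPolynomial.coeff e f else 0 :=
      fun e => rfl
    have h1 : c = 0 := by
      refine (h.bas d).1 c ?_ ?_
      · intro e he
        show (e.sum fun _ k => k * 1) = d
        rw [A3Pol1_deg]
        by_contra hne
        apply he
        rw [hca, if_neg hne]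
      · have h2 : (pol I f) d = 0 := by rw [hf]; rfl
        rw [f.as_sum, map_sum, A3Pol1_sum_apply] at h2
        refine (Finsupp.sum_of_support_subset c (s := f.support)
          Finsupp.support_onFinset_subset (fun e r => r • ((e.prod fun i k =>
            (CR.hom 1 (xI i) : CR (Bpow I)) ^ k) d : Hc (Bpow I) d))
          (fun i _ => zero_smul _ _)).trans ?_
        rw [← h2]
        refine Finset.sum_congr rfl fun e _ => ?_
        rw [A3Pol1_mon, hca]
        show _ = MvPolynomial.coeff e f •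
          (e.prod fun i k => (CR.hom 1 (xI i) : CR (Bpow I)) ^ k) d
        by_cases hd : Finsupp.degree e = d
        · rw [if_pos hd]
        · rw [if_neg hd, zero_smul, A3Pol1_monHom e d (fun h => hd h.symm), smul_zero]
    rw [Finset.filter_eq_empty_iff]
    intro e he hd
    have h3 := hca e
    rw [h1, if_pos hd] at h3
    exact (MvPolynomial.mem_support_iff.1 he) h3.symm
  ext e
  rw [MvPolynomial.coeff_zero]
  by_contra he
  have h4 : e ∈ f.support.filter (fun e' => Finsupp.degree e' = Finsupp.degree e) :=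
    Finset.mem_filter.2 ⟨MvPolynomial.mem_support_iff.2 he, rfl⟩
  rw [key] at h4
  exact absurd h4 (Finset.notMem_empty e)

theorem exists_pol {I : Type} [Finite I] (n : ℕ) (y : Hc (Bpow I) n) :
    ∃ f : MvPolynomial I (ZMod 2), f.IsHomogeneous n ∧ pol I f = CR.hom n y := by
  obtain ⟨c, hc, hy⟩ := ((CPoly_Bpow I).bas n).2 y
  have hh : (∑ e ∈ c.support, MvPolynomial.monomial e (c e)).IsHomogeneous n := by
    refine MvPolynomial.IsHomogeneous.sum _ _ n fun e he => ?_
    refine MvPolynomial.isHomogeneous_monomial _ ?_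
    rw [← A3Pol1_deg]
    exact hc e (Finsupp.mem_support_iff.1 he)
  refine ⟨_, hh, ?_⟩
  rw [(pol_isHom hh).eq]
  congr 1
  rw [map_sum, A3Pol1_sum_apply, ← hy]
  refine Finset.sum_congr rfl fun e _ => ?_
  rw [A3Pol1_mon]
  rfl

/-- reindexing -/
def Bre {I J : Type} (φ : J → I) : Hom (Bpow I) (Bpow J) := ⟨fun _ x j => x (φ j), fun _ _ => rfl⟩

theorem map_Bre_pol {I J : Type} (φ : J → I) (f : MvPolynomial J (ZMod 2)) :
    CR.map (Bre φ) (pol J f) = pol I (MvPolynomial.rename φ f) := by
  induction f using MvPolynomial.induction_on with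
  | C r =>
    rw [MvPolynomial.rename_C, ← MvPolynomial.algebraMap_eq, ← MvPolynomial.algebraMap_eq,
      AlgHom.commutes, AlgHom.commutes, Algebra.algebraMap_eq_smul_one,
      Algebra.algebraMap_eq_smul_one, CR.map_smul, map_one]
  | add p q hp hq => rw [map_add, map_add, map_add, map_add, hp, hq]
  | mul_X p j hp =>
    rw [map_mul, map_mul, map_mul, map_mul, hp, pol_X, MvPolynomial.rename_X, pol_X]
    congr 1
    unfold xI
    rw [A3Pol1_hc_comp]
    rfl

end MM
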