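import Pool.Agent.Lib_MP_33f7bb_d.A3Pol1
import Pool.Agent.Lib_MP_33f7bb_d.A7Def

/-!
# A3-21: Steenrod operations on the cohomology of `B(ZMod 2)^I`

For every `S : SqFam` and every homogeneous polynomial `f` of degree `n ≥ 1`, `y ∈ H~^n (B^I)` the corresponding reduced
class (`red_surj`, `red_injective`):  `red (S.op n m y)` is the component of degree `m` of `pol (sqP f)`,
`sqP` = the ring homomorphism `X_i ↦ X_i + X_i^2`.

Proof.  Both sides are linear in `f`, and a homogeneous polynomial of degree `n` is a sum of monomials of degree `n`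
(`MvPolynomial.IsHomogeneous`, `f.support`), so let `f` be a monomial (coefficient one) of degree `n`; induction on `n`.
`n = 1`: `f = X_i`, `sqP f = X_i + X_i ^ 2`: `S.id`, `S.top` (with `red_cupR`, `CR.hom_mul_hom`), and `S.lt`, `S.unst` for `m = 0`, `m ≥ 3`.
`n + 1`, `n ≥ 1`: `f = X_i * g`, `g` a monomial of degree `n`; `y = cupR (n+1) (x_i) (y_g)` (`red_cupR`, `red_injective`);
`S.cartan`, the case `1`, the induction hypothesis, and `pol (sqP f) = pol (sqP X_i) * pol (sqP g)`, `CR.mul_apply`.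
-/

open scoped TensorProduct

namespace MM

/-- the total square on polynomials -/
noncomputable def sqP (I : Type) : MvPolynomial I (ZMod 2) →ₐ[ZMod 2] MvPolynomial I (ZMod 2) :=
  MvPolynomial.aeval fun i => MvPolynomial.X i + MvPolynomial.X i ^ 2

/-- the base vertex of `Bpow I` -/
abbrev Bpt (I : Type) : (Bpow I).S 0 := (K1pow I).zv

private theorem A3Pol2_hom_same {Z : SS} (n : ℕ) (a : Hc Z n) : (CR.hom n a) n = a :=
  Pi.single_eq_same n a

private theorem A3Pol2_hom_ne {Z : SS} {n k : ℕ} (h : k ≠ n) (a : Hc Z n) :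
    (CR.hom n a) k = 0 := CR.isHom_hom n a k h

/-- the statement for a polynomial `g` of degree `n` -/
private def A3Pol2_P (S : SqFam) (I : Type) (n : ℕ) (g : MvPolynomial I (ZMod 2)) : Prop :=
  ∀ y : Module.Dual (ZMod 2) ((R (Bpow I) (Bpt I)).H n), red (Bpt I) n y = (pol I g) n →
    ∀ m, red (Bpt I) m (S.op (Bpow I) (Bpt I) n m y) = (pol I (sqP I g)) m

private theorem A3Pol2_zero (S : SqFam) (I : Type) (n : ℕ) : A3Pol2_P S I n 0 := by
  intro y hy m
  have h1 : red (Bpt I) n y = 0 := by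
    rw [hy, map_zero]
    rfl
  have h2 : y = 0 := red_injective (Bpt I) n (h1.trans (map_zero _).symm)
  rw [h2, map_zero, map_zero, map_zero, map_zero]
  rfl

private theorem A3Pol2_add (S : SqFam) (I : Type) {n : ℕ} (hn : 1 ≤ n)
    {g g' : MvPolynomial I (ZMod 2)} (h : A3Pol2_P S I n g) (h' : A3Pol2_P S I n g') :
    A3Pol2_P S I n (g + g') := by
  intro y hy m
  obtain ⟨a, ha⟩ := red_surj (Bpt I) n hn ((pol I g) n)
  obtain ⟨b, hb⟩ := red_surj (Bpt I) n hn ((pol I g') n)
  have h1 : y = a + b := by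
    apply red_injective (Bpt I) n
    rw [hy, map_add, map_add, ha, hb]
    rfl
  rw [h1, map_add, map_add, map_add, map_add, h a ha m, h' b hb m]
  rfl

private theorem A3Pol2_X (S : SqFam) (I : Type) (i : I) :
    A3Pol2_P S I 1 (MvPolynomial.X i) := by
  intro y hy m
  rw [pol_X, A3Pol2_hom_same] at hy
  have e1 : pol I (sqP I (MvPolynomial.X i)) =
      CR.hom 1 (xI i) + CR.hom 2 (cup 2 (xI i) (xI i)) := by
    rw [sqP, MvPolynomial.aeval_X, map_add, map_pow, pol_X, pow_two, CR.hom_mul_hom]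
  have e2 : (pol I (sqP I (MvPolynomial.X i))) m =
      (CR.hom 1 (xI i) : CR (Bpow I)) m + (CR.hom 2 (cup 2 (xI i) (xI i)) : CR (Bpow I)) m := by
    rw [e1]
    rfl
  rw [e2]
  rcases Nat.lt_trichotomy m 1 with hm | hm | hm
  · rw [S.lt _ _ _ _ hm, LinearMap.zero_apply, map_zero, A3Pol2_hom_ne (by omega),
      A3Pol2_hom_ne (by omega), add_zero]
  · subst hm
    rw [S.id, LinearMap.id_apply, hy, A3Pol2_hom_same, A3Pol2_hom_ne (by omega), add_zero]
  · by_cases h2 : m = 2
    · subst h2
      have h3 : S.op (Bpow I) (Bpt I) 1 2 y = cupR 2 y y := S.top (Bpow I) (Bpt I) 1 y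
      rw [h3, red_cupR, hy, A3Pol2_hom_same, A3Pol2_hom_ne (by omega), zero_add]
    · rw [S.unst _ _ _ _ (by omega), LinearMap.zero_apply, map_zero, A3Pol2_hom_ne (by omega),
        A3Pol2_hom_ne (by omega), add_zero]

private theorem A3Pol2_mul (S : SqFam) (I : Type) {n : ℕ} (hn : 1 ≤ n) (i : I)
    {g : MvPolynomial I (ZMod 2)} (h : A3Pol2_P S I n g) :
    A3Pol2_P S I (1 + n) (MvPolynomial.X i * g) := by
  intro y hy m
  obtain ⟨a, ha⟩ := red_surj (Bpt I) 1 le_rfl ((pol I (MvPolynomial.X i)) 1)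
  obtain ⟨b, hb⟩ := red_surj (Bpt I) n hn ((pol I g) n)
  have h1 : y = cupR (1 + n) a b := by
    apply red_injective (Bpt I) (1 + n)
    rw [hy, red_cupR, ha, hb, map_mul, CR.mul_apply, Finset.sum_eq_single 1]
    · obtain ⟨k, hk⟩ : ∃ k, k = 1 + n - 1 := ⟨_, rfl⟩
      rw [← hk]
      obtain rfl : k = n := by omega
      rfl
    · intro k _ hk
      rw [pol_X, A3Pol2_hom_ne hk, cup_zero_left]
    · intro h1
      exact absurd (Finset.mem_range.2 (by omega)) h1
  rw [h1, S.cartan _ _ 1 n (1 + n) m rfl a b, map_sum, map_mul, map_mul, CR.mul_apply]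
  refine Finset.sum_congr rfl fun k _ => ?_
  rw [red_cupR, A3Pol2_X S I i a ha k, h b hb (m - k)]

private theorem A3Pol2_mon (S : SqFam) (I : Type) {n : ℕ} (hn : 1 ≤ n) (e : I →₀ ℕ)
    (he : e.degree = n) : A3Pol2_P S I n (MvPolynomial.monomial e 1) := by
  classical
  induction n, hn using Nat.le_induction generalizing e with
  | base =>
    have h0 : e ≠ 0 := by
      rintro rfl
      rw [map_zero] at he
      omega
    obtain ⟨i, hi⟩ := Finsupp.support_nonempty_iff.2 h0
    have hi' : Finsupp.single i 1 ≤ e := by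
      rw [Finsupp.single_le_iff]
      exact Nat.one_le_iff_ne_zero.2 (Finsupp.mem_support_iff.1 hi)
    obtain ⟨e', rfl⟩ := exists_add_of_le hi'
    rw [map_add, Finsupp.degree_single] at he
    have h1 : e' = 0 := (Finsupp.degree_eq_zero_iff e').1 (by omega)
    rw [h1, add_zero]
    exact A3Pol2_X S I i
  | succ n hn ih =>
    have h0 : e ≠ 0 := by
      rintro rfl
      rw [map_zero] at he
      omega
    obtain ⟨i, hi⟩ := Finsupp.support_nonempty_iff.2 h0
    have hi' : Finsupp.single i 1 ≤ e := by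
      rw [Finsupp.single_le_iff]
      exact Nat.one_le_iff_ne_zero.2 (Finsupp.mem_support_iff.1 hi)
    obtain ⟨e', rfl⟩ := exists_add_of_le hi'
    rw [map_add, Finsupp.degree_single] at he
    have h1 := A3Pol2_mul S I hn i (ih e' (by omega))
    have h2 : MvPolynomial.X i * MvPolynomial.monomial e' 1 =
        (MvPolynomial.monomial (Finsupp.single i 1 + e') 1 : MvPolynomial I (ZMod 2)) := by
      rw [MvPolynomial.X, MvPolynomial.monomial_mul, one_mul]
    rw [h2, add_comm 1 n] at h1
    exact h1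

theorem sq_pol (S : SqFam) {I : Type} {n : ℕ} (hn : 1 ≤ n) {f : MvPolynomial I (ZMod 2)}
    (hf : f.IsHomogeneous n) (y : Module.Dual (ZMod 2) ((R (Bpow I) (Bpt I)).H n))
    (hy : CR.hom n (red (Bpt I) n y) = pol I f) (m : ℕ) :
    red (Bpt I) m (S.op (Bpow I) (Bpt I) n m y) = (pol I (sqP I f)) m := by
  classical
  have hy' : red (Bpt I) n y = (pol I f) n := by
    rw [← hy, A3Pol2_hom_same]
  have key : ∀ s : Finset (I →₀ ℕ), (∀ e ∈ s, e.degree = n) →
      A3Pol2_P S I n (∑ e ∈ s, MvPolynomial.monomial e (1 : ZMod 2)) := by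
    intro s
    induction s using Finset.induction_on with
    | empty =>
      intro _
      rw [Finset.sum_empty]
      exact A3Pol2_zero S I n
    | insert a s ha ih =>
      intro h
      rw [Finset.sum_insert ha]
      exact A3Pol2_add S I hn (A3Pol2_mon S I hn a (h a (Finset.mem_insert_self a s)))
        (ih fun e he => h e (Finset.mem_insert_of_mem he))
  have h01 : ∀ c : ZMod 2, c ≠ 0 → c = 1 := by decide
  have hsum : f = ∑ e ∈ f.support, MvPolynomial.monomial e (1 : ZMod 2) := by
    conv_lhs => rw [← MvPolynomial.support_sum_monomial_coeff f]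
    refine Finset.sum_congr rfl fun e he => ?_
    rw [h01 _ (MvPolynomial.mem_support_iff.1 he)]
  have hP : A3Pol2_P S I n f := by
    rw [hsum]
    refine key _ fun e he => ?_
    rw [Finsupp.degree_eq_weight_one]
    exact hf (MvPolynomial.mem_support_iff.1 he)
  exact hP y hy' m

end MM
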