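import Pool.Agent.Lib_MP_33f7bb_d.A3P1
import Pool.Agent.Lib_MP_33f7bb_d.A3P2
import Pool.Agent.Lib_MP_33f7bb_d.A3B2

/-!
# A3-16: the power operation on cohomology classes

`Pw n : H^n (Z) → H^(2n) (B × Z)`, the class of `PP a` for any representing map `a : Z → TT`.
* `Pw_spec`: `PP_cl` (both `a` and the chosen map have the same class).
* `Pw_add`: representing maps `a`, `a'`; `homAdd a a'` represents the sum (`clW_add`); `PP_add`, `clW_htp`, `clW_add`.
* `Pw_map`: `PP_comp`, `clW_comp`.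
* `Pw_cup`: homogeneous representing maps `a`, `a'` (`exists_homog`); `homMul a a'` represents `cup n` (`clT_mul`; all terms except
  `k = p` vanish by `clT_of_isHom`); `PP_mul`; then `clT_mul` for `PP a`, `PP a'`, homogeneous of degrees `2 p`, `2 q` (`PP_isHom`).
* `Pw_incl`: `PP_incl`, `clT_kap0`, `clW_comp`.
* `Pw_zero`: `PP_zero`, `clW_comp`.   * `Pw_one`: `PP_one`, `clW_htp`, `clW_add`, `clT_mul` (terms `k ≠ 1` vanish), `clT_xT`.
-/

open scoped TensorProduct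

namespace MM

variable {Z Z' : SS}

/-- the power operation -/
noncomputable def Pw (n : ℕ) (y : Hc Z n) : Hc (BZ2.prod Z) (2 * n) :=
  clW (evH (2 * n)) (PP (Classical.choose (exists_homog n y)))

theorem Pw_spec (n : ℕ) (a : Hom Z TT.ss) :
    Pw n (clW (evH n) a) = clW (evH (2 * n)) (PP a) :=
  PP_cl n (Classical.choose_spec (exists_homog n (clW (evH n) a))).2

/-- the product of homogeneous maps represents the cup product -/
private theorem A3Pw_mul {p q n : ℕ} (h : p + q = n) {a : Hom Z TT.ss}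
    (ha : ∀ k x, IsHom p (a.app k x).1) (b : Hom Z TT.ss) :
    clW (evH n) (homMul a b) = cup n (clW (evH p) a) (clW (evH q) b) := by
  rw [clT_mul, Finset.sum_eq_single p]
  · have key : ∀ r, r = q → cup n (clW (evH p) a) (clW (evH r) b) =
        cup n (clW (evH p) a) (clW (evH q) b) := by
      rintro _ rfl
      rfl
    exact key _ (by omega)
  · intro k _ hk
    rw [clT_of_isHom hk ha, cup_zero_left]
  · intro hp
    exact absurd (Finset.mem_range.2 (by omega)) hp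

theorem Pw_add (n : ℕ) (y y' : Hc Z n) : Pw n (y + y') = Pw n y + Pw n y' := by
  obtain ⟨a, -, rfl⟩ := exists_homog n y
  obtain ⟨a', -, rfl⟩ := exists_homog n y'
  rw [← clW_add, Pw_spec, Pw_spec, Pw_spec, clW_htp _ (PP_add a a'), clW_add]

theorem Pw_map (f : Hom Z Z') (n : ℕ) (y : Hc Z' n) :
    Pw n (Hc.map f n y) = Hc.map (Hom.prodMap (Hom.id BZ2) f) (2 * n) (Pw n y) := by
  obtain ⟨a, -, rfl⟩ := exists_homog n y
  rw [← clW_comp, Pw_spec, Pw_spec, PP_comp, clW_comp]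

theorem Pw_cup {p q n : ℕ} (h : p + q = n) (y : Hc Z p) (y' : Hc Z q) :
    Pw n (cup n y y') = cup (2 * n) (Pw p y) (Pw q y') := by
  obtain ⟨a, ha, rfl⟩ := exists_homog p y
  obtain ⟨a', -, rfl⟩ := exists_homog q y'
  rw [← A3Pw_mul h ha a', Pw_spec, Pw_spec, Pw_spec, PP_mul ha,
    A3Pw_mul (show 2 * p + 2 * q = 2 * n by omega) (PP_isHom ha)]

theorem Pw_incl (n : ℕ) (y : Hc Z n) :
    Hc.map (inclB Z) (2 * n) (Pw n y) = cup (2 * n) y y := by
  obtain ⟨a, -, rfl⟩ := exists_homog n y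
  rw [Pw_spec, ← clW_comp, PP_incl, clT_kap0]

theorem Pw_zero (y : Hc Z 0) : Pw 0 y = Hc.map (Hom.snd BZ2 Z) 0 y := by
  obtain ⟨a, ha, rfl⟩ := exists_homog 0 y
  rw [Pw_spec, PP_zero ha]
  exact clW_comp (evH 0) a (Hom.snd BZ2 Z)

theorem Pw_one (y : Hc Z 1) :
    Pw 1 y = cup 2 (Hc.map (Hom.snd BZ2 Z) 1 y) (Hc.map (Hom.snd BZ2 Z) 1 y) +
      cup 2 (Hc.map (Hom.fst BZ2 Z) 1 xB) (Hc.map (Hom.snd BZ2 Z) 1 y) := by
  obtain ⟨a, ha, rfl⟩ := exists_homog 1 y
  rw [Pw_spec]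
  have h1 : clW (evH 2) (PP a) = _ := (clW_htp (evH 2) (PP_one ha)).symm
  refine h1.trans ?_
  have h2 : ∀ (k : ℕ) (x : (BZ2.prod Z).S k),
      IsHom 1 ((a.comp (Hom.snd BZ2 Z)).app k x).1 := fun k x => ha k x.2
  have h3 : ∀ (k : ℕ) (x : (BZ2.prod Z).S k),
      IsHom 1 ((xT.comp (Hom.fst BZ2 Z)).app k x).1 := fun k x => xT_isHom k x.1
  rw [clW_add, A3Pw_mul (show 1 + 1 = 2 from rfl) h2, A3Pw_mul (show 1 + 1 = 2 from rfl) h3,
    clW_comp, clW_comp, clT_xT]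

end MM
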