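import Pool.Agent.Lib_MP_33f7bb_d.A3SqU
import Pool.Agent.Lib_MP_33f7bb_d.A7Def

/-!
# A3-19: the family `SqFam` of Steenrod operations on reduced cohomology

`red z₀ n : H~^n → H^n` is injective (`red_injective`), bijective for `n ≥ 1` (`red_surj`), natural (`red_nat`) and
multiplicative (`red_cupR`).
`exists_sqR`: for `y ∈ H~^n` there is `a ∈ H~^m` with `red a = SqU n m (red y)`: if `m ≥ 1` by `red_surj`; if `m = 0`: for `n = 0` take
`a = y` (`SqU_id`), for `n ≥ 1` `SqU n 0 = 0` (`SqU_lt`), `a = 0`.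
The operation `op z₀ n m y` := this `a` (unique, hence linear in `y`).  All axioms follow by applying `red` (injective) from the
corresponding statements for `SqU`, `red_nat`, `red_cupR` (`map_sum` for the Cartan formula).
-/

open scoped TensorProduct

namespace MM

theorem exists_sqR {Z : SS} (z₀ : Z.S 0) (n m : ℕ) (y : Module.Dual (ZMod 2) ((R Z z₀).H n)) :
    ∃ a : Module.Dual (ZMod 2) ((R Z z₀).H m), red z₀ m a = SqU n m (red z₀ n y) := by
  by_cases hm : 1 ≤ m
  · exact red_surj z₀ m hm _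
  · obtain rfl : m = 0 := by omega
    by_cases hn : n = 0
    · subst hn
      exact ⟨y, by rw [SqU_id]; rfl⟩
    · exact ⟨0, by rw [SqU_lt (by omega), map_zero]; rfl⟩

/-- the operations on reduced cohomology (as a function) -/
noncomputable def sqRf {Z : SS} (z₀ : Z.S 0) (n m : ℕ)
    (y : Module.Dual (ZMod 2) ((R Z z₀).H n)) : Module.Dual (ZMod 2) ((R Z z₀).H m) :=
  Classical.choose (exists_sqR z₀ n m y)

theorem red_sqRf {Z : SS} (z₀ : Z.S 0) (n m : ℕ)
    (y : Module.Dual (ZMod 2) ((R Z z₀).H n)) :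
    red z₀ m (sqRf z₀ n m y) = SqU n m (red z₀ n y) := Classical.choose_spec (exists_sqR z₀ n m y)

/-- the operations on reduced cohomology as linear maps -/
private noncomputable def A3Sq_op (Z : SS) (z₀ : Z.S 0) (n m : ℕ) :
    Module.Dual (ZMod 2) ((R Z z₀).H n) →ₗ[ZMod 2] Module.Dual (ZMod 2) ((R Z z₀).H m) where
  toFun := sqRf z₀ n m
  map_add' y y' := by
    apply red_injective z₀ m
    rw [red_sqRf, map_add, map_add, map_add, red_sqRf, red_sqRf]
  map_smul' c y := by
    apply red_injective z₀ m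
    rw [red_sqRf, map_smul, map_smul, map_smul, red_sqRf]
    rfl

private theorem A3Sq_red (Z : SS) (z₀ : Z.S 0) (n m : ℕ)
    (y : Module.Dual (ZMod 2) ((R Z z₀).H n)) :
    red z₀ m (A3Sq_op Z z₀ n m y) = SqU n m (red z₀ n y) := red_sqRf z₀ n m y

/-- existence of Steenrod operations, with their description in unreduced cohomology -/
theorem exists_SqFam' : ∃ S : SqFam, ∀ (Z : SS) (z₀ : Z.S 0) (n m : ℕ)
    (y : Module.Dual (ZMod 2) ((R Z z₀).H n)),
    red z₀ m (S.op Z z₀ n m y) = SqU n m (red z₀ n y) := by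
  refine ⟨{
    op := A3Sq_op
    nat := ?_
    lt := ?_
    id := ?_
    unst := ?_
    top := ?_
    cartan := ?_ }, fun Z z₀ n m y => A3Sq_red Z z₀ n m y⟩
  · intro Z Z' z₀ z₀' f hf n m y
    apply red_injective z₀ m
    rw [red_nat, A3Sq_red, A3Sq_red, red_nat, SqU_map]
  · intro Z z₀ n m h
    apply LinearMap.ext
    intro y
    apply red_injective z₀ m
    rw [A3Sq_red, SqU_lt h, LinearMap.zero_apply, LinearMap.zero_apply, map_zero]
  · intro Z z₀ n
    apply LinearMap.ext
    intro y
    apply red_injective z₀ n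
    rw [A3Sq_red, SqU_id]
    rfl
  · intro Z z₀ n m h
    apply LinearMap.ext
    intro y
    apply red_injective z₀ m
    rw [A3Sq_red, SqU_unst h, LinearMap.zero_apply, LinearMap.zero_apply, map_zero]
  · intro Z z₀ n y
    apply red_injective z₀ (2 * n)
    rw [A3Sq_red, SqU_top, red_cupR]
  · intro Z z₀ p q n m h a b
    apply red_injective z₀ m
    rw [A3Sq_red, red_cupR, SqU_cup h, map_sum]
    refine Finset.sum_congr rfl fun k _ => ?_
    rw [red_cupR, A3Sq_red, A3Sq_red]

theorem exists_SqFam : Nonempty SqFam := by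
  obtain ⟨S, -⟩ := exists_SqFam'
  exact ⟨S⟩

end MM
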