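import Pool.Agent.Lib_MP_33f7bb_d.A4R2

/-!
# A4-03: reduced and unreduced classes, external products

`R.sec z₀ : R Z → lin Z`, `[x] ↦ [x] + [z₀]` is a section of the projection `R.pr z₀` (check on the basis);
so `H(R.pr)` is surjective and `red` is injective.
`red_surj`: for `n ≥ 1` every class of `lin Z` vanishing in `R Z` is `0`: if `z` is a cycle of degree `n ≥ 1` and
`pr z = d w`, lift `w` to `w'`: `z + d w'` is a cycle supported at the base point, i.e. a cycle of `lin PT` of positive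
degree, a boundary.  So `H_n(R.pr)` is bijective for `n ≥ 1` and every functional on `H_n (lin Z)` factors.
`red_zero_iff`: in degree `0` the classes in the image of `red` are those which vanish on the class of the base point.
`linProd`: `[(x, y)] ↦ [x] ⊗ [y]` is bijective in every degree (`finsuppTensorFinsupp'`), so it induces an isomorphism in
homology (the inverse is again a simplicial map, or: use bijectivity of the maps of complexes directly).
`cup_fst_snd`: `(linMap fst ⊗ linMap snd) ∘ linDiag = linProd` (check on `[(x,y)]`) and `boxF_map`.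
`red_cupR`: `(pr ⊗ pr) ∘ linDiag = R.diag ∘ pr` and `boxF_map`.
-/

open scoped TensorProduct

namespace MM

variable {Z Z' : SS}

/-- the section `[x] ↦ [x] + [z₀]` of `R.pr` -/
noncomputable def R.sec (z₀ : Z.S 0) : SVHom (R Z z₀) (lin Z) :=
  R.lift z₀ (W := lin Z) ⟨fun n x => (Finsupp.single x 1 + Finsupp.single (Z.deg z₀ n) 1 : Ch Z n),
    fun {m n} f x => by
    show _ = Finsupp.mapDomain (Z.act f) _
    rw [Finsupp.mapDomain_add, Finsupp.mapDomain_single, Finsupp.mapDomain_single]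
    congr 2
    show Z.act (cst 0) z₀ = Z.act f (Z.act (cst 0) z₀)
    rw [Z.act_comp]
    rfl⟩ (by
    show (Finsupp.single z₀ 1 + Finsupp.single (Z.deg z₀ 0) 1 : Ch Z 0) = 0
    have h1 : Z.deg z₀ 0 = z₀ := by
      show Z.act _ z₀ = z₀
      have h1 : (cst 0 : Mo 0 0) = OrderHom.id := by
        ext i; simp [cst]
      rw [h1, Z.act_id]
    rw [h1, ← Finsupp.single_add]
    have h2 : (1 + 1 : ZMod 2) = 0 := rfl
    rw [h2, Finsupp.single_zero])

private theorem A4R3_deg (z₀ : Z.S 0) : Z.deg z₀ 0 = z₀ := by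
  show Z.act _ z₀ = z₀
  have h1 : (cst 0 : Mo 0 0) = OrderHom.id := by
    ext i; simp [cst]
  rw [h1, Z.act_id]

private theorem A4R3_linext {W : SV} {f g : SVHom (lin Z) W}
    (h : ∀ n x, f.app n (Finsupp.single x 1) = g.app n (Finsupp.single x 1)) : f = g := by
  apply SVHom.ext
  funext n
  refine Finsupp.lhom_ext fun x r => ?_
  have h1 : (Finsupp.single x r : Ch Z n) = r • Finsupp.single x 1 := by
    rw [Finsupp.smul_single, smul_eq_mul, mul_one]
  rw [h1, map_smul, map_smul, h]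

private theorem A4R3_sec_of (z₀ : Z.S 0) (n : ℕ) (x : Z.S n) :
    (R.sec z₀).app n ((R.of z₀).app n x) =
      (Finsupp.single x 1 + Finsupp.single (Z.deg z₀ n) 1 : Ch Z n) := by
  unfold R.sec
  rw [R.lift_of]

theorem R.pr_sec (z₀ : Z.S 0) : (R.pr z₀).comp (R.sec z₀) = SVHom.id (R Z z₀) := by
  apply R.ext
  intro n x
  show (R.pr z₀).app n ((R.sec z₀).app n ((R.of z₀).app n x)) = (R.of z₀).app n x
  rw [A4R3_sec_of]
  show (R.pr z₀).app n (Finsupp.single x 1 + Finsupp.single (Z.deg z₀ n) 1 : Ch Z n) = _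
  rw [map_add, R.pr_single, R.pr_single, R.of_base]
  exact add_zero _

theorem Hmap_pr_surj (z₀ : Z.S 0) (n : ℕ) : Function.Surjective (SV.Hmap (R.pr z₀) n) := by
  intro x
  refine ⟨SV.Hmap (R.sec z₀) n x, ?_⟩
  rw [← SV.Hmap_comp, R.pr_sec, SV.Hmap_id]

theorem red_injective (z₀ : Z.S 0) (n : ℕ) : Function.Injective (red z₀ n) :=
  LinearMap.dualMap_injective_of_surjective (Hmap_pr_surj z₀ n)

theorem Hmap_pr_inj (z₀ : Z.S 0) (n : ℕ) (hn : 1 ≤ n) :
    Function.Injective (SV.Hmap (R.pr z₀) n) := by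
  rw [injective_iff_map_eq_zero]
  intro x hx
  obtain ⟨z, hz, rfl⟩ := A3Box_exists_cls x
  obtain ⟨m, rfl⟩ : ∃ m, n = m + 1 := ⟨n - 1, by omega⟩
  rw [SV.Hmap_cls] at hx
  have hx' := (Submodule.Quotient.mk_eq_zero _).1 hx
  obtain ⟨w, hw⟩ := hx'
  obtain ⟨w', rfl⟩ := Submodule.Quotient.mk_surjective _ w
  -- `z + d w'` is supported at the base point
  have h1 : (R.pr z₀).app (m + 1) (z + (lin Z).d (m + 1) w') = 0 := by
    rw [map_add, SVHom.map_d]
    have h2 : (R Z z₀).d (m + 1) ((R.pr z₀).app (m + 2) w') = (R.pr z₀).app (m + 1) z := hw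
    rw [h2]
    exact two_eq_zero' _
  have h2 : SuppIn (Sub.pt z₀) (z + (lin Z).d (m + 1) w' : Ch Z (m + 1)) :=
    (Submodule.Quotient.mk_eq_zero _).1 h1
  have h3 : (z + (lin Z).d (m + 1) w' : Ch Z (m + 1)) =
      Finsupp.single (Z.deg z₀ (m + 1)) ((z + (lin Z).d (m + 1) w' : Ch Z (m + 1))
        (Z.deg z₀ (m + 1))) := by
    ext y
    by_cases hy : y = Z.deg z₀ (m + 1)
    · rw [hy, Finsupp.single_eq_same]
    · rw [Finsupp.single_eq_of_ne hy]
      by_contra h4
      exact hy (h2 y (Finsupp.mem_support_iff.2 h4))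
  have hdeg : ∀ (k : ℕ) (i : Fin (k + 2)), Z.act (dlt i) (Z.deg z₀ (k + 1)) = Z.deg z₀ k := by
    intro k i
    show Z.act _ (Z.act (cst 0) z₀) = Z.act (cst 0) z₀
    rw [Z.act_comp]
    rfl
  have hdifdeg : ∀ (k : ℕ) (r : ZMod 2), (lin Z).d k (Finsupp.single (Z.deg z₀ (k + 1)) r) =
      ((k + 2 : ℕ) : ZMod 2) • (Finsupp.single (Z.deg z₀ k) r : Ch Z k) := by
    intro k r
    simp only [SV.d, LinearMap.sum_apply, Finsupp.lmapDomain_apply, Finsupp.mapDomain_single, hdeg]
    rw [Finset.sum_const, Finset.card_univ, Fintype.card_fin, Nat.cast_smul_eq_nsmul]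
  have hzB : z ∈ (lin Z).B (m + 1) := by
    have h5 : (lin Z).d m (z + (lin Z).d (m + 1) w') = 0 := by
      have hz' : (lin Z).d m z = 0 := hz
      rw [map_add, hz', SV.d_d, add_zero]
    have h6 : (z + (lin Z).d (m + 1) w' : Ch Z (m + 1)) ∈ (lin Z).B (m + 1) := by
      rw [h3] at h5 ⊢
      generalize ((z + (lin Z).d (m + 1) w' : Ch Z (m + 1)) (Z.deg z₀ (m + 1))) = r at h5 ⊢
      rw [hdifdeg] at h5
      have h7 : ((m + 2 : ℕ) : ZMod 2) * r = 0 := by
        have h8 := congrArg (fun u : Ch Z m => u (Z.deg z₀ m)) h5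
        simp only [Finsupp.smul_apply, Finsupp.single_eq_same, smul_eq_mul] at h8
        exact h8
      rcases mul_eq_zero.1 h7 with h8 | h8
      · refine ⟨Finsupp.single (Z.deg z₀ (m + 2)) r, ?_⟩
        rw [hdifdeg]
        have h9 : ((m + 1 + 2 : ℕ) : ZMod 2) = 1 := by
          have : ((m + 1 + 2 : ℕ) : ZMod 2) = ((m + 2 : ℕ) : ZMod 2) + 1 := by push_cast; ring
          rw [this, h8, zero_add]
        rw [h9, one_smul]
      · rw [h8, Finsupp.single_zero]
        exact Submodule.zero_mem _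
    have h7 : z = (z + (lin Z).d (m + 1) w') + (lin Z).d (m + 1) w' := by
      rw [add_assoc]
      have := two_eq_zero' ((lin Z).d (m + 1) w')
      rw [this, add_zero]
    rw [h7]
    exact Submodule.add_mem _ h6 ⟨w', rfl⟩
  exact (Submodule.Quotient.mk_eq_zero _).2 hzB

theorem red_surj (z₀ : Z.S 0) (n : ℕ) (hn : 1 ≤ n) (y : Hc Z n) : ∃ a, red z₀ n a = y := by
  let e := LinearEquiv.ofBijective (SV.Hmap (R.pr z₀) n) ⟨Hmap_pr_inj z₀ n hn, Hmap_pr_surj z₀ n⟩
  refine ⟨y.comp e.symm.toLinearMap, ?_⟩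
  apply LinearMap.ext
  intro x
  show y (e.symm (e x)) = y x
  rw [LinearEquiv.symm_apply_apply]

/-- the class of a vertex -/
noncomputable def vcls (z : Z.S 0) : (lin Z).H 0 := (lin Z).cls (Finsupp.single z 1) Submodule.mem_top

private theorem A4R3_cls_single (x : Z.S 0) (r : ZMod 2) :
    (lin Z).cls (Finsupp.single x r : Ch Z 0) Submodule.mem_top = r • vcls x := by
  have h1 : (Finsupp.single x r : Ch Z 0) = r • Finsupp.single x 1 := by
    rw [Finsupp.smul_single, smul_eq_mul, mul_one]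
  rw [A3Box_cls_congr h1 Submodule.mem_top (((lin Z).Z 0).smul_mem r Submodule.mem_top)]
  exact A3Box_cls_smul r Submodule.mem_top

theorem red_zero_iff (z₀ : Z.S 0) (y : Hc Z 0) : (∃ a, red z₀ 0 a = y) ↔ y (vcls z₀) = 0 := by
  constructor
  · rintro ⟨a, rfl⟩
    show a (SV.Hmap (R.pr z₀) 0 (vcls z₀)) = 0
    unfold vcls
    rw [SV.Hmap_cls, A3Box_cls_zero, map_zero]
    rw [R.pr_single]
    have h1 := R.of_base z₀ 0
    rwa [A4R3_deg] at h1
  · intro h
    refine ⟨y.comp (SV.Hmap (R.sec z₀) 0), ?_⟩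
    apply LinearMap.ext
    intro x
    show y (SV.Hmap (R.sec z₀) 0 (SV.Hmap (R.pr z₀) 0 x)) = y x
    obtain ⟨z, hz, rfl⟩ := A3Box_exists_cls x
    have key : ∀ z : Ch Z 0, y (SV.Hmap (R.sec z₀) 0 (SV.Hmap (R.pr z₀) 0
        ((lin Z).cls z Submodule.mem_top))) = y ((lin Z).cls z Submodule.mem_top) := by
      intro z
      induction z using Finsupp.induction_linear with
      | zero =>
        rw [A3Box_cls_zero rfl, map_zero, map_zero]
      | add u v hu hv =>
        have h1 : (lin Z).cls (u + v : Ch Z 0) Submodule.mem_top =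
          (lin Z).cls u Submodule.mem_top + (lin Z).cls v Submodule.mem_top := rfl
        rw [h1, map_add, map_add, map_add, map_add, hu, hv]
      | single u r =>
        rw [A4R3_cls_single, map_smul, map_smul, map_smul, map_smul]
        congr 1
        have h2 : SV.Hmap (R.sec z₀) 0 (SV.Hmap (R.pr z₀) 0 (vcls u)) = vcls u + vcls z₀ := by
          unfold vcls
          rw [SV.Hmap_cls, SV.Hmap_cls]
          have h3 : (R.sec z₀).app 0 ((R.pr z₀).app 0 (Finsupp.single u 1)) =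
              (Finsupp.single u 1 + Finsupp.single z₀ 1 : Ch Z 0) := by
            rw [R.pr_single, A4R3_sec_of, A4R3_deg]
          rw [A3Box_cls_congr h3 _ Submodule.mem_top]
          rfl
        rw [h2, map_add, h, add_zero]
    exact key z

theorem red_nat (z₀ : Z.S 0) (z₀' : Z'.S 0) (f : Hom Z Z') (hf : f.app 0 z₀ = z₀') (n : ℕ)
    (a : Module.Dual (ZMod 2) ((R Z' z₀').H n)) :
    red z₀ n (a.comp (SV.Hmap (R.map z₀ z₀' f hf) n)) = Hc.map f n (red z₀' n a) := by
  have h1 : (R.map z₀ z₀' f hf).comp (R.pr z₀) = (R.pr z₀').comp (linMap f) := by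
    apply A4R3_linext
    intro m x
    show (R.map z₀ z₀' f hf).app m ((R.pr z₀).app m (Finsupp.single x 1)) =
      (R.pr z₀').app m (Finsupp.mapDomain (f.app m) (Finsupp.single x 1))
    rw [R.pr_single, R.map_of, Finsupp.mapDomain_single, R.pr_single]
  apply LinearMap.ext
  intro x
  show a (SV.Hmap (R.map z₀ z₀' f hf) n (SV.Hmap (R.pr z₀) n x)) =
    a (SV.Hmap (R.pr z₀') n (SV.Hmap (linMap f) n x))
  rw [← SV.Hmap_comp, ← SV.Hmap_comp, h1]

theorem red_cupR (z₀ : Z.S 0) {p q : ℕ} (n : ℕ) (a : Module.Dual (ZMod 2) ((R Z z₀).H p))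
    (b : Module.Dual (ZMod 2) ((R Z z₀).H q)) :
    red z₀ n (cupR n a b) = cup n (red z₀ p a) (red z₀ q b) := by
  have h1 : (R.diag z₀).comp (R.pr z₀) = ((R.pr z₀).tens (R.pr z₀)).comp (linDiag Z) := by
    apply A4R3_linext
    intro m x
    show (R.diag z₀).app m ((R.pr z₀).app m (Finsupp.single x 1)) =
      ((R.pr z₀).tens (R.pr z₀)).app m ((linDiag Z).app m (Finsupp.single x 1))
    rw [linDiag_single, R.pr_single]
    unfold R.diag
    rw [R.lift_of]
    show _ = TensorProduct.map _ _ (_ ⊗ₜ[ZMod 2] _)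
    rw [TensorProduct.map_tmul, R.pr_single]
    rfl
  have h2 := boxF_map (R.pr z₀) (R.pr z₀) (n := n) a b
  apply LinearMap.ext
  intro x
  show boxF n a b (SV.Hmap (R.diag z₀) n (SV.Hmap (R.pr z₀) n x)) =
    boxF n (a.comp (SV.Hmap (R.pr z₀) p)) (b.comp (SV.Hmap (R.pr z₀) q))
      (SV.Hmap (linDiag Z) n x)
  rw [← h2, LinearMap.comp_apply, ← SV.Hmap_comp, ← SV.Hmap_comp, h1]

/-- `[(x, y)] ↦ [x] ⊗ [y]` -/
noncomputable def linProd (Z Z' : SS) : SVHom (lin (Z.prod Z')) ((lin Z).tens (lin Z')) :=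
  linHom (W := (lin Z).tens (lin Z')) ⟨fun n x => (Finsupp.single x.1 1 : Ch Z n) ⊗ₜ[ZMod 2]
      (Finsupp.single x.2 1 : Ch Z' n),
    fun {m n} f x => by
    show _ = TensorProduct.map _ _ (_ ⊗ₜ[ZMod 2] _)
    rw [TensorProduct.map_tmul, Finsupp.lmapDomain_apply, Finsupp.mapDomain_single,
      Finsupp.lmapDomain_apply, Finsupp.mapDomain_single]⟩

private theorem A4R3_linProd_single (Z Z' : SS) (n : ℕ) (x : (Z.prod Z').S n) :
    (linProd Z Z').app n (Finsupp.single x 1) =
      (Finsupp.single x.1 1 : Ch Z n) ⊗ₜ[ZMod 2] (Finsupp.single x.2 1 : Ch Z' n) := by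
  show linExt _ n (Finsupp.single x 1) = _
  rw [linExt_single, one_smul]

theorem linProd_bijective (Z Z' : SS) (n : ℕ) : Function.Bijective ((linProd Z Z').app n) := by
  have h1 : (linProd Z Z').app n =
      (finsuppTensorFinsupp' (ZMod 2) (Z.S n) (Z'.S n)).symm.toLinearMap := by
    refine Finsupp.lhom_ext fun x r => ?_
    have h1 : (Finsupp.single x r : Ch (Z.prod Z') n) = r • Finsupp.single x 1 := by
      rw [Finsupp.smul_single, smul_eq_mul, mul_one]
    rw [h1, map_smul, map_smul, A4R3_linProd_single]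
    congr 1
    exact (finsuppTensorFinsupp'_symm_single_eq_single_one_tmul (ZMod 2) (Z.S n) (Z'.S n) x 1).symm
  rw [h1]
  exact (finsuppTensorFinsupp' (ZMod 2) (Z.S n) (Z'.S n)).symm.bijective

private theorem A4R3_Hmap_bijective {P Q : SV} (f : SVHom P Q)
    (hf : ∀ n, Function.Bijective (f.app n)) (n : ℕ) : Function.Bijective (SV.Hmap f n) := by
  constructor
  · rw [injective_iff_map_eq_zero]
    intro x hx
    obtain ⟨z, hz, rfl⟩ := A3Box_exists_cls x
    rw [SV.Hmap_cls] at hx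
    obtain ⟨w, hw⟩ := (Submodule.Quotient.mk_eq_zero _).1 hx
    obtain ⟨w', rfl⟩ := (hf (n + 1)).2 w
    have hw' : Q.d n (f.app (n + 1) w') = f.app n z := hw
    rw [← f.map_d] at hw'
    have h1 := (hf n).1 hw'
    exact (Submodule.Quotient.mk_eq_zero _).2 ⟨w', h1⟩
  · intro y
    obtain ⟨z, hz, rfl⟩ := A3Box_exists_cls y
    obtain ⟨z', rfl⟩ := (hf n).2 z
    have hz' : z' ∈ P.Z n := by
      cases n with
      | zero => exact Submodule.mem_top
      | succ n =>
        have h1 : Q.d n (f.app (n + 1) z') = 0 := hz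
        rw [← f.map_d] at h1
        exact (hf n).1 (h1.trans (map_zero _).symm)
    exact ⟨P.cls z' hz', rfl⟩

theorem Hmap_linProd_bijective (Z Z' : SS) (n : ℕ) :
    Function.Bijective (SV.Hmap (linProd Z Z') n) :=
  A4R3_Hmap_bijective _ (linProd_bijective Z Z') n

theorem cup_fst_snd {p q : ℕ} (n : ℕ) (a : Hc Z p) (b : Hc Z' q) :
    cup n (Hc.map (Hom.fst Z Z') p a) (Hc.map (Hom.snd Z Z') q b) =
      (boxF n a b).comp (SV.Hmap (linProd Z Z') n) := by
  have h1 : ((linMap (Hom.fst Z Z')).tens (linMap (Hom.snd Z Z'))).comp (linDiag (Z.prod Z')) =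
      linProd Z Z' := by
    apply A4R3_linext
    intro m x
    show ((linMap (Hom.fst Z Z')).tens (linMap (Hom.snd Z Z'))).app m
      ((linDiag (Z.prod Z')).app m (Finsupp.single x 1)) = _
    rw [linDiag_single, A4R3_linProd_single]
    show TensorProduct.map _ _ (_ ⊗ₜ[ZMod 2] _) = _
    rw [TensorProduct.map_tmul]
    show (Finsupp.mapDomain ((Hom.fst Z Z').app m) (Finsupp.single x 1)) ⊗ₜ[ZMod 2]
      (Finsupp.mapDomain ((Hom.snd Z Z').app m) (Finsupp.single x 1)) = _
    rw [Finsupp.mapDomain_single, Finsupp.mapDomain_single]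
    rfl
  have h2 := boxF_map (linMap (Hom.fst Z Z')) (linMap (Hom.snd Z Z')) (n := n) a b
  apply LinearMap.ext
  intro x
  show boxF n (a.comp (SV.Hmap (linMap (Hom.fst Z Z')) p))
    (b.comp (SV.Hmap (linMap (Hom.snd Z Z')) q)) (SV.Hmap (linDiag (Z.prod Z')) n x) =
    boxF n a b (SV.Hmap (linProd Z Z') n x)
  rw [← h2, LinearMap.comp_apply, ← SV.Hmap_comp, h1]

/-- a general fact: levelwise bijective linear simplicial maps are isomorphisms in homology -/
theorem Hmap_bijective {P Q : SV} (f : SVHom P Q) (hf : ∀ n, Function.Bijective (f.app n))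
    (n : ℕ) : Function.Bijective (SV.Hmap f n) := A4R3_Hmap_bijective f hf n

end MM
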