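import Pool.Agent.Lib_MP_33f7bb_d.A4R2

/-!
# A4-06: homotopy invariance of `Hc.map`, `CR.map`

`Hmap_linMap_htp`: `prism` (A010): for a cycle `z` of degree `n ≥ 1` the chain
`mapDomain f z + mapDomain g z` is `dif (T z)` (as `T (dif z) = T 0 = 0`); the same for `n = 0`.  (`H.app n (cst 0, x) = f.app n x`;
`linMap f` is `mapDomain` of `f.app n`.)
`Hmap_linMap_lhtp`: a linear homotopy `H : LHpy V W` gives the simplicial map
`(a, x) ↦ H.app n a x`, `Δ^1 × V.ss → W.ss`, so `LHtp f g` implies `Htp f.toHom g.toHom`.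
-/

namespace MM

/-- a linear simplicial map as a simplicial map of the underlying simplicial sets -/
def SVHom.toHom {V W : SV} (f : SVHom V W) : Hom V.ss W.ss :=
  ⟨fun n x => f.app n x, fun g x => f.nat g x⟩

private theorem A4R6_cls_eq {P : SV} {n : ℕ} {z z' : P.V n} (hz : z ∈ P.Z n) (hz' : z' ∈ P.Z n) :
    P.cls z hz = P.cls z' hz' ↔ z + z' ∈ P.B n := by
  unfold SV.cls
  rw [Submodule.Quotient.eq]
  show z - z' ∈ P.B n ↔ z + z' ∈ P.B n
  rw [sub_eq']

theorem Hmap_linMap_htp {Z Z' : SS} {f g : Hom Z Z'} (h : Htp f g) (n : ℕ) :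
    SV.Hmap (linMap f) n = SV.Hmap (linMap g) n := by
  obtain ⟨H, h0, h1⟩ := h
  obtain ⟨T, hT0, hT, -⟩ := prism H
  refine LinearMap.ext fun x => ?_
  obtain ⟨⟨z, hz⟩, rfl⟩ := Submodule.Quotient.mk_surjective _ x
  show (lin Z').cls ((linMap f).app n z) ((linMap f).map_Z hz) =
    (lin Z').cls ((linMap g).app n z) ((linMap g).map_Z hz)
  rw [A4R6_cls_eq]
  have e0 : ∀ m, (fun x => H.app m (cst 0, x)) = f.app m := fun m => funext fun x => h0 m x
  have e1 : ∀ m, (fun x => H.app m (cst 1, x)) = g.app m := fun m => funext fun x => h1 m x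
  cases n with
  | zero =>
    refine ⟨T 0 z, ?_⟩
    rw [lin_d, hT0, e0, e1]
    rfl
  | succ n =>
    have hz' : (lin Z).d n z = 0 := hz
    rw [lin_d] at hz'
    refine ⟨T (n + 1) z, ?_⟩
    rw [lin_d, hT, e0, e1, hz', map_zero, add_zero]
    rfl

theorem LHtp.toHom {V W : SV} {f g : SVHom V W} (h : LHtp f g) : Htp f.toHom g.toHom := by
  obtain ⟨H, h0, h1⟩ := h
  exact ⟨⟨fun n p => H.app n p.1 p.2, fun {m n} u p => H.nat u p.1 p.2⟩,
    fun n x => h0 n x, fun n x => h1 n x⟩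

theorem Hmap_linMap_lhtp {V W : SV} {f g : SVHom V W} (h : LHtp f g) (n : ℕ) :
    SV.Hmap (linMap f.toHom) n = SV.Hmap (linMap g.toHom) n := Hmap_linMap_htp h.toHom n

theorem Hc.map_htp {Z Z' : SS} {f g : Hom Z Z'} (h : Htp f g) (n : ℕ) :
    Hc.map f n = Hc.map g n := by
  rw [Hc.map, Hmap_linMap_htp h, Hc.map]

theorem CR.map_htp {Z Z' : SS} {f g : Hom Z Z'} (h : Htp f g) : CR.map f = CR.map g := by
  refine RingHom.ext fun a => ?_
  funext n
  rw [CR.map_apply, CR.map_apply, Hc.map_htp h]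

private theorem A4R6_comp {V W U : SV} (g : SVHom W U) (f : SVHom V W) :
    linMap (g.comp f).toHom = (linMap g.toHom).comp (linMap f.toHom) := by
  apply SVHom.ext
  funext n
  refine LinearMap.ext fun z => ?_
  show Finsupp.mapDomain _ z = Finsupp.mapDomain _ (Finsupp.mapDomain _ z)
  rw [← Finsupp.mapDomain_comp]
  rfl

private theorem A4R6_id (V : SV) : linMap (SVHom.id V).toHom = SVHom.id (lin V.ss) := by
  apply SVHom.ext
  funext n
  refine LinearMap.ext fun z => ?_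
  exact Finsupp.mapDomain_id

private theorem A4R6_inv {V W : SV} (f : SVHom V W) (g : SVHom W V)
    (h1 : LHtp (g.comp f) (SVHom.id V)) (n : ℕ) (x : (lin V.ss).H n) :
    SV.Hmap (linMap g.toHom) n (SV.Hmap (linMap f.toHom) n x) = x := by
  rw [← SV.Hmap_comp, ← A4R6_comp, Hmap_linMap_lhtp h1, A4R6_id, SV.Hmap_id]

/-- linear homotopy equivalences induce isomorphisms of `H_n (lin ·)` -/
theorem Hmap_linMap_equiv {V W : SV} (f : SVHom V W) (g : SVHom W V)
    (h1 : LHtp (g.comp f) (SVHom.id V)) (h2 : LHtp (f.comp g) (SVHom.id W)) (n : ℕ) :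
    Function.Bijective (SV.Hmap (linMap f.toHom) n) :=
  Function.bijective_iff_has_inverse.2 ⟨SV.Hmap (linMap g.toHom) n,
    fun x => A4R6_inv f g h1 n x, fun x => A4R6_inv g f h2 n x⟩

/-- a linear simplicial map inducing isomorphisms in the homology of `V`, `W` is a homotopy
equivalence (`exists_hom` applied to the inverse maps, `lhtp_iff`) -/
theorem exists_inverse {V W : SV} (f : SVHom V W) (hf : ∀ n, Function.Bijective (SV.Hmap f n)) :
    ∃ g : SVHom W V, LHtp (g.comp f) (SVHom.id V) ∧ LHtp (f.comp g) (SVHom.id W) := by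
  obtain ⟨g, hg⟩ := exists_hom (P := W) (Q := V)
    (fun n => ((LinearEquiv.ofBijective (SV.Hmap f n) (hf n)).symm : W.H n →ₗ[ZMod 2] V.H n))
  refine ⟨g, ?_, ?_⟩
  · rw [lhtp_iff]
    intro n z hz
    obtain ⟨hfz, he⟩ := hg n (f.app n z) (f.map_Z hz)
    show g.app n (f.app n z) + z ∈ V.B n
    rw [← A4R6_cls_eq hfz hz, he, ← SV.Hmap_cls f n z hz]
    exact (LinearEquiv.ofBijective (SV.Hmap f n) (hf n)).symm_apply_apply (V.cls z hz)
  · rw [lhtp_iff]
    intro n z hz
    obtain ⟨hfz, he⟩ := hg n z hz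
    show f.app n (g.app n z) + z ∈ W.B n
    rw [← A4R6_cls_eq (f.map_Z hfz) hz, ← SV.Hmap_cls f n _ hfz, he]
    exact (LinearEquiv.ofBijective (SV.Hmap f n) (hf n)).apply_symm_apply (W.cls z hz)

theorem Hmap_linMap_bij {V W : SV} (f : SVHom V W) (hf : ∀ n, Function.Bijective (SV.Hmap f n))
    (n : ℕ) : Function.Bijective (SV.Hmap (linMap f.toHom) n) := by
  obtain ⟨g, h1, h2⟩ := exists_inverse f hf
  exact Hmap_linMap_equiv f g h1 h2 n

end MM
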