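import Pool.Agent.Lib_MP_33f7bb_d.A3EM
import Pool.Agent.Lib_MP_33f7bb_d.A4R3
import Pool.Agent.Lib_MP_33f7bb_d.A4R6

/-!
# A3-17: natural operations on cohomology in degrees at most the degree of the argument (universal example `K'(n)`)

`K := (KK n).ss`.  `(KK n).V j = 0` for `j < n` (`KK_V_eq_zero`) and `(KK n).V n = {0, iota}`: so `K` has exactly one `j`-simplex
(`0`) for `j < n` and two `n`-simplices.  `dif [0_(j+1)] = (j+2) [0_j]` (`0_j` the zero simplex of dimension `j`).
* `kk_low`: `0 < j < n`: every cycle of `lin K` of degree `j` is a boundary: it is `c [0_j]`; if `j` is odd, `[0_j] = dif [0_(j+1)]`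
  (`j + 2` odd); if `j` is even, `dif (c [0_j]) = (j+1) c [0_(j-1)] = 0` gives `c = 0`.
* `kk_top`: `n ≥ 1`: a cycle `z` of `lin K` of degree `n` whose image in `H_n (KK n)` (under the linearisation
  `linHom (Hom.id _)`, `c [0] + c' [iota] ↦ c' iota`; `KK_iota_not_mem_B`) is zero is a boundary: `c' = 0`, then as before.
* `natop_low`: `D : ∀ Z, Hc Z n → Hc Z m` natural, `D 0 = 0`, `m < n`: then `D = 0`.  By `em_surj` (`exists_KKev`) and `clW_id`,
  `y = a^* (iota)`, `iota = clW u (Hom.id _) ∈ Hc K n`, so `D y = a^* (D iota)`; if `0 < m < n`, `Hc K m = 0` (`kk_low`).  If `m = 0`: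
  `H_0 (lin K)` is spanned by the class of the vertex `0`; pull back along the map `PT → K` given by this vertex:
  `iota` pulls back to a class in `Hc PT n`, `n ≥ 1`, which is `0` (cycles of positive degree of `lin PT` are boundaries), so
  `D iota` pulls back to `D 0 = 0`.
* `natop_eq`: `m = n ≥ 1`: `D iota` is a multiple `r • iota` of `iota` (`kk_top`: a functional on `H_n (lin K)` vanishing on the
  kernel of `iota`).  So `D y = r • y` for all `y`.
-/

open scoped TensorProduct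

namespace MM

private theorem A3U_d {Z : SS} (x : ∀ k, Z.S k) (hx : ∀ k (i : Fin (k + 2)),
    Z.act (dlt i) (x (k + 1)) = x k) (k : ℕ) (r : ZMod 2) :
    (lin Z).d k (Finsupp.single (x (k + 1)) r) =
      ((k + 2 : ℕ) : ZMod 2) • (Finsupp.single (x k) r : Ch Z k) := by
  simp only [SV.d, LinearMap.sum_apply, Finsupp.lmapDomain_apply, Finsupp.mapDomain_single, hx]
  rw [Finset.sum_const, Finset.card_univ, Fintype.card_fin, Nat.cast_smul_eq_nsmul]

private theorem A3U_mem {Z : SS} (x : ∀ k, Z.S k) (hx : ∀ k (i : Fin (k + 2)),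
    Z.act (dlt i) (x (k + 1)) = x k) (m : ℕ) (r : ZMod 2)
    (hz : (Finsupp.single (x (m + 1)) r : Ch Z (m + 1)) ∈ (lin Z).Z (m + 1)) :
    (Finsupp.single (x (m + 1)) r : Ch Z (m + 1)) ∈ (lin Z).B (m + 1) := by
  have h5 : (lin Z).d m (Finsupp.single (x (m + 1)) r) = 0 := hz
  rw [A3U_d x hx] at h5
  have h7 : ((m + 2 : ℕ) : ZMod 2) * r = 0 := by
    have h8 := congrArg (fun u : Ch Z m => u (x m)) h5
    simp only [Finsupp.smul_apply, Finsupp.single_eq_same, smul_eq_mul] at h8
    exact h8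
  rcases mul_eq_zero.1 h7 with h8 | h8
  · refine ⟨Finsupp.single (x (m + 2)) r, ?_⟩
    rw [A3U_d x hx]
    have h9 : ((m + 1 + 2 : ℕ) : ZMod 2) = 1 := by
      have : ((m + 1 + 2 : ℕ) : ZMod 2) = ((m + 2 : ℕ) : ZMod 2) + 1 := by push_cast; ring
      rw [this, h8, zero_add]
    rw [h9, one_smul]
  · rw [h8, Finsupp.single_zero]
    exact Submodule.zero_mem _

private theorem A3U_single {α : Type*} (a : α) (h : ∀ b : α, b = a) (z : α →₀ ZMod 2) :
    z = Finsupp.single a (z a) := by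
  ext b
  rw [h b, Finsupp.single_eq_same]

theorem kk_low (n j : ℕ) (h0 : 0 < j) (hj : j < n) (z : Ch (KK n).ss j)
    (hz : z ∈ (lin (KK n).ss).Z j) : z ∈ (lin (KK n).ss).B j := by
  obtain ⟨m, rfl⟩ : ∃ m, j = m + 1 := ⟨j - 1, by omega⟩
  have h1 : z = Finsupp.single (0 : (KK n).V (m + 1)) (z (0 : (KK n).V (m + 1))) :=
    A3U_single (0 : (KK n).V (m + 1)) (fun b => KK_V_eq_zero n (m + 1) hj b) z
  rw [h1] at hz ⊢
  exact A3U_mem (Z := (KK n).ss) (fun k => (0 : (KK n).V k)) (fun k i => map_zero _) m _ hz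

private theorem A3U_V_top (n : ℕ) (x : (KK n).V n) : x = 0 ∨ x = KK.iota n := by
  obtain ⟨c, rfl⟩ := Submodule.Quotient.mk_surjective _ x
  have hc : (Submodule.Quotient.mk c : (KK n).V n) =
      (c (OrderHom.id : Mo n n)) • KK.iota n := by
    have h1 : (c (OrderHom.id : Mo n n)) • KK.iota n =
        (Submodule.Quotient.mk (Finsupp.single (OrderHom.id : Mo n n)
          (c (OrderHom.id : Mo n n))) : (KK n).V n) := by
      show _ • (Submodule.Quotient.mk (Finsupp.single (OrderHom.id : Mo n n) 1) : (KK n).V n) = _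
      rw [← Submodule.Quotient.mk_smul, Finsupp.smul_single, smul_eq_mul, mul_one]
    rw [h1, Submodule.Quotient.eq]
    intro y hy
    show ¬ Function.Surjective (y : Mo n n)
    intro hs
    have hy1 : y = OrderHom.id := by
      have hb : Function.Bijective (y : Fin (n + 1) → Fin (n + 1)) :=
        Finite.surjective_iff_bijective.1 hs
      have hmono : StrictMono (y : Fin (n + 1) → Fin (n + 1)) :=
        y.monotone.strictMono_of_injective hb.1
      ext i
      have := hmono.range_inj (strictMono_id (α := Fin (n + 1)))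
      have h2 : (y : Fin (n + 1) → Fin (n + 1)) = id := by
        rw [← this, hs.range_eq, Set.range_id]
      rw [show y i = i from congrFun h2 i]
      rfl
    have hy2 := (Finset.mem_coe.1 hy)
    rw [Finsupp.mem_support_iff, hy1] at hy2
    apply hy2
    rw [Finsupp.sub_apply, Finsupp.single_eq_same, sub_self]
  have h01 : ∀ r : ZMod 2, r = 0 ∨ r = 1 := by decide
  rcases h01 (c (OrderHom.id : Mo n n)) with h | h
  · left
    rw [hc, h, zero_smul]
  · right
    rw [hc, h, one_smul]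

theorem kk_top (n : ℕ) (hn : 1 ≤ n) (z : Ch (KK n).ss n) (hz : z ∈ (lin (KK n).ss).Z n)
    (h : (linHom (Hom.id (KK n).ss)).app n z ∈ (KK n).B n) : z ∈ (lin (KK n).ss).B n := by
  have hne : (0 : (KK n).V n) ≠ KK.iota n := by
    intro h
    exact KK_iota_not_mem_B n (h ▸ Submodule.zero_mem _)
  have h1 : z = Finsupp.single (0 : (KK n).V n) (z (0 : (KK n).V n)) +
      Finsupp.single (KK.iota n) (z (KK.iota n)) := by
    ext b
    rw [Finsupp.add_apply]
    rcases A3U_V_top n b with hb | hb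
    · rw [hb, Finsupp.single_eq_same, Finsupp.single_eq_of_ne hne, add_zero]
    · rw [hb, Finsupp.single_eq_same, Finsupp.single_eq_of_ne hne.symm, zero_add]
  have h2 : (linHom (Hom.id (KK n).ss)).app n z = (z (KK.iota n)) • KK.iota n := by
    conv_lhs => rw [h1]
    rw [map_add]
    show linExt (Hom.id (KK n).ss).app n (Finsupp.single (0 : (KK n).V n) (z (0 : (KK n).V n))) +
      linExt (Hom.id (KK n).ss).app n (Finsupp.single (KK.iota n) (z (KK.iota n))) = _
    rw [linExt_single, linExt_single]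
    show (z (0 : (KK n).V n)) • (0 : (KK n).V n) + (z (KK.iota n)) • KK.iota n = _
    rw [smul_zero, zero_add]
  have h3 : z (KK.iota n) = 0 := by
    have h01 : ∀ r : ZMod 2, r = 0 ∨ r = 1 := by decide
    rcases h01 (z (KK.iota n)) with h | h'
    · exact h
    · rw [h2, h', one_smul] at h
      exact absurd h (KK_iota_not_mem_B n)
  rw [h3, Finsupp.single_zero, add_zero] at h1
  obtain ⟨m, rfl⟩ : ∃ m, n = m + 1 := ⟨n - 1, by omega⟩
  rw [h1] at hz ⊢
  exact A3U_mem (Z := (KK (m + 1)).ss) (fun k => (0 : (KK (m + 1)).V k)) (fun k i => map_zero _)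
    m _ hz

private theorem A3U_cls_zero {W : SV} {n : ℕ} (z : W.V n) (hz : z ∈ W.Z n) (h : z ∈ W.B n) :
    W.cls z hz = 0 := (Submodule.Quotient.mk_eq_zero _).2 h

private theorem A3U_cls_zero_iff {W : SV} {n : ℕ} (z : W.V n) (hz : z ∈ W.Z n) :
    W.cls z hz = 0 ↔ z ∈ W.B n := Submodule.Quotient.mk_eq_zero _

private theorem A3U_PT (n : ℕ) (hn : 1 ≤ n) (y : Hc PT n) : y = 0 := by
  refine LinearMap.ext fun x => ?_
  obtain ⟨z, hz, rfl⟩ := A3Box_exists_cls x
  obtain ⟨m, rfl⟩ : ∃ m, n = m + 1 := ⟨n - 1, by omega⟩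
  have h1 : z = Finsupp.single () (z ()) := A3U_single () (fun b => rfl) z
  have h2 : z ∈ (lin PT).B (m + 1) := by
    rw [h1] at hz ⊢
    exact A3U_mem (Z := PT) (fun k => ()) (fun k i => rfl) m _ hz
  rw [A3U_cls_zero z hz h2, map_zero, LinearMap.zero_apply]

private noncomputable def A3U_pt (n : ℕ) : Hom PT (KK n).ss :=
  ⟨fun k _ => (0 : (KK n).V k), fun f _ => (map_zero ((KK n).act f)).symm⟩

private theorem A3U_zero {n m : ℕ} (hm : m < n) (D : ∀ Z : SS, Hc Z n → Hc Z m)
    (hnat : ∀ {Z Z' : SS} (f : Hom Z Z') (y : Hc Z' n), D Z (Hc.map f n y) = Hc.map f m (D Z' y))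
    (h0 : ∀ Z, D Z 0 = 0) (w : Hc (KK n).ss n) : D (KK n).ss w = 0 := by
  refine LinearMap.ext fun x => ?_
  obtain ⟨z, hz, rfl⟩ := A3Box_exists_cls x
  rw [LinearMap.zero_apply]
  rcases Nat.eq_zero_or_pos m with rfl | hm0
  · have h1 := hnat (A3U_pt n) w
    rw [A3U_PT n (by omega) (Hc.map (A3U_pt n) n w), h0] at h1
    have h2 : z = Finsupp.single (0 : (KK n).V 0) (z (0 : (KK n).V 0)) :=
      A3U_single (0 : (KK n).V 0) (fun b => KK_V_eq_zero n 0 hm b) z
    have h3 := LinearMap.congr_fun h1 ((lin PT).cls (Finsupp.single () (z (0 : (KK n).V 0)))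
      Submodule.mem_top)
    rw [LinearMap.zero_apply] at h3
    have h4 : Hc.map (A3U_pt n) 0 (D (KK n).ss w) ((lin PT).cls
        (Finsupp.single () (z (0 : (KK n).V 0))) Submodule.mem_top) =
        D (KK n).ss w ((lin (KK n).ss).cls ((linMap (A3U_pt n)).app 0
          (Finsupp.single () (z (0 : (KK n).V 0)))) (SVHom.map_Z _ Submodule.mem_top)) := rfl
    rw [h4] at h3
    rw [h3]
    congr 1
    have h5 : (linMap (A3U_pt n)).app 0 (Finsupp.single () (z (0 : (KK n).V 0))) = z := by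
      conv_rhs => rw [h2]
      show Finsupp.mapDomain _ (Finsupp.single () (z (0 : (KK n).V 0))) = _
      rw [Finsupp.mapDomain_single]
      rfl
    exact A3Box_cls_congr h5.symm _ _
  · rw [A3U_cls_zero z hz (kk_low n m hm0 hm z hz), map_zero]

theorem natop_low {n m : ℕ} (hm : m < n) (D : ∀ Z : SS, Hc Z n → Hc Z m)
    (hnat : ∀ {Z Z' : SS} (f : Hom Z Z') (y : Hc Z' n), D Z (Hc.map f n y) = Hc.map f m (D Z' y))
    (h0 : ∀ Z, D Z 0 = 0) (Z : SS) (y : Hc Z n) : D Z y = 0 := by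
  obtain ⟨u, hu⟩ := exists_KKev n
  obtain ⟨a, rfl⟩ := em_surj hu y
  rw [clW_id, hnat, A3U_zero hm D hnat h0, map_zero]

private theorem A3U_dual {V : Type*} [AddCommGroup V] [Module (ZMod 2) V]
    (i f : Module.Dual (ZMod 2) V) (hi : Function.Injective i) : ∃ r : ZMod 2, f = r • i := by
  have h01 : ∀ r : ZMod 2, r = 0 ∨ r = 1 := by decide
  by_cases h : ∃ x, i x = 1
  · obtain ⟨x, hx⟩ := h
    refine ⟨f x, LinearMap.ext fun y => ?_⟩
    rw [LinearMap.smul_apply, smul_eq_mul]
    rcases h01 (i y) with hy | hy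
    · have : y = 0 := hi (by rw [hy, map_zero])
      rw [this, map_zero, map_zero, mul_zero]
    · have : y = x := hi (by rw [hy, hx])
      rw [this, hx, mul_one]
  · refine ⟨0, LinearMap.ext fun y => ?_⟩
    rw [zero_smul, LinearMap.zero_apply]
    rcases h01 (i y) with hy | hy
    · have : y = 0 := hi (by rw [hy, map_zero])
      rw [this, map_zero]
    · exact absurd ⟨y, hy⟩ h

theorem natop_eq {n : ℕ} (hn : 1 ≤ n) (D : ∀ Z : SS, Hc Z n → Hc Z n)
    (hnat : ∀ {Z Z' : SS} (f : Hom Z Z') (y : Hc Z' n), D Z (Hc.map f n y) = Hc.map f n (D Z' y))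
    (h0 : ∀ Z, D Z 0 = 0) : ∃ r : ZMod 2, ∀ (Z : SS) (y : Hc Z n), D Z y = r • y := by
  obtain ⟨u, hu⟩ := exists_KKev n
  have hinj : Function.Injective (clW u (Hom.id (KK n).ss)) := by
    rw [injective_iff_map_eq_zero]
    intro x hx
    obtain ⟨z, hz, rfl⟩ := A3Box_exists_cls x
    have h1 : u ((KK n).cls ((linHom (Hom.id (KK n).ss)).app n z)
        ((linHom (Hom.id (KK n).ss)).map_Z hz)) = 0 := hx
    have h2 := hu.bij.1 (h1.trans (map_zero u).symm)
    exact A3U_cls_zero z hz (kk_top n hn z hz ((A3U_cls_zero_iff _ _).1 h2))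
  obtain ⟨r, hr⟩ := A3U_dual _ (D (KK n).ss (clW u (Hom.id (KK n).ss))) hinj
  refine ⟨r, fun Z y => ?_⟩
  obtain ⟨a, rfl⟩ := em_surj hu y
  rw [clW_id, hnat, hr, map_smul]

end MM
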