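import Pool.Agent.Lib_MP_33f7bb_d.A3Phi
import Pool.Agent.Lib_MP_33f7bb_d.A3Pw
import Pool.Agent.Lib_MP_33f7bb_d.A3U

/-!
# A3-18: Steenrod squares on unreduced cohomology

`SqU n m : H^n (Z) → H^m (Z)` = coefficient of `x^(2n-m)` of the power operation, for `n ≤ m ≤ 2 n`, else `0`.

* `cf_Pw_low`: `i > n`, `i + m = 2 n` (so `m < n`): `cf i m (2n) (Pw n y) = 0`: `natop_low` for `D Z y = cf i m (2n) (Pw n y)`
  (natural: `Pw_map`, `cf_map`; `Pw n 0 = 0` from `Pw_add`).  For `i + m ≠ 2 n`: `cf_ne`.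
* `cf_Pw_id`: `cf n n (2n) (Pw n y) = y`.  `n = 0`: `Pw_zero`, `cf_snd_zero`.  `n ≥ 1`: by `natop_eq` it is `r • y` for some
  `r = r_n`.  Show `r_n = 1` by induction on `n ≥ 1`, applied to `Z = BZ2`, `y = xP n ≠ 0`.  `n = 1`: `Pw_one`: the first summand is
  `snd^* (cup 2 y y)`, coefficient `0` (`cf_snd_ne`, `Hc.map_cup`), the second gives `y` (`cf_box`, `xP_one`).  `n + 1`:
  `xP (n+1) = cup (n+1) (xP 1) (xP n)` (`xP_mul`), `Pw_cup`, `cf_cup` with `k = m = n + 1`: the terms `i = 0` (`cf (n+1) (n-1) (2n)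
  (Pw n _) = 0`) and `i ≥ 2` (`cf i (2-i) 2 (Pw 1 _) = 0`) vanish by `cf_Pw_low` / `cf_ne`; the term `i = 1` is
  `cup (n+1) (xP 1) (xP n) = xP (n+1)`.
* `SqU_add`: `Pw_add`.  `SqU_map`: `Pw_map`, `cf_map`.  `SqU_id`: `cf_Pw_id`.  `SqU_top`: `cf_zero`, `Pw_incl`.
* `SqU_cup`: `p + q = n`.  If `m < n` or `m > 2 n` both sides vanish (`SqU` of a term with `k < p` or `m - k < q`, resp. `k > 2 p` or
  `m - k > 2 q`).  Else `Pw_cup`, `cf_cup` with `k = 2 n - m`: the sum over `i ≤ 2 n - m` of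
  `cup m (cf i (2p-i) (2p) (Pw p a)) (cf (k-i) (2q-(k-i)) (2q) (Pw q b))`; substitute `i = 2 p - j`: `j = 2p - i` runs over the degrees of
  the first factor; terms with `i > 2p` vanish, `cf i (2p - i) (2p) (Pw p a) = SqU p (2p-i) a` for `i ≤ 2 p` (if `2p - i < p` both are
  `0` by `cf_Pw_low`), and `m - (2p - i) = 2q - (k - i)`.  Terms of the right hand side with `j > 2 p` or `m - j > 2 q` vanish.
-/

open scoped TensorProduct

namespace MM

variable {Z Z' : SS}

theorem Pw_map_zero (n : ℕ) : Pw n (0 : Hc Z n) = 0 := by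
  have h := Pw_add n (0 : Hc Z n) 0
  rw [add_zero] at h
  exact left_eq_add.1 h

theorem cf_Pw_low {n i m : ℕ} (hi : n < i) (y : Hc Z n) : cf i m (2 * n) (Pw n y) = 0 := by
  by_cases h : i + m = 2 * n
  · exact natop_low (m := m) (n := n) (by omega) (fun Z y => cf i m (2 * n) (Pw n y))
      (fun f y => by
        show cf i m (2 * n) (Pw n (Hc.map f n y)) = Hc.map f m (cf i m (2 * n) (Pw n y))
        rw [Pw_map, cf_map])
      (fun Z => by
        show cf i m (2 * n) (Pw n (0 : Hc Z n)) = 0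
        rw [Pw_map_zero, map_zero]) Z y
  · exact cf_ne h _

private theorem A3SqU_one (y : Hc Z 1) : cf 1 1 (2 * 1) (Pw 1 y) = y := by
  rw [Pw_one]
  show cf 1 1 2 (cup 2 (Hc.map (Hom.snd BZ2 Z) 1 y) (Hc.map (Hom.snd BZ2 Z) 1 y) +
      cup 2 (Hc.map (Hom.fst BZ2 Z) 1 xB) (Hc.map (Hom.snd BZ2 Z) 1 y)) = y
  rw [map_add, ← Hc.map_cup, cf_snd_ne one_ne_zero, zero_add, ← xP_one]
  exact cf_box (j := 1) (q := 1) (n := 2) rfl y

private theorem A3SqU_xP (n : ℕ) (hn : 1 ≤ n) : cf n n (2 * n) (Pw n (xP n)) = xP n := by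
  induction n, hn using Nat.le_induction with
  | base => exact A3SqU_one _
  | succ n hn ih =>
    have h1 : cup (n + 1) (xP 1) (xP n) = xP (n + 1) := xP_mul (by omega)
    rw [← h1, Pw_cup (show 1 + n = n + 1 by omega),
      cf_cup (show 2 * 1 + 2 * n = 2 * (n + 1) by omega) (show n + 1 + (n + 1) = 2 * (n + 1) by omega),
      Finset.sum_eq_single 1]
    · have h2 : ∀ a b c : ℕ, a = 1 → b = n → c = n →
          cup (n + 1) (cf 1 a (2 * 1) (Pw 1 (xP 1))) (cf b c (2 * n) (Pw n (xP n))) =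
            cup (n + 1) (xP 1) (xP n) := by
        intro a b c ha hb hc
        subst ha hb hc
        rw [ih, A3SqU_one]
      exact h2 _ _ _ (by omega) (by omega) (by omega)
    · intro i _ hi
      rcases Nat.lt_or_ge 1 i with h3 | h3
      · rw [cf_Pw_low h3, cup_zero_left]
      · have hi0 : i = 0 := by omega
        subst hi0
        rw [cf_Pw_low (show n < n + 1 - 0 by omega), cup_zero_right]
    · intro h3
      exact absurd (Finset.mem_range.2 (by omega)) h3

theorem cf_Pw_id (n : ℕ) (y : Hc Z n) : cf n n (2 * n) (Pw n y) = y := by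
  rcases Nat.eq_zero_or_pos n with rfl | hn
  · rw [Pw_zero]
    exact cf_snd_zero 0 y
  · obtain ⟨r, hr⟩ := natop_eq hn (fun Z y => cf n n (2 * n) (Pw n y))
      (fun f y => by
        show cf n n (2 * n) (Pw n (Hc.map f n y)) = Hc.map f n (cf n n (2 * n) (Pw n y))
        rw [Pw_map, cf_map])
      (fun Z => by
        show cf n n (2 * n) (Pw n (0 : Hc Z n)) = 0
        rw [Pw_map_zero, map_zero])
    have h1 : cf n n (2 * n) (Pw n (xP n)) = r • xP n := hr BZ2 (xP n)
    rw [A3SqU_xP n hn] at h1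
    have h2 := congrArg (fun w : Hc BZ2 n => w (eU n)) h1
    have h3 : xP n (eU n) = r * xP n (eU n) := h2
    rw [xP_eU, mul_one] at h3
    have h4 : cf n n (2 * n) (Pw n y) = r • y := hr Z y
    rw [h4, ← h3, one_smul]

/-- Steenrod squares on unreduced cohomology -/
noncomputable def SqU (n m : ℕ) : Hc Z n →ₗ[ZMod 2] Hc Z m :=
  if _h : n ≤ m ∧ m ≤ 2 * n then
    AddMonoidHom.toZModLinearMap 2
      { toFun := fun y => cf (2 * n - m) m (2 * n) (Pw n y)
        map_zero' := by rw [Pw_map_zero, map_zero]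
        map_add' := fun y y' => by rw [Pw_add, map_add] }
  else 0

theorem SqU_apply {n m : ℕ} (h : n ≤ m ∧ m ≤ 2 * n) (y : Hc Z n) :
    SqU n m y = cf (2 * n - m) m (2 * n) (Pw n y) := by
  rw [SqU, dif_pos h]; rfl

theorem SqU_lt {n m : ℕ} (h : m < n) : (SqU n m : Hc Z n →ₗ[ZMod 2] Hc Z m) = 0 :=
  dif_neg fun h' => by omega

theorem SqU_unst {n m : ℕ} (h : 2 * n < m) : (SqU n m : Hc Z n →ₗ[ZMod 2] Hc Z m) = 0 :=
  dif_neg fun h' => by omega

/-- `SqU` is the coefficient of `x^i`, `i + m = 2 n` -/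
private theorem A3SqU_eq_cf {n i m : ℕ} (h : i + m = 2 * n) (y : Hc Z n) :
    SqU n m y = cf i m (2 * n) (Pw n y) := by
  rcases Nat.lt_or_ge m n with h1 | h1
  · rw [SqU_lt h1, cf_Pw_low (show n < i by omega)]
    rfl
  · rw [SqU_apply ⟨h1, by omega⟩, show 2 * n - m = i by omega]

theorem SqU_map (f : Hom Z Z') (n m : ℕ) (y : Hc Z' n) :
    SqU n m (Hc.map f n y) = Hc.map f m (SqU n m y) := by
  by_cases h : m ≤ 2 * n
  · rw [A3SqU_eq_cf (show 2 * n - m + m = 2 * n by omega),
      A3SqU_eq_cf (show 2 * n - m + m = 2 * n by omega), Pw_map, cf_map]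
  · rw [SqU_unst (by omega), SqU_unst (by omega)]
    show (0 : Hc Z m) = Hc.map f m 0
    rw [map_zero]

theorem SqU_id (n : ℕ) : (SqU n n : Hc Z n →ₗ[ZMod 2] Hc Z n) = LinearMap.id := by
  apply LinearMap.ext
  intro y
  rw [A3SqU_eq_cf (show n + n = 2 * n by omega), cf_Pw_id]
  rfl

theorem SqU_top (n : ℕ) (y : Hc Z n) : SqU n (2 * n) y = cup (2 * n) y y := by
  rw [A3SqU_eq_cf (show 0 + 2 * n = 2 * n by omega), cf_zero, Pw_incl]

theorem SqU_cup {p q n : ℕ} (h : p + q = n) (m : ℕ) (a : Hc Z p) (b : Hc Z q) :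
    SqU n m (cup n a b) = ∑ k ∈ Finset.range (m + 1), cup m (SqU p k a) (SqU q (m - k) b) := by
  rcases Nat.lt_or_ge (2 * n) m with hm | hm
  · rw [SqU_unst hm]
    show (0 : Hc Z m) = _
    symm
    refine Finset.sum_eq_zero fun k hk => ?_
    rcases Nat.lt_or_ge (2 * p) k with h1 | h1
    · rw [SqU_unst h1]
      exact cup_zero_left _
    · rw [SqU_unst (show 2 * q < m - k by omega)]
      exact cup_zero_right _
  · obtain ⟨K, hK⟩ : ∃ K, K + m = 2 * n := ⟨2 * n - m, by omega⟩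
    rw [A3SqU_eq_cf hK, Pw_cup h, cf_cup (show 2 * p + 2 * q = 2 * n by omega) hK]
    have hL : ∑ i ∈ (Finset.range (K + 1)).filter (fun i => i ≤ 2 * p ∧ K - i ≤ 2 * q),
        cup m (cf i (2 * p - i) (2 * p) (Pw p a))
          (cf (K - i) (2 * q - (K - i)) (2 * q) (Pw q b)) =
        ∑ i ∈ Finset.range (K + 1), cup m (cf i (2 * p - i) (2 * p) (Pw p a))
          (cf (K - i) (2 * q - (K - i)) (2 * q) (Pw q b)) := by
      refine Finset.sum_filter_of_ne fun i _ hne => ?_
      constructor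
      · by_contra h1
        refine hne ?_
        rw [cf_Pw_low (show p < i by omega), cup_zero_left]
      · by_contra h1
        refine hne ?_
        rw [cf_Pw_low (show q < K - i by omega), cup_zero_right]
    have hR : ∑ k ∈ (Finset.range (m + 1)).filter (fun k => k ≤ 2 * p ∧ m - k ≤ 2 * q),
        cup m (SqU p k a) (SqU q (m - k) b) =
        ∑ k ∈ Finset.range (m + 1), cup m (SqU p k a) (SqU q (m - k) b) := by
      refine Finset.sum_filter_of_ne fun k _ hne => ?_
      constructor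
      · by_contra h1
        refine hne ?_
        rw [SqU_unst (show 2 * p < k by omega)]
        exact cup_zero_left _
      · by_contra h1
        refine hne ?_
        rw [SqU_unst (show 2 * q < m - k by omega)]
        exact cup_zero_right _
    rw [← hL, ← hR]
    refine Finset.sum_bij' (fun i _ => 2 * p - i) (fun k _ => 2 * p - k) ?_ ?_ ?_ ?_ ?_
    · intro i hi
      rw [Finset.mem_filter, Finset.mem_range] at hi ⊢
      omega
    · intro k hk
      rw [Finset.mem_filter, Finset.mem_range] at hk ⊢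
      omega
    · intro i hi
      rw [Finset.mem_filter, Finset.mem_range] at hi
      omega
    · intro k hk
      rw [Finset.mem_filter, Finset.mem_range] at hk
      omega
    · intro i hi
      rw [Finset.mem_filter, Finset.mem_range] at hi
      rw [show m - (2 * p - i) = 2 * q - (K - i) by omega,
        A3SqU_eq_cf (show i + (2 * p - i) = 2 * p by omega),
        A3SqU_eq_cf (show K - i + (2 * q - (K - i)) = 2 * q by omega)]

end MM
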