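import Pool.Agent.Lib_MP_33f7bb_d.A3T0

/-!
# A3-T1: the concatenation product (complete)
-/

open scoped TensorProduct

namespace MM

section NC

variable {X Y : Type}

theorem ncmul_eq_sum (f g : NC X) (l : List X) :
    ncmul f g l = ∑ i ∈ Finset.range (l.length + 1), f (l.take i) * g (l.drop i) := by
  induction l generalizing f with
  | nil => simp [ncmul_nil]
  | cons x l ih =>
    rw [ncmul_cons, ih, List.length_cons, Finset.sum_range_succ' _ (l.length + 1), add_comm]
    rfl

theorem ncmul_add_left (f f' g : NC X) : ncmul (f + f') g = ncmul f g + ncmul f' g := by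
  funext l
  simp only [ncmul_eq_sum, Pi.add_apply, add_mul, Finset.sum_add_distrib]

theorem ncmul_add_right (f g g' : NC X) : ncmul f (g + g') = ncmul f g + ncmul f g' := by
  funext l
  simp only [ncmul_eq_sum, Pi.add_apply, mul_add, Finset.sum_add_distrib]

theorem ncmul_smul_left (r : ZMod 2) (f g : NC X) : ncmul (r • f) g = r • ncmul f g := by
  funext l
  simp only [ncmul_eq_sum, Pi.smul_apply, smul_eq_mul, Finset.mul_sum, mul_assoc]

theorem ncmul_smul_right (r : ZMod 2) (f g : NC X) : ncmul f (r • g) = r • ncmul f g := by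
  funext l
  simp only [ncmul_eq_sum, Pi.smul_apply, smul_eq_mul, Finset.mul_sum]
  exact Finset.sum_congr rfl fun i _ => by ring

theorem ncmul_map (φ : X → Y) (f g : NC Y) (l : List X) :
    ncmul f g (l.map φ) = ncmul (fun l => f (l.map φ)) (fun l => g (l.map φ)) l := by
  simp only [ncmul_eq_sum, List.length_map, List.map_take, List.map_drop]

theorem IsHom.hd {p : ℕ} {f : NC X} (hf : IsHom (p + 1) f) (x : X) : IsHom p (hd f x) :=
  fun l hl => hf (x :: l) fun h => hl (by simpa using h)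

theorem IsHom.nil {p : ℕ} {f : NC X} (hf : IsHom (p + 1) f) : f [] = 0 := hf [] (by simp)

theorem IsHom.ncmul {p q : ℕ} {f g : NC X} (hf : IsHom p f) (hg : IsHom q g) :
    IsHom (p + q) (ncmul f g) := by
  intro l hl
  rw [ncmul_eq_sum]
  refine Finset.sum_eq_zero fun i hi => ?_
  rw [Finset.mem_range] at hi
  by_cases h : i = p
  · have h2 : (l.drop i).length ≠ q := by
      rw [List.length_drop]; omega
    rw [hg _ h2, mul_zero]
  · have h2 : (l.take i).length ≠ p := by
      rw [List.length_take]; omega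
    rw [hf _ h2, zero_mul]

theorem ncmul_of_hom {p : ℕ} {f : NC X} (hf : IsHom p f) (g : NC X) {l₁ l₂ : List X}
    (h : l₁.length = p) : ncmul f g (l₁ ++ l₂) = f l₁ * g l₂ := by
  rw [ncmul_eq_sum, Finset.sum_eq_single p]
  · subst h
    rw [List.take_left, List.drop_left]
  · intro i hi hne
    rw [Finset.mem_range] at hi
    have h2 : ((l₁ ++ l₂).take i).length ≠ p := by
      rw [List.length_take]; omega
    rw [hf _ h2, zero_mul]
  · intro h2
    exfalso
    apply h2
    rw [Finset.mem_range, List.length_append]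
    omega

end NC

theorem IsAdd.ncmul {m : ℕ} {f g : NC (PR m)} (hf : IsAdd f) (hg : IsAdd g) :
    IsAdd (ncmul f g) := by
  intro l₁ l₂ a b c
  induction l₁ generalizing f with
  | nil =>
    show MM.ncmul f g ((a, c) :: l₂) = MM.ncmul f g ((a, b) :: l₂) + MM.ncmul f g ((b, c) :: l₂)
    rw [ncmul_cons, ncmul_cons, ncmul_cons, hf.first a b c, ncmul_add_left,
      show g ((a, c) :: l₂) = g ((a, b) :: l₂) + g ((b, c) :: l₂) from hg [] l₂ a b c,
      Pi.add_apply]
    ring
  | cons x l ih =>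
    show MM.ncmul f g (x :: (l ++ (a, c) :: l₂)) = MM.ncmul f g (x :: (l ++ (a, b) :: l₂)) +
      MM.ncmul f g (x :: (l ++ (b, c) :: l₂))
    rw [ncmul_cons, ncmul_cons, ncmul_cons, ih (hf.hd x),
      show g (x :: (l ++ (a, c) :: l₂)) = g (x :: (l ++ (a, b) :: l₂)) +
        g (x :: (l ++ (b, c) :: l₂)) from hg (x :: l) l₂ a b c]
    ring

/-- the product of `TT` -/
def tmul {m : ℕ} (f g : TT.V m) : TT.V m := ⟨ncmul f.1 g.1, f.2.ncmul g.2⟩

theorem tmul_apply {m : ℕ} (f g : TT.V m) (l : List (PR m)) :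
    (tmul f g).1 l = ncmul f.1 g.1 l := rfl

theorem tmul_act {m n : ℕ} (θ : Mo m n) (f g : TT.V n) :
    tmul (TT.act θ f) (TT.act θ g) = TT.act θ (tmul f g) :=
  Subtype.ext (funext fun l => (ncmul_map (prMap θ) f.1 g.1 l).symm)

/-- the product of `TT` as a bilinear map -/
noncomputable def tmulL (m : ℕ) : TT.V m →ₗ[ZMod 2] TT.V m →ₗ[ZMod 2] TT.V m :=
  LinearMap.mk₂ (ZMod 2) tmul
    (fun f f' g => Subtype.ext (ncmul_add_left f.1 f'.1 g.1))
    (fun r f g => Subtype.ext (ncmul_smul_left r f.1 g.1))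
    (fun f g g' => Subtype.ext (ncmul_add_right f.1 g.1 g'.1))
    (fun r f g => Subtype.ext (ncmul_smul_right r f.1 g.1))

/-- a natural bilinear map as a map out of the tensor product -/
noncomputable def tensLift {P Q W : SV} (β : ∀ n, P.V n →ₗ[ZMod 2] Q.V n →ₗ[ZMod 2] W.V n)
    (hβ : ∀ {m n : ℕ} (θ : Mo m n) (x : P.V n) (y : Q.V n),
      β m (P.act θ x) (Q.act θ y) = W.act θ (β n x y)) : SVHom (P.tens Q) W :=
  ⟨fun n => TensorProduct.lift (β n), fun {m n} θ u => by
    induction u using TensorProduct.induction_on with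
    | zero => simp
    | add a b ha hb => rw [map_add, map_add, ha, hb, map_add, map_add]
    | tmul a b =>
      show TensorProduct.lift (β m) (TensorProduct.map _ _ (_ ⊗ₜ _)) = _
      rw [TensorProduct.map_tmul, TensorProduct.lift.tmul, TensorProduct.lift.tmul]
      exact hβ θ a b⟩

@[simp] theorem tensLift_tmul {P Q W : SV}
    (β : ∀ n, P.V n →ₗ[ZMod 2] Q.V n →ₗ[ZMod 2] W.V n)
    (hβ : ∀ {m n : ℕ} (θ : Mo m n) (x : P.V n) (y : Q.V n),
      β m (P.act θ x) (Q.act θ y) = W.act θ (β n x y)) (n : ℕ) (x : P.V n) (y : Q.V n) :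
    (tensLift β hβ).app n (x ⊗ₜ[ZMod 2] y) = β n x y := rfl

/-- the product `TT ⊗ TT → TT` -/
noncomputable def mulTT : SVHom (TT.tens TT) TT := tensLift tmulL fun θ f g => tmul_act θ f g

@[simp] theorem mulTT_tmul (m : ℕ) (f g : TT.V m) :
    mulTT.app m (f ⊗ₜ[ZMod 2] g) = tmul f g := rfl

/-- pointwise product of maps into `TT` -/
def homMul {Z : SS} (a b : Hom Z TT.ss) : Hom Z TT.ss :=
  ⟨fun n x => tmul (a.app n x) (b.app n x), fun {m n} f x => by
    show tmul (a.app m _) (b.app m _) = TT.act f (tmul (a.app n x) (b.app n x))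
    rw [a.nat, b.nat]; exact tmul_act f _ _⟩

end MM
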