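import Pool.Agent.Lib_MP_33f7bb_d.A3KL
import Pool.Agent.Lib_MP_33f7bb_d.A4R2

/-!
# A4-B1: definitions for the bar filtration (complete, no sorry)

`quoOf A : P → lin P / lin A`, universal property `quoLift`, extensionality `quo_ext` (so for `R`, `KK`, `RS`).
`VP V k` = `k`-tuples in `V`, `RS V k` = chains modulo tuples with a zero entry (smash power).
`phi V k : Δ^k × V^k → barV V`, `(α, x) ↦ ((a, b) ↦ P (α a) + P (α b))`, `P t = ∑_(i < t) x_i`.
`Fj V k` = image of `phi V k` (at most `k` jumps).
-/

open scoped TensorProduct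

namespace MM

section quo

variable {P : SS} (A : Sub P)

/-- `x ↦ [x]` in the quotient of the chains by the chains of a subcomplex -/
noncomputable def quoOf : Hom P (linSub A).quo.ss :=
  ⟨fun n x => (linSub A).proj.app n (Finsupp.single x 1), fun {m n} f x => by
    show _ = (linSub A).quo.act f _
    rw [← (linSub A).proj.nat]
    congr 1
    show _ = Finsupp.mapDomain (P.act f) _
    rw [Finsupp.mapDomain_single]⟩

theorem quoOf_mem {n : ℕ} {x : P.S n} (hx : x ∈ A.car n) : (quoOf A).app n x = (0 : (linSub A).quo.V n) := by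
  show Submodule.Quotient.mk _ = 0
  rw [Submodule.Quotient.mk_eq_zero]
  exact SuppIn.single (A := A) hx 1

theorem quo_span (n : ℕ) : Submodule.span (ZMod 2) (Set.range ((quoOf A).app n)) =
    (⊤ : Submodule (ZMod 2) ((linSub A).quo.V n)) := by
  rw [eq_top_iff]
  rintro x -
  obtain ⟨c, rfl⟩ := Submodule.Quotient.mk_surjective _ x
  induction c using Finsupp.induction_linear with
  | zero => exact Submodule.zero_mem _
  | add a b ha hb => exact Submodule.add_mem _ ha hb
  | single u r =>
    have : (Submodule.Quotient.mk (Finsupp.single u r) : (linSub A).quo.V n) =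
        r • (quoOf A).app n u := by
      show _ = r • (Submodule.Quotient.mk (Finsupp.single u 1) : (linSub A).quo.V n)
      rw [← Submodule.Quotient.mk_smul, Finsupp.smul_single, smul_eq_mul, mul_one]
    rw [this]
    exact Submodule.smul_mem _ _ (Submodule.subset_span ⟨u, rfl⟩)

theorem quo_ext {n : ℕ} {M : Type} [AddCommGroup M] [Module (ZMod 2) M]
    {f g : (linSub A).quo.V n →ₗ[ZMod 2] M}
    (h : ∀ x, f ((quoOf A).app n x) = g ((quoOf A).app n x)) : f = g := by
  apply LinearMap.ext
  intro x
  have hx : x ∈ Submodule.span (ZMod 2) (Set.range ((quoOf A).app n)) := by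
    rw [quo_span]; trivial
  induction hx using Submodule.span_induction with
  | mem x hx => obtain ⟨y, rfl⟩ := hx; exact h y
  | zero => simp
  | add a b _ _ ha hb => rw [map_add, map_add, ha, hb]
  | smul r a _ ha => rw [map_smul, map_smul, ha]

theorem quo_ext' {W : SV} {f g : SVHom (linSub A).quo W}
    (h : ∀ n x, f.app n ((quoOf A).app n x) = g.app n ((quoOf A).app n x)) : f = g :=
  SVHom.ext (funext fun n => quo_ext A (h n))

/-- universal property -/
noncomputable def quoLift {W : SV} (f : Hom P W.ss)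
    (hf : ∀ n, ∀ x ∈ A.car n, f.app n x = (0 : W.V n)) : SVHom (linSub A).quo W :=
  ⟨fun n => Submodule.liftQ _ (linExt f.app n) (by
      intro c hc
      rw [LinearMap.mem_ker, linExt_apply]
      refine Finset.sum_eq_zero fun x hx => ?_
      show c x • (f.app n x : W.V n) = 0
      rw [hf n x (hc hx), smul_zero]), fun {m n} g x => by
    obtain ⟨c, rfl⟩ := Submodule.Quotient.mk_surjective _ x
    exact (linHom f).nat g c⟩

@[simp] theorem quoLift_of {W : SV} (f : Hom P W.ss)
    (hf : ∀ n, ∀ x ∈ A.car n, f.app n x = (0 : W.V n)) (n : ℕ) (x : P.S n) :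
    (quoLift A f hf).app n ((quoOf A).app n x) = f.app n x := by
  show linExt f.app n (Finsupp.single x 1) = f.app n x
  rw [linExt_single, one_smul]

end quo

/-- `k`-tuples in `V` -/
abbrev VP (V : SV) (k : ℕ) : SS where
  S m := Fin k → V.V m
  act f x := fun i => V.act f (x i)
  act_id x := funext fun i => V.act_id (x i)
  act_comp f g x := funext fun i => V.act_comp f g (x i)

/-- tuples with a zero entry -/
def VP0 (V : SV) (k : ℕ) : Sub (VP V k) :=
  ⟨fun _ => {x | ∃ i, x i = 0}, by
    rintro m n f x ⟨i, hi⟩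
    exact ⟨i, by show V.act f (x i) = 0; rw [hi, map_zero]⟩⟩

/-- the smash power -/
noncomputable abbrev RS (V : SV) (k : ℕ) : SV := (linSub (VP0 V k)).quo

/-- `x ↦ [x]` -/
noncomputable abbrev RS.of (V : SV) (k : ℕ) : Hom (VP V k) (RS V k).ss := quoOf (VP0 V k)

/-- partial sums -/
def psum {V : SV} {k m : ℕ} (x : Fin k → V.V m) (t : Fin (k + 1)) : V.V m :=
  ∑ i : Fin k, if i.castSucc < t then x i else 0

theorem psum_act {V : SV} {k m n : ℕ} (f : Mo m n) (x : Fin k → V.V n) (t : Fin (k + 1)) :
    psum (fun i => V.act f (x i)) t = V.act f (psum x t) := by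
  unfold psum
  rw [map_sum]
  refine Finset.sum_congr rfl fun i _ => ?_
  split_ifs
  · rfl
  · rw [map_zero]

/-- the maps `Δ^k × V^k → barV V` -/
def phi (V : SV) (k : ℕ) : Hom ((Del k).prod (VP V k)) (barV V).ss :=
  ⟨fun m y => ⟨fun ab => psum y.2 (y.1 ab.1) + psum y.2 (y.1 ab.2), by
      intro a b c
      show psum y.2 (y.1 a) + psum y.2 (y.1 c) =
        psum y.2 (y.1 a) + psum y.2 (y.1 b) + (psum y.2 (y.1 b) + psum y.2 (y.1 c))
      have h : psum y.2 (y.1 a) + psum y.2 (y.1 b) + (psum y.2 (y.1 b) + psum y.2 (y.1 c)) =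
          psum y.2 (y.1 a) + psum y.2 (y.1 c) + (psum y.2 (y.1 b) + psum y.2 (y.1 b)) := by abel
      rw [h, two_eq_zero', add_zero]⟩, fun {m n} f y => by
    apply Subtype.ext
    funext ab
    show psum (fun i => V.act f (y.2 i)) (y.1 (f ab.1)) +
      psum (fun i => V.act f (y.2 i)) (y.1 (f ab.2)) =
      V.act f (psum y.2 (y.1 (f ab.1)) + psum y.2 (y.1 (f ab.2)))
    rw [psum_act, psum_act, map_add]⟩

theorem phi_apply {V : SV} {k m : ℕ} (α : Mo m k) (x : Fin k → V.V m) (a b : Fin (m + 1)) :
    ((phi V k).app m (α, x)).1 (a, b) = psum x (α a) + psum x (α b) := rfl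

/-- the filtration of the bar construction: at most `k` jumps -/
def Fj (V : SV) (k : ℕ) : Sub (barV V).ss := Sub.map (phi V k) ⊤

/-- restriction of a tuple to a subset of the indices -/
def rst {V : SV} {k m : ℕ} (S : Finset (Fin k)) (x : Fin k → V.V m) : Fin k → V.V m :=
  fun i => if i ∈ S then x i else 0

/-- add two neighbouring entries -/
def mrg {V : SV} {k m : ℕ} (i : Fin k) (x : Fin (k + 1) → V.V m) : Fin k → V.V m :=
  fun j => if j < i then x j.castSucc else if j = i then x i.castSucc + x i.succ else x j.succ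

/-- the `i`-th term of the bar differential on generators -/
noncomputable def pmG {V : SV} {k m : ℕ} (i : Fin k) (x : Fin (k + 1) → V.V m) : (RS V k).V m :=
  (RS.of V k).app m (mrg i x) + (RS.of V k).app m (x ∘ i.succ.succAbove) +
    (RS.of V k).app m (x ∘ i.castSucc.succAbove)

/-- the base vertex of the bar construction and its reduced chains -/
noncomputable abbrev RB (V : SV) : SV := RV (barV V)

/-- the filtration of the reduced chains of the bar construction: images of the chains supported in
`Fj V k` -/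
noncomputable def FB (V : SV) (k : ℕ) (m : ℕ) : Submodule (ZMod 2) ((RB V).V m) :=
  ((linSub (Fj V k)).car m).map ((R.pr (barV V).zv).app m)

/-- the simplicial addition map -/
def addHom (V : SV) : Hom (V.ss.prod V.ss) V.ss :=
  ⟨fun _ x => x.1 + x.2, fun f x => (map_add (V.act f) x.1 x.2).symm⟩

end MM
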