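import Pool.Agent.Lib_MP_33f7bb_d.A4B1

/-!
# A4-B2: combinatorics of the maps `phi`

`jn v` = number of `i < m` with `v (i, i+1) ≠ 0`.  For `v = phi (α, x)` the value `v (i, i+1)` is the sum of the `x_l`,
`α i ≤ l < α (i+1)`.
* `mem_Fj_iff`: `→`: every jump `i` has `α i < α (i+1)`, and these are at most `k` many.  `←`: let `i_1 < … < i_r` be the jumps,
  `r ≤ k`; `α j` = number of jumps `< j` (monotone, `≤ r ≤ k`), `x_l = v (i_(l+1), i_(l+1) + 1)` for `l < r`, `0` for `l ≥ r`.
  Then `v (a, b) = psum x (α a) + psum x (α b)` by additivity (`v (0, b) = psum x (α b)` by induction on `b`).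
* `phi_degenerate`: if `α` is not surjective or some `x_l = 0`: the number of jumps of `phi (α, x)` is at most `k` (for a `k+1`-tuple):
  a jump `i` needs an `l`, `α i ≤ l < α (i+1)`, with `x_l ≠ 0`; if `α` misses the value `t`: either `t = 0`, then `l = 0` is not used,
  or `t = k+1`, then `l = k` is not used, or `l = t-1, t` are in the same interval or unused.
* `phi_jn`: `α` surjective: the steps `α i → α (i+1)` are `0` or `1`, every `l` occurs exactly once.
* `phi_inj`: `α j` = number of jumps before `j`, `x_l` = value at the `l`-th jump.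
-/

namespace MM

variable {V : SV}

/-- number of jumps -/
noncomputable def jn {m : ℕ} (v : (barV V).V m) : ℕ := by
  classical
  exact (Finset.univ.filter fun i : Fin m => v.1 (i.castSucc, i.succ) ≠ 0).card

/-! ### Auxiliary facts -/

private theorem A4B2_v00 {m : ℕ} (v : (barV V).V m) (a : Fin (m + 1)) :
    v.1 (a, a) = 0 := left_eq_add.1 (v.2 a a a)

private theorem A4B2_zero_of_steps {m : ℕ} (v : (barV V).V m)
    (h : ∀ j : Fin m, v.1 (j.castSucc, j.succ) = 0) : v = 0 := by
  have h0 : ∀ b : Fin (m + 1), v.1 (0, b) = 0 := by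
    intro b
    induction b using Fin.induction with
    | zero => exact A4B2_v00 v 0
    | succ j ih => rw [v.2 0 j.castSucc j.succ, ih, h j, add_zero]
  apply Subtype.ext
  funext x
  have h1 := v.2 0 x.1 x.2
  rw [h0, h0, zero_add] at h1
  exact h1.symm

private theorem A4B2_ext {m : ℕ} (v w : (barV V).V m)
    (h : ∀ j : Fin m, v.1 (j.castSucc, j.succ) = w.1 (j.castSucc, j.succ)) : v = w := by
  have h1 : v - w = 0 := by
    apply A4B2_zero_of_steps
    intro j
    show v.1 (j.castSucc, j.succ) - w.1 (j.castSucc, j.succ) = 0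
    rw [h j, sub_self]
  exact sub_eq_zero.1 h1

private theorem A4B2_psum_succ {k m : ℕ} (x : Fin k → V.V m) (l : Fin k) :
    psum x l.succ = psum x l.castSucc + x l := by
  classical
  unfold psum
  have h1 : x l = ∑ i : Fin k, if i = l then x i else 0 := by
    rw [Finset.sum_ite_eq' Finset.univ l x, if_pos (Finset.mem_univ l)]
  conv_rhs => rw [h1]
  rw [← Finset.sum_add_distrib]
  refine Finset.sum_congr rfl fun i _ => ?_
  by_cases h2 : i = l
  · subst h2
    rw [if_pos (Fin.castSucc_lt_succ), if_neg (lt_irrefl _), if_pos rfl, zero_add]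
  · rw [if_neg h2, add_zero]
    have h3 : i.castSucc < l.succ ↔ i.castSucc < l.castSucc := by
      rw [Fin.lt_def, Fin.lt_def, Fin.val_castSucc, Fin.val_succ, Fin.val_castSucc]
      have : (i : ℕ) ≠ l := fun h => h2 (Fin.ext h)
      omega
    by_cases h4 : i.castSucc < l.castSucc
    · rw [if_pos h4, if_pos (h3.2 h4)]
    · rw [if_neg h4, if_neg fun h => h4 (h3.1 h)]

private theorem A4B2_psum_congr {k m : ℕ} (x : Fin k → V.V m) (a b : Fin (k + 1)) (hab : a ≤ b)
    (h : ∀ l : Fin k, a ≤ l.castSucc → l.castSucc < b → x l = 0) : psum x a = psum x b := by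
  unfold psum
  refine Finset.sum_congr rfl fun i _ => ?_
  by_cases h1 : i.castSucc < a
  · rw [if_pos h1, if_pos (h1.trans_le hab)]
  · rw [if_neg h1]
    by_cases h2 : i.castSucc < b
    · rw [if_pos h2, h i (not_lt.1 h1) h2]
    · rw [if_neg h2]

/-- the value of `phi` on a step -/
private theorem A4B2_step {k m : ℕ} (α : Mo m k) (x : Fin k → V.V m) (j : Fin m) :
    ((phi V k).app m (α, x)).1 (j.castSucc, j.succ) =
      psum x (α j.castSucc) + psum x (α j.succ) := rfl

private theorem A4B2_step_eq {k m : ℕ} (α : Mo m k) (x : Fin k → V.V m) (j : Fin m)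
    (h : α j.castSucc = α j.succ) : ((phi V k).app m (α, x)).1 (j.castSucc, j.succ) = 0 := by
  rw [A4B2_step, h, two_eq_zero']

private theorem A4B2_step_succ {k m : ℕ} (α : Mo m k) (x : Fin k → V.V m) (j : Fin m) (l : Fin k)
    (h : α j.castSucc = l.castSucc) (h' : α j.succ = l.succ) :
    ((phi V k).app m (α, x)).1 (j.castSucc, j.succ) = x l := by
  rw [A4B2_step, h, h', A4B2_psum_succ, ← add_assoc, two_eq_zero', zero_add]

private theorem A4B2_step_lt {k m : ℕ} (α : Mo m k) (x : Fin k → V.V m) (j : Fin m)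
    (h : ((phi V k).app m (α, x)).1 (j.castSucc, j.succ) ≠ 0) :
    (α j.castSucc : ℕ) < α j.succ := by
  have h1 : α j.castSucc ≤ α j.succ := α.monotone (Fin.castSucc_lt_succ).le
  rcases h1.lt_or_eq with h2 | h2
  · exact h2
  · exact absurd (A4B2_step_eq α x j h2) h

/-- strictly increasing steps are counted by the values -/
private theorem A4B2_inj {m : ℕ} (f : Fin (m + 1) → ℕ) (hf : Monotone f) {j j' : Fin m}
    (h : f j.castSucc < f j.succ) (h' : f j'.castSucc < f j'.succ)
    (he : f j.castSucc = f j'.castSucc) : j = j' := by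
  by_contra hne
  rcases lt_or_gt_of_ne hne with hlt | hlt
  · have h1 : f j.succ ≤ f j'.castSucc := hf (by
      rw [Fin.le_def, Fin.val_succ, Fin.val_castSucc]
      have : (j : ℕ) < j' := hlt
      omega)
    omega
  · have h1 : f j'.succ ≤ f j.castSucc := hf (by
      rw [Fin.le_def, Fin.val_succ, Fin.val_castSucc]
      have : (j' : ℕ) < j := hlt
      omega)
    omega

private theorem A4B2_card {m : ℕ} (f : Fin (m + 1) → ℕ) (hf : Monotone f) (J : Finset (Fin m))
    (hJ : ∀ j ∈ J, f j.castSucc < f j.succ) (T : Finset ℕ) (hT : ∀ j ∈ J, f j.castSucc ∈ T) :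
    J.card ≤ T.card :=
  Finset.card_le_card_of_injOn (fun j => f j.castSucc) hT
    (fun _ hj _ hj' he => A4B2_inj f hf (hJ _ hj) (hJ _ hj') he)

/-- unit steps attain every value -/
private theorem A4B2_unit {m : ℕ} (f : Fin (m + 1) → ℕ) (h0 : f 0 = 0)
    (h1 : ∀ j : Fin m, f j.succ ≤ f j.castSucc + 1) (b : Fin (m + 1)) (l : ℕ) (hl : l < f b) :
    ∃ j : Fin m, f j.castSucc = l ∧ f j.succ = l + 1 := by
  induction b using Fin.induction with
  | zero => omega
  | succ j ih =>
    by_cases h2 : l < f j.castSucc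
    · exact ih h2
    · refine ⟨j, ?_, ?_⟩
      · have := h1 j
        omega
      · have := h1 j
        omega

private theorem A4B2_surj_zero {k m : ℕ} (α : Mo m k) (h : Function.Surjective α) :
    (α 0 : ℕ) = 0 := by
  obtain ⟨y, hy⟩ := h 0
  have h1 : α 0 ≤ α y := α.monotone (Fin.zero_le y)
  rw [hy] at h1
  have h2 : α 0 = 0 := le_antisymm h1 (Fin.zero_le _)
  rw [h2]
  rfl

private theorem A4B2_surj_step {k m : ℕ} (α : Mo m k) (h : Function.Surjective α) (j : Fin m) :
    (α j.succ : ℕ) ≤ α j.castSucc + 1 := by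
  by_contra hc
  push Not at hc
  have hk : (α j.succ : ℕ) < k + 1 := (α j.succ).2
  obtain ⟨y, hy⟩ := h ⟨(α j.castSucc : ℕ) + 1, by omega⟩
  have hy' : (α y : ℕ) = α j.castSucc + 1 := by rw [hy]
  rcases le_or_gt y j.castSucc with h1 | h1
  · have h2 : (α y : ℕ) ≤ α j.castSucc := α.monotone h1
    omega
  · have h3 : j.succ ≤ y := by
      rw [Fin.le_def, Fin.val_succ]
      have : (j.castSucc : ℕ) < y := h1
      rw [Fin.val_castSucc] at this
      omega
    have h2 : (α j.succ : ℕ) ≤ α y := α.monotone h3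
    omega

private theorem A4B2_surj_ex {k m : ℕ} (α : Mo m k) (h : Function.Surjective α) (l : Fin k) :
    ∃ j : Fin m, α j.castSucc = l.castSucc ∧ α j.succ = l.succ := by
  obtain ⟨y, hy⟩ := h l.succ
  obtain ⟨j, h1, h2⟩ := A4B2_unit (fun b => (α b : ℕ)) (A4B2_surj_zero α h)
    (A4B2_surj_step α h) y l (by
      show (l : ℕ) < α y
      rw [hy, Fin.val_succ]
      omega)
  exact ⟨j, Fin.ext h1, Fin.ext h2⟩

/-- at a strict step of a surjective map -/
private theorem A4B2_surj_lt {k m : ℕ} (α : Mo m k) (h : Function.Surjective α) (j : Fin m)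
    (hj : (α j.castSucc : ℕ) < α j.succ) :
    ∃ l : Fin k, α j.castSucc = l.castSucc ∧ α j.succ = l.succ := by
  have h1 := A4B2_surj_step α h j
  have h2 : (α j.succ : ℕ) < k + 1 := (α j.succ).2
  refine ⟨⟨α j.castSucc, by omega⟩, Fin.ext rfl, Fin.ext ?_⟩
  rw [Fin.val_succ]
  show (α j.succ : ℕ) = α j.castSucc + 1
  omega

/-- number of jumps before `b` -/
private noncomputable def A4B2_c {m : ℕ} (v : (barV V).V m) (b : Fin (m + 1)) : ℕ := by
  classical
  exact (Finset.univ.filter fun i : Fin m => i.castSucc < b ∧ v.1 (i.castSucc, i.succ) ≠ 0).card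

private theorem A4B2_c_zero {m : ℕ} (v : (barV V).V m) : A4B2_c v 0 = 0 := by
  classical
  unfold A4B2_c
  rw [Finset.card_eq_zero, Finset.filter_eq_empty_iff]
  intro i _ hi
  exact absurd hi.1 (Fin.not_lt_zero _)

private theorem A4B2_c_succ0 {m : ℕ} (v : (barV V).V m) (j : Fin m)
    (h : v.1 (j.castSucc, j.succ) = 0) : A4B2_c v j.succ = A4B2_c v j.castSucc := by
  classical
  unfold A4B2_c
  congr 1
  refine Finset.filter_congr fun i _ => ?_
  constructor
  · rintro ⟨h1, h2⟩
    refine ⟨?_, h2⟩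
    have hne : (i : ℕ) ≠ j := fun h3 => h2 (by rw [Fin.ext h3]; exact h)
    rw [Fin.lt_def, Fin.val_castSucc, Fin.val_succ] at h1
    rw [Fin.lt_def, Fin.val_castSucc, Fin.val_castSucc]
    omega
  · rintro ⟨h1, h2⟩
    exact ⟨h1.trans (Fin.castSucc_lt_succ), h2⟩

private theorem A4B2_c_succ1 {m : ℕ} (v : (barV V).V m) (j : Fin m)
    (h : v.1 (j.castSucc, j.succ) ≠ 0) : A4B2_c v j.succ = A4B2_c v j.castSucc + 1 := by
  classical
  unfold A4B2_c
  have h1 : (Finset.univ.filter fun i : Fin m => i.castSucc < j.succ ∧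
      v.1 (i.castSucc, i.succ) ≠ 0) = insert j (Finset.univ.filter fun i : Fin m =>
        i.castSucc < j.castSucc ∧ v.1 (i.castSucc, i.succ) ≠ 0) := by
    ext i
    rw [Finset.mem_insert, Finset.mem_filter, Finset.mem_filter]
    constructor
    · rintro ⟨-, h1, h2⟩
      by_cases h3 : i = j
      · exact Or.inl h3
      · refine Or.inr ⟨Finset.mem_univ _, ?_, h2⟩
        have hne : (i : ℕ) ≠ j := fun h4 => h3 (Fin.ext h4)
        rw [Fin.lt_def, Fin.val_castSucc, Fin.val_succ] at h1
        rw [Fin.lt_def, Fin.val_castSucc, Fin.val_castSucc]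
        omega
    · rintro (h1 | ⟨-, h1, h2⟩)
      · rw [h1]
        exact ⟨Finset.mem_univ _, Fin.castSucc_lt_succ, h⟩
      · exact ⟨Finset.mem_univ _, h1.trans (Fin.castSucc_lt_succ), h2⟩
  rw [h1, Finset.card_insert_of_notMem]
  rw [Finset.mem_filter]
  rintro ⟨-, h2, -⟩
  exact lt_irrefl _ h2

private theorem A4B2_c_mono {m : ℕ} (v : (barV V).V m) : Monotone (A4B2_c v) := by
  classical
  intro a b hab
  unfold A4B2_c
  refine Finset.card_le_card fun i hi => ?_
  rw [Finset.mem_filter] at hi ⊢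
  exact ⟨hi.1, hi.2.1.trans_le hab, hi.2.2⟩

private theorem A4B2_c_last {m : ℕ} (v : (barV V).V m) : A4B2_c v (Fin.last m) = jn v := by
  classical
  unfold A4B2_c jn
  congr 1
  refine Finset.filter_congr fun i _ => ?_
  constructor
  · rintro ⟨-, h⟩
    exact h
  · intro h
    exact ⟨Fin.castSucc_lt_last i, h⟩

private theorem A4B2_c_le {m : ℕ} (v : (barV V).V m) (b : Fin (m + 1)) : A4B2_c v b ≤ jn v := by
  rw [← A4B2_c_last]
  exact A4B2_c_mono v (Fin.le_last b)

/-- the canonical monotone map -/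
private noncomputable def A4B2_al {m k : ℕ} (v : (barV V).V m) (hk : jn v ≤ k) : Mo m k :=
  ⟨fun b => ⟨A4B2_c v b, Nat.lt_succ_of_le ((A4B2_c_le v b).trans hk)⟩,
    fun _ _ hab => A4B2_c_mono v hab⟩

/-- the canonical tuple -/
private noncomputable def A4B2_x {m : ℕ} (k : ℕ) (v : (barV V).V m) (l : Fin k) : V.V m := by
  classical
  exact if h : ∃ j : Fin m, v.1 (j.castSucc, j.succ) ≠ 0 ∧ A4B2_c v j.castSucc = l then
    v.1 ((Classical.choose h).castSucc, (Classical.choose h).succ) else 0

private theorem A4B2_x_eq {m k : ℕ} (v : (barV V).V m) (l : Fin k) (j : Fin m)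
    (h : v.1 (j.castSucc, j.succ) ≠ 0) (hl : A4B2_c v j.castSucc = l) :
    A4B2_x k v l = v.1 (j.castSucc, j.succ) := by
  have hex : ∃ j : Fin m, v.1 (j.castSucc, j.succ) ≠ 0 ∧ A4B2_c v j.castSucc = l := ⟨j, h, hl⟩
  unfold A4B2_x
  rw [dif_pos hex]
  have hs := Classical.choose_spec hex
  have h1 : Classical.choose hex = j := by
    apply A4B2_inj (A4B2_c v) (A4B2_c_mono v)
    · rw [A4B2_c_succ1 v _ hs.1]
      omega
    · rw [A4B2_c_succ1 v _ h]
      omega
    · rw [hs.2, hl]
  rw [h1]

private theorem A4B2_phi {m k : ℕ} (v : (barV V).V m) (hk : jn v ≤ k) :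
    (phi V k).app m (A4B2_al v hk, A4B2_x k v) = v := by
  apply A4B2_ext
  intro j
  by_cases h : v.1 (j.castSucc, j.succ) = 0
  · rw [h]
    apply A4B2_step_eq
    exact Fin.ext (A4B2_c_succ0 v j h).symm
  · have h1 := A4B2_c_succ1 v j h
    have h2 := (A4B2_c_le v j.succ).trans hk
    have h3 : A4B2_c v j.castSucc < k := by omega
    rw [A4B2_step_succ (A4B2_al v hk) (A4B2_x k v) j ⟨A4B2_c v j.castSucc, h3⟩ (Fin.ext rfl)
      (Fin.ext (by
        rw [Fin.val_succ]
        exact h1))]
    exact A4B2_x_eq v _ j h rfl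

theorem mem_Fj_iff (k m : ℕ) (v : (barV V).V m) : v ∈ (Fj V k).car m ↔ jn v ≤ k := by
  classical
  constructor
  · rintro ⟨⟨α, x⟩, -, rfl⟩
    unfold jn
    have h1 := A4B2_card (fun b => (α b : ℕ)) (fun _ _ h => α.monotone h)
      (Finset.univ.filter fun i : Fin m =>
        ((phi V k).app m (α, x)).1 (i.castSucc, i.succ) ≠ 0)
      (fun j hj => A4B2_step_lt α x j (Finset.mem_filter.1 hj).2) (Finset.range k)
      (fun j hj => by
        have h2 := A4B2_step_lt α x j (Finset.mem_filter.1 hj).2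
        have h3 : (α j.succ : ℕ) < k + 1 := (α j.succ).2
        rw [Finset.mem_range]
        show (α j.castSucc : ℕ) < k
        omega)
    rw [Finset.card_range] at h1
    exact h1
  · intro hk
    exact ⟨(A4B2_al v hk, A4B2_x k v), trivial, A4B2_phi v hk⟩

theorem jn_le (m : ℕ) (v : (barV V).V m) : jn v ≤ m := by
  classical
  unfold jn
  refine (Finset.card_filter_le _ _).trans ?_
  rw [Finset.card_univ, Fintype.card_fin]

theorem jn_eq_zero (m : ℕ) (v : (barV V).V m) : jn v = 0 ↔ v = 0 := by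
  classical
  constructor
  · intro h
    apply A4B2_zero_of_steps
    intro j
    by_contra hj
    unfold jn at h
    rw [Finset.card_eq_zero, Finset.filter_eq_empty_iff] at h
    exact h (Finset.mem_univ j) hj
  · rintro rfl
    unfold jn
    rw [Finset.card_eq_zero, Finset.filter_eq_empty_iff]
    intro j _ hj
    exact hj rfl

theorem phi_degenerate (k m : ℕ) (α : Mo m (k + 1)) (x : Fin (k + 1) → V.V m)
    (h : ¬ Function.Surjective α ∨ ∃ i, x i = 0) :
    jn ((phi V (k + 1)).app m (α, x) : (barV V).V m) ≤ k := by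
  classical
  unfold jn
  set J : Finset (Fin m) := Finset.univ.filter fun i : Fin m =>
    ((phi V (k + 1)).app m (α, x)).1 (i.castSucc, i.succ) ≠ 0 with hJ
  have hJlt : ∀ j ∈ J, (α j.castSucc : ℕ) < α j.succ := fun j hj =>
    A4B2_step_lt α x j (Finset.mem_filter.1 hj).2
  have hlt : ∀ b : Fin (m + 1), (α b : ℕ) < k + 2 := fun b => (α b).2
  rcases h with h | ⟨i, hi⟩
  · have h' : ∃ t : Fin (k + 2), ∀ y, α y ≠ t := by
      by_contra hc
      push Not at hc
      exact h hc
    obtain ⟨t, ht⟩ := h'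
    have ht' : ∀ y, (α y : ℕ) ≠ t := fun y hy => ht y (Fin.ext hy)
    have htk : (t : ℕ) < k + 2 := t.2
    by_cases htl : (t : ℕ) = k + 1
    · have h1 := A4B2_card (fun b => (α b : ℕ)) (fun _ _ h => α.monotone h) J hJlt
        (Finset.range k) (fun j hj => by
          have h2 := hJlt j hj
          have h3 := hlt j.succ
          have h4 := ht' j.succ
          rw [Finset.mem_range]
          show (α j.castSucc : ℕ) < k
          omega)
      rw [Finset.card_range] at h1
      exact h1
    · have h1 := A4B2_card (fun b => (α b : ℕ)) (fun _ _ h => α.monotone h) J hJlt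
        ((Finset.range (k + 1)).erase t) (fun j hj => by
          have h2 := hJlt j hj
          have h3 := hlt j.succ
          rw [Finset.mem_erase, Finset.mem_range]
          exact ⟨ht' _, by
            show (α j.castSucc : ℕ) < k + 1
            omega⟩)
      rw [Finset.card_erase_of_mem (Finset.mem_range.2 (by omega)), Finset.card_range] at h1
      exact h1
  · have hex : ∀ j ∈ J, ∃ l : Fin (k + 1), α j.castSucc ≤ l.castSucc ∧
        l.castSucc < α j.succ ∧ x l ≠ 0 := by
      intro j hj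
      by_contra hc
      push Not at hc
      apply (Finset.mem_filter.1 hj).2
      rw [A4B2_step, A4B2_psum_congr x (α j.castSucc) (α j.succ)
        (α.monotone (Fin.castSucc_lt_succ).le) hc, two_eq_zero']
    choose! g hg1 hg2 hg3 using hex
    have h1 : J.card ≤ (Finset.univ.erase i : Finset (Fin (k + 1))).card := by
      refine Finset.card_le_card_of_injOn g ?_ ?_
      · intro j hj
        refine Finset.mem_erase.2 ⟨?_, Finset.mem_univ _⟩
        intro he
        exact hg3 j hj (by rw [he]; exact hi)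
      · intro j hj j' hj' he
        by_contra hne
        rcases lt_or_gt_of_ne hne with hlt' | hlt'
        · have h2 : α j.succ ≤ α j'.castSucc := α.monotone (by
            rw [Fin.le_def, Fin.val_succ, Fin.val_castSucc]
            have : (j : ℕ) < j' := hlt'
            omega)
          have h3 := (hg2 j hj).trans_le (h2.trans (hg1 j' hj'))
          rw [he] at h3
          exact lt_irrefl _ h3
        · have h2 : α j'.succ ≤ α j.castSucc := α.monotone (by
            rw [Fin.le_def, Fin.val_succ, Fin.val_castSucc]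
            have : (j' : ℕ) < j := hlt'
            omega)
          have h3 := (hg2 j' hj').trans_le (h2.trans (hg1 j hj))
          rw [he] at h3
          exact lt_irrefl _ h3
    rw [Finset.card_erase_of_mem (Finset.mem_univ i), Finset.card_univ, Fintype.card_fin] at h1
    exact h1

theorem phi_jn (k m : ℕ) (α : Mo m k) (x : Fin k → V.V m) (h : Function.Surjective α)
    (hx : ∀ i, x i ≠ 0) : jn ((phi V k).app m (α, x) : (barV V).V m) = k := by
  classical
  apply le_antisymm
  · exact (mem_Fj_iff k m _).1 ⟨(α, x), trivial, rfl⟩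
  · unfold jn
    choose g hg1 hg2 using A4B2_surj_ex α h
    have h1 : (Finset.univ : Finset (Fin k)).card ≤ (Finset.univ.filter fun i : Fin m =>
        ((phi V k).app m (α, x)).1 (i.castSucc, i.succ) ≠ 0).card := by
      refine Finset.card_le_card_of_injOn g ?_ ?_
      · intro l _
        refine Finset.mem_filter.2 ⟨Finset.mem_univ _, ?_⟩
        rw [A4B2_step_succ α x (g l) l (hg1 l) (hg2 l)]
        exact hx l
      · intro l _ l' _ he
        have h2 := hg1 l
        rw [he, hg1 l'] at h2
        exact (Fin.castSucc_injective k h2).symm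
    rw [Finset.card_univ, Fintype.card_fin] at h1
    exact h1

theorem phi_inj (k m : ℕ) (α α' : Mo m k) (x x' : Fin k → V.V m) (h : Function.Surjective α)
    (h' : Function.Surjective α') (hx : ∀ i, x i ≠ 0) (hx' : ∀ i, x' i ≠ 0)
    (he : (phi V k).app m (α, x) = (phi V k).app m (α', x')) : α = α' ∧ x = x' := by
  have key : ∀ (α : Mo m k) (x : Fin k → V.V m), Function.Surjective α → (∀ i, x i ≠ 0) →
      ∀ j : Fin m, (α j.succ : ℕ) = α j.castSucc +
        (open Classical in if ((phi V k).app m (α, x)).1 (j.castSucc, j.succ) = 0 then 0 else 1) := by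
    intro α x h hx j
    have h1 : (α j.castSucc : ℕ) ≤ α j.succ := α.monotone (Fin.castSucc_lt_succ).le
    rcases h1.lt_or_eq with h2 | h2
    · obtain ⟨l, hl1, hl2⟩ := A4B2_surj_lt α h j h2
      rw [if_neg (by
        rw [A4B2_step_succ α x j l hl1 hl2]
        exact hx l), hl1, hl2, Fin.val_succ, Fin.val_castSucc]
    · rw [if_pos (A4B2_step_eq α x j (Fin.ext h2)), add_zero, h2]
  have hα : ∀ b : Fin (m + 1), (α b : ℕ) = α' b := by
    intro b
    induction b using Fin.induction with
    | zero => rw [A4B2_surj_zero α h, A4B2_surj_zero α' h']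
    | succ j ih => rw [key α x h hx j, key α' x' h' hx' j, ih, he]
  have hαe : α = α' := OrderHom.ext _ _ (funext fun b => Fin.ext (hα b))
  refine ⟨hαe, ?_⟩
  subst hαe
  funext l
  obtain ⟨j, hj1, hj2⟩ := A4B2_surj_ex α h l
  rw [← A4B2_step_succ α x j l hj1 hj2, ← A4B2_step_succ α x' j l hj1 hj2, he]

theorem exists_phi (k m : ℕ) (v : (barV V).V m) (hv : jn v = k) :
    ∃ (α : Mo m k) (x : Fin k → V.V m), Function.Surjective α ∧ (∀ i, x i ≠ 0) ∧
      (phi V k).app m (α, x) = v := by
  have hunit : ∀ j : Fin m, A4B2_c v j.succ ≤ A4B2_c v j.castSucc + 1 := by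
    intro j
    by_cases h : v.1 (j.castSucc, j.succ) = 0
    · rw [A4B2_c_succ0 v j h]
      omega
    · rw [A4B2_c_succ1 v j h]
  have hlast : A4B2_c v (Fin.last m) = k := (A4B2_c_last v).trans hv
  refine ⟨A4B2_al v hv.le, A4B2_x k v, ?_, ?_, A4B2_phi v hv.le⟩
  · intro t
    rcases Nat.lt_or_ge t k with ht | ht
    · obtain ⟨j, hj1, -⟩ := A4B2_unit (A4B2_c v) (A4B2_c_zero v) hunit (Fin.last m) t
        (by rw [hlast]; exact ht)
      exact ⟨j.castSucc, Fin.ext hj1⟩
    · have h1 : (t : ℕ) < k + 1 := t.2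
      refine ⟨Fin.last m, Fin.ext ?_⟩
      show A4B2_c v (Fin.last m) = t
      omega
  · intro l
    obtain ⟨j, hj1, hj2⟩ := A4B2_unit (A4B2_c v) (A4B2_c_zero v) hunit (Fin.last m) l
      (by rw [hlast]; exact l.2)
    have h1 : v.1 (j.castSucc, j.succ) ≠ 0 := by
      intro h
      have := A4B2_c_succ0 v j h
      omega
    rw [A4B2_x_eq v l j h1 hj1]
    exact h1

theorem Fj_zero (m : ℕ) (v : (barV V).V m) : v ∈ (Fj V 0).car m ↔ v = 0 := by
  rw [mem_Fj_iff, Nat.le_zero, jn_eq_zero]

theorem Fj_mono (k : ℕ) : Fj V k ≤ Fj V (k + 1) := by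
  intro m v hv
  rw [mem_Fj_iff] at hv ⊢
  omega

theorem Fj_top (k m : ℕ) (h : m ≤ k) (v : (barV V).V m) : v ∈ (Fj V k).car m := by
  rw [mem_Fj_iff]
  exact (jn_le m v).trans h

end MM
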