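import Pool.Agent.Lib_MP_33f7bb_d.A4B1

/-!
# A4-B3: the maps `psi` and the bar differential `pmD`

`exists_psi`: for fixed `α` the map `x ↦ ∑_S [phi (α, x_S)]` (sum over all subsets `S` of `Fin k`) vanishes if some `x_i = 0` (the terms
`S`, `S ∆ {i}` are equal), so it factors through `RS V k` (`Submodule.liftQ`); extend linearly in `α` (`Finsupp.linearCombination`)
and to the tensor product (`TensorProduct.lift`); naturality on generators (`quo_span`), as in `psiHom` (A7Def).
`exists_pmD`: `quoLift` of `x ↦ ∑_i pmG i x`: if `x_j = 0`, `j ≠ i, i+1`, all three terms of `pmG i x` have a zero entry; if `x_i = 0` then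
`mrg i x = x ∘ (castSucc i).succAbove` and `x ∘ (succ i).succAbove` has the zero entry `x_i`; same for `x_(i+1) = 0`.
`psi_faces`: enough for `y = [x]` (`quo_ext`), `x` a `(k+1)`-tuple.  Term `i = 0`: `dlt 0 ∘ α` has values `≥ 1`, so
`phi (dlt 0 ∘ α, x)` does not depend on `x_0` and the terms `S`, `S ∆ {0}` cancel.  Term `i = last`: does not depend on the last entry.
Term `i = j + 1`, `j : Fin k`: `psum x (dlt i t) = psum (mrg j x) t`, so `phi (dlt i ∘ α, x_S) = phi (α, mrg j (x_S))`.  The sum over
`S` splits according to `j ∈ S`, `j+1 ∈ S`: the right hand side `psi ([α] ⊗ pmG j x) = ∑_T [phi (α, (mrg j x)_T)] +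
[phi (α, (x without x_(j+1))_T)] + [phi (α, (x without x_j)_T)]`: for `j ∈ T` the three terms are the ones with both, only `x_j`, only
`x_(j+1)`; for `j ∉ T` all three terms are equal to the one with none of the two (and `1 + 1 + 1 = 1`).
-/

open scoped TensorProduct

namespace MM

private theorem A4B3_inv {M : Type*} [AddCommGroup M] [Module (ZMod 2) M] {n : ℕ} (j : Fin n)
    (h : Finset (Fin n) → M) (hh : ∀ T, j ∉ T → h (insert j T) = h T) : ∑ T, h T = 0 := by
  refine Finset.sum_involution (fun T _ => if j ∈ T then T.erase j else insert j T) ?_ ?_ ?_ ?_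
  · intro T _
    by_cases hj : j ∈ T
    · simp only [if_pos hj]
      have h1 := hh (T.erase j) (Finset.notMem_erase j T)
      rw [Finset.insert_erase hj] at h1
      rw [h1]
      exact two_eq_zero' _
    · simp only [if_neg hj]
      rw [hh T hj]
      exact two_eq_zero' _
  · intro T _ _
    by_cases hj : j ∈ T
    · simp only [if_pos hj]
      intro h1
      rw [← h1] at hj
      exact Finset.notMem_erase j T hj
    · simp only [if_neg hj]
      intro h1
      apply hj
      rw [← h1]
      exact Finset.mem_insert_self j T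
  · intro T _
    exact Finset.mem_univ _
  · intro T _
    by_cases hj : j ∈ T
    · simp only [if_pos hj, if_neg (Finset.notMem_erase j T)]
      exact Finset.insert_erase hj
    · simp only [if_neg hj, if_pos (Finset.mem_insert_self j T)]
      exact Finset.erase_insert hj

private theorem A4B3_text {V : SV} {k m : ℕ} {M : Type} [AddCommGroup M] [Module (ZMod 2) M]
    {F G : ((lin (Del k)).tens (RS V k)).V m →ₗ[ZMod 2] M}
    (h : ∀ (α : Mo m k) (x : Fin k → V.V m),
      F ((Finsupp.single α 1 : Ch (Del k) m) ⊗ₜ[ZMod 2] ((RS.of V k).app m x : (RS V k).V m)) =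
      G ((Finsupp.single α 1 : Ch (Del k) m) ⊗ₜ[ZMod 2] ((RS.of V k).app m x : (RS V k).V m))) :
    F = G := by
  refine TensorProduct.ext ?_
  refine Finsupp.lhom_ext fun α c => ?_
  have h1 : (Finsupp.single α c : Ch (Del k) m) = c • Finsupp.single α 1 := by
    rw [Finsupp.smul_single, smul_eq_mul, mul_one]
  rw [h1, map_smul, map_smul]
  congr 1
  exact quo_ext _ fun x => h α x

private theorem A4B3_rst_insert {V : SV} {k m : ℕ} (S : Finset (Fin k)) (x : Fin k → V.V m)
    (i : Fin k) (hi : x i = 0) : rst (insert i S) x = rst S x := by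
  funext l
  unfold rst
  by_cases h : l = i
  · subst h
    rw [hi]; simp
  · simp only [Finset.mem_insert, h, false_or]

private noncomputable def A4B3_fn (V : SV) (k m : ℕ) (α : Mo m k) (x : Fin k → V.V m) :
    (RB V).V m :=
  ∑ S : Finset (Fin k), ((R.of (barV V).zv).app m ((phi V k).app m (α, rst S x)) : (RB V).V m)

private noncomputable def A4B3_psi1 (V : SV) (k m : ℕ) (α : Mo m k) :
    (RS V k).V m →ₗ[ZMod 2] (RB V).V m :=
  Submodule.liftQ _ (Finsupp.linearCombination (ZMod 2) (A4B3_fn V k m α)) (by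
    intro c hc
    rw [LinearMap.mem_ker, Finsupp.linearCombination_apply]
    refine Finset.sum_eq_zero fun x hx => ?_
    obtain ⟨i, hi⟩ : ∃ i, x i = 0 := hc hx
    have h1 : A4B3_fn V k m α x = 0 := by
      refine A4B3_inv i _ fun T _ => ?_
      rw [A4B3_rst_insert T x i hi]
    show c x • A4B3_fn V k m α x = 0
    rw [h1, smul_zero])

private theorem A4B3_psi1_of (V : SV) (k m : ℕ) (α : Mo m k) (x : Fin k → V.V m) :
    A4B3_psi1 V k m α ((RS.of V k).app m x) = A4B3_fn V k m α x := by
  show Finsupp.linearCombination (ZMod 2) (A4B3_fn V k m α) (Finsupp.single x 1) = _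
  rw [Finsupp.linearCombination_single, one_smul]

private noncomputable def A4B3_psi2 (V : SV) (k m : ℕ) :
    Ch (Del k) m →ₗ[ZMod 2] (RS V k).V m →ₗ[ZMod 2] (RB V).V m :=
  Finsupp.linearCombination (ZMod 2) (A4B3_psi1 V k m)

private theorem A4B3_psi2_of (V : SV) (k m : ℕ) (α : Mo m k) (x : Fin k → V.V m) :
    TensorProduct.lift (A4B3_psi2 V k m) ((Finsupp.single α 1 : Ch (Del k) m) ⊗ₜ[ZMod 2]
      ((RS.of V k).app m x : (RS V k).V m)) = A4B3_fn V k m α x := by
  rw [TensorProduct.lift.tmul, A4B3_psi2, Finsupp.linearCombination_single, one_smul,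
    A4B3_psi1_of]

private theorem A4B3_fn_act (V : SV) (k : ℕ) {m n : ℕ} (g : Mo m n) (α : Mo n k)
    (x : Fin k → V.V n) :
    A4B3_fn V k m (α.comp g) (fun i => V.act g (x i)) = (RB V).act g (A4B3_fn V k n α x) := by
  unfold A4B3_fn
  rw [map_sum]
  refine Finset.sum_congr rfl fun S _ => ?_
  have h1 : rst S (fun i => V.act g (x i)) = (VP V k).act g (rst S x) := by
    funext i
    show (if i ∈ S then V.act g (x i) else 0) = V.act g (if i ∈ S then x i else 0)
    split_ifs
    · rfl
    · rw [map_zero]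
  rw [h1]
  have h2 : (phi V k).app m (α.comp g, (VP V k).act g (rst S x)) =
      (barV V).ss.act g ((phi V k).app n (α, rst S x)) := (phi V k).nat g (α, rst S x)
  rw [h2]
  exact (R.of (barV V).zv).nat g _

theorem exists_psi (V : SV) (k : ℕ) : ∃ ψ : SVHom ((lin (Del k)).tens (RS V k)) (RB V),
    ∀ (m : ℕ) (α : Mo m k) (x : Fin k → V.V m),
      ψ.app m ((Finsupp.single α 1 : Ch (Del k) m) ⊗ₜ[ZMod 2] ((RS.of V k).app m x : (RS V k).V m)) =
        ∑ S : Finset (Fin k), ((R.of (barV V).zv).app m ((phi V k).app m (α, rst S x)) : (RB V).V m) := by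
  refine ⟨⟨fun m => TensorProduct.lift (A4B3_psi2 V k m), fun {m n} g u => ?_⟩,
    fun m α x => A4B3_psi2_of V k m α x⟩
  have h : (TensorProduct.lift (A4B3_psi2 V k m)).comp (((lin (Del k)).tens (RS V k)).act g) =
      ((RB V).act g).comp (TensorProduct.lift (A4B3_psi2 V k n)) := by
    refine A4B3_text fun α x => ?_
    rw [LinearMap.comp_apply, LinearMap.comp_apply, A4B3_psi2_of, ← A4B3_fn_act]
    have h1 : ((lin (Del k)).tens (RS V k)).act g ((Finsupp.single α 1 : Ch (Del k) n) ⊗ₜ[ZMod 2]
        ((RS.of V k).app n x : (RS V k).V n)) =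
        (Finsupp.single (α.comp g) 1 : Ch (Del k) m) ⊗ₜ[ZMod 2]
          ((RS.of V k).app m ((VP V k).act g x) : (RS V k).V m) := by
      show TensorProduct.map _ _ (_ ⊗ₜ _) = _
      rw [TensorProduct.map_tmul, (RS.of V k).nat g x]
      congr 1
      exact Finsupp.mapDomain_single
    rw [h1, A4B3_psi2_of]
  exact LinearMap.congr_fun h u

/-- the maps `F[Δ^k] ⊗ RS V k → R (barV V)` -/
noncomputable def psi (V : SV) (k : ℕ) : SVHom ((lin (Del k)).tens (RS V k)) (RB V) :=
  Classical.choose (exists_psi V k)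

theorem psi_of (V : SV) (k m : ℕ) (α : Mo m k) (x : Fin k → V.V m) :
    (psi V k).app m ((Finsupp.single α 1 : Ch (Del k) m) ⊗ₜ[ZMod 2]
      ((RS.of V k).app m x : (RS V k).V m)) =
        ∑ S : Finset (Fin k), ((R.of (barV V).zv).app m ((phi V k).app m (α, rst S x)) : (RB V).V m) :=
  Classical.choose_spec (exists_psi V k) m α x

private theorem A4B3_mrg_act {V : SV} {k m n : ℕ} (g : Mo m n) (i : Fin k)
    (x : Fin (k + 1) → V.V n) :
    mrg i ((VP V (k + 1)).act g x) = (VP V k).act g (mrg i x) := by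
  funext l
  show (if l < i then V.act g (x l.castSucc) else if l = i then V.act g (x i.castSucc) +
    V.act g (x i.succ) else V.act g (x l.succ)) = V.act g (if l < i then x l.castSucc else
      if l = i then x i.castSucc + x i.succ else x l.succ)
  split_ifs
  · rfl
  · rw [map_add]
  · rfl

/-- `mrg i x` is `x` without `x_(i+1)`, plus `x_(i+1)` at the place `i` -/
private theorem A4B3_mrg1 {V : SV} {k m : ℕ} (i : Fin k) (x : Fin (k + 1) → V.V m) (l : Fin k) :
    mrg i x l = x (i.succ.succAbove l) + (if l = i then x i.succ else 0) := by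
  unfold mrg
  rcases lt_trichotomy l i with h | h | h
  · have h1 : i.succ.succAbove l = l.castSucc := Fin.succAbove_of_castSucc_lt _ _ (by
      rw [Fin.lt_def, Fin.val_castSucc, Fin.val_succ]
      rw [Fin.lt_def] at h
      omega)
    rw [if_pos h, if_neg (ne_of_lt h), h1, add_zero]
  · subst h
    have h1 : l.succ.succAbove l = l.castSucc := Fin.succAbove_of_castSucc_lt _ _ (by
      rw [Fin.lt_def, Fin.val_castSucc, Fin.val_succ]
      omega)
    rw [if_neg (lt_irrefl _), if_pos rfl, if_pos rfl, h1]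
  · have h1 : i.succ.succAbove l = l.succ := Fin.succAbove_of_le_castSucc _ _ (by
      rw [Fin.le_def, Fin.val_castSucc, Fin.val_succ]
      rw [Fin.lt_def] at h
      omega)
    rw [if_neg (not_lt.2 h.le), if_neg (ne_of_gt h), if_neg (ne_of_gt h), h1, add_zero]

/-- `mrg i x` is `x` without `x_i`, plus `x_i` at the place `i` -/
private theorem A4B3_mrg2 {V : SV} {k m : ℕ} (i : Fin k) (x : Fin (k + 1) → V.V m) (l : Fin k) :
    mrg i x l = x (i.castSucc.succAbove l) + (if l = i then x i.castSucc else 0) := by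
  unfold mrg
  rcases lt_trichotomy l i with h | h | h
  · have h1 : i.castSucc.succAbove l = l.castSucc := Fin.succAbove_of_castSucc_lt _ _ (by
      rw [Fin.lt_def, Fin.val_castSucc, Fin.val_castSucc]
      rw [Fin.lt_def] at h
      omega)
    rw [if_pos h, if_neg (ne_of_lt h), h1, add_zero]
  · subst h
    have h1 : l.castSucc.succAbove l = l.succ := Fin.succAbove_of_le_castSucc _ _ le_rfl
    rw [if_neg (lt_irrefl _), if_pos rfl, if_pos rfl, h1, add_comm]
  · have h1 : i.castSucc.succAbove l = l.succ := Fin.succAbove_of_le_castSucc _ _ (by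
      rw [Fin.le_def, Fin.val_castSucc, Fin.val_castSucc]
      rw [Fin.lt_def] at h
      omega)
    rw [if_neg (not_lt.2 h.le), if_neg (ne_of_gt h), if_neg (ne_of_gt h), h1, add_zero]

private theorem A4B3_of_zero {V : SV} {k m : ℕ} (x : Fin k → V.V m) (i : Fin k) (hi : x i = 0) :
    (RS.of V k).app m x = (0 : (RS V k).V m) := quoOf_mem (VP0 V k) ⟨i, hi⟩

private theorem A4B3_pmG_zero {V : SV} {k m : ℕ} (i : Fin k) (x : Fin (k + 1) → V.V m)
    (j : Fin (k + 1)) (hj : x j = 0) : pmG i x = 0 := by
  unfold pmG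
  by_cases h1 : j = i.castSucc
  · subst h1
    have e1 : mrg i x = x ∘ i.castSucc.succAbove := by
      funext l
      rw [A4B3_mrg2, hj]
      simp
    have e2 : (x ∘ i.succ.succAbove) i = 0 := by
      show x (i.succ.succAbove i) = 0
      rw [Fin.succAbove_of_castSucc_lt _ _ (by
        rw [Fin.lt_def, Fin.val_castSucc, Fin.val_succ]
        omega), hj]
    rw [e1, A4B3_of_zero _ i e2, add_zero]
    exact two_eq_zero' _
  · by_cases h2 : j = i.succ
    · subst h2
      have e1 : mrg i x = x ∘ i.succ.succAbove := by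
        funext l
        rw [A4B3_mrg1, hj]
        simp
      have e2 : (x ∘ i.castSucc.succAbove) i = 0 := by
        show x (i.castSucc.succAbove i) = 0
        rw [Fin.succAbove_of_le_castSucc _ _ le_rfl, hj]
      rw [e1, A4B3_of_zero _ i e2, add_zero]
      exact two_eq_zero' _
    · obtain ⟨l, hl⟩ := Fin.exists_succAbove_eq h1
      obtain ⟨l', hl'⟩ := Fin.exists_succAbove_eq h2
      have hli : l ≠ i := by
        rintro rfl
        rw [Fin.succAbove_of_le_castSucc _ _ le_rfl] at hl
        exact h2 hl.symm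
      have e0 : mrg i x l = 0 := by
        rw [A4B3_mrg2, hl, hj, if_neg hli, add_zero]
      have e1 : (x ∘ i.succ.succAbove) l' = 0 := by
        show x (i.succ.succAbove l') = 0
        rw [hl', hj]
      have e2 : (x ∘ i.castSucc.succAbove) l = 0 := by
        show x (i.castSucc.succAbove l) = 0
        rw [hl, hj]
      rw [A4B3_of_zero _ l e0, A4B3_of_zero _ l' e1, A4B3_of_zero _ l e2, add_zero, add_zero]

theorem exists_pmD (V : SV) (k : ℕ) : ∃ D : SVHom (RS V (k + 1)) (RS V k),
    ∀ (m : ℕ) (x : Fin (k + 1) → V.V m),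
      D.app m ((RS.of V (k + 1)).app m x) = ∑ i : Fin k, pmG i x := by
  let f : Hom (VP V (k + 1)) (RS V k).ss := ⟨fun m x => ∑ i : Fin k, pmG i x, fun {m n} g x => by
    show ∑ i : Fin k, pmG i ((VP V (k + 1)).act g x) = (RS V k).act g (∑ i : Fin k, pmG i x)
    rw [map_sum]
    refine Finset.sum_congr rfl fun i _ => ?_
    unfold pmG
    rw [map_add, map_add, A4B3_mrg_act]
    have h1 : ∀ y : Fin k → V.V n, (RS.of V k).app m ((VP V k).act g y) =
        (RS V k).act g ((RS.of V k).app n y) := fun y => (RS.of V k).nat g y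
    rw [← h1, ← h1, ← h1]
    rfl⟩
  refine ⟨quoLift (VP0 V (k + 1)) f ?_, fun m x => quoLift_of _ f _ m x⟩
  rintro n x ⟨j, hj⟩
  show ∑ i : Fin k, pmG i x = (0 : (RS V k).V n)
  exact Finset.sum_eq_zero fun i _ => A4B3_pmG_zero i x j hj

/-- the bar differential on the smash powers -/
noncomputable def pmD (V : SV) (k : ℕ) : SVHom (RS V (k + 1)) (RS V k) :=
  Classical.choose (exists_pmD V k)

theorem pmD_of (V : SV) (k m : ℕ) (x : Fin (k + 1) → V.V m) :
    (pmD V k).app m ((RS.of V (k + 1)).app m x) = ∑ i : Fin k, pmG i x :=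
  Classical.choose_spec (exists_pmD V k) m x

/-- splitting a subset of `Fin (k+1)` at a point `p` -/
private def A4B3_eq {k : ℕ} (p : Fin (k + 1)) : Finset (Fin k) × Bool ≃ Finset (Fin (k + 1)) where
  toFun y := if y.2 then insert p (y.1.map p.succAboveEmb) else y.1.map p.succAboveEmb
  invFun S := (Finset.univ.filter fun l => p.succAbove l ∈ S, decide (p ∈ S))
  left_inv := by
    rintro ⟨T, b⟩
    refine Prod.ext ?_ ?_
    · ext l
      cases b
      · simp
      · simp [Fin.succAbove_ne]
    · cases b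
      · simp [Fin.succAbove_ne]
      · simp
  right_inv := by
    intro S
    ext l
    by_cases hp : p ∈ S
    · by_cases hl : l = p
      · subst hl
        simp [hp]
      · obtain ⟨l', rfl⟩ := Fin.exists_succAbove_eq hl
        simp [hp, Fin.succAbove_ne]
    · by_cases hl : l = p
      · subst hl
        simp [hp, Fin.succAbove_ne]
      · obtain ⟨l', rfl⟩ := Fin.exists_succAbove_eq hl
        simp [hp]

private theorem A4B3_split {M : Type*} [AddCommMonoid M] {k : ℕ} (p : Fin (k + 1))
    (F : Finset (Fin (k + 1)) → M) :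
    ∑ S, F S = ∑ T : Finset (Fin k), (F (T.map p.succAboveEmb) +
      F (insert p (T.map p.succAboveEmb))) := by
  rw [← Equiv.sum_comp (A4B3_eq p) F, Fintype.sum_prod_type]
  refine Finset.sum_congr rfl fun T _ => ?_
  rw [Fintype.sum_bool, add_comm]
  rfl

private theorem A4B3_psum {V : SV} {k m : ℕ} (j : Fin k) (z : Fin (k + 1) → V.V m)
    (t : Fin (k + 1)) : psum z (dlt j.castSucc.succ t) = psum (mrg j z) t := by
  have hd : (dlt j.castSucc.succ t : Fin (k + 2)) = j.castSucc.succ.succAbove t := rfl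
  have hv : ((j.castSucc.succ.succAbove t : Fin (k + 2)) : ℕ) =
      if (t : ℕ) ≤ (j : ℕ) then (t : ℕ) else (t : ℕ) + 1 := by
    by_cases h : (t : ℕ) ≤ (j : ℕ)
    · rw [if_pos h, Fin.succAbove_of_castSucc_lt _ _ (by
        rw [Fin.lt_def, Fin.val_castSucc, Fin.val_succ, Fin.val_castSucc]
        omega)]
      rfl
    · rw [if_neg h, Fin.succAbove_of_le_castSucc _ _ (by
        rw [Fin.le_def, Fin.val_castSucc, Fin.val_succ, Fin.val_castSucc]
        omega)]
      rfl
  unfold psum
  rw [hd, Fin.sum_univ_succAbove _ j.succ]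
  have h1 : ∀ l : Fin k, (if (j.succ.succAbove l).castSucc < j.castSucc.succ.succAbove t then
      z (j.succ.succAbove l) else 0) = if l.castSucc < t then z (j.succ.succAbove l) else 0 := by
    intro l
    have hw : ((j.succ.succAbove l : Fin (k + 1)) : ℕ) =
        if (l : ℕ) ≤ (j : ℕ) then (l : ℕ) else (l : ℕ) + 1 := by
      by_cases h : (l : ℕ) ≤ (j : ℕ)
      · rw [if_pos h, Fin.succAbove_of_castSucc_lt _ _ (by
          rw [Fin.lt_def, Fin.val_castSucc, Fin.val_succ]
          omega)]
        rfl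
      · rw [if_neg h, Fin.succAbove_of_le_castSucc _ _ (by
          rw [Fin.le_def, Fin.val_castSucc, Fin.val_succ]
          omega)]
        rfl
    refine if_congr ?_ rfl rfl
    rw [Fin.lt_def, Fin.lt_def, hv, Fin.val_castSucc, Fin.val_castSucc, hw]
    split_ifs <;> omega
  have h2 : (if (j.succ : Fin (k + 1)).castSucc < j.castSucc.succ.succAbove t then z j.succ
      else 0) = if j.castSucc < t then z j.succ else 0 := by
    refine if_congr ?_ rfl rfl
    rw [Fin.lt_def, Fin.lt_def, hv, Fin.val_castSucc, Fin.val_castSucc, Fin.val_succ]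
    split_ifs <;> omega
  rw [h2, Finset.sum_congr rfl fun l _ => h1 l]
  have h3 : ∀ l : Fin k, (if l.castSucc < t then mrg j z l else 0) =
      (if l.castSucc < t then z (j.succ.succAbove l) else 0) +
        (if l = j then (if j.castSucc < t then z j.succ else 0) else 0) := by
    intro l
    rw [A4B3_mrg1]
    by_cases hl : l = j
    · subst hl
      by_cases ht : l.castSucc < t
      · simp only [if_pos ht, if_true]
      · simp only [if_neg ht, if_true, add_zero]
    · rw [if_neg hl, if_neg hl, add_zero, add_zero]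
  rw [Finset.sum_congr rfl fun l _ => h3 l, Finset.sum_add_distrib, Finset.sum_ite_eq' Finset.univ j,
    if_pos (Finset.mem_univ _), add_comm]

private theorem A4B3_phi_mid {V : SV} {k m : ℕ} (j : Fin k) (α : Mo m k)
    (z : Fin (k + 1) → V.V m) :
    (phi V (k + 1)).app m ((dlt j.castSucc.succ).comp α, z) = (phi V k).app m (α, mrg j z) := by
  apply Subtype.ext
  funext ab
  show psum z (dlt j.castSucc.succ (α ab.1)) + psum z (dlt j.castSucc.succ (α ab.2)) =
    psum (mrg j z) (α ab.1) + psum (mrg j z) (α ab.2)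
  rw [A4B3_psum, A4B3_psum]

private theorem A4B3_phi_zero {V : SV} {k m : ℕ} (α : Mo m k)
    (z z' : Fin (k + 1) → V.V m) (h : ∀ l : Fin k, z l.succ = z' l.succ) :
    (phi V (k + 1)).app m ((dlt 0).comp α, z) = (phi V (k + 1)).app m ((dlt 0).comp α, z') := by
  have key : ∀ (w : Fin (k + 1) → V.V m) (t : Fin (k + 1)), psum w (dlt 0 t) =
      w 0 + psum (fun l : Fin k => w l.succ) t := by
    intro w t
    have hd : (dlt 0 t : Fin (k + 2)) = t.succ := rfl
    unfold psum
    have h0 : (0 : Fin (k + 1)).castSucc < t.succ := by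
      rw [Fin.lt_def]
      simp
    have hs : ∀ l : Fin k, (if l.succ.castSucc < t.succ then w l.succ else 0) =
        (if l.castSucc < t then w l.succ else 0) := by
      intro l
      refine if_congr ?_ rfl rfl
      rw [Fin.lt_def, Fin.lt_def]
      simp
    rw [hd, Fin.sum_univ_succ, if_pos h0, Finset.sum_congr rfl fun l _ => hs l]
  apply Subtype.ext
  funext ab
  show psum z (dlt 0 (α ab.1)) + psum z (dlt 0 (α ab.2)) =
    psum z' (dlt 0 (α ab.1)) + psum z' (dlt 0 (α ab.2))
  rw [key, key, key, key]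
  have e : (fun l : Fin k => z l.succ) = fun l : Fin k => z' l.succ := funext h
  rw [e]
  have h1 : ∀ a b c : V.V m, a + b + (a + c) = b + c := by
    intro a b c
    have : a + b + (a + c) = (a + a) + (b + c) := by abel
    rw [this, two_eq_zero', zero_add]
  rw [h1, h1]

private theorem A4B3_phi_last {V : SV} {k m : ℕ} (α : Mo m k)
    (z z' : Fin (k + 1) → V.V m) (h : ∀ l : Fin k, z l.castSucc = z' l.castSucc) :
    (phi V (k + 1)).app m ((dlt (Fin.last (k + 1))).comp α, z) =
      (phi V (k + 1)).app m ((dlt (Fin.last (k + 1))).comp α, z') := by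
  have key : ∀ (w : Fin (k + 1) → V.V m) (t : Fin (k + 1)), psum w (dlt (Fin.last (k + 1)) t) =
      psum (fun l : Fin k => w l.castSucc) t := by
    intro w t
    have hd : (dlt (Fin.last (k + 1)) t : Fin (k + 2)) = t.castSucc := Fin.succAbove_last_apply t
    unfold psum
    rw [hd, Fin.sum_univ_castSucc]
    rw [if_neg (by
      rw [Fin.lt_def, Fin.val_castSucc, Fin.val_castSucc, Fin.val_last]
      have := t.2
      omega), add_zero]
    refine Finset.sum_congr rfl fun l _ => if_congr ?_ rfl rfl
    rw [Fin.lt_def, Fin.lt_def]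
    simp
  apply Subtype.ext
  funext ab
  show psum z (dlt _ (α ab.1)) + psum z (dlt _ (α ab.2)) =
    psum z' (dlt _ (α ab.1)) + psum z' (dlt _ (α ab.2))
  rw [key, key, key, key]
  have e : (fun l : Fin k => z l.castSucc) = fun l : Fin k => z' l.castSucc := funext h
  rw [e]

private theorem A4B3_rst_ne {V : SV} {k m : ℕ} (T : Finset (Fin k)) (x : Fin k → V.V m)
    (i l : Fin k) (hl : l ≠ i) : rst (insert i T) x l = rst T x l := by
  unfold rst
  simp only [Finset.mem_insert, hl, false_or]

private theorem A4B3_rst_map {V : SV} {k m : ℕ} (p : Fin (k + 1)) (T : Finset (Fin k))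
    (x : Fin (k + 1) → V.V m) (l : Fin k) :
    rst (T.map p.succAboveEmb) x (p.succAbove l) = rst T (x ∘ p.succAbove) l := by
  unfold rst
  simp

private theorem A4B3_mid {V : SV} {k m : ℕ} {M : Type} [AddCommGroup M] [Module (ZMod 2) M]
    (j : Fin k) (x : Fin (k + 1) → V.V m) (g : (Fin k → V.V m) → M) :
    ∑ S : Finset (Fin (k + 1)), g (mrg j (rst S x)) =
      ∑ T : Finset (Fin k), g (rst T (mrg j x)) +
        ∑ T : Finset (Fin k), g (rst T (x ∘ j.succ.succAbove)) +
          ∑ T : Finset (Fin k), g (rst T (x ∘ j.castSucc.succAbove)) := by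
  rw [A4B3_split j.succ, Finset.sum_add_distrib]
  have hs : j.succ.succAbove j = j.castSucc := Fin.succAbove_of_castSucc_lt _ _ (by
    rw [Fin.lt_def, Fin.val_castSucc, Fin.val_succ]
    omega)
  have e0 : ∀ T : Finset (Fin k), mrg j (rst (T.map j.succ.succAboveEmb) x) =
      rst T (x ∘ j.succ.succAbove) := by
    intro T
    funext l
    rw [A4B3_mrg1, A4B3_rst_map]
    have h0 : rst (T.map j.succ.succAboveEmb) x j.succ = 0 := by
      unfold rst
      rw [if_neg]
      simp [Fin.succAbove_ne]
    rw [h0]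
    simp
  have e1 : ∀ T : Finset (Fin k), mrg j (rst (insert j.succ (T.map j.succ.succAboveEmb)) x) =
      fun l => rst T (x ∘ j.succ.succAbove) l + if l = j then x j.succ else 0 := by
    intro T
    funext l
    rw [A4B3_mrg1, A4B3_rst_ne _ _ _ _ (Fin.succAbove_ne _ _), A4B3_rst_map]
    have h0 : rst (insert j.succ (T.map j.succ.succAboveEmb)) x j.succ = x j.succ := by
      unfold rst
      rw [if_pos (Finset.mem_insert_self _ _)]
    rw [h0]
  have h1 : ∑ T : Finset (Fin k), (g (mrg j (rst (insert j.succ (T.map j.succ.succAboveEmb)) x)) +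
      g (rst T (mrg j x)) + g (rst T (x ∘ j.castSucc.succAbove))) = 0 := by
    refine A4B3_inv j _ fun T hT => ?_
    have a1 : rst T (mrg j x) = rst T (x ∘ j.castSucc.succAbove) := by
      funext l
      unfold rst
      by_cases hl : l ∈ T
      · have hlj : ¬ l = j := fun h => hT (by rw [← h]; exact hl)
        rw [if_pos hl, if_pos hl, A4B3_mrg2, if_neg hlj, add_zero]
        rfl
      · rw [if_neg hl, if_neg hl]
    have a2 : mrg j (rst (insert j.succ (T.map j.succ.succAboveEmb)) x) =
        rst (insert j T) (x ∘ j.castSucc.succAbove) := by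
      rw [e1]
      funext l
      unfold rst
      by_cases hl : l = j
      · subst hl
        rw [if_neg hT, if_pos rfl, if_pos (Finset.mem_insert_self _ _), zero_add]
        show x l.succ = x (l.castSucc.succAbove l)
        rw [Fin.succAbove_of_le_castSucc _ _ le_rfl]
      · rw [if_neg hl, add_zero]
        simp only [Finset.mem_insert, hl, false_or]
        by_cases hlT : l ∈ T
        · rw [if_pos hlT, if_pos hlT]
          have b1 := A4B3_mrg1 j x l
          have b2 := A4B3_mrg2 j x l
          rw [if_neg hl, add_zero] at b1 b2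
          exact b1.symm.trans b2
        · rw [if_neg hlT, if_neg hlT]
    have a3 : mrg j (rst (insert j.succ ((insert j T).map j.succ.succAboveEmb)) x) =
        rst (insert j T) (mrg j x) := by
      rw [e1]
      funext l
      unfold rst
      rw [A4B3_mrg1]
      by_cases hl : l ∈ insert j T
      · rw [if_pos hl, if_pos hl]
        rfl
      · rw [if_neg hl, if_neg hl, zero_add, if_neg]
        rintro rfl
        exact hl (Finset.mem_insert_self _ _)
    rw [a3, a2, a1, two_eq_zero', zero_add, add_assoc, two_eq_zero', add_zero]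
  rw [Finset.sum_congr rfl fun T _ => congrArg g (e0 T)]
  rw [Finset.sum_add_distrib, Finset.sum_add_distrib] at h1
  set A := ∑ T : Finset (Fin k), g (mrg j (rst (insert j.succ (T.map j.succ.succAboveEmb)) x))
  set B := ∑ T : Finset (Fin k), g (rst T (mrg j x))
  set C := ∑ T : Finset (Fin k), g (rst T (x ∘ j.castSucc.succAbove))
  set E := ∑ T : Finset (Fin k), g (rst T (x ∘ j.succ.succAbove))
  have h2 : A = B + C := by
    have h3 : A + B + C + (B + C) = B + C := by rw [h1, zero_add]
    have h4 : A + B + C + (B + C) = A + ((B + C) + (B + C)) := by abel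
    rw [h4, two_eq_zero', add_zero] at h3
    exact h3
  rw [h2]
  abel

private theorem A4B3_faces_of (V : SV) (k m : ℕ) (α : Mo m k) (x : Fin (k + 1) → V.V m) :
    ∑ i : Fin (k + 2), (psi V (k + 1)).app m
      ((Finsupp.single ((dlt i).comp α) 1 : Ch (Del (k + 1)) m) ⊗ₜ[ZMod 2]
        ((RS.of V (k + 1)).app m x : (RS V (k + 1)).V m)) =
    (psi V k).app m ((Finsupp.single α 1 : Ch (Del k) m) ⊗ₜ[ZMod 2]
      (pmD V k).app m ((RS.of V (k + 1)).app m x)) := by
  have hL : ∀ i : Fin (k + 2), (psi V (k + 1)).app m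
      ((Finsupp.single ((dlt i).comp α) 1 : Ch (Del (k + 1)) m) ⊗ₜ[ZMod 2]
        ((RS.of V (k + 1)).app m x : (RS V (k + 1)).V m)) =
      ∑ S : Finset (Fin (k + 1)), ((R.of (barV V).zv).app m
        ((phi V (k + 1)).app m ((dlt i).comp α, rst S x)) : (RB V).V m) :=
    fun i => psi_of V (k + 1) m _ x
  rw [Finset.sum_congr rfl fun i _ => hL i, Fin.sum_univ_succ, Fin.sum_univ_castSucc]
  have z0 : ∑ S : Finset (Fin (k + 1)), ((R.of (barV V).zv).app m
        ((phi V (k + 1)).app m ((dlt 0).comp α, rst S x)) : (RB V).V m) = 0 := by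
    refine A4B3_inv 0 _ fun T _ => ?_
    rw [A4B3_phi_zero α (rst (insert 0 T) x) (rst T x) fun l =>
      A4B3_rst_ne _ _ _ _ (Fin.succ_ne_zero l)]
  have z1 : ∑ S : Finset (Fin (k + 1)), ((R.of (barV V).zv).app m
        ((phi V (k + 1)).app m ((dlt (Fin.last k).succ).comp α, rst S x)) : (RB V).V m) = 0 := by
    refine A4B3_inv (Fin.last k) _ fun T _ => ?_
    rw [Fin.succ_last, A4B3_phi_last α (rst (insert (Fin.last k) T) x) (rst T x) fun l =>
      A4B3_rst_ne _ _ _ _ (Fin.castSucc_ne_last l)]
  rw [z0, z1, zero_add, add_zero, pmD_of, TensorProduct.tmul_sum, map_sum]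
  refine Finset.sum_congr rfl fun j _ => ?_
  rw [Finset.sum_congr rfl fun S _ => congrArg
    (fun w => ((R.of (barV V).zv).app m w : (RB V).V m)) (A4B3_phi_mid j α (rst S x))]
  have h1 := A4B3_mid j x (fun w => ((R.of (barV V).zv).app m ((phi V k).app m (α, w)) :
    (RB V).V m))
  refine h1.trans ?_
  unfold pmG
  rw [TensorProduct.tmul_add, TensorProduct.tmul_add, map_add, map_add, psi_of, psi_of, psi_of]

theorem psi_faces (V : SV) (k m : ℕ) (α : Mo m k) (y : (RS V (k + 1)).V m) :
    ∑ i : Fin (k + 2), (psi V (k + 1)).app m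
      ((Finsupp.single ((dlt i).comp α) 1 : Ch (Del (k + 1)) m) ⊗ₜ[ZMod 2] y) =
    (psi V k).app m ((Finsupp.single α 1 : Ch (Del k) m) ⊗ₜ[ZMod 2] (pmD V k).app m y) := by
  have hy : y ∈ Submodule.span (ZMod 2) (Set.range ((RS.of V (k + 1)).app m)) := by
    rw [quo_span]; trivial
  induction hy using Submodule.span_induction with
  | zero =>
    rw [map_zero, TensorProduct.tmul_zero, map_zero]
    refine Finset.sum_eq_zero fun i _ => ?_
    rw [TensorProduct.tmul_zero, map_zero]
  | add a b _ _ ha hb =>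
    rw [map_add, TensorProduct.tmul_add, map_add, ← ha, ← hb, ← Finset.sum_add_distrib]
    refine Finset.sum_congr rfl fun i _ => ?_
    rw [TensorProduct.tmul_add, map_add]
  | smul r a _ ha =>
    rw [map_smul, TensorProduct.tmul_smul, map_smul, ← ha, Finset.smul_sum]
    refine Finset.sum_congr rfl fun i _ => ?_
    rw [TensorProduct.tmul_smul, map_smul]
  | mem y hy =>
    obtain ⟨x, rfl⟩ := hy
    exact A4B3_faces_of V k m α x

end MM
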