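import Pool.Agent.Lib_MP_33f7bb_d.A4B2
import Pool.Agent.Lib_MP_33f7bb_d.A4B3

/-!
# A4-B4: `psi` and the filtration

In level `m` the space `(RB V).V m` has the basis `[v]`, `v ≠ 0`, and `FB V k m` is spanned by the `[v]` with `jn v ≤ k`
(`mem_Fj_iff`).  `psi_mem_FB`: `phi V k` has values in `Fj V k`.
For `k + 1`: `psi ([α] ⊗ [x]) ≡ [phi (α, x)]` modulo `FB V k` (`rst S x` has a zero entry for `S ≠ univ`, `phi_degenerate`);
it is in `FB V k` if `α` is not surjective or `x` has a zero entry.  The space `(KK (k+1)) ⊗ (RS V (k+1))` in level `m` is spanned by the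
`[α] ⊗ [x]`, `α` surjective, `x` without zero entries.
* `psi_surj`: enough for `z = [v]`, `jn v = k + 1` (`exists_phi`), `u = [α] ⊗ [x]`.
* `psi_ker`: the kernel of `F[Δ^(k+1)] ⊗ RS → KK (k+1) ⊗ RS` is spanned by the `[α] ⊗ y`, `α` not surjective (exactness of the tensor product
  over a field, or choose the splitting of `F[Δ^(k+1)]` by surjective / non surjective simplices).
* `psi_inj`: modulo the kernel `u = ∑ c_(α,x) [α] ⊗ [x]` over pairs with `α` surjective, `x` without zero entries;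
  `psi u ≡ ∑ c_(α,x) [phi (α, x)]` and the `phi (α, x)` are distinct (`phi_inj`) with exactly `k + 1` jumps (`phi_jn`); if this is in `FB V k`
  all `c` vanish.
-/

open scoped TensorProduct

namespace MM

variable (V : SV)

/-- the projection `F[Δ^k] ⊗ RS V k → K'(k) ⊗ RS V k` -/
noncomputable def prKR (k : ℕ) : SVHom ((lin (Del k)).tens (RS V k)) ((KK k).tens (RS V k)) :=
  (linSub (bd k)).proj.tens (SVHom.id (RS V k))

private theorem A4B4_deg (m : ℕ) : (barV V).ss.deg (barV V).zv m = (0 : (barV V).V m) :=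
  map_zero ((barV V).act _)

private theorem A4B4_jn0 (m : ℕ) : jn (0 : (barV V).V m) = 0 := (jn_eq_zero m 0).2 rfl

private theorem A4B4_pt_le (k m : ℕ) :
    (linSub (Sub.pt (barV V).zv)).car m ≤ (linSub (Fj V k)).car m := by
  apply Finsupp.supported_mono
  intro v hv
  have hv' : v = (0 : (barV V).V m) := by
    rw [← A4B4_deg V m]
    exact hv
  rw [mem_Fj_iff, hv', A4B4_jn0]
  exact Nat.zero_le _

private theorem A4B4_pr (k m : ℕ) (c : Ch (barV V).ss m) :
    (R.pr (barV V).zv).app m c ∈ FB V k m ↔ c ∈ (linSub (Fj V k)).car m := by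
  constructor
  · rintro ⟨c', hc', h⟩
    have h1 : c' - c ∈ (linSub (Sub.pt (barV V).zv)).car m := (Submodule.Quotient.eq _).1 h
    have h2 := A4B4_pt_le V k m h1
    have h3 := Submodule.sub_mem _ hc' h2
    rwa [sub_sub_cancel] at h3
  · intro h
    exact ⟨c, h, rfl⟩

private theorem A4B4_of (k m : ℕ) (v : (barV V).V m) (h : jn v ≤ k) :
    ((R.of (barV V).zv).app m v : (RB V).V m) ∈ FB V k m := by
  refine (A4B4_pr V k m (Finsupp.single v 1)).2 ?_
  exact Finsupp.single_mem_supported _ _ ((mem_Fj_iff k m v).2 h)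

private theorem A4B4_le {k m : ℕ} {N : Submodule (ZMod 2) ((RB V).V m)}
    (h : ∀ v : (barV V).V m, jn v ≤ k → ((R.of (barV V).zv).app m v : (RB V).V m) ∈ N) :
    FB V k m ≤ N := by
  unfold FB
  rw [Submodule.map_le_iff_le_comap]
  intro c hc
  have hc' : c ∈ Finsupp.supported (ZMod 2) (ZMod 2) ((Fj V k).car m) := hc
  rw [Finsupp.supported_eq_span_single] at hc'
  refine Submodule.span_le.2 ?_ hc'
  rintro _ ⟨v, hv, rfl⟩
  exact h v ((mem_Fj_iff k m v).1 hv)

/-- generators of the tensor product -/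
private theorem A4B4_gen {k m : ℕ} (N : Submodule (ZMod 2) (((lin (Del k)).tens (RS V k)).V m))
    (h : ∀ (α : Mo m k) (x : Fin k → V.V m),
      ((Finsupp.single α 1 : Ch (Del k) m) ⊗ₜ[ZMod 2] ((RS.of V k).app m x : (RS V k).V m)) ∈ N)
    (u : ((lin (Del k)).tens (RS V k)).V m) : u ∈ N := by
  induction u using TensorProduct.induction_on with
  | zero => exact Submodule.zero_mem _
  | add a b ha hb => exact Submodule.add_mem _ ha hb
  | tmul a b =>
    have hb : b ∈ Submodule.span (ZMod 2) (Set.range ((RS.of V k).app m)) := by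
      rw [quo_span]; trivial
    induction hb using Submodule.span_induction with
    | zero => rw [TensorProduct.tmul_zero]; exact Submodule.zero_mem _
    | add x y _ _ hx hy => rw [TensorProduct.tmul_add]; exact Submodule.add_mem _ hx hy
    | smul r x _ hx => rw [TensorProduct.tmul_smul]; exact Submodule.smul_mem _ _ hx
    | mem x hx =>
      obtain ⟨y, rfl⟩ := hx
      induction a using Finsupp.induction_linear with
      | zero => rw [TensorProduct.zero_tmul]; exact Submodule.zero_mem _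
      | add c c' hc hc' => rw [TensorProduct.add_tmul]; exact Submodule.add_mem _ hc hc'
      | single α r =>
        have : (Finsupp.single α r : Ch (Del k) m) = r • Finsupp.single α 1 := by
          rw [Finsupp.smul_single, smul_eq_mul, mul_one]
        rw [this, ← TensorProduct.smul_tmul']
        exact Submodule.smul_mem _ _ (h α y)

theorem FB_zero (m : ℕ) : FB V 0 m = ⊥ := by
  rw [eq_bot_iff]
  apply A4B4_le
  intro v hv
  rw [Nat.le_zero, jn_eq_zero] at hv
  rw [Submodule.mem_bot, hv, ← A4B4_deg V m]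
  exact R.of_base (barV V).zv m

theorem FB_mono (k m : ℕ) : FB V k m ≤ FB V (k + 1) m := by
  apply A4B4_le
  intro v hv
  exact A4B4_of V (k + 1) m v (by omega)

theorem FB_top (k m : ℕ) (h : m ≤ k) : FB V k m = ⊤ := by
  rw [eq_top_iff]
  rintro x -
  obtain ⟨c, rfl⟩ := Submodule.Quotient.mk_surjective _ x
  refine (A4B4_pr V k m c).2 ?_
  exact fun v _ => Fj_top k m h v

theorem FB_act (k : ℕ) {m n : ℕ} (f : Mo m n) {x : (RB V).V n} (hx : x ∈ FB V k n) :
    (RB V).act f x ∈ FB V k m := by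
  obtain ⟨c, hc, rfl⟩ := hx
  rw [← (R.pr (barV V).zv).nat]
  exact (A4B4_pr V k m _).2 ((linSub (Fj V k)).closed f hc)

theorem FB_d (k n : ℕ) {x : (RB V).V (n + 1)} (hx : x ∈ FB V k (n + 1)) :
    (RB V).d n x ∈ FB V k n := by
  unfold SV.d
  rw [LinearMap.sum_apply]
  exact Submodule.sum_mem _ fun i _ => FB_act V k (dlt i) hx

theorem psi_mem_FB (k m : ℕ) (u : ((lin (Del k)).tens (RS V k)).V m) :
    (psi V k).app m u ∈ FB V k m := by
  refine A4B4_gen V ((FB V k m).comap ((psi V k).app m)) ?_ u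
  intro α x
  rw [Submodule.mem_comap, psi_of]
  refine Submodule.sum_mem _ fun S _ => A4B4_of V k m _ ?_
  rw [← mem_Fj_iff]
  exact ⟨(α, rst S x), trivial, rfl⟩

/-- `psi ([α] ⊗ [x]) ≡ [phi (α, x)]` -/
private theorem A4B4_psi (k m : ℕ) (α : Mo m (k + 1)) (x : Fin (k + 1) → V.V m) :
    (psi V (k + 1)).app m ((Finsupp.single α 1 : Ch (Del (k + 1)) m) ⊗ₜ[ZMod 2]
      ((RS.of V (k + 1)).app m x : (RS V (k + 1)).V m)) +
      ((R.of (barV V).zv).app m ((phi V (k + 1)).app m (α, x)) : (RB V).V m) ∈ FB V k m := by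
  classical
  rw [psi_of, ← Finset.add_sum_erase Finset.univ _ (Finset.mem_univ (Finset.univ : Finset (Fin (k + 1))))]
  have h1 : rst (Finset.univ : Finset (Fin (k + 1))) x = x := by
    funext i
    unfold rst
    rw [if_pos (Finset.mem_univ i)]
  rw [h1, add_comm, ← add_assoc, two_eq_zero', zero_add]
  refine Submodule.sum_mem _ fun S hS => A4B4_of V k m _ ?_
  refine phi_degenerate k m α _ (Or.inr ?_)
  have hS' : S ≠ Finset.univ := (Finset.mem_erase.1 hS).1
  obtain ⟨i, hi⟩ : ∃ i, i ∉ S := by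
    by_contra hcon
    push Not at hcon
    exact hS' (Finset.eq_univ_iff_forall.2 hcon)
  exact ⟨i, by unfold rst; rw [if_neg hi]⟩

/-- the degenerate generators -/
private theorem A4B4_deg_psi (k m : ℕ) (α : Mo m (k + 1)) (x : Fin (k + 1) → V.V m)
    (h : ¬ Function.Surjective α ∨ ∃ i, x i = 0) :
    (psi V (k + 1)).app m ((Finsupp.single α 1 : Ch (Del (k + 1)) m) ⊗ₜ[ZMod 2]
      ((RS.of V (k + 1)).app m x : (RS V (k + 1)).V m)) ∈ FB V k m := by
  have h1 := A4B4_psi V k m α x
  have h2 := A4B4_of V k m _ (phi_degenerate k m α x h)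
  exact (Submodule.add_mem_iff_left _ h2).1 h1

theorem psi_surj (k m : ℕ) (z : (RB V).V m) (hz : z ∈ FB V (k + 1) m) :
    ∃ u : ((lin (Del (k + 1))).tens (RS V (k + 1))).V m, z + (psi V (k + 1)).app m u ∈ FB V k m := by
  have hle : FB V (k + 1) m ≤ FB V k m ⊔ LinearMap.range ((psi V (k + 1)).app m) := by
    apply A4B4_le
    intro v hv
    by_cases hk : jn v ≤ k
    · exact Submodule.mem_sup_left (A4B4_of V k m v hk)
    · obtain ⟨α, x, -, -, rfl⟩ := exists_phi (k + 1) m v (by omega)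
      have h1 := A4B4_psi V k m α x
      rw [Submodule.mem_sup]
      refine ⟨_, h1, _, ⟨(Finsupp.single α 1 : Ch (Del (k + 1)) m) ⊗ₜ[ZMod 2]
        ((RS.of V (k + 1)).app m x : (RS V (k + 1)).V m), rfl⟩, ?_⟩
      rw [add_comm, ← add_assoc, two_eq_zero', zero_add]
  obtain ⟨a, ha, b, ⟨u, rfl⟩, hab⟩ := Submodule.mem_sup.1 (hle hz)
  refine ⟨u, ?_⟩
  rw [← hab, add_assoc, two_eq_zero', add_zero]
  exact ha

theorem psi_ker (k m : ℕ) (u : ((lin (Del (k + 1))).tens (RS V (k + 1))).V m)
    (hu : (prKR V (k + 1)).app m u = 0) : (psi V (k + 1)).app m u ∈ FB V k m := by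
  let f : ((lin (Del (k + 1))).tens (RS V (k + 1))).V m →ₗ[ZMod 2] ((RB V).V m ⧸ FB V k m) :=
    (FB V k m).mkQ.comp ((psi V (k + 1)).app m)
  let β : Ch (Del (k + 1)) m →ₗ[ZMod 2] ((RS V (k + 1)).V m →ₗ[ZMod 2] ((RB V).V m ⧸ FB V k m)) :=
    TensorProduct.curry f
  have hβ : (linSub (bd (k + 1))).car m ≤ LinearMap.ker β := by
    intro c hc
    have hc' : c ∈ Finsupp.supported (ZMod 2) (ZMod 2) ((bd (k + 1)).car m) := hc
    rw [Finsupp.supported_eq_span_single] at hc'
    refine Submodule.span_le.2 ?_ hc'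
    rintro _ ⟨α, hα, rfl⟩
    rw [SetLike.mem_coe, LinearMap.mem_ker]
    apply quo_ext (VP0 V (k + 1))
    intro x
    show (FB V k m).mkQ ((psi V (k + 1)).app m ((Finsupp.single α 1 : Ch (Del (k + 1)) m) ⊗ₜ[ZMod 2]
      ((RS.of V (k + 1)).app m x : (RS V (k + 1)).V m))) = 0
    rw [Submodule.mkQ_apply, Submodule.Quotient.mk_eq_zero]
    exact A4B4_deg_psi V k m α x (Or.inl hα)
  let χ : ((KK (k + 1)).tens (RS V (k + 1))).V m →ₗ[ZMod 2] ((RB V).V m ⧸ FB V k m) :=
    TensorProduct.lift (Submodule.liftQ _ β hβ)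
  have hχ : χ.comp ((prKR V (k + 1)).app m) = f := by
    apply TensorProduct.ext'
    intro c y
    rfl
  have h1 : f u = 0 := by
    rw [← hχ, LinearMap.comp_apply, hu, map_zero]
  exact (Submodule.Quotient.mk_eq_zero _).1 h1

/-- the inverse on generators -/
private noncomputable def A4B4_g (k m : ℕ) (v : (barV V).V m) : ((KK (k + 1)).tens (RS V (k + 1))).V m := by
  classical
  exact if h : jn v = k + 1 then
    (((linSub (bd (k + 1))).proj.app m (Finsupp.single (exists_phi (k + 1) m v h).choose 1) :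
        (KK (k + 1)).V m) ⊗ₜ[ZMod 2]
      ((RS.of V (k + 1)).app m (exists_phi (k + 1) m v h).choose_spec.choose : (RS V (k + 1)).V m))
    else 0

private theorem A4B4_g_phi (k m : ℕ) (α : Mo m (k + 1)) (x : Fin (k + 1) → V.V m)
    (h : Function.Surjective α) (hx : ∀ i, x i ≠ 0) :
    A4B4_g V k m ((phi V (k + 1)).app m (α, x)) =
      (((linSub (bd (k + 1))).proj.app m (Finsupp.single α 1) : (KK (k + 1)).V m) ⊗ₜ[ZMod 2]
        ((RS.of V (k + 1)).app m x : (RS V (k + 1)).V m)) := by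
  classical
  have hj : jn ((phi V (k + 1)).app m (α, x) : (barV V).V m) = k + 1 := phi_jn (k + 1) m α x h hx
  unfold A4B4_g
  rw [dif_pos hj]
  obtain ⟨h1, h2, h3⟩ := (exists_phi (k + 1) m _ hj).choose_spec.choose_spec
  obtain ⟨h4, h5⟩ := phi_inj (k + 1) m _ _ _ _ h1 h h2 hx h3
  rw [h5]
  congr 3

/-- the inverse modulo the filtration -/
private noncomputable def A4B4_th (k m : ℕ) :
    (RB V).V m →ₗ[ZMod 2] ((KK (k + 1)).tens (RS V (k + 1))).V m :=
  Submodule.liftQ _ (Finsupp.linearCombination (ZMod 2) (A4B4_g V k m)) (by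
    intro c hc
    rw [LinearMap.mem_ker, Finsupp.linearCombination_apply, Finsupp.sum]
    refine Finset.sum_eq_zero fun v hv => ?_
    have hv' : v = (0 : (barV V).V m) := by
      rw [← A4B4_deg V m]
      exact hc hv
    have h1 : A4B4_g V k m v = 0 := by
      unfold A4B4_g
      rw [dif_neg]
      rw [hv', A4B4_jn0]
      omega
    rw [h1, smul_zero])

private theorem A4B4_th_of (k m : ℕ) (v : (barV V).V m) :
    A4B4_th V k m ((R.of (barV V).zv).app m v : (RB V).V m) = A4B4_g V k m v := by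
  show Finsupp.linearCombination (ZMod 2) (A4B4_g V k m) (Finsupp.single v 1) = _
  rw [Finsupp.linearCombination_single, one_smul]

private theorem A4B4_th_FB (k m : ℕ) (z : (RB V).V m) (hz : z ∈ FB V k m) : A4B4_th V k m z = 0 := by
  have h : FB V k m ≤ LinearMap.ker (A4B4_th V k m) := by
    apply A4B4_le
    intro v hv
    rw [LinearMap.mem_ker, A4B4_th_of]
    unfold A4B4_g
    rw [dif_neg]
    omega
  exact h hz

private theorem A4B4_th_psi (k m : ℕ) :
    (A4B4_th V k m).comp ((psi V (k + 1)).app m) = (prKR V (k + 1)).app m := by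
  apply LinearMap.ext
  intro u
  have hu : u ∈ LinearMap.eqLocus ((A4B4_th V k m).comp ((psi V (k + 1)).app m))
      ((prKR V (k + 1)).app m) := by
    refine A4B4_gen V _ ?_ u
    intro α x
    rw [LinearMap.mem_eqLocus, LinearMap.comp_apply]
    by_cases h : ¬ Function.Surjective α ∨ ∃ i, x i = 0
    · rw [A4B4_th_FB V k m _ (A4B4_deg_psi V k m α x h)]
      show _ = (((linSub (bd (k + 1))).proj.app m (Finsupp.single α 1) : (KK (k + 1)).V m) ⊗ₜ[ZMod 2]
        ((RS.of V (k + 1)).app m x : (RS V (k + 1)).V m))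
      rcases h with h | h
      · have h1 : ((linSub (bd (k + 1))).proj.app m (Finsupp.single α 1) : (KK (k + 1)).V m) = 0 := by
          refine (Submodule.Quotient.mk_eq_zero _).2 ?_
          exact Finsupp.single_mem_supported _ _ h
        rw [h1, TensorProduct.zero_tmul]
      · have h1 : ((RS.of V (k + 1)).app m x : (RS V (k + 1)).V m) = 0 := quoOf_mem (VP0 V (k + 1)) h
        rw [h1, TensorProduct.tmul_zero]
    · push Not at h
      have h1 := A4B4_th_FB V k m _ (A4B4_psi V k m α x)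
      rw [map_add, A4B4_th_of, A4B4_g_phi V k m α x h.1 h.2] at h1
      have h2 := eq_neg_of_add_eq_zero_left h1
      rw [h2, neg_eq']
      rfl
  exact hu

theorem psi_inj (k m : ℕ) (u : ((lin (Del (k + 1))).tens (RS V (k + 1))).V m)
    (hu : (psi V (k + 1)).app m u ∈ FB V k m) : (prKR V (k + 1)).app m u = 0 := by
  rw [← A4B4_th_psi, LinearMap.comp_apply]
  exact A4B4_th_FB V k m _ hu

end MM
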