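import Pool.Agent.Lib_MP_33f7bb_d.A4E1

/-!
# A4-24: binary digits: finite subsets of `J × ℕ` and exponent functions

`betaF D j = ∑_(t : (j,t) ∈ D) 2^t`.  It is a bijection between finite subsets of `J × ℕ` and finitely supported functions `J → ℕ`
(for each `j`: finite sets of naturals = naturals by binary digits, `Finset.equivBitIndices`,
`Nat.twoPowSum_bitIndices`).
`count_main`: `∑_(k=1)^d #{e multiset on Orb n : card e = k, ∑ wtO = d - k}` = `#{e ≠ 0 : ∑_(b ∈ e) (wtO b + 1) = d}`
(disjoint union over `k = card e`, `1 ≤ k ≤ d`) = number of nonempty finite `D ⊆ Orb n × ℕ` with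
`∑_((b,t) ∈ D) 2^t (wtO b + 1) = d` (`betaF`, `Multiset.toFinsupp`) = number of nonempty finite subsets of
`Orb (n+1)` of total weight `d` (`orb_decomp`, `wtO_decomp`).
-/

namespace MM

/-- the exponent function of a finite set of pairs -/
noncomputable def betaF {J : Type} (D : Finset (J × ℕ)) : J →₀ ℕ :=
  ∑ x ∈ D, Finsupp.single x.1 (2 ^ x.2)

private theorem A4C4_apply {J : Type} (D : Finset (J × ℕ)) (j : J) :
    betaF D j = open Classical in ∑ t ∈ (D.filter (fun x => x.1 = j)).image Prod.snd, 2 ^ t := by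
  classical
  unfold betaF
  rw [Finsupp.finsetSum_apply, Finset.sum_image]
  · rw [Finset.sum_filter]
    refine Finset.sum_congr rfl fun x _ => ?_
    rw [Finsupp.single_apply]
  · rintro ⟨a, t⟩ h1 ⟨b, u⟩ h2 h
    have e1 : a = j := (Finset.mem_filter.1 h1).2
    have e2 : b = j := (Finset.mem_filter.1 h2).2
    have e3 : t = u := h
    rw [e1, e2, e3]

private theorem A4C4_mem {J : Type} (D : Finset (J × ℕ)) (j : J) (t : ℕ) :
    (j, t) ∈ D ↔ t ∈ (betaF D j).bitIndices.toFinset := by
  classical
  rw [A4C4_apply, Finset.toFinset_bitIndices_sum_two_pow, Finset.mem_image]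
  constructor
  · exact fun h => ⟨(j, t), Finset.mem_filter.2 ⟨h, rfl⟩, rfl⟩
  · rintro ⟨⟨a, u⟩, h, rfl⟩
    obtain ⟨h1, h2⟩ := Finset.mem_filter.1 h
    have h3 : a = j := h2
    rw [← h3]
    exact h1

theorem betaF_bijective {J : Type} : Function.Bijective (betaF : Finset (J × ℕ) → J →₀ ℕ) := by
  classical
  constructor
  · intro D D' h
    ext ⟨j, t⟩
    rw [A4C4_mem, A4C4_mem, h]
  · intro f
    refine ⟨f.support.biUnion (fun j => (f j).bitIndices.toFinset.image (fun t => (j, t))), ?_⟩
    ext j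
    rw [A4C4_apply]
    have h : ((f.support.biUnion (fun j => (f j).bitIndices.toFinset.image (fun t => (j, t)))).filter
        (fun x => x.1 = j)).image Prod.snd = (f j).bitIndices.toFinset := by
      ext t
      rw [Finset.mem_image]
      constructor
      · rintro ⟨⟨a, u⟩, h, rfl⟩
        obtain ⟨h1, h2⟩ := Finset.mem_filter.1 h
        have h3 : a = j := h2
        obtain ⟨b, hb, h4⟩ := Finset.mem_biUnion.1 h1
        obtain ⟨v, hv, h5⟩ := Finset.mem_image.1 h4
        obtain ⟨rfl, rfl⟩ := Prod.mk.inj h5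
        rw [← h3]
        exact hv
      · intro ht
        refine ⟨(j, t), Finset.mem_filter.2 ⟨Finset.mem_biUnion.2 ⟨j, ?_, Finset.mem_image.2
          ⟨t, ht, rfl⟩⟩, rfl⟩, rfl⟩
        rw [Finsupp.mem_support_iff]
        intro h0
        rw [h0] at ht
        simp at ht
    rw [h]
    exact Finset.sum_toFinset_bitIndices_two_pow _

theorem betaF_sum {J : Type} (w : J → ℕ) (D : Finset (J × ℕ)) :
    (betaF D).sum (fun j k => k * w j) = ∑ x ∈ D, 2 ^ x.2 * w x.1 := by
  unfold betaF
  rw [← Finsupp.sum_finsetSum_index (fun a => zero_mul _) (fun a b c => add_mul _ _ _)]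
  refine Finset.sum_congr rfl fun x _ => ?_
  rw [Finsupp.sum_single_index (zero_mul _)]

theorem betaF_prod {J R : Type} [CommMonoid R] (z : J → R) (D : Finset (J × ℕ)) :
    (betaF D).prod (fun j k => z j ^ k) = ∏ x ∈ D, z x.1 ^ 2 ^ x.2 := by
  unfold betaF
  rw [← Finsupp.prod_finsetSum_index (fun a => pow_zero _) (fun a b c => pow_add _ _ _)]
  refine Finset.prod_congr rfl fun x _ => ?_
  exact Finsupp.prod_single_index (h := fun j k => z j ^ k) (pow_zero _)

theorem multiset_fin {J : Type} (w : J → ℕ) (hw : ∀ d, {j | w j ≤ d}.Finite) (k p : ℕ) :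
    {e : Multiset J | Multiset.card e = k ∧ (e.map w).sum = p}.Finite := by
  have h1 : {b : Fin k → J | ∀ i, b i ∈ {j | w j ≤ p}}.Finite := Set.Finite.pi' fun _ => hw p
  refine (h1.image (fun b => Finset.univ.val.map b)).subset ?_
  rintro e ⟨he, hs⟩
  induction e using Quotient.inductionOn with
  | _ l =>
    have hl : l.length = k := he
    subst hl
    have hmap : Finset.univ.val.map l.get = (l : Multiset J) := by
      rw [Fin.univ_val_map, List.ofFn_get]
    refine ⟨l.get, fun i => ?_, hmap⟩
    show w (l.get i) ≤ p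
    have hs' : ((l : Multiset J).map w).sum = p := hs
    rw [← hs']
    refine Multiset.single_le_sum (fun _ _ => Nat.zero_le _) _ ?_
    exact Multiset.mem_map_of_mem w (List.get_mem l i)

theorem finset_orb_fin (n d : ℕ) :
    {D : Finset (Orb n) | ∑ b ∈ D, wtO b = d}.Finite := by
  classical
  refine ((wtO_fin (n := n) d).toFinset.powerset.finite_toSet).subset ?_
  intro D hD
  have hD' : ∑ b ∈ D, wtO b = d := hD
  rw [Finset.mem_coe, Finset.mem_powerset]
  intro b hb
  rw [Set.Finite.mem_toFinset]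
  show wtO b ≤ d
  rw [← hD']
  exact Finset.single_le_sum (f := wtO) (fun _ _ => Nat.zero_le _) hb

private theorem A4C4_toM {J : Type} (w : J → ℕ) (f : J →₀ ℕ) :
    ((Finsupp.toMultiset f).map w).sum = f.sum (fun j k => k * w j) := by
  induction f using Finsupp.induction_linear with
  | zero => simp
  | add f g hf hg =>
    rw [Finsupp.toMultiset_add, Multiset.map_add, Multiset.sum_add, hf, hg,
      Finsupp.sum_add_index' (fun a => zero_mul _) (fun a b c => add_mul _ _ _)]
  | single a b =>
    rw [Finsupp.toMultiset_single, Finsupp.sum_single_index (zero_mul _), Multiset.map_nsmul,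
      Multiset.map_singleton, Multiset.sum_nsmul, Multiset.sum_singleton, smul_eq_mul]

private theorem A4C4_toM_bij {J : Type} :
    Function.Bijective (Finsupp.toMultiset : (J →₀ ℕ) → Multiset J) := by
  classical
  have h : (Finsupp.toMultiset : (J →₀ ℕ) → Multiset J) = Multiset.toFinsupp.symm := by
    funext f
    rw [Multiset.toFinsupp_symm_apply]
  rw [h]
  exact Multiset.toFinsupp.symm.bijective

private theorem A4C4_wt1 {J : Type} (w : J → ℕ) (e : Multiset J) :
    (e.map (fun b => w b + 1)).sum = (e.map w).sum + Multiset.card e := by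
  rw [Multiset.sum_map_add, Multiset.map_const', Multiset.sum_replicate, smul_eq_mul, mul_one]

/-- all multisets with the right weight -/
private theorem A4C4_left {J : Type} (w : J → ℕ) (hw : ∀ d, {j | w j ≤ d}.Finite) (d : ℕ) :
    ∑ k ∈ Finset.Icc 1 d, {e : Multiset J | Multiset.card e = k ∧ (e.map w).sum = d - k}.ncard =
      {e : Multiset J | e ≠ 0 ∧ (e.map (fun b => w b + 1)).sum = d}.ncard := by
  classical
  have hA : {e : Multiset J | e ≠ 0 ∧ (e.map (fun b => w b + 1)).sum = d}.Finite := by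
    refine (Set.Finite.biUnion (Finset.finite_toSet (Finset.Icc 1 d))
      fun k _ => multiset_fin w hw k (d - k)).subset ?_
    rintro e ⟨he, hs⟩
    rw [A4C4_wt1] at hs
    have h1 : 0 < Multiset.card e := Multiset.card_pos.2 he
    refine Set.mem_iUnion₂.2 ⟨Multiset.card e, ?_, rfl, ?_⟩
    · rw [Finset.mem_coe, Finset.mem_Icc]
      omega
    · omega
  rw [Set.ncard_eq_toFinset_card _ hA]
  have hmaps : ∀ e ∈ hA.toFinset, Multiset.card e ∈ Finset.Icc 1 d := by
    intro e he
    obtain ⟨he1, hs⟩ := (Set.Finite.mem_toFinset hA).1 he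
    rw [A4C4_wt1] at hs
    have h1 : 0 < Multiset.card e := Multiset.card_pos.2 he1
    rw [Finset.mem_Icc]
    omega
  rw [Finset.card_eq_sum_card_fiberwise (f := Multiset.card) (t := Finset.Icc 1 d) hmaps]
  refine Finset.sum_congr rfl fun k hk => ?_
  rw [Finset.mem_Icc] at hk
  rw [← Set.ncard_coe_finset]
  congr 1
  ext e
  rw [Finset.mem_coe, Finset.mem_filter, Set.Finite.mem_toFinset]
  constructor
  · rintro ⟨h1, h2⟩
    refine ⟨⟨?_, ?_⟩, h1⟩
    · rintro rfl
      rw [Multiset.card_zero] at h1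
      omega
    · rw [A4C4_wt1, h2, h1]
      omega
  · rintro ⟨⟨h1, h2⟩, h3⟩
    rw [A4C4_wt1, h3] at h2
    exact ⟨h3, by omega⟩

theorem count_main (n d : ℕ) :
    ∑ k ∈ Finset.Icc 1 d, {e : Multiset (Orb n) | Multiset.card e = k ∧
        (e.map wtO).sum = d - k}.ncard =
      {D : Finset (Orb (n + 1)) | D.Nonempty ∧ ∑ b ∈ D, wtO b = d}.ncard := by
  classical
  rw [A4C4_left wtO wtO_fin d]
  set B : Set (Finset (Orb n × ℕ)) :=
    {D | D.Nonempty ∧ ∑ x ∈ D, 2 ^ x.2 * (wtO x.1 + 1) = d} with hB
  have h1 : {e : Multiset (Orb n) | e ≠ 0 ∧ (e.map (fun b => wtO b + 1)).sum = d} =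
      (fun D => Finsupp.toMultiset (betaF D)) '' B := by
    ext e
    constructor
    · rintro ⟨he, hs⟩
      obtain ⟨f, rfl⟩ := (A4C4_toM_bij (J := Orb n)).2 e
      obtain ⟨D, rfl⟩ := (betaF_bijective (J := Orb n)).2 f
      refine ⟨D, ⟨?_, ?_⟩, rfl⟩
      · rw [Finset.nonempty_iff_ne_empty]
        rintro rfl
        apply he
        show Finsupp.toMultiset (betaF ∅) = 0
        unfold betaF
        rw [Finset.sum_empty, Finsupp.toMultiset_zero]
      · rw [A4C4_toM, betaF_sum (fun b => wtO b + 1)] at hs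
        exact hs
    · rintro ⟨D, ⟨hD, hs⟩, rfl⟩
      refine ⟨?_, ?_⟩
      · intro h
        have h' : Finsupp.toMultiset (betaF D) = 0 := h
        have h2 : Finsupp.toMultiset (betaF D) = Finsupp.toMultiset (betaF ∅) := by
          rw [h']
          unfold betaF
          rw [Finset.sum_empty, Finsupp.toMultiset_zero]
        have h3 := (betaF_bijective (J := Orb n)).1 ((A4C4_toM_bij (J := Orb n)).1 h2)
        rw [h3] at hD
        exact Finset.not_nonempty_empty hD
      · rw [A4C4_toM, betaF_sum (fun b => wtO b + 1)]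
        exact hs
  have h2 : {D : Finset (Orb (n + 1)) | D.Nonempty ∧ ∑ b ∈ D, wtO b = d} =
      (Finset.map ⟨_, (orb_decomp (n := n)).1⟩) '' B := by
    ext D
    constructor
    · rintro ⟨hD, hs⟩
      refine ⟨D.preimage (fun x : Orb n × ℕ => shiftO^[x.2] (consO x.1))
        ((orb_decomp (n := n)).1.injOn), ?_, ?_⟩
      swap
      · ext a
        rw [Finset.mem_map]
        constructor
        · rintro ⟨x, hx, rfl⟩
          exact Finset.mem_preimage.1 hx
        · intro ha
          obtain ⟨x, rfl⟩ := (orb_decomp (n := n)).2 a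
          exact ⟨x, Finset.mem_preimage.2 ha, rfl⟩
      · refine ⟨?_, ?_⟩
        · obtain ⟨a, ha⟩ := hD
          obtain ⟨x, rfl⟩ := (orb_decomp (n := n)).2 a
          exact ⟨x, Finset.mem_preimage.2 ha⟩
        · rw [← hs, ← Finset.sum_preimage_of_bij (fun x : Orb n × ℕ => shiftO^[x.2] (consO x.1)) D
            ⟨fun x hx => hx, (orb_decomp (n := n)).1.injOn, fun a ha => by
              obtain ⟨x, rfl⟩ := (orb_decomp (n := n)).2 a
              exact ⟨x, ha, rfl⟩⟩ wtO]
          refine Finset.sum_congr rfl fun x _ => ?_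
          rw [wtO_decomp]
    · rintro ⟨D, ⟨hD, hs⟩, rfl⟩
      refine ⟨hD.map, ?_⟩
      rw [Finset.sum_map, ← hs]
      refine Finset.sum_congr rfl fun x _ => ?_
      exact wtO_decomp x.1 x.2
  rw [h1, h2, Set.ncard_image_of_injective, Set.ncard_image_of_injective]
  · exact Finset.map_injective _
  · exact (A4C4_toM_bij (J := Orb n)).1.comp (betaF_bijective (J := Orb n)).1

end MM
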