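import Pool.Agent.Lib_MP_33f7bb_d.A4C3
import Pool.Agent.Lib_MP_33f7bb_d.A4C4

/-!
# A4-25: the second page of the bar spectral sequence (pure linear algebra)

`H k` (`k ≥ 0`) vector spaces with bases `Y k L`, `L` a list of nonempty finite subsets of `J` of length `k` and total weight
`p`, and maps `δ k : H (k+1) → H k` given by the differential `dlc` of lists.  Then the cycles of `H (k+1)` are boundaries plus
the span of the elements `Y (zet e)`, `card e = k + 1`, weight `p`.

Proof.  `x = ∑ c_L Y L` with `c` supported on lists of length `k+1` and weight `p` (`hspan`).  `δ x = ∑ (dlL c)_M Y M`, and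
`dlL c` is supported on lists of length `k` and weight `p` (`dl_terms`), so `dlL c = 0` by independence (`hli`).
Decompose `c = ∑_e c_e` by types (finitely many `e = ty L`, `L` in the support); the differential preserves the type, so
`dlL c_e = 0` for each `e` (compare coefficients at `M` with `ty M = e`).  `card e ≥ k + 1` (`length_le_ty`).  If `card e > k + 1`
then `c_e = dlL b_e` with `b_e` of length `k + 2` and type `e` (`bar_exact`), so `∑ (c_e)_L Y L = δ (∑ (b_e)_L Y L)`.  If
`card e = k + 1`: `c_e = r • zet e` (`bar_span`).  `T` = the set of all `∑ (zet e)_L Y L`, `e` in the finite set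
(`multiset_fin`) of multisets with `k + 1` elements and weight `p`.
`LA_rel`: let `S = {e ∈ span T | ∃ z ∈ Z, R z e}` (a subspace, `R` is additive and contains `(0,0)`, scalars are `0, 1`);
choose a basis `e_1, …, e_r` of `S`, `r ≤ card T` (`finrank_span_finset_le_card`, `Submodule.finrank_mono`), and `z_j ∈ Z` with `R z_j e_j`;
`T' = {z_j}`.  For `z ∈ Z`, `R z e`, `e = ∑ λ_j e_j`: `R (z + ∑ λ_j z_j) 0` (as `e + e = 0`), so `z + ∑ λ_j z_j ∈ Z₁`.
-/

namespace MM

/-- the weight of a list -/
def lwt {J : Type} [DecidableEq J] (w : J → ℕ) (L : List (NE J)) : ℕ := ((ty L).map w).sum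

private theorem A4C5_two {M : Type*} [AddCommGroup M] [Module (ZMod 2) M] (x : M) : x + x = 0 := by
  have : (2 : ZMod 2) • x = 0 := by
    have h : (2 : ZMod 2) = 0 := rfl
    rw [h, zero_smul]
  rwa [two_smul] at this

private theorem A4C5_dlL_apply {J : Type} [DecidableEq J] (c : LC J) (M : List (NE J)) :
    dlL c M = c.sum fun L r => r * dlc L M := by
  unfold dlL
  rw [Finsupp.linearCombination_apply, Finsupp.sum, Finsupp.finsetSum_apply]
  rfl

private theorem A4C5_term {J : Type} [DecidableEq J] {c : LC J} {M : List (NE J)}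
    (h : dlL c M ≠ 0) : ∃ L, c L ≠ 0 ∧ ty M = ty L ∧ M.length + 1 = L.length := by
  rw [A4C5_dlL_apply] at h
  by_contra hne
  apply h
  refine Finset.sum_eq_zero fun L hL => ?_
  have hc : c L ≠ 0 := Finsupp.mem_support_iff.1 hL
  by_cases hd : dlc L M = 0
  · show c L * dlc L M = 0
    rw [hd, mul_zero]
  · exact absurd ⟨L, hc, (dl_terms hd).1, (dl_terms hd).2⟩ hne

private theorem A4C5_filter {J : Type} [DecidableEq J] (e : Multiset J) (c : LC J)
    (hd : dlL c = 0) : dlL (c.filter fun L => ty L = e) = 0 := by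
  ext M
  rw [A4C5_dlL_apply, Finsupp.coe_zero, Pi.zero_apply]
  by_cases hM : ty M = e
  · have h1 := congrArg (fun x : LC J => x M) hd
    simp only [Finsupp.coe_zero, Pi.zero_apply] at h1
    rw [A4C5_dlL_apply] at h1
    rw [← h1]
    rw [Finsupp.sum, Finsupp.sum, Finsupp.support_filter, Finset.sum_filter]
    refine Finset.sum_congr rfl fun L _ => ?_
    by_cases hL : ty L = e
    · rw [if_pos hL, Finsupp.filter_apply_pos (fun L => ty L = e) _ hL]
    · rw [if_neg hL]
      by_cases hdl : dlc L M = 0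
      · rw [hdl, mul_zero]
      · exact absurd ((dl_terms hdl).1.symm.trans hM) hL
  · refine Finset.sum_eq_zero fun L hL => ?_
    have hL' : ty L = e := by
      rw [Finsupp.support_filter, Finset.mem_filter] at hL
      exact hL.2
    by_cases hdl : dlc L M = 0
    · show _ * dlc L M = 0
      rw [hdl, mul_zero]
    · exact absurd ((dl_terms hdl).1.trans hL') hM

private theorem A4C5_decomp {J : Type} [DecidableEq J] (c : LC J) :
    c = ∑ e ∈ c.support.image ty, c.filter fun L => ty L = e := by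
  ext M
  rw [Finsupp.finsetSum_apply]
  by_cases hM : c M = 0
  · rw [hM]
    symm
    refine Finset.sum_eq_zero fun e _ => ?_
    by_cases h : ty M = e
    · rw [Finsupp.filter_apply_pos (fun L => ty L = e) _ h, hM]
    · rw [Finsupp.filter_apply_neg (fun L => ty L = e) _ h]
  · rw [Finset.sum_eq_single (ty M)]
    · rw [Finsupp.filter_apply_pos (fun L => ty L = ty M) _ rfl]
    · intro e _ he
      exact Finsupp.filter_apply_neg (fun L => ty L = e) _ (fun h => he h.symm)
    · intro h
      exact absurd (Finset.mem_image_of_mem ty (Finsupp.mem_support_iff.2 hM)) h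

theorem E2_bound {J : Type} [DecidableEq J] (w : J → ℕ) (hw : ∀ d, {j | w j ≤ d}.Finite) (p : ℕ)
    (H : ℕ → Type) [∀ k, AddCommGroup (H k)] [∀ k, Module (ZMod 2) (H k)]
    (δ : ∀ k, H (k + 1) →ₗ[ZMod 2] H k) (Y : ∀ k, List (NE J) → H k)
    (hli : ∀ (k : ℕ) (c : LC J), (∀ L, c L ≠ 0 → L.length = k ∧ lwt w L = p) →
      (c.sum fun L r => r • Y k L) = 0 → c = 0)
    (hspan : ∀ (k : ℕ) (x : H k), ∃ c : LC J, (∀ L, c L ≠ 0 → L.length = k ∧ lwt w L = p) ∧
      (c.sum fun L r => r • Y k L) = x)
    (hδ : ∀ (k : ℕ) (L : List (NE J)), L.length = k + 1 → lwt w L = p →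
      δ k (Y (k + 1) L) = (dlc L).sum fun M r => r • Y k M) (k : ℕ) :
    ∃ T : Finset (H (k + 1)),
      T.card ≤ {e : Multiset J | Multiset.card e = k + 1 ∧ (e.map w).sum = p}.ncard ∧
      ∀ x, δ k x = 0 → x ∈ LinearMap.range (δ (k + 1)) ⊔ Submodule.span (ZMod 2) (T : Set (H (k + 1))) := by
  classical
  have hfin := multiset_fin w hw (k + 1) p
  have key : ∀ (k : ℕ) (c : LC J), (∀ L, c L ≠ 0 → L.length = k + 1 ∧ lwt w L = p) →
      δ k (Finsupp.linearCombination (ZMod 2) (Y (k + 1)) c) =
        Finsupp.linearCombination (ZMod 2) (Y k) (dlL c) := by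
    intro k c hc
    have e1 : dlL c = ∑ L ∈ c.support, c L • dlc L := by
      unfold dlL
      rw [Finsupp.linearCombination_apply]
      rfl
    rw [e1, map_sum, Finsupp.linearCombination_apply, Finsupp.sum, map_sum]
    refine Finset.sum_congr rfl fun L hL => ?_
    have hcL := hc L (Finsupp.mem_support_iff.1 hL)
    rw [map_smul, map_smul, hδ k L hcL.1 hcL.2, Finsupp.linearCombination_apply]
  refine ⟨hfin.toFinset.image fun e => Finsupp.linearCombination (ZMod 2) (Y (k + 1)) (zet e),
    ?_, ?_⟩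
  · refine Finset.card_image_le.trans (le_of_eq ?_)
    rw [Set.ncard_eq_toFinset_card _ hfin]
  · intro x hx
    obtain ⟨c, hc, rfl⟩ := hspan (k + 1) x
    have hx' : Finsupp.linearCombination (ZMod 2) (Y k) (dlL c) = 0 := by
      rw [← key k c hc]
      exact hx
    have hdc : dlL c = 0 := by
      refine hli k (dlL c) ?_ hx'
      intro M hM
      obtain ⟨L, hL, h1, h2⟩ := A4C5_term hM
      obtain ⟨h3, h4⟩ := hc L hL
      refine ⟨by omega, ?_⟩
      unfold lwt at h4 ⊢
      rw [h1]
      exact h4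
    have hx2 : (c.sum fun L r => r • Y (k + 1) L) =
        ∑ e ∈ c.support.image ty, Finsupp.linearCombination (ZMod 2) (Y (k + 1))
          (c.filter fun L => ty L = e) := by
      rw [← map_sum, ← A4C5_decomp]
      rfl
    rw [hx2]
    refine Submodule.sum_mem _ fun e he => ?_
    obtain ⟨L0, hL0, hL0e⟩ := Finset.mem_image.1 he
    have hcL0 := hc L0 (Finsupp.mem_support_iff.1 hL0)
    have hwe : (e.map w).sum = p := by
      rw [← hL0e]
      exact hcL0.2
    have hce : k + 1 ≤ Multiset.card e := by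
      have h := length_le_ty L0
      rw [hL0e, hcL0.1] at h
      exact h
    have hIn : InC e (k + 1) (c.filter fun L => ty L = e) := by
      intro L hL
      by_cases h : ty L = e
      · rw [Finsupp.filter_apply_pos (fun L => ty L = e) _ h] at hL
        exact ⟨h, (hc L hL).1⟩
      · exact absurd (Finsupp.filter_apply_neg (fun L => ty L = e) _ h) hL
    have hde := A4C5_filter e c hdc
    rcases Nat.lt_or_ge (k + 1) (Multiset.card e) with hlt | hge
    · obtain ⟨b, hb, hbd⟩ := bar_exact e (k + 1) hlt _ hIn hde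
      refine Submodule.mem_sup_left ?_
      rw [← hbd, ← key (k + 1) b ?_]
      · exact LinearMap.mem_range_self _ _
      · intro L hL
        obtain ⟨h1, h2⟩ := hb L hL
        refine ⟨h2, ?_⟩
        unfold lwt
        rw [h1]
        exact hwe
    · have hcard : Multiset.card e = k + 1 := le_antisymm hge hce
      obtain ⟨r, hr⟩ := bar_span e (c.filter fun L => ty L = e) (by rw [hcard]; exact hIn) hde
      refine Submodule.mem_sup_right ?_
      rw [hr, map_smul]
      refine Submodule.smul_mem _ _ (Submodule.subset_span ?_)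
      refine Finset.mem_coe.2 (Finset.mem_image.2 ⟨e, ?_, rfl⟩)
      rw [Set.Finite.mem_toFinset]
      exact ⟨hcard, hwe⟩

private theorem A4C5_R_sum {A E ι : Type} [AddCommGroup A] [Module (ZMod 2) A] [AddCommGroup E]
    [Module (ZMod 2) E] (R : A → E → Prop) (h00 : R 0 0)
    (hadd : ∀ a e a' e', R a e → R a' e' → R (a + a') (e + e')) (s : Finset ι) (l : ι → ZMod 2)
    (z : ι → A) (e : ι → E) (h : ∀ j, R (z j) (e j)) :
    R (∑ j ∈ s, l j • z j) (∑ j ∈ s, l j • e j) := by
  classical
  induction s using Finset.induction_on with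
  | empty => simpa using h00
  | insert a s ha ih =>
    rw [Finset.sum_insert ha, Finset.sum_insert ha]
    refine hadd _ _ _ _ ?_ ih
    have h2 : ∀ c : ZMod 2, c = 0 ∨ c = 1 := by decide
    rcases h2 (l a) with h' | h'
    · rw [h', zero_smul, zero_smul]
      exact h00
    · rw [h', one_smul, one_smul]
      exact h a

theorem LA_rel {A E : Type} [AddCommGroup A] [Module (ZMod 2) A] [AddCommGroup E]
    [Module (ZMod 2) E] (Z Z₁ : Submodule (ZMod 2) A) (R : A → E → Prop)
    (h00 : R 0 0) (hadd : ∀ a e a' e', R a e → R a' e' → R (a + a') (e + e'))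
    (T : Finset E) (h1 : ∀ z ∈ Z, ∃ e ∈ Submodule.span (ZMod 2) (T : Set E), R z e)
    (h0 : ∀ z ∈ Z, R z 0 → z ∈ Z₁) :
    ∃ T' : Finset A, T'.card ≤ T.card ∧ Z ≤ Z₁ ⊔ Submodule.span (ZMod 2) (T' : Set A) := by
  classical
  let S : Submodule (ZMod 2) E :=
    { carrier := {e | e ∈ Submodule.span (ZMod 2) (T : Set E) ∧ ∃ z ∈ Z, R z e}
      add_mem' := by
        rintro e e' ⟨he, z, hz, hR⟩ ⟨he', z', hz', hR'⟩
        exact ⟨Submodule.add_mem _ he he', z + z', Z.add_mem hz hz', hadd _ _ _ _ hR hR'⟩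
      zero_mem' := ⟨Submodule.zero_mem _, 0, Z.zero_mem, h00⟩
      smul_mem' := by
        rintro c e ⟨he, z, hz, hR⟩
        have h2 : ∀ c : ZMod 2, c = 0 ∨ c = 1 := by decide
        rcases h2 c with rfl | rfl
        · rw [zero_smul]
          exact ⟨Submodule.zero_mem _, 0, Z.zero_mem, h00⟩
        · rw [one_smul]
          exact ⟨he, z, hz, hR⟩ }
  have hST : S ≤ Submodule.span (ZMod 2) (T : Set E) := fun e he => he.1
  have : Module.Finite (ZMod 2) (Submodule.span (ZMod 2) (T : Set E)) :=
    Module.Finite.span_finset _ T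
  have : Module.Finite (ZMod 2) S := Submodule.finiteDimensional_of_le hST
  have hr : Module.finrank (ZMod 2) S ≤ T.card :=
    (Submodule.finrank_mono hST).trans (finrank_span_finset_le_card T)
  have b := Module.finBasis (ZMod 2) S
  have hz : ∀ j, ∃ z ∈ Z, R z ((b j : S) : E) := fun j => (b j).2.2
  choose z hzZ hzR using hz
  refine ⟨Finset.univ.image z, ?_, ?_⟩
  · refine Finset.card_image_le.trans ?_
    rw [Finset.card_univ, Fintype.card_fin]
    exact hr
  · intro x hx
    obtain ⟨e, he, hRe⟩ := h1 x hx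
    have heS : e ∈ S := ⟨he, x, hx, hRe⟩
    have hsum : ∑ j, b.repr ⟨e, heS⟩ j • ((b j : S) : E) = e := by
      have h := b.sum_repr ⟨e, heS⟩
      have h' := congrArg S.subtype h
      rw [map_sum] at h'
      simp only [map_smul, Submodule.subtype_apply] at h'
      exact h'
    have hR := A4C5_R_sum R h00 hadd Finset.univ (fun j => b.repr ⟨e, heS⟩ j) z
      (fun j => ((b j : S) : E)) hzR
    rw [hsum] at hR
    have hzm : ∑ j, b.repr ⟨e, heS⟩ j • z j ∈ Z :=
      Submodule.sum_mem _ fun j _ => Submodule.smul_mem _ _ (hzZ j)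
    have hzT : ∑ j, b.repr ⟨e, heS⟩ j • z j ∈
        Submodule.span (ZMod 2) ((Finset.univ.image z : Finset A) : Set A) :=
      Submodule.sum_mem _ fun j _ => Submodule.smul_mem _ _ (Submodule.subset_span
        (Finset.mem_coe.2 (Finset.mem_image_of_mem z (Finset.mem_univ j))))
    have h2 := hadd _ _ _ _ hRe hR
    rw [A4C5_two e] at h2
    have h3 := h0 _ (Z.add_mem hx hzm) h2
    have h4 : x = (x + ∑ j, b.repr ⟨e, heS⟩ j • z j) + ∑ j, b.repr ⟨e, heS⟩ j • z j := by
      rw [add_assoc, A4C5_two, add_zero]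
    rw [h4]
    exact Submodule.add_mem _ (Submodule.mem_sup_left h3) (Submodule.mem_sup_right hzT)

/-- iterating `LA_rel`: bound of the dimension -/
theorem LA_iter {A : Type} [AddCommGroup A] [Module (ZMod 2) A] (Z : ℕ → Submodule (ZMod 2) A)
    (h0 : Z 0 = ⊥) (N : ℕ → ℕ) (d : ℕ)
    (h : ∀ k < d, ∃ T' : Finset A, T'.card ≤ N (k + 1) ∧
      Z (k + 1) ≤ Z k ⊔ Submodule.span (ZMod 2) (T' : Set A)) (htop : Z d = ⊤) :
    Module.Finite (ZMod 2) A ∧ Module.finrank (ZMod 2) A ≤ ∑ k ∈ Finset.Icc 1 d, N k := by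
  classical
  have key : ∀ j ≤ d, ∃ T : Finset A, T.card ≤ ∑ k ∈ Finset.Icc 1 j, N k ∧
      Z j ≤ Submodule.span (ZMod 2) (T : Set A) := by
    intro j
    induction j with
    | zero =>
      intro _
      refine ⟨∅, by simp, ?_⟩
      rw [h0]
      exact bot_le
    | succ j ih =>
      intro hj
      obtain ⟨T, hT, hZ⟩ := ih (by omega)
      obtain ⟨T', hT', hZ'⟩ := h j (by omega)
      refine ⟨T ∪ T', ?_, ?_⟩
      · have h1 := Finset.card_union_le T T'
        have h2 : ∑ k ∈ Finset.Icc 1 (j + 1), N k = ∑ k ∈ Finset.Icc 1 j, N k + N (j + 1) :=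
          Finset.sum_Icc_succ_top (by omega) N
        omega
      · rw [Finset.coe_union, Submodule.span_union]
        exact hZ'.trans (sup_le_sup_right hZ _)
  obtain ⟨T, hT, hZ⟩ := key d le_rfl
  rw [htop] at hZ
  have hspan : Submodule.span (ZMod 2) (T : Set A) = ⊤ := top_le_iff.1 hZ
  refine ⟨⟨⟨T, hspan⟩⟩, ?_⟩
  have h1 := finrank_span_finset_le_card (R := ZMod 2) T
  have h2 : Set.finrank (ZMod 2) (T : Set A) = Module.finrank (ZMod 2) A := by
    unfold Set.finrank
    rw [hspan, finrank_top]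
  rw [h2] at h1
  exact h1.trans hT

end MM
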