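import Pool.Agent.Lib_MP_33f7bb_d.A4B4
import Pool.Agent.Lib_MP_33f7bb_d.A4C5
import Pool.Agent.Lib_MP_33f7bb_d.A015

/-!
# A4-B5: the bar spectral sequence, one step

`cc V k n y = psi (ι_k × y)`, `ι_k` = the identity simplex of `Δ^k`, `y` of level `p`, `k + p = n`.
`d_cc`: Leibniz (`d_crs`), `d ι_(k+1) = ∑_i [dlt i] = ∑_i (dlt i)_* ι_k`, naturality of `crs` (`crs_map` for the linear simplicial map
`F[Δ^k] → F[Δ^(k+1)]` induced by `dlt i`, tensor the identity), and `psi_faces` applied to all terms of `crs n ι_k y`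
(`= ∑ act a ι_k ⊗ act b y`, `act a ι_k = [a]`); naturality of `pmD`.

`bar_step`.  Apply `LA_rel` with `Z = HF V d (k+1)`, `Z₁ = HF V d k`, `T` and the relation
`R h η` : there are a cycle `z ∈ FB V (k+1) d` representing `h`, a cycle `y ∈ (RS V (k+1)).Z p`, `w ∈ FB V (k+1) (d+1)` with
`z + cc y + d w ∈ FB V k d` and `[y] + η ∈ range (H (pmD (k+1)))`.
(h1): `h = [z]`, `z ∈ FB V (k+1) d` a cycle.  `psi_surj`: `z + psi u ∈ FB V k d`.  `d (psi u) ≡ 0` modulo `FB V k`, so `prKR u` is a cycle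
of `KK (k+1) ⊗ RS` (`psi_inj` for `d u`).  `KK_tens_surj`: `prKR u + iota × y = d w'`, `y` a cycle of level `p`.  Lift `w'` to `w''` (`prKR` is
surjective): `prKR (u + ι × y + d w'') = 0`, so `psi u + cc y + d (psi w'') ∈ FB V k d` (`psi_ker`); `w = psi w''`:
`z + cc y + d w ∈ FB V k d`.  Apply `d`: `d z = 0`, so `d (cc y) = cc (pmD y) ∈ FB V (k-1)` modulo boundaries: precisely
`r = z + cc y + d w ∈ FB V k d` and `d r = cc V k (d-1) (pmD y)`.  If `k = 0`: `RS V 0`: the hypothesis `H(pmD V 0) [y] = 0` holds because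
`pmD V 0 = 0` (empty sum).  If `k = k' + 1`: `r ∈ FB V (k'+1) d`, so `r + psi u' ∈ FB V k' d` (`psi_surj`), hence
`psi (ι_k × pmD y + d u') ∈ FB V k' (d-1)`, so by `psi_inj` `iota × pmD y + d (prKR u') = 0`, and `KK_tens_inj` gives
`pmD y ∈ (RS V k).B p`, i.e. `H(pmD) [y] = 0`.  Now `hT`: `[y] = H(pmD (k+1)) ξ + η`, `η ∈ span T`: `R h η`.
(h0): `R h 0`: `[y] = H(pmD (k+1)) [x]`, `x` a cycle of `RS V (k+2)`: `y = pmD x + d v`.  `d (cc x) = cc (pmD x)` and
`d (cc v) = cc (pmD v) + cc (d v)`, so `z + d (w + cc x + cc v) ∈ FB V k d` (`cc V k (..) (pmD v) ∈ FB V k`): a cycle in `FB V k d` representing `h`.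
Additivity of `R` is clear.
-/

open scoped TensorProduct

namespace MM

variable (V : SV)

/-- the chain maps from the smash powers to the bar construction -/
noncomputable def cc (k n : ℕ) {p : ℕ} (y : (RS V k).V p) : (RB V).V n :=
  (psi V k).app n (crs n (Finsupp.single (OrderHom.id : Mo k k) 1 : Ch (Del k) k) y)

theorem cc_mem_FB (k n : ℕ) {p : ℕ} (y : (RS V k).V p) : cc V k n y ∈ FB V k n :=
  psi_mem_FB V k n _

theorem cc_add (k n : ℕ) {p : ℕ} (y y' : (RS V k).V p) :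
    cc V k n (y + y') = cc V k n y + cc V k n y' := by
  unfold cc
  rw [crs_add_right, map_add]

private theorem A4B5_cc_zero (k n : ℕ) {p : ℕ} : cc V k n (0 : (RS V k).V p) = 0 := by
  have h := cc_add V k n (0 : (RS V k).V p) 0
  rw [add_zero] at h
  exact left_eq_add.1 h

private theorem A4B5_act (k m : ℕ) (a : Mo m k) :
    (lin (Del k)).act a (Finsupp.single (OrderHom.id : Mo k k) 1 : Ch (Del k) k) =
      (Finsupp.single a 1 : Ch (Del k) m) := by
  show Finsupp.mapDomain ((Del k).act a) (Finsupp.single (OrderHom.id : Mo k k) 1) = _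
  rw [Finsupp.mapDomain_single]
  rfl

private theorem A4B5_d_iota (k : ℕ) :
    (lin (Del (k + 1))).d k (Finsupp.single (OrderHom.id : Mo (k + 1) (k + 1)) 1 :
      Ch (Del (k + 1)) (k + 1)) = ∑ i : Fin (k + 2), (Finsupp.single (dlt i) 1 : Ch (Del (k + 1)) k) := by
  rw [SV.d, LinearMap.sum_apply]
  exact Finset.sum_congr rfl fun i _ => A4B5_act (k + 1) k (dlt i)

private theorem A4B5_faces (k N : ℕ) {p : ℕ} (y : (RS V (k + 1)).V p) :
    (psi V (k + 1)).app N (crs N ((lin (Del (k + 1))).d k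
      (Finsupp.single (OrderHom.id : Mo (k + 1) (k + 1)) 1 : Ch (Del (k + 1)) (k + 1))) y) =
      cc V k N ((pmD V k).app p y) := by
  classical
  rw [A4B5_d_iota]
  unfold cc crs
  simp only [map_sum]
  refine Finset.sum_congr rfl fun a _ => Finset.sum_congr rfl fun b _ => ?_
  by_cases h : k + p = N ∧ ∀ i, ((a i : ℕ) + (b i : ℕ) = (i : ℕ))
  · rw [if_pos h, if_pos h, A4B5_act, ← (pmD V k).nat b y, ← psi_faces, TensorProduct.sum_tmul, map_sum]
    refine Finset.sum_congr rfl fun i _ => ?_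
    congr 2
    show Finsupp.mapDomain ((Del (k + 1)).act a) (Finsupp.single (dlt i) 1) = _
    rw [Finsupp.mapDomain_single]
  · rw [if_neg h, if_neg h, map_zero, map_zero]

theorem d_cc (k p n : ℕ) (hn : k + p = n) (y : (RS V (k + 1)).V (p + 1)) :
    (RB V).d (n + 1) (cc V (k + 1) (n + 2) y) =
      cc V k (n + 1) ((pmD V k).app (p + 1) y) + cc V (k + 1) (n + 1) ((RS V (k + 1)).d p y) := by
  rw [← A4B5_faces]
  unfold cc
  rw [← (psi V (k + 1)).map_d, d_crs, map_add]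

theorem d_cc_zero (k : ℕ) (y : (RS V (k + 1)).V 0) :
    (RB V).d k (cc V (k + 1) (k + 1) y) = cc V k k ((pmD V k).app 0 y) := by
  rw [← A4B5_faces]
  unfold cc
  rw [← (psi V (k + 1)).map_d, d_crs_zero_right]

private theorem A4B5_d_cyc (k p n : ℕ) (hn : k + p = n) (y : (RS V (k + 1)).V p)
    (hy : y ∈ (RS V (k + 1)).Z p) :
    (RB V).d n (cc V (k + 1) (n + 1) y) = cc V k n ((pmD V k).app p y) := by
  cases p with
  | zero =>
    obtain rfl : k = n := by omega
    exact d_cc_zero V k y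
  | succ p =>
    obtain ⟨m, rfl⟩ : ∃ m, n = m + 1 := ⟨n - 1, by omega⟩
    have h1 : (RS V (k + 1)).d p y = 0 := hy
    rw [d_cc V k p m (by omega) y, h1, A4B5_cc_zero, add_zero]

private theorem A4B5_dd (W : SV) (n : ℕ) (w : W.V (n + 2)) : W.d n (W.d (n + 1) w) = 0 :=
  W.d_d w

/-- classes with a representative in the `k`-th filtration -/
noncomputable def HF (d k : ℕ) : Submodule (ZMod 2) ((RB V).H d) :=
  (Submodule.comap ((RB V).Z d).subtype (FB V k d)).map
    (Submodule.mkQ (Submodule.comap ((RB V).Z d).subtype ((RB V).B d)))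

private theorem A4B5_HF {d k : ℕ} {h : (RB V).H d} : h ∈ HF V d k ↔
    ∃ z ∈ FB V k d, ∃ hz : z ∈ (RB V).Z d, (RB V).cls z hz = h := by
  constructor
  · rintro ⟨x, hx, rfl⟩
    exact ⟨x.1, hx, x.2, rfl⟩
  · rintro ⟨z, hz1, hz2, rfl⟩
    exact ⟨⟨z, hz2⟩, hz1, rfl⟩

theorem HF_zero (d : ℕ) : HF V d 0 = ⊥ := by
  rw [eq_bot_iff]
  intro h hh
  obtain ⟨z, hz1, hz2, rfl⟩ := (A4B5_HF V).1 hh
  rw [FB_zero] at hz1
  rw [Submodule.mem_bot]
  exact A3Box_cls_zero ((Submodule.mem_bot _).1 hz1) hz2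

theorem HF_top (d : ℕ) : HF V d d = ⊤ := by
  rw [eq_top_iff]
  intro h _
  obtain ⟨z, hz, rfl⟩ := A3Box_exists_cls h
  refine (A4B5_HF V).2 ⟨z, ?_, hz, rfl⟩
  rw [FB_top V d d le_rfl]
  exact Submodule.mem_top

private theorem A4B5_pr_crs (k n : ℕ) {p : ℕ} (y : (RS V k).V p) :
    (prKR V k).app n (crs n (Finsupp.single (OrderHom.id : Mo k k) 1 : Ch (Del k) k) y) =
      crs n (KK.iota k) y := by
  unfold prKR
  rw [crs_map]
  rfl

private theorem A4B5_pr_surj (k n : ℕ) (w : ((KK k).tens (RS V k)).V n) :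
    ∃ u, (prKR V k).app n u = w := by
  have h : Function.Surjective (TensorProduct.map ((linSub (bd k)).proj.app n)
      ((SVHom.id (RS V k)).app n)) :=
    TensorProduct.map_surjective (Submodule.mkQ_surjective _) Function.surjective_id
  exact h w

private theorem A4B5_pmD_zero (p : ℕ) (y : (RS V 1).V p) : (pmD V 0).app p y = 0 := by
  have h : (pmD V 0).app p = 0 := by
    refine quo_ext (VP0 V 1) fun x => ?_
    exact pmD_of V 0 p x
  rw [h, LinearMap.zero_apply]

/-- main step: representatives -/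
private theorem A4B5_h1 (k p n : ℕ) (hn : k + p = n) (z : (RB V).V (n + 1))
    (hz1 : z ∈ FB V (k + 1) (n + 1)) (hz2 : z ∈ (RB V).Z (n + 1)) :
    ∃ y, ∃ _ : y ∈ (RS V (k + 1)).Z p, ∃ w ∈ FB V (k + 1) (n + 2),
      z + cc V (k + 1) (n + 1) y + (RB V).d (n + 1) w ∈ FB V k (n + 1) := by
  obtain ⟨u, hu⟩ := psi_surj V k (n + 1) z hz1
  have hdz : (RB V).d n z = 0 := hz2
  have h1 : (psi V (k + 1)).app n (((lin (Del (k + 1))).tens (RS V (k + 1))).d n u) ∈ FB V k n := by
    rw [(psi V (k + 1)).map_d]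
    have h := FB_d V k n hu
    rwa [map_add, hdz, zero_add] at h
  have h2 := psi_inj V k n _ h1
  have h3 : (prKR V (k + 1)).app (n + 1) u ∈ ((KK (k + 1)).tens (RS V (k + 1))).Z (n + 1) := by
    show ((KK (k + 1)).tens (RS V (k + 1))).d n ((prKR V (k + 1)).app (n + 1) u) = 0
    rw [← (prKR V (k + 1)).map_d]
    exact h2
  obtain ⟨y, hy, w', hw'⟩ := KK_tens_surj (k + 1) (RS V (k + 1)) p (n + 1) (by omega) _ h3
  obtain ⟨w, rfl⟩ := A4B5_pr_surj V (k + 1) (n + 2) w'
  refine ⟨y, hy, (psi V (k + 1)).app (n + 2) w, psi_mem_FB V (k + 1) (n + 2) w, ?_⟩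
  have h4 := psi_ker V k (n + 1) (u + crs (n + 1) (Finsupp.single (OrderHom.id : Mo (k + 1) (k + 1)) 1 :
    Ch (Del (k + 1)) (k + 1)) y + ((lin (Del (k + 1))).tens (RS V (k + 1))).d (n + 1) w) (by
      rw [map_add, map_add, A4B5_pr_crs, (prKR V (k + 1)).map_d, hw', two_eq_zero'])
  rw [map_add, map_add, (psi V (k + 1)).map_d] at h4
  have h5 := (FB V k (n + 1)).add_mem hu h4
  have h6 : ∀ a b c d : (RB V).V (n + 1), a + b + (b + c + d) = a + c + d := by
    intro a b c d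
    have := two_eq_zero' b
    calc a + b + (b + c + d) = a + (b + b) + c + d := by abel
      _ = a + c + d := by rw [this, add_zero]
  rw [h6] at h5
  exact h5

/-- main step: the representative is a cycle for the bar differential -/
private theorem A4B5_h2 (k p n : ℕ) (hn : k + p = n) (z : (RB V).V (n + 1))
    (hz2 : z ∈ (RB V).Z (n + 1)) (y : (RS V (k + 1)).V p) (hy : y ∈ (RS V (k + 1)).Z p)
    (w : (RB V).V (n + 2))
    (hr : z + cc V (k + 1) (n + 1) y + (RB V).d (n + 1) w ∈ FB V k (n + 1)) :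
    (pmD V k).app p y ∈ (RS V k).B p := by
  cases k with
  | zero =>
    rw [A4B5_pmD_zero]
    exact Submodule.zero_mem _
  | succ k =>
    have hdz : (RB V).d n z = 0 := hz2
    obtain ⟨u, hu⟩ := psi_surj V k (n + 1) _ hr
    have h1 := FB_d V k n hu
    rw [map_add, map_add, map_add, hdz, zero_add, A4B5_dd, add_zero,
      A4B5_d_cyc V (k + 1) p n hn y hy, ← (psi V (k + 1)).map_d] at h1
    have h2 := psi_inj V k n (crs n (Finsupp.single (OrderHom.id : Mo (k + 1) (k + 1)) 1 :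
      Ch (Del (k + 1)) (k + 1)) ((pmD V (k + 1)).app p y) +
        ((lin (Del (k + 1))).tens (RS V (k + 1))).d n u) (by
          rw [map_add]
          exact h1)
    rw [map_add, A4B5_pr_crs, (prKR V (k + 1)).map_d] at h2
    refine KK_tens_inj (k + 1) (RS V (k + 1)) p n (by omega) _ ((pmD V (k + 1)).map_Z hy) ?_
    refine ⟨(prKR V (k + 1)).app (n + 1) u, ?_⟩
    have h3 := two_eq_zero' (((KK (k + 1)).tens (RS V (k + 1))).d n ((prKR V (k + 1)).app (n + 1) u))
    exact (add_right_cancel (h2.trans h3.symm)).symm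

theorem bar_step (k p d : ℕ) (hp : k + 1 + p = d) (T : Finset ((RS V (k + 1)).H p))
    (hT : ∀ x : (RS V (k + 1)).H p, SV.Hmap (pmD V k) p x = 0 →
      x ∈ LinearMap.range (SV.Hmap (pmD V (k + 1)) p) ⊔
        Submodule.span (ZMod 2) (T : Set ((RS V (k + 1)).H p))) :
    ∃ T' : Finset ((RB V).H d), T'.card ≤ T.card ∧
      HF V d (k + 1) ≤ HF V d k ⊔ Submodule.span (ZMod 2) (T' : Set ((RB V).H d)) := by
  obtain ⟨n, rfl⟩ : ∃ n, d = n + 1 := ⟨d - 1, by omega⟩
  have hn : k + p = n := by omega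
  refine LA_rel (HF V (n + 1) (k + 1)) (HF V (n + 1) k)
    (fun h η => ∃ z ∈ FB V (k + 1) (n + 1), ∃ hz : z ∈ (RB V).Z (n + 1), ∃ y,
      ∃ hy : y ∈ (RS V (k + 1)).Z p, ∃ w ∈ FB V (k + 1) (n + 2), (RB V).cls z hz = h ∧
        z + cc V (k + 1) (n + 1) y + (RB V).d (n + 1) w ∈ FB V k (n + 1) ∧
        (RS V (k + 1)).cls y hy + η ∈ LinearMap.range (SV.Hmap (pmD V (k + 1)) p)) ?_ ?_ T ?_ ?_
  · refine ⟨0, Submodule.zero_mem _, Submodule.zero_mem _, 0, Submodule.zero_mem _, 0,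
      Submodule.zero_mem _, A3Box_cls_zero rfl _, ?_, ?_⟩
    · rw [A4B5_cc_zero, map_zero, add_zero, add_zero]
      exact Submodule.zero_mem _
    · rw [A3Box_cls_zero rfl, add_zero]
      exact Submodule.zero_mem _
  · rintro a e a' e' ⟨z, hz1, hz2, y, hy, w, hw, rfl, h1, h2⟩
      ⟨z', hz1', hz2', y', hy', w', hw', rfl, h1', h2'⟩
    refine ⟨z + z', Submodule.add_mem _ hz1 hz1', Submodule.add_mem _ hz2 hz2', y + y',
      Submodule.add_mem _ hy hy', w + w', Submodule.add_mem _ hw hw', A3Box_cls_add hz2 hz2', ?_, ?_⟩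
    · have e1 : z + z' + cc V (k + 1) (n + 1) (y + y') + (RB V).d (n + 1) (w + w') =
          (z + cc V (k + 1) (n + 1) y + (RB V).d (n + 1) w) +
          (z' + cc V (k + 1) (n + 1) y' + (RB V).d (n + 1) w') := by
        rw [cc_add, map_add]
        abel
      rw [e1]
      exact Submodule.add_mem _ h1 h1'
    · have e1 : (RS V (k + 1)).cls (y + y') (Submodule.add_mem _ hy hy') + (e + e') =
          ((RS V (k + 1)).cls y hy + e) + ((RS V (k + 1)).cls y' hy' + e') := by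
        rw [A3Box_cls_add hy hy']
        abel
      rw [e1]
      exact Submodule.add_mem _ h2 h2'
  · intro h hh
    obtain ⟨z, hz1, hz2, rfl⟩ := (A4B5_HF V).1 hh
    obtain ⟨y, hy, w, hw, hr⟩ := A4B5_h1 V k p n hn z hz1 hz2
    have hB := A4B5_h2 V k p n hn z hz2 y hy w hr
    have h0 : SV.Hmap (pmD V k) p ((RS V (k + 1)).cls y hy) = 0 := by
      rw [SV.Hmap_cls]
      have h3 : (RS V k).cls ((pmD V k).app p y) ((pmD V k).map_Z hy) =
          (RS V k).cls 0 (Submodule.zero_mem _) :=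
        A3Box_cls_eq _ _ (by rw [add_zero]; exact hB)
      rw [h3, A3Box_cls_zero rfl]
    obtain ⟨a, ha, e, he, hae⟩ := Submodule.mem_sup.1 (hT _ h0)
    refine ⟨e, he, z, hz1, hz2, y, hy, w, hw, rfl, hr, ?_⟩
    have h4 : (RS V (k + 1)).cls y hy + e = a := by
      rw [← hae, add_assoc a e e, two_eq_zero' e, add_zero]
    rw [h4]
    exact ha
  · rintro h hh ⟨z, hz1, hz2, y, hy, w, hw, rfl, hr, hx⟩
    rw [add_zero] at hx
    obtain ⟨x, hx⟩ := hx
    obtain ⟨x, hxZ, rfl⟩ := A3Box_exists_cls x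
    rw [SV.Hmap_cls] at hx
    obtain ⟨v, hv⟩ := A3Box_cls_rel hx
    have e1 : (RB V).d (n + 1) (cc V (k + 2) (n + 2) x) =
        cc V (k + 1) (n + 1) ((pmD V (k + 1)).app p x) :=
      A4B5_d_cyc V (k + 1) p (n + 1) (by omega) x hxZ
    have e2 : (RB V).d (n + 1) (cc V (k + 1) (n + 2) v) =
        cc V k (n + 1) ((pmD V k).app (p + 1) v) +
          cc V (k + 1) (n + 1) ((RS V (k + 1)).d p v) := d_cc V k p n hn v
    rw [hv, cc_add] at e2
    refine (A4B5_HF V).2 ⟨z + (RB V).d (n + 1) (w + cc V (k + 2) (n + 2) x + cc V (k + 1) (n + 2) v),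
      ?_, ?_, ?_⟩
    · rw [map_add, map_add, e1, e2]
      have h6 : z + ((RB V).d (n + 1) w + cc V (k + 1) (n + 1) ((pmD V (k + 1)).app p x) +
          (cc V k (n + 1) ((pmD V k).app (p + 1) v) +
            (cc V (k + 1) (n + 1) ((pmD V (k + 1)).app p x) + cc V (k + 1) (n + 1) y))) =
          (z + cc V (k + 1) (n + 1) y + (RB V).d (n + 1) w) +
            cc V k (n + 1) ((pmD V k).app (p + 1) v) := by
        have := two_eq_zero' (cc V (k + 1) (n + 1) ((pmD V (k + 1)).app p x))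
        calc _ = (z + cc V (k + 1) (n + 1) y + (RB V).d (n + 1) w) +
            cc V k (n + 1) ((pmD V k).app (p + 1) v) +
            (cc V (k + 1) (n + 1) ((pmD V (k + 1)).app p x) +
              cc V (k + 1) (n + 1) ((pmD V (k + 1)).app p x)) := by abel
          _ = _ := by rw [this, add_zero]
      rw [h6]
      exact Submodule.add_mem _ hr (cc_mem_FB V k (n + 1) _)
    · refine Submodule.add_mem _ hz2 ?_
      show (RB V).d n _ = 0
      exact A4B5_dd _ _ _
    · apply A3Box_cls_eq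
      refine ⟨w + cc V (k + 2) (n + 2) x + cc V (k + 1) (n + 2) v, ?_⟩
      have h7 : ∀ b : (RB V).V (n + 1), b = z + b + z := by
        intro b
        rw [add_comm z b, add_assoc b z z, two_eq_zero' z, add_zero]
      exact h7 _

end MM
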