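import Pool.Agent.Lib_MP_33f7bb_d.A4B3
import Pool.Agent.Lib_MP_33f7bb_d.A4C5
import Pool.Agent.Lib_MP_33f7bb_d.A4R3

/-!
# A4-B6: smash powers as tensor powers; Kuenneth basis

`exists_pmul`: bilinear extension of `[u] ⊗ [v] ↦ [u + v] + [u] + [v]` (vanishes for `u = 0` or `v = 0`), naturality on generators.
`exists_rsIso`: `[v] ⊗ [x] ↦ [cons v x]`; well defined and bijective in every level: both sides have the basis of
(nonzero `v`, `x` without zero entries) resp. (`cons v x` without zero entries); inverse `[x] ↦ [x 0] ⊗ [tail x]` (`quoLift`).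
`pmD_cons`: `mrg 0 (cons v (cons u x)) = cons (v + u) x`, the two other terms of `pmG 0` are `cons u x`, `cons v x` (as in the formula, order
irrelevant); `pmG (succ i) (cons v x') = rsIso ([v] ⊗ pmG i x')`.
`pmD_H`: the same identity in homology: the two linear simplicial maps on `RV ⊗ (RV ⊗ RS V k)` agree on generators; apply them to
`crs a (crs b c)` and use `crs_map`, `assoc_crs` (for the term with `pmul`), choose representing cycles (`crsH_cls`).

`RS_basis`: `Y k L` as in `YY`: `Y 0 []` = class of the empty tuple, `Y (k+1) (D :: L) = ∑_q H(rsIso) (y D q × Y k L (p - q))` (only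
`q = w D` contributes).  Basis by induction on `k`: `k = 0`: `RS V 0` is the constant `ZMod 2` (`cstV_homology`-like: `H_0 = F`,
`H_p = 0` for `p > 0`); step: `H(rsIso)` is bijective (`Hmap_bijective`), Kuenneth (`kun`: direct sum of the tensor products;
basis of a tensor product).  `hδ`: by induction on `k` with `pmD_H`, `mul` and
`dlc (D :: E :: L) = [D ∩ E = ∅] (D ∪ E) :: L + D :: dlc (E :: L)`.
-/

open scoped TensorProduct

namespace MM

/-! ### bilinear extension -/

private theorem A4B6_tens_ext {P P' : SS} (A : Sub P) (A' : Sub P') {n : ℕ} {M : Type}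
    [AddCommGroup M] [Module (ZMod 2) M]
    {f g : ((linSub A).quo.V n ⊗[ZMod 2] (linSub A').quo.V n) →ₗ[ZMod 2] M}
    (h : ∀ x y, f (((quoOf A).app n x : (linSub A).quo.V n) ⊗ₜ[ZMod 2]
      ((quoOf A').app n y : (linSub A').quo.V n)) =
      g (((quoOf A).app n x : (linSub A).quo.V n) ⊗ₜ[ZMod 2]
      ((quoOf A').app n y : (linSub A').quo.V n))) : f = g := by
  apply TensorProduct.ext
  refine quo_ext A fun x => ?_
  refine quo_ext A' fun y => ?_
  exact h x y

private theorem A4B6_biLift {P P' : SS} (A : Sub P) (A' : Sub P') {W : SV}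
    (g : ∀ n, P.S n → P'.S n → W.V n)
    (hg : ∀ {m n : ℕ} (f : Mo m n) (x : P.S n) (y : P'.S n),
      g m (P.act f x) (P'.act f y) = W.act f (g n x y))
    (hA : ∀ n x y, x ∈ A.car n → g n x y = 0) (hA' : ∀ n x y, y ∈ A'.car n → g n x y = 0) :
    ∃ F : SVHom ((linSub A).quo.tens (linSub A').quo) W, ∀ (n : ℕ) (x : P.S n) (y : P'.S n),
      F.app n (((quoOf A).app n x : (linSub A).quo.V n) ⊗ₜ[ZMod 2]
        ((quoOf A').app n y : (linSub A').quo.V n)) = g n x y := by
  have h1 : ∀ (n : ℕ) (x : P.S n), (linSub A').car n ≤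
      LinearMap.ker (Finsupp.linearCombination (ZMod 2) (g n x)) := by
    intro n x c hc
    rw [LinearMap.mem_ker, Finsupp.linearCombination_apply]
    refine Finset.sum_eq_zero fun y hy => ?_
    show c y • g n x y = 0
    rw [hA' n x y (hc hy), smul_zero]
  let L2 : ∀ n, Ch P n →ₗ[ZMod 2] (linSub A').quo.V n →ₗ[ZMod 2] W.V n := fun n =>
    Finsupp.linearCombination (ZMod 2) fun x =>
      Submodule.liftQ _ (Finsupp.linearCombination (ZMod 2) (g n x)) (h1 n x)
  have h2 : ∀ n, (linSub A).car n ≤ LinearMap.ker (L2 n) := by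
    intro n c hc
    rw [LinearMap.mem_ker]
    show Finsupp.linearCombination (ZMod 2) _ c = 0
    rw [Finsupp.linearCombination_apply]
    refine Finset.sum_eq_zero fun x hx => ?_
    show c x • Submodule.liftQ _ (Finsupp.linearCombination (ZMod 2) (g n x)) (h1 n x) = 0
    have h3 : Submodule.liftQ _ (Finsupp.linearCombination (ZMod 2) (g n x)) (h1 n x) = 0 := by
      refine quo_ext A' fun y => ?_
      show Finsupp.linearCombination (ZMod 2) (g n x) (Finsupp.single y 1) = 0
      rw [Finsupp.linearCombination_single, hA n x y (hc hx), smul_zero]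
    rw [h3, smul_zero]
  let L3 : ∀ n, (linSub A).quo.V n →ₗ[ZMod 2] (linSub A').quo.V n →ₗ[ZMod 2] W.V n := fun n =>
    Submodule.liftQ _ (L2 n) (h2 n)
  have h4 : ∀ (n : ℕ) (x : P.S n) (y : P'.S n), TensorProduct.lift (L3 n)
      (((quoOf A).app n x : (linSub A).quo.V n) ⊗ₜ[ZMod 2]
        ((quoOf A').app n y : (linSub A').quo.V n)) = g n x y := by
    intro n x y
    rw [TensorProduct.lift.tmul]
    show (Finsupp.linearCombination (ZMod 2) (fun x =>
      Submodule.liftQ _ (Finsupp.linearCombination (ZMod 2) (g n x)) (h1 n x))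
      (Finsupp.single x 1)) _ = g n x y
    rw [Finsupp.linearCombination_single, one_smul]
    show Finsupp.linearCombination (ZMod 2) (g n x) (Finsupp.single y 1) = g n x y
    rw [Finsupp.linearCombination_single, one_smul]
  refine ⟨⟨fun n => TensorProduct.lift (L3 n), ?_⟩, h4⟩
  intro m n f z
  have h5 : (TensorProduct.lift (L3 m)).comp
      (((linSub A).quo.tens (linSub A').quo).act f) =
      (W.act f).comp (TensorProduct.lift (L3 n)) := by
    refine A4B6_tens_ext A A' fun x y => ?_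
    rw [LinearMap.comp_apply, LinearMap.comp_apply, h4, ← hg f x y, ← h4 m]
    show TensorProduct.lift (L3 m) (TensorProduct.map _ _ (_ ⊗ₜ[ZMod 2] _)) = _
    rw [TensorProduct.map_tmul]
    rw [(quoOf A).nat f x, (quoOf A').nat f y]
  exact LinearMap.congr_fun h5 z

private theorem A4B6_pt {V : SV} {n : ℕ} {u : V.V n} (hu : u ∈ (Sub.pt (P := V.ss) V.zv).car n) :
    u = 0 := by
  have h : u = V.act (cst 0) (0 : V.V 0) := hu
  rw [h, map_zero]

private theorem A4B6_pt_mem {V : SV} (n : ℕ) : (0 : V.V n) ∈ (Sub.pt (P := V.ss) V.zv).car n := by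
  show (0 : V.V n) = V.act (cst 0) (0 : V.V 0)
  rw [map_zero]

private theorem A4B6_of_zero {V : SV} (n : ℕ) :
    ((R.of V.zv).app n (0 : V.V n) : (RV V).V n) = 0 :=
  quoOf_mem (Sub.pt (P := V.ss) V.zv) (A4B6_pt_mem n)

theorem exists_pmul (V : SV) : ∃ μ : SVHom ((RV V).tens (RV V)) (RV V),
    ∀ (m : ℕ) (u v : V.V m),
      μ.app m (((R.of V.zv).app m u : (RV V).V m) ⊗ₜ[ZMod 2] ((R.of V.zv).app m v : (RV V).V m)) =
        ((R.of V.zv).app m (u + v : V.V m) : (RV V).V m) + (R.of V.zv).app m u +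
          (R.of V.zv).app m v := by
  obtain ⟨F, hF⟩ := A4B6_biLift (Sub.pt (P := V.ss) V.zv) (Sub.pt (P := V.ss) V.zv) (W := RV V)
    (fun m u v => ((R.of V.zv).app m (u + v : V.V m) : (RV V).V m) + (R.of V.zv).app m u +
          (R.of V.zv).app m v) (by
      intro m n f x y
      rw [map_add, map_add]
      have h1 : (V.act f x + V.act f y : V.V m) = V.act f (x + y) := (map_add _ _ _).symm
      show ((R.of V.zv).app m (V.act f x + V.act f y : V.V m) : (RV V).V m) + _ + _ = _
      rw [h1]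
      exact congrArg₂ (· + ·) (congrArg₂ (· + ·) ((R.of V.zv).nat f (x + y : V.V n))
        ((R.of V.zv).nat f x)) ((R.of V.zv).nat f y)) (by
      intro n x y hx
      rw [A4B6_pt hx, zero_add, A4B6_of_zero, add_zero]
      exact two_eq_zero' _) (by
      intro n x y hy
      rw [A4B6_pt hy, add_zero, A4B6_of_zero, add_zero]
      exact two_eq_zero' _)
  exact ⟨F, hF⟩

/-- the (reduced) Pontryagin product on chains -/
noncomputable def pmul (V : SV) : SVHom ((RV V).tens (RV V)) (RV V) :=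
  Classical.choose (exists_pmul V)

theorem pmul_of (V : SV) (m : ℕ) (u v : V.V m) :
    (pmul V).app m (((R.of V.zv).app m u : (RV V).V m) ⊗ₜ[ZMod 2]
      ((R.of V.zv).app m v : (RV V).V m)) =
        ((R.of V.zv).app m (u + v : V.V m) : (RV V).V m) + (R.of V.zv).app m u +
          (R.of V.zv).app m v := Classical.choose_spec (exists_pmul V) m u v

private theorem A4B6_cons {V : SV} {k m n : ℕ} (f : Mo m n) (v : V.V n) (x : Fin k → V.V n) :
    (Fin.cons (V.act f v) (fun i => V.act f (x i)) : Fin (k + 1) → V.V m) =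
      fun i => V.act f ((Fin.cons v x : Fin (k + 1) → V.V n) i) := by
  funext i
  refine Fin.cases ?_ (fun j => ?_) i
  · rw [Fin.cons_zero, Fin.cons_zero]
  · rw [Fin.cons_succ, Fin.cons_succ]

private theorem A4B6_fwd (V : SV) (k : ℕ) : ∃ F : SVHom ((RV V).tens (RS V k)) (RS V (k + 1)),
    ∀ (m : ℕ) (v : V.V m) (x : Fin k → V.V m),
      F.app m (((R.of V.zv).app m v : (RV V).V m) ⊗ₜ[ZMod 2] ((RS.of V k).app m x : (RS V k).V m)) =
        (RS.of V (k + 1)).app m (Fin.cons v x) := by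
  obtain ⟨F, hF⟩ := A4B6_biLift (Sub.pt (P := V.ss) V.zv) (VP0 V k) (W := RS V (k + 1))
    (fun m v x => (RS.of V (k + 1)).app m (Fin.cons v x : Fin (k + 1) → V.V m)) (by
      intro m n f x y
      refine Eq.trans ?_ ((RS.of V (k + 1)).nat f (Fin.cons x y : Fin (k + 1) → V.V n))
      exact congrArg ((RS.of V (k + 1)).app m) (A4B6_cons f x y)) (by
      intro n x y hx
      refine quoOf_mem (VP0 V (k + 1)) ⟨0, ?_⟩
      rw [Fin.cons_zero]
      exact A4B6_pt hx) (by
      rintro n x y ⟨i, hi⟩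
      refine quoOf_mem (VP0 V (k + 1)) ⟨i.succ, ?_⟩
      rw [Fin.cons_succ]
      exact hi)
  exact ⟨F, hF⟩

private noncomputable def A4B6_bfn (V : SV) (k : ℕ) :
    Hom (VP V (k + 1)) ((RV V).tens (RS V k)).ss :=
  ⟨fun m x => ((R.of V.zv).app m (x 0) : (RV V).V m) ⊗ₜ[ZMod 2]
      ((RS.of V k).app m (Fin.tail x) : (RS V k).V m), by
      intro m n f x
      show _ = TensorProduct.map _ _ (_ ⊗ₜ[ZMod 2] _)
      rw [TensorProduct.map_tmul]
      exact congrArg₂ (fun (a : (RV V).V m) (b : (RS V k).V m) => a ⊗ₜ[ZMod 2] b)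
        ((R.of V.zv).nat f (x 0)) ((RS.of V k).nat f (Fin.tail x))⟩

private theorem A4B6_bfn_app (V : SV) (k m : ℕ) (x : Fin (k + 1) → V.V m) :
    (A4B6_bfn V k).app m x = ((R.of V.zv).app m (x 0) : (RV V).V m) ⊗ₜ[ZMod 2]
      ((RS.of V k).app m (Fin.tail x) : (RS V k).V m) := rfl

private theorem A4B6_bfn_zero (V : SV) (k n : ℕ) (x : Fin (k + 1) → V.V n) (i : Fin (k + 1))
    (hi : x i = 0) : (A4B6_bfn V k).app n x = (0 : ((RV V).tens (RS V k)).V n) := by
  rw [A4B6_bfn_app]
  rcases Fin.eq_zero_or_eq_succ i with h | ⟨j, h⟩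
  · rw [h] at hi
    rw [hi, A4B6_of_zero, TensorProduct.zero_tmul]
  · rw [h] at hi
    have e1 : ((RS.of V k).app n (Fin.tail x) : (RS V k).V n) = 0 :=
      quoOf_mem (VP0 V k) ⟨j, hi⟩
    rw [e1, TensorProduct.tmul_zero]

private theorem A4B6_bwd (V : SV) (k : ℕ) : ∃ G : SVHom (RS V (k + 1)) ((RV V).tens (RS V k)),
    ∀ (m : ℕ) (x : Fin (k + 1) → V.V m), G.app m ((RS.of V (k + 1)).app m x) =
      (A4B6_bfn V k).app m x := by
  have h : ∀ n, ∀ x ∈ (VP0 V (k + 1)).car n, (A4B6_bfn V k).app n x =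
      (0 : ((RV V).tens (RS V k)).V n) := by
    rintro n x ⟨i, hi⟩
    exact A4B6_bfn_zero V k n x i hi
  exact ⟨quoLift (VP0 V (k + 1)) (A4B6_bfn V k) h,
    fun m x => quoLift_of (VP0 V (k + 1)) (A4B6_bfn V k) h m x⟩

theorem exists_rsIso (V : SV) (k : ℕ) : ∃ f : SVHom ((RV V).tens (RS V k)) (RS V (k + 1)),
    (∀ m, Function.Bijective (f.app m)) ∧
    ∀ (m : ℕ) (v : V.V m) (x : Fin k → V.V m),
      f.app m (((R.of V.zv).app m v : (RV V).V m) ⊗ₜ[ZMod 2] ((RS.of V k).app m x : (RS V k).V m)) =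
        (RS.of V (k + 1)).app m (Fin.cons v x) := by
  obtain ⟨F, hF⟩ := A4B6_fwd V k
  obtain ⟨G, hG⟩ := A4B6_bwd V k
  refine ⟨F, fun m => ?_, hF⟩
  have hGF : (G.app m).comp (F.app m) = LinearMap.id := by
    refine A4B6_tens_ext (Sub.pt (P := V.ss) V.zv) (VP0 V k) fun x y => ?_
    rw [LinearMap.comp_apply, LinearMap.id_apply]
    refine (congrArg (G.app m) (hF m x y)).trans ?_
    exact hG m (Fin.cons x y)
  have hFG : (F.app m).comp (G.app m) = LinearMap.id := by
    refine quo_ext (VP0 V (k + 1)) fun x => ?_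
    rw [LinearMap.comp_apply, LinearMap.id_apply]
    refine (congrArg (F.app m) (hG m x)).trans ((hF m (x 0) (Fin.tail x)).trans ?_)
    exact congrArg ((RS.of V (k + 1)).app m) (Fin.cons_self_tail x)
  exact Function.bijective_iff_has_inverse.2 ⟨G.app m, fun z => LinearMap.congr_fun hGF z,
    fun z => LinearMap.congr_fun hFG z⟩

/-- `R V ⊗ RS V k ≅ RS V (k+1)` -/
noncomputable def rsIso (V : SV) (k : ℕ) : SVHom ((RV V).tens (RS V k)) (RS V (k + 1)) :=
  Classical.choose (exists_rsIso V k)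

theorem rsIso_bij (V : SV) (k m : ℕ) : Function.Bijective ((rsIso V k).app m) :=
  (Classical.choose_spec (exists_rsIso V k)).1 m

theorem rsIso_of (V : SV) (k m : ℕ) (v : V.V m) (x : Fin k → V.V m) :
    (rsIso V k).app m (((R.of V.zv).app m v : (RV V).V m) ⊗ₜ[ZMod 2]
      ((RS.of V k).app m x : (RS V k).V m)) = (RS.of V (k + 1)).app m (Fin.cons v x) :=
  (Classical.choose_spec (exists_rsIso V k)).2 m v x

private theorem A4B6_pmG_zero (V : SV) (k m : ℕ) (v u : V.V m) (x : Fin k → V.V m) :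
    pmG (0 : Fin (k + 1)) (Fin.cons v (Fin.cons u x : Fin (k + 1) → V.V m) :
      Fin (k + 2) → V.V m) =
      (((RS.of V (k + 1)).app m (Fin.cons (v + u) x) : (RS V (k + 1)).V m) +
        (RS.of V (k + 1)).app m (Fin.cons v x)) + (RS.of V (k + 1)).app m (Fin.cons u x) := by
  unfold pmG
  refine congrArg₂ (· + ·) (congrArg₂ (· + ·) ?_ ?_) ?_
  · refine congrArg ((RS.of V (k + 1)).app m) ?_
    funext j
    unfold mrg
    rcases Fin.eq_zero_or_eq_succ j with rfl | ⟨j, rfl⟩
    · rw [if_neg (lt_irrefl _), if_pos rfl]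
      rfl
    · rw [if_neg (Fin.not_lt_zero _), if_neg (Fin.succ_ne_zero j)]
      rfl
  · refine congrArg ((RS.of V (k + 1)).app m) ?_
    funext j
    rw [Function.comp_apply]
    rcases Fin.eq_zero_or_eq_succ j with rfl | ⟨j, rfl⟩
    · rw [Fin.succ_succAbove_zero]
      rfl
    · rw [Fin.succ_succAbove_succ, Fin.zero_succAbove]
      rfl
  · refine congrArg ((RS.of V (k + 1)).app m) ?_
    funext j
    rw [Function.comp_apply, Fin.castSucc_zero, Fin.zero_succAbove]
    rfl

private theorem A4B6_pmG_succ (V : SV) (k m : ℕ) (v : V.V m) (y : Fin (k + 1) → V.V m)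
    (i : Fin k) :
    pmG i.succ (Fin.cons v y : Fin (k + 2) → V.V m) =
      (rsIso V k).app m (((R.of V.zv).app m v : (RV V).V m) ⊗ₜ[ZMod 2] pmG i y) := by
  unfold pmG
  rw [TensorProduct.tmul_add, TensorProduct.tmul_add, map_add, map_add, rsIso_of, rsIso_of,
    rsIso_of]
  refine congrArg₂ (· + ·) (congrArg₂ (· + ·) ?_ ?_) ?_
  · refine congrArg ((RS.of V (k + 1)).app m) ?_
    funext j
    rcases Fin.eq_zero_or_eq_succ j with rfl | ⟨j, rfl⟩
    · unfold mrg
      rw [if_pos (Fin.succ_pos i), Fin.cons_zero, Fin.castSucc_zero, Fin.cons_zero]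
    · rw [Fin.cons_succ]
      unfold mrg
      rw [← Fin.succ_castSucc, ← Fin.succ_castSucc, Fin.cons_succ, Fin.cons_succ, Fin.cons_succ,
        Fin.cons_succ]
      by_cases h1 : j < i
      · rw [if_pos h1, if_pos (Fin.succ_lt_succ_iff.2 h1)]
      · rw [if_neg h1, if_neg (fun h => h1 (Fin.succ_lt_succ_iff.1 h))]
        by_cases h2 : j = i
        · rw [if_pos h2, if_pos (by rw [h2])]
        · rw [if_neg h2, if_neg (fun h => h2 (Fin.succ_injective _ h))]
  · refine congrArg ((RS.of V (k + 1)).app m) ?_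
    funext j
    rw [Function.comp_apply]
    rcases Fin.eq_zero_or_eq_succ j with rfl | ⟨j, rfl⟩
    · rw [Fin.succ_succAbove_zero, Fin.cons_zero, Fin.cons_zero]
    · rw [Fin.succ_succAbove_succ, Fin.cons_succ, Fin.cons_succ, Function.comp_apply]
  · refine congrArg ((RS.of V (k + 1)).app m) ?_
    funext j
    rw [Function.comp_apply, ← Fin.succ_castSucc]
    rcases Fin.eq_zero_or_eq_succ j with rfl | ⟨j, rfl⟩
    · rw [Fin.succ_succAbove_zero, Fin.cons_zero, Fin.cons_zero]
    · rw [Fin.succ_succAbove_succ, Fin.cons_succ, Fin.cons_succ, Function.comp_apply]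

theorem pmD_cons (V : SV) (k m : ℕ) (v u : V.V m) (x : Fin k → V.V m) :
    (pmD V (k + 1)).app m ((RS.of V (k + 2)).app m (Fin.cons v (Fin.cons u x : Fin (k + 1) → V.V m))) =
      ((RS.of V (k + 1)).app m (Fin.cons (v + u) x) : (RS V (k + 1)).V m) +
        (RS.of V (k + 1)).app m (Fin.cons u x) + (RS.of V (k + 1)).app m (Fin.cons v x) +
      (rsIso V k).app m (((R.of V.zv).app m v : (RV V).V m) ⊗ₜ[ZMod 2]
        (pmD V k).app m ((RS.of V (k + 1)).app m (Fin.cons u x))) := by
  rw [pmD_of, Fin.sum_univ_succ, A4B6_pmG_zero, pmD_of, TensorProduct.tmul_sum, map_sum]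
  refine congrArg₂ (· + ·) ?_ ?_
  · abel
  · exact Finset.sum_congr rfl fun i _ => A4B6_pmG_succ V k m v (Fin.cons u x) i

private theorem A4B6_tapp {P P' Q Q' : SV} (f : SVHom P P') (g : SVHom Q Q') (n : ℕ)
    (x : P.V n) (y : Q.V n) :
    (f.tens g).app n (x ⊗ₜ[ZMod 2] y) = f.app n x ⊗ₜ[ZMod 2] g.app n y := rfl

private theorem A4B6_assoc {P Q S : SV} (n : ℕ) (x : P.V n) (y : Q.V n) (z : S.V n) :
    (SV.assoc P Q S).app n ((x ⊗ₜ[ZMod 2] y) ⊗ₜ[ZMod 2] z) =
      x ⊗ₜ[ZMod 2] (y ⊗ₜ[ZMod 2] z) := rfl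

private theorem A4B6_tens_ext3 {P P' P'' : SS} (A : Sub P) (A' : Sub P') (A'' : Sub P'') {n : ℕ}
    {M : Type} [AddCommGroup M] [Module (ZMod 2) M]
    {f g : (((linSub A).quo.tens (linSub A').quo).V n ⊗[ZMod 2] (linSub A'').quo.V n)
      →ₗ[ZMod 2] M}
    (h : ∀ x y z, f ((((quoOf A).app n x : (linSub A).quo.V n) ⊗ₜ[ZMod 2]
      ((quoOf A').app n y : (linSub A').quo.V n)) ⊗ₜ[ZMod 2]
        ((quoOf A'').app n z : (linSub A'').quo.V n)) =
      g ((((quoOf A).app n x : (linSub A).quo.V n) ⊗ₜ[ZMod 2]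
      ((quoOf A').app n y : (linSub A').quo.V n)) ⊗ₜ[ZMod 2]
        ((quoOf A'').app n z : (linSub A'').quo.V n))) : f = g := by
  apply TensorProduct.ext
  refine A4B6_tens_ext A A' fun x y => ?_
  refine quo_ext A'' fun z => ?_
  exact h x y z

/-- left and right hand side of the differential of a triple product -/
private noncomputable def A4B6_Phi (V : SV) (k : ℕ) :
    SVHom ((RV V).tens ((RV V).tens (RS V k))) (RS V (k + 1)) :=
  ((pmD V (k + 1)).comp (rsIso V (k + 1))).comp ((SVHom.id (RV V)).tens (rsIso V k))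

private noncomputable def A4B6_Psi (V : SV) (k : ℕ) :
    SVHom ((RV V).tens ((RV V).tens (RS V k))) (RS V (k + 1)) :=
  (rsIso V k).comp ((SVHom.id (RV V)).tens ((pmD V k).comp (rsIso V k)))

private noncomputable def A4B6_Chi (V : SV) (k : ℕ) :
    SVHom (((RV V).tens (RV V)).tens (RS V k)) (RS V (k + 1)) :=
  (rsIso V k).comp ((pmul V).tens (SVHom.id (RS V k)))

private theorem A4B6_eq (V : SV) (k n : ℕ) :
    ((A4B6_Phi V k).app n).comp ((SV.assoc (RV V) (RV V) (RS V k)).app n) =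
      (A4B6_Chi V k).app n +
        ((A4B6_Psi V k).app n).comp ((SV.assoc (RV V) (RV V) (RS V k)).app n) := by
  refine A4B6_tens_ext3 (Sub.pt (P := V.ss) V.zv) (Sub.pt (P := V.ss) V.zv) (VP0 V k)
    fun v u x => ?_
  rw [LinearMap.add_apply, LinearMap.comp_apply, LinearMap.comp_apply, A4B6_assoc]
  have e1 : (A4B6_Phi V k).app n (((quoOf (Sub.pt (P := V.ss) V.zv)).app n v : (RV V).V n) ⊗ₜ[ZMod 2]
      (((quoOf (Sub.pt (P := V.ss) V.zv)).app n u : (RV V).V n) ⊗ₜ[ZMod 2]
        ((quoOf (VP0 V k)).app n x : (RS V k).V n))) =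
      (pmD V (k + 1)).app n ((RS.of V (k + 2)).app n
        (Fin.cons v (Fin.cons u x : Fin (k + 1) → V.V n))) := by
    show (pmD V (k + 1)).app n ((rsIso V (k + 1)).app n (((SVHom.id (RV V)).tens (rsIso V k)).app n
      (_ ⊗ₜ[ZMod 2] _))) = _
    rw [A4B6_tapp]
    have e2 : (rsIso V k).app n (((quoOf (Sub.pt (P := V.ss) V.zv)).app n u : (RV V).V n) ⊗ₜ[ZMod 2]
        ((quoOf (VP0 V k)).app n x : (RS V k).V n)) = (RS.of V (k + 1)).app n (Fin.cons u x) :=
      rsIso_of V k n u x
    rw [e2]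
    exact congrArg ((pmD V (k + 1)).app n) (rsIso_of V (k + 1) n v (Fin.cons u x))
  have e3 : (A4B6_Chi V k).app n ((((quoOf (Sub.pt (P := V.ss) V.zv)).app n v : (RV V).V n)
      ⊗ₜ[ZMod 2] ((quoOf (Sub.pt (P := V.ss) V.zv)).app n u : (RV V).V n)) ⊗ₜ[ZMod 2]
        ((quoOf (VP0 V k)).app n x : (RS V k).V n)) =
      ((RS.of V (k + 1)).app n (Fin.cons (v + u) x) : (RS V (k + 1)).V n) +
        (RS.of V (k + 1)).app n (Fin.cons v x) + (RS.of V (k + 1)).app n (Fin.cons u x) := by
    show (rsIso V k).app n (((pmul V).tens (SVHom.id (RS V k))).app n (_ ⊗ₜ[ZMod 2] _)) = _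
    rw [A4B6_tapp]
    have e2 : (pmul V).app n (((quoOf (Sub.pt (P := V.ss) V.zv)).app n v : (RV V).V n) ⊗ₜ[ZMod 2]
        ((quoOf (Sub.pt (P := V.ss) V.zv)).app n u : (RV V).V n)) =
        ((R.of V.zv).app n (v + u : V.V n) : (RV V).V n) + (R.of V.zv).app n v +
          (R.of V.zv).app n u := pmul_of V n v u
    rw [e2, TensorProduct.add_tmul, TensorProduct.add_tmul, map_add, map_add]
    exact congrArg₂ (· + ·) (congrArg₂ (· + ·) (rsIso_of V k n (v + u) x) (rsIso_of V k n v x))
      (rsIso_of V k n u x)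
  have e4 : (A4B6_Psi V k).app n (((quoOf (Sub.pt (P := V.ss) V.zv)).app n v : (RV V).V n) ⊗ₜ[ZMod 2]
      (((quoOf (Sub.pt (P := V.ss) V.zv)).app n u : (RV V).V n) ⊗ₜ[ZMod 2]
        ((quoOf (VP0 V k)).app n x : (RS V k).V n))) =
      (rsIso V k).app n (((R.of V.zv).app n v : (RV V).V n) ⊗ₜ[ZMod 2]
        (pmD V k).app n ((RS.of V (k + 1)).app n (Fin.cons u x))) := by
    show (rsIso V k).app n (((SVHom.id (RV V)).tens ((pmD V k).comp (rsIso V k))).app n
      (_ ⊗ₜ[ZMod 2] _)) = _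
    rw [A4B6_tapp]
    refine congrArg (fun z => (rsIso V k).app n (((R.of V.zv).app n v : (RV V).V n)
      ⊗ₜ[ZMod 2] z)) ?_
    exact congrArg ((pmD V k).app n) (rsIso_of V k n u x)
  rw [e1, e3, e4, pmD_cons]
  abel

private theorem A4B6_chain (V : SV) (k p q r n : ℕ) (hn : p + (q + r) = n) (a : (RV V).V p)
    (b : (RV V).V q) (c : (RS V k).V r) :
    (pmD V (k + 1)).app n ((rsIso V (k + 1)).app n (crs n a
        ((rsIso V k).app (q + r) (crs (q + r) b c)))) =
      (rsIso V k).app n (crs n ((pmul V).app (p + q) (crs (p + q) a b)) c) +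
      (rsIso V k).app n (crs n a
        ((pmD V k).app (q + r) ((rsIso V k).app (q + r) (crs (q + r) b c)))) := by
  obtain rfl : n = p + q + r := by omega
  have h1 := LinearMap.congr_fun (A4B6_eq V k (p + q + r)) (crs (p + q + r) (crs (p + q) a b) c)
  rw [LinearMap.add_apply, LinearMap.comp_apply, LinearMap.comp_apply, assoc_crs] at h1
  have h2 : (A4B6_Phi V k).app (p + q + r) (crs (p + q + r) a (crs (q + r) b c)) =
      (pmD V (k + 1)).app (p + q + r) ((rsIso V (k + 1)).app (p + q + r) (crs (p + q + r) a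
        ((rsIso V k).app (q + r) (crs (q + r) b c)))) :=
    congrArg (fun z => (pmD V (k + 1)).app (p + q + r) ((rsIso V (k + 1)).app (p + q + r) z))
      (crs_map (SVHom.id (RV V)) (rsIso V k) a (crs (q + r) b c))
  have h3 : (A4B6_Psi V k).app (p + q + r) (crs (p + q + r) a (crs (q + r) b c)) =
      (rsIso V k).app (p + q + r) (crs (p + q + r) a
        ((pmD V k).app (q + r) ((rsIso V k).app (q + r) (crs (q + r) b c)))) :=
    congrArg (fun z => (rsIso V k).app (p + q + r) z)
      (crs_map (SVHom.id (RV V)) ((pmD V k).comp (rsIso V k)) a (crs (q + r) b c))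
  have h4 : (A4B6_Chi V k).app (p + q + r) (crs (p + q + r) (crs (p + q) a b) c) =
      (rsIso V k).app (p + q + r) (crs (p + q + r) ((pmul V).app (p + q) (crs (p + q) a b)) c) :=
    congrArg (fun z => (rsIso V k).app (p + q + r) z)
      (crs_map (pmul V) (SVHom.id (RS V k)) (crs (p + q) a b) c)
  rw [← h2, ← h3, ← h4]
  exact h1

theorem pmD_H (V : SV) (k p q r n : ℕ) (hn : p + (q + r) = n) (a : (RV V).H p) (b : (RV V).H q)
    (c : (RS V k).H r) :
    SV.Hmap (pmD V (k + 1)) n (SV.Hmap (rsIso V (k + 1)) n (crsH n a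
        (SV.Hmap (rsIso V k) (q + r) (crsH (q + r) b c)))) =
      SV.Hmap (rsIso V k) n (crsH n (SV.Hmap (pmul V) (p + q) (crsH (p + q) a b)) c) +
      SV.Hmap (rsIso V k) n (crsH n a
        (SV.Hmap (pmD V k) (q + r) (SV.Hmap (rsIso V k) (q + r) (crsH (q + r) b c)))) := by
  obtain ⟨a, ha, rfl⟩ := A3Box_exists_cls a
  obtain ⟨b, hb, rfl⟩ := A3Box_exists_cls b
  obtain ⟨c, hc, rfl⟩ := A3Box_exists_cls c
  have key := A4B6_chain V k p q r n hn a b c
  rw [crsH_cls b hb c hc, crsH_cls a ha b hb, SV.Hmap_cls, SV.Hmap_cls, SV.Hmap_cls, crsH_cls,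
    crsH_cls, crsH_cls, SV.Hmap_cls, SV.Hmap_cls, SV.Hmap_cls, SV.Hmap_cls]
  refine (A3Box_cls_congr key _ ?_).trans ?_
  · exact (RS V (k + 1)).Z n |>.add_mem
      ((rsIso V k).map_Z (crs_mem_Z ((pmul V).map_Z (crs_mem_Z ha hb)) hc))
      ((rsIso V k).map_Z (crs_mem_Z ha ((pmD V k).map_Z ((rsIso V k).map_Z (crs_mem_Z hb hc)))))
  · rfl

/-- a basis of the reduced homology with the multiplication table of an exterior algebra -/
structure YB (V : SV) {J : Type} [DecidableEq J] (w : J → ℕ) (y : NE J → ∀ d, (RV V).H d) :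
    Prop where
  deg : ∀ (D : NE J) (d : ℕ), ∑ j ∈ D.1, w j ≠ d → y D d = 0
  li : ∀ (d : ℕ) (c : NE J →₀ ZMod 2), (∀ D, c D ≠ 0 → ∑ j ∈ D.1, w j = d) →
    (c.sum fun D r => r • y D d) = 0 → c = 0
  span : ∀ (d : ℕ) (x : (RV V).H d), ∃ c : NE J →₀ ZMod 2,
    (∀ D, c D ≠ 0 → ∑ j ∈ D.1, w j = d) ∧ (c.sum fun D r => r • y D d) = x
  mul : ∀ (D E : NE J) (p q : ℕ), ∑ j ∈ D.1, w j = p → ∑ j ∈ E.1, w j = q →
    SV.Hmap (pmul V) (p + q) (crsH (p + q) (y D p) (y E q)) =
      if Disjoint D.1 E.1 then y (D.un E) (p + q) else 0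

/-- the Kuenneth basis -/
noncomputable def YY {V : SV} {J : Type} (y : NE J → ∀ d, (RV V).H d) :
    ∀ (k : ℕ) (p : ℕ) (_ : List (NE J)), (RS V k).H p
  | 0, 0, [] => (RS V 0).cls ((RS.of V 0).app 0 (fun i => i.elim0)) Submodule.mem_top
  | k + 1, p, D :: L => ∑ q ∈ Finset.range (p + 1),
      SV.Hmap (rsIso V k) p (crsH p (y D q) (YY y k (p - q) L))
  | _, _, _ => 0

/-! ### coordinates -/

private theorem A4B6_uniq {ι M : Type} [AddCommGroup M] [Module (ZMod 2) M] {g : ι → M}
    {S : Set ι} (li : ∀ c : ι →₀ ZMod 2, (∀ i, c i ≠ 0 → i ∈ S) →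
      (c.sum fun i r => r • g i) = 0 → c = 0) {c c' : ι →₀ ZMod 2}
    (h : ∀ i, c i ≠ 0 → i ∈ S) (h' : ∀ i, c' i ≠ 0 → i ∈ S)
    (he : (c.sum fun i r => r • g i) = c'.sum fun i r => r • g i) : c = c' := by
  have h1 : c - c' = 0 := by
    refine li _ (fun i hi => ?_) ?_
    · by_contra hS
      apply hi
      have h2 : c i = 0 := by
        by_contra h3
        exact hS (h i h3)
      have h3 : c' i = 0 := by
        by_contra h4
        exact hS (h' i h4)
      rw [Finsupp.sub_apply, h2, h3, sub_zero]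
    · have h2 : ∀ c : ι →₀ ZMod 2, (c.sum fun i r => r • g i) =
          Finsupp.linearCombination (ZMod 2) g c := fun c =>
        (Finsupp.linearCombination_apply (ZMod 2) c).symm
      rw [h2, map_sub, ← h2, ← h2, he, sub_self]
  exact sub_eq_zero.1 h1

private theorem A4B6_dual {ι M : Type} [AddCommGroup M] [Module (ZMod 2) M] {g : ι → M}
    {S : Set ι} (li : ∀ c : ι →₀ ZMod 2, (∀ i, c i ≠ 0 → i ∈ S) →
      (c.sum fun i r => r • g i) = 0 → c = 0)
    (span : ∀ x, ∃ c : ι →₀ ZMod 2, (∀ i, c i ≠ 0 → i ∈ S) ∧ (c.sum fun i r => r • g i) = x)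
    (i0 : ι) : ∃ α : M →ₗ[ZMod 2] ZMod 2, (∀ i ∈ S, i ≠ i0 → α (g i) = 0) ∧
      (i0 ∈ S → α (g i0) = 1) := by
  classical
  choose c hc hs using span
  have h2 : ∀ c : ι →₀ ZMod 2, (c.sum fun i r => r • g i) =
      Finsupp.linearCombination (ZMod 2) g c := fun c =>
    (Finsupp.linearCombination_apply (ZMod 2) c).symm
  have hadd : ∀ x y, c (x + y) = c x + c y := by
    intro x y
    refine A4B6_uniq li (hc _) (fun i hi => ?_) ?_
    · by_contra hS
      apply hi
      have h3 : c x i = 0 := by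
        by_contra h3
        exact hS (hc x i h3)
      have h4 : c y i = 0 := by
        by_contra h4
        exact hS (hc y i h4)
      rw [Finsupp.add_apply, h3, h4, add_zero]
    · rw [hs, h2, map_add, ← h2, ← h2, hs, hs]
  have hsmul : ∀ (r : ZMod 2) x, c (r • x) = r • c x := by
    intro r x
    refine A4B6_uniq li (hc _) (fun i hi => ?_) ?_
    · refine hc x i fun h3 => hi ?_
      rw [Finsupp.smul_apply, h3, smul_zero]
    · rw [hs, h2, map_smul, ← h2, hs]
  have hsing : ∀ i ∈ S, c (g i) = Finsupp.single i 1 := by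
    intro i hi
    refine A4B6_uniq li (hc _) (fun j hj => ?_) ?_
    · rw [Finsupp.single_apply] at hj
      by_cases h3 : i = j
      · rw [← h3]; exact hi
      · rw [if_neg h3] at hj
        exact absurd rfl hj
    · rw [hs, Finsupp.sum_single_index (by rw [zero_smul]), one_smul]
  refine ⟨⟨⟨fun x => c x i0, fun x y => by rw [hadd]; rfl⟩, fun r x => by
    show c (r • x) i0 = _
    rw [hsmul]; rfl⟩, fun i hi hne => ?_, fun hi => ?_⟩
  · show c (g i) i0 = 0
    rw [hsing i hi, Finsupp.single_eq_of_ne (fun h => hne h.symm)]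
  · show c (g i0) i0 = 1
    rw [hsing i0 hi, Finsupp.single_eq_same]

private theorem A4B6_box {P Q : SV} {p q n : ℕ} (h : p + q = n) (a : Module.Dual (ZMod 2) (P.H p))
    (b : Module.Dual (ZMod 2) (Q.H q)) (x : P.H p) (y : Q.H q) :
    boxF n a b (crsH n x y) = a x * b y := by
  obtain ⟨x, hx, rfl⟩ := A3Box_exists_cls x
  obtain ⟨y, hy, rfl⟩ := A3Box_exists_cls y
  rw [crsH_cls, boxF_crs h]

private theorem A4B6_box_ne {P Q : SV} {p q n p' q' : ℕ} (a : Module.Dual (ZMod 2) (P.H p))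
    (b : Module.Dual (ZMod 2) (Q.H q)) (hp : p' ≠ p) (x : P.H p') (y : Q.H q') :
    boxF n a b (crsH n x y) = 0 := by
  obtain ⟨x, hx, rfl⟩ := A3Box_exists_cls x
  obtain ⟨y, hy, rfl⟩ := A3Box_exists_cls y
  rw [crsH_cls]
  exact boxF_crs_ne a b hp x hx y hy

private theorem A4B6_crsH_zero_left {P Q : SV} {p q : ℕ} (n : ℕ) (y : Q.H q) :
    crsH n (0 : P.H p) y = 0 := by
  obtain ⟨f, hf⟩ := crsH_bilin P Q p q n
  rw [← hf, map_zero, LinearMap.zero_apply]

private theorem A4B6_crsH_zero_right {P Q : SV} {p q : ℕ} (n : ℕ) (x : P.H p) :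
    crsH n x (0 : Q.H q) = 0 := by
  obtain ⟨f, hf⟩ := crsH_bilin P Q p q n
  rw [← hf, map_zero]

private theorem A4B6_lwt_cons {J : Type} [DecidableEq J] (w : J → ℕ) (D : NE J)
    (L : List (NE J)) : lwt w (D :: L) = ∑ j ∈ D.1, w j + lwt w L := by
  unfold lwt
  rw [ty_cons, Multiset.map_add, Multiset.sum_add]
  rfl

private theorem A4B6_YY_cons {V : SV} {J : Type} [DecidableEq J] {w : J → ℕ}
    {y : NE J → ∀ d, (RV V).H d} (h : YB V w y) (k p t : ℕ) (D : NE J) (L : List (NE J))
    (q : ℕ) (hq : ∑ j ∈ D.1, w j = q) (hp : q + t = p) :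
    YY y (k + 1) p (D :: L) = SV.Hmap (rsIso V k) p (crsH p (y D q) (YY y k t L)) := by
  show ∑ q ∈ Finset.range (p + 1),
      SV.Hmap (rsIso V k) p (crsH p (y D q) (YY y k (p - q) L)) = _
  obtain rfl : t = p - q := by omega
  refine Finset.sum_eq_single q (fun q' _ hq' => ?_) (fun h1 => ?_)
  · rw [h.deg D q' (fun h2 => hq' (h2.symm.trans hq)), A4B6_crsH_zero_left, map_zero]
  · exact absurd (Finset.mem_range.2 (by omega)) h1

/-! ### the smash power of length zero -/

private theorem A4B6_pt_d (k : ℕ) (z : Ch PT (k + 1)) :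
    (lin PT).d k z = ((k + 2 : ℕ) : ZMod 2) • (z : Ch PT k) := by
  rw [SV.d, LinearMap.sum_apply]
  have h : ∀ i : Fin (k + 2), (lin PT).act (dlt i) z = (z : Ch PT k) := by
    intro i
    show Finsupp.mapDomain (PT.act (dlt i)) z = z
    exact Finsupp.mapDomain_id
  rw [Finset.sum_congr rfl (fun i _ => h i), Finset.sum_const, Finset.card_univ,
    Fintype.card_fin, Nat.cast_smul_eq_nsmul]

private theorem A4B6_pt_B {p : ℕ} (hp : p ≠ 0) {z : Ch PT p} (hz : z ∈ (lin PT).Z p) :
    z ∈ (lin PT).B p := by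
  obtain ⟨k, rfl⟩ := Nat.exists_eq_succ_of_ne_zero hp
  have h1 : (lin PT).d k z = 0 := hz
  rw [A4B6_pt_d] at h1
  rcases Nat.even_or_odd k with hk | hk
  · refine ⟨(z : Ch PT (k + 2)), ?_⟩
    have h2 := A4B6_pt_d (k + 1) z
    refine h2.trans ?_
    have h3 : ((k + 1 + 2 : ℕ) : ZMod 2) = 1 := by
      obtain ⟨j, rfl⟩ := hk
      have : (2 : ZMod 2) = 0 := rfl
      push_cast
      linear_combination ((j : ZMod 2) + 1) * this
    rw [h3, one_smul]
  · have h3 : ((k + 2 : ℕ) : ZMod 2) = 1 := by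
      obtain ⟨j, rfl⟩ := hk
      have : (2 : ZMod 2) = 0 := rfl
      push_cast
      linear_combination ((j : ZMod 2) + 1) * this
    rw [h3, one_smul] at h1
    have h4 : z = 0 := h1
    rw [h4]
    exact Submodule.zero_mem _

private noncomputable def A4B6_z (V : SV) : Hom PT (RS V 0).ss :=
  ⟨fun m _ => (RS.of V 0).app m (fun i => i.elim0), fun {m n} f x => by
    refine Eq.trans ?_ ((RS.of V 0).nat f (fun i => i.elim0))
    refine congrArg ((RS.of V 0).app m) ?_
    funext i
    exact i.elim0⟩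

private noncomputable def A4B6_g (V : SV) : Hom (VP V 0) (lin PT).ss :=
  ⟨fun n _ => (Finsupp.single () 1 : Ch PT n), fun {a b} f x => by
    show _ = Finsupp.mapDomain _ _
    rw [Finsupp.mapDomain_single]⟩

private theorem A4B6_G (V : SV) : ∃ G : SVHom (RS V 0) (lin PT), ∀ n (x : Fin 0 → V.V n),
    G.app n ((RS.of V 0).app n x) = (Finsupp.single () 1 : Ch PT n) := by
  have hg : ∀ n, ∀ x ∈ (VP0 V 0).car n, (A4B6_g V).app n x = (0 : (lin PT).V n) := by
    rintro n x ⟨i, -⟩
    exact i.elim0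
  exact ⟨quoLift (VP0 V 0) (A4B6_g V) hg, fun n x => quoLift_of (VP0 V 0) (A4B6_g V) hg n x⟩

private theorem A4B6_hz (V : SV) (n : ℕ) (r : ZMod 2) :
    (linHom (A4B6_z V)).app n (Finsupp.single () r) =
      r • ((RS.of V 0).app n (fun i => i.elim0) : (RS V 0).V n) :=
  linExt_single (P := PT) (W := RS V 0) (A4B6_z V).app n () r

private theorem A4B6_zbij (V : SV) (m : ℕ) : Function.Bijective ((linHom (A4B6_z V)).app m) := by
  obtain ⟨G, hG⟩ := A4B6_G V
  have h1 : (G.app m).comp ((linHom (A4B6_z V)).app m) = LinearMap.id := by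
    refine Finsupp.lhom_ext fun u r => ?_
    rw [LinearMap.comp_apply, LinearMap.id_apply]
    refine (congrArg (G.app m) (A4B6_hz V m r)).trans ?_
    rw [map_smul]
    refine (congrArg (fun z => r • z) (hG m (fun i => i.elim0))).trans ?_
    show r • (Finsupp.single () 1 : Ch PT m) = Finsupp.single () r
    rw [Finsupp.smul_single, smul_eq_mul, mul_one]
  have h2 : ((linHom (A4B6_z V)).app m).comp (G.app m) = LinearMap.id := by
    refine quo_ext (VP0 V 0) fun x => ?_
    rw [LinearMap.comp_apply, LinearMap.id_apply]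
    refine (congrArg ((linHom (A4B6_z V)).app m) (hG m x)).trans ?_
    refine (A4B6_hz V m 1).trans ?_
    rw [one_smul]
    refine congrArg ((RS.of V 0).app m) ?_
    funext i
    exact i.elim0
  exact Function.bijective_iff_has_inverse.2 ⟨G.app m, fun z => LinearMap.congr_fun h1 z,
    fun z => LinearMap.congr_fun h2 z⟩

private theorem A4B6_Z0 {W : SV} (z : W.V 0) : z ∈ W.Z 0 := Submodule.mem_top

/-- the class of the empty tuple -/
private noncomputable def A4B6_e (V : SV) : (RS V 0).H 0 :=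
  (RS V 0).cls ((RS.of V 0).app 0 (fun i => i.elim0)) (A4B6_Z0 _)

private noncomputable def A4B6_e' : (lin PT).H 0 :=
  (lin PT).cls (Finsupp.single () 1 : Ch PT 0) (A4B6_Z0 _)

private theorem A4B6_e_eq (V : SV) : A4B6_e V = SV.Hmap (linHom (A4B6_z V)) 0 A4B6_e' := by
  unfold A4B6_e'
  rw [SV.Hmap_cls]
  refine (A3Box_cls_congr ?_ _ _).symm
  refine (A4B6_hz V 0 1).trans ?_
  rw [one_smul]

private theorem A4B6_e'_smul (r : ZMod 2) :
    r • A4B6_e' = (lin PT).cls (Finsupp.single () r : Ch PT 0) (A4B6_Z0 _) := by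
  unfold A4B6_e'
  refine Eq.trans (A3Box_cls_smul r _).symm (A3Box_cls_congr ?_ _ _)
  show r • (Finsupp.single () 1 : Ch PT 0) = Finsupp.single () r
  rw [Finsupp.smul_single, smul_eq_mul, mul_one]

private theorem A4B6_e_ne (V : SV) (r : ZMod 2) (hr : r • A4B6_e V = 0) : r = 0 := by
  rw [A4B6_e_eq, ← map_smul] at hr
  have h1 := (Hmap_bijective _ (A4B6_zbij V) 0).1 (hr.trans (map_zero _).symm)
  rw [A4B6_e'_smul] at h1
  obtain ⟨w, hw⟩ := (Submodule.Quotient.mk_eq_zero _).1 h1
  have h2 : (lin PT).d 0 w = (Finsupp.single () r : Ch PT 0) := hw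
  rw [A4B6_pt_d] at h2
  have h3 : ((0 + 2 : ℕ) : ZMod 2) = 0 := rfl
  rw [h3, zero_smul] at h2
  have h4 := congrArg (fun u : Ch PT 0 => u ()) h2
  simp only [Finsupp.single_eq_same] at h4
  exact h4.symm

private theorem A4B6_span_zero (V : SV) (x : (RS V 0).H 0) : ∃ r : ZMod 2, x = r • A4B6_e V := by
  obtain ⟨x', rfl⟩ := (Hmap_bijective _ (A4B6_zbij V) 0).2 x
  obtain ⟨z, hz, rfl⟩ := A3Box_exists_cls x'
  refine ⟨(z : Ch PT 0) (), ?_⟩
  rw [A4B6_e_eq, ← map_smul, A4B6_e'_smul]
  refine congrArg (SV.Hmap (linHom (A4B6_z V)) 0) (A3Box_cls_congr ?_ _ _)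
  refine Finsupp.ext fun u => ?_
  rw [show u = () from rfl, Finsupp.single_eq_same]

private theorem A4B6_pos_zero (V : SV) {p : ℕ} (hp : p ≠ 0) (x : (RS V 0).H p) : x = 0 := by
  obtain ⟨x', rfl⟩ := (Hmap_bijective _ (A4B6_zbij V) p).2 x
  obtain ⟨z, hz, rfl⟩ := A3Box_exists_cls x'
  have h1 : (lin PT).cls z hz = 0 := (Submodule.Quotient.mk_eq_zero _).2 (A4B6_pt_B hp hz)
  rw [h1, map_zero]

private theorem A4B6_li {V : SV} {J : Type} [DecidableEq J] {w : J → ℕ}
    {y : NE J → ∀ d, (RV V).H d} (h : YB V w y) : ∀ (k p : ℕ),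
    (∀ (c : LC J), (∀ L, c L ≠ 0 → L.length = k ∧ lwt w L = p) →
      (c.sum fun L r => r • YY y k p L) = 0 → c = 0) ∧
    (∀ (x : (RS V k).H p), ∃ c : LC J, (∀ L, c L ≠ 0 → L.length = k ∧ lwt w L = p) ∧
      (c.sum fun L r => r • YY y k p L) = x) := by
  classical
  intro k
  induction k with
  | zero =>
    intro p
    have hl0 : lwt w ([] : List (NE J)) = 0 := rfl
    by_cases hp : p = 0
    · subst hp
      have hY : YY y 0 0 ([] : List (NE J)) = A4B6_e V := rfl
      constructor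
      · intro c hc hs
        have hc1 : c = Finsupp.single [] (c []) := by
          ext L
          by_cases hL : L = []
          · rw [hL, Finsupp.single_eq_same]
          · rw [Finsupp.single_eq_of_ne hL]
            by_contra h1
            exact hL (List.length_eq_zero_iff.1 (hc L h1).1)
        rw [hc1, Finsupp.sum_single_index (by rw [zero_smul]), hY] at hs
        rw [hc1, A4B6_e_ne V _ hs, Finsupp.single_zero]
      · intro x
        obtain ⟨r, rfl⟩ := A4B6_span_zero V x
        refine ⟨Finsupp.single [] r, fun L hL => ?_, ?_⟩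
        · by_cases h1 : L = []
          · rw [h1]; exact ⟨rfl, hl0⟩
          · exact absurd (Finsupp.single_eq_of_ne h1) hL
        · rw [Finsupp.sum_single_index (by rw [zero_smul]), hY]
    · constructor
      · intro c hc _
        ext L
        by_contra h1
        obtain ⟨h2, h3⟩ := hc L h1
        rw [List.length_eq_zero_iff.1 h2, hl0] at h3
        exact hp h3.symm
      · intro x
        exact ⟨0, fun L hL => absurd rfl hL, by rw [Finsupp.sum_zero_index, A4B6_pos_zero V hp x]⟩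
  | succ k ih =>
    intro p
    let e := LinearEquiv.ofBijective (SV.Hmap (rsIso V k) p) (Hmap_bijective _ (rsIso_bij V k) p)
    constructor
    · intro c hc hs
      refine Finsupp.ext fun L0 => ?_
      by_contra hL0
      have hL0' : c L0 ≠ 0 := hL0
      obtain ⟨h1, h2⟩ := hc L0 hL0'
      match L0, h1, h2, hL0' with
      | [], h1, _, _ => exact absurd h1 (Nat.succ_ne_zero k).symm
      | D0 :: L1, h1, h2, hL0' =>
        rw [A4B6_lwt_cons] at h2
        have hlen : L1.length = k := by simpa using h1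
        obtain ⟨α, hα, hα1⟩ := A4B6_dual (g := fun D => y D (∑ j ∈ D0.1, w j))
          (S := {D : NE J | ∑ j ∈ D.1, w j = ∑ j ∈ D0.1, w j})
          (fun c hc => h.li _ c hc) (fun x => h.span _ x) D0
        obtain ⟨β, hβ, hβ1⟩ := A4B6_dual (g := fun L => YY y k (lwt w L1) L)
          (S := {L : List (NE J) | L.length = k ∧ lwt w L = lwt w L1})
          (ih (lwt w L1)).1 (ih (lwt w L1)).2 L1
        have h3 := congrArg (fun z => boxF p α β (e.symm z)) hs
        have h4 : ∀ (D : NE J) (L : List (NE J)), c (D :: L) ≠ 0 → e.symm (YY y (k + 1) p (D :: L)) =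
            crsH p (y D (∑ j ∈ D.1, w j)) (YY y k (lwt w L) L) := by
          intro D L hDL
          obtain ⟨h5, h6⟩ := hc _ hDL
          rw [A4B6_lwt_cons] at h6
          rw [A4B6_YY_cons h k p (lwt w L) D L _ rfl h6]
          exact e.symm_apply_apply _
        have h5 : boxF p α β (e.symm (c.sum fun L r => r • YY y (k + 1) p L)) = c (D0 :: L1) := by
          rw [Finsupp.sum, map_sum, map_sum, Finset.sum_eq_single (D0 :: L1)]
          · rw [map_smul, map_smul, h4 D0 L1 hL0', A4B6_box h2, hα1 rfl, hβ1 ⟨hlen, rfl⟩, mul_one,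
              smul_eq_mul, mul_one]
          · intro L hL hne
            have hcL := Finsupp.mem_support_iff.1 hL
            rw [map_smul, map_smul]
            obtain ⟨h5, h6⟩ := hc L hcL
            match L, h5, h6, hcL, hne with
            | [], h5, _, _, _ => exact absurd h5 (Nat.succ_ne_zero k).symm
            | D :: L, h5, h6, hcL, hne =>
              have hlen' : L.length = k := by simpa using h5
              rw [A4B6_lwt_cons] at h6
              rw [h4 D L hcL]
              by_cases h7 : ∑ j ∈ D.1, w j = ∑ j ∈ D0.1, w j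
              · have h8 : lwt w L = lwt w L1 := by omega
                rw [h7, h8, A4B6_box h2]
                by_cases h9 : D = D0
                · have h10 : L ≠ L1 := by
                    rintro rfl
                    exact hne (by rw [h9])
                  rw [hβ L ⟨hlen', h8⟩ h10, mul_zero, smul_zero]
                · rw [hα D h7 h9, zero_mul, smul_zero]
              · rw [A4B6_box_ne _ _ h7, smul_zero]
          · intro h6
            rw [Finsupp.notMem_support_iff.1 h6, zero_smul, map_zero, map_zero]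
        have h6 : c (D0 :: L1) = 0 := by
          rw [← h5, hs, map_zero, map_zero]
        exact hL0' h6
    · intro x
      let M : Submodule (ZMod 2) ((RS V (k + 1)).H p) :=
        (Finsupp.supported (ZMod 2) (ZMod 2)
          {L : List (NE J) | L.length = k + 1 ∧ lwt w L = p}).map
          (Finsupp.linearCombination (ZMod 2) (YY y (k + 1) p))
      have hYM : ∀ L : List (NE J), L.length = k + 1 → lwt w L = p → YY y (k + 1) p L ∈ M := by
        intro L h1 h2
        refine ⟨Finsupp.single L 1, ?_, ?_⟩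
        · exact Finsupp.single_mem_supported (ZMod 2) 1 ⟨h1, h2⟩
        · rw [Finsupp.linearCombination_single, one_smul]
      have hprod : ∀ (q t : ℕ), q + t = p → ∀ (a : (RV V).H q) (b : (RS V k).H t),
          SV.Hmap (rsIso V k) p (crsH p a b) ∈ M := by
        intro q t hqt a b
        obtain ⟨f, hf⟩ := crsH_bilin (RV V) (RS V k) q t p
        obtain ⟨ca, hca, rfl⟩ := h.span q a
        obtain ⟨cb, hcb, rfl⟩ := (ih t).2 b
        rw [← hf, Finsupp.sum, map_sum, LinearMap.sum_apply, map_sum]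
        refine Submodule.sum_mem _ fun D hD => ?_
        rw [map_smul, LinearMap.smul_apply, map_smul]
        refine Submodule.smul_mem _ _ ?_
        rw [Finsupp.sum, map_sum, map_sum]
        refine Submodule.sum_mem _ fun L hL => ?_
        rw [map_smul, map_smul]
        refine Submodule.smul_mem _ _ ?_
        have h1 := hca D (Finsupp.mem_support_iff.1 hD)
        have h2 := hcb L (Finsupp.mem_support_iff.1 hL)
        rw [hf, ← A4B6_YY_cons h k p t D L q h1 hqt]
        refine hYM _ (by rw [List.length_cons, h2.1]) ?_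
        rw [A4B6_lwt_cons, h1, h2.2, hqt]
      have hx : x ∈ M := by
        obtain ⟨x', rfl⟩ := (Hmap_bijective _ (rsIso_bij V k) p).2 x
        obtain ⟨z, hz, rfl⟩ := A3Box_exists_cls x'
        obtain ⟨N, pp, qq, u, v, hpq, hu, hv, hB⟩ := kun_surj (RV V) (RS V k) p z hz
        have hZ : ∀ i, crs p (u i) (v i) ∈ ((RV V).tens (RS V k)).Z p := fun i =>
          crs_mem_Z (hu i) (hv i)
        have hs : ∑ i, crs p (u i) (v i) ∈ ((RV V).tens (RS V k)).Z p :=
          Submodule.sum_mem _ fun i _ => hZ i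
        rw [A3Box_cls_eq hz hs hB, A3Box_cls_sum Finset.univ _ hZ hs, map_sum]
        refine Submodule.sum_mem _ fun i _ => ?_
        rw [← crsH_cls (u i) (hu i) (v i) (hv i)]
        exact hprod _ _ (hpq i) _ _
      obtain ⟨c, hc, rfl⟩ := hx
      refine ⟨c, fun L hL => ?_, (Finsupp.linearCombination_apply (ZMod 2) c).symm⟩
      exact hc (Finsupp.mem_support_iff.2 hL)

private theorem A4B6_diff {V : SV} {J : Type} [DecidableEq J] {w : J → ℕ}
    {y : NE J → ∀ d, (RV V).H d} (h : YB V w y) : ∀ (k p : ℕ) (L : List (NE J)),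
    L.length = k + 1 → lwt w L = p →
      SV.Hmap (pmD V k) p (YY y (k + 1) p L) =
        Finsupp.linearCombination (ZMod 2) (YY y k p) (dlc L) := by
  intro k
  induction k with
  | zero =>
    intro p L hL _
    match L, hL with
    | [D], _ =>
      have h1 : pmD V 0 = ⟨fun n => 0, fun _ _ => by
          rw [LinearMap.zero_apply, LinearMap.zero_apply, map_zero]⟩ := by
        refine quo_ext' (VP0 V 1) fun n x => ?_
        refine (pmD_of V 0 n x).trans ?_
        exact Finset.sum_empty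
      obtain ⟨z, hz, h2⟩ := A3Box_exists_cls (YY y 1 p [D])
      have h3 : (Finsupp.linearCombination (ZMod 2) (YY y 0 p)) (dlc [D]) = 0 := by
        show (Finsupp.linearCombination (ZMod 2) (YY y 0 p)) (0 : LC J) = 0
        rw [map_zero]
      rw [h3, ← h2, SV.Hmap_cls]
      refine A3Box_cls_zero ?_ _
      rw [h1]
      rfl
    | [], h => exact absurd h (by simp)
    | _ :: _ :: _, h => exact absurd h (by simp)
  | succ k ih =>
    intro p L hL hw
    match L, hL, hw with
    | [], h, _ => exact absurd h (by simp)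
    | [_], h, _ => exact absurd h (by simp)
    | D :: E :: L, hL, hw =>
      rw [A4B6_lwt_cons, A4B6_lwt_cons] at hw
      have hlen : L.length = k := by simpa using hL
      have e1 : YY y (k + 1 + 1) p (D :: E :: L) = SV.Hmap (rsIso V (k + 1)) p
          (crsH p (y D (∑ j ∈ D.1, w j)) (SV.Hmap (rsIso V k) (∑ j ∈ E.1, w j + lwt w L)
            (crsH (∑ j ∈ E.1, w j + lwt w L) (y E (∑ j ∈ E.1, w j)) (YY y k (lwt w L) L)))) := by
        rw [A4B6_YY_cons h (k + 1) p (∑ j ∈ E.1, w j + lwt w L) D (E :: L) _ rfl hw,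
          A4B6_YY_cons h k (∑ j ∈ E.1, w j + lwt w L) (lwt w L) E L _ rfl rfl]
      rw [e1, pmD_H V k _ _ _ p hw]
      have e2 : dlc (D :: E :: L) = (if Disjoint D.1 E.1 then Finsupp.single (D.un E :: L) 1 else 0) +
        (dlc (E :: L)).mapDomain (D :: ·) := rfl
      rw [e2, map_add]
      refine congrArg₂ (· + ·) ?_ ?_
      · rw [h.mul D E _ _ rfl rfl]
        by_cases hd : Disjoint D.1 E.1
        · rw [if_pos hd, if_pos hd, Finsupp.linearCombination_single, one_smul]
          have e3 : ∑ j ∈ (D.un E).1, w j = ∑ j ∈ D.1, w j + ∑ j ∈ E.1, w j :=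
            Finset.sum_union hd
          rw [A4B6_YY_cons h k p (lwt w L) (D.un E) L _ e3 (by omega)]
        · rw [if_neg hd, if_neg hd, A4B6_crsH_zero_left, map_zero, map_zero]
      · have e4 := ih (∑ j ∈ E.1, w j + lwt w L) (E :: L) (by simpa using hlen)
          (A4B6_lwt_cons w E L)
        rw [A4B6_YY_cons h k (∑ j ∈ E.1, w j + lwt w L) (lwt w L) E L _ rfl rfl] at e4
        rw [e4, Finsupp.linearCombination_mapDomain]
        obtain ⟨f, hf⟩ := crsH_bilin (RV V) (RS V k) (∑ j ∈ D.1, w j)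
          (∑ j ∈ E.1, w j + lwt w L) p
        rw [← hf, Finsupp.linearCombination_apply, Finsupp.linearCombination_apply, Finsupp.sum,
          Finsupp.sum, map_sum, map_sum]
        refine Finset.sum_congr rfl fun M _ => ?_
        rw [map_smul, map_smul, hf, Function.comp_apply,
          A4B6_YY_cons h k p (∑ j ∈ E.1, w j + lwt w L) D M _ rfl hw]

theorem RS_basis {V : SV} {J : Type} [DecidableEq J] {w : J → ℕ} {y : NE J → ∀ d, (RV V).H d}
    (h : YB V w y) (p : ℕ) :
    (∀ (k : ℕ) (c : LC J), (∀ L, c L ≠ 0 → L.length = k ∧ lwt w L = p) →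
      (c.sum fun L r => r • YY y k p L) = 0 → c = 0) ∧
    (∀ (k : ℕ) (x : (RS V k).H p), ∃ c : LC J, (∀ L, c L ≠ 0 → L.length = k ∧ lwt w L = p) ∧
      (c.sum fun L r => r • YY y k p L) = x) ∧
    ∀ (k : ℕ) (L : List (NE J)), L.length = k + 1 → lwt w L = p →
      SV.Hmap (pmD V k) p (YY y (k + 1) p L) = (dlc L).sum fun M r => r • YY y k p M := by
  refine ⟨fun k => (A4B6_li h k p).1, fun k => (A4B6_li h k p).2, fun k L hL hw => ?_⟩
  rw [A4B6_diff h k p L hL hw, Finsupp.linearCombination_apply]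

end MM
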