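import Pool.Agent.Lib_MP_33f7bb_d.A4B6
import Pool.Agent.Lib_MP_33f7bb_d.A4R5

/-!
# A4-B7: from a simple system of primitive generators to a basis with exterior multiplication

`z_D = ∏_(j ∈ D) z_j`.
1. `z_j` vanishes on the base vertex: the constant map `c : V.ss → V.ss` with value `0` satisfies `add ∘ (c, c) = c`, so
   `c^* z_j = c^* z_j + c^* z_j = 0`.  Hence `(z_D) d (vcls 0) = 0` for `D ≠ ∅` (only `d = 0` matters).
2. So `z_D d = red (a_D)` for `D ≠ ∅` (`red_surj`, `red_zero_iff`), and for every `d` the `a_D`, `D ≠ ∅`, `∑ w = d`, form a basis of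
   `Dual ((RV V).H d)`: `red` is injective; a class `red y = ∑ c_D z_D` vanishes on the base vertex, `z_∅ = 1` does not, so `c_∅ = 0`.
3. `(RV V).H d` is finite dimensional (its dual is spanned by finitely many elements); `y D d` = dual basis (`0` unless
   `∑_D w = d`).
4. Products.  Let `F ≠ ∅`, `q : lin (V × V) → RV ⊗ RV` the composite of `linProd` and `pr ⊗ pr`; `q` is surjective in homology
   (`linProd` is bijective, `pr ⊗ pr` has the section `sec ⊗ sec`).  `pmul ∘ q` is `[(u, v)] ↦ [u+v] + [u] + [v]`, so the pull back of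
   `a_F` along `pmul ∘ q` is `add^* z_F + fst^* z_F + snd^* z_F = ∏_(j ∈ F) (fst^* z_j + snd^* z_j) + …
   = ∑_(∅ ≠ S ⊊ F) fst^* z_S * snd^* z_(F ∖ S)` (`Finset.prod_add`), and `fst^* z_S * snd^* z_S'` is the pull back along `q` of
   `boxF a_S a_S'` (`cup_fst_snd`, `boxF_map`).  So `a_F ∘ H(pmul) = ∑ boxF a_S a_(F∖S)` and the value on `crsH (y D p) (y E q)` is
   `∑ [S = D] [F ∖ S = E] = [D ∩ E = ∅, F = D ∪ E]`, the value of `a_F` on the right hand side.  Both sides have the same values
   on the basis `a_F` of the dual, so they are equal.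
-/

open scoped TensorProduct

namespace MM

/-- the base vertex as a map from the point -/
private def A4B7_e (V : SV) : Hom PT V.ss :=
  ⟨fun n _ => (0 : V.V n), fun f _ => (map_zero (V.act f)).symm⟩

private theorem A4B7_pt (V : SV) (a : CR V.ss) (h : CR.map (A4B7_e V) a = 0) :
    a 0 (vcls V.zv) = 0 := by
  have h1 : (CR.map (A4B7_e V) a) 0 (vcls ()) = 0 := by
    rw [h]
    rfl
  have h2 : SV.Hmap (linMap (A4B7_e V)) 0 (vcls ()) = vcls V.zv := by
    unfold vcls
    rw [SV.Hmap_cls]
    apply A3Box_cls_congr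
    show Finsupp.mapDomain _ (Finsupp.single () 1) = Finsupp.single V.zv 1
    rw [Finsupp.mapDomain_single]
    rfl
  rw [← h2]
  exact h1

private theorem A4B7_z (V : SV) (z : CR V.ss) (hp : CR.map (addHom V) z =
    CR.map (Hom.fst V.ss V.ss) z + CR.map (Hom.snd V.ss V.ss) z) :
    CR.map (A4B7_e V) z = 0 := by
  have h1 : (addHom V).comp (Hom.pair (A4B7_e V) (A4B7_e V)) = A4B7_e V := by
    apply Hom.ext
    funext n x
    exact add_zero (0 : V.V n)
  have h2 : (Hom.fst V.ss V.ss).comp (Hom.pair (A4B7_e V) (A4B7_e V)) = A4B7_e V := rfl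
  have h3 : (Hom.snd V.ss V.ss).comp (Hom.pair (A4B7_e V) (A4B7_e V)) = A4B7_e V := rfl
  have h4 := congrArg (CR.map (Hom.pair (A4B7_e V) (A4B7_e V))) hp
  rw [map_add, ← CR.map_comp, ← CR.map_comp, ← CR.map_comp, h1, h2, h3] at h4
  rw [h4]
  exact two_eq_zero' (CR.map (A4B7_e V) z)

private theorem A4B7_prod (V : SV) {J : Type} (z : J → CR V.ss)
    (hp : ∀ j, CR.map (A4B7_e V) (z j) = 0) {D : Finset J} (hD : D.Nonempty) :
    (∏ i ∈ D, z i : CR V.ss) 0 (vcls V.zv) = 0 := by
  apply A4B7_pt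
  obtain ⟨j, hj⟩ := hD
  rw [map_prod]
  exact Finset.prod_eq_zero hj (hp j)

private theorem A4B7_one (V : SV) : (1 : CR V.ss) 0 (vcls V.zv) = 1 := by
  rw [CR.one_zero]
  unfold vcls
  rw [Hc.unit_cls, Finsupp.sum_single_index rfl]

/-- naturality of the cross product of classes -/
private theorem A4B7_crsH {P P' Q Q' : SV} (f : SVHom P P') (g : SVHom Q Q') {p q : ℕ} (n : ℕ)
    (x : P.H p) (y : Q.H q) :
    SV.Hmap (f.tens g) n (crsH n x y) = crsH n (SV.Hmap f p x) (SV.Hmap g q y) := by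
  obtain ⟨x, hx, rfl⟩ := A3Box_exists_cls x
  obtain ⟨y, hy, rfl⟩ := A3Box_exists_cls y
  rw [crsH_cls, SV.Hmap_cls, SV.Hmap_cls, SV.Hmap_cls, crsH_cls]
  exact A3Box_cls_congr (crs_map f g x y) _ _

/-- value of an external product on a cross product -/
private theorem A4B7_val {Z Z' : SS} {p q n : ℕ} (hn : p + q = n) (b : CR Z) (c : CR Z')
    (w : (lin (Z.prod Z')).H n) (x : (lin Z).H p) (y : (lin Z').H q)
    (hw : SV.Hmap (linProd Z Z') n w = crsH n x y) :
    (CR.map (Hom.fst Z Z') b * CR.map (Hom.snd Z Z') c) n w = b p x * c q y := by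
  rw [CR.mul_apply, LinearMap.sum_apply, Finset.sum_eq_single p]
  · obtain rfl : q = n - p := by omega
    rw [CR.map_apply, CR.map_apply]
    exact cup_ext_crs hn _ _ w x y hw
  · intro k _ hk
    rw [CR.map_apply, CR.map_apply, cup_fst_snd, LinearMap.comp_apply, hw]
    obtain ⟨x, hx, rfl⟩ := A3Box_exists_cls x
    obtain ⟨y, hy, rfl⟩ := A3Box_exists_cls y
    rw [crsH_cls]
    exact boxF_crs_ne _ _ (fun h => hk h.symm) x hx y hy
  · intro h
    exact absurd (Finset.mem_range.2 (by omega)) h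

private theorem A4B7_tens_app {P P' Q Q' : SV} (f : SVHom P P') (g : SVHom Q Q') (n : ℕ)
    (x : P.V n) (y : Q.V n) :
    (f.tens g).app n (x ⊗ₜ[ZMod 2] y) = f.app n x ⊗ₜ[ZMod 2] g.app n y := rfl

private theorem A4B7_lp' (Z Z' : SS) (n : ℕ) (x : (Z.prod Z').S n) :
    (linProd Z Z').app n (Finsupp.single x 1) =
      (Finsupp.single x.1 1 : Ch Z n) ⊗ₜ[ZMod 2] (Finsupp.single x.2 1 : Ch Z' n) := by
  show linExt _ n (Finsupp.single x 1) = _
  rw [linExt_single, one_smul]

private theorem A4B7_lp (V : SV) (m : ℕ) (u v : V.V m) :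
    (linProd V.ss V.ss).app m (Finsupp.single (u, v) 1) =
        (Finsupp.single u 1 : Ch V.ss m) ⊗ₜ[ZMod 2] (Finsupp.single v 1 : Ch V.ss m) :=
  A4B7_lp' V.ss V.ss m (u, v)

private theorem A4B7_pm1 (V : SV) (m : ℕ) (u v : V.V m) :
    (pmul V).app m (((R.pr V.zv).tens (R.pr V.zv)).app m ((linProd V.ss V.ss).app m
      (Finsupp.single (u, v) 1))) =
      (R.pr V.zv).app m ((linMap (addHom V)).app m (Finsupp.single (u, v) 1)) +
      (R.pr V.zv).app m ((linMap (Hom.fst V.ss V.ss)).app m (Finsupp.single (u, v) 1)) +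
      (R.pr V.zv).app m ((linMap (Hom.snd V.ss V.ss)).app m (Finsupp.single (u, v) 1)) := by
  have h2 : (linMap (addHom V)).app m (Finsupp.single (u, v) 1) =
      (Finsupp.single (u + v : V.V m) 1 : Ch V.ss m) := Finsupp.mapDomain_single
  have h3 : (linMap (Hom.fst V.ss V.ss)).app m (Finsupp.single (u, v) 1) =
      (Finsupp.single u 1 : Ch V.ss m) := Finsupp.mapDomain_single
  have h4 : (linMap (Hom.snd V.ss V.ss)).app m (Finsupp.single (u, v) 1) =
      (Finsupp.single v 1 : Ch V.ss m) := Finsupp.mapDomain_single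
  rw [A4B7_lp, h2, h3, h4, A4B7_tens_app, R.pr_single, R.pr_single, R.pr_single]
  exact pmul_of V m u v

private theorem A4B7_pm (V : SV) (m : ℕ) (c : Ch (V.ss.prod V.ss) m) :
    (pmul V).app m (((R.pr V.zv).tens (R.pr V.zv)).app m ((linProd V.ss V.ss).app m c)) =
      (R.pr V.zv).app m ((linMap (addHom V)).app m c) +
      (R.pr V.zv).app m ((linMap (Hom.fst V.ss V.ss)).app m c) +
      (R.pr V.zv).app m ((linMap (Hom.snd V.ss V.ss)).app m c) := by
  have h01 : ∀ r : ZMod 2, r = 0 ∨ r = 1 := by decide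
  induction c using Finsupp.induction_linear with
  | zero => simp only [map_zero, add_zero]
  | add a b ha hb =>
    rw [map_add, map_add, map_add, map_add, map_add, map_add, map_add, map_add, map_add, ha, hb]
    abel
  | single x r =>
    rcases h01 r with rfl | rfl
    · rw [Finsupp.single_zero]
      simp only [map_zero, add_zero]
    · exact A4B7_pm1 V m x.1 x.2
private theorem A4B7_pmH (V : SV) (n : ℕ) (w : (lin (V.ss.prod V.ss)).H n) :
    SV.Hmap (pmul V) n (SV.Hmap ((R.pr V.zv).tens (R.pr V.zv)) n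
      (SV.Hmap (linProd V.ss V.ss) n w)) =
      SV.Hmap (R.pr V.zv) n (SV.Hmap (linMap (addHom V)) n w) +
      SV.Hmap (R.pr V.zv) n (SV.Hmap (linMap (Hom.fst V.ss V.ss)) n w) +
      SV.Hmap (R.pr V.zv) n (SV.Hmap (linMap (Hom.snd V.ss V.ss)) n w) := by
  obtain ⟨c, hc, rfl⟩ := A3Box_exists_cls w
  simp only [SV.Hmap_cls]
  exact A3Box_cls_congr (A4B7_pm V n c) _ (Submodule.add_mem _ (Submodule.add_mem _
    ((R.pr V.zv).map_Z ((linMap (addHom V)).map_Z hc))
    ((R.pr V.zv).map_Z ((linMap (Hom.fst V.ss V.ss)).map_Z hc)))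
    ((R.pr V.zv).map_Z ((linMap (Hom.snd V.ss V.ss)).map_Z hc)))

private theorem A4B7_sum {J : Type} [DecidableEq J] (D E F : Finset J) :
    ∑ S ∈ F.powerset, (if D = S then (1 : ZMod 2) else 0) * (if E = F \ S then 1 else 0) =
      if Disjoint D E ∧ D ∪ E = F then 1 else 0 := by
  by_cases h : Disjoint D E ∧ D ∪ E = F
  · obtain ⟨h1, rfl⟩ := h
    rw [if_pos ⟨h1, rfl⟩, Finset.sum_eq_single D]
    · rw [if_pos rfl, if_pos (Finset.union_sdiff_cancel_left h1).symm, mul_one]
    · intro S _ hS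
      rw [if_neg (fun h => hS h.symm), zero_mul]
    · intro h2
      exact absurd (Finset.mem_powerset.2 Finset.subset_union_left) h2
  · rw [if_neg h]
    refine Finset.sum_eq_zero fun S hS => ?_
    by_cases h1 : D = S
    · by_cases h2 : E = F \ S
      · exfalso
        apply h
        subst h1
        subst h2
        exact ⟨Finset.disjoint_sdiff, Finset.union_sdiff_of_subset (Finset.mem_powerset.1 hS)⟩
      · rw [if_neg h2, mul_zero]
    · rw [if_neg h1, zero_mul]

theorem exists_YB (V : SV) {J : Type} [DecidableEq J] (w : J → ℕ) (z : J → CR V.ss)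
    (h : CSimple V.ss w z)
    (hp : ∀ j, CR.map (addHom V) (z j) =
      CR.map (Hom.fst V.ss V.ss) (z j) + CR.map (Hom.snd V.ss V.ss) (z j)) :
    ∃ y : NE J → ∀ d, (RV V).H d, YB V w y := by
  classical
  have hz0 : ∀ j, CR.map (A4B7_e V) (z j) = 0 := fun j => A4B7_z V (z j) (hp j)
  obtain ⟨y', hdeg, hdual, hsp⟩ := h.dual
  -- the functionals
  have ha : ∀ (D : NE J) (d : ℕ), ∃ a : Module.Dual (ZMod 2) ((RV V).H d),
      red V.zv d a = (∏ i ∈ D.1, z i : CR V.ss) d := by
    intro D d
    rcases Nat.eq_zero_or_pos d with rfl | hd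
    · rw [red_zero_iff]
      exact A4B7_prod V z hz0 D.2
    · exact red_surj V.zv d hd _
  choose a ha using ha
  have hval : ∀ (S D : Finset J) (p : ℕ), ∑ j ∈ D, w j = p →
      (∏ i ∈ S, z i : CR V.ss) p (y' D p) = if D = S then 1 else 0 := by
    intro S D p hD
    by_cases hS : ∑ j ∈ S, w j = p
    · exact (hdual D S p hS).trans (by congr)
    · have h1 : (∏ i ∈ S, z i : CR V.ss) p = 0 := h.hom S p (fun h => hS h.symm)
      rw [h1, if_neg, LinearMap.zero_apply]
      rintro rfl
      exact hS hD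
  have hval' : ∀ (S D : Finset J) (p : ℕ), ∑ j ∈ S, w j = p →
      (∏ i ∈ S, z i : CR V.ss) p (y' D p) = if D = S then 1 else 0 := fun S D p hS =>
    (hdual D S p hS).trans (by congr)
  set y : NE J → ∀ d, (RV V).H d := fun D d => SV.Hmap (R.pr V.zv) d (y' D.1 d) with hy
  have hay : ∀ (F D : NE J) (d : ℕ), ∑ j ∈ F.1, w j = d →
      a F d (y D d) = if D = F then 1 else 0 := by
    intro F D d hF
    have h1 : a F d (y D d) = (red V.zv d (a F d)) (y' D.1 d) := rfl
    rw [h1, ha, hval' F.1 D.1 d hF]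
    by_cases hDF : D = F
    · rw [if_pos hDF, if_pos (congrArg Subtype.val hDF)]
    · rw [if_neg hDF, if_neg (fun h => hDF (Subtype.ext h))]
  have hemp : SV.Hmap (R.pr V.zv) 0 (y' ∅ 0) = 0 := by
    have h1 : y' ∅ 0 = vcls V.zv := by
      refine h.ext_H fun E hE => ?_
      refine (hval' E ∅ 0 hE).trans ?_
      by_cases hE0 : ∅ = E
      · subst hE0
        rw [if_pos rfl]
        exact (A4B7_one V).symm
      · rw [if_neg hE0]
        exact (A4B7_prod V z hz0 (Finset.nonempty_iff_ne_empty.2 (fun h => hE0 h.symm))).symm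
    rw [h1]
    unfold vcls
    rw [SV.Hmap_cls, A3Box_cls_zero]
    rw [R.pr_single]
    have h2 := R.of_base V.zv 0
    have h3 : V.ss.deg V.zv 0 = V.zv := by
      show V.act _ (0 : V.V 0) = 0
      exact map_zero _
    rwa [h3] at h2
  have hspan : ∀ (d : ℕ) (x : (RV V).H d), ∃ c : NE J →₀ ZMod 2,
      (∀ D, c D ≠ 0 → ∑ j ∈ D.1, w j = d) ∧ (c.sum fun D r => r • y D d) = x := by
    intro d x
    obtain ⟨x', rfl⟩ := Hmap_pr_surj V.zv d x
    set cc : Finset J →₀ ZMod 2 := Finsupp.onFinset (h.fin d).toFinset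
      (fun D => if ∑ j ∈ D, w j = d then (∏ i ∈ D, z i : CR V.ss) d x' else 0) (by
        intro D hD
        rw [Set.Finite.mem_toFinset]
        by_contra hne
        exact hD (if_neg hne)) with hcc
    have hcca : ∀ D, cc D = if ∑ j ∈ D, w j = d then (∏ i ∈ D, z i : CR V.ss) d x' else 0 :=
      fun D => rfl
    refine ⟨cc.subtypeDomain fun D => D.Nonempty, ?_, ?_⟩
    · intro D hD
      by_contra hne
      apply hD
      show cc D.1 = 0
      rw [hcca, if_neg hne]
    · have h1 : x' = ∑ D ∈ (h.fin d).toFinset, cc D • y' D d := by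
        conv_lhs => rw [hsp d x']
        refine Finset.sum_congr rfl fun D hD => ?_
        have hD' : ∑ j ∈ D, w j = d := by
          have h4 := (h.fin d).mem_toFinset.1 hD
          exact h4
        rw [hcca, if_pos hD']
      conv_rhs => rw [h1, map_sum]
      rw [Finsupp.sum]
      have h2 : ∀ D ∈ (h.fin d).toFinset, SV.Hmap (R.pr V.zv) d (cc D • y' D d) =
          if hD : D.Nonempty then cc D • y ⟨D, hD⟩ d else 0 := by
        intro D hD
        rw [map_smul]
        by_cases hD' : D.Nonempty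
        · rw [dif_pos hD']
        · rw [dif_neg hD']
          rw [Finset.not_nonempty_iff_eq_empty] at hD'
          subst hD'
          have h3 : (∑ j ∈ (∅ : Finset J), w j) = d := by
            have h4 := (h.fin d).mem_toFinset.1 hD
            exact h4
          rw [Finset.sum_empty] at h3
          subst h3
          rw [hemp, smul_zero]
      have h4 : ∑ D ∈ (h.fin d).toFinset, (if hD : D.Nonempty then cc D • y ⟨D, hD⟩ d else 0) =
          ∑ D ∈ (cc.subtypeDomain fun D => D.Nonempty).support.map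
            (Function.Embedding.subtype fun D : Finset J => D.Nonempty),
            (if hD : D.Nonempty then cc D • y ⟨D, hD⟩ d else 0) := by
        symm
        apply Finset.sum_subset
        · intro D hD
          obtain ⟨D', hD', rfl⟩ := Finset.mem_map.1 hD
          have h5 : cc D'.1 ≠ 0 := by
            have h6 := Finsupp.mem_support_iff.1 hD'
            exact h6
          rw [Set.Finite.mem_toFinset]
          by_contra hne
          exact h5 (if_neg hne)
        · intro D _ hD
          by_cases hD' : D.Nonempty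
          · rw [dif_pos hD']
            by_cases h5 : cc D = 0
            · rw [h5, zero_smul]
            · exfalso
              apply hD
              exact Finset.mem_map.2 ⟨⟨D, hD'⟩, Finsupp.mem_support_iff.2 h5, rfl⟩
          · rw [dif_neg hD']
      rw [Finset.sum_congr rfl h2, h4, Finset.sum_map]
      refine Finset.sum_congr rfl fun D _ => ?_
      show cc D.1 • y D d = if hD : D.1.Nonempty then cc D.1 • y ⟨D.1, hD⟩ d else 0
      rw [dif_pos D.2]
  have hext : ∀ (d : ℕ) (x x' : (RV V).H d), (∀ F : NE J, ∑ j ∈ F.1, w j = d →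
      a F d x = a F d x') → x = x' := by
    intro d x x' hx
    rw [← sub_eq_zero]
    obtain ⟨c, hc, hcx⟩ := hspan d (x - x')
    have hc0 : c = 0 := by
      refine Finsupp.ext fun F => ?_
      by_contra hF
      have hF' : c F ≠ 0 := hF
      have h1 := congrArg (a F d) hcx
      rw [map_sub, hx F (hc F hF'), sub_self, Finsupp.sum, map_sum, Finset.sum_eq_single F] at h1
      · rw [map_smul, hay F F d (hc F hF'), if_pos rfl, smul_eq_mul, mul_one] at h1
        exact hF' h1
      · intro D _ hD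
        rw [map_smul, hay F D d (hc F hF'), if_neg hD, smul_zero]
      · intro h2
        rw [Finsupp.notMem_support_iff.1 h2, zero_smul, map_zero]
    rw [← hcx, hc0, Finsupp.sum_zero_index]
  refine ⟨y, ?_, ?_, hspan, ?_⟩
  · intro D d hD
    show SV.Hmap (R.pr V.zv) d (y' D.1 d) = 0
    rw [hdeg D.1 d hD, map_zero]
  · intro d c hc h0
    refine Finsupp.ext fun F => ?_
    by_contra hF
    have hF' : c F ≠ 0 := hF
    have h1 := congrArg (a F d) h0
    rw [map_zero, Finsupp.sum, map_sum, Finset.sum_eq_single F] at h1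
    · rw [map_smul, hay F F d (hc F hF'), if_pos rfl, smul_eq_mul, mul_one] at h1
      exact hF' h1
    · intro D _ hD
      rw [map_smul, hay F D d (hc F hF'), if_neg hD, smul_zero]
    · intro h2
      rw [Finsupp.notMem_support_iff.1 h2, zero_smul, map_zero]
  · intro D E p q hD hE
    apply hext
    intro F hF
    obtain ⟨W, hW⟩ := (Hmap_linProd_bijective V.ss V.ss (p + q)).2 (crsH (p + q) (y' D.1 p) (y' E.1 q))
    have h1 : crsH (p + q) (y D p) (y E q) = SV.Hmap ((R.pr V.zv).tens (R.pr V.zv)) (p + q)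
        (SV.Hmap (linProd V.ss V.ss) (p + q) W) := by
      rw [hW, A4B7_crsH]
    rw [h1, A4B7_pmH, map_add, map_add]
    have h2 : ∀ (f : Hom (V.ss.prod V.ss) V.ss), a F (p + q) (SV.Hmap (R.pr V.zv) (p + q)
        (SV.Hmap (linMap f) (p + q) W)) = (CR.map f (∏ i ∈ F.1, z i)) (p + q) W := by
      intro f
      have h3 : a F (p + q) (SV.Hmap (R.pr V.zv) (p + q) (SV.Hmap (linMap f) (p + q) W)) =
        (red V.zv (p + q) (a F (p + q))) (SV.Hmap (linMap f) (p + q) W) := rfl
      rw [h3, ha]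
      rfl
    rw [h2, h2, h2]
    have h4 : CR.map (addHom V) (∏ i ∈ F.1, z i) = ∑ S ∈ F.1.powerset,
        CR.map (Hom.fst V.ss V.ss) (∏ i ∈ S, z i) *
          CR.map (Hom.snd V.ss V.ss) (∏ i ∈ F.1 \ S, z i) := by
      rw [map_prod, Finset.prod_congr rfl fun j _ => hp j, Finset.prod_add]
      exact Finset.sum_congr rfl fun S _ => by rw [map_prod, map_prod]
    have h5 : (CR.map (addHom V) (∏ i ∈ F.1, z i)) (p + q) W =
        ∑ S ∈ F.1.powerset, (if D.1 = S then 1 else 0) * (if E.1 = F.1 \ S then 1 else 0) := by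
      rw [h4]
      have h6 : (∑ S ∈ F.1.powerset, CR.map (Hom.fst V.ss V.ss) (∏ i ∈ S, z i) *
          CR.map (Hom.snd V.ss V.ss) (∏ i ∈ F.1 \ S, z i)) (p + q) =
          ∑ S ∈ F.1.powerset, (CR.map (Hom.fst V.ss V.ss) (∏ i ∈ S, z i) *
          CR.map (Hom.snd V.ss V.ss) (∏ i ∈ F.1 \ S, z i)) (p + q) :=
        map_sum (CR.cmp (Z := V.ss.prod V.ss) (p + q)) _ _
      rw [h6, LinearMap.sum_apply]
      refine Finset.sum_congr rfl fun S _ => ?_
      rw [A4B7_val rfl _ _ W _ _ hW, hval S D.1 p hD, hval (F.1 \ S) E.1 q hE]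
    have h7 : (CR.map (Hom.fst V.ss V.ss) (∏ i ∈ F.1, z i)) (p + q) W = 0 := by
      have h8 := A4B7_val rfl (∏ i ∈ F.1, z i : CR V.ss) (∏ i ∈ (∅ : Finset J), z i : CR V.ss)
        W _ _ hW
      rw [Finset.prod_empty, map_one, mul_one] at h8
      rw [h8]
      have h9 := hval ∅ E.1 q hE
      rw [Finset.prod_empty, if_neg E.2.ne_empty] at h9
      rw [h9, mul_zero]
    have h10 : (CR.map (Hom.snd V.ss V.ss) (∏ i ∈ F.1, z i)) (p + q) W = 0 := by
      have h8 := A4B7_val rfl (∏ i ∈ (∅ : Finset J), z i : CR V.ss) (∏ i ∈ F.1, z i : CR V.ss)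
        W _ _ hW
      rw [Finset.prod_empty, map_one, one_mul] at h8
      rw [h8]
      have h9 := hval ∅ D.1 p hD
      rw [Finset.prod_empty, if_neg D.2.ne_empty] at h9
      rw [h9, zero_mul]
    rw [h5, h7, h10, add_zero, add_zero, A4B7_sum]
    by_cases hdis : Disjoint D.1 E.1
    · rw [if_pos hdis, hay F (D.un E) (p + q) hF]
      by_cases hF2 : D.un E = F
      · rw [if_pos hF2, if_pos ⟨hdis, congrArg Subtype.val hF2⟩]
      · rw [if_neg hF2, if_neg (fun h => hF2 (Subtype.ext h.2))]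
    · rw [if_neg hdis, map_zero, if_neg (fun h => hdis h.1)]

end MM
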