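import Pool.Agent.Lib_MP_33f7bb_d.A4B5
import Pool.Agent.Lib_MP_33f7bb_d.A4B7

/-!
# A4-B8: (UB) upper bound for the homology of the bar construction

`exists_YB` gives `y`; fix `d`.  `LA_iter` with `Z k = HF V d k` (`HF_zero`, `HF_top`) and
`N k = #{e : card e = k, weight = d - k}`.  For `k < d`, `p = d - (k + 1)`: `E2_bound` with `H k' = (RS V k').H p`,
`δ k' = H(pmD V k')`, `Y = YY y · p` (hypotheses: `RS_basis`; finiteness of `{b | wtO b ≤ d}`: `wtO_fin`) gives `T` and
`bar_step` gives `T'`.  Finally `count_main`.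
-/

namespace MM

theorem UB (V : SV) (n : ℕ) (z : Orb n → CR V.ss) (h : CSimple V.ss (wtO : Orb n → ℕ) z)
    (hp : ∀ j, CR.map (addHom V) (z j) =
      CR.map (Hom.fst V.ss V.ss) (z j) + CR.map (Hom.snd V.ss V.ss) (z j)) (d : ℕ) :
    Module.Finite (ZMod 2) ((RB V).H d) ∧
      Module.finrank (ZMod 2) ((RB V).H d) ≤
        {D : Finset (Orb (n + 1)) | D.Nonempty ∧ ∑ b ∈ D, wtO b = d}.ncard := by
  classical
  obtain ⟨y, hy⟩ := exists_YB V (wtO : Orb n → ℕ) z h hp
  have hmain := LA_iter (HF V d) (HF_zero V d)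
    (fun k => {e : Multiset (Orb n) | Multiset.card e = k ∧ (e.map wtO).sum = d - k}.ncard) d
    (by
      intro k hk
      obtain ⟨hli, hspan, hδ⟩ := RS_basis hy (d - (k + 1))
      obtain ⟨T, hTc, hT⟩ := E2_bound (wtO : Orb n → ℕ) wtO_fin (d - (k + 1))
        (fun k' => (RS V k').H (d - (k + 1))) (fun k' => SV.Hmap (pmD V k') (d - (k + 1)))
        (fun k' L => YY y k' (d - (k + 1)) L) hli hspan hδ k
      obtain ⟨T', hT'c, hT'⟩ := bar_step V k (d - (k + 1)) d (by omega) T hT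
      exact ⟨T', hT'c.trans hTc, hT'⟩) (HF_top V d)
  rw [count_main] at hmain
  exact hmain

end MM
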