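import Mathlib

/-!
# A4-21: the combinatorial bar complex of an exterior algebra (definitions and basic properties)

Lists of nonempty finite sets; the differential merges neighbouring disjoint sets:
`dlc (D :: E :: L) = [D ∩ E = ∅] ((D ∪ E) :: L) + D :: dlc (E :: L)`.
`ty L` = the multiset union (sum) of the sets in `L` is preserved, the length drops by one.

`dlL_dlL`: induction on the list: for `D :: L`: `d (D :: x) = D :: d x + mg D x` for every chain `x` of nonempty
lists (`mg D` = merge `D` into the head).  So `d d (D :: L) = D :: d d L + mg D (d L) + d (mg D L)`, and for `L = E :: L'`: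
`mg D (E :: d L' + mg E L') + d ([D ∩ E = ∅] (D ∪ E) :: L')`; both sides are
`[D ∩ E = ∅] (D ∪ E) :: d L' + [D, E, F disjoint] (D ∪ E ∪ F) :: L''` (`L' = F :: L''`), where
`mg D (mg E L') = [E ∩ F = ∅, D ∩ (E ∪ F) = ∅]`, `mg (D ∪ E) L' = [(D ∪ E) ∩ F = ∅]` and the prefactor `[D ∩ E = ∅]`.
`dl_append`: for lists `L` nonempty and `M` nonempty:
`dlc (L ++ M) = (dlc L) ++ M + [last and head disjoint] ... + L ++ dlc M`; only the special case needed later is stated.
-/

namespace MM

/-- nonempty finite sets -/
abbrev NE (J : Type) := {D : Finset J // D.Nonempty}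

variable {J : Type} [DecidableEq J]

/-- union of nonempty sets -/
def NE.un (D E : NE J) : NE J := ⟨D.1 ∪ E.1, D.2.mono Finset.subset_union_left⟩

/-- chains -/
abbrev LC (J : Type) := List (NE J) →₀ ZMod 2

/-- the differential on lists -/
noncomputable def dlc : List (NE J) → LC J
  | [] => 0
  | [_] => 0
  | D :: E :: L => (if Disjoint D.1 E.1 then Finsupp.single (D.un E :: L) 1 else 0) +
      (dlc (E :: L)).mapDomain (D :: ·)

/-- the differential on chains -/
noncomputable def dlL : LC J →ₗ[ZMod 2] LC J := Finsupp.linearCombination (ZMod 2) dlc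

/-- the type of a list: the multiset sum of its members -/
def ty (L : List (NE J)) : Multiset J := (L.map fun D => D.1.val).sum

/-- `x` is a chain of lists of length `k` and type `e` -/
def InC (e : Multiset J) (k : ℕ) (x : LC J) : Prop :=
  ∀ L, x L ≠ 0 → ty L = e ∧ L.length = k

/-- prefixing a set -/
noncomputable def pre (D : NE J) : LC J →ₗ[ZMod 2] LC J :=
  Finsupp.lmapDomain (ZMod 2) (ZMod 2) (D :: ·)

/-- merging a set into the head -/
noncomputable def mg (D : NE J) : LC J →ₗ[ZMod 2] LC J :=
  Finsupp.linearCombination (ZMod 2) fun L : List (NE J) => match L with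
    | [] => 0
    | E :: L => if Disjoint D.1 E.1 then Finsupp.single (D.un E :: L) 1 else 0

/-- appending a list -/
noncomputable def app (M : List (NE J)) : LC J →ₗ[ZMod 2] LC J :=
  Finsupp.lmapDomain (ZMod 2) (ZMod 2) (· ++ M)

@[simp] theorem pre_single (D : NE J) (L : List (NE J)) (r : ZMod 2) :
    pre D (Finsupp.single L r) = Finsupp.single (D :: L) r := by
  show Finsupp.mapDomain _ _ = _
  rw [Finsupp.mapDomain_single]

@[simp] theorem app_single (M L : List (NE J)) (r : ZMod 2) :
    app M (Finsupp.single L r) = Finsupp.single (L ++ M) r := by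
  show Finsupp.mapDomain _ _ = _
  rw [Finsupp.mapDomain_single]

@[simp] theorem mg_nil (D : NE J) (r : ZMod 2) : mg D (Finsupp.single [] r) = 0 := by
  rw [mg, Finsupp.linearCombination_single, smul_zero]

@[simp] theorem mg_cons (D E : NE J) (L : List (NE J)) :
    mg D (Finsupp.single (E :: L) 1) =
      if Disjoint D.1 E.1 then Finsupp.single (D.un E :: L) 1 else 0 := by
  rw [mg, Finsupp.linearCombination_single, one_smul]

@[simp] theorem dlL_single (L : List (NE J)) : dlL (Finsupp.single L 1) = dlc L := by
  rw [dlL, Finsupp.linearCombination_single, one_smul]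

private theorem A4C1_ext {M : Type*} [AddCommGroup M] [Module (ZMod 2) M]
    {f g : LC J →ₗ[ZMod 2] M}
    (h : ∀ L, f (Finsupp.single L 1) = g (Finsupp.single L 1)) : f = g := by
  refine Finsupp.lhom_ext fun L c => ?_
  have h1 : (Finsupp.single L c : LC J) = c • Finsupp.single L 1 := by
    rw [Finsupp.smul_single, smul_eq_mul, mul_one]
  rw [h1, map_smul, map_smul, h]

private theorem A4C1_two (x : LC J) : x + x = 0 := by
  have : (2 : ZMod 2) • x = 0 := by
    have h : (2 : ZMod 2) = 0 := rfl
    rw [h, zero_smul]
  rwa [two_smul] at this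

theorem A4C1_dl_cons (D E : NE J) (L : List (NE J)) :
    dlc (D :: E :: L) = mg D (Finsupp.single (E :: L) 1) + pre D (dlc (E :: L)) := by
  rw [mg_cons]
  rfl

/-- `d (D :: x) = D :: d x + mg D x` -/
theorem dlL_pre (D : NE J) (x : LC J) : dlL (pre D x) = pre D (dlL x) + mg D x := by
  have h : dlL.comp (pre D) = (pre D).comp dlL + mg D := by
    refine A4C1_ext fun L => ?_
    rw [LinearMap.comp_apply, LinearMap.add_apply, LinearMap.comp_apply, pre_single, dlL_single,
      dlL_single]
    cases L with
    | nil =>
      rw [mg_nil, add_zero]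
      exact (map_zero (pre D)).symm
    | cons E L => rw [A4C1_dl_cons, add_comm]
  exact LinearMap.congr_fun h x

private theorem A4C1_mg_pre (D E : NE J) (y : LC J) :
    mg D (pre E y) = if Disjoint D.1 E.1 then pre (D.un E) y else 0 := by
  have h : (mg D).comp (pre E) = if Disjoint D.1 E.1 then pre (D.un E) else 0 := by
    refine A4C1_ext fun L => ?_
    rw [LinearMap.comp_apply, pre_single, mg_cons]
    split_ifs
    · rw [pre_single]
    · rfl
  have h2 := LinearMap.congr_fun h y
  rw [LinearMap.comp_apply] at h2
  rw [h2]
  split_ifs <;> rfl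

private theorem A4C1_key (D E : NE J) (L : List (NE J)) :
    mg D (dlc (E :: L)) = dlL (mg D (Finsupp.single (E :: L) 1)) := by
  rw [mg_cons]
  cases L with
  | nil =>
    have h0 : dlc [E] = 0 := rfl
    rw [h0, map_zero]
    split_ifs
    · rw [dlL_single]; rfl
    · rw [map_zero]
  | cons F L =>
    rw [A4C1_dl_cons, map_add, mg_cons, A4C1_mg_pre]
    by_cases hDE : Disjoint D.1 E.1
    · rw [if_pos hDE, if_pos hDE, dlL_single, A4C1_dl_cons, mg_cons]
      congr 1
      by_cases hEF : Disjoint E.1 F.1
      · rw [if_pos hEF, mg_cons]
        by_cases hDF : Disjoint D.1 F.1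
        · have h1 : Disjoint D.1 (E.un F).1 := by
            show Disjoint D.1 (E.1 ∪ F.1)
            rw [Finset.disjoint_union_right]; exact ⟨hDE, hDF⟩
          have h2 : Disjoint (D.un E).1 F.1 := by
            show Disjoint (D.1 ∪ E.1) F.1
            rw [Finset.disjoint_union_left]; exact ⟨hDF, hEF⟩
          rw [if_pos h1, if_pos h2]
          have h3 : D.un (E.un F) = (D.un E).un F :=
            Subtype.ext (Finset.union_assoc D.1 E.1 F.1).symm
          rw [h3]
        · have h1 : ¬ Disjoint D.1 (E.un F).1 := fun h => by
            have h' : Disjoint D.1 (E.1 ∪ F.1) := h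
            rw [Finset.disjoint_union_right] at h'
            exact hDF h'.2
          have h2 : ¬ Disjoint (D.un E).1 F.1 := fun h => by
            have h' : Disjoint (D.1 ∪ E.1) F.1 := h
            rw [Finset.disjoint_union_left] at h'
            exact hDF h'.1
          rw [if_neg h1, if_neg h2]
      · have h2 : ¬ Disjoint (D.un E).1 F.1 := fun h => by
          have h' : Disjoint (D.1 ∪ E.1) F.1 := h
          rw [Finset.disjoint_union_left] at h'
          exact hEF h'.2
        rw [if_neg hEF, if_neg h2, map_zero]
    · rw [if_neg hDE, if_neg hDE, map_zero, add_zero]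
      split_ifs with hEF
      · have h1 : ¬ Disjoint D.1 (E.un F).1 := fun h => by
          have h' : Disjoint D.1 (E.1 ∪ F.1) := h
          rw [Finset.disjoint_union_right] at h'
          exact hDE h'.1
        rw [mg_cons, if_neg h1]
      · rw [map_zero]

private theorem A4C1_dd (L : List (NE J)) : dlL (dlc L) = 0 := by
  induction L with
  | nil => exact map_zero _
  | cons D L ih =>
    cases L with
    | nil => exact map_zero _
    | cons E L =>
      rw [A4C1_dl_cons, map_add, dlL_pre, ih, map_zero, zero_add, A4C1_key]
      exact A4C1_two _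

theorem dlL_dlL (x : LC J) : dlL (dlL x) = 0 := by
  have h : dlL.comp (dlL (J := J)) = 0 := by
    refine A4C1_ext fun L => ?_
    rw [LinearMap.comp_apply, dlL_single, A4C1_dd]
    rfl
  exact LinearMap.congr_fun h x

theorem ty_cons (D : NE J) (L : List (NE J)) : ty (D :: L) = D.1.val + ty L := by
  rw [ty, ty, List.map_cons, List.sum_cons]

theorem ty_append (L M : List (NE J)) : ty (L ++ M) = ty L + ty M := by
  rw [ty, ty, ty, List.map_append, List.sum_append]

theorem length_le_ty (L : List (NE J)) : L.length ≤ Multiset.card (ty L) := by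
  induction L with
  | nil => exact Nat.zero_le _
  | cons D L ih =>
    rw [ty_cons, Multiset.card_add, List.length_cons]
    have h : 1 ≤ Multiset.card D.1.val := Finset.card_pos.2 D.2
    omega

private theorem A4C1_terms {L M : List (NE J)} (h : dlc L M ≠ 0) :
    ∃ (A : List (NE J)) (D E : NE J) (B : List (NE J)), L = A ++ D :: E :: B ∧ Disjoint D.1 E.1 ∧
      M = A ++ D.un E :: B := by
  induction L generalizing M with
  | nil => exact absurd rfl h
  | cons D L ih =>
    cases L with
    | nil => exact absurd rfl h
    | cons E L =>
      rw [A4C1_dl_cons, Finsupp.add_apply, mg_cons] at h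
      by_cases h1 : (pre D (dlc (E :: L))) M = 0
      · rw [h1, add_zero] at h
        by_cases hd : Disjoint D.1 E.1
        · rw [if_pos hd] at h
          refine ⟨[], D, E, L, rfl, hd, ?_⟩
          by_contra hM
          exact h (Finsupp.single_eq_of_ne (by
            intro h2
            exact hM (by rw [List.nil_append]; first | exact h2 | exact h2.symm)))
        · rw [if_neg hd] at h
          exact absurd rfl h
      · have hM : M ∈ Set.range ((D :: ·) : List (NE J) → List (NE J)) := by
          by_contra hM
          exact h1 (Finsupp.mapDomain_of_notMem_range _ M hM)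
        obtain ⟨M', rfl⟩ := hM
        have h2 : (pre D (dlc (E :: L))) (D :: M') = dlc (E :: L) M' :=
          Finsupp.mapDomain_apply (List.cons_injective) _ _
        rw [h2] at h1
        obtain ⟨A, D', E', B, hL, hd, hM'⟩ := ih h1
        exact ⟨D :: A, D', E', B, by rw [hL]; rfl, hd, by rw [hM']; rfl⟩

/-- terms of the differential -/
theorem dl_terms {L M : List (NE J)} (h : dlc L M ≠ 0) : ty M = ty L ∧ M.length + 1 = L.length := by
  obtain ⟨A, D, E, B, rfl, hd, rfl⟩ := A4C1_terms h
  constructor
  · rw [ty_append, ty_append, ty_cons, ty_cons, ty_cons, ← add_assoc D.1.val]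
    congr 2
    show (D.1 ∪ E.1).val = _
    rw [← Finset.disjUnion_eq_union D.1 E.1 hd]
    rfl
  · simp only [List.length_append, List.length_cons]
    omega

theorem InC.dlL {e : Multiset J} {k : ℕ} {x : LC J} (hx : InC e (k + 1) x) :
    InC e k (dlL x) := by
  intro M hM
  have h1 : ∃ L ∈ x.support, (x L • dlc L) M ≠ 0 := by
    by_contra hcon
    push Not at hcon
    apply hM
    show (Finsupp.linearCombination (ZMod 2) dlc x) M = 0
    rw [Finsupp.linearCombination_apply, Finsupp.sum, Finsupp.finsetSum_apply]
    exact Finset.sum_eq_zero hcon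
  obtain ⟨L, hL, h2⟩ := h1
  rw [Finsupp.mem_support_iff] at hL
  obtain ⟨h3, h4⟩ := hx L hL
  have h5 : dlc L M ≠ 0 := fun h => h2 (by rw [Finsupp.smul_apply, h, smul_zero])
  obtain ⟨h6, h7⟩ := dl_terms h5
  exact ⟨h6.trans h3, by omega⟩

/-- in length `0` the differential vanishes -/
theorem InC.dlL_zero {e : Multiset J} {x : LC J} (hx : InC e 0 x) : MM.dlL x = 0 := by
  show Finsupp.linearCombination (ZMod 2) dlc x = 0
  rw [Finsupp.linearCombination_apply, Finsupp.sum]
  refine Finset.sum_eq_zero fun L hL => ?_
  rw [Finsupp.mem_support_iff] at hL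
  have h1 : L = [] := List.length_eq_zero_iff.1 (hx L hL).2
  rw [h1]
  exact smul_zero _

/-- the set `{i}` -/
def sgc (i : J) : NE J := ⟨{i}, Finset.singleton_nonempty i⟩

/-- terms of the differential, explicit form -/
theorem dl_terms_exists {L M : List (NE J)} (h : dlc L M ≠ 0) :
    ∃ (A : List (NE J)) (D E : NE J) (B : List (NE J)), L = A ++ D :: E :: B ∧ Disjoint D.1 E.1 ∧
      M = A ++ D.un E :: B := A4C1_terms h

/-- a merged set is not a singleton `{i}` -/
private theorem A4C1_un_ne {i : J} {D E : NE J} (hd : Disjoint D.1 E.1) : D.un E ≠ sgc i := by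
  intro h
  have h1 : D.1 ∪ E.1 = {i} := congrArg Subtype.val h
  have h2 : (D.1 ∪ E.1).card = D.1.card + E.1.card := Finset.card_union_of_disjoint hd
  rw [h1, Finset.card_singleton] at h2
  have h3 := Finset.card_pos.2 D.2
  have h4 := Finset.card_pos.2 E.2
  omega

/-- if `A ++ X :: B = P ++ {i}^m` and `X ≠ {i}` then `X` is in `P` -/
private theorem A4C1_split {i : J} {m : ℕ} {X : NE J} (hX : X ≠ sgc i) {A B P : List (NE J)}
    (h : A ++ X :: B = P ++ List.replicate m (sgc i)) :
    ∃ B', B = B' ++ List.replicate m (sgc i) ∧ P = A ++ X :: B' := by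
  rcases List.append_eq_append_iff.1 h with ⟨C, h1, h2⟩ | ⟨C, h1, h2⟩
  · cases C with
    | nil =>
      exfalso
      rw [List.nil_append] at h2
      cases m with
      | zero => exact absurd h2 (by simp)
      | succ m =>
        rw [List.replicate_succ] at h2
        exact hX (List.cons.inj h2).1
    | cons Y C =>
      rw [List.cons_append] at h2
      obtain ⟨h3, h4⟩ := List.cons.inj h2
      subst h3
      exact ⟨C, h4, h1⟩
  · exfalso
    have h3 : X ∈ List.replicate m (sgc i) := by
      rw [h2]; simp
    exact hX (List.eq_of_mem_replicate h3)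

/-- appending `{i}^m` and the differential, coefficients at lists ending with `{i}^m`: the merge of the last
set of `Q` with the first `{i}` does not contribute, as a merged set is not `{i}` -/
theorem dl_unmatched_a (i : J) (m : ℕ) (Q P : List (NE J)) (hQ : i ∉ ty Q) :
    dlc (Q ++ List.replicate m (sgc i)) (P ++ List.replicate m (sgc i)) = dlc Q P := by
  induction Q generalizing P with
  | nil =>
    rw [List.nil_append]
    have h0 : dlc (J := J) [] P = 0 := rfl
    rw [h0]
    by_contra hne
    obtain ⟨A, D, E, B, hL, hd, -⟩ := A4C1_terms hne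
    have h1 : D ∈ List.replicate m (sgc i) := by rw [hL]; simp
    have h2 : E ∈ List.replicate m (sgc i) := by rw [hL]; simp
    rw [List.eq_of_mem_replicate h1, List.eq_of_mem_replicate h2] at hd
    have h3 : Disjoint ({i} : Finset J) {i} := hd
    rw [Finset.disjoint_singleton] at h3
    exact h3 rfl
  | cons D Q ih =>
    have hQ' : i ∉ ty Q := fun h => hQ (by rw [ty_cons, Multiset.mem_add]; exact Or.inr h)
    have hD : i ∉ D.1 := fun h => hQ (by rw [ty_cons, Multiset.mem_add]; exact Or.inl h)
    cases Q with
    | nil =>
      have h0 : dlc [D] P = 0 := rfl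
      rw [h0]
      by_contra hne
      obtain ⟨A, D', E, B, hL, hd, hM⟩ := A4C1_terms hne
      obtain ⟨B', hB, hP⟩ := A4C1_split (A4C1_un_ne hd) hM.symm
      have h1 := congrArg List.length hL
      rw [hB] at h1
      simp only [List.length_append, List.length_cons, List.length_nil] at h1
      omega
    | cons E Q =>
      rw [List.cons_append, List.cons_append, A4C1_dl_cons, A4C1_dl_cons, mg_cons, mg_cons,
        Finsupp.add_apply, Finsupp.add_apply]
      congr 1
      · by_cases hd : Disjoint D.1 E.1
        · rw [if_pos hd, if_pos hd]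
          have h1 : D.un E :: (Q ++ List.replicate m (sgc i)) =
              (D.un E :: Q) ++ List.replicate m (sgc i) := rfl
          rw [h1, Finsupp.single_apply, Finsupp.single_apply]
          simp only [List.append_cancel_right_eq]
        · rw [if_neg hd, if_neg hd]
          rfl
      · have key : ∀ x : LC J, ∀ R : List (NE J), (pre D x) R =
            match R with
            | [] => 0
            | F :: R' => if F = D then x R' else 0 := by
          intro x R
          by_cases hR : R ∈ Set.range ((D :: ·) : List (NE J) → List (NE J))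
          · obtain ⟨R', rfl⟩ := hR
            have h2 : (pre D x) (D :: R') = x R' :=
              Finsupp.mapDomain_apply (List.cons_injective) _ _
            rw [h2]
            exact (if_pos rfl).symm
          · have h2 : (pre D x) R = 0 := Finsupp.mapDomain_of_notMem_range _ R hR
            rw [h2]
            cases R with
            | nil => rfl
            | cons F R' =>
              have hF : F ≠ D := fun hF => hR ⟨R', by rw [hF]⟩
              exact (if_neg hF).symm
        cases P with
        | nil =>
          rw [key (dlc (E :: Q)) []]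
          rw [List.nil_append]
          cases m with
          | zero =>
            rw [List.replicate_zero, key]
          | succ m =>
            rw [List.replicate_succ, key]
            have hDi : sgc i ≠ D := fun h => hD (by rw [← h]; exact Finset.mem_singleton_self i)
            exact if_neg hDi
        | cons F P =>
          rw [List.cons_append, key, key]
          have h3 := ih P hQ'
          rw [List.cons_append] at h3
          simp only [h3]

/-- a term of `dlc L` which ends with `{i}^m` (where `m` = multiplicity of `i` in the type) comes from an `L` ending with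
`{i}^m`: the merged set has at least two elements, so it is not among the last `m` sets -/
theorem dl_unmatched_b (i : J) (m : ℕ) (L P : List (NE J)) (hL : (ty L).count i = m)
    (h : ¬ ∃ Q, L = Q ++ List.replicate m (sgc i)) : dlc L (P ++ List.replicate m (sgc i)) = 0 := by
  have _ := hL
  by_contra hne
  obtain ⟨A, D, E, B, rfl, hd, hM⟩ := A4C1_terms hne
  obtain ⟨B', hB, -⟩ := A4C1_split (A4C1_un_ne hd) hM.symm
  exact h ⟨A ++ D :: E :: B', by rw [hB]; simp⟩

end MM
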