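import Pool.Agent.Lib_MP_33f7bb_d.A4C1

/-!
# A4-22: a contracting homotopy for the combinatorial bar complex

Fix `i`.  `hh i L`: go to the first run `{i}, …, {i}` (after a prefix of sets without `i`); if the next set `E` contains `i` (and is
not `{i}`), split it: `E ↦ {i}, E∖i`; otherwise the value is `0`.  `er i D = D∖i`.
Write `h`, `d` for the linear extensions and `K L = d (h L) + h (d L) + L`.  Claims, for a list `L` whose type contains `i`
exactly `m ≥ 1` times and which does not end with `{i}^m` (`matched`):
every term `M` of `K L` has `mu i m M < mu i m L`, where `mu i m L = pr i L * (m + 1) + (m - rn' i L)`, `pr` = length of the prefix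
without `i`, `rn'` = length of the run of `{i}` after the prefix (`rn' ≤ m`).

Proof by induction on the list.  (`d (D :: x) = D :: d x + mg D x` is `dlL_pre`.)
1. `i ∉ D`: `h (D :: L) = D :: h L`, so `K (D :: L) = D :: d h L + mg D (h L) + D :: h d L + h (mg D L) + D :: L
   = D :: K L + mg D (h L) + h (mg D L)`.  The terms of `D :: K L` are smaller by induction (`L` is matched iff `D :: L` is;
   `pr` increases by one for both).  The prefix length of a term of `mg D (h L)` or `h (mg D L)` is `pr i L < pr i (D :: L)`
   (merging a set without `i` into the head does not change whether the head contains `i`, `h` does not change the prefix).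
2. `D = {i}` and the head of `L` contains `i`: `mg {i} L = 0`, `mg {i} (h L) = 0` (the head of `h L` contains `i`), all terms of
   `d L` have a head containing `i` (or are...: `L = E :: L'`, `d L = E :: d L' + mg E L'`), so
   `K ({i} :: L) = {i} :: K L`, and `L` is matched for `m - 1`: terms have a longer run by induction
   (use the statement: `pr M = 0` and `rn' M > rn' L` for terms `M` of `K L` when the head of `L` contains `i`).
3. `D = {i}`, `L = E :: L'`, `i ∉ E`: `h ({i} :: L) = 0`; `d ({i} :: L) = {i} :: d L + ({i} ∪ E) :: L'`;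
   `h (({i} ∪ E) :: L') = {i} :: E :: L' = {i} :: L`; `h ({i} :: (E :: d L')) = 0`; `h ({i} :: mg E L')` is `0` unless
   `L' = F :: L''`, `i ∈ F`, `E ∩ F = ∅`, and then it is `{i} :: {i} :: ((E ∪ F)∖i) :: L''`: run `2 > 1`.
4. `D = {i}`, `L = []`: not matched (here `m = 1`).
5. `i ∈ D ≠ {i}`, `D' = D∖i`: `h (D :: L) = {i} :: D' :: L`, `d (h (D :: L)) = D :: L + {i} :: (D' :: d L + mg D' L)`,
   `h (d (D :: L)) = h (D :: d L + mg D L) = {i} :: D' :: d L + ({i} :: (D' ∪ F) :: L'' if L = F :: L'', D ∩ F = ∅)`.
   So `K (D :: L) = {i} :: (D' ∪ F) :: L''` if `i ∈ F`, `D' ∩ F = ∅`, else `0`: run `1 > 0`.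
Every term of `K L` is again matched, of the same type and length (`h` raises the length by one, `d` lowers it; `d` and
`h` map matched lists to matched lists: `dl_unmatched_b`; for `h`: a term of `h L` ending with `{i}^m`: then `L` ends with `{i}^m`
or the split set `{i}, E∖i` with `i ∉ E∖i` would be followed by ..., impossible as `{i}` precedes a set without `i`).

`matched_acyclic`: strong induction on a bound for `mu` on the support: if `d x = 0` then
`x + d (h x) = ∑ x_L K L` (as `h (d x) = 0`) has smaller `mu`, is a matched cycle, so it is `d y`, `x = d (y + h x)`.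
-/

namespace MM

variable {J : Type} [DecidableEq J]

/-- remove `i` (if something remains) -/
def er (i : J) (D : NE J) : NE J :=
  if h : (D.1.erase i).Nonempty then ⟨D.1.erase i, h⟩ else D

/-- the head contains `i` -/
def hdi (i : J) : List (NE J) → Prop
  | [] => False
  | E :: _ => i ∈ E.1

instance (i : J) (L : List (NE J)) : Decidable (hdi i L) := by
  cases L with
  | nil => exact isFalse id
  | cons E L => exact inferInstanceAs (Decidable (i ∈ E.1))

/-- the homotopy -/
noncomputable def hh (i : J) : List (NE J) → LC J
  | [] => 0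
  | D :: L => if i ∉ D.1 then pre D (hh i L)
      else if D.1 = {i} then (if hdi i L then pre D (hh i L) else 0)
      else Finsupp.single (sgc i :: er i D :: L) 1

/-- linear extension -/
noncomputable def hhL (i : J) : LC J →ₗ[ZMod 2] LC J := Finsupp.linearCombination (ZMod 2) (hh i)

/-- length of the prefix without `i` -/
def pr (i : J) : List (NE J) → ℕ
  | [] => 0
  | D :: L => if i ∈ D.1 then 0 else pr i L + 1

/-- number of leading sets `{i}` -/
def rn (i : J) : List (NE J) → ℕ
  | [] => 0
  | D :: L => if D.1 = {i} then rn i L + 1 else 0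

/-- length of the run of `{i}` after the prefix -/
def rn' (i : J) : List (NE J) → ℕ
  | [] => 0
  | D :: L => if i ∈ D.1 then rn i (D :: L) else rn' i L

/-- the measure -/
def mu (i : J) (m : ℕ) (L : List (NE J)) : ℕ := pr i L * (m + 1) + (m - rn' i L)

/-- `L` does not end with `{i}^m` -/
def Mt (i : J) (m : ℕ) (L : List (NE J)) : Prop := ¬ ∃ Q, L = Q ++ List.replicate m (sgc i)


/-! ### support predicates -/

/-- all terms satisfy `P` -/
private def SP (P : List (NE J) → Prop) (x : LC J) : Prop := ∀ M, x M ≠ 0 → P M

private theorem SP_add {P : List (NE J) → Prop} {x y : LC J} (hx : SP P x) (hy : SP P y) :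
    SP P (x + y) := by
  intro M hM
  by_cases h : x M = 0
  · refine hy M fun h' => hM ?_
    rw [Finsupp.add_apply, h, h', add_zero]
  · exact hx M h

private theorem SP_zero {P : List (NE J) → Prop} : SP P (0 : LC J) := fun _ h => absurd rfl h

private theorem SP_single {P : List (NE J) → Prop} {L : List (NE J)} {r : ZMod 2} (h : P L) :
    SP P (Finsupp.single L r) := by
  intro M hM
  rw [Finsupp.single_apply] at hM
  split_ifs at hM with h'
  · exact h' ▸ h
  · exact absurd rfl hM

private theorem SP_mono {P Q : List (NE J) → Prop} {x : LC J} (hx : SP P x)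
    (h : ∀ M, P M → Q M) : SP Q x := fun M hM => h M (hx M hM)

private theorem SP_lin {P Q : List (NE J) → Prop} {g : List (NE J) → LC J} {x : LC J}
    (hx : SP P x) (hg : ∀ L, P L → SP Q (g L)) :
    SP Q (Finsupp.linearCombination (ZMod 2) g x) := by
  intro M hM
  rw [Finsupp.linearCombination_apply, Finsupp.sum, Finsupp.finsetSum_apply] at hM
  obtain ⟨L, hL, hL'⟩ := Finset.exists_ne_zero_of_sum_ne_zero hM
  refine hg L (hx L (Finsupp.mem_support_iff.1 hL)) M fun h => hL' ?_
  rw [Finsupp.smul_apply, h, smul_zero]

private theorem SP_pre {P Q : List (NE J) → Prop} {D : NE J} {x : LC J}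
    (hx : SP P x) (h : ∀ M, P M → Q (D :: M)) : SP Q (pre D x) := by
  intro M hM
  have h1 : M ∈ (pre D x).support := Finsupp.mem_support_iff.2 hM
  have h2 := Finsupp.mapDomain_support (f := (D :: ·)) (s := x) h1
  rw [Finset.mem_image] at h2
  obtain ⟨M', hM', rfl⟩ := h2
  exact h M' (hx M' (Finsupp.mem_support_iff.1 hM'))

private theorem SP_dlL {P Q : List (NE J) → Prop} {x : LC J}
    (hx : SP P x) (hg : ∀ L, P L → SP Q (dlc L)) : SP Q (dlL x) := SP_lin hx hg

private theorem SP_hhL {P Q : List (NE J) → Prop} {i : J} {x : LC J}
    (hx : SP P x) (hg : ∀ L, P L → SP Q (hh i L)) : SP Q (hhL i x) := SP_lin hx hg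

private theorem SP_mg {P Q : List (NE J) → Prop} {D : NE J} {x : LC J}
    (hx : SP P x) (hg : ∀ E L, P (E :: L) → Disjoint D.1 E.1 → Q (D.un E :: L)) :
    SP Q (mg D x) := by
  refine SP_lin hx ?_
  intro L hL
  cases L with
  | nil => exact SP_zero
  | cons E L =>
    show SP Q (if Disjoint D.1 E.1 then Finsupp.single (D.un E :: L) 1 else 0)
    split_ifs with h
    · exact SP_single (hg E L hL h)
    · exact SP_zero

/-! ### elementary facts on lists -/

private theorem er_val {i : J} {D : NE J} (h : D.1 ≠ {i}) : (er i D).1 = D.1.erase i := by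
  have h1 : (D.1.erase i).Nonempty := by
    by_contra hne
    rw [Finset.not_nonempty_iff_eq_empty] at hne
    have h2 : D.1 ⊆ {i} := by
      intro j hj
      by_contra hji
      rw [Finset.mem_singleton] at hji
      have : j ∈ D.1.erase i := Finset.mem_erase.2 ⟨hji, hj⟩
      rw [hne] at this
      exact absurd this (Finset.notMem_empty j)
    rcases Finset.subset_singleton_iff.1 h2 with h3 | h3
    · exact D.2.ne_empty h3
    · exact h h3
  unfold er
  rw [dif_pos h1]

private theorem notMem_er {i : J} {D : NE J} (h : D.1 ≠ {i}) : i ∉ (er i D).1 := by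
  rw [er_val h]
  exact Finset.notMem_erase i _

private theorem un_er {i : J} {D : NE J} (hi : i ∈ D.1) (h : D.1 ≠ {i}) :
    (sgc i).un (er i D) = D := by
  apply Subtype.ext
  show ({i} : Finset J) ∪ (er i D).1 = D.1
  rw [er_val h]
  ext j
  simp only [Finset.mem_union, Finset.mem_singleton, Finset.mem_erase]
  constructor
  · rintro (rfl | ⟨_, h⟩)
    · exact hi
    · exact h
  · intro hj
    by_cases hji : j = i
    · exact Or.inl hji
    · exact Or.inr ⟨hji, hj⟩

private theorem eq_sg {i : J} {D : NE J} (h : D.1 = {i}) : D = sgc i := Subtype.ext h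

private theorem count_cons (i : J) (D : NE J) (L : List (NE J)) :
    (ty (D :: L)).count i = (if i ∈ D.1 then 1 else 0) + (ty L).count i := by
  rw [ty_cons, Multiset.count_add]
  congr 1
  split_ifs with h
  · exact Multiset.count_eq_one_of_mem D.1.nodup h
  · exact Multiset.count_eq_zero_of_notMem h

private theorem count_cons_pos {i : J} {D : NE J} (h : i ∈ D.1) (L : List (NE J)) :
    (ty (D :: L)).count i = (ty L).count i + 1 := by
  rw [count_cons, if_pos h, add_comm]

private theorem count_cons_neg {i : J} {D : NE J} (h : i ∉ D.1) (L : List (NE J)) :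
    (ty (D :: L)).count i = (ty L).count i := by
  rw [count_cons, if_neg h, zero_add]

private theorem count_replicate_append (i : J) (m : ℕ) (Q : List (NE J)) :
    (ty (Q ++ List.replicate m (sgc i))).count i = (ty Q).count i + m := by
  rw [ty_append, Multiset.count_add]
  congr 1
  induction m with
  | zero => simp [ty]
  | succ m ih =>
    rw [List.replicate_succ, count_cons_pos (by simp [sgc]), ih]

private theorem Mt_cons {i : J} {m : ℕ} {D : NE J} {L : List (NE J)} (hm : 1 ≤ m)
    (hD : i ∉ D.1) (h : Mt i m L) : Mt i m (D :: L) := by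
  rintro ⟨Q, hQ⟩
  cases Q with
  | nil =>
    obtain ⟨m', rfl⟩ : ∃ m', m = m' + 1 := ⟨m - 1, by omega⟩
    rw [List.nil_append, List.replicate_succ] at hQ
    have h1 : D = sgc i := (List.cons.inj hQ).1
    apply hD
    rw [h1]
    simp [sgc]
  | cons q Q =>
    rw [List.cons_append] at hQ
    exact h ⟨Q, (List.cons.inj hQ).2⟩

private theorem Mt_of_cons {i : J} {m : ℕ} {D : NE J} {L : List (NE J)}
    (h : Mt i m (D :: L)) : Mt i m L := by
  rintro ⟨Q, hQ⟩
  exact h ⟨D :: Q, by rw [hQ, List.cons_append]⟩

private theorem Mt_cons_sg {i : J} {m : ℕ} {L : List (NE J)} (h : Mt i m L) :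
    Mt i (m + 1) (sgc i :: L) := by
  rintro ⟨Q, hQ⟩
  cases Q with
  | nil =>
    rw [List.nil_append, List.replicate_succ] at hQ
    exact h ⟨[], by rw [(List.cons.inj hQ).2, List.nil_append]⟩
  | cons q Q =>
    rw [List.cons_append] at hQ
    refine h ⟨Q ++ [sgc i], ?_⟩
    rw [(List.cons.inj hQ).2, List.replicate_succ, List.append_assoc]
    rfl

private theorem Mt_of_cons_sg {i : J} {m : ℕ} {L : List (NE J)} (hh : hdi i L)
    (hc : (ty L).count i = m) (h : Mt i (m + 1) (sgc i :: L)) : Mt i m L := by
  rintro ⟨Q, hQ⟩
  have h1 : (ty Q).count i = 0 := by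
    have := count_replicate_append i m Q
    rw [← hQ, hc] at this
    omega
  cases Q with
  | nil =>
    refine h ⟨[], ?_⟩
    rw [hQ, List.nil_append, List.nil_append, List.replicate_succ]
  | cons q Q =>
    rw [hQ, List.cons_append] at hh
    rw [count_cons_pos hh] at h1
    omega

/-- a list starting with `{i}, E` with `E ≠ {i}` is matched -/
private theorem Mt_split {i : J} {m : ℕ} {E : NE J} {L : List (NE J)} (hm : 1 ≤ m)
    (hE : E.1 ≠ {i}) (hc : (ty (sgc i :: E :: L)).count i = m) : Mt i m (sgc i :: E :: L) := by
  rintro ⟨Q, hQ⟩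
  obtain ⟨m', rfl⟩ : ∃ m', m = m' + 1 := ⟨m - 1, by omega⟩
  cases Q with
  | nil =>
    rw [List.nil_append, List.replicate_succ] at hQ
    have h1 := (List.cons.inj hQ).2
    cases m' with
    | zero => simp at h1
    | succ m' =>
      rw [List.replicate_succ] at h1
      apply hE
      rw [(List.cons.inj h1).1]
      rfl
  | cons q Q =>
    rw [List.cons_append] at hQ
    have h1 := (List.cons.inj hQ).2
    rw [count_cons_pos (by simp [sgc]), h1, count_replicate_append] at hc
    omega

/-! ### the homotopy -/

private theorem hh_notin {i : J} {D : NE J} (h : i ∉ D.1) (L : List (NE J)) :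
    hh i (D :: L) = pre D (hh i L) := by
  rw [hh, if_pos h]

private theorem hh_sg_pos {i : J} {L : List (NE J)} (h : hdi i L) :
    hh i (sgc i :: L) = pre (sgc i) (hh i L) := by
  rw [hh, if_neg (by simp [sgc]), if_pos (show (sgc i).1 = {i} from rfl), if_pos h]

private theorem hh_sg_neg {i : J} {L : List (NE J)} (h : ¬ hdi i L) :
    hh i (sgc i :: L) = 0 := by
  rw [hh, if_neg (by simp [sgc]), if_pos (show (sgc i).1 = {i} from rfl), if_neg h]

private theorem hh_split {i : J} {D : NE J} (h : i ∈ D.1) (h' : D.1 ≠ {i}) (L : List (NE J)) :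
    hh i (D :: L) = Finsupp.single (sgc i :: er i D :: L) 1 := by
  rw [hh, if_neg (not_not.2 h), if_neg h']

private theorem hhL_single (i : J) (L : List (NE J)) : hhL i (Finsupp.single L 1) = hh i L := by
  unfold hhL
  rw [Finsupp.linearCombination_single, one_smul]

private theorem ty_split {i : J} {D : NE J} (h : i ∈ D.1) (h' : D.1 ≠ {i}) (L : List (NE J)) :
    ty (sgc i :: er i D :: L) = ty (D :: L) := by
  rw [ty_cons, ty_cons, ty_cons, ← add_assoc]
  congr 1
  rw [er_val h', Finset.erase_val]
  show ({i} : Multiset J) + D.1.val.erase i = D.1.val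
  rw [Multiset.singleton_add]
  exact Multiset.cons_erase h

theorem hh_terms (i : J) (m : ℕ) (hm : 1 ≤ m) {L M : List (NE J)} (hL : (ty L).count i = m)
    (h : hh i L M ≠ 0) : ty M = ty L ∧ M.length = L.length + 1 ∧ Mt i m M := by
  suffices H : ∀ (L : List (NE J)) (m : ℕ), 1 ≤ m → (ty L).count i = m →
      SP (fun M => ty M = ty L ∧ M.length = L.length + 1 ∧ Mt i m M) (hh i L) from
    H L m hm hL M h
  clear h hL hm m M L
  intro L
  induction L with
  | nil => intro m _ _; exact SP_zero
  | cons D L ih =>
    intro m hm hc
    by_cases hD : i ∈ D.1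
    · by_cases hD' : D.1 = {i}
      · obtain rfl := eq_sg hD'
        by_cases hl : hdi i L
        · rw [hh_sg_pos hl]
          rw [count_cons_pos hD] at hc
          have hc' : 1 ≤ (ty L).count i := by
            cases L with
            | nil => exact absurd hl id
            | cons E L => rw [count_cons_pos hl]; omega
          refine SP_pre (ih _ hc' rfl) ?_
          rintro M ⟨h1, h2, h3⟩
          refine ⟨by rw [ty_cons, ty_cons, h1], by rw [List.length_cons, List.length_cons, h2], ?_⟩
          rw [← hc]
          exact Mt_cons_sg h3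
        · rw [hh_sg_neg hl]
          exact SP_zero
      · rw [hh_split hD hD']
        refine SP_single ⟨ty_split hD hD' L, rfl, ?_⟩
        refine Mt_split hm (fun h => notMem_er hD' (by rw [h]; exact Finset.mem_singleton_self i)) ?_
        rw [ty_split hD hD' L, hc]
    · rw [hh_notin hD]
      rw [count_cons_neg hD] at hc
      refine SP_pre (ih m hm hc) ?_
      rintro M ⟨h1, h2, h3⟩
      exact ⟨by rw [ty_cons, ty_cons, h1], by rw [List.length_cons, List.length_cons, h2],
        Mt_cons hm hD h3⟩

/-- the prefix length is unchanged -/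
private theorem hh_pr (i : J) (L : List (NE J)) : SP (fun M => pr i M = pr i L) (hh i L) := by
  induction L with
  | nil => exact SP_zero
  | cons D L ih =>
    by_cases hD : i ∈ D.1
    · by_cases hD' : D.1 = {i}
      · obtain rfl := eq_sg hD'
        by_cases hl : hdi i L
        · rw [hh_sg_pos hl]
          refine SP_pre ih ?_
          intro M _
          rw [pr, pr, if_pos hD, if_pos hD]
        · rw [hh_sg_neg hl]
          exact SP_zero
      · rw [hh_split hD hD']
        refine SP_single ?_
        show pr i (sgc i :: er i D :: L) = pr i (D :: L)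
        rw [pr, if_pos (show i ∈ (sgc i).1 from Finset.mem_singleton_self i)]
        rw [pr, if_pos hD]
    · rw [hh_notin hD]
      refine SP_pre ih ?_
      intro M hM
      rw [pr, pr, if_neg hD, if_neg hD, hM]

/-- the operator `K` -/
private noncomputable def KK (i : J) (L : List (NE J)) : LC J :=
  dlL (hh i L) + hhL i (dlc L) + Finsupp.single L 1

private theorem dl_eq (L : List (NE J)) : dlc L = dlL (Finsupp.single L 1) := by
  rw [dlL_single]

private theorem dl_cons (D : NE J) (L : List (NE J)) :
    dlc (D :: L) = pre D (dlc L) + mg D (Finsupp.single L 1) := by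
  rw [dl_eq (D :: L), ← pre_single, dlL_pre, dlL_single]

private theorem two (x : LC J) : x + x = 0 := by
  ext M
  rw [Finsupp.add_apply]
  exact CharTwo.add_self_eq_zero _

/-- homotopy and prefixes without `i` -/
private theorem hhL_pre_notin {i : J} {D : NE J} (h : i ∉ D.1) (x : LC J) :
    hhL i (pre D x) = pre D (hhL i x) := by
  induction x using Finsupp.induction_linear with
  | zero => simp
  | add x y hx hy => rw [map_add, map_add, map_add, map_add, hx, hy]
  | single L r =>
    have h1 : Finsupp.single L r = r • (Finsupp.single L 1 : LC J) := by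
      rw [Finsupp.smul_single, smul_eq_mul, mul_one]
    rw [h1, map_smul, map_smul, map_smul, map_smul, pre_single, hhL_single, hhL_single,
      hh_notin h]

/-- homotopy and a prefix `{i}` -/
private theorem hhL_pre_sg {i : J} (x : LC J) (hx : SP (hdi i) x) :
    hhL i (pre (sgc i) x) = pre (sgc i) (hhL i x) := by
  have h1 : hhL i (pre (sgc i) x) = x.sum fun L r => r • hh i (sgc i :: L) := by
    unfold hhL pre
    rw [Finsupp.lmapDomain_apply, Finsupp.linearCombination_mapDomain,
      Finsupp.linearCombination_apply]
    rfl
  have h2 : pre (sgc i) (hhL i x) = x.sum fun L r => r • pre (sgc i) (hh i L) := by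
    unfold hhL
    rw [Finsupp.linearCombination_apply, map_finsuppSum]
    refine Finsupp.sum_congr fun L _ => ?_
    rw [map_smul]
  rw [h1, h2]
  refine Finsupp.sum_congr fun L hL => ?_
  rw [hh_sg_pos (hx L (Finsupp.mem_support_iff.1 hL))]

/-- homotopy and a prefix `{i}`, heads without `i` -/
private theorem hhL_pre_sg_zero {i : J} (x : LC J) (hx : SP (fun L => ¬ hdi i L) x) :
    hhL i (pre (sgc i) x) = 0 := by
  have h1 : hhL i (pre (sgc i) x) = x.sum fun L r => r • hh i (sgc i :: L) := by
    unfold hhL pre
    rw [Finsupp.lmapDomain_apply, Finsupp.linearCombination_mapDomain,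
      Finsupp.linearCombination_apply]
    rfl
  rw [h1]
  refine Finset.sum_eq_zero fun L hL => ?_
  show x L • hh i (sgc i :: L) = 0
  rw [hh_sg_neg (hx L (Finsupp.mem_support_iff.1 hL)), smul_zero]

/-- merging `{i}` into heads containing `i` -/
private theorem mg_sg_zero {i : J} (x : LC J) (hx : SP (hdi i) x) : mg (sgc i) x = 0 := by
  unfold mg
  rw [Finsupp.linearCombination_apply]
  refine Finset.sum_eq_zero fun L hL => ?_
  have h1 := hx L (Finsupp.mem_support_iff.1 hL)
  cases L with
  | nil => exact absurd h1 id
  | cons E L =>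
    show x (E :: L) • (if Disjoint (sgc i).1 E.1 then Finsupp.single ((sgc i).un E :: L) 1 else 0) = (0 : LC J)
    rw [if_neg, smul_zero]
    intro h2
    exact Finset.disjoint_left.1 h2 (Finset.mem_singleton_self i) h1

/-- homotopy and a prefix `D` containing `i`, `D ≠ {i}` -/
private theorem hhL_pre_split {i : J} {D : NE J} (h : i ∈ D.1) (h' : D.1 ≠ {i}) (x : LC J) :
    hhL i (pre D x) = pre (sgc i) (pre (er i D) x) := by
  induction x using Finsupp.induction_linear with
  | zero => simp
  | add x y hx hy => rw [map_add, map_add, map_add, map_add, hx, hy]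
  | single L r =>
    have h1 : Finsupp.single L r = r • (Finsupp.single L 1 : LC J) := by
      rw [Finsupp.smul_single, smul_eq_mul, mul_one]
    rw [h1, map_smul, map_smul, map_smul, map_smul, pre_single, hhL_single, pre_single,
      pre_single, hh_split h h']

private theorem hh_hdi {i : J} {L : List (NE J)} (h : hdi i L) : SP (hdi i) (hh i L) := by
  cases L with
  | nil => exact absurd h id
  | cons D L =>
    have hD : i ∈ D.1 := h
    by_cases hD' : D.1 = {i}
    · obtain rfl := eq_sg hD'
      by_cases hl : hdi i L
      · rw [hh_sg_pos hl]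
        exact SP_pre (P := fun _ => True) (fun _ _ => trivial) fun M _ => hD
      · rw [hh_sg_neg hl]
        exact SP_zero
    · rw [hh_split hD hD']
      exact SP_single (Finset.mem_singleton_self i)

private theorem dl_hdi {i : J} {L : List (NE J)} (h : hdi i L) : SP (hdi i) (dlc L) := by
  cases L with
  | nil => exact absurd h id
  | cons D L =>
    have hD : i ∈ D.1 := h
    rw [dl_cons]
    refine SP_add (SP_pre (P := fun _ => True) (fun _ _ => trivial) fun M _ => hD) ?_
    refine SP_mg (P := fun _ => True) (fun _ _ => trivial) ?_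
    intro E M _ _
    exact Finset.mem_union_left _ hD

private theorem KK_notin {i : J} {D : NE J} (h : i ∉ D.1) (L : List (NE J)) :
    KK i (D :: L) = pre D (KK i L) + (mg D (hh i L) + hhL i (mg D (Finsupp.single L 1))) := by
  unfold KK
  rw [hh_notin h, dlL_pre, dl_cons, map_add, hhL_pre_notin h, map_add, map_add, pre_single]
  abel

private theorem KK_sg_pos {i : J} {L : List (NE J)} (h : hdi i L) :
    KK i (sgc i :: L) = pre (sgc i) (KK i L) := by
  unfold KK
  rw [hh_sg_pos h, dlL_pre, dl_cons, map_add, mg_sg_zero _ (hh_hdi h),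
    mg_sg_zero _ (SP_single h), hhL_pre_sg _ (dl_hdi h), map_add, map_add, pre_single, map_zero]
  abel

private theorem un_sg {i : J} {E : NE J} (h : i ∉ E.1) :
    i ∈ ((sgc i).un E).1 ∧ ((sgc i).un E).1 ≠ {i} ∧ er i ((sgc i).un E) = E := by
  have h1 : i ∈ ((sgc i).un E).1 := Finset.mem_union_left _ (Finset.mem_singleton_self i)
  have h2 : ((sgc i).un E).1 ≠ {i} := by
    intro h2
    obtain ⟨j, hj⟩ := E.2
    have h3 : j ∈ ((sgc i).un E).1 := Finset.mem_union_right _ hj
    rw [h2, Finset.mem_singleton] at h3
    exact h (h3 ▸ hj)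
  refine ⟨h1, h2, Subtype.ext ?_⟩
  rw [er_val h2]
  show (({i} : Finset J) ∪ E.1).erase i = E.1
  ext j
  simp only [Finset.mem_erase, Finset.mem_union, Finset.mem_singleton]
  constructor
  · rintro ⟨h3, h4 | h4⟩
    · exact absurd h4 h3
    · exact h4
  · intro h3
    exact ⟨fun h4 => h (h4 ▸ h3), Or.inr h3⟩

private theorem KK_sg_neg {i : J} {E : NE J} (h : i ∉ E.1) (L : List (NE J)) :
    KK i (sgc i :: E :: L) = hhL i (pre (sgc i) (mg E (Finsupp.single L 1))) := by
  unfold KK
  obtain ⟨h1, h2, h3⟩ := un_sg h
  have hdis : Disjoint (sgc i).1 E.1 := Finset.disjoint_singleton_left.2 h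
  rw [hh_sg_neg (L := E :: L) h, map_zero, zero_add, dl_cons (sgc i), map_add, dl_cons E, map_add,
    map_add, hhL_pre_sg_zero (pre E (dlc L))
      (SP_pre (P := fun _ => True) (fun _ _ => trivial) fun M _ => h), zero_add, mg_cons,
    if_pos hdis, hhL_single, hh_split h1 h2, h3, add_assoc, two, add_zero]

private theorem KK_split {i : J} {D : NE J} (h : i ∈ D.1) (h' : D.1 ≠ {i}) (L : List (NE J)) :
    KK i (D :: L) = pre (sgc i) (mg (er i D) (Finsupp.single L 1)) +
      hhL i (mg D (Finsupp.single L 1)) := by
  unfold KK
  have hdis : Disjoint (sgc i).1 (er i D).1 := Finset.disjoint_singleton_left.2 (notMem_er h')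
  have e1 : dlL (hh i (D :: L)) = pre (sgc i) (pre (er i D) (dlc L)) +
      pre (sgc i) (mg (er i D) (Finsupp.single L 1)) + Finsupp.single (D :: L) 1 := by
    rw [hh_split h h', dlL_single, dl_cons, dl_cons, map_add, mg_cons, if_pos hdis, un_er h h']
  have e2 : hhL i (dlc (D :: L)) = pre (sgc i) (pre (er i D) (dlc L)) +
      hhL i (mg D (Finsupp.single L 1)) := by
    rw [dl_cons, map_add, hhL_pre_split h h']
  rw [e1, e2]
  have t1 := two (pre (sgc i) (pre (er i D) (dlc L)))
  have t2 := two (Finsupp.single (D :: L) 1 : LC J)
  calc pre (sgc i) (pre (er i D) (dlc L)) + pre (sgc i) (mg (er i D) (Finsupp.single L 1)) +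
        Finsupp.single (D :: L) 1 + (pre (sgc i) (pre (er i D) (dlc L)) +
        hhL i (mg D (Finsupp.single L 1))) + Finsupp.single (D :: L) 1
      = (pre (sgc i) (pre (er i D) (dlc L)) + pre (sgc i) (pre (er i D) (dlc L))) +
        (Finsupp.single (D :: L) 1 + Finsupp.single (D :: L) 1) +
        (pre (sgc i) (mg (er i D) (Finsupp.single L 1)) +
        hhL i (mg D (Finsupp.single L 1))) := by abel
    _ = _ := by rw [t1, t2, add_zero, zero_add]

/-! ### the measure -/

private theorem mu_le (i : J) (m : ℕ) (M : List (NE J)) : mu i m M ≤ pr i M * (m + 1) + m := by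
  unfold mu
  omega

private theorem mu_cons_neg {i : J} {D : NE J} (h : i ∉ D.1) (m : ℕ) (M : List (NE J)) :
    mu i m (D :: M) = mu i m M + (m + 1) := by
  unfold mu
  rw [pr, if_neg h, rn', if_neg h]
  ring

private theorem mu_cons_sg (i : J) (m : ℕ) (M : List (NE J)) :
    mu i m (sgc i :: M) = m - (rn i M + 1) := by
  unfold mu
  have h : i ∈ (sgc i).1 := Finset.mem_singleton_self i
  rw [pr, if_pos h, rn', if_pos h, rn, if_pos (show (sgc i).1 = {i} from rfl)]
  ring_nf

private theorem mu_cons_pos {i : J} {D : NE J} (h : i ∈ D.1) (h' : D.1 ≠ {i}) (m : ℕ)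
    (M : List (NE J)) : mu i m (D :: M) = m := by
  unfold mu
  rw [pr, if_pos h, rn', if_pos h, rn, if_neg h', zero_mul, zero_add]
  omega

private theorem mu_of_hdi {i : J} {m : ℕ} {M : List (NE J)} (h : hdi i M) :
    mu i m M = m - rn i M := by
  cases M with
  | nil => exact absurd h id
  | cons D M =>
    have hD : i ∈ D.1 := h
    by_cases hD' : D.1 = {i}
    · obtain rfl := eq_sg hD'
      rw [mu_cons_sg, rn, if_pos hD']
    · rw [mu_cons_pos hD hD', rn, if_neg hD']
      omega

private theorem pr_un {i : J} {D E : NE J} (h : i ∉ D.1) (M : List (NE J)) :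
    pr i (D.un E :: M) = pr i (E :: M) := by
  rw [pr, pr]
  have h1 : i ∈ (D.un E).1 ↔ i ∈ E.1 := by
    show i ∈ D.1 ∪ E.1 ↔ _
    rw [Finset.mem_union]
    exact ⟨fun h2 => h2.resolve_left h, Or.inr⟩
  by_cases h2 : i ∈ E.1
  · rw [if_pos h2, if_pos (h1.2 h2)]
  · rw [if_neg h2, if_neg (fun h3 => h2 (h1.1 h3))]

private theorem KK_mu (i : J) (L : List (NE J)) : ∀ m : ℕ, 1 ≤ m → (ty L).count i = m →
    Mt i m L → SP (fun M => mu i m M < mu i m L) (KK i L) := by
  induction L with
  | nil =>
    intro m hm hc _
    have : (ty ([] : List (NE J))).count i = 0 := by simp [ty]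
    omega
  | cons D L ih =>
    intro m hm hc hM
    by_cases hD : i ∈ D.1
    · by_cases hD' : D.1 = {i}
      · obtain rfl := eq_sg hD'
        rw [count_cons_pos hD] at hc
        by_cases hl : hdi i L
        · have hc' : 1 ≤ (ty L).count i := by
            cases L with
            | nil => exact absurd hl id
            | cons E L => rw [count_cons_pos hl]; omega
          rw [KK_sg_pos hl]
          obtain ⟨m', rfl⟩ : ∃ m', m = m' + 1 := ⟨m - 1, by omega⟩
          have hm' : (ty L).count i = m' := by omega
          have hmt : Mt i m' L := Mt_of_cons_sg hl hm' hM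
          refine SP_pre (ih m' (by omega) hm' hmt) ?_
          intro M hMM
          rw [mu_of_hdi hl] at hMM
          rw [mu_cons_sg, mu_cons_sg]
          have hpr : pr i M = 0 := by
            by_contra hne
            have : m' + 1 ≤ pr i M * (m' + 1) := Nat.le_mul_of_pos_left _ (Nat.pos_of_ne_zero hne)
            unfold mu at hMM
            omega
          have hM' : hdi i M := by
            cases M with
            | nil =>
              have : mu i m' ([] : List (NE J)) = m' := by simp [mu, pr, rn']
              rw [this] at hMM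
              omega
            | cons F M =>
              by_contra hF
              have hF' : i ∉ F.1 := hF
              rw [pr, if_neg hF'] at hpr
              omega
          rw [mu_of_hdi hM'] at hMM
          omega
        · cases L with
          | nil =>
            exfalso
            apply hM
            have : (ty ([] : List (NE J))).count i = 0 := by simp [ty]
            have hm1 : m = 1 := by omega
            subst hm1
            exact ⟨[], rfl⟩
          | cons E L =>
            have hE : i ∉ E.1 := hl
            rw [KK_sg_neg hE]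
            cases L with
            | nil =>
              rw [mg_nil, map_zero, map_zero]
              exact SP_zero
            | cons F L =>
              rw [mg_cons]
              split_ifs with hdis
              · rw [pre_single, hhL_single]
                by_cases hF : i ∈ F.1
                · have h1 : i ∈ (E.un F).1 := Finset.mem_union_right _ hF
                  have h2 : (E.un F).1 ≠ {i} := by
                    intro h2
                    obtain ⟨j, hj⟩ := E.2
                    have h3 : j ∈ (E.un F).1 := Finset.mem_union_left _ hj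
                    rw [h2, Finset.mem_singleton] at h3
                    exact hE (h3 ▸ hj)
                  rw [hh_sg_pos (L := E.un F :: L) h1, hh_split h1 h2, pre_single]
                  refine SP_single ?_
                  show mu i m (sgc i :: sgc i :: er i (E.un F) :: L) < mu i m (sgc i :: E :: F :: L)
                  rw [mu_cons_sg, mu_cons_sg, rn, if_pos (show (sgc i).1 = {i} from rfl)]
                  rw [count_cons_neg hE, count_cons_pos hF] at hc
                  have h4 : rn i (E :: F :: L) = 0 := by
                    rw [rn, if_neg]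
                    intro h4
                    rw [h4] at hE
                    exact hE (Finset.mem_singleton_self i)
                  rw [h4]
                  omega
                · have h1 : ¬ hdi i (E.un F :: L) := by
                    show ¬ i ∈ E.1 ∪ F.1
                    rw [Finset.mem_union, not_or]
                    exact ⟨hE, hF⟩
                  rw [hh_sg_neg h1]
                  exact SP_zero
              · rw [map_zero, map_zero]
                exact SP_zero
      · rw [KK_split hD hD']
        cases L with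
        | nil =>
          rw [mg_nil, mg_nil, map_zero, map_zero, add_zero]
          exact SP_zero
        | cons F L =>
          rw [mg_cons, mg_cons]
          by_cases hF : i ∈ F.1
          · have hnd : ¬ Disjoint D.1 F.1 := fun h => Finset.disjoint_left.1 h hD hF
            rw [if_neg hnd, map_zero, add_zero]
            split_ifs with hdis
            · rw [pre_single]
              refine SP_single ?_
              rw [mu_cons_sg, mu_cons_pos hD hD']
              omega
            · rw [map_zero]
              exact SP_zero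
          · by_cases hdis : Disjoint D.1 F.1
            · have hdis' : Disjoint (er i D).1 F.1 := by
                rw [er_val hD']
                exact hdis.mono_left (Finset.erase_subset _ _)
              rw [if_pos hdis, if_pos hdis', pre_single, hhL_single]
              have h1 : i ∈ (D.un F).1 := Finset.mem_union_left _ hD
              have h2 : (D.un F).1 ≠ {i} := by
                intro h2
                obtain ⟨j, hj⟩ := F.2
                have h3 : j ∈ (D.un F).1 := Finset.mem_union_right _ hj
                rw [h2, Finset.mem_singleton] at h3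
                exact hF (h3 ▸ hj)
              have h3 : er i (D.un F) = (er i D).un F := by
                apply Subtype.ext
                rw [er_val h2]
                show (D.1 ∪ F.1).erase i = (er i D).1 ∪ F.1
                rw [er_val hD']
                ext j
                simp only [Finset.mem_erase, Finset.mem_union]
                constructor
                · rintro ⟨h4, h5 | h5⟩
                  · exact Or.inl ⟨h4, h5⟩
                  · exact Or.inr h5
                · rintro (⟨h4, h5⟩ | h5)
                  · exact ⟨h4, Or.inl h5⟩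
                  · exact ⟨fun h6 => hF (h6 ▸ h5), Or.inr h5⟩
              rw [hh_split h1 h2, h3, two]
              exact SP_zero
            · have hdis' : ¬ Disjoint (er i D).1 F.1 := by
                intro h
                apply hdis
                rw [er_val hD', Finset.disjoint_left] at h
                rw [Finset.disjoint_left]
                intro j hj hj'
                exact h (Finset.mem_erase.2 ⟨fun h6 => hF (h6 ▸ hj'), hj⟩) hj'
              rw [if_neg hdis, if_neg hdis', map_zero, map_zero, add_zero]
              exact SP_zero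
    · rw [count_cons_neg hD] at hc
      have hmt : Mt i m L := Mt_of_cons hM
      rw [KK_notin hD]
      refine SP_add (SP_pre (ih m hm hc hmt) ?_) (SP_add ?_ ?_)
      · intro M hMM
        rw [mu_cons_neg hD, mu_cons_neg hD]
        omega
      · refine SP_mg (hh_pr i L) ?_
        intro E M hE hdis
        have h1 := mu_le i m (D.un E :: M)
        rw [pr_un hD, hE] at h1
        have h2 : mu i m (D :: L) = (pr i L + 1) * (m + 1) + (m - rn' i L) := by
          unfold mu
          rw [pr, if_neg hD, rn', if_neg hD]
        rw [h2]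
        have h3 : (pr i L + 1) * (m + 1) = pr i L * (m + 1) + (m + 1) := by ring
        omega
      · refine SP_hhL (P := fun M => pr i M = pr i L) ?_ ?_
        · refine SP_mg (P := fun M => pr i M = pr i L) (SP_single rfl) ?_
          intro E M hE _
          rw [pr_un hD, hE]
        · intro M hM1
          refine SP_mono (hh_pr i M) ?_
          intro M' hM'
          have h1 := mu_le i m M'
          rw [hM', hM1] at h1
          have h2 : mu i m (D :: L) = (pr i L + 1) * (m + 1) + (m - rn' i L) := by
            unfold mu
            rw [pr, if_neg hD, rn', if_neg hD]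
          rw [h2]
          have h3 : (pr i L + 1) * (m + 1) = pr i L * (m + 1) + (m + 1) := by ring
          omega

private theorem dl_Mt {i : J} {m : ℕ} {L M : List (NE J)} (hL : (ty L).count i = m)
    (hM : Mt i m L) (h : dlc L M ≠ 0) : Mt i m M := by
  rintro ⟨Q, rfl⟩
  exact h (dl_unmatched_b i m L Q hL hM)

theorem K_terms (i : J) (m : ℕ) (hm : 1 ≤ m) {L M : List (NE J)} (hL : (ty L).count i = m)
    (hM : Mt i m L) (h : (dlL (hh i L) + hhL i (dlc L) + Finsupp.single L 1 : LC J) M ≠ 0) :
    ty M = ty L ∧ M.length = L.length ∧ Mt i m M ∧ mu i m M < mu i m L := by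
  have h0 := KK_mu i L m hm hL hM M h
  have H : SP (fun M => ty M = ty L ∧ M.length = L.length ∧ Mt i m M)
      (dlL (hh i L) + hhL i (dlc L) + Finsupp.single L 1 : LC J) := by
    refine SP_add (SP_add ?_ ?_) (SP_single ⟨rfl, rfl, hM⟩)
    · refine SP_dlL (P := fun M => ty M = ty L ∧ M.length = L.length + 1 ∧ Mt i m M) ?_ ?_
      · intro M' hM'
        exact hh_terms i m hm hL hM'
      · rintro M' ⟨h1, h2, h3⟩ M'' h4
        obtain ⟨h5, h6⟩ := dl_terms h4
        exact ⟨h5.trans h1, by omega, dl_Mt (by rw [h1, hL]) h3 h4⟩
    · refine SP_hhL (P := fun M => ty M = ty L ∧ M.length + 1 = L.length) ?_ ?_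
      · intro M' hM'
        exact dl_terms hM'
      · rintro M' ⟨h1, h2⟩ M'' h4
        obtain ⟨h5, h6, h7⟩ := hh_terms i m hm (by rw [h1, hL]) h4
        exact ⟨h5.trans h1, by omega, h7⟩
  obtain ⟨h1, h2, h3⟩ := H M h
  exact ⟨h1, h2, h3, h0⟩

theorem matched_acyclic (i : J) (e : Multiset J) (m : ℕ) (hm : 1 ≤ m) (he : e.count i = m) (k : ℕ)
    (x : LC J) (hx : InC e k x) (hu : ∀ L, x L ≠ 0 → Mt i m L) (hd : dlL x = 0) :
    ∃ y, InC e (k + 1) y ∧ (∀ L, y L ≠ 0 → Mt i m L) ∧ dlL y = x := by
  suffices H : ∀ (N : ℕ) (x : LC J), InC e k x → (∀ L, x L ≠ 0 → Mt i m L) → dlL x = 0 →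
      (∀ L, x L ≠ 0 → mu i m L < N) →
      ∃ y, InC e (k + 1) y ∧ (∀ L, y L ≠ 0 → Mt i m L) ∧ dlL y = x by
    refine H (x.support.sup (mu i m) + 1) x hx hu hd ?_
    intro L hL
    exact Nat.lt_succ_of_le (Finset.le_sup (f := mu i m) (Finsupp.mem_support_iff.2 hL))
  clear hd hu hx x
  intro N
  induction N with
  | zero =>
    intro x hx hu hd hN
    have h0 : x = 0 := by
      ext L
      by_contra h
      exact absurd (hN L h) (Nat.not_lt_zero _)
    refine ⟨0, ?_, ?_, ?_⟩
    · intro L hL
      exact absurd rfl hL
    · intro L hL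
      exact absurd rfl hL
    · rw [h0, map_zero]
  | succ N ih =>
    intro x hx hu hd hN
    have hK : x + dlL (hhL i x) = Finsupp.linearCombination (ZMod 2) (KK i) x := by
      have h1 : dlL (hhL i x) = Finsupp.linearCombination (ZMod 2) (fun L => dlL (hh i L)) x := by
        unfold hhL
        rw [Finsupp.linearCombination_apply, Finsupp.linearCombination_apply, map_finsuppSum]
        refine Finsupp.sum_congr fun L _ => ?_
        rw [map_smul]
      have h2 : hhL i (dlL x) = Finsupp.linearCombination (ZMod 2) (fun L => hhL i (dlc L)) x := by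
        unfold dlL
        rw [Finsupp.linearCombination_apply, Finsupp.linearCombination_apply, map_finsuppSum]
        refine Finsupp.sum_congr fun L _ => ?_
        rw [map_smul]
      have h3 : x = Finsupp.linearCombination (ZMod 2) (fun L => (Finsupp.single L 1 : LC J)) x := by
        rw [Finsupp.linearCombination_apply]
        conv_lhs => rw [← Finsupp.sum_single x]
        refine Finsupp.sum_congr fun L _ => ?_
        rw [Finsupp.smul_single, smul_eq_mul, mul_one]
      have h4 : Finsupp.linearCombination (ZMod 2) (KK i) x =
          Finsupp.linearCombination (ZMod 2) (fun L => dlL (hh i L)) x +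
          Finsupp.linearCombination (ZMod 2) (fun L => hhL i (dlc L)) x +
          Finsupp.linearCombination (ZMod 2) (fun L => (Finsupp.single L 1 : LC J)) x := by
        simp only [Finsupp.linearCombination_apply, Finsupp.sum]
        rw [← Finset.sum_add_distrib, ← Finset.sum_add_distrib]
        refine Finset.sum_congr rfl fun L _ => ?_
        unfold KK
        rw [smul_add, smul_add]
      rw [h4, ← h1, ← h2, ← h3, hd, map_zero, add_zero, add_comm]
    have hz : SP (fun M => ty M = e ∧ M.length = k ∧ Mt i m M ∧ mu i m M < N)
        (x + dlL (hhL i x)) := by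
      rw [hK]
      refine SP_lin (P := fun L => ty L = e ∧ L.length = k ∧ Mt i m L ∧ mu i m L < N + 1) ?_ ?_
      · intro L hL
        exact ⟨(hx L hL).1, (hx L hL).2, hu L hL, hN L hL⟩
      · rintro L ⟨h1, h2, h3, h4⟩ M hM
        obtain ⟨h5, h6, h7, h8⟩ := K_terms i m hm (by rw [h1, he]) h3 hM
        exact ⟨h5.trans h1, h6.trans h2, h7, by omega⟩
    have hh1 : SP (fun M => ty M = e ∧ M.length = k + 1 ∧ Mt i m M) (hhL i x) := by
      refine SP_hhL (P := fun L => ty L = e ∧ L.length = k) (fun L hL => hx L hL) ?_
      rintro L ⟨h1, h2⟩ M hM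
      obtain ⟨h5, h6, h7⟩ := hh_terms i m hm (by rw [h1, he]) hM
      exact ⟨h5.trans h1, by omega, h7⟩
    obtain ⟨y, hy1, hy2, hy3⟩ := ih (x + dlL (hhL i x))
      (fun L hL => ⟨(hz L hL).1, (hz L hL).2.1⟩) (fun L hL => (hz L hL).2.2.1)
      (by rw [map_add, hd, dlL_dlL, add_zero]) (fun L hL => (hz L hL).2.2.2)
    refine ⟨y + hhL i x, ?_, ?_, ?_⟩
    · exact SP_add (P := fun L => ty L = e ∧ L.length = k + 1) hy1
        (fun L hL => ⟨(hh1 L hL).1, (hh1 L hL).2.1⟩)
    · exact SP_add (P := fun L => Mt i m L) hy2 (fun L hL => (hh1 L hL).2.2)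
    · rw [map_add, hy3, add_assoc, two, add_zero]

end MM
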