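import Pool.Agent.Lib_MP_33f7bb_d.A4C2

/-!
# A4-23: homology of the combinatorial bar complex

`bar_exact`: strong induction on the number of elements of `e`.  `k < card e`, so `e ≠ 0`; choose `i ∈ e`, `m = e.count i ≥ 1`.
Let `a` = the chain of all `Q` with coefficient `x (Q ++ {i}^m)` (`Finsupp.comapDomain`, `List.append_left_injective`-type
injectivity).  Its lists have type `e' = e - m • {i}` (so do not contain `i`) and length `k - m`; if `k < m` then `a = 0`.
`d a = 0`: the coefficient of `P` in `d a` is the coefficient of `P ++ {i}^m` in `d x` (`dl_unmatched_a`, `dl_unmatched_b`).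
`k - m < card e' = card e - m`, so by induction `a = d b`, `b` of type `e'`, length `k - m + 1`.  Put
`x' = x + d (b ++ {i}^m)`: it is a cycle and its coefficient at `P ++ {i}^m` is `a P + (d b) P = 0` (`dl_unmatched_a` for the
lists `Q ++ {i}^m`, `i ∉ Q`).  So `x'` is matched and `matched_acyclic` applies: `x' = d y`, `x = d (b ++ {i}^m + y)`.
`bar_top`: if `k = card e` all sets of a list of type `e` and length `k` are singletons.  For
`L = A ++ D :: E :: B`, `L' = A ++ E :: D :: B`, all sets singletons, `D ≠ E`: the coefficient of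
`A ++ (D ∪ E) :: B` in `d x` is `x L + x L'` (a list of singletons whose differential contains `A ++ (D ∪ E) :: B` must have the merged pair in
the place of the only two element set), so `x L = x L'`.  Adjacent transpositions generate: induction on
`List.Perm` (the `cons` case needs the statement for all prefixes: prove by induction on the permutation `L ~ L'` that
`x (A ++ L) = x (A ++ L')` for all `A`).
`bar_span`: in length `k` and type `e` with `card e = k` the cycles are multiples of `zet e`, the sum of all lists of singletons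
with union `e` (= all lists obtained from the permutations of `e`).
-/

namespace MM

variable {J : Type} [DecidableEq J]

private theorem A4C3_un_ne {D E : NE J} (h : Disjoint D.1 E.1) : D.un E ≠ D := by
  intro h'
  have h1 : D.1 ∪ E.1 = D.1 := congrArg Subtype.val h'
  obtain ⟨x, hx⟩ := E.2
  have h2 : x ∈ D.1 := by
    rw [← h1]
    exact Finset.mem_union_right _ hx
  exact Finset.disjoint_left.1 h h2 hx

private theorem A4C3_dl_cons (D : NE J) (L M : List (NE J)) :
    dlc (D :: L) (D :: M) = dlc L M := by
  cases L with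
  | nil => simp [dlc]
  | cons E L =>
    rw [dlc, Finsupp.add_apply]
    have h1 : (if Disjoint D.1 E.1 then Finsupp.single (D.un E :: L) 1 else 0 : LC J)
        (D :: M) = 0 := by
      split_ifs with h
      · apply Finsupp.single_eq_of_ne
        intro h'
        exact A4C3_un_ne h (List.cons.inj h').1.symm
      · rfl
    rw [h1, zero_add]
    exact Finsupp.mapDomain_apply (List.cons_injective) _ _

private theorem A4C3_dl_merge (A : List (NE J)) (D E : NE J) (B : List (NE J))
    (h : Disjoint D.1 E.1) : dlc (A ++ D :: E :: B) (A ++ D.un E :: B) = 1 := by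
  induction A with
  | nil =>
    rw [List.nil_append, List.nil_append, dlc, Finsupp.add_apply, if_pos h,
      Finsupp.single_eq_same, Finsupp.mapDomain_of_notMem_range, add_zero]
    rintro ⟨M, hM⟩
    exact A4C3_un_ne h (List.cons.inj hM).1.symm
  | cons C A ih =>
    rw [List.cons_append, List.cons_append, A4C3_dl_cons]
    exact ih

private theorem A4C3_dlL_apply (x : LC J) (P : List (NE J)) :
    dlL x P = ∑ L ∈ x.support, x L * dlc L P := by
  rw [dlL, Finsupp.linearCombination_apply, Finsupp.sum, Finsupp.finsetSum_apply]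
  rfl

private theorem A4C3_ty_map (l : List J) : ty (l.map sgc) = (l : Multiset J) := by
  induction l with
  | nil => rfl
  | cons i l ih =>
    rw [List.map_cons, ty_cons, ih]
    rfl

private theorem A4C3_ty_rep (i : J) (m : ℕ) :
    ty (List.replicate m (sgc i)) = Multiset.replicate m i := by
  rw [← List.map_replicate, A4C3_ty_map]
  rfl

private theorem A4C3_inj (R : List (NE J)) : Function.Injective (fun Q : List (NE J) => Q ++ R) :=
  List.append_left_injective R

private theorem A4C3_z2 {a b : ZMod 2} (h : a + b = 0) : a = b := by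
  have h1 : ∀ a b : ZMod 2, a + b = 0 → a = b := by decide
  exact h1 a b h

private theorem A4C3_add_self (x : LC J) : x + x = 0 := by
  refine Finsupp.ext fun L => ?_
  have h1 : ∀ a : ZMod 2, a + a = 0 := by decide
  exact h1 (x L)

private theorem A4C3_app_apply (R : List (NE J)) (b : LC J) (Q : List (NE J)) :
    app R b (Q ++ R) = b Q := by
  show Finsupp.mapDomain (fun Q : List (NE J) => Q ++ R) b (Q ++ R) = b Q
  exact Finsupp.mapDomain_apply (A4C3_inj R) b Q

private theorem A4C3_app_ne {R : List (NE J)} {b : LC J} {L : List (NE J)} (h : app R b L ≠ 0) :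
    ∃ Q, L = Q ++ R ∧ b Q ≠ 0 := by
  by_cases hL : ∃ Q, L = Q ++ R
  · obtain ⟨Q, rfl⟩ := hL
    rw [A4C3_app_apply] at h
    exact ⟨Q, rfl, h⟩
  · exfalso
    apply h
    show Finsupp.mapDomain (fun Q : List (NE J) => Q ++ R) b L = 0
    apply Finsupp.mapDomain_of_notMem_range
    rintro ⟨Q, hQ⟩
    exact hL ⟨Q, hQ.symm⟩

/-- the differential and appending `{i}^m` -/
private theorem A4C3_dlL_app (i : J) (m : ℕ) (b : LC J) (hb : ∀ Q, b Q ≠ 0 → i ∉ ty Q)
    (P : List (NE J)) : dlL (app (List.replicate m (sgc i)) b) (P ++ List.replicate m (sgc i)) =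
      dlL b P := by
  have h1 : dlL (app (List.replicate m (sgc i)) b) =
      Finsupp.linearCombination (ZMod 2) (dlc ∘ fun Q : List (NE J) =>
        Q ++ List.replicate m (sgc i)) b := by
    rw [dlL, app, Finsupp.lmapDomain_apply, Finsupp.linearCombination_mapDomain]
  rw [h1, Finsupp.linearCombination_apply, Finsupp.sum, Finsupp.finsetSum_apply,
    A4C3_dlL_apply]
  refine Finset.sum_congr rfl fun Q hQ => ?_
  show b Q * dlc (Q ++ List.replicate m (sgc i)) (P ++ List.replicate m (sgc i)) = _
  rw [dl_unmatched_a i m Q P (hb Q (Finsupp.mem_support_iff.1 hQ))]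

/-- the coefficients at lists ending with `{i}^m` -/
private theorem A4C3_dlL_com (i : J) (m : ℕ) (x : LC J) (hx : ∀ L, x L ≠ 0 → (ty L).count i = m)
    (P : List (NE J)) :
    dlL (Finsupp.comapDomain (fun Q => Q ++ List.replicate m (sgc i)) x
      ((A4C3_inj _).injOn)) P = dlL x (P ++ List.replicate m (sgc i)) := by
  rw [A4C3_dlL_apply, A4C3_dlL_apply]
  have h1 := Finset.sum_preimage (fun Q : List (NE J) => Q ++ List.replicate m (sgc i)) x.support
    ((A4C3_inj _).injOn) (fun L => x L * dlc L (P ++ List.replicate m (sgc i))) (by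
      intro L hL hr
      rw [dl_unmatched_b i m L P (hx L (Finsupp.mem_support_iff.1 hL)), mul_zero]
      rintro ⟨Q, hQ⟩
      exact hr ⟨Q, hQ.symm⟩)
  rw [← h1]
  refine Finset.sum_congr rfl fun Q hQ => ?_
  have hQ' : x (Q ++ List.replicate m (sgc i)) ≠ 0 := by
    rw [Finset.mem_preimage] at hQ
    exact Finsupp.mem_support_iff.1 hQ
  rw [Finsupp.comapDomain_apply]
  show x (Q ++ List.replicate m (sgc i)) * dlc Q P = x (Q ++ List.replicate m (sgc i)) *
    dlc (Q ++ List.replicate m (sgc i)) (P ++ List.replicate m (sgc i))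
  rw [dl_unmatched_a i m Q P]
  have h2 := hx _ hQ'
  rw [ty_append, A4C3_ty_rep, Multiset.count_add, Multiset.count_replicate_self] at h2
  rw [← Multiset.count_eq_zero]
  omega

/-- exactness below the top length -/
theorem bar_exact (e : Multiset J) (k : ℕ) (hk : k < Multiset.card e) (x : LC J)
    (hx : InC e k x) (hd : dlL x = 0) : ∃ y, InC e (k + 1) y ∧ dlL y = x := by
  induction hn : Multiset.card e using Nat.strong_induction_on generalizing e k x with
  | _ n ih =>
  obtain ⟨i, hi⟩ : ∃ i, i ∈ e := by
    apply Multiset.exists_mem_of_ne_zero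
    rintro rfl
    simp at hk
  set m := e.count i with hm
  have hm1 : 1 ≤ m := Multiset.one_le_count_iff_mem.2 hi
  set R : List (NE J) := List.replicate m (sgc i) with hR
  set e' : Multiset J := e.filter (fun j => ¬ i = j) with he'
  have hee : Multiset.replicate m i + e' = e := by
    have h1 := Multiset.filter_add_not (fun j => i = j) e
    rw [Multiset.filter_eq] at h1
    exact h1
  have hcard : m + Multiset.card e' = Multiset.card e := by
    rw [← hee, Multiset.card_add, Multiset.card_replicate]
  have hie' : i ∉ e' := by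
    intro h
    exact (Multiset.mem_filter.1 h).2 rfl
  have htyR : ty R = Multiset.replicate m i := A4C3_ty_rep i m
  -- the part of `x` ending with `{i}^m`
  let a : LC J := Finsupp.comapDomain (fun Q => Q ++ R) x ((A4C3_inj R).injOn)
  have ha_apply : ∀ Q, a Q = x (Q ++ R) := fun Q => rfl
  have ha_ty : ∀ Q, a Q ≠ 0 → ty Q = e' ∧ Q.length + m = k := by
    intro Q hQ
    obtain ⟨h1, h2⟩ := hx _ (ha_apply Q ▸ hQ)
    constructor
    · rw [ty_append, htyR, ← hee, add_comm] at h1
      exact add_left_cancel h1
    · rw [List.length_append, hR, List.length_replicate] at h2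
      exact h2
  have ha_d : dlL a = 0 := by
    refine Finsupp.ext fun P => ?_
    have h1 := A4C3_dlL_com i m x (fun L hL => by rw [(hx L hL).1]) P
    have h2 : dlL a P = dlL x (P ++ R) := h1
    rw [h2, hd]
    rfl
  obtain ⟨b, hb1, hb2⟩ : ∃ b : LC J, (∀ Q, b Q ≠ 0 → ty Q = e' ∧ Q.length + m = k + 1) ∧
      dlL b = a := by
    by_cases hkm : m ≤ k
    · obtain ⟨b, hb, hb'⟩ := ih (Multiset.card e') (by omega) e' (k - m) (by omega) a
        (fun Q hQ => ⟨(ha_ty Q hQ).1, by have := (ha_ty Q hQ).2; omega⟩) ha_d rfl
      refine ⟨b, fun Q hQ => ⟨(hb Q hQ).1, ?_⟩, hb'⟩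
      have := (hb Q hQ).2
      omega
    · refine ⟨0, fun Q hQ => absurd rfl hQ, ?_⟩
      rw [map_zero]
      refine (Finsupp.ext fun Q => ?_)
      by_contra hQ
      have := (ha_ty Q (fun h => hQ h.symm)).2
      omega
  have happ : InC e (k + 1) (app R b) := by
    intro L hL
    obtain ⟨Q, rfl, hQ⟩ := A4C3_app_ne hL
    obtain ⟨h1, h2⟩ := hb1 Q hQ
    constructor
    · rw [ty_append, h1, htyR, add_comm]
      exact hee
    · rw [List.length_append, hR, List.length_replicate]
      exact h2
  have hx' : InC e k (x + dlL (app R b)) := by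
    intro L hL
    by_cases h1 : x L = 0
    · rw [Finsupp.add_apply, h1, zero_add] at hL
      exact InC.dlL happ L hL
    · exact hx L h1
  have hdx' : dlL (x + dlL (app R b)) = 0 := by
    rw [map_add, hd, dlL_dlL, add_zero]
  have hmt : ∀ L, (x + dlL (app R b)) L ≠ 0 → Mt i m L := by
    rintro L hL ⟨Q, rfl⟩
    apply hL
    rw [Finsupp.add_apply]
    have h1 : dlL (app R b) (Q ++ List.replicate m (sgc i)) = dlL b Q :=
      A4C3_dlL_app i m b (fun Q hQ => by rw [(hb1 Q hQ).1]; exact hie') Q
    rw [h1, hb2, ha_apply]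
    have h2 : ∀ a : ZMod 2, a + a = 0 := by decide
    exact h2 _
  obtain ⟨y, hy1, -, hy2⟩ := matched_acyclic i e m hm1 hm.symm k _ hx' hmt hdx'
  refine ⟨app R b + y, ?_, ?_⟩
  · intro L hL
    by_cases h1 : app R b L = 0
    · rw [Finsupp.add_apply, h1, zero_add] at hL
      exact hy1 L hL
    · exact happ L h1
  · rw [map_add, hy2, add_comm x, ← add_assoc, A4C3_add_self, zero_add]

/-- lists of maximal length consist of singletons -/
private theorem A4C3_sing (L : List (NE J)) (h : L.length = Multiset.card (ty L)) :
    ∃ l : List J, L = l.map sgc := by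
  induction L with
  | nil => exact ⟨[], rfl⟩
  | cons D L ih =>
    rw [ty_cons, Multiset.card_add, List.length_cons] at h
    have h1 := length_le_ty L
    have h2 : 1 ≤ Multiset.card D.1.val := Finset.card_pos.2 D.2
    obtain ⟨l, rfl⟩ := ih (by omega)
    have h3 : D.1.card = 1 := by
      show Multiset.card D.1.val = 1
      omega
    obtain ⟨i, hi⟩ := Finset.card_eq_one.1 h3
    exact ⟨i :: l, by rw [List.map_cons]; congr 1; exact Subtype.ext hi⟩

private theorem A4C3_sg_inj : Function.Injective (sgc : J → NE J) := by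
  intro i j h
  exact Finset.singleton_injective (congrArg Subtype.val h)

/-- the position of the only set with two elements -/
private theorem A4C3_pos {D E : NE J} (hD : 2 ≤ D.1.card) (hE : 2 ≤ E.1.card) :
    ∀ a b a' b' : List J, a.map sgc ++ D :: b.map sgc = a'.map sgc ++ E :: b'.map sgc →
      a = a' ∧ D = E ∧ b = b' := by
  intro a
  induction a with
  | nil =>
    intro b a' b' h
    cases a' with
    | nil =>
      simp only [List.map_nil, List.nil_append, List.cons.injEq] at h
      exact ⟨rfl, h.1, List.map_injective_iff.2 A4C3_sg_inj h.2⟩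
    | cons i a' =>
      simp only [List.map_nil, List.nil_append, List.map_cons, List.cons_append,
        List.cons.injEq] at h
      exfalso
      rw [h.1] at hD
      change 2 ≤ ({i} : Finset J).card at hD
      rw [Finset.card_singleton] at hD
      omega
  | cons j a ih =>
    intro b a' b' h
    cases a' with
    | nil =>
      simp only [List.map_nil, List.nil_append, List.map_cons, List.cons_append,
        List.cons.injEq] at h
      exfalso
      rw [← h.1] at hE
      change 2 ≤ ({j} : Finset J).card at hE
      rw [Finset.card_singleton] at hE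
      omega
    | cons i a' =>
      simp only [List.map_cons, List.cons_append, List.cons.injEq] at h
      obtain ⟨h1, h2, h3⟩ := ih b a' b' h.2
      exact ⟨by rw [A4C3_sg_inj h.1, h1], h2, h3⟩

private theorem A4C3_swap (e : Multiset J) (x : LC J) (hx : InC e (Multiset.card e) x)
    (hd : dlL x = 0) (a b : List J) (i j : J) :
    x (a.map sgc ++ sgc i :: sgc j :: b.map sgc) = x (a.map sgc ++ sgc j :: sgc i :: b.map sgc) := by
  by_cases hij : i = j
  · rw [hij]
  have hdis : ∀ {i j : J}, i ≠ j → Disjoint (sgc i).1 (sgc j).1 := fun h =>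
    Finset.disjoint_singleton.2 h
  have hcard : ∀ {i j : J}, i ≠ j → 2 ≤ ((sgc i).un (sgc j)).1.card := fun {i j} h => by
    show 2 ≤ ({i} ∪ {j} : Finset J).card
    rw [Finset.card_union_of_disjoint (Finset.disjoint_singleton.2 h)]
    simp
  have hun : (sgc j).un (sgc i) = (sgc i).un (sgc j) := Subtype.ext (Finset.union_comm _ _)
  have h0 : dlL x (a.map sgc ++ (sgc i).un (sgc j) :: b.map sgc) = 0 := by
    rw [hd]
    rfl
  rw [A4C3_dlL_apply] at h0
  set L1 := a.map sgc ++ sgc i :: sgc j :: b.map sgc with hL1
  set L2 := a.map sgc ++ sgc j :: sgc i :: b.map sgc with hL2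
  set P := a.map sgc ++ (sgc i).un (sgc j) :: b.map sgc with hP
  have hne : L1 ≠ L2 := by
    intro h
    rw [hL1, hL2] at h
    have h1 := List.append_cancel_left h
    rw [List.cons.injEq] at h1
    exact hij (A4C3_sg_inj h1.1)
  have hd1 : dlc L1 P = 1 := A4C3_dl_merge _ _ _ _ (hdis hij)
  have hd2 : dlc L2 P = 1 := by
    rw [hP, ← hun]
    exact A4C3_dl_merge _ _ _ _ (hdis (Ne.symm hij))
  have h1 : ∑ L ∈ x.support, x L * dlc L P = ∑ L ∈ ({L1, L2} : Finset (List (NE J))),
      x L * dlc L P := by
    have h2 : ∀ L, x L * dlc L P ≠ 0 → L = L1 ∨ L = L2 := by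
      intro L hL
      have hxL : x L ≠ 0 := fun h => hL (by rw [h, zero_mul])
      have hdL : dlc L P ≠ 0 := fun h => hL (by rw [h, mul_zero])
      obtain ⟨A, D, E, B, hLe, hDE, hPe⟩ := dl_terms_exists hdL
      obtain ⟨ht, hl⟩ := hx L hxL
      obtain ⟨l, hl'⟩ := A4C3_sing L (by rw [ht]; exact hl)
      rw [hLe] at hl'
      obtain ⟨l1, l2, -, hA, hB1⟩ := List.append_eq_map_iff.1 hl'
      obtain ⟨u, l3, -, hu, hB2⟩ := List.map_eq_cons_iff.1 hB1
      obtain ⟨v, l4, -, hv, hB⟩ := List.map_eq_cons_iff.1 hB2
      have huv : u ≠ v := by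
        intro h
        rw [← hu, ← hv, h] at hDE
        exact (Finset.not_disjoint_iff.2 ⟨v, Finset.mem_singleton_self v,
          Finset.mem_singleton_self v⟩) hDE
      rw [hP, ← hA, ← hB, ← hu, ← hv] at hPe
      obtain ⟨e1, e2, e3⟩ := A4C3_pos (hcard hij) (hcard huv) _ _ _ _ hPe
      have e4 : ({i, j} : Finset J) = {u, v} := congrArg Subtype.val e2
      have e5 : i = u ∨ i = v := by
        have : i ∈ ({u, v} : Finset J) := by rw [← e4]; simp
        simpa using this
      have e6 : j = u ∨ j = v := by
        have : j ∈ ({u, v} : Finset J) := by rw [← e4]; simp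
        simpa using this
      rw [hLe, ← hA, ← hB, ← hu, ← hv, ← e1, ← e3]
      rcases e5 with rfl | rfl <;> rcases e6 with rfl | rfl
      · exact absurd rfl hij
      · exact Or.inl rfl
      · exact Or.inr rfl
      · exact absurd rfl hij
    have h3 : ∑ L ∈ x.support, x L * dlc L P = ∑ L ∈ x.support ∪ {L1, L2}, x L * dlc L P := by
      refine Finset.sum_subset Finset.subset_union_left fun L _ hL => ?_
      rw [Finsupp.notMem_support_iff.1 hL, zero_mul]
    rw [h3]
    refine (Finset.sum_subset Finset.subset_union_right fun L _ hL => ?_).symm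
    by_contra h
    rcases h2 L h with rfl | rfl
    · exact hL (by simp)
    · exact hL (by simp)
  rw [h1, Finset.sum_pair hne, hd1, hd2, mul_one, mul_one] at h0
  exact A4C3_z2 h0

private theorem A4C3_perm (e : Multiset J) (x : LC J) (hx : InC e (Multiset.card e) x)
    (hd : dlL x = 0) {l l' : List J} (h : l.Perm l') :
    ∀ a : List J, x (a.map sgc ++ l.map sgc) = x (a.map sgc ++ l'.map sgc) := by
  induction h with
  | nil => intro a; rfl
  | cons i _ ih =>
    intro a
    have h1 := ih (a ++ [i])
    simpa only [List.map_append, List.map_cons, List.map_nil, List.append_assoc,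
      List.cons_append, List.nil_append] using h1
  | swap i j l =>
    intro a
    exact A4C3_swap e x hx hd a l j i
  | trans _ _ ih1 ih2 =>
    intro a
    rw [ih1, ih2]

theorem bar_top (e : Multiset J) (x : LC J) (hx : InC e (Multiset.card e) x) (hd : dlL x = 0)
    (L L' : List (NE J)) (hL : ty L = e) (hL' : ty L' = e) (h1 : L.length = Multiset.card e)
    (h2 : L'.length = Multiset.card e) : x L = x L' := by
  obtain ⟨l, rfl⟩ := A4C3_sing L (by rw [hL]; exact h1)
  obtain ⟨l', rfl⟩ := A4C3_sing L' (by rw [hL']; exact h2)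
  have h3 : l.Perm l' := by
    rw [A4C3_ty_map] at hL hL'
    exact Multiset.coe_eq_coe.1 (hL.trans hL'.symm)
  exact A4C3_perm e x hx hd h3 []

/-- the sum of all lists of singletons of type `e` -/
noncomputable def zet (e : Multiset J) : LC J := by
  classical
  exact ∑ L ∈ (e.toList.permutations.map (fun l : List J => l.map sgc)).toFinset, Finsupp.single L 1

theorem zet_apply (e : Multiset J) (L : List (NE J)) :
    zet e L = open Classical in if ty L = e ∧ L.length = Multiset.card e then 1 else 0 := by
  classical
  have h1 : zet e L = if L ∈ (e.toList.permutations.map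
      (fun l : List J => l.map sgc)).toFinset then 1 else 0 := by
    rw [zet, Finsupp.finsetSum_apply]
    simp only [Finsupp.single_apply]
    rw [Finset.sum_ite_eq']
  rw [h1]
  refine if_congr ?_ rfl rfl
  rw [List.mem_toFinset, List.mem_map]
  constructor
  · rintro ⟨l, hl, rfl⟩
    rw [List.mem_permutations] at hl
    have h2 : (l : Multiset J) = e := by
      rw [← Multiset.coe_toList e]
      exact Multiset.coe_eq_coe.2 hl
    refine ⟨by rw [A4C3_ty_map]; exact h2, ?_⟩
    rw [List.length_map, ← h2]
    rfl
  · rintro ⟨h2, h3⟩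
    obtain ⟨l, rfl⟩ := A4C3_sing L (by rw [h2]; exact h3)
    refine ⟨l, ?_, rfl⟩
    rw [List.mem_permutations]
    rw [A4C3_ty_map] at h2
    apply Multiset.coe_eq_coe.1
    rw [Multiset.coe_toList]
    exact h2

theorem bar_span (e : Multiset J) (x : LC J) (hx : InC e (Multiset.card e) x) (hd : dlL x = 0) :
    ∃ r : ZMod 2, x = r • zet e := by
  have h0 : ty (e.toList.map sgc) = e := by
    rw [A4C3_ty_map, Multiset.coe_toList]
  have h0' : (e.toList.map sgc).length = Multiset.card e := by
    rw [List.length_map, Multiset.length_toList]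
  refine ⟨x (e.toList.map sgc), Finsupp.ext fun L => ?_⟩
  rw [Finsupp.smul_apply, zet_apply, smul_eq_mul]
  split_ifs with h
  · rw [mul_one]
    exact bar_top e x hx hd L _ h.1 h0 h.2 h0'
  · rw [mul_zero]
    by_contra h'
    exact h (hx L h')

end MM
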