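import Pool.Agent.Lib_MP_33f7bb_d.A3Def

/-!
# A4Def: the unstable modules `E(n)`

`E(n)` is the space of symmetric polynomials in `x_1, …, x_n` over `ZMod 2` which are sums of monomials
`∏ x_i ^ (2 ^ (b i))`.  We represent the monomial by the function `b : Fin n → ℕ` and a polynomial by a
finitely supported function `c : (Fin n → ℕ) →₀ ZMod 2`.  The total square is `b ↦ ∑_ε (b + ε)`,
`ε : Fin n → Fin 2`.
-/

namespace MM

/-- weight `∑ 2 ^ (b i)`: the degree of the monomial `∏ x_i ^ (2 ^ (b i))` -/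
def wt {n : ℕ} (b : Fin n → ℕ) : ℕ := ∑ i, 2 ^ b i

/-- polynomials in the monomials `∏ x_i ^ (2 ^ (b i))` -/
abbrev Mon (n : ℕ) := (Fin n → ℕ) →₀ ZMod 2

/-- component of weight `m` -/
noncomputable def wtc {n : ℕ} (m : ℕ) : Mon n →ₗ[ZMod 2] Mon n :=
  { toFun := fun c => c.filter (fun b => wt b = m)
    map_add' := fun _ _ => Finsupp.filter_add
    map_smul' := fun _ _ => Finsupp.filter_smul }

/-- total square: `∏ x_i^(2^(b i)) ↦ ∏ (x_i^(2^(b i)) + x_i^(2^(b i + 1)))` -/
noncomputable def Sqt {n : ℕ} : Mon n →ₗ[ZMod 2] Mon n :=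
  ∑ ε : Fin n → Fin 2, Finsupp.lmapDomain (ZMod 2) (ZMod 2) (fun b i => b i + (ε i : ℕ))

/-- homogeneous elements of degree `d` of `E(n)`: symmetric, of weight `d` -/
def EE (n d : ℕ) : Submodule (ZMod 2) (Mon n) where
  carrier := {c | (∀ b, c b ≠ 0 → wt b = d) ∧ ∀ (σ : Equiv.Perm (Fin n)) (b : Fin n → ℕ),
    c (b ∘ σ) = c b}
  add_mem' := by
    rintro c c' ⟨h1, h2⟩ ⟨h1', h2'⟩
    refine ⟨fun b hb => ?_, fun σ b => by simp [h2, h2']⟩
    by_cases h : c b = 0
    · exact h1' b fun h' => hb (by simp [h, h'])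
    · exact h1 b h
  zero_mem' := ⟨fun b hb => absurd rfl hb, fun _ _ => rfl⟩
  smul_mem' := by
    rintro r c ⟨h1, h2⟩
    refine ⟨fun b hb => h1 b fun h => hb (by simp [h]), fun σ b => by simp [h2]⟩

theorem wt_comp {n : ℕ} (b : Fin n → ℕ) (σ : Equiv.Perm (Fin n)) : wt (b ∘ σ) = wt b :=
  Equiv.sum_comp σ fun i => 2 ^ b i

theorem wt_add_ge {n : ℕ} (b : Fin n → ℕ) (ε : Fin n → Fin 2) :
    wt b ≤ wt (fun i => b i + (ε i : ℕ)) :=
  Finset.sum_le_sum fun _ _ => Nat.pow_le_pow_right (by norm_num) (Nat.le_add_right _ _)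

theorem wt_add_le {n : ℕ} (b : Fin n → ℕ) (ε : Fin n → Fin 2) :
    wt (fun i => b i + (ε i : ℕ)) ≤ 2 * wt b := by
  unfold wt
  rw [Finset.mul_sum]
  refine Finset.sum_le_sum fun i _ => ?_
  have h : (ε i : ℕ) ≤ 1 := by omega
  calc 2 ^ (b i + (ε i : ℕ)) ≤ 2 ^ (b i + 1) := Nat.pow_le_pow_right (by norm_num) (by omega)
    _ = 2 * 2 ^ b i := by ring

theorem wt_add_eq {n : ℕ} {b : Fin n → ℕ} {ε : Fin n → Fin 2}
    (h : wt (fun i => b i + (ε i : ℕ)) = wt b) : ε = 0 := by
  funext i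
  by_contra hi
  have h1 : wt b < wt (fun i => b i + (ε i : ℕ)) := by
    refine Finset.sum_lt_sum (fun _ _ => Nat.pow_le_pow_right (by norm_num) (Nat.le_add_right _ _))
      ⟨i, Finset.mem_univ _, ?_⟩
    have h2 : (ε i : ℕ) ≠ 0 := fun h => hi (Fin.ext h)
    exact Nat.pow_lt_pow_right (by norm_num) (show b i < b i + (ε i : ℕ) by omega)
  omega

theorem Sqt_single {n : ℕ} (b : Fin n → ℕ) (r : ZMod 2) :
    Sqt (Finsupp.single b r) =
      ∑ ε : Fin n → Fin 2, Finsupp.single (fun i => b i + (ε i : ℕ)) r := by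
  simp [Sqt, LinearMap.sum_apply, Finsupp.lmapDomain_apply, Finsupp.mapDomain_single]

theorem Sqt_apply_eq {n : ℕ} (c : Mon n) (b : Fin n → ℕ) :
    Sqt c b = ∑ ε : Fin n → Fin 2, if ∀ i, (ε i : ℕ) ≤ b i then c (fun i => b i - (ε i : ℕ)) else 0 := by
  classical
  unfold Sqt
  rw [LinearMap.sum_apply, Finsupp.finsetSum_apply]
  refine Finset.sum_congr rfl fun ε _ => ?_
  rw [Finsupp.lmapDomain_apply]
  have hinj : Function.Injective (fun (b : Fin n → ℕ) (i : Fin n) => b i + (ε i : ℕ)) := by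
    intro b b' h
    funext i
    have := congrFun h i
    simpa using this
  split_ifs with h
  · have h1 : b = (fun (b : Fin n → ℕ) (i : Fin n) => b i + (ε i : ℕ)) (fun i => b i - (ε i : ℕ)) := by
      funext i
      have := h i
      show b i = b i - _ + _
      omega
    conv_lhs => rw [h1]
    exact Finsupp.mapDomain_apply hinj c _
  · refine Finsupp.mapDomain_of_notMem_range c b ?_
    rintro ⟨b', rfl⟩
    exact h fun i => Nat.le_add_left _ _

theorem Sqt_mem_symm {n : ℕ} {c : Mon n}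
    (hc : ∀ (σ : Equiv.Perm (Fin n)) (b : Fin n → ℕ), c (b ∘ σ) = c b)
    (σ : Equiv.Perm (Fin n)) (b : Fin n → ℕ) : Sqt c (b ∘ σ) = Sqt c b := by
  rw [Sqt_apply_eq, Sqt_apply_eq]
  refine Fintype.sum_equiv (Equiv.arrowCongr σ (Equiv.refl _)) _ _ fun ε => ?_
  have h1 : (∀ i, ((Equiv.arrowCongr σ (Equiv.refl (Fin 2)) ε) i : ℕ) ≤ b i) ↔
      ∀ i, (ε i : ℕ) ≤ (b ∘ σ) i := by
    constructor
    · intro h i
      have := h (σ i)
      simpa [Equiv.arrowCongr] using this
    · intro h i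
      have := h (σ.symm i)
      simpa [Equiv.arrowCongr] using this
  by_cases h : ∀ i, (ε i : ℕ) ≤ (b ∘ σ) i
  · rw [if_pos h, if_pos (h1.2 h), ← hc σ (fun i => b i - _)]
    congr 1
    funext i
    simp [Equiv.arrowCongr]
  · rw [if_neg h, if_neg (fun h' => h (h1.1 h'))]

theorem Sqt_wt {n d : ℕ} {c : Mon n} (hc : ∀ b, c b ≠ 0 → wt b = d) (b : Fin n → ℕ)
    (hb : Sqt c b ≠ 0) : d ≤ wt b ∧ wt b ≤ 2 * d := by
  rw [Sqt_apply_eq] at hb
  obtain ⟨ε, -, hε⟩ := Finset.exists_ne_zero_of_sum_ne_zero hb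
  have h : ∀ i, (ε i : ℕ) ≤ b i := by
    by_contra h
    exact hε (if_neg h)
  rw [if_pos h] at hε
  have h1 := hc _ hε
  have h2 : b = fun i => (b i - (ε i : ℕ)) + (ε i : ℕ) := by
    funext i
    have := h i
    omega
  have h3 := wt_add_ge (fun i => b i - (ε i : ℕ)) ε
  have h4 := wt_add_le (fun i => b i - (ε i : ℕ)) ε
  rw [← h2] at h3 h4
  omega

theorem Sqt_id {n d : ℕ} {c : Mon n} (hc : ∀ b, c b ≠ 0 → wt b = d) : wtc d (Sqt c) = c := by
  classical
  refine Finsupp.ext fun b => ?_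
  show (Finsupp.filter (fun b => wt b = d) (Sqt c)) b = c b
  rw [Finsupp.filter_apply]
  split_ifs with hb
  · rw [Sqt_apply_eq, Finset.sum_eq_single (0 : Fin n → Fin 2)]
    · simp
    · intro ε _ hε
      by_contra hne
      have h : ∀ i, (ε i : ℕ) ≤ b i := by
        by_contra h
        exact hne (if_neg h)
      rw [if_pos h] at hne
      have h1 := hc _ hne
      have h2 : b = fun i => (b i - (ε i : ℕ)) + (ε i : ℕ) := by
        funext i
        have := h i
        omega
      refine hε (wt_add_eq (b := fun i => b i - (ε i : ℕ)) ?_)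
      rw [← h2]
      omega
    · intro h
      exact absurd (Finset.mem_univ _) h
  · by_contra hne
    exact hb (hc b fun h => hne h.symm)

theorem Sq_mem_EE {n d m : ℕ} {c : Mon n} (hc : c ∈ EE n d) : wtc m (Sqt c) ∈ EE n m := by
  classical
  refine ⟨fun b hb => ?_, fun σ b => ?_⟩
  · by_contra h
    exact hb (Finsupp.filter_apply_neg _ _ h)
  · show (Finsupp.filter (fun b => wt b = m) (Sqt c)) (b ∘ σ) =
      (Finsupp.filter (fun b => wt b = m) (Sqt c)) b
    rw [Finsupp.filter_apply, Finsupp.filter_apply, wt_comp, Sqt_mem_symm hc.2]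

/-- the unstable module `E(n)` -/
noncomputable def EAM (n : ℕ) : AM where
  M d := EE n d
  Sq d m := ((wtc m).comp Sqt).restrict (fun _ hc => Sq_mem_EE hc)
  Sq_lt d m h := by
    refine LinearMap.ext fun c => Subtype.ext (Finsupp.ext fun b => ?_)
    show (Finsupp.filter (fun b => wt b = m) (Sqt c.1)) b = 0
    classical
    rw [Finsupp.filter_apply]
    split_ifs with hb
    · by_contra hne
      have := Sqt_wt c.2.1 b hne
      omega
    · rfl
  Sq_id d := LinearMap.ext fun c => Subtype.ext (Sqt_id c.2.1)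
  unst d m h := by
    refine LinearMap.ext fun c => Subtype.ext (Finsupp.ext fun b => ?_)
    show (Finsupp.filter (fun b => wt b = m) (Sqt c.1)) b = 0
    classical
    rw [Finsupp.filter_apply]
    split_ifs with hb
    · by_contra hne
      have := Sqt_wt c.2.1 b hne
      omega
    · rfl

theorem EAM_Sq_val {n d m : ℕ} (c : EE n d) :
    ((EAM n).Sq d m c : EE n m).1 = wtc m (Sqt c.1) := rfl

/-- the product `x_1 ⋯ x_n` as an element of `E(n)^n` -/
noncomputable def EAM.gen (n : ℕ) : (EAM n).M n :=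
  (⟨Finsupp.single 0 1, by
    refine ⟨fun b hb => ?_, fun σ b => ?_⟩
    · have : b = 0 := by
        by_contra h
        exact hb (Finsupp.single_eq_of_ne h)
      subst this
      simp [wt]
    · have h1 : (b ∘ σ = 0) ↔ b = 0 := by
        constructor
        · intro h
          funext i
          have := congrFun h (σ.symm i)
          simpa using this
        · rintro rfl
          rfl
      classical
      simp only [Finsupp.single_apply]
      by_cases h : b = 0
      · rw [if_pos h.symm, if_pos (h1.2 h).symm]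
      · rw [if_neg (fun h' : 0 = b => h h'.symm), if_neg (fun h' : 0 = b ∘ σ => h (h1.1 h'.symm))]⟩ :
    EE n n)

end MM
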