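import Pool.Agent.Lib_MP_33f7bb_d.A4Def

/-!
# A4-11: orbits of exponents, the basis of `E(n)`

`Orb n = Sym ℕ n` (multisets of `n` exponents), `wtO a = ∑ 2^(a_i)`, `shiftO` raises all exponents by one, `consO` adjoins the
exponent `0`.  `orbM a` = sum of all monomials `b : Fin n → ℕ` whose multiset of values is `a`.

`orb_eq_iff`: two functions on `Fin n` with the same multiset of values differ by a permutation (`Multiset`/`List.ofFn` and
`List.Perm`; e.g. both are a permutation composed with the sorted list, `Tuple.sort`; or count fibres and glue bijections of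
the fibres `{i | b i = v}`).
`orbM_mem`: symmetric because `univ.val.map (b ∘ σ) = univ.val.map b`; weight: `wt b = wtO (orb b)`.
`EE_eq_sum`: a symmetric `c` is constant on orbits: `c = ∑_a c(rep a) • orbM a` over the finitely many orbits meeting the
support.
-/

namespace MM

/-- multisets of `n` exponents -/
abbrev Orb (n : ℕ) := Sym ℕ n

/-- the weight `∑ 2 ^ (a_i)` -/
def wtO {n : ℕ} (a : Orb n) : ℕ := ((a : Multiset ℕ).map fun i => 2 ^ i).sum

/-- raise all exponents by one (squaring) -/
def shiftO {n : ℕ} (a : Orb n) : Orb n := Sym.map (· + 1) a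

/-- adjoin the exponent `0` -/
def consO {n : ℕ} (a : Orb n) : Orb (n + 1) := Sym.cons 0 a

/-- the multiset of exponents of a monomial -/
def orb {n : ℕ} (b : Fin n → ℕ) : Orb n := ⟨Finset.univ.val.map b, by simp⟩

/-- the orbit sum -/
noncomputable def orbM {n : ℕ} (a : Orb n) : Mon n := by
  classical
  exact ∑ b ∈ (Fintype.piFinset fun _ : Fin n => (a : Multiset ℕ).toFinset).filter
    (fun b => orb b = a), Finsupp.single b 1

theorem wtO_orb {n : ℕ} (b : Fin n → ℕ) : wtO (orb b) = wt b := by
  show ((Finset.univ.val.map b).map fun i => 2 ^ i).sum = _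
  rw [Multiset.map_map]
  rfl

theorem orb_comp {n : ℕ} (b : Fin n → ℕ) (σ : Equiv.Perm (Fin n)) : orb (b ∘ σ) = orb b := by
  apply Subtype.ext
  show Finset.univ.val.map (b ∘ σ) = Finset.univ.val.map b
  rw [Fin.univ_val_map, Fin.univ_val_map]
  exact Multiset.coe_eq_coe.2 (σ.ofFn_comp_perm b)

theorem orb_eq_iff {n : ℕ} (b b' : Fin n → ℕ) :
    orb b = orb b' ↔ ∃ σ : Equiv.Perm (Fin n), b' = b ∘ σ := by
  constructor
  · intro h
    have h1 : Finset.univ.val.map b = Finset.univ.val.map b' := congrArg Subtype.val h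
    rw [Fin.univ_val_map, Fin.univ_val_map] at h1
    have h2 : (List.ofFn b).Perm (List.ofFn b') := Multiset.coe_eq_coe.1 h1
    have h3 : (List.ofFn (b ∘ Tuple.sort b)).Perm (List.ofFn (b' ∘ Tuple.sort b')) :=
      ((Tuple.sort b).ofFn_comp_perm b).trans (h2.trans ((Tuple.sort b').ofFn_comp_perm b').symm)
    have h4 : b ∘ Tuple.sort b = b' ∘ Tuple.sort b' := List.ofFn_injective
      (h3.eq_of_sortedLE (Tuple.monotone_sort b).sortedLE_ofFn
        (Tuple.monotone_sort b').sortedLE_ofFn)
    refine ⟨(Tuple.sort b').symm.trans (Tuple.sort b), funext fun i => ?_⟩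
    have h5 := congrFun h4 ((Tuple.sort b').symm i)
    simp only [Function.comp_apply, Equiv.apply_symm_apply] at h5
    simp only [Function.comp_apply, Equiv.trans_apply]
    exact h5.symm
  · rintro ⟨σ, rfl⟩
    exact (orb_comp b σ).symm

theorem exists_orb {n : ℕ} (a : Orb n) : ∃ b : Fin n → ℕ, orb b = a := by
  obtain ⟨s, hs⟩ := a
  induction s using Quotient.inductionOn with
  | _ l =>
    have hs' : l.length = n := hs
    subst hs'
    refine ⟨l.get, Subtype.ext ?_⟩
    show Finset.univ.val.map l.get = _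
    rw [Fin.univ_val_map, List.ofFn_get]
    rfl

theorem orbM_apply {n : ℕ} (a : Orb n) (b : Fin n → ℕ) :
    orbM a b = open Classical in if orb b = a then 1 else 0 := by
  classical
  unfold orbM
  rw [Finsupp.finsetSum_apply]
  split_ifs with h
  · rw [Finset.sum_eq_single b]
    · exact Finsupp.single_eq_same
    · intro c _ hc
      rw [Finsupp.single_apply, if_neg hc]
    · intro hb
      exfalso
      apply hb
      rw [Finset.mem_filter, Fintype.mem_piFinset]
      refine ⟨fun i => ?_, h⟩
      rw [Multiset.mem_toFinset, ← h]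
      exact Multiset.mem_map_of_mem b (Finset.mem_univ_val i)
  · refine Finset.sum_eq_zero fun c hc => ?_
    rw [Finsupp.single_apply, if_neg]
    rintro rfl
    exact h (Finset.mem_filter.1 hc).2

theorem orbM_mem {n d : ℕ} (a : Orb n) (h : wtO a = d) : orbM a ∈ EE n d := by
  classical
  refine ⟨fun b hb => ?_, fun σ b => ?_⟩
  · rw [orbM_apply] at hb
    have h1 : orb b = a := by
      by_contra h1
      exact hb (if_neg h1)
    rw [← wtO_orb, h1, h]
  · rw [orbM_apply, orbM_apply, orb_comp]

private theorem A4E1_eval {n : ℕ} (r : Orb n →₀ ZMod 2) (b : Fin n → ℕ) :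
    (r.sum fun a t => t • orbM a) b = r (orb b) := by
  classical
  rw [Finsupp.sum, Finsupp.finsetSum_apply, Finset.sum_eq_single (orb b)]
  · rw [Finsupp.smul_apply, orbM_apply, if_pos rfl, smul_eq_mul, mul_one]
  · intro a _ ha
    rw [Finsupp.smul_apply, orbM_apply, if_neg (fun h => ha h.symm), smul_zero]
  · intro h
    rw [Finsupp.notMem_support_iff.1 h, zero_smul]
    rfl

theorem orbM_li {n : ℕ} : LinearIndependent (ZMod 2) (orbM : Orb n → Mon n) := by
  rw [linearIndependent_iff]
  intro l hl
  refine Finsupp.ext fun a => ?_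
  obtain ⟨b, rfl⟩ := exists_orb a
  have h1 : (l.sum fun a t => t • orbM a) = 0 := hl
  rw [← A4E1_eval l b, h1]
  rfl

theorem wtO_fin {n : ℕ} (d : ℕ) : {a : Orb n | wtO a ≤ d}.Finite := by
  refine ((Set.finite_Iic (fun _ : Fin n => d)).image orb).subset ?_
  intro a ha
  obtain ⟨b, rfl⟩ := exists_orb a
  refine ⟨b, fun i => ?_, rfl⟩
  have h1 : wtO (orb b) ≤ d := ha
  rw [wtO_orb] at h1
  have h2 : 2 ^ b i ≤ wt b :=
    Finset.single_le_sum (f := fun i => 2 ^ b i) (fun _ _ => Nat.zero_le _) (Finset.mem_univ i)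
  have h3 : b i < 2 ^ b i := Nat.lt_two_pow_self
  show b i ≤ d
  omega

/-- every element of `E(n)` is a combination of orbit sums of the same weight -/
theorem EE_eq_sum {n d : ℕ} (c : Mon n) (hc : c ∈ EE n d) :
    ∃ r : Orb n →₀ ZMod 2, (∀ a, r a ≠ 0 → wtO a = d) ∧ c = r.sum fun a t => t • orbM a := by
  classical
  choose rep hrep using fun a : Orb n => exists_orb a
  have hne : ∀ a, c (rep a) ≠ 0 → a ∈ c.support.image orb := fun a ha =>
    Finset.mem_image.2 ⟨rep a, Finsupp.mem_support_iff.2 ha, hrep a⟩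
  refine ⟨Finsupp.onFinset (c.support.image orb) (fun a => c (rep a)) hne, fun a ha => ?_, ?_⟩
  · have h1 := hc.1 (rep a) ha
    rw [← hrep a, wtO_orb, h1]
  · refine Finsupp.ext fun b => ?_
    rw [A4E1_eval]
    show c b = c (rep (orb b))
    obtain ⟨σ, hσ⟩ := (orb_eq_iff (rep (orb b)) b).1 (hrep (orb b))
    conv_lhs => rw [hσ]
    exact hc.2 σ _

theorem EE_finite (n d : ℕ) : Module.Finite (ZMod 2) (EE n d) := by
  rw [Module.Finite.iff_fg]
  have h1 : EE n d = Submodule.span (ZMod 2) (orbM '' {a : Orb n | wtO a = d}) := by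
    apply le_antisymm
    · intro c hc
      obtain ⟨r, hr, h⟩ := EE_eq_sum c hc
      rw [h]
      refine Submodule.sum_mem _ fun a ha => Submodule.smul_mem _ _ (Submodule.subset_span ?_)
      exact ⟨a, hr a (Finsupp.mem_support_iff.1 ha), rfl⟩
    · rw [Submodule.span_le]
      rintro _ ⟨a, ha, rfl⟩
      exact orbM_mem a ha
  rw [h1]
  exact Submodule.fg_span ((((wtO_fin (n := n) d).subset fun a (ha : wtO a = d) => ha.le)).image _)

theorem wtO_shift {n : ℕ} (a : Orb n) : wtO (shiftO a) = 2 * wtO a := by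
  unfold wtO shiftO
  rw [Sym.coe_map, Multiset.map_map, ← Multiset.sum_map_mul_left]
  congr 1
  refine Multiset.map_congr rfl fun i _ => ?_
  show 2 ^ (i + 1) = 2 * 2 ^ i
  ring

theorem wtO_cons {n : ℕ} (a : Orb n) : wtO (consO a) = wtO a + 1 := by
  unfold wtO consO
  rw [Sym.coe_cons, Multiset.map_cons, Multiset.sum_cons, pow_zero, add_comm]

theorem shiftO_injective {n : ℕ} : Function.Injective (shiftO : Orb n → Orb n) := by
  exact Sym.map_injective (add_left_injective 1) n

theorem consO_injective {n : ℕ} : Function.Injective (consO : Orb n → Orb (n + 1)) := by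
  intro a b h
  exact (Sym.cons_inj_right 0 a b).1 h

theorem le_wtO {n : ℕ} (a : Orb n) : n ≤ wtO a := by
  obtain ⟨b, rfl⟩ := exists_orb a
  rw [wtO_orb]
  calc n = ∑ _i : Fin n, 1 := by simp
    _ ≤ wt b := Finset.sum_le_sum fun i _ => Nat.one_le_two_pow

theorem orb_cons {n : ℕ} (b : Fin n → ℕ) : orb (Fin.cons 0 b : Fin (n + 1) → ℕ) = consO (orb b) := by
  apply Subtype.ext
  show Finset.univ.val.map (Fin.cons 0 b : Fin (n + 1) → ℕ) = 0 ::ₘ Finset.univ.val.map b
  rw [Fin.univ_val_map, Fin.univ_val_map, List.ofFn_cons]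
  rfl

theorem orb_shift {n : ℕ} (b : Fin n → ℕ) : orb (fun i => b i + 1) = shiftO (orb b) := by
  apply Subtype.ext
  show Finset.univ.val.map (fun i => b i + 1) = (Finset.univ.val.map b).map (· + 1)
  rw [Multiset.map_map]
  rfl

private theorem A4E1_ne {n : ℕ} (b : Orb n) (a : Orb (n + 1)) : consO b ≠ shiftO a := by
  intro h
  have h0 : 0 ∈ consO b := Sym.mem_cons_self 0 b
  rw [h] at h0
  obtain ⟨i, -, hi⟩ := Sym.mem_map.1 h0
  omega

/-- every orbit of `Orb (n+1)` is uniquely `shiftO^k (consO b)` -/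
theorem orb_decomp {n : ℕ} : Function.Bijective (fun x : Orb n × ℕ => shiftO^[x.2] (consO x.1)) := by
  constructor
  · have key : ∀ (b b' : Orb n) (k j : ℕ), shiftO^[k] (consO b) = shiftO^[k + j] (consO b') →
        j = 0 ∧ b = b' := by
      intro b b' k j h
      rw [Function.iterate_add_apply] at h
      have h1 := shiftO_injective.iterate k h
      cases j with
      | zero => exact ⟨rfl, consO_injective h1⟩
      | succ j =>
        exfalso
        rw [Function.iterate_succ_apply'] at h1
        exact A4E1_ne _ _ h1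
    rintro ⟨b, k⟩ ⟨b', k'⟩ h
    have h' : shiftO^[k] (consO b) = shiftO^[k'] (consO b') := h
    rcases le_total k k' with hk | hk
    · obtain ⟨j, rfl⟩ := Nat.exists_eq_add_of_le hk
      obtain ⟨rfl, rfl⟩ := key b b' k j h'
      rfl
    · obtain ⟨j, rfl⟩ := Nat.exists_eq_add_of_le hk
      obtain ⟨rfl, rfl⟩ := key b' b k' j h'.symm
      rfl
  · have key : ∀ (m : ℕ) (a : Orb (n + 1)), wtO a ≤ m →
        ∃ x : Orb n × ℕ, shiftO^[x.2] (consO x.1) = a := by
      intro m
      induction m with
      | zero =>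
        intro a ha
        have := le_wtO a
        omega
      | succ m ih =>
        intro a ha
        by_cases h0 : 0 ∈ a
        · obtain ⟨t, ht⟩ := Sym.exists_cons_of_mem h0
          exact ⟨(t, 0), ht.symm⟩
        · obtain ⟨a', rfl⟩ : ∃ a', a = shiftO a' := by
            refine ⟨Sym.map (fun i => i - 1) a, ?_⟩
            unfold shiftO
            rw [Sym.map_map]
            conv_lhs => rw [← Sym.map_id a]
            refine Sym.map_congr fun i hi => ?_
            have : i ≠ 0 := fun h => h0 (h ▸ hi)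
            show i = i - 1 + 1
            omega
          rw [wtO_shift] at ha
          have := le_wtO a'
          obtain ⟨⟨b, k⟩, hx⟩ := ih a' (by omega)
          refine ⟨(b, k + 1), ?_⟩
          show shiftO^[k + 1] (consO b) = shiftO a'
          rw [Function.iterate_succ_apply', ← hx]
    intro a
    exact key _ a le_rfl

theorem wtO_decomp {n : ℕ} (b : Orb n) (k : ℕ) : wtO (shiftO^[k] (consO b)) = 2 ^ k * (wtO b + 1) := by
  induction k with
  | zero =>
    show wtO (consO b) = _
    rw [wtO_cons, pow_zero, one_mul]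
  | succ k ih =>
    rw [Function.iterate_succ_apply', wtO_shift, ih]
    ring

end MM
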