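import Pool.Agent.Lib_MP_33f7bb_d.A4E1

/-!
# A4-12: (E1) the exact sequence `0 → Sq0 E(n+1) → E(n+1) → Σ E(n) → 0`

`EAM.coef n d : E(n+1)^(d+1) → E(n)^d`, `c ↦ (b ↦ c (Fin.cons 0 b))` (coefficient of `x_1`).
`coef_comm`: let `c ∈ E(n+1)^(d+1)`.  `(Sqt c) (cons 0 b) = ∑_ε [ε ≤ cons 0 b] c (cons 0 b - ε)` (`Sqt_apply_eq`); `ε ≤ cons 0 b`
forces `ε_0 = 0`, so `ε = cons 0 ε'` and the sum is `∑_ε' [ε' ≤ b] (coef c)(b - ε') = Sqt (coef c) b`.  Weight of `cons 0 b` =
`1 + wt b`.
`coef_surj`: `orbM (consO a)` is mapped to `orbM a`: `orb (cons 0 b) = consO (orb b)` and `consO` is injective; use `EE_eq_sum`.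
`Sq0_eq`: on an element `c` of weight `d` the component of weight `2 d` of `Sqt c` comes from `ε = 1` only:
`wt (b + ε) = 2 wt b` iff all `ε i = 1`; so `Sq0 c = mapDomain (b ↦ b + 1) c`.
`coef_ker`: `coef c = 0` and symmetry: `c b = 0` as soon as some `b i = 0` (move the coordinate `i` to the front with a swap); so
`c = mapDomain (b ↦ b + 1) c'` with `c' b = c (b + 1)` and the weight `d + 1 = 2 d'`.
-/

namespace MM

/-- coefficient of the first variable -/
noncomputable def coefM (n : ℕ) : Mon (n + 1) →ₗ[ZMod 2] Mon n :=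
  Finsupp.lcomapDomain (fun b : Fin n → ℕ => (Fin.cons 0 b : Fin (n + 1) → ℕ))
    (fun _ _ h => (Fin.cons_injective2 h).2)

theorem coefM_apply {n : ℕ} (c : Mon (n + 1)) (b : Fin n → ℕ) : coefM n c b = c (Fin.cons 0 b) :=
  rfl

private theorem A4E2_wt_cons {n : ℕ} (b : Fin n → ℕ) :
    wt (Fin.cons 0 b : Fin (n + 1) → ℕ) = wt b + 1 := by
  unfold wt
  rw [Fin.sum_univ_succ]
  simp only [Fin.cons_zero, Fin.cons_succ, pow_zero]
  rw [add_comm]

theorem coefM_mem {n d : ℕ} {c : Mon (n + 1)} (hc : c ∈ EE (n + 1) (d + 1)) :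
    coefM n c ∈ EE n d := by
  refine ⟨fun b hb => ?_, fun σ b => ?_⟩
  · rw [coefM_apply] at hb
    have h1 := hc.1 _ hb
    rw [A4E2_wt_cons] at h1
    omega
  · rw [coefM_apply, coefM_apply]
    rw [← hc.2 (Equiv.Perm.decomposeFin.symm (0, σ)) (Fin.cons 0 b)]
    congr 1
    funext i
    refine Fin.cases ?_ (fun i => ?_) i
    · simp
    · simp

/-- `E(n+1)^(d+1) → E(n)^d` -/
noncomputable def EAM.coef (n d : ℕ) : (EAM (n + 1)).M (d + 1) →ₗ[ZMod 2] (EAM n).M d :=
  (coefM n).restrict (fun _ hc => coefM_mem hc)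

private theorem A4E2_wtc {n m : ℕ} (c : Mon n) (b : Fin n → ℕ) :
    wtc m c b = if wt b = m then c b else 0 := by
  classical
  show (Finsupp.filter (fun b => wt b = m) c) b = _
  rw [Finsupp.filter_apply]

private theorem A4E2_ext {n d : ℕ} {c c' : (EAM n).M d}
    (h : ∀ b, (show EE n d from c).1 b = (show EE n d from c').1 b) : c = c' :=
  Subtype.ext (Finsupp.ext h)

private theorem A4E2_Sqt {n : ℕ} (c : Mon (n + 1)) (b : Fin n → ℕ) :
    Sqt c (Fin.cons 0 b) = Sqt (coefM n c) b := by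
  rw [Sqt_apply_eq, Sqt_apply_eq, ← (Fin.consEquiv (fun _ : Fin (n + 1) => Fin 2)).sum_comp,
    Fintype.sum_prod_type, Fin.sum_univ_two]
  have h1 : ∑ y : (Fin n → Fin 2), (if ∀ i, (((Fin.consEquiv (fun _ : Fin (n + 1) => Fin 2)) (1, y)
      i : Fin 2) : ℕ) ≤ (Fin.cons 0 b : Fin (n + 1) → ℕ) i then
      c (fun i => (Fin.cons 0 b : Fin (n + 1) → ℕ) i -
        (((Fin.consEquiv (fun _ : Fin (n + 1) => Fin 2)) (1, y) i : Fin 2) : ℕ)) else 0) = 0 := by
    refine Finset.sum_eq_zero fun y _ => if_neg fun h => ?_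
    have := h 0
    simp [Fin.consEquiv] at this
  rw [h1, add_zero]
  refine Finset.sum_congr rfl fun y _ => ?_
  have h2 : (∀ i, (((Fin.consEquiv (fun _ : Fin (n + 1) => Fin 2)) (0, y) i : Fin 2) : ℕ) ≤
      (Fin.cons 0 b : Fin (n + 1) → ℕ) i) ↔ ∀ i, (y i : ℕ) ≤ b i := by
    rw [Fin.forall_fin_succ]
    simp [Fin.consEquiv]
  by_cases h : ∀ i, (y i : ℕ) ≤ b i
  · rw [if_pos h, if_pos (h2.2 h), coefM_apply]
    congr 1
    funext i
    refine Fin.cases ?_ (fun i => ?_) i
    · simp [Fin.consEquiv]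
    · simp [Fin.consEquiv]
  · rw [if_neg h, if_neg (fun h' => h (h2.1 h'))]

theorem EAM.coef_comm (n d m : ℕ) (c : (EAM (n + 1)).M (d + 1)) :
    EAM.coef n m ((EAM (n + 1)).Sq (d + 1) (m + 1) c) = (EAM n).Sq d m (EAM.coef n d c) := by
  refine A4E2_ext fun b => ?_
  show wtc (m + 1) (Sqt c.1) (Fin.cons 0 b) = wtc m (Sqt (coefM n c.1)) b
  rw [A4E2_wtc, A4E2_wtc, A4E2_wt_cons, A4E2_Sqt]
  simp only [Nat.add_right_cancel_iff]

private theorem A4E2_orbM {n : ℕ} (a : Orb n) : coefM n (orbM (consO a)) = orbM a := by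
  classical
  refine Finsupp.ext fun b => ?_
  rw [coefM_apply, orbM_apply, orbM_apply, orb_cons]
  by_cases h : orb b = a
  · rw [if_pos h, if_pos (by rw [h])]
  · rw [if_neg h, if_neg fun h' => h (consO_injective h')]

theorem EAM.coef_surj (n d : ℕ) : Function.Surjective (EAM.coef n d) := by
  intro e
  obtain ⟨r, hr, he⟩ := EE_eq_sum (show EE n d from e).1 (show EE n d from e).2
  have hmem : (r.sum fun a t => t • orbM (consO a)) ∈ EE (n + 1) (d + 1) := by
    refine Submodule.sum_mem _ fun a ha => Submodule.smul_mem _ _ ?_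
    refine orbM_mem _ ?_
    rw [wtO_cons, hr a (Finsupp.mem_support_iff.1 ha)]
  refine ⟨(⟨_, hmem⟩ : EE (n + 1) (d + 1)), ?_⟩
  refine Subtype.ext ?_
  show coefM n (r.sum fun a t => t • orbM (consO a)) = (show EE n d from e).1
  rw [he, map_finsuppSum]
  refine Finset.sum_congr rfl fun a _ => ?_
  show coefM n (r a • orbM (consO a)) = r a • orbM a
  rw [map_smul, A4E2_orbM]

private theorem A4E2_pos {n : ℕ} (b : Fin (n + 1) → ℕ) : 0 < wt b :=
  Finset.sum_pos (fun _ _ => by positivity) ⟨0, Finset.mem_univ _⟩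

theorem EAM.zero_deg (n : ℕ) (c : (EAM (n + 1)).M 0) : c = 0 := by
  refine A4E2_ext fun b => ?_
  show (show EE (n + 1) 0 from c).1 b = 0
  by_contra hne
  have h1 := (show EE (n + 1) 0 from c).2.1 b hne
  have h2 := A4E2_pos b
  omega

private theorem A4E2_two {n : ℕ} {b : Fin n → ℕ} {ε : Fin n → Fin 2}
    (h : wt (fun i => b i + (ε i : ℕ)) = 2 * wt b) : ε = fun _ => 1 := by
  funext i
  by_contra hi
  have h1 : wt (fun i => b i + (ε i : ℕ)) < 2 * wt b := by
    unfold wt
    rw [Finset.mul_sum]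
    refine Finset.sum_lt_sum (fun j _ => ?_) ⟨i, Finset.mem_univ _, ?_⟩
    · have h : (ε j : ℕ) ≤ 1 := by omega
      calc 2 ^ (b j + (ε j : ℕ)) ≤ 2 ^ (b j + 1) := Nat.pow_le_pow_right (by norm_num) (by omega)
        _ = 2 * 2 ^ b j := by ring
    · have h2 : (ε i : ℕ) = 0 := by
        have : (ε i : ℕ) ≠ 1 := fun h => hi (Fin.ext h)
        omega
      show 2 ^ (b i + (ε i : ℕ)) < 2 * 2 ^ b i
      rw [h2, add_zero]
      have : 0 < 2 ^ b i := by positivity
      omega
  omega

private theorem A4E2_inj (n : ℕ) :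
    Function.Injective (fun (b : Fin n → ℕ) (i : Fin n) => b i + 1) := by
  intro b b' h
  funext i
  have := congrFun h i
  simpa using this

private theorem A4E2_top {n d m : ℕ} (hm : m = 2 * d) {c : Mon n} (hc : c ∈ EE n d) :
    wtc m (Sqt c) = Finsupp.mapDomain (fun (b : Fin n → ℕ) (i : Fin n) => b i + 1) c := by
  classical
  refine Finsupp.ext fun b => ?_
  rw [A4E2_wtc]
  by_cases hb : ∀ i, 1 ≤ b i
  · have hb' : b = (fun (b : Fin n → ℕ) (i : Fin n) => b i + 1) (fun i => b i - 1) := by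
      funext i
      have := hb i
      show b i = b i - 1 + 1
      omega
    have h1 : Finsupp.mapDomain (fun (b : Fin n → ℕ) (i : Fin n) => b i + 1) c b =
        c (fun i => b i - 1) := by
      conv_lhs => rw [hb']
      exact Finsupp.mapDomain_apply (A4E2_inj n) c _
    rw [h1, Sqt_apply_eq]
    split_ifs with hw
    · rw [Finset.sum_eq_single (fun _ => 1 : Fin n → Fin 2)]
      · rw [if_pos (fun i => by simpa using hb i)]
        simp
      · intro ε _ hε
        by_contra hne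
        have h : ∀ i, (ε i : ℕ) ≤ b i := by
          by_contra h
          exact hne (if_neg h)
        rw [if_pos h] at hne
        have h3 := hc.1 _ hne
        have h2 : b = fun i => (b i - (ε i : ℕ)) + (ε i : ℕ) := by
          funext i
          have := h i
          omega
        refine hε (A4E2_two (b := fun i => b i - (ε i : ℕ)) ?_)
        rw [← h2]
        omega
      · intro h
        exact absurd (Finset.mem_univ _) h
    · by_contra hne
      have h3 := hc.1 _ (fun h => hne h.symm)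
      apply hw
      rw [hm, ← h3]
      unfold wt
      rw [Finset.mul_sum]
      refine Finset.sum_congr rfl fun i _ => ?_
      have := hb i
      obtain ⟨k, hk⟩ : ∃ k, b i = k + 1 := ⟨b i - 1, by omega⟩
      show 2 ^ b i = 2 * 2 ^ (b i - 1)
      rw [hk, Nat.add_sub_cancel, pow_succ]
      ring
  · have h1 : Finsupp.mapDomain (fun (b : Fin n → ℕ) (i : Fin n) => b i + 1) c b = 0 := by
      refine Finsupp.mapDomain_of_notMem_range c b ?_
      rintro ⟨b', rfl⟩
      exact hb fun i => Nat.le_add_left _ _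
    rw [h1]
    split_ifs with hw
    · rw [Sqt_apply_eq]
      refine Finset.sum_eq_zero fun ε _ => ?_
      by_contra hne
      have h : ∀ i, (ε i : ℕ) ≤ b i := by
        by_contra h
        exact hne (if_neg h)
      rw [if_pos h] at hne
      have h3 := hc.1 _ hne
      have h2 : b = fun i => (b i - (ε i : ℕ)) + (ε i : ℕ) := by
        funext i
        have := h i
        omega
      have h4 := A4E2_two (b := fun i => b i - (ε i : ℕ)) (ε := ε) (by
        rw [← h2]
        omega)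
      apply hb
      intro i
      have := h i
      rw [h4] at this
      simpa using this
    · rfl

/-- `Sq0` raises all exponents -/
theorem Sq0_eq {n d : ℕ} (c : EE n d) :
    ((EAM n).Sq0 d c : EE n (2 * d)).1 =
      Finsupp.mapDomain (fun (b : Fin n → ℕ) (i : Fin n) => b i + 1) c.1 :=
  A4E2_top rfl c.2

theorem Sq0_injective (n d : ℕ) : Function.Injective ((EAM n).Sq0 d) := by
  intro c c' h
  have h1 := Sq0_eq (show EE n d from c)
  have h2 := Sq0_eq (show EE n d from c')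
  refine Subtype.ext (Finsupp.mapDomain_injective (A4E2_inj n) ?_)
  exact h1.symm.trans ((congrArg (fun x : (EAM n).M (2 * d) => (show EE n (2 * d) from x).1) h).trans h2)

theorem Sq0_orbM {n : ℕ} (a : Orb n) :
    ((EAM n).Sq0 (wtO a) (⟨orbM a, orbM_mem a rfl⟩ : EE n (wtO a)) : EE n (2 * wtO a)).1 =
      orbM (shiftO a) := by
  classical
  refine (Sq0_eq (⟨orbM a, orbM_mem a rfl⟩ : EE n (wtO a))).trans ?_
  refine Finsupp.ext fun b => ?_
  by_cases hb : ∀ i, 1 ≤ b i
  · have hb' : b = (fun (b : Fin n → ℕ) (i : Fin n) => b i + 1) (fun i => b i - 1) := by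
      funext i
      have := hb i
      show b i = b i - 1 + 1
      omega
    rw [hb', Finsupp.mapDomain_apply (A4E2_inj n), orbM_apply, orbM_apply, orb_shift]
    by_cases h : orb (fun i => b i - 1) = a
    · rw [if_pos h, if_pos (by rw [h])]
    · rw [if_neg h, if_neg fun h' => h (shiftO_injective h')]
  · rw [Finsupp.mapDomain_of_notMem_range, orbM_apply, if_neg]
    · intro h
      obtain ⟨i, hi⟩ := not_forall.1 hb
      have h0 : b i = 0 := by omega
      have h1 : (0 : ℕ) ∈ (orb b : Multiset ℕ) := by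
        show (0 : ℕ) ∈ Finset.univ.val.map b
        exact Multiset.mem_map.2 ⟨i, Finset.mem_univ_val i, h0⟩
      rw [h] at h1
      unfold shiftO at h1
      rw [Sym.coe_map] at h1
      obtain ⟨x, -, hx⟩ := Multiset.mem_map.1 h1
      omega
    · rintro ⟨b', rfl⟩
      exact hb fun i => Nat.le_add_left _ _

private theorem A4E2_cons_notMem {n : ℕ} (b : Fin n → ℕ) :
    (Fin.cons 0 b : Fin (n + 1) → ℕ) ∉
      Set.range (fun (b : Fin (n + 1) → ℕ) (i : Fin (n + 1)) => b i + 1) := by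
  rintro ⟨b', h⟩
  have := congrFun h 0
  simp at this

theorem EAM.coef_Sq0 (n d d' : ℕ) (h : 2 * d' = d + 1) (c : (EAM (n + 1)).M d') :
    EAM.coef n d ((EAM (n + 1)).Sq d' (d + 1) c) = 0 := by
  refine A4E2_ext fun b => ?_
  show wtc (d + 1) (Sqt (show EE (n + 1) d' from c).1) (Fin.cons 0 b) = 0
  rw [A4E2_top h.symm (show EE (n + 1) d' from c).2]
  exact Finsupp.mapDomain_of_notMem_range _ _ (A4E2_cons_notMem b)

theorem EAM.coef_ker (n d : ℕ) (c : (EAM (n + 1)).M (d + 1)) (hc : EAM.coef n d c = 0) :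
    c = 0 ∨ ∃ d', 2 * d' = d + 1 ∧ ∃ c' : (EAM (n + 1)).M d', (EAM (n + 1)).Sq d' (d + 1) c' = c := by
  classical
  by_cases h0 : c = 0
  · exact Or.inl h0
  right
  have hex : ∃ b, (show EE (n + 1) (d + 1) from c).1 b ≠ 0 := by
    by_contra h
    exact h0 (A4E2_ext fun b => not_not.1 fun hb => h ⟨b, hb⟩)
  have hcb : ∀ b : Fin n → ℕ, (show EE (n + 1) (d + 1) from c).1 (Fin.cons 0 b) = 0 := by
    intro b
    have := congrArg (fun x : (EAM n).M d => (show EE n d from x).1 b) hc
    exact this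
  have hpos : ∀ b, (show EE (n + 1) (d + 1) from c).1 b ≠ 0 → ∀ i, 1 ≤ b i := by
    intro b hb i
    by_contra hi
    apply hb
    rw [← (show EE (n + 1) (d + 1) from c).2.2 (Equiv.swap 0 i) b]
    have e : b ∘ (Equiv.swap 0 i) = Fin.cons 0 (fun j => (b ∘ (Equiv.swap 0 i)) j.succ) := by
      funext j
      refine Fin.cases ?_ (fun j => ?_) j
      · rw [Fin.cons_zero]
        show b (Equiv.swap 0 i 0) = 0
        rw [Equiv.swap_apply_left]
        omega
      · rw [Fin.cons_succ]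
    rw [e]
    exact hcb _
  obtain ⟨b₀, hb₀⟩ := hex
  have hwt : ∀ b : Fin (n + 1) → ℕ, wt (fun i => b i + 1) = 2 * wt b := by
    intro b
    unfold wt
    rw [Finset.mul_sum]
    refine Finset.sum_congr rfl fun i _ => ?_
    rw [pow_succ]
    ring
  have hsh : ∀ b : Fin (n + 1) → ℕ, (∀ i, 1 ≤ b i) → (fun i => (b i - 1) + 1) = b := by
    intro b hb
    funext i
    have := hb i
    omega
  have hd : 2 * wt (fun i => b₀ i - 1) = d + 1 := by
    rw [← hwt, hsh b₀ (hpos b₀ hb₀)]
    exact (show EE (n + 1) (d + 1) from c).2.1 b₀ hb₀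
  refine ⟨wt (fun i => b₀ i - 1), hd, ?_⟩
  generalize wt (fun i => b₀ i - 1) = d' at hd
  let c' : Mon (n + 1) := Finsupp.comapDomain (fun (b : Fin (n + 1) → ℕ) (i : Fin (n + 1)) => b i + 1)
    (show EE (n + 1) (d + 1) from c).1 (A4E2_inj (n + 1)).injOn
  have hc' : c' ∈ EE (n + 1) d' := by
    refine ⟨fun b hb => ?_, fun σ b => ?_⟩
    · have h1 := (show EE (n + 1) (d + 1) from c).2.1 (fun i => b i + 1) hb
      rw [hwt] at h1
      omega
    · exact (show EE (n + 1) (d + 1) from c).2.2 σ (fun i => b i + 1)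
  refine ⟨(⟨c', hc'⟩ : EE (n + 1) d'), ?_⟩
  refine A4E2_ext fun b => ?_
  show wtc (d + 1) (Sqt c') b = _
  rw [A4E2_top hd.symm hc']
  by_cases hb : ∀ i, 1 ≤ b i
  · have hb' : b = (fun (b : Fin (n + 1) → ℕ) (i : Fin (n + 1)) => b i + 1) (fun i => b i - 1) :=
      (hsh b hb).symm
    have h1 : Finsupp.mapDomain (fun (b : Fin (n + 1) → ℕ) (i : Fin (n + 1)) => b i + 1) c' b =
        c' (fun i => b i - 1) := by
      conv_lhs => rw [hb']
      exact Finsupp.mapDomain_apply (A4E2_inj (n + 1)) c' _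
    rw [h1]
    show (show EE (n + 1) (d + 1) from c).1 (fun i => (b i - 1) + 1) = _
    rw [hsh b hb]
  · rw [Finsupp.mapDomain_of_notMem_range]
    · by_contra hne
      exact hb (hpos b fun h => hne h.symm)
    · rintro ⟨b', rfl⟩
      exact hb fun i => Nat.le_add_left _ _

/-- `E(0)` is `ZMod 2` in degree `0`, `Sq0` is bijective -/
theorem EAM.zero_eq (d : ℕ) (hd : d ≠ 0) (c : (EAM 0).M d) : c = 0 := by
  refine A4E2_ext fun b => ?_
  show (show EE 0 d from c).1 b = 0
  by_contra hne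
  have h1 := (show EE 0 d from c).2.1 b hne
  apply hd
  rw [← h1]
  simp [wt]

theorem EAM.zero_gen (c : (EAM 0).M 0) : c = 0 ∨ c = EAM.gen 0 := by
  have h01 : ∀ t : ZMod 2, t = 0 ∨ t = 1 := by decide
  rcases h01 ((show EE 0 0 from c).1 0) with h | h
  · left
    refine A4E2_ext fun b => ?_
    have hb : b = 0 := Subsingleton.elim _ _
    rw [hb, h]
    rfl
  · right
    refine A4E2_ext fun b => ?_
    have hb : b = 0 := Subsingleton.elim _ _
    rw [hb, h]
    show 1 = (Finsupp.single (0 : Fin 0 → ℕ) (1 : ZMod 2)) 0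
    rw [Finsupp.single_eq_same]

theorem EAM.coef_gen (n : ℕ) : EAM.coef n n (EAM.gen (n + 1)) = EAM.gen n := by
  classical
  refine A4E2_ext fun b => ?_
  show (Finsupp.single (0 : Fin (n + 1) → ℕ) (1 : ZMod 2)) (Fin.cons 0 b) =
    (Finsupp.single (0 : Fin n → ℕ) (1 : ZMod 2)) b
  rw [Finsupp.single_apply, Finsupp.single_apply]
  by_cases h : (0 : Fin n → ℕ) = b
  · subst h
    rw [if_pos rfl, if_pos]
    funext i
    refine Fin.cases ?_ (fun i => ?_) i
    · rfl
    · rfl
  · rw [if_neg h, if_neg]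
    intro h'
    apply h
    funext i
    have := congrFun h' i.succ
    simpa using this

end MM
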