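import Pool.Agent.Lib_MP_33f7bb_d.A4E2

/-!
# A4-13: (E2) `E(n)` is generated by `x_1 ⋯ x_n`; (E3) operation words

`EAM_gen`: induction on `n`; for `n + 1` induction on the degree `d`.  Degree `0`: `EAM.zero_deg`.
Degree `d + 1`: the submodules `S' e = {coef c | c ∈ S (e + 1)} ≤ E(n)^e` are closed under the operations (`coef_comm`) and
contain `EAM.gen n` (`coef_gen`), so by induction on `n` `S' d = ⊤`: for `c ∈ E(n+1)^(d+1)` there is `c' ∈ S (d+1)` with
`coef (c + c') = 0`; by `coef_ker` `c + c'` is `0` or `Sq0 c''`, `c''` of degree `d' < d + 1`, in `S` by induction.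
`exists_op`: `S d = {x | ∃ θ, θ.ev gen = x}` is closed under the operations.
-/

namespace MM

theorem EAM_gen (n : ℕ) (S : ∀ d, Submodule (ZMod 2) ((EAM n).M d))
    (hS : ∀ d m, ∀ x ∈ S d, (EAM n).Sq d m x ∈ S m) (hg : EAM.gen n ∈ S n) (d : ℕ) :
    S d = ⊤ := by
  induction n generalizing d with
  | zero =>
    refine Submodule.eq_top_iff'.2 fun c => ?_
    by_cases hd : d = 0
    · subst hd
      rcases EAM.zero_gen c with h | h
      · rw [h]
        exact (S 0).zero_mem
      · rw [h]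
        exact hg
    · rw [EAM.zero_eq d hd c]
      exact (S d).zero_mem
  | succ n ih =>
    have hS' : ∀ e, (S (e + 1)).map (EAM.coef n e) = ⊤ := by
      refine ih (fun e => (S (e + 1)).map (EAM.coef n e)) ?_ ?_
      · rintro e m x ⟨c, hc, rfl⟩
        exact ⟨(EAM (n + 1)).Sq (e + 1) (m + 1) c, hS _ _ c hc, EAM.coef_comm n e m c⟩
      · exact ⟨EAM.gen (n + 1), hg, EAM.coef_gen n⟩
    induction d using Nat.strong_induction_on with
    | _ d ihd =>
      refine Submodule.eq_top_iff'.2 fun c => ?_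
      rcases d with _ | e
      · rw [EAM.zero_deg n c]
        exact (S 0).zero_mem
      · have h1 : EAM.coef n e c ∈ (S (e + 1)).map (EAM.coef n e) := by
          rw [hS' e]
          exact Submodule.mem_top
        obtain ⟨c', hc', h2⟩ := h1
        have h3 : EAM.coef n e (c - c') = 0 := by
          rw [map_sub, h2, sub_self]
        have h4 : c - c' ∈ S (e + 1) := by
          rcases EAM.coef_ker n e (c - c') h3 with h | ⟨d', hd', c'', h⟩
          · rw [h]
            exact (S (e + 1)).zero_mem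
          · rw [← h]
            refine hS d' (e + 1) c'' ?_
            rw [ihd d' (by omega)]
            exact Submodule.mem_top
        have h5 := (S (e + 1)).add_mem h4 hc'
        rwa [sub_add_cancel] at h5

/-- words in the operations, from degree `n` to degree `d` -/
inductive Wop (n : ℕ) : ℕ → Type
  | nil : Wop n n
  | cons {p : ℕ} (w : Wop n p) (d : ℕ) : Wop n d

/-- evaluation of words: `cons w d` = `w` followed by `Sq p d` -/
noncomputable def Wop.ev (M : AM) {n : ℕ} : ∀ {d : ℕ}, Wop n d → (M.M n →ₗ[ZMod 2] M.M d)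
  | _, .nil => LinearMap.id
  | _, .cons (p := p) w d => (M.Sq p d).comp (w.ev M)

/-- operations: combinations of words -/
abbrev Op (n d : ℕ) := Wop n d →₀ ZMod 2

/-- evaluation of operations -/
noncomputable def Op.ev (M : AM) {n d : ℕ} (θ : Op n d) : M.M n →ₗ[ZMod 2] M.M d :=
  θ.sum fun w r => r • w.ev M

private theorem A4E3_ev_nat {M N : AM} (f : AMHom M N) {n d : ℕ} (w : Wop n d) (x : M.M n) :
    f.app d (w.ev M x) = w.ev N (f.app n x) := by
  induction w with
  | nil => rfl
  | cons w d ih =>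
    show f.app d (M.Sq _ d (w.ev M x)) = N.Sq _ d (w.ev N (f.app n x))
    rw [f.comm, ih]

private theorem A4E3_ev_apply (M : AM) {n d : ℕ} (θ : Op n d) (x : M.M n) :
    θ.ev M x = θ.sum fun w r => r • w.ev M x := by
  rw [Op.ev, Finsupp.sum, LinearMap.sum_apply]
  rfl

theorem Op.ev_nat {M N : AM} (f : AMHom M N) {n d : ℕ} (θ : Op n d) (x : M.M n) :
    f.app d (θ.ev M x) = θ.ev N (f.app n x) := by
  rw [A4E3_ev_apply, A4E3_ev_apply, Finsupp.sum, Finsupp.sum, map_sum]
  refine Finset.sum_congr rfl fun w _ => ?_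
  rw [map_smul, A4E3_ev_nat]

/-- composition with an operation: `θ` followed by `Sq d m` -/
theorem Op.exists_comp {n d : ℕ} (θ : Op n d) (m : ℕ) :
    ∃ θ' : Op n m, ∀ M : AM, θ'.ev M = (M.Sq d m).comp (θ.ev M) := by
  refine ⟨θ.mapDomain (fun w => Wop.cons w m), fun M => LinearMap.ext fun x => ?_⟩
  rw [A4E3_ev_apply, LinearMap.comp_apply, A4E3_ev_apply,
    Finsupp.sum_mapDomain_index (h := fun w r => r • (Wop.ev M w) x) (fun _ => zero_smul _ _)
      (fun _ _ _ => add_smul _ _ _), Finsupp.sum, Finsupp.sum, map_sum]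
  refine Finset.sum_congr rfl fun w _ => ?_
  rw [map_smul]
  rfl

theorem Op.ev_add {M : AM} {n d : ℕ} (θ θ' : Op n d) : (θ + θ').ev M = θ.ev M + θ'.ev M := by
  refine LinearMap.ext fun x => ?_
  rw [LinearMap.add_apply, A4E3_ev_apply, A4E3_ev_apply, A4E3_ev_apply]
  exact Finsupp.sum_add_index' (fun _ => zero_smul _ _) (fun _ _ _ => add_smul _ _ _)

theorem Op.ev_smul {M : AM} {n d : ℕ} (r : ZMod 2) (θ : Op n d) : (r • θ).ev M = r • θ.ev M := by
  refine LinearMap.ext fun x => ?_
  rw [LinearMap.smul_apply, A4E3_ev_apply, A4E3_ev_apply,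
    Finsupp.sum_smul_index (h := fun w r => r • (Wop.ev M w) x) (fun _ => zero_smul _ _),
    Finsupp.smul_sum]
  refine Finset.sum_congr rfl fun w _ => ?_
  exact mul_smul _ _ _

private noncomputable def A4E3_S (n d : ℕ) : Submodule (ZMod 2) ((EAM n).M d) where
  carrier := {x | ∃ θ : Op n d, θ.ev (EAM n) (EAM.gen n) = x}
  add_mem' := by
    rintro _ _ ⟨θ, rfl⟩ ⟨θ', rfl⟩
    exact ⟨θ + θ', by rw [Op.ev_add, LinearMap.add_apply]⟩
  zero_mem' := ⟨0, by rw [A4E3_ev_apply, Finsupp.sum_zero_index]⟩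
  smul_mem' := by
    rintro r _ ⟨θ, rfl⟩
    exact ⟨r • θ, by rw [Op.ev_smul, LinearMap.smul_apply]⟩

theorem exists_op (n d : ℕ) (c : (EAM n).M d) : ∃ θ : Op n d, θ.ev (EAM n) (EAM.gen n) = c := by
  have h := EAM_gen n (A4E3_S n) (fun d m x hx => by
    obtain ⟨θ, rfl⟩ := hx
    obtain ⟨θ', hθ'⟩ := θ.exists_comp m
    exact ⟨θ', by rw [hθ', LinearMap.comp_apply]⟩)
    ⟨Finsupp.single Wop.nil 1, by
      rw [A4E3_ev_apply, Finsupp.sum_single_index
        (h := fun w r => r • (Wop.ev (EAM n) w) (EAM.gen n)) (zero_smul _ _), one_smul]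
      rfl⟩ d
  have h2 : c ∈ A4E3_S n d := by
    rw [h]
    exact Submodule.mem_top
  exact h2

end MM
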