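import Pool.Agent.Lib_MP_33f7bb_d.A3Pol2
import Pool.Agent.Lib_MP_33f7bb_d.A4E3

/-!
# A4-31: elements of `E(n)` as polynomials; block sums

`toPoly n` maps the monomial `b` to `∏ x_i ^ (2 ^ (b i))`.  `x ↦ x + x^2` maps `x^(2^b)` to `x^(2^b) + x^(2^(b+1))` (characteristic 2:
`add_pow_char_pow`), so `sqP (toPoly b) = ∏_i (x_i^(2^(b i)) + x_i^(2^(b i + 1))) = ∑_ε toPoly (b + ε)` (`Finset.prod_add` /
`Fintype.piFinset`, `Finset.prod_univ_sum`), i.e. `toPoly (Sqt b)`.
`blk M n c = ∑_j toPoly c (x_(j, ·))`.
-/

namespace MM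

/-- the exponent vector of the monomial `b` -/
noncomputable def expo {n : ℕ} (b : Fin n → ℕ) : Fin n →₀ ℕ :=
  Finsupp.equivFunOnFinite.symm fun i => 2 ^ b i

/-- elements of `Mon n` as polynomials -/
noncomputable def toPoly (n : ℕ) : Mon n →ₗ[ZMod 2] MvPolynomial (Fin n) (ZMod 2) :=
  Finsupp.linearCombination (ZMod 2) fun b => MvPolynomial.monomial (expo b) 1

theorem expo_injective {n : ℕ} : Function.Injective (expo : (Fin n → ℕ) → _) := by
  intro b b' h
  funext i
  have h1 : 2 ^ b i = 2 ^ b' i := DFunLike.congr_fun h i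
  exact Nat.pow_right_injective le_rfl h1

theorem toPoly_single {n : ℕ} (b : Fin n → ℕ) (r : ZMod 2) :
    toPoly n (Finsupp.single b r) = MvPolynomial.monomial (expo b) r := by
  unfold toPoly
  rw [Finsupp.linearCombination_single, MvPolynomial.smul_monomial, smul_eq_mul, mul_one]

theorem coeff_toPoly {n : ℕ} (c : Mon n) (b : Fin n → ℕ) :
    MvPolynomial.coeff (expo b) (toPoly n c) = c b := by
  classical
  induction c using Finsupp.induction_linear with
  | zero => rw [map_zero, MvPolynomial.coeff_zero, Finsupp.zero_apply]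
  | add c c' h h' => rw [map_add, MvPolynomial.coeff_add, h, h', Finsupp.add_apply]
  | single b' r =>
    rw [toPoly_single, MvPolynomial.coeff_monomial, Finsupp.single_apply]
    by_cases h : b' = b
    · rw [if_pos h, if_pos (congrArg expo h)]
    · rw [if_neg h, if_neg fun h' => h (expo_injective h')]

theorem toPoly_injective (n : ℕ) : Function.Injective (toPoly n) := by
  intro c c' h
  refine Finsupp.ext fun b => ?_
  rw [← coeff_toPoly c b, ← coeff_toPoly c' b, h]

theorem toPoly_gen (n : ℕ) : toPoly n (Finsupp.single 0 1) = ∏ i, MvPolynomial.X i := by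
  rw [toPoly_single, MvPolynomial.monomial_eq, map_one, one_mul,
    Finsupp.prod_fintype _ _ fun _ => pow_zero _]
  refine Finset.prod_congr rfl fun i _ => ?_
  have h : (expo (0 : Fin n → ℕ)) i = 1 := rfl
  rw [h, pow_one]

theorem toPoly_hom {n d : ℕ} {c : Mon n} (hc : ∀ b, c b ≠ 0 → wt b = d) :
    (toPoly n c).IsHomogeneous d := by
  have h1 : toPoly n c = ∑ b ∈ c.support, MvPolynomial.monomial (expo b) (c b) := by
    unfold toPoly
    rw [Finsupp.linearCombination_apply, Finsupp.sum]
    refine Finset.sum_congr rfl fun b _ => ?_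
    rw [MvPolynomial.smul_monomial, smul_eq_mul, mul_one]
  rw [h1]
  refine MvPolynomial.IsHomogeneous.sum _ _ d fun b hb => ?_
  refine MvPolynomial.isHomogeneous_monomial _ ?_
  rw [Finsupp.degree_eq_sum]
  exact hc b (Finsupp.mem_support_iff.1 hb)

theorem toPoly_wtc {n : ℕ} (m : ℕ) (c : Mon n) :
    toPoly n (wtc m c) = MvPolynomial.homogeneousComponent m (toPoly n c) := by
  classical
  induction c using Finsupp.induction_linear with
  | zero => rw [map_zero, map_zero, map_zero]
  | add c c' h h' => rw [map_add, map_add, map_add, map_add, h, h']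
  | single b r =>
    have hh : (toPoly n (Finsupp.single b r)).IsHomogeneous (wt b) := by
      refine toPoly_hom fun b' hb' => ?_
      by_contra hne
      refine hb' (Finsupp.single_eq_of_ne fun h => hne ?_)
      rw [h]
    have hm : toPoly n (Finsupp.single b r) ∈
        MvPolynomial.homogeneousSubmodule (Fin n) (ZMod 2) (wt b) :=
      (MvPolynomial.mem_homogeneousSubmodule _ _).2 hh
    rw [MvPolynomial.homogeneousComponent_of_mem hm]
    show toPoly n (Finsupp.filter (fun b => wt b = m) (Finsupp.single b r)) = _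
    by_cases h : wt b = m
    · rw [Finsupp.filter_single_of_pos (fun b : Fin n → ℕ => wt b = m) h, if_pos h.symm]
    · rw [Finsupp.filter_single_of_neg (fun b : Fin n → ℕ => wt b = m) h, if_neg fun h' => h h'.symm, map_zero]

theorem sqP_toPoly {n : ℕ} (c : Mon n) : sqP (Fin n) (toPoly n c) = toPoly n (Sqt c) := by
  classical
  induction c using Finsupp.induction_linear with
  | zero => rw [map_zero, map_zero, map_zero, map_zero]
  | add c c' h h' => rw [map_add, map_add, map_add, map_add, h, h']
  | single b r =>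
    rw [Sqt_single, map_sum, toPoly_single]
    unfold sqP
    rw [MvPolynomial.aeval_monomial, Finsupp.prod_fintype _ _ fun _ => pow_zero _]
    have h1 : ∀ i : Fin n, (MvPolynomial.X i + MvPolynomial.X i ^ 2 :
        MvPolynomial (Fin n) (ZMod 2)) ^ (expo b i) =
        ∑ e : Fin 2, (MvPolynomial.X i : MvPolynomial (Fin n) (ZMod 2)) ^ (2 ^ (b i + (e : ℕ))) := by
      intro i
      have h2 : expo b i = 2 ^ b i := rfl
      rw [h2, add_pow_char_pow, Fin.sum_univ_two, ← pow_mul]
      congr 2
      show 2 * 2 ^ b i = 2 ^ (b i + 1)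
      ring
    rw [Finset.prod_congr rfl fun i _ => h1 i, Finset.prod_univ_sum, Fintype.piFinset_univ,
      Finset.mul_sum]
    refine Finset.sum_congr rfl fun ε _ => ?_
    rw [toPoly_single, MvPolynomial.monomial_eq, MvPolynomial.algebraMap_eq,
      Finsupp.prod_fintype _ _ fun _ => pow_zero _]
    rfl

theorem toPoly_shift {n : ℕ} (c : Mon n) :
    toPoly n (Finsupp.mapDomain (fun (b : Fin n → ℕ) (i : Fin n) => b i + 1) c) =
      toPoly n c ^ 2 := by
  classical
  induction c using Finsupp.induction_linear with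
  | zero =>
    rw [Finsupp.mapDomain_zero, map_zero, zero_pow two_ne_zero]
  | add c c' h h' => rw [Finsupp.mapDomain_add, map_add, map_add, h, h', add_pow_char]
  | single b r =>
    rw [Finsupp.mapDomain_single, toPoly_single, toPoly_single, MvPolynomial.monomial_pow]
    have h1 : expo (fun i : Fin n => b i + 1) = 2 • expo b := by
      refine Finsupp.ext fun i => ?_
      show 2 ^ (b i + 1) = 2 * 2 ^ b i
      ring
    have h2 : r ^ 2 = r := by
      revert r
      decide
    rw [h1, h2]

/-- sum over the blocks -/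
noncomputable def blk (M n : ℕ) : Mon n →ₗ[ZMod 2] MvPolynomial (Fin M × Fin n) (ZMod 2) :=
  ∑ j : Fin M, (MvPolynomial.rename (R := ZMod 2) (fun i : Fin n => (j, i))).toLinearMap.comp (toPoly n)

theorem blk_apply (M n : ℕ) (c : Mon n) :
    blk M n c = ∑ j : Fin M, MvPolynomial.rename (fun i : Fin n => (j, i)) (toPoly n c) := by
  unfold blk
  rw [LinearMap.sum_apply]
  rfl

theorem blk_hom {M n d : ℕ} {c : Mon n} (hc : ∀ b, c b ≠ 0 → wt b = d) :
    (blk M n c).IsHomogeneous d := by
  rw [blk_apply]
  refine MvPolynomial.IsHomogeneous.sum _ _ d fun j _ => ?_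
  exact (toPoly_hom hc).rename_isHomogeneous

theorem blk_wtc {M n : ℕ} (m : ℕ) (c : Mon n) :
    blk M n (wtc m c) = MvPolynomial.homogeneousComponent m (blk M n c) := by
  classical
  induction c using Finsupp.induction_linear with
  | zero => rw [map_zero, map_zero, map_zero]
  | add c c' h h' => rw [map_add, map_add, map_add, map_add, h, h']
  | single b r =>
    have hh : (blk M n (Finsupp.single b r)).IsHomogeneous (wt b) := by
      refine blk_hom fun b' hb' => ?_
      by_contra hne
      refine hb' (Finsupp.single_eq_of_ne fun h => hne ?_)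
      rw [h]
    have hm : blk M n (Finsupp.single b r) ∈
        MvPolynomial.homogeneousSubmodule (Fin M × Fin n) (ZMod 2) (wt b) :=
      (MvPolynomial.mem_homogeneousSubmodule _ _).2 hh
    rw [MvPolynomial.homogeneousComponent_of_mem hm]
    show blk M n (Finsupp.filter (fun b => wt b = m) (Finsupp.single b r)) = _
    by_cases h : wt b = m
    · rw [Finsupp.filter_single_of_pos (fun b : Fin n → ℕ => wt b = m) h, if_pos h.symm]
    · rw [Finsupp.filter_single_of_neg (fun b : Fin n → ℕ => wt b = m) h, if_neg fun h' => h h'.symm, map_zero]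

private theorem A4L1_sqP_rename {I J : Type} (f : I → J) (p : MvPolynomial I (ZMod 2)) :
    sqP J (MvPolynomial.rename f p) = MvPolynomial.rename f (sqP I p) := by
  have h : (sqP J).comp (MvPolynomial.rename f) = (MvPolynomial.rename f).comp (sqP I) := by
    refine MvPolynomial.algHom_ext fun i => ?_
    rw [AlgHom.comp_apply, AlgHom.comp_apply, MvPolynomial.rename_X]
    unfold sqP
    rw [MvPolynomial.aeval_X, MvPolynomial.aeval_X, map_add, map_pow, MvPolynomial.rename_X]
  exact DFunLike.congr_fun h p

theorem sqP_blk {M n : ℕ} (c : Mon n) :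
    sqP (Fin M × Fin n) (blk M n c) = blk M n (Sqt c) := by
  rw [blk_apply, blk_apply, map_sum]
  refine Finset.sum_congr rfl fun j _ => ?_
  rw [A4L1_sqP_rename, sqP_toPoly]

theorem blk_shift {M n : ℕ} (c : Mon n) :
    blk M n (Finsupp.mapDomain (fun (b : Fin n → ℕ) (i : Fin n) => b i + 1) c) = blk M n c ^ 2 := by
  rw [blk_apply, blk_apply, sum_pow_char]
  refine Finset.sum_congr rfl fun j _ => ?_
  rw [toPoly_shift, map_pow]

theorem blk_one_injective (n : ℕ) : Function.Injective (blk 1 n) := by
  intro c c' h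
  rw [blk_apply, blk_apply, Fin.sum_univ_one, Fin.sum_univ_one] at h
  have hi : Function.Injective (fun i : Fin n => ((0 : Fin 1), i)) :=
    fun i i' h => congrArg Prod.snd h
  exact toPoly_injective n (MvPolynomial.rename_injective _ hi h)

end MM
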