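import Pool.Agent.Lib_MP_33f7bb_d.A4L1

/-!
# A4-32: (LB), the polynomial part

`n ≥ 1`.  `rep b : Fin n → ℕ` a function with orbit `b`.  For `D₀ : Fin M → Orb n` injective let `muE D₀` be the exponent
`(j, i) ↦ 2 ^ (rep (D₀ j) i)`.
`coeff_blk`: for a finite set `D` of orbits with at most `M` elements the coefficient of `muE D₀` in
`∏_(b ∈ D) blk M n (orbM b)` is `1` if `D` is the image of `D₀` and `0` otherwise.
Proof.  `∏_(b ∈ D) ∑_j m_b(x_j) = ∑_(f : D → Fin M) ∏_b m_b(x_(f b))` (`Finset.prod_sum` / `Finset.prod_univ_sum`).  In the term of `f` only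
the variables of the blocks `f b` occur; `muE D₀` involves all variables of all blocks (`n ≥ 1`), so the coefficient is `0`
unless `f` is surjective; as `D.card ≤ M`, `f` is then bijective and the product is `∏_j m_(f⁻¹ j)(x_j)`, whose coefficient at
`muE D₀` is `∏_j (coefficient of expo (rep (D₀ j)) in toPoly (orbM (f⁻¹ j))) = ∏_j [f⁻¹ j = D₀ j]` (`coeff_toPoly`, `orbM_apply`).
So exactly one bijection contributes iff `D` = image of `D₀`.
`PD_li`: in a relation `∑ c_D ∏_(b ∈ D) blk M (orbM b) = 0` valid for all `M`, take `M` = the largest cardinality of a `D` with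
`c_D ≠ 0`, `D₀` an enumeration of such a `D`: the coefficient of `muE D₀` is `c_D`.
-/

namespace MM

/-- a function representing an orbit -/
noncomputable def rep {n : ℕ} (b : Orb n) : Fin n → ℕ := Classical.choose (exists_orb b)

theorem orb_rep {n : ℕ} (b : Orb n) : orb (rep b) = b := Classical.choose_spec (exists_orb b)

/-- the test exponent -/
noncomputable def muE {M n : ℕ} (D₀ : Fin M → Orb n) : Fin M × Fin n →₀ ℕ :=
  Finsupp.equivFunOnFinite.symm fun x => 2 ^ rep (D₀ x.1) x.2

private theorem A4L2_prod_monomial {I J : Type} (s : Finset J) (e : J → I →₀ ℕ)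
    (r : J → ZMod 2) :
    ∏ j ∈ s, MvPolynomial.monomial (e j) (r j) =
      MvPolynomial.monomial (∑ j ∈ s, e j) (∏ j ∈ s, r j) := by
  classical
  induction s using Finset.induction_on with
  | empty =>
    rw [Finset.prod_empty, Finset.sum_empty, Finset.prod_empty]
    rfl
  | insert a s ha ih =>
    rw [Finset.prod_insert ha, Finset.sum_insert ha, Finset.prod_insert ha, ih,
      MvPolynomial.monomial_mul]

private theorem A4L2_sum_apply {M n : ℕ} (g : Fin M → Fin n →₀ ℕ) (j : Fin M) (i : Fin n) :
    (∑ j', Finsupp.mapDomain (fun i : Fin n => (j', i)) (g j')) (j, i) = g j i := by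
  classical
  rw [Finsupp.finsetSum_apply, Finset.sum_eq_single j]
  · have hinj : Function.Injective (fun i : Fin n => (j, i)) :=
      fun i i' h => congrArg Prod.snd h
    exact Finsupp.mapDomain_apply hinj (g j) i
  · intro j' _ hj'
    refine Finsupp.mapDomain_of_notMem_range (g j') (j, i) ?_
    rintro ⟨i', hi'⟩
    exact hj' (congrArg Prod.fst hi')
  · intro h
    exact absurd (Finset.mem_univ _) h

/-- coefficients of products of polynomials in disjoint blocks of variables -/
private theorem A4L2_coeff_prod {M n : ℕ} (p : Fin M → MvPolynomial (Fin n) (ZMod 2))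
    (μ : Fin M × Fin n →₀ ℕ) (ν : Fin M → Fin n →₀ ℕ) (hν : ∀ j i, ν j i = μ (j, i)) :
    MvPolynomial.coeff μ (∏ j, MvPolynomial.rename (fun i : Fin n => (j, i)) (p j)) =
      ∏ j, MvPolynomial.coeff (ν j) (p j) := by
  classical
  have h1 : ∀ j, MvPolynomial.rename (fun i : Fin n => (j, i)) (p j) =
      ∑ d ∈ (p j).support, MvPolynomial.monomial (Finsupp.mapDomain (fun i : Fin n => (j, i)) d)
        (MvPolynomial.coeff d (p j)) := by
    intro j
    conv_lhs => rw [← MvPolynomial.support_sum_monomial_coeff (p j)]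
    rw [map_sum]
    exact Finset.sum_congr rfl fun d _ => MvPolynomial.rename_monomial _ _ _
  have h2 : ∀ g : Fin M → Fin n →₀ ℕ,
      MvPolynomial.coeff μ (∏ j, MvPolynomial.monomial
        (Finsupp.mapDomain (fun i : Fin n => (j, i)) (g j)) (MvPolynomial.coeff (g j) (p j))) =
      if g = ν then ∏ j, MvPolynomial.coeff (ν j) (p j) else 0 := by
    intro g
    rw [A4L2_prod_monomial, MvPolynomial.coeff_monomial]
    by_cases hg : g = ν
    · subst hg
      rw [if_pos rfl, if_pos]
      refine Finsupp.ext fun x => ?_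
      obtain ⟨j, i⟩ := x
      rw [A4L2_sum_apply, hν]
    · rw [if_neg hg, if_neg]
      intro h
      refine hg (funext fun j => Finsupp.ext fun i => ?_)
      rw [hν, ← h, A4L2_sum_apply]
  rw [Finset.prod_congr rfl fun j _ => h1 j, Finset.prod_univ_sum, MvPolynomial.coeff_sum,
    Finset.sum_congr rfl fun g _ => h2 g, Finset.sum_ite_eq']
  split_ifs with h
  · rfl
  · rw [Fintype.mem_piFinset] at h
    push Not at h
    obtain ⟨j, hj⟩ := h
    rw [MvPolynomial.notMem_support_iff] at hj
    exact (Finset.prod_eq_zero (Finset.mem_univ j) hj).symm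

private theorem A4L2_term {M n : ℕ} (hn : 1 ≤ n) (D₀ : Fin M → Orb n)
    (D : Finset (Orb n)) (hD : D.card ≤ M) (f : D → Fin M) :
    MvPolynomial.coeff (muE D₀) (∏ b : D, MvPolynomial.rename (fun i : Fin n => (f b, i))
      (toPoly n (orbM b.1))) =
      open Classical in if Function.Surjective f ∧ ∀ b, D₀ (f b) = b.1 then 1 else 0 := by
  classical
  have h1 : (∏ b : D, MvPolynomial.rename (fun i : Fin n => (f b, i)) (toPoly n (orbM b.1))) =
      ∏ j : Fin M, MvPolynomial.rename (fun i : Fin n => (j, i))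
        (∏ b : D with f b = j, toPoly n (orbM b.1)) := by
    rw [← Finset.prod_fiberwise (s := (Finset.univ : Finset D)) (g := f)]
    refine Finset.prod_congr rfl fun j _ => ?_
    rw [map_prod]
    refine Finset.prod_congr rfl fun b hb => ?_
    rw [(Finset.mem_filter.1 hb).2]
  rw [h1, A4L2_coeff_prod _ (muE D₀) (fun j => expo (rep (D₀ j))) fun j i => rfl]
  by_cases hs : Function.Surjective f
  · have hcard : Fintype.card D ≤ Fintype.card (Fin M) := by
      rw [Fintype.card_coe, Fintype.card_fin]
      exact hD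
    have hc : Fintype.card D = Fintype.card (Fin M) :=
      le_antisymm hcard (Fintype.card_le_of_surjective f hs)
    have hb : Function.Bijective f := (Fintype.bijective_iff_surjective_and_card f).2 ⟨hs, hc⟩
    have h2 : ∀ b : D, MvPolynomial.coeff (expo (rep (D₀ (f b))))
        (∏ b' : D with f b' = f b, toPoly n (orbM b'.1)) =
        if D₀ (f b) = b.1 then 1 else 0 := by
      intro b
      have h3 : (Finset.univ.filter fun b' : D => f b' = f b) = {b} := by
        ext b'
        rw [Finset.mem_filter, Finset.mem_singleton]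
        exact ⟨fun h => hb.1 h.2, fun h => ⟨Finset.mem_univ _, by rw [h]⟩⟩
      rw [h3, Finset.prod_singleton, coeff_toPoly, orbM_apply, orb_rep]
    by_cases h4 : ∀ b, D₀ (f b) = b.1
    · rw [if_pos ⟨hs, h4⟩]
      refine Finset.prod_eq_one fun j _ => ?_
      obtain ⟨b, rfl⟩ := hs j
      rw [h2 b, if_pos (h4 b)]
    · rw [if_neg fun h => h4 h.2]
      push Not at h4
      obtain ⟨b, hb4⟩ := h4
      refine Finset.prod_eq_zero (Finset.mem_univ (f b)) ?_
      rw [h2 b, if_neg hb4]
  · rw [if_neg fun h => hs h.1]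
    have hs' : ∃ j, ∀ b, f b ≠ j := by
      by_contra hcon
      push Not at hcon
      exact hs hcon
    obtain ⟨j, hj⟩ := hs'
    refine Finset.prod_eq_zero (Finset.mem_univ j) ?_
    have h3 : (Finset.univ.filter fun b' : D => f b' = j) = ∅ :=
      Finset.filter_eq_empty_iff.2 fun b _ => hj b
    rw [h3, Finset.prod_empty, MvPolynomial.coeff_one, if_neg]
    intro h
    have h5 : (0 : ℕ) = 2 ^ rep (D₀ j) ⟨0, hn⟩ := DFunLike.congr_fun h ⟨0, hn⟩
    exact absurd h5.symm (pow_ne_zero _ two_ne_zero)

theorem coeff_blk {M n : ℕ} (hn : 1 ≤ n) (D₀ : Fin M → Orb n) (hD₀ : Function.Injective D₀)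
    (D : Finset (Orb n)) (hD : D.card ≤ M) :
    MvPolynomial.coeff (muE D₀) (∏ b ∈ D, blk M n (orbM b)) =
      open Classical in if D = Finset.univ.image D₀ then 1 else 0 := by
  classical
  have h1 : (∏ b ∈ D, blk M n (orbM b)) =
      ∑ f : D → Fin M, ∏ b : D, MvPolynomial.rename (fun i : Fin n => (f b, i))
        (toPoly n (orbM b.1)) := by
    rw [← Finset.prod_coe_sort D, Finset.prod_congr rfl fun b _ => blk_apply M n (orbM b.1),
      Finset.prod_univ_sum, Fintype.piFinset_univ]
  rw [h1, MvPolynomial.coeff_sum, Finset.sum_congr rfl fun f _ => A4L2_term hn D₀ D hD f]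
  by_cases hE : D = Finset.univ.image D₀
  · rw [if_pos hE]
    have h2 : ∀ b : D, ∃ j, D₀ j = b.1 := by
      intro b
      have hb : b.1 ∈ Finset.univ.image D₀ := by
        rw [← hE]
        exact b.2
      obtain ⟨j, -, hj⟩ := Finset.mem_image.1 hb
      exact ⟨j, hj⟩
    choose f hf using h2
    have hs : Function.Surjective f := by
      intro j
      have hj : D₀ j ∈ D := by
        rw [hE]
        exact Finset.mem_image_of_mem D₀ (Finset.mem_univ j)
      exact ⟨⟨D₀ j, hj⟩, hD₀ (hf ⟨D₀ j, hj⟩)⟩
    rw [Finset.sum_eq_single f]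
    · rw [if_pos ⟨hs, hf⟩]
    · intro g _ hg
      rw [if_neg]
      rintro ⟨-, h⟩
      exact hg (funext fun b => hD₀ ((h b).trans (hf b).symm))
    · intro h
      exact absurd (Finset.mem_univ _) h
  · rw [if_neg hE]
    refine Finset.sum_eq_zero fun f _ => if_neg ?_
    rintro ⟨hs, hf⟩
    apply hE
    ext b
    rw [Finset.mem_image]
    constructor
    · intro hb
      exact ⟨f ⟨b, hb⟩, Finset.mem_univ _, hf ⟨b, hb⟩⟩
    · rintro ⟨j, -, rfl⟩
      obtain ⟨b, rfl⟩ := hs j
      rw [hf b]
      exact b.2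

/-- independence of the products of block sums -/
theorem PD_li {n : ℕ} (hn : 1 ≤ n) (c : Finset (Orb n) →₀ ZMod 2)
    (h : ∀ M : ℕ, (c.sum fun D r => r • ∏ b ∈ D, blk M n (orbM b)) = 0) : c = 0 := by
  classical
  by_contra hc
  have hne : c.support.Nonempty := Finsupp.support_nonempty_iff.2 hc
  obtain ⟨D, hD, hmax⟩ := Finset.exists_max_image c.support Finset.card hne
  have hM := h D.card
  let D₀ : Fin D.card → Orb n := fun j => (D.equivFin.symm j).1
  have hD₀ : Function.Injective D₀ :=
    fun j j' hj => D.equivFin.symm.injective (Subtype.ext hj)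
  have him : D = Finset.univ.image D₀ := by
    ext b
    rw [Finset.mem_image]
    constructor
    · intro hb
      refine ⟨D.equivFin ⟨b, hb⟩, Finset.mem_univ _, ?_⟩
      show (D.equivFin.symm (D.equivFin ⟨b, hb⟩)).1 = b
      rw [Equiv.symm_apply_apply]
    · rintro ⟨j, -, rfl⟩
      exact (D.equivFin.symm j).2
  have h1 := congrArg (MvPolynomial.coeff (muE D₀)) hM
  rw [Finsupp.sum, MvPolynomial.coeff_sum, MvPolynomial.coeff_zero,
    Finset.sum_eq_single D] at h1
  · rw [MvPolynomial.coeff_smul, coeff_blk hn D₀ hD₀ D le_rfl, if_pos him, smul_eq_mul,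
      mul_one] at h1
    exact (Finsupp.mem_support_iff.1 hD) h1
  · intro D' hD' hDD'
    rw [MvPolynomial.coeff_smul, coeff_blk hn D₀ hD₀ D' (hmax D' hD'), if_neg, smul_zero]
    rw [← him]
    exact hDD'
  · intro h2
    exact absurd hD h2

end MM
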