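import Pool.Agent.Lib_MP_33f7bb_d.A4L1

/-!
# A4-33: reduced cohomology as an `AM`; block sums as maps from `E(n)`

`RAM S Z z₀`: `M n = Dual (H_n (R Z))`, operations `S.op`.  Pointed maps induce `AMHom`s (`S.nat`).
`exists_PsiE` (`n ≥ 1`): for `c ∈ E(n)^d` (`d ≥ n ≥ 1` or `c = 0`) the polynomial `blk M n c` is homogeneous of degree `d ≥ 1`, so
`pol (blk M n c)` is homogeneous (`pol_isHom`) and its component is `red y` for a unique `y` (`red_surj`, `red_injective`); linear in
`c`.  For `d = 0`: `E(n)^0 = 0` (all weights are `≥ n ≥ 1`).  Commutation with the operations: `sq_pol` with `f = blk M n c`: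
`red (S.op d m y)` = component `m` of `pol (sqP (blk M n c)) = pol (blk M n (Sqt c))`, which is `pol` of the homogeneous component
(`pol` preserves degrees), i.e. `pol (blk M n (wtc m (Sqt c)))` (`blk_wtc`).
-/

open scoped TensorProduct

namespace MM

/-- reduced cohomology as an `AM` -/
noncomputable def RAM (S : SqFam) (Z : SS) (z₀ : Z.S 0) : AM where
  M n := Module.Dual (ZMod 2) ((R Z z₀).H n)
  Sq n m := S.op Z z₀ n m
  Sq_lt n m h := S.lt Z z₀ n m h
  Sq_id n := S.id Z z₀ n
  unst n m h := S.unst Z z₀ n m h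

/-- pull back as an `AMHom` -/
noncomputable def RAM.map (S : SqFam) {Z Z' : SS} (z₀ : Z.S 0) (z₀' : Z'.S 0) (f : Hom Z Z')
    (hf : f.app 0 z₀ = z₀') : AMHom (RAM S Z' z₀') (RAM S Z z₀) :=
  ⟨fun n => (SV.Hmap (R.map z₀ z₀' f hf) n).dualMap, fun n m y => S.nat z₀ z₀' f hf n m y⟩

private theorem A4L3_sum_apply {Z : SS} {I : Type} (s : Finset I) (a : I → CR Z) (m : ℕ) :
    (∑ i ∈ s, a i) m = ∑ i ∈ s, a i m := map_sum (CR.cmp (Z := Z) m) a s

private theorem A4L3_comp {I : Type} (F : MvPolynomial I (ZMod 2)) (m : ℕ) :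
    (pol I (MvPolynomial.homogeneousComponent m F)) m = (pol I F) m := by
  conv_rhs => rw [← MvPolynomial.sum_homogeneousComponent F, map_sum, A4L3_sum_apply]
  by_cases hm : m ∈ Finset.range (F.totalDegree + 1)
  · rw [Finset.sum_eq_single_of_mem m hm]
    intro i _ hi
    exact pol_isHom (MvPolynomial.homogeneousComponent_isHomogeneous i F) m (fun h => hi h.symm)
  · rw [MvPolynomial.homogeneousComponent_eq_zero _ _ (by
      rw [Finset.mem_range] at hm
      omega), map_zero]
    symm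
    refine Finset.sum_eq_zero fun i hi => ?_
    exact pol_isHom (MvPolynomial.homogeneousComponent_isHomogeneous i F) m
      (fun h => hm (h ▸ hi))

private theorem A4L3_zero {n : ℕ} (hn : 1 ≤ n) (c : EE n 0) : c = 0 := by
  apply Subtype.ext
  refine Finsupp.ext fun b => ?_
  by_contra hb
  have h1 := c.2.1 b hb
  have h2 : 0 < wt b := by
    have : Nonempty (Fin n) := ⟨⟨0, by omega⟩⟩
    exact Finset.sum_pos (fun i _ => by positivity) Finset.univ_nonempty
  omega

private theorem A4L3_ex (M n : ℕ) (hn : 1 ≤ n) (d : ℕ) (c : EE n d) :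
    ∃ y : Module.Dual (ZMod 2) ((R (Bpow (Fin M × Fin n)) (Bpt (Fin M × Fin n))).H d),
      red (Bpt (Fin M × Fin n)) d y = (pol (Fin M × Fin n) (blk M n c.1)) d := by
  by_cases hd : 1 ≤ d
  · exact red_surj _ d hd _
  · obtain rfl : d = 0 := by omega
    refine ⟨0, ?_⟩
    rw [A4L3_zero hn c, map_zero]
    show 0 = (pol (Fin M × Fin n) (blk M n 0)) 0
    rw [map_zero, map_zero]
    rfl

private noncomputable def A4L3_f (M n : ℕ) (hn : 1 ≤ n) (d : ℕ) :
    EE n d →ₗ[ZMod 2]
      Module.Dual (ZMod 2) ((R (Bpow (Fin M × Fin n)) (Bpt (Fin M × Fin n))).H d) where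
  toFun c := Classical.choose (A4L3_ex M n hn d c)
  map_add' c c' := by
    apply red_injective (Bpt (Fin M × Fin n)) d
    rw [map_add, Classical.choose_spec (A4L3_ex M n hn d (c + c')),
      Classical.choose_spec (A4L3_ex M n hn d c), Classical.choose_spec (A4L3_ex M n hn d c')]
    rw [Submodule.coe_add, map_add, map_add]
    rfl
  map_smul' r c := by
    apply red_injective (Bpt (Fin M × Fin n)) d
    rw [map_smul, Classical.choose_spec (A4L3_ex M n hn d (r • c)),
      Classical.choose_spec (A4L3_ex M n hn d c)]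
    rw [Submodule.coe_smul, map_smul, map_smul]
    rfl

private theorem A4L3_red (M n : ℕ) (hn : 1 ≤ n) (d : ℕ) (c : EE n d) :
    red (Bpt (Fin M × Fin n)) d (A4L3_f M n hn d c) =
      (pol (Fin M × Fin n) (blk M n c.1)) d :=
  Classical.choose_spec (A4L3_ex M n hn d c)

theorem exists_PsiE (S : SqFam) (M n : ℕ) (hn : 1 ≤ n) :
    ∃ Ψ : AMHom (EAM n) (RAM S (Bpow (Fin M × Fin n)) (Bpt _)),
      ∀ (d : ℕ) (c : EE n d), CR.hom d (red (Bpt (Fin M × Fin n)) d (Ψ.app d c)) =
        pol (Fin M × Fin n) (blk M n c.1) := by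
  refine ⟨⟨fun d => A4L3_f M n hn d, ?_⟩, ?_⟩
  · intro d m x
    apply red_injective (Bpt (Fin M × Fin n)) m
    refine (A4L3_red M n hn m ((EAM n).Sq d m x)).trans ?_
    rw [EAM_Sq_val, blk_wtc, A4L3_comp, ← sqP_blk]
    show _ = red (Bpt (Fin M × Fin n)) m (S.op (Bpow (Fin M × Fin n)) (Bpt (Fin M × Fin n)) d m
      (A4L3_f M n hn d x))
    by_cases hd : 1 ≤ d
    · symm
      refine sq_pol S hd (blk_hom x.2.1) _ ?_ m
      rw [A4L3_red, ← (pol_isHom (blk_hom x.2.1)).eq]
    · obtain rfl : d = 0 := by omega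
      have hx : x = (0 : EE n 0) := A4L3_zero hn x
      rw [hx]
      rw [(A4L3_f M n hn 0).map_zero, map_zero, map_zero]
      show (pol (Fin M × Fin n) (sqP (Fin M × Fin n) (blk M n 0))) m = 0
      rw [map_zero, map_zero, map_zero]
      rfl
  · intro d c
    show CR.hom d (red (Bpt (Fin M × Fin n)) d (A4L3_f M n hn d c)) = _
    rw [A4L3_red, ← (pol_isHom (blk_hom c.2.1)).eq]

end MM
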