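import Pool.Agent.Lib_MP_33f7bb_d.A4Ring

/-!
# A4-01: ring axioms for `CR Z`

`boxF_assoc`: both sides are functionals on `H_n ((P ⊗ Q) ⊗ S)`.  By `kun_surj` (twice, and
`crs_mem_B_left`, `crs_mem_B_right`) every class is a sum of classes of `crs n (crs m x y) z` with `x, y, z` cycles of degrees
`p', q', r'`, `p' + q' = m'`, `m' + r' = n`.  `assoc_crs` gives the value of the right hand side; both sides are
`a [x] * b [y] * c [z]` if `(p', q', r') = (p, q, r)` and `0` otherwise (`boxF_crs`, `boxF_crs_ne`).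
`cup_add_left/right`: `boxF_add_left/right`.  `cup_comm`: `boxF_swap` and `swap ∘ linDiag = linDiag`.
`cup_assoc`: `boxF_assoc`, `boxF_map` and coassociativity
`assoc ∘ (linDiag ⊗ 1) ∘ linDiag = (1 ⊗ linDiag) ∘ linDiag` (check on the basis `[x]`).
`cup_unit`: `boxF n (Hc.unit) a = a ∘ H(q)`, where `q : lin Z ⊗ lin Z → lin Z`, `[x] ⊗ [y] ↦ [y]`
(on `crs n x y` with `x` a cycle of degree `p'`: the value of `q` on `crs n x y` is
`∑_(α,β) ε(act α x) act β y`, `ε` = sum of the coefficients; if `p' = 0` this is `ε(x) y`; if `p' > 0`: it is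
`ε(x) * ∑_β (number of α) act β y`, it is a cycle, and all `β : [n] → [n - p']` are degenerate; cleaner: for `p' > 0`
take the cycle `x` and the map `lin Z → lin pt`: `q(crs n x y)` is the image of `crs n (x' : lin PT) y` under
`lin PT ⊗ lin Z → lin Z`, and `x'` is a boundary of `lin PT` or `p' = 0`: a cycle of positive degree of
`lin PT` is a boundary), and `q ∘ linDiag = id`.
`Hc.map_cup`: `boxF_map` and `linDiag ∘ linMap f = (linMap f ⊗ linMap f) ∘ linDiag`.
`Hc.map_unit`: the sum of the coefficients is unchanged by `mapDomain`.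
-/

open scoped TensorProduct

namespace MM

private theorem A4R1_key {P Q S : SV} {p q r m m' n : ℕ} (hm : p + q = m) (hm' : q + r = m')
    (hn : p + q + r = n) (a : Module.Dual (ZMod 2) (P.H p)) (b : Module.Dual (ZMod 2) (Q.H q))
    (c : Module.Dual (ZMod 2) (S.H r)) {p' q' M r' : ℕ} (h1 : p' + q' = M) (h2 : M + r' = n)
    (x : P.V p') (hx : x ∈ P.Z p') (y : Q.V q') (hy : y ∈ Q.Z q') (z : S.V r') (hz : z ∈ S.Z r') :
    boxF n (boxF m a b) c (((P.tens Q).tens S).cls (crs n (crs M x y) z)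
        (crs_mem_Z (crs_mem_Z hx hy) hz)) =
      (boxF n a (boxF m' b c)) (SV.Hmap (SV.assoc P Q S) n (((P.tens Q).tens S).cls
        (crs n (crs M x y) z) (crs_mem_Z (crs_mem_Z hx hy) hz))) := by
  subst h1
  subst h2
  rw [SV.Hmap_cls, A3Box_cls_congr (assoc_crs x y z) _ (crs_mem_Z hx (crs_mem_Z hy hz))]
  by_cases hp : p' = p
  · subst hp
    obtain rfl : q' + r' = m' := by omega
    rw [boxF_crs (by omega) a (boxF (q' + r') b c) x hx _ (crs_mem_Z hy hz)]
    by_cases hq : q' = q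
    · subst hq
      obtain rfl : r' = r := by omega
      subst hm
      rw [boxF_crs rfl (boxF (p' + q') a b) c _ (crs_mem_Z hx hy) z hz,
        boxF_crs rfl a b x hx y hy, boxF_crs rfl b c y hy z hz, mul_assoc]
    · rw [boxF_crs_ne _ _ hq y hy z hz, mul_zero,
        boxF_crs_ne _ _ (by omega) _ (crs_mem_Z hx hy) z hz]
  · rw [boxF_crs_ne _ _ hp x hx _ (crs_mem_Z hy hz)]
    by_cases hq : p' + q' = m
    · subst hq
      obtain rfl : r' = r := by omega
      rw [boxF_crs rfl (boxF (p' + q') a b) c _ (crs_mem_Z hx hy) z hz,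
        boxF_crs_ne _ _ hp x hx y hy, zero_mul]
    · rw [boxF_crs_ne _ _ hq _ (crs_mem_Z hx hy) z hz]

private theorem A4R1_assoc {P Q S : SV} {p q r m m' n : ℕ} (hm : p + q = m) (hm' : q + r = m')
    (hn : p + q + r = n) (a : Module.Dual (ZMod 2) (P.H p)) (b : Module.Dual (ZMod 2) (Q.H q))
    (c : Module.Dual (ZMod 2) (S.H r)) :
    boxF n (boxF m a b) c = (boxF n a (boxF m' b c)).comp (SV.Hmap (SV.assoc P Q S) n) := by
  apply boxF_ext
  intro M r' hMr u hu z hz
  obtain ⟨N, p1, q1, x, y, hpq, hx, hy, hB⟩ := kun_surj P Q M u hu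
  have hZ : ∀ i, crs n (crs M (x i) (y i)) z ∈ ((P.tens Q).tens S).Z n := fun i =>
    crs_mem_Z (crs_mem_Z (hx i) (hy i)) hz
  have hs : ∑ i, crs n (crs M (x i) (y i)) z ∈ ((P.tens Q).tens S).Z n :=
    Submodule.sum_mem _ fun i _ => hZ i
  have hB2 : crs n u z + ∑ i, crs n (crs M (x i) (y i)) z ∈ ((P.tens Q).tens S).B n := by
    have h1 := crs_mem_B_left (n := n) hB hz
    obtain ⟨f, hf⟩ := crs_bilin (P.tens Q) S M r' n
    have h2 : crs n (u + ∑ i, crs M (x i) (y i)) z =
        crs n u z + ∑ i, crs n (crs M (x i) (y i)) z := by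
      rw [← hf, ← hf, map_add, map_sum, LinearMap.add_apply, LinearMap.sum_apply]
      simp only [hf]
    rwa [h2] at h1
  rw [A3Box_cls_eq (crs_mem_Z hu hz) hs hB2, A3Box_cls_sum Finset.univ _ hZ hs, map_sum, map_sum]
  refine Finset.sum_congr rfl fun i _ => ?_
  rw [LinearMap.comp_apply]
  exact A4R1_key hm hm' hn a b c (hpq i) hMr (x i) (hx i) (y i) (hy i) z hz

theorem boxF_assoc {P Q S : SV} {p q r : ℕ} (a : Module.Dual (ZMod 2) (P.H p))
    (b : Module.Dual (ZMod 2) (Q.H q)) (c : Module.Dual (ZMod 2) (S.H r)) :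
    boxF (p + q + r) (boxF (p + q) a b) c =
      (boxF (p + q + r) a (boxF (q + r) b c)).comp (SV.Hmap (SV.assoc P Q S) (p + q + r)) :=
  A4R1_assoc rfl rfl rfl a b c

theorem boxF_ne {P Q : SV} {p q n : ℕ} (h : p + q ≠ n) (a : Module.Dual (ZMod 2) (P.H p))
    (b : Module.Dual (ZMod 2) (Q.H q)) : boxF n a b = 0 := dif_neg h

variable {Z Z' : SS}

theorem cup_ne {p q n : ℕ} (h : p + q ≠ n) (a : Hc Z p) (b : Hc Z q) : cup n a b = 0 := by
  rw [cup, boxF_ne h, LinearMap.zero_comp]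

theorem cup_add_left {p q n : ℕ} (a a' : Hc Z p) (b : Hc Z q) :
    cup n (a + a') b = cup n a b + cup n a' b := by
  rw [cup, boxF_add_left, LinearMap.add_comp]; rfl

theorem cup_add_right {p q n : ℕ} (a : Hc Z p) (b b' : Hc Z q) :
    cup n a (b + b') = cup n a b + cup n a b' := by
  rw [cup, boxF_add_right, LinearMap.add_comp]; rfl

theorem cup_zero_left {p q n : ℕ} (b : Hc Z q) : cup n (0 : Hc Z p) b = 0 := by
  have h := cup_add_left (n := n) (0 : Hc Z p) 0 b
  rw [add_zero] at h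
  exact left_eq_add.1 h

theorem cup_zero_right {p q n : ℕ} (a : Hc Z p) : cup n a (0 : Hc Z q) = 0 := by
  have h := cup_add_right (n := n) a (0 : Hc Z q) 0
  rw [add_zero] at h
  exact left_eq_add.1 h

private theorem A4R1_ext {W : SV} {f g : SVHom (lin Z) W}
    (h : ∀ n (x : Z.S n), f.app n (Finsupp.single x 1) = g.app n (Finsupp.single x 1)) : f = g := by
  apply SVHom.ext
  funext n
  exact Finsupp.lhom_ext' fun x => LinearMap.ext_ring (h n x)

private theorem A4R1_H {P Q Q' S : SV} {f : SVHom P Q} {g : SVHom Q S} {f' : SVHom P Q'}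
    {g' : SVHom Q' S} (h : g.comp f = g'.comp f') (n : ℕ) (x : P.H n) :
    SV.Hmap g n (SV.Hmap f n x) = SV.Hmap g' n (SV.Hmap f' n x) := by
  rw [← SV.Hmap_comp, h, SV.Hmap_comp]

private theorem A4R1_tens_app {P P' Q Q' : SV} (f : SVHom P P') (g : SVHom Q Q') (n : ℕ)
    (x : P.V n) (y : Q.V n) :
    (f.tens g).app n (x ⊗ₜ[ZMod 2] y) = f.app n x ⊗ₜ[ZMod 2] g.app n y := rfl

private theorem A4R1_swap : (SV.swap (lin Z) (lin Z)).comp (linDiag Z) = linDiag Z := by
  apply A4R1_ext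
  intro n x
  show (SV.swap (lin Z) (lin Z)).app n ((linDiag Z).app n (Finsupp.single x 1)) = _
  rw [linDiag_single]
  rfl

private theorem A4R1_coassoc :
    ((SV.assoc (lin Z) (lin Z) (lin Z)).comp ((linDiag Z).tens (SVHom.id (lin Z)))).comp
      (linDiag Z) = ((SVHom.id (lin Z)).tens (linDiag Z)).comp (linDiag Z) := by
  apply A4R1_ext
  intro n x
  show (SV.assoc (lin Z) (lin Z) (lin Z)).app n (((linDiag Z).tens (SVHom.id (lin Z))).app n
    ((linDiag Z).app n (Finsupp.single x 1))) =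
    ((SVHom.id (lin Z)).tens (linDiag Z)).app n ((linDiag Z).app n (Finsupp.single x 1))
  rw [linDiag_single, A4R1_tens_app, A4R1_tens_app, linDiag_single]
  rfl

private theorem A4R1_nat (f : Hom Z Z') :
    (linDiag Z').comp (linMap f) = ((linMap f).tens (linMap f)).comp (linDiag Z) := by
  apply A4R1_ext
  intro n x
  show (linDiag Z').app n (Finsupp.mapDomain (f.app n) (Finsupp.single x 1)) =
    ((linMap f).tens (linMap f)).app n ((linDiag Z).app n (Finsupp.single x 1))
  rw [linDiag_single, A4R1_tens_app, Finsupp.mapDomain_single, linDiag_single]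
  show _ = Finsupp.mapDomain (f.app n) (Finsupp.single x 1) ⊗ₜ[ZMod 2]
    Finsupp.mapDomain (f.app n) (Finsupp.single x 1)
  rw [Finsupp.mapDomain_single]

/-- sum of the coefficients -/
private noncomputable def A4R1_eps (Z : SS) (n : ℕ) : Ch Z n →ₗ[ZMod 2] ZMod 2 :=
  Finsupp.linearCombination (ZMod 2) (fun _ : Z.S n => (1 : ZMod 2))

private theorem A4R1_eps_map {A B : Type} (f : A → B) (z : A →₀ ZMod 2) :
    Finsupp.linearCombination (ZMod 2) (fun _ : B => (1 : ZMod 2)) (Finsupp.mapDomain f z) =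
      Finsupp.linearCombination (ZMod 2) (fun _ : A => (1 : ZMod 2)) z := by
  rw [Finsupp.linearCombination_mapDomain]
  rfl

/-- the counit on the left factor -/
private noncomputable def A4R1_q (Y Z : SS) : SVHom ((lin Y).tens (lin Z)) (lin Z) :=
  ⟨fun n => (TensorProduct.lid (ZMod 2) (Ch Z n)).toLinearMap ∘ₗ
      TensorProduct.map (A4R1_eps Y n) LinearMap.id, by
    intro m n g u
    induction u using TensorProduct.induction_on with
    | zero => simp
    | add u v hu hv => simp only [map_add, hu, hv]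
    | tmul x y =>
      show (TensorProduct.lid (ZMod 2) (Ch Z m)) (TensorProduct.map (A4R1_eps Y m) LinearMap.id
        (TensorProduct.map ((lin Y).act g) ((lin Z).act g) (x ⊗ₜ[ZMod 2] y))) =
        (lin Z).act g ((TensorProduct.lid (ZMod 2) (Ch Z n)) (TensorProduct.map (A4R1_eps Y n)
          LinearMap.id (x ⊗ₜ[ZMod 2] y)))
      rw [TensorProduct.map_tmul, TensorProduct.map_tmul, TensorProduct.map_tmul,
        TensorProduct.lid_tmul, TensorProduct.lid_tmul, map_smul]
      congr 1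
      exact A4R1_eps_map (Y.act g) x⟩

private theorem A4R1_q_tmul (Y Z : SS) (n : ℕ) (x : Ch Y n) (y : Ch Z n) :
    (A4R1_q Y Z).app n (x ⊗ₜ[ZMod 2] y) = A4R1_eps Y n x • y := by
  show (TensorProduct.lid (ZMod 2) (Ch Z n)) (TensorProduct.map (A4R1_eps Y n)
          LinearMap.id (x ⊗ₜ[ZMod 2] y)) = _
  rw [TensorProduct.map_tmul, TensorProduct.lid_tmul]
  rfl

private theorem A4R1_q_diag : (A4R1_q Z Z).comp (linDiag Z) = SVHom.id (lin Z) := by
  apply A4R1_ext
  intro n x
  show (A4R1_q Z Z).app n ((linDiag Z).app n (Finsupp.single x 1)) = Finsupp.single x 1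
  rw [linDiag_single, A4R1_q_tmul]
  show Finsupp.linearCombination (ZMod 2) (fun _ : Z.S n => (1 : ZMod 2)) (Finsupp.single x 1) • _ = _
  rw [Finsupp.linearCombination_single, smul_eq_mul, mul_one, one_smul]

/-- the map to the point -/
private def A4R1_pt (Z : SS) : Hom Z PT := ⟨fun _ _ => (), fun _ _ => rfl⟩

private theorem A4R1_q_pt :
    (A4R1_q PT Z).comp ((linMap (A4R1_pt Z)).tens (SVHom.id (lin Z))) = A4R1_q Z Z := by
  apply SVHom.ext
  funext n
  apply TensorProduct.ext'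
  intro x y
  show (A4R1_q PT Z).app n (((linMap (A4R1_pt Z)).tens (SVHom.id (lin Z))).app n
    (x ⊗ₜ[ZMod 2] y)) = _
  rw [A4R1_tens_app, A4R1_q_tmul, A4R1_q_tmul]
  congr 1
  exact A4R1_eps_map _ x

private theorem A4R1_pt_d (k : ℕ) (z : Ch PT (k + 1)) :
    (lin PT).d k z = ((k + 2 : ℕ) : ZMod 2) • (z : Ch PT k) := by
  rw [SV.d, LinearMap.sum_apply]
  have h : ∀ i : Fin (k + 2), (lin PT).act (dlt i) z = (z : Ch PT k) := by
    intro i
    show Finsupp.mapDomain (PT.act (dlt i)) z = z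
    exact Finsupp.mapDomain_id
  rw [Finset.sum_congr rfl (fun i _ => h i), Finset.sum_const, Finset.card_univ,
    Fintype.card_fin, Nat.cast_smul_eq_nsmul]

private theorem A4R1_pt_B {p : ℕ} (hp : p ≠ 0) {z : Ch PT p} (hz : z ∈ (lin PT).Z p) :
    z ∈ (lin PT).B p := by
  obtain ⟨k, rfl⟩ := Nat.exists_eq_succ_of_ne_zero hp
  have h1 : (lin PT).d k z = 0 := hz
  rw [A4R1_pt_d] at h1
  rcases Nat.even_or_odd k with hk | hk
  · refine ⟨(z : Ch PT (k + 2)), ?_⟩
    have h2 := A4R1_pt_d (k + 1) z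
    refine h2.trans ?_
    have h3 : ((k + 1 + 2 : ℕ) : ZMod 2) = 1 := by
      obtain ⟨j, rfl⟩ := hk
      have : (2 : ZMod 2) = 0 := rfl
      push_cast
      linear_combination ((j : ZMod 2) + 1) * this
    rw [h3, one_smul]
  · have h3 : ((k + 2 : ℕ) : ZMod 2) = 1 := by
      obtain ⟨j, rfl⟩ := hk
      have : (2 : ZMod 2) = 0 := rfl
      push_cast
      linear_combination ((j : ZMod 2) + 1) * this
    rw [h3, one_smul] at h1
    have h4 : z = 0 := h1
    rw [h4]
    exact Submodule.zero_mem _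

private theorem A4R1_crs_zero {P Q : SV} {n : ℕ} (x : P.V 0) (y : Q.V n) :
    crs n x y = P.act (cst 0) x ⊗ₜ[ZMod 2] y := by
  classical
  unfold crs
  have hu : ∀ a : Mo n 0, a = cst 0 := fun a => OrderHom.ext _ _ (funext fun i =>
    Fin.ext (by have := (a i).2; have h2 := ((cst 0 : Mo n 0) i).2; omega))
  rw [Finset.sum_eq_single (cst 0 : Mo n 0) (fun a _ ha => absurd (hu a) ha)
    (fun h => absurd (Finset.mem_univ _) h),
    Finset.sum_eq_single (OrderHom.id : Mo n n)]
  · rw [if_pos, Q.act_id]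
    exact ⟨by omega, fun i => by
      have h2 : (((cst 0 : Mo n 0) i : Fin 1) : ℕ) = 0 := by
        have := ((cst 0 : Mo n 0) i).2
        omega
      rw [h2, zero_add]
      rfl⟩
  · intro b _ hb
    rw [if_neg]
    rintro ⟨-, h⟩
    apply hb
    refine OrderHom.ext _ _ (funext fun i => Fin.ext ?_)
    have h1 := h i
    have h2 : (((cst 0 : Mo n 0) i : Fin 1) : ℕ) = 0 := by
      have := ((cst 0 : Mo n 0) i).2
      omega
    rw [h2, zero_add] at h1
    exact h1
  · intro h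
    exact absurd (Finset.mem_univ _) h

private theorem A4R1_box_unit {n : ℕ} (a : Hc Z n) :
    boxF n (Hc.unit Z) a = a.comp (SV.Hmap (A4R1_q Z Z) n) := by
  apply boxF_ext
  intro p' q' h x hx y hy
  rw [LinearMap.comp_apply, SV.Hmap_cls]
  by_cases hp : p' = 0
  · subst hp
    obtain rfl : q' = n := by omega
    rw [boxF_crs h _ _ x hx y hy, Hc.unit_cls]
    have h1 : (A4R1_q Z Z).app q' (crs q' x y) = A4R1_eps Z 0 x • y := by
      rw [A4R1_crs_zero]
      refine (A4R1_q_tmul Z Z q' _ y).trans ?_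
      congr 1
      exact A4R1_eps_map (Z.act (cst 0)) x
    have h2 : (Finsupp.sum x fun _ r => r) = A4R1_eps Z 0 x := by
      show _ = Finsupp.linearCombination (ZMod 2) (fun _ : Z.S 0 => (1 : ZMod 2)) x
      rw [Finsupp.linearCombination_apply]
      simp
    rw [A3Box_cls_congr h1 _ (((lin Z).Z q').smul_mem _ hy), A3Box_cls_smul, map_smul, h2,
      smul_eq_mul]
  · rw [boxF_crs_ne _ _ hp x hx y hy]
    have h1 : (A4R1_q Z Z).app n (crs n x y) =
        (A4R1_q PT Z).app n (crs n ((linMap (A4R1_pt Z)).app p' x) y) := by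
      rw [← A4R1_q_pt]
      show (A4R1_q PT Z).app n (((linMap (A4R1_pt Z)).tens (SVHom.id (lin Z))).app n
        (crs n x y)) = _
      rw [crs_map]
      rfl
    have h2 : (A4R1_q Z Z).app n (crs n x y) ∈ (lin Z).B n := by
      rw [h1]
      exact (A4R1_q PT Z).map_B (crs_mem_B_left (A4R1_pt_B hp ((linMap (A4R1_pt Z)).map_Z hx)) hy)
    have h3 : (lin Z).cls ((A4R1_q Z Z).app n (crs n x y))
        ((A4R1_q Z Z).map_Z (crs_mem_Z hx hy)) = (lin Z).cls 0 (Submodule.zero_mem _) :=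
      A3Box_cls_eq _ _ (by rw [add_zero]; exact h2)
    rw [h3, A3Box_cls_zero rfl, map_zero]

theorem cup_comm {p q n : ℕ} (a : Hc Z p) (b : Hc Z q) : cup n a b = cup n b a := by
  apply LinearMap.ext
  intro u
  show boxF n a b (SV.Hmap (linDiag Z) n u) = boxF n b a (SV.Hmap (linDiag Z) n u)
  rw [← boxF_swap a b, LinearMap.comp_apply, ← SV.Hmap_comp, A4R1_swap]

theorem cup_assoc {p q r m m' n : ℕ} (hm : p + q = m) (hm' : q + r = m') (hn : p + q + r = n)
    (a : Hc Z p) (b : Hc Z q) (c : Hc Z r) :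
    cup n (cup m a b) c = cup n a (cup m' b c) := by
  have e1 : ∀ {k : ℕ} (d : Hc Z k), d.comp (SV.Hmap (SVHom.id (lin Z)) k) = d := by
    intro k d
    apply LinearMap.ext
    intro u
    rw [LinearMap.comp_apply, SV.Hmap_id]
  have h1 := boxF_map (linDiag Z) (SVHom.id (lin Z)) (n := n) (boxF m a b) c
  rw [e1] at h1
  have h2 := boxF_map (SVHom.id (lin Z)) (linDiag Z) (n := n) a (boxF m' b c)
  rw [e1] at h2
  apply LinearMap.ext
  intro u
  show boxF n ((boxF m a b).comp (SV.Hmap (linDiag Z) m)) c (SV.Hmap (linDiag Z) n u) =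
    boxF n a ((boxF m' b c).comp (SV.Hmap (linDiag Z) m')) (SV.Hmap (linDiag Z) n u)
  rw [← h1, ← h2, A4R1_assoc hm hm' hn a b c]
  simp only [LinearMap.comp_apply]
  rw [← SV.Hmap_comp, ← SV.Hmap_comp, ← SV.Hmap_comp, A4R1_coassoc]

theorem cup_unit {n : ℕ} (a : Hc Z n) : cup n (Hc.unit Z) a = a := by
  apply LinearMap.ext
  intro u
  show boxF n (Hc.unit Z) a (SV.Hmap (linDiag Z) n u) = a u
  rw [A4R1_box_unit, LinearMap.comp_apply, ← SV.Hmap_comp, A4R1_q_diag, SV.Hmap_id]

theorem Hc.map_cup (f : Hom Z Z') {p q : ℕ} (n : ℕ) (a : Hc Z' p) (b : Hc Z' q) :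
    Hc.map f n (cup n a b) = cup n (Hc.map f p a) (Hc.map f q b) := by
  apply LinearMap.ext
  intro u
  show boxF n a b (SV.Hmap (linDiag Z') n (SV.Hmap (linMap f) n u)) =
    boxF n (a.comp (SV.Hmap (linMap f) p)) (b.comp (SV.Hmap (linMap f) q))
      (SV.Hmap (linDiag Z) n u)
  rw [← boxF_map, LinearMap.comp_apply, ← SV.Hmap_comp, ← SV.Hmap_comp, A4R1_nat]

theorem Hc.map_unit (f : Hom Z Z') : Hc.map f 0 (Hc.unit Z') = Hc.unit Z := by
  apply LinearMap.ext
  intro u
  obtain ⟨z, hz, rfl⟩ := A3Box_exists_cls u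
  show Hc.unit Z' (SV.Hmap (linMap f) 0 ((lin Z).cls z hz)) = _
  rw [SV.Hmap_cls, Hc.unit_cls, Hc.unit_cls]
  show (Finsupp.mapDomain (f.app 0) z).sum (fun _ r => r) = _
  exact Finsupp.sum_mapDomain_index (fun _ => rfl) (fun _ _ _ => rfl)

end MM
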