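import Pool.Agent.Lib_MP_33f7bb_d.A4R3

/-!
# A4-04: bases of the cohomology ring

`CBasis dg a`: the homogeneous elements `a i ∈ CR Z` of degree `dg i` form a basis of `H^d` for every `d`.

Proofs.  `finite_H`: `Hc Z d` is the dual of `(lin Z).H d` and is spanned by the finitely many `a i d`, `dg i = d`; a
vector space with finite dimensional dual is finite dimensional (`Module.Dual` of an infinite dimensional space is
infinite dimensional: `Subspace.dual_finrank_eq`, `Module.finite_dual_iff`).
`finrank`: the family `a i d`, `i` in the fibre, is a basis.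
`of_le`: a linearly independent family with at least `finrank` members spans.
`of_iso`: `Hc.map f d` is an isomorphism.
`dual`: `(lin Z).H d` is finite dimensional, its dual has the basis `(a i d)_(dg i = d)`; take the dual basis in
`(lin Z).H d` (`Module.evalEquiv`, `Basis.dualBasis`).
-/

open scoped TensorProduct

namespace MM

/-- the elements `a i`, `dg i = d`, form a basis of `H^d` -/
def CBasisAt (Z : SS) {I : Type} (dg : I → ℕ) (a : I → CR Z) (d : ℕ) : Prop :=
  (∀ c : I →₀ ZMod 2, (∀ i, c i ≠ 0 → dg i = d) → (c.sum fun i r => r • a i d) = 0 → c = 0) ∧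
  ∀ y : Hc Z d, ∃ c : I →₀ ZMod 2, (∀ i, c i ≠ 0 → dg i = d) ∧ (c.sum fun i r => r • a i d) = y

/-- homogeneous elements forming a basis of the cohomology in every degree -/
structure CBasis (Z : SS) {I : Type} (dg : I → ℕ) (a : I → CR Z) : Prop where
  hom : ∀ i, CR.IsHom (dg i) (a i)
  fin : ∀ d, {i | dg i = d}.Finite
  bas : ∀ d, CBasisAt Z dg a d

/-- simple systems of generators: the square free monomials form a basis -/
def CSimple (Z : SS) {I : Type} (dg : I → ℕ) (z : I → CR Z) : Prop :=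
  CBasis Z (fun D : Finset I => ∑ i ∈ D, dg i) (fun D => ∏ i ∈ D, z i)

/-- polynomial generators: the monomials form a basis -/
def CPoly (Z : SS) {I : Type} (dg : I → ℕ) (z : I → CR Z) : Prop :=
  CBasis Z (fun e : I →₀ ℕ => e.sum fun i k => k * dg i) (fun e => e.prod fun i k => z i ^ k)

variable {Z Z' : SS} {I I' : Type} {dg : I → ℕ} {a : I → CR Z} {dg' : I' → ℕ} {a' : I' → CR Z'}

private theorem A4R4_supp {I : Type} {c : I →₀ ZMod 2} {s : Set I} :
    (∀ i, c i ≠ 0 → i ∈ s) ↔ c ∈ Finsupp.supported (ZMod 2) (ZMod 2) s := by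
  rw [Finsupp.mem_supported]
  constructor
  · intro h i hi
    exact h i (Finsupp.mem_support_iff.1 hi)
  · intro h i hi
    exact h (Finsupp.mem_support_iff.2 hi)

private theorem A4R4_li {Z : SS} {I : Type} {dg : I → ℕ} {a : I → CR Z} {d : ℕ}
    (h : ∀ c : I →₀ ZMod 2, (∀ i, c i ≠ 0 → dg i = d) → (c.sum fun i r => r • a i d) = 0 → c = 0) :
    LinearIndependent (ZMod 2) (fun i : {i | dg i = d} => (a i.1 d : Hc Z d)) := by
  have h1 : LinearIndepOn (ZMod 2) (fun i : I => (a i d : Hc Z d)) {i | dg i = d} := by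
    rw [linearIndepOn_iff]
    intro c hc h0
    rw [Finsupp.linearCombination_apply] at h0
    exact h c (A4R4_supp.2 hc) h0
  exact h1

private theorem A4R4_sp {Z : SS} {I : Type} {dg : I → ℕ} {a : I → CR Z} {d : ℕ}
    (h : ∀ y : Hc Z d, ∃ c : I →₀ ZMod 2, (∀ i, c i ≠ 0 → dg i = d) ∧
      (c.sum fun i r => r • a i d) = y) :
    ⊤ ≤ Submodule.span (ZMod 2) (Set.range (fun i : {i | dg i = d} => (a i.1 d : Hc Z d))) := by
  intro y _
  obtain ⟨c, hc, hy⟩ := h y
  have h1 : y ∈ Submodule.span (ZMod 2) ((fun i : I => (a i d : Hc Z d)) '' {i | dg i = d}) := by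
    rw [Finsupp.mem_span_image_iff_linearCombination]
    refine ⟨c, A4R4_supp.1 hc, ?_⟩
    rw [Finsupp.linearCombination_apply]
    exact hy
  rwa [Set.image_eq_range] at h1

private noncomputable def A4R4_b {d : ℕ} (h : CBasisAt Z dg a d) :
    Module.Basis {i | dg i = d} (ZMod 2) (Hc Z d) :=
  Module.Basis.mk (A4R4_li h.1) (A4R4_sp h.2)

private theorem A4R4_b_apply {d : ℕ} (h : CBasisAt Z dg a d) (i : {i | dg i = d}) :
    A4R4_b h i = a i.1 d := by
  unfold A4R4_b
  rw [Module.Basis.mk_apply]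

theorem CBasis.finite_Hc (h : CBasis Z dg a) (d : ℕ) : Module.Finite (ZMod 2) (Hc Z d) := by
  have : Finite {i | dg i = d} := (h.fin d).to_subtype
  exact Module.Finite.of_basis (A4R4_b (h.bas d))

theorem CBasis.finite_H (h : CBasis Z dg a) (d : ℕ) : Module.Finite (ZMod 2) ((lin Z).H d) :=
  (Module.finite_dual_iff (ZMod 2)).1 (h.finite_Hc d)

theorem CBasis.finrank (h : CBasis Z dg a) (d : ℕ) :
    Module.finrank (ZMod 2) (Hc Z d) = (h.fin d).toFinset.card := by
  have : Fintype {i | dg i = d} := (h.fin d).fintype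
  rw [Module.finrank_eq_card_basis (A4R4_b (h.bas d)), Set.Finite.card_toFinset]

theorem CBasis.of_le (hom : ∀ i, CR.IsHom (dg i) (a i)) (fin : ∀ d, {i | dg i = d}.Finite)
    (li : ∀ (d : ℕ) (c : I →₀ ZMod 2), (∀ i, c i ≠ 0 → dg i = d) →
      (c.sum fun i r => r • a i d) = 0 → c = 0)
    (hfin : ∀ d, Module.Finite (ZMod 2) (Hc Z d))
    (hle : ∀ d, Module.finrank (ZMod 2) (Hc Z d) ≤ (fin d).toFinset.card) : CBasis Z dg a := by
  refine ⟨hom, fin, fun d => ⟨li d, ?_⟩⟩
  have : Fintype {i | dg i = d} := (fin d).fintype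
  have : Module.Finite (ZMod 2) (Hc Z d) := hfin d
  have h1 := A4R4_li (li d)
  have h2 : Fintype.card {i | dg i = d} = Module.finrank (ZMod 2) (Hc Z d) := by
    refine le_antisymm h1.fintype_card_le_finrank ?_
    refine (hle d).trans (le_of_eq ?_)
    rw [Set.Finite.card_toFinset]
  have h3 := h1.span_eq_top_of_card_eq_finrank' h2
  intro y
  have h4 : y ∈ Submodule.span (ZMod 2) ((fun i : I => (a i d : Hc Z d)) '' {i | dg i = d}) := by
    rw [Set.image_eq_range, h3]
    trivial
  rw [Finsupp.mem_span_image_iff_linearCombination] at h4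
  obtain ⟨c, hc, hy⟩ := h4
  rw [Finsupp.linearCombination_apply] at hy
  exact ⟨c, A4R4_supp.2 hc, hy⟩

theorem CBasisAt.of_iso (f : Hom Z Z') (d : ℕ)
    (hf : Function.Bijective (SV.Hmap (linMap f) d)) (h : CBasisAt Z' dg' a' d) :
    CBasisAt Z dg' (fun i => CR.map f (a' i)) d := by
  have hb : Function.Bijective (Hc.map f d) := by
    have h1 := (LinearEquiv.ofBijective (SV.Hmap (linMap f) d) hf).dualMap.bijective
    exact h1
  have hs : ∀ c : I' →₀ ZMod 2, (c.sum fun i r => r • (CR.map f (a' i)) d) =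
      Hc.map f d (c.sum fun i r => r • a' i d) := by
    intro c
    rw [map_finsuppSum]
    refine Finset.sum_congr rfl fun i _ => ?_
    show c i • (CR.map f (a' i)) d = Hc.map f d (c i • a' i d)
    rw [map_smul]
    rfl
  refine ⟨fun c hc h0 => ?_, fun y => ?_⟩
  · rw [hs] at h0
    refine h.1 c hc (hb.1 ?_)
    rw [h0, map_zero]
  · obtain ⟨y', rfl⟩ := hb.2 y
    obtain ⟨c, hc, hy⟩ := h.2 y'
    exact ⟨c, hc, by rw [hs, hy]⟩

theorem CBasis.of_iso (f : Hom Z Z') (hf : ∀ d, Function.Bijective (SV.Hmap (linMap f) d))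
    (h : CBasis Z' dg' a') : CBasis Z dg' (fun i => CR.map f (a' i)) :=
  ⟨fun i => (h.hom i).map f, h.fin, fun d => (h.bas d).of_iso f d (hf d)⟩

theorem CBasis.reindex (h : CBasis Z dg a) (e : I' ≃ I) :
    CBasis Z (fun i => dg (e i)) (fun i => a (e i)) := by
  classical
  have key : ∀ (J J' : Type) (g : J ≃ J') (c : J →₀ ZMod 2) (d : ℕ) (b : J' → CR Z),
      ((Finsupp.mapDomain g c).sum fun i r => r • b i d) = c.sum fun i r => r • b (g i) d := by
    intro J J' g c d b
    rw [Finsupp.sum_mapDomain_index]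
    · intro i
      exact zero_smul _ _
    · intro i r r'
      exact add_smul _ _ _
  refine ⟨fun i => h.hom (e i), fun d => ?_, fun d => ⟨fun c hc h0 => ?_, fun y => ?_⟩⟩
  · exact (h.fin d).preimage e.injective.injOn
  · have h1 := (h.bas d).1 (Finsupp.mapDomain e c) (by
      intro i hi
      have h2 := hc (e.symm i)
      have h3 : (Finsupp.mapDomain e c) i = c (e.symm i) := by
        conv_lhs => rw [← e.apply_symm_apply i]
        exact Finsupp.mapDomain_apply e.injective c (e.symm i)
      rw [h3] at hi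
      have h4 : dg (e (e.symm i)) = d := h2 hi
      rwa [e.apply_symm_apply] at h4) (by
      rw [key]
      exact h0)
    refine Finsupp.mapDomain_injective e.injective ?_
    rw [h1, Finsupp.mapDomain_zero]
  · obtain ⟨c, hc, hy⟩ := (h.bas d).2 y
    refine ⟨Finsupp.mapDomain e.symm c, ?_, ?_⟩
    · intro i hi
      have h3 : (Finsupp.mapDomain e.symm c) i = c (e i) := by
        conv_lhs => rw [← e.symm_apply_apply i]
        exact Finsupp.mapDomain_apply e.symm.injective c (e i)
      rw [h3] at hi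
      exact hc (e i) hi
    · rw [key I I' e.symm c d (fun i => a (e i))]
      simp only [Equiv.apply_symm_apply]
      exact hy

theorem CBasis.congr (h : CBasis Z dg a) {dg2 : I → ℕ} {a2 : I → CR Z} (hd : ∀ i, dg2 i = dg i)
    (ha : ∀ i, a2 i = a i) : CBasis Z dg2 a2 := by
  obtain rfl : dg2 = dg := funext hd
  obtain rfl : a2 = a := funext ha
  exact h

private theorem A4R4_ext (h : CBasis Z dg a) {d : ℕ} {x x' : (lin Z).H d}
    (hx : ∀ i, dg i = d → a i d x = a i d x') : x = x' := by
  rw [← sub_eq_zero]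
  refine (Module.forall_dual_apply_eq_zero_iff (ZMod 2) (x - x')).1 fun φ => ?_
  obtain ⟨c, hc, hy⟩ := (h.bas d).2 φ
  rw [← hy, Finsupp.sum, LinearMap.sum_apply]
  refine Finset.sum_eq_zero fun i hi => ?_
  have h1 := hx i (hc i (Finsupp.mem_support_iff.1 hi))
  rw [LinearMap.smul_apply, map_sub]
  show c i • ((a i d) x - (a i d) x') = 0
  rw [h1, sub_self, smul_zero]

/-- the dual basis in homology -/
theorem CBasis.dual (h : CBasis Z dg a) : ∃ y : I → ∀ d, (lin Z).H d,
    (∀ i d, dg i ≠ d → y i d = 0) ∧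
    (∀ i j d, dg j = d → a j d (y i d) = open Classical in if i = j then 1 else 0) ∧
    ∀ d (x : (lin Z).H d), x = ∑ i ∈ (h.fin d).toFinset, (a i d x) • y i d := by
  classical
  have h0 : ∀ d, ∃ y : {i | dg i = d} → (lin Z).H d, ∀ i j : {i | dg i = d},
      a j.1 d (y i) = if i = j then 1 else 0 := by
    intro d
    have : Finite {i | dg i = d} := (h.fin d).to_subtype
    have : Module.Finite (ZMod 2) ((lin Z).H d) := h.finite_H d
    refine ⟨fun i => (Module.evalEquiv (ZMod 2) ((lin Z).H d)).symm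
      ((A4R4_b (h.bas d)).dualBasis i), fun i j => ?_⟩
    have h1 : ∀ (ψ : Module.Dual (ZMod 2) (Module.Dual (ZMod 2) ((lin Z).H d)))
        (φ : Module.Dual (ZMod 2) ((lin Z).H d)),
        φ ((Module.evalEquiv (ZMod 2) ((lin Z).H d)).symm ψ) = ψ φ := by
      intro ψ φ
      have h2 := (Module.evalEquiv (ZMod 2) ((lin Z).H d)).apply_symm_apply ψ
      exact LinearMap.congr_fun h2 φ
    have h3 := h1 ((A4R4_b (h.bas d)).dualBasis i) (a j.1 d)
    refine h3.trans ?_
    rw [← A4R4_b_apply (h.bas d) j, Module.Basis.dualBasis_apply_self]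
    simp only [eq_comm]
  choose y hy using h0
  set Y : I → ∀ d, (lin Z).H d := fun i d => if hi : dg i = d then y d ⟨i, hi⟩ else 0 with hY
  have hY1 : ∀ i d, dg i ≠ d → Y i d = 0 := by
    intro i d hi
    rw [hY]
    simp only [dif_neg hi]
  have hY2 : ∀ i j d, dg j = d → a j d (Y i d) = if i = j then 1 else 0 := by
    intro i j d hj
    by_cases hi : dg i = d
    · have h1 : Y i d = y d ⟨i, hi⟩ := by
        rw [hY]
        simp only [dif_pos hi]
      rw [h1]
      have h2 := hy d ⟨i, hi⟩ ⟨j, hj⟩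
      refine h2.trans ?_
      simp only [Subtype.mk.injEq]
    · rw [hY1 i d hi]
      have h1 : i ≠ j := fun hij => hi (hij ▸ hj)
      rw [if_neg h1]
      exact map_zero (a j d)
  refine ⟨Y, hY1, fun i j d hj => ?_, fun d x => ?_⟩
  · have h1 := hY2 i j d hj
    convert h1
  · refine A4R4_ext h fun j hj => ?_
    have h1 : a j d (∑ i ∈ (h.fin d).toFinset, (a i d x) • Y i d) =
        ∑ i ∈ (h.fin d).toFinset, (a i d x) • (a j d (Y i d)) := by
      rw [show (a j d) (∑ i ∈ (h.fin d).toFinset, (a i d x) • Y i d) =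
        ∑ i ∈ (h.fin d).toFinset, (a j d) ((a i d x) • Y i d) from map_sum (a j d) _ _]
      exact Finset.sum_congr rfl fun i _ => map_smul (a j d) _ _
    rw [h1, Finset.sum_eq_single j]
    · rw [hY2 j j d hj, if_pos rfl, smul_eq_mul, mul_one]
    · intro i _ hij
      rw [hY2 i j d hj, if_neg hij, smul_zero]
    · intro hj'
      exact absurd ((h.fin d).mem_toFinset.2 (show j ∈ {i | dg i = d} from hj)) hj'

/-- homogeneous elements of a ring with a basis are detected by it: two classes in homology with the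
same values on the basis are equal -/
theorem CBasis.ext_H (h : CBasis Z dg a) {d : ℕ} {x x' : (lin Z).H d}
    (hx : ∀ i, dg i = d → a i d x = a i d x') : x = x' :=
  A4R4_ext h hx

end MM
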