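import Pool.Agent.Lib_MP_33f7bb_d.A3Box

/-!
# A4Ring: cohomology rings of simplicial sets (definitions)

`CR Z = ∏_n Hc Z n` with the cup product: pull back of `boxF` along the diagonal
`lin Z → lin Z ⊗ lin Z`, `[x] ↦ [x] ⊗ [x]`.  The ring axioms are proved in `A4R1`.
-/

open scoped TensorProduct

namespace MM

/-- the diagonal `[x] ↦ [x] ⊗ [x]` -/
noncomputable def linDiag (Z : SS) : SVHom (lin Z) ((lin Z).tens (lin Z)) :=
  linHom (W := (lin Z).tens (lin Z)) ⟨fun n x => (Finsupp.single x 1 : Ch Z n) ⊗ₜ[ZMod 2]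
      (Finsupp.single x 1 : Ch Z n),
    fun {m n} f x => by
    show _ = TensorProduct.map _ _ (_ ⊗ₜ[ZMod 2] _)
    rw [TensorProduct.map_tmul, Finsupp.lmapDomain_apply, Finsupp.mapDomain_single]⟩

@[simp] theorem linDiag_single (Z : SS) (n : ℕ) (x : Z.S n) :
    (linDiag Z).app n (Finsupp.single x 1) =
      (Finsupp.single x 1 : Ch Z n) ⊗ₜ[ZMod 2] (Finsupp.single x 1 : Ch Z n) := by
  show linExt _ n (Finsupp.single x 1) = _
  rw [linExt_single, one_smul]

/-- cup product of homogeneous cohomology classes (zero unless `p + q = n`) -/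
noncomputable def cup {Z : SS} {p q : ℕ} (n : ℕ) (a : Hc Z p) (b : Hc Z q) : Hc Z n :=
  (boxF n a b).comp (SV.Hmap (linDiag Z) n)

/-- pull back of cohomology classes -/
noncomputable def Hc.map {Z Z' : SS} (f : Hom Z Z') (n : ℕ) : Hc Z' n →ₗ[ZMod 2] Hc Z n :=
  (SV.Hmap (linMap f) n).dualMap

/-- the augmentation as a class in `H^0` -/
noncomputable def Hc.unit (Z : SS) : Hc Z 0 :=
  Submodule.liftQ _ ((Finsupp.linearCombination (ZMod 2) (fun _ : Z.S 0 => (1 : ZMod 2))).comp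
    ((lin Z).Z 0).subtype) (by
    rintro ⟨z, hz⟩ ⟨w, hw⟩
    rw [LinearMap.mem_ker, LinearMap.comp_apply]
    have hw' : (lin Z).d 0 w = z := hw
    show Finsupp.linearCombination (ZMod 2) (fun _ : Z.S 0 => (1 : ZMod 2)) z = 0
    rw [← hw']
    have h1 : (Finsupp.linearCombination (ZMod 2) (fun _ : Z.S 0 => (1 : ZMod 2))).comp
        ((lin Z).d 0) = 0 := by
      refine Finsupp.lhom_ext fun x r => ?_
      simp only [LinearMap.comp_apply, SV.d, LinearMap.sum_apply, Finsupp.lmapDomain_apply,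
        Finsupp.mapDomain_single, map_sum, Finsupp.linearCombination_single,
        LinearMap.zero_apply]
      rw [Finset.sum_const, Finset.card_univ, Fintype.card_fin, nsmul_eq_mul]
      have h2 : ((0 + 2 : ℕ) : ZMod 2) = 0 := rfl
      rw [h2, zero_mul]
    exact LinearMap.congr_fun h1 w)

theorem Hc.unit_cls {Z : SS} (z : (lin Z).V 0) (hz : z ∈ (lin Z).Z 0) :
    Hc.unit Z ((lin Z).cls z hz) = z.sum fun _ r => r := by
  show Finsupp.linearCombination (ZMod 2) (fun _ : Z.S 0 => (1 : ZMod 2)) z = _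
  rw [Finsupp.linearCombination_apply]
  simp

/-- the cohomology ring (as a type) -/
def CR (Z : SS) := ∀ n, Hc Z n

noncomputable instance (Z : SS) : AddCommGroup (CR Z) := inferInstanceAs (AddCommGroup (∀ n, Hc Z n))
noncomputable instance (Z : SS) : Module (ZMod 2) (CR Z) :=
  inferInstanceAs (Module (ZMod 2) (∀ n, Hc Z n))

/-- multiplication -/
noncomputable instance (Z : SS) : Mul (CR Z) :=
  ⟨fun a b n => ∑ k ∈ Finset.range (n + 1), cup n (a k) (b (n - k))⟩

/-- the unit -/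
noncomputable instance (Z : SS) : One (CR Z) :=
  ⟨fun n => if h : n = 0 then h ▸ Hc.unit Z else 0⟩

/-- a homogeneous class as an element of the ring -/
noncomputable def CR.hom {Z : SS} (n : ℕ) : Hc Z n →ₗ[ZMod 2] CR Z :=
  LinearMap.single (ZMod 2) (fun n => Hc Z n) n

/-- component -/
noncomputable def CR.cmp {Z : SS} (n : ℕ) : CR Z →ₗ[ZMod 2] Hc Z n := LinearMap.proj (R := ZMod 2) (φ := fun n => Hc Z n) n

/-- the projection `lin Z → R Z` -/
noncomputable abbrev R.pr {Z : SS} (z₀ : Z.S 0) : SVHom (lin Z) (R Z z₀) := (linSub (Sub.pt z₀)).proj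

@[simp] theorem R.pr_single {Z : SS} (z₀ : Z.S 0) (n : ℕ) (x : Z.S n) :
    (R.pr z₀).app n (Finsupp.single x 1) = (R.of z₀).app n x := rfl

/-- reduced cohomology classes as cohomology classes -/
noncomputable def red {Z : SS} (z₀ : Z.S 0) (n : ℕ) :
    Module.Dual (ZMod 2) ((R Z z₀).H n) →ₗ[ZMod 2] Hc Z n := (SV.Hmap (R.pr z₀) n).dualMap

theorem CR.mul_apply {Z : SS} (a b : CR Z) (n : ℕ) :
    (a * b) n = ∑ k ∈ Finset.range (n + 1), cup n (a k) (b (n - k)) := rfl

theorem CR.one_zero (Z : SS) : (1 : CR Z) 0 = Hc.unit Z := rfl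

theorem CR.one_succ (Z : SS) (n : ℕ) : (1 : CR Z) (n + 1) = 0 := rfl

end MM
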