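import Pool.Agent.Lib_MP_33f7bb_d.A4L3
import Pool.Agent.Lib_MP_33f7bb_d.A3Bar
import Pool.Agent.Lib_MP_33f7bb_d.A3EM
import Pool.Agent.Lib_MP_33f7bb_d.A4B1

/-!
# A4-34: the classes `zC S b ∈ H^*(KL n)`, `b ∈ Orb n`

`iotaK n = fundC (KLev n)`, reduced fundamental class.  `thb b : Op n (wtO b)` an operation with `thb b (x_1 ⋯ x_n) = orbM b`
(`exists_op`), `zR S b = thb b (iotaK n)`, `zC S b` its image in the ring `CR`.

`zR_pull`: for a pointed `f : Z → KL n`: `f^* (zR S b) = (thb b).ev (f^* iotaK)` (`Op.ev_nat` for `RAM.map`).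
`zC_prim`: `add, fst, snd : K × K → K` are pointed; `muV ∘ R(add) = muV ∘ R(fst) + muV ∘ R(snd)` on generators (`R.ext`-like, the sum of the values), so
`add^* iotaK = fst^* iotaK + snd^* iotaK`; apply the linear map `(thb b).ev` and `red_nat`.
`exists_rM` (`n ≥ 1`): `Ψ` from `exists_PsiE`, `y = Ψ (x_1 ⋯ x_n)`; by `em_surj_pt` (`KL_isEM`) there is a pointed map `a` with
`clR (KLev n) a = y`, and `clR u a = (fundC u) ∘ H(R.map a)` (`R.ext`: `muV ∘ R.map a = R.lift a`).  Then `a^* (zR S b) = (thb b).ev y =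
Ψ ((thb b).ev (EAM n) gen) = Ψ (orbM b)` (`Op.ev_nat`), whose image in `CR` is `pol (blk M n (orbM b))`; and `red_nat`, `CR.map_hom`.
-/

open scoped TensorProduct

namespace MM

/-- the reduced fundamental class of `KL n` -/
noncomputable def iotaK (n : ℕ) : RHc (KL n) n := fundC (KLev n)

/-- an operation producing the orbit sum -/
noncomputable def thb {n : ℕ} (b : Orb n) : Op n (wtO b) :=
  Classical.choose (exists_op n (wtO b) (⟨orbM b, orbM_mem b rfl⟩ : EE n (wtO b)))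

theorem thb_ev {n : ℕ} (b : Orb n) :
    (thb b).ev (EAM n) (EAM.gen n) = (⟨orbM b, orbM_mem b rfl⟩ : EE n (wtO b)) :=
  Classical.choose_spec (exists_op n (wtO b) (⟨orbM b, orbM_mem b rfl⟩ : EE n (wtO b)))

/-- the reduced class `z_b` -/
noncomputable def zR (S : SqFam) {n : ℕ} (b : Orb n) : RHc (KL n) (wtO b) :=
  (thb b).ev (RAM S (KL n).ss (KL n).zv) (iotaK n)

/-- the class `z_b` in the cohomology ring -/
noncomputable def zC (S : SqFam) {n : ℕ} (b : Orb n) : CR (KL n).ss :=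
  CR.hom (wtO b) (red (KL n).zv (wtO b) (zR S b))

theorem zC_isHom (S : SqFam) {n : ℕ} (b : Orb n) : CR.IsHom (wtO b) (zC S b) :=
  CR.isHom_hom _ _

/-- pull back of the class `z_b` in the ring -/
private theorem A4S1_map (S : SqFam) {n : ℕ} (b : Orb n) {Z : SS} (z₀ : Z.S 0) (f : Hom Z (KL n).ss)
    (hf : f.app 0 z₀ = (KL n).zv) :
    CR.map f (zC S b) = CR.hom (wtO b) (red z₀ (wtO b)
      ((zR S b).comp (SV.Hmap (R.map z₀ (KL n).zv f hf) (wtO b)))) := by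
  unfold zC
  rw [CR.map_hom, red_nat z₀ (KL n).zv f hf]

theorem zR_pull (S : SqFam) {n : ℕ} (b : Orb n) {Z : SS} (z₀ : Z.S 0) (f : Hom Z (KL n).ss)
    (hf : f.app 0 z₀ = (KL n).zv) :
    (zR S b).comp (SV.Hmap (R.map z₀ (KL n).zv f hf) (wtO b)) =
      (thb b).ev (RAM S Z z₀) ((iotaK n).comp (SV.Hmap (R.map z₀ (KL n).zv f hf) n)) :=
  Op.ev_nat (RAM.map S z₀ (KL n).zv f hf) (thb b) (iotaK n)

/-- the pull back of the fundamental class -/
private theorem A4S1_iota {n : ℕ} {Z : SS} (z₀ : Z.S 0) (f : Hom Z (KL n).ss)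
    (hf : f.app 0 z₀ = (KL n).zv) :
    (iotaK n).comp (SV.Hmap (R.map z₀ (KL n).zv f hf) n) = clR (KLev n) f hf := by
  have h : (muV (KL n)).comp (R.map z₀ (KL n).zv f hf) = R.lift z₀ f hf := by
    apply R.ext
    intro m x
    rw [R.lift_of]
    show (muV (KL n)).app m ((R.map z₀ (KL n).zv f hf).app m ((R.of z₀).app m x)) = f.app m x
    rw [R.map_of, muV_of]
  unfold iotaK fundC clR
  rw [← h]
  apply LinearMap.ext
  intro x
  show KLev n (SV.Hmap (muV (KL n)) n (SV.Hmap (R.map z₀ (KL n).zv f hf) n x)) =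
    KLev n (SV.Hmap ((muV (KL n)).comp (R.map z₀ (KL n).zv f hf)) n x)
  rw [SV.Hmap_comp]

private theorem A4S1_add {n : ℕ} {V : SV} (u : Module.Dual (ZMod 2) (V.H n)) {Z : SS} (z₀ : Z.S 0)
    (f g h : Hom Z V.ss) (hf : f.app 0 z₀ = V.zv) (hg : g.app 0 z₀ = V.zv) (hh : h.app 0 z₀ = V.zv)
    (H : ∀ m x, f.app m x = (g.app m x + h.app m x : V.V m)) :
    clR u f hf = clR u g hg + clR u h hh := by
  have key : ∀ m (x : (R Z z₀).V m), (R.lift z₀ f hf).app m x =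
      (R.lift z₀ g hg).app m x + (R.lift z₀ h hh).app m x := by
    intro m x
    have hx : x ∈ Submodule.span (ZMod 2) (Set.range ((R.of z₀).app m)) := by
      rw [R.span]; trivial
    induction hx using Submodule.span_induction with
    | mem x hx =>
      obtain ⟨y, rfl⟩ := hx
      rw [R.lift_of, R.lift_of, R.lift_of]
      exact H m y
    | zero => rw [map_zero, map_zero, map_zero, add_zero]
    | add a b _ _ ha hb =>
      rw [map_add, map_add, map_add, ha, hb]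
      abel
    | smul r a _ ha => rw [map_smul, map_smul, map_smul, ha, smul_add]
  apply LinearMap.ext
  intro w
  obtain ⟨⟨z, hz⟩, rfl⟩ := Submodule.Quotient.mk_surjective _ w
  show u (V.cls ((R.lift z₀ f hf).app n z) ((R.lift z₀ f hf).map_Z hz)) =
    u (V.cls ((R.lift z₀ g hg).app n z) ((R.lift z₀ g hg).map_Z hz)) +
      u (V.cls ((R.lift z₀ h hh).app n z) ((R.lift z₀ h hh).map_Z hz))
  rw [← map_add]
  congr 1
  have e : ∀ (a b c : V.V n) (ha : a ∈ V.Z n) (hb : b ∈ V.Z n) (hc : c ∈ V.Z n), a = b + c →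
      V.cls a ha = V.cls b hb + V.cls c hc := by
    rintro a b c ha hb hc rfl
    rfl
  exact e _ _ _ _ _ _ (key n z)

theorem zC_prim (S : SqFam) {n : ℕ} (b : Orb n) :
    CR.map (addHom (KL n)) (zC S b) =
      CR.map (Hom.fst (KL n).ss (KL n).ss) (zC S b) +
        CR.map (Hom.snd (KL n).ss (KL n).ss) (zC S b) := by
  have h0 : (addHom (KL n)).app 0 ((KL n).zv, (KL n).zv) = (KL n).zv := add_zero (0 : (KL n).V 0)
  have h1 : (Hom.fst (KL n).ss (KL n).ss).app 0 ((KL n).zv, (KL n).zv) = (KL n).zv := rfl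
  have h2 : (Hom.snd (KL n).ss (KL n).ss).app 0 ((KL n).zv, (KL n).zv) = (KL n).zv := rfl
  rw [A4S1_map S b (Z := (KL n).ss.prod (KL n).ss) ((KL n).zv, (KL n).zv) (addHom (KL n)) h0,
    A4S1_map S b ((KL n).zv, (KL n).zv) (Hom.fst (KL n).ss (KL n).ss) h1,
    A4S1_map S b ((KL n).zv, (KL n).zv) (Hom.snd (KL n).ss (KL n).ss) h2,
    zR_pull, zR_pull, zR_pull, A4S1_iota, A4S1_iota, A4S1_iota,
    A4S1_add (KLev n) ((KL n).zv, (KL n).zv) (addHom (KL n)) (Hom.fst (KL n).ss (KL n).ss)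
      (Hom.snd (KL n).ss (KL n).ss) h0 h1 h2 (fun _ _ => rfl)]
  have e : (thb b).ev (RAM S ((KL n).ss.prod (KL n).ss) ((KL n).zv, (KL n).zv))
      (clR (KLev n) (Hom.fst (KL n).ss (KL n).ss) h1 + clR (KLev n) (Hom.snd (KL n).ss (KL n).ss) h2) =
      (thb b).ev (RAM S ((KL n).ss.prod (KL n).ss) ((KL n).zv, (KL n).zv))
        (clR (KLev n) (Hom.fst (KL n).ss (KL n).ss) h1) +
      (thb b).ev (RAM S ((KL n).ss.prod (KL n).ss) ((KL n).zv, (KL n).zv))
        (clR (KLev n) (Hom.snd (KL n).ss (KL n).ss) h2) := map_add _ _ _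
  rw [e]
  exact (congrArg (CR.hom (wtO b)) (map_add (red _ (wtO b)) _ _)).trans (map_add (CR.hom (wtO b)) _ _)

theorem exists_rM (S : SqFam) (M n : ℕ) (hn : 1 ≤ n) :
    ∃ a : Hom (Bpow (Fin M × Fin n)) (KL n).ss, a.app 0 (Bpt _) = (KL n).zv ∧
      ∀ b : Orb n, CR.map a (zC S b) = pol (Fin M × Fin n) (blk M n (orbM b)) := by
  obtain ⟨Ψ, hΨ⟩ := exists_PsiE S M n hn
  obtain ⟨a, ha, hay⟩ := em_surj_pt (KL_isEM n) (Z := Bpow (Fin M × Fin n)) (Bpt _)
    (Ψ.app n (EAM.gen n))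
  refine ⟨a, ha, fun b => ?_⟩
  rw [A4S1_map S b (Bpt _) a ha, zR_pull, A4S1_iota, hay]
  have h1 := Op.ev_nat Ψ (thb b) (EAM.gen n)
  rw [thb_ev] at h1
  have h2 := hΨ (wtO b) (⟨orbM b, orbM_mem b rfl⟩ : EE n (wtO b))
  rw [← h2]
  congr 2
  exact h1.symm

end MM
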