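import Pool.Agent.Lib_MP_33f7bb_d.A4S1
import Pool.Agent.Lib_MP_33f7bb_d.A4L2
import Pool.Agent.Lib_MP_33f7bb_d.A4B8

/-!
# A4-35: (LB) and (S1): the square free monomials in the `z_b` form a basis of `H^*(KL n)`

`zD_li` (`n ≥ 1`): in `CR (KL n).ss`: if `∑ c_D z_D = 0`, `z_D = ∏_(b ∈ D) z_b`, apply `CR.map a` for `a` from `exists_rM`: a ring homomorphism, so
`pol (∑ c_D ∏ blk M n (orbM b)) = 0` for all `M`; `pol_injective`, `PD_li`.
`KL_simple` by induction on `n`.
`n = 0`: `KL 0 = cstV (ZMod 2)`, one orbit `b₀ = Sym.nil` of weight `0`, `D ∈ {∅, {b₀}}`.  `zR S b₀ = iotaK 0`: for every word `w : Wop 0 0`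
and every `AM` the map `w.ev` is `0` or the identity, the same for all `AM`s (a word through a degree `p > 0` is zero:
`unst`; `Sq 0 0 = id`: induction on words: a word `Wop 0 d` evaluates to `0` in all AMs if `d > 0`), so
`(thb b₀).ev = r • id` with the same `r` for all AMs; in `E(0)` it maps `gen` to `orbM b₀ = gen`, so `r = 1`.
The simplicial set `KL 0` is constant with two points: `H_d (lin) = 0` for `d > 0` (as `cstV_homology`), `H_0 (lin) = Ch` has dimension `2`;
`1` and `z` are the functionals `(1, 1)` and `(0, 1)` on the two points.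
Step: `n → n + 1`, `V = KL n`, `KL (n+1) = barV V`.  `UB` (hypotheses: induction, `zC_prim`): `H_d (RV (KL (n+1)))` is finite dimensional of
dimension at most the number of nonempty `D ⊆ Orb (n+1)` of weight `d`.  For `d ≥ 1`: `Hc (KL (n+1)).ss d` has the same dimension
(`Hmap_pr_surj`, `Hmap_pr_inj`) and `D` of weight `d` is automatically nonempty.  For `d = 0`: `(KL (n+1)).V 0 = 0` (`barV_zero`), so the
simplicial set has one vertex and `Hc _ 0` has dimension `≤ 1`; the only `D` of weight `0` is `∅` (`le_wtO`, `n + 1 ≥ 1`).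
`CBasis.of_le` with `zD_li` (a relation between the components of degree `d` is a relation in `CR`, as the `z_D` are homogeneous), finiteness:
`finset_orb_fin`.
`KL_detect` (`n ≥ 1`): a class `x` of degree `d` with `a^* x = 0` for all maps `a : B^(M × n) → KL n`: `x = ∑ c_D z_D`, as in `zD_li` all `c_D = 0`.
-/

open scoped TensorProduct

namespace MM

private theorem A4S2_cmp {Z : SS} {I : Type} (a : I → CR Z) (c : I →₀ ZMod 2) (m : ℕ) :
    (c.sum fun i r => r • a i) m = c.sum fun i r => r • (a i m : Hc Z m) := by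
  show CR.cmp m (c.sum fun i r => r • a i) = _
  rw [map_finsuppSum]
  rfl

private theorem A4S2_isHom {Z : SS} {I : Type} {dg : I → ℕ} {a : I → CR Z}
    (hom : ∀ i, CR.IsHom (dg i) (a i)) {d : ℕ} {c : I →₀ ZMod 2} (hc : ∀ i, c i ≠ 0 → dg i = d) :
    CR.IsHom d (c.sum fun i r => r • a i) := by
  intro m hm
  rw [A4S2_cmp]
  refine Finset.sum_eq_zero fun i hi => ?_
  have h1 : dg i = d := hc i (Finsupp.mem_support_iff.1 hi)
  show c i • (a i m : Hc Z m) = 0
  rw [hom i m (by rw [h1]; exact hm), smul_zero]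

private theorem A4S2_eq_hom {Z : SS} {I : Type} {dg : I → ℕ} {a : I → CR Z}
    (hom : ∀ i, CR.IsHom (dg i) (a i)) {d : ℕ} {c : I →₀ ZMod 2} (hc : ∀ i, c i ≠ 0 → dg i = d) :
    (c.sum fun i r => r • a i) = CR.hom d (c.sum fun i r => r • (a i d : Hc Z d)) := by
  rw [(A4S2_isHom hom hc).eq, A4S2_cmp]

/-- products of the `z_b` are homogeneous -/
private theorem A4S2_prodHom (S : SqFam) {n : ℕ} (D : Finset (Orb n)) :
    CR.IsHom (∑ b ∈ D, wtO b) (∏ b ∈ D, zC S b) :=
  CR.IsHom.prod D wtO (fun b => zC S b) fun b _ => zC_isHom S b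

private theorem A4S2_key (S : SqFam) {n : ℕ} (hn : 1 ≤ n) (c : Finset (Orb n) →₀ ZMod 2)
    (h : ∀ (M : ℕ) (a : Hom (Bpow (Fin M × Fin n)) (KL n).ss), a.app 0 (Bpt _) = (KL n).zv →
      (∀ b : Orb n, CR.map a (zC S b) = pol (Fin M × Fin n) (blk M n (orbM b))) →
      CR.map a (c.sum fun D r => r • ∏ b ∈ D, zC S b) = 0) : c = 0 := by
  refine PD_li hn c fun M => ?_
  obtain ⟨a, ha, hab⟩ := exists_rM S M n hn
  have h1 := h M a ha hab
  apply pol_injective (Fin M × Fin n)
  rw [map_zero, ← h1, map_finsuppSum, map_finsuppSum]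
  refine Finset.sum_congr rfl fun D _ => ?_
  show pol _ (c D • ∏ b ∈ D, blk M n (orbM b)) = CR.map a (c D • ∏ b ∈ D, zC S b)
  rw [map_smul, CR.map_smul, map_prod, map_prod]
  congr 1
  exact Finset.prod_congr rfl fun b _ => (hab b).symm

theorem zD_li (S : SqFam) {n : ℕ} (hn : 1 ≤ n) (c : Finset (Orb n) →₀ ZMod 2)
    (h : (c.sum fun D r => r • ∏ b ∈ D, zC S b) = 0) : c = 0 := by
  refine A4S2_key S hn c fun M a _ _ => ?_
  rw [h, map_zero]

/-- dimension of the cohomology of an object with one vertex -/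
private theorem A4S2_zero (V : SV) : Module.Finite (ZMod 2) ((lin (barV V).ss).H 0) ∧
    Module.finrank (ZMod 2) ((lin (barV V).ss).H 0) ≤ 1 := by
  have hs : Subsingleton ((barV V).ss.S 0) := ⟨fun a b => by
    rw [barV_zero V a, barV_zero V b]⟩
  let u : Unique ((barV V).ss.S 0) := ⟨⟨(0 : (barV V).V 0)⟩, fun a => hs.elim a _⟩
  have h1 : Module.Finite (ZMod 2) (Ch (barV V).ss 0) := Module.Finite.finsupp
  have h2 : Module.finrank (ZMod 2) (Ch (barV V).ss 0) = 1 := by
    exact (Module.finrank_finsupp_self (ZMod 2)).trans Fintype.card_unique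
  have h3 : Module.Finite (ZMod 2) ((lin (barV V).ss).V 0) := h1
  refine ⟨inferInstance, ?_⟩
  refine (Submodule.finrank_quotient_le _).trans ?_
  refine (Submodule.finrank_le _).trans ?_
  exact h2.le

/-- words and operations of degree `0` -/
private theorem A4S2_word {d : ℕ} (w : Wop 0 d) : ∃ r : ZMod 2, ∀ (M : AM) (x : M.M 0),
    w.ev M x = r • M.Sq 0 d x := by
  induction w with
  | nil =>
    refine ⟨1, fun M x => ?_⟩
    rw [M.Sq_id, one_smul]
    rfl
  | @cons p w d ih =>
    obtain ⟨r, hr⟩ := ih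
    rcases Nat.eq_zero_or_pos p with rfl | hp
    · refine ⟨r, fun M x => ?_⟩
      show M.Sq 0 d (w.ev M x) = _
      rw [hr, M.Sq_id, map_smul]
      rfl
    · refine ⟨0, fun M x => ?_⟩
      show M.Sq p d (w.ev M x) = _
      rw [hr, M.unst 0 p (by omega), LinearMap.zero_apply, smul_zero, map_zero, zero_smul]

private theorem A4S2_op {d : ℕ} (θ : Op 0 d) : ∃ r : ZMod 2, ∀ (M : AM) (x : M.M 0),
    θ.ev M x = r • M.Sq 0 d x := by
  choose r hr using fun w : Wop 0 d => A4S2_word w
  refine ⟨θ.sum fun w c => c * r w, fun M x => ?_⟩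
  have h1 : θ.ev M x = θ.sum fun w c => c • w.ev M x := by
    rw [Op.ev, Finsupp.sum, LinearMap.sum_apply]
    rfl
  rw [h1, Finsupp.sum, Finsupp.sum, Finset.sum_smul]
  refine Finset.sum_congr rfl fun w _ => ?_
  rw [hr, smul_smul]

private theorem A4S2_zmod (r : ZMod 2) : r = 0 ∨ r = 1 := by
  revert r; decide

private theorem A4S2_orb0 (b : Orb 0) : b = Sym.nil := Sym.eq_nil_of_card_zero b

private theorem A4S2_wt0 (b : Orb 0) : wtO b = 0 := by
  rw [A4S2_orb0 b]
  rfl

private theorem A4S2_iota (x : ZMod 2) :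
    iotaK 0 ((RV (KL 0)).cls ((R.of (KL 0).zv).app 0 x) Submodule.mem_top) = x := by
  show KLev0 ((cstV (ZMod 2)).cls ((muV (KL 0)).app 0 ((R.of (KL 0).zv).app 0 x)) Submodule.mem_top) = x
  have h1 : (muV (KL 0)).app 0 ((R.of (KL 0).zv).app 0 x) = x := muV_of (KL 0) 0 x
  exact h1

/-- the value of `z` -/
private theorem A4S2_val (S : SqFam) (b : Orb 0) (x : ZMod 2) :
    (zC S b 0 : Hc (KL 0).ss 0) (vcls (Z := (KL 0).ss) x) = x := by
  obtain ⟨r, hr⟩ := A4S2_op (thb b)
  have hr1 : r = 1 := by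
    rcases A4S2_zmod r with h | h
    · exfalso
      have h1 := hr (EAM 0) (EAM.gen 0)
      rw [h, zero_smul, thb_ev] at h1
      have h2 : orbM b = 0 := congrArg Subtype.val h1
      have h3 := orbM_apply b (fun i => i.elim0)
      rw [h2, if_pos (by rw [A4S2_orb0 b]; exact A4S2_orb0 _)] at h3
      exact absurd h3 (by simp)
    · exact h
  have h2 : zR S b = (RAM S (KL 0).ss (KL 0).zv).Sq 0 (wtO b) (iotaK 0) := by
    unfold zR
    rw [hr, hr1, one_smul]
  unfold zC
  rw [h2]
  have key : ∀ d : ℕ, d = 0 → (CR.hom d (red (KL 0).zv d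
      ((RAM S (KL 0).ss (KL 0).zv).Sq 0 d (iotaK 0))) 0 : Hc (KL 0).ss 0)
        (vcls (Z := (KL 0).ss) x) = x := by
    rintro d rfl
    rw [(RAM S (KL 0).ss (KL 0).zv).Sq_id]
    exact A4S2_iota x
  exact key _ (A4S2_wt0 b)

private theorem A4S2_unit (x : (KL 0).ss.S 0) : Hc.unit (KL 0).ss (vcls x) = 1 := by
  unfold vcls
  rw [Hc.unit_cls, Finsupp.sum_single_index rfl]

/-- functionals on `H_0` -/
private theorem A4S2_ext {Z : SS} {y y' : Hc Z 0} (h : ∀ x, y (vcls x) = y' (vcls x)) : y = y' := by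
  apply LinearMap.ext
  intro w
  obtain ⟨⟨z, hz⟩, rfl⟩ := Submodule.Quotient.mk_surjective _ w
  have key : ∀ z : Ch Z 0, y ((lin Z).cls z Submodule.mem_top) = y' ((lin Z).cls z Submodule.mem_top) := by
    intro z
    induction z using Finsupp.induction_linear with
    | zero =>
      have h0 : (lin Z).cls (0 : Ch Z 0) Submodule.mem_top = 0 := rfl
      rw [h0, map_zero, map_zero]
    | add a b ha hb =>
      have h0 : (lin Z).cls (a + b : Ch Z 0) Submodule.mem_top =
        (lin Z).cls a Submodule.mem_top + (lin Z).cls b Submodule.mem_top := rfl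
      rw [h0, map_add, map_add, ha, hb]
    | single x r =>
      have h0 : (lin Z).cls (Finsupp.single x r : Ch Z 0) Submodule.mem_top = r • vcls x := by
        have h1 : (Finsupp.single x r : Ch Z 0) = r • Finsupp.single x 1 := by
          rw [Finsupp.smul_single, smul_eq_mul, mul_one]
        have h2 : ∀ z z' : Ch Z 0, z = z' → (lin Z).cls z Submodule.mem_top =
          (lin Z).cls z' Submodule.mem_top := by
          rintro z _ rfl
          rfl
        rw [h2 _ _ h1]
        rfl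
      rw [h0, map_smul, map_smul, h]
  exact key z

private theorem A4S2_d (j : ℕ) (z : (lin (KL 0).ss).V (j + 1)) :
    (lin (KL 0).ss).d j z = (cstV (ZMod 2 →₀ ZMod 2)).d j z := by
  unfold SV.d
  rw [LinearMap.sum_apply, LinearMap.sum_apply]
  refine Finset.sum_congr rfl fun i _ => ?_
  show Finsupp.mapDomain (fun x => x) z = z
  exact Finsupp.mapDomain_id

private theorem A4S2_high (j : ℕ) (y : Hc (KL 0).ss (j + 1)) : y = 0 := by
  apply LinearMap.ext
  intro w
  obtain ⟨⟨z, hz⟩, rfl⟩ := Submodule.Quotient.mk_surjective _ w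
  have hz' : z ∈ (cstV (ZMod 2 →₀ ZMod 2)).Z (j + 1) := by
    have h1 : (lin (KL 0).ss).d j z = 0 := hz
    rw [A4S2_d] at h1
    exact h1
  obtain ⟨v, hv⟩ := cstV_homology (ZMod 2 →₀ ZMod 2) j z hz'
  have hB : z ∈ (lin (KL 0).ss).B (j + 1) := ⟨v, by rw [A4S2_d]; exact hv⟩
  have h0 : (Submodule.Quotient.mk (⟨z, hz⟩ : (lin (KL 0).ss).Z (j + 1)) : (lin (KL 0).ss).H (j + 1)) = 0 :=
    (Submodule.Quotient.mk_eq_zero _).2 hB
  rw [h0, map_zero, map_zero]

private theorem A4S2_base (S : SqFam) : CSimple (KL 0).ss (wtO : Orb 0 → ℕ) (fun b => zC S b) := by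
  classical
  have hD : ∀ D : Finset (Orb 0), D = ∅ ∨ D = {Sym.nil} := by
    intro D
    rcases Finset.eq_empty_or_nonempty D with h | ⟨b, hb⟩
    · exact Or.inl h
    · right
      ext b'
      rw [Finset.mem_singleton, A4S2_orb0 b', ← A4S2_orb0 b]
      exact ⟨fun _ => rfl, fun _ => hb⟩
  have hw : ∀ D : Finset (Orb 0), ∑ b ∈ D, wtO b = 0 := fun D =>
    Finset.sum_eq_zero fun b _ => A4S2_wt0 b
  have hne : (∅ : Finset (Orb 0)) ≠ {Sym.nil} := (Finset.singleton_ne_empty _).symm
  have huniv : (Finset.univ : Finset (Finset (Orb 0))) = {∅, {Sym.nil}} := by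
    ext D
    rw [Finset.mem_insert, Finset.mem_singleton]
    exact ⟨fun _ => hD D, fun _ => Finset.mem_univ _⟩
  have hsum : ∀ (c : Finset (Orb 0) →₀ ZMod 2) (x : ZMod 2),
      (c.sum fun D r => r • ((∏ b ∈ D, zC S b : CR (KL 0).ss) 0 : Hc (KL 0).ss 0))
        (vcls (Z := (KL 0).ss) x) = c ∅ + c {Sym.nil} * x := by
    intro c x
    have h1 : (c.sum fun D r => r • ((∏ b ∈ D, zC S b : CR (KL 0).ss) 0 : Hc (KL 0).ss 0)) =
        ∑ D, c D • ((∏ b ∈ D, zC S b : CR (KL 0).ss) 0 : Hc (KL 0).ss 0) :=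
      Finsupp.sum_fintype c (fun D r => r • ((∏ b ∈ D, zC S b : CR (KL 0).ss) 0 : Hc (KL 0).ss 0))
        (fun D => zero_smul _ _)
    rw [h1, huniv, Finset.sum_pair hne, Finset.prod_empty, Finset.prod_singleton]
    show c ∅ * Hc.unit (KL 0).ss (vcls (Z := (KL 0).ss) x) +
      c {Sym.nil} * (zC S (Sym.nil : Orb 0) 0 : Hc (KL 0).ss 0) (vcls (Z := (KL 0).ss) x) = _
    rw [A4S2_val, A4S2_unit, mul_one]
  refine ⟨fun D => A4S2_prodHom S D, finset_orb_fin 0, fun d => ?_⟩
  cases d with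
  | zero =>
    constructor
    · intro c _ hs
      have h0 := hsum c 0
      have h1 := hsum c 1
      rw [hs, LinearMap.zero_apply, mul_zero, add_zero] at h0
      rw [hs, LinearMap.zero_apply, mul_one, ← h0, zero_add] at h1
      ext D
      rcases hD D with rfl | rfl
      · exact h0.symm
      · exact h1.symm
    · intro y
      refine ⟨Finsupp.single ∅ (y (vcls (Z := (KL 0).ss) (0 : ZMod 2))) +
        Finsupp.single {Sym.nil} (y (vcls (Z := (KL 0).ss) (0 : ZMod 2)) +
          y (vcls (Z := (KL 0).ss) (1 : ZMod 2))), fun D _ => hw D, ?_⟩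
      apply A4S2_ext
      intro x
      rw [hsum]
      rw [Finsupp.add_apply, Finsupp.add_apply, Finsupp.single_eq_same, Finsupp.single_eq_same,
        Finsupp.single_eq_of_ne hne, Finsupp.single_eq_of_ne hne.symm, add_zero, zero_add]
      rcases A4S2_zmod x with rfl | rfl
      · rw [mul_zero, add_zero]
      · rw [mul_one, ← add_assoc, CharTwo.add_self_eq_zero, zero_add]
  | succ d =>
    constructor
    · intro c hc _
      ext D
      by_contra hne
      have h1 : ∑ b ∈ D, wtO b = d + 1 := hc D hne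
      rw [hw] at h1
      omega
    · intro y
      refine ⟨0, fun D h => absurd rfl h, ?_⟩
      rw [Finsupp.sum_zero_index]
      exact (A4S2_high d y).symm

private theorem A4S2_pos (V : SV) {d : ℕ} (hd : 1 ≤ d) :
    Function.Bijective (SV.Hmap (R.pr (Z := (barV V).ss) (barV V).zv) d) :=
  ⟨Hmap_pr_inj _ d hd, Hmap_pr_surj _ d⟩

theorem KL_simple (S : SqFam) (n : ℕ) :
    CSimple (KL n).ss (wtO : Orb n → ℕ) (fun b => zC S b) := by
  induction n with
  | zero => exact A4S2_base S
  | succ n ih =>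
    have hUB := UB (KL n) n (fun b => zC S b) ih (zC_prim S)
    have hfin : ∀ d, {D : Finset (Orb (n + 1)) | ∑ b ∈ D, wtO b = d}.Finite := finset_orb_fin (n + 1)
    have hH : ∀ d, Module.Finite (ZMod 2) ((lin (KL (n + 1)).ss).H d) ∧
        Module.finrank (ZMod 2) ((lin (KL (n + 1)).ss).H d) ≤ (hfin d).toFinset.card := by
      intro d
      rcases Nat.eq_zero_or_pos d with rfl | hd
      · obtain ⟨h1, h2⟩ := A4S2_zero (KL n)
        refine ⟨h1, h2.trans ?_⟩
        rw [Nat.one_le_iff_ne_zero, Finset.card_ne_zero]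
        exact ⟨∅, by simp⟩
      · obtain ⟨h1, h2⟩ := hUB d
        let e := LinearEquiv.ofBijective _ (A4S2_pos (KL n) hd)
        refine ⟨Module.Finite.equiv e.symm, ?_⟩
        have h3 : Module.finrank (ZMod 2) ((lin (KL (n + 1)).ss).H d) =
          Module.finrank (ZMod 2) ((RB (KL n)).H d) := e.finrank_eq
        rw [h3]
        refine h2.trans ?_
        rw [← Set.ncard_eq_toFinset_card _ (hfin d)]
        exact Set.ncard_le_ncard (fun D hD => hD.2) (hfin d)
    refine CBasis.of_le (fun D => A4S2_prodHom S D) hfin ?_ ?_ ?_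
    · intro d c hc hs
      refine zD_li S (by omega) c ?_
      rw [A4S2_eq_hom (fun D => A4S2_prodHom S D) hc, hs, map_zero]
    · intro d
      have := (hH d).1
      infer_instance
    · intro d
      have := (hH d).1
      rw [Subspace.dual_finrank_eq]
      exact (hH d).2

/-- stronger form of `KL_detect`: only the maps of `exists_rM` are needed -/
theorem A4S2_detect (S : SqFam) (n : ℕ) (hn : 1 ≤ n) (d : ℕ) (x : Hc (KL n).ss d)
    (h : ∀ (M : ℕ) (a : Hom (Bpow (Fin M × Fin n)) (KL n).ss), a.app 0 (Bpt _) = (KL n).zv →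
      (∀ b : Orb n, CR.map a (zC S b) = pol (Fin M × Fin n) (blk M n (orbM b))) →
      Hc.map a d x = 0) : x = 0 := by
  obtain ⟨c, hc, hx⟩ := ((KL_simple S n).bas d).2 x
  have h1 : (c.sum fun D r => r • ∏ b ∈ D, zC S b) = CR.hom d x := by
    rw [A4S2_eq_hom (fun D => A4S2_prodHom S D) hc, hx]
  have h2 : c = 0 := by
    refine A4S2_key S hn c fun M a ha hab => ?_
    rw [h1, CR.map_hom, h M a ha hab, map_zero]
  rw [← hx, h2, Finsupp.sum_zero_index]

theorem KL_detect (S : SqFam) (n : ℕ) (hn : 1 ≤ n) (d : ℕ) (x : Hc (KL n).ss d)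
    (h : ∀ (M : ℕ) (a : Hom (Bpow (Fin M × Fin n)) (KL n).ss),
      a.app 0 (Bpt _) = (KL n).zv → Hc.map a d x = 0) : x = 0 :=
  A4S2_detect S n hn d x fun M a ha _ => h M a ha

end MM
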