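import Pool.Agent.Lib_MP_33f7bb_d.A4S2

/-!
# A4-36: squares of the `z_b`, the map `Θ : E(n) → H^*(KL n)`, polynomial generators of `H^*(KL (a+1))`

`rM_pull`: for every pointed `a : B^(M × n) → KL n`, `n ≥ 1`: the polynomial `f` with `pol f = a^*` of (the image in `CR` of) `iotaK`,
homogeneous of degree `n` (`exists_pol`), determines everything: `a^* (zR S b)` is `(thb b).ev` of the class of `f`.
`exists_Theta`.  `n = 0`: `E(0)` is `ZMod 2` in degree `0`: `Θ 0 (r • gen) = r • iotaK 0`; compatibility with the operations: `Sq 0 0 = id`,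
`Sq 0 m = 0` for `m > 0` on both sides.  `n ≥ 1`: define `Θ d c = ∑_a r_a zR S a` for `c = ∑ r_a orbM a` (linear: `orbM_li`; `c = ∑ …` by
`EE_eq_sum`; or: `Θ d` is the linear map defined by the basis).  Commutation with `Sq d m`: test with `KL_detect` for the
class `Θ m (Sq c) + Sq (Θ d c)`; for a pointed `a : B^(M × n) → KL n` let `y₁ = a^* iotaK`.  It suffices to show
`a^* (Θ d c) = Ψ_a c` for an `AMHom` `Ψ_a : E(n) → RAM(B^(M × n))` with `Ψ_a gen = y₁`: existence of `Ψ_a`: here only maps `a` as in `exists_rM`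
are used: STRENGTHENING of `KL_detect`: it is enough to assume `a^* x = 0` for ONE map `a_M` for every `M`, namely the one of `exists_rM`
(the proof of `KL_detect` uses only these): `KL_detect'` below.  For `a = a_M`: `a^* (zR S b) = Ψ (orbM b)` with `Ψ` from `exists_PsiE` (equal images in
`CR`, `red_injective`), so `a^* (Θ d c) = Ψ c` for all `c`, and `a^* Sq (Θ c) = Sq (Ψ c) = Ψ (Sq c) = a^* Θ (Sq c)`.
`zC_sq`: `n = 0`: `z^2 = z`: a function on two points with values `0, 1` (`cup` in degree `0` is the product of functions; or use `S.top` and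
`S.id`: `Sq 0 0`: `cupR 0 y y = S.op 0 0 y = y`).  In general: `zC b ^ 2 = CR.hom (2 wtO b) (red (cupR zR zR))`, `cupR (2 d) y y = S.op d (2 d) y = Sq0`, and
`Θ (Sq0 (orbM b)) = Θ (orbM (shiftO b))` (`Sq0_orbM`).
`KL_poly`: `CSimple` for `KL (a+1)` reindexed: finite subsets of `Orb (a+1)` = finite subsets of `Orb a × ℕ` (`orb_decomp`) = exponent
functions (`betaF_bijective`); `zC (shiftO^[t] (consO b)) = zC (consO b) ^ (2^t)` (`zC_sq` iterated), `betaF_prod`, `betaF_sum`, `wtO_decomp`.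
-/

open scoped TensorProduct

namespace MM

private theorem A4S3_hom_same {Z : SS} (n : ℕ) (a : Hc Z n) : CR.hom n a n = a := by
  show (Pi.single n a : ∀ n, Hc Z n) n = a
  exact Pi.single_eq_same n a

private theorem A4S3_hom_inj {Z : SS} {n : ℕ} {a b : Hc Z n}
    (h : (CR.hom n a : CR Z) = CR.hom n b) : a = b := by
  rw [← A4S3_hom_same n a, h, A4S3_hom_same]

private theorem A4S3_sum_apply {Z : SS} {I : Type} (s : Finset I) (a : I → CR Z) (m : ℕ) :
    (∑ i ∈ s, a i) m = ∑ i ∈ s, a i m := map_sum (CR.cmp (Z := Z) m) a s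

theorem KL_detect' (S : SqFam) (n : ℕ) (hn : 1 ≤ n) (d : ℕ) (x : Hc (KL n).ss d)
    (h : ∀ (M : ℕ) (a : Hom (Bpow (Fin M × Fin n)) (KL n).ss), a.app 0 (Bpt _) = (KL n).zv →
      (∀ b : Orb n, CR.map a (zC S b) = pol (Fin M × Fin n) (blk M n (orbM b))) →
      Hc.map a d x = 0) : x = 0 := by
  obtain ⟨c, hc, hx⟩ := ((KL_simple S n).bas d).2 x
  have hX : (c.sum fun D r => r • ∏ b ∈ D, zC S b : CR (KL n).ss) = CR.hom d x := by
    have h1 : CR.IsHom d (c.sum fun D r => r • ∏ b ∈ D, zC S b : CR (KL n).ss) := by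
      intro m hm
      rw [Finsupp.sum, A4S3_sum_apply]
      refine Finset.sum_eq_zero fun D hD => ?_
      show c D • (∏ b ∈ D, zC S b : CR (KL n).ss) m = 0
      rw [(KL_simple S n).hom D m (by
        have h9 : ∑ i ∈ D, wtO i = d := hc D (Finsupp.mem_support_iff.1 hD)
        show m ≠ ∑ i ∈ D, wtO i
        rw [h9]
        exact hm), smul_zero]
    rw [h1.eq]
    congr 1
    rw [← hx, Finsupp.sum, A4S3_sum_apply]
    rfl
  have h0 : c = 0 := by
    refine PD_li hn c fun M => ?_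
    obtain ⟨a, ha, hb⟩ := exists_rM S M n hn
    apply pol_injective
    rw [map_zero, Finsupp.sum, map_sum]
    have h1 : CR.map a (CR.hom d x) = 0 := by rw [CR.map_hom, h M a ha hb, map_zero]
    rw [← hX, Finsupp.sum, map_sum] at h1
    rw [← h1]
    refine Finset.sum_congr rfl fun D _ => ?_
    rw [CR.map_smul, map_prod, map_smul, map_prod]
    congr 1
    exact Finset.prod_congr rfl fun b _ => (hb b).symm
  rw [← hx, h0, Finsupp.sum_zero_index]

/-- `x` corresponds to `c` -/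
private def A4S3_Q (S : SqFam) (n d : ℕ) (c : (EAM n).M d) (x : RHc (KL n) d) : Prop :=
  ∀ (M : ℕ) (a : Hom (Bpow (Fin M × Fin n)) (KL n).ss), a.app 0 (Bpt _) = (KL n).zv →
    (∀ b : Orb n, CR.map a (zC S b) = pol (Fin M × Fin n) (blk M n (orbM b))) →
    CR.hom d (Hc.map a d (red (KL n).zv d x)) =
      pol (Fin M × Fin n) (blk M n (show EE n d from c).1)

private theorem A4S3_uniq (S : SqFam) {n d : ℕ} (hn : 1 ≤ n) {c : (EAM n).M d} {x x' : RHc (KL n) d}
    (h : A4S3_Q S n d c x) (h' : A4S3_Q S n d c x') : x = x' := by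
  have h1 : red (KL n).zv d (x - x') = 0 := by
    refine KL_detect' S n hn d _ fun M a ha hb => ?_
    rw [map_sub, map_sub, A4S3_hom_inj ((h M a ha hb).trans (h' M a ha hb).symm), sub_self]
  have h2 : x - x' = 0 := red_injective _ _ (h1.trans (map_zero _).symm)
  exact sub_eq_zero.1 h2

private theorem A4S3_add (S : SqFam) {n d : ℕ} {c c' : (EAM n).M d} {x x' : RHc (KL n) d}
    (h : A4S3_Q S n d c x) (h' : A4S3_Q S n d c' x') : A4S3_Q S n d (c + c') (x + x') := by
  intro M a ha hb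
  rw [map_add, map_add, map_add, h M a ha hb, h' M a ha hb]
  show _ = pol (Fin M × Fin n) (blk M n ((show EE n d from c).1 + (show EE n d from c').1))
  rw [map_add, map_add]

private theorem A4S3_smul (S : SqFam) {n d : ℕ} (r : ZMod 2) {c : (EAM n).M d} {x : RHc (KL n) d}
    (h : A4S3_Q S n d c x) : A4S3_Q S n d (r • c) (r • x) := by
  intro M a ha hb
  rw [map_smul, map_smul, map_smul, h M a ha hb]
  show _ = pol (Fin M × Fin n) (blk M n (r • (show EE n d from c).1))
  rw [map_smul, map_smul]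

private theorem A4S3_zero (S : SqFam) {n d : ℕ} : A4S3_Q S n d 0 0 := by
  intro M a ha hb
  rw [map_zero, map_zero, map_zero]
  show _ = pol (Fin M × Fin n) (blk M n 0)
  rw [map_zero, map_zero]

private theorem A4S3_Sq (S : SqFam) {n d : ℕ} (hn : 1 ≤ n) (m : ℕ) {c : (EAM n).M d}
    {x : RHc (KL n) d} (h : A4S3_Q S n d c x) :
    A4S3_Q S n m ((EAM n).Sq d m c) ((RAM S (KL n).ss (KL n).zv).Sq d m x) := by
  intro M a ha hb
  obtain ⟨Ψ, hΨ⟩ := exists_PsiE S M n hn
  set F := RAM.map S (Bpt (Fin M × Fin n)) (KL n).zv a ha with hF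
  have key : ∀ (e : ℕ) (y : RHc (KL n) e),
      red (Bpt (Fin M × Fin n)) e (F.app e y) = Hc.map a e (red (KL n).zv e y) := fun e y =>
    red_nat (Bpt (Fin M × Fin n)) (KL n).zv a ha e y
  have h1 : F.app d x = Ψ.app d c := by
    apply red_injective
    rw [key]
    exact A4S3_hom_inj ((h M a ha hb).trans (hΨ d c).symm)
  have h2 : F.app m ((RAM S (KL n).ss (KL n).zv).Sq d m x) = Ψ.app m ((EAM n).Sq d m c) := by
    rw [F.comm, h1, Ψ.comm]
  rw [← key m ((RAM S (KL n).ss (KL n).zv).Sq d m x), h2]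
  exact hΨ m ((EAM n).Sq d m c)

private theorem A4S3_word_lt (n : ℕ) {d : ℕ} (w : Wop n d) (hd : d < n) (M : AM) :
    w.ev M = 0 := by
  induction w with
  | nil => omega
  | cons w d ih =>
    rename_i p
    show (M.Sq p d).comp (w.ev M) = 0
    rcases Nat.lt_or_ge d p with h | h
    · rw [M.Sq_lt p d h, LinearMap.zero_comp]
    · rw [ih (by omega), LinearMap.comp_zero]

private theorem A4S3_word (n : ℕ) {d : ℕ} (w : Wop n d) (h : n = d) :
    ∃ r : ZMod 2, ∀ (M : AM) (x : M.M n), w.ev M x = r • (h ▸ x : M.M d) := by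
  induction w with
  | nil => exact ⟨1, fun M x => (one_smul _ _).symm⟩
  | cons w d ih =>
    rename_i p
    subst h
    rcases lt_trichotomy n p with h | h | h
    · refine ⟨0, fun M x => ?_⟩
      show M.Sq p n (w.ev M x) = _
      rw [M.Sq_lt p n h, LinearMap.zero_apply, zero_smul]
    · subst h
      obtain ⟨r, hr⟩ := ih rfl
      refine ⟨r, fun M x => ?_⟩
      show M.Sq n n (w.ev M x) = _
      rw [M.Sq_id n, LinearMap.id_apply]
      exact hr M x
    · refine ⟨0, fun M x => ?_⟩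
      show M.Sq p n (w.ev M x) = _
      rw [A4S3_word_lt n w h M, LinearMap.zero_apply, map_zero, zero_smul]

private theorem A4S3_op (n : ℕ) {d : ℕ} (θ : Op n d) (h : n = d) :
    ∃ r : ZMod 2, ∀ (M : AM) (x : M.M n), θ.ev M x = r • (h ▸ x : M.M d) := by
  choose r hr using fun w : Wop n d => A4S3_word n w h
  refine ⟨θ.sum fun w t => t * r w, fun M x => ?_⟩
  rw [Op.ev, Finsupp.sum, LinearMap.sum_apply, Finsupp.sum, Finset.sum_smul]
  refine Finset.sum_congr rfl fun w _ => ?_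
  rw [LinearMap.smul_apply, hr w M x, mul_smul]

private theorem A4S3_cast_val {n d : ℕ} (h : n = d) (x : (EAM n).M n) :
    (show EE n d from (h ▸ x : (EAM n).M d)).1 = (show EE n n from x).1 := by
  subst h
  rfl

private theorem A4S3_cast_red (S : SqFam) {n d : ℕ} (h : n = d)
    (x : (RAM S (KL n).ss (KL n).zv).M n) :
    (CR.hom d (red (KL n).zv d (h ▸ x : (RAM S (KL n).ss (KL n).zv).M d)) : CR (KL n).ss) =
      CR.hom n (red (KL n).zv n x) := by
  subst h
  rfl

private theorem A4S3_orb0 (n : ℕ) : orbM (orb (0 : Fin n → ℕ)) = Finsupp.single 0 1 := by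
  classical
  refine Finsupp.ext fun b => ?_
  rw [orbM_apply, Finsupp.single_apply]
  have h1 : orb b = orb (0 : Fin n → ℕ) ↔ 0 = b := by
    constructor
    · intro h
      obtain ⟨σ, hσ⟩ := (orb_eq_iff (0 : Fin n → ℕ) b).1 h.symm
      rw [hσ]
      rfl
    · rintro rfl
      rfl
  by_cases h : 0 = b
  · rw [if_pos h, if_pos (h1.2 h)]
  · rw [if_neg h, if_neg fun h' => h (h1.1 h')]

private theorem A4S3_iota (S : SqFam) (n : ℕ) :
    zC S (orb (0 : Fin n → ℕ)) = CR.hom n (red (KL n).zv n (iotaK n)) := by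
  have hw : n = wtO (orb (0 : Fin n → ℕ)) := by
    rw [wtO_orb]
    simp [wt]
  obtain ⟨r, hr⟩ := A4S3_op n (thb (orb (0 : Fin n → ℕ))) hw
  have h1 := hr (EAM n) (EAM.gen n)
  rw [thb_ev] at h1
  have h2 : r = 1 := by
    have h01 : ∀ t : ZMod 2, t = 0 ∨ t = 1 := by decide
    rcases h01 r with h | h
    · exfalso
      rw [h, zero_smul] at h1
      have h3 := congrArg (fun x : (EAM n).M (wtO (orb (0 : Fin n → ℕ))) =>
        (show EE n (wtO (orb (0 : Fin n → ℕ))) from x).1 0) h1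
      have h4 : orbM (orb (0 : Fin n → ℕ)) 0 = 0 := h3
      rw [A4S3_orb0, Finsupp.single_eq_same] at h4
      exact one_ne_zero h4
    · exact h
  unfold zC zR
  rw [hr (RAM S (KL n).ss (KL n).zv) (iotaK n), h2, one_smul]
  exact A4S3_cast_red S hw (iotaK n)

private theorem A4S3_gen (S : SqFam) (n : ℕ) : A4S3_Q S n n (EAM.gen n) (iotaK n) := by
  intro M a ha hb
  rw [← CR.map_hom, ← A4S3_iota, hb, A4S3_orb0]
  rfl

private theorem A4S3_ex (S : SqFam) {n : ℕ} (hn : 1 ≤ n) (d : ℕ) (c : (EAM n).M d) :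
    ∃ x, A4S3_Q S n d c x := by
  have h := EAM_gen n (fun d =>
    { carrier := {c | ∃ x, A4S3_Q S n d c x}
      add_mem' := by
        rintro c c' ⟨x, hx⟩ ⟨x', hx'⟩
        exact ⟨x + x', A4S3_add S hx hx'⟩
      zero_mem' := ⟨0, A4S3_zero S⟩
      smul_mem' := by
        rintro r c ⟨x, hx⟩
        exact ⟨r • x, A4S3_smul S r hx⟩ })
    (fun d m c hc => by
      obtain ⟨x, hx⟩ := hc
      exact ⟨_, A4S3_Sq S hn m hx⟩) ⟨iotaK n, A4S3_gen S n⟩ d
  have h2 : c ∈ (⊤ : Submodule (ZMod 2) ((EAM n).M d)) := Submodule.mem_top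
  rw [← h] at h2
  exact h2

private theorem A4S3_main (S : SqFam) {n : ℕ} (hn : 1 ≤ n) :
    ∃ Θ : AMHom (EAM n) (RAM S (KL n).ss (KL n).zv), Θ.app n (EAM.gen n) = iotaK n := by
  choose θ hθ using fun (d : ℕ) (c : (EAM n).M d) => A4S3_ex S hn d c
  refine ⟨⟨fun d =>
    { toFun := θ d
      map_add' := fun c c' => A4S3_uniq S hn (hθ d (c + c')) (A4S3_add S (hθ d c) (hθ d c'))
      map_smul' := fun r c => A4S3_uniq S hn (hθ d (r • c)) (A4S3_smul S r (hθ d c)) },
    fun d m c => A4S3_uniq S hn (hθ m _) (A4S3_Sq S hn m (hθ d c))⟩, ?_⟩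
  exact A4S3_uniq S hn (hθ n _) (A4S3_gen S n)

private theorem A4S3_main0 (S : SqFam) :
    ∃ Θ : AMHom (EAM 0) (RAM S (KL 0).ss (KL 0).zv), Θ.app 0 (EAM.gen 0) = iotaK 0 := by
  refine ⟨⟨fun d => match d with
    | 0 =>
      { toFun := fun c => ((show EE 0 0 from c).1 0) • (iotaK 0)
        map_add' := fun c c' => by
          show ((show EE 0 0 from c).1 0 + (show EE 0 0 from c').1 0) • (iotaK 0) = _
          rw [add_smul]
          rfl
        map_smul' := fun r c => by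
          show (r * (show EE 0 0 from c).1 0) • (iotaK 0) = _
          rw [mul_smul]
          rfl }
    | _ + 1 => 0, ?_⟩, ?_⟩
  · intro d m x
    rcases d with _ | d
    · rcases m with _ | m
      · rw [(EAM 0).Sq_id, (RAM S (KL 0).ss (KL 0).zv).Sq_id]
        rfl
      · rw [(EAM 0).unst 0 (m + 1) (by omega), (RAM S (KL 0).ss (KL 0).zv).unst 0 (m + 1) (by omega)]
        simp
    · rw [EAM.zero_eq (d + 1) (by omega) x]
      simp
  · show ((show EE 0 0 from EAM.gen 0).1 0) • (iotaK 0) = iotaK 0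
    have h1 : (show EE 0 0 from EAM.gen 0).1 0 = 1 := by
      show (Finsupp.single (0 : Fin 0 → ℕ) (1 : ZMod 2)) 0 = 1
      rw [Finsupp.single_eq_same]
    rw [h1, one_smul]

theorem exists_Theta (S : SqFam) (n : ℕ) :
    ∃ Θ : AMHom (EAM n) (RAM S (KL n).ss (KL n).zv),
      Θ.app n (EAM.gen n) = iotaK n ∧
      ∀ b : Orb n, Θ.app (wtO b) (⟨orbM b, orbM_mem b rfl⟩ : EE n (wtO b)) = zR S b := by
  have h1 : ∃ Θ : AMHom (EAM n) (RAM S (KL n).ss (KL n).zv), Θ.app n (EAM.gen n) = iotaK n := by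
    rcases Nat.eq_zero_or_pos n with h | h
    · subst h
      exact A4S3_main0 S
    · exact A4S3_main S h
  obtain ⟨Θ, hΘ⟩ := h1
  refine ⟨Θ, hΘ, fun b => ?_⟩
  rw [← thb_ev b, Op.ev_nat Θ (thb b) (EAM.gen n), hΘ]
  rfl

private theorem A4S3_castΘ (S : SqFam) {n d d' : ℕ} (Θ : AMHom (EAM n) (RAM S (KL n).ss (KL n).zv))
    (h : d = d') (c : Mon n) (hc : c ∈ EE n d) (hc' : c ∈ EE n d') :
    (CR.hom d (red (KL n).zv d (Θ.app d (⟨c, hc⟩ : EE n d))) : CR (KL n).ss) =
      CR.hom d' (red (KL n).zv d' (Θ.app d' (⟨c, hc'⟩ : EE n d'))) := by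
  subst h
  rfl

private theorem A4S3_cup2 {Z : SS} {w e : ℕ} (h : w + w = e) (a : Hc Z w) :
    (CR.hom w a * CR.hom w a : CR Z) = CR.hom e (cup e a a) := by
  subst h
  exact CR.hom_mul_hom a a

theorem zC_sq (S : SqFam) {n : ℕ} (b : Orb n) : zC S b ^ 2 = zC S (shiftO b) := by
  obtain ⟨Θ, -, hΘ⟩ := exists_Theta S n
  have h1 : zC S b ^ 2 = CR.hom (2 * wtO b) (red (KL n).zv (2 * wtO b)
      (Θ.app (2 * wtO b) ((EAM n).Sq0 (wtO b) (⟨orbM b, orbM_mem b rfl⟩ : EE n (wtO b))))) := by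
    rw [Θ.comm, hΘ b]
    have h2 : (RAM S (KL n).ss (KL n).zv).Sq (wtO b) (2 * wtO b) (zR S b) =
        cupR (2 * wtO b) (zR S b) (zR S b) := S.top _ _ _ _
    rw [h2, red_cupR, pow_two]
    unfold zC
    exact A4S3_cup2 (two_mul _).symm _
  have h3 : (EAM n).Sq0 (wtO b) (⟨orbM b, orbM_mem b rfl⟩ : EE n (wtO b)) =
      (⟨orbM (shiftO b), orbM_mem _ (wtO_shift b)⟩ : EE n (2 * wtO b)) :=
    Subtype.ext (Sq0_orbM b)
  rw [h1, h3, A4S3_castΘ S Θ (wtO_shift b).symm (orbM (shiftO b)) _ (orbM_mem _ rfl), hΘ]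
  rfl

theorem zC_shift (S : SqFam) {n : ℕ} (b : Orb n) (t : ℕ) :
    zC S (shiftO^[t] b) = zC S b ^ 2 ^ t := by
  induction t with
  | zero => rw [pow_zero, pow_one]; rfl
  | succ t ih =>
    rw [Function.iterate_succ_apply', ← zC_sq, ih, ← pow_mul, pow_succ]

theorem KL_poly (S : SqFam) (a : ℕ) :
    CPoly (KL (a + 1)).ss (fun b : Orb a => wtO b + 1) (fun b => zC S (consO b)) := by
  classical
  let e1 : Finset (Orb a × ℕ) ≃ (Orb a →₀ ℕ) := Equiv.ofBijective betaF betaF_bijective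
  let e2 : Orb a × ℕ ≃ Orb (a + 1) := Equiv.ofBijective _ (orb_decomp (n := a))
  refine ((KL_simple S (a + 1)).reindex (e1.symm.trans e2.finsetCongr)).congr ?_ ?_
  · intro e
    obtain ⟨D, rfl⟩ := e1.surjective e
    rw [Equiv.trans_apply, Equiv.symm_apply_apply]
    show (betaF D).sum (fun i k => k * (wtO i + 1)) = ∑ b ∈ D.map e2.toEmbedding, wtO b
    rw [betaF_sum (fun b => wtO b + 1), Finset.sum_map]
    exact Finset.sum_congr rfl fun x _ => (wtO_decomp x.1 x.2).symm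
  · intro e
    obtain ⟨D, rfl⟩ := e1.surjective e
    rw [Equiv.trans_apply, Equiv.symm_apply_apply]
    show (betaF D).prod (fun i k => zC S (consO i) ^ k) = ∏ b ∈ D.map e2.toEmbedding, zC S b
    rw [betaF_prod (fun b => zC S (consO b)), Finset.prod_map]
    exact Finset.prod_congr rfl fun x _ => (zC_shift S (consO x.1) x.2).symm

end MM
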