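import Pool.Agent.Lib_MP_33f7bb_d.A506

/-!
# A5-07: the kernel of `rho`

Write `x ≡ y` if `x + y = Dw z` with `z` of the right length (`Len q` for `x, y ∈ Len (q+1)`).
(1) For words `u, v` in `I` and letters `i, j`: `emW (u i j v) ≡ emW (u j i v)` and `emW (u i i v) ≡ 0`: for the word `z = u' e v'`
 (`u', v'` = `u`, `v` mapped by `eps`, `e = ε_i + ε_j` as an exponent vector): `Dw z = u' cop(e) v'`, as `Dw` of primitive words
 vanishes; `cop (ε_i + ε_j) = (ε_i, ε_j) + (ε_j, ε_i)` for `i ≠ j`, `cop (2 ε_i) = (ε_i, ε_i)`.  (Induction on `u`: `Dw (lc (ε_l) z) = lc (ε_l) (Dw z)`.)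
(2) Hence `emW w ≡ emW w'` if `w`, `w'` are permutations of each other (`List.Perm` induction), and `emW w ≡ 0` if `w` has a repeated letter
 (permute it to `i :: i :: w'`).
(3) Choose a linear order on `I` (`exists_wellOrder`/`IsWellOrder.linearOrder WellOrderingRel`, classical).  Every word without repetitions is a permutation of
 the increasing enumeration `w_S` of its set of letters `S`, `|S| = q + 1`.  So `emW p ≡ ∑_S c_S emW w_S`, `c_S ∈ F`, and with `p' = ∑ c_S w_S`:
 `emW (p + p') = Dw z`, so `rho (p + p') = 0` (`rho_Dw`), `rho p' = rho p = 0`; `rho p' = ∑_S c_S (∧_(i ∈ S) ε_i)` and the elements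
 `∧_(i ∈ S) ε_i` form a basis (`exteriorPower.basis`, `Module.Basis.exteriorPower`, `ιMulti_family`; the basis `Finsupp.basisSingleOne`), so all `c_S = 0`,
 `emW p = Dw z`.

Implementation: instead of (2), (3), the universal property of the exterior algebra is used: `lc (em y)` acts on the homology
`H = ker Dw / range Dw`, with square zero by (1), so the exterior algebra acts on `H`, and the class of `emW w` is the image of the class
of the empty word under the product of the letters of `w`.
-/

namespace MM

variable {I : Type}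

/-! ### splittings of `ε_i + ε_j` -/

private theorem A507_split1 (i : I) (a b : I →₀ ℕ) (h : a + b = Finsupp.single i 1) (hb : b ≠ 0) :
    a = 0 := by
  classical
  have key : ∀ c : I →₀ ℕ, c ≠ 0 → (∀ j, c j ≤ (Finsupp.single i 1 : I →₀ ℕ) j) → 1 ≤ c i := by
    intro c hc hle
    obtain ⟨j, hj⟩ := Finsupp.ne_iff.1 hc
    rw [Finsupp.zero_apply] at hj
    have h1 := hle j
    by_cases hij : i = j
    · subst hij
      omega
    · rw [Finsupp.single_eq_of_ne (Ne.symm hij)] at h1
      omega
  have hadd : ∀ j, a j + b j = (Finsupp.single i 1 : I →₀ ℕ) j := fun j => by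
    rw [← h]; rfl
  by_contra ha
  have h1 := key a ha fun j => by have := hadd j; omega
  have h2 := key b hb fun j => by have := hadd j; omega
  have h3 := hadd i
  rw [Finsupp.single_eq_same] at h3
  omega

private theorem A507_split (i j : I) (a b : I →₀ ℕ)
    (h : a + b = Finsupp.single i 1 + Finsupp.single j 1) (ha : a ≠ 0) (hb : b ≠ 0) :
    (a = Finsupp.single i 1 ∧ b = Finsupp.single j 1) ∨
      (a = Finsupp.single j 1 ∧ b = Finsupp.single i 1) := by
  classical
  -- if `a` contains `ε_i` then `a = ε_i`, `b = ε_j`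
  have key : ∀ (i j : I), a + b = Finsupp.single i 1 + Finsupp.single j 1 → 1 ≤ a i →
      (a = Finsupp.single i 1 ∧ b = Finsupp.single j 1) := by
    intro i j h hi
    have hle : Finsupp.single i 1 ≤ a := by
      rw [Finsupp.single_le_iff]
      exact hi
    have hadd : Finsupp.single i 1 + (a - Finsupp.single i 1) = a := add_tsub_cancel_of_le hle
    have h1 : (a - Finsupp.single i 1) + b = Finsupp.single j 1 := by
      have h2 : Finsupp.single i 1 + ((a - Finsupp.single i 1) + b) =
          Finsupp.single i 1 + Finsupp.single j 1 := by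
        rw [← add_assoc, hadd, h]
      exact add_left_cancel h2
    have h3 := A507_split1 j _ _ h1 hb
    rw [h3, add_zero] at hadd
    rw [h3, zero_add] at h1
    exact ⟨hadd.symm, h1⟩
  obtain ⟨k, hk⟩ := Finsupp.ne_iff.1 ha
  rw [Finsupp.zero_apply] at hk
  have hk1 : a k + b k = (Finsupp.single i 1 + Finsupp.single j 1 : I →₀ ℕ) k := by
    rw [← h]; rfl
  rw [Finsupp.add_apply] at hk1
  by_cases hki : k = i
  · left
    subst hki
    exact key k j h (by omega)
  · by_cases hkj : k = j
    · right
      subst hkj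
      exact key k i (h.trans (add_comm _ _)) (by omega)
    · exfalso
      rw [Finsupp.single_eq_of_ne hki, Finsupp.single_eq_of_ne hkj] at hk1
      omega

/-- the letter `ε_i + ε_j` -/
private noncomputable def A507_e (i j : I) : Lt I :=
  ⟨Finsupp.single i 1 + Finsupp.single j 1, by
    classical
    intro h
    have h1 : (Finsupp.single i 1 + Finsupp.single j 1 : I →₀ ℕ) i = 0 := by rw [h]; rfl
    rw [Finsupp.add_apply, Finsupp.single_eq_same] at h1
    omega⟩

private theorem A507_cop_same (i : I) :
    (A507_e i i).cop = Finsupp.single (Lt.eps i, Lt.eps i) 1 := by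
  classical
  ext p
  obtain ⟨a, b⟩ := p
  by_cases h : a.1 + b.1 = (A507_e i i).1
  · rw [cop_apply_eq _ _ _ h]
    have h1 := A507_split i i a.1 b.1 h a.2 b.2
    have h2 : a = Lt.eps i ∧ b = Lt.eps i := by
      rcases h1 with h1 | h1
      · exact ⟨Subtype.ext h1.1, Subtype.ext h1.2⟩
      · exact ⟨Subtype.ext h1.1, Subtype.ext h1.2⟩
    rw [h2.1, h2.2, Finsupp.single_eq_same]
  · rw [cop_apply_ne _ _ _ h, Finsupp.single_apply, if_neg]
    intro h1
    apply h
    have h2 : Lt.eps i = a := congrArg Prod.fst h1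
    have h3 : Lt.eps i = b := congrArg Prod.snd h1
    rw [← h2, ← h3]
    rfl

private theorem A507_cop_ne {i j : I} (hij : i ≠ j) :
    (A507_e i j).cop = Finsupp.single (Lt.eps i, Lt.eps j) 1 +
      Finsupp.single (Lt.eps j, Lt.eps i) 1 := by
  classical
  have hne : (Lt.eps i : Lt I) ≠ Lt.eps j := fun h => hij (Lt.eps_injective h)
  ext p
  obtain ⟨a, b⟩ := p
  rw [Finsupp.add_apply, Finsupp.single_apply, Finsupp.single_apply]
  by_cases h : a.1 + b.1 = (A507_e i j).1
  · rw [cop_apply_eq _ _ _ h]
    have h1 := A507_split i j a.1 b.1 h a.2 b.2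
    rcases h1 with h1 | h1
    · have ha : a = Lt.eps i := Subtype.ext h1.1
      have hb : b = Lt.eps j := Subtype.ext h1.2
      rw [ha, hb, if_pos rfl, if_neg, add_zero]
      intro h2
      exact hne (congrArg Prod.fst h2).symm
    · have ha : a = Lt.eps j := Subtype.ext h1.1
      have hb : b = Lt.eps i := Subtype.ext h1.2
      rw [ha, hb, if_pos rfl, if_neg, zero_add]
      intro h2
      exact hne (congrArg Prod.fst h2)
  · rw [cop_apply_ne _ _ _ h, if_neg, if_neg, add_zero]
    · intro h1
      apply h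
      have h2 : Lt.eps j = a := congrArg Prod.fst h1
      have h3 : Lt.eps i = b := congrArg Prod.snd h1
      rw [← h2, ← h3]
      exact add_comm _ _
    · intro h1
      apply h
      have h2 : Lt.eps i = a := congrArg Prod.fst h1
      have h3 : Lt.eps j = b := congrArg Prod.snd h1
      rw [← h2, ← h3]
      rfl

/-! ### the relations modulo boundaries -/

private theorem A507_em_single (i : I) : Lt.em (Finsupp.single i 1) = Finsupp.single (Lt.eps i) 1 :=
  Finsupp.mapDomain_single

private theorem A507_copL_single (b : Lt I) : Lt.copL (Finsupp.single b 1) = b.cop := by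
  rw [Lt.copL, Finsupp.linearCombination_single, one_smul]

private theorem A507_two (x : Wd (Lt I)) : x + x = 0 := by
  ext w
  rw [Finsupp.add_apply, Finsupp.zero_apply]
  exact CharTwo.add_self_eq_zero _

private theorem A507_comm1 (i j : I) {x : Wd (Lt I)} (hx : Dw x = 0) :
    lc (Lt.em (Finsupp.single i 1)) (lc (Lt.em (Finsupp.single j 1)) x) +
      lc (Lt.em (Finsupp.single j 1)) (lc (Lt.em (Finsupp.single i 1)) x) ∈
      LinearMap.range (Dw : Wd (Lt I) →ₗ[ZMod 2] Wd (Lt I)) := by
  by_cases hij : i = j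
  · subst hij
    rw [A507_two]
    exact Submodule.zero_mem _
  · refine ⟨lc (Finsupp.single (A507_e i j) 1) x, ?_⟩
    rw [Dw_lc, hx, map_zero, add_zero, A507_copL_single, A507_cop_ne hij, map_add,
      LinearMap.add_apply, lc2_single, lc2_single, A507_em_single, A507_em_single]

private theorem A507_sq1 (i : I) {x : Wd (Lt I)} (hx : Dw x = 0) :
    lc (Lt.em (Finsupp.single i 1)) (lc (Lt.em (Finsupp.single i 1)) x) ∈
      LinearMap.range (Dw : Wd (Lt I) →ₗ[ZMod 2] Wd (Lt I)) := by
  refine ⟨lc (Finsupp.single (A507_e i i) 1) x, ?_⟩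
  rw [Dw_lc, hx, map_zero, add_zero, A507_copL_single, A507_cop_same, lc2_single, A507_em_single]

private theorem A507_comm (a b : I →₀ ZMod 2) {x : Wd (Lt I)} (hx : Dw x = 0) :
    lc (Lt.em a) (lc (Lt.em b) x) + lc (Lt.em b) (lc (Lt.em a) x) ∈
      LinearMap.range (Dw : Wd (Lt I) →ₗ[ZMod 2] Wd (Lt I)) := by
  induction a using Finsupp.induction_linear with
  | zero =>
    simp only [map_zero, LinearMap.zero_apply, add_zero]
    exact Submodule.zero_mem _
  | add f g hf hg =>
    have h := Submodule.add_mem _ hf hg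
    have h1 : lc (Lt.em (f + g)) (lc (Lt.em b) x) + lc (Lt.em b) (lc (Lt.em (f + g)) x) =
        (lc (Lt.em f) (lc (Lt.em b) x) + lc (Lt.em b) (lc (Lt.em f) x)) +
        (lc (Lt.em g) (lc (Lt.em b) x) + lc (Lt.em b) (lc (Lt.em g) x)) := by
      simp only [map_add, LinearMap.add_apply]
      abel
    rw [h1]
    exact h
  | single i c =>
    obtain rfl | rfl : c = 0 ∨ c = 1 := by revert c; decide
    · simp only [Finsupp.single_zero, map_zero, LinearMap.zero_apply, add_zero]
      exact Submodule.zero_mem _
    · induction b using Finsupp.induction_linear with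
      | zero =>
        simp only [map_zero, LinearMap.zero_apply, add_zero]
        exact Submodule.zero_mem _
      | add f g hf hg =>
        have h := Submodule.add_mem _ hf hg
        have h1 : lc (Lt.em (Finsupp.single i 1)) (lc (Lt.em (f + g)) x) +
              lc (Lt.em (f + g)) (lc (Lt.em (Finsupp.single i 1)) x) =
            (lc (Lt.em (Finsupp.single i 1)) (lc (Lt.em f) x) +
              lc (Lt.em f) (lc (Lt.em (Finsupp.single i 1)) x)) +
            (lc (Lt.em (Finsupp.single i 1)) (lc (Lt.em g) x) +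
              lc (Lt.em g) (lc (Lt.em (Finsupp.single i 1)) x)) := by
          simp only [map_add, LinearMap.add_apply]
          abel
        rw [h1]
        exact h
      | single j c =>
        obtain rfl | rfl : c = 0 ∨ c = 1 := by revert c; decide
        · simp only [Finsupp.single_zero, map_zero, LinearMap.zero_apply, add_zero]
          exact Submodule.zero_mem _
        · exact A507_comm1 i j hx

private theorem A507_sq (a : I →₀ ZMod 2) {x : Wd (Lt I)} (hx : Dw x = 0) :
    lc (Lt.em a) (lc (Lt.em a) x) ∈ LinearMap.range (Dw : Wd (Lt I) →ₗ[ZMod 2] Wd (Lt I)) := by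
  induction a using Finsupp.induction_linear with
  | zero =>
    simp only [map_zero, LinearMap.zero_apply]
    exact Submodule.zero_mem _
  | add f g hf hg =>
    have h := Submodule.add_mem _ (Submodule.add_mem _ hf hg) (A507_comm f g hx)
    have h1 : lc (Lt.em (f + g)) (lc (Lt.em (f + g)) x) =
        lc (Lt.em f) (lc (Lt.em f) x) + lc (Lt.em g) (lc (Lt.em g) x) +
        (lc (Lt.em f) (lc (Lt.em g) x) + lc (Lt.em g) (lc (Lt.em f) x)) := by
      simp only [map_add, LinearMap.add_apply]
      abel
    rw [h1]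
    exact h
  | single i c =>
    obtain rfl | rfl : c = 0 ∨ c = 1 := by revert c; decide
    · simp only [Finsupp.single_zero, map_zero, LinearMap.zero_apply]
      exact Submodule.zero_mem _
    · exact A507_sq1 i hx

/-! ### the action of the exterior algebra on the homology -/

/-- cycles -/
private noncomputable abbrev A507_K (I : Type) : Submodule (ZMod 2) (Wd (Lt I)) :=
  LinearMap.ker (Dw : Wd (Lt I) →ₗ[ZMod 2] Wd (Lt I))

/-- boundaries in the cycles -/
private noncomputable abbrev A507_B (I : Type) : Submodule (ZMod 2) (A507_K I) :=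
  (LinearMap.range (Dw : Wd (Lt I) →ₗ[ZMod 2] Wd (Lt I))).comap (A507_K I).subtype

private theorem A507_hK (y : I →₀ ZMod 2) : ∀ x ∈ A507_K I, lc (Lt.em y) x ∈ A507_K I := by
  intro x hx
  rw [LinearMap.mem_ker] at hx ⊢
  rw [Dw_lc, copL_em, map_zero, LinearMap.zero_apply, hx, map_zero, add_zero]

private noncomputable def A507_L (y : I →₀ ZMod 2) : A507_K I →ₗ[ZMod 2] A507_K I :=
  (lc (Lt.em y)).restrict (A507_hK y)

private theorem A507_L_coe (y : I →₀ ZMod 2) (x : A507_K I) :
    (A507_L y x : Wd (Lt I)) = lc (Lt.em y) x := rfl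

private theorem A507_hB (y : I →₀ ZMod 2) : A507_B I ≤ (A507_B I).comap (A507_L y) := by
  rintro x ⟨z, hz⟩
  refine ⟨lc (Lt.em y) z, ?_⟩
  rw [Dw_lc, copL_em, map_zero, LinearMap.zero_apply, zero_add, hz]
  rfl

private noncomputable def A507_f (I : Type) :
    (I →₀ ZMod 2) →ₗ[ZMod 2] Module.End (ZMod 2) (A507_K I ⧸ A507_B I) where
  toFun y := (A507_B I).mapQ (A507_B I) (A507_L y) (A507_hB y)
  map_add' a b := by
    apply Submodule.linearMap_qext
    apply LinearMap.ext
    intro x
    show (A507_B I).mkQ (A507_L (a + b) x) =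
      (A507_B I).mkQ (A507_L a x) + (A507_B I).mkQ (A507_L b x)
    rw [← map_add]
    congr 1
    apply Subtype.ext
    rw [Submodule.coe_add, A507_L_coe, A507_L_coe, A507_L_coe, map_add, map_add,
      LinearMap.add_apply]
  map_smul' r a := by
    apply Submodule.linearMap_qext
    apply LinearMap.ext
    intro x
    show (A507_B I).mkQ (A507_L (r • a) x) = r • (A507_B I).mkQ (A507_L a x)
    rw [← map_smul]
    congr 1
    apply Subtype.ext
    rw [Submodule.coe_smul, A507_L_coe, A507_L_coe, map_smul, map_smul, LinearMap.smul_apply]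

private theorem A507_f_mk (y : I →₀ ZMod 2) (x : A507_K I) :
    A507_f I y ((A507_B I).mkQ x) = (A507_B I).mkQ (A507_L y x) := rfl

private theorem A507_f_sq (y : I →₀ ZMod 2) : A507_f I y * A507_f I y = 0 := by
  apply Submodule.linearMap_qext
  apply LinearMap.ext
  intro x
  show A507_f I y (A507_f I y ((A507_B I).mkQ x)) = 0
  rw [A507_f_mk, A507_f_mk]
  rw [Submodule.mkQ_apply, Submodule.Quotient.mk_eq_zero]
  exact A507_sq y (LinearMap.mem_ker.1 x.2)

private noncomputable def A507_Phi (I : Type) :
    ExteriorAlgebra (ZMod 2) (I →₀ ZMod 2) →ₐ[ZMod 2] Module.End (ZMod 2) (A507_K I ⧸ A507_B I) :=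
  ExteriorAlgebra.lift (ZMod 2) ⟨A507_f I, A507_f_sq⟩

private theorem A507_Phi_ι (y : I →₀ ZMod 2) :
    A507_Phi I (ExteriorAlgebra.ι (ZMod 2) y) = A507_f I y :=
  ExteriorAlgebra.lift_ι_apply (ZMod 2) _ _ y

/-- the class of a word in primitives -/
private noncomputable def A507_cl (I : Type) : Wd I →ₗ[ZMod 2] (A507_K I ⧸ A507_B I) :=
  (A507_B I).mkQ.comp (emW.codRestrict (A507_K I) fun x => LinearMap.mem_ker.2 (Dw_emW x))

private theorem A507_f_cl (y : I →₀ ZMod 2) (x : Wd I) :
    A507_f I y (A507_cl I x) = A507_cl I (lc y x) := by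
  show A507_f I y ((A507_B I).mkQ _) = (A507_B I).mkQ _
  rw [A507_f_mk]
  congr 1
  apply Subtype.ext
  rw [A507_L_coe]
  exact (emW_lc y x).symm

private theorem A507_word (w : List I) :
    A507_Phi I (w.map fun i => ExteriorAlgebra.ι (ZMod 2) (Finsupp.single i 1)).prod
      (A507_cl I (Finsupp.single [] 1)) = A507_cl I (Finsupp.single w 1) := by
  induction w with
  | nil =>
    rw [List.map_nil, List.prod_nil, map_one]
    rfl
  | cons i w ih =>
    rw [List.map_cons, List.prod_cons, map_mul, Module.End.mul_apply, ih, A507_Phi_ι, A507_f_cl,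
      lc_single]

private theorem A507_ofFn {B M : Type} (w : List B) (g : B → M) :
    (List.ofFn fun j : Fin w.length => g (w.get j)) = w.map g := by
  conv_rhs => rw [← List.ofFn_get w, List.map_ofFn]
  rfl

private theorem A507_coe (w : List I) :
    ((rho I w.length (Finsupp.single w 1) : ⋀[ZMod 2]^w.length (I →₀ ZMod 2)) :
      ExteriorAlgebra (ZMod 2) (I →₀ ZMod 2)) =
      (w.map fun i => ExteriorAlgebra.ι (ZMod 2) (Finsupp.single i 1)).prod := by
  show ((wext (rhoW I w.length) (Finsupp.single w 1) : ⋀[ZMod 2]^w.length (I →₀ ZMod 2)) :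
    ExteriorAlgebra (ZMod 2) (I →₀ ZMod 2)) = _
  rw [wext_single]
  unfold rhoW
  rw [dif_pos rfl, exteriorPower.ιMulti_apply_coe, ExteriorAlgebra.ιMulti_apply]
  exact congrArg List.prod
    (A507_ofFn w fun b => ExteriorAlgebra.ι (ZMod 2) (Finsupp.single b 1 : I →₀ ZMod 2))

private theorem A507_cl_eq (q : ℕ) {p : Wd I} (hp : p ∈ Len I q) :
    A507_Phi I (rho I q p : ExteriorAlgebra (ZMod 2) (I →₀ ZMod 2))
      (A507_cl I (Finsupp.single [] 1)) = A507_cl I p := by
  classical
  have h1 : p ∈ Submodule.span (ZMod 2)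
      ((fun w : List I => (Finsupp.single w 1 : Wd I)) '' {w | w.length = q}) := by
    rw [← Finsupp.supported_eq_span_single]
    exact hp
  induction h1 using Submodule.span_induction with
  | mem x hx =>
    obtain ⟨w, hw, rfl⟩ := hx
    have hw' : w.length = q := hw
    subst hw'
    rw [A507_coe, A507_word]
  | zero =>
    rw [map_zero, map_zero, Submodule.coe_zero, map_zero]
    rfl
  | add x y hx hy ihx ihy =>
    have hx' : x ∈ Len I q := by
      rw [Len, Finsupp.supported_eq_span_single]; exact hx
    have hy' : y ∈ Len I q := by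
      rw [Len, Finsupp.supported_eq_span_single]; exact hy
    rw [map_add, map_add, Submodule.coe_add, map_add, LinearMap.add_apply, ihx hx', ihy hy']
  | smul r x hx ih =>
    have hx' : x ∈ Len I q := by
      rw [Len, Finsupp.supported_eq_span_single]; exact hx
    rw [map_smul, map_smul, Submodule.coe_smul, map_smul, LinearMap.smul_apply, ih hx']

/-! ### lengths -/

private noncomputable def A507_pr {B : Type} (k : ℕ) : Wd B →ₗ[ZMod 2] Wd B :=
  { toFun := fun c => c.filter (fun w => w.length = k)
    map_add' := fun _ _ => Finsupp.filter_add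
    map_smul' := fun _ _ => Finsupp.filter_smul }

private theorem A507_pr_mem {B : Type} (k : ℕ) (x : Wd B) : A507_pr k x ∈ Len B k := by
  refine (Finsupp.mem_supported _ _).2 fun w hw => ?_
  have hw' : w ∈ (Finsupp.filter (fun w => w.length = k) x).support := hw
  rw [Finsupp.support_filter, Finset.mem_filter] at hw'
  exact hw'.2

private theorem A507_pr_eq {B : Type} {k : ℕ} {x : Wd B} (hx : x ∈ Len B k) : A507_pr k x = x := by
  show Finsupp.filter (fun w => w.length = k) x = x
  rw [Finsupp.filter_eq_self_iff]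
  intro w hw
  exact (Finsupp.mem_supported _ _).1 hx (Finsupp.mem_support_iff.2 hw)

private theorem A507_pr_zero {B : Type} {k l : ℕ} (hkl : l ≠ k) {x : Wd B} (hx : x ∈ Len B l) :
    A507_pr k x = 0 := by
  show Finsupp.filter (fun w => w.length = k) x = 0
  rw [Finsupp.filter_eq_zero_iff]
  intro w hw
  by_contra h0
  have h1 : w.length = l := (Finsupp.mem_supported _ _).1 hx (Finsupp.mem_support_iff.2 h0)
  exact hkl (h1.symm.trans hw)

private theorem A507_single_mem {B : Type} (w : List B) :
    (Finsupp.single w 1 : Wd B) ∈ Len B w.length :=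
  Finsupp.single_mem_supported _ _ rfl

private theorem A507_Dw_pr (k : ℕ) (x : Wd (Lt I)) :
    A507_pr (k + 1) (Dw x) = Dw (A507_pr k x) := by
  have h : (A507_pr (k + 1)).comp Dw = (Dw : Wd (Lt I) →ₗ[ZMod 2] Wd (Lt I)).comp (A507_pr k) := by
    refine Finsupp.lhom_ext' fun w => LinearMap.ext_ring ?_
    show A507_pr (k + 1) (Dw (Finsupp.single w 1)) = Dw (A507_pr k (Finsupp.single w 1))
    have h1 := Dw_Len (A507_single_mem w)
    by_cases hw : w.length = k
    · have h2 := A507_single_mem w
      rw [hw] at h1 h2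
      rw [A507_pr_eq h1, A507_pr_eq h2]
    · rw [A507_pr_zero (fun h => hw (by omega)) h1, A507_pr_zero hw (A507_single_mem w), map_zero]
  exact LinearMap.congr_fun h x

theorem rho_ker {I : Type} (q : ℕ) {p : Wd I} (hp : p ∈ Len I (q + 1)) (h : rho I (q + 1) p = 0) :
    ∃ x ∈ Len (Lt I) q, emW p = Dw x := by
  have h1 := A507_cl_eq (q + 1) hp
  rw [h, Submodule.coe_zero, map_zero, LinearMap.zero_apply] at h1
  have h2 : (emW.codRestrict (A507_K I) fun x => LinearMap.mem_ker.2 (Dw_emW x)) p ∈ A507_B I :=
    (Submodule.Quotient.mk_eq_zero _).1 h1.symm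
  obtain ⟨z, hz⟩ := h2
  have hz' : Dw z = emW p := hz
  refine ⟨A507_pr q z, A507_pr_mem q z, ?_⟩
  rw [← A507_Dw_pr, hz', A507_pr_eq (emW_Len hp)]

end MM
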