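import Pool.Agent.Lib_MP_33f7bb_d.A504

/-!
# A5-08: the rows of the double complex

`dT_dT`: the usual cancellation in `∑_i ∑_j wmap (cf (s+1) i) (wmap (cf s j) x)` (`i ≤ s + 2`, `j ≤ s + 1`): terms with `j < i` and
terms with `i ≤ j` are matched by `cf (s+1) (j+1) ∘ cf s i = cf (s+1) i ∘ cf s j`, `i ≤ j` (`X.rel.dd`, `wmap_comp`).
`Dw_dT`, `dT_prk`, `dT_T`, `dT_emW`: from `Dw_wmap`, `wmap_prk`, `wmap_LenD`, `wmap_emW`.
`row_succ`: `H := wmap (X.h s)`, `0 = wmap (X.h (s+1)) (dT (s+1) x) = wmap (h (s+1) ∘ cf (s+1) 0) x + ∑_(i ≤ s+1) wmap (h (s+1) ∘ cf (s+1) (i+1)) x =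
x + ∑_(i ≤ s+1) wmap (cf s i) (wmap (h s) x) = x + dT s (H x)` (`Finset.sum_range_succ'`, `wmap_comp`, `wmap_id`; equality of linear maps
`(X.h (s+1)).comp (X.cf (s+1) (i+1)) = (X.cf s i).comp (X.h s)` for `i ≤ s + 1`).  `w = H x`.
`row_zero`: `dT 0 x = wmap (cf 0 0) x + wmap (cf 0 1) x = 0`; apply `wmap (h 0)`: `x + wmap aug (wmap h0 x) = 0`; `wmap h0 x` is of
length `q` and degree `k` for the constant degree `N`, so zero (`LenD_const`).
-/

namespace MM

private theorem A508_two {V : Type*} [AddCommGroup V] [Module (ZMod 2) V] (x : V) : x + x = 0 := by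
  rw [← two_smul (ZMod 2) x, show (2 : ZMod 2) = 0 from rfl, zero_smul]

private theorem A508_eq {V : Type*} [AddCommGroup V] [Module (ZMod 2) V] {x y : V}
    (h : x + y = 0) : y = x := by
  have h1 : x + y = x + x := by rw [h, A508_two]
  exact add_left_cancel h1

private theorem A508_wcomp {B B' B'' : Type} (g : (B' →₀ ZMod 2) →ₗ[ZMod 2] (B'' →₀ ZMod 2))
    (f : (B →₀ ZMod 2) →ₗ[ZMod 2] (B' →₀ ZMod 2)) (x : Wd B) :
    wmap g (wmap f x) = wmap (g.comp f) x := by
  rw [wmap_comp]; rfl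

namespace CoB

variable (X : CoB)

private theorem A508_dT_apply (s : ℕ) (x : Wd (Lt (X.I s))) :
    X.dT s x = ∑ i ∈ Finset.range (s + 2), wmap (X.cf s i) x := by
  rw [dT, LinearMap.sum_apply]

theorem dT_dT (s : ℕ) (x : Wd (Lt (X.I s))) : X.dT (s + 1) (X.dT s x) = 0 := by
  rw [A508_dT_apply, A508_dT_apply]
  simp only [map_sum]
  rw [← Finset.sum_product']
  have key : ∀ i j, i ≤ j → j ≤ s + 1 →
      wmap (X.cf (s + 1) (j + 1)) (wmap (X.cf s i) x) =
        wmap (X.cf (s + 1) i) (wmap (X.cf s j) x) := by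
    intro i j hij hj
    rw [A508_wcomp, A508_wcomp]
    congr 2
    exact LinearMap.ext fun y => X.rel.dd s i j y hij hj
  refine Finset.sum_involution (fun p _ => if p.2 < p.1 then (p.2, p.1 - 1) else (p.2 + 1, p.1))
    ?_ ?_ ?_ ?_
  · rintro ⟨i, j⟩ hp
    simp only [Finset.mem_product, Finset.mem_range] at hp
    by_cases hji : j < i
    · simp only [hji, if_true]
      have h1 := key j (i - 1) (by omega) (by omega)
      rw [show i - 1 + 1 = i by omega] at h1
      rw [h1]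
      exact A508_two _
    · simp only [hji, if_false]
      have h1 := key i j (by omega) (by omega)
      rw [h1]
      exact A508_two _
  · rintro ⟨i, j⟩ hp _
    simp only [Finset.mem_product, Finset.mem_range] at hp
    by_cases hji : j < i
    · simp only [hji, if_true, ne_eq, Prod.mk.injEq]
      omega
    · simp only [hji, if_false, ne_eq, Prod.mk.injEq]
      omega
  · rintro ⟨i, j⟩ hp
    simp only [Finset.mem_product, Finset.mem_range] at hp
    by_cases hji : j < i
    · simp only [hji, if_true, Finset.mem_product, Finset.mem_range]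
      omega
    · simp only [hji, if_false, Finset.mem_product, Finset.mem_range]
      omega
  · rintro ⟨i, j⟩ hp
    simp only [Finset.mem_product, Finset.mem_range] at hp
    by_cases hji : j < i
    · simp only [hji, if_true]
      rw [if_neg (by omega)]
      exact Prod.ext (by show i - 1 + 1 = i; omega) rfl
    · simp only [hji, if_false]
      rw [if_pos (by omega)]
      exact Prod.ext rfl (by show j + 1 - 1 = j; omega)

theorem Dw_dT (s : ℕ) (x : Wd (Lt (X.I s))) : Dw (X.dT s x) = X.dT s (Dw x) := by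
  rw [A508_dT_apply, A508_dT_apply, map_sum]
  exact Finset.sum_congr rfl fun i _ => Dw_wmap (X.cf_co s i) x

theorem dT_prk (s k : ℕ) (x : Wd (Lt (X.I s))) :
    X.dT s (prk (Lt.deg (X.dg s)) k x) = prk (Lt.deg (X.dg (s + 1))) k (X.dT s x) := by
  rw [A508_dT_apply, A508_dT_apply, map_sum]
  exact Finset.sum_congr rfl fun i _ => wmap_prk (X.cf_deg s i) k x

theorem dT_T {s q k : ℕ} {x : Wd (Lt (X.I s))} (hx : x ∈ X.T s q k) : X.dT s x ∈ X.T (s + 1) q k := by
  rw [A508_dT_apply]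
  exact Submodule.sum_mem _ fun i _ => wmap_LenD (X.cf_deg s i) hx

theorem dT_emW (s : ℕ) (p : Wd (X.I s)) : X.dT s (emW p) = emW (X.pdT s p) := by
  rw [A508_dT_apply, pdT, LinearMap.sum_apply, map_sum]
  exact Finset.sum_congr rfl fun i _ => wmap_emW (X.cf_co s i) p

theorem pdT_Len {s q : ℕ} {p : Wd (X.I s)} (hp : p ∈ Len (X.I s) q) :
    X.pdT s p ∈ Len (X.I (s + 1)) q := by
  rw [pdT, LinearMap.sum_apply]
  exact Submodule.sum_mem _ fun i _ => wmap_Len _ hp

theorem pdT_one (s : ℕ) (z : X.I s →₀ ZMod 2) :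
    X.pdT s (lc z (Finsupp.single [] 1)) = lc (X.pd s z) (Finsupp.single [] 1) := by
  rw [pdT, pd, LinearMap.sum_apply, LinearMap.sum_apply, map_sum, LinearMap.sum_apply]
  refine Finset.sum_congr rfl fun i _ => ?_
  rw [wmap_lc, wmap_nil]

theorem row_zero {q k : ℕ} (hk : k ≠ q * X.N) {x : Wd (Lt (X.I 0))} (hx : x ∈ X.T 0 q k)
    (h : X.dT 0 x = 0) : x = 0 := by
  rw [A508_dT_apply] at h
  have h1 := congrArg (wmap (X.h 0)) h
  rw [map_zero, map_sum] at h1
  simp only [Finset.sum_range_succ, Finset.sum_range_zero, zero_add] at h1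
  rw [A508_wcomp, A508_wcomp] at h1
  have e0 : (X.h 0).comp (X.cf 0 0) = LinearMap.id := LinearMap.ext fun y => X.h_zero 0 y
  have e1 : (X.h 0).comp (X.cf 0 1) = X.aug.comp X.h0 := LinearMap.ext fun y => X.h_aug y
  have e2 : wmap X.h0 x = 0 := LenD_const hk (wmap_LenD X.h0_deg hx)
  rw [e0, e1, ← A508_wcomp, e2, map_zero, wmap_id, add_zero] at h1
  exact h1

theorem row_succ {s q k : ℕ} {x : Wd (Lt (X.I (s + 1)))} (hx : x ∈ X.T (s + 1) q k)
    (h : X.dT (s + 1) x = 0) : ∃ w ∈ X.T s q k, X.dT s w = x := by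
  refine ⟨wmap (X.h s) x, wmap_LenD (X.h_deg s) hx, ?_⟩
  rw [A508_dT_apply] at h
  have h1 := congrArg (wmap (X.h (s + 1))) h
  rw [map_zero, map_sum, Finset.sum_range_succ'] at h1
  rw [A508_wcomp (X.h (s + 1)) (X.cf (s + 1) 0)] at h1
  have e0 : (X.h (s + 1)).comp (X.cf (s + 1) 0) = LinearMap.id :=
    LinearMap.ext fun y => X.h_zero (s + 1) y
  rw [e0, wmap_id, LinearMap.id_apply] at h1
  have e1 : ∑ i ∈ Finset.range (s + 2), wmap (X.h (s + 1)) (wmap (X.cf (s + 1) (i + 1)) x) =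
      X.dT s (wmap (X.h s) x) := by
    rw [A508_dT_apply]
    refine Finset.sum_congr rfl fun i hi => ?_
    rw [A508_wcomp, A508_wcomp]
    congr 2
    exact LinearMap.ext fun y => X.h_succ s i y (by have := Finset.mem_range.1 hi; omega)
  rw [e1] at h1
  exact A508_eq ((add_comm _ _).trans h1)

end CoB

end MM
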