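import Pool.Agent.Lib_MP_33f7bb_d.A503

/-!
# A5-04: primitive letters

`copL_em`: `cop (ε_i) = 0` (`single i 1 = a + b` with `a, b ≠ 0` is impossible).
`em_pr`: let `copL x = 0`.  The coefficient of `(a, b)` in `copL x` is `x (a + b)` (`cop_apply_eq/ne`; `a + b ≠ 0`).  If `x e ≠ 0` and `e` is
not some `ε_i`, then `e = a + b` with `a = single i 1`, `b = e - a ≠ 0` for some `i` in the support of `e`: contradiction.  So `x` is
supported on the range of `eps`.
`CoMap.em`: `copL (f (em x)) = sqm f (copL (em x)) = 0` (linearity), apply `em_pr`.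
`pmap_comp`: from `CoMap.em` and `pr (em y) = y`.
`CoB.pRel`: apply `pr ∘ _ ∘ em` to the identities of `X.rel` (`pmap_comp`-like: `pcd (pcf x) = pr (cd (em (pr (cf (em x))))) = pr (cd (cf
(em x)))` by `CoMap.em`).
`wmap_emW`: on words by induction, `emW (lc y x) = lc (em y) (emW x)`.
`Dw_emW`: on words by induction (`Dw_lc`, `copL_em`).
`Dw_eq_zero_one`: `x = lc y [] `, `Dw x = lc2 (copL y) []`, so `copL y = 0`, `y = em (pr y)`.
-/

namespace MM

variable {I I' I'' : Type}

/-! auxiliary lemmas -/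

private theorem a504_em_single (i : I) (c : ZMod 2) :
    Lt.em (Finsupp.single i c) = Finsupp.single (Lt.eps i) c :=
  Finsupp.mapDomain_single

private theorem a504_em_apply (x : I →₀ ZMod 2) (i : I) : (Lt.em x) (Lt.eps i) = x i :=
  Finsupp.mapDomain_apply Lt.eps_injective x i

private theorem a504_pr_apply (y : Lt I →₀ ZMod 2) (i : I) : (Lt.pr y) i = y (Lt.eps i) := rfl

private theorem a504_copL_single (e : Lt I) (c : ZMod 2) :
    Lt.copL (Finsupp.single e c) = c • e.cop :=
  Finsupp.linearCombination_single _ _ _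

private theorem a504_split (i : I) (a b : I →₀ ℕ) (ha : a ≠ 0) (hb : b ≠ 0) :
    a + b ≠ Finsupp.single i 1 := by
  classical
  intro h
  have key : ∀ c : I →₀ ℕ, c ≠ 0 → (∀ j, c j ≤ (Finsupp.single i 1 : I →₀ ℕ) j) → 1 ≤ c i := by
    intro c hc hle
    obtain ⟨j, hj⟩ := Finsupp.ne_iff.1 hc
    rw [Finsupp.zero_apply] at hj
    have h1 := hle j
    by_cases hij : i = j
    · subst hij
      omega
    · rw [Finsupp.single_eq_of_ne (Ne.symm hij)] at h1
      omega
  have hadd : ∀ j, a j + b j = (Finsupp.single i 1 : I →₀ ℕ) j := fun j => by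
    rw [← h]; rfl
  have h1 := key a ha fun j => by have := hadd j; omega
  have h2 := key b hb fun j => by have := hadd j; omega
  have h3 := hadd i
  rw [Finsupp.single_eq_same] at h3
  omega

private theorem a504_cop_eps (i : I) : (Lt.eps i).cop = 0 := by
  ext p
  obtain ⟨a, b⟩ := p
  exact cop_apply_ne (Lt.eps i) a b (a504_split i a.1 b.1 a.2 b.2)

private theorem a504_lc_nil (B : Type) (y : B →₀ ZMod 2) :
    lc y (Finsupp.single [] 1) = Finsupp.mapDomain (fun b => [b]) y := by
  induction y using Finsupp.induction_linear with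
  | zero => simp
  | add f g hf hg => rw [map_add, LinearMap.add_apply, hf, hg, Finsupp.mapDomain_add]
  | single b c =>
    have h1 : (Finsupp.single b c : B →₀ ZMod 2) = c • Finsupp.single b 1 := by simp
    rw [h1, map_smul, LinearMap.smul_apply, lc_single, Finsupp.mapDomain_smul,
      Finsupp.mapDomain_single]

private theorem a504_lc2_nil (B : Type) (y : B × B →₀ ZMod 2) :
    lc2 y (Finsupp.single [] 1) = Finsupp.mapDomain (fun p : B × B => [p.1, p.2]) y := by
  induction y using Finsupp.induction_linear with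
  | zero => simp
  | add f g hf hg => rw [map_add, LinearMap.add_apply, hf, hg, Finsupp.mapDomain_add]
  | single p c =>
    obtain ⟨a, b⟩ := p
    have h1 : (Finsupp.single (a, b) c : B × B →₀ ZMod 2) = c • Finsupp.single (a, b) 1 := by simp
    rw [h1, map_smul, LinearMap.smul_apply, lc2_single, lc_single, lc_single,
      Finsupp.mapDomain_smul, Finsupp.mapDomain_single]

private theorem a504_nil : emW (Finsupp.single ([] : List I) 1) = Finsupp.single [] 1 :=
  Finsupp.mapDomain_single

private theorem a504_wd_ind {B : Type} {M : Type} [AddCommGroup M] [Module (ZMod 2) M]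
    (f g : Wd B →ₗ[ZMod 2] M) (h : ∀ w : List B, f (Finsupp.single w 1) = g (Finsupp.single w 1))
    (x : Wd B) : f x = g x := by
  have : f = g := Finsupp.lhom_ext' fun w => LinearMap.ext_ring (h w)
  rw [this]

theorem pr_em (x : I →₀ ZMod 2) : Lt.pr (Lt.em x) = x := by
  ext i
  rw [a504_pr_apply, a504_em_apply]

theorem copL_em (x : I →₀ ZMod 2) : Lt.copL (Lt.em x) = 0 := by
  induction x using Finsupp.induction_linear with
  | zero => rw [map_zero, map_zero]
  | add f g hf hg => rw [map_add, map_add, hf, hg, add_zero]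
  | single i c => rw [a504_em_single, a504_copL_single, a504_cop_eps, smul_zero]

private theorem a504_copL_apply (x : Lt I →₀ ZMod 2) (a b : Lt I) (h : a.1 + b.1 ≠ 0) :
    Lt.copL x (a, b) = x ⟨a.1 + b.1, h⟩ := by
  classical
  induction x using Finsupp.induction_linear with
  | zero => rw [map_zero]; rfl
  | add f g hf hg => rw [map_add, Finsupp.add_apply, hf, hg, Finsupp.add_apply]
  | single e c =>
    rw [a504_copL_single, Finsupp.smul_apply]
    by_cases he : a.1 + b.1 = e.1
    · rw [cop_apply_eq e a b he]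
      have h1 : e = ⟨a.1 + b.1, h⟩ := Subtype.ext he.symm
      rw [← h1, Finsupp.single_eq_same, smul_eq_mul, mul_one]
    · rw [cop_apply_ne e a b he, Finsupp.single_eq_of_ne, smul_zero]
      intro h1
      exact he (congrArg Subtype.val h1)

theorem em_pr {x : Lt I →₀ ZMod 2} (h : Lt.copL x = 0) : Lt.em (Lt.pr x) = x := by
  classical
  refine Finsupp.mapDomain_comapDomain Lt.eps Lt.eps_injective x ?_
  intro e he
  have hxe : x e ≠ 0 := Finsupp.mem_support_iff.1 he
  by_contra hr
  obtain ⟨i, hi⟩ := Finsupp.ne_iff.1 e.2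
  rw [Finsupp.zero_apply] at hi
  have hle : Finsupp.single i 1 ≤ e.1 := by
    rw [Finsupp.single_le_iff]
    omega
  have hadd : Finsupp.single i 1 + (e.1 - Finsupp.single i 1) = e.1 := add_tsub_cancel_of_le hle
  have hb : e.1 - Finsupp.single i 1 ≠ 0 := by
    intro h0
    rw [h0, add_zero] at hadd
    exact hr ⟨i, Subtype.ext hadd⟩
  have h1 := a504_copL_apply x (Lt.eps i) ⟨e.1 - Finsupp.single i 1, hb⟩ (by
    show Finsupp.single i 1 + (e.1 - Finsupp.single i 1) ≠ 0
    rw [hadd]; exact e.2)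
  rw [h, Finsupp.zero_apply] at h1
  have h2 : (⟨(Lt.eps i).1 + (e.1 - Finsupp.single i 1), by
    show Finsupp.single i 1 + (e.1 - Finsupp.single i 1) ≠ 0
    rw [hadd]; exact e.2⟩ : Lt I) = e := Subtype.ext hadd
  rw [h2] at h1
  exact hxe h1.symm

private theorem a504_copL_map {f : (Lt I →₀ ZMod 2) →ₗ[ZMod 2] (Lt I' →₀ ZMod 2)} (hf : CoMap f)
    (y : Lt I →₀ ZMod 2) : Lt.copL (f y) = sqm f (Lt.copL y) := by
  induction y using Finsupp.induction_linear with
  | zero => simp only [map_zero]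
  | add a b ha hb => simp only [map_add, ha, hb]
  | single e c =>
    have h1 : (Finsupp.single e c : Lt I →₀ ZMod 2) = c • Finsupp.single e 1 := by simp
    rw [h1, map_smul, map_smul, map_smul, map_smul, hf e, a504_copL_single, one_smul]

theorem CoMap.em {f : (Lt I →₀ ZMod 2) →ₗ[ZMod 2] (Lt I' →₀ ZMod 2)} (hf : CoMap f)
    (x : I →₀ ZMod 2) : f (Lt.em x) = Lt.em (pmap f x) := by
  have h1 : Lt.copL (f (Lt.em x)) = 0 := by
    rw [a504_copL_map hf, copL_em, map_zero]
  exact (em_pr h1).symm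

private theorem a504_deg_eps (dg : I → ℕ) (i : I) : Lt.deg dg (Lt.eps i) = dg i := by
  show (Finsupp.single i 1 : I →₀ ℕ).sum (fun i n => n * dg i) = dg i
  rw [Finsupp.sum_single_index (by simp), one_mul]

theorem pmap_deg {dg : I → ℕ} {dg' : I' → ℕ} {f : (Lt I →₀ ZMod 2) →ₗ[ZMod 2] (Lt I' →₀ ZMod 2)}
    (hf : DegPres (Lt.deg dg) (Lt.deg dg') f) : DegPres dg dg' (pmap f) := by
  intro i i' hi'
  have h1 : (pmap f (Finsupp.single i 1)) i' ≠ 0 := Finsupp.mem_support_iff.1 hi'
  have h2 : (pmap f (Finsupp.single i 1)) i' = f (Finsupp.single (Lt.eps i) 1) (Lt.eps i') := by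
    show (Lt.pr (f (Lt.em (Finsupp.single i 1)))) i' = _
    rw [a504_pr_apply, a504_em_single]
  rw [h2] at h1
  have h3 := hf (Lt.eps i) (Lt.eps i') (Finsupp.mem_support_iff.2 h1)
  rwa [a504_deg_eps, a504_deg_eps] at h3

theorem emW_lc (y : I →₀ ZMod 2) (x : Wd I) : emW (lc y x) = lc (Lt.em y) (emW x) := by
  induction y using Finsupp.induction_linear with
  | zero => simp only [map_zero, LinearMap.zero_apply]
  | add a b ha hb => simp only [map_add, LinearMap.add_apply, ha, hb]
  | single i c =>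
    have h1 : (Finsupp.single i c : I →₀ ZMod 2) = c • Finsupp.single i 1 := by simp
    rw [h1]
    simp only [map_smul, LinearMap.smul_apply]
    congr 1
    refine a504_wd_ind (emW.comp (lc (Finsupp.single i 1)))
      ((lc (Lt.em (Finsupp.single i 1))).comp emW) (fun w => ?_) x
    show emW (lc (Finsupp.single i 1) (Finsupp.single w 1)) =
      lc (Lt.em (Finsupp.single i 1)) (emW (Finsupp.single w 1))
    rw [lc_single, a504_em_single]
    have h2 : ∀ v : List I, emW (Finsupp.single v 1) = Finsupp.single (v.map Lt.eps) 1 :=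
      fun v => Finsupp.mapDomain_single
    rw [h2, h2, lc_single]
    rfl

theorem wmap_emW {f : (Lt I →₀ ZMod 2) →ₗ[ZMod 2] (Lt I' →₀ ZMod 2)} (hf : CoMap f) (x : Wd I) :
    wmap f (emW x) = emW (wmap (pmap f) x) := by
  refine a504_wd_ind ((wmap f).comp emW) (emW.comp (wmap (pmap f))) (fun w => ?_) x
  show wmap f (emW (Finsupp.single w 1)) = emW (wmap (pmap f) (Finsupp.single w 1))
  induction w with
  | nil => rw [a504_nil, wmap_nil, wmap_nil, a504_nil]
  | cons i w ih =>
    rw [← lc_single, emW_lc, wmap_lc, wmap_lc, emW_lc, ih, hf.em]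

theorem Dw_emW (x : Wd I) : Dw (emW x) = 0 := by
  refine a504_wd_ind (Dw.comp emW) 0 (fun w => ?_) x
  show Dw (emW (Finsupp.single w 1)) = 0
  induction w with
  | nil => rw [a504_nil, Dw_nil]
  | cons i w ih =>
    rw [← lc_single, emW_lc, Dw_lc, ih, copL_em, map_zero, map_zero, LinearMap.zero_apply,
      add_zero]

theorem emW_Len {q : ℕ} {x : Wd I} (hx : x ∈ Len I q) : emW x ∈ Len (Lt I) q := by
  classical
  rw [Len, Finsupp.mem_supported] at hx ⊢
  intro y hy
  obtain ⟨w, hw, rfl⟩ := Finset.mem_image.1 (Finsupp.mapDomain_support hy)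
  have h1 : w.length = q := hx hw
  show (w.map Lt.eps).length = q
  rw [List.length_map, h1]

private theorem a504_sum_deg (dg : I → ℕ) (w : List I) :
    ((w.map Lt.eps).map (Lt.deg dg)).sum = (w.map dg).sum := by
  rw [List.map_map]
  congr 1
  apply List.map_congr_left
  intro i _
  exact a504_deg_eps dg i

theorem emW_LenD {dg : I → ℕ} {q k : ℕ} {x : Wd I} (hx : x ∈ LenD dg q k) :
    emW x ∈ LenD (Lt.deg dg) q k := by
  classical
  rw [LenD, Finsupp.mem_supported] at hx ⊢
  intro y hy
  obtain ⟨w, hw, rfl⟩ := Finset.mem_image.1 (Finsupp.mapDomain_support hy)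
  have h1 : w.length = q ∧ (w.map dg).sum = k := hx hw
  show (w.map Lt.eps).length = q ∧ ((w.map Lt.eps).map (Lt.deg dg)).sum = k
  rw [List.length_map, a504_sum_deg]
  exact h1

theorem emW_prk (dg : I → ℕ) (k : ℕ) (x : Wd I) :
    emW (prk dg k x) = prk (Lt.deg dg) k (emW x) := by
  refine a504_wd_ind (emW.comp (prk dg k)) ((prk (Lt.deg dg) k).comp emW) (fun w => ?_) x
  show emW ((Finsupp.single w 1 : Wd I).filter (fun w => (w.map dg).sum = k)) =
    (emW (Finsupp.single w 1)).filter (fun w => (w.map (Lt.deg dg)).sum = k)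
  have h2 : emW (Finsupp.single w 1) = Finsupp.single (w.map Lt.eps) 1 :=
    Finsupp.mapDomain_single
  rw [h2]
  by_cases hw : (w.map dg).sum = k
  · have hw2 : ((w.map Lt.eps).map (Lt.deg dg)).sum = k := by rw [a504_sum_deg]; exact hw
    rw [Finsupp.filter_single_of_pos (p := fun w : List I => (w.map dg).sum = k) hw,
      Finsupp.filter_single_of_pos (p := fun w : List (Lt I) => (w.map (Lt.deg dg)).sum = k) hw2,
      h2]
  · have hw2 : ¬ ((w.map Lt.eps).map (Lt.deg dg)).sum = k := by rw [a504_sum_deg]; exact hw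
    rw [Finsupp.filter_single_of_neg (p := fun w : List I => (w.map dg).sum = k) hw,
      Finsupp.filter_single_of_neg (p := fun w : List (Lt I) => (w.map (Lt.deg dg)).sum = k) hw2,
      map_zero]

/-- primitive words of length one -/
theorem Dw_eq_zero_one {x : Wd (Lt I)} (hx : x ∈ Len (Lt I) 1) (h : Dw x = 0) :
    ∃ w : I →₀ ZMod 2, x = emW (lc w (Finsupp.single [] 1)) := by
  classical
  have hinj : Function.Injective (fun b : Lt I => [b]) := fun a b hab => List.singleton_injective hab
  let y : Lt I →₀ ZMod 2 := Finsupp.comapDomain (fun b : Lt I => [b]) x hinj.injOn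
  have hy : Finsupp.mapDomain (fun b : Lt I => [b]) y = x := by
    refine Finsupp.mapDomain_comapDomain _ hinj x ?_
    rw [Len, Finsupp.mem_supported] at hx
    intro w hw
    have h1 : w.length = 1 := hx hw
    obtain ⟨b, rfl⟩ := List.length_eq_one_iff.1 h1
    exact ⟨b, rfl⟩
  have hxy : x = lc y (Finsupp.single [] 1) := by rw [a504_lc_nil, hy]
  have h2 : lc2 (Lt.copL y) (Finsupp.single [] 1) = (0 : Wd (Lt I)) := by
    rw [hxy, Dw_lc, Dw_nil, map_zero, add_zero] at h
    exact h
  rw [a504_lc2_nil] at h2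
  have hinj2 : Function.Injective (fun p : Lt I × Lt I => [p.1, p.2]) := by
    rintro ⟨a, b⟩ ⟨a', b'⟩ hab
    simp only [List.cons.injEq, and_true] at hab
    rw [hab.1, hab.2]
  have h3 : Lt.copL y = 0 := Finsupp.mapDomain_injective hinj2 (by
    rw [h2, Finsupp.mapDomain_zero])
  refine ⟨Lt.pr y, ?_⟩
  rw [emW_lc, em_pr h3, a504_nil]
  exact hxy

theorem emW_one_LenD {dg : I → ℕ} {k : ℕ} {z : I →₀ ZMod 2} :
    emW (lc z (Finsupp.single [] 1)) ∈ LenD (Lt.deg dg) 1 k ↔ ∀ i ∈ z.support, dg i = k := by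
  classical
  rw [emW_lc, a504_nil, LenD_one]
  constructor
  · intro h i hi
    have h1 := h (Lt.eps i) (by
      rw [Finsupp.mem_support_iff, a504_em_apply]
      exact Finsupp.mem_support_iff.1 hi)
    rwa [a504_deg_eps] at h1
  · intro h b hb
    obtain ⟨i, hi, rfl⟩ := Finset.mem_image.1 (Finsupp.mapDomain_support hb)
    rw [a504_deg_eps]
    exact h i hi

theorem emW_one_injective : Function.Injective fun z : I →₀ ZMod 2 =>
    (emW (lc z (Finsupp.single [] 1)) : Wd (Lt I)) := by
  intro z z' h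
  have h1 : emW (lc z (Finsupp.single [] 1)) = emW (lc z' (Finsupp.single [] 1)) := h
  rw [emW_lc, emW_lc, a504_nil, a504_lc_nil, a504_lc_nil] at h1
  have hinj : Function.Injective (fun b : Lt I => [b]) := fun a b hab => List.singleton_injective hab
  have h2 := Finsupp.mapDomain_injective hinj h1
  exact Finsupp.mapDomain_injective Lt.eps_injective h2

private theorem a504_pmap_comp {g : (Lt I' →₀ ZMod 2) →ₗ[ZMod 2] (Lt I'' →₀ ZMod 2)}
    {f : (Lt I →₀ ZMod 2) →ₗ[ZMod 2] (Lt I' →₀ ZMod 2)} (hf : CoMap f) (x : I →₀ ZMod 2) :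
    pmap g (pmap f x) = Lt.pr (g (f (Lt.em x))) := by
  show Lt.pr (g (Lt.em (pmap f x))) = _
  rw [← hf.em]

/-- the cosimplicial identities of the primitives -/
theorem CoB.pRel (X : CoB) : CosRel X.pcf X.pcd where
  dd s i j x h h' := by
    show pmap (X.cf (s + 1) (j + 1)) (pmap (X.cf s i) x) =
      pmap (X.cf (s + 1) i) (pmap (X.cf s j) x)
    rw [a504_pmap_comp (X.cf_co s i), a504_pmap_comp (X.cf_co s j), X.rel.dd s i j _ h h']
  σσ s i j x h h' := by
    show pmap (X.cd s j) (pmap (X.cd (s + 1) i) x) = pmap (X.cd s i) (pmap (X.cd (s + 1) (j + 1)) x)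
    rw [a504_pmap_comp (X.cd_co (s + 1) i), a504_pmap_comp (X.cd_co (s + 1) (j + 1)),
      X.rel.σσ s i j _ h h']
  σd_lt s i j x h h' := by
    show pmap (X.cd (s + 1) (j + 1)) (pmap (X.cf (s + 1) i) x) =
      pmap (X.cf s i) (pmap (X.cd s j) x)
    rw [a504_pmap_comp (X.cf_co (s + 1) i), a504_pmap_comp (X.cd_co s j),
      X.rel.σd_lt s i j _ h h']
  σd_eq s j x h := by
    show pmap (X.cd s j) (pmap (X.cf s j) x) = x
    rw [a504_pmap_comp (X.cf_co s j), X.rel.σd_eq s j _ h, pr_em]
  σd_eq' s j x h := by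
    show pmap (X.cd s j) (pmap (X.cf s (j + 1)) x) = x
    rw [a504_pmap_comp (X.cf_co s (j + 1)), X.rel.σd_eq' s j _ h, pr_em]
  σd_gt s i j x h h' := by
    show pmap (X.cd (s + 1) i) (pmap (X.cf (s + 1) (j + 2)) x) =
      pmap (X.cf s (j + 1)) (pmap (X.cd s i) x)
    rw [a504_pmap_comp (X.cf_co (s + 1) (j + 2)), a504_pmap_comp (X.cd_co s i),
      X.rel.σd_gt s i j _ h h']

end MM
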