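import Pool.Agent.Lib_MP_33f7bb_d.A504

/-!
# A5-06: primitive words and the exterior power

`rho_Dw`: define `rho' : Wd (Lt I) → ⋀^q (I →₀ F)` on words: `w ↦ ιMulti (fun j => Lt.pr (single (w.get j) 1))` if `w.length = q`, `0`
otherwise (`Lt.pr (single e 1) = single i 1` if `e = ε_i`, `0` otherwise).  `rho' (emW p) = rho p`.  `rho' (Dw x) = 0`: for a word `w` of
length `q - 1`, `Dw w = ∑_j w_1 .. cop(w_j) .. w_(q-1)`; `rho'` of `u a b v` (`u, v` words) is
`u' ∧ pr a ∧ pr b ∧ v'`, and the sum over the splittings `(a, b)` of a letter `e` is `0`: it is non-zero only for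
`e = ε_i + ε_l`: `i ≠ l`: `ε_i ∧ ε_l + ε_l ∧ ε_i = 0`; `i = l`: `ε_i ∧ ε_i = 0`.  (Formally: the map `Wd → Wd → ExteriorAlgebra`,
word `w ↦ ∏ ι (pr w_j)` is multiplicative; `rho'` is this map restricted to length `q`; and `∑ ι(pr a) ι(pr b)` over the
splittings is zero.  `exteriorPower.ιMulti_apply_coe`, `ExteriorAlgebra.ιMulti_apply`: `ιMulti v = (List.ofFn fun i => ι R (v i)).prod`.
So the recommended way: define the linear map `Wd I → ExteriorAlgebra`, `w ↦ (w.map (ι ∘ single · 1)).prod`, which on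
`Len q` is the composite of `rho` with the inclusion, and work with lists in the exterior algebra.)
`rho_wmap`: same: on words of length `q`, both sides are `ιMulti (f w_1, ..., f w_q)` (multilinearity: `wmap f w = f(w_1) ... f(w_q)`).
`rho_surj`: `exteriorPower.ιMulti_span_of_span` with `s = {single i 1}`, or `rho` of words hit `ιMulti (single ∘ l)`, span.
`rho_WD`: on words.
-/

namespace MM

/-- product of the images of the letters, on words of length `q` -/
private noncomputable def A506_G {B I : Type} (L : (B →₀ ZMod 2) →ₗ[ZMod 2] (I →₀ ZMod 2)) (q : ℕ)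
    (w : List B) : ExteriorAlgebra (ZMod 2) (I →₀ ZMod 2) :=
  if w.length = q then (w.map fun b => ExteriorAlgebra.ι (ZMod 2) (L (Finsupp.single b 1))).prod
  else 0

private noncomputable def A506_R {B I : Type} (L : (B →₀ ZMod 2) →ₗ[ZMod 2] (I →₀ ZMod 2))
    (q : ℕ) : Wd B →ₗ[ZMod 2] ExteriorAlgebra (ZMod 2) (I →₀ ZMod 2) := wext (A506_G L q)

private theorem A506_ext {B M : Type} [AddCommGroup M] [Module (ZMod 2) M]
    {f g : Wd B →ₗ[ZMod 2] M}
    (h : ∀ w, f (Finsupp.single w 1) = g (Finsupp.single w 1)) : f = g := by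
  refine Finsupp.lhom_ext fun w r => ?_
  have h1 : (Finsupp.single w r : Wd B) = r • Finsupp.single w 1 := by
    rw [Finsupp.smul_single, smul_eq_mul, mul_one]
  rw [h1, map_smul, map_smul, h]

private theorem A506_R_single {B I : Type} (L : (B →₀ ZMod 2) →ₗ[ZMod 2] (I →₀ ZMod 2)) (q : ℕ)
    (w : List B) : A506_R L q (Finsupp.single w 1) = A506_G L q w := wext_single _ _

private theorem A506_G_cons {B I : Type} (L : (B →₀ ZMod 2) →ₗ[ZMod 2] (I →₀ ZMod 2)) (q : ℕ)
    (b : B) (w : List B) : A506_G L (q + 1) (b :: w) =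
      ExteriorAlgebra.ι (ZMod 2) (L (Finsupp.single b 1)) * A506_G L q w := by
  unfold A506_G
  by_cases h : w.length = q
  · rw [if_pos h, if_pos (by rw [List.length_cons, h]), List.map_cons, List.prod_cons]
  · rw [if_neg h, if_neg (fun h' => h (by rw [List.length_cons] at h'; omega)), mul_zero]

private theorem A506_G_cons_zero {B I : Type} (L : (B →₀ ZMod 2) →ₗ[ZMod 2] (I →₀ ZMod 2))
    (b : B) (w : List B) : A506_G L 0 (b :: w) = 0 := by
  unfold A506_G
  rw [if_neg (fun h' => by rw [List.length_cons] at h'; omega)]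

private theorem A506_R_lc {B I : Type} (L : (B →₀ ZMod 2) →ₗ[ZMod 2] (I →₀ ZMod 2)) (q : ℕ)
    (y : B →₀ ZMod 2) (x : Wd B) : A506_R L (q + 1) (lc y x) =
      ExteriorAlgebra.ι (ZMod 2) (L y) * A506_R L q x := by
  induction y using Finsupp.induction_linear with
  | zero => rw [map_zero, LinearMap.zero_apply, map_zero, map_zero, map_zero, zero_mul]
  | add a b ha hb =>
    rw [map_add, LinearMap.add_apply, map_add, ha, hb, map_add, map_add, add_mul]
  | single b r =>
    obtain rfl | rfl : r = 0 ∨ r = 1 := by revert r; decide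
    · rw [Finsupp.single_zero, map_zero, LinearMap.zero_apply, map_zero, map_zero, map_zero,
        zero_mul]
    · induction x using Finsupp.induction_linear with
      | zero => rw [map_zero, map_zero, map_zero, mul_zero]
      | add a b ha hb => rw [map_add, map_add, ha, hb, map_add, mul_add]
      | single w r =>
        obtain rfl | rfl : r = 0 ∨ r = 1 := by revert r; decide
        · rw [Finsupp.single_zero, map_zero, map_zero, map_zero, mul_zero]
        · rw [lc_single, A506_R_single, A506_R_single, A506_G_cons]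

private theorem A506_R_lc_zero {B I : Type} (L : (B →₀ ZMod 2) →ₗ[ZMod 2] (I →₀ ZMod 2))
    (y : B →₀ ZMod 2) (x : Wd B) : A506_R L 0 (lc y x) = 0 := by
  induction y using Finsupp.induction_linear with
  | zero => rw [map_zero, LinearMap.zero_apply, map_zero]
  | add a b ha hb => rw [map_add, LinearMap.add_apply, map_add, ha, hb, add_zero]
  | single b r =>
    obtain rfl | rfl : r = 0 ∨ r = 1 := by revert r; decide
    · rw [Finsupp.single_zero, map_zero, LinearMap.zero_apply, map_zero]
    · induction x using Finsupp.induction_linear with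
      | zero => rw [map_zero, map_zero]
      | add a b ha hb => rw [map_add, map_add, ha, hb, add_zero]
      | single w r =>
        obtain rfl | rfl : r = 0 ∨ r = 1 := by revert r; decide
        · rw [Finsupp.single_zero, map_zero, map_zero]
        · rw [lc_single, A506_R_single, A506_G_cons_zero]

private theorem A506_ofFn {B M : Type} (w : List B) (g : B → M) :
    (List.ofFn fun j : Fin w.length => g (w.get j)) = w.map g := by
  conv_rhs => rw [← List.ofFn_get w, List.map_ofFn]
  rfl

private theorem A506_coe {I : Type} (q : ℕ) (p : Wd I) :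
    ((rho I q p : ⋀[ZMod 2]^q (I →₀ ZMod 2)) : ExteriorAlgebra (ZMod 2) (I →₀ ZMod 2)) =
      A506_R LinearMap.id q p := by
  have h : (Submodule.subtype _).comp (rho I q) = A506_R LinearMap.id q := by
    apply A506_ext
    intro w
    rw [LinearMap.comp_apply, A506_R_single]
    show ((wext (rhoW I q) (Finsupp.single w 1) : ⋀[ZMod 2]^q (I →₀ ZMod 2)) :
      ExteriorAlgebra (ZMod 2) (I →₀ ZMod 2)) = _
    rw [wext_single]
    by_cases hw : w.length = q
    · subst hw
      unfold rhoW A506_G
      rw [dif_pos rfl, if_pos rfl, exteriorPower.ιMulti_apply_coe, ExteriorAlgebra.ιMulti_apply]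
      exact congrArg List.prod
        (A506_ofFn w fun b => ExteriorAlgebra.ι (ZMod 2) (Finsupp.single b 1 : I →₀ ZMod 2))
    · unfold rhoW A506_G
      rw [dif_neg hw, if_neg hw]
      rfl
  exact LinearMap.congr_fun h p

private theorem A506_lc2 {I J : Type} (L : (Lt I →₀ ZMod 2) →ₗ[ZMod 2] (J →₀ ZMod 2)) (q : ℕ)
    (x : Wd (Lt I)) : ∃ C : ExteriorAlgebra (ZMod 2) (J →₀ ZMod 2), ∀ a b : Lt I,
      A506_R L q (lc2 (Finsupp.single (a, b) 1) x) =
        ExteriorAlgebra.ι (ZMod 2) (L (Finsupp.single a 1)) *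
          ExteriorAlgebra.ι (ZMod 2) (L (Finsupp.single b 1)) * C := by
  rcases q with _ | _ | q
  · exact ⟨0, fun a b => by rw [lc2_single, A506_R_lc_zero, mul_zero]⟩
  · exact ⟨0, fun a b => by rw [lc2_single, A506_R_lc, A506_R_lc_zero, mul_zero, mul_zero]⟩
  · exact ⟨A506_R L q x, fun a b => by rw [lc2_single, A506_R_lc, A506_R_lc, mul_assoc]⟩

private theorem A506_cop {I J : Type} (L : (Lt I →₀ ZMod 2) →ₗ[ZMod 2] (J →₀ ZMod 2)) (q : ℕ)
    (e : Lt I) (x : Wd (Lt I)) : A506_R L q (lc2 e.cop x) = 0 := by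
  classical
  obtain ⟨C, hC⟩ := A506_lc2 L q x
  unfold Lt.cop
  rw [map_sum, LinearMap.sum_apply, map_sum]
  refine Finset.sum_involution (fun p _ => p.swap) ?_ ?_ ?_ ?_
  · rintro ⟨a, b⟩ _
    by_cases h : a ≠ 0 ∧ b ≠ 0
    · have h' : b ≠ 0 ∧ a ≠ 0 := ⟨h.2, h.1⟩
      simp only [Prod.swap_prod_mk]
      rw [dif_pos h, dif_pos h', hC, hC, ← add_mul, ExteriorAlgebra.ι_add_mul_swap, zero_mul]
    · have h' : ¬ (b ≠ 0 ∧ a ≠ 0) := fun h' => h ⟨h'.2, h'.1⟩
      simp only [Prod.swap_prod_mk]
      rw [dif_neg h, dif_neg h', map_zero, LinearMap.zero_apply, map_zero, add_zero]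
  · rintro ⟨a, b⟩ _ h0 heq
    apply h0
    have hab : b = a := congrArg Prod.fst heq
    subst hab
    by_cases h : b ≠ 0 ∧ b ≠ 0
    · simp only
      rw [dif_pos h, hC, ExteriorAlgebra.ι_sq_zero, zero_mul]
    · simp only
      rw [dif_neg h, map_zero, LinearMap.zero_apply, map_zero]
  · rintro ⟨a, b⟩ h
    rw [Finset.HasAntidiagonal.mem_antidiagonal] at h ⊢
    rw [← h]
    exact add_comm _ _
  · rintro ⟨a, b⟩ _
    rfl

private theorem A506_DwW {I J : Type} (L : (Lt I →₀ ZMod 2) →ₗ[ZMod 2] (J →₀ ZMod 2))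
    (w : List (Lt I)) : ∀ q : ℕ, A506_R L q (DwW w) = 0 := by
  induction w with
  | nil =>
    intro q
    show A506_R L q 0 = 0
    rw [map_zero]
  | cons b w ih =>
    intro q
    show A506_R L q (lc2 b.cop (Finsupp.single w 1) + lc (Finsupp.single b 1) (DwW w)) = 0
    rw [map_add, A506_cop, zero_add]
    cases q with
    | zero => rw [A506_R_lc_zero]
    | succ q => rw [A506_R_lc, ih, mul_zero]

private theorem A506_Dw {I J : Type} (L : (Lt I →₀ ZMod 2) →ₗ[ZMod 2] (J →₀ ZMod 2)) (q : ℕ)
    (x : Wd (Lt I)) : A506_R L q (Dw x) = 0 := by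
  have h : (A506_R L q).comp Dw = 0 := by
    apply A506_ext
    intro w
    rw [LinearMap.comp_apply]
    show A506_R L q (wext DwW (Finsupp.single w 1)) = 0
    rw [wext_single, A506_DwW]
  exact LinearMap.congr_fun h x

private theorem A506_emW {I : Type} (q : ℕ) (p : Wd I) :
    A506_R Lt.pr q (emW p) = A506_R LinearMap.id q p := by
  have h : (A506_R (Lt.pr (I := I)) q).comp emW = A506_R LinearMap.id q := by
    apply A506_ext
    intro w
    rw [LinearMap.comp_apply, A506_R_single]
    show A506_R Lt.pr q (Finsupp.mapDomain (List.map Lt.eps) (Finsupp.single w 1)) = _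
    rw [Finsupp.mapDomain_single, A506_R_single]
    unfold A506_G
    rw [List.length_map, List.map_map]
    have h1 : ((fun b : Lt I => ExteriorAlgebra.ι (ZMod 2) (Lt.pr (Finsupp.single b 1))) ∘ Lt.eps) =
        fun i : I => ExteriorAlgebra.ι (ZMod 2)
          ((LinearMap.id : (I →₀ ZMod 2) →ₗ[ZMod 2] (I →₀ ZMod 2)) (Finsupp.single i 1)) := by
      funext i
      have h2 := pr_em (Finsupp.single i 1 : I →₀ ZMod 2)
      have h3 : Lt.em (Finsupp.single i 1 : I →₀ ZMod 2) = Finsupp.single (Lt.eps i) 1 :=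
        Finsupp.mapDomain_single
      rw [h3] at h2
      show ExteriorAlgebra.ι (ZMod 2) (Lt.pr (Finsupp.single (Lt.eps i) 1)) = _
      rw [h2]
      rfl
    rw [h1]
  exact LinearMap.congr_fun h p

theorem rho_Dw {I : Type} (q : ℕ) {p : Wd I} {x : Wd (Lt I)} (h : emW p = Dw x) : rho I q p = 0 := by
  apply Subtype.ext
  rw [A506_coe, ← A506_emW, h, A506_Dw]
  rfl

private theorem A506_wmapW {B B' J : Type} (L : (B' →₀ ZMod 2) →ₗ[ZMod 2] (J →₀ ZMod 2))
    (f : (B →₀ ZMod 2) →ₗ[ZMod 2] (B' →₀ ZMod 2)) (w : List B) :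
    ∀ q : ℕ, A506_R L q (wmapW f w) = A506_G (L.comp f) q w := by
  induction w with
  | nil =>
    intro q
    show A506_R L q (Finsupp.single [] 1) = _
    rw [A506_R_single]
    rfl
  | cons b w ih =>
    intro q
    show A506_R L q (lc (f (Finsupp.single b 1)) (wmapW f w)) = _
    cases q with
    | zero => rw [A506_R_lc_zero, A506_G_cons_zero]
    | succ q =>
      rw [A506_R_lc, ih, A506_G_cons]
      rfl

theorem rho_wmap {I I' : Type} (f : (I →₀ ZMod 2) →ₗ[ZMod 2] (I' →₀ ZMod 2)) (q : ℕ) (p : Wd I) :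
    rho I' q (wmap f p) = exteriorPower.map q f (rho I q p) := by
  have h : (rho I' q).comp (wmap f) = (exteriorPower.map q f).comp (rho I q) := by
    apply A506_ext
    intro w
    rw [LinearMap.comp_apply, LinearMap.comp_apply]
    show rho I' q (wext (wmapW f) (Finsupp.single w 1)) =
      exteriorPower.map q f (wext (rhoW I q) (Finsupp.single w 1))
    rw [wext_single, wext_single]
    apply Subtype.ext
    rw [A506_coe, A506_wmapW]
    by_cases hw : w.length = q
    · subst hw
      unfold rhoW A506_G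
      rw [dif_pos rfl, if_pos rfl, exteriorPower.map_apply_ιMulti, exteriorPower.ιMulti_apply_coe,
        ExteriorAlgebra.ιMulti_apply]
      exact congrArg List.prod
        (A506_ofFn w fun b => ExteriorAlgebra.ι (ZMod 2) (f (Finsupp.single b 1))).symm
    · unfold rhoW A506_G
      rw [dif_neg hw, if_neg hw, map_zero]
      rfl
  exact LinearMap.congr_fun h p

theorem rho_surj {I : Type} (q : ℕ) (ω : ⋀[ZMod 2]^q (I →₀ ZMod 2)) :
    ∃ p ∈ Len I q, rho I q p = ω := by
  have h : (⊤ : Submodule (ZMod 2) (⋀[ZMod 2]^q (I →₀ ZMod 2))) ≤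
      (Len I q).map (rho I q) := by
    rw [← exteriorPower.ιMulti_span, Submodule.span_le]
    rintro _ ⟨v, rfl⟩
    refine ⟨wmap (Finsupp.linearCombination (ZMod 2) v)
      (Finsupp.single (List.finRange q) 1), ?_, ?_⟩
    · exact wmap_Len _ (Finsupp.single_mem_supported (ZMod 2) 1 (List.length_finRange))
    · rw [rho_wmap]
      show exteriorPower.map q _ (wext (rhoW (Fin q) q) (Finsupp.single (List.finRange q) 1)) = _
      rw [wext_single]
      unfold rhoW
      rw [dif_pos (List.length_finRange), exteriorPower.map_apply_ιMulti]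
      congr 1
      funext j
      show Finsupp.linearCombination (ZMod 2) v (Finsupp.single
        ((List.finRange q).get (Fin.cast List.length_finRange.symm j)) 1) = v j
      rw [Finsupp.linearCombination_single, one_smul]
      congr 1
      simp
  exact h (Submodule.mem_top (x := ω))

theorem rho_WD {I : Type} {dg : I → ℕ} {q k : ℕ} {p : Wd I} (hp : p ∈ LenD dg q k) :
    rho I q p ∈ WD dg q k := by
  show Finsupp.linearCombination (ZMod 2) (rhoW I q) p ∈ WD dg q k
  rw [Finsupp.linearCombination_apply]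
  refine Submodule.sum_mem _ fun w hw => Submodule.smul_mem _ _ (Submodule.subset_span ?_)
  have h1 : w.length = q ∧ (w.map dg).sum = k := hp hw
  obtain ⟨rfl, rfl⟩ := h1
  refine ⟨fun j => w.get j, ?_, ?_⟩
  · rw [← List.sum_ofFn, A506_ofFn w dg]
  · unfold rhoW
    rw [dif_pos rfl]
    rfl

end MM
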