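import Pool.Agent.Lib_MP_33f7bb_d.A510

/-!
# A5-11: exterior powers are exact in large degrees

Let `C = CV.ofI act h1 h2`, `G` from `CV.grcon`.  `G' : CHpy (C.ext q)`, `G'.app n θ = exteriorPower.map q (G.app n θ)`; naturality: `exteriorPower.map_comp` and the
naturality of `G` as an equality of linear maps.  `G' (cst 0) = id` (`exteriorPower.map_id`).  `G'.app j (cst 1)` kills
`ιMulti (single (l 1) 1, ..., single (l q) 1)` if `∑ dg (l i) = k > q D`: some `dg (l i) > D`, so one entry of the image tuple is `0`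
(`exteriorPower.map_apply_ιMulti`, `AlternatingMap.map_coord_zero`).  So it kills `WD (dg j) q k`.  `CHpy.prism`:
`x = x + 0 = G' (cst 0) x + G' (cst 1) x ∈ Bd`.
-/

namespace MM

private lemma a511_kill {I : Type} (dg : I → ℕ) (D q k : ℕ) (hk : q * D < k)
    (f : (I →₀ ZMod 2) →ₗ[ZMod 2] (I →₀ ZMod 2))
    (hf : ∀ i, D < dg i → f (Finsupp.single i 1) = 0)
    (x : ⋀[ZMod 2]^q (I →₀ ZMod 2)) (hx : x ∈ WD dg q k) : exteriorPower.map q f x = 0 := by
  have h1 : WD dg q k ≤ LinearMap.ker (exteriorPower.map q f) := by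
    apply Submodule.span_le.2
    rintro y ⟨l, hl, rfl⟩
    show exteriorPower.map q f _ = 0
    rw [exteriorPower.map_apply_ιMulti]
    obtain ⟨j, hj⟩ : ∃ j, D < dg (l j) := by
      by_contra hcon
      push Not at hcon
      have h2 : ∑ j, dg (l j) ≤ ∑ _j : Fin q, D := Finset.sum_le_sum fun j _ => hcon j
      rw [hl, Finset.sum_const, Finset.card_univ, Fintype.card_fin, smul_eq_mul] at h2
      omega
    exact AlternatingMap.map_coord_zero _ j (hf _ hj)
  exact h1 hx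

private lemma a511_comm {A B : Type} [AddCommGroup A] [Module (ZMod 2) A] [AddCommGroup B]
    [Module (ZMod 2) B] (q : ℕ) (f : A →ₗ[ZMod 2] B) (u : A →ₗ[ZMod 2] A)
    (v : B →ₗ[ZMod 2] B) (h : ∀ x, f (u x) = v (f x)) (x : ⋀[ZMod 2]^q A) :
    exteriorPower.map q f (exteriorPower.map q u x) =
      exteriorPower.map q v (exteriorPower.map q f x) := by
  have h1 : f.comp u = v.comp f := LinearMap.ext h
  have h2 := exteriorPower.map_comp (n := q) u f
  have h3 := exteriorPower.map_comp (n := q) f v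
  rw [h1] at h2
  have h4 := LinearMap.congr_fun (h2.symm.trans h3) x
  exact h4

theorem CV.dold {I : ℕ → Type} (dg : ∀ n, I n → ℕ) (hfin : ∀ n k, {i | dg n i = k}.Finite)
    (act : ∀ {m n : ℕ}, Mo m n → ((I m →₀ ZMod 2) →ₗ[ZMod 2] (I n →₀ ZMod 2)))
    (h1 : ∀ {n : ℕ} (x : I n →₀ ZMod 2), act OrderHom.id x = x)
    (h2 : ∀ {l m n : ℕ} (f : Mo l m) (g : Mo m n) (x : I l →₀ ZMod 2),
      act g (act f x) = act (g.comp f) x)
    (hdeg : ∀ {m n : ℕ} (g : Mo m n), DegPres (dg m) (dg n) (act g)) (D m : ℕ)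
    (hex : ∀ j ≤ m, ∀ k, D < k → ∀ z : I j →₀ ZMod 2, (∀ i ∈ z.support, dg j i = k) →
      (CV.ofI act h1 h2).d j z = 0 → z ∈ (CV.ofI act h1 h2).Bd j)
    (q j : ℕ) (hj : j ≤ m) (k : ℕ) (hk : q * D < k)
    (x : ⋀[ZMod 2]^q (I j →₀ ZMod 2)) (hx : x ∈ WD (dg j) q k)
    (hd : ((CV.ofI act h1 h2).ext q).d j x = 0) : x ∈ ((CV.ofI act h1 h2).ext q).Bd j := by
  obtain ⟨G, hG0, hG1⟩ := CV.grcon dg hfin act h1 h2 hdeg D m hex
  let G' : CHpy ((CV.ofI act h1 h2).ext q) :=
    { app := fun n θ => exteriorPower.map q (G.app n θ)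
      nat := fun g θ y => a511_comm q _ _ _ (fun z => G.nat g θ z) y }
  have h3 := CHpy.prism G' j x hd
  have h4 : G'.app j (cst 0) x = x := by
    show exteriorPower.map q (G.app j (cst 0)) x = x
    have h5 : G.app j (cst 0) = LinearMap.id := LinearMap.ext fun y => hG0 j y
    rw [h5, exteriorPower.map_id]
    rfl
  have h5 : G'.app j (cst 1) x = 0 :=
    a511_kill (dg j) D q k hk (G.app j (cst 1)) (fun i hi => hG1 j hj i hi) x hx
  rw [h4, h5, add_zero] at h3
  exact h3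

end MM
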