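import Pool.Agent.Lib_MP_33f7bb_d.A501
import Pool.Agent.Lib_MP_33f7bb_d.A504
import Pool.Agent.Lib_MP_33f7bb_d.A506
import Pool.Agent.Lib_MP_33f7bb_d.A511

/-!
# A5-12: Dold for the primitives of `X : CoB`

Take `act` from `CosRel.exists_act X.pRel`.  Degrees: `DegPres` is closed under composition, holds for `id`, `X.pcf s i`, `X.pcd s j`
(`pmap_deg`), so for all `act g` (`mo_induction`; `dlt i = dl s i`, `sgm j = sg s j`: `dl_eq`, `sg_eq`).  `X.dg_fin`.
`(CV.ofI act).d s = X.pd s` (`sum_dl`), so `hex` is `X.PEx`.  `((CV.ofI act).ext q).d s = ∑_(i ∈ range (s+2)) exteriorPower.map q (X.pcf s i)`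
(`sum_dl`).  Apply `CV.dold`.
-/

namespace MM

/-- the differential of the exterior powers of the primitives -/
noncomputable def CoB.dE (X : CoB) (q s : ℕ) :
    ⋀[ZMod 2]^q (X.I s →₀ ZMod 2) →ₗ[ZMod 2] ⋀[ZMod 2]^q (X.I (s + 1) →₀ ZMod 2) :=
  ∑ i ∈ Finset.range (s + 2), exteriorPower.map q (X.pcf s i)

private theorem A512_apply {B B' : Type} {dg : B → ℕ} {dg' : B' → ℕ}
    {f : (B →₀ ZMod 2) →ₗ[ZMod 2] (B' →₀ ZMod 2)} (hf : DegPres dg dg' f) {k : ℕ}
    (x : B →₀ ZMod 2) (hx : ∀ b ∈ x.support, dg b = k) : ∀ b' ∈ (f x).support, dg' b' = k := by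
  intro b' hb'
  by_contra hne
  have h0 : (f x) b' = 0 := by
    have hx' : x = x.sum fun b c => Finsupp.single b c := (Finsupp.sum_single x).symm
    rw [hx', Finsupp.sum, map_sum, Finset.sum_apply']
    refine Finset.sum_eq_zero fun b hb => ?_
    have h1 : (Finsupp.single b (x b) : B →₀ ZMod 2) = x b • Finsupp.single b 1 := by
      rw [Finsupp.smul_single, smul_eq_mul, mul_one]
    rw [h1, map_smul, Finsupp.smul_apply]
    have h2 : (f (Finsupp.single b 1)) b' = 0 := by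
      by_contra h3
      exact hne ((hf b b' (Finsupp.mem_support_iff.2 h3)).trans (hx b hb))
    rw [h2, smul_zero]
  exact (Finsupp.mem_support_iff.1 hb') h0

private theorem A512_comp {B B' B'' : Type} {dg : B → ℕ} {dg' : B' → ℕ} {dg'' : B'' → ℕ}
    {f : (B →₀ ZMod 2) →ₗ[ZMod 2] (B' →₀ ZMod 2)} {g : (B' →₀ ZMod 2) →ₗ[ZMod 2] (B'' →₀ ZMod 2)}
    (hf : DegPres dg dg' f) (hg : DegPres dg' dg'' g) : DegPres dg dg'' (g.comp f) :=
  fun b => A512_apply hg _ (hf b)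

private theorem A512_id {B : Type} (dg : B → ℕ) : DegPres dg dg LinearMap.id := by
  intro b b' hb'
  have h := Finsupp.support_single_subset hb'
  rw [Finset.mem_singleton] at h
  rw [h]

/-- the operators on the primitives -/
private theorem A512_act (X : CoB) :
    ∃ act : ∀ {m n : ℕ}, Mo m n → ((X.I m →₀ ZMod 2) →ₗ[ZMod 2] (X.I n →₀ ZMod 2)),
      (∀ {n : ℕ} (x : X.I n →₀ ZMod 2), act (OrderHom.id : Mo n n) x = x) ∧
      (∀ {l m n : ℕ} (f : Mo l m) (g : Mo m n) (x : X.I l →₀ ZMod 2),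
        act g (act f x) = act (g.comp f) x) ∧
      (∀ s i, i < s + 2 → act (dl s i) = X.pcf s i) ∧
      (∀ {m n : ℕ} (g : Mo m n), DegPres (X.dg m) (X.dg n) (act g)) := by
  obtain ⟨act, h1, h2, h3, h4⟩ := CosRel.exists_act X.pRel
  refine ⟨act, h1, h2, h3, fun {m n} g => ?_⟩
  refine mo_induction (P := fun m n g => DegPres (X.dg m) (X.dg n) (act g)) ?_ ?_ ?_ ?_ m n g
  · intro n
    have : act (OrderHom.id : Mo n n) = LinearMap.id := LinearMap.ext fun x => h1 x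
    rw [this]
    exact A512_id _
  · intro n i
    have h := h3 n i i.2
    rw [dl_eq i.2] at h
    have h' : act (dlt i) = X.pcf n i := h
    rw [h']
    exact pmap_deg (X.cf_deg n i)
  · intro n i
    have h := h4 n i i.2
    rw [sg_eq i.2] at h
    have h' : act (sgm i) = X.pcd n i := h
    rw [h']
    exact pmap_deg (X.cd_deg n i)
  · intro l m n f g hf hg
    have : act (f.comp g) = (act f).comp (act g) := LinearMap.ext fun x => (h2 g f x).symm
    rw [this]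
    exact A512_comp hg hf

private theorem A512_d (X : CoB)
    (act : ∀ {m n : ℕ}, Mo m n → ((X.I m →₀ ZMod 2) →ₗ[ZMod 2] (X.I n →₀ ZMod 2)))
    (h1 : ∀ {n : ℕ} (x : X.I n →₀ ZMod 2), act (OrderHom.id : Mo n n) x = x)
    (h2 : ∀ {l m n : ℕ} (f : Mo l m) (g : Mo m n) (x : X.I l →₀ ZMod 2),
        act g (act f x) = act (g.comp f) x)
    (h3 : ∀ s i, i < s + 2 → act (dl s i) = X.pcf s i) (s : ℕ) (x : X.I s →₀ ZMod 2) :
    (CV.ofI act h1 h2).d s x = X.pd s x := by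
  have e : (CV.ofI act h1 h2).d s = X.pd s := by
    show ∑ i : Fin (s + 2), act (dlt i) = ∑ i ∈ Finset.range (s + 2), X.pcf s i
    rw [sum_dl (fun g => act g)]
    exact Finset.sum_congr rfl fun i hi => h3 s i (Finset.mem_range.1 hi)
  exact LinearMap.congr_fun e x

private theorem A512_dE (X : CoB)
    (act : ∀ {m n : ℕ}, Mo m n → ((X.I m →₀ ZMod 2) →ₗ[ZMod 2] (X.I n →₀ ZMod 2)))
    (h1 : ∀ {n : ℕ} (x : X.I n →₀ ZMod 2), act (OrderHom.id : Mo n n) x = x)
    (h2 : ∀ {l m n : ℕ} (f : Mo l m) (g : Mo m n) (x : X.I l →₀ ZMod 2),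
        act g (act f x) = act (g.comp f) x)
    (h3 : ∀ s i, i < s + 2 → act (dl s i) = X.pcf s i) (q s : ℕ) :
    ((CV.ofI act h1 h2).ext q).d s = X.dE q s := by
  show ∑ i : Fin (s + 2), exteriorPower.map q (act (dlt i)) =
    ∑ i ∈ Finset.range (s + 2), exteriorPower.map q (X.pcf s i)
  rw [sum_dl (fun g => exteriorPower.map q (act g))]
  exact Finset.sum_congr rfl fun i hi => by rw [h3 s i (Finset.mem_range.1 hi)]

theorem CoB.dold_zero (X : CoB) (D : ℕ) (hex : ∀ k, D < k → X.PEx 0 k) (q k : ℕ) (hk : q * D < k)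
    (x : ⋀[ZMod 2]^q (X.I 0 →₀ ZMod 2)) (hx : x ∈ WD (X.dg 0) q k) (hd : X.dE q 0 x = 0) :
    x = 0 := by
  obtain ⟨act, h1, h2, h3, h4⟩ := A512_act X
  have h := CV.dold X.dg X.dg_fin act h1 h2 h4 D 0 (by
    intro j hj k hk z hz hd
    obtain rfl : j = 0 := by omega
    rw [A512_d X act h1 h2 h3] at hd
    have h0 : z = 0 := hex k hk z hz hd
    rw [h0]
    exact Submodule.zero_mem _) q 0 le_rfl k hk x hx (by
    rw [A512_dE X act h1 h2 h3]
    exact hd)
  exact (Submodule.mem_bot (ZMod 2)).1 h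

theorem CoB.dold_succ (X : CoB) (D s : ℕ) (hex : ∀ j ≤ s + 1, ∀ k, D < k → X.PEx j k) (q k : ℕ)
    (hk : q * D < k) (x : ⋀[ZMod 2]^q (X.I (s + 1) →₀ ZMod 2)) (hx : x ∈ WD (X.dg (s + 1)) q k)
    (hd : X.dE q (s + 1) x = 0) : ∃ ω, X.dE q s ω = x := by
  obtain ⟨act, h1, h2, h3, h4⟩ := A512_act X
  have h := CV.dold X.dg X.dg_fin act h1 h2 h4 D (s + 1) (by
    intro j hj k hk z hz hd
    rw [A512_d X act h1 h2 h3] at hd
    cases j with
    | zero =>
      have h0 : z = 0 := hex 0 hj k hk z hz hd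
      rw [h0]
      exact Submodule.zero_mem _
    | succ j =>
      obtain ⟨w, -, hw⟩ := hex (j + 1) hj k hk z hz hd
      refine ⟨w, ?_⟩
      rw [A512_d X act h1 h2 h3]
      exact hw) q (s + 1) le_rfl k hk x hx (by
    rw [A512_dE X act h1 h2 h3]
    exact hd)
  obtain ⟨ω, hω⟩ := h
  refine ⟨ω, ?_⟩
  rw [A512_dE X act h1 h2 h3] at hω
  exact hω

theorem CoB.rho_pdT (X : CoB) (q s : ℕ) (p : Wd (X.I s)) :
    rho (X.I (s + 1)) q (X.pdT s p) = X.dE q s (rho (X.I s) q p) := by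
  simp only [CoB.pdT, CoB.dE, LinearMap.sum_apply, map_sum, rho_wmap]

end MM
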