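import Pool.Agent.Lib_MP_33f7bb_d.A505
import Pool.Agent.Lib_MP_33f7bb_d.A507
import Pool.Agent.Lib_MP_33f7bb_d.A508
import Pool.Agent.Lib_MP_33f7bb_d.A512

/-!
# A5-13: the staircase

Write `d = X.dT`, `D = Dw` (`D D = 0`, `d d = 0`, `D d = d D`).

`stair`: by induction on `j`, for all `q ≥ 1` (write `q`), `k`.  Let `y ∈ T (j+1) q k`, `d y = 0`, `D y = 0`.
 By `row_succ` `y = d x`, `x ∈ T j q k`.  `u = D x ∈ T j (q+1) k`, `d u = D d x = D y = 0`, `D u = 0`.
 `j = 0`: `u = 0` by `row_zero` (`k ≠ (q+1) N`): done.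
 `j = j' + 1`: by induction (for `j'`, `q + 1`; the bounds involve only `q + j`) there is `x' ∈ T j' (q+1) k` with `d x' = u`, `D x' = 0`.  `col1`: `x' = emW p + D x''`,
 `p ∈ Len (q+1)`, `x'' ∈ Len q`; applying `prk k` we may assume `p ∈ LenD (q+1) k` (`x' = prk k x'`, `emW_prk`, `Dw_prk`).  Then
 `D x = d x' = emW (pdT p) + D (d x'')`, so `emW (pdT p) = D (x + d x'')` (char 2), so `rho (pdT p) = 0` (`rho_Dw`), i.e. `dE (rho p) = 0` (`rho_pdT`),
 `rho p ∈ WD (q+1) k` (`rho_WD`), `(q+1) D0 ≤ (q + j) D0 < k`.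
  If `j' = 0`: `rho p = 0` (`dold_zero`), so `emW p = D z`, `z ∈ Len q` (`rho_ker`), `x' = D (z + x'')`.
  If `j' = j'' + 1`: `rho p = dE ω` (`dold_succ`), `ω = rho p'`, `p' ∈ Len (q+1)` (`rho_surj`), `rho (p + pdT p') = 0`, so `emW (p + pdT p') = D z`, `x' = emW (pdT p') +
  D (z + x'')` and `d x' = d (emW (pdT p')) + d D (z + x'') = d D (z + x'')`, because `emW (pdT p') = d (emW p')`, `d d = 0`.
 In both cases `D x = d x' = D (d v)`, `v = z + x'' ∈ Len q`, `v` in level `j'`.  Put `v' = prk k v`; `D (x + d v') = D x + D d (prk k v) = D x + prk k (D d v) = D x + prk k (D x) = 0`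
 (`D x` is homogeneous of degree `k`).  `x + d v' ∈ T j q k` and `d (x + d v') = d x = y`.
`bnd`: strong induction on `s`.  `s = 0`: `D = N`: for `z` homogeneous of degree `k > N` with `pd z = 0` let `y = emW (lc z [])`, `d y = emW (lc (pd z) []) = 0`
(`dT_emW`, `pdT_one`), so `y = 0` by `row_zero` (`q = 1`), `z = 0` (`emW_one_injective`).  `s = j + 1`: `D0` = maximum of the bounds for the levels `< j`, bound `(j + 2) * (D0 + N)`;
`y = emW (lc z []) ∈ T (j+1) 1 k`; `stair` gives `x ∈ T j 1 k`, `d x = y`, `D x = 0`; `x = emW (lc w [])` (`Dw_eq_zero_one`), `w` homogeneous of degree `k` (`emW_one_LenD`), `pd w = z`.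
-/

namespace MM

namespace CoB

variable (X : CoB)

private theorem A513_one_dT (s : ℕ) (z : X.I s →₀ ZMod 2) :
    X.dT s (emW (lc z (Finsupp.single [] 1))) = emW (lc (X.pd s z) (Finsupp.single [] 1)) := by
  rw [dT_emW, pdT_one]

private theorem A513_add_self {M : Type*} [AddCommGroup M] [Module (ZMod 2) M] (x : M) :
    x + x = 0 := two_eq_zero' x

/-- the vertical cycle `x'` can be replaced by a vertical boundary without changing `d x'` -/
private theorem A513_step (D0 : ℕ) (j : ℕ) (hex : ∀ i < j + 1, ∀ k, D0 < k → X.PEx i k)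
    (q k : ℕ) (hk : (q + 1) * D0 < k) (x : Wd (Lt (X.I (j + 1)))) (x' : Wd (Lt (X.I j)))
    (hx' : x' ∈ X.T j (q + 1) k) (hD : Dw x' = 0) (hd : X.dT j x' = Dw x) :
    ∃ v ∈ Len (Lt (X.I j)) q, Dw x = X.dT j (Dw v) := by
  obtain ⟨p0, hp0, x0, hx0, he0⟩ := col1 q (LenD_le hx') hD
  set p := prk (X.dg j) k p0 with hp
  set x1 := prk (Lt.deg (X.dg j)) k x0 with hx1
  have hpD : p ∈ LenD (X.dg j) (q + 1) k := prk_mem _ _ hp0
  have hx1D : x1 ∈ LenD (Lt.deg (X.dg j)) q k := prk_mem _ _ hx0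
  have he : x' = emW p + Dw x1 := by
    rw [← prk_eq hx', he0, map_add, hp, hx1, emW_prk, Dw_prk]
  have h1 : emW (X.pdT j p) = Dw (x + X.dT j x1) := by
    rw [map_add, Dw_dT, ← hd, he, map_add, dT_emW, add_assoc, A513_add_self, add_zero]
  have h2 : X.dE (q + 1) j (rho (X.I j) (q + 1) p) = 0 := by
    rw [← rho_pdT]
    exact rho_Dw (q + 1) h1
  have h3 : rho (X.I j) (q + 1) p ∈ WD (X.dg j) (q + 1) k := rho_WD hpD
  cases j with
  | zero =>
    have h4 := X.dold_zero D0 (fun k hk => hex 0 (by omega) k hk) (q + 1) k hk _ h3 h2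
    obtain ⟨z, hz, hzp⟩ := rho_ker q (LenD_le hpD) h4
    refine ⟨z + x1, Submodule.add_mem _ hz (LenD_le hx1D), ?_⟩
    rw [← hd, he, hzp, ← map_add]
  | succ j =>
    obtain ⟨ω, hω⟩ := X.dold_succ D0 j (fun i hi k hk => hex i (by omega) k hk) (q + 1) k hk _ h3 h2
    obtain ⟨p', hp', hpω⟩ := rho_surj (q + 1) ω
    have h4 : rho (X.I (j + 1)) (q + 1) (p + X.pdT j p') = 0 := by
      rw [map_add, rho_pdT, hpω, hω, A513_add_self]
    obtain ⟨z, hz, hzp⟩ := rho_ker q (Submodule.add_mem _ (LenD_le hpD) (X.pdT_Len hp')) h4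
    refine ⟨z + x1, Submodule.add_mem _ hz (LenD_le hx1D), ?_⟩
    have h5 : emW p = Dw z + X.dT j (emW p') := by
      rw [dT_emW, ← hzp, map_add, add_assoc, A513_add_self, add_zero]
    rw [← hd, he, h5, map_add, map_add, dT_dT, add_zero, map_add, map_add]

theorem stair (D0 : ℕ) : ∀ (j : ℕ) (_ : ∀ i < j, ∀ k, D0 < k → X.PEx i k) (q k : ℕ), 1 ≤ q →
    (q + j) * D0 < k → (q + j + 1) * X.N < k → ∀ y ∈ X.T (j + 1) q k, X.dT (j + 1) y = 0 → Dw y = 0 →
    ∃ x ∈ X.T j q k, X.dT j x = y ∧ Dw x = 0 := by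
  intro j
  induction j with
  | zero =>
    intro _ q k hq hk1 hk2 y hy hdy hDy
    obtain ⟨x, hx, hxy⟩ := X.row_succ hy hdy
    refine ⟨x, hx, hxy, ?_⟩
    have e1 : q + 0 + 1 = q + 1 := rfl
    rw [e1] at hk2
    refine X.row_zero (q := q + 1) (k := k) (by omega) (Dw_LenD hx) ?_
    rw [← Dw_dT, hxy, hDy]
  | succ j ih =>
    intro hex q k hq hk1 hk2 y hy hdy hDy
    obtain ⟨x, hx, hxy⟩ := X.row_succ hy hdy
    have e1 : q + 1 + j = q + (j + 1) := by omega
    obtain ⟨x', hx', hdx', hDx'⟩ := ih (fun i hi => hex i (by omega)) (q + 1) k (by omega)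
      (by rw [e1]; exact hk1) (by rw [e1]; exact hk2) (Dw x) (Dw_LenD hx)
      (by rw [← Dw_dT, hxy, hDy]) (Dw_Dw x)
    have hk3 : (q + 1) * D0 < k :=
      lt_of_le_of_lt (Nat.mul_le_mul_right _ (by omega)) hk1
    obtain ⟨v, hv, hDx⟩ := A513_step X D0 j hex q k hk3 x x' hx' hDx' hdx'
    have hv' : prk (Lt.deg (X.dg j)) k v ∈ X.T j q k := prk_mem _ _ hv
    refine ⟨x + X.dT j (prk (Lt.deg (X.dg j)) k v), Submodule.add_mem _ hx (X.dT_T hv'), ?_, ?_⟩
    · rw [map_add, dT_dT, add_zero, hxy]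
    · rw [map_add, Dw_dT, Dw_prk, dT_prk, ← hDx, prk_eq (Dw_LenD hx), A513_add_self]

/-- boundedness for `X : CoB` -/
theorem bnd (s : ℕ) : ∃ D, ∀ k, D < k → X.PEx s k := by
  induction s using Nat.strong_induction_on with
  | _ s ih =>
    cases s with
    | zero =>
      refine ⟨X.N, fun k hk z hz hd => ?_⟩
      have h1 : emW (lc z (Finsupp.single [] 1)) ∈ X.T 0 1 k := emW_one_LenD.2 hz
      have h2 : X.dT 0 (emW (lc z (Finsupp.single [] 1))) = 0 := by
        rw [A513_one_dT, hd, map_zero, LinearMap.zero_apply, map_zero]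
      have h3 := X.row_zero (by omega) h1 h2
      refine emW_one_injective (I := X.I 0) ?_
      show emW (lc z (Finsupp.single [] 1)) = emW (lc 0 (Finsupp.single [] 1))
      rw [h3, map_zero, LinearMap.zero_apply, map_zero]
    | succ j =>
      have h0 : ∃ D0, ∀ i < j, ∀ k, D0 < k → X.PEx i k := by
        have hD : ∀ i, ∃ D, i < j → ∀ k, D < k → X.PEx i k := by
          intro i
          by_cases hi : i < j
          · obtain ⟨D, hD⟩ := ih i (by omega)
            exact ⟨D, fun _ => hD⟩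
          · exact ⟨0, fun h => absurd h hi⟩
        choose D hD using hD
        refine ⟨(Finset.range j).sup D, fun i hi k hk => hD i hi k ?_⟩
        exact lt_of_le_of_lt (Finset.le_sup (f := D) (Finset.mem_range.2 hi)) hk
      obtain ⟨D0, hD0⟩ := h0
      refine ⟨(j + 2) * (D0 + X.N), fun k hk z hz hd => ?_⟩
      have hk1 : (1 + j) * D0 < k := by
        refine lt_of_le_of_lt ?_ hk
        exact Nat.mul_le_mul (by omega) (by omega)
      have hk2 : (1 + j + 1) * X.N < k := by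
        refine lt_of_le_of_lt ?_ hk
        exact Nat.mul_le_mul (by omega) (by omega)
      have h1 : emW (lc z (Finsupp.single [] 1)) ∈ X.T (j + 1) 1 k := emW_one_LenD.2 hz
      have h2 : X.dT (j + 1) (emW (lc z (Finsupp.single [] 1))) = 0 := by
        rw [A513_one_dT, hd, map_zero, LinearMap.zero_apply, map_zero]
      obtain ⟨x, hx, hdx, hDx⟩ := X.stair D0 j hD0 1 k le_rfl hk1 hk2 _ h1 h2 (Dw_emW _)
      obtain ⟨w, rfl⟩ := Dw_eq_zero_one (LenD_le hx) hDx
      refine ⟨w, emW_one_LenD.1 hx, ?_⟩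
      refine emW_one_injective (I := X.I (j + 1)) ?_
      show emW (lc (X.pd j w) (Finsupp.single [] 1)) = emW (lc z (Finsupp.single [] 1))
      rw [← hdx, A513_one_dT]

end CoB

end MM
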