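import Pool.Agent.Lib_MP_33f7bb_d.A705
import Pool.Agent.Lib_MP_33f7bb_d.A011

/-!
# A7-06: the isomorphism `H_t (Map_*(B, V)) ≅ Hom_A (QH V, Σ^t H~)`, `t ≥ 1`

`PsiH D f` = the family `n ↦ (a ↦ (D.e n a) (PsiC f n))` of functionals on `D.am.M n`.
`PsiH_mem`: it lies in `D.am.HomH t`: for `n ≤ t` the class `PsiC f n` is zero (`eB 0 = 0`, or degrees do not
match); the relation with `Sq` is `psi_sq` (every element of `D.am.M n` is `(D.e n).symm (toQ y)`, as `toQ` is
surjective, `D.comm`); for `n ≤ t` and `m > t`: `Sq` of a class of degree `n ≤ t`... use the relation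
`psi_sq'` below: `(Sq y)(PsiC f m) = 0` if `n ≤ t < m`: same proof as `psi_sq` (`g^* y = 0` in `H^n(P)` on the third
summand because `H_n(K'(t) ⊗ R B) = 0` for `n ≤ t`).
`PsiH_inj`: if `PsiH D f = 0` then for every functional `lam` on `V.H n`:  `0 = fundC lam (PsiC f n) =
lam (Hmap muV (PsiC f n))`; so `Hmap muV (PsiC f n) = 0` for all `n`; the classes `crsH n iota_t e_(n-t)` are all of
`H_n (K'(t) ⊗ R B)` (`KK_tens_surj`, `eq_zero_or_eB`), so `psi_null` applies.
`PsiH_surj`: let `G ∈ D.am.HomH t`.  Choose by `psi_exists` a Moore `f` with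
`Hmap muV (PsiC f n) = v_n`, where `v_n ∈ V.H n` is determined by `lam v_n = G n ((D.e n).symm (toQ (fundC lam)))` for all
`lam` (needs `V.H n` finite dimensional: reflexivity), `v_n = 0` for `n ≤ t`.  The set of `a` with
`PsiH D f n a = G n a` is closed under the operations (both families are in `HomH t`) and contains the fundamental
classes, so it is everything by `hgen`.
-/

open scoped TensorProduct

namespace MM

/-! ### auxiliary -/

/-- a linear simplicial map as a simplicial map -/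
private def A706_hom {W V : SV} (F : SVHom W V) : Hom W.ss V.ss :=
  ⟨fun n x => F.app n x, fun f x => F.nat f x⟩

private theorem A706_hom_zv {W V : SV} (F : SVHom W V) : (A706_hom F).app 0 W.zv = V.zv :=
  map_zero (F.app 0)

private theorem A706_muV {W V : SV} (F : SVHom W V) :
    (muV V).comp (RVmap (A706_hom F) (A706_hom_zv F)) = F.comp (muV W) := by
  apply R.ext
  intro n x
  show (muV V).app n ((RVmap (A706_hom F) (A706_hom_zv F)).app n ((R.of W.zv).app n x)) =
    F.app n ((muV W).app n ((R.of W.zv).app n x))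
  rw [R.map_of, muV_of, muV_of]
  rfl

private theorem A706_diag {V V' : SV} (g : Hom V.ss V'.ss) (hg : g.app 0 V.zv = V'.zv) :
    (R.diag V'.zv).comp (RVmap g hg) = ((RVmap g hg).tens (RVmap g hg)).comp (R.diag V.zv) := by
  apply R.ext
  intro n x
  have e1 : (RVmap g hg).app n ((R.of V.zv).app n x) = (R.of V'.zv).app n (g.app n x) :=
    R.map_of _ _ _ _ _ _
  have e2 : (R.diag V.zv).app n ((R.of V.zv).app n x) =
      ((R.of V.zv).app n x : (RV V).V n) ⊗ₜ[ZMod 2] ((R.of V.zv).app n x : (RV V).V n) :=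
    R.lift_of _ _ _ _ _
  have e3 : (R.diag V'.zv).app n ((R.of V'.zv).app n (g.app n x)) =
      ((R.of V'.zv).app n (g.app n x) : (RV V').V n) ⊗ₜ[ZMod 2]
        ((R.of V'.zv).app n (g.app n x) : (RV V').V n) :=
    R.lift_of _ _ _ _ _
  show (R.diag V'.zv).app n ((RVmap g hg).app n ((R.of V.zv).app n x)) =
    (TensorProduct.map ((RVmap g hg).app n) ((RVmap g hg).app n))
      ((R.diag V.zv).app n ((R.of V.zv).app n x))
  rw [e1, e2, e3, TensorProduct.map_tmul, e1]

private theorem A706_crsH_zero {P Q : SV} {p q : ℕ} (n : ℕ) (x : P.H p) :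
    crsH n x (0 : Q.H q) = 0 := by
  obtain ⟨f, hf⟩ := crsH_bilin P Q p q n
  rw [← hf, map_zero]

private theorem A706_PsiC_le {V : SV} {t : ℕ} (f : (MapSV BZ2 K1.zv V).V t)
    (hf : (MapSV BZ2 K1.zv V).Moore f) (n : ℕ) (hn : n ≤ t) : PsiC f hf n = 0 := by
  have e1 : eB (n - t) = 0 := by
    unfold eB
    rw [dif_neg (by omega)]
  unfold PsiC
  rw [e1, A706_crsH_zero, map_zero]

/-- classes of `K'(t) ⊗ Q` are zero below `t` and products with `iota_t` from `t` on -/
private theorem A706_tens (t : ℕ) (Q : SV) (n : ℕ) (x : ((KK t).tens Q).H n) :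
    (n < t ∧ x = 0) ∨ ∃ m, t + m = n ∧ ∃ y : Q.H m, x = crsH n (iotaH t) y := by
  obtain ⟨z, hz, rfl⟩ := A3Box_exists_cls x
  rcases Nat.lt_or_ge n t with h | h
  · left
    refine ⟨h, A3Box_cls_zero ?_ hz⟩
    have h1 : ∀ u : ((KK t).tens Q).V n, u = 0 := by
      intro u
      induction u using TensorProduct.induction_on with
      | zero => rfl
      | tmul x y => rw [KK_V_eq_zero t n h x, TensorProduct.zero_tmul]
      | add x y hx hy => rw [hx, hy, add_zero]
    exact h1 z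
  · right
    obtain ⟨m, rfl⟩ : ∃ m, n = t + m := ⟨n - t, by omega⟩
    obtain ⟨y, hy, h2⟩ := KK_tens_surj t Q m (t + m) rfl z hz
    refine ⟨m, rfl, Q.cls y hy, ?_⟩
    unfold iotaH
    rw [crsH_cls]
    exact A3Box_cls_eq _ _ h2

private theorem A706_H_low (t n : ℕ) (hn : n ≤ t) (x : ((KK t).tens (RV K1)).H n) : x = 0 := by
  rcases A706_tens t (RV K1) n x with ⟨-, h⟩ | ⟨m, hm, y, rfl⟩
  · exact h
  · obtain rfl : m = 0 := by omega
    rw [RVK1_zero y, A706_crsH_zero]

private theorem A706_gen (t n : ℕ) (x : ((KK t).tens (RV K1)).H n) :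
    x = 0 ∨ x = crsH n (iotaH t) (eB (n - t)) := by
  rcases A706_tens t (RV K1) n x with ⟨-, h⟩ | ⟨m, hm, y, rfl⟩
  · exact Or.inl h
  · obtain rfl : m = n - t := by omega
    rcases eq_zero_or_eB (n - t) y with h | h
    · left
      rw [h, A706_crsH_zero]
    · right
      rw [← h]

private theorem A706_ne (t n : ℕ) (hn : t < n) : crsH n (iotaH t) (eB (n - t)) ≠ 0 := by
  intro h
  obtain ⟨z, hz, he⟩ := A3Box_exists_cls (eB (n - t))
  rw [← he] at h
  unfold iotaH at h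
  rw [crsH_cls] at h
  have h0 : ((KK t).tens (RV K1)).cls (crs n (KK.iota t) z) (crs_mem_Z (KK_iota_mem_Z t) hz) =
      ((KK t).tens (RV K1)).cls 0 (Submodule.zero_mem _) := h
  have h1 := A3Box_cls_rel h0
  rw [add_zero] at h1
  have h2 := KK_tens_inj t (RV K1) (n - t) n (by omega) z hz h1
  apply eB_ne_zero (n - t) (by omega)
  rw [← he]
  have h3 : (RV K1).cls z hz = (RV K1).cls 0 (Submodule.zero_mem _) :=
    A3Box_cls_eq hz _ (by rwa [add_zero])
  rw [h3]
  rfl

private theorem A706_toQ_surj {V : SV} {n : ℕ} (q : QH V n) : ∃ y : RHc V n, toQ y = q := by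
  obtain ⟨y, hy⟩ := LinearMap.exists_extend (p := PH V n) q
  exact ⟨y, hy⟩

private theorem A706_toQ_apply {V : SV} {n : ℕ} (y : RHc V n) (x : PH V n) :
    toQ y x = y x.1 := rfl

private theorem A706_low {W V : SV} (g : Hom W.ss V.ss) (hg : g.app 0 W.zv = V.zv) (n : ℕ)
    (h : ∀ w, g.app n w = (0 : V.V n)) (z : (RV W).V n) : (RVmap g hg).app n z = 0 := by
  have hz' : z ∈ Submodule.span (ZMod 2) (Set.range ((R.of W.zv).app n)) := by
    rw [R.span]; trivial
  induction hz' using Submodule.span_induction with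
  | zero => rw [map_zero]
  | add a b _ _ ha hb => rw [map_add, ha, hb, add_zero]
  | smul r a _ ha => rw [map_smul, ha, smul_zero]
  | mem b hb =>
    obtain ⟨w, rfl⟩ := hb
    rw [R.map_of, h w]
    have h1 := R.of_base V.zv n
    have h2 : V.ss.deg V.zv n = (0 : V.V n) := map_zero (V.act _)
    rw [h2] at h1
    exact h1

/-- two homotopic linear maps agree in homology -/
private theorem A706_Hmap {P Q : SV} {f g : SVHom P Q} (h : LHtp f g) (n : ℕ) (x : P.H n) :
    SV.Hmap f n x = SV.Hmap g n x := by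
  obtain ⟨z, hz, rfl⟩ := A3Box_exists_cls x
  rw [SV.Hmap_cls, SV.Hmap_cls]
  exact A3Box_cls_eq _ _ ((lhtp_iff _ _).1 h n z hz)

theorem psi_sq' (S : SqFam) {V : SV} {t : ℕ} (f : (MapSV BZ2 K1.zv V).V t)
    (hf : (MapSV BZ2 K1.zv V).Moore f) (n m : ℕ) (hn : n ≤ t) (y : RHc V n) :
    S.on V n m y (PsiC f hf m) = 0 := by
  -- the universal case `W = K'(t) ⊗ R B` is `t`-connected
  obtain ⟨H, H0, H1⟩ := lowcon ((KK t).tens (RV K1)) t (by
    intro j hj z hz
    have h1 := A706_H_low t j hj (((KK t).tens (RV K1)).cls z hz)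
    have h2 : ((KK t).tens (RV K1)).cls z hz =
        ((KK t).tens (RV K1)).cls 0 (Submodule.zero_mem _) := h1
    have h3 := A3Box_cls_rel h2
    rwa [add_zero] at h3)
  let e : SVHom ((KK t).tens (RV K1)) ((KK t).tens (RV K1)) :=
    ⟨fun k => H.app k (cst 1), fun {k l} g x => by
      have h1 := H.nat g (cst 1) x
      have h2 : (cst 1 : Mo l 1).comp g = cst 1 := rfl
      rw [h2] at h1
      exact h1⟩
  have he : LHtp (SVHom.id _) e := ⟨H, H0, fun _ _ => rfl⟩
  let F : SVHom ((KK t).tens (RV K1)) V := (muV V).comp (psiHom f hf)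
  let F' : SVHom ((KK t).tens (RV K1)) V := F.comp e
  obtain ⟨fu, hu, hid⟩ := psi_exists (Z := BZ2) (z₀ := K1.zv) (V := (KK t).tens (RV K1)) (t := t)
    (fun k => LinearMap.id)
  have hM := moore_comp (A706_hom F') (A706_hom_zv F') fu hu
  have hB : f + (MapSV.comp (A706_hom F') (A706_hom_zv F')).app t fu ∈
      (MapSV BZ2 K1.zv V).B t := by
    refine psi_muV_injective f _ hf hM fun k x => ?_
    rw [psi_comp (A706_hom F') (A706_hom_zv F') fu hu,
      SV.Hmap_comp (RVmap (A706_hom F') (A706_hom_zv F')),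
      ← SV.Hmap_comp (muV V) (RVmap (A706_hom F') (A706_hom_zv F')), A706_muV,
      SV.Hmap_comp F', hid]
    show _ = SV.Hmap (F.comp e) k x
    rw [SV.Hmap_comp F e, ← A706_Hmap he, SV.Hmap_id]
    show _ = SV.Hmap ((muV V).comp (psiHom f hf)) k x
    rw [SV.Hmap_comp]
  have hP : PsiC f hf m = SV.Hmap (RVmap (A706_hom F') (A706_hom_zv F')) m (PsiC fu hu m) := by
    unfold PsiC
    rw [psi_congr f _ hf hM hB, psi_comp (A706_hom F') (A706_hom_zv F') fu hu, SV.Hmap_comp]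
  have h0 : y.comp (SV.Hmap (RVmap (A706_hom F') (A706_hom_zv F')) n) = 0 := by
    apply LinearMap.ext
    intro x
    obtain ⟨z, hz, rfl⟩ := A3Box_exists_cls x
    have h1 : (RVmap (A706_hom F') (A706_hom_zv F')).app n z = 0 := by
      refine A706_low _ _ n (fun w => ?_) z
      show F.app n (H.app n (cst 1) w) = 0
      rw [H1 n hn, map_zero]
    rw [LinearMap.comp_apply, SV.Hmap_cls, A3Box_cls_zero h1, map_zero]
    rfl
  rw [hP]
  have h2 := S.nat ((KK t).tens (RV K1)).zv V.zv (A706_hom F') (A706_hom_zv F') n m y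
  have h3 := LinearMap.congr_fun h2 (PsiC fu hu m)
  refine h3.trans ?_
  rw [h0, map_zero]
  rfl

/-- the family of functionals associated with a Moore element, `t ≥ 1` -/
noncomputable def PsiH {S : SqFam} {V : SV} (D : QHData S V) {t : ℕ} (ht : 1 ≤ t)
    (f : (MapSV BZ2 K1.zv V).V t) (hf : (MapSV BZ2 K1.zv V).Moore f) (n : ℕ) :
    Module.Dual (ZMod 2) (D.am.M n) where
  toFun a := D.e n a ⟨PsiC f hf n, psi_prim ht f hf n _⟩
  map_add' a b := by rw [map_add]; rfl
  map_smul' c a := by rw [map_smul]; rfl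

theorem PsiH_mem {S : SqFam} {V : SV} (D : QHData S V) {t : ℕ} (ht : 1 ≤ t)
    (f : (MapSV BZ2 K1.zv V).V t) (hf : (MapSV BZ2 K1.zv V).Moore f) :
    PsiH D ht f hf ∈ D.am.HomH t := by
  have h0 : ∀ n, n ≤ t → PsiH D ht f hf n = 0 := by
    intro n hn
    apply LinearMap.ext
    intro a
    show D.e n a ⟨PsiC f hf n, _⟩ = 0
    have h1 : (⟨PsiC f hf n, psi_prim ht f hf n _⟩ : PH V n) = 0 :=
      Subtype.ext (A706_PsiC_le f hf n hn)
    rw [h1, map_zero]
  refine ⟨h0, fun n m x hnm => ?_⟩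
  obtain ⟨y, hy⟩ := A706_toQ_surj (D.e n x)
  have hx : x = (D.e n).symm (toQ y) := by rw [hy, LinearEquiv.symm_apply_apply]
  have e1 : PsiH D ht f hf m (D.am.Sq n m x) = S.on V n m y (PsiC f hf m) := by
    show D.e m (D.am.Sq n m x) ⟨PsiC f hf m, _⟩ = _
    rw [hx, D.comm]
    rfl
  have e2 : PsiH D ht f hf n x = y (PsiC f hf n) := by
    show D.e n x ⟨PsiC f hf n, _⟩ = _
    rw [← hy]
    rfl
  rcases Nat.lt_or_ge t n with h | h
  · rw [e1, e2, psi_sq S f hf n m h hnm y]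
  · rw [e1, psi_sq' S f hf n m h y, h0 n h, LinearMap.zero_apply, mul_zero]

theorem PsiH_add {S : SqFam} {V : SV} (D : QHData S V) {t : ℕ} (ht : 1 ≤ t)
    (f f' : (MapSV BZ2 K1.zv V).V t) (hf : (MapSV BZ2 K1.zv V).Moore f)
    (hf' : (MapSV BZ2 K1.zv V).Moore f') :
    PsiH D ht (f + f') (moore_add hf hf') = PsiH D ht f hf + PsiH D ht f' hf' := by
  funext n
  apply LinearMap.ext
  intro a
  show D.e n a ⟨PsiC (f + f') (moore_add hf hf') n, _⟩ =
    D.e n a ⟨PsiC f hf n, _⟩ + D.e n a ⟨PsiC f' hf' n, _⟩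
  rw [← map_add]
  congr 1
  exact Subtype.ext (psi_add ht f f' hf hf' n _)

theorem PsiH_congr {S : SqFam} {V : SV} (D : QHData S V) {t : ℕ} (ht : 1 ≤ t)
    (f f' : (MapSV BZ2 K1.zv V).V t) (hf : (MapSV BZ2 K1.zv V).Moore f)
    (hf' : (MapSV BZ2 K1.zv V).Moore f') (h : f + f' ∈ (MapSV BZ2 K1.zv V).B t) :
    PsiH D ht f hf = PsiH D ht f' hf' := by
  funext n
  apply LinearMap.ext
  intro a
  show D.e n a ⟨PsiC f hf n, _⟩ = D.e n a ⟨PsiC f' hf' n, _⟩
  congr 1
  apply Subtype.ext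
  show PsiC f hf n = PsiC f' hf' n
  unfold PsiC
  rw [psi_congr f f' hf hf' h n]

private theorem A706_fund {S : SqFam} {V : SV} (D : QHData S V) {t : ℕ} (ht : 1 ≤ t)
    (f : (MapSV BZ2 K1.zv V).V t) (hf : (MapSV BZ2 K1.zv V).Moore f) (n : ℕ)
    (lam : Module.Dual (ZMod 2) (V.H n)) :
    PsiH D ht f hf n ((D.e n).symm (toQ (fundC lam))) =
      lam (SV.Hmap (muV V) n (SV.Hmap (psiHom f hf) n (crsH n (iotaH t) (eB (n - t))))) := by
  show D.e n ((D.e n).symm (toQ (fundC lam))) ⟨PsiC f hf n, _⟩ = _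
  rw [LinearEquiv.apply_symm_apply]
  rfl

theorem PsiH_inj {S : SqFam} {V : SV} (D : QHData S V) {t : ℕ} (ht : 1 ≤ t)
    (f : (MapSV BZ2 K1.zv V).V t) (hf : (MapSV BZ2 K1.zv V).Moore f)
    (h : PsiH D ht f hf = 0) : f ∈ (MapSV BZ2 K1.zv V).B t := by
  refine psi_null f hf fun n x => ?_
  rcases A706_gen t n x with rfl | rfl
  · rw [map_zero, map_zero]
  rw [← Module.forall_dual_apply_eq_zero_iff (ZMod 2)]
  intro lam
  rw [← A706_fund D ht f hf n lam, h]
  rfl

/-- the fundamental classes generate `QH V` under the operations -/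
def QHData.Gen {S : SqFam} {V : SV} (D : QHData S V) : Prop :=
  ∀ N : ∀ n, Submodule (ZMod 2) (D.am.M n),
    (∀ n m, ∀ x ∈ N n, D.am.Sq n m x ∈ N m) →
    (∀ n (lam : Module.Dual (ZMod 2) (V.H n)), (D.e n).symm (toQ (fundC lam)) ∈ N n) →
    ∀ n, N n = ⊤

theorem PsiH_surj {S : SqFam} {V : SV} (D : QHData S V) (hgen : D.Gen)
    (hfin : ∀ n, Module.Finite (ZMod 2) (V.H n)) {t : ℕ} (ht : 1 ≤ t)
    (G : ∀ n, Module.Dual (ZMod 2) (D.am.M n)) (hG : G ∈ D.am.HomH t) :
    ∃ (f : (MapSV BZ2 K1.zv V).V t) (hf : (MapSV BZ2 K1.zv V).Moore f), PsiH D ht f hf = G := by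
  -- the values
  have hv : ∀ n, ∃ v : V.H n, ∀ lam : Module.Dual (ZMod 2) (V.H n),
      lam v = G n ((D.e n).symm (toQ (fundC lam))) := by
    intro n
    have := hfin n
    let L : Module.Dual (ZMod 2) (V.H n) →ₗ[ZMod 2] ZMod 2 :=
      (G n).comp ((D.e n).symm.toLinearMap.comp
        (toQ.comp ((SV.Hmap (muV V) n).dualMap)))
    obtain ⟨v, hv⟩ := (Module.evalEquiv (ZMod 2) (V.H n)).surjective L
    refine ⟨v, fun lam => ?_⟩
    have h1 := LinearMap.congr_fun hv lam
    exact h1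
  choose v hv using hv
  have hφ : ∀ n, ∃ φ : ((KK t).tens (RV K1)).H n →ₗ[ZMod 2] V.H n,
      φ (crsH n (iotaH t) (eB (n - t))) = v n := by
    intro n
    rcases Nat.lt_or_ge t n with h | h
    · have h1 := A706_ne t n h
      obtain ⟨s, hs⟩ : ∃ s : Module.Dual (ZMod 2) (((KK t).tens (RV K1)).H n),
          s (crsH n (iotaH t) (eB (n - t))) ≠ 0 := by
        by_contra hcon
        push Not at hcon
        exact h1 ((Module.forall_dual_apply_eq_zero_iff (ZMod 2) _).1 hcon)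
      have h2 : s (crsH n (iotaH t) (eB (n - t))) = 1 := by
        have h4 : ∀ c : ZMod 2, c ≠ 0 → c = 1 := by decide
        exact h4 _ hs
      refine ⟨s.smulRight (v n), ?_⟩
      rw [LinearMap.smulRight_apply, h2, one_smul]
    · refine ⟨0, ?_⟩
      rw [LinearMap.zero_apply]
      symm
      rw [← Module.forall_dual_apply_eq_zero_iff (ZMod 2)]
      intro lam
      rw [hv, hG.1 n h]
      rfl
  choose φ hφ using hφ
  obtain ⟨f, hf, hfφ⟩ := psi_exists (Z := BZ2) (z₀ := K1.zv) (V := V) (t := t) φ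
  refine ⟨f, hf, ?_⟩
  have hF := PsiH_mem D ht f hf
  have key := hgen (fun n => LinearMap.eqLocus (PsiH D ht f hf n) (G n)) (by
    intro n m x hx
    show PsiH D ht f hf m (D.am.Sq n m x) = G m (D.am.Sq n m x)
    have hx' : PsiH D ht f hf n x = G n x := hx
    rcases Nat.lt_or_ge m n with h | h
    · rw [D.am.Sq_lt n m h, LinearMap.zero_apply, map_zero, map_zero]
    · rw [hF.2 n m x h, hG.2 n m x h, hx']) (by
    intro n lam
    show PsiH D ht f hf n ((D.e n).symm (toQ (fundC lam))) = G n _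
    rw [A706_fund, hfφ, hφ, hv])
  funext n
  apply LinearMap.ext
  intro x
  have h1 : x ∈ LinearMap.eqLocus (PsiH D ht f hf n) (G n) := by
    rw [key n]; trivial
  exact h1

/-! ## naturality -/

/-- the map of primitives induced by a pointed simplicial map -/
theorem PH_map {V V' : SV} (g : Hom V.ss V'.ss) (hg : g.app 0 V.zv = V'.zv) (n : ℕ)
    (x : (RV V).H n) (hx : x ∈ PH V n) : SV.Hmap (RVmap g hg) n x ∈ PH V' n := by
  have hx' : SV.Hmap (R.diag V.zv) n x = 0 := hx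
  show SV.Hmap (R.diag V'.zv) n (SV.Hmap (RVmap g hg) n x) = 0
  rw [← SV.Hmap_comp, A706_diag, SV.Hmap_comp, hx', map_zero]

/-- the induced map of indecomposables -/
noncomputable def QHmapL {V V' : SV} (g : Hom V.ss V'.ss) (hg : g.app 0 V.zv = V'.zv) (n : ℕ) :
    QH V' n →ₗ[ZMod 2] QH V n :=
  ((SV.Hmap (RVmap g hg) n).restrict (PH_map g hg n)).dualMap

theorem QHmap_comm {S : SqFam} {V V' : SV} (D : QHData S V) (D' : QHData S V')
    (g : Hom V.ss V'.ss) (hg : g.app 0 V.zv = V'.zv) (n m : ℕ) (x : D'.am.M n) :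
    (D.e m).symm (QHmapL g hg m (D'.e m (D'.am.Sq n m x))) =
      D.am.Sq n m ((D.e n).symm (QHmapL g hg n (D'.e n x))) := by
  have hq : ∀ (k : ℕ) (z : RHc V' k),
      QHmapL g hg k (toQ z) = toQ (z.comp (SV.Hmap (RVmap g hg) k)) := fun k z => rfl
  obtain ⟨y, hy⟩ := A706_toQ_surj (D'.e n x)
  have hx : x = (D'.e n).symm (toQ y) := by rw [hy, LinearEquiv.symm_apply_apply]
  have h1 := D'.comm n m y
  rw [← hx] at h1
  rw [h1, ← hy, hq, hq, LinearEquiv.symm_apply_eq, D.comm]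
  congr 1
  exact S.nat V.zv V'.zv g hg n m y

/-- the induced map as an `AMHom` -/
noncomputable def QHmap {S : SqFam} {V V' : SV} (D : QHData S V) (D' : QHData S V')
    (g : Hom V.ss V'.ss) (hg : g.app 0 V.zv = V'.zv) : AMHom D'.am D.am :=
  ⟨fun n => ((D.e n).symm.toLinearMap.comp (QHmapL g hg n)).comp (D'.e n).toLinearMap,
    fun n m x => QHmap_comm D D' g hg n m x⟩

theorem PsiH_comp {S : SqFam} {V V' : SV} (D : QHData S V) (D' : QHData S V')
    (g : Hom V.ss V'.ss) (hg : g.app 0 V.zv = V'.zv) {t : ℕ} (ht : 1 ≤ t)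
    (f : (MapSV BZ2 K1.zv V).V t) (hf : (MapSV BZ2 K1.zv V).Moore f) (n : ℕ) (x : D'.am.M n) :
    PsiH D' ht ((MapSV.comp g hg).app t f) (moore_comp g hg f hf) n x =
      PsiH D ht f hf n ((QHmap D D' g hg).app n x) := by
  show D'.e n x ⟨PsiC ((MapSV.comp g hg).app t f) (moore_comp g hg f hf) n, _⟩ =
    D.e n ((D.e n).symm (QHmapL g hg n (D'.e n x))) ⟨PsiC f hf n, _⟩
  rw [LinearEquiv.apply_symm_apply]
  show _ = D'.e n x ⟨SV.Hmap (RVmap g hg) n (PsiC f hf n), _⟩
  congr 1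
  apply Subtype.ext
  show PsiC ((MapSV.comp g hg).app t f) (moore_comp g hg f hf) n =
    SV.Hmap (RVmap g hg) n (PsiC f hf n)
  unfold PsiC
  rw [psi_comp, SV.Hmap_comp]

end MM
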