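import Pool.Agent.Lib_MP_33f7bb_d.A4Def
import Pool.Agent.Lib_MP_33f7bb_d.A706

/-!
# Interfaces A3/A4/A6 for part A7

`S2Prop` (helper15), `HomExactProp` (helper3), boundedness in the form used by A7: `BndProp`.
-/

namespace MM

/-- structure of the indecomposables of the cohomology of `V` (part A4, S2) -/
def S2Prop (S : SqFam) : Prop :=
  ∀ V : SV, (∀ n, Finite (V.V n)) → (∀ x : V.H 0, x = 0) →
    ∃ D : QHData S V, D.Gen ∧
      ∃ (ι : Type) (a : ι → ℕ), Nonempty (IsSusp (AM.dsum fun l => EAM (a l)) D.am)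

/-- injectivity (part A6) -/
def HomExactProp : Prop :=
  ∀ (M : ℕ → AM) (δ : ∀ s, AMHom (M (s + 1)) (M s)),
    (∀ s n x, (δ s).app n ((δ (s + 1)).app n x) = 0) →
    (∀ s, ∃ (ι : Type) (a : ι → ℕ), Nonempty (IsSusp (AM.dsum fun l => EAM (a l)) (M s))) →
    (∀ s n, Module.Finite (ZMod 2) ((M s).M n)) →
    (∃ D, ∀ n, D < n → ∀ x : (M 0).M n, ∃ y, (δ 0).app n y = x) →
    (∀ s, ∃ D, ∀ n, D < n → ∀ x : (M (s + 1)).M n, (δ s).app n x = 0 →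
      ∃ y, (δ (s + 1)).app n y = x) →
    ∀ t, 1 ≤ t →
      (∀ f ∈ (M 0).HomH t, (∀ n x, f n ((δ 0).app n x) = 0) → f = 0) ∧
      ∀ s, ∀ f ∈ (M (s + 1)).HomH t, (∀ n x, f n ((δ (s + 1)).app n x) = 0) →
        ∃ g ∈ (M s).HomH t, ∀ n x, f n x = g n ((δ s).app n x)

/-- the sum of the maps induced on indecomposables by the cofaces -/
noncomputable def QHd {V V' : SV} {k : ℕ} (d : Fin k → Hom V.ss V'.ss)
    (hd : ∀ i, (d i).app 0 V.zv = V'.zv) (n : ℕ) : QH V' n →ₗ[ZMod 2] QH V n :=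
  ∑ i, QHmapL (d i) (hd i) n

/-- boundedness of the homology of `s ↦ QH (V s)` (part A5) -/
def BndProp (V : ℕ → SV) (dV : ∀ s, Fin (s + 2) → Hom (V s).ss (V (s + 1)).ss)
    (hd : ∀ s i, (dV s i).app 0 (V s).zv = (V (s + 1)).zv) : Prop :=
  (∃ D, ∀ n, D < n → ∀ x : QH (V 0) n, ∃ y : QH (V 1) n, QHd (dV 0) (hd 0) n y = x) ∧
  ∀ s, ∃ D, ∀ n, D < n → ∀ x : QH (V (s + 1)) n, QHd (dV s) (hd s) n x = 0 →
    ∃ y : QH (V (s + 2)) n, QHd (dV (s + 1)) (hd (s + 1)) n y = x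

end MM
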