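import Pool.Agent.Lib_MP_33f7bb_d.A4V5
import Pool.Agent.Lib_MP_33f7bb_d.A517
import Pool.Agent.Lib_MP_33f7bb_d.A3Sq

/-!
# A4-46: (S2)

`S2_poly` (finite dimensionality of `V.H n`: `V.V n` is finite), `exists_CB` (`S2a`), `exists_QHData`, `exists_susp`, `exists_gen` (`S2Prop`).
For `S2a` an `S : SqFam` is needed: `exists_SqFam`.  Degrees: `gdeg a x = wtO x.2 + 1 ≥ 1`; finite fibres: `a l ≤ wtO b` (`le_wtO`) and `wtO_fin`.
-/

namespace MM

theorem gdeg_fin {L : Type} (a : L → ℕ) (hL : ∀ d, {l | a l ≤ d}.Finite) (k : ℕ) :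
    {x : GI a | gdeg a x = k}.Finite := by
  refine ((hL k).biUnion (t := fun l => (fun b : Orb (a l) => (⟨l, b⟩ : GI a)) ''
    {b : Orb (a l) | wtO b ≤ k}) fun l _ => (wtO_fin k).image _).subset ?_
  rintro ⟨l, b⟩ hx
  have h1 : wtO b + 1 = k := hx
  rw [Set.mem_iUnion₂]
  refine ⟨l, ?_, b, ?_, rfl⟩
  · have h2 := le_wtO b
    show a l ≤ k
    omega
  · show wtO b ≤ k
    omega

private theorem A4Top_finH (V : SV) (hV : ∀ n, Finite (V.V n)) (n : ℕ) :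
    Module.Finite (ZMod 2) (V.H n) := by
  have := hV n
  infer_instance

theorem s2a : S2a := by
  intro V hV h0
  obtain ⟨S⟩ := exists_SqFam
  obtain ⟨L, a, g, hL, -, hP⟩ := S2_poly S V (A4Top_finH V hV) h0
  obtain ⟨y, hy, -⟩ := exists_CB hP (fun i => Nat.succ_le_succ (Nat.zero_le _)) (gdeg_fin a hL)
  exact ⟨GI a, gdeg a, y, hy⟩

theorem s2 : ∀ S, S2Prop S := by
  intro S V hV h0
  obtain ⟨L, a, g, hL, -, hP⟩ := S2_poly S V (A4Top_finH V hV) h0
  obtain ⟨y, hy, -⟩ := exists_CB hP (fun i => Nat.succ_le_succ (Nat.zero_le _)) (gdeg_fin a hL)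
  obtain ⟨D⟩ := exists_QHData S V hy.finite_H
  exact ⟨D, exists_gen S V D a g hL hP, L, a, exists_susp S V D a g hL hP⟩

end MM
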