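import Pool.Agent.Lib_MP_33f7bb_d.A4R6
import Pool.Agent.Lib_MP_33f7bb_d.A011
import Pool.Agent.Lib_MP_33f7bb_d.A016

/-!
# A4-41: homology of `lin V` in low degrees depends only on the homology of `V` in low degrees

`lowsplit`: bases `b n` of `H_n V` (`Module.Free.chooseBasis` or `Basis.ofVectorSpace`), `exists_split`: linear homotopy equivalence
`g : V → dsum_(i : Σ n, κ n) KK i.1`.  Put `V' = dsum` over the `i` with `i.1 > N` and `k = (projection) ∘ g`
(`DFinsupp.subtypeDomainLinearMap`).  A cycle of degree `j` of `dsum KK (i.1)` all of whose components are boundaries is a boundary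
(finite support; choose); components of degree `j ≠ i.1` are boundaries (`KK_homology`).  So `H_j V' = 0` for `j ≤ N` and the projection is
bijective on `H_j` for `j > N`; `g` is bijective on all `H_j` (`lhtp_iff`).
`pair_H_left`: `W × W'` with `H_j W' = 0`: `(f, g)` is bijective on `H_j` iff `f` is (elementary, componentwise); `pair_H_right` symmetric.
`proj_low`: by `lowcon` (for `V'`, `m = N`) there is a linear homotopy from `id` to a map `h : V' → V'` which vanishes in levels `≤ N`.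
`id × id` is homotopic to `id × h` on `W × V'`, and `id × h` and `(w, v) ↦ (w, 0)` agree in levels `≤ N`, so they induce the same map
on `H_j (lin)`, `j ≤ N` (the class of `mapDomain f z` depends only on `f` in level `j`).  With `pr : W × V' → W`, `inc w = (w, 0)`: `pr ∘ inc = id`,
`(inc ∘ pr)_* = (id × h)_* = id` on `H_j (lin)`, `j ≤ N` (`Hmap_linMap_lhtp`).
`lin_low_iso`: `k : V → V'` from `lowsplit`; `(f, k) : V → W × V'` is bijective on all `H_j` (`pair_H_left` for `j ≤ N`, `pair_H_right` for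
`j > N`), so `Hmap_linMap_bij` applies; compose with `pr` (`proj_low`): `pr ∘ (f, k) = f`.
-/

open scoped TensorProduct

namespace MM

/-- the pairing of two linear maps -/
def SVHom.pair {V W W' : SV} (f : SVHom V W) (g : SVHom V W') : SVHom V (W.prd W') :=
  ⟨fun n => (f.app n).prod (g.app n), fun h x => by
    show (f.app _ (V.act h x), g.app _ (V.act h x)) = (W.act h _, W'.act h _)
    rw [f.nat, g.nat]; rfl⟩

/-- the first projection -/
def prdFst (W W' : SV) : SVHom (W.prd W') W :=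
  ⟨fun n => LinearMap.fst (ZMod 2) (W.V n) (W'.V n), fun _ _ => rfl⟩

/-- the second projection -/
def prdSnd (W W' : SV) : SVHom (W.prd W') W' :=
  ⟨fun n => LinearMap.snd (ZMod 2) (W.V n) (W'.V n), fun _ _ => rfl⟩

private theorem A4V1_cls_eq {P : SV} {n : ℕ} {z z' : P.V n} (hz : z ∈ P.Z n) (hz' : z' ∈ P.Z n) :
    P.cls z hz = P.cls z' hz' ↔ z + z' ∈ P.B n := by
  unfold SV.cls
  rw [Submodule.Quotient.eq]
  show z - z' ∈ P.B n ↔ z + z' ∈ P.B n
  rw [sub_eq']

/-- bijectivity on homology, elementary form -/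
private theorem A4V1_bij {P Q : SV} (f : SVHom P Q) (n : ℕ)
    (h1 : ∀ z ∈ P.Z n, f.app n z ∈ Q.B n → z ∈ P.B n)
    (h2 : ∀ x ∈ Q.Z n, ∃ z ∈ P.Z n, f.app n z + x ∈ Q.B n) :
    Function.Bijective (SV.Hmap f n) := by
  constructor
  · rw [injective_iff_map_eq_zero]
    intro x hx
    obtain ⟨⟨z, hz⟩, rfl⟩ := Submodule.Quotient.mk_surjective _ x
    have hx' : Q.cls (f.app n z) (f.map_Z hz) = 0 := hx
    have h3 : f.app n z ∈ Q.B n := by
      have h4 : Q.cls (f.app n z) (f.map_Z hz) = Q.cls 0 (Submodule.zero_mem _) := hx'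
      rw [A4V1_cls_eq, add_zero] at h4
      exact h4
    exact (Submodule.Quotient.mk_eq_zero _).2 (h1 z hz h3)
  · intro x
    obtain ⟨⟨y, hy⟩, rfl⟩ := Submodule.Quotient.mk_surjective _ x
    obtain ⟨z, hz, h⟩ := h2 y hy
    refine ⟨P.cls z hz, ?_⟩
    show Q.cls (f.app n z) (f.map_Z hz) = Q.cls y hy
    rw [A4V1_cls_eq]
    exact h

private theorem A4V1_inj {P Q : SV} {f : SVHom P Q} {n : ℕ}
    (hf : Function.Injective (SV.Hmap f n)) {z : P.V n} (hz : z ∈ P.Z n)
    (h : f.app n z ∈ Q.B n) : z ∈ P.B n := by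
  have h1 : SV.Hmap f n (P.cls z hz) = SV.Hmap f n (P.cls 0 (Submodule.zero_mem _)) := by
    rw [SV.Hmap_cls, SV.Hmap_cls, A4V1_cls_eq, map_zero, add_zero]
    exact h
  have h2 := hf h1
  rw [A4V1_cls_eq, add_zero] at h2
  exact h2

private theorem A4V1_surj {P Q : SV} {f : SVHom P Q} {n : ℕ}
    (hf : Function.Surjective (SV.Hmap f n)) {x : Q.V n} (hx : x ∈ Q.Z n) :
    ∃ z ∈ P.Z n, f.app n z + x ∈ Q.B n := by
  obtain ⟨y, hy⟩ := hf (Q.cls x hx)
  obtain ⟨⟨z, hz⟩, rfl⟩ := Submodule.Quotient.mk_surjective _ y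
  refine ⟨z, hz, ?_⟩
  have h1 : Q.cls (f.app n z) (f.map_Z hz) = Q.cls x hx := hy
  rwa [A4V1_cls_eq] at h1

/-! direct sums -/

private noncomputable def A4V1_J {ι : Type} [DecidableEq ι] (κ : ι → SV) (i : ι) :
    SVHom (κ i) (dsum κ) :=
  ⟨fun m => DFinsupp.lsingle (R := ZMod 2) (M := fun i => (κ i).V m) i, by
    intro m n g x
    show DFinsupp.single i ((κ i).act g x) =
      DFinsupp.mapRange (fun i => (κ i).act g) (fun i => map_zero ((κ i).act g))
        (DFinsupp.single i x)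
    rw [DFinsupp.mapRange_single]⟩

private noncomputable def A4V1_C {ι : Type} (κ : ι → SV) (i : ι) : SVHom (dsum κ) (κ i) :=
  ⟨fun m => DFinsupp.lapply (R := ZMod 2) (M := fun i => (κ i).V m) i, fun g x => by simp⟩

private theorem A4V1_comp_Z {ι : Type} {κ : ι → SV} {n : ℕ} {z : (dsum κ).V n}
    (hz : z ∈ (dsum κ).Z n) (i : ι) : z i ∈ (κ i).Z n := (A4V1_C κ i).map_Z hz

private theorem A4V1_comp_B {ι : Type} {κ : ι → SV} {n : ℕ} {z : (dsum κ).V n}
    (hz : z ∈ (dsum κ).B n) (i : ι) : z i ∈ (κ i).B n := (A4V1_C κ i).map_B hz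

private theorem A4V1_dsum_B {ι : Type} {κ : ι → SV} {n : ℕ} {z : (dsum κ).V n}
    (h : ∀ i, z i ∈ (κ i).B n) : z ∈ (dsum κ).B n := by
  classical
  have hdec : z = ∑ i ∈ DFinsupp.support z, (A4V1_J κ i).app n (z i) := by
    conv_lhs => rw [← DFinsupp.sum_single (f := z)]
    rfl
  rw [hdec]
  exact Submodule.sum_mem _ fun i _ => (A4V1_J κ i).map_B (h i)

/-- projection to a part of a direct sum -/
private noncomputable def A4V1_pr {ι : Type} (κ : ι → SV) (p : ι → Prop) [DecidablePred p] :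
    SVHom (dsum κ) (dsum fun i : {i // p i} => κ i.1) :=
  ⟨fun m => DFinsupp.subtypeDomainLinearMap (ZMod 2) (fun i => (κ i).V m) p, fun g x => by
    refine DFinsupp.ext fun i => ?_
    rfl⟩

/-- inclusion of a part of a direct sum -/
private noncomputable def A4V1_in {ι : Type} [DecidableEq ι] (κ : ι → SV) (p : ι → Prop) :
    SVHom (dsum fun i : {i // p i} => κ i.1) (dsum κ) :=
  ⟨fun m => DFinsupp.lsum ℕ (fun i : {i // p i} =>
      (DFinsupp.lsingle (R := ZMod 2) (M := fun i => (κ i).V m) i.1 :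
        (κ i.1).V m →ₗ[ZMod 2] (dsum κ).V m)), by
    intro m n g x
    have : (DFinsupp.lsum ℕ (fun i : {i // p i} =>
          (DFinsupp.lsingle (R := ZMod 2) (M := fun i => (κ i).V m) i.1 :
            (κ i.1).V m →ₗ[ZMod 2] (dsum κ).V m))).comp
          ((dsum fun i : {i // p i} => κ i.1).act g) =
        ((dsum κ).act g).comp (DFinsupp.lsum ℕ (fun i : {i // p i} =>
          (DFinsupp.lsingle (R := ZMod 2) (M := fun i => (κ i).V n) i.1 :
            (κ i.1).V n →ₗ[ZMod 2] (dsum κ).V n))) := by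
      refine DFinsupp.lhom_ext fun i v => ?_
      simp only [LinearMap.comp_apply, DFinsupp.lsum_single]
      have e : (dsum fun i : {i // p i} => κ i.1).act g (DFinsupp.single i v) =
          DFinsupp.single i ((κ i.1).act g v) := by
        show DFinsupp.mapRange (fun i : {i // p i} => (κ i.1).act g)
          (fun i => map_zero ((κ i.1).act g)) _ = _
        rw [DFinsupp.mapRange_single]
      rw [e, DFinsupp.lsum_single]
      exact (A4V1_J κ i.1).nat g v
    exact LinearMap.congr_fun this x⟩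

private theorem A4V1_pr_in {ι : Type} [DecidableEq ι] (κ : ι → SV) (p : ι → Prop)
    [DecidablePred p] (m : ℕ) (x : (dsum fun i : {i // p i} => κ i.1).V m) :
    (A4V1_pr κ p).app m ((A4V1_in κ p).app m x) = x := by
  have : ((A4V1_pr κ p).app m).comp ((A4V1_in κ p).app m) = LinearMap.id := by
    refine DFinsupp.lhom_ext fun i v => ?_
    show (A4V1_pr κ p).app m ((A4V1_in κ p).app m (DFinsupp.single i v)) = DFinsupp.single i v
    have e : (A4V1_in κ p).app m (DFinsupp.single i v) =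
        (DFinsupp.single i.1 v : (dsum κ).V m) := by
      show (DFinsupp.lsum ℕ (fun i : {i // p i} =>
          (DFinsupp.lsingle (R := ZMod 2) (M := fun i => (κ i).V m) i.1 :
            (κ i.1).V m →ₗ[ZMod 2] (dsum κ).V m))) (DFinsupp.single i v) = _
      rw [DFinsupp.lsum_single]
      rfl
    rw [e]
    refine DFinsupp.ext fun j => ?_
    show (DFinsupp.single i.1 v : (dsum κ).V m) j.1 =
      (DFinsupp.single i v : (dsum fun i : {i // p i} => κ i.1).V m) j
    by_cases hj : j = i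
    · subst hj
      rw [DFinsupp.single_eq_same, DFinsupp.single_eq_same]
    · rw [DFinsupp.single_eq_of_ne hj, DFinsupp.single_eq_of_ne (fun h => hj (Subtype.ext h))]
  exact LinearMap.congr_fun this x

private theorem A4V1_Hmap_bij {V W : SV} (f : SVHom V W) (g : SVHom W V)
    (h1 : LHtp (g.comp f) (SVHom.id V)) (h2 : LHtp (f.comp g) (SVHom.id W)) (n : ℕ) :
    Function.Bijective (SV.Hmap f n) := by
  rw [lhtp_iff] at h1 h2
  refine A4V1_bij f n ?_ ?_
  · intro z hz h
    have h3 := h1 n z hz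
    have h4 : g.app n (f.app n z) ∈ V.B n := g.map_B h
    have h5 := Submodule.add_mem _ h4 h3
    have h6 : g.app n (f.app n z) + ((g.comp f).app n z + (SVHom.id V).app n z) = z := by
      show g.app n (f.app n z) + (g.app n (f.app n z) + z) = z
      rw [← add_assoc, two_eq_zero', zero_add]
    rwa [h6] at h5
  · intro x hx
    exact ⟨g.app n x, g.map_Z hx, h2 n x hx⟩

private theorem A4V1_part {ι : Type} (δ : ι → ℕ) (N : ℕ) :
    (∀ j ≤ N, ∀ z ∈ (dsum fun i : {i // N < δ i} => KK (δ i.1)).Z j,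
      z ∈ (dsum fun i : {i // N < δ i} => KK (δ i.1)).B j) ∧
    ∀ j, N < j → Function.Bijective
      (SV.Hmap (A4V1_pr (fun i => KK (δ i)) (fun i => N < δ i)) j) := by
  classical
  refine ⟨?_, ?_⟩
  · intro j hj z hz
    refine A4V1_dsum_B fun i => ?_
    rcases KK_homology (δ i.1) j (z i) (A4V1_comp_Z hz i) with h | ⟨h, -⟩
    · exact h
    · exfalso
      have h3 : N < δ i.1 := i.2
      omega
  · intro j hj
    refine A4V1_bij _ j ?_ ?_
    · intro z hz h
      refine A4V1_dsum_B fun i => ?_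
      by_cases hi : N < δ i
      · exact A4V1_comp_B (κ := fun i : {i // N < δ i} => KK (δ i.1)) h ⟨i, hi⟩
      · rcases KK_homology (δ i) j (z i) (A4V1_comp_Z hz i) with h | ⟨h, -⟩
        · exact h
        · exfalso
          omega
    · intro x hx
      refine ⟨(A4V1_in (fun i => KK (δ i)) (fun i => N < δ i)).app j x,
        (A4V1_in (fun i => KK (δ i)) (fun i => N < δ i)).map_Z hx, ?_⟩
      rw [A4V1_pr_in, two_eq_zero']
      exact Submodule.zero_mem _

theorem lowsplit (V : SV) (N : ℕ) : ∃ (V' : SV) (k : SVHom V V'),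
    (∀ j ≤ N, ∀ z ∈ V'.Z j, z ∈ V'.B j) ∧ ∀ j, N < j → Function.Bijective (SV.Hmap k j) := by
  classical
  obtain ⟨f, g, h1, h2, -⟩ := exists_split V _
    (fun n => Module.Basis.ofVectorSpace (ZMod 2) (V.H n))
  obtain ⟨h3, h4⟩ := A4V1_part (fun i : (Σ n, (Module.Basis.ofVectorSpaceIndex (ZMod 2) (V.H n))) =>
    i.1) N
  refine ⟨_, (A4V1_pr (fun i : (Σ n, (Module.Basis.ofVectorSpaceIndex (ZMod 2) (V.H n))) =>
    KK i.1) (fun i => N < i.1)).comp g, h3, ?_⟩
  intro j hj
  have hg : Function.Bijective (SV.Hmap g j) := A4V1_Hmap_bij g f h1 h2 j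
  have e : ⇑(SV.Hmap ((A4V1_pr (fun i : (Σ n, (Module.Basis.ofVectorSpaceIndex (ZMod 2) (V.H n))) =>
      KK i.1) (fun i => N < i.1)).comp g) j) =
      ⇑(SV.Hmap (A4V1_pr (fun i : (Σ n, (Module.Basis.ofVectorSpaceIndex (ZMod 2) (V.H n))) =>
      KK i.1) (fun i => N < i.1)) j) ∘ ⇑(SV.Hmap g j) :=
    funext fun x => SV.Hmap_comp _ _ j x
  rw [e]
  exact (h4 j hj).comp hg

private theorem A4V1_prd_d (W W' : SV) (n : ℕ) (x : (W.prd W').V (n + 1)) :
    (W.prd W').d n x = (W.d n x.1, W'.d n x.2) := by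
  refine Prod.ext ?_ ?_
  · exact (prdFst W W').map_d x
  · exact (prdSnd W W').map_d x

private theorem A4V1_prd_B {W W' : SV} {n : ℕ} {x : (W.prd W').V n} (h1 : x.1 ∈ W.B n)
    (h2 : x.2 ∈ W'.B n) : x ∈ (W.prd W').B n := by
  obtain ⟨a, ha⟩ := h1
  obtain ⟨b, hb⟩ := h2
  refine ⟨(a, b), ?_⟩
  rw [A4V1_prd_d]
  exact Prod.ext ha hb

theorem pair_H_left {V W W' : SV} (f : SVHom V W) (g : SVHom V W') (j : ℕ)
    (h : ∀ z ∈ W'.Z j, z ∈ W'.B j) (hf : Function.Bijective (SV.Hmap f j)) :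
    Function.Bijective (SV.Hmap (f.pair g) j) := by
  refine A4V1_bij _ j ?_ ?_
  · intro z hz h1
    exact A4V1_inj hf.1 hz ((prdFst W W').map_B h1)
  · intro x hx
    obtain ⟨z, hz, h1⟩ := A4V1_surj hf.2 ((prdFst W W').map_Z hx)
    refine ⟨z, hz, A4V1_prd_B h1 ?_⟩
    exact h _ (Submodule.add_mem _ (g.map_Z hz) ((prdSnd W W').map_Z hx))

theorem pair_H_right {V W W' : SV} (f : SVHom V W) (g : SVHom V W') (j : ℕ)
    (h : ∀ z ∈ W.Z j, z ∈ W.B j) (hg : Function.Bijective (SV.Hmap g j)) :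
    Function.Bijective (SV.Hmap (f.pair g) j) := by
  refine A4V1_bij _ j ?_ ?_
  · intro z hz h1
    exact A4V1_inj hg.1 hz ((prdSnd W W').map_B h1)
  · intro x hx
    obtain ⟨z, hz, h1⟩ := A4V1_surj hg.2 ((prdSnd W W').map_Z hx)
    refine ⟨z, hz, A4V1_prd_B ?_ h1⟩
    exact h _ (Submodule.add_mem _ (f.map_Z hz) ((prdFst W W').map_Z hx))

private theorem A4V1_lin_comp {V W U : SV} (g : SVHom W U) (f : SVHom V W) :
    linMap (g.comp f).toHom = (linMap g.toHom).comp (linMap f.toHom) := by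
  apply SVHom.ext
  funext n
  refine LinearMap.ext fun z => ?_
  show Finsupp.mapDomain _ z = Finsupp.mapDomain _ (Finsupp.mapDomain _ z)
  rw [← Finsupp.mapDomain_comp]
  rfl

private theorem A4V1_lin_id (V : SV) : linMap (SVHom.id V).toHom = SVHom.id (lin V.ss) := by
  apply SVHom.ext
  funext n
  refine LinearMap.ext fun z => ?_
  exact Finsupp.mapDomain_id

theorem proj_low (W V' : SV) (N : ℕ) (h : ∀ j ≤ N, ∀ z ∈ V'.Z j, z ∈ V'.B j) (j : ℕ)
    (hj : j ≤ N) : Function.Bijective (SV.Hmap (linMap (prdFst W V').toHom) j) := by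
  obtain ⟨H, h0, h1⟩ := lowcon V' N h
  let inc : SVHom W (W.prd V') := ⟨fun n => LinearMap.inl (ZMod 2) (W.V n) (V'.V n), fun {m n} g x => by
    show (W.act g x, (0 : V'.V m)) = (W.act g x, V'.act g 0)
    rw [map_zero]⟩
  let u : SVHom (W.prd V') (W.prd V') :=
    ⟨fun n => LinearMap.prodMap LinearMap.id (H.app n (cst 1)), fun {m n} g x => by
      show (W.act g x.1, H.app m (cst 1) (V'.act g x.2)) = (W.act g x.1, V'.act g (H.app n (cst 1) x.2))
      rw [← H.nat g (cst 1) x.2, cst_comp]⟩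
  have hu : LHtp (SVHom.id (W.prd V')) u := by
    refine ⟨⟨fun n a => LinearMap.prodMap LinearMap.id (H.app n a), fun {m n} g a x => ?_⟩, ?_, ?_⟩
    · show (W.act g x.1, H.app m (a.comp g) (V'.act g x.2)) = (W.act g x.1, V'.act g (H.app n a x.2))
      rw [H.nat]
    · intro n x
      show (x.1, H.app n (cst 0) x.2) = x
      rw [h0]
    · intro n x
      rfl
  have e1 : ∀ x, SV.Hmap (linMap inc.toHom) j (SV.Hmap (linMap (prdFst W V').toHom) j x) = x := by
    intro x
    rw [← SV.Hmap_comp, ← A4V1_lin_comp]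
    have e2 : SV.Hmap (linMap (inc.comp (prdFst W V')).toHom) j = SV.Hmap (linMap u.toHom) j := by
      refine LinearMap.ext fun x => ?_
      obtain ⟨⟨z, hz⟩, rfl⟩ := Submodule.Quotient.mk_surjective _ x
      show (lin (W.prd V').ss).cls ((linMap (inc.comp (prdFst W V')).toHom).app j z) _ =
        (lin (W.prd V').ss).cls ((linMap u.toHom).app j z) _
      have e3 : (linMap (inc.comp (prdFst W V')).toHom).app j z = (linMap u.toHom).app j z := by
        show Finsupp.mapDomain _ z = Finsupp.mapDomain _ z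
        congr 1
        funext y
        show ((y.1, (0 : V'.V j)) : (W.prd V').V j) = (y.1, H.app j (cst 1) y.2)
        rw [h1 j hj]
      simp only [e3]
    rw [e2, ← Hmap_linMap_lhtp hu, A4V1_lin_id, SV.Hmap_id]
  have e4 : ∀ x, SV.Hmap (linMap (prdFst W V').toHom) j (SV.Hmap (linMap inc.toHom) j x) = x := by
    intro x
    rw [← SV.Hmap_comp, ← A4V1_lin_comp]
    have e5 : (prdFst W V').comp inc = SVHom.id W := rfl
    rw [e5, A4V1_lin_id, SV.Hmap_id]
  exact Function.bijective_iff_has_inverse.2 ⟨_, e1, e4⟩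

theorem lin_low_iso {V W : SV} (f : SVHom V W) (N : ℕ)
    (h1 : ∀ j ≤ N, Function.Bijective (SV.Hmap f j)) (h2 : ∀ j, N < j → ∀ z ∈ W.Z j, z ∈ W.B j)
    (j : ℕ) (hj : j ≤ N) : Function.Bijective (SV.Hmap (linMap f.toHom) j) := by
  obtain ⟨V', k, hV', hk⟩ := lowsplit V N
  have h3 : ∀ n, Function.Bijective (SV.Hmap (f.pair k) n) := by
    intro n
    rcases le_or_gt n N with hn | hn
    · exact pair_H_left f k n (hV' n hn) (h1 n hn)
    · exact pair_H_right f k n (h2 n hn) (hk n hn)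
  have h4 := Hmap_linMap_bij (f.pair k) h3 j
  have h5 := proj_low W V' N hV' j hj
  have e : f = (prdFst W V').comp (f.pair k) := rfl
  have e2 : ⇑(SV.Hmap (linMap f.toHom) j) =
      ⇑(SV.Hmap (linMap (prdFst W V').toHom) j) ∘ ⇑(SV.Hmap (linMap (f.pair k).toHom) j) := by
    funext x
    rw [Function.comp_apply, ← SV.Hmap_comp, ← A4V1_lin_comp]
    rfl
  rw [e2]
  exact h5.comp h4

end MM
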