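import Pool.Agent.Lib_MP_33f7bb_d.A4S3
import Pool.Agent.Lib_MP_33f7bb_d.A4V1

/-!
# A4-42: finite products of Eilenberg-MacLane objects; polynomial generators of `H^*(V)`

`KP a = ∏_i KL (a i + 1)`.
`KP_B`: cycles and boundaries of a finite product componentwise.
`KP_poly`: induction over the finite type `ι` (`Finite.induction_empty_option`, as for `CPoly_Bpow` in A3Pol1): empty product: a point (the
only monomial is `1`, as in A3Pol1); `Option ι`: `(KP a).ss ≅ (KL (a none + 1)).ss × (KP (a ∘ some)).ss`, `CPoly.prod` (`KL_poly`), reindex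
`(Σ i : Option ι, Orb (a i)) ≃ Orb (a none) ⊕ Σ i : ι, Orb (a (some i))`; `CBasis.of_iso`, `CBasis.reindex`, `CBasis.congr`.
`S2_poly`: `L = Σ j, Fin (finrank (V.H j))`, `a l = l.1 - 1` (`l.1 ≥ 1` as `H_0 V = 0`), `g l : V → KL (a l + 1)` with
`KLe (a l + 1) n ∘ H_n (g l)` = the coordinate functional of a basis of `H_n V` if `n = l.1` and `0` otherwise (`exists_hom`, `KL_isEM`).
For `N` let `L_N = {l | a l + 1 ≤ N}`, finite, and `G : V → KP (a restricted to L_N)`, `x ↦ (g l x)_l`.  `G` is bijective on `H_j`, `j ≤ N`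
(`KP_B` and the coordinates) and `H_j (KP) = 0` for `j > N` (`KL_isEM`, `KP_B`): `lin_low_iso`.  So for `d ≤ N` `CBasisAt` of `V` in degree `d` for the
monomials in the classes `z_(l,b)`, `l ∈ L_N`, follows from `KP_poly` (`CBasisAt.of_iso`; `CR.map G (pr_l^* z) = (g l)^* z`).  The monomials of
degree `d ≤ N` in the `z_(l,b)` involve only `l ∈ L_N` (`wtO b + 1 ≥ a l + 1`, `le_wtO`); take `N = d`.
Homogeneity: `CR.IsHom.map`, `zC_isHom`, products.  Finiteness of the monomials of degree `d`: finitely many `(l, b)` of degree `≤ d` and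
exponents `≤ d`.
-/

open scoped TensorProduct

namespace MM

/-- the fundamental functional in all degrees (zero outside degree `n`) -/
noncomputable def KLe (n j : ℕ) : Module.Dual (ZMod 2) ((KL n).H j) :=
  if h : j = n then h ▸ KLev n else 0

theorem KLe_self (n : ℕ) : KLe n n = KLev n := by
  simp [KLe]

/-- products of Eilenberg-MacLane objects -/
noncomputable abbrev KP {ι : Type} (a : ι → ℕ) : SV where
  V m := ∀ i, (KL (a i + 1)).V m
  act f := LinearMap.pi fun i => ((KL (a i + 1)).act f).comp (LinearMap.proj i)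
  act_id x := funext fun i => (KL (a i + 1)).act_id (x i)
  act_comp f g x := funext fun i => (KL (a i + 1)).act_comp f g (x i)

/-- projections -/
noncomputable def KPproj {ι : Type} (a : ι → ℕ) (i : ι) : SVHom (KP a) (KL (a i + 1)) :=
  ⟨fun _ => LinearMap.proj i, fun _ _ => rfl⟩

private theorem A4V2_d {ι : Type} (a : ι → ℕ) (j : ℕ) (z : (KP a).V (j + 1)) (i : ι) :
    (KP a).d j z i = (KL (a i + 1)).d j (z i) :=
  (KPproj a i).map_d z

theorem KP_Z {ι : Type} (a : ι → ℕ) (j : ℕ) (z : (KP a).V j) :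
    z ∈ (KP a).Z j ↔ ∀ i, z i ∈ (KL (a i + 1)).Z j := by
  cases j with
  | zero => exact ⟨fun _ _ => Submodule.mem_top, fun _ => Submodule.mem_top⟩
  | succ j =>
    show (KP a).d j z = 0 ↔ ∀ i, (KL (a i + 1)).d j (z i) = 0
    constructor
    · intro h i
      rw [← A4V2_d, h]
      rfl
    · intro h
      funext i
      rw [A4V2_d, h i]
      rfl

theorem KP_B {ι : Type} (a : ι → ℕ) (j : ℕ) (z : (KP a).V j) :
    z ∈ (KP a).B j ↔ ∀ i, z i ∈ (KL (a i + 1)).B j := by
  constructor
  · rintro ⟨w, rfl⟩ i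
    exact ⟨w i, (A4V2_d a j w i).symm⟩
  · intro h
    choose w hw using h
    refine ⟨w, ?_⟩
    funext i
    rw [A4V2_d, hw]

/-- index set of the polynomial generators -/
abbrev GI {L : Type} (a : L → ℕ) := Σ l, Orb (a l)

/-- degrees of the generators -/
def gdeg {L : Type} (a : L → ℕ) (x : GI a) : ℕ := wtO x.2 + 1

private theorem A4V2_lin {Z Z' : SS} (f : Hom Z Z') (hf : ∀ n, Function.Bijective (f.app n))
    (n : ℕ) : Function.Bijective ((linMap f).app n) :=
  ⟨Finsupp.mapDomain_injective (hf n).1, Finsupp.mapDomain_surjective (hf n).2⟩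

/-- transport of polynomial generators along an isomorphism and a bijection of the index sets -/
private theorem A4V2_re {Z Z' : SS} {I J : Type} {dg : I → ℕ} {z : I → CR Z} {dg' : J → ℕ}
    {z' : J → CR Z'} (h : CPoly Z' dg' z') (f : Hom Z Z')
    (hf : ∀ n, Function.Bijective (f.app n)) (e : J ≃ I) (hd : ∀ j, dg (e j) = dg' j)
    (hz : ∀ j, z (e j) = CR.map f (z' j)) : CPoly Z dg z := by
  refine ((CBasis.of_iso f (Hmap_bijective _ (A4V2_lin f hf)) h).reindex
    (Finsupp.equivCongrLeft e.symm)).congr ?_ ?_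
  · intro m
    rw [Finsupp.equivCongrLeft_apply, Finsupp.sum_equivMapDomain]
    refine Finsupp.sum_congr fun i _ => ?_
    rw [← hd, e.apply_symm_apply]
  · intro m
    rw [Finsupp.equivCongrLeft_apply, Finsupp.prod_equivMapDomain, Finsupp.prod, Finsupp.prod,
      map_prod]
    refine Finset.prod_congr rfl fun i _ => ?_
    rw [map_pow, ← hz, e.apply_symm_apply]

/-- the statement of `KP_poly` -/
private def A4V2_P (S : SqFam) (ι : Type) : Prop :=
  ∀ a : ι → ℕ, CPoly (KP a).ss (gdeg a)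
      (fun x => CR.map (KPproj a x.1).toHom (zC S (consO x.2)))

private theorem A4V2_equiv (S : SqFam) {I J : Type} (e : I ≃ J) (h : A4V2_P S I) :
    A4V2_P S J := by
  intro a
  refine A4V2_re (h fun i => a (e i)) (⟨fun _ x i => x (e i), fun _ _ => rfl⟩ :
    Hom (KP a).ss (KP fun i => a (e i)).ss) ?_
    (Equiv.sigmaCongrLeft (β := fun j => Orb (a j)) e) (fun _ => rfl) ?_
  · intro n
    constructor
    · intro x y hxy
      funext j
      obtain ⟨i, rfl⟩ := e.surjective j
      exact congrFun hxy i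
    · intro y
      refine ⟨(Equiv.piCongrLeft (fun j => (KL (a j + 1)).V n) e) y, ?_⟩
      funext i
      exact Equiv.piCongrLeft_apply_apply (P := fun j => (KL (a j + 1)).V n) e y i
  · rintro ⟨i, b⟩
    rw [← CR.map_comp]
    rfl

private theorem A4V2_empty (S : SqFam) : A4V2_P S PEmpty := by
  intro a
  refine A4V2_re (CPoly_Bpow PEmpty) (⟨fun _ _ i => i.elim, fun _ _ => funext fun i => i.elim⟩ :
    Hom (KP a).ss (Bpow PEmpty)) ?_
    ⟨fun i => i.elim, fun x => x.1.elim, fun i => i.elim, fun x => x.1.elim⟩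
    (fun i => i.elim) (fun i => i.elim)
  intro n
  constructor
  · intro x y _
    funext i
    exact i.elim
  · intro y
    exact ⟨fun i => i.elim, funext fun i => i.elim⟩

private def A4V2_opt {I : Type} (a : Option I → ℕ) :
    Orb (a none) ⊕ GI (fun i => a (some i)) ≃ GI a where
  toFun := Sum.elim (fun b => ⟨none, b⟩) (fun x => ⟨some x.1, x.2⟩)
  invFun x := match x with
    | ⟨none, b⟩ => Sum.inl b
    | ⟨some i, b⟩ => Sum.inr ⟨i, b⟩
  left_inv x := by
    rcases x with b | ⟨i, b⟩ <;> rfl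
  right_inv x := by
    rcases x with ⟨_ | i, b⟩ <;> rfl

private theorem A4V2_option (S : SqFam) {I : Type} (h : A4V2_P S I) : A4V2_P S (Option I) := by
  intro a
  refine A4V2_re (CPoly.prod (KL_poly S (a none)) (h fun i => a (some i)))
    (⟨fun _ x => (x none, fun i => x (some i)), fun _ _ => rfl⟩ :
      Hom (KP a).ss ((KL (a none + 1)).ss.prod (KP fun i => a (some i)).ss)) ?_
    (A4V2_opt a) ?_ ?_
  · intro n
    constructor
    · intro x y hxy
      funext j
      rcases j with _ | j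
      · exact congrArg Prod.fst hxy
      · exact congrFun (congrArg Prod.snd hxy) j
    · rintro ⟨u, y⟩
      exact ⟨fun j => match j with
        | none => u
        | some i => y i, rfl⟩
  · rintro (b | ⟨i, b⟩)
    · rfl
    · rfl
  · rintro (b | ⟨i, b⟩)
    · show CR.map (KPproj a none).toHom (zC S (consO b)) = CR.map _ (CR.map _ (zC S (consO b)))
      rw [← CR.map_comp]
      rfl
    · show CR.map (KPproj a (some i)).toHom (zC S (consO b)) =
        CR.map _ (CR.map _ (CR.map _ (zC S (consO b))))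
      rw [← CR.map_comp, ← CR.map_comp]
      rfl

theorem KP_poly (S : SqFam) {ι : Type} [Finite ι] (a : ι → ℕ) :
    CPoly (KP a).ss (gdeg a)
      (fun x => CR.map (KPproj a x.1).toHom (zC S (consO x.2))) := by
  exact Finite.induction_empty_option (P := fun ι => A4V2_P S ι)
    (fun e h => A4V2_equiv S e h) (A4V2_empty S) (fun h => A4V2_option S h) ι a

/-- a class is determined by its components -/
private theorem A4V2_ext {ι : Type} (a : ι → ℕ) (j : ℕ) {x y : (KP a).H j}
    (h : ∀ i, SV.Hmap (KPproj a i) j x = SV.Hmap (KPproj a i) j y) : x = y := by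
  obtain ⟨⟨z, hz⟩, rfl⟩ := Submodule.Quotient.mk_surjective _ x
  obtain ⟨⟨w, hw⟩, rfl⟩ := Submodule.Quotient.mk_surjective _ y
  rw [Submodule.Quotient.eq, Submodule.mem_comap]
  show z - w ∈ (KP a).B j
  rw [KP_B]
  intro i
  have h1 := h i
  have h2 : (KL (a i + 1)).cls (z i) ((KPproj a i).map_Z hz) =
      (KL (a i + 1)).cls (w i) ((KPproj a i).map_Z hw) := h1
  unfold SV.cls at h2
  rw [Submodule.Quotient.eq, Submodule.mem_comap] at h2
  exact h2

/-- vanishing of the homology of `KL` outside the degree -/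
private theorem A4V2_zero {n j : ℕ} (h : j ≠ n) (x : (KL n).H j) : x = 0 := by
  obtain ⟨⟨z, hz⟩, rfl⟩ := Submodule.Quotient.mk_surjective _ x
  exact (Submodule.Quotient.mk_eq_zero _).2 ((KL_isEM n).low j h z hz)

/-- maps with prescribed functionals -/
private theorem A4V2_map (V : SV) (n : ℕ) (lam : Module.Dual (ZMod 2) (V.H n)) :
    ∃ g : SVHom V (KL n), ∀ x, KLev n (SV.Hmap g n x) = lam x := by
  classical
  obtain ⟨f, hf⟩ := exists_hom (P := V) (Q := KL n)
    (Function.update (fun _ => 0) n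
      ((LinearEquiv.ofBijective (KLev n) (KL_isEM n).bij).symm.toLinearMap ∘ₗ lam))
  refine ⟨f, fun x => ?_⟩
  obtain ⟨⟨z, hz⟩, rfl⟩ := Submodule.Quotient.mk_surjective _ x
  obtain ⟨hfz, h1⟩ := hf n z hz
  rw [Function.update_self] at h1
  show KLev n ((KL n).cls (f.app n z) hfz) = _
  rw [h1]
  exact (LinearEquiv.ofBijective (KLev n) (KL_isEM n).bij).apply_symm_apply _

/-- change of the index set of a basis in one degree -/
private theorem A4V2_at {Z : SS} {I J : Type} {dg : I → ℕ} {z : I → CR Z} {dg' : J → ℕ}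
    {z' : J → CR Z} {d : ℕ} (h : CBasisAt Z dg' z' d) (φ : J → I) (hφ : Function.Injective φ)
    (hd : ∀ j, dg (φ j) = dg' j) (hz : ∀ j, z (φ j) = z' j)
    (hs : ∀ i, dg i = d → ∃ j, φ j = i) : CBasisAt Z dg z d := by
  classical
  have key : ∀ c : J →₀ ZMod 2, ((Finsupp.mapDomain φ c).sum fun i r => r • (z i d : Hc Z d)) =
      c.sum fun j r => r • (z' j d : Hc Z d) := by
    intro c
    rw [Finsupp.sum_mapDomain_index]
    · refine Finsupp.sum_congr fun j _ => ?_
      rw [hz]
    · intro i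
      exact zero_smul _ _
    · intro i r r'
      exact add_smul _ _ _
  refine ⟨fun c hc h0 => ?_, fun y => ?_⟩
  · have h1 : Finsupp.mapDomain φ (Finsupp.comapDomain φ c hφ.injOn) = c := by
      refine Finsupp.mapDomain_comapDomain φ hφ c ?_
      intro i hi
      exact hs i (hc i (Finsupp.mem_support_iff.1 hi))
    have h2 : Finsupp.comapDomain φ c hφ.injOn = 0 := by
      refine h.1 _ ?_ ?_
      · intro j hj
        rw [Finsupp.comapDomain_apply] at hj
        rw [← hd]
        exact hc _ hj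
      · rw [← key, h1]
        exact h0
    rw [← h1, h2, Finsupp.mapDomain_zero]
  · obtain ⟨c, hc, hy⟩ := h.2 y
    refine ⟨Finsupp.mapDomain φ c, ?_, ?_⟩
    · intro i hi
      have h1 : i ∈ (Finsupp.mapDomain φ c).support := Finsupp.mem_support_iff.2 hi
      obtain ⟨j, hj, rfl⟩ := Finset.mem_image.1 (Finsupp.mapDomain_support h1)
      rw [hd]
      exact hc j (Finsupp.mem_support_iff.1 hj)
    · rw [key, hy]

/-- finitely many generators of bounded degree -/
private theorem A4V2_gfin {L : Type} (a : L → ℕ) (ha : ∀ d, {l | a l ≤ d}.Finite) (d : ℕ) :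
    {x : GI a | gdeg a x ≤ d}.Finite := by
  refine ((ha d).biUnion (t := fun l => Sigma.mk l '' {b : Orb (a l) | wtO b ≤ d})
    fun l _ => (wtO_fin d).image _).subset ?_
  rintro ⟨l, b⟩ hx
  have h1 : wtO b + 1 ≤ d := hx
  have h2 := le_wtO b
  rw [Set.mem_iUnion₂]
  exact ⟨l, show a l ≤ d by omega, b, show wtO b ≤ d by omega, rfl⟩

private theorem A4V2_efin {L : Type} (a : L → ℕ) (ha : ∀ d, {l | a l ≤ d}.Finite) (d : ℕ) :
    {e : GI a →₀ ℕ | (e.sum fun i k => k * gdeg a i) = d}.Finite := by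
  classical
  set f : GI a →₀ ℕ := Finsupp.indicator (A4V2_gfin a ha d).toFinset (fun _ _ => d) with hf
  refine (Set.finite_Icc (0 : GI a →₀ ℕ) f).subset ?_
  intro e he
  refine ⟨fun i => Nat.zero_le _, fun i => ?_⟩
  by_cases hi : e i = 0
  · rw [hi]
    exact Nat.zero_le _
  · have h1 : e i * gdeg a i ≤ d := by
      rw [← (show (e.sum fun i k => k * gdeg a i) = d from he)]
      exact Finset.single_le_sum (f := fun i => e i * gdeg a i) (fun _ _ => Nat.zero_le _)
        (Finsupp.mem_support_iff.2 hi)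
    have h2 : 1 ≤ gdeg a i := Nat.le_add_left _ _
    have h3 : gdeg a i ≤ d := (Nat.le_mul_of_pos_left _ (Nat.pos_of_ne_zero hi)).trans h1
    have h4 : e i ≤ d := (Nat.le_mul_of_pos_right _ h2).trans h1
    rw [hf, Finsupp.indicator_apply, dif_pos ((A4V2_gfin a ha d).mem_toFinset.2 h3)]
    exact h4

private theorem A4V2_pow {Z : SS} {n : ℕ} {a : CR Z} (h : CR.IsHom n a) (k : ℕ) :
    CR.IsHom (k * n) (a ^ k) := by
  induction k with
  | zero => rw [pow_zero, zero_mul]; exact CR.isHom_one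
  | succ k ih => rw [pow_succ, Nat.succ_mul]; exact ih.mul h

/-- the map to a product -/
private noncomputable def A4V2_G {V : SV} {L : Type} {a : L → ℕ} (g : ∀ l, SVHom V (KL (a l + 1))) {L' : Type}
    (s : L' → L) : SVHom V (KP fun l => a (s l)) :=
  ⟨fun n => LinearMap.pi fun l => (g (s l)).app n, fun f x => funext fun l => (g (s l)).nat f x⟩

/-- the comparison of the monomials -/
private theorem A4V2_bas (S : SqFam) (V : SV) {L : Type} (a : L → ℕ)
    (g : ∀ l, SVHom V (KL (a l + 1))) (d : ℕ) {L' : Type} [Finite L'] (s : L' → L)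
    (hsi : Function.Injective s) (hs : ∀ l, a l + 1 ≤ d → ∃ l', s l' = l)
    (hG : Function.Bijective (SV.Hmap (linMap (A4V2_G g s).toHom) d)) :
    CBasisAt V.ss (fun e : GI a →₀ ℕ => e.sum fun i k => k * gdeg a i)
      (fun e => e.prod fun i k => (CR.map (g i.1).toHom (zC S (consO i.2))) ^ k) d := by
  classical
  set φ : GI (fun l => a (s l)) → GI a := fun x => ⟨s x.1, x.2⟩ with hφ
  have hφi : Function.Injective φ := by
    rintro ⟨l, b⟩ ⟨l', b'⟩ h
    obtain ⟨h1, h2⟩ := Sigma.mk.inj_iff.1 h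
    obtain rfl := hsi h1
    have h3 : b = b' := eq_of_heq h2
    rw [h3]
  refine A4V2_at (((KP_poly S fun l => a (s l)).bas d).of_iso (A4V2_G g s).toHom d hG)
    (Finsupp.mapDomain φ) (Finsupp.mapDomain_injective hφi) ?_ ?_ ?_
  · intro e
    show ((Finsupp.mapDomain φ e).sum fun i k => k * gdeg a i) =
      e.sum fun i k => k * gdeg (fun l => a (s l)) i
    rw [Finsupp.sum_mapDomain_index (fun _ => zero_mul _) (fun _ _ _ => add_mul _ _ _)]
    rfl
  · intro e
    show ((Finsupp.mapDomain φ e).prod fun i k =>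
      (CR.map (g i.1).toHom (zC S (consO i.2))) ^ k) = CR.map (A4V2_G g s).toHom
        (e.prod fun i k => (CR.map (KPproj (fun l => a (s l)) i.1).toHom
          (zC S (consO i.2))) ^ k)
    rw [Finsupp.prod_mapDomain_index (fun _ => pow_zero _) (fun _ _ _ => pow_add _ _ _),
      Finsupp.prod, Finsupp.prod, map_prod]
    refine Finset.prod_congr rfl fun i _ => ?_
    rw [map_pow, ← CR.map_comp]
    rfl
  · intro e he
    refine ⟨Finsupp.comapDomain φ e hφi.injOn, Finsupp.mapDomain_comapDomain φ hφi e ?_⟩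
    rintro ⟨l, b⟩ hi
    have h1 : e ⟨l, b⟩ * gdeg a ⟨l, b⟩ ≤ d := by
      rw [← (show (e.sum fun i k => k * gdeg a i) = d from he)]
      exact Finset.single_le_sum (f := fun i => e i * gdeg a i) (fun _ _ => Nat.zero_le _) hi
    have h2 : gdeg a ⟨l, b⟩ ≤ d :=
      (Nat.le_mul_of_pos_left _ (Nat.pos_of_ne_zero (Finsupp.mem_support_iff.1 hi))).trans h1
    have h3 : wtO b + 1 ≤ d := h2
    have h4 := le_wtO b
    obtain ⟨l', rfl⟩ := hs l (by omega)
    exact ⟨⟨l', b⟩, rfl⟩

private theorem A4V2_comp {V : SV} {L : Type} {a : L → ℕ} (g : ∀ l, SVHom V (KL (a l + 1)))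
    {L' : Type} (s : L' → L) (l : L') (j : ℕ) (x : V.H j) :
    SV.Hmap (KPproj (fun l => a (s l)) l) j (SV.Hmap (A4V2_G g s) j x) =
      SV.Hmap (g (s l)) j x := by
  rw [← SV.Hmap_comp]
  rfl

private theorem A4V2_bij (V : SV) (h0 : ∀ x : V.H 0, x = 0) (r : ℕ → ℕ)
    (b : ∀ j, Module.Basis (Fin (r j)) (ZMod 2) (V.H (j + 1)))
    (g : ∀ l : (Σ j, Fin (r j)), SVHom V (KL (l.1 + 1)))
    (hg : ∀ l x, KLev (l.1 + 1) (SV.Hmap (g l) (l.1 + 1) x) = (b l.1).coord l.2 x)
    (d j : ℕ) (hj : j ≤ d) :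
    Function.Bijective (SV.Hmap (A4V2_G (a := fun l : (Σ j, Fin (r j)) => l.1) g
      (fun l : {l : (Σ j, Fin (r j)) | l.1 + 1 ≤ d} => l.1)) j) := by
  classical
  constructor
  · rw [injective_iff_map_eq_zero]
    intro x hx
    cases j with
    | zero => exact h0 x
    | succ k =>
      refine (b k).ext_elem fun i => ?_
      have h1 := hg ⟨k, i⟩ x
      have h2 := A4V2_comp (a := fun l : (Σ j, Fin (r j)) => l.1) g
        (fun l : {l : (Σ j, Fin (r j)) | l.1 + 1 ≤ d} => l.1) ⟨⟨k, i⟩, hj⟩ (k + 1) x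
      rw [hx, map_zero] at h2
      have h3 : SV.Hmap (g ⟨k, i⟩) (k + 1) x = 0 := h2.symm
      have h4 : KLev (k + 1) (SV.Hmap (g ⟨k, i⟩) (k + 1) x) = (b k).repr x i := h1
      rw [← h4, h3, map_zero, map_zero]
      rfl
  · intro y
    cases j with
    | zero =>
      refine ⟨0, A4V2_ext _ 0 fun l => ?_⟩
      exact (A4V2_zero (Nat.succ_ne_zero _).symm _).trans (A4V2_zero (Nat.succ_ne_zero _).symm _).symm
    | succ k =>
      refine ⟨∑ i, (KLev (k + 1) (SV.Hmap (KPproj (fun l : {l : (Σ j, Fin (r j)) |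
        l.1 + 1 ≤ d} => l.1.1) ⟨⟨k, i⟩, hj⟩) (k + 1) y)) • b k i, A4V2_ext _ _ fun l => ?_⟩
      obtain ⟨⟨m, i⟩, hl⟩ := l
      by_cases hm : m = k
      · subst hm
        refine (KL_isEM (m + 1)).bij.1 ?_
        have h1 := A4V2_comp (a := fun l : (Σ j, Fin (r j)) => l.1) g
          (fun l : {l : (Σ j, Fin (r j)) | l.1 + 1 ≤ d} => l.1) ⟨⟨m, i⟩, hl⟩ (m + 1)
            (∑ i, (KLev (m + 1) (SV.Hmap (KPproj (fun l : {l : (Σ j, Fin (r j)) |
              l.1 + 1 ≤ d} => l.1.1) ⟨⟨m, i⟩, hj⟩) (m + 1) y)) • b m i)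
        refine (congrArg (KLev (m + 1)) h1).trans ?_
        refine (hg ⟨m, i⟩ _).trans ?_
        show (b m).repr (∑ i, _ • b m i) i = _
        rw [Module.Basis.repr_sum_self]
      · have h1 : k + 1 ≠ m + 1 := fun h => hm (Nat.succ.inj h).symm
        exact (A4V2_zero h1 _).trans (A4V2_zero h1 _).symm

theorem S2_poly (S : SqFam) (V : SV) (hfin : ∀ n, Module.Finite (ZMod 2) (V.H n))
    (h0 : ∀ x : V.H 0, x = 0) :
    ∃ (L : Type) (a : L → ℕ) (g : ∀ l, SVHom V (KL (a l + 1))),
      (∀ d, {l | a l ≤ d}.Finite) ∧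
      (∀ (n : ℕ) (lam : Module.Dual (ZMod 2) (V.H n)), lam ∈ Submodule.span (ZMod 2)
        (Set.range fun l => (KLe (a l + 1) n).comp (SV.Hmap (g l) n))) ∧
      CPoly V.ss (gdeg a) (fun x => CR.map (g x.1).toHom (zC S (consO x.2))) := by
  classical
  set r : ℕ → ℕ := fun j => Module.finrank (ZMod 2) (V.H (j + 1)) with hr
  have hb : ∀ j, Nonempty (Module.Basis (Fin (r j)) (ZMod 2) (V.H (j + 1))) := fun j =>
    haveI := hfin (j + 1)
    ⟨Module.finBasis (ZMod 2) (V.H (j + 1))⟩
  have b : ∀ j, Module.Basis (Fin (r j)) (ZMod 2) (V.H (j + 1)) := fun j => (hb j).some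
  have hg : ∀ l : (Σ j, Fin (r j)), ∃ g : SVHom V (KL (l.1 + 1)),
      ∀ x, KLev (l.1 + 1) (SV.Hmap g (l.1 + 1) x) = (b l.1).coord l.2 x :=
    fun l => A4V2_map V (l.1 + 1) ((b l.1).coord l.2)
  choose g hg using hg
  have hfa : ∀ d, {l : (Σ j, Fin (r j)) | l.1 ≤ d}.Finite := by
    intro d
    refine ((Set.finite_Iic d).biUnion (t := fun j =>
      Set.range (fun i : Fin (r j) => (⟨j, i⟩ : (Σ j, Fin (r j)))))
      fun j _ => Set.finite_range _).subset ?_
    rintro ⟨j, i⟩ hl
    rw [Set.mem_iUnion₂]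
    exact ⟨j, hl, i, rfl⟩
  refine ⟨Σ j, Fin (r j), fun l => l.1, g, hfa, ?_, ?_, A4V2_efin _ hfa, fun d => ?_⟩
  · intro n lam
    cases n with
    | zero =>
      have h1 : lam = 0 := by
        apply LinearMap.ext
        intro x
        rw [h0 x, map_zero, map_zero]
      rw [h1]
      exact Submodule.zero_mem _
    | succ k =>
      have h1 : lam = ∑ i, lam (b k i) • (b k).coord i := by
        refine (b k).ext fun i => ?_
        rw [LinearMap.sum_apply, Finset.sum_eq_single i]
        · rw [LinearMap.smul_apply, Module.Basis.coord_apply, Module.Basis.repr_self,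
            Finsupp.single_eq_same, smul_eq_mul, mul_one]
        · intro i' _ hi'
          rw [LinearMap.smul_apply, Module.Basis.coord_apply, Module.Basis.repr_self,
            Finsupp.single_eq_of_ne hi', smul_zero]
        · intro h
          exact absurd (Finset.mem_univ i) h
      rw [h1]
      refine Submodule.sum_mem _ fun i _ => Submodule.smul_mem _ _ (Submodule.subset_span
        ⟨⟨k, i⟩, ?_⟩)
      apply LinearMap.ext
      intro x
      show KLe (k + 1) (k + 1) (SV.Hmap (g ⟨k, i⟩) (k + 1) x) = _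
      rw [KLe_self]
      exact hg ⟨k, i⟩ x
  · intro e
    refine CR.IsHom.prod e.support (fun i => e i * gdeg _ i) _ fun i _ => A4V2_pow ?_ (e i)
    have h1 := (zC_isHom S (consO i.2)).map (g i.1).toHom
    rw [wtO_cons] at h1
    exact h1
  · have hfi : Finite {l : (Σ j, Fin (r j)) | l.1 + 1 ≤ d} :=
      ((hfa d).subset fun l hl => Nat.le_of_succ_le hl).to_subtype
    refine A4V2_bas S V (fun l : (Σ j, Fin (r j)) => l.1) g d
      (fun l : {l : (Σ j, Fin (r j)) | l.1 + 1 ≤ d} => l.1) Subtype.val_injective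
      (fun l hl => ⟨⟨l, hl⟩, rfl⟩) (lin_low_iso _ d (fun j hj => ?_) (fun j hj z hz => ?_) d le_rfl)
    · exact A4V2_bij V h0 r b g hg d j hj
    · rw [KP_B]
      rw [KP_Z] at hz
      intro l
      have h1 : l.1.1 + 1 ≤ d := l.2
      exact (KL_isEM _).low j (by omega) _ (hz l)

end MM
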