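import Pool.Agent.Lib_MP_33f7bb_d.A5Def

/-!
# A5-14: graded vector spaces with bases and maps of the total spaces

`H d` has the basis `b d` indexed by the letters of degree `d`.  `toL d : H d → (L →₀ F)` coordinates, `ofL d : (L →₀ F) → H d` the
combination of the basis elements of degree `d`.  `gm f`: the map of `L →₀ F` induced by a family `f d : H d → H' d`.
-/

namespace MM

/-- bases of a graded vector space, indexed by letters with degrees -/
structure GrB (L : Type) (deg : L → ℕ) (H : ℕ → Type) [∀ d, AddCommGroup (H d)]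
    [∀ d, Module (ZMod 2) (H d)] where
  b : ∀ d, Module.Basis {e : L // deg e = d} (ZMod 2) (H d)

namespace GrB

variable {L L' L'' : Type} {deg : L → ℕ} {deg' : L' → ℕ} {deg'' : L'' → ℕ} {H H' H'' : ℕ → Type}
  [∀ d, AddCommGroup (H d)] [∀ d, Module (ZMod 2) (H d)]
  [∀ d, AddCommGroup (H' d)] [∀ d, Module (ZMod 2) (H' d)]
  [∀ d, AddCommGroup (H'' d)] [∀ d, Module (ZMod 2) (H'' d)]

/-- the basis element of a letter -/
noncomputable def y (β : GrB L deg H) (e : L) : H (deg e) := β.b (deg e) ⟨e, rfl⟩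

/-- coordinates -/
noncomputable def toL (β : GrB L deg H) (d : ℕ) : H d →ₗ[ZMod 2] (L →₀ ZMod 2) :=
  (Finsupp.lmapDomain (ZMod 2) (ZMod 2) Subtype.val).comp (β.b d).repr.toLinearMap

/-- combinations of basis elements of degree `d` -/
noncomputable def ofL (β : GrB L deg H) (d : ℕ) : (L →₀ ZMod 2) →ₗ[ZMod 2] H d :=
  Finsupp.linearCombination (ZMod 2) fun e => if h : deg e = d then β.b d ⟨e, h⟩ else 0

/-- the map of total spaces -/
noncomputable def gm (β : GrB L deg H) (β' : GrB L' deg' H') (f : ∀ d, H d →ₗ[ZMod 2] H' d) :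
    (L →₀ ZMod 2) →ₗ[ZMod 2] (L' →₀ ZMod 2) :=
  Finsupp.linearCombination (ZMod 2) fun e => β'.toL (deg e) (f (deg e) (β.y e))

private theorem toL_apply_A514 (β : GrB L deg H) (d : ℕ) (x : H d) :
    β.toL d x = Finsupp.mapDomain Subtype.val ((β.b d).repr x) := rfl

theorem toL_b (β : GrB L deg H) {d : ℕ} (e : L) (h : deg e = d) :
    β.toL d (β.b d ⟨e, h⟩) = Finsupp.single e 1 := by
  rw [toL_apply_A514, Module.Basis.repr_self, Finsupp.mapDomain_single]

theorem toL_y (β : GrB L deg H) (e : L) : β.toL (deg e) (β.y e) = Finsupp.single e 1 :=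
  β.toL_b e rfl

theorem toL_deg (β : GrB L deg H) {d : ℕ} (x : H d) : ∀ e ∈ (β.toL d x).support, deg e = d := by
  classical
  intro e he
  rw [toL_apply_A514] at he
  obtain ⟨a, -, rfl⟩ := Finset.mem_image.1 (Finsupp.mapDomain_support he)
  exact a.2

theorem ofL_toL (β : GrB L deg H) (d : ℕ) (x : H d) : β.ofL d (β.toL d x) = x := by
  have h : (β.ofL d).comp (β.toL d) = LinearMap.id := by
    refine (β.b d).ext fun e => ?_
    obtain ⟨e, he⟩ := e
    rw [LinearMap.comp_apply, toL_b, LinearMap.id_apply]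
    show Finsupp.linearCombination (ZMod 2)
      (fun e => if h : deg e = d then β.b d ⟨e, h⟩ else 0) (Finsupp.single e 1) = _
    rw [Finsupp.linearCombination_single, one_smul, dif_pos he]
  exact LinearMap.congr_fun h x

private theorem sum_single_A514 {A : Type} (c : A →₀ ZMod 2) :
    ∑ e ∈ c.support, (Finsupp.single e 1 : A →₀ ZMod 2) = c := by
  conv_rhs => rw [← Finsupp.sum_single c]
  rw [Finsupp.sum]
  refine Finset.sum_congr rfl fun e he => ?_
  have h1 : c e = 1 := by
    have h2 : ∀ r : ZMod 2, r ≠ 0 → r = 1 := by decide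
    exact h2 _ (Finsupp.mem_support_iff.1 he)
  rw [h1]

theorem toL_ofL (β : GrB L deg H) {d : ℕ} {c : L →₀ ZMod 2} (h : ∀ e ∈ c.support, deg e = d) :
    β.toL d (β.ofL d c) = c := by
  conv_lhs => rw [← sum_single_A514 c]
  rw [map_sum, map_sum]
  conv_rhs => rw [← sum_single_A514 c]
  refine Finset.sum_congr rfl fun e he => ?_
  have h1 : β.ofL d (Finsupp.single e 1) = β.b d ⟨e, h e he⟩ := by
    show Finsupp.linearCombination (ZMod 2)
      (fun e => if h : deg e = d then β.b d ⟨e, h⟩ else 0) (Finsupp.single e 1) = _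
    rw [Finsupp.linearCombination_single, one_smul, dif_pos (h e he)]
  rw [h1, toL_b]

theorem toL_injective (β : GrB L deg H) (d : ℕ) : Function.Injective (β.toL d) :=
  Function.LeftInverse.injective (β.ofL_toL d)

private theorem gm_single_A514 (β : GrB L deg H) (β' : GrB L' deg' H')
    (f : ∀ d, H d →ₗ[ZMod 2] H' d) (e : L) :
    β.gm β' f (Finsupp.single e 1) = β'.toL (deg e) (f (deg e) (β.y e)) := by
  show Finsupp.linearCombination (ZMod 2)
    (fun e => β'.toL (deg e) (f (deg e) (β.y e))) (Finsupp.single e 1) = _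
  rw [Finsupp.linearCombination_single, one_smul]

theorem gm_toL (β : GrB L deg H) (β' : GrB L' deg' H') (f : ∀ d, H d →ₗ[ZMod 2] H' d) (d : ℕ)
    (x : H d) : β.gm β' f (β.toL d x) = β'.toL d (f d x) := by
  have h : (β.gm β' f).comp (β.toL d) = (β'.toL d).comp (f d) := by
    refine (β.b d).ext fun e => ?_
    obtain ⟨e, rfl⟩ := e
    rw [LinearMap.comp_apply, LinearMap.comp_apply, toL_b, gm_single_A514]
    rfl
  exact LinearMap.congr_fun h x

theorem gm_deg (β : GrB L deg H) (β' : GrB L' deg' H') (f : ∀ d, H d →ₗ[ZMod 2] H' d) :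
    DegPres deg deg' (β.gm β' f) := by
  intro e e' he'
  rw [gm_single_A514] at he'
  exact β'.toL_deg _ e' he'

/-- equality of maps of total spaces can be checked degreewise -/
theorem ext_toL (β : GrB L deg H) {M : Type} [AddCommGroup M] [Module (ZMod 2) M]
    {f g : (L →₀ ZMod 2) →ₗ[ZMod 2] M} (h : ∀ d (x : H d), f (β.toL d x) = g (β.toL d x)) :
    f = g := by
  refine Finsupp.lhom_ext' fun e => LinearMap.ext_ring ?_
  show f (Finsupp.single e 1) = g (Finsupp.single e 1)
  rw [← β.toL_y e]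
  exact h _ _

theorem gm_id (β : GrB L deg H) (f : ∀ d, H d →ₗ[ZMod 2] H d) (h : ∀ d x, f d x = x)
    (c : L →₀ ZMod 2) : β.gm β f c = c := by
  have h1 : β.gm β f = LinearMap.id := β.ext_toL fun d x => by
    rw [gm_toL, h, LinearMap.id_apply]
  rw [h1, LinearMap.id_apply]

theorem gm_comp (β : GrB L deg H) (β' : GrB L' deg' H') (β'' : GrB L'' deg'' H'')
    (f : ∀ d, H d →ₗ[ZMod 2] H' d) (g : ∀ d, H' d →ₗ[ZMod 2] H'' d) (c : L →₀ ZMod 2) :
    β'.gm β'' g (β.gm β' f c) = β.gm β'' (fun d => (g d).comp (f d)) c := by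
  have h1 : (β'.gm β'' g).comp (β.gm β' f) = β.gm β'' (fun d => (g d).comp (f d)) :=
    β.ext_toL fun d x => by
      rw [LinearMap.comp_apply, gm_toL, gm_toL, gm_toL, LinearMap.comp_apply]
  exact LinearMap.congr_fun h1 c

end GrB

end MM
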