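import Pool.Agent.Lib_MP_33f7bb_d.A3Box
import Pool.Agent.Lib_MP_33f7bb_d.A504
import Pool.Agent.Lib_MP_33f7bb_d.A514

/-!
# A5-15: coproduct and primitives in the homology of `RV V`, for a basis as in (S2)

`IsCB V I dg y` is the statement (S2)(a) of part A4.
`IsCB.Th d c` for `c : Lt I × Lt I →₀ F` is `∑ c(a, b) crsH d (y a) (y b)`.
`Th_inj`: if `c` is supported in pairs with `deg a + deg b = d` then `c (a, b) = boxF d (a^*) (b^*) (Th d c)` where `a^*` is the coordinate
functional of `a` on `H_(deg a)` (`boxF_crs`, `boxF_crs_ne`, `crsH_cls`, `A3Box_exists_cls`): for another pair `(a', b')` with `deg a' ≠ deg a` the value is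
`0`, for `deg a' = deg a`, `deg b' = deg b` (sum is `d`) it is `a^*(y a') b^*(y b')`.
`diag_eq`: `Hmap diag x = Th d (copL (toL d x))`: linear in `x`, check on basis elements `x = y e d` (`IsCB.diag`; the terms with `p.1 = 0` or
`p.2 = 0` vanish as `y 0 _ = 0` and `crsH` is bilinear (`crsH_bilin`); compare with the definition of `Lt.cop`).
`mem_PH`: `x ∈ PH` iff `Th d (copL (toL d x)) = 0` iff `copL (toL d x) = 0` (the support of `copL (toL d x)` consists of pairs of total degree `d`).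
`coMap`: `e` a letter, `d` its degree, `f = gm (Hmap (RVmap g))`.  `x = β.y e`, `x' = Hmap (RVmap g) d x`, `f (single e 1) = toL' d x'`.  `R.diag ∘ RVmap g =
(RVmap g ⊗ RVmap g) ∘ R.diag` (`R.ext` on simplices), so `Th' d (copL (toL' x')) = Hmap diag' x' = Hmap (g ⊗ g) (Hmap diag x) =
∑_((a,b) ∈ cop e) crsH d (g_* y a) (g_* y b)` (naturality of `crs`: `crs_map` or similar in A014/A015), and
`g_* y_a = ∑ f(a)(a') y'_(a')`, so this is `Th' d (sqm f (cop e))`.  Both `copL (f (single e 1))` and `sqm f (cop e)` are supported in pairs of total degree `d`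
(`gm_deg`), so they are equal by `Th_inj`.
-/

open scoped TensorProduct

namespace MM

/-- degree of an exponent vector -/
noncomputable def edeg {I : Type} (dg : I → ℕ) (e : I →₀ ℕ) : ℕ := e.sum fun i n => n * dg i

theorem Lt.deg_eq {I : Type} (dg : I → ℕ) (e : Lt I) : Lt.deg dg e = edeg dg e.1 := rfl

open Classical in
/-- a basis of the reduced homology of `V` with the coproduct of a divided power coalgebra -/
structure IsCB (V : SV) (I : Type) (dg : I → ℕ) (y : (I →₀ ℕ) → ∀ d, (RV V).H d) : Prop where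
  pos : ∀ i, 1 ≤ dg i
  fin : ∀ k, {i | dg i = k}.Finite
  zero : ∀ d, y 0 d = 0
  li : ∀ d, LinearIndependent (ZMod 2)
    (fun e : {e : Lt I // Lt.deg dg e = d} => y e.1.1 d)
  sp : ∀ d, Submodule.span (ZMod 2)
    (Set.range fun e : {e : Lt I // Lt.deg dg e = d} => y e.1.1 d) = ⊤
  diag : ∀ (e : I →₀ ℕ), e ≠ 0 → SV.Hmap (R.diag V.zv) (edeg dg e) (y e (edeg dg e)) =
    ∑ p ∈ Finset.HasAntidiagonal.antidiagonal e,
      crsH (edeg dg e) (y p.1 (edeg dg p.1)) (y p.2 (edeg dg p.2))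

namespace IsCB

variable {V V' : SV} {I I' : Type} {dg : I → ℕ} {dg' : I' → ℕ}
  {y : (I →₀ ℕ) → ∀ d, (RV V).H d} {y' : (I' →₀ ℕ) → ∀ d, (RV V').H d}

/-- the bases -/
noncomputable def grB (h : IsCB V I dg y) : GrB (Lt I) (Lt.deg dg) (fun d => (RV V).H d) :=
  ⟨fun d => Module.Basis.mk (h.li d) (h.sp d).ge⟩

theorem grB_y (h : IsCB V I dg y) (e : Lt I) : h.grB.y e = y e.1 (edeg dg e.1) :=
  Module.Basis.mk_apply (h.li (Lt.deg dg e)) (h.sp (Lt.deg dg e)).ge ⟨e, rfl⟩

private theorem boxF_crsH_A515 {P Q : SV} {p q n : ℕ} (h : p + q = n)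
    (a : Module.Dual (ZMod 2) (P.H p)) (b : Module.Dual (ZMod 2) (Q.H q)) (x : P.H p)
    (y : Q.H q) : boxF n a b (crsH n x y) = a x * b y := by
  obtain ⟨x, hx, rfl⟩ := A3Box_exists_cls x
  obtain ⟨y, hy, rfl⟩ := A3Box_exists_cls y
  rw [crsH_cls, boxF_crs h]

private theorem boxF_crsH_ne_A515 {P Q : SV} {p q p' q' n : ℕ} (h : p' ≠ p)
    (a : Module.Dual (ZMod 2) (P.H p)) (b : Module.Dual (ZMod 2) (Q.H q)) (x : P.H p')
    (y : Q.H q') : boxF n a b (crsH n x y) = 0 := by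
  obtain ⟨x, hx, rfl⟩ := A3Box_exists_cls x
  obtain ⟨y, hy, rfl⟩ := A3Box_exists_cls y
  rw [crsH_cls]
  exact boxF_crs_ne a b h x hx y hy

private theorem crsH_zero_left_A515 {P Q : SV} {p q : ℕ} (n : ℕ) (y : Q.H q) :
    crsH n (0 : P.H p) y = 0 := by
  obtain ⟨f, hf⟩ := crsH_bilin P Q p q n
  rw [← hf, map_zero, LinearMap.zero_apply]

private theorem crsH_zero_right_A515 {P Q : SV} {p q : ℕ} (n : ℕ) (x : P.H p) :
    crsH n x (0 : Q.H q) = 0 := by
  obtain ⟨f, hf⟩ := crsH_bilin P Q p q n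
  rw [← hf, map_zero]

private theorem crsH_map_A515 {P P' Q Q' : SV} (f : SVHom P P') (g : SVHom Q Q') {p q n : ℕ}
    (x : P.H p) (y : Q.H q) :
    SV.Hmap (f.tens g) n (crsH n x y) = crsH n (SV.Hmap f p x) (SV.Hmap g q y) := by
  obtain ⟨x, hx, rfl⟩ := A3Box_exists_cls x
  obtain ⟨y, hy, rfl⟩ := A3Box_exists_cls y
  rw [crsH_cls, SV.Hmap_cls, SV.Hmap_cls, SV.Hmap_cls, crsH_cls]
  exact A3Box_cls_congr (crs_map f g x y) _ _

/-- basis elements in a prescribed degree -/
private theorem crsH_b_A515 (h : IsCB V I dg y) (d : ℕ) (e e' : Lt I) (p q : ℕ)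
    (hp : Lt.deg dg e = p) (hq : Lt.deg dg e' = q) :
    crsH d (h.grB.y e) (h.grB.y e') = crsH d (h.grB.b p ⟨e, hp⟩) (h.grB.b q ⟨e', hq⟩) := by
  subst hp hq
  rfl

private theorem val_A515 (h : IsCB V I dg y) (d : ℕ) (p p0 : Lt I × Lt I)
    (hp : Lt.deg dg p.1 + Lt.deg dg p.2 = d) (hp0 : Lt.deg dg p0.1 + Lt.deg dg p0.2 = d) :
    boxF d ((h.grB.b _).coord ⟨p0.1, rfl⟩) ((h.grB.b _).coord ⟨p0.2, rfl⟩)
      (crsH d (h.grB.y p.1) (h.grB.y p.2)) = open Classical in if p = p0 then 1 else 0 := by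
  by_cases hd : Lt.deg dg p.1 = Lt.deg dg p0.1
  · have hd2 : Lt.deg dg p.2 = Lt.deg dg p0.2 := by omega
    rw [crsH_b_A515 h d p.1 p.2 _ _ hd hd2, boxF_crsH_A515 hp0, Module.Basis.coord_apply,
      Module.Basis.coord_apply, Module.Basis.repr_self, Module.Basis.repr_self]
    by_cases h1 : p = p0
    · subst h1
      simp
    · rw [if_neg h1]
      by_cases h2 : p.1 = p0.1
      · have h3 : p.2 ≠ p0.2 := fun h3 => h1 (Prod.ext h2 h3)
        rw [Finsupp.single_eq_of_ne (a := (⟨p.2, hd2⟩ : {e : Lt I // Lt.deg dg e = Lt.deg dg p0.2}))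
          (fun h4 => h3 (congrArg Subtype.val h4).symm), mul_zero]
      · rw [Finsupp.single_eq_of_ne (a := (⟨p.1, hd⟩ : {e : Lt I // Lt.deg dg e = Lt.deg dg p0.1}))
          (fun h4 => h2 (congrArg Subtype.val h4).symm), zero_mul]
  · rw [boxF_crsH_ne_A515 hd, if_neg fun h1 => hd (by rw [h1])]

/-- the combination of cross products -/
noncomputable def Th (h : IsCB V I dg y) (d : ℕ) :
    (Lt I × Lt I →₀ ZMod 2) →ₗ[ZMod 2] ((RV V).tens (RV V)).H d :=
  Finsupp.linearCombination (ZMod 2) fun p => crsH d (h.grB.y p.1) (h.grB.y p.2)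

theorem Th_inj (h : IsCB V I dg y) (d : ℕ) (c : Lt I × Lt I →₀ ZMod 2)
    (hc : ∀ p ∈ c.support, Lt.deg dg p.1 + Lt.deg dg p.2 = d) (h0 : h.Th d c = 0) : c = 0 := by
  classical
  ext p0
  rw [Finsupp.zero_apply]
  by_contra hne
  have hp0 : p0 ∈ c.support := Finsupp.mem_support_iff.2 hne
  have h1 := congrArg (boxF d ((h.grB.b _).coord ⟨p0.1, rfl⟩) ((h.grB.b _).coord ⟨p0.2, rfl⟩)) h0
  rw [map_zero, Th, Finsupp.linearCombination_apply, Finsupp.sum, map_sum,
    Finset.sum_eq_single p0] at h1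
  · rw [map_smul, val_A515 h d p0 p0 (hc p0 hp0) (hc p0 hp0), if_pos rfl, smul_eq_mul,
      mul_one] at h1
    exact hne h1
  · intro p hp hpp
    rw [map_smul, val_A515 h d p p0 (hc p hp) (hc p0 hp0), if_neg hpp, smul_zero]
  · intro h2
    exact absurd hp0 h2

private theorem Th_single_A515 (h : IsCB V I dg y) (d : ℕ) (p : Lt I × Lt I) (r : ZMod 2) :
    h.Th d (Finsupp.single p r) = r • crsH d (h.grB.y p.1) (h.grB.y p.2) :=
  Finsupp.linearCombination_single _ _ _

private theorem copL_single_A515 (e : Lt I) : Lt.copL (Finsupp.single e 1) = e.cop := by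
  show Finsupp.linearCombination (ZMod 2) Lt.cop (Finsupp.single e 1) = _
  rw [Finsupp.linearCombination_single, one_smul]

private theorem diag_y_A515 (h : IsCB V I dg y) (e : Lt I) :
    SV.Hmap (R.diag V.zv) (edeg dg e.1) (y e.1 (edeg dg e.1)) = h.Th (edeg dg e.1) e.cop := by
  classical
  rw [h.diag e.1 e.2, Lt.cop, map_sum]
  refine Finset.sum_congr (by congr) fun p _ => ?_
  by_cases hp : p.1 ≠ 0 ∧ p.2 ≠ 0
  · rw [dif_pos hp, Th_single_A515, one_smul, h.grB_y, h.grB_y]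
    rfl
  · rw [dif_neg hp, map_zero]
    by_cases h1 : p.1 = 0
    · rw [h1, h.zero, crsH_zero_left_A515]
    · have h2 : p.2 = 0 := by
        by_contra h2
        exact hp ⟨h1, h2⟩
      rw [h2, h.zero, crsH_zero_right_A515]

theorem diag_eq (h : IsCB V I dg y) (d : ℕ) (x : (RV V).H d) :
    SV.Hmap (R.diag V.zv) d x = h.Th d (Lt.copL (h.grB.toL d x)) := by
  have key : SV.Hmap (R.diag V.zv) d = (h.Th d).comp (Lt.copL.comp (h.grB.toL d)) := by
    refine (h.grB.b d).ext fun e => ?_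
    obtain ⟨e, rfl⟩ := e
    rw [LinearMap.comp_apply, LinearMap.comp_apply, h.grB.toL_b, copL_single_A515]
    have h1 : h.grB.b (Lt.deg dg e) ⟨e, rfl⟩ = y e.1 (edeg dg e.1) := h.grB_y e
    rw [h1]
    exact h.diag_y_A515 e
  exact LinearMap.congr_fun key x

private theorem deg_add_A515 (dg : I → ℕ) (a b : I →₀ ℕ) : edeg dg (a + b) = edeg dg a + edeg dg b := by
  classical
  unfold edeg
  rw [Finsupp.sum_add_index']
  · intro i; rw [zero_mul]
  · intro i m n; rw [add_mul]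

private theorem cop_deg_A515 (dg : I → ℕ) (e : Lt I) (p : Lt I × Lt I) (hp : p ∈ e.cop.support) :
    Lt.deg dg p.1 + Lt.deg dg p.2 = Lt.deg dg e := by
  have h1 : p.1.1 + p.2.1 = e.1 := by
    by_contra h2
    exact Finsupp.mem_support_iff.1 hp (cop_apply_ne e p.1 p.2 h2)
  rw [Lt.deg_eq, Lt.deg_eq, Lt.deg_eq, ← h1, deg_add_A515]

private theorem copL_deg_A515 (dg : I → ℕ) (d : ℕ) (c : Lt I →₀ ZMod 2)
    (hc : ∀ e ∈ c.support, Lt.deg dg e = d) (p : Lt I × Lt I) (hp : p ∈ (Lt.copL c).support) :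
    Lt.deg dg p.1 + Lt.deg dg p.2 = d := by
  classical
  have h1 : Lt.copL c = c.sum fun e r => r • e.cop := Finsupp.linearCombination_apply _ _
  rw [h1] at hp
  obtain ⟨e, he, hpe⟩ := Finset.mem_biUnion.1 (Finsupp.support_sum hp)
  rw [← hc e he]
  exact cop_deg_A515 dg e p (Finsupp.support_smul hpe)

theorem mem_PH (h : IsCB V I dg y) (d : ℕ) (x : (RV V).H d) :
    x ∈ PH V d ↔ Lt.copL (h.grB.toL d x) = 0 := by
  have h1 : x ∈ PH V d ↔ SV.Hmap (R.diag V.zv) d x = 0 := LinearMap.mem_ker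
  rw [h1, h.diag_eq]
  constructor
  · intro h2
    exact h.Th_inj d _ (copL_deg_A515 dg d _ (h.grB.toL_deg x)) h2
  · intro h2
    rw [h2, map_zero]

private theorem sum_A515 {Q : Type} [AddCommGroup Q] [Module (ZMod 2) Q] (c : Lt I' →₀ ZMod 2)
    (f : Lt I' → Q) : Finsupp.linearCombination (ZMod 2) f c = c.sum fun a r => r • f a :=
  Finsupp.linearCombination_apply _ _

/-- an element of `H_d` in terms of the basis -/
private theorem expand_A515 (h : IsCB V I dg y) (d : ℕ) (x : (RV V).H d) :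
    x = (h.grB.toL d x).sum fun a r => r • (if ha : Lt.deg dg a = d then h.grB.b d ⟨a, ha⟩ else 0) := by
  conv_lhs => rw [← h.grB.ofL_toL d x]
  exact sum_A515 _ _

/-- cross products of two elements in terms of the basis -/
private theorem cross_A515 (h : IsCB V I dg y) (d p q : ℕ) (x : (RV V).H p) (x' : (RV V).H q) :
    crsH d x x' = (h.grB.toL p x).sum fun a r => (h.grB.toL q x').sum fun b r' =>
      (r * r') • crsH d (h.grB.y a) (h.grB.y b) := by
  obtain ⟨B, hB⟩ := crsH_bilin (RV V) (RV V) p q d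
  conv_lhs => rw [h.expand_A515 p x, h.expand_A515 q x', ← hB]
  rw [Finsupp.sum, Finsupp.sum, map_sum B, LinearMap.sum_apply]
  refine Finset.sum_congr rfl fun a ha => ?_
  beta_reduce
  rw [map_sum, Finsupp.sum]
  refine Finset.sum_congr rfl fun b hb => ?_
  have ha' := h.grB.toL_deg x a ha
  have hb' := h.grB.toL_deg x' b hb
  rw [dif_pos ha', dif_pos hb', map_smul, map_smul, LinearMap.smul_apply, hB,
    h.crsH_b_A515 d a b p q ha' hb', smul_smul]
  rw [mul_comm]

/-- naturality of `Th` -/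
private theorem Th_map_A515 (h : IsCB V I dg y) (h' : IsCB V' I' dg' y') (g : SVHom (RV V) (RV V'))
    (d : ℕ) (c : Lt I × Lt I →₀ ZMod 2) :
    SV.Hmap (g.tens g) d (h.Th d c) =
      h'.Th d (sqm (h.grB.gm h'.grB fun d => SV.Hmap g d) c) := by
  induction c using Finsupp.induction_linear with
  | zero => simp only [map_zero]
  | add a b ha hb => simp only [map_add, ha, hb]
  | single p r =>
    have h1 : (Finsupp.single p r : Lt I × Lt I →₀ ZMod 2) = r • Finsupp.single p 1 := by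
      rw [Finsupp.smul_single, smul_eq_mul, mul_one]
    rw [h1]
    simp only [map_smul]
    congr 1
    rw [h.Th_single_A515, one_smul, crsH_map_A515, h'.cross_A515]
    have h2 : sqm (h.grB.gm h'.grB fun d => SV.Hmap g d) (Finsupp.single p 1) =
        (h.grB.gm h'.grB (fun d => SV.Hmap g d) (Finsupp.single p.1 1)).sum fun a r =>
          (h.grB.gm h'.grB (fun d => SV.Hmap g d) (Finsupp.single p.2 1)).sum fun b r' =>
            Finsupp.single (a, b) (r * r') := by
      show Finsupp.linearCombination (ZMod 2) _ (Finsupp.single p 1) = _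
      rw [Finsupp.linearCombination_single, one_smul]
    have h3 : ∀ e : Lt I, h.grB.gm h'.grB (fun d => SV.Hmap g d) (Finsupp.single e 1) =
        h'.grB.toL (Lt.deg dg e) (SV.Hmap g (Lt.deg dg e) (h.grB.y e)) := by
      intro e
      rw [← h.grB.toL_y e, GrB.gm_toL]
    rw [h2, h3, h3, map_finsuppSum]
    refine Finset.sum_congr rfl fun a _ => ?_
    beta_reduce
    rw [map_finsuppSum]
    refine Finset.sum_congr rfl fun b _ => ?_
    beta_reduce
    rw [h'.Th_single_A515]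

private theorem sqm_deg_A515 {f : (Lt I →₀ ZMod 2) →ₗ[ZMod 2] (Lt I' →₀ ZMod 2)}
    (hf : DegPres (Lt.deg dg) (Lt.deg dg') f) (d : ℕ) (c : Lt I × Lt I →₀ ZMod 2)
    (hc : ∀ p ∈ c.support, Lt.deg dg p.1 + Lt.deg dg p.2 = d) (p : Lt I' × Lt I')
    (hp : p ∈ (sqm f c).support) : Lt.deg dg' p.1 + Lt.deg dg' p.2 = d := by
  classical
  have h1 : sqm f c = c.sum fun q s => s • ((f (Finsupp.single q.1 1)).sum fun a r =>
      (f (Finsupp.single q.2 1)).sum fun b r' => Finsupp.single (a, b) (r * r')) :=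
    Finsupp.linearCombination_apply _ _
  rw [h1] at hp
  obtain ⟨q, hq, hp⟩ := Finset.mem_biUnion.1 (Finsupp.support_sum hp)
  obtain ⟨a, ha, hp⟩ := Finset.mem_biUnion.1 (Finsupp.support_sum (Finsupp.support_smul hp))
  obtain ⟨b, hb, hp⟩ := Finset.mem_biUnion.1 (Finsupp.support_sum hp)
  have h2 := Finsupp.support_single_subset hp
  rw [Finset.mem_singleton] at h2
  subst h2
  rw [← hc q hq, hf q.1 a ha, hf q.2 b hb]

private theorem diag_nat_A515 (g : Hom V.ss V'.ss) (hg : g.app 0 V.zv = V'.zv) :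
    (R.diag V'.zv).comp (RVmap g hg) = ((RVmap g hg).tens (RVmap g hg)).comp (R.diag V.zv) := by
  apply R.ext
  intro n x
  have e1 : (RVmap g hg).app n ((R.of V.zv).app n x) = (R.of V'.zv).app n (g.app n x) :=
    R.map_of _ _ _ _ _ _
  have e2 : (R.diag V.zv).app n ((R.of V.zv).app n x) =
      ((R.of V.zv).app n x : (RV V).V n) ⊗ₜ[ZMod 2] ((R.of V.zv).app n x : (RV V).V n) :=
    R.lift_of _ _ _ _ _
  have e3 : (R.diag V'.zv).app n ((R.of V'.zv).app n (g.app n x)) =
      ((R.of V'.zv).app n (g.app n x) : (RV V').V n) ⊗ₜ[ZMod 2]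
        ((R.of V'.zv).app n (g.app n x) : (RV V').V n) := R.lift_of _ _ _ _ _
  show (R.diag V'.zv).app n ((RVmap g hg).app n ((R.of V.zv).app n x)) =
    ((RVmap g hg).tens (RVmap g hg)).app n
      ((R.diag V.zv).app n ((R.of V.zv).app n x))
  rw [e1, e2, e3]
  show _ = TensorProduct.map ((RVmap g hg).app n) ((RVmap g hg).app n) (_ ⊗ₜ _)
  rw [TensorProduct.map_tmul, e1]

theorem coMap (h : IsCB V I dg y) (h' : IsCB V' I' dg' y') (g : Hom V.ss V'.ss)
    (hg : g.app 0 V.zv = V'.zv) :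
    CoMap (h.grB.gm h'.grB fun d => SV.Hmap (RVmap g hg) d) := by
  classical
  intro e
  set f := h.grB.gm h'.grB fun d => SV.Hmap (RVmap g hg) d with hf
  have hfd : DegPres (Lt.deg dg) (Lt.deg dg') f := GrB.gm_deg _ _ _
  have h1 : f (Finsupp.single e 1) =
      h'.grB.toL (Lt.deg dg e) (SV.Hmap (RVmap g hg) (Lt.deg dg e) (h.grB.y e)) := by
    rw [hf, ← h.grB.toL_y e, GrB.gm_toL]
  have h2 : h'.Th (Lt.deg dg e) (Lt.copL (f (Finsupp.single e 1))) =
      h'.Th (Lt.deg dg e) (sqm f e.cop) := by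
    rw [h1, ← h'.diag_eq, ← SV.Hmap_comp, diag_nat_A515, SV.Hmap_comp, h.diag_eq, h.grB.toL_y,
      copL_single_A515, h.Th_map_A515 h']
  have h3 : Lt.copL (f (Finsupp.single e 1)) - sqm f e.cop = 0 := by
    refine h'.Th_inj (Lt.deg dg e) _ ?_ (by rw [map_sub, h2, sub_self])
    intro p hp
    rcases Finset.mem_union.1 (Finsupp.support_sub hp) with hp | hp
    · exact copL_deg_A515 dg' _ _ (fun e' he' => hfd e e' he') p hp
    · exact sqm_deg_A515 hfd _ _ (cop_deg_A515 dg e) p hp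
  exact sub_eq_zero.1 h3

end IsCB

end MM
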