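import Pool.Agent.Lib_MP_33f7bb_d.A4V2
import Pool.Agent.Lib_MP_33f7bb_d.A515

/-!
# A4-43: from polynomial generators to a coproduct basis of homology (S2)(a)

`z^e = ∏ z_i^(e_i)`, of degree `edeg dg e`, `≥ 1` for `e ≠ 0` (`dg i ≥ 1`).
1. For `e ≠ 0`, `d = edeg dg e ≥ 1` there is a unique `a_e : RHc V d` with `red (a_e) = (z^e) d` (`red_surj`, `red_injective`).  For every
`d` the `a_e`, `e ≠ 0` of degree `d`, form a basis of `RHc V d`: `d ≥ 1`: `red` is bijective and `CBasis.bas`; `d = 0`: `RHc V 0 = 0`: a class `red a` in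
degree `0` is a multiple of `z^0 = 1` and vanishes on the base vertex (`red_zero_iff`), so it is `0`.
2. `(RV V).H d` is finite dimensional; `y e d` = dual basis for `edeg dg e = d`, `e ≠ 0`, and `0` otherwise: `li`, `sp`, `zero`, `pair`.
3. `diag`: `(boxF d a_(e₁) a_(e₂)) ∘ H(R.diag) = cupR d a_(e₁) a_(e₂) = a_(e₁ + e₂)` (`red_cupR`, `red_injective`, `z^(e₁) z^(e₂) = z^(e₁+e₂)`,
`CR.mul_apply` for homogeneous elements), which has the value `[e₁ + e₂ = e]` on `y e d`.  The value of `boxF d a_(e₁) a_(e₂)` on the right hand side is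
`∑_(e'+e''=e) [e' = e₁] [e'' = e₂]` (`boxF_crs`, `boxF_crs_ne`, `crsH_cls`) `= [e₁ + e₂ = e]`.  By `boxF_span` (finite dimensional homology) and bilinearity the
functionals `boxF d a_(e₁) a_(e₂)`, `edeg e₁ + edeg e₂ = d`, span the dual of `H_d (RV ⊗ RV)`, so both sides are equal.
-/

open scoped TensorProduct

namespace MM

private theorem A4V3_box {P Q : SV} {p q n : ℕ} (h : p + q = n) (a : Module.Dual (ZMod 2) (P.H p))
    (b : Module.Dual (ZMod 2) (Q.H q)) (x : P.H p) (y : Q.H q) :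
    boxF n a b (crsH n x y) = a x * b y := by
  obtain ⟨x, hx, rfl⟩ := A3Box_exists_cls x
  obtain ⟨y, hy, rfl⟩ := A3Box_exists_cls y
  rw [crsH_cls, boxF_crs h]

private theorem A4V3_box_ne {P Q : SV} {p q n p' q' : ℕ} (a : Module.Dual (ZMod 2) (P.H p))
    (b : Module.Dual (ZMod 2) (Q.H q)) (hp : p' ≠ p) (x : P.H p') (y : Q.H q') :
    boxF n a b (crsH n x y) = 0 := by
  obtain ⟨x, hx, rfl⟩ := A3Box_exists_cls x
  obtain ⟨y, hy, rfl⟩ := A3Box_exists_cls y
  rw [crsH_cls]
  exact boxF_crs_ne a b hp x hx y hy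

/-- two classes of the tensor product with the same values on the products of a spanning family -/
private theorem A4V3_eq {P Q : SV} (hP : ∀ p, Module.Finite (ZMod 2) (P.H p))
    (hQ : ∀ q, Module.Finite (ZMod 2) (Q.H q)) {I J : Type} {dI : I → ℕ} {dJ : J → ℕ}
    (A : I → ∀ p, Module.Dual (ZMod 2) (P.H p)) (B : J → ∀ q, Module.Dual (ZMod 2) (Q.H q))
    (hA : ∀ p a, a ∈ Submodule.span (ZMod 2) ((fun i => A i p) '' {i | dI i = p}))
    (hB : ∀ q b, b ∈ Submodule.span (ZMod 2) ((fun i => B i q) '' {i | dJ i = q}))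
    {n : ℕ} {X X' : (P.tens Q).H n}
    (h : ∀ i j, dI i + dJ j = n →
      boxF n (A i (dI i)) (B j (dJ j)) X = boxF n (A i (dI i)) (B j (dJ j)) X') : X = X' := by
  have h01 : ∀ r : ZMod 2, r = 0 ∨ r = 1 := by decide
  have hzl : ∀ {p q : ℕ} (b : Module.Dual (ZMod 2) (Q.H q)),
      boxF n (0 : Module.Dual (ZMod 2) (P.H p)) b = 0 := by
    intro p q b
    have h1 := boxF_add_left (n := n) (0 : Module.Dual (ZMod 2) (P.H p)) 0 b
    rw [add_zero] at h1
    exact left_eq_add.1 h1
  have hzr : ∀ {p q : ℕ} (a : Module.Dual (ZMod 2) (P.H p)),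
      boxF n a (0 : Module.Dual (ZMod 2) (Q.H q)) = 0 := by
    intro p q a
    have h1 := boxF_add_right (n := n) a (0 : Module.Dual (ZMod 2) (Q.H q)) 0
    rw [add_zero] at h1
    exact left_eq_add.1 h1
  have key : ∀ (p q : ℕ), p + q = n → ∀ (a : Module.Dual (ZMod 2) (P.H p))
      (b : Module.Dual (ZMod 2) (Q.H q)), boxF n a b X = boxF n a b X' := by
    intro p q hpq a b
    have ha := hA p a
    have hb := hB q b
    induction ha using Submodule.span_induction with
    | mem a ha =>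
      obtain ⟨i, hi, rfl⟩ := ha
      obtain rfl : dI i = p := hi
      induction hb using Submodule.span_induction with
      | mem b hb =>
        obtain ⟨j, hj, rfl⟩ := hb
        obtain rfl : dJ j = q := hj
        exact h i j hpq
      | zero => rw [hzr, LinearMap.zero_apply, LinearMap.zero_apply]
      | add b b' _ _ hb hb' => rw [boxF_add_right, LinearMap.add_apply, LinearMap.add_apply, hb, hb']
      | smul r b _ hb =>
        rcases h01 r with rfl | rfl
        · rw [zero_smul, hzr, LinearMap.zero_apply, LinearMap.zero_apply]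
        · rw [one_smul, hb]
    | zero => rw [hzl, LinearMap.zero_apply, LinearMap.zero_apply]
    | add a a' _ _ ha ha' => rw [boxF_add_left, LinearMap.add_apply, LinearMap.add_apply, ha, ha']
    | smul r a _ ha =>
      rcases h01 r with rfl | rfl
      · rw [zero_smul, hzl, LinearMap.zero_apply, LinearMap.zero_apply]
      · rw [one_smul, ha]
  rw [← sub_eq_zero]
  refine (Module.forall_dual_apply_eq_zero_iff (ZMod 2) (X - X')).1 fun F => ?_
  rw [map_sub, sub_eq_zero]
  have hF := boxF_span hP hQ n F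
  induction hF using Submodule.span_induction with
  | mem F hF =>
    obtain ⟨p, q, hpq, a, b, rfl⟩ := hF
    exact key p q hpq a b
  | zero => rw [LinearMap.zero_apply, LinearMap.zero_apply]
  | add F F' _ _ h1 h2 => rw [LinearMap.add_apply, LinearMap.add_apply, h1, h2]
  | smul r F _ h1 => rw [LinearMap.smul_apply, LinearMap.smul_apply, h1]

section

variable {V : SV} {I : Type} {dg : I → ℕ} {z : I → CR V.ss}

private theorem A4V3_m_add (z : I → CR V.ss) (e e' : I →₀ ℕ) :
    ((e + e').prod fun i k => z i ^ k : CR V.ss) =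
      (e.prod fun i k => z i ^ k : CR V.ss) * (e'.prod fun i k => z i ^ k : CR V.ss) := by
  classical
  exact Finsupp.prod_add_index' (fun _ => pow_zero _) (fun _ _ _ => pow_add _ _ _)

private theorem A4V3_edeg_add (dg : I → ℕ) (e e' : I →₀ ℕ) :
    edeg dg (e + e') = edeg dg e + edeg dg e' := by
  classical
  exact Finsupp.sum_add_index' (fun _ => zero_mul _) (fun _ _ _ => add_mul _ _ _)

private theorem A4V3_edeg_zero (dg : I → ℕ) : edeg dg 0 = 0 := Finsupp.sum_zero_index

private theorem A4V3_edeg_pos (hpos : ∀ i, 1 ≤ dg i) {e : I →₀ ℕ} (he : e ≠ 0) :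
    1 ≤ edeg dg e := by
  obtain ⟨i, hi⟩ := Finsupp.ne_iff.1 he
  have h1 : e i ≠ 0 := hi
  have h2 : e i * dg i ≤ edeg dg e :=
    Finset.single_le_sum (f := fun i => e i * dg i) (fun _ _ => Nat.zero_le _)
      (Finsupp.mem_support_iff.2 h1)
  have h3 : 1 ≤ e i * dg i := Nat.mul_pos (Nat.pos_of_ne_zero h1) (hpos i)
  omega

private theorem A4V3_A (hpos : ∀ i, 1 ≤ dg i) (z : I → CR V.ss) (e : I →₀ ℕ) (d : ℕ) :
    ∃ a : RHc V d, (e ≠ 0 → edeg dg e = d →
      red V.zv d a = (e.prod fun i k => z i ^ k : CR V.ss) d) := by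
  by_cases h : e ≠ 0 ∧ edeg dg e = d
  · obtain ⟨a, ha⟩ := red_surj V.zv d (h.2 ▸ A4V3_edeg_pos hpos h.1)
      ((e.prod fun i k => z i ^ k : CR V.ss) d)
    exact ⟨a, fun _ _ => ha⟩
  · exact ⟨0, fun h1 h2 => absurd ⟨h1, h2⟩ h⟩

private theorem A4V3_unit : (1 : CR V.ss) 0 (vcls V.zv) = 1 := by
  rw [CR.one_zero]
  unfold vcls
  rw [Hc.unit_cls]
  exact Finsupp.sum_single_index rfl

/-- the coefficient of the unit vanishes -/
private theorem A4V3_c0 (hpos : ∀ i, 1 ≤ dg i) (z : I → CR V.ss) {d : ℕ} (a : RHc V d)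
    (c : (I →₀ ℕ) →₀ ZMod 2) (hc : ∀ e, c e ≠ 0 → edeg dg e = d)
    (hy : (c.sum fun e r => r • (e.prod fun i k => z i ^ k : CR V.ss) d) = red V.zv d a) :
    c 0 = 0 := by
  classical
  by_contra h0
  have hd := hc 0 h0
  rw [A4V3_edeg_zero] at hd
  subst hd
  have h1 : red V.zv 0 a (vcls V.zv) = 0 := (red_zero_iff V.zv _).1 ⟨a, rfl⟩
  rw [← hy, Finsupp.sum, LinearMap.sum_apply, Finset.sum_eq_single 0, Finsupp.prod_zero_index,
    LinearMap.smul_apply, A4V3_unit, smul_eq_mul, mul_one] at h1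
  · exact h0 h1
  · intro e he hne
    have h2 := hc e (Finsupp.mem_support_iff.1 he)
    have h3 := A4V3_edeg_pos hpos hne
    omega
  · intro h2
    exact absurd (Finsupp.mem_support_iff.2 h0) h2

private theorem A4V3_li (h : CPoly V.ss dg z) {A : (I →₀ ℕ) → ∀ d, RHc V d}
    (hA : ∀ e d, e ≠ 0 → edeg dg e = d →
      red V.zv d (A e d) = (e.prod fun i k => z i ^ k : CR V.ss) d) (d : ℕ) :
    LinearIndependent (ZMod 2) (fun e : {e : Lt I // Lt.deg dg e = d} => A e.1.1 d) := by
  apply LinearIndependent.of_comp (red V.zv d)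
  have h1 : LinearIndepOn (ZMod 2) (fun e : I →₀ ℕ =>
      ((e.prod fun i k => z i ^ k : CR V.ss) d : Hc V.ss d)) {e | edeg dg e = d} := by
    rw [linearIndepOn_iff]
    intro c hc h0
    rw [Finsupp.linearCombination_apply] at h0
    refine (h.bas d).1 c (fun e he => ?_) h0
    exact (Finsupp.mem_supported _ _).1 hc (Finsupp.mem_support_iff.2 he)
  have h2 : LinearIndependent (ZMod 2) (fun e : {e : Lt I // Lt.deg dg e = d} =>
      ((e.1.1.prod fun i k => z i ^ k : CR V.ss) d : Hc V.ss d)) :=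
    LinearIndependent.comp h1 (fun e : {e : Lt I // Lt.deg dg e = d} =>
      (⟨e.1.1, e.2⟩ : {e : I →₀ ℕ | edeg dg e = d})) (fun e e' hee => by
        have h3 := congrArg Subtype.val hee
        exact Subtype.ext (Subtype.ext h3))
  have h4 : (⇑(red V.zv d) ∘ fun e : {e : Lt I // Lt.deg dg e = d} => A e.1.1 d) =
      fun e : {e : Lt I // Lt.deg dg e = d} =>
        ((e.1.1.prod fun i k => z i ^ k : CR V.ss) d : Hc V.ss d) :=
    funext fun e => hA e.1.1 d e.1.2 e.2
  rw [h4]
  exact h2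

private theorem A4V3_sp (h : CPoly V.ss dg z) (hpos : ∀ i, 1 ≤ dg i)
    {A : (I →₀ ℕ) → ∀ d, RHc V d}
    (hA : ∀ e d, e ≠ 0 → edeg dg e = d →
      red V.zv d (A e d) = (e.prod fun i k => z i ^ k : CR V.ss) d) (d : ℕ) (a : RHc V d) :
    a ∈ Submodule.span (ZMod 2)
      (Set.range (fun e : {e : Lt I // Lt.deg dg e = d} => A e.1.1 d)) := by
  classical
  obtain ⟨c, hc, hy⟩ := (h.bas d).2 (red V.zv d a)
  have h0 := A4V3_c0 hpos z a c hc hy
  have hne : ∀ e ∈ c.support, e ≠ 0 := by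
    rintro e he rfl
    exact Finsupp.mem_support_iff.1 he h0
  have h1 : a = ∑ e ∈ c.support, c e • A e d := by
    apply red_injective V.zv d
    rw [map_sum, ← hy, Finsupp.sum]
    refine Finset.sum_congr rfl fun e he => ?_
    rw [map_smul, hA e d (hne e he) (hc e (Finsupp.mem_support_iff.1 he))]
  rw [h1]
  refine Submodule.sum_mem _ fun e he => Submodule.smul_mem _ _ (Submodule.subset_span ?_)
  exact ⟨⟨⟨e, hne e he⟩, hc e (Finsupp.mem_support_iff.1 he)⟩, rfl⟩

/-- products of the classes -/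
private theorem A4V3_cup (h : CPoly V.ss dg z)
    {A : (I →₀ ℕ) → ∀ d, RHc V d}
    (hA : ∀ e d, e ≠ 0 → edeg dg e = d →
      red V.zv d (A e d) = (e.prod fun i k => z i ^ k : CR V.ss) d) {e₁ e₂ : I →₀ ℕ}
    (h₁ : e₁ ≠ 0) (h₂ : e₂ ≠ 0) (d : ℕ) (hd : edeg dg e₁ + edeg dg e₂ = d) :
    cupR d (A e₁ (edeg dg e₁)) (A e₂ (edeg dg e₂)) = A (e₁ + e₂) d := by
  apply red_injective V.zv d
  have hne : e₁ + e₂ ≠ 0 := fun h0 => h₁ (add_eq_zero.1 h0).1
  rw [red_cupR, hA e₁ _ h₁ rfl, hA e₂ _ h₂ rfl, hA (e₁ + e₂) d hne (by rw [A4V3_edeg_add, hd]),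
    A4V3_m_add, CR.mul_apply, Finset.sum_eq_single (edeg dg e₁)]
  · obtain rfl : d = edeg dg e₁ + edeg dg e₂ := hd.symm
    rw [Nat.add_sub_cancel_left]
  · intro k _ hk
    rw [h.hom e₁ k hk, cup_zero_left]
  · intro h0
    exact absurd (Finset.mem_range.2 (by omega)) h0

end

theorem exists_CB {V : SV} {I : Type} {dg : I → ℕ} {z : I → CR V.ss} (h : CPoly V.ss dg z)
    (hpos : ∀ i, 1 ≤ dg i) (hfin : ∀ k, {i | dg i = k}.Finite) :
    ∃ y : (I →₀ ℕ) → ∀ d, (RV V).H d, IsCB V I dg y ∧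
      ∀ (e e' : Lt I) (d : ℕ), Lt.deg dg e = d → Lt.deg dg e' = d → ∀ a : RHc V d,
        red V.zv d a = (e.1.prod fun i k => z i ^ k : CR V.ss) d →
        a (y e'.1 d) = open Classical in if e = e' then 1 else 0 := by
  classical
  choose A hA using fun e d => A4V3_A hpos z e d
  have hA' : ∀ e d, e ≠ 0 → edeg dg e = d →
      red V.zv d (A e d) = (e.prod fun i k => z i ^ k : CR V.ss) d := fun e d => hA e d
  have hli := A4V3_li h hA'
  have hsp := A4V3_sp h hpos hA'
  have hFin : ∀ d, Finite {e : Lt I // Lt.deg dg e = d} := by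
    intro d
    have h1 : Finite {e : I →₀ ℕ | edeg dg e = d} := (h.fin d).to_subtype
    exact Finite.of_injective (fun e : {e : Lt I // Lt.deg dg e = d} =>
      (⟨e.1.1, e.2⟩ : {e : I →₀ ℕ | edeg dg e = d})) (fun e e' hee =>
        Subtype.ext (Subtype.ext (congrArg (fun x : {e : I →₀ ℕ | edeg dg e = d} => x.1) hee)))
  set bA : ∀ d, Module.Basis {e : Lt I // Lt.deg dg e = d} (ZMod 2) (RHc V d) := fun d =>
    Module.Basis.mk (hli d) (fun a _ => hsp d a) with hbA
  have hbA1 : ∀ d e, bA d e = A e.1.1 d := by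
    intro d e
    rw [hbA]
    exact Module.Basis.mk_apply _ _ _
  have hfD : ∀ d, Module.Finite (ZMod 2) (RHc V d) := fun d => Module.Finite.of_basis (bA d)
  have hfH : ∀ d, Module.Finite (ZMod 2) ((RV V).H d) := fun d =>
    (Module.finite_dual_iff (ZMod 2)).1 (hfD d)
  set yb : ∀ d, Module.Basis {e : Lt I // Lt.deg dg e = d} (ZMod 2) ((RV V).H d) := fun d =>
    (bA d).dualBasis.map (Module.evalEquiv (ZMod 2) ((RV V).H d)).symm with hyb
  have hpair : ∀ d (e e' : {e : Lt I // Lt.deg dg e = d}),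
      A e.1.1 d (yb d e') = if e = e' then 1 else 0 := by
    intro d e e'
    have h1 : ∀ (ψ : Module.Dual (ZMod 2) (Module.Dual (ZMod 2) ((RV V).H d)))
        (φ : Module.Dual (ZMod 2) ((RV V).H d)),
        φ ((Module.evalEquiv (ZMod 2) ((RV V).H d)).symm ψ) = ψ φ := by
      intro ψ φ
      have h2 := (Module.evalEquiv (ZMod 2) ((RV V).H d)).apply_symm_apply ψ
      exact LinearMap.congr_fun h2 φ
    have h3 := h1 ((bA d).dualBasis e') (A e.1.1 d)
    have h4 : yb d e' = (Module.evalEquiv (ZMod 2) ((RV V).H d)).symm ((bA d).dualBasis e') := by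
      rw [hyb]
      exact Module.Basis.map_apply _ _ _
    rw [h4]
    refine h3.trans ?_
    rw [← hbA1 d e, Module.Basis.dualBasis_apply_self]
  set Y : (I →₀ ℕ) → ∀ d, (RV V).H d := fun e d =>
    if he : e ≠ 0 ∧ edeg dg e = d then yb d ⟨⟨e, he.1⟩, he.2⟩ else 0 with hY
  have hY0 : ∀ d, Y 0 d = 0 := fun d => dif_neg fun h0 => h0.1 rfl
  have hY1 : ∀ d (x : {e : Lt I // Lt.deg dg e = d}), Y x.1.1 d = yb d x := fun d x =>
    dif_pos ⟨x.1.2, x.2⟩
  have hYp : ∀ d (e e' : I →₀ ℕ), e ≠ 0 → edeg dg e = d → e' ≠ 0 → edeg dg e' = d →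
      A e d (Y e' d) = if e = e' then 1 else 0 := by
    intro d e e' h1 h2 h3 h4
    have h5 := hY1 d ⟨⟨e', h3⟩, h4⟩
    have h6 := hpair d ⟨⟨e, h1⟩, h2⟩ ⟨⟨e', h3⟩, h4⟩
    rw [← h5] at h6
    refine h6.trans ?_
    by_cases h7 : e = e'
    · subst h7
      rw [if_pos rfl, if_pos rfl]
    · rw [if_neg h7, if_neg]
      intro h8
      exact h7 (congrArg (fun x : {e : Lt I // Lt.deg dg e = d} => x.1.1) h8)
  refine ⟨Y, ⟨hpos, hfin, hY0, fun d => ?_, fun d => ?_, fun e he => ?_⟩, ?_⟩
  · have h1 : (fun e : {e : Lt I // Lt.deg dg e = d} => Y e.1.1 d) = yb d := funext (hY1 d)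
    rw [h1]
    exact (yb d).linearIndependent
  · have h1 : (fun e : {e : Lt I // Lt.deg dg e = d} => Y e.1.1 d) = yb d := funext (hY1 d)
    rw [h1]
    exact (yb d).span_eq
  · set d := edeg dg e with hd
    refine A4V3_eq hfH hfH (dI := fun x : Lt I => edeg dg x.1) (dJ := fun x : Lt I => edeg dg x.1)
      (fun x p => A x.1 p) (fun x q => A x.1 q) (fun p a => ?_) (fun q b => ?_)
      (fun x x' hxx => ?_)
    · have h1 := hsp p a
      have h2 : Set.range (fun e : {e : Lt I // Lt.deg dg e = p} => A e.1.1 p) =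
          (fun x : Lt I => A x.1 p) '' {x | edeg dg x.1 = p} := by
        rw [Set.image_eq_range]
        rfl
      rwa [h2] at h1
    · have h1 := hsp q b
      have h2 : Set.range (fun e : {e : Lt I // Lt.deg dg e = q} => A e.1.1 q) =
          (fun x : Lt I => A x.1 q) '' {x | edeg dg x.1 = q} := by
        rw [Set.image_eq_range]
        rfl
      rwa [h2] at h1
    · obtain ⟨e₁, h₁⟩ := x
      obtain ⟨e₂, h₂⟩ := x'
      have hne : e₁ + e₂ ≠ 0 := fun h0 => h₁ (add_eq_zero.1 h0).1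
      have hL : boxF d (A e₁ (edeg dg e₁)) (A e₂ (edeg dg e₂)) (SV.Hmap (R.diag V.zv) d (Y e d)) =
          if e₁ + e₂ = e then 1 else 0 := by
        have h1 := A4V3_cup h hA' h₁ h₂ d hxx
        have h2 : cupR d (A e₁ (edeg dg e₁)) (A e₂ (edeg dg e₂)) (Y e d) =
            A (e₁ + e₂) d (Y e d) := by rw [h1]
        refine Eq.trans ?_ (h2.trans ?_)
        · rfl
        · exact hYp d (e₁ + e₂) e hne (by rw [A4V3_edeg_add]; exact hxx) he hd.symm
      refine hL.trans ?_
      rw [map_sum]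
      have hR : ∀ p ∈ Finset.HasAntidiagonal.antidiagonal e,
          boxF d (A e₁ (edeg dg e₁)) (A e₂ (edeg dg e₂))
            (crsH d (Y p.1 (edeg dg p.1)) (Y p.2 (edeg dg p.2))) =
          if p = (e₁, e₂) then 1 else 0 := by
        rintro ⟨p, q⟩ hp
        rw [Finset.HasAntidiagonal.mem_antidiagonal] at hp
        have hpq : p + q = e := hp
        have hdpq : edeg dg p + edeg dg q = d := by rw [← A4V3_edeg_add, hpq]
        show boxF d (A e₁ (edeg dg e₁)) (A e₂ (edeg dg e₂))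
            (crsH d (Y p (edeg dg p)) (Y q (edeg dg q))) = _
        by_cases h1 : edeg dg p = edeg dg e₁
        · have h2 : edeg dg q = edeg dg e₂ := by
            have : edeg dg e₁ + edeg dg e₂ = d := hxx
            omega
          rw [h1, h2, A4V3_box hxx]
          by_cases hp0 : p = 0
          · subst hp0
            rw [hY0, map_zero, zero_mul, if_neg]
            intro h3
            exact h₁ (congrArg Prod.fst h3).symm
          · by_cases hq0 : q = 0
            · subst hq0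
              rw [hY0, map_zero, mul_zero, if_neg]
              intro h3
              exact h₂ (congrArg Prod.snd h3).symm
            · rw [hYp _ e₁ p h₁ rfl hp0 h1, hYp _ e₂ q h₂ rfl hq0 h2]
              by_cases h3 : e₁ = p
              · by_cases h4 : e₂ = q
                · rw [if_pos h3, if_pos h4, if_pos (by rw [h3, h4]), mul_one]
                · rw [if_neg h4, mul_zero, if_neg]
                  intro h5
                  exact h4 (congrArg Prod.snd h5).symm
              · rw [if_neg h3, zero_mul, if_neg]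
                intro h5
                exact h3 (congrArg Prod.fst h5).symm
        · rw [A4V3_box_ne _ _ h1, if_neg]
          intro h3
          exact h1 (congrArg (fun x : (I →₀ ℕ) × (I →₀ ℕ) => edeg dg x.1) h3)
      rw [Finset.sum_congr rfl hR, Finset.sum_ite_eq']
      simp only [Finset.HasAntidiagonal.mem_antidiagonal]
  · intro e e' d h1 h2 a ha
    have h3 : a = A e.1 d := by
      apply red_injective V.zv d
      rw [ha, hA' e.1 d e.2 h1]
    rw [h3]
    refine (hYp d e.1 e'.1 e.2 h1 e'.2 h2).trans ?_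
    by_cases h4 : e = e'
    · rw [if_pos h4, if_pos (congrArg Subtype.val h4)]
    · rw [if_neg h4, if_neg]
      intro h5
      exact h4 (Subtype.ext h5)

end MM
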