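import Pool.Agent.Lib_MP_33f7bb_d.A4V3
import Pool.Agent.Lib_MP_33f7bb_d.A7IF

/-!
# A4-44: the module of indecomposables

`toQ_cupR`: a product vanishes on the primitives (definition of `PH` and `cupR`).
`toQ_zero`: if `toQ a = 0`, `a : RHc V n`, then `a` vanishes on `ker H(R.diag)`, so `a = F ∘ H(R.diag)` for a functional `F` on `H_n (RV ⊗ RV)`
(extend from the range); `boxF_span`: `a` is a sum of products `cupR n b c` with `p + q = n`.
`descend`: Cartan formula and `toQ_cupR`.
`exists_QHData`: `am.M n = QH V n`, `Sq n m φ = toQ (S.on V n m a)` for any `a` with `toQ a = φ` (`toQ` is surjective: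
`LinearMap.dualMap_surjective_of_injective` for the inclusion of `PH`), well defined by `descend`, linear; the axioms from `S.lt`, `S.id`, `S.unst`; `e` = identity.
(Use `LinearMap.quotKerEquivOfSurjective` or the lift of linear maps along the surjection `toQ`: `Submodule.liftQ` on `ker toQ`.)
`PH_span`: `x ∈ PH V n` iff `copL (toL x) = 0` (`IsCB.mem_PH`), i.e. only the letters `ε_i` occur (`e` with `∑ e_i ≥ 2` has a splitting `e = ε_i + e''`, and
the coefficient of `copL c` at `(ε_i, e'')` is `c_e`).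
`QH_span`, `QH_li`: `b i n` restricted to `PH V n`, `y (ε_j) n` is the dual basis (`pair`).
-/

open scoped TensorProduct

namespace MM

theorem toQ_surjective {V : SV} {n : ℕ} : Function.Surjective (toQ : RHc V n →ₗ[ZMod 2] QH V n) :=
  LinearMap.dualMap_surjective_of_injective (Submodule.subtype_injective (PH V n))

theorem toQ_cupR {V : SV} {p q n : ℕ} (a : RHc V p) (b : RHc V q) :
    toQ (cupR n a b : RHc V n) = 0 := by
  apply LinearMap.ext
  rintro ⟨x, hx⟩
  show boxF n a b (SV.Hmap (R.diag V.zv) n x) = 0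
  have h1 : SV.Hmap (R.diag V.zv) n x = 0 := hx
  rw [h1, map_zero]

theorem toQ_zero {V : SV} (hV : ∀ d, Module.Finite (ZMod 2) ((RV V).H d)) {n : ℕ} (a : RHc V n)
    (h : toQ a = 0) : a ∈ Submodule.span (ZMod 2) {c : RHc V n | ∃ (p q : ℕ) (_ : p + q = n)
      (b : RHc V p) (b' : RHc V q), c = cupR n b b'} := by
  have h1 : a ∈ (LinearMap.ker (SV.Hmap (R.diag V.zv) n)).dualAnnihilator := by
    rw [Submodule.mem_dualAnnihilator]
    intro x hx
    exact LinearMap.congr_fun h ⟨x, hx⟩
  rw [← LinearMap.range_dualMap_eq_dualAnnihilator_ker] at h1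
  obtain ⟨F, hF⟩ := h1
  have h2 := boxF_span hV hV n F
  have h3 : ∀ G : Module.Dual (ZMod 2) (((RV V).tens (RV V)).H n),
      G ∈ Submodule.span (ZMod 2) {G | ∃ (p q : ℕ) (_ : p + q = n)
        (a : Module.Dual (ZMod 2) ((RV V).H p)) (b : Module.Dual (ZMod 2) ((RV V).H q)),
        G = boxF n a b} →
      (SV.Hmap (R.diag V.zv) n).dualMap G ∈ Submodule.span (ZMod 2) {c : RHc V n |
        ∃ (p q : ℕ) (_ : p + q = n) (b : RHc V p) (b' : RHc V q), c = cupR n b b'} := by
    intro G hG
    induction hG using Submodule.span_induction with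
    | mem G hG =>
      obtain ⟨p, q, hpq, b, b', rfl⟩ := hG
      exact Submodule.subset_span ⟨p, q, hpq, b, b', rfl⟩
    | zero =>
      rw [map_zero]
      exact Submodule.zero_mem _
    | add u v _ _ hu hv =>
      rw [map_add]
      exact Submodule.add_mem _ hu hv
    | smul r u _ hu =>
      rw [map_smul]
      exact Submodule.smul_mem _ r hu
  rw [← hF]
  exact h3 F h2

theorem descend (S : SqFam) {V : SV} (hV : ∀ d, Module.Finite (ZMod 2) ((RV V).H d)) (n m : ℕ)
    (a : RHc V n) (h : toQ a = 0) : toQ (S.on V n m a) = 0 := by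
  have h1 := toQ_zero hV a h
  clear h
  induction h1 using Submodule.span_induction with
  | mem c hc =>
    obtain ⟨p, q, hpq, b, b', rfl⟩ := hc
    show toQ (S.op V.ss V.zv n m (cupR n b b')) = 0
    rw [S.cartan V.ss V.zv p q n m hpq b b', map_sum]
    exact Finset.sum_eq_zero fun k _ => toQ_cupR _ _
  | zero => rw [map_zero, map_zero]
  | add u v _ _ hu hv => rw [map_add, map_add, hu, hv, add_zero]
  | smul r u _ hu => rw [map_smul, map_smul, hu, smul_zero]

theorem exists_QHData (S : SqFam) (V : SV) (hV : ∀ d, Module.Finite (ZMod 2) ((RV V).H d)) :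
    Nonempty (QHData S V) := by
  have hsec : ∀ n, ∃ s : QH V n →ₗ[ZMod 2] RHc V n,
      (toQ : RHc V n →ₗ[ZMod 2] QH V n).comp s = LinearMap.id := fun n =>
    LinearMap.exists_rightInverse_of_surjective _ (LinearMap.range_eq_top.2 toQ_surjective)
  choose s hs using hsec
  have hs' : ∀ n (φ : QH V n), toQ (s n φ) = φ := fun n φ => LinearMap.congr_fun (hs n) φ
  have key : ∀ (n m : ℕ) (a : RHc V n), toQ (S.on V n m (s n (toQ a))) = toQ (S.on V n m a) := by
    intro n m a
    have h1 : toQ (s n (toQ a) - a) = 0 := by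
      rw [map_sub, hs', sub_self]
    have h2 := descend S hV n m _ h1
    rw [map_sub, map_sub, sub_eq_zero] at h2
    exact h2
  refine ⟨{ am := { M := fun n => QH V n, Sq := fun n m => toQ.comp ((S.on V n m).comp (s n)),
                    Sq_lt := ?_, Sq_id := ?_, unst := ?_ },
            e := fun n => LinearEquiv.refl _ _, comm := ?_ }⟩
  · intro n m h
    apply LinearMap.ext
    intro φ
    show toQ (S.op V.ss V.zv n m (s n φ)) = 0
    rw [S.lt V.ss V.zv n m h, LinearMap.zero_apply, map_zero]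
  · intro n
    apply LinearMap.ext
    intro φ
    show toQ (S.op V.ss V.zv n n (s n φ)) = φ
    rw [S.id V.ss V.zv n, LinearMap.id_apply, hs']
  · intro n m h
    apply LinearMap.ext
    intro φ
    show toQ (S.op V.ss V.zv n m (s n φ)) = 0
    rw [S.unst V.ss V.zv n m h, LinearMap.zero_apply, map_zero]
  · intro n m a
    exact key n m a

private theorem A4V4_fin {I : Type} {dg : I → ℕ} (hpos : ∀ i, 1 ≤ dg i)
    (hfin : ∀ k, {i | dg i = k}.Finite) (d : ℕ) : Finite {e : Lt I // Lt.deg dg e = d} := by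
  classical
  have hT : {i | dg i ≤ d}.Finite := by
    have h1 : {i | dg i ≤ d} ⊆ ⋃ k ∈ Finset.range (d + 1), {i | dg i = k} := by
      intro i hi
      rw [Set.mem_iUnion₂]
      exact ⟨dg i, Finset.mem_range.2 (Nat.lt_succ_of_le hi), rfl⟩
    exact Set.Finite.subset (Set.Finite.biUnion (Finset.finite_toSet _) fun k _ => hfin k) h1
  have h2 : (Set.range fun e : {e : Lt I // Lt.deg dg e = d} => e.1.1) ⊆
      ↑(Finset.finsupp hT.toFinset fun _ => Finset.range (d + 1)) := by
    rintro _ ⟨⟨⟨e, he⟩, hd⟩, rfl⟩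
    have hle : ∀ i ∈ e.support, e i * dg i ≤ d := by
      intro i hi
      have h3 : e i * dg i ≤ ∑ j ∈ e.support, e j * dg j :=
        Finset.single_le_sum (f := fun j => e j * dg j) (fun _ _ => Nat.zero_le _) hi
      have h4 : ∑ j ∈ e.support, e j * dg j = d := hd
      omega
    rw [Finset.mem_coe, Finset.mem_finsupp_iff]
    refine ⟨fun i hi => ?_, fun i hi => ?_⟩
    · rw [Set.Finite.mem_toFinset]
      show dg i ≤ d
      have h5 := hle i hi
      have h6 : 1 ≤ e i := Nat.one_le_iff_ne_zero.2 (Finsupp.mem_support_iff.1 hi)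
      calc dg i = 1 * dg i := (one_mul _).symm
        _ ≤ e i * dg i := Nat.mul_le_mul_right _ h6
        _ ≤ d := h5
    · rw [Finset.mem_range]
      show e i < d + 1
      by_cases h7 : i ∈ e.support
      · have h5 := hle i h7
        have h6 : e i ≤ e i * dg i := Nat.le_mul_of_pos_right _ (hpos i)
        omega
      · rw [Finsupp.notMem_support_iff] at h7
        rw [h7]
        omega
  have h3 : (Set.range fun e : {e : Lt I // Lt.deg dg e = d} => e.1.1).Finite :=
    Set.Finite.subset (Finset.finite_toSet _) h2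
  exact (Set.finite_range_iff (Subtype.val_injective.comp Subtype.val_injective)).1 h3

private theorem A4V4_deg_eps {I : Type} (dg : I → ℕ) (i : I) : Lt.deg dg (Lt.eps i) = dg i := by
  show (Finsupp.single i 1).sum (fun i n => n * dg i) = dg i
  rw [Finsupp.sum_single_index (zero_mul _), one_mul]

private theorem A4V4_b_eps {V : SV} {I : Type} {dg : I → ℕ} {y : (I →₀ ℕ) → ∀ d, (RV V).H d}
    (h : IsCB V I dg y) {n : ℕ} (i : I) (hi : Lt.deg dg (Lt.eps i) = n) :
    h.grB.b n ⟨Lt.eps i, hi⟩ = y (Finsupp.single i 1) n := by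
  show Module.Basis.mk (h.li n) (h.sp n).ge ⟨Lt.eps i, hi⟩ = _
  rw [Module.Basis.mk_apply]
  rfl

theorem IsCB.finite_H {V : SV} {I : Type} {dg : I → ℕ} {y : (I →₀ ℕ) → ∀ d, (RV V).H d}
    (h : IsCB V I dg y) (d : ℕ) : Module.Finite (ZMod 2) ((RV V).H d) := by
  have h1 := A4V4_fin h.pos h.fin d
  exact Module.Finite.of_basis (h.grB.b d)

theorem PH_span {V : SV} {I : Type} {dg : I → ℕ} {y : (I →₀ ℕ) → ∀ d, (RV V).H d}
    (h : IsCB V I dg y) (n : ℕ) :
    PH V n = Submodule.span (ZMod 2)
      {x | ∃ i, dg i = n ∧ x = y (Finsupp.single i 1) n} := by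
  apply le_antisymm
  · intro x hx
    have h1 := (h.mem_PH n x).1 hx
    have h2 := em_pr h1
    rw [← h.grB.ofL_toL n x, ← h2]
    generalize Lt.pr (h.grB.toL n x) = c
    induction c using Finsupp.induction_linear with
    | zero =>
      rw [map_zero, map_zero]
      exact Submodule.zero_mem _
    | add u v hu hv =>
      rw [map_add, map_add]
      exact Submodule.add_mem _ hu hv
    | single i r =>
      have h3 : Lt.em (Finsupp.single i r) = (Finsupp.single (Lt.eps i) r : Lt I →₀ ZMod 2) :=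
        Finsupp.mapDomain_single
      rw [h3]
      unfold GrB.ofL
      rw [Finsupp.linearCombination_single]
      split_ifs with hd
      · rw [A4V4_b_eps h i hd]
        exact Submodule.smul_mem _ _ (Submodule.subset_span
          ⟨i, by rw [← hd, A4V4_deg_eps], rfl⟩)
      · rw [smul_zero]
        exact Submodule.zero_mem _
  · rw [Submodule.span_le]
    rintro x ⟨i, hi, rfl⟩
    have hd : Lt.deg dg (Lt.eps i) = n := by rw [A4V4_deg_eps, hi]
    show y (Finsupp.single i 1) n ∈ PH V n
    rw [h.mem_PH, ← A4V4_b_eps h i hd, GrB.toL_b]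
    have h3 : Lt.em (Finsupp.single i 1) = (Finsupp.single (Lt.eps i) 1 : Lt I →₀ ZMod 2) :=
      Finsupp.mapDomain_single
    rw [← h3, copL_em]

variable {V : SV} {I : Type} {dg : I → ℕ} {z : I → CR V.ss}

/-- the dual bases of the primitives and the indecomposables -/
private theorem A4V4_dual (h : CPoly V.ss dg z) (hpos : ∀ i, 1 ≤ dg i)
    (hfin : ∀ k, {i | dg i = k}.Finite) (b : I → ∀ n, RHc V n)
    (hb : ∀ i n, red V.zv n (b i n) = z i n) (n : ℕ) :
    ∃ w : I → (RV V).H n, (∀ i, dg i = n → w i ∈ PH V n) ∧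
      (∀ x ∈ PH V n, x ∈ Submodule.span (ZMod 2) {x | ∃ i, dg i = n ∧ x = w i}) ∧
      (∀ i, dg i = n → b i n (w i) = 1) ∧
      ∀ i j, dg i = n → dg j = n → i ≠ j → b i n (w j) = 0 := by
  classical
  obtain ⟨y, hy, hp⟩ := exists_CB h hpos hfin
  have hred : ∀ i, red V.zv n (b i n) =
      ((Lt.eps i).1.prod fun i k => z i ^ k : CR V.ss) n := by
    intro i
    have h2 : ((Lt.eps i).1.prod fun i k => z i ^ k : CR V.ss) = z i := by
      show (Finsupp.single i 1).prod (fun i k => z i ^ k) = z i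
      exact (Finsupp.prod_single_index (h := fun i k => z i ^ k) (pow_zero (z i))).trans
        (pow_one (z i))
    rw [h2]
    exact hb i n
  have hval : ∀ i j, dg i = n → dg j = n →
      b i n (y (Finsupp.single j 1) n) = if Lt.eps i = Lt.eps j then 1 else 0 := by
    intro i j hi hj
    have h1 := hp (Lt.eps i) (Lt.eps j) n (by rw [A4V4_deg_eps, hi]) (by rw [A4V4_deg_eps, hj])
      (b i n) (hred i)
    rw [show y (Finsupp.single j 1) n = y (Lt.eps j).1 n from rfl, h1]
  refine ⟨fun i => y (Finsupp.single i 1) n, ?_, ?_, ?_, ?_⟩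
  · intro i hi
    rw [PH_span hy n]
    exact Submodule.subset_span ⟨i, hi, rfl⟩
  · intro x hx
    rw [PH_span hy n] at hx
    exact hx
  · intro i hi
    show b i n (y (Finsupp.single i 1) n) = 1
    rw [hval i i hi hi, if_pos rfl]
  · intro i j hi hj hij
    show b i n (y (Finsupp.single j 1) n) = 0
    rw [hval i j hi hj, if_neg fun h' => hij (Lt.eps_injective h')]

theorem QH_span (h : CPoly V.ss dg z) (hpos : ∀ i, 1 ≤ dg i) (hfin : ∀ k, {i | dg i = k}.Finite)
    (b : I → ∀ n, RHc V n) (hb : ∀ i n, red V.zv n (b i n) = z i n) (n : ℕ) :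
    Submodule.span (ZMod 2) (Set.range fun i => toQ (b i n)) = (⊤ : Submodule (ZMod 2) (QH V n)) := by
  classical
  obtain ⟨w, hw, hsp, h1, h0⟩ := A4V4_dual h hpos hfin b hb n
  rw [eq_top_iff]
  rintro φ -
  let T : Finset {i // i ∈ (hfin n).toFinset} := Finset.univ
  have hT : ∀ i : {i // i ∈ (hfin n).toFinset}, dg i.1 = n := fun i => by
    have h2 := i.2
    rw [Set.Finite.mem_toFinset] at h2
    exact h2
  have hφ : φ = ∑ i ∈ T, φ ⟨w i.1, hw i.1 (hT i)⟩ • toQ (b i.1 n) := by
    apply LinearMap.ext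
    rintro ⟨x, hx⟩
    have key : ∀ x, x ∈ Submodule.span (ZMod 2) {x | ∃ i, dg i = n ∧ x = w i} →
        ∀ hx : x ∈ PH V n, φ ⟨x, hx⟩ =
          (∑ i ∈ T, φ ⟨w i.1, hw i.1 (hT i)⟩ • toQ (b i.1 n) : QH V n) ⟨x, hx⟩ := by
      intro x hx
      have hle : Submodule.span (ZMod 2) {x | ∃ i, dg i = n ∧ x = w i} ≤ PH V n := by
        rw [Submodule.span_le]
        rintro x ⟨i, hi, rfl⟩
        exact hw i hi
      induction hx using Submodule.span_induction with
      | mem x hx =>
        obtain ⟨j, hj, rfl⟩ := hx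
        intro hx'
        rw [LinearMap.sum_apply, Finset.sum_eq_single
          (⟨j, (Set.Finite.mem_toFinset _).2 hj⟩ : {i // i ∈ (hfin n).toFinset})]
        · rw [LinearMap.smul_apply]
          show _ = φ ⟨w j, _⟩ * b j n (w j)
          rw [h1 j hj, mul_one]
        · intro i _ hij
          rw [LinearMap.smul_apply]
          show φ ⟨w i.1, _⟩ * b i.1 n (w j) = 0
          rw [h0 i.1 j (hT i) hj fun h' => hij (Subtype.ext h'), mul_zero]
        · intro h'
          exact absurd (Finset.mem_univ _) h'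
      | zero =>
        intro hx'
        have h2 : (⟨0, hx'⟩ : PH V n) = 0 := rfl
        rw [h2, map_zero, map_zero]
      | add u v hu hv hu' hv' =>
        intro hx'
        have h2 : (⟨u + v, hx'⟩ : PH V n) = ⟨u, hle hu⟩ + ⟨v, hle hv⟩ := rfl
        rw [h2, map_add, map_add, hu', hv']
      | smul r u hu hu' =>
        intro hx'
        have h2 : (⟨r • u, hx'⟩ : PH V n) = r • ⟨u, hle hu⟩ := rfl
        rw [h2, map_smul, map_smul, hu']
    exact key x (hsp x hx) hx
  rw [hφ]
  exact Submodule.sum_mem _ fun i _ => Submodule.smul_mem _ _ (Submodule.subset_span ⟨i.1, rfl⟩)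

theorem QH_li (h : CPoly V.ss dg z) (hpos : ∀ i, 1 ≤ dg i) (hfin : ∀ k, {i | dg i = k}.Finite)
    (b : I → ∀ n, RHc V n) (hb : ∀ i n, red V.zv n (b i n) = z i n) (n : ℕ) (c : I →₀ ZMod 2)
    (hc : ∀ i, c i ≠ 0 → dg i = n) (h0 : (c.sum fun i r => r • toQ (b i n)) = 0) : c = 0 := by
  classical
  obtain ⟨w, hw, -, h1, h2⟩ := A4V4_dual h hpos hfin b hb n
  ext j
  by_contra hj
  rw [Finsupp.zero_apply] at hj
  have hdj := hc j hj
  have h3 := LinearMap.congr_fun h0 ⟨w j, hw j hdj⟩
  rw [Finsupp.sum, LinearMap.sum_apply, Finset.sum_eq_single j] at h3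
  · rw [LinearMap.smul_apply] at h3
    have h4 : c j * b j n (w j) = 0 := h3
    rw [h1 j hdj, mul_one] at h4
    exact hj h4
  · intro i hi hij
    rw [LinearMap.smul_apply]
    show c i * b i n (w j) = 0
    rw [h2 i j (hc i (Finsupp.mem_support_iff.1 hi)) hdj hij, mul_zero]
  · intro h'
    exact absurd (Finsupp.mem_support_iff.2 hj) h'

end MM
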