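import Pool.Agent.Lib_MP_33f7bb_d.A4V4

/-!
# A4-45: the indecomposables as a suspension of a sum of `E(n)`'s; generation

Data from `S2_poly`: `a : L → ℕ`, `g l : V → KL (a l + 1)`, `CPoly` for `z_(l,b) = (g l)^* zC (consO b)`.  `Θ_l : E(a l + 1) → RAM(KL (a l + 1))`
(`exists_Theta`), `G_l = RAM.map (g l)`.
`lamE l n : E(a l + 1)^n → QH V n`, `c ↦ toQ ((g l)^* (Θ_l c))`; it commutes with the operations in the sense of `D.comm` and
`lamE (Sq0-image) = 0`: `Θ_l (Sq d (2 d) c') = S.op d (2 d) (Θ_l c') = cupR (Θ_l c') (Θ_l c')` (`S.top`, naturality of `cupR`), `toQ_cupR`.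
`exists_susp`: for `c ∈ E(a l)^n` choose `c' ∈ E(a l + 1)^(n+1)` with `coef c' = c` (`EAM.coef_surj`); `toQ ((g l)^* Θ_l c')` does not depend on the choice
(`EAM.coef_ker`: two choices differ by `0` or by `Sq d' (n+1) c''`, `2 d' = n + 1`).  Linear, compatible with the operations (`EAM.coef_comm`); sum over `l`
(`DFinsupp.lsum`/`DFinsupp.coprodMap`).  It maps `orbM b ∈ E(a l)^n`, `wtO b = n`, to `toQ ((g l)^* zR (consO b))` (`coef (orbM (consO b)) = orbM b`,
`exists_Theta`), and these are a basis of `QH V (n+1)` (`QH_span`, `QH_li` with `b (l,b) m` = `(g l)^* zR (consO b)` for `m = wtO b + 1`, else `0`), while the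
`orbM b`, `wtO b = n`, `l ∈ L`, are a basis of `⊕_l E(a l)^n` (`EE_eq_sum`, `orbM_li`).  So it is bijective; compose with `(D.e (n+1)).symm`.
`zero`: `D.am.M 0 ≅ QH V 0 = 0` (`QH_span`: all generators have degree `≥ 1`, so `toQ (b i 0) = toQ 0 = 0` as `red` is injective and `z i 0 = 0`).
`exists_gen`: `N` closed under the operations and containing the `toQ (fundC lam)`.  `fundC (KLe (a l + 1) n ∘ H_n (g l)) = (g l)^* (fundC (KLe (a l + 1) n))`
(`muV ∘ R(g) = g ∘ muV`), for `n = a l + 1` this is `(g l)^* iotaK`.  The set of `c ∈ E(a l + 1)^n` with `(D.e n).symm (toQ ((g l)^* Θ_l c)) ∈ N n` is closed under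
the operations and contains `x_1 ⋯ x_(a l + 1)`, so it is everything (`EAM_gen`); in particular all `toQ ((g l)^* zR (consO b))` are in `N`, and these
span (`QH_span`).
-/

open scoped TensorProduct

namespace MM

private noncomputable def A4V5_Th (S : SqFam) (n : ℕ) : AMHom (EAM n) (RAM S (KL n).ss (KL n).zv) :=
  Classical.choose (exists_Theta S n)

private theorem A4V5_Th_gen (S : SqFam) (n : ℕ) :
    (A4V5_Th S n).app n (EAM.gen n) = iotaK n :=
  (Classical.choose_spec (exists_Theta S n)).1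

private theorem A4V5_Th_orb (S : SqFam) {n : ℕ} (b : Orb n) :
    (A4V5_Th S n).app (wtO b) (⟨orbM b, orbM_mem b rfl⟩ : EE n (wtO b)) = zR S b :=
  (Classical.choose_spec (exists_Theta S n)).2 b

private theorem A4V5_pt {V : SV} {n : ℕ} (φ : SVHom V (KL n)) :
    φ.toHom.app 0 V.zv = (KL n).zv := map_zero (φ.app 0)

/-- the orbit sum as an element of `E(n)` -/
private noncomputable def A4V5_o {n : ℕ} (b : Orb n) (d : ℕ) (hb : wtO b = d) : (EAM n).M d :=
  (⟨orbM b, orbM_mem b hb⟩ : EE n d)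

/-- the pull back of `Θ c` -/
private noncomputable def A4V5_pull (S : SqFam) {V : SV} {n : ℕ} (φ : SVHom V (KL n)) :
    AMHom (EAM n) (RAM S V.ss V.zv) :=
  ⟨fun d => ((RAM.map S V.zv (KL n).zv φ.toHom (A4V5_pt φ)).app d).comp
      ((A4V5_Th S n).app d), fun d m c => by
    rw [LinearMap.comp_apply, LinearMap.comp_apply, (A4V5_Th S n).comm,
      (RAM.map S V.zv (KL n).zv φ.toHom (A4V5_pt φ)).comm]⟩

private noncomputable def A4V5_q (S : SqFam) {V : SV} {n : ℕ} (φ : SVHom V (KL n)) (d : ℕ) :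
    (EAM n).M d →ₗ[ZMod 2] RHc V d := (A4V5_pull S φ).app d

private theorem A4V5_q_comm (S : SqFam) {V : SV} {n : ℕ} (φ : SVHom V (KL n)) (d m : ℕ)
    (c : (EAM n).M d) : A4V5_q S φ m ((EAM n).Sq d m c) = S.on V d m (A4V5_q S φ d c) :=
  (A4V5_pull S φ).comm d m c

private theorem A4V5_fund {V : SV} {n : ℕ} (φ : SVHom V (KL n)) (lam : Module.Dual (ZMod 2) ((KL n).H n)) :
    (fundC lam).comp (SV.Hmap (R.map V.zv (KL n).zv φ.toHom (A4V5_pt φ)) n) =
      fundC (lam.comp (SV.Hmap φ n)) := by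
  have h1 : (muV (KL n)).comp (R.map V.zv (KL n).zv φ.toHom (A4V5_pt φ)) =
      φ.comp (muV V) := by
    apply R.ext
    intro m x
    show (muV (KL n)).app m ((R.map V.zv (KL n).zv φ.toHom (A4V5_pt φ)).app m
      ((R.of V.zv).app m x)) = φ.app m ((muV V).app m ((R.of V.zv).app m x))
    rw [R.map_of, muV_of, muV_of]
    rfl
  refine LinearMap.ext fun x => ?_
  show lam (SV.Hmap (muV (KL n)) n (SV.Hmap (R.map V.zv (KL n).zv φ.toHom (A4V5_pt φ)) n x)) =
    lam (SV.Hmap φ n (SV.Hmap (muV V) n x))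
  rw [← SV.Hmap_comp, ← SV.Hmap_comp, h1]

private theorem A4V5_q_gen (S : SqFam) {V : SV} {n : ℕ} (φ : SVHom V (KL n)) :
    A4V5_q S φ n (EAM.gen n) = fundC ((KLev n).comp (SV.Hmap φ n)) := by
  rw [← A4V5_fund φ (KLev n)]
  show ((A4V5_Th S n).app n (EAM.gen n) : RHc (KL n) n).comp
    (SV.Hmap (R.map V.zv (KL n).zv φ.toHom (A4V5_pt φ)) n) = _
  rw [A4V5_Th_gen]
  rfl

section A4V5_aux

variable {S : SqFam} {V : SV} (D : QHData S V)

/-- `c ↦ toQ (φ^* (Θ c))` as a map of unstable modules -/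
private noncomputable def A4V5_hom {n : ℕ} (φ : SVHom V (KL n)) : AMHom (EAM n) D.am :=
  ⟨fun d => (D.e d).symm.toLinearMap.comp (toQ.comp (A4V5_q S φ d)), fun d m c => by
    show (D.e m).symm (toQ (A4V5_q S φ m ((EAM n).Sq d m c))) =
      D.am.Sq d m ((D.e d).symm (toQ (A4V5_q S φ d c)))
    rw [A4V5_q_comm, LinearEquiv.symm_apply_eq, D.comm]⟩

private theorem A4V5_hom_apply {n : ℕ} (φ : SVHom V (KL n)) (d : ℕ) (c : (EAM n).M d) :
    (A4V5_hom D φ).app d c = (D.e d).symm (toQ (A4V5_q S φ d c)) := rfl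

private theorem A4V5_hom_gen {n : ℕ} (φ : SVHom V (KL n)) :
    (A4V5_hom D φ).app n (EAM.gen n) =
      (D.e n).symm (toQ (fundC ((KLev n).comp (SV.Hmap φ n)))) := by
  rw [A4V5_hom_apply, A4V5_q_gen]

private theorem A4V5_hom_top {n : ℕ} (φ : SVHom V (KL n)) (d e : ℕ) (he : 2 * d = e)
    (c : (EAM n).M d) : (A4V5_hom D φ).app e ((EAM n).Sq d e c) = 0 := by
  subst he
  rw [A4V5_hom_apply, A4V5_q_comm]
  have h1 : S.on V d (2 * d) (A4V5_q S φ d c) = cupR (2 * d) (A4V5_q S φ d c) (A4V5_q S φ d c) :=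
    S.top _ _ _ _
  rw [h1, toQ_cupR, map_zero]

private theorem A4V5_ker {n : ℕ} (φ : SVHom V (KL (n + 1))) (d : ℕ) :
    LinearMap.ker (EAM.coef n d) ≤ LinearMap.ker ((A4V5_hom D φ).app (d + 1)) := by
  intro c hc
  rw [LinearMap.mem_ker] at hc ⊢
  rcases EAM.coef_ker n d c hc with h | ⟨d', hd', c', h⟩
  · rw [h, map_zero]
  · rw [← h]
    exact A4V5_hom_top D φ d' (d + 1) hd' c'

/-- the desuspended map -/
private noncomputable def A4V5_sus {n : ℕ} (φ : SVHom V (KL (n + 1))) (d : ℕ) :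
    (EAM n).M d →ₗ[ZMod 2] D.am.M (d + 1) :=
  ((LinearMap.ker (EAM.coef n d)).liftQ ((A4V5_hom D φ).app (d + 1)) (A4V5_ker D φ d)).comp
    (LinearMap.quotKerEquivOfSurjective (EAM.coef n d) (EAM.coef_surj n d)).symm.toLinearMap

private theorem A4V5_sus_coef {n : ℕ} (φ : SVHom V (KL (n + 1))) (d : ℕ)
    (c : (EAM (n + 1)).M (d + 1)) :
    A4V5_sus D φ d (EAM.coef n d c) = (A4V5_hom D φ).app (d + 1) c := by
  have h1 : (LinearMap.quotKerEquivOfSurjective (EAM.coef n d) (EAM.coef_surj n d)).symm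
      (EAM.coef n d c) = Submodule.Quotient.mk c := by
    rw [LinearEquiv.symm_apply_eq]
    rfl
  show (LinearMap.ker (EAM.coef n d)).liftQ ((A4V5_hom D φ).app (d + 1)) (A4V5_ker D φ d)
    ((LinearMap.quotKerEquivOfSurjective (EAM.coef n d) (EAM.coef_surj n d)).symm
      (EAM.coef n d c)) = _
  rw [h1]
  rfl

private theorem A4V5_sus_comm {n : ℕ} (φ : SVHom V (KL (n + 1))) (d m : ℕ) (c : (EAM n).M d) :
    A4V5_sus D φ m ((EAM n).Sq d m c) = D.am.Sq (d + 1) (m + 1) (A4V5_sus D φ d c) := by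
  obtain ⟨c', rfl⟩ := EAM.coef_surj n d c
  rw [← EAM.coef_comm, A4V5_sus_coef, A4V5_sus_coef, (A4V5_hom D φ).comm]

private theorem A4V5_orbM {n : ℕ} (a : Orb n) : coefM n (orbM (consO a)) = orbM a := by
  classical
  refine Finsupp.ext fun b => ?_
  rw [coefM_apply, orbM_apply, orbM_apply, orb_cons]
  by_cases h : orb b = a
  · rw [if_pos h, if_pos (by rw [h])]
  · rw [if_neg h, if_neg fun h' => h (consO_injective h')]

private theorem A4V5_sus_orb {n : ℕ} (φ : SVHom V (KL (n + 1))) (d : ℕ) (b : Orb n)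
    (hb : wtO b = d) (hb' : wtO (consO b) = d + 1) :
    A4V5_sus D φ d (A4V5_o b d hb) =
      (D.e (d + 1)).symm (toQ (A4V5_q S φ (d + 1) (A4V5_o (consO b) (d + 1) hb'))) := by
  rw [← A4V5_hom_apply, ← A4V5_sus_coef]
  congr 1
  exact Subtype.ext (A4V5_orbM b).symm

variable {L : Type} (a : L → ℕ) (g : ∀ l, SVHom V (KL (a l + 1)))

variable (S) in
/-- the basis classes -/
private noncomputable def A4V5_b (x : GI a) (m : ℕ) : RHc V m :=
  if h : wtO (consO x.2) = m then
    A4V5_q S (g x.1) m (A4V5_o (consO x.2) m h) else 0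

variable (S)

private theorem A4V5_b_pos (x : GI a) (m : ℕ) (h : wtO (consO x.2) = m) :
    A4V5_b S a g x m =
      A4V5_q S (g x.1) m (A4V5_o (consO x.2) m h) := dif_pos h

private theorem A4V5_b_neg (x : GI a) (m : ℕ) (h : ¬ wtO (consO x.2) = m) :
    A4V5_b S a g x m = 0 := dif_neg h

private theorem A4V5_red (x : GI a) (m : ℕ) :
    red V.zv m (A4V5_b S a g x m) = CR.map (g x.1).toHom (zC S (consO x.2)) m := by
  unfold zC
  rw [CR.map_hom]
  by_cases h : wtO (consO x.2) = m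
  · subst h
    rw [A4V5_b_pos S a g x _ rfl]
    have h1 : A4V5_q S (g x.1) (wtO (consO x.2)) (A4V5_o (consO x.2) _ rfl) =
        (zR S (consO x.2)).comp (SV.Hmap (R.map V.zv (KL (a x.1 + 1)).zv (g x.1).toHom
          (A4V5_pt (g x.1))) (wtO (consO x.2))) := by
      rw [← A4V5_Th_orb]
      rfl
    rw [h1, red_nat]
    exact (Pi.single_eq_same (M := fun n => Hc V.ss n) _ _).symm
  · rw [A4V5_b_neg S a g x m h, map_zero]
    exact (Pi.single_eq_of_ne (M := fun n => Hc V.ss n) (fun h' => h h'.symm) _).symm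

private theorem A4V5_fin (hL : ∀ d, {l | a l ≤ d}.Finite) (k : ℕ) :
    {i : GI a | gdeg a i = k}.Finite := by
  refine ((hL k).biUnion fun l _ => (wtO_fin (n := a l) k).image (Sigma.mk l)).subset ?_
  rintro ⟨l, b⟩ hb
  have h1 : wtO b + 1 = k := hb
  have h2 := le_wtO b
  refine Set.mem_biUnion (x := l) (show a l ≤ k by omega) ⟨b, ?_, rfl⟩
  show wtO b ≤ k
  omega

private theorem A4V5_span (hL : ∀ d, {l | a l ≤ d}.Finite)
    (h : CPoly V.ss (gdeg a) (fun x => CR.map (g x.1).toHom (zC S (consO x.2)))) (n : ℕ) :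
    Submodule.span (ZMod 2) (Set.range fun i => toQ (A4V5_b S a g i n)) =
      (⊤ : Submodule (ZMod 2) (QH V n)) :=
  QH_span h (fun _ => Nat.succ_pos _) (A4V5_fin a hL) (A4V5_b S a g) (A4V5_red S a g) n

variable {S}

private theorem A4V5_zero (hL : ∀ d, {l | a l ≤ d}.Finite)
    (h : CPoly V.ss (gdeg a) (fun x => CR.map (g x.1).toHom (zC S (consO x.2))))
    (x : D.am.M 0) : x = 0 := by
  have h1 : D.e 0 x ∈ Submodule.span (ZMod 2) (Set.range fun i => toQ (A4V5_b S a g i 0)) := by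
    rw [A4V5_span S a g hL h 0]
    exact Submodule.mem_top
  have h2 : Submodule.span (ZMod 2) (Set.range fun i => toQ (A4V5_b S a g i 0)) ≤
      (⊥ : Submodule (ZMod 2) (QH V 0)) := by
    refine Submodule.span_le.2 ?_
    rintro _ ⟨i, rfl⟩
    show toQ (A4V5_b S a g i 0) = 0
    rw [A4V5_b_neg S a g i 0 (by rw [wtO_cons]; omega), map_zero]
  have h3 := (Submodule.mem_bot (ZMod 2)).1 (h2 h1)
  rwa [LinearEquiv.map_eq_zero_iff] at h3

variable [DecidableEq L]

/-- the total map -/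
private noncomputable def A4V5_T (n : ℕ) :
    (AM.dsum fun l => EAM (a l)).M n →ₗ[ZMod 2] D.am.M (n + 1) :=
  (DFinsupp.lsum ℕ fun l => A4V5_sus D (g l) n : (Π₀ l, (EAM (a l)).M n) →ₗ[ZMod 2] D.am.M (n + 1))

private theorem A4V5_T_single (n : ℕ) (l : L) (c : (EAM (a l)).M n) :
    A4V5_T D a g n (DFinsupp.single l c : Π₀ l, (EAM (a l)).M n) = A4V5_sus D (g l) n c := by
  unfold A4V5_T
  exact DFinsupp.lsum_single _ _ _ _

private theorem A4V5_T_comm (n m : ℕ) (x : (AM.dsum fun l => EAM (a l)).M n) :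
    A4V5_T D a g m ((AM.dsum fun l => EAM (a l)).Sq n m x) =
      D.am.Sq (n + 1) (m + 1) (A4V5_T D a g n x) := by
  classical
  have key : ∀ x : Π₀ l, (EAM (a l)).M n,
      A4V5_T D a g m (DFinsupp.mapRange.linearMap (fun l => (EAM (a l)).Sq n m) x) =
      D.am.Sq (n + 1) (m + 1) (A4V5_T D a g n x) := by
    intro x
    induction x using DFinsupp.induction with
    | h0 => rw [map_zero]; erw [map_zero, map_zero]
    | ha l c f _ _ ih =>
      rw [map_add]
      erw [map_add, map_add, map_add, ih]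
      congr 1
      have h1 : (DFinsupp.mapRange.linearMap (fun l => (EAM (a l)).Sq n m))
          (DFinsupp.single l c : Π₀ l, (EAM (a l)).M n) =
          DFinsupp.single l ((EAM (a l)).Sq n m c) := by
        exact DFinsupp.mapRange_single (hf := fun i => map_zero _)
      rw [h1, A4V5_T_single, A4V5_T_single, A4V5_sus_comm]
  exact key x

private theorem A4V5_T_surj (hL : ∀ d, {l | a l ≤ d}.Finite)
    (h : CPoly V.ss (gdeg a) (fun x => CR.map (g x.1).toHom (zC S (consO x.2)))) (n : ℕ) :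
    Function.Surjective (A4V5_T D a g n) := by
  classical
  intro y
  have h1 : D.e (n + 1) y ∈
      Submodule.span (ZMod 2) (Set.range fun i => toQ (A4V5_b S a g i (n + 1))) := by
    rw [A4V5_span S a g hL h (n + 1)]
    exact Submodule.mem_top
  have h2 : Submodule.span (ZMod 2) (Set.range fun i => toQ (A4V5_b S a g i (n + 1))) ≤
      (LinearMap.range (A4V5_T D a g n)).comap (D.e (n + 1)).symm.toLinearMap := by
    refine Submodule.span_le.2 ?_
    rintro _ ⟨i, rfl⟩
    show (D.e (n + 1)).symm (toQ (A4V5_b S a g i (n + 1))) ∈ LinearMap.range (A4V5_T D a g n)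
    by_cases hi : wtO (consO i.2) = n + 1
    · rw [A4V5_b_pos S a g i (n + 1) hi]
      have hi' : wtO i.2 = n := by
        rw [wtO_cons] at hi
        omega
      rw [← A4V5_sus_orb D (g i.1) n i.2 hi' hi, ← A4V5_T_single]
      exact LinearMap.mem_range_self _ _
    · rw [A4V5_b_neg S a g i (n + 1) hi, map_zero, map_zero]
      exact Submodule.zero_mem _
  have h3 := h2 h1
  have h4 : (D.e (n + 1)).symm (D.e (n + 1) y) ∈ LinearMap.range (A4V5_T D a g n) := h3
  rwa [LinearEquiv.symm_apply_apply] at h4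

private theorem A4V5_T_inj (hL : ∀ d, {l | a l ≤ d}.Finite)
    (h : CPoly V.ss (gdeg a) (fun x => CR.map (g x.1).toHom (zC S (consO x.2)))) (n : ℕ) :
    Function.Injective (A4V5_T D a g n) := by
  classical
  rw [injective_iff_map_eq_zero]
  intro x hx
  change Π₀ l, (EAM (a l)).M n at x
  have hr : ∀ l, ∃ r : Orb (a l) →₀ ZMod 2, (∀ b, r b ≠ 0 → wtO b = n) ∧
      (show EE (a l) n from x l).1 = r.sum fun b t => t • orbM b := fun l =>
    EE_eq_sum (show EE (a l) n from x l).1 (show EE (a l) n from x l).2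
  choose r hr1 hr2 using hr
  -- the value of the map on one component
  have hval : ∀ l, A4V5_sus D (g l) n (x l) =
      (r l).sum fun b t => t • (D.e (n + 1)).symm (toQ (A4V5_b S a g ⟨l, b⟩ (n + 1))) := by
    intro l
    have h1 : x l = (r l).sum fun b t => t • (if hb : wtO b = n then
        A4V5_o b n hb else 0) := by
      refine Subtype.ext ?_
      refine (hr2 l).trans ?_
      have h2 : (show EE (a l) n from ((r l).sum fun b t => t • (if hb : wtO b = n then
        A4V5_o b n hb else 0))).1 =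
        (r l).sum fun b t => (show EE (a l) n from (t • (if hb : wtO b = n then
        A4V5_o b n hb else 0))).1 :=
        map_finsuppSum (EE (a l) n).subtype _ _
      refine Eq.trans ?_ h2.symm
      refine Finsupp.sum_congr fun b hb => ?_
      rw [dif_pos (hr1 l b (Finsupp.mem_support_iff.1 hb))]
      rfl
    rw [h1]
    refine (map_finsuppSum (A4V5_sus D (g l) n) _ _).trans ?_
    refine Finsupp.sum_congr fun b hb => ?_
    have hb' := hr1 l b (Finsupp.mem_support_iff.1 hb)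
    have hb'' : wtO (consO b) = n + 1 := by
      rw [wtO_cons, hb']
    rw [dif_pos hb']
    refine (map_smul (A4V5_sus D (g l) n) _ _).trans ?_
    congr 1
    rw [A4V5_b_pos S a g ⟨l, b⟩ (n + 1) hb'']
    exact A4V5_sus_orb D (g l) n b hb' hb''
  let c : GI a →₀ ZMod 2 := ∑ l ∈ x.support, (r l).mapDomain (Sigma.mk l)
  have hc_eval : ∀ l ∈ x.support, ∀ b, c ⟨l, b⟩ = r l b := by
    intro l hl b
    show (∑ l ∈ x.support, (r l).mapDomain (Sigma.mk l)) (⟨l, b⟩ : GI a) = r l b
    rw [Finsupp.finsetSum_apply, Finset.sum_eq_single l]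
    · exact Finsupp.mapDomain_apply (sigma_mk_injective (β := fun l => Orb (a l))) (r l) b
    · intro l' _ hl'
      refine Finsupp.mapDomain_of_notMem_range _ _ ?_
      rintro ⟨b', hb'⟩
      exact hl' (congrArg Sigma.fst hb')
    · intro h
      exact absurd hl h
  have hc_out : ∀ l, l ∉ x.support → ∀ b, c ⟨l, b⟩ = 0 := by
    intro l hl b
    show (∑ l ∈ x.support, (r l).mapDomain (Sigma.mk l)) (⟨l, b⟩ : GI a) = 0
    rw [Finsupp.finsetSum_apply]
    refine Finset.sum_eq_zero fun l' hl' => ?_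
    refine Finsupp.mapDomain_of_notMem_range _ _ ?_
    rintro ⟨b', hb'⟩
    have h1 : l' = l := congrArg Sigma.fst hb'
    exact hl (h1 ▸ hl')
  have hc_deg : ∀ i, c i ≠ 0 → gdeg a i = n + 1 := by
    rintro ⟨l, b⟩ hi
    by_cases hl : l ∈ x.support
    · rw [hc_eval l hl b] at hi
      show wtO b + 1 = n + 1
      rw [hr1 l b hi]
    · exact absurd (hc_out l hl b) hi
  have hsum : (c.sum fun i t => t • toQ (A4V5_b S a g i (n + 1))) = 0 := by
    have h1 : (c.sum fun i t => t • toQ (A4V5_b S a g i (n + 1))) =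
        Finsupp.linearCombination (ZMod 2) (fun i => toQ (A4V5_b S a g i (n + 1))) c := rfl
    rw [h1]
    show Finsupp.linearCombination (ZMod 2) (fun i => toQ (A4V5_b S a g i (n + 1)))
      (∑ l ∈ x.support, (r l).mapDomain (Sigma.mk l)) = 0
    rw [map_sum]
    have h2 : ∀ l, Finsupp.linearCombination (ZMod 2) (fun i => toQ (A4V5_b S a g i (n + 1)))
        ((r l).mapDomain (Sigma.mk l)) = D.e (n + 1) (A4V5_sus D (g l) n (x l)) := by
      intro l
      rw [hval l, Finsupp.linearCombination_mapDomain, map_finsuppSum]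
      refine Finsupp.sum_congr fun b _ => ?_
      rw [map_smul, LinearEquiv.apply_symm_apply]
      rfl
    rw [Finset.sum_congr rfl fun l _ => h2 l, ← map_sum]
    have h3 : ∑ l ∈ x.support, A4V5_sus D (g l) n (x l) = A4V5_T D a g n x := by
      exact (DFinsupp.sumAddHom_apply (fun l => (A4V5_sus D (g l) n).toAddMonoidHom) x).symm
    rw [h3, hx, map_zero]
  have hc0 := QH_li h (fun _ => Nat.succ_pos _) (A4V5_fin a hL) (A4V5_b S a g) (A4V5_red S a g)
    (n + 1) c hc_deg hsum
  refine DFinsupp.ext fun l => ?_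
  by_contra hne
  have hl : l ∈ x.support := DFinsupp.mem_support_iff.2 hne
  apply hne
  refine Subtype.ext ?_
  refine (hr2 l).trans ?_
  have h4 : r l = 0 := by
    refine Finsupp.ext fun b => ?_
    rw [← hc_eval l hl b, hc0]
    rfl
  rw [h4, Finsupp.sum_zero_index]
  rfl

end A4V5_aux

theorem exists_susp (S : SqFam) (V : SV) (D : QHData S V) {L : Type} (a : L → ℕ)
    (g : ∀ l, SVHom V (KL (a l + 1))) (hL : ∀ d, {l | a l ≤ d}.Finite)
    (h : CPoly V.ss (gdeg a) (fun x => CR.map (g x.1).toHom (zC S (consO x.2)))) :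
    Nonempty (IsSusp (AM.dsum fun l => EAM (a l)) D.am) := by
  classical
  exact ⟨⟨fun n => LinearEquiv.ofBijective (A4V5_T D a g n)
      ⟨A4V5_T_inj D a g hL h n, A4V5_T_surj D a g hL h n⟩,
    A4V5_zero D a g hL h, fun n m x => A4V5_T_comm D a g n m x⟩⟩

theorem exists_gen (S : SqFam) (V : SV) (D : QHData S V) {L : Type} (a : L → ℕ)
    (g : ∀ l, SVHom V (KL (a l + 1))) (hL : ∀ d, {l | a l ≤ d}.Finite)
    (h : CPoly V.ss (gdeg a) (fun x => CR.map (g x.1).toHom (zC S (consO x.2)))) : D.Gen := by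
  classical
  intro N hN hfund n
  have hA : ∀ (l : L) (d : ℕ) (c : (EAM (a l + 1)).M d), (A4V5_hom D (g l)).app d c ∈ N d := by
    intro l d c
    have h1 := EAM_gen (a l + 1) (fun d => (N d).comap ((A4V5_hom D (g l)).app d)) (by
      intro d m x hx
      show (A4V5_hom D (g l)).app m ((EAM (a l + 1)).Sq d m x) ∈ N m
      rw [(A4V5_hom D (g l)).comm]
      exact hN d m _ hx) (by
      show (A4V5_hom D (g l)).app (a l + 1) (EAM.gen (a l + 1)) ∈ N (a l + 1)
      rw [A4V5_hom_gen]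
      exact hfund _ _) d
    have h2 : c ∈ (N d).comap ((A4V5_hom D (g l)).app d) := by
      rw [h1]
      exact Submodule.mem_top
    exact h2
  refine Submodule.eq_top_iff'.2 fun x => ?_
  have h3 : D.e n x ∈ Submodule.span (ZMod 2) (Set.range fun i => toQ (A4V5_b S a g i n)) := by
    rw [A4V5_span S a g hL h n]
    exact Submodule.mem_top
  have h4 : Submodule.span (ZMod 2) (Set.range fun i => toQ (A4V5_b S a g i n)) ≤
      (N n).comap (D.e n).symm.toLinearMap := by
    refine Submodule.span_le.2 ?_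
    rintro _ ⟨i, rfl⟩
    show (D.e n).symm (toQ (A4V5_b S a g i n)) ∈ N n
    by_cases hi : wtO (consO i.2) = n
    · rw [A4V5_b_pos S a g i n hi]
      exact hA i.1 n _
    · rw [A4V5_b_neg S a g i n hi, map_zero, map_zero]
      exact (N n).zero_mem
  have h5 := h4 h3
  have h6 : (D.e n).symm (D.e n x) ∈ N n := h5
  rwa [LinearEquiv.symm_apply_apply] at h6

end MM
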