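import Pool.Agent.Lib_MP_33f7bb_d.A1Defs

/-!
# A5 definitions: words, the coalgebra of letters, cosimplicial vector spaces

`Wd B`: linear combinations of words in the alphabet `B` (tensor algebra of `B →₀ ZMod 2`).
`wmap f`: the algebra map `Wd B → Wd B'` induced by a linear map `f : (B →₀ ZMod 2) → (B' →₀ ZMod 2)`.
Letters `Lt I` = non-zero exponent vectors `e : I →₀ ℕ`, coproduct `cop e = ∑_(a + b = e, a, b ≠ 0) (a, b)`,
`Dw` = derivation of the tensor algebra extending `cop` (cobar differential).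
`CoB`: cosimplicial coalgebras with such bases, with an augmentation and a contraction.
-/

namespace MM

/-! ## cosimplicial vector spaces -/

/-- cosimplicial vector spaces (functors on all monotone maps) -/
structure CV where
  V : ℕ → Type
  [grp : ∀ n, AddCommGroup (V n)]
  [mod : ∀ n, Module (ZMod 2) (V n)]
  act : ∀ {m n : ℕ}, Mo m n → (V m →ₗ[ZMod 2] V n)
  act_id : ∀ {n : ℕ} (x : V n), act OrderHom.id x = x
  act_comp : ∀ {l m n : ℕ} (f : Mo l m) (g : Mo m n) (x : V l), act g (act f x) = act (g.comp f) x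

attribute [instance] CV.grp CV.mod

/-- the differential `V n → V (n+1)` -/
noncomputable def CV.d (C : CV) (n : ℕ) : C.V n →ₗ[ZMod 2] C.V (n + 1) :=
  ∑ i : Fin (n + 2), C.act (dlt i)

/-- the image of the differential (`0` in degree `0`) -/
noncomputable def CV.Bd (C : CV) : ∀ n, Submodule (ZMod 2) (C.V n)
  | 0 => ⊥
  | n + 1 => LinearMap.range (C.d n)

theorem CV.act_idL (C : CV) (n : ℕ) : C.act (OrderHom.id : Mo n n) = LinearMap.id :=
  LinearMap.ext fun x => C.act_id x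

theorem CV.act_compL (C : CV) {l m n : ℕ} (f : Mo l m) (g : Mo m n) :
    C.act (g.comp f) = (C.act g).comp (C.act f) :=
  LinearMap.ext fun x => (C.act_comp f g x).symm

/-- homotopies between endomorphisms of a cosimplicial vector space -/
structure CHpy (C : CV) where
  app : ∀ n, Mo n 1 → (C.V n →ₗ[ZMod 2] C.V n)
  nat : ∀ {m n : ℕ} (g : Mo m n) (θ : Mo n 1) (x : C.V m),
    C.act g (app m (θ.comp g) x) = app n θ (C.act g x)

/-- the dual simplicial vector space -/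
noncomputable def CV.dual (C : CV) : SV where
  V n := Module.Dual (ZMod 2) (C.V n)
  act g := (C.act g).dualMap
  act_id x := by
    rw [C.act_idL]; rfl
  act_comp f g x := by
    rw [C.act_compL]; rfl

/-- exterior powers -/
noncomputable def CV.ext (C : CV) (q : ℕ) : CV where
  V n := ⋀[ZMod 2]^q (C.V n)
  act g := exteriorPower.map q (C.act g)
  act_id x := by
    rw [C.act_idL, exteriorPower.map_id]; rfl
  act_comp f g x := by
    rw [C.act_compL, exteriorPower.map_comp]; rfl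

/-- cosimplicial vector spaces with bases -/
noncomputable def CV.ofI {I : ℕ → Type}
    (act : ∀ {m n : ℕ}, Mo m n → ((I m →₀ ZMod 2) →ₗ[ZMod 2] (I n →₀ ZMod 2)))
    (h1 : ∀ {n : ℕ} (x : I n →₀ ZMod 2), act OrderHom.id x = x)
    (h2 : ∀ {l m n : ℕ} (f : Mo l m) (g : Mo m n) (x : I l →₀ ZMod 2),
      act g (act f x) = act (g.comp f) x) : CV where
  V n := I n →₀ ZMod 2
  act := act
  act_id := h1
  act_comp := h2

/-- the cosimplicial identities (indices are natural numbers, as in `Tower`) -/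
structure CosRel {V : ℕ → Type} [∀ n, AddCommGroup (V n)] [∀ n, Module (ZMod 2) (V n)]
    (cf : ∀ s : ℕ, ℕ → (V s →ₗ[ZMod 2] V (s + 1)))
    (cd : ∀ s : ℕ, ℕ → (V (s + 1) →ₗ[ZMod 2] V s)) : Prop where
  dd : ∀ s i j (x : V s), i ≤ j → j ≤ s + 1 → cf (s + 1) (j + 1) (cf s i x) = cf (s + 1) i (cf s j x)
  σσ : ∀ s i j (x : V (s + 2)), i ≤ j → j ≤ s → cd s j (cd (s + 1) i x) = cd s i (cd (s + 1) (j + 1) x)
  σd_lt : ∀ s i j (x : V (s + 1)), i ≤ j → j ≤ s →
    cd (s + 1) (j + 1) (cf (s + 1) i x) = cf s i (cd s j x)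
  σd_eq : ∀ s j (x : V s), j ≤ s → cd s j (cf s j x) = x
  σd_eq' : ∀ s j (x : V s), j ≤ s → cd s j (cf s (j + 1) x) = x
  σd_gt : ∀ s i j (x : V (s + 1)), i ≤ j → j ≤ s →
    cd (s + 1) i (cf (s + 1) (j + 2) x) = cf s (j + 1) (cd s i x)

/-! ## words -/

/-- linear combinations of words -/
abbrev Wd (B : Type) := List B →₀ ZMod 2

/-- linear extension from words -/
noncomputable abbrev wext {B : Type} {M : Type} [AddCommGroup M] [Module (ZMod 2) M]
    (f : List B → M) : Wd B →ₗ[ZMod 2] M := Finsupp.linearCombination (ZMod 2) f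

/-- left multiplication: `b ⊗ w ↦ b w` -/
noncomputable def lc {B : Type} : (B →₀ ZMod 2) →ₗ[ZMod 2] Wd B →ₗ[ZMod 2] Wd B :=
  Finsupp.linearCombination (ZMod 2) fun b => Finsupp.lmapDomain (ZMod 2) (ZMod 2) (List.cons b)

/-- left multiplication: `(a, b) ⊗ w ↦ a b w` -/
noncomputable def lc2 {B : Type} : (B × B →₀ ZMod 2) →ₗ[ZMod 2] Wd B →ₗ[ZMod 2] Wd B :=
  Finsupp.linearCombination (ZMod 2) fun p =>
    Finsupp.lmapDomain (ZMod 2) (ZMod 2) (fun w => p.1 :: p.2 :: w)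

/-- the algebra map induced by a linear map of letters, on a word -/
noncomputable def wmapW {B B' : Type} (f : (B →₀ ZMod 2) →ₗ[ZMod 2] (B' →₀ ZMod 2)) :
    List B → Wd B'
  | [] => Finsupp.single [] 1
  | b :: w => lc (f (Finsupp.single b 1)) (wmapW f w)

/-- the algebra map induced by a linear map of letters -/
noncomputable def wmap {B B' : Type} (f : (B →₀ ZMod 2) →ₗ[ZMod 2] (B' →₀ ZMod 2)) :
    Wd B →ₗ[ZMod 2] Wd B' := wext (wmapW f)

/-- words of length `q` -/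
def Len (B : Type) (q : ℕ) : Submodule (ZMod 2) (Wd B) :=
  Finsupp.supported (ZMod 2) (ZMod 2) {w | w.length = q}

/-- words of length `q` and degree `k` -/
def LenD {B : Type} (dg : B → ℕ) (q k : ℕ) : Submodule (ZMod 2) (Wd B) :=
  Finsupp.supported (ZMod 2) (ZMod 2) {w | w.length = q ∧ (w.map dg).sum = k}

/-- the component of degree `k` -/
noncomputable def prk {B : Type} (dg : B → ℕ) (k : ℕ) : Wd B →ₗ[ZMod 2] Wd B :=
  { toFun := fun c => c.filter (fun w => (w.map dg).sum = k)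
    map_add' := fun _ _ => Finsupp.filter_add
    map_smul' := fun _ _ => Finsupp.filter_smul }

/-- degree preserving linear maps of letters -/
def DegPres {B B' : Type} (dg : B → ℕ) (dg' : B' → ℕ)
    (f : (B →₀ ZMod 2) →ₗ[ZMod 2] (B' →₀ ZMod 2)) : Prop :=
  ∀ b, ∀ b' ∈ (f (Finsupp.single b 1)).support, dg' b' = dg b

/-! ## letters -/

/-- letters: non-zero exponent vectors -/
abbrev Lt (I : Type) := {e : I →₀ ℕ // e ≠ 0}

/-- the letter `ε_i` -/
noncomputable def Lt.eps {I : Type} (i : I) : Lt I :=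
  ⟨Finsupp.single i 1, fun h => one_ne_zero (Finsupp.single_eq_zero.1 h)⟩

theorem Lt.eps_injective {I : Type} : Function.Injective (Lt.eps (I := I)) := fun i j h =>
  Finsupp.single_left_injective one_ne_zero (Subtype.ext_iff.1 h)

/-- degree of a letter -/
noncomputable def Lt.deg {I : Type} (dg : I → ℕ) (e : Lt I) : ℕ := e.1.sum fun i n => n * dg i

/-- coproduct of a letter: the sum of all `(a, b)` with `a + b = e` (`a`, `b` non-zero) -/
noncomputable def Lt.cop {I : Type} (e : Lt I) : Lt I × Lt I →₀ ZMod 2 := by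
  classical
  exact ∑ p ∈ Finset.HasAntidiagonal.antidiagonal e.1, if h : p.1 ≠ 0 ∧ p.2 ≠ 0 then
    Finsupp.single ((⟨p.1, h.1⟩ : Lt I), (⟨p.2, h.2⟩ : Lt I)) 1 else 0

/-- the coproduct, linearly extended -/
noncomputable def Lt.copL {I : Type} : (Lt I →₀ ZMod 2) →ₗ[ZMod 2] (Lt I × Lt I →₀ ZMod 2) :=
  Finsupp.linearCombination (ZMod 2) Lt.cop

/-- `f ⊗ f` -/
noncomputable def sqm {B B' : Type} (f : (B →₀ ZMod 2) →ₗ[ZMod 2] (B' →₀ ZMod 2)) :
    (B × B →₀ ZMod 2) →ₗ[ZMod 2] (B' × B' →₀ ZMod 2) :=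
  Finsupp.linearCombination (ZMod 2) fun p =>
    (f (Finsupp.single p.1 1)).sum fun a r => (f (Finsupp.single p.2 1)).sum fun b r' =>
      Finsupp.single (a, b) (r * r')

/-- coalgebra maps -/
def CoMap {I I' : Type} (f : (Lt I →₀ ZMod 2) →ₗ[ZMod 2] (Lt I' →₀ ZMod 2)) : Prop :=
  ∀ e : Lt I, Lt.copL (f (Finsupp.single e 1)) = sqm f e.cop

/-- the cobar differential on a word: sum over all splittings of one letter -/
noncomputable def DwW {I : Type} : List (Lt I) → Wd (Lt I)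
  | [] => 0
  | b :: w => lc2 b.cop (Finsupp.single w 1) + lc (Finsupp.single b 1) (DwW w)

/-- the cobar differential -/
noncomputable def Dw {I : Type} : Wd (Lt I) →ₗ[ZMod 2] Wd (Lt I) := wext DwW

/-- inclusion of the primitive letters -/
noncomputable def Lt.em {I : Type} : (I →₀ ZMod 2) →ₗ[ZMod 2] (Lt I →₀ ZMod 2) :=
  Finsupp.lmapDomain (ZMod 2) (ZMod 2) Lt.eps

/-- projection to the primitive letters -/
noncomputable def Lt.pr {I : Type} : (Lt I →₀ ZMod 2) →ₗ[ZMod 2] (I →₀ ZMod 2) :=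
  Finsupp.lcomapDomain Lt.eps Lt.eps_injective

/-- the map on primitive letters -/
noncomputable def pmap {I I' : Type} (f : (Lt I →₀ ZMod 2) →ₗ[ZMod 2] (Lt I' →₀ ZMod 2)) :
    (I →₀ ZMod 2) →ₗ[ZMod 2] (I' →₀ ZMod 2) := Lt.pr.comp (f.comp Lt.em)

/-- inclusion of the words in primitive letters -/
noncomputable def emW {I : Type} : Wd I →ₗ[ZMod 2] Wd (Lt I) :=
  Finsupp.lmapDomain (ZMod 2) (ZMod 2) (List.map Lt.eps)

/-- from words of length `q` to the exterior power, on words -/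
noncomputable def rhoW (I : Type) (q : ℕ) (w : List I) : ⋀[ZMod 2]^q (I →₀ ZMod 2) :=
  if h : w.length = q then
    exteriorPower.ιMulti (ZMod 2) q (fun j : Fin q => Finsupp.single (w.get (Fin.cast h.symm j)) 1)
  else 0

/-- from words of length `q` to the exterior power -/
noncomputable def rho (I : Type) (q : ℕ) : Wd I →ₗ[ZMod 2] ⋀[ZMod 2]^q (I →₀ ZMod 2) := wext (rhoW I q)

/-- homogeneous elements of degree `k` of the exterior power -/
noncomputable def WD {I : Type} (dg : I → ℕ) (q k : ℕ) :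
    Submodule (ZMod 2) (⋀[ZMod 2]^q (I →₀ ZMod 2)) :=
  Submodule.span (ZMod 2) {x | ∃ l : Fin q → I, ∑ j, dg (l j) = k ∧
    x = exteriorPower.ιMulti (ZMod 2) q (fun j => Finsupp.single (l j) 1)}

/-! ## cosimplicial coalgebras with bases of letters -/

/-- cosimplicial coalgebras with bases of letters, augmentation and contraction -/
structure CoB where
  I : ℕ → Type
  dg : ∀ s, I s → ℕ
  dg_pos : ∀ s i, 1 ≤ dg s i
  dg_fin : ∀ s k, {i | dg s i = k}.Finite
  /-- cofaces, used for `i ≤ s + 1` -/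
  cf : ∀ s : ℕ, ℕ → ((Lt (I s) →₀ ZMod 2) →ₗ[ZMod 2] (Lt (I (s + 1)) →₀ ZMod 2))
  /-- codegeneracies, used for `j ≤ s` -/
  cd : ∀ s : ℕ, ℕ → ((Lt (I (s + 1)) →₀ ZMod 2) →ₗ[ZMod 2] (Lt (I s) →₀ ZMod 2))
  rel : CosRel cf cd
  cf_deg : ∀ s i, DegPres (Lt.deg (dg s)) (Lt.deg (dg (s + 1))) (cf s i)
  cd_deg : ∀ s j, DegPres (Lt.deg (dg (s + 1))) (Lt.deg (dg s)) (cd s j)
  cf_co : ∀ s i, CoMap (cf s i)
  cd_co : ∀ s j, CoMap (cd s j)
  /-- degree and basis of the level `-1` -/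
  N : ℕ
  B1 : Type
  aug : (B1 →₀ ZMod 2) →ₗ[ZMod 2] (Lt (I 0) →₀ ZMod 2)
  h0 : (Lt (I 0) →₀ ZMod 2) →ₗ[ZMod 2] (B1 →₀ ZMod 2)
  h0_deg : DegPres (Lt.deg (dg 0)) (fun _ => N) h0
  /-- the contraction -/
  h : ∀ s : ℕ, (Lt (I (s + 1)) →₀ ZMod 2) →ₗ[ZMod 2] (Lt (I s) →₀ ZMod 2)
  h_deg : ∀ s, DegPres (Lt.deg (dg (s + 1))) (Lt.deg (dg s)) (h s)
  h_zero : ∀ s x, h s (cf s 0 x) = x
  h_succ : ∀ s i x, i ≤ s + 1 → h (s + 1) (cf (s + 1) (i + 1) x) = cf s i (h s x)
  h_aug : ∀ x, h 0 (cf 0 1 x) = aug (h0 x)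

namespace CoB

variable (X : CoB)

/-- words of length `q` and degree `k` at level `s` -/
noncomputable abbrev T (s q k : ℕ) : Submodule (ZMod 2) (Wd (Lt (X.I s))) := LenD (Lt.deg (X.dg s)) q k

/-- the differential of words -/
noncomputable def dT (s : ℕ) : Wd (Lt (X.I s)) →ₗ[ZMod 2] Wd (Lt (X.I (s + 1))) :=
  ∑ i ∈ Finset.range (s + 2), wmap (X.cf s i)

/-- cofaces of the primitives -/
noncomputable def pcf (s i : ℕ) : (X.I s →₀ ZMod 2) →ₗ[ZMod 2] (X.I (s + 1) →₀ ZMod 2) :=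
  pmap (X.cf s i)

/-- codegeneracies of the primitives -/
noncomputable def pcd (s j : ℕ) : (X.I (s + 1) →₀ ZMod 2) →ₗ[ZMod 2] (X.I s →₀ ZMod 2) :=
  pmap (X.cd s j)

/-- the differential of the primitives -/
noncomputable def pd (s : ℕ) : (X.I s →₀ ZMod 2) →ₗ[ZMod 2] (X.I (s + 1) →₀ ZMod 2) :=
  ∑ i ∈ Finset.range (s + 2), X.pcf s i

/-- the differential of the words in primitives -/
noncomputable def pdT (s : ℕ) : Wd (X.I s) →ₗ[ZMod 2] Wd (X.I (s + 1)) :=
  ∑ i ∈ Finset.range (s + 2), wmap (X.pcf s i)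

/-- exactness of the primitives at level `s` in degree `k` -/
def PEx : ℕ → ℕ → Prop
  | 0, k => ∀ z : X.I 0 →₀ ZMod 2, (∀ i ∈ z.support, X.dg 0 i = k) → X.pd 0 z = 0 → z = 0
  | s + 1, k => ∀ z : X.I (s + 1) →₀ ZMod 2, (∀ i ∈ z.support, X.dg (s + 1) i = k) →
      X.pd (s + 1) z = 0 →
      ∃ w : X.I s →₀ ZMod 2, (∀ i ∈ w.support, X.dg s i = k) ∧ X.pd s w = z

end CoB

end MM
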