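import Pool.Agent.Lib_MP_33f7bb_d.GenSV
import Pool.Agent.Lib_MP_33f7bb_d.A5Def

/-!
# A5-01: from generators to functors (translation of `GenCV` into `CosRel`)
-/

namespace MM

/-- a cosimplicial vector space given by cofaces and codegeneracies is a functor on all monotone maps -/
theorem CosRel.exists_act {V : ℕ → Type} [∀ n, AddCommGroup (V n)] [∀ n, Module (ZMod 2) (V n)]
    {cf : ∀ s : ℕ, ℕ → (V s →ₗ[ZMod 2] V (s + 1))} {cd : ∀ s : ℕ, ℕ → (V (s + 1) →ₗ[ZMod 2] V s)}
    (h : CosRel cf cd) :
    ∃ act : ∀ {m n : ℕ}, Mo m n → (V m →ₗ[ZMod 2] V n),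
      (∀ {n : ℕ} (x : V n), act (OrderHom.id : Mo n n) x = x) ∧
      (∀ {l m n : ℕ} (f : Mo l m) (g : Mo m n) (x : V l), act g (act f x) = act (g.comp f) x) ∧
      (∀ s i, i < s + 2 → act (dl s i) = cf s i) ∧
      ∀ s j, j < s + 1 → act (sg s j) = cd s j := by
  let G : GenCV :=
    { V := V
      cf := fun n i => cf n i
      cd := fun n j => cd n j
      ff := fun n i j hij x => by
        have := h.dd n i j x hij (by omega)
        simpa using this
      dd := fun n i j hij x => by
        have := h.σσ n i j x hij (by omega)
        simpa using this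
      df1 := fun n i j hij x => by
        have h1 : (i : ℕ) ≤ j := by simpa [Fin.le_def] using hij
        have := h.σd_lt n i j x h1 (by omega)
        simpa using this
      df2 := fun n j x => by
        have := h.σd_eq n j x (by omega)
        simpa using this
      df3 := fun n j x => by
        have := h.σd_eq' n j x (by omega)
        simpa using this
      df4 := fun n i j hij x => by
        have h1 : (j : ℕ) < i := by simpa [Fin.lt_def] using hij
        have := h.σd_gt n j (i - 1) x (by omega) (by omega)
        have h2 : (i : ℕ) - 1 + 1 = i := by omega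
        have h3 : (i : ℕ) - 1 + 2 = i + 1 := by omega
        rw [h2, h3] at this
        simpa using this }
  refine ⟨fun {m n} g => G.act g, fun x => G.act_id x, fun f g x => G.act_comp f g x, ?_, ?_⟩
  · intro s i hi
    rw [dl_eq hi]
    exact G.act_dlt ⟨i, hi⟩
  · intro s j hj
    rw [sg_eq hj]
    exact G.act_sgm ⟨j, hj⟩

end MM
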