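import Pool.Agent.Lib_MP_33f7bb_d.A5Def

/-!
# A5-02: words

All statements are linear: check them on basis elements `Finsupp.single w 1` (`Finsupp.lhom_ext'`, `Finsupp.induction_linear`,
`Submodule.span_induction`); `wmap f` on words by induction on the word.
`wmap_lc`: bilinear in `(y, x)`, on basis elements it is the definition of `wmapW`.
`wmap_comp`: on words by induction with `wmap_lc`.
`wmap_Len`, `wmap_LenD`: `Len`, `LenD` are `Finsupp.supported` (spans of words: `Finsupp.supported_eq_span_single`); on a word by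
induction; `lc y` maps `Len q` to `Len (q+1)`.
`wmap_prk`: on a word `w` of degree `d`: `wmap f w ∈ LenD dg' w.length d`; `prk` is the identity or zero.
-/

namespace MM

variable {B B' B'' : Type}

private theorem A502_lc_apply (y : B →₀ ZMod 2) (x : Wd B) :
    lc y x = y.sum fun b c => c • Finsupp.mapDomain (List.cons b) x := by
  simp only [lc, Finsupp.linearCombination_apply, Finsupp.sum, LinearMap.sum_apply,
    LinearMap.smul_apply, Finsupp.lmapDomain_apply]

private theorem A502_lc_one (b : B) (x : Wd B) :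
    lc (Finsupp.single b 1) x = Finsupp.mapDomain (List.cons b) x := by
  simp only [lc, Finsupp.linearCombination_single, one_smul, Finsupp.lmapDomain_apply]

private theorem A502_lc_mem {y : B →₀ ZMod 2} {x : Wd B} (S : Submodule (ZMod 2) (Wd B))
    (h : ∀ b ∈ y.support, Finsupp.mapDomain (List.cons b) x ∈ S) : lc y x ∈ S := by
  rw [A502_lc_apply]
  exact Submodule.sum_mem _ fun b hb => S.smul_mem _ (h b hb)

private theorem A502_wext_mem {M : Type} [AddCommGroup M] [Module (ZMod 2) M] (g : List B → M)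
    {x : Wd B} (S : Submodule (ZMod 2) M) (h : ∀ w ∈ x.support, g w ∈ S) : wext g x ∈ S := by
  rw [wext, Finsupp.linearCombination_apply]
  exact Submodule.sum_mem _ fun b hb => S.smul_mem _ (h b hb)

private theorem A502_supp {S T : Set (List B)} (b : B) (h : ∀ w ∈ S, b :: w ∈ T) {x : Wd B}
    (hx : x ∈ Finsupp.supported (ZMod 2) (ZMod 2) S) :
    Finsupp.mapDomain (List.cons b) x ∈ Finsupp.supported (ZMod 2) (ZMod 2) T := by
  classical
  rw [Finsupp.mem_supported] at hx ⊢
  intro w hw
  obtain ⟨v, hv, rfl⟩ := Finset.mem_image.1 (Finsupp.mapDomain_support hw)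
  exact h v (hx hv)

theorem wext_single {M : Type} [AddCommGroup M] [Module (ZMod 2) M] (f : List B → M) (w : List B) :
    wext f (Finsupp.single w 1) = f w := by
  rw [wext, Finsupp.linearCombination_single, one_smul]

theorem lc_single (b : B) (w : List B) :
    lc (Finsupp.single b 1) (Finsupp.single w 1) = (Finsupp.single (b :: w) 1 : Wd B) := by
  rw [A502_lc_one, Finsupp.mapDomain_single]

theorem lc2_single (a b : B) (x : Wd B) :
    lc2 (Finsupp.single (a, b) 1) x = lc (Finsupp.single a 1) (lc (Finsupp.single b 1) x) := by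
  rw [A502_lc_one, A502_lc_one, ← Finsupp.mapDomain_comp]
  simp only [lc2, Finsupp.linearCombination_single, one_smul, Finsupp.lmapDomain_apply]
  rfl

theorem lc_single_injective (b : B) :
    Function.Injective (lc (Finsupp.single b 1) : Wd B →ₗ[ZMod 2] Wd B) := by
  intro x y h
  rw [A502_lc_one, A502_lc_one] at h
  exact Finsupp.mapDomain_injective List.cons_injective h

theorem lc_Len {y : B →₀ ZMod 2} {q : ℕ} {x : Wd B} (hx : x ∈ Len B q) : lc y x ∈ Len B (q + 1) := by
  refine A502_lc_mem _ fun b _ => A502_supp b (fun w hw => ?_) hx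
  show (b :: w).length = q + 1
  rw [List.length_cons]
  exact congrArg (· + 1) hw

theorem wmap_nil (f : (B →₀ ZMod 2) →ₗ[ZMod 2] (B' →₀ ZMod 2)) :
    wmap f (Finsupp.single [] 1) = Finsupp.single [] 1 := by
  rw [wmap, wext_single]
  rfl

theorem wmap_lc (f : (B →₀ ZMod 2) →ₗ[ZMod 2] (B' →₀ ZMod 2)) (y : B →₀ ZMod 2) (x : Wd B) :
    wmap f (lc y x) = lc (f y) (wmap f x) := by
  have h : (lc : (B →₀ ZMod 2) →ₗ[ZMod 2] Wd B →ₗ[ZMod 2] Wd B).compr₂ (wmap f) =
      lc.compl₁₂ f (wmap f) := by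
    apply Finsupp.lhom_ext'
    intro b
    apply LinearMap.ext_ring
    apply Finsupp.lhom_ext'
    intro w
    apply LinearMap.ext_ring
    show wmap f (lc (Finsupp.single b 1) (Finsupp.single w 1)) =
      lc (f (Finsupp.single b 1)) (wmap f (Finsupp.single w 1))
    rw [lc_single, wmap, wext_single, wext_single]
    rfl
  exact DFunLike.congr_fun (DFunLike.congr_fun h y) x

private theorem A502_wmap_single (f : (B →₀ ZMod 2) →ₗ[ZMod 2] (B' →₀ ZMod 2)) (w : List B) :
    wmap f (Finsupp.single w 1) = wmapW f w := by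
  rw [wmap, wext_single]

private theorem A502_ext {M : Type} [AddCommGroup M] [Module (ZMod 2) M]
    {f g : Wd B →ₗ[ZMod 2] M} (h : ∀ w, f (Finsupp.single w 1) = g (Finsupp.single w 1)) :
    f = g := by
  apply Finsupp.lhom_ext'
  intro w
  apply LinearMap.ext_ring
  exact h w

theorem wmap_id : wmap (LinearMap.id : (B →₀ ZMod 2) →ₗ[ZMod 2] (B →₀ ZMod 2)) = LinearMap.id := by
  apply A502_ext
  intro w
  induction w with
  | nil => exact wmap_nil _
  | cons b w ih =>
    rw [← lc_single, wmap_lc, ih]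
    rfl

theorem wmap_comp (g : (B' →₀ ZMod 2) →ₗ[ZMod 2] (B'' →₀ ZMod 2))
    (f : (B →₀ ZMod 2) →ₗ[ZMod 2] (B' →₀ ZMod 2)) : wmap (g.comp f) = (wmap g).comp (wmap f) := by
  apply A502_ext
  intro w
  induction w with
  | nil => rw [LinearMap.comp_apply, wmap_nil, wmap_nil, wmap_nil]
  | cons b w ih =>
    rw [LinearMap.comp_apply] at ih ⊢
    rw [← lc_single, wmap_lc, wmap_lc, wmap_lc, ih, LinearMap.comp_apply]

private theorem A502_wmapW_Len (f : (B →₀ ZMod 2) →ₗ[ZMod 2] (B' →₀ ZMod 2)) (w : List B) :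
    wmapW f w ∈ Len B' w.length := by
  induction w with
  | nil => exact Finsupp.single_mem_supported _ _ rfl
  | cons b w ih => exact lc_Len ih

theorem wmap_Len (f : (B →₀ ZMod 2) →ₗ[ZMod 2] (B' →₀ ZMod 2)) {q : ℕ} {x : Wd B}
    (hx : x ∈ Len B q) : wmap f x ∈ Len B' q := by
  refine A502_wext_mem _ _ fun w hw => ?_
  have h1 : w.length = q := (Finsupp.mem_supported _ _).1 hx hw
  have h2 := A502_wmapW_Len f w
  rwa [h1] at h2

theorem LenD_le {dg : B → ℕ} {q k : ℕ} {x : Wd B} (hx : x ∈ LenD dg q k) : x ∈ Len B q :=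
  Finsupp.supported_mono (fun _ hw => hw.1) hx

private theorem A502_cons_LenD {dg : B → ℕ} (b : B) {q k : ℕ} {x : Wd B} (hx : x ∈ LenD dg q k) :
    Finsupp.mapDomain (List.cons b) x ∈ LenD dg (q + 1) (dg b + k) := by
  refine A502_supp b (fun w hw => ?_) hx
  obtain ⟨h1, h2⟩ := hw
  refine ⟨?_, ?_⟩
  · rw [List.length_cons, h1]
  · rw [List.map_cons, List.sum_cons, h2]

private theorem A502_wmapW_LenD {dg : B → ℕ} {dg' : B' → ℕ}
    {f : (B →₀ ZMod 2) →ₗ[ZMod 2] (B' →₀ ZMod 2)} (hf : DegPres dg dg' f) (w : List B) :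
    wmapW f w ∈ LenD dg' w.length (w.map dg).sum := by
  induction w with
  | nil => exact Finsupp.single_mem_supported _ _ ⟨rfl, rfl⟩
  | cons b w ih =>
    refine A502_lc_mem _ fun b' hb' => ?_
    rw [List.map_cons, List.sum_cons, List.length_cons, ← hf b b' hb']
    exact A502_cons_LenD b' ih

theorem wmap_LenD {dg : B → ℕ} {dg' : B' → ℕ} {f : (B →₀ ZMod 2) →ₗ[ZMod 2] (B' →₀ ZMod 2)}
    (hf : DegPres dg dg' f) {q k : ℕ} {x : Wd B} (hx : x ∈ LenD dg q k) :
    wmap f x ∈ LenD dg' q k := by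
  refine A502_wext_mem _ _ fun w hw => ?_
  obtain ⟨h1, h3⟩ := (Finsupp.mem_supported _ _).1 hx hw
  have h2 := A502_wmapW_LenD hf w
  rwa [h1, h3] at h2

theorem prk_mem (dg : B → ℕ) {q : ℕ} (k : ℕ) {x : Wd B} (hx : x ∈ Len B q) :
    prk dg k x ∈ LenD dg q k := by
  refine (Finsupp.mem_supported _ _).2 fun w hw => ?_
  have hw' : w ∈ (Finsupp.filter (fun w => (w.map dg).sum = k) x).support := hw
  rw [Finsupp.support_filter, Finset.mem_filter] at hw'
  exact ⟨(Finsupp.mem_supported _ _).1 hx hw'.1, hw'.2⟩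

theorem prk_eq {dg : B → ℕ} {q k : ℕ} {x : Wd B} (hx : x ∈ LenD dg q k) : prk dg k x = x := by
  show Finsupp.filter (fun w => (w.map dg).sum = k) x = x
  rw [Finsupp.filter_eq_self_iff]
  intro w hw
  exact ((Finsupp.mem_supported _ _).1 hx (Finsupp.mem_support_iff.2 hw)).2

private theorem A502_prk_zero {dg : B → ℕ} {q k k' : ℕ} (hk : k' ≠ k) {x : Wd B}
    (hx : x ∈ LenD dg q k') : prk dg k x = 0 := by
  show Finsupp.filter (fun w => (w.map dg).sum = k) x = 0
  rw [Finsupp.filter_eq_zero_iff]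
  intro w hw
  by_contra hne
  exact hk (((Finsupp.mem_supported _ _).1 hx (Finsupp.mem_support_iff.2 hne)).2.symm.trans hw)

theorem wmap_prk {dg : B → ℕ} {dg' : B' → ℕ} {f : (B →₀ ZMod 2) →ₗ[ZMod 2] (B' →₀ ZMod 2)}
    (hf : DegPres dg dg' f) (k : ℕ) (x : Wd B) : wmap f (prk dg k x) = prk dg' k (wmap f x) := by
  have h : (wmap f).comp (prk dg k) = (prk dg' k).comp (wmap f) := by
    apply A502_ext
    intro w
    rw [LinearMap.comp_apply, LinearMap.comp_apply]
    have h1 : (Finsupp.single w 1 : Wd B) ∈ LenD dg w.length (w.map dg).sum :=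
      Finsupp.single_mem_supported _ _ ⟨rfl, rfl⟩
    have h2 := wmap_LenD hf h1
    by_cases hk : (w.map dg).sum = k
    · rw [hk] at h1 h2
      rw [prk_eq h1, prk_eq h2]
    · rw [A502_prk_zero hk h1, A502_prk_zero hk h2, map_zero]
  exact DFunLike.congr_fun h x

/-- with all letters of degree `N`: words of length `q` have degree `q N` -/
theorem LenD_const {N q k : ℕ} (hk : k ≠ q * N) {x : Wd B} (hx : x ∈ LenD (fun _ : B => N) q k) :
    x = 0 := by
  by_contra hne
  obtain ⟨w, hw⟩ := Finsupp.support_nonempty_iff.2 hne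
  obtain ⟨h1, h2⟩ := (Finsupp.mem_supported _ _).1 hx hw
  apply hk
  rw [← h2, ← h1]
  simp

private theorem A502_lc_nil (z : B →₀ ZMod 2) :
    lc z (Finsupp.single [] 1) = Finsupp.mapDomain (fun b => [b]) z := by
  rw [A502_lc_apply, Finsupp.mapDomain]
  refine Finset.sum_congr rfl fun b _ => ?_
  show z b • Finsupp.mapDomain (List.cons b) (Finsupp.single [] 1) = Finsupp.single [b] (z b)
  rw [Finsupp.mapDomain_single, Finsupp.smul_single, smul_eq_mul, mul_one]

theorem LenD_one {dg : B → ℕ} {k : ℕ} {z : B →₀ ZMod 2} :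
    lc z (Finsupp.single [] 1) ∈ LenD dg 1 k ↔ ∀ b ∈ z.support, dg b = k := by
  classical
  rw [A502_lc_nil]
  have hinj : Function.Injective (fun b : B => [b]) := fun a b h => by simpa using h
  constructor
  · intro h b hb
    have h1 : [b] ∈ (Finsupp.mapDomain (fun b => [b]) z).support := by
      rw [Finsupp.mem_support_iff]
      have h2 : Finsupp.mapDomain (fun b => [b]) z [b] = z b :=
        Finsupp.mapDomain_apply hinj z b
      rw [h2]
      exact Finsupp.mem_support_iff.1 hb
    have h3 := ((Finsupp.mem_supported _ _).1 h h1).2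
    simpa using h3
  · intro h
    refine (Finsupp.mem_supported _ _).2 fun w hw => ?_
    obtain ⟨b, hb, rfl⟩ := Finset.mem_image.1 (Finsupp.mapDomain_support hw)
    exact ⟨rfl, by simpa using h b hb⟩

end MM
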