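import Pool.Agent.Lib_MP_33f7bb_d.A502

/-!
# A5-03: the cobar differential

`cop_apply_eq`, `cop_apply_ne`: from the definition (`Finset.mem_antidiagonal`).
`Dw_lc`: bilinear, on basis elements the definition of `DwW`.
`Dw_prk`: `Lt.deg dg a + Lt.deg dg b = Lt.deg dg e` if `a + b = e` (`Finsupp.sum_add_index'`), so on a word `w` of degree `d` all
words of `Dw w` have degree `d`.
`Dw_Dw`: on words by induction.  `Dw (lc2 c x) = (cop ⊗ 1)(c) x + (1 ⊗ cop)(c) x + lc2 c (Dw x)`, where for `c = (a, b)`: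
`(cop ⊗ 1) x = lc2 (cop a) (lc b x)`, `(1 ⊗ cop) x = lc a (lc2 (cop b) x)`.  So `Dw (Dw (b :: w)) = [both triple sums of
cop b] + lc2 (cop b) (Dw w) + lc2 (cop b) (Dw w) + lc b (Dw (Dw w))`; the two triple sums are equal (coassociativity: both are
the sum over all triples of non-zero `(a1, a2, a3)` with `a1 + a2 + a3 = b`), char 2.
`Dw_wmap`: on words by induction: `Dw (wmap f (b :: w)) = Dw (lc (f b) (wmap f w)) = lc2 (copL (f b)) (wmap f w) + lc (f b) (Dw (wmap f w))`
and `wmap f (Dw (b :: w)) = wmap f (lc2 (cop b) w) + lc (f b) (wmap f (Dw w))`; `wmap f (lc2 c x) = lc2 (sqm f c) (wmap f x)`.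
-/

namespace MM

variable {I I' : Type}

/-! ### auxiliary lemmas -/

private theorem A503_ext {B M : Type} [AddCommGroup M] [Module (ZMod 2) M]
    {f g : Wd B →ₗ[ZMod 2] M} (h : ∀ w, f (Finsupp.single w 1) = g (Finsupp.single w 1)) :
    f = g := by
  apply Finsupp.lhom_ext'
  intro w
  apply LinearMap.ext_ring
  exact h w

private theorem A503_lc_apply {B : Type} (y : B →₀ ZMod 2) (x : Wd B) :
    lc y x = y.sum fun b c => c • lc (Finsupp.single b 1) x := by
  have h : ∀ b : B, lc (Finsupp.single b 1) x = Finsupp.mapDomain (List.cons b) x := fun b => by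
    simp only [lc, Finsupp.linearCombination_single, one_smul, Finsupp.lmapDomain_apply]
  simp only [h]
  simp only [lc, Finsupp.linearCombination_apply, Finsupp.sum, LinearMap.sum_apply,
    LinearMap.smul_apply, Finsupp.lmapDomain_apply]

private theorem A503_lc2_apply {B : Type} (c : B × B →₀ ZMod 2) (x : Wd B) :
    lc2 c x = c.sum fun p r => r • lc (Finsupp.single p.1 1) (lc (Finsupp.single p.2 1) x) := by
  have h : ∀ p : B × B, lc (Finsupp.single p.1 1) (lc (Finsupp.single p.2 1) x) =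
      Finsupp.mapDomain (fun w => p.1 :: p.2 :: w) x := fun p => by
    rw [← lc2_single]
    simp only [lc2, Finsupp.linearCombination_single, one_smul, Finsupp.lmapDomain_apply]
  simp only [h]
  simp only [lc2, Finsupp.linearCombination_apply, Finsupp.sum, LinearMap.sum_apply,
    LinearMap.smul_apply, Finsupp.lmapDomain_apply]

private theorem A503_cons_Len {B : Type} (b : B) {q : ℕ} {x : Wd B} (hx : x ∈ Len B q) :
    lc (Finsupp.single b 1) x ∈ Len B (q + 1) := lc_Len hx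

private theorem A503_cons_LenD {B : Type} {dg : B → ℕ} (b : B) {q k : ℕ} {x : Wd B}
    (hx : x ∈ LenD dg q k) : lc (Finsupp.single b 1) x ∈ LenD dg (q + 1) (dg b + k) := by
  classical
  have e : lc (Finsupp.single b 1) x = Finsupp.mapDomain (List.cons b) x := by
    simp only [lc, Finsupp.linearCombination_single, one_smul, Finsupp.lmapDomain_apply]
  rw [e]
  refine (Finsupp.mem_supported _ _).2 fun w hw => ?_
  obtain ⟨v, hv, rfl⟩ := Finset.mem_image.1 (Finsupp.mapDomain_support hw)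
  obtain ⟨h1, h2⟩ := (Finsupp.mem_supported _ _).1 hx hv
  refine ⟨?_, ?_⟩
  · rw [List.length_cons, h1]
  · rw [List.map_cons, List.sum_cons, h2]

private theorem A503_lc2_mem {B : Type} {c : B × B →₀ ZMod 2} {x : Wd B}
    (S : Submodule (ZMod 2) (Wd B))
    (h : ∀ p ∈ c.support, lc (Finsupp.single p.1 1) (lc (Finsupp.single p.2 1) x) ∈ S) :
    lc2 c x ∈ S := by
  rw [A503_lc2_apply]
  exact Submodule.sum_mem _ fun p hp => S.smul_mem _ (h p hp)

private theorem A503_wext_mem {B M : Type} [AddCommGroup M] [Module (ZMod 2) M] (g : List B → M)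
    {x : Wd B} (S : Submodule (ZMod 2) M) (h : ∀ w ∈ x.support, g w ∈ S) : wext g x ∈ S := by
  rw [wext, Finsupp.linearCombination_apply]
  exact Submodule.sum_mem _ fun b hb => S.smul_mem _ (h b hb)

private theorem A503_prk_zero {B : Type} {dg : B → ℕ} {q k k' : ℕ} (hk : k' ≠ k) {x : Wd B}
    (hx : x ∈ LenD dg q k') : prk dg k x = 0 := by
  show Finsupp.filter (fun w => (w.map dg).sum = k) x = 0
  rw [Finsupp.filter_eq_zero_iff]
  intro w hw
  by_contra hne
  exact hk (((Finsupp.mem_supported _ _).1 hx (Finsupp.mem_support_iff.2 hne)).2.symm.trans hw)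

/-- a linear map on the coproduct of a letter -/
private theorem A503_map_cop {M : Type} [AddCommGroup M] [Module (ZMod 2) M] (e : Lt I)
    (G : (Lt I × Lt I →₀ ZMod 2) →ₗ[ZMod 2] M) :
    G e.cop = (by
      classical
      exact ∑ p ∈ Finset.HasAntidiagonal.antidiagonal e.1, if h : p.1 ≠ 0 ∧ p.2 ≠ 0 then
        G (Finsupp.single ((⟨p.1, h.1⟩ : Lt I), (⟨p.2, h.2⟩ : Lt I)) 1) else 0) := by
  classical
  unfold Lt.cop
  rw [map_sum]
  refine Finset.sum_congr rfl fun p _ => ?_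
  split
  · rfl
  · exact map_zero G

theorem cop_apply_eq (e a b : Lt I) (h : a.1 + b.1 = e.1) : e.cop (a, b) = 1 := by
  classical
  have h1 := A503_map_cop e (Finsupp.lapply (a, b))
  rw [Finsupp.lapply_apply] at h1
  rw [h1, Finset.sum_eq_single (a.1, b.1)]
  · rw [dif_pos ⟨a.2, b.2⟩, Finsupp.lapply_apply]
    exact Finsupp.single_eq_same
  · intro p _ hp
    split
    · next hh =>
      rw [Finsupp.lapply_apply, Finsupp.single_apply, if_neg]
      intro h2
      apply hp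
      have h3 := congrArg Prod.fst h2
      have h4 := congrArg Prod.snd h2
      exact Prod.ext (congrArg Subtype.val h3) (congrArg Subtype.val h4)
    · rfl
  · intro h2
    exact absurd (Finset.HasAntidiagonal.mem_antidiagonal.2 h) h2

theorem cop_apply_ne (e a b : Lt I) (h : a.1 + b.1 ≠ e.1) : e.cop (a, b) = 0 := by
  classical
  have h1 := A503_map_cop e (Finsupp.lapply (a, b))
  rw [Finsupp.lapply_apply] at h1
  rw [h1]
  apply Finset.sum_eq_zero
  intro p hp
  split
  · next hh =>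
    rw [Finsupp.lapply_apply, Finsupp.single_apply, if_neg]
    intro h2
    apply h
    rw [← Finset.HasAntidiagonal.mem_antidiagonal.1 hp]
    have h3 := congrArg Prod.fst h2
    have h4 := congrArg Prod.snd h2
    have h5 : p.1 = a.1 := congrArg Subtype.val h3
    have h6 : p.2 = b.1 := congrArg Subtype.val h4
    rw [h5, h6]
  · rfl

theorem Dw_nil : Dw (Finsupp.single ([] : List (Lt I)) 1) = 0 := by
  rw [Dw, wext_single]
  rfl

private theorem A503_copL_single (b : Lt I) : Lt.copL (Finsupp.single b 1) = b.cop := by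
  rw [Lt.copL, Finsupp.linearCombination_single, one_smul]

theorem Dw_lc (y : Lt I →₀ ZMod 2) (x : Wd (Lt I)) :
    Dw (lc y x) = lc2 (Lt.copL y) x + lc y (Dw x) := by
  have h : (lc : (Lt I →₀ ZMod 2) →ₗ[ZMod 2] Wd (Lt I) →ₗ[ZMod 2] Wd (Lt I)).compr₂ Dw =
      lc2.comp Lt.copL + lc.compl₂ Dw := by
    apply Finsupp.lhom_ext'
    intro b
    apply LinearMap.ext_ring
    apply Finsupp.lhom_ext'
    intro w
    apply LinearMap.ext_ring
    show Dw (lc (Finsupp.single b 1) (Finsupp.single w 1)) =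
      lc2 (Lt.copL (Finsupp.single b 1)) (Finsupp.single w 1) +
        lc (Finsupp.single b 1) (Dw (Finsupp.single w 1))
    rw [lc_single, Dw, wext_single, wext_single, A503_copL_single]
    rfl
  exact DFunLike.congr_fun (DFunLike.congr_fun h y) x

private theorem A503_Dw_word (w : List (Lt I)) : Dw (Finsupp.single w 1) = DwW w := by
  rw [Dw, wext_single]

private theorem A503_DwW_Len (w : List (Lt I)) : DwW w ∈ Len (Lt I) (w.length + 1) := by
  induction w with
  | nil => exact Submodule.zero_mem _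
  | cons b w ih =>
    refine Submodule.add_mem _ (A503_lc2_mem _ fun p _ => ?_) (A503_cons_Len b ih)
    exact A503_cons_Len _ (A503_cons_Len _ (Finsupp.single_mem_supported _ _ rfl))

theorem Dw_Len {q : ℕ} {x : Wd (Lt I)} (hx : x ∈ Len (Lt I) q) : Dw x ∈ Len (Lt I) (q + 1) := by
  refine A503_wext_mem _ _ fun w hw => ?_
  have h1 : w.length = q := (Finsupp.mem_supported _ _).1 hx hw
  have h2 := A503_DwW_Len w
  rwa [h1] at h2

private theorem A503_deg_add (dg : I → ℕ) (e a b : Lt I) (h : a.1 + b.1 = e.1) :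
    Lt.deg dg a + Lt.deg dg b = Lt.deg dg e := by
  classical
  unfold Lt.deg
  rw [← h]
  refine (Finsupp.sum_add_index' ?_ ?_).symm
  · intro i
    exact Nat.zero_mul _
  · intro i m n
    exact Nat.add_mul _ _ _

private theorem A503_DwW_LenD (dg : I → ℕ) (w : List (Lt I)) :
    DwW w ∈ LenD (Lt.deg dg) (w.length + 1) (w.map (Lt.deg dg)).sum := by
  induction w with
  | nil => exact Submodule.zero_mem _
  | cons b w ih =>
    refine Submodule.add_mem _ (A503_lc2_mem _ fun p hp => ?_) ?_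
    · have h1 : p.1.1 + p.2.1 = b.1 := by
        by_contra hne
        exact (Finsupp.mem_support_iff.1 hp) (cop_apply_ne b p.1 p.2 hne)
      have h2 : (Finsupp.single w 1 : Wd (Lt I)) ∈
          LenD (Lt.deg dg) w.length (w.map (Lt.deg dg)).sum :=
        Finsupp.single_mem_supported _ _ ⟨rfl, rfl⟩
      have h3 := A503_cons_LenD p.1 (A503_cons_LenD p.2 h2)
      rw [List.map_cons, List.sum_cons, List.length_cons, ← A503_deg_add dg b p.1 p.2 h1,
        Nat.add_assoc (Lt.deg dg p.1)]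
      exact h3
    · rw [List.map_cons, List.sum_cons, List.length_cons]
      exact A503_cons_LenD b ih

theorem Dw_LenD {dg : I → ℕ} {q k : ℕ} {x : Wd (Lt I)} (hx : x ∈ LenD (Lt.deg dg) q k) :
    Dw x ∈ LenD (Lt.deg dg) (q + 1) k := by
  refine A503_wext_mem _ _ fun w hw => ?_
  obtain ⟨h1, h3⟩ := (Finsupp.mem_supported _ _).1 hx hw
  have h2 := A503_DwW_LenD dg w
  rwa [h1, h3] at h2

theorem Dw_prk (dg : I → ℕ) (k : ℕ) (x : Wd (Lt I)) :
    Dw (prk (Lt.deg dg) k x) = prk (Lt.deg dg) k (Dw x) := by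
  have h : Dw.comp (prk (Lt.deg dg) k) = (prk (Lt.deg dg) k).comp Dw := by
    apply A503_ext
    intro w
    rw [LinearMap.comp_apply, LinearMap.comp_apply]
    have h1 : (Finsupp.single w 1 : Wd (Lt I)) ∈
        LenD (Lt.deg dg) w.length (w.map (Lt.deg dg)).sum :=
      Finsupp.single_mem_supported _ _ ⟨rfl, rfl⟩
    have h2 := Dw_LenD h1
    by_cases hk : (w.map (Lt.deg dg)).sum = k
    · rw [hk] at h1 h2
      rw [prk_eq h1, prk_eq h2]
    · rw [A503_prk_zero hk h1, A503_prk_zero hk h2, map_zero]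
  exact DFunLike.congr_fun h x

private theorem A503_lc2_one (p : Lt I × Lt I) (x : Wd (Lt I)) :
    lc2 (Finsupp.single p 1) x = lc (Finsupp.single p.1 1) (lc (Finsupp.single p.2 1) x) :=
  lc2_single p.1 p.2 x

/-- the word `u v w` in front of `x`, zero if one of them is zero -/
private noncomputable def A503_g (x : Wd (Lt I)) (u v w : I →₀ ℕ) : Wd (Lt I) := by
  classical
  exact if h : u ≠ 0 ∧ v ≠ 0 ∧ w ≠ 0 then
    lc (Finsupp.single (⟨u, h.1⟩ : Lt I) 1) (lc (Finsupp.single (⟨v, h.2.1⟩ : Lt I) 1)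
      (lc (Finsupp.single (⟨w, h.2.2⟩ : Lt I) 1) x)) else 0

private theorem A503_T1 (b : Lt I) (x : Wd (Lt I)) : (by
      classical
      exact ∑ p ∈ Finset.HasAntidiagonal.antidiagonal b.1, if h : p.1 ≠ 0 ∧ p.2 ≠ 0 then
        lc2 (Lt.cop (⟨p.1, h.1⟩ : Lt I)) (lc (Finsupp.single (⟨p.2, h.2⟩ : Lt I) 1) x) else 0) =
    (by
      classical
      exact ∑ p ∈ Finset.HasAntidiagonal.antidiagonal b.1,
        ∑ q ∈ Finset.HasAntidiagonal.antidiagonal p.1, A503_g x q.1 q.2 p.2) := by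
  classical
  refine Finset.sum_congr rfl fun p _ => ?_
  by_cases h : p.1 ≠ 0 ∧ p.2 ≠ 0
  · rw [dif_pos h]
    have h1 := A503_map_cop (⟨p.1, h.1⟩ : Lt I)
      ((LinearMap.flip lc2) (lc (Finsupp.single (⟨p.2, h.2⟩ : Lt I) 1) x))
    rw [LinearMap.flip_apply] at h1
    rw [h1]
    refine Finset.sum_congr rfl fun q _ => ?_
    unfold A503_g
    by_cases h2 : q.1 ≠ 0 ∧ q.2 ≠ 0
    · rw [dif_pos h2, dif_pos ⟨h2.1, h2.2, h.2⟩, LinearMap.flip_apply, A503_lc2_one]
    · rw [dif_neg h2, dif_neg fun h3 => h2 ⟨h3.1, h3.2.1⟩]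
  · rw [dif_neg h]
    symm
    apply Finset.sum_eq_zero
    intro q hq
    unfold A503_g
    rw [dif_neg]
    rintro ⟨h1, h2, h3⟩
    apply h
    refine ⟨?_, h3⟩
    intro h4
    rw [h4, Finset.HasAntidiagonal.mem_antidiagonal, add_eq_zero] at hq
    exact h1 hq.1

private theorem A503_T2 (b : Lt I) (x : Wd (Lt I)) : (by
      classical
      exact ∑ p ∈ Finset.HasAntidiagonal.antidiagonal b.1, if h : p.1 ≠ 0 ∧ p.2 ≠ 0 then
        lc (Finsupp.single (⟨p.1, h.1⟩ : Lt I) 1) (lc2 (Lt.cop (⟨p.2, h.2⟩ : Lt I)) x) else 0) =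
    (by
      classical
      exact ∑ p ∈ Finset.HasAntidiagonal.antidiagonal b.1,
        ∑ q ∈ Finset.HasAntidiagonal.antidiagonal p.2, A503_g x p.1 q.1 q.2) := by
  classical
  refine Finset.sum_congr rfl fun p _ => ?_
  by_cases h : p.1 ≠ 0 ∧ p.2 ≠ 0
  · rw [dif_pos h]
    have h1 := A503_map_cop (⟨p.2, h.2⟩ : Lt I)
      ((lc (Finsupp.single (⟨p.1, h.1⟩ : Lt I) 1)).comp ((LinearMap.flip lc2) x))
    rw [LinearMap.comp_apply, LinearMap.flip_apply] at h1
    rw [h1]
    refine Finset.sum_congr rfl fun q _ => ?_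
    unfold A503_g
    by_cases h2 : q.1 ≠ 0 ∧ q.2 ≠ 0
    · rw [dif_pos h2, dif_pos ⟨h.1, h2.1, h2.2⟩, LinearMap.comp_apply, LinearMap.flip_apply,
        A503_lc2_one]
    · rw [dif_neg h2, dif_neg fun h3 => h2 ⟨h3.2.1, h3.2.2⟩]
  · rw [dif_neg h]
    symm
    apply Finset.sum_eq_zero
    intro q hq
    unfold A503_g
    rw [dif_neg]
    rintro ⟨h1, h2, h3⟩
    apply h
    refine ⟨h1, ?_⟩
    intro h4
    rw [h4, Finset.HasAntidiagonal.mem_antidiagonal, add_eq_zero] at hq
    exact h2 hq.1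

/-- coassociativity -/
private theorem A503_coassoc {M : Type} [AddCommMonoid M] (e : I →₀ ℕ)
    (g : (I →₀ ℕ) → (I →₀ ℕ) → (I →₀ ℕ) → M) : (by
      classical
      exact ∑ p ∈ Finset.HasAntidiagonal.antidiagonal e,
        ∑ q ∈ Finset.HasAntidiagonal.antidiagonal p.1, g q.1 q.2 p.2) =
    (by
      classical
      exact ∑ p ∈ Finset.HasAntidiagonal.antidiagonal e,
        ∑ q ∈ Finset.HasAntidiagonal.antidiagonal p.2, g p.1 q.1 q.2) := by
  classical
  rw [Finset.sum_sigma', Finset.sum_sigma']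
  refine Finset.sum_nbij' (fun s => ⟨(s.2.1, s.2.2 + s.1.2), (s.2.2, s.1.2)⟩)
    (fun s => ⟨(s.1.1 + s.2.1, s.2.2), (s.1.1, s.2.1)⟩) ?_ ?_ ?_ ?_ ?_
  · rintro ⟨⟨p1, p2⟩, ⟨q1, q2⟩⟩ h
    simp only [Finset.mem_sigma, Finset.HasAntidiagonal.mem_antidiagonal] at h ⊢
    refine ⟨?_, trivial⟩
    rw [← add_assoc, h.2, h.1]
  · rintro ⟨⟨p1, p2⟩, ⟨q1, q2⟩⟩ h
    simp only [Finset.mem_sigma, Finset.HasAntidiagonal.mem_antidiagonal] at h ⊢
    refine ⟨?_, trivial⟩
    rw [add_assoc, h.2, h.1]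
  · rintro ⟨⟨p1, p2⟩, ⟨q1, q2⟩⟩ h
    simp only [Finset.mem_sigma, Finset.HasAntidiagonal.mem_antidiagonal] at h ⊢
    rw [h.2]
  · rintro ⟨⟨p1, p2⟩, ⟨q1, q2⟩⟩ h
    simp only [Finset.mem_sigma, Finset.HasAntidiagonal.mem_antidiagonal] at h ⊢
    rw [h.2]
  · rintro ⟨⟨p1, p2⟩, ⟨q1, q2⟩⟩ h
    rfl

private theorem A503_add_self {M : Type} [AddCommGroup M] [Module (ZMod 2) M] (x : M) :
    x + x = 0 := by
  have h : (2 : ZMod 2) • x = x + x := two_smul (ZMod 2) x
  rw [← h, show (2 : ZMod 2) = 0 from rfl, zero_smul]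

/-- `Dw (lc2 (cop b) x) = lc2 (cop b) (Dw x)` -/
private theorem A503_Dw_lc2 (b : Lt I) (x : Wd (Lt I)) :
    Dw (lc2 b.cop x) = lc2 b.cop (Dw x) := by
  classical
  have h1 := A503_map_cop b (Dw.comp ((LinearMap.flip lc2) x))
  have h2 := A503_map_cop b ((LinearMap.flip lc2) (Dw x))
  rw [LinearMap.comp_apply, LinearMap.flip_apply] at h1
  rw [LinearMap.flip_apply] at h2
  rw [h1, h2]
  have h3 : ∀ p ∈ Finset.HasAntidiagonal.antidiagonal b.1,
      (if h : p.1 ≠ 0 ∧ p.2 ≠ 0 then (Dw.comp ((LinearMap.flip lc2) x))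
        (Finsupp.single ((⟨p.1, h.1⟩ : Lt I), (⟨p.2, h.2⟩ : Lt I)) 1) else 0) =
      ((if h : p.1 ≠ 0 ∧ p.2 ≠ 0 then
        lc2 (Lt.cop (⟨p.1, h.1⟩ : Lt I)) (lc (Finsupp.single (⟨p.2, h.2⟩ : Lt I) 1) x) else 0) +
      (if h : p.1 ≠ 0 ∧ p.2 ≠ 0 then
        lc (Finsupp.single (⟨p.1, h.1⟩ : Lt I) 1) (lc2 (Lt.cop (⟨p.2, h.2⟩ : Lt I)) x) else 0)) +
      (if h : p.1 ≠ 0 ∧ p.2 ≠ 0 then ((LinearMap.flip lc2) (Dw x))
        (Finsupp.single ((⟨p.1, h.1⟩ : Lt I), (⟨p.2, h.2⟩ : Lt I)) 1) else 0) := by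
    intro p _
    by_cases h : p.1 ≠ 0 ∧ p.2 ≠ 0
    · rw [dif_pos h, dif_pos h, dif_pos h, dif_pos h, LinearMap.comp_apply, LinearMap.flip_apply,
        LinearMap.flip_apply, A503_lc2_one, A503_lc2_one, Dw_lc, Dw_lc, A503_copL_single,
        A503_copL_single, map_add, ← add_assoc]
    · rw [dif_neg h, dif_neg h, dif_neg h, dif_neg h, add_zero, add_zero]
  rw [Finset.sum_congr rfl h3, Finset.sum_add_distrib, Finset.sum_add_distrib, A503_T1 b x,
    A503_T2 b x, A503_coassoc b.1 (A503_g x), A503_add_self, zero_add]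

theorem Dw_Dw (x : Wd (Lt I)) : Dw (Dw x) = 0 := by
  have h : (Dw : Wd (Lt I) →ₗ[ZMod 2] Wd (Lt I)).comp Dw = 0 := by
    apply A503_ext
    intro w
    rw [LinearMap.comp_apply, LinearMap.zero_apply]
    induction w with
    | nil => rw [Dw_nil, map_zero]
    | cons b w ih =>
      rw [← lc_single, Dw_lc, map_add, Dw_lc, A503_copL_single, A503_Dw_lc2, ih, map_zero,
        add_zero, A503_add_self]
  exact DFunLike.congr_fun h x

/-- the tensor square of two vectors acts as the product -/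
private theorem A503_lc2_tensor {B : Type} (u v : B →₀ ZMod 2) (y : Wd B) :
    lc2 (u.sum fun a r => v.sum fun b r' => Finsupp.single (a, b) (r * r')) y = lc u (lc v y) := by
  have h1 : ∀ (a b : B) (r : ZMod 2), lc2 (Finsupp.single (a, b) r) y =
      r • lc (Finsupp.single a 1) (lc (Finsupp.single b 1) y) := by
    intro a b r
    rw [← lc2_single]
    have h2 : (Finsupp.single (a, b) r : B × B →₀ ZMod 2) = r • Finsupp.single (a, b) 1 := by
      rw [Finsupp.smul_single, smul_eq_mul, mul_one]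
    rw [h2, map_smul, LinearMap.smul_apply]
  rw [A503_lc_apply u (lc v y)]
  simp only [Finsupp.sum, map_sum, LinearMap.sum_apply, h1]
  refine Finset.sum_congr rfl fun a _ => ?_
  rw [A503_lc_apply v y]
  simp only [Finsupp.sum, map_sum, map_smul, Finset.smul_sum, smul_smul]

private theorem A503_wmap_lc2 {B B' : Type} (f : (B →₀ ZMod 2) →ₗ[ZMod 2] (B' →₀ ZMod 2))
    (c : B × B →₀ ZMod 2) (x : Wd B) : wmap f (lc2 c x) = lc2 (sqm f c) (wmap f x) := by
  have h : (wmap f).comp ((LinearMap.flip lc2) x) =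
      ((LinearMap.flip lc2) (wmap f x)).comp (sqm f) := by
    apply Finsupp.lhom_ext'
    intro p
    apply LinearMap.ext_ring
    show wmap f (lc2 (Finsupp.single p 1) x) = lc2 (sqm f (Finsupp.single p 1)) (wmap f x)
    have h1 : sqm f (Finsupp.single p 1) =
        (f (Finsupp.single p.1 1)).sum fun a r => (f (Finsupp.single p.2 1)).sum fun b r' =>
          Finsupp.single (a, b) (r * r') := by
      rw [sqm, Finsupp.linearCombination_single, one_smul]
    rw [h1, A503_lc2_tensor, ← wmap_lc, ← wmap_lc]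
    exact congrArg (wmap f) (lc2_single p.1 p.2 x)
  exact DFunLike.congr_fun h c

theorem Dw_wmap {f : (Lt I →₀ ZMod 2) →ₗ[ZMod 2] (Lt I' →₀ ZMod 2)} (hf : CoMap f) (x : Wd (Lt I)) :
    Dw (wmap f x) = wmap f (Dw x) := by
  have h : Dw.comp (wmap f) = (wmap f).comp Dw := by
    apply A503_ext
    intro w
    rw [LinearMap.comp_apply, LinearMap.comp_apply]
    induction w with
    | nil => rw [wmap_nil, Dw_nil, Dw_nil, map_zero]
    | cons b w ih =>
      rw [← lc_single, wmap_lc, Dw_lc, Dw_lc, map_add, wmap_lc, ih, A503_wmap_lc2, hf b,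
        A503_copL_single]
  exact DFunLike.congr_fun h x

end MM
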