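import Pool.Agent.Lib_MP_33f7bb_d.A504

/-!
# A5-05: cocycles of the cobar complex are cohomologous to primitive words

`col1`: if `x` is a combination of words of length `q + 1` with `Dw x = 0` then `x = emW p + Dw x'`.

Proof.  Coefficient functions.  `(Dw x) (a :: v) = x ((a + b) :: w) + (Dw x_a) v` for `v = b :: w`, `x_a v = x (a :: v)` (`dfn`).
Fix `i : I`.  The homotopy `h` is `(h x) w = x (s w)`, where `s` splits `ε_i` off the first letter which contains `i` (if this letter is
not `ε_i`) (`hfn`).  Let `K = 1 + Dw h + h Dw` (`kfn`).  Then `(K f) (a :: v) = 0` if `a i ≠ 0`, except for `[ε_i]` (`kfn_A`), and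
if `f` has this property then `(K f) (a :: v) = (K f_a) v` for `a i = 0` (`kfn_B`).  So with `Zp n f` (`f` vanishes on the words where the
first letter containing `i` is in position `< n`, except for the words `u ε_i`), `Zp n f → Zp (n + 1) (K f)`.
So a cocycle is cohomologous to `x'' + y ε_i` where `x''` and `y` do not contain `i`, both are cocycles, induction on the set of variables.
-/

namespace MM

namespace A505

variable {I : Type}

/-- sum of letters -/
noncomputable def ad (a b : Lt I) : Lt I :=
  ⟨a.1 + b.1, fun h => a.2 (by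
    ext k
    have h1 := DFunLike.congr_fun h k
    simp only [Finsupp.add_apply, Finsupp.zero_apply] at h1 ⊢
    omega)⟩

/-- functions on words -/
abbrev Fn (I : Type) := List (Lt I) → ZMod 2

/-- shifted function -/
def sh (f : Fn I) (a : Lt I) : Fn I := fun v => f (a :: v)

noncomputable def mfn (f : Fn I) (a : Lt I) : Fn I
  | [] => 0
  | b :: w => f (ad a b :: w)

/-- the coefficients of `Dw` -/
noncomputable def dfn : Fn I → Fn I
  | _, [] => 0
  | f, a :: v => mfn f a v + dfn (sh f a) v

open Classical in
/-- the homotopy -/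
noncomputable def hfn (i : I) : Fn I → Fn I
  | _, [] => 0
  | f, b :: w => if b.1 i = 0 then hfn i (sh f b) w else
      if h : b.1 - Finsupp.single i 1 = 0 then 0 else
        f (Lt.eps i :: ⟨b.1 - Finsupp.single i 1, h⟩ :: w)

theorem dfn_nil (f : Fn I) : dfn f [] = 0 := by rw [dfn]

theorem dfn_cons (f : Fn I) (a : Lt I) (v : List (Lt I)) :
    dfn f (a :: v) = mfn f a v + dfn (sh f a) v := by rw [dfn]

theorem hfn_nil (i : I) (f : Fn I) : hfn i f [] = 0 := by rw [hfn]

theorem hfn_zero_of (i : I) (f : Fn I) (b : Lt I) (w : List (Lt I)) (h : b.1 i = 0) :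
    hfn i f (b :: w) = hfn i (sh f b) w := by
  rw [hfn, if_pos h]

theorem hfn_eps (i : I) (f : Fn I) (b : Lt I) (w : List (Lt I)) (h : b.1 i ≠ 0)
    (h2 : b.1 - Finsupp.single i 1 = 0) : hfn i f (b :: w) = 0 := by
  rw [hfn, if_neg h, dif_pos h2]

theorem hfn_ne (i : I) (f : Fn I) (b : Lt I) (w : List (Lt I)) (h : b.1 i ≠ 0)
    (h2 : b.1 - Finsupp.single i 1 ≠ 0) :
    hfn i f (b :: w) = f (Lt.eps i :: ⟨b.1 - Finsupp.single i 1, h2⟩ :: w) := by
  rw [hfn, if_neg h, dif_neg h2]

theorem mfn_add (f g : Fn I) (a : Lt I) : mfn (f + g) a = mfn f a + mfn g a := by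
  funext v
  cases v with
  | nil => simp [mfn]
  | cons b w => rfl

theorem sh_add (f g : Fn I) (a : Lt I) : sh (f + g) a = sh f a + sh g a := rfl

theorem dfn_add (f g : Fn I) (w : List (Lt I)) : dfn (f + g) w = dfn f w + dfn g w := by
  induction w generalizing f g with
  | nil => simp [dfn_nil]
  | cons a v ih =>
    rw [dfn_cons, dfn_cons, dfn_cons, mfn_add, sh_add, ih]
    simp only [Pi.add_apply]
    ring

theorem dfn_zero (w : List (Lt I)) : dfn (0 : Fn I) w = 0 := by
  have := dfn_add (0 : Fn I) 0 w
  rw [add_zero] at this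
  exact left_eq_add.1 this

theorem hfn_add (i : I) (f g : Fn I) (w : List (Lt I)) :
    hfn i (f + g) w = hfn i f w + hfn i g w := by
  induction w generalizing f g with
  | nil => simp [hfn_nil]
  | cons a v ih =>
    by_cases h : a.1 i = 0
    · rw [hfn_zero_of i _ a v h, hfn_zero_of i _ a v h, hfn_zero_of i _ a v h, sh_add, ih]
    · by_cases h2 : a.1 - Finsupp.single i 1 = 0
      · rw [hfn_eps i _ a v h h2, hfn_eps i _ a v h h2, hfn_eps i _ a v h h2, add_zero]
      · rw [hfn_ne i _ a v h h2, hfn_ne i _ a v h h2, hfn_ne i _ a v h h2, Pi.add_apply]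

theorem hfn_zero (i : I) (w : List (Lt I)) : hfn i (0 : Fn I) w = 0 := by
  have := hfn_add i (0 : Fn I) 0 w
  rw [add_zero] at this
  exact left_eq_add.1 this

/-- `K = 1 + Dw h + h Dw` -/
noncomputable def kfn (i : I) (f : Fn I) : Fn I := fun w => f w + dfn (hfn i f) w + hfn i (dfn f) w

theorem sh_dfn (f : Fn I) (a : Lt I) : sh (dfn f) a = mfn f a + dfn (sh f a) := by
  funext v
  exact dfn_cons f a v

theorem sh_hfn (i : I) (f : Fn I) (a : Lt I) (h : a.1 i = 0) : sh (hfn i f) a = hfn i (sh f a) := by
  funext v
  exact hfn_zero_of i f a v h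

theorem ad_apply (a b : Lt I) (i : I) : (ad a b).1 i = a.1 i + b.1 i := rfl

theorem ad_val (a b : Lt I) : (ad a b).1 = a.1 + b.1 := rfl

theorem eps_val (i : I) : (Lt.eps i).1 = Finsupp.single i 1 := rfl

theorem eps_apply (i : I) : (Lt.eps i).1 i = 1 := by rw [eps_val, Finsupp.single_eq_same]

theorem sub_add (i : I) (a : I →₀ ℕ) (h : a i ≠ 0) :
    Finsupp.single i 1 + (a - Finsupp.single i 1) = a := by
  ext k
  by_cases hk : k = i
  · subst hk
    simp only [Finsupp.add_apply, Finsupp.tsub_apply, Finsupp.single_eq_same]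
    omega
  · simp [Ne.symm hk]

theorem eq_eps (i : I) (a : Lt I) (h : a.1 i ≠ 0) (h2 : a.1 - Finsupp.single i 1 = 0) :
    a = Lt.eps i := by
  apply Subtype.ext
  rw [eps_val, ← sub_add i a.1 h, h2, add_zero]

/-- non-exceptional words which begin with a letter containing `i` -/
def Zo (i : I) (f : Fn I) : Prop :=
  ∀ (a : Lt I) (v : List (Lt I)), a.1 i ≠ 0 → ¬ (a = Lt.eps i ∧ v = []) → f (a :: v) = 0

theorem two (x : ZMod 2) : x + x = 0 := CharTwo.add_self_eq_zero x

theorem kfn_A (i : I) (f : Fn I) : Zo i (kfn i f) := by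
  intro a v ha hv
  show f (a :: v) + dfn (hfn i f) (a :: v) + hfn i (dfn f) (a :: v) = 0
  by_cases h2 : a.1 - Finsupp.single i 1 = 0
  · have hae := eq_eps i a ha h2
    cases v with
    | nil => exact absurd ⟨hae, rfl⟩ hv
    | cons b w =>
      have h3 : sh (hfn i f) a = 0 := by
        funext v
        exact hfn_eps i f a v ha h2
      have h4 : (ad a b).1 i ≠ 0 := by rw [ad_apply]; omega
      have h5 : (ad a b).1 - Finsupp.single i 1 = b.1 := by
        rw [ad_val, hae, eps_val]
        ext k
        simp
      have h6 : (ad a b).1 - Finsupp.single i 1 ≠ 0 := by rw [h5]; exact b.2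
      rw [dfn_cons, hfn_eps i _ a _ ha h2, h3, dfn_zero, add_zero, add_zero]
      show f (a :: b :: w) + hfn i f (ad a b :: w) = 0
      rw [hfn_ne i f _ w h4 h6]
      have h7 : (⟨(ad a b).1 - Finsupp.single i 1, h6⟩ : Lt I) = b := Subtype.ext h5
      rw [h7, ← hae]
      exact two _
  · have h3 : sh (hfn i f) a = sh (sh f (Lt.eps i)) ⟨a.1 - Finsupp.single i 1, h2⟩ := by
      funext v
      exact hfn_ne i f a v ha h2
    have h4 : ad (Lt.eps i) ⟨a.1 - Finsupp.single i 1, h2⟩ = a := Subtype.ext (sub_add i a.1 ha)
    rw [dfn_cons, h3, hfn_ne i _ a v ha h2, dfn_cons, dfn_cons]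
    have h5 : mfn f (Lt.eps i) (⟨a.1 - Finsupp.single i 1, h2⟩ :: v) = f (a :: v) := by
      show f (ad (Lt.eps i) ⟨a.1 - Finsupp.single i 1, h2⟩ :: v) = f (a :: v)
      rw [h4]
    rw [h5]
    have h6 : mfn (hfn i f) a v = mfn (sh f (Lt.eps i)) ⟨a.1 - Finsupp.single i 1, h2⟩ v := by
      cases v with
      | nil => rfl
      | cons b w =>
        show hfn i f (ad a b :: w) = f (Lt.eps i :: ad ⟨a.1 - Finsupp.single i 1, h2⟩ b :: w)
        have h7 : (ad a b).1 i ≠ 0 := by rw [ad_apply]; omega
        have h9 : (ad a b).1 - Finsupp.single i 1 = (ad ⟨a.1 - Finsupp.single i 1, h2⟩ b).1 := by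
          rw [ad_val, ad_val]
          ext k
          have h10 := DFunLike.congr_fun (sub_add i a.1 ha) k
          simp only [Finsupp.add_apply, Finsupp.tsub_apply] at h10 ⊢
          omega
        have h8 : (ad a b).1 - Finsupp.single i 1 ≠ 0 := by rw [h9]; exact (ad _ b).2
        rw [hfn_ne i f _ w h7 h8]
        have h11 : (⟨(ad a b).1 - Finsupp.single i 1, h8⟩ : Lt I) =
            ad ⟨a.1 - Finsupp.single i 1, h2⟩ b := Subtype.ext h9
        rw [h11]
    rw [h6]
    generalize f (a :: v) = A
    generalize mfn (sh f (Lt.eps i)) ⟨a.1 - Finsupp.single i 1, h2⟩ v = B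
    generalize dfn (sh (sh f (Lt.eps i)) ⟨a.1 - Finsupp.single i 1, h2⟩) v = C
    have : A + (B + C) + (A + (B + C)) = 0 := two _
    linear_combination this

theorem kfn_B (i : I) (f : Fn I) (hf : Zo i f) (a : Lt I) (ha : a.1 i = 0) :
    sh (kfn i f) a = kfn i (sh f a) := by
  funext v
  show f (a :: v) + dfn (hfn i f) (a :: v) + hfn i (dfn f) (a :: v) =
    f (a :: v) + dfn (hfn i (sh f a)) v + hfn i (dfn (sh f a)) v
  rw [dfn_cons, sh_hfn i f a ha, hfn_zero_of i _ a v ha, sh_dfn, hfn_add]
  have key : mfn (hfn i f) a v + hfn i (mfn f a) v = 0 := by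
    cases v with
    | nil => rw [hfn_nil, add_zero]; rfl
    | cons b w =>
      show hfn i f (ad a b :: w) + hfn i (mfn f a) (b :: w) = 0
      by_cases hb : b.1 i = 0
      · have h1 : (ad a b).1 i = 0 := by rw [ad_apply, ha, hb]
        rw [hfn_zero_of i _ _ w h1, hfn_zero_of i _ b w hb]
        exact two _
      · have h1 : (ad a b).1 i ≠ 0 := by rw [ad_apply]; omega
        have h2 : hfn i f (ad a b :: w) = 0 := by
          by_cases h3 : (ad a b).1 - Finsupp.single i 1 = 0
          · exact hfn_eps i _ _ w h1 h3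
          · rw [hfn_ne i _ _ w h1 h3]
            apply hf
            · rw [eps_apply]; exact one_ne_zero
            · rintro ⟨_, h4⟩
              exact List.cons_ne_nil _ _ h4
        have h5 : hfn i (mfn f a) (b :: w) = 0 := by
          by_cases h3 : b.1 - Finsupp.single i 1 = 0
          · exact hfn_eps i _ _ w hb h3
          · rw [hfn_ne i _ _ w hb h3]
            show f (ad a (Lt.eps i) :: _ :: w) = 0
            apply hf
            · rw [ad_apply, eps_apply]; omega
            · rintro ⟨_, h4⟩
              exact List.cons_ne_nil _ _ h4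
        rw [h2, h5, add_zero]
  linear_combination key

/-- vanishing on the non-exceptional words with the first letter containing `i` in position `< n` -/
def Zp (i : I) : ℕ → Fn I → Prop
  | 0, _ => True
  | n + 1, f => Zo i f ∧ ∀ a : Lt I, a.1 i = 0 → Zp i n (sh f a)

theorem Zp_kfn (i : I) (n : ℕ) (f : Fn I) (h : Zp i n f) : Zp i (n + 1) (kfn i f) := by
  induction n generalizing f with
  | zero => exact ⟨kfn_A i f, fun _ _ => trivial⟩
  | succ n ih =>
    refine ⟨kfn_A i f, fun a ha => ?_⟩
    rw [kfn_B i f h.1 a ha]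
    exact ih _ (h.2 a ha)

/-- sum of the letters -/
noncomputable def tot (w : List (Lt I)) : I →₀ ℕ := (w.map Subtype.val).sum

theorem tot_nil : tot ([] : List (Lt I)) = 0 := rfl

theorem tot_cons (a : Lt I) (w : List (Lt I)) : tot (a :: w) = a.1 + tot w := by
  simp [tot]

theorem tot_append (v w : List (Lt I)) : tot (v ++ w) = tot v + tot w := by
  simp [tot]

theorem Zp_end (i : I) (n : ℕ) (f : Fn I) (h : Zp i n f) (w : List (Lt I)) (hw : w.length = n)
    (hf : f w ≠ 0) : tot w i = 0 ∨ ∃ u, tot u i = 0 ∧ w = u ++ [Lt.eps i] := by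
  induction w generalizing f n with
  | nil => left; rfl
  | cons a v ih =>
    obtain ⟨m, rfl⟩ : ∃ m, n = m + 1 := ⟨v.length, by rw [← hw]; rfl⟩
    by_cases ha : a.1 i = 0
    · rcases ih m (sh f a) (h.2 a ha) (by simpa using hw) hf with h1 | ⟨u, h1, h2⟩
      · left
        rw [tot_cons, Finsupp.add_apply, ha, h1]
      · right
        refine ⟨a :: u, ?_, ?_⟩
        · rw [tot_cons, Finsupp.add_apply, ha, h1]
        · rw [h2]; rfl
    · by_cases hav : a = Lt.eps i ∧ v = []
      · right
        refine ⟨[], rfl, ?_⟩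
        rw [hav.1, hav.2]; rfl
      · exact absurd (h.1 a v ha hav) hf

theorem mfn_supp (f : Fn I) (a : Lt I) (v : List (Lt I)) (h : mfn f a v ≠ 0) :
    ∃ L, f L ≠ 0 ∧ L.length + 1 = (a :: v).length ∧ tot L = tot (a :: v) := by
  cases v with
  | nil => exact absurd rfl h
  | cons b w =>
    refine ⟨ad a b :: w, h, rfl, ?_⟩
    rw [tot_cons, tot_cons, tot_cons, ad_val, add_assoc]

theorem dfn_supp (f : Fn I) (w : List (Lt I)) (h : dfn f w ≠ 0) :
    ∃ L, f L ≠ 0 ∧ L.length + 1 = w.length ∧ tot L = tot w := by
  induction w generalizing f with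
  | nil => exact absurd (dfn_nil f) h
  | cons a v ih =>
    rw [dfn_cons] at h
    by_cases h1 : mfn f a v = 0
    · rw [h1, zero_add] at h
      obtain ⟨L, h2, h3, h4⟩ := ih _ h
      refine ⟨a :: L, h2, ?_, ?_⟩
      · simp only [List.length_cons]; omega
      · rw [tot_cons, tot_cons, h4]
    · exact mfn_supp f a v h1

/-- merging -/
noncomputable def gm (i : I) : List (Lt I) → List (Lt I)
  | [] => []
  | [b] => [b]
  | b :: c :: w => by
    classical
    exact if b.1 i = 0 then b :: gm i (c :: w) else ad b c :: w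

theorem gm_cons (i : I) (b : Lt I) (hb : b.1 i = 0) (w : List (Lt I)) :
    gm i (b :: w) = b :: gm i w := by
  cases w with
  | nil => rfl
  | cons c w => rw [gm, if_pos hb]

theorem hfn_supp (i : I) (f : Fn I) (w : List (Lt I)) (h : hfn i f w ≠ 0) :
    ∃ L, f L ≠ 0 ∧ gm i L = w ∧ L.length = w.length + 1 ∧ tot L = tot w := by
  induction w generalizing f with
  | nil => exact absurd (hfn_nil i f) h
  | cons a v ih =>
    by_cases ha : a.1 i = 0
    · rw [hfn_zero_of i f a v ha] at h
      obtain ⟨L, h2, h3, h4, h5⟩ := ih _ h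
      refine ⟨a :: L, h2, ?_, ?_, ?_⟩
      · rw [gm_cons i a ha, h3]
      · simp only [List.length_cons]; omega
      · rw [tot_cons, tot_cons, h5]
    · by_cases h2 : a.1 - Finsupp.single i 1 = 0
      · exact absurd (hfn_eps i f a v ha h2) h
      · rw [hfn_ne i f a v ha h2] at h
        refine ⟨_, h, ?_, rfl, ?_⟩
        · have h3 : ¬ ((Lt.eps i).1 i = 0) := by rw [eps_apply]; exact one_ne_zero
          rw [gm, if_neg h3]
          congr 1
          exact Subtype.ext (sub_add i a.1 ha)
        · rw [tot_cons, tot_cons, tot_cons, ← add_assoc]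
          congr 1
          exact sub_add i a.1 ha

/-- the homotopy for combinations of words -/
noncomputable def hop (i : I) (x : Wd (Lt I)) : Wd (Lt I) :=
  Finsupp.ofSupportFinite (hfn i x) (by
    refine Set.Finite.subset (x.support.finite_toSet.image (gm i)) ?_
    intro w hw
    obtain ⟨L, h1, h2, _, _⟩ := hfn_supp i x w hw
    exact ⟨L, by simpa using h1, h2⟩)

theorem hop_apply (i : I) (x : Wd (Lt I)) : (hop i x : Fn I) = hfn i x := rfl

/-! ### the coefficients of `Dw` -/

theorem lc_apply_cons {B : Type} (y : B →₀ ZMod 2) (x : Wd B) (a : B) (v : List B) :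
    lc y x (a :: v) = y a * x v := by
  classical
  induction y using Finsupp.induction_linear with
  | zero => simp
  | add f g hf hg =>
    rw [map_add, LinearMap.add_apply, Finsupp.add_apply, hf, hg, Finsupp.add_apply, add_mul]
  | single b r =>
    rw [lc, Finsupp.linearCombination_single, LinearMap.smul_apply, Finsupp.smul_apply,
      Finsupp.lmapDomain_apply, Finsupp.single_apply, smul_eq_mul]
    by_cases hb : b = a
    · rw [if_pos hb, hb, Finsupp.mapDomain_apply List.cons_injective]
    · rw [if_neg hb, Finsupp.mapDomain_of_notMem_range, mul_zero, zero_mul]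
      rintro ⟨u, hu⟩
      exact hb (List.cons_eq_cons.1 hu).1

theorem lc_apply_nil {B : Type} (y : B →₀ ZMod 2) (x : Wd B) : lc y x [] = 0 := by
  induction y using Finsupp.induction_linear with
  | zero => simp
  | add f g hf hg =>
    rw [map_add, LinearMap.add_apply, Finsupp.add_apply, hf, hg, add_zero]
  | single b r =>
    rw [lc, Finsupp.linearCombination_single, LinearMap.smul_apply, Finsupp.smul_apply,
      Finsupp.lmapDomain_apply, Finsupp.mapDomain_of_notMem_range, smul_zero]
    rintro ⟨u, hu⟩
    exact List.cons_ne_nil _ _ hu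

theorem lc2_apply_cons {B : Type} (y : B × B →₀ ZMod 2) (x : Wd B) (a b : B) (v : List B) :
    lc2 y x (a :: b :: v) = y (a, b) * x v := by
  classical
  induction y using Finsupp.induction_linear with
  | zero => simp
  | add f g hf hg =>
    rw [map_add, LinearMap.add_apply, Finsupp.add_apply, hf, hg, Finsupp.add_apply, add_mul]
  | single p r =>
    rw [lc2, Finsupp.linearCombination_single, LinearMap.smul_apply, Finsupp.smul_apply,
      Finsupp.lmapDomain_apply, Finsupp.single_apply, smul_eq_mul]
    have hinj : Function.Injective (fun w : List B => p.1 :: p.2 :: w) := by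
      intro u w h
      exact (List.cons_eq_cons.1 (List.cons_eq_cons.1 h).2).2
    by_cases hb : p = (a, b)
    · rw [if_pos hb]
      congr 1
      have h1 : (a :: b :: v) = (fun w : List B => p.1 :: p.2 :: w) v := by rw [hb]
      rw [h1, Finsupp.mapDomain_apply hinj]
    · rw [if_neg hb, Finsupp.mapDomain_of_notMem_range, mul_zero, zero_mul]
      rintro ⟨u, hu⟩
      have h1 := List.cons_eq_cons.1 hu
      exact hb (Prod.ext h1.1 (List.cons_eq_cons.1 h1.2).1)

theorem lc2_apply_nil {B : Type} (y : B × B →₀ ZMod 2) (x : Wd B) : lc2 y x [] = 0 := by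
  induction y using Finsupp.induction_linear with
  | zero => simp
  | add f g hf hg =>
    rw [map_add, LinearMap.add_apply, Finsupp.add_apply, hf, hg, add_zero]
  | single b r =>
    rw [lc2, Finsupp.linearCombination_single, LinearMap.smul_apply, Finsupp.smul_apply,
      Finsupp.lmapDomain_apply, Finsupp.mapDomain_of_notMem_range, smul_zero]
    rintro ⟨u, hu⟩
    exact List.cons_ne_nil _ _ hu

theorem lc2_apply_one {B : Type} (y : B × B →₀ ZMod 2) (x : Wd B) (a : B) : lc2 y x [a] = 0 := by
  induction y using Finsupp.induction_linear with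
  | zero => simp
  | add f g hf hg =>
    rw [map_add, LinearMap.add_apply, Finsupp.add_apply, hf, hg, add_zero]
  | single b r =>
    rw [lc2, Finsupp.linearCombination_single, LinearMap.smul_apply, Finsupp.smul_apply,
      Finsupp.lmapDomain_apply, Finsupp.mapDomain_of_notMem_range, smul_zero]
    rintro ⟨u, hu⟩
    exact List.cons_ne_nil _ _ (List.cons_eq_cons.1 hu).2

theorem DwW_apply (L w : List (Lt I)) : DwW L w = dfn (⇑(Finsupp.single L 1 : Wd (Lt I))) w := by
  classical
  induction L generalizing w with
  | nil =>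
    rw [DwW]
    cases w with
    | nil => rw [dfn_nil]; rfl
    | cons a v =>
      have h1 : mfn (⇑(Finsupp.single [] 1 : Wd (Lt I))) a v = 0 := by
        cases v with
        | nil => rfl
        | cons b w =>
          show (Finsupp.single [] 1 : Wd (Lt I)) (ad a b :: w) = 0
          rw [Finsupp.single_apply, if_neg (List.cons_ne_nil _ _).symm]
      have h2 : sh (⇑(Finsupp.single [] 1 : Wd (Lt I))) a = 0 := by
        funext v
        show (Finsupp.single [] 1 : Wd (Lt I)) (a :: v) = 0
        rw [Finsupp.single_apply, if_neg (List.cons_ne_nil _ _).symm]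
      rw [dfn_cons, h1, h2, dfn_zero, add_zero]
      rfl
  | cons c L ih =>
    rw [DwW, Finsupp.add_apply]
    cases w with
    | nil => rw [lc2_apply_nil, lc_apply_nil, dfn_nil, add_zero]
    | cons a v =>
      rw [dfn_cons, lc_apply_cons, ih]
      congr 1
      · cases v with
        | nil => rw [lc2_apply_one]; rfl
        | cons b w =>
          rw [lc2_apply_cons]
          show c.cop (a, b) * (Finsupp.single L 1 : Wd (Lt I)) w =
            (Finsupp.single (c :: L) 1 : Wd (Lt I)) (ad a b :: w)
          by_cases hc : a.1 + b.1 = c.1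
          · have h1 : ad a b = c := Subtype.ext hc
            rw [cop_apply_eq _ _ _ hc, h1, one_mul, Finsupp.single_apply, Finsupp.single_apply]
            simp
          · have h1 : ¬ (c :: L = ad a b :: w) := by
              intro h
              exact hc (Subtype.ext_iff.1 (List.cons_eq_cons.1 h).1).symm
            rw [cop_apply_ne _ _ _ hc, zero_mul, Finsupp.single_apply, if_neg h1]
      · by_cases hc : c = a
        · subst hc
          have h1 : sh (⇑(Finsupp.single (c :: L) 1 : Wd (Lt I))) c =
              ⇑(Finsupp.single L 1 : Wd (Lt I)) := by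
            funext v
            show (Finsupp.single (c :: L) 1 : Wd (Lt I)) (c :: v) = _
            rw [Finsupp.single_apply, Finsupp.single_apply]
            simp
          rw [h1, Finsupp.single_eq_same, one_mul]
        · have h1 : sh (⇑(Finsupp.single (c :: L) 1 : Wd (Lt I))) a = 0 := by
            funext v
            show (Finsupp.single (c :: L) 1 : Wd (Lt I)) (a :: v) = 0
            rw [Finsupp.single_apply, if_neg]
            intro h
            exact hc (List.cons_eq_cons.1 h).1
          rw [h1, dfn_zero, Finsupp.single_apply, if_neg hc, zero_mul]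

theorem Dw_single (L : List (Lt I)) : Dw (Finsupp.single L 1) = DwW L := by
  rw [Dw, Finsupp.linearCombination_single, one_smul]

theorem Dw_apply (x : Wd (Lt I)) : ⇑(Dw x) = dfn ⇑x := by
  funext w
  induction x using Finsupp.induction_linear with
  | zero =>
    rw [map_zero, Finsupp.coe_zero, dfn_zero]
    rfl
  | add f g hf hg => rw [map_add, Finsupp.add_apply, hf, hg, Finsupp.coe_add, dfn_add]
  | single L r =>
    have hr : r = 0 ∨ r = 1 := by
      revert r
      decide
    rcases hr with rfl | rfl
    · rw [Finsupp.single_zero, map_zero, Finsupp.coe_zero, dfn_zero]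
      rfl
    · rw [Dw_single, DwW_apply]

/-! ### right multiplication by a primitive letter -/

/-- right multiplication -/
noncomputable def rm {B : Type} (b : B) : Wd B →ₗ[ZMod 2] Wd B :=
  Finsupp.lmapDomain (ZMod 2) (ZMod 2) (fun u => u ++ [b])

theorem rm_inj {B : Type} (b : B) : Function.Injective (fun u : List B => u ++ [b]) :=
  List.append_left_injective [b]

theorem rm_injective {B : Type} (b : B) : Function.Injective (rm b) :=
  Finsupp.mapDomain_injective (rm_inj b)

theorem rm_apply {B : Type} (b : B) (x : Wd B) (u : List B) : rm b x (u ++ [b]) = x u :=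
  Finsupp.mapDomain_apply (rm_inj b) x u

theorem rm_supp {B : Type} (b : B) (x : Wd B) (w : List B) (h : rm b x w ≠ 0) :
    ∃ u, w = u ++ [b] ∧ x u ≠ 0 := by
  by_cases hw : ∃ u, u ++ [b] = w
  · obtain ⟨u, rfl⟩ := hw
    rw [rm_apply] at h
    exact ⟨u, rfl, h⟩
  · exact absurd (Finsupp.mapDomain_of_notMem_range x w (by rintro ⟨u, hu⟩; exact hw ⟨u, hu⟩)) h

theorem rm_lc {B : Type} (c : B) (y : B →₀ ZMod 2) (x : Wd B) : rm c (lc y x) = lc y (rm c x) := by
  induction y using Finsupp.induction_linear with
  | zero => simp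
  | add f g hf hg => simp only [map_add, LinearMap.add_apply, hf, hg]
  | single b r =>
    rw [lc, Finsupp.linearCombination_single, LinearMap.smul_apply, LinearMap.smul_apply, map_smul]
    congr 1
    rw [rm, Finsupp.lmapDomain_apply, Finsupp.lmapDomain_apply, Finsupp.lmapDomain_apply,
      Finsupp.lmapDomain_apply, ← Finsupp.mapDomain_comp, ← Finsupp.mapDomain_comp]
    rfl

theorem rm_lc2 {B : Type} (c : B) (y : B × B →₀ ZMod 2) (x : Wd B) :
    rm c (lc2 y x) = lc2 y (rm c x) := by
  induction y using Finsupp.induction_linear with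
  | zero => simp
  | add f g hf hg => simp only [map_add, LinearMap.add_apply, hf, hg]
  | single b r =>
    rw [lc2, Finsupp.linearCombination_single, LinearMap.smul_apply, LinearMap.smul_apply, map_smul]
    congr 1
    rw [rm, Finsupp.lmapDomain_apply, Finsupp.lmapDomain_apply, Finsupp.lmapDomain_apply,
      Finsupp.lmapDomain_apply, ← Finsupp.mapDomain_comp, ← Finsupp.mapDomain_comp]
    rfl

theorem rm_single {B : Type} (c : B) (w : List B) (r : ZMod 2) :
    rm c (Finsupp.single w r) = Finsupp.single (w ++ [c]) r := by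
  rw [rm, Finsupp.lmapDomain_apply, Finsupp.mapDomain_single]

theorem cop_eps (i : I) : (Lt.eps i).cop = 0 := by
  have h := copL_em (Finsupp.single i 1 : I →₀ ZMod 2)
  rw [Lt.em, Finsupp.lmapDomain_apply, Finsupp.mapDomain_single, Lt.copL,
    Finsupp.linearCombination_single, one_smul] at h
  exact h

theorem DwW_rm (i : I) (w : List (Lt I)) : DwW (w ++ [Lt.eps i]) = rm (Lt.eps i) (DwW w) := by
  induction w with
  | nil =>
    show DwW [Lt.eps i] = rm (Lt.eps i) (DwW [])
    simp only [DwW, cop_eps, map_zero, LinearMap.zero_apply, add_zero]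
  | cons b w ih =>
    show DwW (b :: (w ++ [Lt.eps i])) = rm (Lt.eps i) (DwW (b :: w))
    rw [DwW, DwW, map_add, rm_lc, rm_lc2, ih, rm_single]

theorem Dw_rm (i : I) (x : Wd (Lt I)) : Dw (rm (Lt.eps i) x) = rm (Lt.eps i) (Dw x) := by
  have h : (Dw : Wd (Lt I) →ₗ[ZMod 2] Wd (Lt I)).comp (rm (Lt.eps i)) = (rm (Lt.eps i)).comp Dw := by
    apply Finsupp.lhom_ext'
    intro w
    apply LinearMap.ext_ring
    show Dw (rm (Lt.eps i) (Finsupp.single w 1)) = rm (Lt.eps i) (Dw (Finsupp.single w 1))
    rw [rm_single, Dw_single, Dw_single, DwW_rm]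
  exact DFunLike.congr_fun h x

theorem emW_rm (i : I) (p : Wd I) : emW (rm i p) = rm (Lt.eps i) (emW p) := by
  rw [emW, rm, rm, Finsupp.lmapDomain_apply, Finsupp.lmapDomain_apply, Finsupp.lmapDomain_apply,
      Finsupp.lmapDomain_apply, ← Finsupp.mapDomain_comp, ← Finsupp.mapDomain_comp]
  congr 1
  funext u
  simp

theorem iter (i : I) (q : ℕ) (J : Finset I) (x : Wd (Lt I))
    (hx : ∀ w, x w ≠ 0 → w.length = q ∧ (tot w).support ⊆ J) (h : Dw x = 0) (n : ℕ) :
    ∃ z : Wd (Lt I), (∀ w, z w ≠ 0 → w.length + 1 = q ∧ (tot w).support ⊆ J) ∧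
      Zp i n (⇑(x + Dw z)) := by
  induction n with
  | zero => exact ⟨0, fun w hw => absurd rfl hw, trivial⟩
  | succ n ih =>
    obtain ⟨z, hz, hZ⟩ := ih
    have hD : Dw (x + Dw z) = 0 := by rw [map_add, h, Dw_Dw, add_zero]
    refine ⟨z + hop i (x + Dw z), ?_, ?_⟩
    · intro w hw
      by_cases h1 : z w = 0
      · rw [Finsupp.add_apply, h1, zero_add, hop_apply] at hw
        obtain ⟨L, h2, _, h3, h4⟩ := hfn_supp i _ w hw
        have h5 : L.length = q ∧ (tot L).support ⊆ J := by
          by_cases h6 : x L = 0
          · rw [Finsupp.add_apply, h6, zero_add, Dw_apply] at h2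
            obtain ⟨M, h7, h8, h9⟩ := dfn_supp _ L h2
            have h10 := hz M h7
            exact ⟨by omega, by rw [← h9]; exact h10.2⟩
          · exact hx L h6
        exact ⟨by omega, by rw [← h4]; exact h5.2⟩
      · exact hz w h1
    · have h1 : (⇑(x + Dw (z + hop i (x + Dw z))) : Fn I) = kfn i (⇑(x + Dw z)) := by
        funext w
        rw [map_add, ← add_assoc, Finsupp.add_apply, Dw_apply (hop i _), hop_apply]
        show _ = (x + Dw z) w + dfn (hfn i ⇑(x + Dw z)) w + hfn i (dfn ⇑(x + Dw z)) w
        rw [← Dw_apply (x + Dw z), hD, Finsupp.coe_zero, hfn_zero, add_zero]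
      rw [h1]
      exact Zp_kfn i n _ hZ

theorem main (J : Finset I) : ∀ (q : ℕ) (x : Wd (Lt I)),
    (∀ w, x w ≠ 0 → w.length = q ∧ (tot w).support ⊆ J) → Dw x = 0 →
    ∃ (p : Wd I) (x' : Wd (Lt I)), (∀ w, p w ≠ 0 → w.length = q) ∧
      (∀ w, x' w ≠ 0 → w.length + 1 = q) ∧ x = emW p + Dw x' := by
  classical
  have h00 : ∀ x : Wd (Lt I), (∀ w, x w ≠ 0 → w = []) → x = emW (Finsupp.single [] (x [])) := by
    intro x hx
    rw [emW, Finsupp.lmapDomain_apply, Finsupp.mapDomain_single]
    ext w
    by_cases hw : w = []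
    · rw [hw]; simp
    · rw [Finsupp.single_apply, if_neg (fun h => hw (by rw [← h]; rfl))]
      by_contra h1
      exact hw (hx w h1)
  induction J using Finset.induction_on with
  | empty =>
    intro q x hx _
    have h1 : ∀ w, x w ≠ 0 → w = [] := by
      intro w hw
      have h2 := (hx w hw).2
      have h3 : tot w = 0 := by
        rw [← Finsupp.support_eq_empty]
        exact Finset.subset_empty.1 h2
      cases w with
      | nil => rfl
      | cons a v =>
        exfalso
        apply a.2
        rw [tot_cons] at h3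
        ext k
        have h4 := DFunLike.congr_fun h3 k
        simp only [Finsupp.add_apply, Finsupp.zero_apply] at h4 ⊢
        omega
    refine ⟨Finsupp.single [] (x []), 0, ?_, fun w hw => absurd rfl hw, ?_⟩
    · intro w hw
      by_cases h2 : w = []
      · rw [h2, Finsupp.single_eq_same] at hw
        rw [h2]
        exact (hx [] hw).1
      · rw [Finsupp.single_apply, if_neg (Ne.symm h2)] at hw
        exact absurd rfl hw
    · rw [map_zero, add_zero]
      exact h00 x h1
  | insert i J hi ih =>
    intro q x hx hD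
    cases q with
    | zero =>
      refine ⟨Finsupp.single [] (x []), 0, ?_, fun w hw => absurd rfl hw, ?_⟩
      · intro w hw
        by_cases h2 : w = []
        · rw [h2]; rfl
        · rw [Finsupp.single_apply, if_neg (Ne.symm h2)] at hw
          exact absurd rfl hw
      · rw [map_zero, add_zero]
        exact h00 x fun w hw => List.length_eq_zero_iff.1 (hx w hw).1
    | succ q =>
      obtain ⟨z, hz, hZ⟩ := iter i (q + 1) _ x hx hD (q + 1)
      obtain ⟨xn, hxn⟩ : ∃ xn, xn = x + Dw z := ⟨_, rfl⟩
      rw [← hxn] at hZ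
      have hDn : Dw xn = 0 := by rw [hxn, map_add, hD, Dw_Dw, add_zero]
      have hsn : ∀ w, xn w ≠ 0 → w.length = q + 1 ∧ (tot w).support ⊆ insert i J := by
        intro w hw
        rw [hxn, Finsupp.add_apply] at hw
        by_cases h1 : x w = 0
        · rw [h1, zero_add, Dw_apply] at hw
          obtain ⟨M, h7, h8, h9⟩ := dfn_supp _ w hw
          have h10 := hz M h7
          exact ⟨by omega, by rw [← h9]; exact h10.2⟩
        · exact hx w h1
      have hend : ∀ w, xn w ≠ 0 → tot w i = 0 ∨ ∃ u, tot u i = 0 ∧ w = u ++ [Lt.eps i] :=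
        fun w hw => Zp_end i (q + 1) _ hZ w (hsn w hw).1 hw
      have htot : ∀ u : List (Lt I), tot (u ++ [Lt.eps i]) i = tot u i + 1 := by
        intro u
        rw [tot_append, Finsupp.add_apply, tot_cons, tot_nil, add_zero, eps_apply]
      -- the two parts
      obtain ⟨y, hy⟩ : ∃ y : Wd (Lt I), ∀ u, y u = xn (u ++ [Lt.eps i]) :=
        ⟨Finsupp.comapDomain (fun u => u ++ [Lt.eps i]) xn (rm_inj _).injOn, fun u => rfl⟩
      obtain ⟨x2, hx2⟩ : ∃ x2 : Wd (Lt I), ∀ w, x2 w = if tot w i = 0 then xn w else 0 :=
        ⟨xn.filter (fun w => tot w i = 0), fun w => Finsupp.filter_apply _ _ _⟩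
      have hdec : xn = x2 + rm (Lt.eps i) y := by
        ext w
        rw [Finsupp.add_apply, hx2]
        by_cases h1 : tot w i = 0
        · rw [if_pos h1]
          have h2 : rm (Lt.eps i) y w = 0 := by
            by_contra h3
            obtain ⟨u, h4, _⟩ := rm_supp _ _ _ h3
            rw [h4, htot] at h1
            omega
          rw [h2, add_zero]
        · rw [if_neg h1, zero_add]
          by_cases h2 : ∃ u, w = u ++ [Lt.eps i]
          · obtain ⟨u, rfl⟩ := h2
            rw [rm_apply, hy]
          · have h3 : rm (Lt.eps i) y w = 0 := by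
              by_contra h3
              obtain ⟨u, h4, _⟩ := rm_supp _ _ _ h3
              exact h2 ⟨u, h4⟩
            rw [h3]
            by_contra h4
            rcases hend w h4 with h5 | ⟨u, _, h5⟩
            · exact h1 h5
            · exact h2 ⟨u, h5⟩
      have hD2 : Dw x2 + rm (Lt.eps i) (Dw y) = 0 := by
        rw [← Dw_rm, ← map_add, ← hdec, hDn]
      have hx2D : Dw x2 = 0 := by
        ext w
        by_cases h1 : tot w i = 0
        · have h2 : rm (Lt.eps i) (Dw y) w = 0 := by
            by_contra h3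
            obtain ⟨u, h4, _⟩ := rm_supp _ _ _ h3
            rw [h4, htot] at h1
            omega
          have h3 := DFunLike.congr_fun hD2 w
          rw [Finsupp.add_apply, h2, add_zero] at h3
          exact h3
        · by_contra h2
          rw [Finsupp.zero_apply, Dw_apply] at h2
          obtain ⟨M, h7, _, h9⟩ := dfn_supp _ w h2
          rw [hx2] at h7
          by_cases h10 : tot M i = 0
          · rw [h9] at h10
            exact h1 h10
          · rw [if_neg h10] at h7
            exact h7 rfl
      have hyD : Dw y = 0 := by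
        rw [hx2D, zero_add] at hD2
        exact rm_injective (Lt.eps i) (by rw [hD2, map_zero])
      have hx2s : ∀ w, x2 w ≠ 0 → w.length = q + 1 ∧ (tot w).support ⊆ J := by
        intro w hw
        rw [hx2] at hw
        by_cases h1 : tot w i = 0
        · rw [if_pos h1] at hw
          refine ⟨(hsn w hw).1, fun k hk => ?_⟩
          have h2 := (hsn w hw).2 hk
          rcases Finset.mem_insert.1 h2 with h3 | h3
          · rw [h3] at hk
            exact absurd h1 (Finsupp.mem_support_iff.1 hk)
          · exact h3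
        · rw [if_neg h1] at hw
          exact absurd rfl hw
      have hys : ∀ w, y w ≠ 0 → w.length = q ∧ (tot w).support ⊆ J := by
        intro u hu
        rw [hy] at hu
        have h1 := hsn _ hu
        have h2 : tot u i = 0 := by
          rcases hend _ hu with h3 | ⟨u', h3, h4⟩
          · rw [htot] at h3
            omega
          · have h5 := rm_inj (Lt.eps i) h4
            rw [h5]
            exact h3
        refine ⟨?_, fun k hk => ?_⟩
        · have h3 := h1.1
          rw [List.length_append] at h3
          simpa using h3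
        · have h3 : k ∈ (tot (u ++ [Lt.eps i])).support := by
            rw [Finsupp.mem_support_iff] at hk ⊢
            rw [tot_append, Finsupp.add_apply]
            omega
          rcases Finset.mem_insert.1 (h1.2 h3) with h4 | h4
          · rw [h4] at hk
            exact absurd h2 (Finsupp.mem_support_iff.1 hk)
          · exact h4
      obtain ⟨p1, x1, hp1, hx1, he1⟩ := ih (q + 1) x2 hx2s hx2D
      obtain ⟨p2, y1, hp2, hy1, he2⟩ := ih q y hys hyD
      refine ⟨p1 + rm i p2, x1 + rm (Lt.eps i) y1 + z, ?_, ?_, ?_⟩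
      · intro w hw
        by_cases h1 : p1 w = 0
        · rw [Finsupp.add_apply, h1, zero_add] at hw
          obtain ⟨u, h2, h3⟩ := rm_supp _ _ _ hw
          rw [h2, List.length_append, hp2 u h3]
          rfl
        · exact hp1 w h1
      · intro w hw
        by_cases h1 : x1 w = 0
        · by_cases h2 : z w = 0
          · rw [Finsupp.add_apply, Finsupp.add_apply, h1, h2, zero_add, add_zero] at hw
            obtain ⟨u, h3, h4⟩ := rm_supp _ _ _ hw
            have h5 := hy1 u h4
            rw [h3, List.length_append]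
            simpa using h5
          · exact (hz w h2).1
        · exact hx1 w h1
      · have h1 : x = xn + Dw z := by
          rw [hxn, add_assoc]
          have h2 : Dw z + Dw z = 0 := by
            ext w
            exact two _
          rw [h2, add_zero]
        rw [h1, hdec, he1]
        conv_lhs => rw [he2]
        rw [map_add, map_add, map_add, map_add, emW_rm, Dw_rm]
        abel

end A505

theorem col1 {I : Type} (q : ℕ) {x : Wd (Lt I)} (hx : x ∈ Len (Lt I) (q + 1)) (h : Dw x = 0) :
    ∃ p ∈ Len I (q + 1), ∃ x' ∈ Len (Lt I) q, x = emW p + Dw x' := by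
  classical
  have h1 : ∀ w, x w ≠ 0 → w.length = q + 1 ∧
      (A505.tot w).support ⊆ x.support.biUnion fun w => (A505.tot w).support := by
    intro w hw
    have hw' : w ∈ x.support := Finsupp.mem_support_iff.2 hw
    refine ⟨(Finsupp.mem_supported (ZMod 2) x).1 hx hw', ?_⟩
    exact Finset.subset_biUnion_of_mem (fun w => (A505.tot w).support) hw'
  obtain ⟨p, x', hp, hx', he⟩ := A505.main _ (q + 1) x h1 h
  refine ⟨p, ?_, x', ?_, he⟩
  · rw [Len, Finsupp.mem_supported]
    intro w hw
    exact hp w (Finsupp.mem_support_iff.1 hw)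
  · rw [Len, Finsupp.mem_supported]
    intro w hw
    have := hx' w (Finsupp.mem_support_iff.1 hw)
    show w.length = q
    omega

end MM
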