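import Pool.Agent.Lib_MP_33f7bb_d.A5Def
import Pool.Agent.Lib_MP_33f7bb_d.A010
import Pool.Agent.Lib_MP_33f7bb_d.A011

/-!
# A5-09: prism formula and contraction below a given degree, for cosimplicial vector spaces

`CV.mem_Bd`: for a subspace: `x ∈ Bd n` iff every functional `φ` on `C.V n` that vanishes on `Bd n` vanishes at `x` (vector spaces over a
field: `Submodule.exists_dual_map_eq_bot_of_notMem`, `Submodule.forall_dual_apply_eq_zero...`).
`CHpy.prism`: `H : LHpy C.dual C.dual`, `H.app n θ = (G.app n θ).dualMap` (naturality is the dual of `G.nat`).  `lprism H` gives `T`.  Let `φ`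
vanish on `Bd n`, i.e. `φ ∈ C.dual.Z n` (`n ≥ 1`: `C.dual.d (n-1) φ = φ ∘ C.d (n-1)`, the dual of the sum of the cofaces; `n = 0`: no
condition and the term `T n (d φ)` is absent).  Then `φ (G (cst 0) x + G (cst 1) x) = (dual.d n (T n φ)) x = (T n φ) (C.d n x) = 0`.
`CV.lowcon`: let `Q = C.dual`.  Hypothesis of `lowcon` (A011): for `j ≤ m` and `z ∈ Q.Z j`: `z` is a functional on `C.V j` vanishing on `Bd j`
(`= range d (j-1)`, nothing for `j = 0`), so on `ker (C.d j)` (exactness), so `z = w ∘ C.d j` for a functional `w`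
(`LinearMap.range_dualMap_eq_dualAnnihilator_ker`), `z ∈ Q.B j`.  So there is `H : LHpy Q Q`, `H (cst 0) = id`, `H.app j (cst 1) = 0` for `j ≤ m`.
Transpose: `C.V n` is finite dimensional, so reflexive: `G.app n θ` := the unique map with `(H.app n θ φ) x = φ (G.app n θ x)`, i.e.
`G.app n θ = (evalEquiv).symm ∘ (H.app n θ).dualMap ∘ evalEquiv` (`Module.evalEquiv`).  Naturality, `G (cst 0) = id`,
`G.app j (cst 1) = 0`: test against all functionals (`Module.forall_dual_apply_eq_zero_iff`).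
-/

namespace MM

/-- evaluation at a vector -/
private noncomputable def A509_ev (C : CV) {n : ℕ} (x : C.V n) : C.dual.V n →ₗ[ZMod 2] ZMod 2 :=
  Module.Dual.eval (ZMod 2) (C.V n) x

private theorem A509_sd (W : SV) (n : ℕ) (z : W.V (n + 1)) :
    W.d n z = ∑ i : Fin (n + 2), W.act (dlt i) z := by
  rw [SV.d, LinearMap.sum_apply]

private theorem A509_d (C : CV) (n : ℕ) (φ : Module.Dual (ZMod 2) (C.V (n + 1))) (x : C.V n) :
    A509_ev C x (C.dual.d n φ) = φ (C.d n x) := by
  have h1 : φ (C.d n x) = ∑ i : Fin (n + 2), φ (C.act (dlt i) x) := by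
    rw [CV.d, LinearMap.sum_apply, map_sum]
  rw [h1]
  refine (congrArg (A509_ev C x) (A509_sd C.dual n φ)).trans ?_
  rw [map_sum]
  rfl

private theorem A509_mem {V : Type} [AddCommGroup V] [Module (ZMod 2) V] (p : Submodule (ZMod 2) V)
    (x : V) (h : ∀ φ : Module.Dual (ZMod 2) V, (∀ y ∈ p, φ y = 0) → φ x = 0) : x ∈ p := by
  by_contra hx
  obtain ⟨f, hf, hp⟩ := Submodule.exists_dual_map_eq_bot_of_notMem hx inferInstance
  refine hf (h f fun y hy => ?_)
  have h1 : f y ∈ p.map f := Submodule.mem_map_of_mem hy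
  rw [hp] at h1
  exact (Submodule.mem_bot _).1 h1

private theorem A509_test {V : Type} [AddCommGroup V] [Module (ZMod 2) V] (x y : V)
    (h : ∀ φ : Module.Dual (ZMod 2) V, φ x = φ y) : x = y := by
  rw [← sub_eq_zero, ← Module.forall_dual_apply_eq_zero_iff (ZMod 2)]
  intro φ
  rw [map_sub, h, sub_self]

private theorem A509_trans {V : Type} [AddCommGroup V] [Module (ZMod 2) V]
    [Module.Finite (ZMod 2) V] (h : Module.Dual (ZMod 2) V →ₗ[ZMod 2] Module.Dual (ZMod 2) V) :
    ∃ g : V →ₗ[ZMod 2] V, ∀ (φ : Module.Dual (ZMod 2) V) (x : V), φ (g x) = h φ x := by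
  refine ⟨(Module.evalEquiv (ZMod 2) V).symm.toLinearMap.comp
    (h.dualMap.comp (Module.evalEquiv (ZMod 2) V).toLinearMap), fun φ x => ?_⟩
  have h1 : Module.evalEquiv (ZMod 2) V ((Module.evalEquiv (ZMod 2) V).symm
      (h.dualMap (Module.evalEquiv (ZMod 2) V x))) = h.dualMap (Module.evalEquiv (ZMod 2) V x) :=
    LinearEquiv.apply_symm_apply _ _
  have h2 := congrArg (fun u => u φ) h1
  exact h2

private noncomputable def A509_H {C : CV} (G : CHpy C) : LHpy C.dual C.dual where
  app n θ := (G.app n θ).dualMap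
  nat {m n} f a φ := by
    refine LinearMap.ext fun x => ?_
    exact congrArg (fun u : C.V n => (show Module.Dual (ZMod 2) (C.V n) from φ) u) (G.nat f a x)

theorem CHpy.prism {C : CV} (G : CHpy C) (n : ℕ) (x : C.V n) (hx : C.d n x = 0) :
    G.app n (cst 0) x + G.app n (cst 1) x ∈ C.Bd n := by
  obtain ⟨T, hT0, hTs⟩ := lprism (A509_H G)
  refine A509_mem _ _ fun φ hφ => ?_
  have hT : ∀ ψ : Module.Dual (ZMod 2) (C.V (n + 1)),
      A509_ev C x (C.dual.d n ψ) = 0 := by
    intro ψ
    rw [A509_d, hx, map_zero]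
  rw [map_add]
  cases n with
  | zero =>
    have h1 := congrArg (fun u : Module.Dual (ZMod 2) (C.V 0) => u x) (hT0 φ)
    exact h1.symm.trans (hT _)
  | succ n =>
    have h0 : C.dual.d n φ = 0 := by
      refine LinearMap.ext fun y => ?_
      exact (A509_d C n φ y).trans (hφ _ (LinearMap.mem_range_self _ _))
    have h1 := hTs n φ
    rw [h0, map_zero, add_zero] at h1
    have h2 := congrArg (fun u : Module.Dual (ZMod 2) (C.V (n + 1)) => u x) h1
    exact h2.symm.trans (hT _)

theorem CV.lowcon (C : CV) (hf : ∀ n, Module.Finite (ZMod 2) (C.V n)) (m : ℕ)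
    (h : ∀ j ≤ m, ∀ x : C.V j, C.d j x = 0 → x ∈ C.Bd j) :
    ∃ G : CHpy C, (∀ n x, G.app n (cst 0) x = x) ∧ ∀ j ≤ m, ∀ x, G.app j (cst 1) x = 0 := by
  obtain ⟨H, h0, h1⟩ := MM.lowcon C.dual m (fun j hj (z : Module.Dual (ZMod 2) (C.V j)) hz => by
    have h1 : ∀ y ∈ C.Bd j, z y = 0 := by
      cases j with
      | zero =>
        intro y hy
        have : y = 0 := (Submodule.mem_bot _).1 hy
        rw [this, map_zero]
      | succ j =>
        rintro y ⟨w, rfl⟩
        have h2 : C.dual.d j z = 0 := hz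
        have h3 := congrArg (fun u : Module.Dual (ZMod 2) (C.V j) => u w) h2
        exact (A509_d C j z w).symm.trans h3
    have h2 : z ∈ (LinearMap.ker (C.d j)).dualAnnihilator := by
      rw [Submodule.mem_dualAnnihilator]
      intro x hx
      exact h1 x (h j hj x hx)
    rw [← LinearMap.range_dualMap_eq_dualAnnihilator_ker] at h2
    obtain ⟨w, hw⟩ := h2
    refine ⟨w, ?_⟩
    refine LinearMap.ext fun x => ?_
    refine (A509_d C j w x).trans ?_
    rw [← hw]
    rfl)
  have hT : ∀ (n : ℕ) (θ : Mo n 1), ∃ g : C.V n →ₗ[ZMod 2] C.V n,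
      ∀ (φ : Module.Dual (ZMod 2) (C.V n)) (x : C.V n),
        φ (g x) = (show Module.Dual (ZMod 2) (C.V n) from H.app n θ φ) x := by
    intro n θ
    have := hf n
    exact A509_trans (V := C.V n) (H.app n θ)
  choose g hg using hT
  refine ⟨⟨g, fun {m' n} f θ x => ?_⟩, ?_, ?_⟩
  · refine A509_test _ _ fun φ => ?_
    rw [hg n θ φ (C.act f x)]
    have e1 : φ (C.act f (g m' (θ.comp f) x)) =
        (show Module.Dual (ZMod 2) (C.V m') from (C.act f).dualMap φ) (g m' (θ.comp f) x) := rfl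
    rw [e1, hg]
    exact congrArg (fun u : Module.Dual (ZMod 2) (C.V m') => u x) (H.nat f θ φ)
  · intro n x
    refine A509_test _ _ fun φ => ?_
    show φ (g n (cst 0) x) = φ x
    rw [hg]
    exact congrArg (fun u : Module.Dual (ZMod 2) (C.V n) => u x) (h0 n φ)
  · intro j hj x
    refine A509_test _ _ fun φ => ?_
    show φ (g j (cst 1) x) = φ 0
    rw [hg, map_zero]
    exact congrArg (fun u : Module.Dual (ZMod 2) (C.V j) => u x) (h1 j hj φ)

end MM
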