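import Pool.Agent.Lib_MP_33f7bb_d.A509

/-!
# A5-10: contraction of the part of degrees `> D` of a graded cosimplicial vector space

For every `k` let `C_k` be the cosimplicial vector space `n ↦ ({i : I n // dg n i = k} →₀ F)` (or the submodule of elements supported in degree
`k`, as a type) with the restricted operators: `act g` preserves degrees (`hdeg`).  It is finite dimensional in each level (`hfin`).  For `k > D` it is
exact at all `j ≤ m`: if `z` is homogeneous of degree `k`, `d z = 0` then `z ∈ Bd` by `hex`, i.e. `z = 0` or `z = d w`; replace `w` by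
its component of degree `k` (`d` preserves degrees).  `CV.lowcon` gives `G_k : CHpy C_k`.  Define `G.app n θ (single i 1) = G_(dg n i) (single i 1)` if
`dg n i > D` (embedded into `I n →₀ F`), `= single i 1` if `dg n i ≤ D`.  Naturality: for `x = single i 1`, `i : I m`, of degree `k`, `act g x` is
homogeneous of degree `k`, so both sides are computed in `C_k` (`k > D`: naturality of `G_k`; `k ≤ D`: `G = id`).
-/

namespace MM

/-- elements supported in degree `k` -/
private abbrev A510S {J : Type} (dg : J → ℕ) (k : ℕ) : Submodule (ZMod 2) (J →₀ ZMod 2) :=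
  Finsupp.supported (ZMod 2) (ZMod 2) {i | dg i = k}

private theorem A510_single {J : Type} (dg : J → ℕ) (i : J) :
    (Finsupp.single i 1 : J →₀ ZMod 2) ∈ A510S dg (dg i) :=
  Finsupp.single_mem_supported (ZMod 2) (1 : ZMod 2) (by simp)

/-- two linear maps agree on elements of degree `k` if they agree on basis elements of degree `k` -/
private theorem A510_ext {J M : Type} [AddCommGroup M] [Module (ZMod 2) M] (dg : J → ℕ) (k : ℕ)
    (A B : (J →₀ ZMod 2) →ₗ[ZMod 2] M)
    (h : ∀ i, dg i = k → A (Finsupp.single i 1) = B (Finsupp.single i 1))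
    (x : J →₀ ZMod 2) (hx : x ∈ A510S dg k) : A x = B x := by
  rw [A510S, Finsupp.supported_eq_span_single] at hx
  have : Set.EqOn A B (Submodule.span (ZMod 2) ((fun i => (Finsupp.single i 1 : J →₀ ZMod 2)) '' {i | dg i = k})) := by
    apply LinearMap.eqOn_span
    rintro _ ⟨i, hi, rfl⟩
    exact h i hi
  exact this hx

private theorem A510_pres {J J' : Type} (dg : J → ℕ) (dg' : J' → ℕ)
    (f : (J →₀ ZMod 2) →ₗ[ZMod 2] (J' →₀ ZMod 2)) (hf : DegPres dg dg' f) (k : ℕ)
    (x : J →₀ ZMod 2) (hx : x ∈ A510S dg k) : f x ∈ A510S dg' k := by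
  rw [A510S, Finsupp.supported_eq_span_single] at hx
  have : Submodule.span (ZMod 2) ((fun i => (Finsupp.single i 1 : J →₀ ZMod 2)) '' {i | dg i = k}) ≤
      (A510S dg' k).comap f := by
    rw [Submodule.span_le]
    rintro _ ⟨i, hi, rfl⟩
    rw [SetLike.mem_coe, Submodule.mem_comap, A510S, Finsupp.mem_supported]
    intro b hb
    have h1 := hf i b (by simpa using hb)
    exact h1.trans hi
  exact this hx

open Classical in
/-- the component of degree `k` -/
private noncomputable def A510P {J : Type} (dg : J → ℕ) (k : ℕ) :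
    (J →₀ ZMod 2) →ₗ[ZMod 2] A510S dg k :=
  Finsupp.restrictDom (ZMod 2) (ZMod 2) {i | dg i = k}

open Classical in
private theorem A510P_apply {J : Type} (dg : J → ℕ) (k : ℕ) (x : J →₀ ZMod 2) (i : J) :
    (A510P dg k x : J →₀ ZMod 2) i = if dg i = k then x i else 0 := by
  rw [A510P, Finsupp.restrictDom_apply, Finsupp.filter_apply]
  simp

private theorem A510P_mem {J : Type} (dg : J → ℕ) (k : ℕ) (x : J →₀ ZMod 2) (hx : x ∈ A510S dg k) :
    A510P dg k x = ⟨x, hx⟩ := by
  apply Subtype.ext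
  ext i
  rw [A510P_apply]
  split_ifs with h
  · rfl
  · exact ((Finsupp.mem_supported' (ZMod 2) x).1 hx i h).symm

private theorem A510P_ne {J : Type} (dg : J → ℕ) (k l : ℕ) (hkl : l ≠ k) (x : J →₀ ZMod 2)
    (hx : x ∈ A510S dg l) : A510P dg k x = 0 := by
  apply Subtype.ext
  ext i
  rw [A510P_apply]
  split_ifs with h
  · exact (Finsupp.mem_supported' (ZMod 2) x).1 hx i (fun h' => hkl ((h' : dg i = l).symm.trans h))
  · rfl

private theorem A510P_comm {J J' : Type} (dg : J → ℕ) (dg' : J' → ℕ)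
    (f : (J →₀ ZMod 2) →ₗ[ZMod 2] (J' →₀ ZMod 2)) (hf : DegPres dg dg' f) (k : ℕ)
    (x : J →₀ ZMod 2) : (A510P dg' k (f x) : J' →₀ ZMod 2) = f (A510P dg k x) := by
  have : (A510S dg' k).subtype ∘ₗ (A510P dg' k) ∘ₗ f = f ∘ₗ (A510S dg k).subtype ∘ₗ (A510P dg k) := by
    refine Finsupp.lhom_ext' fun i => LinearMap.ext_ring ?_
    have hi := A510_single dg i
    have hfi := A510_pres dg dg' f hf _ _ hi
    simp only [LinearMap.comp_apply, Finsupp.lsingle_apply, Submodule.subtype_apply]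
    by_cases h : dg i = k
    · subst h
      rw [A510P_mem dg _ _ hi, A510P_mem dg' _ _ hfi]
    · rw [A510P_ne dg k _ h _ hi, A510P_ne dg' k _ h _ hfi]
      simp
  exact LinearMap.congr_fun this x

section

variable {I : ℕ → Type} (dg : ∀ n, I n → ℕ)
    (act : ∀ {m n : ℕ}, Mo m n → ((I m →₀ ZMod 2) →ₗ[ZMod 2] (I n →₀ ZMod 2)))
    (h1 : ∀ {n : ℕ} (x : I n →₀ ZMod 2), act OrderHom.id x = x)
    (h2 : ∀ {l m n : ℕ} (f : Mo l m) (g : Mo m n) (x : I l →₀ ZMod 2),
      act g (act f x) = act (g.comp f) x)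
    (hdeg : ∀ {m n : ℕ} (g : Mo m n), DegPres (dg m) (dg n) (act g))

/-- the part of degree `k` -/
private noncomputable def A510C (k : ℕ) : CV where
  V n := A510S (dg n) k
  act {m n} g := (act g).restrict fun x hx => A510_pres (dg m) (dg n) (act g) (hdeg g) k x hx
  act_id x := Subtype.ext (h1 x.1)
  act_comp f g x := Subtype.ext (h2 f g x.1)

/-- inclusion of the part of degree `k` -/
private noncomputable def A510v (k n : ℕ) :
    (A510C dg act h1 h2 hdeg k).V n →ₗ[ZMod 2] (I n →₀ ZMod 2) := (A510S (dg n) k).subtype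

private theorem A510C_d (k n : ℕ) (x : (A510C dg act h1 h2 hdeg k).V n) :
    A510v dg act h1 h2 hdeg k (n + 1) ((A510C dg act h1 h2 hdeg k).d n x) =
      (CV.ofI act h1 h2).d n (A510v dg act h1 h2 hdeg k n x) := by
  have e1 : (A510C dg act h1 h2 hdeg k).d n x =
      ∑ i : Fin (n + 2), (A510C dg act h1 h2 hdeg k).act (dlt i) x := by
    rw [CV.d, LinearMap.sum_apply]
  have e2 : (CV.ofI act h1 h2).d n (A510v dg act h1 h2 hdeg k n x) =
      ∑ i : Fin (n + 2), (CV.ofI act h1 h2).act (dlt i) (A510v dg act h1 h2 hdeg k n x) := by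
    rw [CV.d, LinearMap.sum_apply]
  rw [e1, e2, map_sum]
  rfl

include hdeg in
private theorem A510_dpres (n k : ℕ) (w : I n →₀ ZMod 2) :
    (A510P (dg (n + 1)) k ((CV.ofI act h1 h2).d n w) : I (n + 1) →₀ ZMod 2) =
      (CV.ofI act h1 h2).d n (A510P (dg n) k w).1 := by
  have e2 : ∀ w : I n →₀ ZMod 2, (CV.ofI act h1 h2).d n w = ∑ i : Fin (n + 2), act (dlt i) w := by
    intro w
    rw [CV.d, LinearMap.sum_apply]
    rfl
  have e3 := e2 w
  have e4 := e2 (A510P (dg n) k w).1
  refine Eq.trans ?_ e4.symm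
  have e5 : A510P (dg (n + 1)) k ((CV.ofI act h1 h2).d n w) =
      A510P (dg (n + 1)) k (∑ i : Fin (n + 2), act (dlt i) w) := congrArg _ e3
  rw [e5, map_sum, Submodule.coe_sum]
  exact Finset.sum_congr rfl fun i _ => A510P_comm (dg n) (dg (n + 1)) _ (hdeg _) k w

include dg in
private theorem A510_k (hfin : ∀ n k, {i | dg n i = k}.Finite) (D m : ℕ)
    (hex : ∀ j ≤ m, ∀ k, D < k → ∀ z : I j →₀ ZMod 2, (∀ i ∈ z.support, dg j i = k) →
      (CV.ofI act h1 h2).d j z = 0 → z ∈ (CV.ofI act h1 h2).Bd j) (k : ℕ) :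
    ∃ G : CHpy (A510C dg act h1 h2 hdeg k), (∀ n x, G.app n (cst 0) x = x) ∧
      (D < k → ∀ j ≤ m, ∀ x, G.app j (cst 1) x = 0) := by
  by_cases hk : D < k
  · obtain ⟨G, hG0, hG1⟩ := CV.lowcon (A510C dg act h1 h2 hdeg k) (by
      intro n
      have := (hfin n k).to_subtype
      have e : A510S (dg n) k ≃ₗ[ZMod 2] ({i | dg n i = k} →₀ ZMod 2) :=
        Finsupp.supportedEquivFinsupp {i | dg n i = k}
      exact Module.Finite.equiv e.symm) m (by
      intro j hj x hx
      have hx' : (CV.ofI act h1 h2).d j x.1 = 0 := by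
        refine (A510C_d dg act h1 h2 hdeg k j x).symm.trans ?_
        rw [hx, map_zero]
        rfl
      have hb := hex j hj k hk x.1 (fun i hi => (Finsupp.mem_supported (ZMod 2) x.1).1 x.2 hi) hx'
      cases j with
      | zero =>
        have h0 : x.1 = 0 := (Submodule.mem_bot (ZMod 2)).1 hb
        exact (Submodule.mem_bot (ZMod 2)).2 (Subtype.ext h0)
      | succ j =>
        obtain ⟨w, hw⟩ := hb
        refine ⟨A510P (dg j) k w, Subtype.ext ?_⟩
        refine (A510C_d dg act h1 h2 hdeg k j (A510P (dg j) k w)).trans ?_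
        refine (A510_dpres dg act h1 h2 hdeg j k w).symm.trans ?_
        rw [hw]
        exact congrArg Subtype.val (A510P_mem (dg (j + 1)) k x.1 x.2))
    exact ⟨G, hG0, fun _ => hG1⟩
  · exact ⟨⟨fun n _ => LinearMap.id, fun _ _ _ => rfl⟩, fun _ _ => rfl, fun h => absurd h hk⟩

end

theorem CV.grcon {I : ℕ → Type} (dg : ∀ n, I n → ℕ) (hfin : ∀ n k, {i | dg n i = k}.Finite)
    (act : ∀ {m n : ℕ}, Mo m n → ((I m →₀ ZMod 2) →ₗ[ZMod 2] (I n →₀ ZMod 2)))
    (h1 : ∀ {n : ℕ} (x : I n →₀ ZMod 2), act OrderHom.id x = x)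
    (h2 : ∀ {l m n : ℕ} (f : Mo l m) (g : Mo m n) (x : I l →₀ ZMod 2),
      act g (act f x) = act (g.comp f) x)
    (hdeg : ∀ {m n : ℕ} (g : Mo m n), DegPres (dg m) (dg n) (act g)) (D m : ℕ)
    (hex : ∀ j ≤ m, ∀ k, D < k → ∀ z : I j →₀ ZMod 2, (∀ i ∈ z.support, dg j i = k) →
      (CV.ofI act h1 h2).d j z = 0 → z ∈ (CV.ofI act h1 h2).Bd j) :
    ∃ G : CHpy (CV.ofI act h1 h2), (∀ n (x : I n →₀ ZMod 2), G.app n (cst 0) x = x) ∧
      ∀ j ≤ m, ∀ i : I j, D < dg j i → G.app j (cst 1) (Finsupp.single i 1 : I j →₀ ZMod 2) = 0 := by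
  choose Gk hG0 hG1 using A510_k dg act h1 h2 hdeg hfin D m hex
  -- the maps of `Gk` in plain types
  let gk : ∀ (k n : ℕ) (_ : Mo n 1), A510S (dg n) k →ₗ[ZMod 2] A510S (dg n) k :=
    fun k n θ => (Gk k).app n θ
  let Ga : ∀ (n : ℕ) (_ : Mo n 1), (I n →₀ ZMod 2) →ₗ[ZMod 2] (I n →₀ ZMod 2) := fun n θ =>
    Finsupp.linearCombination (ZMod 2) fun i =>
      ((gk (dg n i) n θ ⟨Finsupp.single i 1, A510_single (dg n) i⟩ : A510S (dg n) (dg n i)) :
        I n →₀ ZMod 2)
  have hs : ∀ n θ i, Ga n θ (Finsupp.single i 1) =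
      (gk (dg n i) n θ ⟨Finsupp.single i 1, A510_single (dg n) i⟩ : A510S (dg n) (dg n i)).1 := by
    intro n θ i
    simp only [Ga, Finsupp.linearCombination_single, one_smul]
  have key : ∀ (n : ℕ) (θ : Mo n 1) (k : ℕ) (x : I n →₀ ZMod 2) (hx : x ∈ A510S (dg n) k),
      Ga n θ x = (gk k n θ ⟨x, hx⟩).1 := by
    intro n θ k x hx
    rw [← A510P_mem (dg n) k x hx]
    refine A510_ext (dg n) k (Ga n θ)
      ((A510S (dg n) k).subtype ∘ₗ gk k n θ ∘ₗ A510P (dg n) k) ?_ x hx
    rintro i rfl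
    rw [hs]
    simp only [LinearMap.comp_apply, Submodule.subtype_apply]
    rw [A510P_mem (dg n) _ _ (A510_single (dg n) i)]
  have nat1 : ∀ {m n : ℕ} (g : Mo m n) (θ : Mo n 1) (i : I m),
      act g (Ga m (θ.comp g) (Finsupp.single i 1)) = Ga n θ (act g (Finsupp.single i 1)) := by
    intro m n g θ i
    rw [hs, key n θ (dg m i) _ (A510_pres (dg m) (dg n) (act g) (hdeg g) _ _ (A510_single (dg m) i))]
    exact congrArg Subtype.val
      ((Gk (dg m i)).nat g θ (⟨Finsupp.single i 1, A510_single (dg m) i⟩ : A510S (dg m) (dg m i)))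
  have nat2 : ∀ {m n : ℕ} (g : Mo m n) (θ : Mo n 1) (x : I m →₀ ZMod 2),
      act g (Ga m (θ.comp g) x) = Ga n θ (act g x) := by
    intro m n g θ x
    have : (act g) ∘ₗ (Ga m (θ.comp g)) = (Ga n θ) ∘ₗ (act g) := by
      refine Finsupp.lhom_ext' fun i => LinearMap.ext_ring ?_
      exact nat1 g θ i
    exact LinearMap.congr_fun this x
  refine ⟨⟨Ga, nat2⟩, ?_, ?_⟩
  · intro n x
    have : Ga n (cst 0) = LinearMap.id := by
      refine Finsupp.lhom_ext' fun i => LinearMap.ext_ring ?_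
      refine (hs n (cst 0) i).trans ?_
      exact congrArg Subtype.val (hG0 (dg n i) n _)
    exact LinearMap.congr_fun this x
  · intro j hj i hi
    refine (hs j (cst 1) i).trans ?_
    exact congrArg Subtype.val (hG1 (dg j i) hi j hj _)

end MM
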