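import Pool.Agent.Lib_MP_33f7bb_d.A7Def

/-!
# Homology of the reduced chains of the simplicial sphere; naturality of `cupR`
-/

open scoped TensorProduct

namespace MM

/-- linear maps out of a quotient of chains -/
noncomputable def quoLift7 {P : SS} (A : Sub P) {W : SV} (f : Hom P W.ss)
    (hf : ∀ n, ∀ x ∈ A.car n, f.app n x = (0 : W.V n)) : SVHom (linSub A).quo W :=
  ⟨fun n => Submodule.liftQ _ (linExt f.app n) (by
      intro c hc
      rw [LinearMap.mem_ker, linExt_apply]
      refine Finset.sum_eq_zero fun x hx => ?_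
      show c x • (f.app n x : W.V n) = 0
      rw [hf n x (hc hx), smul_zero]), fun {m n} g x => by
    obtain ⟨c, rfl⟩ := Submodule.Quotient.mk_surjective _ x
    exact (linHom f).nat g c⟩

@[simp] theorem quoLift7_of {P : SS} (A : Sub P) {W : SV} (f : Hom P W.ss)
    (hf : ∀ n, ∀ x ∈ A.car n, f.app n x = (0 : W.V n)) (n : ℕ) (x : P.S n) :
    (quoLift7 A f hf).app n ((linSub A).proj.app n (Finsupp.single x 1)) = f.app n x := by
  show linExt f.app n (Finsupp.single x 1) = f.app n x
  rw [linExt_single, one_smul]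

/-- the collapse `Δ^N → S^N` -/
noncomputable def SpS.col (N : ℕ) : Hom (Del N) (SpS N) where
  app n θ := open Classical in if h : Function.Surjective (θ : Mo n N) then some ⟨θ, h⟩ else none
  nat {m n} f θ := by
    classical
    by_cases h : Function.Surjective (θ : Mo n N)
    · simp only [dif_pos h, Option.bind_some]
    · have h2 : ¬ Function.Surjective (θ.comp f : Mo m N) := fun h3 => h fun y => by
        obtain ⟨z, hz⟩ := h3 y
        exact ⟨f z, hz⟩
      simp only [dif_neg h, Option.bind_none]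
      exact dif_neg h2

theorem SpS.col_of_surj {N n : ℕ} (θ : Mo n N) (h : Function.Surjective θ) :
    (SpS.col N).app n θ = some ⟨θ, h⟩ := dif_pos h

theorem SpS.col_of_not {N n : ℕ} (θ : Mo n N) (h : ¬ Function.Surjective θ) :
    (SpS.col N).app n θ = none := dif_neg h

/-- the base vertex of the sphere -/
def SpS.base (N : ℕ) : (SpS N).S 0 := none

theorem SpS.deg_base (N n : ℕ) : (SpS N).deg (SpS.base N) n = none := rfl

theorem SpS.of_base (N n : ℕ) :
    (R.of (SpS.base N)).app n none = (0 : (R (SpS N) (SpS.base N)).V n) :=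
  R.of_base (SpS.base N) n

/-- `K'(N) → R (S^N)` -/
noncomputable def spFrom (N : ℕ) : SVHom (KK N) (R (SpS N) (SpS.base N)) :=
  quoLift7 (bd N) ((R.of (SpS.base N)).comp (SpS.col N)) (fun n θ hθ => by
    show (R.of (SpS.base N)).app n ((SpS.col N).app n θ) = 0
    rw [SpS.col_of_not θ hθ, SpS.of_base])

/-- the map `S^N → K'(N)` -/
noncomputable def spToF (N : ℕ) : Hom (SpS N) (KK N).ss where
  app n x := x.elim (0 : (KK N).V n) (fun θ => (linSub (bd N)).proj.app n (Finsupp.single θ.1 1))
  nat {m n} f x := by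
    cases x with
    | none => exact ((KK N).act f).map_zero.symm
    | some θ =>
      have h1 : (KK N).act f ((linSub (bd N)).proj.app n (Finsupp.single θ.1 1)) =
          (linSub (bd N)).proj.app m (Finsupp.single (θ.1.comp f) 1) := by
        rw [← (linSub (bd N)).proj.nat]
        congr 1
        exact Finsupp.mapDomain_single
      by_cases h : Function.Surjective (θ.1.comp f : Mo m N)
      · show ((SpS N).act f (some θ)).elim _ _ = (KK N).act f _
        simp only [Option.bind_some, dif_pos h, Option.elim_some]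
        exact h1.symm
      · show ((SpS N).act f (some θ)).elim _ _ = (KK N).act f _
        simp only [Option.bind_some, dif_neg h, Option.elim_none, Option.elim_some]
        rw [h1]
        symm
        show Submodule.Quotient.mk _ = 0
        rw [Submodule.Quotient.mk_eq_zero]
        exact SuppIn.single (A := bd N) (x := θ.1.comp f) h 1

/-- `R (S^N) → K'(N)` -/
noncomputable def spTo (N : ℕ) : SVHom (R (SpS N) (SpS.base N)) (KK N) :=
  R.lift (SpS.base N) (spToF N) rfl

theorem spFrom_spTo (N : ℕ) : (spFrom N).comp (spTo N) = SVHom.id _ := by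
  apply R.ext
  intro n x
  show (spFrom N).app n ((spTo N).app n _) = (R.of (SpS.base N)).app n x
  rw [spTo, R.lift_of]
  cases x with
  | none =>
    show (spFrom N).app n 0 = _
    rw [map_zero, SpS.of_base]
  | some θ =>
    show (quoLift7 _ _ _).app n ((linSub (bd N)).proj.app n (Finsupp.single θ.1 1)) = _
    rw [quoLift7_of]
    show (R.of (SpS.base N)).app n ((SpS.col N).app n θ.1) = _
    rw [SpS.col_of_surj θ.1 θ.2]

theorem RSp_B (N k : ℕ) (hk : k ≠ N) (z : (R (SpS N) (SpS.base N)).V k)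
    (hz : z ∈ (R (SpS N) (SpS.base N)).Z k) : z ∈ (R (SpS N) (SpS.base N)).B k := by
  have h1 := KK_homology N k ((spTo N).app k z) ((spTo N).map_Z hz)
  rcases h1 with h1 | ⟨h, -⟩
  · have h2 := (spFrom N).map_B h1
    have h3 : (spFrom N).app k ((spTo N).app k z) = z :=
      congrArg (fun g : SVHom _ _ => g.app k z) (spFrom_spTo N)
    rwa [h3] at h2
  · exact absurd h hk

/-- `H_k (R S^N) = 0` for `k ≠ N` -/
theorem RSp_H (N k : ℕ) (hk : k ≠ N) (x : (R (SpS N) (SpS.base N)).H k) : x = 0 := by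
  obtain ⟨⟨z, hz⟩, rfl⟩ := Submodule.Quotient.mk_surjective _ x
  rw [Submodule.Quotient.mk_eq_zero]
  exact RSp_B N k hk z hz

/-- naturality of the product -/
theorem cupR_map {Z Z' : SS} (z₀ : Z.S 0) (z₀' : Z'.S 0) (f : Hom Z Z') (hf : f.app 0 z₀ = z₀')
    {p q : ℕ} (n : ℕ) (a : Module.Dual (ZMod 2) ((R Z' z₀').H p))
    (b : Module.Dual (ZMod 2) ((R Z' z₀').H q)) :
    (cupR n a b).comp (SV.Hmap (R.map z₀ z₀' f hf) n) =
      cupR n (a.comp (SV.Hmap (R.map z₀ z₀' f hf) p)) (b.comp (SV.Hmap (R.map z₀ z₀' f hf) q)) := by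
  have h1 : (R.diag z₀').comp (R.map z₀ z₀' f hf) =
      ((R.map z₀ z₀' f hf).tens (R.map z₀ z₀' f hf)).comp (R.diag z₀) := by
    apply R.ext
    intro n x
    show (R.diag z₀').app n ((R.map z₀ z₀' f hf).app n _) =
      ((R.map z₀ z₀' f hf).tens (R.map z₀ z₀' f hf)).app n ((R.diag z₀).app n _)
    rw [R.map_of, R.diag, R.lift_of, R.diag, R.lift_of]
    show _ = TensorProduct.map _ _ (_ ⊗ₜ[ZMod 2] _)
    rw [TensorProduct.map_tmul, R.map_of]
    rfl
  have h2 := boxF_map (R.map z₀ z₀' f hf) (R.map z₀ z₀' f hf) (n := n) a b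
  apply LinearMap.ext
  intro x
  show boxF n a b (SV.Hmap (R.diag z₀') n (SV.Hmap (R.map z₀ z₀' f hf) n x)) = _
  rw [← SV.Hmap_comp, h1, SV.Hmap_comp]
  show ((boxF n a b).comp (SV.Hmap ((R.map z₀ z₀' f hf).tens (R.map z₀ z₀' f hf)) n)) _ = _
  rw [h2]
  rfl

end MM
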