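import Pool.Agent.Lib_MP_33f7bb_d.A515
import Pool.Agent.Lib_MP_33f7bb_d.A2Fin
import Pool.Agent.Lib_MP_33f7bb_d.A71S

/-!
# A5-16: the resolution of the sphere as `CoB`

`exists_grB_sphere`: the homology of `resV 0 = R (SpS N)` is zero in degrees `≠ N` (A71S), choose a basis of `H_N`
(`Module.Basis.ofVectorSpace` or `Module.Free.chooseBasis`), for `d ≠ N` the empty basis of a zero space.
`resCoB`: all relations from the identities in `A2Res`: `PHom.R_R`, `PHom.R_R_id`, `res_dd`, `res_ss`, `res_sd_lt`, `res_sd_eq`, `res_sd_eq'`,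
`res_sd_gt` (at the index `s + 1` for the cofaces, note `cf s i = R (resD (s+1) i)`), `muV_R_of`, `muV_nat`, and functoriality (`SV.Hmap_comp`, `GrB.gm_comp`,
`GrB.gm_id`).
-/

namespace MM

theorem exists_grB_sphere (N : ℕ) (hN : 1 ≤ N) : ∃ B1 : Type,
    Nonempty (GrB B1 (fun _ => N) (fun d => (resV (SpS N) none 0).H d)) := by
  classical
  have _ := hN
  have h0 : ∀ d, d ≠ N → ∀ x : (resV (SpS N) none 0).H d, x = 0 := fun d hd x => RSp_H N d hd x
  refine ⟨Module.Basis.ofVectorSpaceIndex (ZMod 2) ((resV (SpS N) none 0).H N), ⟨⟨fun d => ?_⟩⟩⟩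
  by_cases h : N = d
  · subst h
    exact (Module.Basis.ofVectorSpace (ZMod 2) ((resV (SpS N) none 0).H N)).reindex
      (Equiv.subtypeUnivEquiv (fun _ => rfl)).symm
  · have h1 : IsEmpty {e : Module.Basis.ofVectorSpaceIndex (ZMod 2) ((resV (SpS N) none 0).H N) //
        N = d} := ⟨fun e => h e.2⟩
    have h2 : Subsingleton ((resV (SpS N) none 0).H d) :=
      ⟨fun a b => by rw [h0 d (Ne.symm h) a, h0 d (Ne.symm h) b]⟩
    exact Module.Basis.empty _

private theorem A516_sq {P Q Q' S : SV} (f : SVHom P Q) (g : SVHom Q S) (f' : SVHom P Q')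
    (g' : SVHom Q' S) (h : ∀ n x, g.app n (f.app n x) = g'.app n (f'.app n x)) (d : ℕ) :
    (SV.Hmap g d).comp (SV.Hmap f d) = (SV.Hmap g' d).comp (SV.Hmap f' d) := by
  have e : g.comp f = g'.comp f' := SVHom.ext (funext fun n => LinearMap.ext fun x => h n x)
  refine LinearMap.ext fun x => ?_
  rw [LinearMap.comp_apply, LinearMap.comp_apply, ← SV.Hmap_comp, ← SV.Hmap_comp, e]

private theorem A516_tr {P Q : SV} (f : SVHom P Q) (g : SVHom Q P)
    (h : ∀ n x, g.app n (f.app n x) = x) (d : ℕ) (x : P.H d) :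
    ((SV.Hmap g d).comp (SV.Hmap f d)) x = x := by
  have e : g.comp f = SVHom.id P := SVHom.ext (funext fun n => LinearMap.ext fun x => h n x)
  rw [LinearMap.comp_apply, ← SV.Hmap_comp, e, SV.Hmap_id]

section gm

variable {L L' L'' L₁ : Type} {deg : L → ℕ} {deg' : L' → ℕ} {deg'' : L'' → ℕ} {deg₁ : L₁ → ℕ}
  {H H' H'' H₁ : ℕ → Type}
  [∀ d, AddCommGroup (H d)] [∀ d, Module (ZMod 2) (H d)]
  [∀ d, AddCommGroup (H' d)] [∀ d, Module (ZMod 2) (H' d)]
  [∀ d, AddCommGroup (H'' d)] [∀ d, Module (ZMod 2) (H'' d)]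
  [∀ d, AddCommGroup (H₁ d)] [∀ d, Module (ZMod 2) (H₁ d)]

private theorem A516_gm_sq (β : GrB L deg H) (β' : GrB L' deg' H') (β'' : GrB L'' deg'' H'')
    (β₁ : GrB L₁ deg₁ H₁) (f : ∀ d, H d →ₗ[ZMod 2] H' d) (g : ∀ d, H' d →ₗ[ZMod 2] H'' d)
    (f' : ∀ d, H d →ₗ[ZMod 2] H₁ d) (g' : ∀ d, H₁ d →ₗ[ZMod 2] H'' d)
    (h : ∀ d, (g d).comp (f d) = (g' d).comp (f' d)) (c : L →₀ ZMod 2) :
    β'.gm β'' g (β.gm β' f c) = β₁.gm β'' g' (β.gm β₁ f' c) := by
  rw [GrB.gm_comp, GrB.gm_comp, funext h]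

private theorem A516_gm_tr (β : GrB L deg H) (β' : GrB L' deg' H')
    (f : ∀ d, H d →ₗ[ZMod 2] H' d) (g : ∀ d, H' d →ₗ[ZMod 2] H d)
    (h : ∀ d x, ((g d).comp (f d)) x = x) (c : L →₀ ZMod 2) :
    β'.gm β g (β.gm β' f c) = c := by
  rw [GrB.gm_comp]
  exact GrB.gm_id _ _ h c

end gm

section

variable (N : ℕ) (I : ℕ → Type) (dg : ∀ s, I s → ℕ)
  (y : ∀ s, (I s →₀ ℕ) → ∀ d, (RV (resV (SpS N) none s)).H d)
  (h : ∀ s, IsCB (resV (SpS N) none s) (I s) (dg s) (y s))
  (B1 : Type) (β : GrB B1 (fun _ => N) (fun d => (resV (SpS N) none 0).H d))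

/-- cofaces on homology -/
noncomputable def resCf (s i d : ℕ) :
    (RV (resV (SpS N) none s)).H d →ₗ[ZMod 2] (RV (resV (SpS N) none (s + 1))).H d :=
  SV.Hmap (P := RV (resV (SpS N) none s)) (Q := RV (resV (SpS N) none (s + 1)))
    (RVmap ((resT (SpS N) none).d s i) ((resT (SpS N) none).d_zv s i)) d

/-- codegeneracies on homology -/
noncomputable def resCd (s j d : ℕ) :
    (RV (resV (SpS N) none (s + 1))).H d →ₗ[ZMod 2] (RV (resV (SpS N) none s)).H d :=
  SV.Hmap (P := RV (resV (SpS N) none (s + 1))) (Q := RV (resV (SpS N) none s))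
    (RVmap (resS (SpS N) none s j).hom (resS (SpS N) none s j).ph.hf) d

/-- the coface as a linear map -/
private noncomputable def A516_D (s i : ℕ) :
    SVHom (RV (resV (SpS N) none s)) (RV (resV (SpS N) none (s + 1))) :=
  (resD (SpS N) none (s + 1) i).R

/-- the codegeneracy as a linear map -/
private noncomputable def A516_S (s j : ℕ) :
    SVHom (RV (resV (SpS N) none (s + 1))) (RV (resV (SpS N) none s)) :=
  (resS (SpS N) none s j).ph.R

private theorem A516_cf (s i d : ℕ) : resCf N s i d = SV.Hmap (A516_D N s i) d := rfl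

private theorem A516_cd (s i d : ℕ) : resCd N s i d = SV.Hmap (A516_S N s i) d := rfl

private theorem A516_Ddd (s i j : ℕ) (hij : i ≤ j) (hj : j ≤ s + 1) (n : ℕ) (x) :
    (A516_D N (s + 1) (j + 1)).app n ((A516_D N s i).app n x) =
      (A516_D N (s + 1) i).app n ((A516_D N s j).app n x) :=
  PHom.R_R (resD (SpS N) none (s + 1) i) (resD (SpS N) none (s + 2) (j + 1))
    (resD (SpS N) none (s + 1) j) (resD (SpS N) none (s + 2) i)
    (fun n x => res_dd (SpS N) none (s + 1) i j n x hij hj) n x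

private theorem A516_Dss (s i j : ℕ) (hij : i ≤ j) (hj : j ≤ s) (n : ℕ) (x) :
    (A516_S N s j).app n ((A516_S N (s + 1) i).app n x) =
      (A516_S N s i).app n ((A516_S N (s + 1) (j + 1)).app n x) :=
  PHom.R_R (resS (SpS N) none (s + 1) i).ph (resS (SpS N) none s j).ph
    (resS (SpS N) none (s + 1) (j + 1)).ph (resS (SpS N) none s i).ph
    (fun n x => res_ss (SpS N) none s i j n x hij hj) n x

private theorem A516_Dlt (s i j : ℕ) (hij : i ≤ j) (hj : j ≤ s) (n : ℕ) (x) :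
    (A516_S N (s + 1) (j + 1)).app n ((A516_D N (s + 1) i).app n x) =
      (A516_D N s i).app n ((A516_S N s j).app n x) :=
  PHom.R_R (resD (SpS N) none (s + 2) i) (resS (SpS N) none (s + 1) (j + 1)).ph
    (resS (SpS N) none s j).ph (resD (SpS N) none (s + 1) i)
    (fun n x => res_sd_lt (SpS N) none s i j n x hij hj) n x

private theorem A516_Deq (s j : ℕ) (hj : j ≤ s) (n : ℕ) (x) :
    (A516_S N s j).app n ((A516_D N s j).app n x) = x :=
  PHom.R_R_id (resD (SpS N) none (s + 1) j) (resS (SpS N) none s j).ph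
    (fun n x => res_sd_eq (SpS N) none s j n x hj) n x

private theorem A516_Deq' (s j : ℕ) (hj : j ≤ s) (n : ℕ) (x) :
    (A516_S N s j).app n ((A516_D N s (j + 1)).app n x) = x :=
  PHom.R_R_id (resD (SpS N) none (s + 1) (j + 1)) (resS (SpS N) none s j).ph
    (fun n x => res_sd_eq' (SpS N) none s j n x hj) n x

private theorem A516_Dgt (s i j : ℕ) (hij : i ≤ j) (hj : j ≤ s) (n : ℕ) (x) :
    (A516_S N (s + 1) i).app n ((A516_D N (s + 1) (j + 2)).app n x) =
      (A516_D N s (j + 1)).app n ((A516_S N s i).app n x) :=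
  PHom.R_R (resD (SpS N) none (s + 2) (j + 2)) (resS (SpS N) none (s + 1) i).ph
    (resS (SpS N) none s i).ph (resD (SpS N) none (s + 1) (j + 1))
    (fun n x => res_sd_gt (SpS N) none s i j n x hij hj) n x

/-- the cosimplicial identities -/
private theorem A516_rel : CosRel (fun s i => (h s).grB.gm (h (s + 1)).grB (resCf N s i))
    (fun s j => (h (s + 1)).grB.gm (h s).grB (resCd N s j)) where
  dd := fun s i j x hij hj => A516_gm_sq _ _ _ _ _ _ _ _ (fun d =>
    A516_sq (A516_D N s i) (A516_D N (s + 1) (j + 1)) (A516_D N s j) (A516_D N (s + 1) i)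
      (A516_Ddd N s i j hij hj) d) x
  σσ := fun s i j x hij hj => A516_gm_sq _ _ _ _ _ _ _ _ (fun d =>
    A516_sq (A516_S N (s + 1) i) (A516_S N s j) (A516_S N (s + 1) (j + 1)) (A516_S N s i)
      (A516_Dss N s i j hij hj) d) x
  σd_lt := fun s i j x hij hj => A516_gm_sq _ _ _ _ _ _ _ _ (fun d =>
    A516_sq (A516_D N (s + 1) i) (A516_S N (s + 1) (j + 1)) (A516_S N s j) (A516_D N s i)
      (A516_Dlt N s i j hij hj) d) x
  σd_eq := fun s j x hj => A516_gm_tr _ _ _ _ (fun d =>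
    A516_tr (A516_D N s j) (A516_S N s j) (A516_Deq N s j hj) d) x
  σd_eq' := fun s j x hj => A516_gm_tr _ _ _ _ (fun d =>
    A516_tr (A516_D N s (j + 1)) (A516_S N s j) (A516_Deq' N s j hj) d) x
  σd_gt := fun s i j x hij hj => A516_gm_sq _ _ _ _ _ _ _ _ (fun d =>
    A516_sq (A516_D N (s + 1) (j + 2)) (A516_S N (s + 1) i) (A516_S N s i) (A516_D N s (j + 1))
      (A516_Dgt N s i j hij hj) d) x

/-- the resolution of the sphere as a `CoB` -/
noncomputable def resCoB : CoB where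
  I := I
  dg := dg
  dg_pos s := (h s).pos
  dg_fin s := (h s).fin
  cf s i := (h s).grB.gm (h (s + 1)).grB (resCf N s i)
  cd s j := (h (s + 1)).grB.gm (h s).grB (resCd N s j)
  rel := A516_rel N I dg y h
  cf_deg s i := GrB.gm_deg _ _ _
  cd_deg s j := GrB.gm_deg _ _ _
  cf_co s i := (h s).coMap (h (s + 1)) _ _
  cd_co s j := (h (s + 1)).coMap (h s) _ _
  N := N
  B1 := B1
  aug := β.gm (h 0).grB fun d => SV.Hmap (P := resV (SpS N) none 0)
    (Q := RV (resV (SpS N) none 0)) (resD (SpS N) none 0 0).R d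
  h0 := (h 0).grB.gm β fun d => SV.Hmap (muV (resV (SpS N) none 0)) d
  h0_deg := GrB.gm_deg _ _ _
  h s := (h (s + 1)).grB.gm (h s).grB fun d => SV.Hmap (P := RV (resV (SpS N) none (s + 1)))
    (Q := RV (resV (SpS N) none s)) (muV (resV (SpS N) none (s + 1))) d
  h_deg s := GrB.gm_deg _ _ _
  h_zero s x := A516_gm_tr _ _ _ _ (fun d =>
    A516_tr (resU (SpS N) none (s + 1)).eta.R (muV (resV (SpS N) none (s + 1)))
      (muV_R_of (resU (SpS N) none (s + 1))) d) x
  h_succ s i x _ := A516_gm_sq _ _ _ _ _ _ _ _ (fun d =>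
    A516_sq (resD (SpS N) none (s + 1) i).R.ph.R (muV (resV (SpS N) none (s + 2)))
      (muV (resV (SpS N) none (s + 1))) (resD (SpS N) none (s + 1) i).R
      (muV_nat (resD (SpS N) none (s + 1) i).R) d) x
  h_aug x := A516_gm_sq _ _ _ _ _ _ _ _ (fun d =>
    A516_sq (resD (SpS N) none 0 0).R.ph.R (muV (resV (SpS N) none 1))
      (muV (resV (SpS N) none 0)) (resD (SpS N) none 0 0).R
      (muV_nat (resD (SpS N) none 0 0).R) d) x

end

end MM
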