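import Pool.Agent.Lib_MP_33f7bb_d.A517
import Pool.Agent.Lib_MP_33f7bb_d.A207

/-!
# A5-18: part A5 in the form used by A2/A7
-/

namespace MM

/-- part A5 -/
theorem bndAll (hS : S2a) : BndAll := fun N hN => bndProp_res hS N hN

end MM
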