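import Pool.Agent.Lib_MP_33f7bb_d.A6Def

/-!
# A6-01: the inverse total square `cSq`

`AM.cSq` (see `A3Def`) is defined by `cSq n m = 0` for `m < n`, `cSq n n = Sq n n = id`, and for `n < m`
`cSq n m = ∑_(n < k ≤ m) cSq k m ∘ Sq n k` (unfold with `rw [AM.cSq]`; `Fin (m - n)` reindexed to `Ioc n m`).

`AMHom.cSq` : induction on `m - n`.
`AM.cSq_unique` : strong induction on `m - n`: `c n = ∑_(n < k ≤ m) c k ∘ Sq n k` (char 2, `Sq n n = id`).
`HomH_cSq` : Let `f ∈ HomH M 0`, so `f m (Sq n m x) = choose n (m - n) * f n x` for `n ≤ m`.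
 Define `cc n m : ZMod 2` (coefficient of `X^m` in `s^n`, `s = ∑_a X^(2^a)`), by the same recursion as `cSq`:
 `cc n m = 0` for `m < n`, `cc n n = 1`, `cc n m = ∑_(n < k ≤ m) choose n (k - n) * cc k m` for `n < m`.
 Then `f m (cSq n m x) = cc n m * f n x` by induction on `m - n`.
 Claim: `cc j (2^k) = 1` for `1 ≤ j ≤ k`.  Proof: let `P j m` := coefficient of `X^m` in `s^j`, for the power series
 `s = ∑_a X^(2^a)` over `ZMod 2` (`PowerSeries.mk fun m => if ∃ a, m = 2^a then 1 else 0`).  `s^2 = s + X`, i.e.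
 `s + s^2 = X` (in char 2 `s^2 = ∑ X^(2^(a+1))`: coefficientwise, e.g. `PowerSeries.expand`/frobenius, or
 directly: off-diagonal terms of the square cancel in pairs).  Hence `X^j = (s + s^2)^j = ∑_k choose j (k - j) s^k`
 (`k` from `j` to `2j`), compare coefficients of `X^m`: `∑_(j ≤ k ≤ m) choose j (k - j) * P k m = (if j = m then 1
 else 0)`, so `P` satisfies the recursion of `cc` (and `P j m = 0` for `m < j`), `P = cc`.
 `s^(j+1) = s^(j-1) (s + X) = s^j + X s^(j-1)` for `j ≥ 1`; coefficient of `X^(2^k)`: `P (j+1) (2^k) = P j (2^k) +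
 P (j-1) (2^k - 1)`; the last term is `0` if `j - 1 < k`: `P i m ≠ 0` implies that `m` is a sum of `i` powers of
 two, and `2^k - 1` is not a sum of fewer than `k` powers of two (induction on `k`: an odd sum contains a
 `1 = 2^0`, remove it; the rest, `2^k - 2`, consists of `1`s and even powers; ... or: the number of binary digits `1` of a sum of `i`
 powers of two is at most `i`; or without power series: prove by induction on `k` that
 `P i (2^k - 1) = 0` for `i < k` from `s^2 = s + X`, i.e. separate odd and even coefficients: `s = X + s^2`, so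
 `s^i = ∑_l choose i l X^l s^(2(i-l))` and `s^(2r) = (s^r)^2` has only even exponents with
 `P (2r) (2m) = P r m`).
-/

namespace MM

private theorem A601_self (M : AM) (n : ℕ) : M.cSq n n = LinearMap.id := by
  rw [AM.cSq, dif_neg (lt_irrefl n), dif_pos rfl, M.Sq_id]

private theorem A601_lt (M : AM) (n m : ℕ) (h : m < n) : M.cSq n m = 0 := by
  rw [AM.cSq, dif_pos h]

private theorem A601_rec (M : AM) (n m : ℕ) (h : n < m) :
    M.cSq n m = ∑ k ∈ Finset.Ioc n m, (M.cSq k m).comp (M.Sq n k) := by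
  rw [AM.cSq, dif_neg (by omega), dif_neg (by omega)]
  have h1 : Finset.Ioc n m = Finset.Ico (n + 1) (m + 1) := by
    ext k
    simp only [Finset.mem_Ioc, Finset.mem_Ico]
    omega
  rw [h1, Finset.sum_Ico_eq_sum_range, show m + 1 - (n + 1) = m - n by omega, Finset.sum_range]

/-- maps of `AM`s commute with the inverse total square -/
theorem AMHom.cSq {M N : AM} (f : AMHom M N) (n m : ℕ) (x : M.M n) :
    f.app m (M.cSq n m x) = N.cSq n m (f.app n x) := by
  obtain ⟨r, hr⟩ : ∃ r, m - n = r := ⟨_, rfl⟩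
  induction r using Nat.strong_induction_on generalizing n with
  | _ r ih =>
    rcases lt_trichotomy m n with h | h | h
    · rw [A601_lt M n m h, A601_lt N n m h, LinearMap.zero_apply, LinearMap.zero_apply, map_zero]
    · subst h
      rw [A601_self, A601_self]
      rfl
    · rw [A601_rec M n m h, A601_rec N n m h, LinearMap.sum_apply, LinearMap.sum_apply, map_sum]
      refine Finset.sum_congr rfl fun k hk => ?_
      rw [Finset.mem_Ioc] at hk
      rw [LinearMap.comp_apply, LinearMap.comp_apply, ih (m - k) (by omega) k _ rfl, f.comm]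

theorem AM.cSq_self (M : AM) (n : ℕ) : M.cSq n n = LinearMap.id := by
  exact A601_self M n

theorem AM.cSq_lt (M : AM) (n m : ℕ) (h : m < n) : M.cSq n m = 0 := by
  exact A601_lt M n m h

/-- the recursion formula -/
theorem AM.cSq_rec (M : AM) (n m : ℕ) (h : n < m) :
    M.cSq n m = ∑ k ∈ Finset.Ioc n m, (M.cSq k m).comp (M.Sq n k) := by
  exact A601_rec M n m h

private theorem A601_Icc {n m : ℕ} (h : n ≤ m) : Finset.Icc n m = insert n (Finset.Ioc n m) := by
  ext k
  simp only [Finset.mem_Icc, Finset.mem_insert, Finset.mem_Ioc]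
  omega

/-- uniqueness of the inverse total square -/
theorem AM.cSq_unique (M : AM) (m : ℕ) (c : ∀ n, M.M n →ₗ[ZMod 2] M.M m)
    (h0 : c m = LinearMap.id)
    (h1 : ∀ n, n < m → ∑ k ∈ Finset.Icc n m, (c k).comp (M.Sq n k) = 0) :
    ∀ n, n ≤ m → c n = M.cSq n m := by
  intro n hn
  obtain ⟨r, hr⟩ : ∃ r, m - n = r := ⟨_, rfl⟩
  induction r using Nat.strong_induction_on generalizing n with
  | _ r ih =>
    rcases hn.lt_or_eq with h | h
    · have h2 := h1 n h
      rw [A601_Icc hn, Finset.sum_insert (by simp), M.Sq_id, LinearMap.comp_id] at h2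
      have h3 : c n = ∑ k ∈ Finset.Ioc n m, (c k).comp (M.Sq n k) := by
        have h4 := eq_neg_of_add_eq_zero_left h2
        rw [neg_eq'] at h4
        exact h4
      rw [h3, A601_rec M n m h]
      refine Finset.sum_congr rfl fun k hk => ?_
      rw [Finset.mem_Ioc] at hk
      rw [ih (m - k) (by omega) k hk.2 rfl]
    · subst h
      rw [h0, A601_self]

section A601

open Polynomial

/-- the truncated series `∑_(a < N) X^(2^a)` -/
private noncomputable def A601_s (N : ℕ) : (ZMod 2)[X] := ∑ a ∈ Finset.range N, X ^ (2 ^ a)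

private theorem A601_sq (N : ℕ) : A601_s N ^ 2 = A601_s N + X + X ^ (2 ^ N) := by
  induction N with
  | zero =>
    show (∑ a ∈ Finset.range 0, X ^ (2 ^ a) : (ZMod 2)[X]) ^ 2 =
      (∑ a ∈ Finset.range 0, X ^ (2 ^ a) : (ZMod 2)[X]) + X + X ^ (2 ^ 0)
    rw [Finset.range_zero, Finset.sum_empty, pow_zero, pow_one, zero_add,
      CharTwo.add_self_eq_zero]
    exact zero_pow two_ne_zero
  | succ N ih =>
    have h1 : A601_s (N + 1) = A601_s N + X ^ (2 ^ N) := Finset.sum_range_succ _ _
    rw [h1, CharTwo.add_sq, ih, ← pow_mul, ← pow_succ]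
    ring

private theorem A601_X_dvd (N : ℕ) : (X : (ZMod 2)[X]) ∣ A601_s N :=
  Finset.dvd_sum fun a _ => dvd_pow_self X (Nat.pos_iff_ne_zero.1 (Nat.two_pow_pos a))

private theorem A601_small (N k m : ℕ) (h : m < k) : (A601_s N ^ k).coeff m = 0 :=
  X_pow_dvd_iff.1 (pow_dvd_pow_of_dvd (A601_X_dvd N) k) m h

private theorem A601_coeff (N n m : ℕ) (hn : n ≤ m) (hm : m < 2 ^ N) :
    ∑ k ∈ Finset.Icc n m, ((Nat.choose n (k - n) : ℕ) : ZMod 2) * (A601_s N ^ k).coeff m =
      if n = m then 1 else 0 := by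
  have h1 : (A601_s N * (A601_s N + 1)) ^ n = (X + X ^ (2 ^ N)) ^ n := by
    congr 1
    have h2 := A601_sq N
    have h3 : A601_s N * (A601_s N + 1) = A601_s N ^ 2 + A601_s N := by ring
    rw [h3, h2]
    have h4 := CharTwo.add_self_eq_zero (A601_s N)
    calc A601_s N + X + X ^ 2 ^ N + A601_s N = (A601_s N + A601_s N) + (X + X ^ 2 ^ N) := by ring
      _ = _ := by rw [h4, zero_add]
  have h2 : ((X + X ^ (2 ^ N) : (ZMod 2)[X]) ^ n).coeff m = (X ^ n : (ZMod 2)[X]).coeff m := by
    have h3 : (X ^ (2 ^ N) : (ZMod 2)[X]) ∣ (X + X ^ (2 ^ N)) ^ n - X ^ n := by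
      have h4 := sub_dvd_pow_sub_pow (X + X ^ (2 ^ N) : (ZMod 2)[X]) X n
      rwa [add_sub_cancel_left] at h4
    have h5 := X_pow_dvd_iff.1 h3 m hm
    rw [coeff_sub] at h5
    exact sub_eq_zero.1 h5
  have h3 : ((A601_s N * (A601_s N + 1)) ^ n).coeff m =
      ∑ l ∈ Finset.range (n + 1), ((Nat.choose n l : ℕ) : ZMod 2) *
        (A601_s N ^ (n + l)).coeff m := by
    rw [mul_pow, add_pow, Finset.mul_sum, finset_sum_coeff]
    refine Finset.sum_congr rfl fun l _ => ?_
    rw [one_pow, mul_one, ← mul_assoc, ← pow_add, mul_comm, ← C_eq_natCast, coeff_C_mul]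
  have h4 : ∑ k ∈ Finset.Icc n m, ((Nat.choose n (k - n) : ℕ) : ZMod 2) *
      (A601_s N ^ k).coeff m = ∑ l ∈ Finset.range (m - n + 1), ((Nat.choose n l : ℕ) : ZMod 2) *
        (A601_s N ^ (n + l)).coeff m := by
    have h5 : Finset.Icc n m = Finset.Ico n (m + 1) := by
      ext k
      simp only [Finset.mem_Icc, Finset.mem_Ico]
      omega
    rw [h5, Finset.sum_Ico_eq_sum_range, show m + 1 - n = m - n + 1 by omega]
    refine Finset.sum_congr rfl fun l _ => ?_
    rw [Nat.add_sub_cancel_left]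
  have h5 : ∑ l ∈ Finset.range (n + 1), ((Nat.choose n l : ℕ) : ZMod 2) *
        (A601_s N ^ (n + l)).coeff m = ∑ l ∈ Finset.range (m + n + 1),
          ((Nat.choose n l : ℕ) : ZMod 2) * (A601_s N ^ (n + l)).coeff m := by
    refine Finset.sum_subset (Finset.range_mono (by omega)) fun l _ hl => ?_
    rw [Finset.mem_range] at hl
    rw [Nat.choose_eq_zero_of_lt (by omega), Nat.cast_zero, zero_mul]
  have h6 : ∑ l ∈ Finset.range (m - n + 1), ((Nat.choose n l : ℕ) : ZMod 2) *
        (A601_s N ^ (n + l)).coeff m = ∑ l ∈ Finset.range (m + n + 1),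
          ((Nat.choose n l : ℕ) : ZMod 2) * (A601_s N ^ (n + l)).coeff m := by
    refine Finset.sum_subset (Finset.range_mono (by omega)) fun l _ hl => ?_
    rw [Finset.mem_range] at hl
    rw [A601_small N _ _ (by omega), mul_zero]
  rw [h4, h6, ← h5, ← h3, h1, h2, coeff_X_pow]
  simp only [eq_comm]

/-- number of binary digits `1` -/
private def A601_pc (m : ℕ) : ℕ := if m = 0 then 0 else m % 2 + A601_pc (m / 2)
termination_by m
decreasing_by omega

private theorem A601_pc_even (m : ℕ) : A601_pc (2 * m) = A601_pc m := by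
  rcases Nat.eq_zero_or_pos m with h | h
  · rw [h]
  · rw [A601_pc, if_neg (by omega), show 2 * m % 2 = 0 by omega, show 2 * m / 2 = m by omega,
      zero_add]

private theorem A601_pc_odd (m : ℕ) : A601_pc (2 * m + 1) = A601_pc m + 1 := by
  rw [A601_pc, if_neg (by omega), show (2 * m + 1) % 2 = 1 by omega,
    show (2 * m + 1) / 2 = m by omega, add_comm]

private theorem A601_pc_succ (m : ℕ) : A601_pc (m + 1) ≤ A601_pc m + 1 := by
  induction m using Nat.strong_induction_on with
  | _ m ih =>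
    obtain ⟨r, hr⟩ := Nat.even_or_odd' m
    rcases hr with rfl | rfl
    · rw [A601_pc_odd, A601_pc_even]
    · rw [show 2 * r + 1 + 1 = 2 * (r + 1) by ring, A601_pc_even, A601_pc_odd]
      have := ih r (by omega)
      omega

private theorem A601_pc_pow (e m : ℕ) : A601_pc (m + 2 ^ e) ≤ A601_pc m + 1 := by
  induction e generalizing m with
  | zero => exact A601_pc_succ m
  | succ e ih =>
    obtain ⟨r, hr⟩ := Nat.even_or_odd' m
    rcases hr with rfl | rfl
    · rw [show 2 * r + 2 ^ (e + 1) = 2 * (r + 2 ^ e) by ring, A601_pc_even, A601_pc_even]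
      exact ih r
    · rw [show 2 * r + 1 + 2 ^ (e + 1) = 2 * (r + 2 ^ e) + 1 by ring, A601_pc_odd, A601_pc_odd]
      have := ih r
      omega

private theorem A601_pc_two (k : ℕ) : A601_pc (2 ^ k - 1) = k := by
  induction k with
  | zero =>
    rw [A601_pc]
    rfl
  | succ k ih =>
    have h := Nat.two_pow_pos k
    rw [show 2 ^ (k + 1) - 1 = 2 * (2 ^ k - 1) + 1 by rw [pow_succ]; omega, A601_pc_odd, ih]

private theorem A601_s_coeff (N m : ℕ) (h : (A601_s N).coeff m ≠ 0) : ∃ a, m = 2 ^ a := by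
  rw [A601_s, finset_sum_coeff] at h
  obtain ⟨a, -, ha⟩ := Finset.exists_ne_zero_of_sum_ne_zero h
  rw [coeff_X_pow] at ha
  exact ⟨a, by by_contra h; exact ha (if_neg h)⟩

private theorem A601_pc_le (N i m : ℕ) (h : (A601_s N ^ i).coeff m ≠ 0) : A601_pc m ≤ i := by
  induction i generalizing m with
  | zero =>
    rw [pow_zero, coeff_one] at h
    have h1 : m = 0 := by
      by_contra h1
      exact h (if_neg h1)
    rw [h1, A601_pc]
    rfl
  | succ i ih =>
    rw [pow_succ, coeff_mul] at h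
    obtain ⟨⟨u, v⟩, huv, h1⟩ := Finset.exists_ne_zero_of_sum_ne_zero h
    rw [Finset.HasAntidiagonal.mem_antidiagonal] at huv
    have h2 := ih u (left_ne_zero_of_mul h1)
    obtain ⟨a, ha⟩ := A601_s_coeff N v (right_ne_zero_of_mul h1)
    have h3 : u + v = m := huv
    have ha' : v = 2 ^ a := ha
    have h4 := A601_pc_pow a u
    rw [← h3, ha']
    omega

private theorem A601_one (N k : ℕ) (hk : k < N) : (A601_s N).coeff (2 ^ k) = 1 := by
  rw [A601_s, finset_sum_coeff, Finset.sum_eq_single k]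
  · rw [coeff_X_pow, if_pos rfl]
  · intro a _ ha
    rw [coeff_X_pow, if_neg]
    intro h
    exact ha (Nat.pow_right_injective le_rfl h).symm
  · intro h
    exact absurd (Finset.mem_range.2 hk) h

private theorem A601_val (N k j : ℕ) (hk : k < N) (hj : j + 1 ≤ k) :
    (A601_s N ^ (j + 1)).coeff (2 ^ k) = 1 := by
  induction j with
  | zero => rw [pow_one, A601_one N k hk]
  | succ j ih =>
    have h1 : A601_s N ^ (j + 1 + 1) = A601_s N ^ (j + 1) + X * A601_s N ^ j +
        X ^ (2 ^ N) * A601_s N ^ j := by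
      rw [show j + 1 + 1 = j + 2 by rfl, pow_add, A601_sq]
      ring
    have hp := Nat.two_pow_pos k
    have h2 : (X * A601_s N ^ j).coeff (2 ^ k) = 0 := by
      obtain ⟨r, hr⟩ : ∃ r, 2 ^ k = r + 1 := ⟨2 ^ k - 1, by omega⟩
      rw [hr, coeff_X_mul]
      by_contra h
      have h3 := A601_pc_le N j r h
      have h4 := A601_pc_two k
      rw [hr, Nat.add_sub_cancel] at h4
      omega
    have h3 : (X ^ (2 ^ N) * A601_s N ^ j).coeff (2 ^ k) = 0 := by
      have h4 : 2 ^ k < 2 ^ N := Nat.pow_lt_pow_right (by norm_num) hk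
      exact X_pow_dvd_iff.1 (Dvd.intro _ rfl) _ h4
    rw [h1, coeff_add, coeff_add, h2, h3, ih (by omega), add_zero, add_zero]

private theorem A601_main {M : AM} {f : ∀ n, Module.Dual (ZMod 2) (M.M n)} (hf : f ∈ M.HomH 0)
    (N n m : ℕ) (hn : n ≤ m) (hm : m < 2 ^ N) (x : M.M n) :
    f m (M.cSq n m x) = (A601_s N ^ n).coeff m * f n x := by
  obtain ⟨r, hr⟩ : ∃ r, m - n = r := ⟨_, rfl⟩
  induction r using Nat.strong_induction_on generalizing n with
  | _ r ih =>
    have h1 := A601_coeff N n m hn hm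
    rw [A601_Icc hn, Finset.sum_insert (by simp), Nat.sub_self, Nat.choose_zero_right,
      Nat.cast_one, one_mul] at h1
    rcases hn.lt_or_eq with h | h
    · rw [if_neg h.ne] at h1
      have h2 : (A601_s N ^ n).coeff m = ∑ k ∈ Finset.Ioc n m,
          ((Nat.choose n (k - n) : ℕ) : ZMod 2) * (A601_s N ^ k).coeff m :=
        CharTwo.add_eq_zero.1 h1
      rw [h2, A601_rec M n m h, LinearMap.sum_apply, map_sum, Finset.sum_mul]
      refine Finset.sum_congr rfl fun k hk => ?_
      rw [Finset.mem_Ioc] at hk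
      rw [LinearMap.comp_apply, ih (m - k) (by omega) k hk.2 _ rfl, hf.2 n k x hk.1.le,
        Nat.sub_zero]
      ring
    · subst h
      rw [if_pos rfl, Finset.Ioc_self, Finset.sum_empty, add_zero] at h1
      rw [h1, one_mul, A601_self]
      rfl

end A601

/-- an element of `HomH M 0` is determined by its values in the degrees `2^k`, `k` large -/
theorem HomH_cSq {M : AM} {f : ∀ n, Module.Dual (ZMod 2) (M.M n)} (hf : f ∈ M.HomH 0) (j k : ℕ)
    (hj : 1 ≤ j) (hk : j ≤ k) (x : M.M j) : f (2 ^ k) (M.cSq j (2 ^ k) x) = f j x := by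
  obtain ⟨i, rfl⟩ : ∃ i, j = i + 1 := ⟨j - 1, by omega⟩
  have h1 : k < 2 ^ k := Nat.lt_two_pow_self
  rw [A601_main hf (k + 1) (i + 1) (2 ^ k) (by omega) (Nat.pow_lt_pow_right (by norm_num)
    (Nat.lt_succ_self k)), A601_val (k + 1) k i (Nat.lt_succ_self k) hk, one_mul]

end MM
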