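import Pool.Agent.Lib_MP_33f7bb_d.A601

/-!
# A6-02: the inverse total square on `E(n)`

Let `U y b = ∑_(c ≤ b) y c` for any function `y : (Fin n → ℕ) → ZMod 2` (sum over the finite set `Finset.Iic b` of the
product order).  Claim `EAM_cSq`: `(cSq j m y) b = U y b` if `wt b = m`, `0` otherwise, for `y ∈ E(n)^j`.
Proof.  The right hand side defines linear maps `c j : EE n j → EE n m` (symmetric: `U y (b ∘ σ) = U y b` by
reindexing; finitely many `b` with `wt b = m`; `LinearMap` by hand).  Apply `AM.cSq_unique`.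
`c m = id`: if `wt b = m`, `y ∈ EE n m`, `c ≤ b` and `y c ≠ 0` then `wt c = m = wt b`, so `c = b` (`2^` strictly
monotone).  Relation: for `y ∈ EE n j`, `j < m`, `wt b = m`:
`∑_(j ≤ k ≤ m) U (wtc k (Sqt y)) b = U (Sqt y) b` because all `c ≤ b` with `Sqt y c ≠ 0` have weight between `j` (`Sqt_wt`)
and `m`; and `U (Sqt y) b = y b` (in char 2, telescoping in each coordinate), which is `0` since `wt b = m ≠ j`.
`U (Sqt y) b = y b`: one coordinate at a time.  `Sqt y c = ∑_(ε ≤ c) y (c - ε)` (`Sqt_apply_eq`).  The double sum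
`∑_(c ≤ b) ∑_(ε ∈ {0,1}^n, ε ≤ c) y (c - ε)`: substitute `c' = c - ε`: it is `∑_(c' ≤ b) y c' * #{ε ∈ {0,1}^n : c' + ε ≤ b}`
and the number of these `ε` is `2^(number of i with c' i < b i)`, which is odd iff `c' = b`.
-/

namespace MM

/-- entries are at most the weight -/
theorem lt_wt {n : ℕ} (b : Fin n → ℕ) (i : Fin n) : b i < wt b := by
  have h1 : b i < 2 ^ b i := Nat.lt_two_pow_self
  have h2 : 2 ^ b i ≤ wt b :=
    Finset.single_le_sum (f := fun i => 2 ^ b i) (fun _ _ => Nat.zero_le _) (Finset.mem_univ i)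
  exact h1.trans_le h2

theorem wt_finite (n m : ℕ) : {b : Fin n → ℕ | wt b = m}.Finite := by
  refine (Set.finite_Iic (fun _ : Fin n => m)).subset ?_
  rintro b rfl i
  exact (lt_wt b i).le

private theorem A602_wt_lt {n : ℕ} {c b : Fin n → ℕ} (h : c ≤ b) (hne : c ≠ b) :
    wt c < wt b := by
  obtain ⟨i, hi⟩ := Function.ne_iff.1 hne
  refine Finset.sum_lt_sum (fun j _ => Nat.pow_le_pow_right (by norm_num) (h j))
    ⟨i, Finset.mem_univ _, ?_⟩
  exact Nat.pow_lt_pow_right (by norm_num) (lt_of_le_of_ne (h i) hi)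

private theorem A602_wt_le {n : ℕ} {c b : Fin n → ℕ} (h : c ≤ b) : wt c ≤ wt b :=
  Finset.sum_le_sum fun j _ => Nat.pow_le_pow_right (by norm_num) (h j)

open Classical in
private theorem A602_count {n : ℕ} (a b : Fin n → ℕ) :
    (∑ ε : Fin n → Fin 2, if (fun i => a i + (ε i : ℕ)) ≤ b then (1 : ZMod 2) else 0) =
      if a = b then 1 else 0 := by
  classical
  have h1 : ∀ ε : Fin n → Fin 2, (if (fun i => a i + (ε i : ℕ)) ≤ b then (1 : ZMod 2) else 0) =
      ∏ i, if a i + (ε i : ℕ) ≤ b i then (1 : ZMod 2) else 0 := by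
    intro ε
    rw [Finset.prod_ite_zero]
    simp [Pi.le_def]
  have h2 : ∀ i, (∑ e : Fin 2, if a i + (e : ℕ) ≤ b i then (1 : ZMod 2) else 0) =
      if a i = b i then 1 else 0 := by
    intro i
    rw [Fin.sum_univ_two]
    rcases lt_trichotomy (a i) (b i) with h | h | h
    · rw [if_pos (by simpa using h.le), if_pos (by simpa using h), if_neg h.ne]
      decide
    · rw [if_pos (by simp [h]), if_neg (by simp [h]), if_pos h, add_zero]
    · rw [if_neg (by simpa using h), if_neg (by simp; omega), if_neg h.ne', add_zero]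
  rw [Finset.sum_congr rfl fun ε _ => h1 ε]
  have h3 := Finset.prod_univ_sum (fun _ : Fin n => (Finset.univ : Finset (Fin 2)))
    (fun i e => if a i + (e : ℕ) ≤ b i then (1 : ZMod 2) else 0)
  rw [Fintype.piFinset_univ] at h3
  rw [← h3, Finset.prod_congr rfl fun i _ => h2 i, Finset.prod_ite_zero]
  simp [funext_iff]

private theorem A602_U_Sqt {n : ℕ} (y : Mon n) (b : Fin n → ℕ) :
    ∑ c ∈ Finset.Iic b, Sqt y c = y b := by
  classical
  induction y using Finsupp.induction_linear with
  | zero => simp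
  | add u v hu hv =>
    rw [map_add]
    simp only [Finsupp.add_apply]
    rw [Finset.sum_add_distrib, hu, hv]
  | single a r =>
    rw [Sqt_single]
    simp only [Finsupp.finsetSum_apply]
    rw [Finset.sum_comm]
    have h1 : ∀ ε : Fin n → Fin 2,
        (∑ c ∈ Finset.Iic b, (Finsupp.single (fun i => a i + (ε i : ℕ)) r : Mon n) c) =
        r * (if (fun i => a i + (ε i : ℕ)) ≤ b then (1 : ZMod 2) else 0) := by
      intro ε
      simp only [Finsupp.single_apply]
      rw [Finset.sum_ite_eq]
      simp only [Finset.mem_Iic, mul_ite, mul_one, mul_zero]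
    rw [Finset.sum_congr rfl fun ε _ => h1 ε, ← Finset.mul_sum, A602_count, Finsupp.single_apply]
    simp

private noncomputable def A602_c (n j m : ℕ) : EE n j →ₗ[ZMod 2] EE n m where
  toFun y := ⟨Finsupp.onFinset (wt_finite n m).toFinset
    (fun b => if wt b = m then ∑ c ∈ Finset.Iic b, y.1 c else 0) (fun b hb => by
      rw [Set.Finite.mem_toFinset]
      by_contra h
      exact hb (if_neg h)), by
    refine ⟨fun b hb => ?_, fun σ b => ?_⟩
    · by_contra h
      exact hb (if_neg h)
    · show (if wt (b ∘ σ) = m then ∑ c ∈ Finset.Iic (b ∘ σ), y.1 c else 0) =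
        (if wt b = m then ∑ c ∈ Finset.Iic b, y.1 c else 0)
      rw [wt_comp]
      congr 1
      refine Finset.sum_nbij' (fun c => c ∘ σ.symm) (fun c => c ∘ σ) ?_ ?_ ?_ ?_ ?_
      · intro c hc
        rw [Finset.mem_Iic] at hc ⊢
        intro i
        have := hc (σ.symm i)
        simpa using this
      · intro c hc
        rw [Finset.mem_Iic] at hc ⊢
        intro i
        exact hc (σ i)
      · intro c _
        funext i
        simp
      · intro c _
        funext i
        simp
      · intro c _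
        exact (y.2.2 σ.symm c).symm⟩
  map_add' y z := by
    refine Subtype.ext (Finsupp.ext fun b => ?_)
    show (if wt b = m then ∑ c ∈ Finset.Iic b, (y.1 + z.1) c else 0) =
      (if wt b = m then ∑ c ∈ Finset.Iic b, y.1 c else 0) +
      (if wt b = m then ∑ c ∈ Finset.Iic b, z.1 c else 0)
    split_ifs
    · rw [← Finset.sum_add_distrib]
      rfl
    · rw [add_zero]
  map_smul' r y := by
    refine Subtype.ext (Finsupp.ext fun b => ?_)
    show (if wt b = m then ∑ c ∈ Finset.Iic b, (r • y.1) c else 0) =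
      r • (if wt b = m then ∑ c ∈ Finset.Iic b, y.1 c else 0)
    split_ifs
    · rw [Finset.smul_sum]
      rfl
    · rw [smul_zero]

private theorem A602_c_apply {n j m : ℕ} (y : EE n j) (b : Fin n → ℕ) :
    (A602_c n j m y).1 b = if wt b = m then ∑ c ∈ Finset.Iic b, y.1 c else 0 := rfl

private theorem A602_id (n m : ℕ) : A602_c n m m = LinearMap.id := by
  refine LinearMap.ext fun y => Subtype.ext (Finsupp.ext fun b => ?_)
  rw [A602_c_apply, LinearMap.id_apply]
  split_ifs with h
  · rw [Finset.sum_eq_single b]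
    · intro c hc hne
      rw [Finset.mem_Iic] at hc
      by_contra h1
      have h2 := y.2.1 c h1
      have h3 := A602_wt_lt hc hne
      omega
    · intro h1
      exact absurd (Finset.mem_Iic.2 le_rfl) h1
  · by_contra h1
    exact h (y.2.1 b fun h2 => h1 h2.symm)

private theorem A602_rel (n j m : ℕ) (hjm : j < m) :
    ∑ k ∈ Finset.Icc j m, (A602_c n k m).comp ((EAM n).Sq j k) = 0 := by
  classical
  refine LinearMap.ext fun y => ?_
  rw [LinearMap.sum_apply]
  refine Subtype.ext (Finsupp.ext fun b => ?_)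
  rw [AddSubmonoidClass.coe_finsetSum, Finsupp.finsetSum_apply]
  have h1 : ∀ k, ((A602_c n k m).comp ((EAM n).Sq j k) y).1 b =
      if wt b = m then ∑ c ∈ Finset.Iic b, (if wt c = k then Sqt (y : EE n j).1 c else 0) else 0 := by
    intro k
    show (A602_c n k m ((EAM n).Sq j k y : EE n k)).1 b = _
    rw [A602_c_apply]
    congr 1
  rw [Finset.sum_congr rfl fun k _ => h1 k]
  show _ = (0 : ZMod 2)
  by_cases hb : wt b = m
  · simp only [if_pos hb]
    rw [Finset.sum_comm]
    have h2 : ∀ c ∈ Finset.Iic b, (∑ k ∈ Finset.Icc j m,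
        if wt c = k then Sqt (y : EE n j).1 c else 0) = Sqt (y : EE n j).1 c := by
      intro c hc
      rw [Finset.mem_Iic] at hc
      rw [Finset.sum_ite_eq]
      split_ifs with h3
      · rfl
      · by_contra h4
        have h5 := Sqt_wt (y : EE n j).2.1 c (fun h6 => h4 h6.symm)
        have h6 := A602_wt_le hc
        exact h3 (Finset.mem_Icc.2 ⟨h5.1, by omega⟩)
    rw [Finset.sum_congr rfl h2, A602_U_Sqt]
    by_contra h7
    have h8 := (y : EE n j).2.1 b h7
    omega
  · simp only [if_neg hb, Finset.sum_const_zero]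

/-- the formula for the inverse total square on `E(n)` -/
theorem EAM_cSq {n j m : ℕ} (y : (EAM n).M j) (b : Fin n → ℕ) :
    ((EAM n).cSq j m y : EE n m).1 b =
      if wt b = m then ∑ c ∈ Finset.Iic b, (y : EE n j).1 c else 0 := by
  rcases lt_or_ge m j with h | h
  · rw [AM.cSq_lt _ _ _ h]
    show (0 : ZMod 2) = _
    split_ifs with hb
    · refine (Finset.sum_eq_zero fun c hc => ?_).symm
      rw [Finset.mem_Iic] at hc
      by_contra h1
      have h2 := (y : EE n j).2.1 c h1
      have h3 := A602_wt_le hc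
      omega
    · rfl
  · have h1 := AM.cSq_unique (EAM n) m (fun j => A602_c n j m) (A602_id n m)
      (fun j hj => A602_rel n j m hj) j h
    rw [← h1]
    exact A602_c_apply (y : EE n j) b

end MM
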