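import Pool.Agent.Lib_MP_33f7bb_d.A6Def

/-!
# A6-04: `Sq0` on `E(n)`: injectivity and relation with the other operations

`EAM_Sq0_apply`: `(Sq0 c)(b) = c (b - 1)` if all entries of `b` are `≥ 1`, `0` otherwise: in
`wtc (2 d) (Sqt c)` a summand `b = c' + ε` has weight `∑ 2^(c' i) (1 + ε i)`, equal to `2 d` only for `ε = 1`
(`c` has weight `d`; for `n = 0` both sides are `c`).
`EAM_Inj0`: the shift `b ↦ b + 1` is injective.
`EAM_Frob`: `Sqt (shift c) = shift (Sqt c)`; `wt (b + 1) = 2 * wt b`, so the component of weight `2 r` of `shift w` is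
the shift of the component of weight `r` of `w`, and all components of odd weight are zero.
-/

namespace MM

/-- shifting by one doubles the weight -/
private theorem wt_shift_A604 {n : ℕ} (b : Fin n → ℕ) : wt (fun i => b i + 1) = 2 * wt b := by
  unfold wt
  rw [Finset.mul_sum]
  exact Finset.sum_congr rfl fun i _ => by ring

private theorem wt_pred_A604 {n : ℕ} {b : Fin n → ℕ} (h : ∀ i, 1 ≤ b i) :
    wt b = 2 * wt (fun i => b i - 1) := by
  rw [← wt_shift_A604]
  congr 1
  funext i
  have := h i
  omega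

/-- if adding `ε` doubles the weight then `ε = 1` -/
private theorem wt_double_A604 {n : ℕ} {b : Fin n → ℕ} {ε : Fin n → Fin 2}
    (h : wt (fun i => b i + (ε i : ℕ)) = 2 * wt b) : ε = 1 := by
  funext i
  by_contra hi
  have h0 : (ε i : ℕ) = 0 := by
    have h1 : (ε i : ℕ) < 2 := (ε i).2
    have h2 : (ε i : ℕ) ≠ 1 := fun h' => hi (Fin.ext h')
    omega
  have h1 : wt (fun i => b i + (ε i : ℕ)) < wt (fun i => b i + 1) := by
    unfold wt
    refine Finset.sum_lt_sum (fun j _ => Nat.pow_le_pow_right (by norm_num) ?_)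
      ⟨i, Finset.mem_univ _, ?_⟩
    · have : (ε j : ℕ) < 2 := (ε j).2
      show b j + (ε j : ℕ) ≤ b j + 1
      omega
    · refine Nat.pow_lt_pow_right (by norm_num) ?_
      show b i + (ε i : ℕ) < b i + 1
      omega
  rw [wt_shift_A604] at h1
  omega

private theorem Sq_apply_A604 {n d m : ℕ} (c : (EAM n).M d) (b : Fin n → ℕ) :
    ((EAM n).Sq d m c : EE n m).1 b = if wt b = m then
      ∑ ε : Fin n → Fin 2, (if ∀ i, (ε i : ℕ) ≤ b i then
        (c : EE n d).1 (fun i => b i - (ε i : ℕ)) else 0) else 0 := by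
  classical
  show (Finsupp.filter (fun b => wt b = m) (Sqt (c : EE n d).1)) b = _
  rw [Finsupp.filter_apply, Sqt_apply_eq]

theorem EAM_Sq0_apply {n d : ℕ} (c : (EAM n).M d) (b : Fin n → ℕ) :
    ((EAM n).Sq d (2 * d) c : EE n (2 * d)).1 b =
      if ∀ i, 1 ≤ b i then (c : EE n d).1 (fun i => b i - 1) else 0 := by
  rw [Sq_apply_A604]
  have hc := (c : EE n d).2.1
  by_cases hb : wt b = 2 * d
  · rw [if_pos hb, Finset.sum_eq_single (1 : Fin n → Fin 2)]
    · rfl
    · intro ε _ hε
      by_contra hne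
      have h : ∀ i, (ε i : ℕ) ≤ b i := by
        by_contra h
        exact hne (if_neg h)
      rw [if_pos h] at hne
      have h1 := hc _ hne
      have h2 : b = fun i => (b i - (ε i : ℕ)) + (ε i : ℕ) := by
        funext i
        have := h i
        omega
      refine hε (wt_double_A604 (b := fun i => b i - (ε i : ℕ)) ?_)
      rw [← h2, h1, hb]
    · intro h
      exact absurd (Finset.mem_univ _) h
  · rw [if_neg hb]
    split_ifs with h
    · by_contra hne
      have h1 := hc _ fun h' => hne h'.symm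
      exact hb (by rw [wt_pred_A604 h, h1])
    · rfl

theorem EAM_Inj0 (n : ℕ) : (EAM n).Inj0 := by
  intro d x hx
  refine Subtype.ext (Finsupp.ext fun b => ?_)
  have h1 := EAM_Sq0_apply x (fun i => b i + 1)
  rw [hx, if_pos (fun i => Nat.le_add_left 1 (b i))] at h1
  show (x : EE n d).1 b = 0
  have h2 : (fun i => b i + 1 - 1) = b := by
    funext i
    exact Nat.add_sub_cancel _ _
  rw [h2] at h1
  exact h1.symm

/-- the summands of an operation applied to `Sq0 x` -/
private theorem Sq_Sq0_A604 {n p m : ℕ} (x : (EAM n).M p) (b : Fin n → ℕ) :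
    ((EAM n).Sq (2 * p) m ((EAM n).Sq p (2 * p) x) : EE n m).1 b =
      if wt b = m ∧ ∀ i, 1 ≤ b i then
        ∑ ε : Fin n → Fin 2, (if ∀ i, (ε i : ℕ) ≤ b i - 1 then
          (x : EE n p).1 (fun i => b i - 1 - (ε i : ℕ)) else 0) else 0 := by
  rw [Sq_apply_A604]
  by_cases hb : wt b = m
  · rw [if_pos hb]
    by_cases h1 : ∀ i, 1 ≤ b i
    · rw [if_pos ⟨hb, h1⟩]
      refine Finset.sum_congr rfl fun ε _ => ?_
      by_cases h2 : ∀ i, (ε i : ℕ) ≤ b i - 1
      · have h3 : ∀ i, (ε i : ℕ) ≤ b i := fun i => (h2 i).trans (Nat.sub_le _ _)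
        have h4 : ∀ i, 1 ≤ b i - (ε i : ℕ) := fun i => by
          have := h1 i
          have := h2 i
          omega
        rw [if_pos h2, if_pos h3, EAM_Sq0_apply, if_pos h4]
        congr 1
        funext i
        omega
      · rw [if_neg h2]
        split_ifs with h3
        · rw [EAM_Sq0_apply, if_neg]
          intro h4
          apply h2
          intro i
          have := h3 i
          have := h4 i
          omega
        · rfl
    · rw [if_neg (fun h => h1 h.2)]
      refine Finset.sum_eq_zero fun ε _ => ?_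
      split_ifs with h3
      · rw [EAM_Sq0_apply, if_neg]
        intro h4
        apply h1
        intro i
        have := h4 i
        omega
      · rfl
  · rw [if_neg hb, if_neg (fun h => hb h.1)]

theorem EAM_Frob (n : ℕ) : (EAM n).Frob := by
  refine ⟨fun p r x => ?_, fun p r x => ?_⟩
  · refine Subtype.ext (Finsupp.ext fun b => ?_)
    have h0 := Sq_Sq0_A604 (m := 2 * r) x b
    refine h0.trans ?_
    symm
    refine (EAM_Sq0_apply _ b).trans ?_
    by_cases h1 : ∀ i, 1 ≤ b i
    · rw [if_pos h1, Sq_apply_A604]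
      have h2 := wt_pred_A604 h1
      by_cases h3 : wt (fun i => b i - 1) = r
      · rw [if_pos h3, if_pos ⟨by omega, h1⟩]
      · rw [if_neg h3, if_neg (fun h => h3 (by omega))]
    · rw [if_neg h1, if_neg (fun h => h1 h.2)]
  · refine Subtype.ext (Finsupp.ext fun b => ?_)
    have h0 := Sq_Sq0_A604 (m := 2 * r + 1) x b
    refine h0.trans ?_
    rw [if_neg]
    · rfl
    · rintro ⟨h1, h2⟩
      have := wt_pred_A604 h2
      omega

end MM
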