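import Pool.Agent.Lib_MP_33f7bb_d.A602
import Pool.Agent.Lib_MP_33f7bb_d.A604

/-!
# A6-03: `E(n)` has the property `Beta`

`wt_pow_two`: if `wt b = ∑ 2^(b i) = 2^k` then every entry satisfies `b i ≥ k - n + 1`.  Proof: let `a` be the smallest entry,
`2^k - 2^a` is the sum of the other `n - 1` powers of two, all divisible by `2^a`; `2^(k-a) - 1` is not a sum of fewer than
`k - a` powers of two.  (Lemma: `∑_(i ∈ s) 2^(c i) + 1 = 2^t → t ≤ s.card`, induction on `t` for all `s`, `c`: for
`t ≥ 1` the sum is odd, so the number of `i` with `c i = 0` is odd; remove one of them; the remaining ones with `c i = 0` are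
even in number, pair them: two ones give one `2^1`; then divide by two.  Or: strong induction on `s.card` merging two equal
entries; or use the sum of binary digits, subadditive.)
`Theta n k : EE n (2^k)` = sum of all `b` with `wt b = 2^k` (finite set, `wt_finite`); symmetric.
`Sq0 (Theta n k) = Theta n (k+1)` for `k ≥ n`: `Sq0` is the shift `b ↦ b + 1` (`A604`, `Sqt_top`: in
`wtc (2 d) (Sqt c)` only `ε = 1` contributes) and every `b` with `wt b = 2^(k+1)` has all entries `≥ 1` (`wt_pow_two`).
`EAM_cSq_large`: for `y ∈ E(n)^j` there is `K` with `cSq j (2^k) y = (∑_c y c) • Theta n k` for `k ≥ K`: by `EAM_cSq`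
and `wt_pow_two`, as soon as `k - n + 1 ≥` all entries of all `c` in the support of `y`, every `b` of weight `2^k` is above the
whole support.
`EAM_Beta`: given a compatible family `l`; `lam := l k (Theta n k)`, independent of `k ≥ n`.  `f j y := lam * ∑_c y c`.
`f ∈ HomH 0`: `∑_b (wtc m (Sqt y)) b = choose j (m - j) * ∑_c y c` for `y ∈ E(n)^j`, `j ≤ m`: by linearity of the sums,
`= ∑_c y c * #{ε : wt (c + ε) = m}`, and for `wt c = j` the number of `ε ⊆ Fin n` with `∑_(i ∈ ε) 2^(c i) = m - j` is
congruent to `choose j (m - j)` mod 2: in `(ZMod 2)[X]`, `∏_i (1 + X^(2^(c i))) = ∏_i (1 + X)^(2^(c i)) = (1 + X)^j`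
(`add_pow_char_pow`/frobenius; `Finset.prod_one_add`), coefficient of `X^(m-j)`.
`f 0 = 0`: for `n ≥ 1` there is no `c` of weight `0`; for `n = 0`: `lam = l k (Theta 0 k) = l k 0 = 0` (`wt = 0` on
`Fin 0 → ℕ`, never `2^k`).
-/

namespace MM

/-! ### sums of powers of two -/

/-- the number of binary digits one -/
private def pc603 : ℕ → ℕ
  | 0 => 0
  | n + 1 => (n + 1) % 2 + pc603 ((n + 1) / 2)
  decreasing_by omega

private theorem pc603_eq (n : ℕ) : pc603 n = n % 2 + pc603 (n / 2) := by
  cases n with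
  | zero => simp [pc603]
  | succ n => rw [pc603]

private theorem pc603_succ_le (n : ℕ) : pc603 (n + 1) ≤ pc603 n + 1 := by
  induction n using Nat.strong_induction_on with
  | _ n ih =>
    rw [pc603_eq (n + 1), pc603_eq n]
    rcases Nat.even_or_odd' n with ⟨k, hk | hk⟩
    · have h1 : (n + 1) / 2 = n / 2 := by omega
      rw [h1]
      omega
    · have h1 : (n + 1) / 2 = n / 2 + 1 := by omega
      rw [h1]
      have h2 := ih (n / 2) (by omega)
      omega

private theorem pc603_add_le (s x y : ℕ) (h : x + y = s) : pc603 (x + y) ≤ pc603 x + pc603 y := by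
  induction s using Nat.strong_induction_on generalizing x y with
  | _ s ih =>
    by_cases hs : s = 0
    · obtain rfl : x = 0 := by omega
      obtain rfl : y = 0 := by omega
      simp
    · rw [pc603_eq (x + y), pc603_eq x, pc603_eq y]
      have h0 := ih (x / 2 + y / 2) (by omega) (x / 2) (y / 2) rfl
      by_cases h1 : (x + y) / 2 = x / 2 + y / 2
      · rw [h1]
        omega
      · have h2 : (x + y) / 2 = x / 2 + y / 2 + 1 := by omega
        rw [h2]
        have h3 := pc603_succ_le (x / 2 + y / 2)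
        omega

private theorem pc603_two_mul (n : ℕ) : pc603 (2 * n) = pc603 n := by
  rw [pc603_eq]
  have h1 : 2 * n % 2 = 0 := by omega
  have h2 : 2 * n / 2 = n := by omega
  rw [h1, h2, zero_add]

private theorem pc603_two_mul_add (n : ℕ) : pc603 (2 * n + 1) = pc603 n + 1 := by
  rw [pc603_eq]
  have h1 : (2 * n + 1) % 2 = 1 := by omega
  have h2 : (2 * n + 1) / 2 = n := by omega
  rw [h1, h2, add_comm]

private theorem pc603_pow_mul (a n : ℕ) : pc603 (2 ^ a * n) = pc603 n := by
  induction a with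
  | zero => simp
  | succ a ih =>
    rw [pow_succ', mul_assoc, pc603_two_mul, ih]

private theorem pc603_one : pc603 1 = 1 := by
  rw [pc603_eq]
  simp [pc603]

private theorem pc603_pow (a : ℕ) : pc603 (2 ^ a) = 1 := by
  have := pc603_pow_mul a 1
  rwa [mul_one, pc603_one] at this

private theorem pc603_pow_sub (t : ℕ) : pc603 (2 ^ t - 1) = t := by
  induction t with
  | zero => simp [pc603]
  | succ t ih =>
    have h1 : 2 ^ (t + 1) - 1 = 2 * (2 ^ t - 1) + 1 := by
      have := Nat.one_le_two_pow (n := t)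
      rw [pow_succ']
      omega
    rw [h1, pc603_two_mul_add, ih]

private theorem pc603_sum_le {ι : Type} (s : Finset ι) (c : ι → ℕ) :
    pc603 (∑ i ∈ s, 2 ^ c i) ≤ s.card := by
  classical
  induction s using Finset.induction_on with
  | empty => simp [pc603]
  | insert a s ha ih =>
    rw [Finset.sum_insert ha, Finset.card_insert_of_notMem ha]
    have h1 := pc603_add_le _ (2 ^ c a) (∑ i ∈ s, 2 ^ c i) rfl
    rw [pc603_pow] at h1
    omega

theorem wt_pow_two {n k : ℕ} (b : Fin n → ℕ) (h : wt b = 2 ^ k) (i : Fin n) : k + 1 ≤ b i + n := by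
  classical
  have hn : 0 < n := i.pos
  by_cases hk : k ≤ b i
  · omega
  · have h1 : 2 ^ b i + ∑ j ∈ Finset.univ.erase i, 2 ^ b j = 2 ^ k := by
      rw [Finset.add_sum_erase _ (fun j => 2 ^ b j) (Finset.mem_univ i)]
      exact h
    have h2 : ∑ j ∈ Finset.univ.erase i, 2 ^ b j = 2 ^ b i * (2 ^ (k - b i) - 1) := by
      rw [Nat.mul_sub, ← pow_add, mul_one, Nat.add_sub_cancel' (by omega)]
      omega
    have h3 := pc603_sum_le (Finset.univ.erase i) b
    rw [h2, pc603_pow_mul, pc603_pow_sub, Finset.card_erase_of_mem (Finset.mem_univ i),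
      Finset.card_univ, Fintype.card_fin] at h3
    omega

/-! ### the sum of the coefficients -/

/-- sum of the coefficients as a linear map -/
private noncomputable def sm603 {n : ℕ} : Mon n →ₗ[ZMod 2] ZMod 2 :=
  Finsupp.linearCombination (ZMod 2) fun _ => (1 : ZMod 2)

private theorem sm603_apply {n : ℕ} (y : Mon n) : sm603 y = y.sum (fun _ r => r) := by
  unfold sm603
  rw [Finsupp.linearCombination_apply]
  refine Finsupp.sum_congr fun b _ => ?_
  rw [smul_eq_mul, mul_one]

private theorem sm603_single {n : ℕ} (b : Fin n → ℕ) (r : ZMod 2) :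
    sm603 (Finsupp.single b r) = r := by
  unfold sm603
  rw [Finsupp.linearCombination_single, smul_eq_mul, mul_one]

open Polynomial in
private theorem count603 {n m : ℕ} (c : Fin n → ℕ) (hm : wt c ≤ m) :
    ((∑ ε : Fin n → Fin 2, if wt (fun i => c i + (ε i : ℕ)) = m then 1 else 0 : ZMod 2)) =
      ((Nat.choose (wt c) (m - wt c) : ℕ) : ZMod 2) := by
  have h1 : (∑ ε : Fin n → Fin 2, (X : (ZMod 2)[X]) ^ wt (fun i => c i + (ε i : ℕ))) =
      X ^ wt c * (1 + X) ^ wt c := by
    have e1 : ∀ ε : Fin n → Fin 2, (X : (ZMod 2)[X]) ^ wt (fun i => c i + (ε i : ℕ)) =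
        ∏ i, (X : (ZMod 2)[X]) ^ (2 ^ (c i + (ε i : ℕ))) := by
      intro ε
      unfold wt
      rw [Finset.prod_pow_eq_pow_sum]
    simp only [e1]
    have e2 := Finset.prod_univ_sum (fun _ : Fin n => (Finset.univ : Finset (Fin 2)))
      (fun i e => (X : (ZMod 2)[X]) ^ (2 ^ (c i + (e : ℕ))))
    rw [Fintype.piFinset_univ] at e2
    rw [← e2]
    unfold wt
    rw [← Finset.prod_pow_eq_pow_sum, ← Finset.prod_pow_eq_pow_sum, ← Finset.prod_mul_distrib]
    refine Finset.prod_congr rfl fun i _ => ?_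
    rw [Fin.sum_univ_two, add_pow_char_pow, one_pow]
    simp only [Fin.val_zero, Fin.val_one, add_zero]
    ring
  have h2 := congrArg (fun q : (ZMod 2)[X] => q.coeff m) h1
  simp only [Polynomial.finset_sum_coeff, Polynomial.coeff_X_pow] at h2
  rw [Polynomial.coeff_X_pow_mul', if_pos hm, Polynomial.coeff_one_add_X_pow] at h2
  rw [← h2]
  refine Finset.sum_congr rfl fun ε _ => ?_
  by_cases h : wt (fun i => c i + (ε i : ℕ)) = m
  · rw [if_pos h, if_pos h.symm]
  · rw [if_neg h, if_neg fun h' => h h'.symm]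

private theorem sum_single603 {n m : ℕ} (c : Fin n → ℕ) (r : ZMod 2) (hm : wt c ≤ m) :
    sm603 (wtc m (Sqt (Finsupp.single c r))) =
      ((Nat.choose (wt c) (m - wt c) : ℕ) : ZMod 2) * r := by
  classical
  rw [Sqt_single, map_sum, map_sum, ← count603 c hm, Finset.sum_mul]
  refine Finset.sum_congr rfl fun ε _ => ?_
  show sm603 (Finsupp.filter (fun b => wt b = m) (Finsupp.single _ r)) = _
  by_cases h : wt (fun i => c i + (ε i : ℕ)) = m
  · have e := Finsupp.filter_single_of_pos (fun b : Fin n → ℕ => wt b = m)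
      (a := fun i => c i + (ε i : ℕ)) (b := r) h
    rw [if_pos h, e, sm603_single, one_mul]
  · have e := Finsupp.filter_single_of_neg (fun b : Fin n → ℕ => wt b = m)
      (a := fun i => c i + (ε i : ℕ)) (b := r) h
    rw [if_neg h, e, map_zero, zero_mul]

/-- the sum of the coefficients of `wtc m (Sqt y)` -/
theorem EE_sum_Sq {n j m : ℕ} (hm : j ≤ m) (y : EE n j) :
    (wtc m (Sqt y.1)).sum (fun _ r => r) =
      ((Nat.choose j (m - j) : ℕ) : ZMod 2) * y.1.sum (fun _ r => r) := by
  rw [← sm603_apply]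
  conv_lhs => rw [← Finsupp.sum_single y.1]
  rw [Finsupp.sum, map_sum, map_sum, map_sum, Finsupp.sum, Finset.mul_sum]
  refine Finset.sum_congr rfl fun c hc => ?_
  have h1 : wt c = j := y.2.1 c (Finsupp.mem_support_iff.1 hc)
  have h2 := sum_single603 c (y.1 c) (h1.le.trans hm)
  rw [h1] at h2
  exact h2

/-! ### the elements `Theta` -/

private noncomputable def Th603 (n k : ℕ) : EE n (2 ^ k) :=
  ⟨∑ b ∈ (wt_finite n (2 ^ k)).toFinset, Finsupp.single b 1, by
    classical
    have h : ∀ b, (∑ c ∈ (wt_finite n (2 ^ k)).toFinset, Finsupp.single c (1 : ZMod 2)) b =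
        if wt b = 2 ^ k then 1 else 0 := by
      intro b
      rw [Finsupp.finsetSum_apply]
      simp only [Finsupp.single_apply]
      rw [Finset.sum_ite_eq']
      simp only [Set.Finite.mem_toFinset, Set.mem_setOf_eq]
    refine ⟨fun b hb => ?_, fun σ b => ?_⟩
    · by_contra h'
      rw [h, if_neg h'] at hb
      exact hb rfl
    · rw [h, h, wt_comp]⟩

private theorem Th603_apply (n k : ℕ) (b : Fin n → ℕ) :
    (Th603 n k).1 b = if wt b = 2 ^ k then 1 else 0 := by
  classical
  show (∑ c ∈ (wt_finite n (2 ^ k)).toFinset, Finsupp.single c (1 : ZMod 2)) b = _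
  rw [Finsupp.finsetSum_apply]
  simp only [Finsupp.single_apply]
  rw [Finset.sum_ite_eq']
  simp only [Set.Finite.mem_toFinset, Set.mem_setOf_eq]

private theorem Sq0_apply603 {n d m : ℕ} (hm : m = 2 * d) (c : EE n d) (b : Fin n → ℕ) :
    ((EAM n).Sq d m c : EE n m).1 b =
      if ∀ i, 1 ≤ b i then c.1 (fun i => b i - 1) else 0 := by
  subst hm
  exact EAM_Sq0_apply c b

private theorem Th603_Sq (n k : ℕ) (hk : n ≤ k) :
    ((EAM n).Sq (2 ^ k) (2 ^ (k + 1)) (Th603 n k) : EE n (2 ^ (k + 1))) = Th603 n (k + 1) := by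
  refine Subtype.ext (Finsupp.ext fun b => ?_)
  rw [Sq0_apply603 (by ring), Th603_apply, Th603_apply]
  have h0 : (∀ i, 1 ≤ b i) → wt b = 2 * wt (fun i => b i - 1) := by
    intro h
    unfold wt
    rw [Finset.mul_sum]
    refine Finset.sum_congr rfl fun i _ => ?_
    rw [← pow_succ', Nat.sub_add_cancel (h i)]
  by_cases hb : ∀ i, 1 ≤ b i
  · rw [if_pos hb]
    have h1 := h0 hb
    by_cases h2 : wt (fun i => b i - 1) = 2 ^ k
    · rw [if_pos h2, if_pos]
      rw [h1, h2]
      ring
    · rw [if_neg h2, if_neg]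
      intro h3
      apply h2
      rw [h1, pow_succ'] at h3
      exact Nat.eq_of_mul_eq_mul_left (by norm_num) h3
  · rw [if_neg hb, if_neg]
    intro h3
    apply hb
    intro i
    have h4 := wt_pow_two b h3 i
    omega

private theorem cSq603 {n j : ℕ} (y : EE n j) (k : ℕ) (hk : j + n ≤ k) :
    ((EAM n).cSq j (2 ^ k) y : EE n (2 ^ k)) = (sm603 y.1) • Th603 n k := by
  classical
  refine Subtype.ext (Finsupp.ext fun b => ?_)
  have h1 : ((EAM n).cSq j (2 ^ k) y : EE n (2 ^ k)).1 b =
      if wt b = 2 ^ k then ∑ c ∈ Finset.Iic b, y.1 c else 0 := EAM_cSq y b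
  rw [h1]
  show _ = (sm603 y.1) • (Th603 n k).1 b
  rw [Th603_apply]
  split_ifs with hb
  · rw [smul_eq_mul, mul_one, sm603_apply, Finsupp.sum]
    symm
    refine Finset.sum_subset ?_ ?_
    · intro c hc
      rw [Finset.mem_Iic]
      intro i
      have h2 : wt c = j := y.2.1 c (Finsupp.mem_support_iff.1 hc)
      have h3 := lt_wt c i
      have h4 := wt_pow_two b hb i
      show c i ≤ b i
      omega
    · intro c _ hc
      exact Finsupp.notMem_support_iff.1 hc
  · rw [smul_zero]

/-- `E(n)` has the property `Beta` -/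
theorem EAM_Beta (n : ℕ) : (EAM n).Beta := by
  intro l hl
  have hlam : ∀ k, n ≤ k → l k (Th603 n k) = l n (Th603 n n) := by
    intro k hk
    induction k, hk using Nat.le_induction with
    | base => rfl
    | succ k hk ih =>
      rw [← ih, ← hl k (Th603 n k)]
      congr 1
      exact (Th603_Sq n k hk).symm
  refine ⟨fun j => (l n (Th603 n n)) • (sm603.comp (EE n j).subtype), ⟨?_, ?_⟩, ?_⟩
  · intro j hj
    obtain rfl : j = 0 := by omega
    refine LinearMap.ext fun y => ?_
    show (l n (Th603 n n)) • sm603 (y : EE n 0).1 = 0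
    rcases Nat.eq_zero_or_pos n with rfl | hn
    · have h1 : Th603 0 0 = 0 := by
        refine Subtype.ext (Finsupp.ext fun b => ?_)
        rw [Th603_apply, if_neg]
        · rfl
        · simp [wt]
      have h2 : l 0 (Th603 0 0) = 0 := (congrArg (l 0) h1).trans (map_zero (l 0))
      rw [h2, zero_smul]
    · have h1 : (y : EE n 0).1 = 0 := by
        ext b
        by_contra hb
        have h2 := (y : EE n 0).2.1 b hb
        have h3 := lt_wt b ⟨0, hn⟩
        omega
      rw [h1, map_zero, smul_zero]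
  · intro j m y hjm
    show (l n (Th603 n n)) • sm603 ((EAM n).Sq j m y : EE n m).1 =
      _ * ((l n (Th603 n n)) • sm603 (y : EE n j).1)
    rw [EAM_Sq_val, sm603_apply, sm603_apply, EE_sum_Sq hjm y, Nat.sub_zero, smul_eq_mul,
      smul_eq_mul]
    ring
  · intro j y
    refine ⟨j + n, fun k hk => ?_⟩
    have h1 := cSq603 y k hk
    show (l n (Th603 n n)) • sm603 (y : EE n j).1 = l k ((EAM n).cSq j (2 ^ k) y)
    have h2 : l k ((EAM n).cSq j (2 ^ k) y) = l k (sm603 (y : EE n j).1 • Th603 n k) :=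
      congrArg (l k) h1
    have h3 : l k (sm603 (y : EE n j).1 • Th603 n k) = sm603 (y : EE n j).1 • l k (Th603 n k) :=
      LinearMap.map_smul (l k) (sm603 (y : EE n j).1) (Th603 n k : (EAM n).M (2 ^ k))
    rw [h2, h3, hlam k (by omega), smul_eq_mul, smul_eq_mul, mul_comm]

end MM
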