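import Pool.Agent.Lib_MP_33f7bb_d.A603

/-!
# A6-05: direct sums and isomorphisms

`Beta` of a direct sum: the inclusions `incl i : M i → dsum M` (`DFinsupp.lsingle`) are `AMHom`s.  For a compatible family `l`
on the direct sum, `l k ∘ incl i` is a compatible family on `M i`, choose `f i ∈ HomH (M i) 0` with constants `K i x`.  Put
`f n x = ∑_i f i n (x i)` (`DFinsupp.lsum` or `DFinsupp.sumAddHom`; `AddMonoidHom.toZModLinearMap`).  The relations hold
by linearity, on `DFinsupp.single i x` they are those of `f i`.  For `x` with finite support take the maximum of the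
`K i (x i)`; `x = ∑ incl i (x i)` (induction `DFinsupp.induction` or `DFinsupp.sum_single`), `cSq` commutes with `incl i`
(`AMHom.cSq`).
`Inj0`, `Frob`: componentwise.
Isomorphisms: `AMIso.hom`, `AMIso.symm`.
`Good`: `EAM_Beta`, `EAM_Inj0`, `EAM_Frob`, dsum, iso.
-/

namespace MM

/-- the inclusion of a summand -/
noncomputable def AM.incl {ι : Type} [DecidableEq ι] (M : ι → AM) (i : ι) : AMHom (M i) (AM.dsum M) :=
  ⟨fun n => DFinsupp.lsingle (M := fun i => (M i).M n) i, fun n m x => by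
    show DFinsupp.single i ((M i).Sq n m x) = DFinsupp.mapRange (fun i => (M i).Sq n m)
      (fun i => map_zero _) (DFinsupp.single i x)
    rw [DFinsupp.mapRange_single]⟩

private theorem A605_single {ι : Type} [DecidableEq ι] (M : ι → AM) (n m : ℕ) (i : ι)
    (x : (M i).M n) : (AM.dsum M).Sq n m (DFinsupp.single i x : Π₀ i, (M i).M n) =
      (DFinsupp.single i ((M i).Sq n m x) : Π₀ i, (M i).M m) := by
  show DFinsupp.mapRange (fun i => (M i).Sq n m) (fun i => map_zero _) (DFinsupp.single i x) = _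
  rw [DFinsupp.mapRange_single]

theorem AM.dsum_Inj0 {ι : Type} (M : ι → AM) (h : ∀ i, (M i).Inj0) : (AM.dsum M).Inj0 := by
  intro n (x : Π₀ i, (M i).M n) hx
  have hx' : (DFinsupp.mapRange.linearMap (fun i => (M i).Sq n (2 * n)) x :
    Π₀ i, (M i).M (2 * n)) = 0 := hx
  refine DFinsupp.ext (f := x) (g := 0) fun i => ?_
  have h1 := DFunLike.congr_fun hx' i
  rw [DFinsupp.mapRange.linearMap_apply, DFinsupp.mapRange_apply, DFinsupp.zero_apply] at h1
  rw [DFinsupp.zero_apply]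
  exact h i n _ h1

theorem AM.dsum_Frob {ι : Type} (M : ι → AM) (h : ∀ i, (M i).Frob) : (AM.dsum M).Frob := by
  refine ⟨fun p r (x : Π₀ i, (M i).M p) => ?_, fun p r (x : Π₀ i, (M i).M p) => ?_⟩
  · show DFinsupp.mapRange.linearMap (fun i => (M i).Sq (2 * p) (2 * r))
      (DFinsupp.mapRange.linearMap (fun i => (M i).Sq p (2 * p)) x) =
      DFinsupp.mapRange.linearMap (fun i => (M i).Sq r (2 * r))
      (DFinsupp.mapRange.linearMap (fun i => (M i).Sq p r) x)
    refine DFinsupp.ext fun i => ?_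
    simp only [DFinsupp.mapRange.linearMap_apply, DFinsupp.mapRange_apply]
    exact (h i).even p r _
  · show DFinsupp.mapRange.linearMap (fun i => (M i).Sq (2 * p) (2 * r + 1))
      (DFinsupp.mapRange.linearMap (fun i => (M i).Sq p (2 * p)) x) = 0
    refine DFinsupp.ext fun i => ?_
    simp only [DFinsupp.mapRange.linearMap_apply, DFinsupp.mapRange_apply, DFinsupp.zero_apply]
    exact (h i).odd p r _

theorem AM.dsum_Beta {ι : Type} (M : ι → AM) (h : ∀ i, (M i).Beta) : (AM.dsum M).Beta := by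
  classical
  intro l hl
  have hc : ∀ i, (M i).Cpt fun k => (l k).comp ((AM.incl M i).app (2 ^ k)) := by
    intro i k x
    show l (k + 1) ((AM.incl M i).app (2 ^ (k + 1)) ((M i).Sq (2 ^ k) (2 ^ (k + 1)) x)) =
      l k ((AM.incl M i).app (2 ^ k) x)
    rw [(AM.incl M i).comm]
    exact hl k _
  choose f hf K hK using fun i => h i _ (hc i)
  let F : ∀ n, Module.Dual (ZMod 2) ((AM.dsum M).M n) := fun n =>
    (DFinsupp.lsum ℕ (fun i => f i n) : (Π₀ i, (M i).M n) →ₗ[ZMod 2] ZMod 2)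
  have hF : ∀ n i (x : (M i).M n), F n (DFinsupp.single i x : Π₀ i, (M i).M n) = f i n x :=
    fun n i x => DFinsupp.lsum_single ℕ (fun i => f i n) i x
  refine ⟨F, ⟨fun n hn => ?_, fun n m x hnm => ?_⟩, fun j x => ?_⟩
  · refine DFinsupp.lhom_ext (M := fun i => (M i).M n) fun i x => ?_
    refine (hF n i x).trans ?_
    rw [(hf i).1 n hn]
    rfl
  · have h1 : (F m).comp ((AM.dsum M).Sq n m) =
        ((Nat.choose (n - 0) (m - n) : ℕ) : ZMod 2) • F n := by
      refine DFinsupp.lhom_ext (M := fun i => (M i).M n) fun i x => ?_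
      show F m ((AM.dsum M).Sq n m (DFinsupp.single i x : Π₀ i, (M i).M n)) =
        ((Nat.choose (n - 0) (m - n) : ℕ) : ZMod 2) * F n (DFinsupp.single i x : Π₀ i, (M i).M n)
      rw [A605_single, hF, hF]
      exact (hf i).2 n m x hnm
    exact LinearMap.congr_fun h1 x
  · refine DFinsupp.induction (p := fun x : Π₀ i, (M i).M j => ∃ K, ∀ k, K ≤ k →
      F j x = l k ((AM.dsum M).cSq j (2 ^ k) x)) (x : Π₀ i, (M i).M j) ?_ ?_
    · refine ⟨0, fun k _ => ?_⟩
      have h1 : F j (0 : Π₀ i, (M i).M j) = 0 := map_zero (F j)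
      have h2 : (AM.dsum M).cSq j (2 ^ k) (0 : Π₀ i, (M i).M j) = 0 :=
        map_zero ((AM.dsum M).cSq j (2 ^ k))
      rw [h1, h2, map_zero]
    · intro i b g _ _ hg
      obtain ⟨K', hK'⟩ := hg
      refine ⟨max (K i j b) K', fun k hk => ?_⟩
      have h1 : F j ((DFinsupp.single i b : Π₀ i, (M i).M j) + g) =
          F j (DFinsupp.single i b : Π₀ i, (M i).M j) + F j g := map_add (F j) _ _
      have h2 : (AM.dsum M).cSq j (2 ^ k) ((DFinsupp.single i b : Π₀ i, (M i).M j) + g) =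
          (AM.dsum M).cSq j (2 ^ k) (DFinsupp.single i b : Π₀ i, (M i).M j) +
          (AM.dsum M).cSq j (2 ^ k) g := map_add ((AM.dsum M).cSq j (2 ^ k)) _ _
      rw [h1, h2, map_add, hF, hK' k ((le_max_right _ _).trans hk),
        hK i j b k ((le_max_left _ _).trans hk)]
      congr 1
      show l k ((AM.incl M i).app (2 ^ k) ((M i).cSq j (2 ^ k) b)) = _
      rw [(AM.incl M i).cSq]
      rfl

theorem AMIso.Inj0 {M N : AM} (e : AMIso M N) (h : M.Inj0) : N.Inj0 := by
  intro n x hx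
  obtain ⟨y, rfl⟩ := (e.e n).surjective x
  rw [← e.comm] at hx
  have h1 := h n y ((e.e (2 * n)).injective (hx.trans (map_zero _).symm))
  rw [h1, map_zero]

theorem AMIso.Frob {M N : AM} (e : AMIso M N) (h : M.Frob) : N.Frob := by
  refine ⟨fun p r x => ?_, fun p r x => ?_⟩
  · obtain ⟨y, rfl⟩ := (e.e p).surjective x
    rw [← e.comm, ← e.comm, ← e.comm, ← e.comm, h.even]
  · obtain ⟨y, rfl⟩ := (e.e p).surjective x
    rw [← e.comm, ← e.comm, h.odd, map_zero]

theorem AMIso.Beta {M N : AM} (e : AMIso M N) (h : M.Beta) : N.Beta := by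
  intro l hl
  have hc : M.Cpt fun k => (l k).comp (e.e (2 ^ k)).toLinearMap := by
    intro k x
    show l (k + 1) (e.e (2 ^ (k + 1)) (M.Sq (2 ^ k) (2 ^ (k + 1)) x)) = l k (e.e (2 ^ k) x)
    rw [e.comm]
    exact hl k _
  obtain ⟨f, hf, hK⟩ := h _ hc
  refine ⟨fun n => (f n).comp (e.e n).symm.toLinearMap, ⟨fun n hn => ?_, fun n m x hnm => ?_⟩,
    fun j x => ?_⟩
  · show (f n).comp (e.e n).symm.toLinearMap = 0
    rw [hf.1 n hn, LinearMap.zero_comp]
  · obtain ⟨y, rfl⟩ := (e.e n).surjective x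
    show f m ((e.e m).symm (N.Sq n m (e.e n y))) = _ * f n ((e.e n).symm (e.e n y))
    rw [← e.comm, LinearEquiv.symm_apply_apply, LinearEquiv.symm_apply_apply]
    exact hf.2 n m y hnm
  · obtain ⟨y, rfl⟩ := (e.e j).surjective x
    obtain ⟨K, hK⟩ := hK j y
    refine ⟨K, fun k hk => ?_⟩
    show f j ((e.e j).symm (e.e j y)) = l k (N.cSq j (2 ^ k) (e.e j y))
    rw [LinearEquiv.symm_apply_apply, hK k hk]
    show l k (e.hom.app (2 ^ k) (M.cSq j (2 ^ k) y)) = _
    rw [e.hom.cSq]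
    rfl

theorem AM.Good.inj0 {M : AM} (h : M.Good) : M.Inj0 := by
  obtain ⟨ι, n, ⟨e⟩⟩ := h
  exact e.Inj0 (AM.dsum_Inj0 _ fun i => EAM_Inj0 (n i))

theorem AM.Good.frob {M : AM} (h : M.Good) : M.Frob := by
  obtain ⟨ι, n, ⟨e⟩⟩ := h
  exact e.Frob (AM.dsum_Frob _ fun i => EAM_Frob (n i))

theorem AM.Good.beta {M : AM} (h : M.Good) : M.Beta := by
  obtain ⟨ι, n, ⟨e⟩⟩ := h
  exact e.Beta (AM.dsum_Beta _ fun i => EAM_Beta (n i))

end MM
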