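import Pool.Agent.Lib_MP_33f7bb_d.A601

/-!
# A6-06: exactness of `HomH _ 0` on bounded complexes with `Inj0`, `Beta`

Write `M_s`, `d : M_(s+1) → M_s`, `F = ZMod 2`.  For `g ∈ HomH M 0` the family `l_k = g_(2^k)` is compatible: `g_(2n)(Sq0 x) =
choose n n * g_n x = g_n x` (`AM.Cpt`, with `2^(k+1) = 2 * 2^k`, `2^(k+1) - 2^k = 2^k`).  `g_0 = 0`.

Case `s = 0`.  `g ∈ HomH M_0 0`, `g ∘ d = 0`.  For `2^k > D` the map `d : M_1 → M_0` is surjective in degree `2^k`, so `g_(2^k) = 0`,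
and `g_j x = g_(2^k)(cSq j (2^k) x) = 0` for `j ≥ 1`, `k ≥ j` large (`HomH_cSq`).

Case `s + 1`.  `g ∈ HomH M_(s+1) 0`, `g ∘ d = 0`, `l_k = g_(2^k)`.  Choose `k0` such that `C` is exact at `M_(s+1)` and `M_s` in
degrees `≥ 2^(k0)`.  Construct `l''_k : M_s^(2^k) → F`, `k ≥ k0`, with (a) `l''_k (d x) = l_k x`, (b)
`l''_(k+1)(Sq0 y) = l''_k y`.
 `k = k0`: `l_(k0)` vanishes on `ker (d : M_(s+1) → M_s)` in degree `2^(k0)` (exactness: the kernel is `d M_(s+2)`, and `g d = 0`),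
 so it factors through the image of `d`; extend (`LinearMap.exists_extend`, or: `l ∘ ... ` via
 `LinearMap.range_dualMap_eq_dualAnnihilator_ker`: `l ∈ range (d.dualMap)` iff `l` vanishes on `ker d`).
 Step: want `l''_(k+1)` on `N := M_s^(2^(k+1))` with prescribed values on the image of the linear map
 `u : M_s^(2^k) × M_(s+1)^(2^(k+1)) → N`, `u (y, x) = Sq0 y + d x`, the functional being `v (y,x) = l''_k y + l_(k+1) x`.  By the same
 criterion it is enough that `v` vanishes on `ker u`.  Let `Sq0 y = d x` (char 2).  If `s ≥ 1`: `Sq0 (d y) = d (Sq0 y) = d d x = 0` in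
 `M_(s-1)`, so `d y = 0` (`Inj0`), and `y = d x'` by exactness at `M_s` in degree `2^k`.  If `s = 0`: `y = d x'` by exactness
 (surjectivity) at `M_0`.  Then `d (x - Sq0 x') = 0`, so `x = Sq0 x' + d w` (exactness at `M_(s+1)` in degree
 `2^(k+1)`), `l_(k+1) x = l_(k+1)(Sq0 x') + g (d w) = l_k x' = l''_k (d x') = l''_k y`.
 The sequence is obtained by dependent choice (`Nat.rec` on the subtype of functionals satisfying (a)).
 For `k < k0` put `l''_k y = l''_(k0)(Sq0^(k0-k) y)`, i.e. downward recursion `l''_k y = l''_(k+1)(Sq0 y)`; (a) and (b) hold for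
 all `k`.  (Convenient form: a lemma that a compatible family given for `k ≥ k0` extends to all `k`; e.g. by
 induction on `k0`.)
 By `Beta` there is `h ∈ HomH M_s 0` with `h_j y = l''_k (cSq j (2^k) y)` for `k` large (depending on `j`, `y`).  Then for `x ∈ M_(s+1)^j`,
 `j ≥ 1`, `k` large: `h_j (d x) = l''_k (cSq (d x)) = l''_k (d (cSq x)) = l_k (cSq x) = g_j x` (`AMHom.cSq`, `HomH_cSq`).  For `j = 0`
 both are `0`.
-/

namespace MM

private theorem A606_ext {A N : Type} [AddCommGroup A] [Module (ZMod 2) A] [AddCommGroup N]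
    [Module (ZMod 2) N] (u : A →ₗ[ZMod 2] N) (v : Module.Dual (ZMod 2) A)
    (h : ∀ a, u a = 0 → v a = 0) : ∃ w : Module.Dual (ZMod 2) N, ∀ a, w (u a) = v a := by
  have h1 : v ∈ LinearMap.range u.dualMap := by
    rw [LinearMap.range_dualMap_eq_dualAnnihilator_ker, Submodule.mem_dualAnnihilator]
    exact fun a ha => h a ha
  obtain ⟨w, hw⟩ := h1
  exact ⟨w, fun a => by rw [← hw]; rfl⟩

private theorem A606_dc {α : ℕ → Type} (R : ∀ k, α k → Prop) (S : ∀ k, α k → α (k + 1) → Prop)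
    (h0 : ∃ w, R 0 w) (hs : ∀ k w, R k w → ∃ w', R (k + 1) w' ∧ S k w w') :
    ∃ l : ∀ k, α k, (∀ k, R k (l k)) ∧ ∀ k, S k (l k) (l (k + 1)) := by
  obtain ⟨w0, hw0⟩ := h0
  choose f hf using hs
  let F : ∀ k, {w : α k // R k w} := fun k =>
    Nat.rec (motive := fun k => {w : α k // R k w}) ⟨w0, hw0⟩
      (fun k w => ⟨f k w.1 w.2, (hf k w.1 w.2).1⟩) k
  exact ⟨fun k => (F k).1, fun k => (F k).2, fun k => (hf k (F k).1 (F k).2).2⟩

private theorem A606_down {M N : AM} (d : AMHom N M) (g : ∀ k, Module.Dual (ZMod 2) (N.M (2 ^ k)))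
    (hg : N.Cpt g) : ∀ (k0 : ℕ) (l : ∀ k, Module.Dual (ZMod 2) (M.M (2 ^ k))),
    (∀ k, k0 ≤ k → ∀ x, l k (d.app (2 ^ k) x) = g k x) →
    (∀ k, k0 ≤ k → ∀ y, l (k + 1) (M.Sq (2 ^ k) (2 ^ (k + 1)) y) = l k y) →
    ∃ l' : ∀ k, Module.Dual (ZMod 2) (M.M (2 ^ k)),
      (∀ k x, l' k (d.app (2 ^ k) x) = g k x) ∧ M.Cpt l' := by
  intro k0
  induction k0 with
  | zero => exact fun l h1 h2 => ⟨l, fun k => h1 k (Nat.zero_le _), fun k => h2 k (Nat.zero_le _)⟩
  | succ k0 ih =>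
    intro l h1 h2
    have hne : k0 + 1 ≠ k0 := Nat.succ_ne_self k0
    refine ih (Function.update l k0 ((l (k0 + 1)).comp (M.Sq (2 ^ k0) (2 ^ (k0 + 1))))) ?_ ?_
    · intro k hk x
      rcases Nat.eq_or_lt_of_le hk with rfl | hk
      · rw [Function.update_self, LinearMap.comp_apply, ← d.comm, h1 _ le_rfl, hg]
      · rw [Function.update_of_ne (by omega), h1 k hk]
    · intro k hk y
      rcases Nat.eq_or_lt_of_le hk with rfl | hk
      · rw [Function.update_self, Function.update_of_ne hne, LinearMap.comp_apply]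
      · rw [Function.update_of_ne (by omega), Function.update_of_ne (by omega), h2 k hk]

private theorem A606_cpt {M : AM} {g : ∀ n, Module.Dual (ZMod 2) (M.M n)} (hg : g ∈ M.HomH 0) :
    M.Cpt fun k => g (2 ^ k) := by
  intro k x
  show g (2 ^ (k + 1)) (M.Sq (2 ^ k) (2 ^ (k + 1)) x) = g (2 ^ k) x
  have h1 : 2 ^ (k + 1) - 2 ^ k = 2 ^ k := by rw [pow_succ]; omega
  rw [hg.2 (2 ^ k) (2 ^ (k + 1)) x (Nat.pow_le_pow_right (by norm_num) (by omega)), h1,
    Nat.sub_zero, Nat.choose_self, Nat.cast_one, one_mul]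

private theorem A606_pre (C : AMC) (hi : ∀ s, (C.M s).Inj0) (s n m : ℕ) (hm : m = 2 * n)
    (hex : C.ExAt s n) (y : (C.M s).M n) (x : (C.M (s + 1)).M m)
    (h : (C.M s).Sq n m y = (C.d s).app m x) : ∃ x', (C.d s).app n x' = y := by
  subst hm
  cases s with
  | zero => exact hex y
  | succ s =>
    refine hex y (hi s n _ ?_)
    rw [← (C.d s).comm, h, C.dd]

private theorem A606_step (C : AMC) (hi : ∀ s, (C.M s).Inj0) (s k : ℕ)
    (hex : C.ExAt s (2 ^ k)) (hex' : C.ExAt (s + 1) (2 ^ (k + 1)))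
    {g : ∀ n, Module.Dual (ZMod 2) ((C.M (s + 1)).M n)} (hg : g ∈ (C.M (s + 1)).HomH 0)
    (hgd : ∀ n x, g n ((C.d (s + 1)).app n x) = 0)
    (w : Module.Dual (ZMod 2) ((C.M s).M (2 ^ k)))
    (hw : ∀ x, w ((C.d s).app (2 ^ k) x) = g (2 ^ k) x) :
    ∃ w' : Module.Dual (ZMod 2) ((C.M s).M (2 ^ (k + 1))),
      (∀ x, w' ((C.d s).app (2 ^ (k + 1)) x) = g (2 ^ (k + 1)) x) ∧
      ∀ y, w' ((C.M s).Sq (2 ^ k) (2 ^ (k + 1)) y) = w y := by
  obtain ⟨w', hw'⟩ := A606_ext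
    (((C.M s).Sq (2 ^ k) (2 ^ (k + 1))).coprod ((C.d s).app (2 ^ (k + 1))))
    (LinearMap.coprod w (g (2 ^ (k + 1)))) (by
      rintro ⟨y, x⟩ h
      rw [LinearMap.coprod_apply] at h ⊢
      have h1 : (C.M s).Sq (2 ^ k) (2 ^ (k + 1)) y = (C.d s).app (2 ^ (k + 1)) (-x) := by
        rw [map_neg]
        exact eq_neg_of_add_eq_zero_left h
      obtain ⟨x', rfl⟩ := A606_pre C hi s _ _ (pow_succ' 2 k) hex y (-x) h1
      have h2 : (C.d s).app (2 ^ (k + 1)) (-x - (C.M (s + 1)).Sq (2 ^ k) (2 ^ (k + 1)) x') = 0 := by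
        rw [map_sub, (C.d s).comm, ← h1, sub_self]
      obtain ⟨z, hz⟩ := hex' _ h2
      have h3 := hgd (2 ^ (k + 1)) z
      rw [hz, map_sub, A606_cpt hg k x', map_neg] at h3
      show w ((C.d s).app (2 ^ k) x') + g (2 ^ (k + 1)) x = 0
      rw [hw]
      have h4 : g (2 ^ k) x' = - g (2 ^ (k + 1)) x := (sub_eq_zero.1 h3).symm
      rw [h4, neg_add_cancel])
  refine ⟨w', fun x => ?_, fun y => ?_⟩
  · have := hw' (0, x)
    simpa [LinearMap.coprod_apply] using this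
  · have := hw' (y, 0)
    simpa [LinearMap.coprod_apply] using this

private theorem A606_start (C : AMC) (s n : ℕ) (hex' : C.ExAt (s + 1) n)
    {g : ∀ n, Module.Dual (ZMod 2) ((C.M (s + 1)).M n)}
    (hgd : ∀ n x, g n ((C.d (s + 1)).app n x) = 0) :
    ∃ w : Module.Dual (ZMod 2) ((C.M s).M n), ∀ x, w ((C.d s).app n x) = g n x :=
  A606_ext ((C.d s).app n) (g n) (by
    intro x hx
    obtain ⟨z, rfl⟩ := hex' x hx
    exact hgd n z)

/-- exactness of `HomH _ 0` on a complex with bounded homology -/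
theorem AMC.homEx_zero (C : AMC) (hi : ∀ s, (C.M s).Inj0) (hb : ∀ s, (C.M s).Beta) (hB : C.Bdd) :
    C.HomEx 0 := by
  constructor
  · intro g hg hgd
    obtain ⟨D, hD⟩ := hB 0
    funext j
    apply LinearMap.ext
    intro x
    rcases Nat.eq_zero_or_pos j with rfl | hj
    · rw [hg.1 0 le_rfl]
      rfl
    · have hk : D < 2 ^ max D j := lt_of_le_of_lt (le_max_left D j) Nat.lt_two_pow_self
      obtain ⟨y, hy⟩ := hD _ hk ((C.M 0).cSq j (2 ^ max D j) x)
      rw [← HomH_cSq hg j (max D j) hj (le_max_right _ _) x, ← hy, hgd]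
      rfl
  · intro s g hg hgd
    obtain ⟨D1, hD1⟩ := hB s
    obtain ⟨D2, hD2⟩ := hB (s + 1)
    set k0 := max D1 D2 with hk0
    have hx1 : ∀ k, k0 ≤ k → C.ExAt s (2 ^ k) := fun k hk =>
      hD1 _ (lt_of_le_of_lt ((le_max_left _ _).trans hk) Nat.lt_two_pow_self)
    have hx2 : ∀ k, k0 ≤ k → C.ExAt (s + 1) (2 ^ k) := fun k hk =>
      hD2 _ (lt_of_le_of_lt ((le_max_right _ _).trans hk) Nat.lt_two_pow_self)
    obtain ⟨l, hl1, hl2⟩ := A606_dc (α := fun k => Module.Dual (ZMod 2) ((C.M s).M (2 ^ k)))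
      (fun k w => k0 ≤ k → ∀ x, w ((C.d s).app (2 ^ k) x) = g (2 ^ k) x)
      (fun k w w' => k0 ≤ k → ∀ y, w' ((C.M s).Sq (2 ^ k) (2 ^ (k + 1)) y) = w y)
      (by
        by_cases h : k0 ≤ 0
        · obtain ⟨w, hw⟩ := A606_start C s (2 ^ 0) (hx2 0 h) hgd
          exact ⟨w, fun _ => hw⟩
        · exact ⟨0, fun h' => absurd h' h⟩)
      (by
        intro k w hw
        by_cases h : k0 ≤ k
        · obtain ⟨w', h1, h2⟩ := A606_step C hi s k (hx1 k h) (hx2 (k + 1) (by omega)) hg hgd w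
            (hw h)
          exact ⟨w', fun _ => h1, fun _ => h2⟩
        · by_cases h' : k0 ≤ k + 1
          · obtain ⟨w', hw'⟩ := A606_start C s (2 ^ (k + 1)) (hx2 (k + 1) h') hgd
            exact ⟨w', fun _ => hw', fun h3 => absurd h3 h⟩
          · exact ⟨0, fun h3 => absurd h3 h', fun h3 => absurd h3 h⟩)
    obtain ⟨l', hl', hc⟩ := A606_down (C.d s) (fun k => g (2 ^ k)) (A606_cpt hg) k0 l hl1 hl2
    obtain ⟨f, hf, hfl⟩ := hb s l' hc
    refine ⟨f, hf, fun n x => ?_⟩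
    rcases Nat.eq_zero_or_pos n with rfl | hn
    · rw [hf.1 0 le_rfl, hg.1 0 le_rfl]
      rfl
    · obtain ⟨K, hK⟩ := hfl n ((C.d s).app n x)
      rw [hK (max K n) (le_max_left _ _), ← AMHom.cSq, hl']
      exact HomH_cSq hg n _ hn (le_max_right _ _) x

end MM
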