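import Pool.Agent.Lib_MP_33f7bb_d.A6Def

/-!
# A6-07: loops: boundedness of the homology, `HomH _ (t+1)`, suspensions

`AMC.Om_Bdd`: `D' s = max (D s) (2 * D (s-1) + 2)`.  Let `x ∈ (Om M_s)^n` with `d x = 0`, `n > D' s`; `x = pr x1`, `x1 ∈ M_s^(n+1)`.
 `s = 0`: `x1 = d y`.  `s ≥ 1`: `pr (d x1) = 0`, so `d x1 ∈ im0`: (`AM.mem_im0`) `d x1 = 0` or `d x1 = Sq0 y`, `y ∈ M_(s-1)^p`,
 `2 p = n + 1`.  In the first case `x1 = d w`, done.  In the second case, if `s ≥ 2`: `Sq0 (d y) = d (Sq0 y) = d d x1 = 0`, so `d y = 0`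
 (`Inj0` of `M_(s-2)`), so `y = d y'` (exactness at `M_(s-1)` in degree `p > D (s-1)`); if `s = 1`: `y = d y'` by exactness
 (surjectivity) at `M_0`.  Then `d (x1 - Sq0 y') = 0`, `x1 = Sq0 y' + d w`, `x = pr (d w) = d (pr w)` (`pr (Sq0 y') = 0`:
 `AM.Sq_mem_im0`).
`HomH_Om`: for `f ∈ HomH M (t+1)`: `f (2p) (Sq p (2p) y) = choose (p - (t+1)) p * f p y = 0`: `p ≥ t + 2`: `p - (t+1) < p`;
 `p ≤ t + 1`: `f p = 0`.  So `f (n+1)` descends to the quotient; relations: `choose ((n+1) - (t+1)) ((m+1) - (n+1)) =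
 choose (n - t) (m - n)`.
`HomH_Om'`: put `f (n+1) = g n ∘ pr`, `f 0 = 0` (case distinction on `n`); relation for `n = 0 < m`: `Sq 0 m = 0` (`unst`).
`HomEx.of_Om`: combine.
`AMC.desusp`: the desuspended complex; `HomEx.of_susp`: `HomH N (t+1) = HomH M t` for a suspension `N` of `M`:
 `f ↦ (n ↦ f (n+1) ∘ e n)`, inverse: `g ↦ (n+1 ↦ g n ∘ (e n).symm, 0 ↦ 0)`.
-/

namespace MM

private theorem A607_inj {M : AM} (h : M.Inj0) {p n : ℕ} (hp : 2 * p = n) (x : M.M p)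
    (hx : M.Sq p n x = 0) : x = 0 := by
  subst hp
  exact h p x hx

theorem AMC.Om_Bdd (C : AMC) (h : ∀ s, (C.M s).Frob) (hi : ∀ s, (C.M s).Inj0) (hB : C.Bdd) :
    (C.Om h).Bdd := by
  choose D hD using hB
  intro s
  cases s with
  | zero =>
    refine ⟨D 0, fun n hn => ?_⟩
    intro x
    obtain ⟨x1, rfl⟩ := AM.Om.pr_surjective (C.M 0) (h 0) n x
    have h1 : C.ExAt 0 (n + 1) := hD 0 (n + 1) (by omega)
    obtain ⟨y, hy⟩ := h1 x1
    refine ⟨AM.Om.pr _ (h (0 + 1)) n y, ?_⟩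
    show (AM.OmMap _ _ (C.d 0)).app n (AM.Om.pr _ _ n y) = _
    rw [AM.OmMap_pr, hy]
  | succ s =>
    refine ⟨max (D (s + 1)) (2 * D s + 2), fun n hn => ?_⟩
    have hn1 : D (s + 1) < n := lt_of_le_of_lt (le_max_left _ _) hn
    have hn2 : 2 * D s + 2 < n := lt_of_le_of_lt (le_max_right _ _) hn
    intro x hx
    obtain ⟨x1, rfl⟩ := AM.Om.pr_surjective (C.M (s + 1)) (h (s + 1)) n x
    have hex : C.ExAt (s + 1) (n + 1) := hD (s + 1) (n + 1) (by omega)
    have hx' : AM.Om.pr _ (h s) n ((C.d s).app (n + 1) x1) = 0 := hx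
    rcases AM.mem_im0 (AM.Om.pr_eq_zero.1 hx') with h0 | ⟨p, hp, y, hy⟩
    · obtain ⟨w, hw⟩ := hex x1 h0
      refine ⟨AM.Om.pr _ (h (s + 1 + 1)) n w, ?_⟩
      show (AM.OmMap _ _ (C.d (s + 1))).app n (AM.Om.pr _ _ n w) = _
      rw [AM.OmMap_pr, hw]
    · obtain ⟨y', hy'⟩ : ∃ y', (C.d s).app p y' = y := by
        cases s with
        | zero =>
          have h2 : C.ExAt 0 p := hD 0 p (by omega)
          exact h2 y
        | succ s =>
          have h2 : C.ExAt (s + 1) p := hD (s + 1) p (by omega)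
          refine h2 y (A607_inj (hi s) hp _ ?_)
          rw [← (C.d s).comm, ← hy, C.dd]
      have h3 : (C.d s).app (n + 1) (x1 - (C.M (s + 1)).Sq p (n + 1) y') = 0 := by
        rw [map_sub, (C.d s).comm, hy', hy, sub_self]
      obtain ⟨w, hw⟩ := hex _ h3
      refine ⟨AM.Om.pr _ (h (s + 1 + 1)) n w, ?_⟩
      show (AM.OmMap _ _ (C.d (s + 1))).app n (AM.Om.pr _ _ n w) = _
      rw [AM.OmMap_pr, hw, map_sub, AM.Om.pr_eq_zero.2 ((C.M (s + 1)).Sq_mem_im0 hp y'), sub_zero]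

private theorem A607_im0 {M : AM} (t : ℕ) {f : ∀ n, Module.Dual (ZMod 2) (M.M n)}
    (hf : f ∈ M.HomH (t + 1)) {n : ℕ} {x : M.M (n + 1)} (hx : x ∈ M.im0 n) : f (n + 1) x = 0 := by
  rcases AM.mem_im0 hx with rfl | ⟨p, hp, y, rfl⟩
  · exact map_zero _
  · rw [hf.2 p (n + 1) y (by omega)]
    by_cases h : p ≤ t + 1
    · rw [hf.1 p h, LinearMap.zero_apply, mul_zero]
    · have h1 : n + 1 - p = p := by omega
      rw [h1, Nat.choose_eq_zero_of_lt (by omega), Nat.cast_zero, zero_mul]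

theorem HomH_Om {M : AM} (h : M.Frob) (t : ℕ) {f : ∀ n, Module.Dual (ZMod 2) (M.M n)}
    (hf : f ∈ M.HomH (t + 1)) :
    ∃ g ∈ (M.Om h).HomH t, ∀ n x, g n (AM.Om.pr M h n x) = f (n + 1) x := by
  have hker : ∀ n, M.im0 n ≤ LinearMap.ker (f (n + 1)) := fun n x hx => A607_im0 t hf hx
  obtain ⟨g, hg⟩ : ∃ g : ∀ n, Module.Dual (ZMod 2) ((M.Om h).M n),
      ∀ n x, g n (AM.Om.pr M h n x) = f (n + 1) x :=
    ⟨fun n => Submodule.liftQ _ (f (n + 1)) (hker n), fun _ _ => rfl⟩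
  refine ⟨g, ⟨fun n hn => ?_, fun n m x hnm => ?_⟩, hg⟩
  · apply LinearMap.ext
    intro x
    obtain ⟨x1, rfl⟩ := AM.Om.pr_surjective _ _ _ x
    rw [hg, hf.1 (n + 1) (by omega)]
    rfl
  · obtain ⟨x1, rfl⟩ := AM.Om.pr_surjective _ _ _ x
    rw [AM.Om.Sq_pr, hg, hg, hf.2 (n + 1) (m + 1) x1 (by omega), Nat.add_sub_add_right,
      Nat.add_sub_add_right]

theorem HomH_Om' {M : AM} (h : M.Frob) (t : ℕ) {g : ∀ n, Module.Dual (ZMod 2) ((M.Om h).M n)}
    (hg : g ∈ (M.Om h).HomH t) :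
    ∃ f ∈ M.HomH (t + 1), ∀ n x, g n (AM.Om.pr M h n x) = f (n + 1) x := by
  obtain ⟨f, hf0, hfs⟩ : ∃ f : ∀ n, Module.Dual (ZMod 2) (M.M n), f 0 = 0 ∧
      ∀ n, f (n + 1) = (g n).comp (AM.Om.pr M h n) :=
    ⟨fun n => Nat.rec (motive := fun n => Module.Dual (ZMod 2) (M.M n)) 0
      (fun n _ => (g n).comp (AM.Om.pr M h n)) n, rfl, fun _ => rfl⟩
  refine ⟨f, ⟨fun n hn => ?_, fun n m x hnm => ?_⟩, fun n x => ?_⟩
  · cases n with
    | zero => exact hf0
    | succ n => rw [hfs, hg.1 n (by omega), LinearMap.zero_comp]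
  · cases n with
    | zero =>
      rw [hf0, LinearMap.zero_apply, mul_zero]
      cases m with
      | zero => rw [hf0]; rfl
      | succ m => rw [M.unst 0 (m + 1) (by omega), LinearMap.zero_apply, map_zero]
    | succ n =>
      obtain ⟨m, rfl⟩ : ∃ m', m = m' + 1 := ⟨m - 1, by omega⟩
      rw [hfs, hfs, LinearMap.comp_apply, LinearMap.comp_apply, ← AM.Om.Sq_pr,
        hg.2 n m _ (by omega), Nat.add_sub_add_right, Nat.add_sub_add_right]
  · rw [hfs]
    rfl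

theorem AMC.HomEx.of_Om (C : AMC) (h : ∀ s, (C.M s).Frob) (t : ℕ) (hO : (C.Om h).HomEx t) :
    C.HomEx (t + 1) := by
  constructor
  · intro g hg hgd
    obtain ⟨g', hg', hgg⟩ := HomH_Om (h 0) t hg
    have h1 : g' = 0 := by
      refine hO.zero g' hg' fun n x => ?_
      obtain ⟨x1, rfl⟩ := AM.Om.pr_surjective (C.M (0 + 1)) (h (0 + 1)) n x
      show g' n ((AM.OmMap _ _ (C.d 0)).app n (AM.Om.pr _ _ n x1)) = 0
      rw [AM.OmMap_pr, hgg, hgd]
    funext n
    cases n with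
    | zero => exact hg.1 0 (by omega)
    | succ n =>
      apply LinearMap.ext
      intro x
      rw [← hgg, h1]
      rfl
  · intro s g hg hgd
    obtain ⟨g', hg', hgg⟩ := HomH_Om (h (s + 1)) t hg
    obtain ⟨k, hk, hkk⟩ := hO.succ s g' hg' fun n x => by
      obtain ⟨x1, rfl⟩ := AM.Om.pr_surjective (C.M (s + 1 + 1)) (h (s + 1 + 1)) n x
      show g' n ((AM.OmMap _ _ (C.d (s + 1))).app n (AM.Om.pr _ _ n x1)) = 0
      rw [AM.OmMap_pr, hgg, hgd]
    obtain ⟨f, hf, hff⟩ := HomH_Om' (h s) t hk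
    refine ⟨f, hf, fun n x => ?_⟩
    cases n with
    | zero => rw [hf.1 0 (by omega), hg.1 0 (by omega)]; rfl
    | succ n =>
      rw [← hff, ← hgg]
      exact hkk n (AM.Om.pr _ (h (s + 1)) n x)

/-- the desuspension of a complex -/
noncomputable def AMC.desusp (C : AMC) (G : ℕ → AM) (S : ∀ s, IsSusp (G s) (C.M s)) : AMC where
  M := G
  d s := ⟨fun n => (((S s).e n).symm.toLinearMap.comp ((C.d s).app (n + 1))).comp
      ((S (s + 1)).e n).toLinearMap, fun n m x => by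
    show ((S s).e m).symm ((C.d s).app (m + 1) ((S (s + 1)).e m ((G (s + 1)).Sq n m x))) =
      (G s).Sq n m (((S s).e n).symm ((C.d s).app (n + 1) ((S (s + 1)).e n x)))
    apply ((S s).e m).injective
    rw [LinearEquiv.apply_symm_apply, (S s).comm, LinearEquiv.apply_symm_apply, (S (s + 1)).comm,
      (C.d s).comm]⟩
  dd s n x := by
    show ((S s).e n).symm ((C.d s).app (n + 1) ((S (s + 1)).e n (((S (s + 1)).e n).symm
      ((C.d (s + 1)).app (n + 1) ((S (s + 1 + 1)).e n x))))) = 0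
    rw [LinearEquiv.apply_symm_apply, C.dd, map_zero]

theorem AMC.desusp_Bdd (C : AMC) (G : ℕ → AM) (S : ∀ s, IsSusp (G s) (C.M s)) (hB : C.Bdd) :
    (C.desusp G S).Bdd := by
  intro s
  obtain ⟨D, hD⟩ := hB s
  refine ⟨D, fun n hn => ?_⟩
  have h1 := hD (n + 1) (by omega)
  cases s with
  | zero =>
    intro x
    obtain ⟨y, hy⟩ := h1 ((S 0).e n x)
    refine ⟨((S (0 + 1)).e n).symm y, ?_⟩
    show ((S 0).e n).symm ((C.d 0).app (n + 1) ((S (0 + 1)).e n (((S (0 + 1)).e n).symm y))) = x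
    rw [LinearEquiv.apply_symm_apply, hy, LinearEquiv.symm_apply_apply]
  | succ s =>
    intro x hx
    have hx' : ((S s).e n).symm ((C.d s).app (n + 1) ((S (s + 1)).e n x)) = 0 := hx
    obtain ⟨y, hy⟩ := h1 ((S (s + 1)).e n x) (((S s).e n).symm.map_eq_zero_iff.1 hx')
    refine ⟨((S (s + 1 + 1)).e n).symm y, ?_⟩
    show ((S (s + 1)).e n).symm ((C.d (s + 1)).app (n + 1)
      ((S (s + 1 + 1)).e n (((S (s + 1 + 1)).e n).symm y))) = x
    rw [LinearEquiv.apply_symm_apply, hy, LinearEquiv.symm_apply_apply]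

private theorem A607_susp {M N : AM} (S : IsSusp M N) (t : ℕ)
    {f : ∀ n, Module.Dual (ZMod 2) (N.M n)} (hf : f ∈ N.HomH (t + 1)) :
    ∃ g ∈ M.HomH t, ∀ n x, g n x = f (n + 1) (S.e n x) := by
  refine ⟨fun n => (f (n + 1)).comp (S.e n).toLinearMap, ⟨fun n hn => ?_, fun n m x hnm => ?_⟩,
    fun _ _ => rfl⟩
  · show (f (n + 1)).comp (S.e n).toLinearMap = 0
    rw [hf.1 (n + 1) (by omega), LinearMap.zero_comp]
  · show f (m + 1) (S.e m (M.Sq n m x)) = _ * f (n + 1) (S.e n x)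
    rw [S.comm, hf.2 (n + 1) (m + 1) _ (by omega), Nat.add_sub_add_right, Nat.add_sub_add_right]

private theorem A607_susp' {M N : AM} (S : IsSusp M N) (t : ℕ)
    {g : ∀ n, Module.Dual (ZMod 2) (M.M n)} (hg : g ∈ M.HomH t) :
    ∃ f ∈ N.HomH (t + 1), ∀ n x, g n x = f (n + 1) (S.e n x) := by
  obtain ⟨f, hf0, hfs⟩ : ∃ f : ∀ n, Module.Dual (ZMod 2) (N.M n), f 0 = 0 ∧
      ∀ n x, f (n + 1) (S.e n x) = g n x :=
    ⟨fun n => Nat.rec (motive := fun n => Module.Dual (ZMod 2) (N.M n)) 0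
      (fun n _ => (g n).comp (S.e n).symm.toLinearMap) n, rfl, fun n x => by
        show g n ((S.e n).symm (S.e n x)) = g n x
        rw [LinearEquiv.symm_apply_apply]⟩
  have hsurj : ∀ n (x : N.M (n + 1)), ∃ x', S.e n x' = x := fun n x =>
    ⟨(S.e n).symm x, LinearEquiv.apply_symm_apply _ _⟩
  refine ⟨f, ⟨fun n hn => ?_, fun n m x hnm => ?_⟩, fun n x => (hfs n x).symm⟩
  · cases n with
    | zero => exact hf0
    | succ n =>
      apply LinearMap.ext
      intro x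
      obtain ⟨x', rfl⟩ := hsurj n x
      rw [hfs, hg.1 n (by omega)]
      rfl
  · cases n with
    | zero => rw [S.zero x, map_zero, map_zero, map_zero, mul_zero]
    | succ n =>
      obtain ⟨m, rfl⟩ : ∃ m', m = m' + 1 := ⟨m - 1, by omega⟩
      obtain ⟨x', rfl⟩ := hsurj n x
      rw [← S.comm, hfs, hfs, hg.2 n m _ (by omega), Nat.add_sub_add_right,
        Nat.add_sub_add_right]

private theorem A607_d (C : AMC) (G : ℕ → AM) (S : ∀ s, IsSusp (G s) (C.M s)) (s n : ℕ)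
    (x : (G (s + 1)).M n) : (S s).e n (((C.desusp G S).d s).app n x) =
      (C.d s).app (n + 1) ((S (s + 1)).e n x) := by
  show (S s).e n (((S s).e n).symm ((C.d s).app (n + 1) ((S (s + 1)).e n x))) = _
  rw [LinearEquiv.apply_symm_apply]

theorem AMC.HomEx.of_desusp (C : AMC) (G : ℕ → AM) (S : ∀ s, IsSusp (G s) (C.M s)) (t : ℕ)
    (h : (C.desusp G S).HomEx t) : C.HomEx (t + 1) := by
  constructor
  · intro g hg hgd
    obtain ⟨g', hg', hgg⟩ := A607_susp (S 0) t hg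
    have h1 : g' = 0 := by
      refine h.zero g' hg' fun n x => ?_
      have h2 := hgg n (((C.desusp G S).d 0).app n x)
      rw [A607_d, hgd] at h2
      exact h2
    funext n
    cases n with
    | zero => exact hg.1 0 (by omega)
    | succ n =>
      apply LinearMap.ext
      intro x
      have h2 := hgg n (((S 0).e n).symm x)
      rw [LinearEquiv.apply_symm_apply, h1] at h2
      exact h2.symm
  · intro s g hg hgd
    obtain ⟨g', hg', hgg⟩ := A607_susp (S (s + 1)) t hg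
    obtain ⟨k, hk, hkk⟩ := h.succ s g' hg' fun n x => by
      have h2 := hgg n (((C.desusp G S).d (s + 1)).app n x)
      rw [A607_d, hgd] at h2
      exact h2
    obtain ⟨f, hf, hff⟩ := A607_susp' (S s) t hk
    refine ⟨f, hf, fun n x => ?_⟩
    cases n with
    | zero => rw [hf.1 0 (by omega), hg.1 0 (by omega)]; rfl
    | succ n =>
      have h2 := hgg n (((S (s + 1)).e n).symm x)
      rw [LinearEquiv.apply_symm_apply] at h2
      have h3 := hkk n (((S (s + 1)).e n).symm x)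
      have h4 := hff n (((C.desusp G S).d s).app n (((S (s + 1)).e n).symm x))
      rw [A607_d, LinearEquiv.apply_symm_apply] at h4
      rw [← h2]
      exact h4.symm.trans h3

end MM
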