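import Pool.Agent.Lib_MP_33f7bb_d.A604

/-!
# A6-08: `Om E(n+1) = E(n)`, `Om E(0) = 0`

`phi : E(n+1)^(d+1) → E(n)^d`, `(phi c)(b) = c (Fin.cons 0 b)` (coefficient of `x_0 ∏ x_(i+1)^(2^(b i))`).  `wt (Fin.cons 0 b) = 1 + wt b`;
symmetric in `b` because `c` is.  `phi` commutes with `Sq`: `(Sqt c)(0, b) = ∑_(ε ≤ (0,b)) c ((0,b) - ε)`, `ε 0 = 0`, `=
(Sqt (phi c))(b)` (`Sqt_apply_eq`).
Kernel: `phi c = 0` means `c b' = 0` whenever `b' 0 = 0`, so by symmetry whenever some entry of `b'` is `0`; then `c` is the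
shift of `c'`, `c' b = c (b + 1)`, `c' ∈ E(n+1)^((d+1)/2)`: the weight of the support of `c` is even, so `c = 0` or `d + 1` is even,
and `c = Sq0 c'` (`EAM_Sq0_apply`).  Conversely `phi (Sq0 c') = 0`.
Surjective: given `c2 ∈ E(n)^d` put `c b' = c2 (b' ∘ i.succAbove)` if some entry `b' i = 0`, `0` if there is none.  Independent of the
choice of `i`: for `b' i = b' j = 0` the functions `b' ∘ i.succAbove` and `b' ∘ j.succAbove` differ by a permutation (same multiset of
values).  Symmetric, weight `d + 1`, finite support (`{b' | wt b' = d + 1}` is finite, or the support is contained in the image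
of `support c2 × Fin (n+1)` under insertion of a `0`).  (Alternative: `c b' = ` value of `c2` on any enumeration of the
multiset `{b' i} - {0}`; symmetric functions `E(n)` may be viewed as functions on multisets.)
So `phi` induces `Om E(n+1) ≅ E(n)`.
`E(0)`: `(Om E(0))^d = E(0)^(d+1) / .. = 0` since `wt = 0` on `Fin 0 → ℕ`.
-/

namespace MM

private theorem wt_cons_A608 {n : ℕ} (b : Fin n → ℕ) : wt (Fin.cons 0 b : Fin (n + 1) → ℕ) = wt b + 1 := by
  unfold wt
  rw [Fin.sum_univ_succ]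
  simp [add_comm]

private theorem wt_succAbove_A608 {n : ℕ} (b : Fin (n + 1) → ℕ) (i : Fin (n + 1)) (hi : b i = 0) :
    wt b = wt (b ∘ i.succAbove) + 1 := by
  unfold wt
  rw [Fin.sum_univ_succAbove _ i, hi]
  simp [add_comm]

private theorem cons_inj_A608 (n : ℕ) :
    Function.Injective (fun b : Fin n → ℕ => (Fin.cons 0 b : Fin (n + 1) → ℕ)) := by
  intro b b' h
  funext i
  have := congrFun h i.succ
  simpa using this

/-- the coefficient map -/
private noncomputable def phi_A608 (n : ℕ) : Mon (n + 1) →ₗ[ZMod 2] Mon n :=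
  Finsupp.lcomapDomain _ (cons_inj_A608 n)

private theorem phi_apply_A608 {n : ℕ} (c : Mon (n + 1)) (b : Fin n → ℕ) :
    phi_A608 n c b = c (Fin.cons 0 b) := rfl

private theorem exists_perm_A608 {n : ℕ} (τ : Equiv.Perm (Fin (n + 1))) (i : Fin (n + 1)) :
    ∃ σ : Equiv.Perm (Fin n), ∀ k, τ (i.succAbove k) = (τ i).succAbove (σ k) := by
  refine ⟨(finSuccAboveEquiv i).trans ((τ.subtypeEquiv (p := fun x => x ≠ i)
    (q := fun x => x ≠ τ i) (fun a => by simp)).trans (finSuccAboveEquiv (τ i)).symm), fun k => ?_⟩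
  have h1 : ∀ y : {x // x ≠ τ i}, (τ i).succAbove ((finSuccAboveEquiv (τ i)).symm y) = y.1 := by
    intro y
    obtain ⟨z, rfl⟩ := (finSuccAboveEquiv (τ i)).surjective y
    rw [Equiv.symm_apply_apply]
    rfl
  simp only [Equiv.trans_apply, h1]
  rfl

private theorem phi_mem_A608 {n d : ℕ} {c : Mon (n + 1)} (hc : c ∈ EE (n + 1) (d + 1)) :
    phi_A608 n c ∈ EE n d := by
  refine ⟨fun b hb => ?_, fun σ b => ?_⟩
  · have h1 : wt (Fin.cons 0 b : Fin (n + 1) → ℕ) = d + 1 := hc.1 _ hb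
    have h2 := wt_cons_A608 b
    omega
  · rw [phi_apply_A608, phi_apply_A608, ← hc.2 (Equiv.Perm.decomposeFin.symm (0, σ)) (Fin.cons 0 b)]
    congr 1
    funext i
    refine Fin.cases ?_ (fun j => ?_) i
    · simp
    · simp

/-- the coefficient map on `E(n+1)` -/
private noncomputable def phiE_A608 (n d : ℕ) : EE (n + 1) (d + 1) →ₗ[ZMod 2] EE n d :=
  (phi_A608 n).restrict (fun _ hc => phi_mem_A608 hc)

private theorem phiE_val_A608 {n d : ℕ} (c : EE (n + 1) (d + 1)) (b : Fin n → ℕ) :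
    (phiE_A608 n d c).1 b = c.1 (Fin.cons 0 b) := rfl

private theorem Sqt_phi_A608 {n : ℕ} (c : Mon (n + 1)) (b : Fin n → ℕ) :
    Sqt c (Fin.cons 0 b) = Sqt (phi_A608 n c) b := by
  rw [Sqt_apply_eq, Sqt_apply_eq]
  rw [← (Fin.consEquiv (fun _ : Fin (n + 1) => Fin 2)).sum_comp, Fintype.sum_prod_type,
    Fin.sum_univ_two]
  have h1 : ∀ ε : Fin n → Fin 2,
      (if ∀ i, (((Fin.consEquiv (fun _ : Fin (n + 1) => Fin 2)) (1, ε) i : Fin 2) : ℕ) ≤
        (Fin.cons 0 b : Fin (n + 1) → ℕ) i then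
        c (fun i => (Fin.cons 0 b : Fin (n + 1) → ℕ) i -
          (((Fin.consEquiv (fun _ : Fin (n + 1) => Fin 2)) (1, ε) i : Fin 2) : ℕ)) else 0) = 0 := by
    intro ε
    rw [if_neg]
    intro h
    have := h 0
    simp [Fin.consEquiv] at this
  rw [Finset.sum_congr rfl (fun ε _ => h1 ε), Finset.sum_const_zero, add_zero]
  refine Finset.sum_congr rfl fun ε _ => ?_
  by_cases h : ∀ i, ((ε i : Fin 2) : ℕ) ≤ b i
  · rw [if_pos h, if_pos]
    · rw [phi_apply_A608]
      congr 1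
      funext i
      refine Fin.cases ?_ (fun j => ?_) i
      · simp
      · simp [Fin.consEquiv]
    · intro i
      refine Fin.cases ?_ (fun j => ?_) i
      · simp [Fin.consEquiv]
      · simpa [Fin.consEquiv] using h j
  · rw [if_neg h, if_neg]
    intro h'
    exact h fun j => by simpa [Fin.consEquiv] using h' j.succ

private theorem phiE_Sq_A608 {n d m : ℕ} (c : EE (n + 1) (d + 1)) :
    phiE_A608 n m ((EAM (n + 1)).Sq (d + 1) (m + 1) c) = (EAM n).Sq d m (phiE_A608 n d c) := by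
  classical
  refine Subtype.ext (Finsupp.ext fun b => ?_)
  show (Finsupp.filter (fun b => wt b = m + 1) (Sqt c.1)) (Fin.cons 0 b) =
    (Finsupp.filter (fun b => wt b = m) (Sqt (phi_A608 n c.1))) b
  rw [Finsupp.filter_apply, Finsupp.filter_apply, wt_cons_A608, Sqt_phi_A608]
  simp

/-- extension by zeros -/
private noncomputable def extf_A608 {n : ℕ} (c : Mon n) (b : Fin (n + 1) → ℕ) : ZMod 2 :=
  open Classical in if h : ∃ i, b i = 0 then c (b ∘ h.choose.succAbove) else 0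

private theorem extf_eq_A608 {n d : ℕ} {c : Mon n} (hc : c ∈ EE n d) {b : Fin (n + 1) → ℕ}
    {i : Fin (n + 1)} (hi : b i = 0) : extf_A608 c b = c (b ∘ i.succAbove) := by
  classical
  have h : ∃ i, b i = 0 := ⟨i, hi⟩
  unfold extf_A608
  rw [dif_pos h]
  obtain ⟨σ, hσ⟩ := exists_perm_A608 (Equiv.swap i h.choose) i
  rw [Equiv.swap_apply_left] at hσ
  rw [← hc.2 σ]
  congr 1
  funext k
  show b (h.choose.succAbove (σ k)) = b (i.succAbove k)
  rw [← hσ]
  by_cases h1 : i.succAbove k = h.choose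
  · rw [h1, Equiv.swap_apply_right, hi, h.choose_spec]
  · rw [Equiv.swap_apply_of_ne_of_ne (Fin.succAbove_ne i k) h1]

private theorem extf_symm_A608 {n d : ℕ} {c : Mon n} (hc : c ∈ EE n d) (τ : Equiv.Perm (Fin (n + 1)))
    (b : Fin (n + 1) → ℕ) : extf_A608 c (b ∘ τ) = extf_A608 c b := by
  classical
  by_cases h : ∃ i, (b ∘ τ) i = 0
  · obtain ⟨i, hi⟩ := h
    rw [extf_eq_A608 hc hi, extf_eq_A608 hc (i := τ i) hi]
    obtain ⟨σ, hσ⟩ := exists_perm_A608 τ i
    rw [← hc.2 σ (b ∘ (τ i).succAbove)]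
    congr 1
    funext k
    show b (τ (i.succAbove k)) = b ((τ i).succAbove (σ k))
    rw [hσ]
  · have h' : ¬ ∃ i, b i = 0 := by
      rintro ⟨i, hi⟩
      exact h ⟨τ.symm i, by simpa using hi⟩
    unfold extf_A608
    rw [dif_neg h, dif_neg h']

private theorem extf_wt_A608 {n d : ℕ} {c : Mon n} (hc : c ∈ EE n d) {b : Fin (n + 1) → ℕ}
    (hb : extf_A608 c b ≠ 0) : wt b = d + 1 := by
  classical
  by_cases h : ∃ i, b i = 0
  · obtain ⟨i, hi⟩ := h
    rw [extf_eq_A608 hc hi] at hb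
    rw [wt_succAbove_A608 b i hi, hc.1 _ hb]
  · exact absurd (by unfold extf_A608; rw [dif_neg h]) hb

private theorem le_wt_A608 {n : ℕ} (b : Fin n → ℕ) (i : Fin n) : b i < wt b + 1 := by
  have h1 : 2 ^ b i ≤ wt b := Finset.single_le_sum (f := fun i => 2 ^ b i)
    (fun _ _ => Nat.zero_le _) (Finset.mem_univ i)
  have h2 : b i < 2 ^ b i := Nat.lt_two_pow_self
  omega

private theorem phiE_surj_A608 (n d : ℕ) : Function.Surjective (phiE_A608 n d) := by
  classical
  rintro ⟨c, hc⟩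
  refine ⟨⟨Finsupp.onFinset (Fintype.piFinset fun _ => Finset.range (d + 2)) (extf_A608 c)
    (fun b hb => ?_), fun b hb => ?_, fun σ b => ?_⟩, ?_⟩
  · rw [Fintype.mem_piFinset]
    intro i
    rw [Finset.mem_range]
    have h1 := extf_wt_A608 hc hb
    have h2 := le_wt_A608 b i
    omega
  · exact extf_wt_A608 hc hb
  · exact extf_symm_A608 hc σ b
  · refine Subtype.ext (Finsupp.ext fun b => ?_)
    rw [phiE_val_A608]
    show extf_A608 c (Fin.cons 0 b) = c b
    rw [extf_eq_A608 hc (i := 0) rfl]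
    congr 1

private theorem phiE_im0_A608 {n d : ℕ} (c : (EAM (n + 1)).M (d + 1)) (hc : c ∈ (EAM (n + 1)).im0 d) :
    phiE_A608 n d c = 0 := by
  rcases AM.mem_im0 hc with rfl | ⟨p, hp, y, rfl⟩
  · exact map_zero _
  · refine Subtype.ext (Finsupp.ext fun b => ?_)
    show ((EAM (n + 1)).Sq p (d + 1) y : EE (n + 1) (d + 1)).1 (Fin.cons 0 b) = 0
    have h1 : ∀ a, a = 2 * p → ((EAM (n + 1)).Sq p a y : EE (n + 1) a).1 (Fin.cons 0 b) = 0 := by
      rintro _ rfl
      rw [EAM_Sq0_apply, if_neg]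
      intro h
      have := h 0
      simp at this
    exact h1 _ hp.symm

private theorem ker_A608 {n d : ℕ} (c : EE (n + 1) (d + 1)) (hc : phiE_A608 n d c = 0) :
    c ∈ (EAM (n + 1)).im0 d := by
  classical
  have h0 : ∀ b : Fin (n + 1) → ℕ, (∃ i, b i = 0) → c.1 b = 0 := by
    rintro b ⟨i, hi⟩
    rw [← c.2.2 (Equiv.swap 0 i) b]
    have h1 : b ∘ Equiv.swap 0 i = Fin.cons 0 (fun k : Fin n => b (Equiv.swap 0 i k.succ)) := by
      funext k
      refine Fin.cases ?_ (fun j => ?_) k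
      · simp [hi]
      · simp
    rw [h1, ← phiE_val_A608, hc]
    rfl
  by_cases hz : c = 0
  · rw [hz]
    exact Submodule.zero_mem _
  have hex : ∃ b, c.1 b ≠ 0 := by
    by_contra h
    push Not at h
    exact hz (Subtype.ext (Finsupp.ext h))
  have hsh : ∀ b : Fin (n + 1) → ℕ, wt (fun i => b i + 1) = 2 * wt b := by
    intro b
    unfold wt
    rw [Finset.mul_sum]
    exact Finset.sum_congr rfl fun i _ => by ring
  obtain ⟨b, hb⟩ := hex
  have hb1 : ∀ i, b i ≠ 0 := fun i hi => hb (h0 b ⟨i, hi⟩)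
  have hev : 2 * wt (fun i => b i - 1) = d + 1 := by
    rw [← hsh, ← c.2.1 b hb]
    congr 1
    funext i
    have := hb1 i
    omega
  generalize wt (fun i => b i - 1) = p at hev
  have hinj : Function.Injective (fun (b : Fin (n + 1) → ℕ) (i : Fin (n + 1)) => b i + 1) := by
    intro b b' h
    funext i
    have := congrFun h i
    simpa using this
  have key : ∃ y : EE (n + 1) p, c = ((EAM (n + 1)).Sq p (d + 1) y : EE (n + 1) (d + 1)) := by
    refine ⟨⟨Finsupp.comapDomain _ c.1 hinj.injOn, fun b hb => ?_, fun σ b => ?_⟩, ?_⟩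
    · have h1 : wt (fun i => b i + 1) = d + 1 := c.2.1 _ hb
      have h2 := hsh b
      omega
    · exact c.2.2 σ (fun i => b i + 1)
    · have h1 : ∀ a, a = 2 * p → ∀ (c : EE (n + 1) a) (y : EE (n + 1) p),
          (∀ b : Fin (n + 1) → ℕ, (∃ i, b i = 0) → c.1 b = 0) →
          (∀ b, y.1 b = c.1 (fun i => b i + 1)) → c = ((EAM (n + 1)).Sq p a y : EE (n + 1) a) := by
        rintro _ rfl c y h0 hy
        refine Subtype.ext (Finsupp.ext fun b => ?_)
        refine Eq.trans ?_ (EAM_Sq0_apply (n := n + 1) (d := p) y b).symm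
        split_ifs with h
        · rw [hy]
          congr 1
          funext i
          have := h i
          omega
        · push Not at h
          obtain ⟨i, hi⟩ := h
          exact h0 b ⟨i, by omega⟩
      exact h1 _ hev.symm c _ h0 (fun b => rfl)
  obtain ⟨y, hy⟩ := key
  rw [hy]
  exact (EAM (n + 1)).Sq_mem_im0 hev y

/-- the coefficient map, as a map of the underlying modules -/
private noncomputable def phiM_A608 (n d : ℕ) :
    (EAM (n + 1)).M (d + 1) →ₗ[ZMod 2] (EAM n).M d := phiE_A608 n d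

theorem EAM_Om_succ (n : ℕ) : Nonempty (AMIso ((EAM (n + 1)).Om (EAM_Frob (n + 1))) (EAM n)) := by
  have hk : ∀ d, (EAM (n + 1)).im0 d = LinearMap.ker (phiM_A608 n d) := by
    intro d
    ext c
    exact ⟨fun h => phiE_im0_A608 c h, fun h => ker_A608 c h⟩
  refine ⟨⟨fun d => (Submodule.quotEquivOfEq _ _ (hk d)).trans
    ((phiM_A608 n d).quotKerEquivOfSurjective (phiE_surj_A608 n d)), fun d m x => ?_⟩⟩
  obtain ⟨x, rfl⟩ := AM.Om.pr_surjective _ _ _ x
  exact phiE_Sq_A608 x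

theorem EAM_Om_zero (d : ℕ) (x : ((EAM 0).Om (EAM_Frob 0)).M d) : x = 0 := by
  obtain ⟨x, rfl⟩ := AM.Om.pr_surjective _ _ _ x
  have h1 : ∀ x : EE 0 (d + 1), x = 0 := by
    intro x
    refine Subtype.ext (Finsupp.ext fun b => ?_)
    by_contra h
    have h2 := x.2.1 b h
    simp [wt] at h2
  rw [show x = 0 from h1 x, map_zero]

end MM
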