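import Pool.Agent.Lib_MP_33f7bb_d.A605
import Pool.Agent.Lib_MP_33f7bb_d.A608

/-!
# A6-09: the loop functor preserves `Good`

`AM.Om_iso`: `AM.OmMap` of an isomorphism and of its inverse are inverse to each other.
`AM.Om_dsum`: `Om (dsum M) ≅ dsum (Om (M i))`: the map `DFinsupp.mapRange` of the projections `pr`, surjective
(`DFinsupp.mapRange_surjective`), kernel: all components in `im0`, i.e. `= im0 (dsum M)` (if `n + 1` is even choose
preimages under `Sq0` componentwise: `DFinsupp` surjectivity again; if `n + 1` is odd both are `0`).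
`AM.Good.Om`: `M ≅ dsum E(n_i)`; `Om M ≅ dsum (Om E(n_i)) ≅ dsum_(i : {i // n_i ≥ 1}) E(n_i - 1)`: the summands with `n_i = 0` are
zero (`EAM_Om_zero`), the others by `EAM_Om_succ`.
-/

namespace MM

private theorem A609_iso (N P : AM) (hN : N.Frob) (f : ∀ n, N.M (n + 1) →ₗ[ZMod 2] P.M n)
    (hs : ∀ n, Function.Surjective (f n)) (hk : ∀ n x, f n x = 0 ↔ x ∈ N.im0 n)
    (hc : ∀ n m x, f m (N.Sq (n + 1) (m + 1) x) = P.Sq n m (f n x)) :
    Nonempty (AMIso (N.Om hN) P) := by
  have hl : ∀ n, N.im0 n ≤ LinearMap.ker (f n) := fun n x hx => (hk n x).2 hx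
  have hb : ∀ n, Function.Bijective ((N.im0 n).liftQ (f n) (hl n)) := by
    intro n
    constructor
    · rw [injective_iff_map_eq_zero]
      intro x hx
      obtain ⟨x, rfl⟩ := Submodule.Quotient.mk_surjective _ x
      rw [Submodule.liftQ_apply] at hx
      exact (Submodule.Quotient.mk_eq_zero _).2 ((hk n x).1 hx)
    · intro y
      obtain ⟨x, hx⟩ := hs n y
      exact ⟨Submodule.Quotient.mk x, hx⟩
  refine ⟨⟨fun n => LinearEquiv.ofBijective ((N.im0 n).liftQ (f n) (hl n)) (hb n), fun n m x => ?_⟩⟩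
  obtain ⟨x, rfl⟩ := AM.Om.pr_surjective _ _ _ x
  exact hc n m x

theorem AM.Om_iso {M N : AM} (hM : M.Frob) (hN : N.Frob) (e : AMIso M N) :
    Nonempty (AMIso (M.Om hM) (N.Om hN)) := by
  refine A609_iso M (N.Om hN) hM (fun n => (AM.Om.pr N hN n).comp (e.e (n + 1)).toLinearMap)
    (fun n => (AM.Om.pr_surjective N hN n).comp (e.e (n + 1)).surjective) (fun n x => ?_)
    (fun n m x => ?_)
  · show AM.Om.pr N hN n (e.e (n + 1) x) = 0 ↔ _
    rw [AM.Om.pr_eq_zero]
    constructor
    · intro h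
      have h1 := e.symm.hom.im0 h
      have h2 : e.symm.hom.app (n + 1) (e.e (n + 1) x) = x := (e.e (n + 1)).symm_apply_apply x
      rwa [h2] at h1
    · intro h
      exact e.hom.im0 h
  · show AM.Om.pr N hN m (e.e (m + 1) (M.Sq (n + 1) (m + 1) x)) =
      (N.Om hN).Sq n m (AM.Om.pr N hN n (e.e (n + 1) x))
    rw [e.comm, AM.Om.Sq_pr]

private theorem A609_ker {ι : Type} (M : ι → AM) (h : ∀ i, (M i).Frob) (n : ℕ)
    (x : Π₀ i, (M i).M (n + 1)) :
    (DFinsupp.mapRange.linearMap (fun i => AM.Om.pr (M i) (h i) n) x = 0) ↔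
      ∀ i, x i ∈ (M i).im0 n := by
  rw [DFinsupp.ext_iff]
  refine forall_congr' fun i => ?_
  rw [DFinsupp.mapRange.linearMap_apply, DFinsupp.mapRange_apply, DFinsupp.zero_apply,
    AM.Om.pr_eq_zero]

private theorem A609_mem {ι : Type} (M : ι → AM) (n : ℕ) (x : Π₀ i, (M i).M (n + 1)) :
    (∀ i, x i ∈ (M i).im0 n) ↔ x ∈ (AM.dsum M).im0 n := by
  classical
  constructor
  · intro hx
    by_cases h2 : 2 ∣ n + 1
    · have h3 : ∀ i, ∃ y, (M i).Sq ((n + 1) / 2) (n + 1) y = x i := by
        intro i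
        have h4 := hx i
        unfold AM.im0 at h4
        rw [if_pos h2] at h4
        exact h4
      choose y hy using h3
      have h6 : x = (AM.dsum M).Sq ((n + 1) / 2) (n + 1)
          (DFinsupp.mk (DFinsupp.support x) fun i => y i.1 : Π₀ i, (M i).M ((n + 1) / 2)) := by
        refine DFinsupp.ext fun i => ?_
        show x i = (M i).Sq ((n + 1) / 2) (n + 1)
          ((DFinsupp.mk (DFinsupp.support x) fun i => y i.1 : Π₀ i, (M i).M ((n + 1) / 2)) i)
        rw [DFinsupp.mk_apply]
        split_ifs with h7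
        · exact (hy i).symm
        · rw [map_zero]
          exact DFinsupp.notMem_support_iff.1 h7
      rw [h6]
      exact AM.Sq_mem_im0 _ (by omega) _
    · have h3 : x = 0 := by
        refine DFinsupp.ext fun i => ?_
        have h4 := hx i
        unfold AM.im0 at h4
        rw [if_neg h2] at h4
        exact (Submodule.mem_bot _).1 h4
      rw [h3]
      exact Submodule.zero_mem _
  · intro hx i
    rcases AM.mem_im0 hx with h0 | ⟨p, hp, y, h0⟩
    · rw [h0]
      exact Submodule.zero_mem _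
    · rw [h0]
      exact AM.Sq_mem_im0 _ hp _

theorem AM.Om_dsum {ι : Type} (M : ι → AM) (h : ∀ i, (M i).Frob) (h' : (AM.dsum M).Frob) :
    Nonempty (AMIso ((AM.dsum M).Om h') (AM.dsum fun i => (M i).Om (h i))) := by
  classical
  refine A609_iso (AM.dsum M) (AM.dsum fun i => (M i).Om (h i)) h'
    (fun n => DFinsupp.mapRange.linearMap (fun i => AM.Om.pr (M i) (h i) n))
    (fun n => ?_) (fun n x => (A609_ker M h n x).trans (A609_mem M n x)) (fun n m x => ?_)
  · exact (DFinsupp.mapRange_surjective (fun i => AM.Om.pr (M i) (h i) n) (fun i => map_zero _)).2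
      fun i => AM.Om.pr_surjective (M i) (h i) n
  · refine DFinsupp.ext fun i => ?_
    rfl

/-- isomorphic summands -/
theorem AM.dsum_iso {ι : Type} (M N : ι → AM) (h : ∀ i, Nonempty (AMIso (M i) (N i))) :
    Nonempty (AMIso (AM.dsum M) (AM.dsum N)) := by
  have e := fun i => (h i).some
  refine ⟨⟨fun n => DFinsupp.mapRange.linearEquiv (fun i => (e i).e n), fun n m x => ?_⟩⟩
  refine DFinsupp.ext fun i => ?_
  exact (e i).comm n m _

/-- zero summands can be omitted -/
theorem AM.dsum_omit {ι : Type} (M : ι → AM) (p : ι → Prop)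
    (h : ∀ i, ¬ p i → ∀ n (x : (M i).M n), x = 0) :
    Nonempty (AMIso (AM.dsum M) (AM.dsum fun i : {i // p i} => M i.1)) := by
  classical
  have hb : ∀ n, Function.Bijective (DFinsupp.subtypeDomainLinearMap (ZMod 2)
      (fun i => (M i).M n) p) := by
    intro n
    constructor
    · intro x y hxy
      refine DFinsupp.ext fun i => ?_
      by_cases hi : p i
      · exact DFunLike.congr_fun hxy (⟨i, hi⟩ : {i // p i})
      · rw [h i hi n (x i), h i hi n (y i)]
    · intro y
      have h1 : y ∈ LinearMap.range (DFinsupp.subtypeDomainLinearMap (ZMod 2)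
          (fun i => (M i).M n) p) := by
        induction y using DFinsupp.induction with
        | h0 => exact Submodule.zero_mem _
        | ha i b f _ _ hf =>
          refine Submodule.add_mem _ ⟨DFinsupp.single i.1 b, ?_⟩ hf
          refine DFinsupp.ext fun j => ?_
          show (DFinsupp.single i.1 b : Π₀ i, (M i).M n) j.1 = _
          by_cases hij : i = j
          · subst hij
            rw [DFinsupp.single_eq_same, DFinsupp.single_eq_same]
          · rw [DFinsupp.single_eq_of_ne (fun h => hij (Subtype.ext h.symm)),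
              DFinsupp.single_eq_of_ne (fun h => hij h.symm)]
      exact h1
  refine ⟨⟨fun n => LinearEquiv.ofBijective _ (hb n), fun n m x => ?_⟩⟩
  refine DFinsupp.ext fun i => ?_
  rfl

theorem AM.Good.Om {M : AM} (hM : M.Good) (h : M.Frob) : (M.Om h).Good := by
  obtain ⟨ι, n, ⟨e⟩⟩ := hM
  have hE : ∀ i, (EAM (n i)).Frob := fun i => EAM_Frob (n i)
  have hD : (AM.dsum fun i => EAM (n i)).Frob := AM.dsum_Frob _ hE
  obtain ⟨e1⟩ := AM.Om_iso hD h e
  obtain ⟨e2⟩ := AM.Om_dsum (fun i => EAM (n i)) hE hD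
  obtain ⟨e3⟩ := AM.dsum_omit (fun i => (EAM (n i)).Om (hE i)) (fun i => n i ≠ 0) (by
    intro i hi k x
    have h0 : n i = 0 := not_not.1 hi
    have h1 : ∀ (m : ℕ) (hm : (EAM m).Frob), m = 0 → ∀ x : ((EAM m).Om hm).M k, x = 0 := by
      rintro m hm rfl x
      exact EAM_Om_zero k x
    exact h1 (n i) (hE i) h0 x)
  obtain ⟨e4⟩ := AM.dsum_iso (fun i : {i // n i ≠ 0} => (EAM (n i.1)).Om (hE i.1))
    (fun i : {i // n i ≠ 0} => EAM (n i.1 - 1)) (by
      intro i
      have h1 : ∀ (m : ℕ) (hm : (EAM m).Frob), m ≠ 0 →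
          Nonempty (AMIso ((EAM m).Om hm) (EAM (m - 1))) := by
        intro m hm hm0
        obtain ⟨k, rfl⟩ : ∃ k, m = k + 1 := ⟨m - 1, by omega⟩
        exact EAM_Om_succ k
      exact h1 _ _ i.2)
  exact ⟨{i // n i ≠ 0}, fun i => n i.1 - 1, ⟨(e4.symm.trans e3.symm).trans (e2.symm.trans e1)⟩⟩

end MM
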