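import Pool.Agent.Lib_MP_33f7bb_d.A606
import Pool.Agent.Lib_MP_33f7bb_d.A607
import Pool.Agent.Lib_MP_33f7bb_d.A609

/-!
# A6-10: exactness of `HomH` for bounded complexes of good modules
-/

namespace MM

/-- exactness of `HomH _ t` on bounded complexes of good modules -/
theorem AMC.homEx_good (t : ℕ) : ∀ (C : AMC), (∀ s, (C.M s).Good) → C.Bdd → C.HomEx t := by
  induction t with
  | zero => intro C hg hB; exact C.homEx_zero (fun s => (hg s).inj0) (fun s => (hg s).beta) hB
  | succ t ih =>
    intro C hg hB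
    exact AMC.HomEx.of_Om C (fun s => (hg s).frob) t (ih _ (fun s => (hg s).Om (hg s).frob)
      (C.Om_Bdd _ (fun s => (hg s).inj0) hB))

/-- exactness of `HomH _ (t+1)` on bounded complexes of suspensions of good modules -/
theorem AMC.homEx_susp (C : AMC) (G : ℕ → AM) (hG : ∀ s, (G s).Good)
    (S : ∀ s, IsSusp (G s) (C.M s)) (hB : C.Bdd) (t : ℕ) : C.HomEx (t + 1) :=
  AMC.HomEx.of_desusp C G S t (AMC.homEx_good t _ hG (C.desusp_Bdd G S hB))

end MM
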