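import Pool.Agent.Lib_MP_33f7bb_d.A610
import Pool.Agent.Lib_MP_33f7bb_d.A7IF

/-!
# A6-11: `HomExactProp`
-/

namespace MM

/-- part A6 in the form used by A7 -/
theorem homExact : HomExactProp := by
  intro M δ hdd hs _ hb0 hb t ht
  choose ι a hS using hs
  let C : AMC := ⟨M, δ, hdd⟩
  have hB : C.Bdd := by
    intro s
    cases s with
    | zero => exact hb0
    | succ s => exact hb s
  have hG : ∀ s, (AM.dsum fun l => EAM (a s l)).Good := fun s =>
    ⟨ι s, a s, ⟨⟨fun _ => LinearEquiv.refl _ _, fun _ _ _ => rfl⟩⟩⟩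
  obtain ⟨t, rfl⟩ := Nat.exists_eq_succ_of_ne_zero (by omega : t ≠ 0)
  have h := AMC.homEx_susp C (fun s => AM.dsum fun l => EAM (a s l)) hG (fun s => (hS s).some) hB t
  refine ⟨h.zero, fun s f hf h0 => ?_⟩
  obtain ⟨g, hg, hg'⟩ := h.succ s f hf h0
  exact ⟨g, hg, fun n x => (hg' n x).symm⟩

end MM
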