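import Pool.Agent.Lib_MP_33f7bb_d.A4Def

/-!
# A6 definitions: complexes of unstable modules, exactness in large degrees, the functor `Om`

`AMC`: complexes `... → M 2 → M 1 → M 0` of `AM`s.  `AMC.Bdd`: every homology group is zero in large degrees.
`AMC.HomEx t`: the complex `HomH (M 0) t → HomH (M 1) t → ...` is exact (and injective at `0`).
`AM.Frob`, `AM.Inj0`, `AM.Beta`: the three properties of direct sums of the modules `E(n)` that are used.
-/

namespace MM

/-! ## maps -/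

/-- identity -/
def AMHom.id (M : AM) : AMHom M M := ⟨fun _ => LinearMap.id, fun _ _ _ => rfl⟩

/-- composition -/
def AMHom.comp {M N P : AM} (g : AMHom N P) (f : AMHom M N) : AMHom M P :=
  ⟨fun n => (g.app n).comp (f.app n), fun n m x => by
    simp only [LinearMap.comp_apply, f.comm, g.comm]⟩

/-- the inverse isomorphism -/
def AMIso.symm {M N : AM} (e : AMIso M N) : AMIso N M :=
  ⟨fun n => (e.e n).symm, fun n m x => by
    apply (e.e m).injective
    rw [LinearEquiv.apply_symm_apply, e.comm, LinearEquiv.apply_symm_apply]⟩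

/-- composition of isomorphisms -/
def AMIso.trans {M N P : AM} (e : AMIso M N) (e' : AMIso N P) : AMIso M P :=
  ⟨fun n => (e.e n).trans (e'.e n), fun n m x => by
    simp only [LinearEquiv.trans_apply, e.comm, e'.comm]⟩

/-- the map of an isomorphism -/
def AMIso.hom {M N : AM} (e : AMIso M N) : AMHom M N :=
  ⟨fun n => (e.e n).toLinearMap, fun n m x => e.comm n m x⟩

/-! ## complexes -/

/-- a complex `... → M 2 → M 1 → M 0` of unstable modules -/
structure AMC where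
  M : ℕ → AM
  d : ∀ s, AMHom (M (s + 1)) (M s)
  dd : ∀ s n x, (d s).app n ((d (s + 1)).app n x) = 0

/-- exactness at `M s` in degree `n` (for `s = 0`: surjectivity of `M 1 → M 0`) -/
def AMC.ExAt (C : AMC) : ℕ → ℕ → Prop
  | 0, n => ∀ x : (C.M 0).M n, ∃ y, (C.d 0).app n y = x
  | s + 1, n => ∀ x : (C.M (s + 1)).M n, (C.d s).app n x = 0 → ∃ y, (C.d (s + 1)).app n y = x

/-- the homology at every spot is zero in large degrees -/
def AMC.Bdd (C : AMC) : Prop := ∀ s, ∃ D, ∀ n, D < n → C.ExAt s n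

/-- exactness of `0 → HomH (M 0) t → HomH (M 1) t → ...` -/
structure AMC.HomEx (C : AMC) (t : ℕ) : Prop where
  zero : ∀ g ∈ (C.M 0).HomH t, (∀ n x, g n ((C.d 0).app n x) = 0) → g = 0
  succ : ∀ s, ∀ g ∈ (C.M (s + 1)).HomH t, (∀ n x, g n ((C.d (s + 1)).app n x) = 0) →
    ∃ h ∈ (C.M s).HomH t, ∀ n x, h n ((C.d s).app n x) = g n x

/-! ## the three properties -/

/-- `Sq0` is injective -/
def AM.Inj0 (M : AM) : Prop := ∀ n (x : M.M n), M.Sq n (2 * n) x = 0 → x = 0

/-- relation of `Sq0` with the other operations -/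
structure AM.Frob (M : AM) : Prop where
  even : ∀ p r (x : M.M p), M.Sq (2 * p) (2 * r) (M.Sq p (2 * p) x) = M.Sq r (2 * r) (M.Sq p r x)
  odd : ∀ p r (x : M.M p), M.Sq (2 * p) (2 * r + 1) (M.Sq p (2 * p) x) = 0

/-- compatible families of functionals on the `M^(2^k)` -/
def AM.Cpt (M : AM) (l : ∀ k, Module.Dual (ZMod 2) (M.M (2 ^ k))) : Prop :=
  ∀ k x, l (k + 1) (M.Sq (2 ^ k) (2 ^ (k + 1)) x) = l k x

/-- every compatible family comes from an element of `HomH M 0` through the inverse total square -/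
def AM.Beta (M : AM) : Prop := ∀ l : ∀ k, Module.Dual (ZMod 2) (M.M (2 ^ k)), M.Cpt l →
  ∃ f ∈ M.HomH 0, ∀ j (x : M.M j), ∃ K, ∀ k, K ≤ k → f j x = l k (M.cSq j (2 ^ k) x)

/-- isomorphic to a direct sum of modules `E(n)` -/
def AM.Good (M : AM) : Prop := ∃ (ι : Type) (n : ι → ℕ),
  Nonempty (AMIso (AM.dsum fun i => EAM (n i)) M)

/-! ## the loop functor -/

/-- the image of `Sq0` in degree `n + 1` -/
def AM.im0 (M : AM) (n : ℕ) : Submodule (ZMod 2) (M.M (n + 1)) :=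
  if 2 ∣ n + 1 then LinearMap.range (M.Sq ((n + 1) / 2) (n + 1)) else ⊥

theorem AM.mem_im0 {M : AM} {n : ℕ} {x : M.M (n + 1)} (hx : x ∈ M.im0 n) :
    x = 0 ∨ ∃ (p : ℕ) (_ : 2 * p = n + 1) (y : M.M p), x = M.Sq p (n + 1) y := by
  unfold AM.im0 at hx
  split_ifs at hx with h
  · obtain ⟨y, rfl⟩ := hx
    exact Or.inr ⟨(n + 1) / 2, Nat.mul_div_cancel' h, y, rfl⟩
  · exact Or.inl hx

theorem AM.Sq_mem_im0 (M : AM) {n p : ℕ} (h : 2 * p = n + 1) (y : M.M p) :
    M.Sq p (n + 1) y ∈ M.im0 n := by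
  unfold AM.im0
  rw [if_pos ⟨p, h.symm⟩]
  obtain rfl : p = (n + 1) / 2 := by omega
  exact ⟨y, rfl⟩

theorem AM.im0_Sq {M : AM} (h : M.Frob) {n m : ℕ} {x : M.M (n + 1)} (hx : x ∈ M.im0 n) :
    M.Sq (n + 1) (m + 1) x ∈ M.im0 m := by
  rcases AM.mem_im0 hx with rfl | ⟨p, hp, y, rfl⟩
  · rw [map_zero]; exact Submodule.zero_mem _
  · have h1 : ∀ a, a = 2 * p → ∀ m, M.Sq a (m + 1) (M.Sq p a y) ∈ M.im0 m := by
      rintro _ rfl m
      rcases Nat.even_or_odd' (m + 1) with ⟨r, hr | hr⟩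
      · have h2 := h.even p r y
        rw [← hr] at h2
        rw [h2]
        exact M.Sq_mem_im0 hr.symm _
      · have h2 := h.odd p r y
        rw [← hr] at h2
        rw [h2]
        exact Submodule.zero_mem _
    exact h1 _ hp.symm m

/-- the loop functor: `(Om M)^n = M^(n+1) / Sq0` -/
noncomputable def AM.Om (M : AM) (h : M.Frob) : AM where
  M n := M.M (n + 1) ⧸ M.im0 n
  Sq n m := Submodule.mapQ _ _ (M.Sq (n + 1) (m + 1)) (fun _ hx => AM.im0_Sq h hx)
  Sq_lt n m hlt := by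
    apply LinearMap.ext
    intro x
    obtain ⟨x, rfl⟩ := Submodule.Quotient.mk_surjective _ x
    rw [Submodule.mapQ_apply, M.Sq_lt _ _ (by omega)]
    rfl
  Sq_id n := by
    apply LinearMap.ext
    intro x
    obtain ⟨x, rfl⟩ := Submodule.Quotient.mk_surjective _ x
    rw [Submodule.mapQ_apply, M.Sq_id]
    rfl
  unst n m hlt := by
    apply LinearMap.ext
    intro x
    obtain ⟨x, rfl⟩ := Submodule.Quotient.mk_surjective _ x
    rw [Submodule.mapQ_apply]
    show Submodule.Quotient.mk _ = 0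
    rw [Submodule.Quotient.mk_eq_zero]
    by_cases h1 : 2 * (n + 1) < m + 1
    · rw [M.unst _ _ h1]
      exact Submodule.zero_mem _
    · exact M.Sq_mem_im0 (by omega) x

/-- the projection -/
def AM.Om.pr (M : AM) (h : M.Frob) (n : ℕ) : M.M (n + 1) →ₗ[ZMod 2] (M.Om h).M n :=
  (M.im0 n).mkQ

theorem AM.Om.pr_surjective (M : AM) (h : M.Frob) (n : ℕ) :
    Function.Surjective (AM.Om.pr M h n) := Submodule.mkQ_surjective _

theorem AM.Om.Sq_pr (M : AM) (h : M.Frob) (n m : ℕ) (x : M.M (n + 1)) :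
    (M.Om h).Sq n m (AM.Om.pr M h n x) = AM.Om.pr M h m (M.Sq (n + 1) (m + 1) x) := rfl

theorem AM.Om.pr_eq_zero {M : AM} {h : M.Frob} {n : ℕ} {x : M.M (n + 1)} :
    AM.Om.pr M h n x = 0 ↔ x ∈ M.im0 n := Submodule.Quotient.mk_eq_zero _

theorem AMHom.im0 {M N : AM} (f : AMHom M N) {n : ℕ} {x : M.M (n + 1)} (hx : x ∈ M.im0 n) :
    f.app (n + 1) x ∈ N.im0 n := by
  rcases AM.mem_im0 hx with rfl | ⟨p, hp, y, rfl⟩
  · rw [map_zero]; exact Submodule.zero_mem _
  · rw [f.comm]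
    exact N.Sq_mem_im0 hp _

/-- functoriality of the loop functor -/
noncomputable def AM.OmMap {M N : AM} (hM : M.Frob) (hN : N.Frob) (f : AMHom M N) :
    AMHom (M.Om hM) (N.Om hN) :=
  ⟨fun n => Submodule.mapQ _ _ (f.app (n + 1)) (fun _ hx => f.im0 hx), fun n m x => by
    obtain ⟨x, rfl⟩ := Submodule.Quotient.mk_surjective _ x
    show AM.Om.pr N hN m (f.app (m + 1) (M.Sq (n + 1) (m + 1) x)) =
      AM.Om.pr N hN m (N.Sq (n + 1) (m + 1) (f.app (n + 1) x))
    rw [f.comm]⟩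

theorem AM.OmMap_pr {M N : AM} (hM : M.Frob) (hN : N.Frob) (f : AMHom M N) (n : ℕ)
    (x : M.M (n + 1)) : (AM.OmMap hM hN f).app n (AM.Om.pr M hM n x) =
      AM.Om.pr N hN n (f.app (n + 1) x) := rfl

/-- loops of a complex -/
noncomputable def AMC.Om (C : AMC) (h : ∀ s, (C.M s).Frob) : AMC where
  M s := (C.M s).Om (h s)
  d s := AM.OmMap _ _ (C.d s)
  dd s n x := by
    obtain ⟨x, rfl⟩ := AM.Om.pr_surjective _ _ _ x
    rw [AM.OmMap_pr, AM.OmMap_pr, C.dd, map_zero]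

end MM
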