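import Pool.Agent.Lib_MP_33f7bb_d.A3Box

/-!
# A7-00: homology of `B(ZMod 2)`

`exists_eB`: the reduced homology of `K1 = B(ZMod 2)` is one dimensional in every degree `j ≥ 1`; `RVK1_zero`: it is
zero in degree `0`.
Proof.  Explicit cycle: the sum of ALL `n`-simplices of `B` is a Moore cycle for `n ≥ 1` (every fibre of a
face map has even cardinality).  An element of the reduced chains all of whose faces `δ_i`, `i ≥ 1`, vanish is
`0` or this sum (the coefficient function is constant away from the base simplex: flip one coordinate at a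
time).  The rest follows from the Moore representatives (`A005`).
-/

open scoped TensorProduct

namespace MM

private noncomputable abbrev A700_ft (n : ℕ) : Fintype (K1.V n) :=
  @Fintype.ofFinite _ (inferInstanceAs (Finite {f : Fin (n + 1) → ZMod 2 // f ∈ LinearMap.ker
    (LinearMap.proj (R := ZMod 2) (φ := fun _ : Fin (n + 1) => ZMod 2) 0)}))

attribute [local instance] A700_ft

/-- the sum of all simplices in the reduced chains of `B(ZMod 2)` -/
private noncomputable def A700_s (n : ℕ) : (RV K1).V n :=
  (linSub (Sub.pt (P := K1.ss) K1.zv)).proj.app n (∑ f : K1.V n, Finsupp.single f 1)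

private def A700_u {n : ℕ} (i : Fin n) : K1.V n :=
  ⟨Pi.single i.succ 1, by simp [LinearMap.mem_ker]⟩

private def A700_one (n : ℕ) : K1.V n :=
  ⟨fun i => if i = 0 then 0 else 1, by simp [LinearMap.mem_ker]⟩

private theorem A700_zero {n : ℕ} (f : K1.V n) : f.1 0 = 0 := by
  have := f.2
  simpa only [LinearMap.mem_ker, LinearMap.proj_apply] using this

private theorem A700_deg (n : ℕ) : K1.ss.deg K1.zv n = (0 : K1.V n) := map_zero (K1.act _)

private theorem A700_proj_zero_iff {n : ℕ} (c : Ch K1.ss n) :
    (linSub (Sub.pt (P := K1.ss) K1.zv)).proj.app n c = 0 ↔ ∀ f : K1.V n, f ≠ 0 → c f = 0 := by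
  have h1 : (linSub (Sub.pt (P := K1.ss) K1.zv)).proj.app n c = 0 ↔
      c ∈ (linSub (Sub.pt (P := K1.ss) K1.zv)).car n := Submodule.Quotient.mk_eq_zero _
  rw [h1]
  constructor
  · intro h f hf
    by_contra hc
    have h2 : f ∈ (Sub.pt (P := K1.ss) K1.zv).car n := h (Finsupp.mem_support_iff.2 hc)
    have h3 : f = K1.ss.deg K1.zv n := h2
    rw [A700_deg] at h3
    exact hf h3
  · intro h f hf
    show f = K1.ss.deg K1.zv n
    rw [A700_deg]
    by_contra hne
    exact (Finsupp.mem_support_iff.1 hf) (h f hne)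

private theorem A700_zmod (x : ZMod 2) : x = 0 ∨ x = 1 := by
  fin_cases x
  · exact Or.inl rfl
  · exact Or.inr rfl

private theorem A700_face_apply {n : ℕ} (i : Fin (n + 1)) (f : K1.V (n + 1)) (j : Fin (n + 1)) :
    (K1.act (dlt i.succ) f).1 j = f.1 (i.succ.succAbove j) := by
  show f.1 ((dlt i.succ) j) - f.1 ((dlt i.succ) 0) = _
  have h0 : (dlt i.succ : Mo n (n + 1)) 0 = 0 := by
    show i.succ.succAbove 0 = 0
    exact Fin.succAbove_ne_zero_zero (Fin.succ_ne_zero i)
  rw [h0, A700_zero, sub_zero]
  rfl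

/-- the fibre of a face map -/
private theorem A700_fibre {n : ℕ} (i : Fin (n + 1)) (f g : K1.V (n + 1)) :
    K1.act (dlt i.succ) g = K1.act (dlt i.succ) f ↔ (g = f ∨ g = f + A700_u i) := by
  constructor
  · intro h
    have h1 : ∀ j, j ≠ i.succ → g.1 j = f.1 j := by
      intro j hj
      obtain ⟨k, rfl⟩ := Fin.exists_succAbove_eq hj
      have := congrFun (congrArg Subtype.val h) k
      rwa [A700_face_apply, A700_face_apply] at this
    rcases A700_zmod (g.1 i.succ - f.1 i.succ) with h2 | h2
    · left
      apply Subtype.ext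
      funext j
      by_cases hj : j = i.succ
      · rw [hj]; exact sub_eq_zero.1 h2
      · exact h1 j hj
    · right
      apply Subtype.ext
      funext j
      show g.1 j = f.1 j + (Pi.single i.succ 1 : Fin (n + 2) → ZMod 2) j
      by_cases hj : j = i.succ
      · rw [hj, Pi.single_eq_same, ← h2]; ring
      · rw [Pi.single_eq_of_ne hj, add_zero]; exact h1 j hj
  · rintro (rfl | rfl)
    · rfl
    · apply Subtype.ext
      funext j
      rw [A700_face_apply, A700_face_apply]
      show f.1 _ + (Pi.single i.succ 1 : Fin (n + 2) → ZMod 2) _ = _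
      rw [Pi.single_eq_of_ne (Fin.succAbove_ne _ _), add_zero]

private theorem A700_u_ne {n : ℕ} (i : Fin (n + 1)) : A700_u i ≠ 0 := by
  intro h
  have := congrFun (congrArg Subtype.val h) i.succ
  simp [A700_u] at this

private theorem A700_flip {n : ℕ} (c : Ch K1.ss (n + 1)) (i : Fin (n + 1))
    (h : (RV K1).act (dlt i.succ) ((linSub (Sub.pt (P := K1.ss) K1.zv)).proj.app (n + 1) c) = 0)
    (f : K1.V (n + 1)) (hf : f ≠ 0) (hf' : f ≠ A700_u i) : c f = c (f + A700_u i) := by
  classical
  have h1 : (linSub (Sub.pt (P := K1.ss) K1.zv)).proj.app n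
      (Finsupp.mapDomain (K1.ss.act (dlt i.succ)) c) = 0 := h
  rw [A700_proj_zero_iff] at h1
  have h2 := h1 (K1.act (dlt i.succ) f) (by
    intro h3
    have h4 : K1.act (dlt i.succ) f = K1.act (dlt i.succ) 0 := by rw [h3, map_zero]
    rcases (A700_fibre i 0 f).1 h4 with h5 | h5
    · exact hf h5
    · rw [zero_add] at h5; exact hf' h5)
  rw [Finsupp.mapDomain, Finsupp.sum_fintype _ _ (by simp), Finsupp.finsetSum_apply] at h2
  have h3 : ∀ g : K1.V (n + 1), (Finsupp.single (K1.ss.act (dlt i.succ) g) (c g) : Ch K1.ss n)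
      (K1.act (dlt i.succ) f) = if (g = f ∨ g = f + A700_u i) then c g else 0 := by
    intro g
    rw [Finsupp.single_apply]
    exact if_congr (A700_fibre i f g) rfl rfl
  have hne : f ≠ f + A700_u i := by
    intro h4
    have : A700_u i = 0 := by
      have h5 : f + 0 = f + A700_u i := by rw [add_zero]; exact h4
      exact (add_left_cancel h5).symm
    exact A700_u_ne i this
  have h4 : ∑ g : K1.V (n + 1), (if (g = f ∨ g = f + A700_u i) then c g else 0) =
      c f + c (f + A700_u i) := by
    rw [← Finset.sum_filter]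
    have : (Finset.univ.filter fun g : K1.V (n + 1) => g = f ∨ g = f + A700_u i) =
        {f, f + A700_u i} := by
      ext g; simp
    rw [this, Finset.sum_pair hne]
  have h5 : c f + c (f + A700_u i) = 0 := by
    rw [← h4]
    exact (Finset.sum_congr rfl fun g _ => (h3 g)).symm.trans h2
  have h6 : c f = - c (f + A700_u i) := eq_neg_of_add_eq_zero_left h5
  rw [h6]
  exact neg_eq' _

/-- elements with vanishing faces `δ_i`, `i ≥ 1` -/
private theorem A700_key {n : ℕ} (x : (RV K1).V (n + 1))
    (h : ∀ i : Fin (n + 1), (RV K1).act (dlt i.succ) x = 0) : x = 0 ∨ x = A700_s (n + 1) := by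
  classical
  obtain ⟨c, rfl⟩ := Submodule.Quotient.mk_surjective _ x
  have hflip : ∀ (i : Fin (n + 1)) (f : K1.V (n + 1)), f ≠ 0 → f ≠ A700_u i →
      c f = c (f + A700_u i) := fun i f => A700_flip c i (h i) f
  have hconst : ∀ (k : ℕ) (f : K1.V (n + 1)),
      (Finset.univ.filter fun i : Fin (n + 1) => f.1 i.succ = 0).card = k → f ≠ 0 →
      c f = c (A700_one (n + 1)) := by
    intro k
    induction k with
    | zero =>
      intro f hk _
      congr 1
      apply Subtype.ext
      funext j
      show f.1 j = if j = 0 then 0 else 1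
      by_cases hj : j = 0
      · rw [if_pos hj, hj, A700_zero]
      · rw [if_neg hj]
        obtain ⟨i, rfl⟩ := Fin.exists_succ_eq.2 hj
        rcases A700_zmod (f.1 i.succ) with h1 | h1
        · rw [Finset.card_eq_zero] at hk
          have : i ∈ (Finset.univ.filter fun i : Fin (n + 1) => f.1 i.succ = 0) := by simp [h1]
          rw [hk] at this
          simp at this
        · exact h1
    | succ k ih =>
      intro f hk hf
      have hne : (Finset.univ.filter fun i : Fin (n + 1) => f.1 i.succ = 0).Nonempty := by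
        rw [← Finset.card_pos]; omega
      obtain ⟨i, hi⟩ := hne
      rw [Finset.mem_filter] at hi
      have hi' : f.1 i.succ = 0 := hi.2
      have h1 : f ≠ A700_u i := by
        intro h2
        have := congrFun (congrArg Subtype.val h2) i.succ
        rw [hi'] at this
        simp [A700_u] at this
      rw [hflip i f hf h1]
      apply ih
      · have h2 : (Finset.univ.filter fun j : Fin (n + 1) => (f + A700_u i).1 j.succ = 0) =
            (Finset.univ.filter fun j : Fin (n + 1) => f.1 j.succ = 0).erase i := by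
          ext j
          simp only [Finset.mem_filter, Finset.mem_univ, true_and, Finset.mem_erase]
          show f.1 j.succ + (Pi.single i.succ 1 : Fin (n + 2) → ZMod 2) j.succ = 0 ↔ _
          by_cases hj : j = i
          · subst hj
            rw [Pi.single_eq_same, hi']
            simp
          · rw [Pi.single_eq_of_ne (fun h3 => hj (Fin.succ_injective _ h3)), add_zero]
            simp [hj]
        rw [h2, Finset.card_erase_of_mem (by simp [hi']), hk]
        rfl
      · intro h2
        have := congrFun (congrArg Subtype.val h2) i.succ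
        have h3 : f.1 i.succ + (Pi.single i.succ 1 : Fin (n + 2) → ZMod 2) i.succ = 0 := this
        rw [Pi.single_eq_same, hi'] at h3
        simp at h3
  have hall : ∀ f : K1.V (n + 1), f ≠ 0 → c f = c (A700_one (n + 1)) := fun f hf =>
    hconst _ f rfl hf
  have hsum : ∀ f : K1.V (n + 1),
      (∑ g : K1.V (n + 1), (Finsupp.single g 1 : Ch K1.ss (n + 1))) f = 1 := by
    intro f
    rw [Finsupp.finsetSum_apply]
    simp [Finsupp.single_apply]
  rcases A700_zmod (c (A700_one (n + 1))) with h1 | h1
  · left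
    exact (A700_proj_zero_iff c).2 fun f hf => by rw [hall f hf, h1]
  · right
    rw [← sub_eq_zero]
    show (linSub (Sub.pt (P := K1.ss) K1.zv)).proj.app (n + 1) c -
      (linSub (Sub.pt (P := K1.ss) K1.zv)).proj.app (n + 1) _ = 0
    rw [← map_sub]
    exact (A700_proj_zero_iff _).2 fun f hf => by
      rw [Finsupp.sub_apply, hsum, hall f hf, h1, sub_self]

private theorem A700_s_face {n : ℕ} (i : Fin (n + 2)) :
    (RV K1).act (dlt i) (A700_s (n + 1)) = 0 := by
  classical
  have hu : ∃ u : K1.V (n + 1), u ≠ 0 ∧ K1.act (dlt i) u = 0 := by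
    by_cases hi : i = 0
    · subst hi
      refine ⟨A700_one (n + 1), ?_, ?_⟩
      · intro h
        have := congrFun (congrArg Subtype.val h) 1
        simp [A700_one] at this
      · apply Subtype.ext
        funext j
        show (if (dlt (0 : Fin (n + 2)) : Mo n (n + 1)) j = 0 then (0 : ZMod 2) else 1) -
          (if (dlt (0 : Fin (n + 2)) : Mo n (n + 1)) 0 = 0 then (0 : ZMod 2) else 1) = 0
        have h1 : ∀ j, (dlt (0 : Fin (n + 2)) : Mo n (n + 1)) j ≠ 0 := fun j => by
          show (0 : Fin (n + 2)).succAbove j ≠ 0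
          exact Fin.succAbove_ne _ _
        rw [if_neg (h1 j), if_neg (h1 0), sub_self]
    · obtain ⟨k, rfl⟩ := Fin.exists_succ_eq.2 hi
      refine ⟨A700_u k, A700_u_ne k, ?_⟩
      have := (A700_fibre k 0 (A700_u k)).2 (Or.inr (by rw [zero_add]))
      rw [this, map_zero]
  obtain ⟨u, hu, hu'⟩ := hu
  have h1 : (RV K1).act (dlt i) (A700_s (n + 1)) = (linSub (Sub.pt (P := K1.ss) K1.zv)).proj.app n
      (Finsupp.mapDomain (K1.ss.act (dlt i)) (∑ f : K1.V (n + 1), Finsupp.single f 1)) := rfl
  rw [h1]
  have h2 : (Finsupp.mapDomain (K1.ss.act (dlt i)) (∑ f : K1.V (n + 1), Finsupp.single f 1) :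
      Ch K1.ss n) = 0 := by
    rw [Finsupp.mapDomain_finsetSum]
    simp only [Finsupp.mapDomain_single]
    refine Finset.sum_involution (fun f _ => f + u) ?_ ?_ (fun _ _ => Finset.mem_univ _) ?_
    · intro f _
      have h3 : K1.ss.act (dlt i) (f + u) = K1.ss.act (dlt i) f := by
        show K1.act (dlt i) (f + u) = K1.act (dlt i) f
        rw [map_add, hu', add_zero]
      show (Finsupp.single (K1.ss.act (dlt i) f) 1 + Finsupp.single (K1.ss.act (dlt i) (f + u)) 1 :
        Ch K1.ss n) = 0
      rw [h3]
      exact two_eq_zero' _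
    · intro f _ _ h3
      apply hu
      have h5 : f + u = f + 0 := by rw [add_zero]; exact h3
      exact add_left_cancel h5
    · intro f _
      exact (add_assoc _ _ _).trans ((congrArg (f + ·) (two_eq_zero' u)).trans (add_zero f))
  rw [h2, map_zero]

private theorem A700_s_ne (n : ℕ) : A700_s (n + 1) ≠ 0 := by
  classical
  intro h
  have h1 := (A700_proj_zero_iff _).1 h (A700_one (n + 1)) (by
    intro h
    have := congrFun (congrArg Subtype.val h) 1
    simp [A700_one] at this)
  rw [Finsupp.finsetSum_apply] at h1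
  simp [Finsupp.single_apply] at h1

theorem exists_eB (j : ℕ) (hj : 1 ≤ j) :
    ∃ e : (RV K1).H j, e ≠ 0 ∧ ∀ y : (RV K1).H j, y = 0 ∨ y = e := by
  obtain ⟨n, rfl⟩ : ∃ n, j = n + 1 := ⟨j - 1, by omega⟩
  have hM : (RV K1).Moore (A700_s (n + 1)) := (moore_iff _).2 fun i => A700_s_face i
  refine ⟨(RV K1).cls (A700_s (n + 1)) (Moore.mem_Z hM), ?_, ?_⟩
  · intro h
    have h0 : (⟨A700_s (n + 1), Moore.mem_Z hM⟩ : (RV K1).Z (n + 1)) ∈
        Submodule.comap ((RV K1).Z (n + 1)).subtype ((RV K1).B (n + 1)) :=
      (Submodule.Quotient.mk_eq_zero _).1 h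
    have h1 : A700_s (n + 1) ∈ (RV K1).B (n + 1) := h0
    obtain ⟨w, hw⟩ := h1
    obtain ⟨w', hw0, hw1⟩ := moore_boundary (RV K1) _ hM w hw
    apply A700_s_ne n
    rcases A700_key w' hw1 with h2 | h2
    · rw [← hw0, h2, map_zero]
    · rw [← hw0, h2]; exact A700_s_face 0
  · intro y
    obtain ⟨⟨z, hz⟩, rfl⟩ := Submodule.Quotient.mk_surjective _ y
    obtain ⟨w, hw⟩ := exists_moore (RV K1) z hz
    have h1 := A700_key (z + (RV K1).d (n + 1) w) fun i => (moore_iff _).1 hw i.succ
    rcases h1 with h1 | h1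
    · left
      refine (Submodule.Quotient.mk_eq_zero _).2 ?_
      show z ∈ (RV K1).B (n + 1)
      refine ⟨w, ?_⟩
      have h2 : z = - (RV K1).d (n + 1) w := eq_neg_of_add_eq_zero_left h1
      rw [h2, neg_eq']
    · right
      refine (Submodule.Quotient.eq _).2 ?_
      show z - A700_s (n + 1) ∈ (RV K1).B (n + 1)
      refine ⟨w, ?_⟩
      rw [← h1, sub_eq', ← add_assoc, two_eq_zero', zero_add]

theorem RVK1_zero (y : (RV K1).H 0) : y = 0 := by
  obtain ⟨⟨z, hz⟩, rfl⟩ := Submodule.Quotient.mk_surjective _ y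
  obtain ⟨c, rfl⟩ := Submodule.Quotient.mk_surjective _ z
  refine (Submodule.Quotient.mk_eq_zero _).2 ?_
  show (Submodule.Quotient.mk c : (RV K1).V 0) ∈ (RV K1).B 0
  have h1 : (Submodule.Quotient.mk c : (RV K1).V 0) = 0 :=
    (A700_proj_zero_iff c).2 fun f hf => by
      exfalso
      apply hf
      apply Subtype.ext
      funext i
      have : i = 0 := Subsingleton.elim (α := Fin 1) _ _
      rw [this, A700_zero]
      rfl
  rw [h1]
  exact Submodule.zero_mem _

end MM
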