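import Pool.Agent.Lib_MP_33f7bb_d.A7Def

/-!
# A7-01: coproduct and Steenrod operations in the homology of `B(ZMod 2)`

`diag_eB`: pair with the classes `x^i`: let `x^n` be the functional given by the cocycle
`σ ↦ ∏_(i<n) (σ(i+1) - σ(i))` on `n`-simplices; `x^n` (e_n) = 1; Alexander-Whitney: `x^p ⊠ x^q` pulled back along the
diagonal is `x^(p+q)` (the value of `boxF` on the diagonal of a chain can be computed by the front
`p`-face / back `q`-face formula).
`sq_eB`: `Sq^0 x = x` (`id`), `Sq^1 x = cup x x` (`top`), `Sq^k x = 0`, `k > 1` (`unst`), Cartan formula, induction on `n`: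
`(x + x^2)^n`.
-/

open scoped TensorProduct

namespace MM

/-! ### monotone maps -/

private theorem A701_ext {m n : ℕ} {f g : Mo m n} (h : ∀ i, (f i : ℕ) = (g i : ℕ)) : f = g :=
  OrderHom.ext _ _ (funext fun i => Fin.ext (h i))

private theorem A701_dlt {n : ℕ} (i : Fin (n + 2)) (j : Fin (n + 1)) :
    ((dlt i : Mo n (n + 1)) j : ℕ) = if (j : ℕ) < (i : ℕ) then (j : ℕ) else (j : ℕ) + 1 := by
  show ((i.succAbove j : Fin (n + 2)) : ℕ) = _
  unfold Fin.succAbove
  by_cases h : (j : ℕ) < (i : ℕ)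
  · have h' : j.castSucc < i := Fin.lt_def.2 h
    rw [if_pos h', if_pos h]
    rfl
  · have h' : ¬ j.castSucc < i := fun h2 => h (Fin.lt_def.1 h2)
    rw [if_neg h', if_neg h]
    rfl

/-- `j ↦ c + j` -/
private def A701_sh (c q n : ℕ) (h : c + q ≤ n) : Mo q n :=
  ⟨fun i => ⟨c + i, by have := i.2; omega⟩, fun i j hij => by
    rw [Fin.le_def]
    exact Nat.add_le_add_left (Fin.le_def.1 hij) c⟩

private theorem A701_sh_val {c q n : ℕ} (h : c + q ≤ n) (i : Fin (q + 1)) :
    ((A701_sh c q n h i : Fin (n + 1)) : ℕ) = c + i := rfl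

private theorem A701_comp_val {l m n : ℕ} (f : Mo l m) (g : Mo m n) (i : Fin (l + 1)) :
    ((g.comp f) i : ℕ) = (g (f i) : ℕ) := rfl

/-! ### the Alexander-Whitney functional -/

private noncomputable def A701_G {P Q : SV} {p q : ℕ} (n : ℕ) (h : p + q = n)
    (φ : P.V p →ₗ[ZMod 2] ZMod 2) (ψ : Q.V q →ₗ[ZMod 2] ZMod 2) :
    (P.tens Q).V n →ₗ[ZMod 2] ZMod 2 :=
  (TensorProduct.lid (ZMod 2) (ZMod 2)).toLinearMap ∘ₗ
    TensorProduct.map (φ ∘ₗ P.act (A701_sh 0 p n (by omega)))
      (ψ ∘ₗ Q.act (A701_sh p q n (by omega)))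

private theorem A701_G_tmul {P Q : SV} {p q n : ℕ} (h : p + q = n)
    (φ : P.V p →ₗ[ZMod 2] ZMod 2) (ψ : Q.V q →ₗ[ZMod 2] ZMod 2) (x : P.V n) (y : Q.V n) :
    A701_G n h φ ψ (x ⊗ₜ[ZMod 2] y) =
      φ (P.act (A701_sh 0 p n (by omega)) x) * ψ (Q.act (A701_sh p q n (by omega)) y) := by
  show (TensorProduct.lid (ZMod 2) (ZMod 2)) (TensorProduct.map _ _ (x ⊗ₜ[ZMod 2] y)) = _
  rw [TensorProduct.map_tmul, TensorProduct.lid_tmul, smul_eq_mul]
  rfl

private theorem A701_G_act {P Q : SV} {p q n N : ℕ} (h : p + q = n)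
    (φ : P.V p →ₗ[ZMod 2] ZMod 2) (ψ : Q.V q →ₗ[ZMod 2] ZMod 2) {N' : ℕ} (a : Mo n N) (b : Mo n N')
    (x : P.V N) (y : Q.V N') :
    A701_G n h φ ψ (P.act a x ⊗ₜ[ZMod 2] Q.act b y) =
      φ (P.act (a.comp (A701_sh 0 p n (by omega))) x) *
        ψ (Q.act (b.comp (A701_sh p q n (by omega))) y) := by
  rw [A701_G_tmul, P.act_comp, Q.act_comp]

private theorem A701_zz (x : ZMod 2) : x + x = 0 := two_eq_zero' x

private theorem A701_eq_of_add {x y : ZMod 2} (h : x + y = 0) : x = y := by
  have := eq_neg_of_add_eq_zero_left h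
  rw [this]
  exact neg_eq' y

private theorem A701_G_d {P Q : SV} {p q n : ℕ} (h : p + q = n)
    (φ : P.V p →ₗ[ZMod 2] ZMod 2) (ψ : Q.V q →ₗ[ZMod 2] ZMod 2)
    (hφ : ∀ w : P.V (p + 1), φ (P.d p w) = 0) (hψ : ∀ w : Q.V (q + 1), ψ (Q.d q w) = 0)
    (u : (P.tens Q).V (n + 1)) : A701_G n h φ ψ ((P.tens Q).d n u) = 0 := by
  induction u using TensorProduct.induction_on with
  | zero => rw [map_zero, map_zero]
  | add a b ha hb => rw [map_add, map_add, ha, hb, add_zero]
  | tmul x y =>
    have e1 : (P.tens Q).d n (x ⊗ₜ[ZMod 2] y) =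
        ∑ i : Fin (n + 2), (P.act (dlt i) x ⊗ₜ[ZMod 2] Q.act (dlt i) y) := by
      show (∑ i : Fin (n + 2), (P.tens Q).act (dlt i)) (x ⊗ₜ[ZMod 2] y) = _
      rw [LinearMap.sum_apply]
      rfl
    rw [e1, map_sum]
    subst h
    have e2 : ∀ i : Fin (p + q + 2), A701_G (p + q) rfl φ ψ
        (P.act (dlt i) x ⊗ₜ[ZMod 2] Q.act (dlt i) y) =
        φ (P.act ((dlt i).comp (A701_sh 0 p (p + q) (by omega))) x) *
        ψ (Q.act ((dlt i).comp (A701_sh p q (p + q) (by omega))) y) := fun i =>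
      A701_G_act rfl φ ψ (dlt i) (dlt i) x y
    rw [Finset.sum_congr rfl fun i _ => e2 i]
    have e3 : (p + 1) + (q + 1) = p + q + 2 := by omega
    rw [← (finCongr e3).sum_comp, Fin.sum_univ_add]
    set X := P.act (A701_sh 0 (p + 1) (p + q + 1) (by omega)) x with hX
    set Y := Q.act (A701_sh p (q + 1) (p + q + 1) (by omega)) y with hY
    have f1 : ∀ i : Fin (p + 1),
        φ (P.act ((dlt (finCongr e3 (Fin.castAdd (q + 1) i))).comp
          (A701_sh 0 p (p + q) (by omega))) x) *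
        ψ (Q.act ((dlt (finCongr e3 (Fin.castAdd (q + 1) i))).comp
          (A701_sh p q (p + q) (by omega))) y) =
        φ (P.act (dlt i.castSucc) X) *
          ψ (Q.act (A701_sh (p + 1) q (p + q + 1) (by omega)) y) := by
      intro i
      have g1 : (dlt (finCongr e3 (Fin.castAdd (q + 1) i))).comp
          (A701_sh 0 p (p + q) (by omega)) =
          (A701_sh 0 (p + 1) (p + q + 1) (by omega)).comp (dlt i.castSucc) := by
        apply A701_ext
        intro j
        rw [A701_comp_val, A701_comp_val, A701_dlt, A701_sh_val, A701_sh_val, A701_dlt]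
        simp
      have g2 : (dlt (finCongr e3 (Fin.castAdd (q + 1) i))).comp
          (A701_sh p q (p + q) (by omega)) = A701_sh (p + 1) q (p + q + 1) (by omega) := by
        apply A701_ext
        intro j
        rw [A701_comp_val, A701_dlt, A701_sh_val, A701_sh_val]
        have hi := i.2
        have : ((finCongr e3 (Fin.castAdd (q + 1) i) : Fin (p + q + 2)) : ℕ) = (i : ℕ) := rfl
        rw [this, if_neg (by omega)]
        omega
      rw [g1, g2, hX, P.act_comp]
    have f2 : ∀ i : Fin (q + 1),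
        φ (P.act ((dlt (finCongr e3 (Fin.natAdd (p + 1) i))).comp
          (A701_sh 0 p (p + q) (by omega))) x) *
        ψ (Q.act ((dlt (finCongr e3 (Fin.natAdd (p + 1) i))).comp
          (A701_sh p q (p + q) (by omega))) y) =
        φ (P.act (A701_sh 0 p (p + q + 1) (by omega)) x) * ψ (Q.act (dlt i.succ) Y) := by
      intro i
      have hv : ((finCongr e3 (Fin.natAdd (p + 1) i) : Fin (p + q + 2)) : ℕ) = p + 1 + i := rfl
      have g1 : (dlt (finCongr e3 (Fin.natAdd (p + 1) i))).comp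
          (A701_sh 0 p (p + q) (by omega)) = A701_sh 0 p (p + q + 1) (by omega) := by
        apply A701_ext
        intro j
        have hj := j.2
        rw [A701_comp_val, A701_dlt, A701_sh_val, A701_sh_val, hv, if_pos (by omega)]
      have g2 : (dlt (finCongr e3 (Fin.natAdd (p + 1) i))).comp
          (A701_sh p q (p + q) (by omega)) =
          (A701_sh p (q + 1) (p + q + 1) (by omega)).comp (dlt i.succ) := by
        apply A701_ext
        intro j
        rw [A701_comp_val, A701_comp_val, A701_dlt, A701_sh_val, A701_sh_val, A701_dlt, hv]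
        have : ((i.succ : Fin (q + 2)) : ℕ) = i + 1 := rfl
        rw [this]
        by_cases hc : (j : ℕ) < i + 1
        · rw [if_pos hc, if_pos (by omega)]
        · rw [if_neg hc, if_neg (by omega)]
          omega
      rw [g1, g2, hY, Q.act_comp]
    rw [Finset.sum_congr rfl fun i _ => f1 i, Finset.sum_congr rfl fun i _ => f2 i,
      ← Finset.sum_mul, ← Finset.mul_sum]
    have k1 := hφ X
    have k2 := hψ Y
    rw [SV.d, LinearMap.sum_apply, map_sum, Fin.sum_univ_castSucc] at k1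
    rw [SV.d, LinearMap.sum_apply, map_sum, Fin.sum_univ_succ] at k2
    have l1 : P.act (dlt (Fin.last (p + 1))) X =
        P.act (A701_sh 0 p (p + q + 1) (by omega)) x := by
      rw [hX, P.act_comp]
      congr 2
      apply A701_ext
      intro j
      have hj := j.2
      rw [A701_comp_val, A701_sh_val, A701_sh_val, A701_dlt, Fin.val_last, if_pos (by omega)]
    have l2 : Q.act (dlt 0) Y = Q.act (A701_sh (p + 1) q (p + q + 1) (by omega)) y := by
      rw [hY, Q.act_comp]
      congr 2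
      apply A701_ext
      intro j
      rw [A701_comp_val, A701_sh_val, A701_sh_val, A701_dlt, if_neg (by simp)]
      omega
    rw [l1] at k1
    rw [l2] at k2
    rw [A701_eq_of_add k1, ← A701_eq_of_add k2]
    exact A701_zz _

private theorem A701_G_term {P Q : SV} {p q n p' q' : ℕ} (h : p + q = n)
    (φ : P.V p →ₗ[ZMod 2] ZMod 2) (ψ : Q.V q →ₗ[ZMod 2] ZMod 2) (x : P.V p') (y : Q.V q') :
    A701_G n h φ ψ (crs n x y) = ∑ a : Mo n p', ∑ b : Mo n q', open Classical in
      if (p' + q' = n ∧ ∀ i, ((a i : ℕ) + (b i : ℕ) = (i : ℕ))) then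
        φ (P.act (a.comp (A701_sh 0 p n (by omega))) x) *
        ψ (Q.act (b.comp (A701_sh p q n (by omega))) y) else 0 := by
  classical
  unfold crs
  rw [map_sum]
  refine Finset.sum_congr rfl fun a _ => ?_
  rw [map_sum]
  refine Finset.sum_congr rfl fun b _ => ?_
  by_cases hc : p' + q' = n ∧ ∀ i, ((a i : ℕ) + (b i : ℕ) = (i : ℕ))
  · rw [if_pos hc, if_pos hc, A701_G_act]
  · rw [if_neg hc, if_neg hc, map_zero]

private theorem A701_G_crs_ne {P Q : SV} {p q n p' q' : ℕ} (h : p + q = n)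
    (φ : P.V p →ₗ[ZMod 2] ZMod 2) (ψ : Q.V q →ₗ[ZMod 2] ZMod 2)
    (hφ : ∀ {k : ℕ} (g : Mo p k) (x : P.V k), ¬ Function.Injective g → φ (P.act g x) = 0)
    (hψ : ∀ {k : ℕ} (g : Mo q k) (x : Q.V k), ¬ Function.Injective g → ψ (Q.act g x) = 0)
    (hne : p' ≠ p) (x : P.V p') (y : Q.V q') : A701_G n h φ ψ (crs n x y) = 0 := by
  rw [A701_G_term]
  refine Finset.sum_eq_zero fun a _ => Finset.sum_eq_zero fun b _ => ?_
  split_ifs with hc
  · obtain ⟨h1, -⟩ := hc
    rcases Nat.lt_or_ge p' p with h2 | h2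
    · rw [hφ, zero_mul]
      intro hinj
      have := Fintype.card_le_of_injective _ hinj
      rw [Fintype.card_fin, Fintype.card_fin] at this
      omega
    · rw [hψ _ y, mul_zero]
      intro hinj
      have := Fintype.card_le_of_injective _ hinj
      rw [Fintype.card_fin, Fintype.card_fin] at this
      omega
  · rfl

private theorem A701_G_crs {P Q : SV} {p q n : ℕ} (h : p + q = n)
    (φ : P.V p →ₗ[ZMod 2] ZMod 2) (ψ : Q.V q →ₗ[ZMod 2] ZMod 2)
    (hφ : ∀ {k : ℕ} (g : Mo p k) (x : P.V k), ¬ Function.Injective g → φ (P.act g x) = 0)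
    (x : P.V p) (y : Q.V q) : A701_G n h φ ψ (crs n x y) = φ x * ψ y := by
  rw [A701_G_term]
  let a0 : Mo n p := ⟨fun i => ⟨min i p, by omega⟩, fun i j hij => by
    rw [Fin.le_def]
    exact min_le_min_right p (Fin.le_def.1 hij)⟩
  let b0 : Mo n q := ⟨fun i => ⟨i - p, by have := i.2; omega⟩, fun i j hij => by
    rw [Fin.le_def]
    exact Nat.sub_le_sub_right (Fin.le_def.1 hij) p⟩
  have ha0 : ∀ i, (a0 i : ℕ) = min (i : ℕ) p := fun i => rfl
  have hb0 : ∀ i, (b0 i : ℕ) = i - p := fun i => rfl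
  have key : ∀ (a : Mo n p) (b : Mo n q), (∀ i, ((a i : ℕ) + (b i : ℕ) = (i : ℕ))) →
      Function.Injective (a.comp (A701_sh 0 p n (by omega))) → a = a0 ∧ b = b0 := by
    intro a b hab hinj
    have hmono : StrictMono (a.comp (A701_sh 0 p n (by omega))) :=
      (OrderHom.monotone _).strictMono_of_injective hinj
    have h1 : ∀ i : Fin (p + 1), (i : ℕ) ≤ (a.comp (A701_sh 0 p n (by omega)) i : ℕ) := fun i =>
      Fin.le_def.1 (hmono.le_apply)
    have h2 : ∀ i : Fin (n + 1), (a i : ℕ) = min (i : ℕ) p := by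
      intro i
      have h3 := hab i
      have h4 : (a i : ℕ) ≤ p := Nat.lt_succ_iff.1 (a i).2
      by_cases hi : (i : ℕ) ≤ p
      · have h5 := h1 ⟨i, by omega⟩
        have h6 : (A701_sh 0 p n (by omega) ⟨i, by omega⟩ : Fin (n + 1)) = i :=
          Fin.ext (by rw [A701_sh_val]; simp)
        rw [A701_comp_val, h6] at h5
        simp only at h5
        omega
      · have h5 := h1 (Fin.last p)
        rw [A701_comp_val, Fin.val_last] at h5
        have h6 : (A701_sh 0 p n (by omega) (Fin.last p) : Fin (n + 1)) ≤ i := by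
          rw [Fin.le_def, A701_sh_val, Fin.val_last]
          omega
        have h7 := Fin.le_def.1 (a.monotone h6)
        omega
    constructor
    · exact A701_ext fun i => (h2 i).trans (ha0 i).symm
    · apply A701_ext
      intro i
      have h3 := hab i
      rw [hb0]
      have h4 := h2 i
      omega
  rw [Finset.sum_eq_single a0, Finset.sum_eq_single b0]
  · rw [if_pos]
    · have g1 : a0.comp (A701_sh 0 p n (by omega)) = OrderHom.id := by
        apply A701_ext
        intro i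
        have hi := i.2
        rw [A701_comp_val, ha0, A701_sh_val]
        show min (0 + (i : ℕ)) p = i
        omega
      have g2 : b0.comp (A701_sh p q n (by omega)) = OrderHom.id := by
        apply A701_ext
        intro i
        rw [A701_comp_val, hb0, A701_sh_val]
        show p + (i : ℕ) - p = i
        omega
      rw [g1, g2, P.act_id, Q.act_id]
    · refine ⟨h, fun i => ?_⟩
      rw [ha0, hb0]
      omega
  · intro b _ hb
    split_ifs with hc
    · rw [hφ, zero_mul]
      intro hinj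
      exact hb (key a0 b hc.2 hinj).2
    · rfl
  · intro hc
    exact absurd (Finset.mem_univ _) hc
  · intro a _ ha
    refine Finset.sum_eq_zero fun b _ => ?_
    split_ifs with hc
    · rw [hφ, zero_mul]
      intro hinj
      exact ha (key a b hc.2 hinj).1
    · rfl
  · intro hc
    exact absurd (Finset.mem_univ _) hc

/-- the functional on homology given by a cocycle -/
private noncomputable def A701_cl {P : SV} {p : ℕ} (φ : P.V p →ₗ[ZMod 2] ZMod 2)
    (hφ : ∀ w : P.V (p + 1), φ (P.d p w) = 0) : Module.Dual (ZMod 2) (P.H p) :=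
  Submodule.liftQ _ (φ ∘ₗ (P.Z p).subtype) (by
    rintro ⟨z, hz⟩ ⟨w, hw⟩
    rw [LinearMap.mem_ker]
    show φ z = 0
    have : z = P.d p w := hw.symm
    rw [this]
    exact hφ w)

private theorem A701_cl_cls {P : SV} {p : ℕ} (φ : P.V p →ₗ[ZMod 2] ZMod 2)
    (hφ : ∀ w : P.V (p + 1), φ (P.d p w) = 0) (z : P.V p) (hz : z ∈ P.Z p) :
    A701_cl φ hφ (P.cls z hz) = φ z := rfl

private theorem A701_box {P Q : SV} {p q n : ℕ} (h : p + q = n)
    (φ : P.V p →ₗ[ZMod 2] ZMod 2) (ψ : Q.V q →ₗ[ZMod 2] ZMod 2)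
    (hφd : ∀ w : P.V (p + 1), φ (P.d p w) = 0) (hψd : ∀ w : Q.V (q + 1), ψ (Q.d q w) = 0)
    (hφ : ∀ {k : ℕ} (g : Mo p k) (x : P.V k), ¬ Function.Injective g → φ (P.act g x) = 0)
    (hψ : ∀ {k : ℕ} (g : Mo q k) (x : Q.V k), ¬ Function.Injective g → ψ (Q.act g x) = 0)
    (z : (P.tens Q).V n) (hz : z ∈ (P.tens Q).Z n) :
    boxF n (A701_cl φ hφd) (A701_cl ψ hψd) ((P.tens Q).cls z hz) = A701_G n h φ ψ z := by
  have h1 : boxF n (A701_cl φ hφd) (A701_cl ψ hψd) =
      A701_cl (A701_G n h φ ψ) (A701_G_d h φ ψ hφd hψd) := by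
    apply boxF_ext
    intro p' q' h' x hx y hy
    rw [A701_cl_cls]
    by_cases hp : p' = p
    · subst hp
      obtain rfl : q = q' := by omega
      rw [boxF_crs h _ _ x hx y hy, A701_cl_cls, A701_cl_cls, A701_G_crs h φ ψ hφ]
    · rw [boxF_crs_ne _ _ hp x hx y hy, A701_G_crs_ne h φ ψ hφ hψ hp]
  rw [h1, A701_cl_cls]

/-! ### the cocycles on `B(ZMod 2)` -/

/-- product of the differences -/
private def A701_pr (m : ℕ) (f : Fin (m + 1) → ZMod 2) : ZMod 2 :=
  ∏ j : Fin m, (f j.succ - f j.castSucc)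

private theorem A701_pr_range {m : ℕ} (f : Fin (m + 1) → ZMod 2) (s : ℕ → ZMod 2)
    (h : ∀ i : Fin (m + 1), f i = s i) :
    A701_pr m f = ∏ j ∈ Finset.range m, (s (j + 1) - s j) := by
  rw [← Fin.prod_univ_eq_prod_range (fun j => s (j + 1) - s j)]
  refine Finset.prod_congr rfl fun j _ => ?_
  rw [h, h]
  rfl

private theorem A701_pr_sub {m : ℕ} (f : Fin (m + 1) → ZMod 2) (c : ZMod 2) :
    A701_pr m (fun i => f i - c) = A701_pr m f := by
  unfold A701_pr
  refine Finset.prod_congr rfl fun j _ => ?_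
  ring

private def A701_ph (p : ℕ) (σ : K1.V p) : ZMod 2 := A701_pr p σ.1

private theorem A701_ph_act {m k : ℕ} (g : Mo m k) (σ : K1.V k) :
    A701_ph m (K1.act g σ) = A701_pr m (fun i => σ.1 (g i)) :=
  A701_pr_sub (fun i => σ.1 (g i)) (σ.1 (g 0))

/-- extension to `ℕ` -/
private def A701_e {m : ℕ} (f : Fin (m + 1) → ZMod 2) (k : ℕ) : ZMod 2 :=
  if h : k < m + 1 then f ⟨k, h⟩ else 0

private theorem A701_e_val {m : ℕ} (f : Fin (m + 1) → ZMod 2) (i : Fin (m + 1)) :
    A701_e f i = f i := by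
  unfold A701_e
  rw [dif_pos i.2]

private def A701_dl (i k : ℕ) : ℕ := if k < i then k else k + 1

private theorem A701_F (s : ℕ → ZMod 2) (p : ℕ) :
    ∑ i ∈ Finset.range (p + 2), ∏ j ∈ Finset.range p,
      (s (A701_dl i (j + 1)) - s (A701_dl i j)) = 0 := by
  induction p with
  | zero =>
    rw [Finset.sum_range_succ, Finset.sum_range_succ, Finset.sum_range_zero]
    simp only [Finset.prod_range_zero, zero_add]
    exact A701_zz 1
  | succ p ih =>
    rw [Finset.sum_range_succ, Finset.sum_range_succ]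
    rw [Finset.sum_range_succ] at ih
    have h1 : ∀ i ∈ Finset.range (p + 1), ∏ j ∈ Finset.range (p + 1),
        (s (A701_dl i (j + 1)) - s (A701_dl i j)) =
        (∏ j ∈ Finset.range p, (s (A701_dl i (j + 1)) - s (A701_dl i j))) *
          (s (p + 2) - s (p + 1)) := by
      intro i hi
      have hi' := Finset.mem_range.1 hi
      rw [Finset.prod_range_succ]
      have e1 : A701_dl i (p + 1) = p + 2 := by
        unfold A701_dl
        rw [if_neg (by omega)]
      have e2 : A701_dl i p = p + 1 := by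
        unfold A701_dl
        rw [if_neg (by omega)]
      rw [e1, e2]
    have h2 : ∀ i, p < i → ∏ j ∈ Finset.range p, (s (A701_dl i (j + 1)) - s (A701_dl i j)) =
        ∏ j ∈ Finset.range p, (s (j + 1) - s j) := by
      intro i hi
      refine Finset.prod_congr rfl fun j hj => ?_
      have hj' := Finset.mem_range.1 hj
      unfold A701_dl
      rw [if_pos (by omega), if_pos (by omega)]
    rw [Finset.sum_congr rfl h1, ← Finset.sum_mul]
    rw [h2 (p + 1) (by omega)] at ih
    have ih' := A701_eq_of_add ih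
    rw [ih', Finset.prod_range_succ, Finset.prod_range_succ, h2 (p + 1) (by omega),
      h2 (p + 1 + 1) (by omega)]
    have e1 : A701_dl (p + 1) (p + 1) = p + 2 := by
      unfold A701_dl
      rw [if_neg (by omega)]
    have e2 : A701_dl (p + 1) p = p := by
      unfold A701_dl
      rw [if_pos (by omega)]
    have e3 : A701_dl (p + 1 + 1) (p + 1) = p + 1 := by
      unfold A701_dl
      rw [if_pos (by omega)]
    have e4 : A701_dl (p + 1 + 1) p = p := by
      unfold A701_dl
      rw [if_pos (by omega)]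
    rw [e1, e2, e3, e4]
    set T := ∏ j ∈ Finset.range p, (s (j + 1) - s j)
    have h3 := A701_zz (T * (s (p + 2) - s p))
    calc T * (s (p + 2) - s (p + 1)) + T * (s (p + 2) - s p) + T * (s (p + 1) - s p)
        = T * (s (p + 2) - s p) + T * (s (p + 2) - s p) := by ring
      _ = 0 := h3

private theorem A701_ph_zero {p : ℕ} (hp : 1 ≤ p) : A701_ph p 0 = 0 := by
  obtain ⟨m, rfl⟩ : ∃ m, p = m + 1 := ⟨p - 1, by omega⟩
  unfold A701_ph A701_pr
  refine Finset.prod_eq_zero (Finset.mem_univ 0) ?_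
  show (0 : ZMod 2) - 0 = 0
  rw [sub_zero]

private theorem A701_deg (n : ℕ) : K1.ss.deg K1.zv n = (0 : K1.V n) := map_zero (K1.act _)

private noncomputable def A701_x (p : ℕ) (hp : 1 ≤ p) : (RV K1).V p →ₗ[ZMod 2] ZMod 2 :=
  Submodule.liftQ _ (Finsupp.linearCombination (ZMod 2) (A701_ph p)) (by
    intro c hc
    rw [LinearMap.mem_ker, Finsupp.linearCombination_apply]
    refine Finset.sum_eq_zero fun x hx => ?_
    have hx' : x = K1.ss.deg K1.zv p := hc hx
    have h1 : A701_ph p x = 0 := by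
      rw [hx', A701_deg]
      exact A701_ph_zero hp
    show c x • A701_ph p x = 0
    rw [h1, smul_zero])

private theorem A701_x_of {p : ℕ} (hp : 1 ≤ p) (σ : K1.V p) :
    A701_x p hp ((R.of K1.zv).app p σ) = A701_ph p σ := by
  show Finsupp.linearCombination (ZMod 2) _ (Finsupp.single σ 1) = _
  rw [Finsupp.linearCombination_single, one_smul]

private theorem A701_act_of {m n : ℕ} (g : Mo m n) (σ : K1.V n) :
    (RV K1).act g ((R.of K1.zv).app n σ) = (R.of K1.zv).app m (K1.act g σ) :=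
  ((R.of K1.zv).nat g σ).symm

/-- linear maps out of the reduced chains agreeing on the simplices -/
private theorem A701_lext {n : ℕ} {M : Type} [AddCommGroup M] [Module (ZMod 2) M]
    {f g : (RV K1).V n →ₗ[ZMod 2] M}
    (h : ∀ σ : K1.V n, f ((R.of K1.zv).app n σ) = g ((R.of K1.zv).app n σ)) (w : (RV K1).V n) :
    f w = g w := by
  have hx : w ∈ Submodule.span (ZMod 2) (Set.range ((R.of K1.zv).app n)) := by
    rw [R.span]; trivial
  induction hx using Submodule.span_induction with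
  | mem x hx => obtain ⟨y, rfl⟩ := hx; exact h y
  | zero => simp
  | add a b _ _ ha hb => rw [map_add, map_add, ha, hb]
  | smul r a _ ha => rw [map_smul, map_smul, ha]

private theorem A701_x_d {p : ℕ} (hp : 1 ≤ p) (w : (RV K1).V (p + 1)) :
    A701_x p hp ((RV K1).d p w) = 0 := by
  refine A701_lext (f := A701_x p hp ∘ₗ (RV K1).d p) (g := 0) (fun σ => ?_) w
  show A701_x p hp ((RV K1).d p ((R.of K1.zv).app (p + 1) σ)) = 0
  have e1 : (RV K1).d p ((R.of K1.zv).app (p + 1) σ) =
      ∑ i : Fin (p + 2), (RV K1).act (dlt i) ((R.of K1.zv).app (p + 1) σ) := by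
    show (∑ i : Fin (p + 2), (RV K1).act (dlt i)) _ = _
    rw [LinearMap.sum_apply]
  rw [e1, map_sum]
  have e2 : ∀ i : Fin (p + 2), A701_x p hp ((RV K1).act (dlt i) ((R.of K1.zv).app (p + 1) σ)) =
      (fun i : ℕ => ∏ j ∈ Finset.range p,
        (A701_e σ.1 (A701_dl i (j + 1)) - A701_e σ.1 (A701_dl i j))) i := by
    intro i
    rw [A701_act_of, A701_x_of, A701_ph_act]
    refine A701_pr_range _ (fun j => A701_e σ.1 (A701_dl i j)) fun j => ?_
    have h1 : A701_dl i j = ((dlt i : Mo p (p + 1)) j : ℕ) := by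
      rw [A701_dlt]
      rfl
    rw [h1, A701_e_val]
  rw [Finset.sum_congr rfl fun i _ => e2 i]
  exact (Fin.sum_univ_eq_sum_range (fun i : ℕ => ∏ j ∈ Finset.range p,
    (A701_e σ.1 (A701_dl i (j + 1)) - A701_e σ.1 (A701_dl i j))) (p + 2)).trans (A701_F _ p)

private theorem A701_x_g {p : ℕ} (hp : 1 ≤ p) {k : ℕ} (g : Mo p k) (w : (RV K1).V k)
    (hg : ¬ Function.Injective g) : A701_x p hp ((RV K1).act g w) = 0 := by
  refine A701_lext (f := A701_x p hp ∘ₗ (RV K1).act g) (g := 0) (fun σ => ?_) w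
  show A701_x p hp ((RV K1).act g ((R.of K1.zv).app k σ)) = 0
  rw [A701_act_of, A701_x_of, A701_ph_act]
  have h1 : ∃ j : Fin p, g j.succ = g j.castSucc := by
    by_contra hcon
    push Not at hcon
    apply hg
    have hs : StrictMono g := Fin.strictMono_iff_lt_succ.2 fun j =>
      lt_of_le_of_ne (g.monotone (Fin.castSucc_lt_succ).le) (hcon j).symm
    exact hs.injective
  obtain ⟨j, hj⟩ := h1
  refine Finset.prod_eq_zero (Finset.mem_univ j) ?_
  show σ.1 (g j.succ) - σ.1 (g j.castSucc) = 0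
  rw [hj, sub_self]

private theorem A701_pr_sh {c q n : ℕ} (h : c + q ≤ n) (f : Fin (n + 1) → ZMod 2) :
    A701_pr q (fun i => f (A701_sh c q n h i)) =
      ∏ j ∈ Finset.range q, (A701_e f (c + j + 1) - A701_e f (c + j)) := by
  have h1 := A701_pr_range (fun i => f (A701_sh c q n h i)) (fun j => A701_e f (c + j)) (fun i => by
    have := A701_e_val f (A701_sh c q n h i)
    rw [A701_sh_val] at this
    exact this.symm)
  exact h1

private theorem A701_pr_e {n : ℕ} (f : Fin (n + 1) → ZMod 2) :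
    A701_pr n f = ∏ j ∈ Finset.range n, (A701_e f (j + 1) - A701_e f j) :=
  A701_pr_range f (A701_e f) fun i => (A701_e_val f i).symm

private theorem A701_split {p q n : ℕ} (h : p + q = n) (f : Fin (n + 1) → ZMod 2) :
    A701_pr p (fun i => f (A701_sh 0 p n (by omega) i)) *
      A701_pr q (fun i => f (A701_sh p q n (by omega) i)) = A701_pr n f := by
  rw [A701_pr_sh, A701_pr_sh, A701_pr_e]
  subst h
  rw [Finset.prod_range_add]
  congr 1
  refine Finset.prod_congr rfl fun j _ => ?_
  rw [zero_add]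

private theorem A701_diag_gen {Z : SS} (z₀ : Z.S 0) {n : ℕ} (x : Z.S n) :
    (R.diag z₀).app n ((R.of z₀).app n x) =
      ((R.of z₀).app n x : (R Z z₀).V n) ⊗ₜ[ZMod 2] ((R.of z₀).app n x : (R Z z₀).V n) := by
  have h : (R.diag z₀).app n ((R.of z₀).app n x) =
      ((R.of z₀).app n x : (R Z z₀).V n) ⊗ₜ[ZMod 2] ((R.of z₀).app n x : (R Z z₀).V n) :=
    R.lift_of _ _ _ _ _
  exact h

private theorem A701_diag_of {V : SV} {n : ℕ} (x : V.V n) :
    (R.diag V.zv).app n ((R.of V.zv).app n x) =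
      ((R.of V.zv).app n x : (RV V).V n) ⊗ₜ[ZMod 2] ((R.of V.zv).app n x : (RV V).V n) :=
  A701_diag_gen (Z := V.ss) V.zv x

private theorem A701_G_diag {p q n : ℕ} (h : p + q = n) (hp : 1 ≤ p) (hq : 1 ≤ q) (hn : 1 ≤ n)
    (w : (RV K1).V n) :
    A701_G n h (A701_x p hp) (A701_x q hq) ((R.diag K1.zv).app n w) = A701_x n hn w := by
  have key : ∀ σ : K1.V n,
      A701_G n h (A701_x p hp) (A701_x q hq) ((R.diag K1.zv).app n ((R.of K1.zv).app n σ)) =
        A701_x n hn ((R.of K1.zv).app n σ) := by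
    intro σ
    rw [A701_diag_of, A701_G_tmul, A701_act_of, A701_act_of, A701_x_of, A701_x_of, A701_x_of,
      A701_ph_act, A701_ph_act]
    exact A701_split h σ.1
  exact A701_lext (f := A701_G n h (A701_x p hp) (A701_x q hq) ∘ₗ (R.diag K1.zv).app n)
    (g := A701_x n hn) key w

/-! ### the fundamental cycles -/

private noncomputable abbrev A701_ft (n : ℕ) : Fintype (K1.V n) :=
  @Fintype.ofFinite _ (inferInstanceAs (Finite {f : Fin (n + 1) → ZMod 2 // f ∈ LinearMap.ker
    (LinearMap.proj (R := ZMod 2) (φ := fun _ : Fin (n + 1) => ZMod 2) 0)}))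

attribute [local instance] A701_ft

private noncomputable def A701_s (n : ℕ) : (RV K1).V n :=
  ∑ f : K1.V n, ((R.of K1.zv).app n f : (RV K1).V n)

private theorem A701_zero {n : ℕ} (f : K1.V n) : f.1 0 = 0 := by
  have := f.2
  simpa only [LinearMap.mem_ker, LinearMap.proj_apply] using this

private def A701_u {n : ℕ} (i : Fin n) : K1.V n :=
  ⟨Pi.single i.succ 1, by simp [LinearMap.mem_ker]⟩

private def A701_one (n : ℕ) : K1.V n :=
  ⟨fun i => if i = 0 then 0 else 1, by simp [LinearMap.mem_ker]⟩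

private theorem A701_u_ne {n : ℕ} (i : Fin (n + 1)) : A701_u i ≠ 0 := by
  intro h
  have := congrFun (congrArg Subtype.val h) i.succ
  simp [A701_u] at this

private theorem A701_s_face {n : ℕ} (i : Fin (n + 2)) :
    (RV K1).act (dlt i) (A701_s (n + 1)) = 0 := by
  classical
  have hu : ∃ u : K1.V (n + 1), u ≠ 0 ∧ K1.act (dlt i) u = 0 := by
    by_cases hi : i = 0
    · subst hi
      refine ⟨A701_one (n + 1), ?_, ?_⟩
      · intro h
        have := congrFun (congrArg Subtype.val h) 1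
        simp [A701_one] at this
      · apply Subtype.ext
        funext j
        show (if (dlt (0 : Fin (n + 2)) : Mo n (n + 1)) j = 0 then (0 : ZMod 2) else 1) -
          (if (dlt (0 : Fin (n + 2)) : Mo n (n + 1)) 0 = 0 then (0 : ZMod 2) else 1) = 0
        have h1 : ∀ j, (dlt (0 : Fin (n + 2)) : Mo n (n + 1)) j ≠ 0 := fun j => by
          show (0 : Fin (n + 2)).succAbove j ≠ 0
          exact Fin.succAbove_ne _ _
        rw [if_neg (h1 j), if_neg (h1 0), sub_self]
    · obtain ⟨k, rfl⟩ := Fin.exists_succ_eq.2 hi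
      refine ⟨A701_u k, A701_u_ne k, ?_⟩
      apply Subtype.ext
      funext j
      show (Pi.single k.succ 1 : Fin (n + 2) → ZMod 2) ((dlt k.succ : Mo n (n + 1)) j) -
        (Pi.single k.succ 1 : Fin (n + 2) → ZMod 2) ((dlt k.succ : Mo n (n + 1)) 0) = 0
      have h1 : ∀ j, (dlt k.succ : Mo n (n + 1)) j ≠ k.succ := fun j => by
        show k.succ.succAbove j ≠ k.succ
        exact Fin.succAbove_ne _ _
      rw [Pi.single_eq_of_ne (h1 j), Pi.single_eq_of_ne (h1 0), sub_self]
  obtain ⟨u, hu, hu'⟩ := hu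
  unfold A701_s
  rw [map_sum]
  refine Finset.sum_involution (fun f _ => f + u) ?_ ?_ (fun _ _ => Finset.mem_univ _) ?_
  · intro f _
    have h3 : K1.act (dlt i) (f + u) = K1.act (dlt i) f := by
      rw [map_add, hu', add_zero]
    rw [A701_act_of, A701_act_of, h3]
    exact two_eq_zero' _
  · intro f _ _ h3
    apply hu
    have h5 : f + u = f + 0 := by rw [add_zero]; exact h3
    exact add_left_cancel h5
  · intro f _
    exact (add_assoc _ _ _).trans ((congrArg (f + ·) (two_eq_zero' u)).trans (add_zero f))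

private theorem A701_zmod (x : ZMod 2) : x = 0 ∨ x = 1 := by
  fin_cases x
  · exact Or.inl rfl
  · exact Or.inr rfl

private theorem A701_x_s {n : ℕ} (hn : 1 ≤ n) : A701_x n hn (A701_s n) = 1 := by
  classical
  unfold A701_s
  rw [map_sum]
  have e1 : ∀ f : K1.V n, A701_x n hn ((R.of K1.zv).app n f) = A701_ph n f := fun f =>
    A701_x_of hn f
  rw [Finset.sum_congr rfl fun f _ => e1 f]
  let τ : K1.V n := ⟨fun i => ((i : ℕ) : ZMod 2), by
    rw [LinearMap.mem_ker, LinearMap.proj_apply]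
    show ((((0 : Fin (n + 1)) : ℕ)) : ZMod 2) = 0
    simp⟩
  rw [Finset.sum_eq_single τ]
  · unfold A701_ph A701_pr
    refine Finset.prod_eq_one fun j _ => ?_
    show (((j.succ : Fin (n + 1)) : ℕ) : ZMod 2) - (((j.castSucc : Fin (n + 1)) : ℕ) : ZMod 2) = 1
    rw [Fin.val_succ, Fin.val_castSucc]
    push_cast
    ring
  · intro f _ hf
    by_contra hne
    apply hf
    have h1 : ∀ j : Fin n, f.1 j.succ - f.1 j.castSucc = 1 := by
      intro j
      rcases A701_zmod (f.1 j.succ - f.1 j.castSucc) with h2 | h2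
      · exact absurd (Finset.prod_eq_zero (Finset.mem_univ j) h2) hne
      · exact h2
    have h2 : ∀ i : Fin (n + 1), f.1 i = ((i : ℕ) : ZMod 2) := by
      intro i
      induction i using Fin.induction with
      | zero => rw [A701_zero]; simp
      | succ j ih =>
        have h3 := h1 j
        rw [ih, sub_eq_iff_eq_add] at h3
        rw [h3, Fin.val_succ, Fin.val_castSucc]
        push_cast
        ring
    exact Subtype.ext (funext h2)
  · intro hc
    exact absurd (Finset.mem_univ _) hc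

private theorem A701_s_Z {n : ℕ} (hn : 1 ≤ n) : A701_s n ∈ (RV K1).Z n := by
  obtain ⟨m, rfl⟩ : ∃ m, n = m + 1 := ⟨n - 1, by omega⟩
  show (RV K1).d m (A701_s (m + 1)) = 0
  show (∑ i : Fin (m + 2), (RV K1).act (dlt i)) (A701_s (m + 1)) = 0
  rw [LinearMap.sum_apply]
  exact Finset.sum_eq_zero fun i _ => A701_s_face i

/-- the class `x^n` -/
private noncomputable def A701_X (n : ℕ) (hn : 1 ≤ n) : RHc K1 n :=
  A701_cl (A701_x n hn) (A701_x_d hn)

/-! ### the statements -/

theorem eB_ne_zero (j : ℕ) (hj : 1 ≤ j) : eB j ≠ 0 := by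
  unfold eB
  rw [dif_pos hj]
  exact (Classical.choose_spec (exists_eB j hj)).1

theorem eq_zero_or_eB (j : ℕ) (y : (RV K1).H j) : y = 0 ∨ y = eB j := by
  rcases Nat.eq_zero_or_pos j with h | h
  · subst h
    exact Or.inl (RVK1_zero y)
  · unfold eB
    rw [dif_pos (show 1 ≤ j from h)]
    exact (Classical.choose_spec (exists_eB j h)).2 y

private theorem A701_eB {n : ℕ} (hn : 1 ≤ n) : (RV K1).cls (A701_s n) (A701_s_Z hn) = eB n := by
  rcases eq_zero_or_eB n ((RV K1).cls (A701_s n) (A701_s_Z hn)) with h | h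
  · exfalso
    have h1 : A701_X n hn ((RV K1).cls (A701_s n) (A701_s_Z hn)) = 1 := by
      unfold A701_X
      rw [A701_cl_cls, A701_x_s]
    rw [h, map_zero] at h1
    exact zero_ne_one h1
  · exact h

private theorem A701_X_eB {n : ℕ} (hn : 1 ≤ n) : A701_X n hn (eB n) = 1 := by
  rw [← A701_eB hn]
  unfold A701_X
  rw [A701_cl_cls, A701_x_s]

private theorem A701_dual {n : ℕ} (hn : 1 ≤ n) (a : RHc K1 n) : a = 0 ∨ a = A701_X n hn := by
  rcases A701_zmod (a (eB n)) with h | h
  · left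
    apply LinearMap.ext
    intro y
    rcases eq_zero_or_eB n y with h1 | h1
    · rw [h1, map_zero, map_zero]
    · rw [h1, h]; rfl
  · right
    apply LinearMap.ext
    intro y
    rcases eq_zero_or_eB n y with h1 | h1
    · rw [h1, map_zero, map_zero]
    · rw [h1, h, A701_X_eB hn]

private theorem A701_box_zero_left {P Q : SV} {p q n : ℕ} (b : Module.Dual (ZMod 2) (Q.H q)) :
    boxF n (0 : Module.Dual (ZMod 2) (P.H p)) b = 0 := by
  have h := boxF_add_left (P := P) (n := n) (0 : Module.Dual (ZMod 2) (P.H p)) 0 b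
  rw [add_zero] at h
  exact (left_eq_add.1 h)

private theorem A701_box_zero_right {P Q : SV} {p q n : ℕ} (a : Module.Dual (ZMod 2) (P.H p)) :
    boxF n a (0 : Module.Dual (ZMod 2) (Q.H q)) = 0 := by
  have h := boxF_add_right (Q := Q) (n := n) a (0 : Module.Dual (ZMod 2) (Q.H q)) 0
  rw [add_zero] at h
  exact (left_eq_add.1 h)

private theorem A701_box_crsH {P Q : SV} {p q n : ℕ} (h : p + q = n)
    (a : Module.Dual (ZMod 2) (P.H p)) (b : Module.Dual (ZMod 2) (Q.H q)) (x : P.H p)
    (y : Q.H q) : boxF n a b (crsH n x y) = a x * b y := by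
  obtain ⟨x, hx, rfl⟩ := A3Box_exists_cls x
  obtain ⟨y, hy, rfl⟩ := A3Box_exists_cls y
  rw [crsH_cls, boxF_crs h]

private theorem A701_box_crsH_ne {P Q : SV} {p q n p' q' : ℕ}
    (a : Module.Dual (ZMod 2) (P.H p)) (b : Module.Dual (ZMod 2) (Q.H q)) (hp : p' ≠ p)
    (x : P.H p') (y : Q.H q') : boxF n a b (crsH n x y) = 0 := by
  obtain ⟨x, hx, rfl⟩ := A3Box_exists_cls x
  obtain ⟨y, hy, rfl⟩ := A3Box_exists_cls y
  rw [crsH_cls]
  exact boxF_crs_ne _ _ hp x hx y hy

private theorem A701_box_sum {p q : ℕ} (hp : 1 ≤ p) (hq : 1 ≤ q) (a : RHc K1 p) (b : RHc K1 q) :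
    boxF (p + q) a b (∑ i ∈ Finset.Ico 1 (p + q), crsH (p + q) (eB i) (eB (p + q - i))) =
      a (eB p) * b (eB q) := by
  rw [map_sum, Finset.sum_eq_single p]
  · have key : ∀ q', q' = q → boxF (p + q) a b (crsH (p + q) (eB p) (eB q')) =
        a (eB p) * b (eB q) := by
      rintro _ rfl
      exact A701_box_crsH rfl a b (eB p) (eB _)
    exact key _ (by omega)
  · intro i _ hi
    exact A701_box_crsH_ne a b hi _ _
  · intro hc
    exact absurd (Finset.mem_Ico.2 ⟨hp, by omega⟩) hc

theorem diag_eB (n : ℕ) :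
    SV.Hmap (R.diag K1.zv) n (eB n) =
      ∑ i ∈ Finset.Ico 1 n, crsH n (eB i) (eB (n - i)) := by
  have hfin : ∀ p, Module.Finite (ZMod 2) ((RV K1).H p) := by
    intro p
    refine ⟨⟨{eB p}, ?_⟩⟩
    rw [eq_top_iff]
    rintro y -
    rcases eq_zero_or_eB p y with h | h
    · rw [h]; exact Submodule.zero_mem _
    · rw [h]; exact Submodule.subset_span (by simp)
  rw [← sub_eq_zero]
  refine (Module.forall_dual_apply_eq_zero_iff (ZMod 2) _).1 fun F => ?_
  rw [map_sub, sub_eq_zero]
  have hF := boxF_span hfin hfin n F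
  induction hF using Submodule.span_induction with
  | zero => rfl
  | add f g _ _ hf hg => rw [LinearMap.add_apply, LinearMap.add_apply, hf, hg]
  | smul c f _ hf => rw [LinearMap.smul_apply, LinearMap.smul_apply, hf]
  | mem f hf =>
    obtain ⟨p, q, hpq, a, b, rfl⟩ := hf
    rcases Nat.eq_zero_or_pos p with h | hp
    · subst h
      have : a = 0 := by
        apply LinearMap.ext
        intro y
        rw [RVK1_zero y, map_zero, map_zero]
      rw [this, A701_box_zero_left]
      rfl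
    rcases Nat.eq_zero_or_pos q with h | hq
    · subst h
      have : b = 0 := by
        apply LinearMap.ext
        intro y
        rw [RVK1_zero y, map_zero, map_zero]
      rw [this, A701_box_zero_right]
      rfl
    subst hpq
    rcases A701_dual hp a with h | h
    · rw [h, A701_box_zero_left]
      rfl
    rcases A701_dual hq b with h' | h'
    · rw [h', A701_box_zero_right]
      rfl
    have hn : 1 ≤ p + q := by omega
    rw [A701_box_sum hp hq, h, h', A701_X_eB, A701_X_eB, ← A701_eB hn, SV.Hmap_cls]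
    have h2 := A701_box (rfl : p + q = p + q) (A701_x p hp) (A701_x q hq) (A701_x_d hp)
      (A701_x_d hq) (fun g w hg => A701_x_g hp g w hg) (fun g w hg => A701_x_g hq g w hg)
      ((R.diag K1.zv).app (p + q) (A701_s (p + q)))
      ((R.diag K1.zv).map_Z (A701_s_Z hn))
    unfold A701_X
    rw [h2, A701_G_diag rfl hp hq hn, A701_x_s, one_mul]

/-- the dual classes and their products -/
theorem cupR_eB {p q : ℕ} (hp : 1 ≤ p) (hq : 1 ≤ q) (a : RHc K1 p) (b : RHc K1 q) :
    cupR (z₀ := K1.zv) (p + q) a b (eB (p + q)) = a (eB p) * b (eB q) := by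
  show boxF (p + q) a b (SV.Hmap (R.diag K1.zv) (p + q) (eB (p + q))) = _
  rw [diag_eB, A701_box_sum hp hq]

private theorem A701_cup {p q N : ℕ} (h : p + q = N) (a : RHc K1 p) (b : RHc K1 q) :
    cupR (z₀ := K1.zv) N a b (eB N) = a (eB p) * b (eB q) := by
  subst h
  rcases Nat.eq_zero_or_pos p with h | hp
  · subst h
    have : a = 0 := by
      apply LinearMap.ext
      intro y
      rw [RVK1_zero y, map_zero, map_zero]
    rw [this, LinearMap.zero_apply, zero_mul]
    show boxF (0 + q) (0 : RHc K1 0) b _ = 0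
    rw [A701_box_zero_left]
    rfl
  rcases Nat.eq_zero_or_pos q with h | hq
  · subst h
    have : b = 0 := by
      apply LinearMap.ext
      intro y
      rw [RVK1_zero y, map_zero, map_zero]
    rw [this, LinearMap.zero_apply, mul_zero]
    show boxF (p + 0) a (0 : RHc K1 0) _ = 0
    rw [A701_box_zero_right]
    rfl
  exact cupR_eB hp hq a b

private theorem A701_sq1 (S : SqFam) (l : ℕ) :
    S.on K1 1 l (A701_X 1 le_rfl) (eB l) = if l = 1 ∨ l = 2 then 1 else 0 := by
  rcases Nat.lt_or_ge l 1 with h | h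
  · have h1 := S.lt K1.ss K1.zv 1 l h
    show S.op K1.ss K1.zv 1 l (A701_X 1 le_rfl) (eB l) = _
    rw [h1, if_neg (by omega)]
    rfl
  rcases Nat.lt_or_ge 2 l with h2 | h2
  · have h1 := S.unst K1.ss K1.zv 1 l (by omega)
    show S.op K1.ss K1.zv 1 l (A701_X 1 le_rfl) (eB l) = _
    rw [h1, if_neg (by omega)]
    rfl
  rcases (by omega : l = 1 ∨ l = 2) with h3 | h3
  · subst h3
    have h1 := S.id K1.ss K1.zv 1
    show S.op K1.ss K1.zv 1 1 (A701_X 1 le_rfl) (eB 1) = _
    rw [h1, if_pos (Or.inl rfl), LinearMap.id_apply, A701_X_eB]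
  · subst h3
    have h1 := S.top K1.ss K1.zv 1 (A701_X 1 le_rfl)
    have h4 := A701_cup (show 1 + 1 = 2 from rfl) (A701_X 1 le_rfl) (A701_X 1 le_rfl)
    show S.op K1.ss K1.zv 1 2 (A701_X 1 le_rfl) (eB 2) = _
    have h5 : S.op K1.ss K1.zv 1 2 (A701_X 1 le_rfl) = cupR 2 (A701_X 1 le_rfl) (A701_X 1 le_rfl) :=
      h1
    rw [h5, h4, if_pos (Or.inr rfl), A701_X_eB, one_mul]

private theorem A701_sqX (S : SqFam) (n : ℕ) (hn : 1 ≤ n) (r : ℕ) :
    S.on K1 n (n + r) (A701_X n hn) (eB (n + r)) = ((Nat.choose n r : ℕ) : ZMod 2) := by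
  induction n, hn using Nat.le_induction generalizing r with
  | base =>
    rw [A701_sq1]
    rcases (by omega : r = 0 ∨ r = 1 ∨ 2 ≤ r) with h | h | h
    · subst h; simp
    · subst h; simp
    · rw [if_neg (by omega), Nat.choose_eq_zero_of_lt (by omega)]
      simp
  | succ n hn ih =>
    obtain ⟨n', rfl⟩ : ∃ n', n = n' + 1 := ⟨n - 1, by omega⟩
    have hX : A701_X (n' + 1 + 1) (by omega) = cupR (z₀ := K1.zv) (n' + 1 + 1)
        (A701_X (n' + 1) hn) (A701_X 1 le_rfl) := by
      have h1 := A701_cup (show (n' + 1) + 1 = n' + 1 + 1 from rfl) (A701_X (n' + 1) hn)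
        (A701_X 1 le_rfl)
      rw [A701_X_eB, A701_X_eB, one_mul] at h1
      rcases A701_dual (by omega : 1 ≤ n' + 1 + 1)
        (cupR (z₀ := K1.zv) (n' + 1 + 1) (A701_X (n' + 1) hn) (A701_X 1 le_rfl)) with h2 | h2
      · rw [h2] at h1
        exact absurd h1 zero_ne_one
      · exact h2.symm
    have hc := S.cartan K1.ss K1.zv (n' + 1) 1 (n' + 1 + 1) (n' + 1 + 1 + r) rfl
      (A701_X (n' + 1) hn) (A701_X 1 le_rfl)
    show S.op K1.ss K1.zv (n' + 1 + 1) (n' + 1 + 1 + r) (A701_X (n' + 1 + 1) _)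
      (eB (n' + 1 + 1 + r)) = _
    rw [hX, hc, LinearMap.sum_apply]
    have e1 : ∀ k ∈ Finset.range (n' + 1 + 1 + r + 1),
        (cupR (z₀ := K1.zv) (n' + 1 + 1 + r)
          (S.op K1.ss K1.zv (n' + 1) k (A701_X (n' + 1) hn))
          (S.op K1.ss K1.zv 1 (n' + 1 + 1 + r - k) (A701_X 1 le_rfl)) :
            RHc K1 (n' + 1 + 1 + r)) (eB (n' + 1 + 1 + r)) =
        S.on K1 (n' + 1) k (A701_X (n' + 1) hn) (eB k) *
          (if n' + 1 + 1 + r - k = 1 ∨ n' + 1 + 1 + r - k = 2 then 1 else 0) := by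
      intro k hk
      have hk' := Finset.mem_range.1 hk
      rw [← A701_sq1 S]
      exact A701_cup (by omega) _ _
    have e0 : n' + 1 + 1 + r + 1 = (n' + r) + 1 + 1 + 1 := by omega
    rw [Finset.sum_congr rfl e1, e0, Finset.sum_range_succ, Finset.sum_range_succ,
      Finset.sum_range_succ, Finset.sum_eq_zero, if_pos (by omega), if_pos (by omega),
      if_neg (by omega), mul_one, mul_one, mul_zero, add_zero, zero_add]
    · have h1 : n' + r + 1 = n' + 1 + r := by omega
      rw [h1, ih r]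
      rcases Nat.eq_zero_or_pos r with h2 | h2
      · subst h2
        have h3 := S.lt K1.ss K1.zv (n' + 1) (n' + 0) (by omega)
        have h4 : S.on K1 (n' + 1) (n' + 0) (A701_X (n' + 1) hn) (eB (n' + 0)) = 0 := by
          show S.op K1.ss K1.zv (n' + 1) (n' + 0) _ _ = 0
          rw [h3]
          rfl
        rw [h4]
        simp
      · obtain ⟨r', rfl⟩ : ∃ r', r = r' + 1 := ⟨r - 1, by omega⟩
        have h3 : n' + (r' + 1) = n' + 1 + r' := by omega
        rw [h3, ih r', Nat.choose_succ_succ (n' + 1) r']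
        push_cast
        ring
    · intro k hk
      have hk' := Finset.mem_range.1 hk
      rw [if_neg (by omega), mul_zero]

theorem sq_eB (S : SqFam) (n m : ℕ) (hn : 1 ≤ n) (hm : n ≤ m) (y : RHc K1 n) :
    S.on K1 n m y (eB m) = ((Nat.choose n (m - n) : ℕ) : ZMod 2) * y (eB n) := by
  obtain ⟨r, rfl⟩ : ∃ r, m = n + r := ⟨m - n, by omega⟩
  have h0 : n + r - n = r := by omega
  rw [h0]
  rcases A701_dual hn y with h | h
  · rw [h, map_zero]
    simp
  · rw [h, A701_sqX, A701_X_eB, mul_one]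

end MM
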