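import Pool.Agent.Lib_MP_33f7bb_d.A7Def
import Pool.Agent.Lib_MP_33f7bb_d.A018

/-!
# A7-02: homotopy classes of Moore elements of `Map_*(Z, V)` are determined by linear homology

`psi_null`: `f ∈ Map_*(Z,V)_t` Moore.  The linear simplicial map `Φ = mu ∘ psiHom f : K'(t) ⊗ R Z → V`,
`[θ] ⊗ [x] ↦ f (θ, x)`, is zero in homology, so (`lhtp_iff`) linearly homotopic to zero by `H`.  Then
`H' a u = ((θ, x) ↦ H (a ∘ θ) (θ^* u ⊗ [x]))` is a linear homotopy `K'(t) → Map_*(Z, V)` with
`H' 0 iota = f` and `H' 1 iota = 0`; by the prism operator (`lprism`) `d (T iota) = f + T (d iota) = f`, because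
`K'(t)` is zero below dimension `t`.
`psi_exists`: choose by `exists_hom` a linear simplicial map `F : K'(t) ⊗ R Z → V` inducing `φ`; put
`f (θ, x) = F ([θ] ⊗ [x])`.
`moore_mapSV`: description of Moore elements.
-/

open scoped TensorProduct

namespace MM

theorem moore_mapSV {Z : SS} {z₀ : Z.S 0} {V : SV} {t : ℕ} (f : (MapSV Z z₀ V).V t) :
    (MapSV Z z₀ V).Moore f ↔ ∀ (n : ℕ) (θ : Mo n t), ¬ Function.Surjective θ → ∀ x : Z.S n,
      MapSV.val f n (θ, x) = 0 := by
  constructor
  · intro h n θ hθ x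
    exact MapSV.val_moore h n θ hθ x
  · intro h m g hg
    apply Subtype.ext
    funext n x
    show MapSV.val f n (g.comp x.1, x.2) = 0
    refine h n _ (fun hs => hg fun y => ?_) _
    obtain ⟨z, hz⟩ := hs y
    exact ⟨x.1 z, hz⟩

/-- the class of `θ` in `K'(t)` is `θ^* iota` -/
private theorem A702_iota {t n : ℕ} (θ : Mo n t) :
    (KK t).act θ (KK.iota t) = (linSub (bd t)).proj.app n (Finsupp.single θ 1) := by
  unfold KK.iota
  rw [← (linSub (bd t)).proj.nat]
  congr 1
  exact Finsupp.mapDomain_single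

/-- auxiliary: values of the homotopy into the mapping space -/
private noncomputable def A702_val {Z : SS} {z₀ : Z.S 0} {V : SV} {t : ℕ}
    (H : LHpy ((KK t).tens (R Z z₀)) V) (n : ℕ) (a : Mo n 1) (u : (KK t).V n) :
    (MapSV Z z₀ V).V n :=
  ⟨fun m x => H.app m (a.comp x.1) (((KK t).act x.1 u) ⊗ₜ[ZMod 2] ((R.of z₀).app m x.2 : (R Z z₀).V m)),
    by
      intro k m g θ x
      have h1 := H.nat g (a.comp θ) (((KK t).act θ u) ⊗ₜ[ZMod 2] ((R.of z₀).app m x : (R Z z₀).V m))
      have h2 : ((KK t).tens (R Z z₀)).act g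
          (((KK t).act θ u) ⊗ₜ[ZMod 2] ((R.of z₀).app m x : (R Z z₀).V m)) =
          ((KK t).act (θ.comp g) u) ⊗ₜ[ZMod 2] ((R.of z₀).app k (Z.act g x) : (R Z z₀).V k) := by
        show TensorProduct.map _ _ (_ ⊗ₜ _) = _
        rw [TensorProduct.map_tmul, SV.act_comp, (R.of z₀).nat g x]
      rw [h2] at h1
      exact h1, by
      intro m θ
      show H.app m (a.comp θ) (((KK t).act θ u) ⊗ₜ[ZMod 2] ((R.of z₀).app m (Z.deg z₀ m) : (R Z z₀).V m)) = 0
      have := R.of_base z₀ m
      rw [this, TensorProduct.tmul_zero, map_zero]⟩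

/-- the homotopy `K'(t) → Map_*(Z, V)` -/
private noncomputable def A702_H {Z : SS} {z₀ : Z.S 0} {V : SV} {t : ℕ}
    (H : LHpy ((KK t).tens (R Z z₀)) V) : LHpy (KK t) (MapSV Z z₀ V) where
  app n a :=
    { toFun := fun u => A702_val H n a u
      map_add' := fun u v => by
        apply Subtype.ext
        funext m x
        show H.app m (a.comp x.1) (((KK t).act x.1 (u + v)) ⊗ₜ[ZMod 2] _) = _
        rw [map_add, TensorProduct.add_tmul, map_add]
        rfl
      map_smul' := fun c u => by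
        apply Subtype.ext
        funext m x
        show H.app m (a.comp x.1) (((KK t).act x.1 (c • u)) ⊗ₜ[ZMod 2] _) = _
        rw [map_smul, ← TensorProduct.smul_tmul', map_smul]
        rfl }
  nat {m n} g a u := by
    apply Subtype.ext
    funext k x
    show H.app k ((a.comp g).comp x.1) (((KK t).act x.1 ((KK t).act g u)) ⊗ₜ[ZMod 2] _) =
      H.app k (a.comp (g.comp x.1)) (((KK t).act (g.comp x.1) u) ⊗ₜ[ZMod 2] _)
    rw [SV.act_comp]
    rfl

theorem psi_null {Z : SS} {z₀ : Z.S 0} {V : SV} {t : ℕ} (f : (MapSV Z z₀ V).V t)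
    (hf : (MapSV Z z₀ V).Moore f)
    (h : ∀ (n : ℕ) (x : ((KK t).tens (R Z z₀)).H n),
      SV.Hmap (muV V) n (SV.Hmap (psiHom f hf) n x) = 0) :
    f ∈ (MapSV Z z₀ V).B t := by
  have h1 : LHtp ((muV V).comp (psiHom f hf)) (⟨fun _ => 0, fun _ _ => by simp⟩ :
      SVHom ((KK t).tens (R Z z₀)) V) := by
    rw [lhtp_iff]
    intro n z hz
    have h2 := h n (((KK t).tens (R Z z₀)).cls z hz)
    rw [SV.Hmap_cls, SV.Hmap_cls] at h2
    have h3 := (Submodule.Quotient.mk_eq_zero _).1 h2
    have h4 : (muV V).app n ((psiHom f hf).app n z) ∈ V.B n := h3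
    show (muV V).app n ((psiHom f hf).app n z) + 0 ∈ V.B n
    rw [add_zero]
    exact h4
  obtain ⟨H, H0, H1⟩ := h1
  obtain ⟨T, T0, T1⟩ := lprism (A702_H H)
  have e0 : (A702_H H).app t (cst 0) (KK.iota t) = f := by
    apply Subtype.ext
    funext m x
    show H.app m (cst 0) (((KK t).act x.1 (KK.iota t)) ⊗ₜ[ZMod 2] ((R.of z₀).app m x.2 : (R Z z₀).V m)) =
      MapSV.val f m x
    rw [H0, A702_iota]
    show (muV V).app m ((psiHom f hf).app m _) = _
    rw [psiHom_of, muV_of]
  have e1 : (A702_H H).app t (cst 1) (KK.iota t) = 0 := by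
    apply Subtype.ext
    funext m x
    show H.app m (cst 1) (((KK t).act x.1 (KK.iota t)) ⊗ₜ[ZMod 2] ((R.of z₀).app m x.2 : (R Z z₀).V m)) = 0
    rw [H1]
    rfl
  cases t with
  | zero =>
    refine ⟨T 0 (KK.iota 0), ?_⟩
    rw [T0, e0, e1, add_zero]
  | succ s =>
    refine ⟨T (s + 1) (KK.iota (s + 1)), ?_⟩
    rw [T1, e0, e1, add_zero, KK_V_eq_zero (s + 1) s (Nat.lt_succ_self s) ((KK (s + 1)).d s _),
      map_zero, add_zero]

/-- the element of the mapping space given by a linear map -/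
private noncomputable def A702_f {Z : SS} {z₀ : Z.S 0} {V : SV} {t : ℕ}
    (F : SVHom ((KK t).tens (R Z z₀)) V) : (MapSV Z z₀ V).V t :=
  ⟨fun m x => F.app m (((linSub (bd t)).proj.app m (Finsupp.single x.1 1) : (KK t).V m) ⊗ₜ[ZMod 2]
      ((R.of z₀).app m x.2 : (R Z z₀).V m)),
    by
      intro k m g θ x
      have h1 := F.nat g (((linSub (bd t)).proj.app m (Finsupp.single θ 1) : (KK t).V m) ⊗ₜ[ZMod 2]
        ((R.of z₀).app m x : (R Z z₀).V m))
      have h2 : ((KK t).tens (R Z z₀)).act g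
          (((linSub (bd t)).proj.app m (Finsupp.single θ 1) : (KK t).V m) ⊗ₜ[ZMod 2]
            ((R.of z₀).app m x : (R Z z₀).V m)) =
          ((linSub (bd t)).proj.app k (Finsupp.single (θ.comp g) 1) : (KK t).V k) ⊗ₜ[ZMod 2]
            ((R.of z₀).app k (Z.act g x) : (R Z z₀).V k) := by
        show TensorProduct.map _ _ (_ ⊗ₜ _) = _
        rw [TensorProduct.map_tmul, ← A702_iota, SV.act_comp, A702_iota, (R.of z₀).nat g x]
      rw [h2] at h1
      exact h1, by
      intro m θ
      show F.app m (_ ⊗ₜ[ZMod 2] ((R.of z₀).app m (Z.deg z₀ m) : (R Z z₀).V m)) = 0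
      have := R.of_base z₀ m
      rw [this, TensorProduct.tmul_zero, map_zero]⟩

private theorem A702_moore {Z : SS} {z₀ : Z.S 0} {V : SV} {t : ℕ}
    (F : SVHom ((KK t).tens (R Z z₀)) V) : (MapSV Z z₀ V).Moore (A702_f F) := by
  rw [moore_mapSV]
  intro n θ hθ x
  show F.app n (((linSub (bd t)).proj.app n (Finsupp.single θ 1) : (KK t).V n) ⊗ₜ[ZMod 2] _) = 0
  have h1 : (linSub (bd t)).proj.app n (Finsupp.single θ 1) = 0 :=
    (Submodule.Quotient.mk_eq_zero _).2 (SuppIn.single (A := bd t) (x := θ) hθ 1)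
  rw [h1, TensorProduct.zero_tmul, map_zero]

private theorem A702_mu {Z : SS} {z₀ : Z.S 0} {V : SV} {t : ℕ}
    (F : SVHom ((KK t).tens (R Z z₀)) V) (n : ℕ) (u : ((KK t).tens (R Z z₀)).V n) :
    (muV V).app n ((psiHom (A702_f F) (A702_moore F)).app n u) = F.app n u := by
  induction u using TensorProduct.induction_on with
  | zero => rw [map_zero, map_zero, map_zero]
  | add a b ha hb => rw [map_add, map_add, map_add, ha, hb]
  | tmul a b =>
    have ha : a ∈ Submodule.span (ZMod 2) (Set.range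
        (fun θ : Mo n t => (linSub (bd t)).proj.app n (Finsupp.single θ 1))) := by
      rw [MapSV.KK_span]; trivial
    induction ha using Submodule.span_induction with
    | zero => rw [TensorProduct.zero_tmul, map_zero, map_zero, map_zero]
    | add a a' _ _ ha ha' => rw [TensorProduct.add_tmul, map_add, map_add, map_add, ha, ha']
    | smul r a _ ha => rw [← TensorProduct.smul_tmul', map_smul, map_smul, map_smul, ha]
    | mem a ha =>
      obtain ⟨θ, rfl⟩ := ha
      have hb : b ∈ Submodule.span (ZMod 2) (Set.range ((R.of z₀).app n)) := by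
        rw [R.span]; trivial
      induction hb using Submodule.span_induction with
      | zero => rw [TensorProduct.tmul_zero, map_zero, map_zero, map_zero]
      | add a a' _ _ ha ha' => rw [TensorProduct.tmul_add, map_add, map_add, map_add, ha, ha']
      | smul r a _ ha => rw [TensorProduct.tmul_smul, map_smul, map_smul, map_smul, ha]
      | mem b hb =>
        obtain ⟨x, rfl⟩ := hb
        rw [psiHom_of, muV_of]
        rfl

theorem psi_exists {Z : SS} {z₀ : Z.S 0} {V : SV} {t : ℕ}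
    (φ : ∀ n, ((KK t).tens (R Z z₀)).H n →ₗ[ZMod 2] V.H n) :
    ∃ (f : (MapSV Z z₀ V).V t) (hf : (MapSV Z z₀ V).Moore f),
      ∀ (n : ℕ) (x : ((KK t).tens (R Z z₀)).H n),
        SV.Hmap (muV V) n (SV.Hmap (psiHom f hf) n x) = φ n x := by
  obtain ⟨F, hF⟩ := exists_hom φ
  refine ⟨A702_f F, A702_moore F, fun n x => ?_⟩
  obtain ⟨⟨z, hz⟩, rfl⟩ := Submodule.Quotient.mk_surjective _ x
  obtain ⟨h1, h2⟩ := hF n z hz
  have h3 : φ n (Submodule.Quotient.mk ⟨z, hz⟩) = V.cls (F.app n z) h1 := h2.symm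
  rw [h3]
  show V.cls ((muV V).app n ((psiHom (A702_f F) (A702_moore F)).app n z)) _ = _
  congr 1
  exact A702_mu F n z

end MM
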