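import Pool.Agent.Lib_MP_33f7bb_d.A702
import Pool.Agent.Lib_MP_33f7bb_d.A008

/-!
# A7-03: `psiHom` depends only on the class of `f` in homology; naturality

`psi_congr`: `f, f'` Moore with `f + f' = d w`.  Choose (`moore_boundary`) `w` with `δ_0 w = f + f'` and other faces
`0`.  View `f`, `f'` as maps `Δ^t × Z → V` vanishing on `A = ∂Δ^t × Z ∪ Δ^t × pt`.  For every relative cycle `z` of
`(Δ^t × Z, A)` of degree `n` the element `(f + f')(z)` is a boundary of `V`: modulo `F[A]` and boundaries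
`z = [Δ^t] × y'` (`KK_tens_surj`), and `(f + f')([Δ^t] × y') = w (δ_0 × y') = w(dif([Δ^(t+1)] × y')) + w(Δ^(t+1) × dif y') =
d (w([Δ^(t+1)] × y'))` (other faces of `w` vanish, `w` vanishes on `Δ^(t+1) × pt`).  By `htp_rel` there is a homotopy
`H : Δ^1 × Δ^t × Z → V` from `f` to `f'`, equal to `0` on `Δ^1 × A`.  Compose with `R.of` and use the prism operator:
for a cycle `c` of `K'(t) ⊗ R Z`, lift it to a chain `c'` of `Δ^t × Z` with `dif c'` supported in `A`; then
`[f](c') + [f'](c') = d T(c') + T(dif c')` and `T (dif c')` is a sum of `[0] = 0`.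
`psi_comp`: both sides agree on generators.
-/

open scoped TensorProduct

namespace MM

/-! ### bilinear maps out of quotients of chains -/

/-- class of a simplex in a quotient of chains -/
noncomputable def A703_cl {P : SS} (A : Sub P) (n : ℕ) (x : P.S n) : (linSub A).quo.V n :=
  (linSub A).proj.app n (Finsupp.single x 1)

theorem A703_cl_zero {P : SS} (A : Sub P) (n : ℕ) {x : P.S n} (hx : x ∈ A.car n) :
    A703_cl A n x = 0 := by
  show (Submodule.Quotient.mk (Finsupp.single x 1) : (linSub A).quo.V n) = 0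
  rw [Submodule.Quotient.mk_eq_zero]
  exact SuppIn.single hx 1

theorem A703_act_cl {P : SS} (A : Sub P) {m n : ℕ} (g : Mo m n) (x : P.S n) :
    (linSub A).quo.act g (A703_cl A n x) = A703_cl A m (P.act g x) := by
  unfold A703_cl
  rw [← (linSub A).proj.nat]
  congr 1
  exact Finsupp.mapDomain_single

theorem A703_span {P : SS} (A : Sub P) (n : ℕ) : Submodule.span (ZMod 2)
    (Set.range (A703_cl A n)) = (⊤ : Submodule (ZMod 2) ((linSub A).quo.V n)) := by
  rw [eq_top_iff]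
  rintro x -
  obtain ⟨c, rfl⟩ := Submodule.Quotient.mk_surjective _ x
  induction c using Finsupp.induction_linear with
  | zero => exact Submodule.zero_mem _
  | add a b ha hb => exact Submodule.add_mem _ ha hb
  | single u r =>
    have : (Submodule.Quotient.mk (Finsupp.single u r) : (linSub A).quo.V n) =
        r • A703_cl A n u := by
      show _ = r • (Submodule.Quotient.mk (Finsupp.single u 1) : (linSub A).quo.V n)
      rw [← Submodule.Quotient.mk_smul, Finsupp.smul_single, smul_eq_mul, mul_one]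
    rw [this]
    exact Submodule.smul_mem _ _ (Submodule.subset_span ⟨u, rfl⟩)

theorem A703_tens_ext {P Q : SS} (A : Sub P) (C : Sub Q) (n : ℕ) {M : Type} [AddCommGroup M]
    [Module (ZMod 2) M]
    {f g : ((linSub A).quo.V n) ⊗[ZMod 2] ((linSub C).quo.V n) →ₗ[ZMod 2] M}
    (h : ∀ x y, f (A703_cl A n x ⊗ₜ[ZMod 2] A703_cl C n y) =
      g (A703_cl A n x ⊗ₜ[ZMod 2] A703_cl C n y)) : f = g := by
  apply TensorProduct.ext'
  intro a b
  have ha : a ∈ Submodule.span (ZMod 2) (Set.range (A703_cl A n)) := by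
    rw [A703_span]; trivial
  induction ha using Submodule.span_induction with
  | zero => rw [TensorProduct.zero_tmul, map_zero, map_zero]
  | add a a' _ _ ha ha' => rw [TensorProduct.add_tmul, map_add, map_add, ha, ha']
  | smul r a _ ha => rw [← TensorProduct.smul_tmul', map_smul, map_smul, ha]
  | mem a ha =>
    obtain ⟨x, rfl⟩ := ha
    have hb : b ∈ Submodule.span (ZMod 2) (Set.range (A703_cl C n)) := by
      rw [A703_span]; trivial
    induction hb using Submodule.span_induction with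
    | zero => rw [TensorProduct.tmul_zero, map_zero, map_zero]
    | add a a' _ _ ha ha' => rw [TensorProduct.tmul_add, map_add, map_add, ha, ha']
    | smul r a _ ha => rw [TensorProduct.tmul_smul, map_smul, map_smul, ha]
    | mem b hb =>
      obtain ⟨y, rfl⟩ := hb
      exact h x y

/-- linear extension to the quotient -/
noncomputable def A703_in {Q : SS} (C : Sub Q) (n : ℕ) {M : Type} [AddCommGroup M]
    [Module (ZMod 2) M] (φ : Q.S n → M) (h : ∀ y ∈ C.car n, φ y = 0) :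
    (linSub C).quo.V n →ₗ[ZMod 2] M :=
  Submodule.liftQ _ (Finsupp.linearCombination (ZMod 2) φ) (by
    intro c hc
    rw [LinearMap.mem_ker, Finsupp.linearCombination_apply]
    refine Finset.sum_eq_zero fun x hx => ?_
    show c x • φ x = 0
    rw [h x (hc hx), smul_zero])

theorem A703_in_cl {Q : SS} (C : Sub Q) (n : ℕ) {M : Type} [AddCommGroup M]
    [Module (ZMod 2) M] (φ : Q.S n → M) (h : ∀ y ∈ C.car n, φ y = 0) (y : Q.S n) :
    A703_in C n φ h (A703_cl C n y) = φ y := by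
  show Finsupp.linearCombination (ZMod 2) φ (Finsupp.single y 1) = φ y
  rw [Finsupp.linearCombination_single, one_smul]

theorem A703_in_zero {Q : SS} (C : Sub Q) (n : ℕ) {M : Type} [AddCommGroup M]
    [Module (ZMod 2) M] (φ : Q.S n → M) (h : ∀ y ∈ C.car n, φ y = 0) (h' : ∀ y, φ y = 0) :
    A703_in C n φ h = 0 := by
  apply LinearMap.ext
  intro b
  have hb : b ∈ Submodule.span (ZMod 2) (Set.range (A703_cl C n)) := by
    rw [A703_span]; trivial
  induction hb using Submodule.span_induction with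
  | zero => rw [map_zero, map_zero]
  | add a a' _ _ ha ha' => rw [map_add, map_add, ha, ha']
  | smul r a _ ha => rw [map_smul, map_smul, ha]
  | mem b hb =>
    obtain ⟨y, rfl⟩ := hb
    rw [A703_in_cl, h' y, LinearMap.zero_apply]

/-- bilinear extension -/
noncomputable def A703_bi {P Q : SS} (A : Sub P) (C : Sub Q) (n : ℕ) {M : Type} [AddCommGroup M]
    [Module (ZMod 2) M] (φ : P.S n → Q.S n → M) (hA : ∀ x ∈ A.car n, ∀ y, φ x y = 0)
    (hC : ∀ x, ∀ y ∈ C.car n, φ x y = 0) :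
    ((linSub A).quo.V n) ⊗[ZMod 2] ((linSub C).quo.V n) →ₗ[ZMod 2] M :=
  TensorProduct.lift (A703_in A n (fun x => A703_in C n (φ x) (hC x))
    (fun x hx => A703_in_zero C n (φ x) (hC x) (hA x hx)))

theorem A703_bi_cl {P Q : SS} (A : Sub P) (C : Sub Q) (n : ℕ) {M : Type} [AddCommGroup M]
    [Module (ZMod 2) M] (φ : P.S n → Q.S n → M) (hA : ∀ x ∈ A.car n, ∀ y, φ x y = 0)
    (hC : ∀ x, ∀ y ∈ C.car n, φ x y = 0) (x : P.S n) (y : Q.S n) :
    A703_bi A C n φ hA hC (A703_cl A n x ⊗ₜ[ZMod 2] A703_cl C n y) = φ x y := by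
  unfold A703_bi
  rw [TensorProduct.lift.tmul, A703_in_cl, A703_in_cl]

theorem A703_bi_nat {P Q : SS} (A : Sub P) (C : Sub Q) {W : SV} {m n : ℕ} (g : Mo m n)
    (φ : P.S n → Q.S n → W.V n) (hA : ∀ x ∈ A.car n, ∀ y, φ x y = 0)
    (hC : ∀ x, ∀ y ∈ C.car n, φ x y = 0)
    (φ' : P.S m → Q.S m → W.V m) (hA' : ∀ x ∈ A.car m, ∀ y, φ' x y = 0)
    (hC' : ∀ x, ∀ y ∈ C.car m, φ' x y = 0)
    (h : ∀ x y, φ' (P.act g x) (Q.act g y) = W.act g (φ x y))
    (u : ((linSub A).quo.tens (linSub C).quo).V n) :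
    A703_bi A C m φ' hA' hC' (((linSub A).quo.tens (linSub C).quo).act g u) =
      W.act g (A703_bi A C n φ hA hC u) := by
  have key : (A703_bi A C m φ' hA' hC').comp (((linSub A).quo.tens (linSub C).quo).act g) =
      (W.act g).comp (A703_bi A C n φ hA hC) := by
    apply A703_tens_ext
    intro x y
    rw [LinearMap.comp_apply, LinearMap.comp_apply, A703_bi_cl]
    show A703_bi A C m φ' hA' hC' (TensorProduct.map _ _ (_ ⊗ₜ[ZMod 2] _)) = _
    rw [TensorProduct.map_tmul, A703_act_cl, A703_act_cl, A703_bi_cl, h]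
  exact LinearMap.congr_fun key u

/-- simplicial linear map out of a tensor product -/
noncomputable def A703_hom {P Q : SS} (A : Sub P) (C : Sub Q) {W : SV}
    (φ : ∀ n, P.S n → Q.S n → W.V n) (hA : ∀ n, ∀ x ∈ A.car n, ∀ y, φ n x y = 0)
    (hC : ∀ n x, ∀ y ∈ C.car n, φ n x y = 0)
    (h : ∀ {m n : ℕ} (g : Mo m n) x y, φ m (P.act g x) (Q.act g y) = W.act g (φ n x y)) :
    SVHom ((linSub A).quo.tens (linSub C).quo) W :=
  ⟨fun n => A703_bi A C n (φ n) (hA n) (hC n), fun {m n} g u =>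
    A703_bi_nat A C g (φ n) (hA n) (hC n) (φ m) (hA m) (hC m) (h g) u⟩

/-- the canonical simplicial map of the product to the tensor product -/
noncomputable def A703_qq {P Q : SS} (A : Sub P) (C : Sub Q) :
    Hom (P.prod Q) ((linSub A).quo.tens (linSub C).quo).ss :=
  ⟨fun n x => A703_cl A n x.1 ⊗ₜ[ZMod 2] A703_cl C n x.2, fun {m n} g x => by
    show _ = TensorProduct.map _ _ (_ ⊗ₜ[ZMod 2] _)
    rw [TensorProduct.map_tmul, A703_act_cl, A703_act_cl]⟩

theorem A703_qq_zero {P Q : SS} (A : Sub P) (C : Sub Q) (n : ℕ) (x : (P.prod Q).S n)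
    (hx : x.1 ∈ A.car n ∨ x.2 ∈ C.car n) :
    ((A703_qq A C).app n x : ((linSub A).quo.tens (linSub C).quo).V n) = 0 := by
  show A703_cl A n x.1 ⊗ₜ[ZMod 2] A703_cl C n x.2 = 0
  rcases hx with hx | hx
  · rw [A703_cl_zero A n hx, TensorProduct.zero_tmul]
  · rw [A703_cl_zero C n hx, TensorProduct.tmul_zero]

/-! ### relative cycles -/

theorem A703_qq_Z {P Q : SS} (A : Sub P) (C : Sub Q) {n : ℕ} (z : Ch (P.prod Q) n)
    (hz : RelCyc (Sub.box A ⊤ C ⊤) z) :
    linExt (A703_qq A C).app n z ∈ ((linSub A).quo.tens (linSub C).quo).Z n := by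
  cases n with
  | zero => exact Submodule.mem_top
  | succ n =>
    show ((linSub A).quo.tens (linSub C).quo).d n _ = 0
    rw [← linExt_dif (A := ⊤) (fun g x _ => (A703_qq A C).nat g x) (SuppIn.top z)]
    have hz' : SuppIn (Sub.box A ⊤ C ⊤) (dif z) := hz
    rw [linExt_apply]
    refine Finset.sum_eq_zero fun x hx => ?_
    show dif z x • ((A703_qq A C).app n x : ((linSub A).quo.tens (linSub C).quo).V n) = 0
    rw [A703_qq_zero A C n x (hz' x hx).2, smul_zero]

theorem A703_hom_qq {P Q : SS} (A : Sub P) (C : Sub Q) {W : SV}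
    (φ : ∀ n, P.S n → Q.S n → W.V n) (hA : ∀ n, ∀ x ∈ A.car n, ∀ y, φ n x y = 0)
    (hC : ∀ n x, ∀ y ∈ C.car n, φ n x y = 0)
    (h : ∀ {m n : ℕ} (g : Mo m n) x y, φ m (P.act g x) (Q.act g y) = W.act g (φ n x y))
    (n : ℕ) (z : Ch (P.prod Q) n) :
    (A703_hom A C φ hA hC h).app n (linExt (A703_qq A C).app n z) =
      linExt (P := P.prod Q) (W := W) (fun n x => φ n x.1 x.2) n z := by
  induction z using Finsupp.induction_linear with
  | zero => rw [map_zero, map_zero, map_zero]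
  | add a b ha hb => rw [map_add, map_add, map_add, ha, hb]
  | single x r =>
    rw [linExt_single, linExt_single, map_smul]
    congr 1
    exact A703_bi_cl A C n (φ n) (hA n) (hC n) x.1 x.2

/-! ### elements of the mapping space -/

section

variable {Z : SS} {z₀ : Z.S 0} {V : SV}

/-- the linear map given by an element of the mapping space -/
noncomputable def A703_G {s : ℕ} (A : Sub (Del s)) (w : (MapSV Z z₀ V).V s)
    (hA : ∀ n, ∀ θ ∈ A.car n, ∀ x, MapSV.val w n (θ, x) = 0) :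
    SVHom ((linSub A).quo.tens (R Z z₀)) V :=
  A703_hom A (Sub.pt z₀) (fun n θ x => MapSV.val w n (θ, x)) hA (fun n θ y hy => by
    have hy' : y = Z.deg z₀ n := hy
    rw [hy']
    exact MapSV.val_base w n θ) (fun g θ x => MapSV.val_nat w g θ x)

theorem A703_G_cl {s : ℕ} (A : Sub (Del s)) (w : (MapSV Z z₀ V).V s)
    (hA : ∀ n, ∀ θ ∈ A.car n, ∀ x, MapSV.val w n (θ, x) = 0) (n : ℕ) (θ : Mo n s) (x : Z.S n) :
    (A703_G A w hA).app n (A703_cl A n θ ⊗ₜ[ZMod 2] A703_cl (Sub.pt z₀) n x) =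
      MapSV.val w n (θ, x) :=
  A703_bi_cl A (Sub.pt z₀) n (fun θ x => MapSV.val w n (θ, x)) (hA n) (fun θ y hy => by
    have hy' : y = Z.deg z₀ n := hy
    rw [hy']
    exact MapSV.val_base w n θ) θ x

theorem A703_G_qq {s : ℕ} (A : Sub (Del s)) (w : (MapSV Z z₀ V).V s)
    (hA : ∀ n, ∀ θ ∈ A.car n, ∀ x, MapSV.val w n (θ, x) = 0) (n : ℕ)
    (z : Ch ((Del s).prod Z) n) :
    (A703_G A w hA).app n (linExt (A703_qq A (Sub.pt z₀)).app n z) =
      linExt (P := (Del s).prod Z) (W := V) (fun n x => MapSV.val w n (x.1, x.2)) n z :=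
  A703_hom_qq A (Sub.pt z₀) (fun n θ x => MapSV.val w n (θ, x)) hA (fun n θ y hy => by
    have hy' : y = Z.deg z₀ n := hy
    rw [hy']
    exact MapSV.val_base w n θ) (fun g θ x => MapSV.val_nat w g θ x) n z

/-- comparison of the values at `θ ⊗ y` -/
theorem A703_G_congr {s s' : ℕ} (A : Sub (Del s)) (A' : Sub (Del s')) (w : (MapSV Z z₀ V).V s)
    (w' : (MapSV Z z₀ V).V s') (hA : ∀ n, ∀ θ ∈ A.car n, ∀ x, MapSV.val w n (θ, x) = 0)
    (hA' : ∀ n, ∀ θ ∈ A'.car n, ∀ x, MapSV.val w' n (θ, x) = 0) (n : ℕ) (θ : Mo n s)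
    (θ' : Mo n s') (h : ∀ x, MapSV.val w n (θ, x) = MapSV.val w' n (θ', x))
    (y : (R Z z₀).V n) :
    (A703_G A w hA).app n (A703_cl A n θ ⊗ₜ[ZMod 2] y) =
      (A703_G A' w' hA').app n (A703_cl A' n θ' ⊗ₜ[ZMod 2] y) := by
  have hb : y ∈ Submodule.span (ZMod 2) (Set.range (A703_cl (Sub.pt z₀) n)) := by
    rw [A703_span]; trivial
  induction hb using Submodule.span_induction with
  | zero => rw [TensorProduct.tmul_zero, TensorProduct.tmul_zero, map_zero, map_zero]
  | add a a' _ _ ha ha' =>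
    rw [TensorProduct.tmul_add, TensorProduct.tmul_add, map_add, map_add, ha, ha']
  | smul r a _ ha =>
    rw [TensorProduct.tmul_smul, TensorProduct.tmul_smul, map_smul, map_smul, ha]
  | mem b hb =>
    obtain ⟨x, rfl⟩ := hb
    rw [A703_G_cl, A703_G_cl, h x]

theorem A703_act {s t : ℕ} (h : Mo s t) (f : (MapSV Z z₀ V).V t) (n : ℕ) (θ : Mo n s)
    (x : Z.S n) : MapSV.val ((MapSV Z z₀ V).act h f) n (θ, x) = MapSV.val f n (h.comp θ, x) := rfl

theorem A703_G_crs {s s' m n : ℕ} (A : Sub (Del s)) (A' : Sub (Del s'))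
    (w : (MapSV Z z₀ V).V s) (g : Mo s' s)
    (hA : ∀ n, ∀ θ ∈ A.car n, ∀ x, MapSV.val w n (θ, x) = 0)
    (hA' : ∀ n, ∀ θ ∈ A'.car n, ∀ x, MapSV.val ((MapSV Z z₀ V).act g w) n (θ, x) = 0)
    (y : (R Z z₀).V m) :
    (A703_G A w hA).app n (crs n (A703_cl A s' g) y) =
      (A703_G A' ((MapSV Z z₀ V).act g w) hA').app n (crs n (A703_cl A' s' OrderHom.id) y) := by
  unfold crs
  rw [map_sum, map_sum]
  refine Finset.sum_congr rfl fun a _ => ?_
  rw [map_sum, map_sum]
  refine Finset.sum_congr rfl fun b _ => ?_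
  split_ifs
  · rw [A703_act_cl, A703_act_cl]
    exact A703_G_congr A A' w _ hA hA' n _ _ (fun x => rfl) _
  · rw [map_zero, map_zero]

/-- the main computation: the value of `h = δ_0 w` on `[Δ^t] × y` is a boundary -/
theorem A703_main {t m n : ℕ} (w : (MapSV Z z₀ V).V (t + 1))
    (hw : ∀ i : Fin (t + 1), (MapSV Z z₀ V).act (dlt i.succ) w = 0)
    (hM : (MapSV Z z₀ V).Moore ((MapSV Z z₀ V).act (dlt 0) w)) (y : (R Z z₀).V m)
    (hy : y ∈ (R Z z₀).Z m) :
    (A703_G (bd t) ((MapSV Z z₀ V).act (dlt 0) w)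
      (fun n θ hθ x => MapSV.val_moore hM n θ hθ x)).app n (crs n (KK.iota t) y) ∈ V.B n := by
  have hbot : ∀ n, ∀ θ ∈ (⊥ : Sub (Del (t + 1))).car n, ∀ x, MapSV.val w n (θ, x) = 0 :=
    fun n θ hθ => absurd hθ (Sub.mem_bot θ)
  have h0 := A703_G_crs (n := n) (⊥ : Sub (Del (t + 1))) (bd t) w (dlt 0) hbot
    (fun n θ hθ x => MapSV.val_moore hM n θ hθ x) y
  have hio : KK.iota t = A703_cl (bd t) t OrderHom.id := rfl
  rw [hio, ← h0]
  have hi : ∀ i : Fin (t + 1), (A703_G (⊥ : Sub (Del (t + 1))) w hbot).app n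
      (crs n (A703_cl (⊥ : Sub (Del (t + 1))) t (dlt i.succ)) y) = 0 := by
    intro i
    have h1 := A703_G_crs (n := n) (⊥ : Sub (Del (t + 1))) (⊥ : Sub (Del t)) w (dlt i.succ) hbot
      (fun n θ hθ => absurd hθ (Sub.mem_bot θ)) y
    rw [h1]
    have h2 : A703_G (⊥ : Sub (Del t)) ((MapSV Z z₀ V).act (dlt i.succ) w)
        (fun n θ hθ => absurd hθ (Sub.mem_bot θ)) =
        (⟨fun _ => 0, fun _ _ => by simp⟩ : SVHom ((linSub (⊥ : Sub (Del t))).quo.tens (R Z z₀)) V) := by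
      apply SVHom.ext
      funext k
      apply A703_tens_ext
      intro θ x
      rw [A703_G_cl, hw i]
      rfl
    rw [h2]
    rfl
  have hd : (linSub (⊥ : Sub (Del (t + 1)))).quo.d t
      (A703_cl (⊥ : Sub (Del (t + 1))) (t + 1) OrderHom.id) =
      ∑ i : Fin (t + 2), A703_cl (⊥ : Sub (Del (t + 1))) t (dlt i) := by
    rw [SV.d, LinearMap.sum_apply]
    refine Finset.sum_congr rfl fun i _ => ?_
    rw [A703_act_cl]
    rfl
  have hsum : crs n ((linSub (⊥ : Sub (Del (t + 1)))).quo.d t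
      (A703_cl (⊥ : Sub (Del (t + 1))) (t + 1) OrderHom.id)) y =
      ∑ i : Fin (t + 2), crs n (A703_cl (⊥ : Sub (Del (t + 1))) t (dlt i)) y := by
    obtain ⟨f, hf⟩ := crs_bilin (linSub (⊥ : Sub (Del (t + 1)))).quo (R Z z₀) t m n
    rw [hd, ← hf, map_sum, LinearMap.sum_apply]
    exact Finset.sum_congr rfl fun i _ => hf _ _
  have hB : ((linSub (⊥ : Sub (Del (t + 1)))).quo.tens (R Z z₀)).d n
      (crs (n + 1) (A703_cl (⊥ : Sub (Del (t + 1))) (t + 1) OrderHom.id) y) =
      crs n ((linSub (⊥ : Sub (Del (t + 1)))).quo.d t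
      (A703_cl (⊥ : Sub (Del (t + 1))) (t + 1) OrderHom.id)) y := by
    cases m with
    | zero => exact d_crs_zero_right _ _
    | succ m =>
      have hy' : (R Z z₀).d m y = 0 := hy
      rw [d_crs, hy']
      obtain ⟨f, hf⟩ := crs_bilin (linSub (⊥ : Sub (Del (t + 1)))).quo (R Z z₀) (t + 1) m n
      rw [← hf _ (0 : (R Z z₀).V m), map_zero, add_zero]
  have hval := (A703_G (⊥ : Sub (Del (t + 1))) w hbot).map_d
    (crs (n + 1) (A703_cl (⊥ : Sub (Del (t + 1))) (t + 1) OrderHom.id) y)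
  rw [hB, hsum, map_sum, Fin.sum_univ_succ, Finset.sum_eq_zero (fun i _ => hi i), add_zero] at hval
  rw [hval]
  exact ⟨_, rfl⟩

/-- the value of a Moore boundary on a cycle is a boundary -/
theorem A703_cyc {t : ℕ} (h : (MapSV Z z₀ V).V t) (hM : (MapSV Z z₀ V).Moore h)
    (hB : h ∈ (MapSV Z z₀ V).B t) (n : ℕ) (c : ((KK t).tens (R Z z₀)).V n)
    (hc : c ∈ ((KK t).tens (R Z z₀)).Z n) :
    (A703_G (bd t) h (fun n θ hθ x => MapSV.val_moore hM n θ hθ x)).app n c ∈ V.B n := by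
  obtain ⟨w, hw⟩ := hB
  obtain ⟨w', hw0, hw'⟩ := moore_boundary (MapSV Z z₀ V) h hM w hw
  subst hw0
  by_cases hn : n < t
  · exact SVHom.map_B _ (KK_tens_low t (R Z z₀) n hn c hc)
  · obtain ⟨m, rfl⟩ : ∃ m, n = t + m := ⟨n - t, by omega⟩
    obtain ⟨y, hy, hyB⟩ := KK_tens_surj t (R Z z₀) m (t + m) rfl c hc
    have h1 := SVHom.map_B (A703_G (bd t) _ (fun n θ hθ x => MapSV.val_moore hM n θ hθ x)) hyB
    have h2 := A703_main (n := t + m) w' hw' hM y hy
    rw [map_add] at h1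
    have h3 := (V.B (t + m)).add_mem h1 h2
    rwa [add_assoc, two_eq_zero', add_zero] at h3

theorem A703_moore_add {t : ℕ} {f f' : (MapSV Z z₀ V).V t} (hf : (MapSV Z z₀ V).Moore f)
    (hf' : (MapSV Z z₀ V).Moore f') : (MapSV Z z₀ V).Moore (f + f') := by
  intro m g hg
  rw [map_add, hf m g hg, hf' m g hg, add_zero]

/-- simplicial map of the product given by an element of the mapping space -/
def A703_hom' {t : ℕ} (f : (MapSV Z z₀ V).V t) : Hom ((Del t).prod Z) V.ss :=
  ⟨fun n x => MapSV.val f n x, fun g x => MapSV.val_nat f g x.1 x.2⟩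

theorem A703_lin_add {t : ℕ} (f f' : (MapSV Z z₀ V).V t) (n : ℕ) (z : Ch ((Del t).prod Z) n) :
    linExt (P := (Del t).prod Z) (W := V) (fun n x => MapSV.val (f + f') n (x.1, x.2)) n z =
      linExt (A703_hom' f).app n z + linExt (A703_hom' f').app n z := by
  induction z using Finsupp.induction_linear with
  | zero => rw [map_zero, map_zero, map_zero, add_zero]
  | add a b ha hb =>
    rw [map_add, map_add, map_add, ha, hb]
    exact add_add_add_comm _ _ _ _
  | single x r =>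
    rw [linExt_single, linExt_single, linExt_single, ← smul_add]
    rfl

theorem A703_of_zero (n : ℕ) : (R.of V.zv).app n (0 : V.V n) = (0 : (RV V).V n) := by
  have := R.of_base V.zv n
  have h2 : V.ss.deg V.zv n = (0 : V.V n) := map_zero (V.act _)
  rw [h2] at this
  exact this

end

theorem psi_congr {Z : SS} {z₀ : Z.S 0} {V : SV} {t : ℕ} (f f' : (MapSV Z z₀ V).V t)
    (hf : (MapSV Z z₀ V).Moore f) (hf' : (MapSV Z z₀ V).Moore f')
    (h : f + f' ∈ (MapSV Z z₀ V).B t) (n : ℕ) :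
    SV.Hmap (psiHom f hf) n = SV.Hmap (psiHom f' hf') n := by
  have hM := A703_moore_add hf hf'
  -- the homotopy
  obtain ⟨H, H0, H1, HA⟩ := htp_rel V (Sub.box (bd t) ⊤ (Sub.pt z₀) ⊤) (A703_hom' f)
    (A703_hom' f') (by
      rintro k ⟨θ, x⟩ ⟨-, hx | hx⟩
      · exact (MapSV.val_moore hf k θ hx x).trans (MapSV.val_moore hf' k θ hx x).symm
      · have hx' : x = Z.deg z₀ k := hx
        subst hx'
        exact (MapSV.val_base f k θ).trans (MapSV.val_base f' k θ).symm) (by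
      intro k z hz
      have h1 := A703_cyc (f + f') hM h k _ (A703_qq_Z (bd t) (Sub.pt z₀) z hz)
      rw [← A703_lin_add]
      rw [A703_G_qq] at h1
      exact h1)
  have HB : ∀ k (a : Mo k 1) (θ : Mo k t) (x : Z.S k), (¬ Function.Surjective θ ∨ x = Z.deg z₀ k) →
      ((R.of V.zv).app k (H.app k (a, (θ, x))) : (RV V).V k) = 0 := by
    intro k a θ x hx
    rw [HA k a (θ, x) ⟨⟨trivial, trivial⟩, hx⟩]
    have h1 : (A703_hom' f).app k (θ, x) = (0 : V.V k) := by
      rcases hx with hx | hx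
      · exact MapSV.val_moore hf k θ hx x
      · rw [hx]
        exact MapSV.val_base f k θ
    rw [h1]
    exact A703_of_zero k
  -- the linear homotopy
  have key : LHtp (psiHom f hf) (psiHom f' hf') := by
    refine ⟨⟨fun k a => A703_bi (bd t) (Sub.pt z₀) k
      (fun θ x => ((R.of V.zv).app k (H.app k (a, (θ, x))) : (RV V).V k))
      (fun θ hθ x => HB k a θ x (Or.inl hθ)) (fun θ x hx => HB k a θ x (Or.inr hx)), ?_⟩, ?_, ?_⟩
    · intro m k g a u
      refine A703_bi_nat (bd t) (Sub.pt z₀) g _ _ _ _ _ _ (fun θ x => ?_) u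
      have h1 := H.nat g (a, (θ, x))
      show (R.of V.zv).app m (H.app m (a.comp g, (θ.comp g, Z.act g x))) = _
      exact (congrArg ((R.of V.zv).app m) h1).trans ((R.of V.zv).nat g _)
    · intro k u
      refine LinearMap.congr_fun (A703_tens_ext _ _ k (fun θ x => ?_)) u
      refine (A703_bi_cl (bd t) (Sub.pt z₀) k _ (fun θ hθ x => HB k (cst 0) θ x (Or.inl hθ))
        (fun θ x hx => HB k (cst 0) θ x (Or.inr hx)) θ x).trans ?_
      rw [H0]
      exact (psiHom_of f hf k θ x).symm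
    · intro k u
      refine LinearMap.congr_fun (A703_tens_ext _ _ k (fun θ x => ?_)) u
      refine (A703_bi_cl (bd t) (Sub.pt z₀) k _ (fun θ hθ x => HB k (cst 1) θ x (Or.inl hθ))
        (fun θ x hx => HB k (cst 1) θ x (Or.inr hx)) θ x).trans ?_
      rw [H1]
      exact (psiHom_of f' hf' k θ x).symm
  apply LinearMap.ext
  intro x
  obtain ⟨z, hz, rfl⟩ := A3Box_exists_cls x
  rw [SV.Hmap_cls, SV.Hmap_cls]
  exact A3Box_cls_eq _ _ ((lhtp_iff _ _).1 key n z hz)

theorem moore_comp {Z : SS} {z₀ : Z.S 0} {V V' : SV} (g : Hom V.ss V'.ss)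
    (hg : g.app 0 V.zv = V'.zv) {t : ℕ} (f : (MapSV Z z₀ V).V t)
    (hf : (MapSV Z z₀ V).Moore f) : (MapSV Z z₀ V').Moore ((MapSV.comp g hg).app t f) := by
  intro m h hh
  have h1 : (MapSV Z z₀ V').act h ((MapSV.comp g hg).app t f) =
      (MapSV.comp g hg).app m ((MapSV Z z₀ V).act h f) := rfl
  rw [h1, hf m h hh]
  refine Subtype.ext (funext fun n => funext fun x => ?_)
  show g.app n (0 : V.V n) = (0 : V'.V n)
  have h2 : (0 : V.V n) = V.ss.deg V.zv n := (map_zero (V.act _)).symm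
  rw [h2]
  show g.app n (V.ss.act _ V.zv) = 0
  rw [g.nat, hg]
  exact map_zero (V'.act _)

theorem psi_comp {Z : SS} {z₀ : Z.S 0} {V V' : SV} (g : Hom V.ss V'.ss)
    (hg : g.app 0 V.zv = V'.zv) {t : ℕ} (f : (MapSV Z z₀ V).V t)
    (hf : (MapSV Z z₀ V).Moore f) :
    psiHom ((MapSV.comp g hg).app t f) (moore_comp g hg f hf) =
      (RVmap g hg).comp (psiHom f hf) := by
  apply SVHom.ext
  funext n
  apply A703_tens_ext
  intro θ x
  refine (psiHom_of _ (moore_comp g hg f hf) n θ x).trans ?_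
  have h1 := psiHom_of f hf n θ x
  have h2 : ((RVmap g hg).comp (psiHom f hf)).app n
      (A703_cl (bd t) n θ ⊗ₜ[ZMod 2] A703_cl (Sub.pt z₀) n x) =
      (RVmap g hg).app n ((R.of V.zv).app n (MapSV.val f n (θ, x))) :=
    congrArg ((RVmap g hg).app n) h1
  rw [h2, R.map_of]
  rfl

/-- `psiHom` of a general pointed map is well defined on homology classes of Moore elements -/
theorem psi_muV_injective {Z : SS} {z₀ : Z.S 0} {V : SV} {t : ℕ} (f f' : (MapSV Z z₀ V).V t)
    (hf : (MapSV Z z₀ V).Moore f) (hf' : (MapSV Z z₀ V).Moore f')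
    (h : ∀ (n : ℕ) (x : ((KK t).tens (R Z z₀)).H n),
      SV.Hmap (muV V) n (SV.Hmap (psiHom f hf) n x) =
        SV.Hmap (muV V) n (SV.Hmap (psiHom f' hf') n x)) :
    f + f' ∈ (MapSV Z z₀ V).B t := by
  have hM := A703_moore_add hf hf'
  refine psi_null (f + f') hM fun n x => ?_
  have key : (muV V).comp (psiHom (f + f') hM) =
      ⟨fun n => ((muV V).comp (psiHom f hf)).app n + ((muV V).comp (psiHom f' hf')).app n,
        fun g x => by
          rw [LinearMap.add_apply, LinearMap.add_apply, SVHom.nat, SVHom.nat, map_add]⟩ := by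
    apply SVHom.ext
    funext k
    apply A703_tens_ext
    intro θ x
    have e : ∀ (f : (MapSV Z z₀ V).V t) (hf : (MapSV Z z₀ V).Moore f),
        ((muV V).comp (psiHom f hf)).app k
        (A703_cl (bd t) k θ ⊗ₜ[ZMod 2] A703_cl (Sub.pt z₀) k x) = MapSV.val f k (θ, x) := by
      intro f hf
      exact (congrArg ((muV V).app k) (psiHom_of f hf k θ x)).trans (muV_of V k _)
    rw [LinearMap.add_apply, e, e, e]
    rfl
  rw [← SV.Hmap_comp, key]
  have h1 := h n x
  rw [← SV.Hmap_comp, ← SV.Hmap_comp] at h1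
  obtain ⟨z, hz, rfl⟩ := A3Box_exists_cls x
  rw [SV.Hmap_cls] at h1 ⊢
  rw [SV.Hmap_cls] at h1
  have h2 := A3Box_cls_rel h1
  rw [← A3Box_cls_zero (W := V) (n := n) (z := 0) rfl (Submodule.zero_mem _)]
  apply A3Box_cls_eq
  rw [add_zero]
  exact h2

end MM
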