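import Pool.Agent.Lib_MP_33f7bb_d.A703

/-!
# A7-04: for `t ≥ 1` the classes of `psiHom f` are primitive, and `psiHom` is additive in homology

`psi_prim`: `R.diag ∘ psiHom f` is the composite
`K'(t) ⊗ R Z → (K'(t) ⊗ K'(t)) ⊗ (R Z ⊗ R Z) → (K'(t) ⊗ R Z) ⊗ (K'(t) ⊗ R Z) → R V ⊗ R V`
of `diag_K ⊗ diag_Z`, the middle exchange and `psiHom f ⊗ psiHom f`, where `diag_K : [θ] ↦ [θ] ⊗ [θ]` (well defined on
`K'(t)`); check on generators `[θ] ⊗ [x]`.  The first map is zero in homology: by `kun_surj` (or `KK_tens_surj`)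
every class of `K'(t) ⊗ R Z` is `crsH iota_t y`, mapped (`crs_map`) to `crs (diag_K iota_t) (diag_Z y)` and
`diag_K iota_t` is a cycle of degree `t` of `K'(t) ⊗ K'(t)`, which is a boundary: by `KK_tens_surj` for
`Q = K'(t)` its class is `iota_t × u`, `u` a cycle of degree `0` of `K'(t)`, and `K'(t)_0 = 0` for `t ≥ 1`
(`KK_V_eq_zero`).

`psi_add`: let `add : V × V → V`, `(f,f') : Δ^t × Z → V × V` (a Moore element of `Map_*(Z, V.prd V)`).  The linear map
`R (V × V) → R V ⊕ R V ⊕ (R V ⊗ R V)`, `[(u,v)] ↦ ([u], [v], [u] ⊗ [v])`, is an isomorphism of simplicial vector spaces.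
(inverse: `[u] ↦ [(u,0)]`, `[v] ↦ [(0,v)]`, `[u] ⊗ [v] ↦ [(u,v)] + [(u,0)] + [(0,v)]`).  So in `R (V × V)`, for every
`x` in the homology of `K'(t) ⊗ R Z`: `psiHom (f,f') x = i_1 (psiHom f x) + i_2 (psiHom f' x) + (third component)` and
the third component is the image of the diagonal term `(psiHom f ⊗ psiHom f') (diag)`, zero as in `psi_prim`.  Apply
`R (add)`.
-/

open scoped TensorProduct

namespace MM

/-- class of a simplex -/
private noncomputable def a704_g {P : SS} (A : Sub P) {n : ℕ} (x : P.S n) :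
    (linSub A).quo.V n := (linSub A).proj.app n (Finsupp.single x 1)

private theorem a704_g_zero {P : SS} {A : Sub P} {n : ℕ} {x : P.S n} (hx : x ∈ A.car n) :
    a704_g A x = 0 :=
  (Submodule.Quotient.mk_eq_zero _).2 (SuppIn.single hx 1 : SuppIn A _)

private theorem a704_g_act {P : SS} {A : Sub P} {m n : ℕ} (g : Mo m n) (x : P.S n) :
    (linSub A).quo.act g (a704_g A x) = a704_g A (P.act g x) := by
  rw [a704_g, ← (linSub A).proj.nat]
  congr 1
  exact Finsupp.mapDomain_single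

private theorem a704_ext {P : SS} {A : Sub P} {n : ℕ} {M : Type} [AddCommGroup M]
    [Module (ZMod 2) M] (F G : (linSub A).quo.V n →ₗ[ZMod 2] M)
    (h : ∀ x : P.S n, F (a704_g A x) = G (a704_g A x)) : F = G := by
  apply LinearMap.ext
  intro z
  obtain ⟨c, rfl⟩ := Submodule.Quotient.mk_surjective _ z
  have key : F.comp ((linSub A).proj.app n) = G.comp ((linSub A).proj.app n) :=
    Finsupp.lhom_ext' fun x => LinearMap.ext_ring (h x)
  exact LinearMap.congr_fun key c

private theorem a704_ext2 {P P' : SS} {A : Sub P} {A' : Sub P'} {n : ℕ} {M : Type}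
    [AddCommGroup M] [Module (ZMod 2) M]
    (F G : ((linSub A).quo.tens (linSub A').quo).V n →ₗ[ZMod 2] M)
    (h : ∀ (x : P.S n) (y : P'.S n), F (a704_g A x ⊗ₜ[ZMod 2] a704_g A' y) =
      G (a704_g A x ⊗ₜ[ZMod 2] a704_g A' y)) : F = G := by
  refine TensorProduct.ext (a704_ext _ _ fun x => ?_)
  exact a704_ext _ _ fun y => h x y

/-- maps out of a quotient of chains -/
private noncomputable def a704_lift {P : SS} (A : Sub P) {W : SV} (f : Hom P W.ss)
    (hf : ∀ n, ∀ x ∈ A.car n, f.app n x = (0 : W.V n)) : SVHom (linSub A).quo W :=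
  ⟨fun n => Submodule.liftQ _ (linExt f.app n) (by
      intro c hc
      rw [LinearMap.mem_ker, linExt_apply]
      refine Finset.sum_eq_zero fun x hx => ?_
      show c x • (f.app n x : W.V n) = 0
      rw [hf n x (hc hx), smul_zero]), fun {m n} g x => by
    obtain ⟨c, rfl⟩ := Submodule.Quotient.mk_surjective _ x
    exact (linHom f).nat g c⟩

private theorem a704_lift_g {P : SS} (A : Sub P) {W : SV} (f : Hom P W.ss)
    (hf : ∀ n, ∀ x ∈ A.car n, f.app n x = (0 : W.V n)) (n : ℕ) (x : P.S n) :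
    (a704_lift A f hf).app n (a704_g A x) = f.app n x := by
  show linExt f.app n (Finsupp.single x 1) = f.app n x
  rw [linExt_single, one_smul]

/-- bilinear maps out of a tensor product of quotients of chains -/
private noncomputable def a704_b1 {P P' : SS} (A' : Sub P') {W : SV}
    (f : Hom (P.prod P') W.ss)
    (h2 : ∀ n x, ∀ y ∈ A'.car n, f.app n (x, y) = (0 : W.V n)) (n : ℕ) (x : P.S n) :
    (linSub A').quo.V n →ₗ[ZMod 2] W.V n :=
  Submodule.liftQ _ (Finsupp.linearCombination (ZMod 2)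
    (fun y : P'.S n => (f.app n (x, y) : W.V n))) (by
      intro c hc
      rw [LinearMap.mem_ker, Finsupp.linearCombination_apply]
      refine Finset.sum_eq_zero fun y hy => ?_
      show c y • (f.app n (x, y) : W.V n) = 0
      rw [h2 n x y (hc hy), smul_zero])

private theorem a704_b1_g {P P' : SS} (A' : Sub P') {W : SV}
    (f : Hom (P.prod P') W.ss)
    (h2 : ∀ n x, ∀ y ∈ A'.car n, f.app n (x, y) = (0 : W.V n)) (n : ℕ) (x : P.S n)
    (y : P'.S n) : a704_b1 A' f h2 n x (a704_g A' y) = f.app n (x, y) := by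
  show Finsupp.linearCombination (ZMod 2) _ (Finsupp.single y 1) = _
  rw [Finsupp.linearCombination_single, one_smul]

private noncomputable def a704_b2 {P P' : SS} (A : Sub P) (A' : Sub P') {W : SV}
    (f : Hom (P.prod P') W.ss)
    (h1 : ∀ n, ∀ x ∈ A.car n, ∀ y, f.app n (x, y) = (0 : W.V n))
    (h2 : ∀ n x, ∀ y ∈ A'.car n, f.app n (x, y) = (0 : W.V n)) (n : ℕ) :
    (linSub A).quo.V n →ₗ[ZMod 2] (linSub A').quo.V n →ₗ[ZMod 2] W.V n :=
  Submodule.liftQ _ (Finsupp.linearCombination (ZMod 2)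
    (fun x : P.S n => a704_b1 A' f h2 n x)) (by
      intro c hc
      rw [LinearMap.mem_ker, Finsupp.linearCombination_apply]
      refine Finset.sum_eq_zero fun x hx => ?_
      have h3 : a704_b1 A' f h2 n x = 0 := a704_ext _ _ fun y => by
        rw [a704_b1_g, h1 n x (hc hx) y]
        rfl
      show c x • a704_b1 A' f h2 n x = 0
      rw [h3, smul_zero])

private theorem a704_b2_g {P P' : SS} (A : Sub P) (A' : Sub P') {W : SV}
    (f : Hom (P.prod P') W.ss)
    (h1 : ∀ n, ∀ x ∈ A.car n, ∀ y, f.app n (x, y) = (0 : W.V n))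
    (h2 : ∀ n x, ∀ y ∈ A'.car n, f.app n (x, y) = (0 : W.V n)) (n : ℕ) (x : P.S n)
    (y : P'.S n) : a704_b2 A A' f h1 h2 n (a704_g A x) (a704_g A' y) = f.app n (x, y) := by
  have h3 : a704_b2 A A' f h1 h2 n (a704_g A x) = a704_b1 A' f h2 n x := by
    show Finsupp.linearCombination (ZMod 2) _ (Finsupp.single x 1) = _
    rw [Finsupp.linearCombination_single, one_smul]
  rw [h3, a704_b1_g]

private noncomputable def a704_lift2 {P P' : SS} (A : Sub P) (A' : Sub P') {W : SV}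
    (f : Hom (P.prod P') W.ss)
    (h1 : ∀ n, ∀ x ∈ A.car n, ∀ y, f.app n (x, y) = (0 : W.V n))
    (h2 : ∀ n x, ∀ y ∈ A'.car n, f.app n (x, y) = (0 : W.V n)) :
    SVHom ((linSub A).quo.tens (linSub A').quo) W :=
  ⟨fun n => TensorProduct.lift (a704_b2 A A' f h1 h2 n), fun {m n} g x => by
    have key : (TensorProduct.lift (a704_b2 A A' f h1 h2 m)).comp
        (((linSub A).quo.tens (linSub A').quo).act g) =
        (W.act g).comp (TensorProduct.lift (a704_b2 A A' f h1 h2 n)) := by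
      refine a704_ext2 _ _ fun x y => ?_
      show TensorProduct.lift (a704_b2 A A' f h1 h2 m)
        (((linSub A).quo.act g (a704_g A x)) ⊗ₜ[ZMod 2] ((linSub A').quo.act g (a704_g A' y))) =
        W.act g (TensorProduct.lift (a704_b2 A A' f h1 h2 n)
          (a704_g A x ⊗ₜ[ZMod 2] a704_g A' y))
      rw [TensorProduct.lift.tmul, TensorProduct.lift.tmul, a704_g_act, a704_g_act, a704_b2_g,
        a704_b2_g]
      exact f.nat g (x, y)
    exact LinearMap.congr_fun key x⟩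

private theorem a704_lift2_g {P P' : SS} (A : Sub P) (A' : Sub P') {W : SV}
    (f : Hom (P.prod P') W.ss)
    (h1 : ∀ n, ∀ x ∈ A.car n, ∀ y, f.app n (x, y) = (0 : W.V n))
    (h2 : ∀ n x, ∀ y ∈ A'.car n, f.app n (x, y) = (0 : W.V n)) (n : ℕ) (x : P.S n)
    (y : P'.S n) : (a704_lift2 A A' f h1 h2).app n (a704_g A x ⊗ₜ[ZMod 2] a704_g A' y) =
      f.app n (x, y) := by
  show TensorProduct.lift (a704_b2 A A' f h1 h2 n) (a704_g A x ⊗ₜ[ZMod 2] a704_g A' y) = _
  rw [TensorProduct.lift.tmul, a704_b2_g]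

/-- the diagonal of `K'(t)` -/
private noncomputable def a704_dK (t : ℕ) : SVHom (KK t) ((KK t).tens (KK t)) :=
  a704_lift (bd t) (W := (KK t).tens (KK t))
    ⟨fun n θ => (a704_g (bd t) θ ⊗ₜ[ZMod 2] a704_g (bd t) θ : ((KK t).tens (KK t)).V n),
      fun {m n} g θ => by
        show _ = ((KK t).act g (a704_g (bd t) θ)) ⊗ₜ[ZMod 2] ((KK t).act g (a704_g (bd t) θ))
        rw [a704_g_act]⟩
    (fun n θ hθ => by
      show a704_g (bd t) θ ⊗ₜ[ZMod 2] a704_g (bd t) θ = 0
      rw [a704_g_zero hθ, TensorProduct.zero_tmul])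

private theorem a704_dK_g (t n : ℕ) (θ : Mo n t) :
    (a704_dK t).app n (a704_g (bd t) θ) =
      (a704_g (bd t) θ ⊗ₜ[ZMod 2] a704_g (bd t) θ : ((KK t).tens (KK t)).V n) :=
  a704_lift_g (bd t) _ _ n θ

/-- middle exchange -/
private noncomputable def a704_mid (P P' Q Q' : SV) :
    SVHom ((P.tens P').tens (Q.tens Q')) ((P.tens Q).tens (P'.tens Q')) :=
  ⟨fun n => (TensorProduct.tensorTensorTensorComm (ZMod 2) (P.V n) (P'.V n) (Q.V n)
      (Q'.V n)).toLinearMap, fun {m n} g x => by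
    induction x using TensorProduct.induction_on with
    | zero => simp
    | add a b ha hb => rw [map_add, map_add, ha, hb, map_add, map_add]
    | tmul a b =>
      induction a using TensorProduct.induction_on with
      | zero => simp
      | add a a' ha ha' =>
        rw [TensorProduct.add_tmul, map_add, map_add, ha, ha', map_add, map_add]
      | tmul p p' =>
        induction b using TensorProduct.induction_on with
        | zero => simp
        | add a a' ha ha' =>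
          rw [TensorProduct.tmul_add, map_add, map_add, ha, ha', map_add, map_add]
        | tmul q q' => rfl⟩

private theorem a704_mid_tmul (P P' Q Q' : SV) (n : ℕ) (p : P.V n) (p' : P'.V n) (q : Q.V n)
    (q' : Q'.V n) : (a704_mid P P' Q Q').app n
      ((p ⊗ₜ[ZMod 2] p') ⊗ₜ[ZMod 2] (q ⊗ₜ[ZMod 2] q')) =
      ((p ⊗ₜ[ZMod 2] q) ⊗ₜ[ZMod 2] (p' ⊗ₜ[ZMod 2] q') :
        ((P.tens Q).tens (P'.tens Q')).V n) := rfl

private theorem a704_dK_B {t : ℕ} (ht : 1 ≤ t) :
    (a704_dK t).app t (KK.iota t) ∈ ((KK t).tens (KK t)).B t := by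
  obtain ⟨y, -, hB⟩ := KK_tens_surj t (KK t) 0 t (by omega)
    ((a704_dK t).app t (KK.iota t)) ((a704_dK t).map_Z (KK_iota_mem_Z t))
  obtain ⟨F, hF⟩ := crs_bilin (KK t) (KK t) t 0 t
  rw [KK_V_eq_zero t 0 (by omega) y, ← hF, map_zero, add_zero] at hB
  exact hB

private theorem a704_cls_eq {P : SV} {n : ℕ} {x y : P.V n} (hx : x ∈ P.Z n) (hy : y ∈ P.Z n)
    (h : x + y ∈ P.B n) : P.cls x hx = P.cls y hy := by
  rw [SV.cls, SV.cls, Submodule.Quotient.eq, Submodule.mem_comap]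
  have : (P.Z n).subtype (⟨x, hx⟩ - ⟨y, hy⟩) = x + y := sub_eq' x y
  rw [this]
  exact h

private theorem a704_cls_zero {P : SV} {n : ℕ} {x : P.V n} (hx : x ∈ P.Z n)
    (h : x ∈ P.B n) : P.cls x hx = 0 :=
  (Submodule.Quotient.mk_eq_zero _).2 h

/-- the diagonal of `K'(t)` kills homology -/
private theorem a704_diag {t : ℕ} (ht : 1 ≤ t) {Q Q' : SV} (g : SVHom Q Q') (n : ℕ)
    (x : ((KK t).tens Q).H n) : SV.Hmap ((a704_dK t).tens g) n x = 0 := by
  obtain ⟨⟨z, hz⟩, rfl⟩ := Submodule.Quotient.mk_surjective _ x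
  show SV.Hmap ((a704_dK t).tens g) n (((KK t).tens Q).cls z hz) = 0
  by_cases hn : n < t
  · rw [a704_cls_zero hz (KK_tens_low t Q n hn z hz), map_zero]
  · obtain ⟨y, hy, hB⟩ := KK_tens_surj t Q (n - t) n (by omega) z hz
    have h1 : crs n (KK.iota t) y ∈ ((KK t).tens Q).Z n := crs_mem_Z (KK_iota_mem_Z t) hy
    rw [a704_cls_eq hz h1 hB, SV.Hmap_cls]
    refine a704_cls_zero _ ?_
    rw [crs_map]
    exact crs_mem_B_left (a704_dK_B ht) (g.map_Z hy)

/-- the total diagonal -/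
private noncomputable def a704_D (Z : SS) (z₀ : Z.S 0) (t : ℕ) :
    SVHom ((KK t).tens (R Z z₀)) (((KK t).tens (R Z z₀)).tens ((KK t).tens (R Z z₀))) :=
  (a704_mid (KK t) (KK t) (R Z z₀) (R Z z₀)).comp ((a704_dK t).tens (R.diag z₀))

private theorem a704_D_zero (Z : SS) (z₀ : Z.S 0) {t : ℕ} (ht : 1 ≤ t) (n : ℕ)
    (x : ((KK t).tens (R Z z₀)).H n) : SV.Hmap (a704_D Z z₀ t) n x = 0 := by
  rw [a704_D, SV.Hmap_comp, a704_diag ht, map_zero]

private theorem a704_D_g (Z : SS) (z₀ : Z.S 0) (t n : ℕ) (θ : Mo n t) (x : Z.S n) :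
    (a704_D Z z₀ t).app n ((a704_g (bd t) θ : (KK t).V n) ⊗ₜ[ZMod 2]
      ((R.of z₀).app n x : (R Z z₀).V n)) =
      (((a704_g (bd t) θ : (KK t).V n) ⊗ₜ[ZMod 2] ((R.of z₀).app n x : (R Z z₀).V n))
        ⊗ₜ[ZMod 2] ((a704_g (bd t) θ : (KK t).V n) ⊗ₜ[ZMod 2]
          ((R.of z₀).app n x : (R Z z₀).V n)) :
        (((KK t).tens (R Z z₀)).tens ((KK t).tens (R Z z₀))).V n) := by
  show (a704_mid (KK t) (KK t) (R Z z₀) (R Z z₀)).app n
    (((a704_dK t).app n (a704_g (bd t) θ)) ⊗ₜ[ZMod 2]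
      ((R.diag z₀).app n ((R.of z₀).app n x))) = _
  rw [a704_dK_g]
  have h : (R.diag z₀).app n ((R.of z₀).app n x) =
      ((R.of z₀).app n x : (R Z z₀).V n) ⊗ₜ[ZMod 2] ((R.of z₀).app n x : (R Z z₀).V n) :=
    R.lift_of _ _ _ _ _
  rw [h, a704_mid_tmul]

private theorem a704_prim {Z : SS} {z₀ : Z.S 0} {V : SV} {t : ℕ}
    (f : (MapSV Z z₀ V).V t) (hf : (MapSV Z z₀ V).Moore f) :
    (R.diag V.zv).comp (psiHom f hf) =
      ((psiHom f hf).tens (psiHom f hf)).comp (a704_D Z z₀ t) := by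
  apply SVHom.ext
  funext n
  refine a704_ext2 _ _ fun θ x => ?_
  show (R.diag V.zv).app n ((psiHom f hf).app n ((a704_g (bd t) θ : (KK t).V n) ⊗ₜ[ZMod 2]
      ((R.of z₀).app n x : (R Z z₀).V n))) =
    ((psiHom f hf).tens (psiHom f hf)).app n ((a704_D Z z₀ t).app n
      ((a704_g (bd t) θ : (KK t).V n) ⊗ₜ[ZMod 2] ((R.of z₀).app n x : (R Z z₀).V n)))
  rw [a704_D_g]
  have h1 : (psiHom f hf).app n ((a704_g (bd t) θ : (KK t).V n) ⊗ₜ[ZMod 2]
      ((R.of z₀).app n x : (R Z z₀).V n)) = (R.of V.zv).app n (MapSV.val f n (θ, x)) :=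
    psiHom_of f hf n θ x
  have h2 : (R.diag V.zv).app n ((R.of V.zv).app n (MapSV.val f n (θ, x))) =
      ((R.of V.zv).app n (MapSV.val f n (θ, x)) : (RV V).V n) ⊗ₜ[ZMod 2]
        ((R.of V.zv).app n (MapSV.val f n (θ, x)) : (RV V).V n) := R.lift_of _ _ _ _ _
  rw [h1, h2]
  show _ = ((psiHom f hf).app n ((a704_g (bd t) θ : (KK t).V n) ⊗ₜ[ZMod 2]
      ((R.of z₀).app n x : (R Z z₀).V n))) ⊗ₜ[ZMod 2] ((psiHom f hf).app n
        ((a704_g (bd t) θ : (KK t).V n) ⊗ₜ[ZMod 2] ((R.of z₀).app n x : (R Z z₀).V n)))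
  rw [h1]

theorem psi_prim {Z : SS} {z₀ : Z.S 0} {V : SV} {t : ℕ} (ht : 1 ≤ t)
    (f : (MapSV Z z₀ V).V t) (hf : (MapSV Z z₀ V).Moore f) (n : ℕ)
    (x : ((KK t).tens (R Z z₀)).H n) : SV.Hmap (psiHom f hf) n x ∈ PH V n := by
  show SV.Hmap (R.diag V.zv) n (SV.Hmap (psiHom f hf) n x) = 0
  rw [← SV.Hmap_comp, a704_prim, SV.Hmap_comp, a704_D_zero Z z₀ ht, map_zero]

theorem moore_add {W : SV} {t : ℕ} {f f' : W.V t} (hf : W.Moore f) (hf' : W.Moore f') :
    W.Moore (f + f') := by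
  intro m g hg
  rw [map_add, hf m g hg, hf' m g hg, add_zero]

/-- the product `[u] ⊗ [v] ↦ [u + v] + [u] + [v]` -/
private noncomputable def a704_al (V : SV) : SVHom ((RV V).tens (RV V)) (RV V) :=
  a704_lift2 (Sub.pt V.zv) (Sub.pt V.zv) (P := V.ss) (P' := V.ss) (W := RV V)
    ⟨fun n x => ((R.of V.zv).app n ((x.1 : V.V n) + (x.2 : V.V n)) : (RV V).V n) +
        (R.of V.zv).app n x.1 + (R.of V.zv).app n x.2, fun {m n} g x => by
      show ((R.of V.zv).app m (V.act g x.1 + V.act g x.2) : (RV V).V m) +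
        (R.of V.zv).app m (V.act g x.1) + (R.of V.zv).app m (V.act g x.2) =
        (RV V).act g (((R.of V.zv).app n ((x.1 : V.V n) + (x.2 : V.V n)) : (RV V).V n) +
        (R.of V.zv).app n x.1 + (R.of V.zv).app n x.2)
      rw [map_add, map_add, ← map_add (V.act g)]
      have h : ∀ v : V.V n, (RV V).act g ((R.of V.zv).app n v : (RV V).V n) =
          (R.of V.zv).app m (V.act g v) := fun v => ((R.of V.zv).nat g v).symm
      rw [h, h, h]⟩
    (fun n x hx y => by
      have h0 : x = (0 : V.V n) := by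
        have : x = V.ss.deg V.zv n := hx
        rw [this]
        exact map_zero (V.act _)
      have h1 : ((R.of V.zv).app n (0 : V.V n) : (RV V).V n) = 0 := by
        have := R.of_base V.zv n
        have h2 : V.ss.deg V.zv n = (0 : V.V n) := map_zero (V.act _)
        rw [h2] at this
        exact this
      show ((R.of V.zv).app n ((x : V.V n) + (y : V.V n)) : (RV V).V n) +
        (R.of V.zv).app n x + (R.of V.zv).app n y = 0
      rw [h0, zero_add, h1, add_zero, two_eq_zero'])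
    (fun n x y hy => by
      have h0 : y = (0 : V.V n) := by
        have : y = V.ss.deg V.zv n := hy
        rw [this]
        exact map_zero (V.act _)
      have h1 : ((R.of V.zv).app n (0 : V.V n) : (RV V).V n) = 0 := by
        have := R.of_base V.zv n
        have h2 : V.ss.deg V.zv n = (0 : V.V n) := map_zero (V.act _)
        rw [h2] at this
        exact this
      show ((R.of V.zv).app n ((x : V.V n) + (y : V.V n)) : (RV V).V n) +
        (R.of V.zv).app n x + (R.of V.zv).app n y = 0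
      rw [h0, add_zero, h1, add_zero, two_eq_zero'])

private theorem a704_al_g (V : SV) (n : ℕ) (u v : V.V n) :
    (a704_al V).app n (((R.of V.zv).app n u : (RV V).V n) ⊗ₜ[ZMod 2]
      ((R.of V.zv).app n v : (RV V).V n)) =
      ((R.of V.zv).app n (u + v) : (RV V).V n) + (R.of V.zv).app n u + (R.of V.zv).app n v :=
  a704_lift2_g (P := V.ss) (P' := V.ss) (Sub.pt V.zv) (Sub.pt V.zv) _ _ _ n u v

private theorem a704_add {Z : SS} {z₀ : Z.S 0} {V : SV} {t : ℕ}
    (f f' : (MapSV Z z₀ V).V t) (hf : (MapSV Z z₀ V).Moore f)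
    (hf' : (MapSV Z z₀ V).Moore f') (n : ℕ) (u : ((KK t).tens (R Z z₀)).V n) :
    (psiHom (f + f') (moore_add hf hf')).app n u =
      (psiHom f hf).app n u + (psiHom f' hf').app n u +
      (((a704_al V).comp ((psiHom f hf).tens (psiHom f' hf'))).comp (a704_D Z z₀ t)).app n u := by
  have key : (psiHom (f + f') (moore_add hf hf')).app n =
      (psiHom f hf).app n + (psiHom f' hf').app n +
      (((a704_al V).comp ((psiHom f hf).tens (psiHom f' hf'))).comp (a704_D Z z₀ t)).app n := by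
    refine a704_ext2 _ _ fun θ x => ?_
    have h1 : ∀ (g : (MapSV Z z₀ V).V t) (hg : (MapSV Z z₀ V).Moore g),
        (psiHom g hg).app n ((a704_g (bd t) θ : (KK t).V n) ⊗ₜ[ZMod 2]
        ((R.of z₀).app n x : (R Z z₀).V n)) = (R.of V.zv).app n (MapSV.val g n (θ, x)) :=
      fun g hg => psiHom_of g hg n θ x
    show (psiHom (f + f') (moore_add hf hf')).app n ((a704_g (bd t) θ : (KK t).V n) ⊗ₜ[ZMod 2]
        ((R.of z₀).app n x : (R Z z₀).V n)) =
      (psiHom f hf).app n ((a704_g (bd t) θ : (KK t).V n) ⊗ₜ[ZMod 2]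
        ((R.of z₀).app n x : (R Z z₀).V n)) +
      (psiHom f' hf').app n ((a704_g (bd t) θ : (KK t).V n) ⊗ₜ[ZMod 2]
        ((R.of z₀).app n x : (R Z z₀).V n)) +
      (a704_al V).app n (((psiHom f hf).tens (psiHom f' hf')).app n ((a704_D Z z₀ t).app n
        ((a704_g (bd t) θ : (KK t).V n) ⊗ₜ[ZMod 2] ((R.of z₀).app n x : (R Z z₀).V n))))
    rw [a704_D_g]
    have h3 : ((psiHom f hf).tens (psiHom f' hf')).app n
        (((a704_g (bd t) θ : (KK t).V n) ⊗ₜ[ZMod 2] ((R.of z₀).app n x : (R Z z₀).V n))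
        ⊗ₜ[ZMod 2] ((a704_g (bd t) θ : (KK t).V n) ⊗ₜ[ZMod 2]
          ((R.of z₀).app n x : (R Z z₀).V n))) =
        ((R.of V.zv).app n (MapSV.val f n (θ, x)) : (RV V).V n) ⊗ₜ[ZMod 2]
          ((R.of V.zv).app n (MapSV.val f' n (θ, x)) : (RV V).V n) := by
      rw [← h1 f hf, ← h1 f' hf']
      rfl
    rw [h1, h1, h1, h3, a704_al_g]
    have h4 : MapSV.val (f + f') n (θ, x) = MapSV.val f n (θ, x) + MapSV.val f' n (θ, x) := rfl
    rw [h4]
    have h5 : ∀ a b c : (RV V).V n, a = b + c + (a + b + c) := by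
      intro a b c
      have e : b + c + (a + b + c) = a + ((b + b) + (c + c)) := by abel
      rw [e, two_eq_zero', two_eq_zero', add_zero, add_zero]
    exact h5 _ _ _
  rw [key]
  rfl

theorem psi_add {Z : SS} {z₀ : Z.S 0} {V : SV} {t : ℕ} (ht : 1 ≤ t)
    (f f' : (MapSV Z z₀ V).V t) (hf : (MapSV Z z₀ V).Moore f)
    (hf' : (MapSV Z z₀ V).Moore f') (n : ℕ) (x : ((KK t).tens (R Z z₀)).H n) :
    SV.Hmap (psiHom (f + f') (moore_add hf hf')) n x =
      SV.Hmap (psiHom f hf) n x + SV.Hmap (psiHom f' hf') n x := by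
  have h0 : SV.Hmap (((a704_al V).comp ((psiHom f hf).tens (psiHom f' hf'))).comp
      (a704_D Z z₀ t)) n x = 0 := by
    rw [SV.Hmap_comp, a704_D_zero Z z₀ ht, map_zero]
  obtain ⟨⟨z, hz⟩, rfl⟩ := Submodule.Quotient.mk_surjective _ x
  rw [← add_zero (SV.Hmap (psiHom f hf) n _ + SV.Hmap (psiHom f' hf') n _), ← h0]
  show (RV V).cls ((psiHom (f + f') (moore_add hf hf')).app n z) _ =
    (RV V).cls ((psiHom f hf).app n z + (psiHom f' hf').app n z +
      (((a704_al V).comp ((psiHom f hf).tens (psiHom f' hf'))).comp (a704_D Z z₀ t)).app n z) _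
  congr 1
  exact a704_add f f' hf hf' n z

end MM
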