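import Pool.Agent.Lib_MP_33f7bb_d.A701
import Pool.Agent.Lib_MP_33f7bb_d.A704

/-!
# A7-05: Steenrod operations and the classes `PsiC f n` (suspension invariance)

Let `f : Δ^t × B → V` be a Moore element, `B = BZ2`.  Let `S = SpS t` (pointed at `none`) and let `P = S × B`, pointed.
`f` induces a pointed simplicial map `g : P → V.ss`, `(some θ, x) ↦ f (θ, x)`, `(none, x) ↦ 0`.  The collapse
`R P → K'(t) ⊗ R B`, `[(some θ, x)] ↦ [θ] ⊗ [x]`, `[(none,x)] ↦ 0`, composed with `psiHom f` is `R.map g` (check on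
generators).  By the splitting `R (S × B) ≅ R S ⊕ R B ⊕ (R S ⊗ R B)` (as in A7-04) and `R S ≅ K'(t)`, there is
a class `c_m ∈ H_m(R P)`, `m > t`, which maps to `crsH m iota_t e_(m-t)` in `K'(t) ⊗ R B` and to `0` in
`H_m(R S)`, `H_m(R B)`.
Let `y ∈ H^n(V)`, `n > t`.  `g^* y ∈ H^n(P)`: it vanishes on the summands `R S` and `R B` (`f` vanishes on the base
point of `B` and on `∂Δ^t`), so `g^* y = ε s·x^(n-t)`, the product (`cupR`) of the pull backs of the fundamental class
`s ∈ H^t(S)` and of `x^(n-t) ∈ H^(n-t)(B)`, `ε = y (PsiC f n)`.  Cartan: `Sq (s·x^(n-t)) = ∑ Sq^a s · Sq^b x^(n-t) =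
s · Sq x^(n-t)`: `Sq^a s ∈ H^(t+a)(S) = 0` for `a > 0` (pull back along the projection `P → S` of a class of `S`).
So `(Sq y)(PsiC f m) = (Sq g^*y)(c_m) = ε (Sq^(m-n) x^(n-t))(e_(m-t)) = ε binom(n-t, m-n)` (`sq_eB`).
-/

open scoped TensorProduct

namespace MM

/-! ### generators of `K'(t)` -/

/-- the class of a simplex in `K'(t)` -/
private noncomputable def A705k (t n : ℕ) (θ : Mo n t) : (KK t).V n :=
  (linSub (bd t)).proj.app n (Finsupp.single θ 1)

private theorem A705k_act (t : ℕ) {m n : ℕ} (g : Mo m n) (θ : Mo n t) :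
    (KK t).act g (A705k t n θ) = A705k t m (θ.comp g) := by
  unfold A705k
  rw [← (linSub (bd t)).proj.nat]
  congr 1
  exact Finsupp.mapDomain_single

private theorem A705k_zero (t n : ℕ) (θ : Mo n t) (hθ : ¬ Function.Surjective θ) :
    A705k t n θ = 0 := by
  show Submodule.Quotient.mk _ = (0 : (KK t).V n)
  rw [Submodule.Quotient.mk_eq_zero]
  exact SuppIn.single (A := bd t) (x := θ) hθ 1

private theorem A705_ext {Z : SS} {z₀ : Z.S 0} {W : SV} {t : ℕ}
    {F G : SVHom ((KK t).tens (R Z z₀)) W}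
    (h : ∀ n (θ : Mo n t) (x : Z.S n),
      F.app n (A705k t n θ ⊗ₜ[ZMod 2] ((R.of z₀).app n x : (R Z z₀).V n)) =
        G.app n (A705k t n θ ⊗ₜ[ZMod 2] ((R.of z₀).app n x : (R Z z₀).V n))) : F = G := by
  apply SVHom.ext
  funext n
  apply LinearMap.ext
  intro u
  induction u using TensorProduct.induction_on with
  | zero => rw [map_zero, map_zero]
  | add a b ha hb => rw [map_add, map_add, ha, hb]
  | tmul a b =>
    have ha : a ∈ Submodule.span (ZMod 2) (Set.range
        (fun θ : Mo n t => (linSub (bd t)).proj.app n (Finsupp.single θ 1))) := by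
      rw [MapSV.KK_span]; trivial
    induction ha using Submodule.span_induction with
    | zero => rw [TensorProduct.zero_tmul, map_zero, map_zero]
    | add a a' _ _ ha ha' => rw [TensorProduct.add_tmul, map_add, map_add, ha, ha']
    | smul r a _ ha => rw [← TensorProduct.smul_tmul', map_smul, map_smul, ha]
    | mem a ha =>
      obtain ⟨θ, rfl⟩ := ha
      have hb : b ∈ Submodule.span (ZMod 2) (Set.range ((R.of z₀).app n)) := by
        rw [R.span]; trivial
      induction hb using Submodule.span_induction with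
      | zero => rw [TensorProduct.tmul_zero, map_zero, map_zero]
      | add a a' _ _ ha ha' => rw [TensorProduct.tmul_add, map_add, map_add, ha, ha']
      | smul r a _ ha => rw [TensorProduct.tmul_smul, map_smul, map_smul, ha]
      | mem b hb =>
        obtain ⟨x, rfl⟩ := hb
        exact h n θ x

/-! ### the sphere -/

private theorem A705_act_some (t : ℕ) {m n : ℕ} (g : Mo m n)
    (θ : {θ : Mo n t // Function.Surjective θ}) (h : Function.Surjective (θ.1.comp g)) :
    (SpS t).act g (some θ) = some ⟨θ.1.comp g, h⟩ := by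
  simp only [Option.bind_some, dif_pos h]

private theorem A705_act_some' (t : ℕ) {m n : ℕ} (g : Mo m n)
    (θ : {θ : Mo n t // Function.Surjective θ}) (h : ¬ Function.Surjective (θ.1.comp g)) :
    (SpS t).act g (some θ) = none := by
  simp only [Option.bind_some, dif_neg h]

private theorem A705_act_top (t : ℕ) {n : ℕ} (θ : Mo n t) (h : Function.Surjective θ) :
    (SpS t).act θ (SpS.top t) = some ⟨θ, h⟩ :=
  A705_act_some t θ ⟨OrderHom.id, fun x => ⟨x, rfl⟩⟩ h

private theorem A705_act_top' (t : ℕ) {n : ℕ} (θ : Mo n t) (h : ¬ Function.Surjective θ) :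
    (SpS t).act θ (SpS.top t) = none :=
  A705_act_some' t θ ⟨OrderHom.id, fun x => ⟨x, rfl⟩⟩ h

/-- base point of the sphere -/
private def A705n (t : ℕ) : (SpS t).S 0 := none

private theorem A705_deg (t n : ℕ) : (SpS t).deg (A705n t) n = none := rfl

/-- the map `S → K'(t)` -/
private noncomputable def A705c0 (t : ℕ) : Hom (SpS t) (KK t).ss :=
  ⟨fun n s => s.elim 0 (fun θ => A705k t n θ.1), by
    intro m n g s
    cases s with
    | none =>
      show (0 : (KK t).V m) = (KK t).act g 0
      rw [map_zero]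
    | some θ =>
      by_cases h : Function.Surjective (θ.1.comp g)
      · rw [A705_act_some t g θ h]
        exact (A705k_act t g θ.1).symm
      · rw [A705_act_some' t g θ h]
        show (0 : (KK t).V m) = (KK t).act g (A705k t n θ.1)
        rw [A705k_act, A705k_zero t m _ h]⟩

/-- the collapse `R S → K'(t)` -/
private noncomputable def A705c (t : ℕ) : SVHom (R (SpS t) (A705n t)) (KK t) :=
  R.lift (A705n t) (A705c0 t) rfl

private theorem A705c_of (t n : ℕ) (s : (SpS t).S n) :
    (A705c t).app n ((R.of (A705n t)).app n s) = (A705c0 t).app n s := R.lift_of _ _ _ _ _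

private theorem A705c0_top (t n : ℕ) (θ : Mo n t) :
    (A705c0 t).app n ((SpS t).act θ (SpS.top t)) = A705k t n θ := by
  by_cases h : Function.Surjective θ
  · rw [A705_act_top t θ h]; rfl
  · rw [A705_act_top' t θ h, A705k_zero t n θ h]; rfl

private theorem A705_of_none (t n : ℕ) :
    (R.of (A705n t)).app n none = (0 : (R (SpS t) (A705n t)).V n) := R.of_base (A705n t) n

/-- no homology of the sphere above its dimension -/
private theorem A705_sphere (t k : ℕ) (hk : k ≠ t) (x : (R (SpS t) (A705n t)).H k) : x = 0 := by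
  obtain ⟨μ, h1, h2⟩ := exists_KK_hom (P := R (SpS t) (A705n t)) (n := t)
    ((R.of (A705n t)).app t (SpS.top t)) (by
      intro m h hh
      have e1 := (R.of (A705n t)).nat h (SpS.top t)
      rw [A705_act_top' t h hh] at e1
      exact e1.symm.trans (A705_of_none t m))
  have h3 : μ.comp (A705c t) = SVHom.id _ := by
    apply R.ext
    intro n s
    show μ.app n ((A705c t).app n ((R.of (A705n t)).app n s)) = (R.of (A705n t)).app n s
    rw [A705c_of]
    cases s with
    | none =>
      show μ.app n (0 : (KK t).V n) = _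
      rw [map_zero]; exact (A705_of_none t n).symm
    | some θ =>
      have e1 : (KK t).act θ.1 (KK.iota t) = A705k t n θ.1 := A705k_act t θ.1 OrderHom.id
      show μ.app n (A705k t n θ.1) = _
      rw [← e1, h2 n θ.1]
      have e2 := (R.of (A705n t)).nat θ.1 (SpS.top t)
      rw [A705_act_top t θ.1 θ.2] at e2
      exact e2.symm
  have h4 : SV.Hmap (A705c t) k x = 0 := by
    obtain ⟨z, hz, hzx⟩ := A3Box_exists_cls (SV.Hmap (A705c t) k x)
    rw [← hzx]
    rcases KK_homology t k z hz with h5 | ⟨h5, -⟩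
    · have : (KK t).cls z hz = (KK t).cls 0 (Submodule.zero_mem _) :=
        A3Box_cls_eq hz _ (by rwa [add_zero])
      rw [this]; rfl
    · exact absurd h5 hk
  rw [← SV.Hmap_id _ k x, ← h3, SV.Hmap_comp, h4, map_zero]

/-! ### the product `S × B` -/

/-- the product -/
private noncomputable abbrev A705P (t : ℕ) : SS := (SpS t).prod BZ2

/-- its base point -/
private noncomputable def A705p (t : ℕ) : (A705P t).S 0 := (A705n t, K1.zv)

private theorem A705p_deg (t n : ℕ) : (A705P t).deg (A705p t) n = (none, BZ2.deg K1.zv n) := rfl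

/-- the map `S × B → V` given by a Moore element -/
private noncomputable def A705g {V : SV} {t : ℕ} (f : (MapSV BZ2 K1.zv V).V t)
    (hf : (MapSV BZ2 K1.zv V).Moore f) : Hom (A705P t) V.ss :=
  ⟨fun n x => x.1.elim (0 : V.V n) (fun θ => MapSV.val f n (θ.1, x.2)), by
    rintro m n g ⟨s, x⟩
    cases s with
    | none =>
      show (0 : V.V m) = V.act g 0
      rw [map_zero]
    | some θ =>
      show ((SpS t).act g (some θ)).elim (0 : V.V m) (fun θ => MapSV.val f m (θ.1, BZ2.act g x)) =
        V.act g (MapSV.val f n (θ.1, x))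
      rw [← MapSV.val_nat]
      by_cases h : Function.Surjective (θ.1.comp g)
      · rw [A705_act_some t g θ h]; rfl
      · rw [A705_act_some' t g θ h, MapSV.val_moore hf m _ h]; rfl⟩

/-- the first component of the collapse -/
private noncomputable def A705q1 (t : ℕ) : SVHom (R (A705P t) (A705p t)) (R (SpS t) (A705n t)) :=
  R.map (A705p t) (A705n t) (Hom.fst _ _) rfl

/-- the second component of the collapse -/
private noncomputable def A705q2 (t : ℕ) : SVHom (R (A705P t) (A705p t)) (RV K1) :=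
  R.map (A705p t) K1.zv (Hom.snd _ _) rfl

/-- the collapse `R (S × B) → K'(t) ⊗ R B` -/
private noncomputable def A705kap (t : ℕ) : SVHom (R (A705P t) (A705p t)) ((KK t).tens (RV K1)) :=
  (((A705c t).comp (A705q1 t)).tens (A705q2 t)).comp (R.diag (A705p t))

private theorem A705kap_of (t n : ℕ) (s : (SpS t).S n) (x : BZ2.S n) :
    (A705kap t).app n ((R.of (A705p t)).app n (s, x)) =
      ((A705c0 t).app n s : (KK t).V n) ⊗ₜ[ZMod 2] ((R.of K1.zv).app n x : (RV K1).V n) := by
  have e1 : (R.diag (A705p t)).app n ((R.of (A705p t)).app n (s, x)) =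
      ((R.of (A705p t)).app n (s, x) : (R (A705P t) (A705p t)).V n) ⊗ₜ[ZMod 2]
        ((R.of (A705p t)).app n (s, x) : (R (A705P t) (A705p t)).V n) := R.lift_of _ _ _ _ _
  show (TensorProduct.map (((A705c t).comp (A705q1 t)).app n) ((A705q2 t).app n))
    ((R.diag (A705p t)).app n ((R.of (A705p t)).app n (s, x))) = _
  rw [e1, TensorProduct.map_tmul]
  have e2 : (A705q1 t).app n ((R.of (A705p t)).app n (s, x)) = (R.of (A705n t)).app n s :=
    R.map_of _ _ _ _ _ _
  have e3 : (A705q2 t).app n ((R.of (A705p t)).app n (s, x)) = (R.of K1.zv).app n x :=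
    R.map_of _ _ _ _ _ _
  rw [e3]
  show (A705c t).app n ((A705q1 t).app n ((R.of (A705p t)).app n (s, x))) ⊗ₜ[ZMod 2] _ = _
  rw [e2, A705c_of]

private theorem A705_g_kap {V : SV} {t : ℕ} (f : (MapSV BZ2 K1.zv V).V t)
    (hf : (MapSV BZ2 K1.zv V).Moore f) :
    R.map (A705p t) V.zv (A705g f hf) rfl = (psiHom f hf).comp (A705kap t) := by
  apply R.ext
  rintro n ⟨s, x⟩
  rw [R.map_of]
  show _ = (psiHom f hf).app n ((A705kap t).app n ((R.of (A705p t)).app n (s, x)))
  rw [A705kap_of]
  cases s with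
  | none =>
    show (R.of V.zv).app n (0 : V.V n) =
      (psiHom f hf).app n ((0 : (KK t).V n) ⊗ₜ[ZMod 2] ((R.of K1.zv).app n x : (RV K1).V n))
    rw [TensorProduct.zero_tmul, map_zero]
    have h1 := R.of_base V.zv n
    have h2 : V.ss.deg V.zv n = (0 : V.V n) := map_zero (V.act _)
    rw [h2] at h1
    exact h1
  | some θ => exact (psiHom_of f hf n θ.1 x).symm

/-! ### the section -/

/-- the section as an element of the mapping space -/
private noncomputable def A705L (t : ℕ) :
    (MapSV BZ2 K1.zv (R (A705P t) (A705p t))).V t :=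
  ⟨fun n x => (R.of (A705p t)).app n ((SpS t).act x.1 (SpS.top t), x.2) +
    (R.of (A705p t)).app n ((SpS t).act x.1 (SpS.top t), BZ2.deg K1.zv n) +
    (R.of (A705p t)).app n (none, x.2), by
    constructor
    · intro k n g θ x
      have e1 : ∀ (s : (SpS t).S n) (u : BZ2.S n),
          (R (A705P t) (A705p t)).act g ((R.of (A705p t)).app n (s, u)) =
            (R.of (A705p t)).app k ((SpS t).act g s, BZ2.act g u) :=
        fun s u => ((R.of (A705p t)).nat g (s, u)).symm
      have e2 : (SpS t).act (θ.comp g) (SpS.top t) = (SpS t).act g ((SpS t).act θ (SpS.top t)) :=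
        ((SpS t).act_comp g θ _).symm
      have e3 : BZ2.act g (BZ2.deg K1.zv n) = BZ2.deg K1.zv k := by
        show BZ2.act g (BZ2.act (cst 0) K1.zv) = BZ2.act (cst 0) K1.zv
        rw [BZ2.act_comp]; rfl
      show (R.of (A705p t)).app k ((SpS t).act (θ.comp g) (SpS.top t), BZ2.act g x) +
        (R.of (A705p t)).app k ((SpS t).act (θ.comp g) (SpS.top t), BZ2.deg K1.zv k) +
        (R.of (A705p t)).app k (none, BZ2.act g x) =
        (R (A705P t) (A705p t)).act g ((R.of (A705p t)).app n ((SpS t).act θ (SpS.top t), x) +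
        (R.of (A705p t)).app n ((SpS t).act θ (SpS.top t), BZ2.deg K1.zv n) +
        (R.of (A705p t)).app n (none, x))
      rw [map_add, map_add, e1, e1, e1, e3, e2]
      rfl
    · intro n θ
      show (R.of (A705p t)).app n ((SpS t).act θ (SpS.top t), BZ2.deg K1.zv n) +
        (R.of (A705p t)).app n ((SpS t).act θ (SpS.top t), BZ2.deg K1.zv n) +
        (R.of (A705p t)).app n (none, BZ2.deg K1.zv n) = (0 : (R (A705P t) (A705p t)).V n)
      rw [two_eq_zero', zero_add]
      exact R.of_base (A705p t) n⟩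

private theorem A705L_val (t n : ℕ) (θ : Mo n t) (x : BZ2.S n) :
    MapSV.val (A705L t) n (θ, x) =
      (R.of (A705p t)).app n ((SpS t).act θ (SpS.top t), x) +
      (R.of (A705p t)).app n ((SpS t).act θ (SpS.top t), BZ2.deg K1.zv n) +
      (R.of (A705p t)).app n (none, x) := rfl

private theorem A705L_moore (t : ℕ) :
    (MapSV BZ2 K1.zv (R (A705P t) (A705p t))).Moore (A705L t) := by
  intro m h hh
  apply Subtype.ext
  funext n
  funext x
  have hs : ¬ Function.Surjective (h.comp x.1) := by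
    intro h1
    apply hh
    intro y
    obtain ⟨z, hz⟩ := h1 y
    exact ⟨_, hz⟩
  show (R.of (A705p t)).app n ((SpS t).act (h.comp x.1) (SpS.top t), x.2) +
      (R.of (A705p t)).app n ((SpS t).act (h.comp x.1) (SpS.top t), BZ2.deg K1.zv n) +
      (R.of (A705p t)).app n (none, x.2) = (0 : (R (A705P t) (A705p t)).V n)
  rw [A705_act_top' t _ hs]
  have e1 : (R.of (A705p t)).app n (none, BZ2.deg K1.zv n) = (0 : (R (A705P t) (A705p t)).V n) :=
    R.of_base (A705p t) n
  rw [e1, add_zero, two_eq_zero']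

/-- the section `K'(t) ⊗ R B → R (S × B)` -/
private noncomputable def A705rho (t : ℕ) :
    SVHom ((KK t).tens (RV K1)) (R (A705P t) (A705p t)) :=
  (muV (R (A705P t) (A705p t))).comp (psiHom (A705L t) (A705L_moore t))

private theorem A705_kap_rho (t : ℕ) : (A705kap t).comp (A705rho t) = SVHom.id _ := by
  apply A705_ext
  intro n θ x
  have e1 : (A705rho t).app n (A705k t n θ ⊗ₜ[ZMod 2] ((R.of K1.zv).app n x : (RV K1).V n)) =
      MapSV.val (A705L t) n (θ, x) := by
    show (muV _).app n ((psiHom (A705L t) (A705L_moore t)).app n _) = _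
    rw [A705k, psiHom_of, muV_of]
  show (A705kap t).app n ((A705rho t).app n _) = A705k t n θ ⊗ₜ[ZMod 2] _
  rw [e1, A705L_val, map_add, map_add, A705kap_of, A705kap_of, A705kap_of, A705c0_top]
  have e2 : (A705c0 t).app n none = (0 : (KK t).V n) := rfl
  have e3 : (R.of K1.zv).app n (BZ2.deg K1.zv n) = (0 : (RV K1).V n) := R.of_base K1.zv n
  rw [e2, e3, TensorProduct.zero_tmul, TensorProduct.tmul_zero, add_zero, add_zero]

/-! ### functionals -/

private theorem A705_boxF_zero {P Q : SV} {p q n : ℕ} (b : Module.Dual (ZMod 2) (Q.H q)) :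
    boxF n (0 : Module.Dual (ZMod 2) (P.H p)) b = 0 := by
  have h := boxF_add_left (n := n) (0 : Module.Dual (ZMod 2) (P.H p)) 0 b
  rw [add_zero] at h
  exact (left_eq_add.1 h)

private theorem A705_cupR_zero {Z : SS} {z₀ : Z.S 0} {p q : ℕ} (n : ℕ)
    (b : Module.Dual (ZMod 2) ((R Z z₀).H q)) :
    cupR n (0 : Module.Dual (ZMod 2) ((R Z z₀).H p)) b = 0 := by
  unfold cupR
  rw [A705_boxF_zero, LinearMap.zero_comp]

private theorem A705_boxF_crsH {P Q : SV} {p q n : ℕ} (h : p + q = n)
    (a : Module.Dual (ZMod 2) (P.H p)) (b : Module.Dual (ZMod 2) (Q.H q)) (x : P.H p)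
    (y : Q.H q) : boxF n a b (crsH n x y) = a x * b y := by
  obtain ⟨x, hx, rfl⟩ := A3Box_exists_cls x
  obtain ⟨y, hy, rfl⟩ := A3Box_exists_cls y
  rw [crsH_cls, boxF_crs h]

private theorem A705_exists_s (t : ℕ) : ∃ s : Module.Dual (ZMod 2) ((KK t).H t), s (iotaH t) = 1 := by
  have h1 : iotaH t ≠ 0 := by
    intro h
    apply KK_iota_not_mem_B t
    have h2 : (KK t).cls (KK.iota t) (KK_iota_mem_Z t) = (KK t).cls 0 (Submodule.zero_mem _) := h
    have h3 := A3Box_cls_rel h2
    rwa [add_zero] at h3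
  by_contra h2
  push Not at h2
  apply h1
  rw [← Module.forall_dual_apply_eq_zero_iff (ZMod 2)]
  intro φ
  have h3 := h2 φ
  have h4 : ∀ c : ZMod 2, c ≠ 1 → c = 0 := by decide
  exact h4 _ h3

/-- functionals on the homology of `K'(t) ⊗ Q` are external products -/
private theorem A705_w {Q : SV} {t q n : ℕ} (h : t + q = n)
    (s : Module.Dual (ZMod 2) ((KK t).H t)) (hs : s (iotaH t) = 1)
    (w : Module.Dual (ZMod 2) (((KK t).tens Q).H n)) :
    ∃ b : Module.Dual (ZMod 2) (Q.H q), (∀ u, b u = w (crsH n (iotaH t) u)) ∧ w = boxF n s b := by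
  obtain ⟨c, hc⟩ := crsH_bilin (KK t) Q t q n
  refine ⟨w.comp (c (iotaH t)), fun u => by rw [LinearMap.comp_apply, hc], ?_⟩
  apply boxF_ext
  intro p' q' h' x hx y hy
  have key : ∀ (hB : x ∈ (KK t).B p'), ∀ F : Module.Dual (ZMod 2) (((KK t).tens Q).H n),
      F (((KK t).tens Q).cls (crs n x y) (crs_mem_Z hx hy)) = 0 := by
    intro hB F
    have e1 : ((KK t).tens Q).cls (crs n x y) (crs_mem_Z hx hy) =
        ((KK t).tens Q).cls 0 (Submodule.zero_mem _) :=
      A3Box_cls_eq _ _ (by rw [add_zero]; exact crs_mem_B_left hB hy)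
    rw [e1]
    exact map_zero F
  rcases KK_homology t p' x hx with hB | ⟨rfl, hB⟩
  · rw [key hB, key hB]
  · obtain rfl : q = q' := by omega
    have hB' : x + KK.iota p' ∈ (KK p').B p' := hB
    have e1 : (KK p').cls x hx = iotaH p' := A3Box_cls_eq hx _ hB'
    rw [boxF_crs h _ _ x hx y hy, e1, hs, one_mul, LinearMap.comp_apply, hc, ← e1, crsH_cls]

private theorem A705_kap_boxF (t : ℕ) {q n : ℕ} (s : Module.Dual (ZMod 2) ((KK t).H t))
    (b : Module.Dual (ZMod 2) ((RV K1).H q)) :
    (boxF n s b).comp (SV.Hmap (A705kap t) n) =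
      cupR n ((s.comp (SV.Hmap (A705c t) t)).comp (SV.Hmap (A705q1 t) t))
        (b.comp (SV.Hmap (A705q2 t) q)) := by
  have e1 : (s.comp (SV.Hmap (A705c t) t)).comp (SV.Hmap (A705q1 t) t) =
      s.comp (SV.Hmap ((A705c t).comp (A705q1 t)) t) := by
    apply LinearMap.ext
    intro x
    show s (SV.Hmap (A705c t) t (SV.Hmap (A705q1 t) t x)) = s (SV.Hmap _ t x)
    rw [SV.Hmap_comp]
  rw [e1]
  unfold cupR
  rw [← boxF_map]
  apply LinearMap.ext
  intro x
  show boxF n s b (SV.Hmap (A705kap t) n x) = boxF n s b (SV.Hmap _ n (SV.Hmap _ n x))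
  rw [← SV.Hmap_comp]
  rfl

private theorem A705_sq (S : SqFam) (t : ℕ) {q n m : ℕ} (h : t + q = n) (hm : t ≤ m)
    (s : Module.Dual (ZMod 2) ((KK t).H t)) (b : Module.Dual (ZMod 2) ((RV K1).H q)) :
    S.op (A705P t) (A705p t) n m ((boxF n s b).comp (SV.Hmap (A705kap t) n)) =
      (boxF m s (S.on K1 q (m - t) b)).comp (SV.Hmap (A705kap t) m) := by
  rw [A705_kap_boxF, A705_kap_boxF, S.cartan _ _ t q n m h, Finset.sum_eq_single t]
  · rw [S.id]
    congr 1
    exact (S.nat (A705p t) K1.zv (Hom.snd _ _) rfl q (m - t) b).symm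
  · intro k _ hk
    have e1 : S.op (A705P t) (A705p t) t k
        ((s.comp (SV.Hmap (A705c t) t)).comp (SV.Hmap (A705q1 t) t)) = 0 := by
      have e2 := S.nat (A705p t) (A705n t) (Hom.fst _ _) rfl t k (s.comp (SV.Hmap (A705c t) t))
      refine e2.symm.trans ?_
      apply LinearMap.ext
      intro x
      show S.op (SpS t) (A705n t) t k (s.comp (SV.Hmap (A705c t) t)) (SV.Hmap _ k x) = 0
      rw [A705_sphere t k hk (SV.Hmap _ k x), map_zero]
    rw [e1, A705_cupR_zero]
  · intro hk
    exact absurd (Finset.mem_range.2 (by omega)) hk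

theorem psi_sq (S : SqFam) {V : SV} {t : ℕ} (f : (MapSV BZ2 K1.zv V).V t)
    (hf : (MapSV BZ2 K1.zv V).Moore f) (n m : ℕ) (hn : t < n) (hm : n ≤ m) (y : RHc V n) :
    S.on V n m y (PsiC f hf m) =
      ((Nat.choose (n - t) (m - n) : ℕ) : ZMod 2) * y (PsiC f hf n) := by
  obtain ⟨s, hs⟩ := A705_exists_s t
  obtain ⟨b, hb, hw⟩ := A705_w (Q := RV K1) (t := t) (q := n - t) (n := n) (by omega) s hs
    (y.comp (SV.Hmap (psiHom f hf) n))
  have e0 : ∀ (k : ℕ) (c : ((KK t).tens (RV K1)).H k),
      SV.Hmap (psiHom f hf) k c =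
        SV.Hmap (R.map (A705p t) V.zv (A705g f hf) rfl) k (SV.Hmap (A705rho t) k c) := by
    intro k c
    rw [A705_g_kap, SV.Hmap_comp, ← SV.Hmap_comp (A705kap t), A705_kap_rho, SV.Hmap_id]
  have e1 : y.comp (SV.Hmap (R.map (A705p t) V.zv (A705g f hf) rfl) n) =
      (boxF n s b).comp (SV.Hmap (A705kap t) n) := by
    rw [← hw]
    apply LinearMap.ext
    intro x
    show y (SV.Hmap _ n x) = y (SV.Hmap _ n (SV.Hmap _ n x))
    rw [A705_g_kap, SV.Hmap_comp]
  have e2 : S.on V n m y (PsiC f hf m) =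
      (S.op (A705P t) (A705p t) n m ((boxF n s b).comp (SV.Hmap (A705kap t) n)))
        (SV.Hmap (A705rho t) m (crsH m (iotaH t) (eB (m - t)))) := by
    unfold PsiC
    rw [e0, ← e1, ← S.nat (A705p t) V.zv (A705g f hf) rfl n m y]
    rfl
  rw [e2, A705_sq S t (by omega) (by omega)]
  show boxF m s (S.on K1 (n - t) (m - t) b) (SV.Hmap (A705kap t) m (SV.Hmap (A705rho t) m _)) = _
  rw [← SV.Hmap_comp, A705_kap_rho, SV.Hmap_id, A705_boxF_crsH (by omega), hs, one_mul,
    sq_eB S (n - t) (m - t) (by omega) (by omega), hb]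
  have e3 : m - t - (n - t) = m - n := by omega
  rw [e3]
  rfl

end MM
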