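import Pool.Agent.Lib_MP_33f7bb_d.A71S
import Pool.Agent.Lib_MP_33f7bb_d.A701
import Pool.Agent.Lib_MP_33f7bb_d.A703
import Pool.Agent.Lib_MP_33f7bb_d.A2Res

/-!
# A7-11: (H0) for the tower of mapping spaces of the resolution of the sphere
-/

open scoped TensorProduct

namespace MM

/-- a vertex of `Map_*(Z, V)` as a simplicial map -/
def MapSV.map0 {Z : SS} {z₀ : Z.S 0} {V : SV} (z : (MapSV Z z₀ V).V 0) : Hom Z V.ss :=
  ⟨fun n x => MapSV.val z n (cst 0, x), fun f x => MapSV.val_nat z f (cst 0) x⟩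

theorem MapSV.map0_base {Z : SS} {z₀ : Z.S 0} {V : SV} (z : (MapSV Z z₀ V).V 0) :
    (MapSV.map0 z).app 0 z₀ = V.zv := by
  have h := MapSV.val_base z 0 (cst 0)
  have h1 : Z.deg z₀ 0 = z₀ := by
    show Z.act _ z₀ = z₀
    have h1 : (cst 0 : Mo 0 0) = OrderHom.id := by
      ext i; simp [cst]
    rw [h1, Z.act_id]
  rw [h1] at h
  exact h

theorem moore_of_zero {W : SV} (z : W.V 0) : W.Moore z := fun m f hf => by
  refine absurd ?_ hf
  intro y
  exact ⟨0, Fin.ext (by have h1 := (f 0).2; have h2 := y.2; omega)⟩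

/-- augmentation of `K'(0)` -/
noncomputable def aug711 (m : ℕ) : (KK 0).V m →ₗ[ZMod 2] ZMod 2 :=
  Submodule.liftQ _ (Finsupp.linearCombination (ZMod 2) (fun _ : Mo m 0 => (1 : ZMod 2))) (by
    intro x hx
    have h1 : x = 0 := by
      apply Finsupp.support_eq_empty.1
      apply Finset.eq_empty_of_forall_notMem
      intro y hy
      exact hx hy fun i => ⟨0, Subsingleton.elim (α := Fin 1) _ _⟩
    rw [h1]
    exact Submodule.zero_mem _)

/-- the simplices of `K'(0)` -/
noncomputable def e711 (m : ℕ) : (KK 0).V m :=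
  (linSub (bd 0)).proj.app m (Finsupp.single (cst 0 : Mo m 0) 1)

theorem aug_e711 (m : ℕ) : aug711 m (e711 m) = 1 := by
  show Finsupp.linearCombination (ZMod 2) (fun _ : Mo m 0 => (1 : ZMod 2))
    (Finsupp.single (cst 0 : Mo m 0) 1) = 1
  simp

theorem mo_eq711 {m : ℕ} (f g : Mo m 0) : f = g :=
  OrderHom.ext _ _ (funext fun _ => Subsingleton.elim (α := Fin 1) _ _)

theorem eq_smul711 (m : ℕ) (x : (KK 0).V m) : x = aug711 m x • e711 m := by
  obtain ⟨x, rfl⟩ := Submodule.Quotient.mk_surjective _ x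
  induction x using Finsupp.induction_linear with
  | zero => rw [Submodule.Quotient.mk_zero, map_zero, zero_smul]
  | add x y hx hy => rw [Submodule.Quotient.mk_add, map_add, add_smul, ← hx, ← hy]
  | single a b =>
    have h1 : aug711 m (Submodule.Quotient.mk (Finsupp.single a b)) = b := by
      show Finsupp.linearCombination (ZMod 2) (fun _ : Mo m 0 => (1 : ZMod 2))
        (Finsupp.single a b) = b
      simp
    rw [h1]
    have h2 : a = cst 0 := mo_eq711 _ _
    rw [h2]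
    show _ = b • (Submodule.Quotient.mk (Finsupp.single (cst 0 : Mo m 0) 1) :
      Ch (Del 0) m ⧸ (linSub (bd 0)).car m)
    rw [← Submodule.Quotient.mk_smul, Finsupp.smul_single, smul_eq_mul, mul_one]

theorem act_e711 {m k : ℕ} (θ : Mo m k) : (KK 0).act θ (e711 k) = e711 m := by
  show Submodule.Quotient.mk (Finsupp.mapDomain _ (Finsupp.single _ _)) = _
  rw [Finsupp.mapDomain_single]
  rfl

theorem aug_act711 {m k : ℕ} (θ : Mo m k) (x : (KK 0).V k) :
    aug711 m ((KK 0).act θ x) = aug711 k x := by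
  conv_lhs => rw [eq_smul711 k x, map_smul, act_e711, map_smul, aug_e711]
  simp

/-- `R Z → K'(0) ⊗ R Z`, `x ↦ 1 ⊗ x` -/
noncomputable def unitT (Q : SV) : SVHom Q ((KK 0).tens Q) where
  app m := TensorProduct.mk (ZMod 2) ((KK 0).V m) (Q.V m) (e711 m)
  nat {m k} θ x := by
    show e711 m ⊗ₜ[ZMod 2] Q.act θ x = TensorProduct.map _ _ (e711 k ⊗ₜ[ZMod 2] x)
    rw [TensorProduct.map_tmul, act_e711]

/-- inverse of `unitT` -/
noncomputable def unitTinv (Q : SV) : SVHom ((KK 0).tens Q) Q where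
  app m := TensorProduct.lift ((LinearMap.lsmul (ZMod 2) (Q.V m)).comp (aug711 m))
  nat {m k} θ x := by
    induction x using TensorProduct.induction_on with
    | zero => simp
    | add x y hx hy => simp only [map_add, hx, hy]
    | tmul x y =>
      show TensorProduct.lift _ (TensorProduct.map _ _ (x ⊗ₜ[ZMod 2] y)) = _
      rw [TensorProduct.map_tmul, TensorProduct.lift.tmul, TensorProduct.lift.tmul]
      show aug711 m ((KK 0).act θ x) • Q.act θ y = Q.act θ (aug711 k x • y)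
      rw [aug_act711, map_smul]

theorem unitT_inv (Q : SV) (m : ℕ) (z : ((KK 0).tens Q).V m) :
    (unitT Q).app m ((unitTinv Q).app m z) = z := by
  induction z using TensorProduct.induction_on with
  | zero => simp
  | add x y hx hy => rw [map_add, map_add, hx, hy]
  | tmul x y =>
    show e711 m ⊗ₜ[ZMod 2] TensorProduct.lift _ (x ⊗ₜ[ZMod 2] y) = x ⊗ₜ[ZMod 2] y
    rw [TensorProduct.lift.tmul]
    show e711 m ⊗ₜ[ZMod 2] (aug711 m x • y) = x ⊗ₜ[ZMod 2] y
    rw [← TensorProduct.smul_tmul, ← eq_smul711]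

theorem unitT_app (P : SV) (n : ℕ) (x : P.V n) : (unitT P).app n x =
    ((linSub (bd 0)).proj.app n (Finsupp.single (cst 0 : Mo n 0) 1) : (KK 0).V n) ⊗ₜ[ZMod 2] x :=
  rfl

theorem unitT_surj (P : SV) (n : ℕ) (c : ((KK 0).tens P).H n) :
    SV.Hmap (unitT P) n (SV.Hmap (unitTinv P) n c) = c := by
  rw [← SV.Hmap_comp]
  have h : (unitT P).comp (unitTinv P) = SVHom.id _ := by
    apply SVHom.ext
    funext n
    exact LinearMap.ext fun x => unitT_inv P n x
  rw [h, SV.Hmap_id]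

theorem psiHom_unitT {Z : SS} {z₀ : Z.S 0} {V : SV} (z : (MapSV Z z₀ V).V 0)
    (hz : (MapSV Z z₀ V).Moore z) :
    (psiHom z hz).comp (unitT (R Z z₀)) =
      R.map z₀ V.zv (MapSV.map0 z) (MapSV.map0_base z) := by
  apply R.ext
  intro n x
  rw [R.map_of]
  show (psiHom z hz).app n ((unitT (R Z z₀)).app n _) = _
  rw [unitT_app, psiHom_of]
  rfl

/-- the resolution in low degrees: `V_0 = R X`, `d^0` and `d^1 : V_0 → R V_0` -/
theorem etaPt {Z : SS} (z₀ : Z.S 0) : (R.of z₀).app 0 z₀ = (0 : (R Z z₀).V 0) := by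
  have := R.of_base z₀ 0
  rwa [show Z.deg z₀ 0 = z₀ from by
    show Z.act _ z₀ = z₀
    have h1 : (cst 0 : Mo 0 0) = OrderHom.id := by
      ext i; simp [cst]
    rw [h1, Z.act_id]] at this

theorem SVHom.hom_zv {P Q : SV} (f : SVHom P Q) : f.hom.app 0 P.zv = Q.zv := map_zero (f.app 0)

/-- `d^0 : R Z → R (R Z)` -/
noncomputable def resd0 (V : SV) : Hom V.ss (RV V).ss := R.of V.zv

theorem resd0_zv (V : SV) : (resd0 V).app 0 V.zv = (RV V).zv := etaPt V.zv

/-- `d^1 : R Z → R (R Z)` -/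
noncomputable def resd1 (Z : SS) (z₀ : Z.S 0) : SVHom (R Z z₀) (RV (R Z z₀)) :=
  R.map z₀ (R Z z₀).zv (R.of z₀) (etaPt z₀)

/-- **(H0)** in general form -/
theorem H0_general (Z : SS) (z₀ : Z.S 0) (N : ℕ) (hN : 1 ≤ N)
    (hH : ∀ n, n ≠ N → ∀ x : (R Z z₀).H n, x = 0)
    (z : (MapSV BZ2 K1.zv (R Z z₀)).V 0)
    (h : (MapSV.comp (resd0 (R Z z₀)) (resd0_zv _)).app 0 z +
      (MapSV.comp (resd1 Z z₀).hom (SVHom.hom_zv _)).app 0 z ∈
        (MapSV BZ2 K1.zv (RV (R Z z₀))).B 0) :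
    z ∈ (MapSV BZ2 K1.zv (R Z z₀)).B 0 := by
  have hz := moore_of_zero z
  -- homotopic maps have the same `psiHom` in homology
  have h1 := fun n => psi_congr _ _ (moore_of_zero _) (moore_of_zero _) h n
  -- the pull back of classes of degree `2 N` vanishes
  have key : ∀ (n : ℕ) (c : ((KK 0).tens (R BZ2 K1.zv)).H n),
      SV.Hmap (psiHom z hz) n c =
        SV.Hmap (resd1 Z z₀) n (SV.Hmap (muV (R Z z₀)) n (SV.Hmap (psiHom z hz) n c)) := by
    intro n c
    have h2 := congrArg (fun g => SV.Hmap (muV (RV (R Z z₀))) n (g c)) (h1 n)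
    rw [psi_comp, psi_comp] at h2
    simp only [SV.Hmap_comp] at h2
    have h3 : (muV (RV (R Z z₀))).comp (RVmap (resd0 (R Z z₀)) (resd0_zv _)) =
        SVHom.id (RV (R Z z₀)) := by
      apply R.ext
      intro m x
      show (muV (RV (R Z z₀))).app m ((RVmap (resd0 (R Z z₀)) (resd0_zv _)).app m _) = _
      rw [R.map_of, muV_of]
      rfl
    have h4 : (muV (RV (R Z z₀))).comp (RVmap (resd1 Z z₀).hom (SVHom.hom_zv _)) =
        (resd1 Z z₀).comp (muV (R Z z₀)) := by
      apply R.ext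
      intro m x
      show (muV (RV (R Z z₀))).app m ((RVmap _ _).app m _) = (resd1 _ _).app m ((muV (R Z z₀)).app m _)
      rw [R.map_of, muV_of, muV_of]
      rfl
    rw [← SV.Hmap_comp, ← SV.Hmap_comp (muV (RV (R Z z₀))), h3, h4, SV.Hmap_id, SV.Hmap_comp] at h2
    exact h2
  refine psi_null z hz fun n c => ?_
  by_cases hn : n = N
  · subst hn
    rw [← unitT_surj _ _ c, ← SV.Hmap_comp (psiHom z hz), psiHom_unitT]
    obtain h0 | h0 := eq_zero_or_eB n (SV.Hmap (unitTinv (R BZ2 K1.zv)) n c)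
    · rw [h0, map_zero, map_zero]
    · rw [h0]
      -- all functionals vanish
      by_contra hne
      obtain ⟨lam, hlam⟩ : ∃ lam : Module.Dual (ZMod 2) ((R Z z₀).H n),
          lam (SV.Hmap (muV (R Z z₀)) n (SV.Hmap (R.map K1.zv (R Z z₀).zv (MapSV.map0 z)
            (MapSV.map0_base z)) n (eB n))) ≠ 0 := by
        by_contra hcon
        push Not at hcon
        exact hne ((Module.forall_dual_apply_eq_zero_iff (ZMod 2) _).1 hcon)
      apply hlam
      have h5 := cupR_eB (p := n) (q := n) hN hN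
        ((fundC lam).comp (SV.Hmap (R.map K1.zv (R Z z₀).zv (MapSV.map0 z) (MapSV.map0_base z)) n))
        ((fundC lam).comp (SV.Hmap (R.map K1.zv (R Z z₀).zv (MapSV.map0 z) (MapSV.map0_base z)) n))
      rw [← cupR_map] at h5
      -- the left hand side vanishes
      have h6 : (cupR (n + n) (fundC lam) (fundC lam) : RHc (R Z z₀) (n + n))
          (SV.Hmap (R.map K1.zv (R Z z₀).zv (MapSV.map0 z) (MapSV.map0_base z)) (n + n)
            (eB (n + n))) = 0 := by
        rw [← psiHom_unitT z hz, SV.Hmap_comp, key]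
        have h7 := cupR_map z₀ (R Z z₀).zv (R.of z₀) (etaPt _) (n + n) (fundC lam) (fundC lam)
        have h8 := congrArg (fun g : Module.Dual (ZMod 2) ((R Z z₀).H (n + n)) =>
          g (SV.Hmap (muV (R Z z₀)) (n + n) (SV.Hmap (psiHom z hz) (n + n)
            (SV.Hmap (unitT (R BZ2 K1.zv)) (n + n) (eB (n + n)))))) h7
        refine Eq.trans h8 ?_
        rw [hH (n + n) (by omega) (SV.Hmap (muV (R Z z₀)) (n + n) _), map_zero]
      have h9 : ((cupR (n + n) (fundC lam) (fundC lam) : RHc (R Z z₀) (n + n)).comp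
          (SV.Hmap (R.map K1.zv (R Z z₀).zv (MapSV.map0 z) (MapSV.map0_base z)) (n + n)))
            (eB (n + n)) = 0 := h6
      rw [h9] at h5
      exact mul_self_eq_zero.1 h5.symm
  · exact hH n hn _

theorem H0_sphere (N : ℕ) (hN : 1 ≤ N)
    (z : (MapSV BZ2 K1.zv (R (SpS N) (SpS.base N))).V 0)
    (h : (MapSV.comp (resd0 (R (SpS N) (SpS.base N))) (resd0_zv _)).app 0 z +
      (MapSV.comp (resd1 (SpS N) (SpS.base N)).hom (SVHom.hom_zv _)).app 0 z ∈
        (MapSV BZ2 K1.zv (RV (R (SpS N) (SpS.base N)))).B 0) :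
    z ∈ (MapSV BZ2 K1.zv (R (SpS N) (SpS.base N))).B 0 :=
  H0_general (SpS N) (SpS.base N) N hN (RSp_H N) z h

end MM
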