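import Pool.Agent.Lib_MP_33f7bb_d.A711
import Pool.Agent.Lib_MP_33f7bb_d.A207

/-!
# A7-12: (H0) for the mapping tower of the resolution of the sphere
-/

namespace MM

theorem h0_aux (X : SS) (x₀ : X.S 0) (N : ℕ) (hN : 1 ≤ N)
    (hH : ∀ n, n ≠ N → ∀ x : (R X x₀).H n, x = 0) :
    (mapT (resT X x₀) BZ2 K1.zv).H0 := by
  intro u hu
  have h1 : (mapT (resT X x₀) BZ2 K1.zv).del 0 0 u =
      (MapSV.comp (resd0 (R X x₀)) (resd0_zv _)).app 0 u +
      (MapSV.comp (resd1 X x₀).hom (SVHom.hom_zv _)).app 0 u := by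
    show (∑ i ∈ Finset.range 2, _) = _
    rw [Finset.sum_range_succ, Finset.sum_range_one]
    rfl
  rw [h1] at hu
  exact H0_general X x₀ N hN hH u hu

theorem h0All : H0All := fun N hN => h0_aux (SpS N) none N hN (RSp_H N)

end MM
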