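import Pool.Agent.Lib_MP_33f7bb_d.A002

/-!
# B1A: calculus of the extension property `ExtP`

`ExtP.relIso`: relative isomorphisms (push forward); `ExtP.excise`: the same in one ambient complex;
`ExtP.zorn`: adding nondegenerate simplices one by one; `ext_of_compact`: compactness.
-/

namespace MM

/-- the subcomplex generated by one simplex -/
def Sub.gen1 {P : SS} {n : ℕ} (x : P.S n) : Sub P :=
  ⟨fun m => {y | ∃ f : Mo m n, y = P.act f x}, by
    rintro m k f y ⟨g, rfl⟩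
    exact ⟨g.comp f, P.act_comp f g x⟩⟩

theorem Sub.mem_gen1 {P : SS} {n : ℕ} (x : P.S n) : x ∈ (Sub.gen1 x).car n :=
  ⟨OrderHom.id, (P.act_id x).symm⟩

theorem Sub.gen1_le {P : SS} {n : ℕ} {x : P.S n} {A : Sub P} (h : x ∈ A.car n) :
    Sub.gen1 x ≤ A := by
  rintro m y ⟨f, rfl⟩
  exact A.closed f h

theorem NatOn.mono {P Y : SS} {A B : Sub P} (h : A ≤ B) {f : Fn P Y} (hf : NatOn B f) :
    NatOn A f := fun g x hx => hf g x (h _ hx)

theorem NatOn.congr {P Y : SS} {A : Sub P} {f g : Fn P Y} (hf : NatOn A f)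
    (h : ∀ n, ∀ x ∈ A.car n, g n x = f n x) : NatOn A g := fun {m n} k x hx => by
  rw [h m _ (A.closed k hx), h n x hx, hf k x hx]

theorem NatOn.comp {P P' Y : SS} {A : Sub P} {A' : Sub P'} {f : Fn P' Y} (hf : NatOn A' f)
    (φ : Hom P P') (h : ∀ n, ∀ x ∈ A.car n, φ.app n x ∈ A'.car n) :
    NatOn A (fun n x => f n (φ.app n x)) := fun {m n} k x hx => by
  show f m (φ.app m (P.act k x)) = _
  rw [φ.nat, hf k _ (h n x hx)]

theorem ExtP.refl (Y : SS) {P : SS} (A : Sub P) : ExtP Y A A :=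
  fun f hf => ⟨f, hf, fun _ _ _ => rfl⟩

theorem ExtP.trans {Y P : SS} {A B C : Sub P} (hAB : A ≤ B) (h : ExtP Y A B)
    (h' : ExtP Y B C) : ExtP Y A C := fun f hf => by
  obtain ⟨g, hg, hgf⟩ := h f hf
  obtain ⟨k, hk, hkg⟩ := h' g hg
  exact ⟨k, hk, fun n x hx => by rw [hkg n x (hAB n hx), hgf n x hx]⟩

/-- functions on two subcomplexes which agree on the intersection -/
theorem NatOn.glue {P Y : SS} {A B : Sub P} {f g : Fn P Y} (hf : NatOn A f) (hg : NatOn B g)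
    (h : ∀ n, ∀ x ∈ A.car n, x ∈ B.car n → f n x = g n x) :
    ∃ k : Fn P Y, NatOn (A ⊔ B) k ∧ (∀ n, ∀ x ∈ A.car n, k n x = f n x) ∧
      ∀ n, ∀ x ∈ B.car n, k n x = g n x := by
  classical
  have h1 : ∀ n, ∀ x ∈ A.car n, (if x ∈ A.car n then f n x else g n x) = f n x :=
    fun n x hx => if_pos hx
  have h2 : ∀ n, ∀ x ∈ B.car n, (if x ∈ A.car n then f n x else g n x) = g n x := by
    intro n x hx
    by_cases hA : x ∈ A.car n
    · rw [if_pos hA]; exact h n x hA hx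
    · rw [if_neg hA]
  refine ⟨fun n x => if x ∈ A.car n then f n x else g n x, ?_, h1, h2⟩
  rintro m n k x (hx | hx)
  · exact (h1 m _ (A.closed k hx)).trans ((hf k x hx).trans (congrArg (Y.act k) (h1 n x hx).symm))
  · exact (h2 m _ (B.closed k hx)).trans ((hg k x hx).trans (congrArg (Y.act k) (h2 n x hx).symm))

/-- extension along relative isomorphisms -/
theorem ExtP.relIso {Y P P' : SS} (φ : Hom P P') {A C : Sub P} {A' C' : Sub P'} (hA : A ≤ C)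
    (hA' : A' ≤ C') (hmap : ∀ n, ∀ x ∈ C.car n, φ.app n x ∈ C'.car n)
    (hpre : ∀ n, ∀ x ∈ C.car n, (φ.app n x ∈ A'.car n ↔ x ∈ A.car n))
    (hinj : ∀ n, ∀ x ∈ C.car n, ∀ y ∈ C.car n, x ∉ A.car n → y ∉ A.car n →
      φ.app n x = φ.app n y → x = y)
    (hsurj : ∀ n, ∀ y ∈ C'.car n, y ∉ A'.car n → ∃ x ∈ C.car n, φ.app n x = y)
    (h : ExtP Y A C) : ExtP Y A' C' := by
  classical
  intro f hf
  obtain ⟨g, hg, hgf⟩ := h (fun n x => f n (φ.app n x))
    (hf.comp φ fun n x hx => (hpre n x (hA n hx)).2 hx)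
  let g' : Fn P' Y := fun n y =>
    if y ∈ A'.car n then f n y else
      if hy : ∃ x ∈ C.car n, φ.app n x = y then g n hy.choose else f n y
  have h1 : ∀ n, ∀ y ∈ A'.car n, g' n y = f n y := fun n y hy => if_pos hy
  have h2 : ∀ n, ∀ x ∈ C.car n, g' n (φ.app n x) = g n x := by
    intro n x hx
    by_cases hA'x : φ.app n x ∈ A'.car n
    · rw [h1 n _ hA'x, hgf n x ((hpre n x hx).1 hA'x)]
    · have hy : ∃ x' ∈ C.car n, φ.app n x' = φ.app n x := ⟨x, hx, rfl⟩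
      have e1 : g' n (φ.app n x) = g n hy.choose := by
        show (if _ then _ else _) = _
        rw [if_neg hA'x, dif_pos hy]
      have hc := hy.choose_spec
      have hxA : x ∉ A.car n := fun h => hA'x ((hpre n x hx).2 h)
      have hcA : hy.choose ∉ A.car n := fun h => hA'x (by
        have := (hpre n _ hc.1).2 h
        rwa [hc.2] at this)
      rw [e1, hinj n _ hc.1 x hx hcA hxA hc.2]
  refine ⟨g', ?_, h1⟩
  intro m n k y hy
  by_cases hyA : y ∈ A'.car n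
  · rw [h1 m _ (A'.closed k hyA), h1 n y hyA, hf k y hyA]
  · obtain ⟨x, hx, rfl⟩ := hsurj n y hy hyA
    rw [← φ.nat, h2 m _ (C.closed k hx), h2 n x hx, hg k x hx]

/-- excision -/
theorem ExtP.excise {Y P : SS} {A C A' C' : Sub P} (hA : A ≤ C) (hA' : A' ≤ C')
    (hC : C ≤ C') (hpre : ∀ n, ∀ x ∈ C.car n, (x ∈ A'.car n ↔ x ∈ A.car n))
    (hsurj : ∀ n, ∀ y ∈ C'.car n, y ∉ A'.car n → y ∈ C.car n)
    (h : ExtP Y A C) : ExtP Y A' C' :=
  ExtP.relIso (Hom.id P) hA hA' (fun n _ hx => hC n hx) hpre (fun _ _ _ _ _ _ _ h => h)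
    (fun n y hy hy' => ⟨y, hsurj n y hy hy', rfl⟩) h

/-- isomorphic pairs -/
theorem ExtP.iso_iff {Y P P' : SS} (hY : Nonempty (Y.S 0)) (φ : Hom P P') {A C : Sub P}
    {A' C' : Sub P'} (hA : A ≤ C)
    (hA' : A' ≤ C') (hmap : ∀ n, ∀ x ∈ C.car n, φ.app n x ∈ C'.car n)
    (hpre : ∀ n, ∀ x ∈ C.car n, (φ.app n x ∈ A'.car n ↔ x ∈ A.car n))
    (hinj : ∀ n, ∀ x ∈ C.car n, ∀ y ∈ C.car n, φ.app n x = φ.app n y → x = y)
    (hsurj : ∀ n, ∀ y ∈ C'.car n, ∃ x ∈ C.car n, φ.app n x = y) :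
    ExtP Y A C ↔ ExtP Y A' C' := by
  classical
  constructor
  · exact ExtP.relIso φ hA hA' hmap hpre (fun n x hx y hy _ _ => hinj n x hx y hy)
      (fun n y hy _ => hsurj n y hy)
  · intro h f hf
    obtain ⟨y₀⟩ := hY
    let f' : Fn P' Y := fun n y =>
      if hy : ∃ x ∈ C.car n, φ.app n x = y then f n hy.choose else Y.deg y₀ n
    have h1 : ∀ n, ∀ x ∈ C.car n, f' n (φ.app n x) = f n x := by
      intro n x hx
      have hy : ∃ x' ∈ C.car n, φ.app n x' = φ.app n x := ⟨x, hx, rfl⟩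
      have e1 : f' n (φ.app n x) = f n hy.choose := dif_pos hy
      rw [e1, hinj n _ hy.choose_spec.1 x hx hy.choose_spec.2]
    have h2 : NatOn A' f' := by
      intro m n k y hy
      obtain ⟨x, hx, rfl⟩ := hsurj n y (hA' n hy)
      have hxA : x ∈ A.car n := (hpre n x hx).1 hy
      rw [← φ.nat, h1 m _ (C.closed k hx), h1 n x hx, hf k x hxA]
    obtain ⟨g, hg, hgf⟩ := h f' h2
    refine ⟨fun n x => g n (φ.app n x), hg.comp φ hmap, fun n x hx => ?_⟩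
    show g n (φ.app n x) = f n x
    rw [hgf n _ ((hpre n x (hA n hx)).2 hx), h1 n x (hA n hx)]

/-- the union of a set of subcomplexes -/
def Sub.sUn {P : SS} (c : Set (Sub P)) : Sub P :=
  ⟨fun n => {x | ∃ L ∈ c, x ∈ L.car n}, by
    rintro m n f x ⟨L, hL, hx⟩
    exact ⟨L, hL, L.closed f hx⟩⟩

/-- extension by adding the nondegenerate simplices of `K` one by one -/
theorem ExtP.zorn {Y P Q : SS} (K' K : Sub Q) (hK : K' ≤ K) (Φ : Sub Q → Sub P)
    (hmono : ∀ L L', L ≤ L' → Φ L ≤ Φ L')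
    (hcont : ∀ c : Set (Sub Q), c.Nonempty → (∀ L ∈ c, K' ≤ L ∧ L ≤ K) →
      ∀ n, ∀ x ∈ (Φ (Sub.sUn c)).car n, ∃ L ∈ c, x ∈ (Φ L).car n)
    (hstep : ∀ L : Sub Q, K' ≤ L → L ≤ K → ∀ (n : ℕ) (x : Q.S n), x ∈ K.car n → x ∉ L.car n →
      NonDeg x → (∀ (m : ℕ) (f : Mo m n), ¬ Function.Surjective f → Q.act f x ∈ L.car m) →
      ExtP Y (Φ L) (Φ (L ⊔ Sub.gen1 x))) :
    ExtP Y (Φ K') (Φ K) := by
  classical
  intro f hf
  let T := {p : Sub Q × Fn P Y // K' ≤ p.1 ∧ p.1 ≤ K ∧ NatOn (Φ p.1) p.2 ∧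
    ∀ n, ∀ x ∈ (Φ K').car n, p.2 n x = f n x}
  let r : T → T → Prop := fun a b => a.1.1 ≤ b.1.1 ∧
    ∀ n, ∀ x ∈ (Φ a.1.1).car n, b.1.2 n x = a.1.2 n x
  have htrans : ∀ {a b c : T}, r a b → r b c → r a c := by
    rintro a b c ⟨h1, h2⟩ ⟨h3, h4⟩
    exact ⟨h1.trans h3, fun n x hx => by rw [h4 n x (hmono _ _ h1 n hx), h2 n x hx]⟩
  have hrefl : ∀ a : T, r a a := fun a => ⟨le_rfl, fun _ _ _ => rfl⟩
  have hchain : ∀ c : Set T, IsChain r c → ∃ ub, ∀ a ∈ c, r a ub := by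
    intro c hc
    rcases c.eq_empty_or_nonempty with rfl | hne
    · exact ⟨⟨(K', f), le_rfl, hK, hf, fun _ _ _ => rfl⟩, fun a ha => ha.elim⟩
    · -- the union of the chain
      have hcomp : ∀ a ∈ c, ∀ b ∈ c, ∀ n, ∀ x ∈ (Φ a.1.1).car n, x ∈ (Φ b.1.1).car n →
          a.1.2 n x = b.1.2 n x := by
        intro a ha b hb n x hxa hxb
        by_cases hab : a = b
        · rw [hab]
        rcases hc ha hb hab with h | h
        · exact (h.2 n x hxa).symm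
        · exact h.2 n x hxb
      let c' : Set (Sub Q) := (fun a : T => a.1.1) '' c
      let U : Sub Q := Sub.sUn c'
      let g : Fn P Y := fun n x => if hx : ∃ a ∈ c, x ∈ (Φ a.1.1).car n then
        hx.choose.1.2 n x else f n x
      have hle : ∀ a ∈ c, a.1.1 ≤ U := fun a ha n x hx => ⟨a.1.1, ⟨a, ha, rfl⟩, hx⟩
      have hg : ∀ a ∈ c, ∀ n, ∀ x ∈ (Φ a.1.1).car n, g n x = a.1.2 n x := by
        intro a ha n x hx
        have hx' : ∃ a ∈ c, x ∈ (Φ a.1.1).car n := ⟨a, ha, hx⟩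
        have e1 : g n x = hx'.choose.1.2 n x := dif_pos hx'
        rw [e1]
        exact hcomp _ hx'.choose_spec.1 a ha n x hx'.choose_spec.2 hx
      have hcov : ∀ n, ∀ x ∈ (Φ U).car n, ∃ a ∈ c, x ∈ (Φ a.1.1).car n := by
        intro n x hx
        obtain ⟨L, ⟨a, ha, rfl⟩, hL⟩ := hcont c' (hne.image _) (by
          rintro L ⟨a, ha, rfl⟩
          exact ⟨a.2.1, a.2.2.1⟩) n x hx
        exact ⟨a, ha, hL⟩
      obtain ⟨a₀, ha₀⟩ := hne
      refine ⟨⟨(U, g), a₀.2.1.trans (hle a₀ ha₀), ?_, ?_, ?_⟩, fun a ha => ⟨hle a ha, ?_⟩⟩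
      · rintro n x ⟨L, ⟨a, ha, rfl⟩, hL⟩
        exact a.2.2.1 n hL
      · intro m n k x hx
        obtain ⟨a, ha, hxa⟩ := hcov n x hx
        show g m _ = _
        rw [hg a ha m _ ((Φ a.1.1).closed k hxa), a.2.2.2.1 k x hxa]
        show _ = Y.act k (g n x)
        rw [hg a ha n x hxa]
      · intro n x hx
        show g n x = f n x
        rw [hg a₀ ha₀ n x (hmono _ _ a₀.2.1 n hx), a₀.2.2.2.2 n x hx]
      · intro n x hx
        exact hg a ha n x hx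
  obtain ⟨m, hm⟩ := exists_maximal_of_chains_bounded hchain htrans
  by_cases hKm : K ≤ m.1.1
  · have hEq : m.1.1 = K := le_antisymm m.2.2.1 hKm
    refine ⟨m.1.2, ?_, m.2.2.2.2⟩
    have h3 : NatOn (Φ m.1.1) m.1.2 := m.2.2.2.1
    rwa [hEq] at h3
  · exfalso
    obtain ⟨n, x, hxK, hxL, hnd, hface⟩ := exists_next m.2.2.1 hKm
    obtain ⟨g, hg, hgf⟩ := hstep m.1.1 m.2.1 m.2.2.1 n x hxK hxL hnd hface m.1.2 m.2.2.2.1
    have hL' : m.1.1 ⊔ Sub.gen1 x ≤ K := Sub.sup_le' m.2.2.1 (Sub.gen1_le hxK)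
    let m' : T := ⟨(m.1.1 ⊔ Sub.gen1 x, g), m.2.1.trans (Sub.le_sup_left' _ _), hL', hg,
      fun n x hx => (hgf n x (hmono _ _ m.2.1 n hx)).trans (m.2.2.2.2 n x hx)⟩
    have h1 : r m m' := ⟨Sub.le_sup_left' _ _, hgf⟩
    have h2 := hm m' h1
    exact hxL (h2.1 n (Or.inr (Sub.mem_gen1 x)))

/-- compactness: extensions over a directed union -/
theorem ext_of_compact {Y : SS} [∀ n, TopologicalSpace (Y.S n)] (hY : IsTarget Y) {P : SS}
    {ι : Type} [Nonempty ι] (A C : ι → Sub P)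
    (hdir : ∀ i j, ∃ k, A i ≤ A k ∧ A j ≤ A k ∧ C i ≤ C k ∧ C j ≤ C k) (f : Fn P Y)
    (h : ∀ i, ∃ g : Fn P Y, NatOn (C i) g ∧ ∀ n, ∀ x ∈ (A i).car n, g n x = f n x) :
    ∃ g : Fn P Y, NatOn (Sub.iUn C) g ∧ ∀ n, ∀ x ∈ (Sub.iUn A).car n, g n x = f n x := by
  classical
  have := hY.compact
  have := hY.t2
  let V : ι → Set (Fn P Y) := fun i => {g | (∀ (m n : ℕ) (k : Mo m n) (x : P.S n),
    x ∈ (C i).car n → g m (P.act k x) = Y.act k (g n x)) ∧ ∀ n, ∀ x ∈ (A i).car n, g n x = f n x}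
  have hev : ∀ n (x : P.S n), Continuous fun g : Fn P Y => g n x := fun n x =>
    (continuous_apply x).comp (continuous_apply n)
  have hclosed : ∀ i, IsClosed (V i) := by
    intro i
    have : V i = (⋂ (m : ℕ) (n : ℕ) (k : Mo m n) (x : P.S n) (_ : x ∈ (C i).car n),
        {g : Fn P Y | g m (P.act k x) = Y.act k (g n x)}) ∩
        ⋂ (n : ℕ) (x : P.S n) (_ : x ∈ (A i).car n), {g : Fn P Y | g n x = f n x} := by
      ext g
      simp only [V, Set.mem_ofPred_eq, Set.mem_inter_iff, Set.mem_iInter]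
    rw [this]
    refine IsClosed.inter ?_ ?_
    · refine isClosed_iInter fun m => isClosed_iInter fun n => isClosed_iInter fun k =>
        isClosed_iInter fun x => isClosed_iInter fun _ => ?_
      exact isClosed_eq (hev m _) ((hY.cont k).comp (hev n x))
    · refine isClosed_iInter fun n => isClosed_iInter fun x => isClosed_iInter fun _ => ?_
      exact isClosed_eq (hev n x) continuous_const
  have hdirV : Directed (· ⊇ ·) V := by
    intro i j
    obtain ⟨k, h1, h2, h3, h4⟩ := hdir i j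
    exact ⟨k, fun g hg => ⟨fun m n q x hx => hg.1 m n q x (h3 n hx), fun n x hx => hg.2 n x (h1 n hx)⟩,
      fun g hg => ⟨fun m n q x hx => hg.1 m n q x (h4 n hx), fun n x hx => hg.2 n x (h2 n hx)⟩⟩
  have hne : ∀ i, (V i).Nonempty := by
    intro i
    obtain ⟨g, hg, hgf⟩ := h i
    exact ⟨g, fun m n k x hx => hg k x hx, hgf⟩
  obtain ⟨g, hg⟩ := IsCompact.nonempty_iInter_of_directed_nonempty_isCompact_isClosed V hdirV hne
    (fun i => (hclosed i).isCompact) hclosed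
  rw [Set.mem_iInter] at hg
  refine ⟨g, ?_, ?_⟩
  · intro m n k x hx
    obtain ⟨i, hi⟩ := Set.mem_iUnion.1 hx
    exact (hg i).1 m n k x hi
  · intro n x hx
    obtain ⟨i, hi⟩ := Set.mem_iUnion.1 hx
    exact (hg i).2 n x hi

/-- extension property and directed unions -/
theorem ExtP.iUn {Y : SS} [∀ n, TopologicalSpace (Y.S n)] (hY : IsTarget Y) {P : SS}
    {ι : Type} [Nonempty ι] (A C : ι → Sub P)
    (hdir : ∀ i j, ∃ k, A i ≤ A k ∧ A j ≤ A k ∧ C i ≤ C k ∧ C j ≤ C k)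
    (h : ∀ i, ExtP Y (A i) (C i)) : ExtP Y (Sub.iUn A) (Sub.iUn C) := fun f hf =>
  ext_of_compact hY A C hdir f fun i => h i f (hf.mono fun _ _ hx => Set.mem_iUnion.2 ⟨i, hx⟩)

end MM
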