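import Pool.Agent.Lib_MP_33f7bb_d.B1A
import Pool.Agent.Lib_MP_33f7bb_d.A018
import Pool.Agent.Lib_MP_33f7bb_d.A020

/-!
# B1B: closure properties of `Good` ((G1)-(G7) of the blueprint)
-/

namespace MM

variable {Y : SS}

theorem Sub.box_le_bx {P Q : SS} (K' K : Sub Q) (A C : Sub P) : Sub.box K' K A C ≤ Sub.bx K C :=
  fun _ _ hx => hx.1

theorem Sub.box_mono {P Q : SS} {K' K : Sub Q} {A B C : Sub P} (h : A ≤ B) :
    Sub.box K' K A C ≤ Sub.box K' K B C :=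
  fun _ _ hx => ⟨hx.1, hx.2.imp id fun h1 => h _ h1⟩

theorem Sub.box_self {P Q : SS} (K : Sub Q) (A C : Sub P) : Sub.box K K A C = Sub.bx K C :=
  le_antisymm (fun _ _ hx => hx.1) (fun _ _ hx => ⟨hx, Or.inl hx.1⟩)

/-- `Good` pairs: transitivity (G2) -/
theorem Good.trans {P : SS} {A B C : Sub P} (hAB : A ≤ B) (hBC : B ≤ C)
    (h : Good Y A B) (h' : Good Y B C) : Good Y A C := by
  intro k
  refine ExtP.trans (B := Sub.box (bd k) ⊤ B C) (Sub.box_mono hAB) ?_ (h' k)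
  refine ExtP.excise (Sub.box_le_bx _ _ _ _) (Sub.box_mono hAB) ?_ ?_ ?_ (h k)
  · exact fun n x hx => ⟨⟨hx.1, hBC n hx.2⟩, Or.inr hx.2⟩
  · exact fun n x hx => ⟨fun h1 => ⟨hx, h1.2⟩, fun h1 => ⟨⟨hx.1, hBC n hx.2⟩, h1.2⟩⟩
  · intro n y hy hy'
    refine ⟨trivial, ?_⟩
    rcases hy.2 with h1 | h1
    · exact (hy' ⟨hy.1, Or.inl h1⟩).elim
    · exact h1

theorem Good.refl (Y : SS) {P : SS} (A : Sub P) : Good Y A A := by
  intro k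
  have : Sub.box (bd k) ⊤ A A = Sub.bx (⊤ : Sub (Del k)) A :=
    le_antisymm (fun _ _ hx => hx.1) (fun _ _ hx => ⟨hx, Or.inr hx.2⟩)
  rw [this]
  exact ExtP.refl Y _

/-- relative isomorphisms (G3) -/
theorem Good.relIso {P P' : SS} (φ : Hom P P') {A C : Sub P} {A' C' : Sub P'} (hA : A ≤ C)
    (hA' : A' ≤ C') (hmap : ∀ n, ∀ x ∈ C.car n, φ.app n x ∈ C'.car n)
    (hpre : ∀ n, ∀ x ∈ C.car n, (φ.app n x ∈ A'.car n ↔ x ∈ A.car n))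
    (hinj : ∀ n, ∀ x ∈ C.car n, ∀ y ∈ C.car n, x ∉ A.car n → y ∉ A.car n →
      φ.app n x = φ.app n y → x = y)
    (hsurj : ∀ n, ∀ y ∈ C'.car n, y ∉ A'.car n → ∃ x ∈ C.car n, φ.app n x = y)
    (h : Good Y A C) : Good Y A' C' := by
  intro k
  refine ExtP.relIso (Hom.prodMap (Hom.id (Del k)) φ) (Sub.box_le_bx _ _ _ _)
    (Sub.box_le_bx _ _ _ _) ?_ ?_ ?_ ?_ (h k)
  · exact fun n x hx => ⟨trivial, hmap n _ hx.2⟩
  · intro n x hx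
    exact ⟨fun h1 => ⟨hx, h1.2.imp id (hpre n _ hx.2).1⟩,
      fun h1 => ⟨⟨trivial, hmap n _ hx.2⟩, h1.2.imp id (hpre n _ hx.2).2⟩⟩
  · rintro n ⟨x1, x2⟩ hx ⟨y1, y2⟩ hy hxA hyA hxy
    have e1 : x1 = y1 := congrArg Prod.fst hxy
    have e2 : φ.app n x2 = φ.app n y2 := congrArg Prod.snd hxy
    have e3 : x2 = y2 := hinj n x2 hx.2 y2 hy.2 (fun h1 => hxA ⟨hx, Or.inr h1⟩)
      (fun h1 => hyA ⟨hy, Or.inr h1⟩) e2
    rw [e1, e3]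
  · rintro n ⟨y1, y2⟩ hy hyA
    obtain ⟨x, hx, rfl⟩ := hsurj n y2 hy.2 (fun h1 => hyA ⟨hy, Or.inr h1⟩)
    exact ⟨(y1, x), ⟨trivial, hx⟩, rfl⟩

/-- excision in one ambient complex -/
theorem Good.excise {P : SS} {A C A' C' : Sub P} (hA : A ≤ C) (hA' : A' ≤ C')
    (hC : C ≤ C') (hpre : ∀ n, ∀ x ∈ C.car n, (x ∈ A'.car n ↔ x ∈ A.car n))
    (hsurj : ∀ n, ∀ y ∈ C'.car n, y ∉ A'.car n → y ∈ C.car n)
    (h : Good Y A C) : Good Y A' C' :=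
  Good.relIso (Hom.id P) hA hA' (fun n _ hx => hC n hx) hpre (fun _ _ _ _ _ _ _ h => h)
    (fun n y hy hy' => ⟨y, hsurj n y hy hy', rfl⟩) h

/-- isomorphic pairs -/
theorem Good.iso_iff {P P' : SS} (hY : Nonempty (Y.S 0)) (φ : Hom P P') {A C : Sub P}
    {A' C' : Sub P'} (hA : A ≤ C)
    (hA' : A' ≤ C') (hmap : ∀ n, ∀ x ∈ C.car n, φ.app n x ∈ C'.car n)
    (hpre : ∀ n, ∀ x ∈ C.car n, (φ.app n x ∈ A'.car n ↔ x ∈ A.car n))
    (hinj : ∀ n, ∀ x ∈ C.car n, ∀ y ∈ C.car n, φ.app n x = φ.app n y → x = y)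
    (hsurj : ∀ n, ∀ y ∈ C'.car n, ∃ x ∈ C.car n, φ.app n x = y) :
    Good Y A C ↔ Good Y A' C' := by
  refine forall_congr' fun k => ?_
  refine ExtP.iso_iff hY (Hom.prodMap (Hom.id (Del k)) φ) (Sub.box_le_bx _ _ _ _)
    (Sub.box_le_bx _ _ _ _) ?_ ?_ ?_ ?_
  · exact fun n x hx => ⟨trivial, hmap n _ hx.2⟩
  · intro n x hx
    exact ⟨fun h1 => ⟨hx, h1.2.imp id (hpre n _ hx.2).1⟩,
      fun h1 => ⟨⟨trivial, hmap n _ hx.2⟩, h1.2.imp id (hpre n _ hx.2).2⟩⟩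
  · rintro n ⟨x1, x2⟩ hx ⟨y1, y2⟩ hy hxy
    have e1 : x1 = y1 := congrArg Prod.fst hxy
    have e2 : φ.app n x2 = φ.app n y2 := congrArg Prod.snd hxy
    have e3 : x2 = y2 := hinj n x2 hx.2 y2 hy.2 e2
    rw [e1, e3]
  · rintro n ⟨y1, y2⟩ hy
    obtain ⟨x, hx, rfl⟩ := hsurj n y2 hy.2
    exact ⟨(y1, x), ⟨trivial, hx⟩, rfl⟩

/-- good pairs have the extension property in products with arbitrary pairs (G4) -/
theorem Good.ext_box {P Q : SS} {A C : Sub P} (hA : A ≤ C) (h : Good Y A C) {K' K : Sub Q}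
    (hK : K' ≤ K) : ExtP Y (Sub.box K' K A C) (Sub.bx K C) := by
  rw [← Sub.box_self K A C]
  refine ExtP.zorn K' K hK (fun L => Sub.box L K A C) ?_ ?_ ?_
  · exact fun L L' hL n x hx => ⟨hx.1, hx.2.imp (fun h1 => hL n h1) id⟩
  · rintro c ⟨L₀, hL₀⟩ _ n x hx
    rcases hx.2 with ⟨L, hL, hx'⟩ | h1
    · exact ⟨L, hL, hx.1, Or.inl hx'⟩
    · exact ⟨L₀, hL₀, hx.1, Or.inr h1⟩
  · intro L _ hLK n x hxK hxL hnd hface
    have key : ∀ (m : ℕ) (θ : Mo m n), Q.act θ x ∈ L.car m ↔ θ ∈ (bd n).car m := by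
      intro m θ
      constructor
      · intro h1 hs
        exact hxL ((act_mem_iff L θ hs x).1 h1)
      · exact fun h1 => hface m θ h1
    refine ExtP.relIso (Hom.prodMap (SS.yo x) (Hom.id P)) (Sub.box_le_bx (bd n) ⊤ A C)
      ?_ ?_ ?_ ?_ ?_ (h n)
    · exact fun n x hx => ⟨hx.1, hx.2.imp (fun h1 => Or.inl h1) id⟩
    · rintro m ⟨θ, b⟩ hx
      exact ⟨⟨K.closed θ hxK, hx.2⟩, Or.inl (Or.inr ⟨θ, rfl⟩)⟩
    · rintro m ⟨θ, b⟩ hx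
      refine ⟨fun h1 => ⟨hx, h1.2.imp (key m θ).1 id⟩,
        fun h1 => ⟨⟨K.closed θ hxK, hx.2⟩, h1.2.imp (key m θ).2 id⟩⟩
    · rintro m ⟨θ, b⟩ hx ⟨θ', b'⟩ hy hxA hyA hxy
      have e1 : Q.act θ x = Q.act θ' x := congrArg Prod.fst hxy
      have e2 : b = b' := congrArg Prod.snd hxy
      have s1 : Function.Surjective θ := by
        by_contra h1
        exact hxA ⟨hx, Or.inl h1⟩
      have s2 : Function.Surjective θ' := by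
        by_contra h1
        exact hyA ⟨hy, Or.inl h1⟩
      rw [(ez_unique θ θ' x x s1 s2 hnd hnd e1).1, e2]
    · rintro m ⟨y, b⟩ hy hyA
      rcases hy.2 with (h1 | ⟨θ, h1⟩) | h1
      · exact (hyA ⟨hy.1, Or.inl h1⟩).elim
      · have h2 : y = Q.act θ x := h1
        subst h2
        exact ⟨(θ, b), ⟨trivial, hy.1.2⟩, rfl⟩
      · exact (hyA ⟨hy.1, Or.inr h1⟩).elim

/-- good pairs have the extension property -/
theorem Good.extP {P : SS} {A C : Sub P} (hA : A ≤ C) (h : Good Y A C) : ExtP Y A C := by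
  have h1 := h.ext_box hA (Sub.bot_le' (⊤ : Sub PT))
  refine ExtP.relIso (Hom.snd PT P) (Sub.box_le_bx _ _ _ _) hA ?_ ?_ ?_ ?_ h1
  · exact fun n x hx => hx.2
  · exact fun n x hx => ⟨fun h2 => ⟨hx, Or.inr h2⟩, fun h2 => h2.2.elim (fun h3 => h3.elim) id⟩
  · rintro n ⟨x1, x2⟩ _ ⟨y1, y2⟩ _ _ _ hxy
    have e2 : x2 = y2 := hxy
    rw [e2]
  · exact fun n y hy _ => ⟨((), y), ⟨trivial, hy⟩, rfl⟩

/-- products with arbitrary pairs (G7) -/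
theorem Good.box {P Q : SS} {A C : Sub P} (hA : A ≤ C) (h : Good Y A C) {K' K : Sub Q}
    (hK : K' ≤ K) : Good Y (Sub.box K' K A C) (Sub.bx K C) := by
  intro k
  have _ := hK
  have h1 := h.ext_box (Q := (Del k).prod Q) hA (Sub.box_le_bx (bd k) ⊤ K' K)
  refine ExtP.relIso (P := ((Del k).prod Q).prod P) (P' := (Del k).prod (Q.prod P))
    ⟨fun n x => (x.1.1, (x.1.2, x.2)), fun _ _ => rfl⟩ (Sub.box_le_bx _ _ _ _)
    (Sub.box_le_bx _ _ _ _) ?_ ?_ ?_ ?_ h1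
  · exact fun n x hx => ⟨trivial, ⟨hx.1.2, hx.2⟩⟩
  · rintro n ⟨⟨θ, y⟩, x⟩ hx
    constructor
    · rintro ⟨-, h2 | h2⟩
      · exact ⟨hx, Or.inl ⟨⟨trivial, hx.1.2⟩, Or.inl h2⟩⟩
      · exact ⟨hx, h2.2.imp (fun h3 => ⟨⟨trivial, hx.1.2⟩, Or.inr h3⟩) id⟩
    · rintro ⟨-, h2 | h2⟩
      · exact ⟨⟨trivial, hx.1.2, hx.2⟩, h2.2.imp id fun h3 => ⟨⟨hx.1.2, hx.2⟩, Or.inl h3⟩⟩
      · exact ⟨⟨trivial, hx.1.2, hx.2⟩, Or.inr ⟨⟨hx.1.2, hx.2⟩, Or.inr h2⟩⟩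
  · rintro n ⟨⟨θ, y⟩, x⟩ _ ⟨⟨θ', y'⟩, x'⟩ _ _ _ hxy
    have e1 : θ = θ' := congrArg Prod.fst hxy
    have e2 : y = y' := congrArg (fun z => z.2.1) hxy
    have e3 : x = x' := congrArg (fun z => z.2.2) hxy
    rw [e1, e2, e3]
  · rintro n ⟨θ, ⟨y, x⟩⟩ hy _
    exact ⟨((θ, y), x), ⟨⟨trivial, hy.2.1⟩, hy.2.2⟩, rfl⟩

/-- products with arbitrary pairs, other order (G7) -/
theorem Good.box' {P Q : SS} {A C : Sub P} (hA : A ≤ C) (h : Good Y A C) {K' K : Sub Q}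
    (hK : K' ≤ K) : Good Y (Sub.box A C K' K) (Sub.bx C K) := by
  refine Good.relIso (P := Q.prod P) (P' := P.prod Q) ⟨fun n x => (x.2, x.1), fun _ _ => rfl⟩
    (Sub.box_le_bx _ _ _ _) (Sub.box_le_bx _ _ _ _) ?_ ?_ ?_ ?_ (h.box hA hK)
  · exact fun n x hx => ⟨hx.2, hx.1⟩
  · exact fun n x hx => ⟨fun h2 => ⟨hx, h2.2.symm⟩, fun h2 => ⟨⟨hx.2, hx.1⟩, h2.2.symm⟩⟩
  · rintro n ⟨x1, x2⟩ _ ⟨y1, y2⟩ _ _ _ hxy
    have e1 : x2 = y2 := congrArg Prod.fst hxy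
    have e2 : x1 = y1 := congrArg Prod.snd hxy
    rw [e1, e2]
  · exact fun n y hy _ => ⟨(y.2, y.1), ⟨hy.2, hy.1⟩, rfl⟩

section target

variable [∀ n, TopologicalSpace (Y.S n)] (hY : IsTarget Y)

include hY

/-- acyclic pairs are good (G1) -/
theorem Good.of_acyc {P : SS} {A C : Sub P} (hA : A ≤ C) (h : Acyc A C) : Good Y A C :=
  fun k => hY.ext _ _ _ (Sub.box_le_bx _ _ _ _) (acyc_box_right (Sub.le_top' (bd k)) hA h)

theorem hep_aux {P : SS} {A C : Sub P} (hA : A ≤ C) (i : Fin 2) (g : Fn P Y) (hg : NatOn C g)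
    (H : Fn ((Del 1).prod P) Y) (hH : NatOn (Sub.bx ⊤ A) H)
    (h1 : ∀ n, ∀ x ∈ A.car n, H n (cst i, x) = g n x) :
    ∃ H' : Fn ((Del 1).prod P) Y, NatOn (Sub.bx ⊤ C) H' ∧
        (∀ n, ∀ x ∈ (Sub.bx (⊤ : Sub (Del 1)) A).car n, H' n x = H n x) ∧
        ∀ n, ∀ x ∈ C.car n, H' n (cst i, x) = g n x := by
  have hg1 : NatOn (Sub.bx (Sub.pt (P := Del 1) (cst i : Mo 0 1)) C)
      (fun n (x : ((Del 1).prod P).S n) => g n x.2) :=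
    NatOn.comp (A := Sub.bx (Sub.pt (P := Del 1) (cst i : Mo 0 1)) C) hg (Hom.snd (Del 1) P)
      fun n x hx => hx.2
  obtain ⟨F, hF, hF1, hF2⟩ := NatOn.glue (A := Sub.bx ⊤ A)
    (B := Sub.bx (Sub.pt (P := Del 1) (cst i : Mo 0 1)) C)
    (g := fun n (x : ((Del 1).prod P).S n) => g n x.2) hH hg1 (by
    rintro n ⟨τ, x⟩ hx ⟨h3, -⟩
    have h4 : τ = cst i := h3
    subst h4
    exact h1 n x hx.2)
  have hle : Sub.box (Sub.pt (P := Del 1) (cst i : Mo 0 1)) ⊤ A C ≤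
      Sub.bx ⊤ A ⊔ Sub.bx (Sub.pt (P := Del 1) (cst i : Mo 0 1)) C := by
    rintro n ⟨τ, x⟩ ⟨h3, h4 | h4⟩
    · exact Or.inr ⟨h4, h3.2⟩
    · exact Or.inl ⟨trivial, h4⟩
  obtain ⟨H', hH', hH'F⟩ := hY.ext _ _ _ (Sub.box_le_bx _ _ _ _) (acyc_hep hA i) F
    (hF.mono hle)
  refine ⟨H', hH', ?_, ?_⟩
  · intro n x hx
    rw [hH'F n x ⟨⟨trivial, hA n hx.2⟩, Or.inr hx.2⟩, hF1 n x hx]
  · intro n x hx
    rw [hH'F n (cst i, x) ⟨⟨trivial, hx⟩, Or.inl rfl⟩, hF2 n (cst i, x) ⟨rfl, hx⟩]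

omit hY [∀ n, TopologicalSpace (Y.S n)] in
theorem natOn_end {P : SS} {C : Sub P} (i : Fin 2) {H : Fn ((Del 1).prod P) Y}
    (hH : NatOn (Sub.bx ⊤ C) H) : NatOn C (fun n x => H n (cst i, x)) := by
  intro m n k x hx
  exact hH k (cst i, x) ⟨trivial, hx⟩

/-- homotopy extension: `f` on `A` is homotopic on `A` to a map which extends to `C` -/
theorem hep {P : SS} {A C : Sub P} (hA : A ≤ C) (f g : Fn P Y) (hf : NatOn A f) (hg : NatOn C g)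
    (H : Fn ((Del 1).prod P) Y) (hH : NatOn (Sub.bx ⊤ A) H)
    (h0 : ∀ n, ∀ x ∈ A.car n, H n (cst 0, x) = f n x)
    (h1 : ∀ n, ∀ x ∈ A.car n, H n (cst 1, x) = g n x) :
    ∃ g' : Fn P Y, NatOn C g' ∧ (∀ n, ∀ x ∈ A.car n, g' n x = f n x) ∧
      ∃ H' : Fn ((Del 1).prod P) Y, NatOn (Sub.bx ⊤ C) H' ∧
        (∀ n, ∀ x ∈ (Sub.bx (⊤ : Sub (Del 1)) A).car n, H' n x = H n x) ∧
        (∀ n, ∀ x ∈ C.car n, H' n (cst 0, x) = g' n x) ∧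
        ∀ n, ∀ x ∈ C.car n, H' n (cst 1, x) = g n x := by
  obtain ⟨H', hH', h2, h3⟩ := hep_aux hY hA 1 g hg H hH h1
  refine ⟨fun n x => H' n (cst 0, x), natOn_end 0 hH', ?_, H', hH', h2, fun _ _ _ => rfl, h3⟩
  intro n x hx
  show H' n (cst 0, x) = f n x
  rw [h2 n (cst 0, x) ⟨trivial, hx⟩, h0 n x hx]

/-- the same with the ends exchanged -/
theorem hep' {P : SS} {A C : Sub P} (hA : A ≤ C) (f g : Fn P Y) (hf : NatOn A f) (hg : NatOn C g)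
    (H : Fn ((Del 1).prod P) Y) (hH : NatOn (Sub.bx ⊤ A) H)
    (h0 : ∀ n, ∀ x ∈ A.car n, H n (cst 0, x) = g n x)
    (h1 : ∀ n, ∀ x ∈ A.car n, H n (cst 1, x) = f n x) :
    ∃ g' : Fn P Y, NatOn C g' ∧ (∀ n, ∀ x ∈ A.car n, g' n x = f n x) ∧
      ∃ H' : Fn ((Del 1).prod P) Y, NatOn (Sub.bx ⊤ C) H' ∧
        (∀ n, ∀ x ∈ (Sub.bx (⊤ : Sub (Del 1)) A).car n, H' n x = H n x) ∧
        (∀ n, ∀ x ∈ C.car n, H' n (cst 0, x) = g n x) ∧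
        ∀ n, ∀ x ∈ C.car n, H' n (cst 1, x) = g' n x := by
  obtain ⟨H', hH', h2, h3⟩ := hep_aux hY hA 0 g hg H hH h0
  refine ⟨fun n x => H' n (cst 1, x), natOn_end 1 hH', ?_, H', hH', h2, h3, fun _ _ _ => rfl⟩
  intro n x hx
  show H' n (cst 1, x) = f n x
  rw [h2 n (cst 1, x) ⟨trivial, hx⟩, h1 n x hx]

omit hY [∀ n, TopologicalSpace (Y.S n)] in
theorem cst_zero_ne_one (m : ℕ) : (cst 0 : Mo m 1) ≠ cst 1 := by
  intro h5
  have h6 := congrArg (fun z : Mo m 1 => z 0) h5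
  exact absurd (show (0 : Fin 2) = 1 from h6) (by decide)

omit hY [∀ n, TopologicalSpace (Y.S n)] in
theorem mem_bd_one {m : ℕ} (σ : Mo m 1) : σ ∈ (bd 1).car m ↔ σ = cst 0 ∨ σ = cst 1 := by
  have d1 : ∀ a : Fin 2, a ≠ 0 → a = 1 := by decide
  have d2 : ∀ a : Fin 2, a ≠ 1 → a = 0 := by decide
  constructor
  · intro h
    by_contra h1
    rw [not_or] at h1
    apply h
    have e0 : σ 0 = 0 := by
      by_contra h2
      have h3 : σ 0 = 1 := d1 _ h2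
      apply h1.2
      ext i
      have h4 : σ 0 ≤ σ i := σ.monotone (Fin.zero_le i)
      show (σ i : ℕ) = 1
      rw [h3] at h4
      have : σ i ≤ 1 := Fin.le_last _
      have h5 := le_antisymm this h4
      rw [h5]; rfl
    have e1 : ∃ i, σ i = 1 := by
      by_contra h2
      apply h1.1
      ext i
      show (σ i : ℕ) = 0
      have : σ i = 0 := d2 _ fun h3 => h2 ⟨i, h3⟩
      rw [this]; rfl
    intro y
    obtain ⟨i, hi⟩ := e1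
    fin_cases y
    · exact ⟨0, e0⟩
    · exact ⟨i, hi⟩
  · rintro (rfl | rfl) h
    · obtain ⟨i, hi⟩ := h 1
      exact absurd (show (0 : Fin 2) = 1 from hi) (by decide)
    · obtain ⟨i, hi⟩ := h 0
      exact absurd (show (1 : Fin 2) = 0 from hi) (by decide)

/-- (G5), left cancellation -/
theorem Good.of_left {P : SS} {A B C : Sub P} (hAB : A ≤ B) (hBC : B ≤ C) (h : Good Y A B)
    (h' : Good Y A C) : Good Y B C := by
  classical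
  intro k f hf
  have hB'C' := Sub.box_le_bx (bd k) ⊤ B C
  have hA'B' : Sub.box (bd k) ⊤ A C ≤ Sub.box (bd k) ⊤ B C := Sub.box_mono hAB
  obtain ⟨g, hg, hgf⟩ := h' k f (hf.mono hA'B')
  -- the homotopy on `Δ^k × B`
  let F : Fn (((Del 1).prod (Del k)).prod P) Y := fun n q =>
    if q.1.1 = cst 1 then g n (q.1.2, q.2) else f n (q.1.2, q.2)
  have hF1 : ∀ n (θ : Mo n k) (x : P.S n), F n ((cst 1, θ), x) = g n (θ, x) :=
    fun n θ x => if_pos rfl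
  have hF0 : ∀ n (σ : Mo n 1) (θ : Mo n k) (x : P.S n), σ ≠ cst 1 →
      F n ((σ, θ), x) = f n (θ, x) := fun n σ θ x hσ => if_neg hσ
  have hFA : ∀ n (σ : Mo n 1) (θ : Mo n k) (x : P.S n), (θ, x) ∈ (Sub.box (bd k) ⊤ A C).car n →
      F n ((σ, θ), x) = f n (θ, x) := by
    intro n σ θ x hx
    by_cases hσ : σ = cst 1
    · rw [hσ, hF1, hgf n _ hx]
    · exact hF0 n σ θ x hσ
  have hFnat : NatOn (Sub.box (Sub.box (bd 1) ⊤ (bd k) ⊤) ⊤ A B) F := by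
    rintro m n j ⟨⟨σ, θ⟩, x⟩ hx
    by_cases hσ : σ = cst 1
    · subst hσ
      show F m ((cst 1, θ.comp j), P.act j x) = _
      rw [hF1, hF1]
      exact hg j (θ, x) ⟨trivial, hBC n hx.1.2⟩
    · show F m ((σ.comp j, θ.comp j), P.act j x) = _
      have hfx : f m (θ.comp j, P.act j x) = Y.act j (f n (θ, x)) :=
        hf j (θ, x) ⟨⟨trivial, hBC n hx.1.2⟩, Or.inr hx.1.2⟩
      rw [hF0 n σ θ x hσ, ← hfx]
      by_cases hσj : σ.comp j = cst 1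
      · -- then `(θ, x)` is in `A'`
        have hA'x : (θ, x) ∈ (Sub.box (bd k) ⊤ A C).car n := by
          refine ⟨⟨trivial, hBC n hx.1.2⟩, ?_⟩
          rcases hx.2 with h2 | h2
          · rcases h2.2 with h3 | h3
            · rcases (mem_bd_one σ).1 h3 with rfl | h4
              · exfalso
                exact cst_zero_ne_one m hσj
              · exact absurd h4 hσ
            · exact Or.inl h3
          · exact Or.inr h2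
        exact hFA m _ _ _ ((Sub.box (bd k) ⊤ A C).closed j hA'x)
      · exact hF0 m _ _ _ hσj
  obtain ⟨H1, hH1, hH1F⟩ := h.ext_box (Q := (Del 1).prod (Del k)) hAB
    (Sub.le_top' (Sub.box (bd 1) ⊤ (bd k) ⊤)) F hFnat
  let H : Fn ((Del 1).prod ((Del k).prod P)) Y := fun n q =>
    if q.2.2 ∈ B.car n then H1 n ((q.1, q.2.1), q.2.2) else f n q.2
  have hHB : ∀ n (σ : Mo n 1) (θ : Mo n k) (x : P.S n), x ∈ B.car n →
      H n (σ, (θ, x)) = H1 n ((σ, θ), x) := fun n σ θ x hx => if_pos hx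
  have hHbd : ∀ n (σ : Mo n 1) (θ : Mo n k) (x : P.S n), x ∈ C.car n → θ ∈ (bd k).car n →
      H n (σ, (θ, x)) = f n (θ, x) := by
    intro n σ θ x hx hθ
    by_cases hB : x ∈ B.car n
    · rw [hHB n σ θ x hB, hH1F n _ ⟨⟨trivial, hB⟩, Or.inl ⟨⟨trivial, trivial⟩, Or.inr hθ⟩⟩]
      exact hFA n σ θ x ⟨⟨trivial, hx⟩, Or.inl hθ⟩
    · exact if_neg hB
  have hHnat : NatOn (Sub.bx ⊤ (Sub.box (bd k) ⊤ B C)) H := by
    rintro m n j ⟨σ, θ, x⟩ ⟨-, hx⟩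
    show H m (σ.comp j, (θ.comp j, P.act j x)) = _
    by_cases hB : x ∈ B.car n
    · rw [hHB n σ θ x hB, hHB m _ _ _ (B.closed j hB)]
      exact hH1 j ((σ, θ), x) ⟨trivial, hB⟩
    · have hθ : θ ∈ (bd k).car n := hx.2.resolve_right hB
      rw [hHbd n σ θ x hx.1.2 hθ, hHbd m _ _ _ (C.closed j hx.1.2) ((bd k).closed j hθ)]
      exact hf j (θ, x) hx
  obtain ⟨g', hg', hg'f, -⟩ := hep hY hB'C' f g hf hg H hHnat (by
    rintro n ⟨θ, x⟩ hx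
    by_cases hB : x ∈ B.car n
    · rw [hHB n _ θ x hB, hH1F n _ ⟨⟨trivial, hB⟩, Or.inl ⟨⟨trivial, trivial⟩,
        Or.inl ((mem_bd_one _).2 (Or.inl rfl))⟩⟩]
      exact hF0 n _ θ x (cst_zero_ne_one n)
    · exact hHbd n _ θ x hx.1.2 (hx.2.resolve_right hB)) (by
    rintro n ⟨θ, x⟩ hx
    by_cases hB : x ∈ B.car n
    · rw [hHB n _ θ x hB, hH1F n _ ⟨⟨trivial, hB⟩, Or.inl ⟨⟨trivial, trivial⟩,
        Or.inl ((mem_bd_one _).2 (Or.inr rfl))⟩⟩]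
      exact hF1 n θ x
    · have hθ : θ ∈ (bd k).car n := hx.2.resolve_right hB
      rw [hHbd n _ θ x hx.1.2 hθ]
      exact (hgf n _ ⟨hx.1, Or.inl hθ⟩).symm)
  exact ⟨g', hg', hg'f⟩

omit hY [∀ n, TopologicalSpace (Y.S n)] in
/-- (G5), right cancellation -/
theorem Good.of_right {P : SS} {A B C : Sub P} (hAB : A ≤ B) (hBC : B ≤ C) (h : Good Y A C)
    (h' : Good Y B C) : Good Y A B := by
  intro k f hf
  have l1 : Sub.box ⊥ (bd k) B C ≤ Sub.box (bd k) ⊤ A B := fun n x hx =>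
    ⟨⟨trivial, hx.2.resolve_left id⟩, Or.inl hx.1.1⟩
  have l2 : Sub.bx (⊤ : Sub (Del k)) A ≤ Sub.box (bd k) ⊤ A B := fun n x hx =>
    ⟨⟨trivial, hAB n hx.2⟩, Or.inr hx.2⟩
  have l3 : Sub.box (bd k) ⊤ A C ≤ Sub.bx (bd k) C ⊔ Sub.bx (⊤ : Sub (Del k)) A := by
    rintro n x ⟨hx, h4 | h4⟩
    · exact Or.inl ⟨h4, hx.2⟩
    · exact Or.inr ⟨trivial, h4⟩
  have l4 : Sub.bx (⊤ : Sub (Del k)) B ≤ Sub.bx ⊤ C := fun n x hx => ⟨trivial, hBC n hx.2⟩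
  obtain ⟨f1, hf1, hf1f⟩ := h'.ext_box (Q := Del k) hBC (Sub.bot_le' (bd k)) f (hf.mono l1)
  obtain ⟨f2, hf2, h1, h2⟩ := NatOn.glue (A := Sub.bx (bd k) C) (B := Sub.bx ⊤ A) hf1
    (hf.mono l2) (by
      intro n x hx hx'
      exact hf1f n x ⟨hx, Or.inr (hAB n hx'.2)⟩)
  obtain ⟨f3, hf3, h3⟩ := h k f2 (hf2.mono l3)
  refine ⟨f3, hf3.mono l4, ?_⟩
  rintro n x ⟨hx, h4 | h4⟩
  · rw [h3 n x ⟨⟨trivial, hBC n hx.2⟩, Or.inl h4⟩, h1 n x ⟨h4, hBC n hx.2⟩]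
    exact hf1f n x ⟨⟨h4, hBC n hx.2⟩, Or.inr hx.2⟩
  · rw [h3 n x ⟨⟨trivial, hBC n hx.2⟩, Or.inr h4⟩, h2 n x ⟨trivial, h4⟩]

/-- directed unions (G6) -/
theorem Good.iUn {P : SS} {ι : Type} [Nonempty ι] (A C : ι → Sub P)
    (hdir : ∀ i j, ∃ k, A i ≤ A k ∧ A j ≤ A k ∧ C i ≤ C k ∧ C j ≤ C k)
    (h : ∀ i, Good Y (A i) (C i)) : Good Y (Sub.iUn A) (Sub.iUn C) := by
  intro k f hf
  have hle : ∀ i, Sub.box (bd k) ⊤ (A i) (C i) ≤ Sub.box (bd k) ⊤ (Sub.iUn A) (Sub.iUn C) :=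
    fun i n x hx => ⟨⟨trivial, Set.mem_iUnion.2 ⟨i, hx.1.2⟩⟩,
      hx.2.imp id fun h1 => Set.mem_iUnion.2 ⟨i, h1⟩⟩
  obtain ⟨g, hg, hgf⟩ := ext_of_compact hY (fun i => Sub.box (bd k) ⊤ (A i) (C i))
    (fun i => Sub.bx (⊤ : Sub (Del k)) (C i)) (by
      intro i j
      obtain ⟨l, h1, h2, h3, h4⟩ := hdir i j
      exact ⟨l, fun n x hx => ⟨⟨trivial, h3 n hx.1.2⟩, hx.2.imp id fun h5 => h1 n h5⟩,
        fun n x hx => ⟨⟨trivial, h4 n hx.1.2⟩, hx.2.imp id fun h5 => h2 n h5⟩,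
        fun n x hx => ⟨trivial, h3 n hx.2⟩, fun n x hx => ⟨trivial, h4 n hx.2⟩⟩) f
    (fun i => h i k f (hf.mono (hle i)))
  refine ⟨g, hg.mono ?_, ?_⟩
  · intro n x hx
    obtain ⟨i, hi⟩ := Set.mem_iUnion.1 hx.2
    exact Set.mem_iUnion.2 ⟨i, ⟨trivial, hi⟩⟩
  · rintro n x ⟨hx, h1 | h1⟩
    · obtain ⟨i, hi⟩ := Set.mem_iUnion.1 hx.2
      exact hgf n x (Set.mem_iUnion.2 ⟨i, ⟨trivial, hi⟩, Or.inl h1⟩)
    · obtain ⟨i, hi⟩ := Set.mem_iUnion.1 h1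
      obtain ⟨j, hj⟩ := Set.mem_iUnion.1 hx.2
      obtain ⟨l, h2, h3, h4, h5⟩ := hdir i j
      exact hgf n x (Set.mem_iUnion.2 ⟨l, ⟨trivial, h5 n hj⟩, Or.inr (h2 n hi)⟩)

end target

end MM
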