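import Pool.Agent.Lib_MP_33f7bb_d.B1B

/-!
# B1C: `Y`-acyclic simplicial sets, mapping cylinders, stratified maps
((YA1)-(YA4), (STRAT) of the blueprint)
-/

namespace MM

/-- `P` is `Y`-acyclic (at the vertex `p`) -/
def YAc (Y : SS) (P : SS) (p : P.S 0) : Prop := Good Y (Sub.pt p) (⊤ : Sub P)

/-- `p : E → B` is stratified with `Y`-acyclic fibres: over the nondegenerate simplex `b` of `B` the map
`p` looks like the projection `F × Δ^n → Δ^n` as far as the interior of the simplex is concerned -/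
def Strat (Y : SS) {E B : SS} (p : Hom E B) : Prop :=
  ∀ (n : ℕ) (b : B.S n), NonDeg b → ∃ (F : SS) (x : F.S 0) (Φ : Hom (F.prod (Del n)) E),
    YAc Y F x ∧ (∀ (m : ℕ) (y : F.S m) (α : Mo m n), p.app m (Φ.app m (y, α)) = B.act α b) ∧
    ∀ (m : ℕ) (α : Mo m n), Function.Surjective α → ∀ e : E.S m, p.app m e = B.act α b →
      ∃! y : F.S m, Φ.app m (y, α) = e

/-- the mapping cylinder of `p : E → B`: `E` at `0`, `B` at `1` -/
noncomputable def Cyl {E B : SS} (p : Hom E B) : SS := by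
  classical
  exact
  { S := fun n => ({τ : Mo n 1 // τ ≠ cst 1} × E.S n) ⊕ B.S n
    act := fun {m n} f x => match x with
      | Sum.inl y => if h : y.1.1.comp f = cst 1 then Sum.inr (p.app m (E.act f y.2))
          else Sum.inl (⟨y.1.1.comp f, h⟩, E.act f y.2)
      | Sum.inr b => Sum.inr (B.act f b)
    act_id := by
      rintro n (⟨⟨τ, hτ⟩, e⟩ | b)
      · have h : ¬ τ.comp (OrderHom.id : Mo n n) = cst 1 := hτ
        simp only [dif_neg h, E.act_id]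
        rfl
      · simp only [B.act_id]
    act_comp := by
      rintro l m n f g (⟨⟨τ, hτ⟩, e⟩ | b)
      · by_cases h : τ.comp g = cst 1
        · have h' : τ.comp (g.comp f) = cst 1 := by
            have : τ.comp (g.comp f) = (τ.comp g).comp f := rfl
            rw [this, h]; rfl
          simp only [dif_pos h, dif_pos h', p.nat, B.act_comp]
        · by_cases h' : τ.comp (g.comp f) = cst 1
          · have h'' : (τ.comp g).comp f = cst 1 := h'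
            simp only [dif_neg h, dif_pos h', dif_pos h'', E.act_comp]
          · have h'' : ¬ (τ.comp g).comp f = cst 1 := h'
            simp only [dif_neg h, dif_neg h', dif_neg h'', E.act_comp]
            rfl
      · simp only [B.act_comp] }

/-- the simplex `(τ, e)` of the cylinder (`p e` if `τ` is constant `1`) -/
noncomputable def Cyl.mk {E B : SS} (p : Hom E B) {n : ℕ} (τ : Mo n 1) (e : E.S n) :
    (Cyl p).S n := by
  classical
  exact if h : τ = cst 1 then Sum.inr (p.app n e) else Sum.inl (⟨τ, h⟩, e)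

theorem Cyl.act_inl_pos {E B : SS} (p : Hom E B) {m n : ℕ} (f : Mo m n)
    (y : {τ : Mo n 1 // τ ≠ cst 1} × E.S n) (h : y.1.1.comp f = cst 1) :
    (Cyl p).act f (Sum.inl y : (Cyl p).S n) = (Sum.inr (p.app m (E.act f y.2)) : (Cyl p).S m) :=
  dif_pos h

theorem Cyl.act_inl_neg {E B : SS} (p : Hom E B) {m n : ℕ} (f : Mo m n)
    (y : {τ : Mo n 1 // τ ≠ cst 1} × E.S n) (h : y.1.1.comp f ≠ cst 1) :
    (Cyl p).act f (Sum.inl y : (Cyl p).S n) =
      (Sum.inl (⟨y.1.1.comp f, h⟩, E.act f y.2) : (Cyl p).S m) :=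
  dif_neg h

theorem Cyl.act_inr {E B : SS} (p : Hom E B) {m n : ℕ} (f : Mo m n) (b : B.S n) :
    (Cyl p).act f (Sum.inr b : (Cyl p).S n) = (Sum.inr (B.act f b) : (Cyl p).S m) := rfl

theorem Cyl.mk_one {E B : SS} (p : Hom E B) {n : ℕ} (e : E.S n) :
    Cyl.mk p (cst 1) e = (Sum.inr (p.app n e) : (Cyl p).S n) := dif_pos rfl

theorem Cyl.mk_of_ne {E B : SS} (p : Hom E B) {n : ℕ} (τ : Mo n 1) (h : τ ≠ cst 1) (e : E.S n) :
    Cyl.mk p τ e = (Sum.inl (⟨τ, h⟩, e) : (Cyl p).S n) := dif_neg h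

theorem Cyl.act_mk {E B : SS} (p : Hom E B) {m n : ℕ} (f : Mo m n) (τ : Mo n 1) (e : E.S n) :
    (Cyl p).act f (Cyl.mk p τ e) = Cyl.mk p (τ.comp f) (E.act f e) := by
  by_cases h : τ = cst 1
  · subst h
    rw [Cyl.mk_one, Cyl.act_inr, cst_comp, Cyl.mk_one, p.nat]
  · rw [Cyl.mk_of_ne p τ h]
    by_cases h' : τ.comp f = cst 1
    · rw [Cyl.act_inl_pos p f _ h', h', Cyl.mk_one]
    · rw [Cyl.act_inl_neg p f _ h', Cyl.mk_of_ne p _ h']

/-- the inclusion of `E` (at `0`) -/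
noncomputable def Cyl.i0 {E B : SS} (p : Hom E B) : Hom E (Cyl p) where
  app n e := Cyl.mk p (cst 0) e
  nat f x := by
    rw [Cyl.act_mk, cst_comp]

/-- the inclusion of `B` (at `1`) -/
def Cyl.i1 {E B : SS} (p : Hom E B) : Hom B (Cyl p) where
  app n b := Sum.inr b
  nat f x := rfl

theorem Cyl.cases {E B : SS} (p : Hom E B) {n : ℕ} (x : (Cyl p).S n) :
    (∃ (τ : Mo n 1) (_ : τ ≠ cst 1) (e : E.S n), x = Cyl.mk p τ e) ∨
      ∃ b, x = (Cyl.i1 p).app n b := by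
  rcases x with ⟨⟨τ, h⟩, e⟩ | b
  · exact Or.inl ⟨τ, h, e, (Cyl.mk_of_ne p τ h e).symm⟩
  · exact Or.inr ⟨b, rfl⟩

theorem Cyl.mk_inj {E B : SS} (p : Hom E B) {n : ℕ} {τ τ' : Mo n 1} {e e' : E.S n}
    (h : τ ≠ cst 1) (hh : Cyl.mk p τ e = Cyl.mk p τ' e') : τ = τ' ∧ e = e' := by
  rw [Cyl.mk_of_ne p τ h] at hh
  by_cases h' : τ' = cst 1
  · subst h'
    rw [Cyl.mk_one] at hh
    exact absurd (show (Sum.inl (⟨τ, h⟩, e) : ({τ : Mo n 1 // τ ≠ cst 1} × E.S n) ⊕ B.S n) =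
      Sum.inr (p.app n e') from hh) (by simp)
  · rw [Cyl.mk_of_ne p τ' h'] at hh
    have h2 : (⟨τ, h⟩, e) = ((⟨τ', h'⟩, e') : {τ : Mo n 1 // τ ≠ cst 1} × E.S n) :=
      Sum.inl.inj (show (Sum.inl (⟨τ, h⟩, e) : ({τ : Mo n 1 // τ ≠ cst 1} × E.S n) ⊕ B.S n) =
      Sum.inl (⟨τ', h'⟩, e') from hh)
    exact ⟨congrArg (fun z => z.1.1) h2, congrArg Prod.snd h2⟩

theorem Cyl.mk_ne_i1 {E B : SS} (p : Hom E B) {n : ℕ} {τ : Mo n 1} {e : E.S n} {b : B.S n}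
    (h : τ ≠ cst 1) : Cyl.mk p τ e ≠ (Cyl.i1 p).app n b := by
  intro hh
  rw [Cyl.mk_of_ne p τ h] at hh
  exact absurd (show (Sum.inl (⟨τ, h⟩, e) : ({τ : Mo n 1 // τ ≠ cst 1} × E.S n) ⊕ B.S n) =
      Sum.inr b from hh) (by simp)

theorem Cyl.i1_inj {E B : SS} (p : Hom E B) {n : ℕ} {b b' : B.S n}
    (h : (Cyl.i1 p).app n b = (Cyl.i1 p).app n b') : b = b' :=
  Sum.inr.inj (show (Sum.inr b : ({τ : Mo n 1 // τ ≠ cst 1} × E.S n) ⊕ B.S n) = Sum.inr b' from h)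

/-- maps out of the cylinder times a simplicial set, defined by cases -/
theorem Cyl.exists_hom {E B K X : SS} (p : Hom E B) (u : ∀ n, Mo n 1 → E.S n → K.S n → X.S n)
    (v : Hom (B.prod K) X)
    (hu : ∀ {m n : ℕ} (f : Mo m n) (τ : Mo n 1) (e : E.S n) (t : K.S n),
      u m (τ.comp f) (E.act f e) (K.act f t) = X.act f (u n τ e t))
    (huv : ∀ n (e : E.S n) (t : K.S n), u n (cst 1) e t = v.app n (p.app n e, t)) :
    ∃ w : Hom (K.prod (Cyl p)) X, (∀ n τ e t, w.app n (t, Cyl.mk p τ e) = u n τ e t) ∧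
      ∀ n b t, w.app n (t, (Cyl.i1 p).app n b) = v.app n (b, t) := by
  let w0 : ∀ n, (K.prod (Cyl p)).S n → X.S n := fun n x =>
    match (x.2 : ({τ : Mo n 1 // τ ≠ cst 1} × E.S n) ⊕ B.S n) with
    | Sum.inl y => u n y.1.1 y.2 x.1
    | Sum.inr b => v.app n (b, x.1)
  have h1 : ∀ n τ e t, w0 n (t, Cyl.mk p τ e) = u n τ e t := by
    intro n τ e t
    by_cases h : τ = cst 1
    · subst h
      rw [Cyl.mk_one, huv]
    · rw [Cyl.mk_of_ne p τ h]
  have h2 : ∀ n b t, w0 n (t, (Cyl.i1 p).app n b) = v.app n (b, t) := fun n b t => rfl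
  refine ⟨⟨w0, ?_⟩, h1, h2⟩
  rintro m n f ⟨t, x⟩
  show w0 m (K.act f t, (Cyl p).act f x) = _
  rcases Cyl.cases p x with ⟨τ, -, e, rfl⟩ | ⟨b, rfl⟩
  · rw [Cyl.act_mk, h1, h1, hu]
  · rw [← (Cyl.i1 p).nat, h2, h2, ← v.nat]

/-- `E → Cyl` is good -/
def YE (Y : SS) {E B : SS} (p : Hom E B) : Prop :=
  Good Y (Sub.map (Cyl.i0 p) ⊤) (⊤ : Sub (Cyl p))

section target

variable {Y : SS} [∀ n, TopologicalSpace (Y.S n)] (hY : IsTarget Y)

include hY

/-- (YA1) -/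
theorem YAc.of_acyc {P : SS} {p : P.S 0} (h : Acyc (Sub.pt p) (⊤ : Sub P)) : YAc Y P p :=
  Good.of_acyc hY (Sub.le_top' _) h

/-- invariance under isomorphism -/
theorem YAc.iso_iff {P P' : SS} (φ : Hom P P') (hφ : ∀ n, Function.Bijective (φ.app n))
    (p : P.S 0) : YAc Y P p ↔ YAc Y P' (φ.app 0 p) := by
  refine Good.iso_iff hY.nonempty φ (Sub.le_top' _) (Sub.le_top' _) (fun _ _ _ => trivial) ?_
    (fun n x _ y _ h => (hφ n).1 h) (fun n y _ => by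
      obtain ⟨x, hx⟩ := (hφ n).2 y
      exact ⟨x, trivial, hx⟩)
  intro n x _
  constructor
  · intro h
    exact (hφ n).1 ((show φ.app n x = P'.act (cst 0) (φ.app 0 p) from h).trans
      (φ.nat (cst 0) p).symm)
  · intro h
    exact (congrArg (φ.app n) (show x = P.act (cst 0) p from h)).trans (φ.nat (cst 0) p)

/-- a subcomplex and its underlying simplicial set -/
theorem YAc.ss_iff {P : SS} (C : Sub P) (p : P.S 0) (hp : p ∈ C.car 0) :
    YAc Y C.ss ⟨p, hp⟩ ↔ Good Y (Sub.pt p) C := by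
  refine Good.iso_iff hY.nonempty C.incl (Sub.le_top' _) ?_ (fun _ x _ => x.2) ?_
    (fun n x _ y _ h => Subtype.ext h) (fun n y hy => ⟨⟨y, hy⟩, trivial, rfl⟩)
  · rintro n x rfl
    exact C.closed _ hp
  · intro n x _
    constructor
    · exact fun h => Subtype.ext h
    · exact fun h => congrArg Subtype.val (show x = C.ss.deg ⟨p, hp⟩ n from h)

/-- (YA4) and more: subcomplexes with acyclic (or only good) pair -/
theorem YAc.sub_iff {P : SS} (C : Sub P) (p : P.S 0) (hp : p ∈ C.car 0) (h : Good Y C ⊤) :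
    YAc Y C.ss ⟨p, hp⟩ ↔ YAc Y P p := by
  have hpC : Sub.pt p ≤ C := by
    rintro n x rfl
    exact C.closed _ hp
  rw [YAc.ss_iff hY C p hp]
  exact ⟨fun h1 => h1.trans hpC (Sub.le_top' _) h, fun h1 => h1.of_right hpC (Sub.le_top' _) h⟩

/-- directed unions -/
theorem YAc.iUn {P : SS} {ι : Type} [Nonempty ι] (C : ι → Sub P)
    (hdir : ∀ i j, ∃ k, C i ≤ C k ∧ C j ≤ C k) (p : P.S 0) (hp : ∀ i, p ∈ (C i).car 0)
    (hall : ∀ n (x : P.S n), ∃ i, x ∈ (C i).car n)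
    (h : ∀ i, YAc Y (C i).ss ⟨p, hp i⟩) : YAc Y P p := by
  have h1 := Good.iUn hY (fun _ : ι => Sub.pt p) C (fun i j => by
    obtain ⟨k, h2, h3⟩ := hdir i j
    exact ⟨k, le_rfl, le_rfl, h2, h3⟩) (fun i => (YAc.ss_iff hY (C i) p (hp i)).1 (h i))
  have e1 : Sub.iUn (fun _ : ι => Sub.pt p) = Sub.pt p := by
    refine le_antisymm ?_ ?_
    · intro n x hx
      obtain ⟨i, hi⟩ := Set.mem_iUnion.1 hx
      exact hi
    · intro n x hx
      exact Set.mem_iUnion.2 ⟨Classical.arbitrary ι, hx⟩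
  have e2 : Sub.iUn C = ⊤ := by
    refine le_antisymm (Sub.le_top' _) ?_
    intro n x _
    obtain ⟨i, hi⟩ := hall n x
    exact Set.mem_iUnion.2 ⟨i, hi⟩
  rwa [e1, e2] at h1

/-- (YA3) -/
theorem YAc.of_seq {P : SS} (p : P.S 0) (C : ℕ → Sub P) (hmono : ∀ i, C i ≤ C (i + 1))
    (hp : ∀ i, p ∈ (C i).car 0) (hall : ∀ n (x : P.S n), ∃ i, x ∈ (C i).car n)
    (h : ∀ i, ∃ (Q : SS) (q : Q.S 0) (j : Hom (C i).ss Q) (r : Hom Q P), YAc Y Q q ∧
      j.app 0 ⟨p, hp i⟩ = q ∧ r.app 0 q = p ∧ (∀ n x, r.app n x ∈ (C (i + 1)).car n) ∧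
      ∀ n (x : (C i).ss.S n), r.app n (j.app n x) = x.1) : YAc Y P p := by
  classical
  intro k f hf
  have hC : Monotone C := monotone_nat_of_le_succ hmono
  obtain ⟨g, hg, hgf⟩ := ext_of_compact hY
    (fun i => Sub.box (bd k) ⊤ (Sub.pt p) (C i ⊔ Sub.pt p))
    (fun i => Sub.bx (⊤ : Sub (Del k)) (C i)) (by
      intro i j
      refine ⟨max i j, ?_, ?_, ?_, ?_⟩
      · exact fun n x hx => ⟨⟨trivial, hx.1.2.imp (fun h1 => hC (le_max_left i j) n h1) id⟩, hx.2⟩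
      · exact fun n x hx => ⟨⟨trivial, hx.1.2.imp (fun h1 => hC (le_max_right i j) n h1) id⟩, hx.2⟩
      · exact fun n x hx => ⟨trivial, hC (le_max_left i j) n hx.2⟩
      · exact fun n x hx => ⟨trivial, hC (le_max_right i j) n hx.2⟩) f (by
    intro i
    obtain ⟨Q, q, j, r, hQ, hj, hr, -, hrj⟩ := h i
    have hrd : ∀ n, r.app n (Q.deg q n) = P.deg p n := by
      intro n
      show r.app n (Q.act (cst 0) q) = P.act (cst 0) p
      rw [r.nat, hr]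
    have hf' : NatOn (Sub.box (bd k) ⊤ (Sub.pt q) ⊤)
        (fun n (x : ((Del k).prod Q).S n) => f n (x.1, r.app n x.2)) := by
      refine NatOn.comp hf (Hom.prodMap (Hom.id (Del k)) r) ?_
      rintro n ⟨θ, x⟩ ⟨-, h1 | h1⟩
      · exact ⟨⟨trivial, trivial⟩, Or.inl h1⟩
      · refine ⟨⟨trivial, trivial⟩, Or.inr ?_⟩
        have h2 : x = Q.deg q n := h1
        subst h2
        exact hrd n
    obtain ⟨g, hg, hgf⟩ := hQ k (fun n (x : ((Del k).prod Q).S n) => f n (x.1, r.app n x.2)) hf'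
    have hjd : ∀ n (hx : P.deg p n ∈ (C i).car n), j.app n ⟨P.deg p n, hx⟩ = Q.deg q n := by
      intro n hx
      have := j.nat (cst 0 : Mo n 0) ⟨p, hp i⟩
      rw [hj] at this
      exact this
    refine ⟨fun n x => if hx : x.2 ∈ (C i).car n then g n (x.1, j.app n ⟨x.2, hx⟩) else f n x,
      ?_, ?_⟩
    · rintro m n l ⟨θ, x⟩ ⟨-, hx⟩
      have hx' : P.act l x ∈ (C i).car m := (C i).closed l hx
      show (if hx : P.act l x ∈ (C i).car m then g m (θ.comp l, j.app m ⟨P.act l x, hx⟩)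
        else _) = Y.act l (if hx : x ∈ (C i).car n then g n (θ, j.app n ⟨x, hx⟩) else _)
      rw [dif_pos hx, dif_pos hx']
      have h1 := j.nat l ⟨x, hx⟩
      have h2 : j.app m ⟨P.act l x, hx'⟩ = Q.act l (j.app n ⟨x, hx⟩) := h1
      rw [h2]
      exact hg l (θ, j.app n ⟨x, hx⟩) ⟨trivial, trivial⟩
    · rintro n ⟨θ, x⟩ ⟨hx, h1⟩
      by_cases hxC : x ∈ (C i).car n
      · show (if hx : x ∈ (C i).car n then g n (θ, j.app n ⟨x, hx⟩) else _) = _
        rw [dif_pos hxC]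
        rcases h1 with h1 | h1
        · rw [hgf n (θ, j.app n ⟨x, hxC⟩) ⟨⟨trivial, trivial⟩, Or.inl h1⟩]
          show f n (θ, r.app n (j.app n ⟨x, hxC⟩)) = _
          rw [hrj]
        · have h2 : x = P.deg p n := h1
          subst h2
          rw [hjd n hxC, hgf n (θ, Q.deg q n) ⟨⟨trivial, trivial⟩, Or.inr rfl⟩]
          show f n (θ, r.app n (Q.deg q n)) = _
          rw [hrd]
      · exact dif_neg hxC)
  refine ⟨g, hg.mono ?_, ?_⟩
  · intro n x _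
    obtain ⟨i, hi⟩ := hall n x.2
    exact Set.mem_iUnion.2 ⟨i, trivial, hi⟩
  · rintro n x ⟨-, hx⟩
    obtain ⟨i, hi⟩ := hall n x.2
    exact hgf n x (Set.mem_iUnion.2 ⟨i, ⟨trivial, Or.inl hi⟩, hx⟩)

/-- the point -/
theorem YAc.point : YAc Y PT () := by
  have h : Sub.pt (P := PT) () = ⊤ := le_antisymm (Sub.le_top' _) (fun n x _ => rfl)
  show Good Y _ _
  rw [h]
  exact Good.refl Y _

/-- products -/
theorem YAc.prod {P Q : SS} {p : P.S 0} {q : Q.S 0} (hP : YAc Y P p) (hQ : YAc Y Q q) :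
    YAc Y (P.prod Q) (p, q) := by
  have h1 := Good.box' (Sub.le_top' _) hP (Sub.bot_le' (⊤ : Sub Q))
  have h2 := Good.box (Sub.le_top' _) hQ (Sub.bot_le' (Sub.pt p))
  have e1 : Sub.box (Sub.pt p) ⊤ ⊥ (⊤ : Sub Q) = Sub.bx (Sub.pt p) ⊤ :=
    le_antisymm (fun n x hx => ⟨hx.2.resolve_right id, trivial⟩)
      (fun n x hx => ⟨⟨trivial, trivial⟩, Or.inl hx.1⟩)
  have e2 : Sub.box ⊥ (Sub.pt p) (Sub.pt q) ⊤ = Sub.pt (P := P.prod Q) (p, q) := by
    refine le_antisymm ?_ ?_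
    · rintro n ⟨x, y⟩ ⟨hx, hy⟩
      have h3 : x = P.deg p n := hx.1
      have h4 : y = Q.deg q n := hy.resolve_left id
      subst h3; subst h4
      rfl
    · rintro n x rfl
      exact ⟨⟨rfl, trivial⟩, Or.inr rfl⟩
  have e3 : Sub.bx (⊤ : Sub P) (⊤ : Sub Q) = ⊤ :=
    le_antisymm (Sub.le_top' _) (fun n x _ => ⟨trivial, trivial⟩)
  rw [e1, e3] at h1
  rw [e2] at h2
  refine h2.trans ?_ (Sub.le_top' _) h1
  rintro n x rfl
  exact ⟨rfl, trivial⟩

/-- `(Cyl, B)` is acyclic -/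
theorem Cyl.good_i1 {E B : SS} (p : Hom E B) :
    Good Y (Sub.map (Cyl.i1 p) ⊤) (⊤ : Sub (Cyl p)) := by
  have hsup : ∀ {n : ℕ} (σ : Mo n 1), σ ⊔ cst 1 = cst 1 := by
    intro n σ
    ext i
    show ((σ i ⊔ (1 : Fin 2) : Fin 2) : ℕ) = 1
    have : ∀ a : Fin 2, ((a ⊔ 1 : Fin 2) : ℕ) = 1 := by decide
    exact this _
  have hsup' : ∀ {n : ℕ} (σ : Mo n 1), cst 1 ⊔ σ = cst 1 := fun σ => by rw [sup_comm, hsup]
  have hsup0 : ∀ {n : ℕ} (σ : Mo n 1), cst 0 ⊔ σ = σ := by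
    intro n σ
    ext i
    show (((0 : Fin 2) ⊔ σ i : Fin 2) : ℕ) = (σ i : ℕ)
    have : ∀ a : Fin 2, ((0 ⊔ a : Fin 2) : ℕ) = a := by decide
    exact this _
  obtain ⟨w, hw1, hw2⟩ := Cyl.exists_hom (K := Del 1) (X := Cyl p) p
    (fun n τ e (σ : Mo n 1) => Cyl.mk p (σ ⊔ τ) e) ((Cyl.i1 p).comp (Hom.fst B (Del 1)))
    (by
      intro m n f τ e σ
      rw [Cyl.act_mk]
      rfl)
    (by
      intro n e σ
      show Cyl.mk p (σ ⊔ cst 1) e = _
      rw [hsup, Cyl.mk_one]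
      rfl)
  have hw2' : ∀ n b (σ : Mo n 1), w.app n (σ, (Cyl.i1 p).app n b) = (Cyl.i1 p).app n b :=
    fun n b σ => hw2 n b σ
  have hin : ∀ n (b : B.S n), (Cyl.i1 p).app n b ∈ (Sub.map (Cyl.i1 p) ⊤).car n :=
    fun n b => ⟨b, trivial, rfl⟩
  refine Good.of_acyc hY (Sub.le_top' _) (acyc_of_deformation (Sub.le_top' _) w ?_ ?_
    (fun _ _ _ _ => trivial) ?_)
  · intro n x _
    rcases Cyl.cases p x with ⟨τ, -, e, rfl⟩ | ⟨b, rfl⟩
    · rw [hw1 n τ e (cst 0 : Mo n 1), hsup0]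
    · rw [hw2']
  · intro n x _
    rcases Cyl.cases p x with ⟨τ, -, e, rfl⟩ | ⟨b, rfl⟩
    · rw [hw1 n τ e (cst 1 : Mo n 1), hsup', Cyl.mk_one]
      exact hin n _
    · rw [hw2']
      exact hin n b
  · rintro n σ x ⟨b, -, rfl⟩
    rw [hw2']
    exact hin n b

/-- the segment from `e` to `p e` -/
theorem Cyl.segment {E B : SS} (p : Hom E B) (e : E.S 0) :
    ∃ I : Sub (Cyl p), Sub.pt ((Cyl.i0 p).app 0 e) ≤ I ∧ Sub.pt ((Cyl.i1 p).app 0 (p.app 0 e)) ≤ I ∧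
      Good Y (Sub.pt ((Cyl.i0 p).app 0 e)) I ∧
      Good Y (Sub.pt ((Cyl.i1 p).app 0 (p.app 0 e))) I := by
  let seg : Hom (Del 1) (Cyl p) := ⟨fun n τ => Cyl.mk p τ (E.deg e n), fun {m n} f τ => by
    show Cyl.mk p (τ.comp f) (E.deg e m) = _
    rw [Cyl.act_mk]
    show _ = Cyl.mk p (τ.comp f) (E.act f (E.act (cst 0) e))
    rw [E.act_comp]
    rfl⟩
  have hinj : ∀ n (τ τ' : Mo n 1), seg.app n τ = seg.app n τ' → τ = τ' := by
    intro n τ τ' h
    by_cases h1 : τ = cst 1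
    · by_cases h2 : τ' = cst 1
      · rw [h1, h2]
      · exact ((Cyl.mk_inj p h2 (show Cyl.mk p τ' _ = Cyl.mk p τ _ from h.symm)).1).symm
    · exact (Cyl.mk_inj p h1 (show Cyl.mk p τ _ = Cyl.mk p τ' _ from h)).1
  have hd0 : ∀ n, (Cyl p).deg ((Cyl.i0 p).app 0 e) n = seg.app n (cst 0 : Mo n 1) := by
    intro n
    show (Cyl p).act (cst 0) (Cyl.mk p (cst 0) e) = Cyl.mk p (cst 0) (E.act (cst 0) e)
    rw [Cyl.act_mk]; rfl
  have hd1 : ∀ n, (Cyl p).deg ((Cyl.i1 p).app 0 (p.app 0 e)) n = seg.app n (cst 1 : Mo n 1) := by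
    intro n
    show (Cyl p).act (cst 0) ((Cyl.i1 p).app 0 (p.app 0 e)) = Cyl.mk p (cst 1) (E.act (cst 0) e)
    rw [Cyl.mk_one, p.nat]
    rfl
  have key : ∀ (i : Fin 2) (q : (Cyl p).S 0), (∀ n, (Cyl p).deg q n = seg.app n (cst i : Mo n 1)) →
      Sub.pt q ≤ Sub.map seg ⊤ ∧ Good Y (Sub.pt q) (Sub.map seg ⊤) := by
    intro i q hq
    have hle : Sub.pt q ≤ Sub.map seg ⊤ := by
      rintro n x rfl
      exact ⟨(cst i : Mo n 1), trivial, (hq n).symm⟩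
    refine ⟨hle, Good.relIso seg (Sub.le_top' (Sub.pt (P := Del 1) (cst i : Mo 0 1))) hle
      (fun n x _ => ⟨x, trivial, rfl⟩) ?_ (fun n x _ y _ _ _ h => hinj n x y h)
      (fun n y hy _ => hy)
      (Good.of_acyc hY (Sub.le_top' _) (acyc_Del_pt 1 i))⟩
    intro n τ _
    constructor
    · intro h
      exact hinj n _ _ ((show seg.app n τ = (Cyl p).deg q n from h).trans (hq n))
    · intro h
      have h2 : τ = cst i := h
      subst h2
      exact (hq n).symm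
  exact ⟨Sub.map seg ⊤, (key 0 _ hd0).1, (key 1 _ hd1).1, (key 0 _ hd0).2, (key 1 _ hd1).2⟩

theorem Cyl.base_change {E B : SS} (p : Hom E B) (e : E.S 0) :
    Good Y (Sub.pt ((Cyl.i0 p).app 0 e)) ⊤ ↔
      Good Y (Sub.pt ((Cyl.i1 p).app 0 (p.app 0 e))) ⊤ := by
  obtain ⟨I, h0, h1, g0, g1⟩ := Cyl.segment hY p e
  constructor
  · intro h
    exact g1.trans h1 (Sub.le_top' _) (Good.of_left hY h0 (Sub.le_top' _) g0 h)
  · intro h
    exact g0.trans h0 (Sub.le_top' _) (Good.of_left hY h1 (Sub.le_top' _) g1 h)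

theorem Cyl.pt_le_i0 {E B : SS} (p : Hom E B) (e : E.S 0) :
    Sub.pt ((Cyl.i0 p).app 0 e) ≤ Sub.map (Cyl.i0 p) ⊤ := by
  rintro n x rfl
  exact ⟨E.deg e n, trivial, (Cyl.i0 p).nat _ _⟩

theorem Cyl.pt_le_i1 {E B : SS} (p : Hom E B) (b : B.S 0) :
    Sub.pt ((Cyl.i1 p).app 0 b) ≤ Sub.map (Cyl.i1 p) ⊤ := by
  rintro n x rfl
  exact ⟨B.deg b n, trivial, (Cyl.i1 p).nat _ _⟩

theorem Cyl.i0_inj {E B : SS} (p : Hom E B) {n : ℕ} {e e' : E.S n}
    (h : (Cyl.i0 p).app n e = (Cyl.i0 p).app n e') : e = e' :=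
  (Cyl.mk_inj p (cst_zero_ne_one n) (show Cyl.mk p (cst 0) e = Cyl.mk p (cst 0) e' from h)).2

theorem Cyl.yac_i0 {E B : SS} (p : Hom E B) (e : E.S 0) :
    YAc Y E e ↔ Good Y (Sub.pt ((Cyl.i0 p).app 0 e)) (Sub.map (Cyl.i0 p) ⊤) := by
  refine Good.iso_iff hY.nonempty (Cyl.i0 p) (Sub.le_top' _) (Cyl.pt_le_i0 hY p e)
    (fun n x _ => ⟨x, trivial, rfl⟩) ?_ (fun n x _ y _ h => Cyl.i0_inj hY p h) (fun n y hy => hy)
  intro n x _
  constructor
  · intro h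
    exact Cyl.i0_inj hY p ((show (Cyl.i0 p).app n x = (Cyl p).act (cst 0) ((Cyl.i0 p).app 0 e) from
      h).trans ((Cyl.i0 p).nat (cst 0) e).symm)
  · intro h
    exact (congrArg ((Cyl.i0 p).app n) (show x = E.act (cst 0) e from h)).trans
      ((Cyl.i0 p).nat (cst 0) e)

theorem Cyl.yac_i1 {E B : SS} (p : Hom E B) (b : B.S 0) :
    YAc Y B b ↔ Good Y (Sub.pt ((Cyl.i1 p).app 0 b)) (Sub.map (Cyl.i1 p) ⊤) := by
  refine Good.iso_iff hY.nonempty (Cyl.i1 p) (Sub.le_top' _) (Cyl.pt_le_i1 hY p b)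
    (fun n x _ => ⟨x, trivial, rfl⟩) ?_ (fun n x _ y _ h => Cyl.i1_inj p h) (fun n y hy => hy)
  intro n x _
  constructor
  · intro h
    exact Cyl.i1_inj p ((show (Cyl.i1 p).app n x = (Cyl p).act (cst 0) ((Cyl.i1 p).app 0 b) from
      h).trans ((Cyl.i1 p).nat (cst 0) b).symm)
  · intro h
    exact (congrArg ((Cyl.i1 p).app n) (show x = B.act (cst 0) b from h)).trans
      ((Cyl.i1 p).nat (cst 0) b)

/-- (YA2) -/
theorem YE.yac_iff {E B : SS} {p : Hom E B} (h : YE Y p) (e : E.S 0) :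
    YAc Y E e ↔ YAc Y B (p.app 0 e) := by
  rw [Cyl.yac_i0 hY p e, Cyl.yac_i1 hY p (p.app 0 e)]
  constructor
  · intro h1
    have h2 := (Cyl.base_change hY p e).1 (h1.trans (Cyl.pt_le_i0 hY p e) (Sub.le_top' _) h)
    exact h2.of_right (Cyl.pt_le_i1 hY p _) (Sub.le_top' _) (Cyl.good_i1 hY p)
  · intro h1
    have h2 := (Cyl.base_change hY p e).2
      (h1.trans (Cyl.pt_le_i1 hY p _) (Sub.le_top' _) (Cyl.good_i1 hY p))
    exact h2.of_right (Cyl.pt_le_i0 hY p e) (Sub.le_top' _) h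

/-- a map between `Y`-acyclic simplicial sets -/
theorem YE.of_yac {E B : SS} {p : Hom E B} (e : E.S 0) (hE : YAc Y E e)
    (hB : YAc Y B (p.app 0 e)) : YE Y p := by
  rw [Cyl.yac_i0 hY p e] at hE
  rw [Cyl.yac_i1 hY p (p.app 0 e)] at hB
  exact Good.of_left hY (Cyl.pt_le_i0 hY p e) (Sub.le_top' _) hE
    ((Cyl.base_change hY p e).2
      (hB.trans (Cyl.pt_le_i1 hY p _) (Sub.le_top' _) (Cyl.good_i1 hY p)))

/-- (STRAT) -/
theorem Strat.ye {E B : SS} {p : Hom E B} (h : Strat Y p) : YE Y p := by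
  classical
  -- the subcomplex `E ∪ Cyl (p⁻¹ L → L)`
  let CC : Sub B → Sub (Cyl p) := fun L =>
    ⟨fun n => {x | (∃ (τ : Mo n 1) (e : E.S n), (τ = cst 0 ∨ p.app n e ∈ L.car n) ∧
        x = Cyl.mk p τ e) ∨ ∃ b ∈ L.car n, x = (Cyl.i1 p).app n b}, by
      rintro m n f x (⟨τ, e, he, rfl⟩ | ⟨b, hb, rfl⟩)
      · refine Or.inl ⟨τ.comp f, E.act f e, ?_, Cyl.act_mk p f τ e⟩
        rcases he with rfl | he
        · exact Or.inl rfl
        · refine Or.inr ?_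
          rw [p.nat]
          exact L.closed f he
      · exact Or.inr ⟨B.act f b, L.closed f hb, ((Cyl.i1 p).nat f b).symm⟩⟩
  have hmk : ∀ (L : Sub B) (n : ℕ) (τ : Mo n 1) (e : E.S n), τ ≠ cst 1 →
      (Cyl.mk p τ e ∈ (CC L).car n ↔ (τ = cst 0 ∨ p.app n e ∈ L.car n)) := by
    intro L n τ e hτ
    constructor
    · rintro (⟨τ', e', he, h1⟩ | ⟨b, hb, h1⟩)
      · obtain ⟨rfl, rfl⟩ := Cyl.mk_inj p hτ h1
        exact he
      · exact absurd h1 (Cyl.mk_ne_i1 p hτ)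
    · exact fun h1 => Or.inl ⟨τ, e, h1, rfl⟩
  have hi1 : ∀ (L : Sub B) (n : ℕ) (b : B.S n), (Cyl.i1 p).app n b ∈ (CC L).car n ↔
      b ∈ L.car n := by
    intro L n b
    constructor
    · rintro (⟨τ', e', he, h1⟩ | ⟨b', hb, h1⟩)
      · by_cases hτ : τ' = cst 1
        · subst hτ
          rw [Cyl.mk_one] at h1
          have h2 : b = p.app n e' := Cyl.i1_inj p h1
          rcases he with he | he
          · exact absurd he.symm (cst_zero_ne_one n)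
          · rw [h2]; exact he
        · exact absurd h1.symm (Cyl.mk_ne_i1 p hτ)
      · rw [Cyl.i1_inj p h1]; exact hb
    · exact fun h1 => Or.inr ⟨b, h1, rfl⟩
  have hCmono : ∀ L L' : Sub B, L ≤ L' → CC L ≤ CC L' := by
    rintro L L' hL n x (⟨τ, e, he, rfl⟩ | ⟨b, hb, rfl⟩)
    · exact Or.inl ⟨τ, e, he.imp id fun h1 => hL n h1, rfl⟩
    · exact Or.inr ⟨b, hL n hb, rfl⟩
  have hCbot : CC ⊥ = Sub.map (Cyl.i0 p) ⊤ := by
    refine le_antisymm ?_ ?_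
    · rintro n x (⟨τ, e, he, rfl⟩ | ⟨b, hb, rfl⟩)
      · rcases he with rfl | he
        · exact ⟨e, trivial, rfl⟩
        · exact he.elim
      · exact hb.elim
    · rintro n x ⟨e, -, rfl⟩
      exact Or.inl ⟨cst 0, e, Or.inl rfl, rfl⟩
  have hCtop : CC ⊤ = ⊤ := by
    refine le_antisymm (Sub.le_top' _) ?_
    intro n x _
    rcases Cyl.cases p x with ⟨τ, -, e, rfl⟩ | ⟨b, rfl⟩
    · exact Or.inl ⟨τ, e, Or.inr trivial, rfl⟩
    · exact Or.inr ⟨b, trivial, rfl⟩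
  -- one step
  have hstep : ∀ L : Sub B, ∀ (n : ℕ) (b : B.S n), b ∉ L.car n → NonDeg b →
      (∀ (m : ℕ) (f : Mo m n), ¬ Function.Surjective f → B.act f b ∈ L.car m) →
      Good Y (CC L) (CC (L ⊔ Sub.gen1 b)) := by
    intro L n b hbL hnd hface
    obtain ⟨F, x₀, Φ, hF, hp, hbij⟩ := h n b hnd
    have key : ∀ (m : ℕ) (θ : Mo m n), B.act θ b ∈ L.car m ↔ θ ∈ (bd n).car m := by
      intro m θ
      constructor
      · intro h1 hs
        exact hbL ((act_mem_iff L θ hs b).1 h1)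
      · exact fun h1 => hface m θ h1
    have key' : ∀ (m : ℕ) (θ : Mo m n), ¬ Function.Surjective θ ↔ θ ∈ (bd n).car m :=
      fun m θ => Iff.rfl
    let q : Hom F PT := ⟨fun _ _ => (), fun _ _ => rfl⟩
    have hq : YE Y q := YE.of_yac hY x₀ hF (YAc.point hY)
    have hbox := Good.box (Q := Del n) (K' := bd n) (K := ⊤) (Sub.le_top' _) hq (Sub.le_top' _)
    obtain ⟨w, hw1, hw2⟩ := Cyl.exists_hom (K := Del n) (X := Cyl p) q
      (fun m τ y (θ : Mo m n) => Cyl.mk p τ (Φ.app m (y, θ)))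
      ((Cyl.i1 p).comp ((SS.yo b).comp (Hom.snd PT (Del n))))
      (by
        intro m k f τ e θ
        rw [Cyl.act_mk, ← Φ.nat])
      (by
        intro m e θ
        show Cyl.mk p (cst 1) _ = _
        rw [Cyl.mk_one, hp]
        rfl)
    have hw2' : ∀ m (t : PT.S m) (θ : Mo m n), w.app m (θ, (Cyl.i1 q).app m t) =
        (Cyl.i1 p).app m (B.act θ b) := fun m t θ => hw2 m t θ
    have hbL' : ∀ (m : ℕ) (θ : Mo m n), B.act θ b ∈ (L ⊔ Sub.gen1 b).car m :=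
      fun m θ => Or.inr ⟨θ, rfl⟩
    -- membership in `E`-part of the cone
    have hEpart : ∀ (m : ℕ) (τ : Mo m 1) (y : F.S m), τ ≠ cst 1 →
        (Cyl.mk q τ y ∈ (Sub.map (Cyl.i0 q) ⊤).car m ↔ τ = cst 0) := by
      intro m τ y hτ
      constructor
      · rintro ⟨y', -, h1⟩
        exact (Cyl.mk_inj q hτ (show Cyl.mk q τ y = Cyl.mk q (cst 0) y' from h1.symm)).1
      · rintro rfl
        exact ⟨y, trivial, rfl⟩
    have hEpart' : ∀ (m : ℕ) (t : PT.S m), (Cyl.i1 q).app m t ∉ (Sub.map (Cyl.i0 q) ⊤).car m := by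
      rintro m t ⟨y', -, h1⟩
      exact Cyl.mk_ne_i1 q (cst_zero_ne_one m) h1
    refine Good.relIso w (Sub.box_le_bx _ _ _ _) (hCmono _ _ (Sub.le_sup_left' _ _)) ?_ ?_ ?_ ?_
      hbox
    · rintro m ⟨θ, x⟩ -
      rcases Cyl.cases q x with ⟨τ, hτ, y, rfl⟩ | ⟨t, rfl⟩
      · rw [hw1 m τ y θ, hmk _ m τ _ hτ]
        refine Or.inr ?_
        rw [hp]
        exact hbL' m θ
      · rw [hw2' m t θ, hi1]
        exact hbL' m θ
    · rintro m ⟨θ, x⟩ hx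
      rcases Cyl.cases q x with ⟨τ, hτ, y, rfl⟩ | ⟨t, rfl⟩
      · rw [hw1 m τ y θ, hmk _ m τ _ hτ, hp, key]
        constructor
        · rintro (h1 | h1)
          · exact ⟨hx, Or.inr ((hEpart m τ y hτ).2 h1)⟩
          · exact ⟨hx, Or.inl h1⟩
        · rintro ⟨-, h1 | h1⟩
          · exact Or.inr h1
          · exact Or.inl ((hEpart m τ y hτ).1 h1)
      · rw [hw2' m t θ, hi1, key]
        constructor
        · exact fun h1 => ⟨hx, Or.inl h1⟩
        · rintro ⟨-, h1 | h1⟩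
          · exact h1
          · exact absurd h1 (hEpart' m t)
    · rintro m ⟨θ, x⟩ hx ⟨θ', x'⟩ hx' hxA hxA' hxx
      have s1 : Function.Surjective θ := by
        by_contra h1
        exact hxA ⟨hx, Or.inl h1⟩
      have s2 : Function.Surjective θ' := by
        by_contra h1
        exact hxA' ⟨hx', Or.inl h1⟩
      rcases Cyl.cases q x with ⟨τ, hτ, y, rfl⟩ | ⟨t, rfl⟩
      · rcases Cyl.cases q x' with ⟨τ', hτ', y', rfl⟩ | ⟨t', rfl⟩
        · rw [hw1 m τ y θ, hw1 m τ' y' θ'] at hxx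
          obtain ⟨h1, h2⟩ := Cyl.mk_inj p hτ hxx
          have h3 : B.act θ b = B.act θ' b := by
            rw [← hp m y θ, ← hp m y' θ', h2]
          have h4 := (ez_unique θ θ' b b s1 s2 hnd hnd h3).1
          subst h1; subst h4
          have h5 : y = y' := (hbij m θ s1 (Φ.app m (y', θ)) (hp m y' θ)).unique h2 rfl
          rw [h5]
        · rw [hw1 m τ y θ, hw2' m t' θ'] at hxx
          exact absurd hxx (Cyl.mk_ne_i1 p hτ)
      · rcases Cyl.cases q x' with ⟨τ', hτ', y', rfl⟩ | ⟨t', rfl⟩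
        · rw [hw1 m τ' y' θ', hw2' m t θ] at hxx
          exact absurd hxx.symm (Cyl.mk_ne_i1 p hτ')
        · rw [hw2' m t θ, hw2' m t' θ'] at hxx
          have h3 := Cyl.i1_inj p hxx
          have h4 := (ez_unique θ θ' b b s1 s2 hnd hnd h3).1
          subst h4
          rfl
    · intro m z hz hz'
      rcases Cyl.cases p z with ⟨τ, hτ, e, rfl⟩ | ⟨b', rfl⟩
      · rw [hmk _ m τ _ hτ] at hz hz'
        rw [not_or] at hz'
        rcases hz with h1 | h1 | ⟨θ, h1⟩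
        · exact absurd h1 hz'.1
        · exact absurd h1 hz'.2
        · have s1 : Function.Surjective θ := by
            by_contra h2
            apply hz'.2
            rw [h1, key]
            exact h2
          obtain ⟨y, hy, -⟩ := hbij m θ s1 e h1
          refine ⟨(θ, Cyl.mk q τ y), ⟨trivial, trivial⟩, ?_⟩
          rw [hw1 m τ y θ, hy]
      · rw [hi1] at hz hz'
        rcases hz with h1 | ⟨θ, h1⟩
        · exact absurd h1 hz'
        · refine ⟨(θ, (Cyl.i1 q).app m ()), ⟨trivial, trivial⟩, ?_⟩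
          rw [hw2' m () θ, h1]
  -- Zorn
  intro k
  have hz := ExtP.zorn (Y := Y) (P := (Del k).prod (Cyl p)) (⊥ : Sub B) ⊤ (Sub.bot_le' _)
    (fun L => Sub.box (bd k) ⊤ (CC L) ⊤) (fun L L' hL => Sub.box_mono (hCmono L L' hL)) (by
      rintro c ⟨L₀, hL₀⟩ _ n ⟨θ, x⟩ ⟨hx, h1 | h1⟩
      · exact ⟨L₀, hL₀, hx, Or.inl h1⟩
      · rcases h1 with ⟨τ, e, he | ⟨L, hL, he⟩, h2⟩ | ⟨b, ⟨L, hL, hb⟩, h2⟩
        · exact ⟨L₀, hL₀, hx, Or.inr (Or.inl ⟨τ, e, Or.inl he, h2⟩)⟩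
        · exact ⟨L, hL, hx, Or.inr (Or.inl ⟨τ, e, Or.inr he, h2⟩)⟩
        · exact ⟨L, hL, hx, Or.inr (Or.inr ⟨b, hb, h2⟩)⟩) (by
      intro L _ _ n b _ hbL hnd hface
      have h1 := hstep L n b hbL hnd hface k
      refine ExtP.excise (Sub.box_le_bx _ _ _ _)
        (Sub.box_mono (hCmono _ _ (Sub.le_sup_left' _ _))) ?_ ?_ ?_ h1
      · exact fun m x hx => ⟨⟨trivial, trivial⟩, Or.inr hx.2⟩
      · exact fun m x hx => ⟨fun h2 => ⟨hx, h2.2⟩, fun h2 => ⟨⟨trivial, trivial⟩, h2.2⟩⟩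
      · intro m y hy hy'
        refine ⟨trivial, ?_⟩
        rcases hy.2 with h2 | h2
        · exact (hy' ⟨hy.1, Or.inl h2⟩).elim
        · exact h2)
  have e1 : Sub.box (bd k) ⊤ (CC ⊤) ⊤ = Sub.bx (⊤ : Sub (Del k)) (⊤ : Sub (Cyl p)) := by
    rw [hCtop]
    exact le_antisymm (fun n x hx => hx.1) (fun n x hx => ⟨hx, Or.inr trivial⟩)
  have hz' : ExtP Y (Sub.box (bd k) ⊤ (CC ⊥) ⊤) (Sub.box (bd k) ⊤ (CC ⊤) ⊤) := hz
  rwa [hCbot, e1] at hz'

/-- (STRAT): the form in which it is used -/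
theorem Strat.yac_iff {E B : SS} {p : Hom E B} (h : Strat Y p) (e : E.S 0) :
    YAc Y E e ↔ YAc Y B (p.app 0 e) :=
  (Strat.ye hY h).yac_iff hY e

end target

end MM
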