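import Pool.Agent.Lib_MP_33f7bb_d.B1C

/-!
# B2A: group actions on simplicial sets, quotients, classifying spaces ((BG1), (BG2))
-/

namespace MM

/-- an action of a group on a simplicial set -/
structure GAct (G : Type) [Group G] (E : SS) where
  sm : G → ∀ n, E.S n → E.S n
  one : ∀ n x, sm 1 n x = x
  mul : ∀ g h n x, sm (g * h) n x = sm g n (sm h n x)
  nat : ∀ (g : G) {m n : ℕ} (f : Mo m n) (x : E.S n), E.act f (sm g n x) = sm g m (E.act f x)

namespace GAct

variable {G : Type} [Group G] {E Z : SS}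

/-- the orbit relation of a subgroup -/
def rel (a : GAct G E) (H : Subgroup G) (n : ℕ) : Setoid (E.S n) where
  r x y := ∃ g ∈ H, a.sm g n x = y
  iseqv := by
    refine ⟨fun x => ⟨1, H.one_mem, a.one n x⟩, ?_, ?_⟩
    · rintro x y ⟨g, hg, rfl⟩
      exact ⟨g⁻¹, H.inv_mem hg, by rw [← a.mul, inv_mul_cancel, a.one]⟩
    · rintro x y z ⟨g, hg, rfl⟩ ⟨h, hh, rfl⟩
      exact ⟨h * g, H.mul_mem hh hg, by rw [a.mul]⟩

/-- the quotient `E / H` -/
def quo (a : GAct G E) (H : Subgroup G) : SS where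
  S n := Quotient (a.rel H n)
  act {m n} f := Quotient.map' (E.act f) (by
    rintro x y ⟨g, hg, rfl⟩
    exact ⟨g, hg, (a.nat g f x).symm⟩)
  act_id := by
    rintro n ⟨x⟩
    exact congrArg (Quotient.mk (a.rel H n)) (E.act_id x)
  act_comp := by
    rintro l m n f g ⟨x⟩
    exact congrArg (Quotient.mk (a.rel H l)) (E.act_comp f g x)

/-- the projection -/
def proj (a : GAct G E) (H : Subgroup G) : Hom E (a.quo H) where
  app n x := Quotient.mk (a.rel H n) x
  nat _ _ := rfl

theorem proj_eq_iff (a : GAct G E) (H : Subgroup G) {n : ℕ} (x y : E.S n) :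
    (a.proj H).app n x = (a.proj H).app n y ↔ ∃ g ∈ H, a.sm g n x = y := by
  constructor
  · intro h
    exact Quotient.exact (s := a.rel H n) h
  · intro h
    exact Quotient.sound (s := a.rel H n) h

theorem proj_surj (a : GAct G E) (H : Subgroup G) {n : ℕ} (x : (a.quo H).S n) :
    ∃ y, (a.proj H).app n y = x := Quotient.exists_rep x

/-- the stabiliser of a simplex -/
def stab (a : GAct G E) {n : ℕ} (x : E.S n) : Subgroup G where
  carrier := {g | a.sm g n x = x}
  one_mem' := a.one n x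
  mul_mem' := by
    intro g h hg hh
    show a.sm (g * h) n x = x
    rw [a.mul, show a.sm h n x = x from hh, show a.sm g n x = x from hg]
  inv_mem' := by
    intro g hg
    show a.sm g⁻¹ n x = x
    have h : a.sm g⁻¹ n (a.sm g n x) = x := by rw [← a.mul, inv_mul_cancel, a.one]
    rwa [show a.sm g n x = x from hg] at h

/-- the diagonal action on the product -/
def prod (a : GAct G E) (b : GAct G Z) : GAct G (E.prod Z) where
  sm g n x := (a.sm g n x.1, b.sm g n x.2)
  one n x := by rw [a.one, b.one]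
  mul g h n x := by rw [a.mul, b.mul]
  nat g m n f x := by
    show (E.act f (a.sm g n x.1), Z.act f (b.sm g n x.2)) = _
    rw [a.nat, b.nat]

/-- pull back of an action along a group homomorphism -/
def pull {H : Type} [Group H] (φ : H →* G) (a : GAct G E) : GAct H E where
  sm g := a.sm (φ g)
  one n x := by rw [map_one, a.one]
  mul g h n x := by rw [map_mul, a.mul]
  nat g m n f x := a.nat (φ g) f x

/-- the projections of the quotient of the product -/
def prodSnd (a : GAct G E) (b : GAct G Z) (H : Subgroup G) :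
    Hom ((a.prod b).quo H) (b.quo H) where
  app n := Quotient.map' (fun x => x.2) (by
    rintro x y ⟨g, hg, rfl⟩
    exact ⟨g, hg, rfl⟩)
  nat := by
    rintro m n f ⟨x⟩
    rfl

def prodFst (a : GAct G E) (b : GAct G Z) (H : Subgroup G) :
    Hom ((a.prod b).quo H) (a.quo H) where
  app n := Quotient.map' (fun x => x.1) (by
    rintro x y ⟨g, hg, rfl⟩
    exact ⟨g, hg, rfl⟩)
  nat := by
    rintro m n f ⟨x⟩
    rfl

/-- free actions -/
def Free (a : GAct G E) : Prop := ∀ g n (x : E.S n), a.sm g n x = x → g = 1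

end GAct

/-- `EX n = X^(n+1)` -/
abbrev EX (X : Type) : SS where
  S n := Fin (n + 1) → X
  act f x := fun i => x (f i)
  act_id _ := rfl
  act_comp _ _ _ := rfl

/-- the action of `G` on `EX` for a `G`-set `X` -/
def EX.gact (G : Type) [Group G] (X : Type) [MulAction G X] : GAct G (EX X) where
  sm g _ x := fun i => g • x i
  one _ x := by funext i; simp
  mul g h _ x := by funext i; simp [mul_smul]
  nat _ _ _ _ _ := rfl

/-- the classifying space, normalised homogeneous model -/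
abbrev BGr (G : Type) [Group G] : SS where
  S n := {f : Fin (n + 1) → G // f 0 = 1}
  act g f := ⟨fun i => (f.1 (g 0))⁻¹ * f.1 (g i), by simp⟩
  act_id x := by
    apply Subtype.ext; funext i
    have := x.2
    show (x.1 0)⁻¹ * x.1 i = x.1 i
    rw [this]; simp
  act_comp f g x := by
    apply Subtype.ext; funext i
    show ((x.1 (g 0))⁻¹ * x.1 (g (f 0)))⁻¹ * ((x.1 (g 0))⁻¹ * x.1 (g (f i))) = _
    show _ = (x.1 ((g.comp f) 0))⁻¹ * x.1 ((g.comp f) i)
    simp [OrderHom.comp, mul_assoc]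

/-- the base point -/
def BGr.pt (G : Type) [Group G] : (BGr G).S 0 := ⟨fun _ => 1, rfl⟩

theorem EX.acyc (X : Type) (x : X) :
    Acyc (Sub.pt (P := EX X) (fun _ => x : Fin 1 → X)) (⊤ : Sub (EX X)) := by
  let H : Hom ((Del 1).prod (EX X)) (EX X) :=
    ⟨fun n y => fun i => if y.1 i = 0 then y.2 i else x, fun f y => rfl⟩
  refine acyc_of_deformation (Sub.le_top' _) H ?_ ?_ (fun _ _ _ _ => trivial) ?_
  · intro n y _
    funext i
    show (if (0 : Fin 2) = 0 then y i else x) = y i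
    exact if_pos rfl
  · intro n y _
    have : H.app n (cst 1, y) = fun _ => x := by
      funext i
      show (if (1 : Fin 2) = 0 then y i else x) = x
      exact if_neg (by decide)
    rw [this]
    rfl
  · intro n a y hy
    have h1 : y = fun _ => x := hy
    subst h1
    have : H.app n (a, fun _ => x) = fun _ => x := by
      funext i
      exact ite_self x
    rw [this]
    rfl

/-- (BG1) -/
theorem strat_prodSnd {Y : SS} {G : Type} [Group G] {E Z : SS}
    (a : GAct G E) (b : GAct G Z) (H : Subgroup G)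
    (h : ∀ (n : ℕ) (z : Z.S n), ∃ e : E.S 0,
      YAc Y (a.quo (b.stab z ⊓ H)) ((a.proj (b.stab z ⊓ H)).app 0 e)) :
    Strat Y (a.prodSnd b H) := by
  intro n b' _
  obtain ⟨z, rfl⟩ := b.proj_surj H b'
  obtain ⟨e, he⟩ := h n z
  let Φ : Hom ((a.quo (b.stab z ⊓ H)).prod (Del n)) ((a.prod b).quo H) :=
    { app := fun m y => Quotient.lift (fun x => ((a.prod b).proj H).app m (x, Z.act y.2 z)) (by
        rintro x x' ⟨g, hg, rfl⟩
        refine ((a.prod b).proj_eq_iff H _ _).2 ⟨g, hg.2, ?_⟩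
        show (a.sm g m x, b.sm g m (Z.act y.2 z)) = _
        rw [← b.nat, show b.sm g n z = z from hg.1]) y.1
      nat := by
        rintro m k f ⟨⟨x⟩, α⟩
        show ((a.prod b).proj H).app m (E.act f x, Z.act (α.comp f) z) =
          ((a.prod b).quo H).act f (((a.prod b).proj H).app k (x, Z.act α z))
        rw [← ((a.prod b).proj H).nat, ← Z.act_comp] }
  refine ⟨a.quo (b.stab z ⊓ H), _, Φ, he, ?_, ?_⟩
  · rintro m ⟨x⟩ α
    rfl
  · intro m α hα e'
    obtain ⟨⟨x, w⟩, rfl⟩ := (a.prod b).proj_surj H e'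
    intro hw
    have hw' : (b.proj H).app m w = (b.proj H).app m (Z.act α z) := hw
    obtain ⟨g, hg, hgw⟩ := (b.proj_eq_iff H _ _).1 hw'
    refine ⟨(a.proj (b.stab z ⊓ H)).app m (a.sm g m x), ?_, ?_⟩
    · show ((a.prod b).proj H).app m (a.sm g m x, Z.act α z) = _
      exact (((a.prod b).proj_eq_iff H _ _).2 ⟨g, hg, by
        show (a.sm g m x, b.sm g m w) = _
        rw [hgw]⟩).symm
    · intro y hy
      obtain ⟨x', rfl⟩ := a.proj_surj _ y
      have hy' : ((a.prod b).proj H).app m (x', Z.act α z) = ((a.prod b).proj H).app m (x, w) := hy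
      obtain ⟨g', hg', hgw'⟩ := ((a.prod b).proj_eq_iff H _ _).1 hy'
      have e1 : a.sm g' m x' = x := congrArg Prod.fst hgw'
      have e2 : b.sm g' m (Z.act α z) = w := congrArg Prod.snd hgw'
      refine (a.proj_eq_iff _ _ _).2 ⟨g * g', ⟨?_, H.mul_mem hg hg'⟩, ?_⟩
      · show b.sm (g * g') n z = z
        obtain ⟨t, ht⟩ := exists_section α hα
        have e3 : b.sm (g * g') m (Z.act α z) = Z.act α z := by
          rw [b.mul, e2, hgw]
        have e4 := congrArg (Z.act t) e3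
        rw [b.nat, Z.act_comp, ht, Z.act_id] at e4
        exact e4
      · rw [a.mul, e1]

theorem strat_prodFst {Y : SS} {G : Type} [Group G] {E Z : SS}
    (a : GAct G E) (b : GAct G Z) (H : Subgroup G)
    (h : ∀ (n : ℕ) (x : E.S n), ∃ z : Z.S 0,
      YAc Y (b.quo (a.stab x ⊓ H)) ((b.proj (a.stab x ⊓ H)).app 0 z)) :
    Strat Y (a.prodFst b H) := by
  intro n a' _
  obtain ⟨z, rfl⟩ := a.proj_surj H a'
  obtain ⟨e, he⟩ := h n z
  let Φ : Hom ((b.quo (a.stab z ⊓ H)).prod (Del n)) ((a.prod b).quo H) :=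
    { app := fun m y => Quotient.lift (fun x => ((a.prod b).proj H).app m (E.act y.2 z, x)) (by
        rintro x x' ⟨g, hg, rfl⟩
        refine ((a.prod b).proj_eq_iff H _ _).2 ⟨g, hg.2, ?_⟩
        show (a.sm g m (E.act y.2 z), b.sm g m x) = _
        rw [← a.nat, show a.sm g n z = z from hg.1]) y.1
      nat := by
        rintro m k f ⟨⟨x⟩, α⟩
        show ((a.prod b).proj H).app m (E.act (α.comp f) z, Z.act f x) =
          ((a.prod b).quo H).act f (((a.prod b).proj H).app k (E.act α z, x))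
        rw [← ((a.prod b).proj H).nat, ← E.act_comp] }
  refine ⟨b.quo (a.stab z ⊓ H), _, Φ, he, ?_, ?_⟩
  · rintro m ⟨x⟩ α
    rfl
  · intro m α hα e'
    obtain ⟨⟨w, x⟩, rfl⟩ := (a.prod b).proj_surj H e'
    intro hw
    have hw' : (a.proj H).app m w = (a.proj H).app m (E.act α z) := hw
    obtain ⟨g, hg, hgw⟩ := (a.proj_eq_iff H _ _).1 hw'
    refine ⟨(b.proj (a.stab z ⊓ H)).app m (b.sm g m x), ?_, ?_⟩
    · show ((a.prod b).proj H).app m (E.act α z, b.sm g m x) = _
      exact (((a.prod b).proj_eq_iff H _ _).2 ⟨g, hg, by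
        show (a.sm g m w, b.sm g m x) = _
        rw [hgw]⟩).symm
    · intro y hy
      obtain ⟨x', rfl⟩ := b.proj_surj _ y
      have hy' : ((a.prod b).proj H).app m (E.act α z, x') = ((a.prod b).proj H).app m (w, x) := hy
      obtain ⟨g', hg', hgw'⟩ := ((a.prod b).proj_eq_iff H _ _).1 hy'
      have e1 : b.sm g' m x' = x := congrArg Prod.snd hgw'
      have e2 : a.sm g' m (E.act α z) = w := congrArg Prod.fst hgw'
      refine (b.proj_eq_iff _ _ _).2 ⟨g * g', ⟨?_, H.mul_mem hg hg'⟩, ?_⟩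
      · show a.sm (g * g') n z = z
        obtain ⟨t, ht⟩ := exists_section α hα
        have e3 : a.sm (g * g') m (E.act α z) = E.act α z := by
          rw [a.mul, e2, hgw]
        have e4 := congrArg (E.act t) e3
        rw [a.nat, E.act_comp, ht, E.act_id] at e4
        exact e4
      · rw [b.mul, e1]

section target

variable {Y : SS} [∀ n, TopologicalSpace (Y.S n)] (hY : IsTarget Y)

include hY

theorem yac_quo_bot {G : Type} [Group G] {E : SS} (a : GAct G E) (e : E.S 0) :
    YAc Y (a.quo ⊥) ((a.proj ⊥).app 0 e) ↔ YAc Y E e := by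
  refine (YAc.iso_iff hY (a.proj ⊥) (fun n => ⟨?_, ?_⟩) e).symm
  · intro x y hxy
    obtain ⟨g, hg, h⟩ := (a.proj_eq_iff ⊥ x y).1 hxy
    rw [Subgroup.mem_bot.1 hg, a.one] at h
    exact h
  · exact fun y => a.proj_surj ⊥ y

/-- `EG / G = BG` -/
theorem yac_EG_quo (G : Type) [Group G] (x : (EX G).S 0) :
    YAc Y ((EX.gact G G).quo ⊤) (((EX.gact G G).proj ⊤).app 0 x) ↔ YAc Y (BGr G) (BGr.pt G) := by
  let φ : Hom ((EX.gact G G).quo ⊤) (BGr G) :=
    { app := fun n => Quotient.lift (fun x : Fin (n + 1) → G =>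
        (⟨fun i => (x 0)⁻¹ * x i, by simp⟩ : (BGr G).S n)) (by
        rintro x y ⟨g, -, rfl⟩
        apply Subtype.ext
        funext i
        show (x 0)⁻¹ * x i = (g • x 0)⁻¹ * (g • x i)
        simp [mul_assoc])
      nat := by
        rintro m n f ⟨x⟩
        apply Subtype.ext
        funext i
        show (x (f 0))⁻¹ * x (f i) = ((x 0)⁻¹ * x (f 0))⁻¹ * ((x 0)⁻¹ * x (f i))
        simp [mul_assoc] }
  have h := YAc.iso_iff hY φ (fun n => ⟨?_, ?_⟩) (((EX.gact G G).proj ⊤).app 0 x)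
  · rw [h]
    have e1 : φ.app 0 (((EX.gact G G).proj ⊤).app 0 x) = BGr.pt G := by
      apply Subtype.ext
      funext i
      show (x 0)⁻¹ * x i = 1
      have : i = 0 := Fin.eq_zero i
      rw [this, inv_mul_cancel]
    rw [e1]
  · intro x y hxy
    obtain ⟨x, rfl⟩ := (EX.gact G G).proj_surj ⊤ x
    obtain ⟨y, rfl⟩ := (EX.gact G G).proj_surj ⊤ y
    refine ((EX.gact G G).proj_eq_iff ⊤ _ _).2 ⟨y 0 * (x 0)⁻¹, trivial, ?_⟩
    funext i
    have h1 : (x 0)⁻¹ * x i = (y 0)⁻¹ * y i := congrFun (congrArg Subtype.val hxy) i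
    show (y 0 * (x 0)⁻¹) • x i = y i
    rw [smul_eq_mul, mul_assoc, h1, mul_inv_cancel_left]
  · rintro ⟨f, hf⟩
    refine ⟨((EX.gact G G).proj ⊤).app n f, ?_⟩
    apply Subtype.ext
    funext i
    show (f 0)⁻¹ * f i = f i
    rw [hf, inv_one, one_mul]

/-- (BG2) -/
theorem yac_quo_iff {G : Type} [Group G] {E : SS} (a : GAct G E) (ha : a.Free) (e : E.S 0)
    (he : Acyc (Sub.pt e) (⊤ : Sub E)) :
    YAc Y (a.quo ⊤) ((a.proj ⊤).app 0 e) ↔ YAc Y (BGr G) (BGr.pt G) := by
  let A := EX.gact G G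
  have hAfree : ∀ (n : ℕ) (x : (EX G).S n), A.stab x = ⊥ := by
    intro n x
    rw [eq_bot_iff]
    intro g hg
    have h1 : (fun i => g • x i) = x := hg
    have h2 : g * x 0 = x 0 := congrFun h1 0
    rw [Subgroup.mem_bot]
    exact mul_eq_right.1 h2
  have hafree : ∀ (n : ℕ) (x : E.S n), a.stab x = ⊥ := by
    intro n x
    rw [eq_bot_iff]
    intro g hg
    rw [Subgroup.mem_bot]
    exact ha g n x hg
  let o : (EX G).S 0 := fun _ => 1
  have h1 : Strat Y (A.prodSnd a ⊤) := by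
    refine strat_prodSnd A a ⊤ fun n z => ⟨o, ?_⟩
    rw [hafree, bot_inf_eq, yac_quo_bot hY A o]
    exact YAc.of_acyc hY (EX.acyc G 1)
  have h2 : Strat Y (A.prodFst a ⊤) := by
    refine strat_prodFst A a ⊤ fun n z => ⟨e, ?_⟩
    rw [hAfree, bot_inf_eq, yac_quo_bot hY a e]
    exact YAc.of_acyc hY he
  have h3 := h1.yac_iff hY (((A.prod a).proj ⊤).app 0 (o, e))
  have h4 := h2.yac_iff hY (((A.prod a).proj ⊤).app 0 (o, e))
  have h5 := yac_EG_quo hY G o
  exact h3.symm.trans (h4.trans h5)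

/-- (BG2) for subgroups -/
theorem yac_quo_subgroup_iff {G : Type} [Group G] {E : SS} (a : GAct G E) (ha : a.Free)
    (H : Subgroup G) (e : E.S 0) (he : Acyc (Sub.pt e) (⊤ : Sub E)) :
    YAc Y (a.quo H) ((a.proj H).app 0 e) ↔ YAc Y (BGr H) (BGr.pt H) := by
  let b : GAct H E := a.pull H.subtype
  have hb : b.Free := fun g n x hx => Subtype.ext (ha g n x hx)
  rw [← yac_quo_iff hY b hb e he]
  let φ : Hom (b.quo ⊤) (a.quo H) :=
    { app := fun n => Quotient.map' (fun x => x) (by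
        rintro x y ⟨g, -, rfl⟩
        exact ⟨g, g.2, rfl⟩)
      nat := by
        rintro m n f ⟨x⟩
        rfl }
  refine (YAc.iso_iff hY φ (fun n => ⟨?_, ?_⟩) ((b.proj ⊤).app 0 e)).symm
  · intro x y hxy
    obtain ⟨x, rfl⟩ := b.proj_surj ⊤ x
    obtain ⟨y, rfl⟩ := b.proj_surj ⊤ y
    have h1 : (a.proj H).app n x = (a.proj H).app n y := hxy
    obtain ⟨g, hg, h⟩ := (a.proj_eq_iff H x y).1 h1
    exact (b.proj_eq_iff ⊤ x y).2 ⟨⟨g, hg⟩, trivial, h⟩
  · intro y
    obtain ⟨y, rfl⟩ := a.proj_surj H y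
    exact ⟨(b.proj ⊤).app n y, rfl⟩

end target

end MM
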