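import Pool.Agent.Lib_MP_33f7bb_d.A0Basic

/-!
# B3Def: labels (definitions, complete)

`lab A K C` for subcomplexes `K ≤ C` of `U`: finitely supported functions `U_n → A` supported in
`C_n \ K_n`; structure maps: push forward, then drop the part in `K`.

REMARK.  All decidability instances in this file are classical (`open Classical`).  In files which use it, prefer the
pointwise lemmas (`labAct_of_mem`, `labAct_of_notMem`, `labProj_of_mem`, ...), or write `open Classical` after
`namespace MM`.
-/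

namespace MM

open Classical

/-- finitely supported functions with support in `C_n \ K_n` -/
def labM (A : Type) [AddCommMonoid A] {U : SS} (K C : Sub U) (n : ℕ) :
    AddSubmonoid (U.S n →₀ A) where
  carrier := {a | ∀ x, a x ≠ 0 → x ∈ C.car n ∧ x ∉ K.car n}
  zero_mem' := fun x hx => absurd rfl hx
  add_mem' := by
    intro a b ha hb x hx
    by_cases h : a x = 0
    · refine hb x fun h' => hx ?_
      show a x + b x = 0
      rw [h, h', add_zero]
    · exact ha x h

theorem mem_labM {A : Type} [AddCommMonoid A] {U : SS} {K C : Sub U} {n : ℕ} {a : U.S n →₀ A} :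
    a ∈ labM A K C n ↔ ∀ x, a x ≠ 0 → x ∈ C.car n ∧ x ∉ K.car n := Iff.rfl

/-- push forward and drop the part in `K` -/
noncomputable def labAct (A : Type) [AddCommMonoid A] {U : SS} (K : Sub U) {m n : ℕ}
    (f : Mo m n) : (U.S n →₀ A) →+ (U.S m →₀ A) :=
  (Finsupp.filterAddHom (fun x => x ∉ K.car m)).comp (Finsupp.mapDomain.addMonoidHom (U.act f))

theorem labAct_def {A : Type} [AddCommMonoid A] {U : SS} (K : Sub U) {m n : ℕ}
    (f : Mo m n) (a : U.S n →₀ A) :
    labAct A K f a = (a.mapDomain (U.act f)).filter (fun x => x ∉ K.car m) := rfl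

theorem labAct_of_mem {A : Type} [AddCommMonoid A] {U : SS} (K : Sub U) {m n : ℕ}
    (f : Mo m n) (a : U.S n →₀ A) {y : U.S m} (hy : y ∈ K.car m) : labAct A K f a y = 0 := by
  rw [labAct_def, Finsupp.filter_apply, if_neg (not_not.2 hy)]

theorem labAct_of_notMem {A : Type} [AddCommMonoid A] {U : SS} (K : Sub U) {m n : ℕ}
    (f : Mo m n) (a : U.S n →₀ A) {y : U.S m} (hy : y ∉ K.car m) :
    labAct A K f a y = (a.mapDomain (U.act f)) y := by
  rw [labAct_def, Finsupp.filter_apply, if_pos hy]

/-- the part in `K` is sent to `K` -/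
theorem labAct_filter {A : Type} [AddCommMonoid A] {U : SS} (K : Sub U) {m n : ℕ}
    (f : Mo m n) (a : U.S n →₀ A) :
    labAct A K f (a.filter (fun x => x ∉ K.car n)) = labAct A K f a := by
  conv_rhs => rw [← Finsupp.filter_add_filter_not a (fun x => x ∉ K.car n), map_add]
  have : labAct A K f (a.filter (fun x => ¬ x ∉ K.car n)) = 0 := by
    rw [labAct_def, Finsupp.filter_eq_zero_iff]
    intro y hy
    by_contra h
    have h' := Finsupp.mapDomain_support (Finsupp.mem_support_iff.2 h)
    obtain ⟨x, hx, rfl⟩ := Finset.mem_image.1 h'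
    rw [Finsupp.support_filter, Finset.mem_filter] at hx
    exact hy (K.closed f (not_not.1 hx.2))
  rw [this, add_zero]

theorem labAct_comp {A : Type} [AddCommMonoid A] {U : SS} (K : Sub U) {l m n : ℕ}
    (f : Mo l m) (g : Mo m n) (a : U.S n →₀ A) :
    labAct A K f (labAct A K g a) = labAct A K (g.comp f) a := by
  rw [labAct_def K g, labAct_filter, labAct_def, labAct_def, ← Finsupp.mapDomain_comp]
  congr 2
  funext x
  exact U.act_comp f g x

theorem labAct_id {A : Type} [AddCommMonoid A] {U : SS} (K : Sub U) {n : ℕ}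
    (a : U.S n →₀ A) (h : ∀ x, a x ≠ 0 → x ∉ K.car n) :
    labAct A K (OrderHom.id : Mo n n) a = a := by
  have : U.act (OrderHom.id : Mo n n) = _root_.id := funext fun x => U.act_id x
  rw [labAct_def, this, Finsupp.mapDomain_id, Finsupp.filter_eq_self_iff]
  exact h

theorem labAct_mem {A : Type} [AddCommMonoid A] {U : SS} {K C : Sub U} {m n : ℕ}
    (f : Mo m n) {a : U.S n →₀ A} (ha : a ∈ labM A K C n) : labAct A K f a ∈ labM A K C m := by
  intro y hy
  have h1 : y ∉ K.car m := fun h => hy (labAct_of_mem K f a h)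
  rw [labAct_of_notMem K f a h1] at hy
  have h' := Finsupp.mapDomain_support (Finsupp.mem_support_iff.2 hy)
  obtain ⟨x, hx, rfl⟩ := Finset.mem_image.1 h'
  exact ⟨C.closed f (ha x (Finsupp.mem_support_iff.1 hx)).1, h1⟩

/-- labels as a simplicial set (simplicial abelian monoid) -/
noncomputable abbrev lab (A : Type) [AddCommMonoid A] {U : SS} (K C : Sub U) : SS where
  S n := ↥(labM A K C n)
  act f a := ⟨labAct A K f a.1, labAct_mem f a.2⟩
  act_id a := Subtype.ext (labAct_id K a.1 fun x hx => (a.2 x hx).2)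
  act_comp f g a := Subtype.ext (labAct_comp K f g a.1)

theorem lab_act_add {A : Type} [AddCommMonoid A] {U : SS} {K C : Sub U} {m n : ℕ} (f : Mo m n)
    (a b : (lab A K C).S n) :
    (lab A K C).act f (a + b) = (lab A K C).act f a + (lab A K C).act f b :=
  Subtype.ext (map_add (labAct A K f) a.1 b.1)

theorem lab_act_zero {A : Type} [AddCommMonoid A] {U : SS} {K C : Sub U} {m n : ℕ} (f : Mo m n) :
    (lab A K C).act f 0 = 0 := Subtype.ext (map_zero (labAct A K f))

/-- restriction `lab K C → lab K' C` (drop the part in `K'`), for `K ≤ K'` -/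
noncomputable def labProj (A : Type) [AddCommMonoid A] {U : SS} {K K' : Sub U} (C : Sub U)
    (hK : K ≤ K') : Hom (lab A K C) (lab A K' C) where
  app n a := ⟨a.1.filter (fun x => x ∉ K'.car n), by
    intro x hx
    rw [Finsupp.filter_apply] at hx
    by_cases h : x ∈ K'.car n
    · rw [if_neg (not_not.2 h)] at hx
      exact absurd rfl hx
    · rw [if_pos h] at hx
      exact ⟨(a.2 x hx).1, h⟩⟩
  nat {m n} f a := by
    apply Subtype.ext
    show Finsupp.filter _ (labAct A K f a.1) = labAct A K' f (Finsupp.filter _ a.1)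
    rw [labAct_filter]
    ext y
    rw [Finsupp.filter_apply]
    by_cases h : y ∈ K'.car m
    · rw [if_neg (not_not.2 h), labAct_of_mem K' f _ h]
    · rw [if_pos h, labAct_of_notMem K' f _ h, labAct_of_notMem K f _ fun h' => h (hK _ h')]

theorem labProj_of_mem (A : Type) [AddCommMonoid A] {U : SS} {K K' : Sub U} (C : Sub U)
    (hK : K ≤ K') {n : ℕ} (a : (lab A K C).S n) {x : U.S n} (hx : x ∈ K'.car n) :
    ((labProj A C hK).app n a).1 x = 0 := by
  show Finsupp.filter _ a.1 x = 0
  rw [Finsupp.filter_apply, if_neg (not_not.2 hx)]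

theorem labProj_of_notMem (A : Type) [AddCommMonoid A] {U : SS} {K K' : Sub U} (C : Sub U)
    (hK : K ≤ K') {n : ℕ} (a : (lab A K C).S n) {x : U.S n} (hx : x ∉ K'.car n) :
    ((labProj A C hK).app n a).1 x = a.1 x := by
  show Finsupp.filter _ a.1 x = a.1 x
  rw [Finsupp.filter_apply, if_pos hx]

/-- coefficients: every element of `M` is uniquely `ι n + s (q x)` -/
structure Coef (N M D : Type) [AddCommMonoid N] [AddCommMonoid M] [AddCommGroup D] where
  ι : N →+ M
  q : M →+ D
  s : D → M
  s0 : s 0 = 0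
  qs : ∀ d, q (s d) = d
  qι : ∀ n, q (ι n) = 0
  dec : ∀ x, ∃ n, x = ι n + s (q x)
  inj : ∀ n n' d, ι n + s d = ι n' + s d → n = n'

/-- labels in `M` which are integral (in the image of `N`) outside `K'` -/
def TLM {N M D : Type} [AddCommMonoid N] [AddCommMonoid M] [AddCommGroup D] (c : Coef N M D)
    {U : SS} (K K' C : Sub U) (n : ℕ) : AddSubmonoid (U.S n →₀ M) where
  carrier := {a | a ∈ labM M K C n ∧ ∀ x, x ∉ K'.car n → ∃ k, c.ι k = a x}
  zero_mem' := ⟨zero_mem _, fun x _ => ⟨0, map_zero _⟩⟩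
  add_mem' := by
    rintro a b ⟨ha, ha'⟩ ⟨hb, hb'⟩
    refine ⟨add_mem ha hb, fun x hx => ?_⟩
    obtain ⟨k, hk⟩ := ha' x hx
    obtain ⟨l, hl⟩ := hb' x hx
    exact ⟨k + l, by rw [map_add, hk, hl]; rfl⟩

theorem TLM_act {N M D : Type} [AddCommMonoid N] [AddCommMonoid M] [AddCommGroup D]
    (c : Coef N M D) {U : SS} {K K' C : Sub U} {m n : ℕ} (f : Mo m n) {a : U.S n →₀ M}
    (ha : a ∈ TLM c K K' C n) : labAct M K f a ∈ TLM c K K' C m := by
  refine ⟨labAct_mem f ha.1, fun y hy => ?_⟩
  by_cases h1 : y ∉ K.car m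
  · rw [labAct_of_notMem K f a h1]
    have key : ∀ (b : U.S n →₀ M), (∀ x, U.act f x = y → ∃ k, c.ι k = b x) →
        ∃ k, c.ι k = (b.mapDomain (U.act f)) y := by
      intro b hb
      rw [Finsupp.mapDomain, Finsupp.sum_apply]
      have : ∀ s : Finset (U.S n), ∃ k, c.ι k = ∑ x ∈ s, (Finsupp.single (U.act f x) (b x)) y := by
        intro s
        induction s using Finset.induction_on with
        | empty => exact ⟨0, by simp⟩
        | insert x s hx ih =>
          obtain ⟨k, hk⟩ := ih
          rw [Finset.sum_insert hx]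
          by_cases h : U.act f x = y
          · obtain ⟨l, hl⟩ := hb x h
            refine ⟨l + k, ?_⟩
            rw [map_add, hk, h, Finsupp.single_eq_same, hl]
          · refine ⟨k, ?_⟩
            rw [Finsupp.single_apply, if_neg h, zero_add, hk]
      exact this b.support
    exact key a fun x hx => ha.2 x fun h => hy (hx ▸ K'.closed f h)
  · exact ⟨0, by rw [labAct_of_mem K f a (not_not.1 h1), map_zero]⟩

/-- the simplicial set of partially integral labels -/
noncomputable abbrev TL {N M D : Type} [AddCommMonoid N] [AddCommMonoid M] [AddCommGroup D]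
    (c : Coef N M D) {U : SS} (K K' C : Sub U) : SS where
  S n := ↥(TLM c K K' C n)
  act f a := ⟨labAct M K f a.1, TLM_act c f a.2⟩
  act_id a := Subtype.ext (labAct_id K a.1 fun x hx => (a.2.1 x hx).2)
  act_comp f g a := Subtype.ext (labAct_comp K f g a.1)

/-- change of coefficients commutes with the structure maps -/
theorem labAct_mapRange {A B : Type} [AddCommMonoid A] [AddCommMonoid B] (φ : A →+ B) {U : SS}
    (K : Sub U) {m n : ℕ} (f : Mo m n) (a : U.S n →₀ A) :
    labAct B K f (a.mapRange φ (map_zero φ)) = (labAct A K f a).mapRange φ (map_zero φ) := by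
  ext y
  rw [Finsupp.mapRange_apply]
  by_cases h : y ∈ K.car m
  · rw [labAct_of_mem K f _ h, labAct_of_mem K f _ h, map_zero]
  · rw [labAct_of_notMem K f _ h, labAct_of_notMem K f _ h,
      Finsupp.mapDomain_mapRange _ _ _ _ (map_add φ), Finsupp.mapRange_apply]

/-- push forward of labels along maps parametrised by the simplices of `P`:
`(s, a) ↦` push forward of `a` along `H (s, ·)`, then drop the part in `K'` -/
noncomputable def labP (A : Type) [AddCommMonoid A] {P U U' : SS} (H : Hom (P.prod U) U')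
    {K C : Sub U} {K' C' : Sub U'} (hC : ∀ n s, ∀ x ∈ C.car n, H.app n (s, x) ∈ C'.car n)
    (hK : ∀ n s, ∀ x ∈ K.car n, H.app n (s, x) ∈ K'.car n) :
    Hom (P.prod (lab A K C)) (lab A K' C') where
  app n p := ⟨(p.2.1.mapDomain (fun x => H.app n (p.1, x))).filter (fun x => x ∉ K'.car n), by
    intro y hy
    rw [Finsupp.filter_apply] at hy
    by_cases h : y ∈ K'.car n
    · rw [if_neg (not_not.2 h)] at hy
      exact absurd rfl hy
    · rw [if_pos h] at hy
      have h' := Finsupp.mapDomain_support (Finsupp.mem_support_iff.2 hy)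
      obtain ⟨x, hx, rfl⟩ := Finset.mem_image.1 h'
      exact ⟨hC n p.1 x (p.2.2 x (Finsupp.mem_support_iff.1 hx)).1, h⟩⟩
  nat {m n} f p := by
    obtain ⟨s, a⟩ := p
    apply Subtype.ext
    show Finsupp.filter _ (Finsupp.mapDomain (fun x => H.app m (P.act f s, x)) (labAct A K f a.1)) =
      labAct A K' f (Finsupp.filter _ (Finsupp.mapDomain (fun x => H.app n (s, x)) a.1))
    rw [labAct_filter, labAct_def, labAct_def]
    have key : ∀ b : U.S m →₀ A,
        Finsupp.filter (fun x => x ∉ K'.car m) (Finsupp.mapDomain (fun x => H.app m (P.act f s, x))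
          (b.filter (fun x => x ∉ K.car m))) =
        Finsupp.filter (fun x => x ∉ K'.car m)
          (Finsupp.mapDomain (fun x => H.app m (P.act f s, x)) b) := by
      intro b
      conv_rhs => rw [← Finsupp.filter_add_filter_not b (fun x => x ∉ K.car m),
        Finsupp.mapDomain_add, Finsupp.filter_add]
      have : Finsupp.filter (fun x => x ∉ K'.car m) (Finsupp.mapDomain
          (fun x => H.app m (P.act f s, x)) (b.filter (fun x => ¬ x ∉ K.car m))) = 0 := by
        rw [Finsupp.filter_eq_zero_iff]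
        intro y hy
        by_contra h
        have h' := Finsupp.mapDomain_support (Finsupp.mem_support_iff.2 h)
        obtain ⟨x, hx, rfl⟩ := Finset.mem_image.1 h'
        rw [Finsupp.support_filter, Finset.mem_filter] at hx
        exact hy (hK _ _ _ (not_not.1 hx.2))
      rw [this, add_zero]
    rw [key, ← Finsupp.mapDomain_comp, ← Finsupp.mapDomain_comp]
    congr 2
    funext x
    exact H.nat f (s, x)

/-- functoriality -/
noncomputable def labF (A : Type) [AddCommMonoid A] {U U' : SS} (φ : Hom U U')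
    {K C : Sub U} {K' C' : Sub U'} (hC : ∀ n, ∀ x ∈ C.car n, φ.app n x ∈ C'.car n)
    (hK : ∀ n, ∀ x ∈ K.car n, φ.app n x ∈ K'.car n) : Hom (lab A K C) (lab A K' C') :=
  (labP A (P := PT) (φ.comp (Hom.snd PT U)) (fun n _ x hx => hC n x hx)
    (fun n _ x hx => hK n x hx)).comp (Hom.pair ⟨fun _ _ => (), fun _ _ => rfl⟩ (Hom.id _))

theorem labF_apply (A : Type) [AddCommMonoid A] {U U' : SS} (φ : Hom U U')
    {K C : Sub U} {K' C' : Sub U'} (hC : ∀ n, ∀ x ∈ C.car n, φ.app n x ∈ C'.car n)
    (hK : ∀ n, ∀ x ∈ K.car n, φ.app n x ∈ K'.car n) (n : ℕ) (a : (lab A K C).S n) :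
    ((labF A φ hC hK).app n a).1 = (a.1.mapDomain (φ.app n)).filter (fun x => x ∉ K'.car n) := rfl

theorem labP_apply (A : Type) [AddCommMonoid A] {P U U' : SS} (H : Hom (P.prod U) U')
    {K C : Sub U} {K' C' : Sub U'} (hC : ∀ n s, ∀ x ∈ C.car n, H.app n (s, x) ∈ C'.car n)
    (hK : ∀ n s, ∀ x ∈ K.car n, H.app n (s, x) ∈ K'.car n) (n : ℕ) (s : P.S n)
    (a : (lab A K C).S n) :
    ((labP A H hC hK).app n (s, a)).1 =
      (a.1.mapDomain (fun x => H.app n (s, x))).filter (fun x => x ∉ K'.car n) := rfl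

/-- `U × I` for a set `I` -/
abbrev DI (U : SS) (I : Type) : SS where
  S n := U.S n × I
  act f x := (U.act f x.1, x.2)
  act_id x := by simp [U.act_id]
  act_comp f g x := by simp [U.act_comp]

/-- `K × I` -/
def Sub.di {U : SS} (K : Sub U) (I : Type) : Sub (DI U I) :=
  ⟨fun n => {x | x.1 ∈ K.car n}, fun f _ h => K.closed f h⟩

/-- the `n`-skeleton -/
def SS.sk (W : SS) (n : ℕ) : Sub W :=
  ⟨fun m => {x | ∃ (k : ℕ) (f : Mo m k) (y : W.S k), k ≤ n ∧ x = W.act f y}, by
    rintro m m' g x ⟨k, f, y, hk, rfl⟩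
    exact ⟨k, f.comp g, y, hk, W.act_comp g f y⟩⟩

/-- relative isomorphisms -/
structure RelIso {P P' : SS} (φ : Hom P P') (A C : Sub P) (A' C' : Sub P') : Prop where
  le : A ≤ C
  le' : A' ≤ C'
  map : ∀ n, ∀ x ∈ C.car n, φ.app n x ∈ C'.car n
  pre : ∀ n, ∀ x ∈ C.car n, (φ.app n x ∈ A'.car n ↔ x ∈ A.car n)
  inj : ∀ n, ∀ x ∈ C.car n, ∀ y ∈ C.car n, x ∉ A.car n → y ∉ A.car n →
    φ.app n x = φ.app n y → x = y
  surj : ∀ n, ∀ y ∈ C'.car n, y ∉ A'.car n → ∃ x ∈ C.car n, φ.app n x = y

end MM
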