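import Pool.Agent.Lib_MP_33f7bb_d.A001
import Pool.Agent.Lib_MP_33f7bb_d.B3Def

/-!
# B3-05: absolute acyclicity implies acyclicity of `(P, p)`; doubling on labels

`acyc_pt_of_abs`.  Let `z : Ch P n` with `RelCyc (pt p) z`.  `n = 0`: hypothesis `h0`.  `n = m + 1`: `dif z` is
supported in `{deg p m}`, so `dif z = c • single (deg p m) 1`, `c : ZMod 2`.  If `c = 0` use `h`.  Let `c = 1`.
`dif (single (deg p (k+1)) 1) = (k + 2 : ZMod 2) • single (deg p k) 1` (all `k + 2` faces of the degenerate
simplex are `deg p k`).
If `m = k + 1`: `0 = dif (dif z) = (k + 2) • single (deg p k) 1`, so `k` is even in the sense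
`(k + 2 : ZMod 2) = 0`; hence `dif (single (deg p (m+1)) 1) = (m + 2) • single .. = (k+3) • .. = single (deg p m) 1`,
so `z + single (deg p (m+1)) 1` is a cycle; by `h` it is `dif w`; then `z + dif w = single (deg p (m+1)) 1` is
supported in `pt p`.
If `m = 0`: the total coefficient (`Finsupp.sum id`, linear) of `dif z`, `z : Ch P 1`, is `2 * ... = 0`,
but it is `c = 1`: contradiction.

`labM_double`: the finsupp `a.mapRange (fun x => x + x)` is `a + a`; bijective with inverse `mapRange` of the
inverse; the support condition is preserved since `x + x = 0 ↔ x = 0`.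
-/

namespace MM

private theorem B305_face {P : SS} (p : P.S 0) {k : ℕ} (i : Fin (k + 2)) :
    P.act (dlt i) (P.deg p (k + 1)) = P.deg p k := by
  show P.act (dlt i) (P.act (cst 0) p) = P.act (cst 0) p
  rw [P.act_comp]
  rfl

private theorem B305_dd {P : SS} (p : P.S 0) (k : ℕ) (c : ZMod 2) :
    dif (Finsupp.single (P.deg p (k + 1)) c : Ch P (k + 1)) =
      Finsupp.single (P.deg p k) (((k + 2 : ℕ) : ZMod 2) * c) := by
  unfold dif
  simp only [Finsupp.mapDomain_single, B305_face]
  rw [Finset.sum_const, Finset.card_univ, Fintype.card_fin, ← Nat.cast_smul_eq_nsmul (ZMod 2),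
    Finsupp.smul_single, smul_eq_mul]

private theorem B305_tot {P : SS} (z : Ch P 1) :
    Finsupp.linearCombination (ZMod 2) (fun _ : P.S 0 => (1 : ZMod 2)) (dif z) = 0 := by
  unfold dif
  rw [map_sum, Fin.sum_univ_two, Finsupp.linearCombination_mapDomain,
    Finsupp.linearCombination_mapDomain]
  exact two_eq_zero' _

private theorem B305_single {P : SS} (p : P.S 0) {m : ℕ} (u : Ch P m) (hu : SuppIn (Sub.pt p) u) :
    u = Finsupp.single (P.deg p m) (u (P.deg p m)) := by
  classical
  ext x
  rw [Finsupp.single_apply]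
  by_cases h : P.deg p m = x
  · rw [if_pos h, h]
  · rw [if_neg h]
    by_contra hx
    exact h (hu x (Finsupp.mem_support_iff.2 hx)).symm

theorem acyc_pt_of_abs {P : SS} (p : P.S 0)
    (h : ∀ (n : ℕ) (z : Ch P (n + 1)), dif z = 0 → ∃ w : Ch P (n + 2), dif w = z)
    (h0 : ∀ z : Ch P 0, ∃ w : Ch P 1, SuppIn (Sub.pt p) (z + dif w)) :
    Acyc (Sub.pt p) ⊤ := by
  intro n z _ hz
  cases n with
  | zero =>
    obtain ⟨w, hw⟩ := h0 z
    exact ⟨w, SuppIn.top w, hw⟩
  | succ m =>
    have h1 := B305_single p (dif z) hz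
    have hc : (dif z) (P.deg p m) = 0 ∨ (dif z) (P.deg p m) = 1 := by
      generalize (dif z) (P.deg p m) = c
      revert c
      decide
    rcases hc with hc | hc
    · rw [hc, Finsupp.single_zero] at h1
      obtain ⟨w, hw⟩ := h m z h1
      refine ⟨w, SuppIn.top w, ?_⟩
      rw [hw, two_eq_zero' z]
      exact SuppIn.zero _
    · rw [hc] at h1
      cases m with
      | zero =>
        exfalso
        have h2 := B305_tot z
        rw [h1, Finsupp.linearCombination_single, smul_eq_mul, one_mul] at h2
        exact one_ne_zero h2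
      | succ k =>
        have h2 := dif_dif z
        rw [h1, B305_dd, mul_one] at h2
        have h3 : ((k + 2 : ℕ) : ZMod 2) = 0 := by
          have := congrArg (fun u : Ch P k => u (P.deg p k)) h2
          simpa using this
        have h4 : ((k + 1 + 2 : ℕ) : ZMod 2) = 1 := by
          have : k + 1 + 2 = (k + 2) + 1 := by ring
          rw [this, Nat.cast_add, h3, zero_add, Nat.cast_one]
        have h5 : dif (z + Finsupp.single (P.deg p (k + 2)) 1) = 0 := by
          rw [dif_add, h1, B305_dd, h4, mul_one]
          exact two_eq_zero' _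
        obtain ⟨w, hw⟩ := h _ _ h5
        refine ⟨w, SuppIn.top w, ?_⟩
        rw [hw, ← add_assoc, two_eq_zero' z, zero_add]
        exact SuppIn.single (A := Sub.pt p) (x := P.deg p (k + 2)) rfl 1

theorem labM_double {M : Type} [AddCommMonoid M]
    (hM : Function.Bijective (fun x : M => x + x)) {U : SS} (K C : Sub U) (n : ℕ) :
    Function.Bijective (fun x : (lab M K C).S n => x + x) := by
  constructor
  · intro a b hab
    apply Subtype.ext
    ext x
    apply hM.1
    exact congrArg (fun u : (lab M K C).S n => u.1 x) hab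
  · intro b
    set e := Equiv.ofBijective _ hM with he
    have h1 : ∀ y, e.symm y + e.symm y = y := fun y => e.apply_symm_apply y
    have h0 : e.symm 0 = 0 := by
      apply hM.1
      show e.symm 0 + e.symm 0 = 0 + 0
      rw [h1, add_zero]
    refine ⟨⟨b.1.mapRange e.symm h0, fun x hx => b.2 x fun hb => hx ?_⟩, ?_⟩
    · rw [Finsupp.mapRange_apply, hb, h0]
    · apply Subtype.ext
      ext x
      show (b.1.mapRange e.symm h0) x + (b.1.mapRange e.symm h0) x = b.1 x
      rw [Finsupp.mapRange_apply, h1]

end MM
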