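import Pool.Agent.Lib_MP_33f7bb_d.B2A
import Pool.Agent.Lib_MP_33f7bb_d.B305

/-!
# B2B: classifying spaces of finite and locally finite groups are `Y`-acyclic ((BG3), (BG4))
-/

namespace MM

section target

variable {Y : SS} [∀ n, TopologicalSpace (Y.S n)] (hY : IsTarget Y)

include hY

/-- invariance under isomorphism of groups -/
theorem yac_BGr_congr {G G' : Type} [Group G] [Group G'] (e : G ≃* G') :
    YAc Y (BGr G) (BGr.pt G) ↔ YAc Y (BGr G') (BGr.pt G') := by
  let φ : Hom (BGr G) (BGr G') :=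
    { app := fun n f => ⟨fun i => e (f.1 i), by show e (f.1 0) = 1; rw [f.2, map_one]⟩
      nat := by
        intro m n f x
        apply Subtype.ext
        funext i
        show e ((x.1 (f 0))⁻¹ * x.1 (f i)) = (e (x.1 (f 0)))⁻¹ * e (x.1 (f i))
        rw [map_mul, map_inv] }
  have h := YAc.iso_iff hY φ (fun n => ⟨?_, ?_⟩) (BGr.pt G)
  · have e1 : φ.app 0 (BGr.pt G) = BGr.pt G' := by
      apply Subtype.ext
      funext i
      exact map_one e
    rwa [e1] at h
  · intro x y hxy
    apply Subtype.ext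
    funext i
    exact e.injective (congrFun (congrArg Subtype.val hxy) i)
  · intro y
    refine ⟨⟨fun i => e.symm (y.1 i), by show e.symm (y.1 0) = 1; rw [y.2, map_one]⟩, ?_⟩
    apply Subtype.ext
    funext i
    exact e.apply_symm_apply _

theorem yac_BGr_two (G : Type) [Group G] (hG : Nat.card G = 2) :
    YAc Y (BGr G) (BGr.pt G) := by
  have : Fact (Nat.Prime 2) := ⟨Nat.prime_two⟩
  have hc : Nat.card (Multiplicative (ZMod 2)) = 2 := by
    rw [Nat.card_congr Multiplicative.toAdd, Nat.card_zmod]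
  rw [yac_BGr_congr hY (mulEquivOfPrimeCardEq hG hc)]
  let φ : Hom (BGr (Multiplicative (ZMod 2))) BZ2 :=
    { app := fun n f => ⟨fun i => (f.1 i).toAdd, by
        rw [LinearMap.mem_ker]
        show (f.1 0).toAdd = 0
        rw [f.2]; rfl⟩
      nat := by
        intro m n f x
        apply Subtype.ext
        funext i
        show ((x.1 (f 0))⁻¹ * x.1 (f i)).toAdd = (x.1 (f i)).toAdd - (x.1 (f 0)).toAdd
        rw [toAdd_mul, toAdd_inv]
        ring }
  have h := YAc.iso_iff hY φ (fun n => ⟨?_, ?_⟩) (BGr.pt _)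
  · have e1 : φ.app 0 (BGr.pt _) = (0 : K1.V 0) := by
      apply Subtype.ext
      funext i
      rfl
    rw [h, e1]
    exact hY.null
  · intro x y hxy
    apply Subtype.ext
    funext i
    exact Multiplicative.toAdd.injective (congrFun (congrArg Subtype.val hxy) i)
  · rintro ⟨y, hy⟩
    refine ⟨⟨fun i => Multiplicative.ofAdd (y i), ?_⟩, ?_⟩
    · rw [LinearMap.mem_ker] at hy
      have hy' : y 0 = 0 := hy
      show Multiplicative.ofAdd (y 0) = 1
      rw [hy']; rfl
    · apply Subtype.ext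
      funext i
      rfl

omit hY [∀ n, TopologicalSpace (Y.S n)] in
theorem EX.gact_free (G : Type) [Group G] : (EX.gact G G).Free := by
  intro g n x hg
  have h2 : g * x 0 = x 0 := congrFun (show (fun i => g • x i) = x from hg) 0
  exact mul_eq_right.1 h2

omit hY [∀ n, TopologicalSpace (Y.S n)] in
theorem GAct.Free.stab_eq {G : Type} [Group G] {E : SS} {a : GAct G E} (ha : a.Free) {n : ℕ}
    (x : E.S n) : a.stab x = ⊥ := by
  rw [eq_bot_iff]
  intro g hg
  rw [Subgroup.mem_bot]
  exact ha g n x hg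

/-- extensions -/
theorem yac_BGr_ext {G Q : Type} [Group G] [Group Q] (φ : G →* Q) (hφ : Function.Surjective φ)
    (h1 : YAc Y (BGr φ.ker) (BGr.pt φ.ker)) (h2 : YAc Y (BGr Q) (BGr.pt Q)) :
    YAc Y (BGr G) (BGr.pt G) := by
  let A := EX.gact G G
  let B := (EX.gact Q Q).pull φ
  have hA : A.Free := EX.gact_free G
  let o : (EX G).S 0 := fun _ => 1
  let u : (EX Q).S 0 := fun _ => 1
  have hB : ∀ (n : ℕ) (z : (EX Q).S n), B.stab z ⊓ ⊤ = φ.ker := by
    intro n z
    rw [inf_top_eq]
    ext g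
    rw [MonoidHom.mem_ker]
    constructor
    · intro hg
      have h3 : φ g * z 0 = z 0 := congrFun (show (fun i => φ g • z i) = z from hg) 0
      exact mul_eq_right.1 h3
    · intro hg
      show (fun i => φ g • z i) = z
      rw [hg]
      simp
  have s1 : Strat Y (A.prodSnd B ⊤) := by
    refine strat_prodSnd A B ⊤ fun n z => ⟨o, ?_⟩
    rw [hB]
    exact (yac_quo_subgroup_iff hY A hA φ.ker o (EX.acyc G 1)).2 h1
  have s2 : Strat Y (A.prodFst B ⊤) := by
    refine strat_prodFst A B ⊤ fun n z => ⟨u, ?_⟩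
    rw [hA.stab_eq, bot_inf_eq, yac_quo_bot hY B u]
    exact YAc.of_acyc hY (EX.acyc Q 1)
  -- `EQ / G = EQ / Q`
  let ψ : Hom (B.quo ⊤) ((EX.gact Q Q).quo ⊤) :=
    { app := fun n => Quotient.map' (fun x => x) (by
        rintro x y ⟨g, -, rfl⟩
        exact ⟨φ g, trivial, rfl⟩)
      nat := by
        rintro m n f ⟨x⟩
        rfl }
  have h3 := YAc.iso_iff hY ψ (fun n => ⟨?_, ?_⟩) ((B.proj ⊤).app 0 u)
  · have h4 : YAc Y (B.quo ⊤) ((B.proj ⊤).app 0 u) := by
      rw [h3]
      exact (yac_EG_quo hY Q u).2 h2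
    have h5 := (s1.yac_iff hY (((A.prod B).proj ⊤).app 0 (o, u))).2 h4
    have h6 := (s2.yac_iff hY (((A.prod B).proj ⊤).app 0 (o, u))).1 h5
    exact (yac_EG_quo hY G o).1 h6
  · intro x y hxy
    obtain ⟨x, rfl⟩ := B.proj_surj ⊤ x
    obtain ⟨y, rfl⟩ := B.proj_surj ⊤ y
    have h4 : ((EX.gact Q Q).proj ⊤).app n x = ((EX.gact Q Q).proj ⊤).app n y := hxy
    obtain ⟨q, -, hq⟩ := ((EX.gact Q Q).proj_eq_iff ⊤ x y).1 h4
    obtain ⟨g, rfl⟩ := hφ q
    exact (B.proj_eq_iff ⊤ x y).2 ⟨g, trivial, hq⟩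
  · intro y
    obtain ⟨y, rfl⟩ := (EX.gact Q Q).proj_surj ⊤ y
    exact ⟨(B.proj ⊤).app n y, rfl⟩

/-- 2-groups -/
theorem yac_BGr_pgroup (G : Type) [Group G] [Finite G] (hG : IsPGroup 2 G) :
    YAc Y (BGr G) (BGr.pt G) := by
  have : Fact (Nat.Prime 2) := ⟨Nat.prime_two⟩
  suffices H : ∀ (N : ℕ) (G : Type) [Group G] [Finite G], Nat.card G ≤ N → IsPGroup 2 G →
      YAc Y (BGr G) (BGr.pt G) from H (Nat.card G) G le_rfl hG
  intro N
  induction N with
  | zero =>
    intro G _ _ hN _
    have := Nat.card_pos (α := G)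
    omega
  | succ N ih =>
    intro G _ _ hN hG
    rcases subsingleton_or_nontrivial G with hs | hn
    · have e1 : Sub.pt (BGr.pt G) = ⊤ := by
        refine le_antisymm (Sub.le_top' _) ?_
        intro n x _
        show x = _
        apply Subtype.ext
        funext i
        exact Subsingleton.elim _ _
      show Good Y _ _
      rw [e1]
      exact Good.refl Y _
    · have hcen := hG.center_nontrivial
      have h2 : 2 ∣ Nat.card (Subgroup.center G) := by
        obtain ⟨k, hk⟩ := IsPGroup.iff_card.1 (hG.to_subgroup (Subgroup.center G))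
        rw [hk]
        have h3 : 1 < Nat.card (Subgroup.center G) := Finite.one_lt_card
        rw [hk] at h3
        have h4 : k ≠ 0 := by
          rintro rfl
          simp at h3
        exact dvd_pow_self 2 h4
      obtain ⟨c, hc⟩ := exists_prime_orderOf_dvd_card' 2 h2
      let C : Subgroup G := Subgroup.zpowers (c : G)
      have hC : C ≤ Subgroup.center G := by
        rw [Subgroup.zpowers_le]
        exact c.2
      have hCn : C.Normal := by
        constructor
        intro n hn g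
        have h5 := Subgroup.mem_center_iff.1 (hC hn) g
        rw [h5, mul_assoc, mul_inv_cancel, mul_one]
        exact hn
      have hCc : Nat.card C = 2 := by
        rw [Nat.card_zpowers, Subgroup.orderOf_coe, hc]
      have hker : (QuotientGroup.mk' C).ker = C := QuotientGroup.ker_mk' C
      refine yac_BGr_ext hY (QuotientGroup.mk' C) (QuotientGroup.mk'_surjective C) ?_ ?_
      · refine yac_BGr_two hY _ ?_
        rw [hker]
        exact hCc
      · refine ih (G ⧸ C) ?_ (hG.to_quotient C)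
        have h6 := Subgroup.card_eq_card_quotient_mul_card_subgroup C
        rw [hCc] at h6
        have h7 : 0 < Nat.card (G ⧸ C) := Nat.card_pos
        omega

omit hY in
/-- `D = E(G/P)/G` is acyclic when the index of `P` is odd -/
theorem acyc_EX_quo {G : Type} [Group G] {X : Type} [MulAction G X] [Finite X]
    (hX : Odd (Nat.card X)) (htr : ∀ x y : X, ∃ g : G, g • x = y) (x : X) :
    Acyc (Sub.pt (((EX.gact G X).proj ⊤).app 0 (fun _ => x : Fin 1 → X)))
      (⊤ : Sub ((EX.gact G X).quo ⊤)) := by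
  classical
  have : Fintype X := Fintype.ofFinite X
  let a := EX.gact G X
  let D := a.quo ⊤
  let pr : Hom (EX X) D := a.proj ⊤
  have hpr : ∀ {n : ℕ} (g : G) (x : Fin (n + 1) → X), pr.app n (fun i => g • x i) = pr.app n x :=
    fun g x => ((a.proj_eq_iff ⊤ _ _).2 ⟨g, trivial, rfl⟩).symm
  -- the contraction
  let hf : ∀ n, D.S n → Ch D (n + 1) := fun n => Quotient.lift
    (fun x : Fin (n + 1) → X => ∑ y : X, (Finsupp.single (pr.app (n + 1) (Fin.cons y x)) 1 :
      Ch D (n + 1))) (by
      rintro x x' ⟨g, -, rfl⟩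
      refine (Finset.sum_congr rfl fun y _ => ?_).trans (Equiv.sum_comp (MulAction.toPerm g)
        (fun y => (Finsupp.single (pr.app (n + 1) (Fin.cons y (a.sm g n x))) 1 : Ch D (n + 1))))
      have h1 : (Fin.cons (MulAction.toPerm g y) (a.sm g n x) : Fin (n + 2) → X) =
          fun i => g • (Fin.cons y x : Fin (n + 2) → X) i := by
        funext i
        refine Fin.cases ?_ (fun j => ?_) i
        · rfl
        · rfl
      rw [h1, hpr])
  let hL : ∀ n, Ch D n →ₗ[ZMod 2] Ch D (n + 1) := fun n => Finsupp.linearCombination (ZMod 2) (hf n)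
  have hodd : (Fintype.card X : ZMod 2) = 1 := by
    rw [← Nat.card_eq_fintype_card]
    obtain ⟨k, hk⟩ := hX
    rw [hk]
    have : (2 : ZMod 2) = 0 := rfl
    push_cast
    rw [this]; ring
  have hid : ∀ (n : ℕ) (z : Ch D (n + 1)), dif (hL (n + 1) z) = z + hL n (dif z) := by
    intro n z
    have hlin : (lin D).d (n + 1) ∘ₗ hL (n + 1) = LinearMap.id + hL n ∘ₗ (lin D).d n := by
      refine Finsupp.lhom_ext' fun q => LinearMap.ext_ring ?_
      obtain ⟨x, rfl⟩ := a.proj_surj ⊤ q
      show (lin D).d (n + 1) (hL (n + 1) (Finsupp.single (pr.app (n + 1) x) 1)) =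
        Finsupp.single (pr.app (n + 1) x) 1 +
          hL n ((lin D).d n (Finsupp.single (pr.app (n + 1) x) 1))
      have e1 : hL (n + 1) (Finsupp.single (pr.app (n + 1) x) 1) =
          ∑ y : X, Finsupp.single (pr.app (n + 2) (Fin.cons y x)) 1 := by
        show Finsupp.linearCombination (ZMod 2) (hf (n + 1)) _ = _
        rw [Finsupp.linearCombination_single, one_smul]
        rfl
      rw [e1, map_sum]
      have e2 : ∀ y : X, (lin D).d (n + 1) (Finsupp.single (pr.app (n + 2) (Fin.cons y x)) 1) =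
          Finsupp.single (pr.app (n + 1) x) 1 +
          ∑ i : Fin (n + 2), Finsupp.single (pr.app (n + 1) (Fin.cons y (fun j => x (dlt i j)))) 1 := by
        intro y
        rw [lin_d]
        unfold dif
        rw [Fin.sum_univ_succ, Finsupp.mapDomain_single]
        have e3 : D.act (dlt 0) (pr.app (n + 2) (Fin.cons y x)) = pr.app (n + 1) x :=
          (pr.nat (dlt 0) (Fin.cons y x : Fin (n + 3) → X)).symm
        have e4 : ∀ i : Fin (n + 2), Finsupp.mapDomain (D.act (dlt i.succ))
            (Finsupp.single (pr.app (n + 2) (Fin.cons y x)) (1 : ZMod 2)) =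
            Finsupp.single (pr.app (n + 1) (Fin.cons y (fun j => x (dlt i j)))) 1 := by
          intro i
          rw [Finsupp.mapDomain_single]
          have e5 : (EX X).act (dlt i.succ) (Fin.cons y x : Fin (n + 3) → X) =
              (Fin.cons y (fun j => x (dlt i j)) : Fin (n + 2) → X) := by
            funext j
            show (Fin.cons y x : Fin (n + 3) → X) (i.succ.succAbove j) = _
            refine Fin.cases ?_ (fun j => ?_) j
            · rw [Fin.succ_succAbove_zero]
              rfl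
            · rw [Fin.succ_succAbove_succ]
              rfl
          rw [← e5]
          congr 1
        rw [e3, Finset.sum_congr rfl fun i _ => e4 i]
      rw [Finset.sum_congr rfl fun y _ => e2 y, Finset.sum_add_distrib, Finset.sum_const,
        Finset.card_univ, ← Nat.cast_smul_eq_nsmul (ZMod 2), hodd, one_smul]
      congr 1
      rw [lin_d]
      unfold dif
      rw [map_sum, Finset.sum_comm]
      refine Finset.sum_congr rfl fun i _ => ?_
      rw [Finsupp.mapDomain_single]
      show _ = Finsupp.linearCombination (ZMod 2) (hf n) _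
      rw [Finsupp.linearCombination_single, one_smul]
      rfl
    have h1 := LinearMap.congr_fun hlin z
    simp only [LinearMap.comp_apply, LinearMap.add_apply, LinearMap.id_apply] at h1
    rw [← lin_d, ← lin_d]
    exact h1
  refine acyc_pt_of_abs _ ?_ ?_
  · intro n z hz
    refine ⟨hL (n + 1) z, ?_⟩
    rw [hid, hz, map_zero, add_zero]
  · intro z
    refine ⟨0, ?_⟩
    rw [dif_zero, add_zero]
    intro q _
    obtain ⟨y, rfl⟩ := a.proj_surj ⊤ q
    show (a.proj ⊤).app 0 y = (a.quo ⊤).act (cst 0) ((a.proj ⊤).app 0 (fun _ => x))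
    rw [← (a.proj ⊤).nat]
    obtain ⟨g, hg⟩ := htr (y 0) x
    refine (a.proj_eq_iff ⊤ _ _).2 ⟨g, trivial, ?_⟩
    funext i
    have hi : i = 0 := Fin.eq_zero i
    subst hi
    exact hg

/-- (BG4) all finite groups -/
theorem yac_BGr_finite (G : Type) [Group G] [Finite G] : YAc Y (BGr G) (BGr.pt G) := by
  classical
  have : Fact (Nat.Prime 2) := ⟨Nat.prime_two⟩
  obtain ⟨P⟩ : Nonempty (Sylow 2 G) := inferInstance
  let X := G ⧸ (P : Subgroup G)
  let x₀ : X := ((1 : G) : G ⧸ (P : Subgroup G))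
  have hX : Odd (Nat.card X) := by
    rw [← Subgroup.index_eq_card, ← Nat.not_even_iff_odd, even_iff_two_dvd]
    exact P.not_dvd_index
  let A := EX.gact G G
  let B := EX.gact G X
  have hA : A.Free := EX.gact_free G
  let o : (EX G).S 0 := fun _ => 1
  let u : (EX X).S 0 := fun _ => x₀
  have hpg : ∀ (n : ℕ) (z : (EX X).S n), IsPGroup 2 (B.stab z ⊓ ⊤ : Subgroup G) := by
    rintro n z ⟨g, hg, -⟩
    obtain ⟨h, hh⟩ := QuotientGroup.mk_surjective (z 0)
    have h1 : g • z 0 = z 0 := congrFun (show (fun i => g • z i) = z from hg) 0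
    rw [← hh] at h1
    have h2 : ((g * h : G) : G ⧸ (P : Subgroup G)) = (h : G ⧸ (P : Subgroup G)) := h1
    have h3 : h⁻¹ * (g * h) ∈ (P : Subgroup G) := QuotientGroup.eq.1 h2.symm
    obtain ⟨k, hk⟩ := P.isPGroup' ⟨_, h3⟩
    refine ⟨k, ?_⟩
    apply Subtype.ext
    have h4 : (h⁻¹ * (g * h)) ^ 2 ^ k = 1 := congrArg Subtype.val hk
    have h5 : h⁻¹ * (g * h) = h⁻¹ * g * (h⁻¹)⁻¹ := by rw [inv_inv, mul_assoc]
    rw [h5, conj_pow, conj_eq_one_iff] at h4
    exact h4
  have s1 : Strat Y (A.prodSnd B ⊤) := by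
    refine strat_prodSnd A B ⊤ fun n z => ⟨o, ?_⟩
    exact (yac_quo_subgroup_iff hY A hA _ o (EX.acyc G 1)).2 (yac_BGr_pgroup hY _ (hpg n z))
  have s2 : Strat Y (A.prodFst B ⊤) := by
    refine strat_prodFst A B ⊤ fun n z => ⟨u, ?_⟩
    rw [hA.stab_eq, bot_inf_eq, yac_quo_bot hY B u]
    exact YAc.of_acyc hY (EX.acyc X x₀)
  have h4 : YAc Y (B.quo ⊤) ((B.proj ⊤).app 0 u) := by
    refine YAc.of_acyc hY (acyc_EX_quo hX ?_ x₀)
    intro x y
    exact MulAction.exists_smul_eq G x y
  have h5 := (s1.yac_iff hY (((A.prod B).proj ⊤).app 0 (o, u))).2 h4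
  have h6 := (s2.yac_iff hY (((A.prod B).proj ⊤).app 0 (o, u))).1 h5
  exact (yac_EG_quo hY G o).1 h6

/-- locally finite groups -/
theorem yac_BGr_locally_finite (G : Type) [Group G]
    (hG : ∀ S : Finset G, ∃ H : Subgroup G, Finite H ∧ (S : Set G) ⊆ H) :
    YAc Y (BGr G) (BGr.pt G) := by
  classical
  let ι := {H : Subgroup G // Finite H}
  have hι : Nonempty ι := by
    obtain ⟨H, hH, -⟩ := hG ∅
    exact ⟨⟨H, hH⟩⟩
  let C : ι → Sub (BGr G) := fun H => ⟨fun n => {f | ∀ i, f.1 i ∈ H.1}, by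
    intro m n f x hx i
    exact H.1.mul_mem (H.1.inv_mem (hx _)) (hx _)⟩
  have hp : ∀ i, BGr.pt G ∈ (C i).car 0 := fun H i => H.1.one_mem
  refine YAc.iUn hY C ?_ (BGr.pt G) hp ?_ ?_
  · rintro ⟨H, hH⟩ ⟨K, hK⟩
    have : Finite H := hH
    have : Finite K := hK
    have fH : ((H : Set G)).Finite := Set.toFinite _
    have fK : ((K : Set G)).Finite := Set.toFinite _
    obtain ⟨L, hL, hS⟩ := hG (fH.toFinset ∪ fK.toFinset)
    refine ⟨⟨L, hL⟩, fun n f hf i => hS ?_, fun n f hf i => hS ?_⟩
    · rw [Finset.mem_coe, Finset.mem_union]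
      exact Or.inl (fH.mem_toFinset.2 (hf i))
    · rw [Finset.mem_coe, Finset.mem_union]
      exact Or.inr (fK.mem_toFinset.2 (hf i))
  · intro n f
    obtain ⟨L, hL, hS⟩ := hG (Finset.univ.image f.1)
    refine ⟨⟨L, hL⟩, fun i => hS ?_⟩
    rw [Finset.mem_coe]
    exact Finset.mem_image_of_mem _ (Finset.mem_univ i)
  · rintro ⟨H, hH⟩
    have : Finite H := hH
    let φ : Hom (BGr H) (C ⟨H, hH⟩).ss :=
      { app := fun n f => ⟨⟨fun i => (f.1 i : G), by
          show ((f.1 0 : H) : G) = 1; rw [f.2]; rfl⟩, fun i => (f.1 i).2⟩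
        nat := by
          intro m n f x
          rfl }
    have h := YAc.iso_iff hY φ (fun n => ⟨?_, ?_⟩) (BGr.pt H)
    · exact h.1 (yac_BGr_finite hY H)
    · intro x y hxy
      apply Subtype.ext
      funext i
      apply Subtype.ext
      exact congrFun (congrArg (fun z => z.1.1) hxy) i
    · rintro ⟨⟨y, hy⟩, hy'⟩
      refine ⟨⟨fun i => ⟨y i, hy' i⟩, Subtype.ext hy⟩, ?_⟩
      rfl

/-- quotients of acyclic simplicial sets by free actions of finite groups -/
theorem yac_quo_finite {G : Type} [Group G] [Finite G] {E : SS} (a : GAct G E) (ha : a.Free)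
    (e : E.S 0) (he : Acyc (Sub.pt e) (⊤ : Sub E)) :
    YAc Y (a.quo ⊤) ((a.proj ⊤).app 0 e) :=
  (yac_quo_iff hY a ha e he).2 (yac_BGr_finite hY G)

end target

end MM
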