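import Pool.Agent.Lib_MP_33f7bb_d.B1C
import Pool.Agent.Lib_MP_33f7bb_d.B3Def
import Pool.Agent.Lib_MP_33f7bb_d.A002

/-!
# B3-01 (L1): `lab K C → lab K' C` is stratified with fibre `lab K K'`

`K ≤ K' ≤ C`.  For `b : (lab A K' C).S n` take `F = lab A K K'` and
`Φ (z, β) = z + b^β`, where `b^β := labAct A K β b.1` (`b.1` regarded as an element of
`labM A K C n`; it is one since `K ≤ K'`).
* values in `labM A K C m`: `z` is supported in `K' \ K`, `K' ≤ C`.
* natural: `labAct A K f (z + labAct A K β b) = labAct A K f z + labAct A K (β.comp f) b`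
  (`map_add`, `labAct_comp`).
* over: dropping the part in `K'`: `z` disappears, and `(labAct A K β b).filter (∉ K') = labAct A K' β b`
  (evaluate at a point, `labAct_of_mem`, `labAct_of_notMem`).
* bijectivity for surjective `β`: `labAct A K β b` vanishes on `K'`: a simplex `act β x` with `x ∉ K'` is not in
  `K'` (`act_mem_iff`), so `(mapDomain (act β) b) y = 0` for `y ∈ K'` and `labAct A K β b = labAct A K' β b`.
  Injective: restrict to `K'`.  Surjective: if the part of `e` outside `K'` is `labAct A K' β b`, take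
  `z = e.filter (∈ K')`.
* fibre: the hypothesis `h` (vertex `0`).
-/

namespace MM

open Classical

section B301

variable {A : Type} [AddCommMonoid A] {U : SS} {K K' C : Sub U}

private theorem B301_sub (hK : K ≤ K') {n : ℕ} {b : U.S n →₀ A} (hb : b ∈ labM A K' C n) :
    b ∈ labM A K C n := fun x hx => ⟨(hb x hx).1, fun h => (hb x hx).2 (hK n h)⟩

private theorem B301_sub' (hC : K' ≤ C) {n : ℕ} {z : U.S n →₀ A} (hz : z ∈ labM A K K' n) :
    z ∈ labM A K C n := fun x hx => ⟨hC n (hz x hx).1, (hz x hx).2⟩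

private theorem B301_zero {n : ℕ} {z : U.S n →₀ A} (hz : z ∈ labM A K K' n) {y : U.S n}
    (hy : y ∉ K'.car n) : z y = 0 := by
  by_contra h
  exact hy (hz y h).1

private theorem B301_zero' {n : ℕ} {b : U.S n →₀ A} (hb : b ∈ labM A K' C n) {y : U.S n}
    (hy : y ∈ K'.car n) : b y = 0 := by
  by_contra h
  exact (hb y h).2 hy

/-- the value outside `K'` -/
private theorem B301_out (hK : K ≤ K') {m n : ℕ} (f : Mo m n) (b : U.S n →₀ A) {y : U.S m}
    (hy : y ∉ K'.car m) : labAct A K f b y = labAct A K' f b y := by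
  rw [labAct_of_notMem K' f b hy, labAct_of_notMem K f b fun h => hy (hK m h)]

/-- the value in `K'`, surjective structure maps -/
private theorem B301_in {m n : ℕ} (f : Mo m n) (hf : Function.Surjective f)
    {b : U.S n →₀ A} (hb : b ∈ labM A K' C n) {y : U.S m} (hy : y ∈ K'.car m) :
    labAct A K f b y = 0 := by
  by_cases h : y ∈ K.car m
  · exact labAct_of_mem K f b h
  · rw [labAct_of_notMem K f b h]
    by_contra h1
    have h' := Finsupp.mapDomain_support (Finsupp.mem_support_iff.2 h1)
    obtain ⟨x, hx, rfl⟩ := Finset.mem_image.1 h'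
    exact (hb x (Finsupp.mem_support_iff.1 hx)).2 ((act_mem_iff K' f hf x).1 hy)

/-- the map `(z, β) ↦ z + b^β` -/
private noncomputable def B301_Phi (hK : K ≤ K') (hC : K' ≤ C) {n : ℕ} (b : (lab A K' C).S n) :
    Hom ((lab A K K').prod (Del n)) (lab A K C) where
  app m p := ⟨p.1.1 + labAct A K p.2 b.1,
    add_mem (B301_sub' hC p.1.2) (labAct_mem p.2 (B301_sub hK b.2))⟩
  nat {l m} f p := by
    apply Subtype.ext
    show labAct A K f p.1.1 + labAct A K (p.2.comp f) b.1 =
      labAct A K f (p.1.1 + labAct A K p.2 b.1)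
    rw [map_add, labAct_comp]

private theorem B301_Phi_apply (hK : K ≤ K') (hC : K' ≤ C) {n : ℕ} (b : (lab A K' C).S n) {m : ℕ}
    (z : (lab A K K').S m) (β : Mo m n) :
    ((B301_Phi hK hC b).app m (z, β)).1 = z.1 + labAct A K β b.1 := rfl

end B301

theorem labProj_strat {Y : SS} (A : Type) [AddCommMonoid A] {U : SS} {K K' C : Sub U}
    (hK : K ≤ K') (hC : K' ≤ C) (h : YAc Y (lab A K K') 0) : Strat Y (labProj A C hK) := by
  intro n b _
  refine ⟨lab A K K', 0, B301_Phi hK hC b, h, ?_, ?_⟩
  · intro m z α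
    apply Subtype.ext
    ext y
    show ((labProj A C hK).app m ((B301_Phi hK hC b).app m (z, α))).1 y = labAct A K' α b.1 y
    by_cases hy : y ∈ K'.car m
    · rw [labProj_of_mem A C hK _ hy, labAct_of_mem K' α _ hy]
    · rw [labProj_of_notMem A C hK _ hy, B301_Phi_apply, Finsupp.add_apply, B301_zero z.2 hy,
        zero_add, B301_out hK α b.1 hy]
  · intro m α hα e he
    have he' : ∀ y, y ∉ K'.car m → e.1 y = labAct A K' α b.1 y := by
      intro y hy
      have h1 := congrArg (fun w => w.1 y) he
      rw [← labProj_of_notMem A C hK e hy]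
      exact h1
    have hz : e.1.filter (fun y => y ∈ K'.car m) ∈ labM A K K' m := by
      intro y hy
      rw [Finsupp.filter_apply] at hy
      by_cases h1 : y ∈ K'.car m
      · rw [if_pos h1] at hy
        exact ⟨h1, (e.2 y hy).2⟩
      · rw [if_neg h1] at hy
        exact absurd rfl hy
    refine ⟨⟨e.1.filter (fun y => y ∈ K'.car m), hz⟩, ?_, ?_⟩
    · apply Subtype.ext
      rw [B301_Phi_apply]
      ext y
      rw [Finsupp.add_apply]
      by_cases hy : y ∈ K'.car m
      · rw [Finsupp.filter_apply, if_pos hy, B301_in α hα b.2 hy, add_zero]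
      · rw [Finsupp.filter_apply, if_neg hy, zero_add, B301_out hK α b.1 hy, he' y hy]
    · intro z hzz
      apply Subtype.ext
      ext y
      have h1 := congrArg (fun w => w.1 y) hzz
      have h2 : z.1 y + labAct A K α b.1 y = e.1 y := h1
      by_cases hy : y ∈ K'.car m
      · rw [Finsupp.filter_apply, if_pos hy, ← h2, B301_in α hα b.2 hy, add_zero]
      · rw [Finsupp.filter_apply, if_neg hy, B301_zero z.2 hy]

end MM
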