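import Pool.Agent.Lib_MP_33f7bb_d.B1C
import Pool.Agent.Lib_MP_33f7bb_d.B3Def
import Pool.Agent.Lib_MP_33f7bb_d.A002

/-!
# B3-02 (L2, first projection): `TL c K K' C → lab N K' C`, fibre `lab M K K'`

`K ≤ K' ≤ C`; `TL c K K' C`: labels `a` in `M` supported in `C \ K`, integral (`∈ range c.ι`) outside `K'`.
`c.ι` is injective (`c.inj n n' 0`).

The map `p`: `(p a) x = 0` for `x ∈ K'`, and `ι ((p a) x) = a x` for `x ∉ K'` (choice; build the finsupp
with `Finsupp.onFinset a.1.support` or `Finsupp.mapRange` with a left inverse `ρ : M → N` of `ι`, `ρ 0 = 0`: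
`p a = (a.1.filter (∉ K')).mapRange ρ`).  Characterisation: `(p a).mapRange ι = a.filter (∉ K')`.
Since `mapRange ι` is injective on labels and commutes with the structure maps (`labAct_mapRange`),
naturality of `p` follows from naturality of `labProj`.

Stratification over `b : (lab N K' C).S n`: `F = lab M K K'`, `Φ (z, β) = z + labAct M K β (b.mapRange ι)`.
* it lies in `TLM`: outside `K'`, `z` vanishes and `labAct M K β (b.mapRange ι) = (labAct N K β b).mapRange ι`
  is integral.
* over `b`: `((Φ (z,β)).filter (∉ K')) = labAct M K' β (b.mapRange ι) = (labAct N K' β b).mapRange ι`.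
* `β` surjective: `labAct M K β (b.mapRange ι)` vanishes on `K'` (`act_mem_iff`: `act β x ∈ K' ↔ x ∈ K'`),
  so `z` is recovered by restriction to `K'`; conversely `e = e|K' + e|(∉ K')`.
* the fibre is `YAc` by `h`.
-/

namespace MM

open Classical

private theorem B302_inj {N M D : Type} [AddCommMonoid N] [AddCommMonoid M] [AddCommGroup D]
    (c : Coef N M D) : Function.Injective c.ι := by
  intro n n' h
  exact c.inj n n' 0 (by rw [h])

private theorem B302_ex {N M D : Type} [AddCommMonoid N] [AddCommMonoid M] [AddCommGroup D]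
    (c : Coef N M D) : ∃ ρ : M → N, ρ 0 = 0 ∧ ∀ n, ρ (c.ι n) = n := by
  have : Nonempty N := ⟨0⟩
  have h := Function.leftInverse_invFun (B302_inj c)
  refine ⟨Function.invFun c.ι, ?_, h⟩
  have h0 := h 0
  rwa [map_zero] at h0

/-- a left inverse of `ι` -/
private noncomputable def B302_rho {N M D : Type} [AddCommMonoid N] [AddCommMonoid M]
    [AddCommGroup D] (c : Coef N M D) : M → N := (B302_ex c).choose

private theorem B302_rho0 {N M D : Type} [AddCommMonoid N] [AddCommMonoid M] [AddCommGroup D]
    (c : Coef N M D) : B302_rho c 0 = 0 := (B302_ex c).choose_spec.1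

private theorem B302_rhoi {N M D : Type} [AddCommMonoid N] [AddCommMonoid M] [AddCommGroup D]
    (c : Coef N M D) (n : N) : B302_rho c (c.ι n) = n := (B302_ex c).choose_spec.2 n

/-- the integral part outside `K'` -/
private noncomputable def B302_fun {N M D : Type} [AddCommMonoid N] [AddCommMonoid M]
    [AddCommGroup D] (c : Coef N M D) {U : SS} (K' : Sub U) (n : ℕ) (a : U.S n →₀ M) :
    U.S n →₀ N :=
  (a.filter (fun x => x ∉ K'.car n)).mapRange (B302_rho c) (B302_rho0 c)

private theorem B302_of_mem {N M D : Type} [AddCommMonoid N] [AddCommMonoid M] [AddCommGroup D]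
    (c : Coef N M D) {U : SS} (K' : Sub U) (n : ℕ) (a : U.S n →₀ M) {x : U.S n}
    (hx : x ∈ K'.car n) : B302_fun c K' n a x = 0 := by
  rw [B302_fun, Finsupp.mapRange_apply, Finsupp.filter_apply, if_neg (not_not.2 hx), B302_rho0]

private theorem B302_of_notMem {N M D : Type} [AddCommMonoid N] [AddCommMonoid M]
    [AddCommGroup D] (c : Coef N M D) {U : SS} (K' : Sub U) (n : ℕ) (a : U.S n →₀ M)
    {x : U.S n} (hx : x ∉ K'.car n) : B302_fun c K' n a x = B302_rho c (a x) := by
  rw [B302_fun, Finsupp.mapRange_apply, Finsupp.filter_apply, if_pos hx]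

private theorem B302_char {N M D : Type} [AddCommMonoid N] [AddCommMonoid M] [AddCommGroup D]
    (c : Coef N M D) {U : SS} {K K' C : Sub U} {n : ℕ} {a : U.S n →₀ M}
    (ha : a ∈ TLM c K K' C n) :
    (B302_fun c K' n a).mapRange c.ι (map_zero c.ι) = a.filter (fun x => x ∉ K'.car n) := by
  ext x
  rw [Finsupp.mapRange_apply, Finsupp.filter_apply]
  by_cases h : x ∈ K'.car n
  · rw [B302_of_mem c K' n a h, map_zero, if_neg (not_not.2 h)]
  · obtain ⟨k, hk⟩ := ha.2 x h
    rw [B302_of_notMem c K' n a h, if_pos h, ← hk, B302_rhoi]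

private theorem B302_mem {N M D : Type} [AddCommMonoid N] [AddCommMonoid M] [AddCommGroup D]
    (c : Coef N M D) {U : SS} {K K' C : Sub U} {n : ℕ} {a : U.S n →₀ M}
    (ha : a ∈ TLM c K K' C n) : B302_fun c K' n a ∈ labM N K' C n := by
  intro x hx
  have h1 : x ∉ K'.car n := fun h => hx (B302_of_mem c K' n a h)
  refine ⟨(ha.1 x fun h0 => hx ?_).1, h1⟩
  rw [B302_of_notMem c K' n a h1, h0, B302_rho0]

/-- dropping the part in the bigger subcomplex -/
private theorem B302_fil {M : Type} [AddCommMonoid M] {U : SS} {K K' : Sub U} (hK : K ≤ K')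
    {m n : ℕ} (f : Mo m n) (a : U.S n →₀ M) :
    (labAct M K f a).filter (fun x => x ∉ K'.car m) = labAct M K' f a := by
  ext y
  rw [Finsupp.filter_apply]
  by_cases h : y ∈ K'.car m
  · rw [if_neg (not_not.2 h), labAct_of_mem K' f _ h]
  · rw [if_pos h, labAct_of_notMem K' f _ h, labAct_of_notMem K f _ fun h' => h (hK _ h')]

private theorem B302_minj {N M D : Type} [AddCommMonoid N] [AddCommMonoid M] [AddCommGroup D]
    (c : Coef N M D) {X : Type} {a b : X →₀ N}
    (h : a.mapRange c.ι (map_zero c.ι) = b.mapRange c.ι (map_zero c.ι)) : a = b :=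
  Finsupp.mapRange_injective c.ι (map_zero c.ι) (B302_inj c) h

/-- the projection -/
private noncomputable def B302_p {N M D : Type} [AddCommMonoid N] [AddCommMonoid M]
    [AddCommGroup D] (c : Coef N M D) {U : SS} {K K' C : Sub U} (hK : K ≤ K') :
    Hom (TL c K K' C) (lab N K' C) where
  app n a := ⟨B302_fun c K' n a.1, B302_mem c a.2⟩
  nat {m n} f a := by
    apply Subtype.ext
    show B302_fun c K' m (labAct M K f a.1) = labAct N K' f (B302_fun c K' n a.1)
    apply B302_minj c
    rw [B302_char c (TLM_act c f a.2), ← labAct_mapRange c.ι K' f, B302_char c a.2,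
      labAct_filter, B302_fil hK]

private theorem B302_zfil {M : Type} [AddCommMonoid M] {U : SS} {K K' : Sub U} {m : ℕ}
    {z : U.S m →₀ M} (hz : z ∈ labM M K K' m) : z.filter (fun x => x ∉ K'.car m) = 0 := by
  rw [Finsupp.filter_eq_zero_iff]
  intro x hx
  by_contra h
  exact hx (hz x h).1

/-- the part of `Φ` coming from the base -/
private noncomputable abbrev B302_B {N M D : Type} [AddCommMonoid N] [AddCommMonoid M]
    [AddCommGroup D] (c : Coef N M D) {X : Type} (b : X →₀ N) : X →₀ M :=
  b.mapRange c.ι (map_zero c.ι)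

private theorem B302_Phi_mem {N M D : Type} [AddCommMonoid N] [AddCommMonoid M] [AddCommGroup D]
    (c : Coef N M D) {U : SS} {K K' C : Sub U} (hK : K ≤ K') (hC : K' ≤ C) {m n : ℕ}
    {b : U.S n →₀ N} (hb : b ∈ labM N K' C n) (β : Mo m n) {z : U.S m →₀ M}
    (hz : z ∈ labM M K K' m) : z + labAct M K β (B302_B c b) ∈ TLM c K K' C m := by
  have h1 : z ∈ labM M K C m := fun x hx => ⟨hC _ (hz x hx).1, (hz x hx).2⟩
  have h2 : B302_B c b ∈ labM M K C n := by
    intro x hx
    have h3 : b x ≠ 0 := by
      intro h0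
      apply hx
      rw [B302_B, Finsupp.mapRange_apply, h0, map_zero]
    exact ⟨(hb x h3).1, fun h' => (hb x h3).2 (hK _ h')⟩
  refine ⟨add_mem h1 (labAct_mem β h2), fun x hx => ⟨labAct N K β b x, ?_⟩⟩
  have h3 : z x = 0 := by
    by_contra h
    exact hx (hz x h).1
  rw [Finsupp.add_apply, h3, zero_add, B302_B, labAct_mapRange c.ι K β, Finsupp.mapRange_apply]

/-- the trivialisation over a simplex of the base -/
private noncomputable def B302_Phi {N M D : Type} [AddCommMonoid N] [AddCommMonoid M]
    [AddCommGroup D] (c : Coef N M D) {U : SS} {K K' C : Sub U} (hK : K ≤ K') (hC : K' ≤ C)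
    {n : ℕ} (b : (lab N K' C).S n) : Hom ((lab M K K').prod (Del n)) (TL c K K' C) where
  app m q := ⟨q.1.1 + labAct M K q.2 (B302_B c b.1), B302_Phi_mem c hK hC b.2 q.2 q.1.2⟩
  nat {l m} f q := by
    obtain ⟨z, β⟩ := q
    apply Subtype.ext
    show labAct M K f z.1 + labAct M K (β.comp f) (B302_B c b.1) =
      labAct M K f (z.1 + labAct M K β (B302_B c b.1))
    rw [map_add, labAct_comp]

/-- over a surjective map the pulled back labels avoid `K'` -/
private theorem B302_van {M : Type} [AddCommMonoid M] {U : SS} {K K' : Sub U} {m n : ℕ}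
    (α : Mo m n) (hα : Function.Surjective α) {B : U.S n →₀ M}
    (hB : ∀ x, B x ≠ 0 → x ∉ K'.car n) {y : U.S m} (hy : y ∈ K'.car m) :
    labAct M K α B y = 0 := by
  by_cases h1 : y ∈ K.car m
  · exact labAct_of_mem K α B h1
  · rw [labAct_of_notMem K α B h1]
    by_contra h
    have h' := Finsupp.mapDomain_support (Finsupp.mem_support_iff.2 h)
    obtain ⟨x, hx, rfl⟩ := Finset.mem_image.1 h'
    exact hB x (Finsupp.mem_support_iff.1 hx) ((act_mem_iff K' α hα x).1 hy)

theorem exists_TLp {Y : SS} {N M D : Type} [AddCommMonoid N] [AddCommMonoid M] [AddCommGroup D]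
    (c : Coef N M D) {U : SS} {K K' C : Sub U} (hK : K ≤ K') (hC : K' ≤ C)
    (h : YAc Y (lab M K K') 0) :
    ∃ p : Hom (TL c K K' C) (lab N K' C), p.app 0 0 = 0 ∧ Strat Y p := by
  refine ⟨B302_p c hK, ?_, ?_⟩
  · apply Subtype.ext
    show B302_fun c K' 0 (0 : U.S 0 →₀ M) = 0
    ext x
    by_cases hx : x ∈ K'.car 0
    · rw [B302_of_mem c K' 0 _ hx]; rfl
    · rw [B302_of_notMem c K' 0 _ hx]
      exact B302_rho0 c
  · intro n b _
    have hB : ∀ x, B302_B c b.1 x ≠ 0 → x ∉ K'.car n := by
      intro x hx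
      have h3 : b.1 x ≠ 0 := by
        intro h0
        apply hx
        rw [B302_B, Finsupp.mapRange_apply, h0, map_zero]
      exact (b.2 x h3).2
    refine ⟨lab M K K', 0, B302_Phi c hK hC b, h, ?_, ?_⟩
    · intro m y α
      apply Subtype.ext
      show B302_fun c K' m (y.1 + labAct M K α (B302_B c b.1)) = labAct N K' α b.1
      apply B302_minj c
      rw [B302_char c (B302_Phi_mem c hK hC b.2 α y.2), ← labAct_mapRange c.ι K' α,
        Finsupp.filter_add, B302_zfil y.2, zero_add, B302_fil hK]
    · intro m α hα e he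
      have he' : B302_fun c K' m e.1 = labAct N K' α b.1 := congrArg Subtype.val he
      have he2 : e.1.filter (fun x => x ∉ K'.car m) = labAct M K' α (B302_B c b.1) := by
        rw [← B302_char c e.2, he', B302_B, labAct_mapRange c.ι K' α]
      have hpt : ∀ x, x ∉ K'.car m → e.1 x = labAct M K α (B302_B c b.1) x := by
        intro x hx
        have h1 := DFunLike.congr_fun he2 x
        rw [Finsupp.filter_apply, if_pos hx, labAct_of_notMem K' α _ hx] at h1
        rw [h1, labAct_of_notMem K α _ fun h' => hx (hK _ h')]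
      refine ⟨⟨e.1.filter (fun x => x ∈ K'.car m), ?_⟩, ?_, ?_⟩
      · intro x hx
        rw [Finsupp.filter_apply] at hx
        by_cases h1 : x ∈ K'.car m
        · rw [if_pos h1] at hx
          exact ⟨h1, (e.2.1 x hx).2⟩
        · rw [if_neg h1] at hx
          exact absurd rfl hx
      · apply Subtype.ext
        show e.1.filter (fun x => x ∈ K'.car m) + labAct M K α (B302_B c b.1) = e.1
        ext x
        rw [Finsupp.add_apply, Finsupp.filter_apply]
        by_cases h1 : x ∈ K'.car m
        · rw [if_pos h1, B302_van α hα hB h1, add_zero]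
        · rw [if_neg h1, zero_add, hpt x h1]
      · intro y hy
        have hy' : y.1 + labAct M K α (B302_B c b.1) = e.1 := congrArg Subtype.val hy
        apply Subtype.ext
        show y.1 = e.1.filter (fun x => x ∈ K'.car m)
        ext x
        rw [Finsupp.filter_apply]
        by_cases h1 : x ∈ K'.car m
        · rw [if_pos h1, ← hy', Finsupp.add_apply, B302_van α hα hB h1, add_zero]
        · rw [if_neg h1]
          by_contra h2
          exact h1 (y.2 x h2).1

end MM
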