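import Pool.Agent.Lib_MP_33f7bb_d.B1C
import Pool.Agent.Lib_MP_33f7bb_d.B3Def
import Pool.Agent.Lib_MP_33f7bb_d.A002

/-!
# B3-03 (L2, second projection): `TL c K K' C → lab D K K'`, fibre `lab N K C`

`q a = a.mapRange c.q`.  It is supported in `K' \ K`: outside `K'` `a x = ι k`, so `q (a x) = 0` (`c.qι`); natural
by `labAct_mapRange`.

Stratification over `b : (lab D K K').S n`: let `b̂ = b.mapRange c.s` (`c.s0`), so `b̂ ∈ TLM c K K' C n`
(supported in `K' \ K`, zero, hence integral, outside `K'`) and `b̂.mapRange q = b` (`c.qs`).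
`F = lab N K C`, `Φ (z, β) = z.mapRange ι + labAct M K β b̂`.
* in `TLM`: use `TLM_act`; `z.mapRange ι` is integral everywhere.  Natural: `map_add`, `labAct_comp`,
  `labAct_mapRange`.
* over `b`: `q (ι (z x)) = 0`, `(labAct M K β b̂).mapRange q = labAct D K β b`.
* `β` surjective: `x ↦ act β x` is injective (a section `t` of `β`: `exists_section`,
  `act t (act β x) = x`), and `act β x ∈ K ↔ x ∈ K` (`act_mem_iff`).  Hence `labAct M K β b̂` has the value
  `s (b x) = s ((labAct D K β b) (act β x))` at `act β x` and `0` elsewhere: i.e.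
  `labAct M K β b̂ = (labAct D K β b).mapRange s`.  Injective: `c.inj`.  Surjective: let `q e = act β b`; for
  every `y` choose (`c.dec`) `n` with `e y = ι n + s (q (e y))`; this defines `z` (zero where `e y = 0`, as
  `ι n = 0` implies `n = 0` by `c.inj`); for `y ∉ C` or `y ∈ K` `e y = 0` so `z y = 0`.
* the fibre is `YAc` by `h`.
-/

namespace MM

private theorem B303_inj {U : SS} {m n : ℕ} (β : Mo m n) (hβ : Function.Surjective β) :
    Function.Injective (U.act β) := by
  obtain ⟨t, ht⟩ := exists_section β hβ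
  intro x y hxy
  have h1 : U.act t (U.act β x) = U.act t (U.act β y) := by rw [hxy]
  rwa [U.act_comp, U.act_comp, ht, U.act_id, U.act_id] at h1

/-- pointwise section of the coefficients commutes with degeneracies -/
private theorem B303_section {M D : Type} [AddCommMonoid M] [AddCommMonoid D] (s : D → M)
    (s0 : s 0 = 0) {U : SS} (K : Sub U) {m n : ℕ} (β : Mo m n) (hβ : Function.Surjective β)
    (b : U.S n →₀ D) (y : U.S m) :
    labAct M K β (b.mapRange s s0) y = s (labAct D K β b y) := by
  by_cases hy : y ∈ K.car m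
  · rw [labAct_of_mem K β _ hy, labAct_of_mem K β _ hy, s0]
  · rw [labAct_of_notMem K β _ hy, labAct_of_notMem K β _ hy]
    by_cases hr : y ∈ Set.range (U.act β)
    · obtain ⟨x, rfl⟩ := hr
      rw [Finsupp.mapDomain_apply (B303_inj β hβ), Finsupp.mapDomain_apply (B303_inj β hβ),
        Finsupp.mapRange_apply]
    · rw [Finsupp.mapDomain_notin_range _ _ hr, Finsupp.mapDomain_notin_range _ _ hr, s0]

theorem exists_TLq {Y : SS} {N M D : Type} [AddCommMonoid N] [AddCommMonoid M] [AddCommGroup D]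
    (c : Coef N M D) {U : SS} {K K' C : Sub U} (hK : K ≤ K') (hC : K' ≤ C)
    (h : YAc Y (lab N K C) 0) :
    ∃ q : Hom (TL c K K' C) (lab D K K'), q.app 0 0 = 0 ∧ Strat Y q := by
  -- the map `q`
  have hq : ∀ (n : ℕ) (a : U.S n →₀ M), a ∈ TLM c K K' C n →
      a.mapRange c.q (map_zero c.q) ∈ labM D K K' n := by
    intro n a ha x hx
    rw [Finsupp.mapRange_apply] at hx
    have h1 : a x ≠ 0 := fun h0 => hx (by rw [h0, map_zero])
    refine ⟨?_, (ha.1 x h1).2⟩
    by_contra h2
    obtain ⟨k, hk⟩ := ha.2 x h2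
    exact hx (by rw [← hk, c.qι])
  let q : Hom (TL c K K' C) (lab D K K') :=
    ⟨fun n a => ⟨a.1.mapRange c.q (map_zero c.q), hq n a.1 a.2⟩, fun {m n} f a => by
      apply Subtype.ext
      exact (labAct_mapRange c.q K f a.1).symm⟩
  refine ⟨q, ?_, ?_⟩
  · apply Subtype.ext
    show Finsupp.mapRange c.q (map_zero c.q) (0 : U.S 0 →₀ M) = 0
    exact Finsupp.mapRange_zero
  intro n b _
  -- the lift of `b`
  have hb : b.1.mapRange c.s c.s0 ∈ TLM c K K' C n := by
    refine ⟨fun x hx => ?_, fun x hx => ?_⟩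
    · rw [Finsupp.mapRange_apply] at hx
      have h1 : b.1 x ≠ 0 := fun h0 => hx (by rw [h0, c.s0])
      exact ⟨hC n (b.2 x h1).1, (b.2 x h1).2⟩
    · have h1 : b.1 x = 0 := by
        by_contra h0
        exact hx (b.2 x h0).1
      exact ⟨0, by rw [map_zero, Finsupp.mapRange_apply, h1, c.s0]⟩
  have hbq : (b.1.mapRange c.s c.s0).mapRange c.q (map_zero c.q) = b.1 := by
    ext x
    rw [Finsupp.mapRange_apply, Finsupp.mapRange_apply, c.qs]
  have hι : ∀ (m : ℕ) (z : U.S m →₀ N), z ∈ labM N K C m →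
      z.mapRange c.ι (map_zero c.ι) ∈ TLM c K K' C m := by
    intro m z hz
    refine ⟨fun x hx => ?_, fun x _ => ⟨z x, by rw [Finsupp.mapRange_apply]⟩⟩
    rw [Finsupp.mapRange_apply] at hx
    exact hz x fun h0 => hx (by rw [h0, map_zero])
  let Φ : Hom ((lab N K C).prod (Del n)) (TL c K K' C) :=
    ⟨fun m p => ⟨p.1.1.mapRange c.ι (map_zero c.ι) + labAct M K p.2 (b.1.mapRange c.s c.s0),
      add_mem (hι m p.1.1 p.1.2) (TLM_act c p.2 hb)⟩, fun {m' m} f p => by
      apply Subtype.ext
      show (labAct N K f p.1.1).mapRange c.ι (map_zero c.ι) +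
        labAct M K (p.2.comp f) (b.1.mapRange c.s c.s0) =
        labAct M K f (p.1.1.mapRange c.ι (map_zero c.ι) +
          labAct M K p.2 (b.1.mapRange c.s c.s0))
      rw [map_add, labAct_comp, labAct_mapRange]⟩
  refine ⟨lab N K C, 0, Φ, h, ?_, ?_⟩
  · intro m z α
    apply Subtype.ext
    show (z.1.mapRange c.ι (map_zero c.ι) + labAct M K α (b.1.mapRange c.s c.s0)).mapRange c.q
      (map_zero c.q) = labAct D K α b.1
    conv_rhs => rw [← hbq, labAct_mapRange]
    ext y
    rw [Finsupp.mapRange_apply, Finsupp.add_apply, Finsupp.mapRange_apply, map_add, c.qι, zero_add,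
      Finsupp.mapRange_apply]
  · intro m α hα e he
    have he' : ∀ y, c.q (e.1 y) = labAct D K α b.1 y := by
      intro y
      have h1 : e.1.mapRange c.q (map_zero c.q) = labAct D K α b.1 := congrArg Subtype.val he
      rw [← h1, Finsupp.mapRange_apply]
    choose g hg using c.dec
    have g0 : g 0 = 0 := by
      refine c.inj _ _ 0 ?_
      have h1 := hg 0
      rw [map_zero] at h1
      rw [← h1, map_zero, c.s0, add_zero]
    have hz : e.1.mapRange g g0 ∈ labM N K C m := by
      intro x hx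
      rw [Finsupp.mapRange_apply] at hx
      exact e.2.1 x fun h0 => hx (by rw [h0, g0])
    have hval : ∀ (z : (lab N K C).S m) (y : U.S m), (Φ.app m (z, α)).1 y =
        c.ι (z.1 y) + c.s (labAct D K α b.1 y) := by
      intro z y
      show (z.1.mapRange c.ι (map_zero c.ι) + labAct M K α (b.1.mapRange c.s c.s0)) y = _
      rw [Finsupp.add_apply, Finsupp.mapRange_apply, B303_section c.s c.s0 K α hα]
    refine ⟨⟨e.1.mapRange g g0, hz⟩, ?_, ?_⟩
    · apply Subtype.ext
      ext y
      rw [hval, ← he' y]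
      show c.ι ((e.1.mapRange g g0) y) + c.s (c.q (e.1 y)) = e.1 y
      rw [Finsupp.mapRange_apply]
      exact (hg (e.1 y)).symm
    · intro z' hz'
      apply Subtype.ext
      ext y
      show z'.1 y = (e.1.mapRange g g0) y
      rw [Finsupp.mapRange_apply]
      refine c.inj _ _ (c.q (e.1 y)) ?_
      rw [← hg (e.1 y)]
      have h1 := hval z' y
      have hz'' : Φ.app m (z', α) = e := hz'
      rw [hz'', ← he' y] at h1
      exact h1.symm

end MM
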