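import Pool.Agent.Lib_MP_33f7bb_d.A005

/-!
# B3-04 (L3): simplicial commutative monoids with bijective doubling have no homology over `F₂`

`P` is a simplicial commutative monoid (additive), `x ↦ x + x` bijective in every level.  Then every cycle of
positive degree is a boundary.

Proof.  `R_n := Ch P n = F₂[P_n]` with the convolution product
`mul a b = a.sum fun x c => b.sum fun y c' => single (x + y) (c * c')` (bilinear, commutative; one may
transport to `AddMonoidAlgebra`, but direct bilinearity is enough).  The structure maps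
`mapDomain (act f)` are multiplicative.
* `Fr z := mul z z` is additive (characteristic 2, commutative): `Fr z = z.mapDomain (fun x => x + x)`
  (prove this formula by induction on `z`: `mul (a+b) (a+b) = mul a a + mul b b` as `mul a b + mul b a = 0`;
  `Fr (single x c) = single (x+x) (c*c)`, `c * c = c` in `ZMod 2`).  So `Fr` is bijective in each level and
  commutes with the structure maps.
* Moore cycles: `z ∈ Ch P (n+1)` with all faces `mapDomain (act (dlt i)) z = 0`, `i : Fin (n+2)`.  Let
  `w = mul (s_0 z) (s_1 z)`, `s_i = mapDomain (act (sgm i))`, `w ∈ Ch P (n+2)`.  Faces (`d_i s_j`, simplicial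
  identities A001): `d_0 w = z * (s_0 d_0 z) = 0`, `d_1 w = z * z`, `d_2 w = (s_0 d_1 z) * z = 0`,
  `d_i w = (s_0 d_(i-1) z) * (s_1 d_(i-1) z) = 0` for `i ≥ 3`.  So `dif w = mul z z = Fr z`.
* Given a Moore cycle `z`, `z = Fr y`; `Fr (d_i y) = d_i z = 0` so `d_i y = 0`: `y` is a Moore cycle, and
  `z = Fr y = dif (...)`.
* every cycle `z` of degree `n + 1` is homologous to a Moore cycle (A005 `exists_moore` for `lin P`; read the
  exact statement there; `lin_d : (lin P).d n z = dif z`).
-/

namespace MM

/-- the convolution product on `F₂[S]` -/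
private noncomputable def B304_mul (S : Type) [AddCommMonoid S] :
    (S →₀ ZMod 2) →ₗ[ZMod 2] (S →₀ ZMod 2) →ₗ[ZMod 2] (S →₀ ZMod 2) :=
  Finsupp.linearCombination (ZMod 2)
    (fun x : S => Finsupp.lmapDomain (ZMod 2) (ZMod 2) (fun y : S => x + y))

private theorem B304_mul_single {S : Type} [AddCommMonoid S] (x y : S) (c c' : ZMod 2) :
    B304_mul S (Finsupp.single x c) (Finsupp.single y c') = Finsupp.single (x + y) (c * c') := by
  simp only [B304_mul, Finsupp.linearCombination_single, LinearMap.smul_apply,
    Finsupp.lmapDomain_apply, Finsupp.mapDomain_single, Finsupp.smul_single, smul_eq_mul]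

private theorem B304_mul_comm {S : Type} [AddCommMonoid S] (a b : S →₀ ZMod 2) :
    B304_mul S a b = B304_mul S b a := by
  induction a using Finsupp.induction_linear with
  | zero => simp
  | add f g hf hg => rw [map_add, LinearMap.add_apply, hf, hg, map_add]
  | single x c =>
    induction b using Finsupp.induction_linear with
    | zero => simp
    | add f g hf hg => rw [map_add, hf, hg, map_add, LinearMap.add_apply]
    | single y c' => rw [B304_mul_single, B304_mul_single, add_comm, mul_comm]

private theorem B304_map_mul {S T : Type} [AddCommMonoid S] [AddCommMonoid T] (g : S → T)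
    (hg : ∀ x y, g (x + y) = g x + g y) (a b : S →₀ ZMod 2) :
    Finsupp.mapDomain g (B304_mul S a b) =
      B304_mul T (Finsupp.mapDomain g a) (Finsupp.mapDomain g b) := by
  induction a using Finsupp.induction_linear with
  | zero => simp
  | add f h hf hh =>
    rw [map_add, LinearMap.add_apply, Finsupp.mapDomain_add, hf, hh, Finsupp.mapDomain_add,
      map_add, LinearMap.add_apply]
  | single x c =>
    induction b using Finsupp.induction_linear with
    | zero => simp
    | add f h hf hh =>
      rw [map_add, Finsupp.mapDomain_add, hf, hh, Finsupp.mapDomain_add, map_add]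
    | single y c' =>
      rw [B304_mul_single, Finsupp.mapDomain_single, Finsupp.mapDomain_single,
        Finsupp.mapDomain_single, B304_mul_single, hg]

private theorem B304_mul_self {S : Type} [AddCommMonoid S] (a : S →₀ ZMod 2) :
    B304_mul S a a = Finsupp.mapDomain (fun x => x + x) a := by
  induction a using Finsupp.induction_linear with
  | zero => simp
  | add f g hf hg =>
    have h1 : B304_mul S (f + g) (f + g) =
        B304_mul S f f + (B304_mul S f g + B304_mul S g f) + B304_mul S g g := by
      simp only [map_add, LinearMap.add_apply]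
      abel
    rw [h1, B304_mul_comm g f, two_eq_zero', add_zero, hf, hg, Finsupp.mapDomain_add]
  | single x c =>
    rw [B304_mul_single, Finsupp.mapDomain_single]
    have : ∀ c : ZMod 2, c * c = c := by decide
    rw [this]

private theorem B304_moore {P : SS} [∀ n, AddCommMonoid (P.S n)]
    (hadd : ∀ {m n : ℕ} (f : Mo m n) (x y : P.S n), P.act f (x + y) = P.act f x + P.act f y)
    (n : ℕ) (z : Ch P (n + 1))
    (hz : ∀ i : Fin (n + 2), Finsupp.mapDomain (P.act (dlt i)) z = 0) :
    ∃ w : Ch P (n + 2), dif w = Finsupp.mapDomain (fun x => x + x) z := by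
  have hcomp : ∀ {l m : ℕ} (f : Mo l m) (g : Mo m (n + 1)),
      Finsupp.mapDomain (P.act f) (Finsupp.mapDomain (P.act g) z) =
        Finsupp.mapDomain (P.act (g.comp f)) z := by
    intro l m f g
    rw [← Finsupp.mapDomain_comp]
    congr 1
    exact funext fun x => P.act_comp f g x
  have hid : Finsupp.mapDomain (P.act (OrderHom.id : Mo (n + 1) (n + 1))) z = z := by
    have : P.act (OrderHom.id : Mo (n + 1) (n + 1)) = _root_.id := funext fun x => P.act_id x
    rw [this, Finsupp.mapDomain_id]
  have hzero : ∀ {m : ℕ} (i : Fin (n + 2)) (g : Mo m n),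
      Finsupp.mapDomain (P.act ((dlt i).comp g)) z = 0 := by
    intro m i g
    rw [← hcomp, hz i, Finsupp.mapDomain_zero]
  refine ⟨B304_mul (P.S (n + 2)) (Finsupp.mapDomain (P.act (sgm (0 : Fin (n + 1)).castSucc)) z)
    (Finsupp.mapDomain (P.act (sgm (0 : Fin (n + 1)).succ)) z), ?_⟩
  unfold dif
  rw [Finset.sum_eq_single (0 : Fin (n + 2)).succ]
  · rw [B304_map_mul _ (hadd _), hcomp, hcomp]
    have h1 : (sgm (0 : Fin (n + 1)).castSucc).comp (dlt (0 : Fin (n + 2)).succ) =
        (OrderHom.id : Mo (n + 1) (n + 1)) := sgm_comp_dlt_succ (n := n + 1) 0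
    have h2 : (sgm (0 : Fin (n + 1)).succ).comp (dlt (0 : Fin (n + 2)).succ) =
        (OrderHom.id : Mo (n + 1) (n + 1)) := sgm_comp_dlt_castSucc (n := n + 1) 1
    rw [h1, h2, hid, B304_mul_self]
  · intro i _ hi
    rw [B304_map_mul _ (hadd _), hcomp, hcomp]
    refine Fin.cases ?_ (fun k => ?_) i (motive := fun i => i ≠ (0 : Fin (n + 2)).succ →
      B304_mul (P.S (n + 1)) (Finsupp.mapDomain (P.act ((sgm (0 : Fin (n + 1)).castSucc).comp (dlt i))) z)
        (Finsupp.mapDomain (P.act ((sgm (0 : Fin (n + 1)).succ).comp (dlt i))) z) = 0) hi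
    · intro _
      have h1 : (sgm (0 : Fin (n + 1)).succ).comp (dlt (0 : Fin (n + 3))) =
          (dlt (0 : Fin (n + 2))).comp (sgm (0 : Fin (n + 1))) :=
        sgm_comp_dlt_of_le (n := n) 0 0 (Fin.zero_le _)
      rw [h1, hzero, map_zero]
    · intro hk
      have hk' : (0 : Fin (n + 1)).castSucc < k := by
        rw [Fin.castSucc_zero]
        refine Fin.pos_iff_ne_zero.2 fun h => hk (by rw [h])
      rw [sgm_comp_dlt_of_gt (n := n) k 0 hk', hzero, map_zero, LinearMap.zero_apply]
  · intro h
    exact absurd (Finset.mem_univ _) h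

theorem perf_cycle {P : SS} [∀ n, AddCommMonoid (P.S n)]
    (hadd : ∀ {m n : ℕ} (f : Mo m n) (x y : P.S n), P.act f (x + y) = P.act f x + P.act f y)
    (hbij : ∀ n, Function.Bijective (fun x : P.S n => x + x)) (n : ℕ) (z : Ch P (n + 1))
    (hz : dif z = 0) : ∃ w : Ch P (n + 2), dif w = z := by
  obtain ⟨w, hw⟩ := exists_moore (lin P) (n := n + 1) z
    (show (lin P).d n z = 0 by rw [lin_d]; exact hz)
  rw [moore_iff, lin_d] at hw
  have hw' : ∀ i : Fin (n + 2), Finsupp.mapDomain (P.act (dlt i)) (z + dif w) = 0 := hw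
  -- the root
  let e : P.S (n + 1) ≃ P.S (n + 1) := Equiv.ofBijective _ (hbij (n + 1))
  have he : ∀ y : Ch P (n + 1),
      Finsupp.mapDomain (fun x => x + x) (Finsupp.mapDomain e.symm y) = y := by
    intro y
    rw [← Finsupp.mapDomain_comp]
    have : (fun x : P.S (n + 1) => x + x) ∘ e.symm = _root_.id :=
      funext fun x => e.apply_symm_apply x
    rw [this, Finsupp.mapDomain_id]
  have hface : ∀ i : Fin (n + 2),
      Finsupp.mapDomain (P.act (dlt i)) (Finsupp.mapDomain e.symm (z + dif w)) = 0 := by
    intro i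
    apply Finsupp.mapDomain_injective (hbij n).1
    rw [Finsupp.mapDomain_zero, ← hw' i]
    conv_rhs => rw [← he (z + dif w)]
    rw [← Finsupp.mapDomain_comp, ← Finsupp.mapDomain_comp (f := fun x => x + x)]
    congr 1
    exact funext fun x => (hadd (dlt i) x x).symm
  obtain ⟨v, hv⟩ := B304_moore hadd n _ hface
  rw [he] at hv
  refine ⟨v + w, ?_⟩
  rw [dif_add, hv, add_assoc, two_eq_zero', add_zero]

end MM
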