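import Pool.Agent.Lib_MP_33f7bb_d.B1C
import Pool.Agent.Lib_MP_33f7bb_d.B3Def
import Pool.Agent.Lib_MP_33f7bb_d.A020

/-!
# B3-06 (L4, L10): homotopies of labels

`labP A H hC hK : Hom (P.prod (lab A K C)) (lab A K' C')` (B3Def) is the homotopy of labels given by a
homotopy; `labP_apply`.

`lab_acyc_of_contraction`: apply `acyc_of_deformation'` (A020) to `labP A H hC hK` (`P = Del 1`, `K' = K`,
`C' = C`), `A = pt 0`: at `cst 1` the map `x ↦ H (cst 1, x)` is the identity on the support of `a`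
(`Finsupp.mapDomain_congr`, `mapDomain_id`), and filtering does nothing; at `cst 0` the push forward is supported
in `K`, so filtering gives `0 = deg 0 n` (`lab_act_zero`).  The zero label stays zero.

`lab_yac_of_retract`: in `P = lab A (pt w0) ⊤` let `C` be the subcomplex of the labels supported in `W'`.
`C.ss` is isomorphic to `lab A (pt w0) W'` (`YAc.iso_iff`; the same finsupps).  `labP A H` is a homotopy on `P`
(`H` fixes the base simplices since they lie in `W'`), the identity at `cst 0`, with values in `C` at `cst 1`, and it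
maps `C` to `C` (`H` fixes `W'`); so `Acyc C ⊤` by `acyc_of_deformation` (A020), `Good Y C ⊤` by `Good.of_acyc`,
and `YAc.sub_iff` (B1C) applies.

`lab_simplex_acyc`: on `Del n` the homotopy `H (ε, β) = (t ↦ if ε t = 0 then 0 else β t)` (monotone; natural;
`H (cst 1, β) = β`, `H (cst 0, β) = cst 0`), `K = pt (cst 0)`; it maps `horn n 0` to itself (values of
`H (ε, β)` are `0` or values of `β`; a missed value `j ≠ 0` is still missed) and `pt (cst 0)` to itself.
-/

namespace MM

open Classical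

private theorem B306_map_id {A : Type} [AddCommMonoid A] {X : Type} (g : X → X) (a : X →₀ A)
    (h : ∀ x, a x ≠ 0 → g x = x) : a.mapDomain g = a := by
  calc a.mapDomain g = a.mapDomain _root_.id :=
        Finsupp.mapDomain_congr fun x hx => h x (Finsupp.mem_support_iff.1 hx)
    _ = a := Finsupp.mapDomain_id

/-- a homotopy which fixes the support of a label fixes the label -/
private theorem B306_labP_fix (A : Type) [AddCommMonoid A] {U : SS} {K C : Sub U}
    (H : Hom ((Del 1).prod U) U)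
    (hC : ∀ n s, ∀ x ∈ C.car n, H.app n (s, x) ∈ C.car n)
    (hK : ∀ n s, ∀ x ∈ K.car n, H.app n (s, x) ∈ K.car n) (n : ℕ) (s : (Del 1).S n)
    (a : (lab A K C).S n) (h : ∀ x, a.1 x ≠ 0 → H.app n (s, x) = x) :
    (labP A H hC hK).app n (s, a) = a := by
  apply Subtype.ext
  rw [labP_apply, B306_map_id _ _ h, Finsupp.filter_eq_self_iff]
  exact fun x hx => (a.2 x hx).2

private theorem B306_labP_zero (A : Type) [AddCommMonoid A] {U : SS} {K C : Sub U}
    (H : Hom ((Del 1).prod U) U)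
    (hC : ∀ n s, ∀ x ∈ C.car n, H.app n (s, x) ∈ C.car n)
    (hK : ∀ n s, ∀ x ∈ K.car n, H.app n (s, x) ∈ K.car n) (n : ℕ) (s : (Del 1).S n) :
    (labP A H hC hK).app n (s, (0 : (lab A K C).S n)) = 0 :=
  B306_labP_fix A H hC hK n s 0 fun x hx => absurd rfl hx

theorem lab_acyc_of_contraction (A : Type) [AddCommMonoid A] {U : SS} {K C : Sub U}
    (H : Hom ((Del 1).prod U) U)
    (h1 : ∀ n, ∀ x ∈ C.car n, H.app n (cst 1, x) = x)
    (h0 : ∀ n, ∀ x ∈ C.car n, H.app n (cst 0, x) ∈ K.car n)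
    (hC : ∀ n s, ∀ x ∈ C.car n, H.app n (s, x) ∈ C.car n)
    (hK : ∀ n s, ∀ x ∈ K.car n, H.app n (s, x) ∈ K.car n) :
    Acyc (Sub.pt (P := lab A K C) 0) ⊤ := by
  refine acyc_of_deformation' (Sub.le_top' _) (labP A H hC hK) ?_ ?_ (fun _ _ _ _ => trivial) ?_
  · intro n a _
    exact B306_labP_fix A H hC hK n (cst 1) a fun x hx => h1 n x (a.2 x hx).1
  · intro n a _
    show _ = (lab A K C).act (cst 0) 0
    rw [lab_act_zero]
    apply Subtype.ext
    rw [labP_apply]
    show _ = (0 : U.S n →₀ A)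
    rw [Finsupp.filter_eq_zero_iff]
    intro y hy
    by_contra h
    have h' := Finsupp.mapDomain_support (Finsupp.mem_support_iff.2 h)
    obtain ⟨x, hx, rfl⟩ := Finset.mem_image.1 h'
    exact hy (h0 n x (a.2 x (Finsupp.mem_support_iff.1 hx)).1)
  · intro n s a ha
    have ha' : a = (lab A K C).act (cst 0) 0 := ha
    rw [lab_act_zero] at ha'
    show _ = (lab A K C).act (cst 0) 0
    rw [lab_act_zero, ha']
    exact B306_labP_zero A H hC hK n s

/-- the labels supported in `W'` -/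
private def B306_C (A : Type) [AddCommMonoid A] {W : SS} (K W' : Sub W) : Sub (lab A K ⊤) where
  car n := {a | ∀ x, a.1 x ≠ 0 → x ∈ W'.car n}
  closed {m n} f a ha := by
    intro y hy
    have hy' : labAct A K f a.1 y ≠ 0 := hy
    have h1 : y ∉ K.car m := fun h => hy' (labAct_of_mem K f a.1 h)
    rw [labAct_of_notMem K f a.1 h1] at hy'
    have h' := Finsupp.mapDomain_support (Finsupp.mem_support_iff.2 hy')
    obtain ⟨x, hx, rfl⟩ := Finset.mem_image.1 h'
    exact W'.closed f (ha x (Finsupp.mem_support_iff.1 hx))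

private def B306_phi (A : Type) [AddCommMonoid A] {W : SS} (K W' : Sub W) :
    Hom (lab A K W') (B306_C A K W').ss where
  app n a := ⟨⟨a.1, fun x hx => ⟨trivial, (a.2 x hx).2⟩⟩, fun x hx => (a.2 x hx).1⟩
  nat _ _ := rfl

private theorem B306_phi_bij (A : Type) [AddCommMonoid A] {W : SS} (K W' : Sub W) (n : ℕ) :
    Function.Bijective ((B306_phi A K W').app n) := by
  constructor
  · intro a b h
    exact Subtype.ext (congrArg (fun c : (B306_C A K W').ss.S n => c.1.1) h)
  · intro c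
    exact ⟨⟨c.1.1, fun x hx => ⟨c.2 x hx, (c.1.2 x hx).2⟩⟩, rfl⟩

theorem lab_yac_of_retract {Y : SS} [∀ n, TopologicalSpace (Y.S n)] (hY : IsTarget Y) (A : Type)
    [AddCommMonoid A] {W : SS} (w0 : W.S 0) (W' : Sub W) (hw0 : w0 ∈ W'.car 0)
    (H : Hom ((Del 1).prod W) W)
    (h0 : ∀ n x, H.app n (cst 0, x) = x)
    (h1 : ∀ n x, H.app n (cst 1, x) ∈ W'.car n)
    (hc : ∀ n s, ∀ x ∈ W'.car n, H.app n (s, x) = x)
    (h : YAc Y (lab A (Sub.pt w0) W') 0) : YAc Y (lab A (Sub.pt w0) ⊤) 0 := by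
  have hC : ∀ n s, ∀ x ∈ (⊤ : Sub W).car n, H.app n (s, x) ∈ (⊤ : Sub W).car n :=
    fun _ _ _ _ => trivial
  have hK : ∀ n s, ∀ x ∈ (Sub.pt w0).car n, H.app n (s, x) ∈ (Sub.pt w0).car n := by
    intro n s x hx
    have h2 : x ∈ W'.car n := by
      have h3 : x = W.deg w0 n := hx
      rw [h3]
      exact W'.closed _ hw0
    rw [hc n s x h2]
    exact hx
  have hz : (0 : (lab A (Sub.pt w0) (⊤ : Sub W)).S 0) ∈ (B306_C A (Sub.pt w0) W').car 0 :=
    fun x hx => absurd rfl hx
  have hgood : Good Y (B306_C A (Sub.pt w0) W') ⊤ := by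
    refine Good.of_acyc hY (Sub.le_top' _) (acyc_of_deformation (Sub.le_top' _)
      (labP A H hC hK) ?_ ?_ (fun _ _ _ _ => trivial) ?_)
    · intro n a _
      exact B306_labP_fix A H hC hK n (cst 0) a fun x _ => h0 n x
    · intro n a _ y hy
      have hy' : (a.1.mapDomain (fun x => H.app n (cst 1, x))).filter
          (fun x => x ∉ (Sub.pt w0).car n) y ≠ 0 := hy
      rw [Finsupp.filter_apply] at hy'
      by_cases h4 : y ∈ (Sub.pt w0).car n
      · rw [if_neg (not_not.2 h4)] at hy'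
        exact absurd rfl hy'
      · rw [if_pos h4] at hy'
        have h' := Finsupp.mapDomain_support (Finsupp.mem_support_iff.2 hy')
        obtain ⟨x, -, rfl⟩ := Finset.mem_image.1 h'
        exact h1 n x
    · intro n s a ha
      rw [B306_labP_fix A H hC hK n s a fun x hx => hc n s x (ha x hx)]
      exact ha
  exact (YAc.sub_iff hY (B306_C A (Sub.pt w0) W') 0 hz hgood).1
    ((YAc.iso_iff hY (B306_phi A (Sub.pt w0) W') (B306_phi_bij A (Sub.pt w0) W') 0).1 h)

/-- the contraction of the simplex to the vertex `0` -/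
private def B306_H (k : ℕ) : Hom ((Del 1).prod (Del k)) (Del k) where
  app n x := ⟨fun t => if x.1 t = 0 then 0 else x.2 t, fun s t hst => by
    have h1 : x.1 s ≤ x.1 t := x.1.monotone hst
    have h2 : x.2 s ≤ x.2 t := x.2.monotone hst
    show (if x.1 s = 0 then 0 else x.2 s) ≤ (if x.1 t = 0 then 0 else x.2 t)
    by_cases ht : x.1 t = 0
    · have hs : x.1 s = 0 := le_antisymm (ht ▸ h1) (Fin.zero_le _)
      rw [if_pos ht, if_pos hs]
    · rw [if_neg ht]
      split_ifs
      · exact Fin.zero_le _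
      · exact h2⟩
  nat _ _ := rfl

private theorem B306_H_val (k : ℕ) {n : ℕ} (a : Mo n 1) (x : Mo n k) (t : Fin (n + 1)) :
    ((B306_H k).app n (a, x) : Mo n k) t = if a t = 0 then 0 else x t := rfl

private theorem B306_H_one (k : ℕ) {n : ℕ} (x : Mo n k) : (B306_H k).app n (cst 1, x) = x := by
  apply OrderHom.ext
  funext t
  show (if (1 : Fin 2) = 0 then 0 else x t) = x t
  exact if_neg one_ne_zero

private theorem B306_H_zero (k : ℕ) {n : ℕ} (x : Mo n k) :
    (B306_H k).app n (cst 0, x) ∈ (Sub.pt (P := Del k) (cst 0 : Mo 0 k)).car n := by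
  show _ = (cst 0 : Mo n k)
  apply OrderHom.ext
  funext t
  show (if (0 : Fin 2) = 0 then 0 else x t) = 0
  exact if_pos rfl

private theorem B306_H_pt (k : ℕ) {n : ℕ} (s : Mo n 1) (x : Mo n k)
    (hx : x ∈ (Sub.pt (P := Del k) (cst 0 : Mo 0 k)).car n) :
    (B306_H k).app n (s, x) ∈ (Sub.pt (P := Del k) (cst 0 : Mo 0 k)).car n := by
  have hx' : x = (cst 0 : Mo n k) := hx
  subst hx'
  show _ = (cst 0 : Mo n k)
  apply OrderHom.ext
  funext t
  show (if s t = 0 then (0 : Fin (k + 1)) else 0) = 0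
  exact ite_self _

private theorem B306_H_horn (k : ℕ) {n : ℕ} (s : Mo n 1) (x : Mo n k)
    (hx : x ∈ (horn k 0).car n) : (B306_H k).app n (s, x) ∈ (horn k 0).car n := by
  obtain ⟨j, hj, h⟩ := hx
  refine ⟨j, hj, fun t => ?_⟩
  rw [B306_H_val]
  split_ifs
  · exact hj.symm
  · exact h t

theorem lab_simplex_acyc (A : Type) [AddCommMonoid A] (n : ℕ) :
    Acyc (Sub.pt (P := lab A (Sub.pt (P := Del n) (cst 0 : Mo 0 n)) ⊤) 0) ⊤ :=
  lab_acyc_of_contraction A (B306_H n) (fun _ x _ => B306_H_one n x)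
    (fun _ x _ => B306_H_zero n x) (fun _ _ _ _ => trivial)
    (fun _ s x hx => B306_H_pt n s x hx)

theorem lab_horn_acyc (A : Type) [AddCommMonoid A] (n : ℕ) :
    Acyc (Sub.pt (P := lab A (Sub.pt (P := Del n) (cst 0 : Mo 0 n)) (horn n 0)) 0) ⊤ :=
  lab_acyc_of_contraction A (B306_H n) (fun _ x _ => B306_H_one n x)
    (fun _ x _ => B306_H_zero n x) (fun _ s x hx => B306_H_horn n s x hx)
    (fun _ s x hx => B306_H_pt n s x hx)

end MM
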