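import Pool.Agent.Lib_MP_33f7bb_d.B1C
import Pool.Agent.Lib_MP_33f7bb_d.B3Def

/-!
# B3-07: relative isomorphisms induce isomorphisms of labels

`φ : P → P'`, `RelIso φ A C A' C'`.  `f := labF N φ : lab N A C → lab N A' C'` (uses `hC : φ C ⊆ C'`,
`hK : φ A ⊆ A'`).  PROBLEM: `A ≤ C` gives `φ A ⊆ A'` by `pre`.
On `C_n \ A_n` `φ` is injective with image `C'_n \ A'_n`, so `a ↦ a.mapDomain (φ.app n)` (no filtering needed:
`pre`) is a bijection `labM N A C n → labM N A' C' n`: injective by `Finsupp.mapDomain_apply`-type computation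
(`mapDomain` injective on functions supported in a set where `φ` is injective: `Finsupp.mapDomain_injOn`),
surjective: for `b` take `a = b.comapDomain`-like sum `∑ y ∈ b.support, single (g y) (b y)` where `g y` is the
preimage (`surj`).  Conclude by `YAc.iso_iff` (B1C); `f.app 0 0 = 0`.

`relIso_face`: `yo (dlt 0)` is `β ↦ (dlt 0).comp β`.  `β` not surjective: `(dlt 0).comp β` misses `0` and one more
value `j ≠ 0`; conversely if `(dlt 0).comp β` misses `j ≠ 0` then `β` misses a value.  `inj`: `dlt 0` is injective.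
`surj`: `γ ∈ bd (n+1)`, `γ ∉ horn (n+1) 0`: `γ` misses some value, and no value `≠ 0`, so it misses `0` and factors
through `dlt 0` (`γ = (dlt 0).comp β`, `β t = pred (γ t)`).
-/

namespace MM

theorem lab_relIso {Y : SS} [∀ n, TopologicalSpace (Y.S n)] (hY : IsTarget Y) (N : Type)
    [AddCommMonoid N] {P P' : SS} {φ : Hom P P'}
    {A C : Sub P} {A' C' : Sub P'} (h : RelIso φ A C A' C') :
    YAc Y (lab N A C) 0 ↔ YAc Y (lab N A' C') 0 := by
  classical
  have hK : ∀ n, ∀ x ∈ A.car n, φ.app n x ∈ A'.car n := fun n x hx =>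
    (h.pre n x (h.le n hx)).2 hx
  let f : Hom (lab N A C) (lab N A' C') := labF N φ h.map hK
  have hf0 : ∀ n (a : (lab N A C).S n) (y : P'.S n), y ∉ A'.car n →
      (f.app n a).1 y = (a.1.mapDomain (φ.app n)) y := by
    intro n a y hy
    rw [labF_apply, Finsupp.filter_apply, if_pos hy]
  have hf1 : ∀ n (a : (lab N A C).S n) (x : P.S n), x ∈ C.car n → x ∉ A.car n →
      (f.app n a).1 (φ.app n x) = a.1 x := by
    intro n a x hx hx'
    rw [hf0 n a _ (fun hh => hx' ((h.pre n x hx).1 hh))]
    refine Finsupp.mapDomain_apply' {x | x ∈ C.car n ∧ x ∉ A.car n} a.1 ?_ ?_ ⟨hx, hx'⟩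
    · intro z hz
      exact a.2 z (Finsupp.mem_support_iff.1 hz)
    · intro z hz w hw hzw
      exact h.inj n z hz.1 w hw.1 hz.2 hw.2 hzw
  have hbij : ∀ n, Function.Bijective (f.app n) := by
    intro n
    constructor
    · intro a b hab
      apply Subtype.ext
      ext x
      by_cases hx : x ∈ C.car n ∧ x ∉ A.car n
      · rw [← hf1 n a x hx.1 hx.2, ← hf1 n b x hx.1 hx.2, hab]
      · have ha : a.1 x = 0 := by
          by_contra hne
          exact hx (a.2 x hne)
        have hb : b.1 x = 0 := by
          by_contra hne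
          exact hx (b.2 x hne)
        rw [ha, hb]
    · intro b
      have hg : ∀ y : {y // y ∈ b.1.support}, ∃ x ∈ C.car n, φ.app n x = y.1 := fun y =>
        h.surj n y.1 (b.2 y.1 (Finsupp.mem_support_iff.1 y.2)).1
          (b.2 y.1 (Finsupp.mem_support_iff.1 y.2)).2
      choose g hgC hg using hg
      have hgA : ∀ y : {y // y ∈ b.1.support}, g y ∉ A.car n := by
        intro y hy
        refine (b.2 y.1 (Finsupp.mem_support_iff.1 y.2)).2 ?_
        rw [← hg y]
        exact hK n _ hy
      have hmem : (∑ y ∈ b.1.support.attach, Finsupp.single (g y) (b.1 y.1)) ∈ labM N A C n := by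
        refine sum_mem fun y _ => ?_
        intro x hx
        have : x = g y := by
          by_contra hne
          exact hx (Finsupp.single_eq_of_ne hne)
        rw [this]
        exact ⟨hgC y, hgA y⟩
      refine ⟨⟨_, hmem⟩, ?_⟩
      apply Subtype.ext
      rw [labF_apply]
      have e1 : Finsupp.mapDomain (φ.app n)
          (∑ y ∈ b.1.support.attach, Finsupp.single (g y) (b.1 y.1)) = b.1 := by
        rw [Finsupp.mapDomain_finset_sum]
        have e2 : ∀ y ∈ b.1.support.attach, Finsupp.mapDomain (φ.app n)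
            (Finsupp.single (g y) (b.1 y.1)) = Finsupp.single y.1 (b.1 y.1) := by
          intro y _
          rw [Finsupp.mapDomain_single, hg y]
        rw [Finset.sum_congr rfl e2,
          Finset.sum_attach b.1.support (fun y => Finsupp.single y (b.1 y))]
        exact Finsupp.sum_single b.1
      show Finsupp.filter _ (Finsupp.mapDomain (φ.app n)
        (∑ y ∈ b.1.support.attach, Finsupp.single (g y) (b.1 y.1))) = b.1
      rw [e1, Finsupp.filter_eq_self_iff]
      intro y hy
      exact (b.2 y hy).2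
  have h0 : f.app 0 0 = 0 := by
    apply Subtype.ext
    rw [labF_apply]
    show Finsupp.filter _ (Finsupp.mapDomain (φ.app 0) (0 : P.S 0 →₀ N)) = 0
    rw [Finsupp.mapDomain_zero, Finsupp.filter_zero]
  have := YAc.iso_iff hY f hbij 0
  rwa [h0] at this

/-- the face opposite to the vertex `0` -/
theorem relIso_face (n : ℕ) :
    RelIso (SS.yo (P := Del (n + 1)) (n := n) (dlt 0)) (bd n) ⊤ (horn (n + 1) 0) (bd (n + 1)) := by
  have hz : ∀ (m : ℕ) (β : Mo m n) (t : Fin (m + 1)), ((dlt 0).comp β) t = (β t).succ := by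
    intro m β t
    show (Fin.succAbove 0 (β t)) = (β t).succ
    exact Fin.succAbove_zero_apply _
  refine ⟨Sub.le_top' _, ?_, ?_, ?_, ?_, ?_⟩
  · intro m x hx hs
    obtain ⟨j, -, hj⟩ := hx
    obtain ⟨t, ht⟩ := hs j
    exact hj t ht
  · intro m x _ hs
    obtain ⟨t, ht⟩ := hs 0
    have h1 : ((dlt 0).comp x) t = 0 := ht
    rw [hz] at h1
    exact Fin.succ_ne_zero _ h1
  · intro m x _
    constructor
    · rintro ⟨j, hj0, hj⟩ hs
      obtain ⟨t, ht⟩ := hs (j.pred hj0)
      refine hj t ?_
      show ((dlt 0).comp x) t = j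
      rw [hz, ht, Fin.succ_pred]
    · intro hx
      have hx' : ¬ Function.Surjective x := hx
      unfold Function.Surjective at hx'
      push Not at hx'
      obtain ⟨k, hk⟩ := hx'
      refine ⟨k.succ, Fin.succ_ne_zero k, fun t ht => ?_⟩
      have h1 : ((dlt 0).comp x) t = k.succ := ht
      rw [hz] at h1
      exact hk t (Fin.succ_injective _ h1)
  · intro m x _ y _ _ _ hxy
    apply OrderHom.ext
    funext t
    have h1 : ((dlt 0).comp x) t = ((dlt 0).comp y) t := congrArg (fun z : Mo m (n + 1) => z t) hxy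
    rw [hz, hz] at h1
    exact Fin.succ_injective _ h1
  · intro m y hy hy'
    have h0 : ∀ t, (y : Mo m (n + 1)) t ≠ 0 := by
      have h1 : ¬ Function.Surjective y := hy
      unfold Function.Surjective at h1
      push Not at h1
      obtain ⟨k, hk⟩ := h1
      by_cases hk0 : k = 0
      · rw [hk0] at hk
        exact hk
      · exact absurd ⟨k, hk0, hk⟩ hy'
    refine ⟨⟨fun t => ((y : Mo m (n + 1)) t).pred (h0 t), fun a b hab => ?_⟩, trivial, ?_⟩
    · exact Fin.pred_le_pred_iff.2 (y.monotone hab)
    · apply OrderHom.ext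
      funext t
      show ((dlt 0).comp _) t = _
      rw [hz]
      exact Fin.succ_pred _ (h0 t)

end MM
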