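import Pool.Agent.Lib_MP_33f7bb_d.B2B
import Pool.Agent.Lib_MP_33f7bb_d.B3Def

/-!
# B3-08 (L6): `lab D (bd 1) ⊤` in `Δ¹` is the bar construction of the abelian group `D`

`P := lab D (bd 1) ⊤` (ambient `Del 1`): `(bd 1).car n` = the two constant maps, so a simplex of degree `n` is a
function `a` on the surjective monotone maps `β : [n] → [1]` with values in `D` (`Mo n 1` is finite).
Map to `BGr (Multiplicative D)` (B2A): `f i = ∑ β with β 0 = 0 and β i = 1, a β` (so `f 0 = 0`); on `P` the
condition `β 0 = 0` may be dropped, as `a` vanishes on constant maps... and `β 0 = 1` means `β = cst 1`.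
* bijective: the surjective `β` are `β_j (i) = 1 iff j ≤ i`, `1 ≤ j ≤ n`; `f i = ∑ j ≤ i, a β_j`; inverse
  `a β_j = f j - f (j-1)` (`β_j (j) = 1`, `β_j (j-1) = 0`; for a general surjective `β` let `j` be the least index with
  `β j = 1`).  Injectivity: by induction on `j`.
* natural: for `g : Mo m n` and `γ : [m] → [1]`, `(act g a) γ = ∑ (β with β ∘ g = γ) a β` for nonconstant `γ`
  (`labAct_of_notMem`, `Finsupp.mapDomain`), so
  `(act g f) i = ∑ (γ nonconstant, γ i = 1) ∑ (β ∘ g = γ) a β = ∑ (β with β (g 0) = 0, β (g i) = 1) a β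
   = ∑ (β (g i) = 1) a β - ∑ (β (g 0) = 1) a β = f (g i) - f (g 0)`.
`yac_BGr_locally_finite` and `YAc.iso_iff` finish the proof.
-/

namespace MM

/-- sum over the maps which are `1` at `i` -/
private noncomputable def B308_F {D : Type} [AddCommGroup D] {n : ℕ} (a : Mo n 1 →₀ D)
    (i : Fin (n + 1)) : D := ∑ β : Mo n 1, if β i = 1 then a β else 0

/-- the step map -/
private def B308_st {n : ℕ} (k : Fin n) : Mo n 1 :=
  ⟨fun i => if k.castSucc < i then 1 else 0, by
    intro i j hij
    by_cases h : k.castSucc < i
    · have h' : k.castSucc < j := lt_of_lt_of_le h hij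
      simp [h, h']
    · simp [h]⟩

private theorem B308_st_apply {n : ℕ} (k : Fin n) (i : Fin (n + 1)) :
    B308_st k i = if k.castSucc < i then 1 else 0 := rfl

private theorem B308_ne {x : Fin 2} (h : x ≠ 1) : x = 0 := by
  revert h; revert x; decide

private theorem B308_step {n : ℕ} (k : Fin n) (β : Mo n 1) :
    (β k.castSucc = 0 ∧ β k.succ = 1) ↔ β = B308_st k := by
  constructor
  · rintro ⟨h0, h1⟩
    apply OrderHom.ext
    funext i
    rw [B308_st_apply]
    by_cases h : k.castSucc < i
    · rw [if_pos h]
      have h2 : k.succ ≤ i := by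
        rw [Fin.le_def, Fin.val_succ]
        rw [Fin.lt_def, Fin.val_castSucc] at h
        omega
      have h3 := β.monotone h2
      rw [h1] at h3
      exact le_antisymm (Fin.le_last _) h3
    · rw [if_neg h]
      have h3 := β.monotone (not_lt.1 h)
      rw [h0] at h3
      exact le_antisymm h3 (Fin.zero_le _)
  · rintro rfl
    rw [B308_st_apply, B308_st_apply, if_neg (lt_irrefl _), if_pos (Fin.castSucc_lt_succ)]
    exact ⟨rfl, rfl⟩

private theorem B308_surj {n : ℕ} (β : Mo n 1) (h : Function.Surjective β) :
    ∃ k : Fin n, β = B308_st k := by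
  by_contra hc
  push Not at hc
  have h0 : β 0 = 0 := by
    obtain ⟨i, hi⟩ := h 0
    have h1 := β.monotone (Fin.zero_le i)
    rw [hi] at h1
    exact le_antisymm h1 (Fin.zero_le _)
  have hall : ∀ i, β i = 0 := by
    intro i
    induction i using Fin.induction with
    | zero => exact h0
    | succ k ih =>
      by_contra h1
      have h2 : β k.succ = 1 := by
        by_contra h3
        exact h1 (B308_ne h3)
      exact hc k ((B308_step k β).1 ⟨ih, h2⟩)
  obtain ⟨i, hi⟩ := h 1
  rw [hall i] at hi
  exact absurd hi (by decide)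

private theorem B308_st_surj {n : ℕ} (k : Fin n) : Function.Surjective (B308_st k) := by
  intro y
  have h := (B308_step k (B308_st k)).2 rfl
  by_cases hy : y = 1
  · exact ⟨k.succ, by rw [h.2, hy]⟩
  · exact ⟨k.castSucc, by rw [h.1, B308_ne hy]⟩

private theorem B308_diff {D : Type} [AddCommGroup D] {n : ℕ} (a : Mo n 1 →₀ D) (k : Fin n) :
    B308_F a k.succ - B308_F a k.castSucc = a (B308_st k) := by
  classical
  unfold B308_F
  rw [← Finset.sum_sub_distrib]
  have h : ∀ β : Mo n 1, ((if β k.succ = 1 then a β else 0) - (if β k.castSucc = 1 then a β else 0)) =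
      if β = B308_st k then a β else 0 := by
    intro β
    by_cases h1 : β k.castSucc = 1
    · have h2 : β k.succ = 1 := by
        have h3 := β.monotone (le_of_lt (Fin.castSucc_lt_succ (i := k)))
        rw [h1] at h3
        exact le_antisymm (Fin.le_last _) h3
      have h3 : ¬ β = B308_st k := by
        intro h
        have h4 := ((B308_step k β).2 h).1
        rw [h1] at h4
        exact absurd h4 (by decide)
      rw [if_pos h2, if_pos h1, if_neg h3, sub_self]
    · by_cases h2 : β k.succ = 1
      · have h3 : β = B308_st k := (B308_step k β).1 ⟨B308_ne h1, h2⟩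
        rw [if_pos h2, if_neg h1, if_pos h3, sub_zero]
      · have h3 : ¬ β = B308_st k := fun h => h2 ((B308_step k β).2 h).2
        rw [if_neg h2, if_neg h1, if_neg h3, sub_zero]
  rw [Finset.sum_congr rfl fun β _ => h β, Finset.sum_ite_eq' Finset.univ (B308_st k)]
  rw [if_pos (Finset.mem_univ _)]

/-- the inverse map -/
private noncomputable def B308_G {D : Type} [AddCommGroup D] {n : ℕ} (f : Fin (n + 1) → D) :
    Mo n 1 →₀ D :=
  Finsupp.equivFunOnFinite.symm fun β =>
    ∑ k : Fin n, if β = B308_st k then f k.succ - f k.castSucc else 0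

private theorem B308_G_apply {D : Type} [AddCommGroup D] {n : ℕ} (f : Fin (n + 1) → D)
    (β : Mo n 1) : B308_G f β = ∑ k : Fin n, if β = B308_st k then f k.succ - f k.castSucc else 0 :=
  rfl

private theorem B308_tel {D : Type} [AddCommGroup D] {n : ℕ} (f : Fin (n + 1) → D)
    (i : Fin (n + 1)) :
    (∑ k : Fin n, if k.castSucc < i then f k.succ - f k.castSucc else 0) = f i - f 0 := by
  induction i using Fin.induction with
  | zero =>
    rw [sub_self]
    refine Finset.sum_eq_zero fun k _ => ?_
    rw [if_neg (not_lt.2 (Fin.zero_le _))]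
  | succ j ih =>
    have h : ∀ k : Fin n, (if k.castSucc < j.succ then f k.succ - f k.castSucc else 0) =
        (if k.castSucc < j.castSucc then f k.succ - f k.castSucc else 0) +
          (if k = j then f k.succ - f k.castSucc else 0) := by
      intro k
      by_cases h1 : k = j
      · subst h1
        rw [if_pos (Fin.castSucc_lt_succ), if_neg (lt_irrefl _), if_pos rfl, zero_add]
      · by_cases h2 : k.castSucc < j.castSucc
        · have h3 : k.castSucc < j.succ := h2.trans (Fin.castSucc_lt_succ)
          rw [if_pos h3, if_pos h2, if_neg h1, add_zero]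
        · have h3 : ¬ k.castSucc < j.succ := by
            intro h4
            rw [Fin.lt_def, Fin.val_castSucc, Fin.val_succ] at h4
            rw [Fin.lt_def, Fin.val_castSucc, Fin.val_castSucc] at h2
            exact h1 (Fin.ext (by omega))
          rw [if_neg h3, if_neg h2, if_neg h1, add_zero]
    rw [Finset.sum_congr rfl fun k _ => h k, Finset.sum_add_distrib, ih,
      Finset.sum_ite_eq' Finset.univ j, if_pos (Finset.mem_univ _)]
    abel

private theorem B308_FG {D : Type} [AddCommGroup D] {n : ℕ} (f : Fin (n + 1) → D)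
    (hf : f 0 = 0) (i : Fin (n + 1)) : B308_F (B308_G f) i = f i := by
  classical
  unfold B308_F
  have h1 : ∀ β : Mo n 1, (if β i = 1 then B308_G f β else 0) =
      ∑ k : Fin n, if β = B308_st k then (if k.castSucc < i then f k.succ - f k.castSucc else 0)
        else 0 := by
    intro β
    by_cases h : β i = 1
    · rw [if_pos h, B308_G_apply]
      refine Finset.sum_congr rfl fun k _ => ?_
      by_cases h2 : β = B308_st k
      · rw [if_pos h2, if_pos h2]
        have h3 : k.castSucc < i := by
          by_contra h4
          rw [h2, B308_st_apply, if_neg h4] at h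
          exact absurd h (by decide)
        rw [if_pos h3]
      · rw [if_neg h2, if_neg h2]
    · rw [if_neg h]
      symm
      refine Finset.sum_eq_zero fun k _ => ?_
      by_cases h2 : β = B308_st k
      · rw [if_pos h2]
        have h3 : ¬ k.castSucc < i := by
          intro h4
          apply h
          rw [h2, B308_st_apply, if_pos h4]
        rw [if_neg h3]
      · rw [if_neg h2]
  rw [Finset.sum_congr rfl fun β _ => h1 β, Finset.sum_comm]
  have h2 : ∀ k : Fin n, (∑ β : Mo n 1, if β = B308_st k then
      (if k.castSucc < i then f k.succ - f k.castSucc else 0) else 0) =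
      if k.castSucc < i then f k.succ - f k.castSucc else 0 := by
    intro k
    rw [Finset.sum_ite_eq' Finset.univ (B308_st k), if_pos (Finset.mem_univ _)]
  rw [Finset.sum_congr rfl fun k _ => h2 k, B308_tel, hf, sub_zero]

private theorem B308_F0 {D : Type} [AddCommGroup D] {n : ℕ} (a : Mo n 1 →₀ D)
    (ha : a ∈ labM D (bd 1) (⊤ : Sub (Del 1)) n) : B308_F a 0 = 0 := by
  unfold B308_F
  refine Finset.sum_eq_zero fun β _ => ?_
  by_cases h : β 0 = 1
  · rw [if_pos h]
    by_contra h1
    have h2 := (ha β h1).2
    apply h2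
    intro hs
    obtain ⟨i, hi⟩ := hs 0
    have h3 := β.monotone (Fin.zero_le i)
    rw [h, hi] at h3
    exact absurd h3 (by decide)
  · rw [if_neg h]

private theorem B308_act {D : Type} [AddCommGroup D] {m n : ℕ} (g : Mo m n) (a : Mo n 1 →₀ D)
    (i : Fin (m + 1)) :
    B308_F (labAct D (bd 1) g a) i = B308_F a (g i) - B308_F a (g 0) := by
  classical
  have hmd : ∀ γ : Mo m 1, (Finsupp.mapDomain ((Del 1).act g) a) γ =
      ∑ β : Mo n 1, if β.comp g = γ then a β else 0 := by
    intro γ
    rw [Finsupp.mapDomain, Finsupp.sum_apply, Finsupp.sum_fintype]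
    · refine Finset.sum_congr rfl fun β _ => ?_
      rw [Finsupp.single_apply]
    · intro β
      simp
  unfold B308_F
  rw [← Finset.sum_sub_distrib]
  have h1 : ∀ γ : Mo m 1, (if γ i = 1 then labAct D (bd 1) g a γ else 0) =
      ∑ β : Mo n 1, if γ = β.comp g then
        ((if β (g i) = 1 then a β else 0) - (if β (g 0) = 1 then a β else 0)) else 0 := by
    intro γ
    by_cases h : γ i = 1
    · rw [if_pos h]
      by_cases h0 : γ 0 = 1
      · have hmem : γ ∈ (bd 1).car m := by
          intro hs
          obtain ⟨j, hj⟩ := hs 0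
          have h3 := γ.monotone (Fin.zero_le j)
          rw [h0, hj] at h3
          exact absurd h3 (by decide)
        rw [labAct_of_mem (bd 1) g a hmem]
        symm
        refine Finset.sum_eq_zero fun β _ => ?_
        by_cases h2 : γ = β.comp g
        · have e1 : β (g i) = 1 := by rw [h2] at h; exact h
          have e2 : β (g 0) = 1 := by rw [h2] at h0; exact h0
          rw [if_pos h2, if_pos e1, if_pos e2, sub_self]
        · rw [if_neg h2]
      · have hnm : γ ∉ (bd 1).car m := by
          intro hm
          apply hm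
          intro y
          by_cases hy : y = 1
          · exact ⟨i, by rw [hy]; exact h⟩
          · exact ⟨0, by rw [B308_ne hy]; exact B308_ne h0⟩
        rw [labAct_of_notMem (bd 1) g a hnm]
        refine (hmd γ).trans ?_
        refine Finset.sum_congr rfl fun β _ => ?_
        by_cases h2 : γ = β.comp g
        · have e1 : β (g i) = 1 := by rw [h2] at h; exact h
          have e2 : ¬ β (g 0) = 1 := by rw [h2] at h0; exact h0
          rw [if_pos h2.symm, if_pos h2, if_pos e1, if_neg e2, sub_zero]
        · rw [if_neg (fun h3 => h2 h3.symm), if_neg h2]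
    · rw [if_neg h]
      symm
      refine Finset.sum_eq_zero fun β _ => ?_
      by_cases h2 : γ = β.comp g
      · have e1 : ¬ β (g i) = 1 := by rw [h2] at h; exact h
        have e2 : ¬ β (g 0) = 1 := by
          intro h3
          apply e1
          have h4 := β.monotone (g.monotone (Fin.zero_le i))
          rw [h3] at h4
          exact le_antisymm (Fin.le_last _) h4
        rw [if_pos h2, if_neg e1, if_neg e2, sub_zero]
      · rw [if_neg h2]
  rw [Finset.sum_congr rfl fun γ _ => h1 γ, Finset.sum_comm]
  refine Finset.sum_congr rfl fun β _ => ?_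
  rw [Finset.sum_ite_eq' Finset.univ (β.comp g), if_pos (Finset.mem_univ _)]

/-- the isomorphism with the bar construction -/
private noncomputable def B308_phi (D : Type) [AddCommGroup D] :
    Hom (lab D (bd 1) (⊤ : Sub (Del 1))) (BGr (Multiplicative D)) where
  app n a := ⟨fun i => Multiplicative.ofAdd (B308_F a.1 i), by
    show Multiplicative.ofAdd (B308_F a.1 0) = 1
    rw [B308_F0 a.1 a.2]; rfl⟩
  nat {m n} g a := by
    apply Subtype.ext
    funext i
    show Multiplicative.ofAdd (B308_F (labAct D (bd 1) g a.1) i) =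
      (Multiplicative.ofAdd (B308_F a.1 (g 0)))⁻¹ * Multiplicative.ofAdd (B308_F a.1 (g i))
    rw [B308_act, ← ofAdd_neg, ← ofAdd_add]
    congr 1
    abel

private theorem B308_phi_apply (D : Type) [AddCommGroup D] (n : ℕ)
    (a : (lab D (bd 1) (⊤ : Sub (Del 1))).S n) (i : Fin (n + 1)) :
    ((B308_phi D).app n a).1 i = Multiplicative.ofAdd (B308_F a.1 i) := rfl

private theorem B308_bij (D : Type) [AddCommGroup D] (n : ℕ) :
    Function.Bijective ((B308_phi D).app n) := by
  constructor
  · intro a b hab
    have h : ∀ i, B308_F a.1 i = B308_F b.1 i := by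
      intro i
      have h1 := congrArg (fun x => x.1 i) hab
      exact Multiplicative.ofAdd.injective h1
    apply Subtype.ext
    ext β
    by_cases hs : Function.Surjective (β : Mo n 1)
    · obtain ⟨k, hk⟩ := B308_surj β hs
      rw [hk, ← B308_diff a.1 k, ← B308_diff b.1 k, h, h]
    · have h1 : a.1 β = 0 := by
        by_contra h2
        exact (a.2 β h2).2 hs
      have h2 : b.1 β = 0 := by
        by_contra h2
        exact (b.2 β h2).2 hs
      rw [h1, h2]
  · intro f
    have hmem : B308_G (fun i => Multiplicative.toAdd (f.1 i)) ∈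
        labM D (bd 1) (⊤ : Sub (Del 1)) n := by
      intro β hβ
      refine ⟨trivial, fun hm => hβ ?_⟩
      rw [B308_G_apply]
      refine Finset.sum_eq_zero fun k _ => ?_
      rw [if_neg]
      intro h
      apply hm
      rw [h]
      exact B308_st_surj k
    refine ⟨⟨_, hmem⟩, ?_⟩
    apply Subtype.ext
    funext i
    rw [B308_phi_apply]
    rw [B308_FG (fun i => Multiplicative.toAdd (f.1 i)) (by
      show Multiplicative.toAdd (f.1 0) = 0
      rw [f.2]; rfl) i]
    rfl

theorem lab_bd1 {Y : SS} [∀ n, TopologicalSpace (Y.S n)] (hY : IsTarget Y) (D : Type)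
    [AddCommGroup D] (hD : ∀ s : Finset D, ∃ B : AddSubgroup D, Finite B ∧ (s : Set D) ⊆ B) :
    YAc Y (lab D (bd 1) ⊤) 0 := by
  classical
  rw [YAc.iso_iff hY (B308_phi D) (B308_bij D)]
  have h0 : (B308_phi D).app 0 0 = BGr.pt (Multiplicative D) := by
    apply Subtype.ext
    funext i
    rw [B308_phi_apply]
    show Multiplicative.ofAdd (B308_F (0 : Mo 0 1 →₀ D) i) = 1
    unfold B308_F
    simp
  rw [h0]
  refine yac_BGr_locally_finite hY (Multiplicative D) fun S => ?_
  obtain ⟨B, hB, hS⟩ := hD (S.image Multiplicative.toAdd)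
  refine ⟨AddSubgroup.toSubgroup B, hB, ?_⟩
  intro x hx
  have h1 : Multiplicative.toAdd x ∈ (B : Set D) := by
    apply hS
    rw [Finset.coe_image]
    exact ⟨x, hx, rfl⟩
  exact h1

end MM
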