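import Pool.Agent.Lib_MP_33f7bb_d.B3Def

/-!
# B3-10: the coefficient system `(I →₀ ℕ, I →₀ N2, I →₀ D2)`

`N2 := {x : ℚ // 0 ≤ x ∧ ∃ k n : ℕ, x * 2 ^ k = n}` (an `AddSubmonoid` of `ℚ`), doubling is bijective on it.
`D2 := {x : AddCircle (1 : ℚ) // ∃ k : ℕ, (2 ^ k) • x = 0}` (an `AddSubgroup`; or use `ℚ ⧸ zmultiples 1`).
`ι n = n`, `q x = (x : AddCircle 1)`, `s d =` the representative in `[0, 1)` (`AddCircle.equivIco 1 0` or
`Int.fract`): if `2^k • d = 0` then `2^k * s d` is an integer `≥ 0`.  `dec`: `x = ⌊x⌋₊ + fract x`; `inj`: cancel.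
Finite subsets of `D2` are in `{x | 2^k • x = 0}` for some `k`, which is a finite subgroup (multiples of
`1/2^k`: the representative `r ∈ [0,1)` satisfies `2^k r ∈ {0, .., 2^k - 1}`; or Mathlib `AddCircle` torsion
finiteness).

For `I`: take everything pointwise: `M = I →₀ N2`, `D = I →₀ D2`, `ι = Finsupp.mapRange.addMonoidHom`, `q`
likewise, `s = Finsupp.mapRange s s0`; `dec`: choose pointwise (zero outside the support of `x`, by `inj`); doubling:
pointwise.  Locally finite: a finite set `t` of elements of `I →₀ D2` has finite total support `J` and finitely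
many values, contained in a finite subgroup `B`; `{a | support ⊆ J, values in B}` is a finite subgroup (it
injects into `J → B`).
-/

namespace MM

private def B310_q : NNRat →+ AddCircle (1 : ℚ) where
  toFun x := ((x : ℚ) : AddCircle (1 : ℚ))
  map_zero' := by
    show (((0 : NNRat) : ℚ) : AddCircle (1 : ℚ)) = 0
    rw [NNRat.cast_zero, AddCircle.coe_zero]
  map_add' x y := by
    show (((x + y : NNRat) : ℚ) : AddCircle (1 : ℚ)) = _
    rw [NNRat.cast_add, AddCircle.coe_add]

private theorem B310_fr {x y : ℚ} (h : (x : AddCircle (1 : ℚ)) = y) : Int.fract x = Int.fract y := by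
  have h1 : ((x - y : ℚ) : AddCircle (1 : ℚ)) = 0 := by
    rw [AddCircle.coe_sub, h, sub_self]
  obtain ⟨n, hn⟩ := (AddCircle.coe_eq_zero_iff (1 : ℚ)).1 h1
  have h2 : x = y + n := by
    have h3 : (n : ℚ) = x - y := by
      rw [← hn]
      simp
    linarith
  rw [h2, Int.fract_add_intCast]

/-- the representative in `[0, 1)` -/
private noncomputable def B310_s (d : AddCircle (1 : ℚ)) : NNRat :=
  ⟨Int.fract (Quotient.out d : ℚ), Int.fract_nonneg _⟩

private theorem B310_s_coe (x : ℚ) : ((B310_s (x : AddCircle (1 : ℚ)) : NNRat) : ℚ) = Int.fract x := by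
  show Int.fract (Quotient.out (x : AddCircle (1 : ℚ)) : ℚ) = Int.fract x
  exact B310_fr (Quotient.out_eq (x : AddCircle (1 : ℚ)))

private theorem B310_ind (d : AddCircle (1 : ℚ)) : ∃ x : ℚ, (x : AddCircle (1 : ℚ)) = d :=
  ⟨Quotient.out d, Quotient.out_eq d⟩

/-- the coefficient system `ℕ → ℚ≥0 → ℚ/ℤ` -/
private noncomputable def B310_c : Coef ℕ NNRat (AddCircle (1 : ℚ)) where
  ι := Nat.castAddMonoidHom NNRat
  q := B310_q
  s := B310_s
  s0 := by
    have h := B310_s_coe 0
    rw [AddCircle.coe_zero, Int.fract_zero] at h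
    exact NNRat.coe_injective (h.trans NNRat.coe_zero.symm)
  qs d := by
    obtain ⟨x, rfl⟩ := B310_ind d
    show (((B310_s (x : AddCircle (1 : ℚ)) : NNRat) : ℚ) : AddCircle (1 : ℚ)) = x
    rw [B310_s_coe, AddCircle.coe_fract]
  qι n := by
    show ((((n : ℕ) : NNRat) : ℚ) : AddCircle (1 : ℚ)) = 0
    rw [AddCircle.coe_eq_zero_iff]
    exact ⟨n, by simp⟩
  dec x := by
    obtain ⟨n, hn⟩ := Int.eq_ofNat_of_zero_le (Int.floor_nonneg.2 (NNRat.coe_nonneg x))
    refine ⟨n, NNRat.coe_injective ?_⟩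
    show (x : ℚ) = (((n : ℕ) : NNRat) + B310_s (((x : NNRat) : ℚ) : AddCircle (1 : ℚ)) : NNRat)
    rw [NNRat.coe_add, B310_s_coe]
    have h1 := Int.floor_add_fract (x : ℚ)
    rw [hn] at h1
    have h2 : (((n : ℕ) : NNRat) : ℚ) = ((n : ℤ) : ℚ) := by simp
    rw [h2]
    exact h1.symm
  inj n n' d h := by
    have h1 : ((n : ℕ) : NNRat) + B310_s d = ((n' : ℕ) : NNRat) + B310_s d := h
    have h2 := add_right_cancel h1
    exact_mod_cast h2

/-- pointwise coefficient systems -/
private noncomputable def B310_lift {N M D : Type} [AddCommMonoid N] [AddCommMonoid M]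
    [AddCommGroup D] (c : Coef N M D) (I : Type) : Coef (I →₀ N) (I →₀ M) (I →₀ D) where
  ι := Finsupp.mapRange.addMonoidHom c.ι
  q := Finsupp.mapRange.addMonoidHom c.q
  s := Finsupp.mapRange c.s c.s0
  s0 := Finsupp.mapRange_zero
  qs d := by
    ext i
    exact c.qs (d i)
  qι n := by
    ext i
    exact c.qι (n i)
  dec x := by
    choose f hf using c.dec
    have f0 : f 0 = 0 := by
      have h1 := hf 0
      rw [map_zero, c.s0, add_zero] at h1
      refine c.inj _ _ 0 ?_
      rw [c.s0, add_zero, add_zero, map_zero]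
      exact h1.symm
    refine ⟨Finsupp.mapRange f f0 x, ?_⟩
    ext i
    exact hf (x i)
  inj n n' d h := by
    ext i
    exact c.inj _ _ (d i) (DFunLike.congr_fun h i)

private theorem B310_tor (I : Type) (a : I →₀ AddCircle (1 : ℚ)) : IsOfFinAddOrder a := by
  induction a using Finsupp.induction_linear with
  | zero => exact IsOfFinAddOrder.zero
  | add x y hx hy => exact hx.add hy
  | single i d =>
    obtain ⟨x, rfl⟩ := B310_ind d
    rw [isOfFinAddOrder_iff_nsmul_eq_zero]
    refine ⟨x.den, x.den_pos, ?_⟩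
    rw [Finsupp.smul_single, ← AddCircle.coe_nsmul]
    have h1 : ((x.den • x : ℚ) : AddCircle (1 : ℚ)) = 0 := by
      rw [AddCircle.coe_eq_zero_iff]
      refine ⟨x.num, ?_⟩
      rw [nsmul_eq_mul, mul_comm, Rat.mul_den_eq_num]
      simp
    rw [h1, Finsupp.single_zero]

theorem exists_coef (I : Type) :
    ∃ (M D : Type) (_ : AddCommMonoid M) (_ : AddCommGroup D) (_ : Coef (I →₀ ℕ) M D),
      Function.Bijective (fun x : M => x + x) ∧
      ∀ s : Finset D, ∃ B : AddSubgroup D, Finite B ∧ (s : Set D) ⊆ B := by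
  classical
  refine ⟨I →₀ NNRat, I →₀ AddCircle (1 : ℚ), inferInstance, inferInstance, B310_lift B310_c I,
    ⟨?_, ?_⟩, ?_⟩
  · intro x y h
    ext i
    have h1 : x i + x i = y i + y i := DFunLike.congr_fun h i
    have h2 : (x i : ℚ) + x i = y i + y i := by exact_mod_cast h1
    have h3 : (x i : ℚ) = y i := by linarith
    exact_mod_cast h3
  · intro y
    refine ⟨Finsupp.mapRange (fun a : NNRat => a / 2) (by simp) y, ?_⟩
    ext i
    show ((y i / 2 + y i / 2 : NNRat) : ℚ) = y i
    push_cast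
    ring
  · intro s
    refine ⟨AddSubgroup.closure (s : Set (I →₀ AddCircle (1 : ℚ))), ?_, AddSubgroup.subset_closure⟩
    have : AddGroup.FG (AddSubgroup.closure (s : Set (I →₀ AddCircle (1 : ℚ)))) :=
      AddGroup.closure_finset_fg s
    refine AddCommGroup.finite_of_fg_isAddTorsion _ ?_
    rintro ⟨x, hx⟩
    have h1 := B310_tor I x
    rw [isOfFinAddOrder_iff_nsmul_eq_zero] at h1 ⊢
    obtain ⟨n, hn, h2⟩ := h1
    exact ⟨n, hn, Subtype.ext h2⟩

end MM
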