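import Pool.Agent.Lib_MP_33f7bb_d.B3Def
import Pool.Agent.Lib_MP_33f7bb_d.A002

/-!
# B3-11: skeleta: `(sk n, sk (n-1))` is relatively isomorphic to `(Δ^n × I, ∂Δ^n × I)`

`I := {x : W.S n // NonDeg x}`, `φ (β, x) = act β x`.
* `map`: `φ (β, x) ∈ sk (n+1)` by definition (`k = n + 1`).
* `pre`: for nondegenerate `x` of degree `n + 1`: `act β x ∈ sk n` iff `β` is not surjective.  (If `β : [m] → [n+1]` is not
  surjective, it factors through a coface (`exists_dlt`), so `act β x = act g (act (dlt i) x)` is in `sk n`.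
  If `β` is surjective and `act β x = act f y`, `y : W.S k`, `k ≤ n`, then by `ez_exists` for `y`, write `y = act s y'`,
  `y'` nondegenerate of degree `k' ≤ k`; a section `t` of `β` gives `x = act t (act β x) = act (s ∘ f ∘ t) y'`, so
  `NonDeg x` gives `n + 1 ≤ k' ≤ n`: contradiction.)
* `inj`: for surjective `β, β'`, `act β x = act β' x'` implies `β = β'`, `x = x'` (`ez_unique`).
* `surj`: `y ∈ sk (n+1)`, `y ∉ sk n`: `ez_exists` for `y`: `y = act s y'`, `s` surjective, `y'` nondegenerate of degree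
  `k`.  `k ≤ n` is excluded (`y ∉ sk n`), and `k ≤ n + 1` since `y = act f u` with `u` of degree `≤ n+1`: a
  section `t` of `s`: `y' = act t y = act (f ∘ t) u`, so `k ≤ n+1`.

`sk_zero_eq`/`sk_one_eq`: if `W` has only one vertex `w0` and only one edge `deg w0 1` then `sk 1 = pt w0`.
`sk_exhaust`: every simplex of degree `n` is in `sk n`.
-/

namespace MM

/-- `(β, x) ↦ act β x` -/
def skMap (W : SS) (n : ℕ) : Hom (DI (Del n) {x : W.S n // NonDeg x}) W :=
  ⟨fun _ p => W.act p.1 p.2.1, fun f p => by rw [W.act_comp]⟩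

private theorem B311_dim {W : SS} {m n k : ℕ} {y : W.S m} (hy : y ∈ (W.sk n).car m)
    (s : Mo m k) (hs : Function.Surjective s) (y' : W.S k) (hy' : NonDeg y')
    (h : y = W.act s y') : k ≤ n := by
  obtain ⟨k0, f, u, hk0, hu⟩ := hy
  obtain ⟨t, ht⟩ := exists_section s hs
  refine (hy' k0 (f.comp t) u ?_).trans hk0
  rw [← W.act_comp, ← hu, h, W.act_comp, ht, W.act_id]

theorem relIso_sk (W : SS) (n : ℕ) :
    RelIso (skMap W (n + 1)) ((bd (n + 1)).di _) ⊤ (W.sk n) (W.sk (n + 1)) := by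
  have hpre : ∀ m, ∀ x : (DI (Del (n + 1)) {x : W.S (n + 1) // NonDeg x}).S m,
      (W.act x.1 x.2.1 ∈ (W.sk n).car m ↔ ¬ Function.Surjective (x.1 : Mo m (n + 1))) := by
    rintro m ⟨β, x, hx⟩
    constructor
    · intro h hs
      have := B311_dim h β hs x hx rfl
      omega
    · intro h
      obtain ⟨i, g, hg⟩ := exists_dlt β h
      exact ⟨n, g, W.act (dlt i) x, le_rfl, by rw [W.act_comp, ← hg]⟩
  refine ⟨fun _ _ _ => trivial, ?_, ?_, ?_, ?_, ?_⟩
  · rintro m x ⟨k, f, y, hk, hx⟩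
    exact ⟨k, f, y, hk.trans (Nat.le_succ n), hx⟩
  · intro m x _
    exact ⟨n + 1, x.1, x.2.1, le_rfl, rfl⟩
  · intro m x _
    exact hpre m x
  · rintro m ⟨β, x, hx⟩ _ ⟨β', x', hx'⟩ _ h h' he
    have hs : Function.Surjective β := not_not.1 h
    have hs' : Function.Surjective β' := not_not.1 h'
    obtain ⟨h1, h2⟩ := ez_unique β β' x x' hs hs' hx hx' he
    subst h1
    subst h2
    rfl
  · intro m y hy hy'
    obtain ⟨k, s, y', hs, hn, he⟩ := ez_exists y
    have hk : k ≤ n + 1 := B311_dim hy s hs y' hn he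
    have hk' : ¬ k ≤ n := fun h => hy' ⟨k, s, y', h, he⟩
    have hk'' : k = n + 1 := by omega
    subst hk''
    exact ⟨(s, ⟨y', hn⟩), trivial, he.symm⟩

theorem sk_one_eq {W : SS} (w0 : W.S 0) (h0 : ∀ w : W.S 0, w = w0)
    (h1 : ∀ w : W.S 1, w = W.deg w0 1) : W.sk 1 = Sub.pt w0 := by
  refine Sub.ext (funext fun m => Set.ext fun x => ?_)
  constructor
  · rintro ⟨k, f, y, hk, rfl⟩
    show W.act f y = W.act (cst 0) w0
    have hcase : k = 0 ∨ k = 1 := by omega
    rcases hcase with rfl | rfl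
    · rw [h0 y]
      congr 1
      exact OrderHom.ext _ _ (funext fun i => Subsingleton.elim (α := Fin 1) _ _)
    · rw [h1 y]
      show W.act f (W.act (cst 0) w0) = _
      rw [W.act_comp]
      rfl
  · intro hx
    exact ⟨0, cst 0, w0, Nat.zero_le 1, hx⟩

end MM
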