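import Pool.Agent.Lib_MP_33f7bb_d.B1C
import Pool.Agent.Lib_MP_33f7bb_d.B3Def

/-!
# B3-12: currying of labels

`lab N (K × I) (C × I)` on `U × I` is isomorphic to `lab (I →₀ N) K C` on `U`: the isomorphism is
`Finsupp.finsuppProdEquiv`/`Finsupp.curryEquiv` (`(U_n × I →₀ N) ≃ (U_n →₀ (I →₀ N))`, additive), the support
condition: `a.curry x ≠ 0` iff some `a (x, i) ≠ 0`.  Compatible with the structure maps: push forward along
`(x, i) ↦ (act f x, i)` corresponds to push forward along `act f` (both sides are additive: check on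
`Finsupp.single (x, i) c`), and filtering corresponds.  Use `YAc.iso_iff` (B1C).
-/

namespace MM

private theorem B312_map {α β I N : Type} [AddCommMonoid N] (g : α → β) (a : α × I →₀ N) :
    (a.mapDomain (fun x => (g x.1, x.2))).curry = a.curry.mapDomain g := by
  induction a using Finsupp.induction_linear with
  | zero =>
    rw [Finsupp.mapDomain_zero]
    have h : ∀ {γ : Type}, (0 : γ × I →₀ N).curry = 0 := fun {γ} => rfl
    rw [h, h, Finsupp.mapDomain_zero]
  | add a b ha hb =>
    have h : ∀ {γ : Type} (u v : γ × I →₀ N), (u + v).curry = u.curry + v.curry :=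
      fun {γ} u v => Finsupp.ext fun x => Finsupp.ext fun i => rfl
    rw [Finsupp.mapDomain_add, h, h, Finsupp.mapDomain_add, ha, hb]
  | single x c =>
    rw [Finsupp.mapDomain_single, Finsupp.curry_single, Finsupp.curry_single,
      Finsupp.mapDomain_single]

private theorem B312_supp {α I N : Type} [AddCommMonoid N] (a : α × I →₀ N) (x : α)
    (h : a.curry x ≠ 0) : ∃ i, a (x, i) ≠ 0 := by
  by_contra hcon
  push Not at hcon
  exact h (Finsupp.ext fun i => hcon i)

private noncomputable def B312_hom (N : Type) [AddCommMonoid N] {U : SS} (K C : Sub U)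
    (I : Type) : Hom (lab N (K.di I) (C.di I)) (lab (I →₀ N) K C) where
  app n a := ⟨a.1.curry, by
    intro x hx
    obtain ⟨i, hi⟩ := B312_supp a.1 x hx
    exact a.2 (x, i) hi⟩
  nat {m n} f a := by
    apply Subtype.ext
    show (labAct N (K.di I) f a.1).curry = labAct (I →₀ N) K f a.1.curry
    ext y i
    rw [Finsupp.curry_apply]
    by_cases h : y ∈ K.car m
    · have h' : (y, i) ∈ (K.di I).car m := h
      rw [labAct_of_mem (K.di I) f a.1 h', labAct_of_mem K f _ h]
      rfl
    · have h' : (y, i) ∉ (K.di I).car m := h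
      rw [labAct_of_notMem (K.di I) f a.1 h', labAct_of_notMem K f _ h]
      have h2 := B312_map (U.act f) a.1
      rw [← h2]
      rfl

theorem lab_curry {Y : SS} [∀ n, TopologicalSpace (Y.S n)] (hY : IsTarget Y) (N : Type) [AddCommMonoid N] {U : SS} (K C : Sub U) (I : Type) :
    YAc Y (lab N (K.di I) (C.di I)) 0 ↔ YAc Y (lab (I →₀ N) K C) 0 := by
  refine YAc.iso_iff hY (B312_hom N K C I) (fun n => ⟨?_, ?_⟩) 0
  · intro a b hab
    apply Subtype.ext
    have h : a.1.curry = b.1.curry := congrArg Subtype.val hab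
    rw [← Finsupp.uncurry_curry a.1, h, Finsupp.uncurry_curry]
  · intro b
    refine ⟨⟨b.1.uncurry, ?_⟩, ?_⟩
    · rintro ⟨x, i⟩ hx
      refine b.2 x fun h0 => hx ?_
      show b.1 x i = 0
      rw [h0]
      rfl
    · exact Subtype.ext (Finsupp.curry_uncurry b.1)

end MM
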