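import Pool.Agent.Lib_MP_33f7bb_d.B301
import Pool.Agent.Lib_MP_33f7bb_d.B302
import Pool.Agent.Lib_MP_33f7bb_d.B303
import Pool.Agent.Lib_MP_33f7bb_d.B304
import Pool.Agent.Lib_MP_33f7bb_d.B305
import Pool.Agent.Lib_MP_33f7bb_d.B306
import Pool.Agent.Lib_MP_33f7bb_d.B307
import Pool.Agent.Lib_MP_33f7bb_d.B308
import Pool.Agent.Lib_MP_33f7bb_d.B310
import Pool.Agent.Lib_MP_33f7bb_d.B311
import Pool.Agent.Lib_MP_33f7bb_d.B312

/-!
# B3-13: assembly of B3
-/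

namespace MM

variable {Y : SS} [∀ n, TopologicalSpace (Y.S n)]

theorem lab_yac_iff (hY : IsTarget Y) (A : Type) [AddCommMonoid A] {U : SS} {K K' C : Sub U}
    (hK : K ≤ K') (hC : K' ≤ C) (h : YAc Y (lab A K K') 0) :
    YAc Y (lab A K C) 0 ↔ YAc Y (lab A K' C) 0 := by
  have := Strat.yac_iff hY (labProj_strat (Y := Y) A hK hC h) (0 : (lab A K C).S 0)
  rwa [show (labProj A C hK).app 0 0 = 0 from Subtype.ext (by
    classical
    show Finsupp.filter _ (0 : U.S 0 →₀ A) = 0; exact Finsupp.filter_zero _)] at this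

/-- (L3) -/
theorem lab_perf {M : Type} [AddCommMonoid M] (hM : Function.Bijective (fun x : M => x + x))
    {U : SS} (K C : Sub U) (h0 : C.car 0 ⊆ K.car 0) : Acyc (Sub.pt (P := lab M K C) 0) ⊤ := by
  apply acyc_pt_of_abs
  · intro n z hz
    exact perf_cycle (P := lab M K C) (fun f x y => lab_act_add f x y)
      (fun n => labM_double hM K C n) n z hz
  · intro z
    refine ⟨0, fun x _ => ?_⟩
    have h1 : ∀ a : (lab M K C).S 0, a = 0 := by
      intro a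
      apply Subtype.ext
      ext u
      by_contra h
      exact (a.2 u h).2 (h0 (a.2 u h).1)
    show x = _
    rw [h1 x]
    exact (h1 _).symm

theorem pt_le_horn (n : ℕ) : Sub.pt (P := Del (n + 1)) (cst 0 : Mo 0 (n + 1)) ≤ horn (n + 1) 0 := by
  rintro m x hx
  have hx' : x = (cst 0 : Mo m (n + 1)) := hx
  subst hx'
  refine ⟨1, by simp, fun t => ?_⟩
  show ¬ ((0 : Fin (n + 2)) = 1)
  exact (by simp : ¬ ((0 : Fin (n + 2)) = 1))

/-- (L5) -/
theorem lab_horn_yac (hY : IsTarget Y) (A : Type) [AddCommMonoid A] (n : ℕ) :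
    YAc Y (lab A (horn (n + 1) 0) ⊤) 0 :=
  (lab_yac_iff hY A (pt_le_horn n) (Sub.le_top' _)
    (YAc.of_acyc hY (lab_horn_acyc A (n + 1)))).1 (YAc.of_acyc hY (lab_simplex_acyc A (n + 1)))

/-- (L7), (L8) -/
theorem lab_bd (hY : IsTarget Y) (I : Type) (n : ℕ) :
    YAc Y (lab (I →₀ ℕ) (bd (n + 2)) ⊤) 0 := by
  induction n with
  | zero =>
    obtain ⟨M, D, iM, iD, c, hdbl, hD⟩ := exists_coef I
    have hK : horn (0 + 2) 0 ≤ bd (0 + 2) := (relIso_face 1).le'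
    have hC : bd (0 + 2) ≤ (⊤ : Sub (Del (0 + 2))) := Sub.le_top' _
    obtain ⟨q, hq0, hq⟩ := exists_TLq c hK hC (lab_horn_yac hY (I →₀ ℕ) 1)
    have h1 : YAc Y (lab D (horn (0 + 2) 0) (bd (0 + 2))) 0 :=
      (lab_relIso hY D (relIso_face 1)).1 (lab_bd1 hY D hD)
    have h2 : YAc Y (TL c (horn (0 + 2) 0) (bd (0 + 2)) ⊤) 0 := by
      refine (Strat.yac_iff hY hq _).2 ?_
      rw [hq0]; exact h1
    have h3 : YAc Y (lab M (horn (0 + 2) 0) (bd (0 + 2))) 0 := by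
      refine (lab_relIso hY M (relIso_face 1)).1 (YAc.of_acyc hY (lab_perf hdbl (bd 1) ⊤ ?_))
      intro x _ hs
      obtain ⟨a, ha⟩ := hs (0 : Fin 2)
      obtain ⟨b, hb⟩ := hs (1 : Fin 2)
      have : a = b := Fin.ext (by omega)
      rw [this, hb] at ha
      exact absurd ha (by decide)
    obtain ⟨p, hp0, hp⟩ := exists_TLp c hK hC h3
    have := (Strat.yac_iff hY hp _).1 h2
    rwa [hp0] at this
  | succ n ih =>
    have hK : horn (n + 1 + 2) 0 ≤ bd (n + 1 + 2) := (relIso_face (n + 2)).le'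
    have hC : bd (n + 1 + 2) ≤ (⊤ : Sub (Del (n + 1 + 2))) := Sub.le_top' _
    exact (lab_yac_iff hY (I →₀ ℕ) hK hC ((lab_relIso hY (I →₀ ℕ) (relIso_face (n + 2))).1 ih)).1
      (lab_horn_yac hY (I →₀ ℕ) (n + 2))

theorem sk_mono (W : SS) {n n' : ℕ} (h : n ≤ n') : W.sk n ≤ W.sk n' := by
  rintro m x ⟨k, f, y, hk, rfl⟩
  exact ⟨k, f, y, hk.trans h, rfl⟩

theorem lab_self_yac (hY : IsTarget Y) (A : Type) [AddCommMonoid A] {U : SS} (K : Sub U) :
    YAc Y (lab A K K) 0 := by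
  apply YAc.of_acyc hY
  have h1 : ∀ n (a : (lab A K K).S n), a = 0 := by
    intro n a
    apply Subtype.ext
    ext u
    by_contra h
    exact (a.2 u h).2 (a.2 u h).1
  have : Sub.pt (P := lab A K K) 0 = ⊤ := by
    apply Sub.ext
    funext n
    ext x
    refine ⟨fun _ => trivial, fun _ => ?_⟩
    show x = _
    rw [h1 n x]
    exact (h1 n _).symm
  rw [this]
  exact Acyc.refl ⊤

theorem lab_sk_yac (hY : IsTarget Y) {W : SS} (w0 : W.S 0) (h0 : ∀ w : W.S 0, w = w0)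
    (h1 : ∀ w : W.S 1, w = W.deg w0 1) (n : ℕ) :
    YAc Y (lab ℕ (Sub.pt w0) (W.sk (n + 1))) 0 := by
  induction n with
  | zero =>
    rw [show W.sk (0 + 1) = Sub.pt w0 from sk_one_eq w0 h0 h1]
    exact lab_self_yac hY ℕ _
  | succ n ih =>
    have hle : Sub.pt w0 ≤ W.sk (n + 1) := by
      rw [← sk_one_eq w0 h0 h1]
      exact sk_mono W (by omega)
    refine (lab_yac_iff hY ℕ hle (sk_mono W (by omega)) ih).2 ?_
    refine (lab_relIso hY ℕ (relIso_sk W (n + 1))).1 ?_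
    exact (lab_curry hY ℕ (bd (n + 1 + 1)) ⊤ _).2 (lab_bd hY _ n)

/-- (L9) -/
theorem lab_yac_of_reduced (hY : IsTarget Y) {W : SS} (w0 : W.S 0) (h0 : ∀ w : W.S 0, w = w0)
    (h1 : ∀ w : W.S 1, w = W.deg w0 1) : YAc Y (lab ℕ (Sub.pt w0) ⊤) 0 := by
  classical
  -- labels supported in a skeleton
  let C : ℕ → Sub (lab ℕ (Sub.pt w0) (⊤ : Sub W)) := fun i =>
    ⟨fun n => {a | ∀ x, a.1 x ≠ 0 → x ∈ (W.sk (i + 1)).car n}, fun {m n} f a ha => by
      have ha' : a.1 ∈ labM ℕ (Sub.pt w0) (W.sk (i + 1)) n := fun x hx =>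
        ⟨ha x hx, (a.2 x hx).2⟩
      intro y hy
      exact (labAct_mem f ha' y hy).1⟩
  refine YAc.iUn hY C ?_ 0 ?_ ?_ ?_
  · intro i j
    refine ⟨max i j, ?_, ?_⟩
    · intro n a ha x hx
      exact sk_mono W (by omega) n (ha x hx)
    · intro n a ha x hx
      exact sk_mono W (by omega) n (ha x hx)
  · intro i x hx
    exact absurd rfl hx
  · intro n x
    refine ⟨n, fun w _ => ?_⟩
    exact ⟨n, OrderHom.id, w, by omega, (W.act_id w).symm⟩
  · intro i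
    have key := lab_sk_yac hY w0 h0 h1 i
    let φ : Hom (lab ℕ (Sub.pt w0) (W.sk (i + 1))) (C i).ss :=
      ⟨fun n a => ⟨⟨a.1, fun x hx => ⟨trivial, (a.2 x hx).2⟩⟩, fun x hx => (a.2 x hx).1⟩,
        fun f a => rfl⟩
    have hφ : ∀ n, Function.Bijective (φ.app n) := by
      intro n
      constructor
      · intro a b h
        apply Subtype.ext
        exact congrArg (fun z => z.1.1) h
      · intro b
        exact ⟨⟨b.1.1, fun x hx => ⟨b.2 x hx, (b.1.2 x hx).2⟩⟩, rfl⟩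
    exact (YAc.iso_iff hY φ hφ 0).1 key

/-- (L9) + (L10): the theorem of B3 -/
theorem lab_yac (hY : IsTarget Y) {W : SS} (w0 : W.S 0) (W' : Sub W) (hw0 : w0 ∈ W'.car 0)
    (hv : ∀ w ∈ W'.car 0, w = w0) (he : ∀ w ∈ W'.car 1, w = W.deg w0 1)
    (H : Hom ((Del 1).prod W) W)
    (h0 : ∀ n x, H.app n (cst 0, x) = x)
    (h1 : ∀ n x, H.app n (cst 1, x) ∈ W'.car n)
    (hc : ∀ n s, ∀ x ∈ W'.car n, H.app n (s, x) = x) : YAc Y (lab ℕ (Sub.pt w0) ⊤) 0 := by
  refine lab_yac_of_retract hY ℕ w0 W' hw0 H h0 h1 hc ?_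
  have key : YAc Y (lab ℕ (Sub.pt (P := W'.ss) ⟨w0, hw0⟩) ⊤) 0 :=
    lab_yac_of_reduced hY (W := W'.ss) ⟨w0, hw0⟩ (fun w => Subtype.ext (hv w.1 w.2))
      (fun w => Subtype.ext (he w.1 w.2))
  refine (lab_relIso hY ℕ (φ := W'.incl) ?_).1 key
  refine ⟨Sub.le_top' _, ?_, ?_, ?_, ?_, ?_⟩
  · rintro n x hx
    have hx' : x = W.act (cst 0) w0 := hx
    rw [hx']
    exact W'.closed _ hw0
  · intro n x _
    exact x.2
  · intro n x _
    constructor
    · intro h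
      exact Subtype.ext h
    · intro h
      exact congrArg Subtype.val h
  · intro n x _ y _ _ _ h
    exact Subtype.ext h
  · intro n y hy _
    exact ⟨⟨y, hy⟩, trivial, rfl⟩

end MM
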