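import Pool.Agent.Lib_MP_33f7bb_d.B4Def
import Pool.Agent.Lib_MP_33f7bb_d.A020

/-!
# B4-01 (BX1): tuples of pairwise disjoint boxes form an acyclic simplicial set

`D` infinite, `J` finite.  Choose an injection `k : J → ℕ`.

For a set `S ⊆ ℕ` let `E^S ⊆ EJ D J` be the subcomplex of the tuples all of whose boxes have `v t i = 0 = κ t i` for all `t` and
all `i ∉ S`.  For `e ∈ D` let `q_e : (EJ D J).S 0` be the constant tuple: box `j` has
`κ = Pi.single e 1`, `v = Pi.single e (3 * k j)`; disjoint: `|x e - 3 k| < 1` and `|x e - 3 k'| < 1` are incompatible.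

Choose a strictly increasing enumeration `a_0 < a_1 < ...` in `D` (`Nat.nth (· ∈ D)` with `Nat.nth_strictMono`, or
`Nat.orderEmbeddingOfSet D`), `C i := E^{ {n | n < a_(i+1)} }` (so that `q_(a_0) ∈ C 0`), `p := q_(a_0)`.  `C` is monotone and
exhausts `EJ D J` (`J` finite, every box has finite support: bound by some `a_(i+1)`, as `a_i ≥ i`).
Apply `acyc_of_null_incl` (A020) with the following null-homotopy of the inclusion of `C i` to `q_e`, `e := a_(i+1)`, with values in `C (i+1)`:
for `s = sPar a t` (B4Def) put `cl x := max 0 (min 1 x)`, `lam = cl (3 - 3 s)`,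
  `(H (a, x)) j t = (v', κ')`,  `v' i = lam * v i`, `κ' i = lam * κ i` for `i ≠ e`, `κ' e = cl (3 s)`, `v' e = cl (3 s - 1) * 3 * k j`.
* `IsBx`: continuous (`continuous_pi`, compositions), supported in `S ∪ {e}`, nonnegative.
* disjoint: if `s ≤ 2/3` then `lam = 1`, so the region is contained in the original region (which has `κ e = 0`, so its
  condition at `e` is empty; conditions at `i ≠ e` are unchanged).  If `s ≥ 2/3` then `κ' e = 1`, `v' e = 3 k j`:
  disjoint by the coordinate `e`.
* natural by `sPar_comp`;  at `cst 0`: `s = 0` (`sPar_zero`), `lam = 1`, `κ' e = 0 = κ e`, `v' e = 0 = v e` (`e` is fresh):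
  `H = x`;  at `cst 1`: `s = 1` (`sPar_one`), `lam = 0`: `H = (EJ D J).deg q_e m`.
-/

namespace MM

private noncomputable def B401_cl (x : ℝ) : ℝ := max 0 (min 1 x)

private theorem B401_cl_cont : Continuous B401_cl :=
  continuous_const.max (continuous_const.min continuous_id)

private theorem B401_cl_nonneg (x : ℝ) : 0 ≤ B401_cl x := le_max_left _ _

private theorem B401_cl_one {x : ℝ} (h : 1 ≤ x) : B401_cl x = 1 := by
  rw [B401_cl, min_eq_left h, max_eq_right zero_le_one]

private theorem B401_cl_zero {x : ℝ} (h : x ≤ 0) : B401_cl x = 0 := by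
  rw [B401_cl, min_eq_right (h.trans zero_le_one), max_eq_left h]

/-- the tuples of boxes supported in the coordinates in `S` -/
private noncomputable def B401_E (D : Set ℕ) (J : Type) (S : Set ℕ) : Sub (EJ D J) :=
  ⟨fun _ => {x | ∀ j t, ∀ i ∉ S, (x.1 j).1.1 t i = 0 ∧ (x.1 j).1.2 t i = 0},
    fun f _ h j t i hi => h j (tmap f t) i hi⟩

/-- the centre during the homotopy -/
private noncomputable def B401_v (e : ℕ) (c s : ℝ) (v : ℕ → ℝ) : ℕ → ℝ :=
  fun i => if i = e then B401_cl (3 * s - 1) * c else B401_cl (3 - 3 * s) * v i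

/-- the inverse size during the homotopy -/
private noncomputable def B401_k (e : ℕ) (s : ℝ) (κ : ℕ → ℝ) : ℕ → ℝ :=
  fun i => if i = e then B401_cl (3 * s) else B401_cl (3 - 3 * s) * κ i

private theorem B401_isBx {D : Set ℕ} {e : ℕ} (he : e ∈ D) (c : ℝ) {m : ℕ} (a : Mo m 1)
    {v κ : Dtop m → ℕ → ℝ} (h : IsBx D v κ) :
    IsBx D (fun t => B401_v e c (sPar a t) (v t)) (fun t => B401_k e (sPar a t) (κ t)) where
  contv := by
    refine continuous_pi fun i => ?_
    have hs := sPar_continuous a
    by_cases hi : i = e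
    · simp only [B401_v, if_pos hi]
      exact (B401_cl_cont.comp ((continuous_const.mul hs).sub continuous_const)).mul
        continuous_const
    · simp only [B401_v, if_neg hi]
      exact (B401_cl_cont.comp (continuous_const.sub (continuous_const.mul hs))).mul
        ((continuous_apply i).comp h.contv)
  contk := by
    refine continuous_pi fun i => ?_
    have hs := sPar_continuous a
    by_cases hi : i = e
    · simp only [B401_k, if_pos hi]
      exact B401_cl_cont.comp (continuous_const.mul hs)
    · simp only [B401_k, if_neg hi]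
      exact (B401_cl_cont.comp (continuous_const.sub (continuous_const.mul hs))).mul
        ((continuous_apply i).comp h.contk)
  supp := by
    obtain ⟨S, hS, hv⟩ := h.supp
    refine ⟨insert e S, ?_, fun t i hi => ?_⟩
    · intro i hi
      rcases Finset.mem_insert.1 (Finset.mem_coe.1 hi) with rfl | hi
      · exact he
      · exact hS hi
    · have h1 : i ≠ e := fun h => hi (h ▸ Finset.mem_insert_self _ _)
      have h2 := hv t i fun h => hi (Finset.mem_insert_of_mem h)
      simp only [B401_v, B401_k, if_neg h1, h2.1, h2.2, mul_zero, and_self]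
  nonneg t i := by
    by_cases hi : i = e
    · simp only [B401_k, if_pos hi]
      exact B401_cl_nonneg _
    · simp only [B401_k, if_neg hi]
      exact mul_nonneg (B401_cl_nonneg _) (h.nonneg t i)

private theorem B401_far {a b : ℕ} (hab : a ≠ b) {x : ℝ} (h1 : |x - 3 * (a : ℝ)| < 1)
    (h2 : |x - 3 * (b : ℝ)| < 1) : False := by
  rw [abs_lt] at h1 h2
  rcases lt_or_gt_of_ne hab with h | h
  · have : (a : ℝ) + 1 ≤ b := by exact_mod_cast h
    linarith [h1.1, h1.2, h2.1, h2.2]
  · have : (b : ℝ) + 1 ≤ a := by exact_mod_cast h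
    linarith [h1.1, h1.2, h2.1, h2.2]

/-- the homotopy on tuples of boxes without coordinate `e` -/
private noncomputable def B401_H {D : Set ℕ} {J : Type} {k : J → ℕ} (hk : Function.Injective k)
    {e : ℕ} (he : e ∈ D) {S : Set ℕ} (heS : e ∉ S) :
    Hom ((Del 1).prod (B401_E D J S).ss) (EJ D J) where
  app m z := ⟨fun j =>
      ⟨(fun t => B401_v e (3 * (k j : ℝ)) (sPar z.1 t) ((z.2.1.1 j).1.1 t),
        fun t => B401_k e (sPar z.1 t) ((z.2.1.1 j).1.2 t)),
        B401_isBx he _ z.1 (z.2.1.1 j).2⟩, by
      intro i j hij t x hx hx'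
      by_cases hs : sPar z.1 t ≤ 2 / 3
      · have hl : B401_cl (3 - 3 * sPar z.1 t) = 1 := B401_cl_one (by linarith)
        have key : ∀ l : J, (∀ n, B401_k e (sPar z.1 t) ((z.2.1.1 l).1.2 t) n *
            |x n - B401_v e (3 * (k l : ℝ)) (sPar z.1 t) ((z.2.1.1 l).1.1 t) n| < 1) →
            x ∈ BX.reg (z.2.1.1 l) t := by
          intro l hl' n
          by_cases hn : n = e
          · subst hn
            rw [(z.2.2 l t n heS).2, zero_mul]
            exact zero_lt_one
          · have := hl' n
            simp only [B401_k, B401_v, if_neg hn, hl, one_mul] at this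
            exact this
        exact z.2.1.2 i j hij t x (key i hx) (key j hx')
      · have h1 : B401_cl (3 * sPar z.1 t) = 1 := B401_cl_one (by linarith)
        have h2 : B401_cl (3 * sPar z.1 t - 1) = 1 := B401_cl_one (by linarith)
        have hx1 := hx e
        have hx2 := hx' e
        simp only [B401_k, B401_v, if_pos, h1, h2, one_mul] at hx1 hx2
        exact B401_far (fun h => hij (hk h)) hx1 hx2⟩
  nat {m n} f z := by
    apply Subtype.ext
    funext j
    apply Subtype.ext
    apply Prod.ext
    · funext t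
      show B401_v e _ (sPar (z.1.comp f) t) _ = B401_v e _ (sPar z.1 (tmap f t)) _
      rw [sPar_comp]
    · funext t
      show B401_k e (sPar (z.1.comp f) t) _ = B401_k e (sPar z.1 (tmap f t)) _
      rw [sPar_comp]

/-- the constant tuple at the coordinate `e` -/
private noncomputable def B401_q {D : Set ℕ} {J : Type} {k : J → ℕ} (hk : Function.Injective k)
    {e : ℕ} (he : e ∈ D) : (EJ D J).S 0 :=
  ⟨fun j => ⟨(fun _ => fun i => if i = e then 3 * (k j : ℝ) else 0,
      fun _ => fun i => if i = e then 1 else 0),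
    { contv := continuous_const
      contk := continuous_const
      supp := ⟨{e}, by simpa using he, fun t i hi => by
        have : i ≠ e := fun h => hi (Finset.mem_singleton.2 h)
        simp [this]⟩
      nonneg := fun t i => by
        show (0 : ℝ) ≤ if i = e then 1 else 0
        split_ifs <;> norm_num }⟩, by
    intro i j hij t x hx hx'
    have hx1 := hx e
    have hx2 := hx' e
    simp only [if_pos, one_mul] at hx1 hx2
    exact B401_far (fun h => hij (hk h)) hx1 hx2⟩

theorem ej_acyc (D : Set ℕ) (hD : D.Infinite) (J : Type) [Finite J] :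
    ∃ e : (EJ D J).S 0, Acyc (Sub.pt e) (⊤ : Sub (EJ D J)) := by
  obtain ⟨k, hk⟩ : ∃ k : J → ℕ, Function.Injective k := by
    obtain ⟨n, ⟨g⟩⟩ := Finite.exists_equiv_fin J
    exact ⟨fun j => (g j : ℕ), fun i j h => g.injective (Fin.ext h)⟩
  have ha : StrictMono (Nat.nth (· ∈ D)) := Nat.nth_strictMono hD
  have haD : ∀ i, Nat.nth (· ∈ D) i ∈ D := fun i => Nat.nth_mem_of_infinite hD i
  set a : ℕ → ℕ := Nat.nth (· ∈ D) with ha_def
  let C : ℕ → Sub (EJ D J) := fun i => B401_E D J {n | n < a (i + 1)}
  refine ⟨B401_q hk (haD 0), acyc_of_null_incl _ C ?_ ?_ ?_ ?_⟩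
  · -- monotone
    intro i m x hx j t n hn
    refine hx j t n fun h => hn ?_
    exact lt_trans (show n < a (i + 1) from h) (ha (Nat.lt_succ_self _))
  · -- the base point
    intro i m x hx j t n hn
    have hx' : x = (EJ D J).deg (B401_q hk (haD 0)) m := hx
    subst hx'
    have hne : n ≠ a 0 := by
      rintro rfl
      exact hn (ha (Nat.succ_pos i))
    show (if n = a 0 then 3 * (k j : ℝ) else 0) = 0 ∧ (if n = a 0 then (1 : ℝ) else 0) = 0
    rw [if_neg hne, if_neg hne]
    exact ⟨rfl, rfl⟩
  · -- exhausting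
    intro m x
    have h1 : ∀ j, ∃ N : ℕ, ∀ t, ∀ n, N ≤ n → (x.1 j).1.1 t n = 0 ∧ (x.1 j).1.2 t n = 0 := by
      intro j
      obtain ⟨S, -, hS⟩ := (x.1 j).2.supp
      refine ⟨S.sup id + 1, fun t n hn => hS t n fun h => ?_⟩
      have : n ≤ S.sup id := Finset.le_sup (f := id) h
      omega
    choose N hN using h1
    obtain ⟨M, hM⟩ : ∃ M, ∀ j, N j ≤ M := by
      obtain ⟨M, hM⟩ := (Set.finite_range N).bddAbove
      exact ⟨M, fun j => hM ⟨j, rfl⟩⟩
    refine ⟨M, fun j t n hn => hN j t n ?_⟩
    have h2 : M + 1 ≤ a (M + 1) := ha.le_apply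
    have h3 : a (M + 1) ≤ n := not_lt.1 hn
    have h4 := hM j
    omega
  · -- the homotopy
    intro i
    have heS : a (i + 1) ∉ {n | n < a (i + 1)} := fun h => lt_irrefl _ (show a (i+1) < a (i+1) from h)
    have hlt : a (i + 1) < a (i + 1 + 1) := ha (Nat.lt_succ_self _)
    refine ⟨B401_H hk (haD (i + 1)) heS, B401_q hk (haD (i + 1)), ?_, ?_, ?_, ?_⟩
    · intro j t n hn
      have hne : n ≠ a (i + 1) := by
        rintro rfl
        exact hn hlt
      show (if n = a (i + 1) then 3 * (k j : ℝ) else 0) = 0 ∧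
        (if n = a (i + 1) then (1 : ℝ) else 0) = 0
      rw [if_neg hne, if_neg hne]
      exact ⟨rfl, rfl⟩
    · intro m b x j t n hn
      have hne : n ≠ a (i + 1) := by
        rintro rfl
        exact hn hlt
      have hn' : n ∉ {n | n < a (i + 1)} := fun h => hn (lt_trans (show n < a (i + 1) from h) hlt)
      have h0 := x.2 j t n hn'
      show B401_v (a (i + 1)) _ (sPar b t) ((x.1.1 j).1.1 t) n = 0 ∧
        B401_k (a (i + 1)) (sPar b t) ((x.1.1 j).1.2 t) n = 0
      simp only [B401_v, B401_k, if_neg hne, h0.1, h0.2, mul_zero, and_self]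
    · intro m x
      apply Subtype.ext
      funext j
      apply Subtype.ext
      have h3 : B401_cl (3 - 3 * (0 : ℝ)) = 1 := B401_cl_one (by norm_num)
      apply Prod.ext
      · funext t n
        show B401_v (a (i + 1)) _ (sPar (cst 0 : Mo m 1) t) ((x.1.1 j).1.1 t) n = (x.1.1 j).1.1 t n
        rw [sPar_zero]
        by_cases hn : n = a (i + 1)
        · subst hn
          simp only [B401_v, if_pos]
          rw [(x.2 j t _ heS).1, B401_cl_zero (by norm_num), zero_mul]
        · simp only [B401_v, if_neg hn, h3, one_mul]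
      · funext t n
        show B401_k (a (i + 1)) (sPar (cst 0 : Mo m 1) t) ((x.1.1 j).1.2 t) n = (x.1.1 j).1.2 t n
        rw [sPar_zero]
        by_cases hn : n = a (i + 1)
        · subst hn
          simp only [B401_k, if_pos]
          rw [(x.2 j t _ heS).2, B401_cl_zero (by norm_num)]
        · simp only [B401_k, if_neg hn, h3, one_mul]
    · intro m x
      apply Subtype.ext
      funext j
      apply Subtype.ext
      have h3 : B401_cl (3 - 3 * (1 : ℝ)) = 0 := B401_cl_zero (by norm_num)
      have h4 : B401_cl (3 * (1 : ℝ) - 1) = 1 := B401_cl_one (by norm_num)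
      have h5 : B401_cl (3 * (1 : ℝ)) = 1 := B401_cl_one (by norm_num)
      apply Prod.ext
      · funext t n
        show B401_v (a (i + 1)) _ (sPar (cst 1 : Mo m 1) t) ((x.1.1 j).1.1 t) n =
          if n = a (i + 1) then 3 * (k j : ℝ) else 0
        rw [sPar_one]
        by_cases hn : n = a (i + 1)
        · simp only [B401_v, if_pos hn, h4, one_mul]
        · simp only [B401_v, if_neg hn, h3, zero_mul]
      · funext t n
        show B401_k (a (i + 1)) (sPar (cst 1 : Mo m 1) t) ((x.1.1 j).1.2 t) n =
          if n = a (i + 1) then 1 else 0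
        rw [sPar_one]
        by_cases hn : n = a (i + 1)
        · simp only [B401_k, if_pos hn, h5]
        · simp only [B401_k, if_neg hn, h3, zero_mul]

end MM
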