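import Pool.Agent.Lib_MP_33f7bb_d.B4Def
import Pool.Agent.Lib_MP_33f7bb_d.A002

/-!
# B4-02: elementary properties of `PhiF`

`mem_PhiF`, `mem_actF` (B4Def).
* `isTT_PhiF`: `ne` by `mem_PhiF`; `disj`: two different elements of `PhiF` come from different indices.
* `actF_PhiF`: `q ∈ actF f (PhiF b x α)` iff `q = (act f (x j), act f (act α w_j))` for some `j` with `act α w_j ≠` base and
  `q.2 ≠` base; if `act α w_j` is base then so is `act f (act α w_j)` (`SS.act_deg`), so the first condition is automatic.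
* `cntF_PhiF`: the map `j ↦ (x j, act α w_j)` is injective (disjoint boxes are different, `BX.disj_ne`), so
  `cntF (PhiF b x α) = ∑ j, if act α w_j ≠ base then single (act α w_j) 1 else 0
   = ∑ (w ∈ b.support), b w • (if .. then single (act α w) 1 else 0)` (`Finset.sum_sigma`, `Finset.card_univ`) and this is
  `labAct ℕ (pt w0) α b` (`b = ∑ single w (b w)`, `labAct_def`, `Finsupp.mapDomain_single`, `Finsupp.filter_single_of_pos/neg`).
-/

namespace MM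

open Classical

theorem isTT_PhiF {D : Set ℕ} {W : SS} (w0 : W.S 0) {m n : ℕ} (b : W.S n →₀ ℕ)
    (x : Jb b → (BX D).S m) (hx : ∀ i j, i ≠ j → BX.disj (x i) (x j)) (α : Mo m n) :
    IsTT D w0 (PhiF D w0 b x α) := by
  refine ⟨fun p hp => (mem_PhiF.1 hp).2, fun p hp q hq hpq => ?_⟩
  obtain ⟨⟨i, rfl⟩, -⟩ := mem_PhiF.1 hp
  obtain ⟨⟨j, rfl⟩, -⟩ := mem_PhiF.1 hq
  exact hx i j fun h => hpq (by rw [h])

theorem actF_PhiF {D : Set ℕ} {W : SS} (w0 : W.S 0) {l m n : ℕ} (b : W.S n →₀ ℕ)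
    (x : Jb b → (BX D).S m) (α : Mo m n) (f : Mo l m) :
    actF D w0 f (PhiF D w0 b x α) = PhiF D w0 b (fun j => (BX D).act f (x j)) (α.comp f) := by
  ext q
  rw [mem_actF, mem_PhiF]
  constructor
  · rintro ⟨⟨p, hp, rfl⟩, h⟩
    obtain ⟨⟨j, rfl⟩, -⟩ := mem_PhiF.1 hp
    exact ⟨⟨j, by rw [← W.act_comp]⟩, h⟩
  · rintro ⟨⟨j, rfl⟩, h⟩
    refine ⟨⟨(x j, W.act α j.1.1), mem_PhiF.2 ⟨⟨j, rfl⟩, fun h' => h ?_⟩, ?_⟩, h⟩
    · show W.act (α.comp f) j.1.1 = W.deg w0 l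
      rw [← W.act_comp, show W.act α j.1.1 = W.deg w0 m from h', SS.act_deg]
    · show ((BX D).act f (x j), W.act f (W.act α j.1.1)) = _
      rw [W.act_comp]

theorem PhiF_perm {D : Set ℕ} {W : SS} (w0 : W.S 0) {m n : ℕ} (b : W.S n →₀ ℕ)
    (x : Jb b → (BX D).S m) (α : Mo m n) (g : Gb b) :
    PhiF D w0 b (fun j => x ⟨j.1, (g j.1)⁻¹ j.2⟩) α = PhiF D w0 b x α := by
  ext q
  rw [mem_PhiF, mem_PhiF]
  constructor
  · rintro ⟨⟨j, rfl⟩, h⟩
    exact ⟨⟨⟨j.1, (g j.1)⁻¹ j.2⟩, rfl⟩, h⟩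
  · rintro ⟨⟨j, rfl⟩, h⟩
    refine ⟨⟨⟨j.1, g j.1 j.2⟩, ?_⟩, h⟩
    show (x ⟨j.1, (g j.1)⁻¹ (g j.1 j.2)⟩, W.act α j.1.1) = (x j, W.act α j.1.1)
    rw [show (g j.1)⁻¹ (g j.1 j.2) = j.2 from (g j.1).symm_apply_apply j.2]

theorem cntF_PhiF {D : Set ℕ} {W : SS} (w0 : W.S 0) {m n : ℕ} (b : W.S n →₀ ℕ)
    (x : Jb b → (BX D).S m) (hx : ∀ i j, i ≠ j → BX.disj (x i) (x j)) (α : Mo m n) :
    cntF (PhiF D w0 b x α) = labAct ℕ (Sub.pt w0) α b := by
  have hinj : Function.Injective (fun j : Jb b => (x j, W.act α j.1.1)) := by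
    intro i j h
    by_contra hij
    exact BX.disj_ne (hx i j hij) (congrArg Prod.fst h)
  have h1 : cntF (PhiF D w0 b x α) =
      ∑ j : Jb b, if W.act α j.1.1 ≠ W.deg w0 m then Finsupp.single (W.act α j.1.1) 1 else 0 := by
    rw [cntF, PhiF, Finset.sum_filter, Finset.sum_image (fun i _ j _ h => hinj h)]
  have h2 : labAct ℕ (Sub.pt w0) α b =
      ∑ w ∈ b.support, labAct ℕ (Sub.pt w0) α (Finsupp.single w (b w)) := by
    conv_lhs => rw [← Finsupp.sum_single b]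
    rw [Finsupp.sum, map_sum]
  rw [h1, h2, Fintype.sum_sigma, ← Finset.sum_coe_sort b.support]
  apply Finset.sum_congr rfl
  intro w _
  show (∑ _y : Fin (b w), if W.act α w.1 ≠ W.deg w0 m then
    (Finsupp.single (W.act α w.1) 1 : W.S m →₀ ℕ) else 0) = _
  rw [Finset.sum_const, Finset.card_univ, Fintype.card_fin, labAct_def, Finsupp.mapDomain_single]
  by_cases h : W.act α w.1 = W.deg w0 m
  · rw [if_neg (not_not.2 h), smul_zero, Finsupp.filter_single_of_neg]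
    exact not_not.2 h
  · rw [if_pos h, Finsupp.filter_single_of_pos]
    · rw [Finsupp.smul_single, smul_eq_mul, mul_one]
    · exact h

end MM
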