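import Pool.Agent.Lib_MP_33f7bb_d.B4Def
import Pool.Agent.Lib_MP_33f7bb_d.A002

/-!
# B4-03: `PhiF` over surjective `α`: configurations over `α^* b` are tuples of boxes up to permutation

`α : Mo m n` surjective, so `w ↦ act α w` is injective (a section `t` of `α`, `exists_section` (A001), gives `act t (act α w) = w`), and
`act α w = W.deg w0 m` implies `w = W.deg w0 n` (apply `act t`, `SS.act_deg`).  `b w ≠ 0` implies `w ≠ W.deg w0 n` (hypothesis
`hb`).  So in `PhiF b x α` no element is dropped, and the elements with label `act α w` are `x ⟨w, i⟩`, `i : Fin (b w)`.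
* `PhiF_inj`: if `PhiF b x α = PhiF b x' α`, then for every `w ∈ b.support` the sets `{x ⟨w,i⟩}` and `{x' ⟨w,i⟩}` are equal; `x`, `x'` are
  injective (`BX.disj_ne`), so there is a permutation `g w` of `Fin (b w)` with `x' ⟨w, i⟩ = x ⟨w, (g w)⁻¹ i⟩`.
* `PhiF_surj`: let `F` be a configuration with `cntF F = labAct ℕ (pt w0) α b`.  For every `w ∈ b.support` the number of
  elements of `F` with label `act α w` is `(labAct .. α b) (act α w) = b w` (`labAct_of_notMem`,
  `Finsupp.mapDomain_apply` for the injective map `act α`), and every label of `F` is of this form (`cntF F (p.2) ≥ 1`, so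
  `p.2` is in the support of `mapDomain (act α) b`).  Choose bijections `Fin (b w) ≃ {p ∈ F | p.2 = act α w}`
  (`Finset.equivFinOfCardEq`).  This gives `x`; injective on indices, so pairwise disjoint by `hF.disj`.
-/

namespace MM

open Classical

private theorem B403_act_inj {W : SS} {m n : ℕ} (α : Mo m n) (hα : Function.Surjective α) :
    Function.Injective (W.act α) := by
  obtain ⟨t, ht⟩ := exists_section α hα
  intro w w' h
  have h1 := congrArg (W.act t) h
  rwa [W.act_comp, W.act_comp, ht, W.act_id, W.act_id] at h1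

private theorem B403_act_deg {W : SS} (w0 : W.S 0) {m n : ℕ} (α : Mo m n)
    (hα : Function.Surjective α) {w : W.S n} (h : W.act α w = W.deg w0 m) :
    w = W.deg w0 n := by
  apply B403_act_inj α hα
  rw [h, SS.act_deg]

private theorem B403_cnt {D : Set ℕ} {W : SS} {m : ℕ} (F : Finset ((BX D).S m × W.S m))
    (y : W.S m) : cntF F y = (F.filter (fun p => p.2 = y)).card := by
  rw [cntF, Finsupp.finsetSum_apply, Finset.card_filter]
  apply Finset.sum_congr rfl
  intro p _
  rw [Finsupp.single_apply]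

theorem PhiF_inj {D : Set ℕ} {W : SS} (w0 : W.S 0) {m n : ℕ} (b : W.S n →₀ ℕ)
    (hb : ∀ w, b w ≠ 0 → w ≠ W.deg w0 n)
    (x x' : Jb b → (BX D).S m) (hx : ∀ i j, i ≠ j → BX.disj (x i) (x j))
    (hx' : ∀ i j, i ≠ j → BX.disj (x' i) (x' j)) (α : Mo m n) (hα : Function.Surjective α)
    (h : PhiF D w0 b x α = PhiF D w0 b x' α) :
    ∃ g : Gb b, x' = fun j => x ⟨j.1, (g j.1)⁻¹ j.2⟩ := by
  have hinj' : Function.Injective x' := by
    intro i j hij
    by_contra hne
    exact BX.disj_ne (hx' i j hne) hij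
  have _ := hx
  have key : ∀ (w : b.support) (i : Fin (b w)), ∃ k : Fin (b w), x ⟨w, k⟩ = x' ⟨w, i⟩ := by
    intro w i
    have hw : b w ≠ 0 := Finsupp.mem_support_iff.1 w.2
    have h1 : (x' ⟨w, i⟩, W.act α w.1) ∈ PhiF D w0 b x' α :=
      mem_PhiF.2 ⟨⟨⟨w, i⟩, rfl⟩, fun h2 => hb w.1 hw (B403_act_deg w0 α hα h2)⟩
    rw [← h] at h1
    obtain ⟨⟨⟨w', k⟩, hk⟩, -⟩ := mem_PhiF.1 h1
    have h3 : W.act α w'.1 = W.act α w.1 := congrArg Prod.snd hk
    have h4 : x ⟨w', k⟩ = x' ⟨w, i⟩ := congrArg Prod.fst hk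
    have h5 : w' = w := Subtype.ext (B403_act_inj α hα h3)
    subst h5
    exact ⟨k, h4⟩
  choose k hk using key
  have hki : ∀ w, Function.Injective (k w) := by
    intro w i j hij
    have h1 : x' ⟨w, i⟩ = x' ⟨w, j⟩ := by rw [← hk, ← hk, hij]
    have h2 := hinj' h1
    exact eq_of_heq (Sigma.mk.inj h2).2
  refine ⟨fun w => (Equiv.ofBijective (k w) (Finite.injective_iff_bijective.1 (hki w)))⁻¹, ?_⟩
  funext j
  obtain ⟨w, i⟩ := j
  show x' ⟨w, i⟩ = x ⟨w, _⟩
  rw [inv_inv]
  exact (hk w i).symm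

theorem PhiF_surj {D : Set ℕ} {W : SS} (w0 : W.S 0) {m n : ℕ} (b : W.S n →₀ ℕ)
    (hb : ∀ w, b w ≠ 0 → w ≠ W.deg w0 n) (α : Mo m n) (hα : Function.Surjective α)
    (F : Finset ((BX D).S m × W.S m)) (hF : IsTT D w0 F)
    (h : cntF F = labAct ℕ (Sub.pt w0) α b) :
    ∃ x : Jb b → (BX D).S m, (∀ i j, i ≠ j → BX.disj (x i) (x j)) ∧ PhiF D w0 b x α = F := by
  have hcard : ∀ w : b.support, (F.filter (fun p => p.2 = W.act α w.1)).card = b w := by
    intro w
    have hw : b w ≠ 0 := Finsupp.mem_support_iff.1 w.2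
    have h1 : W.act α w.1 ∉ (Sub.pt w0).car m := fun h2 =>
      hb w.1 hw (B403_act_deg w0 α hα h2)
    rw [← B403_cnt, h, labAct_of_notMem _ _ _ h1,
      Finsupp.mapDomain_apply (B403_act_inj α hα)]
  have hlab : ∀ p ∈ F, ∃ w : b.support, W.act α w.1 = p.2 := by
    intro p hp
    have h1 : cntF F p.2 ≠ 0 := by
      rw [B403_cnt, Finset.card_ne_zero]
      exact ⟨p, Finset.mem_filter.2 ⟨hp, rfl⟩⟩
    have h2 : p.2 ∉ (Sub.pt w0).car m := fun h3 => hF.ne p hp h3
    rw [h, labAct_of_notMem _ _ _ h2] at h1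
    have h' := Finsupp.mapDomain_support (Finsupp.mem_support_iff.2 h1)
    obtain ⟨w, hw, hw'⟩ := Finset.mem_image.1 h'
    exact ⟨⟨w, hw⟩, hw'⟩
  let e : ∀ w : b.support, Fin (b w) ≃ (F.filter (fun p => p.2 = W.act α w.1) : Finset _) :=
    fun w => (Finset.equivFinOfCardEq (hcard w)).symm
  have hm : ∀ (w : b.support) (i : Fin (b w)), (e w i).1 ∈ F ∧ (e w i).1.2 = W.act α w.1 :=
    fun w i => Finset.mem_filter.1 (e w i).2
  refine ⟨fun j => (e j.1 j.2).1.1, ?_, ?_⟩
  · rintro ⟨w, i⟩ ⟨w', i'⟩ hne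
    apply hF.disj _ (hm w i).1 _ (hm w' i').1
    intro heq
    apply hne
    have h1 : W.act α w.1 = W.act α w'.1 := by
      rw [← (hm w i).2, ← (hm w' i').2]
      exact congrArg Prod.snd heq
    have h2 : w = w' := Subtype.ext (B403_act_inj α hα h1)
    subst h2
    have h3 : e w i = e w i' := Subtype.ext heq
    rw [(e w).injective h3]
  · ext q
    rw [mem_PhiF]
    constructor
    · rintro ⟨⟨⟨w, i⟩, hq⟩, -⟩
      have h1 : (e w i).1 = q := by
        rw [← hq]
        exact Prod.ext rfl (hm w i).2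
      rw [← h1]
      exact (hm w i).1
    · intro hq
      obtain ⟨w, hw⟩ := hlab q hq
      refine ⟨⟨⟨w, (e w).symm ⟨q, Finset.mem_filter.2 ⟨hq, hw.symm⟩⟩⟩, ?_⟩, hF.ne q hq⟩
      apply Prod.ext
      · show (e w ((e w).symm ⟨q, _⟩)).1.1 = q.1
        rw [Equiv.apply_symm_apply]
      · exact hw

end MM
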