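import Pool.Agent.Lib_MP_33f7bb_d.B2B
import Pool.Agent.Lib_MP_33f7bb_d.B401
import Pool.Agent.Lib_MP_33f7bb_d.B402
import Pool.Agent.Lib_MP_33f7bb_d.B403

/-!
# B4-04 (BX2): `TTb D w0 → lab ℕ (pt w0) ⊤` is stratified

Let `b : (lab ℕ (pt w0) ⊤).S n`.  The group `Gb b.1` (finite) acts on `EJ D (Jb b.1)` by `(g • x) j = x ⟨j.1, (g j.1)⁻¹ j.2⟩`
(`GAct`, B2A); the action is free (`g • x = x` gives `x ⟨w, (g w)⁻¹ i⟩ = x ⟨w, i⟩`, disjoint boxes are different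
(`BX.disj_ne`), so `(g w)⁻¹ i = i`).  By `ej_acyc` there is a vertex `e` with `(EJ, e)` acyclic, so
`F := (action).quo ⊤` is `YAc` (`yac_quo_finite`).  `Φ ([x], α) = PhiF b x α` (well defined by `PhiF_perm`, a
configuration by `isTT_PhiF`, natural by `actF_PhiF`), lies over `α^* b` by `cntF_PhiF`; for surjective `α` the map
`[x] ↦ PhiF b x α` is a bijection onto the configurations over `α^* b` by `PhiF_inj`, `PhiF_surj` (`hb` from
the membership `b ∈ labM`).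
-/

namespace MM

open Classical

variable {Y : SS} [∀ n, TopologicalSpace (Y.S n)]

/-- the action of the permutations of the boxes with the same label -/
private noncomputable def B404_gact (D : Set ℕ) {W : SS} {n : ℕ} (b : W.S n →₀ ℕ) :
    GAct (Gb b) (EJ D (Jb b)) where
  sm g m x := ⟨fun j => x.1 ⟨j.1, (g j.1)⁻¹ j.2⟩, by
    rintro ⟨w, i⟩ ⟨w', i'⟩ hij
    refine x.2 _ _ fun h => hij ?_
    obtain ⟨h1, h2⟩ := Sigma.mk.inj_iff.1 h
    subst h1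
    have h3 : i = i' := (g w)⁻¹.injective (eq_of_heq h2)
    subst h3
    rfl⟩
  one m x := Subtype.ext (funext fun j => rfl)
  mul g h m x := Subtype.ext (funext fun j => by
    show x.1 ⟨j.1, ((g * h) j.1)⁻¹ j.2⟩ = x.1 ⟨j.1, (h j.1)⁻¹ ((g j.1)⁻¹ j.2)⟩
    rw [Pi.mul_apply, mul_inv_rev]
    rfl)
  nat g m n f x := rfl

private theorem B404_free (D : Set ℕ) {W : SS} {n : ℕ} (b : W.S n →₀ ℕ) :
    (B404_gact D b).Free := by
  intro g m x h
  funext w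
  have h1 : ∀ i, (g w)⁻¹ i = i := by
    intro i
    by_contra hne
    have h2 : x.1 ⟨w, (g w)⁻¹ i⟩ = x.1 ⟨w, i⟩ :=
      congrArg (fun y : (EJ D (Jb b)).S m => y.1 ⟨w, i⟩) h
    have h3 : (⟨w, (g w)⁻¹ i⟩ : Jb b) ≠ ⟨w, i⟩ := by
      intro h4
      exact hne (eq_of_heq (Sigma.mk.inj_iff.1 h4).2)
    exact BX.disj_ne (x.2 _ _ h3) h2
  have h2 : (g w)⁻¹ = 1 := Equiv.ext h1
  have h3 : g w = 1 := inv_eq_one.1 h2
  exact h3

/-- the map from the quotient times the simplex -/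
private noncomputable def B404_Phi (D : Set ℕ) {W : SS} (w0 : W.S 0) {n : ℕ} (b : W.S n →₀ ℕ) :
    Hom (((B404_gact D b).quo ⊤).prod (Del n)) (TTb D w0) where
  app m p := Quotient.lift
    (fun x : (EJ D (Jb b)).S m =>
      (⟨PhiF D w0 b x.1 p.2, isTT_PhiF w0 b x.1 x.2 p.2⟩ : (TTb D w0).S m))
    (by
      rintro x y ⟨g, -, rfl⟩
      exact Subtype.ext (PhiF_perm w0 b x.1 p.2 g).symm) p.1
  nat := by
    rintro l m f ⟨⟨x⟩, α⟩
    exact Subtype.ext (actF_PhiF w0 b x.1 α f).symm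

private theorem B404_Phi_mk (D : Set ℕ) {W : SS} (w0 : W.S 0) {n : ℕ} (b : W.S n →₀ ℕ) {m : ℕ}
    (x : (EJ D (Jb b)).S m) (α : Mo m n) :
    ((B404_Phi D w0 b).app m (((B404_gact D b).proj ⊤).app m x, α)).1 = PhiF D w0 b x.1 α := rfl

theorem strat_cnt (hY : IsTarget Y) (D : Set ℕ) (hD : D.Infinite) {W : SS} (w0 : W.S 0) :
    Strat Y (TTb.cnt D w0) := by
  intro n b _
  obtain ⟨e, he⟩ := ej_acyc D hD (Jb b.1)
  refine ⟨(B404_gact D b.1).quo ⊤, ((B404_gact D b.1).proj ⊤).app 0 e, B404_Phi D w0 b.1,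
    yac_quo_finite hY (B404_gact D b.1) (B404_free D b.1) e he, ?_, ?_⟩
  · intro m y α
    obtain ⟨x, rfl⟩ := (B404_gact D b.1).proj_surj ⊤ y
    apply Subtype.ext
    show cntF ((B404_Phi D w0 b.1).app m (((B404_gact D b.1).proj ⊤).app m x, α)).1 =
      labAct ℕ (Sub.pt w0) α b.1
    rw [B404_Phi_mk]
    exact cntF_PhiF w0 b.1 x.1 x.2 α
  · intro m α hα F hF
    have hb : ∀ w, b.1 w ≠ 0 → w ≠ W.deg w0 n := fun w hw => (b.2 w hw).2
    have hF1 : cntF F.1 = labAct ℕ (Sub.pt w0) α b.1 := congrArg Subtype.val hF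
    obtain ⟨x, hx, hx1⟩ := PhiF_surj w0 b.1 hb α hα F.1 F.2 hF1
    refine ⟨((B404_gact D b.1).proj ⊤).app m ⟨x, hx⟩, ?_, ?_⟩
    · apply Subtype.ext
      rw [B404_Phi_mk]
      exact hx1
    · intro y hy
      obtain ⟨x', rfl⟩ := (B404_gact D b.1).proj_surj ⊤ y
      have h1 : PhiF D w0 b.1 x'.1 α = F.1 := by
        rw [← B404_Phi_mk]
        exact congrArg Subtype.val hy
      obtain ⟨g, hg⟩ := PhiF_inj w0 b.1 hb x'.1 x x'.2 hx α hα (h1.trans hx1.symm)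
      refine ((B404_gact D b.1).proj_eq_iff ⊤ _ _).2 ⟨g, trivial, ?_⟩
      exact Subtype.ext hg.symm

/-- the theorem of B4 -/
theorem TT_yac (hY : IsTarget Y) (D : Set ℕ) (hD : D.Infinite) {W : SS} (w0 : W.S 0)
    (h : YAc Y (lab ℕ (Sub.pt w0) ⊤) 0) : YAc Y (TTb D w0) (TTb.empty D w0 0) := by
  refine (Strat.yac_iff hY (strat_cnt hY D hD w0) (TTb.empty D w0 0)).2 ?_
  rwa [show (TTb.cnt D w0).app 0 (TTb.empty D w0 0) = 0 from Subtype.ext (by
    show cntF (∅ : Finset ((BX D).S 0 × W.S 0)) = 0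
    rw [cntF, Finset.sum_empty])]

end MM
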