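import Pool.Agent.Lib_MP_33f7bb_d.B3Def

/-!
# B4Def: boxes, configurations with labels (definitions, complete)
-/

namespace MM

open Classical

/-! ## the parameter of a simplex of `Δ^1` -/

/-- the parameter `∈ [0,1]` of the point `t` under the simplex `a` of `Δ^1` -/
noncomputable def sPar {m : ℕ} (a : Mo m 1) (t : Dtop m) : ℝ := (tmap a t : Fin 2 → ℝ) 1

theorem sPar_continuous {m : ℕ} (a : Mo m 1) : Continuous (sPar a) :=
  (continuous_apply (1 : Fin 2)).comp (continuous_subtype_val.comp (tmap a).continuous)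

theorem sPar_nonneg {m : ℕ} (a : Mo m 1) (t : Dtop m) : 0 ≤ sPar a t := (tmap a t).2.1 1

theorem sPar_le_one {m : ℕ} (a : Mo m 1) (t : Dtop m) : sPar a t ≤ 1 := by
  have h := (tmap a t).2.2
  have h0 := (tmap a t).2.1 0
  rw [Fin.sum_univ_two] at h
  show (tmap a t : Fin 2 → ℝ) 1 ≤ 1
  have h' : (tmap a t : Fin 2 → ℝ) 0 + (tmap a t : Fin 2 → ℝ) 1 = 1 := h
  have h0' : 0 ≤ (tmap a t : Fin 2 → ℝ) 0 := h0
  linarith

theorem sPar_comp {l m : ℕ} (a : Mo m 1) (f : Mo l m) (t : Dtop l) :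
    sPar (a.comp f) t = sPar a (tmap f t) := by
  show (tmap (a.comp f) t : Fin 2 → ℝ) 1 = (tmap a (tmap f t) : Fin 2 → ℝ) 1
  rw [tmap_comp]

theorem tmap_apply_b {m n : ℕ} (f : Mo m n) (t : Dtop m) (i : Fin (n + 1)) :
    (tmap f t : Fin (n + 1) → ℝ) i = ∑ j, if f j = i then (t : Fin (m + 1) → ℝ) j else 0 := by
  show FunOnFinite.linearMap ℝ ℝ f (t : Fin (m + 1) → ℝ) i = _
  rw [FunOnFinite.linearMap_apply_apply, Finset.sum_filter]

theorem sPar_zero {m : ℕ} (t : Dtop m) : sPar (cst 0 : Mo m 1) t = 0 := by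
  show (tmap (cst 0 : Mo m 1) t : Fin 2 → ℝ) 1 = 0
  rw [tmap_apply_b]
  apply Finset.sum_eq_zero
  intro j _
  rw [if_neg]
  show ¬ ((0 : Fin 2) = 1)
  decide

theorem sPar_one {m : ℕ} (t : Dtop m) : sPar (cst 1 : Mo m 1) t = 1 := by
  show (tmap (cst 1 : Mo m 1) t : Fin 2 → ℝ) 1 = 1
  rw [tmap_apply_b]
  have := t.2.2
  rw [← this]
  apply Finset.sum_congr rfl
  intro j _
  exact if_pos rfl

/-! ## boxes -/

/-- boxes with coordinates in `D`, parametrised by `Dtop m`: centre `v`, inverse size `κ` -/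
structure IsBx (D : Set ℕ) {m : ℕ} (v κ : Dtop m → ℕ → ℝ) : Prop where
  contv : Continuous v
  contk : Continuous κ
  supp : ∃ S : Finset ℕ, (S : Set ℕ) ⊆ D ∧ ∀ t, ∀ i ∉ S, v t i = 0 ∧ κ t i = 0
  nonneg : ∀ t i, 0 ≤ κ t i

/-- the simplicial set of boxes -/
noncomputable abbrev BX (D : Set ℕ) : SS where
  S m := {p : (Dtop m → ℕ → ℝ) × (Dtop m → ℕ → ℝ) // IsBx D p.1 p.2}
  act {m n} f p := ⟨(fun t => p.1.1 (tmap f t), fun t => p.1.2 (tmap f t)),
    { contv := p.2.contv.comp (tmap f).continuous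
      contk := p.2.contk.comp (tmap f).continuous
      supp := by
        obtain ⟨S, hS, h⟩ := p.2.supp
        exact ⟨S, hS, fun t i hi => h _ i hi⟩
      nonneg := fun t i => p.2.nonneg _ i }⟩
  act_id p := by
    apply Subtype.ext
    simp [tmap_id]
  act_comp f g p := by
    apply Subtype.ext
    simp [tmap_comp]

namespace BX

variable {D : Set ℕ}

/-- the region of the box at `t` -/
def reg {m : ℕ} (β : (BX D).S m) (t : Dtop m) : Set (ℕ → ℝ) :=
  {x | ∀ i, β.1.2 t i * |x i - β.1.1 t i| < 1}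

/-- the centre is in the region -/
theorem centre_mem {m : ℕ} (β : (BX D).S m) (t : Dtop m) : β.1.1 t ∈ reg β t := fun i => by simp

/-- disjoint boxes -/
def disj {m : ℕ} (β γ : (BX D).S m) : Prop := ∀ t, ∀ x ∈ reg β t, x ∉ reg γ t

theorem disj_symm {m : ℕ} {β γ : (BX D).S m} (h : disj β γ) : disj γ β :=
  fun t x hx hx' => h t x hx' hx

theorem disj_act {m n : ℕ} (f : Mo m n) {β γ : (BX D).S n} (h : disj β γ) :
    disj ((BX D).act f β) ((BX D).act f γ) := fun t x hx => h (tmap f t) x hx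

instance (m : ℕ) : Nonempty (Dtop m) :=
  ⟨⟨Pi.single 0 1, single_mem_stdSimplex ℝ 0⟩⟩

theorem disj_ne {m : ℕ} {β γ : (BX D).S m} (h : disj β γ) : β ≠ γ := by
  rintro rfl
  obtain ⟨t⟩ : Nonempty (Dtop m) := inferInstance
  exact h t _ (centre_mem β t) (centre_mem β t)

end BX

/-- tuples of pairwise disjoint boxes -/
noncomputable abbrev EJ (D : Set ℕ) (J : Type) : SS where
  S m := {x : J → (BX D).S m // ∀ i j, i ≠ j → BX.disj (x i) (x j)}
  act f x := ⟨fun j => (BX D).act f (x.1 j), fun i j h => BX.disj_act f (x.2 i j h)⟩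
  act_id x := Subtype.ext (funext fun j => (BX D).act_id (x.1 j))
  act_comp f g x := Subtype.ext (funext fun j => (BX D).act_comp f g (x.1 j))

/-! ## configurations of boxes with labels in the pointed simplicial set `(W, w₀)` -/

/-- finite sets of pairs (box, label `≠` base), boxes pairwise disjoint -/
structure IsTT (D : Set ℕ) {W : SS} (w0 : W.S 0) {m : ℕ} (F : Finset ((BX D).S m × W.S m)) :
    Prop where
  ne : ∀ p ∈ F, p.2 ≠ W.deg w0 m
  disj : ∀ p ∈ F, ∀ q ∈ F, p ≠ q → BX.disj p.1 q.1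

/-- structure maps: apply `f` to the boxes and labels, drop the base labels -/
noncomputable def actF (D : Set ℕ) {W : SS} (w0 : W.S 0) {m n : ℕ} (f : Mo m n)
    (F : Finset ((BX D).S n × W.S n)) : Finset ((BX D).S m × W.S m) :=
  (F.image (fun p => ((BX D).act f p.1, W.act f p.2))).filter (fun p => p.2 ≠ W.deg w0 m)

theorem SS.act_deg {W : SS} (w0 : W.S 0) {m n : ℕ} (f : Mo m n) :
    W.act f (W.deg w0 n) = W.deg w0 m := by
  show W.act f (W.act (cst 0) w0) = W.act (cst 0) w0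
  rw [W.act_comp]; rfl

theorem mem_actF {D : Set ℕ} {W : SS} {w0 : W.S 0} {m n : ℕ} {f : Mo m n}
    {F : Finset ((BX D).S n × W.S n)} {q : (BX D).S m × W.S m} :
    q ∈ actF D w0 f F ↔ (∃ p ∈ F, ((BX D).act f p.1, W.act f p.2) = q) ∧ q.2 ≠ W.deg w0 m := by
  rw [actF, Finset.mem_filter, Finset.mem_image]

theorem IsTT.act {D : Set ℕ} {W : SS} {w0 : W.S 0} {m n : ℕ} (f : Mo m n)
    {F : Finset ((BX D).S n × W.S n)} (hF : IsTT D w0 F) : IsTT D w0 (actF D w0 f F) where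
  ne p hp := (mem_actF.1 hp).2
  disj p hp q hq hpq := by
    obtain ⟨⟨p', hp', rfl⟩, -⟩ := mem_actF.1 hp
    obtain ⟨⟨q', hq', rfl⟩, -⟩ := mem_actF.1 hq
    exact BX.disj_act f (hF.disj p' hp' q' hq' fun h => hpq (by rw [h]))

/-- configurations with labels -/
noncomputable abbrev TTb (D : Set ℕ) {W : SS} (w0 : W.S 0) : SS where
  S m := {F : Finset ((BX D).S m × W.S m) // IsTT D w0 F}
  act f F := ⟨actF D w0 f F.1, F.2.act f⟩
  act_id {n} F := by
    apply Subtype.ext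
    ext q
    rw [mem_actF]
    constructor
    · rintro ⟨⟨p, hp, rfl⟩, -⟩
      rw [(BX D).act_id, W.act_id]
      exact hp
    · intro hq
      exact ⟨⟨q, hq, by rw [(BX D).act_id, W.act_id]⟩, F.2.ne q hq⟩
  act_comp {l m n} f g F := by
    apply Subtype.ext
    ext q
    rw [mem_actF, mem_actF]
    constructor
    · rintro ⟨⟨p, hp, rfl⟩, h⟩
      obtain ⟨⟨p', hp', rfl⟩, -⟩ := mem_actF.1 hp
      exact ⟨⟨p', hp', by rw [(BX D).act_comp, W.act_comp]⟩, h⟩
    · rintro ⟨⟨p, hp, rfl⟩, h⟩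
      refine ⟨⟨((BX D).act g p.1, W.act g p.2), mem_actF.2 ⟨⟨p, hp, rfl⟩, fun h' => h ?_⟩, ?_⟩, h⟩
      · show W.act (g.comp f) p.2 = _
        rw [← W.act_comp, show W.act g p.2 = W.deg w0 m from h', SS.act_deg]
      · rw [(BX D).act_comp, W.act_comp]

/-- the empty configuration -/
def TTb.empty (D : Set ℕ) {W : SS} (w0 : W.S 0) (m : ℕ) : (TTb D w0).S m :=
  ⟨∅, ⟨fun _ h => absurd h (Finset.notMem_empty _), fun _ h => absurd h (Finset.notMem_empty _)⟩⟩

/-- the images of the elements of a configuration are distinct -/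
theorem IsTT.injOn {D : Set ℕ} {W : SS} {w0 : W.S 0} {m n : ℕ} (f : Mo m n)
    {F : Finset ((BX D).S n × W.S n)} (hF : IsTT D w0 F) :
    Set.InjOn (fun p : (BX D).S n × W.S n => ((BX D).act f p.1, W.act f p.2)) (F : Set _) := by
  intro p hp q hq h
  by_contra hne
  have := BX.disj_ne (BX.disj_act f (hF.disj p hp q hq hne))
  exact this (congrArg Prod.fst h)

/-- the number of occurrences of every label -/
noncomputable def cntF {D : Set ℕ} {W : SS} {m : ℕ} (F : Finset ((BX D).S m × W.S m)) :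
    W.S m →₀ ℕ := ∑ p ∈ F, Finsupp.single p.2 1

theorem cntF_ne {D : Set ℕ} {W : SS} {m : ℕ} (F : Finset ((BX D).S m × W.S m)) {w : W.S m}
    (h : cntF F w ≠ 0) : ∃ p ∈ F, p.2 = w := by
  by_contra h'
  push Not at h'
  apply h
  rw [cntF, Finsupp.finsetSum_apply]
  exact Finset.sum_eq_zero fun p hp => Finsupp.single_eq_of_ne (h' p hp).symm

/-- forget the boxes: `TTb D w₀ → lab ℕ (pt w₀) ⊤` -/
noncomputable def TTb.cnt (D : Set ℕ) {W : SS} (w0 : W.S 0) :
    Hom (TTb D w0) (lab ℕ (Sub.pt w0) ⊤) where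
  app m F := ⟨cntF F.1, fun w hw => by
    obtain ⟨p, hp, rfl⟩ := cntF_ne F.1 hw
    exact ⟨trivial, F.2.ne p hp⟩⟩
  nat {m n} f F := by
    apply Subtype.ext
    show cntF (actF D w0 f F.1) = labAct ℕ (Sub.pt w0) f (cntF F.1)
    have h1 : cntF (actF D w0 f F.1) =
        ∑ p ∈ F.1, if W.act f p.2 ≠ W.deg w0 m then Finsupp.single (W.act f p.2) 1 else 0 := by
      rw [cntF, actF, Finset.sum_filter, Finset.sum_image (F.2.injOn f)]
    have h2 : labAct ℕ (Sub.pt w0) f (cntF F.1) =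
        ∑ p ∈ F.1, labAct ℕ (Sub.pt w0) f (Finsupp.single p.2 1) := by
      rw [cntF, map_sum]
    rw [h1, h2]
    apply Finset.sum_congr rfl
    intro p _
    rw [labAct_def, Finsupp.mapDomain_single]
    by_cases h : W.act f p.2 = W.deg w0 m
    · rw [if_neg (not_not.2 h), Finsupp.filter_single_of_neg]
      exact not_not.2 h
    · rw [if_pos h, Finsupp.filter_single_of_pos]
      exact h

/-! ## the fibres of `cnt` -/

/-- the index set of the boxes over the label function `b` -/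
abbrev Jb {W : SS} {n : ℕ} (b : W.S n →₀ ℕ) : Type := Σ w : b.support, Fin (b w)

/-- the configuration of boxes `x` with labels `α^* w`, base labels dropped -/
noncomputable def PhiF (D : Set ℕ) {W : SS} (w0 : W.S 0) {m n : ℕ} (b : W.S n →₀ ℕ)
    (x : Jb b → (BX D).S m) (α : Mo m n) : Finset ((BX D).S m × W.S m) :=
  (Finset.univ.image (fun j : Jb b => (x j, W.act α j.1.1))).filter
    (fun p => p.2 ≠ W.deg w0 m)

theorem mem_PhiF {D : Set ℕ} {W : SS} {w0 : W.S 0} {m n : ℕ} {b : W.S n →₀ ℕ}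
    {x : Jb b → (BX D).S m} {α : Mo m n} {q : (BX D).S m × W.S m} :
    q ∈ PhiF D w0 b x α ↔ (∃ j, (x j, W.act α j.1.1) = q) ∧ q.2 ≠ W.deg w0 m := by
  rw [PhiF, Finset.mem_filter, Finset.mem_image]
  simp

/-- permutations of the boxes with the same label -/
abbrev Gb {W : SS} {n : ℕ} (b : W.S n →₀ ℕ) : Type := ∀ w : b.support, Equiv.Perm (Fin (b w))

end MM
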