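import Pool.Agent.Lib_MP_33f7bb_d.B5Def
import Pool.Agent.Lib_MP_33f7bb_d.A001

/-!
# B5-01: points of the topological simplex and faces

`tmap_apply_b` (B4Def): `(tmap f t) i = ∑ j, if f j = i then t j else 0`.

* `tmap_injective`: for injective `ι` the coordinates of `t` are coordinates of `tmap ι t`: `(tmap ι t) (ι j) = t j`.
* `exists_support`: for `t : Dtop n` let `σ = {i | t i ≠ 0}` (nonempty, as the sum is `1`), `k + 1 = card σ`, `ι : Mo k n` the increasing
  enumeration of `σ` (`Finset.orderEmbOfFin`), `u i = t (ι i)`.  Then `tmap ι u = t` and all coordinates of `u` are nonzero.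
* `tmap_eq_common`: let `tmap α s = tmap α' s' = t`.  Apply `exists_support` to `t`, `s`, `s'`: `(ι, u)`, `(δ, r)`, `(δ', r')`.  The
  support of `tmap (α ∘ δ) r = t` is the image of `α ∘ δ` (all coordinates of `r` are positive), and it is the image of
  `ι`; so `α ∘ δ` factors as `ι ∘ γ` with `γ` monotone (`ι` is an order embedding) and surjective; `tmap ι (tmap γ r) = t =
  tmap ι u`, so `tmap γ r = u` (`tmap_injective`).  Same for `α'`.
* `isClosedEmbedding_tmap`: continuous injective from a compact to a Hausdorff space.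
-/

namespace MM

private theorem B501_ext {n : ℕ} {s t : Dtop n}
    (h : ∀ i, (s : Fin (n + 1) → ℝ) i = (t : Fin (n + 1) → ℝ) i) : s = t :=
  Subtype.ext (funext h)

private theorem B501_apply {m n : ℕ} (ι : Mo m n) (hι : Function.Injective ι) (t : Dtop m)
    (j : Fin (m + 1)) : (tmap ι t : Fin (n + 1) → ℝ) (ι j) = (t : Fin (m + 1) → ℝ) j := by
  rw [tmap_apply_b, Finset.sum_eq_single j]
  · rw [if_pos rfl]
  · intro b _ hb
    rw [if_neg fun h => hb (hι h)]
  · intro h
    exact absurd (Finset.mem_univ j) h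

private theorem B501_zero {m n : ℕ} (f : Mo m n) (t : Dtop m) (i : Fin (n + 1))
    (h : ∀ j, f j ≠ i) : (tmap f t : Fin (n + 1) → ℝ) i = 0 := by
  rw [tmap_apply_b]
  exact Finset.sum_eq_zero fun j _ => if_neg (h j)

private theorem B501_ne {m n : ℕ} (f : Mo m n) (r : Dtop m)
    (hr : ∀ i, (r : Fin (m + 1) → ℝ) i ≠ 0) (j : Fin (m + 1)) :
    (tmap f r : Fin (n + 1) → ℝ) (f j) ≠ 0 := by
  rw [tmap_apply_b]
  intro h
  rw [Finset.sum_eq_zero_iff_of_nonneg] at h
  · have := h j (Finset.mem_univ j)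
    rw [if_pos rfl] at this
    exact hr j this
  · intro i _
    split_ifs
    · exact r.2.1 i
    · exact le_rfl

private theorem B501_mem {m n : ℕ} (f : Mo m n) (r : Dtop m) (i : Fin (n + 1))
    (h : (tmap f r : Fin (n + 1) → ℝ) i ≠ 0) : ∃ j, f j = i := by
  by_contra hc
  exact h (B501_zero f r i fun j hj => hc ⟨j, hj⟩)

theorem tmap_injective {m n : ℕ} (ι : Mo m n) (hι : Function.Injective ι) :
    Function.Injective (tmap ι) := by
  intro s t h
  refine B501_ext fun i => ?_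
  rw [← B501_apply ι hι s i, ← B501_apply ι hι t i, h]

theorem exists_support {n : ℕ} (t : Dtop n) :
    ∃ (k : ℕ) (ι : Mo k n) (u : Dtop k), Function.Injective ι ∧ tmap ι u = t ∧
      ∀ i, (u : Fin (k + 1) → ℝ) i ≠ 0 := by
  classical
  set σ : Finset (Fin (n + 1)) := Finset.univ.filter fun i => (t : Fin (n + 1) → ℝ) i ≠ 0 with hσ
  have hsum : ∑ i ∈ σ, (t : Fin (n + 1) → ℝ) i = 1 := by
    rw [hσ, Finset.sum_filter_ne_zero]
    exact t.2.2
  have hne : σ.card ≠ 0 := by
    intro h0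
    rw [Finset.card_eq_zero] at h0
    rw [h0, Finset.sum_empty] at hsum
    exact zero_ne_one hsum
  obtain ⟨k, hk⟩ := Nat.exists_eq_succ_of_ne_zero hne
  have hk' : σ.card = k + 1 := hk
  set e : Fin (k + 1) ↪o Fin (n + 1) := σ.orderEmbOfFin hk' with he
  have hmem : ∀ i, e i ∈ σ := fun i => Finset.orderEmbOfFin_mem σ hk' i
  have himg : Finset.univ.image (fun i => e i) = σ := by
    rw [he]
    exact Finset.image_orderEmbOfFin_univ σ hk'
  have hu : (fun i => (t : Fin (n + 1) → ℝ) (e i)) ∈ stdSimplex ℝ (Fin (k + 1)) := by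
    refine ⟨fun i => t.2.1 _, ?_⟩
    rw [← hsum, ← himg, Finset.sum_image fun a _ b _ h => e.injective h]
  refine ⟨k, ⟨fun i => e i, e.monotone⟩, ⟨_, hu⟩, e.injective, ?_, ?_⟩
  · refine B501_ext fun i => ?_
    by_cases hi : i ∈ σ
    · rw [← himg, Finset.mem_image] at hi
      obtain ⟨j, _, rfl⟩ := hi
      exact B501_apply (⟨fun i => e i, e.monotone⟩ : Mo k n) e.injective ⟨_, hu⟩ j
    · rw [B501_zero]
      · rw [hσ, Finset.mem_filter] at hi
        by_contra hc
        exact hi ⟨Finset.mem_univ _, fun h => hc h.symm⟩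
      · rintro j rfl
        exact hi (hmem j)
  · intro i
    have := hmem i
    rw [hσ, Finset.mem_filter] at this
    exact this.2

private theorem B501_factor {l k n : ℕ} (f : Mo l n) (ι : Mo k n) (hι : Function.Injective ι)
    (r : Dtop l) (u : Dtop k) (hr : ∀ i, (r : Fin (l + 1) → ℝ) i ≠ 0)
    (hu : ∀ i, (u : Fin (k + 1) → ℝ) i ≠ 0) (h : tmap f r = tmap ι u) :
    ∃ γ : Mo l k, f = ι.comp γ ∧ tmap γ r = u ∧ Function.Surjective γ := by
  have h1 : ∀ j, ∃ i, ι i = f j := fun j => B501_mem ι u (f j) (by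
    rw [← h]
    exact B501_ne f r hr j)
  choose g hg using h1
  have hmono : StrictMono ι := ι.monotone.strictMono_of_injective hι
  have hgm : Monotone g := by
    intro a b hab
    rw [← hmono.le_iff_le, hg, hg]
    exact f.monotone hab
  set γ : Mo l k := ⟨g, hgm⟩ with hγ
  have hf : f = ι.comp γ := by
    refine OrderHom.ext _ _ (funext fun j => ?_)
    exact (hg j).symm
  refine ⟨γ, hf, ?_, ?_⟩
  · apply tmap_injective ι hι
    rw [tmap_comp, ← hf, h]
  · intro i
    obtain ⟨j, hj⟩ := B501_mem f r (ι i) (by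
      rw [h]
      exact B501_ne ι u hu i)
    exact ⟨j, hι (by
      rw [← hj]
      exact hg j)⟩

theorem tmap_eq_common {m m' n : ℕ} (α : Mo m n) (α' : Mo m' n) (s : Dtop m) (s' : Dtop m')
    (h : tmap α s = tmap α' s') :
    ∃ (k l l' : ℕ) (ι : Mo k n) (u : Dtop k) (δ : Mo l m) (δ' : Mo l' m') (γ : Mo l k)
      (γ' : Mo l' k) (r : Dtop l) (r' : Dtop l'), tmap δ r = s ∧ tmap δ' r' = s' ∧
      α.comp δ = ι.comp γ ∧ α'.comp δ' = ι.comp γ' ∧ tmap γ r = u ∧ tmap γ' r' = u ∧
      Function.Surjective γ ∧ Function.Surjective γ' := by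
  obtain ⟨k, ι, u, hι, hu, hune⟩ := exists_support (tmap α s)
  obtain ⟨l, δ, r, -, hδ, hr⟩ := exists_support s
  obtain ⟨l', δ', r', -, hδ', hr'⟩ := exists_support s'
  obtain ⟨γ, h1, h2, h3⟩ := B501_factor (α.comp δ) ι hι r u hr hune (by
    rw [← tmap_comp, hδ, hu])
  obtain ⟨γ', h1', h2', h3'⟩ := B501_factor (α'.comp δ') ι hι r' u hr' hune (by
    rw [← tmap_comp, hδ', hu, h])
  exact ⟨k, l, l', ι, u, δ, δ', γ, γ', r, r', hδ, hδ', h1, h1', h2, h2', h3, h3'⟩

theorem isClosedEmbedding_tmap {m n : ℕ} (ι : Mo m n) (hι : Function.Injective ι) :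
    Topology.IsClosedEmbedding (tmap ι) := by
  have : CompactSpace (Dtop m) := isCompact_iff_compactSpace.1 (isCompact_stdSimplex _ _)
  exact (tmap ι).continuous.isClosedEmbedding (tmap_injective ι hι)

/-- `geo A` is the union of the images of the injective faces in `A` -/
theorem mem_geo_iff {n : ℕ} (A : Sub (Del n)) (t : Dtop n) :
    t ∈ geo A ↔ ∃ (m : ℕ) (α : Mo m n) (s : Dtop m), m ≤ n ∧ Function.Injective α ∧ α ∈ A.car m ∧
      tmap α s = t := by
  constructor
  · rintro ⟨m, α, s, hα, rfl⟩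
    obtain ⟨k, ι, u, hι, hu, hune⟩ := exists_support (tmap α s)
    obtain ⟨l, δ, r, -, hδ, hr⟩ := exists_support s
    obtain ⟨γ, h1, h2, h3⟩ := B501_factor (α.comp δ) ι hι r u hr hune (by
      rw [← tmap_comp, hδ, hu])
    have hsec : ∃ ε : Mo k l, γ.comp ε = OrderHom.id := by
      choose e he using h3
      refine ⟨⟨e, fun a b hab => ?_⟩, OrderHom.ext _ _ (funext fun i => he i)⟩
      by_contra hc
      have h4 := γ.monotone (le_of_not_ge hc)
      rw [he, he] at h4
      exact hc (by rw [le_antisymm hab h4])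
    obtain ⟨ε, hε⟩ := hsec
    refine ⟨k, ι, u, ?_, hι, ?_, hu⟩
    · have := Fintype.card_le_of_injective ι hι
      rw [Fintype.card_fin, Fintype.card_fin] at this
      omega
    · have h5 : ι = α.comp (δ.comp ε) := by
        have h6 : (α.comp δ).comp ε = (ι.comp γ).comp ε := by rw [h1]
        have h7 : (ι.comp γ).comp ε = ι.comp (γ.comp ε) := rfl
        rw [h7, hε] at h6
        exact h6.symm
      rw [h5]
      exact A.closed (δ.comp ε) hα
  · rintro ⟨m, α, s, -, -, hα, h⟩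
    exact ⟨m, α, s, hα, h⟩

theorem geo_horn (n : ℕ) (i : Fin (n + 2)) :
    geo (horn (n + 1) i) = {t : Dtop (n + 1) | ∃ j, j ≠ i ∧ (t : Fin (n + 2) → ℝ) j = 0} := by
  refine Set.ext fun t => ?_
  constructor
  · rintro ⟨m, α, s, ⟨j, hj, h⟩, rfl⟩
    exact ⟨j, hj, B501_zero α s j h⟩
  · rintro ⟨j, hj, h⟩
    obtain ⟨k, ι, u, hι, hu, hune⟩ := exists_support t
    refine ⟨k, ι, u, ⟨j, hj, fun a ha => ?_⟩, hu⟩
    rw [← hu, ← ha] at h
    exact B501_ne ι u hune a h

theorem geo_bd (n : ℕ) : geo (bd n) = {t : Dtop n | ∃ i, (t : Fin (n + 1) → ℝ) i = 0} := by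
  refine Set.ext fun t => ?_
  constructor
  · rintro ⟨m, α, s, hα, rfl⟩
    have hα' : ¬ Function.Surjective α := hα
    unfold Function.Surjective at hα'
    push Not at hα'
    obtain ⟨i, hi⟩ := hα'
    exact ⟨i, B501_zero α s i hi⟩
  · rintro ⟨j, h⟩
    obtain ⟨k, ι, u, hι, hu, hune⟩ := exists_support t
    refine ⟨k, ι, u, fun hs => ?_, hu⟩
    obtain ⟨a, ha⟩ := hs j
    rw [← hu, ← ha] at h
    exact B501_ne ι u hune a h

end MM
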