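import Pool.Agent.Lib_MP_33f7bb_d.B501

/-!
# B5-02: gluing: a simplicial map from a subcomplex `A` of `Δ^n` to `WWT j T` is a function on `geo A`

`G (t, x) := (f m α).1.1 (s, x)` for a choice of `(m, α, s)` with `α ∈ A`, `tmap α s = t` (`0` outside `geo A`).
Well defined: if `tmap α s = tmap α' s'` take the data of `tmap_eq_common` (B501).  `ι ∈ A` since `ι.comp γ = α.comp δ ∈ A` and
`γ` has a section (`exists_section`).  By naturality of `f` on `A` and `WWT_act`: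
`(f m α)(s, x) = (f m α)(tmap δ r, x) = (f l (α ∘ δ))(r, x) = (f l (ι ∘ γ))(r, x) = (f k ι)(tmap γ r, x) = (f k ι)(u, x)`, and the
same for `α'`.
Continuity on `{p | p.1 ∈ geo A}`: by `mem_geo_iff` this set is the union of the finitely many closed sets
`range (tmap α) ×ˢ univ` (`m ≤ n`, `α ∈ A` injective; `Mo m n` is finite); on each of them `G ∘ (tmap α × id) = f m α` is
continuous and `tmap α × id` is a closed embedding (`isClosedEmbedding_tmap`, `IsClosedEmbedding.prodMap`), so `G` is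
continuous on it; conclude by `LocallyFinite.continuousOn_iUnion` or a finite induction with
`ContinuousOn.union_of_isClosed`.
`S`: union of the finite sets of the finitely many injective faces; `C`: maximum of the bounds (and `0`).  All other properties are
inherited from `f m α` (for `m ≤ n`, `α` injective).
-/

namespace MM

/-- the glued function is well defined -/
private theorem B502_comp {j : ℕ} {T : Set ℕ} {n : ℕ} {A : Sub (Del n)}
    {f : Fn (Del n) (WWT j T).ss} (hf : NatOn A f) {m m' : ℕ} {α : Mo m n} {α' : Mo m' n}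
    (hα : α ∈ A.car m) (hα' : α' ∈ A.car m') {s : Dtop m} {s' : Dtop m'}
    (h : tmap α s = tmap α' s') (x : ℕ → ℝ) :
    (f m α).1.1 (s, x) = (f m' α').1.1 (s', x) := by
  obtain ⟨k, l, l', ι, u, δ, δ', γ, γ', r, r', hr, hr', hδ, hδ', hu, hu', sγ, -⟩ :=
    tmap_eq_common α α' s s' h
  obtain ⟨τ, hτ⟩ := exists_section γ sγ
  have hι : ι ∈ A.car k := by
    have h1 : α.comp δ ∈ A.car l := A.closed δ hα
    have h2 : (α.comp δ).comp τ ∈ A.car k := A.closed τ h1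
    have h3 : (α.comp δ).comp τ = ι := by
      rw [hδ, OrderHom.comp_assoc, hτ, OrderHom.comp_id]
    rwa [h3] at h2
  have key : ∀ (m₁ l₁ : ℕ) (α₁ : Mo m₁ n) (δ₁ : Mo l₁ m₁) (γ₁ : Mo l₁ k) (r₁ : Dtop l₁)
      (s₁ : Dtop m₁), α₁ ∈ A.car m₁ → tmap δ₁ r₁ = s₁ → α₁.comp δ₁ = ι.comp γ₁ →
      tmap γ₁ r₁ = u → (f m₁ α₁).1.1 (s₁, x) = (f k ι).1.1 (u, x) := by
    intro m₁ l₁ α₁ δ₁ γ₁ r₁ s₁ h1 h2 h3 h4
    have e1 : f l₁ (α₁.comp δ₁) = (WWT j T).ss.act δ₁ (f m₁ α₁) := hf δ₁ α₁ h1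
    have e2 : f l₁ (ι.comp γ₁) = (WWT j T).ss.act γ₁ (f k ι) := hf γ₁ ι hι
    have e3 : ((WWT j T).ss.act δ₁ (f m₁ α₁)).1.1 (r₁, x) =
        ((WWT j T).ss.act γ₁ (f k ι)).1.1 (r₁, x) := by rw [← e1, ← e2, h3]
    rw [WWT_act, WWT_act] at e3
    rw [← h2, ← h4]
    exact e3
  rw [key m l α δ γ r s hα hr hδ hu, key m' l' α' δ' γ' r' s' hα' hr' hδ' hu']

open Classical in
/-- the glued function -/
private noncomputable def B502_G {j : ℕ} {T : Set ℕ} {n : ℕ} (A : Sub (Del n))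
    (f : Fn (Del n) (WWT j T).ss) (p : Dtop n × (ℕ → ℝ)) : (Fin j → ℝ) × (ℕ → ℝ) :=
  if h : p.1 ∈ geo A then
    (f h.choose h.choose_spec.choose).1.1 (h.choose_spec.choose_spec.choose, p.2)
  else 0

private theorem B502_G_eq {j : ℕ} {T : Set ℕ} {n : ℕ} {A : Sub (Del n)}
    {f : Fn (Del n) (WWT j T).ss} (hf : NatOn A f) (m : ℕ) (α : Mo m n) (hα : α ∈ A.car m)
    (s : Dtop m) (x : ℕ → ℝ) : B502_G A f (tmap α s, x) = (f m α).1.1 (s, x) := by
  have h : tmap α s ∈ geo A := ⟨m, α, s, hα, rfl⟩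
  have h1 := h.choose_spec.choose_spec.choose_spec
  have h2 : B502_G A f (tmap α s, x) =
      (f h.choose h.choose_spec.choose).1.1 (h.choose_spec.choose_spec.choose, x) := dif_pos h
  rw [h2]
  exact B502_comp hf h1.1 hα h1.2 x

/-- continuity on the image of a closed embedding -/
private theorem B502_contOn {X Y Z : Type} [TopologicalSpace X] [TopologicalSpace Y]
    [TopologicalSpace Z] {e : X → Y} (he : Topology.IsClosedEmbedding e) {G : Y → Z}
    (h : Continuous fun x => G (e x)) : ContinuousOn G (Set.range e) := by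
  rw [continuousOn_iff_continuous_domRestrict]
  rw [← he.isEmbedding.toHomeomorph.comp_continuous_iff']
  exact h

/-- the injective faces in `A` -/
private abbrev B502_I {n : ℕ} (A : Sub (Del n)) : Type :=
  Σ m : Fin (n + 1), {α : Mo m n // α ∈ A.car m ∧ Function.Injective α}

private theorem B502_mem {n : ℕ} {A : Sub (Del n)} {t : Dtop n} (h : t ∈ geo A) :
    ∃ (i : B502_I A) (s : Dtop i.1), tmap i.2.1 s = t := by
  obtain ⟨m, α, s, hm, hi, hα, rfl⟩ := (mem_geo_iff A t).1 h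
  exact ⟨⟨⟨m, Nat.lt_succ_of_le hm⟩, ⟨α, hα, hi⟩⟩, s, rfl⟩

theorem ww_glue {j : ℕ} {T : Set ℕ} {n : ℕ} (A : Sub (Del n)) (f : Fn (Del n) (WWT j T).ss)
    (hf : NatOn A f) :
    ∃ (G : Dtop n × (ℕ → ℝ) → (Fin j → ℝ) × (ℕ → ℝ)) (S : Finset ℕ) (C : ℝ),
      (S : Set ℕ) ⊆ T ∧ ContinuousOn G {p | p.1 ∈ geo A} ∧
      (∀ m (α : Mo m n), α ∈ A.car m → ∀ s x, G (tmap α s, x) = (f m α).1.1 (s, x)) ∧
      (∀ t ∈ geo A, ∀ x y, (∀ i ∈ S, x i = y i) → G (t, x) = G (t, y)) ∧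
      (∀ t ∈ geo A, ∀ x, ∀ i ∉ S, (G (t, x)).2 i = 0) ∧
      (∀ t ∈ geo A, ∀ x, (∀ i, |(G (t, x)).1 i| ≤ C) ∧ ∀ i, |(G (t, x)).2 i| ≤ C) ∧
      ∀ t ∈ geo A, ∀ x, ¬ (e0 j + (G (t, x)).1 = 0 ∧ x + (G (t, x)).2 = 0) := by
  classical
  have hfin : ∀ i : B502_I A, IsWW j T (f i.1 i.2.1).1.1 := fun i => (f i.1 i.2.1).2
  choose S hS hS1 hS2 using fun i : B502_I A => (hfin i).fin
  choose C hC using fun i : B502_I A => (hfin i).bdd
  have hle : ∀ i, C i ≤ ∑ i, |C i| := fun i =>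
    (le_abs_self _).trans (Finset.single_le_sum (f := fun i => |C i|)
      (fun _ _ => abs_nonneg _) (Finset.mem_univ i))
  have hG : ∀ (i : B502_I A) (s : Dtop i.1) (x : ℕ → ℝ),
      B502_G A f (tmap i.2.1 s, x) = (f i.1 i.2.1).1.1 (s, x) := fun i s x =>
    B502_G_eq hf i.1 i.2.1 i.2.2.1 s x
  have hSi : ∀ i k, k ∈ S i → k ∈ Finset.univ.biUnion S := fun i k hk =>
    Finset.mem_biUnion.2 ⟨i, Finset.mem_univ i, hk⟩
  refine ⟨B502_G A f, Finset.univ.biUnion S, ∑ i, |C i|, ?_, ?_, B502_G_eq hf, ?_, ?_, ?_, ?_⟩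
  · intro k hk
    obtain ⟨i, -, hi⟩ := Finset.mem_biUnion.1 (Finset.mem_coe.1 hk)
    exact hS i (Finset.mem_coe.2 hi)
  · have hset : {p : Dtop n × (ℕ → ℝ) | p.1 ∈ geo A} =
        ⋃ i : B502_I A, Set.range (Prod.map (tmap i.2.1) (id : (ℕ → ℝ) → (ℕ → ℝ))) := by
      ext p
      rw [Set.mem_iUnion]
      constructor
      · intro hp
        obtain ⟨i, s, hs⟩ := B502_mem hp
        exact ⟨i, (s, p.2), Prod.ext hs rfl⟩
      · rintro ⟨i, q, rfl⟩
        exact ⟨i.1, i.2.1, q.1, i.2.2.1, rfl⟩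
    rw [hset]
    have hcl : ∀ i : B502_I A, Topology.IsClosedEmbedding
        (Prod.map (tmap i.2.1) (id : (ℕ → ℝ) → (ℕ → ℝ))) := fun i =>
      (isClosedEmbedding_tmap i.2.1 i.2.2.2).prodMap Topology.IsClosedEmbedding.id
    refine LocallyFinite.continuousOn_iUnion (locallyFinite_of_finite _)
      (fun i => (hcl i).isClosed_range) fun i => B502_contOn (hcl i) ?_
    have h1 : (fun q : Dtop i.1 × (ℕ → ℝ) =>
        B502_G A f (Prod.map (tmap i.2.1) (id : (ℕ → ℝ) → (ℕ → ℝ)) q)) =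
        (f i.1 i.2.1).1.1 := funext fun q => hG i q.1 q.2
    rw [h1]
    exact (hfin i).cont
  · intro t ht x y hxy
    obtain ⟨i, s, rfl⟩ := B502_mem ht
    rw [hG, hG]
    exact hS1 i s x y fun k hk => hxy k (hSi i k hk)
  · intro t ht x k hk
    obtain ⟨i, s, rfl⟩ := B502_mem ht
    rw [hG]
    exact hS2 i s x k fun h => hk (hSi i k h)
  · intro t ht x
    obtain ⟨i, s, rfl⟩ := B502_mem ht
    rw [hG]
    exact ⟨fun k => ((hC i s x).1 k).trans (hle i), fun k => ((hC i s x).2 k).trans (hle i)⟩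
  · intro t ht x
    obtain ⟨i, s, rfl⟩ := B502_mem ht
    rw [hG]
    exact (hfin i).ne s x

/-- a function on the whole simplex which agrees with the glued function gives an extension -/
theorem ww_ext_of_glue {j : ℕ} {T : Set ℕ} {n : ℕ} {A : Sub (Del n)} {f : Fn (Del n) (WWT j T).ss}
    {G : Dtop n × (ℕ → ℝ) → (Fin j → ℝ) × (ℕ → ℝ)}
    (hG : ∀ m (α : Mo m n), α ∈ A.car m → ∀ s x, G (tmap α s, x) = (f m α).1.1 (s, x))
    (G' : Dtop n × (ℕ → ℝ) → (Fin j → ℝ) × (ℕ → ℝ)) (hG' : IsWW j T G')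
    (h : ∀ t ∈ geo A, ∀ x, G' (t, x) = G (t, x)) :
    ∃ g : Fn (Del n) (WWT j T).ss, NatOn ⊤ g ∧ ∀ m, ∀ x ∈ A.car m, g m x = f m x := by
  refine ⟨(SS.yo (P := (WWT j T).ss) (WWT.mk G' hG')).app, fun {m k} g x _ =>
    (SS.yo (P := (WWT j T).ss) (WWT.mk G' hG')).nat g x, ?_⟩
  intro m α hα
  refine Subtype.ext (Subtype.ext (funext fun p => ?_))
  show G' (tmap α p.1, p.2) = _
  rw [h _ ⟨m, α, p.1, hα, rfl⟩, hG m α hα]

end MM
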