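import Pool.Agent.Lib_MP_33f7bb_d.B502

/-!
# B5-03 (W1): `WWT j T` is a Kan complex

Retraction of `Dtop (n+1)` onto `geo (horn (n+1) i)` (`geo_horn`): let `μ t = min over j ≠ i of t j` (`Finset.inf'`, continuous), and
`(r t) j = t j - μ t` for `j ≠ i`, `(r t) i = t i + (n + 1) * μ t`.  It is in the simplex (sum `1`, nonnegative), continuous, some
coordinate `j ≠ i` is `0`, and `r t = t` if some coordinate `t j`, `j ≠ i`, is `0` (then `μ t = 0`).
Given `f` natural on the horn take `G, S, C` from `ww_glue` and `G' (t, x) := G (r t, x)`: it is `IsWW` (continuity: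
`ContinuousOn.comp_continuous`), and equals `G` on `geo (horn (n+1) i)`.  Conclude by `ww_ext_of_glue`.
-/

namespace MM

section B503

variable {n : ℕ} (i : Fin (n + 2))

private theorem B503_ne : (Finset.univ.erase i : Finset (Fin (n + 2))).Nonempty := by
  rcases eq_or_ne i 0 with h | h
  · refine ⟨1, Finset.mem_erase.2 ⟨?_, Finset.mem_univ _⟩⟩
    rw [h]
    exact Fin.one_pos.ne'
  · exact ⟨0, Finset.mem_erase.2 ⟨h.symm, Finset.mem_univ _⟩⟩

/-- the minimum of the coordinates different from `i` -/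
private noncomputable def B503_mu (t : Dtop (n + 1)) : ℝ :=
  (Finset.univ.erase i).inf' (B503_ne i) fun j => t.1 j

private theorem B503_mu_cont : Continuous (B503_mu i) :=
  Continuous.finset_inf'_apply (B503_ne i) fun j _ => (continuous_apply j).comp continuous_subtype_val

private theorem B503_mu_nonneg (t : Dtop (n + 1)) : 0 ≤ B503_mu i t :=
  Finset.le_inf' (B503_ne i) _ fun j _ => t.2.1 j

private theorem B503_mu_le (t : Dtop (n + 1)) {j : Fin (n + 2)} (hj : j ≠ i) :
    B503_mu i t ≤ t.1 j :=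
  Finset.inf'_le _ (Finset.mem_erase.2 ⟨hj, Finset.mem_univ _⟩)

private theorem B503_mu_eq (t : Dtop (n + 1)) : ∃ j, j ≠ i ∧ B503_mu i t = t.1 j := by
  obtain ⟨j, hj, h⟩ := Finset.exists_mem_eq_inf' (B503_ne i) fun j => t.1 j
  exact ⟨j, (Finset.mem_erase.1 hj).1, h⟩

/-- the coordinates of the retraction -/
private noncomputable def B503_rf (t : Dtop (n + 1)) (j : Fin (n + 2)) : ℝ :=
  t.1 j - B503_mu i t + if j = i then ((n : ℝ) + 2) * B503_mu i t else 0

private theorem B503_rf_mem (t : Dtop (n + 1)) : B503_rf i t ∈ stdSimplex ℝ (Fin (n + 2)) := by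
  constructor
  · intro j
    have h0 := B503_mu_nonneg i t
    by_cases hj : j = i
    · have h1 := t.2.1 j
      have h2 : 0 ≤ (n : ℝ) * B503_mu i t := mul_nonneg (Nat.cast_nonneg n) h0
      rw [B503_rf, if_pos hj]
      nlinarith
    · have h1 := B503_mu_le i t hj
      rw [B503_rf, if_neg hj]
      linarith
  · have h1 : ∑ j, t.1 j = 1 := t.2.2
    show ∑ j, (t.1 j - B503_mu i t + if j = i then ((n : ℝ) + 2) * B503_mu i t else 0) = 1
    rw [Finset.sum_add_distrib, Finset.sum_sub_distrib, h1, Finset.sum_ite_eq' Finset.univ i,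
      if_pos (Finset.mem_univ i), Finset.sum_const, Finset.card_univ, Fintype.card_fin,
      nsmul_eq_mul]
    push_cast
    ring

/-- the retraction onto the horn -/
private noncomputable def B503_r (t : Dtop (n + 1)) : Dtop (n + 1) := ⟨B503_rf i t, B503_rf_mem i t⟩

private theorem B503_r_cont : Continuous (B503_r i) := by
  refine Continuous.subtype_mk (continuous_pi fun j => ?_) _
  have h1 : Continuous fun t : Dtop (n + 1) => t.1 j :=
    (continuous_apply j).comp continuous_subtype_val
  have h2 := B503_mu_cont i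
  show Continuous fun t : Dtop (n + 1) =>
    t.1 j - B503_mu i t + if j = i then ((n : ℝ) + 2) * B503_mu i t else 0
  by_cases hj : j = i
  · simp only [if_pos hj]
    exact (h1.sub h2).add (continuous_const.mul h2)
  · simp only [if_neg hj]
    exact (h1.sub h2).add continuous_const

private theorem B503_horn (t : Dtop (n + 1)) :
    t ∈ geo (horn (n + 1) i) ↔ ∃ j, j ≠ i ∧ t.1 j = 0 := by
  constructor
  · rintro ⟨m, α, s, ⟨j, hj, hα⟩, rfl⟩
    refine ⟨j, hj, ?_⟩
    have h := tmap_apply_b α s j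
    refine h.trans (Finset.sum_eq_zero fun k _ => ?_)
    rw [if_neg (hα k)]
  · rintro ⟨j, hj, h⟩
    obtain ⟨k, ι, u, hι, hu, hne⟩ := exists_support t
    refine ⟨k, ι, u, ⟨j, hj, fun l hl => hne l ?_⟩, hu⟩
    have h1 := tmap_apply_b ι u (ι l)
    rw [Finset.sum_eq_single l (fun b _ hb => if_neg fun he => hb (hι he))
      (fun h => absurd (Finset.mem_univ l) h), if_pos rfl, hu, hl] at h1
    exact h1.symm.trans h

private theorem B503_r_mem (t : Dtop (n + 1)) : B503_r i t ∈ geo (horn (n + 1) i) := by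
  rw [B503_horn]
  obtain ⟨j, hj, h⟩ := B503_mu_eq i t
  refine ⟨j, hj, ?_⟩
  show t.1 j - B503_mu i t + (if j = i then ((n : ℝ) + 2) * B503_mu i t else 0) = 0
  rw [if_neg hj, h, sub_self, add_zero]

private theorem B503_r_eq {t : Dtop (n + 1)} (ht : t ∈ geo (horn (n + 1) i)) : B503_r i t = t := by
  rw [B503_horn] at ht
  obtain ⟨j, hj, h'⟩ := ht
  have h0 : B503_mu i t = 0 := le_antisymm ((B503_mu_le i t hj).trans h'.le) (B503_mu_nonneg i t)
  apply Subtype.ext
  funext k
  show t.1 k - B503_mu i t + (if k = i then ((n : ℝ) + 2) * B503_mu i t else 0) = t.1 k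
  rw [h0, mul_zero, ite_self, sub_zero, add_zero]

end B503

theorem ww_kan (j : ℕ) (T : Set ℕ) : IsKan (WWT j T).ss := by
  intro n i f hf
  obtain ⟨G, S, C, hS, hc, hG, h1, h2, hb, hne⟩ := ww_glue (horn (n + 1) i) f hf
  refine ww_ext_of_glue hG (fun p => G (B503_r i p.1, p.2)) ⟨?_, ?_, ?_, ?_⟩ ?_
  · exact hc.comp_continuous (((B503_r_cont i).comp continuous_fst).prodMk continuous_snd)
      fun p => B503_r_mem i p.1
  · exact ⟨S, hS, fun t x y h => h1 _ (B503_r_mem i t) x y h,
      fun t x k hk => h2 _ (B503_r_mem i t) x k hk⟩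
  · exact ⟨C, fun t x => hb _ (B503_r_mem i t) x⟩
  · exact fun t x => hne _ (B503_r_mem i t) x
  · intro t ht x
    show G (B503_r i t, x) = G (t, x)
    rw [B503_r_eq i ht]

end MM
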