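import Mathlib

/-!
# B5-04: general position

`E, F` finite dimensional normed spaces, `dim E < dim F`, `K ⊆ E` compact, `f : E → F` continuous on `K`, `ε > 0`.  There is
`g`, continuous on `K`, nowhere zero on `K`, equal to `f` where `‖f‖ ≥ ε`, and `ε`-close to `f` on `K`.

Proof.  (1) there is a `C^1` (even smooth) function `p : E → F` with `‖p x - f x‖ < ε/4` on `K`: Stone-Weierstrass: the
subalgebra of `C(K, ℝ)` of the restrictions of the smooth functions `E → ℝ` separates points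
(`ContinuousMap.subalgebra_topologicalClosure_eq_top_of_separatesPoints`; continuous linear functionals
separate points); apply it to the coordinates of `f` in a basis of `F`; (or use a smooth approximation theorem of
Mathlib after extending `f` to `E` by Tietze, or smooth partitions of unity
`exists_contMDiff_...`).
(2) `ContDiff.dense_compl_range_of_finrank_lt_finrank`: there is `c ∉ Set.range p` with `‖c‖ < ε/4`.
(3) `ψ u = max 0 (min 1 (2 - 2 u / ε))`, `g = f + ψ(‖f‖) • (p - c - f)`.  If `‖f x‖ ≥ ε`: `ψ = 0`, `g = f`.  If `‖f x‖ ≤ ε/2`: `ψ = 1`,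
`g x = p x - c ≠ 0`.  If `‖f x‖ > ε/2`: `‖g x - f x‖ ≤ ‖p x - f x‖ + ‖c‖ < ε/2 < ‖f x‖`, so `g x ≠ 0`.
-/

namespace MM

theorem general_position {E F : Type} [NormedAddCommGroup E] [NormedSpace ℝ E]
    [FiniteDimensional ℝ E] [NormedAddCommGroup F] [NormedSpace ℝ F] [FiniteDimensional ℝ F]
    (hEF : Module.finrank ℝ E < Module.finrank ℝ F) (K : Set E) (hK : IsCompact K) (f : E → F)
    (hf : ContinuousOn f K) (ε : ℝ) (hε : 0 < ε) :
    ∃ g : E → F, ContinuousOn g K ∧ (∀ x ∈ K, g x ≠ 0) ∧ (∀ x, ε ≤ ‖f x‖ → g x = f x) ∧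
      ∀ x ∈ K, ‖g x - f x‖ < ε := by
  -- a smooth approximation
  obtain ⟨f₁, hf₁⟩ := ContinuousMap.exists_restrict_eq hK.isClosed
    (⟨K.restrict f, continuousOn_iff_continuous_restrict.1 hf⟩ : C(K, F))
  have hf₁' : ∀ x ∈ K, f₁ x = f x := fun x hx =>
    congrArg (fun u : C(K, F) => u ⟨x, hx⟩) hf₁
  have hε4 : 0 < ε / 4 := by linarith
  obtain ⟨p, hp, hpf, -⟩ := f₁.continuous.exists_contDiff_approx 1
    (ε := fun _ => ε / 4) continuous_const (fun _ => hε4)
  have hp1 : ContDiff ℝ 1 p := hp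
  obtain ⟨c, hc, hcr⟩ := (hp1.dense_compl_range_of_finrank_lt_finrank hEF).exists_dist_lt
    (0 : F) hε4
  have hcn : ‖c‖ < ε / 4 := by rwa [dist_zero_left] at hcr
  have hpf' : ∀ x ∈ K, ‖p x - f x‖ < ε / 4 := by
    intro x hx
    have h1 := hpf x
    rwa [hf₁' x hx, dist_eq_norm] at h1
  let ψ : ℝ → ℝ := fun u => max 0 (min 1 (2 - 2 * u / ε))
  have hψc : Continuous ψ := by
    show Continuous fun u : ℝ => max 0 (min 1 (2 - 2 * u / ε))
    fun_prop
  have hψ0 : ∀ u, 0 ≤ ψ u := fun u => le_max_left _ _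
  have hψ1 : ∀ u, ψ u ≤ 1 := fun u => max_le zero_le_one (min_le_left _ _)
  have hclose : ∀ x ∈ K, ‖ψ ‖f x‖ • (p x - c - f x)‖ < ε / 2 := by
    intro x hx
    rw [norm_smul, Real.norm_of_nonneg (hψ0 _)]
    have h1 : ‖p x - c - f x‖ < ε / 2 := by
      have h2 : p x - c - f x = (p x - f x) - c := by abel
      rw [h2]
      have := norm_sub_le (p x - f x) c
      have := hpf' x hx
      linarith
    calc ψ ‖f x‖ * ‖p x - c - f x‖ ≤ 1 * ‖p x - c - f x‖ :=
          mul_le_mul_of_nonneg_right (hψ1 _) (norm_nonneg _)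
      _ = ‖p x - c - f x‖ := one_mul _
      _ < ε / 2 := h1
  refine ⟨fun x => f x + ψ ‖f x‖ • (p x - c - f x), ?_, ?_, ?_, ?_⟩
  · exact hf.add ((hψc.comp_continuousOn hf.norm).smul
      ((hp1.continuous.continuousOn.sub continuousOn_const).sub hf))
  · intro x hx h0
    by_cases h : ‖f x‖ ≤ ε / 2
    · have h1 : ψ ‖f x‖ = 1 := by
        show max 0 (min 1 (2 - 2 * ‖f x‖ / ε)) = 1
        have h2 : 2 * ‖f x‖ / ε ≤ 1 := by
          rw [div_le_one hε]
          linarith
        rw [min_eq_left (by linarith), max_eq_right zero_le_one]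
      have h2 : f x + ψ ‖f x‖ • (p x - c - f x) = 0 := h0
      rw [h1, one_smul] at h2
      have h3 : p x = c := by
        have h4 : f x + (p x - c - f x) = p x - c := by abel
        rw [h4] at h2
        exact sub_eq_zero.1 h2
      exact hc ⟨x, h3⟩
    · have h1 := hclose x hx
      have h2 : f x = - (ψ ‖f x‖ • (p x - c - f x)) := eq_neg_of_add_eq_zero_left h0
      have h3 : ‖f x‖ = ‖ψ ‖f x‖ • (p x - c - f x)‖ := by
        conv_lhs => rw [h2]
        exact norm_neg _
      rw [← h3] at h1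
      exact h h1.le
  · intro x hx
    have h1 : ψ ‖f x‖ = 0 := by
      show max 0 (min 1 (2 - 2 * ‖f x‖ / ε)) = 0
      have h2 : 2 ≤ 2 * ‖f x‖ / ε := by
        rw [le_div_iff₀ hε]
        linarith
      exact max_eq_left ((min_le_right _ _).trans (by linarith))
    show f x + ψ ‖f x‖ • (p x - c - f x) = f x
    rw [h1, zero_smul, add_zero]
  · intro x hx
    show ‖f x + ψ ‖f x‖ • (p x - c - f x) - f x‖ < ε
    rw [add_sub_cancel_left]
    have := hclose x hx
    linarith

end MM
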