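import Pool.Agent.Lib_MP_33f7bb_d.B504
import Pool.Agent.Lib_MP_33f7bb_d.B501

/-!
# B5-05 (W2), finite dimensional part: extension of nowhere zero maps from the boundary of a simplex

`n < j`, `S` a finite type, `G` defined on `∂ × ℝ^S` (`∂ = {t : Dtop n | ∃ i, t i = 0}`), continuous, bounded by `C`, with
`(e0, y) + G ≠ 0`.  Then `G` extends to `Dtop n × ℝ^S` with the same properties.

Proof.  (1) `∂ × ℝ^S` is closed; by Tietze (coordinatewise; bounded real functions extend with the same bound: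
`BoundedContinuousFunction.exists_norm_eq_restrict_eq_of_closed`, or `ContinuousMap` version with values in
`Set.Icc (-C) C`) there is a continuous extension `G0` with all coordinates bounded by `C`.  (If `n = 0`, `∂` is
empty and `G0 = 0`, which already works; the general argument also covers it.)
(2) `F0 (t, y) = (e0, y) + G0 (t, y)` (sup norms).  If `‖y‖ ≥ C + 1` then `‖F0 (t,y)‖ ≥ 1`.  On the compact set
`∂ × closedBall 0 (C+2)` `‖F0‖` has a positive lower bound; so there is `0 < ε ≤ 1` with `‖F0‖ ≥ ε` on `∂ × ℝ^S`.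
(3) Let `E = (Fin n → ℝ) × (S → ℝ)` (dimension `n + |S|`), `F = (Fin j → ℝ) × (S → ℝ)` (dimension `j + |S|`),
`ρ : Dtop n → (Fin n → ℝ)`, `ρ t i = t i.succ` (continuous, injective, so a closed embedding of the compact space `Dtop n`; let
`ρ'` be a left inverse, continuous on the image `Δ = range ρ`).  `K := Δ ×ˢ closedBall 0 (C+2)` is compact and
`f (u, y) := F0 (ρ' u, y)` is continuous on `K`.  `general_position` gives `g`.
(4) `G' (t, y) := g (ρ t, y) - (e0, y)` if `‖y‖ ≤ C + 2`, and `G0 (t, y)` otherwise.  For `C + 1 ≤ ‖y‖` both formulas agree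
(`‖f‖ ≥ 1 ≥ ε`), so `G'` is continuous; it equals `G0` on `∂ × ℝ^S`; `(e0, y) + G' ≠ 0` everywhere; `G'` is bounded (compactness
for `‖y‖ ≤ C + 2`, or `‖g - f‖ < ε`).
-/

namespace MM

private theorem B505_isClosed (n : ℕ) (S : Type) :
    IsClosed {p : Dtop n × (S → ℝ) | ∃ i, (p.1 : Fin (n + 1) → ℝ) i = 0} := by
  have h : {p : Dtop n × (S → ℝ) | ∃ i, (p.1 : Fin (n + 1) → ℝ) i = 0} =
      ⋃ i, {p : Dtop n × (S → ℝ) | (p.1 : Fin (n + 1) → ℝ) i = 0} := by
    ext p; simp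
  rw [h]
  refine isClosed_iUnion_of_finite fun i => ?_
  refine isClosed_eq ?_ continuous_const
  exact (continuous_apply i).comp (continuous_subtype_val.comp continuous_fst)

private def B505_rho (n : ℕ) (t : Dtop n) : Fin n → ℝ := fun i => (t : Fin (n + 1) → ℝ) i.succ

private theorem B505_rho_cont (n : ℕ) : Continuous (B505_rho n) :=
  continuous_pi fun i => (continuous_apply i.succ).comp continuous_subtype_val

private theorem B505_rho_inj (n : ℕ) : Function.Injective (B505_rho n) := by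
  intro s t h
  have h1 : ∀ i : Fin n, (s : Fin (n + 1) → ℝ) i.succ = (t : Fin (n + 1) → ℝ) i.succ :=
    fun i => congrFun h i
  have hs : ∑ i, (s : Fin (n + 1) → ℝ) i = 1 := s.2.2
  have ht : ∑ i, (t : Fin (n + 1) → ℝ) i = 1 := t.2.2
  rw [Fin.sum_univ_succ] at hs ht
  have h2 : (s : Fin (n + 1) → ℝ) 0 = (t : Fin (n + 1) → ℝ) 0 := by
    have h3 : ∑ i : Fin n, (s : Fin (n + 1) → ℝ) i.succ =
        ∑ i : Fin n, (t : Fin (n + 1) → ℝ) i.succ := Finset.sum_congr rfl fun i _ => h1 i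
    linarith
  apply Subtype.ext
  funext i
  refine Fin.cases ?_ (fun i => ?_) i
  · exact h2
  · exact h1 i

private theorem B505_emb (n : ℕ) (S : Type) :
    Topology.IsClosedEmbedding
      (fun p : Dtop n × (S → ℝ) => ((B505_rho n p.1, p.2) : (Fin n → ℝ) × (S → ℝ))) := by
  have h : Topology.IsClosedEmbedding (B505_rho n) :=
    (B505_rho_cont n).isClosedEmbedding (B505_rho_inj n)
  have h2 := h.prodMap (Topology.IsClosedEmbedding.id (X := S → ℝ))
  exact h2

theorem ext_nonzero (n j : ℕ) (hn : n < j) (S : Type) [Fintype S]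
    (G : Dtop n × (S → ℝ) → (Fin j → ℝ) × (S → ℝ))
    (hG : ContinuousOn G {p | ∃ i, (p.1 : Fin (n + 1) → ℝ) i = 0}) (C : ℝ)
    (hC : ∀ p : Dtop n × (S → ℝ), (∃ i, (p.1 : Fin (n + 1) → ℝ) i = 0) → ‖G p‖ ≤ C)
    (hne : ∀ p : Dtop n × (S → ℝ), (∃ i, (p.1 : Fin (n + 1) → ℝ) i = 0) → (e0 j, p.2) + G p ≠ 0) :
    ∃ G' : Dtop n × (S → ℝ) → (Fin j → ℝ) × (S → ℝ), Continuous G' ∧ (∃ C', ∀ p, ‖G' p‖ ≤ C') ∧
      (∀ p, (e0 j, p.2) + G' p ≠ 0) ∧
      ∀ p : Dtop n × (S → ℝ), (∃ i, (p.1 : Fin (n + 1) → ℝ) i = 0) → G' p = G p := by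
  classical
  set Bd : Set (Dtop n × (S → ℝ)) := {p | ∃ i, (p.1 : Fin (n + 1) → ℝ) i = 0} with hBd
  have hBdc : IsClosed Bd := B505_isClosed n S
  -- (1) Tietze
  let f0 : BoundedContinuousFunction Bd ((Fin j → ℝ) × (S → ℝ)) :=
    BoundedContinuousFunction.ofNormedAddCommGroup (Bd.domRestrict G)
      (continuousOn_iff_continuous_domRestrict.1 hG) C (fun x => hC x.1 x.2)
  obtain ⟨g0, -, hg0⟩ :=
    BoundedContinuousFunction.exists_norm_eq_domRestrict_eq hBdc ℝ f0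
  have hG0 : ∀ p ∈ Bd, g0 p = G p := fun p hp => by
    have := DFunLike.congr_fun hg0 ⟨p, hp⟩
    exact this
  have hG0C : ∀ p, ‖g0 p‖ ≤ ‖g0‖ := fun p => g0.norm_coe_le_norm p
  set C0 : ℝ := ‖g0‖ with hC0
  have hC0n : 0 ≤ C0 := norm_nonneg _
  -- (2)
  let F0 : Dtop n × (S → ℝ) → (Fin j → ℝ) × (S → ℝ) := fun p => (e0 j, p.2) + g0 p
  have hF0 : Continuous F0 :=
    (continuous_const.prodMk continuous_snd).add g0.continuous
  have hF1 : ∀ p : Dtop n × (S → ℝ), C0 + 1 ≤ ‖p.2‖ → 1 ≤ ‖F0 p‖ := by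
    intro p hp
    have h1 : ‖(F0 p).2‖ ≤ ‖F0 p‖ := norm_snd_le _
    have h2 : (F0 p).2 = p.2 + (g0 p).2 := rfl
    have h3 : ‖(g0 p).2‖ ≤ C0 := (norm_snd_le _).trans (hG0C p)
    have h4 : ‖p.2‖ ≤ ‖p.2 + (g0 p).2‖ + ‖(g0 p).2‖ := by
      have := norm_sub_le (p.2 + (g0 p).2) (g0 p).2
      rwa [add_sub_cancel_right] at this
    rw [h2] at h1
    linarith
  have hFBd : ∀ p ∈ Bd, F0 p ≠ 0 := fun p hp => by
    show (e0 j, p.2) + g0 p ≠ 0
    rw [hG0 p hp]
    exact hne p hp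
  have hεex : ∃ ε : ℝ, 0 < ε ∧ ε ≤ 1 ∧ ∀ p ∈ Bd, ε ≤ ‖F0 p‖ := by
    have hK0 : IsCompact (Bd ∩ (Set.univ ×ˢ Metric.closedBall (0 : S → ℝ) (C0 + 1))) :=
      (isCompact_univ.prod (isCompact_closedBall _ _)).inter_left hBdc
    rcases (Bd ∩ (Set.univ ×ˢ Metric.closedBall (0 : S → ℝ) (C0 + 1))).eq_empty_or_nonempty with
      he | he
    · refine ⟨1, one_pos, le_rfl, fun p hp => hF1 p ?_⟩
      by_contra h
      have : p ∈ (Bd ∩ (Set.univ ×ˢ Metric.closedBall (0 : S → ℝ) (C0 + 1))) := by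
        refine ⟨hp, trivial, ?_⟩
        rw [mem_closedBall_zero_iff]
        exact (not_le.1 h).le
      rw [he] at this
      exact this
    · obtain ⟨q, hq, hmin⟩ := hK0.exists_isMinOn he hF0.norm.continuousOn
      have hq0 : 0 < ‖F0 q‖ := norm_pos_iff.2 (hFBd q hq.1)
      refine ⟨min ‖F0 q‖ 1, lt_min hq0 one_pos, min_le_right _ _, fun p hp => ?_⟩
      by_cases h : ‖p.2‖ ≤ C0 + 1
      · refine (min_le_left _ _).trans (hmin ⟨hp, trivial, ?_⟩)
        rw [mem_closedBall_zero_iff]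
        exact h
      · exact (min_le_right _ _).trans (hF1 p (not_le.1 h).le)
  obtain ⟨ε, hε, hε1, hεB⟩ := hεex
  -- (3)
  have hemb := B505_emb n S
  obtain ⟨f, hf⟩ := ContinuousMap.exists_extension' hemb (⟨F0, hF0⟩ : C(_, (Fin j → ℝ) × (S → ℝ)))
  have hf' : ∀ p : Dtop n × (S → ℝ), f (B505_rho n p.1, p.2) = F0 p := fun p => congrFun hf p
  set K : Set ((Fin n → ℝ) × (S → ℝ)) :=
    (fun p : Dtop n × (S → ℝ) => ((B505_rho n p.1, p.2) : (Fin n → ℝ) × (S → ℝ))) ''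
      (Set.univ ×ˢ Metric.closedBall (0 : S → ℝ) (C0 + 2)) with hK
  have hKc : IsCompact K :=
    (isCompact_univ.prod (isCompact_closedBall _ _)).image hemb.continuous
  have hdim : Module.finrank ℝ ((Fin n → ℝ) × (S → ℝ)) <
      Module.finrank ℝ ((Fin j → ℝ) × (S → ℝ)) := by
    simp only [Module.finrank_prod, Module.finrank_fintype_fun_eq_card, Fintype.card_fin]
    omega
  obtain ⟨g, hg, hgne, hgf, hgε⟩ :=
    general_position hdim K hKc f f.continuous.continuousOn ε hε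
  have hmemK : ∀ p : Dtop n × (S → ℝ), ‖p.2‖ ≤ C0 + 2 → (B505_rho n p.1, p.2) ∈ K := by
    intro p hp
    refine ⟨p, ⟨trivial, ?_⟩, rfl⟩
    rw [mem_closedBall_zero_iff]
    exact hp
  -- (4)
  let G' : Dtop n × (S → ℝ) → (Fin j → ℝ) × (S → ℝ) := fun p =>
    if ‖p.2‖ ≤ C0 + 2 then g (B505_rho n p.1, p.2) - (e0 j, p.2) else g0 p
  have hG'1 : ∀ p : Dtop n × (S → ℝ), ‖p.2‖ ≤ C0 + 2 →
      G' p = g (B505_rho n p.1, p.2) - (e0 j, p.2) := fun p hp => if_pos hp
  have hG'2 : ∀ p : Dtop n × (S → ℝ), ε ≤ ‖F0 p‖ → G' p = g0 p := by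
    intro p hp
    by_cases h : ‖p.2‖ ≤ C0 + 2
    · rw [hG'1 p h, hgf _ (by rw [hf']; exact hp), hf']
      show (e0 j, p.2) + g0 p - (e0 j, p.2) = g0 p
      rw [add_sub_cancel_left]
    · exact if_neg h
  refine ⟨G', ?_, ⟨ε + C0, ?_⟩, ?_, ?_⟩
  · have hA : IsClosed {p : Dtop n × (S → ℝ) | ‖p.2‖ ≤ C0 + 2} :=
      isClosed_le continuous_snd.norm continuous_const
    have hB : IsClosed {p : Dtop n × (S → ℝ) | C0 + 1 ≤ ‖p.2‖} :=
      isClosed_le continuous_const continuous_snd.norm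
    have hcA : ContinuousOn G' {p : Dtop n × (S → ℝ) | ‖p.2‖ ≤ C0 + 2} := by
      have h1 : ContinuousOn (fun p : Dtop n × (S → ℝ) =>
          g (B505_rho n p.1, p.2) - (e0 j, p.2)) {p : Dtop n × (S → ℝ) | ‖p.2‖ ≤ C0 + 2} := by
        refine ContinuousOn.sub ?_ (continuous_const.prodMk continuous_snd).continuousOn
        exact hg.comp hemb.continuous.continuousOn fun p hp => hmemK p hp
      exact h1.congr fun p hp => hG'1 p hp
    have hcB : ContinuousOn G' {p : Dtop n × (S → ℝ) | C0 + 1 ≤ ‖p.2‖} :=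
      g0.continuous.continuousOn.congr fun p hp => hG'2 p (hε1.trans (hF1 p hp))
    have h := hcA.union_of_isClosed hcB hA hB
    rw [← continuousOn_univ]
    convert h using 1
    symm
    rw [Set.eq_univ_iff_forall]
    intro p
    by_cases h : ‖p.2‖ ≤ C0 + 2
    · exact Or.inl h
    · right
      show C0 + 1 ≤ ‖p.2‖
      have := not_le.1 h
      linarith
  · intro p
    by_cases h : ‖p.2‖ ≤ C0 + 2
    · rw [hG'1 p h]
      have h1 := hgε _ (hmemK p h)
      rw [hf'] at h1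
      have h2 : g (B505_rho n p.1, p.2) - (e0 j, p.2) =
          (g (B505_rho n p.1, p.2) - F0 p) + g0 p := by
        show _ = (g (B505_rho n p.1, p.2) - ((e0 j, p.2) + g0 p)) + g0 p
        abel
      rw [h2]
      exact (norm_add_le _ _).trans (add_le_add h1.le (hG0C p))
    · have h1 : G' p = g0 p := if_neg h
      rw [h1]
      have := hG0C p
      linarith
  · intro p
    by_cases h : ‖p.2‖ ≤ C0 + 2
    · rw [hG'1 p h, add_sub_cancel]
      exact hgne _ (hmemK p h)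
    · have h1 : G' p = g0 p := if_neg h
      rw [h1]
      have h2 : 1 ≤ ‖F0 p‖ := hF1 p (by have := not_le.1 h; linarith)
      intro h3
      have h4 : F0 p = 0 := h3
      rw [h4, norm_zero] at h2
      linarith
  · intro p hp
    rw [hG'2 p (hεB p hp)]
    exact hG0 p hp

end MM
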