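import Pool.Agent.Lib_MP_33f7bb_d.B502
import Pool.Agent.Lib_MP_33f7bb_d.B505

/-!
# B5-06 (W2): for `n < j` every simplicial map `∂Δ^n → WWT j T` extends to `Δ^n`

Take `G, S, C` from `ww_glue` for `A = bd n`; `geo_bd`.  For `y : S → ℝ` let `y^ : ℕ → ℝ` be the extension by zero.  Put
`G1 (t, y) := ((G (t, y^)).1, fun i => (G (t, y^)).2 i)`: continuous on `∂ × ℝ^S`, bounded (`‖·‖ ≤ max C 0` for the sup norm),
`(e0, y) + G1 ≠ 0` (otherwise `e0 + G.1 = 0` and `y^ + (G (t, y^)).2 = 0`: on `S` by assumption, off `S` both are zero).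
`ext_nonzero` gives `G1'`.  Put `G' (t, x) := ((G1' (t, x|S)).1, (G1' (t, x|S)).2^)`.  It is `IsWW j T`: continuous; finite set `S`;
bounded; nonzero: if `e0 + G'.1 = 0` and `x + G'.2 = 0` then restricting to `S` gives a zero of `(e0, y) + G1'` at `y = x|S`.  It
agrees with `G` on `geo (bd n)` (`G (t, x) = G (t, (x|S)^)` and `G.2` is supported in `S`).  Conclude by `ww_ext_of_glue`.
-/

namespace MM

/-- extension by zero -/
private noncomputable def B506_ext (S : Finset ℕ) (y : S → ℝ) : ℕ → ℝ :=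
  fun i => if h : i ∈ S then y ⟨i, h⟩ else 0

private theorem B506_ext_mem (S : Finset ℕ) (y : S → ℝ) {i : ℕ} (h : i ∈ S) :
    B506_ext S y i = y ⟨i, h⟩ := dif_pos h

private theorem B506_ext_notMem (S : Finset ℕ) (y : S → ℝ) {i : ℕ} (h : i ∉ S) :
    B506_ext S y i = 0 := dif_neg h

private theorem B506_ext_cont (S : Finset ℕ) : Continuous (B506_ext S) := by
  refine continuous_pi fun i => ?_
  by_cases h : i ∈ S
  · have h1 : (fun y : S → ℝ => B506_ext S y i) = fun y => y ⟨i, h⟩ :=
      funext fun y => B506_ext_mem S y h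
    rw [h1]
    exact continuous_apply _
  · have h1 : (fun y : S → ℝ => B506_ext S y i) = fun _ => 0 :=
      funext fun y => B506_ext_notMem S y h
    rw [h1]
    exact continuous_const

/-- restriction -/
private def B506_res (S : Finset ℕ) (x : ℕ → ℝ) : S → ℝ := fun i => x i

private theorem B506_res_cont (S : Finset ℕ) : Continuous (B506_res S) :=
  continuous_pi fun i => continuous_apply (i : ℕ)

/-- the points of the boundary have a zero coordinate -/
private theorem B506_geo (n : ℕ) :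
    geo (bd n) = {t : Dtop n | ∃ i, (t : Fin (n + 1) → ℝ) i = 0} := by
  ext t
  constructor
  · rintro ⟨m, α, s, hα, rfl⟩
    obtain ⟨i, hi⟩ := not_forall.1 (show ¬ Function.Surjective α from hα)
    refine ⟨i, ?_⟩
    rw [tmap_apply_b]
    apply Finset.sum_eq_zero
    intro l _
    rw [if_neg]
    exact fun h => hi ⟨l, h⟩
  · rintro ⟨i, hi⟩
    obtain ⟨k, ι, u, hι, hu, hne⟩ := exists_support t
    refine ⟨k, ι, u, ?_, hu⟩
    show ¬ Function.Surjective ι
    intro hs
    obtain ⟨l, rfl⟩ := hs i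
    rw [← hu, tmap_apply_b, Finset.sum_eq_single l, if_pos rfl] at hi
    · exact hne l hi
    · intro l' _ hl'
      rw [if_neg]
      exact fun h => hl' (hι h)
    · intro h
      exact absurd (Finset.mem_univ _) h

theorem ww_ext_bd (j : ℕ) (T : Set ℕ) (n : ℕ) (hn : n < j) :
    ExtP (WWT j T).ss (bd n) ⊤ := by
  intro f hf
  obtain ⟨G, S, C, hST, hcont, hG, hdep, hsupp, hbd, hne⟩ := ww_glue (bd n) f hf
  rw [B506_geo n] at hcont hdep hsupp hbd hne
  set G1 : Dtop n × (S → ℝ) → (Fin j → ℝ) × (S → ℝ) := fun p =>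
    ((G (p.1, B506_ext S p.2)).1, B506_res S (G (p.1, B506_ext S p.2)).2) with hG1
  have hcontG1 : ContinuousOn G1 {p | ∃ i, (p.1 : Fin (n + 1) → ℝ) i = 0} := by
    have h1 : Continuous fun p : Dtop n × (S → ℝ) => (p.1, B506_ext S p.2) :=
      continuous_fst.prodMk ((B506_ext_cont S).comp continuous_snd)
    have h2 : ContinuousOn (fun p : Dtop n × (S → ℝ) => G (p.1, B506_ext S p.2))
        {p | ∃ i, (p.1 : Fin (n + 1) → ℝ) i = 0} :=
      hcont.comp h1.continuousOn fun p hp => hp
    have h3 : Continuous fun q : (Fin j → ℝ) × (ℕ → ℝ) => (q.1, B506_res S q.2) :=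
      continuous_fst.prodMk ((B506_res_cont S).comp continuous_snd)
    exact h3.comp_continuousOn h2
  have hC0 : 0 ≤ max C 0 := le_max_right _ _
  have hbG1 : ∀ p : Dtop n × (S → ℝ), (∃ i, (p.1 : Fin (n + 1) → ℝ) i = 0) →
      ‖G1 p‖ ≤ max C 0 := by
    intro p hp
    have h1 := hbd p.1 hp (B506_ext S p.2)
    rw [norm_prod_le_iff]
    constructor
    · rw [pi_norm_le_iff_of_nonneg hC0]
      intro i
      exact (h1.1 i).trans (le_max_left _ _)
    · rw [pi_norm_le_iff_of_nonneg hC0]
      intro i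
      exact (h1.2 i).trans (le_max_left _ _)
  have hnG1 : ∀ p : Dtop n × (S → ℝ), (∃ i, (p.1 : Fin (n + 1) → ℝ) i = 0) →
      (e0 j, p.2) + G1 p ≠ 0 := by
    intro p hp h0
    have h1 : e0 j + (G (p.1, B506_ext S p.2)).1 = 0 := congrArg Prod.fst h0
    have h2 : p.2 + B506_res S (G (p.1, B506_ext S p.2)).2 = 0 := congrArg Prod.snd h0
    apply hne p.1 hp (B506_ext S p.2)
    refine ⟨h1, ?_⟩
    funext i
    show B506_ext S p.2 i + (G (p.1, B506_ext S p.2)).2 i = 0
    by_cases hi : i ∈ S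
    · rw [B506_ext_mem S _ hi]
      exact congrFun h2 ⟨i, hi⟩
    · rw [B506_ext_notMem S _ hi, hsupp p.1 hp _ i hi, add_zero]
  obtain ⟨G2, hcont2, ⟨C', hC'⟩, hne2, hag⟩ :=
    ext_nonzero n j hn S G1 hcontG1 (max C 0) hbG1 hnG1
  refine ww_ext_of_glue hG (fun p => ((G2 (p.1, B506_res S p.2)).1,
    B506_ext S (G2 (p.1, B506_res S p.2)).2)) ?_ ?_
  · refine ⟨?_, ⟨S, hST, ?_, ?_⟩, ⟨C', ?_⟩, ?_⟩
    · have h1 : Continuous fun p : Dtop n × (ℕ → ℝ) => (p.1, B506_res S p.2) :=
        continuous_fst.prodMk ((B506_res_cont S).comp continuous_snd)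
      have h2 := hcont2.comp h1
      exact (continuous_fst.comp h2).prodMk ((B506_ext_cont S).comp (continuous_snd.comp h2))
    · intro t x y hxy
      have h1 : B506_res S x = B506_res S y := funext fun i => hxy i.1 i.2
      show ((G2 (t, B506_res S x)).1, B506_ext S (G2 (t, B506_res S x)).2) =
        ((G2 (t, B506_res S y)).1, B506_ext S (G2 (t, B506_res S y)).2)
      rw [h1]
    · intro t x i hi
      exact B506_ext_notMem S _ hi
    · intro t x
      have h0 := hC' (t, B506_res S x)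
      have h1 := norm_prod_le_iff.1 h0
      have hC0' : 0 ≤ C' := (norm_nonneg _).trans h0
      constructor
      · intro i
        exact (norm_le_pi_norm _ i).trans h1.1
      · intro i
        show |B506_ext S (G2 (t, B506_res S x)).2 i| ≤ C'
        by_cases hi : i ∈ S
        · rw [B506_ext_mem S _ hi]
          exact (norm_le_pi_norm (G2 (t, B506_res S x)).2 ⟨i, hi⟩).trans h1.2
        · rw [B506_ext_notMem S _ hi, abs_zero]
          exact hC0'
    · rintro t x ⟨h1, h2⟩
      apply hne2 (t, B506_res S x)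
      refine Prod.ext h1 ?_
      funext i
      have h3 := congrFun h2 i.1
      have h4 : x i.1 + B506_ext S (G2 (t, B506_res S x)).2 i.1 = 0 := h3
      rw [B506_ext_mem S _ i.2] at h4
      exact h4
  · intro t ht x
    rw [B506_geo n] at ht
    have h1 : G (t, B506_ext S (B506_res S x)) = G (t, x) :=
      hdep t ht _ _ fun i hi => B506_ext_mem S _ hi
    have h2 : G2 (t, B506_res S x) = ((G (t, x)).1, B506_res S (G (t, x)).2) := by
      rw [hag (t, B506_res S x) ht, hG1]
      show ((G (t, B506_ext S (B506_res S x))).1,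
        B506_res S (G (t, B506_ext S (B506_res S x))).2) = _
      rw [h1]
    show ((G2 (t, B506_res S x)).1, B506_ext S (G2 (t, B506_res S x)).2) = G (t, x)
    rw [h2]
    refine Prod.ext rfl ?_
    funext i
    show B506_ext S (B506_res S (G (t, x)).2) i = (G (t, x)).2 i
    by_cases hi : i ∈ S
    · rw [B506_ext_mem S _ hi]
      rfl
    · rw [B506_ext_notMem S _ hi, hsupp t ht x i hi]

end MM
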