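import Pool.Agent.Lib_MP_33f7bb_d.B5Def
import Pool.Agent.Lib_MP_33f7bb_d.B1A

/-!
# B5-07: prism filling in a Kan complex

Extension from `A := {0} × Δ^n ∪ Δ^1 × ∂Δ^n` to `Δ^1 × Δ^n`.
For `k ≤ n + 1` let `L_k := {(s, β) | ∀ i, s i = 1 → k ≤ β i}` (a subcomplex) and `F_k := A ⊔ L_k`.  `F_(n+1) = A` (if `s i = 1` for some
`i` then `β i ≥ n + 1` is impossible, so `s = cst 0`), `F_0 = ⊤`.  By descending induction it suffices:
`ExtP P F_(k+1) F_k` for `k ≤ n`.  This follows from `ExtP.relIso` (B1A) and `hP n k` (`IsKan`) for the relative isomorphism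
`φ : Del (n+1) → Δ^1 × Δ^n`, `φ γ = (s_k ∘ γ, sgm k ∘ γ)`, `s_k i = 1 iff k + 1 ≤ i`, from `(horn (n+1) k, ⊤)` to `(F_(k+1), F_k)`:
* `φ γ ∈ L_k`: if `γ i ≥ k + 1` then `sgm k (γ i) = γ i - 1 ≥ k`.
* `γ ∈ horn (n+1) k` (it misses some `j ≠ k`) iff `φ γ ∈ F_(k+1)`: if `γ` misses `j ≠ k, k+1`, then `sgm k ∘ γ` misses `sgm k j`; if
  `γ` misses `k + 1` then `φ γ ∈ L_(k+1)`.  Conversely if `γ` hits every `j ≠ k` then `sgm k ∘ γ` is surjective
  (`sgm k (k+1) = k`), `s_k ∘ γ ≠ cst 0` and the simplex is not in `L_(k+1)` (at an index with `γ i = k + 1`).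
* `φ` is injective: `(s_k, sgm k)` is injective on `[n+1]`.
* `φ` is surjective onto `F_k \ F_(k+1)`: let `(s, β) ∈ L_k`, not in `A`, not in `L_(k+1)`: some `i0` has `s i0 = 1`, `β i0 = k`; if
  `s i = 0` then `i < i0` so `β i ≤ k`.  Take `γ i = β i` if `s i = 0`, `β i + 1` if `s i = 1`.

`kan_square`: `A' := ∂Δ^1 × Δ^1 ∪ Δ^1 × ∂Δ^1`.  With the same notation (`n = 1`): `φ` for `k = 1` is a relative isomorphism from
`(horn 2 1, ⊤)` to `(A', A' ⊔ L_1)`, and `φ` for `k = 0` is one from `(bd 2, ⊤)` to `(A' ⊔ L_1, ⊤)` (now `γ ∈ bd 2` iff `γ` misses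
`0`, `1` or `2`: `φ γ` is then in `{cst 1} × Δ^1`, in `L_1`, in `Δ^1 × {cst 0}` respectively... check: for `k = 0`: vertices of the
triangle: `(0,0), (1,0), (1,1)`; missing `0`: level `1`, in `A'`; missing `1`: `(0,0),(1,1)`: in `L_1`; missing `2`: `β = cst 0`: in `A'`).
-/

namespace MM

private theorem B507_sgm {n : ℕ} (k : Fin (n + 1)) (j : Fin (n + 2)) :
    ((sgm k j : Fin (n + 1)) : ℕ) = if (k : ℕ) < (j : ℕ) then (j : ℕ) - 1 else (j : ℕ) := by
  show ((Fin.predAbove k j : Fin (n + 1)) : ℕ) = _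
  by_cases h : k.castSucc < j
  · rw [Fin.predAbove_of_castSucc_lt _ _ h]
    have h' : (k : ℕ) < (j : ℕ) := h
    rw [if_pos h']
    rfl
  · rw [Fin.predAbove_of_le_castSucc _ _ (not_lt.1 h)]
    have h' : ¬ (k : ℕ) < (j : ℕ) := h
    rw [if_neg h']
    rfl

/-- the first coordinate -/
private def B507_s {n : ℕ} (k : Fin (n + 1)) : Mo (n + 1) 1 :=
  ⟨fun i => if (k : ℕ) < (i : ℕ) then 1 else 0, fun a b hab => by
    have hab' : (a : ℕ) ≤ (b : ℕ) := hab
    by_cases h : (k : ℕ) < (a : ℕ)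
    · have h2 : (k : ℕ) < (b : ℕ) := lt_of_lt_of_le h hab'
      simp only [if_pos h, if_pos h2]
      exact le_rfl
    · simp only [if_neg h]
      exact Fin.zero_le _⟩

private theorem B507_s_val {n : ℕ} (k : Fin (n + 1)) (j : Fin (n + 2)) :
    ((B507_s k j : Fin 2) : ℕ) = if (k : ℕ) < (j : ℕ) then 1 else 0 := by
  show (((if (k : ℕ) < (j : ℕ) then 1 else 0 : Fin 2)) : ℕ) = _
  split_ifs <;> rfl

/-- the map `φ` -/
private def B507_phi {n : ℕ} (k : Fin (n + 1)) : Hom (Del (n + 1)) ((Del 1).prod (Del n)) where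
  app _ γ := ((B507_s k).comp γ, (sgm k).comp γ)
  nat _ _ := rfl

/-- the subcomplex `L_k` -/
private def B507_L (n k : ℕ) : Sub ((Del 1).prod (Del n)) :=
  ⟨fun _ => {x | ∀ i, ((x.1 i : Fin 2) : ℕ) = 1 → k ≤ ((x.2 i : Fin (n + 1)) : ℕ)},
    fun f _ h i hi => h (f i) hi⟩

private theorem B507_ph1 {n m : ℕ} (k : Fin (n + 1)) (γ : Mo m (n + 1)) (i : Fin (m + 1)) :
    ((((B507_phi k).app m γ).1 i : Fin 2) : ℕ) = if (k : ℕ) < (γ i : ℕ) then 1 else 0 :=
  B507_s_val k (γ i)

private theorem B507_ph2 {n m : ℕ} (k : Fin (n + 1)) (γ : Mo m (n + 1)) (i : Fin (m + 1)) :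
    ((((B507_phi k).app m γ).2 i : Fin (n + 1)) : ℕ) =
      if (k : ℕ) < (γ i : ℕ) then (γ i : ℕ) - 1 else (γ i : ℕ) :=
  B507_sgm k (γ i)

private theorem B507_inj {n m : ℕ} (k : Fin (n + 1)) (γ γ' : Mo m (n + 1))
    (h : (B507_phi k).app m γ = (B507_phi k).app m γ') : γ = γ' := by
  apply OrderHom.ext
  funext i
  apply Fin.ext
  have h1 := B507_ph1 k γ i
  have h2 := B507_ph2 k γ i
  rw [h] at h1 h2
  rw [B507_ph1] at h1
  rw [B507_ph2] at h2
  split_ifs at h1 h2 <;> omega

private theorem B507_surj {n m : ℕ} (k : Fin (n + 1)) (s : Mo m 1) (β : Mo m n)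
    (h1 : ∀ i, (s i : ℕ) = 1 → (k : ℕ) ≤ (β i : ℕ))
    (h0 : ∀ i, (s i : ℕ) = 0 → (β i : ℕ) ≤ (k : ℕ)) :
    ∃ γ : Mo m (n + 1), (B507_phi k).app m γ = (s, β) := by
  have hs2 : ∀ i, (s i : ℕ) = 0 ∨ (s i : ℕ) = 1 := fun i => by
    have := (s i).isLt
    omega
  refine ⟨⟨fun i => ⟨(β i : ℕ) + (s i : ℕ), by
    have a := (β i).isLt
    have b := (s i).isLt
    omega⟩, fun a b hab => ?_⟩, ?_⟩
  · have a1 : (β a : ℕ) ≤ (β b : ℕ) := β.monotone hab
    have a2 : (s a : ℕ) ≤ (s b : ℕ) := s.monotone hab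
    show (β a : ℕ) + (s a : ℕ) ≤ (β b : ℕ) + (s b : ℕ)
    omega
  · apply Prod.ext
    · apply OrderHom.ext
      funext i
      apply Fin.ext
      refine (B507_ph1 k _ i).trans ?_
      show (if (k : ℕ) < (β i : ℕ) + (s i : ℕ) then 1 else 0) = (s i : ℕ)
      rcases hs2 i with h | h
      · have := h0 i h
        rw [if_neg (by omega), h]
      · have := h1 i h
        rw [if_pos (by omega), h]
    · apply OrderHom.ext
      funext i
      apply Fin.ext
      refine (B507_ph2 k _ i).trans ?_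
      show (if (k : ℕ) < (β i : ℕ) + (s i : ℕ) then (β i : ℕ) + (s i : ℕ) - 1 else
        (β i : ℕ) + (s i : ℕ)) = (β i : ℕ)
      rcases hs2 i with h | h
      · have := h0 i h
        rw [if_neg (by omega), h]
        rfl
      · have := h1 i h
        rw [if_pos (by omega), h]
        omega

private theorem B507_exists {m : ℕ} {n k : ℕ} {x : ((Del 1).prod (Del n)).S m}
    (hx : x ∉ (B507_L n (k + 1)).car m) :
    ∃ i0, ((x.1 i0 : Fin 2) : ℕ) = 1 ∧ ((x.2 i0 : Fin (n + 1)) : ℕ) ≤ k := by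
  by_contra hc
  apply hx
  intro i hi
  by_contra h
  exact hc ⟨i, hi, by omega⟩

private theorem B507_low {m : ℕ} {n k : ℕ} {x : ((Del 1).prod (Del n)).S m}
    {i0 : Fin (m + 1)} (h1 : ((x.1 i0 : Fin 2) : ℕ) = 1)
    (h2 : ((x.2 i0 : Fin (n + 1)) : ℕ) ≤ k) (i : Fin (m + 1))
    (hi : ((x.1 i : Fin 2) : ℕ) = 0) : ((x.2 i : Fin (n + 1)) : ℕ) ≤ k := by
  have hle : i ≤ i0 := by
    by_contra h
    have a : ((x.1 i0 : Fin 2) : ℕ) ≤ ((x.1 i : Fin 2) : ℕ) := x.1.monotone (not_le.1 h).le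
    omega
  have a : ((x.2 i : Fin (n + 1)) : ℕ) ≤ ((x.2 i0 : Fin (n + 1)) : ℕ) := x.2.monotone hle
  omega

private theorem B507_pt {m : ℕ} {s : Mo m 1} :
    s ∈ (Sub.pt (P := Del 1) (cst 0 : Mo 0 1)).car m ↔ ∀ i, (s i : ℕ) = 0 := by
  constructor
  · intro h i
    have h' : s = (cst 0 : Mo m 1) := h
    rw [h']
    rfl
  · intro h
    show s = (cst 0 : Mo m 1)
    apply OrderHom.ext
    funext i
    exact Fin.ext (h i)

private theorem B507_step {P : SS} (hP : IsKan P) {n : ℕ} (k : Fin (n + 1)) :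
    ExtP P (Sub.box (Sub.pt (P := Del 1) (cst 0 : Mo 0 1)) ⊤ (bd n) ⊤ ⊔ B507_L n (k + 1))
      (Sub.box (Sub.pt (P := Del 1) (cst 0 : Mo 0 1)) ⊤ (bd n) ⊤ ⊔ B507_L n k) := by
  refine ExtP.relIso (B507_phi k) (Sub.le_top' _) ?_ ?_ ?_ ?_ ?_ (hP n k.castSucc)
  · apply Sub.sup_le' (Sub.le_sup_left' _ _)
    intro m x hx
    refine Or.inr fun i hi => ?_
    have := hx i hi
    omega
  · intro m γ _
    refine Or.inr fun i hi => ?_
    rw [B507_ph1] at hi
    rw [B507_ph2]
    split_ifs at hi ⊢ <;> omega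
  · intro m γ _
    constructor
    · intro h
      by_contra hγ
      have hhit : ∀ j : Fin (n + 2), j ≠ k.castSucc → ∃ i, γ i = j := by
        intro j hj
        by_contra hc
        exact hγ ⟨j, hj, fun t ht => hc ⟨t, ht⟩⟩
      obtain ⟨i1, hi1⟩ := hhit k.succ (by
        intro h
        have := congrArg Fin.val h
        simp at this)
      have hi1' : (γ i1 : ℕ) = (k : ℕ) + 1 := by rw [hi1]; rfl
      rcases h with ⟨-, h | h⟩ | h
      · have := (B507_pt.1 h) i1
        rw [B507_ph1, if_pos (by omega)] at this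
        omega
      · apply h
        intro y
        by_cases hy : (y : ℕ) < (k : ℕ)
        · obtain ⟨i, hi⟩ := hhit y.castSucc (by
            intro h
            have := congrArg Fin.val h
            simp only [Fin.val_castSucc] at this
            omega)
          refine ⟨i, Fin.ext ?_⟩
          have hi' : (γ i : ℕ) = (y : ℕ) := by rw [hi]; rfl
          rw [B507_ph2, hi', if_neg (by omega)]
        · obtain ⟨i, hi⟩ := hhit y.succ (by
            intro h
            have := congrArg Fin.val h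
            simp only [Fin.val_castSucc, Fin.val_succ] at this
            omega)
          refine ⟨i, Fin.ext ?_⟩
          have hi' : (γ i : ℕ) = (y : ℕ) + 1 := by rw [hi]; rfl
          rw [B507_ph2, hi', if_pos (by omega)]
          omega
      · have := h i1 (by rw [B507_ph1, if_pos (by omega)])
        rw [B507_ph2, if_pos (by omega)] at this
        omega
    · rintro ⟨j, hj, hm⟩
      have hj' : (j : ℕ) ≠ (k : ℕ) := fun h => hj (Fin.ext h)
      have hm' : ∀ t, (γ t : ℕ) ≠ (j : ℕ) := fun t h => hm t (Fin.ext h)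
      by_cases hjk : (j : ℕ) = (k : ℕ) + 1
      · refine Or.inr fun i hi => ?_
        rw [B507_ph1] at hi
        rw [B507_ph2]
        have := hm' i
        split_ifs at hi ⊢ <;> omega
      · refine Or.inl ⟨⟨trivial, trivial⟩, Or.inr ?_⟩
        intro hs
        have hjl := j.isLt
        have hkl := k.isLt
        obtain ⟨i, hi⟩ := hs ⟨if (k : ℕ) < (j : ℕ) then (j : ℕ) - 1 else (j : ℕ), by
          split_ifs <;> omega⟩
        have hi' := congrArg Fin.val hi
        rw [B507_ph2] at hi'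
        have := hm' i
        simp only at hi'
        split_ifs at hi' <;> omega
  · intro m x _ y _ _ _ h
    exact B507_inj k x y h
  · intro m y hy hyA
    have hL : y ∈ (B507_L n k).car m := hy.resolve_left fun h => hyA (Or.inl h)
    obtain ⟨i0, h1, h2⟩ := B507_exists (k := k) (fun h => hyA (Or.inr h))
    obtain ⟨γ, hγ⟩ := B507_surj k y.1 y.2 hL (B507_low h1 h2)
    exact ⟨γ, trivial, hγ⟩

private theorem B507_all {P : SS} (hP : IsKan P) (n : ℕ) (j : ℕ) : j ≤ n + 1 →
    ExtP P (Sub.box (Sub.pt (P := Del 1) (cst 0 : Mo 0 1)) ⊤ (bd n) ⊤)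
      (Sub.box (Sub.pt (P := Del 1) (cst 0 : Mo 0 1)) ⊤ (bd n) ⊤ ⊔ B507_L n (n + 1 - j)) := by
  induction j with
  | zero =>
    intro _
    have h : Sub.box (Sub.pt (P := Del 1) (cst 0 : Mo 0 1)) ⊤ (bd n) ⊤ ⊔ B507_L n (n + 1 - 0) =
        Sub.box (Sub.pt (P := Del 1) (cst 0 : Mo 0 1)) ⊤ (bd n) ⊤ := by
      apply le_antisymm
      · apply Sub.sup_le' (le_refl _)
        intro m x hx
        refine ⟨⟨trivial, trivial⟩, Or.inl (B507_pt.2 fun i => ?_)⟩
        have h2 := (x.1 i).isLt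
        have h3 := (x.2 i).isLt
        by_contra h
        have := hx i (by omega)
        omega
      · exact Sub.le_sup_left' _ _
    rw [h]
    exact ExtP.refl P _
  | succ j ih =>
    intro hj
    refine ExtP.trans (Sub.le_sup_left' _ _) (ih (by omega)) ?_
    have h := B507_step hP (n := n) ⟨n + 1 - (j + 1), by omega⟩
    have e : n + 1 - (j + 1) + 1 = n + 1 - j := by omega
    simp only at h
    rw [e] at h
    exact h

theorem kan_prism {P : SS} (hP : IsKan P) (n : ℕ) :
    ExtP P (Sub.box (Sub.pt (P := Del 1) (cst 0 : Mo 0 1)) ⊤ (bd n) ⊤)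
      (Sub.bx (⊤ : Sub (Del 1)) (⊤ : Sub (Del n))) := by
  have h := B507_all hP n (n + 1) le_rfl
  have e : Sub.box (Sub.pt (P := Del 1) (cst 0 : Mo 0 1)) ⊤ (bd n) ⊤ ⊔
      B507_L n (n + 1 - (n + 1)) = Sub.bx (⊤ : Sub (Del 1)) (⊤ : Sub (Del n)) := by
    apply le_antisymm
    · intro m x _
      exact ⟨trivial, trivial⟩
    · intro m x _
      refine Or.inr fun i _ => ?_
      omega
  rw [e] at h
  exact h

private theorem B507_bd1 {m : ℕ} {s : Mo m 1} :
    s ∈ (bd 1).car m ↔ (∀ i, (s i : ℕ) = 0) ∨ ∀ i, (s i : ℕ) = 1 := by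
  constructor
  · intro h
    by_contra hc
    push_neg at hc
    obtain ⟨⟨i, hi⟩, ⟨i', hi'⟩⟩ := hc
    have a := (s i).isLt
    have b := (s i').isLt
    apply h
    intro y
    have c := y.isLt
    by_cases hy : (y : ℕ) = 0
    · exact ⟨i', Fin.ext (by omega)⟩
    · exact ⟨i, Fin.ext (by omega)⟩
  · rintro (h | h) hs
    · obtain ⟨i, hi⟩ := hs 1
      have := h i
      rw [hi] at this
      exact absurd this (by decide)
    · obtain ⟨i, hi⟩ := hs 0
      have := h i
      rw [hi] at this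
      exact absurd this (by decide)

theorem kan_square {P : SS} (hP : IsKan P) (h2 : ExtP P (bd 2) ⊤) :
    ExtP P (Sub.box (bd 1) ⊤ (bd 1) ⊤) (Sub.bx (⊤ : Sub (Del 1)) (⊤ : Sub (Del 1))) := by
  have hA : ExtP P (Sub.box (bd 1) ⊤ (bd 1) ⊤) (Sub.box (bd 1) ⊤ (bd 1) ⊤ ⊔ B507_L 1 1) := by
    refine ExtP.relIso (B507_phi (1 : Fin 2)) (Sub.le_top' _) (Sub.le_sup_left' _ _) ?_ ?_ ?_ ?_
      (hP 1 1)
    · intro m γ _
      refine Or.inr fun i hi => ?_
      rw [B507_ph1] at hi
      rw [B507_ph2]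
      have h1 : ((1 : Fin 2) : ℕ) = 1 := rfl
      rw [h1] at hi ⊢
      split_ifs at hi ⊢ <;> omega
    · intro m γ _
      have h1 : ((1 : Fin 2) : ℕ) = 1 := rfl
      constructor
      · intro h
        by_contra hγ
        have hhit : ∀ j : Fin 3, j ≠ 1 → ∃ i, γ i = j := by
          intro j hj
          by_contra hc
          exact hγ ⟨j, hj, fun t ht => hc ⟨t, ht⟩⟩
        obtain ⟨i0, hi0⟩ := hhit 0 (by decide)
        obtain ⟨i2, hi2⟩ := hhit 2 (by decide)
        have e0 : (γ i0 : ℕ) = 0 := by rw [hi0]; rfl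
        have e2 : (γ i2 : ℕ) = 2 := by rw [hi2]; rfl
        rcases h with ⟨-, h | h⟩
        · rcases B507_bd1.1 h with h | h
          · have := h i2
            rw [B507_ph1, h1, e2] at this
            exact absurd this (by decide)
          · have := h i0
            rw [B507_ph1, h1, e0] at this
            exact absurd this (by decide)
        · rcases B507_bd1.1 h with h | h
          · have := h i2
            rw [B507_ph2, h1, e2] at this
            exact absurd this (by decide)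
          · have := h i0
            rw [B507_ph2, h1, e0] at this
            exact absurd this (by decide)
      · rintro ⟨j, hj, hm⟩
        have hj' : (j : ℕ) ≠ 1 := fun h => hj (Fin.ext h)
        have hm' : ∀ t, (γ t : ℕ) ≠ (j : ℕ) := fun t h => hm t (Fin.ext h)
        have hjl := j.isLt
        refine ⟨⟨trivial, trivial⟩, ?_⟩
        by_cases hj0 : (j : ℕ) = 0
        · refine Or.inr (B507_bd1.2 (Or.inr fun i => ?_))
          rw [B507_ph2, h1]
          have a := hm' i
          have b := (γ i).isLt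
          split_ifs <;> omega
        · refine Or.inl (B507_bd1.2 (Or.inl fun i => ?_))
          rw [B507_ph1, h1]
          have a := hm' i
          have b := (γ i).isLt
          rw [if_neg (by omega)]
    · intro m x _ y _ _ _ h
      exact B507_inj 1 x y h
    · intro m y hy hyA
      have hL : y ∈ (B507_L 1 1).car m := hy.resolve_left hyA
      obtain ⟨γ, hγ⟩ := B507_surj (1 : Fin 2) y.1 y.2 hL (fun i _ => by
        show (y.2 i : ℕ) ≤ 1
        have a := (y.2 i).isLt
        omega)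
      exact ⟨γ, trivial, hγ⟩
  refine ExtP.trans (Sub.le_sup_left' _ _) hA ?_
  refine ExtP.relIso (B507_phi (0 : Fin 2)) (A := bd 2) (C := ⊤) (Sub.le_top' _) ?_ ?_ ?_ ?_ ?_ h2
  · intro m x _
    exact ⟨trivial, trivial⟩
  · intro m γ _
    exact ⟨trivial, trivial⟩
  · intro m γ _
    have h1 : ((0 : Fin 2) : ℕ) = 0 := rfl
    constructor
    · intro h hs
      obtain ⟨i0, hi0⟩ := hs 0
      obtain ⟨i1, hi1⟩ := hs 1
      obtain ⟨i2, hi2⟩ := hs 2
      have e0 : (γ i0 : ℕ) = 0 := by rw [hi0]; rfl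
      have e1 : (γ i1 : ℕ) = 1 := by rw [hi1]; rfl
      have e2 : (γ i2 : ℕ) = 2 := by rw [hi2]; rfl
      rcases h with ⟨-, h | h⟩ | h
      · rcases B507_bd1.1 h with h | h
        · have := h i2
          rw [B507_ph1, h1, e2] at this
          exact absurd this (by decide)
        · have := h i0
          rw [B507_ph1, h1, e0] at this
          exact absurd this (by decide)
      · rcases B507_bd1.1 h with h | h
        · have := h i2
          rw [B507_ph2, h1, e2] at this
          exact absurd this (by decide)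
        · have := h i0
          rw [B507_ph2, h1, e0] at this
          exact absurd this (by decide)
      · have := h i1 (by rw [B507_ph1, h1, e1]; rfl)
        rw [B507_ph2, h1, e1] at this
        exact absurd this (by decide)
    · intro hγ
      have hmiss : ∃ j : Fin 3, ∀ i, γ i ≠ j := by
        by_contra hc
        push_neg at hc
        exact hγ hc
      obtain ⟨j, hj⟩ := hmiss
      have hm' : ∀ t, (γ t : ℕ) ≠ (j : ℕ) := fun t h => hj t (Fin.ext h)
      have hjl := j.isLt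
      by_cases hj1 : (j : ℕ) = 1
      · refine Or.inr fun i hi => ?_
        rw [B507_ph1, h1] at hi
        rw [B507_ph2, h1]
        have a := hm' i
        split_ifs at hi ⊢ <;> omega
      · refine Or.inl ⟨⟨trivial, trivial⟩, ?_⟩
        by_cases hj0 : (j : ℕ) = 0
        · refine Or.inl (B507_bd1.2 (Or.inr fun i => ?_))
          rw [B507_ph1, h1]
          have a := hm' i
          rw [if_pos (by omega)]
        · refine Or.inr (B507_bd1.2 (Or.inl fun i => ?_))
          rw [B507_ph2, h1]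
          have a := hm' i
          have b := (γ i).isLt
          split_ifs <;> omega
  · intro m x _ y _ _ _ h
    exact B507_inj 0 x y h
  · intro m y _ hyA
    obtain ⟨i0, h1, h2⟩ := B507_exists (k := 0) (fun h => hyA (Or.inr h))
    have h0 : ((0 : Fin 2) : ℕ) = 0 := rfl
    obtain ⟨γ, hγ⟩ := B507_surj (0 : Fin 2) y.1 y.2 (fun i _ => Nat.zero_le _)
      (fun i hi => B507_low h1 h2 i hi)
    exact ⟨γ, trivial, hγ⟩

end MM
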