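import Pool.Agent.Lib_MP_33f7bb_d.B507
import Pool.Agent.Lib_MP_33f7bb_d.A002

/-!
# B5-08: one step of the deformation to the simplices with trivial 1-skeleton

`redb_zero`: `y ∈ Red.car 0`: take `f = cst 0 : Mo 1 0`; `act f y = deg p0 1`; apply `act (cst 0 : Mo 0 1)`.
`redb_one`: take `f = id`.

`pdef_step`.  `x` of dimension `n`, all proper faces in `B`; `h` is a partial deformation on `B`.
* `n = 0`: the map `∂Δ^1 → P`, `cst 0 ↦ deg x`, `cst 1 ↦ deg p0`, extends to `E` on `Δ^1` (`h1`); `k (s, β) := E s`.  (`β : [m] → [0]` is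
  surjective and `act β x = deg x m`.)
* `n = 1`: on `∂Δ^1 × Δ^1 ∪ Δ^1 × ∂Δ^1` put `f (s, β) = h (s, act β x)` if `β` is not surjective, `act β x` if `s = cst 0`, `deg p0 m` if
  `s = cst 1`.  These agree on overlaps: `h (cst 0, act β x) = act β x` (`zero`); for `β` constant (`β = cst i`)
  `act β x = deg v m` with a vertex `v = act (cst i) x` of `B` and
  `h m (cst 1, deg v m) = act (cst 0) (h 0 (cst 1, v)) = deg p0 m` (naturality, `one`, `redb_zero`).  `f` is natural on the box; extend by
  `kan_square`.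
* `n ≥ 2`: on `{0} × Δ^n ∪ Δ^1 × ∂Δ^n` put `f (s, β) = h (s, act β x)` if `β` is not surjective, and `act β x` if `s = cst 0`; extend by
  `kan_prism` to `k`.  For `k m (cst 1, β) ∈ Red`: an edge `e : Mo 1 m` gives `act e (k m (cst 1, β)) = k 1 (cst 1, β.comp e)`, and
  `β.comp e : [1] → [n]` is not surjective, so it is `h 1 (cst 1, act (β.comp e) x) ∈ Red.car 1`, i.e. `deg p0 1` (`redb_one`).
-/

namespace MM

theorem redb_zero {P : SS} {p0 : P.S 0} {y : P.S 0} (hy : y ∈ (Red p0).car 0) : y = p0 := by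
  have h := hy (cst 0 : Mo 1 0)
  have h1 := congrArg (P.act (cst 0 : Mo 0 1)) h
  rw [P.act_comp, SS.act_deg] at h1
  have e1 : ((cst 0 : Mo 1 0).comp (cst 0 : Mo 0 1)) = OrderHom.id := by
    ext i
    simp [cst]
  rw [e1, P.act_id] at h1
  rw [h1]
  show P.act (cst 0 : Mo 0 0) p0 = p0
  have e2 : (cst 0 : Mo 0 0) = OrderHom.id := by
    ext i
    simp [cst]
  rw [e2, P.act_id]

theorem redb_one {P : SS} {p0 : P.S 0} {y : P.S 1} (hy : y ∈ (Red p0).car 1) : y = P.deg p0 1 := by
  have h := hy OrderHom.id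
  rwa [P.act_id] at h

theorem base_mem_red {P : SS} (p0 : P.S 0) (n : ℕ) : P.deg p0 n ∈ (Red p0).car n := by
  intro f
  exact SS.act_deg p0 f

private theorem B508_const {m : ℕ} (s : Mo m 1) (hs : ¬ Function.Surjective s) :
    s = cst 0 ∨ s = cst 1 := by
  rw [Function.Surjective] at hs
  push Not at hs
  obtain ⟨j, hj⟩ := hs
  have h2 : ∀ a : Fin 2, a = 0 ∨ a = 1 := by decide
  rcases h2 j with h | h
  · right
    refine OrderHom.ext _ _ (funext fun t => ?_)
    rcases h2 (s t) with h3 | h3
    · exact absurd (h3.trans h.symm) (hj t)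
    · exact h3
  · left
    refine OrderHom.ext _ _ (funext fun t => ?_)
    rcases h2 (s t) with h3 | h3
    · exact h3
    · exact absurd (h3.trans h.symm) (hj t)

private theorem B508_const_not {m n : ℕ} (i : Fin (n + 2)) :
    ¬ Function.Surjective (cst i : Mo m (n + 1)) := by
  intro h
  obtain ⟨t, ht⟩ := h 0
  obtain ⟨t', ht'⟩ := h 1
  have h1 : i = 0 := ht
  have h2 : i = 1 := ht'
  rw [h1] at h2
  exact absurd h2 (by simp)

private theorem B508_ne {m : ℕ} : (cst 1 : Mo m 1) ≠ cst 0 := by
  intro h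
  have h1 : (1 : Fin 2) = 0 := congrArg (fun f : Mo m 1 => f 0) h
  exact absurd h1 (by decide)

private theorem B508_deg {P : SS} {p0 : P.S 0} {B : Sub P} {h : Fn ((Del 1).prod P) P}
    (hB : PDef p0 B h) {v : P.S 0} (hv : v ∈ B.car 0) (m : ℕ) :
    h m (cst 1, P.deg v m) = P.deg p0 m := by
  have h1 : h m (cst 1, P.deg v m) = P.act (cst 0 : Mo m 0) (h 0 (cst 1, v)) :=
    hB.nat (cst 0 : Mo m 0) ((cst 1 : Mo 0 1), v) ⟨trivial, hv⟩
  rw [h1, redb_zero (hB.one 0 v hv)]
  rfl

private theorem B508_nat {P : SS} {p0 : P.S 0} {B : Sub P} {h : Fn ((Del 1).prod P) P}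
    (hB : PDef p0 B h) {m n : ℕ} (g : Mo m n) (s : Mo n 1) {y : P.S n} (hy : y ∈ B.car n) :
    h m (s.comp g, P.act g y) = P.act g (h n (s, y)) :=
  hB.nat g (s, y) ⟨trivial, hy⟩

theorem pdef_step {P : SS} (hP : IsKan P) (h1 : ExtP P (bd 1) ⊤) (h2 : ExtP P (bd 2) ⊤)
    (p0 : P.S 0) {B : Sub P} {h : Fn ((Del 1).prod P) P} (hB : PDef p0 B h) {n : ℕ} (x : P.S n)
    (hf : ∀ (m : ℕ) (f : Mo m n), ¬ Function.Surjective f → P.act f x ∈ B.car m) :
    ∃ k : Fn ((Del 1).prod (Del n)) P, NatOn ⊤ k ∧
      (∀ m s (β : Mo m n), ¬ Function.Surjective β → k m (s, β) = h m (s, P.act β x)) ∧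
      (∀ m (β : Mo m n), k m (cst 0, β) = P.act β x) ∧
      ∀ m (β : Mo m n), k m (cst 1, β) ∈ (Red p0).car m := by
  classical
  have hns : ∀ {l m : ℕ} (β : Mo m n) (g : Mo l m), ¬ Function.Surjective β →
      ¬ Function.Surjective (β.comp g) := by
    intro l m β g hβ h3
    refine hβ fun y => ?_
    obtain ⟨t, ht⟩ := h3 y
    exact ⟨g t, ht⟩
  rcases n with _ | _ | n
  · -- dimension 0
    have hf0 : NatOn (bd 1) (fun m (s : Mo m 1) => if s = cst 0 then P.deg x m else P.deg p0 m) := by
      intro l m g s hs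
      show (if OrderHom.comp s g = cst 0 then P.deg x l else P.deg p0 l) =
        P.act g (if s = cst 0 then P.deg x m else P.deg p0 m)
      rcases B508_const s hs with h3 | h3
      · rw [h3, if_pos rfl, SS.act_deg]
        exact if_pos rfl
      · rw [h3, if_neg B508_ne, SS.act_deg]
        exact if_neg B508_ne
    obtain ⟨E, hE, hE1⟩ := h1 (fun m (s : Mo m 1) => if s = cst 0 then P.deg x m else P.deg p0 m)
      (fun g y hy => hf0 g y hy)
    have hE0 : ∀ m, E m (cst 0 : Mo m 1) = P.deg x m := by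
      intro m
      rw [hE1 m (cst 0 : Mo m 1) (B508_const_not 0)]
      exact if_pos rfl
    have hE2 : ∀ m, E m (cst 1 : Mo m 1) = P.deg p0 m := by
      intro m
      rw [hE1 m (cst 1 : Mo m 1) (B508_const_not 1)]
      exact if_neg B508_ne
    refine ⟨fun m p => E m p.1, ?_, ?_, ?_, ?_⟩
    · intro l m g p _
      exact hE g p.1 trivial
    · intro m s β hβ
      exact absurd (fun y => ⟨0, Subsingleton.elim (α := Fin 1) _ _⟩) hβ
    · intro m β
      show E m (cst 0 : Mo m 1) = _
      rw [hE0]
      have e : β = cst 0 := OrderHom.ext _ _ (funext fun t => Subsingleton.elim (α := Fin 1) _ _)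
      rw [e]
      rfl
    · intro m β
      show E m (cst 1 : Mo m 1) ∈ _
      rw [hE2]
      exact base_mem_red p0 m
  · -- dimension 1
    have hc1 : ∀ {m : ℕ} (β : Mo m 1), ¬ Function.Surjective β →
        h m (cst 1, P.act β x) = P.deg p0 m := by
      intro m β hβ
      obtain ⟨i, hi⟩ : ∃ i : Fin 2, β = cst i := by
        rcases B508_const β hβ with h3 | h3
        · exact ⟨0, h3⟩
        · exact ⟨1, h3⟩
      have hv : P.act (cst i : Mo 0 1) x ∈ B.car 0 := hf 0 _ (B508_const_not i)
      have e : P.act β x = P.deg (P.act (cst i : Mo 0 1) x) m := by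
        rw [hi]
        show _ = P.act (cst 0) (P.act (cst i : Mo 0 1) x)
        rw [P.act_comp]
        rfl
      rw [e]
      exact B508_deg hB hv m
    have hfn : NatOn (Sub.box (bd 1) ⊤ (bd 1) ⊤) (fun m (p : ((Del 1).prod (Del 1)).S m) =>
        if p.1 = cst 0 then P.act p.2 x else if p.1 = cst 1 then P.deg p0 m
          else h m (p.1, P.act p.2 x)) := by
      rintro l m g ⟨s, β⟩ ⟨-, hsb⟩
      show (if OrderHom.comp s g = cst 0 then P.act (OrderHom.comp β g) x
        else if OrderHom.comp s g = cst 1 then P.deg p0 l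
          else h l (OrderHom.comp s g, P.act (OrderHom.comp β g) x)) =
        P.act g (if s = cst 0 then P.act β x else if s = cst 1 then P.deg p0 m
          else h m (s, P.act β x))
      by_cases hs0 : s = cst 0
      · rw [hs0, if_pos rfl, P.act_comp]
        exact if_pos rfl
      rw [if_neg hs0]
      by_cases hs1 : s = cst 1
      · rw [hs1, if_pos rfl, SS.act_deg]
        exact (if_neg B508_ne).trans (if_pos rfl)
      rw [if_neg hs1]
      have hβ : ¬ Function.Surjective β := by
        rcases hsb with h3 | h3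
        · rcases B508_const s h3 with h4 | h4
          · exact absurd h4 hs0
          · exact absurd h4 hs1
        · exact h3
      have hmem := hf m β hβ
      have hnat := B508_nat hB g s hmem
      rw [← hnat, P.act_comp]
      have hmem' := hf l (β.comp g) (hns β g hβ)
      by_cases h3 : OrderHom.comp s g = cst 0
      · rw [if_pos h3, h3]
        exact (hB.zero l _ hmem').symm
      rw [if_neg h3]
      by_cases h4 : OrderHom.comp s g = cst 1
      · rw [if_pos h4, h4]
        exact (hc1 (β.comp g) (hns β g hβ)).symm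
      rw [if_neg h4]
    obtain ⟨k, hk, hk1⟩ := kan_square hP h2 (fun m (p : ((Del 1).prod (Del 1)).S m) =>
        if p.1 = cst 0 then P.act p.2 x else if p.1 = cst 1 then P.deg p0 m
          else h m (p.1, P.act p.2 x)) (fun g y hy => hfn g y hy)
    refine ⟨k, fun g p _ => hk g p ⟨trivial, trivial⟩, ?_, ?_, ?_⟩
    · intro m s β hβ
      have h3 := hk1 m (s, β) ⟨⟨trivial, trivial⟩, Or.inr hβ⟩
      refine h3.trans ?_
      show (if s = cst 0 then P.act β x else if s = cst 1 then P.deg p0 m
          else h m (s, P.act β x)) = _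
      by_cases hs0 : s = cst 0
      · rw [if_pos hs0, hs0]
        exact (hB.zero m _ (hf m β hβ)).symm
      rw [if_neg hs0]
      by_cases hs1 : s = cst 1
      · rw [if_pos hs1, hs1]
        exact (hc1 β hβ).symm
      rw [if_neg hs1]
    · intro m β
      have h3 := hk1 m (cst 0, β) ⟨⟨trivial, trivial⟩, Or.inl (B508_const_not 0)⟩
      exact h3.trans (if_pos rfl)
    · intro m β
      have h3 := hk1 m (cst 1, β) ⟨⟨trivial, trivial⟩, Or.inl (B508_const_not 1)⟩
      have h4 : k m (cst 1, β) = P.deg p0 m :=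
        h3.trans ((if_neg B508_ne).trans (if_pos rfl))
      rw [h4]
      exact base_mem_red p0 m
  · -- dimension at least 2
    have hfn : NatOn (Sub.box (Sub.pt (P := Del 1) (cst 0 : Mo 0 1)) ⊤ (bd (n + 2)) ⊤)
        (fun m (p : ((Del 1).prod (Del (n + 2))).S m) =>
        if p.1 = cst 0 then P.act p.2 x else h m (p.1, P.act p.2 x)) := by
      rintro l m g ⟨s, β⟩ ⟨-, hsb⟩
      show (if OrderHom.comp s g = cst 0 then P.act (OrderHom.comp β g) x
          else h l (OrderHom.comp s g, P.act (OrderHom.comp β g) x)) =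
        P.act g (if s = cst 0 then P.act β x else h m (s, P.act β x))
      by_cases hs0 : s = cst 0
      · rw [hs0, if_pos rfl, P.act_comp]
        exact if_pos rfl
      rw [if_neg hs0]
      have hβ : ¬ Function.Surjective β := by
        rcases hsb with h3 | h3
        · exact absurd h3 hs0
        · exact h3
      have hmem := hf m β hβ
      have hnat := B508_nat hB g s hmem
      rw [← hnat, P.act_comp]
      have hmem' := hf l (β.comp g) (hns β g hβ)
      by_cases h3 : OrderHom.comp s g = cst 0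
      · rw [if_pos h3, h3]
        exact (hB.zero l _ hmem').symm
      rw [if_neg h3]
    obtain ⟨k, hk, hk1⟩ := kan_prism hP (n + 2) (fun m (p : ((Del 1).prod (Del (n + 2))).S m) =>
        if p.1 = cst 0 then P.act p.2 x else h m (p.1, P.act p.2 x)) (fun g y hy => hfn g y hy)
    have hk2 : ∀ m s (β : Mo m (n + 2)), ¬ Function.Surjective β →
        k m (s, β) = h m (s, P.act β x) := by
      intro m s β hβ
      have h3 := hk1 m (s, β) ⟨⟨trivial, trivial⟩, Or.inr hβ⟩
      refine h3.trans ?_
      show (if s = cst 0 then P.act β x else h m (s, P.act β x)) = _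
      by_cases hs0 : s = cst 0
      · rw [if_pos hs0, hs0]
        exact (hB.zero m _ (hf m β hβ)).symm
      rw [if_neg hs0]
    refine ⟨k, fun g p _ => hk g p ⟨trivial, trivial⟩, hk2, ?_, ?_⟩
    · intro m β
      have h3 := hk1 m (cst 0, β) ⟨⟨trivial, trivial⟩, Or.inl rfl⟩
      exact h3.trans (if_pos rfl)
    · intro m β e
      have h3 : k 1 (cst 1, β.comp e) = P.act e (k m (cst 1, β)) :=
        hk e ((cst 1 : Mo m 1), β) ⟨trivial, trivial⟩
      have h4 : ¬ Function.Surjective (β.comp e) := by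
        intro h5
        have h6 := Fintype.card_le_of_surjective _ h5
        simp only [Fintype.card_fin] at h6
        omega
      rw [← h3, hk2 1 (cst 1) (β.comp e) h4]
      exact redb_one (hB.one 1 _ (hf 1 _ h4))

end MM
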