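import Pool.Agent.Lib_MP_33f7bb_d.B508

/-!
# B5-09 (W3): the simplices with trivial 1-skeleton form a deformation retract

Zorn on the pairs `(B, h)` with `Red p0 ≤ B`, `PDef p0 B h`; order: `B ≤ B'` and `h' = h` on `Δ^1 × B`.  Start: `B = Red p0`,
`h (s, x) = x`.  Chains: union of the `B`'s (nonempty chain), `h (s, x)` = the common value (choice of a member of the chain
containing `x`).  Let `(B, h)` be maximal; suppose `B ≠ ⊤`.  `exists_next` (A002): a nondegenerate `x ∉ B` of degree `n` all of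
whose proper faces are in `B`.  `pdef_step` gives `k`.  `B' := B ⊔ gen1 x` (`Sub.gen1` in B1A: the simplices `act β x`).  Every
simplex of `B' \ B` is `act β x` with `β` surjective, uniquely (`ez_unique`: `x` is nondegenerate), and for `β` not surjective
`act β x ∈ B`.  `h' (s, z) := h (s, z)` for `z ∈ B`, `k (s, β)` for `z = act β x`, `β` surjective, `z ∉ B`.  Note `act β x ∉ B` for surjective `β`
(`act_mem_iff`).  For ALL `β : Mo m n`: `h' (s, act β x) = k (s, β)` (for `β` not surjective by the second property of `k`), so `h'` is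
natural on `Δ^1 × B'` (`Hom`-like: `k` natural), `zero`, `one` hold by the third and fourth property; `fix`: a simplex of
`Red p0` is in `B`.  Contradiction to maximality.
Finally `H` is the `Hom` given by `h` for `B = ⊤`.
-/

namespace MM

/-- one step: adding a nondegenerate simplex -/
private theorem B509_step {P : SS} (hP : IsKan P) (h1 : ExtP P (bd 1) ⊤) (h2 : ExtP P (bd 2) ⊤)
    (p0 : P.S 0) {B : Sub P} {h : Fn ((Del 1).prod P) P} (hR : Red p0 ≤ B) (hB : PDef p0 B h)
    {n : ℕ} (x : P.S n) (hxB : x ∉ B.car n) (hnd : NonDeg x)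
    (hf : ∀ (m : ℕ) (f : Mo m n), ¬ Function.Surjective f → P.act f x ∈ B.car m) :
    ∃ h' : Fn ((Del 1).prod P) P, PDef p0 (B ⊔ Sub.gen1 x) h' ∧
      ∀ m s, ∀ z ∈ B.car m, h' m (s, z) = h m (s, z) := by
  classical
  obtain ⟨k, hk, hkf, hk0, hk1⟩ := pdef_step hP h1 h2 p0 hB x hf
  let h' : Fn ((Del 1).prod P) P := fun m y =>
    if y.2 ∈ B.car m then h m y else
      if hz : ∃ β : Mo m n, y.2 = P.act β x then k m (y.1, hz.choose) else h m y
  have hA : ∀ m s, ∀ z ∈ B.car m, h' m (s, z) = h m (s, z) := fun m s z hz => if_pos hz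
  have hG : ∀ (m : ℕ) (s : Mo m 1) (β : Mo m n), h' m (s, P.act β x) = k m (s, β) := by
    intro m s β
    by_cases hz : P.act β x ∈ B.car m
    · rw [hA m s _ hz]
      have hns : ¬ Function.Surjective β := fun hs => hxB ((act_mem_iff B β hs x).1 hz)
      exact (hkf m s β hns).symm
    · have hz' : ∃ γ : Mo m n, P.act β x = P.act γ x := ⟨β, rfl⟩
      have e1 : h' m (s, P.act β x) = k m (s, hz'.choose) := by
        show (if _ then _ else _) = _
        rw [if_neg hz, dif_pos hz']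
      have hc := hz'.choose_spec
      have s1 : Function.Surjective β := by
        by_contra hs
        exact hz (hf m β hs)
      have s2 : Function.Surjective hz'.choose := by
        by_contra hs
        exact hz (by rw [hc]; exact hf m _ hs)
      rw [e1, ← (ez_unique β hz'.choose x x s1 s2 hnd hnd hc).1]
  refine ⟨h', ⟨?_, ?_, ?_, ?_⟩, hA⟩
  · rintro l m g ⟨s, z⟩ ⟨-, hz⟩
    show h' l (s.comp g, P.act g z) = P.act g (h' m (s, z))
    rcases hz with hz | ⟨β, rfl⟩
    · rw [hA l _ _ (B.closed g hz), hA m s z hz]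
      exact hB.nat g (s, z) ⟨trivial, hz⟩
    · rw [hG m s β, P.act_comp, hG l (s.comp g) (β.comp g)]
      exact hk g (s, β) trivial
  · rintro m z (hz | ⟨β, rfl⟩)
    · rw [hA m _ z hz]; exact hB.zero m z hz
    · rw [hG m (cst 0) β]; exact hk0 m β
  · rintro m z (hz | ⟨β, rfl⟩)
    · rw [hA m _ z hz]; exact hB.one m z hz
    · rw [hG m (cst 1) β]; exact hk1 m β
  · intro m s z _ hz
    rw [hA m s z (hR m hz)]
    exact hB.fix m s z (hR m hz) hz

theorem exists_deformation {P : SS} (hP : IsKan P) (h1 : ExtP P (bd 1) ⊤) (h2 : ExtP P (bd 2) ⊤)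
    (p0 : P.S 0) :
    ∃ H : Hom ((Del 1).prod P) P, (∀ n x, H.app n (cst 0, x) = x) ∧
      (∀ n x, H.app n (cst 1, x) ∈ (Red p0).car n) ∧
      ∀ n s, ∀ x ∈ (Red p0).car n, H.app n (s, x) = x := by
  classical
  let T := {p : Sub P × Fn ((Del 1).prod P) P // Red p0 ≤ p.1 ∧ PDef p0 p.1 p.2}
  let r : T → T → Prop := fun a b => a.1.1 ≤ b.1.1 ∧
    ∀ n s, ∀ x ∈ a.1.1.car n, b.1.2 n (s, x) = a.1.2 n (s, x)
  have htrans : ∀ {a b c : T}, r a b → r b c → r a c := by
    rintro a b c ⟨h1, h2⟩ ⟨h3, h4⟩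
    exact ⟨h1.trans h3, fun n s x hx => by rw [h4 n s x (h1 n hx), h2 n s x hx]⟩
  have hchain : ∀ c : Set T, IsChain r c → ∃ ub, ∀ a ∈ c, r a ub := by
    intro c hc
    rcases c.eq_empty_or_nonempty with rfl | hne
    · refine ⟨⟨(Red p0, fun n x => x.2), le_rfl, ?_⟩, fun a ha => ha.elim⟩
      exact ⟨fun g x _ => rfl, fun _ _ _ => rfl, fun _ _ hx => hx, fun _ _ _ _ _ => rfl⟩
    · have hcomp : ∀ a ∈ c, ∀ b ∈ c, ∀ n s, ∀ x ∈ a.1.1.car n, x ∈ b.1.1.car n →
          a.1.2 n (s, x) = b.1.2 n (s, x) := by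
        intro a ha b hb n s x hxa hxb
        by_cases hab : a = b
        · rw [hab]
        rcases hc ha hb hab with h | h
        · exact (h.2 n s x hxa).symm
        · exact h.2 n s x hxb
      let U : Sub P := Sub.sUn ((fun a : T => a.1.1) '' c)
      let g : Fn ((Del 1).prod P) P := fun n y => if hx : ∃ a ∈ c, y.2 ∈ a.1.1.car n then
        hx.choose.1.2 n y else y.2
      have hle : ∀ a ∈ c, a.1.1 ≤ U := fun a ha n x hx => ⟨a.1.1, ⟨a, ha, rfl⟩, hx⟩
      have hg : ∀ a ∈ c, ∀ n s, ∀ x ∈ a.1.1.car n, g n (s, x) = a.1.2 n (s, x) := by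
        intro a ha n s x hx
        have hx' : ∃ a ∈ c, x ∈ a.1.1.car n := ⟨a, ha, hx⟩
        have e1 : g n (s, x) = hx'.choose.1.2 n (s, x) := dif_pos hx'
        rw [e1]
        exact hcomp _ hx'.choose_spec.1 a ha n s x hx'.choose_spec.2 hx
      have hcov : ∀ n, ∀ x ∈ U.car n, ∃ a ∈ c, x ∈ a.1.1.car n := by
        rintro n x ⟨L, ⟨a, ha, rfl⟩, hL⟩
        exact ⟨a, ha, hL⟩
      obtain ⟨a₀, ha₀⟩ := hne
      refine ⟨⟨(U, g), a₀.2.1.trans (hle a₀ ha₀), ⟨?_, ?_, ?_, ?_⟩⟩,
        fun a ha => ⟨hle a ha, ?_⟩⟩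
      · rintro m n q ⟨s, x⟩ ⟨-, hx⟩
        obtain ⟨a, ha, hxa⟩ := hcov n x hx
        show g m (s.comp q, P.act q x) = P.act q (g n (s, x))
        rw [hg a ha m _ _ (a.1.1.closed q hxa), hg a ha n s x hxa]
        exact a.2.2.nat q (s, x) ⟨trivial, hxa⟩
      · intro n x hx
        obtain ⟨a, ha, hxa⟩ := hcov n x hx
        show g n (cst 0, x) = x
        rw [hg a ha n _ x hxa]
        exact a.2.2.zero n x hxa
      · intro n x hx
        obtain ⟨a, ha, hxa⟩ := hcov n x hx
        show g n (cst 1, x) ∈ _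
        rw [hg a ha n _ x hxa]
        exact a.2.2.one n x hxa
      · intro n s x hx hxR
        obtain ⟨a, ha, hxa⟩ := hcov n x hx
        show g n (s, x) = x
        rw [hg a ha n s x hxa]
        exact a.2.2.fix n s x hxa hxR
      · intro n s x hx
        exact hg a ha n s x hx
  obtain ⟨m, hm⟩ := exists_maximal_of_chains_bounded hchain htrans
  have htop : (⊤ : Sub P) ≤ m.1.1 := by
    by_contra hne
    obtain ⟨n, x, -, hxB, hnd, hface⟩ := exists_next (Sub.le_top' m.1.1) hne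
    obtain ⟨h', hh', hh⟩ := B509_step hP h1 h2 p0 m.2.1 m.2.2 x hxB hnd hface
    let m' : T := ⟨(m.1.1 ⊔ Sub.gen1 x, h'), m.2.1.trans (Sub.le_sup_left' _ _), hh'⟩
    have h3 : r m m' := ⟨Sub.le_sup_left' _ _, hh⟩
    have h4 := hm m' h3
    exact hxB (h4.1 n (Or.inr (Sub.mem_gen1 x)))
  refine ⟨⟨m.1.2, fun {a b} f x => m.2.2.nat f x ⟨trivial, htop _ trivial⟩⟩, ?_, ?_, ?_⟩
  · exact fun n x => m.2.2.zero n x (htop n trivial)
  · exact fun n x => m.2.2.one n x (htop n trivial)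
  · exact fun n s x hx => m.2.2.fix n s x (htop n trivial) hx

end MM
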