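import Pool.Agent.Lib_MP_33f7bb_d.B5Def

/-!
# B5-10 (W4): the function `thF F` of a configuration of boxes with labels is a simplex of `WWT j (T ∪ D)`

`0 ≤ chi1, chi2 ≤ 1`; `chi1 u ≠ 0` implies `u < 2/3` and then `chi2 u = 1`; `chi2 u ≠ 0` implies `u < 1`; `chi1 0 = chi2 0 = 1`.
For a box `(v, κ)` with support in the finite set `S' ⊆ D`, all factors of `thA`, `thB` with `i ∉ S'` are `1`, so
`thA v κ x = ∏ i ∈ S', chi1 (κ i * |x i - v i|)` (`finprod_eq_prod_of_mulSupport_subset`); continuous in `(t, x)`; `0 ≤ thA, thB ≤ 1`.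
If `thA ≠ 0` or `thB ≠ 0` then `x` is in the region of the box (all `κ i * |x i - v i| < 1`).
* `cont`: finite sum of continuous functions (`min`, norm, products, `continuous_pi` for the second component:
  coordinate `i` of `thS`).
* `fin`: `S :=` union over the finitely many `q ∈ F` of the finite sets of the label and of the box.  `thA (.., x)`, `thB (.., x)` depend only
  on `x i`, `i ∈ S'`; the labels on `x i`, `i ∈ S`; second components are supported in `S`.
* `bdd`: labels are bounded, `v` is bounded on the compact `Dtop m` (finitely many nonzero coordinates, each continuous).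
* `ne`: suppose `e0 + (thF F (t,x)).1 = 0` and `x + (thF F (t,x)).2 = 0`.  If no `q ∈ F` has `x` in the region of its box at `t` then
  `thF F (t,x) = 0` and `e0 = 0`: contradiction (`hj`).  Otherwise there is exactly one such `q = (β, g)` (`hF.disj`), and `thF F (t,x) =
  thS v κ y x` with `y = g (t, x)`, `v = v(t)`, `κ = κ(t)`.  `e0 + thA • y.1 = 0` and `‖e0‖ = 1` give `thA ≠ 0`, `‖y.1‖ ≥ 1`
  (`0 ≤ thA ≤ 1`), so `min 1 (2‖y.1‖) = 1`, and `thB = 1` (every factor is `1`).  For `i ∈ D`: `y.2 i = 0` (it is supported in `T`, disjoint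
  from `D`), so `0 = x i + thA * 0 - v i`, `x i = v i`.  For `i ∉ D`: `κ i = 0`.  So all factors of `thA` are `chi1 0 = 1`, `thA = 1`.  Hence
  `e0 + y.1 = 0` and, for `i ∈ T` (`v i = 0` there), `x i + y.2 i = 0`.  Let `x' i = x i` for `i ∈ T`, `0` otherwise.  `g (t, x') = g (t, x) = y` (the
  label depends only on coordinates in a finite subset of `T`), `x' + y.2 = 0` (off `T` both vanish): contradiction to the property
  `ne` of `g` at `(t, x')`.
-/

namespace MM

private theorem B510_chi1_nonneg (u : ℝ) : 0 ≤ chi1 u := le_max_left _ _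

private theorem B510_chi2_nonneg (u : ℝ) : 0 ≤ chi2 u := le_max_left _ _

private theorem B510_chi1_le (u : ℝ) : chi1 u ≤ 1 := max_le zero_le_one (min_le_left _ _)

private theorem B510_chi2_le (u : ℝ) : chi2 u ≤ 1 := max_le zero_le_one (min_le_left _ _)

private theorem B510_chi1_zero : chi1 0 = 1 := by
  unfold chi1
  rw [min_eq_left (by norm_num), max_eq_right (by norm_num)]

private theorem B510_chi2_zero : chi2 0 = 1 := by
  unfold chi2
  rw [min_eq_left (by norm_num), max_eq_right (by norm_num)]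

private theorem B510_chi1_cont : Continuous chi1 := by
  unfold chi1
  fun_prop

private theorem B510_chi2_cont : Continuous chi2 := by
  unfold chi2
  fun_prop

private theorem B510_chi1_ne {u : ℝ} (h : chi1 u ≠ 0) : u < 2 / 3 := by
  by_contra hu
  rw [not_lt] at hu
  apply h
  unfold chi1
  exact max_eq_left ((min_le_right _ _).trans (by linarith))

private theorem B510_chi2_ne {u : ℝ} (h : chi2 u ≠ 0) : u < 1 := by
  by_contra hu
  rw [not_lt] at hu
  apply h
  unfold chi2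
  exact max_eq_left ((min_le_right _ _).trans (by linarith))

private theorem B510_chi2_one {u : ℝ} (h : u < 2 / 3) : chi2 u = 1 := by
  unfold chi2
  rw [min_eq_left (by linarith), max_eq_right (by norm_num)]

private theorem B510_thA_eq (v κ x : ℕ → ℝ) (S : Finset ℕ) (hS : ∀ i ∉ S, κ i = 0) :
    thA v κ x = ∏ i ∈ S, chi1 (κ i * |x i - v i|) := by
  unfold thA
  apply finprod_eq_prod_of_mulSupport_subset
  intro i hi
  by_contra h
  apply hi
  show chi1 (κ i * |x i - v i|) = 1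
  rw [hS i h, zero_mul, B510_chi1_zero]

private theorem B510_thB_eq (v κ x : ℕ → ℝ) (S : Finset ℕ) (hS : ∀ i ∉ S, κ i = 0) :
    thB v κ x = ∏ i ∈ S, chi2 (κ i * |x i - v i|) := by
  unfold thB
  apply finprod_eq_prod_of_mulSupport_subset
  intro i hi
  by_contra h
  apply hi
  show chi2 (κ i * |x i - v i|) = 1
  rw [hS i h, zero_mul, B510_chi2_zero]

private theorem B510_thA_nonneg (v κ x : ℕ → ℝ) (S : Finset ℕ) (hS : ∀ i ∉ S, κ i = 0) :
    0 ≤ thA v κ x := by
  rw [B510_thA_eq v κ x S hS]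
  exact Finset.prod_nonneg fun i _ => B510_chi1_nonneg _

private theorem B510_thB_nonneg (v κ x : ℕ → ℝ) (S : Finset ℕ) (hS : ∀ i ∉ S, κ i = 0) :
    0 ≤ thB v κ x := by
  rw [B510_thB_eq v κ x S hS]
  exact Finset.prod_nonneg fun i _ => B510_chi2_nonneg _

private theorem B510_thA_le (v κ x : ℕ → ℝ) (S : Finset ℕ) (hS : ∀ i ∉ S, κ i = 0) :
    thA v κ x ≤ 1 := by
  rw [B510_thA_eq v κ x S hS]
  exact Finset.prod_le_one (fun i _ => B510_chi1_nonneg _) (fun i _ => B510_chi1_le _)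

private theorem B510_thB_le (v κ x : ℕ → ℝ) (S : Finset ℕ) (hS : ∀ i ∉ S, κ i = 0) :
    thB v κ x ≤ 1 := by
  rw [B510_thB_eq v κ x S hS]
  exact Finset.prod_le_one (fun i _ => B510_chi2_nonneg _) (fun i _ => B510_chi2_le _)

private theorem B510_thA_ne (v κ x : ℕ → ℝ) (S : Finset ℕ) (hS : ∀ i ∉ S, κ i = 0)
    (h : thA v κ x ≠ 0) (i : ℕ) : κ i * |x i - v i| < 2 / 3 := by
  by_cases hi : i ∈ S
  · rw [B510_thA_eq v κ x S hS, Finset.prod_ne_zero_iff] at h
    exact B510_chi1_ne (h i hi)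
  · rw [hS i hi, zero_mul]
    norm_num

private theorem B510_thB_ne (v κ x : ℕ → ℝ) (S : Finset ℕ) (hS : ∀ i ∉ S, κ i = 0)
    (h : thB v κ x ≠ 0) (i : ℕ) : κ i * |x i - v i| < 1 := by
  by_cases hi : i ∈ S
  · rw [B510_thB_eq v κ x S hS, Finset.prod_ne_zero_iff] at h
    exact B510_chi2_ne (h i hi)
  · rw [hS i hi, zero_mul]
    norm_num

private theorem B510_thB_one (v κ x : ℕ → ℝ) (S : Finset ℕ) (hS : ∀ i ∉ S, κ i = 0)
    (h : thA v κ x ≠ 0) : thB v κ x = 1 := by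
  rw [B510_thB_eq v κ x S hS]
  exact Finset.prod_eq_one fun i _ => B510_chi2_one (B510_thA_ne v κ x S hS h i)

private theorem B510_e0_norm {j : ℕ} (hj : 1 ≤ j) : ‖e0 j‖ = 1 := by
  apply le_antisymm
  · rw [pi_norm_le_iff_of_nonneg zero_le_one]
    intro i
    unfold e0
    split_ifs <;> simp
  · have h := norm_le_pi_norm (e0 j) ⟨0, hj⟩
    have h1 : e0 j ⟨0, hj⟩ = 1 := by simp [e0]
    rw [h1, norm_one] at h
    exact h

/-- one box -/
private theorem B510_cont {j : ℕ} {T D : Set ℕ} {m : ℕ} (q : (BX D).S m × (WWT j T).ss.S m) :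
    Continuous fun p : Dtop m × (ℕ → ℝ) =>
      thS (q.1.1.1 p.1) (q.1.1.2 p.1) (q.2.1.1 p) p.2 := by
  obtain ⟨S, hS, hs⟩ := q.1.2.supp
  have hy : Continuous q.2.1.1 := q.2.2.cont
  have hv : ∀ i, Continuous fun p : Dtop m × (ℕ → ℝ) => q.1.1.1 p.1 i := fun i =>
    (continuous_apply i).comp (q.1.2.contv.comp continuous_fst)
  have hk : ∀ i, Continuous fun p : Dtop m × (ℕ → ℝ) => q.1.1.2 p.1 i := fun i =>
    (continuous_apply i).comp (q.1.2.contk.comp continuous_fst)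
  have hx : ∀ i, Continuous fun p : Dtop m × (ℕ → ℝ) => p.2 i := fun i =>
    (continuous_apply i).comp continuous_snd
  have hu : ∀ i, Continuous fun p : Dtop m × (ℕ → ℝ) =>
      q.1.1.2 p.1 i * |p.2 i - q.1.1.1 p.1 i| := fun i =>
    (hk i).mul ((hx i).sub (hv i)).abs
  have hA : Continuous fun p : Dtop m × (ℕ → ℝ) => thA (q.1.1.1 p.1) (q.1.1.2 p.1) p.2 := by
    have : (fun p : Dtop m × (ℕ → ℝ) => thA (q.1.1.1 p.1) (q.1.1.2 p.1) p.2) =
        fun p => ∏ i ∈ S, chi1 (q.1.1.2 p.1 i * |p.2 i - q.1.1.1 p.1 i|) :=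
      funext fun p => B510_thA_eq _ _ _ S fun i hi => (hs p.1 i hi).2
    rw [this]
    exact continuous_finset_prod _ fun i _ => B510_chi1_cont.comp (hu i)
  have hB : Continuous fun p : Dtop m × (ℕ → ℝ) => thB (q.1.1.1 p.1) (q.1.1.2 p.1) p.2 := by
    have : (fun p : Dtop m × (ℕ → ℝ) => thB (q.1.1.1 p.1) (q.1.1.2 p.1) p.2) =
        fun p => ∏ i ∈ S, chi2 (q.1.1.2 p.1 i * |p.2 i - q.1.1.1 p.1 i|) :=
      funext fun p => B510_thB_eq _ _ _ S fun i hi => (hs p.1 i hi).2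
    rw [this]
    exact continuous_finset_prod _ fun i _ => B510_chi2_cont.comp (hu i)
  unfold thS
  refine Continuous.prodMk (hA.smul (continuous_fst.comp hy)) ?_
  refine Continuous.sub (hA.smul (continuous_snd.comp hy)) ?_
  refine Continuous.smul (Continuous.mul ?_ hB) (q.1.2.contv.comp continuous_fst)
  exact continuous_const.min (continuous_const.mul (continuous_fst.comp hy).norm)

private theorem B510_fin {j : ℕ} {T D : Set ℕ} {m : ℕ} (q : (BX D).S m × (WWT j T).ss.S m) :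
    ∃ S : Finset ℕ, (S : Set ℕ) ⊆ T ∪ D ∧
    (∀ (t : Dtop m) (x y : ℕ → ℝ), (∀ i ∈ S, x i = y i) →
      thS (q.1.1.1 t) (q.1.1.2 t) (q.2.1.1 (t, x)) x =
        thS (q.1.1.1 t) (q.1.1.2 t) (q.2.1.1 (t, y)) y) ∧
    ∀ (t : Dtop m) (x : ℕ → ℝ), ∀ i ∉ S,
      (thS (q.1.1.1 t) (q.1.1.2 t) (q.2.1.1 (t, x)) x).2 i = 0 := by
  classical
  obtain ⟨S, hS, hs⟩ := q.1.2.supp
  obtain ⟨S', hS', h1, h2⟩ := q.2.2.fin
  refine ⟨S' ∪ S, ?_, ?_, ?_⟩
  · intro i hi
    rcases Finset.mem_union.1 (Finset.mem_coe.1 hi) with h | h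
    · exact Or.inl (hS' h)
    · exact Or.inr (hS h)
  · intro t x y hxy
    have e1 : thA (q.1.1.1 t) (q.1.1.2 t) x = thA (q.1.1.1 t) (q.1.1.2 t) y := by
      rw [B510_thA_eq _ _ _ S fun i hi => (hs t i hi).2,
        B510_thA_eq _ _ _ S fun i hi => (hs t i hi).2]
      exact Finset.prod_congr rfl fun i hi => by rw [hxy i (Finset.mem_union_right _ hi)]
    have e2 : thB (q.1.1.1 t) (q.1.1.2 t) x = thB (q.1.1.1 t) (q.1.1.2 t) y := by
      rw [B510_thB_eq _ _ _ S fun i hi => (hs t i hi).2,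
        B510_thB_eq _ _ _ S fun i hi => (hs t i hi).2]
      exact Finset.prod_congr rfl fun i hi => by rw [hxy i (Finset.mem_union_right _ hi)]
    have e3 : q.2.1.1 (t, x) = q.2.1.1 (t, y) :=
      h1 t x y fun i hi => hxy i (Finset.mem_union_left _ hi)
    unfold thS
    rw [e1, e2, e3]
  · intro t x i hi
    rw [Finset.mem_union, not_or] at hi
    have e1 : (q.2.1.1 (t, x)).2 i = 0 := h2 t x i hi.1
    have e2 : q.1.1.1 t i = 0 := (hs t i hi.2).1
    show thA (q.1.1.1 t) (q.1.1.2 t) x * (q.2.1.1 (t, x)).2 i -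
      (min 1 (2 * ‖(q.2.1.1 (t, x)).1‖) * thB (q.1.1.1 t) (q.1.1.2 t) x) * q.1.1.1 t i = 0
    rw [e1, e2, mul_zero, mul_zero, sub_zero]

private theorem B510_bdd {j : ℕ} {T D : Set ℕ} {m : ℕ} (q : (BX D).S m × (WWT j T).ss.S m) :
    ∃ C : ℝ, ∀ (t : Dtop m) (x : ℕ → ℝ),
      (∀ i, |(thS (q.1.1.1 t) (q.1.1.2 t) (q.2.1.1 (t, x)) x).1 i| ≤ C) ∧
      ∀ i, |(thS (q.1.1.1 t) (q.1.1.2 t) (q.2.1.1 (t, x)) x).2 i| ≤ C := by
  obtain ⟨S, hS, hs⟩ := q.1.2.supp
  obtain ⟨C, hC⟩ := q.2.2.bdd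
  have hv : ∀ i, ∃ V : ℝ, ∀ t : Dtop m, ‖q.1.1.1 t i‖ ≤ V := by
    intro i
    obtain ⟨V, hV⟩ := isCompact_univ.exists_bound_of_continuousOn
      (((continuous_apply i).comp q.1.2.contv).continuousOn (s := (Set.univ : Set (Dtop m))))
    exact ⟨V, fun t => hV t (Set.mem_univ t)⟩
  choose V hV using hv
  have hV0 : ∀ i, 0 ≤ V i := by
    intro i
    obtain ⟨t⟩ : Nonempty (Dtop m) := inferInstance
    exact (norm_nonneg _).trans (hV i t)
  have hvb : ∀ (t : Dtop m) (i : ℕ), |q.1.1.1 t i| ≤ ∑ k ∈ S, V k := by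
    intro t i
    by_cases hi : i ∈ S
    · exact (hV i t).trans (Finset.single_le_sum (f := V) (fun k _ => hV0 k) hi)
    · rw [(hs t i hi).1, abs_zero]
      exact Finset.sum_nonneg fun k _ => hV0 k
  have hsum : 0 ≤ ∑ k ∈ S, V k := Finset.sum_nonneg fun k _ => hV0 k
  refine ⟨C + ∑ k ∈ S, V k, fun t x => ?_⟩
  have hA0 := B510_thA_nonneg (q.1.1.1 t) (q.1.1.2 t) x S fun i hi => (hs t i hi).2
  have hA1 := B510_thA_le (q.1.1.1 t) (q.1.1.2 t) x S fun i hi => (hs t i hi).2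
  have hB0 := B510_thB_nonneg (q.1.1.1 t) (q.1.1.2 t) x S fun i hi => (hs t i hi).2
  have hB1 := B510_thB_le (q.1.1.1 t) (q.1.1.2 t) x S fun i hi => (hs t i hi).2
  have hm0 : 0 ≤ min 1 (2 * ‖(q.2.1.1 (t, x)).1‖) :=
    le_min zero_le_one (mul_nonneg zero_le_two (norm_nonneg _))
  have hm1 : min 1 (2 * ‖(q.2.1.1 (t, x)).1‖) ≤ 1 := min_le_left _ _
  have hmul : ∀ a b c : ℝ, 0 ≤ a → a ≤ 1 → |b| ≤ c → |a * b| ≤ c := by
    intro a b c h0 h1 h2
    rw [abs_mul, abs_of_nonneg h0]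
    exact (mul_le_of_le_one_left (abs_nonneg _) h1).trans h2
  constructor
  · intro i
    show |thA (q.1.1.1 t) (q.1.1.2 t) x * (q.2.1.1 (t, x)).1 i| ≤ _
    have := hmul _ _ _ hA0 hA1 ((hC t x).1 i)
    linarith
  · intro i
    show |thA (q.1.1.1 t) (q.1.1.2 t) x * (q.2.1.1 (t, x)).2 i -
      (min 1 (2 * ‖(q.2.1.1 (t, x)).1‖) * thB (q.1.1.1 t) (q.1.1.2 t) x) * q.1.1.1 t i| ≤ _
    have h1 := hmul _ _ _ hA0 hA1 ((hC t x).2 i)
    have h2 := hmul _ _ _ (mul_nonneg hm0 hB0) (mul_le_one₀ hm1 hB0 hB1) (hvb t i)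
    exact (abs_sub _ _).trans (add_le_add h1 h2)

theorem thF_isWW {j : ℕ} (hj : 1 ≤ j) {T D : Set ℕ} (hTD : Disjoint T D) {m : ℕ}
    (F : Finset ((BX D).S m × (WWT j T).ss.S m)) (hF : IsTT D (WWb j hj T) F) :
    IsWW j (T ∪ D) (thF F) where
  cont := by
    unfold thF
    exact continuous_finset_sum _ fun q _ => B510_cont q
  fin := by
    classical
    choose S hS h1 h2 using fun q : (BX D).S m × (WWT j T).ss.S m => B510_fin q
    refine ⟨F.biUnion S, ?_, ?_, ?_⟩
    · intro i hi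
      obtain ⟨q, -, hq⟩ := Finset.mem_biUnion.1 (Finset.mem_coe.1 hi)
      exact hS q hq
    · intro t x y hxy
      exact Finset.sum_congr rfl fun q hq =>
        h1 q t x y fun i hi => hxy i (Finset.mem_biUnion.2 ⟨q, hq, hi⟩)
    · intro t x i hi
      show (∑ q ∈ F, thS (q.1.1.1 t) (q.1.1.2 t) (q.2.1.1 (t, x)) x).2 i = 0
      rw [Prod.snd_sum, Finset.sum_apply]
      exact Finset.sum_eq_zero fun q hq =>
        h2 q t x i fun h => hi (Finset.mem_biUnion.2 ⟨q, hq, h⟩)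
  bdd := by
    choose C hC using fun q : (BX D).S m × (WWT j T).ss.S m => B510_bdd q
    refine ⟨∑ q ∈ F, C q, fun t x => ⟨fun i => ?_, fun i => ?_⟩⟩
    · show |(∑ q ∈ F, thS (q.1.1.1 t) (q.1.1.2 t) (q.2.1.1 (t, x)) x).1 i| ≤ _
      rw [Prod.fst_sum, Finset.sum_apply]
      exact (Finset.abs_sum_le_sum_abs _ _).trans
        (Finset.sum_le_sum fun q _ => (hC q t x).1 i)
    · show |(∑ q ∈ F, thS (q.1.1.1 t) (q.1.1.2 t) (q.2.1.1 (t, x)) x).2 i| ≤ _
      rw [Prod.snd_sum, Finset.sum_apply]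
      exact (Finset.abs_sum_le_sum_abs _ _).trans
        (Finset.sum_le_sum fun q _ => (hC q t x).2 i)
  ne := by
    rintro t x ⟨hz1, hz2⟩
    -- the contribution of a box not containing `x`
    have hzero : ∀ q ∈ F, x ∉ BX.reg q.1 t →
        thS (q.1.1.1 t) (q.1.1.2 t) (q.2.1.1 (t, x)) x = 0 := by
      intro q _ hq
      obtain ⟨S, hS, hs⟩ := q.1.2.supp
      have hA : thA (q.1.1.1 t) (q.1.1.2 t) x = 0 := by
        by_contra h
        exact hq fun i => (B510_thA_ne _ _ _ S (fun i hi => (hs t i hi).2) h i).trans (by norm_num)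
      have hB : thB (q.1.1.1 t) (q.1.1.2 t) x = 0 := by
        by_contra h
        exact hq fun i => B510_thB_ne _ _ _ S (fun i hi => (hs t i hi).2) h i
      unfold thS
      rw [hA, hB, zero_smul, zero_smul, mul_zero, zero_smul, sub_zero]
      rfl
    by_cases hex : ∃ q ∈ F, x ∈ BX.reg q.1 t
    · obtain ⟨q, hq, hxq⟩ := hex
      have hsum : thF F (t, x) = thS (q.1.1.1 t) (q.1.1.2 t) (q.2.1.1 (t, x)) x := by
        show ∑ q ∈ F, thS (q.1.1.1 t) (q.1.1.2 t) (q.2.1.1 (t, x)) x = _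
        refine Finset.sum_eq_single q (fun q' hq' hne => ?_) (fun h => absurd hq h)
        exact hzero q' hq' fun h => hF.disj q' hq' q hq hne t x h hxq
      rw [hsum] at hz1 hz2
      obtain ⟨S, hS, hs⟩ := q.1.2.supp
      obtain ⟨S', hS', hg1, hg2⟩ := q.2.2.fin
      have hk0 : ∀ i ∉ S, q.1.1.2 t i = 0 := fun i hi => (hs t i hi).2
      have hz1' : e0 j + thA (q.1.1.1 t) (q.1.1.2 t) x • (q.2.1.1 (t, x)).1 = 0 := hz1
      have hA0 := B510_thA_nonneg (q.1.1.1 t) (q.1.1.2 t) x S hk0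
      have hA1 := B510_thA_le (q.1.1.1 t) (q.1.1.2 t) x S hk0
      have hnorm : thA (q.1.1.1 t) (q.1.1.2 t) x * ‖(q.2.1.1 (t, x)).1‖ = 1 := by
        have h1 : thA (q.1.1.1 t) (q.1.1.2 t) x • (q.2.1.1 (t, x)).1 = - e0 j :=
          eq_neg_of_add_eq_zero_right hz1'
        have h2 := congrArg norm h1
        rw [norm_smul, norm_neg, B510_e0_norm hj, Real.norm_of_nonneg hA0] at h2
        exact h2
      have hAne : thA (q.1.1.1 t) (q.1.1.2 t) x ≠ 0 := by
        intro h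
        rw [h, zero_mul] at hnorm
        exact zero_ne_one hnorm
      have hy1 : 1 ≤ ‖(q.2.1.1 (t, x)).1‖ := by
        rw [← hnorm]
        exact mul_le_of_le_one_left (norm_nonneg _) hA1
      have hmin : min 1 (2 * ‖(q.2.1.1 (t, x)).1‖) = 1 := min_eq_left (by linarith)
      have hB := B510_thB_one (q.1.1.1 t) (q.1.1.2 t) x S hk0 hAne
      have hz2' : ∀ i, x i + (thA (q.1.1.1 t) (q.1.1.2 t) x * (q.2.1.1 (t, x)).2 i -
          q.1.1.1 t i) = 0 := by
        intro i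
        have h1 := congrFun hz2 i
        have h2 : x i + (thA (q.1.1.1 t) (q.1.1.2 t) x * (q.2.1.1 (t, x)).2 i -
          (min 1 (2 * ‖(q.2.1.1 (t, x)).1‖) * thB (q.1.1.1 t) (q.1.1.2 t) x) * q.1.1.1 t i) = 0 :=
          h1
        rw [hmin, hB, one_mul, one_mul] at h2
        exact h2
      have hyT : ∀ i ∉ T, (q.2.1.1 (t, x)).2 i = 0 := fun i hi => hg2 t x i fun h => hi (hS' h)
      have hvD : ∀ i ∉ D, q.1.1.1 t i = 0 ∧ q.1.1.2 t i = 0 := fun i hi =>
        hs t i fun h => hi (hS h)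
      have hAone : thA (q.1.1.1 t) (q.1.1.2 t) x = 1 := by
        unfold thA
        apply finprod_eq_one_of_forall_eq_one
        intro i
        by_cases hi : i ∈ D
        · have h1 := hz2' i
          rw [hyT i (fun h => Set.disjoint_left.1 hTD h hi), mul_zero, zero_sub] at h1
          have h2 : x i - q.1.1.1 t i = 0 := by linarith
          rw [h2, abs_zero, mul_zero, B510_chi1_zero]
        · rw [(hvD i hi).2, zero_mul, B510_chi1_zero]
      rw [hAone, one_smul] at hz1'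
      let x' : ℕ → ℝ := fun i => if i ∈ S' then x i else 0
      have hgx : q.2.1.1 (t, x') = q.2.1.1 (t, x) :=
        hg1 t x' x fun i hi => if_pos hi
      refine q.2.2.ne t x' ⟨by rw [hgx]; exact hz1', ?_⟩
      rw [hgx]
      funext i
      show x' i + (q.2.1.1 (t, x)).2 i = 0
      by_cases hi : i ∈ S'
      · have h1 := hz2' i
        rw [hAone, one_mul, (hvD i fun h => Set.disjoint_left.1 hTD (hS' hi) h).1, sub_zero] at h1
        show (if i ∈ S' then x i else 0) + (q.2.1.1 (t, x)).2 i = 0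
        rw [if_pos hi]
        exact h1
      · show (if i ∈ S' then x i else 0) + (q.2.1.1 (t, x)).2 i = 0
        rw [if_neg hi, hg2 t x i hi, zero_add]
    · have hsum : thF F (t, x) = 0 := by
        show ∑ q ∈ F, thS (q.1.1.1 t) (q.1.1.2 t) (q.2.1.1 (t, x)) x = 0
        exact Finset.sum_eq_zero fun q hq => hzero q hq fun h => hex ⟨q, hq, h⟩
      rw [hsum] at hz1
      have h1 : e0 j = 0 := by simpa using hz1
      have h2 := B510_e0_norm hj
      rw [h1, norm_zero] at h2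
      exact zero_ne_one h2

end MM
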