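import Pool.Agent.Lib_MP_33f7bb_d.B5Def

/-!
# B5-11 (W4): naturality of `thF`, and `thF` of a single full box

* `thF_act`: `thF (actF f F) p = ∑` over the image; the map `q ↦ (act f q.1, act f q.2)` is injective on `F` (`IsTT.injOn`), and a term whose
  label `act f g` is the base simplex (the zero function, `WWb_deg`) contributes `thS v κ 0 x = 0` (`thA • 0 = 0`, `min 1 (2 * 0) = 0`), so
  dropping it changes nothing; each remaining term is the term of `F` at `(tmap f p.1, p.2)` (definitions, `WWT_act`).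
* `thF_jj`: if `g` is the base simplex, `thF ∅ = 0 = g`.  Otherwise one term: `v = 0`, `κ = 0`: `thA = 1` (all factors `chi1 0 = 1`), and
  the `v`-term vanishes: `thS 0 0 y x = y`.
-/

namespace MM

private theorem B511_thS_zero {j : ℕ} (v κ x : ℕ → ℝ) :
    thS v κ (0 : (Fin j → ℝ) × (ℕ → ℝ)) x = 0 := by
  unfold thS
  apply Prod.ext
  · simp
  · simp

private theorem B511_thA_zero (x : ℕ → ℝ) : thA (fun _ => 0) (fun _ => 0) x = 1 := by
  unfold thA
  have h : ∀ i : ℕ, chi1 (0 * |x i - 0|) = 1 := by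
    intro i
    rw [zero_mul]
    unfold chi1
    norm_num
  rw [finprod_congr h, finprod_one]

private theorem B511_thS_all {j : ℕ} (y : (Fin j → ℝ) × (ℕ → ℝ)) (x : ℕ → ℝ) :
    thS (fun _ => 0) (fun _ => 0) y x = y := by
  unfold thS
  rw [B511_thA_zero]
  apply Prod.ext
  · simp
  · funext i
    simp

open Classical in
private theorem B511_sum {V : Type} [AddCommMonoid V] {D : Set ℕ} {W : SS} (w0 : W.S 0) {m n : ℕ}
    (f : Mo m n) (F : Finset ((BX D).S n × W.S n)) (hF : IsTT D w0 F)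
    (φ : (BX D).S m × W.S m → V) :
    ∑ q ∈ actF D w0 f F, φ q =
      ∑ q ∈ F, if W.act f q.2 ≠ W.deg w0 m then φ ((BX D).act f q.1, W.act f q.2) else 0 := by
  unfold actF
  rw [Finset.sum_filter, Finset.sum_image (hF.injOn f)]

theorem thF_act {j : ℕ} (hj : 1 ≤ j) {T D : Set ℕ} {m n : ℕ} (f : Mo m n)
    (F : Finset ((BX D).S n × (WWT j T).ss.S n)) (hF : IsTT D (WWb j hj T) F)
    (p : Dtop m × (ℕ → ℝ)) :
    thF (actF D (WWb j hj T) f F) p = thF F (tmap f p.1, p.2) := by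
  unfold thF
  rw [B511_sum (WWb j hj T) f F hF]
  refine Finset.sum_congr rfl fun q _ => ?_
  by_cases h : (WWT j T).ss.act f q.2 = (WWT j T).ss.deg (WWb j hj T) m
  · have h1 : q.2.1.1 (tmap f p.1, p.2) = 0 := by
      have h2 : ((WWT j T).ss.act f q.2).1.1 p = q.2.1.1 (tmap f p.1, p.2) := WWT_act f q.2 p
      rw [← h2, h]
      rfl
    rw [if_neg (not_not.2 h)]
    show (0 : (Fin j → ℝ) × (ℕ → ℝ)) = thS _ _ (q.2.1.1 (tmap f p.1, p.2)) p.2
    rw [h1]
    exact (B511_thS_zero _ _ _).symm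
  · rw [if_pos h]

theorem thF_jj {j : ℕ} (hj : 1 ≤ j) {T D : Set ℕ} {m : ℕ} (g : (WWT j T).ss.S m)
    (p : Dtop m × (ℕ → ℝ)) : thF (jjF D (WWb j hj T) g) p = g.1.1 p := by
  unfold thF jjF
  by_cases h : g = (WWT j T).ss.deg (WWb j hj T) m
  · rw [if_pos h, Finset.sum_empty, h]
    rfl
  · rw [if_neg h, Finset.sum_singleton]
    exact B511_thS_all _ _

end MM
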