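import Pool.Agent.Lib_MP_33f7bb_d.B313
import Pool.Agent.Lib_MP_33f7bb_d.B404
import Pool.Agent.Lib_MP_33f7bb_d.B503
import Pool.Agent.Lib_MP_33f7bb_d.B506
import Pool.Agent.Lib_MP_33f7bb_d.B509
import Pool.Agent.Lib_MP_33f7bb_d.B510
import Pool.Agent.Lib_MP_33f7bb_d.B511

/-!
# B5-12 (W5): theorem B
-/

namespace MM

open Classical

variable {Y : SS} [∀ n, TopologicalSpace (Y.S n)]

/-- `theta : TTb D → WW` -/
noncomputable def theta {j : ℕ} (hj : 1 ≤ j) {T D : Set ℕ} (hTD : Disjoint T D) :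
    Hom (TTb D (WWb j hj T)) (WW j) where
  app m F := ⟨thF F.1, (thF_isWW hj hTD F.1 F.2).mono (Set.subset_univ _)⟩
  nat {m n} f F := by
    apply Subtype.ext
    funext p
    exact thF_act hj f F.1 F.2 p

theorem ww_lab_yac (hY : IsTarget Y) {j : ℕ} (hj : 3 ≤ j) (T : Set ℕ) :
    YAc Y (lab ℕ (Sub.pt (WWb j (by omega) T)) ⊤) 0 := by
  obtain ⟨H, h0, h1, hc⟩ := exists_deformation (ww_kan j T) (ww_ext_bd j T 1 (by omega))
    (ww_ext_bd j T 2 (by omega)) (WWb j (by omega) T)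
  refine lab_yac hY _ (Red (WWb j (by omega) T)) ?_ (fun w hw => redb_zero hw)
    (fun w hw => redb_one hw) H h0 h1 hc
  intro f
  show _ = _
  have : f = cst 0 := by
    apply OrderHom.ext; funext i
    exact Fin.ext (by omega)
  rw [this]; rfl

/-- the coordinates used up to step `i` -/
def Tset (i : ℕ) : Set ℕ := {n | (Nat.unpair n).1 ≤ i}

/-- the fresh coordinates of step `i + 1` -/
def Dset (i : ℕ) : Set ℕ := {n | (Nat.unpair n).1 = i + 1}

theorem Dset_infinite (i : ℕ) : (Dset i).Infinite := by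
  apply Set.infinite_of_injective_forall_mem (f := fun k : ℕ => Nat.pair (i + 1) k)
  · intro a b h
    exact (Nat.pair_eq_pair.1 h).2
  · intro k
    show (Nat.unpair (Nat.pair (i + 1) k)).1 = i + 1
    rw [Nat.unpair_pair]

theorem disjoint_TD (i : ℕ) : Disjoint (Tset i) (Dset i) := by
  rw [Set.disjoint_left]
  intro n h1 h2
  have h1' : (Nat.unpair n).1 ≤ i := h1
  have h2' : (Nat.unpair n).1 = i + 1 := h2
  omega

theorem union_TD (i : ℕ) : Tset i ∪ Dset i ⊆ Tset (i + 1) := by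
  rintro n (h | h)
  · exact Nat.le_succ_of_le h
  · exact le_of_eq h

theorem WWT_mono {j : ℕ} {T T' : Set ℕ} (h : T ⊆ T') : WWT j T ≤ WWT j T' :=
  fun _ _ hg => IsWW.mono h hg

/-- theorem B -/
theorem WW_good (hY : IsTarget Y) {j : ℕ} (hj : 3 ≤ j) :
    Good Y (Sub.pt (WW0 j (by omega))) ⊤ := by
  have hj1 : 1 ≤ j := by omega
  show YAc Y (WW j) (WW0 j hj1)
  refine YAc.of_seq hY (WW0 j hj1) (fun i => WWT j (Tset i)) (fun i => WWT_mono ?_) ?_ ?_ ?_
  · intro n hn
    exact Nat.le_succ_of_le hn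
  · intro i
    exact isWW_zero j hj1 (Tset i) 0
  · intro n x
    obtain ⟨S, -, h1, h2⟩ := x.2.fin
    refine ⟨S.sup (fun k => (Nat.unpair k).1), x.2.cont, ⟨S, ?_, h1, h2⟩, x.2.bdd, x.2.ne⟩
    intro k hk
    exact Finset.le_sup (f := fun k => (Nat.unpair k).1) hk
  · intro i
    refine ⟨TTb (Dset i) (WWb j hj1 (Tset i)), TTb.empty (Dset i) (WWb j hj1 (Tset i)) 0,
      jj (Dset i) (WWb j hj1 (Tset i)), theta hj1 (disjoint_TD i), ?_, ?_, ?_, ?_, ?_⟩
    · exact TT_yac hY (Dset i) (Dset_infinite i) _ (ww_lab_yac hY hj (Tset i))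
    · exact jj_base (Dset i) (WWb j hj1 (Tset i))
    · apply Subtype.ext
      funext p
      show thF (∅ : Finset ((BX (Dset i)).S 0 × (WWT j (Tset i)).ss.S 0)) p = _
      rw [thF, Finset.sum_empty]
      rfl
    · intro n x
      exact (thF_isWW hj1 (disjoint_TD i) x.1 x.2).mono (union_TD i)
    · intro n x
      apply Subtype.ext
      funext p
      exact thF_jj hj1 x p

end MM
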