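import Pool.Agent.Lib_MP_33f7bb_d.B4Def

/-!
# B5Def: the spaces `WW`: base point, geometric subsets, Kan condition, the map `theta` (definitions, complete)
-/

namespace MM

open Classical

/-! ## Kan complexes, simplices with trivial 1-skeleton -/

/-- every horn extends -/
def IsKan (P : SS) : Prop := ∀ (n : ℕ) (i : Fin (n + 2)), ExtP P (horn (n + 1) i) ⊤

/-- the simplices all of whose edges (hence vertices) are degenerate at `p0` -/
def Red {P : SS} (p0 : P.S 0) : Sub P :=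
  ⟨fun n => {x | ∀ f : Mo 1 n, P.act f x = P.deg p0 1}, fun {m n} g x h f => by
    rw [P.act_comp]; exact h _⟩

/-- partial deformations to `Red` on the subcomplex `B` -/
structure PDef {P : SS} (p0 : P.S 0) (B : Sub P) (h : Fn ((Del 1).prod P) P) : Prop where
  nat : NatOn (Sub.bx (⊤ : Sub (Del 1)) B) h
  zero : ∀ n, ∀ x ∈ B.car n, h n (cst 0, x) = x
  one : ∀ n, ∀ x ∈ B.car n, h n (cst 1, x) ∈ (Red p0).car n
  fix : ∀ n s, ∀ x ∈ B.car n, x ∈ (Red p0).car n → h n (s, x) = x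

/-! ## geometric subsets -/

/-- the subset of the topological simplex corresponding to a subcomplex of `Δ^n` -/
def geo {n : ℕ} (A : Sub (Del n)) : Set (Dtop n) :=
  {t | ∃ (m : ℕ) (α : Mo m n) (s : Dtop m), α ∈ A.car m ∧ tmap α s = t}

/-! ## `WWT j T` as a simplicial set -/

theorem IsWW.mono {j : ℕ} {T T' : Set ℕ} (h : T ⊆ T') {m : ℕ}
    {g : Dtop m × (ℕ → ℝ) → (Fin j → ℝ) × (ℕ → ℝ)} (hg : IsWW j T g) : IsWW j T' g where
  cont := hg.cont
  fin := by
    obtain ⟨S, hS, h1, h2⟩ := hg.fin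
    exact ⟨S, hS.trans h, h1, h2⟩
  bdd := hg.bdd
  ne := hg.ne

/-- a simplex of `WWT j T` -/
def WWT.mk {j : ℕ} {T : Set ℕ} {m : ℕ} (g : Dtop m × (ℕ → ℝ) → (Fin j → ℝ) × (ℕ → ℝ))
    (hg : IsWW j T g) : (WWT j T).ss.S m :=
  ⟨⟨g, hg.mono (Set.subset_univ T)⟩, hg⟩

theorem isWW_zero (j : ℕ) (hj : 1 ≤ j) (T : Set ℕ) (m : ℕ) :
    IsWW j T (fun _ : Dtop m × (ℕ → ℝ) => 0) where
  cont := continuous_const
  fin := ⟨∅, by simp, fun _ _ _ _ => rfl, fun _ _ _ _ => rfl⟩
  bdd := ⟨0, fun _ _ => ⟨fun i => by simp, fun i => by simp⟩⟩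
  ne := by
    rintro t x ⟨h, -⟩
    have := congrFun h ⟨0, hj⟩
    simp [e0] at this

/-- the base point -/
def WWb (j : ℕ) (hj : 1 ≤ j) (T : Set ℕ) : (WWT j T).ss.S 0 := ⟨WW0 j hj, isWW_zero j hj T 0⟩

theorem WWb_deg (j : ℕ) (hj : 1 ≤ j) (T : Set ℕ) (m : ℕ) :
    ((WWT j T).ss.deg (WWb j hj T) m).1.1 = fun _ => 0 := rfl

theorem WWT_act {j : ℕ} {T : Set ℕ} {m n : ℕ} (f : Mo m n) (g : (WWT j T).ss.S n)
    (p : Dtop m × (ℕ → ℝ)) : ((WWT j T).ss.act f g).1.1 p = g.1.1 (tmap f p.1, p.2) := rfl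

/-! ## the map `theta` -/

/-- `1` on `(-∞, 1/2]`, `0` on `[2/3, ∞)` -/
noncomputable def chi1 (x : ℝ) : ℝ := max 0 (min 1 (4 - 6 * x))

/-- `1` on `(-∞, 2/3]`, `0` on `[1, ∞)` -/
noncomputable def chi2 (x : ℝ) : ℝ := max 0 (min 1 (3 - 3 * x))

/-- the cut-off function of the box (centre `v`, inverse size `κ`): inner -/
noncomputable def thA (v κ x : ℕ → ℝ) : ℝ := ∏ᶠ i, chi1 (κ i * |x i - v i|)

/-- outer cut-off -/
noncomputable def thB (v κ x : ℕ → ℝ) : ℝ := ∏ᶠ i, chi2 (κ i * |x i - v i|)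

/-- the contribution of one box with centre `v`, inverse size `κ` and value `y` of the label -/
noncomputable def thS {j : ℕ} (v κ : ℕ → ℝ) (y : (Fin j → ℝ) × (ℕ → ℝ)) (x : ℕ → ℝ) :
    (Fin j → ℝ) × (ℕ → ℝ) :=
  (thA v κ x • y.1, thA v κ x • y.2 - (min 1 (2 * ‖y.1‖) * thB v κ x) • v)

/-- the function of a configuration -/
noncomputable def thF {j : ℕ} {T D : Set ℕ} {m : ℕ}
    (F : Finset ((BX D).S m × (WWT j T).ss.S m)) (p : Dtop m × (ℕ → ℝ)) :
    (Fin j → ℝ) × (ℕ → ℝ) :=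
  ∑ q ∈ F, thS (q.1.1.1 p.1) (q.1.1.2 p.1) (q.2.1.1 p) p.2

/-- the box which is everything -/
def BX.all (D : Set ℕ) (m : ℕ) : (BX D).S m :=
  ⟨(fun _ => 0, fun _ => 0),
    { contv := continuous_const
      contk := continuous_const
      supp := ⟨∅, by simp, fun _ _ _ => ⟨rfl, rfl⟩⟩
      nonneg := fun _ _ => le_rfl }⟩

/-- `g ↦ {(all, g)}` -/
noncomputable def jjF (D : Set ℕ) {W : SS} (w0 : W.S 0) {m : ℕ} (g : W.S m) :
    Finset ((BX D).S m × W.S m) := if g = W.deg w0 m then ∅ else {(BX.all D m, g)}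

theorem isTT_jjF (D : Set ℕ) {W : SS} (w0 : W.S 0) {m : ℕ} (g : W.S m) :
    IsTT D w0 (jjF D w0 g) := by
  unfold jjF
  by_cases h : g = W.deg w0 m
  · rw [if_pos h]
    exact ⟨fun _ h => absurd h (Finset.notMem_empty _),
      fun _ h => absurd h (Finset.notMem_empty _)⟩
  · rw [if_neg h]
    refine ⟨?_, ?_⟩
    · intro p hp
      rw [Finset.mem_singleton] at hp
      rw [hp]; exact h
    · intro p hp q hq hpq
      rw [Finset.mem_singleton] at hp hq
      exact absurd (hp.trans hq.symm) hpq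

/-- the inclusion `W → TTb D w0` -/
noncomputable def jj (D : Set ℕ) {W : SS} (w0 : W.S 0) : Hom W (TTb D w0) where
  app m g := ⟨jjF D w0 g, isTT_jjF D w0 g⟩
  nat {m n} f g := by
    apply Subtype.ext
    show jjF D w0 (W.act f g) = actF D w0 f (jjF D w0 g)
    ext q
    rw [mem_actF]
    unfold jjF
    by_cases h : g = W.deg w0 n
    · have h' : W.act f g = W.deg w0 m := by rw [h, SS.act_deg]
      rw [if_pos h, if_pos h']
      simp
    · by_cases h' : W.act f g = W.deg w0 m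
      · rw [if_pos h', if_neg h]
        constructor
        · intro hq; exact absurd hq (Finset.notMem_empty _)
        · rintro ⟨⟨p, hp, rfl⟩, hne⟩
          rw [Finset.mem_singleton] at hp
          rw [hp] at hne
          exact absurd h' hne
      · rw [if_neg h', if_neg h, Finset.mem_singleton]
        constructor
        · rintro rfl
          exact ⟨⟨(BX.all D n, g), Finset.mem_singleton_self _, rfl⟩, h'⟩
        · rintro ⟨⟨p, hp, rfl⟩, -⟩
          rw [Finset.mem_singleton] at hp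
          rw [hp]
          rfl

theorem jj_base (D : Set ℕ) {W : SS} (w0 : W.S 0) :
    (jj D w0).app 0 w0 = TTb.empty D w0 0 := by
  apply Subtype.ext
  show jjF D w0 w0 = ∅
  unfold jjF
  rw [if_pos]
  show w0 = W.act (cst 0) w0
  have : (cst 0 : Mo 0 0) = OrderHom.id := by
    ext i; simp [cst]
  rw [this, W.act_id]

end MM
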