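import Pool.Agent.Lib_MP_33f7bb_d.B512
import Pool.Agent.Lib_MP_33f7bb_d.TopIF

/-!
# Part B: the interface theorem
-/

namespace MM

theorem wwGood : WWGood := fun Y _ hY _ hj => WW_good (Y := Y) hY hj

end MM
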