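import Pool.Agent.Lib_MP_33f7bb_d.B1B

/-!
# C1: null homotopies and the complex `EEc`
-/

namespace MM

/-- the complex over `S₁ ∪ S₂`: everything over `S₁`, the graph of `γ` over `S₂` -/
def EEc {P W : SS} (S₁ S₂ : Sub P) (γ : Fn P W) (hγ : NatOn S₂ γ) : Sub (P.prod W) :=
  ⟨fun n => {x | x.1 ∈ S₁.car n ∨ (x.1 ∈ S₂.car n ∧ x.2 = γ n x.1)}, by
    rintro m n f x (h | ⟨h, h'⟩)
    · exact Or.inl (S₁.closed f h)
    · refine Or.inr ⟨S₂.closed f h, ?_⟩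
      show W.act f x.2 = γ m (P.act f x.1)
      rw [h', hγ f x.1 h]⟩

/-- PROOF.  Let `h, y` be the null homotopy on `EEc`: `h (t, (s, w))`, `h (cst 0, (s, w)) = κ s`,
`h (cst 1, (s, w)) = deg y`.  Let `o = W.deg w₀ n`.

Step 1.  `Q = (Del 1).prod ((Del 1).prod P)` (coordinates `(u, (t, s))`),
`K = bx ⊤ (bx ⊤ S₁)`, `K' = box (bd 1) ⊤ (bx (bd 1) S₁) (bx ⊤ S₁)` (`u` or `t` constant).  On
`box K' K (pt w₀) ⊤` (ambient `Q.prod W`) take
`F ((u, (t, s)), w) = if u = cst 1 then h (t, (s, o)) else h (t, (s, w))`.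
It is natural there (as in the proof of `Good.of_left`): the two formulas agree if `w = o` and if
`t ∈ bd 1` (`mem_bd_one`), and otherwise `u` is constant.  `hW.ext_box` gives an extension `G` to
`bx K ⊤`.

Step 2.  `hep` for `C = bx ⊤ S₁`, `A = box (bd 1) ⊤ (S₁ ⊓ S₂) S₁` in `(Del 1).prod P`, with
`f (t, s) = if s ∈ S₂ then h (t, (s, γ s)) else h (t, (s, o))` (natural on `A`),
`g (t, s) = h (t, (s, o))` (natural on `C`), and the homotopy
`H (u, (t, s)) = if s ∈ S₂ then G ((u, (t, s)), γ s) else h (t, (s, o))` (natural on `bx ⊤ A`: if a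
face of `s ∉ S₂` lies in `S₂` then `t ∈ bd 1` and `G` is given by `F` there).  `H (cst 0, ·) = f`,
`H (cst 1, ·) = g` on `A` (values of `F`).  We get `g'`, natural on `bx ⊤ S₁`, `g' = f` on `A`.

Step 3.  `g'` on `bx ⊤ S₁` and `h (t, (s, γ s))` on `bx ⊤ S₂` agree on the intersection
(`NatOn.glue`); the result is a null homotopy of `κ` on `S₁ ⊔ S₂` with the same `y`. -/
theorem nullOn_sup {Y : SS} [∀ n, TopologicalSpace (Y.S n)] (hY : IsTarget Y) {P W : SS}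
    {w₀ : W.S 0} (hW : Good Y (Sub.pt w₀) (⊤ : Sub W)) (S₁ S₂ : Sub P) (γ : Fn P W)
    (hγ : NatOn S₂ γ) (κ : Hom P Y)
    (h : NullOn (EEc S₁ S₂ γ hγ) (fun n x => κ.app n x.1)) : NullOn (S₁ ⊔ S₂) κ.app := by
  obtain ⟨h, y, hn, h0, h1⟩ := h
  -- the basic facts on `h`
  have e0 : ∀ n (s : P.S n) (w : W.S n), (s, w) ∈ (EEc S₁ S₂ γ hγ).car n →
      h n (cst 0, (s, w)) = κ.app n s := fun n s w hx => h0 n (s, w) hx
  have e1 : ∀ n (s : P.S n) (w : W.S n), (s, w) ∈ (EEc S₁ S₂ γ hγ).car n →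
      h n (cst 1, (s, w)) = Y.deg y n := fun n s w hx => h1 n (s, w) hx
  have m1 : ∀ n (s : P.S n) (w : W.S n), s ∈ S₁.car n → (s, w) ∈ (EEc S₁ S₂ γ hγ).car n :=
    fun n s w hs => Or.inl hs
  have m2 : ∀ n (s : P.S n), s ∈ S₂.car n → (s, γ n s) ∈ (EEc S₁ S₂ γ hγ).car n :=
    fun n s hs => Or.inr ⟨hs, rfl⟩
  -- for constant `t` the value does not depend on `w`
  have ebd : ∀ n (t : Mo n 1) (s : P.S n) (w w' : W.S n), t ∈ (bd 1).car n →
      (s, w) ∈ (EEc S₁ S₂ γ hγ).car n → (s, w') ∈ (EEc S₁ S₂ γ hγ).car n →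
      h n (t, (s, w)) = h n (t, (s, w')) := by
    intro n t s w w' ht hw hw'
    rcases (mem_bd_one t).1 ht with rfl | rfl
    · rw [e0 n s w hw, e0 n s w' hw']
    · rw [e1 n s w hw, e1 n s w' hw']
  have nat : ∀ {m n : ℕ} (g : Mo m n) (t : Mo n 1) (s : P.S n) (w : W.S n),
      (s, w) ∈ (EEc S₁ S₂ γ hγ).car n →
      h m (t.comp g, (P.act g s, W.act g w)) = Y.act g (h n (t, (s, w))) :=
    fun g t s w hx => hn g (t, (s, w)) ⟨trivial, hx⟩
  have ho : ∀ {m n : ℕ} (g : Mo m n), W.act g (W.deg w₀ n) = W.deg w₀ m := by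
    intro m n g
    show W.act g (W.act (cst 0) w₀) = W.act (cst 0) w₀
    rw [W.act_comp]
    rfl
  -- Step 1
  let K' : Sub ((Del 1).prod ((Del 1).prod P)) := Sub.box (bd 1) ⊤ (Sub.bx (bd 1) S₁) (Sub.bx ⊤ S₁)
  let K : Sub ((Del 1).prod ((Del 1).prod P)) := Sub.bx ⊤ (Sub.bx ⊤ S₁)
  have hK : K' ≤ K := Sub.box_le_bx _ _ _ _
  let F : Fn (((Del 1).prod ((Del 1).prod P)).prod W) Y := fun n q =>
    if q.1.1 = cst 1 then h n (q.1.2.1, (q.1.2.2, W.deg w₀ n))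
    else h n (q.1.2.1, (q.1.2.2, q.2))
  have hF1 : ∀ n (t : Mo n 1) (s : P.S n) (w : W.S n),
      F n ((cst 1, (t, s)), w) = h n (t, (s, W.deg w₀ n)) := fun n t s w => if_pos rfl
  have hF0 : ∀ n (u t : Mo n 1) (s : P.S n) (w : W.S n), u ≠ cst 1 →
      F n ((u, (t, s)), w) = h n (t, (s, w)) := fun n u t s w hu => if_neg hu
  have hFb : ∀ n (u t : Mo n 1) (s : P.S n) (w : W.S n), s ∈ S₁.car n →
      (t ∈ (bd 1).car n ∨ w = W.deg w₀ n) →
      F n ((u, (t, s)), w) = h n (t, (s, W.deg w₀ n)) := by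
    intro n u t s w hs ht
    by_cases hu : u = cst 1
    · rw [hu, hF1]
    · rw [hF0 n u t s w hu]
      rcases ht with ht | ht
      · exact ebd n t s w _ ht (m1 n s w hs) (m1 n s _ hs)
      · rw [ht]
  have hFnat : NatOn (Sub.box K' K (Sub.pt w₀) ⊤) F := by
    rintro m n g ⟨⟨u, t, s⟩, w⟩ hx
    have hs : s ∈ S₁.car n := hx.1.1.2.2
    have hgs : P.act g s ∈ S₁.car m := S₁.closed g hs
    show F m ((u.comp g, (t.comp g, P.act g s)), W.act g w) = _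
    by_cases hu : u = cst 1
    · subst hu
      show F m ((cst 1, (t.comp g, P.act g s)), W.act g w) = _
      rw [hF1, hF1, ← ho g]
      exact nat g t s _ (m1 n s _ hs)
    · by_cases hug : u.comp g = cst 1
      · have hcase : t ∈ (bd 1).car n ∨ w = W.deg w₀ n := by
          rcases hx.2 with h2 | h2
          · rcases h2.2 with h3 | h3
            · rcases (mem_bd_one u).1 h3 with rfl | h4
              · exact (cst_zero_ne_one m hug).elim
              · exact (hu h4).elim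
            · exact Or.inl h3.1
          · exact Or.inr h2
        have hcase' : t.comp g ∈ (bd 1).car m ∨ W.act g w = W.deg w₀ m := by
          rcases hcase with h2 | h2
          · exact Or.inl ((bd 1).closed g h2)
          · right
            rw [h2, ho g]
        rw [hFb m _ _ _ _ hgs hcase', hFb n u t s w hs hcase, ← ho g]
        exact nat g t s _ (m1 n s _ hs)
      · rw [hF0 m _ _ _ _ hug, hF0 n u t s w hu]
        exact nat g t s w (m1 n s w hs)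
  obtain ⟨G, hG, hGF⟩ := hW.ext_box (Q := (Del 1).prod ((Del 1).prod P))
    (Sub.le_top' (Sub.pt w₀)) hK F hFnat
  -- Step 2
  let A : Sub ((Del 1).prod P) := Sub.box (bd 1) ⊤ (S₁ ⊓ S₂) S₁
  let C : Sub ((Del 1).prod P) := Sub.bx ⊤ S₁
  have hAC : A ≤ C := Sub.box_le_bx _ _ _ _
  classical
  let f : Fn ((Del 1).prod P) Y := fun n x =>
    if x.2 ∈ S₂.car n then h n (x.1, (x.2, γ n x.2)) else h n (x.1, (x.2, W.deg w₀ n))
  let gg : Fn ((Del 1).prod P) Y := fun n x => h n (x.1, (x.2, W.deg w₀ n))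
  have hf2 : ∀ n (t : Mo n 1) (s : P.S n), s ∈ S₂.car n → f n (t, s) = h n (t, (s, γ n s)) :=
    fun n t s hs => if_pos hs
  have hfb : ∀ n (t : Mo n 1) (s : P.S n), s ∈ S₁.car n → t ∈ (bd 1).car n →
      f n (t, s) = h n (t, (s, W.deg w₀ n)) := by
    intro n t s hs ht
    by_cases h2 : s ∈ S₂.car n
    · rw [hf2 n t s h2]
      exact ebd n t s _ _ ht (m2 n s h2) (m1 n s _ hs)
    · exact if_neg h2
  have hggnat : NatOn C gg := by
    rintro m n g ⟨t, s⟩ hx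
    show h m (t.comp g, (P.act g s, W.deg w₀ m)) = Y.act g (h n (t, (s, W.deg w₀ n)))
    rw [← ho g]
    exact nat g t s _ (m1 n s _ hx.2)
  have hfnat : NatOn A f := by
    rintro m n g ⟨t, s⟩ hx
    show f m (t.comp g, P.act g s) = Y.act g (f n (t, s))
    by_cases h2 : s ∈ S₂.car n
    · rw [hf2 n t s h2, hf2 m _ _ (S₂.closed g h2), hγ g s h2]
      exact nat g t s _ (m2 n s h2)
    · have ht : t ∈ (bd 1).car n := hx.2.resolve_right fun h3 => h2 h3.2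
      rw [hfb n t s hx.1.2 ht, hfb m _ _ (S₁.closed g hx.1.2) ((bd 1).closed g ht)]
      exact hggnat g (t, s) hx.1
  let H : Fn ((Del 1).prod ((Del 1).prod P)) Y := fun n x =>
    if x.2.2 ∈ S₂.car n then G n (x, γ n x.2.2) else gg n x.2
  have hH2 : ∀ n (u t : Mo n 1) (s : P.S n), s ∈ S₂.car n →
      H n (u, (t, s)) = G n ((u, (t, s)), γ n s) := fun n u t s hs => if_pos hs
  have hHb : ∀ n (u t : Mo n 1) (s : P.S n), s ∈ S₁.car n → t ∈ (bd 1).car n →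
      H n (u, (t, s)) = gg n (t, s) := by
    intro n u t s hs ht
    by_cases h2 : s ∈ S₂.car n
    · rw [hH2 n u t s h2, hGF n _ ⟨⟨⟨trivial, trivial, hs⟩, trivial⟩,
        Or.inl ⟨⟨trivial, trivial, hs⟩, Or.inr ⟨ht, hs⟩⟩⟩]
      exact hFb n u t s _ hs (Or.inl ht)
    · exact if_neg h2
  have hHnat : NatOn (Sub.bx ⊤ A) H := by
    rintro m n g ⟨u, t, s⟩ ⟨-, hx⟩
    have hs : s ∈ S₁.car n := hx.1.2
    show H m (u.comp g, (t.comp g, P.act g s)) = Y.act g (H n (u, (t, s)))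
    by_cases h2 : s ∈ S₂.car n
    · rw [hH2 n u t s h2, hH2 m _ _ _ (S₂.closed g h2), hγ g s h2]
      exact hG g ((u, (t, s)), γ n s) ⟨⟨trivial, trivial, hs⟩, trivial⟩
    · have ht : t ∈ (bd 1).car n := hx.2.resolve_right fun h3 => h2 h3.2
      rw [hHb n u t s hs ht, hHb m _ _ _ (S₁.closed g hs) ((bd 1).closed g ht)]
      exact hggnat g (t, s) ⟨trivial, hs⟩
  obtain ⟨g', hg', hg'f, -⟩ := hep hY hAC f gg hfnat hggnat H hHnat (by
    rintro n ⟨t, s⟩ hx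
    have hs : s ∈ S₁.car n := hx.1.2
    by_cases h2 : s ∈ S₂.car n
    · rw [hH2 n _ t s h2, hf2 n t s h2, hGF n _ ⟨⟨⟨trivial, trivial, hs⟩, trivial⟩,
        Or.inl ⟨⟨trivial, trivial, hs⟩, Or.inl ((mem_bd_one _).2 (Or.inl rfl))⟩⟩]
      exact hF0 n _ t s _ (cst_zero_ne_one n)
    · have ht : t ∈ (bd 1).car n := hx.2.resolve_right fun h3 => h2 h3.2
      rw [hHb n _ t s hs ht, hfb n t s hs ht]) (by
    rintro n ⟨t, s⟩ hx
    have hs : s ∈ S₁.car n := hx.1.2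
    by_cases h2 : s ∈ S₂.car n
    · rw [hH2 n _ t s h2, hGF n _ ⟨⟨⟨trivial, trivial, hs⟩, trivial⟩,
        Or.inl ⟨⟨trivial, trivial, hs⟩, Or.inl ((mem_bd_one _).2 (Or.inr rfl))⟩⟩]
      exact hF1 n t s _
    · have ht : t ∈ (bd 1).car n := hx.2.resolve_right fun h3 => h2 h3.2
      rw [hHb n _ t s hs ht])
  -- Step 3
  have hh2 : NatOn (Sub.bx ⊤ S₂) (fun n (x : ((Del 1).prod P).S n) =>
      h n (x.1, (x.2, γ n x.2))) := by
    rintro m n g ⟨t, s⟩ hx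
    show h m (t.comp g, (P.act g s, γ m (P.act g s))) = Y.act g (h n (t, (s, γ n s)))
    rw [hγ g s hx.2]
    exact nat g t s _ (m2 n s hx.2)
  obtain ⟨k, hk, hk1, hk2⟩ := NatOn.glue (g := fun n (x : ((Del 1).prod P).S n) =>
      h n (x.1, (x.2, γ n x.2))) hg' hh2 (by
    rintro n ⟨t, s⟩ hx hx'
    show g' n (t, s) = h n (t, (s, γ n s))
    rw [hg'f n (t, s) ⟨⟨trivial, hx.2⟩, Or.inr ⟨hx.2, hx'.2⟩⟩]
    exact hf2 n t s hx'.2)
  refine ⟨k, y, hk.mono ?_, ?_, ?_⟩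
  · rintro n x ⟨-, h2 | h2⟩
    · exact Or.inl ⟨trivial, h2⟩
    · exact Or.inr ⟨trivial, h2⟩
  · rintro n s (hs | hs)
    · have hb : (cst 0 : Mo n 1) ∈ (bd 1).car n := (mem_bd_one _).2 (Or.inl rfl)
      rw [hk1 n (cst 0, s) ⟨trivial, hs⟩, hg'f n (cst 0, s) ⟨⟨trivial, hs⟩, Or.inl hb⟩,
        hfb n _ s hs hb]
      exact e0 n s _ (m1 n s _ hs)
    · rw [hk2 n (cst 0, s) ⟨trivial, hs⟩]
      exact e0 n s _ (m2 n s hs)
  · rintro n s (hs | hs)
    · have hb : (cst 1 : Mo n 1) ∈ (bd 1).car n := (mem_bd_one _).2 (Or.inr rfl)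
      rw [hk1 n (cst 1, s) ⟨trivial, hs⟩, hg'f n (cst 1, s) ⟨⟨trivial, hs⟩, Or.inl hb⟩,
        hfb n _ s hs hb]
      exact e1 n s _ (m1 n s _ hs)
    · rw [hk2 n (cst 1, s) ⟨trivial, hs⟩]
      exact e1 n s _ (m2 n s hs)

end MM
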