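import Pool.Agent.Lib_MP_33f7bb_d.B1B

/-!
# C2: null homotopies: compactness, acyclic pairs, pull backs
-/

namespace MM

/-- the subcomplex generated by a finite set of simplices -/
def Sub.genF {P : SS} (s : Finset (Σ n, P.S n)) : Sub P :=
  Sub.gen (fun n => {x | (⟨n, x⟩ : Σ n, P.S n) ∈ s})

private theorem c2_genF_mono {P : SS} {s t : Finset (Σ n, P.S n)} (h : s ⊆ t) :
    Sub.genF s ≤ Sub.genF t := by
  rintro m x ⟨n, f, y, hy, rfl⟩
  exact ⟨n, f, y, h hy, rfl⟩

private theorem c2_mem_genF {P : SS} {n : ℕ} (x : P.S n) :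
    x ∈ (Sub.genF {(⟨n, x⟩ : Σ n, P.S n)}).car n :=
  ⟨n, OrderHom.id, x, Finset.mem_singleton_self _, (P.act_id x).symm⟩

/-- Compactness.

PROOF.  As `ext_of_compact` (B1A): in the compact space `Fn ((Del 1).prod P) Y × Y.S 0`
(Tychonoff) let `V s`, `s : Finset (Σ n, P.S n)` with all members in `A`, be the closed set of
pairs `(H, y)` satisfying the three conditions of `NullOn` on `Sub.genF s`.  They are nonempty and
directed (`V (s ∪ s') ⊆ V s ∩ V s'`), so there is a common point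
(`IsCompact.nonempty_iInter_of_directed_nonempty_isCompact_isClosed`, index type
`{s // ∀ x ∈ s, x.2 ∈ A.car x.1}`).  Every simplex `x` of `A` lies in `Sub.genF {⟨n, x⟩}`. -/
theorem nullOn_of_fin {Y : SS} [∀ n, TopologicalSpace (Y.S n)] (hY : IsTarget Y) {P : SS}
    (A : Sub P) (f : Fn P Y)
    (h : ∀ s : Finset (Σ n, P.S n), (∀ x ∈ s, x.2 ∈ A.car x.1) → NullOn (Sub.genF s) f) :
    NullOn A f := by
  classical
  have := hY.compact
  have := hY.t2
  let ι := {s : Finset (Σ n, P.S n) // ∀ x ∈ s, x.2 ∈ A.car x.1}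
  have : Nonempty ι := ⟨⟨∅, by simp⟩⟩
  let V : ι → Set (Fn ((Del 1).prod P) Y × Y.S 0) := fun s =>
    {p | (∀ (m n : ℕ) (k : Mo m n) (x : ((Del 1).prod P).S n),
      x ∈ (Sub.bx (⊤ : Sub (Del 1)) (Sub.genF s.1)).car n →
        p.1 m (((Del 1).prod P).act k x) = Y.act k (p.1 n x)) ∧
      (∀ n, ∀ x ∈ (Sub.genF s.1).car n, p.1 n (cst 0, x) = f n x) ∧
      ∀ n, ∀ x ∈ (Sub.genF s.1).car n, p.1 n (cst 1, x) = Y.deg p.2 n}
  have hev : ∀ n (x : ((Del 1).prod P).S n),
      Continuous fun p : Fn ((Del 1).prod P) Y × Y.S 0 => p.1 n x := fun n x => by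
    have e1 : Continuous fun g : Fn ((Del 1).prod P) Y => g n x :=
      (continuous_apply x).comp (continuous_apply n)
    exact e1.comp continuous_fst
  have hdeg : ∀ n, Continuous fun p : Fn ((Del 1).prod P) Y × Y.S 0 => Y.deg p.2 n := fun n =>
    (hY.cont (cst 0)).comp continuous_snd
  have hclosed : ∀ i, IsClosed (V i) := by
    intro i
    have : V i = (⋂ (m : ℕ) (n : ℕ) (k : Mo m n) (x : ((Del 1).prod P).S n)
        (_ : x ∈ (Sub.bx (⊤ : Sub (Del 1)) (Sub.genF i.1)).car n),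
        {p : Fn ((Del 1).prod P) Y × Y.S 0 |
          p.1 m (((Del 1).prod P).act k x) = Y.act k (p.1 n x)}) ∩
        ((⋂ (n : ℕ) (x : P.S n) (_ : x ∈ (Sub.genF i.1).car n),
          {p : Fn ((Del 1).prod P) Y × Y.S 0 | p.1 n (cst 0, x) = f n x}) ∩
        ⋂ (n : ℕ) (x : P.S n) (_ : x ∈ (Sub.genF i.1).car n),
          {p : Fn ((Del 1).prod P) Y × Y.S 0 | p.1 n (cst 1, x) = Y.deg p.2 n}) := by
      ext g
      simp only [V, Set.mem_ofPred_eq, Set.mem_inter_iff, Set.mem_iInter]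
    rw [this]
    refine IsClosed.inter ?_ (IsClosed.inter ?_ ?_)
    · refine isClosed_iInter fun m => isClosed_iInter fun n => isClosed_iInter fun k =>
        isClosed_iInter fun x => isClosed_iInter fun _ => ?_
      exact isClosed_eq (hev m _) ((hY.cont k).comp (hev n x))
    · refine isClosed_iInter fun n => isClosed_iInter fun x => isClosed_iInter fun _ => ?_
      exact isClosed_eq (hev n _) continuous_const
    · refine isClosed_iInter fun n => isClosed_iInter fun x => isClosed_iInter fun _ => ?_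
      exact isClosed_eq (hev n _) (hdeg n)
  have hmono : ∀ i j : ι, i.1 ⊆ j.1 → V j ⊆ V i := by
    intro i j hij p hp
    have hle := c2_genF_mono hij
    exact ⟨fun m n k x hx => hp.1 m n k x ⟨hx.1, hle n hx.2⟩,
      fun n x hx => hp.2.1 n x (hle n hx), fun n x hx => hp.2.2 n x (hle n hx)⟩
  have hdirV : Directed (· ⊇ ·) V := by
    intro i j
    refine ⟨⟨i.1 ∪ j.1, fun x hx => (Finset.mem_union.1 hx).elim (i.2 x) (j.2 x)⟩, ?_, ?_⟩
    · exact hmono _ _ Finset.subset_union_left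
    · exact hmono _ _ Finset.subset_union_right
  have hne : ∀ i, (V i).Nonempty := by
    intro i
    obtain ⟨H, y, h1, h2, h3⟩ := h i.1 i.2
    exact ⟨(H, y), fun m n k x hx => h1 k x hx, h2, h3⟩
  obtain ⟨g, hg⟩ := IsCompact.nonempty_iInter_of_directed_nonempty_isCompact_isClosed V hdirV hne
    (fun i => (hclosed i).isCompact) hclosed
  rw [Set.mem_iInter] at hg
  refine ⟨g.1, g.2, ?_, ?_, ?_⟩
  · intro m n k x hx
    have hx2 : x.2 ∈ A.car n := hx.2
    exact (hg ⟨{⟨n, x.2⟩}, fun z hz => by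
      rw [Finset.mem_singleton] at hz
      subst hz
      exact hx2⟩).1 m n k x ⟨trivial, c2_mem_genF x.2⟩
  · intro n x hx
    exact (hg ⟨{⟨n, x⟩}, fun z hz => by
      rw [Finset.mem_singleton] at hz
      subst hz
      exact hx⟩).2.1 n x (c2_mem_genF x)
  · intro n x hx
    exact (hg ⟨{⟨n, x⟩}, fun z hz => by
      rw [Finset.mem_singleton] at hz
      subst hz
      exact hx⟩).2.2 n x (c2_mem_genF x)

/-- PROOF.  Let `H, y` be the null homotopy on `A`.  The function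
`F (t, x) = if t = cst 0 then κ x else if t = cst 1 then deg y else H (t, x)` is natural on
`box (bd 1) ⊤ A ⊤` (`mem_bd_one`) and extends to `bx ⊤ ⊤` by `hY.ext` and `acyc_box_right`. -/
theorem null_of_acyc {Y : SS} [∀ n, TopologicalSpace (Y.S n)] (hY : IsTarget Y) {P : SS}
    {A : Sub P} (hA : Acyc A ⊤) (κ : Hom P Y) (h : NullOn A κ.app) : Null κ := by
  classical
  obtain ⟨H, y, hH, h0, h1⟩ := h
  let F : Fn ((Del 1).prod P) Y := fun n x =>
    if x.1 = (cst 0 : Mo n 1) then κ.app n x.2 else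
      if x.1 = (cst 1 : Mo n 1) then Y.deg y n else H n x
  have F0 : ∀ n (x : P.S n), F n ((cst 0 : Mo n 1), x) = κ.app n x := fun n x => if_pos rfl
  have F1 : ∀ n (x : P.S n), F n ((cst 1 : Mo n 1), x) = Y.deg y n := fun n x => by
    show (if (cst 1 : Mo n 1) = (cst 0 : Mo n 1) then _ else _) = _
    rw [if_neg (cst_zero_ne_one n).symm]
    exact if_pos rfl
  have FA : ∀ n (x : ((Del 1).prod P).S n), x.2 ∈ A.car n → F n x = H n x := by
    rintro n ⟨t, x⟩ hx
    by_cases ht : t = (cst 0 : Mo n 1)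
    · subst ht
      rw [F0, h0 n x hx]
    · by_cases ht1 : t = (cst 1 : Mo n 1)
      · subst ht1
        rw [F1, h1 n x hx]
      · show (if t = (cst 0 : Mo n 1) then _ else _) = _
        rw [if_neg ht]
        exact if_neg ht1
  have hF : NatOn (Sub.box (bd 1) ⊤ A ⊤) F := by
    rintro m n k ⟨t, x⟩ hx
    rcases hx.2 with h2 | h2
    · rcases (mem_bd_one t).1 h2 with rfl | rfl
      · show F m ((cst 0 : Mo m 1), P.act k x) = Y.act k (F n ((cst 0 : Mo n 1), x))
        rw [F0, F0, κ.nat]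
      · show F m ((cst 1 : Mo m 1), P.act k x) = Y.act k (F n ((cst 1 : Mo n 1), x))
        rw [F1, F1]
        show Y.act (cst 0) y = Y.act k (Y.act (cst 0) y)
        rw [Y.act_comp]
        rfl
    · have h3 : P.act k x ∈ A.car m := A.closed k h2
      rw [FA n (t, x) h2, FA m (((Del 1).prod P).act k (t, x)) h3]
      exact hH k (t, x) ⟨trivial, h2⟩
  obtain ⟨G, hG, hGF⟩ := hY.ext _ _ _ (Sub.box_le_bx _ _ _ _)
    (acyc_box_right (Sub.le_top' (bd 1)) (Sub.le_top' A) hA) F hF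
  refine ⟨G, y, hG, ?_, ?_⟩
  · intro n x _
    rw [hGF n (cst 0, x) ⟨⟨trivial, trivial⟩, Or.inl ((mem_bd_one _).2 (Or.inl rfl))⟩, F0]
  · intro n x _
    rw [hGF n (cst 1, x) ⟨⟨trivial, trivial⟩, Or.inl ((mem_bd_one _).2 (Or.inr rfl))⟩, F1]

/-- pull back of a null homotopy to a subcomplex.

PROOF.  Let `H, y` be the null homotopy on `Q`.  Take
`H' (t, x) = if hx : x ∈ A then H (t, ρ ⟨x, hx⟩) else deg y`. -/
theorem nullOn_pull {P Q Y : SS} (A : Sub P) (ρ : Hom A.ss Q) (κ : Hom Q Y) (h : Null κ)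
    (f : Fn P Y) (hf : ∀ n (x : A.ss.S n), f n x.1 = κ.app n (ρ.app n x)) : NullOn A f := by
  classical
  obtain ⟨H, y, hH, h0, h1⟩ := h
  let H' : Fn ((Del 1).prod P) Y := fun n x =>
    if hx : x.2 ∈ A.car n then H n (x.1, ρ.app n ⟨x.2, hx⟩) else Y.deg y n
  have hH' : ∀ n (t : Mo n 1) (x : P.S n) (hx : x ∈ A.car n),
      H' n (t, x) = H n (t, ρ.app n ⟨x, hx⟩) := fun n t x hx => dif_pos hx
  refine ⟨H', y, ?_, ?_, ?_⟩
  · rintro m n k ⟨t, x⟩ hx
    have hx2 : x ∈ A.car n := hx.2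
    show H' m (t.comp k, P.act k x) = Y.act k (H' n (t, x))
    rw [hH' n t x hx2, hH' m _ _ (A.closed k hx2)]
    have e1 : ρ.app m ⟨P.act k x, A.closed k hx2⟩ = Q.act k (ρ.app n ⟨x, hx2⟩) :=
      ρ.nat k ⟨x, hx2⟩
    rw [e1]
    exact hH k (t, ρ.app n ⟨x, hx2⟩) ⟨trivial, trivial⟩
  · intro n x hx
    rw [hH' n _ x hx, h0 n _ trivial]
    exact (hf n ⟨x, hx⟩).symm
  · intro n x hx
    rw [hH' n _ x hx, h1 n _ trivial]


private noncomputable def c2_par {m : ℕ} (a : Mo m 1) : C(Dtop m, unitInterval) :=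
  ⟨fun t => ⟨(tmap a t : Fin 2 → ℝ) 1, mem_Icc_of_mem_stdSimplex (tmap a t).2 1⟩, by
    refine Continuous.subtype_mk ?_ _
    exact (continuous_apply (1 : Fin 2)).comp (continuous_subtype_val.comp (tmap a).continuous)⟩

private theorem c2_par_comp {l m : ℕ} (a : Mo m 1) (f : Mo l m) (t : Dtop l) :
    c2_par (a.comp f) t = c2_par a (tmap f t) := by
  apply Subtype.ext
  show (tmap (a.comp f) t : Fin 2 → ℝ) 1 = (tmap a (tmap f t) : Fin 2 → ℝ) 1
  rw [tmap_comp]

private theorem c2_tmap_apply {m n : ℕ} (f : Mo m n) (t : Dtop m) (i : Fin (n + 1)) :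
    (tmap f t : Fin (n + 1) → ℝ) i = ∑ j, if f j = i then (t : Fin (m + 1) → ℝ) j else 0 := by
  show FunOnFinite.linearMap ℝ ℝ f (t : Fin (m + 1) → ℝ) i = _
  rw [FunOnFinite.linearMap_apply_apply, Finset.sum_filter]

private theorem c2_par_zero {m : ℕ} (t : Dtop m) : c2_par (cst 0 : Mo m 1) t = 0 := by
  apply Subtype.ext
  show (tmap (cst 0 : Mo m 1) t : Fin 2 → ℝ) 1 = 0
  rw [c2_tmap_apply]
  apply Finset.sum_eq_zero
  intro j _
  rw [if_neg]
  show ¬ ((0 : Fin 2) = 1)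
  decide

private theorem c2_par_one {m : ℕ} (t : Dtop m) : c2_par (cst 1 : Mo m 1) t = 1 := by
  apply Subtype.ext
  show (tmap (cst 1 : Mo m 1) t : Fin 2 → ℝ) 1 = 1
  rw [c2_tmap_apply]
  have := t.2.2
  rw [← this]
  apply Finset.sum_congr rfl
  intro j _
  exact if_pos rfl

/-- Homotopic continuous maps induce homotopic simplicial maps; case of null-homotopic maps.

PROOF.  Let `h : [0,1] × X → Sph N` be a homotopy from `q` to the constant map `c`.  Put
`H (τ, σ) = κ (t ↦ h ((tmap τ t) 1, σ t))` for `τ : Mo n 1`, `σ : C(Dtop n, X)` (`(tmap τ t) 1` is the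
second barycentric coordinate, in `[0,1]`; it is `0` for `τ = cst 0`, `1` for `τ = cst 1`), and
`y = κ` (constant `0`-simplex `c`).  Naturality: `tmap_comp`. -/
theorem c_null_of_nullhomotopic {Y : SS} {N : ℕ} (κ : Hom (Sing (Sph N)) Y) {X : Type}
    [TopologicalSpace X] (q : C(X, Sph N)) (h : q.Nullhomotopic) :
    Null (κ.comp (Sing.map q)) := by
  obtain ⟨c, ⟨h⟩⟩ := h
  let G : ∀ n, Mo n 1 → C(Dtop n, X) → C(Dtop n, Sph N) := fun n a σ =>
    h.toContinuousMap.comp ((c2_par a).prodMk σ)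
  have hG : ∀ n (a : Mo n 1) (σ : C(Dtop n, X)) (t : Dtop n), G n a σ t = h (c2_par a t, σ t) :=
    fun n a σ t => rfl
  refine ⟨fun n x => κ.app n (G n x.1 x.2), κ.app 0 (ContinuousMap.const _ c), ?_, ?_, ?_⟩
  · rintro m n k ⟨a, σ⟩ _
    show κ.app m (G m (a.comp k) (σ.comp (tmap k))) = Y.act k (κ.app n (G n a σ))
    have e1 : κ.app m ((Sing (Sph N)).act k (G n a σ)) = Y.act k (κ.app n (G n a σ)) :=
      κ.nat k (G n a σ)
    rw [← e1]
    congr 1
    apply ContinuousMap.ext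
    intro t
    show h (c2_par (a.comp k) t, σ (tmap k t)) = h (c2_par a (tmap k t), σ (tmap k t))
    rw [c2_par_comp]
  · intro n σ _
    show κ.app n (G n (cst 0) σ) = κ.app n (q.comp σ)
    congr 1
    apply ContinuousMap.ext
    intro t
    show h (c2_par (cst 0) t, σ t) = q (σ t)
    rw [c2_par_zero]
    exact h.map_zero_left (σ t)
  · intro n σ _
    show κ.app n (G n (cst 1) σ) = Y.act (cst 0) (κ.app 0 (ContinuousMap.const _ c))
    have e1 : κ.app n ((Sing (Sph N)).act (cst 0) (ContinuousMap.const _ c)) =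
        Y.act (cst 0) (κ.app 0 (ContinuousMap.const _ c)) := κ.nat (cst 0) _
    rw [← e1]
    congr 1
    apply ContinuousMap.ext
    intro t
    show h (c2_par (cst 1) t, σ t) = c
    rw [c2_par_one]
    exact h.map_one_left (σ t)

/-- the empty space -/
theorem null_of_isEmpty {Y : SS} (hY : Nonempty (Y.S 0)) {X : Type} [TopologicalSpace X]
    [IsEmpty X] (κ : Hom (Sing X) Y) : Null κ := by
  obtain ⟨y⟩ := hY
  have hE : ∀ n, IsEmpty ((Sing X).S n) := fun n =>
    ⟨fun σ : C(Dtop n, X) => (inferInstance : IsEmpty X).false (σ (Classical.arbitrary _))⟩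
  exact ⟨fun n x => ((hE n).false x.2).elim, y, fun {m n} g x => ((hE n).false x.2).elim,
    fun n x => ((hE n).false x).elim, fun n x => ((hE n).false x).elim⟩

end MM
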