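import Pool.Agent.Lib_MP_33f7bb_d.C2

/-!
# C3: realisation of finitely generated subcomplexes of `Sing X × WW`
-/

namespace MM

/-- a vector of `ℝ^k × ℝ^l` as a sequence -/
def extC {k l : ℕ} (y : (Fin k → ℝ) × (Fin l → ℝ)) : ℕ → ℝ := fun i =>
  if h : i < k then y.1 ⟨i, h⟩ else if h' : i - k < l then y.2 ⟨i - k, h'⟩ else 0

/-- clamping to the cube `[-R, R]^k` -/
def clampC (R : ℝ) {k : ℕ} (y : Fin k → ℝ) : Fin k → ℝ := fun i => max (-R) (min R (y i))

private theorem c3_bound {j : ℕ} {n : ℕ} (g : (WW j).S n) :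
    ∃ (M : ℕ) (C : ℝ), 0 ≤ C ∧ (∀ t x i, M ≤ i → (g.1 (t, x)).2 i = 0) ∧
      ∀ t x, (∀ i, |(g.1 (t, x)).1 i| ≤ C) ∧ ∀ i, |(g.1 (t, x)).2 i| ≤ C := by
  obtain ⟨S, _, _, h2⟩ := g.2.fin
  obtain ⟨C, hC⟩ := g.2.bdd
  refine ⟨S.sup _root_.id + 1, max C 0, le_max_right _ _, fun t x i hi => h2 t x i fun hiS => ?_,
    fun t x => ⟨fun i => ((hC t x).1 i).trans (le_max_left _ _),
      fun i => ((hC t x).2 i).trans (le_max_left _ _)⟩⟩
  have := Finset.le_sup (f := _root_.id) hiS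
  simp only [_root_.id] at this
  omega

private theorem c3_uniform {X : Type} [TopologicalSpace X] {j : ℕ}
    (s : Finset (Σ n, ((Sing X).prod (WW j)).S n)) :
    ∃ (l : ℕ) (C : ℝ), 0 ≤ C ∧ ∀ a ∈ s, (∀ t x i, l ≤ i → (a.2.2.1 (t, x)).2 i = 0) ∧
      ∀ t x, (∀ i, |(a.2.2.1 (t, x)).1 i| ≤ C) ∧ ∀ i, |(a.2.2.1 (t, x)).2 i| ≤ C := by
  choose M C hC hM hb using fun a : (Σ n, ((Sing X).prod (WW j)).S n) => c3_bound a.2.2
  refine ⟨s.sup M, ∑ a ∈ s, C a, Finset.sum_nonneg fun a _ => hC a, fun a ha => ⟨?_, ?_⟩⟩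
  · intro t x i hi
    exact hM a t x i ((Finset.le_sup ha).trans hi)
  · intro t x
    have hle : C a ≤ ∑ a ∈ s, C a := Finset.single_le_sum (fun b _ => hC b) ha
    exact ⟨fun i => ((hb a t x).1 i).trans hle, fun i => ((hb a t x).2 i).trans hle⟩

private theorem c3_extC_cont {k l : ℕ} : Continuous (extC (k := k) (l := l)) := by
  refine continuous_pi fun i => ?_
  unfold extC
  by_cases h : i < k
  · simp only [h, dif_pos]
    exact (continuous_apply _).comp continuous_fst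
  · by_cases h' : i - k < l
    · simp only [h, h', dif_pos, dif_neg, not_false_eq_true]
      exact (continuous_apply _).comp continuous_snd
    · simp only [h, h', dif_neg, not_false_eq_true]
      exact continuous_const

private theorem c3_clamp_cont {R : ℝ} {k : ℕ} : Continuous (clampC R (k := k)) := by
  unfold clampC
  fun_prop

private theorem c3_clamp_norm {R : ℝ} (hR : 0 ≤ R) {k : ℕ} (v : Fin k → ℝ) :
    ‖clampC R v‖ ≤ R := by
  rw [pi_norm_le_iff_of_nonneg hR]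
  intro i
  rw [Real.norm_eq_abs, abs_le]
  exact ⟨le_max_left _ _, max_le (by linarith) (min_le_left _ _)⟩

private theorem c3_clamp_eq {R : ℝ} {k : ℕ} {v : Fin k → ℝ} (h : ∀ i, |v i| ≤ R) :
    clampC R v = v := by
  funext i
  have := abs_le.1 (h i)
  unfold clampC
  rw [min_eq_right this.2, max_eq_right this.1]

/-- projection to finitely many coordinates -/
private def c3_pr (j k l : ℕ) (a : (Fin j → ℝ) × (ℕ → ℝ)) :
    (Fin j → ℝ) × (Fin k → ℝ) × (Fin l → ℝ) :=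
  (a.1, fun i => a.2 i, fun i => a.2 (k + i))

private theorem c3_pr_cont {j k l : ℕ} : Continuous (c3_pr j k l) := by
  unfold c3_pr
  fun_prop

private theorem c3_pr_norm {j k l : ℕ} {C : ℝ} (hC : 0 ≤ C) {a : (Fin j → ℝ) × (ℕ → ℝ)}
    (h1 : ∀ i, |a.1 i| ≤ C) (h2 : ∀ i, |a.2 i| ≤ C) : ‖c3_pr j k l a‖ ≤ C := by
  rw [Prod.norm_def, Prod.norm_def]
  refine max_le ?_ (max_le ?_ ?_)
  · rw [pi_norm_le_iff_of_nonneg hC]
    exact fun i => h1 i
  · rw [pi_norm_le_iff_of_nonneg hC]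
    exact fun i => h2 _
  · rw [pi_norm_le_iff_of_nonneg hC]
    exact fun i => h2 _

/-- the realisation of a simplex -/
private noncomputable def c3_r {X : Type} [TopologicalSpace X] {j : ℕ} (k l : ℕ) (R : ℝ) {n : ℕ}
    (x : ((Sing X).prod (WW j)).S n) :
    C(Dtop n, X × C(Metric.closedBall (0 : (Fin k → ℝ) × (Fin l → ℝ)) R,
      (Fin j → ℝ) × (Fin k → ℝ) × (Fin l → ℝ))) :=
  ContinuousMap.prodMk x.1 (ContinuousMap.curry
    ⟨fun p => c3_pr j k l (x.2.1 (p.1, extC p.2.1)),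
      c3_pr_cont.comp (x.2.2.cont.comp (continuous_fst.prodMk
        (c3_extC_cont.comp (continuous_subtype_val.comp continuous_snd))))⟩)

private theorem c3_r_act {X : Type} [TopologicalSpace X] {j : ℕ} (k l : ℕ) (R : ℝ) {m n : ℕ}
    (f : Mo m n) (x : ((Sing X).prod (WW j)).S n) :
    c3_r k l R (((Sing X).prod (WW j)).act f x) = (c3_r k l R x).comp (tmap f) := rfl

/-- PROOF.  Write `a = (n, (σ_a, g_a))` for the elements of `s`.  Choose `l` such that the finite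
coordinate sets of all `g_a` are contained in `{i | i < k + l}`, a bound `C ≥ 0` for all `g_a` and
`R = C + 1`.  Let `Q = closedBall 0 R ⊆ (Fin k → ℝ) × (Fin l → ℝ)` (compact),
`E = (Fin j → ℝ) × (Fin k → ℝ) × (Fin l → ℝ)`, and
`pr : (Fin j → ℝ) × (ℕ → ℝ) → E`, `pr (a, b) = (a, fun i => b i, fun i => b (k + i))` (continuous).  For a
simplex `(σ, g)` of `Sing X × WW j` of dimension `n` let
`r (σ, g) : C(Dtop n, X × C(Q, E))`, `t ↦ (σ t, y ↦ pr (g (t, extC y)))` (`ContinuousMap.curry`); it is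
natural: `r (act f (σ, g)) = (r (σ, g)).comp (tmap f)`.
`X' = ⋃ a ∈ s, range (r (σ_a, g_a))`, a compact subset of the metric space `X × C(Q, E)`;
`p = Prod.fst`, `ρ x = r x` (its range is in `X'`, because `x = act f a`).
`Φ ((x, h), v, w) = (e0 j, v, w) + h (clampC R v, clampC R w)` (the clamped vector lies in `Q`);
continuous by `ContinuousEval`.  For `x' = (σ_a t, ...)` this is the formula of the statement.
No zeros: if `(v, w) ∈ Q` then a zero gives `e0 j + (g_a (t, y)).1 = 0` and `y + (g_a (t, y)).2 = 0`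
for `y = extC (v, w)` (coordinates `i ≥ k + l`: both are `0`), excluded by `IsWW.ne`.  If
`|v i| > R` then `|v i + (g_a ..).2 i| ≥ |v i| - C > 0`, and similarly for `w`. -/
theorem realise {X : Type} [MetricSpace X] [CompactSpace X] {j : ℕ} (k : ℕ)
    (s : Finset (Σ n, ((Sing X).prod (WW j)).S n)) :
    ∃ (X' : Type) (_ : MetricSpace X') (_ : CompactSpace X') (p : C(X', X))
      (ρ : Hom (Sub.genF s).ss (Sing X')) (l : ℕ) (R : ℝ)
      (Φ : X' × (Fin k → ℝ) × (Fin l → ℝ) → (Fin j → ℝ) × (Fin k → ℝ) × (Fin l → ℝ)),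
      (∀ n (x : (Sub.genF s).ss.S n), p.comp (ρ.app n x) = x.1.1) ∧ 1 ≤ R ∧ Continuous Φ ∧
      (∀ z, Φ z ≠ 0) ∧ (∃ C : ℝ, ∀ x v w, ‖Φ (x, v, w) - (e0 j, v, w)‖ ≤ C) ∧
      ∀ x', ∃ a ∈ s, ∃ t : Dtop a.1, p x' = a.2.1 t ∧
        ∀ (v : Fin k → ℝ) (w : Fin l → ℝ), Φ (x', v, w) =
          (e0 j + (a.2.2.1 (t, extC (clampC R v, clampC R w))).1,
            fun i => v i + (a.2.2.1 (t, extC (clampC R v, clampC R w))).2 i,
            fun i => w i + (a.2.2.1 (t, extC (clampC R v, clampC R w))).2 (k + i)) := by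
  classical
  obtain ⟨l, C, hC, hs⟩ := c3_uniform s
  have hR : (0 : ℝ) ≤ C + 1 := by linarith
  -- the space
  let T : Set (X × C(Metric.closedBall (0 : (Fin k → ℝ) × (Fin l → ℝ)) (C + 1),
      (Fin j → ℝ) × (Fin k → ℝ) × (Fin l → ℝ))) :=
    ⋃ a ∈ s, Set.range (c3_r k l (C + 1) a.2)
  have hTc : IsCompact T := s.isCompact_biUnion fun a _ =>
    isCompact_range (c3_r k l (C + 1) a.2).continuous
  have hTmem : ∀ z ∈ T, ∃ a ∈ s, ∃ t : Dtop a.1, c3_r k l (C + 1) a.2 t = z := by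
    intro z hz
    obtain ⟨a, ha⟩ := Set.mem_iUnion.1 hz
    obtain ⟨ha, t, ht⟩ := Set.mem_iUnion.1 ha
    exact ⟨a, ha, t, ht⟩
  have hgen : ∀ n (x : (Sub.genF s).ss.S n) (t : Dtop n), c3_r k l (C + 1) x.1 t ∈ T := by
    rintro n ⟨x, n', f, y, hy, rfl⟩ t
    refine Set.mem_iUnion.2 ⟨⟨n', y⟩, Set.mem_iUnion.2 ⟨hy, ?_⟩⟩
    rw [c3_r_act]
    exact ⟨tmap f t, rfl⟩
  have hmem : ∀ (v : Fin k → ℝ) (w : Fin l → ℝ), (clampC (C + 1) v, clampC (C + 1) w) ∈
      Metric.closedBall (0 : (Fin k → ℝ) × (Fin l → ℝ)) (C + 1) := by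
    intro v w
    rw [mem_closedBall_zero_iff, Prod.norm_def]
    exact max_le (c3_clamp_norm hR v) (c3_clamp_norm hR w)
  let Φ : T × (Fin k → ℝ) × (Fin l → ℝ) → (Fin j → ℝ) × (Fin k → ℝ) × (Fin l → ℝ) := fun z =>
    (e0 j, z.2.1, z.2.2) + z.1.1.2 ⟨(clampC (C + 1) z.2.1, clampC (C + 1) z.2.2), hmem _ _⟩
  have hΦ : ∀ (x' : T), ∃ a ∈ s, ∃ t : Dtop a.1, x'.1.1 = a.2.1 t ∧
      ∀ (v : Fin k → ℝ) (w : Fin l → ℝ), Φ (x', v, w) = (e0 j, v, w) +
        c3_pr j k l (a.2.2.1 (t, extC (clampC (C + 1) v, clampC (C + 1) w))) := by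
    rintro ⟨x', hx'⟩
    obtain ⟨a, ha, t, rfl⟩ := hTmem x' hx'
    exact ⟨a, ha, t, rfl, fun v w => rfl⟩
  have hform : ∀ (n : ℕ) (g : (Fin j → ℝ) × (ℕ → ℝ)) (v : Fin k → ℝ) (w : Fin l → ℝ),
      (e0 j, v, w) + c3_pr j k l g = (e0 j + g.1, fun i => v i + g.2 i,
        fun i => w i + g.2 (k + i)) := fun _ _ _ _ => rfl
  refine ⟨T, inferInstance, isCompact_iff_compactSpace.1 hTc,
    ⟨fun z => z.1.1, continuous_fst.comp continuous_subtype_val⟩,
    ⟨fun n x => ⟨fun t => ⟨c3_r k l (C + 1) x.1 t, hgen n x t⟩, by fun_prop⟩, ?_⟩,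
    l, C + 1, Φ, ?_, by linarith, ?_, ?_, ⟨C, ?_⟩, ?_⟩
  · intro m n f x
    rfl
  · intro n x
    rfl
  · have hc : Continuous fun z : T × (Fin k → ℝ) × (Fin l → ℝ) =>
        (⟨(clampC (C + 1) z.2.1, clampC (C + 1) z.2.2), hmem _ _⟩ :
          Metric.closedBall (0 : (Fin k → ℝ) × (Fin l → ℝ)) (C + 1)) := by
      refine Continuous.subtype_mk ?_ _
      exact (c3_clamp_cont.comp (continuous_fst.comp continuous_snd)).prodMk
        (c3_clamp_cont.comp (continuous_snd.comp continuous_snd))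
    have hc2 : Continuous fun z : T × (Fin k → ℝ) × (Fin l → ℝ) => z.1.1.2 :=
      continuous_snd.comp (continuous_subtype_val.comp continuous_fst)
    have hc3 : Continuous fun z : T × (Fin k → ℝ) × (Fin l → ℝ) => z.1.1.2
        (⟨(clampC (C + 1) z.2.1, clampC (C + 1) z.2.2), hmem _ _⟩ :
          Metric.closedBall (0 : (Fin k → ℝ) × (Fin l → ℝ)) (C + 1)) := hc2.eval hc
    exact Continuous.add (by fun_prop) hc3
  · rintro ⟨x', v, w⟩ h0
    obtain ⟨a, ha, t, -, h1⟩ := hΦ x'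
    rw [h1, hform 0, Prod.mk_eq_zero, Prod.mk_eq_zero] at h0
    obtain ⟨h01, h02, h03⟩ := h0
    obtain ⟨hs1, hs2⟩ := hs a ha
    have hv : ∀ i, |v i| ≤ C + 1 := by
      intro i
      have h3 : v i = -_ := eq_neg_of_add_eq_zero_left (congrFun h02 i)
      rw [h3, abs_neg]
      linarith [(hs2 t (extC (clampC (C + 1) v, clampC (C + 1) w))).2 i]
    have hw : ∀ i, |w i| ≤ C + 1 := by
      intro i
      have h3 : w i = -_ := eq_neg_of_add_eq_zero_left (congrFun h03 i)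
      rw [h3, abs_neg]
      linarith [(hs2 t (extC (clampC (C + 1) v, clampC (C + 1) w))).2 (k + i)]
    rw [c3_clamp_eq hv, c3_clamp_eq hw] at h01 h02 h03
    refine a.2.2.2.ne t (extC (v, w)) ⟨h01, ?_⟩
    funext i
    show extC (v, w) i + (a.2.2.1 (t, extC (v, w))).2 i = 0
    by_cases hik : i < k
    · have h4 : extC (v, w) i = v ⟨i, hik⟩ := by simp [extC, hik]
      rw [h4]
      exact congrFun h02 ⟨i, hik⟩
    · by_cases hil : i - k < l
      · have h4 : extC (v, w) i = w ⟨i - k, hil⟩ := by simp [extC, hik, hil]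
        rw [h4]
        have h5 := congrFun h03 ⟨i - k, hil⟩
        have h6 : k + (i - k) = i := by omega
        simp only [h6] at h5
        exact h5
      · have h4 : extC (v, w) i = 0 := by simp [extC, hik, hil]
        rw [h4, hs1 t _ i (by omega), add_zero]
  · intro x' v w
    obtain ⟨a, ha, t, -, h1⟩ := hΦ x'
    rw [h1, add_sub_cancel_left]
    obtain ⟨hs1, hs2⟩ := hs a ha
    exact c3_pr_norm hC (hs2 _ _).1 (hs2 _ _).2
  · intro x'
    obtain ⟨a, ha, t, h0, h1⟩ := hΦ x'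
    exact ⟨a, ha, t, h0, fun v w => (h1 v w).trans (hform 0 _ v w)⟩

end MM
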