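import Pool.Agent.Lib_MP_33f7bb_d.C1
import Pool.Agent.Lib_MP_33f7bb_d.C3

/-!
# C4: one step
-/

namespace MM

/-- the perturbation given by the task map -/
private noncomputable def C4g {X : Type} [TopologicalSpace X] {j k : ℕ}
    (φ : X × (Fin k → ℝ) → (Fin j → ℝ) × (Fin k → ℝ)) {n : ℕ} (σ : C(Dtop n, X)) :
    Dtop n × (ℕ → ℝ) → (Fin j → ℝ) × (ℕ → ℝ) := fun p =>
  ((φ (σ p.1, fun i : Fin k => p.2 i)).1 - e0 j,
    fun i => if hi : i < k then (φ (σ p.1, fun i : Fin k => p.2 i)).2 ⟨i, hi⟩ - p.2 i else 0)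

private theorem C4_bdd {X : Type} [MetricSpace X] [CompactSpace X] {j k : ℕ}
    {A : Set X} {φ : X × (Fin k → ℝ) → (Fin j → ℝ) × (Fin k → ℝ)} (h : IsTask j k A φ) :
    ∃ C : ℝ, 0 ≤ C ∧ ∀ x v, ‖(φ (x, v)).1 - e0 j‖ ≤ C ∧ ‖(φ (x, v)).2 - v‖ ≤ C := by
  have hK : IsCompact ((Set.univ : Set X) ×ˢ Metric.closedBall (0 : Fin k → ℝ) 1) :=
    isCompact_univ.prod (isCompact_closedBall 0 1)
  have hc1 : Continuous fun p : X × (Fin k → ℝ) => (φ p).1 - e0 j :=
    (continuous_fst.comp h.cont).sub continuous_const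
  have hc2 : Continuous fun p : X × (Fin k → ℝ) => (φ p).2 - p.2 :=
    (continuous_snd.comp h.cont).sub continuous_snd
  obtain ⟨C1, hC1⟩ := hK.exists_bound_of_continuousOn hc1.continuousOn
  obtain ⟨C2, hC2⟩ := hK.exists_bound_of_continuousOn hc2.continuousOn
  refine ⟨max 0 (max C1 C2), le_max_left _ _, fun x v => ?_⟩
  by_cases hv : ‖v‖ ≤ 1
  · have hm : (x, v) ∈ (Set.univ : Set X) ×ˢ Metric.closedBall (0 : Fin k → ℝ) 1 :=
      ⟨trivial, mem_closedBall_zero_iff.2 hv⟩
    exact ⟨(hC1 _ hm).trans ((le_max_left _ _).trans (le_max_right _ _)),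
      (hC2 _ hm).trans ((le_max_right _ _).trans (le_max_right _ _))⟩
  · rw [h.triv x v (not_le.1 hv).le]
    simp

private theorem C4_isWW {X : Type} [MetricSpace X] [CompactSpace X] {j k : ℕ}
    {A : Set X} {φ : X × (Fin k → ℝ) → (Fin j → ℝ) × (Fin k → ℝ)} (h : IsTask j k A φ)
    {U : Set X} (hU : ∀ x ∈ U, ∀ t, φ (x, t) ≠ 0) {n : ℕ} (σ : C(Dtop n, X)) (hσ : ∀ t, σ t ∈ U) :
    IsWW j Set.univ (C4g φ σ) := by
  have hr : Continuous fun p : Dtop n × (ℕ → ℝ) => φ (σ p.1, fun i : Fin k => p.2 i) := by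
    refine h.cont.comp ((σ.continuous.comp continuous_fst).prodMk ?_)
    exact continuous_pi fun i => (continuous_apply (i : ℕ)).comp continuous_snd
  refine ⟨?_, ⟨Finset.range k, Set.subset_univ _, ?_, ?_⟩, ?_, ?_⟩
  · refine ((continuous_fst.comp hr).sub continuous_const).prodMk (continuous_pi fun i => ?_)
    by_cases hi : i < k
    · simp only [dif_pos hi]
      exact ((continuous_apply (⟨i, hi⟩ : Fin k)).comp (continuous_snd.comp hr)).sub
        ((continuous_apply i).comp continuous_snd)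
    · simp only [dif_neg hi]
      exact continuous_const
  · intro t x y hxy
    have h1 : (fun i : Fin k => x i) = fun i : Fin k => y i :=
      funext fun i => hxy i (Finset.mem_range.2 i.2)
    simp only [C4g]
    rw [h1]
    congr 1
    funext i
    split_ifs with hi
    · rw [hxy i (Finset.mem_range.2 hi)]
    · rfl
  · intro t x i hi
    have h1 : ¬ i < k := fun h2 => hi (Finset.mem_range.2 h2)
    simp only [C4g, dif_neg h1]
  · obtain ⟨C, hC0, hC⟩ := C4_bdd h
    refine ⟨C, fun t x => ⟨fun i => ?_, fun i => ?_⟩⟩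
    · exact (norm_le_pi_norm ((φ (σ t, fun i : Fin k => x i)).1 - e0 j) i).trans (hC _ _).1
    · simp only [C4g]
      split_ifs with hi
      · exact (norm_le_pi_norm ((φ (σ t, fun i : Fin k => x i)).2 - fun i : Fin k => x i) ⟨i, hi⟩).trans
          (hC _ _).2
      · rw [abs_zero]
        exact hC0
  · rintro t x ⟨h1, h2⟩
    apply hU (σ t) (hσ t) (fun i : Fin k => x i)
    apply Prod.ext
    · simp only [C4g] at h1
      rw [add_sub_cancel] at h1
      exact h1
    · funext i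
      have h3 := congrFun h2 (i : ℕ)
      simp only [C4g, Pi.add_apply, dif_pos i.2, Pi.zero_apply, Fin.eta] at h3
      rw [add_sub_cancel] at h3
      exact h3

/-- The simplices of `WW` given by a task map.

PROOF.  For `σ ∈ SingIn U` the function `g (t, y)` of the statement satisfies `IsWW j univ`: the
coordinate set is `{i | i < k}`; it is bounded because `φ (x, v) - (e0, v)` is bounded (it vanishes
for `‖v‖ ≥ 1` and `X × closedBall 0 1` is compact); a zero of `(e0, y) + g (t, y)` gives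
`φ (σ t, y|k) = 0`.  Put `γ n σ = ⟨g, _⟩` for `σ ∈ SingIn U` and a constant (`WW0`) otherwise. -/
theorem exists_gamma {X : Type} [MetricSpace X] [CompactSpace X] {j k : ℕ} (hj : 1 ≤ j)
    {A : Set X} {φ : X × (Fin k → ℝ) → (Fin j → ℝ) × (Fin k → ℝ)} (h : IsTask j k A φ)
    {U : Set X} (hU : ∀ x ∈ U, ∀ t, φ (x, t) ≠ 0) :
    ∃ γ : Fn (Sing X) (WW j), NatOn (SingIn U) γ ∧
      ∀ (n : ℕ) (σ : C(Dtop n, X)), σ ∈ (SingIn U).car n → ∀ (t : Dtop n) (y : ℕ → ℝ),
        (γ n σ).1 (t, y) = ((φ (σ t, fun i : Fin k => y i)).1 - e0 j,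
          fun i => if hi : i < k then (φ (σ t, fun i : Fin k => y i)).2 ⟨i, hi⟩ - y i else 0) := by
  classical
  refine ⟨fun n (σ : C(Dtop n, X)) => if hσ : ∀ t, σ t ∈ U then ⟨C4g φ σ, C4_isWW h hU σ hσ⟩
    else (WW j).deg (WW0 j hj) n, ?_, ?_⟩
  · intro m n f σ hσ
    have h1 : ∀ t, (σ : C(Dtop n, X)) t ∈ U := hσ
    have h2 : ∀ t, ((Sing X).act f σ : C(Dtop m, X)) t ∈ U := fun t => h1 (tmap f t)
    simp only [dif_pos h1, dif_pos h2]
    rfl
  · intro n σ hσ t y
    have h1 : ∀ t, σ t ∈ U := hσ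
    simp only [dif_pos h1]
    rfl

/-- One step: an essential state has an essential extension on which a given task is solved.

PROOF.  `U = {x | ∀ t, φ (x, t) ≠ 0}` is open (zeros have `‖t‖ ≤ 1`; projection along the compact
ball) and contains `A`.  Urysohn: `s : C(X, ℝ)`, `s = 0` on `A`, `s = 1` on `Uᶜ`.
`X₁ = {x | 1/3 ≤ s x}`, `X₂ = {x | s x ≤ 2/3}`; their interiors cover `X`, `X₁ ∩ A = ∅`, `X₂ ⊆ U`.
Take `γ` from `exists_gamma` for `X₂`, `S₁ = SingIn X₁`, `S₂ = SingIn X₂`, `κ' = κ.comp (Sing.map q)`.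
`κ'` is not null on `S₁ ⊔ S₂` (`null_of_acyc`, `hS`), hence `κ' ∘ pr₁` is not null on
`EEc S₁ S₂ γ` (`nullOn_sup`, `hW`), hence not null on `Sub.genF s` for some finite set `s` of
simplices of `EEc` (`nullOn_of_fin`).  Take `X', p, ρ, l, R, Φ` from `realise`.  If
`κ.comp (Sing.map (q.comp p))` were null then `κ' ∘ pr₁` would be null on `Sub.genF s`
(`nullOn_pull`).
`Solved p A φ`: let `p x' ∈ A` and let `a = (n, (σ, g)) ∈ s`, `t` be as in `realise`.  `σ` is not in
`SingIn X₁` because `σ t = p x' ∈ A`; so `g = γ σ`, `σ ∈ SingIn X₂`.  For `v, w` let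
`v' = clampC R v`; `extC (v', _)` restricted to the first `k` coordinates is `v'`, so
`Φ (x', v, w) = ((φ (x, v')).1, v + ((φ (x, v')).2 - v'), w)`, `x = p x'`.  If `‖v‖ ≤ R` then `v' = v`.
If `‖v‖ > R ≥ 1` then `‖v'‖ ≥ 1`, and `φ (x, v') = (e0, v')`, `φ (x, v) = (e0, v)`.  In both cases the
value is `((φ (x, v)).1, (φ (x, v)).2, w)`. -/
theorem one_step {Y : SS} [∀ n, TopologicalSpace (Y.S n)] (hY : IsTarget Y) {N : ℕ}
    (κ : Hom (Sing (Sph N)) Y) {X : Type} [MetricSpace X] [CompactSpace X] (q : C(X, Sph N))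
    (hq : ¬ Null (κ.comp (Sing.map q))) {j k : ℕ} (hj : 1 ≤ j)
    (hW : Good Y (Sub.pt (WW0 j hj)) (⊤ : Sub (WW j)))
    (hS : ∀ X₁ X₂ : Set X, interior X₁ ∪ interior X₂ = Set.univ →
      Acyc (SingIn X₁ ⊔ SingIn X₂) (⊤ : Sub (Sing X)))
    {A : Set X} {φ : X × (Fin k → ℝ) → (Fin j → ℝ) × (Fin k → ℝ)} (h : IsTask j k A φ) :
    ∃ (X' : Type) (_ : MetricSpace X') (_ : CompactSpace X') (p : C(X', X)),
      ¬ Null (κ.comp (Sing.map (q.comp p))) ∧ Solved p A φ := by
  classical
  -- the open set where there are no zeros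
  set U : Set X := {x | ∀ t, φ (x, t) ≠ 0} with hUdef
  have hUo : IsOpen U := by
    rw [← isClosed_compl_iff]
    have h1 : Uᶜ = Prod.fst '' ((Set.univ ×ˢ Metric.closedBall (0 : Fin k → ℝ) 1) ∩ φ ⁻¹' {0}) := by
      ext x
      constructor
      · intro hx
        have hx' : ∃ t, φ (x, t) = 0 := by
          by_contra h2
          exact hx fun t h3 => h2 ⟨t, h3⟩
        obtain ⟨t, ht⟩ := hx'
        refine ⟨(x, t), ⟨⟨trivial, mem_closedBall_zero_iff.2 ?_⟩, ht⟩, rfl⟩
        by_contra h2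
        have h3 := (not_le.1 h2).le
        rw [h.triv x t h3] at ht
        have h4 : t = 0 := (Prod.mk.inj ht).2
        rw [h4, norm_zero] at h2
        exact h2 zero_le_one
      · rintro ⟨⟨x', t⟩, ⟨-, ht⟩, rfl⟩ hx
        exact hx t ht
    rw [h1]
    have h2 : IsCompact ((Set.univ ×ˢ Metric.closedBall (0 : Fin k → ℝ) 1) ∩ φ ⁻¹' {0}) :=
      (isCompact_univ.prod (isCompact_closedBall 0 1)).inter_right (isClosed_singleton.preimage h.cont)
    exact (h2.image continuous_fst).isClosed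
  have hAU : A ⊆ U := fun x hx t => h.ne x hx t
  obtain ⟨s, hs0, hs1, -⟩ := exists_continuous_zero_one_of_isClosed h.closed hUo.isClosed_compl
    (Set.disjoint_left.2 fun x hx hx' => hx' (hAU hx))
  set X₁ : Set X := {x | 1 / 3 ≤ s x} with hX₁
  set X₂ : Set X := {x | s x ≤ 2 / 3} with hX₂
  have hint : interior X₁ ∪ interior X₂ = Set.univ := by
    rw [Set.eq_univ_iff_forall]
    intro x
    rcases lt_or_ge (1 / 3 : ℝ) (s x) with h1 | h1
    · left
      have h2 : {y | (1 / 3 : ℝ) < s y} ⊆ interior X₁ :=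
        interior_maximal (fun y (hy : (1 / 3 : ℝ) < s y) => le_of_lt hy) (isOpen_lt continuous_const s.continuous)
      exact h2 h1
    · right
      have h2 : {y | s y < (2 / 3 : ℝ)} ⊆ interior X₂ :=
        interior_maximal (fun y (hy : s y < (2 / 3 : ℝ)) => le_of_lt hy) (isOpen_lt s.continuous continuous_const)
      exact h2 (show s x < 2 / 3 by linarith)
  have hX₂U : ∀ x ∈ X₂, ∀ t, φ (x, t) ≠ 0 := by
    intro x hx
    by_contra h1
    have h2 : s x = 1 := hs1 (show x ∈ Uᶜ from h1)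
    have h3 : s x ≤ 2 / 3 := hx
    linarith
  obtain ⟨γ, hγ, hγv⟩ := exists_gamma hj h hX₂U
  have h1 : ¬ NullOn (SingIn X₁ ⊔ SingIn X₂) (κ.comp (Sing.map q)).app :=
    fun h1 => hq (null_of_acyc hY (hS X₁ X₂ hint) _ h1)
  have h2 : ¬ NullOn (EEc (SingIn X₁) (SingIn X₂) γ hγ)
      (fun n x => (κ.comp (Sing.map q)).app n x.1) :=
    fun h2 => h1 (nullOn_sup hY hW _ _ γ hγ _ h2)
  have h3 : ∃ s : Finset (Σ n, ((Sing X).prod (WW j)).S n),
      (∀ x ∈ s, x.2 ∈ (EEc (SingIn X₁) (SingIn X₂) γ hγ).car x.1) ∧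
      ¬ NullOn (Sub.genF s) (fun n x => (κ.comp (Sing.map q)).app n x.1) := by
    by_contra h3
    push Not at h3
    exact h2 (nullOn_of_fin hY _ _ h3)
  obtain ⟨F, hF, hFn⟩ := h3
  obtain ⟨X', i1, i2, p, ρ, l, R, Φ, hρ, hR, hΦc, hΦ0, hΦb, hΦ⟩ := realise (X := X) (j := j) k F
  refine ⟨X', i1, i2, p, ?_, l, Φ, hΦc, hΦ0, hΦb, ?_⟩
  · intro hn
    refine hFn (nullOn_pull (Sub.genF F) ρ _ hn _ ?_)
    intro n x
    have h4 := hρ n x
    show κ.app n (q.comp x.1.1) = κ.app n ((q.comp p).comp (ρ.app n x))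
    rw [← h4]
    rfl
  · intro x' v w hA
    obtain ⟨a, ha, t, hpt, hval⟩ := hΦ x'
    have h4 := hF a ha
    have h5 : a.2.1 ∈ (SingIn X₂).car a.1 ∧ a.2.2 = γ a.1 a.2.1 := by
      rcases h4 with h4 | h4
      · exfalso
        have h5 : 1 / 3 ≤ s (a.2.1 t) := h4 t
        rw [← hpt] at h5
        have h6 : s (p x') = 0 := hs0 hA
        rw [h6] at h5
        norm_num at h5
      · exact h4
    have h6 := hγv a.1 a.2.1 h5.1 t (extC (clampC R v, clampC R w))
    rw [← h5.2, ← hpt] at h6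
    have h7 : (fun i : Fin k => extC (clampC R v, clampC R w) i) = clampC R v := by
      funext i
      simp [extC]
    rw [h7] at h6
    rw [hval v w, h6]
    have h8 : Φ (x', v, w) = ((φ (p x', clampC R v)).1,
        fun i => v i + ((φ (p x', clampC R v)).2 i - clampC R v i), w) := by
      rw [hval v w, h6]
      refine Prod.ext ?_ (Prod.ext ?_ ?_)
      · show e0 j + ((φ (p x', clampC R v)).1 - e0 j) = _
        abel
      · funext i
        have h9 := congrFun h7 i
        simp only [dif_pos i.2, Fin.eta, h9]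
      · funext i
        have h9 : ¬ k + (i : ℕ) < k := by omega
        simp only [dif_neg h9, add_zero]
    rw [← h6, ← hval v w, h8]
    by_cases hv : ‖v‖ ≤ R
    · have h9 : clampC R v = v := by
        funext i
        have h10 := (norm_le_pi_norm v i).trans hv
        rw [Real.norm_eq_abs, abs_le] at h10
        simp only [clampC]
        rw [min_eq_right h10.2, max_eq_right h10.1]
      rw [h9]
      refine Prod.ext rfl (Prod.ext ?_ rfl)
      funext i
      show v i + ((φ (p x', v)).2 i - v i) = (φ (p x', v)).2 i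
      ring
    · have h9 : 1 ≤ ‖v‖ := hR.trans (not_le.1 hv).le
      have h10 : 1 ≤ ‖clampC R v‖ := by
        have h11 : ∃ i, R < ‖v i‖ := by
          by_contra h12
          push Not at h12
          exact hv ((pi_norm_le_iff_of_nonneg (by linarith)).2 h12)
        obtain ⟨i, hi⟩ := h11
        refine hR.trans (le_trans ?_ (norm_le_pi_norm (clampC R v) i))
        rw [Real.norm_eq_abs] at hi ⊢
        simp only [clampC]
        rcases lt_abs.1 hi with h12 | h12
        · rw [min_eq_left h12.le, max_eq_right (by linarith)]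
          exact le_abs_self R
        · rw [min_eq_right (by linarith), max_eq_left (by linarith), abs_neg]
          exact le_abs_self R
      rw [h.triv _ _ h9, h.triv _ _ h10]
      refine Prod.ext rfl (Prod.ext ?_ rfl)
      funext i
      show v i + (clampC R v i - clampC R v i) = v i
      ring

end MM
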