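import Pool.Agent.Lib_MP_33f7bb_d.Defs

/-!
# C5: tasks, countable lists of tasks, bonding maps
-/

open Set

namespace MM

/-- tasks of degree at least `3` -/
structure Task (X : Type) [TopologicalSpace X] where
  j : ℕ
  k : ℕ
  hj : 3 ≤ j
  A : Set X
  φ : X × (Fin k → ℝ) → (Fin j → ℝ) × (Fin k → ℝ)
  isTask : IsTask j k A φ

/-- pull back -/
def Task.pull {X X' : Type} [TopologicalSpace X] [TopologicalSpace X'] (T : Task X)
    (p : C(X', X)) : Task X' where
  j := T.j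
  k := T.k
  hj := T.hj
  A := p ⁻¹' T.A
  φ := fun x => T.φ (p x.1, x.2)
  isTask := ⟨T.isTask.closed.preimage p.continuous,
    T.isTask.cont.comp ((p.continuous.comp continuous_fst).prodMk continuous_snd),
    fun _ t h => T.isTask.triv _ t h, fun _ hx t => T.isTask.ne _ hx t⟩

/-- the task is solved on `p : X' → X` -/
def Task.Solv {X X' : Type} [TopologicalSpace X] [TopologicalSpace X'] (T : Task X)
    (p : C(X', X)) : Prop := Solved p T.A T.φ

theorem Task.solv_pull {X X' X'' : Type} [TopologicalSpace X] [TopologicalSpace X']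
    [TopologicalSpace X''] (T : Task X) (p : C(X', X)) (p' : C(X'', X')) :
    (T.pull p).Solv p' ↔ T.Solv (p.comp p') := Iff.rfl

private def C5_clamp {k : ℕ} (t : Fin k → ℝ) : Fin k → ℝ := fun i => max (-1) (min 1 (t i))

private theorem C5_clamp_le {k : ℕ} (t : Fin k → ℝ) : ‖C5_clamp t‖ ≤ 1 := by
  rw [pi_norm_le_iff_of_nonneg zero_le_one]
  intro i
  rw [Real.norm_eq_abs, abs_le]
  exact ⟨le_max_left _ _, max_le (by norm_num) (min_le_left _ _)⟩

private theorem C5_clamp_eq {k : ℕ} {t : Fin k → ℝ} (h : ‖t‖ ≤ 1) : C5_clamp t = t := by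
  funext i
  have h1 : |t i| ≤ 1 := (norm_le_pi_norm t i).trans h
  have h2 := abs_le.1 h1
  show max (-1) (min 1 (t i)) = t i
  rw [min_eq_right h2.2, max_eq_right h2.1]

private theorem C5_clamp_norm {k : ℕ} {t : Fin k → ℝ} (h : 1 ≤ ‖t‖) : ‖C5_clamp t‖ = 1 := by
  refine le_antisymm (C5_clamp_le t) ?_
  by_contra hlt
  rw [not_le] at hlt
  have h2 : ‖t‖ < 1 := by
    rw [pi_norm_lt_iff zero_lt_one]
    intro i
    have h3 : ‖C5_clamp t i‖ < 1 := lt_of_le_of_lt (norm_le_pi_norm _ i) hlt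
    have h4 : C5_clamp t i = max (-1) (min 1 (t i)) := rfl
    rw [h4, Real.norm_eq_abs, abs_lt] at h3
    rw [Real.norm_eq_abs, abs_lt]
    obtain ⟨h5, h6⟩ := h3
    constructor
    · by_contra h7
      rw [not_lt] at h7
      rw [max_eq_left ((min_le_right 1 (t i)).trans h7)] at h5
      exact lt_irrefl _ h5
    · by_contra h7
      rw [not_lt] at h7
      rw [min_eq_left h7] at h6
      exact absurd h6 (not_lt.2 (le_max_right _ _))
  linarith

private abbrev C5_Q (k : ℕ) := Metric.closedBall (0 : Fin k → ℝ) 1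

private theorem C5_Q_compact (k : ℕ) : CompactSpace (C5_Q k) :=
  isCompact_iff_compactSpace.1 (isCompact_closedBall _ _)

attribute [local instance] C5_Q_compact

private def C5_pr {k : ℕ} (t : Fin k → ℝ) : C5_Q k := ⟨C5_clamp t, by
  rw [mem_closedBall_zero_iff]
  exact C5_clamp_le t⟩

private theorem C5_pr_cont {k : ℕ} : Continuous (C5_pr (k := k)) := by
  refine Continuous.subtype_mk (continuous_pi fun i => ?_) _
  exact continuous_const.max (continuous_const.min (continuous_apply i))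

private abbrev C5_T (X : Type) [MetricSpace X] [CompactSpace X] (j k : ℕ) :=
  {ψ : C(X × C5_Q k, (Fin j → ℝ) × (Fin k → ℝ)) //
    ∀ x (t : C5_Q k), ‖(t : Fin k → ℝ)‖ = 1 → ψ (x, t) = 0}

private theorem C5_T_ne (X : Type) [MetricSpace X] [CompactSpace X] (j k : ℕ) :
    Nonempty (C5_T X j k) := ⟨⟨0, fun _ _ _ => rfl⟩⟩

attribute [local instance] C5_T_ne

private noncomputable def C5_seq (X : Type) [MetricSpace X] [CompactSpace X] (j k : ℕ) :
    ℕ → C5_T X j k := TopologicalSpace.denseSeq _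

private noncomputable def C5_phi {X : Type} [MetricSpace X] [CompactSpace X] {j k : ℕ}
    (ψ : C5_T X j k) (p : X × (Fin k → ℝ)) : (Fin j → ℝ) × (Fin k → ℝ) :=
  (e0 j, p.2) + ψ.1 (p.1, C5_pr p.2)

private theorem C5_phi_cont {X : Type} [MetricSpace X] [CompactSpace X] {j k : ℕ}
    (ψ : C5_T X j k) : Continuous (C5_phi ψ) :=
  (continuous_const.prodMk continuous_snd).add
    (ψ.1.continuous.comp (continuous_fst.prodMk (C5_pr_cont.comp continuous_snd)))

private theorem C5_phi_triv {X : Type} [MetricSpace X] [CompactSpace X] {j k : ℕ}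
    (ψ : C5_T X j k) (x : X) (t : Fin k → ℝ) (h : 1 ≤ ‖t‖) : C5_phi ψ (x, t) = (e0 j, t) := by
  show (e0 j, t) + ψ.1 (x, C5_pr t) = _
  rw [ψ.2 x (C5_pr t) (C5_clamp_norm h), add_zero]

private noncomputable def C5_task {X : Type} [MetricSpace X] [CompactSpace X]
    (x : ℕ × ℕ × ℕ × ℕ) : Task X where
  j := x.1 + 3
  k := x.2.1
  hj := Nat.le_add_left _ _
  A := {y | ∀ t, 1 / ((x.2.2.2 : ℝ) + 1) ≤ ‖C5_phi (C5_seq X (x.1 + 3) x.2.1 x.2.2.1) (y, t)‖}
  φ := C5_phi (C5_seq X (x.1 + 3) x.2.1 x.2.2.1)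
  isTask :=
    { closed := by
        rw [Set.ofPred_forall]
        exact isClosed_iInter fun t => isClosed_le continuous_const
          ((C5_phi_cont _).comp (continuous_id.prodMk continuous_const)).norm
      cont := C5_phi_cont _
      triv := C5_phi_triv _
      ne := fun y hy t h0 => by
        have h1 := hy t
        rw [h0, norm_zero] at h1
        have h2 : (0 : ℝ) < 1 / ((x.2.2.2 : ℝ) + 1) := Nat.one_div_pos_of_nat
        linarith }

/-- A countable list of tasks which is dense in all tasks.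

PROOF.  Fix `j ≥ 3`, `k`.  Let `Q = closedBall (0 : Fin k → ℝ) 1` and
`T = {ψ : C(X × Q, (Fin j → ℝ) × (Fin k → ℝ)) // ∀ x t, ‖t‖ = 1 → ψ (x, t) = 0}`; it is second
countable (`ContinuousMap` on a compact metrizable space with second countable target), so there is
a dense sequence `ψ_a` (`T` is not empty).  `φ_a (x, t) = (e0, t) + ψ_a (x, t)` for `‖t‖ ≤ 1`, `(e0, t)` for
`‖t‖ ≥ 1` (continuous).  `A_(a,b) = {x | ∀ t, 1 / (b + 1) ≤ ‖φ_a (x, t)‖}` is closed, and `φ_a` has no zeros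
on it.  Let `τ` enumerate the tasks `(j, k, A_(a,b), φ_a)` (countably many indices
`(j, k, a, b) : ℕ × ℕ × ℕ × ℕ`, `Encodable`/`exists_surjective_nat`).  For given `φ, r` choose `ψ_a` with
`‖ψ_a - (φ - (e0, t))‖ < r` and `1 / (b + 1) ≤ r`. -/
theorem exists_list (X : Type) [MetricSpace X] [CompactSpace X] :
    ∃ τ : ℕ → Task X, ∀ (j k : ℕ) (hj : 3 ≤ j)
      (φ : X × (Fin k → ℝ) → (Fin j → ℝ) × (Fin k → ℝ)), IsTask j k ∅ φ → ∀ r : ℝ, 0 < r →
      ∃ (m : ℕ) (A' : Set X) (φ' : X × (Fin k → ℝ) → (Fin j → ℝ) × (Fin k → ℝ))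
        (h' : IsTask j k A' φ'), τ m = ⟨j, k, hj, A', φ', h'⟩ ∧
        (∀ x t, ‖φ' (x, t) - φ (x, t)‖ < r) ∧ ∀ x, (∀ t, r ≤ ‖φ' (x, t)‖) → x ∈ A' := by
  obtain ⟨e, he⟩ := exists_surjective_nat (ℕ × ℕ × ℕ × ℕ)
  refine ⟨fun m => C5_task (e m), ?_⟩
  intro j k hj φ hφ r hr
  obtain ⟨j, rfl⟩ : ∃ j', j = j' + 3 := ⟨j - 3, by omega⟩
  let ψ : C5_T X (j + 3) k := ⟨⟨fun p => φ (p.1, (p.2 : Fin k → ℝ)) - (e0 (j + 3), (p.2 : Fin k → ℝ)),
    (hφ.cont.comp (continuous_fst.prodMk (continuous_subtype_val.comp continuous_snd))).sub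
      (continuous_const.prodMk (continuous_subtype_val.comp continuous_snd))⟩, fun x t ht => by
      show φ (x, (t : Fin k → ℝ)) - (e0 (j + 3), (t : Fin k → ℝ)) = 0
      rw [hφ.triv x t ht.ge, sub_self]⟩
  have hψ : ∀ x t, C5_phi ψ (x, t) = φ (x, t) := by
    intro x t
    rcases le_total ‖t‖ 1 with h | h
    · show (e0 (j + 3), t) + (φ (x, C5_clamp t) - (e0 (j + 3), C5_clamp t)) = _
      rw [C5_clamp_eq h, add_sub_cancel]
    · rw [C5_phi_triv ψ x t h, hφ.triv x t h]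
  obtain ⟨a, ha⟩ := (TopologicalSpace.denseRange_denseSeq (C5_T X (j + 3) k)).exists_dist_lt ψ hr
  obtain ⟨b, hb⟩ := exists_nat_one_div_lt hr
  obtain ⟨m, hm⟩ := he (j, k, a, b)
  refine ⟨m, (C5_task (X := X) (j, k, a, b)).A, C5_phi (C5_seq X (j + 3) k a),
    (C5_task (X := X) (j, k, a, b)).isTask, ?_, ?_, ?_⟩
  · show C5_task (e m) = _
    rw [hm]
    rfl
  · intro x t
    rw [← hψ x t]
    show ‖((e0 (j + 3), t) + (C5_seq X (j + 3) k a).1 (x, C5_pr t)) -
      ((e0 (j + 3), t) + ψ.1 (x, C5_pr t))‖ < r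
    rw [add_sub_add_left_eq_sub, ← dist_eq_norm, dist_comm]
    exact lt_of_le_of_lt (ContinuousMap.dist_apply_le_dist (f := ψ.1)
      (g := (C5_seq X (j + 3) k a).1) (x, C5_pr t)) ha
  · intro x hx t
    exact hb.le.trans (hx t)


/-- iterated bonding maps -/
def bond {X : ℕ → Type} [∀ n, TopologicalSpace (X n)] (p : ∀ n, C(X (n + 1), X n)) (i : ℕ) :
    ∀ d, C(X (i + d), X i)
  | 0 => ContinuousMap.id _
  | d + 1 => (bond p i d).comp (p (i + d))

end MM
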