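import Pool.Agent.Lib_MP_33f7bb_d.C5

/-!
# C5B: the sequence of spaces
-/

open Set

namespace MM

/-- states of the recursion -/
structure C5BSt (N : ℕ)
    (P : ∀ (X : Type) [MetricSpace X] [CompactSpace X], C(X, Sph N) → Prop) : Type 1 where
  X : Type
  [m : MetricSpace X]
  [c : CompactSpace X]
  q : C(X, Sph N)
  hP : P X q
  l : ℕ → Task X

attribute [local instance] C5BSt.m C5BSt.c

/-- result of one step of the recursion -/
structure C5BOut {N : ℕ} {P : ∀ (X : Type) [MetricSpace X] [CompactSpace X], C(X, Sph N) → Prop}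
    (s : C5BSt N P) (T : Task s.X) : Type 1 where
  X : Type
  [m : MetricSpace X]
  [c : CompactSpace X]
  p : C(X, s.X)
  hP : P X (s.q.comp p)
  hs : T.Solv p

attribute [local instance] C5BOut.m C5BOut.c

private theorem C5B_out {N : ℕ}
    {P : ∀ (X : Type) [MetricSpace X] [CompactSpace X], C(X, Sph N) → Prop}
    (hstep : ∀ (X : Type) [MetricSpace X] [CompactSpace X] (q : C(X, Sph N)), P X q →
      ∀ T : Task X, ∃ (X' : Type) (_ : MetricSpace X') (_ : CompactSpace X') (p : C(X', X)),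
        P X' (q.comp p) ∧ T.Solv p) (s : C5BSt N P) (T : Task s.X) : Nonempty (C5BOut s T) := by
  obtain ⟨X', m', c', p, h1, h2⟩ := hstep s.X s.q s.hP T
  exact ⟨⟨X', p, h1, h2⟩⟩

/-- the new list of tasks -/
def C5BList {X X' : Type} [TopologicalSpace X] [TopologicalSpace X'] (l : ℕ → Task X)
    (l' : ℕ → Task X') (p : C(X', X)) (a : ℕ) : Task X' :=
  if a % 2 = 0 then (l (a / 2)).pull p else l' (a / 2)

private theorem C5B_even {X X' : Type} [TopologicalSpace X] [TopologicalSpace X'] (l : ℕ → Task X)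
    (l' : ℕ → Task X') (p : C(X', X)) (a : ℕ) : C5BList l l' p (2 * a) = (l a).pull p := by
  unfold C5BList
  rw [if_pos (by omega), Nat.mul_div_cancel_left a (by norm_num)]

private theorem C5B_odd {X X' : Type} [TopologicalSpace X] [TopologicalSpace X'] (l : ℕ → Task X)
    (l' : ℕ → Task X') (p : C(X', X)) (a : ℕ) : C5BList l l' p (2 * a + 1) = l' a := by
  unfold C5BList
  rw [if_neg (by omega), show (2 * a + 1) / 2 = a by omega]

private theorem C5B_seq {N : ℕ}
    (P : ∀ (X : Type) [MetricSpace X] [CompactSpace X], C(X, Sph N) → Prop)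
    (hstep : ∀ (X : Type) [MetricSpace X] [CompactSpace X] (q : C(X, Sph N)), P X q →
      ∀ T : Task X, ∃ (X' : Type) (_ : MetricSpace X') (_ : CompactSpace X') (p : C(X', X)),
        P X' (q.comp p) ∧ T.Solv p)
    (h0 : P (Sph N) (ContinuousMap.id _))
    (τ : ∀ (X : Type) [MetricSpace X] [CompactSpace X], ℕ → Task X) (num : ℕ → ℕ) :
    ∃ (X : ℕ → Type) (_ : ∀ n, MetricSpace (X n)) (_ : ∀ n, CompactSpace (X n))
      (p : ∀ n, C(X (n + 1), X n)) (q : ∀ n, C(X n, Sph N)) (l : ∀ n, ℕ → Task (X n)),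
      (∀ n, q (n + 1) = (q n).comp (p n)) ∧ (∀ n, P (X n) (q n)) ∧
      (∀ m, l 0 (2 * m + 1) = τ (X 0) m) ∧ (∀ n m, l (n + 1) (2 * m) = (l n m).pull (p n)) ∧
      (∀ n m, l (n + 1) (2 * m + 1) = τ (X (n + 1)) m) ∧ ∀ n, (l n (num n)).Solv (p n) := by
  classical
  let out : ∀ (n : ℕ) (s : C5BSt N P), C5BOut s (s.l (num n)) := fun n s =>
    Classical.choice (C5B_out hstep s (s.l (num n)))
  let nxt : ℕ → C5BSt N P → C5BSt N P := fun n s =>
    ⟨(out n s).X, s.q.comp (out n s).p, (out n s).hP,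
      C5BList s.l (fun a => τ (out n s).X a) (out n s).p⟩
  have hE : ∀ (n : ℕ) (s : C5BSt N P) (m : ℕ), (nxt n s).l (2 * m) = (s.l m).pull (out n s).p :=
    fun n s m => C5B_even s.l (fun a => τ (out n s).X a) (out n s).p m
  have hO : ∀ (n : ℕ) (s : C5BSt N P) (m : ℕ), (nxt n s).l (2 * m + 1) = τ (out n s).X m :=
    fun n s m => C5B_odd s.l (fun a => τ (out n s).X a) (out n s).p m
  let st : C5BSt N P := ⟨Sph N, ContinuousMap.id _, h0, fun a => τ (Sph N) (a / 2)⟩
  let S : ℕ → C5BSt N P := fun n => Nat.rec st (fun n s => nxt n s) n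
  refine ⟨fun n => (S n).X, fun n => (S n).m, fun n => (S n).c, fun n => (out n (S n)).p,
    fun n => (S n).q, fun n => (S n).l, fun n => rfl, fun n => (S n).hP, fun m => ?_,
    fun n m => ?_, fun n m => ?_, fun n => (out n (S n)).hs⟩
  · show τ (Sph N) ((2 * m + 1) / 2) = τ (Sph N) m
    rw [show (2 * m + 1) / 2 = m by omega]
  · exact hE n (S n) m
  · exact hO n (S n) m

/-- The sequence of spaces: every listed task of every `X i` is solved on some `X (i + d)`.

PROOF.  States: `(X, q, τ')` with `P X q` and a list `τ' : ℕ → Task X` of tasks (a structure or nested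
sigma type in `Type 1`).  Start: `X₀ = Sph N`, `q = id`.  Step `n`: let `(i, m) = Nat.unpair n` (so `i ≤ n`), solve
the task number `2 ^ (n - i) * (2 * m + 1)` of the current list `τ'` on `p : X' → X` (`hstep`); the
new list is `τ'' (2 * c) = (τ' c).pull p`, `τ'' (2 * c + 1) = τ X' c`; the first list is
`τ' (2 * c) = τ X₀ c`, `τ' (2 * c + 1) = τ X₀ c`.  So the task `m` of `X i` has number `2 m + 1`
in the list of `X i`, and its pull back to `X (i + d)` has number `2 ^ d * (2 m + 1)` in the list of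
`X (i + d)` (induction on `d`: it is `(τ (X i) m).pull (bond p i d)`).  At step `n = Nat.pair i m = i + d`
it is solved on `X (n + 1)`: `((τ (X i) m).pull (bond p i d)).Solv (p n)`, that is
`(τ (X i) m).Solv (bond p i (d + 1))` (`Task.solv_pull`). -/
theorem exists_seq {N : ℕ}
    (P : ∀ (X : Type) [MetricSpace X] [CompactSpace X], C(X, Sph N) → Prop)
    (hstep : ∀ (X : Type) [MetricSpace X] [CompactSpace X] (q : C(X, Sph N)), P X q →
      ∀ T : Task X, ∃ (X' : Type) (_ : MetricSpace X') (_ : CompactSpace X') (p : C(X', X)),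
        P X' (q.comp p) ∧ T.Solv p)
    (h0 : P (Sph N) (ContinuousMap.id _))
    (τ : ∀ (X : Type) [MetricSpace X] [CompactSpace X], ℕ → Task X) :
    ∃ (X : ℕ → Type) (_ : ∀ n, MetricSpace (X n)) (_ : ∀ n, CompactSpace (X n))
      (p : ∀ n, C(X (n + 1), X n)) (q : ∀ n, C(X n, Sph N)),
      (∀ n, q (n + 1) = (q n).comp (p n)) ∧ (∀ n, P (X n) (q n)) ∧
      ∀ i m, ∃ d, (τ (X i) m).Solv (bond p i d) := by
  obtain ⟨X, hm, hc, p, q, l, hq, hP, h1, h2, h3, h4⟩ := C5B_seq P hstep h0 τ
    (fun n => 2 ^ (n - (Nat.unpair n).1) * (2 * (Nat.unpair n).2 + 1))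
  refine ⟨X, hm, hc, p, q, hq, hP, fun i m => ?_⟩
  have hodd : l i (2 * m + 1) = τ (X i) m := by
    cases i with
    | zero => exact h1 m
    | succ i => exact h3 i m
  have hind : ∀ d, l (i + d) (2 ^ d * (2 * m + 1)) = (τ (X i) m).pull (bond p i d) := by
    intro d
    induction d with
    | zero =>
      rw [pow_zero, one_mul]
      exact hodd
    | succ d ih =>
      have e : 2 ^ (d + 1) * (2 * m + 1) = 2 * (2 ^ d * (2 * m + 1)) := by
        rw [pow_succ]; ring
      rw [e]
      refine (h2 (i + d) (2 ^ d * (2 * m + 1))).trans ?_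
      rw [ih]
      rfl
  have hn : i ≤ Nat.pair i m := Nat.left_le_pair i m
  obtain ⟨d, hd⟩ := Nat.exists_eq_add_of_le hn
  refine ⟨d + 1, ?_⟩
  have hs := h4 (i + d)
  have hnum : 2 ^ (i + d - (Nat.unpair (i + d)).1) * (2 * (Nat.unpair (i + d)).2 + 1) =
      2 ^ d * (2 * m + 1) := by
    rw [← hd, Nat.unpair_pair, hd]
    simp only [Nat.add_sub_cancel_left]
  rw [hnum, hind d] at hs
  exact hs

end MM
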