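import Pool.Agent.Lib_MP_33f7bb_d.C5

/-!
# C6: the inverse limit
-/

open Set Filter Topology

namespace MM

private noncomputable def C6_sig {X : ℕ → Type} [∀ n, TopologicalSpace (X n)]
    (p : ∀ n, C(X (n + 1), X n)) (a : ∀ n, X n) : ∀ i, C(X i, ∀ n, X n)
  | 0 => ⟨fun x => Function.update a 0 x, continuous_const.update 0 continuous_id⟩
  | i + 1 => ⟨fun x => Function.update (C6_sig p a i (p i x)) (i + 1) x,
      ((C6_sig p a i).continuous.comp (p i).continuous).update (i + 1) continuous_id⟩

section aux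

variable {X : ℕ → Type} [∀ n, TopologicalSpace (X n)] (p : ∀ n, C(X (n + 1), X n))
  (a : ∀ n, X n)

private theorem C6_sig_zero (x : X 0) : C6_sig p a 0 x = Function.update a 0 x := rfl

private theorem C6_sig_succ (i : ℕ) (x : X (i + 1)) :
    C6_sig p a (i + 1) x = Function.update (C6_sig p a i (p i x)) (i + 1) x := rfl

private theorem C6_sig_self (i : ℕ) (x : X i) : C6_sig p a i x i = x := by
  cases i with
  | zero => rw [C6_sig_zero, Function.update_self]
  | succ i => rw [C6_sig_succ, Function.update_self]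

private theorem C6_sig_compat (i : ℕ) : ∀ (x : X i) (n : ℕ), n < i →
    C6_sig p a i x n = p n (C6_sig p a i x (n + 1)) := by
  induction i with
  | zero => intro x n hn; omega
  | succ i ih =>
    intro x n hn
    rw [C6_sig_succ]
    rcases Nat.lt_succ_iff_lt_or_eq.1 hn with h | rfl
    · rw [Function.update_of_ne (by omega), Function.update_of_ne (by omega)]
      exact ih _ n h
    · rw [Function.update_of_ne (by omega), Function.update_self, C6_sig_self]

private theorem C6_sig_eq (z : ∀ n, X n) (hz : ∀ n, z n = p n (z (n + 1))) (i : ℕ) :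
    ∀ n ≤ i, C6_sig p a i (z i) n = z n := by
  induction i with
  | zero =>
    intro n hn
    obtain rfl : n = 0 := by omega
    exact C6_sig_self p a 0 _
  | succ i ih =>
    intro n hn
    rw [C6_sig_succ, ← hz i]
    rcases Nat.lt_or_eq_of_le hn with h | rfl
    · rw [Function.update_of_ne (by omega)]
      exact ih n (by omega)
    · rw [Function.update_self]

private theorem C6_sig_bond (d : ℕ) : ∀ x : X (0 + d), C6_sig p a (0 + d) x 0 = bond p 0 d x := by
  induction d with
  | zero => intro x; exact C6_sig_self p a 0 x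
  | succ d ih =>
    intro x
    have h1 : C6_sig p a (0 + (d + 1)) x = Function.update (C6_sig p a (0 + d) (p (0 + d) x))
      (0 + d + 1) x := rfl
    rw [h1, Function.update_of_ne (by omega)]
    exact ih (p (0 + d) x)

end aux

/-- Inverse limits of compact metric spaces.

PROOF.  `Pi = ∀ n, X n` (compact metrizable), `K = {z : Pi | ∀ n, z n = p n (z (n + 1))}` closed,
`π n z = z n`; metric from `TopologicalSpace.metrizableSpaceMetric`.  Let
`K_i = {z : Pi | ∀ n < i, z n = p n (z (n + 1))}`; these closed sets decrease and their intersection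
is `K`.  Choose points `a n ∈ X n` and let `s_i : X i → Pi` be the continuous map with
`(s_i x) n = p_(i,n) x` for `n ≤ i` (iterated bonding maps; `(s_i x) i = x`) and `a n` for `n > i`; so
`s_i x ∈ K_i`, and for `z ∈ K` the point `s_i (z i)` has the same coordinates `n ≤ i` as `z`.

(1) Null homotopies.  Let `h : [0,1] × K → Sph N` be a homotopy from `q ∘ π 0` to a constant `c`.  The
function with values in `E = EuclideanSpace ℝ (Fin (N + 1))` which is `h` on `[0,1] × K`,
`q (z 0)` on `{0} × Pi` and `c` on `{1} × Pi` is continuous on a closed set; Tietze gives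
`H : [0,1] × Pi → E`.  `{z | ∃ u, H (u, z) = 0}` is closed and disjoint from `K`, so it is disjoint
from some `K_i` (compactness).  Then `(u, x) ↦ H (u, s_i x) / ‖...‖` is a homotopy from
`q ∘ p_(i,0)` to `c` on `X i` (`(s_i x) 0 = p_(i,0) x`), and `X i = X (0 + i)`.  (It is convenient to
identify `bond p 0 i` with the first coordinate of `s_i`; use the cast along `0 + i = i` or define `s_i`
on `X (0 + i)`.)

(2) Approximation.  The function `ψ (z, t) = φ (z, t) - (e0, t)` on `K × Q`, `Q = closedBall 0 1`,
vanishes for `‖t‖ = 1`; Tietze extends it to `ψ' : Pi × (Fin k → ℝ) → (Fin j → ℝ) × (Fin k → ℝ)`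
vanishing for `‖t‖ ≥ 1` (prescribed on the closed set
`K × (Fin k → ℝ) ∪ Pi × {‖t‖ ≥ 1}`).  By uniform continuity of `ψ'` on `Pi × Q`
and because a neighbourhood of the diagonal of `Pi` contains all pairs with equal coordinates `n ≤ i`
for some `i`, there is `i` with `‖ψ' (s_i (z i), t) - ψ' (z, t)‖ < r` for `z ∈ K`, `t ∈ Q`.  Put
`φ' (x, t) = (e0, t) + ψ' (s_i x, t)`. -/
theorem exists_lim {X : ℕ → Type} [∀ n, MetricSpace (X n)] [∀ n, CompactSpace (X n)]
    [∀ n, Nonempty (X n)] (p : ∀ n, C(X (n + 1), X n)) :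
    ∃ (K : Type) (_ : MetricSpace K) (_ : CompactSpace K) (π : ∀ n, C(K, X n)),
      (∀ n, π n = (p n).comp (π (n + 1))) ∧
      (∀ (N : ℕ) (q : C(X 0, Sph N)), (q.comp (π 0)).Nullhomotopic →
        ∃ d, (q.comp (bond p 0 d)).Nullhomotopic) ∧
      ∀ (j k : ℕ) (φ : K × (Fin k → ℝ) → (Fin j → ℝ) × (Fin k → ℝ)), IsTask j k ∅ φ →
        ∀ r : ℝ, 0 < r → ∃ (i : ℕ) (φ' : X i × (Fin k → ℝ) → (Fin j → ℝ) × (Fin k → ℝ)),
          IsTask j k ∅ φ' ∧ ∀ z t, ‖φ' (π i z, t) - φ (z, t)‖ < r := by
  classical
  let a : ∀ n, X n := fun n => Classical.arbitrary (X n)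
  let Kset : Set (∀ n, X n) := {z | ∀ n, z n = p n (z (n + 1))}
  have hpn : ∀ n, Continuous fun z : (∀ n, X n) => p n (z (n + 1)) := fun n =>
    (p n).continuous.comp (continuous_apply (n + 1))
  have hKclosed : IsClosed Kset := by
    have : Kset = ⋂ n, {z : ∀ n, X n | z n = p n (z (n + 1))} := by
      ext z
      rw [Set.mem_iInter]
      rfl
    rw [this]
    exact isClosed_iInter fun n => isClosed_eq (continuous_apply n) (hpn n)
  let K : Type := Kset
  have hKc : CompactSpace K := isCompact_iff_compactSpace.1 hKclosed.isCompact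
  let π : ∀ n, C(K, X n) := fun n => ⟨fun z => z.1 n, (continuous_apply n).comp
    continuous_subtype_val⟩
  have hemb : IsClosedEmbedding (Subtype.val : K → ∀ n, X n) := hKclosed.isClosedEmbedding_subtypeVal
  refine ⟨K, TopologicalSpace.metrizableSpaceMetric K, hKc, π, ?_, ?_, ?_⟩
  · intro n
    ext z
    exact z.2 n
  · -- null homotopies
    rintro N q ⟨c, ⟨F⟩⟩
    let E := EuclideanSpace ℝ (Fin (N + 1))
    have hF0 : ∀ z : K, F (0, z) = q (z.1 0) := fun z => F.apply_zero z
    have hF1 : ∀ z : K, F (1, z) = c := fun z => F.apply_one z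
    -- extend `F`
    let e : unitInterval × K → unitInterval × (∀ n, X n) := Prod.map id Subtype.val
    have he : IsClosedEmbedding e := IsClosedEmbedding.id.prodMap hemb
    let F' : C(unitInterval × K, E) := ⟨fun x => (F x : E), continuous_subtype_val.comp
      F.continuous⟩
    obtain ⟨H1, hH1⟩ := ContinuousMap.exists_extension (Y := E) he F'
    have hH1' : ∀ (u : unitInterval) (z : K), H1 (u, z.1) = (F (u, z) : E) := fun u z =>
      congrArg (fun f => f (u, z)) hH1
    let H : unitInterval × (∀ n, X n) → E := fun x =>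
      H1 x + (1 - (x.1 : ℝ)) • ((q (x.2 0) : E) - H1 (0, x.2)) + (x.1 : ℝ) • ((c : E) - H1 (1, x.2))
    have hHc : Continuous H := by
      have c1 : Continuous fun x : unitInterval × (∀ n, X n) => (x.1 : ℝ) :=
        continuous_subtype_val.comp continuous_fst
      have c2 : Continuous fun x : unitInterval × (∀ n, X n) => (q (x.2 0) : E) :=
        continuous_subtype_val.comp (q.continuous.comp ((continuous_apply 0).comp continuous_snd))
      have c3 : Continuous fun x : unitInterval × (∀ n, X n) => H1 (0, x.2) :=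
        H1.continuous.comp (continuous_const.prodMk continuous_snd)
      have c4 : Continuous fun x : unitInterval × (∀ n, X n) => H1 (1, x.2) :=
        H1.continuous.comp (continuous_const.prodMk continuous_snd)
      exact (H1.continuous.add ((continuous_const.sub c1).smul (c2.sub c3))).add
        (c1.smul (continuous_const.sub c4))
    have hH0 : ∀ z : (∀ n, X n), H (0, z) = (q (z 0) : E) := by
      intro z
      show H1 (0, z) + (1 - ((0 : unitInterval) : ℝ)) • ((q (z 0) : E) - H1 (0, z)) +
        ((0 : unitInterval) : ℝ) • ((c : E) - H1 (1, z)) = _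
      simp
    have hH1e : ∀ z : (∀ n, X n), H (1, z) = (c : E) := by
      intro z
      show H1 (1, z) + (1 - ((1 : unitInterval) : ℝ)) • ((q (z 0) : E) - H1 (0, z)) +
        ((1 : unitInterval) : ℝ) • ((c : E) - H1 (1, z)) = _
      simp
    have hHK : ∀ (u : unitInterval) (z : K), H (u, z.1) = (F (u, z) : E) := by
      intro u z
      show H1 (u, z.1) + (1 - (u : ℝ)) • ((q (z.1 0) : E) - H1 (0, z.1)) +
        (u : ℝ) • ((c : E) - H1 (1, z.1)) = _
      rw [hH1', hH1', hH1', hF0, hF1]
      simp
    -- compactness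
    have hex : ∃ d, ∀ (u : unitInterval) (x : X (0 + d)), H (u, C6_sig p a (0 + d) x) ≠ 0 := by
      by_contra hcon
      push Not at hcon
      let t : ℕ → Set (unitInterval × (∀ n, X n)) := fun d =>
        {w | H w = 0} ∩ ⋂ (n : ℕ) (_ : n < 0 + d), {w | w.2 n = p n (w.2 (n + 1))}
      have htc : ∀ d, IsClosed (t d) := fun d =>
        (isClosed_eq hHc continuous_const).inter (isClosed_iInter fun n => isClosed_iInter fun _ =>
          isClosed_eq ((continuous_apply n).comp continuous_snd) ((hpn n).comp continuous_snd))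
      obtain ⟨w, hw⟩ := IsCompact.nonempty_iInter_of_sequence_nonempty_isCompact_isClosed t
        (by
          intro d w hw
          refine ⟨hw.1, ?_⟩
          have h2 := hw.2
          rw [Set.mem_iInter₂] at h2 ⊢
          exact fun n hn => h2 n (by omega))
        (by
          intro d
          obtain ⟨u, x, hx⟩ := hcon d
          refine ⟨(u, C6_sig p a (0 + d) x), hx, ?_⟩
          rw [Set.mem_iInter₂]
          exact fun n hn => C6_sig_compat p a _ x n hn)
        (htc 0).isCompact htc
      rw [Set.mem_iInter] at hw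
      have hwK : w.2 ∈ Kset := by
        intro n
        have h2 := (hw (n + 1)).2
        rw [Set.mem_iInter₂] at h2
        exact h2 n (by omega)
      have h3 : H w = 0 := (hw 0).1
      have h4 := hHK w.1 ⟨w.2, hwK⟩
      have h5 : (F (w.1, (⟨w.2, hwK⟩ : K)) : E) = 0 := h4.symm.trans h3
      have h6 := (F (w.1, (⟨w.2, hwK⟩ : K))).2
      rw [mem_sphere_zero_iff_norm, h5, norm_zero] at h6
      exact zero_ne_one h6
    obtain ⟨d, hd⟩ := hex
    refine ⟨d, c, ⟨?_⟩⟩
    let s := C6_sig p a (0 + d)
    have hs : Continuous fun x : unitInterval × X (0 + d) => H (x.1, s x.2) :=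
      hHc.comp (continuous_fst.prodMk (s.continuous.comp continuous_snd))
    refine
      { toFun := fun x => ⟨(‖H (x.1, s x.2)‖)⁻¹ • H (x.1, s x.2), ?_⟩
        continuous_toFun := ?_
        map_zero_left := ?_
        map_one_left := ?_ }
    · rw [mem_sphere_zero_iff_norm, norm_smul, norm_inv, norm_norm]
      exact inv_mul_cancel₀ (norm_ne_zero_iff.2 (hd x.1 x.2))
    · refine Continuous.subtype_mk ?_ _
      exact (hs.norm.inv₀ fun x => norm_ne_zero_iff.2 (hd x.1 x.2)).smul hs
    · intro x
      apply Subtype.ext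
      show (‖H (0, s x)‖)⁻¹ • H (0, s x) = (q (bond p 0 d x) : E)
      rw [hH0, show s x 0 = bond p 0 d x from C6_sig_bond p a d x]
      have h6 := (q (bond p 0 d x)).2
      rw [mem_sphere_zero_iff_norm] at h6
      rw [h6, inv_one, one_smul]
    · intro x
      apply Subtype.ext
      show (‖H (1, s x)‖)⁻¹ • H (1, s x) = (c : E)
      rw [hH1e]
      have h6 := c.2
      rw [mem_sphere_zero_iff_norm] at h6
      rw [h6, inv_one, one_smul]
  · -- approximation
    intro j k φ hφ r hr
    let E := (Fin j → ℝ) × (Fin k → ℝ)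
    have hφc : Continuous φ := hφ.cont
    let ψ : C(K × (Fin k → ℝ), E) := ⟨fun x => φ x - (e0 j, x.2),
      hφc.sub (continuous_const.prodMk continuous_snd)⟩
    have hψ0 : ∀ (z : K) (t : Fin k → ℝ), 1 ≤ ‖t‖ → ψ (z, t) = 0 := by
      intro z t ht
      show φ (z, t) - (e0 j, t) = 0
      rw [hφ.triv z t ht, sub_self]
    let e : K × (Fin k → ℝ) → (∀ n, X n) × (Fin k → ℝ) := Prod.map Subtype.val id
    have he : IsClosedEmbedding e := hemb.prodMap IsClosedEmbedding.id
    obtain ⟨ψ1, hψ1⟩ := ContinuousMap.exists_extension (Y := E) he ψ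
    have hψ1' : ∀ (z : K) (t : Fin k → ℝ), ψ1 (z.1, t) = ψ (z, t) := fun z t =>
      congrArg (fun f => f (z, t)) hψ1
    -- cut off
    let m : (Fin k → ℝ) → ℝ := fun t => min 1 (max 0 (2 * ‖t‖ - 1))
    let ν : (Fin k → ℝ) → (Fin k → ℝ) := fun t => (min 1 (max (1 / 2) ‖t‖))⁻¹ • t
    have hmc : Continuous m := continuous_const.min (continuous_const.max
      ((continuous_const.mul continuous_norm).sub continuous_const))
    have hνc : Continuous ν := by
      refine ((continuous_const.min (continuous_const.max continuous_norm)).inv₀ ?_).smul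
        continuous_id
      intro t
      have : 0 < min 1 (max (1 / 2) ‖t‖) := lt_min one_pos (lt_max_of_lt_left (by norm_num))
      exact this.ne'
    have hm1 : ∀ t : Fin k → ℝ, 1 ≤ ‖t‖ → m t = 1 := by
      intro t ht
      exact min_eq_left (le_max_of_le_right (by linarith))
    have hν1 : ∀ t : Fin k → ℝ, 1 ≤ ‖t‖ → ν t = t := by
      intro t ht
      show (min 1 (max (1 / 2) ‖t‖))⁻¹ • t = t
      rw [min_eq_left (le_max_of_le_right ht), inv_one, one_smul]
    have hmν : ∀ t : Fin k → ℝ, m t ≠ 0 → 1 ≤ ‖ν t‖ := by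
      intro t ht
      by_cases h1 : 1 ≤ ‖t‖
      · rw [hν1 t h1]; exact h1
      · push Not at h1
        have h2 : 1 / 2 < ‖t‖ := by
          by_contra h3
          push Not at h3
          apply ht
          show min 1 (max 0 (2 * ‖t‖ - 1)) = 0
          rw [max_eq_left (by linarith)]
          exact min_eq_right zero_le_one
        have h4 : ν t = (‖t‖)⁻¹ • t := by
          show (min 1 (max (1 / 2) ‖t‖))⁻¹ • t = _
          rw [max_eq_right h2.le, min_eq_right h1.le]
        rw [h4, norm_smul, norm_inv, norm_norm, inv_mul_cancel₀ (by linarith)]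
    let ψ' : (∀ n, X n) × (Fin k → ℝ) → E := fun x => ψ1 x - m x.2 • ψ1 (x.1, ν x.2)
    have hψ'c : Continuous ψ' := ψ1.continuous.sub ((hmc.comp continuous_snd).smul
      (ψ1.continuous.comp (continuous_fst.prodMk (hνc.comp continuous_snd))))
    have hψ'0 : ∀ (w : ∀ n, X n) (t : Fin k → ℝ), 1 ≤ ‖t‖ → ψ' (w, t) = 0 := by
      intro w t ht
      show ψ1 (w, t) - m t • ψ1 (w, ν t) = 0
      rw [hm1 t ht, hν1 t ht, one_smul, sub_self]
    have hψ'K : ∀ (z : K) (t : Fin k → ℝ), ψ' (z.1, t) = ψ (z, t) := by
      intro z t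
      show ψ1 (z.1, t) - m t • ψ1 (z.1, ν t) = _
      rw [hψ1', hψ1']
      by_cases h1 : m t = 0
      · rw [h1, zero_smul, sub_zero]
      · rw [hψ0 z (ν t) (hmν t h1), smul_zero, sub_zero]
    -- compactness
    have hex : ∃ i, ∀ (z : K) (t : Fin k → ℝ), ‖t‖ ≤ 1 →
        ‖ψ' (C6_sig p a i (z.1 i), t) - ψ' (z.1, t)‖ < r := by
      by_contra hcon
      push Not at hcon
      let T : Set (((∀ n, X n) × (∀ n, X n)) × (Fin k → ℝ)) :=
        (Set.univ ×ˢ Kset) ×ˢ Metric.closedBall 0 1
      have hT : IsCompact T :=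
        (isCompact_univ.prod hKclosed.isCompact).prod (isCompact_closedBall 0 1)
      let D : Set (((∀ n, X n) × (∀ n, X n)) × (Fin k → ℝ)) :=
        {x | r ≤ ‖ψ' (x.1.1, x.2) - ψ' (x.1.2, x.2)‖}
      have hD : IsClosed D := isClosed_le continuous_const
        (((hψ'c.comp ((continuous_fst.comp continuous_fst).prodMk continuous_snd)).sub
          (hψ'c.comp ((continuous_snd.comp continuous_fst).prodMk continuous_snd))).norm)
      let t : ℕ → Set (((∀ n, X n) × (∀ n, X n)) × (Fin k → ℝ)) := fun i =>
        (T ∩ D) ∩ ⋂ (n : ℕ) (_ : n ≤ i), {x | x.1.1 n = x.1.2 n}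
      have htc : ∀ i, IsClosed (t i) := fun i =>
        (hT.isClosed.inter hD).inter (isClosed_iInter fun n => isClosed_iInter fun _ =>
          isClosed_eq ((continuous_apply n).comp (continuous_fst.comp continuous_fst))
            ((continuous_apply n).comp (continuous_snd.comp continuous_fst)))
      obtain ⟨w, hw⟩ := IsCompact.nonempty_iInter_of_sequence_nonempty_isCompact_isClosed t
        (by
          intro i w hw
          refine ⟨hw.1, ?_⟩
          have h2 := hw.2
          rw [Set.mem_iInter₂] at h2 ⊢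
          exact fun n hn => h2 n (by omega))
        (by
          intro i
          obtain ⟨z, u, hu, hx⟩ := hcon i
          refine ⟨((C6_sig p a i (z.1 i), z.1), u), ⟨⟨⟨trivial, z.2⟩, ?_⟩, hx⟩, ?_⟩
          · rw [mem_closedBall_zero_iff]; exact hu
          · rw [Set.mem_iInter₂]
            exact fun n hn => C6_sig_eq p a z.1 z.2 i n hn)
        (hT.of_isClosed_subset (htc 0) (fun x hx => hx.1.1)) htc
      rw [Set.mem_iInter] at hw
      have h1 : w.1.1 = w.1.2 := by
        funext n
        have h2 := (hw n).2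
        rw [Set.mem_iInter₂] at h2
        exact h2 n le_rfl
      have h3 : r ≤ ‖ψ' (w.1.1, w.2) - ψ' (w.1.2, w.2)‖ := (hw 0).1.2
      rw [h1, sub_self, norm_zero] at h3
      exact absurd h3 (not_le.2 hr)
    obtain ⟨i, hi⟩ := hex
    refine ⟨i, fun x => (e0 j, x.2) + ψ' (C6_sig p a i x.1, x.2), ⟨isClosed_empty, ?_, ?_, ?_⟩, ?_⟩
    · exact (continuous_const.prodMk continuous_snd).add (hψ'c.comp
        (((C6_sig p a i).continuous.comp continuous_fst).prodMk continuous_snd))
    · intro x t ht
      show (e0 j, t) + ψ' (C6_sig p a i x, t) = (e0 j, t)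
      rw [hψ'0 _ t ht, add_zero]
    · intro x hx
      exact hx.elim
    · intro z t
      have h1 : (e0 j, t) + ψ' (C6_sig p a i (π i z), t) - φ (z, t) =
          ψ' (C6_sig p a i (z.1 i), t) - ψ' (z.1, t) := by
        rw [hψ'K]
        show (e0 j, t) + ψ' (C6_sig p a i (z.1 i), t) - φ (z, t) =
          ψ' (C6_sig p a i (z.1 i), t) - (φ (z, t) - (e0 j, t))
        abel
      show ‖(e0 j, t) + ψ' (C6_sig p a i (π i z), t) - φ (z, t)‖ < r
      rw [h1]
      rcases le_total 1 ‖t‖ with ht | ht
      · rw [hψ'0 _ t ht, hψ'0 _ t ht, sub_self, norm_zero]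
        exact hr
      · exact hi z t ht

end MM
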