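import Mathlib

/-!
# Common definitions for the negative answer to Q1 of MP_33f7bb_an

Plain simplicial sets (`SS`), subcomplexes (`Sub`), extension properties (`ExtP`, `Good`),
chains and homology over `ZMod 2`, simplicial `ZMod 2`-vector spaces (`SV`), singular simplicial
sets, pointed simplicial sets and reduced linearisation, the spaces `WW` (model of `Q S^(j-1)`).
-/

open scoped TensorProduct

namespace MM

/-- monotone maps `[m] → [n]` -/
abbrev Mo (m n : ℕ) := Fin (m + 1) →o Fin (n + 1)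

/-- the `i`-th coface `[n] → [n+1]` -/
def dlt {n : ℕ} (i : Fin (n + 2)) : Mo n (n + 1) := (Fin.succAboveOrderEmb i).toOrderHom

/-- the `i`-th codegeneracy `[n+1] → [n]` -/
def sgm {n : ℕ} (i : Fin (n + 1)) : Mo (n + 1) n := ⟨Fin.predAbove i, Fin.predAbove_right_monotone i⟩

/-- the constant map `[m] → [n]` -/
def cst {m n : ℕ} (i : Fin (n + 1)) : Mo m n := ⟨fun _ => i, fun _ _ _ => le_rfl⟩

/-! ## Simplicial sets -/

/-- Simplicial sets. -/
structure SS where
  S : ℕ → Type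
  act : ∀ {m n : ℕ}, Mo m n → S n → S m
  act_id : ∀ {n : ℕ} (x : S n), act OrderHom.id x = x
  act_comp : ∀ {l m n : ℕ} (f : Mo l m) (g : Mo m n) (x : S n), act f (act g x) = act (g.comp f) x

/-- Simplicial maps. -/
@[ext] structure Hom (A B : SS) where
  app : ∀ n, A.S n → B.S n
  nat : ∀ {m n : ℕ} (f : Mo m n) (x : A.S n), app m (A.act f x) = B.act f (app n x)

/-- identity -/
def Hom.id (A : SS) : Hom A A := ⟨fun _ x => x, fun _ _ => rfl⟩

/-- composition `g ∘ f` -/
def Hom.comp {A B C : SS} (g : Hom B C) (f : Hom A B) : Hom A C :=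
  ⟨fun n x => g.app n (f.app n x), fun h x => by rw [f.nat, g.nat]⟩

/-- product -/
abbrev SS.prod (A B : SS) : SS where
  S n := A.S n × B.S n
  act f x := (A.act f x.1, B.act f x.2)
  act_id x := by simp [A.act_id, B.act_id]
  act_comp f g x := by simp [A.act_comp, B.act_comp]

/-- projections and pairing -/
def Hom.fst (A B : SS) : Hom (A.prod B) A := ⟨fun _ x => x.1, fun _ _ => rfl⟩
def Hom.snd (A B : SS) : Hom (A.prod B) B := ⟨fun _ x => x.2, fun _ _ => rfl⟩
def Hom.pair {P A B : SS} (f : Hom P A) (g : Hom P B) : Hom P (A.prod B) :=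
  ⟨fun n x => (f.app n x, g.app n x), fun h x => by simp [f.nat, g.nat, SS.prod]⟩
def Hom.prodMap {A B C D : SS} (f : Hom A C) (g : Hom B D) : Hom (A.prod B) (C.prod D) :=
  ⟨fun n x => (f.app n x.1, g.app n x.2), fun h x => by simp [f.nat, g.nat, SS.prod]⟩

/-- the standard simplex `Δ^k` -/
abbrev Del (k : ℕ) : SS where
  S n := Mo n k
  act f x := x.comp f
  act_id _ := rfl
  act_comp _ _ _ := rfl

/-- the point -/
abbrev PT : SS where
  S _ := Unit
  act _ x := x
  act_id _ := rfl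
  act_comp _ _ _ := rfl

/-- the map `Δ^n → P` given by a simplex -/
def SS.yo {P : SS} {n : ℕ} (x : P.S n) : Hom (Del n) P :=
  ⟨fun _ f => P.act f x, fun f g => by rw [P.act_comp]⟩

/-- the simplex of dimension `n` all of whose vertices are `y` -/
def SS.deg (P : SS) (y : P.S 0) (n : ℕ) : P.S n := P.act (cst 0) y

/-! ## Subcomplexes -/

/-- Subcomplexes of a simplicial set. -/
@[ext] structure Sub (P : SS) where
  car : ∀ n, Set (P.S n)
  closed : ∀ {m n : ℕ} (f : Mo m n) {x : P.S n}, x ∈ car n → P.act f x ∈ car m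

namespace Sub

variable {P Q : SS}

instance : LE (Sub P) := ⟨fun A B => ∀ n, A.car n ⊆ B.car n⟩

theorem le_def {A B : Sub P} : A ≤ B ↔ ∀ n, A.car n ⊆ B.car n := Iff.rfl

instance : PartialOrder (Sub P) where
  le_refl _ _ := subset_rfl
  le_trans _ _ _ h h' n := (h n).trans (h' n)
  le_antisymm A B h h' := Sub.ext (funext fun n => Set.Subset.antisymm (h n) (h' n))

instance : Top (Sub P) := ⟨⟨fun _ => Set.univ, fun _ _ _ => trivial⟩⟩
instance : Bot (Sub P) := ⟨⟨fun _ => ∅, fun _ _ h => h.elim⟩⟩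
instance : Max (Sub P) := ⟨fun A B => ⟨fun n => A.car n ∪ B.car n, fun f _ h =>
  h.elim (fun h => Or.inl (A.closed f h)) (fun h => Or.inr (B.closed f h))⟩⟩
instance : Min (Sub P) := ⟨fun A B => ⟨fun n => A.car n ∩ B.car n, fun f _ h =>
  ⟨A.closed f h.1, B.closed f h.2⟩⟩⟩

@[simp] theorem mem_top {n : ℕ} (x : P.S n) : x ∈ (⊤ : Sub P).car n := trivial
@[simp] theorem mem_bot {n : ℕ} (x : P.S n) : ¬ x ∈ (⊥ : Sub P).car n := fun h => h
@[simp] theorem mem_sup {A B : Sub P} {n : ℕ} {x : P.S n} :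
    x ∈ (A ⊔ B).car n ↔ x ∈ A.car n ∨ x ∈ B.car n := Iff.rfl
@[simp] theorem mem_inf {A B : Sub P} {n : ℕ} {x : P.S n} :
    x ∈ (A ⊓ B).car n ↔ x ∈ A.car n ∧ x ∈ B.car n := Iff.rfl

theorem le_top' (A : Sub P) : A ≤ ⊤ := fun _ _ _ => trivial
theorem bot_le' (A : Sub P) : ⊥ ≤ A := fun _ _ h => h.elim
theorem le_sup_left' (A B : Sub P) : A ≤ A ⊔ B := fun _ _ h => Or.inl h
theorem le_sup_right' (A B : Sub P) : B ≤ A ⊔ B := fun _ _ h => Or.inr h
theorem sup_le' {A B C : Sub P} (h : A ≤ C) (h' : B ≤ C) : A ⊔ B ≤ C :=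
  fun n _ hx => hx.elim (fun h1 => h n h1) (fun h1 => h' n h1)

/-- union of a family -/
def iUn {ι : Type*} (A : ι → Sub P) : Sub P :=
  ⟨fun n => ⋃ i, (A i).car n, fun f x h => by
    obtain ⟨i, hi⟩ := Set.mem_iUnion.1 h
    exact Set.mem_iUnion.2 ⟨i, (A i).closed f hi⟩⟩

/-- the subcomplex generated by a set of simplices -/
def gen (T : ∀ n, Set (P.S n)) : Sub P :=
  ⟨fun m => {x | ∃ (n : ℕ) (f : Mo m n) (y : P.S n), y ∈ T n ∧ x = P.act f y}, by
    rintro m n f x ⟨k, g, y, hy, rfl⟩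
    exact ⟨k, g.comp f, y, hy, P.act_comp f g y⟩⟩

/-- the subcomplex of degeneracies of a vertex -/
def pt (p : P.S 0) : Sub P :=
  ⟨fun n => {x | x = P.deg p n}, by
    rintro m n f x rfl
    show P.act f (P.act (cst 0) p) = P.act (cst 0) p
    rw [P.act_comp]; rfl⟩

/-- preimage -/
def comap (f : Hom P Q) (A : Sub Q) : Sub P :=
  ⟨fun n => {x | f.app n x ∈ A.car n}, fun {m n} g x h => by
    show f.app m (P.act g x) ∈ A.car m
    rw [f.nat]; exact A.closed g h⟩

/-- image -/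
def map (f : Hom P Q) (A : Sub P) : Sub Q :=
  ⟨fun n => {y | ∃ x ∈ A.car n, f.app n x = y}, by
    rintro m n g y ⟨x, hx, rfl⟩
    exact ⟨P.act g x, A.closed g hx, f.nat g x⟩⟩

/-- a subcomplex as a simplicial set -/
abbrev ss (A : Sub P) : SS where
  S n := {x : P.S n // x ∈ A.car n}
  act f x := ⟨P.act f x.1, A.closed f x.2⟩
  act_id x := Subtype.ext (P.act_id x.1)
  act_comp f g x := Subtype.ext (P.act_comp f g x.1)

/-- inclusion of a subcomplex -/
def incl (A : Sub P) : Hom A.ss P := ⟨fun _ x => x.1, fun _ _ => rfl⟩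

/-- product of subcomplexes -/
def bx (K : Sub Q) (C : Sub P) : Sub (Q.prod P) :=
  ⟨fun n => {x | x.1 ∈ K.car n ∧ x.2 ∈ C.car n}, fun f _ h => ⟨K.closed f h.1, C.closed f h.2⟩⟩

/-- `K' × C ∪ K × A` (for `K' ≤ K`, `A ≤ C`) -/
def box (K' K : Sub Q) (A C : Sub P) : Sub (Q.prod P) :=
  ⟨fun n => {x | (x.1 ∈ K.car n ∧ x.2 ∈ C.car n) ∧ (x.1 ∈ K'.car n ∨ x.2 ∈ A.car n)},
    fun f _ h => ⟨⟨K.closed f h.1.1, C.closed f h.1.2⟩,
      h.2.elim (fun h => Or.inl (K'.closed f h)) (fun h => Or.inr (A.closed f h))⟩⟩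

@[simp] theorem mem_bx {K : Sub Q} {C : Sub P} {n : ℕ} {x : (Q.prod P).S n} :
    x ∈ (bx K C).car n ↔ x.1 ∈ K.car n ∧ x.2 ∈ C.car n := Iff.rfl
@[simp] theorem mem_box {K' K : Sub Q} {A C : Sub P} {n : ℕ} {x : (Q.prod P).S n} :
    x ∈ (box K' K A C).car n ↔
      (x.1 ∈ K.car n ∧ x.2 ∈ C.car n) ∧ (x.1 ∈ K'.car n ∨ x.2 ∈ A.car n) := Iff.rfl

end Sub

/-- boundary of the simplex -/
def bd (k : ℕ) : Sub (Del k) :=
  ⟨fun n => {x | ¬ Function.Surjective (x : Mo n k)}, fun {m n} f x h hs => h fun y => by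
    obtain ⟨z, hz⟩ := hs y
    exact ⟨f z, hz⟩⟩

/-- the horn `Λ^k_i`: faces containing the vertex `i` -/
def horn (k : ℕ) (i : Fin (k + 1)) : Sub (Del k) :=
  ⟨fun n => {x | ∃ j, j ≠ i ∧ ∀ t, (x : Mo n k) t ≠ j}, fun {m n} f x h => by
    obtain ⟨j, hj, h⟩ := h
    exact ⟨j, hj, fun t => h (f t)⟩⟩

/-! ## Extension properties -/

/-- total functions (not necessarily simplicial) -/
abbrev Fn (P Y : SS) := ∀ n, P.S n → Y.S n

/-- `f` is simplicial on the subcomplex `A` -/
def NatOn {P Y : SS} (A : Sub P) (f : Fn P Y) : Prop :=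
  ∀ {m n : ℕ} (g : Mo m n) (x : P.S n), x ∈ A.car n → f m (P.act g x) = Y.act g (f n x)

/-- every simplicial map `A → Y` extends to `C` -/
def ExtP (Y : SS) {P : SS} (A C : Sub P) : Prop :=
  ∀ f : Fn P Y, NatOn A f → ∃ g : Fn P Y, NatOn C g ∧ ∀ n, ∀ x ∈ A.car n, g n x = f n x

/-- `Y^C → Y^A` has the right lifting property against all `∂Δ^k → Δ^k` -/
def Good (Y : SS) {P : SS} (A C : Sub P) : Prop :=
  ∀ k, ExtP Y (Sub.box (bd k) ⊤ A C) (Sub.bx (⊤ : Sub (Del k)) C)

/-- the map `f` on `A` is homotopic to a constant map -/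
def NullOn {P Y : SS} (A : Sub P) (f : Fn P Y) : Prop :=
  ∃ (H : Fn ((Del 1).prod P) Y) (y : Y.S 0), NatOn (Sub.bx ⊤ A) H ∧
    (∀ n, ∀ x ∈ A.car n, H n (cst 0, x) = f n x) ∧
    ∀ n, ∀ x ∈ A.car n, H n (cst 1, x) = Y.deg y n

/-- homotopic to a constant map -/
def Null {P Y : SS} (f : Hom P Y) : Prop := NullOn ⊤ f.app

/-! ## Chains and homology over `ZMod 2` -/

/-- chains -/
abbrev Ch (P : SS) (n : ℕ) := P.S n →₀ ZMod 2

/-- the boundary -/
noncomputable def dif {P : SS} {n : ℕ} (z : Ch P (n + 1)) : Ch P n :=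
  ∑ i : Fin (n + 2), Finsupp.mapDomain (P.act (dlt i)) z

/-- chains supported in `A` -/
def SuppIn {P : SS} (A : Sub P) {n : ℕ} (z : Ch P n) : Prop := ∀ x ∈ z.support, x ∈ A.car n

/-- `z` is a relative cycle mod `A` -/
def RelCyc {P : SS} (A : Sub P) : ∀ {n : ℕ}, Ch P n → Prop
  | 0, _ => True
  | _ + 1, z => SuppIn A (dif z)

/-- the pair `(C, A)` is acyclic over `ZMod 2` (to be used with `A ≤ C`) -/
def Acyc {P : SS} (A C : Sub P) : Prop :=
  ∀ (n : ℕ) (z : Ch P n), SuppIn C z → RelCyc A z →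
    ∃ w : Ch P (n + 1), SuppIn C w ∧ SuppIn A (z + dif w)

/-! ## Simplicial vector spaces over `ZMod 2` -/

/-- Simplicial `ZMod 2`-vector spaces. -/
structure SV where
  V : ℕ → Type
  [grp : ∀ n, AddCommGroup (V n)]
  [mod : ∀ n, Module (ZMod 2) (V n)]
  act : ∀ {m n : ℕ}, Mo m n → (V n →ₗ[ZMod 2] V m)
  act_id : ∀ {n : ℕ} (x : V n), act OrderHom.id x = x
  act_comp : ∀ {l m n : ℕ} (f : Mo l m) (g : Mo m n) (x : V n), act f (act g x) = act (g.comp f) x

attribute [instance] SV.grp SV.mod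

/-- linear simplicial maps -/
@[ext] structure SVHom (A B : SV) where
  app : ∀ n, A.V n →ₗ[ZMod 2] B.V n
  nat : ∀ {m n : ℕ} (f : Mo m n) (x : A.V n), app m (A.act f x) = B.act f (app n x)

theorem SV.act_idL (A : SV) (n : ℕ) : A.act (OrderHom.id : Mo n n) = LinearMap.id :=
  LinearMap.ext fun x => A.act_id x

theorem SV.act_compL (A : SV) {l m n : ℕ} (f : Mo l m) (g : Mo m n) :
    A.act (g.comp f) = (A.act f).comp (A.act g) :=
  LinearMap.ext fun x => (A.act_comp f g x).symm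

def SVHom.id (A : SV) : SVHom A A := ⟨fun _ => LinearMap.id, fun _ _ => rfl⟩
def SVHom.comp {A B C : SV} (g : SVHom B C) (f : SVHom A B) : SVHom A C :=
  ⟨fun n => (g.app n).comp (f.app n), fun h x => by
    simp only [LinearMap.comp_apply]; rw [f.nat, g.nat]⟩

namespace SV

/-- underlying simplicial set -/
abbrev ss (W : SV) : SS := ⟨W.V, fun f x => W.act f x, fun x => W.act_id x, fun f g x => W.act_comp f g x⟩

/-- the differential (sum of all faces) -/
noncomputable def d (W : SV) (n : ℕ) : W.V (n + 1) →ₗ[ZMod 2] W.V n :=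
  ∑ i : Fin (n + 2), W.act (dlt i)

/-- cycles -/
noncomputable def Z (W : SV) : ∀ n, Submodule (ZMod 2) (W.V n)
  | 0 => ⊤
  | n + 1 => LinearMap.ker (W.d n)

/-- boundaries -/
noncomputable def B (W : SV) (n : ℕ) : Submodule (ZMod 2) (W.V n) := LinearMap.range (W.d n)

/-- homology -/
noncomputable abbrev H (W : SV) (n : ℕ) := (W.Z n) ⧸ (Submodule.comap (W.Z n).subtype (W.B n))

/-- the class of a cycle -/
noncomputable def cls (W : SV) {n : ℕ} (z : W.V n) (hz : z ∈ W.Z n) : W.H n :=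
  Submodule.Quotient.mk ⟨z, hz⟩

/-- all faces vanish -/
def Moore (W : SV) {n : ℕ} (z : W.V n) : Prop :=
  ∀ (m : ℕ) (f : Mo m n), ¬ Function.Surjective f → W.act f z = 0

/-- every cycle is a boundary -/
def Acyclic (W : SV) : Prop := ∀ n, ∀ z ∈ W.Z n, z ∈ W.B n

/-- levelwise tensor product -/
noncomputable abbrev tens (P Q : SV) : SV where
  V n := P.V n ⊗[ZMod 2] Q.V n
  act f := TensorProduct.map (P.act f) (Q.act f)
  act_id x := by
    rw [P.act_idL, Q.act_idL, TensorProduct.map_id]; rfl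
  act_comp f g x := by
    rw [P.act_compL, Q.act_compL, TensorProduct.map_comp]; rfl

/-- direct sum of two -/
abbrev prd (P Q : SV) : SV where
  V n := P.V n × Q.V n
  act f := (P.act f).prodMap (Q.act f)
  act_id x := by simp [P.act_id, Q.act_id]
  act_comp f g x := by simp [P.act_comp, Q.act_comp]

end SV

/-- free simplicial vector space -/
noncomputable abbrev lin (P : SS) : SV where
  V n := Ch P n
  act f := Finsupp.lmapDomain (ZMod 2) (ZMod 2) (P.act f)
  act_id {n} x := by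
    have : P.act (OrderHom.id : Mo n n) = _root_.id := funext fun x => P.act_id x
    simp only [Finsupp.lmapDomain_apply, this]
    exact Finsupp.mapDomain_id
  act_comp f g x := by
    have : P.act (g.comp f) = P.act f ∘ P.act g := funext fun x => (P.act_comp f g x).symm
    simp only [Finsupp.lmapDomain_apply, this]
    exact Finsupp.mapDomain_comp.symm

/-- linear extension of a simplicial map into a simplicial vector space -/
noncomputable def linExt {P : SS} {W : SV} (f : Fn P W.ss) (n : ℕ) : Ch P n →ₗ[ZMod 2] W.V n :=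
  Finsupp.linearCombination (ZMod 2) (f n)

/-- sub simplicial vector spaces -/
structure SubV (W : SV) where
  car : ∀ n, Submodule (ZMod 2) (W.V n)
  closed : ∀ {m n : ℕ} (f : Mo m n) {x : W.V n}, x ∈ car n → W.act f x ∈ car m

namespace SubV

variable {W : SV}

/-- as a simplicial vector space -/
abbrev sv (C : SubV W) : SV where
  V n := C.car n
  act f := (W.act f).restrict (fun _ hx => C.closed f hx)
  act_id x := Subtype.ext (W.act_id x.1)
  act_comp f g x := Subtype.ext (W.act_comp f g x.1)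

/-- the inclusion -/
def incl (C : SubV W) : SVHom C.sv W := ⟨fun n => (C.car n).subtype, fun _ _ => rfl⟩

/-- the quotient -/
abbrev quo (C : SubV W) : SV where
  V n := W.V n ⧸ C.car n
  act f := Submodule.mapQ _ _ (W.act f) (fun _ hx => C.closed f hx)
  act_id x := by
    obtain ⟨x, rfl⟩ := Submodule.Quotient.mk_surjective _ x
    simp [Submodule.mapQ_apply, W.act_id]
  act_comp f g x := by
    obtain ⟨x, rfl⟩ := Submodule.Quotient.mk_surjective _ x
    simp [Submodule.mapQ_apply, W.act_comp]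

/-- the projection -/
def proj (C : SubV W) : SVHom W C.quo := ⟨fun n => (C.car n).mkQ, fun _ _ => rfl⟩

end SubV

/-- chains supported in a subcomplex -/
noncomputable def linSub {P : SS} (A : Sub P) : SubV (lin P) where
  car n := Finsupp.supported (ZMod 2) (ZMod 2) (A.car n)
  closed {m n} f x hx := by
    classical
    rw [Finsupp.mem_supported] at hx ⊢
    intro y hy
    have := Finsupp.mapDomain_support hy
    obtain ⟨z, hz, rfl⟩ := Finset.mem_image.1 this
    exact A.closed f (hx hz)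

/-! ## Pointed simplicial sets and reduced linearisation -/

/-- the base simplices as zero: reduced linearisation `R Z` of a pointed simplicial set,
realised as chains mod chains on the base point -/
noncomputable abbrev R (Z : SS) (z₀ : Z.S 0) : SV := (linSub (Sub.pt z₀)).quo

/-- `x ↦ [x]` -/
noncomputable def R.of {Z : SS} (z₀ : Z.S 0) : Hom Z (R Z z₀).ss :=
  ⟨fun n x => (linSub (Sub.pt z₀)).proj.app n (Finsupp.single x 1), fun {m n} f x => by
    show _ = (R Z z₀).act f _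
    show _ = (linSub (Sub.pt z₀)).quo.act f _
    rw [← (linSub (Sub.pt z₀)).proj.nat]
    congr 1
    show _ = Finsupp.mapDomain (Z.act f) _
    rw [Finsupp.mapDomain_single]⟩

/-! ## Singular simplicial sets -/

/-- the topological simplex -/
abbrev Dtop (n : ℕ) := stdSimplex ℝ (Fin (n + 1))

/-- the affine map induced by a monotone map -/
noncomputable def tmap {m n : ℕ} (f : Mo m n) : C(Dtop m, Dtop n) :=
  ⟨stdSimplex.map f, stdSimplex.continuous_map f⟩

theorem tmap_id {n : ℕ} (t : Dtop n) : tmap (OrderHom.id : Mo n n) t = t := by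
  show stdSimplex.map _ t = t
  exact stdSimplex.map_id_apply t

theorem tmap_comp {l m n : ℕ} (f : Mo l m) (g : Mo m n) (t : Dtop l) :
    tmap g (tmap f t) = tmap (g.comp f) t := by
  show stdSimplex.map _ (stdSimplex.map _ t) = stdSimplex.map _ t
  rw [stdSimplex.map_comp_apply]; rfl

/-- the singular simplicial set -/
noncomputable abbrev Sing (X : Type) [TopologicalSpace X] : SS where
  S n := C(Dtop n, X)
  act f σ := σ.comp (tmap f)
  act_id σ := by ext t; simp [tmap_id]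
  act_comp f g σ := by ext t; simp [tmap_comp]

/-- functoriality -/
noncomputable def Sing.map {X X' : Type} [TopologicalSpace X] [TopologicalSpace X']
    (f : C(X, X')) : Hom (Sing X) (Sing X') := ⟨fun _ σ => f.comp σ, fun _ _ => rfl⟩

/-- singular simplices in a subset -/
def SingIn {X : Type} [TopologicalSpace X] (A : Set X) : Sub (Sing X) :=
  ⟨fun n => {σ : C(Dtop n, X) | ∀ t, σ t ∈ A}, fun f _ h t => h (tmap f t)⟩

/-! ## The classifying space of `ZMod 2` and targets -/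

/-- `K(ZMod 2, 1)` as a simplicial vector space: functions on the vertices vanishing at `0` -/
abbrev K1 : SV where
  V n := {f : Fin (n + 1) → ZMod 2 // f ∈ LinearMap.ker
    (LinearMap.proj (R := ZMod 2) (φ := fun _ : Fin (n + 1) => ZMod 2) 0)}
  act {m n} g :=
    { toFun := fun f => ⟨fun i => f.1 (g i) - f.1 (g 0), by simp⟩
      map_add' := fun x y => Subtype.ext (funext fun i => by
        show x.1 _ + y.1 _ - (x.1 _ + y.1 _) = x.1 _ - x.1 _ + (y.1 _ - y.1 _); ring)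
      map_smul' := fun c x => Subtype.ext (funext fun i => by
        show c * x.1 _ - c * x.1 _ = c * (x.1 _ - x.1 _); ring) }
  act_id x := by
    apply Subtype.ext; funext i
    have := x.2
    simp only [LinearMap.mem_ker, LinearMap.proj_apply] at this
    show x.1 i - x.1 0 = x.1 i
    rw [this, sub_zero]
  act_comp f g x := by
    apply Subtype.ext; funext i
    show (x.1 _ - x.1 _) - (x.1 _ - x.1 _) = x.1 _ - x.1 _
    simp [OrderHom.comp]

/-- `B(ZMod 2)` -/
abbrev BZ2 : SS := K1.ss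

/-- targets: (Y2), (Y3), (Y4) -/
structure IsTarget (Y : SS) [∀ n, TopologicalSpace (Y.S n)] : Prop where
  compact : ∀ n, CompactSpace (Y.S n)
  t2 : ∀ n, T2Space (Y.S n)
  nonempty : Nonempty (Y.S 0)
  cont : ∀ {m n : ℕ} (f : Mo m n), Continuous (Y.act f)
  ext : ∀ (P : SS) (A C : Sub P), A ≤ C → Acyc A C → ExtP Y A C
  null : Good Y (Sub.pt (P := BZ2) (0 : K1.V 0)) ⊤

/-! ## The model of `Q S^(j-1)` -/

/-- the base vector -/
def e0 (j : ℕ) : Fin j → ℝ := fun i => if (i : ℕ) = 0 then 1 else 0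

/-- conditions on the simplices of `WW`: coordinates in `T` -/
structure IsWW (j : ℕ) (T : Set ℕ) {m : ℕ}
    (g : Dtop m × (ℕ → ℝ) → (Fin j → ℝ) × (ℕ → ℝ)) : Prop where
  cont : Continuous g
  fin : ∃ S : Finset ℕ, (S : Set ℕ) ⊆ T ∧
    (∀ t x y, (∀ i ∈ S, x i = y i) → g (t, x) = g (t, y)) ∧
    ∀ t x, ∀ i ∉ S, (g (t, x)).2 i = 0
  bdd : ∃ C : ℝ, ∀ t x, (∀ i, |(g (t, x)).1 i| ≤ C) ∧ ∀ i, |(g (t, x)).2 i| ≤ C
  ne : ∀ t x, ¬ (e0 j + (g (t, x)).1 = 0 ∧ x + (g (t, x)).2 = 0)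

/-- the simplicial set `WW j` (all coordinates) -/
noncomputable abbrev WW (j : ℕ) : SS where
  S m := {g : Dtop m × (ℕ → ℝ) → (Fin j → ℝ) × (ℕ → ℝ) // IsWW j Set.univ g}
  act {m n} f g := ⟨fun p => g.1 (tmap f p.1, p.2), by
    refine ⟨g.2.cont.comp (((tmap f).continuous.comp continuous_fst).prodMk continuous_snd), ?_, ?_, ?_⟩
    · obtain ⟨S, hS, h1, h2⟩ := g.2.fin
      exact ⟨S, hS, fun t x y h => h1 _ _ _ h, fun t x i hi => h2 _ _ i hi⟩
    · obtain ⟨C, hC⟩ := g.2.bdd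
      exact ⟨C, fun t x => hC _ _⟩
    · exact fun t x => g.2.ne _ _⟩
  act_id g := by apply Subtype.ext; funext p; simp [tmap_id]
  act_comp f g x := by apply Subtype.ext; funext p; simp [tmap_comp]

/-- the subcomplex of `WW j` with coordinates in `T` -/
def WWT (j : ℕ) (T : Set ℕ) : Sub (WW j) :=
  ⟨fun _ => {g | IsWW j T g.1}, fun {m n} f g h => by
    refine ⟨((WW j).act f g).2.cont, ?_, ((WW j).act f g).2.bdd, ((WW j).act f g).2.ne⟩
    obtain ⟨S, hS, h1, h2⟩ := h.fin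
    exact ⟨S, hS, fun t x y h => h1 _ _ _ h, fun t x i hi => h2 _ _ i hi⟩⟩

/-- the zero simplices of `WW` (base point) -/
def WW0 (j : ℕ) (hj : 1 ≤ j) : (WW j).S 0 := ⟨fun _ => 0, by
  refine ⟨continuous_const, ⟨∅, by simp, fun _ _ _ _ => rfl, fun _ _ _ _ => rfl⟩,
    ⟨0, fun _ _ => ⟨fun i => by simp, fun i => by simp⟩⟩, ?_⟩
  rintro t x ⟨h, -⟩
  have := congrFun h ⟨0, hj⟩
  simp [e0] at this⟩

/-! ## Spheres, tasks -/

/-- the sphere `S^N` (sup norm is not used: Euclidean) -/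
abbrev Sph (N : ℕ) := Metric.sphere (0 : EuclideanSpace ℝ (Fin (N + 1))) 1

/-- a task with trivial boundary on `X` -/
structure IsTask {X : Type} [TopologicalSpace X] (j k : ℕ) (A : Set X)
    (φ : X × (Fin k → ℝ) → (Fin j → ℝ) × (Fin k → ℝ)) : Prop where
  closed : IsClosed A
  cont : Continuous φ
  triv : ∀ x t, 1 ≤ ‖t‖ → φ (x, t) = (e0 j, t)
  ne : ∀ x ∈ A, ∀ t, φ (x, t) ≠ 0

/-- the task is solved on `p : X' → X` -/
def Solved {X X' : Type} [TopologicalSpace X] [TopologicalSpace X'] (p : X' → X) {j k : ℕ}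
    (A : Set X) (φ : X × (Fin k → ℝ) → (Fin j → ℝ) × (Fin k → ℝ)) : Prop :=
  ∃ (l : ℕ) (Φ : X' × (Fin k → ℝ) × (Fin l → ℝ) → (Fin j → ℝ) × (Fin k → ℝ) × (Fin l → ℝ)),
    Continuous Φ ∧ (∀ p, Φ p ≠ 0) ∧
    (∃ C : ℝ, ∀ x t s, ‖Φ (x, t, s) - (e0 j, t, s)‖ ≤ C) ∧
    ∀ x t s, p x ∈ A → Φ (x, t, s) = ((φ (p x, t)).1, (φ (p x, t)).2, s)

end MM
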