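import Pool.Agent.Lib_MP_33f7bb_d.D1
import Pool.Agent.Lib_MP_33f7bb_d.Defs

/-!
# D3: solved tasks are stably trivial; tasks on closed subspaces
-/

open Set Filter Topology

namespace MM

open SMD

/-- all tasks with trivial boundary (of degree at least `3`) are solved on `X` -/
def TB (X : Type) [TopologicalSpace X] : Prop :=
  ∀ (j k : ℕ) (A : Set X) (φ : X × (Fin k → ℝ) → (Fin j → ℝ) × (Fin k → ℝ)), 3 ≤ j →
    IsTask j k A φ → Solved (id : X → X) A φ

/-- PROOF.  Let `l, Φ, C` be the solution; `φ (x, t) - (e0, t)` is bounded by some `C₁`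
(it is `0` for `‖t‖ ≥ 1`, and `X × closedBall 0 1` is compact).  Let `c = C + C₁ + 1`, so
`‖Φ (x, t, s) - (φ (x, t), s)‖ ≤ C + C₁ < c` always (sup norms), and this difference is `0` for
`x ∈ A`.  Let `χ (t, s) = max 0 (min 1 (2 - ‖(t, s)‖ / c))` and
`Φ' (x, t, s) = (φ (x, t), s) + χ (t, s) • (Φ (x, t, s) - (φ (x, t), s))`
(write `(φ (x, t), s)` for `((φ (x, t)).1, (φ (x, t)).2, s)`).
`Φ'` has no zeros: if `‖(t, s)‖ ≤ c` then `χ = 1` and `Φ' = Φ`; if `‖s‖ > c` or `= c` the last coordinate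
has norm `≥ ‖s‖ - (C + C₁) > 0`; if `‖t‖ ≥ c ≥ 1` then `φ (x, t) = (e0, t)` and the coordinate
`t + χ • (...)` has norm `> 0`.  `Φ' = (φ (x, t), s)` if `x ∈ A` or `‖t‖ ≥ 2 c` or `‖s‖ ≥ 2 c`.
With `φ_r (x, t) = ((φ (x, r t)).1, r⁻¹ • (φ (x, r t)).2)` the map
`G ((x, t), s) = ((a, (2c)⁻¹ • b), (2c)⁻¹ • d)`, `(a, b, d) = Φ' (x, 2c t, 2c s)`, shows
`StabNull B φ_(2c)`, where `B` is the set in the statement.  Finally `stabNull_htp` for
`H (z, u) = φ_r z`, `r = 2 c + u (1 - 2 c)` (replace `r` by `max 1 r` to have a continuous `H`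
for all real `u`); on `B` it has no zeros (for `‖t‖ ≥ 1`, `r ≥ 1`: `φ_r (x, t) = (e0, t)`;
`e0 ≠ 0` because `1 ≤ j`). -/
theorem stabNull_of_solved {X : Type} [MetricSpace X] [CompactSpace X] {j k : ℕ} (hj : 1 ≤ j)
    {A : Set X} {φ : X × (Fin k → ℝ) → (Fin j → ℝ) × (Fin k → ℝ)} (h : IsTask j k A φ)
    (hs : Solved (id : X → X) A φ) :
    StabNull {p : X × (Fin k → ℝ) | p.1 ∈ A ∨ 1 ≤ ‖p.2‖} φ := by
  obtain ⟨l, Φ, hΦc, hΦ0, ⟨C, hC⟩, hΦA⟩ := hs
  set c : ℝ := max C 0 + 1 with hcdef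
  have hc1 : 1 ≤ c := by have := le_max_right C 0; linarith
  have hcC : C < c := by have := le_max_left C 0; linarith
  have hc0 : 0 < c := by linarith
  have h2c : 0 < 2 * c := by linarith
  -- the cut off function
  let χ : (Fin k → ℝ) × (Fin l → ℝ) → ℝ := fun q => max 0 (min 1 (2 - ‖q‖ / c))
  have hχc : Continuous χ := by
    have : Continuous fun q : (Fin k → ℝ) × (Fin l → ℝ) => ‖q‖ / c := continuous_norm.div_const c
    exact continuous_const.max (continuous_const.min (continuous_const.sub this))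
  have hχ0 : ∀ q, 0 ≤ χ q := fun q => le_max_left _ _
  have hχ1 : ∀ q, χ q ≤ 1 := fun q => max_le zero_le_one (min_le_left _ _)
  have hχa : ∀ q, ‖q‖ ≤ c → χ q = 1 := by
    intro q hq
    have h1 : ‖q‖ / c ≤ 1 := (div_le_one hc0).2 hq
    have h2 : min (1 : ℝ) (2 - ‖q‖ / c) = 1 := min_eq_left (by linarith)
    show max 0 (min 1 (2 - ‖q‖ / c)) = 1
    rw [h2]; exact max_eq_right zero_le_one
  have hχb : ∀ q, 2 * c ≤ ‖q‖ → χ q = 0 := by
    intro q hq
    have h1 : 2 ≤ ‖q‖ / c := (le_div_iff₀ hc0).2 hq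
    have h2 : min (1 : ℝ) (2 - ‖q‖ / c) ≤ 0 := (min_le_right _ _).trans (by linarith)
    exact max_eq_left h2
  let hat : X × (Fin k → ℝ) × (Fin l → ℝ) → (Fin j → ℝ) × (Fin k → ℝ) × (Fin l → ℝ) :=
    fun p => ((φ (p.1, p.2.1)).1, (φ (p.1, p.2.1)).2, p.2.2)
  have hhat : Continuous hat := by
    have h1 : Continuous fun p : X × (Fin k → ℝ) × (Fin l → ℝ) => φ (p.1, p.2.1) :=
      h.cont.comp (by fun_prop)
    exact (continuous_fst.comp h1).prodMk ((continuous_snd.comp h1).prodMk (by fun_prop))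
  let Ψ : X × (Fin k → ℝ) × (Fin l → ℝ) → (Fin j → ℝ) × (Fin k → ℝ) × (Fin l → ℝ) :=
    fun p => hat p + χ p.2 • (Φ p - hat p)
  have hΨc : Continuous Ψ := by
    have h1 : Continuous fun p : X × (Fin k → ℝ) × (Fin l → ℝ) => χ p.2 :=
      hχc.comp continuous_snd
    exact hhat.add (h1.smul (hΦc.sub hhat))
  -- bounds
  have hCt : ∀ x t s, ‖(Φ (x, t, s)).2.1 - t‖ ≤ C := fun x t s =>
    ((norm_fst_le _).trans (norm_snd_le _)).trans (hC x t s)
  have hCs : ∀ x t s, ‖(Φ (x, t, s)).2.2 - s‖ ≤ C := fun x t s =>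
    ((norm_snd_le _).trans (norm_snd_le _)).trans (hC x t s)
  have hsm : ∀ (q : (Fin k → ℝ) × (Fin l → ℝ)) {E : Type} [NormedAddCommGroup E]
      [NormedSpace ℝ E] (v : E), ‖χ q • v‖ ≤ ‖v‖ := by
    intro q E _ _ v
    rw [norm_smul, Real.norm_of_nonneg (hχ0 q)]
    exact mul_le_of_le_one_left (norm_nonneg v) (hχ1 q)
  have hΨ0 : ∀ p, Ψ p ≠ 0 := by
    rintro ⟨x, t, s⟩ h0
    by_cases hq : ‖(t, s)‖ ≤ c
    · apply hΦ0 (x, t, s)
      have : Ψ (x, t, s) = Φ (x, t, s) := by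
        show hat (x, t, s) + χ (t, s) • (Φ (x, t, s) - hat (x, t, s)) = _
        rw [hχa _ hq, one_smul]; abel
      rw [← this]; exact h0
    · push Not at hq
      rcases lt_max_iff.1 (hq.trans_eq (Prod.norm_def (t, s))) with ht | ht
      · have ht : c < ‖t‖ := ht
        have h1 : φ (x, t) = (e0 j, t) := h.triv x t (hc1.trans ht.le)
        have h2 : (Ψ (x, t, s)).2.1 = 0 := by rw [h0]; rfl
        have h3 : (Ψ (x, t, s)).2.1 = t + χ (t, s) • ((Φ (x, t, s)).2.1 - t) := by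
          show (φ (x, t)).2 + χ (t, s) • ((Φ (x, t, s)).2.1 - (φ (x, t)).2) = _
          rw [h1]
        have h4 : t = -(χ (t, s) • ((Φ (x, t, s)).2.1 - t)) := by
          rw [eq_neg_iff_add_eq_zero, ← h3, h2]
        have h5 : ‖t‖ ≤ C := by
          calc ‖t‖ = ‖χ (t, s) • ((Φ (x, t, s)).2.1 - t)‖ := by
                conv_lhs => rw [h4]
                rw [norm_neg]
            _ ≤ _ := hsm _ _
            _ ≤ C := hCt x t s
        linarith
      · have ht : c < ‖s‖ := ht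
        have h2 : (Ψ (x, t, s)).2.2 = 0 := by rw [h0]; rfl
        have h3 : (Ψ (x, t, s)).2.2 = s + χ (t, s) • ((Φ (x, t, s)).2.2 - s) := rfl
        have h4 : s = -(χ (t, s) • ((Φ (x, t, s)).2.2 - s)) := by
          rw [eq_neg_iff_add_eq_zero, ← h3, h2]
        have h5 : ‖s‖ ≤ C := by
          calc ‖s‖ = ‖χ (t, s) • ((Φ (x, t, s)).2.2 - s)‖ := by
                conv_lhs => rw [h4]
                rw [norm_neg]
            _ ≤ _ := hsm _ _
            _ ≤ C := hCs x t s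
        linarith
  have hΨb : ∀ x t s, (x ∈ A ∨ 2 * c ≤ ‖t‖ ∨ 2 * c ≤ ‖s‖) → Ψ (x, t, s) = hat (x, t, s) := by
    intro x t s hx
    show hat (x, t, s) + χ (t, s) • (Φ (x, t, s) - hat (x, t, s)) = _
    rcases hx with hx | hx | hx
    · have : Φ (x, t, s) = hat (x, t, s) := hΦA x t s hx
      rw [this, sub_self, smul_zero, add_zero]
    · rw [hχb _ (hx.trans (norm_fst_le (t, s))), zero_smul, add_zero]
    · rw [hχb _ (hx.trans (norm_snd_le (t, s))), zero_smul, add_zero]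
  -- the homotopy
  let r : ℝ → ℝ := fun u => max 1 (2 * c + u * (1 - 2 * c))
  have hrc : Continuous r := by fun_prop
  have hr1 : ∀ u, 1 ≤ r u := fun u => le_max_left _ _
  have hr0 : ∀ u, r u ≠ 0 := fun u => (zero_lt_one.trans_le (hr1 u)).ne'
  let H : (X × (Fin k → ℝ)) × ℝ → (Fin j → ℝ) × (Fin k → ℝ) := fun q =>
    ((φ (q.1.1, r q.2 • q.1.2)).1, (r q.2)⁻¹ • (φ (q.1.1, r q.2 • q.1.2)).2)
  have hHc : Continuous H := by
    have h0 : Continuous fun q : (X × (Fin k → ℝ)) × ℝ => r q.2 := hrc.comp continuous_snd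
    have h1 : Continuous fun q : (X × (Fin k → ℝ)) × ℝ => φ (q.1.1, r q.2 • q.1.2) :=
      h.cont.comp ((continuous_fst.comp continuous_fst).prodMk
        (h0.smul (continuous_snd.comp continuous_fst)))
    exact (continuous_fst.comp h1).prodMk
      ((h0.inv₀ fun q => hr0 q.2).smul (continuous_snd.comp h1))
  have hB : IsClosed {p : X × (Fin k → ℝ) | p.1 ∈ A ∨ 1 ≤ ‖p.2‖} :=
    (h.closed.preimage continuous_fst).union
      (isClosed_le continuous_const (continuous_norm.comp continuous_snd))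
  have he0 : e0 j ≠ 0 := by
    intro h0
    have := congrFun h0 ⟨0, hj⟩
    simp [e0] at this
  have hH0 : ∀ z ∈ {p : X × (Fin k → ℝ) | p.1 ∈ A ∨ 1 ≤ ‖p.2‖}, ∀ u ∈ Icc (0 : ℝ) 1,
      H (z, u) ≠ 0 := by
    rintro ⟨x, t⟩ hz u - h0
    have ha : (φ (x, r u • t)).1 = 0 := congrArg Prod.fst h0
    have hb : (r u)⁻¹ • (φ (x, r u • t)).2 = 0 := congrArg Prod.snd h0
    have hb' : (φ (x, r u • t)).2 = 0 := (smul_eq_zero.1 hb).resolve_left (inv_ne_zero (hr0 u))
    rcases hz with hz | hz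
    · exact h.ne x hz _ (Prod.ext ha hb')
    · have hz : 1 ≤ ‖t‖ := hz
      have hn : 1 ≤ ‖r u • t‖ := by
        rw [norm_smul, Real.norm_of_nonneg (zero_le_one.trans (hr1 u))]
        exact one_le_mul_of_one_le_of_one_le (hr1 u) hz
      rw [h.triv x _ hn] at ha
      exact he0 ha
  have hr_0 : r 0 = 2 * c := by
    show max 1 (2 * c + 0 * (1 - 2 * c)) = 2 * c
    rw [zero_mul, add_zero]; exact max_eq_right (by linarith)
  have hr_1 : r 1 = 1 := by
    show max 1 (2 * c + 1 * (1 - 2 * c)) = 1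
    have : 2 * c + 1 * (1 - 2 * c) = 1 := by ring
    rw [this, max_self]
  have hH1 : (fun z => H (z, 1)) = φ := by
    funext z
    show ((φ (z.1, r 1 • z.2)).1, (r 1)⁻¹ • (φ (z.1, r 1 • z.2)).2) = φ z
    rw [hr_1]; simp
  rw [← hH1]
  refine stabNull_htp hB H hHc hH0 ?_
  refine ⟨Fin l → ℝ, inferInstance, inferInstance, inferInstance,
    fun q => (((Ψ (q.1.1, (2 * c) • q.1.2, (2 * c) • q.2)).1,
      (2 * c)⁻¹ • (Ψ (q.1.1, (2 * c) • q.1.2, (2 * c) • q.2)).2.1),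
      (2 * c)⁻¹ • (Ψ (q.1.1, (2 * c) • q.1.2, (2 * c) • q.2)).2.2), ?_, ?_, ?_⟩
  · have h1 : Continuous fun q : (X × (Fin k → ℝ)) × (Fin l → ℝ) =>
        Ψ (q.1.1, (2 * c) • q.1.2, (2 * c) • q.2) := hΨc.comp (by fun_prop)
    exact ((continuous_fst.comp h1).prodMk
      ((continuous_fst.comp (continuous_snd.comp h1)).const_smul ((2 * c)⁻¹))).prodMk
      ((continuous_snd.comp (continuous_snd.comp h1)).const_smul ((2 * c)⁻¹))
  · rintro ⟨⟨x, t⟩, s⟩ h0
    apply hΨ0 (x, (2 * c) • t, (2 * c) • s)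
    have ha := congrArg (fun q => q.1.1) h0
    have hb := congrArg (fun q => q.1.2) h0
    have hd := congrArg (fun q => q.2) h0
    have hi : (2 * c)⁻¹ ≠ 0 := inv_ne_zero h2c.ne'
    exact Prod.ext ha (Prod.ext ((smul_eq_zero.1 hb).resolve_left hi)
      ((smul_eq_zero.1 hd).resolve_left hi))
  · rintro ⟨x, t⟩ s hz
    have hz' : x ∈ A ∨ 2 * c ≤ ‖(2 * c) • t‖ ∨ 2 * c ≤ ‖(2 * c) • s‖ := by
      rcases hz with (hz | hz) | hz
      · exact Or.inl hz
      · right; left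
        have hz : 1 ≤ ‖t‖ := hz
        rw [norm_smul, Real.norm_of_nonneg h2c.le]
        exact le_mul_of_one_le_right h2c.le hz
      · right; right
        rw [norm_smul, Real.norm_of_nonneg h2c.le]
        exact le_mul_of_one_le_right h2c.le hz
    have h1 := hΨb x ((2 * c) • t) ((2 * c) • s) hz'
    show (((Ψ (x, (2 * c) • t, (2 * c) • s)).1, (2 * c)⁻¹ • (Ψ (x, (2 * c) • t, (2 * c) • s)).2.1),
      (2 * c)⁻¹ • (Ψ (x, (2 * c) • t, (2 * c) • s)).2.2) =
      (((φ (x, r 0 • t)).1, (r 0)⁻¹ • (φ (x, r 0 • t)).2), s)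
    rw [h1, hr_0]
    show (((φ (x, (2 * c) • t)).1, (2 * c)⁻¹ • (φ (x, (2 * c) • t)).2),
      (2 * c)⁻¹ • ((2 * c) • s)) = _
    rw [inv_smul_smul₀ h2c.ne']

/-- Tasks on a closed subspace `Z` extend to the whole space.

PROOF.  Let `A, φ` be a task on `Z`.  The map `ψ (x, t) = φ (x, t) - (e0, t)` on
`Z × (Fin k → ℝ)` vanishes for `‖t‖ ≥ 1`.  The function which is `ψ` on `Z × (Fin k → ℝ)` and `0` on
`K × {‖t‖ ≥ 1}` is continuous on the closed union of these two sets; extend it by Tietze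
(`ContinuousMap.exists_restrict_eq`, the target is a finite dimensional vector space) to `ψ'`
on `K × (Fin k → ℝ)`; `φ' (x, t) = ψ' (x, t) + (e0, t)` with `A' = Subtype.val '' A` is a task on `K`.
Restrict the solution. -/
theorem TB.sub {K : Type} [MetricSpace K] [CompactSpace K] (h : TB K) {Z : Set K}
    (hZ : IsClosed Z) : TB Z := by
  classical
  intro j k A φ hj ht
  let ψ : K × (Fin k → ℝ) → (Fin j → ℝ) × (Fin k → ℝ) := fun p =>
    if hp : p.1 ∈ Z then φ (⟨p.1, hp⟩, p.2) - (e0 j, p.2) else 0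
  have hψZ : ∀ (z : Z) (t : Fin k → ℝ), ψ (z.1, t) = φ (z, t) - (e0 j, t) := by
    intro z t
    show (if hp : z.1 ∈ Z then φ (⟨z.1, hp⟩, t) - (e0 j, t) else 0) = _
    rw [dif_pos z.2]
  have hψt : ∀ (x : K) (t : Fin k → ℝ), 1 ≤ ‖t‖ → ψ (x, t) = 0 := by
    intro x t h1
    show (if hp : x ∈ Z then φ (⟨x, hp⟩, t) - (e0 j, t) else 0) = _
    split_ifs with hp
    · rw [ht.triv _ _ h1, sub_self]
    · rfl
  have hS1 : IsClosed {p : K × (Fin k → ℝ) | p.1 ∈ Z} := hZ.preimage continuous_fst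
  have hS2 : IsClosed {p : K × (Fin k → ℝ) | 1 ≤ ‖p.2‖} :=
    isClosed_le continuous_const (continuous_norm.comp continuous_snd)
  have hc1 : ContinuousOn ψ {p : K × (Fin k → ℝ) | p.1 ∈ Z} := by
    rw [continuousOn_iff_continuous_domRestrict]
    have h1 : Continuous fun p : {p : K × (Fin k → ℝ) | p.1 ∈ Z} =>
        φ ((⟨p.1.1, p.2⟩ : Z), p.1.2) - (e0 j, p.1.2) := by
      refine Continuous.sub (ht.cont.comp ?_) (by fun_prop)
      exact ((continuous_fst.comp continuous_subtype_val).subtype_mk _).prodMk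
        (continuous_snd.comp continuous_subtype_val)
    convert h1 using 1
    funext p
    exact hψZ ⟨p.1.1, p.2⟩ p.1.2
  have hc2 : ContinuousOn ψ {p : K × (Fin k → ℝ) | 1 ≤ ‖p.2‖} :=
    (continuousOn_const (c := (0 : (Fin j → ℝ) × (Fin k → ℝ)))).congr
      fun p hp => hψt p.1 p.2 hp
  have hc := hc1.union_of_isClosed hc2 hS1 hS2
  rw [continuousOn_iff_continuous_domRestrict] at hc
  obtain ⟨g, hg⟩ := ContinuousMap.exists_restrict_eq (hS1.union hS2) ⟨_, hc⟩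
  have hg' : ∀ p ∈ {p : K × (Fin k → ℝ) | p.1 ∈ Z} ∪ {p : K × (Fin k → ℝ) | 1 ≤ ‖p.2‖},
      g p = ψ p := fun p hp => DFunLike.congr_fun hg ⟨p, hp⟩
  have htask : IsTask j k (Subtype.val '' A) fun p : K × (Fin k → ℝ) => g p + (e0 j, p.2) := by
    refine ⟨hZ.isClosedMap_subtype_val A ht.closed, ?_, ?_, ?_⟩
    · exact g.continuous.add (by fun_prop)
    · intro x t h1
      show g (x, t) + (e0 j, t) = _
      rw [hg' _ (Or.inr h1), hψt x t h1, zero_add]
    · rintro x ⟨z, hz, rfl⟩ t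
      show g (z.1, t) + (e0 j, t) ≠ 0
      rw [hg' _ (Or.inl z.2), hψZ, sub_add_cancel]
      exact ht.ne z hz t
  obtain ⟨l, Φ, hΦc, hΦ0, ⟨C, hC⟩, hΦA⟩ := h j k _ _ hj htask
  refine ⟨l, fun p => Φ (p.1.1, p.2.1, p.2.2), hΦc.comp (by fun_prop), fun p => hΦ0 _,
    ⟨C, fun x t s => hC _ _ _⟩, ?_⟩
  intro x t s hx
  have h1 := hΦA x.1 t s ⟨x, hx, rfl⟩
  have h2 : g (x.1, t) + (e0 j, t) = φ (x, t) := by
    rw [hg' _ (Or.inl x.2), hψZ, sub_add_cancel]
  show Φ (x.1, t, s) = _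
  rw [h1]
  show ((g (x.1, t) + (e0 j, t)).1, (g (x.1, t) + (e0 j, t)).2, s) = _
  rw [h2]; rfl

end MM
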