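import Pool.Agent.Lib_MP_33f7bb_d.C5
import Pool.Agent.Lib_MP_33f7bb_d.D3

/-!
# C7: all tasks on the inverse limit are solved
-/

open Set Filter Topology

namespace MM

private theorem C7_norm_e0 {j : ℕ} (hj : 1 ≤ j) : 1 ≤ ‖e0 j‖ := by
  have h := norm_le_pi_norm (e0 j) ⟨0, hj⟩
  simpa [e0] using h

private theorem C7_bond {X : ℕ → Type} [∀ n, TopologicalSpace (X n)]
    (p : ∀ n, C(X (n + 1), X n)) {K : Type} [TopologicalSpace K] (π : ∀ n, C(K, X n))
    (hπ : ∀ n, π n = (p n).comp (π (n + 1))) (i : ℕ) : ∀ d, (bond p i d).comp (π (i + d)) = π i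
  | 0 => rfl
  | d + 1 => by
    have h1 : (bond p i (d + 1)).comp (π (i + (d + 1))) =
        (bond p i d).comp ((p (i + d)).comp (π (i + d + 1))) := rfl
    rw [h1, ← hπ (i + d)]
    exact C7_bond p π hπ i d

/-- PROOF.  Let `A, φ` be a task on `K` (degree `j ≥ 3`).  `‖e0 j‖ = 1`.  There is `r ∈ (0, 1/4)` with
`4 r ≤ ‖φ (z, t)‖` for all `z ∈ A` and all `t` (compactness for `‖t‖ ≤ 1`; for `‖t‖ ≥ 1` the norm is
`≥ 1`; if `A` is empty take `r = 1/8`).  `happ` and `hlist` give `i`, `A'`, `φ'` on `X i` and `d` with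
`‖φ' (π i z, t) - φ (z, t)‖ < r` (first approximate `φ` by `φ₁` on `X i` up to `r / 2`, then `φ₁` by a
listed task up to `r / 2`; note `r / 2 ≤ ‖φ'‖` everywhere implies membership in `A'`), and
`Solved (bond p i d) A' φ'`: maps `Φ` on `X (i + d) × ℝ^k × ℝ^l`.  Composing with
`π (i + d)` (and `bond p i d ∘ π (i + d) = π i`) we get a map
`Φ` on `K × ℝ^k × ℝ^l` without zeros, `Φ (z, t, s) = (φ' (π i z, t), s)` if `π i z ∈ A'`.
The set `D = {z | ∃ t, ‖φ (z, t)‖ ≤ 2 r}` is closed (such `t` have `‖t‖ ≤ 1`) and disjoint from `A`.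
Urysohn: `u : C(K, ℝ)`, `u = 0` on `D`, `u = 1` on `A`, values in `[0,1]`.  If `u z ≠ 0` then
`‖φ (z, t)‖ > 2 r` and `‖φ' (π i z, t)‖ > r` for all `t`, so `π i z ∈ A'`.  The solution is
`Φ' (z, t, s) = Φ (z, t, s) + u z • ((φ (z, t)).1 - (φ' (π i z, t)).1, (φ (z, t)).2 - (φ' (π i z, t)).2, 0)`:
where `u z = 0` it is `Φ`; where `u z ≠ 0` it is `(φ' + u z • (φ - φ'), s)`, and
`‖φ' + u z • (φ - φ')‖ ≥ ‖φ'‖ - r > 0`.  The difference to `(e0, t, s)` is bounded. -/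
theorem TB_of_seq {X : ℕ → Type} [∀ n, MetricSpace (X n)] [∀ n, CompactSpace (X n)]
    (p : ∀ n, C(X (n + 1), X n)) {K : Type} [MetricSpace K] [CompactSpace K]
    (π : ∀ n, C(K, X n)) (hπ : ∀ n, π n = (p n).comp (π (n + 1)))
    (happ : ∀ (j k : ℕ) (φ : K × (Fin k → ℝ) → (Fin j → ℝ) × (Fin k → ℝ)), IsTask j k ∅ φ →
        ∀ r : ℝ, 0 < r → ∃ (i : ℕ) (φ' : X i × (Fin k → ℝ) → (Fin j → ℝ) × (Fin k → ℝ)),
          IsTask j k ∅ φ' ∧ ∀ z t, ‖φ' (π i z, t) - φ (z, t)‖ < r)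
    (hlist : ∀ (i j k : ℕ) (φ : X i × (Fin k → ℝ) → (Fin j → ℝ) × (Fin k → ℝ)), 3 ≤ j →
      IsTask j k ∅ φ → ∀ r : ℝ, 0 < r → ∃ (A' : Set (X i))
        (φ' : X i × (Fin k → ℝ) → (Fin j → ℝ) × (Fin k → ℝ)) (d : ℕ), IsTask j k A' φ' ∧
        (∀ x t, ‖φ' (x, t) - φ (x, t)‖ < r) ∧ (∀ x, (∀ t, r ≤ ‖φ' (x, t)‖) → x ∈ A') ∧
        Solved (bond p i d) A' φ') : TB K := by
  intro j k A φ hj ht
  have he : ∀ (z : K) (t : Fin k → ℝ), 1 ≤ ‖t‖ → 1 ≤ ‖φ (z, t)‖ := by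
    intro z t h1
    rw [ht.triv z t h1]
    exact (C7_norm_e0 (by omega)).trans (norm_fst_le ((e0 j, t) : (Fin j → ℝ) × (Fin k → ℝ)))
  -- the constant `r`
  obtain ⟨m, hm0, hm⟩ : ∃ m : ℝ, 0 < m ∧
      ∀ q ∈ A ×ˢ Metric.closedBall (0 : Fin k → ℝ) 1, m ≤ ‖φ q‖ := by
    refine IsCompact.exists_forall_le' (ht.closed.isCompact.prod (isCompact_closedBall _ _))
      ht.cont.norm.continuousOn ?_
    rintro ⟨z, t⟩ ⟨hz, -⟩
    exact norm_pos_iff.2 (ht.ne z hz t)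
  obtain ⟨r, hr0, hr1, hrA⟩ : ∃ r : ℝ, 0 < r ∧ 4 * r ≤ 1 ∧ ∀ z ∈ A, ∀ t, 4 * r ≤ ‖φ (z, t)‖ := by
    refine ⟨min m 1 / 4, by positivity, ?_, ?_⟩
    · have := min_le_right m 1
      linarith
    · intro z hz t
      have h4 : 4 * (min m 1 / 4) = min m 1 := by ring
      rw [h4]
      by_cases h1 : 1 ≤ ‖t‖
      · exact (min_le_right m 1).trans (he z t h1)
      · exact (min_le_left m 1).trans (hm (z, t) ⟨hz, by
          rw [mem_closedBall_zero_iff]
          exact (not_le.1 h1).le⟩)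
  -- the approximation
  obtain ⟨i, φ₁, hφ₁, happ1⟩ := happ j k φ
    ⟨isClosed_empty, ht.cont, ht.triv, fun x hx => absurd hx (Set.notMem_empty x)⟩ (r / 2)
    (half_pos hr0)
  obtain ⟨A', φ', d, hT', happ2, hmem, l, Φ, hΦc, hΦ0, ⟨C, hC⟩, hΦA⟩ :=
    hlist i j k φ₁ hj hφ₁ (r / 2) (half_pos hr0)
  have hclose : ∀ z t, ‖φ (z, t) - φ' (π i z, t)‖ < r := by
    intro z t
    have h1 := happ1 z t
    have h2 := happ2 (π i z) t
    have h3 : φ (z, t) - φ' (π i z, t) =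
        -((φ' (π i z, t) - φ₁ (π i z, t)) + (φ₁ (π i z, t) - φ (z, t))) := by abel
    rw [h3, norm_neg]
    exact (norm_add_le _ _).trans_lt (by linarith)
  have hbond : ∀ z, bond p i d (π (i + d) z) = π i z := fun z =>
    DFunLike.congr_fun (C7_bond p π hπ i d) z
  -- the set `D`
  let D : Set K := {z | ∃ t, ‖φ (z, t)‖ ≤ 2 * r}
  have hD : IsClosed D := by
    have : CompactSpace (Metric.closedBall (0 : Fin k → ℝ) 1) :=
      isCompact_iff_compactSpace.1 (isCompact_closedBall _ _)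
    have h1 : D = Prod.fst '' {q : K × (Metric.closedBall (0 : Fin k → ℝ) 1) |
        ‖φ (q.1, q.2.1)‖ ≤ 2 * r} := by
      ext z
      constructor
      · rintro ⟨t, h2⟩
        have h3 : ‖t‖ ≤ 1 := by
          by_contra h3
          have := he z t (not_le.1 h3).le
          linarith
        exact ⟨(z, ⟨t, mem_closedBall_zero_iff.2 h3⟩), h2, rfl⟩
      · rintro ⟨⟨z', t⟩, h2, rfl⟩
        exact ⟨t.1, h2⟩
    rw [h1]
    refine isClosedMap_fst_of_compactSpace _ (isClosed_le ?_ continuous_const)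
    exact (ht.cont.comp (continuous_fst.prodMk (continuous_subtype_val.comp continuous_snd))).norm
  have hdis : Disjoint D A := by
    rw [Set.disjoint_left]
    rintro z ⟨t, h1⟩ hz
    have := hrA z hz t
    linarith
  obtain ⟨u, hu0, hu1, huI⟩ := exists_continuous_zero_one_of_isClosed hD ht.closed hdis
  have hout : ∀ z, z ∉ D → π i z ∈ A' ∧ ∀ t, r < ‖φ' (π i z, t)‖ := by
    intro z hz
    have h1 : ∀ t, r < ‖φ' (π i z, t)‖ := by
      intro t
      have h2 : 2 * r < ‖φ (z, t)‖ := by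
        by_contra h2
        exact hz ⟨t, not_lt.1 h2⟩
      have h3 := hclose z t
      have h4 := norm_sub_norm_le (φ (z, t)) (φ' (π i z, t))
      linarith
    exact ⟨hmem _ fun t => (by have := h1 t; linarith), h1⟩
  have hΦout : ∀ z, z ∉ D → ∀ t s, Φ (π (i + d) z, t, s) =
      ((φ' (π i z, t)).1, (φ' (π i z, t)).2, s) := by
    intro z hz t s
    have h1 := hΦA (π (i + d) z) t s (by rw [hbond]; exact (hout z hz).1)
    rw [h1, hbond]
  -- the solution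
  refine ⟨l, fun q => Φ (π (i + d) q.1, q.2.1, q.2.2) + u q.1 •
    (((φ (q.1, q.2.1)).1 - (φ' (π i q.1, q.2.1)).1, (φ (q.1, q.2.1)).2 - (φ' (π i q.1, q.2.1)).2,
      0) : (Fin j → ℝ) × (Fin k → ℝ) × (Fin l → ℝ)), ?_, ?_, ⟨C + r, ?_⟩, ?_⟩
  · have h1 : Continuous fun q : K × (Fin k → ℝ) × (Fin l → ℝ) =>
        Φ (π (i + d) q.1, q.2.1, q.2.2) := hΦc.comp
      (((π (i + d)).continuous.comp continuous_fst).prodMk continuous_snd)
    have h2 : Continuous fun q : K × (Fin k → ℝ) × (Fin l → ℝ) => φ (q.1, q.2.1) :=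
      ht.cont.comp (continuous_fst.prodMk (continuous_fst.comp continuous_snd))
    have h3 : Continuous fun q : K × (Fin k → ℝ) × (Fin l → ℝ) => φ' (π i q.1, q.2.1) :=
      hT'.cont.comp (((π i).continuous.comp continuous_fst).prodMk
        (continuous_fst.comp continuous_snd))
    refine h1.add ((u.continuous.comp continuous_fst).smul ?_)
    exact ((continuous_fst.comp h2).sub (continuous_fst.comp h3)).prodMk
      (((continuous_snd.comp h2).sub (continuous_snd.comp h3)).prodMk continuous_const)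
  · rintro ⟨z, t, s⟩ h0
    have h0' : Φ (π (i + d) z, t, s) + u z •
      (((φ (z, t)).1 - (φ' (π i z, t)).1, (φ (z, t)).2 - (φ' (π i z, t)).2,
        0) : (Fin j → ℝ) × (Fin k → ℝ) × (Fin l → ℝ)) = 0 := h0
    by_cases hz : u z = 0
    · rw [hz, zero_smul, add_zero] at h0'
      exact hΦ0 _ h0'
    · have hzD : z ∉ D := fun h => hz (hu0 h)
      rw [hΦout z hzD t s] at h0'
      have h1 : φ' (π i z, t) + u z • (φ (z, t) - φ' (π i z, t)) = 0 := by
        have ha := congrArg Prod.fst h0'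
        have hb := congrArg (fun q => q.2.1) h0'
        exact Prod.ext ha hb
      have h2 : ‖φ' (π i z, t)‖ ≤ ‖φ (z, t) - φ' (π i z, t)‖ := by
        have h5 := congrArg norm (eq_neg_of_add_eq_zero_left h1)
        rw [norm_neg, norm_smul, Real.norm_of_nonneg (huI z).1] at h5
        exact h5.le.trans (mul_le_of_le_one_left (norm_nonneg _) (huI z).2)
      have h3 := (hout z hzD).2 t
      have h4 := hclose z t
      linarith
  · intro z t s
    have h1 := hC (π (i + d) z) t s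
    have h2 : ‖u z • (((φ (z, t)).1 - (φ' (π i z, t)).1, (φ (z, t)).2 - (φ' (π i z, t)).2,
        0) : (Fin j → ℝ) × (Fin k → ℝ) × (Fin l → ℝ))‖ ≤ r := by
      rw [norm_smul, Real.norm_of_nonneg (huI z).1]
      refine (mul_le_of_le_one_left (norm_nonneg _) (huI z).2).trans ?_
      have h3 := hclose z t
      rw [Prod.norm_def] at h3
      have h4 := max_lt_iff.1 h3
      rw [Prod.norm_def, Prod.norm_def, norm_zero]
      exact max_le h4.1.le (max_le h4.2.le hr0.le)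
    have h3 : (Φ (π (i + d) z, t, s) + u z •
      (((φ (z, t)).1 - (φ' (π i z, t)).1, (φ (z, t)).2 - (φ' (π i z, t)).2,
        0) : (Fin j → ℝ) × (Fin k → ℝ) × (Fin l → ℝ))) - (e0 j, t, s) =
      (Φ (π (i + d) z, t, s) - (e0 j, t, s)) + u z •
      (((φ (z, t)).1 - (φ' (π i z, t)).1, (φ (z, t)).2 - (φ' (π i z, t)).2,
        0) : (Fin j → ℝ) × (Fin k → ℝ) × (Fin l → ℝ)) := add_sub_right_comm _ _ _
    show ‖(Φ (π (i + d) z, t, s) + u z •
      (((φ (z, t)).1 - (φ' (π i z, t)).1, (φ (z, t)).2 - (φ' (π i z, t)).2,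
        0) : (Fin j → ℝ) × (Fin k → ℝ) × (Fin l → ℝ))) - (e0 j, t, s)‖ ≤ C + r
    rw [h3]
    exact (norm_add_le _ _).trans (add_le_add h1 h2)
  · intro z t s hz
    have hzA : z ∈ A := hz
    have hzD : z ∉ D := fun h => Set.disjoint_left.1 hdis h hzA
    have h1 : u z = 1 := hu1 hzA
    show Φ (π (i + d) z, t, s) + u z •
      (((φ (z, t)).1 - (φ' (π i z, t)).1, (φ (z, t)).2 - (φ' (π i z, t)).2,
        0) : (Fin j → ℝ) × (Fin k → ℝ) × (Fin l → ℝ)) = ((φ (z, t)).1, (φ (z, t)).2, s)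
    rw [hΦout z hzD t s, h1, one_smul]
    refine Prod.ext ?_ (Prod.ext ?_ ?_)
    · exact add_sub_cancel _ _
    · exact add_sub_cancel _ _
    · exact add_zero s

end MM
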