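import Pool.Agent.Lib_MP_33f7bb_d.C4
import Pool.Agent.Lib_MP_33f7bb_d.C5B
import Pool.Agent.Lib_MP_33f7bb_d.C6
import Pool.Agent.Lib_MP_33f7bb_d.C7

/-!
# C8: existence of the compacta
-/

open Set Filter Topology

namespace MM

/-- PROOF.  `P X q = ¬ Null (κ.comp (Sing.map q))`.  `exists_seq` (with the lists of `exists_list`
and `one_step`), `exists_lim` (the `X n` are not empty: `null_of_isEmpty`), `TB_of_seq`, and
`q = q 0 ∘ π 0`: if it is null-homotopic then so is `q 0 ∘ bond p 0 d = q d` for some `d`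
(`0 + d`; induction), contradicting `P` by `c_null_of_nullhomotopic`. -/
theorem exists_compactum {Y : SS} [∀ n, TopologicalSpace (Y.S n)] (hY : IsTarget Y) {N : ℕ}
    (κ : Hom (Sing (Sph N)) Y) (hκ : ¬ Null κ)
    (hW : ∀ (j : ℕ) (hj : 1 ≤ j), 3 ≤ j → Good Y (Sub.pt (WW0 j hj)) (⊤ : Sub (WW j)))
    (hS : ∀ (X : Type) [MetricSpace X] [CompactSpace X] (X₁ X₂ : Set X),
      interior X₁ ∪ interior X₂ = Set.univ → Acyc (SingIn X₁ ⊔ SingIn X₂) (⊤ : Sub (Sing X))) :
    ∃ (K : Type) (_ : MetricSpace K) (_ : CompactSpace K) (q : C(K, Sph N)),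
      ¬ q.Nullhomotopic ∧ TB K := by
  choose τ hτ using exists_list
  obtain ⟨X, i1, i2, p, q, hq, hP, hsol⟩ := exists_seq (N := N)
    (fun X _ _ q => ¬ Null (κ.comp (Sing.map q)))
    (fun X _ _ q hq T => by
      obtain ⟨X', i1, i2, p, h1, h2⟩ := one_step hY κ q hq (le_trans (by norm_num) T.hj)
        (hW T.j _ T.hj) (hS X) T.isTask
      exact ⟨X', i1, i2, p, h1, h2⟩)
    (by
      have h1 : κ.comp (Sing.map (ContinuousMap.id (Sph N))) = κ := rfl
      show ¬ Null (κ.comp (Sing.map (ContinuousMap.id (Sph N))))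
      rw [h1]
      exact hκ) τ
  have hne : ∀ n, Nonempty (X n) := fun n => by
    by_contra h
    rw [not_nonempty_iff] at h
    exact hP n (null_of_isEmpty hY.nonempty _)
  obtain ⟨K, j1, j2, π, hπ, hnull, happ⟩ := exists_lim p
  refine ⟨K, j1, j2, (q 0).comp (π 0), fun h => ?_, ?_⟩
  · obtain ⟨d, hd⟩ := hnull N (q 0) h
    have hqd : ∀ d, (q 0).comp (bond p 0 d) = q (0 + d) := by
      intro d
      induction d with
      | zero => rfl
      | succ d ih =>
        show ((q 0).comp (bond p 0 d)).comp (p (0 + d)) = q (0 + d + 1)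
        rw [hq (0 + d), ih]
    rw [hqd] at hd
    exact hP _ (c_null_of_nullhomotopic κ _ hd)
  · refine TB_of_seq p π hπ happ ?_
    intro i j k φ hj hφ r hr
    obtain ⟨m, A', φ', h', hm, h1, h2⟩ := hτ (X i) j k hj φ hφ r hr
    obtain ⟨d, hd⟩ := hsol i m
    refine ⟨A', φ', d, h', h1, h2, ?_⟩
    rw [hm] at hd
    exact hd

end MM
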