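import Pool.Agent.Lib_MP_33f7bb_an.SUSP

/-!
# D1: homotopy invariance of `StabNull`
-/

open Set Filter Topology

namespace MM

open SMD

/-- Homotopy invariance: if `H` has no zeros on `B × [0,1]` then stable triviality of `H (·, 0)`
implies stable triviality of `H (·, 1)`.

PROOF.  Let `V, G₀` be the witness for `H (·, 0)`: `G₀ (z, v) = (H (z, 0), v)` for `z ∈ B` or
`‖v‖ ≥ 1`, no zeros.  Put `E (p, u) = G₀ p + (H (p.1, u) - H (p.1, 0), 0)` for `p : Z × V`, `u : ℝ`
(continuous).  So `E (p, 0) = G₀ p`, and `E (p, u) = (H (p.1, u), p.2)` for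
`p ∈ B' = {p | p.1 ∈ B ∨ 1 ≤ ‖p.2‖}`.  The set `N = {p | ∃ u ∈ Icc 0 1, E (p, u) = 0}` is closed
(projection along the compact set `Icc 0 1`: `IsCompact.image`-type argument or
`isClosedMap_fst_of_compactSpace` on `(Z × V) × Icc 0 1`) and disjoint from the closed set `B'`
(on `B'` the first coordinate `H (p.1, u)` is not zero if `p.1 ∈ B`, and `p.2 ≠ 0` if `‖p.2‖ ≥ 1`).
`Z × V` is metrizable, hence normal; Urysohn (`exists_continuous_zero_one_of_isClosed`) gives
`c : C(Z × V, ℝ)` with `c = 0` on `N`, `c = 1` on `B'`, values in `Icc 0 1`.  The witness is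
`G₁ p = E (p, c p)`: if `G₁ p = 0` then `p ∈ N`, so `c p = 0` and `G₀ p = 0`, impossible. -/
theorem stabNull_htp {Z : Type*} [TopologicalSpace Z] [TopologicalSpace.MetrizableSpace Z]
    {W : Type*} [NormedAddCommGroup W] [NormedSpace ℝ W] {B : Set Z} (hB : IsClosed B)
    (H : Z × ℝ → W) (hH : Continuous H) (h0 : ∀ z ∈ B, ∀ u ∈ Icc (0 : ℝ) 1, H (z, u) ≠ 0)
    (h : StabNull B fun z => H (z, 0)) : StabNull B fun z => H (z, 1) := by
  obtain ⟨V, i1, i2, i3, G, hG, hG0, hGB⟩ := h
  set E : (Z × V) × ℝ → W × V := fun q => G q.1 + (H (q.1.1, q.2) - H (q.1.1, 0), 0) with hE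
  have hEc : Continuous E := by
    refine (hG.comp continuous_fst).add (Continuous.prodMk ?_ continuous_const)
    refine (hH.comp ?_).sub (hH.comp ?_)
    · exact (continuous_fst.comp continuous_fst).prodMk continuous_snd
    · exact (continuous_fst.comp continuous_fst).prodMk continuous_const
  have hE0 : ∀ p : Z × V, E (p, 0) = G p := by
    intro p
    rw [hE]
    simp
  set B' : Set (Z × V) := {p | p.1 ∈ B ∨ 1 ≤ ‖p.2‖} with hB'
  have hEB : ∀ p ∈ B', ∀ u, E (p, u) = (H (p.1, u), p.2) := by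
    rintro ⟨z, v⟩ hp u
    have h1 := hGB z v hp
    rw [hE]
    simp only [h1]
    ext1
    · simp
    · simp
  set N : Set (Z × V) := Prod.fst '' {q : (Z × V) × (Icc (0 : ℝ) 1) | E (q.1, (q.2 : ℝ)) = 0} with hN
  have hNc : IsClosed N := by
    refine isClosedMap_fst_of_compactSpace _ ?_
    have h1 : Continuous fun q : (Z × V) × (Icc (0 : ℝ) 1) => E (q.1, (q.2 : ℝ)) :=
      hEc.comp (continuous_fst.prodMk (continuous_subtype_val.comp continuous_snd))
    exact isClosed_eq h1 continuous_const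
  have hBc : IsClosed B' := by
    refine (hB.preimage continuous_fst).union ?_
    exact isClosed_le continuous_const (continuous_snd.norm)
  have hdis : Disjoint N B' := by
    rw [Set.disjoint_left]
    rintro p ⟨⟨p', u⟩, hq, rfl⟩ hp
    have h1 : E (p', (u : ℝ)) = 0 := hq
    have h2 : E (p', (u : ℝ)) = (H (p'.1, (u : ℝ)), p'.2) := hEB p' hp u
    rw [h1] at h2
    have h3 : H (p'.1, (u : ℝ)) = 0 := (congrArg Prod.fst h2).symm
    have h4 : p'.2 = 0 := (congrArg Prod.snd h2).symm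
    rcases hp with hp | hp
    · exact h0 p'.1 hp u u.2 h3
    · have h5 : p'.2 = 0 := h4
      have h6 : (1 : ℝ) ≤ ‖p'.2‖ := hp
      rw [h5, norm_zero] at h6
      linarith
  obtain ⟨c, hc0, hc1, hcI⟩ := exists_continuous_zero_one_of_isClosed hNc hBc hdis
  refine ⟨V, i1, i2, i3, fun p => E (p, c p), ?_, ?_, ?_⟩
  · exact hEc.comp (continuous_id.prodMk c.continuous)
  · intro p hp
    have h1 : p ∈ N := ⟨(p, ⟨c p, hcI p⟩), hp, rfl⟩
    have h2 : c p = 0 := hc0 h1
    have h3 : E (p, c p) = 0 := hp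
    rw [h2, hE0] at h3
    exact hG0 p h3
  · intro z v hzv
    have h1 : (z, v) ∈ B' := hzv
    have h2 : c (z, v) = 1 := hc1 h1
    show E ((z, v), c (z, v)) = (H (z, 1), v)
    rw [h2, hEB (z, v) h1]

end MM
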