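import Pool.Agent.Lib_MP_33f7bb_d.SDef

/-!
# S4: iterated subdivision makes affine simplices small

Statement `SdL_iter_small`: for every `n` and `ε > 0` there is `k` such that every tuple `u` in the support of the
`k`-th subdivision of the tuple of vertices of `Δ_n` has image of diameter `< ε`.

PROOF.  Distances in `Dtop n` are those of the sup norm of `Fin (n+1) → ℝ`.
1. (hull) Let `S` be a convex subset of `Fin (n+1) → ℝ` (only closed balls are needed). If all `(w i).1 ∈ S` then
   `(aff w t).1 ∈ S` for all `t` (`Convex.sum_mem`), in particular `(bary w).1 ∈ S`; and for every `u` in the support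
   of `SdL n m (single w 1)` all `(u i).1 ∈ S` (induction on `m`: `u = Fin.cons (bary w) u'`, `u'` in the support of
   `SdL n m (dif (single w 1))`, and `dif (single w 1)` is a sum of `single (w ∘ dlt i) 1`).
2. (barycentre) `dist (bary w) (w j) ≤ (m/(m+1)) * d` for `w : Fin (m+1) → Dtop n` with all `dist (w i) (w j) ≤ d`:
   `(bary w).1 - (w j).1 = (1/(m+1)) ∑ i, ((w i).1 - (w j).1)`, the term `i = j` vanishes.
   Hence every point of the hull of `w` (in the sense of 1, `S = closedBall (bary w) (m/(m+1) d)`) is within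
   `(m/(m+1)) d` of `bary w`.
3. (one step) if all `dist (w i) (w j) ≤ d` (`d ≥ 0`) then for every `u` in the support of `SdL n m (single w 1)` and all `i, j`
   `dist (u i) (u j) ≤ (m/(m+1)) * d`. Induction on `m`: `m = 0`: `u = w`, `dist (u 0) (u 0) = 0`. Step: `u = cons (bary w) u'`,
   `u'` in the support of `SdL n m (single (w ∘ dlt k) 1)`: `dist (u' i) (u' j) ≤ (m/(m+1)) d ≤ ((m+1)/(m+2)) d`, and
   `dist (bary w) (u' j) ≤ ((m+1)/(m+2)) d` by 1 and 2.
4. (iteration) for `u` in the support of `(SdL n n)^[k] (single vtx 1)`: all `dist (u i) (u j) ≤ (n/(n+1))^k * 1`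
   (vertices of `Δ_n` have distance `≤ 1`); `SdL n n` is linear, so a tuple in the support of `SdL n n z` is in the support of
   `SdL n n (single w 1)` for some `w` in the support of `z`. The power tends to `0`.
5. `dist (aff u s) (aff u t) ≤ 2 max dist (u i) (u j)` (even without the factor 2): by 1 both points lie in the closed ball
   around `u 0` of radius `max`.
-/

namespace MM

/-- a tuple in the support of `L z` is in the support of `L (single w 1)` for some `w` in the support of `z` -/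
private theorem S4_lin {α β : Type} (L : (α →₀ ZMod 2) →ₗ[ZMod 2] (β →₀ ZMod 2)) (z : α →₀ ZMod 2) (u : β)
    (hu : u ∈ (L z).support) : ∃ w ∈ z.support, u ∈ (L (Finsupp.single w 1)).support := by
  classical
  by_contra hcon
  push Not at hcon
  rw [Finsupp.mem_support_iff] at hu
  apply hu
  have h1 : L z = z.sum fun w c => c • L (Finsupp.single w 1) := by
    conv_lhs => rw [← Finsupp.sum_single z]
    rw [Finsupp.sum, map_sum, Finsupp.sum]
    refine Finset.sum_congr rfl fun w _ => ?_
    rw [← map_smul, Finsupp.smul_single, smul_eq_mul, mul_one]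
  rw [h1, Finsupp.sum, Finsupp.finsetSum_apply]
  refine Finset.sum_eq_zero fun w hw => ?_
  have h2 := hcon w hw
  rw [Finsupp.notMem_support_iff] at h2
  rw [Finsupp.smul_apply, h2, smul_zero]

private theorem S4_succ {n m : ℕ} (w : Fin (m + 2) → Dtop n) (u : Fin (m + 2) → Dtop n)
    (hu : u ∈ (SdL n (m + 1) (Finsupp.single w 1)).support) :
    ∃ (k : Fin (m + 2)) (u' : Fin (m + 1) → Dtop n),
      u' ∈ (SdL n m (Finsupp.single (w ∘ dlt k) 1)).support ∧ u = Fin.cons (bary w) u' := by
  classical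
  have h1 : SdL n (m + 1) (Finsupp.single w 1) =
      coneL (bary w) m (SdL n m (dif (P := LD n) (Finsupp.single w 1))) := by
    show Finsupp.linearCombination (ZMod 2) (fun w : Fin (m + 2) → Dtop n =>
      coneL (bary w) m (SdL n m (dif (P := LD n) (Finsupp.single w 1)))) (Finsupp.single w 1) = _
    rw [Finsupp.linearCombination_single, one_smul]
  rw [h1] at hu
  have h2 : dif (P := LD n) (Finsupp.single w 1 : Ch (LD n) (m + 1)) =
      ∑ i : Fin (m + 2), (Finsupp.single (w ∘ dlt i) 1 : Ch (LD n) m) := by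
    unfold dif
    refine Finset.sum_congr rfl fun i _ => ?_
    rw [Finsupp.mapDomain_single]
  rw [h2] at hu
  obtain ⟨u', hu', hu''⟩ := S4_lin (coneL (bary w) m) _ u hu
  have h3 : coneL (bary w) m (Finsupp.single u' 1) = Finsupp.single (Fin.cons (bary w) u') 1 := by
    unfold coneL
    rw [Finsupp.lmapDomain_apply, Finsupp.mapDomain_single]
  rw [h3] at hu''
  have h4 := Finsupp.support_single_subset hu''
  rw [Finset.mem_singleton] at h4
  obtain ⟨v, hv, hv'⟩ := S4_lin (SdL n m) _ u' hu'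
  have h5 := Finsupp.support_finsetSum hv
  rw [Finset.mem_biUnion] at h5
  obtain ⟨k, _, hk⟩ := h5
  have h6 := Finsupp.support_single_subset hk
  rw [Finset.mem_singleton] at h6
  subst h6
  exact ⟨k, u', hv', h4⟩

private theorem S4_zero {n : ℕ} (w : Fin 1 → Dtop n) (u : Fin 1 → Dtop n)
    (hu : u ∈ (SdL n 0 (Finsupp.single w 1)).support) : u = w := by
  have h1 : SdL n 0 (Finsupp.single w 1) = Finsupp.single w 1 := rfl
  rw [h1] at hu
  have h4 := Finsupp.support_single_subset hu
  rwa [Finset.mem_singleton] at h4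

/-- 1, first part -/
private theorem S4_hull {m n : ℕ} {S : Set (Fin (n + 1) → ℝ)} (hS : Convex ℝ S) (w : Fin (m + 1) → Dtop n)
    (hw : ∀ i, (w i).1 ∈ S) (t : Dtop m) : (aff w t).1 ∈ S := by
  have h1 : (aff w t).1 = ∑ i, t.1 i • (w i).1 := by
    funext j
    rw [aff_apply, Finset.sum_apply]
    rfl
  rw [h1]
  exact hS.sum_mem (fun i _ => Dtop_nonneg t i) (Dtop_sum t) (fun i _ => hw i)

/-- 1, second part -/
private theorem S4_hull2 {n : ℕ} {S : Set (Fin (n + 1) → ℝ)} (hS : Convex ℝ S) : ∀ (m : ℕ)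
    (w : Fin (m + 1) → Dtop n), (∀ i, (w i).1 ∈ S) → ∀ u : Fin (m + 1) → Dtop n,
    u ∈ (SdL n m (Finsupp.single w 1)).support → ∀ i, (u i).1 ∈ S
  | 0, w, hw, u, hu => by
    rw [S4_zero w u hu]
    exact hw
  | m + 1, w, hw, u, hu => by
    obtain ⟨k, u', hu', rfl⟩ := S4_succ w u hu
    intro i
    refine Fin.cases ?_ (fun j => ?_) i
    · exact S4_hull hS w hw _
    · rw [Fin.cons_succ]
      exact S4_hull2 hS m (w ∘ dlt k) (fun i => hw _) u' hu' j

/-- 2 -/
private theorem S4_bary {m n : ℕ} (w : Fin (m + 1) → Dtop n) {d : ℝ} (hd : 0 ≤ d)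
    (hw : ∀ i j, dist (w i) (w j) ≤ d) (j : Fin (m + 1)) :
    dist (w j) (bary w) ≤ ((m : ℝ) / (m + 1)) * d := by
  rw [dist_comm, Subtype.dist_eq, dist_pi_le_iff (by positivity)]
  intro k
  have hm : (0 : ℝ) < (m : ℝ) + 1 := by positivity
  have hb : (bary w).1 k = ∑ i, (1 / ((m : ℝ) + 1)) * (w i).1 k := by
    unfold bary
    rw [aff_apply]
    refine Finset.sum_congr rfl fun i _ => ?_
    congr 1
    show (stdSimplex.barycenter : Dtop m).1 i = _
    simp [stdSimplex.barycenter]
  have hj : (w j).1 k = ∑ i : Fin (m + 1), (1 / ((m : ℝ) + 1)) * (w j).1 k := by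
    rw [Finset.sum_const, Finset.card_univ, Fintype.card_fin, nsmul_eq_mul]
    push_cast
    field_simp
  rw [Real.dist_eq, hb, hj, ← Finset.sum_sub_distrib]
  refine (Finset.abs_sum_le_sum_abs _ _).trans ?_
  have hterm : ∀ i ∈ (Finset.univ : Finset (Fin (m + 1))),
      |1 / ((m : ℝ) + 1) * (w i).1 k - 1 / ((m : ℝ) + 1) * (w j).1 k| ≤
        if i = j then 0 else (1 / ((m : ℝ) + 1)) * d := by
    intro i _
    split_ifs with h
    · subst h
      simp
    · rw [← mul_sub, abs_mul, abs_of_nonneg (by positivity : (0 : ℝ) ≤ 1 / ((m : ℝ) + 1))]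
      refine mul_le_mul_of_nonneg_left ?_ (by positivity)
      have h1 := hw i j
      rw [Subtype.dist_eq] at h1
      have h2 := (dist_le_pi_dist (w i).1 (w j).1 k).trans h1
      rwa [Real.dist_eq] at h2
  refine (Finset.sum_le_sum hterm).trans ?_
  rw [Finset.sum_ite, Finset.sum_const_zero, zero_add, Finset.sum_const, nsmul_eq_mul]
  have hc : ((Finset.univ.filter fun i : Fin (m + 1) => ¬ i = j).card : ℝ) = m := by
    have : (Finset.univ.filter fun i : Fin (m + 1) => ¬ i = j) = Finset.univ.erase j := by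
      ext i
      simp
    rw [this, Finset.card_erase_of_mem (Finset.mem_univ _), Finset.card_univ, Fintype.card_fin]
    simp
  rw [hc]
  apply le_of_eq
  field_simp

/-- 3 -/
private theorem S4_step {n : ℕ} {d : ℝ} (hd : 0 ≤ d) : ∀ (m : ℕ) (w : Fin (m + 1) → Dtop n),
    (∀ i j, dist (w i) (w j) ≤ d) → ∀ u : Fin (m + 1) → Dtop n,
    u ∈ (SdL n m (Finsupp.single w 1)).support → ∀ i j, dist (u i) (u j) ≤ ((m : ℝ) / (m + 1)) * d
  | 0, w, hw, u, hu => by
    intro i j
    have : i = j := @Subsingleton.elim (Fin 1) _ i j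
    rw [this, dist_self]
    simp
  | m + 1, w, hw, u, hu => by
    obtain ⟨k, u', hu', rfl⟩ := S4_succ w u hu
    have hball : ∀ i, dist (u' i) (bary w) ≤ (((m + 1 : ℕ) : ℝ) / (((m + 1 : ℕ) : ℝ) + 1)) * d := by
      have h1 := S4_hull2 (S := Metric.closedBall (bary w).1 ((((m + 1 : ℕ) : ℝ) / (((m + 1 : ℕ) : ℝ) + 1)) * d))
        (convex_closedBall _ _) m (w ∘ dlt k) (fun i => by
          rw [Metric.mem_closedBall]
          exact S4_bary w hd hw _) u' hu'
      intro i
      exact h1 i
    have hle : (m : ℝ) / ((m : ℝ) + 1) ≤ ((m + 1 : ℕ) : ℝ) / (((m + 1 : ℕ) : ℝ) + 1) := by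
      push_cast
      rw [div_le_div_iff₀ (by positivity) (by positivity)]
      nlinarith
    have h0 : (0 : ℝ) ≤ ((m + 1 : ℕ) : ℝ) / (((m + 1 : ℕ) : ℝ) + 1) := by positivity
    intro i j
    refine Fin.cases ?_ (fun i => ?_) i
    · refine Fin.cases ?_ (fun j => ?_) j
      · rw [dist_self]
        positivity
      · rw [Fin.cons_zero, Fin.cons_succ, dist_comm]
        exact hball j
    · refine Fin.cases ?_ (fun j => ?_) j
      · rw [Fin.cons_zero, Fin.cons_succ]
        exact hball i
      · rw [Fin.cons_succ, Fin.cons_succ]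
        exact (S4_step hd m (w ∘ dlt k) (fun i j => hw _ _) u' hu' i j).trans
          (mul_le_mul_of_nonneg_right hle hd)

/-- vertices have distance at most `1` -/
private theorem S4_vtx {n : ℕ} (x y : Dtop n) : dist x y ≤ 1 := by
  rw [Subtype.dist_eq, dist_pi_le_iff (by norm_num)]
  intro k
  rw [Real.dist_eq, abs_le]
  have h1 := Dtop_nonneg x k
  have h2 := Dtop_nonneg y k
  have h3 := Dtop_le x k
  have h4 := Dtop_le y k
  constructor <;> linarith

/-- 4 -/
private theorem S4_iter (n : ℕ) : ∀ (k : ℕ) (u : Fin (n + 1) → Dtop n),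
    u ∈ ((fun z : Ch (LD n) n => SdL n n z)^[k] (Finsupp.single vtx 1)).support →
    ∀ i j, dist (u i) (u j) ≤ ((n : ℝ) / (n + 1)) ^ k
  | 0, u, _ => by
    intro i j
    rw [pow_zero]
    exact S4_vtx _ _
  | k + 1, u, hu => by
    rw [Function.iterate_succ_apply'] at hu
    obtain ⟨w, hw, hu'⟩ := S4_lin (SdL n n) _ u hu
    intro i j
    rw [pow_succ']
    exact S4_step (by positivity) n w (S4_iter n k w hw) u hu' i j

theorem SdL_iter_small (n : ℕ) {ε : ℝ} (hε : 0 < ε) : ∃ k : ℕ,
    ∀ u ∈ ((fun z : Ch (LD n) n => SdL n n z)^[k] (Finsupp.single vtx 1)).support,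
      ∀ s t : Dtop n, dist (aff u s) (aff u t) < ε := by
  have hq0 : (0 : ℝ) ≤ (n : ℝ) / (n + 1) := by positivity
  have hq1 : (n : ℝ) / (n + 1) < 1 := by
    rw [div_lt_one (by positivity)]
    linarith
  obtain ⟨k, hk⟩ := exists_pow_lt_of_lt_one (by positivity : (0 : ℝ) < ε / 2) hq1
  refine ⟨k, fun u hu s t => ?_⟩
  have h1 := S4_iter n k u hu
  have h2 : ∀ t : Dtop n, dist (aff u t) (u 0) ≤ ((n : ℝ) / (n + 1)) ^ k := by
    intro t
    have h3 := S4_hull (S := Metric.closedBall (u 0).1 (((n : ℝ) / (n + 1)) ^ k))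
      (convex_closedBall _ _) u (fun i => by
        rw [Metric.mem_closedBall]
        exact h1 i 0) t
    exact h3
  have h3 := dist_triangle_right (aff u s) (aff u t) (u 0)
  have h4 := h2 s
  have h5 := h2 t
  linarith

end MM
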