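import Pool.Agent.Lib_MP_33f7bb_d.S2
import Pool.Agent.Lib_MP_33f7bb_d.S4

/-!
# S5: small simplices

`small_simplices_rel`: if `S ⊆ O1 ∪ O2` with `O1, O2` open and `S ∩ Oi ⊆ Xi ⊆ S` then
`(Sing S, Sing X1 ∪ Sing X2)` is acyclic.  Iterated barycentric subdivision.
-/

namespace MM

variable {X : Type} [TopologicalSpace X]

theorem S5_lin_sup (X1 X2 : Set X) {n k : ℕ} (F : Ch (Sing X) n →ₗ[ZMod 2] Ch (Sing X) k)
    (hF : ∀ (A : Set X) (z : Ch (Sing X) n), SuppIn (SingIn A) z → SuppIn (SingIn A) (F z))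
    (z : Ch (Sing X) n) (hz : SuppIn (SingIn X1 ⊔ SingIn X2) z) :
    SuppIn (SingIn X1 ⊔ SingIn X2) (F z) := by
  refine S2_suppIn_lin F _ _ (fun σ hσ => ?_) z hz
  rcases hσ with hσ | hσ
  · exact (hF X1 _ (SuppIn.single hσ 1)).mono (Sub.le_sup_left' _ _)
  · exact (hF X2 _ (SuppIn.single hσ 1)).mono (Sub.le_sup_right' _ _)

theorem S5_relCyc_SdX (X1 X2 : Set X) {n : ℕ} (z : Ch (Sing X) n)
    (hz : RelCyc (SingIn X1 ⊔ SingIn X2) z) : RelCyc (SingIn X1 ⊔ SingIn X2) (SdX X n z) := by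
  cases n with
  | zero => trivial
  | succ n =>
    show SuppIn _ (dif (SdX X (n + 1) z))
    rw [dif_SdX]
    exact S5_lin_sup X1 X2 _ (fun A z hz => suppIn_SdX A n z hz) _ hz

theorem S5_step (S X1 X2 : Set X) {n : ℕ} (z : Ch (Sing X) n) (hS : SuppIn (SingIn S) z)
    (hz : RelCyc (SingIn X1 ⊔ SingIn X2) z) :
    ∃ w : Ch (Sing X) (n + 1), SuppIn (SingIn S) w ∧
      SuppIn (SingIn X1 ⊔ SingIn X2) (z + dif w + SdX X n z) := by
  cases n with
  | zero =>
    refine ⟨0, SuppIn.zero _, ?_⟩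
    rw [dif_zero, SdX_zero, add_zero, two_eq_zero']
    exact SuppIn.zero _
  | succ n =>
    refine ⟨DX X (n + 1) z, suppIn_DX S _ _ hS, ?_⟩
    have h1 : z + dif (DX X (n + 1) z) + SdX X (n + 1) z = DX X n (dif z) := by
      rw [dif_DX]
      have e : z + (z + SdX X (n + 1) z + DX X n (dif z)) + SdX X (n + 1) z =
          (z + z) + (SdX X (n + 1) z + SdX X (n + 1) z) + DX X n (dif z) := by abel
      rw [e, two_eq_zero', two_eq_zero', zero_add, zero_add]
    rw [h1]
    exact S5_lin_sup X1 X2 _ (fun A z hz => suppIn_DX A n z hz) _ hz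

theorem S5_iter (S X1 X2 : Set X) {n : ℕ} (k : ℕ) (z : Ch (Sing X) n)
    (hS : SuppIn (SingIn S) z) (hz : RelCyc (SingIn X1 ⊔ SingIn X2) z) :
    ∃ w : Ch (Sing X) (n + 1), SuppIn (SingIn S) w ∧
      SuppIn (SingIn X1 ⊔ SingIn X2) (z + dif w + ((fun y => SdX X n y)^[k] z)) := by
  induction k generalizing z with
  | zero =>
    refine ⟨0, SuppIn.zero _, ?_⟩
    rw [dif_zero, add_zero, Function.iterate_zero_apply, two_eq_zero']
    exact SuppIn.zero _
  | succ k ih =>
    obtain ⟨w, hw, hw'⟩ := S5_step S X1 X2 z hS hz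
    obtain ⟨v, hv, hv'⟩ := ih (SdX X n z) (suppIn_SdX S n z hS) (S5_relCyc_SdX X1 X2 z hz)
    refine ⟨w + v, hw.add hv, ?_⟩
    rw [Function.iterate_succ_apply]
    have e : z + dif (w + v) + ((fun y => SdX X n y)^[k] (SdX X n z)) =
        (z + dif w + SdX X n z) + (SdX X n z + dif v + ((fun y => SdX X n y)^[k] (SdX X n z))) := by
      rw [dif_add]
      have e2 : (z + dif w + SdX X n z) +
          (SdX X n z + dif v + ((fun y => SdX X n y)^[k] (SdX X n z))) =
          z + (dif w + dif v) + ((fun y => SdX X n y)^[k] (SdX X n z)) +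
            (SdX X n z + SdX X n z) := by abel
      rw [e2, two_eq_zero', add_zero]
    rw [e]
    exact hw'.add hv'

theorem S5_SdX_map {n : ℕ} (σ : C(Dtop n, X)) (y : Ch (LD n) n) :
    SdX X n (y.mapDomain ((LS σ).app n)) = (SdL n n y).mapDomain ((LS σ).app n) := by
  have h : (SdX X n).comp (Finsupp.lmapDomain (ZMod 2) (ZMod 2) ((LS σ).app n)) =
      (Finsupp.lmapDomain (ZMod 2) (ZMod 2) ((LS σ).app n)).comp (SdL n n) := by
    refine S2_ext fun v => ?_
    rw [LinearMap.comp_apply, LinearMap.comp_apply, Finsupp.lmapDomain_apply,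
      Finsupp.lmapDomain_apply, Finsupp.mapDomain_single]
    exact S2_SdX_aff σ v
  exact LinearMap.congr_fun h y

theorem S5_SdX_iter {n : ℕ} (σ : C(Dtop n, X)) (k : ℕ) (y : Ch (LD n) n) :
    (fun y => SdX X n y)^[k] (y.mapDomain ((LS σ).app n)) =
      ((fun z : Ch (LD n) n => SdL n n z)^[k] y).mapDomain ((LS σ).app n) := by
  induction k generalizing y with
  | zero => rfl
  | succ k ih =>
    rw [Function.iterate_succ_apply, Function.iterate_succ_apply]
    simp only
    rw [S5_SdX_map, ih]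

theorem S5_single {n : ℕ} (σ : C(Dtop n, X)) :
    (Finsupp.single σ 1 : Ch (Sing X) n) =
      (Finsupp.single vtx 1 : Ch (LD n) n).mapDomain ((LS σ).app n) := by
  rw [Finsupp.mapDomain_single]
  show _ = Finsupp.single (σ.comp (aff vtx)) 1
  rw [aff_id, ContinuousMap.comp_id]

theorem S5_iter_lin {n : ℕ} (k : ℕ) (y y' : Ch (Sing X) n) :
    (fun y => SdX X n y)^[k] (y + y') = (fun y => SdX X n y)^[k] y +
      (fun y => SdX X n y)^[k] y' := by
  induction k generalizing y y' with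
  | zero => rfl
  | succ k ih =>
    rw [Function.iterate_succ_apply, Function.iterate_succ_apply, Function.iterate_succ_apply]
    rw [map_add, ih]

theorem S5_iter_zero {n : ℕ} (k : ℕ) :
    (fun y => SdX X n y)^[k] (0 : Ch (Sing X) n) = 0 := by
  induction k with
  | zero => rfl
  | succ k ih =>
    rw [Function.iterate_succ_apply]
    rw [map_zero, ih]

theorem S5_iter_supp (X1 X2 : Set X) {n : ℕ} (k : ℕ) (y : Ch (Sing X) n)
    (hy : SuppIn (SingIn X1 ⊔ SingIn X2) y) :
    SuppIn (SingIn X1 ⊔ SingIn X2) ((fun y => SdX X n y)^[k] y) := by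
  induction k generalizing y with
  | zero => exact hy
  | succ k ih =>
    rw [Function.iterate_succ_apply]
    exact ih _ (S5_lin_sup X1 X2 _ (fun A z hz => suppIn_SdX A n z hz) _ hy)

theorem S5_small (S O1 O2 X1 X2 : Set X) (h1 : IsOpen O1) (h2 : IsOpen O2) (hS : S ⊆ O1 ∪ O2)
    (h1' : S ∩ O1 ⊆ X1) (h2' : S ∩ O2 ⊆ X2) {n : ℕ} (σ : C(Dtop n, X))
    (hσ : σ ∈ (SingIn S).car n) :
    ∃ k : ℕ, SuppIn (SingIn X1 ⊔ SingIn X2)
      ((fun y => SdX X n y)^[k] (Finsupp.single σ 1)) := by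
  have hcov : (Set.univ : Set (Dtop n)) ⊆ ⋃ b : Bool, (if b then σ ⁻¹' O1 else σ ⁻¹' O2) := by
    intro t _
    rcases hS (hσ t) with h | h
    · exact Set.mem_iUnion.2 ⟨true, h⟩
    · exact Set.mem_iUnion.2 ⟨false, h⟩
  obtain ⟨δ, hδ, hleb⟩ := lebesgue_number_lemma_of_metric (isCompact_univ (X := Dtop n))
    (c := fun b : Bool => if b then σ ⁻¹' O1 else σ ⁻¹' O2) (by
      intro b
      cases b
      · exact h2.preimage σ.continuous
      · exact h1.preimage σ.continuous) hcov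
  obtain ⟨k, hk⟩ := SdL_iter_small n hδ
  refine ⟨k, ?_⟩
  rw [S5_single, S5_SdX_iter]
  classical
  intro y hy
  obtain ⟨u, hu, rfl⟩ := Finset.mem_image.1 (Finsupp.mapDomain_support hy)
  have hd := hk u hu
  obtain ⟨b, hb⟩ := hleb (aff u (vtx 0)) (Set.mem_univ _)
  have hin : ∀ t, aff u t ∈ (if b then σ ⁻¹' O1 else σ ⁻¹' O2) := fun t =>
    hb (Metric.mem_ball.2 (hd t (vtx 0)))
  cases b with
  | true =>
    refine Or.inl fun t => h1' ⟨hσ _, ?_⟩
    exact hin t
  | false =>
    refine Or.inr fun t => h2' ⟨hσ _, ?_⟩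
    exact hin t

theorem S5_small_chain (S O1 O2 X1 X2 : Set X) (h1 : IsOpen O1) (h2 : IsOpen O2)
    (hS : S ⊆ O1 ∪ O2) (h1' : S ∩ O1 ⊆ X1) (h2' : S ∩ O2 ⊆ X2) {n : ℕ} (z : Ch (Sing X) n)
    (hz : SuppIn (SingIn S) z) :
    ∃ k : ℕ, SuppIn (SingIn X1 ⊔ SingIn X2) ((fun y => SdX X n y)^[k] z) := by
  classical
  have key : ∀ (s : Finset ((Sing X).S n)) (z : Ch (Sing X) n), z.support ⊆ s →
      SuppIn (SingIn S) z →
      ∃ k : ℕ, SuppIn (SingIn X1 ⊔ SingIn X2) ((fun y => SdX X n y)^[k] z) := by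
    intro s
    induction s using Finset.induction_on with
    | empty =>
      intro z hs _
      have : z = 0 := Finsupp.support_eq_empty.1 (Finset.subset_empty.1 hs)
      subst this
      exact ⟨0, SuppIn.zero _⟩
    | insert a s ha ih =>
      intro z hs hz
      have hsplit : z = z.erase a + Finsupp.single a (z a) := (Finsupp.erase_add_single a z).symm
      obtain ⟨k, hk⟩ := ih (z.erase a) (by
        rw [Finsupp.support_erase]
        intro x hx
        rw [Finset.mem_erase] at hx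
        exact (Finset.mem_insert.1 (hs hx.2)).resolve_left hx.1) (by
        intro x hx
        rw [Finsupp.support_erase, Finset.mem_erase] at hx
        exact hz x hx.2)
      by_cases h0 : z a = 0
      · refine ⟨k, ?_⟩
        rw [hsplit, h0, Finsupp.single_zero, add_zero]
        exact hk
      · have h1a : z a = 1 := by
          have : ∀ c : ZMod 2, c ≠ 0 → c = 1 := by decide
          exact this _ h0
        obtain ⟨l, hl⟩ := S5_small S O1 O2 X1 X2 h1 h2 hS h1' h2' a
          (hz a (Finsupp.mem_support_iff.2 h0))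
        refine ⟨k + l, ?_⟩
        rw [hsplit, h1a, S5_iter_lin]
        refine SuppIn.add ?_ ?_
        · rw [add_comm, Function.iterate_add_apply]
          exact S5_iter_supp X1 X2 l _ hk
        · rw [Function.iterate_add_apply]
          exact S5_iter_supp X1 X2 k _ hl
  exact key z.support z subset_rfl hz

theorem small_simplices_rel (S O1 O2 X1 X2 : Set X) (h1 : IsOpen O1) (h2 : IsOpen O2)
    (hS : S ⊆ O1 ∪ O2) (h1' : S ∩ O1 ⊆ X1) (h2' : S ∩ O2 ⊆ X2) :
    Acyc (SingIn X1 ⊔ SingIn X2) (SingIn S) := by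
  intro n z hz hc
  obtain ⟨k, hk⟩ := S5_small_chain S O1 O2 X1 X2 h1 h2 hS h1' h2' z hz
  obtain ⟨w, hw, hw'⟩ := S5_iter S X1 X2 k z hz hc
  refine ⟨w, hw, ?_⟩
  have e : z + dif w = (z + dif w + ((fun y => SdX X n y)^[k] z)) +
      ((fun y => SdX X n y)^[k] z) := by
    rw [add_assoc, two_eq_zero', add_zero]
  rw [e]
  exact hw'.add hk

theorem SingIn_univ : SingIn (Set.univ : Set X) = ⊤ := by
  apply Sub.ext
  funext n
  exact Set.eq_univ_of_forall fun σ t => Set.mem_univ _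

theorem small_simplices (X1 X2 : Set X) (h : interior X1 ∪ interior X2 = Set.univ) :
    Acyc (SingIn X1 ⊔ SingIn X2) ⊤ := by
  have := small_simplices_rel Set.univ (interior X1) (interior X2) X1 X2 isOpen_interior
    isOpen_interior (by rw [h]) (fun x hx => interior_subset hx.2)
    (fun x hx => interior_subset hx.2)
  rwa [SingIn_univ] at this

end MM
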