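import Pool.Agent.Lib_MP_33f7bb_d.D9
import Pool.Agent.Lib_MP_33f7bb_d.S5

/-!
# D10: part C in the form of `TopIF`
-/

namespace MM

/-- part C -/
theorem existsCompactum (hT : ExistsTarget) (hW : WWGood) : ExistsCompactum :=
  existsCompactum_of (fun _ _ _ X₁ X₂ h => small_simplices X₁ X₂ h) hT hW

end MM
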