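import Pool.Agent.Lib_MP_33f7bb_d.Defs

/-!
# D2: general position
-/

open Set Filter Topology

namespace MM

/-- General position.

PROOF.  Let `E = (Fin j → ℝ) × (Fin k → ℝ)`.
(1) There is a `C^1` (even smooth) map `f' : (Fin k → ℝ) → E` with `‖f' v - f v‖ < ε / 2` for all `v`:
smooth approximation, for instance `exists_contMDiffOn_forall_mem_convex_of_local` /
`exists_smooth_forall_mem_convex_of_local` (Mathlib, Geometry.Manifold.PartitionOfUnity) with the
convex sets `ball (f v) (ε / 2)` and locally constant local sections (`f v₀` near `v₀`).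
(2) The map `g (v, a, b) = f' v + (a • e0 j, b • v)` from `(Fin k → ℝ) × ℝ × ℝ` to `E` is `C^1`, and
`finrank ((Fin k → ℝ) × ℝ × ℝ) = k + 2 < j + k = finrank E`.  So the complement of its range is
dense (`ContDiff.dense_compl_range_of_finrank_lt_finrank`), hence there is `c ∉ range g` with
`‖c‖ < ε / 2`.  Put `p v = f' v - c`. -/
theorem exists_generic {j k : ℕ} (hj : 3 ≤ j) (f : (Fin k → ℝ) → (Fin j → ℝ) × (Fin k → ℝ))
    (hf : Continuous f) (ε : ℝ) (hε : 0 < ε) :
    ∃ p : (Fin k → ℝ) → (Fin j → ℝ) × (Fin k → ℝ), Continuous p ∧ (∀ v, ‖p v - f v‖ < ε) ∧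
      ∀ (v : Fin k → ℝ) (a b : ℝ), p v + (a • e0 j, b • v) ≠ 0 := by
  obtain ⟨f', hf', hd, -⟩ := hf.exists_contDiff_approx 1 (ε := fun _ => ε / 2) continuous_const
    (fun _ => by positivity)
  set g : (Fin k → ℝ) × ℝ × ℝ → (Fin j → ℝ) × (Fin k → ℝ) :=
    fun x => f' x.1 + (x.2.1 • e0 j, x.2.2 • x.1) with hg
  have hgc : ContDiff ℝ 1 g := by
    rw [hg]
    have h1 : ContDiff ℝ 1 (fun x : (Fin k → ℝ) × ℝ × ℝ => f' x.1) := hf'.comp contDiff_fst
    refine h1.add (ContDiff.prodMk ?_ ?_)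
    · exact (contDiff_fst.comp contDiff_snd).smul contDiff_const
    · exact (contDiff_snd.comp contDiff_snd).smul contDiff_fst
  have hfin : Module.finrank ℝ ((Fin k → ℝ) × ℝ × ℝ) <
      Module.finrank ℝ ((Fin j → ℝ) × (Fin k → ℝ)) := by
    simp only [Module.finrank_prod, Module.finrank_fin_fun, Module.finrank_self]
    omega
  have hdense := hgc.dense_compl_range_of_finrank_lt_finrank hfin
  obtain ⟨c, hc, hcd⟩ := hdense.exists_dist_lt 0 (half_pos hε)
  have hcn : ‖c‖ < ε / 2 := by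
    rwa [dist_comm, dist_zero_right] at hcd
  refine ⟨fun v => f' v - c, hf'.continuous.sub continuous_const, ?_, ?_⟩
  · intro v
    have h1 := hd v
    rw [dist_eq_norm] at h1
    have h2 : f' v - c - f v = (f' v - f v) - c := by abel
    rw [h2]
    calc ‖(f' v - f v) - c‖ ≤ ‖f' v - f v‖ + ‖c‖ := norm_sub_le _ _
      _ < ε / 2 + ε / 2 := by
        have h3 : ‖f' v - f v‖ < ε / 2 := h1
        linarith
      _ = ε := by ring
  · intro v a b h
    apply hc
    refine ⟨(v, a, b), ?_⟩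
    show f' v + (a • e0 j, b • v) = c
    have h1 : f' v - c + (a • e0 j, b • v) = 0 := h
    have h2 : f' v + (a • e0 j, b • v) - c = f' v - c + (a • e0 j, b • v) := add_sub_right_comm _ _ _
    exact sub_eq_zero.1 (h2.trans h1)

end MM
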