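import Pool.Agent.Lib_MP_33f7bb_d.D2
import Pool.Agent.Lib_MP_33f7bb_d.D3
import Pool.Agent.Lib_MP_33f7bb_an.RAD

/-!
# D4: maps which are nearly constant in `x` on the unit sphere are stably trivial
-/

open Set Filter Topology

namespace MM

open SMD

private noncomputable def d4_r {k : ℕ} (v : Fin k → ℝ) : Fin k → ℝ := (max 1 ‖v‖)⁻¹ • v

private theorem d4_r_cont {k : ℕ} : Continuous (d4_r (k := k)) := by
  have h : Continuous fun v : Fin k → ℝ => max (1 : ℝ) ‖v‖ := continuous_const.max continuous_norm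
  exact (h.inv₀ fun v => (lt_of_lt_of_le one_pos (le_max_left _ _)).ne').smul continuous_id

private theorem d4_r_norm {k : ℕ} {v : Fin k → ℝ} (hv : 1 ≤ ‖v‖) : ‖d4_r v‖ = 1 := by
  have h0 : ‖v‖ ≠ 0 := (lt_of_lt_of_le one_pos hv).ne'
  rw [d4_r, norm_smul, norm_inv, max_eq_right hv, norm_norm, inv_mul_cancel₀ h0]

private theorem d4_r_smul {k : ℕ} {v : Fin k → ℝ} (hv : 1 ≤ ‖v‖) : ‖v‖ • d4_r v = v := by
  have h0 : ‖v‖ ≠ 0 := (lt_of_lt_of_le one_pos hv).ne'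
  rw [d4_r, max_eq_right hv, smul_smul, mul_inv_cancel₀ h0, one_smul]

private noncomputable def d4_c {k : ℕ} (a : ℝ) (v : Fin k → ℝ) : ℝ := min 1 (max 0 (‖v‖ - a))

private theorem d4_c_cont {k : ℕ} (a : ℝ) : Continuous (d4_c (k := k) a) := by
  unfold d4_c
  fun_prop

private theorem d4_c_nonneg {k : ℕ} (a : ℝ) (v : Fin k → ℝ) : 0 ≤ d4_c a v :=
  le_min zero_le_one (le_max_left _ _)

private theorem d4_c_le {k : ℕ} (a : ℝ) (v : Fin k → ℝ) : d4_c a v ≤ 1 := min_le_left _ _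

private theorem d4_c_zero {k : ℕ} {a : ℝ} {v : Fin k → ℝ} (h : ‖v‖ ≤ a) : d4_c a v = 0 := by
  rw [d4_c, max_eq_left (by linarith), min_eq_right zero_le_one]

private theorem d4_c_one {k : ℕ} {a : ℝ} {v : Fin k → ℝ} (h : a + 1 ≤ ‖v‖) : d4_c a v = 1 := by
  rw [d4_c, max_eq_right (by linarith), min_eq_left (by linarith)]

private theorem d4_eps {Z : Type} [MetricSpace Z] [CompactSpace Z] {j k : ℕ}
    (F : Z × (Fin k → ℝ) → (Fin j → ℝ) × (Fin k → ℝ)) (hF : Continuous F) (x₀ : Z)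
    (hQ : ∀ x v, ‖v‖ = 1 → ∀ u ∈ Icc (0 : ℝ) 1, (1 - u) • F (x, v) + u • F (x₀, v) ≠ 0) :
    ∃ ε : ℝ, 0 < ε ∧ ∀ x v, ‖v‖ = 1 → ∀ u ∈ Icc (0 : ℝ) 1,
      ε ≤ ‖(1 - u) • F (x, v) + u • F (x₀, v)‖ := by
  set K : Set (Z × (Fin k → ℝ) × ℝ) :=
    univ ×ˢ (Metric.sphere (0 : Fin k → ℝ) 1 ×ˢ Icc (0 : ℝ) 1) with hK
  have hKc : IsCompact K := isCompact_univ.prod ((isCompact_sphere _ _).prod isCompact_Icc)
  have hc : Continuous fun q : Z × (Fin k → ℝ) × ℝ =>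
      ‖(1 - q.2.2) • F (q.1, q.2.1) + q.2.2 • F (x₀, q.2.1)‖ := by
    fun_prop
  rcases K.eq_empty_or_nonempty with he | hne
  · refine ⟨1, one_pos, fun x v hv u hu => ?_⟩
    exfalso
    have : (x, v, u) ∈ K := ⟨trivial, by simpa using hv, hu⟩
    rw [he] at this
    exact this
  · obtain ⟨⟨x₁, v₁, u₁⟩, hq, hmin⟩ := hKc.exists_isMinOn hne hc.continuousOn
    have hv₁ : v₁ ∈ Metric.sphere (0 : Fin k → ℝ) 1 := hq.2.1
    rw [mem_sphere_zero_iff_norm] at hv₁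
    have hu₁ : u₁ ∈ Icc (0 : ℝ) 1 := hq.2.2
    refine ⟨‖(1 - u₁) • F (x₁, v₁) + u₁ • F (x₀, v₁)‖, norm_pos_iff.2 (hQ x₁ v₁ hv₁ u₁ hu₁), ?_⟩
    intro x v hv u hu
    have hm : (x, v, u) ∈ K := ⟨trivial, mem_sphere_zero_iff_norm.2 hv, hu⟩
    have h1 := isMinOn_iff.1 hmin (x, v, u) hm
    exact h1

/-- PROOF.  Let `B` be the set in the statement (closed).
Let `r v = (max 1 ‖v‖)⁻¹ • v`, `c₁ v = min 1 (max 0 (‖v‖ - 1))`, `c₂ v = min 1 (max 0 (‖v‖ - 2))`.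
By compactness of `Z × sphere × [0,1]` (may be empty) there is `ε > 0` with
`ε ≤ ‖(1 - u) • F (x, v) + u • F (x₀, v)‖` for `‖v‖ = 1`, `u ∈ [0,1]`.  Let `p` be given by
`exists_generic` for `f = fun v => F (x₀, v)` and `ε / 2`.  Then `(1 - u) • F (x, v) + u • p v ≠ 0` for
`‖v‖ = 1`, `u ∈ [0,1]`.  Put
`F₁ (x, v) = (1 - c₁ v) • F (x, r v) + c₁ v • p (r v)`,
`F₂ (x, v) = (1 - c₂ v) • F₁ (x, v) + c₂ v • (e0, v)`,
`F₃ (x, v) = ((F₂ (x, 3 v)).1, 3⁻¹ • (F₂ (x, 3 v)).2)`.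
`F₃ (x, v) = (e0, v)` for `‖v‖ ≥ 1`, so `IsTask j k A F₃` and `StabNull B F₃` by `TB` and
`stabNull_of_solved`.  Now go back with four applications of `stabNull_htp`; none of the
homotopies has a zero on `B`:
* `F₃` to `F₂`: `((F₂ (x, s v)).1, s⁻¹ • (F₂ (x, s v)).2)`, `s = 3 - 2 u` (use `max 1 (3 - 2 u)`); `F₂` has no zeros
  on `B` and `(x, s v) ∈ B` for `(x, v) ∈ B`, `s ≥ 1`;
* `F₂` to `F₁`: `(1 - w) • F₁ (x, v) + w • (e0, v)`, `w = (1 - u) c₂ v`: for `‖v‖ < 2` we have `w = 0`; for `‖v‖ ≥ 2`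
  `F₁ (x, v) = p (r v)` and `v = ‖v‖ • r v`, so for `w ≠ 1` the value is
  `(1 - w) • (p (r v) + (a • e0, b • r v))` with `a = w / (1 - w)`, `b = w ‖v‖ / (1 - w)`: not zero by the choice of
  `p`; for `w = 1` it is `(e0, v)`;
* `F₁` to `F ∘ r`: `(1 - w) • F (x, r v) + w • p (r v)`, `w = (1 - u) c₁ v` (`w = 0` for `‖v‖ ≤ 1`; `‖r v‖ = 1` for
  `‖v‖ ≥ 1`);
* `F ∘ r` to `F`: `F (x, (1 - u) • r v + u • v)`; for `‖v‖ ≥ 1` the vector `(1 - u) • r v + u • v` has norm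
  `(1 - u) + u ‖v‖ ≥ 1`. -/
theorem local_null_std {Z : Type} [MetricSpace Z] [CompactSpace Z] (hZ : TB Z) {j k : ℕ}
    (hj : 3 ≤ j) {A : Set Z} (hA : IsClosed A)
    (F : Z × (Fin k → ℝ) → (Fin j → ℝ) × (Fin k → ℝ)) (hF : Continuous F)
    (h0 : ∀ x v, (x ∈ A ∨ 1 ≤ ‖v‖) → F (x, v) ≠ 0) (x₀ : Z)
    (hQ : ∀ x v, ‖v‖ = 1 → ∀ u ∈ Icc (0 : ℝ) 1, (1 - u) • F (x, v) + u • F (x₀, v) ≠ 0) :
    StabNull {p : Z × (Fin k → ℝ) | p.1 ∈ A ∨ 1 ≤ ‖p.2‖} F := by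
  set B : Set (Z × (Fin k → ℝ)) := {p : Z × (Fin k → ℝ) | p.1 ∈ A ∨ 1 ≤ ‖p.2‖} with hBdef
  have hB : IsClosed B :=
    (hA.preimage continuous_fst).union (isClosed_le continuous_const continuous_snd.norm)
  obtain ⟨ε, hε, hεle⟩ := d4_eps F hF x₀ hQ
  have hf : Continuous fun v : Fin k → ℝ => F (x₀, v) := by fun_prop
  obtain ⟨p, hp, hpε, hpg⟩ := exists_generic hj (fun v => F (x₀, v)) hf ε hε
  -- nonvanishing near the unit sphere
  have key0 : ∀ x v, ‖v‖ = 1 → ∀ u ∈ Icc (0 : ℝ) 1, (1 - u) • F (x, v) + u • p v ≠ 0 := by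
    intro x v hv u hu h
    have h1 := hεle x v hv u hu
    have h2 : (1 - u) • F (x, v) + u • F (x₀, v) = -(u • (p v - F (x₀, v))) := by
      rw [smul_sub]
      have h3 : (1 - u) • F (x, v) = -(u • p v) := eq_neg_of_add_eq_zero_left h
      rw [h3]
      abel
    rw [h2, norm_neg, norm_smul, Real.norm_of_nonneg hu.1] at h1
    have h4 := hpε v
    have h5 : u * ‖p v - F (x₀, v)‖ ≤ 1 * ‖p v - F (x₀, v)‖ :=
      mul_le_mul_of_nonneg_right hu.2 (norm_nonneg _)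
    linarith
  have hr0 : ∀ x v, (x, v) ∈ B → F (x, d4_r v) ≠ 0 := by
    intro x v hxv
    rcases hxv with h | h
    · exact h0 x _ (Or.inl h)
    · exact h0 x _ (Or.inr (d4_r_norm h).ge)
  have key1 : ∀ x v, (x, v) ∈ B → ∀ w ∈ Icc (0 : ℝ) 1, (‖v‖ ≤ 1 → w = 0) →
      (1 - w) • F (x, d4_r v) + w • p (d4_r v) ≠ 0 := by
    intro x v hxv w hw hw0
    by_cases hv : ‖v‖ ≤ 1
    · rw [hw0 hv, sub_zero, one_smul, zero_smul, add_zero]
      exact hr0 x v hxv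
    · exact key0 x _ (d4_r_norm (not_le.1 hv).le) w hw
  set F₁ : Z × (Fin k → ℝ) → (Fin j → ℝ) × (Fin k → ℝ) := fun q =>
    (1 - d4_c 1 q.2) • F (q.1, d4_r q.2) + d4_c 1 q.2 • p (d4_r q.2) with hF₁
  have hrc := d4_r_cont (k := k)
  have hc1 := d4_c_cont (k := k) 1
  have hc2 := d4_c_cont (k := k) 2
  have hFr : Continuous fun q : Z × (Fin k → ℝ) => F (q.1, d4_r q.2) :=
    hF.comp (continuous_fst.prodMk (hrc.comp continuous_snd))
  have hpr : Continuous fun q : Z × (Fin k → ℝ) => p (d4_r q.2) :=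
    hp.comp (hrc.comp continuous_snd)
  have hF₁c : Continuous F₁ :=
    ((continuous_const.sub (hc1.comp continuous_snd)).smul hFr).add
      ((hc1.comp continuous_snd).smul hpr)
  have key2 : ∀ x v, (x, v) ∈ B → ∀ w ∈ Icc (0 : ℝ) 1, (‖v‖ ≤ 2 → w = 0) →
      (1 - w) • F₁ (x, v) + w • ((e0 j, v) : (Fin j → ℝ) × (Fin k → ℝ)) ≠ 0 := by
    intro x v hxv w hw hw0
    by_cases hv : ‖v‖ ≤ 2
    · rw [hw0 hv, sub_zero, one_smul, zero_smul, add_zero]
      exact key1 x v hxv _ ⟨d4_c_nonneg 1 v, d4_c_le 1 v⟩ fun h => d4_c_zero h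
    · have hv' : 2 ≤ ‖v‖ := (not_le.1 hv).le
      have h1 : F₁ (x, v) = p (d4_r v) := by
        show (1 - d4_c 1 v) • F (x, d4_r v) + d4_c 1 v • p (d4_r v) = _
        rw [d4_c_one (by linarith : (1 : ℝ) + 1 ≤ ‖v‖), sub_self, zero_smul, zero_add, one_smul]
      rw [h1]
      intro h
      by_cases hw1 : w = 1
      · rw [hw1, sub_self, zero_smul, zero_add, one_smul, Prod.mk_eq_zero] at h
        rw [h.2, norm_zero] at hv'
        linarith
      · have hw2 : 1 - w ≠ 0 := fun h' => hw1 (by linarith)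
        apply hpg (d4_r v) (w / (1 - w)) (w * ‖v‖ / (1 - w))
        have h2 : (w / (1 - w)) • e0 j = (1 - w)⁻¹ • (w • e0 j) := by
          rw [smul_smul, div_eq_inv_mul]
        have h3 : (w * ‖v‖ / (1 - w)) • d4_r v = (1 - w)⁻¹ • (w • v) := by
          conv_rhs => rw [← d4_r_smul (by linarith : (1 : ℝ) ≤ ‖v‖)]
          rw [smul_smul, smul_smul, div_eq_inv_mul]
          congr 1
          ring
        have h4 : (((w / (1 - w)) • e0 j, (w * ‖v‖ / (1 - w)) • d4_r v) :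
            (Fin j → ℝ) × (Fin k → ℝ)) =
            (1 - w)⁻¹ • (w • ((e0 j, v) : (Fin j → ℝ) × (Fin k → ℝ))) := by
          rw [h2, h3]
          rfl
        have h5 : p (d4_r v) = (1 - w)⁻¹ • ((1 - w) • p (d4_r v)) := by
          rw [smul_smul, inv_mul_cancel₀ hw2, one_smul]
        rw [h4]
        conv_lhs => rw [h5]
        rw [← smul_add, h, smul_zero]
  set F₂ : Z × (Fin k → ℝ) → (Fin j → ℝ) × (Fin k → ℝ) := fun q =>
    (1 - d4_c 2 q.2) • F₁ q + d4_c 2 q.2 • ((e0 j, q.2) : (Fin j → ℝ) × (Fin k → ℝ)) with hF₂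
  have hF₂c : Continuous F₂ :=
    ((continuous_const.sub (hc2.comp continuous_snd)).smul hF₁c).add
      ((hc2.comp continuous_snd).smul (continuous_const.prodMk continuous_snd))
  have hF₂0 : ∀ x v, (x, v) ∈ B → F₂ (x, v) ≠ 0 := fun x v hxv =>
    key2 x v hxv _ ⟨d4_c_nonneg 2 v, d4_c_le 2 v⟩ fun h => d4_c_zero h
  -- the first homotopy
  set H3 : (Z × (Fin k → ℝ)) × ℝ → (Fin j → ℝ) × (Fin k → ℝ) := fun q =>
    ((F₂ (q.1.1, max 1 (3 - 2 * q.2) • q.1.2)).1,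
      (max 1 (3 - 2 * q.2))⁻¹ • (F₂ (q.1.1, max 1 (3 - 2 * q.2) • q.1.2)).2) with hH3
  have hs : Continuous fun q : (Z × (Fin k → ℝ)) × ℝ => max (1 : ℝ) (3 - 2 * q.2) := by fun_prop
  have hs0 : ∀ u : ℝ, max (1 : ℝ) (3 - 2 * u) ≠ 0 := fun u =>
    (lt_of_lt_of_le one_pos (le_max_left _ _)).ne'
  have hF₂s : Continuous fun q : (Z × (Fin k → ℝ)) × ℝ =>
      F₂ (q.1.1, max 1 (3 - 2 * q.2) • q.1.2) :=
    hF₂c.comp ((continuous_fst.comp continuous_fst).prodMk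
      (hs.smul (continuous_snd.comp continuous_fst)))
  have hH3c : Continuous H3 :=
    hF₂s.fst.prodMk ((hs.inv₀ fun q => hs0 q.2).smul hF₂s.snd)
  have hsB : ∀ x v (u : ℝ), (x, v) ∈ B → (x, max 1 (3 - 2 * u) • v) ∈ B := by
    intro x v u hxv
    rcases hxv with h | h
    · exact Or.inl h
    · right
      show 1 ≤ ‖max 1 (3 - 2 * u) • v‖
      have h1 : (1 : ℝ) ≤ max 1 (3 - 2 * u) := le_max_left _ _
      rw [norm_smul, Real.norm_of_nonneg (by linarith)]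
      have h2 : (1 : ℝ) ≤ ‖v‖ := h
      nlinarith
  have hH3ne : ∀ z ∈ B, ∀ u : ℝ, H3 (z, u) ≠ 0 := by
    rintro ⟨x, v⟩ hz u h
    have h1 : (F₂ (x, max 1 (3 - 2 * u) • v)).1 = 0 ∧
        (max 1 (3 - 2 * u))⁻¹ • (F₂ (x, max 1 (3 - 2 * u) • v)).2 = 0 :=
      Prod.mk_eq_zero.1 h
    refine hF₂0 x _ (hsB x v u hz) (Prod.ext h1.1 ?_)
    rcases smul_eq_zero.1 h1.2 with h2 | h2
    · exact absurd h2 (inv_ne_zero (hs0 u))
    · exact h2
  have htask : IsTask j k A (fun z => H3 (z, 0)) := by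
    refine ⟨hA, hH3c.comp (continuous_id.prodMk continuous_const), ?_, ?_⟩
    · intro x t ht
      have h1 : max (1 : ℝ) (3 - 2 * 0) = 3 := by norm_num
      have h2 : F₂ (x, (3 : ℝ) • t) = (e0 j, (3 : ℝ) • t) := by
        show (1 - d4_c 2 ((3 : ℝ) • t)) • F₁ (x, (3 : ℝ) • t) +
          d4_c 2 ((3 : ℝ) • t) • ((e0 j, (3 : ℝ) • t) : (Fin j → ℝ) × (Fin k → ℝ)) = _
        rw [d4_c_one (by rw [norm_smul]; norm_num; linarith), sub_self, zero_smul, zero_add,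
          one_smul]
      show ((F₂ (x, max 1 (3 - 2 * (0 : ℝ)) • t)).1,
        (max 1 (3 - 2 * (0 : ℝ)))⁻¹ • (F₂ (x, max 1 (3 - 2 * (0 : ℝ)) • t)).2) = (e0 j, t)
      rw [h1, h2]
      show (e0 j, (3 : ℝ)⁻¹ • ((3 : ℝ) • t)) = (e0 j, t)
      rw [smul_smul, inv_mul_cancel₀ (by norm_num : (3 : ℝ) ≠ 0), one_smul]
    · intro x hx t
      exact hH3ne (x, t) (Or.inl hx) 0
  have s3 : StabNull B (fun z => H3 (z, 0)) :=
    stabNull_of_solved (by omega) htask (hZ j k A _ hj htask)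
  have s2 : StabNull B F₂ := by
    have h := stabNull_htp hB H3 hH3c (fun z hz u _ => hH3ne z hz u) s3
    have e : (fun z => H3 (z, 1)) = F₂ := by
      funext z
      obtain ⟨x, v⟩ := z
      have h1 : max (1 : ℝ) (3 - 2 * 1) = 1 := by norm_num
      show ((F₂ (x, max 1 (3 - 2 * (1 : ℝ)) • v)).1,
        (max 1 (3 - 2 * (1 : ℝ)))⁻¹ • (F₂ (x, max 1 (3 - 2 * (1 : ℝ)) • v)).2) = F₂ (x, v)
      rw [h1, one_smul, inv_one, one_smul]
    rwa [e] at h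
  have s1 : StabNull B F₁ := by
    have hw : Continuous fun q : (Z × (Fin k → ℝ)) × ℝ => (1 - q.2) * d4_c 2 q.1.2 :=
      (continuous_const.sub continuous_snd).mul
        (hc2.comp (continuous_snd.comp continuous_fst))
    have h := stabNull_htp hB (fun q : (Z × (Fin k → ℝ)) × ℝ =>
      (1 - (1 - q.2) * d4_c 2 q.1.2) • F₁ q.1 +
        ((1 - q.2) * d4_c 2 q.1.2) • ((e0 j, q.1.2) : (Fin j → ℝ) × (Fin k → ℝ)))
      (((continuous_const.sub hw).smul (hF₁c.comp continuous_fst)).add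
        (hw.smul (continuous_const.prodMk (continuous_snd.comp continuous_fst))))
      (by
        rintro ⟨x, v⟩ hz u hu
        refine key2 x v hz _ ⟨mul_nonneg (by linarith [hu.2]) (d4_c_nonneg 2 v), ?_⟩ fun h => ?_
        · exact mul_le_one₀ (by linarith [hu.1]) (d4_c_nonneg 2 v) (d4_c_le 2 v)
        · show (1 - u) * d4_c 2 v = 0
          rw [d4_c_zero h, mul_zero])
      (by
        have e : (fun z : Z × (Fin k → ℝ) => (1 - (1 - (0 : ℝ)) * d4_c 2 z.2) • F₁ z +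
            ((1 - (0 : ℝ)) * d4_c 2 z.2) • ((e0 j, z.2) : (Fin j → ℝ) × (Fin k → ℝ))) = F₂ := by
          funext z
          rw [sub_zero, one_mul]
        show StabNull B (fun z : Z × (Fin k → ℝ) => (1 - (1 - (0 : ℝ)) * d4_c 2 z.2) • F₁ z +
            ((1 - (0 : ℝ)) * d4_c 2 z.2) • ((e0 j, z.2) : (Fin j → ℝ) × (Fin k → ℝ)))
        rw [e]
        exact s2)
    have e : (fun z : Z × (Fin k → ℝ) => (1 - (1 - (1 : ℝ)) * d4_c 2 z.2) • F₁ z +
        ((1 - (1 : ℝ)) * d4_c 2 z.2) • ((e0 j, z.2) : (Fin j → ℝ) × (Fin k → ℝ))) = F₁ := by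
      funext z
      rw [sub_self, zero_mul, sub_zero, one_smul, zero_smul, add_zero]
    have h' : StabNull B (fun z : Z × (Fin k → ℝ) => (1 - (1 - (1 : ℝ)) * d4_c 2 z.2) • F₁ z +
        ((1 - (1 : ℝ)) * d4_c 2 z.2) • ((e0 j, z.2) : (Fin j → ℝ) × (Fin k → ℝ))) := h
    rwa [e] at h'
  have s0 : StabNull B (fun z : Z × (Fin k → ℝ) => F (z.1, d4_r z.2)) := by
    have hw : Continuous fun q : (Z × (Fin k → ℝ)) × ℝ => (1 - q.2) * d4_c 1 q.1.2 :=
      (continuous_const.sub continuous_snd).mul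
        (hc1.comp (continuous_snd.comp continuous_fst))
    have h := stabNull_htp hB (fun q : (Z × (Fin k → ℝ)) × ℝ =>
      (1 - (1 - q.2) * d4_c 1 q.1.2) • F (q.1.1, d4_r q.1.2) +
        ((1 - q.2) * d4_c 1 q.1.2) • p (d4_r q.1.2))
      (((continuous_const.sub hw).smul (hFr.comp continuous_fst)).add
        (hw.smul (hpr.comp continuous_fst)))
      (by
        rintro ⟨x, v⟩ hz u hu
        refine key1 x v hz _ ⟨mul_nonneg (by linarith [hu.2]) (d4_c_nonneg 1 v), ?_⟩ fun h => ?_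
        · exact mul_le_one₀ (by linarith [hu.1]) (d4_c_nonneg 1 v) (d4_c_le 1 v)
        · show (1 - u) * d4_c 1 v = 0
          rw [d4_c_zero h, mul_zero])
      (by
        have e : (fun z : Z × (Fin k → ℝ) => (1 - (1 - (0 : ℝ)) * d4_c 1 z.2) •
            F (z.1, d4_r z.2) + ((1 - (0 : ℝ)) * d4_c 1 z.2) • p (d4_r z.2)) = F₁ := by
          funext z
          rw [sub_zero, one_mul]
        show StabNull B (fun z : Z × (Fin k → ℝ) => (1 - (1 - (0 : ℝ)) * d4_c 1 z.2) •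
            F (z.1, d4_r z.2) + ((1 - (0 : ℝ)) * d4_c 1 z.2) • p (d4_r z.2))
        rw [e]
        exact s1)
    have e : (fun z : Z × (Fin k → ℝ) => (1 - (1 - (1 : ℝ)) * d4_c 1 z.2) •
        F (z.1, d4_r z.2) + ((1 - (1 : ℝ)) * d4_c 1 z.2) • p (d4_r z.2)) =
        fun z : Z × (Fin k → ℝ) => F (z.1, d4_r z.2) := by
      funext z
      rw [sub_self, zero_mul, sub_zero, one_smul, zero_smul, add_zero]
    have h' : StabNull B (fun z : Z × (Fin k → ℝ) => (1 - (1 - (1 : ℝ)) * d4_c 1 z.2) •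
        F (z.1, d4_r z.2) + ((1 - (1 : ℝ)) * d4_c 1 z.2) • p (d4_r z.2)) := h
    rwa [e] at h'
  have hm : Continuous fun q : (Z × (Fin k → ℝ)) × ℝ =>
      (1 - q.2) • d4_r q.1.2 + q.2 • q.1.2 :=
    ((continuous_const.sub continuous_snd).smul
      (hrc.comp (continuous_snd.comp continuous_fst))).add
      (continuous_snd.smul (continuous_snd.comp continuous_fst))
  have h := stabNull_htp hB (fun q : (Z × (Fin k → ℝ)) × ℝ =>
    F (q.1.1, (1 - q.2) • d4_r q.1.2 + q.2 • q.1.2))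
    (hF.comp ((continuous_fst.comp continuous_fst).prodMk hm))
    (by
      rintro ⟨x, v⟩ hz u hu
      rcases hz with hz | hz
      · exact h0 x _ (Or.inl hz)
      · refine h0 x _ (Or.inr ?_)
        show 1 ≤ ‖(1 - u) • d4_r v + u • v‖
        have hz' : (1 : ℝ) ≤ ‖v‖ := hz
        have e1 : (1 - u) • d4_r v + u • v = ((1 - u) + u * ‖v‖) • d4_r v := by
          conv_lhs => rw [← d4_r_smul hz']
          have e2 : d4_r (‖v‖ • d4_r v) = d4_r v := by rw [d4_r_smul hz']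
          rw [e2, smul_smul, ← add_smul]
        rw [e1, norm_smul, d4_r_norm hz', mul_one]
        have e3 : 1 ≤ (1 - u) + u * ‖v‖ := by nlinarith [hu.1]
        rw [Real.norm_of_nonneg (by linarith)]
        exact e3)
    (by
      have e : (fun z : Z × (Fin k → ℝ) => F (z.1, (1 - (0 : ℝ)) • d4_r z.2 + (0 : ℝ) • z.2)) =
          fun z : Z × (Fin k → ℝ) => F (z.1, d4_r z.2) := by
        funext z
        rw [sub_zero, one_smul, zero_smul, add_zero]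
      show StabNull B (fun z : Z × (Fin k → ℝ) =>
        F (z.1, (1 - (0 : ℝ)) • d4_r z.2 + (0 : ℝ) • z.2))
      rw [e]
      exact s0)
  have e : (fun z : Z × (Fin k → ℝ) => F (z.1, (1 - (1 : ℝ)) • d4_r z.2 + (1 : ℝ) • z.2)) =
      F := by
    funext z
    rw [sub_self, zero_smul, one_smul, zero_add]
  have h' : StabNull B (fun z : Z × (Fin k → ℝ) =>
      F (z.1, (1 - (1 : ℝ)) • d4_r z.2 + (1 : ℝ) • z.2)) := h
  rwa [e] at h'

/-- The same for general normed spaces.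

PROOF.  `k = finrank V`, `e : V ≃ₜ (Fin k → ℝ)` with `‖e v‖ = ‖v‖` (`SMD.exists_radial`),
`L : W ≃L[ℝ] (Fin j → ℝ) × (Fin k → ℝ)` (equal finranks, `ContinuousLinearEquiv.ofFinrankEq`).  Apply
`local_null_std` to `F' (x, t) = L (F (x, e.symm t))`; then `StabNull.comp` with
`(x, v) ↦ (x, e v)` and `StabNullOn.map L.symm` (`stabNull_iff_on`). -/
theorem local_null {Z : Type} [MetricSpace Z] [CompactSpace Z] (hZ : TB Z) {j : ℕ} (hj : 3 ≤ j)
    (V : Type) [NormedAddCommGroup V] [NormedSpace ℝ V] [FiniteDimensional ℝ V]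
    (W : Type) [NormedAddCommGroup W] [NormedSpace ℝ W] [FiniteDimensional ℝ W]
    (hd : Module.finrank ℝ W = j + Module.finrank ℝ V)
    {A : Set Z} (hA : IsClosed A) (F : Z × V → W) (hF : Continuous F)
    (h0 : ∀ x v, (x ∈ A ∨ 1 ≤ ‖v‖) → F (x, v) ≠ 0) (x₀ : Z)
    (hQ : ∀ x v, ‖v‖ = 1 → ∀ u ∈ Icc (0 : ℝ) 1, (1 - u) • F (x, v) + u • F (x₀, v) ≠ 0) :
    StabNull {p : Z × V | p.1 ∈ A ∨ 1 ≤ ‖p.2‖} F := by
  obtain ⟨e, he⟩ := exists_radial V (Fin (Module.finrank ℝ V) → ℝ) (by simp)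
  have hfr : Module.finrank ℝ W =
      Module.finrank ℝ ((Fin j → ℝ) × (Fin (Module.finrank ℝ V) → ℝ)) := by
    rw [Module.finrank_prod, Module.finrank_fin_fun, Module.finrank_fin_fun, hd]
  let L : W ≃L[ℝ] ((Fin j → ℝ) × (Fin (Module.finrank ℝ V) → ℝ)) :=
    ContinuousLinearEquiv.ofFinrankEq hfr
  have he' : ∀ t, ‖e.symm t‖ = ‖t‖ := fun t => by
    rw [← he (e.symm t), e.apply_symm_apply]
  have h1 := local_null_std hZ hj hA (fun q => L (F (q.1, e.symm q.2)))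
    (L.continuous.comp (hF.comp (continuous_fst.prodMk (e.symm.continuous.comp continuous_snd))))
    (fun x v h h2 => by
      have h3 : L (F (x, e.symm v)) = 0 := h2
      rw [map_eq_zero_iff L L.injective] at h3
      refine h0 x (e.symm v) ?_ h3
      rw [he']
      exact h) x₀
    (fun x v hv u hu h2 => by
      have h3 : (1 - u) • L (F (x, e.symm v)) + u • L (F (x₀, e.symm v)) = 0 := h2
      rw [← map_smul, ← map_smul, ← map_add, map_eq_zero_iff L L.injective] at h3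
      exact hQ x (e.symm v) (by rw [he', hv]) u hu h3)
  have h2 := StabNull.comp (B' := {p : Z × V | p.1 ∈ A ∨ 1 ≤ ‖p.2‖})
    (fun q : Z × V => (q.1, e q.2)) (by fun_prop) (fun z hz => by
      show z.1 ∈ A ∨ 1 ≤ ‖e z.2‖
      rw [he]
      exact hz) h1
  rw [stabNull_iff_on] at h2 ⊢
  have h3 := h2.map L.symm
  have e3 : (fun z : Z × V => L.symm (L (F (z.1, e.symm (e z.2))))) = F := by
    funext z
    rw [ContinuousLinearEquiv.symm_apply_apply, Homeomorph.symm_apply_apply]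
  have h4 : StabNullOn univ {p : Z × V | p.1 ∈ A ∨ 1 ≤ ‖p.2‖}
      (fun z : Z × V => L.symm (L (F (z.1, e.symm (e z.2))))) := h3
  rwa [e3] at h4

end MM
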