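import Pool.Agent.Lib_MP_33f7bb_d.D4
import Pool.Agent.Lib_MP_33f7bb_an.REL

/-!
# D5: patching over a finite closed cover; `StableDimLE`
-/

open Set Filter Topology

namespace MM

open SMD

/-- Version of `SMD.StabNull.of_rel` which remembers the values of `F'`.

PROOF.  Exactly the proof of `SMD.StabNull.of_rel` (file `Lib_MP_33f7bb_an/REL.lean`): the map `g`
constructed there satisfies `g (z, v) = (F z, v)` for `z ∈ B` or `‖v‖ ≥ 1` (`hgq`, `hq2`). -/
theorem stabNull_of_rel' {Z : Type*} [TopologicalSpace Z] [TopologicalSpace.MetrizableSpace Z]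
    {W : Type} [NormedAddCommGroup W] [NormedSpace ℝ W] [FiniteDimensional ℝ W]
    {B D : Set Z} (hB : IsClosed B) (hD : IsClosed D) {F : Z → W} (hF : Continuous F)
    (hF0 : ∀ z ∈ B, F z ≠ 0) (h1 : StabNullOn D B F)
    (h2 : ∀ (V₀ : Type) [NormedAddCommGroup V₀] [NormedSpace ℝ V₀] [FiniteDimensional ℝ V₀]
      (F' : Z × V₀ → W × V₀), Continuous F' →
      (∀ z v, (z ∈ B ∨ 1 ≤ ‖v‖) → F' (z, v) = (F z, v)) →
      (∀ z v, (z ∈ B ∪ D ∨ 1 ≤ ‖v‖) → F' (z, v) ≠ 0) →
      StabNull {p : Z × V₀ | p.1 ∈ B ∪ D ∨ 1 ≤ ‖p.2‖} F') :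
    StabNull B F := by
  classical
  obtain ⟨V₀, i1, i2, i3, G₀, hG₀, hG0, hGb⟩ := h1
  obtain ⟨q, hq⟩ : ∃ q : Z × V₀ → W × V₀, q = fun p => if p.1 ∈ D then G₀ p else (F p.1, p.2) :=
    ⟨_, rfl⟩
  have hq1 : ∀ p : Z × V₀, p.1 ∈ D → q p = G₀ p := by
    intro p hp
    rw [hq]
    simp only [if_pos hp]
  have hq2 : ∀ p : Z × V₀, (p.1 ∈ B ∨ 1 ≤ ‖p.2‖) → q p = (F p.1, p.2) := by
    intro p hp
    by_cases hD' : p.1 ∈ D
    · rw [hq1 p hD']
      exact hGb p.1 hD' p.2 hp
    · rw [hq]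
      simp only [if_neg hD']
  have hE1 : IsClosed (D ×ˢ (univ : Set V₀)) := hD.prod isClosed_univ
  have hE2 : IsClosed {p : Z × V₀ | p.1 ∈ B ∨ 1 ≤ ‖p.2‖} :=
    (hB.preimage continuous_fst).union (isClosed_le continuous_const (continuous_norm.comp continuous_snd))
  have hqc : ContinuousOn q ((D ×ˢ (univ : Set V₀)) ∪ {p : Z × V₀ | p.1 ∈ B ∨ 1 ≤ ‖p.2‖}) := by
    refine ContinuousOn.union_of_isClosed ?_ ?_ hE1 hE2
    · exact hG₀.congr fun p hp => hq1 p hp.1
    · refine ContinuousOn.congr (f := fun p : Z × V₀ => (F p.1, p.2)) ?_ fun p hp => hq2 p hp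
      exact ((hF.comp continuous_fst).prodMk continuous_snd).continuousOn
  obtain ⟨g, hg⟩ := ContinuousMap.exists_restrict_eq (hE1.union hE2)
    (⟨_, continuousOn_iff_continuous_domRestrict.1 hqc⟩ :
      C(↥((D ×ˢ (univ : Set V₀)) ∪ {p : Z × V₀ | p.1 ∈ B ∨ 1 ≤ ‖p.2‖}), W × V₀))
  have hgq : ∀ p ∈ (D ×ˢ (univ : Set V₀)) ∪ {p : Z × V₀ | p.1 ∈ B ∨ 1 ≤ ‖p.2‖}, g p = q p := by
    intro p hp
    exact DFunLike.congr_fun hg ⟨p, hp⟩
  have h3 := h2 V₀ g g.continuous (by
    intro z v hzv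
    rw [hgq (z, v) (Or.inr hzv), hq2 (z, v) hzv]) (by
    intro z v hzv
    have hmem : (z, v) ∈ (D ×ˢ (univ : Set V₀)) ∪ {p : Z × V₀ | p.1 ∈ B ∨ 1 ≤ ‖p.2‖} := by
      rcases hzv with (h | h) | h
      · exact Or.inr (Or.inl h)
      · exact Or.inl ⟨h, mem_univ _⟩
      · exact Or.inr (Or.inr h)
    rw [hgq _ hmem]
    rcases hmem with h | h
    · rw [hq1 _ h.1]
      exact hG0 z h.1 v
    · rw [hq2 _ h]
      intro h0
      rw [Prod.mk_eq_zero] at h0
      rcases h with h | h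
      · exact hF0 z h h0.1
      · rw [h0.2, norm_zero] at h
        linarith)
  have h4 : StabNull {p : Z × V₀ | p.1 ∈ B ∨ 1 ≤ ‖p.2‖} (g : Z × V₀ → W × V₀) := by
    refine StabNull.mono ?_ h3
    rintro p (h | h)
    · exact Or.inl (Or.inl h)
    · exact Or.inr h
  refine StabNull.flatten (V₀ := V₀) (StabNull.change g.continuous
    ((hF.comp continuous_fst).prodMk continuous_snd) ?_ h4)
  intro p hp
  rw [hgq p (Or.inr hp), hq2 p hp]

/-- from a closed subspace to `StabNullOn`.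

PROOF.  Extend the witness by `0` outside `Z × V × V'` (classical `if`); continuity on the closed
set via `continuousOn_iff_continuous_restrict`. -/
theorem stabNullOn_of_sub {K : Type} [TopologicalSpace K] {Z : Set K} {A : Set K}
    {V : Type} [NormedAddCommGroup V] [NormedSpace ℝ V]
    {W : Type} [NormedAddCommGroup W] [NormedSpace ℝ W] (F : K × V → W)
    (h : StabNull {p : Z × V | (p.1 : K) ∈ A ∨ 1 ≤ ‖p.2‖} (fun p => F (p.1, p.2))) :
    StabNullOn {p : K × V | p.1 ∈ Z} {p : K × V | p.1 ∈ A ∨ 1 ≤ ‖p.2‖} F := by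
  classical
  obtain ⟨V', i1, i2, i3, G, h1, h2, h3⟩ := h
  refine ⟨V', i1, i2, i3, fun q => if h : q.1.1 ∈ Z then G ((⟨q.1.1, h⟩, q.1.2), q.2) else 0,
    ?_, ?_, ?_⟩
  · rw [continuousOn_iff_continuous_domRestrict]
    have e : (({p : K × V | p.1 ∈ Z} ×ˢ (univ : Set V')).domRestrict
        (fun q : (K × V) × V' => if h : q.1.1 ∈ Z then G ((⟨q.1.1, h⟩, q.1.2), q.2) else 0)) =
        fun q => G ((⟨q.1.1.1, q.2.1⟩, q.1.1.2), q.1.2) := by
      funext q
      exact dif_pos q.2.1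
    rw [e]
    refine h1.comp ?_
    refine Continuous.prodMk (Continuous.prodMk (Continuous.subtype_mk ?_ _) ?_) ?_
    · exact (continuous_fst.comp continuous_fst).comp continuous_subtype_val
    · exact (continuous_snd.comp continuous_fst).comp continuous_subtype_val
    · exact continuous_snd.comp continuous_subtype_val
  · intro z hz v
    have hz' : z.1 ∈ Z := hz
    simp only [dif_pos hz']
    exact h2 _
  · intro z hz v hzv
    have hz' : z.1 ∈ Z := hz
    simp only [dif_pos hz']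
    exact h3 (⟨z.1, hz'⟩, z.2) v hzv

/-- Patching.

PROOF.  Induction on `T` (`Finset.induction_on`, all other data universally quantified).
`T = ∅`: `A = univ`, `F` has no zeros, the witness is the zero space (`V' = Fin 0 → ℝ`), `G (z, v) = (F z, v)`.
`insert a T`: `local_null` on the compact space `Z a` (`TB.sub`), with `A ∩ Z a`, the base point `c a`,
gives with `stabNullOn_of_sub` `StabNullOn {p | p.1 ∈ Z a} B F`.  Apply `stabNull_of_rel'` with
`D = {p | p.1 ∈ Z a}`.  For `V₀, F'` as there, put `F'' (x, (v, v₀)) = F' ((x, v), v₀)` on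
`K × (V × V₀)`, with values in `W × V₀`, and `A'' = A ∪ Z a`.  It satisfies the hypotheses of the
induction hypothesis for `T`: no zeros for `x ∈ A''` or `‖(v, v₀)‖ ≥ 1`; if `‖(v, v₀)‖ = 1` then
`‖v‖ = 1` or `‖v₀‖ = 1` (sup norm), `F'' (x, (v, v₀)) = (F (x, v), v₀)` for all `x`, so
`(1 - u) • F'' (x, w) + u • F'' (c b, w) = ((1 - u) • F (x, v) + u • F (c b, v), v₀)`, which is not zero
by `hQ` if `‖v‖ = 1` and because `v₀ ≠ 0` if `‖v₀‖ = 1`.  The result is transported back with
`StabNull.comp` along `((x, v), v₀) ↦ (x, (v, v₀))`. -/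
theorem patch {K : Type} [MetricSpace K] [CompactSpace K] (hK : TB K) {j : ℕ} (hj : 3 ≤ j)
    {m : ℕ} (Z : Fin m → Set K) (hZ : ∀ a, IsClosed (Z a)) (c : Fin m → K)
    (hc : ∀ a, c a ∈ Z a) (T : Finset (Fin m)) :
    ∀ (V : Type) [NormedAddCommGroup V] [NormedSpace ℝ V] [FiniteDimensional ℝ V]
      (W : Type) [NormedAddCommGroup W] [NormedSpace ℝ W] [FiniteDimensional ℝ W]
      (_ : Module.finrank ℝ W = j + Module.finrank ℝ V)
      (A : Set K) (_ : IsClosed A) (_ : ∀ x, x ∈ A ∨ ∃ a ∈ T, x ∈ Z a)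
      (F : K × V → W) (_ : Continuous F) (_ : ∀ x v, (x ∈ A ∨ 1 ≤ ‖v‖) → F (x, v) ≠ 0)
      (_ : ∀ a ∈ T, ∀ x ∈ Z a, ∀ v, ‖v‖ = 1 → ∀ u ∈ Icc (0 : ℝ) 1,
        (1 - u) • F (x, v) + u • F (c a, v) ≠ 0),
      StabNull {p : K × V | p.1 ∈ A ∨ 1 ≤ ‖p.2‖} F := by
  classical
  induction T using Finset.induction_on with
  | empty =>
    intro V _ _ _ W _ _ _ hd A hA hcov F hF h0 hQ
    refine ⟨Fin 0 → ℝ, inferInstance, inferInstance, inferInstance, fun p => (F p.1, p.2),
      (hF.comp continuous_fst).prodMk continuous_snd, ?_, fun _ _ _ => rfl⟩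
    rintro ⟨⟨x, v⟩, v'⟩ h
    have hx : x ∈ A := by
      rcases hcov x with h1 | ⟨a, ha, _⟩
      · exact h1
      · exact absurd ha (Finset.notMem_empty a)
    exact h0 x v (Or.inl hx) (Prod.mk_eq_zero.1 h).1
  | insert a T haT ih =>
    intro V _ _ _ W _ _ _ hd A hA hcov F hF h0 hQ
    have : CompactSpace (Z a) := isCompact_iff_compactSpace.1 (hZ a).isCompact
    have hB : IsClosed {p : K × V | p.1 ∈ A ∨ 1 ≤ ‖p.2‖} :=
      (hA.preimage continuous_fst).union
        (isClosed_le continuous_const (continuous_norm.comp continuous_snd))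
    have hD : IsClosed {p : K × V | p.1 ∈ Z a} := (hZ a).preimage continuous_fst
    have hl : StabNull {p : Z a × V | (p.1 : K) ∈ A ∨ 1 ≤ ‖p.2‖}
        (fun p : Z a × V => F (p.1, p.2)) := by
      refine local_null (hK.sub (hZ a)) hj V W hd (A := {x : Z a | (x : K) ∈ A})
        (hA.preimage continuous_subtype_val) (fun p : Z a × V => F (p.1, p.2)) ?_ ?_
        ⟨c a, hc a⟩ ?_
      · exact hF.comp ((continuous_subtype_val.comp continuous_fst).prodMk continuous_snd)
      · intro x v hx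
        exact h0 x v hx
      · intro x v hv u hu
        exact hQ a (Finset.mem_insert_self a T) x x.2 v hv u hu
    refine stabNull_of_rel' hB hD hF (fun z hz => h0 z.1 z.2 hz) (stabNullOn_of_sub F hl) ?_
    intro V₀ _ _ _ F' hF' hF1 hF2
    have hih := ih (V × V₀) (W × V₀)
      (by rw [Module.finrank_prod, Module.finrank_prod, hd]; ring)
      (A ∪ Z a) (hA.union (hZ a))
      (by
        intro x
        rcases hcov x with h | ⟨b, hb, hx⟩
        · exact Or.inl (Or.inl h)
        · rcases Finset.mem_insert.1 hb with h | h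
          · exact Or.inl (Or.inr (h ▸ hx))
          · exact Or.inr ⟨b, h, hx⟩)
      (fun p => F' ((p.1, p.2.1), p.2.2))
      (hF'.comp ((continuous_fst.prodMk (continuous_fst.comp continuous_snd)).prodMk
        (continuous_snd.comp continuous_snd)))
      (by
        rintro x ⟨v, v₀⟩ hx
        refine hF2 (x, v) v₀ ?_
        rcases hx with (h | h) | h
        · exact Or.inl (Or.inl (Or.inl h))
        · exact Or.inl (Or.inr h)
        · rw [Prod.norm_mk, le_max_iff] at h
          rcases h with h | h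
          · exact Or.inl (Or.inl (Or.inr h))
          · exact Or.inr h)
      (by
        rintro b hb x hx ⟨v, v₀⟩ hv u hu
        rw [Prod.norm_mk] at hv
        have hval : ∀ y : K, F' ((y, v), v₀) = (F (y, v), v₀) := by
          intro y
          refine hF1 (y, v) v₀ ?_
          rcases le_max_iff.1 hv.ge with h | h
          · exact Or.inl (Or.inr h)
          · exact Or.inr h
        show (1 - u) • F' ((x, v), v₀) + u • F' ((c b, v), v₀) ≠ 0
        rw [hval, hval]
        intro h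
        have h1 := (Prod.mk_eq_zero.1 h).1
        have h2 : (1 - u) • v₀ + u • v₀ = 0 := (Prod.mk_eq_zero.1 h).2
        rw [← add_smul, sub_add_cancel, one_smul] at h2
        rw [h2, norm_zero] at hv
        have hv1 : ‖v‖ = 1 := by
          rcases max_choice ‖v‖ (0 : ℝ) with h3 | h3
          · rw [← h3]; exact hv
          · rw [h3] at hv
            exact absurd hv (by norm_num)
        exact hQ b (Finset.mem_insert_of_mem hb) x hx v hv1 u hu h1)
    refine StabNull.comp (B := {p : K × (V × V₀) | p.1 ∈ A ∪ Z a ∨ 1 ≤ ‖p.2‖})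
      (F := fun p : K × (V × V₀) => F' ((p.1, p.2.1), p.2.2))
      (fun q : (K × V) × V₀ => (q.1.1, (q.1.2, q.2))) ?_ ?_ hih
    · exact (continuous_fst.comp continuous_fst).prodMk
        ((continuous_snd.comp continuous_fst).prodMk continuous_snd)
    · rintro ⟨⟨x, v⟩, v₀⟩ hx
      rcases hx with ((h | h) | h) | h
      · exact Or.inl (Or.inl h)
      · refine Or.inr ?_
        show 1 ≤ ‖(v, v₀)‖
        rw [Prod.norm_mk]
        exact le_max_of_le_left h
      · exact Or.inl (Or.inr h)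
      · refine Or.inr ?_
        show 1 ≤ ‖(v, v₀)‖
        rw [Prod.norm_mk]
        exact le_max_of_le_right h

/-- PROOF.  Given `A, V, W, F`.  On the compact set `K × sphere` (maybe empty) `‖F‖ ≥ ε > 0`; by
uniform continuity of `F` on `K × closedBall 0 1` there is `δ > 0` with
`‖F (x, v) - F (x', v)‖ < ε` for `dist x x' ≤ δ`, `‖v‖ ≤ 1`.  Finitely many closed balls
`Z a = closedBall (c a) δ` cover `K`; for `x ∈ Z a`, `‖v‖ = 1`:
`‖(1 - u) • F (x, v) + u • F (c a, v) - F (x, v)‖ ≤ ‖F (x, v) - F (c a, v)‖ < ε ≤ ‖F (x, v)‖`.  Apply `patch` with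
`T = univ`. -/
theorem SI_of_TB {K : Type} [MetricSpace K] [CompactSpace K] (hK : TB K) {j : ℕ} (hj : 3 ≤ j) :
    SI K j := by
  classical
  intro A hA V _ _ _ W _ _ _ hd F hF h0
  -- lower bound on the sphere
  obtain ⟨ε, hε, hε1⟩ : ∃ ε : ℝ, 0 < ε ∧ ∀ p ∈ (univ : Set K) ×ˢ Metric.sphere (0 : V) 1,
      ε ≤ ‖F p‖ := by
    refine IsCompact.exists_forall_le' (isCompact_univ.prod (isCompact_sphere (0 : V) 1))
      (hF.norm.continuousOn) ?_
    rintro ⟨x, v⟩ ⟨-, hv⟩
    have hv1 : ‖v‖ = 1 := mem_sphere_zero_iff_norm.1 hv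
    exact norm_pos_iff.2 (h0 x v (Or.inr hv1.ge))
  have huc := (isCompact_univ.prod (isCompact_closedBall (0 : V) 1) :
    IsCompact ((univ : Set K) ×ˢ Metric.closedBall (0 : V) 1)).uniformContinuousOn_of_continuous
      hF.continuousOn
  rw [Metric.uniformContinuousOn_iff] at huc
  obtain ⟨δ, hδ, hδ1⟩ := huc ε hε
  obtain ⟨t, -, htf, ht⟩ := (isCompact_univ (X := K)).finite_cover_balls (half_pos hδ)
  let s := htf.toFinset
  have hmem : ∀ a : Fin s.card, (s.equivFin.symm a).1 ∈ s := fun a => (s.equivFin.symm a).2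
  refine patch hK hj (fun a : Fin s.card => Metric.closedBall (s.equivFin.symm a).1 (δ / 2))
    (fun a => Metric.isClosed_closedBall) (fun a => (s.equivFin.symm a).1)
    (fun a => Metric.mem_closedBall_self (half_pos hδ).le) Finset.univ V W hd A hA ?_ F hF h0 ?_
  · intro x
    right
    have hx := ht (mem_univ x)
    rw [mem_iUnion₂] at hx
    obtain ⟨y, hy, hxy⟩ := hx
    refine ⟨s.equivFin ⟨y, htf.mem_toFinset.2 hy⟩, Finset.mem_univ _, ?_⟩
    rw [Equiv.symm_apply_apply]
    exact Metric.ball_subset_closedBall hxy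
  · intro a _ x hx v hv u hu h
    set y : K := (s.equivFin.symm a).1 with hy
    have hxy : dist x y ≤ δ / 2 := Metric.mem_closedBall.1 hx
    have hvb : v ∈ Metric.closedBall (0 : V) 1 := mem_closedBall_zero_iff.2 hv.le
    have h1 : dist (F (x, v)) (F (y, v)) < ε := by
      refine hδ1 (x, v) ⟨mem_univ _, hvb⟩ (y, v) ⟨mem_univ _, hvb⟩ ?_
      rw [Prod.dist_eq]
      simp only [dist_self]
      rw [max_eq_left dist_nonneg]
      linarith
    have h2 : ε ≤ ‖F (x, v)‖ := hε1 (x, v) ⟨mem_univ _, mem_sphere_zero_iff_norm.2 hv⟩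
    have h3 : F (x, v) = u • (F (x, v) - F (y, v)) := by
      have h4 : F (x, v) - u • (F (x, v) - F (y, v)) = (1 - u) • F (x, v) + u • F (y, v) := by
        rw [smul_sub, sub_smul, one_smul]
        abel
      rw [h] at h4
      exact sub_eq_zero.1 h4
    have h5 : ‖F (x, v)‖ ≤ dist (F (x, v)) (F (y, v)) := by
      rw [dist_eq_norm]
      calc ‖F (x, v)‖ = ‖u • (F (x, v) - F (y, v))‖ := by rw [← h3]
        _ = u * ‖F (x, v) - F (y, v)‖ := by
          rw [norm_smul, Real.norm_of_nonneg hu.1]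
        _ ≤ 1 * ‖F (x, v) - F (y, v)‖ := by
          gcongr
          exact hu.2
        _ = _ := one_mul _
    linarith

/-- PROOF.  `SI_of_TB` for `V = Fin k → ℝ`, `W = Fin (j + k) → ℝ` gives `V'` and `G'`; with
`e : V' ≃ₜ (Fin l → ℝ)`, `‖e v‖ = ‖v‖` (`SMD.exists_radial`, `l = finrank V'`) put
`G (p, s) = ((G' (p, e.symm s)).1, e (G' (p, e.symm s)).2)`; `e v = 0` iff `v = 0`. -/
theorem stableDimLE_of_TB {K : Type} [MetricSpace K] [CompactSpace K] (hK : TB K) :
    StableDimLE K 2 := by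
  intro j hj A hA k F hF h0
  obtain ⟨V', i1, i2, i3, G', h1, h2, h3⟩ := SI_of_TB hK (j := j) hj A hA (Fin k → ℝ)
    (Fin (j + k) → ℝ) (by rw [Module.finrank_fin_fun, Module.finrank_fin_fun]) F hF h0
  obtain ⟨e, he⟩ := exists_radial V' (Fin (Module.finrank ℝ V') → ℝ)
    (by rw [Module.finrank_fin_fun])
  have he' : ∀ s, ‖e.symm s‖ = ‖s‖ := by
    intro s
    rw [← he (e.symm s), e.apply_symm_apply]
  refine ⟨Module.finrank ℝ V', fun p => ((G' (p.1, e.symm p.2)).1, e (G' (p.1, e.symm p.2)).2),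
    ?_, ?_, ?_⟩
  · have hc : Continuous fun p : (K × (Fin k → ℝ)) × (Fin (Module.finrank ℝ V') → ℝ) =>
        G' (p.1, e.symm p.2) :=
      h1.comp (continuous_fst.prodMk (e.symm.continuous.comp continuous_snd))
    exact (continuous_fst.comp hc).prodMk (e.continuous.comp (continuous_snd.comp hc))
  · intro p h
    obtain ⟨h4, h5⟩ := Prod.mk_eq_zero.1 h
    refine h2 (p.1, e.symm p.2) (Prod.ext h4 ?_)
    have h6 : ‖e (G' (p.1, e.symm p.2)).2‖ = 0 := by rw [h5, norm_zero]
    rw [he] at h6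
    exact norm_eq_zero.1 h6
  · intro x t s hx
    have h4 : G' ((x, t), e.symm s) = (F (x, t), e.symm s) := by
      refine h3 (x, t) (e.symm s) ?_
      rcases hx with h | h | h
      · exact Or.inl (Or.inl h)
      · exact Or.inl (Or.inr h)
      · right
        rw [he']
        exact h
    show ((G' ((x, t), e.symm s)).1, e (G' ((x, t), e.symm s)).2) = _
    rw [h4]
    show (F (x, t), e (e.symm s)) = _
    rw [e.apply_symm_apply]

end MM
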