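import Pool.Agent.Lib_MP_33f7bb_an.Defs
import Pool.Agent.Lib_MP_33f7bb_d.Defs

/-!
# D6: maps from spaces of covering dimension less than `N` to `S^N` are null-homotopic
-/

open Set Filter Topology

namespace MM

open SMD

/-- `0` is not in the open cone segment of `a` and `b` -/
private def D6_NO {E : Type} [AddCommGroup E] [Module ℝ E] (a b : E) : Prop :=
  ∀ s t : ℝ, 0 ≤ s → 0 ≤ t → 0 < s + t → s • a + t • b ≠ 0

private theorem D6_NO_of {E : Type} [AddCommGroup E] [Module ℝ E] {a b : E}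
    (h : ∀ u ∈ Icc (0 : ℝ) 1, (1 - u) • a + u • b ≠ 0) : D6_NO a b := by
  intro s t hs ht hst h0
  have h1 : t / (s + t) ∈ Icc (0 : ℝ) 1 :=
    ⟨div_nonneg ht hst.le, (div_le_one hst).2 (by linarith)⟩
  apply h _ h1
  have h2 : 1 - t / (s + t) = s / (s + t) := by
    field_simp
    ring
  rw [h2]
  have h3 : (s / (s + t)) • a + (t / (s + t)) • b = (s + t)⁻¹ • (s • a + t • b) := by
    rw [smul_add, smul_smul, smul_smul, div_eq_inv_mul, div_eq_inv_mul]
  rw [h3, h0, smul_zero]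

private theorem D6_NO_scale {E : Type} [AddCommGroup E] [Module ℝ E] {a b : E} (h : D6_NO a b) {r r' : ℝ}
    (hr : 0 < r) (hr' : 0 < r') : D6_NO (r • a) (r' • b) := by
  intro s t hs ht hst
  rw [smul_smul, smul_smul]
  apply h
  · positivity
  · positivity
  · rcases hs.lt_or_eq with h1 | h1
    · have : 0 < s * r := mul_pos h1 hr
      have : 0 ≤ t * r' := by positivity
      linarith
    · rw [← h1] at hst ⊢
      have : 0 < t := by linarith
      have : 0 < t * r' := mul_pos this hr'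
      linarith

/-- Straight line homotopies avoiding the origin give homotopies of maps to the sphere.

PROOF.  Normalise: `H (u, x) = ‖w‖⁻¹ • w`, `w = (1 - u) • q x + u • q' x`. -/
theorem homotopic_of_ne {X : Type} [TopologicalSpace X] {N : ℕ} (q q' : C(X, Sph N))
    (h : ∀ x, ∀ u ∈ Icc (0 : ℝ) 1,
      (1 - u) • (q x : EuclideanSpace ℝ (Fin (N + 1))) + u • (q' x : EuclideanSpace ℝ (Fin (N + 1))) ≠ 0) :
    q.Homotopic q' := by
  have hw : ∀ p : unitInterval × X, (1 - (p.1 : ℝ)) • (q p.2 : EuclideanSpace ℝ (Fin (N + 1))) +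
      (p.1 : ℝ) • (q' p.2 : EuclideanSpace ℝ (Fin (N + 1))) ≠ 0 := fun p => h p.2 p.1 p.1.2
  have hc : Continuous fun p : unitInterval × X => (1 - (p.1 : ℝ)) •
      (q p.2 : EuclideanSpace ℝ (Fin (N + 1))) + (p.1 : ℝ) • (q' p.2 : EuclideanSpace ℝ (Fin (N + 1))) := by
    fun_prop
  have hq : ∀ x, ‖(q x : EuclideanSpace ℝ (Fin (N + 1)))‖ = 1 := fun x =>
    mem_sphere_zero_iff_norm.1 (q x).2
  have hq' : ∀ x, ‖(q' x : EuclideanSpace ℝ (Fin (N + 1)))‖ = 1 := fun x =>
    mem_sphere_zero_iff_norm.1 (q' x).2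
  refine ⟨⟨⟨fun p => ⟨‖(1 - (p.1 : ℝ)) • (q p.2 : EuclideanSpace ℝ (Fin (N + 1))) +
      (p.1 : ℝ) • (q' p.2 : EuclideanSpace ℝ (Fin (N + 1)))‖⁻¹ •
      ((1 - (p.1 : ℝ)) • (q p.2 : EuclideanSpace ℝ (Fin (N + 1))) +
      (p.1 : ℝ) • (q' p.2 : EuclideanSpace ℝ (Fin (N + 1)))), ?_⟩, ?_⟩, ?_, ?_⟩⟩
  · rw [mem_sphere_zero_iff_norm, norm_smul, norm_inv, norm_norm]
    exact inv_mul_cancel₀ (norm_ne_zero_iff.2 (hw p))
  · exact Continuous.subtype_mk ((hc.norm.inv₀ fun p => norm_ne_zero_iff.2 (hw p)).smul hc) _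
  · intro x
    apply Subtype.ext
    simp [hq x]
  · intro x
    apply Subtype.ext
    simp [hq' x]

/-- PROOF.  Let `E = EuclideanSpace ℝ (Fin (N + 1))`.  The open sets `q ⁻¹' (ball y (1/4))` (finitely many
by compactness) cover `K`; take the refinement `W k`, `k ∈ κ` (finite) with at most `n + 1 ≤ N` of
the `W k` through each point.  If `W k` is not empty choose `y k ∈ W k`; `‖q x - q (y k)‖ < 1/2`
for `x ∈ W k`.  Partition of unity: `w k x = infDist x (W k)ᶜ` (`1` if `(W k)ᶜ = ∅`, and it is `0`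
if `W k = ∅`), `θ k = w k / ∑ w`, continuous, `θ k x > 0` iff `x ∈ W k`.
`g x = ∑ k, θ k x • q (y k)`: `‖g x - q x‖ < 1`, so `(1 - u) • q x + u • g x ≠ 0`, and `g x` lies in
`span (q (y k))_(k ∈ T)`, `T = {k | x ∈ W k}`, `#T ≤ n + 1 ≤ N`: a subspace of finrank at most
`N < N + 1`.  There is `c : E` outside all the (finitely many) proper subspaces
`span {q (y k) | k ∈ T}`, `T : Finset κ`, `#T ≤ N`
(`Subspace.biUnion_ne_univ_of_top_notMem`, or measure zero `Measure.addHaar_submodule`), `c ≠ 0`.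
Then `(1 - u) • g x + u • c ≠ 0` for `u ∈ [0,1]` (`u = 0`: `g x ≠ 0`; `u > 0`: otherwise `c` is in the span).
So `q` is homotopic to `‖g‖⁻¹ • g`, which is homotopic to the constant map `‖c‖⁻¹ • c`
(`homotopic_of_ne`; positive multiples do not matter). -/
theorem nullhomotopic_of_covDim {K : Type} [MetricSpace K] [CompactSpace K] {n N : ℕ}
    (h : CovDimLE K n) (hn : n < N) (q : C(K, Sph N)) : q.Nullhomotopic := by
  classical
  -- the finite cover by preimages of small balls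
  have hcov : ∀ y : K, IsOpen (q ⁻¹' Metric.ball (q y) (1 / 4)) := fun y =>
    Metric.isOpen_ball.preimage q.continuous
  obtain ⟨t, ht⟩ := isCompact_univ.elim_finite_subcover (fun y : K => q ⁻¹' Metric.ball (q y) (1 / 4)) hcov
    (fun x _ => mem_iUnion.2 ⟨x, Metric.mem_ball_self (by norm_num)⟩)
  obtain ⟨κ, hκ, W, hWo, hWu, hWs, hWc⟩ := h {y : K // y ∈ t} (fun y => q ⁻¹' Metric.ball (q y.1) (1 / 4))
    (fun y => hcov y.1) (by
      rw [eq_univ_iff_forall]
      intro x
      obtain ⟨y, hy, hx⟩ := mem_iUnion₂.1 (ht (mem_univ x))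
      exact mem_iUnion.2 ⟨⟨y, hy⟩, hx⟩)
  have _ : Fintype κ := Fintype.ofFinite κ
  obtain ⟨f, hf⟩ := PartitionOfUnity.exists_isSubordinate (isClosed_univ (X := K)) W hWo
    hWu.ge
  -- points
  have hp : ∃ p : κ → EuclideanSpace ℝ (Fin (N + 1)), ∀ k, ∀ x ∈ W k,
      ‖p k - (q x : EuclideanSpace ℝ (Fin (N + 1)))‖ ≤ 1 / 2 := by
    refine ⟨fun k => if hk : (W k).Nonempty then (q hk.some : EuclideanSpace ℝ (Fin (N + 1))) else 0, ?_⟩
    intro k x hx
    have hk : (W k).Nonempty := ⟨x, hx⟩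
    simp only [dif_pos hk]
    obtain ⟨y, hy⟩ := hWs k
    have h1 : dist (q x) (q y.1) < 1 / 4 := hy hx
    have h2 : dist (q hk.some) (q y.1) < 1 / 4 := hy hk.some_mem
    rw [← dist_eq_norm]
    have h3 : dist (q hk.some) (q x) ≤ dist (q hk.some) (q y.1) + dist (q x) (q y.1) :=
      dist_triangle_right _ _ _
    rw [Subtype.dist_eq] at h3
    linarith
  obtain ⟨p, hp⟩ := hp
  have hfW : ∀ k x, f k x ≠ 0 → x ∈ W k := fun k x hx => hf k (subset_tsupport _ hx)
  have hsum : ∀ x, ∑ k, f k x = 1 := by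
    intro x
    rw [← finsum_eq_sum_of_fintype]
    exact f.sum_eq_one (mem_univ x)
  have hgc : Continuous fun x => ∑ k, f k x • p k :=
    continuous_finsetSum _ fun k _ => ((f k).continuous.smul continuous_const)
  set g : K → EuclideanSpace ℝ (Fin (N + 1)) := fun x => ∑ k, f k x • p k with hg
  have hgq : ∀ x, ‖g x - (q x : EuclideanSpace ℝ (Fin (N + 1)))‖ ≤ 1 / 2 := by
    intro x
    have h1 : g x - (q x : EuclideanSpace ℝ (Fin (N + 1))) =
        ∑ k, f k x • (p k - (q x : EuclideanSpace ℝ (Fin (N + 1)))) := by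
      simp only [smul_sub, Finset.sum_sub_distrib, ← Finset.sum_smul, hsum, one_smul, hg]
    rw [h1]
    calc ‖∑ k, f k x • (p k - (q x : EuclideanSpace ℝ (Fin (N + 1))))‖
        ≤ ∑ k, ‖f k x • (p k - (q x : EuclideanSpace ℝ (Fin (N + 1))))‖ := norm_sum_le _ _
      _ ≤ ∑ k, f k x * (1 / 2) := by
          refine Finset.sum_le_sum fun k _ => ?_
          rw [norm_smul, Real.norm_of_nonneg (f.nonneg k x)]
          by_cases hk : f k x = 0
          · simp [hk]
          · exact mul_le_mul_of_nonneg_left (hp k x (hfW k x hk)) (f.nonneg k x)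
      _ = 1 / 2 := by rw [← Finset.sum_mul, hsum, one_mul]
  have hq : ∀ x, ‖(q x : EuclideanSpace ℝ (Fin (N + 1)))‖ = 1 := fun x =>
    mem_sphere_zero_iff_norm.1 (q x).2
  have hqg : ∀ x, D6_NO (q x : EuclideanSpace ℝ (Fin (N + 1))) (g x) := by
    intro x
    apply D6_NO_of
    intro u hu h0
    have h1 : (q x : EuclideanSpace ℝ (Fin (N + 1))) = -(u • (g x - (q x : EuclideanSpace ℝ (Fin (N + 1))))) := by
      rw [eq_neg_iff_add_eq_zero, ← h0, sub_smul, one_smul, smul_sub]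
      abel
    have h2 : ‖(q x : EuclideanSpace ℝ (Fin (N + 1)))‖ ≤ 1 * (1 / 2) := by
      rw [h1, norm_neg, norm_smul, Real.norm_of_nonneg hu.1]
      exact mul_le_mul hu.2 (hgq x) (norm_nonneg _) (by norm_num)
    rw [hq x] at h2
    norm_num at h2
  -- a vector outside of the small subspaces
  have hc : ∃ c : EuclideanSpace ℝ (Fin (N + 1)), ∀ T : Finset κ, T.card ≤ N →
      c ∉ Submodule.span ℝ (p '' (T : Set κ)) := by
    set s : Finset (Subspace ℝ (EuclideanSpace ℝ (Fin (N + 1)))) :=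
      ((Finset.univ : Finset (Finset κ)).filter fun T : Finset κ => T.card ≤ N).image
        (fun T : Finset κ => Submodule.span ℝ (p '' (T : Set κ))) with hs
    have hs1 : (⊤ : Subspace ℝ (EuclideanSpace ℝ (Fin (N + 1)))) ∉ s := by
      intro htop
      obtain ⟨T, hT, hT1⟩ := Finset.mem_image.1 htop
      rw [Finset.mem_filter] at hT
      have h1 : Module.finrank ℝ (Submodule.span ℝ (p '' (T : Set κ))) ≤ N := by
        have h2 : p '' (T : Set κ) = ((T.image p : Finset _) : Set (EuclideanSpace ℝ (Fin (N + 1)))) := by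
          rw [Finset.coe_image]
        rw [h2]
        exact (finrank_span_finset_le_card (R := ℝ) (T.image p)).trans (Finset.card_image_le.trans hT.2)
      rw [hT1] at h1
      rw [finrank_top, finrank_euclideanSpace_fin] at h1
      omega
    have h2 := Subspace.biUnion_ne_univ_of_top_notMem hs1
    rw [Ne, eq_univ_iff_forall] at h2
    push Not at h2
    obtain ⟨c, hc⟩ := h2
    refine ⟨c, fun T hT hcT => hc (mem_iUnion₂.2 ⟨_, ?_, hcT⟩)⟩
    rw [hs, Finset.mem_image]
    exact ⟨T, Finset.mem_filter.2 ⟨Finset.mem_univ _, hT⟩, rfl⟩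
  obtain ⟨c, hc⟩ := hc
  have hc0 : c ≠ 0 := by
    rintro rfl
    exact hc ∅ (by simp) (Submodule.zero_mem _)
  have hg0 : ∀ x, g x ≠ 0 := by
    intro x h0
    apply hqg x 0 1 le_rfl zero_le_one (by norm_num)
    rw [h0, zero_smul, smul_zero, add_zero]
  have hgs : ∀ x, ∃ T : Finset κ, T.card ≤ N ∧ g x ∈ Submodule.span ℝ (p '' (T : Set κ)) := by
    intro x
    refine ⟨Finset.univ.filter fun k => x ∈ W k, ?_, ?_⟩
    · have h1 := hWc x
      have h2 : {k | x ∈ W k} = ((Finset.univ.filter fun k => x ∈ W k : Finset κ) : Set κ) := by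
        ext k
        simp
      rw [h2, Set.ncard_coe_finset] at h1
      omega
    · refine Submodule.sum_mem _ fun k _ => ?_
      by_cases hk : f k x = 0
      · rw [hk, zero_smul]
        exact Submodule.zero_mem _
      · refine Submodule.smul_mem _ _ (Submodule.subset_span ⟨k, ?_, rfl⟩)
        simpa using hfW k x hk
  have hgcn : ∀ x, D6_NO (g x) c := by
    intro x a b ha hb hab h0
    obtain ⟨T, hT, hgT⟩ := hgs x
    rcases hb.lt_or_eq with h1 | h1
    · apply hc T hT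
      have h2 : c = (-(b⁻¹ * a)) • g x := by
        have h3 : b • c = -(a • g x) := eq_neg_of_add_eq_zero_right h0
        calc c = b⁻¹ • (b • c) := by rw [smul_smul, inv_mul_cancel₀ h1.ne', one_smul]
          _ = _ := by rw [h3, smul_neg, smul_smul, neg_smul]
      rw [h2]
      exact Submodule.smul_mem _ _ hgT
    · rw [← h1] at h0 hab
      rw [zero_smul, add_zero] at h0
      rcases smul_eq_zero.1 h0 with h2 | h2
      · rw [h2] at hab
        norm_num at hab
      · exact hg0 x h2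
  -- the two homotopies
  have hn1 : ∀ v : EuclideanSpace ℝ (Fin (N + 1)), v ≠ 0 → ‖v‖⁻¹ • v ∈ Metric.sphere (0 : EuclideanSpace ℝ (Fin (N + 1))) 1 := by
    intro v hv
    rw [mem_sphere_zero_iff_norm, norm_smul, norm_inv, norm_norm]
    exact inv_mul_cancel₀ (norm_ne_zero_iff.2 hv)
  let q1 : C(K, Sph N) := ⟨fun x => ⟨‖g x‖⁻¹ • g x, hn1 _ (hg0 x)⟩,
    Continuous.subtype_mk ((hgc.norm.inv₀ fun x => norm_ne_zero_iff.2 (hg0 x)).smul hgc) _⟩
  refine ⟨⟨‖c‖⁻¹ • c, hn1 _ hc0⟩, ?_⟩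
  have h1 : q.Homotopic q1 := by
    refine homotopic_of_ne q q1 fun x u hu => ?_
    have h2 := D6_NO_scale (hqg x) one_pos (inv_pos.2 (norm_pos_iff.2 (hg0 x)))
    rw [one_smul] at h2
    exact h2 _ _ (by linarith [hu.2]) hu.1 (by linarith)
  refine h1.trans (homotopic_of_ne q1 _ fun x u hu => ?_)
  have h2 := D6_NO_scale (hgcn x) (inv_pos.2 (norm_pos_iff.2 (hg0 x))) (inv_pos.2 (norm_pos_iff.2 hc0))
  exact h2 _ _ (by linarith [hu.2]) hu.1 (by linarith)

end MM
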