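import Pool.Agent.Lib_MP_33f7bb_d.D3

/-!
# D7: the one point union of a sequence of compact metric spaces
-/

open Set Filter Topology

namespace MM

/-- adding variables to a solution.

PROOF.  `Φ' (x, t, (s, s')) = (Φ (x, t, s), s')` with `s = x ∘ castLE`, `s'` the remaining coordinates
(`Fin.append` / `Fin.addCases`, `l' = l + m`). -/
theorem solved_add {X X' : Type} [TopologicalSpace X] [TopologicalSpace X'] {p : X' → X}
    {j k : ℕ} {A : Set X} {φ : X × (Fin k → ℝ) → (Fin j → ℝ) × (Fin k → ℝ)}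
    (h : Solved p A φ) : ∃ l₀, ∀ l, l₀ ≤ l →
      ∃ (Φ : X' × (Fin k → ℝ) × (Fin l → ℝ) → (Fin j → ℝ) × (Fin k → ℝ) × (Fin l → ℝ)),
        Continuous Φ ∧ (∀ p, Φ p ≠ 0) ∧
        (∃ C : ℝ, ∀ x t s, ‖Φ (x, t, s) - (e0 j, t, s)‖ ≤ C) ∧
        ∀ x t s, p x ∈ A → Φ (x, t, s) = ((φ (p x, t)).1, (φ (p x, t)).2, s) := by
  obtain ⟨l₀, Φ, hc, hn, ⟨C, hC⟩, hb⟩ := h
  refine ⟨l₀, fun l hl => ?_⟩
  obtain ⟨m, rfl⟩ := Nat.exists_eq_add_of_le hl
  have hs1 : Continuous fun s : Fin (l₀ + m) → ℝ => fun i : Fin l₀ => s (Fin.castAdd m i) :=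
    continuous_pi fun i => continuous_apply _
  have hin : Continuous fun q : X' × (Fin k → ℝ) × (Fin (l₀ + m) → ℝ) =>
      (q.1, q.2.1, fun i : Fin l₀ => q.2.2 (Fin.castAdd m i)) :=
    continuous_fst.prodMk ((continuous_fst.comp continuous_snd).prodMk
      (hs1.comp (continuous_snd.comp continuous_snd)))
  have hΦ := hc.comp hin
  refine ⟨fun q => ((Φ (q.1, q.2.1, fun i => q.2.2 (Fin.castAdd m i))).1,
    (Φ (q.1, q.2.1, fun i => q.2.2 (Fin.castAdd m i))).2.1,
    Fin.append (Φ (q.1, q.2.1, fun i => q.2.2 (Fin.castAdd m i))).2.2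
      (fun i => q.2.2 (Fin.natAdd l₀ i))), ?_, ?_, ⟨C, ?_⟩, ?_⟩
  · refine (continuous_fst.comp hΦ).prodMk (((continuous_fst.comp continuous_snd).comp hΦ).prodMk
      (continuous_pi fun i => ?_))
    refine Fin.addCases (fun i => ?_) (fun i => ?_) i
    · simp only [Fin.append_left]
      exact (continuous_apply i).comp ((continuous_snd.comp continuous_snd).comp hΦ)
    · simp only [Fin.append_right]
      exact (continuous_apply _).comp (continuous_snd.comp continuous_snd)
  · intro q h0
    apply hn (q.1, q.2.1, fun i => q.2.2 (Fin.castAdd m i))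
    have h1 := congrArg Prod.fst h0
    have h2 := congrArg (fun z => z.2.1) h0
    have h3 := congrArg (fun z => z.2.2) h0
    refine Prod.ext h1 (Prod.ext h2 ?_)
    funext i
    have h4 : Fin.append (Φ (q.1, q.2.1, fun i => q.2.2 (Fin.castAdd m i))).2.2
        (fun i => q.2.2 (Fin.natAdd l₀ i)) (Fin.castAdd m i) = 0 :=
      congrFun h3 (Fin.castAdd m i)
    rw [Fin.append_left] at h4
    exact h4
  · intro x t s
    have h1 := hC x t (fun i => s (Fin.castAdd m i))
    have hC0 : 0 ≤ C := (norm_nonneg _).trans h1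
    rw [Prod.norm_def, Prod.norm_def] at h1 ⊢
    have a1 := (le_max_left _ _).trans h1
    have a2 := ((le_max_left _ _).trans (le_max_right _ _)).trans h1
    have a3 := ((le_max_right _ _).trans (le_max_right _ _)).trans h1
    refine max_le a1 (max_le a2 ?_)
    rw [pi_norm_le_iff_of_nonneg hC0] at a3 ⊢
    intro i
    refine Fin.addCases (fun i => ?_) (fun i => ?_) i
    · have := a3 i
      simpa [Fin.append_left] using this
    · simpa [Fin.append_right] using hC0
  · intro x t s hx
    have h1 := hb x t (fun i => s (Fin.castAdd m i)) hx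
    show ((Φ (x, t, fun i => s (Fin.castAdd m i))).1, (Φ (x, t, fun i => s (Fin.castAdd m i))).2.1,
      Fin.append (Φ (x, t, fun i => s (Fin.castAdd m i))).2.2 (fun i => s (Fin.natAdd l₀ i))) = _
    rw [h1]
    refine Prod.ext rfl (Prod.ext rfl ?_)
    exact Fin.append_castAdd_natAdd

/-- the one point union -/
private abbrev D7X (K : ℕ → Type) : Type :=
  {f : ∀ i, K i ⊕ Unit // ∀ i i', i ≠ i' → f i = Sum.inr () ∨ f i' = Sum.inr ()}

private theorem D7_closed (K : ℕ → Type) [∀ i, TopologicalSpace (K i)] [∀ i, T2Space (K i)] :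
    IsClosed {f : ∀ i, K i ⊕ Unit | ∀ i i', i ≠ i' → f i = Sum.inr () ∨ f i' = Sum.inr ()} := by
  simp only [Set.ofPred_forall]
  refine isClosed_iInter fun i => isClosed_iInter fun i' => isClosed_iInter fun _ => ?_
  exact (isClosed_singleton.preimage (continuous_apply i)).union
    (isClosed_singleton.preimage (continuous_apply i'))

private instance D7_compact (K : ℕ → Type) [∀ i, TopologicalSpace (K i)] [∀ i, T2Space (K i)]
    [∀ i, CompactSpace (K i)] : CompactSpace (D7X K) :=
  isCompact_iff_compactSpace.1 (D7_closed K).isCompact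

/-- the point at infinity -/
private def D7inf (K : ℕ → Type) : D7X K := ⟨fun _ => Sum.inr (), fun _ _ _ => Or.inl rfl⟩

/-- the embeddings -/
private def D7e (K : ℕ → Type) (i : ℕ) (x : K i) : D7X K :=
  ⟨Function.update (fun _ => Sum.inr ()) i (Sum.inl x), by
    intro a b hab
    rcases eq_or_ne a i with rfl | h
    · right
      exact Function.update_of_ne (fun h => hab h.symm) _ _
    · left
      exact Function.update_of_ne h _ _⟩

private theorem D7e_cont (K : ℕ → Type) [∀ i, TopologicalSpace (K i)] (i : ℕ) :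
    Continuous (D7e K i) :=
  Continuous.subtype_mk (continuous_const.update i continuous_inl) _

private theorem D7e_eq (K : ℕ → Type) (i : ℕ) (f : D7X K) (x : K i) (h : f.1 i = Sum.inl x) :
    D7e K i x = f := by
  apply Subtype.ext
  funext a
  show Function.update (fun _ => Sum.inr ()) i (Sum.inl x) a = f.1 a
  rcases eq_or_ne a i with rfl | ha
  · rw [Function.update_self, h]
  · rw [Function.update_of_ne ha]
    rcases f.2 a i ha with h1 | h1
    · exact h1.symm
    · rw [h] at h1
      exact absurd h1 Sum.inl_ne_inr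

/-- gluing along a map to `K ⊕ Unit` -/
private theorem D7_glue {K X Z W : Type} [TopologicalSpace K] [TopologicalSpace X]
    [TopologicalSpace Z] [TopologicalSpace W] (π : X → K ⊕ Unit) (hπ : Continuous π)
    (g : K × Z → W) (hg : Continuous g) (g' : X × Z → W) (hg' : Continuous g') :
    Continuous fun p : X × Z => Sum.elim (fun a => g (a, p.2)) (fun _ => g' p) (π p.1) := by
  have h1 : Continuous fun q : (K × X × Z) ⊕ (Unit × X × Z) =>
      Sum.elim (fun p : K × X × Z => g (p.1, p.2.2)) (fun p : Unit × X × Z => g' p.2) q := by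
    refine Continuous.sumElim ?_ ?_
    · exact hg.comp (continuous_fst.prodMk (continuous_snd.comp continuous_snd))
    · exact hg'.comp continuous_snd
  have h2 := h1.comp ((Homeomorph.sumProdDistrib (X := K) (Y := Unit) (Z := X × Z)).continuous.comp
    ((hπ.comp continuous_fst).prodMk continuous_id))
  refine h2.congr fun p => ?_
  show Sum.elim _ _ ((Homeomorph.sumProdDistrib (X := K) (Y := Unit) (Z := X × Z)) (π p.1, p)) = _
  rcases h : π p.1 with a | a <;> rfl

/-- a closed set without the point at infinity is contained in finitely many of the spaces -/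
private theorem D7_fin (K : ℕ → Type) [∀ i, TopologicalSpace (K i)] [∀ i, T2Space (K i)]
    [∀ i, CompactSpace (K i)] (Q : Set (D7X K)) (hQ : IsClosed Q) (h : D7inf K ∉ Q) :
    ∃ n : ℕ, ∀ f ∈ Q, ∃ i, i < n ∧ ∃ x, f.1 i = Sum.inl x := by
  have hcl : ∀ i : ℕ, IsClosed {f : D7X K | f.1 i = Sum.inr ()} := fun i =>
    isClosed_singleton.preimage ((continuous_apply i).comp continuous_subtype_val)
  have hR : ∀ n : ℕ, IsClosed {f : D7X K | ∀ i, i < n → f.1 i = Sum.inr ()} := by
    intro n
    simp only [Set.ofPred_forall]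
    exact isClosed_iInter fun i => isClosed_iInter fun _ => hcl i
  by_contra hcon
  push Not at hcon
  have hne : (⋂ n : ℕ, Q ∩ {f : D7X K | ∀ i, i < n → f.1 i = Sum.inr ()}).Nonempty := by
    refine IsCompact.nonempty_iInter_of_sequence_nonempty_isCompact_isClosed _ ?_ ?_ ?_ ?_
    · intro n f hf
      exact ⟨hf.1, fun i hi => hf.2 i (by omega)⟩
    · intro n
      obtain ⟨f, hf, hf2⟩ := hcon n
      refine ⟨f, hf, fun i hi => ?_⟩
      rcases hfi : f.1 i with x | x
      · exact absurd hfi (hf2 i hi x)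
      · rfl
    · exact (hQ.inter (hR 0)).isCompact
    · intro n
      exact hQ.inter (hR n)
  obtain ⟨f, hf⟩ := hne
  rw [Set.mem_iInter] at hf
  apply h
  have : f = D7inf K := by
    apply Subtype.ext
    funext i
    exact (hf (i + 1)).2 i (by omega)
  rw [← this]
  exact (hf 0).1

/-- gluing of finitely many solutions -/
private theorem D7_many (K : ℕ → Type) [∀ i, TopologicalSpace (K i)] {Z W : Type}
    [TopologicalSpace Z] [TopologicalSpace W] (Ψ : D7X K × Z → W) (hΨ : Continuous Ψ) (n : ℕ)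
    (Φ : ∀ i, K i × Z → W) (hΦ : ∀ i, i < n → Continuous (Φ i)) :
    ∃ Θ : D7X K × Z → W, Continuous Θ ∧
      (∀ (f : D7X K) z, (∀ i, i < n → f.1 i = Sum.inr ()) → Θ (f, z) = Ψ (f, z)) ∧
      ∀ (f : D7X K) z i, i < n → ∀ x, f.1 i = Sum.inl x → Θ (f, z) = Φ i (x, z) := by
  induction n with
  | zero =>
    exact ⟨Ψ, hΨ, fun _ _ _ => rfl, fun _ _ i hi => absurd hi (Nat.not_lt_zero i)⟩
  | succ n ih =>
    obtain ⟨Θ, h1, h2, h3⟩ := ih fun i hi => hΦ i (by omega)
    refine ⟨fun p => Sum.elim (fun a => Φ n (a, p.2)) (fun _ => Θ p) (p.1.1 n),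
      D7_glue (fun f : D7X K => f.1 n) ((continuous_apply n).comp continuous_subtype_val) (Φ n)
        (hΦ n (by omega)) Θ h1, ?_, ?_⟩
    · intro f z hf
      show Sum.elim (fun a => Φ n (a, z)) (fun _ => Θ (f, z)) (f.1 n) = _
      rw [hf n (by omega)]
      exact h2 f z fun i hi => hf i (by omega)
    · intro f z i hi x hx
      show Sum.elim (fun a => Φ n (a, z)) (fun _ => Θ (f, z)) (f.1 n) = _
      rcases eq_or_ne i n with rfl | hin
      · rw [hx]
        rfl
      · have : f.1 n = Sum.inr () := by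
          rcases f.2 n i (Ne.symm hin) with h | h
          · exact h
          · rw [hx] at h
            exact absurd h Sum.inl_ne_inr
        rw [this]
        exact h3 f z i (by omega) x hx

private theorem D7_e0 {j : ℕ} (hj : 3 ≤ j) : e0 j ≠ 0 := by
  intro h
  have := congrFun h ⟨0, by omega⟩
  simp [e0] at this

private theorem D7_TB (K : ℕ → Type) [∀ i, TopologicalSpace (K i)] [∀ i, T2Space (K i)]
    [∀ i, CompactSpace (K i)] (hK : ∀ i, TB (K i)) : TB (D7X K) := by
  intro j k A φ hj hT
  have hT' : ∀ i, IsTask j k (D7e K i ⁻¹' A) (fun p => φ (D7e K i p.1, p.2)) := fun i =>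
    { closed := hT.closed.preimage (D7e_cont K i)
      cont := hT.cont.comp (((D7e_cont K i).comp continuous_fst).prodMk continuous_snd)
      triv := fun x t ht => hT.triv _ t ht
      ne := fun x hx t => hT.ne _ hx t }
  choose l₀ hl₀ using fun i => solved_add (hK i j k _ _ hj (hT' i))
  -- the remaining part
  have hbase : ∃ n : ℕ, ∀ l : ℕ,
      ∃ Ψ : D7X K × (Fin k → ℝ) × (Fin l → ℝ) → (Fin j → ℝ) × (Fin k → ℝ) × (Fin l → ℝ),
      Continuous Ψ ∧ ∃ C : ℝ, ∀ f : D7X K, (∀ i, i < n → f.1 i = Sum.inr ()) → ∀ t s,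
        Ψ (f, t, s) ≠ 0 ∧ ‖Ψ (f, t, s) - (e0 j, t, s)‖ ≤ C ∧
        (f ∈ A → Ψ (f, t, s) = ((φ (f, t)).1, (φ (f, t)).2, s)) := by
    by_cases hinf : D7inf K ∈ A
    · -- zeros of `φ`
      have hcomp : IsCompact ({p : D7X K × (Fin k → ℝ) | p.2 ∈ Metric.closedBall 0 1 ∧ φ p = 0}) := by
        have h1 : IsCompact ((Set.univ : Set (D7X K)) ×ˢ
            (Metric.closedBall (0 : Fin k → ℝ) 1)) :=
          isCompact_univ.prod (isCompact_closedBall _ _)
        refine h1.of_isClosed_subset ?_ ?_
        · exact (Metric.isClosed_closedBall.preimage continuous_snd).inter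
            (isClosed_singleton.preimage hT.cont)
        · intro p hp
          exact ⟨Set.mem_univ _, hp.1⟩
      have hQ := (hcomp.image continuous_fst).isClosed
      obtain ⟨n, hn⟩ := D7_fin K _ hQ (by
        rintro ⟨p, hp, hp1⟩
        apply hT.ne (D7inf K) hinf p.2
        rw [← hp1]
        exact hp.2)
      have hbd : ∃ C : ℝ, ∀ p : D7X K × (Fin k → ℝ), ‖φ p - (e0 j, p.2)‖ ≤ C := by
        have h1 : IsCompact ((Set.univ : Set (D7X K)) ×ˢ
            (Metric.closedBall (0 : Fin k → ℝ) 1)) :=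
          isCompact_univ.prod (isCompact_closedBall _ _)
        obtain ⟨C, hC⟩ := h1.exists_bound_of_continuousOn
          (f := fun p : D7X K × (Fin k → ℝ) => φ p - (e0 j, p.2))
          (hT.cont.sub (continuous_const.prodMk continuous_snd)).continuousOn
        refine ⟨max C 0, fun p => ?_⟩
        rcases le_or_gt ‖p.2‖ 1 with hp | hp
        · exact (hC p ⟨Set.mem_univ _, by simpa using hp⟩).trans (le_max_left _ _)
        · have := hT.triv p.1 p.2 hp.le
          rw [show φ p = (e0 j, p.2) from this, sub_self, norm_zero]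
          exact le_max_right _ _
      obtain ⟨C, hC⟩ := hbd
      refine ⟨n, fun l => ⟨fun p => ((φ (p.1, p.2.1)).1, (φ (p.1, p.2.1)).2, p.2.2), ?_, C, ?_⟩⟩
      · have h2 : Continuous fun p : D7X K × (Fin k → ℝ) × (Fin l → ℝ) => φ (p.1, p.2.1) :=
          hT.cont.comp (continuous_fst.prodMk (continuous_fst.comp continuous_snd))
        exact (continuous_fst.comp h2).prodMk ((continuous_snd.comp h2).prodMk
          (continuous_snd.comp continuous_snd))
      · intro f hf t s
        refine ⟨?_, ?_, fun _ => rfl⟩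
        · intro h0
          have e1 := congrArg Prod.fst h0
          have e2 := congrArg (fun z => z.2.1) h0
          have e3 : φ (f, t) = 0 := Prod.ext e1 e2
          rcases le_or_gt ‖t‖ 1 with ht | ht
          · obtain ⟨i, hi, x, hx⟩ := hn f ⟨(f, t), ⟨by simpa using ht, e3⟩, rfl⟩
            rw [hf i hi] at hx
            exact Sum.inr_ne_inl hx
          · rw [hT.triv f t ht.le] at e3
            exact D7_e0 hj (congrArg Prod.fst e3)
        · have h3 := hC (f, t)
          rw [Prod.norm_def] at h3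
          rw [Prod.norm_def, Prod.norm_def]
          have hC0 : 0 ≤ C := (norm_nonneg _).trans (hC (f, t))
          refine max_le ((le_max_left _ _).trans h3) (max_le ((le_max_right _ _).trans h3) ?_)
          show ‖s - s‖ ≤ C
          rw [sub_self, norm_zero]
          exact hC0
    · obtain ⟨n, hn⟩ := D7_fin K A hT.closed hinf
      refine ⟨n, fun l => ⟨fun p => (e0 j, p.2.1, p.2.2), ?_, 0, ?_⟩⟩
      · exact continuous_const.prodMk ((continuous_fst.comp continuous_snd).prodMk
          (continuous_snd.comp continuous_snd))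
      · intro f hf t s
        refine ⟨?_, ?_, fun hA => ?_⟩
        · intro h0
          exact D7_e0 hj (congrArg Prod.fst h0)
        · show ‖((e0 j, t, s) : (Fin j → ℝ) × (Fin k → ℝ) × (Fin l → ℝ)) - (e0 j, t, s)‖ ≤ 0
          rw [sub_self, norm_zero]
        · obtain ⟨i, hi, x, hx⟩ := hn f hA
          rw [hf i hi] at hx
          exact absurd hx Sum.inr_ne_inl
  obtain ⟨n, hn⟩ := hbase
  set l := (Finset.range n).sup l₀ with hl
  have hle : ∀ i, i < n → l₀ i ≤ l := fun i hi => Finset.le_sup (Finset.mem_range.2 hi)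
  obtain ⟨Ψ, hΨc, C0, hΨ⟩ := hn l
  have hsol : ∀ i, ∃ Φ : K i × (Fin k → ℝ) × (Fin l → ℝ) →
      (Fin j → ℝ) × (Fin k → ℝ) × (Fin l → ℝ), i < n → Continuous Φ ∧ (∀ p, Φ p ≠ 0) ∧
        (∃ C : ℝ, ∀ x t s, ‖Φ (x, t, s) - (e0 j, t, s)‖ ≤ C) ∧
        ∀ x t s, D7e K i x ∈ A →
          Φ (x, t, s) = ((φ (D7e K i x, t)).1, (φ (D7e K i x, t)).2, s) := by
    intro i
    by_cases hi : i < n
    · obtain ⟨Φ, h1, h2, h3, h4⟩ := hl₀ i l (hle i hi)
      exact ⟨Φ, fun _ => ⟨h1, h2, h3, h4⟩⟩
    · exact ⟨fun _ => 0, fun h => absurd h hi⟩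
  choose Φ hΦ using hsol
  obtain ⟨Θ, hΘc, hΘ1, hΘ2⟩ := D7_many K Ψ hΨc n Φ fun i hi => (hΦ i hi).1
  have hCi : ∀ i, ∃ C : ℝ, i < n → ∀ x t s, ‖Φ i (x, t, s) - (e0 j, t, s)‖ ≤ C := by
    intro i
    by_cases hi : i < n
    · obtain ⟨C, hC⟩ := (hΦ i hi).2.2.1
      exact ⟨C, fun _ => hC⟩
    · exact ⟨0, fun h => absurd h hi⟩
  choose Cc hCc using hCi
  have hcase : ∀ f : D7X K, (∀ i, i < n → f.1 i = Sum.inr ()) ∨ ∃ i, i < n ∧ ∃ x, f.1 i = Sum.inl x := by
    intro f
    by_cases h : ∀ i, i < n → f.1 i = Sum.inr ()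
    · exact Or.inl h
    · push Not at h
      obtain ⟨i, hi, hfi⟩ := h
      refine Or.inr ⟨i, hi, ?_⟩
      rcases hx : f.1 i with x | x
      · exact ⟨x, rfl⟩
      · exact absurd hx hfi
  refine ⟨l, Θ, hΘc, ?_, ⟨max C0 (∑ i ∈ Finset.range n, |Cc i|), ?_⟩, ?_⟩
  · rintro ⟨f, t, s⟩
    rcases hcase f with h | ⟨i, hi, x, hx⟩
    · rw [hΘ1 f (t, s) h]
      exact (hΨ f h t s).1
    · rw [hΘ2 f (t, s) i hi x hx]
      exact (hΦ i hi).2.1 _
  · intro f t s
    rcases hcase f with h | ⟨i, hi, x, hx⟩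
    · rw [hΘ1 f (t, s) h]
      exact (hΨ f h t s).2.1.trans (le_max_left _ _)
    · rw [hΘ2 f (t, s) i hi x hx]
      refine (hCc i hi x t s).trans (((le_abs_self _).trans ?_).trans (le_max_right _ _))
      exact Finset.single_le_sum (f := fun i => |Cc i|) (fun i _ => abs_nonneg _)
        (Finset.mem_range.2 hi)
  · intro f t s hf
    rcases hcase f with h | ⟨i, hi, x, hx⟩
    · rw [hΘ1 f (t, s) h]
      exact (hΨ f h t s).2.2 hf
    · rw [hΘ2 f (t, s) i hi x hx]
      have he := D7e_eq K i f x hx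
      have := (hΦ i hi).2.2.2 x t s (by rw [he]; exact hf)
      rw [he] at this
      exact this

/-- The one point compactification of a disjoint union.

PROOF.  `X = {f : ∀ i, K i ⊕ Unit // ∀ i i', i ≠ i' → f i = inr () ∨ f i' = inr ()}`, a closed subspace
of a countable product of compact metrizable spaces (`K i ⊕ Unit` is compact, T2, second
countable), so compact metrizable (`TopologicalSpace.metrizableSpace_of_t3_secondCountable`,
`TopologicalSpace.metrizableSpaceMetric`).  `e i x` = the point with coordinate `inl x` at `i` and `inr ()`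
elsewhere; its range `{f | f i ≠ inr ()}` is clopen; `∞` = all coordinates `inr ()`; the
complement of `⋃ i < n, range (e i)` is a basis of neighbourhoods of `∞`.  (Any other model is fine.)
`TB X`: let `A, φ` be a task.  If `∞ ∉ A` there is `n` with `A ⊆ ⋃ i < n, range (e i)` (compactness).
If `∞ ∈ A` then `φ` has no zeros on `({∞} ∪ ⋃ i ≥ n, range (e i)) × (Fin k → ℝ)` for some `n`: zeros
only occur for `‖t‖ ≤ 1`, tube lemma.  Let `Φ_i`, `i < n`, be the solutions on `K i` of the
tasks `(e i ⁻¹' A, φ ∘ (e i × id))`, all with the same `l` (`solved_add`).  The solution on `X` is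
`Φ_i` on the clopen set `range (e i)`, `i < n`, and on the remaining clopen set `(e0, t, s)` in the first
case and `(φ (x, t), s)` in the second case.
Maps: given `q : C(K i, Y)`, the map which is `q` on `range (e i)` and constant elsewhere
is continuous; if it is null-homotopic then so is its composition `q` with `e i`. -/
theorem exists_union (K : ℕ → Type) [∀ i, MetricSpace (K i)] [∀ i, CompactSpace (K i)]
    (hK : ∀ i, TB (K i)) :
    ∃ (X : Type) (_ : MetricSpace X) (_ : CompactSpace X), TB X ∧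
      ∀ (i : ℕ) (Y : Type) [TopologicalSpace Y] [Nonempty Y] (q : C(K i, Y)), ¬ q.Nullhomotopic →
        ∃ q' : C(X, Y), ¬ q'.Nullhomotopic := by
  have hsc : SecondCountableTopology (∀ i, K i ⊕ Unit) := by
    have hsc : ∀ i, SecondCountableTopology (K i ⊕ Unit) := fun i => inferInstance
    infer_instance
  have hsc2 : SecondCountableTopology (D7X K) := TopologicalSpace.Subtype.secondCountableTopology _
  have hm : TopologicalSpace.MetrizableSpace (D7X K) :=
    TopologicalSpace.metrizableSpace_of_t3_secondCountable _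
  refine ⟨D7X K, TopologicalSpace.metrizableSpaceMetric (D7X K), D7_compact K, D7_TB K hK, ?_⟩
  intro i Y _ _ q hq
  let y0 : Y := Classical.arbitrary Y
  have hcont : Continuous fun f : D7X K => Sum.elim (fun x => q x) (fun _ => y0) (f.1 i) := by
    have h1 : Continuous (Sum.elim (fun x => q x) (fun _ : Unit => y0)) :=
      Continuous.sumElim q.continuous continuous_const
    exact h1.comp ((continuous_apply i).comp continuous_subtype_val)
  refine ⟨⟨_, hcont⟩, fun hnull => hq ?_⟩
  have h2 := ContinuousMap.Nullhomotopic.comp_left hnull ⟨D7e K i, D7e_cont K i⟩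
  have h3 : q = (⟨_, hcont⟩ : C(D7X K, Y)).comp ⟨D7e K i, D7e_cont K i⟩ := by
    ext x
    show q x = Sum.elim (fun x => q x) (fun _ => y0) ((D7e K i x).1 i)
    have : (D7e K i x).1 i = Sum.inl x := by
      show Function.update (fun _ => Sum.inr ()) i (Sum.inl x) i = Sum.inl x
      simp
    rw [this]
    rfl
  rw [h3]
  exact h2

end MM
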