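import Pool.Agent.Lib_MP_33f7bb_d.C8
import Pool.Agent.Lib_MP_33f7bb_d.D5
import Pool.Agent.Lib_MP_33f7bb_d.D6
import Pool.Agent.Lib_MP_33f7bb_d.D7
import Pool.Agent.Lib_MP_33f7bb_an.MAIN

/-!
# D8: assembly of the negative answer to Q1 (modulo the targets, `WW_good`, small simplices)
-/

open Set Filter Topology

namespace MM

open SMD

theorem exists_infinite_dim
    (hT : ∀ N : ℕ, 1 ≤ N → ∃ (Y : SS) (_ : ∀ n, TopologicalSpace (Y.S n)) (_ : IsTarget Y)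
      (κ : Hom (Sing (Sph N)) Y), ¬ Null κ)
    (hW : ∀ (Y : SS) [∀ n, TopologicalSpace (Y.S n)], IsTarget Y →
      ∀ (j : ℕ) (hj : 1 ≤ j), 3 ≤ j → Good Y (Sub.pt (WW0 j hj)) (⊤ : Sub (WW j)))
    (hS : ∀ (X : Type) [MetricSpace X] [CompactSpace X] (X₁ X₂ : Set X),
      interior X₁ ∪ interior X₂ = Set.univ → Acyc (SingIn X₁ ⊔ SingIn X₂) (⊤ : Sub (Sing X))) :
    ∃ (X : Type) (_ : MetricSpace X) (_ : CompactSpace X), StableDimLE X 2 ∧
      ∀ n, ¬ CovDimLE X n := by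
  have h1 : ∀ i : ℕ, ∃ (K : Type) (_ : MetricSpace K) (_ : CompactSpace K)
      (q : C(K, Sph (i + 1))), ¬ q.Nullhomotopic ∧ TB K := by
    intro i
    obtain ⟨Y, i1, hY, κ, hκ⟩ := hT (i + 1) (by omega)
    exact exists_compactum hY κ hκ (fun j hj hj' => hW Y hY j hj hj') hS
  choose K i1 i2 q hq hK using h1
  obtain ⟨X, j1, j2, hX, hX'⟩ := exists_union K hK
  refine ⟨X, j1, j2, stableDimLE_of_TB hX, fun n hn => ?_⟩
  have hne : Nonempty (Sph (n + 1)) := by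
    have : Nontrivial (EuclideanSpace ℝ (Fin (n + 1 + 1))) := inferInstance
    exact (NormedSpace.sphere_nonempty (x := (0 : EuclideanSpace ℝ (Fin (n + 1 + 1))))
      (r := 1)).2 zero_le_one |>.to_subtype
  obtain ⟨q', hq'⟩ := hX' n (Sph (n + 1)) (q n) (hq n)
  exact hq' (nullhomotopic_of_covDim hn (Nat.lt_succ_self n) q')

/-- the negative answer to Q1, modulo the three hypotheses -/
theorem not_Q1_of
    (hT : ∀ N : ℕ, 1 ≤ N → ∃ (Y : SS) (_ : ∀ n, TopologicalSpace (Y.S n)) (_ : IsTarget Y)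
      (κ : Hom (Sing (Sph N)) Y), ¬ Null κ)
    (hW : ∀ (Y : SS) [∀ n, TopologicalSpace (Y.S n)], IsTarget Y →
      ∀ (j : ℕ) (hj : 1 ≤ j), 3 ≤ j → Good Y (Sub.pt (WW0 j hj)) (⊤ : Sub (WW j)))
    (hS : ∀ (X : Type) [MetricSpace X] [CompactSpace X] (X₁ X₂ : Set X),
      interior X₁ ∪ interior X₂ = Set.univ → Acyc (SingIn X₁ ⊔ SingIn X₂) (⊤ : Sub (Sing X))) :
    ¬ SMD.Q1 := by
  obtain ⟨X, i1, i2, h1, h2⟩ := exists_infinite_dim hT hW hS
  exact SMD.not_Q1 h1 h2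

end MM
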