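import Pool.Agent.Lib_MP_33f7bb_d.D8
import Pool.Agent.Lib_MP_33f7bb_d.TopIF

/-!
# D9: the parts C and D in the form of `TopIF`
-/

open Set Filter Topology

namespace MM

/-- small simplices: two sets whose interiors cover -/
def SmallSimp : Prop :=
  ∀ (X : Type) [MetricSpace X] [CompactSpace X] (X₁ X₂ : Set X),
    interior X₁ ∪ interior X₂ = Set.univ → Acyc (SingIn X₁ ⊔ SingIn X₂) (⊤ : Sub (Sing X))

/-- part C, modulo small simplices -/
theorem existsCompactum_of (hS : SmallSimp) (hT : ExistsTarget) (hW : WWGood) :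
    ExistsCompactum := by
  intro N hN
  obtain ⟨Y, τ, hY, κ, hκ⟩ := hT N hN
  obtain ⟨K, i1, i2, q, hq, hK⟩ := exists_compactum hY κ hκ
    (fun j hj hj' => hW Y τ hY j hj') (fun X _ _ => hS X)
  exact ⟨K, i1, i2, q, hq, hK⟩

/-- part D -/
theorem finalGoal (h : ExistsCompactum) : FinalGoal := by
  have h1 : ∀ i : ℕ, ∃ (K : Type) (_ : MetricSpace K) (_ : CompactSpace K)
      (q : C(K, Sph (i + 1))), ¬ q.Nullhomotopic ∧ TB K := fun i => h (i + 1) (by omega)
  choose K i1 i2 q hq hK using h1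
  obtain ⟨X, j1, j2, hX, hX'⟩ := exists_union K hK
  refine ⟨X, j1, j2, stableDimLE_of_TB hX, fun n hn => ?_⟩
  have hne : Nonempty (Sph (n + 1)) :=
    ((NormedSpace.sphere_nonempty (x := (0 : EuclideanSpace ℝ (Fin (n + 1 + 1))))
      (r := 1)).2 zero_le_one).to_subtype
  obtain ⟨q', hq'⟩ := hX' n (Sph (n + 1)) (q n) (hq n)
  exact hq' (nullhomotopic_of_covDim hn (Nat.lt_succ_self n) q')

end MM
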