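import Pool.Agent.Lib_MP_33f7bb_d.A001

/-!
# Simplicial vector spaces from faces and degeneracies (piece GenSV)

Generators and relations for simplicial objects.  `GenA C`: an augmented simplicial object of the category `C`, given by
the faces, the degeneracies and the simplicial identities; `A k` is the value on the ordinal with `k` elements
`{0, …, k - 1}`.  `GenA.act`: the action of all monotone maps `f : Fin m →o Fin n`, by recursion:
(a) if `0` is not in the image of `f`, then `f = δ₀ f'`;  (c) if `f 0 = 0` and `f i ≠ 0` for `i > 0`, then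
`f = 1 + f'`, the action of `f'` on the shifted object `Dec`;  (b) otherwise `f 0 = f 1 = 0`, `f = (f δ₀) σ₀`.


For users: `GenSV` (faces, degeneracies, identities pointwise), `GenSV.sv : SV` with `sv_V` (`rfl`), `sv_dlt`, `sv_sgm`, `sv_d`;
`nat_of_gen`, `SVHom.ofGen`, `SVHom.ofGen'`: levelwise linear maps commuting with faces and degeneracies are simplicial;
`mo_induction`: induction over cofaces, codegeneracies, composites; the same for simplicial sets (`GenSS`).
For a cosimplicial object `s ↦ V s` with cofaces `d^i`, codegeneracies `s^j` and a contravariant functor `T` put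
`face n i = T (d^i)`, `deg n j = T (s^j)`.
-/

set_option autoImplicit false

open CategoryTheory

namespace MM

universe v u

/-! ## Augmented simplicial objects given by generators -/

/-- augmented simplicial objects given by faces and degeneracies -/
structure GenA (C : Type u) [Category.{v} C] where
  A : ℕ → C
  face : ∀ k, Fin (k + 1) → (A (k + 1) ⟶ A k)
  deg : ∀ k, Fin k → (A k ⟶ A (k + 1))
  ff : ∀ k (i j : Fin (k + 1)), i ≤ j →
    face (k + 1) j.succ ≫ face k i = face (k + 1) i.castSucc ≫ face k j
  dd : ∀ k (i j : Fin k), i ≤ j → deg k j ≫ deg (k + 1) i.castSucc = deg k i ≫ deg (k + 1) j.succ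
  df1 : ∀ k (i : Fin (k + 1)) (j : Fin k), i ≤ j.castSucc →
    deg (k + 1) j.succ ≫ face (k + 1) i.castSucc = face k i ≫ deg k j
  df2 : ∀ k (j : Fin k), deg k j ≫ face k j.castSucc = 𝟙 (A k)
  df3 : ∀ k (j : Fin k), deg k j ≫ face k j.succ = 𝟙 (A k)
  df4 : ∀ k (i : Fin (k + 1)) (j : Fin k), j.castSucc < i →
    deg (k + 1) j.castSucc ≫ face (k + 1) i.succ = face k i ≫ deg k j

namespace GenA

variable {C : Type u} [Category.{v} C]

/-- shift -/
def Dec (A : GenA C) : GenA C where
  A k := A.A (k + 1)
  face k i := A.face (k + 1) i.succ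
  deg k i := A.deg (k + 1) i.succ
  ff k i j h := by
    have := A.ff (k + 1) i.succ j.succ (Fin.succ_le_succ_iff.2 h)
    rw [Fin.succ_castSucc]
    exact this
  dd k i j h := by
    have := A.dd (k + 1) i.succ j.succ (Fin.succ_le_succ_iff.2 h)
    rw [Fin.succ_castSucc]
    exact this
  df1 k i j h := by
    have := A.df1 (k + 1) i.succ j.succ (by rw [← Fin.succ_castSucc]; exact Fin.succ_le_succ_iff.2 h)
    rw [Fin.succ_castSucc]
    exact this
  df2 k j := by
    have := A.df2 (k + 1) j.succ
    rw [Fin.succ_castSucc]
    exact this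
  df3 k j := A.df3 (k + 1) j.succ
  df4 k i j h := by
    have := A.df4 (k + 1) i.succ j.succ (by rw [← Fin.succ_castSucc]; exact Fin.succ_lt_succ_iff.2 h)
    rw [Fin.succ_castSucc]
    exact this

/-- `f = δ₀ f'` -/
def pa {m n : ℕ} (f : Fin m →o Fin (n + 1)) (h : ∀ i, f i ≠ 0) : Fin m →o Fin n :=
  ⟨fun i => (f i).pred (h i), fun _ _ hij => Fin.pred_le_pred_iff.2 (f.monotone hij)⟩

/-- `f = 1 + f'` -/
def pc {m n : ℕ} (f : Fin (m + 1) →o Fin (n + 1)) (h : ∀ i : Fin m, f i.succ ≠ 0) : Fin m →o Fin n :=
  ⟨fun i => (f i.succ).pred (h i), fun _ _ hij =>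
    Fin.pred_le_pred_iff.2 (f.monotone (Fin.succ_le_succ_iff.2 hij))⟩

/-- restriction to the positive elements -/
def tl {m n : ℕ} (f : Fin (m + 1) →o Fin n) : Fin m →o Fin n :=
  ⟨fun i => f i.succ, fun _ _ hij => f.monotone (Fin.succ_le_succ_iff.2 hij)⟩

open scoped Classical in
/-- the action of all monotone maps -/
noncomputable def act : ∀ (n m : ℕ) (A : GenA C), (Fin m →o Fin n) → (A.A n ⟶ A.A m)
  | 0, 0, A, _ => 𝟙 (A.A 0)
  | 0, _ + 1, _, f => (f 0).elim0
  | n + 1, 0, A, f => A.face n 0 ≫ act n 0 A (pa f (fun i => i.elim0))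
  | n + 1, m + 1, A, f =>
    if ha : ∀ i, f i ≠ 0 then A.face n 0 ≫ act n (m + 1) A (pa f ha)
    else if hc : ∀ i : Fin m, f i.succ ≠ 0 then act n m A.Dec (pc f hc)
    else act (n + 1) m A (tl f) ≫ A.deg m ⟨0, by
      push Not at hc
      obtain ⟨i, -⟩ := hc
      exact i.pos⟩
  termination_by n m => n + m

theorem act_zero (A : GenA C) (f : Fin 0 →o Fin 0) : act 0 0 A f = 𝟙 (A.A 0) := by
  rw [act]

theorem act_a (A : GenA C) {n m : ℕ} (f : Fin m →o Fin (n + 1)) (h : ∀ i, f i ≠ 0) :
    act (n + 1) m A f = A.face n 0 ≫ act n m A (pa f h) := by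
  cases m with
  | zero => rw [act]
  | succ m => rw [act, dif_pos h]

theorem act_c (A : GenA C) {n m : ℕ} (f : Fin (m + 1) →o Fin (n + 1)) (h0 : f 0 = 0)
    (h : ∀ i : Fin m, f i.succ ≠ 0) : act (n + 1) (m + 1) A f = act n m A.Dec (pc f h) := by
  rw [act, dif_neg (fun h' => h' 0 h0), dif_pos h]

theorem act_b (A : GenA C) {n m : ℕ} (f : Fin (m + 2) →o Fin (n + 1)) (h0 : f 0 = 0)
    (h1 : f 1 = 0) : act (n + 1) (m + 2) A f = act (n + 1) (m + 1) A (tl f) ≫ A.deg (m + 1) 0 := by
  rw [act, dif_neg (fun h' => h' 0 h0), dif_neg (fun h' => h' 0 h1)]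
  rfl

/-! ## Naturality -/

/-- maps of augmented simplicial objects -/
structure Hm (A B : GenA C) where
  app : ∀ k, A.A k ⟶ B.A k
  face : ∀ k i, A.face k i ≫ app k = app (k + 1) ≫ B.face k i
  deg : ∀ k i, A.deg k i ≫ app (k + 1) = app k ≫ B.deg k i

/-- shift of a map -/
def Hm.Dec {A B : GenA C} (φ : Hm A B) : Hm A.Dec B.Dec where
  app k := φ.app (k + 1)
  face k i := φ.face (k + 1) i.succ
  deg k i := φ.deg (k + 1) i.succ

/-- the zeroth face -/
def d0 (A : GenA C) : Hm A.Dec A where
  app k := A.face k 0
  face k i := A.ff k 0 i (Fin.zero_le _)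
  deg k i := A.df1 k 0 i (Fin.zero_le _)

theorem act_nat : ∀ (N n m : ℕ), n + m ≤ N → ∀ (A B : GenA C) (φ : Hm A B) (f : Fin m →o Fin n),
    act n m A f ≫ φ.app m = φ.app n ≫ act n m B f := by
  intro N
  induction N with
  | zero =>
    intro n m h A B φ f
    obtain ⟨rfl, rfl⟩ : n = 0 ∧ m = 0 := by omega
    rw [act_zero, act_zero, Category.id_comp, Category.comp_id]
  | succ N ih =>
    intro n m h A B φ f
    cases n with
    | zero =>
      cases m with
      | zero => rw [act_zero, act_zero, Category.id_comp, Category.comp_id]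
      | succ m => exact (f 0).elim0
    | succ n =>
      by_cases ha : ∀ i, f i ≠ 0
      · rw [act_a A f ha, act_a B f ha, Category.assoc, ih n m (by omega) A B φ, ← Category.assoc,
          φ.face, Category.assoc]
      · cases m with
        | zero => exact (ha fun i => i.elim0).elim
        | succ m =>
          have h0 : f 0 = 0 := by
            push Not at ha
            obtain ⟨i, hi⟩ := ha
            exact le_antisymm (hi ▸ f.monotone (Fin.zero_le i)) (Fin.zero_le _)
          by_cases hc : ∀ i : Fin m, f i.succ ≠ 0
          · rw [act_c A f h0 hc, act_c B f h0 hc]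
            exact ih n m (by omega) A.Dec B.Dec φ.Dec _
          · cases m with
            | zero => exact (hc fun i => i.elim0).elim
            | succ m =>
              have h1 : f 1 = 0 := by
                push Not at hc
                obtain ⟨i, hi⟩ := hc
                refine le_antisymm (hi ▸ f.monotone ?_) (Fin.zero_le _)
                rw [← Fin.succ_zero_eq_one]
                exact Fin.succ_le_succ_iff.2 (Fin.zero_le i)
              rw [act_b A f h0 h1, act_b B f h0 h1, Category.assoc, φ.deg, ← Category.assoc,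
                ih (n + 1) (m + 1) (by omega) A B φ, Category.assoc]

/-! ## Compatibility with the generators -/

/-- cofaces -/
def dl {m : ℕ} (i : Fin (m + 1)) : Fin m →o Fin (m + 1) := (Fin.succAboveOrderEmb i).toOrderHom

/-- codegeneracies -/
def sg {m : ℕ} (i : Fin m) : Fin (m + 1) →o Fin m := ⟨Fin.predAbove i, Fin.predAbove_right_monotone i⟩

theorem dl_apply {m : ℕ} (i : Fin (m + 1)) (x : Fin m) : dl i x = i.succAbove x := rfl

theorem sg_apply {m : ℕ} (i : Fin m) (x : Fin (m + 1)) : sg i x = i.predAbove x := rfl

private theorem case0 {m n : ℕ} (f : Fin (m + 1) →o Fin (n + 1)) (ha : ¬ ∀ i, f i ≠ 0) : f 0 = 0 := by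
  push Not at ha
  obtain ⟨i, hi⟩ := ha
  exact le_antisymm (hi ▸ f.monotone (Fin.zero_le i)) (Fin.zero_le _)

private theorem case1 {m n : ℕ} (f : Fin (m + 2) →o Fin (n + 1)) (hc : ¬ ∀ i : Fin (m + 1), f i.succ ≠ 0) :
    f 1 = 0 := by
  push Not at hc
  obtain ⟨i, hi⟩ := hc
  refine le_antisymm (hi ▸ f.monotone ?_) (Fin.zero_le _)
  rw [← Fin.succ_zero_eq_one]
  exact Fin.succ_le_succ_iff.2 (Fin.zero_le i)

theorem act_dl : ∀ (N n m : ℕ), n + m ≤ N → ∀ (A : GenA C) (f : Fin (m + 1) →o Fin n) (i : Fin (m + 1)),
    act n m A (f.comp (dl i)) = act n (m + 1) A f ≫ A.face m i := by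
  intro N
  induction N with
  | zero =>
    intro n m h A f i
    obtain ⟨rfl, rfl⟩ : n = 0 ∧ m = 0 := by omega
    exact (f 0).elim0
  | succ N ih =>
    intro n m h A f i
    cases n with
    | zero => exact (f 0).elim0
    | succ n =>
      by_cases ha : ∀ i, f i ≠ 0
      · rw [act_a A f ha, act_a A (f.comp (dl i)) (fun j => ha _), Category.assoc,
          ← ih n m (by omega) A (pa f ha) i]
        rfl
      · have h0 := case0 f ha
        by_cases hc : ∀ i : Fin m, f i.succ ≠ 0
        · rw [act_c A f h0 hc]
          by_cases hi : i = 0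
          · subst hi
            have h1 : ∀ j, f.comp (dl 0) j ≠ 0 := fun j => by
              rw [OrderHom.comp_coe, Function.comp_apply, dl_apply, Fin.zero_succAbove]
              exact hc j
            rw [act_a A (f.comp (dl 0)) h1]
            have h2 := act_nat _ n m le_rfl A.Dec A (d0 A) (pc f hc)
            exact h2.symm
          · obtain ⟨i, rfl⟩ := Fin.exists_succ_eq.2 hi
            cases m with
            | zero => exact i.elim0
            | succ m =>
              have h1 : (f.comp (dl i.succ)) 0 = 0 := by
                rw [OrderHom.comp_coe, Function.comp_apply, dl_apply, Fin.succ_succAbove_zero]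
                exact h0
              have h2 : ∀ j : Fin m, (f.comp (dl i.succ)) j.succ ≠ 0 := fun j => by
                rw [OrderHom.comp_coe, Function.comp_apply, dl_apply, Fin.succ_succAbove_succ]
                exact hc _
              rw [act_c A _ h1 h2]
              have h3 := ih n m (by omega) A.Dec (pc f hc) i
              have h4 : pc (f.comp (dl i.succ)) h2 = (pc f hc).comp (dl i) := by
                apply OrderHom.ext
                funext j
                apply Fin.ext
                show (f ((dl i.succ) j.succ)).val - 1 = (f ((dl i) j).succ).val - 1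
                rw [dl_apply, dl_apply, Fin.succ_succAbove_succ]
              rw [h4]
              exact h3
        · cases m with
          | zero => exact (hc fun i => i.elim0).elim
          | succ m =>
            have h1 := case1 f hc
            rw [act_b A f h0 h1, Category.assoc]
            by_cases hi : i = 0
            · subst hi
              have h2 := A.df2 (m + 1) 0
              rw [Fin.castSucc_zero] at h2
              rw [h2, Category.comp_id]
              congr 1
            · by_cases hi1 : i = 1
              · subst hi1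
                have h2 := A.df3 (m + 1) 0
                rw [Fin.succ_zero_eq_one] at h2
                rw [h2, Category.comp_id]
                congr 1
                apply OrderHom.ext
                funext j
                show f ((dl 1) j) = f j.succ
                rw [dl_apply]
                refine Fin.cases ?_ (fun j => ?_) j
                · rw [← Fin.succ_zero_eq_one, Fin.succ_succAbove_zero, h0]
                  rw [Fin.succ_zero_eq_one, h1]
                · rw [← Fin.succ_zero_eq_one, Fin.succ_succAbove_succ, Fin.zero_succAbove]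
              · obtain ⟨i, rfl⟩ := Fin.exists_succ_eq.2 hi
                have hi2 : i ≠ 0 := by
                  rintro rfl
                  exact hi1 Fin.succ_zero_eq_one
                cases m with
                | zero => exact (hi2 (Subsingleton.elim (α := Fin 1) _ _)).elim
                | succ m =>
                obtain ⟨i, rfl⟩ := Fin.exists_succ_eq.2 hi2
                have h2 : (f.comp (dl i.succ.succ)) 0 = 0 := by
                  rw [OrderHom.comp_coe, Function.comp_apply, dl_apply, Fin.succ_succAbove_zero]
                  exact h0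
                have h3 : (f.comp (dl i.succ.succ)) 1 = 0 := by
                  rw [OrderHom.comp_coe, Function.comp_apply, dl_apply]
                  have : (i.succ.succ).succAbove 1 = 1 := by
                    rw [← Fin.succ_zero_eq_one, Fin.succ_succAbove_succ, Fin.succ_succAbove_zero]
                    rfl
                  rw [this]
                  exact h1
                rw [act_b A _ h2 h3]
                have h4 : tl (f.comp (dl i.succ.succ)) = (tl f).comp (dl i.succ) := by
                  apply OrderHom.ext
                  funext j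
                  show f ((dl i.succ.succ) j.succ) = f ((dl i.succ) j).succ
                  rw [dl_apply, dl_apply, Fin.succ_succAbove_succ]
                rw [h4, ih (n + 1) (m + 1) (by omega) A (tl f) i.succ, Category.assoc]
                have h5 := A.df4 (m + 1) i.succ 0 (by simp)
                rw [Fin.castSucc_zero] at h5
                rw [h5]

theorem act_sg : ∀ (N n m : ℕ), n + m ≤ N → ∀ (A : GenA C) (f : Fin m →o Fin n) (i : Fin m),
    act n (m + 1) A (f.comp (sg i)) = act n m A f ≫ A.deg m i := by
  intro N
  induction N with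
  | zero =>
    intro n m h A f i
    obtain ⟨rfl, rfl⟩ : n = 0 ∧ m = 0 := by omega
    exact i.elim0
  | succ N ih =>
    intro n m h A f i
    cases m with
    | zero => exact i.elim0
    | succ m =>
      cases n with
      | zero => exact (f 0).elim0
      | succ n =>
        by_cases ha : ∀ i, f i ≠ 0
        · rw [act_a A f ha, act_a A (f.comp (sg i)) (fun j => ha _), Category.assoc,
            ← ih n (m + 1) (by omega) A (pa f ha) i]
          rfl
        · have h0 := case0 f ha
          by_cases hi : i = 0
          · subst hi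
            have h1 : (f.comp (sg (0 : Fin (m + 1)))) 0 = 0 := h0
            have h2 : (f.comp (sg (0 : Fin (m + 1)))) 1 = 0 := by
              rw [OrderHom.comp_coe, Function.comp_apply, sg_apply]
              have : (0 : Fin (m + 1)).predAbove 1 = 0 := by
                rw [← Fin.succ_zero_eq_one, Fin.predAbove_succ_of_le _ _ le_rfl]
              rw [this]
              exact h0
            rw [act_b A _ h1 h2]
            have h3 : tl (f.comp (sg (0 : Fin (m + 1)))) = f := by
              apply OrderHom.ext
              funext j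
              show f ((sg 0) j.succ) = f j
              rw [sg_apply, Fin.predAbove_succ_of_le _ _ (Fin.zero_le j)]
            rw [h3]
          · obtain ⟨i, rfl⟩ := Fin.exists_succ_eq.2 hi
            have e1 : (f.comp (sg i.succ)) 0 = 0 := by
              rw [OrderHom.comp_coe, Function.comp_apply, sg_apply]
              have : (i.succ).predAbove 0 = 0 := by
                apply Fin.ext
                simp [Fin.predAbove]
              rw [this]
              exact h0
            have e2 : ∀ j, (f.comp (sg i.succ)) j.succ = f ((sg i) j).succ := fun j => by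
              rw [OrderHom.comp_coe, Function.comp_apply, sg_apply, Fin.succ_predAbove_succ]
              rfl
            by_cases hc : ∀ i : Fin m, f i.succ ≠ 0
            · rw [act_c A f h0 hc]
              have h2 : ∀ j : Fin (m + 1), (f.comp (sg i.succ)) j.succ ≠ 0 := fun j => by
                rw [e2]
                exact hc _
              rw [act_c A _ e1 h2]
              have h4 : pc (f.comp (sg i.succ)) h2 = (pc f hc).comp (sg i) := by
                apply OrderHom.ext
                funext j
                apply Fin.ext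
                show ((f.comp (sg i.succ)) j.succ).val - 1 = (f ((sg i) j).succ).val - 1
                rw [e2]
              rw [h4]
              exact ih n m (by omega) A.Dec (pc f hc) i
            · cases m with
              | zero => exact (hc fun i => i.elim0).elim
              | succ m =>
                have h1 := case1 f hc
                have e3 : (f.comp (sg i.succ)) 1 = 0 := by
                  rw [← Fin.succ_zero_eq_one, e2, sg_apply]
                  have : i.predAbove 0 = 0 := by
                    apply Fin.ext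
                    simp [Fin.predAbove]
                  rw [this, Fin.succ_zero_eq_one]
                  exact h1
                rw [act_b A f h0 h1, act_b A _ e1 e3]
                have h4 : tl (f.comp (sg i.succ)) = (tl f).comp (sg i) := by
                  apply OrderHom.ext
                  funext j
                  exact e2 j
                rw [h4, ih (n + 1) (m + 1) (by omega) A (tl f) i, Category.assoc, Category.assoc]
                have h5 := A.dd (m + 1) 0 i (Fin.zero_le _)
                rw [Fin.castSucc_zero] at h5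
                rw [h5]

theorem act_id : ∀ (n : ℕ) (A : GenA C), act n n A OrderHom.id = 𝟙 (A.A n) := by
  intro n
  induction n with
  | zero => intro A; exact act_zero A _
  | succ n ih =>
    intro A
    have h1 : ∀ j : Fin n, (OrderHom.id : Fin (n + 1) →o Fin (n + 1)) j.succ ≠ 0 := fun j =>
      Fin.succ_ne_zero j
    rw [act_c A _ rfl h1]
    exact ih A.Dec

end GenA

/-! ## Induction on monotone maps -/

/-- all monotone maps are composites of cofaces and codegeneracies -/
theorem mo_induction {P : ∀ m n : ℕ, Mo m n → Prop} (hid : ∀ n, P n n OrderHom.id)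
    (hd : ∀ n (i : Fin (n + 2)), P n (n + 1) (dlt i)) (hs : ∀ n (i : Fin (n + 1)), P (n + 1) n (sgm i))
    (hc : ∀ l m n (f : Mo m n) (g : Mo l m), P m n f → P l m g → P l n (f.comp g)) :
    ∀ (m n : ℕ) (f : Mo m n), P m n f := by
  have key : ∀ (N m n : ℕ), m + n ≤ N → ∀ f : Mo m n, P m n f := by
    intro N
    induction N with
    | zero =>
      intro m n h f
      obtain ⟨rfl, rfl⟩ : m = 0 ∧ n = 0 := by omega
      have : f = OrderHom.id := OrderHom.ext _ _ (funext fun x => Subsingleton.elim (α := Fin 1) _ _)
      rw [this]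
      exact hid 0
    | succ N ih =>
      intro m n h f
      by_cases hi : Function.Injective f
      · by_cases hj : Function.Surjective f
        · have hmn : m = n := by
            have h1 := Fintype.card_le_of_injective _ hi
            have h2 := Fintype.card_le_of_surjective _ hj
            simp only [Fintype.card_fin] at h1 h2
            omega
          subst hmn
          have hs : StrictMono f := f.monotone.strictMono_of_injective hi
          let e : Fin (m + 1) ≃o Fin (m + 1) := StrictMono.orderIsoOfSurjective f hs hj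
          have he : e = OrderIso.refl _ := Subsingleton.elim _ _
          have : f = OrderHom.id := by
            refine OrderHom.ext _ _ (funext fun x => ?_)
            have h1 : e x = x := by rw [he]; rfl
            exact h1
          rw [this]
          exact hid m
        · cases n with
          | zero => exact (hj fun y => ⟨0, Subsingleton.elim (α := Fin 1) _ _⟩).elim
          | succ n =>
            obtain ⟨i, g, rfl⟩ := exists_dlt f hj
            exact hc _ _ _ _ _ (hd n i) (ih m n (by omega) g)
      · cases m with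
        | zero => exact (hi fun x y _ => Subsingleton.elim (α := Fin 1) x y).elim
        | succ m =>
          obtain ⟨i, g, rfl⟩ := exists_sgm f hi
          exact hc _ _ _ _ _ (ih m n (by omega) g) (hs m i)
  exact fun m n f => key (m + n) m n le_rfl f

namespace GenA

variable {C : Type u} [Category.{v} C]

theorem act_comp (A : GenA C) {l m n : ℕ} (f : Mo m n) (g : Mo l m) :
    act (n + 1) (l + 1) A (f.comp g) = act (n + 1) (m + 1) A f ≫ act (m + 1) (l + 1) A g := by
  revert n f
  refine mo_induction (P := fun l m g => ∀ {n : ℕ} (f : Mo m n),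
    act (n + 1) (l + 1) A (f.comp g) = act (n + 1) (m + 1) A f ≫ act (m + 1) (l + 1) A g) ?_ ?_ ?_ ?_ l m g
  · intro m n f
    rw [act_id, Category.comp_id]
    rfl
  · intro m i n f
    have h1 := act_dl _ (m + 1 + 1) (m + 1) le_rfl A OrderHom.id i
    rw [act_id, Category.id_comp] at h1
    have h2 : act (m + 1 + 1) (m + 1) A (dlt i) = A.face (m + 1) i := h1
    rw [h2]
    exact act_dl _ (n + 1) (m + 1) le_rfl A f i
  · intro m i n f
    have h1 := act_sg _ (m + 1) (m + 1) le_rfl A OrderHom.id i
    rw [act_id, Category.id_comp] at h1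
    have h2 : act (m + 1) (m + 1 + 1) A (sgm i) = A.deg (m + 1) i := h1
    rw [h2]
    exact act_sg _ (n + 1) (m + 1) le_rfl A f i
  · intro l m k f g hf hg n h
    rw [hg f, ← Category.assoc, ← hf h]
    exact hg (h.comp f)

theorem act_dlt (A : GenA C) {n : ℕ} (i : Fin (n + 2)) :
    act (n + 1 + 1) (n + 1) A (dlt i) = A.face (n + 1) i := by
  have h1 := act_dl _ (n + 1 + 1) (n + 1) le_rfl A OrderHom.id i
  rw [act_id, Category.id_comp] at h1
  exact h1

theorem act_sgm (A : GenA C) {n : ℕ} (i : Fin (n + 1)) :
    act (n + 1) (n + 1 + 1) A (sgm i) = A.deg (n + 1) i := by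
  have h1 := act_sg _ (n + 1) (n + 1) le_rfl A OrderHom.id i
  rw [act_id, Category.id_comp] at h1
  exact h1

end GenA

/-! ## Simplicial vector spaces -/

/-- a simplicial vector space given by faces and degeneracies -/
structure GenSV where
  V : ℕ → Type
  [grp : ∀ n, AddCommGroup (V n)]
  [mod : ∀ n, Module (ZMod 2) (V n)]
  face : ∀ n, Fin (n + 2) → (V (n + 1) →ₗ[ZMod 2] V n)
  deg : ∀ n, Fin (n + 1) → (V n →ₗ[ZMod 2] V (n + 1))
  ff : ∀ n (i j : Fin (n + 2)), i ≤ j → ∀ x,
    face n i (face (n + 1) j.succ x) = face n j (face (n + 1) i.castSucc x)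
  dd : ∀ n (i j : Fin (n + 1)), i ≤ j → ∀ x,
    deg (n + 1) i.castSucc (deg n j x) = deg (n + 1) j.succ (deg n i x)
  df1 : ∀ n (i : Fin (n + 2)) (j : Fin (n + 1)), i ≤ j.castSucc → ∀ x,
    face (n + 1) i.castSucc (deg (n + 1) j.succ x) = deg n j (face n i x)
  df2 : ∀ n (j : Fin (n + 1)) x, face n j.castSucc (deg n j x) = x
  df3 : ∀ n (j : Fin (n + 1)) x, face n j.succ (deg n j x) = x
  df4 : ∀ n (i : Fin (n + 2)) (j : Fin (n + 1)), j.castSucc < i → ∀ x,
    face (n + 1) i.succ (deg (n + 1) j.castSucc x) = deg n j (face n i x)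

attribute [instance] GenSV.grp GenSV.mod

namespace GenSV

/-- the augmented object with the value `0` at the empty ordinal -/
noncomputable def toA (G : GenSV) : GenA (ModuleCat.{0} (ZMod 2)) where
  A k := match k with
    | 0 => ModuleCat.of (ZMod 2) PUnit
    | k + 1 => ModuleCat.of (ZMod 2) (G.V k)
  face k := match k with
    | 0 => fun _ => 0
    | k + 1 => fun i => ModuleCat.ofHom (G.face k i)
  deg k := match k with
    | 0 => fun i => i.elim0
    | k + 1 => fun i => ModuleCat.ofHom (G.deg k i)
  ff k i j h := by
    cases k with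
    | zero => rw [Subsingleton.elim (α := Fin 1) i 0, Subsingleton.elim (α := Fin 1) j 0]; simp
    | succ k =>
      apply ModuleCat.hom_ext
      apply LinearMap.ext
      intro x
      exact G.ff k i j h x
  dd k i j h := by
    cases k with
    | zero => exact i.elim0
    | succ k =>
      apply ModuleCat.hom_ext
      apply LinearMap.ext
      intro x
      exact G.dd k i j h x
  df1 k i j h := by
    cases k with
    | zero => exact j.elim0
    | succ k =>
      apply ModuleCat.hom_ext
      apply LinearMap.ext
      intro x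
      exact G.df1 k i j h x
  df2 k j := by
    cases k with
    | zero => exact j.elim0
    | succ k =>
      apply ModuleCat.hom_ext
      apply LinearMap.ext
      intro x
      exact G.df2 k j x
  df3 k j := by
    cases k with
    | zero => exact j.elim0
    | succ k =>
      apply ModuleCat.hom_ext
      apply LinearMap.ext
      intro x
      exact G.df3 k j x
  df4 k i j h := by
    cases k with
    | zero => exact j.elim0
    | succ k =>
      apply ModuleCat.hom_ext
      apply LinearMap.ext
      intro x
      exact G.df4 k i j h x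

/-- the simplicial vector space -/
noncomputable abbrev sv (G : GenSV) : SV where
  V := G.V
  act {m n} f := (GenA.act (n + 1) (m + 1) G.toA f).hom
  act_id {n} x := by
    rw [GenA.act_id]
    rfl
  act_comp f g x := by
    rw [GenA.act_comp]
    rfl

@[simp] theorem sv_V (G : GenSV) (n : ℕ) : G.sv.V n = G.V n := rfl

theorem sv_dlt (G : GenSV) {n : ℕ} (i : Fin (n + 2)) (x : G.V (n + 1)) :
    G.sv.act (dlt i : Mo n (n + 1)) x = G.face n i x := by
  show (GenA.act (n + 1 + 1) (n + 1) G.toA (dlt i)).hom x = _
  rw [GenA.act_dlt]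
  rfl

theorem sv_sgm (G : GenSV) {n : ℕ} (i : Fin (n + 1)) (x : G.V n) :
    G.sv.act (sgm i : Mo (n + 1) n) x = G.deg n i x := by
  show (GenA.act (n + 1) (n + 1 + 1) G.toA (sgm i)).hom x = _
  rw [GenA.act_sgm]
  rfl

/-- the differential -/
theorem sv_d (G : GenSV) (n : ℕ) (x : G.V (n + 1)) : G.sv.d n x = ∑ i, G.face n i x := by
  unfold SV.d
  rw [LinearMap.sum_apply]
  exact Finset.sum_congr rfl fun i _ => G.sv_dlt i x

end GenSV

/-- levelwise linear maps of simplicial vector spaces which commute with faces and degeneracies commute with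
everything -/
theorem nat_of_gen {A B : SV} (φ : ∀ n, A.V n →ₗ[ZMod 2] B.V n)
    (hf : ∀ n (i : Fin (n + 2)) x, φ n (A.act (dlt i : Mo n (n + 1)) x) = B.act (dlt i : Mo n (n + 1)) (φ (n + 1) x))
    (hd : ∀ n (i : Fin (n + 1)) x, φ (n + 1) (A.act (sgm i : Mo (n + 1) n) x) = B.act (sgm i : Mo (n + 1) n) (φ n x))
    {m n : ℕ} (f : Mo m n) (x : A.V n) : φ m (A.act f x) = B.act f (φ n x) := by
  revert x
  refine mo_induction (P := fun m n f => ∀ x : A.V n, φ m (A.act f x) = B.act f (φ n x)) ?_ ?_ ?_ ?_ m n f
  · intro n x
    rw [A.act_id, B.act_id]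
  · exact hf
  · exact hd
  · intro l m n f g h1 h2 x
    rw [← A.act_comp, ← B.act_comp, h2, h1]

/-- the simplicial map given by levelwise linear maps which commute with faces and degeneracies -/
def SVHom.ofGen {A B : SV} (φ : ∀ n, A.V n →ₗ[ZMod 2] B.V n)
    (hf : ∀ n (i : Fin (n + 2)) x, φ n (A.act (dlt i : Mo n (n + 1)) x) = B.act (dlt i : Mo n (n + 1)) (φ (n + 1) x))
    (hd : ∀ n (i : Fin (n + 1)) x, φ (n + 1) (A.act (sgm i : Mo (n + 1) n) x) = B.act (sgm i : Mo (n + 1) n) (φ n x)) :
    SVHom A B := ⟨φ, fun f x => nat_of_gen φ hf hd f x⟩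

/-- the same for maps of simplicial vector spaces given by generators -/
noncomputable def SVHom.ofGen' {G G' : GenSV} (φ : ∀ n, G.V n →ₗ[ZMod 2] G'.V n)
    (hf : ∀ n (i : Fin (n + 2)) x, φ n (G.face n i x) = G'.face n i (φ (n + 1) x))
    (hd : ∀ n (i : Fin (n + 1)) x, φ (n + 1) (G.deg n i x) = G'.deg n i (φ n x)) :
    SVHom G.sv G'.sv :=
  SVHom.ofGen (A := G.sv) (B := G'.sv) φ
    (fun n i x => by rw [G'.sv_dlt, ← hf]; exact congrArg (φ n) (G.sv_dlt i x))
    (fun n i x => by rw [G'.sv_sgm, ← hd]; exact congrArg (φ (n + 1)) (G.sv_sgm i x))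

/-! ## Cosimplicial vector spaces -/

/-- a cosimplicial vector space given by cofaces and codegeneracies -/
structure GenCV where
  V : ℕ → Type
  [grp : ∀ n, AddCommGroup (V n)]
  [mod : ∀ n, Module (ZMod 2) (V n)]
  cf : ∀ n, Fin (n + 2) → (V n →ₗ[ZMod 2] V (n + 1))
  cd : ∀ n, Fin (n + 1) → (V (n + 1) →ₗ[ZMod 2] V n)
  ff : ∀ n (i j : Fin (n + 2)), i ≤ j → ∀ x,
    cf (n + 1) j.succ (cf n i x) = cf (n + 1) i.castSucc (cf n j x)
  dd : ∀ n (i j : Fin (n + 1)), i ≤ j → ∀ x,
    cd n j (cd (n + 1) i.castSucc x) = cd n i (cd (n + 1) j.succ x)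
  df1 : ∀ n (i : Fin (n + 2)) (j : Fin (n + 1)), i ≤ j.castSucc → ∀ x,
    cd (n + 1) j.succ (cf (n + 1) i.castSucc x) = cf n i (cd n j x)
  df2 : ∀ n (j : Fin (n + 1)) x, cd n j (cf n j.castSucc x) = x
  df3 : ∀ n (j : Fin (n + 1)) x, cd n j (cf n j.succ x) = x
  df4 : ∀ n (i : Fin (n + 2)) (j : Fin (n + 1)), j.castSucc < i → ∀ x,
    cd (n + 1) j.castSucc (cf (n + 1) i.succ x) = cf n i (cd n j x)

attribute [instance] GenCV.grp GenCV.mod

namespace GenCV

/-- the augmented object (in the opposite category) with the value `0` at the empty ordinal -/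
noncomputable def toA (G : GenCV) : GenA (ModuleCat.{0} (ZMod 2))ᵒᵖ where
  A k := match k with
    | 0 => Opposite.op (ModuleCat.of (ZMod 2) PUnit)
    | k + 1 => Opposite.op (ModuleCat.of (ZMod 2) (G.V k))
  face k := match k with
    | 0 => fun _ => Quiver.Hom.op 0
    | k + 1 => fun i => (ModuleCat.ofHom (G.cf k i)).op
  deg k := match k with
    | 0 => fun i => i.elim0
    | k + 1 => fun i => (ModuleCat.ofHom (G.cd k i)).op
  ff k i j h := by
    cases k with
    | zero =>
      rw [Subsingleton.elim (α := Fin 1) i 0, Subsingleton.elim (α := Fin 1) j 0]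
      apply Quiver.Hom.unop_inj
      apply ModuleCat.hom_ext
      apply LinearMap.ext
      intro x
      show G.cf 0 _ (0 : G.V 0) = G.cf 0 _ (0 : G.V 0)
      rw [map_zero, map_zero]
    | succ k =>
      apply Quiver.Hom.unop_inj
      apply ModuleCat.hom_ext
      apply LinearMap.ext
      intro x
      exact G.ff k i j h x
  dd k i j h := by
    cases k with
    | zero => exact i.elim0
    | succ k =>
      apply Quiver.Hom.unop_inj
      apply ModuleCat.hom_ext
      apply LinearMap.ext
      intro x
      exact G.dd k i j h x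
  df1 k i j h := by
    cases k with
    | zero => exact j.elim0
    | succ k =>
      apply Quiver.Hom.unop_inj
      apply ModuleCat.hom_ext
      apply LinearMap.ext
      intro x
      exact G.df1 k i j h x
  df2 k j := by
    cases k with
    | zero => exact j.elim0
    | succ k =>
      apply Quiver.Hom.unop_inj
      apply ModuleCat.hom_ext
      apply LinearMap.ext
      intro x
      exact G.df2 k j x
  df3 k j := by
    cases k with
    | zero => exact j.elim0
    | succ k =>
      apply Quiver.Hom.unop_inj
      apply ModuleCat.hom_ext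
      apply LinearMap.ext
      intro x
      exact G.df3 k j x
  df4 k i j h := by
    cases k with
    | zero => exact j.elim0
    | succ k =>
      apply Quiver.Hom.unop_inj
      apply ModuleCat.hom_ext
      apply LinearMap.ext
      intro x
      exact G.df4 k i j h x

/-- the action of all monotone maps -/
noncomputable def act (G : GenCV) {m n : ℕ} (f : Mo m n) : G.V m →ₗ[ZMod 2] G.V n :=
  (GenA.act (n + 1) (m + 1) G.toA f).unop.hom

theorem act_id (G : GenCV) {n : ℕ} (x : G.V n) : G.act OrderHom.id x = x := by
  unfold act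
  rw [GenA.act_id]
  rfl

theorem act_comp (G : GenCV) {l m n : ℕ} (f : Mo l m) (g : Mo m n) (x : G.V l) :
    G.act g (G.act f x) = G.act (g.comp f) x := by
  unfold act
  rw [GenA.act_comp]
  rfl

theorem act_dlt (G : GenCV) {n : ℕ} (i : Fin (n + 2)) : G.act (dlt i : Mo n (n + 1)) = G.cf n i := by
  unfold act
  rw [GenA.act_dlt]
  rfl

theorem act_sgm (G : GenCV) {n : ℕ} (i : Fin (n + 1)) : G.act (sgm i : Mo (n + 1) n) = G.cd n i := by
  unfold act
  rw [GenA.act_sgm]
  rfl

/-- existence of the action -/
theorem exists_act (G : GenCV) : ∃ act : ∀ {m n : ℕ}, Mo m n → (G.V m →ₗ[ZMod 2] G.V n),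
    (∀ (n : ℕ) (x : G.V n), act OrderHom.id x = x) ∧
    (∀ {l m n : ℕ} (f : Mo l m) (g : Mo m n) (x : G.V l), act g (act f x) = act (g.comp f) x) ∧
    (∀ (n : ℕ) (i : Fin (n + 2)), act (dlt i : Mo n (n + 1)) = G.cf n i) ∧
    ∀ (n : ℕ) (i : Fin (n + 1)), act (sgm i : Mo (n + 1) n) = G.cd n i :=
  ⟨fun f => G.act f, fun _ x => G.act_id x, fun f g x => G.act_comp f g x, fun _ i => G.act_dlt i,
    fun _ i => G.act_sgm i⟩

end GenCV

/-! ## Simplicial sets -/

/-- a simplicial set given by faces and degeneracies -/
structure GenSS where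
  S : ℕ → Type
  face : ∀ n, Fin (n + 2) → S (n + 1) → S n
  deg : ∀ n, Fin (n + 1) → S n → S (n + 1)
  ff : ∀ n (i j : Fin (n + 2)), i ≤ j → ∀ x,
    face n i (face (n + 1) j.succ x) = face n j (face (n + 1) i.castSucc x)
  dd : ∀ n (i j : Fin (n + 1)), i ≤ j → ∀ x,
    deg (n + 1) i.castSucc (deg n j x) = deg (n + 1) j.succ (deg n i x)
  df1 : ∀ n (i : Fin (n + 2)) (j : Fin (n + 1)), i ≤ j.castSucc → ∀ x,
    face (n + 1) i.castSucc (deg (n + 1) j.succ x) = deg n j (face n i x)
  df2 : ∀ n (j : Fin (n + 1)) x, face n j.castSucc (deg n j x) = x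
  df3 : ∀ n (j : Fin (n + 1)) x, face n j.succ (deg n j x) = x
  df4 : ∀ n (i : Fin (n + 2)) (j : Fin (n + 1)), j.castSucc < i → ∀ x,
    face (n + 1) i.succ (deg (n + 1) j.castSucc x) = deg n j (face n i x)

namespace GenSS

/-- the augmented object with one point at the empty ordinal -/
def toA (G : GenSS) : GenA (Type) where
  A k := match k with
    | 0 => PUnit
    | k + 1 => G.S k
  face k := match k with
    | 0 => fun _ => ↾fun _ => PUnit.unit
    | k + 1 => fun i => ↾fun x => G.face k i x
  deg k := match k with
    | 0 => fun i => i.elim0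
    | k + 1 => fun i => ↾fun x => G.deg k i x
  ff k i j h := by
    cases k with
    | zero => rw [Subsingleton.elim (α := Fin 1) i 0, Subsingleton.elim (α := Fin 1) j 0]; rfl
    | succ k => ext x; exact G.ff k i j h x
  dd k i j h := by
    cases k with
    | zero => exact i.elim0
    | succ k => ext x; exact G.dd k i j h x
  df1 k i j h := by
    cases k with
    | zero => exact j.elim0
    | succ k => ext x; exact G.df1 k i j h x
  df2 k j := by
    cases k with
    | zero => exact j.elim0
    | succ k => ext x; exact G.df2 k j x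
  df3 k j := by
    cases k with
    | zero => exact j.elim0
    | succ k => ext x; exact G.df3 k j x
  df4 k i j h := by
    cases k with
    | zero => exact j.elim0
    | succ k => ext x; exact G.df4 k i j h x

/-- the simplicial set -/
noncomputable abbrev ss (G : GenSS) : SS where
  S := G.S
  act {m n} f := fun x => (GenA.act (n + 1) (m + 1) G.toA f : G.S n ⟶ G.S m) x
  act_id {n} x := by
    rw [GenA.act_id]
    rfl
  act_comp f g x := by
    rw [GenA.act_comp]
    rfl

theorem ss_dlt (G : GenSS) {n : ℕ} (i : Fin (n + 2)) (x : G.S (n + 1)) :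
    G.ss.act (dlt i : Mo n (n + 1)) x = G.face n i x := by
  show (GenA.act (n + 1 + 1) (n + 1) G.toA (dlt i) : G.S (n + 1) ⟶ G.S n) x = _
  rw [GenA.act_dlt]
  rfl

theorem ss_sgm (G : GenSS) {n : ℕ} (i : Fin (n + 1)) (x : G.S n) :
    G.ss.act (sgm i : Mo (n + 1) n) x = G.deg n i x := by
  show (GenA.act (n + 1) (n + 1 + 1) G.toA (sgm i) : G.S n ⟶ G.S (n + 1)) x = _
  rw [GenA.act_sgm]
  rfl

end GenSS

/-- levelwise maps of simplicial sets which commute with faces and degeneracies are simplicial -/
theorem nat_of_gen_ss {A B : SS} (φ : ∀ n, A.S n → B.S n)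
    (hf : ∀ n (i : Fin (n + 2)) x, φ n (A.act (dlt i : Mo n (n + 1)) x) = B.act (dlt i : Mo n (n + 1)) (φ (n + 1) x))
    (hd : ∀ n (i : Fin (n + 1)) x, φ (n + 1) (A.act (sgm i : Mo (n + 1) n) x) = B.act (sgm i : Mo (n + 1) n) (φ n x))
    {m n : ℕ} (f : Mo m n) (x : A.S n) : φ m (A.act f x) = B.act f (φ n x) := by
  revert x
  refine mo_induction (P := fun m n f => ∀ x : A.S n, φ m (A.act f x) = B.act f (φ n x)) ?_ ?_ ?_ ?_ m n f
  · intro n x
    rw [A.act_id, B.act_id]
  · exact hf
  · exact hd
  · intro l m n f g h1 h2 x
    rw [← A.act_comp, ← B.act_comp, h2, h1]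

/-- two actions with the same faces and degeneracies are equal -/
theorem act_eq_of_gen {A B : SV} (e : ∀ n, A.V n ≃ₗ[ZMod 2] B.V n)
    (hf : ∀ n (i : Fin (n + 2)) x, e n (A.act (dlt i : Mo n (n + 1)) x) = B.act (dlt i : Mo n (n + 1)) (e (n + 1) x))
    (hd : ∀ n (i : Fin (n + 1)) x, e (n + 1) (A.act (sgm i : Mo (n + 1) n) x) = B.act (sgm i : Mo (n + 1) n) (e n x))
    {m n : ℕ} (f : Mo m n) (x : A.V n) : e m (A.act f x) = B.act f (e n x) :=
  nat_of_gen (fun n => (e n).toLinearMap) hf hd f x

end MM
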