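import Pool.Agent.Lib_MP_33f7bb_d.A020

/-!
# S1: affine simplices and singular homotopies

* `vtx i`: the `i`-th vertex of the topological simplex, `tmap_cst`.
* `aff w`: the affine map `Δ_m → Δ_n` with prescribed vertices.
* `singHtpy`: a continuous map `Δ_1 × X → X'` induces a homotopy of singular simplicial sets.
* `null_of_nullhomotopic`.
-/

namespace MM

/-- `i`-th vertex -/
noncomputable def vtx {n : ℕ} (i : Fin (n + 1)) : Dtop n := stdSimplex.vertex i

theorem vtx_apply {n : ℕ} (i j : Fin (n + 1)) : (vtx i : Dtop n).1 j = if j = i then 1 else 0 := by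
  classical
  have : (vtx i : Dtop n).1 = Pi.single i 1 := rfl
  rw [this, Pi.single_apply]

theorem tmap_apply {m n : ℕ} (f : Mo m n) (t : Dtop m) (j : Fin (n + 1)) :
    (tmap f t).1 j = ∑ i, if f i = j then t.1 i else 0 := by
  classical
  have h : (tmap f t).1 = FunOnFinite.linearMap ℝ ℝ f t.1 := rfl
  rw [h, FunOnFinite.linearMap_apply_apply, Finset.sum_filter]

theorem tmap_vtx {m n : ℕ} (f : Mo m n) (i : Fin (m + 1)) : tmap f (vtx i) = vtx (f i) :=
  stdSimplex.map_vertex _ _

theorem Dtop_sum {n : ℕ} (t : Dtop n) : ∑ i, t.1 i = 1 := t.2.2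

theorem Dtop_nonneg {n : ℕ} (t : Dtop n) (i : Fin (n + 1)) : 0 ≤ t.1 i := t.2.1 i

theorem Dtop_le {n : ℕ} (t : Dtop n) (i : Fin (n + 1)) : t.1 i ≤ 1 := by
  rw [← Dtop_sum t]
  exact Finset.single_le_sum (fun j _ => Dtop_nonneg t j) (Finset.mem_univ i)

theorem tmap_cst {m n : ℕ} (i : Fin (n + 1)) (t : Dtop m) : tmap (cst i : Mo m n) t = vtx i := by
  apply Subtype.ext
  funext j
  rw [tmap_apply, vtx_apply]
  by_cases h : j = i
  · subst h
    have : ∀ k : Fin (m + 1), (cst j : Mo m n) k = j := fun _ => rfl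
    simp only [this, if_true]
    exact Dtop_sum t
  · have h2 : ∀ k : Fin (m + 1), ¬ (cst i : Mo m n) k = j := fun _ h3 => h h3.symm
    simp only [h2, if_false, Finset.sum_const_zero, if_neg h]

/-- the affine map with prescribed vertices -/
noncomputable def aff {m n : ℕ} (w : Fin (m + 1) → Dtop n) : C(Dtop m, Dtop n) :=
  ⟨fun t => ⟨fun j => ∑ i, t.1 i * (w i).1 j, by
      refine ⟨fun j => Finset.sum_nonneg fun i _ => mul_nonneg (t.2.1 i) ((w i).2.1 j), ?_⟩
      rw [Finset.sum_comm]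
      have : ∀ i, ∑ j, t.1 i * (w i).1 j = t.1 i := fun i => by
        rw [← Finset.mul_sum, (w i).2.2, mul_one]
      simp only [this]
      exact t.2.2⟩, by
    refine Continuous.subtype_mk ?_ _
    refine continuous_pi fun j => continuous_finsetSum _ fun i _ => ?_
    exact ((continuous_apply i).comp continuous_subtype_val).mul continuous_const⟩

theorem aff_apply {m n : ℕ} (w : Fin (m + 1) → Dtop n) (t : Dtop m) (j : Fin (n + 1)) :
    (aff w t).1 j = ∑ i, t.1 i * (w i).1 j := rfl

theorem aff_vtx {m n : ℕ} (w : Fin (m + 1) → Dtop n) (i : Fin (m + 1)) : aff w (vtx i) = w i := by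
  apply Subtype.ext
  funext j
  rw [aff_apply, Finset.sum_eq_single i]
  · rw [vtx_apply, if_pos rfl, one_mul]
  · intro k _ hk
    rw [vtx_apply, if_neg hk, zero_mul]
  · intro h
    exact absurd (Finset.mem_univ i) h

theorem aff_tmap {l m n : ℕ} (w : Fin (m + 1) → Dtop n) (f : Mo l m) (t : Dtop l) :
    aff w (tmap f t) = aff (w ∘ f) t := by
  apply Subtype.ext
  funext j
  rw [aff_apply, aff_apply]
  simp only [tmap_apply, Finset.sum_mul, Function.comp]
  rw [Finset.sum_comm]
  refine Finset.sum_congr rfl fun i _ => ?_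
  rw [Finset.sum_eq_single (f i)]
  · rw [if_pos rfl]
  · intro k _ hk
    rw [if_neg (Ne.symm hk), zero_mul]
  · intro h
    exact absurd (Finset.mem_univ _) h

theorem aff_comp_tmap {l m n : ℕ} (w : Fin (m + 1) → Dtop n) (f : Mo l m) :
    (aff w).comp (tmap f) = aff (w ∘ f) := ContinuousMap.ext fun t => aff_tmap w f t

theorem aff_id {n : ℕ} : aff (vtx : Fin (n + 1) → Dtop n) = ContinuousMap.id _ := by
  refine ContinuousMap.ext fun t => Subtype.ext (funext fun j => ?_)
  rw [aff_apply, Finset.sum_eq_single j]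
  · rw [vtx_apply, if_pos rfl, mul_one]; rfl
  · intro k _ hk
    rw [vtx_apply, if_neg (Ne.symm hk), mul_zero]
  · intro h
    exact absurd (Finset.mem_univ _) h

theorem tmap_eq_aff {m n : ℕ} (f : Mo m n) : tmap f = aff (fun i => vtx (f i)) := by
  have h := aff_comp_tmap (vtx : Fin (n + 1) → Dtop n) f
  rw [aff_id, ContinuousMap.id_comp] at h
  exact h

theorem aff_aff {l m n : ℕ} (w : Fin (m + 1) → Dtop n) (u : Fin (l + 1) → Dtop m) (t : Dtop l) :
    aff w (aff u t) = aff (fun i => aff w (u i)) t := by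
  apply Subtype.ext
  funext j
  simp only [aff_apply, Finset.sum_mul, Finset.mul_sum]
  rw [Finset.sum_comm]
  refine Finset.sum_congr rfl fun i _ => Finset.sum_congr rfl fun k _ => ?_
  ring

theorem aff_comp_aff {l m n : ℕ} (w : Fin (m + 1) → Dtop n) (u : Fin (l + 1) → Dtop m) :
    (aff w).comp (aff u) = aff (fun i => aff w (u i)) := ContinuousMap.ext fun t => aff_aff w u t

/-! ## Homotopies -/

variable {X X' : Type} [TopologicalSpace X] [TopologicalSpace X']

/-- homotopy of singular simplicial sets from a continuous map `Δ_1 × X → X'` -/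
noncomputable def singHtpy (h : C(Dtop 1 × X, X')) : Hom ((Del 1).prod (Sing X)) (Sing X') :=
  ⟨fun _ x => h.comp ((tmap x.1).prodMk x.2), fun {m n} f x => by
    refine ContinuousMap.ext fun t => ?_
    show h (tmap (x.1.comp f) t, x.2 (tmap f t)) = h (tmap x.1 (tmap f t), x.2 (tmap f t))
    rw [tmap_comp]⟩

theorem singHtpy_apply (h : C(Dtop 1 × X, X')) {n : ℕ} (a : Mo n 1) (σ : C(Dtop n, X))
    (t : Dtop n) : (singHtpy h).app n (a, σ) t = h (tmap a t, σ t) := rfl

theorem singHtpy_cst (h : C(Dtop 1 × X, X')) {n : ℕ} (i : Fin 2) (σ : C(Dtop n, X))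
    (t : Dtop n) : (singHtpy h).app n (cst i, σ) t = h (vtx i, σ t) := by
  rw [singHtpy_apply, tmap_cst]

/-- the coordinate `Δ_1 → [0,1]` -/
noncomputable def uI : C(Dtop 1, unitInterval) :=
  ⟨fun t => ⟨t.1 1, Dtop_nonneg t 1, Dtop_le t 1⟩, by
    refine Continuous.subtype_mk ?_ _
    exact (continuous_apply (1 : Fin 2)).comp continuous_subtype_val⟩

theorem uI_zero : uI (vtx 0) = 0 := by
  apply Subtype.ext
  show (vtx 0 : Dtop 1).1 1 = 0
  rw [vtx_apply, if_neg (by decide)]

theorem uI_one : uI (vtx 1) = 1 := by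
  apply Subtype.ext
  show (vtx 1 : Dtop 1).1 1 = 1
  rw [vtx_apply, if_pos rfl]

/-- homotopic maps induce homotopic maps -/
theorem htp_of_homotopic {f g : C(X, X')} (h : f.Homotopic g) : Htp (Sing.map f) (Sing.map g) := by
  obtain ⟨H⟩ := h
  refine ⟨singHtpy (H.toContinuousMap.comp ((uI.comp ContinuousMap.fst).prodMk
    ContinuousMap.snd)), fun n σ => ContinuousMap.ext fun t => ?_,
    fun n σ => ContinuousMap.ext fun t => ?_⟩
  · rw [singHtpy_cst]
    show H (uI (vtx 0), σ t) = f (σ t)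
    rw [uI_zero, H.apply_zero]
  · rw [singHtpy_cst]
    show H (uI (vtx 1), σ t) = g (σ t)
    rw [uI_one, H.apply_one]

theorem null_of_nullhomotopic (q : C(X, X')) (hq : q.Nullhomotopic) {Y : SS}
    (κ : Hom (Sing X') Y) : Null (κ.comp (Sing.map q)) := by
  obtain ⟨p, hp⟩ := hq
  obtain ⟨H, h0, h1⟩ := htp_of_homotopic hp
  refine ⟨(κ.comp H).app, κ.app 0 (ContinuousMap.const _ p), fun {m n} g x _ =>
    (κ.comp H).nat g x, fun n x _ => ?_, fun n x _ => ?_⟩
  · show κ.app n (H.app n (cst 0, x)) = _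
    rw [h0]; rfl
  · show κ.app n (H.app n (cst 1, x)) = _
    rw [h1]
    show κ.app n _ = Y.act (cst 0) (κ.app 0 _)
    rw [← κ.nat]
    rfl

/-- functoriality: precomposition with `Sing.map` preserves null homotopic maps -/
theorem Null.comp {P Q Y : SS} {κ : Hom Q Y} (h : Null κ) (f : Hom P Q) : Null (κ.comp f) := by
  obtain ⟨H, y, hn, h0, h1⟩ := h
  refine ⟨fun n x => H n (x.1, f.app n x.2), y, fun {m n} g x _ => ?_,
    fun n x _ => h0 n _ trivial, fun n x _ => h1 n _ trivial⟩
  have := hn g (x.1, f.app n x.2) ⟨trivial, trivial⟩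
  show H m (x.1.comp g, f.app m (P.act g x.2)) = _
  rw [f.nat]
  exact this

end MM
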