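import Pool.Agent.Lib_MP_33f7bb_d.SDef

/-!
# S2: the operators `SdL`, `DL`, `SdX`, `DX`

`SdX` is a chain map, `DX` a chain homotopy between `SdX` and the identity; both preserve chains in a subset.
-/

namespace MM

theorem S2_mapDomain_dif {P Q : SS} (f : Hom P Q) {n : ℕ} (z : Ch P (n + 1)) :
    dif (z.mapDomain (f.app (n + 1))) = (dif z).mapDomain (f.app n) := by
  rw [dif, dif, Finsupp.mapDomain_finsetSum]
  refine Finset.sum_congr rfl fun i _ => ?_
  rw [← Finsupp.mapDomain_comp, ← Finsupp.mapDomain_comp]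
  congr 1
  funext x
  exact (f.nat (dlt i) x).symm

/-! ## tuples -/

variable {n : ℕ}

theorem S2_cone_zero (b : Dtop n) (z : Ch (LD n) 0) :
    dif (coneL b 0 z) = z + Finsupp.single (fun _ => b) (z.sum fun _ c => c) := by
  classical
  induction z using Finsupp.induction_linear with
  | zero => simp
  | add x y hx hy =>
    rw [map_add, dif_add, hx, hy, Finsupp.sum_add_index' (by simp) (by simp), Finsupp.single_add]
    abel
  | single w c =>
    rw [Finsupp.sum_single_index rfl]
    have h1 : coneL b 0 (Finsupp.single w c) = Finsupp.single (Fin.cons b w : Fin 2 → Dtop n) c := by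
      show Finsupp.mapDomain _ _ = _
      rw [Finsupp.mapDomain_single]
    have e0 : (LD n).act (dlt (0 : Fin 2)) (Fin.cons b w : Fin 2 → Dtop n) = w := by
      funext i
      show (Fin.cons b w : Fin 2 → Dtop n) (dlt 0 i) = w i
      have : dlt (0 : Fin 2) i = Fin.succ i := by
        show Fin.succAbove 0 i = _
        rw [Fin.zero_succAbove]
      rw [this, Fin.cons_succ]
    have e1 : (LD n).act (dlt (1 : Fin 2)) (Fin.cons b w : Fin 2 → Dtop n) = fun _ => b := by
      funext i
      show (Fin.cons b w : Fin 2 → Dtop n) (dlt 1 i) = b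
      have : dlt (1 : Fin 2) i = 0 := by
        have hi : i = 0 := Fin.ext (by have h5 := i.2; show (i : ℕ) = 0; omega)
        subst hi
        rfl
      rw [this, Fin.cons_zero]
    rw [h1, dif, Fin.sum_univ_two, Finsupp.mapDomain_single, Finsupp.mapDomain_single, e0, e1]

theorem S2_cone_succ (b : Dtop n) (m : ℕ) (z : Ch (LD n) (m + 1)) :
    dif (coneL b (m + 1) z) = z + coneL b m (dif z) := by
  classical
  induction z using Finsupp.induction_linear with
  | zero => simp
  | add x y hx hy => rw [map_add, dif_add, hx, hy, dif_add, map_add]; abel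
  | single w c =>
    have h1 : ∀ (k : ℕ) (u : Fin (k + 1) → Dtop n), coneL b k (Finsupp.single u c) =
        Finsupp.single (Fin.cons b u : Fin (k + 2) → Dtop n) c := fun k u => by
      show Finsupp.mapDomain _ _ = _
      rw [Finsupp.mapDomain_single]
    have e0 : (LD n).act (dlt (0 : Fin (m + 3))) (Fin.cons b w : Fin (m + 3) → Dtop n) = w := by
      funext i
      show (Fin.cons b w : Fin (m + 3) → Dtop n) (dlt 0 i) = w i
      have : dlt (0 : Fin (m + 3)) i = Fin.succ i := by
        show Fin.succAbove 0 i = _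
        rw [Fin.zero_succAbove]
      rw [this, Fin.cons_succ]
    rw [h1, dif, Fin.sum_univ_succ, Finsupp.mapDomain_single, e0]
    congr 1
    · rw [dif, map_sum]
      refine Finset.sum_congr rfl fun k _ => ?_
      rw [Finsupp.mapDomain_single, Finsupp.mapDomain_single, h1]
      congr 1
      funext i
      show (Fin.cons b w : Fin (m + 3) → Dtop n) (dlt k.succ i) =
        (Fin.cons b (w ∘ dlt k) : Fin (m + 2) → Dtop n) i
      refine Fin.cases ?_ (fun j => ?_) i
      · have : dlt k.succ (0 : Fin (m + 2)) = 0 := by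
          show Fin.succAbove k.succ 0 = 0
          exact Fin.succ_succAbove_zero k
        rw [this, Fin.cons_zero, Fin.cons_zero]
      · have : dlt k.succ j.succ = (dlt k j).succ := by
          show Fin.succAbove k.succ j.succ = (Fin.succAbove k j).succ
          exact Fin.succ_succAbove_succ k j
        rw [this, Fin.cons_succ, Fin.cons_succ]
        rfl

theorem S2_SdL_single (m : ℕ) (w : Fin (m + 2) → Dtop n) (c : ZMod 2) :
    SdL n (m + 1) (Finsupp.single w c) =
      c • coneL (bary w) m (SdL n m (dif (P := LD n) (Finsupp.single w 1))) := by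
  rw [SdL, Finsupp.linearCombination_single]

theorem S2_DL_single (m : ℕ) (w : Fin (m + 2) → Dtop n) (c : ZMod 2) :
    DL n (m + 1) (Finsupp.single w c) =
      c • coneL (bary w) (m + 1) (Finsupp.single w 1 +
        DL n m (dif (P := LD n) (Finsupp.single w 1))) := by
  rw [DL, Finsupp.linearCombination_single]

theorem S2_aug (z : Ch (LD n) 1) : ((dif z).sum fun _ c => c) = 0 := by
  classical
  induction z using Finsupp.induction_linear with
  | zero => simp
  | add x y hx hy =>
    rw [dif_add, Finsupp.sum_add_index' (by simp) (by simp), hx, hy, add_zero]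
  | single w c =>
    rw [dif, Fin.sum_univ_two, Finsupp.mapDomain_single, Finsupp.mapDomain_single,
      Finsupp.sum_add_index' (by simp) (by simp), Finsupp.sum_single_index rfl,
      Finsupp.sum_single_index rfl]
    exact two_eq_zero' c

/-- linear maps out of chains agree if they agree on simplices -/
theorem S2_ext {P : SS} {m : ℕ} {M : Type} [AddCommGroup M] [Module (ZMod 2) M]
    {F G : Ch P m →ₗ[ZMod 2] M} (h : ∀ x, F (Finsupp.single x 1) = G (Finsupp.single x 1)) :
    F = G := Finsupp.lhom_ext' fun x => LinearMap.ext_ring (h x)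

/-- `dif` as a linear map -/
noncomputable def difL (P : SS) (m : ℕ) : Ch P (m + 1) →ₗ[ZMod 2] Ch P m := (lin P).d m

theorem difL_apply {P : SS} {m : ℕ} (z : Ch P (m + 1)) : difL P m z = dif z := lin_d z

theorem S2_dif_SdL (m : ℕ) (z : Ch (LD n) (m + 1)) :
    dif (SdL n (m + 1) z) = SdL n m (dif z) := by
  induction m with
  | zero =>
    have h : (difL (LD n) 0).comp (SdL n 1) = (SdL n 0).comp (difL (LD n) 0) := by
      refine S2_ext fun w => ?_
      rw [LinearMap.comp_apply, LinearMap.comp_apply, difL_apply, difL_apply]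
      rw [S2_SdL_single, one_smul, S2_cone_zero]
      have h2 : SdL n 0 (dif (P := LD n) (Finsupp.single w 1)) =
        dif (P := LD n) (Finsupp.single w 1) := rfl
      rw [h2, S2_aug, Finsupp.single_zero, add_zero]
    have := LinearMap.congr_fun h z
    rwa [LinearMap.comp_apply, LinearMap.comp_apply, difL_apply, difL_apply] at this
  | succ m ih =>
    have h : (difL (LD n) (m + 1)).comp (SdL n (m + 2)) =
        (SdL n (m + 1)).comp (difL (LD n) (m + 1)) := by
      refine S2_ext fun w => ?_
      rw [LinearMap.comp_apply, LinearMap.comp_apply, difL_apply, difL_apply]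
      rw [S2_SdL_single, one_smul, S2_cone_succ, ih, dif_dif, map_zero, map_zero, add_zero]
    have := LinearMap.congr_fun h z
    rwa [LinearMap.comp_apply, LinearMap.comp_apply, difL_apply, difL_apply] at this

theorem S2_dif_DL (m : ℕ) (z : Ch (LD n) (m + 1)) :
    dif (DL n (m + 1) z) = z + SdL n (m + 1) z + DL n m (dif z) := by
  induction m with
  | zero =>
    have h : (difL (LD n) 1).comp (DL n 1) = LinearMap.id + SdL n 1 +
        (DL n 0).comp (difL (LD n) 0) := by
      refine S2_ext fun w => ?_
      rw [LinearMap.comp_apply, LinearMap.add_apply, LinearMap.add_apply, LinearMap.comp_apply,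
        LinearMap.id_apply, difL_apply, difL_apply]
      rw [S2_DL_single, one_smul, S2_cone_succ, dif_add]
      have h2 : ∀ y, DL n 0 y = 0 := fun _ => rfl
      rw [h2, dif_zero, add_zero, add_zero, S2_SdL_single, one_smul, add_zero]
      rfl
    have := LinearMap.congr_fun h z
    rwa [LinearMap.comp_apply, LinearMap.add_apply, LinearMap.add_apply, LinearMap.comp_apply,
        LinearMap.id_apply, difL_apply, difL_apply] at this
  | succ m ih =>
    have h : (difL (LD n) (m + 2)).comp (DL n (m + 2)) = LinearMap.id + SdL n (m + 2) +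
        (DL n (m + 1)).comp (difL (LD n) (m + 1)) := by
      refine S2_ext fun w => ?_
      rw [LinearMap.comp_apply, LinearMap.add_apply, LinearMap.add_apply, LinearMap.comp_apply,
        LinearMap.id_apply, difL_apply, difL_apply]
      rw [S2_DL_single, one_smul, S2_cone_succ, dif_add, ih, dif_dif, map_zero, add_zero,
        S2_SdL_single, one_smul, ← add_assoc, two_eq_zero', zero_add]
      abel
    have := LinearMap.congr_fun h z
    rwa [LinearMap.comp_apply, LinearMap.add_apply, LinearMap.add_apply, LinearMap.comp_apply,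
        LinearMap.id_apply, difL_apply, difL_apply] at this

/-- push forward of tuples by an affine map -/
noncomputable def pushL {n' : ℕ} (v : Fin (n + 1) → Dtop n') : Hom (LD n) (LD n') :=
  ⟨fun _ w i => aff v (w i), fun _ _ => rfl⟩

theorem pushL_bary {n' m : ℕ} (v : Fin (n + 1) → Dtop n') (w : Fin (m + 1) → Dtop n) :
    bary ((pushL v).app m w) = aff v (bary w) := (aff_aff v w _).symm

theorem pushL_cone {n' : ℕ} (v : Fin (n + 1) → Dtop n') (b : Dtop n) (m : ℕ)
    (z : Ch (LD n) m) :
    (coneL b m z).mapDomain ((pushL v).app (m + 1)) =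
      coneL (aff v b) m (z.mapDomain ((pushL v).app m)) := by
  show Finsupp.mapDomain _ (Finsupp.mapDomain _ z) = Finsupp.mapDomain _ (Finsupp.mapDomain _ z)
  rw [← Finsupp.mapDomain_comp, ← Finsupp.mapDomain_comp]
  congr 1
  funext w
  show (fun i => aff v ((Fin.cons b w : Fin (m + 2) → Dtop n) i)) =
    (Fin.cons (aff v b) (fun i => aff v (w i)) : Fin (m + 2) → Dtop n')
  funext i
  refine Fin.cases ?_ (fun j => ?_) i
  · rw [Fin.cons_zero, Fin.cons_zero]
  · rw [Fin.cons_succ, Fin.cons_succ]

/-- push forward as a linear map -/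
noncomputable def pushC {n' : ℕ} (v : Fin (n + 1) → Dtop n') (m : ℕ) :
    Ch (LD n) m →ₗ[ZMod 2] Ch (LD n') m :=
  Finsupp.lmapDomain (ZMod 2) (ZMod 2) ((pushL v).app m)

theorem pushC_apply {n' : ℕ} (v : Fin (n + 1) → Dtop n') (m : ℕ) (z : Ch (LD n) m) :
    pushC v m z = z.mapDomain ((pushL v).app m) := rfl

theorem S2_push_SdL {n' : ℕ} (v : Fin (n + 1) → Dtop n') (m : ℕ) (z : Ch (LD n) m) :
    (SdL n m z).mapDomain ((pushL v).app m) = SdL n' m (z.mapDomain ((pushL v).app m)) := by
  induction m with
  | zero => rfl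
  | succ m ih =>
    have h : (pushC v (m + 1)).comp (SdL n (m + 1)) = (SdL n' (m + 1)).comp (pushC v (m + 1)) := by
      refine S2_ext fun w => ?_
      rw [LinearMap.comp_apply, LinearMap.comp_apply, pushC_apply, pushC_apply,
        Finsupp.mapDomain_single, S2_SdL_single, S2_SdL_single, one_smul, one_smul, pushL_cone, ih,
        ← S2_mapDomain_dif, Finsupp.mapDomain_single, pushL_bary]
    exact LinearMap.congr_fun h z

theorem S2_push_DL {n' : ℕ} (v : Fin (n + 1) → Dtop n') (m : ℕ) (z : Ch (LD n) m) :
    (DL n m z).mapDomain ((pushL v).app (m + 1)) = DL n' m (z.mapDomain ((pushL v).app m)) := by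
  induction m with
  | zero => exact Finsupp.mapDomain_zero
  | succ m ih =>
    have h : (pushC v (m + 2)).comp (DL n (m + 1)) = (DL n' (m + 1)).comp (pushC v (m + 1)) := by
      refine S2_ext fun w => ?_
      rw [LinearMap.comp_apply, LinearMap.comp_apply, pushC_apply, pushC_apply,
        Finsupp.mapDomain_single, S2_DL_single, S2_DL_single, one_smul, one_smul, pushL_cone,
        Finsupp.mapDomain_add, Finsupp.mapDomain_single, ih,
        ← S2_mapDomain_dif, Finsupp.mapDomain_single, pushL_bary]
    exact LinearMap.congr_fun h z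

/-! ## singular chains -/

variable {X : Type} [TopologicalSpace X]

theorem SdX_single (n : ℕ) (σ : C(Dtop n, X)) :
    SdX X n (Finsupp.single σ 1) = (SdL n n (Finsupp.single vtx 1)).mapDomain ((LS σ).app n) := by
  rw [SdX, Finsupp.linearCombination_single, one_smul]

theorem DX_single (n : ℕ) (σ : C(Dtop n, X)) :
    DX X n (Finsupp.single σ 1) =
      (DL n n (Finsupp.single vtx 1)).mapDomain ((LS σ).app (n + 1)) := by
  rw [DX, Finsupp.linearCombination_single, one_smul]

theorem LS_push {n' : ℕ} (σ : C(Dtop n', X)) (v : Fin (n + 1) → Dtop n') (m : ℕ)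
    (w : Fin (m + 1) → Dtop n) :
    (LS (σ.comp (aff v))).app m w = (LS σ).app m ((pushL v).app m w) := by
  show (σ.comp (aff v)).comp (aff w) = σ.comp (aff fun i => aff v (w i))
  rw [ContinuousMap.comp_assoc, aff_comp_aff]

theorem LS_push' {n' : ℕ} (σ : C(Dtop n', X)) (v : Fin (n + 1) → Dtop n') (m : ℕ)
    (z : Ch (LD n) m) :
    z.mapDomain ((LS (σ.comp (aff v))).app m) =
      (z.mapDomain ((pushL v).app m)).mapDomain ((LS σ).app m) := by
  rw [← Finsupp.mapDomain_comp]
  congr 1
  funext w
  exact LS_push σ v m w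

theorem pushL_vtx {n' : ℕ} (v : Fin (n + 1) → Dtop n') : (pushL v).app n vtx = v :=
  funext fun i => aff_vtx v i

/-- the face of a singular simplex -/
theorem S2_face (n : ℕ) (σ : C(Dtop (n + 1), X)) (i : Fin (n + 2)) :
    (Sing X).act (dlt i) σ = σ.comp (aff (vtx ∘ dlt i)) := by
  show σ.comp (tmap (dlt i)) = _
  rw [tmap_eq_aff]
  rfl

theorem S2_SdX_aff {n' : ℕ} (σ : C(Dtop n', X)) (v : Fin (n + 1) → Dtop n') :
    SdX X n (Finsupp.single (σ.comp (aff v)) 1) =
      (SdL n' n (Finsupp.single v 1)).mapDomain ((LS σ).app n) := by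
  rw [SdX_single, LS_push', S2_push_SdL, Finsupp.mapDomain_single, pushL_vtx]

theorem S2_DX_aff {n' : ℕ} (σ : C(Dtop n', X)) (v : Fin (n + 1) → Dtop n') :
    DX X n (Finsupp.single (σ.comp (aff v)) 1) =
      (DL n' n (Finsupp.single v 1)).mapDomain ((LS σ).app (n + 1)) := by
  rw [DX_single, LS_push', S2_push_DL, Finsupp.mapDomain_single, pushL_vtx]

theorem S2_dif_single (n : ℕ) (σ : C(Dtop (n + 1), X)) :
    dif (P := Sing X) (Finsupp.single σ 1) =
      ∑ i : Fin (n + 2), Finsupp.single (σ.comp (aff (vtx ∘ dlt i))) 1 := by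
  rw [dif]
  refine Finset.sum_congr rfl fun i _ => ?_
  rw [Finsupp.mapDomain_single, S2_face]

theorem S2_dif_vtx (n : ℕ) : dif (P := LD (n + 1)) (Finsupp.single (vtx : Fin (n + 2) → _) 1) =
    ∑ i : Fin (n + 2), Finsupp.single ((vtx : Fin (n + 2) → Dtop (n + 1)) ∘ dlt i) 1 := by
  rw [dif]
  refine Finset.sum_congr rfl fun i _ => ?_
  rw [Finsupp.mapDomain_single]

theorem dif_SdX (n : ℕ) (z : Ch (Sing X) (n + 1)) :
    dif (SdX X (n + 1) z) = SdX X n (dif z) := by
  have h : (difL (Sing X) n).comp (SdX X (n + 1)) = (SdX X n).comp (difL (Sing X) n) := by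
    refine S2_ext fun σ => ?_
    rw [LinearMap.comp_apply, LinearMap.comp_apply, difL_apply, difL_apply, SdX_single,
      S2_mapDomain_dif, S2_dif_SdL, S2_dif_single, S2_dif_vtx, map_sum, map_sum,
      Finsupp.mapDomain_finsetSum]
    exact Finset.sum_congr rfl fun i _ => (S2_SdX_aff σ _).symm
  have := LinearMap.congr_fun h z
  rwa [LinearMap.comp_apply, LinearMap.comp_apply, difL_apply, difL_apply] at this

theorem SdX_zero (z : Ch (Sing X) 0) : SdX X 0 z = z := by
  have h : SdX X 0 = LinearMap.id := by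
    refine S2_ext fun σ => ?_
    rw [SdX_single, LinearMap.id_apply]
    have h2 : SdL 0 0 (Finsupp.single vtx 1) = Finsupp.single vtx 1 := rfl
    rw [h2, Finsupp.mapDomain_single]
    show Finsupp.single (σ.comp (aff vtx)) 1 = _
    rw [aff_id, ContinuousMap.comp_id]
  rw [h, LinearMap.id_apply]

theorem DX_zero (z : Ch (Sing X) 0) : DX X 0 z = 0 := by
  have h : DX X 0 = 0 := by
    refine S2_ext fun σ => ?_
    rw [DX_single, LinearMap.zero_apply]
    exact Finsupp.mapDomain_zero
  rw [h, LinearMap.zero_apply]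

theorem dif_DX (n : ℕ) (z : Ch (Sing X) (n + 1)) :
    dif (DX X (n + 1) z) = z + SdX X (n + 1) z + DX X n (dif z) := by
  have h : (difL (Sing X) (n + 1)).comp (DX X (n + 1)) = LinearMap.id + SdX X (n + 1) +
      (DX X n).comp (difL (Sing X) n) := by
    refine S2_ext fun σ => ?_
    rw [LinearMap.comp_apply, LinearMap.add_apply, LinearMap.add_apply, LinearMap.comp_apply,
        LinearMap.id_apply, difL_apply, difL_apply, DX_single, S2_mapDomain_dif, S2_dif_DL,
        Finsupp.mapDomain_add, Finsupp.mapDomain_add, Finsupp.mapDomain_single, S2_dif_single,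
        S2_dif_vtx, map_sum, map_sum, Finsupp.mapDomain_finsetSum, SdX_single]
    congr 1
    · congr 1
      show Finsupp.single (σ.comp (aff vtx)) 1 = _
      rw [aff_id, ContinuousMap.comp_id]
    · exact Finset.sum_congr rfl fun i _ => (S2_DX_aff σ _).symm
  have := LinearMap.congr_fun h z
  rwa [LinearMap.comp_apply, LinearMap.add_apply, LinearMap.add_apply, LinearMap.comp_apply,
        LinearMap.id_apply, difL_apply, difL_apply] at this

theorem S2_suppIn_map {P Q : SS} {m k : ℕ} (f : P.S m → Q.S k) (B : Sub Q) (hf : ∀ x, f x ∈ B.car k)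
    (z : Ch P m) : SuppIn B (z.mapDomain f : Ch Q k) := by
  classical
  intro y hy
  obtain ⟨x, _, rfl⟩ := Finset.mem_image.1 (Finsupp.mapDomain_support hy)
  exact hf x

theorem S2_suppIn_lin {P Q : SS} {m k : ℕ} (F : Ch P m →ₗ[ZMod 2] Ch Q k) (A : Sub P) (B : Sub Q)
    (hF : ∀ x ∈ A.car m, SuppIn B (F (Finsupp.single x 1))) (z : Ch P m) (hz : SuppIn A z) :
    SuppIn B (F z) := by
  classical
  have h1 : z = ∑ x ∈ z.support, z x • Finsupp.single x (1 : ZMod 2) := by
    conv_lhs => rw [← Finsupp.sum_single z]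
    refine Finset.sum_congr rfl fun x _ => ?_
    rw [Finsupp.smul_single, smul_eq_mul, mul_one]
  rw [h1, map_sum, suppIn_iff]
  refine Submodule.sum_mem _ fun x hx => ?_
  rw [map_smul]
  exact Submodule.smul_mem _ _ (hF x (hz x hx))

theorem suppIn_SdX (A : Set X) (n : ℕ) (z : Ch (Sing X) n) (hz : SuppIn (SingIn A) z) :
    SuppIn (SingIn A) (SdX X n z) := by
  refine S2_suppIn_lin _ _ _ (fun σ hσ => ?_) z hz
  rw [SdX_single]
  refine S2_suppIn_map _ (SingIn A) (fun w => ?_) _
  intro t
  exact hσ (aff w t)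

theorem suppIn_DX (A : Set X) (n : ℕ) (z : Ch (Sing X) n) (hz : SuppIn (SingIn A) z) :
    SuppIn (SingIn A) (DX X n z) := by
  refine S2_suppIn_lin _ _ _ (fun σ hσ => ?_) z hz
  rw [DX_single]
  refine S2_suppIn_map _ (SingIn A) (fun w => ?_) _
  intro t
  exact hσ (aff w t)

end MM
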