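import Pool.Agent.Lib_MP_33f7bb_d.S1

/-!
# S6A: complexes of faces of the simplex

* `yoT n : Δ^n → Sing Δ_n`, injective.
* `cxS K`, `cxT K`: combinatorial and topological subcomplex given by a family `K` of faces.
* `acyc_face`: `(Sing |F|, F)` is acyclic for a nonempty face `F`.
-/

namespace MM

/-- the simplicial set `Δ^n` in the singular set of `Δ_n` -/
noncomputable def yoT (n : ℕ) : Hom (Del n) (Sing (Dtop n)) :=
  ⟨fun _ θ => tmap θ, fun {m k} f θ => by
    refine ContinuousMap.ext fun t => ?_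
    show tmap (θ.comp f) t = tmap θ (tmap f t)
    rw [tmap_comp]⟩

theorem yoT_app {n m : ℕ} (θ : Mo m n) : (yoT n).app m θ = tmap θ := rfl

theorem yoT_inj {n m : ℕ} {θ θ' : Mo m n} (h : (yoT n).app m θ = (yoT n).app m θ') : θ = θ' := by
  refine OrderHom.ext _ _ (funext fun i => ?_)
  have h1 : tmap θ (vtx i) = tmap θ' (vtx i) := by
    have := congrArg (fun σ : C(Dtop m, Dtop n) => σ (vtx i)) h
    exact this
  rw [tmap_vtx, tmap_vtx] at h1
  have h2 := congrArg (fun x : Dtop n => x.1 (θ i)) h1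
  simp only [vtx_apply] at h2
  by_contra hne
  rw [if_true, if_neg hne] at h2
  exact one_ne_zero h2

/-- combinatorial complex -/
def cxS {n : ℕ} (K : Finset (Finset (Fin (n + 1)))) : Sub (Del n) :=
  ⟨fun _ => {θ | ∃ F ∈ K, ∀ i, θ i ∈ F}, fun {m k} f x h => by
    obtain ⟨F, hF, h⟩ := h
    exact ⟨F, hF, fun i => h (f i)⟩⟩

/-- topological complex -/
def cxT {n : ℕ} (K : Finset (Finset (Fin (n + 1)))) : Set (Dtop n) :=
  {x | ∃ F ∈ K, ∀ i, i ∉ F → x.1 i = 0}

theorem tmap_pos {n m : ℕ} (θ : Mo m n) (i : Fin (m + 1)) :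
    0 < (tmap θ (stdSimplex.barycenter : Dtop m)).1 (θ i) := by
  rw [tmap_apply]
  refine Finset.sum_pos' (fun k _ => ?_) ⟨i, Finset.mem_univ _, ?_⟩
  · split_ifs
    · exact Dtop_nonneg _ _
    · exact le_rfl
  · rw [if_pos rfl]
    show 0 < ((Fintype.card (Fin (m + 1)) : ℝ))⁻¹
    positivity

theorem tmap_supp {n m : ℕ} (θ : Mo m n) (t : Dtop m) (F : Finset (Fin (n + 1)))
    (h : ∀ i, θ i ∈ F) (j : Fin (n + 1)) (hj : j ∉ F) : (tmap θ t).1 j = 0 := by
  rw [tmap_apply]
  refine Finset.sum_eq_zero fun i _ => if_neg fun h2 => hj ?_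
  rw [← h2]
  exact h i

theorem map_cxS_le {n : ℕ} (K : Finset (Finset (Fin (n + 1)))) :
    (cxS K).map (yoT n) ≤ SingIn (cxT K) := by
  rintro m σ ⟨θ, ⟨F, hF, h⟩, rfl⟩ t
  exact ⟨F, hF, tmap_supp θ t F h⟩

/-- a simplex of `Δ^n` with all points in `|K|` lies in `K` -/
theorem mem_cxS_of_bary {n m : ℕ} (K : Finset (Finset (Fin (n + 1)))) (θ : Mo m n)
    (h : tmap θ (stdSimplex.barycenter : Dtop m) ∈ cxT K) : θ ∈ (cxS K).car m := by
  obtain ⟨F, hF, h⟩ := h
  refine ⟨F, hF, fun i => ?_⟩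
  by_contra hi
  exact (tmap_pos θ i).ne' (h _ hi)

theorem map_mem_iff {n m : ℕ} (A : Sub (Del n)) (θ : Mo m n) :
    (yoT n).app m θ ∈ (A.map (yoT n)).car m ↔ θ ∈ A.car m := by
  constructor
  · rintro ⟨θ', h, h2⟩
    rwa [← yoT_inj h2]
  · intro h
    exact ⟨θ, h, rfl⟩

/-- acyclic pairs of complexes are acyclic in the singular set -/
theorem acyc_map_yoT {n : ℕ} {A C : Sub (Del n)} (hA : A ≤ C) (h : Acyc A C) :
    Acyc (A.map (yoT n)) (C.map (yoT n)) := by
  refine (acyc_relIso (yoT n) hA ?_ ?_ ?_ ?_ ?_).1 h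
  · rintro m σ ⟨θ, hθ, rfl⟩
    exact ⟨θ, hA m hθ, rfl⟩
  · exact fun m θ hθ => ⟨θ, hθ, rfl⟩
  · exact fun m θ _ => map_mem_iff A θ
  · exact fun m θ _ θ' _ _ _ h2 => yoT_inj h2
  · rintro m σ ⟨θ, hθ, rfl⟩ _
    exact ⟨θ, hθ, rfl⟩

/-- contraction of `Δ^n` to the vertex `v` along the vertices `≥ v` -/
def minH {n : ℕ} (v : Fin (n + 1)) : Hom ((Del 1).prod (Del n)) (Del n) :=
  ⟨fun m x => ⟨fun i => if x.1 i = 0 then min v (x.2 i) else x.2 i, fun i j hij => by
      show (if x.1 i = 0 then min v (x.2 i) else x.2 i) ≤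
        (if x.1 j = 0 then min v (x.2 j) else x.2 j)
      have h1 := x.1.monotone hij
      have h2 := x.2.monotone hij
      split_ifs with h3 h4 h4
      · exact min_le_min le_rfl h2
      · exact (min_le_right _ _).trans h2
      · exact absurd (le_antisymm (h4 ▸ h1) (Fin.zero_le _)) h3
      · exact h2⟩, fun f x => rfl⟩

theorem acyc_face_comb {n : ℕ} (F : Finset (Fin (n + 1))) (hF : F.Nonempty) :
    Acyc (Sub.pt (P := Del n) (cst (F.min' hF) : Mo 0 n)) (cxS {F}) := by
  have hle : Sub.pt (P := Del n) (cst (F.min' hF) : Mo 0 n) ≤ cxS {F} := by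
    rintro m θ h
    refine ⟨F, Finset.mem_singleton_self F, fun i => ?_⟩
    have : θ = (cst (F.min' hF) : Mo m n) := h
    rw [this]
    exact F.min'_mem hF
  refine acyc_of_deformation' hle (minH (F.min' hF)) (fun m θ _ => ?_) (fun m θ h => ?_)
    (fun m a θ h => ?_) (fun m a θ h => ?_)
  · refine OrderHom.ext _ _ (funext fun i => ?_)
    show (if (cst 1 : Mo m 1) i = 0 then min (F.min' hF) (θ i) else θ i) = θ i
    exact if_neg (show ¬ (1 : Fin 2) = 0 by decide)
  · obtain ⟨G, hG, h⟩ := h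
    rw [Finset.mem_singleton] at hG
    subst hG
    refine OrderHom.ext _ _ (funext fun i => ?_)
    show (if (cst 0 : Mo m 1) i = 0 then min (G.min' hF) (θ i) else θ i) = G.min' hF
    rw [if_pos (show (cst 0 : Mo m 1) i = 0 from rfl)]
    exact min_eq_left (G.min'_le _ (h i))
  · obtain ⟨G, hG, h⟩ := h
    rw [Finset.mem_singleton] at hG
    subst hG
    refine ⟨G, Finset.mem_singleton_self G, fun i => ?_⟩
    show (if a i = 0 then min (G.min' hF) (θ i) else θ i) ∈ G
    split_ifs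
    · rw [min_eq_left (G.min'_le _ (h i))]
      exact G.min'_mem hF
    · exact h i
  · have h2 : θ = (cst (F.min' hF) : Mo m n) := h
    subst h2
    refine OrderHom.ext _ _ (funext fun i => ?_)
    show (if a i = 0 then min (F.min' hF) (F.min' hF) else F.min' hF) = F.min' hF
    rw [min_self, ite_self]

/-- straight line contraction of `Δ_n` to the vertex `v` -/
noncomputable def lineH {n : ℕ} (v : Fin (n + 1)) : C(Dtop 1 × Dtop n, Dtop n) :=
  ⟨fun p => ⟨fun j => (1 - p.1.1 1) * p.2.1 j + p.1.1 1 * (vtx v : Dtop n).1 j, by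
      have h0 := Dtop_nonneg p.1 1
      have h1 := Dtop_le p.1 1
      refine ⟨fun j => add_nonneg (mul_nonneg (by linarith) (p.2.2.1 j))
        (mul_nonneg h0 ((vtx v : Dtop n).2.1 j)), ?_⟩
      rw [Finset.sum_add_distrib, ← Finset.mul_sum, ← Finset.mul_sum, p.2.2.2,
        (vtx v : Dtop n).2.2]
      ring⟩, by
    refine Continuous.subtype_mk ?_ _
    refine continuous_pi fun j => ?_
    have c1 : Continuous fun p : Dtop 1 × Dtop n => p.1.1 1 :=
      (continuous_apply (1 : Fin 2)).comp (continuous_subtype_val.comp continuous_fst)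
    have c2 : Continuous fun p : Dtop 1 × Dtop n => p.2.1 j :=
      (continuous_apply j).comp (continuous_subtype_val.comp continuous_snd)
    exact ((continuous_const.sub c1).mul c2).add (c1.mul continuous_const)⟩

theorem lineH_apply {n : ℕ} (v : Fin (n + 1)) (s : Dtop 1) (x : Dtop n) (j : Fin (n + 1)) :
    (lineH v (s, x)).1 j = (1 - s.1 1) * x.1 j + s.1 1 * (vtx v : Dtop n).1 j := rfl

theorem acyc_face_top {n : ℕ} (F : Finset (Fin (n + 1))) (v : Fin (n + 1)) (hv : v ∈ F) :
    Acyc (Sub.pt (P := Sing (Dtop n)) (tmap (cst v : Mo 0 n))) (SingIn (cxT {F})) := by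
  have hpt : ∀ m (σ : C(Dtop m, Dtop n)), (∀ t, σ t = vtx v) ↔
      σ ∈ (Sub.pt (P := Sing (Dtop n)) (tmap (cst v : Mo 0 n))).car m := by
    intro m σ
    have e : (Sing (Dtop n)).deg (tmap (cst v : Mo 0 n)) m = tmap (cst v : Mo m n) := by
      refine ContinuousMap.ext fun t => ?_
      show tmap (cst v : Mo 0 n) (tmap (cst 0 : Mo m 0) t) = _
      rw [tmap_comp]
      rfl
    constructor
    · intro h
      show σ = _
      rw [e]
      refine ContinuousMap.ext fun t => ?_
      rw [tmap_cst]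
      exact h t
    · intro h t
      have h2 : σ = _ := h
      rw [h2, e, tmap_cst]
  have hle : Sub.pt (P := Sing (Dtop n)) (tmap (cst v : Mo 0 n)) ≤ SingIn (cxT {F}) := by
    intro m σ h t
    rw [(hpt m σ).2 h t]
    refine ⟨F, Finset.mem_singleton_self F, fun i hi => ?_⟩
    rw [vtx_apply, if_neg]
    rintro rfl
    exact hi hv
  refine acyc_of_deformation hle (singHtpy (lineH v)) (fun m σ _ => ?_) (fun m σ h => ?_)
    (fun m a σ h t => ?_) (fun m a σ h => ?_)
  · refine ContinuousMap.ext fun t => ?_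
    rw [singHtpy_cst]
    refine Subtype.ext (funext fun j => ?_)
    rw [lineH_apply, vtx_apply, if_neg (by decide : ¬ (1 : Fin 2) = 0)]
    ring
  · refine (hpt m _).1 fun t => ?_
    rw [singHtpy_cst]
    refine Subtype.ext (funext fun j => ?_)
    rw [lineH_apply, vtx_apply, if_pos rfl]
    ring
  · obtain ⟨G, hG, h2⟩ := h t
    rw [Finset.mem_singleton] at hG
    subst hG
    refine ⟨G, Finset.mem_singleton_self G, fun i hi => ?_⟩
    rw [singHtpy_apply, lineH_apply, h2 i hi, vtx_apply, if_neg]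
    · ring
    · rintro rfl
      exact hi hv
  · refine (hpt m _).1 fun t => ?_
    rw [singHtpy_apply, (hpt m σ).2 h t]
    refine Subtype.ext (funext fun j => ?_)
    rw [lineH_apply]
    ring

theorem acyc_face {n : ℕ} (F : Finset (Fin (n + 1))) (hF : F.Nonempty) :
    Acyc ((cxS {F}).map (yoT n)) (SingIn (cxT {F})) := by
  have hv := F.min'_mem hF
  set v := F.min' hF with hvd
  have h1 := acyc_face_comb F hF
  rw [← hvd] at h1
  have hle : Sub.pt (P := Del n) (cst v : Mo 0 n) ≤ cxS {F} := by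
    rintro m θ h
    refine ⟨F, Finset.mem_singleton_self F, fun i => ?_⟩
    have : θ = (cst v : Mo m n) := h
    rw [this]
    exact hv
  have h2 := acyc_map_yoT hle h1
  have e : (Sub.pt (P := Del n) (cst v : Mo 0 n)).map (yoT n) =
      Sub.pt (P := Sing (Dtop n)) (tmap (cst v : Mo 0 n)) := by
    apply Sub.ext
    funext m
    ext σ
    have e1 : (Sing (Dtop n)).deg (tmap (cst v : Mo 0 n)) m = tmap (cst v : Mo m n) := by
      refine ContinuousMap.ext fun t => ?_
      show tmap (cst v : Mo 0 n) (tmap (cst 0 : Mo m 0) t) = _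
      rw [tmap_comp]
      rfl
    constructor
    · rintro ⟨θ, hθ, rfl⟩
      have hθ' : θ = (cst v : Mo m n) := hθ
      subst hθ'
      show tmap _ = _
      rw [e1]
    · intro h
      have h' : σ = _ := h
      rw [h', e1]
      exact ⟨(cst v : Mo m n), rfl, rfl⟩
  rw [e] at h2
  refine Acyc.of_left ?_ (map_cxS_le _) h2 (acyc_face_top F v hv)
  rw [← e]
  rintro m σ ⟨θ, hθ, rfl⟩
  exact ⟨θ, hle m hθ, rfl⟩

end MM
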