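import Pool.Agent.Lib_MP_33f7bb_d.S6A
import Pool.Agent.Lib_MP_33f7bb_d.S5

/-!
# S6B: radial expansion of a face and excision

`radH F`: `h(s, x) = β + L (x - β)`, `β` the barycentre of `F`, `L = 1 + s (λ(x) - 1)`,
`λ(x) = 1/(1 - |F| min(μ x, c))`, `μ x = min_{i ∈ F} x_i`, `c = 1/(2|F|)`.
-/

namespace MM

variable {n : ℕ}

/-- minimal coordinate in `F` -/
noncomputable def muF (F : Finset (Fin (n + 1))) (hF : F.Nonempty) (x : Dtop n) : ℝ :=
  F.inf' hF fun i => x.1 i

theorem muF_cont (F : Finset (Fin (n + 1))) (hF : F.Nonempty) : Continuous (muF F hF) := by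
  unfold muF
  refine Continuous.finset_inf'_apply hF fun i _ => ?_
  exact (continuous_apply i).comp continuous_subtype_val

theorem muF_nonneg (F : Finset (Fin (n + 1))) (hF : F.Nonempty) (x : Dtop n) :
    0 ≤ muF F hF x := by
  unfold muF
  rw [Finset.le_inf'_iff]
  exact fun i _ => Dtop_nonneg x i

theorem muF_le (F : Finset (Fin (n + 1))) (hF : F.Nonempty) (x : Dtop n) {i : Fin (n + 1)}
    (hi : i ∈ F) : muF F hF x ≤ x.1 i := Finset.inf'_le _ hi

theorem muF_exists (F : Finset (Fin (n + 1))) (hF : F.Nonempty) (x : Dtop n) :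
    ∃ i ∈ F, muF F hF x = x.1 i := Finset.exists_mem_eq_inf' hF _

/-- expansion factor -/
noncomputable def lamF (F : Finset (Fin (n + 1))) (hF : F.Nonempty) (x : Dtop n) : ℝ :=
  1 / (1 - F.card * min (muF F hF x) (1 / (2 * F.card)))

theorem lamF_den (F : Finset (Fin (n + 1))) (hF : F.Nonempty) (x : Dtop n) :
    1 / 2 ≤ 1 - F.card * min (muF F hF x) (1 / (2 * F.card)) := by
  have hc : (0 : ℝ) < F.card := by exact_mod_cast hF.card_pos
  have h1 : F.card * min (muF F hF x) (1 / (2 * F.card)) ≤ F.card * (1 / (2 * F.card)) :=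
    mul_le_mul_of_nonneg_left (min_le_right _ _) hc.le
  have h2 : (F.card : ℝ) * (1 / (2 * F.card)) = 1 / 2 := by field_simp
  linarith

theorem lamF_den' (F : Finset (Fin (n + 1))) (hF : F.Nonempty) (x : Dtop n) :
    1 - F.card * min (muF F hF x) (1 / (2 * F.card)) ≤ 1 := by
  have hc : (0 : ℝ) < F.card := by exact_mod_cast hF.card_pos
  have h1 : 0 ≤ F.card * min (muF F hF x) (1 / (2 * F.card)) :=
    mul_nonneg hc.le (le_min (muF_nonneg F hF x) (by positivity))
  linarith

theorem lamF_cont (F : Finset (Fin (n + 1))) (hF : F.Nonempty) : Continuous (lamF F hF) := by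
  unfold lamF
  refine Continuous.div continuous_const ?_ fun x => ?_
  · exact continuous_const.sub (continuous_const.mul ((muF_cont F hF).min continuous_const))
  · have := lamF_den F hF x
    linarith

theorem one_le_lamF (F : Finset (Fin (n + 1))) (hF : F.Nonempty) (x : Dtop n) :
    1 ≤ lamF F hF x := by
  unfold lamF
  rw [le_div_iff₀ (by linarith [lamF_den F hF x])]
  linarith [lamF_den' F hF x]

/-- barycentre of `F` -/
noncomputable def betF (F : Finset (Fin (n + 1))) (i : Fin (n + 1)) : ℝ :=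
  if i ∈ F then 1 / F.card else 0

theorem betF_sum (F : Finset (Fin (n + 1))) (hF : F.Nonempty) : ∑ i, betF F i = 1 := by
  have hc : (F.card : ℝ) ≠ 0 := by exact_mod_cast hF.card_pos.ne'
  unfold betF
  rw [Finset.sum_ite_mem, Finset.univ_inter, Finset.sum_const, nsmul_eq_mul]
  field_simp

theorem rad_nonneg (F : Finset (Fin (n + 1))) (hF : F.Nonempty) (x : Dtop n) {L : ℝ}
    (h1 : 1 ≤ L) (h2 : L ≤ lamF F hF x) (i : Fin (n + 1)) :
    0 ≤ betF F i + L * (x.1 i - betF F i) := by
  have hc : (0 : ℝ) < F.card := by exact_mod_cast hF.card_pos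
  unfold betF
  split_ifs with hi
  · rcases le_total (1 / (F.card : ℝ)) (x.1 i) with h | h
    · have : 0 ≤ L * (x.1 i - 1 / F.card) := mul_nonneg (by linarith) (by linarith)
      have : (0 : ℝ) < 1 / F.card := by positivity
      linarith
    · have h3 : L * (1 / F.card - x.1 i) ≤ lamF F hF x * (1 / F.card - x.1 i) :=
        mul_le_mul_of_nonneg_right h2 (by linarith)
      have h4 : lamF F hF x * (1 / F.card - x.1 i) ≤ 1 / F.card := by
        unfold lamF
        rw [div_mul_eq_mul_div, one_mul, div_le_iff₀ (by linarith [lamF_den F hF x])]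
        have h5 : min (muF F hF x) (1 / (2 * F.card)) ≤ x.1 i :=
          (min_le_left _ _).trans (muF_le F hF x hi)
        have h6 : 1 / (F.card : ℝ) * (1 - F.card * min (muF F hF x) (1 / (2 * F.card))) =
            1 / F.card - min (muF F hF x) (1 / (2 * F.card)) := by
          field_simp
        rw [h6]
        linarith
      have h7 : L * (x.1 i - 1 / F.card) = -(L * (1 / F.card - x.1 i)) := by ring
      rw [h7]
      linarith
  · rw [sub_zero, zero_add]
    exact mul_nonneg (by linarith) (Dtop_nonneg x i)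

theorem rad_L (F : Finset (Fin (n + 1))) (hF : F.Nonempty) (s : Dtop 1) (x : Dtop n) :
    1 ≤ 1 + s.1 1 * (lamF F hF x - 1) ∧ 1 + s.1 1 * (lamF F hF x - 1) ≤ lamF F hF x := by
  have h0 := Dtop_nonneg s 1
  have h1 := Dtop_le s 1
  have h2 := one_le_lamF F hF x
  constructor <;> nlinarith

/-- the radial expansion -/
noncomputable def radH (F : Finset (Fin (n + 1))) (hF : F.Nonempty) :
    C(Dtop 1 × Dtop n, Dtop n) :=
  ⟨fun p => ⟨fun i => betF F i + (1 + p.1.1 1 * (lamF F hF p.2 - 1)) * (p.2.1 i - betF F i), by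
      refine ⟨fun i => rad_nonneg F hF p.2 (rad_L F hF p.1 p.2).1 (rad_L F hF p.1 p.2).2 i, ?_⟩
      rw [Finset.sum_add_distrib, ← Finset.mul_sum, Finset.sum_sub_distrib, betF_sum F hF,
        p.2.2.2]
      ring⟩, by
    refine Continuous.subtype_mk ?_ _
    refine continuous_pi fun j => ?_
    have c1 : Continuous fun p : Dtop 1 × Dtop n => p.1.1 1 :=
      (continuous_apply (1 : Fin 2)).comp (continuous_subtype_val.comp continuous_fst)
    have c2 : Continuous fun p : Dtop 1 × Dtop n => p.2.1 j :=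
      (continuous_apply j).comp (continuous_subtype_val.comp continuous_snd)
    have c3 : Continuous fun p : Dtop 1 × Dtop n => lamF F hF p.2 :=
      (lamF_cont F hF).comp continuous_snd
    exact continuous_const.add ((continuous_const.add (c1.mul (c3.sub continuous_const))).mul
      (c2.sub continuous_const))⟩

theorem radH_apply (F : Finset (Fin (n + 1))) (hF : F.Nonempty) (s : Dtop 1) (x : Dtop n)
    (i : Fin (n + 1)) : (radH F hF (s, x)).1 i =
      betF F i + (1 + s.1 1 * (lamF F hF x - 1)) * (x.1 i - betF F i) := rfl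

theorem radH_zero (F : Finset (Fin (n + 1))) (hF : F.Nonempty) (x : Dtop n) :
    radH F hF (vtx 0, x) = x := by
  refine Subtype.ext (funext fun i => ?_)
  rw [radH_apply, vtx_apply, if_neg (by decide : ¬ (1 : Fin 2) = 0)]
  ring

theorem radH_fix (F : Finset (Fin (n + 1))) (hF : F.Nonempty) (s : Dtop 1) (x : Dtop n)
    (hx : muF F hF x = 0) : radH F hF (s, x) = x := by
  have hc : (0 : ℝ) < F.card := by exact_mod_cast hF.card_pos
  have h1 : lamF F hF x = 1 := by
    unfold lamF
    rw [hx, min_eq_left (by positivity), mul_zero, sub_zero, div_one]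
  refine Subtype.ext (funext fun i => ?_)
  rw [radH_apply, h1]
  ring

theorem radH_face (F : Finset (Fin (n + 1))) (hF : F.Nonempty) (s : Dtop 1) (x : Dtop n)
    (hx : ∀ i, i ∉ F → x.1 i = 0) (i : Fin (n + 1)) (hi : i ∉ F) :
    (radH F hF (s, x)).1 i = 0 := by
  rw [radH_apply, hx i hi]
  unfold betF
  rw [if_neg hi]
  ring

theorem muF_le_inv (F : Finset (Fin (n + 1))) (hF : F.Nonempty) (x : Dtop n) :
    muF F hF x ≤ 1 / F.card := by
  have hc : (0 : ℝ) < F.card := by exact_mod_cast hF.card_pos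
  rw [le_div_iff₀ hc, mul_comm]
  have h1 : ∑ i ∈ F, muF F hF x ≤ ∑ i ∈ F, x.1 i :=
    Finset.sum_le_sum fun i hi => muF_le F hF x hi
  rw [Finset.sum_const, nsmul_eq_mul] at h1
  refine h1.trans ?_
  rw [← Dtop_sum x]
  exact Finset.sum_le_sum_of_subset_of_nonneg (Finset.subset_univ _)
    fun i _ _ => Dtop_nonneg x i

theorem muF_radH (F : Finset (Fin (n + 1))) (hF : F.Nonempty) (s : Dtop 1) (x : Dtop n) :
    muF F hF (radH F hF (s, x)) ≤ muF F hF x := by
  obtain ⟨i, hi, h⟩ := muF_exists F hF x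
  refine (muF_le F hF _ hi).trans ?_
  rw [radH_apply, h]
  have h1 := muF_le_inv F hF x
  rw [h] at h1
  unfold betF
  rw [if_pos hi]
  have h2 := (rad_L F hF s x).1
  nlinarith

theorem radH_one (F : Finset (Fin (n + 1))) (hF : F.Nonempty) (x : Dtop n)
    (hx : muF F hF x ≤ 1 / (2 * F.card)) : ∃ i ∈ F, (radH F hF (vtx 1, x)).1 i = 0 := by
  obtain ⟨i, hi, h⟩ := muF_exists F hF x
  refine ⟨i, hi, ?_⟩
  have hc : (0 : ℝ) < F.card := by exact_mod_cast hF.card_pos
  have hd := lamF_den F hF x
  rw [radH_apply, vtx_apply, if_pos rfl, ← h]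
  unfold betF lamF
  rw [if_pos hi]
  rw [min_eq_left hx] at hd ⊢
  have hd' : (1 : ℝ) - F.card * muF F hF x ≠ 0 := by linarith
  field_simp
  ring

/-- excision for a maximal face -/
theorem acyc_excision (K : Finset (Finset (Fin (n + 1)))) (F : Finset (Fin (n + 1)))
    (hF : F.Nonempty) (h1 : ∀ G, G ⊂ F → G.Nonempty → ∃ G' ∈ K, G ⊆ G') (h2 : ∀ G ∈ K, ¬ F ⊆ G) :
    Acyc (SingIn (cxT K) ⊔ SingIn (cxT {F})) (SingIn (cxT K ∪ cxT {F})) := by
  classical
  have hc : (0 : ℝ) < F.card := by exact_mod_cast hF.card_pos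
  have hK0 : ∀ x ∈ cxT K, muF F hF x = 0 := by
    rintro x ⟨G, hG, hx⟩
    obtain ⟨i, hi, hi'⟩ := Finset.not_subset.1 (h2 G hG)
    have := muF_le F hF x hi
    rw [hx i hi'] at this
    exact le_antisymm this (muF_nonneg F hF x)
  have hbd : ∀ x : Dtop n, (∀ i, i ∉ F → x.1 i = 0) → (∃ i ∈ F, x.1 i = 0) → x ∈ cxT K := by
    rintro x hx ⟨i, hi, hxi⟩
    have hne : (F.erase i).Nonempty := by
      by_contra h
      rw [Finset.not_nonempty_iff_eq_empty] at h
      have : ∑ j, x.1 j = 0 := Finset.sum_eq_zero fun j _ => by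
        by_cases hj : j ∈ F
        · by_cases hji : j = i
          · rw [hji]; exact hxi
          · have : j ∈ F.erase i := Finset.mem_erase.2 ⟨hji, hj⟩
            rw [h] at this
            simp at this
        · exact hx j hj
      rw [Dtop_sum x] at this
      exact one_ne_zero this
    obtain ⟨G', hG', hsub⟩ := h1 (F.erase i) (Finset.erase_ssubset hi) hne
    refine ⟨G', hG', fun j hj => ?_⟩
    by_cases hjF : j ∈ F
    · by_cases hji : j = i
      · rw [hji]; exact hxi
      · exact absurd (hsub (Finset.mem_erase.2 ⟨hji, hjF⟩)) hj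
    · exact hx j hjF
  have hFmem : ∀ x : Dtop n, x ∈ cxT {F} ↔ ∀ i, i ∉ F → x.1 i = 0 := by
    intro x
    constructor
    · rintro ⟨G, hG, h⟩
      rw [Finset.mem_singleton] at hG
      subst hG
      exact h
    · exact fun h => ⟨F, Finset.mem_singleton_self F, h⟩
  set U : Set (Dtop n) := {x | x ∈ cxT K ∪ cxT {F} ∧ muF F hF x ≤ 1 / (2 * F.card)} with hU
  have hKU : cxT K ⊆ U := fun x hx => ⟨Or.inl hx, by rw [hK0 x hx]; positivity⟩
  have a1 : Acyc (SingIn U ⊔ SingIn (cxT {F})) (SingIn (cxT K ∪ cxT {F})) := by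
    refine small_simplices_rel _ {x | muF F hF x < 1 / (2 * F.card)} {x | 0 < muF F hF x} _ _
      (isOpen_lt (muF_cont F hF) continuous_const) (isOpen_lt continuous_const (muF_cont F hF))
      (fun x _ => ?_) (fun x hx => ⟨hx.1, le_of_lt hx.2⟩) (fun x hx => ?_)
    · rcases lt_or_ge (muF F hF x) (1 / (2 * F.card)) with h | h
      · exact Or.inl h
      · exact Or.inr (lt_of_lt_of_le (by positivity) h)
    · rcases hx.1 with h | h
      · have := hK0 x h
        have h3 : 0 < muF F hF x := hx.2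
        rw [this] at h3
        exact absurd h3 (lt_irrefl _)
      · exact h
  have a2 : Acyc ((SingIn (cxT K) ⊔ SingIn (cxT {F})) ⊓ SingIn U) (SingIn U) := by
    refine acyc_of_deformation (fun m σ h => h.2) (singHtpy (radH F hF)) (fun m σ _ => ?_)
      (fun m σ h => ?_) (fun m a σ h t => ?_) (fun m a σ h => ?_)
    · refine ContinuousMap.ext fun t => ?_
      rw [singHtpy_cst, radH_zero]
    · have h3 : (singHtpy (radH F hF)).app m (cst 1, σ) ∈ (SingIn (cxT K)).car m := by
        intro t
        rw [singHtpy_cst]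
        obtain ⟨h4, h5⟩ := h t
        rcases h4 with h4 | h4
        · rw [radH_fix F hF _ _ (hK0 _ h4)]
          exact h4
        · refine hbd _ (fun i hi => ?_) (radH_one F hF _ h5)
          exact radH_face F hF _ _ ((hFmem _).1 h4) i hi
      exact ⟨Or.inl h3, fun t => hKU (h3 t)⟩
    · rw [singHtpy_apply]
      obtain ⟨h4, h5⟩ := h t
      rcases h4 with h4 | h4
      · rw [radH_fix F hF _ _ (hK0 _ h4)]
        exact ⟨Or.inl h4, h5⟩
      · exact ⟨Or.inr ((hFmem _).2 (radH_face F hF _ _ ((hFmem _).1 h4))),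
          (muF_radH F hF _ _).trans h5⟩
    · obtain ⟨h3, h4⟩ := h
      refine ⟨?_, fun t => ?_⟩
      · rcases h3 with h3 | h3
        · refine Or.inl fun t => ?_
          rw [singHtpy_apply, radH_fix F hF _ _ (hK0 _ (h3 t))]
          exact h3 t
        · refine Or.inr fun t => ?_
          rw [singHtpy_apply]
          exact (hFmem _).2 (radH_face F hF _ _ ((hFmem _).1 (h3 t)))
      · rw [singHtpy_apply]
        obtain ⟨h5, h6⟩ := h4 t
        rcases h5 with h5 | h5
        · rw [radH_fix F hF _ _ (hK0 _ h5)]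
          exact ⟨Or.inl h5, h6⟩
        · exact ⟨Or.inr ((hFmem _).2 (radH_face F hF _ _ ((hFmem _).1 h5))),
            (muF_radH F hF _ _).trans h6⟩
  have a3 := Acyc.sup a2
  have e : (SingIn (cxT K) ⊔ SingIn (cxT {F})) ⊔ SingIn U = SingIn U ⊔ SingIn (cxT {F}) := by
    apply Sub.ext
    funext m
    ext σ
    constructor
    · rintro ((h | h) | h)
      · exact Or.inl fun t => hKU (h t)
      · exact Or.inr h
      · exact Or.inl h
    · rintro (h | h)
      · exact Or.inr h
      · exact Or.inl (Or.inr h)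
  rw [e] at a3
  refine Acyc.trans ?_ ?_ a3 a1
  · rintro m σ (h | h)
    · exact Or.inl fun t => hKU (h t)
    · exact Or.inr h
  · rintro m σ (h | h)
    · exact fun t => (h t).1
    · exact fun t => Or.inr (h t)

end MM
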