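import Pool.Agent.Lib_MP_33f7bb_d.S6B

/-!
# S6C: complexes of faces, induction over the number of faces

`acyc_cx`: for a down closed family `K` of faces the pair `(Sing |K|, K)` is acyclic.
-/

namespace MM

variable {n : ℕ}

theorem cxS_insert (K : Finset (Finset (Fin (n + 1)))) (F : Finset (Fin (n + 1))) :
    cxS (insert F K) = cxS K ⊔ cxS {F} := by
  apply Sub.ext
  funext m
  ext θ
  constructor
  · rintro ⟨G, hG, h⟩
    rcases Finset.mem_insert.1 hG with rfl | hG
    · exact Or.inr ⟨G, Finset.mem_singleton_self G, h⟩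
    · exact Or.inl ⟨G, hG, h⟩
  · rintro (⟨G, hG, h⟩ | ⟨G, hG, h⟩)
    · exact ⟨G, Finset.mem_insert_of_mem hG, h⟩
    · rw [Finset.mem_singleton] at hG
      exact ⟨F, Finset.mem_insert_self F K, hG ▸ h⟩

theorem cxT_insert (K : Finset (Finset (Fin (n + 1)))) (F : Finset (Fin (n + 1))) :
    cxT (insert F K) = cxT K ∪ cxT {F} := by
  ext x
  constructor
  · rintro ⟨G, hG, h⟩
    rcases Finset.mem_insert.1 hG with rfl | hG
    · exact Or.inr ⟨G, Finset.mem_singleton_self G, h⟩
    · exact Or.inl ⟨G, hG, h⟩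
  · rintro (⟨G, hG, h⟩ | ⟨G, hG, h⟩)
    · exact ⟨G, Finset.mem_insert_of_mem hG, h⟩
    · rw [Finset.mem_singleton] at hG
      exact ⟨F, Finset.mem_insert_self F K, hG ▸ h⟩

theorem map_sup {P Q : SS} (f : Hom P Q) (A B : Sub P) : (A ⊔ B).map f = A.map f ⊔ B.map f := by
  apply Sub.ext
  funext m
  ext y
  constructor
  · rintro ⟨x, hx | hx, rfl⟩
    · exact Or.inl ⟨x, hx, rfl⟩
    · exact Or.inr ⟨x, hx, rfl⟩
  · rintro (⟨x, hx, rfl⟩ | ⟨x, hx, rfl⟩)
    · exact ⟨x, Or.inl hx, rfl⟩
    · exact ⟨x, Or.inr hx, rfl⟩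

/-- gluing of acyclic pairs -/
theorem acyc_glue {P : SS} {A1 C1 A2 C2 B B' : Sub P} (hA1 : A1 ≤ C1) (hA2 : A2 ≤ C2)
    (h1 : Acyc A1 C1) (h2 : Acyc A2 C2) (h3 : Acyc B B') (hCA : C1 ⊓ A2 ≤ A1)
    (hB' : C1 ⊓ C2 = B') (hB : A2 ⊓ B' = B) : Acyc (A1 ⊔ A2) (C1 ⊔ C2) := by
  have s1 : Acyc (A1 ⊔ A2) (C1 ⊔ A2) := by
    have e1 : (A1 ⊔ A2) ⊓ C1 = A1 := by
      apply Sub.ext
      funext m
      ext x
      constructor
      · rintro ⟨h | h, h'⟩
        · exact h
        · exact hCA m ⟨h', h⟩
      · exact fun h => ⟨Or.inl h, hA1 m h⟩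
    have e2 : (A1 ⊔ A2) ⊔ C1 = C1 ⊔ A2 := by
      apply Sub.ext
      funext m
      ext x
      constructor
      · rintro ((h | h) | h)
        · exact Or.inl (hA1 m h)
        · exact Or.inr h
        · exact Or.inl h
      · rintro (h | h)
        · exact Or.inr h
        · exact Or.inl (Or.inr h)
    rw [← e2]
    apply Acyc.sup
    rw [e1]
    exact h1
  have s2 : Acyc (C1 ⊔ A2) (C1 ⊔ C2) := by
    have e1 : (C1 ⊔ A2) ⊓ C2 = A2 ⊔ B' := by
      rw [← hB']
      apply Sub.ext
      funext m
      ext x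
      constructor
      · rintro ⟨h | h, h'⟩
        · exact Or.inr ⟨h, h'⟩
        · exact Or.inl h
      · rintro (h | h)
        · exact ⟨Or.inr h, hA2 m h⟩
        · exact ⟨Or.inl h.1, h.2⟩
    have e2 : (C1 ⊔ A2) ⊔ C2 = C1 ⊔ C2 := by
      apply Sub.ext
      funext m
      ext x
      constructor
      · rintro ((h | h) | h)
        · exact Or.inl h
        · exact Or.inr (hA2 m h)
        · exact Or.inr h
      · rintro (h | h)
        · exact Or.inl (Or.inl h)
        · exact Or.inr h
    rw [← e2]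
    apply Acyc.sup
    rw [e1]
    have hle : A2 ⊔ B' ≤ C2 := by
      rw [← hB']
      rintro m x (h | h)
      · exact hA2 m h
      · exact h.2
    refine Acyc.of_left (Sub.le_sup_left' _ _) hle ?_ h2
    apply Acyc.sup
    rw [hB]
    exact h3
  refine Acyc.trans ?_ ?_ s1 s2
  · rintro m x (h | h)
    · exact Or.inl (hA1 m h)
    · exact Or.inr h
  · rintro m x (h | h)
    · exact Or.inl h
    · exact Or.inr (hA2 m h)

theorem SingIn_inf {X : Type} [TopologicalSpace X] (A B : Set X) :
    SingIn A ⊓ SingIn B = SingIn (A ∩ B) := by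
  apply Sub.ext
  funext m
  ext σ
  constructor
  · rintro ⟨h, h'⟩ t
    exact ⟨h t, h' t⟩
  · exact fun h => ⟨fun t => (h t).1, fun t => (h t).2⟩

theorem acyc_cx (N : ℕ) : ∀ K : Finset (Finset (Fin (n + 1))), K.card ≤ N →
    (∀ G ∈ K, ∀ G', G' ⊆ G → G' ∈ K) → Acyc ((cxS K).map (yoT n)) (SingIn (cxT K)) := by
  classical
  induction N with
  | zero =>
    intro K hK _
    have : K = ∅ := Finset.card_eq_zero.1 (Nat.le_zero.1 hK)
    subst this
    intro m z hz _
    have : z = 0 := by
      rw [← Finsupp.support_eq_empty, Finset.eq_empty_iff_forall_notMem]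
      intro σ hσ
      obtain ⟨G, hG, _⟩ := hz σ hσ (vtx 0)
      simp at hG
    subst this
    refine ⟨0, SuppIn.zero _, ?_⟩
    rw [dif_zero, add_zero]
    exact SuppIn.zero _
  | succ N ih =>
    intro K hK hdown
    by_cases hne : ∃ F ∈ K, F.Nonempty
    · obtain ⟨F, hFK, hmax⟩ := Finset.exists_max_image K Finset.card
        (by obtain ⟨F, hF, _⟩ := hne; exact ⟨F, hF⟩)
      have hF : F.Nonempty := by
        obtain ⟨F', hF', hn⟩ := hne
        rw [← Finset.card_pos]
        exact lt_of_lt_of_le (Finset.card_pos.2 hn) (hmax F' hF')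
      set K' := K.erase F with hK'
      have hins : insert F K' = K := Finset.insert_erase hFK
      have hcard : K'.card ≤ N := by
        rw [hK', Finset.card_erase_of_mem hFK]
        omega
      have hdown' : ∀ G ∈ K', ∀ G', G' ⊆ G → G' ∈ K' := by
        intro G hG G' hsub
        obtain ⟨hGF, hGK⟩ := Finset.mem_erase.1 hG
        refine Finset.mem_erase.2 ⟨?_, hdown G hGK G' hsub⟩
        rintro rfl
        exact hGF (Finset.eq_of_subset_of_card_le hsub (hmax G hGK)).symm
      have h2 : ∀ G ∈ K', ¬ F ⊆ G := by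
        intro G hG hsub
        obtain ⟨hGF, hGK⟩ := Finset.mem_erase.1 hG
        exact hGF (Finset.eq_of_subset_of_card_le hsub (hmax G hGK)).symm
      have h1 : ∀ G, G ⊂ F → G.Nonempty → ∃ G' ∈ K', G ⊆ G' := fun G hG _ =>
        ⟨G, Finset.mem_erase.2 ⟨hG.ne, hdown F hFK G hG.subset⟩, Finset.Subset.refl G⟩
      have hsubF : F.ssubsets ⊆ K' := fun G hG => by
        rw [Finset.mem_ssubsets] at hG
        exact Finset.mem_erase.2 ⟨hG.ne, hdown F hFK G hG.subset⟩
      have E1 := ih K' hcard hdown'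
      have E3 := ih F.ssubsets ((Finset.card_le_card hsubF).trans hcard) (fun G hG G' hsub => by
        rw [Finset.mem_ssubsets] at hG ⊢
        exact lt_of_le_of_lt hsub hG)
      have E2 := acyc_face F hF
      have hint : cxT K' ∩ cxT {F} = cxT F.ssubsets := by
        ext x
        constructor
        · rintro ⟨⟨G, hG, hx⟩, ⟨G', hG', hx'⟩⟩
          rw [Finset.mem_singleton] at hG'
          subst hG'
          refine ⟨G ∩ G', ?_, fun i hi => ?_⟩
          · rw [Finset.mem_ssubsets]
            refine (Finset.inter_subset_right).ssubset_of_ne fun h => h2 G hG ?_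
            rw [← h]
            exact Finset.inter_subset_left
          · by_cases hiG : i ∈ G
            · exact hx' i fun h => hi (Finset.mem_inter.2 ⟨hiG, h⟩)
            · exact hx i hiG
        · rintro ⟨G, hG, hx⟩
          refine ⟨⟨G, hsubF hG, hx⟩, ⟨F, Finset.mem_singleton_self F, fun i hi => hx i fun h => ?_⟩⟩
          rw [Finset.mem_ssubsets] at hG
          exact hi (hG.subset h)
      have hg := acyc_glue (map_cxS_le K') (map_cxS_le {F}) E1 E2 E3 (by
        rintro m σ ⟨h, ⟨θ, hθ, rfl⟩⟩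
        exact ⟨θ, mem_cxS_of_bary K' θ (h _), rfl⟩) (by rw [SingIn_inf, hint]) (by
        apply Sub.ext
        funext m
        ext σ
        constructor
        · rintro ⟨⟨θ, hθ, rfl⟩, h⟩
          exact ⟨θ, mem_cxS_of_bary _ θ (h _), rfl⟩
        · rintro ⟨θ, ⟨G, hG, hθ⟩, rfl⟩
          refine ⟨⟨θ, ⟨F, Finset.mem_singleton_self F, fun i => ?_⟩, rfl⟩,
            map_cxS_le _ m ⟨θ, ⟨G, hG, hθ⟩, rfl⟩⟩
          rw [Finset.mem_ssubsets] at hG
          exact hG.subset (hθ i))
      have hex := acyc_excision K' F hF h1 h2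
      rw [← hins, cxS_insert, cxT_insert, map_sup]
      refine Acyc.trans ?_ ?_ hg hex
      · rintro m σ (h | h)
        · exact Or.inl (map_cxS_le K' m h)
        · exact Or.inr (map_cxS_le {F} m h)
      · rintro m σ (h | h)
        · exact fun t => Or.inl (h t)
        · exact fun t => Or.inr (h t)
    · -- all faces are empty
      push Not at hne
      intro m z hz _
      have : z = 0 := by
        rw [← Finsupp.support_eq_empty, Finset.eq_empty_iff_forall_notMem]
        intro σ hσ
        obtain ⟨G, hG, h⟩ := hz σ hσ (vtx 0)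
        have hG0 : G = ∅ := by
          by_contra h0
          exact (Finset.nonempty_iff_ne_empty.2 h0) |> fun h5 => by
            have := hne G hG
            first
              | exact this h5
              | exact absurd this h0
        have hs := Dtop_sum (σ (vtx 0))
        rw [Finset.sum_eq_zero (fun i _ => h i (by rw [hG0]; simp))] at hs
        exact zero_ne_one hs
      subst this
      refine ⟨0, SuppIn.zero _, ?_⟩
      rw [dif_zero, add_zero]
      exact SuppIn.zero _

/-- the boundary of the simplex -/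
theorem acyc_bd (n : ℕ) : Acyc ((bd n).map (yoT n)) (SingIn (bdTop n)) := by
  classical
  have h := acyc_cx (n := n) _ (Finset.univ : Finset (Fin (n + 1))).ssubsets le_rfl
    (fun G hG G' hsub => by
      rw [Finset.mem_ssubsets] at hG ⊢
      exact lt_of_le_of_lt hsub hG)
  have e1 : cxS (Finset.univ : Finset (Fin (n + 1))).ssubsets = bd n := by
    apply Sub.ext
    funext m
    ext θ
    constructor
    · rintro ⟨G, hG, hθ⟩ hs
      rw [Finset.mem_ssubsets] at hG
      refine hG.not_subset fun i _ => ?_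
      obtain ⟨k, rfl⟩ := hs i
      exact hθ k
    · intro hθ
      have hθ' : ¬ Function.Surjective (θ : Fin (m + 1) → Fin (n + 1)) := hθ
      unfold Function.Surjective at hθ'
      push Not at hθ'
      obtain ⟨j, hj⟩ := hθ'
      refine ⟨Finset.univ.erase j, ?_, fun i => Finset.mem_erase.2 ⟨hj i, Finset.mem_univ _⟩⟩
      rw [Finset.mem_ssubsets]
      exact Finset.erase_ssubset (Finset.mem_univ j)
  have e2 : cxT (Finset.univ : Finset (Fin (n + 1))).ssubsets = bdTop n := by
    ext x
    constructor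
    · rintro ⟨G, hG, hx⟩
      rw [Finset.mem_ssubsets] at hG
      obtain ⟨j, _, hj⟩ := Finset.exists_of_ssubset hG
      exact ⟨j, hx j hj⟩
    · rintro ⟨j, hj⟩
      refine ⟨Finset.univ.erase j, ?_, fun i hi => ?_⟩
      · rw [Finset.mem_ssubsets]
        exact Finset.erase_ssubset (Finset.mem_univ j)
      · have : i = j := by
          by_contra h
          exact hi (Finset.mem_erase.2 ⟨h, Finset.mem_univ _⟩)
        rw [this]
        exact hj
  rw [e1, e2] at h
  exact h

end MM
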