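import Pool.Agent.Lib_MP_33f7bb_d.SDef

/-!
# S7: the sphere and the boundary of the simplex

`sphere_bd`: maps `f : S^N → ∂Δ_(N+1)` and `g : ∂Δ_(N+1) → S^N` with `f ∘ g = id`.

PROOF. Let `V = EuclideanSpace ℝ (Fin (N+2))`, `L = (ℝ ∙ (1,...,1))ᗮ ≤ V`, i.e. `v ∈ L ↔ ∑ v i = 0`; `finrank L = N+1`, so there is a
linear isometry `e : L ≃ₗᵢ[ℝ] EuclideanSpace ℝ (Fin (N+1))` (`(stdOrthonormalBasis ℝ L).reindex ...`, `.repr`).
`b = 1/(N+2)` (barycentre has all coordinates `b`).
For `v ∈ L`, `v ≠ 0` put `M v = max_i (-v i) > 0` (`Finset.univ.sup'`; positive since `∑ v i = 0` and `v ≠ 0`), continuous, and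
`F v = (fun i => b + (b / M v) * v i)`. Then `F v ∈ stdSimplex` (coordinates `≥ b - (b / M v) M v = 0`, sum `1`) and some coordinate is
`0` (an index where the max is attained). `f x = F (e.symm x)` for `x` in the unit sphere (`e.symm x ≠ 0`).
For `x ∈ ∂Δ`: `w x = (fun i => x i - b) ∈ L`, `w x ≠ 0` (some coordinate of `x` is `0`, so `w x i = -b ≠ 0`), `g x = e (w x / ‖w x‖)`.
`M (w x) = b` (all `x i ≥ 0`, one equals `0`), `M (w x / ‖w x‖) = b / ‖w x‖`, so
`F (w x / ‖w x‖) i = b + ‖w x‖ * (x i - b) / ‖w x‖ = x i`.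
-/

namespace MM

section S7

variable {N : ℕ}

/-- the vector with coordinate sum zero -/
private noncomputable def S7v (x : EuclideanSpace ℝ (Fin (N + 1))) : Fin (N + 2) → ℝ :=
  Fin.cons (-∑ i, x i) fun i => x i

private theorem S7v_sum (x : EuclideanSpace ℝ (Fin (N + 1))) : ∑ i, S7v x i = 0 := by
  rw [Fin.sum_univ_succ]
  show -∑ i, x i + ∑ i, x i = 0
  exact neg_add_cancel _

private theorem S7v_cont (i : Fin (N + 2)) :
    Continuous fun x : EuclideanSpace ℝ (Fin (N + 1)) => S7v x i := by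
  refine Fin.cases ?_ (fun j => ?_) i
  · show Continuous fun x : EuclideanSpace ℝ (Fin (N + 1)) => -∑ i, x i
    fun_prop
  · show Continuous fun x : EuclideanSpace ℝ (Fin (N + 1)) => x j
    fun_prop

/-- the maximum of the negatives of the coordinates -/
private noncomputable def S7M (x : EuclideanSpace ℝ (Fin (N + 1))) : ℝ :=
  Finset.univ.sup' Finset.univ_nonempty fun i => -S7v x i

private theorem S7M_cont : Continuous fun x : EuclideanSpace ℝ (Fin (N + 1)) => S7M x :=
  Continuous.finset_sup'_apply Finset.univ_nonempty fun i _ => (S7v_cont i).neg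

private theorem S7M_le (x : EuclideanSpace ℝ (Fin (N + 1))) (i : Fin (N + 2)) :
    -S7v x i ≤ S7M x := Finset.le_sup' (fun i => -S7v x i) (Finset.mem_univ i)

private theorem S7M_eq (x : EuclideanSpace ℝ (Fin (N + 1))) : ∃ i, S7M x = -S7v x i := by
  obtain ⟨i, -, h⟩ := Finset.exists_mem_eq_sup' Finset.univ_nonempty fun i => -S7v x i
  exact ⟨i, h⟩

private theorem S7M_pos {x : EuclideanSpace ℝ (Fin (N + 1))} (hx : x ≠ 0) : 0 < S7M x := by
  by_contra h
  apply hx
  have h0 : ∀ i ∈ Finset.univ, 0 ≤ S7v x i := fun i _ => by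
    have := S7M_le x i
    linarith
  have h1 := (Finset.sum_eq_zero_iff_of_nonneg h0).1 (S7v_sum x)
  ext j
  exact h1 j.succ (Finset.mem_univ _)

/-- the barycentric coordinate -/
private noncomputable def S7b (N : ℕ) : ℝ := ((N : ℝ) + 2)⁻¹

private theorem S7b_pos : 0 < S7b N := by
  unfold S7b
  positivity

private theorem S7b_mul : ((N : ℝ) + 2) * S7b N = 1 := by
  unfold S7b
  exact mul_inv_cancel₀ (by positivity)

/-- the radial map -/
private noncomputable def S7F (x : EuclideanSpace ℝ (Fin (N + 1))) (i : Fin (N + 2)) : ℝ :=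
  S7b N + S7b N / S7M x * S7v x i

private theorem S7F_mem {x : EuclideanSpace ℝ (Fin (N + 1))} (hx : x ≠ 0) :
    S7F x ∈ stdSimplex ℝ (Fin (N + 2)) := by
  have hM := S7M_pos hx
  have hb := S7b_pos (N := N)
  constructor
  · intro i
    have h1 := S7M_le x i
    have h2 : 0 < S7b N / S7M x := div_pos hb hM
    have h3 : S7b N / S7M x * S7M x = S7b N := div_mul_cancel₀ _ hM.ne'
    have h4 : 0 ≤ S7b N / S7M x * (S7M x + S7v x i) := mul_nonneg h2.le (by linarith)
    show 0 ≤ S7b N + S7b N / S7M x * S7v x i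
    rw [mul_add, h3] at h4
    exact h4
  · show ∑ i, (S7b N + S7b N / S7M x * S7v x i) = 1
    rw [Finset.sum_add_distrib, ← Finset.mul_sum, S7v_sum, mul_zero, add_zero, Finset.sum_const,
      Finset.card_univ, Fintype.card_fin, nsmul_eq_mul]
    push_cast
    exact S7b_mul

private theorem S7F_zero {x : EuclideanSpace ℝ (Fin (N + 1))} (hx : x ≠ 0) : ∃ i, S7F x i = 0 := by
  have hM := S7M_pos hx
  obtain ⟨i, hi⟩ := S7M_eq x
  refine ⟨i, ?_⟩
  show S7b N + S7b N / S7M x * S7v x i = 0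
  have h1 : S7v x i = -S7M x := by rw [hi, neg_neg]
  rw [h1, mul_neg, div_mul_cancel₀ _ hM.ne', add_neg_cancel]

private theorem S7_ne (x : Sph N) : x.1 ≠ 0 := by
  intro h
  have h1 := x.2
  rw [mem_sphere_zero_iff_norm, h, norm_zero] at h1
  exact zero_ne_one h1

/-- the projection of the simplex -/
private noncomputable def S7B (x : Dtop (N + 1)) : EuclideanSpace ℝ (Fin (N + 1)) :=
  WithLp.toLp 2 fun i => x.1 i.succ - S7b N

private theorem S7B_cont : Continuous fun x : Dtop (N + 1) => S7B x := by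
  refine (PiLp.continuous_toLp 2 _).comp (continuous_pi fun i => ?_)
  exact ((continuous_apply i.succ).comp continuous_subtype_val).sub continuous_const

private theorem S7v_B (c : ℝ) (x : Dtop (N + 1)) (i : Fin (N + 2)) :
    S7v (c • S7B x) i = c * (x.1 i - S7b N) := by
  refine Fin.cases ?_ (fun j => ?_) i
  · have h1 : ∑ i, x.1 i = 1 := x.2.2
    rw [Fin.sum_univ_succ] at h1
    show -∑ i : Fin (N + 1), c * (x.1 i.succ - S7b N) = c * (x.1 0 - S7b N)
    rw [← Finset.mul_sum, Finset.sum_sub_distrib, Finset.sum_const, Finset.card_univ,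
      Fintype.card_fin, nsmul_eq_mul]
    have h2 := S7b_mul (N := N)
    push_cast
    linear_combination c * h2 - c * h1
  · rfl

private theorem S7M_B {c : ℝ} (hc : 0 < c) {x : Dtop (N + 1)} (hx : x ∈ bdTop (N + 1)) :
    S7M (c • S7B x) = c * S7b N := by
  apply le_antisymm
  · refine Finset.sup'_le _ _ fun i _ => ?_
    rw [S7v_B]
    have h1 : 0 ≤ x.1 i := x.2.1 i
    nlinarith [mul_nonneg hc.le h1]
  · obtain ⟨i, hi⟩ := hx
    have h1 := S7M_le (c • S7B x) i
    rw [S7v_B, hi] at h1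
    linarith

private theorem S7F_B {c : ℝ} (hc : 0 < c) {x : Dtop (N + 1)} (hx : x ∈ bdTop (N + 1)) :
    S7F (c • S7B x) = x.1 := by
  funext i
  show S7b N + S7b N / S7M (c • S7B x) * S7v (c • S7B x) i = x.1 i
  rw [S7M_B hc hx, S7v_B]
  have hb := S7b_pos (N := N)
  have h1 : S7b N / (c * S7b N) * (c * (x.1 i - S7b N)) = x.1 i - S7b N := by
    have hb' := hb.ne'
    have hc' := hc.ne'
    field_simp
  rw [h1]
  ring

private theorem S7B_ne {x : Dtop (N + 1)} (hx : x ∈ bdTop (N + 1)) : S7B x ≠ 0 := by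
  intro h
  have h1 := S7M_B (N := N) one_pos hx
  have h2 := S7v_B 1 x
  rw [one_smul, h] at h1 h2
  obtain ⟨i, hi⟩ := hx
  have h3 := h2 i
  have h4 : S7v (0 : EuclideanSpace ℝ (Fin (N + 1))) i = 0 := by
    refine Fin.cases ?_ (fun j => ?_) i
    · show -∑ i : Fin (N + 1), (0 : ℝ) = 0
      rw [Finset.sum_const_zero, neg_zero]
    · rfl
  rw [h4, hi] at h3
  have hb := S7b_pos (N := N)
  linarith

end S7

theorem sphere_bd (N : ℕ) : ∃ (f : C(Sph N, Dtop (N + 1))) (g : C(bdTop (N + 1), Sph N)),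
    (∀ x, f x ∈ bdTop (N + 1)) ∧ ∀ x : bdTop (N + 1), f (g x) = x.1 := by
  refine ⟨⟨fun x => ⟨S7F x.1, S7F_mem (S7_ne x)⟩, ?_⟩,
    ⟨fun x => ⟨‖S7B x.1‖⁻¹ • S7B x.1, ?_⟩, ?_⟩, ?_, ?_⟩
  · refine Continuous.subtype_mk (continuous_pi fun i => ?_) _
    refine continuous_const.add ((continuous_const.div (S7M_cont.comp continuous_subtype_val)
      fun x => (S7M_pos (S7_ne x)).ne').mul ((S7v_cont i).comp continuous_subtype_val))
  · rw [mem_sphere_zero_iff_norm, norm_smul, norm_inv, norm_norm]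
    exact inv_mul_cancel₀ (norm_ne_zero_iff.2 (S7B_ne x.2))
  · have h1 : Continuous fun x : bdTop (N + 1) => S7B x.1 := S7B_cont.comp continuous_subtype_val
    exact ((h1.norm.inv₀ fun x => norm_ne_zero_iff.2 (S7B_ne x.2)).smul h1).subtype_mk _
  · exact fun x => S7F_zero (S7_ne x)
  · intro x
    apply Subtype.ext
    exact S7F_B (inv_pos.2 (norm_pos_iff.2 (S7B_ne x.2))) x.2

end MM
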