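import Pool.Agent.Lib_MP_33f7bb_d.S6C
import Pool.Agent.Lib_MP_33f7bb_d.S7
import Pool.Agent.Lib_MP_33f7bb_d.A206

/-!
# S8: essential maps on `Sing S^N` from essential maps on the boundary of the simplex
-/

namespace MM

theorem exists_sing_of_bd (N : ℕ) {Y : SS}
    (hext : ∀ (P : SS) (A C : Sub P), A ≤ C → Acyc A C → ExtP Y A C)
    (m : Hom (bd (N + 1)).ss Y) (hm : ¬ Null m) :
    ∃ κ : Hom (Sing (Sph N)) Y, ¬ Null κ := by
  classical
  obtain ⟨f, g, hf, hfg⟩ := sphere_bd N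
  have h0 : ∀ k, (cst 0 : Mo k (N + 1)) ∈ (bd (N + 1)).car k := fun k hs => by
    obtain ⟨i, hi⟩ := hs 1
    have : (0 : Fin (N + 2)) = 1 := hi
    exact absurd (congrArg Fin.val this) (by simp)
  -- the map on the image of the boundary
  let f0 : Fn (Sing (Dtop (N + 1))) Y := fun k σ =>
    if h : ∃ θ : Mo k (N + 1), θ ∈ (bd (N + 1)).car k ∧ (yoT (N + 1)).app k θ = σ then
      m.app k ⟨h.choose, h.choose_spec.1⟩ else m.app k ⟨cst 0, h0 k⟩
  have hf0 : ∀ k (θ : Mo k (N + 1)) (hθ : θ ∈ (bd (N + 1)).car k),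
      f0 k ((yoT (N + 1)).app k θ) = m.app k ⟨θ, hθ⟩ := by
    intro k θ hθ
    have h : ∃ θ' : Mo k (N + 1), θ' ∈ (bd (N + 1)).car k ∧
        (yoT (N + 1)).app k θ' = (yoT (N + 1)).app k θ := ⟨θ, hθ, rfl⟩
    show (if h : _ then _ else _) = _
    rw [dif_pos h]
    congr 1
    exact Subtype.ext (yoT_inj h.choose_spec.2)
  have hnat : NatOn ((bd (N + 1)).map (yoT (N + 1))) f0 := by
    rintro k l θ' σ ⟨θ, hθ, rfl⟩
    rw [← (yoT (N + 1)).nat, hf0 _ _ ((bd (N + 1)).closed θ' hθ), hf0 _ _ hθ, ← m.nat]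
  have hle : (bd (N + 1)).map (yoT (N + 1)) ≤ SingIn (bdTop (N + 1)) := by
    rintro k σ ⟨θ, hθ, rfl⟩ t
    have hθ' : ¬ Function.Surjective (θ : Fin (k + 1) → Fin (N + 1 + 1)) := hθ
    unfold Function.Surjective at hθ'
    push Not at hθ'
    obtain ⟨j, hj⟩ := hθ'
    refine ⟨j, ?_⟩
    show (tmap θ t).1 j = 0
    rw [tmap_apply]
    exact Finset.sum_eq_zero fun i _ => if_neg (hj i)
  obtain ⟨g0, hg0, hg0'⟩ := hext _ _ _ hle (acyc_bd (N + 1)) f0 hnat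
  have hfin : ∀ k (σ : C(Dtop k, Sph N)), f.comp σ ∈ (SingIn (bdTop (N + 1))).car k :=
    fun k σ t => hf (σ t)
  let κ : Hom (Sing (Sph N)) Y := ⟨fun k σ => g0 k (f.comp σ), fun {k l} θ σ => by
    exact hg0 θ (f.comp σ) (hfin _ σ)⟩
  refine ⟨κ, fun hnull => hm ?_⟩
  let γ : Hom (bd (N + 1)).ss (Sing (Sph N)) := ⟨fun k θ => g.comp
    (⟨fun t => ⟨tmap θ.1 t, hle k ⟨θ.1, θ.2, rfl⟩ t⟩,
      Continuous.subtype_mk (tmap θ.1).continuous _⟩ : C(Dtop k, bdTop (N + 1))), fun {k l} f' θ => by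
    refine ContinuousMap.ext fun t => ?_
    show g ⟨tmap (θ.1.comp f') t, _⟩ = g ⟨tmap θ.1 (tmap f' t), _⟩
    congr 1
    exact Subtype.ext (tmap_comp f' θ.1 t).symm⟩
  have h := hnull.comp γ
  have e : κ.comp γ = m := by
    apply Hom.ext
    funext k θ
    show g0 k (f.comp (γ.app k θ)) = m.app k θ
    have e1 : f.comp (γ.app k θ) = (yoT (N + 1)).app k θ.1 := by
      refine ContinuousMap.ext fun t => ?_
      show f (g ⟨tmap θ.1 t, _⟩) = tmap θ.1 t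
      rw [hfg]
    rw [e1, hg0' k _ ⟨θ.1, θ.2, rfl⟩, hf0 k θ.1 θ.2]
  rwa [e] at h

theorem singOfBd : SingOfBd := fun N _ hext m hm => exists_sing_of_bd N hext m hm

end MM
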