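import Pool.Agent.Lib_MP_33f7bb_d.S1

/-!
# SDef: definitions of part S (barycentric subdivision, boundary of the simplex)

* `LD n`: simplicial set of tuples of points of `Δ_n` (affine simplices), `LS σ : LD n → Sing X`.
* `coneL b`: cone, `bary w`: barycentre.
* `SdL`, `DL`: subdivision and homotopy on chains of tuples.
* `SdX`, `DX`: natural operators on singular chains.
* `bdTop n`: boundary of the topological simplex.
-/

namespace MM

/-- tuples of points of `Δ_n` -/
abbrev LD (n : ℕ) : SS where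
  S m := Fin (m + 1) → Dtop n
  act f w := w ∘ f
  act_id _ := rfl
  act_comp _ _ _ := rfl

/-- cone with apex `b` -/
noncomputable def coneL {n : ℕ} (b : Dtop n) (m : ℕ) :
    Ch (LD n) m →ₗ[ZMod 2] Ch (LD n) (m + 1) :=
  Finsupp.lmapDomain (ZMod 2) (ZMod 2) (fun w : Fin (m + 1) → Dtop n => (Fin.cons b w : Fin (m + 2) → Dtop n))

/-- barycentre of a tuple -/
noncomputable def bary {m n : ℕ} (w : Fin (m + 1) → Dtop n) : Dtop n :=
  aff w stdSimplex.barycenter

/-- subdivision -/
noncomputable def SdL (n : ℕ) : ∀ m, Ch (LD n) m →ₗ[ZMod 2] Ch (LD n) m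
  | 0 => LinearMap.id
  | m + 1 => Finsupp.linearCombination (ZMod 2) fun w : Fin (m + 2) → Dtop n =>
      coneL (bary w) m (SdL n m (dif (P := LD n) (Finsupp.single w 1)))

/-- homotopy between the identity and the subdivision -/
noncomputable def DL (n : ℕ) : ∀ m, Ch (LD n) m →ₗ[ZMod 2] Ch (LD n) (m + 1)
  | 0 => 0
  | m + 1 => Finsupp.linearCombination (ZMod 2) fun w : Fin (m + 2) → Dtop n =>
      coneL (bary w) (m + 1) (Finsupp.single w 1 + DL n m (dif (P := LD n) (Finsupp.single w 1)))

variable {X : Type} [TopologicalSpace X]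

/-- affine simplices of a singular simplex -/
noncomputable def LS {n : ℕ} (σ : C(Dtop n, X)) : Hom (LD n) (Sing X) :=
  ⟨fun _ w => σ.comp (aff w), fun {m k} f w => by
    show σ.comp (aff (w ∘ f)) = (σ.comp (aff w)).comp (tmap f)
    rw [ContinuousMap.comp_assoc, aff_comp_tmap]⟩

variable (X) in
/-- subdivision of singular chains -/
noncomputable def SdX (n : ℕ) : Ch (Sing X) n →ₗ[ZMod 2] Ch (Sing X) n :=
  Finsupp.linearCombination (ZMod 2) fun σ : C(Dtop n, X) =>
    (SdL n n (Finsupp.single vtx 1)).mapDomain ((LS σ).app n)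

variable (X) in
/-- homotopy -/
noncomputable def DX (n : ℕ) : Ch (Sing X) n →ₗ[ZMod 2] Ch (Sing X) (n + 1) :=
  Finsupp.linearCombination (ZMod 2) fun σ : C(Dtop n, X) =>
    (DL n n (Finsupp.single vtx 1)).mapDomain ((LS σ).app (n + 1))

/-- boundary of the topological simplex -/
def bdTop (n : ℕ) : Set (Dtop n) := {x | ∃ i, x.1 i = 0}

end MM
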