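import Pool.Agent.Lib_MP_33f7bb_d.A712
import Pool.Agent.Lib_MP_33f7bb_d.A518
import Pool.Agent.Lib_MP_33f7bb_d.A611
import Pool.Agent.Lib_MP_33f7bb_d.A4Top
import Pool.Agent.Lib_MP_33f7bb_d.BTop
import Pool.Agent.Lib_MP_33f7bb_d.D10
import Pool.Agent.Lib_MP_33f7bb_d.S8

/-!
# Final assembly of the negative answer to Q1
-/

namespace MM

/-- part A: targets for all spheres -/
theorem existsTarget : ExistsTarget := by
  obtain ⟨S⟩ := exists_SqFam
  exact existsTarget_of' S (s2 S) homExact (bndAll s2a) h0All singOfBd

/-- an infinite dimensional compact metric space of stable cohomotopy dimension at most `2` -/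
theorem finalGoal_holds : FinalGoal := finalGoal (existsCompactum existsTarget wwGood)

/-- the negative answer to Q1 -/
theorem not_Q1_holds : ¬ SMD.Q1 := not_Q1_of_finalGoal finalGoal_holds

end MM
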